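import Mathlib

-- part MP_646035_al.Bx.Circ
section

/-!
Cyclic orders, linked pairs, and a decision procedure for statements about finitely many points.
-/

namespace Pool.Agent.MP_646035_al.MC

variable {Ω : Type*} {r : Ω → Ω → Ω → Prop} {a b c d : Ω}

/-- A strict cyclic order. -/
structure Circ (r : Ω → Ω → Ω → Prop) : Prop where
  cyc : ∀ {a b c}, r a b c → r b c a
  asym : ∀ {a b c}, r a b c → ¬ r a c b
  tot : ∀ {a b c}, a ≠ b → b ≠ c → a ≠ c → r a b c ∨ r a c b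
  trans : ∀ {a b c d}, r a b c → r a c d → r a b d

/-- The pair `a, b` separates `c` from `d`. -/
def Lk (r : Ω → Ω → Ω → Prop) (a b c d : Ω) : Prop := r a c b ∧ r a b d ∨ r a d b ∧ r a b c

/-- Formulas about finitely many points. -/
inductive Fm : Type
  | c (i j k : ℕ) : Fm
  | e (i j : ℕ) : Fm
  | l (i j k m : ℕ) : Fm
  | f : Fm
  | n (φ : Fm) : Fm
  | a (φ ψ : Fm) : Fm
  | o (φ ψ : Fm) : Fm

/-- The meaning of a formula. -/
def Fm.ev (r : Ω → Ω → Ω → Prop) (v : ℕ → Ω) : Fm → Prop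
  | .c i j k => r (v i) (v j) (v k)
  | .e i j => v i = v j
  | .l i j k m => Lk r (v i) (v j) (v k) (v m)
  | .f => False
  | .n φ => ¬ φ.ev r v
  | .a φ ψ => φ.ev r v ∧ ψ.ev r v
  | .o φ ψ => φ.ev r v ∨ ψ.ev r v

/-- The cyclic order of the numbers. -/
def cyb (a b c : ℕ) : Bool := a.blt b && b.blt c || b.blt c && c.blt a || c.blt a && a.blt b

/-- The value of a formula at numbers. -/
def Fm.evb (v : ℕ → ℕ) : Fm → Bool
  | .c i j k => cyb (v i) (v j) (v k)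
  | .e i j => (v i).beq (v j)
  | .l i j k m => cyb (v i) (v k) (v j) && cyb (v i) (v j) (v m) ||
      cyb (v i) (v m) (v j) && cyb (v i) (v j) (v k)
  | .f => false
  | .n φ => !φ.evb v
  | .a φ ψ => φ.evb v && ψ.evb v
  | .o φ ψ => φ.evb v || ψ.evb v

/-- Only the first `q` points occur. -/
def Fm.bd (q : ℕ) : Fm → Bool
  | .c i j k => i.blt q && j.blt q && k.blt q
  | .e i j => i.blt q && j.blt q
  | .l i j k m => i.blt q && j.blt q && k.blt q && m.blt q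
  | .f => true
  | .n φ => φ.bd q
  | .a φ ψ => φ.bd q && ψ.bd q
  | .o φ ψ => φ.bd q && ψ.bd q

/-- Implications; `v` marks the place where the next point is chosen. -/
inductive St : Type
  | c (φ : Fm) : St
  | h (φ : Fm) (s : St) : St
  | v (s : St) : St

/-- The meaning of an implication. -/
def St.ev (r : Ω → Ω → Ω → Prop) (v : ℕ → Ω) : St → Prop
  | .c φ => φ.ev r v
  | .h φ s => φ.ev r v → s.ev r v
  | .v s => s.ev r v

/-- Points are chosen before they occur. -/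
def St.wf : St → ℕ → Bool
  | .c φ, q => φ.bd q
  | .h φ s, q => φ.bd q && s.wf q
  | .v s, q => s.wf (q + 1)

/-- A bounded quantifier. -/
def al (n : ℕ) (p : ℕ → Bool) : Bool := Nat.rec true (fun k t => p k && t) n

/-- The check of all choices of numbers below `n`. -/
def St.chk (n : ℕ) : St → ℕ → (ℕ → ℕ) → Bool
  | .c φ, _, w => φ.evb w
  | .h φ s, q, w => !φ.evb w || s.chk n q w
  | .v s, q, w => al n fun x => s.chk n (q + 1) fun i => bif i.beq q then x else w i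

/-- The whole check; the point with number zero is the least. -/
def St.ok (s : St) (n : ℕ) : Bool := s.wf 1 && s.chk n 1 fun _ => 0

lemma al_spec {n x : ℕ} {p : ℕ → Bool} (h : al n p = true) (hx : x < n) : p x = true := by
  induction n with
  | zero => omega
  | succ n ih =>
    have : (p n && al n p) = true := h
    rw [Bool.and_eq_true] at this
    rcases Nat.lt_succ_iff_lt_or_eq.1 hx with e | rfl
    exacts [ih this.2 e, this.1]

lemma Fm.iff {v : ℕ → Ω} {w : ℕ → ℕ} {q : ℕ}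
    (h1 : ∀ i < q, ∀ j < q, ∀ k < q, r (v i) (v j) (v k) ↔ cyb (w i) (w j) (w k) = true)
    (h2 : ∀ i < q, ∀ j < q, v i = v j ↔ w i = w j) (φ : Fm) (h : φ.bd q = true) :
    φ.ev r v ↔ φ.evb w = true := by
  induction φ with
  | c i j k =>
    simp only [bd, Bool.and_eq_true, Nat.blt_eq] at h
    exact h1 i h.1.1 j h.1.2 k h.2
  | e i j =>
    simp only [bd, Bool.and_eq_true, Nat.blt_eq] at h
    simpa [ev, evb] using h2 i h.1 j h.2
  | l i j k m =>
    simp only [bd, Bool.and_eq_true, Nat.blt_eq] at h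
    obtain ⟨⟨⟨a, b⟩, c⟩, d⟩ := h
    simp only [ev, evb, Lk, h1 i a k c j b, h1 i a j b m d, h1 i a m d j b, h1 i a j b k c,
      Bool.or_eq_true, Bool.and_eq_true]
  | f => simp [ev, evb]
  | n φ ih => simp [ev, evb, ih h]
  | a φ ψ i1 i2 =>
    simp only [bd, Bool.and_eq_true] at h
    simp [ev, evb, i1 h.1, i2 h.2]
  | o φ ψ i1 i2 =>
    simp only [bd, Bool.and_eq_true] at h
    simp [ev, evb, i1 h.1, i2 h.2]

lemma St.sound {v : ℕ → Ω} {f : ℕ → ℕ} {n : ℕ} (hf : ∀ i, f i < n)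
    (h1 : ∀ i j k, r (v i) (v j) (v k) ↔ cyb (f i) (f j) (f k) = true)
    (h2 : ∀ i j, v i = v j ↔ f i = f j) (s : St) :
    ∀ q w, (∀ i < q, w i = f i) → s.wf q = true → s.chk n q w = true → s.ev r v := by
  have key : ∀ q (w : ℕ → ℕ), (∀ i < q, w i = f i) → ∀ φ : Fm, φ.bd q = true →
      (φ.ev r v ↔ φ.evb w = true) := fun q w hw => Fm.iff
    (fun i a j b k c => by rw [hw i a, hw j b, hw k c, h1]) fun i a j b => by rw [hw i a, hw j b, h2]
  induction s with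
  | c φ => exact fun q w hw a b => (key q w hw φ a).2 b
  | h φ s ih =>
    intro q w hw a b c
    simp only [wf, Bool.and_eq_true] at a
    simp only [chk, (key q w hw φ a.1).1 c, Bool.not_true, Bool.false_or] at b
    exact ih q w hw a.2 b
  | v s ih =>
    intro q w hw a b
    refine ih (q + 1) _ (fun i hi => ?_) a (al_spec b (hf q))
    rcases Nat.lt_succ_iff_lt_or_eq.1 hi with e | rfl
    · rw [show i.beq q = false from Bool.eq_false_iff.2 fun a => e.ne (Nat.eq_of_beq_eq_true a)]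
      exact hw i e
    · simp

namespace Circ

variable (h : Circ r)
include h

lemma ne₁ (e : r a b c) : b ≠ c := by
  rintro rfl
  exact h.asym e e

lemma ne₂ (e : r a b c) : a ≠ b := h.ne₁ (h.cyc (h.cyc e))

lemma ne₃ (e : r a b c) : a ≠ c := (h.ne₁ (h.cyc e)).symm

/-- The linear order obtained by cutting at `o`. -/
lemma exists_lt (o : Ω) : ∃ t : Ω → Ω → Prop, (∀ a, ¬ t a o) ∧ (∀ a, ¬ t a a) ∧
    (∀ a b c, t a b → t b c → t a c) ∧ (∀ a b, a ≠ b → t a b ∨ t b a) ∧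
    ∀ a b c, r a b c ↔ t a b ∧ t b c ∨ t b c ∧ t c a ∨ t c a ∧ t a b := by
  let t : Ω → Ω → Prop := fun a b => a = o ∧ b ≠ o ∨ r o a b
  have t0 : ∀ a, ¬ t a o := fun a e => e.elim (fun e => e.2 rfl) fun e => h.ne₃ e rfl
  have t1 : ∀ a b c, t a b → t b c → r a b c := by
    rintro a b c (⟨rfl, e⟩ | e) (⟨rfl, e'⟩ | e')
    exacts [(e rfl).elim, e', (h.ne₃ e rfl).elim,
      h.cyc (h.cyc (h.trans (h.cyc e') (h.cyc (h.cyc e))))]
  have t2 : ∀ a b, a ≠ b → t a b ∨ t b a := fun a b e => by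
    by_cases x : a = o
    · exact Or.inl (Or.inl ⟨x, x ▸ e.symm⟩)
    by_cases y : b = o
    · exact Or.inr (Or.inl ⟨y, x⟩)
    exact (h.tot (Ne.symm x) e (Ne.symm y)).imp Or.inr Or.inr
  refine ⟨t, t0, fun a e => e.elim (fun e => e.2 e.1) fun e => h.ne₁ e rfl, ?_, t2,
    fun a b c => ⟨fun e => ?_, ?_⟩⟩
  · rintro a b c (⟨rfl, e⟩ | e) (⟨rfl, e'⟩ | e')
    exacts [(e rfl).elim, Or.inl ⟨rfl, (h.ne₃ e').symm⟩, (h.ne₃ e rfl).elim, Or.inr (h.trans e e')]
  · rcases t2 a b (h.ne₂ e) with x | x <;> rcases t2 b c (h.ne₁ e) with y | y <;>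
      rcases t2 a c (h.ne₃ e) with z | z
    exacts [Or.inl ⟨x, y⟩, Or.inl ⟨x, y⟩, (h.asym e (t1 _ _ _ z y)).elim, Or.inr (Or.inr ⟨z, x⟩),
      (h.asym e (h.cyc (t1 _ _ _ x z))).elim, Or.inr (Or.inl ⟨y, z⟩),
      (h.asym e (h.cyc (h.cyc (t1 _ _ _ y x)))).elim, (h.asym e (h.cyc (h.cyc (t1 _ _ _ y x)))).elim]
  · rintro (⟨x, y⟩ | ⟨x, y⟩ | ⟨x, y⟩)
    exacts [t1 _ _ _ x y, h.cyc (h.cyc (t1 _ _ _ x y)), h.cyc (t1 _ _ _ x y)]

/-- The decision procedure. Use: `h.dec n a [b, c, ..] rfl s (by decide +kernel)`. -/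
theorem dec (n : ℕ) (o : Ω) (l : List Ω) (hn : l.length + 1 = n) (s : St) (hs : s.ok n = true) :
    s.ev r fun i => (o :: l).getD i o := by
  classical
  subst hn
  obtain ⟨t, t0, t1, t2, t3, t4⟩ := h.exists_lt o
  let T := (o :: l).toFinset
  let g : Ω → ℕ := fun x => (T.filter fun y => t y x).card
  have hv : ∀ i, (o :: l).getD i o ∈ T := fun i => by
    rw [List.mem_toFinset, List.getD_eq_getElem?_getD]
    cases e : (o :: l)[i]? with
    | none => simp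
    | some x => exact List.mem_of_getElem? e
  have g1 : ∀ x ∈ T, ∀ y, t x y → g x < g y := fun x hx y e =>
    Finset.card_lt_card ⟨fun z hz => by
      rw [Finset.mem_filter] at hz ⊢
      exact ⟨hz.1, t2 _ _ _ hz.2 e⟩, fun a => t1 x (Finset.mem_filter.1 (a
        (Finset.mem_filter.2 ⟨hx, e⟩))).2⟩
  have g2 : ∀ x ∈ T, ∀ y ∈ T, (g x < g y ↔ t x y) := fun x hx y hy =>
    ⟨fun e => (t3 x y (by rintro rfl; omega)).resolve_right fun a => by
      have := g1 y hy x a; omega, g1 x hx y⟩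
  rw [St.ok, Bool.and_eq_true] at hs
  refine St.sound (f := fun i => g ((o :: l).getD i o)) (fun i => ?_) (fun i j k => ?_)
    (fun i j => ⟨fun e => by rw [e], fun e => by_contra fun a => ?_⟩) s 1 _ (fun i hi => ?_) hs.1 hs.2
  · exact (Finset.card_lt_card ⟨Finset.filter_subset (fun y => t y _) T, fun a =>
      t1 _ (Finset.mem_filter.1 (a (hv i))).2⟩).trans_le (List.toFinset_card_le _)
  · simp only [t4, cyb, Bool.or_eq_true, Bool.and_eq_true, Nat.blt_eq, g2 _ (hv _) _ (hv _), or_assoc]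
  · rcases t3 _ _ a with b | b
    exacts [(g1 _ (hv i) _ b).ne e, (g1 _ (hv j) _ b).ne' e]
  · obtain rfl : i = 0 := by omega
    exact (Finset.card_eq_zero.2 (Finset.filter_eq_empty_iff.2 fun y _ => t0 y)).symm

lemma lk_symm (e : Lk r a b c d) : Lk r c d a b :=
  h.dec 4 a [b, c, d] rfl (.v <| .v <| .v <| .h (.l 0 1 2 3) <| .c (.l 2 3 0 1)) (by decide +kernel) e

lemma lk_swap (e : Lk r a b c d) : Lk r b a c d :=
  h.dec 4 a [b, c, d] rfl (.v <| .v <| .v <| .h (.l 0 1 2 3) <| .c (.l 1 0 2 3)) (by decide +kernel) e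

omit h in
lemma lk_swap' (e : Lk r a b c d) : Lk r a b d c := Or.symm e

lemma lk_ne (e : Lk r a b c d) : a ≠ b ∧ a ≠ c ∧ a ≠ d ∧ b ≠ c ∧ b ≠ d ∧ c ≠ d :=
  h.dec 4 a [b, c, d] rfl (.v <| .v <| .v <| .h (.l 0 1 2 3) <| .c (.a (.n (.e 0 1)) <| .a (.n (.e 0 2)) <|
    .a (.n (.e 0 3)) <| .a (.n (.e 1 2)) <| .a (.n (.e 1 3)) (.n (.e 2 3)))) (by decide +kernel) e

/-- A pair that crosses the corner crosses one of the two sides. -/
lemma corner {b' d' c' : Ω} (e : Lk r b b' d d') (e' : Lk r b d c c') :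
    Lk r b b' c c' ∨ Lk r d d' c c' :=
  h.dec 6 b [d, c, c', b', d'] rfl (.v <| .v <| .v <| .h (.l 0 1 2 3) <| .v <| .v <| .h (.l 0 4 1 5) <|
    .c (.o (.l 0 4 2 3) (.l 1 5 2 3))) (by decide +kernel) e' e

end Circ

end Pool.Agent.MP_646035_al.MC

end

-- part MP_646035_al.Bx.Sys
section

/-!
Arcs and curves described by the cyclic order of the boundary lines: the axioms.
-/

namespace Pool.Agent.MP_646035_al.MC

variable (Γ : Type*) {Ω C : Type*} [Group Γ] [MulAction Γ Ω] (r : Ω → Ω → Ω → Prop)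

/-- No translate of `v` is linked with `u`. -/
def Dj (u v : Ω × Ω) : Prop := ∀ g : Γ, ¬ Lk r u.1 u.2 (g • v.1) (g • v.2)

/-- Simple arcs. -/
def Arc (u : Ω × Ω) : Prop := u.1 ≠ u.2 ∧ Dj Γ r u u

/-- No set of the family separates the ends of `u`. -/
def Miss (K : Set (Set Ω)) (u : Ω × Ω) : Prop := ∀ S ∈ K, (u.1 ∈ S ↔ u.2 ∈ S)

/-- All four quadrants are inhabited. -/
def Quad (S T : Set Ω) : Prop :=
  (∃ a ∈ S, a ∈ T) ∧ (∃ a ∈ S, a ∉ T) ∧ (∃ a ∉ S, a ∈ T) ∧ ∃ a ∉ S, a ∉ T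

/-- A group acting on a cyclically ordered set. -/
structure Act : Prop where
  circ : Circ r
  inv : ∀ (g : Γ) {a b c}, r a b c → r (g • a) (g • b) (g • c)
  swap : ∀ (g : Γ) (a b : Ω), g • a = b → g • b = a → a = b
  two : ∀ (g : Γ) (a b : Ω), a ≠ b → g • a = a → g • b = b → g = 1
  fin : ∀ a b c d, {g : Γ | Lk r a b (g • c) (g • d)}.Finite

/-- The sides of the lifts of a simple closed curve. -/
structure Cuts (K : Set (Set Ω)) : Prop where
  conv : ∀ S ∈ K, ∀ a ∈ S, ∀ b ∈ S, ∀ c ∉ S, ∀ d ∉ S, ¬ Lk r a b c d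
  compl : ∀ S ∈ K, Sᶜ ∈ K
  smul : ∀ S ∈ K, ∀ g : Γ, {a | g • a ∈ S} ∈ K
  nest : ∀ S ∈ K, ∀ T ∈ K, ¬ Quad S T
  fin : ∀ a b, {S ∈ K | a ∈ S ∧ b ∉ S}.Finite

/-- `t` generates the stabiliser of the side `S` and shifts both sides. -/
structure Gen (S : Set Ω) (t : Γ) : Prop where
  fix : ∀ a, t • a ∈ S ↔ a ∈ S
  gen : ∀ g : Γ, (∀ a, g • a ∈ S ↔ a ∈ S) → g ∈ Subgroup.zpowers t
  mono : ∀ a b, (a ∈ S ↔ b ∉ S) → ∀ i j k : ℤ, i < j → j < k →
    Lk r (t ^ i • a) (t ^ k • a) (t ^ j • a) b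

/-- Curves, their sides and their intersection numbers. -/
structure Sys (cut : C → Set (Set Ω)) (i : C → C → ℕ) : Prop extends Act Γ r where
  cuts : ∀ x, Cuts Γ r (cut x)
  symm : ∀ x y, i x y = i y x
  per : ∀ x, ∀ S ∈ cut x, ∃ t, Gen Γ r S t ∧ ∀ y (A : Set (Set Ω)), A.Finite →
    (∀ T ∈ A, T ∈ cut y ∧ Quad S T) → (∀ T ∈ A, ∀ T' ∈ A, ∀ k : ℤ,
      (∀ a, a ∈ T ↔ t ^ k • a ∈ T') ∨ (∀ a, a ∈ T ↔ t ^ k • a ∉ T') → T = T') → A.ncard ≤ i x y
  arc : ∃ u, Arc Γ r u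
  gap : ∃ z : Ω × Ω → C, (∀ u, Arc Γ r u → Miss (cut (z u)) u ∧
    ∀ w, Miss (cut w) u → i w (z u) = 0) ∧
    ∀ u v, Arc Γ r u → Arc Γ r v → Dj Γ r u v → i (z u) (z v) ≤ 8

variable {Γ r}

lemma Act.iff (A : Act Γ r) (g : Γ) {a b c : Ω} : r (g • a) (g • b) (g • c) ↔ r a b c :=
  ⟨fun h => by simpa using A.inv g⁻¹ h, A.inv g⟩

lemma Act.lk (A : Act Γ r) (g : Γ) {a b c d : Ω} :
    Lk r (g • a) (g • b) (g • c) (g • d) ↔ Lk r a b c d := by simp only [Lk, A.iff]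

end Pool.Agent.MP_646035_al.MC

end
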