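import Pool.Agent.MP_646035_al.Mg.H24_Bic
import Pool.Agent.MP_646035_al.Mg.Bx_Sys

attribute [-instance] SMulZeroClass.toSMul MonTypeEquivalenceMon.monMonoid Semiring.toMonoid
  Algebra.toSMul MonoidWithZero.toMonoid DivisionCommMonoid.toDivisionMonoid
  SemigroupWithZero.toSemigroup Fintype.decidableForallFintype Distrib.toMul

-- part MP_646035_al.H24.Top
section

/-!
Hyperbolicity of the graph of curves from a family of arcs with slim triangles.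
-/

namespace Pool.Agent.MP_646035_al.H24

open H71

variable {C A : Type*} {i : C → C → ℕ} {K n : ℕ} {Ms : C → A → Prop} {Dj : A → A → Prop}
  {U : A → A → Set A} {N : A → A → ℕ}

/-- `Ms x a` : the curve misses the arc; `Dj` : disjoint arcs; `U a b` : the unicorn arcs. -/
structure Top (i : C → C → ℕ) (K n : ℕ) (Ms : C → A → Prop) (Dj : A → A → Prop)
    (U : A → A → Set A) (N : A → A → ℕ) : Prop where
  symm : ∀ x y, i x y = i y x
  ex : ∀ u, ∃ z, Ms z u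
  gap : ∀ u v w w', Dj u v → Ms w u → Ms w' v → Pth (fun a b => i a b ≤ K) 3 w w'
  refl : ∀ u, Dj u u
  left : ∀ a b, a ∈ U a b
  right : ∀ a b, b ∈ U a b
  miss : ∀ a b x, ∀ u ∈ U a b, Ms x a → Ms x b → Ms x u
  chain : ∀ a b, ∀ u ∈ U a b, Pth (fun u v => Dj u v ∧ v ∈ U a b) (N a b) u b
  slim : ∀ a b c, ∀ u ∈ U a b, ∃ v, (v ∈ U a c ∨ v ∈ U c b) ∧ Dj u v
  pair : ∀ x y, x = y ∨ i x y ≤ K → ∃ a b, Ms x a ∧ Ms y b ∧ N a b ≤ n

theorem Top.hyp (T : Top i K n Ms Dj U N) :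
    ∃ (d : C → C → ℕ) (δ : ℕ), IsDist i K d ∧ ∀ (G : Type) [Group G] [MulAction G C],
      (∀ (g : G) a b, i (g • a) (g • b) = i a b) → Hyp G d δ := by
  have arc : ∀ x, ∃ a, Ms x a := fun x => (T.pair x x (Or.inl rfl)).imp fun _ ⟨_, h, _⟩ => h
  have far : ∀ a b m u v, Pth (fun u v => Dj u v ∧ v ∈ U a b) m u v → ∀ w w', Ms w u → Ms w' v →
      Pth (fun a b => i a b ≤ K) (3 * m + 3) w w' := by
    intro a b m u v p
    induction p with
    | nil m u => exact fun w w' h h' => pth_imp (fun _ _ => id) (T.gap u u w w' (T.refl u) h h') (by omega)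
    | @cons m u v _ r _ ih =>
      intro w w' h h'
      obtain ⟨z, hz⟩ := T.ex v
      exact pth_trans (T.gap u v w z r.1 h hz) (ih z w' hz h')
  obtain ⟨d, e, g⟩ := exists_dist (r := fun a b => i a b ≤ K) (fun a b h => by rwa [T.symm])
    fun x y => by
      obtain ⟨a, ha⟩ := arc x
      obtain ⟨b, hb⟩ := arc y
      exact ⟨_, far a b _ a b (T.chain a b a (T.left a b)) x y ha hb⟩
  have gap : ∀ u v w w', Dj u v → Ms w u → Ms w' v → d w w' ≤ 3 := fun u v w w' h1 h2 h3 =>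
    (e _ _ _).2 (T.gap u v w w' h1 h2 h3)
  have H : Guess d (fun x y => {w | ∃ a b, Ms x a ∧ Ms y b ∧ ∃ u ∈ U a b, Ms w u})
      (3 * n + 12) := by
    refine ⟨fun x y t ht => ?_, fun x y h w hw => ?_, fun x y z w hw => ?_⟩
    · obtain ⟨a, ha⟩ := arc x
      obtain ⟨b, hb⟩ := arc y
      have : ∀ m u v, Pth (fun u v => Dj u v ∧ v ∈ U a b) m u v → Ms y v → v ∈ U a b → u ∈ U a b →
          ∀ w, Ms w u → d x w ≤ t + 3 → ∃ u ∈ U a b, ∃ w, Ms w u ∧ t ≤ d x w ∧ d x w ≤ t + 3 := by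
        intro m u v p
        induction p with
        | nil m u =>
          intro h1 h2 _ w h3 h4
          have := gap u u w y (T.refl u) h3 h1; have := g.tri x w y
          rcases le_or_gt t (d x w) with k | k
          exacts [⟨u, h2, w, h3, k, h4⟩, ⟨u, h2, y, h1, ht, by omega⟩]
        | @cons m u v _ r _ ih =>
          intro h1 h2 h3 w h4 h5
          obtain ⟨z, hz⟩ := T.ex v
          have := gap u v w z r.1 h4 hz; have := g.tri x w z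
          rcases le_or_gt t (d x w) with k | k
          exacts [⟨u, h3, w, h4, k, h5⟩, ih h1 h2 r.2 z hz (by omega)]
      obtain ⟨u, h1, w, h2, h3, h4⟩ := this _ a b (T.chain a b a (T.left a b)) hb (T.right a b)
        (T.left a b) x ha (by simp [g.self])
      exact ⟨w, ⟨a, b, ha, hb, u, h1, h2⟩, h3, by omega⟩
    · obtain ⟨a, b, ha, hb, u, hu, hw⟩ := hw
      obtain ⟨a', b', ha', hb', hN⟩ := T.pair x y (by
        rcases (e 1 x y).1 h with _ | ⟨k, p⟩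
        · exact Or.inl rfl
        · cases p
          exact Or.inr k)
      rw [g.symm x w]
      rw [g.symm] at h
      obtain ⟨v, h1 | h1, h2⟩ := T.slim a b a' u hu
      · exact (gap u v w x h2 hw (T.miss _ _ _ v h1 ha ha')).trans (by omega)
      obtain ⟨z, hz⟩ := T.ex v
      have := gap u v w z h2 hw hz; have := g.tri w z x; have := g.tri z y x
      obtain ⟨v', h3 | h3, h4⟩ := T.slim a' b b' v h1
      · obtain ⟨z', hz'⟩ := T.ex v'
        have := gap v v' z z' h4 hz hz'; have := g.tri z z' y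
        have := (e _ _ _).2 (far _ _ _ _ _ (T.chain _ _ v' h3) z' y hz' hb')
        omega
      · have := gap v v' z y h4 hz (T.miss _ _ _ v' h3 hb' hb)
        omega
    · obtain ⟨a, b, ha, hb, u, hu, hw⟩ := hw
      obtain ⟨c, hc⟩ := arc z
      obtain ⟨v, h1, h2⟩ := T.slim a b c u hu
      obtain ⟨w', h3⟩ := T.ex v
      exact ⟨w', h1.imp (fun k => ⟨a, c, ha, hc, v, k, h3⟩) fun k => ⟨c, b, hc, hb, v, k, h3⟩,
        (gap u v w w' h2 hw h3).trans (by omega)⟩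
  refine ⟨d, _, e, fun G _ _ hi => g.hyp H G fun γ x y => ?_⟩
  have : ∀ (γ : G) n a b, Pth (fun a b => i a b ≤ K) n a b →
      Pth (fun a b => i a b ≤ K) n (γ • a) (γ • b) := fun γ n a b p => by
    induction p with
    | nil => exact .nil _ _
    | cons a _ ih => exact .cons (by rwa [hi]) ih
  refine le_antisymm ((e _ _ _).2 (this γ _ _ _ ((e _ _ _).1 le_rfl))) ((e _ _ _).2 ?_)
  simpa using this γ⁻¹ _ _ _ ((e _ (γ • x) (γ • y)).1 le_rfl)

end Pool.Agent.MP_646035_al.H24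

end

-- part MP_646035_al.Bx.Uni
section

/-!
Unicorn arcs in a cyclically ordered set of boundary lines, and hyperbolicity of the graph of
curves of a surface with boundary.
-/

namespace Pool.Agent.MP_646035_al.MC

open H71 H24

variable {Γ Ω C : Type*} [Group Γ] [MulAction Γ Ω] {r : Ω → Ω → Ω → Prop}
  {a b c d x y p q B D P : Ω} {u v w : Ω × Ω} {K L : Set (Set Ω)} {S T : Set Ω} {t : Γ}

/-- The pair `x, y` lies on the side of the pair `a, b` that does not contain `q`, and is not that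
pair. -/
def Ins (r : Ω → Ω → Ω → Prop) (x y a b q : Ω) : Prop :=
  (x = a ∨ x = b ∨ Lk r a b x q) ∧ (y = a ∨ y = b ∨ Lk r a b y q) ∧ (Lk r a b x q ∨ Lk r a b y q)

/-- The formula for `Ins`. -/
def insF (x y a b q : ℕ) : Fm := .a (.o (.e x a) <| .o (.e x b) (.l a b x q)) <|
  .a (.o (.e y a) <| .o (.e y b) (.l a b y q)) (.o (.l a b x q) (.l a b y q))

namespace Circ

variable (h : Circ r)
include h

lemma ins_sub (e : Ins r x y a b q) (e' : Lk r x y p q) : Lk r a b p q :=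
  h.dec 6 a [b, q, x, y, p] rfl (.v <| .v <| .v <| .v <| .h (insF 3 4 0 1 2) <| .v <|
    .h (.l 3 4 5 2) <| .c (.l 0 1 5 2)) (by decide +kernel) e e'

lemma ins_of (e : Lk r a b c d) (e' : Lk r x y a c) (n : ¬ Lk r a b x y) :
    Lk r x y c d ∧ Ins r x y a b d :=
  h.dec 6 a [b, c, d, x, y] rfl (.v <| .v <| .v <| .h (.l 0 1 2 3) <| .v <| .v <|
    .h (.l 4 5 0 2) <| .h (.n (.l 0 1 4 5)) <| .c (.a (.l 4 5 2 3) (insF 4 5 0 1 3)))
    (by decide +kernel) e e' n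

lemma ins_swap (e : Ins r y x b a q) : Ins r x y a b q :=
  h.dec 5 a [b, q, x, y] rfl (.v <| .v <| .v <| .v <| .h (insF 4 3 1 0 2) <| .c (insF 3 4 0 1 2))
    (by decide +kernel) e

lemma corner_simple {a' b' c' d' : Ω} (h1 : Lk r a c a' c') (h2 : ¬ Lk r a b a' c')
    (h3 : ¬ Lk r a b a' b') (h4 : ¬ Lk r a' b' a c) (h5 : r a c b → r a' c' b')
    (h6 : r a' c' b' → r a c b) (h7 : ¬ (a' = b ∧ b' = a)) (h8 : Lk r a b c d)
    (h9 : ¬ (Lk r a' b' c d ∧ Ins r a' b' a b d)) (h10 : Lk r a' b' c' d') (h11 : ¬ Lk r c d c' d')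
    (h12 : ¬ (Lk r a b c' d' ∧ Ins r a b a' b' d')) : False :=
  h.dec 8 a [c, a', c', b, b', d, d'] rfl (.v <| .v <| .v <| .h (.l 0 1 2 3) <| .v <|
    .h (.n (.l 0 4 2 3)) <| .v <| .h (.n (.l 0 4 2 5)) <| .h (.n (.l 2 5 0 1)) <|
    .h (.o (.n (.c 0 1 4)) (.c 2 3 5)) <| .h (.o (.n (.c 2 3 5)) (.c 0 1 4)) <|
    .h (.n (.a (.e 2 4) (.e 5 0))) <| .v <| .h (.l 0 4 1 6) <|
    .h (.n (.a (.l 2 5 1 6) (insF 2 5 0 4 6))) <| .v <| .h (.l 2 5 3 7) <| .h (.n (.l 1 6 3 7)) <|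
    .h (.n (.a (.l 0 4 3 7) (insF 0 4 2 5 7))) <| .c .f) (by decide +kernel) h1 h2 h3 h4
    (imp_iff_not_or.1 h5) (imp_iff_not_or.1 h6) h7 h8 h9 h10 h11 h12

lemma o1 (e : Lk r a x b q) (e' : Lk r a y b q) : ¬ Lk r a b x y :=
  h.dec 5 a [b, q, x, y] rfl (.v <| .v <| .v <| .h (.l 0 3 1 2) <| .v <| .h (.l 0 4 1 2) <|
    .c (.n (.l 0 1 3 4))) (by decide +kernel) e e'

lemma o3 (e : Lk r p q x y) (n : ¬ Lk r x y c d) (h1 : c ≠ x) (h2 : c ≠ y) (h3 : d ≠ x)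
    (h4 : d ≠ y) : Lk r x y p c ∨ Lk r x y q d :=
  h.dec 6 p [q, x, y, c, d] rfl (.v <| .v <| .v <| .h (.l 0 1 2 3) <| .v <| .v <|
    .h (.n (.l 2 3 4 5)) <| .h (.n (.e 4 2)) <| .h (.n (.e 4 3)) <| .h (.n (.e 5 2)) <|
    .h (.n (.e 5 3)) <| .c (.o (.l 2 3 0 4) (.l 2 3 1 5))) (by decide +kernel) e n h1 h2 h3 h4

lemma o4 (e : Lk r x y p q) (n : ¬ Lk r p q x c) (n' : ¬ Lk r p q y d) (h1 : c ≠ p) (h2 : c ≠ q)
    (h3 : d ≠ p) (h4 : d ≠ q) : Lk r p q c d :=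
  h.dec 6 p [q, x, y, c, d] rfl (.v <| .v <| .v <| .h (.l 2 3 0 1) <| .v <| .h (.n (.l 0 1 2 4)) <|
    .v <| .h (.n (.l 0 1 3 5)) <| .h (.n (.e 4 0)) <| .h (.n (.e 4 1)) <| .h (.n (.e 5 0)) <|
    .h (.n (.e 5 1)) <| .c (.l 0 1 4 5)) (by decide +kernel) e n n' h1 h2 h3 h4

lemma alt (e : Lk r a c b q) (e' : Lk r a d c q) : Lk r a c b d :=
  h.dec 5 a [b, c, q, d] rfl (.v <| .v <| .v <| .h (.l 0 2 1 3) <| .v <| .h (.l 0 4 2 3) <|
    .c (.l 0 2 1 4)) (by decide +kernel) e e'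

lemma int1 (e : Lk r a c b y) (e' : Lk r a b x y) : ¬ Lk r b c x y :=
  h.dec 5 a [b, c, y, x] rfl (.v <| .v <| .v <| .h (.l 0 2 1 3) <| .v <| .h (.l 0 1 4 3) <|
    .c (.n (.l 1 2 4 3))) (by decide +kernel) e e'

lemma int2 (e : Lk r a c b y) (e' : Lk r b d c y) (e'' : Lk r a b x y) : ¬ Lk r c d x y :=
  h.dec 6 a [b, c, y, d, x] rfl (.v <| .v <| .v <| .h (.l 0 2 1 3) <| .v <| .h (.l 1 4 2 3) <| .v <|
    .h (.l 0 1 5 3) <| .c (.n (.l 2 4 5 3))) (by decide +kernel) e e' e''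

end Circ

variable (Γ r) in
/-- The pair `a, b` is the first among its translates on the pair `c, d`. -/
def First (a b c d : Ω) : Prop :=
  Lk r a b c d ∧ ∀ g : Γ, ¬ (Lk r (g • a) (g • b) c d ∧ Ins r (g • a) (g • b) a b d)

variable (Γ r) in
/-- The translates of `v` that are linked with `u`. -/
def Crs (u v : Ω × Ω) : Set Γ := {g | Lk r u.1 u.2 (g • v.1) (g • v.2)}

namespace Act

variable (A : Act Γ r)
include A

lemma ins (g : Γ) : Ins r (g • x) (g • y) (g • a) (g • b) (g • q) ↔ Ins r x y a b q := by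
  simp only [Ins, A.lk, smul_left_cancel_iff]

lemma lk_move (g : Γ) : Lk r (g • a) (g • b) c d ↔ Lk r a b (g⁻¹ • c) (g⁻¹ • d) := by
  rw [← A.lk g⁻¹, inv_smul_smul, inv_smul_smul]

lemma two_smul (h : Dj Γ r u v) (g k : Γ) : ¬ Lk r (g • u.1) (g • u.2) (k • v.1) (k • v.2) := by
  rw [A.lk_move, ← mul_smul, ← mul_smul]
  exact h _

lemma exists_first (h : ¬ Dj Γ r u v) : ∃ g : Γ, First Γ r u.1 u.2 (g • v.1) (g • v.2) := by
  obtain ⟨k, hk⟩ := not_forall.1 h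
  obtain ⟨g, h1, h2⟩ := (A.fin v.1 v.2 u.1 u.2).exists_minimalFor
    (fun g : Γ => {z | Lk r (g • u.1) (g • u.2) z v.2}) _
    ⟨k⁻¹, A.circ.lk_symm (by simpa [A.lk_move] using hk)⟩
  refine ⟨g⁻¹, (A.lk_move g).1 (A.circ.lk_symm h1), fun k ⟨h3, h4⟩ => ?_⟩
  rw [← A.lk_move, ← mul_smul, ← mul_smul] at h3
  rw [← A.ins g, smul_inv_smul, ← mul_smul, ← mul_smul] at h4
  have h5 := h2 (A.circ.lk_symm h3) fun z => A.circ.ins_sub h4
  rcases h4.2.2 with e | e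
  exacts [(A.circ.lk_ne (h5 e)).2.1 rfl, (A.circ.lk_ne (h5 e)).2.2.2.1 rfl]

lemma first_swap (h : First Γ r a b c d) : First Γ r b a c d :=
  ⟨A.circ.lk_swap h.1, fun g e => h.2 g ⟨A.circ.lk_swap e.1, A.circ.ins_swap e.2⟩⟩

lemma dj_swap (h : Dj Γ r (b, a) (d, c)) : Dj Γ r (a, b) (c, d) := fun g e =>
  h g (A.circ.lk_swap (Circ.lk_swap' e))

lemma dj_smul (h : Dj Γ r u v) (g k : Γ) : Dj Γ r (g • u.1, g • u.2) (k • v.1, k • v.2) := fun l => by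
  simpa [mul_smul] using A.two_smul h g (l * k)

/-- The corner at the first crossing. -/
lemma corner (hu : Dj Γ r (a, b) (a, b)) (hc : Dj Γ r (c, d) (c, d)) (h : First Γ r a b c d) :
    Arc Γ r (a, c) ∧ Dj Γ r (a, b) (a, c) := by
  have h1 : Dj Γ r (a, b) (a, c) := fun g e =>
    h.2 g⁻¹ (A.circ.ins_of h.1 (by simpa [A.lk_move] using e) (hu g⁻¹))
  refine ⟨⟨(A.circ.lk_ne h.1).2.1, fun g e => ?_⟩, h1⟩
  refine A.circ.corner_simple e (h1 g) (hu g) (by simpa using A.two_smul h1 g 1) (A.inv g)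
    (A.iff g).1 (fun k => (A.circ.lk_ne h.1).1 (A.swap g a b k.1 k.2)) h.1 (h.2 g)
    ((A.lk g).2 h.1) (hc g) fun k => h.2 g⁻¹ ?_
  rwa [← A.lk g, ← A.ins g, smul_inv_smul, smul_inv_smul]

end Act

variable (Γ r) in
/-- The unicorn arcs of two simple arcs. -/
def Uni (a b : {u // Arc Γ r u}) : Set {u // Arc Γ r u} :=
  {u | u = a ∨ u = b ∨ ∃ k ∈ Crs Γ r a.1 b.1, u.1 = (a.1.1, k • b.1.1)}

namespace Act

variable (A : Act Γ r) {α β μ : {u // Arc Γ r u}}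
include A

lemma crs_sub (h : μ ∈ Uni Γ r α β) : Crs Γ r μ.1 β.1 ⊆ Crs Γ r α.1 β.1 := by
  rcases h with rfl | rfl | ⟨k, h, e⟩
  exacts [subset_rfl, fun g e => (μ.2.2 g e).elim, fun g e' =>
    (A.circ.corner h (by simpa [Crs, e] using e')).resolve_right (A.two_smul β.2.2 k g)]

lemma chain (n : ℕ) : ∀ μ ∈ Uni Γ r α β, (Crs Γ r μ.1 β.1).ncard ≤ n →
    Pth (fun u v => Dj Γ r u.1 v.1 ∧ v ∈ Uni Γ r α β) (n + 1) μ β := by
  have key : ∀ μ ∈ Uni Γ r α β, Dj Γ r μ.1 β.1 ∨ ∃ ν ∈ Uni Γ r α β, Dj Γ r μ.1 ν.1 ∧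
      (Crs Γ r ν.1 β.1).ncard < (Crs Γ r μ.1 β.1).ncard := fun μ h => by
    refine or_iff_not_imp_left.2 fun e => ?_
    obtain ⟨g, f⟩ := A.exists_first e
    obtain ⟨h1, h2⟩ := A.corner μ.2.2 (A.dj_smul β.2.2 g g) f
    have h3 : μ.1.1 = α.1.1 := by
      rcases h with rfl | rfl | ⟨k, -, e'⟩
      exacts [rfl, (e μ.2.2).elim, by rw [e']]
    refine ⟨⟨_, h1⟩, Or.inr (Or.inr ⟨g, A.crs_sub h f.1, Prod.ext h3 rfl⟩), h2, Set.ncard_lt_ncard
      ⟨A.crs_sub (μ := ⟨_, h1⟩) (Or.inr (Or.inr ⟨g, f.1, rfl⟩)), fun s => ?_⟩ (A.fin _ _ _ _)⟩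
    exact (A.circ.lk_ne (s f.1)).2.2.2.1 rfl
  induction n with
  | zero =>
    exact fun μ h e => .cons ⟨(key μ h).resolve_right fun ⟨_, _, _, k⟩ => by omega,
      Or.inr (Or.inl rfl)⟩ (.nil _ _)
  | succ n ih =>
    intro μ h e
    rcases key μ h with k | ⟨ν, h1, h2, h3⟩
    exacts [.cons ⟨k, Or.inr (Or.inl rfl)⟩ (.nil _ _), .cons ⟨h2, h1⟩ (ih ν h1 (by omega))]

lemma slim (χ : {u // Arc Γ r u}) (h : μ ∈ Uni Γ r α β) :
    ∃ ν, (ν ∈ Uni Γ r α χ ∨ ν ∈ Uni Γ r χ β) ∧ Dj Γ r μ.1 ν.1 := by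
  rcases h with rfl | rfl | ⟨k, h, e⟩
  · exact ⟨μ, Or.inl (Or.inl rfl), μ.2.2⟩
  · exact ⟨μ, Or.inr (Or.inr (Or.inl rfl)), μ.2.2⟩
  by_cases hd : Dj Γ r μ.1 χ.1
  · exact ⟨χ, Or.inr (Or.inl rfl), hd⟩
  obtain ⟨g, f⟩ := A.exists_first hd
  have hμ := μ.2.2
  rw [e] at f hμ ⊢
  rcases A.circ.corner h f.1 with h1 | h1
  · obtain ⟨h2, h3⟩ := A.corner hμ (A.dj_smul χ.2.2 g g) f
    exact ⟨⟨_, h2⟩, Or.inl (Or.inr (Or.inr ⟨g, h1, rfl⟩)), h3⟩
  · obtain ⟨h2, h3⟩ := A.corner (A.dj_swap hμ) (A.dj_smul χ.2.2 g g) (A.first_swap f)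
    refine ⟨⟨(χ.1.1, (g⁻¹ * k) • β.1.1), ?_, ?_⟩, Or.inr (Or.inr (Or.inr ⟨g⁻¹ * k, ?_, rfl⟩)), ?_⟩
    · simpa only [mul_smul, ne_eq, eq_inv_smul_iff] using h2.1.symm
    · simpa only [mul_smul, inv_smul_smul] using A.dj_smul (A.dj_swap h2.2) g⁻¹ g⁻¹
    · simpa only [Crs, Set.mem_ofPred_eq, mul_smul, ← A.lk_move] using A.circ.lk_symm h1
    · simpa only [mul_smul, one_smul, inv_smul_smul] using A.dj_smul (A.dj_swap h3) 1 g⁻¹

lemma miss (hK : Cuts Γ r K) (h : μ ∈ Uni Γ r α β) (ha : Miss K α.1) (hb : Miss K β.1) :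
    Miss K μ.1 := by
  rcases h with rfl | rfl | ⟨k, h, e⟩
  exacts [ha, hb, fun S hS => by
    have h1 := ha S hS
    have h2 : k • β.1.1 ∈ S ↔ k • β.1.2 ∈ S := hb _ (hK.smul S hS k)
    rw [e]
    exact ⟨fun s => by_contra fun s' => hK.conv S hS _ s _ (h1.1 s) _ s' _ (mt h2.2 s') h,
      fun s => by_contra fun s' => hK.conv S hS _ s _ (h2.1 s) _ s' _ (mt h1.2 s')
        (A.circ.lk_symm h)⟩]

end Act

lemma Gen.zpow (G : Gen Γ r S t) (k : ℤ) (a : Ω) : t ^ k • a ∈ S ↔ a ∈ S := by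
  induction k using Int.induction_on with
  | zero => simp
  | succ n ih => rw [add_comm, zpow_one_add, mul_smul, G.fix, ih]
  | pred n ih => rw [← G.fix, ← mul_smul, ← zpow_one_add, add_sub_cancel, ih]

variable (Γ r) in
/-- `S` is the first side of the family `K` along the simple arc from `P` to `D`. -/
structure Fst (K : Set (Set Ω)) (P D : Ω) (S : Set Ω) (t : Γ) : Prop where
  act : Act Γ r
  cuts : Cuts Γ r K
  arc : Dj Γ r (P, D) (P, D)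
  mem : S ∈ K
  p : P ∈ S
  d : D ∉ S
  min : ∀ T ∈ K, P ∈ T → T ⊆ S → S ⊆ T
  gen : Gen Γ r S t

namespace Fst

variable (F : Fst Γ r K P D S t)
include F

lemma tp : t • P ∈ S := (F.gen.fix P).2 F.p

lemma td : t • D ∉ S := mt (F.gen.fix D).1 F.d

lemma mono (hq : q ∉ S) {i j k : ℤ} (h : i < j) (h' : j < k) :
    Lk r (t ^ i • P) (t ^ k • P) (t ^ j • P) q := F.gen.mono P q (iff_of_true F.p hq) i j k h h'

lemma miss : Miss K (P, t • P) := by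
  have key : ∀ T ∈ K, T ⊆ S → (P ∈ T ↔ t • P ∈ T) := fun T hT s =>
    ⟨fun e => F.min T hT e s F.tp, fun e => by
      simpa using F.min _ (F.cuts.smul T hT t) e (fun a h => (F.gen.fix a).1 (s h))
        ((F.gen.zpow (-1) P).2 F.p)⟩
  intro T hT
  by_contra h
  refine F.cuts.nest S F.mem T hT ⟨?_, ?_, by_contra fun e => h (key T hT fun a b => ?_),
    by_contra fun e => h (not_iff_not.1 (key _ (F.cuts.compl T hT) fun a b => ?_))⟩
  · by_cases e : P ∈ T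
    exacts [⟨P, F.p, e⟩, ⟨_, F.tp, by tauto⟩]
  · by_cases e : P ∈ T
    exacts [⟨_, F.tp, by tauto⟩, ⟨P, F.p, e⟩]
  all_goals exact by_contra fun n => e ⟨a, n, b⟩

lemma split (hx : x ∈ S) (hy : y ∈ S) (e : Lk r P (t • P) x y) :
    Lk r x y P D ∨ Lk r x y (t • P) (t • D) :=
  F.act.circ.o3 e (F.cuts.conv S F.mem x hx y hy _ F.d _ F.td) (fun k => F.d (k ▸ hx))
    (fun k => F.d (k ▸ hy)) (fun k => F.td (k ▸ hx)) fun k => F.td (k ▸ hy)

lemma simple : Arc Γ r (P, t • P) := by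
  have c := F.act.circ
  refine ⟨by simpa using (c.lk_ne (F.mono F.d zero_lt_one one_lt_two)).2.1, fun h e => ?_⟩
  have both : ∀ g : Γ, Lk r P (t • P) (g • P) (g • t • P) → g • P ∈ S ∧ g • t • P ∈ S := fun g e => by
    have m : g • P ∈ S ↔ g • t • P ∈ S := F.miss _ (F.cuts.smul S F.mem g)
    have : g • P ∈ S := by_contra fun n => F.cuts.conv S F.mem _ F.p _ F.tp _ n _ (mt m.2 n) e
    exact ⟨this, m.1 this⟩
  obtain ⟨h1, h2⟩ := both h e
  obtain ⟨h3, h4⟩ := both h⁻¹ ((F.act.lk_move h).1 (c.lk_symm e))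
  have hS := F.cuts.smul S F.mem h⁻¹
  have k1 : ¬ S ⊆ {a | h⁻¹ • a ∈ S} := fun s => by
    have s' : {a | h • a ∈ S} ⊆ S := fun a b => by simpa using s b
    obtain ⟨k, rfl⟩ := F.gen.gen h fun a =>
      ⟨fun b => s' b, fun b => F.min _ (F.cuts.smul S F.mem h) h1 s' b⟩
    simp only [← mul_smul, ← zpow_add_one] at e
    have := c.lk_ne e
    rcases lt_or_ge k (-1) with a | a
    · exact c.o1 (by simpa using c.lk_swap (F.mono F.d (by omega : k < 0) zero_lt_one))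
        (by simpa using c.lk_swap (F.mono F.d (by omega : k + 1 < 0) zero_lt_one)) (c.lk_swap e)
    rcases lt_or_ge 1 k with b | b
    · exact c.o1 (by simpa using F.mono F.d zero_lt_one b)
        (by simpa using F.mono F.d zero_lt_one (by omega : 1 < k + 1)) e
    interval_cases k <;> simp only [ne_eq, Int.reduceNeg, zpow_neg, zpow_ofNat, pow_one, neg_add_cancel, pow_zero, one_smul, not_true_eq_false, false_and, and_false, zero_add, and_self, Int.reduceAdd] at this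
  refine F.cuts.nest S F.mem _ hS ⟨⟨P, F.p, h3⟩, Set.not_subset.1 k1, by_contra fun n => k1 ?_,
    by_contra fun n => ?_⟩
  · exact F.min _ hS h3 fun a b => by_contra fun m => n ⟨a, m, b⟩
  have s : ∀ a ∉ S, h⁻¹ • a ∈ S := fun a b => by_contra fun m => n ⟨a, b, m⟩
  have key : ∀ g : Γ, h⁻¹ • g • P ∈ S → h⁻¹ • g • D ∈ S →
      ¬ Lk r (h • P) (h • t • P) (g • P) (g • D) := fun g a b l => by
    have n1 : h • D ∉ {a | h⁻¹ • a ∈ S} := by simpa using F.d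
    have n2 : h • t • D ∉ {a | h⁻¹ • a ∈ S} := by simpa using F.td
    exact F.cuts.conv _ hS _ a _ b _ n1 _ n2 (c.o4 l (F.act.two_smul F.arc g h)
      (by simpa only [mul_smul] using F.act.two_smul F.arc g (h * t)) (fun k => n1 (k ▸ a))
      (fun k => n1 (k ▸ b)) (fun k => n2 (k ▸ a)) fun k => n2 (k ▸ b))
  exact (F.split h1 h2 e).elim (by simpa using key 1 (by simpa using h3) (by simpa using s _ F.d))
    (key t h4 (s _ F.td))

lemma count (hL : Cuts Γ r L) (hm : Miss L (P, D)) {n : ℕ} (h : ∀ A : Set (Set Ω), A.Finite →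
    (∀ T ∈ A, T ∈ L ∧ Quad S T) → (∀ T ∈ A, ∀ T' ∈ A, ∀ k : ℤ, (∀ a, a ∈ T ↔ t ^ k • a ∈ T') ∨
      (∀ a, a ∈ T ↔ t ^ k • a ∉ T') → T = T') → A.ncard ≤ n) :
    {T ∈ L | P ∈ T ∧ t • P ∉ T}.ncard ≤ n := by
  have c := F.act.circ
  have m : ∀ T ∈ L, t • P ∉ T → t • D ∉ T := fun T hT => mt (hm _ (hL.smul T hT t)).2
  refine h _ (hL.fin _ _) (fun T ⟨a, b, e⟩ => ⟨a, ⟨P, F.p, b⟩, ⟨_, F.tp, e⟩,
    ⟨D, F.d, (hm T a).1 b⟩, _, F.td, m T a e⟩) ?_
  rintro T ⟨-, a1, a2⟩ T' ⟨b0, b1, b2⟩ k (e | e)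
  · have e1 := (e P).1 a1
    have e2 := mt (e _).2 a2
    rw [← mul_smul, ← zpow_add_one] at e2
    rcases lt_or_ge k (-1) with a | a
    · exact (hL.conv T' b0 _ e1 _ b1 _ e2 _ b2 (by
        simpa using c.alt (F.mono F.d (lt_add_one k) (by omega : k + 1 < 0))
          (F.mono F.d (by omega : k < 0) zero_lt_one))).elim
    rcases lt_or_ge 1 k with b | b
    · exact (hL.conv T' b0 _ b1 _ e1 _ b2 _ e2 (by
        simpa using c.alt (F.mono F.d zero_lt_one b)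
          (F.mono F.d (by omega : 0 < k) (lt_add_one k)))).elim
    interval_cases k
    exacts [(e2 (by simpa using b1)).elim, Set.ext (by simpa only [zpow_ofNat, pow_zero, one_smul] using e), (b2 (by simpa using e1)).elim]
  · have e1 := (e P).1 a1
    have e2 := not_not.1 (mt (e _).2 a2)
    rw [← mul_smul, ← zpow_add_one] at e2
    rcases lt_trichotomy k 0 with a | rfl | a
    · exact (hL.conv T' b0 _ b1 _ ((hm T' b0).1 b1) _ e1 _ b2
        (by simpa using c.lk_symm (F.mono F.d a zero_lt_one))).elim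
    · exact (e1 (by simpa using b1)).elim
    · exact (hL.conv T' b0 _ b1 _ e2 _ b2 _ (m T' b0 b2)
        (by simpa using F.mono F.td zero_lt_one (by omega : 1 < k + 1))).elim

lemma once (hq : q ∉ S) {i j : ℤ} (h : i < j) (e : Lk r (t ^ i • P) (t ^ (i + 1) • P) x q) :
    ¬ Lk r (t ^ j • P) (t ^ (j + 1) • P) x q := by
  rcases (Int.add_one_le_of_lt h).eq_or_lt with rfl | a
  exacts [F.act.circ.int1 (F.mono hq h (lt_add_one _)) e,
    F.act.circ.int2 (F.mono hq (lt_add_one _) a) (F.mono hq a (lt_add_one _)) e]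

lemma crs : (Crs Γ r (P, D) (P, t • P)).ncard ≤ 2 * {T ∈ K | P ∈ T ∧ D ∉ T}.ncard := by
  have c := F.act.circ
  have h1 : {T ∈ K | D ∈ T ∧ P ∉ T}.ncard ≤ {T ∈ K | P ∈ T ∧ D ∉ T}.ncard :=
    Set.ncard_le_ncard_of_injOn compl (fun T h => ⟨F.cuts.compl T h.1, h.2.2, not_not.2 h.2.1⟩)
      compl_injective.injOn (F.cuts.fin _ _)
  have h2 : ∀ g ∈ Crs Γ r (P, D) (P, t • P), Lk r P (t • P) (g⁻¹ • P) (g⁻¹ • D) := fun g e =>
    (F.act.lk_move g).1 (c.lk_symm e)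
  have h3 : ∀ g ∈ Crs Γ r (P, D) (P, t • P), g⁻¹ • P ∈ S ∧ g⁻¹ • D ∉ S ∨
      g⁻¹ • D ∈ S ∧ g⁻¹ • P ∉ S := fun g e => by
    by_cases a : g⁻¹ • P ∈ S <;> by_cases b : g⁻¹ • D ∈ S
    · exact ((F.split a b (h2 g e)).elim (by simpa using F.act.two_smul F.arc g⁻¹ 1)
        (F.act.two_smul F.arc g⁻¹ t)).elim
    exacts [Or.inl ⟨a, b⟩, Or.inr ⟨b, a⟩,
      (F.cuts.conv S F.mem _ F.p _ F.tp _ a _ b (h2 g e)).elim]
  refine (Set.ncard_le_ncard_of_injOn (fun g : Γ => {a | g⁻¹ • a ∈ S}) (fun g e => ?_)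
    (fun g e g' e' s => ?_) ((F.cuts.fin P D).union (F.cuts.fin D P))).trans
    ((Set.ncard_union_le _ _).trans (by omega))
  · exact (h3 g e).imp (And.intro (F.cuts.smul S F.mem _)) (And.intro (F.cuts.smul S F.mem _))
  obtain ⟨k, hk⟩ := F.gen.gen (g⁻¹ * g') fun a => by
    simpa [mul_smul] using Set.ext_iff.1 s (g' • a)
  obtain rfl : g' = g * t ^ k := by simp [hk]
  have l0 : Lk r (t ^ (0 : ℤ) • P) (t ^ (0 + 1 : ℤ) • P) (g⁻¹ • P) (g⁻¹ • D) := by simpa using h2 g e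
  have l1 : Lk r (t ^ k • P) (t ^ (k + 1) • P) (g⁻¹ • P) (g⁻¹ • D) := by
    simpa only [zpow_add_one, mul_smul, F.act.lk_move, mul_inv_rev] using h2 _ e'
  rcases lt_trichotomy k 0 with a | rfl | a
  · exact ((h3 g e).elim (fun b => F.once b.2 a l1 l0) fun b =>
      F.once b.2 a (Circ.lk_swap' l1) (Circ.lk_swap' l0)).elim
  · simp
  · exact ((h3 g e).elim (fun b => F.once b.2 a l0 l1) fun b =>
      F.once b.2 a (Circ.lk_swap' l0) (Circ.lk_swap' l1)).elim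

end Fst

namespace Sys

variable {cut : C → Set (Set Ω)} {i : C → C → ℕ} (Y : Sys Γ r cut i)
include Y

/-- The loop round a curve at its first crossing with a simple arc. -/
lemma loop (x : C) (hu : Arc Γ r u) (h : ¬ Miss (cut x) u) : ∃ v, Arc Γ r v ∧ Miss (cut x) v ∧
    (∀ y, Miss (cut y) u → {T ∈ cut y | v.1 ∈ T ∧ v.2 ∉ T}.ncard ≤ i x y) ∧
    (Crs Γ r u v).ncard ≤ 2 * {T ∈ cut x | u.1 ∈ T ∧ u.2 ∉ T}.ncard := by
  obtain ⟨S, ⟨h1, h2, h3⟩, h4⟩ := ((Y.cuts x).fin u.1 u.2).exists_minimal (by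
    obtain ⟨T, h1, h2⟩ : ∃ T ∈ cut x, ¬ (u.1 ∈ T ↔ u.2 ∈ T) := by simpa [Miss] using h
    by_cases e : u.1 ∈ T
    exacts [⟨T, h1, e, by tauto⟩, ⟨Tᶜ, (Y.cuts x).compl T h1, e, by simp; tauto⟩])
  obtain ⟨t, g, hc⟩ := Y.per x S h1
  have F : Fst Γ r (cut x) u.1 u.2 S t :=
    ⟨Y.toAct, Y.cuts x, hu.2, h1, h2, h3, fun T a b s => h4 ⟨a, b, fun e => h3 (s e)⟩ s, g⟩
  exact ⟨_, F.simple, F.miss, fun y m => F.count (Y.cuts y) m (hc y), F.crs⟩

lemma pair (x y : C) : ∃ a b, Arc Γ r a ∧ Arc Γ r b ∧ Miss (cut x) a ∧ Miss (cut y) b ∧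
    (Crs Γ r a b).ncard ≤ 2 * i x y ∧ (x = y → a = b) := by
  have zero : ∀ u, Arc Γ r u → (Crs Γ r u u).ncard ≤ 2 * i x y := fun u h => by
    simp [show Crs Γ r u u = ∅ from Set.eq_empty_of_forall_notMem h.2]
  obtain ⟨u, hu, m⟩ : ∃ u, Arc Γ r u ∧ Miss (cut y) u := by
    obtain ⟨u, hu⟩ := Y.arc
    by_cases h : Miss (cut y) u
    exacts [⟨u, hu, h⟩, (Y.loop y hu h).imp fun _ e => ⟨e.1, e.2.1⟩]
  by_cases h : Miss (cut x) u
  · exact ⟨u, u, hu, hu, h, m, zero u hu, fun _ => rfl⟩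
  obtain ⟨v, hv, h1, h2, -⟩ := Y.loop x hu h
  by_cases h' : Miss (cut y) v
  · exact ⟨v, v, hv, hv, h1, h', zero v hv, fun _ => rfl⟩
  obtain ⟨w, hw, h3, -, h4⟩ := Y.loop y hv h'
  exact ⟨v, w, hv, hw, h1, h3, h4.trans (Nat.mul_le_mul_left 2 (h2 y m)), fun e => (h (e ▸ m)).elim⟩

/-- Hyperbolicity of the graph of curves of a surface with boundary. -/
theorem hyp {K : ℕ} (hK : 8 ≤ K) : ∃ (d : C → C → ℕ) (δ : ℕ), IsDist i K d ∧
    ∀ (G : Type) [Group G] [MulAction G C], (∀ (g : G) a b, i (g • a) (g • b) = i a b) →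
      H24.Hyp G d δ := by
  obtain ⟨z, z1, z2⟩ := Y.gap
  refine Top.hyp (n := 2 * K + 1) (Ms := fun x u => Miss (cut x) u.1)
    (Dj := fun u v => Dj Γ r u.1 v.1) (U := Uni Γ r) (N := fun a b => (Crs Γ r a.1 b.1).ncard + 1)
    ⟨Y.symm, fun u => ⟨_, (z1 _ u.2).1⟩, fun u v w w' h1 h2 h3 => ?_, fun u => u.2.2,
      fun _ _ => Or.inl rfl, fun _ _ => Or.inr (Or.inl rfl),
      fun a b x u h => Y.toAct.miss (Y.cuts x) h, fun a b u h => Y.toAct.chain _ u h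
        (Set.ncard_le_ncard (Y.toAct.crs_sub h) (Y.fin _ _ _ _)),
      fun a b c u h => Y.toAct.slim c h, fun x y h => ?_⟩
  · exact .cons (b := z u) (by simp [(z1 _ u.2).2 w h2]) (.cons ((z2 _ _ u.2 v.2 h1).trans hK)
      (.cons (by simp [Y.symm _ w', (z1 _ v.2).2 w' h3]) (.nil _ _)))
  · obtain ⟨a, b, h1, h2, h3, h4, h5, h6⟩ := Y.pair x y
    refine ⟨⟨a, h1⟩, ⟨b, h2⟩, h3, h4, Nat.succ_le_succ (h.elim (fun e => ?_) fun e => h5.trans (by omega))⟩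
    obtain rfl := h6 e
    simp [show Crs Γ r a a = ∅ from Set.eq_empty_of_forall_notMem h1.2]

end Sys

end Pool.Agent.MP_646035_al.MC

end
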