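import Pool.Agent.MP_646035_al.Mg.H84_GDefs

attribute [-instance] SemigroupAction.toSMul Submonoid.instSMulSubtypeMem
  DivisionCommMonoid.toDivisionMonoid GradedMonoid.GradeZero.mulAction SMulWithZero.toSMulZeroClass
  CommSemiring.toSemiring NonUnitalRingHomClass.toMulHomClass
  Action.FintypeCat.instMulActionObjFiniteOf littleWedderburn AddQuantale.instAddLeftMono
  MonTypeEquivalenceMon.monMonoid SubringClass.toRing Algebra.toSMul
  MulSemiringAction.toDistribMulAction instSMulZeroClass IdemSemiring.toCanonicallyOrderedAdd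
  SetLike.GradeZero.instRing NumberField.to_charZero SetLike.GradeZero.instSemiring
  NonUnitalAlgSemiHomClass.toMulHomClass AddSubmonoidClass.toAddCommMonoid IdemSemiring.toSemiring
  SetLike.GradeZero.instMonoid SemigroupWithZero.toSemigroup MulActionWithZero.toMulAction
  GroupConeClass.toSubmonoidClass AddQuantale.instAddRightMono MonoidWithZero.toMonoid
  SubsemiringClass.toSemiring RKHS.instFunLike RightPreLieRing.toNonUnitalNonAssocRing
  NormedRing.toRing DivisionRing.toDivInvMonoid Torsor.toMulAction MulDistribMulAction.toMulAction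
  covariant_swap_mul_of_covariant_mul LinearOrderedCommMonoidWithZero.toPosMulStrictMono
  CommRing.toRing Action.instMulAction

-- part MP_646035_al.H84.GLine
section

/-!
Signs of linear forms along a parametrised line.
-/

namespace Pool.Agent.MP_646035_al.H24.PL

open Pool.Agent.MP_4a6971_al.H66 Set Real

variable {γ : ℝ → V} {E G H : V} {s t r : ℝ} (l : PL γ E)
include l

lemma bf (s t : ℝ) : Bf (γ s) (γ t) = -cosh (s - t) := by rw [← l.iso, ch, neg_neg]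

/-- The two ends of the line. -/
lemma ends : ∃ N N' : V, (∀ t, γ t = exp t • N + exp (-t) • N') ∧ Bf N N = 0 ∧ Bf N' N' = 0 ∧
    Bf N N' = -1 / 2 ∧ Bf E N = 0 ∧ Bf E N' = 0 := by
  have he : 0 < exp (1 : ℝ) := exp_pos 1
  have h1 : 1 < exp (1 : ℝ) := one_lt_exp_iff.2 one_pos
  have hd : exp (1 : ℝ) ^ 2 - 1 ≠ 0 := by nlinarith only [h1]
  have b00 := l.bf 0 0
  have b01 := l.bf 0 1
  have b11 := l.bf 1 1
  have b10 := l.bf 1 0
  simp only [sub_self, cosh_zero, zero_sub, cosh_neg, sub_zero] at b00 b01 b11 b10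
  rw [cosh_eq, exp_neg] at b01 b10
  refine ⟨(1 / (exp 1 ^ 2 - 1)) • (exp 1 • γ 1 - γ 0),
    (1 / (exp 1 ^ 2 - 1)) • (exp 1 ^ 2 • γ 0 - exp 1 • γ 1), fun t => ?_, ?_, ?_, ?_, ?_, ?_⟩
  · have a0 := l.bf t 0
    have a1 := l.bf t 1
    have a2 := l.bf t t
    rw [sub_zero, cosh_eq, exp_neg] at a0
    rw [cosh_eq, neg_sub, exp_sub, exp_sub] at a1
    rw [sub_self, cosh_zero] at a2
    have ht := exp_pos t
    refine sub_eq_zero.1 (eq_zero_of_orth (l.h2 0) ?_ (le_of_eq ?_))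
    · simp only [Bf_sub_left, Bf_add_left, Bf_smul_left, a0, b00, b10, exp_neg]
      field_simp
      ring
    · simp only [Bf_sub_left, Bf_add_left, Bf_smul_left, Bf_sub_right, Bf_add_right,
        Bf_smul_right, Bf_comm (γ 0) (γ t), Bf_comm (γ 1) (γ t), a0, a1, a2, b00, b10, b01, b11,
        exp_neg]
      field_simp
      ring
  all_goals
    simp only [Bf_sub_left, Bf_smul_left, Bf_sub_right, Bf_smul_right, b00, b10, b01, b11, l.on]
    try field_simp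
    try ring

/-- Coordinates adapted to the line. -/
lemma frame : ∃ f : Isom, f • E = E0 ∧ ∀ t, f • γ t = (exp (-t), 0, exp t) := by
  obtain ⟨N, N', h, n, n', m, e, e'⟩ := l.ends
  have h0 : H2 (N + N') := by simpa [h] using l.h2 0
  have key : ∀ G, G = (-2 * Bf G N') • N + (-2 * Bf G N) • N' + Bf G E • E := fun G => by
    refine sub_eq_zero.1 (eq_zero_of_orth h0 ?_ ?_)
    · simp only [neg_mul, neg_smul, Bf_add_right, Bf_sub_left, Bf_add_left, Bf_neg_left, Bf_smul_left, n, mul_zero, neg_zero, Bf_comm N' N, m, zero_add, e, add_zero, sub_neg_eq_add, n', e']; ring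
    · have := gram E (N - N') (G - ((-2 * Bf G N') • N + (-2 * Bf G N) • N' + Bf G E • E))
      generalize hD : G - ((-2 * Bf G N') • N + (-2 * Bf G N) • N' + Bf G E • E) = D at this
      have d1 : Bf E D = 0 := by rw [← hD]; simp [e, e', l.unit, Bf_comm E G]
      have d2 : Bf N D = 0 := by rw [← hD]; simp only [neg_mul, neg_smul, Bf_sub_right, Bf_comm N G, Bf_add_right, Bf_neg_right, Bf_smul_right, n, mul_zero, neg_zero, m, zero_add, Bf_comm N E, e, add_zero, sub_neg_eq_add]; ring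
      have d3 : Bf N' D = 0 := by
        rw [← hD]; simp only [neg_mul, neg_smul, Bf_sub_right, Bf_comm N' G, Bf_add_right, Bf_neg_right, Bf_smul_right, Bf_comm N' N, m, n', mul_zero, neg_zero, add_zero, Bf_comm N' E, e', sub_neg_eq_add]; ring
      simp only [Bf_sub_left, Bf_sub_right, d1, d2, d3, e, e', n, n', m, Bf_comm N' N,
        l.unit] at this
      linarith only [this]
  let φ : V →ₗ[ℝ] V :=
    { toFun := fun G => (-2 * Bf G N, Bf G E, -2 * Bf G N')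
      map_add' := fun P Q => by ext <;> simp <;> ring
      map_smul' := fun c P => by ext <;> simp <;> ring }
  have hφ : ∀ P Q, Bf (φ P) (φ Q) = Bf P Q := fun P Q => by
    conv_rhs => rw [key Q]
    change Bf (-2 * Bf P N, Bf P E, -2 * Bf P N') (-2 * Bf Q N, Bf Q E, -2 * Bf Q N') = _
    rw [Bf_add_right, Bf_add_right, Bf_smul_right, Bf_smul_right, Bf_smul_right, Bf]
    ring
  have inj : Function.Injective φ := (injective_iff_map_eq_zero φ).2 fun G hG => by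
    have h1 : -2 * Bf G N = 0 := congrArg (·.1) hG
    have h2 : Bf G E = 0 := congrArg (·.2.1) hG
    have h3 : -2 * Bf G N' = 0 := congrArg (·.2.2) hG
    rw [key G, h1, h2, h3]; simp
  have hγ : ∀ t, φ (γ t) = (exp (-t), 0, exp t) := fun t => by
    change (-2 * Bf (γ t) N, Bf (γ t) E, -2 * Bf (γ t) N') = _
    rw [Bf_comm _ E, l.on, h]
    simp [n, n', m, Bf_comm N' N]
    constructor <;> ring
  refine ⟨⟨LinearEquiv.ofInjectiveEndo φ inj, hφ, fun P hP => ?_⟩, ?_, hγ⟩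
  · refine (H2_or ((hφ P P).trans hP.1)).resolve_right fun a => ?_
    have a1 := one_le_ch a (H2.of_eq (a := exp (-0)) (b := 0) (c := exp 0) (by simp) (exp_pos _))
    rw [← hγ, ch, Bf_neg_left, hφ] at a1
    have := one_le_ch hP (l.h2 0)
    rw [ch] at this
    linarith only [a1, this]
  · change (-2 * Bf E N, Bf E E, -2 * Bf E N') = _
    simp [e, e', l.unit, E0]

lemma form (G : V) : ∃ x z : ℝ, (∀ t, Bf G (γ t) = x * exp t + z * exp (-t)) ∧
    4 * (x * z) = Bf E G ^ 2 - Bf G G := by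
  obtain ⟨f, h1, h2⟩ := l.frame
  refine ⟨-(f • G).1 / 2, -(f • G).2.2 / 2, fun t => ?_, ?_⟩
  · rw [← Bf_isom f, h2, Bf]; ring
  · rw [← Bf_isom f E, ← Bf_isom f G, h1, Bf_E0, Bf]; ring

lemma same (hG : Bf G G = 1) (h : 1 < Bf E G ^ 2) (s t : ℝ) : 0 < Bf G (γ s) * Bf G (γ t) := by
  obtain ⟨x, z, h1, h2⟩ := l.form G
  rw [h1, h1]
  have := exp_pos s; have := exp_pos t; have := exp_pos (-s); have := exp_pos (-t)
  rcases mul_pos_iff.1 (by linarith : 0 < x * z) with ⟨a, b⟩ | ⟨a, b⟩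
  · positivity
  · exact mul_pos_of_neg_of_neg (by nlinarith) (by nlinarith)

lemma cr_of_neg (hG : Bf G G = 1) (h : Bf G (γ s) * Bf G (γ t) < 0) : Cr E G := by
  obtain ⟨x, z, h1, h2⟩ := l.form G
  rw [h1, h1] at h
  have := exp_pos s; have := exp_pos t; have := exp_pos (-s); have := exp_pos (-t)
  by_contra hc
  have h3 : 0 ≤ x * z := by rw [Cr] at hc; linarith
  refine absurd h (not_lt.2 ?_)
  rcases mul_nonneg_iff.1 h3 with ⟨a, b⟩ | ⟨a, b⟩
  · positivity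
  · exact mul_nonneg_of_nonpos_of_nonpos (by nlinarith) (by nlinarith)

lemma cr_of_zero (hG : Bf G G = 1) (h : Bf G (γ s) = 0) (h' : Bf G (γ t) ≠ 0) : Cr E G := by
  rcases cr_or_eq l.unit hG (l.h2 s) (l.on s) h with a | a | a
  · exact a
  all_goals exact absurd (by simp [a, l.on]) h'

lemma cr_of_le (hG : Bf G G = 1) (h : Bf G (γ s) ≤ 0) (h' : 0 < Bf G (γ t)) : Cr E G :=
  h.lt_or_eq.elim (fun a => l.cr_of_neg hG (mul_neg_of_neg_of_pos a h'))
    fun a => l.cr_of_zero hG a h'.ne'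

/-- A crossing line is strictly monotone along the line. -/
lemma mono (hG : Bf G G = 1) (h : Cr E G) :
    (StrictMono fun t => Bf G (γ t)) ∨ StrictAnti fun t => Bf G (γ t) := by
  obtain ⟨x, z, h1, h2⟩ := l.form G
  simp only [h1]
  rw [Cr] at h
  rcases mul_neg_iff.1 (by linarith : x * z < 0) with ⟨a, b⟩ | ⟨a, b⟩
  · exact Or.inl fun s t hs => by
      have := exp_lt_exp.2 hs; have := exp_lt_exp.2 (neg_lt_neg hs); simp only; nlinarith
  · exact Or.inr fun s t hs => by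
      have := exp_lt_exp.2 hs; have := exp_lt_exp.2 (neg_lt_neg hs); simp only; nlinarith

lemma zero (hG : Bf G G = 1) (h : Cr E G) : ∃ t, Bf G (γ t) = 0 := by
  obtain ⟨P, p, a, b⟩ := exists_inter l.unit hG h
  obtain ⟨t, rfl⟩ := (l.mem P).1 ⟨p, a⟩
  exact ⟨t, b⟩

/-- Points of a segment are positive combinations of its ends. -/
lemma comb (h1 : s ≤ r) (h2 : r ≤ t) (h : s < t) : ∃ α β : ℝ, 0 ≤ α ∧ 0 ≤ β ∧ (r < t → 0 < α) ∧
    (s < r → 0 < β) ∧ γ r = α • γ s + β • γ t := by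
  obtain ⟨N, N', e, -⟩ := l.ends
  have hs := sinh_pos_iff.2 (sub_pos.2 h)
  refine ⟨sinh (t - r) / sinh (t - s), sinh (r - s) / sinh (t - s),
    div_nonneg (sinh_nonneg_iff.2 (sub_nonneg.2 h2)) hs.le,
    div_nonneg (sinh_nonneg_iff.2 (sub_nonneg.2 h1)) hs.le,
    fun a => div_pos (sinh_pos_iff.2 (sub_pos.2 a)) hs,
    fun a => div_pos (sinh_pos_iff.2 (sub_pos.2 a)) hs, ?_⟩
  rw [e, e, e, smul_add, smul_add, smul_smul, smul_smul, smul_smul, smul_smul, add_add_add_comm,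
    ← add_smul, ← add_smul]
  have := exp_pos s; have := exp_pos t; have := exp_pos r
  congr 2 <;> rw [eq_comm, div_mul_eq_mul_div, div_mul_eq_mul_div, ← add_div, div_eq_iff hs.ne'] <;>
    simp only [sinh_eq, neg_sub, exp_sub, exp_neg] <;> field_simp <;> ring

lemma conv (h1 : s ≤ r) (h2 : r ≤ t) (a : 0 ≤ Bf G (γ s)) (b : 0 ≤ Bf G (γ t)) :
    0 ≤ Bf G (γ r) := by
  rcases (h1.trans h2).lt_or_eq with h | rfl
  · obtain ⟨α, β, a1, b1, -, -, e⟩ := l.comb h1 h2 h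
    rw [e, Bf_add_right, Bf_smul_right, Bf_smul_right]
    positivity
  · rwa [le_antisymm h2 h1]

lemma ivt (h : s ≤ t) (a : Bf G (γ s) * Bf G (γ t) ≤ 0) : ∃ r ∈ Icc s t, Bf G (γ r) = 0 := by
  have c : ContinuousOn (fun t => Bf G (γ t)) (Icc s t) :=
    (continuous_Bf.comp (continuous_const.prodMk l.cont)).continuousOn
  rcases mul_nonpos_iff.1 a with ⟨a, b⟩ | ⟨a, b⟩
  · exact intermediate_value_Icc' h c ⟨b, a⟩
  · exact intermediate_value_Icc h c ⟨a, b⟩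

lemma add (s : ℝ) : PL (fun τ => γ (τ + s)) E where
  unit := l.unit
  cont := l.cont.comp (continuous_add_const s)
  mem P := (l.mem P).trans ⟨fun ⟨τ, h⟩ => ⟨τ - s, by simpa using h⟩, fun ⟨τ, h⟩ => ⟨τ + s, h⟩⟩
  iso a b := by rw [l.iso]; congr 1; ring

end Pool.Agent.MP_646035_al.H24.PL

end

-- part MP_646035_al.H84.GBase
section

/-!
Basic facts on curves and intersection numbers.
-/

namespace Pool.Agent.MP_646035_al.H84.Fu

open Pool.Agent.MP_4a6971_al.H66 Set H24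

variable {Γ : Type} [Group Γ] {S : Fu Γ} {E F G p q : V} {γ : ℝ → V} {c g x : Γ} {τ s t : ℝ}
  {a b : S.Cv}

lemma proper (S : Fu Γ) (hp : H2 p) (hq : H2 q) (R : ℝ) : {x | ch p (S.σ x • q) ≤ R}.Finite := by
  refine (S.prop (2 * ch p o * (2 * R * ch q o))).subset fun x hx => ?_
  have h1 := ch_tri H2_o hp (H2_o.smul (S.σ x))
  have h2 := ch_tri hp (hq.smul (S.σ x)) (H2_o.smul (S.σ x))
  rw [ch_isom, ch_comm (S.σ x • q)] at h2
  have := one_le_ch hp H2_o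
  have := one_le_ch hq H2_o
  have h3 : ch p (S.σ x • q) ≤ R := hx
  refine h1.trans ?_
  gcongr
  refine h2.trans ?_
  gcongr

lemma fix_pt (hq : H2 q) (h : S.σ g • q = q) : g = 1 :=
  by_contra fun h1 => not_fix (S.hyp g h1) hq h

lemma Ax.unit (h : S.Ax E) : Bf E E = 1 := h.choose_spec.2.1

lemma Ax.neg (h : S.Ax E) : S.Ax (-E) := h.imp fun _ h => ⟨h.1, h.2.neg⟩

lemma Ax.smul (h : S.Ax E) (g : Γ) : S.Ax (S.σ g • E) := by
  obtain ⟨x, h1, h2⟩ := h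
  exact ⟨g * x * g⁻¹, by simpa only [ne_eq, conj_eq_one_iff] using h1, by simpa only [map_mul, map_inv] using h2.conj (S.σ g)⟩

lemma Ax.pl (h : S.Ax E) : ∃ γ, PL γ E := by
  obtain ⟨x, h1, h2⟩ := h
  exact exists_pl (S.hyp x h1) h2

lemma fix_neg (hE : Bf E E = 1) (h : S.σ g • E = -E) : False := by
  have h0 : E ≠ -E := fun a => by
    have := congrArg (Bf E) a
    rw [Bf_neg_right, hE] at this
    norm_num at this
  by_cases h1 : g = 1
  · exact h0 (by simpa only [h1, map_one, one_smul] using h)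
  obtain ⟨A, hA⟩ := (S.hyp g h1).exists_ax
  rcases (S.hyp g h1).zpow_fix hA hE one_ne_zero (Or.inr (by simpa using h)) with rfl | rfl
  · exact h0 (hA.2.symm.trans h)
  · exact h0 (hA.neg.2.symm.trans h)

lemma fix_of (hE : Bf E E = 1) (h : S.σ g • E = E ∨ S.σ g • E = -E) : S.σ g • E = E :=
  h.resolve_right (fix_neg hE)

/-- An element preserving two different lines is trivial. -/
lemma fix_two (hE : Bf E E = 1) (hF : Bf F F = 1) (h : S.σ g • E = E ∨ S.σ g • E = -E)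
    (h' : S.σ g • F = F ∨ S.σ g • F = -F) (n : F ≠ E) (n' : F ≠ -E) : g = 1 :=
  by_contra fun h1 => ((S.hyp g h1).ax_unique ⟨hE, fix_of hE h⟩ ⟨hF, fix_of hF h'⟩).elim n n'

lemma self_mem_lns (E : V) : E ∈ S.lns E := ⟨1, Or.inl (by simp only [map_one, one_smul])⟩

lemma neg_mem_lns (h : F ∈ S.lns E) : -F ∈ S.lns E := by
  obtain ⟨g, rfl | rfl⟩ := h
  exacts [⟨g, Or.inr rfl⟩, ⟨g, Or.inl (neg_neg _)⟩]

lemma smul_mem_lns (h : F ∈ S.lns E) (g : Γ) : S.σ g • F ∈ S.lns E := by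
  obtain ⟨k, rfl | rfl⟩ := h
  · exact ⟨g * k, Or.inl (by rw [map_mul, mul_smul])⟩
  · exact ⟨g * k, Or.inr (by rw [map_mul, mul_smul, smul_neg])⟩

lemma lns_subset (h : F ∈ S.lns E) : S.lns F ⊆ S.lns E := by
  rintro _ ⟨g, rfl | rfl⟩
  exacts [smul_mem_lns h g, neg_mem_lns (smul_mem_lns h g)]

lemma lns_eq (h : F ∈ S.lns E) : S.lns F = S.lns E := by
  refine (lns_subset h).antisymm (lns_subset ?_)
  obtain ⟨g, rfl | rfl⟩ := h
  · exact ⟨g⁻¹, Or.inl (by simp only [map_inv, inv_smul_smul])⟩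
  · exact ⟨g⁻¹, Or.inr (by simp only [map_inv, smul_neg, inv_smul_smul, neg_neg])⟩

lemma Ax.lns (h : S.Ax E) (hF : F ∈ S.lns E) : S.Ax F := by
  obtain ⟨g, rfl | rfl⟩ := hF
  exacts [h.smul g, (h.smul g).neg]

lemma Ax.loc_fin (h : S.Ax E) (hp : H2 p) (R : ℝ) : {F ∈ S.lns E | |Bf F p| ≤ R}.Finite := by
  obtain ⟨x, h1, hE⟩ := h
  obtain ⟨R', h⟩ := norm_pt (S.hyp x h1) hE R
  have fin := S.proper H2_o hp R'
  refine ((fin.image fun φ => (S.σ φ)⁻¹ • E).union (fin.image fun φ => -((S.σ φ)⁻¹ • E))).subset ?_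
  rintro F ⟨⟨w, hw⟩, h2⟩
  have h3 : |Bf E (S.σ w⁻¹ • p)| ≤ R := by
    rw [map_inv, ← Bf_move]
    rcases hw with rfl | rfl <;> simpa using h2
  obtain ⟨k, hk⟩ := h _ (hp.smul _) h3
  have e : (S.σ (x ^ k * w⁻¹))⁻¹ • E = S.σ w • E := by
    simp only [map_mul, map_zpow, map_inv, mul_inv_rev, inv_inv, mul_smul]
    rw [← zpow_neg, hE.zpow]
  have m : x ^ k * w⁻¹ ∈ {x | ch o (S.σ x • p) ≤ R'} := by
    rwa [mem_ofPred_eq, map_mul, map_zpow, mul_smul]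
  rcases hw with rfl | rfl
  exacts [Or.inl ⟨_, m, e⟩, Or.inr ⟨_, m, congrArg _ e⟩]

/-- Axes are never tangent at infinity. -/
lemma Ax.tri (h : S.Ax E) (h' : S.Ax F) : Cr E F ∨ F = E ∨ F = -E ∨ 1 < Bf E F ^ 2 := by
  rcases lt_trichotomy (Bf E F ^ 2) 1 with a | a | a
  · exact Or.inl a
  · obtain ⟨x, h1, hE⟩ := h
    obtain ⟨R, hR⟩ := tangent (S.hyp x h1) hE h'.unit a
    obtain ⟨k, -, l, -, h3, h2⟩ := hR.exists_ne_map_eq_of_mapsTo (f := fun k : ℤ => S.σ x ^ k • F)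
      (t := {G ∈ S.lns F | |Bf G o| ≤ R}) (fun k hk => ⟨⟨x ^ k, Or.inl (by rw [map_zpow])⟩, hk⟩) (h'.loc_fin H2_o R)
    refine Or.inr (or_assoc.1 (Or.inl ?_))
    refine (S.hyp x h1).zpow_fix hE h'.unit (sub_ne_zero.2 h3) (Or.inl ?_)
    rw [sub_eq_neg_add, zpow_add, mul_smul, h2, ← mul_smul, ← zpow_add, neg_add_cancel, zpow_zero,
      one_smul]
  · exact Or.inr (Or.inr (Or.inr a))

lemma Cv.eq_lns (a : S.Cv) (h : E ∈ a.1) : a.1 = S.lns E := by
  obtain ⟨A, -, h1⟩ := a.2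
  rw [h1] at h ⊢
  exact (lns_eq h).symm

lemma Cv.ax (a : S.Cv) (h : E ∈ a.1) : S.Ax E := by
  obtain ⟨A, h0, h1⟩ := a.2
  exact Ax.lns h0.ax (h1 ▸ h)

lemma Cv.unit (a : S.Cv) (h : E ∈ a.1) : Bf E E = 1 := (a.ax h).unit

lemma Cv.neg_mem (a : S.Cv) (h : E ∈ a.1) : -E ∈ a.1 := a.eq_lns h ▸ neg_mem_lns (self_mem_lns E)

lemma Cv.smul_mem (a : S.Cv) (h : E ∈ a.1) (g : Γ) : S.σ g • E ∈ a.1 :=
  a.eq_lns h ▸ smul_mem_lns (self_mem_lns E) g

lemma lns_simple (hs : ∀ g, ¬ Cr E (S.σ g • E)) : ∀ F ∈ S.lns E, ∀ G ∈ S.lns E, ¬ Cr F G := by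
  rintro _ ⟨g, rfl | rfl⟩ _ ⟨k, rfl | rfl⟩ <;>
    simpa only [cr_neg_left, cr_neg_right, cr_move, map_mul, map_inv, mul_smul] using hs (g⁻¹ * k)

lemma Cv.simple (a : S.Cv) (h : E ∈ a.1) (h' : F ∈ a.1) : ¬ Cr E F := by
  obtain ⟨A, h0, h1⟩ := a.2
  exact lns_simple h0.simple E (h1 ▸ h) F (h1 ▸ h')

lemma Cv.not_per (a : S.Cv) (h : E ∈ a.1) : E ∉ S.per := fun hE => by
  obtain ⟨A, h0, h1⟩ := a.2
  obtain ⟨g, rfl | rfl⟩ : E ∈ S.lns A := h1 ▸ h
  · exact h0.pos (by simpa only [map_inv, inv_smul_smul] using S.per_smul g⁻¹ _ hE)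
  · exact h0.neg (by simpa only [map_inv, smul_neg, inv_smul_smul] using S.per_smul g⁻¹ _ hE)

lemma Cv.nonempty (a : S.Cv) : ∃ E, E ∈ a.1 := by
  obtain ⟨A, -, h1⟩ := a.2
  exact ⟨A, h1 ▸ self_mem_lns A⟩

lemma Cv.exists_smul (a : S.Cv) (h : E ∈ a.1) (h' : F ∈ a.1) :
    ∃ g, F = S.σ g • E ∨ F = -(S.σ g • E) := by rwa [a.eq_lns h] at h'

lemma Cv.eq_of_mem (h : E ∈ a.1) (h' : E ∈ b.1) : a = b :=
  Subtype.ext ((a.eq_lns h).trans (b.eq_lns h').symm)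

lemma Cv.curve (a : S.Cv) (h : E ∈ a.1) : S.Curve E :=
  ⟨a.ax h, fun g => a.simple h (a.smul_mem h g), a.not_per h, a.not_per (a.neg_mem h)⟩

/-- The curve covered by a simple axis. -/
def mk (h : S.Curve E) : S.Cv := ⟨S.lns E, E, h, rfl⟩

lemma mem_mk (h : S.Curve E) : E ∈ (mk h).1 := self_mem_lns E

lemma Cv.loc_fin (a : S.Cv) (hp : H2 p) (R : ℝ) : {F ∈ a.1 | |Bf F p| ≤ R}.Finite := by
  obtain ⟨A, h0, h1⟩ := a.2
  exact h1 ▸ Ax.loc_fin h0.ax hp R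

/-- Finitely many lines of a curve separate two points. -/
lemma Cv.sep_fin (a : S.Cv) (hp : H2 p) (hq : H2 q) :
    {F ∈ a.1 | Bf F p * Bf F q ≤ 0}.Finite :=
  (a.loc_fin hp (ch q p)).subset fun _ h => ⟨h.1, abs_Bf_le_of_sign (a.unit h.1) hp hq h.2⟩

/-- Two lines of a curve through one point are equal. -/
lemma Cv.eq_or (a : S.Cv) (h : E ∈ a.1) (h' : F ∈ a.1) (hq : H2 q) (e : Bf E q = 0)
    (e' : Bf F q = 0) : F = E ∨ F = -E :=
  (cr_or_eq (a.unit h) (a.unit h') hq e e').resolve_left (a.simple h h')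

lemma shift (l : PL γ E) (h : S.σ g • E = E ∨ S.σ g • E = -E) :
    ∃ r, ∀ t, S.σ g • γ t = γ (t + r) := by
  by_cases h1 : g = 1
  · exact ⟨0, by simp only [h1, map_one, one_smul, add_zero, implies_true]⟩
  obtain ⟨r, hr⟩ := (l.mem _).1 ⟨(l.h2 0).smul (S.σ g), by
    have := (l.smul (S.σ g)).on 0
    rcases h with h | h <;> simpa [h] using this⟩
  exact ⟨r - 0, l.shift (S.hyp g h1) h hr.symm⟩

lemma shift_zpow {r : ℝ} (h : ∀ t, S.σ g • γ t = γ (t + r)) (k : ℤ) (t : ℝ) :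
    S.σ (g ^ k) • γ t = γ (t + k * r) := by
  induction k using Int.induction_on generalizing t with
  | zero => simp only [zpow_ofNat, pow_zero, map_one, one_smul, Int.cast_zero, zero_mul, add_zero]
  | succ n ih => rw [zpow_add_one, map_mul, mul_smul, h, ih]; congr 1; push_cast; ring
  | pred n ih =>
    have : S.σ g⁻¹ • γ t = γ (t - r) := by rw [map_inv, inv_smul_eq_iff, h, sub_add_cancel]
    rw [zpow_sub_one, map_mul, mul_smul, this, ih]; congr 1; push_cast; ring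

lemma Per.zsh (h : S.Per γ E c τ) (k : ℤ) (t : ℝ) : S.σ (c ^ k) • γ t = γ (t + k * τ) :=
  shift_zpow h.sh k t

lemma Per.ne (h : S.Per γ E c τ) : c ≠ 1 := fun e => by
  have := h.pl.inj (by simpa only [e, map_one, one_smul, zero_add] using h.sh 0 : γ 0 = γ τ)
  exact h.pos.ne this

lemma Per.isAx (h : S.Per γ E c τ) : IsAx (S.σ c) E := ⟨h.pl.unit, h.fix⟩

lemma Per.zfix (h : S.Per γ E c τ) (k : ℤ) : S.σ (c ^ k) • E = E := by
  rw [map_zpow, h.isAx.zpow]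

lemma Ax.exists_per (h : S.Ax E) (l : PL γ E) : ∃ c τ, S.Per γ E c τ := by
  obtain ⟨x, h1, hE⟩ := h
  have pos : ∀ g, S.σ g • E = E → g ≠ 1 → ∃ k r, S.σ k • E = E ∧ 0 < r ∧
      ∀ t, S.σ k • γ t = γ (t + r) := fun g hg h1 => by
    obtain ⟨r, hr⟩ := shift l (Or.inl hg)
    rcases lt_trichotomy r 0 with a | rfl | a
    · exact ⟨g⁻¹, -r, by rw [map_inv, inv_smul_eq_iff, hg], neg_pos.2 a, fun t => by
        simpa only [map_inv, Int.reduceNeg, zpow_neg, zpow_ofNat, pow_one, Int.cast_neg, Int.cast_one, neg_mul, one_mul] using shift_zpow hr (-1) t⟩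
    · exact (h1 (fix_pt (l.h2 0) (by simpa using hr 0))).elim
    · exact ⟨g, r, hg, a, hr⟩
  obtain ⟨k, r, k1, k2, k3⟩ := pos x hE.2 h1
  let T : Set ℝ := {ρ | 0 < ρ ∧ ρ ≤ r ∧ ∃ k, S.σ k • E = E ∧ ∀ t, S.σ k • γ t = γ (t + ρ)}
  have fin : T.Finite := by
    refine (((S.proper (l.h2 0) (l.h2 0) (Real.cosh r)).image
      fun k => S.σ k • γ 0).preimage l.inj.injOn).subset ?_
    rintro ρ ⟨a, b, k, -, e⟩
    refine ⟨k, ?_, by simp [e]⟩
    rw [mem_ofPred_eq, e, l.iso, Real.cosh_le_cosh, zero_add, zero_sub, abs_neg, abs_of_pos a,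
      abs_of_pos k2]
    exact b
  obtain ⟨τ, ⟨t1, t2, c, c1, c2⟩, mn⟩ := exists_min_image T id fin ⟨r, k2, le_rfl, k, k1, k3⟩
  refine ⟨c, τ, l, t1, c1, c2, fun g hg => ?_⟩
  obtain ⟨ρ, hρ⟩ := shift l hg
  refine ⟨⌊ρ / τ⌋, ?_⟩
  have e : ∀ t, S.σ (g * c ^ (-⌊ρ / τ⌋)) • γ t = γ (t + (ρ - ⌊ρ / τ⌋ * τ)) := fun t => by
    rw [map_mul, mul_smul, shift_zpow c2, hρ]; congr 1; push_cast; ring
  have f1 := Int.floor_le (ρ / τ)
  have f2 := Int.lt_floor_add_one (ρ / τ)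
  rw [le_div_iff₀ t1] at f1
  rw [div_lt_iff₀ t1] at f2
  rcases (sub_nonneg.2 f1).lt_or_eq with a | a
  · refine absurd (mn _ ⟨a, by linarith only [t2, f2], _, ?_, e⟩) (not_le.2 (by simp only [id]; linarith only [f2]))
    rw [map_mul, mul_smul, map_zpow, IsAx.zpow ⟨l.unit, c1⟩, fix_of l.unit hg]
  · have := fix_pt (l.h2 0) ((e 0).trans (by rw [← a, add_zero]))
    rwa [zpow_neg, mul_inv_eq_one] at this

lemma Cv.exists_per (a : S.Cv) (h : E ∈ a.1) : ∃ γ c τ, S.Per γ E c τ :=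
  (a.ax h).pl.imp fun _ l => (a.ax h).exists_per l

lemma X_comm (a b : S.Cv) : X a b = X b a := by
  have : ∀ a b : S.Cv, X a b ⊆ X b a := fun a b q ⟨h, E, e, F, f, c, x, y⟩ =>
    ⟨h, F, f, E, e, c.symm, y, x⟩
  exact (this a b).antisymm (this b a)

lemma i_symm (a b : S.Cv) : i a b = i b a := by rw [i, i, X_comm]

lemma orb_smul (g : Γ) (q : V) : S.orb (S.σ g • q) = S.orb q := by
  ext w
  constructor <;> rintro ⟨k, rfl⟩
  · exact ⟨k * g, by rw [map_mul, mul_smul]⟩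
  · exact ⟨k * g⁻¹, by simp [mul_smul]⟩

lemma self_mem_orb (q : V) : q ∈ S.orb q := ⟨1, by simp only [map_one, one_smul]⟩

lemma Pos_fin (b : S.Cv) (l : PL γ E) (s t : ℝ) : (Pos b.1 γ E ∩ Icc s t).Finite := by
  obtain ⟨R, hR⟩ := l.bdd s t
  have fin := b.loc_fin H2_o R
  have : ∀ F : V, {r | F ∈ b.1 ∧ Cr E F ∧ Bf F (γ r) = 0}.Finite := fun F =>
    Set.Subsingleton.finite fun r hr r' hr' => l.one (b.unit hr.1) hr.2.1.symm hr.2.2 hr'.2.2
  refine (fin.biUnion fun F _ => this F).subset ?_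
  rintro r ⟨⟨F, h1, h2, h3⟩, h4⟩
  refine mem_biUnion (x := F) ⟨h1, ?_⟩ ⟨h1, h2, h3⟩
  have := abs_Bf_le_of_sign (b.unit h1) H2_o (l.h2 r) (by simp [h3])
  exact this.trans (ch_comm _ _ ▸ hR r h4)

lemma Pos_fin' (b : S.Cv) (l : PL γ E) (s t : ℝ) : (Pos b.1 γ E ∩ Ico s t).Finite :=
  (Pos_fin b l s t).subset (inter_subset_inter_right _ Ico_subset_Icc_self)

lemma Per.pos_add (h : S.Per γ E c τ) {L : Set V} (hL : ∀ F ∈ L, ∀ g, S.σ g • F ∈ L)
    (ht : t ∈ Pos L γ E) (k : ℤ) : t + k * τ ∈ Pos L γ E := by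
  obtain ⟨F, h1, h2, h3⟩ := ht
  exact ⟨_, hL F h1 (c ^ k), by rwa [← h.zfix k, cr_isom], by rwa [← h.zsh, Bf_isom]⟩

lemma exists_mem_Ico (hτ : 0 < τ) (s t : ℝ) : ∃ k : ℤ, t + k * τ ∈ Ico s (s + τ) := by
  have f1 := Int.floor_le ((t - s) / τ)
  have f2 := Int.lt_floor_add_one ((t - s) / τ)
  rw [le_div_iff₀ hτ] at f1
  rw [div_lt_iff₀ hτ] at f2
  exact ⟨-⌊(t - s) / τ⌋, by push_cast; linarith only [f1], by push_cast; linarith only [f2]⟩

lemma int_eq_zero (hτ : 0 < τ) {k : ℤ} (h1 : -τ < k * τ) (h2 : k * τ < τ) : k = 0 := by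
  have a : (-1 : ℝ) < k := by nlinarith only [hτ, h1]
  have b : (k : ℝ) < 1 := by nlinarith only [hτ, h2]
  have a' : -1 < k := by exact_mod_cast a
  have b' : k < 1 := by exact_mod_cast b
  omega

lemma Per.image (h : S.Per γ E c τ) (hE : E ∈ a.1) (b : S.Cv) (s : ℝ) :
    S.orb '' X a b = (fun t => S.orb (γ t)) '' (Pos b.1 γ E ∩ Ico s (s + τ)) := by
  apply subset_antisymm
  · rintro _ ⟨q, ⟨hq, A, hA, F, hF, cr, e1, e2⟩, rfl⟩
    obtain ⟨g, hg⟩ := a.exists_smul hA hE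
    obtain ⟨t, ht⟩ := (h.pl.mem (S.σ g • q)).1 ⟨hq.smul _, by rcases hg with rfl | rfl <;> simpa⟩
    have : t ∈ Pos b.1 γ E := ⟨_, b.smul_mem hF g, by rcases hg with rfl | rfl <;> simpa,
      by rwa [ht, Bf_isom]⟩
    obtain ⟨k, hk⟩ := exists_mem_Ico h.pos s t
    refine ⟨_, ⟨h.pos_add (fun F hF => b.smul_mem hF) this k, hk⟩, ?_⟩
    simp only [← h.zsh, ht, orb_smul]
  · rintro _ ⟨t, ⟨⟨F, h1, h2, h3⟩, -⟩, rfl⟩
    exact ⟨_, ⟨h.pl.h2 t, E, hE, F, h1, h2, h.pl.on t, h3⟩, rfl⟩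

/-- The intersection number is the number of crossings along one period. -/
theorem Per.count (h : S.Per γ E c τ) (hE : E ∈ a.1) (b : S.Cv) (s : ℝ) :
    i a b = (Pos b.1 γ E ∩ Ico s (s + τ)).ncard := by
  rw [i, h.image hE b s]
  refine InjOn.ncard_image fun t ht t' ht' e => ?_
  obtain ⟨g, hg⟩ : γ t' ∈ S.orb (γ t) := by
    have : S.orb (γ t) = S.orb (γ t') := e
    exact this ▸ self_mem_orb _
  obtain ⟨k, rfl⟩ := h.gen g (a.eq_or hE (a.smul_mem hE g) (h.pl.h2 t') (h.pl.on t')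
    (by rw [hg, Bf_isom, h.pl.on]))
  rw [h.zsh] at hg
  have := h.pl.inj hg
  obtain rfl := int_eq_zero h.pos (k := k) (by linarith [ht.2.2, ht'.2.1])
    (by linarith [ht.2.1, ht'.2.2])
  simpa using this.symm

lemma X_fin (a b : S.Cv) : (S.orb '' X a b).Finite := by
  obtain ⟨E, hE⟩ := a.nonempty
  obtain ⟨γ, c, τ, h⟩ := a.exists_per hE
  exact h.image hE b 0 ▸ (Pos_fin' b h.pl _ _).image _

theorem i_eq_zero : i a b = 0 ↔ ∀ E ∈ a.1, ∀ F ∈ b.1, ¬ Cr E F := by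
  rw [i, ncard_eq_zero (X_fin a b), image_eq_empty, eq_empty_iff_forall_notMem]
  refine ⟨fun h E hE F hF c => ?_, fun h q ⟨_, E, e, F, f, c, _⟩ => h E e F f c⟩
  obtain ⟨q, h1, h2, h3⟩ := exists_inter (a.unit hE) (b.unit hF) c
  exact h q ⟨h1, E, hE, F, hF, c, h2, h3⟩

lemma i_self (a : S.Cv) : i a a = 0 := i_eq_zero.2 fun _ h _ h' => a.simple h h'

lemma i_ne_zero (hE : E ∈ a.1) (hF : F ∈ b.1) (h : Cr E F) : i a b ≠ 0 :=
  fun e => i_eq_zero.1 e E hE F hF h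

/-- Every line of `a` is crossed by a line of `b` if the curves cross. -/
lemma exists_cr (h : i a b ≠ 0) (hE : E ∈ a.1) : ∃ F ∈ b.1, Cr E F := by
  rw [Ne, i_eq_zero] at h
  push Not at h
  obtain ⟨A, hA, F, hF, c⟩ := h
  obtain ⟨g, hg⟩ := a.exists_smul hA hE
  exact ⟨_, b.smul_mem hF g, by rcases hg with rfl | rfl <;> simpa⟩

/-- An upper bound from a finite set of representatives of the lines of `b` crossing `E`. -/
theorem i_le_card (hE : E ∈ a.1) {T : Set V} (hT : T.Finite)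
    (h : ∀ F ∈ b.1, Cr E F → ∃ g, S.σ g • E = E ∧ (S.σ g • F ∈ T ∨ -(S.σ g • F) ∈ T)) :
    i a b ≤ T.ncard := by
  classical
  obtain ⟨γ, c, τ, l⟩ := a.exists_per hE
  rw [i, l.image hE b 0]
  let φ : V → Set V := fun F => if h : ∃ t, Bf F (γ t) = 0 then S.orb (γ h.choose) else ∅
  refine (ncard_le_ncard ?_ (hT.image φ)).trans (ncard_image_le hT)
  rintro _ ⟨t, ⟨⟨F, h1, h2, h3⟩, -⟩, rfl⟩
  obtain ⟨g, g1, g2⟩ := h F h1 h2
  obtain ⟨r, hr⟩ := shift l.pl (Or.inl g1)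
  have key : ∀ G, G = S.σ g • F ∨ G = -(S.σ g • F) → φ G = S.orb (γ t) := fun G hG => by
    have e : Bf G (γ (t + r)) = 0 := by rw [← hr]; rcases hG with rfl | rfl <;> simpa
    have ex : ∃ t, Bf G (γ t) = 0 := ⟨_, e⟩
    have cr : Cr G E := by rw [← g1]; rcases hG with rfl | rfl <;> simpa using h2.symm
    have u : Bf G G = 1 := by rcases hG with rfl | rfl <;> simpa using b.unit h1
    simp only [φ, dif_pos ex]
    rw [l.pl.one u cr ex.choose_spec e, ← hr, orb_smul]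
  exact g2.elim (fun m => ⟨_, m, key _ (Or.inl rfl)⟩) fun m => ⟨_, m, key _ (Or.inr rfl)⟩

/-- A line crossing the axis of `u` separates two consecutive points of an orbit. -/
lemma wall_aux {u : Isom} (hu : Hyp u) (hE : IsAx u E) (hF : Bf F F = 1) (h : Cr E F) (hp : H2 p) :
    ∃ k : ℤ, ∃ G, (G = F ∨ G = -F) ∧ Bf G (u ^ k • p) ≤ 0 ∧ 0 < Bf G (u ^ (k + 1) • p) := by
  obtain ⟨N, N', e, e', h3⟩ := exists_ends hu hE
  have h4 := h3 F
  rw [Cr, Bf_comm] at h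
  have key : ∀ G, 0 < Bf G N → Bf G N' < 0 →
      ∃ k : ℤ, Bf G (u ^ k • p) ≤ 0 ∧ 0 < Bf G (u ^ (k + 1) • p) := fun G a b => by
    obtain ⟨n, hn⟩ := e.grow G p 0 hp a
    obtain ⟨m, hm⟩ := e'.grow (-G) p 0 hp (by simpa using b)
    obtain ⟨k, k1, k2⟩ := Int.exists_greatest_of_bdd (P := fun k : ℤ => Bf G (u ^ k • p) ≤ 0)
      ⟨n, fun z hz => by
        by_contra! hc
        obtain ⟨w, rfl⟩ := Int.eq_ofNat_of_zero_le ((Int.natCast_nonneg n).trans hc.le)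
        exact absurd (hn w (by exact_mod_cast hc.le)) (not_lt.2 (by simpa only [zpow_natCast] using hz))⟩
      ⟨-m, by simpa only [zpow_neg, zpow_natCast, inv_pow, Bf_neg_left, Left.nonneg_neg_iff] using (hm m le_rfl).le⟩
    exact ⟨k, k1, not_le.1 fun a => absurd (k2 _ a) (by omega)⟩
  rcases mul_neg_iff.1 (by linarith : Bf F N * Bf F N' < 0) with ⟨a, b⟩ | ⟨a, b⟩
  · exact (key F a b).imp fun k hk => ⟨F, Or.inl rfl, hk⟩
  · exact (key (-F) (by simpa using a) (by simpa using b)).imp fun k hk => ⟨-F, Or.inr rfl, hk⟩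

lemma not_cr_of_pos {u : Isom} (hu : Hyp u) (hE : IsAx u E) (hF : Bf F F = 1) (hp : H2 p)
    (h : ∀ k : ℤ, 0 ≤ Bf F (u ^ k • p)) : ¬ Cr E F := fun c => by
  obtain ⟨N, N', e, e', h3⟩ := exists_ends hu hE
  have h4 := h3 F
  rw [Cr, Bf_comm] at c
  have a := e.le (H := -F) hp fun n => by simpa only [Bf_neg_left, Left.neg_nonpos_iff, zpow_natCast] using h n
  have b := e'.le (H := -F) hp fun n => by simpa only [inv_pow, Bf_neg_left, Left.neg_nonpos_iff, zpow_neg, zpow_natCast] using h (-n)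
  rw [Bf_neg_left] at a b
  linarith only [mul_nonneg (neg_nonpos.1 a) (neg_nonpos.1 b), hF, c, h4]

/-- No axis crosses a boundary line. -/
lemma Ax.not_cr_per (h : S.Ax E) (hF : F ∈ S.per) : ¬ Cr E F := by
  obtain ⟨x, h1, h2⟩ := h
  refine not_cr_of_pos (S.hyp x h1) h2 (Ax.unit (S.per_ax F hF)) H2_o fun k => ?_
  rw [Bf_comm, Bf_move, Bf_comm, ← map_zpow, ← map_inv]
  simpa only [map_inv, map_zpow] using (S.per_o _ (S.per_smul (x ^ k)⁻¹ F hF)).le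

/-- Wall count. -/
theorem i_le_wall (hE : E ∈ a.1) (hc : c ≠ 1) (h : S.σ c • E = E) (hp : H2 p) (b : S.Cv) :
    i a b ≤ {F ∈ b.1 | Cr E F ∧ Bf F p ≤ 0 ∧ 0 < Bf F (S.σ c • p)}.ncard := by
  refine i_le_card hE ((b.sep_fin hp (hp.smul (S.σ c))).subset fun F hF =>
    ⟨hF.1, mul_nonpos_of_nonpos_of_nonneg hF.2.2.1 hF.2.2.2.le⟩) fun F h1 h2 => ?_
  have ax : IsAx (S.σ c) E := ⟨a.unit hE, h⟩
  obtain ⟨k, G, g1, g2, g3⟩ := wall_aux (S.hyp c hc) ax (b.unit h1) h2 hp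
  have e : S.σ (c ^ (-k)) • E = E := by rw [map_zpow, ax.zpow]
  have key : ∀ G ∈ b.1, Cr E G → Bf G (S.σ c ^ k • p) ≤ 0 → 0 < Bf G (S.σ c ^ (k + 1) • p) →
      S.σ (c ^ (-k)) • G ∈ {F ∈ b.1 | Cr E F ∧ Bf F p ≤ 0 ∧ 0 < Bf F (S.σ c • p)} :=
    fun G m c1 c2 c3 => ⟨b.smul_mem m _, by rwa [← e, cr_isom],
      by rwa [Bf_move, map_zpow, ← zpow_neg, neg_neg],
      by rwa [Bf_move, map_zpow, ← zpow_neg, neg_neg, ← mul_smul, ← zpow_add_one]⟩
  refine ⟨c ^ (-k), e, ?_⟩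
  rcases g1 with rfl | rfl
  · exact Or.inl (key _ h1 h2 g2 g3)
  · exact Or.inr (smul_neg (S.σ (c ^ (-k))) F ▸ key _ (b.neg_mem h1) (by simpa) g2 g3)

end Pool.Agent.MP_646035_al.H84.Fu

end
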