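import Pool.Agent.MP_4a6971_al.Mg.H66_CurveDefs
import Pool.Agent.Lib.PlaneTop.HasLog
import Pool.Agent.MP_646035_al.MC.Iface

-- part MP_646035_al.H24.Cross
section

/-!
Periodic walks along crossing axes meet; parametrised lines.
-/

namespace Pool.Agent.MP_646035_al.H24

open Pool.Agent.MP_4a6971_al.H66 Set

variable {u v : Isom} {E F P Q D p q : V} {K L : Set V}

lemma gram (E F D : V) : Bf E E * (Bf F F * Bf D D - Bf F D ^ 2) -
    Bf E F * (Bf E F * Bf D D - Bf F D * Bf E D) + Bf E D * (Bf E F * Bf F D - Bf F F * Bf E D) ≤ 0 := by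
  have : Bf E E * (Bf F F * Bf D D - Bf F D ^ 2) -
      Bf E F * (Bf E F * Bf D D - Bf F D * Bf E D) + Bf E D * (Bf E F * Bf F D - Bf F F * Bf E D) =
      -((E.1 * (F.2.1 * D.2.2 - F.2.2 * D.2.1) - E.2.1 * (F.1 * D.2.2 - F.2.2 * D.1) +
        E.2.2 * (F.1 * D.2.1 - F.2.1 * D.1)) / 2) ^ 2 := by simp only [Bf]; ring
  rw [this]
  exact neg_nonpos.2 (sq_nonneg _)

/-- Two crossing lines give coordinates on the plane. -/
lemma eq_of_cr (hE : Bf E E = 1) (hF : Bf F F = 1) (h : Cr E F) (hP : H2 P) (hQ : H2 Q)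
    (h1 : Bf E P = Bf E Q) (h2 : Bf F P = Bf F Q) : P = Q := by
  have := gram E F (P - Q)
  simp only [Bf_sub_right, Bf_sub_left, h1, h2, hE, hF, hP.1, hQ.1, Bf_comm Q P, sub_self] at this
  refine eq_of_ch_le hP hQ ?_
  rw [Cr] at h
  rw [ch]
  nlinarith

lemma eq_zero_of_orth (hP : H2 P) (h : Bf D P = 0) (h' : Bf D D ≤ 0) : D = 0 := by
  obtain ⟨f, hf⟩ := hP.exists_frame
  rw [← Bf_isom f] at h h'
  rw [hf] at h
  refine smul_left_cancel f ?_
  rw [smul_zero]
  generalize f • D = X at *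
  obtain ⟨a, b, c⟩ := X
  simp only [Bf, o] at h h'
  obtain rfl : c = -a := by linarith
  obtain rfl : a = 0 := by nlinarith [sq_nonneg a, sq_nonneg b]
  obtain rfl : b = 0 := by nlinarith [sq_nonneg b]
  simp

/-- Two lines through a point cross or are equal. -/
lemma cr_or_eq (hE : Bf E E = 1) (hF : Bf F F = 1) (hP : H2 P) (h1 : Bf E P = 0)
    (h2 : Bf F P = 0) : Cr E F ∨ F = E ∨ F = -E := by
  have := gram E F P
  simp only [h1, h2, hE, hF, hP.1] at this
  refine or_iff_not_imp_left.2 fun h => ?_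
  rw [Cr] at h
  have h3 : Bf E F * Bf E F = 1 := by nlinarith
  have h4 := eq_zero_of_orth (D := F - Bf E F • E) hP (by simp [h1, h2])
    (by simp [hE, hF, Bf_comm F E, h3])
  rw [sub_eq_zero] at h4
  rcases mul_self_eq_one_iff.1 h3 with a | a <;> rw [a] at h4
  exacts [Or.inl (by simpa using h4), Or.inr (by simpa using h4)]

lemma not_fix (hu : Hyp u) (hP : H2 P) : u • P ≠ P := fun h => by
  obtain ⟨f, t, hf⟩ := hu.fr
  have h1 := congrArg (fun X : V => X.2.2) (hf.one P)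
  simp only [h, dil_smul] at h1
  have := (hP.smul f).pos
  have := Real.add_one_lt_exp hf.pos.ne'
  nlinarith [hf.pos]

/-- A long path along an axis. -/
lemma long_path (hu : Hyp u) (hE : IsAx u E) (hF : Bf F F = 1) (h : Cr E F) (hp : H2 p)
    (j : JoinedIn K p (u • p)) : ∃ R, ∀ R', ∃ (x y : V) (γ : Path x y), Bf F x < -R' ∧ R' < Bf F y ∧
      ∀ s, |Bf E (γ s)| ≤ R ∧ ∃ k : ℤ, ∃ P ∈ K, γ s = u ^ k • P := by
  obtain ⟨γ, hγ⟩ := j
  obtain ⟨R, hR⟩ := (isCompact_range (f := fun s => |Bf E (γ s)|)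
    ((continuous_Bf.comp (continuous_const.prodMk γ.continuous)).abs)).bddAbove
  let U : Set V := {X | |Bf E X| ≤ R ∧ ∃ k : ℤ, ∃ P ∈ K, X = u ^ k • P}
  have h1 : ∀ k : ℤ, JoinedIn U (u ^ k • p) (u ^ (k + 1) • p) := fun k => by
    rw [zpow_add_one, mul_smul]
    refine ⟨γ.map (continuous_isom (u ^ k)), fun s => ⟨?_, k, _, hγ s, rfl⟩⟩
    have : |Bf E (γ s)| ≤ R := hR ⟨s, rfl⟩
    rwa [← Bf_isom (u ^ k), hE.zpow] at this
  have h2 : ∀ k : ℤ, JoinedIn U p (u ^ k • p) := fun k => by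
    induction k using Int.induction_on with
    | zero => simpa using JoinedIn.refl (h1 0).source_mem
    | succ n ih => exact ih.trans (h1 n)
    | pred n ih => exact ih.trans (by simpa using (h1 (-n - 1)).symm)
  obtain ⟨N, N', e, e', h3⟩ := exists_ends hu hE
  have h4 := h3 F
  rw [Cr, Bf_comm] at h
  have h5 : ∀ (R' : ℝ) (G : V), 0 < Bf G N ∨ 0 < Bf G N' → ∃ k : ℤ, R' < Bf G (u ^ k • p) := by
    rintro R' G (a | a)
    · obtain ⟨n, hn⟩ := e.grow G p R' hp a
      exact ⟨n, by simpa using hn n le_rfl⟩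
    · obtain ⟨n, hn⟩ := e'.grow G p R' hp a
      exact ⟨-n, by simpa using hn n le_rfl⟩
  have h6 := mul_neg_iff.1 (by linarith : Bf F N * Bf F N' < 0)
  refine ⟨R, fun R' => ?_⟩
  obtain ⟨k, hk⟩ := h5 R' F (h6.imp And.left And.right)
  obtain ⟨l, hl⟩ := h5 R' (-F) (h6.symm.imp (fun a => by simpa using a.1) fun a => by simpa using a.2)
  obtain ⟨β, hβ⟩ := (h2 l).symm.trans (h2 k)
  exact ⟨_, _, β, by rw [Bf_neg_left] at hl; linarith, hk, hβ⟩

/-- Periodic walks whose axes cross have a common point. -/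
theorem cross (hu : Hyp u) (hE : IsAx u E) (hv : Hyp v) (hF : IsAx v F) (h : Cr E F)
    (hK : ∀ P ∈ K, H2 P) (hL : ∀ P ∈ L, H2 P) (j : JoinedIn K p (u • p))
    (j' : JoinedIn L q (v • q)) : ∃ m n : ℤ, ∃ P ∈ K, ∃ Q ∈ L, u ^ m • P = v ^ n • Q := by
  obtain ⟨R, hR⟩ := long_path hu hE hF.1 h (hK _ j.source_mem) j
  obtain ⟨R', hR'⟩ := long_path hv hF hE.1 h.symm (hL _ j'.source_mem) j'
  obtain ⟨x, y, γ, a1, a2, a3⟩ := hR R'
  obtain ⟨z, w, β, b1, b2, b3⟩ := hR' R
  have hc : Continuous fun X : V => (⟨Bf F X, -Bf E X⟩ : ℂ) := by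
    have : ∀ G : V, Continuous fun X : V => Bf G X := fun G => by unfold Bf; fun_prop
    exact Complex.equivRealProdCLM.symm.continuous.comp ((this F).prodMk (this E).neg)
  obtain ⟨s, t, e⟩ := Pool.Agent.Lib.PlaneTop.paths_cross (γ.map hc) (β.map hc)
    (fun t => by simpa using a1.le.trans (abs_le.1 (b3 t).1).1)
    (fun t => by simpa using (abs_le.1 (b3 t).1).2.trans a2.le)
    (fun t => by simpa using b1.le.trans (abs_le.1 (a3 t).1).1)
    (fun t => by simpa using (abs_le.1 (a3 t).1).2.trans b2.le)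
  obtain ⟨m, P, p1, p2⟩ := (a3 s).2
  obtain ⟨n, Q, q1, q2⟩ := (b3 t).2
  simp only [Path.map_coe, Function.comp, Complex.mk.injEq, neg_inj, p2, q2] at e
  exact ⟨m, n, P, p1, Q, q1, eq_of_cr hE.1 hF.1 h ((hK P p1).smul _) ((hL Q q1).smul _) e.2 e.1⟩

/-- `γ` is a unit speed parametrisation of the line with unit normal `E`. -/
structure PL (γ : ℝ → V) (E : V) : Prop where
  unit : Bf E E = 1
  cont : Continuous γ
  mem : ∀ P, H2 P ∧ Bf E P = 0 ↔ ∃ τ, γ τ = P
  iso : ∀ s t, ch (γ s) (γ t) = Real.cosh (s - t)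

lemma exists_pl (hu : Hyp u) (hE : IsAx u E) : ∃ γ, PL γ E := by
  obtain ⟨f, t, -, h0⟩ := hu.fr0 hE
  have e : ∀ τ, dil τ • o = (Real.exp (-τ), 0, Real.exp τ) := fun τ => by simp [dil_smul, o]
  refine ⟨fun τ => f⁻¹ • dil τ • o, hE.1, (continuous_isom _).comp ?_, fun P => ⟨?_, ?_⟩,
    fun s t => ?_⟩
  · simp only [e]
    fun_prop
  · rintro ⟨h1, h2⟩
    rw [← Bf_isom f, h0, Bf_E0] at h2
    have h3 := h1.smul f
    refine ⟨Real.log (f • P).2.2, ?_⟩
    rw [inv_smul_eq_iff, e, Real.exp_neg, Real.exp_log h3.pos]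
    have h4 := h3.eq
    have h5 := h3.pos.ne'
    ext
    · exact (eq_inv_of_mul_eq_one_left (by simpa [h2] using h4)).symm
    · exact h2.symm
    · rfl
  · rintro ⟨τ, rfl⟩
    exact ⟨(H2_o.smul _).smul _, by rw [← Bf_move, h0, Bf_E0, e]⟩
  · rw [ch_isom, e, e, Real.cosh_eq, neg_sub, sub_eq_add_neg, sub_eq_add_neg, Real.exp_add,
      Real.exp_add]
    simp only [ch, Bf]
    ring

namespace PL

variable {γ γ' : ℝ → V} (l : PL γ E)
include l

lemma h2 (τ : ℝ) : H2 (γ τ) := ((l.mem _).2 ⟨τ, rfl⟩).1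

lemma on (τ : ℝ) : Bf E (γ τ) = 0 := ((l.mem _).2 ⟨τ, rfl⟩).2

lemma inj : Function.Injective γ := fun s t h => by
  have := l.iso s t
  rw [h, l.iso, sub_self, Real.cosh_zero] at this
  exact sub_eq_zero.1 (by_contra fun a => (Real.one_lt_cosh.2 a).ne this)

lemma smul (f : Isom) : PL (fun τ => f • γ τ) (f • E) where
  unit := by simpa using l.unit
  cont := (continuous_isom f).comp l.cont
  mem P := by
    simp only [Bf_move, smul_eq_iff_eq_inv_smul, ← l.mem]
    exact and_congr_left fun _ => ⟨fun h => h.smul _, fun h => by simpa using h.smul f⟩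
  iso s t := by rw [ch_isom, l.iso]

lemma rev : PL (fun τ => γ (-τ)) E where
  unit := l.unit
  cont := l.cont.comp continuous_neg
  mem P := (l.mem P).trans ⟨fun ⟨τ, h⟩ => ⟨-τ, by simpa using h⟩, fun ⟨τ, h⟩ => ⟨-τ, h⟩⟩
  iso s t := by rw [l.iso, ← Real.cosh_neg]; congr 1; ring

lemma neg : PL γ (-E) := ⟨by simpa using l.unit, l.cont, by simpa using l.mem, l.iso⟩

/-- Crossing lines have one common point. -/
lemma one (hF : Bf F F = 1) (h : Cr F E) {s t : ℝ} (hs : Bf F (γ s) = 0) (ht : Bf F (γ t) = 0) :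
    s = t :=
  l.inj (eq_of_cr hF l.unit h (l.h2 s) (l.h2 t) (hs.trans ht.symm) ((l.on s).trans (l.on t).symm))

/-- A translation that preserves a line shifts its parameter. -/
lemma shift (hu : Hyp u) (h : u • E = E ∨ u • E = -E) {s t : ℝ} (e : u • γ s = γ t) (τ : ℝ) :
    u • γ τ = γ (τ + (t - s)) := by
  have h1 : ∀ τ, ∃ τ', γ τ' = u • γ τ := fun τ => (l.mem _).1 ⟨(l.h2 τ).smul u, by
    have := (l.smul u).on τ
    rcases h with h | h <;> simpa [h] using this⟩
  choose ψ hψ using h1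
  have h2 : ∀ a b, (ψ a - ψ b) ^ 2 = (a - b) ^ 2 := fun a b => by
    have : Real.cosh (ψ a - ψ b) = Real.cosh (a - b) := by rw [← l.iso, hψ, hψ, ch_isom, l.iso]
    exact sq_eq_sq_iff_abs_eq_abs _ _ |>.2
      (le_antisymm (Real.cosh_le_cosh.1 this.le) (Real.cosh_le_cosh.1 this.ge))
  have h3 : ∀ a, (ψ 1 - ψ 0) * (ψ a - ψ 0) = a := fun a => by nlinarith [h2 a 0, h2 a 1, h2 1 0]
  have h4 : ψ s = t := l.inj ((hψ s).trans e)
  rcases mul_self_eq_one_iff.1 (h3 1) with a | a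
  · rw [← hψ]
    congr 1
    have := h3 τ
    have := h3 s
    rw [a] at *
    linarith
  · refine (not_fix hu (l.h2 (ψ 0 / 2)) ?_).elim
    have := h3 (ψ 0 / 2)
    rw [a] at this
    rw [← hψ]
    congr 1
    linarith

lemma joined {s t : ℝ} (h : s ≤ t) : JoinedIn (γ '' Icc s t) (γ s) (γ t) :=
  ((convex_Icc s t).isPathConnected ⟨s, left_mem_Icc.2 h⟩ |>.image l.cont).joinedIn _
    ⟨s, left_mem_Icc.2 h, rfl⟩ _ ⟨t, right_mem_Icc.2 h, rfl⟩

lemma bdd (s t : ℝ) : ∃ R, ∀ τ ∈ Icc s t, ch o (γ τ) ≤ R := by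
  obtain ⟨R, hR⟩ := ((isCompact_Icc (a := s) (b := t)).image (f := fun τ => ch o (γ τ))
    (continuous_Bf.comp (continuous_const.prodMk l.cont)).neg).bddAbove
  exact ⟨R, fun τ h => hR ⟨τ, h, rfl⟩⟩

end PL

end Pool.Agent.MP_646035_al.H24

end

-- part MP_646035_al.H84.GDefs
section

/-!
Closed hyperbolic surfaces: simple closed geodesics and their intersection numbers.
-/

namespace Pool.Agent.MP_646035_al.H84

open Pool.Agent.MP_4a6971_al.H66 Set

/-- A convex cocompact group of hyperbolic translations. -/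
abbrev Fu (Γ : Type) [Group Γ] := MC.Fuchs Γ

namespace Fu

variable {Γ : Type} [Group Γ] (S : Fu Γ)

lemma prop (R : ℝ) : {x | ch o (S.σ x • o) ≤ R}.Finite := MC.Fuchs.proper S R

/-- Unit normals of axes of non-trivial elements. -/
def Ax (E : V) : Prop := ∃ x, x ≠ 1 ∧ IsAx (S.σ x) E

/-- All the lifts, with both normals, of the closed geodesic covered by `E`. -/
def lns (E : V) : Set V := {F | ∃ g, F = S.σ g • E ∨ F = -(S.σ g • E)}

/-- Simple closed geodesics that are not boundary components, as sets of oriented lines. -/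
def Cv : Type := {A : Set V // ∃ E, S.Curve E ∧ A = S.lns E}

/-- The orbit of a point. -/
def orb (q : V) : Set V := {w | ∃ g, w = S.σ g • q}

variable {S}

/-- The crossing points of two curves, upstairs. -/
def X (a b : S.Cv) : Set V :=
  {q | H2 q ∧ ∃ E ∈ a.1, ∃ F ∈ b.1, Cr E F ∧ Bf E q = 0 ∧ Bf F q = 0}

/-- The intersection number: the number of crossing points downstairs. -/
noncomputable def i (a b : S.Cv) : ℕ := (S.orb '' X a b).ncard

/-- `c` generates the stabiliser of the line `E` and shifts its parameter by `τ > 0`. -/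
structure Per (S : Fu Γ) (γ : ℝ → V) (E : V) (c : Γ) (τ : ℝ) : Prop where
  pl : H24.PL γ E
  pos : 0 < τ
  fix : S.σ c • E = E
  sh : ∀ t, S.σ c • γ t = γ (t + τ)
  gen : ∀ g, S.σ g • E = E ∨ S.σ g • E = -E → ∃ k : ℤ, g = c ^ k

/-- The parameters at which `γ` crosses a line of the family `L`. -/
def Pos (L : Set V) (γ : ℝ → V) (E : V) : Set ℝ := {t | ∃ F ∈ L, Cr E F ∧ Bf F (γ t) = 0}

/-- All the lines of a set of curves. -/
def LL (P : Set S.Cv) : Set V := {F | ∃ a ∈ P, F ∈ a.1}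

/-- The walls of a set of curves: its lines and the boundary lines. -/
def WL (P : Set S.Cv) : Set V := {F | F ∈ LL P ∨ F ∈ S.per ∨ -F ∈ S.per}

/-- Every curve is crossed by a curve. -/
def Fill (S : Fu Γ) : Prop := ∀ a : S.Cv, ∃ b, i a b ≠ 0

end Fu

end Pool.Agent.MP_646035_al.H84

end
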