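import Pool.Agent.MP_646035_al.Mg.H24_Bic
import Pool.Agent.MP_646035_al.Mg.H84_GDefs
import Pool.Agent.MP_646035_al.Mg.H84_GBase
import Pool.Agent.MP_646035_al.Mg.Bx_Uni

attribute [-instance] Prod.instSMul Prod.mulAction DivisionCommMonoid.toDivisionMonoid
  MulZeroOneClass.toMulOneClass NonUnitalRingHomClass.toMulHomClass MonTypeEquivalenceMon.monMonoid
  Semiring.toMonoid ESeminormedAddCommMonoid.toAddCommMonoid NonUnitalAlgSemiHomClass.toMulHomClass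
  ContinuousMonoidHom.instCoeOutOfMonoidHomClassOfContinuousMapClass Prod.distribSMul
  instDistribOfSemiring SemigroupWithZero.toSemigroup GroupConeClass.toSubmonoidClass
  SetLike.GradeZero.instMonoid IdemSemiring.toCanonicallyOrderedAdd SubsemiringClass.toSubmonoidClass
  MulZeroClass.toMul SMulWithZero.toSMulZeroClass AddCommMonoidWithOne.toAddMonoidWithOne
  instCoeOTCOfCoeTC MonoidWithZero.toMonoid NonUnitalRing.toNonUnitalNonAssocRing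

-- part MP_646035_al.H24.Closed
section

/-!
The graph of simple closed geodesics of a closed hyperbolic surface is hyperbolic.
-/

namespace Pool.Agent.MP_646035_al.H24

open Pool.Agent.MP_4a6971_al.H66 Set

variable {Γ C : Type*} [Group Γ]

/-- A family of simple closed geodesics, given by their sets of lifts. -/
structure Fam (σ : Γ →* Isom) (ln : C → Set V) (i : C → C → ℕ) : Prop where
  hyp : ∀ x, x ≠ 1 → MP_4a6971_al.H66.Hyp (σ x)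
  prop : ∀ R : ℝ, {x | ch o (σ x • o) ≤ R}.Finite
  inj : Function.Injective ln
  ex : ∀ a, ∃ E, (∃ x, x ≠ 1 ∧ IsAx (σ x) E) ∧ ln a = {F | ∃ g, F = σ g • E ∨ F = -(σ g • E)}
  simple : ∀ a, ∀ F ∈ ln a, ∀ F' ∈ ln a, ¬ Cr F F'
  eq : ∀ a b, i a b = ((fun q => {w | ∃ g, w = σ g • q}) ''
    {q | H2 q ∧ ∃ E ∈ ln a, ∃ F ∈ ln b, Cr E F ∧ Bf E q = 0 ∧ Bf F q = 0}).ncard

variable {σ : Γ →* Isom} {ln : C → Set V} {i : C → C → ℕ} {a b : C} {E F p q : V} {c c' : Γ}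
  {K L : Set V} {γ γ' : ℝ → V}

lemma ax_conj (h : IsAx (σ c) E) (g : Γ) : IsAx (σ (g * c * g⁻¹)) (σ g • E) := by
  simpa only [map_mul, map_inv] using h.conj (σ g)

namespace Fam

variable (Y : Fam σ ln i)
include Y

lemma iff (h : E ∈ ln a) : F ∈ ln a ↔ ∃ g, F = σ g • E ∨ F = -(σ g • E) := by
  obtain ⟨D, -, e⟩ := Y.ex a
  rw [e] at h ⊢
  obtain ⟨k, rfl | rfl⟩ := h <;> refine ⟨fun ⟨g, h⟩ => ⟨g * k⁻¹, ?_⟩, fun ⟨g, h⟩ => ⟨g * k, ?_⟩⟩ <;>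
    simpa only [map_mul, map_inv, mul_smul, inv_smul_smul, smul_neg, neg_neg, or_comm] using h

lemma smul (h : E ∈ ln a) (g : Γ) : σ g • E ∈ ln a := (Y.iff h).2 ⟨g, Or.inl rfl⟩

lemma ax (h : E ∈ ln a) : ∃ x, x ≠ 1 ∧ IsAx (σ x) E := by
  obtain ⟨D, ⟨x, h1, h2⟩, e⟩ := Y.ex a
  rw [e] at h
  obtain ⟨g, rfl | rfl⟩ := h
  exacts [⟨_, by simpa only [ne_eq, conj_eq_one_iff] using h1, ax_conj h2 g⟩, ⟨_, by simpa only [ne_eq, conj_eq_one_iff] using h1, (ax_conj h2 g).neg⟩]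

lemma uniq (h : E ∈ ln a) (h' : E ∈ ln b) : a = b :=
  Y.inj (Set.ext fun _ => (Y.iff h).trans (Y.iff h').symm)

lemma free {g : Γ} (hp : H2 p) (h : σ g • p = p) : g = 1 :=
  by_contra fun e => not_fix (Y.hyp g e) hp h

lemma cr (h : a ≠ b) (hE : E ∈ ln a) (hF : F ∈ ln b) (hp : H2 p) (h1 : Bf E p = 0)
    (h2 : Bf F p = 0) : Cr E F := by
  obtain ⟨_, -, e⟩ := Y.ax hE
  obtain ⟨_, -, f⟩ := Y.ax hF
  exact (cr_or_eq e.1 f.1 hp h1 h2).resolve_right fun d =>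
    h (Y.uniq ((Y.iff hE).2 ⟨1, by simpa only [map_one, one_smul] using d⟩) hF)

lemma fix (hE : E ∈ ln a) (l : PL γ E) {g : Γ} {s t : ℝ} (h : σ g • γ s = γ t) :
    σ g • E = E ∨ σ g • E = -E :=
  (cr_or_eq l.unit (l.smul _).unit (l.h2 t) (l.on t) (h ▸ (l.smul _).on s)).resolve_left
    (Y.simple a _ hE _ (Y.smul hE g))

lemma fin (l : PL γ E) (l' : PL γ' F) (s s' t t' : ℝ) :
    {g : Γ | ∃ x ∈ Icc s s', ∃ y ∈ Icc t t', σ g • γ' y = γ x}.Finite := by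
  obtain ⟨R, hR⟩ := l.bdd s s'
  obtain ⟨R', hR'⟩ := l'.bdd t t'
  refine (Y.prop (2 * R * R')).subset ?_
  rintro g ⟨x, h1, y, h2, e⟩
  have h3 := ch_tri H2_o (l.h2 x) (H2_o.smul (σ g))
  have h4 := one_le_ch H2_o (l.h2 x)
  have h5 := one_le_ch H2_o (l'.h2 y)
  have h6 := hR x h1
  have h7 := hR' y h2
  rw [ch_comm (γ x), ← e, ch_isom, ch_comm (γ' y), e] at h3
  exact h3.trans (by gcongr; linarith)

/-- Crossing axes force the walks to meet. -/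
lemma meet (hc : c ≠ 1) (hE : IsAx (σ c) E) (hc' : c' ≠ 1) (hF : IsAx (σ c') F)
    (hK : ∀ P ∈ K, H2 P) (hL : ∀ P ∈ L, H2 P) (j : JoinedIn K p (σ c • p))
    (j' : JoinedIn L q (σ c' • q)) {g : Γ} (h : Cr E (σ g • F)) :
    ∃ m n : ℤ, ∃ Q ∈ L, σ (c ^ m * g * c' ^ n) • Q ∈ K := by
  obtain ⟨m, n, P, h1, _, ⟨Q, h2, rfl⟩, e⟩ := cross (Y.hyp c hc) hE (Y.hyp _ (by simpa only [ne_eq, conj_eq_one_iff] using hc'))
    (ax_conj hF g) h hK (L := (fun P => σ g • P) '' L) (q := σ g • q)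
    (by rintro _ ⟨P, h, rfl⟩; exact (hL P h).smul _) j
    (by simpa only [map_mul, map_inv, mul_smul, inv_smul_smul] using j'.map_continuousOn (continuous_isom (σ g)).continuousOn)
  refine ⟨-m, n, Q, h2, ?_⟩
  rw [← map_zpow σ (g * c' * g⁻¹), conj_zpow, ← eq_inv_smul_iff] at e
  simpa only [zpow_neg, map_mul, map_inv, map_zpow, mul_smul, e, inv_smul_smul] using h1

lemma sub (hc : c ≠ 1) (hE : IsAx (σ c) E) (hc' : c' ≠ 1) (hF : IsAx (σ c') F) (ha : E ∈ ln a)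
    (hb : F ∈ ln b) (hK : ∀ P ∈ K, H2 P) (hL : ∀ P ∈ L, H2 P) (j : JoinedIn K p (σ c • p))
    (j' : JoinedIn L q (σ c' • q)) : ∃ f : Γ → Set V, (fun q => {w | ∃ g, w = σ g • q}) ''
      {q | H2 q ∧ ∃ E ∈ ln a, ∃ F ∈ ln b, Cr E F ∧ Bf E q = 0 ∧ Bf F q = 0} ⊆
        f '' {g | ∃ Q ∈ L, σ g • Q ∈ K} := by
  have : ∀ g, ∃ x, Cr E (σ g • F) → H2 x ∧ Bf E x = 0 ∧ Bf (σ g • F) x = 0 := fun g => by
    by_cases h : Cr E (σ g • F)
    exacts [(exists_inter hE.1 (by simpa using hF.1) h).imp fun _ e _ => e, ⟨0, fun e => (h e).elim⟩]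
  choose pt hpt using this
  refine ⟨fun k => {w | ∃ g, w = σ g • pt k}, ?_⟩
  rintro _ ⟨x, ⟨h1, E', e, F', f, h2, h3, h4⟩, rfl⟩
  obtain ⟨g, e⟩ := (Y.iff ha).1 e
  obtain ⟨k, f⟩ := (Y.iff hb).1 f
  replace h2 : Cr (σ g • E) (σ k • F) := by
    rcases e with rfl | rfl <;> rcases f with rfl | rfl <;> simpa using h2
  replace h3 : Bf (σ g • E) x = 0 := by rcases e with rfl | rfl <;> simpa using h3
  replace h4 : Bf (σ k • F) x = 0 := by rcases f with rfl | rfl <;> simpa using h4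
  obtain ⟨m, n, h5⟩ := Y.meet hc hE hc' hF hK hL j j' (g := g⁻¹ * k)
    (by simpa only [map_mul, map_inv, mul_smul, cr_move] using h2)
  have e1 : σ (c ^ m * (g⁻¹ * k) * c' ^ n) • F = σ (c ^ m * g⁻¹) • σ k • F := by
    simp only [map_mul, map_zpow, map_inv, mul_smul, hF.zpow]
  have e2 : E = σ (c ^ m * g⁻¹) • σ g • E := by simp only [map_mul, map_zpow, map_inv, mul_smul, inv_smul_smul, hE.zpow]
  have h6 : Cr E (σ (c ^ m * (g⁻¹ * k) * c' ^ n) • F) := by rwa [e1, e2, cr_isom]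
  obtain ⟨p1, p2, p3⟩ := hpt _ h6
  have h7 := eq_of_cr hE.1 (by simpa only [map_mul, map_zpow, map_inv, Bf_isom] using hF.1) h6 p1 (h1.smul (σ (c ^ m * g⁻¹)))
    (by rw [p2, e2, Bf_isom, h3]) (by rw [p3, e1, Bf_isom, h4])
  refine ⟨_, h5, Set.ext fun w => ?_⟩
  simp only [h7, mem_ofPred_eq, ← mul_smul, ← map_mul]
  exact ⟨fun ⟨u, h⟩ => ⟨_, h⟩, fun ⟨u, h⟩ => ⟨u * (c ^ m * g⁻¹)⁻¹, by rwa [inv_mul_cancel_right]⟩⟩

lemma per (hE : E ∈ ln a) (l : PL γ E) : ∃ (g : Γ) (θ : ℝ), 0 < θ ∧ γ θ = σ g • γ 0 := by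
  obtain ⟨x, h1, h2⟩ := Y.ax hE
  obtain ⟨θ, e⟩ := (l.mem (σ x • γ 0)).1 ⟨(l.h2 0).smul _, by rw [← h2.2, Bf_isom, l.on]⟩
  rcases lt_trichotomy 0 θ with d | rfl | d
  · exact ⟨x, θ, d, e⟩
  · exact (h1 (Y.free (l.h2 0) e.symm)).elim
  · refine ⟨x⁻¹, -θ, by linarith, ?_⟩
    rw [map_inv, eq_inv_smul_iff, l.shift (Y.hyp x h1) (Or.inl h2.2) e.symm]
    simp

lemma lp1 (hE : E ∈ ln a) (l : PL γ E) {s t : ℝ} (h : s < t) (e : γ t = σ c • γ s) :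
    c ≠ 1 ∧ IsAx (σ c) E := by
  have h1 : c ≠ 1 := fun d => h.ne' (l.inj (by simpa only [d, map_one, one_smul] using e))
  obtain ⟨D, hD⟩ := (Y.hyp c h1).exists_ax
  refine ⟨h1, ?_⟩
  rcases (Y.hyp c h1).zpow_fix hD l.unit one_ne_zero (by simpa using Y.fix hE l e.symm) with
    rfl | rfl
  exacts [hD, hD.neg]

omit Y in
lemma seg_h2 {s t : ℝ} (l : PL γ E) : ∀ P ∈ γ '' Icc s t, H2 P := by
  rintro _ ⟨τ, -, rfl⟩
  exact l.h2 τ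

/-- The axioms on parametrised lifts. -/
theorem mod0 : @Mod0 Γ V C _ (MulAction.compHom V σ) i fun γ a => ∃ E ∈ ln a, PL γ E := by
  let _ := MulAction.compHom V σ
  have ex : ∀ a, ∃ γ, ∃ E ∈ ln a, PL γ E := fun a => by
    obtain ⟨E, ⟨x, h1, h2⟩, e⟩ := Y.ex a
    obtain ⟨γ, l⟩ := exists_pl (Y.hyp x h1) h2
    exact ⟨γ, E, e ▸ ⟨1, by simp only [map_one, one_smul, true_or]⟩, l⟩
  refine ⟨fun a b => ?_, ex, fun ⟨_, _, l⟩ => l.inj, fun ⟨_, _, l⟩ => Y.free (l.h2 _),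
    fun g ⟨_, e, l⟩ => ⟨_, Y.smul e g, l.smul _⟩, fun ⟨_, e, l⟩ => ⟨_, e, l.rev⟩, ?_,
    fun ⟨_, e, l⟩ => Y.per e l, ?_, fun _ _ _ _ ⟨_, _, l⟩ ⟨_, _, l'⟩ => Y.fin l l' _ _ _ _, ?_⟩
  · rw [Y.eq, Y.eq]
    congr 2
    ext q
    exact and_congr_right fun _ => ⟨fun ⟨E, e, F, f, h1, h2, h3⟩ => ⟨F, f, E, e, h1.symm, h3, h2⟩,
      fun ⟨E, e, F, f, h1, h2, h3⟩ => ⟨F, f, E, e, h1.symm, h3, h2⟩⟩
  · rintro γ a s t g ⟨E, e, l⟩ h τ
    rcases eq_or_ne g 1 with rfl | d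
    · rw [one_smul] at h ⊢
      simp [l.inj h]
    · exact l.shift (Y.hyp g d) (Y.fix e l h) h τ
  · rintro γ γ' a b s t s' t' h ⟨E, e, l⟩ ⟨F, f, l'⟩ h1 h2
    exact l'.one l.unit (Y.cr h e f (l.h2 s) (l.on s) (h1 ▸ l'.on t)) (h1 ▸ l.on s) (h2 ▸ l.on s')
  · rintro γ' a b S h ⟨F, f, l'⟩ h3 h4
    obtain ⟨γ, E, e, l⟩ := ex a
    obtain ⟨c, θ, c1, c2⟩ := Y.per e l
    obtain ⟨c', θ', c3, c4⟩ := Y.per f l'
    obtain ⟨φ, hφ⟩ := Y.sub (Y.lp1 e l c1 c2).1 (Y.lp1 e l c1 c2).2 (Y.lp1 f l' c3 c4).1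
      (Y.lp1 f l' c3 c4).2 e f (seg_h2 l) (seg_h2 l') (c2 ▸ l.joined c1.le) (c4 ▸ l'.joined c3.le)
    rw [Y.eq, ← ncard_coe_finset]
    refine ncard_le_ncard_of_injOn (fun τ => {w | ∃ g, w = σ g • γ' τ}) (fun τ hτ => ?_)
      (fun τ hτ τ' hτ' d => ?_) ((((Y.fin l l' 0 θ 0 θ').subset ?_).image φ).subset hφ)
    · obtain ⟨γ, s, ⟨E, e, l⟩, d⟩ := h3 τ hτ
      exact ⟨_, ⟨l'.h2 τ, E, e, F, f, Y.cr h e f (l'.h2 τ) (d ▸ l.on s) (l'.on τ), d ▸ l.on s,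
        l'.on τ⟩, rfl⟩
    · obtain ⟨g, hg⟩ : γ' τ' ∈ {w | ∃ g, w = σ g • γ' τ} := (Set.ext_iff.1 d _).2 ⟨1, by simp only [map_one, one_smul]⟩
      rw [h4 g τ hτ τ' hτ' hg.symm] at hg
      exact l'.inj (by simpa using hg.symm)
    · rintro g ⟨_, ⟨y, y1, rfl⟩, x, x1, d⟩
      exact ⟨x, x1, y, y1, d.symm⟩

/-- The intersection number is at most the number of translates of a loop that meet a loop. -/
lemma up (hc : c ≠ 1) (hE : IsAx (σ c) E) (hc' : c' ≠ 1) (hF : IsAx (σ c') F) (ha : E ∈ ln a)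
    (hb : F ∈ ln b) (hK : ∀ P ∈ K, H2 P) (hL : ∀ P ∈ L, H2 P) (j : JoinedIn K p (σ c • p))
    (j' : JoinedIn L q (σ c' • q)) (T : Finset Γ) (hT : ∀ g, ∀ P ∈ L, σ g • P ∈ K → g ∈ T) :
    i a b ≤ T.card := by
  obtain ⟨φ, hφ⟩ := Y.sub hc hE hc' hF ha hb hK hL j j'
  rw [Y.eq, ← ncard_coe_finset]
  exact (ncard_le_ncard (hφ.trans (image_mono fun g ⟨Q, h1, h2⟩ => hT g Q h1 h2))
    (T.finite_toSet.image _)).trans (ncard_image_le T.finite_toSet)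

/-- The axioms of `Mod` when every simple closed geodesic belongs to the family. -/
theorem mod (all : ∀ x E, x ≠ 1 → IsAx (σ x) E → (∀ g, ¬ Cr E (σ g • E)) → ∃ a, E ∈ ln a) :
    @Mod Γ V C _ (MulAction.compHom V σ) i 1 (fun γ a => ∃ E ∈ ln a, PL γ E)
      (fun K c => c ≠ 1 ∧ (∀ P ∈ K, H2 P) ∧ ∃ p, JoinedIn K p (σ c • p))
      fun c a => c ≠ 1 ∧ ∃ E ∈ ln a, IsAx (σ c) E := by
  let _ := MulAction.compHom V σ
  refine ⟨Y.mod0, ?_, ?_, ?_, ?_⟩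
  · rintro γ a s t c ⟨E, e, l⟩ h h1
    obtain ⟨h3, h4⟩ := Y.lp1 e l h h1
    exact ⟨⟨h3, seg_h2 l, _, (show γ t = σ c • γ s from h1) ▸ l.joined h.le⟩, h3, E, e, h4⟩
  · rintro γ γ' a b s₀ s₁ t₀ t₁ c ⟨E, -, l⟩ ⟨F, -, l'⟩ h h' h3 h4 h5
    exact ⟨h5, fun P e => e.elim (seg_h2 l P) (seg_h2 l' P), _, (show γ' t₁ = σ c • γ s₀ from h4) ▸
      ((l.joined h.le).mono subset_union_left).trans
        (h3 ▸ (l'.joined h'.le).mono subset_union_right)⟩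
  · rintro K c ⟨h, hK, p, j⟩ hs
    obtain ⟨E, hE⟩ := (Y.hyp c h).exists_ax
    obtain ⟨a, ha⟩ := all c E h hE fun g hg => by
      obtain ⟨m, n, Q, h3, h4⟩ := Y.meet h hE h hE hK hK j j hg
      have : c ^ m * g * c ^ n ∈ Subgroup.zpowers c := by
        rcases hs _ Q h3 h4 with e | e | e <;> simp [e]
      rw [Subgroup.mul_mem_cancel_right _ (Subgroup.zpow_mem_zpowers _ _),
        Subgroup.mul_mem_cancel_left _ (Subgroup.zpow_mem_zpowers _ _)] at this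
      obtain ⟨k, rfl⟩ := this
      exact not_cr_self hE.1 (by simpa only [map_zpow, hE.zpow] using hg)
    exact ⟨a, h, E, ha, hE⟩
  · rintro K L c c' a b T ⟨h, hK, p, j⟩ ⟨h', hL, q, j'⟩ ⟨-, E, e, hE⟩ ⟨-, F, f, hF⟩ hT
    exact (Y.up h hE h' hF e f hK hL j j' T hT).trans_eq (one_mul _).symm

/-- Hyperbolicity of the graph of curves of a closed surface. -/
theorem hyp_closed (all : ∀ x E, x ≠ 1 → IsAx (σ x) E → (∀ g, ¬ Cr E (σ g • E)) → ∃ a, E ∈ ln a)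
    {K : ℕ} (hK : 12 ≤ K) : ∃ (d : C → C → ℕ) (δ : ℕ), H71.IsDist i K d ∧
      ∀ (G : Type) [Group G] [MulAction G C], (∀ (g : G) a b, i (g • a) (g • b) = i a b) →
        H24.Hyp G d δ :=
  @Mod.hyp Γ V C _ (MulAction.compHom V σ) _ _ _ _ _ (Y.mod all) K hK

end Fam

end Pool.Agent.MP_646035_al.H24

end

-- part MP_646035_al.Bx.HypC
section

/-!
Hyperbolicity of the graph of curves: the closed case, and the reduction of the other case.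
-/

namespace Pool.Agent.MP_646035_al.MC

open Pool.Agent.MP_4a6971_al.H66 H84

variable {Γ : Type} [Group Γ]

lemma Fuchs.fam (Y : Fuchs Γ) : H24.Fam Y.σ (fun a : Fu.Cv Y => a.1) Fu.i :=
  ⟨Y.hyp, Y.proper, Subtype.val_injective, fun a => a.2.imp fun _ h => ⟨h.1.ax, h.2⟩,
    fun a _ h _ h' => a.simple h h', fun _ _ => rfl⟩

theorem Fuchs.hypC_of (Y : Fuchs Γ) (h : Y.per.Nonempty → ∃ (Ω : Type) (_ : MulAction Γ Ω)
    (r : Ω → Ω → Ω → Prop) (cut : Fu.Cv Y → Set (Set Ω)), Sys Γ r cut Fu.i) :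
    ∃ (K : ℕ) (d : Fu.Cv Y → Fu.Cv Y → ℕ) (δ : ℕ), 2 ≤ K ∧ H71.IsDist Fu.i K d ∧
      ∀ (G : Type) [Group G] [MulAction G (Fu.Cv Y)],
        (∀ (g : G) (a b : Fu.Cv Y), Fu.i (g • a) (g • b) = Fu.i a b) → H24.Hyp G d δ := by
  rcases Y.per.eq_empty_or_nonempty with e | e
  · obtain ⟨d, δ, h⟩ := Y.fam.hyp_closed (fun x E h1 h2 h3 =>
      ⟨_, Fu.mem_mk ⟨⟨x, h1, h2⟩, h3, by simp [e], by simp [e]⟩⟩) le_rfl
    exact ⟨12, d, δ, by omega, h⟩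
  · obtain ⟨Ω, _, r, cut, S⟩ := h e
    obtain ⟨d, δ, h⟩ := S.hyp le_rfl
    exact ⟨8, d, δ, by omega, h⟩

end Pool.Agent.MP_646035_al.MC

end
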