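import Pool.Agent.MP_646035_al.Mg.MC_Trace
import Pool.Agent.MP_646035_al.Mg.H84_GDefs

attribute [-instance] Submonoid.instSMulSubtypeMem GradedMonoid.GradeZero.mulAction
  CommGroup.toDivisionCommMonoid MulActionWithZero.toMulAction SMulWithZero.toSMulZeroClass
  NonUnitalRingHomClass.toMulHomClass MonTypeEquivalenceMon.monMonoid DivisionSemiring.toSemiring
  AddQuantale.instAddLeftMono SubsemiringClass.toCommSemiring
  Action.FintypeCat.instMulActionObjFiniteOf SubringClass.toRing Algebra.toSMul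
  MulSemiringAction.toDistribMulAction Subgroup.instMulDistribMulActionSubtypeMem
  AddSubmonoidClass.toAddCommMonoid IdemSemiring.toCanonicallyOrderedAdd
  SetLike.GradeZero.instSemiring SetLike.GradeZero.instCommSemiring SetLike.GradeZero.instRing
  AddMonoidWithOne.toOne invertibleTwo NonUnitalAlgSemiHomClass.toMulHomClass
  SemigroupWithZero.toSemigroup IsScalarTower.complexToReal SetLike.GradeZero.instMonoid
  Fintype.decidableExistsFintype MonoidWithZeroHomClass.toMonoidHomClass IdemSemiring.toSemiring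
  AddQuantale.instAddRightMono MonoidWithZero.toMonoid littleWedderburn Torsor.toMulAction
  NumberField.to_charZero GroupConeClass.toSubmonoidClass BialgHomClass.toMonoidHomClass
  IdemSemiring.toMulLeftMono MulZeroOneClass.toMulZeroClass NormedCommRing.toCommRing
  NonUnitalRing.toNonUnitalNonAssocRing Quantale.instMulRightMono MulDistribMulAction.toMulAction
  SubsemiringClass.toSemiring Submonoid.instDistribMulActionSubtypeMem NormedRing.toRing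
  SetLike.GradeZero.instCommRing instSMulZeroClass SeminormedCommRing.toCommRing Action.instMulAction
  SeminormedRing.toRing GradedMonoid.GradeZero.smul IsOrderedMonoid.toMulLeftMono
  GroupWithZero.toDivisionMonoid DivisionRing.toDivInvMonoid BooleanRing.toRing
  GroupWithZero.toDivInvMonoid FunLike.toDecidableEq MulAction.instMulAction
  EuclideanDomain.toCommRing Quantale.instMulLeftMono Subtype.partialOrder
  NonAssocSemiring.toNonUnitalNonAssocSemiring SubsemiringClass.toSubmonoidClass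
  NonUnitalSemiring.toNonUnitalNonAssocSemiring LieAdmissibleRing.toNonUnitalNonAssocRing
  continuousSub_of_discreteTopology NonUnitalNormedCommRing.toNonUnitalCommRing DivisionRing.toRing
  LinearOrderedCommMonoidWithZero.toPosMulStrictMono IdemCommSemiring.toCommSemiring
  NonAssocSemiring.toMulZeroOneClass Submonoid.instMulActionSubtypeMem

-- part MP_646035_al.H66G.Alg
section

/-!
Matrices of isometries; traces and axes of products of two translations.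
-/

namespace Pool.Agent.MP_646035_al.H66G

open Pool.Agent.MP_4a6971_al.H66 MC Real

variable {u v w f : Isom} {t a b c d : ℝ} {E F G Z Z' N P Q : V}

lemma null_sq (h : Fut N) (h0 : Bf N N = 0) : ∃ a b : ℝ, N = (a ^ 2, a * b, b ^ 2) := by
  have h1 := h o H2_o
  rw [ch_comm, ch_o] at h1
  obtain ⟨x, y, z⟩ := N
  simp only [Bf] at h0 h1
  have hx : 0 ≤ x := by nlinarith only [sq_nonneg y, h0, h1]
  have hz : 0 ≤ z := by nlinarith only [sq_nonneg y, h0, h1]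
  have e : (√x * √z) ^ 2 = y ^ 2 := by rw [mul_pow, sq_sqrt hx, sq_sqrt hz]; linarith only [h0]
  rcases sq_eq_sq_iff_eq_or_eq_neg.1 e with e | e
  · exact ⟨√x, √z, by rw [sq_sqrt hx, sq_sqrt hz, e]⟩
  · exact ⟨√x, -√z, by rw [sq_sqrt hx, neg_sq, sq_sqrt hz, mul_neg, e, neg_neg]⟩

lemma smul_basis (f : Isom) (X : V) :
    f • X = X.1 • f • ((1, 0, 0) : V) + X.2.1 • f • E0 + X.2.2 • f • ((0, 0, 1) : V) := by
  rw [← isom_smul, ← isom_smul, ← isom_smul, ← smul_add, ← smul_add]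
  congr 1
  ext <;> simp [E0]

lemma isom_act (f : Isom) : ∃ a b c d : ℝ, (a * d - b * c) ^ 2 = 1 ∧ ∀ X, f • X = act a b c d X := by
  have f1 : Fut ((1, 0, 0) : V) := by simpa using fut_null 0
  have f2 : Fut ((0, 0, 1) : V) := fun Q hQ => by
    have := hQ.2
    simp only [ch, Bf]
    linarith
  obtain ⟨a, b, h1⟩ := null_sq (f1.smul f) (by rw [Bf_isom]; simp [Bf])
  obtain ⟨c, d, h2⟩ := null_sq (f2.smul f) (by rw [Bf_isom]; simp [Bf])
  have h3 : (a * d - b * c) ^ 2 = 1 := by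
    have := Bf_isom f (1, 0, 0) (0, 0, 1)
    rw [h1, h2] at this
    simp only [Bf] at this
    linear_combination -2 * this
  obtain ⟨g, hg⟩ := exists_isom h3
  have e1 : g • ((1, 0, 0) : V) = f • ((1, 0, 0) : V) := by rw [hg, h1, act_apply]; simp
  have e2 : g • ((0, 0, 1) : V) = f • ((0, 0, 1) : V) := by rw [hg, h2, act_apply]; simp
  have e3 : g⁻¹ • f • E0 = E0 ∨ g⁻¹ • f • E0 = -E0 := by
    have x1 : Bf (1, 0, 0) (g⁻¹ • f • E0) = 0 := by rw [← Bf_move, e1, Bf_isom]; simp [Bf, E0]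
    have x2 : Bf (0, 0, 1) (g⁻¹ • f • E0) = 0 := by rw [← Bf_move, e2, Bf_isom]; simp [Bf, E0]
    have x3 : Bf (g⁻¹ • f • E0) (g⁻¹ • f • E0) = 1 := by simp only [Bf_isom]; simp [Bf, E0]
    generalize g⁻¹ • f • E0 = X at *
    obtain ⟨x, y, z⟩ := X
    simp only [Bf] at x1 x2 x3
    obtain rfl : x = 0 := by linarith only [x2]
    obtain rfl : z = 0 := by linarith only [x1]
    rcases mul_self_eq_one_iff.1 (show y * y = 1 by linarith only [x3]) with rfl | rfl <;> simp [E0]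
  simp only [inv_smul_eq_iff, hg] at e3
  rcases e3 with e | e
  · refine ⟨a, b, c, d, h3, fun X => ?_⟩
    rw [smul_basis, h1, h2, e]
    ext <;> simp only [Prod.smul_mk, smul_eq_mul, E0, act_apply, zero_mul, mul_one, zero_add, add_zero, one_mul, Prod.mk_add_mk, add_left_inj, add_right_inj] <;> ring
  · refine ⟨a, b, -c, -d, by linear_combination h3, fun X => ?_⟩
    rw [smul_basis, h1, h2, e]
    ext <;> simp only [Prod.smul_mk, smul_eq_mul, E0, Prod.neg_mk, neg_zero, act_apply, zero_mul, mul_neg, mul_one, neg_mul, zero_add, add_zero, one_mul, neg_add_rev, Prod.mk_add_mk, even_two, Even.neg_pow, neg_neg, add_left_inj, add_right_inj, neg_inj] <;> ring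

lemma trI_act (h : ∀ X, w • X = act a b c d X) : trI w = (a + d) ^ 2 - (a * d - b * c) := by
  have e : (w.1 : V →ₗ[ℝ] V) = (LinearMap.fst ℝ ℝ (ℝ × ℝ)).smulRight (w • ((1, 0, 0) : V)) +
      ((LinearMap.fst ℝ ℝ ℝ).comp (LinearMap.snd ℝ ℝ (ℝ × ℝ))).smulRight (w • E0) +
      ((LinearMap.snd ℝ ℝ ℝ).comp (LinearMap.snd ℝ ℝ (ℝ × ℝ))).smulRight (w • ((0, 0, 1) : V)) :=
    LinearMap.ext fun X => smul_basis w X
  rw [trI, e]
  simp only [map_add, LinearMap.trace_smulRight, h, act_apply, E0]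
  simp
  ring

lemma two_lt_exp (ht : t ≠ 0) : 2 < exp (-t) + exp t := by
  linarith [add_one_lt_exp ht, add_one_lt_exp (neg_ne_zero.2 ht)]

lemma three_lt (h : Hyp w) : 3 < trI w := by
  obtain ⟨f, t, hf⟩ := h.fr
  rw [trI_fr hf]
  linarith [two_lt_exp hf.pos.ne']

lemma hyp_mat (h : Hyp w) :
    ∃ a b c d : ℝ, a * d - b * c = 1 ∧ 2 < a + d ∧ ∀ X, w • X = act a b c d X := by
  have h3 := three_lt h
  obtain ⟨f, t, -, rfl⟩ := h
  obtain ⟨a, b, c, d, h1, h2⟩ := isom_act (f⁻¹ * dil (t / 2) * f)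
  have e : ∀ X, (f⁻¹ * dil t * f) • X =
      act (a * a + b * c) (a * b + b * d) (c * a + d * c) (c * b + d * d) X := fun X => by
    rw [← act_act, ← h2, ← h2, ← mul_smul]
    congr 1
    nth_rewrite 1 [← add_halves t, dil_add]
    group
  have e1 : (a * a + b * c) * (c * b + d * d) - (a * b + b * d) * (c * a + d * c) = 1 := by
    linear_combination h1
  rw [trI_act e, e1] at h3
  generalize a * a + b * c = a' at *
  generalize a * b + b * d = b' at *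
  generalize c * a + d * c = c' at *
  generalize c * b + d * d = d' at *
  rcases le_total 0 (a' + d') with p | p
  · exact ⟨a', b', c', d', e1, by nlinarith only [h3, p], e⟩
  · exact ⟨-a', -b', -c', -d', by linarith, by nlinarith only [h3, p], fun X => by rw [e]; simp only [act_apply, even_two, Even.neg_pow, mul_neg, neg_mul, neg_neg]⟩

lemma ax_mat (h : Hyp w) (h1 : a * d - b * c = 1) (h2 : ∀ X, w • X = act a b c d X)
    (hZ : IsAx w Z) : ∃ r : ℝ, Z = r • ((c, (d - a) / 2, -b) : V) ∧ r ^ 2 * ((a + d) ^ 2 - 4) = 4 := by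
  have h3 := three_lt h
  rw [trI_act h2, h1] at h3
  obtain ⟨r, hr⟩ : ∃ r : ℝ, r ^ 2 * ((a + d) ^ 2 - 4) = 4 := ⟨√(4 / ((a + d) ^ 2 - 4)), by
    rw [sq_sqrt (div_nonneg (by norm_num) (by linarith)), div_mul_cancel₀ _ (by linarith)]⟩
  have : IsAx w (r • ((c, (d - a) / 2, -b) : V)) := ⟨by
    simp only [Bf_smul_left, Bf_smul_right]
    simp only [Bf]
    linear_combination hr / 4 - r ^ 2 * h1, by
    rw [isom_smul, h2, act_apply]
    congr 1
    ext <;> simp only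
    · linear_combination c * h1
    · linear_combination (d - a) / 2 * h1
    · linear_combination -b * h1⟩
  rcases h.ax_unique this hZ with e | e
  · exact ⟨r, e, hr⟩
  · exact ⟨-r, by rw [e, neg_smul], by rwa [neg_sq]⟩

lemma ncr_iff (ht : t ≠ 0) (h : Hyp w) (h1 : a * d - b * c = 1) (h2 : ∀ X, w • X = act a b c d X)
    (hZ : IsAx w Z) (hb : b * c < 0) :
    ¬ Cr Z (dil t • Z) ↔ (a + d) ^ 2 - 4 ≤ -(b * c) * (exp (-t) + exp t - 2) := by
  obtain ⟨r, rfl, hr⟩ := ax_mat h h1 h2 hZ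
  have h3 := three_lt h
  rw [trI_act h2, h1] at h3
  have h4 := two_lt_exp ht
  have e : Bf (r • ((c, (d - a) / 2, -b) : V)) (dil t • r • ((c, (d - a) / 2, -b) : V)) =
      1 - r ^ 2 * (-(b * c) * (exp (-t) + exp t - 2)) / 2 := by
    rw [isom_smul, Bf_smul_left, Bf_smul_right, dil_smul]
    simp only [Bf]
    linear_combination hr / 4 - r ^ 2 * h1
  have p : 0 < -(b * c) * (exp (-t) + exp t - 2) := mul_pos (by linarith only [hb]) (by linarith only [h4])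
  have r0 : 0 < r ^ 2 := by nlinarith only [hr]
  rw [Cr, e, not_lt]
  generalize -(b * c) * (exp (-t) + exp t - 2) = K at *
  have q := mul_pos r0 p
  constructor
  · intro x
    have : 4 ≤ r ^ 2 * K := by nlinarith only [q, x]
    nlinarith only [hr, this]
  · intro x
    have : 4 ≤ r ^ 2 * K := by nlinarith only [hr, x]
    nlinarith only [this]

lemma dil_act (t : ℝ) (X : V) : dil t • X = act (exp (-t / 2)) 0 0 (exp (t / 2)) X :=
  (exists_isom (dil_aux t)).choose_spec X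

lemma conj_frame (hf : Fr u f t) : f * u * f⁻¹ = dil t :=
  isom_ext fun X => by rw [mul_smul, mul_smul, hf.one, smul_inv_smul]

lemma half (t : ℝ) : exp (-t / 2) * exp (t / 2) = 1 ∧ exp (-t) = exp (-t / 2) ^ 2 ∧
    exp t = exp (t / 2) ^ 2 := by
  refine ⟨?_, ?_, ?_⟩ <;> simp only [sq, ← exp_add]
  · rw [show -t / 2 + t / 2 = 0 by ring, exp_zero]
  · congr 1; ring
  · congr 1; ring

/-- The distance of two axes is bounded in terms of three traces. -/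
lemma bf_le (hu : Hyp u) (hv : Hyp v) (hE : IsAx u E) (hF : IsAx v F) :
    Bf E F ^ 2 * ((trI u - 3) * (trI v - 3)) ≤
      8 * (trI (u * v) + 1) + 2 * ((trI u + 1) * (trI v + 1)) := by
  obtain ⟨f, t, hf, h0⟩ := hu.fr0 hE
  obtain ⟨a, b, c, d, h1, -, h2⟩ := hyp_mat (hv.conj f)
  obtain ⟨r, e, hr⟩ := ax_mat (hv.conj f) h1 h2 (hF.conj f)
  have x : ∀ X, (f * (u * v) * f⁻¹) • X = act (a * exp (-t / 2) + b * 0) (a * 0 + b * exp (t / 2))
      (c * exp (-t / 2) + d * 0) (c * 0 + d * exp (t / 2)) X := fun X => by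
    rw [← act_act, ← h2, ← dil_act, ← conj_frame hf, ← mul_smul]
    congr 1
    group
  rw [← trI_conj f (u * v), ← trI_conj f v, trI_act x, trI_act h2, trI_fr hf, ← Bf_isom f, h0, e,
    Bf_E0, h1]
  obtain ⟨m, m1, m2⟩ := half t
  rw [m1, m2]
  generalize exp (-t / 2) = μ at *
  generalize exp (t / 2) = ν at *
  simp only [Prod.smul_snd, Prod.smul_fst, smul_eq_mul, mul_zero, add_zero, zero_add]
  have y1 : (r * ((d - a) / 2)) ^ 2 * ((1 + (μ ^ 2 + ν ^ 2) - 3) * ((a + d) ^ 2 - 1 - 3)) =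
      (2 * (a * μ + d * ν) - (μ + ν) * (a + d)) ^ 2 := by
    linear_combination (d - a) ^ 2 / 4 * (μ ^ 2 + ν ^ 2 - 2) * hr + 2 * (d - a) ^ 2 * m
  have y2 : a * μ * (d * ν) - b * ν * (c * μ) = 1 := by linear_combination (μ * ν) * h1 + m
  have y3 : 1 + (μ ^ 2 + ν ^ 2) + 1 = (μ + ν) ^ 2 := by linear_combination -2 * m
  rw [y1, y2, y3]
  linarith only [sq_nonneg (2 * (a * μ + d * ν) + (μ + ν) * (a + d))]

lemma key_le {a d μ ν K : ℝ} (h0 : 0 < μ) (h1 : μ < 1) (h2 : 1 < ν) (ha : a ≤ 0) (h3 : 2 < a + d)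
    (hK : (a + d) ^ 2 - 4 ≤ K) (e : K = (1 - a * d) * (ν - μ) ^ 2) : (d * μ + a * ν) ^ 2 - 4 ≤ K := by
  have hd : 0 < d := by linarith
  rcases le_total 0 (d * μ + a * ν) with p | p
  · have : d * μ + a * ν ≤ a + d := by nlinarith only [h1, h2, ha, h3]
    nlinarith only [hK, p, this]
  · have x : -(d * μ + a * ν) ≤ -a * (ν - μ) := by nlinarith only [h0, h3]
    have y : (d * μ + a * ν) ^ 2 ≤ (-a * (ν - μ)) ^ 2 := by nlinarith only [p, x]
    have z : a ^ 2 ≤ -(a * d) := by nlinarith only [ha, h3]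
    linarith only [mul_le_mul_of_nonneg_right z (sq_nonneg (ν - μ)), sq_nonneg (ν - μ), e, y]

/-- One of the two products of two disjoint simple loops is simple. -/
lemma prod_simple (hu : Hyp u) (hv : Hyp v) (hE : IsAx u E) (hF : IsAx v F) (h : 1 < Bf E F ^ 2)
    (n1 : ¬ Cr E (v • E)) (n2 : ¬ Cr F (u • F)) (p : Hyp (u * v)) (p' : Hyp (u * v⁻¹))
    (hZ : IsAx (u * v) Z) (hZ' : IsAx (u * v⁻¹) Z') : ¬ Cr Z (u • Z) ∨ ¬ Cr Z' (u • Z') := by
  obtain ⟨f, t, hf, h0⟩ := hu.fr0 hE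
  have ht := hf.pos
  obtain ⟨a, b, c, d, h1, h3, h2⟩ := hyp_mat (hv.conj f)
  obtain ⟨r, e, hr⟩ := ax_mat (hv.conj f) h1 h2 (hF.conj f)
  obtain ⟨m, m1, m2⟩ := half t
  have x : ∀ X, (f * (u * v) * f⁻¹) • X = act (a * exp (-t / 2) + b * 0) (a * 0 + b * exp (t / 2))
      (c * exp (-t / 2) + d * 0) (c * 0 + d * exp (t / 2)) X := fun X => by
    rw [← act_act, ← h2, ← dil_act, ← conj_frame hf, ← mul_smul]
    congr 1
    group
  have h2' : ∀ X, (f * v * f⁻¹)⁻¹ • X = act d (-b) (-c) a X := fun X => by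
    rw [inv_smul_eq_iff, h2, act_act, show d * a + -b * c = 1 by linarith only [h1],
      show d * b + -b * d = 0 by ring, show -c * a + a * c = 0 by ring,
      show -c * b + a * d = 1 by linarith only [h1]]
    simp [act_apply]
  have x' : ∀ X, (f * (u * v⁻¹) * f⁻¹) • X = act (d * exp (-t / 2) + -b * 0)
      (d * 0 + -b * exp (t / 2)) (-c * exp (-t / 2) + a * 0) (-c * 0 + a * exp (t / 2)) X := fun X => by
    rw [← act_act, ← h2', ← dil_act, ← conj_frame hf, ← mul_smul]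
    congr 1
    group
  have bc : b * c < 0 := by
    rw [← Bf_isom f, h0, e, Bf_E0] at h
    simp only [Prod.smul_snd, Prod.smul_fst, smul_eq_mul] at h
    nlinarith only [h1, h, hr]
  have ad : a * d ≤ 0 := by
    have : f • v • E = act a b c d E0 := by rw [← h2, ← h0, mul_smul, mul_smul, inv_smul_smul]
    rw [← cr_isom f, h0, this, Cr, Bf_E0, act_apply, not_lt] at n1
    simp only [E0] at n1
    nlinarith only [n1, h1, bc]
  have tr : ∀ X, Cr X (u • X) ↔ Cr (f • X) (dil t • f • X) := fun X => by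
    rw [← hf.one, cr_isom]
  rw [tr, ncr_iff ht.ne' (hv.conj f) h1 h2 (hF.conj f) bc] at n2
  have μ1 : exp (-t / 2) < 1 := exp_lt_one_iff.2 (by linarith only [ht])
  have ν1 : 1 < exp (t / 2) := one_lt_exp_iff.2 (by linarith only [ht])
  have μ0 := exp_pos (-t / 2)
  rw [tr, tr, ncr_iff ht.ne' (p.conj f) (by linear_combination (exp (-t / 2) * exp (t / 2)) * h1 + m)
    x (hZ.conj f) (by nlinarith only [m, bc]), ncr_iff ht.ne' (p'.conj f)
    (by linear_combination (exp (-t / 2) * exp (t / 2)) * h1 + m) x' (hZ'.conj f) (by nlinarith only [m, bc])]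
  rw [m1, m2] at n2 ⊢
  generalize exp (-t / 2) = μ at *
  generalize exp (t / 2) = ν at *
  have k : -(b * c) * (μ ^ 2 + ν ^ 2 - 2) = (1 - a * d) * (ν - μ) ^ 2 := by
    linear_combination (μ ^ 2 + ν ^ 2 - 2) * h1 + 2 * (1 - a * d) * m
  rcases le_or_gt a 0 with s | s
  · refine Or.inr ((le_of_eq ?_).trans ((key_le μ0 μ1 ν1 s h3 n2 k).trans_eq ?_))
    · ring
    · linear_combination (b * c) * (μ ^ 2 + ν ^ 2 - 2) * m
  · have s' : d ≤ 0 := by nlinarith only [ad, s]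
    refine Or.inl ((le_of_eq ?_).trans ((key_le (a := d) (d := a) μ0 μ1 ν1 s' (by linarith only [h3])
      (K := -(b * c) * (μ ^ 2 + ν ^ 2 - 2)) (by linarith only [n2]) (by rw [k, mul_comm d])).trans_eq ?_))
    · ring
    · linear_combination (b * c) * (μ ^ 2 + ν ^ 2 - 2) * m

end Pool.Agent.MP_646035_al.H66G

end

-- part MP_646035_al.H66G.Rng
section

/-!
A finite generating set of simple loops: the relative neighbourhood graph of an orbit.
-/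

namespace Pool.Agent.MP_646035_al.H66G

open Pool.Agent.MP_4a6971_al.H66 MC Real Set

variable {E F Z P Q R X : V}

/-- The geodesic segment. -/
def Seg (P Q : V) : Set V := {X | H2 X ∧ ∃ a b : ℝ, 0 ≤ a ∧ 0 ≤ b ∧ X = a • P + b • Q}

lemma Seg.symm (h : X ∈ Seg P Q) : X ∈ Seg Q P :=
  ⟨h.1, let ⟨a, b, x, y, e⟩ := h.2; ⟨b, a, y, x, e.trans (add_comm _ _)⟩⟩

lemma Seg.smul (h : X ∈ Seg P Q) (f : Isom) : f • X ∈ Seg (f • P) (f • Q) :=
  ⟨h.1.smul f, let ⟨a, b, x, y, e⟩ := h.2; ⟨a, b, x, y, by rw [e, smul_add, isom_smul, isom_smul]⟩⟩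

lemma h2_norm (h : Bf X X < 0) (h1 : 0 < X.1) : H2 ((√(-Bf X X))⁻¹ • X) := by
  have hs := sqrt_pos.2 (neg_pos.2 h)
  have h2 := mul_self_sqrt (neg_pos.2 h).le
  refine ⟨?_, mul_pos (inv_pos.2 hs) h1⟩
  rw [Bf_smul_left, Bf_smul_right]
  field_simp
  linarith

lemma norm_mem (hP : H2 P) (hQ : H2 Q) {t : ℝ} (h0 : 0 ≤ t) (h1 : t ≤ 1) :
    Bf ((1 - t) • P + t • Q) ((1 - t) • P + t • Q) < 0 ∧
    (√(-Bf ((1 - t) • P + t • Q) ((1 - t) • P + t • Q)))⁻¹ • ((1 - t) • P + t • Q) ∈ Seg P Q := by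
  have a := one_le_ch hP hQ
  have b : Bf ((1 - t) • P + t • Q) ((1 - t) • P + t • Q) < 0 := by
    simp only [Bf_add_left, Bf_add_right, Bf_smul_left, Bf_smul_right, hP.1, hQ.1, Bf_comm Q P]
    rw [ch] at a
    linarith only [mul_nonneg (mul_nonneg h0 (sub_nonneg.2 h1)) (sub_nonneg.2 a)]
  refine ⟨b, h2_norm b ?_, _, _, mul_nonneg (inv_nonneg.2 (sqrt_nonneg _)) (sub_nonneg.2 h1),
    mul_nonneg (inv_nonneg.2 (sqrt_nonneg _)) h0, by rw [smul_add, smul_smul, smul_smul]⟩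
  have := hP.2
  have := hQ.2
  simp only [Prod.fst_add, Prod.smul_fst, smul_eq_mul]
  rcases h0.eq_or_lt with rfl | h0
  · simpa
  · have := sub_nonneg.2 h1
    positivity

lemma joined_seg (hP : H2 P) (hQ : H2 Q) : JoinedIn (Seg P Q) P Q := by
  refine JoinedIn.ofLine (f := fun t => (√(-Bf ((1 - t) • P + t • Q) ((1 - t) • P + t • Q)))⁻¹ •
    ((1 - t) • P + t • Q)) (ContinuousOn.fun_smul (ContinuousOn.inv₀ ?_ fun t ht => ?_) ?_)
    (by simp [hP.1]) (by simp [hQ.1]) ?_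
  · unfold Bf
    fun_prop
  · exact (sqrt_pos.2 (neg_pos.2 (norm_mem hP hQ ht.1 ht.2).1)).ne'
  · fun_prop
  · rintro _ ⟨t, ht, rfl⟩
    exact (norm_mem hP hQ ht.1 ht.2).2

lemma cut (hP : H2 P) (hQ : H2 Q) (hR : H2 R) (h : X ∈ Seg P Q) (h1 : ch X R ≤ ch X P)
    (h2 : ch X R ≤ ch X Q) (n1 : P ≠ R) (n2 : Q ≠ R) : ch P R < ch P Q := by
  obtain ⟨hX, a, b, ha, hb, e⟩ := h
  have c : ∀ W, ch X W = a * ch P W + b * ch Q W := fun W => by simp only [ch, e, Bf_add_left, Bf_smul_left, neg_add_rev, mul_neg]; ring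
  have q : ch Q Q = 1 := by simp [ch, hQ.1]
  have p : ch P P = 1 := by simp [ch, hP.1]
  have x1 : 1 < ch Q R := not_le.1 fun x => n2 (eq_of_ch_le hQ hR x)
  have x2 : 1 < ch P R := not_le.1 fun x => n1 (eq_of_ch_le hP hR x)
  have x3 := one_le_ch hX hR
  rw [c, c] at h1 h2
  rw [c] at x3
  rw [p] at h1
  rw [q] at h2
  by_contra! hc
  rcases hb.eq_or_lt with rfl | hb
  · nlinarith only [x2, h1, x3]
  · linarith only [mul_le_mul_of_nonneg_left hc ha, mul_lt_mul_of_pos_left x1 hb, h2]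

variable {Γ : Type} [Group Γ] (Y : Fuchs Γ) {g h k g' h' t t' w : Γ}

lemma pt_inj (e : Y.σ g • o = Y.σ h • o) : g = h := by
  by_contra n
  refine H24.not_fix (Y.hyp (h⁻¹ * g) fun x => n (inv_mul_eq_one.1 x).symm) H2_o ?_
  rw [map_mul, map_inv, mul_smul, e, inv_smul_smul]

/-- The edges of the relative neighbourhood graph. -/
def Edge (g h : Γ) : Prop := g ≠ h ∧ ∀ k, ¬ (ch (Y.σ g • o) (Y.σ k • o) < ch (Y.σ g • o) (Y.σ h • o) ∧
  ch (Y.σ h • o) (Y.σ k • o) < ch (Y.σ h • o) (Y.σ g • o))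

/-- Elements with a simple axis. -/
def Simple (x : Γ) : Prop := x ≠ 1 ∧ ∀ E, IsAx (Y.σ x) E → ∀ γ, ¬ Cr E (Y.σ γ • E)

variable {Y}

lemma Edge.symm (e : Edge Y g h) : Edge Y h g := ⟨e.1.symm, fun k x => e.2 k x.symm⟩

lemma Edge.mul (e : Edge Y g h) (γ : Γ) : Edge Y (γ * g) (γ * h) :=
  ⟨by simpa using e.1, fun k x => e.2 (γ⁻¹ * k) (by
    simpa only [map_mul, map_inv, mul_smul, ← ch_isom (Y.σ γ) _ ((Y.σ γ)⁻¹ • _), smul_inv_smul,
      ch_isom] using x)⟩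

lemma Edge.near (e : Edge Y g h) (hX : X ∈ Seg (Y.σ g • o) (Y.σ h • o))
    (h1 : ch X (Y.σ k • o) ≤ ch X (Y.σ g • o)) (h2 : ch X (Y.σ k • o) ≤ ch X (Y.σ h • o)) :
    g = k ∨ h = k := by
  by_contra! n
  have n1 := mt (pt_inj Y) n.1
  have n2 := mt (pt_inj Y) n.2
  exact e.2 k ⟨cut (H2_o.smul _) (H2_o.smul _) (H2_o.smul _) hX h1 h2 n1 n2,
    cut (H2_o.smul _) (H2_o.smul _) (H2_o.smul _) (Seg.symm hX) h2 h1 n2 n1⟩

lemma Edge.meet (e : Edge Y g h) (e' : Edge Y g' h') (hX : X ∈ Seg (Y.σ g • o) (Y.σ h • o))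
    (hX' : X ∈ Seg (Y.σ g' • o) (Y.σ h' • o)) : (g = g' ∨ h = g') ∨ g = h' ∨ h = h' := by
  by_contra! n
  have a := fun x y => (e.near (k := g') hX x y).elim n.1.1 n.1.2
  have b := fun x y => (e.near (k := h') hX x y).elim n.2.1 n.2.2
  have c := fun x y => (e'.near (k := g) hX' x y).elim n.1.1.symm n.2.1.symm
  have d := fun x y => (e'.near (k := h) hX' x y).elim n.1.2.symm n.2.2.symm
  simp only [imp_false, not_le, imp_iff_not_or] at a b c d
  rcases a with a | a <;> rcases b with b | b <;> rcases c with c | c <;> rcases d with d | d <;>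
    linarith

lemma edge_closure (Y : Fuchs Γ) : Subgroup.closure {t | Edge Y 1 t} = ⊤ := by
  have key : ∀ n, ∀ g, {x | ch o (Y.σ x • o) < ch o (Y.σ g • o)}.ncard = n →
      g ∈ Subgroup.closure {t | Edge Y 1 t} := by
    intro n
    induction n using Nat.strong_induction_on with
    | _ n ih =>
    rintro g rfl
    have lt : ∀ k, ch o (Y.σ k • o) < ch o (Y.σ g • o) → k ∈ Subgroup.closure {t | Edge Y 1 t} :=
      fun k hk => ih _ (ncard_lt_ncard ⟨fun x hx => lt_trans hx hk, fun x => lt_irrefl (ch o (Y.σ k • o)) (x hk)⟩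
        ((Y.proper (ch o (Y.σ g • o))).subset fun x hx => hx.out.le)) k rfl
    by_cases h1 : 1 = g
    · exact h1 ▸ one_mem _
    by_cases h2 : Edge Y 1 g
    · exact Subgroup.subset_closure h2
    obtain ⟨k, a, b⟩ := not_forall_not.1 fun x => h2 ⟨h1, x⟩
    simp only [map_one, one_smul] at a b
    have := mul_mem (lt k a) (lt (k⁻¹ * g) (by
      rwa [map_mul, map_inv, mul_smul, ← ch_isom (Y.σ k), smul_inv_smul, ch_comm, ch_comm o]))
    rwa [mul_inv_cancel_left] at this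
  exact eq_top_iff.2 fun g _ => key _ g rfl

lemma edge_fin (Y : Fuchs Γ) : {t | Edge Y 1 t}.Finite := by
  obtain ⟨R, hR⟩ := Y.cocompact
  refine (Y.proper (2 * R * R)).subset fun t e => ?_
  obtain ⟨-, m⟩ := norm_mem (H2_o.smul (Y.σ 1)) (H2_o.smul (Y.σ t)) (t := 1 / 2) (by norm_num)
    (by norm_num)
  have s : ∀ r : ℝ, ch (r • ((1 - 1 / 2 : ℝ) • Y.σ 1 • o + (1 / 2 : ℝ) • Y.σ t • o)) (Y.σ 1 • o) =
      ch (r • ((1 - 1 / 2 : ℝ) • Y.σ 1 • o + (1 / 2 : ℝ) • Y.σ t • o)) (Y.σ t • o) := fun r => by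
    simp only [ch, Bf_smul_left, Bf_add_left, Bf_isom, Bf_comm (Y.σ t • o) (Y.σ 1 • o)]
    ring
  specialize s (√(-Bf ((1 - 1 / 2 : ℝ) • Y.σ 1 • o + (1 / 2 : ℝ) • Y.σ t • o)
    ((1 - 1 / 2 : ℝ) • Y.σ 1 • o + (1 / 2 : ℝ) • Y.σ t • o)))⁻¹
  generalize (√_)⁻¹ • (_ : V) = M at m s
  obtain ⟨k, hk⟩ := hR M m.1 fun N hN => by
    obtain ⟨a, b, x, y, rfl⟩ := m.2
    have := Y.per_pos hN 1
    have := Y.per_pos hN t
    simp only [Bf_add_right, Bf_smul_right]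
    positivity
  have r : ch M (Y.σ 1 • o) ≤ R := by
    rcases le_total (ch M (Y.σ 1 • o)) (ch M (Y.σ k • o)) with x | x
    · exact x.trans hk
    · rcases Edge.near e m x (s ▸ x) with rfl | rfl
      exacts [hk, s ▸ hk]
  have := ch_tri (H2_o.smul (Y.σ 1)) m.1 (H2_o.smul (Y.σ t))
  rw [← s, map_one, one_smul] at this
  rw [map_one, one_smul] at r
  have := one_le_ch m.1 H2_o
  change ch o _ ≤ _
  nlinarith

lemma walk {K : Set V} {U : Set Γ}
    (hK : ∀ P ∈ K, ∃ g ∈ U, ∃ h ∈ U, Edge Y g h ∧ P ∈ Seg (Y.σ g • o) (Y.σ h • o))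
    (j : JoinedIn K o (Y.σ w • o)) (hw : w ≠ 1) (hZ : IsAx (Y.σ w) Z)
    (hU : ∀ a ∈ U, ∀ b ∈ U, ¬ Cr (Y.σ a⁻¹ • Z) (Y.σ b⁻¹ • Z)) : Simple Y w := by
  refine ⟨hw, fun E hE γ c => ?_⟩
  replace c : Cr Z (Y.σ γ • Z) := by
    rcases (Y.hyp w hw).ax_unique hZ hE with rfl | rfl <;> simpa using c
  have k2 : ∀ P ∈ K, H2 P := fun P hP => let ⟨_, _, _, _, _, x⟩ := hK P hP; x.1
  obtain ⟨m, n, P, p, _, ⟨Q, q, rfl⟩, e⟩ := H24.cross (Y.hyp w hw) hZ ((Y.hyp w hw).conj (Y.σ γ))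
    (hZ.conj _) c k2 (L := (fun X => Y.σ γ • X) '' K) (q := Y.σ γ • o)
    (by rintro _ ⟨P, p, rfl⟩; exact (k2 P p).smul _) j (by
      rw [mul_smul, mul_smul, inv_smul_smul]
      exact j.map (continuous_isom _))
  obtain ⟨g, g1, h, h1, e1, s1⟩ := hK P p
  obtain ⟨g', g1', h', h1', e1', s1'⟩ := hK Q q
  have e2 : P = Y.σ (w ^ (-m) * γ * w ^ n) • Q := by
    rw [conj_zpow, mul_smul, mul_smul, inv_smul_smul] at e
    rw [map_mul, map_mul, map_zpow, map_zpow, mul_smul, mul_smul, ← e, zpow_neg, inv_smul_smul]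
  replace c : Cr Z (Y.σ (w ^ (-m) * γ * w ^ n) • Z) := by
    rw [map_mul, map_mul, map_zpow, map_zpow, mul_smul, mul_smul, hZ.zpow]
    nth_rewrite 1 [← hZ.zpow (-m)]
    rwa [cr_isom]
  generalize w ^ (-m) * γ * w ^ n = δ at e2 c
  have key : ∀ a ∈ U, ∀ b ∈ U, a ≠ δ * b := by
    rintro _ ha b hb rfl
    refine hU _ ha b hb ?_
    rw [← cr_isom (Y.σ (δ * b))]
    simpa [mul_smul] using c
  rcases e1.meet (e1'.mul δ) s1 (by
    rw [e2, map_mul, map_mul, mul_smul, mul_smul]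
    exact Seg.smul s1' _) with (x | x) | x | x
  exacts [key _ g1 _ g1' x, key _ h1 _ g1' x, key _ g1 _ h1' x, key _ h1 _ h1' x]

lemma Edge.simple (e : Edge Y 1 t) : Simple Y t := by
  obtain ⟨Z, hZ⟩ := (Y.hyp t e.1.symm).exists_ax
  refine walk (K := Seg (Y.σ 1 • o) (Y.σ t • o)) (U := {1, t})
    (fun P p => ⟨1, by simp, t, by simp, e, p⟩)
    (by simpa only [map_one, one_smul] using joined_seg H2_o (H2_o.smul _)) e.1.symm hZ ?_
  rintro _ (rfl | rfl) _ (rfl | rfl) <;> simpa [hZ.inv.2] using not_cr_self hZ.1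

lemma Edge.simple_mul (e : Edge Y 1 t) (e' : Edge Y 1 t') (hw : t * t' ≠ 1)
    (hZ : IsAx (Y.σ (t * t')) Z) (h : ¬ Cr Z (Y.σ t • Z)) : Simple Y (t * t') := by
  refine walk (K := Seg (Y.σ 1 • o) (Y.σ t • o) ∪ Seg (Y.σ t • o) (Y.σ (t * t') • o))
    (U := {1, t, t * t'}) ?_ ?_ hw hZ ?_
  · rintro P (p | p)
    · exact ⟨1, by simp, t, by simp, e, p⟩
    · exact ⟨t, by simp, t * t', by simp only [mem_insert_iff, mul_eq_left, mem_singleton_iff, or_true], by simpa using e'.mul t, p⟩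
  · simpa only [map_one, one_smul, map_mul] using ((joined_seg (H2_o.smul (Y.σ 1)) (H2_o.smul (Y.σ t))).mono subset_union_left).trans
      ((joined_seg (H2_o.smul (Y.σ t)) (H2_o.smul (Y.σ (t * t')))).mono subset_union_right)
  · have a : ∀ x ∈ ({1, t, t * t'} : Set Γ), Y.σ x⁻¹ • Z = Z ∨ Y.σ x⁻¹ • Z = (Y.σ t)⁻¹ • Z := by
      rintro _ (rfl | rfl | rfl)
      exacts [Or.inl (by simp only [inv_one, map_one, one_smul]), Or.inr (by simp only [map_inv]), Or.inl (by rw [map_inv, hZ.inv.2])]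
    have b : ¬ Cr Z ((Y.σ t)⁻¹ • Z) := by rwa [← cr_move, cr_comm]
    intro x hx y hy
    rcases a x hx with p | p <;> rcases a y hy with q | q <;> rw [p, q]
    exacts [not_cr_self hZ.1, b, mt Cr.symm b, not_cr_self (by simpa using hZ.1)]

/-- A finite generating set of simple elements with simple products. -/
theorem exists_gens (Y : Fuchs Γ) : ∃ T : Set Γ, T.Finite ∧ Subgroup.closure T = ⊤ ∧
    (∀ t ∈ T, Simple Y t) ∧ ∀ t ∈ T, ∀ t' ∈ T, ∀ E F, IsAx (Y.σ t) E → IsAx (Y.σ t') F →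
      1 < Bf E F ^ 2 → Simple Y (t * t') ∨ Simple Y (t * t'⁻¹) := by
  refine ⟨_, edge_fin Y, edge_closure Y, fun t => Edge.simple, fun t e t' e' E F hE hF h => ?_⟩
  have n : ∀ s, IsAx (Y.σ s) F → t * s ≠ 1 := fun s hs x => by
    rw [eq_inv_of_mul_eq_one_right x, map_inv] at hs
    rcases (Y.hyp t e.1.symm).ax_unique hE (by simpa using hs.inv) with rfl | rfl <;>
      simp only [hE.1, one_pow, lt_self_iff_false, Bf_neg_right, even_two, Even.neg_pow] at h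
  have n1 := n t' hF
  have n2 := n t'⁻¹ (by rw [map_inv]; exact hF.inv)
  obtain ⟨Z, hZ⟩ := (Y.hyp _ n1).exists_ax
  obtain ⟨Z', hZ'⟩ := (Y.hyp _ n2).exists_ax
  exact (prod_simple (Y.hyp t e.1.symm) (Y.hyp t' e'.1.symm) hE hF h ((Edge.simple e).2 E hE _)
    ((Edge.simple e').2 F hF _) (by simpa using Y.hyp _ n1) (by simpa only [map_mul, map_inv] using Y.hyp _ n2)
    (by simpa using hZ) (by simpa using hZ')).imp (Edge.simple_mul e e' n1 hZ)
    (Edge.simple_mul e (by simpa using (Edge.mul e' t'⁻¹).symm) n2 hZ')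

end Pool.Agent.MP_646035_al.H66G

end

-- part MP_646035_al.H66G.Fin
section

/-!
Finitely many outer automorphisms preserve the lengths of all simple closed geodesics.
-/

namespace Pool.Agent.MP_646035_al.H66G

open Pool.Agent.MP_4a6971_al.H66 MC Real Set

variable {u : Isom} {E F G E' F' P : V}

lemma disp_le (hu : Hyp u) (hE : IsAx u E) (hP : H2 P) :
    ch P (u • P) ≤ trI u * (1 + Bf E P ^ 2) := by
  obtain ⟨f, t, hf, h0⟩ := hu.fr0 hE
  have h := (hP.smul f).eq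
  rw [trI_fr hf, ← ch_isom f, hf.one, ← Bf_isom f, h0, Bf_E0, dil_smul]
  simp only [ch, Bf]
  have := exp_pos t
  have := exp_pos (-t)
  have e : -((f • P).2.1 * (f • P).2.1 - ((f • P).1 * ((f • P).2.2 * exp t) +
      (f • P).1 * exp (-t) * (f • P).2.2) / 2) =
      (exp (-t) + exp t) / 2 * (1 + (f • P).2.1 ^ 2) - (f • P).2.1 ^ 2 := by
    linear_combination (exp (-t) + exp t) / 2 * h
  rw [e]
  nlinarith [sq_nonneg (f • P).2.1]

lemma bf_o_le (f : Isom) (hG : Bf G G = 1) {R : ℝ} (h1 : |(f • G).1| ≤ R) (h2 : |(f • G).2.2| ≤ R) :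
    |Bf G o| ≤ (1 + 2 * R) * ch (f⁻¹ • o) o := by
  refine (abs_Bf_le hG H2_o (H2_o.smul f⁻¹)).trans ?_
  have a := one_le_ch (H2_o.smul f⁻¹) H2_o
  gcongr
  rw [← Bf_move]
  simp only [Bf, o]
  rw [abs_le] at *
  constructor <;> linarith only [h1.1, h1.2, h2.1, h2.2]

lemma norm_line' (hu : Hyp u) (hE : IsAx u E) (B : ℝ) : ∃ R, ∀ G, Bf G G = 1 → Bf E G ^ 2 ≤ B →
    Bf E G ^ 2 ≠ 1 → ∃ k : ℤ, |Bf (u ^ k • G) o| ≤ R := by
  obtain ⟨f, t, hf, h0⟩ := hu.fr0 hE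
  refine ⟨(1 + 2 * (exp t + B + 1)) * ch (f⁻¹ • o) o, fun G hG h n => ?_⟩
  rw [← Bf_isom f, h0, Bf_E0] at h n
  have hG' := hG
  rw [← Bf_isom f] at hG'
  have ha : (f • G).1 ≠ 0 := by
    intro ha
    simp only [Bf, ha] at hG'
    exact n (by linarith)
  obtain ⟨k, h1, h2⟩ := exists_shift hf.pos (abs_pos.2 ha)
  have e1 : exp (k * t) * exp (-(k * t)) = 1 := by rw [← exp_add]; simp
  have e4 : |(f • G).1 * exp (-(k * t))| = |(f • G).1| * exp (-(k * t)) := by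
    rw [abs_mul, abs_of_pos (exp_pos _)]
  have e5 : |(f • G).1 * exp (-(k * t))| * |(f • G).2.2 * exp (k * t)| ≤ B + 1 := by
    rw [← abs_mul, show (f • G).1 * exp (-(k * t)) * ((f • G).2.2 * exp (k * t)) =
      (f • G).1 * (f • G).2.2 by linear_combination (f • G).1 * (f • G).2.2 * e1, abs_le]
    simp only [Bf] at hG'
    constructor <;> linarith only [sq_nonneg (f • G).2.1, h, hG']
  have b0 : 0 ≤ B := (sq_nonneg _).trans h
  refine ⟨k, bf_o_le f (by simpa using hG) ?_ ?_⟩ <;> rw [hf.eq, dil_smul] <;> simp only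
  · linarith
  · nlinarith only [h, h1, h2, e4, e5]

lemma two_bdd (hu : Hyp u) (hE : IsAx u E) (hF : Bf F F = 1) (n : Bf E F ^ 2 ≠ 1) (B : ℝ) :
    ∃ R, ∀ G, Bf G G = 1 → Bf E G ^ 2 ≤ B → Bf F G ^ 2 ≤ B → |Bf G o| ≤ R := by
  obtain ⟨f, t, hf, h0⟩ := hu.fr0 hE
  rw [← Bf_isom f, h0, Bf_E0] at n
  rw [← Bf_isom f] at hF
  obtain ⟨⟨p, q, r⟩, e⟩ : ∃ X, f • F = X := ⟨_, rfl⟩
  simp only [e, Bf] at n hF
  have pr : p * r ≠ 0 := fun x => n (by linarith)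
  have p0 : 0 < p ^ 2 := by have := left_ne_zero_of_mul pr; positivity
  have r0 : 0 < r ^ 2 := by have := right_ne_zero_of_mul pr; positivity
  obtain ⟨K, hK⟩ : ∃ K, K = 8 * (q ^ 2 * B + B) + 2 * (|p * r| * (B + 1)) := ⟨_, rfl⟩
  refine ⟨(1 + 2 * (1 + K / p ^ 2 + K / r ^ 2)) * ch (f⁻¹ • o) o, fun G hG h1 h2 => ?_⟩
  have hG' := hG
  rw [← Bf_isom f] at h1 h2 hG'
  rw [h0, Bf_E0] at h1
  rw [e] at h2
  obtain ⟨⟨a, b, c⟩, e'⟩ : ∃ X, f • G = X := ⟨_, rfl⟩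
  simp only [e', Bf] at h1 h2 hG'
  have x1 : |a * c| ≤ B + 1 := abs_le.2 ⟨by linarith only [sq_nonneg b, h1, hG'], by linarith only [h1, hG']⟩
  have x2 : -(p * r * (a * c)) ≤ |p * r| * (B + 1) :=
    (neg_le_abs _).trans (by rw [abs_mul]; gcongr)
  have x3 : q ^ 2 * b ^ 2 ≤ q ^ 2 * B := by gcongr
  have x4 : (p * c + a * r) ^ 2 ≤ 8 * (q ^ 2 * B + B) := by
    nlinarith [sq_nonneg (2 * (q * b) - (p * c + a * r) / 2)]
  have x5 : c ^ 2 * p ^ 2 + a ^ 2 * r ^ 2 ≤ K := by linarith only [hK, x2, x4]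
  have y1 : c ^ 2 ≤ K / p ^ 2 := by rw [le_div_iff₀ p0]; nlinarith [sq_nonneg a]
  have y2 : a ^ 2 ≤ K / r ^ 2 := by rw [le_div_iff₀ r0]; nlinarith [sq_nonneg c]
  refine bf_o_le f hG ?_ ?_ <;> rw [e', abs_le] <;> constructor <;>
    linarith only [sq_nonneg a, sq_nonneg c, sq_nonneg (a - 1), sq_nonneg (a + 1), sq_nonneg (c - 1), sq_nonneg (c + 1), y1, y2]

variable {Γ : Type} [Group Γ] {Y : Fuchs Γ} {x y : Γ}

lemma short_fin (Y : Fuchs Γ) (L R : ℝ) :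
    {x | x ≠ 1 ∧ trI (Y.σ x) ≤ L ∧ ∃ E, IsAx (Y.σ x) E ∧ |Bf E o| ≤ R}.Finite :=
  (Y.proper (L * (1 + R ^ 2))).subset fun x ⟨h1, h2, E, h3, h4⟩ =>
    (disp_le (Y.hyp x h1) h3 H2_o).trans (by
      have := three_lt (Y.hyp x h1)
      have := sq_le_sq' (abs_le.1 h4).1 (abs_le.1 h4).2
      gcongr
      linarith)

lemma ax_conj (h : IsAx (Y.σ y) F) (x : Γ) : IsAx (Y.σ (x * y * x⁻¹)) (Y.σ x • F) := by
  rw [map_mul, map_mul, map_inv]
  exact h.conj _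

lemma near_axis (hx : x ≠ 1) (hE : IsAx (Y.σ x) E) (R : ℝ) :
    ∃ Φ : Set Γ, Φ.Finite ∧ ∀ w, |Bf E (Y.σ w • o)| ≤ R → ∃ k : ℤ, x ^ k * w ∈ Φ := by
  obtain ⟨R', h⟩ := norm_pt (Y.hyp x hx) hE R
  refine ⟨_, Y.proper R', fun w hw => ?_⟩
  obtain ⟨k, hk⟩ := h _ (H2_o.smul _) hw
  exact ⟨k, by rwa [mem_ofPred_eq, map_mul, map_zpow, mul_smul]⟩

lemma loc_fin (hx : x ≠ 1) (hE : IsAx (Y.σ x) E) (R : ℝ) :
    {F | (∃ w, F = Y.σ w • E) ∧ |Bf F o| ≤ R}.Finite := by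
  obtain ⟨Φ, h1, h2⟩ := near_axis hx hE R
  refine (h1.image fun φ => (Y.σ φ)⁻¹ • E).subset ?_
  rintro _ ⟨⟨w, rfl⟩, h⟩
  rw [Bf_move, ← map_inv] at h
  obtain ⟨k, hk⟩ := h2 _ h
  refine ⟨_, hk, ?_⟩
  simp only [map_mul, map_zpow, map_inv, mul_inv_rev, inv_inv, mul_smul]
  rw [← zpow_neg, hE.zpow]

lemma not_tangent (hx : x ≠ 1) (hy : y ≠ 1) (hE : IsAx (Y.σ x) E) (hF : IsAx (Y.σ y) F)
    (h : Bf E F ^ 2 = 1) : F = E ∨ F = -E := by
  obtain ⟨R, hR⟩ := tangent (Y.hyp x hx) hE hF.1 h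
  obtain ⟨k, -, l, -, h1, h2⟩ := hR.exists_ne_map_eq_of_mapsTo (f := fun k : ℤ => Y.σ x ^ k • F)
    (t := {G | (∃ w, G = Y.σ w • F) ∧ |Bf G o| ≤ R})
    (fun k hk => ⟨⟨x ^ k, by rw [map_zpow]⟩, hk⟩) (loc_fin hy hF R)
  refine (Y.hyp x hx).zpow_fix hE hF.1 (sub_ne_zero.2 h1) (Or.inl ?_)
  rw [sub_eq_neg_add, zpow_add, mul_smul, h2, ← mul_smul, ← zpow_add, neg_add_cancel, zpow_zero,
    one_smul]

lemma zpow_ne (Y : Fuchs Γ) (hx : x ≠ 1) {k : ℤ} (hk : k ≠ 0) : x ^ k ≠ 1 := fun e =>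
  (Y.hyp x hx).zpow_ne_one hk (by rw [← map_zpow, e, map_one])

/-- Elements with the same axis have a common power. -/
lemma same_ax (hx : x ≠ 1) (hy : y ≠ 1) (hE : IsAx (Y.σ x) E) (hF : IsAx (Y.σ y) E) :
    ∃ j k : ℤ, j ≠ 0 ∧ k ≠ 0 ∧ x ^ j = y ^ k := by
  obtain ⟨Φ, h1, h2⟩ := near_axis hx hE |Bf E o|
  choose k hk using fun n : ℤ => h2 (y ^ n) (by
    nth_rewrite 1 [← hF.zpow n]
    rw [map_zpow, Bf_isom])
  obtain ⟨n, -, m, -, a, b⟩ := (infinite_univ (α := ℤ)).exists_ne_map_eq_of_mapsTo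
    (f := fun n => x ^ k n * y ^ n) (fun n _ => hk n) h1
  have e : x ^ (k n - k m) = y ^ (m - n) := by
    rw [sub_eq_neg_add, zpow_add, zpow_sub, eq_mul_inv_iff_mul_eq, mul_assoc, b, zpow_neg,
      inv_mul_cancel_left]
  have c := sub_ne_zero.2 a.symm
  exact ⟨_, _, fun h => zpow_ne Y hy c (by rw [← e, h, zpow_zero]), c, e⟩

lemma same_map (φ : MulAut Γ) (hx : x ≠ 1) (hy : y ≠ 1) (hE : IsAx (Y.σ x) E)
    (hF : IsAx (Y.σ y) E) (hE' : IsAx (Y.σ (φ x)) E') (hF' : IsAx (Y.σ (φ y)) F') :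
    F' = E' ∨ F' = -E' := by
  obtain ⟨j, k, hj, hk, e⟩ := same_ax hx hy hE hF
  refine (Y.hyp (φ x) (by simpa using hx)).zpow_fix hE' hF'.1 hj (Or.inl ?_)
  rw [← map_zpow, ← map_zpow, e, map_zpow, map_zpow, hF'.zpow]

/-- `φ` preserves the crossing of axes. -/
def Good (Y : Fuchs Γ) (φ : MulAut Γ) : Prop := ∀ x y E F E' F', x ≠ 1 → y ≠ 1 → IsAx (Y.σ x) E →
  IsAx (Y.σ y) F → IsAx (Y.σ (φ x)) E' → IsAx (Y.σ (φ y)) F' → Cr E F → Cr E' F'

theorem fin_of_tr (Y : Fuchs Γ) : ∃ Ψ : Set (MulAut Γ), Ψ.Finite ∧ ∀ φ, Good Y φ →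
    (∀ x, Simple Y x → trI (Y.σ (φ x)) = trI (Y.σ x)) → ∃ δ, MulAut.conj δ * φ ∈ Ψ := by
  obtain ⟨T, t1, t2, t3, t4⟩ := exists_gens Y
  have hB : ∀ p : Γ × Γ, ∃ B, p ∈ T ×ˢ T → ∀ φ, Good Y φ →
      (∀ x, Simple Y x → trI (Y.σ (φ x)) = trI (Y.σ x)) → ∀ E' F', IsAx (Y.σ (φ p.1)) E' →
        IsAx (Y.σ (φ p.2)) F' → Bf E' F' ^ 2 ≤ B := by
    rintro ⟨x, y⟩
    refine ⟨1 + (8 * (|trI (Y.σ (x * y)) + 1| + |trI (Y.σ (x * y⁻¹)) + 1|) + 2 * ((trI (Y.σ x) + 1) *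
      (trI (Y.σ y) + 1))) / ((trI (Y.σ x) - 3) * (trI (Y.σ y) - 3)), ?_⟩
    rintro ⟨hx, hy⟩ φ g1 g2 E' F' hE' hF'
    have sx := t3 x hx
    have sy := t3 y hy
    obtain ⟨E, hE⟩ := (Y.hyp x sx.1).exists_ax
    obtain ⟨F, hF⟩ := (Y.hyp y sy.1).exists_ax
    have a := three_lt (Y.hyp x sx.1)
    have b := three_lt (Y.hyp y sy.1)
    have c : 0 < (trI (Y.σ x) - 3) * (trI (Y.σ y) - 3) := mul_pos (by linarith) (by linarith)
    have a1 := abs_nonneg (trI (Y.σ (x * y)) + 1)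
    have a2 := abs_nonneg (trI (Y.σ (x * y⁻¹)) + 1)
    have nx := Y.hyp (φ x) (by simpa using sx.1)
    have ny := Y.hyp (φ y) (by simpa using sy.1)
    rcases lt_trichotomy (Bf E F ^ 2) 1 with d | d | d
    · exact (g1 x y E F E' F' sx.1 sy.1 hE hF hE' hF' d).le.trans
        (le_add_of_nonneg_right (by positivity))
    · refine le_trans ?_ (le_add_of_nonneg_right (by positivity))
      rcases same_map φ sx.1 sy.1 hE (by
        rcases not_tangent sx.1 sy.1 hE hF d with rfl | rfl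
        exacts [hF, by simpa using hF.neg]) hE' hF' with rfl | rfl <;> simp only [hE'.1, one_pow, Std.le_refl, Bf_neg_right, even_two, Even.neg_pow]
    · refine le_add_of_nonneg_of_le zero_le_one ((le_div_iff₀ c).2 ?_)
      rcases t4 x hx y hy E F hE hF d with s | s
      · have := bf_le nx ny hE' hF'
        rw [← map_mul, ← map_mul, g2 _ s, g2 _ sx, g2 _ sy] at this
        linarith [le_abs_self (trI (Y.σ (x * y)) + 1)]
      · have := bf_le nx ny.inv hE' hF'.inv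
        rw [trI_inv ny, ← map_inv, ← map_inv, ← map_mul, ← map_mul, g2 _ s, g2 _ sx, g2 _ sy] at this
        linarith [le_abs_self (trI (Y.σ (x * y⁻¹)) + 1)]
  choose B' hB' using hB
  obtain ⟨B, hB⟩ := ((t1.prod t1).image B').bddAbove
  obtain ⟨L, hL⟩ := (t1.image fun t => trI (Y.σ t)).bddAbove
  obtain ⟨x, hx, y, hy, E, F, hE, hF, n⟩ : ∃ x ∈ T, ∃ y ∈ T, ∃ E F, IsAx (Y.σ x) E ∧
      IsAx (Y.σ y) F ∧ ¬ (F = E ∨ F = -E) := by
    by_contra! hc
    obtain ⟨α, β, E, F, a, b, hE, hF, c⟩ := Y.nonel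
    obtain ⟨G, g1, g2⟩ : ∃ G, Bf G G = 1 ∧ ∀ t ∈ T, Y.σ t • G = G := by
      rcases T.eq_empty_or_nonempty with e | ⟨x, hx⟩
      · exact ⟨E, hE.1, by simp [e]⟩
      obtain ⟨G, hG⟩ := (Y.hyp x (t3 x hx).1).exists_ax
      refine ⟨G, hG.1, fun t ht => ?_⟩
      obtain ⟨H, hH⟩ := (Y.hyp t (t3 t ht).1).exists_ax
      rcases hc t ht x hx H G hH hG with rfl | rfl
      exacts [hH.2, hH.neg.2]
    have g3 : ∀ γ, Y.σ γ • G = G := fun γ =>
      (Subgroup.closure_le ((MulAction.stabilizer Isom G).comap Y.σ)).2 g2 (t2 ▸ Subgroup.mem_top γ)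
    rcases (Y.hyp α a).ax_unique ⟨g1, g3 α⟩ hE with rfl | rfl <;>
      rcases (Y.hyp β b).ax_unique ⟨g1, g3 β⟩ hF with rfl | rfl <;>
      exact not_cr_self g1 (by simpa using c)
  obtain ⟨X, x1, x2⟩ := Y.finite_conj L
  have h1 : ∀ x', ∃ S : Set Γ, S.Finite ∧ (x' ≠ 1 → ∀ y' E F, y' ≠ 1 → IsAx (Y.σ x') E →
      IsAx (Y.σ y') F → trI (Y.σ y') ≤ L → Bf E F ^ 2 ≤ B → Bf E F ^ 2 ≠ 1 →
      ∃ k : ℤ, x' ^ k * y' * (x' ^ k)⁻¹ ∈ S) := fun x' => by
    by_cases n1 : x' = 1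
    · exact ⟨∅, finite_empty, fun h => (h n1).elim⟩
    obtain ⟨A, hA⟩ := (Y.hyp x' n1).exists_ax
    obtain ⟨R, hR⟩ := norm_line' (Y.hyp x' n1) hA B
    refine ⟨_, short_fin Y L R, fun _ y' E F n2 a b c d e => ?_⟩
    obtain ⟨k, hk⟩ := hR F b.1
      (by rcases (Y.hyp x' n1).ax_unique hA a with rfl | rfl <;> simpa using d)
      (by rcases (Y.hyp x' n1).ax_unique hA a with rfl | rfl <;> simpa only [ne_eq, sq_eq_one_iff, not_or, Bf_neg_left, even_two, Even.neg_pow] using e)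
    exact ⟨k, by simpa only [ne_eq, conj_eq_one_iff] using n2, by rwa [map_mul, map_mul, map_inv, trI_conj], _, ax_conj b _,
      by rwa [map_zpow]⟩
  have h2 : ∀ x' y', ∃ S : Set Γ, S.Finite ∧ (x' ≠ 1 → y' ≠ 1 → ∀ z E F G, z ≠ 1 →
      IsAx (Y.σ x') E → IsAx (Y.σ y') F → IsAx (Y.σ z) G → trI (Y.σ z) ≤ L → Bf E F ^ 2 ≠ 1 →
      Bf E G ^ 2 ≤ B → Bf F G ^ 2 ≤ B → z ∈ S) := fun x' y' => by
    by_cases n1 : x' ≠ 1 ∧ y' ≠ 1 ∧ ∃ E F, IsAx (Y.σ x') E ∧ IsAx (Y.σ y') F ∧ Bf E F ^ 2 ≠ 1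
    · obtain ⟨n1, n2, A, C, hA, hC, n3⟩ := n1
      obtain ⟨R, hR⟩ := two_bdd (Y.hyp x' n1) hA hC.1 n3 B
      exact ⟨_, short_fin Y L R, fun _ _ z E F G n4 a b c d _ e f => ⟨n4, d, G, c, hR G c.1
        (by rcases (Y.hyp x' n1).ax_unique hA a with rfl | rfl <;> simpa using e)
        (by rcases (Y.hyp y' n2).ax_unique hC b with rfl | rfl <;> simpa using f)⟩⟩
    · exact ⟨∅, finite_empty, fun a b _ E F _ _ c d _ _ e => (n1 ⟨a, b, E, F, c, d, e⟩).elim⟩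
  choose S1 s1 s1' using h1
  choose S2 s2 s2' using h2
  have fU := x1.biUnion fun x' _ => (s1 x').biUnion fun y' _ => s2 x' y'
  refine ⟨{ψ | ∀ t ∈ T, ψ t ∈ ⋃ x' ∈ X, ⋃ y' ∈ S1 x', S2 x' y'}, ?_, fun φ g1 g2 => ?_⟩
  · have := t1.to_subtype
    refine Finite.of_finite_image (f := fun (ψ : MulAut Γ) (t : T) => ψ t)
      ((Finite.pi' fun _ : T => fU).subset ?_) fun φ _ ψ _ h => ?_
    · rintro _ ⟨ψ, hψ, rfl⟩ t
      exact hψ t t.2
    · exact MulEquiv.toMonoidHom_injective (MonoidHom.eq_of_eqOn_dense t2 fun t ht =>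
        congrFun h ⟨t, ht⟩)
  have key : ∀ δ, ∀ t ∈ T, ∀ t' ∈ T, ∀ G G', IsAx (Y.σ (δ * φ t * δ⁻¹)) G →
      IsAx (Y.σ (δ * φ t' * δ⁻¹)) G' → Bf G G' ^ 2 ≤ B := fun δ t ht t' ht' G G' a b => by
    rw [← Bf_isom (Y.σ δ⁻¹)]
    exact (hB' (t, t') ⟨ht, ht'⟩ φ g1 g2 _ _ (by simpa only [map_inv, mul_assoc, inv_mul_cancel_left, inv_inv, inv_mul_cancel, mul_one] using ax_conj a δ⁻¹)
      (by simpa only [map_inv, mul_assoc, inv_mul_cancel_left, inv_inv, inv_mul_cancel, mul_one] using ax_conj b δ⁻¹)).trans (hB ⟨_, ⟨ht, ht'⟩, rfl⟩)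
  have tr : ∀ δ, ∀ t ∈ T, δ * φ t * δ⁻¹ ≠ 1 ∧ trI (Y.σ (δ * φ t * δ⁻¹)) ≤ L := fun δ t ht =>
    ⟨by simpa only [ne_eq, conj_eq_one_iff, EmbeddingLike.map_eq_one_iff] using (t3 t ht).1, by
      rw [map_mul, map_mul, map_inv, trI_conj, g2 _ (t3 t ht)]
      exact hL ⟨t, ht, rfl⟩⟩
  have ne : ∀ δ G G', IsAx (Y.σ (δ * φ x * δ⁻¹)) G → IsAx (Y.σ (δ * φ y * δ⁻¹)) G' →
      Bf G G' ^ 2 ≠ 1 := fun δ G G' a b c => n (same_map (MulAut.conj δ * φ)⁻¹ (tr δ x hx).1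
        (tr δ y hy).1 a (by
          rcases not_tangent (tr δ x hx).1 (tr δ y hy).1 a b c with rfl | rfl
          exacts [b, by simpa only [map_mul, map_inv, neg_neg] using b.neg]) (by simpa [mul_assoc] using hE)
        (by simpa only [mul_inv_rev, mul_assoc, MulAut.mul_apply, MulAut.inv_apply, MulAut.conj_symm_apply, inv_mul_cancel_left, inv_mul_cancel, mul_one, MulEquiv.symm_apply_apply] using hF))
  obtain ⟨δ, hδ⟩ := x2 (φ x) (by simpa using (tr 1 x hx).2)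
  rw [← inv_inv δ] at hδ
  generalize δ⁻¹ = ε at hδ
  rw [inv_inv] at hδ
  obtain ⟨A, hA⟩ := (Y.hyp _ (tr ε x hx).1).exists_ax
  obtain ⟨C, hC⟩ := (Y.hyp _ (tr ε y hy).1).exists_ax
  obtain ⟨k, hk⟩ := s1' _ (tr ε x hx).1 _ A C (tr ε y hy).1 hA hC (tr ε y hy).2
    (key ε x hx y hy A C hA hC) (ne ε A C hA hC)
  obtain ⟨η, e1, e2⟩ : ∃ η, η * φ x * η⁻¹ ∈ X ∧ η * φ y * η⁻¹ ∈ S1 (η * φ x * η⁻¹) := by
    have : (ε * φ x * ε⁻¹) ^ k * ε * φ x * ((ε * φ x * ε⁻¹) ^ k * ε)⁻¹ = ε * φ x * ε⁻¹ := by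
      rw [conj_zpow]; group
    exact ⟨(ε * φ x * ε⁻¹) ^ k * ε, by rwa [this], by rw [this]; simpa only [mul_assoc, mul_inv_rev] using hk⟩
  refine ⟨η, fun t ht => mem_biUnion e1 (mem_biUnion e2 ?_)⟩
  obtain ⟨A, hA⟩ := (Y.hyp _ (tr η x hx).1).exists_ax
  obtain ⟨C, hC⟩ := (Y.hyp _ (tr η y hy).1).exists_ax
  obtain ⟨G, hG⟩ := (Y.hyp _ (tr η t ht).1).exists_ax
  exact s2' _ _ (tr η x hx).1 (tr η y hy).1 _ A C G (tr η t ht).1 hA hC hG (tr η t ht).2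
    (ne η A C hA hC) (key η x hx t ht A G hA hG) (key η y hy t ht C G hC hG)

end Pool.Agent.MP_646035_al.H66G

end

-- part MP_646035_al.H66G.Act
section

/-!
Automorphisms act on axes, preserving crossings and the boundary lines.
-/

namespace Pool.Agent.MP_646035_al.H66G

open Pool.Agent.MP_4a6971_al.H66 MC Real Set

variable {u : Isom} {E F G E' F' P Q X X' N M : V}

lemma add_pos' (hE : Bf E E = 1) (hF : Bf F F = 1) (h : Bf E F < -1) (hX : Fut X)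
    (ho : 0 < Bf E X + Bf F X) (hP : Fut P) : 0 < Bf E P + Bf F P := by
  obtain ⟨t, -, ht⟩ := exists_H2_of_neg (X := E + F) (by simp [Bf_comm F E]; linarith)
  have h1 := hP _ ht
  have h2 := hX _ ht
  simp only [ch, Bf_smul_left, Bf_add_left, Bf_comm X, Bf_comm P] at h1 h2
  have : t < 0 := by nlinarith only [ho, h2]
  nlinarith only [ho, h1, h2]

lemma side_of (hE : Bf E E = 1) (hF : Bf F F = 1) (h : 1 < Bf E F ^ 2) (hX : Fut X)
    (h1 : Bf E X = 0) (h2 : Bf F X < 0) :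
    (∀ P, Fut P → Bf E P + Bf F P < 0) ∨ ∀ P, Fut P → Bf F P < Bf E P := by
  rcases le_total (Bf E F) 0 with a | a
  · refine Or.inl fun P hP => ?_
    have := add_pos' (E := -E) (F := -F) (by simpa) (by simpa) (by simp; nlinarith only [h, a]) hX
      (by simpa [h1]) hP
    simp only [Bf_neg_left] at this
    linarith
  · refine Or.inr fun P hP => ?_
    have := add_pos' (E := E) (F := -F) hE (by simpa) (by simp; nlinarith only [h, a]) hX (by simpa [h1]) hP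
    simp only [Bf_neg_left] at this
    linarith

lemma same_sign (hu : Hyp u) (hG : IsAx u G) (hF : Bf F F = 1) (h : 1 < Bf G F ^ 2) (hX : H2 X)
    (hX' : H2 X') (e : Bf G X = 0) (e' : Bf G X' = 0) : 0 < Bf F X * Bf F X' := by
  obtain ⟨f, t, -, h0⟩ := hu.fr0 hG
  rw [← Bf_isom f, h0, Bf_E0] at h e e'
  rw [← Bf_isom f] at hF
  rw [← Bf_isom f F, ← Bf_isom f F]
  have a1 := (hX.smul f).2
  have a2 := (hX.smul f).pos
  have a3 := (hX'.smul f).2
  have a4 := (hX'.smul f).pos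
  simp only [Bf, e, e'] at hF ⊢
  have : 0 < (f • F).1 * (f • F).2.2 := by linarith only [hF, h]
  rcases mul_pos_iff.1 this with ⟨a, c⟩ | ⟨a, c⟩
  · exact mul_pos_of_neg_of_neg (by linarith only [mul_pos a a2, mul_pos a1 c])
      (by linarith only [mul_pos a a4, mul_pos a3 c])
  · exact mul_pos (by linarith only [mul_neg_of_neg_of_pos a a2, mul_neg_of_pos_of_neg a1 c])
      (by linarith only [mul_neg_of_neg_of_pos a a4, mul_neg_of_pos_of_neg a3 c])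

lemma exists_bf (hu : Hyp u) (hG : IsAx u G) (r : ℝ) : ∃ X, H2 X ∧ Bf G X = r := by
  obtain ⟨f, t, -, h0⟩ := hu.fr0 hG
  exact ⟨f⁻¹ • (1, r, 1 + r ^ 2), (H2.of_eq (by ring) one_pos).smul _, by rw [← Bf_move, h0, Bf_E0]⟩

lemma end_on (h : End u N) (hE : IsAx u E) : Bf E N = 0 := by
  have : ∀ E, IsAx u E → Bf E N ≤ 0 := fun E hE => not_lt.1 fun a => by
    obtain ⟨n, hn⟩ := h.grow E o (Bf E o) H2_o a
    have := hn n le_rfl
    nth_rewrite 2 [← hE.zpow n] at this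
    rw [zpow_natCast, Bf_isom] at this
    exact lt_irrefl _ this
  exact (this E hE).antisymm (by simpa only [Bf_neg_left, Left.neg_nonpos_iff] using this _ hE.neg)

variable {Γ : Type} [Group Γ] {Y : Fuchs Γ} {x y : Γ} {φ ψ : MulAut Γ} {A : Subgroup (MulAut Γ)}

lemma far (hx : x ≠ 1) (hy : y ≠ 1) (hE : IsAx (Y.σ x) E) (hF : IsAx (Y.σ y) F) (h : ¬ Cr E F)
    (n : ¬ (F = E ∨ F = -E)) : 1 < Bf E F ^ 2 :=
  (not_lt.1 h).lt_of_ne fun e => n (not_tangent hx hy hE hF e.symm)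

lemma exists_ends' (hy : y ≠ 1) (hF : IsAx (Y.σ y) F) : ∃ N N', End (Y.σ y) N ∧ End (Y.σ y⁻¹) N' ∧
    ∀ H, 4 * (Bf H N * Bf H N') = Bf H F ^ 2 - Bf H H := by
  rw [map_inv]
  exact exists_ends (Y.hyp y hy) hF

lemma per_end (hN : N ∈ Y.per) (h : End (Y.σ y) M) : 0 ≤ Bf N M := by
  simpa only [Bf_neg_left, Left.neg_nonpos_iff] using h.le (H := -N) H2_o fun n => by
    rw [← map_pow, Bf_neg_left]
    linarith [Y.per_pos hN (y ^ n)]

/-- There are ends behind every axis that is not a boundary line. -/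
lemma exists_end_neg (hx : x ≠ 1) (hE : IsAx (Y.σ x) E) (h1 : E ∉ Y.per) (h2 : -E ∉ Y.per) :
    ∃ β M, β ≠ 1 ∧ End (Y.σ β) M ∧ Bf E M < 0 := by
  by_contra! hc
  have key : ∀ z G, z ≠ 1 → IsAx (Y.σ z) G → ¬ (G = E ∨ G = -E) → 1 < Bf E G ^ 2 ∧
      ∃ M, End (Y.σ z) M ∧ 0 < Bf E M := fun z G hz hG n => by
    obtain ⟨M, M', m, m', e⟩ := exists_ends' hz hG
    have a := hc z M hz m
    have b := hc _ M' (inv_ne_one.2 hz) m'
    have c := e E
    have d := far hx hz hE hG (by rw [Cr]; nlinarith only [hE.1, a, b, c]) n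
    exact ⟨d, M, m, a.lt_of_ne fun a0 => by rw [← a0, hE.1] at c; linarith⟩
  obtain ⟨K, -, k, -, -⟩ := exists_ends' hx hE
  obtain ⟨R, hR⟩ := Y.cocompact
  obtain ⟨α, -, G, -, a, -, hG, -, -⟩ := Y.nonel
  obtain ⟨X, x1, x2⟩ := exists_bf (Y.hyp α a) hG 0
  obtain ⟨P, p1, p2⟩ := exists_bf (Y.hyp x hx) hE (-(|2 * R * ch o X| + 1))
  have p3 := abs_nonneg (2 * R * ch o X)
  obtain ⟨γ, hγ⟩ := hR P p1 fun N hN => by
    obtain ⟨z, hz, hN'⟩ := Y.per_ax N hN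
    obtain ⟨b, M, m, c⟩ := key z N hz hN' (by
      rintro (rfl | rfl)
      exacts [h1 hN, h2 hN])
    rcases side_of (F := -E) hN'.1 (by simpa using hE.1) (by simpa only [Bf_comm N, Bf_neg_left, even_two, Even.neg_pow, one_lt_sq_iff_one_lt_abs] using b) m.fut
      (end_on m hN') (by simpa using c) with d | d
    · have := d K k.fut
      rw [Bf_neg_left, end_on k hE] at this
      linarith [per_end hN k]
    · have := d P p1.fut
      rw [Bf_neg_left] at this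
      linarith
  have q := x1.smul (Y.σ γ)
  have q1 : Bf E (Y.σ γ • X) < 0 := not_le.1 fun c => by
    have d := abs_Bf_le_of_sign hE.1 p1 q (mul_nonpos_of_nonpos_of_nonneg (by linarith) c)
    have e := ch_tri q (H2_o.smul (Y.σ γ)) p1
    rw [ch_isom, ch_comm (Y.σ γ • o) P] at e
    have := one_le_ch H2_o x1
    have : 2 * ch o X * ch P (Y.σ γ • o) ≤ 2 * ch o X * R := by gcongr
    linarith [neg_abs_le (Bf E P), le_abs_self (2 * R * ch o X)]
  have q2 : Bf (Y.σ γ • G) (Y.σ γ • X) = 0 := by rwa [Bf_isom]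
  have hz : γ * α * γ⁻¹ ≠ 1 := by simpa only [ne_eq, conj_eq_one_iff] using a
  obtain ⟨b, M, m, c⟩ := key _ _ hz (ax_conj hG γ) (by
    rintro (e | e) <;> rw [e] at q2
    · exact q1.ne q2
    · exact q1.ne (by simpa using q2))
  obtain ⟨n, hn⟩ := m.grow E _ 0 q c
  have := same_sign (Y.hyp _ hz) (ax_conj hG γ) hE.1 (by rwa [Bf_comm]) q (q.smul (Y.σ _ ^ n)) q2
    (by rw [← (ax_conj hG γ).zpow n, zpow_natCast, Bf_isom, q2])
  nlinarith only [hn n le_rfl, q1, this]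

/-- `φ` carries the axis `E` to the axis `F`. -/
def Rl (Y : Fuchs Γ) (φ : MulAut Γ) (E F : V) : Prop :=
  ∃ x, x ≠ 1 ∧ IsAx (Y.σ x) E ∧ IsAx (Y.σ (φ x)) F

lemma exists_rl (φ : MulAut Γ) (hx : x ≠ 1) (hE : IsAx (Y.σ x) E) : ∃ F, Rl Y φ E F :=
  (Y.hyp (φ x) (by simpa using hx)).exists_ax.imp fun _ h => ⟨x, hx, hE, h⟩

namespace Rl

lemma symm (h : Rl Y φ E F) : Rl Y φ⁻¹ F E :=
  let ⟨x, a, b, c⟩ := h; ⟨φ x, by simpa using a, c, by simpa using b⟩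

lemma neg_left (h : Rl Y φ E F) : Rl Y φ (-E) F := let ⟨x, a, b, c⟩ := h; ⟨x, a, b.neg, c⟩

lemma neg_right (h : Rl Y φ E F) : Rl Y φ E (-F) := let ⟨x, a, b, c⟩ := h; ⟨x, a, b, c.neg⟩

lemma smul (h : Rl Y φ E F) (γ : Γ) : Rl Y φ (Y.σ γ • E) (Y.σ (φ γ) • F) :=
  let ⟨x, a, b, c⟩ := h
  ⟨γ * x * γ⁻¹, by simpa only [ne_eq, conj_eq_one_iff] using a, ax_conj b γ, by simpa only [map_mul, map_inv] using ax_conj c (φ γ)⟩

lemma uniq (h : Rl Y φ E F) (h' : Rl Y φ E F') : F' = F ∨ F' = -F :=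
  let ⟨_, a, b, c⟩ := h
  let ⟨_, a', b', c'⟩ := h'
  same_map φ a a' b b' c c'

lemma ax (h : Rl Y φ E F) (hx : x ≠ 1) (hE : IsAx (Y.σ x) E) : IsAx (Y.σ (φ x)) F := by
  obtain ⟨G, hG⟩ := (Y.hyp (φ x) (by simpa using hx)).exists_ax
  rcases uniq ⟨x, hx, hE, hG⟩ h with rfl | rfl
  exacts [hG, hG.neg]

lemma trans (h : Rl Y φ E F) (h' : Rl Y ψ F G) : Rl Y (ψ * φ) E G :=
  let ⟨x, a, b, c⟩ := h; ⟨x, a, b, h'.ax (by simpa using a) c⟩

lemma cr (h : Rl Y φ E E') (h' : Rl Y φ F F') (g : Good Y φ) (c : Cr E F) : Cr E' F' :=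
  let ⟨x, a, b, d⟩ := h
  let ⟨y, a', b', d'⟩ := h'
  g x y E F E' F' a a' b b' d d' c

lemma conj (hx : x ≠ 1) (hE : IsAx (Y.σ x) E) (γ : Γ) : Rl Y (MulAut.conj γ) E (Y.σ γ • E) :=
  ⟨x, hx, hE, ax_conj hE γ⟩

end Rl

lemma good (h : Y.Mod A) (hφ : φ ∈ A) : Good Y φ := by
  intro x y E F E' F' hx hy hE hF hE' hF' c
  by_contra n
  have nx : φ x ≠ 1 := by simpa using hx
  have ny : φ y ≠ 1 := by simpa using hy
  have d := far nx ny hE' hF' n fun e => by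
    rcases same_map φ⁻¹ nx ny hE' (by
      rcases e with rfl | rfl
      exacts [hF', by simpa using hF'.neg]) (by simpa using hE) (by simpa using hF) with rfl | rfl <;>
      exact not_cr_self hE.1 (by simpa using c)
  obtain ⟨N, N', n1, n2, e⟩ := exists_ends' hy hF
  obtain ⟨M, M', m1, m2, e'⟩ := exists_ends' ny hF'
  refine h.side φ⁻¹ (inv_mem hφ) (φ x) (φ y) (φ y)⁻¹ ⟨nx, ny, inv_ne_one.2 ny, ?_⟩ ?_
  · have := e' E'
    rcases mul_pos_iff.1 (show 0 < Bf E' M * Bf E' M' by linarith [hE'.1]) with p | p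
    · exact ⟨E', M, M', hE', m1, m2, p⟩
    · exact ⟨-E', M, M', hE'.neg, m1, m2, by simpa using p⟩
  · simp only [map_inv φ⁻¹, MulAut.inv_apply_self]
    refine ⟨hx, hy, inv_ne_one.2 hy, ?_⟩
    have := e E
    rw [Cr] at c
    rcases mul_neg_iff.1 (show Bf E N * Bf E N' < 0 by linarith [hE.1]) with p | p
    · exact ⟨E, N, N', hE, n1, n2, p⟩
    · exact ⟨-E, N, N', hE.neg, n1, n2, by simpa only [Bf_neg_left, Left.neg_pos_iff, Left.neg_neg_iff] using p⟩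

lemma Rl.per (r : Rl Y φ E F) (h : Y.Mod A) (hφ : φ ∈ A) (hE : E ∈ Y.per) :
    F ∈ Y.per ∨ -F ∈ Y.per := by
  by_contra! n
  obtain ⟨x, hx, a, b⟩ := r
  have nx : φ x ≠ 1 := by simpa using hx
  obtain ⟨β, N, n1, n2, n3⟩ := exists_end_neg nx b.neg n.2 (by simpa using n.1)
  obtain ⟨γ, M, m1, m2, m3⟩ := exists_end_neg nx b n.1 n.2
  have key : ∀ β N, β ≠ 1 → End (Y.σ β) N → Bf F N ≠ 0 →
      ∃ K, End (Y.σ (φ⁻¹ β)) K ∧ 0 < Bf E K := fun β N n1 n2 n3 => by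
    have nb : φ⁻¹ β ≠ 1 := by simpa using n1
    obtain ⟨G, hG⟩ := (Y.hyp _ nb).exists_ax
    obtain ⟨K, K', k, -, e⟩ := exists_ends' nb hG
    refine ⟨K, k, (per_end hE k).lt_of_ne fun z => n3 (end_on n2 ?_)⟩
    have := e E
    rw [← z, a.1] at this
    simpa only [MulAut.inv_apply, MulEquiv.apply_symm_apply] using Rl.ax ⟨x, hx, a, b⟩ nb (by
      rcases not_tangent hx nb a hG (by linarith) with rfl | rfl
      exacts [hG, by simpa using hG.neg])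
  obtain ⟨K, k1, k2⟩ := key β N n1 n2 (by simpa using n3.ne)
  obtain ⟨L, l1, l2⟩ := key γ M m1 m2 m3.ne
  refine h.side φ hφ x (φ⁻¹ β) (φ⁻¹ γ) ⟨hx, by simpa using n1, by simpa using m1, E, K, L, a, k1, l1,
    k2, l2⟩ ?_
  simp only [MulAut.apply_inv_self]
  exact ⟨nx, n1, m1, F, N, M, b, n2, m2, by simpa using n3, m3⟩

lemma Rl.simple (r : Rl Y φ E F) (g : Good Y φ⁻¹) (h : ∀ γ, ¬ Cr E (Y.σ γ • E)) (γ : Γ) :
    ¬ Cr F (Y.σ γ • F) := fun c => h _ (r.symm.cr (r.symm.smul γ) g c)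

lemma Rl.curve (r : Rl Y φ E F) (h : Y.Mod A) (hφ : φ ∈ A) (c : Y.Curve E) : Y.Curve F :=
  ⟨let ⟨x, a, _, b⟩ := r; ⟨φ x, by simpa using a, b⟩, r.simple (good h (inv_mem hφ)) c.simple,
    fun p => (r.symm.per h (inv_mem hφ) p).elim c.pos c.neg,
    fun p => (r.symm.neg_left.per h (inv_mem hφ) p).elim c.pos c.neg⟩

end Pool.Agent.MP_646035_al.H66G

end
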