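import Pool.Agent.MP_646035_al.Mg.H84_GWk2
import Pool.Agent.MP_646035_al.Mg.H66G_Act
import Pool.Agent.MP_646035_al.Mg.Bx_Sys

attribute [-instance] Submonoid.instSMulSubtypeMem AddQuantale.instAddLeftMono
  GradedMonoid.GradeZero.mulAction DivisionCommMonoid.toDivisionMonoid Semiring.toMonoid
  SMulWithZero.toSMulZeroClass IsOrderedRing.toIsStrictOrderedRing Module.toDistribMulAction
  IdemSemiring.toCanonicallyOrderedAdd MulActionWithZero.toMulAction MonTypeEquivalenceMon.monMonoid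
  NonUnitalRingHomClass.toMulHomClass AddQuantale.instAddRightMono
  IsOrderedMonoid.toIsOrderedCancelMonoid Prod.mulAction AddMonoidWithOne.toAddMonoid
  covariant_swap_mul_of_covariant_mul ESeminormedAddMonoid.toAddMonoid Algebra.toSMul
  AddCommGroup.toAddGroup IsRightCancelMul.mulRightStrictMono_of_mulRightMono
  ESeminormedAddCommMonoid.toAddCommMonoid Quantale.instMulRightMono NumberField.to_charZero
  instSMulZeroClass MulSemiringAction.toDistribMulAction MonoidWithZero.toMonoid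
  MulDistribMulAction.toMulAction LinearOrderedCommMonoidWithZero.toPosMulStrictMono
  SetLike.GradeZero.instMonoid

/-!
The cyclic order of the boundary lines and the sides of the lifts of a curve.
-/

namespace Pool.Agent.MP_646035_al.MC

open Pool.Agent.MP_4a6971_al.H66 H84 H24 Real

lemma dt_rel (a b c d E : V) :
    dt b c d * Bf E a - dt a c d * Bf E b + dt a b d * Bf E c - dt a b c * Bf E d = 0 := by
  simp only [dt, Bf]; ring

lemma dt_sq (a b c : V) : dt a b c ^ 2 = -4 * (Bf a a * (Bf b b * Bf c c - Bf b c ^ 2) -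
    Bf a b * (Bf a b * Bf c c - Bf b c * Bf a c) + Bf a c * (Bf a b * Bf b c - Bf b b * Bf a c)) := by
  simp only [dt, Bf]; ring

lemma sign_time {W P Q : V} (h : Bf W W < 0) (hP : H2 P) (hQ : H2 Q) : 0 < Bf W P * Bf W Q := by
  obtain ⟨t, h0, ht⟩ := exists_H2_of_neg h
  have h1 := one_le_ch ht hP
  have h2 := one_le_ch ht hQ
  simp only [ch, Bf_smul_left] at h1 h2
  have : 0 < t ^ 2 * (Bf W P * Bf W Q) := by nlinarith only [h1, h2]
  exact (mul_pos_iff_of_pos_left (by positivity)).1 this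

lemma seg_bdd {K : ℝ} (hK : 1 < K) : ∃ M, ∀ x y : ℝ, 0 < x → 0 < y →
    x ^ 2 + y ^ 2 - 2 * K * x * y = -1 → x ≤ K * y → y ≤ K * x → x ≤ M ∧ y ≤ M := by
  have h0 : 0 < 1 / (K - 1) := by have := sub_pos.2 hK; positivity
  have h1 : (K - 1) * (1 / (K - 1)) = 1 := by have := (sub_pos.2 hK).ne'; field_simp
  have key : ∀ x y : ℝ, 0 < y → x ^ 2 + y ^ 2 - 2 * K * x * y = -1 → x ≤ K * y → y ≤ x →
      x ≤ K * (1 + 1 / (K - 1)) := fun x y a b c d => by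
    have h2 : (2 * K - 2) * y ^ 2 ≤ 1 := by
      linarith only [mul_nonneg (sub_nonneg.2 d) (by linarith only [c, d] : 0 ≤ (K - 1) * y + (K * y - x)), b]
    have h3 : y ≤ 1 + 1 / (K - 1) := by
      by_contra! h
      nlinarith only [h0, h1, h2, h]
    nlinarith only [hK, c, h3]
  refine ⟨K * (1 + 1 / (K - 1)), fun x y a b c d e => ?_⟩
  rcases le_total y x with h | h
  · exact ⟨key x y b c d h, h.trans (key x y b c d h)⟩
  · have := key y x a (by linarith only [c]) e h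
    exact ⟨h.trans this, this⟩

namespace Fuchs

variable {Γ : Type} [Group Γ] (Y : Fuchs Γ)

/-- The boundary lines. -/
def Wall : Type := {N : V // N ∈ Y.per}

instance : MulAction Γ Y.Wall where
  smul g N := ⟨Y.σ g • N.1, Y.per_smul g _ N.2⟩
  one_smul N := Subtype.ext (show Y.σ 1 • N.1 = N.1 by simp only [map_one, one_smul])
  mul_smul g k N := Subtype.ext (show Y.σ (g * k) • N.1 = Y.σ g • Y.σ k • N.1 by
    rw [map_mul, mul_smul])

/-- The cyclic order of the boundary lines. -/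
def cyc (a b c : Y.Wall) : Prop := 0 < dt a.1 b.1 c.1

/-- The side of a line. -/
def sd (E : V) : Set Y.Wall := {B | 0 < Bf E B.1}

/-- The sides of the lifts of a curve. -/
def cut (x : Fu.Cv Y) : Set (Set Y.Wall) := Y.sd '' x.1

variable {Y} {a b c d : Y.Wall} {x y : Fu.Cv Y} {E F P : V}

lemma coe_smul (g : Γ) (a : Y.Wall) : (g • a).1 = Y.σ g • a.1 := rfl

lemma mem_sd : a ∈ Y.sd E ↔ 0 < Bf E a.1 := Iff.rfl

lemma Wall.ax (a : Y.Wall) : Fu.Ax Y a.1 := Y.per_ax _ a.2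

lemma Wall.unit (a : Y.Wall) : Bf a.1 a.1 = 1 := a.ax.unit

lemma Wall.pos (a : Y.Wall) : 0 < Bf o a.1 := Bf_comm a.1 o ▸ Y.per_o _ a.2

lemma Wall.far (h : a ≠ b) : Bf a.1 b.1 < -1 := Y.per_far _ a.2 _ b.2 (Subtype.coe_ne_coe.2 h)

lemma circ : Circ Y.cyc where
  cyc h := h.trans_eq (by simp only [dt]; ring)
  asym {a b c} h h' := by
    have : dt a.1 c.1 b.1 = -dt a.1 b.1 c.1 := by simp only [dt]; ring
    unfold cyc at h h'
    linarith
  tot {a b c} h1 h2 h3 := by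
    have e : dt a.1 c.1 b.1 = -dt a.1 b.1 c.1 := by simp only [dt]; ring
    have := dt_sq a.1 b.1 c.1
    rw [a.unit, b.unit, c.unit] at this
    have h1 := Wall.far h1; have h2 := Wall.far h2; have h3 := Wall.far h3
    have h4 : dt a.1 b.1 c.1 ≠ 0 := fun z => by
      rw [z] at this
      nlinarith only [mul_pos_of_neg_of_neg (by linarith : Bf a.1 b.1 + 1 < 0)
        (by linarith : Bf b.1 c.1 + 1 < 0), this, h1, h2, h3]
    exact h4.lt_or_gt.symm.imp_right fun z => by unfold cyc; linarith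
  trans {a b c d} h h' := by
    unfold cyc at *
    by_contra! hc
    have n : ∀ u v w : Y.Wall, 0 < dt u.1 v.1 w.1 → u ≠ v ∧ u ≠ w := fun u v w h => by
      constructor <;> rintro rfl <;> refine h.ne' ?_ <;> simp only [dt] <;> ring
    have e1 := dt_rel a.1 b.1 c.1 d.1 o
    have e2 := dt_rel a.1 b.1 c.1 d.1 a.1
    rw [a.unit] at e2
    have := Wall.far (n _ _ _ h).1; have := Wall.far (n _ _ _ h).2; have := Wall.far (n _ _ _ h').2
    have := a.pos; have := b.pos; have := c.pos; have := d.pos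
    have : 0 < dt b.1 c.1 d.1 := by
      by_contra! z
      nlinarith [mul_pos h' b.pos, mul_pos h d.pos]
    nlinarith

lemma lk_iff : Lk Y.cyc a b c d ↔ dt a.1 b.1 c.1 * dt a.1 b.1 d.1 < 0 := by
  have e : ∀ c : Y.Wall, dt a.1 c.1 b.1 = -dt a.1 b.1 c.1 := fun c => by simp only [dt]; ring
  rw [Lk, cyc, cyc, cyc, cyc, e c, e d, neg_pos, neg_pos, mul_neg_iff]
  tauto

/-- Linked pairs satisfy a positive linear relation. -/
lemma lk_rel (h : Lk Y.cyc a b c d) : ∃ α β γ δ : ℝ, 0 < α ∧ 0 < β ∧ 0 < γ ∧ 0 < δ ∧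
    ∀ E, α * Bf E a.1 + β * Bf E b.1 = γ * Bf E c.1 + δ * Bf E d.1 := by
  have h1 := lk_iff.1 h
  have h2 := lk_iff.1 (circ.lk_symm h)
  rw [show dt c.1 d.1 a.1 = dt a.1 c.1 d.1 by simp only [dt]; ring,
    show dt c.1 d.1 b.1 = dt b.1 c.1 d.1 by simp only [dt]; ring] at h2
  have e := dt_rel a.1 b.1 c.1 d.1
  have e0 := e o
  have := a.pos; have := b.pos; have := c.pos; have := d.pos
  rcases mul_neg_iff.1 h1 with ⟨x, y⟩ | ⟨x, y⟩ <;> rcases mul_neg_iff.1 h2 with ⟨z, w⟩ | ⟨z, w⟩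
  · nlinarith
  · exact ⟨_, _, _, _, w, neg_pos.2 z, neg_pos.2 y, x, fun E => by linarith only [e E]⟩
  · exact ⟨_, _, _, _, neg_pos.2 w, z, y, neg_pos.2 x, fun E => by linarith only [e E]⟩
  · nlinarith

lemma chord_bdd (h : a ≠ b) : ∃ R, ∀ (X : V) (s t : ℝ), 0 < s → 0 < t → H2 X →
    (∀ E, Bf E X = -(s * Bf E a.1 + t * Bf E b.1)) → 0 ≤ Bf a.1 X → 0 ≤ Bf b.1 X → ch o X ≤ R := by
  obtain ⟨M, hM⟩ := seg_bdd (K := -Bf a.1 b.1) (by linarith [Wall.far h])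
  refine ⟨M * Bf o a.1 + M * Bf o b.1, fun X s t h1 h2 h3 e h4 h5 => ?_⟩
  have e1 := e a.1; have e2 := e b.1; have e3 := e X
  rw [a.unit] at e1
  rw [b.unit, Bf_comm b.1 a.1] at e2
  rw [h3.1, Bf_comm X, Bf_comm X, e1, e2] at e3
  obtain ⟨m1, m2⟩ := hM s t h1 h2 (by linarith only [e3]) (by linarith) (by linarith)
  rw [ch, e, neg_neg]
  have := a.pos; have := b.pos
  gcongr

lemma act : Act Γ Y.cyc where
  circ := circ
  inv g a b c h := by
    rcases eq_or_ne g 1 with rfl | e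
    · simpa using h
    · exact h.trans_eq (dt_hyp (Y.hyp g e) _ _ _).symm
  swap g a b h h' := by_contra fun n => by
    have h1 : g * g = 1 := Fu.fix_two (S := Y) a.unit b.unit
      (Or.inl (by rw [← coe_smul, mul_smul, h, h'])) (Or.inl (by rw [← coe_smul, mul_smul, h', h]))
      (fun e => n (Subtype.ext e).symm) fun e => by
        have := a.pos; have := b.pos; rw [e, Bf_neg_right] at this; linarith
    refine n (by_contra fun _ => (Y.hyp g ?_).zpow_ne_one two_ne_zero ?_)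
    · rintro rfl
      exact n (by simpa using h)
    · rw [zpow_two, ← map_mul, h1, map_one]
  two g a b n h h' := Fu.fix_two (S := Y) a.unit b.unit (Or.inl (by rw [← coe_smul, h]))
    (Or.inl (by rw [← coe_smul, h'])) (fun e => n (Subtype.ext e).symm) fun e => by
      have := a.pos; have := b.pos; rw [e, Bf_neg_right] at this; linarith
  fin a b c d := by
    rcases eq_or_ne a b with rfl | n
    · exact Set.finite_empty.subset fun g h => (circ.lk_ne h).1 rfl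
    rcases eq_or_ne c d with rfl | n'
    · exact Set.finite_empty.subset fun g h => (circ.lk_ne h).2.2.2.2.2 rfl
    obtain ⟨R, hR⟩ := chord_bdd n
    obtain ⟨R', hR'⟩ := chord_bdd n'
    refine (Y.proper (2 * R * R')).subset fun g h => ?_
    obtain ⟨α, β, γ, δ, h1, h2, h3, h4, e⟩ := lk_rel h
    obtain ⟨-, n1, n2, n3, n4, -⟩ := circ.lk_ne h
    have f1 := Wall.far n1; have f2 := Wall.far n2; have f3 := Wall.far n3; have f4 := Wall.far n4
    have g1 : α * Bf a.1 a.1 + β * Bf a.1 b.1 < 0 := by rw [e]; nlinarith only [h3, h4, f1, f2]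
    have g2 : α * Bf b.1 a.1 + β * Bf b.1 b.1 < 0 := by rw [e]; nlinarith only [h3, h4, f3, f4]
    obtain ⟨t, -, ht⟩ := exists_H2_of_neg (X := α • a.1 + β • b.1) (by
      simp only [Bf_add_left, Bf_add_right, Bf_smul_left, Bf_smul_right]
      nlinarith only [h1, h2, g1, g2])
    have v : ∀ E, Bf E (t • (α • a.1 + β • b.1)) = t * (α * Bf E a.1 + β * Bf E b.1) :=
      fun E => by simp only [Bf_smul_right, Bf_add_right]
    have t0 : t < 0 := by
      have := one_le_ch H2_o ht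
      rw [ch, v] at this
      nlinarith only [mul_pos h1 a.pos, mul_pos h2 b.pos, this]
    generalize t • (α • a.1 + β • b.1) = X at *
    have r1 := hR X (-t * α) (-t * β) (by nlinarith only [h1, t0]) (by nlinarith only [h2, t0]) ht (fun E => by rw [v]; ring)
      (by rw [v]; nlinarith only [g1, t0]) (by rw [v]; nlinarith only [g2, t0])
    rw [Bf_comm] at f1 f2 f3 f4
    have r2 := hR' ((Y.σ g)⁻¹ • X) (-t * γ) (-t * δ) (by nlinarith only [h3, t0]) (by nlinarith only [h4, t0]) (ht.smul _)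
      (fun E => by rw [← Bf_move, v, e, coe_smul, coe_smul, Bf_isom, Bf_isom]; ring)
      (by rw [← Bf_move, v, ← coe_smul]; exact (mul_pos_of_neg_of_neg t0 (by nlinarith only [h1, h2, f1, f3])).le)
      (by rw [← Bf_move, v, ← coe_smul]; exact (mul_pos_of_neg_of_neg t0 (by nlinarith only [h1, h2, f2, f4])).le)
    have r3 := ch_tri H2_o ht (H2_o.smul (Y.σ g))
    have r4 := one_le_ch H2_o ht
    have r5 := one_le_ch H2_o (ht.smul (Y.σ g)⁻¹)
    rw [← ch_isom (Y.σ g), smul_inv_smul, ch_comm] at r2 r5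
    rw [ch_comm X o] at r3
    exact r3.trans (by gcongr; linarith only [r1, r4])

lemma frame (hE : Y.Curve E) {g : Γ} (hg : g ≠ 1) (h : IsAx (Y.σ g) E) :
    ∃ f t, Fr (Y.σ g) f t ∧ f • E = E0 ∧ ∀ B : Y.Wall, (f • B.1).1 < 0 ∧ (f • B.1).2.2 < 0 := by
  obtain ⟨f, t, hf, h0⟩ := (Y.hyp g hg).fr0 h
  refine ⟨f, t, hf, h0, fun B => ?_⟩
  have h1 : 1 < Bf E B.1 ^ 2 := (((Fu.Ax.tri (S := Y) hE.ax B.ax).resolve_left
    (Fu.Ax.not_cr_per (S := Y) hE.ax B.2)).resolve_left fun e => hE.pos (e ▸ B.2)).resolve_left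
      fun e => hE.neg (e ▸ B.2)
  have h2 := Y.ax_core hg h (H2_o.smul f⁻¹) (by rw [← Bf_move, h0, Bf_E0]; rfl) B.2
  have h3 := B.unit
  rw [← Bf_isom f, h0, Bf_E0] at h1
  rw [← Bf_move] at h2
  rw [← Bf_isom f] at h3
  simp only [Bf, o] at h2 h3
  constructor <;> nlinarith only [h1, h2, h3]

/-- The sign of a boundary line is opposite to the sign of its points. -/
lemma sgn (hE : Y.Curve E) (hP : H2 P) (h : Bf a.1 P = 0) : Bf E a.1 * Bf E P < 0 := by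
  obtain ⟨g, hg, ax⟩ := hE.ax
  obtain ⟨f, t, -, h0, h1⟩ := frame hE hg ax
  rw [← Bf_isom f E, ← Bf_isom f E, h0, Bf_E0, Bf_E0]
  rw [← Bf_isom f, Bf] at h
  linarith only [mul_neg_of_neg_of_pos (h1 a).1 (hP.smul f).pos, mul_neg_of_neg_of_pos (h1 a).2 (hP.smul f).2, h]

lemma Wall.pt (a : Y.Wall) : ∃ P, H2 P ∧ Bf a.1 P = 0 := a.ax.pl.elim fun _ l => ⟨_, l.h2 0, l.on 0⟩

lemma not_mem_sd (hE : Y.Curve E) : a ∉ Y.sd E ↔ Bf E a.1 < 0 := by
  obtain ⟨P, h1, h2⟩ := a.pt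
  have := left_ne_zero_of_mul (sgn hE h1 h2).ne
  exact not_lt.trans ⟨fun e => e.lt_of_ne this, le_of_lt⟩

lemma sd_neg (hE : Y.Curve E) : Y.sd (-E) = (Y.sd E)ᶜ :=
  Set.ext fun _ => by rw [Set.mem_compl_iff, not_mem_sd hE, ← neg_pos, ← Bf_neg_left]; rfl

lemma smul_mem_sd (g : Γ) : g • a ∈ Y.sd E ↔ a ∈ Y.sd (Y.σ g⁻¹ • E) := by
  rw [sd, sd, Set.mem_ofPred_eq, coe_smul, Fu.Bf_move']; rfl

lemma cr_of_quad (hE : Y.Curve E) (hF : Y.Curve F) (h : Quad (Y.sd E) (Y.sd F)) : Cr E F := by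
  obtain ⟨⟨a, a1, a2⟩, ⟨b, b1, b2⟩, ⟨c, c1, c2⟩, d, d1, d2⟩ := h
  rcases Fu.Ax.tri (S := Y) hE.ax hF.ax with e | rfl | rfl | e
  · exact e
  · exact (b2 b1).elim
  · exact ((sd_neg hE ▸ a2) a1).elim
  rw [not_mem_sd hF] at b2 d2
  rw [not_mem_sd hE] at c1 d1
  rw [mem_sd] at a1 a2 b1 c2
  have u1 := Fu.Ax.unit (S := Y) hE.ax
  have u2 := Fu.Ax.unit (S := Y) hF.ax
  have s : ∀ a : Y.Wall, ∃ P, H2 P ∧ Bf E a.1 * Bf E P < 0 ∧ Bf F a.1 * Bf F P < 0 := fun a =>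
    a.pt.imp fun _ h => ⟨h.1, sgn hE h.1 h.2, sgn hF h.1 h.2⟩
  exfalso
  rcases lt_or_gt_of_ne (show Bf E F ≠ 0 by rintro z; norm_num [z] at e) with z | z
  · obtain ⟨P, p, p1, p2⟩ := s a
    obtain ⟨Q, q, q1, q2⟩ := s d
    have := sign_time (W := E + F) (by simp [u1, u2, Bf_comm F E]; nlinarith only [e, z]) p q
    rw [Bf_add_left, Bf_add_left] at this
    exact this.not_gt (mul_neg_of_neg_of_pos (add_neg (by nlinarith only [a1, p1])
      (by nlinarith only [a2, p2])) (add_pos (by nlinarith only [d1, q1]) (by nlinarith only [d2, q2])))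
  · obtain ⟨P, p, p1, p2⟩ := s b
    obtain ⟨Q, q, q1, q2⟩ := s c
    have := sign_time (W := E - F) (by simp [u1, u2, Bf_comm F E]; nlinarith only [e, z]) p q
    rw [Bf_sub_left, Bf_sub_left] at this
    have p3 : Bf E P < 0 := by nlinarith only [b1, p1]
    have p4 : 0 < Bf F P := by nlinarith only [b2, p2]
    have q3 : 0 < Bf E Q := by nlinarith only [c1, q1]
    have q4 : Bf F Q < 0 := by nlinarith only [c2, q2]
    exact this.not_gt (mul_neg_of_neg_of_pos (by linarith only [p3, p4]) (by linarith only [q3, q4]))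

lemma cuts (x : Fu.Cv Y) : Cuts Γ Y.cyc (Y.cut x) where
  conv := by
    rintro _ ⟨E, -, rfl⟩ a a1 b b1 c c1 d d1 h
    obtain ⟨α, β, γ, δ, h1, h2, h3, h4, e⟩ := lk_rel h
    rw [mem_sd] at a1 b1 c1 d1
    rw [not_lt] at c1 d1
    nlinarith only [e E, mul_pos h1 a1, mul_pos h2 b1, c1, d1, h3, h4]
  compl := by
    rintro _ ⟨E, h, rfl⟩
    exact ⟨_, x.neg_mem h, sd_neg (x.curve h)⟩
  smul := by
    rintro _ ⟨E, h, rfl⟩ g
    exact ⟨_, x.smul_mem h g⁻¹, Set.ext fun _ => (smul_mem_sd g).symm⟩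
  nest := by
    rintro _ ⟨E, h, rfl⟩ _ ⟨F, h', rfl⟩ q
    exact x.simple h h' (cr_of_quad (x.curve h) (x.curve h') q)
  fin a b := by
    obtain ⟨P, p1, p2⟩ := a.pt
    obtain ⟨Q, q1, q2⟩ := b.pt
    refine ((x.sep_fin p1 q1).image Y.sd).subset ?_
    rintro _ ⟨⟨E, h, rfl⟩, h1, h2⟩
    have := sgn (x.curve h) p1 p2; have := sgn (x.curve h) q1 q2
    rw [not_mem_sd (x.curve h)] at h2
    rw [mem_sd] at h1
    exact ⟨E, ⟨h, mul_nonpos_of_nonpos_of_nonneg (by nlinarith) (by nlinarith only [h2, this])⟩, rfl⟩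

lemma mem_of_end (hF : Y.Curve F) {g : Γ} {N : V} (e : End (Y.σ g) N) (h : Bf F N < 0)
    (a : Y.Wall) : ∃ n : ℕ, g ^ n • a ∈ Y.sd F := by
  obtain ⟨P, p1, p2⟩ := a.pt
  obtain ⟨n, hn⟩ := e.grow (-F) P 0 p1 (by simpa using h)
  have h1 := hn n le_rfl
  have h2 := sgn (a := g ^ n • a) hF (p1.smul (Y.σ g ^ n)) (by rwa [coe_smul, map_pow, Bf_isom])
  rw [Bf_neg_left] at h1
  exact ⟨n, mem_sd.2 (by nlinarith only [h1, h2])⟩

lemma sd_nonempty (hE : Y.Curve E) (a : Y.Wall) : ∃ b, b ∈ Y.sd E := by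
  obtain ⟨g, hg, ax⟩ := hE.ax
  obtain ⟨β, M, -, h1, h2⟩ := H66G.exists_end_neg hg ax hE.pos hE.neg
  exact (mem_of_end hE h1 h2 a).elim fun _ h => ⟨_, h⟩

lemma Curve.neg' (hE : Y.Curve E) : Y.Curve (-E) :=
  (Fu.mk (S := Y) hE).curve ((Fu.mk (S := Y) hE).neg_mem (Fu.mem_mk hE))

/-- A side determines the line. -/
lemma sd_inj (hE : Y.Curve E) (hF : Y.Curve F) (a : Y.Wall) (h : Y.sd E = Y.sd F) : F = E := by
  obtain ⟨g, hg, ax⟩ := hE.ax
  obtain ⟨N, N', e, -, h3⟩ := exists_ends (Y.hyp g hg) ax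
  have fx : ∀ (n : ℕ) (b : Y.Wall), g ^ n • b ∈ Y.sd E ↔ b ∈ Y.sd E := fun n b => by
    rw [smul_mem_sd, ← zpow_natCast, ← zpow_neg, map_zpow, ax.zpow]
  obtain ⟨b, hb⟩ := sd_nonempty hE a
  obtain ⟨c, hc⟩ := sd_nonempty hE.neg' a
  rw [sd_neg hE] at hc
  have h4 : Bf F N = 0 := by
    rcases lt_trichotomy (Bf F N) 0 with z | z | z
    · obtain ⟨n, hn⟩ := mem_of_end hF e z c
      exact (hc ((fx n c).1 (h ▸ hn))).elim
    · exact z
    · obtain ⟨n, hn⟩ := mem_of_end hF.neg' e (by simpa using z) b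
      exact ((sd_neg hF ▸ hn) (h ▸ (fx n b).2 hb)).elim
  have h5 := h3 F
  rw [h4, Fu.Ax.unit (S := Y) hF.ax, Bf_comm F E] at h5
  rcases Fu.Ax.tri (S := Y) hE.ax hF.ax with z | z | rfl | z
  · rw [Cr] at z; linarith
  · exact z
  · exact ((sd_neg hE ▸ h ▸ hb) hb).elim
  · linarith

lemma gen (hE : E ∈ x.1) {γ : ℝ → V} {t : Γ} {τ : ℝ} (p : Fu.Per Y γ E t τ) (w : Y.Wall) :
    Gen Γ Y.cyc (Y.sd E) t where
  fix a := by rw [smul_mem_sd, ← zpow_neg_one, p.zfix]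
  gen g h := by
    have := sd_inj (x.curve (x.smul_mem hE g⁻¹)) (x.curve hE) w
      (Set.ext fun a => (smul_mem_sd g).symm.trans (h a))
    rw [map_inv, eq_inv_smul_iff] at this
    exact (p.gen g (Or.inl this)).imp fun _ => Eq.symm
  mono a b h i j k h1 h2 := by
    obtain ⟨f, s, hf, h0, h3⟩ := frame (x.curve hE) p.ne p.isAx
    obtain ⟨l, l0, hl⟩ := dt_isom f
    have h4 : (f • a.1).2.1 * (f • b.1).2.1 < 0 := by
      rw [← Bf_E0, ← Bf_E0, ← h0, Bf_isom, Bf_isom]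
      by_cases m : a ∈ Y.sd E
      exacts [mul_neg_of_pos_of_neg m ((not_mem_sd (x.curve hE)).1 (h.1 m)),
        mul_neg_of_neg_of_pos ((not_mem_sd (x.curve hE)).1 m) (not_not.1 (mt h.2 m))]
    rw [lk_iff, ← neg_iff_of_pos (mul_self_pos.2 l0), mul_mul_mul_comm, ← hl, ← hl]
    simp only [coe_smul, map_zpow, hf.eq, dil_smul, exp_neg]
    obtain ⟨a1, a3⟩ := h3 a
    obtain ⟨b1, b3⟩ := h3 b
    have x0 := exp_pos (i * s)
    have xy : exp (i * s) < exp (j * s) := exp_lt_exp.2 (by have := hf.pos; gcongr)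
    have yz : exp (j * s) < exp (k * s) := exp_lt_exp.2 (by have := hf.pos; gcongr)
    generalize exp (i * s) = X, exp (j * s) = W, exp (k * s) = Z, f • a.1 = A, f • b.1 = B at *
    have w0 := x0.trans xy
    have z0 := w0.trans yz
    have e : dt (A.1 * X⁻¹, A.2.1, A.2.2 * X) (A.1 * Z⁻¹, A.2.1, A.2.2 * Z)
        (A.1 * W⁻¹, A.2.1, A.2.2 * W) * dt (A.1 * X⁻¹, A.2.1, A.2.2 * X)
        (A.1 * Z⁻¹, A.2.1, A.2.2 * Z) B = -((Z - X) ^ 2 * (W - X) * (Z - W) * (A.1 * A.2.2) *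
          (A.2.1 ^ 2 * (A.1 * B.2.2 + A.2.2 * B.1 * (X * Z)) +
            A.1 * A.2.2 * (X + Z) * -(A.2.1 * B.2.1)) / (X ^ 2 * W * Z ^ 2)) := by
      simp only [dt]
      field_simp
      ring
    rw [e, neg_lt_zero]
    have := sub_pos.2 xy; have := sub_pos.2 yz; have := sub_pos.2 (xy.trans yz)
    have := mul_pos_of_neg_of_neg a1 a3; have := mul_pos_of_neg_of_neg a1 b3
    have := mul_pos_of_neg_of_neg a3 b1; have := neg_pos.2 h4
    positivity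

lemma count (hE : E ∈ x.1) {γ : ℝ → V} {t : Γ} {τ : ℝ} (p : Fu.Per Y γ E t τ) (y : Fu.Cv Y)
    (A : Set (Set Y.Wall)) (h1 : ∀ T ∈ A, T ∈ Y.cut y ∧ Quad (Y.sd E) T)
    (h2 : ∀ T ∈ A, ∀ T' ∈ A, ∀ k : ℤ,
      (∀ a, a ∈ T ↔ t ^ k • a ∈ T') ∨ (∀ a, a ∈ T ↔ t ^ k • a ∉ T') → T = T') :
    A.ncard ≤ Fu.i x y := by
  have : ∀ T, ∃ s, T ∈ A → s ∈ Set.Ico 0 (0 + τ) ∧ ∃ F ∈ y.1, Cr E F ∧ Bf F (γ s) = 0 ∧
      ∃ k : ℤ, T = Y.sd (Y.σ (t ^ k)⁻¹ • F) := fun T => by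
    by_cases hT : T ∈ A
    swap
    · exact ⟨0, fun h => (hT h).elim⟩
    obtain ⟨⟨F, f, rfl⟩, q⟩ := h1 T hT
    have c := cr_of_quad (x.curve hE) (y.curve f) q
    obtain ⟨s, hs⟩ := p.pl.zero (y.unit f) c
    obtain ⟨k, hk⟩ := Fu.exists_mem_Ico p.pos 0 s
    exact ⟨_, fun _ => ⟨hk, _, y.smul_mem f (t ^ k), by rwa [← p.zfix k, cr_isom],
      by rwa [← p.zsh, Bf_isom], k, by simp only [map_inv, map_zpow, inv_smul_smul]⟩⟩
  choose φ hφ using this
  rw [p.count hE y 0]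
  refine Set.ncard_le_ncard_of_injOn φ (fun T h => ?_) (fun T h T' h' e => ?_)
    (Fu.Pos_fin' y p.pl _ _)
  · obtain ⟨a, F, b, c, d, -⟩ := hφ T h
    exact ⟨⟨F, b, c, d⟩, a⟩
  obtain ⟨-, F, b, -, d, k, rfl⟩ := hφ T h
  obtain ⟨-, F', b', -, d', k', rfl⟩ := hφ T' h'
  refine h2 _ h _ h' (-k' + k) ((y.eq_or b b' (p.pl.h2 _) d (e ▸ d')).imp ?_ ?_) <;> rintro rfl a <;>
    rw [← smul_mem_sd, ← smul_mem_sd, ← mul_smul, ← zpow_add, add_neg_cancel_left]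
  rw [sd_neg (y.curve b), Set.notMem_compl_iff]

lemma exists_arc (h : a ≠ b) : ∃ u, Arc Γ Y.cyc u := by
  obtain ⟨T, t1, t2⟩ := Y.per_fin
  have f1 : ∀ c : Y.Wall, {s | ∃ d, c ≠ d ∧ s = Bf c.1 d.1 ∧ Bf a.1 b.1 ≤ s}.Finite := fun c => by
    obtain ⟨g, hg, ax⟩ := c.ax
    obtain ⟨R, hR⟩ := norm_pt (Y.hyp g hg) ax 0
    refine ((Fu.per_fin' (S := Y) H2_o ((1 + 2 * -Bf a.1 b.1) * R)).image (Bf c.1)).subset ?_
    rintro _ ⟨d, n, rfl, m⟩
    have := Wall.far n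
    obtain ⟨t, -, ht⟩ := exists_H2_of_neg (X := d.1 - Bf c.1 d.1 • c.1) (by
      simp [c.unit, d.unit, Bf_comm d.1 c.1]; nlinarith only [this])
    obtain ⟨k, hk⟩ := hR _ ht (by simp [c.unit])
    have e1 := ht.1
    have e2 : Bf d.1 (t • (d.1 - Bf c.1 d.1 • c.1)) = t * (1 - Bf c.1 d.1 ^ 2) := by
      simp [d.unit, Bf_comm d.1 c.1, sq]
    simp only [Bf_smul_left, Bf_smul_right, Bf_sub_left, Bf_sub_right, c.unit, d.unit,
      Bf_comm d.1 c.1] at e1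
    refine ⟨_, ⟨Or.inl (g ^ k • d).2, (abs_Bf_le (g ^ k • d).unit H2_o (ht.smul (Y.σ g ^ k))).trans
      ?_⟩, by rw [coe_smul, map_zpow, ← ax.zpow k, Bf_isom, ax.zpow]⟩
    rw [coe_smul, map_zpow, Bf_isom, e2, ch_comm]
    have e3 : |t * (1 - Bf c.1 d.1 ^ 2)| ≤ -Bf a.1 b.1 :=
      abs_le_of_sq_le_sq' (by nlinarith only [m, this, e1]) (by linarith) |> abs_le.2
    have := one_le_ch H2_o (ht.smul (Y.σ g ^ k))
    gcongr
    linarith
  have f2 : {s | ∃ c d : Y.Wall, c ≠ d ∧ s = Bf c.1 d.1 ∧ Bf a.1 b.1 ≤ s}.Finite := by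
    refine ((t1.preimage (Subtype.val_injective (p := (· ∈ Y.per))).injOn).biUnion
      fun c _ => f1 c).subset ?_
    rintro _ ⟨c, d, n, rfl, m⟩
    obtain ⟨g, hg⟩ := t2 _ c.2
    exact Set.mem_biUnion (x := g • c) hg ⟨g • d, by simpa using n, by simp [coe_smul], m⟩
  obtain ⟨_, ⟨c, d, n, rfl, m⟩, mx⟩ := Set.exists_max_image _ id f2 ⟨_, a, b, h, rfl, le_rfl⟩
  have mx' : ∀ c' d' : Y.Wall, c' ≠ d' → Bf c'.1 d'.1 ≤ Bf c.1 d.1 := fun c' d' n' =>
    (le_total _ _).elim (fun z => mx _ ⟨c', d', n', rfl, z⟩) fun z => z.trans m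
  refine ⟨(c, d), n, fun g l => ?_⟩
  obtain ⟨α, β, γ, δ, h1, h2, h3, h4, e⟩ := lk_rel l
  obtain ⟨-, n1, n2, n3, n4, -⟩ := circ.lk_ne l
  have e1 := e c.1; have e2 := e d.1; have e3 := e (g • c).1; have e4 := e (g • d).1
  have e5 : Bf (g • c).1 (g • d).1 = Bf c.1 d.1 := by simp [coe_smul]
  have m1 := mx' _ _ n1; have m2 := mx' _ _ n2; have m3 := mx' _ _ n3; have m4 := mx' _ _ n4
  simp only [Wall.unit, Bf_comm d.1 c.1, Bf_comm (g • d).1, Bf_comm (g • c).1 c.1,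
    Bf_comm (g • c).1 d.1, e5] at e1 e2 e3 e4 m1 m2 m3 m4
  have := Wall.far n
  nlinarith only [mul_le_mul_of_nonneg_left m1 h3.le, mul_le_mul_of_nonneg_left m2 h4.le, mul_le_mul_of_nonneg_left m2 h1.le, mul_le_mul_of_nonneg_left m4 h2.le, h1, h4, e1, e4, this]

/-- The axioms on arcs and curves, given the gap curves. -/
theorem sys (hE : Y.Curve E) (w : Y.Wall) (gap : ∃ z : Y.Wall × Y.Wall → Fu.Cv Y,
    (∀ u, Arc Γ Y.cyc u → Miss (Y.cut (z u)) u ∧ ∀ w, Miss (Y.cut w) u → Fu.i w (z u) = 0) ∧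
    ∀ u v, Arc Γ Y.cyc u → Arc Γ Y.cyc v → Dj Γ Y.cyc u v → Fu.i (z u) (z v) ≤ 8) :
    Sys Γ Y.cyc Y.cut Fu.i where
  toAct := act
  cuts := cuts
  symm := Fu.i_symm
  per x := by
    rintro _ ⟨F, h, rfl⟩
    obtain ⟨γ, t, τ, p⟩ := x.exists_per h
    exact ⟨t, gen h p w, fun y A _ => count h p y A⟩
  arc := by
    obtain ⟨b, hb⟩ := sd_nonempty hE w
    obtain ⟨c, hc⟩ := sd_nonempty hE.neg' w
    exact exists_arc (a := b) (b := c) fun e => (sd_neg hE ▸ hc) (e ▸ hb)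
  gap := gap

end Fuchs

end Pool.Agent.MP_646035_al.MC
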