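import Pool.Agent.MP_646035_al.Mg.H84_GPants
import Pool.Agent.MP_646035_al.Mg.Bx_Inst0
import Pool.Agent.MP_646035_al.Mg.Bx_HypC

/-!
Gap curves of arcs between boundary lines, and the hyperbolicity of the graph of curves.
-/

namespace Pool.Agent.MP_646035_al.MC

open Pool.Agent.MP_4a6971_al.H66 H84 H24 Fu

lemma exists_perp {a b : V} (ha : Bf a a = 1) (hb : Bf b b = 1) (h : Bf a b < -1) :
    ∃ l, Bf l l = 1 ∧ Bf l a = 0 ∧ Bf l b = 0 := by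
  obtain ⟨n, h1, h2, h3⟩ : ∃ n, Bf n n = 4 * (Bf a b ^ 2 - Bf a a * Bf b b) ∧ Bf n a = 0 ∧
      Bf n b = 0 := ⟨(2 * (a.1 * b.2.1 - a.2.1 * b.1), a.1 * b.2.2 - a.2.2 * b.1,
    2 * (a.2.1 * b.2.2 - a.2.2 * b.2.1)), by simp only [Bf]; ring, by simp only [Bf]; ring,
    by simp only [Bf]; ring⟩
  have h4 : 0 < Bf n n := by rw [h1, ha, hb]; nlinarith only [h]
  refine ⟨(√(Bf n n))⁻¹ • n, ?_, by simp [h2], by simp [h3]⟩
  rw [Bf_smul_left, Bf_smul_right, ← mul_assoc, ← mul_inv, Real.mul_self_sqrt h4.le,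
    inv_mul_cancel₀ h4.ne']

namespace Fuchs

variable {Γ : Type} [Group Γ] {Y : Fuchs Γ} {a b c d : Y.Wall} {l l' q E F p p' : V}

lemma lam (Y : Fuchs Γ) : Lam Y (WL (S := Y) ∅) := lam_WL Set.finite_empty (by simp)

lemma mem_L : l ∈ WL (S := Y) ∅ ↔ l ∈ Y.per ∨ -l ∈ Y.per := by simp only [WL, LL, Set.mem_empty_iff_false, false_and, exists_false, Set.ofPred_false, false_or, Set.mem_ofPred_eq]

lemma off (Y : Fuchs Γ) : Off (WL (S := Y) ∅) o := ⟨H2_o, fun n h => (mem_L.1 h).elim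
  (fun e => (Y.per_o n e).ne') fun e => by simpa using (Y.per_o _ e).ne'⟩

lemma cl_iff : Cl (WL (S := Y) ∅) o q ↔ H2 q ∧ ∀ a : Y.Wall, 0 ≤ Bf a.1 q :=
  and_congr_right fun _ => ⟨fun h a => h _ (mem_L.2 (Or.inl a.2)) (Y.per_o _ a.2),
    fun h n m z => (mem_L.1 m).elim (fun e => h ⟨n, e⟩) fun e => by
      have := Y.per_o _ e
      rw [Bf_neg_left] at this
      linarith⟩

lemma st (g : Γ) : Fu.St Y (WL (S := Y) ∅) o g := cl_iff.2 ⟨H2_o.smul _, fun a => by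
  rw [Bf_move']; exact (Y.per_o _ (g⁻¹ • a).2).le⟩

/-- The common perpendicular of two boundary lines. -/
structure Perp (a b : Y.Wall) (l : V) : Prop where
  ne : a ≠ b
  unit : Bf l l = 1
  fst : Bf l a.1 = 0
  snd : Bf l b.1 = 0

lemma Perp.smul (h : Perp a b l) (g : Γ) : Perp (g • a) (g • b) (Y.σ g • l) :=
  ⟨by simpa using h.ne, by simpa using h.unit, by simpa [coe_smul] using h.fst,
    by simpa [coe_smul] using h.snd⟩

lemma Perp.dt_ne (h : Perp a b l) : dt a.1 b.1 l ≠ 0 := fun z => by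
  have := dt_sq a.1 b.1 l
  rw [z, a.unit, b.unit, h.unit, Bf_comm a.1 l, Bf_comm b.1 l, h.fst, h.snd] at this
  nlinarith only [Wall.far h.ne, this]

lemma Perp.dt_eq (h : Perp a b l) (X : V) : dt a.1 b.1 X = dt a.1 b.1 l * Bf l X := by
  have := dt_rel a.1 b.1 l X l
  rw [h.fst, h.snd, h.unit] at this
  linarith

/-- The points of the chord. -/
lemma Perp.rep (h : Perp a b l) (hq : Cl (WL (S := Y) ∅) o q) (e : Bf l q = 0) :
    ∃ s t : ℝ, 0 < s ∧ 0 < t ∧ ∀ E, Bf E q = -(s * Bf E a.1 + t * Bf E b.1) := by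
  obtain ⟨s, t, v⟩ : ∃ s t : ℝ, ∀ E, Bf E q = -(s * Bf E a.1 + t * Bf E b.1) :=
    ⟨-dt b.1 l q / dt a.1 b.1 l, dt a.1 l q / dt a.1 b.1 l, fun E => by
      have := dt_rel a.1 b.1 l q E
      have := h.dt_ne
      rw [h.dt_eq q, e] at *
      field_simp
      linarith⟩
  obtain ⟨q1, q2⟩ := cl_iff.1 hq
  have e1 := v a.1; have e2 := v b.1; have e3 := v q
  rw [a.unit] at e1
  rw [b.unit, Bf_comm b.1 a.1] at e2
  have h1 := q2 a; have h2 := q2 b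
  rw [q1.1, Bf_comm q, Bf_comm q, e1, e2] at e3
  rw [e1] at h1; rw [e2] at h2
  have := Wall.far h.ne
  have k : ∀ s t : ℝ, 0 ≤ -(s + t * Bf a.1 b.1) → 0 ≤ -(s * Bf a.1 b.1 + t) → 0 ≤ s :=
    fun s t x y => le_of_mul_le_mul_right (a := Bf a.1 b.1 ^ 2 - 1)
      (by linarith only [mul_nonneg y (by linarith only [this] : 0 ≤ -Bf a.1 b.1), x]) (by nlinarith only [this])
  have s0 := k s t (by linarith) (by linarith)
  have t0 := k t s (by linarith) (by linarith)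
  refine ⟨s, t, s0.lt_of_ne ?_, t0.lt_of_ne ?_, v⟩ <;> rintro rfl <;> nlinarith only [t0, e3, s0]

lemma Perp.nomeet (h : Perp a b l) (h' : Perp c d l') (n : ¬ Lk Y.cyc a b c d)
    (hq : Cl (WL (S := Y) ∅) o q) (e : Bf l q = 0) (e' : Bf l' q = 0) : ¬ Cr l l' := by
  obtain ⟨s, t, h1, h2, v⟩ := h'.rep hq e'
  have e1 := v l
  have n : 0 ≤ Bf l c.1 * Bf l d.1 := not_lt.1 fun z => n (lk_iff.2 (by
    rw [h.dt_eq c.1, h.dt_eq d.1, mul_mul_mul_comm]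
    exact mul_neg_of_pos_of_neg (mul_self_pos.2 h.dt_ne) z))
  have z : Bf l c.1 = 0 := pow_eq_zero_iff (two_ne_zero) |>.1 (le_antisymm
    (nonpos_of_mul_nonpos_right (by
      linarith [mul_nonneg h2.le n, (by rw [e] at e1; linear_combination Bf l c.1 * e1 :
        s * Bf l c.1 ^ 2 + t * (Bf l c.1 * Bf l d.1) = 0)]) h1) (sq_nonneg _))
  have k : Perp c d l := ⟨h'.ne, h.unit, z, by
    rw [e, z] at e1; simpa [h2.ne'] using e1⟩
  have e2 := k.dt_eq l'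
  rw [h'.dt_eq l, Bf_comm l' l, mul_assoc, eq_comm, mul_eq_left₀ h'.dt_ne] at e2
  rw [Cr, sq, e2]
  exact lt_irrefl _

lemma foot (h : a ≠ b) : ∃ p, Cl (WL (S := Y) ∅) o p ∧ Bf a.1 p = 0 ∧ 0 < Bf b.1 p ∧
    ∀ l, Bf l a.1 = 0 → Bf l b.1 = 0 → Bf l p = 0 := by
  have f := Wall.far h
  obtain ⟨t, -, ht⟩ := exists_H2_of_neg (X := b.1 - Bf a.1 b.1 • a.1) (by
    simp [a.unit, b.unit, Bf_comm b.1 a.1]; nlinarith only [f])
  have v : ∀ E, Bf E (t • (b.1 - Bf a.1 b.1 • a.1)) = t * (Bf E b.1 - Bf a.1 b.1 * Bf E a.1) :=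
    fun E => by simp only [Bf_smul_right, Bf_sub_right]
  have t0 : t < 0 := by
    have := one_le_ch H2_o ht
    rw [ch, v] at this
    nlinarith only [b.pos, mul_pos_of_neg_of_neg (by linarith : Bf a.1 b.1 < 0) (neg_neg_of_pos a.pos), this]
  have h1 : Bf a.1 (t • (b.1 - Bf a.1 b.1 • a.1)) = 0 := by simp [a.unit]
  have h2 : ∀ c : Y.Wall, c ≠ a → 0 < Bf c.1 (t • (b.1 - Bf a.1 b.1 • a.1)) := fun c n => by
    have := Wall.far n
    have : Bf c.1 b.1 ≤ 1 := (eq_or_ne c b).elim (fun e => e ▸ c.unit.le) fun e => by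
      linarith [Wall.far e]
    rw [v]
    exact mul_pos_of_neg_of_neg t0 (by nlinarith)
  exact ⟨_, cl_iff.2 ⟨ht, fun c => (eq_or_ne c a).elim (fun e => e ▸ h1.ge) fun e => (h2 c e).le⟩,
    h1, h2 b h.symm, fun l x y => by simp [x, y]⟩

lemma Perp.ch (h : Perp a b l) : ∃ p p', Ch (WL (S := Y) ∅) o l a.1 b.1 p p' := by
  obtain ⟨p, p1, p2, p3, p4⟩ := foot h.ne
  obtain ⟨q, q1, q2, q3, q4⟩ := foot h.ne.symm
  exact ⟨p, q, Y.off, h.unit, mem_L.2 (.inl a.2), mem_L.2 (.inl b.2), Y.per_o _ a.2, Y.per_o _ b.2,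
    p1, q1, p4 l h.fst h.snd, q4 l h.snd h.fst, p2, q2, q3, p3⟩

/-- Every arc has a gap line that covers a curve. -/
lemma exists_gap (hE : Y.Curve E) (u : Y.Wall × Y.Wall) : ∃ z : Cv Y, Arc Γ Y.cyc u →
    ∃ l p p', ∃ A ∈ z.1, Perp u.1 u.2 l ∧ Gap Y (WL (S := Y) ∅) o l u.1.1 u.2.1 p p' A := by
  by_cases hu : Arc Γ Y.cyc u
  swap
  · exact ⟨Fu.mk hE, fun h => (hu h).elim⟩
  obtain ⟨l, l1, l2, l3⟩ := exists_perp u.1.unit u.2.unit (Wall.far hu.1)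
  have P : Perp u.1 u.2 l := ⟨hu.1, l1, l2, l3⟩
  obtain ⟨p, p', C⟩ := P.ch
  have s : Sim Y (WL (S := Y) ∅) o l := fun g hg h1 q hq e e' => h1 (C.fix Y.lam C.pl.choose_spec hg
    ((cr_or_eq l1 (P.smul g).unit hq.1 e e').resolve_left (P.nomeet (P.smul g) (hu.2 g) hq e e')))
  obtain ⟨A, G⟩ := gap_ex Y.lam C s
  obtain ⟨A', G'⟩ := gap_ex Y.lam C.flip s.neg
  by_cases hA : A ∈ WL (S := Y) ∅
  · by_cases hA' : A' ∈ WL (S := Y) ∅
    · obtain ⟨g, hg, ax⟩ := hE.ax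
      obtain ⟨γ, e⟩ := Ax.pl (S := Y) hE.ax
      exact (pants_a Y.lam G G' hA hA' hE.ax hE.simple (fun m => (mem_L.1 m).elim hE.pos hE.neg)
        (fun n m c => by simpa only [LL, Set.mem_empty_iff_false, false_and, exists_false, Set.ofPred_false] using WL_cr hE.ax m c) (cl_iff.2 ⟨e.h2 0, fun a =>
          Y.ax_core hg ax (e.h2 0) (e.on 0) a.2⟩) (e.on 0)).elim
    · exact ⟨_, fun _ => ⟨-l, p, p', A', mem_mk (curve_of G'.ax (G'.simple Y.lam) hA'),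
        ⟨hu.1, by simpa, by simpa, by simpa⟩, G'⟩⟩
  · exact ⟨_, fun _ => ⟨l, p, p', A, mem_mk (curve_of G.ax (G.simple Y.lam) hA), P, G⟩⟩

lemma mem_of_nc (hF : Y.Curve F) (C : Ch (WL (S := Y) ∅) o l a.1 b.1 p p') (n : ¬ Cr l F)
    (h : b ∈ Y.sd F) : a ∈ Y.sd F := by
  obtain ⟨δ, s, t, e, rfl, rfl, -⟩ := C.rev.par C.pl.choose_spec
  have h1 := sgn hF C.cl.1 C.mp
  have h2 := sgn hF C.cl'.1 C.mp'
  rw [mem_sd] at h
  by_contra z
  rw [not_mem_sd hF] at z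
  exact n (e.cr_of_le (Ax.unit (S := Y) hF.ax) (s := s) (t := t) (by nlinarith only [h, h2]) (by nlinarith only [h1, z]))

theorem hypC (Y : Fuchs Γ) (h : ∃ E, Y.Curve E) :
    ∃ (K : ℕ) (d : Fu.Cv Y → Fu.Cv Y → ℕ) (δ : ℕ), 2 ≤ K ∧ H71.IsDist Fu.i K d ∧
      ∀ (G : Type) [Group G] [MulAction G (Fu.Cv Y)],
        (∀ (g : G) (a b : Fu.Cv Y), Fu.i (g • a) (g • b) = Fu.i a b) → H24.Hyp G d δ := by
  obtain ⟨E, hE⟩ := h
  refine Y.hypC_of fun ⟨w, hw⟩ => ⟨Y.Wall, inferInstance, _, _, sys hE ⟨w, hw⟩ ?_⟩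
  choose z hz using exists_gap hE
  refine ⟨z, fun u hu => ?_, fun u v hu hv n => ?_⟩
  · obtain ⟨l, p, p', A, hA, P, G⟩ := hz u hu
    refine ⟨?_, fun w m => i_symm _ w ▸ G.dis Y.lam hA (fun F f n m c => ?_)
      (Set.eq_empty_of_forall_notMem ?_)⟩
    · rintro _ ⟨F, f, rfl⟩
      obtain ⟨g, hg⟩ := (z u).exists_smul hA f
      have : ¬ Cr l F := fun c => G.ncF Y.lam (st g⁻¹) (by
        rw [map_inv, ← cr_move]
        rcases hg with rfl | rfl <;> simpa using c.symm)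
      exact ⟨mem_of_nc ((z u).curve f) G.ch.rev this, mem_of_nc ((z u).curve f) G.ch this⟩
    · simpa only [LL, Set.mem_empty_iff_false, false_and, exists_false, Set.ofPred_false] using WL_cr (w.ax f) m c
    · rintro q ⟨q1, q2, F, f, -, e⟩
      obtain ⟨s, t, h1, h2, v⟩ := P.rep q1 q2
      have h3 := m _ ⟨F, f, rfl⟩
      rw [v] at e
      by_cases k : u.1 ∈ Y.sd F
      · linarith only [mul_pos h1 k, mul_pos h2 (h3.1 k), e]
      · linarith only [mul_neg_of_pos_of_neg h1 ((not_mem_sd (w.curve f)).1 k), mul_neg_of_pos_of_neg h2 ((not_mem_sd (w.curve f)).1 (mt h3.2 k)), e]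
  · obtain ⟨l, p, p', A, hA, P, G⟩ := hz u hu
    obtain ⟨l', q, q', A', hA', P', G'⟩ := hz v hv
    have h1 := G.le Y.lam hA (leP_per (.inl u.1.2) (z v)) (leP_per (.inl u.2.2) (z v))
    have h2 := G'.cnt Y.lam hA' (mt ((z v).mem_WL hA').1 id) G.ch
    have h3 : MM Y (WL (S := Y) ∅) o l l' = 0 := by
      rw [MM, Set.eq_empty_of_forall_notMem (s := {g | _}), Set.ncard_empty]
      exact fun g ⟨_, c, _, q1, q2, q3⟩ => P.nomeet (P'.smul g) (n g) q1 q2 q3 c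
    omega

end Fuchs

end Pool.Agent.MP_646035_al.MC
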