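import Pool.Agent.MP_646035_al.Mg.Cx_Model
import Pool.Agent.MP_646035_al.Cx.Defs

attribute [-instance] SMulWithZero.toSMulZeroClass Semiring.toMonoid AddQuantale.instAddLeftMono
  forall_prop_decidable NonUnitalRingHomClass.toMulHomClass RKHS.instFunLike
  Submonoid.instSMulSubtypeMem GradedMonoid.GradeZero.mulAction CommGroup.toDivisionCommMonoid
  MonTypeEquivalenceMon.monMonoid Finset.decidableDforallFinset
  ESeminormedAddCommMonoid.toAddCommMonoid Multiset.decidableDforallMultiset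
  MulActionWithZero.toMulAction NonUnitalAlgSemiHomClass.toMulHomClass NumberField.to_charZero
  Vector.instDecidableForallForallMemOfDecidablePred AddCommMonoidWithOne.toAddMonoidWithOne
  AddQuantale.instAddRightMono Array.instDecidableForallForallMemOfDecidablePred
  Option.decidableForallMem ESeminormedAddMonoid.toAddMonoid NonUnitalNonAssocRing.toAddCommGroup
  IdemSemiring.toCanonicallyOrderedAdd SemigroupWithZero.toSemigroup LieAdmissibleAlgebra.toModule
  Action.FintypeCat.instMulActionObjFiniteOf LeftPreLieAlgebra.toModule littleWedderburn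
  RightPreLieAlgebra.toModule Int.decidableLTLE Quantale.instMulRightMono
  SetLike.GradeZero.instMonoid Valued.toUniformSpace instSMulZeroClass NormedRing.toRing
  ProperSMul.toContinuousSMul LinearOrderedCommMonoidWithZero.toPosMulStrictMono
  instCoeHTCOfCoeHeadOfCoeOTC TestFunctionClass.toDFunLike Int.decidableLELE
  NonUnitalNonAssocSemiring.toAddCommMonoid Int.decidableLTLT SubsemiringClass.toSubmonoidClass
  Group.IsPerfect.subsingleton_of_isMulCommutative MulSemiringAction.toDistribMulAction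
  ContDiffMapSupportedInClass.toDFunLike continuousSub_of_discreteTopology
  SetLike.GradeZero.instAlgebraSubtypeMemOfNat Int.decidableLELT Prod.instPartialOrder
  Algebra.ofSubsemiring AddCommGroupWithOne.toAddGroupWithOne NonarchimedeanRing.toIsTopologicalRing
  Bialgebra.toAlgebra NormedCommRing.toCommRing GroupConeClass.toSubmonoidClass
  LinearOrderedCommMonoidWithZero.toIsBotZeroClass CStarAlgebra.instOrderClosedTopology
  IsTopologicalTorsor.toContinuousSMul DenselyNormedField.toNormedField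
  MulDistribMulAction.toMulAction

-- part MP_646035_al.Cx.Cover1
section

/-!
Chains of arcs, convex polygons of the affine plane, and the projective picture of a polygon with
funnels.
-/

namespace Pool.Agent.MP_646035_al.MC

open Pool.Agent.MP_4a6971_al.H66 Pool.Agent.MP_4a6971_al.H83 Set Topology Metric

variable {ι : Type}

/-- A cyclic chain of arcs. -/
structure Chain (nx : ι → ι) (α : ι → ℝ → ℂ) : Prop where
  cont : ∀ i, ContinuousOn (α i) (Icc 0 1)
  next : ∀ i, α i 1 = α (nx i) 0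
  fib : ∀ i j, ∀ t ∈ Icc (0 : ℝ) 1, ∀ t' ∈ Icc (0 : ℝ) 1, α i t = α j t' →
    (i = j ∧ t = t') ∨ (j = nx i ∧ t = 1 ∧ t' = 0) ∨ (i = nx j ∧ t = 0 ∧ t' = 1)

theorem Chain.move {nx : ι → ι} {α β : ι → ℝ → ℂ} (h : Chain nx α) (h' : Chain nx β) {i j : ι}
    {t t' : ℝ} (ht : t ∈ Icc (0 : ℝ) 1) (ht' : t' ∈ Icc (0 : ℝ) 1) (e : α i t = α j t') :
    β i t = β j t' := by
  rcases h.fib i j t ht t' ht' e with ⟨rfl, rfl⟩ | ⟨rfl, rfl, rfl⟩ | ⟨rfl, rfl, rfl⟩
  · rfl
  · exact h'.next i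
  · exact (h'.next j).symm

/-- Two chains are matched by a continuous bijection. -/
theorem Chain.exists_match [Finite ι] {nx : ι → ι} {α β : ι → ℝ → ℂ} (h : Chain nx α)
    (h' : Chain nx β) : ∃ b : ℂ → ℂ, ContinuousOn b (⋃ i, α i '' Icc 0 1) ∧
      BijOn b (⋃ i, α i '' Icc 0 1) (⋃ i, β i '' Icc 0 1) ∧
      ∀ i, ∀ t ∈ Icc (0 : ℝ) 1, b (α i t) = β i t := by
  have ex : ∀ z : ℂ, ∃ y : ℂ, ∀ i, ∀ t ∈ Icc (0 : ℝ) 1, α i t = z → y = β i t := fun z => by
    by_cases a : ∃ i, ∃ t ∈ Icc (0 : ℝ) 1, α i t = z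
    · obtain ⟨i, t, ht, rfl⟩ := a
      exact ⟨β i t, fun j t' ht' e => h.move h' ht ht' e.symm⟩
    · exact ⟨0, fun i t ht e => (a ⟨i, t, ht, e⟩).elim⟩
  choose b hb using ex
  have hb' : ∀ i, ∀ t ∈ Icc (0 : ℝ) 1, b (α i t) = β i t := fun i t ht => hb _ i t ht rfl
  refine ⟨b, ?_, ⟨?_, ?_, ?_⟩, hb'⟩
  · rw [continuousOn_iff_isClosed]
    intro C hC
    refine ⟨⋃ i, α i '' (Icc 0 1 ∩ β i ⁻¹' C), isClosed_iUnion_of_finite fun i => ?_, ?_⟩
    · have c1 : IsCompact (Icc (0 : ℝ) 1 ∩ β i ⁻¹' C) :=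
        isCompact_Icc.of_isClosed_subset
          ((h'.cont i).preimage_isClosed_of_isClosed isClosed_Icc hC) inter_subset_left
      exact (c1.image_of_continuousOn ((h.cont i).mono inter_subset_left)).isClosed
    · ext z
      simp only [mem_inter_iff, mem_preimage, mem_iUnion, mem_image]
      constructor
      · rintro ⟨a, i, t, ht, rfl⟩
        exact ⟨⟨i, t, ⟨ht, by rwa [hb' i t ht] at a⟩, rfl⟩, i, t, ht, rfl⟩
      · rintro ⟨⟨i, t, ⟨ht, a⟩, rfl⟩, c⟩
        exact ⟨by rwa [hb' i t ht], c⟩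
  · intro z hz
    obtain ⟨i, t, ht, rfl⟩ := mem_iUnion.1 hz
    exact mem_iUnion.2 ⟨i, t, ht, (hb' i t ht).symm⟩
  · intro z hz z' hz' e
    obtain ⟨i, t, ht, rfl⟩ := mem_iUnion.1 hz
    obtain ⟨j, t', ht', rfl⟩ := mem_iUnion.1 hz'
    rw [hb' i t ht, hb' j t' ht'] at e
    exact h'.move h ht ht' e
  · intro z hz
    obtain ⟨i, t, ht, rfl⟩ := mem_iUnion.1 hz
    exact ⟨α i t, mem_iUnion.2 ⟨i, t, ht, rfl⟩, hb' i t ht⟩

/-- A closed curve cut at the integers. -/
theorem chain_of_curve {n : ℕ} [NeZero n] {b : ℝ → ℂ} (hc : Continuous b) (h0 : b 0 = b n)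
    (hf : ∀ u ∈ Icc (0 : ℝ) n, ∀ v ∈ Icc (0 : ℝ) n, b u = b v →
      u = v ∨ (u = 0 ∧ v = n) ∨ (u = n ∧ v = 0)) :
    Chain (fun i : ZMod n => i + 1) fun i t => b (i.val + t) := by
  have sc : ∀ {i j : ZMod n}, j.val = i.val + 1 ∨ (i.val + 1 = n ∧ j.val = 0) → j = i + 1 := by
    intro i j h
    rw [← ZMod.natCast_zmod_val i, ← ZMod.natCast_zmod_val j]
    rcases h with h | ⟨h, h'⟩
    · rw [h, Nat.cast_succ]
    · rw [h', ← Nat.cast_succ, Nat.succ_eq_add_one, h, Nat.cast_zero, ZMod.natCast_self]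
  refine ⟨fun i => (hc.comp (by fun_prop)).continuousOn, fun i => ?_, ?_⟩
  · have hi := ZMod.val_lt i
    rcases Nat.lt_or_ge (i.val + 1) n with h | h
    · rw [← sc (Or.inl (ZMod.val_natCast_of_lt h)), ZMod.val_natCast_of_lt h]
      simp
    · have e0 : i.val + 1 = n := by omega
      rw [← sc (Or.inr ⟨e0, ZMod.val_zero⟩), ZMod.val_zero, Nat.cast_zero, add_zero, h0,
        ← Nat.cast_succ, Nat.succ_eq_add_one, e0]
  · rintro i j t ⟨t0, t1⟩ t' ⟨s0, s1⟩ h
    have hi : (i.val : ℝ) + 1 ≤ n := by exact_mod_cast ZMod.val_lt i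
    have hj : (j.val : ℝ) + 1 ≤ n := by exact_mod_cast ZMod.val_lt j
    have i0 : (0 : ℝ) ≤ i.val := Nat.cast_nonneg _
    have j0 : (0 : ℝ) ≤ j.val := Nat.cast_nonneg _
    rcases hf _ ⟨by linarith, by linarith⟩ _ ⟨by linarith, by linarith⟩ h with
      e | ⟨e, e'⟩ | ⟨e, e'⟩
    · rcases lt_trichotomy i.val j.val with a | a | a
      · have a' : (i.val : ℝ) + 1 ≤ j.val := by exact_mod_cast a
        have b : (j.val : ℝ) = i.val + 1 := by linarith only [t1, s0, e, a']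
        exact Or.inr (Or.inl ⟨sc (Or.inl (by exact_mod_cast b)), by linarith only [t1, s0, e, a'], by linarith only [t1, s0, e, a']⟩)
      · have a' : (i.val : ℝ) = j.val := by exact_mod_cast a
        exact Or.inl ⟨ZMod.val_injective _ a, by linarith only [e, a']⟩
      · have a' : (j.val : ℝ) + 1 ≤ i.val := by exact_mod_cast a
        have b : (i.val : ℝ) = j.val + 1 := by linarith only [t0, s1, e, a']
        exact Or.inr (Or.inr ⟨sc (Or.inl (by exact_mod_cast b)), by linarith only [t0, s1, e, a'], by linarith only [t0, s1, e, a']⟩)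
    · have a : (j.val : ℝ) + 1 = n := by linarith only [s1, hj, e']
      have b : (i.val : ℝ) = 0 := by linarith only [t0, e]
      exact Or.inr (Or.inr ⟨sc (Or.inr ⟨by exact_mod_cast a, by exact_mod_cast b⟩),
        by linarith only [t0, e], by linarith only [s1, hj, e']⟩)
    · have a : (i.val : ℝ) + 1 = n := by linarith
      have b : (j.val : ℝ) = 0 := by linarith only [s0, e']
      exact Or.inr (Or.inl ⟨sc (Or.inr ⟨by exact_mod_cast a, by exact_mod_cast b⟩),
        by linarith only [t1, hi, e], by linarith only [s0, e']⟩)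

/-- The form of `N` on the affine plane. -/
noncomputable def lf (N : V) (z : ℂ) : ℝ := Bf N (Klein1_L z)

theorem lf_eq (N : V) (z : ℂ) :
    lf N z = (N.1 - N.2.2) / 2 * z.re + N.2.1 * z.im - (N.1 + N.2.2) / 2 := by
  simp only [lf, Bf, Klein1_L]
  ring

@[fun_prop] theorem continuous_lf (N : V) : Continuous (lf N) := by
  rw [funext (lf_eq N)]
  fun_prop

theorem lf_line (N : V) (p q : ℂ) (t : ℝ) :
    lf N (p + t • (q - p)) = (1 - t) * lf N p + t * lf N q := by
  simp only [lf_eq, Complex.add_re, Complex.add_im, Complex.smul_re, Complex.smul_im,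
    Complex.sub_re, Complex.sub_im, smul_eq_mul]
  ring

theorem lf_dir (N : V) (z p q : ℂ) (t : ℝ) :
    lf N (z + t • (q - p)) = lf N z + t * (lf N q - lf N p) := by
  simp only [lf_eq, Complex.add_re, Complex.add_im, Complex.smul_re, Complex.smul_im,
    Complex.sub_re, Complex.sub_im, smul_eq_mul]
  ring

theorem lf_span {N : V} {p q z w : ℂ} (h : p ≠ q) (hp : lf N p = 0) (hq : lf N q = 0)
    (hz : lf N z = 0) (hw : lf N w ≠ 0) : ∃ t : ℝ, z = p + t • (q - p) := by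
  simp only [lf_eq] at hp hq hz hw
  generalize (N.1 - N.2.2) / 2 = A, N.2.1 = B, (N.1 + N.2.2) / 2 = C at *
  have h0 : (q.re - p.re) ^ 2 + (q.im - p.im) ^ 2 ≠ 0 := fun e =>
    h (Complex.ext (by nlinarith only [e])
      (by nlinarith only [e]))
  have d : (z.re - p.re) * (q.im - p.im) - (z.im - p.im) * (q.re - p.re) = 0 := by
    by_contra d
    have a : A = 0 := (mul_eq_zero.1 (by
      linear_combination (q.im - p.im) * (hz - hp) - (z.im - p.im) * (hq - hp))).resolve_right d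
    have b : B = 0 := (mul_eq_zero.1 (by
      linear_combination (z.re - p.re) * (hq - hp) - (q.re - p.re) * (hz - hp))).resolve_right d
    exact hw (by rw [a, b] at hp ⊢; linarith)
  refine ⟨((z.re - p.re) * (q.re - p.re) + (z.im - p.im) * (q.im - p.im)) /
    ((q.re - p.re) ^ 2 + (q.im - p.im) ^ 2), Complex.ext ?_ ?_⟩ <;>
    simp only [Complex.add_re, Complex.add_im, Complex.smul_re, Complex.smul_im,
      Complex.sub_re, Complex.sub_im, smul_eq_mul] <;> field_simp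
  · linear_combination (q.im - p.im) * d
  · linear_combination -(q.re - p.re) * d

/-- The region cut out by the forms `E`. -/
def Pg (E : ι → V) : Set ℂ := {z | ∀ a, 0 ≤ lf (E a) z}

theorem convex_Pg (E : ι → V) : Convex ℝ (Pg E) := by
  refine convex_iff_add_mem.2 fun p hp q hq a b ha hb e k => ?_
  have : a • p + b • q = p + b • (q - p) := by
    rw [show a = 1 - b by linarith]
    module
  rw [this, lf_line, show 1 - b = a by linarith]
  exact add_nonneg (mul_nonneg ha (hp k)) (mul_nonneg hb (hq k))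

theorem isClosed_Pg (E : ι → V) : IsClosed (Pg E) := by
  rw [Pg, ofPred_forall]
  exact isClosed_iInter fun i => isClosed_le continuous_const (continuous_lf _)

theorem Pg_exit [Finite ι] {E : ι → V} {z p q : ℂ} (hz : z ∈ Pg E) {k : ι}
    (hk : lf (E k) q < lf (E k) p) :
    ∃ t : ℝ, 0 ≤ t ∧ z + t • (q - p) ∈ Pg E ∧ ∃ a, lf (E a) (z + t • (q - p)) = 0 := by
  obtain ⟨a, ha, m⟩ := Set.exists_min_image {a | lf (E a) q < lf (E a) p}
    (fun a => lf (E a) z / (lf (E a) p - lf (E a) q)) (Set.toFinite _) ⟨k, hk⟩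
  have a0 : 0 < lf (E a) p - lf (E a) q := sub_pos.2 ha
  have t0 := div_nonneg (hz a) a0.le
  refine ⟨_, t0, fun b => ?_, a, ?_⟩ <;> rw [lf_dir]
  · by_cases hb : lf (E b) q < lf (E b) p
    · have := (le_div_iff₀ (sub_pos.2 hb)).1 (m b hb)
      linarith
    · exact add_nonneg (hz b) (mul_nonneg t0 (sub_nonneg.2 (not_lt.1 hb)))
  · field_simp
    ring

/-- A convex polygon with the sides `E` and the vertices `v` is matched with the disc. -/
theorem exists_poly_homeo [Finite ι] [Nonempty ι] (nx : ι ≃ ι) {E : ι → V} {v : ι → ℂ}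
    (h1 : ∀ a, lf (E a) (v a) = 0) (h2 : ∀ a, lf (E (nx a)) (v a) = 0)
    (h3 : ∀ a k, k ≠ a → k ≠ nx a → 0 < lf (E k) (v a)) (n1 : ∀ a, nx a ≠ a)
    (n2 : ∀ a, nx (nx a) ≠ a) {β : ι → ℝ → ℂ} (hβ : Chain nx β)
    (hs : (⋃ i, β i '' Icc 0 1) = sphere 0 1) :
    IsCompact (Pg E) ∧ ∃ h : ℂ ≃ₜ ℂ, h '' Pg E = closedBall 0 1 ∧ (∀ a, h (v a) = β a 1) ∧
      ∀ a, ∀ z ∈ Pg E, h z ∈ β a '' Icc 0 1 ↔ lf (E a) z = 0 := by
  have hv : ∀ a, v a ∈ Pg E := fun a k => by
    rcases eq_or_ne k a with rfl | x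
    · exact (h1 k).ge
    rcases eq_or_ne k (nx a) with rfl | y
    · exact (h2 a).ge
    exact (h3 a k x y).le
  let α : ι → ℝ → ℂ := fun a t => v (nx.symm a) + t • (v a - v (nx.symm a))
  have hα : ∀ a t k, lf (E k) (α a t) = (1 - t) * lf (E k) (v (nx.symm a)) + t * lf (E k) (v a) :=
    fun a t k => lf_line _ _ _ _
  have q0 : ∀ a, lf (E a) (v (nx.symm a)) = 0 := fun a => by simpa using h2 (nx.symm a)
  have q1 : ∀ a, 0 < lf (E (nx a)) (v (nx.symm a)) := fun a =>
    h3 _ _ (fun e => n2 a (by rw [e, nx.apply_symm_apply])) (by simpa using n1 a)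
  have q2 : ∀ a, 0 < lf (E (nx.symm a)) (v a) := fun a =>
    h3 _ _ (fun e => n1 a (nx.symm_apply_eq.1 e).symm) fun e => n2 a (nx.symm_apply_eq.1 e).symm
  have q3 : ∀ a, 0 < lf (E a) (v (nx a)) := fun a => h3 _ _ (n1 a).symm (n2 a).symm
  have in1 : ∀ a, ∀ t ∈ Icc (0 : ℝ) 1, α a t ∈ Pg E ∧ lf (E a) (α a t) = 0 := fun a t ht =>
    ⟨fun k => hα a t k ▸ add_nonneg (mul_nonneg (sub_nonneg.2 ht.2) (hv _ k))
      (mul_nonneg ht.1 (hv _ k)), by rw [hα, q0, h1]; ring⟩
  have in2 : ∀ a, ∀ z ∈ Pg E, lf (E a) z = 0 → z ∈ α a '' Icc 0 1 := fun a z hz e => by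
    obtain ⟨t, rfl⟩ := lf_span (p := v (nx.symm a)) (q := v a)
      (fun c => (q1 a).ne' (c ▸ h2 a)) (q0 a) (h1 a) e (q3 a).ne'
    have b1 := hz (nx a)
    have b2 := hz (nx.symm a)
    rw [lf_line, h2, mul_zero, add_zero] at b1
    rw [lf_line, h1, mul_zero, zero_add] at b2
    exact ⟨t, ⟨nonneg_of_mul_nonneg_left b2 (q2 a),
      sub_nonneg.1 (nonneg_of_mul_nonneg_left b1 (q1 a))⟩, rfl⟩
  have ac : ∀ a, Continuous (α a) := fun a => by fun_prop
  have ch : Chain nx α := by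
    refine ⟨fun a => (ac a).continuousOn, fun a => by simp [α], fun i j t ht t' ht' e => ?_⟩
    have ends : ∀ i, ∀ t ∈ Icc (0 : ℝ) 1, ∀ t' ∈ Icc (0 : ℝ) 1, α i t = α (nx i) t' →
        t = 1 ∧ t' = 0 := fun i t ht t' ht' e => by
      have a := (in1 i t ht).2
      have b := (in1 (nx i) t' ht').2
      rw [e, hα, nx.symm_apply_apply, h1, mul_zero, zero_add] at a
      rw [← e, hα, h2, mul_zero, add_zero] at b
      exact ⟨(sub_eq_zero.1 ((mul_eq_zero.1 b).resolve_right (q1 i).ne')).symm,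
        (mul_eq_zero.1 a).resolve_right (q3 i).ne'⟩
    rcases eq_or_ne i j with rfl | a
    · have := congrArg (lf (E (nx.symm i))) e
      rw [hα, hα, h1] at this
      exact Or.inl ⟨rfl, mul_right_cancel₀ (q2 i).ne' (by linarith)⟩
    rcases eq_or_ne j (nx i) with rfl | b
    · exact Or.inr (Or.inl ⟨rfl, ends i t ht t' ht' e⟩)
    rcases eq_or_ne i (nx j) with rfl | c
    · exact Or.inr (Or.inr ⟨rfl, (ends j t' ht' t ht e.symm).symm⟩)
    have d := (in1 j t' ht').2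
    have d1 := h3 i j a.symm b
    have d2 := h3 (nx.symm i) j (fun x => c (by rw [x, nx.apply_symm_apply])) (by simpa using a.symm)
    rw [← e, hα] at d
    nlinarith only [mul_nonneg ht.1 d1.le, mul_nonneg (sub_nonneg.2 ht.2) d2.le, d, d1, d2]
  have cp : IsCompact (Pg E) := by
    obtain ⟨a⟩ := ‹Nonempty ι›
    obtain ⟨R, hR⟩ := (isCompact_iUnion fun a => isCompact_Icc.image (ac a) :
      IsCompact (⋃ a, α a '' Icc 0 1)).isBounded.subset_closedBall 0
    refine (isCompact_closedBall 0 R).of_isClosed_subset (isClosed_Pg E) fun z hz => ?_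
    obtain ⟨t, t0, t1, b, t2⟩ := Pg_exit (p := v (nx.symm a)) (q := v a) hz (k := nx a)
      (by rw [h2]; exact q1 a)
    obtain ⟨u, u0, u1, c, u2⟩ := Pg_exit (p := v a) (q := v (nx.symm a)) hz (k := nx.symm a)
      (by rw [h1]; exact q2 a)
    have m1 := hR (mem_iUnion.2 ⟨b, in2 b _ t1 t2⟩)
    have m2 := hR (mem_iUnion.2 ⟨c, in2 c _ u1 u2⟩)
    rcases (add_nonneg t0 u0).eq_or_lt with e | e
    · rwa [show t = 0 by linarith, zero_smul, add_zero] at m1
    · have := convex_closedBall (0 : ℂ) R m1 m2 (div_nonneg u0 e.le) (div_nonneg t0 e.le)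
        (by field_simp; ring)
      convert this using 1
      match_scalars <;> field_simp <;> ring
  obtain ⟨c, hc⟩ : ∃ c, ∀ k, 0 < lf (E k) c := by
    have : ∀ s : Finset ι, ∃ c ∈ Pg E, ∀ k ∈ s, 0 < lf (E k) c := fun s => by
      classical
      induction s using Finset.induction_on with
      | empty => exact ⟨_, hv (Classical.arbitrary ι), by simp⟩
      | insert a s _ ih =>
        obtain ⟨c, c1, c2⟩ := ih
        refine ⟨c + (1 / 2 : ℝ) • (v (nx a) - c), fun k => ?_, fun k hk => ?_⟩ <;> rw [lf_line]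
        · linarith only [c1 k, hv (nx a) k]
        · rcases Finset.mem_insert.1 hk with rfl | hk
          · linarith [c1 k, q3 k]
          · linarith [c2 k hk, hv (nx a) k]
    have _ := Fintype.ofFinite ι
    obtain ⟨c, -, h⟩ := this Finset.univ
    exact ⟨c, fun k => h k (Finset.mem_univ k)⟩
  have it : interior (Pg E) = {z | ∀ a, 0 < lf (E a) z} := by
    refine Subset.antisymm (fun z hz a => (interior_subset hz a).lt_of_ne fun e => ?_)
      (interior_maximal (fun z hz a => (hz a).le) ?_)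
    · have k : ∀ᶠ t : ℝ in 𝓝 0, z + t • (z - c) ∈ Pg E :=
        (by fun_prop : Continuous fun t : ℝ => z + t • (z - c)).continuousAt.eventually_mem
          (by simpa using mem_interior_iff_mem_nhds.1 hz)
      obtain ⟨t, t1, t0⟩ := ((k.filter_mono nhdsWithin_le_nhds).and
        (self_mem_nhdsWithin (s := Ioi 0))).exists
      have := t1 a
      rw [lf_dir, ← e] at this
      linarith only [mul_pos t0 (hc a), this]
    · rw [ofPred_forall]
      exact isOpen_iInter_of_finite fun i => isOpen_lt continuous_const (continuous_lf _)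
  have fr : (⋃ a, α a '' Icc 0 1) = frontier (Pg E) := by
    rw [(isClosed_Pg E).frontier_eq, it]
    ext z
    simp only [mem_iUnion, mem_sdiff, mem_ofPred_eq, not_forall, not_lt]
    constructor
    · rintro ⟨a, t, ht, rfl⟩
      exact ⟨(in1 a t ht).1, a, (in1 a t ht).2.le⟩
    · rintro ⟨x, a, y⟩
      exact ⟨a, in2 a z x (le_antisymm y (x a))⟩
  obtain ⟨b, b1, b2, b3⟩ := ch.exists_match hβ
  rw [fr] at b1 b2
  rw [hs, ← frontier_closedBall (0 : ℂ) one_ne_zero] at b2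
  obtain ⟨h, k1, -, k3⟩ := exists_cone cp (convex_Pg E) ⟨c, it ▸ hc⟩ (isCompact_closedBall (0 : ℂ) 1)
    (convex_closedBall 0 1) ⟨0, by rw [interior_closedBall _ one_ne_zero]; simp⟩ b1 b2
  have sd : ∀ a, ∀ t ∈ Icc (0 : ℝ) 1, h (α a t) = β a t := fun a t ht => by
    rw [k3 (fr ▸ mem_iUnion.2 ⟨a, t, ht, rfl⟩), b3 a t ht]
  refine ⟨cp, h, k1, fun a => by simpa [α] using sd a 1 (by simp only [mem_Icc, zero_le_one, Std.le_refl, and_self]), fun a z hz => ⟨?_, fun e => ?_⟩⟩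
  · rintro ⟨t, ht, e⟩
    rw [← h.injective ((sd a t ht).trans e)]
    exact (in1 a t ht).2
  · obtain ⟨t, ht, rfl⟩ := in2 a z hz e
    exact ⟨t, ht, (sd a t ht).symm⟩

/-- The affine chart of the projective plane. -/
noncomputable def kv (P : V) : ℂ := ⟨(P.1 - P.2.2) / (P.1 + P.2.2), 2 * P.2.1 / (P.1 + P.2.2)⟩

theorem kv_coe (x : X) : kv x.1 = kl x := rfl

theorem kv_rep {P : V} (h : 0 < ch o P) : P = ch o P • Klein1_L (kv P) := by
  rw [ch_o] at h ⊢
  have h' : P.1 + P.2.2 ≠ 0 := by linarith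
  ext <;> simp only [Klein1_L, kv, Prod.smul_fst, Prod.smul_snd, smul_eq_mul] <;> field_simp <;>
    ring

theorem kv_smul {r : ℝ} (hr : r ≠ 0) (P : V) : kv (r • P) = kv P := by
  simp only [kv, Prod.smul_fst, Prod.smul_snd, smul_eq_mul]
  rw [← mul_sub, ← mul_add, mul_left_comm, mul_div_mul_left _ _ hr, mul_div_mul_left _ _ hr]

theorem kv_L (z : ℂ) : kv (Klein1_L z) = z := by
  apply Complex.ext <;> simp only [kv, Klein1_L] <;> ring

theorem ch_L (z : ℂ) : ch o (Klein1_L z) = 1 := by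
  simp only [ch_o, Klein1_L]
  ring

theorem Bf_kv {P : V} (h : 0 < ch o P) (N : V) : Bf N P = ch o P * lf N (kv P) := by
  nth_rewrite 1 [kv_rep h]
  rw [Bf_smul_right, lf]

theorem continuous_kv {A : Type*} [TopologicalSpace A] {f : A → V} (hf : Continuous f)
    (h : ∀ a, 0 < ch o (f a)) : Continuous fun a => kv (f a) := by
  have h' : ∀ a, (f a).1 + (f a).2.2 ≠ 0 := fun a => by
    have := h a
    rw [ch_o] at this
    linarith
  simp only [kv, Complex.mk_eq_add_mul_I]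
  exact (Complex.continuous_ofReal.comp (Continuous.div (by fun_prop) (by fun_prop) h')).add
    ((Complex.continuous_ofReal.comp (Continuous.div (by fun_prop) (by fun_prop) h')).mul
      continuous_const)

/-- The vectors between two lines and orthogonal to their common perpendicular. -/
theorem perp_cone {D E F y : V} (hD : Bf D D = 1) (hE : Bf E E = 1) (hF : Bf F F = 1)
    (h : Bf E F < -1) (h1 : Bf D E = 0) (h2 : Bf D F = 0) (e0 : 0 ≤ Bf E o) (f0 : 0 ≤ Bf F o)
    (y0 : Bf D y = 0) (y1 : 0 ≤ Bf E y) (y2 : 0 ≤ Bf F y) :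
    y = 0 ∨ ∃ (μ : ℝ) (x : X), 0 < μ ∧ y = μ • x.1 := by
  have c0 : 0 < Bf E F ^ 2 - 1 := by nlinarith only [h]
  have a := Klein2_expand E F D
  have b := Klein2_expand E F y
  rw [Bf_comm F D, Bf_comm E D, h1, h2, hE, hF] at a
  simp only [mul_zero, sub_zero, zero_smul, add_zero, mul_one] at a
  have a1 := congrArg (Bf D) a
  have a2 := congrArg (Bf y) a
  rw [Bf_smul_right, Bf_smul_right, hD, Bf_comm D] at a1
  rw [Bf_smul_right, Bf_smul_right, Bf_comm y D, y0, Bf_comm y] at a2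
  have a3 : Bf (Klein2_cr E F) y = 0 := by
    refine (mul_eq_zero.1 (a2.symm.trans (mul_zero _))).resolve_left fun e => ?_
    rw [e] at a1
    linarith only [c0, a1]
  rw [a3, hE, hF, zero_smul, zero_add] at b
  have b1 := congrArg (Bf y) b
  have b2 := congrArg (Bf o) b
  simp only [Bf_smul_right, Bf_add_right, Bf_comm y E, Bf_comm y F, Bf_comm o E,
    Bf_comm o F] at b1 b2
  by_cases z : Bf E y = 0 ∧ Bf F y = 0
  · refine Or.inl ((smul_eq_zero.1 (b.trans ?_)).resolve_left (by linarith only [c0]))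
    simp [z.1, z.2]
  have p : 0 < Bf E y ^ 2 + Bf F y ^ 2 := by
    by_contra! c
    exact z ⟨by nlinarith only [c],
      by nlinarith only [c]⟩
  have n : Bf y y < 0 := by
    by_contra! c
    nlinarith only [mul_nonneg c0.le c, mul_nonneg y1 y2, h, b1, p]
  have n' : Bf o y ≤ 0 := by
    by_contra! c
    nlinarith only [mul_pos c0 c, mul_nonneg y1 e0, mul_nonneg y2 f0, mul_nonneg y1 f0, mul_nonneg y2 e0, h, b2]
  obtain ⟨t, t0, ht⟩ := exists_H2_of_neg n
  have := one_le_ch H2_o ht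
  rw [ch, Bf_smul_right] at this
  have t1 : 0 < t := by nlinarith only [n', this]
  exact Or.inr ⟨t⁻¹, ⟨_, ht⟩, inv_pos.2 t1, (inv_smul_smul₀ t0 y).symm⟩

/-- The funnels of a polygon are stretched on to triangles without the apex. -/
theorem exists_proj {J : Type} [Finite J] {E : ι → V} {D : J → V} {l r : J → ι}
    (hE : ∀ k, Bf (E k) (E k) = 1) (hD : ∀ j, Bf (D j) (D j) = 1) (E0 : ∀ k, 0 ≤ Bf (E k) o)
    (D0 : ∀ j, 0 < Bf (D j) o) (DD : ∀ i j, i ≠ j → Bf (D i) (D j) < 0 ∧ Face (D i) (D j))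
    (Dl : ∀ j, Bf (D j) (E (l j)) = 0) (Dr : ∀ j, Bf (D j) (E (r j)) = 0)
    (DE : ∀ j k, k ≠ l j → k ≠ r j → Bf (D j) (E k) < 0 ∧ Face (D j) (E k))
    (lr : ∀ j, Bf (E (l j)) (E (r j)) < -1) (cp : IsCompact (Pg E))
    (core : IsCompact {x : X | (∀ k, 0 ≤ bf (E k) x) ∧ ∀ j, 0 ≤ bf (D j) x}) :
    ∃ Ψ : X → ℂ, Continuous Ψ ∧ Function.Injective Ψ ∧
      (∀ z, (∃ x, (∀ k, 0 ≤ bf (E k) x) ∧ Ψ x = z) ↔ z ∈ Pg E ∧ ∀ j, z ≠ kv (-D j)) ∧
      (∀ x, (∀ k, 0 ≤ bf (E k) x) → ∀ k, lf (E k) (Ψ x) = 0 ↔ bf (E k) x = 0) ∧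
      ∀ j, ∀ U ∈ 𝓝 (kv (-D j)), ∃ ρ, ∀ x, (∀ k, 0 ≤ bf (E k) x) → bf (D j) x ≤ ρ → Ψ x ∈ U := by
  have _ := Fintype.ofFinite J
  obtain ⟨T, Tc, T0, T1⟩ : ∃ T : X → V, Continuous T ∧ (∀ x, (∀ j, 0 ≤ bf (D j) x) → T x = x.1) ∧
      ∀ x j, bf (D j) x < 0 → ∃ σ, 1 ≤ σ ∧ σ ^ 2 = 1 + bf (D j) x ^ 2 ∧
        T x = x.1 + (bf (D j) x * (σ - 1)) • D j := by
    refine ⟨fun x => x.1 + ∑ j, (min (bf (D j) x) 0 * (√(1 + bf (D j) x ^ 2) - 1)) • D j,
      by fun_prop, fun x h => by simp only [h, inf_of_le_right, zero_mul, zero_smul, Finset.sum_const_zero, add_zero], fun x j h => ⟨√(1 + bf (D j) x ^ 2),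
        Real.one_le_sqrt.2 (by nlinarith), Real.sq_sqrt (by positivity), ?_⟩⟩
    beta_reduce
    rw [Finset.sum_eq_single j (fun i _ e => ?_) (by simp only [Finset.mem_univ, not_true_eq_false, smul_eq_zero, mul_eq_zero, inf_eq_right, IsEmpty.forall_iff]), min_eq_left h.le]
    rw [min_eq_right (by linarith [(DD i j e).2.bf x]), zero_mul, zero_smul]
  have cs : ∀ x : X, (∀ j, 0 ≤ bf (D j) x) ∨ ∃ j, bf (D j) x < 0 := fun x => by
    by_contra! c
    obtain ⟨j, hj⟩ := c.1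
    exact hj.not_ge (c.2 j)
  have pos : ∀ x, 0 < ch o (T x) := fun x => by
    have a := one_le_ch H2_o x.2
    rcases cs x with h | ⟨j, h⟩
    · rw [T0 x h]
      linarith
    · obtain ⟨σ, s1, -, e⟩ := T1 x j h
      rw [e, ch, Bf_add_right, Bf_smul_right, Bf_comm o (D j)]
      rw [ch] at a
      linarith only [mul_nonneg (mul_nonneg (neg_pos.2 h).le (sub_nonneg.2 s1)) (D0 j).le, a]
  have fun1 : ∀ x j, bf (D j) x < 0 → ∃ σ, 1 ≤ σ ∧ σ ^ 2 = 1 + bf (D j) x ^ 2 ∧
      T x = x.1 + (bf (D j) x * (σ - 1)) • D j ∧ Bf (D j) (T x) = bf (D j) x * σ ∧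
      Bf (D j) (T x) ^ 2 - Bf (T x) (T x) = σ ^ 2 := fun x j h => by
    obtain ⟨σ, s1, s2, e⟩ := T1 x j h
    refine ⟨σ, s1, s2, e, ?_, ?_⟩ <;>
      simp only [e, Bf_add_left, Bf_add_right, Bf_smul_left, Bf_smul_right, hD, x.2.1,
        Bf_comm x.1 (D j)]
    · unfold bf
      ring
    · unfold bf at *
      linear_combination -s2
  have sgn : ∀ x j, Bf (D j) (T x) < 0 ↔ bf (D j) x < 0 := fun x j => by
    refine ⟨fun h => ?_, fun h => ?_⟩
    · rcases cs x with a | ⟨i, a⟩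
      · rwa [T0 x a] at h
      · rcases eq_or_ne i j with rfl | b
        · exact a
        · obtain ⟨σ, s1, -, e⟩ := T1 x i a
          rw [e, Bf_add_right, Bf_smul_right, Bf_comm _ (D i)] at h
          change bf _ _ + _ < 0 at h
          linarith only [mul_nonneg (mul_nonneg (neg_pos.2 a).le (sub_nonneg.2 s1))
            (neg_pos.2 (DD i j b).1).le, h]
    · obtain ⟨σ, s1, -, -, e, -⟩ := fun1 x j h
      rw [e]
      nlinarith
  have mir : ∀ x, (∀ k, 0 ≤ bf (E k) x) → ∀ k, 0 ≤ Bf (E k) (T x) ∧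
      (Bf (E k) (T x) = 0 ↔ bf (E k) x = 0) := fun x hx k => by
    rcases cs x with a | ⟨j, a⟩
    · rw [T0 x a]
      exact ⟨hx k, Iff.rfl⟩
    · obtain ⟨σ, s1, -, e⟩ := T1 x j a
      rw [e, Bf_add_right, Bf_smul_right, Bf_comm _ (D j)]
      by_cases b : k = l j ∨ k = r j
      · rw [show Bf (D j) (E k) = 0 by rcases b with rfl | rfl; exacts [Dl j, Dr j], mul_zero,
          add_zero]
        exact ⟨hx k, Iff.rfl⟩
      · obtain ⟨c, d⟩ := DE j k (not_or.1 b).1 (not_or.1 b).2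
        have c1 := d.bf x
        have c2 := mul_nonneg (mul_nonneg (neg_pos.2 a).le (sub_nonneg.2 s1)) (neg_pos.2 c).le
        change 0 ≤ bf _ _ + _ ∧ (bf _ _ + _ = 0 ↔ _)
        exact ⟨by linarith, fun h => by linarith, fun h => by linarith⟩
  have tri : ∀ z ∈ Pg E, ∀ j, z ≠ kv (-D j) → ∃ (μ : ℝ) (y : X), 0 < μ ∧
      Klein1_L z - lf (D j) z • D j = μ • y.1 := fun z hz j h => by
    refine (perp_cone (hD j) (hE _) (hE _) (lr j) (Dl j) (Dr j) (E0 _) (E0 _) ?_ ?_ ?_).resolve_left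
      fun e => h ?_
    · simp [hD, lf]
    · simpa only [lf, Bf_sub_right, Bf_smul_right, Bf_comm _ (D j), Dl, mul_zero, sub_zero] using hz (l j)
    · simpa only [lf, Bf_sub_right, Bf_smul_right, Bf_comm _ (D j), Dr, mul_zero, sub_zero] using hz (r j)
    · have e' : Klein1_L z = (-lf (D j) z) • -D j := by rw [sub_eq_zero.1 e, neg_smul_neg]
      rw [← kv_L z, e', kv_smul]
      intro c
      have := ch_L z
      rw [e', c, zero_smul] at this
      simp [ch, Bf] at this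
  have inK : ∀ x, (∀ k, 0 ≤ bf (E k) x) → kv (T x) ∈ Pg E := fun x hx k =>
    nonneg_of_mul_nonneg_right (Bf_kv (pos x) (E k) ▸ (mir x hx k).1) (pos x)
  refine ⟨fun x => kv (T x), continuous_kv Tc pos, fun x x' (h : kv _ = kv _) => ?_,
    fun z => ⟨?_, fun ⟨hz, h⟩ => ?_⟩, fun x hx k => ?_, fun j U hU => ?_⟩
  · obtain ⟨a, a0, e⟩ : ∃ a : ℝ, 0 < a ∧ T x = a • T x' :=
      ⟨ch o (T x) / ch o (T x'), div_pos (pos x) (pos x'), by
        nth_rewrite 1 [kv_rep (pos x)]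
        nth_rewrite 2 [kv_rep (pos x')]
        rw [smul_smul, div_mul_cancel₀ _ (pos x').ne', h]⟩
    have sg : ∀ j, bf (D j) x < 0 ↔ bf (D j) x' < 0 := fun j => by
      rw [← sgn, ← sgn, e, Bf_smul_right, neg_iff_of_pos a0]
    rcases cs x with b | ⟨j, b⟩
    · rw [T0 x b, T0 x' fun j => not_lt.1 fun c => (b j).not_gt ((sg j).2 c)] at e
      exact Klein1_eq e
    · obtain ⟨σ, s1, s2, s3, s4, s5⟩ := fun1 x j b
      obtain ⟨τ, t1, t2, t3, t4, t5⟩ := fun1 x' j ((sg j).1 b)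
      rw [e] at s4 s5
      simp only [Bf_smul_left, Bf_smul_right] at s4 s5
      have u1 : σ = a * τ := (pow_left_inj₀ (by linarith only [s1]) (by positivity) two_ne_zero).1
        (by linear_combination a ^ 2 * t5 - s5)
      have u2 : bf (D j) x = bf (D j) x' := mul_right_cancel₀ (b := a * τ) (by positivity)
        (by linear_combination a * t4 - s4 - bf (D j) x * u1)
      have u3 : σ = τ := (pow_left_inj₀ (by linarith) (by linarith) two_ne_zero).1
        (by rw [s2, t2, u2])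
      have u4 : a = 1 := mul_right_cancel₀ (b := τ) (by positivity) (by linarith only [u1, u3])
      rw [s3, t3, u4, one_smul, u2, u3] at e
      exact Subtype.ext (add_right_cancel e)
  · rintro ⟨x, hx, rfl⟩
    refine ⟨inK x hx, fun j h => ?_⟩
    have p : 0 < ch o (-D j) := by simpa [ch, Bf_comm o] using D0 j
    obtain ⟨a, a0, e⟩ : ∃ a : ℝ, 0 < a ∧ T x = a • -D j :=
      ⟨ch o (T x) / ch o (-D j), div_pos (pos x) p, by
        nth_rewrite 1 [kv_rep (pos x)]
        nth_rewrite 2 [kv_rep p]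
        rw [smul_smul, div_mul_cancel₀ _ p.ne', ← h]⟩
    obtain ⟨σ, s1, -, -, -, s5⟩ := fun1 x j ((sgn x j).1 (by simp [e, hD, a0]))
    simp only [e, Bf_smul_left, Bf_smul_right, Bf_neg_left, Bf_neg_right, hD] at s5
    nlinarith only [s1, s5]
  · by_cases c : ∀ j, 0 ≤ lf (D j) z
    · have k : ∀ (N : V) (x : X), 0 ≤ bf N x ↔ 0 ≤ lf N (kl x) := fun N x => by
        have := one_pos.trans_le (one_le_ch H2_o x.2)
        rw [bf, Bf_kv this, mul_nonneg_iff_of_pos_left this, kv_coe]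
      have b : z ∈ Metric.ball (0 : ℂ) 1 := by
        have o1 : (∀ k, 0 ≤ bf (E k) oX) ∧ ∀ j, 0 ≤ bf (D j) oX := ⟨E0, fun j => (D0 j).le⟩
        rcases isPreconnected_iff_subset_of_disjoint.1
          ((convex_Pg E).inter (convex_Pg D)).isPreconnected _ _ isOpen_ball
          (core.image kl_emb.continuous).isClosed.isOpen_compl
          (fun w _ => (em _).elim (fun ⟨x, _, e⟩ => Or.inl (e ▸ Klein1_mem x)) Or.inr)
          (eq_empty_of_forall_notMem fun w ⟨w1, w2, w3⟩ => by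
            obtain ⟨x, rfl⟩ := range_kl.ge w2
            exact w3 ⟨x, ⟨fun a => (k _ x).2 (w1.1 a), fun a => (k _ x).2 (w1.2 a)⟩, rfl⟩)
          with d | d
        · exact d ⟨hz, c⟩
        · exact absurd ⟨oX, o1, rfl⟩
            (d ⟨fun a => (k _ _).1 (o1.1 a), fun a => (k _ _).1 (o1.2 a)⟩)
      obtain ⟨x, rfl⟩ := range_kl.ge b
      exact ⟨x, fun a => (k _ x).2 (hz a), congrArg kv (T0 x fun j => (k _ x).2 (c j))⟩
    · obtain ⟨j, c⟩ := not_forall.1 c
      obtain ⟨μ, y, m0, e⟩ := tri z hz j (h j)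
      have y0 : bf (D j) y = 0 := by
        have := congrArg (Bf (D j)) e
        simp only [Bf_sub_right, Bf_smul_right, hD, mul_one, lf, sub_self] at this
        exact (mul_eq_zero.1 this.symm).resolve_left m0.ne'
      obtain ⟨ρ, r0, hρ⟩ : ∃ ρ, ρ < 0 ∧ lf (D j) z = μ * ρ :=
        ⟨lf (D j) z / μ, div_neg_of_neg_of_pos (not_le.1 c) m0, by field_simp⟩
      have hx := Klein_H2 (M := ρ • D j) (v := y) (by simpa [bf, r0.ne] using y0)
      simp only [Bf_smul_left, Bf_smul_right, hD, mul_one] at hx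
      have x0 : bf (D j) ⟨_, hx⟩ = ρ := by simpa only [bf, Bf_add_right, Bf_smul_right, hD, mul_one, add_eq_right, mul_eq_zero] using Or.inr y0
      have s0 : 0 < √(1 + ρ * ρ) := Real.sqrt_pos.2 (by nlinarith only [])
      refine ⟨⟨_, hx⟩, fun k => ?_, ?_⟩
      · by_cases b : k = l j ∨ k = r j
        · have b' : Bf (E k) (D j) = 0 := by
            rw [Bf_comm]
            rcases b with rfl | rfl; exacts [Dl j, Dr j]
          have := congrArg (Bf (E k)) e
          simp only [Bf_sub_right, Bf_smul_right, b', mul_zero, sub_zero] at this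
          simp only [bf, Bf_add_right, Bf_smul_right, b', mul_zero, add_zero]
          exact mul_nonneg s0.le (nonneg_of_mul_nonneg_right (this ▸ hz k) m0)
        · linarith [(DE j k (not_or.1 b).1 (not_or.1 b).2).2.bf ⟨_, hx⟩]
      · obtain ⟨σ, s1, s2, s3⟩ := T1 _ j (x0.trans_lt r0)
        rw [x0] at s2 s3
        obtain rfl : σ = √(1 + ρ * ρ) := by
          rw [← sq, ← s2, Real.sqrt_sq (by linarith)]
        have : T ⟨_, hx⟩ = (√(1 + ρ * ρ) / μ) • Klein1_L z := by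
          rw [s3, sub_eq_iff_eq_add.1 e, hρ]
          match_scalars <;> field_simp
          ring
        beta_reduce
        rw [this, kv_smul (by positivity), kv_L]
  · rw [← (mir x hx k).2, Bf_kv (pos x), mul_eq_zero, or_iff_right (pos x).ne']
  · have q : ∀ z ∈ Pg E \ interior U, lf (D j) z ^ 2 - Bf (Klein1_L z) (Klein1_L z) ≠ 0 :=
      fun z hz => by
        obtain ⟨μ, y, m0, e⟩ := tri z hz.1 j fun c => hz.2 (c ▸ mem_interior_iff_mem_nhds.2 hU)
        have := congrArg (fun P => Bf P P) e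
        simp only [Bf_sub_left, Bf_sub_right, Bf_smul_left, Bf_smul_right, hD, y.2.1,
          Bf_comm _ (D j)] at this
        unfold lf at this ⊢
        linarith only [mul_pos m0 m0, this]
    obtain ⟨B, hB⟩ := (cp.diff isOpen_interior).bddAbove_image
      (f := fun z => lf (D j) z ^ 2 / (lf (D j) z ^ 2 - Bf (Klein1_L z) (Klein1_L z)))
      (ContinuousOn.div (by fun_prop) (by unfold Bf Klein1_L; fun_prop) q)
    refine ⟨-(|B| + 1), fun x hx h => by_contra fun c => ?_⟩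
    have b := hB ⟨_, ⟨inK x hx, fun d => c (interior_subset d)⟩, rfl⟩
    have b0 := abs_nonneg B
    obtain ⟨σ, s1, -, -, s4, s5⟩ := fun1 x j (by linarith only [h, b0])
    have p := pos x
    have e1 := Bf_kv p (D j)
    have e2 : Bf (T x) (T x) = ch o (T x) ^ 2 * Bf (Klein1_L (kv (T x))) (Klein1_L (kv (T x))) := by
      nth_rewrite 1 2 [kv_rep p]
      simp only [Bf_smul_left, Bf_smul_right]
      ring
    beta_reduce at b
    rw [← mul_div_mul_left _ _ (pow_pos p 2).ne', mul_sub, ← mul_pow, ← e1, ← e2, s5, s4, mul_pow,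
      mul_div_cancel_right₀ _ (by positivity)] at b
    nlinarith only [le_abs_self B, h, b]

end Pool.Agent.MP_646035_al.MC

end

-- part MP_646035_al.Cx.Cover
section

/-!
The quotient of the plane by the group of the model is the closed surface without the centres of
the holes.
-/

namespace Pool.Agent.MP_646035_al.MC

open Pool.Agent.MP_4a6971_al Pool.Agent.MP_4a6971_al.H66 Pool.Agent.MP_4a6971_al.H83
  Pool.Agent.MP_4a6971_al.Mcg Set Topology Metric

variable {g : ℕ} {ι : Type}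

theorem Face.smul {N N' : V} (h : Face N N') (f : Isom) : Face (f • N) (f • N') := fun P hP => by
  rw [Bf_move, Bf_move]
  exact h _ (hP.smul _)

theorem Face.not_neg {N E : V} (h : Face N E) (hE : Bf E E = 1) : ¬ Face (-N) E := fun h' => by
  obtain ⟨-, z, -, -, hz, -⟩ := Klein2_exists hE
  linarith [h.bf z, h'.bf z, bf_neg N z]

theorem isClosed_half (E : ι → V) : IsClosed {x | ∀ k, 0 ≤ bf (E k) x} := by
  rw [ofPred_forall]
  exact isClosed_iInter fun i => isClosed_le continuous_const (continuous_bf _)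

/-- The domain is the Dirichlet domain of the centre. -/
theorem dirichlet {Y : Poly g} {A : Set (I g)} {x : X} (hx : x ∈ DA Y A) {w : W g}
    (hw : w ∈ WA A) : cd oX x ≤ cd (Y.ρ w • oX) x := by
  induction hn : (cs g).length w using Nat.strong_induction_on generalizing w with
  | _ n ih =>
  by_cases h1 : w = 1
  · simp only [h1, map_one, one_smul, Std.le_refl]
  obtain ⟨v, hv, j, hj, rfl, hl⟩ := exists_desc hw h1
  refine (ih _ (by omega) hv rfl).trans ?_
  have a := mul_nonneg Y.h_pos.le (tits_WA hx hv hj (by omega))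
  simp only [Klein_cd, map_mul, mul_smul, coe_smul, Y.ρ_s, smul_sub, isom_smul, bf, Bf_sub_left,
    Bf_smul_left, oX, Y.cen] at a ⊢
  linarith only [a]

namespace Lay

variable {L : Lay g} {nx : ι ≃ ι} {μ : ι → I g}

/-- `μ` lists the mirror sides in their cyclic order. -/
structure Enum (L : Lay g) (nx : ι ≃ ι) (μ : ι → I g) : Prop where
  inj : Function.Injective μ
  mem : ∀ k, k ∈ L.A ↔ ∃ u, μ u = k
  step : ∀ u, μ (nx u) = μ u + 1 ∨ (μ u, μ (nx u)) ∈ L.G
  gap : ∀ p ∈ L.G, ∃ u, p = (μ u, μ (nx u))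
  n1 : ∀ u, nx u ≠ u
  n2 : ∀ u, nx (nx u) ≠ u

theorem dl_neg (Y : Poly g) {p : I g × I g} (h : p ∈ L.G) {k : I g} (hk : k ∈ L.A) (h1 : k ≠ p.1)
    (h2 : k ≠ p.2) : Bf (dl Y p) (Y.e k) < 0 := by
  rcases (far' Y h).side (Y := Y) h1 h2 with a | a
  · linarith [a.1]
  · exact absurd a.2 ((dl_mirror h hk h1 h2).not_neg (Y.unit k))

/-- The fundamental domain is a disc without one boundary point for every gap. -/
theorem Enum.quarter [Finite ι] (h : L.Enum nx μ) (Y : Poly g) {β : ι → ℝ → ℂ} (hβ : Chain nx β)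
    (hs : (⋃ i, β i '' Icc 0 1) = sphere 0 1) :
    ∃ Ψ : X → ℂ, Continuous Ψ ∧ Function.Injective Ψ ∧
      (∀ z, (∃ x ∈ DA Y L.A, Ψ x = z) ↔
        z ∈ closedBall (0 : ℂ) 1 ∧ ∀ u, (μ u, μ (nx u)) ∈ L.G → z ≠ β u 1) ∧
      (∀ x ∈ DA Y L.A, ∀ u, Ψ x ∈ β u '' Icc 0 1 ↔ bf (Y.e (μ u)) x = 0) ∧
      ∀ u, (μ u, μ (nx u)) ∈ L.G → ∀ U ∈ 𝓝 (β u 1), ∃ ρ, ∀ x ∈ DA Y L.A,
        bf (dl Y (μ u, μ (nx u))) x ≤ ρ → Ψ x ∈ U := by
  have : Nonempty ι := ((h.mem _).1 L.m0).elim fun u _ => ⟨u⟩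
  have mem : ∀ u, μ u ∈ L.A := fun u => (h.mem _).2 ⟨u, rfl⟩
  have ho : ∀ N, Bf (L.c Y • N) o = bf N (L.v0 Y) := fun N => by
    rw [← L.c_v0 Y, Bf_isom]
    rfl
  have D0 : ∀ p ∈ L.G, 0 < Bf (L.c Y • dl Y p) o := fun p hp =>
    ho _ ▸ per0_vt (adj_succ _) L.m0 L.m1 (dl_mem hp)
  have da : ∀ x, x ∈ DA Y L.A ↔ ∀ u, 0 ≤ bf (L.c Y • Y.e (μ u)) (L.c Y • x) := fun x => by
    simp only [bf_smul]
    exact ⟨fun a u => a _ (mem u), fun a k hk => ((h.mem k).1 hk).elim fun u e => e ▸ a u⟩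
  have vx : ∀ u, ∃ P : V, 0 < ch o P ∧ Bf (L.c Y • Y.e (μ u)) P = 0 ∧
      Bf (L.c Y • Y.e (μ (nx u))) P = 0 ∧
      (∀ k, k ≠ u → k ≠ nx u → 0 < Bf (L.c Y • Y.e (μ k)) P) ∧
      ((μ u, μ (nx u)) ∈ L.G → P = -(L.c Y • dl Y (μ u, μ (nx u)))) := fun u => by
    by_cases a : (μ u, μ (nx u)) ∈ L.G
    · refine ⟨_, ?_, ?_, ?_, fun k b c => ?_, fun _ => rfl⟩
      · simpa [ch, Bf_comm o] using D0 _ a
      · simpa [Bf_comm (Y.e _)] using (far' Y a).fst
      · simpa [Bf_comm (Y.e _)] using (far' Y a).snd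
      · simpa [Bf_comm (Y.e _)] using dl_neg Y a (mem k) (h.inj.ne b) (h.inj.ne c)
    · have e := (h.step u).resolve_right a
      refine ⟨(L.c Y • vt Y (μ u) (μ u + 1)).1, H2_o.fut _ (Subtype.prop _), ?_, ?_,
        fun k b c => ?_, fun b => absurd b a⟩ <;> rw [coe_smul, Bf_isom]
      · exact (vt_spec (adj_succ _)).1
      · exact e ▸ (vt_spec (adj_succ _)).2
      · exact vt_pos (adj_succ _) (h.inj.ne b) (e ▸ h.inj.ne c)
  choose P p0 p1 p2 p3 p4 using vx
  obtain ⟨cp, f, f1, f2, f3⟩ := exists_poly_homeo nx (E := fun u => L.c Y • Y.e (μ u))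
    (v := fun u => kv (P u))
    (fun u => (mul_eq_zero.1 ((Bf_kv (p0 u) _).symm.trans (p1 u))).resolve_left (p0 u).ne')
    (fun u => (mul_eq_zero.1 ((Bf_kv (p0 u) _).symm.trans (p2 u))).resolve_left (p0 u).ne')
    (fun u k a b => (mul_pos_iff_of_pos_left (p0 u)).1 (Bf_kv (p0 u) _ ▸ p3 u k a b)) h.n1 h.n2 hβ hs
  obtain ⟨Ψ, c1, c2, c3, c4, c5⟩ := exists_proj (J := {u // (μ u, μ (nx u)) ∈ L.G})
    (E := fun u => L.c Y • Y.e (μ u)) (D := fun j => L.c Y • dl Y (μ j.1, μ (nx j.1)))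
    (l := fun j => j.1) (r := fun j => nx j.1) (fun k => by simp [Y.unit])
    (fun j => by simpa using (far' Y j.2).unit)
    (fun k => ho _ ▸ Geo1_vt_mem (adj_succ _) _) (fun j => D0 _ j.2)
    (fun i j e => by
      have a := dl_dl (Y := Y) i.2 j.2 fun b => e (Subtype.ext (h.inj (congrArg Prod.fst b)))
      refine ⟨?_, a.smul _⟩
      rw [Bf_isom]
      refine (per0_far (dl_mem i.2) (dl_mem j.2) fun b => ?_).trans (by norm_num)
      obtain ⟨-, z, -, -, hz, -⟩ := Klein2_exists ((far' Y j.2).unit (Y := Y))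
      simpa [b, hz] using a.bf z)
    (fun j => by simpa using (far' Y j.2).fst) (fun j => by simpa using (far' Y j.2).snd)
    (fun j k a b => ⟨by simpa using dl_neg Y j.2 (mem k) (h.inj.ne a) (h.inj.ne b),
      (dl_mirror j.2 (mem k) (h.inj.ne a) (h.inj.ne b)).smul _⟩)
    (fun j => by
      have a := far' Y j.2
      simpa using Y.far _ _ a.1 a.2.1 a.2.2.1) cp
    (by
      refine ((isCompact_Chm (Y := Y)).image (continuous_const_smul (L.c Y))).of_isClosed_subset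
        (IsClosed.inter ?_ ?_) fun x hx => ⟨(L.c Y)⁻¹ • x, fun k => ?_, smul_inv_smul _ _⟩
      · exact isClosed_half _
      · exact isClosed_half _
      by_cases a : k ∈ L.A
      · obtain ⟨u, rfl⟩ := (h.mem k).1 a
        exact bf_inv _ _ _ ▸ hx.1 u
      · obtain ⟨p, hp, b⟩ := L.cov k a
        obtain ⟨u, rfl⟩ := h.gap p hp
        have := hx.2 ⟨u, hp⟩
        rw [← bf_inv] at this
        linarith [(dl_cap (Y := Y) hp b).bf ((L.c Y)⁻¹ • x), bf_neg (dl Y (μ u, μ (nx u)))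
          ((L.c Y)⁻¹ • x)])
  have c6 : ∀ u (a : (μ u, μ (nx u)) ∈ L.G), f (kv (-(L.c Y • dl Y (μ u, μ (nx u))))) = β u 1 :=
    fun u a => p4 u a ▸ f2 u
  refine ⟨fun x => f (Ψ (L.c Y • x)), f.continuous.comp (c1.comp (continuous_const_smul _)),
    f.injective.comp (c2.comp (MulAction.injective _)), fun z => ⟨?_, fun ⟨a, b⟩ => ?_⟩,
    fun x hx u => ?_, fun u a U hU => ?_⟩
  · rintro ⟨x, hx, rfl⟩
    obtain ⟨a, b⟩ := (c3 _).1 ⟨_, (da x).1 hx, rfl⟩
    exact ⟨f1 ▸ ⟨_, a, rfl⟩, fun u e c => b ⟨u, e⟩ (f.injective (c.trans (c6 u e).symm))⟩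
  · obtain ⟨y, hy, rfl⟩ := f1.ge a
    obtain ⟨x, hx, rfl⟩ := (c3 y).2 ⟨hy, fun j e => b j.1 j.2 (e ▸ c6 j.1 j.2)⟩
    exact ⟨(L.c Y)⁻¹ • x, (da _).2 (by rwa [smul_inv_smul]), by simp only [smul_inv_smul]⟩
  · rw [f3 u _ ((c3 _).1 ⟨_, (da x).1 hx, rfl⟩).1, c4 _ ((da x).1 hx), bf_smul]
  · obtain ⟨ρ, b⟩ := c5 ⟨u, a⟩ _ (f.continuous.continuousAt.preimage_mem_nhds (c6 u a ▸ hU))
    exact ⟨ρ, fun x hx e => b _ ((da x).1 hx) (by rwa [bf_smul])⟩

/-- Four copies of the fundamental domain are glued to the surface without the centres. -/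
theorem Enum.ends [Finite ι] (h : L.Enum nx μ) (Y : Poly g) {S : Type} [TopologicalSpace S]
    {σ : Multiplicative (ZMod 2 × ZMod 2) →* (S ≃ₜ S)} {Φ : ℂ → S} {β : ι → ℝ → ℂ}
    (hΦ : ContinuousOn Φ (closedBall 0 1)) (hβ : Chain nx β)
    (hs : (⋃ i, β i '' Icc 0 1) = sphere 0 1)
    (hsur : ∀ y, ∃ κ, ∃ z ∈ closedBall (0 : ℂ) 1, σ κ (Φ z) = y)
    (hfix : ∀ u, ∀ t ∈ Icc (0 : ℝ) 1, σ (colr (μ u)) (Φ (β u t)) = Φ (β u t))
    (hfib : ∀ κ, ∀ z ∈ closedBall (0 : ℂ) 1, ∀ z' ∈ closedBall (0 : ℂ) 1, σ κ (Φ z) = Φ z' →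
      z = z' ∧ κ ∈ Subgroup.closure {c | ∃ u, z ∈ β u '' Icc 0 1 ∧ c = colr (μ u)})
    {m : ℕ} {a : Fin m → ι} {w : Fin m → W g} (hw : ∀ i, w i ∈ WA L.A)
    (hG : ∀ i, (μ (a i), μ (nx (a i))) ∈ L.G)
    (all : ∀ u, (μ u, μ (nx u)) ∈ L.G → ∀ κ, ∃ i, a i = u ∧
      ∃ v ∈ WA {μ u, μ (nx u)}, κ = cls g (w i) * cls g v)
    (uniq : ∀ i j, a i = a j → ∀ v ∈ WA {μ (a i), μ (nx (a i))},
      cls g (w i) = cls g (w j) * cls g v → i = j) : Nonempty (Ends (L.fuchs Y) S m) := by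
  obtain ⟨Ψ, c1, c2, c3, c4, c5⟩ := h.quarter Y hβ hs
  have hm : ∀ x ∈ DA Y L.A, Ψ x ∈ closedBall (0 : ℂ) 1 := fun x hx => ((c3 _).1 ⟨x, hx, rfl⟩).1
  have hb : ∀ u, β u 1 ∈ closedBall (0 : ℂ) 1 := fun u =>
    sphere_subset_closedBall (hs ▸ mem_iUnion.2 ⟨u, 1, by simp only [mem_Icc, zero_le_one, Std.le_refl, and_self], rfl⟩)
  let Bz : ℂ → Set (I g) := fun z => {k | ∃ u, μ u = k ∧ z ∈ β u '' Icc 0 1}
  have B1 : ∀ x ∈ DA Y L.A, Bz (Ψ x) = {k | k ∈ L.A ∧ bf (Y.e k) x = 0} := fun x hx => by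
    ext k
    exact ⟨fun ⟨u, e, b⟩ => e ▸ ⟨(h.mem _).2 ⟨u, rfl⟩, (c4 x hx u).1 b⟩,
      fun ⟨e, b⟩ => ((h.mem k).1 e).imp fun u e => ⟨e, (c4 x hx u).2 (e ▸ b)⟩⟩
  have B2 : ∀ u, Bz (β u 1) = {μ u, μ (nx u)} := fun u => by
    ext k
    refine ⟨fun ⟨u', e, t, ht, b⟩ => ?_, ?_⟩
    · rcases hβ.fib _ _ 1 (by simp only [mem_Icc, zero_le_one, Std.le_refl, and_self]) t ht b.symm with c | c | c
      · exact Or.inl (c.1 ▸ e.symm)
      · exact Or.inr (c.1 ▸ e.symm)
      · exact absurd c.2.1 one_ne_zero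
    · rintro (rfl | rfl)
      · exact ⟨u, rfl, 1, by simp only [mem_Icc, zero_le_one, Std.le_refl, and_self], rfl⟩
      · exact ⟨_, rfl, 0, by simp only [mem_Icc, Std.le_refl, zero_le_one, and_self], (hβ.next u).symm⟩
  have fx : ∀ z, ∀ v ∈ WA (Bz z), σ (cls g v) (Φ z) = Φ z := fun z v hv => by
    induction hv using Subgroup.closure_induction with
    | mem c hc =>
      obtain ⟨_, ⟨u, rfl, t, ht, rfl⟩, rfl⟩ := hc
      exact hfix u t ht
    | one => simp only [map_one, Homeomorph.one_apply]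
    | mul c d _ _ hc hd => rw [map_mul, map_mul, Homeomorph.mul_apply, hd, hc]
    | inv c _ hc =>
      rw [map_inv, map_inv]
      exact (σ (cls g c)).symm_apply_eq.2 hc.symm
  have fb : ∀ κ κ', ∀ z ∈ closedBall (0 : ℂ) 1, ∀ z' ∈ closedBall (0 : ℂ) 1,
      σ κ (Φ z) = σ κ' (Φ z') → z = z' ∧ ∃ v ∈ WA (Bz z), κ = κ' * cls g v :=
    fun κ κ' z hz z' hz' e => by
      obtain ⟨e1, e2⟩ := hfib (κ'⁻¹ * κ) z hz z' hz' (by
        rw [map_mul, Homeomorph.mul_apply, e, map_inv]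
        exact (σ κ').symm_apply_apply _)
      obtain ⟨v, hv, e3⟩ : κ'⁻¹ * κ ∈ (WA (Bz z)).map (cls g) := by
        rw [WA, MonoidHom.map_closure]
        refine Subgroup.closure_mono ?_ e2
        rintro _ ⟨u, b, rfl⟩
        exact ⟨_, ⟨_, ⟨u, rfl, b⟩, rfl⟩, rfl⟩
      exact ⟨e1, v, hv, by rw [e3, mul_inv_cancel_left]⟩
  choose q q1 q2 using cover_WA Y L.A
  obtain ⟨π, hπ⟩ : ∃ π : X → S, ∀ u ∈ WA L.A, ∀ y ∈ DA Y L.A,
      π (Y.ρ u • y) = σ (cls g u) (Φ (Ψ y)) := by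
    refine ⟨fun x => σ (cls g (q x)⁻¹) (Φ (Ψ (Y.ρ (q x) • x))), fun u hu y hy => ?_⟩
    have a := q2 (Y.ρ u • y)
    have a' := q1 (Y.ρ u • y)
    dsimp only
    generalize q (Y.ρ u • y) = v at a a' ⊢
    rw [← mul_smul, ← map_mul] at a ⊢
    obtain ⟨b, c⟩ := fix_WA hy (mul_mem a' hu) a
    rw [b]
    nth_rewrite 1 [← fx _ _ (B1 y hy ▸ c)]
    rw [← Homeomorph.mul_apply, ← map_mul, ← map_mul, inv_mul_cancel_left]
  have dc : ∀ x, ∃ u ∈ WA L.A, ∃ y ∈ DA Y L.A, x = L.c Y • Y.ρ u • y := fun x =>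
    ⟨(q _)⁻¹, inv_mem (q1 _), _, q2 ((L.c Y)⁻¹ • x), by rw [map_inv, inv_smul_smul, smul_inv_smul]⟩
  have cont : Continuous π := by
    refine LocallyFinite.continuous (f := fun u : WA L.A => {x | Y.ρ u • x ∈ DA Y L.A})
      (fun x => ?_) (eq_univ_of_forall fun x => mem_iUnion.2 ⟨⟨q x, q1 x⟩, q2 x⟩)
      (fun u => IsClosed.preimage (continuous_const_smul _) ?_) fun u => ?_
    · refine ⟨{y | cd oX y < cd oX x + 1}, (isOpen_lt (by fun_prop) continuous_const).mem_nhds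
        (lt_add_one (cd oX x)), ((Y.proper_o (2 * (cd oX x + 1) * (cd oX x + 1))).preimage
          Subtype.val_injective.injOn).subset ?_⟩
      rintro u ⟨y, b, (c : cd oX y < _)⟩
      have d := dirichlet b u.2
      have e := cd_tri oX (Y.ρ u • y) (Y.ρ u • oX)
      rw [cd_smul] at d e
      rw [cd_comm y, cd_comm (Y.ρ u • y)] at e
      have := one_le_cd oX y
      have := one_le_cd oX (Y.ρ u • y)
      change cd oX (Y.ρ u • oX) ≤ _
      nlinarith
    · simpa only [Subtype.forall, DA] using isClosed_half fun k : L.A => Y.e k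
    · refine ((σ (cls g u.1⁻¹)).continuous.comp_continuousOn (hΦ.comp
        (c1.comp (continuous_const_smul (Y.ρ u))).continuousOn fun x hx => hm _ hx)).congr
        fun x hx => ?_
      have := hπ u.1⁻¹ (inv_mem u.2) _ hx
      rwa [map_inv, inv_smul_smul] at this
  have sur : ∀ κ, ∃ v ∈ WA L.A, cls g v = κ := fun κ => by
    have key : ∀ (e : ZMod 2) (κ : Multiplicative (ZMod 2 × ZMod 2)), κ = 1 ∨
        κ = Multiplicative.ofAdd (1 + e, e) ∨ κ = Multiplicative.ofAdd (1 + (e + 1), e + 1) ∨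
        κ = Multiplicative.ofAdd (1 + e, e) * Multiplicative.ofAdd (1 + (e + 1), e + 1) := by
      decide
    rcases key (par L.i0) κ with e | e | e | e
    · exact ⟨1, one_mem _, by rw [e, map_one]⟩
    · exact ⟨_, s_mem_WA L.m0, by rw [e, cls_s]⟩
    · exact ⟨_, s_mem_WA L.m1, by rw [e, cls_s, par_succ]⟩
    · exact ⟨_, mul_mem (s_mem_WA L.m0) (s_mem_WA L.m1), by rw [e, map_mul, cls_s, cls_s, par_succ]⟩
  refine ⟨⟨fun i => σ (cls g (w i)) (Φ (β (a i) 1)), fun i j e => ?_, fun x => π ((L.c Y)⁻¹ • x),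
    cont.comp (continuous_const_smul _), fun y => ⟨?_, fun e => ?_⟩, fun x x' => ⟨fun e => ?_, ?_⟩,
    fun i => L.c Y • Y.ρ (w i) • dl Y (μ (a i), μ (nx (a i))),
    fun i => ⟨_, ⟨_, hw i, _, hG i, rfl⟩, rfl⟩, ?_, fun i U hU => ?_⟩⟩
  · obtain ⟨e1, v, hv, e2⟩ := fb _ _ _ (hb _) _ (hb _) e
    refine uniq i j ?_ v (B2 _ ▸ hv) e2
    rcases hβ.fib _ _ 1 (by simp only [mem_Icc, zero_le_one, Std.le_refl, and_self]) 1 (by simp only [mem_Icc, zero_le_one, Std.le_refl, and_self]) e1 with c | c | c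
    · exact c.1
    · exact absurd c.2.2 one_ne_zero
    · exact absurd c.2.1 one_ne_zero
  · rintro ⟨x, rfl⟩ i e
    obtain ⟨u, hu, y, hy, rfl⟩ := dc x
    rw [inv_smul_smul, hπ u hu y hy] at e
    exact ((c3 _).1 ⟨y, hy, rfl⟩).2 _ (hG i) (fb _ _ _ (hm y hy) _ (hb _) e).1
  · obtain ⟨κ, z, hz, rfl⟩ := hsur y
    obtain ⟨x, hx, rfl⟩ := (c3 z).2 ⟨hz, fun u b c => by
      obtain ⟨i, rfl, v, hv, rfl⟩ := all u b κ
      exact e i (by rw [map_mul, Homeomorph.mul_apply, c, fx _ _ (B2 _ ▸ hv)])⟩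
    obtain ⟨v, hv, rfl⟩ := sur κ
    exact ⟨L.c Y • Y.ρ v • x, by rw [inv_smul_smul, hπ v hv x hx]⟩
  · obtain ⟨u, hu, y, hy, rfl⟩ := dc x
    obtain ⟨u', hu', y', hy', rfl⟩ := dc x'
    rw [inv_smul_smul, inv_smul_smul, hπ u hu y hy, hπ u' hu' y' hy'] at e
    obtain ⟨e1, v, hv, e2⟩ := fb _ _ _ (hm y hy) _ (hm y' hy') e
    obtain rfl := c2 e1
    rw [B1 y hy] at hv
    have v1 : v ∈ WA L.A := WA_mono (fun k hk => hk.1) hv
    have v2 : Y.ρ v • y = y := Subtype.ext (WA_fix (fun k hk => hk.2) hv)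
    refine ⟨⟨⟨u * v⁻¹ * u'⁻¹, ?_⟩, mul_mem (mul_mem hu (inv_mem v1)) (inv_mem hu')⟩, ?_⟩
    · rw [MonoidHom.mem_ker, map_mul, map_mul, map_inv, map_inv, e2]
      simp
    · rw [fuchs_σ, σ_c, Y.σ_apply]
      simp only [map_mul, map_inv, mul_smul, inv_smul_smul, inv_smul_eq_iff.2 v2.symm]
  · rintro ⟨γ, rfl⟩
    obtain ⟨u, hu, y, hy, rfl⟩ := dc x'
    rw [fuchs_σ, σ_c, inv_smul_smul, inv_smul_smul, Y.σ_apply, ← mul_smul, ← map_mul,
      hπ (γ.1.1 * u) (mul_mem γ.2 hu) y hy, hπ _ hu y hy, map_mul, γ.1.2, one_mul]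
  · rintro _ ⟨_, ⟨u, hu, p, hp, rfl⟩, rfl⟩
    obtain ⟨b, rfl⟩ := h.gap p hp
    obtain ⟨i, rfl, v, hv, e⟩ := all b hp (cls g u)
    refine ⟨i, ⟨⟨u * v⁻¹ * (w i)⁻¹, ?_⟩,
      mul_mem (mul_mem hu (inv_mem (pair_le hp hv))) (inv_mem (hw i))⟩, ?_⟩
    · rw [MonoidHom.mem_ker, map_mul, map_mul, map_inv, map_inv, e]
      simp
    · rw [fuchs_σ, σ_c, Y.σ_apply]
      simp only [map_mul, map_inv, mul_smul, inv_smul_smul,
        inv_smul_eq_iff.2 ((far' Y hp).fix hv).symm]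
  · have k : ∀ᶠ z in 𝓝[closedBall 0 1] β (a i) 1, ∀ κ, σ κ (Φ (β (a i) 1)) =
        σ (cls g (w i)) (Φ (β (a i) 1)) → σ κ (Φ z) ∈ U := Filter.eventually_all.2 fun κ => by
      refine Filter.eventually_imp_distrib_left.2 fun e => ?_
      exact ((σ κ).continuous.continuousAt.comp_continuousWithinAt (hΦ _ (hb _))).eventually_mem
        (show U ∈ 𝓝 (σ κ (Φ _)) from e ▸ hU)
    obtain ⟨ρ, b⟩ := c5 _ (hG i) _ (eventually_nhdsWithin_iff.1 k)
    refine ⟨min ρ 0, fun x hx => ?_⟩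
    rw [← bf_inv, ← bf_inv, le_min_iff] at hx
    obtain ⟨u, hu, u1, u2, -⟩ := fold (hG i) hx.2
    have := hπ (w i * u⁻¹) (mul_mem (hw i) (inv_mem (pair_le (hG i) hu))) _ u1
    rw [map_mul, map_inv, mul_smul, inv_smul_smul, smul_inv_smul] at this
    rw [this]
    refine b _ u1 (u2 ▸ hx.1) (hm _ u1) _ ?_
    rw [map_mul, map_mul, Homeomorph.mul_apply, fx _ _ (B2 _ ▸ inv_mem hu)]

end Lay

/-- The model of the closed surface with the side `0` cut into `k + 1` arcs. -/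
theorem exists_model_cut (g k : ℕ) : ∃ β : ZMod (k + 2 * g + 2) → ℝ → ℂ,
    Chain (Equiv.addRight 1) β ∧ (⋃ i, β i '' Icc 0 1) = sphere 0 1 ∧
    (∀ u, ∀ t ∈ Icc (0 : ℝ) 1, β u t ∈ Hyper_al g (u.val - k : ℕ) '' Icc 0 1) ∧
    ∀ i, ∀ t ∈ Icc (0 : ℝ) 1, ∃ u, ((u.val - k : ℕ) : I g) = i ∧ Hyper_al g i t ∈ β u '' Icc 0 1 := by
  have k0 : (0 : ℝ) ≤ k := Nat.cast_nonneg k
  have g0 : (0 : ℝ) ≤ g := Nat.cast_nonneg g
  let φ : ℝ → ℝ := fun x => max (x / (k + 1)) (x - k)
  have mono : StrictMono φ := fun a b h =>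
    max_lt_max (div_lt_div_of_pos_right h (by linarith)) (by linarith)
  have lo : ∀ x : ℝ, x ≤ k + 1 → φ x = x / (k + 1) := fun x h =>
    max_eq_left (by rw [le_div_iff₀ (by linarith)]; nlinarith only [h])
  have hi : ∀ x : ℝ, k + 1 ≤ x → φ x = x - k := fun x h =>
    max_eq_right (by rw [div_le_iff₀ (by linarith)]; nlinarith only [h])
  have f0 : φ 0 = 0 := by rw [lo 0 (by linarith), zero_div]
  have f1 : φ (k + 2 * g + 2 : ℕ) = 2 * g + 2 := by
    push_cast
    rw [hi _ (by linarith)]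
    ring
  have k2 : ∀ i : I g, ∀ t ∈ Icc (0 : ℝ) 1, ∃ u : ZMod (k + 2 * g + 2), ((u.val - k : ℕ) : I g) = i ∧
      Hyper_al g i t ∈ (fun t => Hyper_b g (φ (u.val + t))) '' Icc 0 1 := fun i t ht => by
    have := ZMod.val_lt i
    rcases Nat.eq_zero_or_pos i.val with a | a
    · have b : ((min ⌊t * (k + 1)⌋₊ k : ℕ) : ZMod (k + 2 * g + 2)).val = _ :=
        ZMod.val_natCast_of_lt (by omega)
      have c : 0 ≤ t * (k + 1) := mul_nonneg ht.1 (by linarith only [])
      have d : t * (k + 1) ≤ k + 1 := by nlinarith only [ht.2]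
      refine ⟨_, by rw [b, Nat.sub_eq_zero_of_le (min_le_right _ _), ← a, ZMod.natCast_zmod_val],
        t * (k + 1) - (min ⌊t * (k + 1)⌋₊ k : ℕ), ⟨?_, ?_⟩, ?_⟩
      · rw [Nat.cast_min]
        linarith only [min_le_left (⌊t * (k + 1)⌋₊ : ℝ) k, Nat.floor_le c]
      · rw [Nat.cast_min, sub_le_iff_le_add, add_min]
        exact le_min (by linarith only [Nat.lt_floor_add_one (t * (k + 1))]) (by linarith only [d])
      · beta_reduce
        rw [b, add_sub_cancel, lo _ d, Hyper_al, a, mul_div_cancel_right₀ _ (by linarith only []),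
          Nat.cast_zero, zero_add]
    · have b : ((i.val + k : ℕ) : ZMod (k + 2 * g + 2)).val = _ := ZMod.val_natCast_of_lt (by omega)
      have c : (1 : ℝ) ≤ i.val := by exact_mod_cast a
      refine ⟨_, by rw [b, Nat.add_sub_cancel, ZMod.natCast_zmod_val], t, ht, ?_⟩
      beta_reduce
      rw [b, Nat.cast_add, hi _ (by linarith only [ht.1, c]), Hyper_al]
      congr 1
      ring
  refine ⟨fun u t => Hyper_b g (φ (u.val + t)), chain_of_curve (b := fun x => Hyper_b g (φ x))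
    ((Hyper_b_cont g).comp (by fun_prop)) (by rw [f0, f1, Hyper_b_zero, Hyper_b_top])
    fun u hu v hv e => ?_, ?_, fun u t ht => ?_, k2⟩
  · rcases Hyper_b_inj g ⟨f0 ▸ mono.monotone hu.1, f1 ▸ mono.monotone hu.2⟩
      ⟨f0 ▸ mono.monotone hv.1, f1 ▸ mono.monotone hv.2⟩ e with a | a | a
    · exact Or.inl (mono.injective a)
    · exact Or.inr (Or.inl ⟨mono.injective (a.1.trans f0.symm), mono.injective (a.2.trans f1.symm)⟩)
    · exact Or.inr (Or.inr ⟨mono.injective (a.1.trans f1.symm), mono.injective (a.2.trans f0.symm)⟩)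
  · ext z
    simp only [mem_iUnion, mem_sphere_iff_norm, sub_zero]
    refine ⟨fun ⟨i, t, _, e⟩ => e ▸ Hyper_b_norm g _, fun hz => ?_⟩
    obtain ⟨i, t, ht, rfl⟩ := Hyper_side g hz
    exact (k2 i t ht).imp fun _ => And.right
  · have := ZMod.val_lt u
    have u0 : (0 : ℝ) ≤ u.val := Nat.cast_nonneg _
    refine ⟨φ (u.val + t) - (u.val - k : ℕ), ?_, by
      rw [Hyper_al, ZMod.val_natCast_of_lt (by omega), add_sub_cancel]⟩
    rcases le_or_gt u.val k with a | a
    · have b : (u.val : ℝ) ≤ k := by exact_mod_cast a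
      rw [Nat.sub_eq_zero_of_le a, Nat.cast_zero, sub_zero, lo _ (by linarith only [ht.2, b])]
      exact ⟨div_nonneg (by linarith only [ht.1]) (by linarith only []),
        (div_le_one (by linarith only [])).2 (by linarith only [ht.2, b])⟩
    · have b : (k : ℝ) + 1 ≤ u.val := by exact_mod_cast a
      rw [Nat.cast_sub a.le, hi _ (by linarith only [ht.1, b])]
      exact ⟨by linarith only [ht.1], by linarith only [ht.2]⟩

/-- The mirror sides of the layout in their cyclic order. -/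
def layE (g m : ℕ) (u : ZMod (m / 2 + 2 * g + 2)) : I (g + m) :=
  (if u.val ≤ m / 2 then 4 * u.val else u.val + 3 * (m / 2) : ℕ)

theorem layE_val {g m : ℕ} (u : ZMod (m / 2 + 2 * g + 2)) :
    (u.val ≤ m / 2 ∧ (layE g m u).val = 4 * u.val) ∨
      (m / 2 < u.val ∧ (layE g m u).val = u.val + 3 * (m / 2)) := by
  have := ZMod.val_lt u
  rw [layE, ZMod.val_natCast_of_lt (by split_ifs <;> omega)]
  split_ifs <;> omega

/-- The next element. -/
def nxt (n : ℕ) : ZMod (n + 2) ≃ ZMod (n + 2) := Equiv.addRight 1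

theorem succ_val {n : ℕ} (u : ZMod (n + 2)) :
    (u.val ≤ n ∧ (nxt n u).val = u.val + 1) ∨ (u.val = n + 1 ∧ (nxt n u).val = 0) := by
  have a := ZMod.val_lt u
  have : Fact (1 < n + 2) := ⟨by omega⟩
  rw [show nxt n u = u + 1 from rfl, ZMod.val_add, ZMod.val_one]
  rcases lt_or_ge (u.val + 1) (n + 2) with h | h
  · exact Or.inl ⟨by omega, Nat.mod_eq_of_lt h⟩
  · exact Or.inr ⟨by omega, by rw [show u.val + 1 = n + 2 by omega, Nat.mod_self]⟩

theorem lay_enum {g m : ℕ} (h : 3 ≤ 2 * g + m) :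
    (lay g m h).Enum (nxt _) (layE g m) where
  inj u v e := by
    have := congrArg ZMod.val e
    have := layE_val u
    have := layE_val v
    exact ZMod.val_injective _ (by omega)
  mem k := by
    have := ZMod.val_lt k
    rw [lay_A, layA, mem_ofPred_eq]
    refine ⟨fun a => ?_, fun ⟨u, e⟩ => ?_⟩
    · have b : ((if k.val ≤ 4 * (m / 2) then k.val / 4 else k.val - 3 * (m / 2) : ℕ) :
          ZMod (m / 2 + 2 * g + 2)).val = _ := ZMod.val_natCast_of_lt (by split_ifs <;> omega)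
      generalize ((if k.val ≤ 4 * (m / 2) then k.val / 4 else k.val - 3 * (m / 2) : ℕ) :
          ZMod (m / 2 + 2 * g + 2)) = u at b
      have := layE_val u
      exact ⟨u, ZMod.val_injective _ (by split_ifs at b <;> omega)⟩
    · have := layE_val u
      have := ZMod.val_lt u
      rw [← e]
      omega
  step u := by
    have := layE_val u
    have := layE_val (nxt _ u)
    have := succ_val u
    rw [(eq_add_iff' (by omega) _ _).2.1, lay_G, layG, mem_ofPred_eq]
    dsimp only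
    by_cases a : u.val < m / 2
    · exact Or.inr (Or.inl ⟨u.val, by omega⟩)
    · have : ∀ {A B C : Prop}, A ∨ C → A ∨ B ∨ C := by tauto
      exact this (by omega)
  gap := by
    rintro p (⟨t, a, b, c⟩ | ⟨a, b, c⟩)
    · have d : ((t : ℕ) : ZMod (m / 2 + 2 * g + 2)).val = _ := ZMod.val_natCast_of_lt (by omega)
      generalize ((t : ℕ) : ZMod (m / 2 + 2 * g + 2)) = u at d
      have := layE_val u
      have := layE_val (nxt _ u)
      have := succ_val u
      refine ⟨u, Prod.ext (ZMod.val_injective _ ?_) (ZMod.val_injective _ ?_)⟩ <;> dsimp only <;>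
        omega
    · have d : ((m / 2 + 2 * g + 1 : ℕ) : ZMod (m / 2 + 2 * g + 2)).val = _ :=
        ZMod.val_natCast_of_lt (by omega)
      generalize ((m / 2 + 2 * g + 1 : ℕ) : ZMod (m / 2 + 2 * g + 2)) = u at d
      have := layE_val u
      have := layE_val (nxt _ u)
      have := succ_val u
      refine ⟨u, Prod.ext (ZMod.val_injective _ ?_) (ZMod.val_injective _ ?_)⟩ <;> dsimp only <;>
        omega
  n1 u e := by
    have := congrArg ZMod.val e
    have := succ_val u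
    omega
  n2 u e := by
    have := congrArg ZMod.val e
    have := succ_val u
    have := succ_val (nxt _ u)
    omega

theorem cls_s_val (i : I g) {e : ℕ} (h : i.val % 2 = e % 2) :
    cls g (s i) = Multiplicative.ofAdd (1 + (e : ZMod 2), (e : ZMod 2)) := by
  rw [← (ZMod.natCast_eq_natCast_iff' _ _ 2).2 h]
  exact Hyper_colr i

/-- The quotient of the plane by the group of the layout is the surface of genus `g` without `m`
points. -/
theorem lay_ends {g m : ℕ} (h : 3 ≤ 2 * g + m) (Y : Poly (g + m)) :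
    Nonempty (Ends ((lay g m h).fuchs Y) (Surface g) m) := by
  obtain ⟨β, b1, b2, b3, b4⟩ := exists_model_cut g (m / 2)
  have col : ∀ u, colr (layE g m u) = colr ((u.val - m / 2 : ℕ) : I g) := fun u => by
    have := layE_val u
    have := ZMod.val_lt u
    rw [Hyper_colr (g := g), ZMod.val_natCast_of_lt (by omega)]
    exact cls_s_val _ (by omega)
  have o1 : ((4 * (m / 2) + 1 : ℕ) : I (g + m)).val = _ := ZMod.val_natCast_of_lt (by omega)
  have o2 := cls_s_val _ (e := 1) (by omega : ((4 * (m / 2) + 1 : ℕ) : I (g + m)).val % 2 = 1 % 2)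
  have av : ∀ i : Fin m, ((if i.val < 2 * (m / 2) then i.val / 2 else m / 2 + 2 * g + 1 : ℕ) :
      ZMod (m / 2 + 2 * g + 2)).val = _ := fun i => ZMod.val_natCast_of_lt (by split_ifs <;> omega)
  refine (lay_enum h).ends Y (σ := Hyper_sig g) (Hyper_Phi_cont g) b1 b2 (Hyper_surj g)
    (fun u t ht => ?_) (fun κ z hz z' hz' e => ?_)
    (a := fun i => (if i.val < 2 * (m / 2) then i.val / 2 else m / 2 + 2 * g + 1 : ℕ))
    (w := fun i => if i.val % 2 = 1 then s (4 * (m / 2) + 1 : ℕ) else 1) (fun i => ?_) (fun i => ?_)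
    (fun u hu κ => ?_) fun i j e v hv e' => ?_
  · obtain ⟨t', ht', e⟩ := b3 u t ht
    rw [col, ← e]
    exact Hyper_fix g _ t' ht'
  · refine (Hyper_fibre g κ z hz z' hz' e).imp id fun a => Subgroup.closure_mono ?_ a
    rintro _ ⟨i, ⟨t, ht, rfl⟩, rfl⟩
    exact (b4 i t ht).imp fun u c => ⟨c.2, by rw [col, c.1]⟩
  · split_ifs
    · exact s_mem_WA (Or.inr (by omega))
    · exact one_mem _
  · have a := av i
    generalize ((if i.val < 2 * (m / 2) then i.val / 2 else m / 2 + 2 * g + 1 : ℕ) :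
      ZMod (m / 2 + 2 * g + 2)) = u at a ⊢
    have := layE_val u
    have := layE_val (nxt _ u)
    have := succ_val u
    have := i.2
    rw [lay_G, layG, mem_ofPred_eq]
    dsimp only
    split_ifs at a
    · exact Or.inl ⟨u.val, by omega⟩
    · exact Or.inr (by omega)
  · have := layE_val u
    have := layE_val (nxt _ u)
    have := succ_val u
    have m1 : s (layE g m u) ∈ WA {layE g m u, layE g m (nxt _ u)} := s_mem_WA (by simp)
    have m2 : s (layE g m (nxt _ u)) ∈ WA {layE g m u, layE g m (nxt _ u)} := s_mem_WA (by simp)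
    rcases hu with ⟨t, a, b, c⟩ | ⟨a, b, c⟩ <;> dsimp only at b c
    · have d := cls_s_val (layE g m u) (e := 0) (by omega)
      have k : ∀ κ : Multiplicative (ZMod 2 × ZMod 2), ∀ x y, x = Multiplicative.ofAdd
          (1 + ((0 : ℕ) : ZMod 2), ((0 : ℕ) : ZMod 2)) → y = Multiplicative.ofAdd
          (1 + ((1 : ℕ) : ZMod 2), ((1 : ℕ) : ZMod 2)) →
          (κ = 1 * 1 ∨ κ = 1 * x) ∨ κ = y * 1 ∨ κ = y * x := by
        rintro κ _ _ rfl rfl
        revert κ
        decide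
      rcases k κ _ _ d o2 with e | e
      · refine ⟨⟨2 * t, by omega⟩, ZMod.val_injective _ ((av _).trans ?_), ?_⟩
        · dsimp only
          split_ifs <;> omega
        · rw [if_neg (by dsimp only; omega), map_one]
          exact e.elim (fun e => ⟨1, one_mem _, by rwa [map_one]⟩) fun e => ⟨_, m1, e⟩
      · refine ⟨⟨2 * t + 1, by omega⟩, ZMod.val_injective _ ((av _).trans ?_), ?_⟩
        · dsimp only
          split_ifs <;> omega
        · rw [if_pos (by dsimp only; omega)]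
          exact e.elim (fun e => ⟨1, one_mem _, by rwa [map_one]⟩) fun e => ⟨_, m1, e⟩
    · have d := cls_s_val (layE g m u) (e := 1) (by omega)
      have d' := cls_s_val (layE g m (nxt _ u)) (e := 0) (by omega)
      have k : ∀ κ : Multiplicative (ZMod 2 × ZMod 2), ∀ x y, x = Multiplicative.ofAdd
          (1 + ((0 : ℕ) : ZMod 2), ((0 : ℕ) : ZMod 2)) → y = Multiplicative.ofAdd
          (1 + ((1 : ℕ) : ZMod 2), ((1 : ℕ) : ZMod 2)) →
          κ = 1 ∨ κ = x ∨ κ = y ∨ κ = y * x := by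
        rintro κ _ _ rfl rfl
        revert κ
        decide
      refine ⟨⟨2 * (m / 2), by omega⟩, ZMod.val_injective _ ((av _).trans ?_), ?_⟩
      · dsimp only
        split_ifs <;> omega
      · rw [if_neg (by dsimp only; omega), map_one]
        simp only [one_mul]
        rcases k κ _ _ d' d with e | e | e | e
        exacts [⟨1, one_mem _, by rwa [map_one]⟩, ⟨_, m2, e⟩, ⟨_, m1, e⟩,
          ⟨_, mul_mem m1 m2, by rwa [map_mul]⟩]
  · have a := av i
    have a' := av j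
    rw [← e] at a'
    generalize ((if i.val < 2 * (m / 2) then i.val / 2 else m / 2 + 2 * g + 1 : ℕ) :
      ZMod (m / 2 + 2 * g + 2)) = u at a a' hv
    have := i.2
    have := j.2
    by_contra ne
    replace ne : i.val ≠ j.val := fun c => ne (Fin.ext c)
    have b : u.val < m / 2 ∧ i.val / 2 = j.val / 2 := by split_ifs at a a' <;> omega
    have := layE_val u
    have := layE_val (nxt _ u)
    have := succ_val u
    have c : (cls _ v).toAdd.2 = 0 := by
      clear e'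
      induction hv using Subgroup.closure_induction with
      | mem c hc =>
        obtain ⟨_, rfl | rfl, rfl⟩ := hc
        · rw [cls_s_val _ (e := 0) (by omega)]
          rfl
        · rw [cls_s_val _ (e := 0) (by omega)]
          rfl
      | one => simp
      | mul c d _ _ hc hd => simp [hc, hd]
      | inv c _ hc => simp only [map_inv, toAdd_inv, Prod.snd_neg, hc, neg_zero]
    have d := congrArg (fun x => x.toAdd.2) e'
    simp only [toAdd_mul, Prod.snd_add, c, add_zero] at d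
    split_ifs at d
    · omega
    · rw [o2, map_one] at d
      exact absurd d (by decide)
    · rw [o2, map_one] at d
      exact absurd d (by decide)
    · omega

end Pool.Agent.MP_646035_al.MC

end
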