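import Mathlib
import Pool.Agent.MP_646035_al.MC.Iface

attribute [-instance] Prod.instSMul DivisionCommMonoid.toDivisionMonoid Prod.mulAction instCoeTCOfCoe
  MonTypeEquivalenceMon.monMonoid NonUnitalRingHomClass.toMulHomClass
  IdemSemiring.toCanonicallyOrderedAdd RKHS.instFunLike littleWedderburn
  MonoidWithZero.toMulZeroOneClass IsOrderedMonoid.toMulLeftMono instDistribOfSemiring
  NumberField.to_charZero SubsemiringClass.toCommSemiring GroupConeClass.toSubmonoidClass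

-- part MP_646035_al.EN.Stmt
section

/-! The notions in the statements of block A. -/

namespace EN

open Matrix

/-- `g` and `h` have the same trace in all `n`-dimensional representations in characteristic 0. -/
def TrEq {G : Type} [Group G] (n : ℕ) (g h : G) : Prop :=
  ∀ (K : Type) [Field K] [CharZero K] (r : G →* GL (Fin n) K),
    trace (r g : Matrix (Fin n) (Fin n) K) = trace (r h : Matrix (Fin n) (Fin n) K)

namespace TrEq
variable {G : Type} [Group G] {n : ℕ} {g h k : G}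

theorem refl (n : ℕ) (g : G) : TrEq n g g := fun _ _ _ _ => rfl

theorem symm (e : TrEq n g h) : TrEq n h g := fun K _ _ r => (e K r).symm

theorem trans (e : TrEq n g h) (e' : TrEq n h k) : TrEq n g k :=
  fun K _ _ r => (e K r).trans (e' K r)

theorem map {G' : Type} [Group G'] (e : TrEq n g h) (f : G →* G') : TrEq n (f g) (f h) :=
  fun K _ _ r => e K (r.comp f)

theorem conj (n : ℕ) (c g : G) : TrEq n (c * g * c⁻¹) g := fun K _ _ r => by
  rw [map_mul, map_mul, map_inv, Units.val_mul, Units.val_mul, trace_units_conj]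

end TrEq

/-- Automorphisms fixing every `n`-dimensional character in characteristic zero. -/
def TrK (G : Type) [Group G] (n : ℕ) : Subgroup (MulAut G) where
  carrier := {f | ∀ g, TrEq n (f g) g}
  mul_mem' := fun {_ f'} h h' g => (h (f' g)).trans (h' g)
  one_mem' := TrEq.refl n
  inv_mem' := fun {f} h g => by simpa using (h (f⁻¹ g)).symm

theorem mem_TrK {G : Type} [Group G] {n : ℕ} {f : MulAut G} :
    f ∈ TrK G n ↔ ∀ g, TrEq n (f g) g := Iff.rfl

instance TrK.normal (G : Type) [Group G] (n : ℕ) : (TrK G n).Normal where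
  conj_mem f h c g := by simpa only [MulAut.mul_apply, MulAut.inv_apply, MulEquiv.toMonoidHom_eq_coe, MonoidHom.coe_coe, MulEquiv.apply_symm_apply] using (h (c⁻¹ g)).map c.toMonoidHom

theorem conj_mem_TrK (G : Type) [Group G] (n : ℕ) (c : G) : MulAut.conj c ∈ TrK G n :=
  TrEq.conj n c

/-- Equational Noetherianity modulo a subgroup. -/
def ENmod {H : Type} [Group H] (T : Subgroup H) : Prop :=
  ∀ (k : ℕ) (f : ℕ → FreeGroup (Fin k) →* H), ∃ m, ∀ W : Finset (FreeGroup (Fin k)),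
    ∃ m2 > m, ∀ w ∈ W, f m2 w ∈ T → f m w ∈ T

end EN

end

-- part MP_646035_al.MC.Trace
section

/-!
Traces of isometries: finitely many conjugacy classes of bounded trace.
-/

namespace Pool.Agent.MP_646035_al.MC

open Pool.Agent.MP_4a6971_al.H66 Real

/-- The trace of an isometry as a linear map. -/
noncomputable def trI (u : Isom) : ℝ := LinearMap.trace ℝ V (u.1 : V →ₗ[ℝ] V)

theorem trI_conj (w u : Isom) : trI (w * u * w⁻¹) = trI u :=
  LinearMap.trace_conj' (u.1 : V →ₗ[ℝ] V) w.1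

theorem trI_dil (t : ℝ) : trI (dil t) = 1 + (exp (-t) + exp t) := by
  have h : ((dil t).1 : V →ₗ[ℝ] V) = (exp (-t) • LinearMap.id).prodMap
      (LinearMap.id.prodMap (exp t • LinearMap.id)) :=
    LinearMap.ext fun Q => (dil_smul t Q).trans (by simp [mul_comm])
  rw [trI, h, LinearMap.trace_prodMap', LinearMap.trace_prodMap']
  simp only [map_smul, LinearMap.trace_id, Module.finrank_self, Nat.cast_one, smul_eq_mul, mul_one]
  ring

theorem trI_fr {u f : Isom} {t : ℝ} (h : Fr u f t) : trI u = 1 + (exp (-t) + exp t) := by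
  rw [← trI_dil, ← trI_conj f]
  congr 1
  exact isom_ext fun P => by rw [mul_smul, mul_smul, h.one, smul_inv_smul]

theorem ch_fr {u f : Isom} {t : ℝ} (h : Fr u f t) :
    1 + 2 * ch (f⁻¹ • o) (u • f⁻¹ • o) = trI u := by
  rw [trI_fr h, ← ch_isom f, h.one, smul_inv_smul, ch_o, dil_smul]
  simp only [o]
  ring

theorem trI_inv {u : Isom} (h : Hyp u) : trI u⁻¹ = trI u := by
  obtain ⟨f, t, ht, rfl⟩ := h
  have e : ∀ t, trI (f⁻¹ * dil t * f) = 1 + (exp (-t) + exp t) := fun t => by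
    simpa only [inv_inv, trI_dil] using trI_conj f⁻¹ (dil t)
  rw [show (f⁻¹ * dil t * f)⁻¹ = f⁻¹ * dil (-t) * f by rw [dil_neg]; group, e, e, neg_neg,
    add_comm (exp t)]

variable {Γ : Type} [Group Γ]

theorem trI_of_trEq (σ : Γ →* Isom) {g h : Γ} (e : EN.TrEq 3 g h) : trI (σ g) = trI (σ h) := by
  let b : Module.Basis (Fin 3) ℝ V := Module.finBasisOfFinrankEq ℝ V (by simp)
  let r : Γ →* Matrix (Fin 3) (Fin 3) ℝ := (LinearMap.toMatrixAlgEquiv b).toMonoidHom.comp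
    (LinearEquiv.automorphismGroup.toLinearMapMonoidHom.comp (Isom.subtype.comp σ))
  have := e ℝ r.toHomUnits
  rw [trI, trI, LinearMap.trace_eq_matrix_trace ℝ b, LinearMap.trace_eq_matrix_trace ℝ b]
  exact this

/-- Finitely many classes of bounded trace, given that the axes meet a cocompact set. -/
theorem finite_conj_of (σ : Γ →* Isom) (hyp : ∀ γ, γ ≠ 1 → Hyp (σ γ))
    (proper : ∀ R, {γ | ch o (σ γ • o) ≤ R}.Finite) {R : ℝ}
    (core : ∀ γ f t, Fr (σ γ) f t → ∃ δ, ch (f⁻¹ • o) (σ δ • o) ≤ R) (L : ℝ) :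
    ∃ T : Set Γ, T.Finite ∧ ∀ γ, trI (σ γ) ≤ L → ∃ δ, δ⁻¹ * γ * δ ∈ T := by
  refine ⟨insert 1 _, (proper (2 * R * (2 * L * R))).insert _, fun γ hγ => ?_⟩
  by_cases h1 : γ = 1
  · exact ⟨1, Or.inl (by simp [h1])⟩
  obtain ⟨f, t, hf⟩ := (hyp γ h1).fr
  obtain ⟨δ, hδ⟩ := core γ f t hf
  refine ⟨δ, Or.inr ?_⟩
  have h2 := ch_fr hf
  have hP : H2 (f⁻¹ • o) := H2_o.smul _
  generalize f⁻¹ • o = P at hδ h2 hP
  have a := one_le_ch hP (H2_o.smul (σ δ))
  have b := one_le_ch hP (hP.smul (σ γ))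
  change ch o _ ≤ _
  rw [map_mul, map_mul, map_inv, mul_smul, mul_smul, ← ch_isom (σ δ), smul_inv_smul]
  refine (ch_tri (H2_o.smul _) hP ((H2_o.smul _).smul _)).trans ?_
  have c := ch_tri hP (hP.smul (σ γ)) ((H2_o.smul (σ δ)).smul (σ γ))
  rw [ch_isom, ch_comm (σ γ • P)] at c
  have d := one_le_ch hP ((H2_o.smul (σ δ)).smul (σ γ))
  have e : ch P (σ γ • σ δ • o) ≤ 2 * L * R := c.trans (by gcongr <;> linarith only [hγ, h2, b])
  gcongr
  linarith only [hδ, a]

/-- A half plane that contains an orbit contains the axis. -/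
theorem nonneg_of_orbit {u f : Isom} {t : ℝ} (h : Fr u f t) {N P : V} (hP : H2 P)
    (hN : ∀ k : ℤ, 0 ≤ Bf N (u ^ k • P)) : (f • N).1 ≤ 0 ∧ (f • N).2.2 ≤ 0 := by
  have hQ := hP.smul f
  have e : ∀ k : ℤ, 0 ≤ (f • N).2.1 * (f • P).2.1 - ((f • N).1 * (f • P).2.2 * exp (k * t) +
      (f • P).1 * (f • N).2.2 * exp (-(k * t))) / 2 := fun k => by
    have := hN k
    rw [← Bf_isom f, h.eq, dil_smul] at this
    simp only [Bf] at this
    linarith
  constructor <;> by_contra! hc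
  · obtain ⟨n, hn⟩ := grow_aux (β := -2 * ((f • N).2.1 * (f • P).2.1))
      (γ := (f • P).1 * (f • N).2.2) h.pos (mul_pos hc hQ.pos) 0
    have := e n
    have := hn n le_rfl
    push_cast at *
    linarith
  · obtain ⟨n, hn⟩ := grow_aux (β := -2 * ((f • N).2.1 * (f • P).2.1))
      (γ := (f • N).1 * (f • P).2.2) h.pos (mul_pos hQ.2 hc) 0
    have := e (-n)
    have := hn n le_rfl
    push_cast at *
    rw [neg_mul, neg_neg] at *
    linarith

namespace Fuchs

variable (Y : Fuchs Γ)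

theorem per_pos {N : V} (hN : N ∈ Y.per) (γ : Γ) : 0 < Bf N (Y.σ γ • o) := by
  rw [Bf_comm, Bf_move, ← map_inv, Bf_comm]
  exact Y.per_o _ (Y.per_smul _ _ hN)

/-- The axes lie in the core. -/
theorem ax_core {γ : Γ} (h1 : γ ≠ 1) {E P : V} (hE : IsAx (Y.σ γ) E) (hP : H2 P) (h : Bf E P = 0)
    {N : V} (hN : N ∈ Y.per) : 0 ≤ Bf N P := by
  obtain ⟨f, t, hf, h0⟩ := (Y.hyp γ h1).fr0 hE
  have := nonneg_of_orbit hf H2_o (N := N) fun k => by
    rw [← map_zpow]
    exact (Y.per_pos hN _).le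
  have hQ := hP.smul f
  rw [← Bf_isom f, h0, Bf_E0] at h
  rw [← Bf_isom f, Bf, h]
  linarith only [mul_nonneg (neg_nonneg.2 this.1) hQ.pos.le, mul_nonneg (neg_nonneg.2 this.2) hQ.2.le]

theorem finite_conj (L : ℝ) :
    ∃ T : Set Γ, T.Finite ∧ ∀ γ, trI (Y.σ γ) ≤ L → ∃ δ, δ⁻¹ * γ * δ ∈ T := by
  obtain ⟨R, hR⟩ := Y.cocompact
  refine finite_conj_of Y.σ Y.hyp Y.proper (R := R) (fun γ f t hf => hR _ (H2_o.smul _) fun N hN => ?_) L
  have := nonneg_of_orbit hf H2_o (N := N) fun k => by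
    rw [← map_zpow]
    exact (Y.per_pos hN _).le
  rw [← Bf_move, Bf]
  simp only [o]
  linarith [this.1, this.2]

include Y in
/-- The elements with the traces of `g` lie in finitely many conjugacy classes. -/
theorem finite_trEq (g : Γ) :
    ∃ T : Set Γ, T.Finite ∧ ∀ γ, EN.TrEq 3 γ g → ∃ δ, δ⁻¹ * γ * δ ∈ T :=
  (finite_conj Y (trI (Y.σ g))).imp fun _ h => ⟨h.1, fun γ e => h.2 γ (trI_of_trEq _ e).le⟩

end Fuchs

/-- The cocompact case. -/
theorem finite_trEq_of_cocompact (σ : Γ →* Isom) (hyp : ∀ γ, γ ≠ 1 → Hyp (σ γ))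
    (proper : ∀ R, {γ | ch o (σ γ • o) ≤ R}.Finite)
    (cocpt : ∃ R : ℝ, ∀ P, H2 P → ∃ x, ch P (σ x • o) < R) (g : Γ) :
    ∃ T : Set Γ, T.Finite ∧ ∀ γ, EN.TrEq 3 γ g → ∃ δ, δ⁻¹ * γ * δ ∈ T := by
  obtain ⟨R, hR⟩ := cocpt
  exact (finite_conj_of σ hyp proper (R := R)
    (fun _ _ _ _ => (hR _ (H2_o.smul _)).imp fun _ => le_of_lt) (trI (σ g))).imp
    fun _ h => ⟨h.1, fun γ e => h.2 γ (trI_of_trEq _ e).le⟩

end Pool.Agent.MP_646035_al.MC

end
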