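import Pool.Agent.MP_646035_al.Cx.Tw1
import Pool.Agent.MP_646035_al.Mg.MC_Trace

attribute [-instance] Prod.instSMul CommGroup.toDivisionCommMonoid Prod.mulAction Semiring.toMonoid
  NonUnitalRingHomClass.toMulHomClass SMulWithZero.toSMulZeroClass MonTypeEquivalenceMon.monMonoid
  Prod.distribSMul ESeminormedAddCommMonoid.toAddCommMonoid AddMonoidWithOne.toAddMonoid
  SemigroupWithZero.toSemigroup AddQuantale.instAddLeftMono NonUnitalAlgSemiHomClass.toMulHomClass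
  AddCommGroup.toAddGroup littleWedderburn ESeminormedAddMonoid.toAddMonoid Algebra.toSMul
  GroupConeClass.toSubmonoidClass IdemSemiring.toCanonicallyOrderedAdd CommSemiring.toSemiring
  SetLike.GradeZero.instMonoid NonUnitalNonAssocSemiring.toAddCommMonoid AddMonoidWithOne.toOne
  MonoidWithZero.toMonoid SubsemiringClass.toSubmonoidClass NumberField.to_charZero
  MonoidWithZero.toMulZeroOneClass AddQuantale.instAddRightMono instSMulZeroClass
  DivisionRing.toDivInvMonoid NonUnitalRing.toNonUnitalNonAssocRing GroupWithZero.toDivisionMonoid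
  SubtractionMonoid.toSubNegMonoid

/-!
Every curve is crossed by a curve: the shortest closed geodesic that crosses it is simple.
-/

namespace Pool.Agent.MP_646035_al.MC

open Set Topology Real Pool.Agent.MP_4a6971_al.H66 Pool.Agent.MP_4a6971_al.H83

/-- The closed half plane of `M'` lies in the open half plane of `M`. -/
def Nest (M M' : V) : Prop := ∀ x : X, 0 ≤ bf M' x → 0 < bf M x

theorem fill_mv (u : Isom) (N : V) (x : X) : bf N (u • x) = bf (u⁻¹ • N) x := by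
  rw [← bf_smul u⁻¹, inv_smul_smul]

theorem Nest.trans {M M' M'' : V} (h : Nest M M') (h' : Nest M' M'') : Nest M M'' :=
  fun x a => h x (h' x a).le

theorem Nest.smul {M M' : V} (h : Nest M M') (u : Isom) : Nest (u • M) (u • M') := fun x a => by
  rw [← smul_inv_smul u x, bf_smul] at a ⊢
  exact h _ a

theorem Nest.neg {M M' : V} (h : Nest M M') : Nest (-M') (-M) := fun x a => by
  rw [bf_neg] at a ⊢
  by_contra! c
  linarith [h x (by linarith)]

theorem fill_pt {M : V} (hM : Bf M M = 1) (r : ℝ) : ∃ x, bf M x = r :=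
  let ⟨_, a, b⟩ := Klein_frame hM
  (exists_of_frame hM a b r 0).imp fun _ h => h.1

theorem Nest.ne {M : V} (hM : Bf M M = 1) : ¬ Nest M M := fun h =>
  let ⟨x, a⟩ := fill_pt hM 0
  (h x a.ge).ne' a

theorem fill_sgn {C : Set X} (hC : Cvx C) {M : V} (h : ∀ x ∈ C, bf M x ≠ 0) :
    (∀ x ∈ C, 0 < bf M x) ∨ ∀ x ∈ C, 0 < bf (-M) x :=
  (hC.isPreconnected.mapsTo_Ioi_or_Iio (continuous_bf M).continuousOn h).imp id
    fun a x m => by simpa only [bf_neg, Left.neg_pos_iff, mem_Iio] using a m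

theorem fill_line (M : V) : Cvx {x | bf M x = 0} := by simpa using cvx_strip M 0

theorem fill_four {M M' : V} (h : ∀ x, bf M x = 0 → bf M' x ≠ 0) :
    Nest M M' ∨ Nest (-M) M' ∨ Nest M (-M') ∨ Nest (-M) (-M') := by
  rcases fill_sgn (fill_line M) h with a | a
  · exact Or.inr (Or.inr (fill_sgn (cvx_half (-M')) fun x m e => by
      have := a x e
      simp only [mem_ofPred_eq, bf_neg] at m
      linarith))
  · exact or_assoc.1 (Or.inl (fill_sgn (cvx_half M') fun x m e => by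
      have := a x e
      simp only [mem_ofPred_eq, bf_neg] at m this
      linarith))

theorem fill_sum {u : Isom} (hu : Hyp u) {A : V} (hA : IsAx u A) {p : X} (hp : bf A p = 0) :
    ∃ r, 0 < r ∧ ∀ M, bf M (u • p) + bf M (u⁻¹ • p) = r * bf M p := by
  obtain ⟨f, t, hf, h0⟩ := hu.fr0 hA
  refine ⟨exp t + exp (-t), by positivity, fun M => ?_⟩
  have e : (f • p.1).2.1 = 0 := by rw [← Bf_E0, ← h0, Bf_isom]; exact hp
  simp only [bf, coe_smul]
  rw [← Bf_isom f, ← Bf_isom f M, ← Bf_isom f M, hf.one, hf.inv, dil_smul, dil_smul]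
  simp only [Bf, e, neg_neg]
  ring

theorem fill_tr {u : Isom} (hu : Hyp u) (x : X) : 3 < trI u ∧ trI u ≤ 1 + 2 * cd x (u • x) := by
  obtain ⟨f, t, hf⟩ := hu.fr
  have h := x.2.smul f
  have e := h.eq
  have a : 2 < exp (-t) + exp t := by
    linarith [add_one_lt_exp hf.pos.ne', add_one_le_exp (-t)]
  rw [trI_fr hf, cd, coe_smul, ← ch_isom f, hf.one, dil_smul]
  simp only [ch, Bf]
  constructor
  · linarith
  · nlinarith only [e, a]

theorem fill_real {ρ σ P R : ℝ} (h1 : 1 < ρ) (h2 : 1 < σ) (h3 : 0 < P) (h4 : 1 < P * R)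
    (h5 : P + R = σ + σ⁻¹) : ρ + ρ⁻¹ < ρ * σ + (ρ * σ)⁻¹ ∧ P * ρ + R * ρ⁻¹ < ρ * σ + (ρ * σ)⁻¹ := by
  have a : ρ * ρ⁻¹ = 1 := mul_inv_cancel₀ (by linarith)
  have b : σ * σ⁻¹ = 1 := mul_inv_cancel₀ (by linarith only [h2])
  have a1 : ρ⁻¹ < 1 := inv_lt_one_of_one_lt₀ h1
  have b1 : σ⁻¹ < 1 := inv_lt_one_of_one_lt₀ h2
  have a0 : 0 < ρ⁻¹ := by positivity
  have b0 : 0 < σ⁻¹ := by positivity
  rw [mul_inv]
  generalize ρ⁻¹ = ρ' at *
  generalize σ⁻¹ = σ' at *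
  have c : P < σ := by
    by_contra! c
    nlinarith only [mul_nonneg (sub_nonneg.2 c) (show 0 ≤ P - σ' by linarith), h3, h4, h5, b]
  constructor
  · have d : ρ' * σ' < ρ := by nlinarith only [h1, a, b1]
    have : 0 < (σ - 1) * (ρ - ρ' * σ') := mul_pos (by linarith) (by linarith)
    have e : σ * (ρ' * σ') = ρ' := by linear_combination ρ' * b
    linarith only [this, e]
  · have : 0 < (σ - P) * (ρ - ρ') := mul_pos (by linarith) (by linarith)
    have e : R = σ + σ' - P := by linarith only [h5]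
    rw [e]
    linarith only [this]

variable {Γ : Type} [Group Γ] {Y : Fuchs Γ} {E : V}

theorem fill_tangent {α β : Γ} (hα : α ≠ 1) (hβ : β ≠ 1) {E F : V} (hE : IsAx (Y.σ α) E)
    (hF : IsAx (Y.σ β) F) (h : Bf E F ^ 2 = 1) : F = E ∨ F = -E := by
  obtain ⟨R, hR⟩ := tangent (Y.hyp α hα) hE hF.1 h
  obtain ⟨k, -, l, -, h1, h2⟩ := hR.exists_ne_map_eq_of_mapsTo (f := fun k : ℤ => Y.σ α ^ k • F)
    (t := {G | (∃ w, G = Y.σ w • F) ∧ |Bf G o| ≤ R})
    (fun k hk => ⟨⟨α ^ k, by rw [map_zpow]⟩, hk⟩) (tw1_loc_fin Y hβ hF R)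
  refine (Y.hyp α hα).zpow_fix hE hF.1 (sub_ne_zero.2 h1) (Or.inl ?_)
  rw [sub_eq_neg_add, zpow_add, mul_smul, h2, ← mul_smul, ← zpow_add, neg_add_cancel, zpow_zero,
    one_smul]

/-- An element that nests an axis crosses it. -/
theorem Nest.cr {β u : Γ} (hβ : β ≠ 1) {M A : V} (hM : IsAx (Y.σ β) M) (hA : IsAx (Y.σ u) A)
    (h : Nest M (Y.σ u • M)) : Cr M A ∧
      ∀ q : X, ∃ k : ℤ, bf M (Y.σ u ^ k • q) ≤ 0 ∧ 0 < bf M (Y.σ u ^ (k + 1) • q) := by
  have n : Y.σ u • M ≠ M := fun e => Nest.ne hM.1 (by rwa [e] at h)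
  have hu : u ≠ 1 := fun e => n (by rw [e, map_one, one_smul])
  obtain ⟨N, N', e1, e2, e3⟩ := exists_ends (Y.hyp u hu) hA
  obtain ⟨x, hx⟩ := fill_pt hM.1 0
  have up : ∀ y : X, 0 ≤ bf M y → 0 < bf M (Y.σ u • y) := fun y a => h _ (by rwa [bf_smul])
  have a : Bf (-M) N ≤ 0 := e1.le x.2 fun n => by
    change bf (-M) (Y.σ u ^ n • x) ≤ 0
    rw [bf_neg, neg_nonpos]
    induction n with
    | zero => simpa using hx.ge
    | succ n ih => rw [pow_succ', mul_smul]; exact (up _ ih).le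
  have b : Bf M N' ≤ 0 := e2.le x.2 fun n => by
    change bf M ((Y.σ u)⁻¹ ^ n • x) ≤ 0
    induction n with
    | zero => simpa using hx.le
    | succ n ih =>
      rw [pow_succ', mul_smul]
      by_contra! c
      exact (smul_inv_smul (Y.σ u) ((Y.σ u)⁻¹ ^ n • x) ▸ up _ c.le).not_ge ih
  rw [Bf_neg_left, neg_nonpos] at a
  have e4 := e3 M
  rw [hM.1] at e4
  have c : Cr M A := by
    refine lt_of_le_of_ne (by linarith only [mul_nonneg a (neg_nonneg.2 b), e4]) fun e => ?_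
    rcases fill_tangent hβ hu hM hA e with rfl | rfl
    · exact n hA.2
    · exact n (by simpa using hA.neg.2)
  refine ⟨c, fun q => ?_⟩
  rw [Cr] at c
  obtain ⟨m, hm⟩ := e1.grow M q.1 0 q.2 (a.lt_of_ne fun e => by rw [← e] at e4; linarith)
  obtain ⟨m', hm'⟩ := e2.grow (-M) q.1 0 q.2 (by
    rw [Bf_neg_left, neg_pos]
    exact b.lt_of_ne fun e => by rw [e] at e4; linarith)
  by_contra! d
  have : ∀ n : ℕ, bf M (Y.σ u ^ (n - m' : ℤ) • q) ≤ 0 := fun n => by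
    induction n with
    | zero =>
      have := hm' m' le_rfl
      rw [Bf_neg_left, inv_pow, ← zpow_natCast, ← zpow_neg] at this
      simpa [bf] using this.le
    | succ n ih =>
      rw [Nat.cast_succ, add_sub_right_comm]
      exact d _ ih
  have r := this (m + m')
  rw [Nat.cast_add, add_sub_cancel_right, zpow_natCast] at r
  exact (hm m le_rfl).not_ge r

/-- The lifts of the curve with both normals. -/
def Wl (Y : Fuchs Γ) (E : V) : Set V := {M | ∃ γ, M = Y.σ γ • E ∨ M = -(Y.σ γ • E)}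

theorem Wl.smul {M : V} (h : M ∈ Wl Y E) (β : Γ) : Y.σ β • M ∈ Wl Y E := by
  obtain ⟨γ, rfl | rfl⟩ := h
  · exact ⟨β * γ, Or.inl (by rw [map_mul, mul_smul])⟩
  · exact ⟨β * γ, Or.inr (by rw [map_mul, mul_smul, smul_neg])⟩

theorem Wl.neg {M : V} (h : M ∈ Wl Y E) : -M ∈ Wl Y E := by
  obtain ⟨γ, rfl | rfl⟩ := h
  · exact ⟨γ, Or.inr rfl⟩
  · exact ⟨γ, Or.inl (neg_neg _)⟩

theorem Wl.ax (hE : Y.Curve E) {M : V} (h : M ∈ Wl Y E) : ∃ β, β ≠ 1 ∧ IsAx (Y.σ β) M := by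
  obtain ⟨α, a, b⟩ := hE.ax
  obtain ⟨γ, h⟩ := h
  have c : IsAx (Y.σ (γ * α * γ⁻¹)) (Y.σ γ • E) := by
    rw [map_mul, map_mul, map_inv]
    exact b.conj _
  refine ⟨γ * α * γ⁻¹, by simpa only [ne_eq, conj_eq_one_iff] using a, ?_⟩
  rcases h with rfl | rfl
  exacts [c, c.neg]

theorem Wl.four (hE : Y.Curve E) {M : V} (h : M ∈ Wl Y E) {β : Γ} (n : Y.σ β • M ≠ M) :
    Nest M (Y.σ β • M) ∨ Nest (-M) (Y.σ β • M) ∨ Nest M (-(Y.σ β • M)) ∨
      Nest (-M) (-(Y.σ β • M)) := by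
  obtain ⟨_, -, u, -⟩ := Wl.ax hE h
  refine fill_four fun x a b => (tw1_meet u (by simpa using u) a b ?_).elim n (tw1_ne_neg Y u β)
  obtain ⟨γ, rfl | rfl⟩ := h <;>
    simpa only [smul_neg, cr_neg_left, cr_neg_right, cr_move, map_mul, map_inv, mul_smul] using
      hE.simple (γ⁻¹ * β * γ)

/-- `u` nests no lift of the curve. -/
def Ell (Y : Fuchs Γ) (E : V) (u : Γ) : Prop := ∀ M ∈ Wl Y E, ¬ Nest M (Y.σ u • M)

theorem Ell.inv {u : Γ} (h : Ell Y E u) : Ell Y E u⁻¹ := fun M m a => h (-M) (Wl.neg m) (by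
  have := (a.smul (Y.σ u)).neg
  rwa [map_inv, smul_inv_smul, ← smul_neg] at this)

theorem Ell.side (hE : Y.Curve E) {a : Γ} (h : Ell Y E a) {A M : V} (hA : IsAx (Y.σ a) A)
    (m : M ∈ Wl Y E) (n : Y.σ a • M ≠ M) {p : X} (hp : bf A p = 0) (h0 : bf M p ≤ 0) :
    Nest (-M) (Y.σ a • M) := by
  rcases Wl.four hE m n with c | c | c | c
  · exact (h M m c).elim
  · exact c
  · obtain ⟨r, r0, e⟩ := fill_sum (Y.hyp a fun e => n (by rw [e, map_one, one_smul])) hA hp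
    have u := c (Y.σ a • p) (by rwa [bf_neg, bf_smul, neg_nonneg])
    have v : 0 < bf M ((Y.σ a)⁻¹ • p) := by
      by_contra! v
      rw [fill_mv, inv_inv] at v
      exact (c p (by rwa [bf_neg, neg_nonneg])).not_ge h0
    linarith only [e M, mul_nonneg r0.le (neg_nonneg.2 h0), u, v]
  · exact (h (-M) (Wl.neg m) (by rwa [smul_neg])).elim

theorem Ell.same (hE : Y.Curve E) {a b : Γ} (ha : Ell Y E a) (hb : Ell Y E b)
    (hab : Ell Y E (a * b⁻¹)) {A B M : V} (hA : IsAx (Y.σ a) A) (hB : IsAx (Y.σ b) B)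
    (m : M ∈ Wl Y E) (n : Y.σ a • M ≠ M) (n' : Y.σ b • M ≠ M) {p q : X} (hp : bf A p = 0)
    (hq : bf B q = 0) (h : 0 < bf M q) : 0 < bf M p := by
  by_contra! c
  have u := ha.side hE hA m n hp c
  have v := hb.inv.side hE (A := B) (map_inv Y.σ b ▸ hB.inv) (Wl.neg m) (fun e => n' (by
    rw [smul_neg, neg_inj, map_inv, inv_smul_eq_iff] at e
    exact e.symm)) hq (by simpa only [bf_neg, Left.neg_nonpos_iff] using h.le)
  rw [neg_neg] at v
  exact hab (-M) (Wl.neg m) (by rw [map_mul, mul_smul]; exact u.trans (v.smul _))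

/-- The lemma of Serre for the tree dual to the lifts of the curve. -/
theorem Ell.mul (hE : Y.Curve E) {a b : Γ} (ha : Ell Y E a) (hb : Ell Y E b)
    (hab : Ell Y E (a * b⁻¹)) : Ell Y E (a * b) := by
  by_cases a1 : a = 1
  · rwa [a1, one_mul]
  by_cases b1 : b = 1
  · rwa [b1, mul_one]
  intro M₀ m₀ h₀
  obtain ⟨A, hA⟩ := (Y.hyp a a1).exists_ax
  obtain ⟨B, hB⟩ := (Y.hyp b b1).exists_ax
  obtain ⟨β, β1, hβ⟩ := Wl.ax hE m₀
  obtain ⟨C, hC⟩ := (Y.hyp (a * b) fun e => Nest.ne hβ.1 (by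
    rwa [e, map_one, one_smul] at h₀)).exists_ax
  obtain ⟨p, hp⟩ := fill_pt hA.1 0
  obtain ⟨q, hq⟩ := fill_pt hB.1 0
  obtain ⟨k, k1, k2⟩ := (h₀.cr β1 hβ hC).2 q
  have h := h₀.smul (Y.σ (a * b) ^ k)⁻¹
  have m : (Y.σ (a * b) ^ k)⁻¹ • M₀ ∈ Wl Y E := by
    rw [← map_zpow, ← map_inv]
    exact Wl.smul m₀ _
  rw [← mul_smul, ← zpow_neg, ← ((Commute.refl _).zpow_right (-k)).eq, mul_smul, zpow_neg] at h
  rw [zpow_add_one, mul_smul, fill_mv] at k2
  rw [fill_mv] at k1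
  generalize (Y.σ (a * b) ^ k)⁻¹ • M₀ = M at h m k1 k2
  rw [map_mul, mul_smul] at h k2
  have n1 : Y.σ a • M ≠ M := fun e => hb M m (by
    have := h.smul (Y.σ a)⁻¹
    rwa [inv_smul_smul, inv_smul_eq_iff.2 e.symm] at this)
  have n2 : Y.σ b • M ≠ M := fun e => ha M m (by rwa [e] at h)
  have n3 : Y.σ b • (Y.σ a)⁻¹ • M ≠ (Y.σ a)⁻¹ • M := fun e => ha M m (by
    have := ((h.smul (Y.σ a)⁻¹).smul (Y.σ b)⁻¹).smul (Y.σ a)
    rwa [inv_smul_smul, inv_smul_smul, inv_smul_eq_iff.2 e.symm, smul_inv_smul] at this)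
  have u := Ell.same hE ha hb hab hA hB (M := (Y.σ a)⁻¹ • M) (map_inv Y.σ a ▸ Wl.smul m _)
    (fun e => n1 (by
      rw [smul_inv_smul, eq_inv_smul_iff] at e
      exact e)) n3 hp (q := Y.σ b • q) (by rw [← hB.2, bf_smul, hq]) (by rwa [fill_mv] at k2)
  rw [← fill_mv] at u
  exact (Ell.same hE hb ha (by simpa using hab.inv) hB hA m n2 n1 hq (q := Y.σ a • p)
    (by rw [← hA.2, bf_smul, hp]) u).not_ge k1

/-- An invariant family of disjoint axes that contains the boundary lines and misses `E`. -/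
structure Bar (Y : Fuchs Γ) (E : V) (B : Set V) : Prop where
  smul : ∀ γ, ∀ N ∈ B, Y.σ γ • N ∈ B
  neg : ∀ N ∈ B, -N ∈ B
  ax : ∀ N ∈ B, ∃ β, β ≠ 1 ∧ IsAx (Y.σ β) N
  disj : ∀ N ∈ B, ∀ N' ∈ B, ¬ Cr N N'
  fin : ∀ R, {N | N ∈ B ∧ |Bf N o| ≤ R}.Finite
  per : Y.per ⊆ B
  miss : ∀ N ∈ B, ¬ Cr E N
  out : E ∉ B

/-- The region of the point `p`. -/
def Rg (B : Set V) (p x : X) : Prop := ∀ N ∈ B, 0 < bf N p → 0 < bf N x

variable {B : Set V} {p : X}

theorem Bar.unit (h : Bar Y E B) {N : V} (m : N ∈ B) : Bf N N = 1 :=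
  let ⟨_, _, a⟩ := h.ax N m
  a.1

theorem Bar.ne (h : Bar Y E B) (hE : Bf E E = 1) {N : V} (m : N ∈ B) {x : X} (hx : bf E x = 0) :
    bf N x ≠ 0 := fun e => (tw1_meet hE (h.unit m) hx e (h.miss N m)).elim
  (fun a => h.out (a ▸ m)) fun a => h.out (by simpa [a] using h.neg N m)

theorem Bar.mv (h : Bar Y E B) (hp : ∀ N ∈ B, bf N p ≠ 0) {γ : Γ} {x y : X} (a : Rg B p x)
    (b : Rg B p (Y.σ γ • x)) (c : Rg B p y) : Rg B p (Y.σ γ • y) := fun N m n => by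
  have m' := h.smul γ⁻¹ N m
  have d := b N m n
  rw [fill_mv, ← map_inv] at d ⊢
  rcases (hp _ m').lt_or_gt with e | e
  · have := a _ (h.neg _ m') (by simpa only [map_inv, bf_neg, Left.neg_pos_iff] using e)
    rw [bf_neg] at this
    linarith
  · exact c _ m' e

/-- The stabiliser of the region. -/
def Bar.grp (h : Bar Y E B) (hp : ∀ N ∈ B, bf N p ≠ 0) : Subgroup Γ where
  carrier := {γ | Rg B p (Y.σ γ • p)}
  one_mem' := fun N _ n => by simpa only [map_one, one_smul] using n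
  mul_mem' := fun {a b} u v => by
    rw [mem_ofPred_eq, map_mul, mul_smul]
    exact h.mv hp (fun _ _ n => n) u v
  inv_mem' := fun {a} u => h.mv hp u (by rw [map_inv, inv_smul_smul]; exact fun _ _ n => n)
    fun _ _ n => n

theorem Bar.deep (h : Bar Y E B) (hE : Y.Curve E) (e0 : bf E p = 0) (hp : ∀ N ∈ B, bf N p ≠ 0) :
    ∃ γ ∈ h.grp hp, Nest E (Y.σ γ • E) ∨ Nest E (-(Y.σ γ • E)) := by
  by_contra! n
  obtain ⟨α, α1, hα⟩ := hE.ax
  have A : ∀ γ ∈ h.grp hp, ∀ x, 0 < bf E x → 0 < bf E (Y.σ γ • x) → Y.σ γ • E = E := by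
    intro γ m x a b
    by_contra c
    rcases Wl.four hE (M := E) ⟨1, Or.inl (by simp only [map_one, one_smul])⟩ c with d | d | d | d
    · exact (n γ m).1 d
    · have := d (Y.σ γ • x) (by rw [bf_smul]; exact a.le)
      rw [bf_neg] at this
      linarith
    · exact (n γ m).2 d
    · refine (n γ⁻¹ (inv_mem m)).1 ?_
      have := d.neg.smul (Y.σ γ)⁻¹
      rwa [neg_neg, neg_neg, inv_smul_smul, ← map_inv] at this
  have C : ∀ z, 0 < bf E z → Rg B p z := by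
    intro z hz
    by_contra c
    simp only [Rg, not_forall, not_lt] at c
    obtain ⟨N₀, c1, c2, c3⟩ := c
    have fin : {N | N ∈ B ∧ 0 < bf N p ∧ bf N z ≤ 0}.Finite :=
      (h.fin ((1 + 2 * cd z p) * cd p oX)).subset fun N ⟨a, b, c⟩ => ⟨a, by
        have u := abs_Bf_le_of_sign (h.unit a) p.2 z.2 (mul_nonpos_of_nonneg_of_nonpos b.le c)
        refine (abs_Bf_le (h.unit a) H2_o p.2).trans (mul_le_mul_of_nonneg_right ?_
          (zero_le_one.trans (one_le_cd p oX)))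
        change _ ≤ 1 + 2 * ch z.1 p.1
        linarith only [u]⟩
    obtain ⟨N, ⟨m, n1, n2⟩, mn⟩ := exists_min_image _
      (fun N => bf N p / (bf N p - bf N z)) fin ⟨N₀, c1, c2, c3⟩
    have t0 : 0 < bf N p / (bf N p - bf N z) := div_pos n1 (by linarith)
    have t1 : bf N p / (bf N p - bf N z) ≤ 1 := (div_le_one (by linarith)).2 (by linarith)
    obtain ⟨r, r0, -, hr⟩ := bf_gp p z ⟨t0.le, t1⟩
    have w0 : bf N (gp p z (bf N p / (bf N p - bf N z))) = 0 := by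
      rw [hr]
      field_simp [show bf N p - bf N z ≠ 0 by linarith]
      ring
    generalize bf N p / (bf N p - bf N z) = t at mn t0 t1 hr w0
    generalize gp p z t = w at hr w0
    obtain ⟨β, β1, hβ⟩ := h.ax N m
    have w1 : bf N (Y.σ β • w) = 0 := by rw [← hβ.2, bf_smul, w0]
    have on : ∀ M, 0 < bf M w → (∀ x, bf N x = 0 → bf M x ≠ 0) → 0 < bf M (Y.σ β • w) :=
      fun M a b => (fill_sgn (fill_line N) b).elim (fun c => c _ w1) fun c => by
        have := c w w0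
        rw [bf_neg] at this
        linarith
    have pos : ∀ M ∈ B, M ≠ N → 0 < bf M p → 0 < bf M w := fun M a b c => by
      refine lt_of_le_of_ne ?_ fun e => (tw1_meet hβ.1 (h.unit a) w0 e.symm (h.disj N m M a)).elim b
        fun e => by rw [e, bf_neg] at c; linarith
      rw [hr]
      refine mul_nonneg r0.le ?_
      rcases le_or_gt (bf M z) 0 with d | d
      · have := mn M ⟨a, c, d⟩
        rw [le_div_iff₀ (by linarith only [c, d])] at this
        linarith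
      · exact add_nonneg (mul_nonneg (by linarith) c.le) (mul_nonneg t0.le d.le)
    have βm : β ∈ h.grp hp := fun M a c => by
      by_cases e : M = N
      · rwa [e, ← hβ.2, bf_smul]
      have d := on M (pos M a e c) fun x u v => (tw1_meet hβ.1 (h.unit a) u v
        (h.disj N m M a)).elim e fun e => by rw [e, bf_neg] at c; linarith only [n1, c]
      have a' := h.smul β⁻¹ M a
      rw [fill_mv, ← map_inv] at d ⊢
      refine (hp _ a').lt_or_gt.resolve_left fun g => ?_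
      have := pos _ (h.neg _ a') (fun e => by
        rw [neg_eq_iff_eq_neg] at e
        rw [e, bf_neg, w0] at d
        simp at d) (by simpa only [map_inv, bf_neg, Left.neg_pos_iff] using g)
      rw [bf_neg] at this
      linarith only [d, this]
    have ew : 0 < bf E w := by
      rw [hr, e0]
      positivity
    have := A β βm w ew (on E ew fun x u v => h.ne hα.1 m v u)
    rcases (Y.hyp β β1).ax_unique hβ ⟨hα.1, this⟩ with e | e
    · exact h.out (e ▸ m)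
    · exact h.out (e ▸ h.neg N m)
  obtain ⟨R, hR⟩ := Y.cocompact
  have D : ∀ L, R < L → 0 < L → ∃ γ, 0 < bf E (Y.σ γ • oX) ∧
      L ≤ (1 + 2 * |bf E (Y.σ γ • oX)|) * R := fun L a b => by
    obtain ⟨z, hz⟩ := fill_pt hα.1 L
    obtain ⟨γ, c⟩ := hR z.1 z.2 fun N m =>
      (C z (hz ▸ b) N (h.per m) (tw1_front Y α1 hα m hE.pos hE.neg e0)).le
    rw [ch_comm] at c
    refine ⟨γ, ?_, ?_⟩
    · by_contra! d
      have := abs_Bf_le_of_sign hα.1 z.2 (Y.σ γ • oX).2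
        (mul_nonpos_of_nonneg_of_nonpos (hz ▸ b : 0 < bf E z).le d)
      change |bf E z| ≤ ch (Y.σ γ • o) z.1 at this
      rw [hz] at this
      linarith [le_abs_self L]
    · have := abs_Bf_le hα.1 z.2 (Y.σ γ • oX).2
      change |bf E z| ≤ (1 + 2 * |bf E (Y.σ γ • oX)|) * ch (Y.σ γ • o) z.1 at this
      rw [hz] at this
      exact ((le_abs_self L).trans this).trans (mul_le_mul_of_nonneg_left c (by positivity))
  obtain ⟨γ, g1, -⟩ := D (|R| + 1) (by linarith [le_abs_self R]) (by positivity)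
  obtain ⟨δ, d1, d2⟩ := D ((1 + 2 * |bf E (Y.σ γ • oX)|) * |R| + |R| + 1)
    (by linarith [le_abs_self R, show 0 ≤ (1 + 2 * |bf E (Y.σ γ • oX)|) * |R| by positivity])
    (by positivity)
  have e : Y.σ (δ * γ⁻¹) • Y.σ γ • oX = Y.σ δ • oX := by
    rw [map_mul, map_inv, mul_smul, inv_smul_smul]
  have := A (δ * γ⁻¹) (h.mv hp (C _ g1) (e ▸ C _ d1) fun _ _ n => n) _ g1 (e ▸ d1)
  rw [← e, ← this, bf_smul, this] at d2
  have : (1 + 2 * |bf E (Y.σ γ • oX)|) * R ≤ (1 + 2 * |bf E (Y.σ γ • oX)|) * |R| :=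
    mul_le_mul_of_nonneg_left (le_abs_self R) (by positivity)
  linarith [abs_nonneg R]

theorem Bar.exists_nest (h : Bar Y E B) (hE : Y.Curve E) (e0 : bf E p = 0)
    (hp : ∀ N ∈ B, bf N p ≠ 0) : ∃ γ ∈ h.grp hp, ¬ Ell Y E γ := by
  have m : E ∈ Wl Y E := ⟨1, Or.inl (by simp only [map_one, one_smul])⟩
  have h' : Bar Y (-E) B := { h with
    miss := fun N m => by simpa using h.miss N m
    out := fun m => h.out (by simpa using h.neg _ m) }
  have hE' : Y.Curve (-E) := ⟨hE.ax.imp fun _ a => ⟨a.1, a.2.neg⟩,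
    fun γ => by simpa using hE.simple γ, hE.neg, by simpa using hE.pos⟩
  obtain ⟨γ, a, b | b⟩ := h.deep hE e0 hp
  · exact ⟨γ, a, fun c => c E m b⟩
  obtain ⟨δ, c, d | d⟩ := h'.deep hE' (by simpa using e0) hp
  · exact ⟨δ, c, fun e => e _ (Wl.neg m) d⟩
  refine ⟨γ * δ, mul_mem a c, fun e => e E m (b.trans ?_)⟩
  simpa only [map_mul, mul_smul, smul_neg, neg_neg] using d.smul (Y.σ γ)

theorem fill_short {c γ : Γ} (c1 : c ≠ 1) {F : V} (hF : IsAx (Y.σ c) F) (h : Cr F (Y.σ γ • F)) :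
    ∃ (a b : Γ) (x : X), a * b = c ∧ bf F x = 0 ∧ bf F (Y.σ a • x) = 0 ∧
      1 + 2 * cd x (Y.σ a • x) < trI (Y.σ c) ∧ 1 + 2 * cd x (Y.σ b • x) < trI (Y.σ c) ∧
      1 + 2 * cd (Y.σ b • x) (Y.σ a • x) < trI (Y.σ c) := by
  obtain ⟨f, t, hf, h0⟩ := (Y.hyp c c1).fr0 hF
  have u : Bf (Y.σ γ • F) (Y.σ γ • F) = 1 := by simpa using hF.1
  obtain ⟨x, x0, x1, x2⟩ := exists_inter hF.1 u h
  lift x to X using x0
  change bf F x = 0 at x1
  change bf (Y.σ γ • F) x = 0 at x2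
  have fr : ∀ y : X, (f • y).1.2.1 = bf F y := fun y => by
    rw [← Bf_E0, ← h0, coe_smul, Bf_isom, bf]
  obtain ⟨k, k1, k2⟩ := exists_shift hf.pos
    (div_pos (f • x).2.2 (f • (Y.σ γ)⁻¹ • x).2.2)
  have ea : Y.σ (c ^ (-k) * γ⁻¹) = Y.σ c ^ (-k) * (Y.σ γ)⁻¹ := by rw [map_mul, map_zpow, map_inv]
  have aF : (Y.σ (c ^ (-k) * γ⁻¹))⁻¹ • F = Y.σ γ • F := by
    rw [ea, mul_inv_rev, inv_inv, mul_smul, ← zpow_neg, hF.zpow]
  have a1 : (f • Y.σ (c ^ (-k) * γ⁻¹) • x).1.1 = (f • (Y.σ γ)⁻¹ • x).1.1 * exp (k * t) := by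
    rw [ea, mul_smul, coe_smul, coe_smul, hf.eq, dil_smul]
    simp only [coe_smul, Int.cast_neg, neg_mul, neg_neg]
  rw [exp_neg, ← div_eq_mul_inv, div_div, ← a1] at k1 k2
  generalize c ^ (-k) * γ⁻¹ = a at aF k1 k2
  have free : ∀ v : Γ, (Y.σ v)⁻¹ • F = Y.σ γ • F ∨ Y.σ v • F = Y.σ γ • F → Y.σ v • x ≠ x :=
    fun v hv e => by
      by_cases v1 : v = 1
      · simp only [v1, map_one, inv_one, one_smul, or_self] at hv
        exact not_cr_self hF.1 (by rwa [← hv] at h)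
      · have := fill_tr (Y.hyp v v1) x
        rw [e, cd_self] at this
        linarith only [this.1, this.2]
  have bF : Y.σ (a⁻¹ * c) • F = Y.σ γ • F := by rw [map_mul, mul_smul, hF.2, map_inv, aF]
  have n1 := free a (Or.inl aF)
  have n2 := free _ (Or.inr bF)
  have y0 : bf F (Y.σ a • x) = 0 := by rwa [fill_mv, aF]
  have q0 : bf F (Y.σ (a⁻¹ * c) • x) ≠ 0 := fun e => n2 (two_lines hF.1 u
    (fun e => not_cr_self hF.1 (by rwa [e] at h)) (tw1_ne_neg Y hF.1 γ) ⟨e, by rwa [← bF, bf_smul]⟩ ⟨x1, x2⟩)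
  have s1 : cd x (Y.σ (a⁻¹ * c) • x) = cd (Y.σ a • x) (Y.σ c • x) := by
    rw [← cd_smul (Y.σ a), ← mul_smul, ← map_mul, mul_inv_cancel_left]
  have l1 : 1 < cd x (Y.σ a • x) := not_le.1 fun e => n1 (eq_of_cd_le e).symm
  have l2 : 1 < cd x (Y.σ (a⁻¹ * c) • x) := not_le.1 fun e => n2 (eq_of_cd_le e).symm
  refine ⟨a, a⁻¹ * c, x, mul_inv_cancel_left _ _, x1, y0, ?_⟩
  have ec : (f • Y.σ c • x).1 = dil t • (f • x).1 := hf.one _
  rw [trI_fr hf]
  rw [← fr] at x1 y0 q0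
  rw [← cd_smul f] at l1 l2
  rw [← cd_smul f, ← cd_smul f (Y.σ a • x)] at s1
  rw [← cd_smul f, ← cd_smul f x, ← cd_smul f (Y.σ (a⁻¹ * c) • x)]
  simp only [cd] at l1 l2 s1 ⊢
  rw [ec, dil_smul] at s1
  generalize f • Y.σ (a⁻¹ * c) • x = Z at q0 l2 s1 ⊢
  generalize f • Y.σ a • x = W at k1 k2 y0 l1 s1 ⊢
  generalize f • x = U at k1 k2 x1 l1 l2 s1 ⊢
  obtain ⟨⟨u1, u2, u3⟩, hU⟩ := U
  obtain ⟨⟨w1, w2, w3⟩, hW⟩ := W
  obtain ⟨⟨z1, z2, z3⟩, hZ⟩ := Z
  have eU := hU.eq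
  have eW := hW.eq
  have eZ := hZ.eq
  have pU := hU.2
  have pW := hW.2
  have pZ := hZ.2
  simp only [ch, Bf] at *
  subst x1 y0
  obtain rfl : u3 = u1⁻¹ := eq_inv_of_mul_eq_one_right (by simpa only [ne_eq, OfNat.ofNat_ne_zero, not_false_eq_true, zero_pow, add_zero] using eU)
  obtain rfl : w3 = w1⁻¹ := eq_inv_of_mul_eq_one_right (by simpa only [ne_eq, OfNat.ofNat_ne_zero, not_false_eq_true, zero_pow, add_zero] using eW)
  have et := exp_pos t
  obtain ⟨ρ, rfl⟩ : ∃ ρ, u1 = ρ * w1 := ⟨u1 / w1, by field_simp⟩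
  rw [mul_div_cancel_right₀ _ pW.ne'] at k1 k2
  have r0 : 0 < ρ := by linarith only [k1]
  obtain ⟨σ, e⟩ : ∃ σ, exp t = ρ * σ := ⟨exp t / ρ, by field_simp⟩
  rw [exp_neg, e] at s1 ⊢
  rw [e] at k2
  have s0 : 1 ≤ σ := by nlinarith only [k1, k2]
  have i1 : ρ * w1 * w1⁻¹ = ρ := by field_simp
  have i2 : w1 * (ρ * w1)⁻¹ = ρ⁻¹ := by field_simp
  have i3 : w1 * ((ρ * w1)⁻¹ * (ρ * σ)) = σ := by field_simp
  have i4 : ρ * w1 * (ρ * σ)⁻¹ * w1⁻¹ = σ⁻¹ := by field_simp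
  rw [i1, i2] at l1 ⊢
  rw [i3, i4] at s1
  have r1 : 1 < ρ := k1.lt_of_ne fun e => by rw [← e] at l1; norm_num at l1
  have s2 : 1 < σ := s0.lt_of_ne fun e => by rw [s1, ← e] at l2; norm_num at l2
  have g1 := fill_real (P := z1 * (ρ * w1)⁻¹) (R := ρ * w1 * z3) r1 s2 (by positivity)
    (by
      rw [show z1 * (ρ * w1)⁻¹ * (ρ * w1 * z3) = z1 * z3 by field_simp, eZ]
      exact lt_add_of_pos_right _ (by positivity))
    (by linarith only [s1])
  have g2 := (fill_real (P := 1) (R := ρ + ρ⁻¹ - 1) s2 r1 one_pos (by linarith only [l1]) (by ring)).1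
  rw [mul_comm σ] at g2
  have i5 : z1 * (ρ * w1)⁻¹ * ρ = z1 * w1⁻¹ := by field_simp
  have i6 : ρ * w1 * z3 * ρ⁻¹ = w1 * z3 := by field_simp
  rw [i5, i6] at g1
  refine ⟨by linarith only [g1.1], by linarith only [s1, g2], by linarith only [g1.2]⟩

/-- A curve that misses the family `B` is crossed by a curve that misses `B`. -/
theorem Bar.fill (h : Bar Y E B) (hE : Y.Curve E) :
    ∃ F, Y.Curve F ∧ Cr E F ∧ ∀ N ∈ B, ¬ Cr N F := by
  obtain ⟨α, α1, hα⟩ := hE.ax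
  obtain ⟨p, e0⟩ := fill_pt hα.1 0
  have hp : ∀ N ∈ B, bf N p ≠ 0 := fun N m => h.ne hα.1 m e0
  obtain ⟨c₀, m₀, n₀⟩ := h.exists_nest hE e0 hp
  obtain ⟨T, hT, hT'⟩ := Y.finite_conj (trI (Y.σ c₀))
  obtain ⟨_, ⟨c, ⟨m, n, -⟩, rfl⟩, mn⟩ := exists_min_image ((fun c => trI (Y.σ c)) ''
    {c | c ∈ h.grp hp ∧ ¬ Ell Y E c ∧ trI (Y.σ c) ≤ trI (Y.σ c₀)}) id
    ((hT.image fun c => trI (Y.σ c)).subset (by
      rintro _ ⟨c, ⟨-, -, a⟩, rfl⟩
      obtain ⟨δ, b⟩ := hT' c a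
      exact ⟨_, b, by simpa only [map_mul, map_inv, inv_inv] using trI_conj (Y.σ δ)⁻¹ (Y.σ c)⟩)) ⟨_, c₀, ⟨m₀, n₀, le_rfl⟩, rfl⟩
  have sh : ∀ u ∈ h.grp hp, ∀ x, 1 + 2 * cd x (Y.σ u • x) < trI (Y.σ c) → Ell Y E u := by
    intro u a x b
    by_contra d
    have u1 : u ≠ 1 := fun e => d fun M m n => by
      obtain ⟨_, -, v, -⟩ := Wl.ax hE m
      exact Nest.ne v (by rwa [e, map_one, one_smul] at n)
    have r := (fill_tr (Y.hyp u u1) x).2.trans_lt b
    exact (mn _ ⟨u, ⟨a, d, r.le.trans (mn _ ⟨c₀, ⟨m₀, n₀, le_rfl⟩, rfl⟩)⟩, rfl⟩).not_gt r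
  have n' := n
  simp only [Ell, not_forall, not_not] at n'
  obtain ⟨M, mM, nM⟩ := n'
  obtain ⟨β, β1, hβ⟩ := Wl.ax hE mM
  have c1 : c ≠ 1 := fun e => Nest.ne hβ.1 (by rwa [e, map_one, one_smul] at nM)
  obtain ⟨F, hF⟩ := (Y.hyp c c1).exists_ax
  have cr := (nM.cr β1 hβ hF).1
  obtain ⟨δ, hδ⟩ : ∃ δ, Cr E (Y.σ δ • F) := by
    obtain ⟨γ, rfl | rfl⟩ := mM
    · exact ⟨γ⁻¹, by rwa [map_inv, ← cr_move]⟩
    · exact ⟨γ⁻¹, by rwa [map_inv, ← cr_move, ← cr_neg_left]⟩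
  have nB : ∀ γ, Y.σ γ • F ∉ B := fun γ a => h.miss _ (h.smul (δ * γ⁻¹) _ a) (by
    rwa [map_mul, map_inv, mul_smul, inv_smul_smul])
  obtain ⟨f, t, hf, h0⟩ := (Y.hyp c c1).fr0 hF
  have side : ∀ N ∈ B, 0 < bf N p → ¬ Cr N F ∧ ∀ x, bf F x = 0 → 0 ≤ bf N x := fun N a b => by
    have := nonneg_of_orbit hf p.2 (N := N) fun k => by
      rw [← map_zpow]
      exact (zpow_mem m k N a b).le
    have u := h.unit a
    rw [← Bf_isom f] at u
    refine ⟨?_, fun x hx => ?_⟩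
    · rw [← cr_isom f, h0, cr_comm, Cr, Bf_E0, not_lt]
      simp only [Bf] at u
      linarith only [mul_nonneg (neg_nonneg.2 this.1) (neg_nonneg.2 this.2), u]
    · have hQ := x.2.smul f
      rw [bf, ← Bf_isom f, h0, Bf_E0] at hx
      rw [bf, ← Bf_isom f, Bf, hx]
      linarith only [mul_nonneg (neg_nonneg.2 this.1) hQ.pos.le, mul_nonneg (neg_nonneg.2 this.2) hQ.2.le]
  have nc : ∀ N ∈ B, ¬ Cr N F := fun N a => (hp N a).lt_or_gt.elim
    (fun b => by simpa using (side _ (h.neg N a) (by simpa using b)).1) fun b => (side N a b).1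
  have rg : ∀ x, bf F x = 0 → Rg B p x := fun x hx N a b =>
    ((side N a b).2 x hx).lt_of_ne fun e => (tw1_meet (h.unit a) hF.1 e.symm hx (nc N a)).elim
      (fun e => nB 1 (by simpa only [map_one, e, one_smul] using a)) fun e => nB 1 (by simpa [e] using h.neg N a)
  have simple : ∀ γ, ¬ Cr F (Y.σ γ • F) := fun γ a => by
    obtain ⟨a, b, x, rfl, x0, x1, s1, s2, s3⟩ := fill_short c1 hF a
    have ma : a ∈ h.grp hp := h.mv hp (rg x x0) (rg _ x1) fun _ _ n => n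
    have mb : b ∈ h.grp hp := by simpa using mul_mem (inv_mem ma) m
    exact n (Ell.mul hE (sh a ma x s1) (sh b mb x s2) (sh _ (mul_mem ma (inv_mem mb)) (Y.σ b • x)
      (by rwa [map_mul, map_inv, mul_smul, inv_smul_smul])))
  refine ⟨Y.σ δ • F, ⟨⟨δ * c * δ⁻¹, by simpa only [ne_eq, conj_eq_one_iff] using c1, ?_⟩, fun γ => ?_,
    fun a => nB δ (h.per a), fun a => nB δ (by simpa using h.neg _ (h.per a))⟩, hδ, fun N a b => ?_⟩
  · rw [map_mul, map_mul, map_inv]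
    exact hF.conj _
  · simpa only [cr_move, map_mul, map_inv, mul_smul] using simple (δ⁻¹ * γ * δ)
  · exact nc _ (h.smul δ⁻¹ N a) (by rwa [map_inv, cr_move, inv_inv])

/-- Every curve is crossed by a curve. -/
theorem Fuchs.fill (Y : Fuchs Γ) (hE : Y.Curve E) : ∃ F, Y.Curve F ∧ Cr E F := by
  obtain ⟨α, α1, hα⟩ := hE.ax
  have u : ∀ N ∈ Y.per, Bf N N = 1 := fun N m => (Y.per_ax N m).choose_spec.2.1
  have d : ∀ N ∈ Y.per, ∀ N' ∈ Y.per, ¬ Cr N N' := fun N m N' m' c => by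
    by_cases e : N = N'
    · exact not_cr_self (u N m) (e ▸ c)
    · rw [Cr] at c
      nlinarith only [Y.per_far N m N' m' e, c]
  have k : ∀ N ∈ Y.per, ¬ Cr E N := fun N m c => by
    obtain ⟨x, a, b, c⟩ := exists_inter hα.1 (u N m) c
    exact (tw1_front Y α1 hα m hE.pos hE.neg (x := ⟨x, a⟩) b).ne' c
  refine (Bar.fill (B := {N | N ∈ Y.per ∨ -N ∈ Y.per}) ⟨fun γ N m => m.imp (Y.per_smul γ N)
    fun m => smul_neg (Y.σ γ) N ▸ Y.per_smul γ _ m, fun N m => by simpa [or_comm] using m,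
    fun N m => m.elim (Y.per_ax N) fun m => (Y.per_ax _ m).imp fun _ a =>
      ⟨a.1, by simpa using a.2.neg⟩, ?_, fun R => ?_, fun N m => Or.inl m,
    fun N m => m.elim (k N) fun m => by simpa using k _ m, fun m => m.elim hE.pos hE.neg⟩
    hE).imp fun F a => ⟨a.1, a.2.1⟩
  · rintro N (m | m) N' (m' | m') <;> simpa using d _ m _ m'
  · refine ((tw1_per_fin Y R).union ((tw1_per_fin Y R).image fun N => -N)).subset ?_
    rintro N ⟨m | m, a⟩
    · exact Or.inl ⟨m, a⟩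
    · exact Or.inr ⟨-N, ⟨m, by simpa using a⟩, neg_neg N⟩

end Pool.Agent.MP_646035_al.MC
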