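import Pool.Agent.MP_4a6971_al.H83.Geo
import Pool.Agent.MP_646035_al.MC.Iface

attribute [-instance] Semiring.toMonoid SMulWithZero.toSMulZeroClass GradedMonoid.GradeZero.mulAction
  Submonoid.instSMulSubtypeMem Module.toDistribMulAction NonUnitalRingHomClass.toMulHomClass
  MonTypeEquivalenceMon.monMonoid CommGroup.toDivisionCommMonoid MulActionWithZero.toMulAction
  forall_prop_decidable instCharZeroOfIsSemireal
  ContinuousMonoidHom.instCoeOutOfMonoidHomClassOfContinuousMapClass instCoeHTCOfCoeHeadOfCoeOTC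
  Algebra.toSMul AddQuantale.instAddLeftMono Action.FintypeCat.instMulActionObjFiniteOf
  littleWedderburn AddCommMonoidWithOne.toAddMonoidWithOne ESeminormedAddCommMonoid.toAddCommMonoid
  NonUnitalAlgSemiHomClass.toMulHomClass SetLike.GradeZero.instMonoid
  MulSemiringAction.toDistribMulAction NumberField.to_charZero AddCommGroup.toAddGroup
  SemigroupWithZero.toSemigroup instCoeOutOfCoeFun GroupConeClass.toSubmonoidClass
  Finset.decidableDforallFinset instSMulZeroClass NormedField.toField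
  ESeminormedAddMonoid.toAddMonoid MonoidWithZero.toMonoid NormedRing.toRing RCLike.charZero_rclike
  instCoeTCOfCoe Multiset.decidableDforallMultiset SubsemiringClass.toSubmonoidClass
  SubsemiringClass.toCommSemiring Vector.instDecidableForallForallMemOfDecidablePred
  MulDistribMulAction.toMulAction Array.instDecidableForallForallMemOfDecidablePred
  MonoidWithZero.toMulZeroOneClass Option.decidableForallMem instCoeHTCTOfCoeTailOfCoeHTC
  AddQuantale.instAddRightMono AddCommGroupWithOne.toAddGroupWithOne Torsor.toMulAction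
  SeminormedRing.toRing NormedCommRing.toCommRing Int.decidableLTLE
  NonAssocSemiring.toMulZeroOneClass NonUnitalNonAssocSemiring.toAddCommMonoid
  IsometryClass.instCoeOutIsometryEquiv NonUnitalRing.toNonUnitalNonAssocRing IdemSemiring.toSemiring
  NormedDivisionRing.toDivisionRing IdemSemiring.toCanonicallyOrderedAdd SetLike.GradeZero.instRing
  Quantale.instMulRightMono BooleanRing.toRing Action.instMulAction Int.decidableLTLT
  Int.decidableLELE EuclideanDomain.toCommRing SeminormedCommRing.toCommRing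
  SetLike.GradeZero.instSemiring Int.decidableLELT Submonoid.instDistribMulActionSubtypeMem
  CompletePartialOrder.toPartialOrder SetLike.GradeZero.instCommSemiring
  ContinuousAddMonoidHom.instCoeOutOfAddMonoidHomClassOfContinuousMapClass instCoeTOfCoeDep
  HomeomorphClass.instCoeOutHomeomorph NonAssocSemiring.toNonUnitalNonAssocSemiring
  NonUnitalSemiring.toNonUnitalNonAssocSemiring GroupWithZero.toDivInvMonoid
  SubtractionMonoid.toSubNegMonoid

-- part MP_646035_al.Cx.MDefs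
section

/-!
The model of a bordered surface inside a closed surface: definitions.
-/

namespace Pool.Agent.MP_646035_al.MC

open Pool.Agent.MP_4a6971_al.H66 Pool.Agent.MP_4a6971_al.H83

variable {g : ℕ}

/-- The sides strictly between the two ends of a gap. -/
def InCap (p : I g × I g) (k : I g) : Prop := k = p.1 + 1 ∨ k = p.1 + 2 ∨ k = p.2 - 1

/-- A set `A` of mirror sides of the polygon, with the gaps between consecutive mirror sides. -/
structure Lay (g : ℕ) where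
  A : Set (I g)
  G : Set (I g × I g)
  fst : ∀ p ∈ G, p.1 ∈ A
  snd : ∀ p ∈ G, p.2 ∈ A
  len : ∀ p ∈ G, p.2 = p.1 + 3 ∨ p.2 = p.1 + 4
  far : ∀ p ∈ G, p.1 ≠ p.2 + 1 ∧ p.1 ≠ p.2 + 2
  two : ∀ p ∈ G, (p.2, p.1) ∉ G
  cap : ∀ p ∈ G, ∀ k, InCap p k → k ∉ A
  cov : ∀ k, k ∉ A → ∃ p ∈ G, InCap p k
  i0 : I g
  j0 : I g
  m0 : i0 ∈ A
  m1 : i0 + 1 ∈ A
  m2 : j0 ∈ A
  far0 : j0 ≠ i0 ∧ j0 ≠ i0 + 1 ∧ i0 ≠ j0 + 1 ∧ j0 ≠ i0 + 2

/-- The group generated by the reflections in the sides of `A`. -/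
def WA (A : Set (I g)) : Subgroup (W g) := Subgroup.closure (s '' A)

/-- Its fundamental domain. -/
def DA (Y : Poly g) (A : Set (I g)) : Set X := {x | ∀ i ∈ A, 0 ≤ bf (Y.e i) x}

open Classical in
/-- The normal of the common perpendicular of the ends of a gap; it points away from the cap. -/
noncomputable def dl (Y : Poly g) (p : I g × I g) : V :=
  if h : ∃ δ, Bf δ δ = 1 ∧ Bf δ (Y.e p.1) = 0 ∧ Bf δ (Y.e p.2) = 0 ∧ 0 < Bf δ (Y.e (p.1 + 1))
  then h.choose else 0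

namespace Lay

variable (L : Lay g) (Y : Poly g)

/-- The fundamental group of the bordered surface. -/
def GA : Subgroup (Gam g) := (WA L.A).subgroupOf (cls g).ker

/-- The boundary lines, in the coordinates of the polygon. -/
def per0 : Set V := {N | ∃ w ∈ WA L.A, ∃ p ∈ L.G, N = Y.ρ w • dl Y p}

/-- The base point, a vertex between two mirror sides. -/
noncomputable def v0 : X := vt Y L.i0 (L.i0 + 1)

/-- An isometry that moves the base point to `o`. -/
noncomputable def c : Isom := (L.v0 Y).2.exists_frame.choose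

theorem c_v0 : L.c Y • (L.v0 Y).1 = o := (L.v0 Y).2.exists_frame.choose_spec

/-- The action of the closed surface group in the new coordinates. -/
noncomputable def σ : Gam g →* Isom := (MulAut.conj (L.c Y)).toMonoidHom.comp Y.σ

theorem σ_apply (γ : Gam g) : L.σ Y γ = L.c Y * Y.σ γ * (L.c Y)⁻¹ := rfl

/-- The boundary lines in the new coordinates. -/
def per : Set V := (L.c Y • ·) '' L.per0 Y

end Lay

/-- The mirror sides for genus `g` and `m` holes. -/
def layA (g m : ℕ) : Set (I (g + m)) :=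
  {i | (i.val ≤ 4 * (m / 2) ∧ 4 ∣ i.val) ∨ (4 * (m / 2) < i.val ∧ i.val ≤ 4 * (m / 2) + 2 * g + 1)}

/-- The gaps for genus `g` and `m` holes: `m / 2` gaps inside the side `0` with two holes each, and
for odd `m` one gap at a vertex with one hole. -/
def layG (g m : ℕ) : Set (I (g + m) × I (g + m)) :=
  {p | (∃ t < m / 2, p.1.val = 4 * t ∧ p.2.val = 4 * t + 4) ∨
    (m % 2 = 1 ∧ p.1.val = 4 * (m / 2) + 2 * g + 1 ∧ p.2.val = 0)}

end Pool.Agent.MP_646035_al.MC

end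

-- part MP_646035_al.Cx.Parab
section

/-!
Special subgroups of the reflection group, and common perpendiculars of sides.
-/

namespace Pool.Agent.MP_646035_al.MC

open Pool.Agent.MP_4a6971_al.H66 Pool.Agent.MP_4a6971_al.H83

variable {g : ℕ} {A : Set (I g)} {Y : Poly g}

theorem s_mem_WA {i : I g} (h : i ∈ A) : s i ∈ WA A := Subgroup.subset_closure ⟨i, h, rfl⟩

theorem WA_mono {B : Set (I g)} (h : A ⊆ B) : WA A ≤ WA B :=
  Subgroup.closure_mono (Set.image_mono h)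

theorem exists_desc' {w : W g} (h1 : w ≠ 1) :
    ∃ v j, w = v * s j ∧ (cs g).length (v * s j) = (cs g).length v + 1 := by
  obtain ⟨j, hj⟩ := (cs g).exists_rightDescent_of_ne_one h1
  refine ⟨w * s j, j, by simp [mul_assoc], ?_⟩
  have a : (cs g).length (w * s j) < _ := hj
  have b : (cs g).length (w * s j) = _ ∨ _ := (cs g).length_mul_simple w j
  change _ ∨ (cs g).length (w * s j) + 1 = _ at b
  rw [mul_assoc, s_mul_s, mul_one]
  omega

theorem exists_desc {w : W g} (hw : w ∈ WA A) (h1 : w ≠ 1) :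
    ∃ v ∈ WA A, ∃ j ∈ A, w = v * s j ∧ (cs g).length (v * s j) = (cs g).length v + 1 := by
  classical
  let r : W g →* W g := liftW (fun i => if i ∈ A then s i else 1)
    (fun i => by split_ifs <;> simp) fun i => by split_ifs <;> simp [s_comm]
  have r1 : ∀ w ∈ WA A, r w = w := fun w hw =>
    (Subgroup.closure_le (r.eqLocus (MonoidHom.id _))).2 (by
      rintro _ ⟨i, hi, rfl⟩
      exact (liftW_s _ _ _ i).trans (if_pos hi)) hw
  have r2 : ∀ n w, (cs g).length w = n → (cs g).length (r w) ≤ n := fun n => by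
    induction n with
    | zero => intro w h; simp [(cs g).length_eq_zero_iff.1 h]
    | succ n ih =>
      intro w h
      obtain ⟨v, j, rfl, hv⟩ := exists_desc' (w := w) (by rintro rfl; simp at h)
      have := ih v (by omega)
      rw [map_mul, liftW_s]
      split_ifs
      · have b : (cs g).length (r v * s j) = _ ∨ _ := (cs g).length_mul_simple (r v) j
        change _ ∨ (cs g).length (r v * s j) + 1 = _ at b
        omega
      · rw [mul_one]
        omega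
  obtain ⟨v, j, rfl, hv⟩ := exists_desc' h1
  have hj : j ∈ A := by
    by_contra hj
    have a := r2 _ v rfl
    have b := r1 _ hw
    rw [map_mul, liftW_s, if_neg hj, mul_one] at b
    rw [b] at a
    omega
  exact ⟨v, (Subgroup.mul_mem_cancel_right _ (s_mem_WA hj)).1 hw, j, hj, rfl, hv⟩

theorem tits_WA {x : X} (hx : x ∈ DA Y A) {w : W g} (hw : w ∈ WA A) {i : I g} (hi : i ∈ A)
    (h : (cs g).length w < (cs g).length (w * s i)) : 0 ≤ bf (Y.ρ w • Y.e i) x := by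
  induction hn : (cs g).length w using Nat.strong_induction_on generalizing w i with
  | _ n ih =>
  by_cases h1 : w = 1
  · subst h1
    simpa only [map_one, one_smul] using hx i hi
  obtain ⟨v, hv, j, hj, rfl, hl⟩ := exists_desc hw h1
  have hij : j ≠ i := by
    rintro rfl
    rw [mul_assoc, s_mul_s, mul_one] at h
    omega
  by_cases h2 : Adj i j
  · have c1 : s j * s i = s i * s j := by
      rcases h2 with rfl | rfl
      · exact (s_comm i).symm
      · exact s_comm j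
    rw [map_mul, mul_smul, Y.ρ_s_of h2.symm.bf]
    refine ih _ (by omega) hv hi ?_ rfl
    rw [mul_assoc, c1, ← mul_assoc] at h
    have a1 : (cs g).length (v * s i * s j) = _ ∨ _ := (cs g).length_mul_simple (v * s i) j
    have a2 : (cs g).length (v * s i) = _ ∨ _ := (cs g).length_mul_simple v i
    change _ ∨ (cs g).length (v * s i * s j) + 1 = _ at a1
    change _ ∨ (cs g).length (v * s i) + 1 = _ at a2
    omega
  · have p1 := ih _ (by omega) hv hj (by omega) rfl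
    have f := Y.far i j hij (not_or.1 h2).1 (not_or.1 h2).2
    have := Y.add_pos hij (not_or.1 h2).1 (not_or.1 h2).2 (x.2.smul (Y.ρ v)⁻¹).fut
    rw [bf, Bf_move] at p1
    rw [bf, map_mul, mul_smul, Bf_move, Y.ρ_s, Bf_sub_left, Bf_smul_left, Bf_comm (Y.e j) (Y.e i)]
    nlinarith only [p1, f, this]

/-- The domain is a strict fundamental domain. -/
theorem fix_WA {x : X} (hx : x ∈ DA Y A) {w : W g} (hw : w ∈ WA A) (h : Y.ρ w • x ∈ DA Y A) :
    Y.ρ w • x = x ∧ w ∈ WA {k | k ∈ A ∧ bf (Y.e k) x = 0} := by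
  induction hn : (cs g).length w using Nat.strong_induction_on generalizing w with
  | _ n ih =>
  by_cases h1 : w = 1
  · subst h1
    exact ⟨by simp only [map_one, one_smul], one_mem _⟩
  obtain ⟨v, hv, j, hj, rfl, hl⟩ := exists_desc hw h1
  have a := tits_WA h hv hj (by omega)
  rw [map_mul, mul_smul, bf_smul, bf_s, Y.unit] at a
  have b : bf (Y.e j) x = 0 := le_antisymm (by linarith only [a]) (hx j hj)
  rw [map_mul, mul_smul, s_smul_of b] at h ⊢
  have := ih _ (by omega) hv h rfl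
  exact ⟨this.1, mul_mem this.2 (s_mem_WA ⟨hj, b⟩)⟩

theorem cover_WA (Y : Poly g) (A : Set (I g)) (x : X) : ∃ w ∈ WA A, Y.ρ w • x ∈ DA Y A := by
  obtain ⟨w, h1, h2⟩ := Set.exists_min_image _ (fun w => cd oX (Y.ρ w • x))
    ((Y.proper H2_o x.2 (cd oX x)).inter_of_left (WA A)) ⟨1, by simp only [cd, oX, Set.mem_ofPred_eq, map_one, one_smul, Std.le_refl], one_mem _⟩
  refine ⟨w, h1.2, fun i hi => ?_⟩
  by_contra! hc
  have e : cd oX (Y.ρ (s i * w) • x) = cd oX (Y.ρ w • x) + 2 * bf (Y.e i) (Y.ρ w • x) * Y.h := by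
    rw [map_mul, mul_smul, Klein_cd, Klein_cd, bf_s, Bf_comm, show Bf (Y.e i) oX.1 = _ from Y.cen i]
    ring
  have a := mul_neg_of_neg_of_pos hc Y.h_pos
  have b : cd oX (Y.ρ w • x) ≤ cd oX x := h1.1
  have := h2 (s i * w) ⟨show cd oX (Y.ρ (s i * w) • x) ≤ cd oX x by linarith,
    mul_mem (s_mem_WA hi) h1.2⟩
  linarith

theorem WA_fix {N : V} (h : ∀ i ∈ A, Bf (Y.e i) N = 0) {w : W g} (hw : w ∈ WA A) :
    Y.ρ w • N = N :=
  (Subgroup.closure_le ((MulAction.stabilizer Isom N).comap Y.ρ)).2 (by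
    rintro _ ⟨i, hi, rfl⟩
    exact Y.ρ_s_of (h i hi)) hw

/-- The open half planes of `N` and `N'` cover the plane and its boundary. -/
def Face (N N' : V) : Prop := ∀ P, Fut P → 0 < Bf N P + Bf N' P

theorem Face.symm {N N' : V} (h : Face N N') : Face N' N := fun P hP => add_comm (Bf N P) _ ▸ h P hP

theorem Face.bf {N N' : V} (h : Face N N') (x : X) : 0 < bf N x + bf N' x := h _ x.2.fut

theorem perp_neg {E F N : V} {f : Isom} (hE : Bf E E = 1) (hF : Bf F F = 1) (h1 : (f • E).2.1 = 0)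
    (h2 : (f • F).2.1 = 0) (h : Face E F) (a : Face N E ∨ Bf N E = 0) (b : Face N F ∨ Bf N F = 0)
    (c : ¬ (Bf N E = 0 ∧ Bf N F = 0)) : (f • N).1 < 0 ∧ (f • N).2.2 < 0 := by
  have k : ∀ {E F}, Face E F → (f • E).1 + (f • F).1 < 0 ∧ (f • E).2.2 + (f • F).2.2 < 0 :=
    fun {E F} h => by
      have p := h _ (Fut.smul (P := (0, 0, 1)) (fun Q hQ => by simpa [ch, Bf] using hQ.2) f⁻¹)
      have q := h _ ((fut_null 0).smul f⁻¹)
      rw [← Bf_move, ← Bf_move] at p q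
      simp only [Bf] at p q
      constructor <;> linarith only [p, q]
  replace h := k h
  replace a := a.imp_left k
  replace b := b.imp_left k
  rw [← Bf_isom f] at hE hF
  rw [← Bf_isom f N E, ← Bf_isom f N F] at *
  generalize f • E = E, f • F = F, f • N = N at *
  simp only [Bf, h1, h2] at *
  have e1 : E.1 * E.2.2 = -1 := by linarith only [hE]
  have e2 : F.1 * F.2.2 = -1 := by linarith only [hF]
  have k1 : ∀ {x z α γ : ℝ}, α * γ = -1 → x * γ + α * z = 0 → (x < 0 ↔ z < 0) :=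
    fun {x z α γ} h h' => by
      have : x = α ^ 2 * z := by linear_combination x * h - α * h'
      have h0 : 0 < α ^ 2 := by
        have : α ≠ 0 := by rintro rfl; simp at h
        positivity
      rw [this, neg_iff_of_pos h0]
  have k2 : (0 < E.1 ∧ 0 < F.2.2) ∨ (0 < E.2.2 ∧ 0 < F.1) := by
    rcases lt_trichotomy E.1 0 with s | s | s
    · have : 0 < E.2.2 := by nlinarith only [hE, s]
      exact Or.inr ⟨this, by nlinarith only [h, hF, this]⟩
    · simp [s] at e1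
    · exact Or.inl ⟨s, by nlinarith only [h, hF, s]⟩
  rcases a with a | a <;> rcases b with b | b
  · rcases k2 with s | s <;> constructor <;> linarith only [a.1, a.2, b.1, b.2, s.1, s.2]
  · have := k1 (x := N.1) (z := N.2.2) e2 (by linarith only [b])
    rcases k2 with s | s
    · exact ⟨by linarith only [a.1, s.1], this.1 (by linarith only [a.1, s.1])⟩
    · exact ⟨this.2 (by linarith only [a.2, s.1]), by linarith only [a.2, s.1]⟩
  · have := k1 (x := N.1) (z := N.2.2) e1 (by linarith only [a])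
    rcases k2 with s | s
    · exact ⟨this.2 (by linarith only [b.2, s.2]), by linarith only [b.2, s.2]⟩
    · exact ⟨by linarith only [b.1, s.2], this.1 (by linarith only [b.1, s.2])⟩
  · exact absurd ⟨a, b⟩ c

theorem face_of_neg {D N : V} {f : Isom} (hf : f • D = E0) (hN : Bf N N = 1)
    (h : (f • N).1 < 0 ∧ (f • N).2.2 < 0) :
    (Bf D N < -1 ∧ Face D N) ∨ (1 < Bf D N ∧ Face (-D) N) := by
  have e0 : Bf E0 E0 = 1 := Bf_E0 _
  have h1 : 1 < Bf D N ^ 2 := by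
    rw [← Bf_isom f] at hN ⊢
    rw [hf, Bf_E0]
    simp only [Bf] at hN
    linarith only [mul_pos_of_neg_of_neg h.1 h.2, hN]
  have k : ∀ D : V, f • D = E0 ∨ f • D = -E0 → Bf D N < -1 → Face D N := fun D hD a P hP => by
    rw [← Bf_isom f D, ← Bf_isom f N]
    refine Bf_add_pos ?_ (by simpa using hN) (by simpa using a) ?_ (hP.smul f) <;>
      rcases hD with e | e <;> rw [e]
    · exact e0
    · simpa using e0
    all_goals
      simp only [Bf, E0, o, Prod.fst_neg, Prod.snd_neg]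
      linarith only [h.1, h.2]
  rcases lt_or_ge (Bf D N) 0 with a | a
  · exact Or.inl ⟨by nlinarith only [h1, a], k D (Or.inl hf) (by nlinarith only [h1, a])⟩
  · exact Or.inr ⟨by nlinarith only [h1, a], k (-D) (Or.inr (by rw [smul_neg, hf]))
      (by rw [Bf_neg_left]; nlinarith only [h1, a])⟩

/-- The two sides are not adjacent and have no common neighbour. -/
def Far (p : I g × I g) : Prop :=
  p.2 ≠ p.1 ∧ p.2 ≠ p.1 + 1 ∧ p.1 ≠ p.2 + 1 ∧ p.2 ≠ p.1 + 2 ∧ p.1 ≠ p.2 + 2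

variable {p q : I g × I g}

theorem face_e {i j : I g} (h : j ≠ i) (h' : ¬ Adj i j) : Face (Y.e i) (Y.e j) :=
  fun _ => Y.add_pos h (not_or.1 h').1 (not_or.1 h').2

theorem cls_sq (w : W g) : w * w ∈ (cls g).ker := by
  rw [MonoidHom.mem_ker, map_mul]
  generalize cls g w = z
  revert z
  decide

/-- The translation along the common perpendicular. -/
def tp (p : I g × I g) : W g := s p.1 * s p.2 * (s p.1 * s p.2)

theorem tp_mem (p : I g × I g) : tp p ∈ WA {p.1, p.2} :=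
  have a : s p.1 * s p.2 ∈ WA {p.1, p.2} := mul_mem (s_mem_WA (by simp)) (s_mem_WA (by simp))
  mul_mem a a

theorem Far.tp_ne (Y : Poly g) (h : Far p) : tp p ≠ 1 := fun e => by
  have a : s p.1 * s p.2 = s p.2 * s p.1 := by simpa only [mul_inv_rev, s_inv] using eq_inv_of_mul_eq_one_left e
  have b := congrArg (fun w => Bf (Y.ρ w • Y.e p.1) (Y.e p.2)) a
  have c := Y.far _ _ h.1 h.2.1 h.2.2.1
  simp only [map_mul, mul_smul, Y.ρ_s, Bf_sub_left, Bf_sub_right, Bf_smul_left, Bf_smul_right,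
    Y.unit, Bf_comm (Y.e p.2) (Y.e p.1)] at b
  nlinarith only [c, b]

theorem Far.hyp (Y : Poly g) (h : Far p) : Hyp (Y.ρ (tp p)) := Y.hyp (cls_sq _) (h.tp_ne Y)

theorem WA_fix2 {N : V} (h1 : Bf N (Y.e p.1) = 0) (h2 : Bf N (Y.e p.2) = 0) {w : W g}
    (hw : w ∈ WA {p.1, p.2}) : Y.ρ w • N = N :=
  WA_fix (by rintro i (rfl | rfl) <;> rwa [Bf_comm]) hw

theorem Far.frame (h : Far p) {D : V} (h0 : Bf D D = 1) (h1 : Bf D (Y.e p.1) = 0)
    (h2 : Bf D (Y.e p.2) = 0) : ∃ f : Isom, f • D = E0 ∧ ∀ N, Face N (Y.e p.1) ∨ Bf N (Y.e p.1) = 0 →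
      Face N (Y.e p.2) ∨ Bf N (Y.e p.2) = 0 → ¬ (Bf N (Y.e p.1) = 0 ∧ Bf N (Y.e p.2) = 0) →
      (f • N).1 < 0 ∧ (f • N).2.2 < 0 := by
  obtain ⟨f, t, -, hf⟩ := (h.hyp Y).fr0 ⟨h0, WA_fix2 h1 h2 (tp_mem p)⟩
  rw [← Bf_isom f, hf, Bf_E0] at h1 h2
  exact ⟨f, hf, fun N => perp_neg (Y.unit _) (Y.unit _) h1 h2
    (face_e h.1 (not_or.2 ⟨h.2.1, h.2.2.1⟩))⟩

theorem Far.frame' (h : Far p) {D : V} (h0 : Bf D D = 1) (h1 : Bf D (Y.e p.1) = 0)
    (h2 : Bf D (Y.e p.2) = 0) : ∃ f : Isom, f • D = E0 ∧ ∀ k, k ≠ p.1 → k ≠ p.2 →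
      (f • Y.e k).1 < 0 ∧ (f • Y.e k).2.2 < 0 := by
  obtain ⟨f, hf, a⟩ := h.frame h0 h1 h2
  have k1 : ∀ k i, k ≠ i → Face (Y.e k) (Y.e i) ∨ Bf (Y.e k) (Y.e i) = 0 := fun k i b =>
    (em (Adj k i)).symm.imp (face_e b.symm) Adj.bf
  have k2 : ∀ k i, k ≠ i → Bf (Y.e k) (Y.e i) = 0 → Adj k i := fun k i b c => by
    by_contra d
    linarith [Y.far k i b.symm (not_or.1 d).1 (not_or.1 d).2]
  refine ⟨f, hf, fun k b c => a _ (k1 _ _ b) (k1 _ _ c) fun d => ?_⟩
  rcases k2 _ _ b d.1 with x | x <;> rcases k2 _ _ c d.2 with y | y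
  · exact h.1 (y.trans x.symm)
  · exact h.2.2.2.2 (by linear_combination x + y)
  · exact h.2.2.2.1 (by linear_combination x + y)
  · exact h.1 (by linear_combination x - y)

theorem Far.ne_succ (h : Far p) : p.1 + 1 ≠ p.2 := h.2.1.symm

theorem Far.spec (Y : Poly g) (h : Far p) : Bf (dl Y p) (dl Y p) = 1 ∧ Bf (dl Y p) (Y.e p.1) = 0 ∧
    Bf (dl Y p) (Y.e p.2) = 0 ∧ 0 < Bf (dl Y p) (Y.e (p.1 + 1)) := by
  have : ∃ δ, Bf δ δ = 1 ∧ Bf δ (Y.e p.1) = 0 ∧ Bf δ (Y.e p.2) = 0 ∧ 0 < Bf δ (Y.e (p.1 + 1)) := by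
    have c := Y.far _ _ h.1 h.2.1 h.2.2.1
    have a := Klein2_cr_self (Y.e p.1) (Y.e p.2)
    rw [Y.unit, Y.unit] at a
    have a0 : 0 < Bf (Y.e p.1) (Y.e p.2) ^ 2 - 1 * 1 := by nlinarith only [c]
    obtain ⟨D, h0, h1, h2⟩ : ∃ δ, Bf δ δ = 1 ∧ Bf δ (Y.e p.1) = 0 ∧ Bf δ (Y.e p.2) = 0 :=
      ⟨(√(Bf (Y.e p.1) (Y.e p.2) ^ 2 - 1 * 1))⁻¹ • Klein2_cr (Y.e p.1) (Y.e p.2), by
        rw [Bf_smul_left, Bf_smul_right, a, ← mul_assoc, ← mul_inv, Real.mul_self_sqrt a0.le,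
          inv_mul_cancel₀ a0.ne'], by simp [Klein2_cr_left], by simp [Klein2_cr_right]⟩
    obtain ⟨f, hf, b⟩ := h.frame' h0 h1 h2
    rcases face_of_neg hf (Y.unit _) (b _ (succ_ne _) h.ne_succ) with d | d
    · exact ⟨-D, by simpa using h0, by simpa using h1, by simpa using h2, by
        rw [Bf_neg_left]; linarith only [d.1]⟩
    · exact ⟨D, h0, h1, h2, by linarith [d.1]⟩
  rw [dl, dif_pos this]
  exact this.choose_spec

theorem Far.unit (h : Far p) : Bf (dl Y p) (dl Y p) = 1 := (h.spec Y).1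

theorem Far.fst (h : Far p) : Bf (dl Y p) (Y.e p.1) = 0 := (h.spec Y).2.1

theorem Far.snd (h : Far p) : Bf (dl Y p) (Y.e p.2) = 0 := (h.spec Y).2.2.1

theorem Far.fix (h : Far p) {w : W g} (hw : w ∈ WA {p.1, p.2}) : Y.ρ w • dl Y p = dl Y p :=
  WA_fix2 h.fst h.snd hw

theorem Far.ax (h : Far p) : IsAx (Y.ρ (tp p)) (dl Y p) := ⟨h.unit, h.fix (tp_mem p)⟩

theorem Far.side (h : Far p) {k : I g} (h1 : k ≠ p.1) (h2 : k ≠ p.2) :
    (Bf (dl Y p) (Y.e k) < -1 ∧ Face (dl Y p) (Y.e k)) ∨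
      (1 < Bf (dl Y p) (Y.e k) ∧ Face (-dl Y p) (Y.e k)) := by
  obtain ⟨f, hf, b⟩ := h.frame' (Y := Y) h.unit h.fst h.snd
  exact face_of_neg hf (Y.unit _) (b _ h1 h2)

theorem Far.same (h : Far p) {k l : I g} (h1 : k ≠ p.1) (h2 : k ≠ p.2) (h3 : l ≠ p.1) (h4 : l ≠ p.2)
    (a : Adj k l) : 0 < Bf (dl Y p) (Y.e k) * Bf (dl Y p) (Y.e l) := by
  obtain ⟨f, hf, b⟩ := h.frame' (Y := Y) h.unit h.fst h.snd
  have c := a.bf (Y := Y)
  rw [← Bf_isom f] at c
  rw [← Bf_isom f _ (Y.e k), ← Bf_isom f _ (Y.e l), hf, Bf_E0, Bf_E0]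
  simp only [Bf] at c
  linarith [mul_pos_of_neg_of_neg (b k h1 h2).1 (b l h3 h4).2,
    mul_pos_of_neg_of_neg (b l h3 h4).1 (b k h1 h2).2]

theorem Far.pred (h : Far p) : Bf (dl Y p) (Y.e (p.1 - 1)) < 0 := by
  obtain ⟨f, hf, b⟩ := h.frame' (Y := Y) h.unit h.fst h.snd
  have b1 := b _ (succ_ne _) h.ne_succ
  have b2 := b (p.1 - 1) (fun e => Poly.one_ne (g := g) (by linear_combination -e))
    fun e => h.2.2.1 (by linear_combination e)
  have c0 := h.fst (Y := Y)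
  have c1 := Y.adj p.1
  have c2 := Y.adj' p.1
  have c3 := Y.far (p.1 - 1) (p.1 + 1) (fun e => Y.two_ne (by linear_combination e))
    (fun e => Poly.one_ne (g := g) (by linear_combination e))
    fun e => Y.three_ne (by linear_combination -e)
  have c4 := (h.spec Y).2.2.2
  have u0 := Y.unit p.1
  have u1 := Y.unit (p.1 + 1)
  have u2 := Y.unit (p.1 - 1)
  rw [← Bf_isom f] at c0 c1 c2 c3 c4 u0 u1 u2 ⊢
  rw [hf, Bf_E0] at c0 c4 ⊢
  generalize f • Y.e p.1 = E, f • Y.e (p.1 + 1) = P, f • Y.e (p.1 - 1) = Q at *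
  obtain ⟨α, β, γ⟩ := E
  obtain ⟨x, y, z⟩ := P
  obtain ⟨x', y', z'⟩ := Q
  simp only [Bf] at *
  subst c0
  obtain rfl : x = α ^ 2 * z := by linear_combination -x * u0 + 2 * α * c1
  obtain rfl : x' = α ^ 2 * z' := by linear_combination -x' * u0 + 2 * α * c2
  by_contra! hc
  have d1 : 0 < z * z' := mul_pos_of_neg_of_neg b1.2 b2.2
  have d2 : (α ^ 2 * (z * z')) ^ 2 ≤ (y * y') ^ 2 := by
    have : (y * y') ^ 2 = (1 + α ^ 2 * z ^ 2) * (1 + α ^ 2 * z' ^ 2) := by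
      rw [mul_pow]
      congr 1
      · linear_combination u1
      · linear_combination u2
    linarith only [sq_nonneg (α * z), sq_nonneg (α * z'), this]
  have := abs_le_of_sq_le_sq' d2 (by positivity)
  linarith only [this.2, c3]

theorem Far.arc (h : Far p) (t : ℕ) (a : ∀ u ≤ t, p.1 - 1 - u ≠ p.1 ∧ p.1 - 1 - u ≠ p.2) :
    Bf (dl Y p) (Y.e (p.1 - 1 - t)) < 0 := by
  induction t with
  | zero => simpa using h.pred
  | succ t ih =>
    have b := a t t.le_succ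
    have c := a _ le_rfl
    have := h.same (Y := Y) b.1 b.2 c.1 c.2 (Or.inr (by push_cast; ring))
    nlinarith only [ih fun u hu => a u (by omega), this]

/-- A point of the common perpendicular can be moved into the polygon. -/
theorem Far.fold (h : Far p) {x : X} (hx : bf (dl Y p) x = 0) : ∃ u ∈ WA {p.1, p.2},
    Y.ρ u • x ∈ Chm Y ∧ bf (dl Y p) (Y.ρ u • x) = 0 ∧
      ∀ k, bf (Y.e k) (Y.ρ u • x) = 0 → k ∈ ({p.1, p.2} : Set (I g)) := by
  obtain ⟨u, hu, a⟩ := cover_WA Y {p.1, p.2} x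
  have b : bf (dl Y p) (Y.ρ u • x) = 0 := by rw [← h.fix hu, bf_smul, hx]
  have c : ∀ k, k ∉ ({p.1, p.2} : Set (I g)) → 0 < bf (Y.e k) (Y.ρ u • x) := fun k hk => by
    rcases h.side (Y := Y) (not_or.1 hk).1 (not_or.1 hk).2 with d | d <;>
      simpa [b] using d.2.bf (Y.ρ u • x)
  exact ⟨u, hu, fun k => (em _).elim (a k) fun e => (c k e).le, b,
    fun k hk => by_contra fun e => (c k e).ne' hk⟩

theorem Far.meet (h : Far p) (h' : Far q) {w : W g} {x : X} (hx : bf (dl Y p) x = 0)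
    (hx' : bf (Y.ρ w • dl Y q) x = 0) : ∃ u ∈ WA {p.1, p.2}, Y.ρ w • dl Y q = Y.ρ u • dl Y q := by
  obtain ⟨u, hu, a1, -, -⟩ := h.fold hx
  obtain ⟨v, hv, b1, -, b3⟩ := h'.fold (Y := Y) (x := (Y.ρ w)⁻¹ • x) (by rw [← hx', bf, bf, Bf_move]; rfl)
  have c := (chm_fix (w := u * w * v⁻¹) b1 (by simpa only [map_mul, map_inv, mul_smul, inv_smul_smul, smul_inv_smul] using a1)).2
  have d : u * w * v⁻¹ ∈ WA {q.1, q.2} := Subgroup.closure_mono
    (by rintro _ ⟨k, hk, rfl⟩; exact ⟨k, b3 k hk, rfl⟩) c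
  refine ⟨u⁻¹, inv_mem hu, ?_⟩
  have e := h'.fix (Y := Y) (mul_mem d hv)
  rw [inv_mul_cancel_right, map_mul, mul_smul] at e
  rw [map_inv, eq_inv_smul_iff, e]

theorem far_of_behind {x y : W g} (hx : Hyp (Y.ρ x)) (hy : Hyp (Y.ρ y)) {N N' : V}
    (h : IsAx (Y.ρ x) N) (h' : IsAx (Y.ρ y) N') (a : ∀ z, 0 < bf N z ∨ 0 < bf N' z) :
    Bf N N' < -1 := by
  obtain ⟨-, z, -, -, hz, -⟩ := Klein2_exists h.1
  obtain ⟨-, z', -, -, hz', -⟩ := Klein2_exists h'.1
  have b := (a z).resolve_left hz.not_gt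
  have b' := (a z').resolve_right hz'.not_gt
  have c1 : ¬ Bf N N' ^ 2 < 1 := fun c => by
    obtain ⟨P, p0, p1, p2⟩ := exists_inter h.1 h'.1 c
    exact (a ⟨P, p0⟩).elim p1.not_gt p2.not_gt
  have c2 : Bf N N' ^ 2 ≠ 1 := fun c => by
    rcases Y.not_tangent hx hy h h' c with rfl | rfl <;> simp [hz] at b
  by_contra! c3
  have c4 : 1 < Bf N N' := by
    by_contra! c4
    exact c1 (lt_of_le_of_ne (by nlinarith only [c3, c4]) c2)
  obtain ⟨t, -, ht⟩ := exists_H2_of_neg (X := N - N') (by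
    simp only [Bf_sub_left, Bf_sub_right, h.1, h'.1, Bf_comm N' N]
    linarith only [c4])
  have d := one_le_ch ht z.2
  have d' := one_le_ch ht z'.2
  simp only [ch, Bf_smul_left, Bf_sub_left, bf] at *
  rw [hz] at d
  rw [hz'] at d'
  nlinarith only [b, b', d, d']

end Pool.Agent.MP_646035_al.MC

end

-- part MP_646035_al.Cx.Model
section

/-!
The model of a bordered surface is a convex cocompact group.
-/

namespace Pool.Agent.MP_646035_al.MC

open Pool.Agent.MP_4a6971_al.H66 Pool.Agent.MP_4a6971_al.H83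

variable {g : ℕ} {Y : Poly g} {p q : I g × I g}

namespace Lay

variable {L : Lay g}

theorem far' (Y : Poly g) (h : p ∈ L.G) : Far p := by
  refine ⟨?_, ?_, (L.far p h).1, ?_, (L.far p h).2⟩ <;> rcases L.len p h with a | a <;> intro e
  · exact Y.three_ne (by linear_combination e - a)
  · exact Y.four_ne (by linear_combination e - a)
  · exact Y.two_ne (by linear_combination e - a)
  · exact Y.three_ne (by linear_combination e - a)
  · exact Poly.one_ne (g := g) (by linear_combination e - a)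
  · exact Y.two_ne (by linear_combination e - a)

theorem pair_le (h : p ∈ L.G) : WA {p.1, p.2} ≤ WA L.A :=
  WA_mono (by rintro _ (rfl | rfl); exacts [L.fst p h, L.snd p h])

theorem dl_cap (h : p ∈ L.G) {k : I g} (hk : InCap p k) : Face (-dl Y p) (Y.e k) := by
  have f := far' Y h
  have ne : ∀ k, InCap p k → k ≠ p.1 ∧ k ≠ p.2 := fun k hk =>
    ⟨fun e => L.cap p h k hk (e ▸ L.fst p h), fun e => L.cap p h k hk (e ▸ L.snd p h)⟩
  have a1 := (f.spec Y).2.2.2
  have n1 := ne _ (Or.inl rfl)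
  have n2 := ne _ (Or.inr (Or.inl rfl))
  have n3 := ne _ (Or.inr (Or.inr rfl))
  have a2 := (mul_pos_iff_of_pos_left a1).1
    (f.same (Y := Y) n1.1 n1.2 n2.1 n2.2 (Or.inl (by ring)))
  have a3 : 0 < Bf (dl Y p) (Y.e (p.2 - 1)) := by
    rcases L.len p h with a | a
    · rwa [show p.2 - 1 = p.1 + 2 by linear_combination a]
    · exact (mul_pos_iff_of_pos_left a2).1
        (f.same (Y := Y) n2.1 n2.2 n3.1 n3.2 (Or.inl (by linear_combination a)))
  refine ((f.side (ne k hk).1 (ne k hk).2).resolve_left fun b => ?_).2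
  rcases hk with rfl | rfl | rfl <;> linarith [b.1]

theorem dl_face (h : p ∈ L.G) {k : I g} (hk : ¬ InCap p k) (h1 : k ≠ p.1) (h2 : k ≠ p.2) :
    Face (dl Y p) (Y.e k) := by
  have f := far' Y h
  have a : ∀ t : ℕ, t < 2 * g + 2 → (∀ u : ℕ, p.1 - 1 - t = p.1 - 1 - u → t ≤ u) →
      ¬ InCap p (p.1 - 1 - t) → p.1 - 1 - t ≠ p.1 → p.1 - 1 - t ≠ p.2 →
      ∀ u ≤ t, p.1 - 1 - u ≠ p.1 ∧ p.1 - 1 - u ≠ p.2 := fun t t0 m c0 c1 c2 u hu => by
    have c3 : t + 1 ≠ 2 * g + 2 := fun e => c1 (by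
      have : ((t + 1 : ℕ) : I g) = 0 := by rw [e]; exact ZMod.natCast_self _
      push_cast at this
      linear_combination -this)
    refine ⟨fun e => natCast_ne_zero (g := g) (m := u + 1) (by omega) (by omega) (by
      push_cast; linear_combination -e), fun e => ?_⟩
    obtain ⟨d, rfl⟩ := Nat.exists_eq_add_of_le hu
    have k : ∀ l : ℕ, p.2 = p.1 + l → 0 < l → d < l := fun l b l0 => by
      by_contra! hc
      refine natCast_ne_zero (g := g) (m := u + l + 1) (by omega) (by omega) ?_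
      push_cast
      linear_combination -e - b
    have e' : p.1 - 1 - (u + d : ℕ) = p.2 - d := by push_cast; linear_combination e
    rw [e'] at c0 c2
    simp only [InCap, not_or] at c0
    rcases L.len p h with b | b
    · have := k 3 (by exact_mod_cast b) (by omega)
      interval_cases d
      · simp at c2
      · simp at c0
      · exact c0.1 (by push_cast; linear_combination b)
    · have := k 4 (by exact_mod_cast b) (by omega)
      interval_cases d
      · simp at c2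
      · simp at c0
      · exact c0.2.1 (by push_cast; linear_combination b)
      · exact c0.1 (by push_cast; linear_combination b)
  have e : k = p.1 - 1 - ((p.1 - 1 - k).val : ℕ) := by simp
  have b := f.arc (Y := Y) _ (a _ (ZMod.val_lt (p.1 - 1 - k)) (fun u hu => by
    rw [← e] at hu
    rw [hu, sub_sub_cancel, ZMod.val_natCast]
    exact Nat.mod_le _ _) (e ▸ hk) (e ▸ h1) (e ▸ h2))
  rw [← e] at b
  exact ((f.side h1 h2).resolve_right fun c => by linarith [c.1]).2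

theorem dl_mirror (h : p ∈ L.G) {k : I g} (hk : k ∈ L.A) (h1 : k ≠ p.1) (h2 : k ≠ p.2) :
    Face (dl Y p) (Y.e k) := dl_face h (fun c => L.cap p h k c hk) h1 h2

theorem dl_dl (h : p ∈ L.G) (h' : q ∈ L.G) (ne : p ≠ q) : Face (dl Y p) (dl Y q) := by
  have k : ∀ {p q}, p ∈ L.G → q ∈ L.G → p ≠ q →
      Face (dl Y p) (dl Y q) ∨ Face (-dl Y p) (dl Y q) := fun {p q} h h' ne => by
    have f := far' Y h
    have f' := far' Y h'
    obtain ⟨u, hu, a⟩ := f.frame (Y := Y) f.unit f.fst f.snd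
    have b : ∀ k ∈ L.A, Face (dl Y q) (Y.e k) ∨ Bf (dl Y q) (Y.e k) = 0 := fun k hk => by
      by_cases c1 : k = q.1
      · exact Or.inr (c1 ▸ f'.fst)
      by_cases c2 : k = q.2
      · exact Or.inr (c2 ▸ f'.snd)
      exact Or.inl (dl_mirror h' hk c1 c2)
    have c : ∀ k, Bf (dl Y q) (Y.e k) = 0 → k = q.1 ∨ k = q.2 := fun k hk => by
      by_contra! d
      rcases f'.side (Y := Y) d.1 d.2 with e | e <;> linarith only [e.1, hk]
    refine (face_of_neg hu f'.unit (a _ (b _ (L.fst p h)) (b _ (L.snd p h)) fun d => ?_)).imp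
      And.right And.right
    rcases c _ d.1 with x | x <;> rcases c _ d.2 with y | y
    · exact f.1 (y.trans x.symm)
    · exact ne (Prod.ext x y)
    · exact L.two p h (by rwa [x, y])
    · exact f.1 (y.trans x.symm)
  refine (k h h' ne).elim id fun a => (k h' h ne.symm).elim Face.symm fun b => ?_
  have := a.bf oX
  have := b.bf oX
  simp only [bf_neg] at *
  linarith

theorem fold (h : p ∈ L.G) {x : X} (hx : bf (dl Y p) x ≤ 0) : ∃ u ∈ WA {p.1, p.2},
    Y.ρ u • x ∈ DA Y L.A ∧ bf (dl Y p) (Y.ρ u • x) = bf (dl Y p) x ∧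
      ∀ k ∈ L.A, bf (Y.e k) (Y.ρ u • x) = 0 → k ∈ ({p.1, p.2} : Set (I g)) := by
  obtain ⟨u, hu, a⟩ := cover_WA Y {p.1, p.2} x
  have b : bf (dl Y p) (Y.ρ u • x) = bf (dl Y p) x := by
    nth_rewrite 1 [← (far' Y h).fix hu]
    rw [bf_smul]
  have c : ∀ k ∈ L.A, k ∉ ({p.1, p.2} : Set (I g)) → 0 < bf (Y.e k) (Y.ρ u • x) := fun k hA hk => by
    linarith [(dl_mirror (Y := Y) h hA (not_or.1 hk).1 (not_or.1 hk).2).bf (Y.ρ u • x)]
  exact ⟨u, hu, fun k hk => (em _).elim (a k) fun e => (c k hk e).le, b,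
    fun k hA hk => by_contra fun e => (c k hA e).ne' hk⟩

theorem bf_inv (f : Isom) (N : V) (x : X) : bf N (f⁻¹ • x) = bf (f • N) x := (Bf_move f N x.1).symm

theorem behind (h : p ∈ L.G) (h' : q ∈ L.G) {w : W g} (hw : w ∈ WA L.A) {x : X}
    (hx : bf (dl Y p) x ≤ 0) (hx' : bf (Y.ρ w • dl Y q) x ≤ 0) : p = q ∧ w ∈ WA {p.1, p.2} := by
  obtain ⟨u, hu, a1, a2, -⟩ := fold h hx
  rw [← bf_inv] at hx'
  obtain ⟨v, hv, b1, b2, b3⟩ := fold h' hx'
  have e : Y.ρ (u * w * v⁻¹) • Y.ρ v • (Y.ρ w)⁻¹ • x = Y.ρ u • x := by simp only [map_mul, map_inv, mul_smul, inv_smul_smul, smul_inv_smul]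
  obtain ⟨c1, c2⟩ := fix_WA b1 (mul_mem (mul_mem (pair_le h hu) hw) (inv_mem (pair_le h' hv)))
    (e ▸ a1)
  obtain rfl : p = q := by
    by_contra ne
    have := (dl_dl (Y := Y) h h' ne).bf (Y.ρ u • x)
    rw [a2, ← e, c1, b2] at this
    linarith
  have d := WA_mono (fun k hk => b3 k hk.1 hk.2) c2
  exact ⟨rfl, (Subgroup.mul_mem_cancel_left _ hu).1
    ((Subgroup.mul_mem_cancel_right _ (inv_mem hv)).1 d)⟩

theorem per0_smul {w : W g} (hw : w ∈ WA L.A) {N : V} (h : N ∈ L.per0 Y) : Y.ρ w • N ∈ L.per0 Y := by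
  obtain ⟨v, hv, p, hp, rfl⟩ := h
  exact ⟨w * v, mul_mem hw hv, p, hp, by rw [map_mul, mul_smul]⟩

theorem dl_mem (h : p ∈ L.G) : dl Y p ∈ L.per0 Y := ⟨1, one_mem _, p, h, by simp only [map_one, one_smul]⟩

theorem per0_vt {i j : I g} (a : Adj i j) (hi : i ∈ L.A) (hj : j ∈ L.A) {N : V}
    (h : N ∈ L.per0 Y) : 0 < bf N (vt Y i j) := by
  obtain ⟨w, hw, p, hp, rfl⟩ := h
  by_contra! hc
  rw [← bf_inv] at hc
  obtain ⟨u, hu, a1, -, a3⟩ := fold hp hc
  rw [← map_inv, ← mul_smul, ← map_mul] at a1 a3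
  rw [(fix_WA (fun k _ => Geo1_vt_mem a k) (mul_mem (pair_le hp hu) (inv_mem hw)) a1).1] at a3
  have f := far' Y hp
  rcases a3 i hi (vt_spec a).1 with rfl | rfl <;> rcases a3 j hj (vt_spec a).2 with rfl | e
  · exact a.par_ne rfl
  · exact (e ▸ a : Adj p.1 p.2).elim f.2.1 f.2.2.1
  · exact a.elim f.2.2.1 f.2.1
  · exact a.par_ne (congrArg par e.symm)

theorem per0_far {N N' : V} (h : N ∈ L.per0 Y) (h' : N' ∈ L.per0 Y) (ne : N ≠ N') :
    Bf N N' < -1 := by
  obtain ⟨w, hw, p, hp, rfl⟩ := h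
  obtain ⟨v, hv, q, hq, rfl⟩ := h'
  have c : ∀ (w : W g) {p}, p ∈ L.G → Hyp (Y.ρ (w * tp p * w⁻¹)) ∧
      IsAx (Y.ρ (w * tp p * w⁻¹)) (Y.ρ w • dl Y p) := fun w p hp => by
    simpa only [map_mul, map_inv] using And.intro (((far' Y hp).hyp Y).conj _) ((far' Y hp).ax.conj _)
  refine far_of_behind (c w hp).1 (c v hq).1 (c w hp).2 (c v hq).2 fun z => ?_
  by_contra! hc
  obtain ⟨rfl, a⟩ := behind (Y := Y) (x := (Y.ρ w)⁻¹ • z) hp hq (mul_mem (inv_mem hw) hv)
    (by rw [bf_inv]; exact hc.1) (by rw [bf_inv]; simpa only [map_mul, map_inv, mul_smul, smul_inv_smul] using hc.2)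
  have := (far' Y hp).fix (Y := Y) a
  rw [map_mul, map_inv, mul_smul, inv_smul_eq_iff] at this
  exact ne this.symm

variable (L Y) in
/-- The convex core, in the coordinates of the polygon. -/
def core0 : Set X := {x | ∀ N ∈ L.per0 Y, 0 ≤ bf N x}

theorem core0_smul {w : W g} (hw : w ∈ WA L.A) {x : X} (h : x ∈ L.core0 Y) :
    Y.ρ w • x ∈ L.core0 Y := fun N hN => by
  have := h _ (per0_smul (inv_mem hw) hN)
  rwa [map_inv, ← bf_inv, inv_inv] at this

theorem core0_chm {x : X} (h : x ∈ L.core0 Y) :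
    ∃ w ∈ WA L.A, Y.ρ w • x ∈ Chm Y ∧ ∀ k, bf (Y.e k) (Y.ρ w • x) = 0 → k ∈ L.A := by
  obtain ⟨w, hw, a⟩ := cover_WA Y L.A x
  have b : ∀ k, k ∉ L.A → 0 < bf (Y.e k) (Y.ρ w • x) := fun k hk => by
    obtain ⟨p, hp, c⟩ := L.cov k hk
    have := (dl_cap (Y := Y) hp c).bf (Y.ρ w • x)
    rw [bf_neg] at this
    linarith [core0_smul hw h _ (dl_mem hp)]
  exact ⟨w, hw, fun k => (em _).elim (a k) fun e => (b k e).le,
    fun k hk => by_contra fun e => (b k e).ne' hk⟩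

/-- The translates of the core are pairwise disjoint. -/
theorem core0_disj {x : X} {w : W g} (h : x ∈ L.core0 Y) (h' : Y.ρ w • x ∈ L.core0 Y) :
    w ∈ WA L.A := by
  obtain ⟨u, hu, a1, a2⟩ := core0_chm h
  obtain ⟨v, hv, b1, -⟩ := core0_chm h'
  have c := (chm_fix (w := v * w * u⁻¹) a1 (by simpa only [map_mul, map_inv, mul_smul, inv_smul_smul] using b1)).2
  have d : v * w * u⁻¹ ∈ WA L.A := Subgroup.closure_mono
    (by rintro _ ⟨k, hk, rfl⟩; exact ⟨k, a2 k hk, rfl⟩) c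
  exact (Subgroup.mul_mem_cancel_left _ hv).1 ((Subgroup.mul_mem_cancel_right _ (inv_mem hu)).1 d)

theorem dec {w : W g} (hw : w ∈ WA L.A) : ∃ (γ : L.GA) (t : W g), w = γ * t ∧ Y.ρ t • L.v0 Y = L.v0 Y ∧
    t ∈ ({1, s L.i0, s (L.i0 + 1), s (L.i0 + 1) * s L.i0} : Set (W g)) := by
  have a := s_smul_of (vt_spec (Y := Y) (adj_succ L.i0)).1
  have b := s_smul_of (vt_spec (Y := Y) (adj_succ L.i0)).2
  have a' := s_mem_WA L.m0
  have b' := s_mem_WA L.m1
  obtain ⟨γ, e | e | e | e⟩ := Geo1_cls (adj_succ L.i0) w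
  · exact ⟨⟨γ, (e ▸ hw : (γ : W g) ∈ WA L.A)⟩, 1, by simpa using e, by simp only [map_one, one_smul], by simp only [Set.mem_insert_iff, Set.mem_singleton_iff, true_or]⟩
  · exact ⟨⟨γ, (Subgroup.mul_mem_cancel_right _ a').1 (e ▸ hw)⟩, _, e, a, by simp only [Set.mem_insert_iff, Set.mem_singleton_iff, right_eq_mul, true_or, or_true]⟩
  · exact ⟨⟨γ, (Subgroup.mul_mem_cancel_right _ b').1 (e ▸ hw)⟩, _, e, b, by simp only [Set.mem_insert_iff, Set.mem_singleton_iff, left_eq_mul, true_or, or_true]⟩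
  · rw [mul_assoc] at e
    exact ⟨⟨γ, (Subgroup.mul_mem_cancel_right _ (mul_mem b' a')).1 (e ▸ hw)⟩, _, e,
      by rw [map_mul, mul_smul, v0, a, b], by simp only [Set.mem_insert_iff, mul_eq_right, mul_eq_left, Set.mem_singleton_iff, or_true]⟩

theorem cocompact0 : ∃ R, ∀ x ∈ L.core0 Y, ∃ γ : L.GA, cd x (Y.σ γ • L.v0 Y) ≤ R := by
  obtain ⟨R, hR⟩ := subset_Dsc (isCompact_Chm (Y := Y)) (L.v0 Y)
  refine ⟨R, fun x hx => ?_⟩
  obtain ⟨w, hw, a, -⟩ := core0_chm hx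
  obtain ⟨γ, t, e, b, -⟩ := dec (Y := Y) (inv_mem hw)
  refine ⟨γ, ?_⟩
  rw [← b, Y.σ_apply, ← mul_smul, ← map_mul, ← e, ← cd_smul (Y.ρ w), map_inv, smul_inv_smul, cd_comm]
  exact hR a

theorem nonel0 : ∃ (α β : L.GA) (E F : V), α ≠ 1 ∧ β ≠ 1 ∧ IsAx (Y.σ α) E ∧ IsAx (Y.σ β) F ∧
    Cr E F := by
  obtain ⟨n1, n2, n3, n4⟩ := L.far0
  have a' := s_mem_WA L.m0
  have b' := s_mem_WA L.m1
  have c' := s_mem_WA L.m2
  generalize L.i0 = i, L.j0 = j at *
  have B1 := Y.far i j n1 n2 n3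
  have B2 := Y.far (i + 1) j n2 (fun e => n4 (by linear_combination e))
    fun e => n1 (by linear_combination -e)
  have h0 : 0 < Bf (Y.e i) (Y.e j) ^ 2 + Bf (Y.e (i + 1)) (Y.e j) ^ 2 := by nlinarith only [B1]
  obtain ⟨r, r0, hr⟩ : ∃ r : ℝ, 0 < r ∧
      r ^ 2 * (Bf (Y.e i) (Y.e j) ^ 2 + Bf (Y.e (i + 1)) (Y.e j) ^ 2) = 1 :=
    ⟨(√_)⁻¹, inv_pos.2 (Real.sqrt_pos.2 h0), by
      rw [inv_pow, Real.sq_sqrt h0.le, inv_mul_cancel₀ h0.ne']⟩
  have m : s i * s (i + 1) * s j ∈ WA L.A := mul_mem (mul_mem a' b') c'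
  let α : L.GA := ⟨⟨_, cls_sq (s i * s (i + 1) * s j)⟩, mul_mem m m⟩
  have ad := Y.adj i
  have ad' := (Bf_comm _ _).trans ad
  have h1 : α ≠ 1 := fun e => by
    have e1 : s i * s (i + 1) * s j = s j * (s (i + 1) * s i) := by
      simpa only [mul_inv_rev, s_inv] using eq_inv_of_mul_eq_one_left (congrArg (fun x : L.GA => (x : W g)) e)
    have v := vt_spec (Y := Y) (adj_succ i)
    have := congrArg (fun w => bf (Y.e i) (Y.ρ w • vt Y i (i + 1))) e1
    simp only [map_mul, mul_smul, bf_s, v.1, v.2, Y.unit, ad, s_smul_of v.1, s_smul_of v.2] at this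
    nlinarith only [vt_pos (Y := Y) (adj_succ i) n1 n2, B1, this]
  have h2 : IsAx (Y.σ α) ((r * Bf (Y.e (i + 1)) (Y.e j)) • Y.e i -
      (r * Bf (Y.e i) (Y.e j)) • Y.e (i + 1)) := by
    refine ⟨by simp [Y.unit, ad, ad']; linarith only [hr], ?_⟩
    have : ∀ E, E = (r * Bf (Y.e (i + 1)) (Y.e j)) • Y.e i - (r * Bf (Y.e i) (Y.e j)) • Y.e (i + 1) →
        Y.ρ (s i * s (i + 1) * s j) • E = -E := fun E hE => by
      rw [map_mul, map_mul, mul_smul, mul_smul, Y.ρ_s_of (i := j) (by simp [hE, Bf_comm (Y.e j)]; ring),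
        hE]
      simp only [smul_sub, isom_smul, Y.ρ_s_e, Y.ρ_s_of ad, Y.ρ_s_of ad', smul_neg]
      abel
    change Y.ρ (_ * _) • _ = _
    rw [map_mul, mul_smul, this _ rfl, smul_neg, this _ rfl, neg_neg]
  refine ⟨α, ⟨cj (s i) α, mul_mem (mul_mem a' α.2) (inv_mem a')⟩, _, _, h1, fun e => h1 ?_, h2,
    h2.cj (s i), ?_⟩
  · exact Subtype.ext ((cj (s i)).map_eq_one_iff.1 (congrArg Subtype.val e))
  · simp only [Cr, smul_sub, isom_smul, Y.ρ_s_e, Y.ρ_s_of ad, Bf_sub_left, Bf_sub_right, Bf_smul_left,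
      Bf_smul_right, Bf_neg_right, Y.unit, ad, ad']
    have p1 : 0 < (r * Bf (Y.e i) (Y.e j)) ^ 2 := pow_pos_of_ne (by nlinarith only [B1, r0])
    have p2 : 0 < (r * Bf (Y.e (i + 1)) (Y.e j)) ^ 2 := pow_pos_of_ne (by nlinarith only [B2, r0])
    rw [sq_lt_one_iff_abs_lt_one, abs_lt]
    constructor <;> linarith only [hr, p1, p2]
where pow_pos_of_ne {x : ℝ} (h : x < 0) : 0 < x ^ 2 := by nlinarith only [h]

theorem σ_c (γ : Gam g) {A : Type*} [MulAction Isom A] (x : A) :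
    L.σ Y γ • L.c Y • x = L.c Y • Y.σ γ • x := by simp only [σ_apply, mul_smul, inv_smul_smul]

theorem c_v0' : L.c Y • L.v0 Y = oX := Subtype.ext (L.c_v0 Y)

theorem ax_c {γ : Gam g} {E : V} (h : IsAx (Y.σ γ) E) : IsAx (L.σ Y γ) (L.c Y • E) := h.conj _

theorem core0_c {x : X} : x ∈ L.core0 Y ↔ ∀ N ∈ L.per Y, 0 ≤ bf N (L.c Y • x) := by
  simp only [per, core0, Set.forall_mem_image, bf_smul, Set.mem_ofPred_eq]

variable (L Y) in
/-- The model as a convex cocompact group. -/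
noncomputable def fuchs : Fuchs L.GA where
  σ := (L.σ Y).comp L.GA.subtype
  per := L.per Y
  hyp γ h := (Y.hyp' fun e => h (Subtype.ext e)).conj _
  proper R := ((Y.proper (L.v0 Y).2 (L.v0 Y).2 R).preimage (f := fun γ : L.GA => (γ : W g))
    (Subtype.val_injective.comp Subtype.val_injective).injOn).subset fun γ h => by
      have h : ch o (L.σ Y γ • o) ≤ R := h
      rwa [← L.c_v0 Y, σ_c, ch_isom] at h
  per_o := by
    rintro _ ⟨N, h, rfl⟩
    rw [← L.c_v0 Y, Bf_isom]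
    exact per0_vt (adj_succ _) L.m0 L.m1 h
  per_smul := by
    rintro γ _ ⟨N, h, rfl⟩
    exact ⟨_, per0_smul γ.2 h, (σ_c _ _).symm⟩
  per_fin := by
    refine ⟨_, (((Set.toFinite {1, s L.i0, s (L.i0 + 1), s (L.i0 + 1) * s L.i0}).prod
      (Set.toFinite L.G)).image fun x => L.c Y • Y.ρ x.1 • dl Y x.2), ?_⟩
    rintro _ ⟨_, ⟨w, hw, p, hp, rfl⟩, rfl⟩
    obtain ⟨γ, t, rfl, -, a⟩ := dec (Y := Y) hw
    refine ⟨γ⁻¹, (t, p), ⟨a, hp⟩, ((σ_c _ _).trans ?_).symm⟩
    simp only [Subgroup.subtype_apply, InvMemClass.coe_inv, Y.σ_apply, map_inv, map_mul, mul_smul, inv_smul_smul]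
  per_ax := by
    rintro _ ⟨_, ⟨w, hw, p, hp, rfl⟩, rfl⟩
    refine ⟨⟨cj w ⟨tp p, cls_sq _⟩, mul_mem (mul_mem hw (pair_le hp (tp_mem p))) (inv_mem hw)⟩,
      fun e => (far' Y hp).tp_ne Y ?_, ax_c (IsAx.cj (far' Y hp).ax w)⟩
    exact congrArg Subtype.val ((cj w).map_eq_one_iff.1 (congrArg Subtype.val e))
  per_far := by
    rintro _ ⟨N, h, rfl⟩ _ ⟨N', h', rfl⟩ ne
    simpa using per0_far h h' fun e => ne (by rw [e])
  cocompact := by
    obtain ⟨R, hR⟩ := cocompact0 (L := L) (Y := Y)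
    refine ⟨R, fun P hP h => ?_⟩
    obtain ⟨γ, a⟩ := hR ((L.c Y)⁻¹ • ⟨P, hP⟩) (core0_c.2 (by simpa only [bf, smul_inv_smul, Prod.forall] using h))
    rw [← cd_smul (L.c Y), smul_inv_smul, ← σ_c, c_v0'] at a
    exact ⟨γ, a⟩
  nonel := by
    obtain ⟨α, β, E, F, a, b, c, d, e⟩ := nonel0 (L := L) (Y := Y)
    exact ⟨α, β, _, _, a, b, ax_c c, ax_c d, (cr_isom _ _ _).2 e⟩

theorem fuchs_σ (γ : L.GA) : (L.fuchs Y).σ γ = L.σ Y γ := rfl

theorem fuchs_per : (L.fuchs Y).per = L.per Y := rfl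

instance : Group.FG L.GA := by
  have : Group.FG (WA L.A) := (Group.fg_iff_subgroup_fg _).2
    ((Subgroup.fg_iff _).2 ⟨_, rfl, (Set.toFinite _).image _⟩)
  exact Group.fg_of_surjective (f := MonoidHom.mk'
    (fun x : (cls g).ker.subgroupOf (WA L.A) => (⟨⟨x.1.1, x.2⟩, x.1.2⟩ : L.GA)) fun _ _ => rfl)
    fun x => ⟨⟨⟨x.1.1, x.2⟩, x.1.2⟩, rfl⟩

theorem curve_of {α : L.GA} {E : V} (h1 : α ≠ 1) (h2 : IsAx (Y.σ α) E)
    (h3 : ∀ γ : L.GA, ¬ Cr E (Y.σ γ • E)) (h4 : ∀ N ∈ L.per0 Y, N ≠ E ∧ N ≠ -E) :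
    (L.fuchs Y).Curve (L.c Y • E) where
  ax := ⟨α, h1, ax_c h2⟩
  simple γ := by simpa [fuchs_σ, σ_c] using h3 γ
  pos := fun ⟨N, h, e⟩ => (h4 N h).1 (smul_left_cancel _ e)
  neg := fun ⟨N, h, e⟩ => (h4 N h).2 (smul_left_cancel (L.c Y) (by rw [smul_neg]; exact e))

theorem curve_wall {i : I g} (h0 : i - 1 ∈ L.A) (h1 : i ∈ L.A) (h2 : i + 1 ∈ L.A) :
    (L.fuchs Y).Curve (L.c Y • Y.e i) := by
  refine curve_of (α := ⟨tc i, mul_mem (s_mem_WA h0) (s_mem_WA h2)⟩)
    (fun e => Y.tc_ne i (congrArg Subtype.val e)) (Y.ax_tc i)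
    (fun γ => by simpa only [Y.σ_apply, map_one, one_smul] using Y.not_cr_walls (w := 1) (v := γ) (i := i) rfl) fun N h => ?_
  have := per0_vt (adj_succ i) h1 h2 h
  constructor <;> rintro rfl <;> simp [(vt_spec (adj_succ i)).1] at this

theorem curve_dl (f : Far q) (h1 : q.1 ∈ L.A) (h2 : q.2 ∈ L.A) (h3 : q ∉ L.G)
    (h4 : (q.2, q.1) ∉ L.G) : (L.fuchs Y).Curve (L.c Y • dl Y q) := by
  refine curve_of (α := ⟨⟨tp q, cls_sq _⟩,
    WA_mono (by rintro _ (rfl | rfl); exacts [h1, h2]) (tp_mem q)⟩)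
    (fun e => f.tp_ne Y (congrArg (fun x : L.GA => (x : W g)) e)) f.ax (fun γ c => ?_) ?_
  · obtain ⟨P, p0, p1, p2⟩ := exists_inter f.unit (by simpa using f.unit) c
    obtain ⟨u, hu, e⟩ := f.meet (x := ⟨P, p0⟩) (w := γ) f p1 p2
    rw [Y.σ_apply, e, f.fix hu] at c
    exact not_cr_self f.unit c
  · rintro _ ⟨w, -, p, hp, rfl⟩
    have f' := far' Y hp
    obtain ⟨-, z, -, -, hz, -⟩ := Klein2_exists (f.unit (Y := Y))
    have k : ¬ (Y.ρ w • dl Y p = dl Y q ∨ Y.ρ w • dl Y p = -dl Y q) := fun e => by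
      obtain ⟨u, hu, a⟩ := f.meet (w := w) f' hz (by rcases e with e | e <;> simp [e, hz])
      rw [a, ← f.fix hu, ← smul_neg, smul_left_cancel_iff, smul_left_cancel_iff] at e
      have c : ∀ k, Bf (dl Y q) (Y.e k) = 0 → k = p.1 ∨ k = p.2 := fun k hk => by
        by_contra! d
        rcases f'.side (Y := Y) d.1 d.2 with b | b <;> rcases e with e | e <;>
          simp [e, hk] at b <;> linarith [b.1]
      rcases c _ f.fst with x | x <;> rcases c _ f.snd with y | y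
      · exact f.1 (y.trans x.symm)
      · exact h3 (by rwa [Prod.ext x y])
      · exact h4 (by rwa [x, y])
      · exact f.1 (y.trans x.symm)
    exact not_or.1 k

end Lay

theorem eq_add_iff {i j : I g} (c : ℕ) (hc : c < 2 * g + 2) :
    j = i + c ↔ j.val = i.val + c ∨ j.val + (2 * g + 2) = i.val + c := by
  have a := ZMod.val_lt i
  have b := ZMod.val_lt j
  rw [← (ZMod.val_injective _).eq_iff, ZMod.val_add, ZMod.val_natCast_of_lt hc]
  rcases lt_or_ge (i.val + c) (2 * g + 2) with h | h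
  · rw [Nat.mod_eq_of_lt h]
    omega
  · rw [Nat.mod_eq_sub_mod h, Nat.mod_eq_of_lt (by omega)]
    omega

theorem eq_add_iff' (h : 2 ≤ g) (i j : I g) : (j = i ↔ j.val = i.val) ∧
    (j = i + 1 ↔ j.val = i.val + 1 ∨ j.val + (2 * g + 2) = i.val + 1) ∧
    (j = i + 2 ↔ j.val = i.val + 2 ∨ j.val + (2 * g + 2) = i.val + 2) ∧
    (j = i + 3 ↔ j.val = i.val + 3 ∨ j.val + (2 * g + 2) = i.val + 3) ∧
    (j = i + 4 ↔ j.val = i.val + 4 ∨ j.val + (2 * g + 2) = i.val + 4) :=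
  ⟨(ZMod.val_injective _).eq_iff.symm, by exact_mod_cast eq_add_iff 1 (by omega),
    by exact_mod_cast eq_add_iff 2 (by omega), by exact_mod_cast eq_add_iff 3 (by omega),
    by exact_mod_cast eq_add_iff 4 (by omega)⟩

theorem inCap_iff (h : 2 ≤ g) (p : I g × I g) (k : I g) : InCap p k ↔
    (k.val = p.1.val + 1 ∨ k.val + (2 * g + 2) = p.1.val + 1) ∨
    (k.val = p.1.val + 2 ∨ k.val + (2 * g + 2) = p.1.val + 2) ∨
    p.2.val = k.val + 1 ∨ p.2.val + (2 * g + 2) = k.val + 1 := by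
  rw [InCap, (eq_add_iff' h _ _).2.1, (eq_add_iff' h _ _).2.2.1, eq_sub_iff_add_eq, eq_comm (b := p.2),
    (eq_add_iff' h _ _).2.1]

/-- The layout for genus `g` and `m` holes. -/
def lay (g m : ℕ) (h : 3 ≤ 2 * g + m) : Lay (g + m) where
  A := layA g m
  G := layG g m
  fst := by rintro p (⟨t, a, b, c⟩ | ⟨a, b, c⟩) <;> simp only [layA, Set.mem_ofPred_eq] <;> omega
  snd := by rintro p (⟨t, a, b, c⟩ | ⟨a, b, c⟩) <;> simp only [layA, Set.mem_ofPred_eq] <;> omega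
  len := by
    rintro p (⟨t, a, b, c⟩ | ⟨a, b, c⟩) <;>
      rw [(eq_add_iff' (by omega) _ _).2.2.2.1, (eq_add_iff' (by omega) _ _).2.2.2.2] <;> omega
  far := by
    rintro p (⟨t, a, b, c⟩ | ⟨a, b, c⟩) <;>
      rw [Ne, Ne, (eq_add_iff' (by omega) _ _).2.1, (eq_add_iff' (by omega) _ _).2.2.1] <;> omega
  two := by
    rintro p (⟨t, a, b, c⟩ | ⟨a, b, c⟩) (⟨t', a', b', c'⟩ | ⟨a', b', c'⟩) <;> simp only at * <;> omega
  cap := by
    rintro p (⟨t, a, b, c⟩ | ⟨a, b, c⟩) k <;> rw [inCap_iff (by omega)] <;>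
      simp only [layA, Set.mem_ofPred_eq] <;> have := ZMod.val_lt k <;> omega
  cov := fun k hk => by
    simp only [layA, Set.mem_ofPred_eq] at hk
    have := ZMod.val_lt k
    by_cases a : k.val ≤ 4 * (m / 2)
    · have b : ((4 * (k.val / 4) : ℕ) : I (g + m)).val = _ := ZMod.val_natCast_of_lt (by omega)
      have c : ((4 * (k.val / 4) + 4 : ℕ) : I (g + m)).val = _ := ZMod.val_natCast_of_lt (by omega)
      refine ⟨(_, _), Or.inl ⟨k.val / 4, by omega, b, c⟩, (inCap_iff (by omega) _ _).2 ?_⟩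
      simp only [b, c]
      omega
    · have b : ((4 * (m / 2) + 2 * g + 1 : ℕ) : I (g + m)).val = _ := ZMod.val_natCast_of_lt (by omega)
      refine ⟨(_, 0), Or.inr ⟨by omega, b, ZMod.val_zero⟩, (inCap_iff (by omega) _ _).2 ?_⟩
      simp only [b]
      omega
  i0 := (4 * (m / 2) : ℕ)
  j0 := (if m < 2 then 3 else 4 * (m / 2) - 4 : ℕ)
  m0 := by
    rw [layA, Set.mem_ofPred_eq, ZMod.val_natCast_of_lt (by omega)]
    omega
  m1 := by
    rw [layA, Set.mem_ofPred_eq, ← Nat.cast_succ, ZMod.val_natCast_of_lt (by omega)]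
    omega
  m2 := by
    rw [layA, Set.mem_ofPred_eq, ZMod.val_natCast_of_lt (by split_ifs <;> omega)]
    split_ifs <;> omega
  far0 := by
    rw [Ne, Ne, Ne, Ne, (eq_add_iff' (by omega) _ _).1, (eq_add_iff' (by omega) _ _).2.1,
      (eq_add_iff' (by omega) _ _).2.1, (eq_add_iff' (by omega) _ _).2.2.1,
      ZMod.val_natCast_of_lt (by split_ifs <;> omega), ZMod.val_natCast_of_lt (by omega)]
    split_ifs <;> omega

theorem lay_A (g m : ℕ) (h : 3 ≤ 2 * g + m) : (lay g m h).A = layA g m := rfl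

theorem lay_G (g m : ℕ) (h : 3 ≤ 2 * g + m) : (lay g m h).G = layG g m := rfl

theorem lay_curve {g m : ℕ} (h : 3 ≤ 2 * g + m) (Y : Poly (g + m)) (h' : ¬ (g = 0 ∧ m = 3)) :
    ∃ E, ((lay g m h).fuchs Y).Curve E := by
  have b : ((4 * (m / 2) + 1 : ℕ) : I (g + m)).val = _ := ZMod.val_natCast_of_lt (by omega)
  by_cases a : g = 0 ∧ m % 2 = 1
  · have c : ((4 : ℕ) : I (g + m)).val = _ := ZMod.val_natCast_of_lt (by omega)
    refine ⟨_, Lay.curve_dl (q := ((4 : ℕ), (4 * (m / 2) + 1 : ℕ))) ?_ ?_ ?_ ?_ ?_⟩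
    · rw [Far, Ne, Ne, Ne, Ne, Ne, (eq_add_iff' (by omega) _ _).1, (eq_add_iff' (by omega) _ _).2.1,
        (eq_add_iff' (by omega) _ _).2.1, (eq_add_iff' (by omega) _ _).2.2.1,
        (eq_add_iff' (by omega) _ _).2.2.1, b, c]
      omega
    all_goals
      simp only [lay_A, lay_G, layA, layG, Set.mem_ofPred_eq, b, c]
      omega
  · refine ⟨_, Lay.curve_wall (i := (4 * (m / 2) + 1 : ℕ)) ?_ ?_ ?_⟩
    · rw [Nat.cast_succ, add_sub_cancel_right]
      exact (lay g m h).m0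
    · rw [Nat.cast_succ]
      exact (lay g m h).m1
    · have := ((eq_add_iff' (g := g + m) (by omega) (4 * (m / 2) + 1 : ℕ) _).2.1.1 rfl)
      have := ZMod.val_lt (((4 * (m / 2) + 1 : ℕ) : I (g + m)) + 1)
      rw [lay_A, layA, Set.mem_ofPred_eq]
      omega

end Pool.Agent.MP_646035_al.MC

end
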