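import Pool.Agent.MP_646035_al.Cx.Defs
import Pool.Agent.MP_646035_al.Mg.H66G_Act
import Pool.Agent.MP_646035_al.Mg.H84_GBase

attribute [-instance] Prod.instSMul DivisionCommMonoid.toDivisionMonoid
  NonUnitalRingHomClass.toMulHomClass MonTypeEquivalenceMon.monMonoid
  MonoidWithZeroHomClass.toMonoidHomClass ESeminormedAddCommMonoid.toAddCommMonoid Prod.mulAction
  NonUnitalAlgSemiHomClass.toMulHomClass invertibleTwo BialgHomClass.toMonoidHomClass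
  AddMonoidWithOne.toOne instDistribOfSemiring SubgroupClass.toCommGroup AddQuantale.instAddLeftMono
  Subtype.partialOrder IdemSemiring.toCanonicallyOrderedAdd

/-!
The group of outer automorphisms of a pair of pants is finite.
-/

namespace Pool.Agent.MP_646035_al.MC

open Pool.Agent.MP_4a6971_al Pool.Agent.MP_4a6971_al.H66 Pool.Agent.MP_4a6971_al.H83
  Pool.Agent.MP_4a6971_al.Mcg Set Topology H66G

variable {Γ : Type} [Group Γ] {Y : Fuchs Γ}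

/-- The images of a peripheral element have bounded trace. -/
lemma Fuchs.peri_tr {A : Subgroup (MulAut Γ)} (hA : Y.Mod A) {z : Γ} (hz : Y.Peri z) :
    ∃ L, ∀ φ ∈ A, trI (Y.σ (φ z)) ≤ L := by
  obtain ⟨z1, N, hN, z2⟩ := hz
  obtain ⟨T, t1, t2⟩ := Y.per_fin
  have gen : ∀ M, ∃ c, M ∈ Y.per → c ≠ 1 ∧ IsAx (Y.σ c) M ∧
      ∀ g, Y.σ g • M = M → ∃ k : ℤ, g = c ^ k := fun M => by
    by_cases h : M ∈ Y.per
    · have ax : H84.Fu.Ax Y M := Y.per_ax M h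
      obtain ⟨γ, l⟩ := ax.pl
      obtain ⟨c, τ, p⟩ := ax.exists_per l
      exact ⟨c, fun _ => ⟨p.ne, p.isAx, fun g e => p.gen g (Or.inl e)⟩⟩
    · exact ⟨1, fun e => (h e).elim⟩
  choose c hc using gen
  obtain ⟨c1, c2, c3⟩ := hc N hN
  obtain ⟨k, rfl⟩ := c3 z z2
  obtain ⟨L, hL⟩ := ((t1.image fun M => trI (Y.σ (c M ^ k))).union
    (t1.image fun M => trI (Y.σ (c M ^ (-k))))).bddAbove
  refine ⟨L, fun φ hφ => ?_⟩
  obtain ⟨F, r, hF⟩ : ∃ F, Rl Y φ N F ∧ F ∈ Y.per := by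
    obtain ⟨F, r⟩ := exists_rl φ c1 c2
    rcases r.per hA hφ hN with p | p
    exacts [⟨F, r, p⟩, ⟨-F, r.neg_right, p⟩]
  obtain ⟨γ, hγ⟩ := t2 F hF
  obtain ⟨y, y1, y2, -⟩ := r.symm
  have s := r.trans (Rl.conj y1 y2 γ)
  obtain ⟨d1, d2, d3⟩ := hc _ (Y.per_smul γ F hF)
  obtain ⟨m, hm⟩ := d3 _ (s.ax c1 c2).2
  obtain ⟨n, hn⟩ := c3 _ (s.symm.ax d1 d2).2
  have e : n * m - 1 = 0 := by_contra fun h => zpow_ne Y c1 h (by
    rw [zpow_sub, zpow_mul, ← hn, ← map_zpow, ← hm]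
    simp only [mul_inv_rev, MulAut.mul_apply, MulAut.conj_apply, mul_assoc, MulAut.inv_apply, MulAut.conj_symm_apply, inv_mul_cancel_left, inv_mul_cancel, mul_one, MulEquiv.symm_apply_apply, zpow_ofNat, pow_one, mul_inv_cancel])
  have e' : trI (Y.σ (φ (c N ^ k))) = trI (Y.σ (c (Y.σ γ • F) ^ (m * k))) := by
    rw [zpow_mul, ← hm, ← map_zpow (MulAut.conj γ * φ), ← trI_conj (Y.σ γ)]
    simp
  rw [e']
  rcases Int.eq_one_or_neg_one_of_mul_eq_one' (by linarith only [e] : n * m = 1) with h | h <;> rw [h.2]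
  · exact hL (Or.inl ⟨_, hγ, by simp only [map_zpow, one_mul]⟩)
  · exact hL (Or.inr ⟨_, hγ, by simp only [zpow_neg, map_inv, map_zpow, Int.reduceNeg, neg_mul, one_mul]⟩)

theorem Fuchs.finite_out {A : Subgroup (MulAut Γ)} (hA : Y.Mod A) (hp : Y.Pants) :
    Finite (OutA A) := by
  obtain ⟨x, y, g, px, py, pz⟩ := hp
  obtain ⟨L1, l1⟩ := Fuchs.peri_tr hA px
  obtain ⟨L2, l2⟩ := Fuchs.peri_tr hA py
  obtain ⟨L3, l3⟩ := Fuchs.peri_tr hA pz
  obtain ⟨L, a1, a2, a3⟩ : ∃ L, L1 ≤ L ∧ L2 ≤ L ∧ L3 ≤ L :=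
    ⟨max L1 (max L2 L3), by simp only [le_sup_left], by simp, by simp⟩
  obtain ⟨X, x1, x2⟩ := Y.finite_conj L
  obtain ⟨C, hC⟩ := (x1.image fun t => (trI (Y.σ t) - 3)⁻¹).bddAbove
  have lo : ∀ t, t ≠ 1 → trI (Y.σ t) ≤ L → 1 ≤ C * (trI (Y.σ t) - 3) := fun t t1 t2 => by
    obtain ⟨δ, hδ⟩ := x2 t t2
    have := hC ⟨_, hδ, rfl⟩
    simp only [map_mul, map_inv] at this
    nth_rewrite 2 [← inv_inv (Y.σ δ)] at this
    rwa [trI_conj, inv_le_iff_one_le_mul₀ (sub_pos.2 (three_lt (Y.hyp t t1)))] at this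
  have ne : ∀ (φ : MulAut Γ) E F, IsAx (Y.σ (φ x)) E → IsAx (Y.σ (φ y)) F → Bf E F ^ 2 ≠ 1 :=
    fun φ G F a b c => by
    have b' : IsAx (Y.σ (φ y)) G := by
      rcases not_tangent (by simpa using px.1) (by simpa using py.1) a b c with rfl | rfl
      exacts [b, by simpa using b.neg]
    have g3 : ∀ γ, Y.σ γ • G = G := fun γ => by
      have := (Subgroup.closure_le (k := {x, y}) (((MulAction.stabilizer Isom G).comap Y.σ).comap
        φ.toMonoidHom)).2 (by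
          rintro _ (rfl | rfl)
          exacts [a.2, b'.2]) (g ▸ Subgroup.mem_top (φ⁻¹ γ))
      simpa using this
    obtain ⟨α, β, E, E', n1, n2, hE, hF, d⟩ := Y.nonel
    rcases (Y.hyp α n1).ax_unique ⟨a.1, g3 α⟩ hE with rfl | rfl <;>
      rcases (Y.hyp β n2).ax_unique ⟨a.1, g3 β⟩ hF with rfl | rfl <;>
      exact not_cr_self a.1 (by simpa using d)
  obtain ⟨B, hB⟩ : ∃ B, ∀ φ ∈ A, ∀ E F, IsAx (Y.σ (φ x)) E → IsAx (Y.σ (φ y)) F →
      Bf E F ^ 2 ≤ B := ⟨(8 * (L + 1) + 2 * ((L + 1) * (L + 1))) * (C * C), fun φ hφ E F a b => by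
    have nx : φ x ≠ 1 := by simpa using px.1
    have ny : φ y ≠ 1 := by simpa using py.1
    have h := bf_le (Y.hyp _ nx) (Y.hyp _ ny) a b
    rw [← map_mul, ← map_mul] at h
    have u1 := (l1 φ hφ).trans a1
    have u2 := (l2 φ hφ).trans a2
    have u3 := (l3 φ hφ).trans a3
    have v1 := lo _ nx u1
    have v2 := lo _ ny u2
    have w1 := three_lt (Y.hyp _ nx)
    have w2 := three_lt (Y.hyp _ ny)
    have w3 : (trI (Y.σ (φ x)) + 1) * (trI (Y.σ (φ y)) + 1) ≤ (L + 1) * (L + 1) := by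
      gcongr
      linarith only [u1, w1]
    have w4 := one_le_mul_of_one_le_of_one_le v1 v2
    refine (le_mul_of_one_le_right (sq_nonneg _) w4).trans ?_
    rw [mul_mul_mul_comm, mul_comm (C * C), ← mul_assoc]
    exact mul_le_mul_of_nonneg_right (by linarith only [h, u3, w3]) (mul_self_nonneg C)⟩
  have h1 : ∀ x', ∃ S : Set Γ, S.Finite ∧ (x' ≠ 1 → ∀ y' E F, y' ≠ 1 → IsAx (Y.σ x') E →
      IsAx (Y.σ y') F → trI (Y.σ y') ≤ L → Bf E F ^ 2 ≤ B → Bf E F ^ 2 ≠ 1 →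
      ∃ k : ℤ, x' ^ k * y' * (x' ^ k)⁻¹ ∈ S) := fun x' => by
    by_cases n1 : x' = 1
    · exact ⟨∅, finite_empty, fun h => (h n1).elim⟩
    obtain ⟨G, hG⟩ := (Y.hyp x' n1).exists_ax
    obtain ⟨R, hR⟩ := norm_line' (Y.hyp x' n1) hG B
    refine ⟨_, short_fin Y L R, fun _ y' E F n2 a b c d e => ?_⟩
    obtain ⟨k, hk⟩ := hR F b.1
      (by rcases (Y.hyp x' n1).ax_unique hG a with rfl | rfl <;> simpa using d)
      (by rcases (Y.hyp x' n1).ax_unique hG a with rfl | rfl <;> simpa only [ne_eq, sq_eq_one_iff, not_or, Bf_neg_left, even_two, Even.neg_pow] using e)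
    exact ⟨k, by simpa only [ne_eq, conj_eq_one_iff] using n2, by rwa [map_mul, map_mul, map_inv, trI_conj], _, ax_conj b _,
      by rwa [map_zpow]⟩
  choose S s1 s2 using h1
  have fin : {ψ : A | ψ.1 x ∈ X ∧ ψ.1 y ∈ ⋃ t ∈ X, S t}.Finite :=
    Finite.of_finite_image (f := fun ψ : A => (ψ.1 x, ψ.1 y))
      ((x1.prod (x1.biUnion fun t _ => s1 t)).subset (by rintro _ ⟨ψ, h, rfl⟩; exact h))
      fun φ _ ψ _ h => Subtype.ext (MulEquiv.toMonoidHom_injective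
        (MonoidHom.eq_of_eqOn_dense g (by
          rintro _ (rfl | rfl)
          exacts [congrArg Prod.fst h, congrArg Prod.snd h])))
  refine finite_univ_iff.1 ((fin.image QuotientGroup.mk).subset fun q _ => ?_)
  obtain ⟨φ, rfl⟩ := QuotientGroup.mk_surjective q
  have m : ∀ δ, MulAut.conj δ ∈ A := fun δ => hA.inn ⟨δ, rfl⟩
  have cj : ∀ δ (ψ : A), (QuotientGroup.mk (⟨_, m δ⟩ * ψ) : OutA A) = QuotientGroup.mk ψ :=
    fun δ ψ => by
    rw [QuotientGroup.mk_mul, (QuotientGroup.eq_one_iff _).2 (by exact ⟨δ, rfl⟩), one_mul]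
  obtain ⟨δ, hδ⟩ := x2 _ ((l1 φ φ.2).trans a1)
  obtain ⟨ψ, e, hψ⟩ : ∃ ψ : A, (QuotientGroup.mk ψ : OutA A) = QuotientGroup.mk φ ∧ ψ.1 x ∈ X :=
    ⟨_, cj δ⁻¹ φ, by simpa only [map_inv, Subgroup.coe_mul, MulAut.mul_apply, MulAut.inv_apply, MulAut.conj_symm_apply] using hδ⟩
  have nx : ψ.1 x ≠ 1 := by simpa using px.1
  have ny : ψ.1 y ≠ 1 := by simpa using py.1
  obtain ⟨E, hE⟩ := (Y.hyp _ nx).exists_ax
  obtain ⟨F, hF⟩ := (Y.hyp _ ny).exists_ax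
  obtain ⟨k, hk⟩ := s2 _ nx _ E F ny hE hF ((l2 ψ ψ.2).trans a2) (hB ψ ψ.2 E F hE hF)
    (ne ψ E F hE hF)
  refine ⟨_, ⟨?_, mem_biUnion hψ hk⟩, (cj (ψ.1 x ^ k) ψ).trans e⟩
  change ψ.1 x ^ k * ψ.1 x * (ψ.1 x ^ k)⁻¹ ∈ X
  rwa [← (Commute.self_zpow _ k).eq, mul_inv_cancel_right]

end Pool.Agent.MP_646035_al.MC
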