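import Pool.Agent.MP_646035_al.Mg.EN_RSApi

attribute [-instance] DistribMulActionSemiHomClass.toAddMonoidHomClass
  SemilinearMapClass.toAddHomClass DivisionSemiring.toSemiring
  AlgHom.instNonUnitalAlgHomClassOfAlgHomClass instCharZeroOfIsSemireal RKHS.instFunLike
  MonTypeEquivalenceMon.monMonoid LieAdmissibleAlgebra.toModule LieAlgebra.toModule
  RightPreLieAlgebra.toModule LeftPreLieAlgebra.toModule DivisionRing.toRing IdemSemiring.toSemiring
  instNonUnitalAlgHomClassOfNonUnitalAlgEquivClass RCLike.charZero_rclike NumberField.to_charZero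
  RingConeClass.toSubsemiringClass FloorSemiring.instCharZero BialgHomClass.toMonoidHomClass
  NormedSpace.toModule Nontrivial.to_nonempty instCoeTCOfCoe Semifield.toCommSemiring
  MulRingSeminormClass.toMonoidWithZeroHomClass Group.IsPerfect.subsingleton_of_isMulCommutative
  AlgHomClass.toRingHomClass IdemCommSemiring.toCommSemiring
  ContinuousMonoidHom.instCoeOutOfMonoidHomClassOfContinuousMapClass
  NonUnitalAlgSemiHomClass.toMulHomClass Finsupp.fintype GeneralizedCoheytingAlgebra.toLattice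
  ValuationClass.toMonoidWithZeroHomClass instCoeTOfCoeDep GroupConeClass.toSubmonoidClass
  NonUnitalAlgHomClass.toNonUnitalRingHomClass MulCharClass.toMonoidHomClass

-- part MP_646035_al.EN.Tri
section

/-! Dual numbers and extension of derivations; triangular substitutions (Lemma T). -/

set_option autoImplicit false
open Filter

namespace EN
variable {p : ℕ} {K K' : Type} [CommRing K] [CommRing K'] {I : Type}

theorem dual_pow_mul (k : ℕ) (y : DualNumber K) :
    ((p : DualNumber K) ^ k * y).fst = (p : K) ^ k * y.fst ∧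
      ((p : DualNumber K) ^ k * y).snd = (p : K) ^ k * y.snd :=
  ⟨addHom_pow_mul (TrivSqZeroExt.fstHom K K K).toRingHom.toAddMonoidHom k y,
    addHom_pow_mul (TrivSqZeroExt.sndHom K K).toAddMonoidHom k y⟩

theorem dual_dvd {k : ℕ} {z : DualNumber K} :
    (p : DualNumber K) ^ k ∣ z ↔ (p : K) ^ k ∣ z.fst ∧ (p : K) ^ k ∣ z.snd := by
  constructor
  · rintro ⟨y, rfl⟩
    exact ⟨⟨_, (dual_pow_mul k y).1⟩, ⟨_, (dual_pow_mul k y).2⟩⟩
  · rintro ⟨⟨a, ha⟩, ⟨b, hb⟩⟩
    exact ⟨(a, b), TrivSqZeroExt.ext (ha.trans (dual_pow_mul k (a, b)).1.symm)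
      (hb.trans (dual_pow_mul k (a, b)).2.symm)⟩

instance instPRDual [PR p K] : PR p (DualNumber K) where
  reg x h := by
    have h1 := dual_pow_mul (p := p) 1 x
    simp only [pow_one, h] at h1
    exact TrivSqZeroExt.ext (PR.reg (p := p) _ h1.1.symm) (PR.reg (p := p) _ h1.2.symm)
  sep x h := TrivSqZeroExt.ext (PR.sep (p := p) _ fun k => (dual_dvd.1 (h k)).1)
    (PR.sep (p := p) _ fun k => (dual_dvd.1 (h k)).2)
  cpl t := by
    obtain ⟨a, ha⟩ := PR.cpl (p := p) fun i => (t i).fst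
    obtain ⟨b, hb⟩ := PR.cpl (p := p) fun i => (t i).snd
    refine ⟨(a, b), fun k => dual_dvd.2 ⟨?_, ?_⟩⟩
    · simpa only [TrivSqZeroExt.fst_sub, TrivSqZeroExt.fst_sum, (dual_pow_mul _ _).1,
        TrivSqZeroExt.fst_mk] using ha k
    · simpa only [TrivSqZeroExt.snd_sub, TrivSqZeroExt.snd_sum, (dual_pow_mul _ _).2,
        TrivSqZeroExt.snd_mk] using hb k

/-- The homomorphism `x ↦ g x + g (D x) ε`. -/
def dualHom (g : K →+* K') {D : K →+ K} (hD : IsDer D) : K →+* DualNumber K' where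
  toFun x := (g x, g (D x))
  map_one' := TrivSqZeroExt.ext (by simp) (by simp [hD.one])
  map_zero' := TrivSqZeroExt.ext (by simp only [map_zero, TrivSqZeroExt.fst_mk, TrivSqZeroExt.fst_zero]) (by simp)
  map_add' x y := TrivSqZeroExt.ext (by simp only [map_add, TrivSqZeroExt.fst_mk, TrivSqZeroExt.fst_add]) (by simp)
  map_mul' x y := TrivSqZeroExt.ext (by simp only [map_mul, TrivSqZeroExt.fst_mk, TrivSqZeroExt.fst_mul]) (by simp [hD x y, mul_comm])

@[simp] theorem dualHom_fst (g : K →+* K') {D : K →+ K} (hD : IsDer D) (x : K) :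
    (dualHom g hD x).fst = g x := rfl

@[simp] theorem dualHom_snd (g : K →+* K') {D : K →+ K} (hD : IsDer D) (x : K) :
    (dualHom g hD x).snd = g (D x) := rfl

/-- The derivation attached to a section `K → K[ε]`. -/
theorem exists_der_of_hom (φ : K →+* DualNumber K) (h : ∀ x, (φ x).fst = x) :
    ∃ D : K →+ K, IsDer D ∧ ∀ x, D x = (φ x).snd := by
  refine ⟨(TrivSqZeroExt.sndHom K K).toAddMonoidHom.comp φ.toAddMonoidHom, fun x y => ?_,
    fun _ => rfl⟩
  change (φ (x * y)).snd = x * (φ y).snd + y * (φ x).snd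
  rw [map_mul, DualNumber.snd_mul, h, h]
  ring

namespace RS

/-- Extension of a derivation with prescribed values on the variables. -/
theorem exists_der [PR p K] {D : K →+ K} (hD : IsDer D) (s : I → RS p K I) :
    ∃ D' : RS p K I →+ RS p K I, IsDer D' ∧ (∀ c, D' (C c) = C (D c)) ∧ ∀ i, D' (X i) = s i := by
  let φ : RS p K I →+* DualNumber (RS p K I) := lift (dualHom C hD) fun i => (X i, s i)
  have h1 : (TrivSqZeroExt.fstHom (RS p K I) (RS p K I) (RS p K I)).toRingHom.comp φ =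
      RingHom.id _ := hom_ext (fun c => by simp only [AlgHom.toRingHom_eq_coe, φ, RingHom.coe_comp, RingHom.coe_coe, Function.comp_apply, lift_C, TrivSqZeroExt.fstHom_apply, dualHom_fst, RingHomCompTriple.comp_apply]) fun i => by simp only [AlgHom.toRingHom_eq_coe, φ, RingHom.coe_comp, RingHom.coe_coe, Function.comp_apply, lift_X, TrivSqZeroExt.fstHom_apply, TrivSqZeroExt.fst_mk, RingHom.id_apply]
  obtain ⟨D', h2, h3⟩ := exists_der_of_hom φ fun x => RingHom.congr_fun h1 x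
  exact ⟨D', h2, fun c => by simp only [h3, φ, lift_C, dualHom_snd], fun i => by simp [h3, φ]⟩

/-- `(D' F)(0) = D (F(0))`. -/
theorem ev0_der [PR p K] {D : K →+ K} (hD : IsDer D) {D' : RS p K I →+ RS p K I} (hD' : IsDer D')
    (hC : ∀ c, D' (C c) = C (D c)) (hX : ∀ i, ev0 (D' (X i)) = 0) (F : RS p K I) :
    ev0 (D' F) = D (ev0 F) := by
  have h : dualHom ev0 hD' = (dualHom (RingHom.id K) hD).comp ev0 :=
    hom_ext (fun c => TrivSqZeroExt.ext (by simp only [dualHom_fst, ev0_C, RingHom.coe_comp, Function.comp_apply, RingHom.id_apply]) (by simp only [dualHom_snd, hC, ev0_C, RingHom.coe_comp, Function.comp_apply, RingHom.id_apply]))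
      fun i => TrivSqZeroExt.ext (by simp only [dualHom_fst, ev0_X, RingHom.coe_comp, Function.comp_apply, map_zero, TrivSqZeroExt.fst_zero]) (by simp [hX])
  exact congrArg TrivSqZeroExt.snd (RingHom.congr_fun h F)

variable [LinearOrder I]

/-- `G` is, mod `p`, a linear form in the variables below `i`. -/
def Low (i : I) (G : RS p K I) : Prop :=
  ∀ μ, (∀ j, j < i → μ ≠ Finsupp.single j 1) → (p : K) ∣ coeff μ G

theorem Low.add {i : I} {F G : RS p K I} (hF : Low i F) (hG : Low i G) : Low i (F + G) :=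
  fun μ h => by rw [map_add]; exact dvd_add (hF μ h) (hG μ h)

theorem Low.neg {i : I} {F : RS p K I} (hF : Low i F) : Low i (-F) :=
  fun μ h => by rw [map_neg]; exact (hF μ h).neg_right

theorem Low.C_mul {i : I} {F : RS p K I} (hF : Low i F) (c : K) : Low i (C c * F) :=
  fun μ h => by rw [coeff_C_mul]; exact (hF μ h).mul_left c

theorem low_of_dvd (i : I) {F : RS p K I} (h : (p : RS p K I) ∣ F) : Low i F := fun μ _ => by
  obtain ⟨y, rfl⟩ := h
  simp only [coeff_p_mul, dvd_mul_right]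

theorem low_sum {i : I} {J : Type} (s : Finset J) {F : J → RS p K I} (h : ∀ j ∈ s, Low i (F j)) :
    Low i (∑ j ∈ s, F j) := fun μ hμ => by
  rw [map_sum]; exact Finset.dvd_sum fun j hj => h j hj μ hμ

theorem low_X {i j : I} (h : j < i) : Low i (X j : RS p K I) := fun μ hμ => by
  rw [coeff_X, if_neg (hμ j h)]; exact dvd_zero _

theorem tri_iff_low {i : I} {F : RS p K I} : Tri i F ↔ Low i (F - X i) := by
  constructor
  · rintro ⟨h1, h2⟩ μ hμ
    rw [map_sub, coeff_X]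
    split_ifs with h
    · rw [h]; exact h1
    · simpa only [sub_zero] using h2 μ h hμ
  · intro h
    refine ⟨?_, fun μ h1 h2 => ?_⟩
    · have := h (Finsupp.single i 1) fun j hj he =>
        hj.ne' ((Finsupp.single_left_inj one_ne_zero).1 he)
      rwa [map_sub, coeff_X, if_pos rfl] at this
    · have := h μ h2
      rwa [map_sub, coeff_X, if_neg h1, sub_zero] at this

theorem tri_X (i : I) : Tri i (X i : RS p K I) :=
  tri_iff_low.2 (low_of_dvd i (by simp only [sub_self, dvd_zero]))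

theorem Tri.add_low {i : I} {F G : RS p K I} (hF : Tri i F) (hG : Low i G) : Tri i (F + G) := by
  rw [tri_iff_low] at hF ⊢
  rw [add_sub_right_comm]
  exact hF.add hG

theorem Tri.add_dvd {i : I} {F G : RS p K I} (hF : Tri i F) (hG : (p : RS p K I) ∣ G) :
    Tri i (F + G) := hF.add_low (low_of_dvd i hG)

theorem Tri.low {i j : I} {F : RS p K I} (hF : Tri j F) (h : j < i) : Low i F := by
  have h1 : Low i (F - X j) := fun μ hμ => tri_iff_low.1 hF μ fun l hl => hμ l (hl.trans h)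
  simpa using h1.add (low_X h)

theorem Tri.map {i : I} {F : RS p K I} (hF : Tri i F) (h : K →+* K') : Tri i (map h F) :=
  ⟨by simpa only [coeff_map, map_natCast, map_sub, map_one] using map_dvd h hF.1, fun μ h1 h2 => by simpa only [coeff_map, map_natCast] using map_dvd h (hF.2 μ h1 h2)⟩

theorem Tri.dvd_ev0 {i : I} {F : RS p K I} (hF : Tri i F) : (p : K) ∣ ev0 F :=
  hF.2 0 (Finsupp.single_ne_zero.2 one_ne_zero).symm
    fun _ _ => (Finsupp.single_ne_zero.2 one_ne_zero).symm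

theorem coeff_linear (s : Finset I) (l : I → K) (μ : I →₀ ℕ) :
    coeff μ (∑ j ∈ s, C (l j) * X j : RS p K I) =
      ∑ j ∈ s, if μ = Finsupp.single j 1 then l j else 0 := by
  simp [map_sum, coeff_X]

/-- If `s` contains all `j < i` whose coefficient matters, `G` is the linear form over `s` mod `p`. -/
theorem Low.dvd_sub [PR p K] {i : I} {G : RS p K I} (h : Low i G) (s : Finset I)
    (hs : ∀ j, j < i → j ∉ s → (p : K) ∣ coeff (Finsupp.single j 1) G) :
    (p : RS p K I) ∣ G - ∑ j ∈ s, C (coeff (Finsupp.single j 1) G) * X j := by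
  refine dvd_iff.2 fun μ => ?_
  rw [map_sub, coeff_linear]
  by_cases hμ : ∃ j ∈ s, μ = Finsupp.single j 1
  · obtain ⟨j, hj, rfl⟩ := hμ
    simp only [ne_eq, one_ne_zero, not_false_eq_true, Finsupp.single_left_inj, Finset.sum_ite_eq, hj, ↓ reduceIte, sub_self, dvd_zero]
  · push Not at hμ
    rw [Finset.sum_eq_zero fun j hj => if_neg (hμ j hj), sub_zero]
    by_cases h1 : ∃ j, j < i ∧ μ = Finsupp.single j 1
    · obtain ⟨j, hj, rfl⟩ := h1
      exact hs j hj fun hjs => hμ j hjs rfl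
    · exact h μ fun j hj he => h1 ⟨j, hj, he⟩

theorem Low.exists_linear [PR p K] {i : I} {G : RS p K I} (h : Low i G) :
    ∃ (s : Finset I) (l : I → K), (∀ j ∈ s, j < i) ∧
      (p : RS p K I) ∣ G - ∑ j ∈ s, C (l j) * X j := by
  have hf : {j | j < i ∧ ¬ (p : K) ∣ coeff (Finsupp.single j 1) G}.Finite :=
    ((decay G 1).preimage (f := fun j => Finsupp.single j 1)
      (Finsupp.single_left_injective one_ne_zero).injOn).subset fun j hj => by simpa only [pow_one, Set.preimage_ofPred_eq, Set.mem_ofPred_eq] using hj.2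
  refine ⟨hf.toFinset, _, fun j hj => (hf.mem_toFinset.1 hj).1, h.dvd_sub _ fun j hj hn => ?_⟩
  by_contra hc
  exact hn (hf.mem_toFinset.2 ⟨hj, hc⟩)

/-- A derivation that shifts the variables monotonically and is small on `K` keeps `Tri`. -/
theorem Tri.der [PR p K] {D : RS p K I →+ RS p K I} (hD : IsDer D)
    (hC : ∀ c, (p : RS p K I) ∣ D (C c)) {sh : I → I} (hsh : StrictMono sh)
    (hX : ∀ i, D (X i) = X (sh i)) {i : I} {F : RS p K I} (hF : Tri i F) : Tri (sh i) (D F) := by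
  obtain ⟨s, l, hs, y, hy⟩ := (tri_iff_low.1 hF).exists_linear
  have h1 : F = X i + (∑ j ∈ s, C (l j) * X j + (p : RS p K I) ^ 1 * y) := by
    rw [pow_one, ← hy]; ring
  rw [h1, map_add, map_add, map_sum, addHom_pow_mul, hX]
  refine (tri_X _).add_low ((low_sum s fun j hj => ?_).add (low_of_dvd _ (by simp only [pow_one, dvd_mul_right])))
  rw [hD, hX]
  exact ((low_X (hsh (hs j hj))).C_mul _).add (low_of_dvd _ ((hC _).mul_left _))

variable [WellFoundedLT I]

theorem exists_tri_preimage [PR p K] {t : I → RS p K I} (ht : ∀ i, Tri i (t i)) (i : I) :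
    ∃ l : RS p K I, Tri i l ∧
      (p : RS p K I) ∣ X i - (lift C t : RS p K I →+* RS p K I) l := by
  induction i using WellFoundedLT.induction with
  | ind i ih =>
    choose! g hg hg' using ih
    obtain ⟨s, l, hs, hy⟩ := (tri_iff_low.1 (ht i)).exists_linear
    refine ⟨X i + -∑ j ∈ s, C (l j) * g j, (tri_X i).add_low
      (low_sum s fun j hj => ((hg j (hs j hj)).low (hs j hj)).C_mul _).neg, ?_⟩
    have h1 : (p : RS p K I) ∣
        ∑ j ∈ s, C (l j) * (X j - (lift C t : RS p K I →+* RS p K I) (g j)) :=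
      Finset.dvd_sum fun j hj => (hg' j (hs j hj)).mul_left _
    have := dvd_add hy h1
    simp only [map_add, map_neg, map_sum, map_mul, lift_C, lift_X, mul_sub,
      Finset.sum_sub_distrib] at this ⊢
    convert this.neg_right using 1
    ring

theorem tri_surjective [PR p K] {t : I → RS p K I} (ht : ∀ i, Tri i (t i)) :
    Function.Surjective (lift C t : RS p K I →+* RS p K I) := by
  have h1 : ∀ q : MvPolynomial I K, ∃ l : RS p K I,
      (p : RS p K I) ∣ ofPoly q - (lift C t : RS p K I →+* RS p K I) l := fun q => by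
    induction q using MvPolynomial.induction_on with
    | C c => exact ⟨C c, by simp only [ofPoly_C, lift_C, sub_self, dvd_zero]⟩
    | add q r hq hr =>
      obtain ⟨a, ha⟩ := hq
      obtain ⟨b, hb⟩ := hr
      refine ⟨a + b, ?_⟩
      have := dvd_add ha hb
      simp only [map_add]
      convert this using 1
      ring
    | mul_X q i hq =>
      obtain ⟨a, ha⟩ := hq
      obtain ⟨b, -, hb⟩ := exists_tri_preimage ht i
      refine ⟨a * b, ?_⟩
      have := dvd_add (ha.mul_right (X i)) (hb.mul_left ((lift C t : RS p K I →+* RS p K I) a))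
      simp only [map_mul, ofPoly_X]
      convert this using 1
      ring
  intro F
  refine (closed_range (p := p) (lift C t : RS p K I →+* RS p K I)).iter (S := Set.univ)
    (fun x _ => ?_) (Set.mem_univ F)
  obtain ⟨q, y, hy⟩ := exists_poly x 1
  obtain ⟨l, z, hz⟩ := h1 q
  refine ⟨_, ⟨l, rfl⟩, y + z, trivial, ?_⟩
  rw [pow_one] at hy
  rw [mul_add, ← hy, ← hz]
  ring

/-- Lemma T. -/
theorem tri_bijective [PR p K] {t : I → RS p K I} (ht : ∀ i, Tri i (t i)) :
    Function.Bijective (lift C t : RS p K I →+* RS p K I) := by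
  refine ⟨?_, tri_surjective ht⟩
  have h1 : ∀ i, ∃ s : RS p K I, Tri i s ∧ (lift C t : RS p K I →+* RS p K I) s = X i := fun i => by
    obtain ⟨l, hl, y, hy⟩ := exists_tri_preimage ht i
    obtain ⟨z, rfl⟩ := tri_surjective ht y
    refine ⟨l + p * z, hl.add_dvd (by simp only [dvd_mul_right]), ?_⟩
    rw [map_add, map_mul, map_natCast, ← hy]
    ring
  choose s hs hs' using h1
  have h2 : (lift C t : RS p K I →+* RS p K I).comp (lift C s) = RingHom.id _ :=
    hom_ext (by simp) (by simp [hs'])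
  intro x y hxy
  obtain ⟨a, rfl⟩ := tri_surjective hs x
  obtain ⟨b, rfl⟩ := tri_surjective hs y
  have ha := RingHom.congr_fun h2 a
  have hb := RingHom.congr_fun h2 b
  simp only [RingHom.comp_apply, RingHom.id_apply] at ha hb
  rw [← ha, hxy, hb]

/-- Lemma T as an automorphism. -/
theorem exists_triEquiv [PR p K] {t : I → RS p K I} (ht : ∀ i, Tri i (t i)) :
    ∃ e : RS p K I ≃+* RS p K I, (∀ c, e (C c) = C c) ∧ ∀ i, e (X i) = t i :=
  ⟨RingEquiv.ofBijective _ (tri_bijective ht), fun c => lift_C _ _ c, fun i => lift_X _ _ i⟩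

end RS
end EN

end

-- part MP_646035_al.EN.Fam
section

/-! Saturation, good rings, the W-trick, transport and replay of stable families. -/

set_option autoImplicit false
open Filter

namespace EN
variable {p : ℕ} {M : Type} {ω : Ultrafilter M} {K K' O : Type} [CommRing K] [CommRing K']
  [CommRing O]

theorem smap_mono {f : K →+* K'} {A B : Subring K} (h : A ≤ B) : A.map f ≤ B.map f := by
  rintro _ ⟨x, hx, rfl⟩
  exact ⟨x, h hx, rfl⟩

theorem mem_Sat {A : Set M} {B : Subring (M → K)} {N : M → K} :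
    N ∈ Sat A B ↔ ∃ N' ∈ B, ∀ m ∈ A, N m = N' m := Iff.rfl

theorem le_Sat (A : Set M) (B : Subring (M → K)) : B ≤ Sat A B :=
  fun N hN => ⟨N, hN, fun _ _ => rfl⟩

theorem satOn_Sat (A : Set M) (B : Subring (M → K)) : SatOn (Sat A B) A :=
  fun _ h => ⟨0, B.zero_mem, h⟩

theorem SatOn.mono {A : Set M} {B B' : Subring (M → K)} (h : SatOn B A) (hB : B ≤ B') :
    SatOn B' A := fun N hN => hB (h N hN)

theorem SatOn.superset {A A' : Set M} {B : Subring (M → K)} (h : SatOn B A) (hA : A ⊆ A') :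
    SatOn B A' := fun N hN => h N fun m hm => hN m (hA hm)

theorem SatOn.mem {A : Set M} {B : Subring (M → K)} (h : SatOn B A) {N N' : M → K} (hN' : N' ∈ B)
    (H : ∀ m ∈ A, N m = N' m) : N ∈ B := by
  have := B.add_mem hN' (h (N - N') fun m hm => by simp [H m hm])
  simpa using this

theorem SatOn.inter {A A' : Set M} {B : Subring (M → K)} (h : SatOn B A) (h' : SatOn B A') :
    SatOn B (A ∩ A') := by
  classical
  intro N hN
  refine h.mem (N' := fun m => if m ∈ A then N m else 0) (h' _ fun m hm => ?_) fun m hm => ?_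
  · split_ifs with h1
    · exact hN m ⟨h1, hm⟩
    · rfl
  · simp [hm]

theorem satOn_univ (B : Subring (M → K)) : SatOn B Set.univ := fun N h => by
  have : N = 0 := funext fun m => h m trivial
  rw [this]; exact B.zero_mem

theorem Sat_le {A : Set M} {B B' : Subring (M → K)} (h : SatOn B' A) (hB : B ≤ B') :
    Sat A B ≤ B' := fun _ ⟨_, h1, h2⟩ => h.mem (hB h1) h2

theorem Sat_mono {A A' : Set M} {B B' : Subring (M → K)} (hA : A' ⊆ A) (hB : B ≤ B') :
    Sat A B ≤ Sat A' B' := fun _ ⟨N', h1, h2⟩ => ⟨N', hB h1, fun m hm => h2 m (hA hm)⟩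

theorem Closed.sat [PR p K] {B : Subring (M → K)} (hB : Closed p B) (A : Set M) :
    Closed p (Sat A B) := by
  intro t s ht hs
  choose u hu hut using ht
  obtain ⟨x, hx⟩ := PR.cpl (p := p) u
  refine ⟨x, hB u x hu hx, fun m hm => (pi_isSum.1 hs m).unique ?_⟩
  simpa only [fun i => hut i m hm] using pi_isSum.1 hx m

theorem WF.mono {B B' : Subring (M → K)} (h : WF p ω B') (hB : B ≤ B') : WF p ω B :=
  NoDesc.mono h <| by
    rintro _ ⟨N, hN, rfl⟩
    exact ⟨_, ⟨N, hB hN, rfl⟩, Eventually.of_forall fun _ => rfl⟩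

theorem WF.sat {B : Subring (M → K)} (h : WF p ω B) {A : Set M} (hA : A ∈ ω) :
    WF p ω (Sat A B) :=
  NoDesc.mono h <| by
    rintro _ ⟨N, ⟨N', hN', H⟩, rfl⟩
    refine ⟨_, ⟨N', hN', rfl⟩, ?_⟩
    filter_upwards [hA] with m hm
    simp only [vf, H m hm]

/-- Sequence form of `W(B)`. -/
theorem WF.not_desc {B : Subring (M → K)} (h : WF p ω B) (N : ℕ → M → K) (hN : ∀ i, N i ∈ B) :
    ¬ ∀ i, ∀ᶠ m in (ω : Filter M), vp p (N (i + 1) m) < vp p (N i m) :=
  h (fun i => vf p (N i)) fun i => ⟨N i, hN i, rfl⟩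

theorem wf_of_seq {B : Subring (M → K)} (h : ∀ N : ℕ → M → K, (∀ i, N i ∈ B) →
    ¬ ∀ i, ∀ᶠ m in (ω : Filter M), vp p (N (i + 1) m) < vp p (N i m)) : WF p ω B := by
  intro g hg hd
  choose N hN hgN using hg
  exact h N hN fun i => (hd i).mono fun m hm => by simpa only [← hgN, vf] using hm

/-- A nonempty family of elements of `B` has a member of least valuation. -/
theorem WF.exists_min {B : Subring (M → K)} (h : WF p ω B) {J : Type} (N : J → M → K)
    (hN : ∀ j, N j ∈ B) [Nonempty J] :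
    ∃ j, ∀ j', ∀ᶠ m in (ω : Filter M), vp p (N j m) ≤ vp p (N j' m) := by
  obtain ⟨_, ⟨j, rfl⟩, H⟩ := NoDesc.exists_min h (S := Set.range fun j => vf p (N j))
    (by rintro _ ⟨j, rfl⟩; exact ⟨N j, hN j, rfl⟩) (Set.range_nonempty _)
  exact ⟨j, fun j' => H _ ⟨j', rfl⟩⟩

theorem Dv.congr {a : M → ℕ} {N N' : M → K} (h : Dv p ω a N)
    (H : ∀ᶠ m in (ω : Filter M), N m = N' m) : Dv p ω a N' := by
  filter_upwards [h, H] with m h1 h2 using h2 ▸ h1

theorem Dv.of_le {a a' : M → ℕ} {N : M → K} (h : Dv p ω a N)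
    (H : ∀ᶠ m in (ω : Filter M), a' m ≤ a m) : Dv p ω a' N := by
  filter_upwards [h, H] with m h1 h2 using (pow_dvd_pow _ h2).trans h1

theorem Good.mono {B B' : Subring (M → K)} (h : Good p ω B') (hB : B ≤ B') : Good p ω B :=
  fun a => (h a).mono fun _ H N hN => H N (hB hN)

/-- (V). -/
theorem Good.vanish [PR p K] {B : Subring (M → K)} (h : Good p ω B) :
    ∀ᶠ m in (ω : Filter M), ∀ N ∈ B, (∀ᶠ m' in (ω : Filter M), N m' = 0) → N m = 0 := by
  have H : ∀ m, ∃ k : ℕ, (∀ N ∈ B, (∀ᶠ m' in (ω : Filter M), N m' = 0) → (p : K) ^ k ∣ N m) →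
      ∀ N ∈ B, (∀ᶠ m' in (ω : Filter M), N m' = 0) → N m = 0 := fun m => by
    by_contra hn
    push Not at hn
    obtain ⟨-, N, hN, h0, hne⟩ := hn 0
    exact hne (PR.sep (p := p) _ fun k => (hn k).1 N hN h0)
  choose a ha using H
  filter_upwards [h a] with m hm
  exact ha m fun N hN h0 => hm N hN (h0.mono fun m' h' => by simp only [h', dvd_zero])

@[simp] theorem evm_apply (B : Subring (M → K)) (m : M) (b : B) : evm B m b = (b : M → K) m := rfl

@[simp] theorem piHom_apply (h : M → K →+* K') (N : M → K) (m : M) : piHom h N m = h m (N m) := rfl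

@[simp] theorem emb_apply (B : Subring (M → K)) (I : Type) (F : RS p B I) (m : M) :
    emb p B I F m = RS.map (evm B m) F := rfl

theorem evm_comp_inclusion {B B' : Subring (M → K)} (h : B ≤ B') (m : M) :
    (evm B' m).comp (Subring.inclusion h) = evm B m := rfl

theorem map_evm_inclusion {B B' : Subring (M → K)} (h : B ≤ B') (m : M) {I : Type}
    (F : RS p B I) : RS.map (evm B' m) (RS.map (Subring.inclusion h) F) = RS.map (evm B m) F := rfl

theorem emb_range_mono {B B' : Subring (M → K)} (h : B ≤ B') (I : Type) :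
    (emb p B I).range ≤ (emb p B' I).range := by
  rintro _ ⟨F, rfl⟩
  exact ⟨RS.map (Subring.inclusion h) F, rfl⟩

theorem closed_emb_range [PR p K] {B : Subring (M → K)} (hB : Closed p B) (I : Type) :
    Closed p (emb p B I).range := by
  have := hB.pr
  exact closed_range _

/-- Evaluation in a product is computed pointwise. -/
theorem lift_apply {R : Type} [CommRing R] [PR p R] [PR p K] {I : Type} (h : R →+* (M → K))
    (t : I → M → K) (F : RS p R I) (m : M) : RS.lift h t F m =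
      RS.lift ((Pi.evalRingHom (fun _ => K) m).comp h) (fun i => t i m) F :=
  RS.comp_lift (Pi.evalRingHom (fun _ => K) m) h t F

theorem lift_subtype_apply [PR p K] {B : Subring (M → K)} (hB : Closed p B) {I : Type}
    (t : I → M → K) (F : RS p B I) (m : M) : RS.lift B.subtype t F m =
      RS.lift (RingHom.id K) (fun i => t i m) (RS.map (evm B m) F) := by
  have := hB.pr
  rw [lift_apply, RS.lift_map]
  rfl

theorem lift_subtype_inclusion [PR p K] {B B' : Subring (M → K)} (hB : Closed p B) (h : B ≤ B')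
    {I : Type} (t : I → M → K) (F : RS p B I) :
    RS.lift B'.subtype t (RS.map (Subring.inclusion h) F) = RS.lift B.subtype t F := by
  have := hB.pr
  rw [RS.lift_map]
  rfl

/-- The finiteness behind the W-trick and behind (s). -/
theorem WF.finite_not_dv [PR p K] {B : Subring (M → K)} (hB : WF p ω B) {J : Type} (c : J → B)
    (hc : Decay p c) (a : M → ℕ) (h : ∀ μ, Dv p ω a (c μ : M → K)) (k : ℕ) :
    {μ | ¬ Dv p ω (fun m => a m + k) (c μ : M → K)}.Finite := by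
  by_contra hinf
  have H : ∀ i : ℕ, ∃ μ, ¬ Dv p ω (fun m => a m + k) (c μ : M → K) ∧ (p : B) ^ (i * k) ∣ c μ :=
    fun i => by
      obtain ⟨μ, h1, h2⟩ := (Set.Infinite.sdiff hinf (hc (i * k))).nonempty
      exact ⟨μ, h1, not_not.1 h2⟩
  choose μ h1 u hu using H
  have hv : ∀ i m, vp p ((c (μ i) : M → K) m) = (i * k : ℕ) + vp p ((u i : M → K) m) := fun i m => by
    rw [hu, ← vp_pow_mul]; simp only [Subring.coe_mul, SubmonoidClass.coe_pow, SubringClass.coe_natCast, Pi.mul_apply, Pi.pow_apply, Pi.natCast_apply]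
  refine hB.not_desc (fun i => u i) (fun i => (u i).2) fun i => ?_
  filter_upwards [not_dv_iff.1 (h1 (i + 1)), dv_iff.1 (h (μ i))] with m h2 h3
  rw [hv] at h2 h3
  by_contra hn
  have h4 : ((a m + k : ℕ) : ℕ∞) ≤ ((i + 1) * k : ℕ) + vp p ((u (i + 1) : M → K) m) := by
    calc ((a m + k : ℕ) : ℕ∞) = a m + k := by push_cast; rfl
      _ ≤ ((i * k : ℕ) + vp p ((u i : M → K) m)) + k := by gcongr
      _ ≤ ((i * k : ℕ) + vp p ((u (i + 1) : M → K) m)) + k := by gcongr; exact not_lt.1 hn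
      _ = _ := by push_cast; ring
  exact absurd h2 (not_lt.2 h4)

/-- The W-trick for coefficient families. -/
theorem wtrick_fam [PR p K] {B B' : Subring (M → K)} (hw : WF p ω B) {A : Set M}
    (hs : SatOn B' A) {a : M → ℕ} (H : ∀ N ∈ B, Dv p ω a N →
      ∃ N' ∈ B', ∀ m ∈ A, N m = (p : K) ^ a m * N' m) {J : Type} (c : J → B) (hc : Decay p c)
    (hd : ∀ μ, Dv p ω a (c μ : M → K)) : ∃ c' : J → B', Decay p c' ∧
      ∀ μ, ∀ m ∈ A, (c μ : M → K) m = (p : K) ^ a m * (c' μ : M → K) m := by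
  classical
  have H' : ∀ N ∈ B, Dv p ω a N → ∃ N' : B', (∀ m ∈ A, N m = (p : K) ^ a m * (N' : M → K) m) ∧
      ∀ m ∉ A, (N' : M → K) m = 0 := fun N hN hd => by
    obtain ⟨N', h1, h2⟩ := H N hN hd
    exact ⟨⟨fun m => if m ∈ A then N' m else 0, hs.mem h1 fun m hm => if_pos hm⟩,
      fun m hm => by simp [hm, h2 m hm], fun m hm => by simp [hm]⟩
  choose c' h1 h2 using fun μ => H' _ (c μ).2 (hd μ)
  refine ⟨c', fun k => ((hc k).union (hw.finite_not_dv c hc a hd k)).subset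
    fun μ hμ => ?_, h1⟩
  by_contra hn
  simp only [Set.mem_union, Set.mem_ofPred_eq, not_or, not_not] at hn
  obtain ⟨⟨N, hN⟩, h3⟩ := hn
  have hN' : ∀ m, (c μ : M → K) m = (p : K) ^ k * (N : M → K) m := fun m => by rw [hN]; simp only [Subring.coe_mul, SubmonoidClass.coe_pow, SubringClass.coe_natCast, Pi.mul_apply, Pi.pow_apply, Pi.natCast_apply]
  obtain ⟨N', h4, h5⟩ := H' _ N.2 (h3.mono fun m hm => by
    beta_reduce at hm
    rwa [hN', add_comm, PR.dvd_cancel] at hm)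
  refine hμ ⟨N', Subtype.ext (funext fun m => ?_)⟩
  change (c' μ : M → K) m = ((p : M → K) ^ k * (N' : M → K)) m
  by_cases hm : m ∈ A
  · refine PR.pow_cancel (p := p) (k := a m) ?_
    rw [← h1 μ m hm, hN', h4 m hm]
    simp only [Pi.mul_apply, Pi.pow_apply, Pi.natCast_apply, mul_left_comm]
  · simp only [h2 μ m hm, Pi.mul_apply, Pi.pow_apply, Pi.natCast_apply, h5 m hm, mul_zero]

/-- The W-trick for series. -/
theorem wtrick [PR p K] {B B' : Subring (M → K)} (hw : WF p ω B) {A : Set M}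
    (hs : SatOn B' A) {a : M → ℕ} (H : ∀ N ∈ B, Dv p ω a N →
      ∃ N' ∈ B', ∀ m ∈ A, N m = (p : K) ^ a m * N' m) {I : Type} (F : RS p B I)
    (hF : ∀ μ, Dv p ω a ((RS.coeff μ F : B) : M → K)) : ∃ G : RS p B' I, ∀ m ∈ A,
      emb p B I F m = (p : RS p K I) ^ a m * emb p B' I G m := by
  obtain ⟨c', h1, h2⟩ := wtrick_fam hw hs H (fun μ => RS.coeff μ F) (RS.decay F) hF
  exact ⟨RS.mk c' h1, fun m hm => RS.ext fun μ => by simpa only [emb_apply, RS.coeff_map, evm_apply, RS.coeff_pow_mul, RS.coeff_mk] using h2 μ m hm⟩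

section Stable
variable {ι : O →+* K} {VV : Set (Subring (M → K))}

theorem Stable.good (h : Stable p ω ι VV) {B : Subring (M → K)} (hB : B ∈ VV) : Good p ω B := by
  intro a
  obtain ⟨B', -, -, A, hA, H⟩ := h.q1 B hB a
  filter_upwards [hA] with m hm N hN hd
  obtain ⟨N', -, h1⟩ := H N hN hd
  exact ⟨N' m, h1 m hm⟩

theorem Stable.q1s (h : Stable p ω ι VV) {B : Subring (M → K)} (hB : B ∈ VV) (a : M → ℕ) :
    ∃ B' ∈ VV, B ≤ B' ∧ ∃ A ∈ ω, SatOn B' A ∧ ∀ N ∈ B, Dv p ω a N →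
      ∃ N' ∈ B', ∀ m ∈ A, N m = (p : K) ^ a m * N' m := by
  obtain ⟨B1, hB1, h1, A, hA, H⟩ := h.q1 B hB a
  obtain ⟨B2, hB2, h2, hs⟩ := h.sat B1 hB1 A hA
  refine ⟨B2, hB2, h1.trans h2, A, hA, hs, fun N hN hd => ?_⟩
  obtain ⟨N', hN', h3⟩ := H N hN hd
  exact ⟨N', h2 hN', h3⟩

theorem Stable.mem_of_ae (h : Stable p ω ι VV) {B : Subring (M → K)} (hB : B ∈ VV) {N N' : M → K}
    (hN' : N' ∈ B) (H : ∀ᶠ m in (ω : Filter M), N m = N' m) : ∃ B' ∈ VV, B ≤ B' ∧ N ∈ B' := by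
  obtain ⟨B', h1, h2, h3⟩ := h.sat B hB _ H
  exact ⟨B', h1, h2, h3.mem (h2 hN') fun _ hm => hm⟩

/-- The W-trick inside a stable family. -/
theorem Stable.wtrick [PR p K] (h : Stable p ω ι VV) {B : Subring (M → K)} (hB : B ∈ VV)
    (a : M → ℕ) : ∃ B' ∈ VV, B ≤ B' ∧ ∃ A ∈ ω, SatOn B' A ∧
      ∀ (I : Type) (F : RS p B I), (∀ μ, Dv p ω a ((RS.coeff μ F : B) : M → K)) →
        ∃ F' : RS p B' I, ∀ m ∈ A,
          RS.map (evm B m) F = (p : RS p K I) ^ a m * RS.map (evm B' m) F' := by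
  obtain ⟨B', hB', hle, A, hA, hs, H⟩ := h.q1s hB a
  exact ⟨B', hB', hle, A, hA, hs, fun I F hd => _root_.EN.wtrick (h.wf B hB) hs H F hd⟩

/-- If all coefficients have `v* ≥ a`, so has the series. -/
theorem Good.dv_emb [PR p K] {B : Subring (M → K)} (h : Good p ω B) {a : M → ℕ} {I : Type}
    {F : RS p B I} (hd : ∀ μ, Dv p ω a ((RS.coeff μ F : B) : M → K)) : Dv p ω a (emb p B I F) :=
  (h a).mono fun _ hm => RS.pow_dvd_iff.2 fun μ => hm _ (RS.coeff μ F).2 (hd μ)

theorem Dv.coeff {B : Subring (M → K)} {a : M → ℕ} {I : Type} {F : RS p B I}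
    (h : Dv p ω a (emb p B I F)) (μ : I →₀ ℕ) : Dv p ω a ((RS.coeff μ F : B) : M → K) :=
  Eventually.mono h fun _ hm => addHom_dvd (RS.coeff μ) hm

/-- Transport along a family of isomorphisms. -/
theorem CStable.transport [PR p K] [PR p K'] {ι' : O →+* K'} (h : CStable p ω ι VV)
    (e : M → K ≃+* K') (he : ∀ m c, e m (ι c) = ι' c) :
    CStable p ω ι' ((fun B => B.map (piHom fun m => (e m).toRingHom)) '' VV) := by
  have hdv : ∀ (a : M → ℕ) (N : M → K),
      Dv p ω a (piHom (fun m => (e m).toRingHom) N) → Dv p ω a N := fun a N hd =>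
    hd.mono fun m hm => by simpa only [RingEquiv.toRingHom_eq_coe, piHom_apply, RingHom.coe_coe, RingEquiv.symm_apply_apply] using ringHom_dvd (e m).symm.toRingHom hm
  refine ⟨⟨?_, ?_, ?_, ?_, ?_⟩, ?_⟩
  · rintro _ ⟨B, hB, rfl⟩
    exact (h.closed B hB).map _
  · rintro _ ⟨B, hB, rfl⟩
    refine NoDesc.mono (h.wf B hB) ?_
    rintro _ ⟨_, ⟨N, hN, rfl⟩, rfl⟩
    exact ⟨_, ⟨N, hN, rfl⟩, Eventually.of_forall fun m => vp_equiv (e m) (N m)⟩
  · rintro _ ⟨B, hB, rfl⟩ A hA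
    obtain ⟨B', h1, h2, h3⟩ := h.sat B hB A hA
    refine ⟨_, ⟨B', h1, rfl⟩, smap_mono h2, fun N hN => ?_⟩
    exact ⟨fun m => (e m).symm (N m), h3 _ fun m hm => by simp [hN m hm], funext fun m => by simp⟩
  · rintro _ ⟨B, hB, rfl⟩ a
    obtain ⟨B', h1, h2, A, hA, h3⟩ := h.q1 B hB a
    refine ⟨_, ⟨B', h1, rfl⟩, smap_mono h2, A, hA, ?_⟩
    rintro _ ⟨N, hN, rfl⟩ hd
    obtain ⟨N', h4, h5⟩ := h3 N hN (hdv a N hd)
    exact ⟨_, ⟨N', h4, rfl⟩, fun m hm => by simp only [RingEquiv.toRingHom_eq_coe, piHom_apply, h5 m hm, RingHom.coe_coe, map_mul, map_pow, map_natCast]⟩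
  · rintro _ ⟨B, hB, rfl⟩ _ ⟨N, hN, rfl⟩ hu
    obtain ⟨B', h1, h2, N', h3, h4⟩ := h.q2 B hB N hN (hu.mono fun m hm => by
      simpa using hm.map (ι' := ι) (e m).symm.toRingHom (RingHom.ext fun c => by simp [← he m c]))
    refine ⟨_, ⟨B', h1, rfl⟩, smap_mono h2, _, ⟨N', h3, rfl⟩, h4.mono fun m hm => ?_⟩
    simp only [piHom_apply, ← map_mul, hm, map_one]
  · rintro _ ⟨B, hB, rfl⟩ a
    obtain ⟨B', h1, h2, h3⟩ := h.cst B hB a
    exact ⟨_, ⟨B', h1, rfl⟩, smap_mono h2, _, h3, funext fun m => by simp only [RingEquiv.toRingHom_eq_coe, piHom_apply, RingHom.coe_coe, map_pow, map_natCast]⟩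

end Stable

/-! ### Replay -/

variable (p ω) in
/-- `A` is obtained from `B0` in every const-stable family, after every family of endomorphisms. -/
def Univ (ι : O →+* K) (B0 A : Subring (M → K)) : Prop :=
  ∀ h : M → K →+* K, (∀ m, (h m).comp ι = ι) → ∀ VV, CStable p ω ι VV → ∀ B ∈ VV,
    B0.map (piHom h) ≤ B → ∃ B' ∈ VV, B ≤ B' ∧ A.map (piHom h) ≤ B'

variable {ι : O →+* K} {B0 A : Subring (M → K)}

theorem Univ.refl (B0 : Subring (M → K)) : Univ p ω ι B0 B0 :=
  fun _ _ _ _ B hB h => ⟨B, hB, le_rfl, h⟩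

theorem Univ.mono (h : Univ p ω ι B0 A) {A' : Subring (M → K)} (hA : A' ≤ A) :
    Univ p ω ι B0 A' := fun g hg VV hV B hB h0 => by
  obtain ⟨B', h1, h2, h3⟩ := h g hg VV hV B hB h0
  exact ⟨B', h1, h2, (smap_mono hA).trans h3⟩

theorem map_piHom_id (A : Subring (M → K)) : A.map (piHom fun _ => RingHom.id K) = A := by
  have : (piHom fun _ : M => RingHom.id K) = RingHom.id _ := rfl
  rw [this, Subring.map_id]

/-- Replay with the identity. -/
theorem Univ.le (h : Univ p ω ι B0 A) {VV : Set (Subring (M → K))} (hV : CStable p ω ι VV)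
    {B : Subring (M → K)} (hB : B ∈ VV) (h0 : B0 ≤ B) : ∃ B' ∈ VV, B ≤ B' ∧ A ≤ B' := by
  simpa only [map_piHom_id] using
    h (fun _ => RingHom.id K) (fun _ => rfl) VV hV B hB (by rwa [map_piHom_id])

theorem map_Sat_le (g : M → K →+* K') {S S' : Set M} (hS : S' ⊆ S) {B : Subring (M → K')}
    (h : A.map (piHom g) ≤ B) (hs : SatOn B S') : (Sat S A).map (piHom g) ≤ B := by
  rintro _ ⟨N, ⟨N', h1, h2⟩, rfl⟩
  exact hs.mem (h ⟨N', h1, rfl⟩) fun m hm => by simp [h2 m (hS hm)]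

theorem Univ.sat (h : Univ p ω ι B0 A) {S : Set M} (hS : S ∈ ω) : Univ p ω ι B0 (Sat S A) :=
  fun g hg VV hV B hB h0 => by
    obtain ⟨B1, h1, h2, h3⟩ := h g hg VV hV B hB h0
    obtain ⟨B2, h4, h5, h6⟩ := hV.sat B1 h1 S hS
    exact ⟨B2, h4, h2.trans h5, map_Sat_le g subset_rfl (h3.trans h5) h6⟩

theorem Univ.q1 [PR p K] (h : Univ p ω ι B0 A) (a : M → ℕ) {S : Set M} (hS : S ∈ ω) :
    Univ p ω ι B0 (cl p ((Sat S A : Set (M → K)) ∪
      {N' | ∃ N ∈ A, Dv p ω a N ∧ ∀ m ∈ S, N m = (p : K) ^ a m * N' m})) :=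
  fun g hg VV hV B hB h0 => by
    obtain ⟨B1, h1, h2, h3⟩ := h g hg VV hV B hB h0
    obtain ⟨B2, h4, h5, S', hS', H⟩ := hV.q1 B1 h1 a
    obtain ⟨B3, h6, h7, h8⟩ := hV.sat B2 h4 (S ∩ S') (Filter.inter_mem hS hS')
    refine ⟨B3, h6, (h2.trans h5).trans h7, map_cl_le _ (hV.closed B3 h6) ?_⟩
    rintro x (hx | ⟨N, hN, hd, hx⟩)
    · exact map_Sat_le g Set.inter_subset_left ((h3.trans h5).trans h7) h8 ⟨x, hx, rfl⟩
    · obtain ⟨N', h9, h10⟩ := H _ (h3 ⟨N, hN, rfl⟩) (hd.mono fun m hm => ringHom_dvd (g m) hm)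
      refine h8.mem (h7 h9) fun m hm => PR.pow_cancel (p := p) (k := a m) ?_
      rw [← h10 m hm.2]
      simp [hx m hm.1]

theorem Univ.q2 (h : Univ p ω ι B0 A) {N N' : M → K} (hN : N ∈ A)
    (hu : ∀ᶠ m in (ω : Filter M), Un p ι (N m)) {S : Set M} (hS : S ∈ ω)
    (hinv : ∀ m ∈ S, N m * N' m = 1) :
    Univ p ω ι B0 (cl p ((Sat S A : Set (M → K)) ∪ {N'})) :=
  fun g hg VV hV B hB h0 => by
    obtain ⟨B1, h1, h2, h3⟩ := h g hg VV hV B hB h0
    obtain ⟨B2, h4, h5, N'', h9, H⟩ := hV.q2 B1 h1 _ (h3 ⟨N, hN, rfl⟩)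
      (hu.mono fun m hm => hm.map (g m) (hg m))
    obtain ⟨B3, h6, h7, h8⟩ := hV.sat B2 h4 _ (Filter.inter_mem hS H)
    refine ⟨B3, h6, (h2.trans h5).trans h7, map_cl_le _ (hV.closed B3 h6) ?_⟩
    rintro x (hx | rfl)
    · exact map_Sat_le g Set.inter_subset_left ((h3.trans h5).trans h7) h8 ⟨x, hx, rfl⟩
    · refine h8.mem (h7 h9) fun m hm => ?_
      have e1 : g m (N m) * g m (x m) = 1 := by rw [← map_mul, hinv m hm.1, map_one]
      have e2 : g m (N m) * N'' m = 1 := hm.2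
      rw [piHom_apply, ← mul_one (g m (x m)), ← e2, ← mul_assoc, mul_comm (g m (x m)), e1, one_mul]

theorem Univ.cst (h : Univ p ω ι B0 A) (a : M → ℕ) :
    Univ p ω ι B0 (cl p ((A : Set (M → K)) ∪ {fun m => (p : K) ^ a m})) :=
  fun g hg VV hV B hB h0 => by
    obtain ⟨B1, h1, h2, h3⟩ := h g hg VV hV B hB h0
    obtain ⟨B2, h4, h5, H⟩ := hV.cst B1 h1 a
    refine ⟨B2, h4, h2.trans h5, map_cl_le _ (hV.closed B2 h4) ?_⟩
    rintro x (hx | rfl)
    · exact h5 (h3 ⟨x, hx, rfl⟩)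
    · convert H using 1
      funext m
      simp only [piHom_apply, map_pow, map_natCast]

end EN

end

-- part MP_646035_al.EN.Div
section

/-! Division by monic systems in restricted power series; the step of Lemma H. -/

set_option autoImplicit false
open Filter
open scoped MonomialOrder

namespace EN
variable {p : ℕ} {R R' : Type} [CommRing R] [CommRing R'] {σ : Type}

theorem iter_set {J S : Set R} (hJ : ∀ t s, (∀ i, t i ∈ J) → IsSum p t s → s ∈ J)
    (h : ∀ x ∈ S, ∃ j ∈ J, ∃ x' ∈ S, x = j + p * x') : S ⊆ J := by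
  intro x hx
  choose! j hj f hf hx' using h
  have hm : ∀ n, f^[n] x ∈ S := fun n => by
    induction n with
    | zero => exact hx
    | succ n ih => rw [Function.iterate_succ_apply']; exact hf _ ih
  refine hJ (fun n => j (f^[n] x)) x (fun n => hj _ (hm n)) fun k => ⟨f^[k] x, ?_⟩
  induction k with
  | zero => simp only [Finset.range_zero, Finset.sum_empty, sub_zero, pow_zero, Function.iterate_zero, id_eq, one_mul]
  | succ k ih =>
    rw [Finset.sum_range_succ, ← sub_sub, ih, Function.iterate_succ_apply', pow_succ]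
    nth_rewrite 1 [hx' _ (hm k)]
    ring

/-- `G` is, mod `p`, monic with leading exponent `κ`. -/
def IsMon (mo : MonomialOrder σ) (κ : σ →₀ ℕ) (G : RS p R σ) : Prop :=
  (p : R) ∣ RS.coeff κ G - 1 ∧ ∀ μ, κ ≺[mo] μ → (p : R) ∣ RS.coeff μ G

theorem IsMon.map {mo : MonomialOrder σ} {κ : σ →₀ ℕ} {G : RS p R σ} (h : IsMon mo κ G)
    (f : R →+* R') : IsMon mo κ (RS.map f G) :=
  ⟨by simpa only [RS.coeff_map, map_natCast, map_sub, map_one] using map_dvd f h.1, fun μ hμ => by simpa only [RS.coeff_map, map_natCast] using map_dvd f (h.2 μ hμ)⟩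

/-- No exponent of `F` lies above an element of `T`. -/
def Red (T : Finset (σ →₀ ℕ)) (F : RS p R σ) : Prop :=
  ∀ μ, (∃ κ ∈ T, κ ≤ μ) → RS.coeff μ F = 0

theorem IsMon.exists_poly [PR p R] [Nontrivial R] {mo : MonomialOrder σ} {κ : σ →₀ ℕ}
    {G : RS p R σ} (h : IsMon mo κ G) : ∃ H : MvPolynomial σ R, mo.degree H = κ ∧
      IsUnit (mo.leadingCoeff H) ∧ (p : RS p R σ) ∣ G - RS.ofPoly H := by
  obtain ⟨q, h1, h2⟩ := RS.exists_approx G 1
  simp only [pow_one] at h1
  have hu : IsUnit (RS.coeff κ G) := isUnit_of_dvd_sub isUnit_one h.1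
  have hn : ¬ (p : R) ∣ RS.coeff κ G := fun hd => by
    have h3 : IsUnit (p : R) := isUnit_of_dvd_unit hd hu
    exact one_ne_zero (PR.sep (p := p) (1 : R) fun k => (h3.pow k).dvd)
  have hκ : MvPolynomial.coeff κ q = RS.coeff κ G := by rw [h2, if_neg (by rwa [pow_one])]
  have hd : mo.degree q = κ := by
    refine mo.toSyn.injective (le_antisymm (mo.degree_le_iff.2 fun μ hμ => ?_) (mo.le_degree ?_))
    · by_contra hc
      exact MvPolynomial.mem_support_iff.1 hμ (by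
        rw [h2, if_pos (by rw [pow_one]; exact h.2 μ (not_le.1 hc))])
    · rw [MvPolynomial.mem_support_iff, hκ]
      exact hu.ne_zero
  refine ⟨q, hd, ?_, RS.dvd_iff.2 fun μ => by simpa only [map_sub, RS.coeff_ofPoly] using h1 μ⟩
  rwa [MonomialOrder.leadingCoeff, hd, hκ]

/-- Division with remainder. -/
theorem exists_div [PR p R] {mo : MonomialOrder σ} (T : Finset (σ →₀ ℕ))
    (G : (σ →₀ ℕ) → RS p R σ) (hG : ∀ κ ∈ T, IsMon mo κ (G κ)) (F : RS p R σ) :
    ∃ (Q : T → RS p R σ) (F0 : RS p R σ), F = ∑ κ, Q κ * G κ + F0 ∧ Red T F0 := by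
  rcases subsingleton_or_nontrivial R with hR | hR
  · exact ⟨0, 0, RS.ext fun _ => Subsingleton.elim _ _, fun _ _ => Subsingleton.elim _ _⟩
  choose H h1 h2 y hy using fun κ : T => (hG κ κ.2).exists_poly
  refine iter_set (p := p) (S := Set.univ)
    (J := {F | ∃ (Q : T → RS p R σ) (F0 : RS p R σ), F = ∑ κ, Q κ * G κ + F0 ∧ Red T F0})
    (fun t s ht hs => ?_) (fun x _ => ?_) (Set.mem_univ F)
  · choose Q F0 h3 h4 using ht
    obtain ⟨Q', hQ'⟩ := PR.cpl (p := p) Q
    obtain ⟨F', hF'⟩ := PR.cpl (p := p) F0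
    refine ⟨Q', F', hs.unique fun k => ?_, fun μ hμ => ?_⟩
    · have h5 := dvd_add (Finset.dvd_sum fun κ (_ : κ ∈ Finset.univ) =>
        (pi_isSum.1 hQ' κ k).mul_right (G κ)) (hF' k)
      convert h5 using 1
      simp only [h3, mul_add, Finset.sum_add_distrib, sub_mul, Finset.sum_sub_distrib,
        Finset.mul_sum, Finset.sum_mul, mul_assoc]
      rw [Finset.sum_comm]
      ring
    · refine (hF'.map (RS.coeff μ)).unique fun k => ?_
      simp only [h4 _ μ hμ, mul_zero, Finset.sum_const_zero, sub_self, dvd_zero]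
  · obtain ⟨q, z, hz⟩ := RS.exists_poly x 1
    obtain ⟨g, r, h3, -, h4⟩ := mo.div h2 q
    refine ⟨_, ⟨fun κ => RS.ofPoly (g κ), RS.ofPoly r, rfl, ?_⟩,
      z - ∑ κ, RS.ofPoly (g κ) * y κ, trivial, ?_⟩
    · rintro μ ⟨κ, hκ, hμ⟩
      by_contra hc
      exact h4 μ (MvPolynomial.mem_support_iff.2 hc) ⟨κ, hκ⟩ (by rwa [h1])
    · have h5 : ∀ κ : T, G κ = RS.ofPoly (H κ) + (p : RS p R σ) * y κ :=
        fun κ => by rw [← hy]; ring
      rw [pow_one, h3, Finsupp.linearCombination_apply, Finsupp.sum_fintype _ _ (by simp)] at hz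
      rw [sub_eq_iff_eq_add.1 hz]
      simp only [h5, map_add, map_sum, smul_eq_mul, map_mul, mul_add, Finset.sum_add_distrib,
        mul_sub, Finset.mul_sum, mul_left_comm (p : RS p R σ)]
      ring

theorem wf_insert [Finite σ] [DecidableEq σ] : WellFounded fun T' T : Finset (σ →₀ ℕ) =>
    ∃ κ, (∀ κ0 ∈ T, ¬ κ0 ≤ κ) ∧ T' = insert κ T := by
  refine wellFounded_iff_isEmpty_descending_chain.2 ⟨fun ⟨f, hf⟩ => ?_⟩
  choose κ h1 h2 using hf
  have hm : Monotone f := monotone_nat_of_le_succ fun n => by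
    rw [h2]; exact Finset.subset_insert _ _
  obtain ⟨m, n, hmn, h⟩ := wellQuasiOrdered_le κ
  exact h1 n (κ m) (hm (Nat.succ_le_of_lt hmn) (by rw [h2]; exact Finset.mem_insert_self _ _)) h

variable {M : Type} {ω : Ultrafilter M} {O : Type} [CommRing O]

theorem ev_of_map [PR p O] {B B' : Subring (M → O)} (hB : Closed p B) (hB' : Closed p B')
    (w : σ → M → O) {F : RS p B σ} {F' : RS p B' σ} {m : M} {c : O}
    (h : RS.map (evm B m) F = RS.C c * RS.map (evm B' m) F') :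
    RS.lift B.subtype w F m = c * RS.lift B'.subtype w F' m := by
  rw [lift_subtype_apply hB, lift_subtype_apply hB', h]
  simp

theorem Good.dv_ev [PR p O] {B : Subring (M → O)} (hB : Closed p B) (h : Good p ω B)
    (w : σ → M → O) {a : M → ℕ} {F : RS p B σ}
    (hd : ∀ μ, Dv p ω a ((RS.coeff μ F : B) : M → O)) : Dv p ω a (RS.lift B.subtype w F) :=
  (h.dv_emb hd).mono fun m hm => by
    rw [lift_subtype_apply hB]
    exact ringHom_dvd _ hm

/-- The step of Lemma H. -/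
theorem Stable.step [DV p O] (mo : MonomialOrder σ) {VV : Set (Subring (M → O))}
    (hV : Stable p ω (RingHom.id O) VV) {B : Subring (M → O)} (hB : B ∈ VV) (w : σ → M → O)
    (g : M → ℕ) {F0 : RS p B σ} (hF0 : ∀ μ, Dv p ω g ((RS.coeff μ F0 : B) : M → O))
    {μ0 : σ →₀ ℕ} (h0 : ¬ Dv p ω (fun m => g m + 1) ((RS.coeff μ0 F0 : B) : M → O)) :
    ∃ B' ∈ VV, B ≤ B' ∧ ∃ A ∈ ω,
      (∀ F : RS p B σ, (∀ μ, Dv p ω g ((RS.coeff μ F : B) : M → O)) → ∃ F' : RS p B' σ, ∀ m ∈ A,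
        RS.lift B.subtype w F m = (p : O) ^ g m * RS.lift B'.subtype w F' m) ∧
      ∃ κ, RS.coeff κ F0 ≠ 0 ∧ ∃ G : RS p B' σ, IsMon mo κ G ∧ ∀ᶠ m in (ω : Filter M),
        vp p (RS.lift B.subtype w F0 m) = g m + vp p (RS.lift B'.subtype w G m) := by
  classical
  obtain ⟨B1, hB1, hle1, A1, hA1, -, H1⟩ := hV.wtrick hB g
  obtain ⟨F1, hF1⟩ := H1 σ F0 hF0
  have hc1 : ∀ μ, ∀ m ∈ A1, ((RS.coeff μ F0 : B) : M → O) m =
      (p : O) ^ g m * ((RS.coeff μ F1 : B1) : M → O) m := fun μ m hm => by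
    simpa only [RS.coeff_map, evm_apply, RS.coeff_pow_mul] using congrArg (RS.coeff μ) (hF1 m hm)
  have hfin := (hV.wf B1 hB1).finite_not_dv (fun μ => RS.coeff μ F1) (RS.decay F1) (fun _ => 0)
    (fun μ => Eventually.of_forall fun m => by simp only [pow_zero, isUnit_one, IsUnit.dvd]) 1
  have hne : μ0 ∈ {μ | ¬ Dv p ω (fun _ => 0 + 1) ((RS.coeff μ F1 : B1) : M → O)} := fun hd => h0 (by
    filter_upwards [hd, hA1] with m h1 h2
    rw [hc1 μ0 m h2, PR.dvd_cancel]
    simpa only [pow_one, zero_add] using h1)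
  obtain ⟨κ, hκ, hmax⟩ := Set.exists_max_image _ (fun μ => mo.toSyn μ) hfin ⟨μ0, hne⟩
  have hκ' : ∀ᶠ m in (ω : Filter M), ¬ (p : O) ∣ ((RS.coeff κ F1 : B1) : M → O) m := by
    simpa only [zero_add, pow_one] using Ultrafilter.eventually_not.2 hκ
  obtain ⟨B2, hB2, hle2, A2, hA2, -, H2⟩ := hV.wtrick hB1 fun _ => 1
  let Hi : RS p B1 σ := RS.mk (fun μ => if κ ≺[mo] μ then RS.coeff μ F1 else 0) fun k =>
    (RS.decay F1 k).subset fun μ hμ hd => hμ (by
      beta_reduce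
      split_ifs
      exacts [hd, dvd_zero _])
  obtain ⟨R', hR'⟩ := H2 σ Hi fun μ => by
    simp only [Hi, RS.coeff_mk]
    split_ifs with h
    · by_contra hd
      exact absurd (hmax μ hd) (not_le.2 h)
    · exact Eventually.of_forall fun m => by simp only [pow_one, ZeroMemClass.coe_zero, Pi.zero_apply, dvd_zero]
  obtain ⟨B3, hB3, hle3, c', hc', hcc⟩ := hV.q2 B2 hB2 _ (hle2 (RS.coeff κ F1).2)
    (hκ'.mono fun m hm => un_id_iff.2 (DV.unit _ hm))
  let i13 := Subring.inclusion (hle2.trans hle3)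
  refine ⟨B3, hB3, hle1.trans (hle2.trans hle3), A1, hA1, fun F hF => ?_, κ, fun hz => ?_,
    RS.ofPoly (MvPolynomial.monomial κ 1) + RS.C ⟨c', hc'⟩ * (RS.map i13 (F1 - Hi) -
      RS.ofPoly (MvPolynomial.monomial κ (i13 (RS.coeff κ F1)))) +
      (p : RS p B3 σ) * (RS.C ⟨c', hc'⟩ * RS.map (Subring.inclusion hle3) R'),
    ⟨?_, fun μ hμ => ?_⟩, ?_⟩
  · obtain ⟨F', hF'⟩ := H1 σ F hF
    exact ⟨RS.map i13 F', fun m hm => ev_of_map (hV.closed B hB) (hV.closed B3 hB3) w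
      (by rw [hF' m hm, map_pow, map_natCast]; rfl)⟩
  · obtain ⟨m, h1, h2⟩ := (hκ'.and hA1).exists
    have h3 := hc1 κ m h2
    rw [hz] at h3
    exact h1 (by rw [PR.pow_reg (p := p) _ _ h3.symm]; exact dvd_zero _)
  · simp only [Hi, map_sub, map_add, RS.coeff_ofPoly, MvPolynomial.coeff_monomial, ↓ reduceIte, RS.coeff_C_mul, RS.coeff_map, RS.coeff_mk, lt_self_iff_false, map_zero, sub_zero, sub_self, mul_zero, add_zero, RS.coeff_p_mul, add_sub_cancel_left, dvd_mul_right]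
  · have : κ ≠ μ := by rintro rfl; exact lt_irrefl _ hμ
    simp only [Hi, map_sub, map_add, RS.coeff_ofPoly, MvPolynomial.coeff_monomial, this, ↓ reduceIte, RS.coeff_C_mul, RS.coeff_map, RS.coeff_mk, hμ, sub_self, mul_zero, add_zero, RS.coeff_p_mul, zero_add, dvd_mul_right]
  · filter_upwards [hA1, hA2, hcc] with m h1 h2 h3
    rw [ev_of_map (hV.closed B hB) (hV.closed B1 hB1) w (c := (p : O) ^ g m) (F' := F1)
      (by rw [hF1 m h1, map_pow, map_natCast]), vp_pow_mul,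
      ev_of_map (hV.closed B3 hB3) (hV.closed B1 hB1) w (c := c' m) (F' := F1) ?_,
      vp_unit_mul (IsUnit.of_mul_eq_one_right _ h3)]
    have h4 := hR' m h2
    have h5 : (RS.ofPoly (MvPolynomial.monomial κ 1) : RS p O σ) = RS.C (c' m) *
        RS.ofPoly (MvPolynomial.monomial κ (((RS.coeff κ F1 : B1) : M → O) m)) := by
      rw [← RS.ofPoly_C, ← map_mul, MvPolynomial.C_mul_monomial, mul_comm, h3]
    simp only [map_add, map_mul, map_sub, RS.map_ofPoly, MvPolynomial.map_monomial, map_one,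
      RS.map_C, map_natCast, evm_apply, map_evm_inclusion, i13, Subring.coe_inclusion, h4, h5,
      pow_one]
    ring

end EN

end

-- part MP_646035_al.EN.Gauss
section

/-! Lemma G (Gauss variables) and the family of constants. -/

set_option autoImplicit false
open Filter

namespace EN
variable {p : ℕ} {M : Type} {ω : Ultrafilter M} {O : Type} [CommRing O]

variable (p ω) in
/-- The family `Sat_A (B<I>)`. -/
def serFam (VV : Set (Subring (M → O))) (I : Type) : Set (Subring (M → RS p O I)) :=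
  {J | ∃ B ∈ VV, ∃ A ∈ ω, J = Sat A (emb p B I).range}

theorem wf_emb [PR p O] {B : Subring (M → O)} (hw : WF p ω B) (hg : Good p ω B) (I : Type) :
    WF p ω (emb p B I).range := by
  refine NoDesc.mono_top hw ?_
  rintro _ ⟨_, ⟨F, rfl⟩, rfl⟩ hf
  obtain ⟨a, ha⟩ := exists_nat_rep hf
  by_contra hn
  have H : ∀ μ, Dv p ω (fun m => a m + 1) ((RS.coeff μ F : B) : M → O) := fun μ => by
    by_contra hd
    refine hn ⟨_, ⟨_, (RS.coeff μ F).2, rfl⟩, ?_⟩
    filter_upwards [ha, not_dv_iff.1 hd] with m h1 h2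
    refine le_antisymm (RS.vp_le_coeff (emb p B I F m) μ) ?_
    rw [h1]
    rw [Nat.cast_add, Nat.cast_one, ENat.lt_add_one_iff (by simp)] at h2
    exact h2
  obtain ⟨m, h1, h2⟩ := (ha.and (hg.dv_emb H)).exists
  have h3 := lt_vp_iff.2 h2
  rw [← h1] at h3
  exact lt_irrefl _ h3

/-- Lemma G. -/
theorem CStable.ser [PR p O] {VV : Set (Subring (M → O))} (h : CStable p ω (RingHom.id O) VV)
    (I : Type) : CStable p ω (RS.C : O →+* RS p O I) (serFam p ω VV I) := by
  refine ⟨⟨?_, ?_, ?_, ?_, ?_⟩, ?_⟩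
  · rintro _ ⟨B, hB, A, -, rfl⟩
    exact (closed_emb_range (h.closed B hB) I).sat A
  · rintro _ ⟨B, hB, A, hA, rfl⟩
    exact (wf_emb (h.wf B hB) (h.toStable.good hB) I).sat hA
  · rintro _ ⟨B, hB, A, hA, rfl⟩ A' hA'
    exact ⟨_, ⟨B, hB, A ∩ A', Filter.inter_mem hA hA', rfl⟩, Sat_mono Set.inter_subset_left le_rfl,
      (satOn_Sat _ _).superset Set.inter_subset_right⟩
  · rintro _ ⟨B, hB, A, hA, rfl⟩ a
    obtain ⟨B', hB', hle, A', hA', -, H⟩ := h.toStable.wtrick hB a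
    refine ⟨_, ⟨B', hB', A, hA, rfl⟩, Sat_mono subset_rfl (emb_range_mono hle I), A ∩ A',
      Filter.inter_mem hA hA', ?_⟩
    rintro N ⟨_, ⟨F, rfl⟩, hN⟩ hd
    obtain ⟨F', hF'⟩ := H I F (hd.congr (Eventually.mono hA hN)).coeff
    exact ⟨emb p B' I F', le_Sat _ _ ⟨F', rfl⟩, fun m hm => (hN m hm.1).trans (hF' m hm.2)⟩
  · rintro _ ⟨B, hB, A, hA, rfl⟩ N ⟨_, ⟨F, rfl⟩, hN⟩ hu
    have hu' : ∀ᶠ m in (ω : Filter M), ∃ c : O, IsUnit c ∧
        ∀ μ, (p : O) ∣ RS.coeff μ (RS.map (evm B m) F - RS.C c) := by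
      filter_upwards [hu, hA] with m ⟨c, hc, h1⟩ hm
      exact ⟨c, hc, RS.dvd_iff.1 (by rwa [hN m hm] at h1)⟩
    obtain ⟨B1, hB1, hle1, A1, hA1, -, H⟩ := h.toStable.wtrick hB fun _ => 1
    obtain ⟨G, hG⟩ := H I (F - RS.C (RS.coeff 0 F)) fun μ => hu'.mono fun m ⟨c, _, h1⟩ => by
      by_cases hμ : μ = 0
      · simp only [pow_one, hμ, map_sub, RS.coeff_zero_C, sub_self, ZeroMemClass.coe_zero, Pi.zero_apply, dvd_zero]
      · simpa only [pow_one, map_sub, RS.coeff_C_of_ne hμ, sub_zero, RS.coeff_map, evm_apply] using h1 μ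
    obtain ⟨B2, hB2, hle2, c', hc', hcc⟩ := h.q2 B1 hB1 _ (hle1 (RS.coeff 0 F).2)
      (hu'.mono fun m ⟨c, hc, h1⟩ => ⟨c, hc, by simpa only [RingHom.id_apply, map_sub, RS.coeff_map, evm_apply, RS.coeff_zero_C] using h1 0⟩)
    have := (h.closed B2 hB2).pr
    obtain ⟨y, hy⟩ := (isUnit_one_add (p := p)
      (RS.C ⟨c', hc'⟩ * RS.map (Subring.inclusion hle2) G : RS p B2 I)).exists_right_inv
    refine ⟨_, ⟨B2, hB2, A, hA, rfl⟩, Sat_mono subset_rfl (emb_range_mono (hle1.trans hle2) I),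
      emb p B2 I (RS.C ⟨c', hc'⟩ * y), le_Sat _ _ ⟨_, rfl⟩, ?_⟩
    filter_upwards [hA, hA1, hcc] with m hm hm1 h1
    have h2 := hG m hm1
    have h3 := congrArg (RS.map (evm B2 m)) hy
    simp only [map_sub, map_mul, map_add, map_one, map_natCast, RS.map_C, evm_apply, pow_one,
      map_evm_inclusion] at h2 h3
    have h4 : (RS.C (((RS.coeff 0 F : B) : M → O) m) * RS.C (c' m) : RS p O I) = 1 := by
      rw [← map_mul, h1, map_one]
    rw [hN m hm, emb_apply, emb_apply, map_mul, RS.map_C, evm_apply, sub_eq_iff_eq_add.1 h2, ← h3,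
      ← h4]
    ring
  · rintro _ ⟨B, hB, A, hA, rfl⟩ a
    obtain ⟨B', hB', hle, H⟩ := h.cst B hB a
    refine ⟨_, ⟨B', hB', A, hA, rfl⟩, Sat_mono subset_rfl (emb_range_mono hle I),
      le_Sat _ _ ⟨RS.C ⟨_, H⟩, funext fun m => by simp only [emb_apply, RS.map_C, evm_apply, map_pow, map_natCast]⟩⟩

variable (ω O) in
/-- The family of the almost everywhere constant functions. -/
def constFam : Set (Subring (M → O)) :=
  {J | ∃ A ∈ ω, J = Sat A (Pi.constRingHom M O).range}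

theorem const_mem_constFam :
    ∃ B ∈ constFam ω O, ∀ c : O, (fun _ => c) ∈ B :=
  ⟨_, ⟨Set.univ, Filter.univ_mem, rfl⟩, fun c => le_Sat _ _ ⟨c, rfl⟩⟩

theorem stable_constFam [PR p O] : Stable p ω (RingHom.id O) (constFam ω O) := by
  refine ⟨?_, ?_, ?_, ?_, ?_⟩
  · rintro _ ⟨A, -, rfl⟩
    exact (closed_range _).sat A
  · rintro _ ⟨A, hA, rfl⟩
    refine WF.sat (wf_of_seq fun N hN hd => ?_) hA
    choose c hc using hN
    have : ∀ i, vp p (c (i + 1)) < vp p (c i) := fun i => by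
      obtain ⟨m, hm⟩ := (hd i).exists
      simpa [← hc] using hm
    exact not_strictAnti_of_wellFoundedLT (fun i => vp p (c i)) (strictAnti_nat_of_succ_lt this)
  · rintro _ ⟨A, hA, rfl⟩ A' hA'
    exact ⟨_, ⟨A ∩ A', Filter.inter_mem hA hA', rfl⟩, Sat_mono Set.inter_subset_left le_rfl,
      (satOn_Sat _ _).superset Set.inter_subset_right⟩
  · rintro _ ⟨A, hA, rfl⟩ a
    refine ⟨_, ⟨A, hA, rfl⟩, le_rfl, ?_⟩
    by_cases hj : ∃ j, ∀ᶠ m in (ω : Filter M), a m = j
    · obtain ⟨j, hj⟩ := hj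
      refine ⟨_, Filter.inter_mem hA hj, ?_⟩
      rintro N ⟨_, ⟨c, rfl⟩, hN⟩ hd
      obtain ⟨m0, h1, h2, h3⟩ := (hd.and (Eventually.and hA hj)).exists
      rw [hN m0 h2, h3] at h1
      obtain ⟨c', hc'⟩ := h1
      refine ⟨fun _ => c', le_Sat _ _ ⟨c', rfl⟩, fun m hm => ?_⟩
      rw [hN m hm.1, show a m = j from hm.2]
      exact hc'
    · have H : ∀ k, ∀ᶠ m in (ω : Filter M), k ≤ a m := fun k => by
        induction k with
        | zero => simp
        | succ k ih =>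
          filter_upwards [ih, Ultrafilter.eventually_not.2 fun h => hj ⟨k, h⟩] with m h1 h2
          omega
      refine ⟨A, hA, ?_⟩
      rintro N ⟨_, ⟨c, rfl⟩, hN⟩ hd
      have hc : c = 0 := PR.sep (p := p) _ fun k => by
        obtain ⟨m0, h1, h2, h3⟩ := (hd.and (Eventually.and hA (H k))).exists
        rw [hN m0 h2] at h1
        exact (pow_dvd_pow _ h3).trans h1
      exact ⟨0, Subring.zero_mem _, fun m hm => by simp only [hN m hm, Pi.constRingHom_eq_algebraMap, hc, Pi.algebraMap_apply, Algebra.algebraMap_self, RingHom.id_apply, Pi.zero_apply, mul_zero]⟩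
  · rintro _ ⟨A, hA, rfl⟩ N ⟨_, ⟨c, rfl⟩, hN⟩ hu
    obtain ⟨m0, h1, h2⟩ := (hu.and hA).exists
    rw [hN m0 h2] at h1
    obtain ⟨c', hc'⟩ := h1.isUnit.exists_right_inv
    exact ⟨_, ⟨A, hA, rfl⟩, le_rfl, fun _ => c', le_Sat _ _ ⟨c', rfl⟩,
      Eventually.mono hA fun m hm => by rw [hN m hm]; exact hc'⟩

end EN

end

-- part MP_646035_al.EN.Adj
section

/-! Lemma H (adjoining finitely many elements) and the chart lemma. -/

set_option autoImplicit false
open Filter
open scoped MonomialOrder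

namespace EN
variable {p : ℕ} {M : Type} {ω : Ultrafilter M} {O : Type} [CommRing O] {σ : Type}
  {VV : Set (Subring (M → O))}

theorem dv_of_min {N N' : M → O} {g : M → ℕ}
    (hg : ∀ᶠ m in (ω : Filter M), vp p (N m) = g m)
    (h : ∀ᶠ m in (ω : Filter M), vp p (N m) ≤ vp p (N' m)) : Dv p ω g N' :=
  dv_iff.2 <| by filter_upwards [hg, h] with m h1 h2 using h1 ▸ h2

theorem not_dv_succ {N : M → O} {g : M → ℕ} (hg : ∀ᶠ m in (ω : Filter M), vp p (N m) = g m) :
    ¬ Dv p ω (fun m => g m + 1) N :=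
  not_dv_iff.2 <| hg.mono fun m hm => by rw [hm]; exact_mod_cast Nat.lt_succ_self _

theorem claim1 [DV p O] [Finite σ] (mo : MonomialOrder σ) (hV : Stable p ω (RingHom.id O) VV)
    (w : σ → M → O) (T : Finset (σ →₀ ℕ)) : ∀ B ∈ VV, ∀ (a : M → ℕ) (G : (σ →₀ ℕ) → RS p B σ),
    (∀ κ ∈ T, IsMon mo κ (G κ) ∧ Dv p ω a (RS.lift B.subtype w (G κ))) →
    ∃ B' ∈ VV, B ≤ B' ∧ ∃ w' : Set (M → O), w'.Finite ∧ ∃ A ∈ ω, ∀ F : RS p B σ,
      Dv p ω a (RS.lift B.subtype w F) → ∃ N' ∈ cl p ((B' : Set (M → O)) ∪ Set.range w ∪ w'),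
        ∀ m ∈ A, RS.lift B.subtype w F m = (p : O) ^ a m * N' m := by
  classical
  induction T using (wf_insert (σ := σ)).induction with
  | _ T ih =>
  intro B hB a G hG
  have := (hV.closed B hB).pr
  have hev : ∀ B' ∈ VV, ∀ (w' : Set (M → O)) (F : RS p B' σ),
      RS.lift B'.subtype w F ∈ cl p ((B' : Set (M → O)) ∪ Set.range w ∪ w') := fun B' hB' w' F =>
    cl_mono Set.subset_union_left (by rw [← RS.range_lift (hV.closed B' hB')]; exact ⟨F, rfl⟩)
  suffices H : ∃ B' ∈ VV, B ≤ B' ∧ ∃ w' : Set (M → O), w'.Finite ∧ ∃ A ∈ ω, ∀ F : RS p B σ,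
      Red T F → Dv p ω a (RS.lift B.subtype w F) →
      ∃ N' ∈ cl p ((B' : Set (M → O)) ∪ Set.range w ∪ w'),
        ∀ m ∈ A, RS.lift B.subtype w F m = (p : O) ^ a m * N' m by
    obtain ⟨B', hB', hle, w', hw', A, hA, H⟩ := H
    have h0 : ∀ᶠ m in (ω : Filter M), ∀ κ : T, (p : O) ^ a m ∣ RS.lift B.subtype w (G κ) m :=
      eventually_all.2 fun κ => (hG κ κ.2).2
    have h1 : ∀ (κ : T) (m : M), ∃ u : O, (p : O) ^ a m ∣ RS.lift B.subtype w (G κ) m →
        RS.lift B.subtype w (G κ) m = (p : O) ^ a m * u := fun κ m => by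
      by_cases h : (p : O) ^ a m ∣ RS.lift B.subtype w (G κ) m
      · exact h.imp fun _ hu _ => hu
      · exact ⟨0, fun h' => absurd h' h⟩
    choose u hu using h1
    refine ⟨B', hB', hle, w' ∪ Set.range u, hw'.union (Set.finite_range u), _,
      Filter.inter_mem hA h0, fun F hF => ?_⟩
    obtain ⟨Q, F0, rfl, hr⟩ := exists_div T G (fun κ hκ => (hG κ hκ).1) F
    obtain ⟨N', hN', h2⟩ := H F0 hr (by
      filter_upwards [hF, h0] with m h3 h4
      simp only [map_add, map_sum, map_mul, Pi.add_apply, Finset.sum_apply, Pi.mul_apply] at h3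
      exact (dvd_add_right (Finset.dvd_sum fun κ _ => (h4 κ).mul_left _)).1 h3)
    refine ⟨∑ κ, RS.lift B.subtype w (Q κ) * u κ + N', Subring.add_mem _ (Subring.sum_mem _
      fun κ _ => Subring.mul_mem _ ?_ (mem_cl (Or.inr (Or.inr ⟨κ, rfl⟩))))
      (cl_mono (Set.union_subset_union_right _ Set.subset_union_left) hN'), fun m hm => ?_⟩
    · rw [← lift_subtype_inclusion (hV.closed B hB) hle]
      exact hev B' hB' _ _
    · simp only [map_add, map_sum, map_mul, Pi.add_apply, Finset.sum_apply, Pi.mul_apply,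
        h2 m hm.1, mul_add, Finset.mul_sum, fun κ => hu κ m (hm.2 κ), mul_left_comm]
  by_cases hc : ∀ F : RS p B σ, Red T F → Dv p ω a (RS.lift B.subtype w F) →
      ∀ μ, Dv p ω a ((RS.coeff μ F : B) : M → O)
  · obtain ⟨B', hB', hle, A, hA, -, H⟩ := hV.wtrick hB a
    refine ⟨B', hB', hle, ∅, Set.finite_empty, A, hA, fun F h1 h2 => ?_⟩
    obtain ⟨F', hF'⟩ := H σ F (hc F h1 h2)
    exact ⟨_, hev B' hB' _ F', fun m hm => ev_of_map (hV.closed B hB) (hV.closed B' hB') w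
      (by rw [hF' m hm, map_pow, map_natCast])⟩
  push Not at hc
  obtain ⟨F1, h1, h2, μ1, h3⟩ := hc
  have : Nonempty {x : RS p B σ × (σ →₀ ℕ) // Red T x.1 ∧ Dv p ω a (RS.lift B.subtype w x.1)} :=
    ⟨⟨(F1, μ1), h1, h2⟩⟩
  obtain ⟨⟨⟨F0, μ0⟩, hr, hd⟩, hmin⟩ := (hV.wf B hB).exists_min
    (fun x : {x : RS p B σ × (σ →₀ ℕ) // Red T x.1 ∧ Dv p ω a (RS.lift B.subtype w x.1)} =>
      ((RS.coeff x.1.2 x.1.1 : B) : M → O)) fun x => (RS.coeff x.1.2 x.1.1).2
  have hlt : ∀ᶠ m in (ω : Filter M), vp p (((RS.coeff μ0 F0 : B) : M → O) m) < a m := by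
    filter_upwards [hmin ⟨(F1, μ1), h1, h2⟩, not_dv_iff.1 h3] with m h4 h5 using h4.trans_lt h5
  obtain ⟨g, hg⟩ := exists_nat_rep (hlt.mono fun _ hm => hm.ne_top)
  have hga : ∀ᶠ m in (ω : Filter M), g m ≤ a m := by
    filter_upwards [hlt, hg] with m h4 h5
    rw [h5] at h4
    exact_mod_cast h4.le
  have hall : ∀ F : RS p B σ, Red T F → Dv p ω a (RS.lift B.subtype w F) →
      ∀ μ, Dv p ω g ((RS.coeff μ F : B) : M → O) := fun F h4 h5 μ =>
    dv_of_min hg (hmin ⟨(F, μ), h4, h5⟩)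
  obtain ⟨B2, hB2, hle2, A2, hA2, H2, κ, hκ, G0, hG0, hv⟩ :=
    hV.step mo hB w g (hall F0 hr hd) (not_dv_succ hg)
  obtain ⟨B', hB', hle, w', hw', A, hA, H⟩ := ih (insert κ T)
    ⟨κ, fun κ0 h4 h5 => hκ (hr κ ⟨κ0, h4, h5⟩), rfl⟩ B2 hB2 (fun m => a m - g m)
    (Function.update (fun κ0 => RS.map (Subring.inclusion hle2) (G κ0)) κ G0) (fun κ0 h4 => by
      by_cases h5 : κ0 = κ
      · subst h5
        rw [Function.update_self]
        refine ⟨hG0, dv_iff.2 ?_⟩
        filter_upwards [hv, dv_iff.1 hd] with m h6 h7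
        rw [ENat.natCast_sub]
        exact tsub_le_iff_left.2 (h6 ▸ h7)
      · have h6 := hG κ0 ((Finset.mem_insert.1 h4).resolve_left h5)
        rw [Function.update_of_ne h5, lift_subtype_inclusion (hV.closed B hB)]
        exact ⟨h6.1.map _, h6.2.of_le (Eventually.of_forall fun m => Nat.sub_le _ _)⟩)
  refine ⟨B', hB', hle2.trans hle, w', hw', _, Filter.inter_mem hA (Filter.inter_mem hA2 hga),
    fun F h4 h5 => ?_⟩
  obtain ⟨F', hF'⟩ := H2 F (hall F h4 h5)
  obtain ⟨N', hN', h6⟩ := H F' (by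
    filter_upwards [h5, hA2, hga] with m h7 h8 h9
    rwa [hF' m h8, ← Nat.add_sub_cancel' h9, PR.dvd_cancel] at h7)
  refine ⟨N', hN', fun m hm => ?_⟩
  rw [hF' m hm.2.1, h6 m hm.1, ← mul_assoc, ← pow_add, Nat.add_sub_cancel' hm.2.2]

theorem claim2 [DV p O] [Finite σ] (mo : MonomialOrder σ) (hV : Stable p ω (RingHom.id O) VV)
    (w : σ → M → O) (T : Finset (σ →₀ ℕ)) : ∀ B ∈ VV, ∀ (G : (σ →₀ ℕ) → RS p B σ)
    (R : ℕ → RS p B σ), (∀ κ ∈ T, IsMon mo κ (G κ) ∧ ∀ᶠ m in (ω : Filter M),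
      vp p (RS.lift B.subtype w (R 0) m) < vp p (RS.lift B.subtype w (G κ) m)) →
    ¬ ∀ i, ∀ᶠ m in (ω : Filter M),
      vp p (RS.lift B.subtype w (R (i + 1)) m) < vp p (RS.lift B.subtype w (R i) m) := by
  classical
  induction T using (wf_insert (σ := σ)).induction with
  | _ T ih =>
  intro B hB G R hG hd
  have := (hV.closed B hB).pr
  have hlt := @desc_lt M ω (fun i m => vp p (RS.lift B.subtype w (R i) m)) hd
  choose Q R0 hR hr using fun i => exists_div T G (fun κ hκ => (hG κ hκ).1) (R i)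
  have hv0 : ∀ i, ∀ᶠ m in (ω : Filter M), vp p (RS.lift B.subtype w (R0 (i + 1)) m) =
      vp p (RS.lift B.subtype w (R (i + 1)) m) := fun i => by
    filter_upwards [hlt (Nat.succ_pos i), eventually_all.2 fun κ : T => (hG κ κ.2).2] with m h1 h2
    have h3 : vp p (RS.lift B.subtype w (R 0) m) ≤
        vp p (-RS.lift B.subtype w (∑ κ, Q (i + 1) κ * G κ) m) := by
      rw [vp_neg]
      refine le_vp_iff.2 fun k hk => ?_
      simp only [map_sum, map_mul, Finset.sum_apply, Pi.mul_apply]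
      exact Finset.dvd_sum fun κ _ => (dvd_iff_le_vp.2 (hk.trans (h2 κ).le)).mul_left _
    rw [← vp_add_of_lt (h1.trans_le h3)]
    congr 1
    rw [hR (i + 1), map_add, Pi.add_apply]
    ring
  obtain ⟨b, hb⟩ := exists_nat_rep ((hd 0).mono fun _ hm => hm.ne_top)
  obtain ⟨μ1, h1⟩ : ∃ μ, ¬ Dv p ω (fun m => b m + 1) ((RS.coeff μ (R0 1) : B) : M → O) := by
    by_contra hn
    push Not at hn
    refine not_dv_succ (g := b) ?_ ((hV.good hB).dv_ev (hV.closed B hB) w hn)
    filter_upwards [hv0 0, hb] with m h1 h2 using h1.trans h2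
  obtain ⟨⟨i0, μ0⟩, hmin⟩ := (hV.wf B hB).exists_min
    (fun x : ℕ × (σ →₀ ℕ) => ((RS.coeff x.2 (R0 (x.1 + 1)) : B) : M → O)) fun x => Subtype.prop _
  obtain ⟨g, hg⟩ : ∃ g : M → ℕ, ∀ᶠ m in (ω : Filter M),
      vp p (((RS.coeff μ0 (R0 (i0 + 1)) : B) : M → O) m) = g m := exists_nat_rep (by
    filter_upwards [hmin (0, μ1), not_dv_iff.1 h1] with m h2 h3 using (h2.trans_lt h3).ne_top)
  have hall : ∀ i μ, Dv p ω g ((RS.coeff μ (R0 (i + 1)) : B) : M → O) := fun i μ =>
    dv_of_min hg (hmin (i, μ))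
  obtain ⟨B2, hB2, hle2, A2, hA2, H2, κ, hκ, G0, hG0, hv⟩ :=
    hV.step mo hB w g (hall i0) (not_dv_succ hg)
  choose R' hR' using fun i => H2 _ (hall (i0 + 1 + i))
  have hv' : ∀ i, ∀ᶠ m in (ω : Filter M), vp p (RS.lift B.subtype w (R (i0 + 1 + i + 1)) m) =
      g m + vp p (RS.lift B2.subtype w (R' i) m) := fun i => by
    filter_upwards [hv0 (i0 + 1 + i), hA2] with m h2 h3
    rw [← h2, hR' i m h3, vp_pow_mul]
  refine ih (insert κ T) ⟨κ, fun κ0 h4 h5 => hκ (hr _ κ ⟨κ0, h4, h5⟩), rfl⟩ B2 hB2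
    (Function.update (fun κ0 => RS.map (Subring.inclusion hle2) (G κ0)) κ G0) R'
    (fun κ0 h4 => ?_) fun i => ?_
  · by_cases h5 : κ0 = κ
    · subst h5
      rw [Function.update_self]
      refine ⟨hG0, ?_⟩
      filter_upwards [hv, hv' 0, hv0 i0, hd (i0 + 1)] with m h6 h7 h8 h9
      rw [← h8, h6, h7] at h9
      exact (ENat.add_lt_add_iff_left (by simp)).1 h9
    · have h6 := hG κ0 ((Finset.mem_insert.1 h4).resolve_left h5)
      rw [Function.update_of_ne h5, lift_subtype_inclusion (hV.closed B hB)]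
      refine ⟨h6.1.map _, ?_⟩
      filter_upwards [h6.2, hv' 0, hlt (Nat.succ_pos (i0 + 1 + 0))] with m h7 h8 h9
      exact ((h8 ▸ le_add_self).trans_lt h9).trans h7
  · filter_upwards [hv' i, hv' (i + 1), hd (i0 + 1 + i + 1)] with m h6 h7 h8
    rw [h6, show i0 + 1 + i + 1 + 1 = i0 + 1 + (i + 1) + 1 from rfl, h7] at h8
    exact (ENat.add_lt_add_iff_left (by simp)).1 h8

variable (p) in
/-- The family `cl <B, w>`, `w` finite. -/
def adjFam (VV : Set (Subring (M → O))) : Set (Subring (M → O)) :=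
  {J | ∃ B ∈ VV, ∃ w : Set (M → O), w.Finite ∧ J = cl p ((B : Set (M → O)) ∪ w)}

/-- Lemma H. -/
theorem Stable.adj [DV p O] (hV : Stable p ω (RingHom.id O) VV) :
    CStable p ω (RingHom.id O) (adjFam p VV) := by
  have hadd : ∀ B ∈ VV, ∀ w : Set (M → O), w.Finite → ∀ x : M → O, ∃ J ∈ adjFam p VV,
      cl p ((B : Set (M → O)) ∪ w) ≤ J ∧ x ∈ J := fun B hB w hw x =>
    ⟨_, ⟨B, hB, insert x w, hw.insert x, rfl⟩,
      cl_mono (Set.union_subset_union_right _ (Set.subset_insert _ _)),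
      mem_cl (Or.inr (Set.mem_insert _ _))⟩
  refine ⟨⟨?_, ?_, ?_, ?_, ?_⟩, ?_⟩
  · rintro _ ⟨B, -, w, -, rfl⟩
    exact closed_cl _
  · rintro _ ⟨B, hB, w, hw, rfl⟩
    obtain ⟨n, f, -, rfl⟩ := hw.fin_param
    refine wf_of_seq fun N hN hd => ?_
    rw [← RS.range_lift (hV.closed B hB)] at hN
    choose R hR using hN
    exact claim2 MonomialOrder.lex hV f ∅ B hB (fun _ => 0) R (by simp) (by simpa only [hR] using hd)
  · rintro _ ⟨B, hB, w, hw, rfl⟩ A hA
    obtain ⟨B', h1, h2, h3⟩ := hV.sat B hB A hA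
    exact ⟨_, ⟨B', h1, w, hw, rfl⟩, cl_mono (Set.union_subset_union_left _ h2),
      h3.mono fun _ hx => mem_cl (Or.inl hx)⟩
  · rintro _ ⟨B, hB, w, hw, rfl⟩ a
    obtain ⟨n, f, -, rfl⟩ := hw.fin_param
    obtain ⟨B', h1, h2, w', h3, A, hA, H⟩ :=
      claim1 MonomialOrder.lex hV f ∅ B hB a (fun _ => 0) (by simp)
    refine ⟨_, ⟨B', h1, Set.range f ∪ w', hw.union h3, rfl⟩,
      cl_mono (Set.union_subset_union h2 Set.subset_union_left), A, hA, fun N hN hd => ?_⟩
    rw [← RS.range_lift (hV.closed B hB)] at hN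
    obtain ⟨F, rfl⟩ := hN
    rw [← Set.union_assoc]
    exact H F hd
  · rintro _ ⟨B, hB, w, hw, rfl⟩ N - hu
    obtain ⟨J, h1, h2, h3⟩ := hadd B hB w hw fun m => Ring.inverse (N m)
    exact ⟨J, h1, h2, _, h3, hu.mono fun m hm => Ring.mul_inverse_cancel _ hm.isUnit⟩
  · rintro _ ⟨B, hB, w, hw, rfl⟩ a
    exact hadd B hB w hw _

/-- The chart lemma: (F), Step 0 and the main step. -/
theorem chart [DV p O] {Θ : Type} [LinearOrder Θ] [WellFoundedLT Θ]
    (hV : Stable p ω (RingHom.id O) VV) {B : Subring (M → O)} (hB : B ∈ VV) (U : Set Θ)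
    (r : M → ℕ) (u : Θ → M → O) (z : Θ → M → RS p O Θ) {A : Set M} (hA : A ∈ ω) (T : Set Θ)
    (hT : T.Finite) (hz : ∀ m ∈ A, ∀ t ∈ U, RS.Tri t (z t m))
    (hu : ∀ m ∈ A, ∀ t ∈ U, t ∉ T → (p : O) ^ (r m + 1) ∣ u t m) :
    ∃ WW, CStable p ω (RS.C : O →+* RS p O Θ) WW ∧ ∃ J ∈ WW, SatOn J A ∧
      (∀ t ∈ U, (fun m => RS.C (u t m) + (p : RS p O Θ) ^ r m * z t m) ∈ J) ∧
      (∀ F : RS p B Θ, (∀ m ∈ A, RS.kill U (emb p B Θ F m) = emb p B Θ F m) →
        (fun m => RS.rho (r m) (emb p B Θ F m)) ∈ J) ∧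
      (∀ b ∈ B, (fun m => RS.C (b m)) ∈ J) ∧ (fun m => (p : RS p O Θ) ^ r m) ∈ J ∧
      ∀ t ∉ U, (fun _ => RS.X t) ∈ J := by
  classical
  have h1 : ∀ t m, ∃ v : O, m ∈ A → t ∈ U → t ∉ T → u t m = (p : O) ^ r m * ((p : O) * v) :=
    fun t m => by
      by_cases h : m ∈ A ∧ t ∈ U ∧ t ∉ T
      · obtain ⟨v, hv⟩ := hu m h.1 t h.2.1 h.2.2
        exact ⟨v, fun _ _ _ => by rw [hv, pow_succ, mul_assoc]⟩
      · exact ⟨0, fun a b c => absurd ⟨a, b, c⟩ h⟩
  choose v hv using h1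
  let s : M → Θ → RS p O Θ := fun m t =>
    if m ∈ A ∧ t ∈ U then (if t ∈ T then z t m else z t m + RS.C ((p : O) * v t m)) else RS.X t
  have hs : ∀ m t, RS.Tri t (s m t) := fun m t => by
    simp only [s]
    split_ifs with h h'
    · exact hz m h.1 t h.2
    · exact (hz m h.1 t h.2).add_dvd (by simp only [map_mul, map_natCast, dvd_mul_right])
    · exact RS.tri_X t
  choose e he1 he2 using fun m => RS.exists_triEquiv (hs m)
  let w : Set (M → O) := insert (fun m => (p : O) ^ r m) (u '' T)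
  let B' := cl p ((B : Set (M → O)) ∪ w)
  have hB' : B' ∈ adjFam p VV := ⟨B, hB, w, (hT.image u).insert _, rfl⟩
  have hW := (hV.adj.ser Θ).transport (ι' := RS.C) e he1
  let J := (Sat A (emb p B' Θ).range).map (piHom fun m => (e m).toRingHom)
  have hJ : J ∈ (fun B : Subring (M → RS p O Θ) => B.map (piHom fun m => (e m).toRingHom)) ''
      serFam p ω (adjFam p VV) Θ := ⟨_, ⟨B', hB', A, hA, rfl⟩, rfl⟩
  have hJc := hW.closed J hJ
  have hsat : SatOn J A := fun N hN =>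
    ⟨fun m => (e m).symm (N m), satOn_Sat _ _ _ fun m hm => by simp [hN m hm],
      funext fun m => by simp⟩
  have hC : ∀ b ∈ B', (fun m => RS.C (b m)) ∈ J := fun b hb =>
    ⟨_, le_Sat _ _ ⟨RS.C ⟨b, hb⟩, rfl⟩, funext fun m => by simp only [RingEquiv.toRingHom_eq_coe, piHom_apply, emb_apply, RS.map_C, evm_apply, RingHom.coe_coe, he1]⟩
  have hX : ∀ t, (fun m => s m t) ∈ J := fun t =>
    ⟨_, le_Sat _ _ ⟨RS.X t, rfl⟩, funext fun m => by simp [he2]⟩
  have hp : (fun m => (p : RS p O Θ) ^ r m) ∈ J := by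
    simpa only [map_pow, map_natCast] using hC _ (mem_cl (Or.inr (Set.mem_insert _ _)))
  have hX' : ∀ t ∉ U, (fun _ => RS.X t) ∈ J := fun t ht => by simpa only [s, map_mul, map_natCast, ht, and_false, ↓ reduceIte] using hX t
  have hCB : ∀ b ∈ B, (fun m => RS.C (b m)) ∈ J := fun b hb => hC b (mem_cl (Or.inl hb))
  refine ⟨_, hW, J, hJ, hsat, fun t ht => ?_, fun F hF => ?_, hCB, hp, hX'⟩
  · by_cases h : t ∈ T
    · exact hsat.mem (J.add_mem (hC _ (mem_cl (Or.inr (Or.inr ⟨t, h, rfl⟩)))) (J.mul_mem hp (hX t)))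
        fun m hm => by simp only [s, map_mul, map_natCast, ht, and_true, h, ↓ reduceIte, Pi.add_apply, Pi.mul_apply, hm]
    · refine hsat.mem (J.mul_mem hp (hX t)) fun m hm => ?_
      simp only [s, hm, ht, h, hv t m hm ht h, Pi.mul_apply, and_self, if_true, if_false, map_mul,
        map_pow, map_natCast]
      ring
  · have := (hV.closed B hB).pr
    let φ : RS p B Θ →+* (M → RS p O Θ) :=
      (piHom fun m => (RS.rho (r m)).comp (RS.kill U)).comp (emb p B Θ)
    refine hsat.mem (RS.hom_mem φ hJc (fun c => ?_) (fun t => ?_) F) fun m hm => ?_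
    · convert hCB c c.2 using 1
      funext m
      simp only [φ, RingHom.coe_comp, Function.comp_apply, piHom_apply, emb_apply, RS.map_C, evm_apply, RS.kill_C, RS.rho_C]
    · by_cases ht : t ∈ U
      · convert J.zero_mem using 1
        funext m
        simp only [φ, RingHom.coe_comp, Function.comp_apply, piHom_apply, emb_apply, RS.map_X, RS.kill_X_mem ht, map_zero, Pi.zero_apply]
      · convert J.mul_mem hp (hX' t ht) using 1
        funext m
        simp only [φ, RingHom.coe_comp, Function.comp_apply, piHom_apply, emb_apply, RS.map_X, RS.kill_X_notMem ht, RS.rho_X, Pi.mul_apply]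
    · change _ = RS.rho (r m) (RS.kill U (emb p B Θ F m))
      rw [hF m hm]

end EN

end
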