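import Mathlib

attribute [-instance] DivisionSemiring.toSemiring ContinuousSemilinearMapClass.toSemilinearMapClass
  AlgHom.instNonUnitalAlgHomClassOfAlgHomClass instCharZeroOfIsSemireal
  MonTypeEquivalenceMon.monMonoid RKHS.instFunLike DivisionRing.toRing
  CoalgHomClass.toSemilinearMapClass IdemSemiring.toSemiring RingHomClass.toLinearMapClassRat
  RingHomClass.toLinearMapClassNNRat FloorSemiring.instCharZero SMulZeroClass.toSMul
  instNonUnitalAlgHomClassOfNonUnitalAlgEquivClass SemilinearIsometryClass.toSemilinearMapClass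
  Semifield.toCommSemiring NumberField.to_charZero
  NonUnitalAlgHomClass.instSemilinearMapClassOfNonUnitalAlgSemiHomClassToMonoidHomRingHom
  NonUnitalAlgHomClass.instLinearMapClass RCLike.charZero_rclike IdemCommSemiring.toCommSemiring
  CharP.pi' BialgHomClass.toMonoidHomClass AlgHomClass.linearMapClass
  MulRingSeminormClass.toMonoidWithZeroHomClass CommMonTypeEquivalenceCommMon.commMonCommMonoid
  UniformSpace.toTopologicalSpace SemigroupAction.toSMul NonUnitalNormedRing.toNormedAddCommGroup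
  Group.IsPerfect.subsingleton_of_isMulCommutative Fintype.decidableForallFintype
  SemilinearEquivClass.instSemilinearMapClass RingHomInvPair.triples₂
  NonUnitalAlgSemiHomClass.toDistribMulActionSemiHomClass BooleanRing.toRing
  ValuationClass.toMonoidWithZeroHomClass

-- part MP_646035_al.EN.Defs
section

/-! Block A of the four-class statement: definitions (p-rings, restricted power series, stable
families).  No topology: `p`-adic sums are a relation. -/

set_option autoImplicit false
open Filter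

namespace EN

section Basic
variable (p : ℕ) {K : Type} [CommRing K]

/-- `s = ∑ p^i t_i` `p`-adically. -/
def IsSum (t : ℕ → K) (s : K) : Prop :=
  ∀ k : ℕ, (p : K) ^ k ∣ s - ∑ i ∈ Finset.range k, (p : K) ^ i * t i

/-- A `p`-ring: `p` regular, `p`-adically separated and complete. -/
class PR (p : ℕ) (K : Type) [CommRing K] : Prop where
  reg : ∀ x : K, (p : K) * x = 0 → x = 0
  sep : ∀ x : K, (∀ k : ℕ, (p : K) ^ k ∣ x) → x = 0
  cpl : ∀ t : ℕ → K, ∃ s, IsSum p t s

/-- A `p`-ring in which every element not divisible by `p` is a unit. -/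
class DV (p : ℕ) (O : Type) [CommRing O] : Prop extends PR p O where
  unit : ∀ b : O, ¬ (p : O) ∣ b → IsUnit b

/-- Closed subring: contains the `p`-adic sums of its sequences. -/
def Closed (B : Subring K) : Prop :=
  ∀ (t : ℕ → K) (s : K), (∀ i, t i ∈ B) → IsSum p t s → s ∈ B

/-- The smallest closed subring containing `S`. -/
def cl (S : Set K) : Subring K := sInf {B : Subring K | Closed p B ∧ S ⊆ B}

/-- The `p`-adic valuation with values in `ℕ∞`. -/
noncomputable def vp (x : K) : ℕ∞ := emultiplicity (p : K) x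

/-- `x` is congruent mod `p` to a unit of `O`. -/
def Un {O : Type} [CommRing O] (ι : O →+* K) (x : K) : Prop :=
  ∃ c : O, IsUnit c ∧ (p : K) ∣ x - ι c

/-- An additive map that is a derivation. -/
def IsDer (D : K →+ K) : Prop := ∀ x y : K, D (x * y) = x * D y + y * D x

end Basic

section RSdef
variable (p : ℕ) (K : Type) [CommRing K] (I : Type)

/-- The coefficient family tends to `0` `p`-adically. -/
def Decay {K : Type} [CommRing K] {J : Type} (c : J → K) : Prop :=
  ∀ k : ℕ, {μ | ¬ (p : K) ^ k ∣ c μ}.Finite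

theorem decay_mul (f g : MvPowerSeries I K) (hf : Decay p fun μ => MvPowerSeries.coeff μ f)
    (hg : Decay p fun μ => MvPowerSeries.coeff μ g) :
    Decay p fun μ => MvPowerSeries.coeff μ (f * g) := by
  classical
  intro k
  refine ((hf k).image2 (· + ·) (hg k)).subset fun μ hμ => ?_
  by_contra hn
  apply hμ
  simp only [MvPowerSeries.coeff_mul]
  refine Finset.dvd_sum fun x hx => ?_
  by_cases h1 : (p : K) ^ k ∣ MvPowerSeries.coeff x.1 f
  · exact h1.mul_right _
  by_cases h2 : (p : K) ^ k ∣ MvPowerSeries.coeff x.2 g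
  · exact h2.mul_left _
  exact absurd ⟨x.1, h1, x.2, h2, Finset.HasAntidiagonal.mem_antidiagonal.1 hx⟩ hn

theorem decay_monomial (ν : I →₀ ℕ) (c : K) :
    Decay p fun μ => MvPowerSeries.coeff μ (MvPowerSeries.monomial ν c) := by
  classical
  intro k
  refine (Set.finite_singleton ν).subset fun μ hμ => ?_
  by_contra hn
  apply hμ
  simp only [MvPowerSeries.coeff_monomial]
  rw [if_neg (by simpa using hn)]
  exact dvd_zero _

/-- Restricted power series as a subring. -/
def rsSub : Subring (MvPowerSeries I K) where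
  carrier := {f | Decay p fun μ => MvPowerSeries.coeff μ f}
  mul_mem' := fun {f g} hf hg => decay_mul p K I f g hf hg
  one_mem' := decay_monomial p K I 0 1
  add_mem' := fun {f g} hf hg k => ((hf k).union (hg k)).subset fun μ hμ => by
    by_contra hn
    simp only [Set.mem_union, Set.mem_ofPred_eq, not_or, not_not] at hn
    exact hμ (by simpa only [map_add] using dvd_add hn.1 hn.2)
  zero_mem' := fun k => by simp
  neg_mem' := fun {f} hf k => by simpa only [map_neg, dvd_neg] using hf k

/-- Restricted power series `K<X_i : i ∈ I>`. -/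
def RS : Type := rsSub p K I

noncomputable instance : CommRing (RS p K I) := inferInstanceAs (CommRing (rsSub p K I))

end RSdef

namespace RS
variable {p : ℕ} {K K' : Type} [CommRing K] [CommRing K'] {I : Type}

/-- The underlying power series. -/
noncomputable def val : RS p K I →+* MvPowerSeries I K := (rsSub p K I).subtype

/-- Coefficients. -/
noncomputable def coeff (μ : I →₀ ℕ) : RS p K I →+ K :=
  (MvPowerSeries.coeff μ : MvPowerSeries I K →ₗ[K] K).toAddMonoidHom.comp
    (val : RS p K I →+* MvPowerSeries I K).toAddMonoidHom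

/-- The series with given coefficients. -/
def mk (c : (I →₀ ℕ) → K) (hc : Decay p c) : RS p K I := (⟨c, hc⟩ : rsSub p K I)

/-- Polynomials as restricted series. -/
noncomputable def ofPoly : MvPolynomial I K →+* RS p K I :=
  (MvPolynomial.coeToMvPowerSeries.ringHom : MvPolynomial I K →+* MvPowerSeries I K).codRestrict
    (rsSub p K I) fun q k => q.support.finite_toSet.subset fun μ hμ => by
      by_contra hn
      apply hμ
      have : MvPolynomial.coeff μ q = 0 := by simpa using hn
      simp only [MvPolynomial.coeToMvPowerSeries.ringHom_apply, MvPolynomial.coeff_coe, this, dvd_zero]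

/-- Constants. -/
noncomputable def C : K →+* RS p K I := (ofPoly : MvPolynomial I K →+* RS p K I).comp MvPolynomial.C

/-- Variables. -/
noncomputable def X (i : I) : RS p K I := ofPoly (MvPolynomial.X i)

/-- Change of coefficients. -/
noncomputable def map (h : K →+* K') : RS p K I →+* RS p K' I :=
  ((MvPowerSeries.map h : MvPowerSeries I K →+* MvPowerSeries I K').comp val).codRestrict
    (rsSub p K' I) fun F k => ((F : rsSub p K I).2 k).subset fun μ hμ hd => hμ (by
      have := map_dvd h hd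
      rw [map_pow, map_natCast] at this
      exact this)

/-- Constant coefficient. -/
noncomputable def ev0 : RS p K I →+* K :=
  (MvPowerSeries.constantCoeff : MvPowerSeries I K →+* K).comp val

/-- `x` is the value of `F` under `h` on coefficients and `X i ↦ t i`. -/
def IsVal (h : K →+* K') (t : I → K') (F : RS p K I) (x : K') : Prop :=
  ∀ (k : ℕ) (q : MvPolynomial I K), (∀ μ, (p : K) ^ k ∣ coeff μ F - MvPolynomial.coeff μ q) →
    (p : K') ^ k ∣ x - MvPolynomial.eval₂ h t q

theorem decay (F : RS p K I) : Decay p fun μ => coeff μ F := (F : rsSub p K I).2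

open Classical in
theorem exists_approx (F : RS p K I) (k : ℕ) : ∃ q : MvPolynomial I K,
    (∀ μ, (p : K) ^ k ∣ coeff μ F - MvPolynomial.coeff μ q) ∧
      ∀ μ, MvPolynomial.coeff μ q = if (p : K) ^ k ∣ coeff μ F then 0 else coeff μ F := by
  have key : ∀ μ, MvPolynomial.coeff μ
      (∑ ν ∈ (decay F k).toFinset, MvPolynomial.monomial ν (coeff ν F)) =
      if (p : K) ^ k ∣ coeff μ F then 0 else coeff μ F := by
    intro μ
    simp only [MvPolynomial.coeff_sum, MvPolynomial.coeff_monomial, Finset.sum_ite_eq',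
      Set.Finite.mem_toFinset, Set.mem_ofPred_eq, ite_not]
  refine ⟨_, fun μ => ?_, key⟩
  rw [key]
  split_ifs with h
  · simpa only [sub_zero] using h
  · simp only [sub_self, dvd_zero]

theorem eval₂_dvd (h : K →+* K') (t : I → K') {k : ℕ} {q r : MvPolynomial I K}
    (H : ∀ μ, (p : K) ^ k ∣ MvPolynomial.coeff μ q - MvPolynomial.coeff μ r) :
    (p : K') ^ k ∣ MvPolynomial.eval₂ h t q - MvPolynomial.eval₂ h t r := by
  have h1 : MvPolynomial.C ((p : K) ^ k) ∣ q - r :=
    (MvPolynomial.C_dvd_iff_dvd_coeff _ _).2 fun μ => by simpa only [MvPolynomial.coeff_sub] using H μ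
  have h2 := map_dvd (MvPolynomial.eval₂Hom h t) h1
  simpa only [MvPolynomial.C_pow, map_natCast, MvPolynomial.coe_eval₂Hom, MvPolynomial.eval₂_pow, MvPolynomial.eval₂_natCast, MvPolynomial.eval₂_sub] using h2

theorem isVal_of (h : K →+* K') (t : I → K') {F : RS p K I} {x : K'}
    (H : ∀ k : ℕ, ∃ q : MvPolynomial I K, (∀ μ, (p : K) ^ k ∣ coeff μ F - MvPolynomial.coeff μ q) ∧
      (p : K') ^ k ∣ x - MvPolynomial.eval₂ h t q) : IsVal h t F x := by
  intro k r hr
  obtain ⟨q, hq, hx⟩ := H k
  have h1 := eval₂_dvd (p := p) h t (k := k) (q := q) (r := r) fun μ => by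
    have := dvd_sub (hr μ) (hq μ)
    simpa only [sub_sub_sub_cancel_left] using this
  have := dvd_add hx h1
  simpa only [sub_add_sub_cancel] using this

theorem IsVal.unique [PR p K'] {h : K →+* K'} {t : I → K'} {F : RS p K I} {x y : K'}
    (hx : IsVal h t F x) (hy : IsVal h t F y) : x = y := by
  refine sub_eq_zero.1 (PR.sep (p := p) _ fun k => ?_)
  obtain ⟨q, hq, -⟩ := exists_approx F k
  simpa only [sub_sub_sub_cancel_right] using dvd_sub (hx k q hq) (hy k q hq)

theorem exists_isVal [PR p K'] (h : K →+* K') (t : I → K') (F : RS p K I) :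
    ∃ x, IsVal h t F x := by
  choose q hq _ using exists_approx F
  have h1 : ∀ k, (p : K') ^ k ∣
      MvPolynomial.eval₂ h t (q (k + 1)) - MvPolynomial.eval₂ h t (q k) := fun k =>
    eval₂_dvd h t fun μ => by
      have := dvd_sub (hq k μ) ((pow_dvd_pow _ (Nat.le_succ k)).trans (hq (k + 1) μ))
      simpa only [sub_sub_sub_cancel_left] using this
  choose u hu using h1
  obtain ⟨s, hs⟩ := PR.cpl (p := p) u
  refine ⟨MvPolynomial.eval₂ h t (q 0) + s, isVal_of h t fun k => ⟨q k, hq k, ?_⟩⟩
  have h2 := hs k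
  simp only [← hu] at h2
  rw [Finset.sum_range_sub (fun i => MvPolynomial.eval₂ h t (q i))] at h2
  convert h2 using 1
  ring

theorem approx_iff (F : RS p K I) (q : MvPolynomial I K) (k : ℕ) :
    (∀ μ, (p : K) ^ k ∣ coeff μ F - MvPolynomial.coeff μ q) ↔
      MvPowerSeries.C ((p : K) ^ k) ∣ val F - (q : MvPowerSeries I K) := by
  constructor
  · intro H
    choose u hu using H
    refine ⟨u, MvPowerSeries.ext fun μ => ?_⟩
    rw [MvPowerSeries.coeff_C_mul, map_sub, MvPolynomial.coeff_coe]
    exact hu μ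
  · rintro ⟨u, hu⟩ μ
    have := congrArg (MvPowerSeries.coeff μ) hu
    rw [MvPowerSeries.coeff_C_mul, map_sub, MvPolynomial.coeff_coe] at this
    exact ⟨_, this⟩

/-- The ring homomorphism `K<I> → K'` extending `h` with `X i ↦ t i`. -/
noncomputable def lift [PR p K'] (h : K →+* K') (t : I → K') : RS p K I →+* K' where
  toFun F := (exists_isVal h t F).choose
  map_one' := (exists_isVal h t 1).choose_spec.unique (isVal_of h t fun k =>
    ⟨1, (approx_iff _ _ _).2 (by simp only [map_pow, map_natCast, map_one, MvPolynomial.coe_one, sub_self, dvd_zero]), by simp only [MvPolynomial.eval₂_one, sub_self, dvd_zero]⟩)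
  map_zero' := (exists_isVal h t 0).choose_spec.unique (isVal_of h t fun k =>
    ⟨0, (approx_iff _ _ _).2 (by simp only [map_pow, map_natCast, map_zero, MvPolynomial.coe_zero, sub_self, dvd_zero]), by simp only [MvPolynomial.eval₂_zero, sub_self, dvd_zero]⟩)
  map_add' F G := (exists_isVal h t (F + G)).choose_spec.unique (isVal_of h t fun k => by
    obtain ⟨q, hq, -⟩ := exists_approx F k
    obtain ⟨r, hr, -⟩ := exists_approx G k
    refine ⟨q + r, fun μ => ?_, ?_⟩
    · have := dvd_add (hq μ) (hr μ)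
      rw [map_add, MvPolynomial.coeff_add]
      convert this using 1
      ring
    · have := dvd_add ((exists_isVal h t F).choose_spec k q hq)
        ((exists_isVal h t G).choose_spec k r hr)
      rw [MvPolynomial.eval₂_add]
      convert this using 1
      ring)
  map_mul' F G := (exists_isVal h t (F * G)).choose_spec.unique (isVal_of h t fun k => by
    obtain ⟨q, hq, -⟩ := exists_approx F k
    obtain ⟨r, hr, -⟩ := exists_approx G k
    refine ⟨q * r, (approx_iff _ _ _).2 ?_, ?_⟩
    · have := dvd_add (((approx_iff _ _ _).1 hq).mul_right (val G))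
        (((approx_iff _ _ _).1 hr).mul_left (q : MvPowerSeries I K))
      rw [map_mul, MvPolynomial.coe_mul]
      convert this using 1
      ring
    · have := dvd_add
        (((exists_isVal h t F).choose_spec k q hq).mul_right (exists_isVal h t G).choose)
        (((exists_isVal h t G).choose_spec k r hr).mul_left (MvPolynomial.eval₂ h t q))
      rw [MvPolynomial.eval₂_mul]
      convert this using 1
      ring)

theorem lift_isVal [PR p K'] (h : K →+* K') (t : I → K') (F : RS p K I) :
    IsVal h t F (lift h t F) := (exists_isVal h t F).choose_spec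

/-- `X i ↦ p^r X i`. -/
noncomputable def rho [PR p (RS p K I)] (r : ℕ) : RS p K I →+* RS p K I :=
  lift C fun i => (p : RS p K I) ^ r * X i

open Classical in
/-- Kill the variables in `U`. -/
noncomputable def kill [PR p (RS p K I)] (U : Set I) : RS p K I →+* RS p K I :=
  lift C fun i => if i ∈ U then 0 else X i

/-- Translation `ξ ↦ ξ + η`; the inner variables are the `ξ`, the outer ones the `η`. -/
noncomputable def tau [PR p (RS p (RS p K I) I)] : RS p K I →+* RS p (RS p K I) I :=
  lift ((C : RS p K I →+* RS p (RS p K I) I).comp C) fun i => C (X i) + X i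

/-- `F = X i + (linear form in the `X j`, `j < i`) mod p`, in terms of coefficients. -/
def Tri [LT I] (i : I) (F : RS p K I) : Prop :=
  (p : K) ∣ coeff (Finsupp.single i 1) F - 1 ∧
    ∀ μ, μ ≠ Finsupp.single i 1 → (∀ j, j < i → μ ≠ Finsupp.single j 1) → (p : K) ∣ coeff μ F

end RS

section Fam
variable (p : ℕ) {M : Type} (ω : Ultrafilter M) {K : Type} [CommRing K]

/-- `v*(N) ≥ a`. -/
def Dv (a : M → ℕ) (N : M → K) : Prop := ∀ᶠ m in (ω : Filter M), (p : K) ^ a m ∣ N m

/-- The pointwise valuation. -/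
noncomputable def vf (N : M → K) : M → ℕ∞ := fun m => vp p (N m)

/-- No infinite descent (almost everywhere) in a set of functions. -/
def NoDesc (V : Set (M → ℕ∞)) : Prop :=
  ∀ g : ℕ → M → ℕ∞, (∀ i, g i ∈ V) → ¬ ∀ i, ∀ᶠ m in (ω : Filter M), g (i + 1) m < g i m

/-- `W(B)`. -/
def WF (B : Subring (M → K)) : Prop := NoDesc ω (vf p '' (B : Set (M → K)))

/-- `good(B)`. -/
def Good (B : Subring (M → K)) : Prop :=
  ∀ a : M → ℕ, ∀ᶠ m in (ω : Filter M), ∀ N ∈ B, Dv p ω a N → (p : K) ^ a m ∣ N m

/-- `B` contains everything that vanishes on `A`. -/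
def SatOn (B : Subring (M → K)) (A : Set M) : Prop := ∀ N : M → K, (∀ m ∈ A, N m = 0) → N ∈ B

/-- Saturation: everything that agrees on `A` with an element of `B`. -/
def Sat (A : Set M) (B : Subring (M → K)) : Subring (M → K) where
  carrier := {N | ∃ N' ∈ B, ∀ m ∈ A, N m = N' m}
  mul_mem' := by
    rintro _ _ ⟨x, hx, h1⟩ ⟨y, hy, h2⟩
    exact ⟨x * y, B.mul_mem hx hy, fun m hm => by simp [h1 m hm, h2 m hm]⟩
  one_mem' := ⟨1, B.one_mem, fun _ _ => rfl⟩
  add_mem' := by
    rintro _ _ ⟨x, hx, h1⟩ ⟨y, hy, h2⟩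
    exact ⟨x + y, B.add_mem hx hy, fun m hm => by simp [h1 m hm, h2 m hm]⟩
  zero_mem' := ⟨0, B.zero_mem, fun _ _ => rfl⟩
  neg_mem' := by
    rintro _ ⟨x, hx, h1⟩
    exact ⟨-x, B.neg_mem hx, fun m hm => by simp [h1 m hm]⟩

/-- Evaluation of an element of `B` at the index `m`. -/
def evm (B : Subring (M → K)) (m : M) : B →+* K := (Pi.evalRingHom (fun _ => K) m).comp B.subtype

/-- A family of ring homomorphisms acting pointwise. -/
def piHom {K' : Type} [CommRing K'] (h : M → K →+* K') : (M → K) →+* (M → K') :=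
  RingHom.pi fun m => (h m).comp (Pi.evalRingHom (fun _ => K) m)

/-- `B<I> → P(K<I>)`. -/
noncomputable def emb (B : Subring (M → K)) (I : Type) : RS p B I →+* (M → RS p K I) :=
  RingHom.pi fun m => RS.map (evm B m)

/-- Stable family of closed subrings of `M → K`; `ι : O → K` is the structure map.
(`q1` contains `good`.) -/
structure Stable {O : Type} [CommRing O] (ι : O →+* K) (VV : Set (Subring (M → K))) : Prop where
  closed : ∀ B ∈ VV, Closed p B
  wf : ∀ B ∈ VV, WF p ω B
  sat : ∀ B ∈ VV, ∀ A ∈ ω, ∃ B' ∈ VV, B ≤ B' ∧ SatOn B' A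
  q1 : ∀ B ∈ VV, ∀ a : M → ℕ, ∃ B' ∈ VV, B ≤ B' ∧ ∃ A ∈ ω, ∀ N ∈ B, Dv p ω a N →
    ∃ N' ∈ B', ∀ m ∈ A, N m = (p : K) ^ a m * N' m
  q2 : ∀ B ∈ VV, ∀ N ∈ B, (∀ᶠ m in (ω : Filter M), Un p ι (N m)) →
    ∃ B' ∈ VV, B ≤ B' ∧ ∃ N' ∈ B', ∀ᶠ m in (ω : Filter M), N m * N' m = 1

/-- Const-stable family. -/
structure CStable {O : Type} [CommRing O] (ι : O →+* K) (VV : Set (Subring (M → K))) : Prop
    extends Stable p ω ι VV where
  cst : ∀ B ∈ VV, ∀ a : M → ℕ, ∃ B' ∈ VV, B ≤ B' ∧ (fun m => (p : K) ^ a m) ∈ B'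

end Fam

end EN

end

-- part MP_646035_al.EN.Basic
section

/-! p-rings, closed subrings, the valuation, descent. -/

set_option autoImplicit false
open Filter

namespace EN
variable {p : ℕ} {K K' : Type} [CommRing K] [CommRing K']

theorem PR.pow_reg [PR p K] (k : ℕ) (x : K) (h : (p : K) ^ k * x = 0) : x = 0 := by
  induction k with
  | zero => simpa only [pow_zero, one_mul] using h
  | succ k ih => exact ih (PR.reg (p := p) _ (by rw [← mul_assoc, ← pow_succ', h]))

theorem PR.pow_cancel [PR p K] {k : ℕ} {x y : K} (h : (p : K) ^ k * x = (p : K) ^ k * y) :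
    x = y := sub_eq_zero.1 (PR.pow_reg (p := p) k _ (by rw [mul_sub, h, sub_self]))

theorem PR.cancel [PR p K] {x y : K} (h : (p : K) * x = (p : K) * y) : x = y :=
  PR.pow_cancel (p := p) (k := 1) (by simpa only [pow_one] using h)

theorem PR.dvd_cancel [PR p K] {a k : ℕ} {x : K} :
    (p : K) ^ (a + k) ∣ (p : K) ^ a * x ↔ (p : K) ^ k ∣ x := by
  constructor
  · rintro ⟨y, hy⟩
    exact ⟨y, PR.pow_cancel (p := p) (k := a) (by rw [hy, pow_add, mul_assoc])⟩
  · rintro ⟨y, rfl⟩
    exact ⟨y, by rw [pow_add, mul_assoc]⟩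

theorem PR.eq_of_dvd [PR p K] {x y : K} (h : ∀ k : ℕ, (p : K) ^ k ∣ x - y) : x = y :=
  sub_eq_zero.1 (PR.sep (p := p) _ h)

theorem IsSum.unique [PR p K] {t : ℕ → K} {x y : K} (hx : IsSum p t x) (hy : IsSum p t y) :
    x = y := PR.eq_of_dvd (p := p) fun k => by simpa only [sub_sub_sub_cancel_right] using dvd_sub (hx k) (hy k)

theorem addHom_pow_mul (h : K →+ K') (k : ℕ) (x : K) :
    h ((p : K) ^ k * x) = (p : K') ^ k * h x := by
  rw [← Nat.cast_pow, ← Nat.cast_pow, ← nsmul_eq_mul, ← nsmul_eq_mul, map_nsmul]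

theorem addHom_dvd (h : K →+ K') {k : ℕ} {x : K} (H : (p : K) ^ k ∣ x) : (p : K') ^ k ∣ h x := by
  obtain ⟨y, rfl⟩ := H
  exact ⟨h y, addHom_pow_mul h k y⟩

theorem ringHom_dvd (h : K →+* K') {k : ℕ} {x : K} (H : (p : K) ^ k ∣ x) : (p : K') ^ k ∣ h x :=
  addHom_dvd h.toAddMonoidHom H

theorem IsSum.map (h : K →+ K') {t : ℕ → K} {s : K} (H : IsSum p t s) :
    IsSum p (fun i => h (t i)) (h s) := fun k => by
  have := addHom_dvd h (H k)
  simpa only [map_sub, map_sum, addHom_pow_mul] using this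

theorem IsSum.mapR (h : K →+* K') {t : ℕ → K} {s : K} (H : IsSum p t s) :
    IsSum p (fun i => h (t i)) (h s) := H.map h.toAddMonoidHom

theorem IsSum.mul_left (c : K) {t : ℕ → K} {s : K} (H : IsSum p t s) :
    IsSum p (fun i => c * t i) (c * s) := H.map (AddMonoidHom.mulLeft c)

/-- Tails: `s = (partial sum) + p^k s'` where `s'` is the sum of the shifted sequence. -/
theorem IsSum.tail [PR p K] {t : ℕ → K} {s s' : K} (k : ℕ) (H : IsSum p t s)
    (H' : IsSum p (fun i => t (k + i)) s') :
    s = ∑ i ∈ Finset.range k, (p : K) ^ i * t i + (p : K) ^ k * s' := by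
  refine PR.eq_of_dvd (p := p) fun j => ?_
  have h1 := (pow_dvd_pow (p : K) (Nat.le_add_left j k)).trans (H (k + j))
  have h2 := (H' j).mul_left ((p : K) ^ k)
  have := dvd_sub h1 h2
  rw [Finset.sum_range_add, mul_sub, Finset.mul_sum] at this
  simp only [pow_add, mul_assoc] at this
  convert this using 1
  ring

theorem geom_isSum {x y : K} (H : IsSum p (fun i => (-x) ^ i) y) [PR p K] :
    (1 + p * x) * y = 1 := by
  refine PR.eq_of_dvd (p := p) fun k => ?_
  have h1 := (H k).mul_left (1 + p * x)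
  have h2 : (1 + p * x) * ∑ i ∈ Finset.range k, (p : K) ^ i * (-x) ^ i = 1 - (-(p * x)) ^ k := by
    have := mul_neg_geom_sum (-(p * x) : K) k
    simp only [← mul_pow, mul_neg]
    simpa only [sub_neg_eq_add] using this
  have h3 : (p : K) ^ k ∣ (-(p * x)) ^ k := pow_dvd_pow_of_dvd (by simp) k
  rw [mul_sub, h2] at h1
  have := dvd_sub h1 h3
  convert this using 1
  ring

theorem isUnit_one_add [PR p K] (x : K) : IsUnit (1 + p * x) := by
  obtain ⟨y, hy⟩ := PR.cpl (p := p) fun i => (-x) ^ i
  exact IsUnit.of_mul_eq_one y (geom_isSum hy)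

theorem isUnit_of_dvd_sub [PR p K] {x c : K} (hc : IsUnit c) (h : (p : K) ∣ x - c) : IsUnit x := by
  obtain ⟨u, rfl⟩ := hc
  obtain ⟨y, hy⟩ := h
  have : x = u * (1 + p * (↑u⁻¹ * y)) := by
    rw [mul_add, mul_left_comm, ← mul_assoc (u : K), Units.mul_inv, one_mul, mul_one, ← hy]
    ring
  rw [this]
  exact u.isUnit.mul (isUnit_one_add _)

theorem Un.isUnit [PR p K] {O : Type} [CommRing O] {ι : O →+* K} {x : K} (h : Un p ι x) :
    IsUnit x := by
  obtain ⟨c, hc, h⟩ := h
  exact isUnit_of_dvd_sub (hc.map ι) h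

theorem un_id_iff [PR p K] {x : K} : Un p (RingHom.id K) x ↔ IsUnit x :=
  ⟨Un.isUnit, fun h => ⟨x, h, by simp only [RingHom.id_apply, sub_self, dvd_zero]⟩⟩

theorem Un.map {O : Type} [CommRing O] {ι : O →+* K} {ι' : O →+* K'} (h : K →+* K')
    (hι : h.comp ι = ι') {x : K} (H : Un p ι x) : Un p ι' (h x) := by
  obtain ⟨c, hc, H⟩ := H
  refine ⟨c, hc, ?_⟩
  have := map_dvd h H
  rw [← hι]
  simpa only [RingHom.coe_comp, Function.comp_apply, map_natCast, map_sub] using this

theorem isUnit_natCast [hp : Fact p.Prime] [PR p K] {n : ℕ} (h : ¬ p ∣ n) : IsUnit (n : K) := by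
  have hc : IsCoprime (n : ℤ) (p : ℤ) :=
    Nat.isCoprime_iff_coprime.2 ((Nat.Prime.coprime_iff_not_dvd hp.out).2 h).symm
  obtain ⟨a, b, hab⟩ := hc
  have h1 : (a : K) * n = 1 + p * (-b) := by
    have := congrArg (Int.cast : ℤ → K) hab
    push_cast at this
    rw [← this]; ring
  exact isUnit_of_mul_isUnit_right (h1 ▸ isUnit_one_add (p := p) (-b : K))

theorem pi_dvd {M : Type} {k : ℕ} {N : M → K} :
    (p : M → K) ^ k ∣ N ↔ ∀ m, (p : K) ^ k ∣ N m := by
  constructor
  · rintro ⟨y, rfl⟩ m
    exact ⟨y m, by simp only [Pi.mul_apply, Pi.pow_apply, Pi.natCast_apply]⟩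
  · intro h
    choose y hy using h
    exact ⟨y, funext fun m => by simpa using hy m⟩

theorem pi_isSum {M : Type} {t : ℕ → M → K} {s : M → K} :
    IsSum p t s ↔ ∀ m, IsSum p (fun i => t i m) (s m) := by
  simp only [IsSum, pi_dvd]
  rw [forall_comm]
  simp only [Pi.sub_apply, Finset.sum_apply, Pi.mul_apply, Pi.pow_apply, Pi.natCast_apply]

instance instPRPi {M : Type} [PR p K] : PR p (M → K) where
  reg x h := funext fun m => PR.reg (p := p) _ (by simpa only [Pi.mul_apply, Pi.natCast_apply, Pi.zero_apply] using congrFun h m)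
  sep x h := funext fun m => PR.sep (p := p) _ fun k => pi_dvd.1 (h k) m
  cpl t := by
    choose s hs using fun m => PR.cpl (p := p) fun i => t i m
    exact ⟨s, pi_isSum.2 hs⟩

/-! ### Closed subrings -/

theorem closed_top : Closed p (⊤ : Subring K) := fun _ _ _ _ => Subring.mem_top _

theorem closed_cl (S : Set K) : Closed p (cl p S) := fun t s ht hs =>
  Subring.mem_sInf.2 fun B hB => hB.1 t s (fun i => Subring.mem_sInf.1 (ht i) B hB) hs

theorem subset_cl (S : Set K) : S ⊆ cl p S := fun _ hx =>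
  Subring.mem_sInf.2 fun _ hB => hB.2 hx

theorem mem_cl {S : Set K} {x : K} (h : x ∈ S) : x ∈ cl p S := subset_cl S h

theorem cl_le {S : Set K} {B : Subring K} (hB : Closed p B) (h : S ⊆ B) : cl p S ≤ B :=
  sInf_le ⟨hB, h⟩

theorem cl_mono {S T : Set K} (h : S ⊆ T) : cl p S ≤ cl p T :=
  cl_le (closed_cl T) (h.trans (subset_cl T))

theorem Closed.inf {B B' : Subring K} (h : Closed p B) (h' : Closed p B') : Closed p (B ⊓ B') :=
  fun t s ht hs => ⟨h t s (fun i => (ht i).1) hs, h' t s (fun i => (ht i).2) hs⟩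

theorem Closed.comap {B : Subring K'} (hB : Closed p B) (h : K →+* K') : Closed p (B.comap h) :=
  fun _ _ ht hs => hB _ _ ht (hs.mapR h)

theorem Closed.map [PR p K] [PR p K'] {B : Subring K} (hB : Closed p B) (h : K →+* K') :
    Closed p (B.map h) := by
  intro t s ht hs
  choose u hu hut using ht
  obtain ⟨x, hx⟩ := PR.cpl (p := p) u
  refine ⟨x, hB u x hu hx, (hx.mapR h).unique ?_⟩
  simpa only [hut] using hs

theorem closed_range [PR p K] [PR p K'] (h : K →+* K') : Closed p h.range := by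
  rw [RingHom.range_eq_map]
  exact closed_top.map h

theorem closed_eqLocus [PR p K'] (f g : K →+* K') : Closed p (f.eqLocus g) := by
  intro t s ht hs
  have h1 := hs.mapR f
  have h2 := hs.mapR g
  have : (fun i => f (t i)) = fun i => g (t i) := funext fun i => ht i
  rw [this] at h1
  exact h1.unique h2

/-- The image of `cl S` lies in every closed ring containing the image of `S`. -/
theorem map_cl_le (h : K →+* K') {S : Set K} {B : Subring K'} (hB : Closed p B)
    (H : ∀ x ∈ S, h x ∈ B) : (cl p S).map h ≤ B :=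
  Subring.map_le_iff_le_comap.2 (cl_le (hB.comap h) H)

/-- A closed subring of a `p`-ring is a `p`-ring. -/
theorem Closed.pr [PR p K] {B : Subring K} (hB : Closed p B) : PR p B where
  reg x h := Subtype.ext (PR.reg (p := p) _ (by simpa only [Subring.coe_mul, SubringClass.coe_natCast, ZeroMemClass.coe_zero] using congrArg Subtype.val h))
  sep x h := Subtype.ext (PR.sep (p := p) _ fun k => ringHom_dvd B.subtype (h k))
  cpl t := by
    have H : ∀ k, ∃ s ∈ B, IsSum p (fun i => (t (k + i) : K)) s := fun k => by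
      obtain ⟨s, hs⟩ := PR.cpl (p := p) fun i => (t (k + i) : K)
      exact ⟨s, hB _ _ (fun i => (t _).2) hs, hs⟩
    choose s hs hss using H
    refine ⟨⟨s 0, hs 0⟩, fun k => ⟨⟨s k, hs k⟩, Subtype.ext ?_⟩⟩
    have h0 : IsSum p (fun i => (t i : K)) (s 0) := by simpa using hss 0
    have := h0.tail k (hss k)
    push_cast
    rw [this]
    ring

/-- Successive approximation. -/
theorem Closed.iter {J : Subring K} (hJ : Closed p J) {S : Set K}
    (h : ∀ x ∈ S, ∃ j ∈ J, ∃ x' ∈ S, x = j + p * x') : S ⊆ J := by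
  intro x hx
  choose! j hj f hf hx' using h
  have hm : ∀ n, f^[n] x ∈ S := fun n => by
    induction n with
    | zero => exact hx
    | succ n ih => rw [Function.iterate_succ_apply']; exact hf _ ih
  refine hJ (fun n => j (f^[n] x)) x (fun n => hj _ (hm n)) fun k => ⟨f^[k] x, ?_⟩
  induction k with
  | zero => simp only [Finset.range_zero, Finset.sum_empty, sub_zero, pow_zero, Function.iterate_zero, id_eq, one_mul]
  | succ k ih =>
    rw [Finset.sum_range_succ, ← sub_sub, ih, Function.iterate_succ_apply', pow_succ]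
    nth_rewrite 1 [hx' _ (hm k)]
    ring

theorem Closed.inv_mem [PR p K] {B : Subring K} (hB : Closed p B) {x : K} (hx : x ∈ B) :
    ∃ y ∈ B, (1 + p * x) * y = 1 := by
  obtain ⟨y, hy⟩ := PR.cpl (p := p) fun i => (-x) ^ i
  exact ⟨y, hB _ _ (fun i => B.pow_mem (B.neg_mem hx) i) hy, geom_isSum hy⟩

theorem IsDer.one {D : K →+ K} (hD : IsDer D) : D 1 = 0 := by
  have := hD 1 1
  simpa only [mul_one, one_mul, left_eq_add] using this

theorem IsDer.natCast {D : K →+ K} (hD : IsDer D) (n : ℕ) : D n = 0 := by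
  rw [← nsmul_one n, map_nsmul, hD.one, smul_zero]

theorem IsDer.pow_succ {D : K →+ K} (hD : IsDer D) (x : K) (n : ℕ) :
    D (x ^ (n + 1)) = (n + 1 : ℕ) * x ^ n * D x := by
  induction n with
  | zero => simp only [zero_add, pow_one, Nat.cast_one, pow_zero, mul_one, one_mul]
  | succ n ih => rw [_root_.pow_succ, hD, ih]; push_cast; ring

theorem IsDer.inv {D : K →+ K} (hD : IsDer D) {x y : K} (h : x * y = 1) :
    D y = -(y ^ 2 * D x) := by
  have h1 := hD x y
  rw [h, hD.one] at h1
  have h2 : y * (x * D y + y * D x) = 0 := by rw [← h1, mul_zero]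
  have h3 : y * (x * D y + y * D x) = (x * y) * D y + y ^ 2 * D x := by ring
  rw [h3, h, one_mul] at h2
  exact eq_neg_of_add_eq_zero_left h2

/-- A derivation mapping `S` into a closed ring `B ⊇ S` maps `cl S` into `B`. -/
theorem cl_der {D : K →+ K} (hD : IsDer D) {S : Set K} {B : Subring K} (hB : Closed p B)
    (hS : S ⊆ B) (h : ∀ x ∈ S, D x ∈ B) : ∀ x ∈ cl p S, D x ∈ B := by
  let J : Subring K :=
    { carrier := {x | x ∈ B ∧ D x ∈ B}
      mul_mem' := fun {x y} hx hy => ⟨B.mul_mem hx.1 hy.1, by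
        rw [hD]; exact B.add_mem (B.mul_mem hx.1 hy.2) (B.mul_mem hy.1 hx.2)⟩
      one_mem' := ⟨B.one_mem, by rw [hD.one]; exact B.zero_mem⟩
      add_mem' := fun {x y} hx hy => ⟨B.add_mem hx.1 hy.1, by
        rw [map_add]; exact B.add_mem hx.2 hy.2⟩
      zero_mem' := ⟨B.zero_mem, by rw [map_zero]; exact B.zero_mem⟩
      neg_mem' := fun {x} hx => ⟨B.neg_mem hx.1, by rw [map_neg]; exact B.neg_mem hx.2⟩ }
  have hJ : Closed p J := fun t s ht hs =>
    ⟨hB _ _ (fun i => (ht i).1) hs, hB _ _ (fun i => (ht i).2) (hs.map D)⟩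
  exact fun x hx => (cl_le hJ (fun y hy => ⟨hS hy, h y hy⟩) hx).2

/-! ### The valuation -/

theorem dvd_iff_le_vp {k : ℕ} {x : K} : (p : K) ^ k ∣ x ↔ (k : ℕ∞) ≤ vp p x :=
  pow_dvd_iff_le_emultiplicity

theorem le_vp_iff {g : ℕ∞} {x : K} : g ≤ vp p x ↔ ∀ k : ℕ, (k : ℕ∞) ≤ g → (p : K) ^ k ∣ x :=
  ⟨fun h _ hk => dvd_iff_le_vp.2 (hk.trans h),
    fun h => ENat.forall_natCast_le_iff_le.1 fun k hk => dvd_iff_le_vp.1 (h k hk)⟩

theorem vp_le_of {x : K} {y : K'} (h : ∀ k : ℕ, (p : K) ^ k ∣ x → (p : K') ^ k ∣ y) :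
    vp p x ≤ vp p y := le_vp_iff.2 fun k hk => h k (dvd_iff_le_vp.2 hk)

theorem vp_lt_iff {k : ℕ} {x : K} : vp p x < k ↔ ¬ (p : K) ^ k ∣ x := by
  rw [dvd_iff_le_vp, not_le]

theorem lt_vp_iff {k : ℕ} {x : K} : (k : ℕ∞) < vp p x ↔ (p : K) ^ (k + 1) ∣ x := by
  rw [dvd_iff_le_vp, Nat.cast_add, Nat.cast_one, ENat.add_one_le_iff (by simp)]

theorem vp_eq_zero_iff {x : K} : vp p x = 0 ↔ ¬ (p : K) ∣ x := emultiplicity_eq_zero

@[simp] theorem vp_zero : vp p (0 : K) = ⊤ := emultiplicity_zero _

@[simp] theorem vp_neg (x : K) : vp p (-x) = vp p x := emultiplicity_neg _ _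

theorem vp_eq_top_iff [PR p K] {x : K} : vp p x = ⊤ ↔ x = 0 := by
  refine ⟨fun h => PR.sep (p := p) _ fun k => dvd_iff_le_vp.2 (by simp [h]), fun h => by simp [h]⟩

theorem vp_le_map (h : K →+ K') (x : K) : vp p x ≤ vp p (h x) := vp_le_of fun _ => addHom_dvd h

theorem vp_le_mapR (h : K →+* K') (x : K) : vp p x ≤ vp p (h x) := vp_le_map h.toAddMonoidHom x

theorem vp_equiv (e : K ≃+* K') (x : K) : vp p (e x) = vp p x :=
  le_antisymm (by simpa using vp_le_mapR (p := p) e.symm.toRingHom (e x))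
    (vp_le_mapR e.toRingHom x)

theorem vp_le_mul_right (x y : K) : vp p x ≤ vp p (x * y) := vp_le_of fun _ h => h.mul_right y

theorem vp_le_mul_left (x y : K) : vp p y ≤ vp p (x * y) := vp_le_of fun _ h => h.mul_left x

theorem vp_mul_unit {x u : K} (hu : IsUnit u) : vp p (x * u) = vp p x :=
  le_antisymm (vp_le_of fun _ h => hu.dvd_mul_right.1 h) (vp_le_mul_right x u)

theorem vp_unit_mul {x u : K} (hu : IsUnit u) : vp p (u * x) = vp p x := by
  rw [mul_comm, vp_mul_unit hu]

theorem min_le_vp_add (x y : K) : min (vp p x) (vp p y) ≤ vp p (x + y) :=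
  min_le_emultiplicity_add

theorem le_vp_add {g : ℕ∞} {x y : K} (hx : g ≤ vp p x) (hy : g ≤ vp p y) : g ≤ vp p (x + y) :=
  (le_min hx hy).trans (min_le_vp_add x y)

theorem le_vp_sub {g : ℕ∞} {x y : K} (hx : g ≤ vp p x) (hy : g ≤ vp p y) : g ≤ vp p (x - y) := by
  rw [sub_eq_add_neg]; exact le_vp_add hx (by simpa using hy)

theorem vp_add_of_lt {x y : K} (h : vp p x < vp p y) : vp p (x + y) = vp p x := by
  refine le_antisymm ?_ (le_vp_add le_rfl h.le)
  by_contra hn
  have h1 : vp p x < vp p (x + y) := not_le.1 hn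
  have h2 := min_le_vp_add (p := p) (x + y) (-y)
  rw [add_neg_cancel_right, vp_neg] at h2
  exact absurd (lt_min h1 h) (not_lt.2 h2)

theorem vp_pow_mul [PR p K] (a : ℕ) (x : K) : vp p ((p : K) ^ a * x) = a + vp p x := by
  refine le_antisymm ?_ (le_vp_iff.2 fun k hk => ?_)
  · by_cases hx : vp p x = ⊤
    · simp only [hx, add_top, le_top]
    obtain ⟨n, hn⟩ := ENat.ne_top_iff_exists.1 hx
    rw [← hn, ← Nat.cast_add]
    by_contra hc
    have h1 := lt_vp_iff.1 (not_le.1 hc)
    rw [add_assoc, PR.dvd_cancel, ← lt_vp_iff, hn] at h1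
    exact lt_irrefl _ h1
  · have h1 : (p : K) ^ (k - a) ∣ x := dvd_iff_le_vp.2 (by
      rw [ENat.natCast_sub]; exact tsub_le_iff_left.2 hk)
    exact (pow_dvd_pow _ (by omega)).trans ((PR.dvd_cancel (a := a)).2 h1)

theorem vp_natCast_mul [hp : Fact p.Prime] [PR p K] {n : ℕ} (hn : n ≠ 0) (x : K) :
    vp p ((n : K) * x) ≤ n + vp p x := by
  obtain ⟨e, n', h1, h2⟩ := Nat.exists_eq_pow_mul_and_not_dvd hn p hp.out.ne_one
  have he : e ≤ n := by
    have h3 : e < p ^ e := Nat.lt_pow_self hp.out.one_lt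
    have h4 : 0 < n' := Nat.pos_of_ne_zero (by rintro rfl; simp at h1)
    calc e ≤ p ^ e := h3.le
      _ ≤ p ^ e * n' := Nat.le_mul_of_pos_right _ h4
      _ = n := h2.symm
  have : (n : K) * x = (p : K) ^ e * ((n' : K) * x) := by rw [h2]; push_cast; ring
  rw [this, vp_pow_mul, vp_unit_mul (isUnit_natCast h1)]
  gcongr

/-! ### Descent -/

variable {M : Type} {ω : Ultrafilter M}

theorem ae_lt_or_ge (f g : M → ℕ∞) :
    (∀ᶠ m in (ω : Filter M), f m < g m) ∨ ∀ᶠ m in (ω : Filter M), g m ≤ f m :=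
  Ultrafilter.eventually_or.1 (Eventually.of_forall fun _ => lt_or_ge _ _)

theorem ae_le_total (f g : M → ℕ) :
    (∀ᶠ m in (ω : Filter M), f m ≤ g m) ∨ ∀ᶠ m in (ω : Filter M), g m ≤ f m :=
  Ultrafilter.eventually_or.1 (Eventually.of_forall fun _ => le_total _ _)

theorem exists_nat_rep {g : M → ℕ∞} (h : ∀ᶠ m in (ω : Filter M), g m ≠ ⊤) :
    ∃ a : M → ℕ, ∀ᶠ m in (ω : Filter M), g m = a m :=
  ⟨fun m => (g m).toNat, h.mono fun _ hm => (ENat.natCast_toNat hm).symm⟩

theorem dv_iff {a : M → ℕ} {N : M → K} :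
    Dv p ω a N ↔ ∀ᶠ m in (ω : Filter M), (a m : ℕ∞) ≤ vp p (N m) := by
  simp only [Dv, dvd_iff_le_vp]

theorem not_dv_iff {a : M → ℕ} {N : M → K} :
    ¬ Dv p ω a N ↔ ∀ᶠ m in (ω : Filter M), vp p (N m) < a m := by
  simp only [Dv, vp_lt_iff, Ultrafilter.eventually_not]

theorem NoDesc.mono {V V' : Set (M → ℕ∞)} (h : NoDesc ω V)
    (H : ∀ g' ∈ V', ∃ g ∈ V, ∀ᶠ m in (ω : Filter M), g' m = g m) : NoDesc ω V' := by
  intro g hg hd
  choose u hu hgu using fun i => H _ (hg i)
  refine h u hu fun i => ?_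
  filter_upwards [hd i, hgu i, hgu (i + 1)] with m h1 h2 h3
  rwa [← h2, ← h3]

/-- As `NoDesc.mono`, infinite values being harmless. -/
theorem NoDesc.mono_top {V V' : Set (M → ℕ∞)} (h : NoDesc ω V)
    (H : ∀ g' ∈ V', (∀ᶠ m in (ω : Filter M), g' m ≠ ⊤) →
      ∃ g ∈ V, ∀ᶠ m in (ω : Filter M), g' m = g m) : NoDesc ω V' := by
  intro g hg hd
  choose u hu hgu using fun i => H _ (hg (i + 1)) ((hd i).mono fun _ hm => hm.ne_top)
  refine h u hu fun i => ?_
  filter_upwards [hd (i + 1), hgu i, hgu (i + 1)] with m h1 h2 h3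
  rwa [← h2, ← h3]

theorem NoDesc.exists_min {V : Set (M → ℕ∞)} (h : NoDesc ω V) {S : Set (M → ℕ∞)} (hS : S ⊆ V)
    (hne : S.Nonempty) : ∃ g ∈ S, ∀ g' ∈ S, ∀ᶠ m in (ω : Filter M), g m ≤ g' m := by
  by_contra hn
  have H : ∀ g ∈ S, ∃ g' ∈ S, ∀ᶠ m in (ω : Filter M), g' m < g m := fun g hg => by
    by_contra hc
    exact hn ⟨g, hg, fun g' hg' => (ae_lt_or_ge g' g).resolve_left fun h1 => hc ⟨g', hg', h1⟩⟩
  choose! f hf hlt using H
  obtain ⟨g, hg⟩ := hne
  have hm : ∀ n, f^[n] g ∈ S := fun n => by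
    induction n with
    | zero => exact hg
    | succ n ih => rw [Function.iterate_succ_apply']; exact hf _ ih
  refine h (fun n => f^[n] g) (fun n => hS (hm n)) fun n => ?_
  simp only [Function.iterate_succ_apply']
  exact hlt _ (hm n)

/-- A descending chain yields descent between any two indices. -/
theorem desc_lt {g : ℕ → M → ℕ∞} (hd : ∀ i, ∀ᶠ m in (ω : Filter M), g (i + 1) m < g i m)
    {i j : ℕ} (hij : i < j) : ∀ᶠ m in (ω : Filter M), g j m < g i m := by
  induction j, hij using Nat.le_induction with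
  | base => exact hd i
  | succ j _ ih => filter_upwards [ih, hd j] with m h1 h2 using h2.trans h1

/-- The well-quasi-order argument: a pair increasing in both coordinates. -/
theorem NoDesc.exists_pair {V : Set (M → ℕ∞)} (h : NoDesc ω V) (g : ℕ → M → ℕ∞)
    (hg : ∀ i, g i ∈ V) (n : ℕ → ℕ) :
    ∃ k l, k < l ∧ n k ≤ n l ∧ ∀ᶠ m in (ω : Filter M), g k m ≤ g l m := by
  obtain ⟨φ, hφ⟩ := (wellQuasiOrdered_le (α := ℕ)).exists_monotone_subseq n
  by_contra hn
  refine h (fun i => g (φ i)) (fun i => hg _) fun i => ?_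
  exact (ae_lt_or_ge _ _).resolve_right fun h1 =>
    hn ⟨φ i, φ (i + 1), φ.strictMono (Nat.lt_succ_self i), hφ _ _ (Nat.le_succ i), h1⟩

end EN

end

-- part MP_646035_al.EN.RSApi
section

/-! Restricted power series: coefficients, universal property, `rho`, `kill`, `tau`, derivations. -/

set_option autoImplicit false
open Filter

namespace EN
namespace RS
variable {p : ℕ} {K K' K'' : Type} [CommRing K] [CommRing K'] [CommRing K''] {I : Type}

theorem val_injective : Function.Injective (val : RS p K I → MvPowerSeries I K) :=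
  Subtype.val_injective

theorem coeff_def (μ : I →₀ ℕ) (F : RS p K I) : coeff μ F = MvPowerSeries.coeff μ (val F) := rfl

@[ext] theorem ext {F G : RS p K I} (h : ∀ μ, coeff μ F = coeff μ G) : F = G :=
  val_injective (MvPowerSeries.ext h)

@[simp] theorem coeff_mk (c : (I →₀ ℕ) → K) (hc : Decay p c) (μ : I →₀ ℕ) :
    coeff μ (mk c hc) = c μ := rfl

@[simp] theorem val_ofPoly (q : MvPolynomial I K) : val (ofPoly q : RS p K I) = q := rfl

@[simp] theorem coeff_ofPoly (q : MvPolynomial I K) (μ : I →₀ ℕ) :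
    coeff μ (ofPoly q : RS p K I) = MvPolynomial.coeff μ q := rfl

@[simp] theorem ofPoly_C (c : K) : (ofPoly (MvPolynomial.C c) : RS p K I) = C c := rfl

@[simp] theorem ofPoly_X (i : I) : (ofPoly (MvPolynomial.X i) : RS p K I) = X i := rfl

@[simp] theorem val_C (c : K) : val (C c : RS p K I) = MvPowerSeries.C c := MvPolynomial.coe_C c

@[simp] theorem val_X (i : I) : val (X i : RS p K I) = MvPowerSeries.X i := MvPolynomial.coe_X i

theorem coeff_C [DecidableEq I] (c : K) (μ : I →₀ ℕ) :
    coeff μ (C c : RS p K I) = if μ = 0 then c else 0 := by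
  rw [coeff_def, val_C, MvPowerSeries.coeff_C]

@[simp] theorem coeff_zero_C (c : K) : coeff 0 (C c : RS p K I) = c := by
  classical rw [coeff_C, if_pos rfl]

theorem coeff_C_of_ne {μ : I →₀ ℕ} (h : μ ≠ 0) (c : K) : coeff μ (C c : RS p K I) = 0 := by
  classical rw [coeff_C, if_neg h]

theorem coeff_X [DecidableEq I] (i : I) (μ : I →₀ ℕ) :
    coeff μ (X i : RS p K I) = if μ = Finsupp.single i 1 then 1 else 0 := by
  rw [coeff_def, val_X, MvPowerSeries.coeff_X]

@[simp] theorem coeff_C_mul (c : K) (F : RS p K I) (μ : I →₀ ℕ) :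
    coeff μ (C c * F) = c * coeff μ F := by
  rw [coeff_def, map_mul, val_C, MvPowerSeries.coeff_C_mul, coeff_def]

theorem coeff_mul [DecidableEq I] (F G : RS p K I) (μ : I →₀ ℕ) :
    coeff μ (F * G) = ∑ x ∈ Finset.HasAntidiagonal.antidiagonal μ, coeff x.1 F * coeff x.2 G := by
  rw [coeff_def, map_mul, MvPowerSeries.coeff_mul]; rfl

@[simp] theorem coeff_pow_mul (k : ℕ) (F : RS p K I) (μ : I →₀ ℕ) :
    coeff μ ((p : RS p K I) ^ k * F) = (p : K) ^ k * coeff μ F := addHom_pow_mul _ k F

@[simp] theorem coeff_p_mul (F : RS p K I) (μ : I →₀ ℕ) :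
    coeff μ ((p : RS p K I) * F) = (p : K) * coeff μ F := by
  simpa only [pow_one] using coeff_pow_mul 1 F μ

@[simp] theorem coeff_map (h : K →+* K') (F : RS p K I) (μ : I →₀ ℕ) :
    coeff μ (map h F) = h (coeff μ F) := rfl

@[simp] theorem map_C (h : K →+* K') (c : K) : map h (C c : RS p K I) = C (h c) := by
  classical ext μ; rw [coeff_map, coeff_C, coeff_C]; split_ifs <;> simp

@[simp] theorem map_X (h : K →+* K') (i : I) : map h (X i : RS p K I) = X i := by
  classical ext μ; rw [coeff_map, coeff_X, coeff_X]; split_ifs <;> simp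

theorem map_map (h : K →+* K') (h' : K' →+* K'') (F : RS p K I) :
    map h' (map h F) = map (h'.comp h) F := rfl

@[simp] theorem map_id (F : RS p K I) : map (RingHom.id K) F = F := rfl

theorem map_ofPoly (h : K →+* K') (q : MvPolynomial I K) :
    map h (ofPoly q : RS p K I) = ofPoly (MvPolynomial.map h q) := by
  ext μ; simp [MvPolynomial.coeff_map]

theorem ev0_eq (F : RS p K I) : ev0 F = coeff 0 F := rfl

@[simp] theorem ev0_C (c : K) : ev0 (C c : RS p K I) = c := coeff_zero_C (p := p) c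

@[simp] theorem ev0_X (i : I) : ev0 (X i : RS p K I) = 0 := by
  classical rw [ev0_eq, coeff_X, if_neg]; exact (Finsupp.single_ne_zero.2 one_ne_zero).symm

theorem pow_dvd_iff [PR p K] {k : ℕ} {F : RS p K I} :
    (p : RS p K I) ^ k ∣ F ↔ ∀ μ, (p : K) ^ k ∣ coeff μ F := by
  refine ⟨fun h μ => addHom_dvd _ h, fun h => ?_⟩
  choose u hu using h
  refine ⟨mk u fun j => (decay F (k + j)).subset fun μ hμ hd => hμ ?_, ext fun μ => ?_⟩
  · simp only [hu] at hd
    exact PR.dvd_cancel.1 hd
  · rw [coeff_pow_mul, coeff_mk, hu]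

theorem dvd_iff [PR p K] {F : RS p K I} : (p : RS p K I) ∣ F ↔ ∀ μ, (p : K) ∣ coeff μ F := by
  simpa only [pow_one] using pow_dvd_iff (k := 1) (F := F)

theorem vp_le_coeff (F : RS p K I) (μ : I →₀ ℕ) : vp p F ≤ vp p (coeff μ F) := vp_le_map _ F

theorem le_vp_iff' [PR p K] {g : ℕ∞} {F : RS p K I} :
    g ≤ vp p F ↔ ∀ μ, g ≤ vp p (coeff μ F) :=
  ⟨fun h μ => h.trans (vp_le_coeff F μ),
    fun h => le_vp_iff.2 fun _ hk => pow_dvd_iff.2 fun μ => dvd_iff_le_vp.2 (hk.trans (h μ))⟩

instance instPR [PR p K] : PR p (RS p K I) where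
  reg F h := ext fun μ => by
    have := congrArg (coeff μ) h
    rw [coeff_p_mul, map_zero] at this
    simpa only [map_zero] using PR.reg (p := p) _ this
  sep F h := ext fun μ => by simpa using PR.sep (p := p) _ fun k => addHom_dvd (coeff μ) (h k)
  cpl t := by
    choose s hs using fun μ => PR.cpl (p := p) fun i => coeff μ (t i)
    have hd : Decay p s := fun k => by
      refine (decay (∑ i ∈ Finset.range k, (p : RS p K I) ^ i * t i) k).subset fun μ hμ hd => hμ ?_
      simp only [map_sum, coeff_pow_mul] at hd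
      simpa only [sub_add_cancel] using dvd_add (hs μ k) hd
    refine ⟨mk s hd, fun k => pow_dvd_iff.2 fun μ => ?_⟩
    simpa only [map_sub, map_sum, coeff_pow_mul, coeff_mk] using hs μ k

theorem exists_poly [PR p K] (F : RS p K I) (k : ℕ) :
    ∃ q : MvPolynomial I K, (p : RS p K I) ^ k ∣ F - ofPoly q := by
  obtain ⟨q, hq, -⟩ := exists_approx F k
  exact ⟨q, pow_dvd_iff.2 fun μ => by simpa only [map_sub, coeff_ofPoly] using hq μ⟩

@[simp] theorem lift_ofPoly [PR p K'] (h : K →+* K') (t : I → K') (q : MvPolynomial I K) :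
    lift h t (ofPoly q : RS p K I) = MvPolynomial.eval₂ h t q :=
  (lift_isVal h t _).unique (isVal_of h t fun _ => ⟨q, fun μ => by simp only [coeff_ofPoly, sub_self, dvd_zero], by simp only [sub_self, dvd_zero]⟩)

@[simp] theorem lift_C [PR p K'] (h : K →+* K') (t : I → K') (c : K) :
    lift h t (C c : RS p K I) = h c := by rw [← ofPoly_C, lift_ofPoly, MvPolynomial.eval₂_C]

@[simp] theorem lift_X [PR p K'] (h : K →+* K') (t : I → K') (i : I) :
    lift h t (X i : RS p K I) = t i := by rw [← ofPoly_X, lift_ofPoly, MvPolynomial.eval₂_X]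

/-- Additive maps into a `p`-ring that agree on monomials agree. -/
theorem add_ext [PR p K] [PR p K'] {φ ψ : RS p K I →+ K'}
    (h : ∀ μ c, φ (ofPoly (MvPolynomial.monomial μ c)) = ψ (ofPoly (MvPolynomial.monomial μ c)))
    (F : RS p K I) : φ F = ψ F := by
  have h1 : ∀ q : MvPolynomial I K, φ (ofPoly q) = ψ (ofPoly q) := fun q => by
    induction q using MvPolynomial.induction_on' with
    | monomial μ c => exact h μ c
    | add q r hq hr => simp only [map_add, hq, hr]
  refine PR.eq_of_dvd (p := p) fun k => ?_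
  obtain ⟨q, hq⟩ := exists_poly F k
  have := dvd_sub (addHom_dvd φ hq) (addHom_dvd ψ hq)
  simpa only [map_sub, h1, sub_sub_sub_cancel_right] using this

/-- A closed subring containing the constants and the variables is everything. -/
theorem mem_of_closed [PR p K] {J : Subring (RS p K I)} (hJ : Closed p J) (hC : ∀ c, C c ∈ J)
    (hX : ∀ i, X i ∈ J) (F : RS p K I) : F ∈ J := by
  have h1 : ∀ q : MvPolynomial I K, ofPoly q ∈ J := fun q => by
    induction q using MvPolynomial.induction_on with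
    | C c => exact hC c
    | add q r hq hr => rw [map_add]; exact J.add_mem hq hr
    | mul_X q i hq => rw [map_mul]; exact J.mul_mem hq (hX i)
  refine hJ.iter (S := Set.univ) (fun x _ => ?_) (Set.mem_univ F)
  obtain ⟨q, y, hy⟩ := exists_poly x 1
  exact ⟨ofPoly q, h1 q, y, trivial, by rw [pow_one] at hy; rw [← hy]; ring⟩

theorem hom_ext [PR p K] [PR p K'] {φ ψ : RS p K I →+* K'} (hC : ∀ c, φ (C c) = ψ (C c))
    (hX : ∀ i, φ (X i) = ψ (X i)) : φ = ψ :=
  RingHom.ext fun F => mem_of_closed (closed_eqLocus φ ψ) hC hX F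

theorem hom_mem [PR p K] (φ : RS p K I →+* K') {J : Subring K'} (hJ : Closed p J)
    (hC : ∀ c, φ (C c) ∈ J) (hX : ∀ i, φ (X i) ∈ J) (F : RS p K I) : φ F ∈ J :=
  mem_of_closed (hJ.comap φ) hC hX F

theorem lift_mem [PR p K] [PR p K'] (h : K →+* K') (t : I → K') {J : Subring K'} (hJ : Closed p J)
    (hC : ∀ c, h c ∈ J) (hX : ∀ i, t i ∈ J) (F : RS p K I) : lift h t F ∈ J :=
  hom_mem _ hJ (by simpa only [lift_C] using hC) (by simpa only [lift_X] using hX) F

theorem comp_lift [PR p K] [PR p K'] [PR p K''] (φ : K' →+* K'') (h : K →+* K') (t : I → K')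
    (F : RS p K I) : φ (lift h t F) = lift (φ.comp h) (fun i => φ (t i)) F :=
  RingHom.congr_fun (hom_ext (φ := φ.comp (lift h t)) (by simp) (by simp)) F

theorem lift_map [PR p K] [PR p K''] (g : K →+* K') (h : K' →+* K'') (t : I → K'')
    (F : RS p K I) : lift h t (map g F) = lift (h.comp g) t F :=
  RingHom.congr_fun (hom_ext (φ := (lift h t).comp (map g)) (by simp) (by simp)) F

@[simp] theorem lift_C_X [PR p K] (F : RS p K I) : lift C X F = F :=
  RingHom.congr_fun (hom_ext (ψ := RingHom.id _) (by simp) (by simp)) F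

/-- The range of `lift` on a closed subring is the closed ring generated. -/
theorem range_lift [PR p K'] {B : Subring K'} (hB : Closed p B) (t : I → K') :
    (lift B.subtype t : RS p B I →+* K').range = cl p (B ∪ Set.range t) := by
  have := hB.pr
  refine le_antisymm ?_ (cl_le (closed_range _) ?_)
  · rintro _ ⟨F, rfl⟩
    exact lift_mem _ _ (closed_cl _) (fun c => mem_cl (Set.mem_union_left _ c.2))
      (fun i => mem_cl (Set.mem_union_right _ (Set.mem_range_self i))) F
  · rintro x (hx | ⟨i, rfl⟩)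
    · exact ⟨C ⟨x, hx⟩, by simp⟩
    · exact ⟨X i, by simp⟩

theorem ofPoly_monomial (μ : I →₀ ℕ) (c : K) :
    (ofPoly (MvPolynomial.monomial μ c) : RS p K I) = C c * μ.prod fun i n => X i ^ n := by
  rw [MvPolynomial.monomial_eq, map_mul, map_finsuppProd]
  simp

/-- Diagonal substitutions `X i ↦ C (a i) * X i`. -/
theorem coeff_diag [PR p K] (a : I → K) (F : RS p K I) (μ : I →₀ ℕ) :
    coeff μ ((lift C (fun i => C (a i) * X i) : RS p K I →+* RS p K I) F) =
      (μ.prod fun i n => a i ^ n) * coeff μ F := by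
  classical
  refine add_ext (p := p) (φ := (coeff μ).comp
      (lift C fun i => C (a i) * X i : RS p K I →+* RS p K I).toAddMonoidHom)
    (ψ := (AddMonoidHom.mulLeft (μ.prod fun i n => a i ^ n)).comp (coeff μ)) (fun ν c => ?_) F
  have h1 : (lift C (fun i => C (a i) * X i) : RS p K I →+* RS p K I)
      (ofPoly (MvPolynomial.monomial ν c)) =
      C (ν.prod fun i n => a i ^ n) * ofPoly (MvPolynomial.monomial ν c) := by
    rw [lift_ofPoly, MvPolynomial.eval₂_monomial, ofPoly_monomial, map_finsuppProd]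
    simp only [mul_pow, Finsupp.prod_mul, map_pow]
    ring
  change coeff μ ((lift C (fun i => C (a i) * X i) : RS p K I →+* RS p K I)
    (ofPoly (MvPolynomial.monomial ν c))) =
    (μ.prod fun i n => a i ^ n) * coeff μ (ofPoly (MvPolynomial.monomial ν c) : RS p K I)
  rw [h1, coeff_C_mul, coeff_ofPoly, MvPolynomial.coeff_monomial]
  split_ifs with h
  · rw [h]
  · simp

/-! ### `rho` -/

@[simp] theorem rho_C [PR p K] (r : ℕ) (c : K) : rho r (C c : RS p K I) = C c := lift_C _ _ c

@[simp] theorem rho_X [PR p K] (r : ℕ) (i : I) :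
    rho r (X i : RS p K I) = (p : RS p K I) ^ r * X i := lift_X _ _ i

theorem coeff_rho [PR p K] (r : ℕ) (F : RS p K I) (μ : I →₀ ℕ) :
    coeff μ (rho r F) = (p : K) ^ (μ.degree * r) * coeff μ F := by
  have := coeff_diag (fun _ => (p : K) ^ r) F μ
  simp only [map_pow, map_natCast] at this
  rw [rho, this, Finsupp.prod, Finset.prod_pow_eq_pow_sum, ← pow_mul, mul_comm r]
  rfl

theorem vp_coeff_rho [PR p K] (r : ℕ) (F : RS p K I) (μ : I →₀ ℕ) :
    vp p (coeff μ (rho r F)) = (μ.degree * r : ℕ) + vp p (coeff μ F) := by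
  rw [coeff_rho, vp_pow_mul]

theorem rho_rho [PR p K] (r s : ℕ) (F : RS p K I) : rho s (rho r F) = rho (r + s) F :=
  RingHom.congr_fun (hom_ext (φ := (rho s).comp (rho r)) (by simp)
    (by simp only [RingHom.coe_comp, Function.comp_apply, rho_X, map_mul, map_pow, map_natCast, pow_add, mul_assoc, implies_true])) F

@[simp] theorem rho_zero [PR p K] (F : RS p K I) : rho 0 F = F :=
  RingHom.congr_fun (hom_ext (ψ := RingHom.id _) (by simp) (by simp only [rho_X, pow_zero, one_mul, RingHom.id_apply, implies_true])) F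

@[simp] theorem ev0_rho [PR p K] (r : ℕ) (F : RS p K I) : ev0 (rho r F) = ev0 F := by
  simp only [ev0_eq, coeff_rho, map_zero, zero_mul, pow_zero, one_mul]

/-! ### `kill` -/

@[simp] theorem kill_C [PR p K] (U : Set I) (c : K) : kill U (C c : RS p K I) = C c := lift_C _ _ c

theorem kill_X_mem [PR p K] {U : Set I} {i : I} (h : i ∈ U) : kill U (X i : RS p K I) = 0 := by
  rw [kill, lift_X, if_pos h]

theorem kill_X_notMem [PR p K] {U : Set I} {i : I} (h : i ∉ U) :
    kill U (X i : RS p K I) = X i := by rw [kill, lift_X, if_neg h]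

open Classical in
theorem coeff_kill [PR p K] (U : Set I) (F : RS p K I) (μ : I →₀ ℕ) :
    coeff μ (kill U F) = if ∀ i ∈ μ.support, i ∉ U then coeff μ F else 0 := by
  have h := coeff_diag (fun i => if i ∈ U then (0 : K) else 1) F μ
  have h1 : (fun i => (C (if i ∈ U then (0 : K) else 1) * X i : RS p K I)) =
      fun i => if i ∈ U then 0 else X i := by
    funext i; split_ifs <;> simp
  rw [h1] at h
  rw [kill, h]
  split_ifs with hμ
  · rw [Finsupp.prod, Finset.prod_eq_one fun i hi => by simp [hμ i hi], one_mul]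
  · push Not at hμ
    obtain ⟨i, hi, hU⟩ := hμ
    rw [Finsupp.prod, Finset.prod_eq_zero hi, zero_mul]
    simp [hU, Finsupp.mem_support_iff.1 hi]

theorem kill_eq_iff [PR p K] {U : Set I} {F : RS p K I} :
    kill U F = F ↔ ∀ μ : I →₀ ℕ, (∃ i ∈ μ.support, i ∈ U) → coeff μ F = 0 := by
  constructor
  · rintro h μ ⟨i, hi, hU⟩
    rw [← h, coeff_kill, if_neg fun H => H i hi hU]
  · intro h
    ext μ
    rw [coeff_kill]
    split_ifs with hμ
    · rfl
    · push Not at hμ
      exact (h μ hμ).symm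

@[simp] theorem kill_kill [PR p K] (U : Set I) (F : RS p K I) : kill U (kill U F) = kill U F :=
  kill_eq_iff.2 fun μ ⟨i, hi, hU⟩ => by rw [coeff_kill, if_neg fun H => H i hi hU]

theorem kill_rho [PR p K] (U : Set I) (r : ℕ) (F : RS p K I) :
    kill U (rho r F) = rho r (kill U F) := by
  ext μ
  rw [coeff_rho, coeff_kill, coeff_kill, coeff_rho]
  split_ifs <;> simp

/-- `z`-functions are stable under division by `p^a`. -/
theorem kill_of_pow_mul [PR p K] {U : Set I} {a : ℕ} {F : RS p K I}
    (h : kill U ((p : RS p K I) ^ a * F) = (p : RS p K I) ^ a * F) : kill U F = F := by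
  rw [map_mul, map_pow, map_natCast] at h
  exact PR.pow_cancel h

/-- `z`-functions are stable under inversion. -/
theorem kill_of_inv [PR p K] {U : Set I} {F G : RS p K I} (h : kill U F = F) (hFG : F * G = 1) :
    kill U G = G := by
  have h1 : F * kill U G = 1 := by rw [← h, ← map_mul, hFG, map_one]
  rw [← one_mul (kill U G), ← hFG, mul_comm F G, mul_assoc, h1, mul_one]

/-! ### `tau` -/

@[simp] theorem tau_C [PR p K] (c : K) : tau (C c : RS p K I) = C (C c) := lift_C _ _ c

@[simp] theorem tau_X [PR p K] (i : I) : tau (X i : RS p K I) = C (X i) + X i := lift_X _ _ i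

@[simp] theorem ev0_tau [PR p K] (F : RS p K I) : ev0 (tau F) = F :=
  RingHom.congr_fun (hom_ext (φ := ev0.comp tau) (ψ := RingHom.id _) (by simp) (by simp)) F

@[simp] theorem coeff_zero_tau [PR p K] (F : RS p K I) : coeff 0 (tau F) = F := ev0_tau F

@[simp] theorem map_ev0_tau [PR p K] (F : RS p K I) : map ev0 (tau F) = F :=
  RingHom.congr_fun (hom_ext (φ := (map ev0).comp tau) (ψ := RingHom.id _) (by simp) (by simp)) F

/-- `c_μ(F)(0) = a_μ(F)`. -/
@[simp] theorem ev0_coeff_tau [PR p K] (F : RS p K I) (μ : I →₀ ℕ) :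
    ev0 (coeff μ (tau F)) = coeff μ F := by rw [← coeff_map, map_ev0_tau]

theorem vp_le_coeff_tau [PR p K] (F : RS p K I) (μ : I →₀ ℕ) :
    vp p F ≤ vp p (coeff μ (tau F)) := (vp_le_mapR tau F).trans (vp_le_coeff _ μ)

theorem tau_kill [PR p K] (U : Set I) (F : RS p K I) :
    tau (kill U F) = kill U (map (kill U) (tau F)) := by
  refine RingHom.congr_fun (hom_ext (φ := tau.comp (kill U))
    (ψ := (kill U).comp ((map (kill U)).comp tau)) (by simp) fun i => ?_) F
  by_cases h : i ∈ U
  · simp [kill_X_mem h]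
  · simp only [RingHom.coe_comp, Function.comp_apply, kill_X_notMem h, tau_X, map_add, map_C, map_X, kill_C]

/-- The `c_μ` of a `z`-function are `z`-functions. -/
theorem kill_coeff_tau [PR p K] {U : Set I} {F : RS p K I} (h : kill U F = F) (μ : I →₀ ℕ) :
    kill U (coeff μ (tau F)) = coeff μ (tau F) := by
  conv_rhs => rw [← h, tau_kill, coeff_kill]
  split_ifs with hμ
  · rfl
  · rw [← h, tau_kill, coeff_kill, if_neg hμ, map_zero]

/-- The `c_μ` of a `z`-function vanish if `μ` involves a variable of `U`. -/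
theorem coeff_tau_eq_zero [PR p K] {U : Set I} {F : RS p K I} (h : kill U F = F) {μ : I →₀ ℕ}
    (hμ : ∃ i ∈ μ.support, i ∈ U) : coeff μ (tau F) = 0 := by
  obtain ⟨i, hi, hU⟩ := hμ
  rw [← h, tau_kill, coeff_kill, if_neg fun H => H i hi hU]

/-! ### Derivations -/

theorem der_ext [PR p K] {D D' : RS p K I →+ RS p K I} (hD : IsDer D) (hD' : IsDer D')
    (hC : ∀ c, D (C c) = D' (C c)) (hX : ∀ i, D (X i) = D' (X i)) (F : RS p K I) : D F = D' F := by
  let J : Subring (RS p K I) :=
    { carrier := {x | D x = D' x}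
      mul_mem' := fun {x y} (hx : D x = D' x) (hy : D y = D' y) => by
        change D _ = D' _
        rw [hD, hD', hx, hy]
      one_mem' := hD.one.trans hD'.one.symm
      add_mem' := fun {x y} (hx : D x = D' x) (hy : D y = D' y) => by
        change D _ = D' _
        rw [map_add, map_add, hx, hy]
      zero_mem' := by simp
      neg_mem' := fun {x} (hx : D x = D' x) => by
        change D _ = D' _
        rw [map_neg, map_neg, hx] }
  have hJ : Closed p J := fun t s ht hs => by
    have h1 := hs.map D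
    have : (fun i => D (t i)) = fun i => D' (t i) := funext fun i => ht i
    rw [this] at h1
    exact h1.unique (hs.map D')
  exact mem_of_closed hJ hC hX F

theorem coeff_single_mul (i : I) (F G : RS p K I) : coeff (Finsupp.single i 1) (F * G) =
    ev0 F * coeff (Finsupp.single i 1) G + ev0 G * coeff (Finsupp.single i 1) F := by
  classical
  rw [coeff_mul, Finsupp.antidiagonal_single, Finset.sum_map, Finset.Nat.antidiagonal_succ]
  simp only [zero_add, Finset.HasAntidiagonal.antidiagonal_zero, Finset.map_singleton, Function.Embedding.coe_prodMap, Function.Embedding.coeFn_mk, Prod.map_apply, Nat.succ_eq_add_one, Function.Embedding.refl_apply, Finset.cons_eq_insert, Prod.map_fst, Prod.map_snd, Finset.mem_singleton, Prod.mk.injEq, zero_ne_one, one_ne_zero, and_self, not_false_eq_true, Finset.sum_insert, Finsupp.single_zero, mul_comm, Finset.sum_singleton, ev0_eq]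

/-- `c_{e_i}` is the partial derivative. -/
theorem coeff_coeff_single_tau [PR p K] (i : I) (F : RS p K I) (ν : I →₀ ℕ) :
    coeff ν (coeff (Finsupp.single i 1) (tau F)) =
      ((ν i + 1 : ℕ) : K) * coeff (ν + Finsupp.single i 1) F := by
  classical
  let D : RS p K I →+ RS p K I := (coeff (Finsupp.single i 1)).comp tau.toAddMonoidHom
  let D' : RS p K I →+ RS p K I :=
    { toFun := fun F => mk (fun ν => MvPowerSeries.coeff ν (MvPowerSeries.pderiv K i (val F)))
        fun k => ((decay F k).preimage (f := fun ν => ν + Finsupp.single i 1)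
          (add_left_injective _).injOn).subset fun ν hν hd => hν (by
            simp only [MvPowerSeries.coeff_pderiv]
            exact hd.mul_right _)
      map_zero' := ext fun ν => by simp
      map_add' := fun F G => ext fun ν => by simp only [map_add, coeff_mk] }
  have hv : ∀ F, val (D' F) = MvPowerSeries.pderiv K i (val F) := fun F => rfl
  have hD : IsDer D := fun x y => by
    change coeff _ (tau (x * y)) = x * coeff _ (tau y) + y * coeff _ (tau x)
    rw [map_mul, coeff_single_mul, ev0_tau, ev0_tau]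
  have hD' : IsDer D' := fun x y => val_injective (by simp [hv])
  have h := der_ext hD hD' (fun c => ?_) (fun j => ?_) F
  · change coeff _ (D F) = _
    rw [h, coeff_def, hv, MvPowerSeries.coeff_pderiv, coeff_def, mul_comm]
    simp only [Nat.cast_add, Nat.cast_one]
  · change coeff _ (tau (C c)) = _
    rw [tau_C, coeff_C_of_ne (Finsupp.single_ne_zero.2 one_ne_zero)]
    exact val_injective (by simp [hv])
  · change coeff _ (tau (X j)) = _
    rw [tau_X, map_add, coeff_C_of_ne (Finsupp.single_ne_zero.2 one_ne_zero), zero_add, coeff_X]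
    refine val_injective ?_
    rw [hv, val_X, MvPowerSeries.pderiv_X]
    by_cases h : i = j
    · subst h; simp
    · rw [if_neg (by simpa [Finsupp.single_left_inj] using h)]
      simp [Ne.symm h]

end RS
end EN

end
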