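import Pool.Agent.MP_646035_al.Mg.H84_GBase
import Pool.Agent.MP_646035_al.H71.Ax

attribute [-instance] SemigroupAction.toSMul Submonoid.instSMulSubtypeMem Module.toDistribMulAction
  SMulWithZero.toSMulZeroClass Semiring.toMonoid CommGroup.toDivisionCommMonoid
  ContinuousMonoidHom.instCoeOutOfMonoidHomClassOfContinuousMapClass GradedMonoid.GradeZero.mulAction
  Algebra.toSMul AddQuantale.instAddLeftMono instCoeTCOfCoe instSMulZeroClass
  MulSemiringAction.toDistribMulAction MonTypeEquivalenceMon.monMonoid instCoeHTCOfCoeHeadOfCoeOTC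
  instCoeOutOfCoeFun NonUnitalRingHomClass.toMulHomClass Action.FintypeCat.instMulActionObjFiniteOf
  IdemSemiring.toCanonicallyOrderedAdd SetLike.GradeZero.instMonoid RKHS.instFunLike
  NumberField.to_charZero MonoidWithZero.toMonoid AddGroupWithOne.toAddGroup littleWedderburn
  AddQuantale.instAddRightMono IsometryClass.instCoeOutIsometryEquiv
  ContinuousAddMonoidHom.instCoeOutOfAddMonoidHomClassOfContinuousMapClass
  MulActionWithZero.toMulAction instCoeOutOfCoeSort Quantale.instMulRightMono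
  HomeomorphClass.instCoeOutHomeomorph Fintype.decidableForallFintype

-- part MP_646035_al.Geo27.Tw
section

/-!
Relative twisting of two curves about a third one.
-/

namespace Pool.Agent.MP_646035_al.Geo27

open Pool.Agent.MP_4a6971_al.H66 Pool.Agent.MP_646035_al.H84 Set H24 Fu

variable {Γ : Type} [Group Γ] {S : Fu Γ}

/-- A line of a curve with a generator of its stabiliser and a frame. -/
structure Fm (δ : S.Cv) where
  E : V
  γ : ℝ → V
  c : Γ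
  τ : ℝ
  f : Isom
  t : ℝ
  mem : E ∈ δ.1
  per : S.Per γ E c τ
  fr : Fr (S.σ c) f t
  e0 : f • E = E0

theorem exists_fm {δ : S.Cv} {E : V} (h : E ∈ δ.1) : ∃ m : Fm δ, m.E = E := by
  obtain ⟨γ, c, τ, p⟩ := δ.exists_per h
  obtain ⟨f, t, a, b⟩ := (S.hyp c p.ne).fr0 p.isAx
  exact ⟨⟨E, γ, c, τ, f, t, h, p, a, b⟩, rfl⟩

instance (δ : S.Cv) : Nonempty (Fm δ) :=
  let ⟨_, h⟩ := δ.nonempty
  (exists_fm h).nonempty

namespace Fm

variable {δ a b : S.Cv} (m : Fm δ) {F G D : V} {P Q P' Q' : ℝ}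

theorem lx (hF : Bf F F = 1) (h : Cr m.E F) : ∃ P Q, LX (m.f • F) P Q :=
  exists_LX (by simpa using hF) (by rwa [← m.e0, cr_isom])

theorem cr_of_lx (h : LX (m.f • F) P Q) : Cr m.E F := by
  have := h.cr0
  rwa [← m.e0, cr_isom] at this

theorem lx_zpow (h : LX (m.f • F) P Q) (k : ℤ) :
    LX (m.f • S.σ (m.c ^ k) • F) (P + k * m.t) (Q + k * m.t) := by
  rw [map_zpow, m.fr.eq]
  exact h.dil _

theorem between (h : LX (m.f • F) P Q) (h' : LX (m.f • G) P' Q') (k : ℤ) :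
    Cr (S.σ (m.c ^ k) • G) F ↔ (k - (P - P') / m.t) * (k - (Q - Q') / m.t) < 0 := by
  have ht := m.fr.pos
  rw [← cr_isom m.f, (m.lx_zpow h' k).cr h,
    ← neg_iff_of_pos (b := (k - (P - P') / m.t) * (k - (Q - Q') / m.t)) (a := m.t * m.t)
      (by positivity)]
  refine iff_of_eq (congrArg (· < 0) ?_)
  field_simp
  ring

theorem exists_th (a : S.Cv) :
    ∃ ϑ : ℝ, ∀ F ∈ a.1, ∀ P Q, LX (m.f • F) P Q → |(P - Q) / m.t - ϑ| ≤ 1 := by
  by_cases h : ∃ F ∈ a.1, ∃ P Q, LX (m.f • F) P Q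
  · obtain ⟨G, hG, P', Q', l'⟩ := h
    refine ⟨(P' - Q') / m.t, fun F hF P Q l => ?_⟩
    by_contra! h1
    obtain ⟨k, hk⟩ := exists_between' (a := (P - P') / m.t) (b := (Q - Q') / m.t) (m := 1)
      (lt_of_eq_of_lt Nat.cast_one (h1.trans_eq (congrArg _ (by ring))))
    exact a.simple (a.smul_mem hG _) hF ((m.between l l' k).2 (hk k le_rfl (by simp)))
  · exact ⟨0, fun F hF P Q l => (h ⟨F, hF, P, Q, l⟩).elim⟩

/-- A simple line on the positive side spans at most one period. -/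
theorem span_pos (hD : Bf D D = 1) (h : 1 < Bf m.E D ^ 2) (hs : (m.f • D).1 * (m.f • D).2.1 < 0)
    (w : ¬ Cr (S.σ m.c • D) D) : ∃ U U', LP (m.f • D) U U' ∧ U' ≤ U + m.t := by
  obtain ⟨U, U', l⟩ := exists_LP (F := m.f • D) (by simpa using hD)
    (by rwa [← Bf_E0, ← m.e0, Bf_isom]) hs
  exact ⟨U, U', l, l.wander m.fr.pos (by rwa [← m.fr.one, cr_isom])⟩

/-- A simple line on the negative side spans at most one period. -/
theorem span_neg (hD : Bf D D = 1) (h : 1 < Bf m.E D ^ 2) (hs : 0 < (m.f • D).1 * (m.f • D).2.1)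
    (w : ¬ Cr (S.σ m.c • D) D) : ∃ U U', LP (flp • m.f • D) U U' ∧ U' ≤ U + m.t := by
  rw [← Bf_isom m.f, m.e0, Bf_E0] at h
  obtain ⟨U, U', l⟩ := exists_LP (F := flp • m.f • D) (by simpa using hD)
    (by simpa only [flp_smul, even_two, Even.neg_pow, one_lt_sq_iff_one_lt_abs] using h) (by simpa only [flp_smul, mul_neg, Left.neg_neg_iff] using hs)
  exact ⟨U, U', l, l.wander m.fr.pos (by rwa [← flp_dil, ← m.fr.one, cr_isom, cr_isom])⟩

theorem side_ne (hD : Bf D D = 1) (h : 1 < Bf m.E D ^ 2) : (m.f • D).1 * (m.f • D).2.1 ≠ 0 := by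
  rw [← Bf_isom m.f, m.e0, Bf_E0] at h
  rw [← Bf_isom m.f] at hD
  simp only [Bf] at hD
  refine mul_ne_zero (fun a => ?_) fun a => ?_
  · rw [a] at hD; linarith only [hD, h]
  · rw [a] at h; norm_num at h

theorem span (hD : Bf D D = 1) (h : 1 < Bf m.E D ^ 2) (w : ¬ Cr (S.σ m.c • D) D)
    (l : LX (m.f • F) P Q) (l' : LX (m.f • G) P' Q') (c : Cr F D) (c' : Cr G D) :
    |P - P'| < m.t ∨ |Q - Q'| < m.t := by
  rcases (m.side_ne hD h).lt_or_gt with s | s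
  · obtain ⟨U, U', u, u'⟩ := m.span_pos hD h s w
    have a := (l.crp u).1 (by simpa using c)
    have b := (l'.crp u).1 (by simpa using c')
    exact Or.inr (abs_lt.2 ⟨by linarith [a.1, b.2], by linarith [a.2, b.1]⟩)
  · obtain ⟨U, U', u, u'⟩ := m.span_neg hD h s w
    have a := (l.flp.crp u).1 (by simpa using c)
    have b := (l'.flp.crp u).1 (by simpa using c')
    exact Or.inl (abs_lt.2 ⟨by linarith [a.1, b.2], by linarith [a.2, b.1]⟩)

/-- An element that preserves `F` and moves a line crossing `m.E` to an interior line is trivial. -/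
theorem eq_one {g : Γ} {G' : V} (hF : Bf F F = 1) (l : LX (m.f • F) P Q) (l' : LX (m.f • G') P' Q')
    (c : Cr m.E G) (h : S.σ g • F = F ∨ S.σ g • F = -F) (h' : S.σ g • G = G' ∨ S.σ g • G = -G')
    (p : m.t ≤ |P - P'|) (q : m.t ≤ |Q - Q'|) : g = 1 := by
  have cF := m.cr_of_lx l
  have u := δ.unit m.mem
  have hD := δ.smul_mem m.mem g
  rcases (δ.ax m.mem).tri (δ.ax hD) with x | x | x | x
  · exact (δ.simple m.mem hD x).elim
  · refine fix_two u hF (Or.inl x) h ?_ ?_ <;> rintro rfl <;> simp only [Cr, u, one_pow, lt_self_iff_false, Bf_neg_right, even_two, Even.neg_pow] at cF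
  · refine fix_two u hF (Or.inr x) h ?_ ?_ <;> rintro rfl <;> simp only [Cr, u, one_pow, lt_self_iff_false, Bf_neg_right, even_two, Even.neg_pow] at cF
  · exfalso
    have c1 : Cr F (S.σ g • m.E) := by
      have : Cr (S.σ g • F) (S.σ g • m.E) := by simpa using cF.symm
      rcases h with h | h <;> simpa [h] using this
    have c2 : Cr G' (S.σ g • m.E) := by
      have : Cr (S.σ g • G) (S.σ g • m.E) := by simpa using c.symm
      rcases h' with h | h <;> simpa [h] using this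
    rcases m.span (δ.unit hD) x (δ.simple (δ.smul_mem hD _) hD) l l' c1 c2 with y | y <;> linarith

theorem interior {α β : ℝ} {n : ℕ} (h : ((n + 2 : ℕ) : ℝ) < |α - β|) : ∃ k₀ : ℤ, ∀ j : Fin n,
    ((k₀ + j : ℤ) - α) * ((k₀ + j : ℤ) - β) < 0 ∧ 1 ≤ |α - (k₀ + j : ℤ)| ∧
      1 ≤ |β - (k₀ + j : ℤ)| := by
  obtain ⟨k, hk⟩ := MP_4a6971_al.H66.exists_between' h
  refine ⟨k + 1, fun j => ?_⟩
  have hj := j.2
  have h0 := hk (k + j) (by omega) (by omega)
  have h1 := hk (k + 1 + j) (by omega) (by omega)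
  have h2 := hk (k + 2 + j) (by omega) (by omega)
  refine ⟨h1, ?_⟩
  push_cast at h0 h2 ⊢
  simp only [le_abs]
  rcases mul_neg_iff.1 h0 with ⟨x, y⟩ | ⟨x, y⟩ <;> rcases mul_neg_iff.1 h2 with ⟨z, w⟩ | ⟨z, w⟩
  · exact ⟨Or.inr (by linarith only [x]), Or.inl (by linarith only [w])⟩
  · linarith only [x, z]
  · linarith only [y, w]
  · exact ⟨Or.inl (by linarith only [z]), Or.inr (by linarith only [y])⟩

theorem count (hF : F ∈ a.1) (l : LX (m.f • F) P Q) {n : ℕ}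
    (h : ∀ G ∈ b.1, ∀ P' Q', LX (m.f • G) P' Q' →
      ((n + 2 : ℕ) : ℝ) < |(P - P') / m.t - (Q - Q') / m.t|) : n * i δ b ≤ i a b := by
  have ht := m.fr.pos
  have hτ := m.per.pos
  have fin := Pos_fin' b m.per.pl 0 (0 + m.τ)
  have h1 : ∀ r : ↥(Pos b.1 m.γ m.E ∩ Ico 0 (0 + m.τ)), ∃ G ∈ b.1, Bf G (m.γ r) = 0 ∧ ∃ P' Q',
      LX (m.f • G) P' Q' ∧ ∃ k₀ : ℤ, ∀ j : Fin n, ∃ q, H2 q ∧ Bf F q = 0 ∧
        Bf (S.σ (m.c ^ (k₀ + j)) • G) q = 0 ∧ Cr F (S.σ (m.c ^ (k₀ + j)) • G) ∧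
        m.t ≤ |P - (P' + (k₀ + j : ℤ) * m.t)| ∧ m.t ≤ |Q - (Q' + (k₀ + j : ℤ) * m.t)| := by
    rintro ⟨r, ⟨G, hG, c, z⟩, -⟩
    obtain ⟨P', Q', l'⟩ := m.lx (b.unit hG) c
    obtain ⟨k, hk⟩ := interior (h G hG P' Q' l')
    refine ⟨G, hG, z, P', Q', l', k, fun j => ?_⟩
    obtain ⟨x, y, w⟩ := hk j
    have cr := ((m.between l l' _).2 x).symm
    obtain ⟨q, q1, q2, q3⟩ := exists_inter (a.unit hF) (b.unit (b.smul_mem hG _)) cr
    have e : ∀ u v : ℝ, 1 ≤ |(u - v) / m.t - (k + j : ℤ)| → m.t ≤ |u - (v + (k + j : ℤ) * m.t)| :=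
      fun u v s => by
        rw [show u - (v + (k + j : ℤ) * m.t) = ((u - v) / m.t - (k + j : ℤ)) * m.t by
          field_simp; ring, abs_mul, abs_of_pos ht]
        nlinarith only [ht, s]
    exact ⟨q, q1, q2, q3, cr, e _ _ y, e _ _ w⟩
  choose G hG z P' Q' l' k q q1 q2 q3 q4 q5 q6 using h1
  have := fin.to_subtype
  rw [m.per.count m.mem b 0, ← Nat.card_coe_set_eq, i, ← Nat.card_coe_set_eq]
  have := (X_fin a b).to_subtype
  rw [show n = Nat.card (Fin n) by simp only [Nat.card_eq_fintype_card, Fintype.card_fin], ← Nat.card_prod]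
  refine Nat.card_le_card_of_injective (fun x => ⟨S.orb (q x.2 x.1), _,
    ⟨q1 _ _, F, hF, _, b.smul_mem (hG _) _, q4 _ _, q2 _ _, q3 _ _⟩, rfl⟩) ?_
  rintro ⟨j, r⟩ ⟨j', r'⟩ e
  obtain ⟨g, hg⟩ : q r' j' ∈ S.orb (q r j) := by
    have : S.orb (q r j) = S.orb (q r' j') := congrArg Subtype.val e
    exact this ▸ self_mem_orb _
  have m1 := b.smul_mem (hG r) (m.c ^ (k r + j))
  have m2 := b.smul_mem (hG r') (m.c ^ (k r' + j'))
  have e1 := a.eq_or hF (a.smul_mem hF g) (q1 r' j') (q2 r' j') (by rw [hg, Bf_isom, q2])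
  have e2 := b.eq_or m2 (b.smul_mem m1 g) (q1 r' j') (q3 r' j') (by rw [hg, Bf_isom, q3])
  obtain rfl := m.eq_one (a.unit hF) l (m.lx_zpow (l' r') _)
    (m.cr_of_lx (m.lx_zpow (l' r) _)) e1 e2 (q5 r' j') (q6 r' j')
  have e3 : r.1 + (k r + j : ℤ) * m.τ = r'.1 + (k r' + j' : ℤ) * m.τ := by
    refine m.per.pl.one (b.unit m2) (m.cr_of_lx (m.lx_zpow (l' r') _)).symm ?_ ?_
    · have : Bf (S.σ (m.c ^ (k r + j)) • G r) (m.γ (r + (k r + j : ℤ) * m.τ)) = 0 := by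
        rw [← m.per.zsh, Bf_isom, z]
      simp only [map_one, one_smul] at e2
      rcases e2 with e2 | e2 <;> rw [e2] at this
      exacts [this, by rwa [Bf_neg_left, neg_eq_zero] at this]
    · rw [← m.per.zsh, Bf_isom, z]
  have e4 : k r + j - (k r' + j') = 0 := int_eq_zero hτ
    (by rw [Int.cast_sub]; linarith only [r.2.2.2, r'.2.2.1, e3])
    (by rw [Int.cast_sub]; linarith [r.2.2.1, r'.2.2.2])
  rw [sub_eq_zero.1 e4] at e3
  obtain rfl : r = r' := Subtype.ext (add_right_cancel e3)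
  obtain rfl : j = j' := Fin.ext (by omega)
  rfl

end Fm

/-- The chosen frame. -/
noncomputable def fm (δ : S.Cv) : Fm δ := Classical.arbitrary _

/-- The slope of `a` at `δ`. -/
noncomputable def th (δ a : S.Cv) : ℝ := ((fm δ).exists_th a).choose

theorem th_spec (δ a : S.Cv) : ∀ F ∈ a.1, ∀ P Q, LX ((fm δ).f • F) P Q →
    |(P - Q) / (fm δ).t - th δ a| ≤ 1 := ((fm δ).exists_th a).choose_spec

/-- The relative twisting. -/
noncomputable def tw (δ a b : S.Cv) : ℕ := ⌊|th δ a - th δ b|⌋₊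

theorem tw_symm (δ a b : S.Cv) : tw δ a b = tw δ b a := by rw [tw, tw, abs_sub_comm]

theorem tw_le (δ a b : S.Cv) : (tw δ a b : ℝ) ≤ |th δ a - th δ b| := Nat.floor_le (abs_nonneg _)

theorem lt_tw (δ a b : S.Cv) : |th δ a - th δ b| < tw δ a b + 1 := Nat.lt_floor_add_one _

theorem tw_tri (δ a b c : S.Cv) : tw δ a c ≤ tw δ a b + tw δ b c + 2 := by
  have : (tw δ a c : ℝ) ≤ tw δ a b + tw δ b c + 2 := by
    linarith [tw_le δ a c, lt_tw δ a b, lt_tw δ b c, abs_sub_le (th δ a) (th δ b) (th δ c)]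
  exact_mod_cast this

theorem tw_mul_le (δ a b : S.Cv) (ha : i δ a ≠ 0) :
    tw δ a b * i δ b ≤ i a b + 5 * i δ b := by
  rcases le_or_gt (tw δ a b) 5 with h | h
  · exact (Nat.mul_le_mul_right _ h).trans (Nat.le_add_left _ _)
  obtain ⟨n, hn⟩ := Nat.exists_eq_add_of_le h.le
  obtain ⟨F, hF, c⟩ := exists_cr ha (fm δ).mem
  obtain ⟨P, Q, l⟩ := (fm δ).lx (a.unit hF) c
  have := (fm δ).count (b := b) hF l (n := n) fun G hG P' Q' l' => by
    have h1 := abs_le.1 (th_spec δ a F hF P Q l)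
    have h2 := abs_le.1 (th_spec δ b G hG P' Q' l')
    have h3 := tw_le δ a b
    rw [hn] at h3
    push_cast at h3 ⊢
    have e : (P - P') / (fm δ).t - (Q - Q') / (fm δ).t =
      (P - Q) / (fm δ).t - (P' - Q') / (fm δ).t := by ring
    rw [e, lt_abs]
    rcases le_abs.1 h3 with x | x
    · left; linarith only [h1.1, h2.2, x]
    · right; linarith only [h1.2, h2.1, x]
  rw [hn, add_mul]
  omega

end Pool.Agent.MP_646035_al.Geo27

end

-- part MP_646035_al.Geo27.Dt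
section

/-!
Curves with bounded intersection numbers and bounded twisting along a maximal multicurve.
-/

namespace Pool.Agent.MP_646035_al.Geo27

open Pool.Agent.MP_4a6971_al.H66 Pool.Agent.MP_646035_al.H84 Set H24 Fu

variable {Γ : Type} [Group Γ] {S : Fu Γ}

/-- `F` crosses `E` and then `D`, and no line of `L` in between. -/
def St (L : Set V) (F E D : V) : Prop :=
  ∃ (β : ℝ → V) (s t : ℝ), PL β F ∧ s < t ∧ Bf E (β s) = 0 ∧ 0 < Bf E (β t) ∧ Bf D (β t) = 0 ∧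
    Bf D (β s) < 0 ∧ ∀ r ∈ Ioo s t, r ∉ Pos L β F

/-- Only boundedly many classes of simple chords start on a line of a maximal multicurve. -/
def Pb (S : Fu Γ) (K : ℕ) : Prop :=
  ∀ P : Finset S.Cv, (∀ a ∈ P, ∀ b ∈ P, i a b = 0) → (∀ b, (∀ a ∈ P, i a b = 0) → b ∈ P) →
    ∀ E ∈ LL (P : Set S.Cv), ∃ T : Finset V, T.card ≤ K ∧ ∀ a : S.Cv, ∀ F ∈ a.1,
      ∀ D ∈ LL (P : Set S.Cv), St (LL (P : Set S.Cv)) F E D →
        ∃ g, S.σ g • E = E ∧ (S.σ g • D ∈ T ∨ -(S.σ g • D) ∈ T)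

theorem ll_smul {P : Set S.Cv} {F : V} (h : F ∈ LL P) (g : Γ) : S.σ g • F ∈ LL P :=
  h.imp fun a ha => ⟨ha.1, a.smul_mem ha.2 g⟩

theorem ll_neg {P : Set S.Cv} {F : V} (h : F ∈ LL P) : -F ∈ LL P :=
  h.imp fun a ha => ⟨ha.1, a.neg_mem ha.2⟩

theorem ll_unit {P : Set S.Cv} {F : V} (h : F ∈ LL P) : Bf F F = 1 :=
  let ⟨a, _, h⟩ := h
  a.unit h

theorem St.smul {P : Set S.Cv} {F E D : V} (h : St (LL P) F E D) (g : Γ) :
    St (LL P) (S.σ g • F) (S.σ g • E) (S.σ g • D) := by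
  obtain ⟨β, s, t, l, a, b, c, d, e, f⟩ := h
  refine ⟨_, s, t, l.smul (S.σ g), a, by simpa, by simpa, by simpa, by simpa, fun r hr => ?_⟩
  rintro ⟨G, hG, x, y⟩
  exact f r hr ⟨_, ll_smul hG g⁻¹, by rwa [map_inv, ← cr_move],
    by rwa [map_inv, Bf_comm, ← Bf_move, Bf_comm]⟩

theorem St.ne {L : Set V} {F E D : V} (h : St L F E D) : D ≠ E ∧ D ≠ -E := by
  obtain ⟨β, s, t, -, -, b, -, -, e, -⟩ := h
  constructor <;> rintro rfl <;> simp [b] at e

namespace Fm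

variable {δ : S.Cv} (m : Fm δ) {F D q : V} {P Q : ℝ}

/-- The position of a line along the axis. -/
noncomputable def pos (D : V) : ℝ := Real.log ((m.f • D).2.2 / (m.f • D).1) / 2

theorem pos_neg (D : V) : m.pos (-D) = m.pos D := by simp only [pos, smul_neg, Prod.snd_neg, Prod.fst_neg, neg_div_neg_eq]

theorem ac_pos (hD : Bf D D = 1) (h : 1 < Bf m.E D ^ 2) : 0 < (m.f • D).1 * (m.f • D).2.2 := by
  rw [← Bf_isom m.f, m.e0, Bf_E0] at h
  rw [← Bf_isom m.f] at hD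
  simp only [Bf] at hD
  linarith only [hD, h]

theorem pos_zpow (hD : Bf D D = 1) (h : 1 < Bf m.E D ^ 2) (k : ℤ) :
    m.pos (S.σ (m.c ^ k) • D) = m.pos D + k * m.t := by
  have h1 := (m.ac_pos hD h).ne'
  have ha := left_ne_zero_of_mul h1
  have hc := right_ne_zero_of_mul h1
  rw [pos, pos, map_zpow, m.fr.eq, dil_smul]
  simp only
  rw [Real.log_div (by positivity) (by positivity), Real.log_mul hc (by positivity),
    Real.log_mul ha (by positivity), Real.log_div hc ha, Real.log_exp, Real.log_exp]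
  ring

theorem lp_log {X : V} {U U' : ℝ} (h : LP X U U') : Real.log (X.2.2 / X.1) = U + U' := by
  have h1 : Real.exp U' - Real.exp U ≠ 0 := (sub_pos.2 h.1).ne'
  have : X.2.2 / X.1 = Real.exp (U + U') := by
    rw [Real.exp_add]
    rcases h.2 with rfl | rfl <;> simp only [line, Prod.fst_neg, Prod.snd_neg] <;> field_simp
  rw [this, Real.log_exp]

theorem near (hD : Bf D D = 1) (h : 1 < Bf m.E D ^ 2) (w : ¬ Cr (S.σ m.c • D) D)
    (l : LX (m.f • F) P Q) (c : Cr F D) (hq : H2 q) (z : Bf D q = 0) :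
    (Bf m.E q < 0 → |Q - m.pos D| ≤ m.t) ∧ (0 < Bf m.E q → |P - m.pos D| ≤ m.t) := by
  have key : 0 < (m.f • D).1 * (m.f • D).2.1 * Bf m.E q := by
    have h1 := m.ac_pos hD h
    have h2 := (hq.smul m.f).2
    have h3 := (hq.smul m.f).pos
    rw [← Bf_isom m.f] at z
    rw [← Bf_isom m.f, m.e0, Bf_E0]
    simp only [Bf] at z
    have h4 : 0 < (m.f • D).1 ^ 2 := by
      have := left_ne_zero_of_mul h1.ne'
      positivity
    linear_combination (m.f • D).1 * z.symm + (mul_pos h4 h3) / 2 + (mul_pos h1 h2) / 2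
  have ht := m.fr.pos
  constructor <;> intro s
  · obtain ⟨U, U', u, u'⟩ := m.span_pos hD h (by nlinarith only [key, s]) w
    have a := (l.crp u).1 (by simpa using c)
    rw [pos, lp_log u]
    exact abs_le.2 ⟨by linarith only [a.1, u', a], by linarith [a.2]⟩
  · obtain ⟨U, U', u, u'⟩ := m.span_neg hD h (by nlinarith only [key, s]) w
    have a := (l.flp.crp u).1 (by simpa using c)
    have e := lp_log u
    rw [flp_smul] at e
    rw [pos, e]
    exact abs_le.2 ⟨by linarith only [a.1, u', a], by linarith [a.2]⟩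

end Fm

section

variable {P : Finset S.Cv} (hP : ∀ a ∈ P, ∀ b ∈ P, i a b = 0)
include hP

theorem ll_not_cr {E F : V} (h : E ∈ LL (P : Set S.Cv)) (h' : F ∈ LL (P : Set S.Cv)) : ¬ Cr E F :=
  let ⟨a, ha, h⟩ := h
  let ⟨b, hb, h'⟩ := h'
  i_eq_zero.1 (hP a ha b hb) E h F h'

theorem ll_far {E F : V} (h : E ∈ LL (P : Set S.Cv)) (h' : F ∈ LL (P : Set S.Cv)) (n : F ≠ E)
    (n' : F ≠ -E) : 1 < Bf E F ^ 2 := by
  have := ll_not_cr hP h h'
  obtain ⟨a, -, h⟩ := h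
  obtain ⟨b, -, h'⟩ := h'
  exact ((((a.ax h).tri (b.ax h')).resolve_left this).resolve_left n).resolve_left n'

/-- The twisting fixes the distance of the lines crossed before and after a line. -/
theorem window {δ a : S.Cv} (hδ : δ ∈ P) {F D E D' : V} {ε : ℝ} (hε : ε = 1 ∨ ε = -1)
    (hE : E = ε • (fm δ).E) (hF : F ∈ a.1) (hD : D ∈ LL (P : Set S.Cv))
    (hD' : D' ∈ LL (P : Set S.Cv)) (s : St (LL (P : Set S.Cv)) F D E)
    (s' : St (LL (P : Set S.Cv)) F E D') : i δ a ≠ 0 ∧ 1 < Bf (fm δ).E D' ^ 2 ∧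
      |(fm δ).pos D' - (fm δ).pos D - ε * th δ a * (fm δ).t| ≤ 3 * (fm δ).t := by
  have mE : (fm δ).E ∈ LL (P : Set S.Cv) := ⟨δ, hδ, (fm δ).mem⟩
  have n := s.ne
  have n' := s'.ne
  have f : 1 < Bf (fm δ).E D ^ 2 := by
    refine ll_far hP mE hD ?_ ?_ <;> rintro rfl <;> rcases hε with rfl | rfl <;> simp [hE] at n
  have f' : 1 < Bf (fm δ).E D' ^ 2 := by
    refine ll_far hP mE hD' ?_ ?_ <;> rintro rfl <;> rcases hε with rfl | rfl <;> simp [hE] at n'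
  obtain ⟨β, r, t, l, -, a1, a2, a3, a4, -⟩ := s
  obtain ⟨β', r', t', l', -, b1, b2, b3, b4, -⟩ := s'
  have c : Cr F D := l.cr_of_zero (ll_unit hD) a1 a2.ne'
  have c' : Cr F D' := l'.cr_of_zero (ll_unit hD') b3 b4.ne
  have cE : Cr (fm δ).E F := by
    refine (l.cr_of_zero (ll_unit mE) (s := t) (t := r) ?_ ?_).symm
    · rcases hε with rfl | rfl <;> simpa [hE] using a3
    · rcases hε with rfl | rfl <;> simpa [hE] using a4.ne
  obtain ⟨p, q, x⟩ := (fm δ).lx (a.unit hF) cE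
  have k := (fm δ).near (ll_unit hD) f (ll_not_cr hP (ll_smul hD _) hD) x c (l.h2 r) a1
  have k' := (fm δ).near (ll_unit hD') f' (ll_not_cr hP (ll_smul hD' _) hD') x c' (l'.h2 t') b3
  have ht := (fm δ).fr.pos
  have y := th_spec δ a F hF p q x
  rw [show (p - q) / (fm δ).t - th δ a = (p - q - th δ a * (fm δ).t) / (fm δ).t by field_simp,
    abs_div, abs_of_pos ht, div_le_one ht, abs_le] at y
  refine ⟨i_ne_zero (fm δ).mem hF cE, f', ?_⟩
  rcases hε with rfl | rfl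
  · have u := abs_le.1 (k.1 (by simpa [hE] using a4))
    have v := abs_le.1 (k'.2 (by simpa [hE] using b2))
    exact abs_le.2 ⟨by linarith only [u.1, v.2, y.1], by linarith only [u.2, v.1, y.2]⟩
  · have u := abs_le.1 (k.2 (by simpa [hE] using a4))
    have v := abs_le.1 (k'.1 (by simpa [hE] using b2))
    exact abs_le.2 ⟨by linarith only [u.1, v.2, y.2], by linarith only [u.2, v.1, y.1]⟩

end

/-- The lines that can follow `D, E` on a line of a curve of `A`. -/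
def Nx (P A : Finset S.Cv) (D E : V) : Set V :=
  {D' | D' ∈ LL (P : Set S.Cv) ∧ ∃ a ∈ A, ∃ F ∈ a.1, St (LL (P : Set S.Cv)) F D E ∧
    St (LL (P : Set S.Cv)) F E D'}

section

variable {K k : ℕ} (hK : Pb S K) {P A : Finset S.Cv} (hP : ∀ a ∈ P, ∀ b ∈ P, i a b = 0)
  (hm : ∀ b, (∀ a ∈ P, i a b = 0) → b ∈ P)
  (hk : ∀ δ ∈ P, ∀ a ∈ A, ∀ b ∈ A, i δ a ≠ 0 → i δ b ≠ 0 → tw δ a b ≤ k)
include hK hP hm hk

theorem nx_aux {δ : S.Cv} (hδ : δ ∈ P) {D E : V} {ε : ℝ} (hε : ε = 1 ∨ ε = -1)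
    (hE : E = ε • (fm δ).E) (hD : D ∈ LL (P : Set S.Cv)) :
    ∃ Z : Finset V, Z.card ≤ K * ((2 * k + 16) * 2) ∧ Nx P A D E ⊆ Z := by
  classical
  rcases (Nx P A D E).eq_empty_or_nonempty with h | ⟨D0, h0, a0, ha0, F0, hF0, s0, s0'⟩
  · exact ⟨∅, by simp, by simp [h]⟩
  have mE : (fm δ).E ∈ LL (P : Set S.Cv) := ⟨δ, hδ, (fm δ).mem⟩
  obtain ⟨T, hT, h⟩ := hK P hP hm E (by rcases hε with rfl | rfl <;> simp [hE, ll_neg mE, mE])
  obtain ⟨i0, -, w0⟩ := window hP hδ hε hE hF0 hD h0 s0 s0'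
  have ht := (fm δ).fr.pos
  refine ⟨(T ×ˢ Finset.range (2 * k + 16) ×ˢ ({1, -1} : Finset ℝ)).image fun x => x.2.2 •
    S.σ ((fm δ).c ^ (⌊((fm δ).pos D0 - (fm δ).pos x.1) / (fm δ).t⌋ - (k + 7) + x.2.1)) • x.1,
    Finset.card_image_le.trans ?_, ?_⟩
  · rw [Finset.card_product, Finset.card_product, Finset.card_range]
    gcongr
    exact Finset.card_le_two
  rintro D' ⟨h1, a, ha, F, hF, s, s'⟩
  obtain ⟨i1, f1, w1⟩ := window hP hδ hε hE hF hD h1 s s'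
  obtain ⟨g, g1, g2⟩ := h a F hF D' h1 s'
  obtain ⟨j, rfl⟩ := (fm δ).per.gen g (Or.inl (by
    rcases hε with rfl | rfl <;> simpa [hE] using g1))
  have e := (fm δ).pos_zpow (ll_unit h1) f1 j
  have w : |(fm δ).pos D' - (fm δ).pos D0| ≤ (k + 7) * (fm δ).t := by
    have x1 := lt_tw δ a a0
    have x2 : (tw δ a a0 : ℝ) ≤ k := by exact_mod_cast hk δ hδ a ha a0 ha0 i1 i0
    have x3 := abs_le.1 (show |th δ a - th δ a0| ≤ k + 1 by linarith only [x1, x2])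
    have x4 := mul_le_mul_of_nonneg_right x3.1 ht.le
    have x5 := mul_le_mul_of_nonneg_right x3.2 ht.le
    rw [abs_le] at w0 w1 ⊢
    rcases hε with rfl | rfl <;> constructor <;> linarith only [w0.1, w0.2, w1.1, w1.2, x4, x5]
  have key : ∀ x ∈ T, ∀ η : ℝ, η = 1 ∨ η = -1 → (fm δ).pos x = (fm δ).pos D' + j * (fm δ).t →
      η • S.σ ((fm δ).c ^ (-j)) • x = D' → D' ∈ (((T ×ˢ Finset.range (2 * k + 16) ×ˢ
      ({1, -1} : Finset ℝ)).image fun x => x.2.2 • S.σ ((fm δ).c ^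
        (⌊((fm δ).pos D0 - (fm δ).pos x.1) / (fm δ).t⌋ - (k + 7) + x.2.1)) • x.1 : Finset V) :
        Set V) := by
    intro x hx η hη e1 e2
    have f1 := Int.floor_le (((fm δ).pos D0 - (fm δ).pos x) / (fm δ).t)
    have f2 := Int.lt_floor_add_one (((fm δ).pos D0 - (fm δ).pos x) / (fm δ).t)
    rw [le_div_iff₀ ht] at f1
    rw [div_lt_iff₀ ht] at f2
    generalize hz : ⌊((fm δ).pos D0 - (fm δ).pos x) / (fm δ).t⌋ = z at f1 f2
    rw [abs_le] at w
    have b1 : ((z - (k + 7) : ℤ) : ℝ) ≤ (-j : ℤ) := by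
      push_cast
      exact le_of_mul_le_mul_right (by linarith only [w.1, e1, f1]) ht
    have b2 : ((-j : ℤ) : ℝ) < (z + (k + 8) : ℤ) := by
      push_cast
      exact lt_of_mul_lt_mul_right (by linarith only [w.2, e1, f2]) ht.le
    rw [Int.cast_le] at b1
    rw [Int.cast_lt] at b2
    refine Finset.mem_coe.2 (Finset.mem_image.2 ⟨(x, (-j - (z - (k + 7))).toNat, η), ?_, ?_⟩)
    · simp only [Finset.mem_product, Finset.mem_range, Finset.mem_insert, Finset.mem_singleton]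
      exact ⟨hx, by omega, hη⟩
    · simp only [hz]
      rw [← e2]
      congr 4
      omega
  rcases g2 with g2 | g2
  · exact key _ g2 1 (Or.inl rfl) e (by simp only [zpow_neg, map_inv, map_zpow, inv_smul_smul, one_smul])
  · exact key _ g2 (-1) (Or.inr rfl) (by rw [Fm.pos_neg, e]) (by simp only [zpow_neg, map_inv, map_zpow, smul_neg, inv_smul_smul, neg_smul, one_smul, neg_neg])

theorem nx_bd {D E : V} (hE : E ∈ LL (P : Set S.Cv)) (hD : D ∈ LL (P : Set S.Cv)) :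
    ∃ Z : Finset V, Z.card ≤ K * ((2 * k + 16) * 2) ∧ Nx P A D E ⊆ Z := by
  classical
  obtain ⟨δ, hδ, h⟩ := hE
  obtain ⟨g, hg⟩ := δ.exists_smul h (fm δ).mem
  obtain ⟨ε, hε, e⟩ : ∃ ε : ℝ, (ε = 1 ∨ ε = -1) ∧ S.σ g • E = ε • (fm δ).E := by
    rcases hg with hg | hg
    exacts [⟨1, Or.inl rfl, by simp [hg]⟩, ⟨-1, Or.inr rfl, by simp [hg]⟩]
  obtain ⟨Z, z1, z2⟩ := nx_aux hK hP hm hk hδ hε e (ll_smul hD g)
  refine ⟨Z.image fun X => S.σ g⁻¹ • X, Finset.card_image_le.trans z1, ?_⟩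
  rintro D' ⟨h1, a, ha, F, hF, s, s'⟩
  exact Finset.mem_coe.2 (Finset.mem_image.2 ⟨_, z2 ⟨ll_smul h1 g, a, ha, _, a.smul_mem hF g,
    s.smul g, s'.smul g⟩, by simp only [map_inv, inv_smul_smul]⟩)

end

theorem pos_ll {P : Finset S.Cv} {β : ℝ → V} {F : V} (l : PL β F) (s t : ℝ) :
    (Pos (LL (P : Set S.Cv)) β F ∩ Ico s t).Finite ∧ ∀ M : ℕ,
      (∀ δ ∈ P, (Pos δ.1 β F ∩ Ico s t).ncard ≤ M) →
        (Pos (LL (P : Set S.Cv)) β F ∩ Ico s t).ncard ≤ P.card * M := by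
  classical
  have h : Pos (LL (P : Set S.Cv)) β F ∩ Ico s t ⊆
      (P.biUnion fun δ => (Pos_fin' δ l s t).toFinset : Finset ℝ) := by
    rintro r ⟨⟨G, ⟨δ, hδ, h1⟩, h2⟩, h3⟩
    exact Finset.mem_coe.2 (Finset.mem_biUnion.2 ⟨δ, hδ, by simpa only [Finite.mem_toFinset, mem_inter_iff, mem_Ico] using ⟨⟨G, h1, h2⟩, h3⟩⟩)
  refine ⟨(Finset.finite_toSet _).subset h, fun M hM => ?_⟩
  refine (ncard_le_ncard h (Finset.finite_toSet _)).trans ?_
  rw [ncard_coe_finset]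
  exact Finset.card_biUnion_le_card_mul _ _ _ fun δ hδ => by
    rw [← ncard_eq_toFinset_card _ (Pos_fin' δ l s t)]; exact hM δ hδ

/-- The sequence of the lines of a multicurve crossed by a curve. -/
theorem exists_seq {P : Finset S.Cv} (hP : ∀ a ∈ P, ∀ b ∈ P, i a b = 0) {a δ : S.Cv} (hδ : δ ∈ P)
    (h : i δ a ≠ 0) {M : ℕ} (hM : ∀ δ ∈ P, i δ a ≤ M) :
    ∃ F ∈ a.1, ∃ d : Γ, d ≠ 1 ∧ S.σ d • F = F ∧ ∃ n ≤ P.card * M, ∃ m : ℕ → V,
      (∀ j, m j ∈ LL (P : Set S.Cv) ∧ St (LL (P : Set S.Cv)) F (m j) (m (j + 1))) ∧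
      S.σ d • m 0 = m n ∧ S.σ d • m 1 = m (n + 1) := by
  obtain ⟨F, hF⟩ := a.nonempty
  obtain ⟨β, d, τ, p⟩ := a.exists_per hF
  have l := p.pl
  have hτ := p.pos
  set T := Pos (LL (P : Set S.Cv)) β F with hT
  have per : ∀ r ∈ T, ∀ k : ℤ, r + k * τ ∈ T := fun r hr k =>
    p.pos_add (fun F hF g => ll_smul hF g) hr k
  obtain ⟨r0, h0⟩ : T.Nonempty := by
    obtain ⟨G, hG, c⟩ := exists_cr (i_symm δ a ▸ h) hF
    obtain ⟨r, hr⟩ := l.zero (δ.unit hG) c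
    exact ⟨r, G, ⟨δ, hδ, hG⟩, c, hr⟩
  have nx : ∀ s, ∃ t, s < t ∧ t ∈ T ∧ ∀ r ∈ T, s < r → t ≤ r := fun s => by
    obtain ⟨k, k1, k2⟩ := exists_mem_Ico hτ (s + τ) r0
    obtain ⟨t, ⟨⟨t1, -, t2⟩, t3⟩, t4⟩ := exists_min_image ((T ∩ Ico s (s + τ + τ)) ∩ Ioi s) id
      ((pos_ll l _ _).1.inter_of_left _) ⟨_, ⟨per _ h0 k, by linarith, k2⟩, by
        simp only [mem_Ioi]; linarith⟩
    refine ⟨t, t3, t1, fun r hr hs => ?_⟩
    by_contra! hc
    exact absurd (t4 r ⟨⟨hr, hs.le, hc.trans t2⟩, hs⟩) (not_le.2 hc)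
  choose nx n1 n2 n3 using nx
  have ml : ∀ r ∈ T, ∃ D ∈ LL (P : Set S.Cv), Bf D (β r) = 0 ∧ StrictMono fun t => Bf D (β t) := by
    rintro r ⟨G, hG, c, z⟩
    rcases l.mono (ll_unit hG) c with x | x
    · exact ⟨G, hG, z, x⟩
    · exact ⟨-G, ll_neg hG, by simpa using z, by simpa using x.neg⟩
  choose! ml m1 m2 m3 using ml
  have sh : ∀ r ∈ T, S.σ d • ml r = ml (r + τ) := fun r hr => by
    have hr' : r + τ ∈ T := by simpa using per r hr 1
    have x := ll_smul (m1 r hr) d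
    have y : ∀ t, Bf (S.σ d • ml r) (β (t + τ)) = Bf (ml r) (β t) := fun t => by
      rw [← p.sh, Bf_isom]
    rcases cr_or_eq (ll_unit (m1 _ hr')) (ll_unit x) (l.h2 (r + τ)) (m2 _ hr')
      ((y r).trans (m2 r hr)) with c | c | c
    · exact (ll_not_cr hP (m1 _ hr') x c).elim
    · exact c
    · have u := m3 r hr (lt_add_one r)
      have v := m3 _ hr' (show r + τ < r + 1 + τ by linarith)
      simp only [← y, c, Bf_neg_left] at u v
      linarith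
  let t : ℕ → ℝ := fun j => nx^[j] r0
  have ts : ∀ j, t (j + 1) = nx (t j) := fun j => Function.iterate_succ_apply' _ _ _
  have tT : ∀ j, t j ∈ T := fun j => by
    cases j with
    | zero => exact h0
    | succ j => exact ts j ▸ n2 _
  have tm : StrictMono t := strictMono_nat_of_lt_succ fun j => ts j ▸ n1 _
  have hr0 : r0 + τ ∈ T := by simpa using per r0 h0 1
  have ex : ∃ n, n ≤ P.card * M ∧ r0 + τ ≤ t n := by
    by_contra! hc
    have c1 := (pos_ll (P := P) l r0 (r0 + τ)).2 M fun δ hδ => by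
      rw [← p.count hF δ r0, i_symm]; exact hM δ hδ
    have c2 := ncard_le_ncard_of_injOn (s := Iic (P.card * M)) t (fun j hj =>
      (⟨tT j, tm.monotone (Nat.zero_le j), hc j hj⟩ : t j ∈ T ∩ Ico r0 (r0 + τ)))
      tm.injective.injOn (pos_ll l _ _).1
    rw [← Finset.coe_Iic, ncard_coe_finset, Nat.card_Iic] at c2
    omega
  classical
  have e : t (Nat.find ex) = r0 + τ := by
    refine le_antisymm ?_ (Nat.find_spec ex).2
    rcases hn : Nat.find ex with _ | n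
    · exact (lt_add_of_pos_right r0 hτ).le
    · have := Nat.find_min ex (show n < Nat.find ex by omega)
      have b := (Nat.find_spec ex).1
      exact ts n ▸ n3 _ _ hr0 (not_le.1 fun c => this ⟨by omega, c⟩)
  have e' : t (Nat.find ex + 1) = t 1 + τ := by
    rw [ts, e, ts]
    change nx (r0 + τ) = nx r0 + τ
    refine le_antisymm (n3 _ _ (by simpa using per _ (n2 r0) 1) (by linarith [n1 r0])) ?_
    have := n3 r0 _ (per _ (n2 (r0 + τ)) (-1)) (by push_cast; linarith [n1 (r0 + τ)])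
    push_cast at this
    linarith
  refine ⟨F, hF, d, p.ne, p.fix, _, (Nat.find_spec ex).1, fun j => ml (t j), fun j =>
    ⟨m1 _ (tT j), β, t j, t (j + 1), l, tm (lt_add_one j), m2 _ (tT j), ?_, m2 _ (tT _), ?_,
      fun r hr c => ?_⟩, ?_, ?_⟩
  · exact (m2 _ (tT j)).symm.trans_lt (m3 _ (tT j) (tm (lt_add_one j)))
  · exact (m3 _ (tT _) (tm (lt_add_one j))).trans_eq (m2 _ (tT _))
  · exact absurd (n3 _ r c hr.1) (not_le.2 (ts j ▸ hr.2))
  · simp only [e]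
    exact sh r0 h0
  · simp only [e']
    exact sh _ (tT 1)

theorem reach {α : Type*} (N : α → α → Set α) (L : Set α) {B : ℕ}
    (h : ∀ x ∈ L, ∀ y ∈ L, ∃ Z : Finset α, Z.card ≤ B ∧ N x y ⊆ Z) (Z0 : Finset (α × α)) (n : ℕ) :
    ∃ Z : Finset (α × α), Z.card ≤ Z0.card * (B + 1) ^ n ∧ ∀ m : ℕ → α, (∀ j, m j ∈ L) →
      (∀ j, m (j + 2) ∈ N (m j) (m (j + 1))) → (m 0, m 1) ∈ Z0 → ∀ j ≤ n, (m j, m (j + 1)) ∈ Z := by
  classical
  choose! Y y1 y2 using h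
  induction n with
  | zero => exact ⟨Z0, by simp, fun m _ _ h j hj => by rwa [Nat.le_zero.1 hj]⟩
  | succ n ih =>
    obtain ⟨Z, z1, z2⟩ := ih
    refine ⟨Z ∪ (Z.filter fun x => x.1 ∈ L ∧ x.2 ∈ L).biUnion fun x =>
      (Y x.1 x.2).image fun y => (x.2, y), (Finset.card_union_le _ _).trans ?_, ?_⟩
    · have := Finset.card_biUnion_le_card_mul (Z.filter fun x => x.1 ∈ L ∧ x.2 ∈ L)
        (fun x => (Y x.1 x.2).image fun y => (x.2, y)) B fun x hx =>
          Finset.card_image_le.trans (y1 _ (Finset.mem_filter.1 hx).2.1 _ (Finset.mem_filter.1 hx).2.2)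
      have h2 := Nat.mul_le_mul_right B (Finset.card_filter_le Z fun x => x.1 ∈ L ∧ x.2 ∈ L)
      have h3 := Nat.mul_le_mul_right (B + 1) z1
      rw [pow_succ, ← mul_assoc]
      linarith only [this, h2, h3]
    · intro m a b c j hj
      rcases hj.lt_or_eq with hj | rfl
      · exact Finset.mem_union_left _ (z2 m a b c j (by omega))
      · exact Finset.mem_union_right _ (Finset.mem_biUnion.2 ⟨(m n, m (n + 1)),
          Finset.mem_filter.2 ⟨z2 m a b c n le_rfl, a _, a _⟩,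
          Finset.mem_image.2 ⟨_, y2 _ (a _) _ (a _) (b n), rfl⟩⟩)

theorem start {K : ℕ} (hK : Pb S K) {P : Finset S.Cv} (hP : ∀ a ∈ P, ∀ b ∈ P, i a b = 0)
    (hm : ∀ b, (∀ a ∈ P, i a b = 0) → b ∈ P) : ∃ Z : Finset (V × V), Z.card ≤ P.card * (4 * K) ∧
      ∀ a : S.Cv, ∀ F ∈ a.1, ∀ E ∈ LL (P : Set S.Cv), ∀ D ∈ LL (P : Set S.Cv),
        St (LL (P : Set S.Cv)) F E D → ∃ g, (S.σ g • E, S.σ g • D) ∈ Z := by
  classical
  choose! T t1 t2 using hK P hP hm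
  let Y : V → Finset (V × V) := fun E => (T E).image (fun D => (E, D)) ∪ (T E).image fun D => (E, -D)
  have y1 : ∀ E ∈ LL (P : Set S.Cv), (Y E).card ≤ 2 * K := fun E hE => by
    have a := Finset.card_image_le (s := T E) (f := fun D => (E, D))
    have b := Finset.card_image_le (s := T E) (f := fun D => (E, -D))
    have c := t1 E hE
    exact (Finset.card_union_le _ _).trans (by omega)
  refine ⟨P.biUnion fun δ => Y (fm δ).E ∪ Y (-(fm δ).E),
    Finset.card_biUnion_le_card_mul _ _ _ fun δ hδ => ?_, fun a F hF E hE D hD s => ?_⟩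
  · have a := y1 _ ⟨δ, hδ, (fm δ).mem⟩
    have b := y1 _ (ll_neg ⟨δ, hδ, (fm δ).mem⟩)
    exact (Finset.card_union_le _ _).trans (by omega)
  obtain ⟨δ, hδ, h⟩ := id hE
  obtain ⟨g, hg⟩ := δ.exists_smul h (fm δ).mem
  obtain ⟨w, w1, w2⟩ := t2 _ (ll_smul hE g) a _ (a.smul_mem hF g) _ (ll_smul hD g) (s.smul g)
  have key : (S.σ (w * g) • E, S.σ (w * g) • D) ∈ Y (S.σ g • E) := by
    rw [map_mul, mul_smul, mul_smul, w1]
    rcases w2 with w2 | w2
    · exact Finset.mem_union_left _ (Finset.mem_image.2 ⟨_, w2, rfl⟩)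
    · exact Finset.mem_union_right _ (Finset.mem_image.2 ⟨_, w2, by simp⟩)
  refine ⟨w * g, Finset.mem_biUnion.2 ⟨δ, hδ, ?_⟩⟩
  rcases hg with hg | hg
  · exact Finset.mem_union_left _ (hg ▸ key)
  · exact Finset.mem_union_right _ (by rwa [hg, neg_neg])

/-- Finiteness of the curves with bounded coordinates. -/
theorem dt {K ξ : ℕ} (hK : Pb S K)
    (hξ : ∀ P : Finset S.Cv, (∀ a ∈ P, ∀ b ∈ P, i a b = 0) → P.card ≤ ξ) (M k : ℕ) :
    ∃ N, ∀ P A : Finset S.Cv, (∀ a ∈ P, ∀ b ∈ P, i a b = 0) →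
      (∀ b, (∀ a ∈ P, i a b = 0) → b ∈ P) → (∀ a ∈ A, a ∉ P) → (∀ a ∈ A, ∀ δ ∈ P, i δ a ≤ M) →
      (∀ δ ∈ P, ∀ a ∈ A, ∀ b ∈ A, i δ a ≠ 0 → i δ b ≠ 0 → tw δ a b ≤ k) → A.card ≤ N := by
  classical
  refine ⟨ξ * (4 * K) * (ξ * (4 * K) * (K * ((2 * k + 16) * 2) + 1) ^ (ξ * M)),
    fun P A hP hm hA hM hk => ?_⟩
  obtain ⟨Z0, a1, a2⟩ := start hK hP hm
  obtain ⟨Z, b1, b2⟩ := reach (Nx P A) (LL (P : Set S.Cv))
    (fun x hx y hy => nx_bd hK hP hm hk hy hx) Z0 (ξ * M)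
  have c1 : Z0.card ≤ ξ * (4 * K) := a1.trans (Nat.mul_le_mul_right _ (hξ P hP))
  have h : ∀ a ∈ A, ∃ x ∈ Z0 ×ˢ Z, Bf x.1.1 x.1.1 = 1 ∧ Bf x.1.2 x.1.2 = 1 ∧ x.1.2 ≠ x.1.1 ∧
      x.1.2 ≠ -x.1.1 ∧ ∃ F ∈ a.1, ∃ d : Γ, d ≠ 1 ∧ S.σ d • F = F ∧ S.σ d • x.1.1 = x.2.1 ∧
        S.σ d • x.1.2 = x.2.2 := fun a ha => by
    obtain ⟨δ, hδ, h⟩ : ∃ δ ∈ P, i δ a ≠ 0 := by
      by_contra! hc
      exact hA a ha (hm a hc)
    obtain ⟨F, hF, d, d1, d2, n, hn, m, m1, m2, m3⟩ := exists_seq hP hδ h (hM a ha)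
    obtain ⟨g, hg⟩ := a2 a F hF _ (m1 0).1 _ (m1 1).1 (m1 0).2
    have ne := ((m1 0).2.smul g).ne
    refine ⟨((S.σ g • m 0, S.σ g • m 1), (S.σ g • m n, S.σ g • m (n + 1))),
      Finset.mem_product.2 ⟨hg, b2 (fun j => S.σ g • m j) (fun j => ll_smul (m1 j).1 g)
        (fun j => ⟨ll_smul (m1 _).1 g, a, ha, _, a.smul_mem hF g, (m1 j).2.smul g,
          (m1 (j + 1)).2.smul g⟩) hg n (hn.trans (Nat.mul_le_mul_right _ (hξ P hP)))⟩,
      ll_unit (ll_smul (m1 0).1 g), ll_unit (ll_smul (m1 1).1 g), ne.1, ne.2, _, a.smul_mem hF g,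
      g * d * g⁻¹, by simpa only [ne_eq, conj_eq_one_iff] using d1, ?_, ?_, ?_⟩ <;> simp only [map_mul, map_inv, mul_smul, inv_smul_smul, d2, m2, m3]
  choose! x x1 x2 using h
  refine (Finset.card_le_card_of_injOn x x1 fun a ha b hb e => ?_).trans ?_
  · obtain ⟨u1, u2, n1, n2, F, hF, d, d1, d2, d3, d4⟩ := x2 a ha
    obtain ⟨-, -, -, -, F', hF', d', -, d2', d3', d4'⟩ := x2 b hb
    rw [← e] at d3' d4'
    have : d⁻¹ * d' = 1 := fix_two u1 u2
      (Or.inl (by rw [map_mul, mul_smul, d3', ← d3, map_inv, inv_smul_smul]))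
      (Or.inl (by rw [map_mul, mul_smul, d4', ← d4, map_inv, inv_smul_smul])) n1 n2
    obtain rfl := inv_mul_eq_one.1 this
    rcases (S.hyp d d1).ax_unique ⟨a.unit hF, d2⟩ ⟨b.unit hF', d2'⟩ with rfl | rfl
    exacts [Cv.eq_of_mem hF hF', Cv.eq_of_mem (a.neg_mem hF) hF']
  · rw [Finset.card_product]
    exact Nat.mul_le_mul c1 (b1.trans (Nat.mul_le_mul_right _ c1))

/-- The axioms on the twisting. -/
theorem isTw {K ξ C0 : ℕ} (hK : Pb S K)
    (hξ : ∀ P : Finset S.Cv, (∀ a ∈ P, ∀ b ∈ P, i a b = 0) → P.card ≤ ξ) (h : 5 ≤ C0) :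
    H71.IsTw (i (S := S)) C0 tw where
  symm := tw_symm
  tri δ a b c _ _ _ := (tw_tri δ a b c).trans (by omega)
  le δ a b ha _ := (tw_mul_le δ a b ha).trans (by gcongr)
  dt M k := (dt hK hξ M k).imp fun _ hN P A h1 h2 => hN P A h1 fun _ hb => h2 hb

end Pool.Agent.MP_646035_al.Geo27

end
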