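import Pool.Agent.MP_646035_al.Mg.H84_GWk2

attribute [-instance] SemigroupAction.toSMul DivisionCommMonoid.toDivisionMonoid
  Submonoid.instSMulSubtypeMem Prod.mulAction Module.toDistribMulAction Semiring.toMonoid
  SMulWithZero.toSMulZeroClass NonUnitalRingHomClass.toMulHomClass MonTypeEquivalenceMon.monMonoid
  Algebra.toSMul instSMulZeroClass AddQuantale.instAddLeftMono MulSemiringAction.toDistribMulAction
  NonUnitalAlgSemiHomClass.toMulHomClass IdemSemiring.toCanonicallyOrderedAdd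
  AddSubmonoidClass.toAddCommMonoid SemigroupWithZero.toSemigroup Prod.distribSMul
  GroupConeClass.toSubmonoidClass SetLike.GradeZero.instMonoid NumberField.to_charZero
  MonoidWithZero.toMonoid SubsemiringClass.toSubmonoidClass AddQuantale.instAddRightMono
  IsOrderedMonoid.toMulLeftMono DivisionRing.toDivInvMonoid

/-!
Properties of gap lines.
-/

namespace Pool.Agent.MP_646035_al.H84

open Pool.Agent.MP_4a6971_al.H66 Set H24 Real

/-- A form that is non-negative along an orbit is non-negative on the axis. -/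
lemma nonneg_of_orbit {η : ℝ → V} {A h w : V} {k : Isom} {ρ : ℝ} (l : PL η A) (hk : k • A = A)
    (sh : ∀ t, k • η t = η (t + ρ)) (hρ : 0 < ρ) (hw : H2 w)
    (pos : ∀ j : ℤ, 0 ≤ Bf h (k ^ j • w)) (t : ℝ) : 0 ≤ Bf h (η t) := by
  obtain ⟨X, Z, h1, h2⟩ := form2 l
  obtain ⟨xw, zw⟩ : X w < 0 ∧ Z w < 0 := by
    have q1 := one_le_ch hw (l.h2 0)
    have e3 := h2 w w
    rw [hw.1] at e3
    simp only [ch, h1, exp_zero, neg_zero, mul_one] at q1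
    have xz' : 0 < X w * Z w := by nlinarith only [e3]
    exact (mul_pos_iff.1 xz').resolve_left fun y => by linarith only [y.1, y.2, q1]
  have f : ∀ j : ℤ, Bf h (k ^ j • w) = Bf h A * Bf w A + (-2 * X h * Z w) * exp (j * ρ) +
      (-2 * X w * Z h) * exp (-(j * ρ)) := fun j => by
    have e : ∀ t, X (k ^ j • w) * exp t + Z (k ^ j • w) * exp (-t) =
        X w * exp (-(j * ρ)) * exp t + Z w * exp (j * ρ) * exp (-t) := fun t => by
      rw [← h1, Bf_move, ← zpow_neg, sh_zpow sh, h1, mul_assoc, mul_assoc, ← exp_add, ← exp_add]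
      push_cast
      ring_nf
    have e1 := e (log 1)
    have e2 := e (log 2)
    simp only [exp_neg (log _), exp_log one_pos, exp_log two_pos] at e1 e2
    rw [h2, Bf_move _ w A, ← zpow_neg, IsAx.zpow ⟨l.unit, hk⟩,
      (by linarith : X (k ^ j • w) = X w * exp (-(j * ρ))),
      (by linarith : Z (k ^ j • w) = Z w * exp (j * ρ))]
    ring
  simp only [f] at pos
  have x : 0 ≤ X h := by
    by_contra! d
    obtain ⟨n, hn⟩ := grow_aux (α := 2 * X h * Z w) (β := -(Bf h A * Bf w A))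
      (γ := 2 * X w * Z h) hρ (by nlinarith only [zw, d]) 0
    have := pos n
    push_cast at this
    linarith only [hn n le_rfl, this]
  have z : 0 ≤ Z h := by
    by_contra! d
    obtain ⟨n, hn⟩ := grow_aux (α := 2 * X w * Z h) (β := -(Bf h A * Bf w A))
      (γ := 2 * X h * Z w) hρ (by nlinarith only [xw, d]) 0
    have := pos (-n)
    push_cast at this
    rw [neg_mul (n : ℝ) ρ, neg_neg] at this
    linarith only [hn n le_rfl, this]
  rw [h1]; positivity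

/-- A line has a constant sign along a line that it does not cross. -/
lemma pos_along {A h x y : V} (hA : Bf A A = 1) (hh : Bf h h = 1) (c : ¬ Cr A h) (hx : H2 x)
    (hy : H2 y) (e : Bf h x = 0) (e' : Bf h y = 0) (a : 0 < Bf A x) : 0 < Bf A y := by
  obtain ⟨γ, l⟩ := exists_pl' hh
  obtain ⟨s, rfl⟩ := (l.mem x).1 ⟨hx, e⟩
  obtain ⟨t, rfl⟩ := (l.mem y).1 ⟨hy, e'⟩
  exact not_le.1 fun b => c (l.cr_of_le hA b a).symm

namespace Fu

variable {Γ : Type} [Group Γ] {S : Fu Γ} {L : Set V}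
  {r l m m' p p' A u l' n n' q q' l1 p1 p1' z z' E : V} {a x y : S.Cv} {c g k : Γ} {B B' : ℕ}
  {η γ : ℝ → V} {s t : ℝ}

/-- A parameter of the axis which is shifted forwards. -/
lemma exists_fwd (hc : c ≠ 1) (ax : IsAx (S.σ c) A) :
    ∃ η τ, PL η A ∧ 0 < τ ∧ ∀ t, S.σ c • η t = η (t + τ) := by
  obtain ⟨η, l⟩ := exists_pl' ax.1
  obtain ⟨ρ, h⟩ := shift l (Or.inl ax.2)
  rcases lt_trichotomy ρ 0 with a | rfl | a
  · exact ⟨_, -ρ, l.rev, neg_pos.2 a, fun t => by rw [h]; congr 1; ring⟩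
  · exact (hc (fix_pt (l.h2 0) (by simpa using h 0))).elim
  · exact ⟨η, ρ, l, a, h⟩

/-- Two bounding walls have disjoint intervals. -/
lemma Bd.disj (hL : S.Lam L) (h : Bd L r m) (h' : Bd L r n) (ne : n ≠ m) {a b a' b' : ℝ}
    (I : Iv η A m a b) (I' : Iv η A n a' b') : b < a' ∨ b' < a := by
  have key : ∀ {m n a b a' b'}, Bd L r m → Bd L r n → n ≠ m → Iv η A m a b → Iv η A n a' b' →
      (a < a' ∨ b' < a) ∧ (b < a' ∨ b' < b) := fun {m n a b a' b'} h h' ne I I' => by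
    obtain ⟨p, p1, p2⟩ := h.2.2
    have := I.ends_pos (((((hL.ax _ h.1).tri (hL.ax _ h'.1)).resolve_left
      (hL.nc _ h.1 _ h'.1)).resolve_left ne).resolve_left fun e => by
        have := h'.2.1
        rw [e, Bf_neg_left] at this
        linarith [h.2.1]) (hL.unit h'.1) p1.1 p2 (h.pos hL h'.1 h'.2.1 ne p1.1 p2)
    rwa [I'.pos_iff, I'.pos_iff] at this
  obtain ⟨x1 | x1, x2 | x2⟩ := key h h' ne I I' <;>
    obtain ⟨y1 | y1, y2 | y2⟩ := key h' h ne.symm I' I <;>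
    first | exact Or.inl (by assumption) | exact Or.inr (by assumption) |
      linarith [I.lt, I'.lt]

/-- The walk in coordinates along the gap line. -/
theorem Wk.coord (W : S.Wk L r l m m' p p' c g l1 p1 p1') (hL : S.Lam L) (ax : IsAx (S.σ c) A)
    (h0 : 0 < Bf A p) : ∃ η τ a0 b0 a1 b1 a2 b2 a3 b3, 0 < τ ∧ (∀ t, S.σ c • η t = η (t + τ)) ∧
      Iv η A l a0 b0 ∧ Iv η A m' a1 b1 ∧ Iv η A l1 a2 b2 ∧ Iv η A (S.σ c • m) a3 b3 ∧
      Iv η A m (a3 - τ) (b3 - τ) ∧ a3 - τ < a0 ∧ a0 < b3 - τ ∧ b3 - τ < a1 ∧ a1 < b0 ∧ b0 < b1 ∧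
      a1 < a2 ∧ a2 < b1 ∧ b1 < a3 ∧ a3 < b2 ∧ b2 < b3 := by
  obtain ⟨η, τ, P, hτ, sh⟩ := exists_fwd W.cne ax
  obtain ⟨w, mid, cw, sm⟩ := W.core hL
  have o := W.ch.off
  have c1 : ¬ Cr A l1 := by rcases W.l1_eq with rfl | rfl <;> simpa using W.ncF hL ax W.gst
  have h1 := pos_along ax.1 W.ch.unit (by simpa only [map_one, one_smul] using W.ncF hL ax (St.one o)) W.ch.cl.1 W.ch.cl'.1
    W.ch.lp W.ch.lp' h0
  have h2 := pos_along ax.1 (hL.unit W.ch.mem') (W.ncL hL ax W.ch.mem') W.ch.cl'.1 W.ch1.cl.1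
    W.ch.mp' W.ch1.mp h1
  have h3 := pos_along ax.1 W.ch1.unit c1 W.ch1.cl.1 W.ch1.cl'.1 W.ch1.lp W.ch1.lp' h2
  have w0 := mid.pos h1.le h2
  have wall : ∀ n ∈ L, 0 < Bf n r → ∀ j : ℤ, 0 ≤ Bf n (S.σ c ^ j • w) := fun n hn a j =>
    map_zpow S.σ c j ▸ ((W.zst hL j).cl hL o cw).2 n hn a
  obtain ⟨a0, b0, I0⟩ := iv_of_orbit P ax.2 sh hτ W.ch.unit cw.1 w0 (fun j => (pos_of_mul
    (by simpa only [map_one, one_smul] using sm 1 (St.one o) j) (mid.pos W.ch.lp'.ge W.f0).le).le) W.ch.cl.1 W.ch.lp h0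
  obtain ⟨a1, b1, I1⟩ := iv_of_orbit P ax.2 sh hτ (hL.unit W.ch.mem') cw.1 w0
    (wall _ W.ch.mem' W.ch.pos') W.ch.cl'.1 W.ch.mp' h1
  obtain ⟨a2, b2, I2⟩ := iv_of_orbit P ax.2 sh hτ W.ch1.unit cw.1 w0 (fun j => (pos_of_mul
    (by rcases W.l1_eq with rfl | rfl <;> simpa only [Bf_neg_left, mul_neg, neg_mul, neg_neg] using sm g W.gst j)
    (mid.symm.pos W.ch1.lp.ge W.f1).le).le) W.ch1.cl.1 W.ch1.lp h2
  obtain ⟨a3, b3, I3⟩ := iv_of_orbit P ax.2 sh hτ (hL.unit W.ch1.mem') cw.1 w0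
    (wall _ W.ch1.mem' W.ch1.pos') W.ch1.cl'.1 W.ch1.mp' h3
  have I4 : Iv η A m (a3 - τ) (b3 - τ) := by
    simpa [sub_eq_add_neg] using I3.smul (ax.zpow (-1)) (sh_zpow sh (-1))
  have d1 := W.ch.bd.disj hL W.ch.bd' W.ch.ne I4 I1
  have d2 := W.ch.bd'.disj hL W.ch1.bd' W.ch1.ne I1 I3
  have d3 := W.ch.bd.disj hL W.ch1.bd' (fun e => by
    rcases (S.hyp c W.cne).ax_unique ax ⟨hL.unit W.ch.mem, e⟩ with rfl | rfl
    exacts [h0.ne' W.ch.mp, h0.ne' (by simpa using W.ch.mp)]) I4 I3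
  have x1 := (I0.cr_iv I4).1 (W.ch.cr hL)
  have x2 := (I0.cr_iv I1).1 (W.ch.cr' hL)
  have x3 := (I2.cr_iv I1).1 (W.ch1.cr hL)
  have x4 := (I2.cr_iv I3).1 (W.ch1.cr' hL)
  have y1 : ¬ (a2 < a3 - τ ∧ b3 - τ < b2) := fun y => by
    have := I4.neg_of_ends W.ch.cl.1 W.ch.mp ((I2.neg_iff _).2 ⟨y.1, I4.lt.trans y.2⟩)
      ((I2.neg_iff _).2 ⟨y.1.trans I4.lt, y.2⟩)
    rcases W.pos hL 0 (u := l1) (Or.inr (by simp only [zpow_ofNat, pow_zero, map_one, one_smul])) W.ch.cl W.ch.lp with e | e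
    exacts [this.ne (e ▸ W.ch.lp), lt_asymm e this]
  have y2 : ¬ (a0 < a3 ∧ b3 < b0) := fun y => by
    have := I3.neg_of_ends (W.ch.cl.1.smul (S.σ c)) (by simpa using W.ch.mp)
      ((I0.neg_iff _).2 ⟨y.1, I3.lt.trans y.2⟩) ((I0.neg_iff _).2 ⟨y.1.trans I3.lt, y.2⟩)
    rw [Bf_move'] at this
    rcases W.pos hL (-1) (u := S.σ c⁻¹ • l) (Or.inl (by simp only [map_inv, Int.reduceNeg, zpow_neg, zpow_ofNat, pow_one])) W.ch.cl W.ch.lp with e | e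
    exacts [this.ne (by rw [e, W.ch.lp]), lt_asymm e this]
  refine ⟨η, τ, a0, b0, a1, b1, a2, b2, a3, b3, hτ, sh, I0, I1, I2, I3, I4, ?_⟩
  have := I0.lt; have := I1.lt; have := I2.lt; have := I3.lt
  have d3 := d3.resolve_right fun e => by linarith
  have d1 := d1.resolve_right fun e => y1 (by
    rcases x3 with x | x <;> rcases x4 with x' | x' <;> constructor <;> linarith only [x.1, x.2.1, x.2.2, x'.1, x'.2.1, this, d3, e])
  have d2 := d2.resolve_right fun e => y2 (by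
    rcases x1 with x | x <;> rcases x2 with x' | x' <;> constructor <;> linarith only [x.1, x.2.1, x.2.2, x'.1, x'.2.1, d3, e])
  have x2 := x2.resolve_right fun x => by rcases x1 with y | y <;> linarith only [x.1, y.1, y.2.1, this, d1]
  have x1 := x1.resolve_left fun x => by linarith only [x.2.2, x2.2.1, d1]
  have x4 := x4.resolve_right fun x => by rcases x3 with y | y <;> linarith only [x.1, y.1, y.2.1, d2, x2]
  have x3 := x3.resolve_left fun x => by linarith only [x.2.2, x4.2.1, d2]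
  exact ⟨x1.1, x1.2.1, d1, x2.2.1, x2.2.2, x3.1, x3.2.1, d2, x4.2.1, x4.2.2⟩

lemma seg_count (P : PL γ E) (st : s ≤ t) (x : S.Cv) :
    {F ∈ x.1 | Bf F (γ s) ≤ 0 ∧ 0 < Bf F (γ t)}.ncard ≤ (Pos x.1 γ E ∩ Ico s t).ncard := by
  have ex : ∀ F : V, ∃ v, F ∈ {F ∈ x.1 | Bf F (γ s) ≤ 0 ∧ 0 < Bf F (γ t)} →
      v ∈ Ico s t ∧ Bf F (γ v) = 0 := fun F => by
    by_cases h : F ∈ {F ∈ x.1 | Bf F (γ s) ≤ 0 ∧ 0 < Bf F (γ t)}
    · obtain ⟨v, v1, v2⟩ := P.ivt st (mul_nonpos_of_nonpos_of_nonneg h.2.1 h.2.2.le)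
      exact ⟨v, fun _ => ⟨⟨v1.1, v1.2.lt_of_ne fun e => h.2.2.ne' (e ▸ v2)⟩, v2⟩⟩
    · exact ⟨0, fun a => (h a).elim⟩
  choose f hf using ex
  refine ncard_le_ncard_of_injOn f (fun F h => ⟨⟨F, h.1, P.cr_of_le (x.unit h.1) h.2.1 h.2.2,
    (hf F h).2⟩, (hf F h).1⟩) (fun F h G h' e => ?_) (Pos_fin' x P s t)
  rcases x.eq_or h.1 h'.1 (P.h2 _) (hf F h).2 (e ▸ (hf G h').2) with rfl | rfl
  · rfl
  · exact absurd h'.2.2 (by simpa only [Bf_neg_left, Left.neg_pos_iff, not_lt] using h.2.2.le)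

lemma Ch.count (h : Ch L r l m m' p p') (hL : S.Lam L) (x : S.Cv) :
    {F ∈ x.1 | Bf F p ≤ 0 ∧ 0 < Bf F p'}.ncard ≤ NN L r l x := by
  obtain ⟨γ, a⟩ := h.pl
  obtain ⟨δ, s, t, a, rfl, rfl, st⟩ := h.par a
  rw [h.NN_eq hL a rfl rfl st]
  exact (seg_count a st.le x).trans (ncard_le_ncard
    (inter_subset_inter_right _ Ico_subset_Icc_self) (Pos_fin x a s t))

lemma Sg.count (h : S.Sg L r l n z z') (hB : LeP n x B) :
    {F ∈ x.1 | Bf F z ≤ 0 ∧ 0 < Bf F z'}.ncard ≤ B := by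
  obtain ⟨δ, α, τ, a, b, h1, rfl, rfl, h4, h5, -⟩ := h
  exact ((seg_count h1.pl h4.le x).trans (ncard_le_ncard
    (inter_subset_inter_right _ (Ico_subset_Ico_right h5)) (Pos_fin' x h1.pl _ _))).trans
    (hB δ α τ a h1)

lemma Ch.bdd (h : Ch L r l m m' p p') (hL : S.Lam L) :
    ∃ R, ∀ q, Cl L r q → Bf l q = 0 → ch o q ≤ R := by
  obtain ⟨γ, a⟩ := h.pl
  obtain ⟨δ, s, t, a, rfl, rfl, st⟩ := h.par a
  obtain ⟨R, hR⟩ := a.bdd s t
  refine ⟨R, fun q h1 h2 => ?_⟩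
  obtain ⟨v, rfl⟩ := (a.mem q).1 ⟨h1.1, h2⟩
  exact hR v ((h.cl_iff hL a rfl rfl st v).1 h1)

/-- Finitely many translates of a chord meet a chord. -/
lemma Ch.meet_fin (h : Ch L r l m m' p p') (hL : S.Lam L) (h' : Ch L r l' n n' q q') :
    {g | S.St L r g ∧ ∃ z, Cl L r z ∧ Bf l' z = 0 ∧ Bf (S.σ g • l) z = 0}.Finite := by
  obtain ⟨R, hR⟩ := h.bdd hL
  obtain ⟨R', hR'⟩ := h'.bdd hL
  refine (S.prop (2 * R' * R)).subset ?_
  rintro g ⟨h1, z, h2, h3, h4⟩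
  have a := hR _ ((h1.inv hL h.off).cl hL h.off h2) (by rwa [map_inv, ← Bf_move])
  have b := hR' z h2 h3
  rw [← ch_isom (S.σ g), map_inv, smul_inv_smul, ch_comm] at a
  refine (ch_tri H2_o h2.1 (H2_o.smul _)).trans ?_
  rw [ch_comm z o]
  have := one_le_ch H2_o h2.1
  have := one_le_ch h2.1 (H2_o.smul (S.σ g))
  gcongr
  linarith

lemma Ch.mm (h : Ch L r l1 m m' p p') (hL : S.Lam L) (h' : Ch L r l' n n' q q') (hg : S.St L r g)
    (e : l1 = S.σ g • l ∨ l1 = -(S.σ g • l)) :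
    {k | S.St L r k ∧ ∃ G, (G = l' ∨ G = -l') ∧ Bf G (S.σ k • p) ≤ 0 ∧
      0 < Bf G (S.σ k • p')}.ncard ≤ S.MM L r l' l := by
  have gi := hg.inv hL h.off
  have h0 : ∃ l0, (l0 = l ∨ l0 = -l) ∧ ∃ m m' p p', Ch L r l0 m m' p p' :=
    ⟨_, by rcases e with rfl | rfl <;> simp only [map_inv, inv_smul_smul, true_or, smul_neg, or_true], _, _, _, _, h.smul hL gi⟩
  obtain ⟨l0, e0, m0, m0', p0, p0', h0⟩ := h0
  refine ncard_le_ncard_of_injOn (· * g) ?_ (fun _ _ _ _ e => mul_right_cancel e)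
    ((h0.meet_fin hL h').subset fun k hk => ⟨hk.1, by
      rcases e0 with rfl | rfl <;> simpa only [Prod.exists, smul_neg, Bf_neg_left, neg_eq_zero] using hk.2.2⟩)
  rintro k ⟨k1, G, k2, k3, k4⟩
  have hk := h.smul hL k1
  obtain ⟨γ, a⟩ := hk.pl
  obtain ⟨δ, s, t, a, e1, e2, st⟩ := hk.par a
  rw [← e1] at k3
  rw [← e2] at k4
  have cr := a.cr_of_le (by rcases k2 with rfl | rfl <;> simpa using h'.unit) k3 k4
  obtain ⟨v, v1, v2⟩ := a.ivt st.le (mul_nonpos_of_nonpos_of_nonneg k3 k4.le)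
  have v3 := a.on v
  refine ⟨k1.mul hL h.off hg, ?_, δ v, (hk.cl_iff hL a e1 e2 st v).2 v1, ?_, ?_⟩
  · rcases k2 with rfl | rfl <;> rcases e with rfl | rfl <;> simpa [mul_smul] using cr.symm
  · rcases k2 with rfl | rfl <;> simpa using v2
  · rcases e with rfl | rfl <;> simpa [mul_smul] using v3

lemma Sg.two (h : S.Sg L r l m z z') (hL : S.Lam L) (hm : Bd L r m) (h' : Ch L r l' n n' q q') :
    {k | S.St L r k ∧ ∃ G, (G = l' ∨ G = -l') ∧ Bf G (S.σ k • z) ≤ 0 ∧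
      0 < Bf G (S.σ k • z')}.ncard ≤ 2 := by
  obtain ⟨δ, α, τ, a, b, h1, rfl, rfl, h4, h5, -⟩ := h
  have sub : ∀ q n : V, {k | S.σ k • m = n ∧ ∃ v ∈ Ico a b, S.σ k • δ v = q}.Subsingleton := by
    rintro q n k ⟨k1, v, k2, k3⟩ k' ⟨k1', v', k2', k3'⟩
    obtain ⟨j, hj⟩ := h1.gen (k'⁻¹ * k) (Or.inl (by
      rw [map_mul, mul_smul, k1, map_inv, inv_smul_eq_iff, k1']))
    have e : δ (v + j * τ) = δ v' := by
      rw [← h1.zsh, ← hj, map_mul, mul_smul, k3, map_inv, inv_smul_eq_iff, k3']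
    have := h1.pl.inj e
    obtain rfl := int_eq_zero h1.pos (k := j) (by linarith [k2.2, k2'.1]) (by linarith [k2.1, k2'.2])
    exact (inv_mul_eq_one.1 (by simpa only [zpow_ofNat, pow_zero] using hj)).symm
  refine (ncard_le_ncard ?_ ((sub q n).finite.union (sub q' n').finite)).trans
    ((ncard_union_le _ _).trans (add_le_add ((ncard_le_one (sub q n).finite).2 (sub q n))
      ((ncard_le_one (sub q' n').finite).2 (sub q' n'))))
  rintro k ⟨k1, G, k2, k3, k4⟩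
  have P := h1.pl.smul (S.σ k)
  obtain ⟨v, v1, v2⟩ := P.ivt h4.le (mul_nonpos_of_nonpos_of_nonneg k3 k4.le)
  have v3 : v ∈ Ico a b := ⟨v1.1, v1.2.lt_of_ne fun e => k4.ne' (e ▸ v2)⟩
  have bd := hm.smul hL h'.off k1
  obtain ⟨γ, c⟩ := h'.pl
  exact (h'.foot hL c (bd.cl hL (P.h2 v) (P.on v))
    (by rcases k2 with rfl | rfl <;> simpa using v2) bd.1 bd.2.1 (P.on v)).imp
    (fun e => ⟨e.2, v, v3, e.1⟩) fun e => ⟨e.2, v, v3, e.1⟩

lemma four {x0 x1 x2 x3 x4 : ℝ} (h : x0 ≤ 0) (h' : 0 < x4) : ((x0 ≤ 0 ∧ 0 < x1) ∨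
    (x1 ≤ 0 ∧ 0 < x2)) ∨ (x2 ≤ 0 ∧ 0 < x3) ∨ (x3 ≤ 0 ∧ 0 < x4) := by
  by_cases a : 0 < x1
  · exact Or.inl (Or.inl ⟨h, a⟩)
  by_cases b : 0 < x2
  · exact Or.inl (Or.inr ⟨not_lt.1 a, b⟩)
  by_cases c : 0 < x3
  exacts [Or.inr (Or.inl ⟨not_lt.1 b, c⟩), Or.inr (Or.inr ⟨not_lt.1 c, h'⟩)]

lemma sep_grp (hp : H2 z) (hq : H2 z') (hL : S.Lam L) (h' : Ch L r l' n n' q q')
    (c : Cl L r z) (c' : Cl L r z') : {k | S.St L r k ∧ ∃ G, (G = l' ∨ G = -l') ∧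
      Bf G (S.σ k • z) ≤ 0 ∧ 0 < Bf G (S.σ k • z')}.Finite := by
  obtain ⟨R, hR⟩ := h'.bdd hL
  refine (S.proper H2_o hp (2 * R * ch z z')).subset ?_
  rintro k ⟨k1, G, k2, k3, k4⟩
  have c1 := k1.cl hL h'.off c
  have c2 := k1.cl hL h'.off c'
  obtain ⟨_, rfl, -, -, x, y, x0, y0, w1, w2, -⟩ := first_line (T := {G}) c2.1 c1.1
    ((finite_singleton G).subset fun _ h => h.1) rfl k4 k3
  have w3 := hR _ (conv_pt c2 c1 x0 y0.le w1) (by
    rcases k2 with rfl | rfl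
    exacts [w2, neg_eq_zero.1 (Bf_neg_left _ _ ▸ w2)])
  have w4 : ch (x • S.σ k • z' + y • S.σ k • z) (S.σ k • z) ≤ ch z z' := by
    have e := w1.1
    have e1 := one_le_ch hp hq
    simp only [ch, Bf_add_left, Bf_add_right, Bf_smul_left, Bf_smul_right, Bf_isom, hp.1, hq.1,
      Bf_comm z' z] at e e1 ⊢
    have e2 := mul_nonneg (mul_nonneg x0 y0.le) (by linarith : 0 ≤ -Bf z z' - 1)
    have : x + y ≤ 1 := by nlinarith only [e, e2]
    nlinarith only [y0, e1, this]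
  refine (ch_tri H2_o w1 c1.1).trans ?_
  rw [ch_comm _ o]
  have := one_le_ch H2_o w1
  have := one_le_ch w1 c1.1
  gcongr
  linarith

namespace Gap

variable (G : S.Gap L r l m m' p p' A) (hL : S.Lam L)
include G

lemma ch : Ch L r l m m' p p' := by obtain ⟨c, g, l1, p1, p1', W, -⟩ := G; exact W.ch

lemma ax : S.Ax A := by obtain ⟨c, g, l1, p1, p1', W, h, -⟩ := G; exact ⟨c, W.cne, h⟩

lemma pos : 0 < Bf A p := by obtain ⟨c, g, l1, p1, p1', -, -, h⟩ := G; exact h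

include hL

theorem ncL (hn : n ∈ L) : ¬ Cr A n := by
  obtain ⟨c, g, l1, p1, p1', W, h, -⟩ := G; exact W.ncL hL h hn

theorem cl (hq : H2 q) (e : Bf A q = 0) : Cl L r q := by
  obtain ⟨c, g, l1, p1, p1', W, ax, -⟩ := G
  obtain ⟨η, τ, P, hτ, sh⟩ := exists_fwd W.cne ax
  obtain ⟨w, -, cw, -⟩ := W.core hL
  obtain ⟨t, rfl⟩ := (P.mem q).1 ⟨hq, e⟩
  exact ⟨hq, fun n hn a => nonneg_of_orbit P ax.2 sh hτ cw.1
    (fun j => map_zpow S.σ c j ▸ ((W.zst hL j).cl hL W.ch.off cw).2 n hn a) t⟩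

theorem ncF (hg : S.St L r g) : ¬ Cr A (S.σ g • l) := by
  obtain ⟨c, g, l1, p1, p1', W, h, -⟩ := G; exact W.ncF hL h hg

theorem pocket (hu : Bf u u = 1) (h : Cr A u) :
    (∃ n ∈ L, Cr u n) ∨ ∃ g, S.St L r g ∧ Cr u (S.σ g • l) := by
  obtain ⟨c, g, l1, p1, p1', W, ax, h0⟩ := G
  obtain ⟨η, τ, a0, b0, a1, b1, a2, b2, a3, b3, hτ, sh, I0, I1, I2, I3, -, -, o2, -, o4, -, -, o7,
    -, o9, -⟩ := W.coord hL ax h0
  obtain ⟨Q, hQ⟩ := exists_x I0.pl hu h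
  obtain ⟨j, j1, j2⟩ := exists_mem_Ico hτ (b3 - τ) Q
  have u' : Bf (S.σ c ^ j • u) (S.σ c ^ j • u) = 1 := by simpa
  have c' : Cr A (S.σ c ^ j • u) := by rwa [← ax.zpow j, cr_isom]
  have e' := (x_smul (ax.zpow j) (sh_zpow sh j) u Q).trans hQ
  have key : ∀ {h a b}, Iv η A h a b → a < Q + j * τ → Q + j * τ < b →
      Cr u (S.σ (c ^ j)⁻¹ • h) := fun I x y => by
    rw [map_inv, ← cr_move, map_zpow]
    exact ((I.cr_x u' c' e').2 ⟨x, y⟩).symm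
  have st := (W.zst hL j).inv hL W.ch.off
  by_cases x1 : Q + j * τ ≤ a1
  · exact Or.inr ⟨_, st, key I0 (by linarith) (by linarith only [o4, x1])⟩
  by_cases x2 : Q + j * τ < b1
  · exact Or.inl ⟨_, hL.smul _ W.ch.mem' _, key I1 (not_le.1 x1) x2⟩
  by_cases x3 : Q + j * τ ≤ a3
  · refine Or.inr ⟨_, st.mul hL W.ch.off W.gst, ?_⟩
    have := key I2 (by linarith only [o7, x2]) (by linarith)
    rw [map_mul, mul_smul]
    rcases W.l1_eq with rfl | rfl <;> simpa only [map_inv, map_zpow, smul_neg, cr_neg_right] using this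
  · exact Or.inl ⟨_, hL.smul _ W.ch1.mem' _, key I3 (not_le.1 x3) (by linarith only [j2])⟩

/-- A translate of the gap line through a point of the region comes from the stabiliser. -/
lemma st (hA : A ∉ L) (hq : Cl L r q) (e : Bf (S.σ g • A) q = 0) : S.St L r g := by
  rw [Bf_move, ← map_inv] at e
  exact St.of_off hL G.ch.off (hL.off G.ax hA (fun _ => G.ncL hL) (hq.1.smul _) e)
    (G.cl hL (hq.1.smul _) e) (by simpa only [map_inv, smul_inv_smul] using hq)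

theorem simple (g : Γ) : ¬ Cr A (S.σ g • A) := fun h => by
  by_cases hA : A ∈ L
  · exact hL.nc _ hA _ (hL.smul _ hA g) h
  have u : Bf (S.σ g • A) (S.σ g • A) = 1 := by simpa using G.ax.unit
  obtain ⟨q, q1, q2, q3⟩ := exists_inter G.ax.unit u h
  have st := G.st hL hA (G.cl hL q1 q2) q3
  rcases G.pocket hL u h with ⟨n, h1, h2⟩ | ⟨k, h1, h2⟩ <;> rw [cr_move, ← map_inv] at h2
  · exact G.ncL hL (hL.smul n h1 _) h2
  · rw [← mul_smul, ← map_mul] at h2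
    exact G.ncF hL ((st.inv hL G.ch.off).mul hL G.ch.off h1) h2

theorem dis (ha : A ∈ a.1) (h : ∀ F ∈ x.1, ∀ n ∈ L, ¬ Cr F n) (h' : KK L r l x = ∅) :
    i a x = 0 := by
  by_contra c
  obtain ⟨F, f1, f2⟩ := exists_cr c ha
  obtain ⟨k, h1, h2⟩ := (G.pocket hL (x.unit f1) f2).resolve_left fun ⟨n, a, b⟩ => h F f1 n a b
  obtain ⟨q, q1, q2, q3⟩ := exists_inter G.ax.unit (x.unit f1) f2
  obtain ⟨z, z1, z2, z3⟩ := exists_inter (x.unit f1) (by simpa using G.ch.unit) h2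
  have := hL.cl_of (x.ax f1) (fun b => G.ncL hL b f2) (h F f1) (G.cl hL q1 q2) q3 z1 z2
  refine eq_empty_iff_forall_notMem.1 h' (S.σ k⁻¹ • z) ⟨(h1.inv hL G.ch.off).cl hL G.ch.off this,
    by rwa [map_inv, ← Bf_move], _, x.smul_mem f1 k⁻¹, ?_, by simpa only [map_inv, Bf_isom]⟩
  rw [map_inv, ← cr_move]
  exact h2.symm

theorem le (ha : A ∈ a.1) (h : LeP m x B) (h' : LeP m' x B') :
    i a x ≤ 2 * NN L r l x + B + B' := by
  obtain ⟨c, g, l1, p1, p1', W, ax, h0⟩ := G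
  have fin : ∀ z z', H2 z → H2 z' → {F ∈ x.1 | Bf F z ≤ 0 ∧ 0 < Bf F z'}.Finite :=
    fun z z' a b => (x.sep_fin a b).subset fun F hF =>
      ⟨hF.1, mul_nonpos_of_nonpos_of_nonneg hF.2.1 hF.2.2.le⟩
  have n1 := W.ch.count hL x
  have n2 := W.sg0.count h'
  have n3 := W.ch1.count hL x
  have n4 := W.sg1.count (h.smul c)
  have e : NN L r l1 x = NN L r l x := by
    rcases W.l1_eq with rfl | rfl
    exacts [NN_smul hL W.ch.off W.gst x, (NN_neg x).trans (NN_smul hL W.ch.off W.gst x)]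
  refine (i_le_wall ha W.cne ax.2 W.ch.cl.1 x).trans ((ncard_le_ncard ?_
    (((fin _ _ W.ch.cl.1 W.ch.cl'.1).union (fin _ _ W.ch.cl'.1 W.ch1.cl.1)).union
      ((fin _ _ W.ch1.cl.1 W.ch1.cl'.1).union
        (fin _ _ W.ch1.cl'.1 (W.ch.cl.1.smul (S.σ c)))))).trans ((ncard_union_le _ _).trans
    ((add_le_add (ncard_union_le _ _) (ncard_union_le _ _)).trans (by omega))))
  rintro F ⟨f1, -, f2, f3⟩
  exact (four f2 f3).imp (.imp (⟨f1, ·⟩) (⟨f1, ·⟩)) (.imp (⟨f1, ·⟩) (⟨f1, ·⟩))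

theorem cnt (ha : A ∈ a.1) (hA : A ∉ L) (h : Ch L r l' n n' q q') :
    NN L r l' a ≤ 2 * S.MM L r l' l + 4 := by
  obtain ⟨c, g, l1, p1, p1', W, ax, h0⟩ := id G
  have o := h.off
  have n1 := W.ch.mm (l := l) hL h (St.one o) (Or.inl (by simp only [map_one, one_smul]))
  have n2 := W.sg0.two hL W.ch.bd' h
  have n3 := W.ch1.mm hL h W.gst W.l1_eq
  have n4 := W.sg1.two hL W.ch1.bd' h
  have c4 := W.cst.cl hL o W.ch.cl
  have fin := ((sep_grp W.ch.cl.1 W.ch.cl'.1 hL h W.ch.cl W.ch.cl').union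
    (sep_grp W.ch.cl'.1 W.ch1.cl.1 hL h W.ch.cl' W.ch1.cl)).union
    ((sep_grp W.ch1.cl.1 W.ch1.cl'.1 hL h W.ch1.cl W.ch1.cl').union
      (sep_grp W.ch1.cl'.1 c4.1 hL h W.ch1.cl' c4))
  have ex : ∀ z, ∃ k, z ∈ KK L r l' a → S.St L r k ∧ Cr l' (S.σ k • A) ∧ Bf (S.σ k • A) z = 0 ∧
      ∃ E, (E = l' ∨ E = -l') ∧ Bf E (S.σ k • p) ≤ 0 ∧ 0 < Bf E (S.σ k • S.σ c • p) := fun z => by
    by_cases hz : z ∈ KK L r l' a
    swap
    · exact ⟨1, fun a => (hz a).elim⟩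
    obtain ⟨z1, z2, F, f1, f2, f3⟩ := hz
    obtain ⟨k, hk⟩ := a.exists_smul ha f1
    have k1 : Cr l' (S.σ k • A) := by rcases hk with rfl | rfl <;> simpa using f2
    have k2 : Bf (S.σ k • A) z = 0 := by rcases hk with rfl | rfl <;> simpa using f3
    obtain ⟨j, E, e1, e2, e3⟩ := wall_aux (S.hyp c W.cne) ax (F := S.σ k⁻¹ • l')
      (by simpa only [map_inv, Bf_isom] using h.unit) (by rw [map_inv, ← cr_move]; exact k1.symm) W.ch.cl.1
    have e : S.σ (k * c ^ j) • A = S.σ k • A := by rw [map_mul, mul_smul, map_zpow, ax.zpow]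
    refine ⟨k * c ^ j, fun _ => ⟨(G.st hL hA z1 k2).mul hL o (W.zst hL j), e ▸ k1, e ▸ k2,
      S.σ k • E, by rcases e1 with rfl | rfl <;> simp, by simpa only [map_mul, map_zpow, mul_smul, Bf_isom] using e2, ?_⟩⟩
    simpa [mul_smul, zpow_add_one] using e3
  choose f hf using ex
  refine (ncard_le_ncard_of_injOn f (fun z hz => ?_) (fun z hz z' hz' e => ?_) fin).trans
    ((ncard_union_le _ _).trans ((add_le_add (ncard_union_le _ _) (ncard_union_le _ _)).trans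
      (by omega)))
  · obtain ⟨k1, -, -, E, e1, e2, e3⟩ := hf z hz
    exact (four e2 e3).imp (.imp (⟨k1, E, e1, ·⟩) (⟨k1, E, e1, ·⟩))
      (.imp (⟨k1, E, e1, ·⟩) (⟨k1, E, e1, ·⟩))
  · obtain ⟨-, k2, k3, -⟩ := hf z hz
    obtain ⟨-, -, k4, -⟩ := hf z' hz'
    exact eq_of_cr h.unit (by simpa using ax.1) k2 hz.1.1 hz'.1.1 (hz.2.1.trans hz'.2.1.symm)
      (k3.trans (e ▸ k4).symm)

end Gap

theorem MM_le (hL : S.Lam L) (h : Ch L r l m m' p p') (h' : Ch L r l' n n' q q') (hl : l ∈ y.1) :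
    S.MM L r l' l ≤ NN L r l' y := by
  have ex : ∀ g, ∃ z, g ∈ {g | S.St L r g ∧ Cr l' (S.σ g • l) ∧
      ∃ q, Cl L r q ∧ Bf l' q = 0 ∧ Bf (S.σ g • l) q = 0} →
      Cl L r z ∧ Bf l' z = 0 ∧ Bf (S.σ g • l) z = 0 := fun g => by
    by_cases hg : ∃ q, Cl L r q ∧ Bf l' q = 0 ∧ Bf (S.σ g • l) q = 0
    exacts [hg.imp fun _ a _ => a, ⟨o, fun a => (hg a.2.2).elim⟩]
  choose f hf using ex
  obtain ⟨γ, a⟩ := h.pl
  obtain ⟨γ', a'⟩ := h'.pl
  refine ncard_le_ncard_of_injOn f (fun g hg => ⟨(hf g hg).1, (hf g hg).2.1, _, y.smul_mem hl g,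
    hg.2.1, (hf g hg).2.2⟩) (fun g hg k hk e => ?_) (h'.KK_fin hL a' y)
  refine inv_mul_eq_one.1 (h.fix hL a ((hg.1.inv hL h.off).mul hL h.off hk.1) ?_)
  simpa only [map_mul, map_inv, mul_smul, inv_smul_eq_iff, smul_neg] using
    y.eq_or (y.smul_mem hl g) (y.smul_mem hl k) (hf g hg).1.1 (hf g hg).2.2 (e ▸ (hf k hk).2.2)

end Fu

end Pool.Agent.MP_646035_al.H84
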