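import Pool.Agent.MP_4a6971_al.Mg.H66_CurveDefs
import Pool.Agent.MP_646035_al.Mg.Geo27_Dt
import Pool.Agent.MP_646035_al.Mg.H84_GGap

attribute [-instance] Prod.instSMul Prod.mulAction AddQuantale.instAddLeftMono
  CommGroup.toDivisionCommMonoid NonUnitalRingHomClass.toMulHomClass Prod.distribSMul
  IdemSemiring.toCanonicallyOrderedAdd NumberField.to_charZero AddQuantale.instAddRightMono
  MonTypeEquivalenceMon.monMonoid NonUnitalAlgSemiHomClass.toMulHomClass Semiring.toMonoid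
  SemigroupWithZero.toSemigroup AddSubmonoidClass.toAddCommMonoid Quantale.instMulRightMono
  littleWedderburn IdemSemiring.toMulLeftMono GroupConeClass.toSubmonoidClass CommSemiring.toSemiring
  LinearOrderedCommMonoidWithZero.toPosMulStrictMono IsOrderedMonoid.toMulLeftMono
  Quantale.instMulLeftMono

-- part MP_646035_al.Geo27.Xi
section

/-!
A cocompact group has boundedly many orbits on an invariant, locally finite family of pairwise
non-crossing lines.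
-/

namespace Pool.Agent.MP_646035_al.Geo27

open Pool.Agent.MP_4a6971_al.H66

/-- Every line can be moved to the standard axis. -/
theorem exists_frame0 {E : V} (hE : Bf E E = 1) : ∃ f : Isom, f • E = E0 := by
  obtain ⟨a, b, c⟩ := E
  simp only [Bf] at hE
  by_cases ha : a = 0
  · subst ha
    obtain ⟨f, hf⟩ := exists_isom (α := 1) (β := -c / 2) (γ := 0) (δ := b) (by linarith)
    refine ⟨f, ?_⟩
    rw [hf, act_apply, E0]
    ext <;> simp only
    · ring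
    · linarith
    · ring
  · obtain ⟨f, hf⟩ := exists_isom (α := (-b + 1) / a) (β := -(-b - 1) / 2) (γ := 1) (δ := -a / 2)
      (by field_simp; ring)
    refine ⟨f, ?_⟩
    obtain rfl : c = (b ^ 2 - 1) / a := by field_simp; linarith
    rw [hf, act_apply, E0]
    ext <;> simp only <;> field_simp <;> ring

theorem causal_aux {D P : V} (hD : Bf D D ≤ 0) (h : 0 < D.1 + D.2.2) (hP : H2 P) : Bf D P < 0 := by
  have e := hP.eq
  have h1 := hP.2
  have h2 := hP.pos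
  obtain ⟨x, y, z⟩ := D
  obtain ⟨a, b, c⟩ := P
  simp only [Bf] at *
  have hx : 0 ≤ x := by nlinarith only [sq_nonneg y, hD, h]
  have hz : 0 ≤ z := by nlinarith only [sq_nonneg y, hD, h]
  have hS : 0 < x * c + a * z := by
    rcases hx.lt_or_eq with h3 | h3
    · positivity
    · have : 0 < z := by linarith only [h, h3]
      positivity
  by_contra! h3
  have h4 : (x * c + a * z) ^ 2 ≤ (2 * (y * b)) ^ 2 := by gcongr; linarith only [h3]
  have h5 : 4 * (x * z) * (1 + b ^ 2) ≤ (x * c + a * z) ^ 2 := by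
    rw [← e]; linarith only [sq_nonneg (x * c - a * z)]
  have h6 : 4 * (y * y) * (1 + b ^ 2) ≤ 4 * (x * z) * (1 + b ^ 2) :=
    mul_le_mul_of_nonneg_right (by linarith only [hD]) (by positivity)
  have h7 : y = 0 := mul_self_eq_zero.1 (le_antisymm (by linarith only [h4, h5, h6]) (mul_self_nonneg y))
  rw [h7] at h3
  linarith only [hS, h3]

/-- A non-zero causal vector pairs with all points with the same sign. -/
theorem causal {D : V} (hD : Bf D D ≤ 0) (h : D ≠ 0) :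
    (∀ P, H2 P → Bf D P < 0) ∨ ∀ P, H2 P → 0 < Bf D P := by
  rcases lt_trichotomy 0 (D.1 + D.2.2) with a | a | a
  · exact Or.inl fun P hP => causal_aux hD a hP
  · exfalso
    apply h
    obtain ⟨x, y, z⟩ := D
    simp only [Bf] at *
    have hz : z = -x := by linarith only [a]
    subst hz
    have hx : x = 0 := by nlinarith only [sq_nonneg y, hD]
    have hy : y = 0 := by nlinarith only [sq_nonneg x, hD]
    simp [hx, hy]
  · refine Or.inr fun P hP => ?_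
    have := causal_aux (D := -D) (by simpa using hD) (by simp; linarith) hP
    simpa using this

/-- A causal form that is negative somewhere is non-positive everywhere. -/
theorem causal_ev {D : V} (hD : Bf D D ≤ 0) {x : ℝ} (h : ev D x < 0) :
    D.1 + D.2.2 < 0 ∧ ev D 1 ≤ 0 := by
  obtain ⟨a, b, c⟩ := D
  simp only [Bf, ev] at *
  have h1 : a ≤ 0 := by
    by_contra! h1
    linarith only [sq_nonneg (a * x + b), mul_pos h1 (neg_pos.2 h), hD]
  have h2 : c ≤ 0 := by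
    by_contra! h2
    linarith only [sq_nonneg (b * x + c), mul_pos h2 (neg_pos.2 h), sq_nonneg x, mul_nonneg (sq_nonneg x) (show 0 ≤ a * c - b * b by linarith only [hD])]
  have h3 : a + c < 0 := by
    by_contra! h3
    have ha : a = 0 := by linarith only [h1, h2, h3]
    have hc : c = 0 := by linarith only [h1, h2, h3]
    have hb : b = 0 := by rw [ha, hc] at hD; nlinarith only [hD]
    simp [ha, hb, hc] at h
  refine ⟨h3, ?_⟩
  by_contra! h4
  nlinarith only [sq_nonneg (a - c), hD, h3, h4]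

theorem exists_end (L : Set V) (hu : ∀ E ∈ L, Bf E E = 1) (hn : ∀ E ∈ L, ∀ F ∈ L, ¬ Cr E F)
    (h0 : E0 ∈ L) (hf : ∀ M, {G ∈ L | |Bf G o| ≤ M}.Finite) :
    ∃ x, 0 < x ∧ ∀ G ∈ L, 0 ≤ (G.1 * x ^ 2 + G.2.2) * ev G x := by
  have hac : ∀ G ∈ L, 0 ≤ G.1 * G.2.2 := fun G hG => by
    have h1 := hn _ h0 _ hG
    have h2 := hu _ hG
    rw [Cr, Bf_E0] at h1
    simp only [Bf] at h2
    linarith only [h1, h2]
  by_cases h1 : ∀ G ∈ L, 0 ≤ (G.1 * 1 ^ 2 + G.2.2) * ev G 1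
  · exact ⟨1, one_pos, h1⟩
  push Not at h1
  obtain ⟨G0, hG0, h1⟩ := h1
  obtain ⟨F, ⟨⟨hF, -⟩, hF1⟩, hmin⟩ := Set.exists_min_image
    ({G ∈ L | |Bf G o| ≤ |Bf G0 o|} ∩ {G | (G.1 * 1 ^ 2 + G.2.2) * ev G 1 < 0})
    (fun G => |Bf G o|) ((hf _).inter_of_left _) ⟨G0, ⟨hG0, le_rfl⟩, h1⟩
  have hmin' : ∀ G ∈ L, (G.1 * 1 ^ 2 + G.2.2) * ev G 1 < 0 → |Bf F o| ≤ |Bf G o| := by
    intro G hG h
    by_cases h2 : |Bf G o| ≤ |Bf G0 o|
    · exact hmin G ⟨⟨hG, h2⟩, h⟩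
    · exact (hmin G0 ⟨⟨hG0, le_rfl⟩, h1⟩).trans (not_le.1 h2).le
  have norm : ∀ G ∈ L, ∀ x, (G.1 * x ^ 2 + G.2.2) * ev G x < 0 → ∃ G' : V, (G' = G ∨ G' = -G) ∧
      0 ≤ G'.1 ∧ 0 ≤ G'.2.2 ∧ ev G' x < 0 := by
    intro G hG x h
    have h2 := hac G hG
    rcases mul_neg_iff.1 h with ⟨a, b⟩ | ⟨a, b⟩
    · refine ⟨G, Or.inl rfl, ?_, ?_, b⟩ <;> by_contra! h3
      · have : 0 < G.2.2 := by nlinarith only [a, h3]
        nlinarith only [h2, h3, this]
      · have : 0 < G.1 := by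
          by_contra! h4
          nlinarith only [a, h3, h4]
        nlinarith only [h2, a, h3]
    · refine ⟨-G, Or.inr rfl, ?_, ?_, by rw [ev_neg]; linarith⟩ <;> by_contra! h3 <;>
        simp only [Prod.fst_neg, Prod.snd_neg, Left.neg_neg_iff] at h3
      · have : G.2.2 < 0 := by nlinarith only [a, h3]
        nlinarith only [h2, h3, this]
      · have : G.1 < 0 := by
          by_contra! h4
          nlinarith only [a, h3, h4]
        nlinarith only [h2, a, h3]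
  obtain ⟨F', hF', fa, fc, fe⟩ := norm F hF 1 hF1
  have uF : Bf F' F' = 1 := by rcases hF' with rfl | rfl <;> simpa using hu _ hF
  have fp : 0 < F'.1 + F'.2.2 := by
    by_contra! h
    have ha : F'.1 = 0 := by linarith
    have hc : F'.2.2 = 0 := by linarith
    rcases hF' with rfl | rfl
    · simp [ha, hc] at hF1
    · simp only [Prod.fst_neg, Prod.snd_neg, neg_eq_zero] at ha hc
      simp [ha, hc] at hF1
  obtain ⟨x, hx, ex⟩ : ∃ x, 0 < x ∧ ev F' x = 0 := by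
    have hb : F'.2.1 < 0 := by simp only [ev] at fe; linarith only [fe, fp]
    simp only [Bf] at uF
    rcases fa.lt_or_eq with h | h
    · refine ⟨(-F'.2.1 + 1) / F'.1, div_pos (by linarith only [hb]) h, ?_⟩
      simp only [ev]
      field_simp
      linear_combination (-1 : ℝ) * uF
    · refine ⟨F'.2.2 / (-2 * F'.2.1), div_pos (by linarith only [fp, h]) (by linarith only [hb]), ?_⟩
      have := hb.ne
      simp only [ev, ← h]
      field_simp
      ring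
  refine ⟨x, hx, fun G hG => ?_⟩
  by_contra! h
  obtain ⟨G', hG', ga, gc, ge⟩ := norm G hG x h
  have uG : Bf G' G' = 1 := by rcases hG' with rfl | rfl <;> simpa using hu _ hG
  have nc : 1 ≤ Bf G' F' ^ 2 := by
    have := not_lt.1 (hn _ hG _ hF)
    rcases hG' with rfl | rfl <;> rcases hF' with rfl | rfl <;> simpa only [one_le_sq_iff_one_le_abs, ge_iff_le, Bf_neg_right, even_two, Even.neg_pow, Bf_neg_left, neg_neg] using this
  have add : ∀ A B : V, ∀ r, ev (A + B) r = ev A r + ev B r := fun A B r => by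
    simp only [ev, Prod.fst_add, Prod.snd_add]; ring
  rcases le_or_gt 0 (Bf G' F') with s | s
  · have s1 : 1 ≤ Bf G' F' := by nlinarith only [nc, s]
    obtain ⟨c1, c2⟩ := causal_ev (D := G' + -F') (x := x)
      (by simp only [Bf_add_right, Bf_add_left, uG, Bf_neg_left, Bf_comm F' G', Bf_neg_right, uF, neg_add_rev, neg_neg, add_self_nonpos_iff, add_neg_le_iff_le_add, zero_add]; linarith only [s1]) (by rw [add, ev_neg]; linarith only [ex, ge])
    rw [add, ev_neg] at c2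
    simp only [Prod.fst_add, Prod.snd_add, Prod.fst_neg, Prod.snd_neg] at c1
    have gp : 0 < G'.1 + G'.2.2 := by
      by_contra! h2
      have ha : G'.1 = 0 := by linarith only [ga, gc, h2]
      have hc : G'.2.2 = 0 := by linarith only [ga, gc, h2]
      rcases hG' with rfl | rfl
      · simp [ha, hc] at h
      · simp only [Prod.fst_neg, Prod.snd_neg, neg_eq_zero] at ha hc
        simp [ha, hc] at h
    have h3 : (G'.1 * 1 ^ 2 + G'.2.2) * ev G' 1 < 0 :=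
      mul_neg_of_pos_of_neg (by linarith only [gp]) (by linarith only [fe, c2])
    have h4 := hmin' G hG (by
      rcases hG' with rfl | rfl
      · exact h3
      · simp only [ev_neg, Prod.fst_neg, Prod.snd_neg] at h3
        linarith only [h3])
    have h5 : |Bf F' o| ≤ |Bf G' o| := by
      rcases hG' with rfl | rfl <;> rcases hF' with rfl | rfl <;> simpa using h4
    simp only [Bf, o] at h5
    rw [abs_of_nonpos (by linarith only [c1, gp]), abs_of_nonpos (by linarith only [gp])] at h5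
    linarith only [c1, h5]
  · have s1 : Bf G' F' ≤ -1 := by nlinarith only [nc, s]
    obtain ⟨c1, -⟩ := causal_ev (D := G' + F') (x := x)
      (by simp [Bf_comm F' G', uF, uG]; linarith only [s1]) (by rw [add]; linarith)
    simp only [Prod.fst_add, Prod.snd_add] at c1
    linarith

theorem exists_pt0 (L : Set V) (hu : ∀ E ∈ L, Bf E E = 1) (hn : ∀ E ∈ L, ∀ F ∈ L, ¬ Cr E F)
    (h0 : E0 ∈ L) (hf : ∀ M, {G ∈ L | |Bf G o| ≤ M}.Finite) :
    ∃ p, H2 p ∧ Bf E0 p = -(5 / 12) ∧ ∀ G ∈ L, 5 / 12 ≤ |Bf G p| ∧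
      ∀ q, H2 q → Bf E0 q = 0 → 0 < Bf G q → 0 < Bf G p := by
  obtain ⟨x, hx, h⟩ := exists_end L hu hn h0 hf
  refine ⟨(13 / (12 * x), -(5 / 12), 13 * x / 12), H2.of_eq (by field_simp; norm_num)
    (by positivity), by rw [Bf_E0], fun G hG => ?_⟩
  have h1 := h G hG
  have h2 := hu G hG
  have h3 := not_lt.1 (hn _ h0 _ hG)
  rw [Bf_E0] at h3
  obtain ⟨a, b, c⟩ := G
  simp only [Bf, ev] at *
  have e : b * -(5 / 12) - (a * (13 * x / 12) + 13 / (12 * x) * c) / 2 =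
      -(5 * (a * x ^ 2 + 2 * b * x + c) + 8 * (a * x ^ 2 + c)) / (24 * x) := by
    field_simp; ring
  rw [e]
  constructor
  · rw [abs_div, abs_neg, abs_of_pos (by positivity : 0 < 24 * x), le_div_iff₀ (by positivity)]
    refine (le_abs_self _).trans (sq_le_sq.1 ?_)
    linarith only [mul_le_mul_of_nonneg_right h3 (sq_nonneg x), sq_nonneg (a * x ^ 2 + c), h1]
  · intro q hq h4 h5
    have q1 := hq.2
    have q2 := hq.pos
    simp only [E0, one_mul, zero_mul, mul_zero, add_zero, zero_div, sub_zero] at h4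
    rw [h4] at h5
    have hac : 0 ≤ a * c := by linarith only [h2, h3]
    have ha : a ≤ 0 := by
      by_contra! ha
      have : c < 0 := by nlinarith only [h5, q1, q2, ha]
      nlinarith only [h2, h3, ha, this]
    have hc : c ≤ 0 := by
      by_contra! hc
      have : a < 0 := by nlinarith only [h5, q1, q2, hc]
      nlinarith only [h2, h3, hc, this]
    have hu : a * x ^ 2 + c < 0 := by
      rcases ha.lt_or_eq with h6 | h6
      · linarith only [mul_neg_of_neg_of_pos h6 (pow_pos hx 2), hc]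
      · rw [h6] at h5 ⊢
        nlinarith only [h5, q1]
    have hv : a * x ^ 2 + 2 * b * x + c ≤ 0 := by
      by_contra! hv
      linarith only [mul_neg_of_neg_of_pos hu hv, h1]
    exact div_pos (by linarith only [hu, hv]) (by positivity)

theorem fin_move {L : Set V} (hu : ∀ E ∈ L, Bf E E = 1) (hf : ∀ M, {G ∈ L | |Bf G o| ≤ M}.Finite)
    {P : V} (hP : H2 P) (M : ℝ) : {G ∈ L | |Bf G P| ≤ M}.Finite := by
  refine (hf ((1 + 2 * M) * ch P o)).subset fun G hG => ⟨hG.1, ?_⟩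
  refine (abs_Bf_le (hu G hG.1) H2_o hP).trans ?_
  have := one_le_ch hP H2_o
  have := hG.2
  gcongr

/-- For every line of the family there is a point at a fixed distance from it that is not closer
to any line of the family. -/
theorem exists_pt (L : Set V) (hu : ∀ E ∈ L, Bf E E = 1) (hn : ∀ E ∈ L, ∀ F ∈ L, ¬ Cr E F)
    (hf : ∀ M, {G ∈ L | |Bf G o| ≤ M}.Finite) {E : V} (hE : E ∈ L) :
    ∃ p, H2 p ∧ Bf E p = -(5 / 12) ∧ ∀ G ∈ L, 5 / 12 ≤ |Bf G p| ∧
      ∀ q, H2 q → Bf E q = 0 → 0 < Bf G q → 0 < Bf G p := by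
  obtain ⟨f, hf0⟩ := exists_frame0 (hu E hE)
  obtain ⟨p, h1, h2, h3⟩ := exists_pt0 ((fun G => f • G) '' L)
    (by rintro _ ⟨G, hG, rfl⟩; simpa using hu G hG)
    (by rintro _ ⟨G, hG, rfl⟩ _ ⟨G', hG', rfl⟩; simpa using hn G hG G' hG')
    ⟨E, hE, hf0⟩ (fun M => by
      refine ((fin_move hu hf (H2_o.smul f⁻¹) M).image fun G => f • G).subset ?_
      rintro _ ⟨⟨G, hG, rfl⟩, h⟩
      exact ⟨G, ⟨hG, by rwa [← Bf_move]⟩, rfl⟩)
  refine ⟨f⁻¹ • p, h1.smul _, by rw [← Bf_move, hf0, h2], fun G hG => ?_⟩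
  rw [← Bf_move]
  obtain ⟨h4, h5⟩ := h3 _ ⟨G, hG, rfl⟩
  exact ⟨h4, fun q a b c => h5 _ (a.smul f) (by rwa [← hf0, Bf_isom]) (by rwa [Bf_isom])⟩

theorem norm_le_of_unit {E : V} (hE : Bf E E = 1) {M : ℝ} (h : |Bf E o| ≤ M) :
    ‖E‖ ≤ 2 * M + 1 := by
  obtain ⟨a, b, c⟩ := E
  simp only [Bf, o] at *
  have hM := (abs_nonneg _).trans h
  obtain ⟨h1, h2⟩ := abs_le.1 h
  have h3 : ((a + c) / 2) ^ 2 ≤ M ^ 2 := sq_le_sq' (by linarith only [h2]) (by linarith only [h1])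
  have h4 : |(a - c) / 2| ≤ M + 1 := abs_le_of_sq_le_sq' (by linarith only [sq_nonneg b, hE, hM, h3]) (by linarith only [hM])
    |> abs_le.2
  have h5 : |b| ≤ M + 1 := abs_le_of_sq_le_sq' (by linarith only [sq_nonneg (a - c), hE, hM, h3]) (by linarith only [hM])
    |> abs_le.2
  obtain ⟨h6, h7⟩ := abs_le.1 h4
  simp only [Prod.norm_def, Real.norm_eq_abs, max_le_iff]
  exact ⟨abs_le.2 ⟨by linarith only [h2, h6], by linarith only [h1, h7]⟩, by linarith only [hM, h5], abs_le.2 ⟨by linarith only [h2, h7], by linarith only [h1, h6]⟩⟩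

theorem abs_Bf_le_norm (D P : V) : |Bf D P| ≤ 2 * ‖D‖ * ‖P‖ := by
  have h1 : |D.1| ≤ ‖D‖ := norm_fst_le D
  have h2 : |D.2.1| ≤ ‖D‖ := (norm_fst_le D.2).trans (norm_snd_le D)
  have h3 : |D.2.2| ≤ ‖D‖ := (norm_snd_le D.2).trans (norm_snd_le D)
  have g1 : |P.1| ≤ ‖P‖ := norm_fst_le P
  have g2 : |P.2.1| ≤ ‖P‖ := (norm_fst_le P.2).trans (norm_snd_le P)
  have g3 : |P.2.2| ≤ ‖P‖ := (norm_snd_le P.2).trans (norm_snd_le P)
  have k : ∀ {a b : ℝ}, |a| ≤ ‖D‖ → |b| ≤ ‖P‖ → |a * b| ≤ ‖D‖ * ‖P‖ := fun ha hb => by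
    rw [abs_mul]; gcongr
  obtain ⟨a1, a2⟩ := abs_le.1 (k h2 g2)
  obtain ⟨b1, b2⟩ := abs_le.1 (k h1 g3)
  obtain ⟨c1, c2⟩ := abs_le.1 (k h3 g1)
  unfold Bf
  exact abs_le.2 ⟨by linarith, by linarith only [a2, b1, c1]⟩

theorem norm_le_of_H2 {P : V} (hP : H2 P) : ‖P‖ ≤ 2 * ch o P := by
  have e := hP.eq
  have h1 := hP.2
  have h2 := hP.pos
  rw [ch_o]
  obtain ⟨a, b, c⟩ := P
  simp only at *
  have h5 : |b| ≤ a + c := abs_le_of_sq_le_sq' (by nlinarith only [sq_nonneg (a - c), e]) (by linarith)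
    |> abs_le.2
  simp only [Prod.norm_def, Real.norm_eq_abs, max_le_iff]
  exact ⟨abs_le.2 ⟨by linarith only [h1, h2], by linarith⟩, by linarith, abs_le.2 ⟨by linarith, by linarith⟩⟩

theorem xi_core (R : ℝ) : ∃ N : ℕ, ∀ S : Finset V, (∀ E ∈ S, Bf E E = 1) →
    (∀ E ∈ S, ∀ F ∈ S, ¬ Cr E F) →
    (∀ E ∈ S, ∃ p, H2 p ∧ ch o p ≤ R ∧ Bf E p = -(5 / 12) ∧ ∀ G ∈ S, 5 / 12 ≤ |Bf G p|) →
    S.card ≤ N := by
  obtain ⟨t, -, ht, hc⟩ := finite_cover_balls_of_compact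
    (isCompact_closedBall (0 : V) (2 * (2 * R) + 1)) (e := 1 / (10 * (|R| + 1))) (by positivity)
  refine ⟨ht.toFinset.card, fun S hu hn hp => ?_⟩
  have h1 : ∀ E ∈ S, ∃ y ∈ ht.toFinset, E ∈ Metric.ball y (1 / (10 * (|R| + 1))) := by
    intro E hE
    obtain ⟨p, a, b, c, -⟩ := hp E hE
    have h2 := abs_Bf_le (hu E hE) H2_o a
    have h3 := one_le_ch H2_o a
    rw [c, ch_comm, abs_neg, abs_of_pos (by norm_num : (0 : ℝ) < 5 / 12)] at h2
    have := hc (mem_closedBall_zero_iff.2 (norm_le_of_unit (hu E hE) (M := 2 * R) (by linarith only [b, h2, h3])))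
    simpa only [Set.Finite.mem_toFinset, one_div, mul_inv_rev, Metric.mem_ball, Prod.exists, Set.mem_iUnion, exists_prop] using this
  choose! y hy hb using h1
  refine Finset.card_le_card_of_injOn y hy fun E hE F hF h => ?_
  have hd : ‖E - F‖ ≤ 1 / (5 * (|R| + 1)) := by
    have a := hb E hE
    have b := hb F hF
    rw [Metric.mem_ball] at a b
    rw [← h] at b
    have := dist_triangle_right E F (y E)
    rw [← dist_eq_norm]
    have e : 1 / (5 * (|R| + 1)) = 1 / (10 * (|R| + 1)) + 1 / (10 * (|R| + 1)) := by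
      field_simp; norm_num
    linarith
  have hR := abs_nonneg R
  have hd1 : ‖E - F‖ ≤ 1 := hd.trans (by rw [div_le_one (by positivity)]; linarith)
  have hs : ∀ p, H2 p → ch o p ≤ R → |Bf (E - F) p| < 5 / 6 := fun p a b => by
    have h2 := abs_Bf_le_norm (E - F) p
    have h3 := norm_le_of_H2 a
    have h4 : ‖p‖ ≤ 2 * (|R| + 1) := by linarith [le_abs_self R]
    have h5 : ‖E - F‖ * ‖p‖ ≤ 1 / (5 * (|R| + 1)) * (2 * (|R| + 1)) := by gcongr
    have e : 1 / (5 * (|R| + 1)) * (2 * (|R| + 1)) = 2 / 5 := by field_simp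
    linarith only [h2, h5, e]
  have uE := hu E hE
  have uF := hu F hF
  have e : Bf (E - F) (E - F) = 2 - 2 * Bf E F := by simp [uE, uF, Bf_comm F E]; ring
  have h2 : Bf (E - F) (E - F) ≤ 0 := by
    have a := (abs_le.1 (abs_Bf_le_norm (E - F) (E - F))).2
    have b : ‖E - F‖ * ‖E - F‖ ≤ 1 * 1 := by gcongr
    have c := not_lt.1 (hn E hE F hF)
    rw [e] at a ⊢
    nlinarith only [a, b, c]
  by_contra hne
  rcases causal h2 (sub_ne_zero.2 hne) with c | c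
  · obtain ⟨p, a, b, d, g⟩ := hp E hE
    have h3 := abs_lt.1 (hs p a b)
    have h4 := c p a
    rw [Bf_sub_left] at h3 h4
    rcases le_abs.1 (g F hF) with h5 | h5 <;> linarith only [h3.1, d, h5, h4]
  · obtain ⟨p, a, b, d, g⟩ := hp F hF
    have h3 := abs_lt.1 (hs p a b)
    have h4 := c p a
    rw [Bf_sub_left] at h3 h4
    rcases le_abs.1 (g E hE) with h5 | h5 <;> linarith only [h3.2, d, h5, h4]

/-- The bound on the number of orbits. -/
theorem xi_orb {Γ : Type*} [Group Γ] (σ : Γ →* Isom) (per : Set V) {R : ℝ}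
    (hc : ∀ P, H2 P → (∀ N ∈ per, 0 ≤ Bf N P) → ∃ x : Γ, ch P (σ x • o) ≤ R) :
    ∃ N : ℕ, ∀ L : Set V, per ⊆ L → (∀ E ∈ L, Bf E E = 1) → (∀ E ∈ L, ∀ F ∈ L, ¬ Cr E F) →
      (∀ x, ∀ E ∈ L, σ x • E ∈ L) → (∀ M, {G ∈ L | |Bf G o| ≤ M}.Finite) →
      ∀ {ι : Type*} (S : Finset ι) (e : ι → V), (∀ j ∈ S, e j ∈ L) →
        (∀ j ∈ S, ∀ N ∈ per, ∃ q, H2 q ∧ Bf (e j) q = 0 ∧ 0 < Bf N q) →
        (∀ j ∈ S, ∀ k ∈ S, ∀ x, σ x • e j = e k → j = k) → S.card ≤ N := by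
  classical
  obtain ⟨N, hN⟩ := xi_core R
  refine ⟨N, fun L hp hu hn hi hf ι S e he hq hd => ?_⟩
  have h1 : ∀ j ∈ S, ∃ x : Γ, ∃ p, H2 p ∧ ch o p ≤ R ∧ Bf (σ x • e j) p = -(5 / 12) ∧
      ∀ G ∈ L, 5 / 12 ≤ |Bf G p| := fun j hj => by
    obtain ⟨p, a, b, c⟩ := exists_pt L hu hn hf (he j hj)
    obtain ⟨x, hx⟩ := hc p a fun N hN => by
      obtain ⟨q, q1, q2, q3⟩ := hq j hj N hN
      exact ((c N (hp hN)).2 q q1 q2 q3).le
    refine ⟨x⁻¹, σ x⁻¹ • p, a.smul _, ?_, by simpa only [map_inv, Bf_isom] using b, fun G hG => ?_⟩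
    · rw [← ch_isom (σ x), map_inv, smul_inv_smul, ch_comm]
      exact hx
    · rw [map_inv, ← Bf_move]
      exact (c _ (hi x G hG)).1
  choose! x hx using h1
  have hinj : Set.InjOn (fun j => σ (x j) • e j) S := fun j hj k hk h =>
    hd j hj k hk ((x k)⁻¹ * x j) (by
      simp only at h
      rw [map_mul, mul_smul, h, map_inv, inv_smul_smul])
  rw [← Finset.card_image_of_injOn hinj]
  have hm : ∀ E ∈ S.image fun j => σ (x j) • e j, E ∈ L := by
    intro E hE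
    obtain ⟨j, hj, rfl⟩ := Finset.mem_image.1 hE
    exact hi _ _ (he j hj)
  refine hN _ (fun E hE => hu E (hm E hE)) (fun E hE F hF => hn E (hm E hE) F (hm F hF)) ?_
  intro E hE
  obtain ⟨j, hj, rfl⟩ := Finset.mem_image.1 hE
  obtain ⟨p, a, b, c, d⟩ := hx j hj
  exact ⟨p, a, b, c, fun G hG => d G (hm G hG)⟩

end Pool.Agent.MP_646035_al.Geo27

end

-- part MP_646035_al.Geo27.Pb
section

/-!
Simple chords in a region of a maximal family of walls.
-/

namespace Pool.Agent.MP_646035_al.Geo27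

open Pool.Agent.MP_4a6971_al.H66 Pool.Agent.MP_646035_al.H84 Set H24 Fu

theorem Bf_shift {u : Isom} {A F : V} (hu : Hyp u) (hA : IsAx u A) (hF : Bf F F = 1) :
    ∃ C : ℝ, 0 < C ∧ Bf F (u • F) = 1 - (Bf A F ^ 2 - 1) * C := by
  obtain ⟨f, t, hf, h0⟩ := hu.fr0 hA
  refine ⟨Real.cosh t - 1, sub_pos.2 (Real.one_lt_cosh.2 hf.pos.ne'), ?_⟩
  rw [← Bf_isom f, ← Bf_isom f A, hf.one, h0, Bf_E0, dil_smul, Real.cosh_eq]
  rw [← Bf_isom f] at hF
  simp only [Bf] at hF ⊢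
  linear_combination ((Real.exp t + Real.exp (-t)) / 2) * hF

/-- A line that avoids the axis and its translate face each other. -/
theorem facing {u : Isom} {A F p q : V} (hu : Hyp u) (hA : IsAx u A) (hF : Bf F F = 1)
    (h : 1 < Bf A F ^ 2) (w : ¬ Cr F (u • F)) (hq : H2 q) (a : 0 < Bf F q) (b : 0 < Bf (u • F) q)
    (hp : H2 p) : 0 < Bf F p + Bf (u • F) p := by
  obtain ⟨C, c1, c2⟩ := Bf_shift hu hA hF
  have h1 : Bf F (u • F) < 1 := by nlinarith only [h, c1, c2]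
  have h2 : Bf F (u • F) ≤ -1 := by
    rw [Cr] at w
    nlinarith only [w, h1]
  rcases causal (D := F + u • F) (by simp [hF, Bf_comm (u • F) F]; linarith only [h2]) (fun e => by
    have := congrArg (fun X => Bf X q) e
    simp only [Bf_add_left] at this
    simp only [Bf, Prod.fst_zero, Prod.snd_zero] at this a b
    linarith) with c | c
  · have := c q hq
    rw [Bf_add_left] at this
    linarith
  · simpa only [gt_iff_lt, Bf_add_left] using c p hp

theorem sg_trans {a b c : ℝ} (h : 0 < a * b) (h' : 0 < b * c) : 0 < a * c := by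
  rcases mul_pos_iff.1 h with ⟨x, y⟩ | ⟨x, y⟩
  · exact mul_pos x ((mul_pos_iff_of_pos_left y).1 h')
  · exact mul_pos_of_neg_of_neg x (neg_of_mul_pos_right h' y.le)

variable {Γ : Type} [Group Γ] {S : Fu Γ} {L : Set V} {r l m m' p p' z q q' A : V} {u : Γ}

theorem same_bd (hL : S.Lam L) (h : Ch L r l m m' p p') (hl : S.Ax l) (hz : Bd L r z) (n : z ≠ m)
    (n' : z ≠ m') (hq : H2 q) (hq' : H2 q') (e : Bf z q = 0) (e' : Bf z q' = 0) :
    1 < Bf z l ^ 2 ∧ 0 < Bf l q * Bf l q' := by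
  obtain ⟨γ, a⟩ := hl.pl
  have key : ∀ x, H2 x → Bf z x = 0 → Bf l x ≠ 0 := fun x h1 h2 h3 =>
    (h.foot hL a (hz.cl hL h1 h2) h3 hz.1 hz.2.1 h2).elim (fun b => n b.2) fun b => n' b.2
  have c : ¬ Cr z l := fun c => by
    obtain ⟨x, x1, x2, x3⟩ := exists_inter (hL.unit hz.1) h.unit c
    exact key x x1 x2 x3
  have n1 : l ≠ z := fun b => key q hq e (b ▸ e)
  have n2 : l ≠ -z := fun b => key q hq e (by simpa [b] using e)
  exact ⟨((((hL.ax z hz.1).tri hl).resolve_left c).resolve_left n1).resolve_left n2,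
    (hL.ax z hz.1).same hl c n1 n2 hq hq' e e'⟩

/-- The translates of the first wall lie on the same side of the chord as the fixed wall. -/
theorem turn (hL : S.Lam L) (h : Ch L r l m m' p p') (hl : S.Ax l) (hs : ∀ g, ¬ Cr l (S.σ g • l))
    (hz : Bd L r z) (n : z ≠ m) (n' : z ≠ m') (hu : S.St L r u) (u1 : u ≠ 1) (fz : S.σ u • z = z)
    (n2 : S.σ u • m ≠ m') (hq : H2 q) (hq' : H2 q') (e : Bf z q = 0) (e' : Bf m q' = 0) :
    0 < Bf l q * Bf l (S.σ u • q') := by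
  have uz := hL.unit hz.1
  obtain ⟨f, s⟩ := same_bd hL h hl hz n n' hq (hq.smul (S.σ u)⁻¹) e (by rw [← Bf_move, fz, e])
  have n1 : S.σ u • m ≠ m := fun b => u1 (fix_two (hL.unit h.mem) uz (Or.inl b) (Or.inl fz) n
    fun c => by
      have := hz.2.1
      rw [c, Bf_neg_left] at this
      linarith only [h.pos, this])
  refine sg_trans ?_ (same_bd hL h hl (h.bd.smul hL h.off hu) n1 n2 (h.cl.1.smul (S.σ u))
    (hq'.smul (S.σ u)) (by simpa using h.mp) (by simpa)).2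
  rw [← Bf_move] at s
  rcases mul_pos_iff.1 s with ⟨a, b⟩ | ⟨a, b⟩
  · have := facing (S.hyp u u1) ⟨uz, fz⟩ h.unit f (hs u) hq a b (h.cl.1.smul (S.σ u))
    rw [Bf_isom, h.lp, add_zero] at this
    exact mul_pos a this
  · have := facing (F := -l) (S.hyp u u1) ⟨uz, fz⟩ (by simpa using h.unit) (by simpa only [Bf_neg_right, even_two, Even.neg_pow, one_lt_sq_iff_one_lt_abs] using f)
      (by simpa using hs u) hq (by simpa using a) (by simpa using b) (h.cl.1.smul (S.σ u))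
    rw [Bf_isom, Bf_neg_left, Bf_neg_left, h.lp, neg_zero, add_zero] at this
    exact mul_pos_of_neg_of_neg a (neg_pos.1 this)

theorem turn2 (hL : S.Lam L) (h : Ch L r l m m' p p') (hl : S.Ax l) (hs : ∀ g, ¬ Cr l (S.σ g • l))
    (hz : Bd L r z) (n : z ≠ m) (n' : z ≠ m') (hu : S.St L r u) (u1 : u ≠ 1) (fz : S.σ u • z = z)
    (n2 : S.σ u • m ≠ m') (n3 : S.σ u⁻¹ • m ≠ m') (hq : H2 q) (hq' : H2 q') (e : Bf m q = 0)
    (e' : Bf m q' = 0) : 0 < Bf l (S.σ u • q) * Bf l (S.σ u⁻¹ • q') := by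
  obtain ⟨-, -, x, x1, x2⟩ := id hz
  exact sg_trans (mul_comm (Bf l x) _ ▸ turn hL h hl hs hz n n' hu u1 fz n2 x1.1 hq x2 e)
    (turn hL h hl hs hz n n' (hu.inv hL h.off) (inv_ne_one.2 u1)
      (by rw [map_inv, inv_smul_eq_iff, fz]) n3 x1.1 hq' x2 e')

theorem gap_bd (hL : S.Lam L)
    (mx : ∀ A, S.Ax A → (∀ g, ¬ Cr A (S.σ g • A)) → (∀ n ∈ L, ¬ Cr A n) → A ∈ L)
    (G : S.Gap L r l m m' p p' A) : ∃ z, Bd L r z ∧ ∀ g, S.σ g • A = A → S.σ g • z = z := by
  have hA := mx A G.ax (G.simple hL) fun n hn => G.ncL hL hn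
  obtain ⟨γ, a⟩ := G.ax.pl
  have c := G.cl hL (a.h2 0) (a.on 0)
  rcases (G.ch.off.2 A hA).lt_or_gt with b | b
  · exact ⟨-A, ⟨hL.neg A hA, by simpa using b, _, c, by simpa using a.on 0⟩, fun g hg => by simp [hg]⟩
  · exact ⟨A, ⟨hA, b, _, c, a.on 0⟩, fun _ hg => hg⟩

theorem fix_sq {g : Γ} (h : g * g ≠ 1) (a : IsAx (S.σ (g * g)) A) : S.σ g • A = A := by
  obtain ⟨X, hX⟩ := (S.hyp g fun e => h (by simp [e])).exists_ax
  rcases (S.hyp _ h).ax_unique ⟨hX.1, by rw [map_mul, mul_smul, hX.2, hX.2]⟩ a with rfl | rfl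
  exacts [hX.2, hX.neg.2]

/-- Three walls whose stabilisers contain elements with trivial product. -/
theorem relation (hL : S.Lam L)
    (mx : ∀ A, S.Ax A → (∀ g, ¬ Cr A (S.σ g • A)) → (∀ n ∈ L, ¬ Cr A n) → A ∈ L)
    (h : Ch L r l m m' p p') (hs : S.Sim L r l) : ∃ z z' u u', Bd L r z ∧ Bd L r z' ∧ z ≠ m ∧
      z' ≠ m ∧ S.St L r u ∧ S.St L r u' ∧ u ≠ 1 ∧ u' ≠ 1 ∧ S.σ u • z = z ∧ S.σ u' • z' = z' ∧
      u' ≠ u ∧ S.σ u' • m = S.σ u • m := by
  obtain ⟨A, G⟩ := gap_ex hL h hs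
  obtain ⟨z, z1, z2⟩ := gap_bd hL mx G
  obtain ⟨c, g, l1, p1, p1', W, ax, -⟩ := G
  rcases W.typ with ⟨-, a1, a2, rfl⟩ | ⟨-, a1, a2, a3, -⟩
  · obtain ⟨A', G'⟩ := gap_ex hL h.flip hs.neg
    obtain ⟨z', y1, y2⟩ := gap_bd hL mx G'
    obtain ⟨c', g', l1', q1, q1', W', ax', -⟩ := G'
    rcases W'.typ with ⟨-, b1, b2, rfl⟩ | ⟨-, -, -, -, b⟩
    · have f := z2 g (fix_sq W.cne ax)
      have f' := y2 g' (fix_sq W'.cne ax')
      refine ⟨z, z', g, g', z1, y1, ?_, ?_, W.gst, W'.gst, W.gne, W'.gne, f, f', ?_, b1.trans a1.symm⟩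
      · rintro rfl
        exact h.ne (a1.symm.trans f)
      · rintro rfl
        exact h.ne (b1.symm.trans f')
      · rintro rfl
        have x := W.f0
        have y := W'.f0
        rw [← b2, a2, Bf_neg_left] at y
        linarith only [x, y]
    · exact (b g a1).elim
  · refine ⟨m', z, g, c, h.bd', z1, h.ne, ?_, W.gst, W.cst, W.gne, W.cne, a1, z2 c ax.2, a3, a2⟩
    rintro rfl
    exact W.gne (fix_two (hL.unit h.mem) (hL.unit h.mem') (Or.inl (a2.symm.trans (z2 c ax.2)))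
      (Or.inl a1) h.ne h.ne')

/-- For a maximal system of walls, simple chords from a wall end on at most four walls modulo the
stabiliser. -/
theorem pants_b (hL : S.Lam L)
    (mx : ∀ A, S.Ax A → (∀ g, ¬ Cr A (S.σ g • A)) → (∀ n ∈ L, ¬ Cr A n) → A ∈ L) (m : V) :
    ∃ T : Finset V, T.card ≤ 4 ∧ ∀ r l m' p p', Ch L r l m m' p p' → S.Ax l →
      (∀ g, ¬ Cr l (S.σ g • l)) → ∃ g, S.σ g • m = m ∧ S.σ g • m' ∈ T := by
  classical
  by_cases h0 : ∃ r l m' p p', Ch L r l m m' p p' ∧ ∀ g, ¬ Cr l (S.σ g • l)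
  swap
  · exact ⟨∅, by simp, fun r l m' p p' h _ hs => (h0 ⟨r, l, m', p, p', h, hs⟩).elim⟩
  obtain ⟨r, l0, m0, p0, p0', h0, s0⟩ := h0
  obtain ⟨z, z', u, u', b, b', n, n', s, s', o, o', f, f', d, e⟩ := relation hL mx h0 (h0.sim hL s0)
  refine ⟨{z, z', S.σ u • m, S.σ u⁻¹ • m}, Finset.card_le_four, fun r' l m' p p' h hl hs => ?_⟩
  replace h := h.congr hL h0.off (h.bd.same hL h0.off h0.bd)
  by_contra! hc
  simp only [Finset.mem_insert, Finset.mem_singleton, not_or] at hc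
  have c1 : u⁻¹ * u' ≠ 1 := fun a => d (inv_mul_eq_one.1 a).symm
  have ax : IsAx (S.σ (u⁻¹ * u')) m :=
    ⟨hL.unit h.mem, by rw [map_mul, mul_smul, e, map_inv, inv_smul_smul]⟩
  have fk : ∀ k : ℤ, S.σ ((u⁻¹ * u') ^ k) • m = m := fun k => by rw [map_zpow, ax.zpow]
  obtain ⟨j, G, g1, g2, g3⟩ := wall_aux (S.hyp _ c1) ax h.unit (h.cr hL).symm
    (h.cl.1.smul (S.σ u⁻¹))
  have hk := h.smul hL ((((s.inv hL h.off).mul hL h.off s')).zpow hL h.off (-(j + 1)))
  rw [fk] at hk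
  have hs' : ∀ g, ¬ Cr (S.σ ((u⁻¹ * u') ^ (-(j + 1))) • l)
      (S.σ g • S.σ ((u⁻¹ * u') ^ (-(j + 1))) • l) := fun g => by
    rw [cr_move, ← map_inv, ← mul_smul, ← mul_smul, ← map_mul, ← map_mul]
    exact hs _
  obtain ⟨x1, x2, x3, x4⟩ := hc _ (fk (-(j + 1)))
  have t1 := turn2 hL hk (hl.smul _) hs' b n (Ne.symm x1) s o f (Ne.symm x3) (Ne.symm x4)
    h.cl.1 h.cl.1 h.mp h.mp
  have t2 := turn2 hL hk (hl.smul _) hs' b' n' (Ne.symm x2) s' o' f' (e ▸ Ne.symm x3)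
    (fun a => (hc _ (fk (1 + -(j + 1)))).2.2.2 (by
      rw [zpow_add, zpow_one, map_mul, mul_smul, ← a]
      simp [mul_smul]))
    (h.cl.1.smul (S.σ (u⁻¹ * u')⁻¹)) h.cl.1 (by rw [Bf_move', inv_inv, ax.2, h.mp]) h.mp
  have e1 : S.σ u' • S.σ (u⁻¹ * u')⁻¹ • p = S.σ u • p := by simp only [mul_inv_rev, inv_inv, map_mul, map_inv, mul_smul, smul_inv_smul]
  have e2 : S.σ u'⁻¹ • p = S.σ (u⁻¹ * u') ^ (-1 : ℤ) • S.σ u⁻¹ • p := by simp only [map_inv, map_mul, Int.reduceNeg, zpow_neg, zpow_ofNat, pow_one, mul_inv_rev, inv_inv, mul_smul, smul_inv_smul]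
  rw [e1, e2] at t2
  have t3 := sg_trans (mul_comm (Bf _ (S.σ u • p)) _ ▸ t1) t2
  rw [Bf_move, Bf_move, map_zpow, ← zpow_neg, neg_neg, ← mul_smul _ (S.σ (u⁻¹ * u') ^ (-1 : ℤ)),
    ← zpow_add, add_neg_cancel_right] at t3
  have := mul_nonpos_of_nonneg_of_nonpos g3.le g2
  rcases g1 with rfl | rfl
  · linarith only [this, t3]
  · simp only [Bf_neg_left, neg_mul_neg] at this
    linarith only [t3, this]

theorem pb (S : Fu Γ) : Pb S 4 := by
  intro P hP hm E hE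
  have hL := lam_WL P.finite_toSet hP
  obtain ⟨T, t1, t2⟩ := pants_b hL (fun A a b c => by
    by_contra h
    have := hm (mk (curve_of a b h)) fun d hd => i_eq_zero.2 fun F hF G hG x => by
      obtain ⟨g, hg⟩ := (mk (curve_of a b h)).exists_smul hG (mem_mk _)
      refine c _ (Or.inl ⟨d, hd, d.smul_mem hF g⟩) ?_
      rcases hg with hg | hg <;> simpa [hg] using x.symm
    exact h (Or.inl ⟨_, this, mem_mk _⟩)) E
  refine ⟨T, t1, fun a F hF D hD ⟨β, s, t, l, st, e1, e2, e3, e4, e5⟩ => ?_⟩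
  have c := l.cr_of_zero (ll_unit hE) e1 e2.ne'
  obtain ⟨m, m', h⟩ := ch_of_consec hL l (fun x => hL.nc _ x _ (Or.inl hE) c)
    ⟨E, Or.inl hE, c, e1⟩ ⟨D, Or.inl hD, l.cr_of_zero (ll_unit hD) e3 e4.ne, e3⟩
    (fun x hx ⟨G, g1, g2, g3⟩ => e5 x hx ⟨G, WL_cr (a.ax hF) g1 g2, g2, g3⟩)
    (x := (s + t) / 2) ⟨by linarith only [st], by linarith only [st]⟩
  obtain rfl : m = E := (hL.eq_or (Or.inl hE) h.mem (l.h2 s) e1 h.mp).resolve_right fun x => by
    have := h.fa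
    rw [x, Bf_neg_left] at this
    linarith
  obtain ⟨g, g1, g2⟩ := t2 _ _ _ _ _ h (a.ax hF) fun g => a.simple hF (a.smul_mem hF g)
  refine ⟨g, g1, ?_⟩
  rcases hL.eq_or (Or.inl hD) h.mem' (l.h2 t) e3 h.mp' with rfl | rfl
  exacts [Or.inl g2, Or.inr (by simpa using g2)]

/-- Curves lie in the convex core. -/
theorem core {a : S.Cv} {E N : V} (hE : E ∈ a.1) (hN : N ∈ S.per) (hq : H2 q) (e : Bf E q = 0) :
    0 < Bf N q := by
  obtain ⟨x, x1, x2⟩ := a.ax hE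
  have aN : S.Ax N := S.per_ax N hN
  have c := (a.ax hE).not_cr_per hN
  have n : N ≠ E := fun b => a.not_per hE (b ▸ hN)
  have n' : N ≠ -E := fun b => a.not_per (a.neg_mem hE) (b ▸ hN)
  have s := (a.ax hE).same aN c n n' hq (hq.smul (S.σ x)⁻¹) e (by rw [← Bf_move, x2.2, e])
  rw [← Bf_move] at s
  refine ((mul_pos_iff.1 s).resolve_right fun ⟨u, v⟩ => ?_).1
  have := facing (F := -N) (S.hyp x x1) x2 (by simpa using aN.unit)
    (by simpa only [Bf_neg_right, even_two, Even.neg_pow, one_lt_sq_iff_one_lt_abs] using ((((a.ax hE).tri aN).resolve_left c).resolve_left n).resolve_left n')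
    (by simpa using aN.not_cr_per (S.per_smul x N hN)) hq (by simpa using u) (by simpa using v) H2_o
  simp only [smul_neg, Bf_neg_left] at this
  linarith [S.per_o N hN, S.per_o _ (S.per_smul x N hN)]

/-- The number of pairwise disjoint curves is bounded. -/
theorem xi (S : Fu Γ) : ∃ ξ : ℕ, ∀ P : Finset S.Cv, H71.Mc i (P : Set S.Cv) → P.card ≤ ξ := by
  obtain ⟨R, hR⟩ := S.cocompact
  obtain ⟨N, hN⟩ := xi_orb S.σ S.per hR
  refine ⟨N, fun P hP => ?_⟩
  choose e he using Cv.nonempty (S := S)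
  have hL := lam_WL P.finite_toSet hP
  refine hN (WL (P : Set S.Cv)) (fun _ h => Or.inr (Or.inl h)) (fun _ => hL.unit) hL.nc
    (fun x E h => hL.smul E h x) (hL.fin o H2_o) P e (fun j hj => Or.inl ⟨j, hj, he j⟩)
    (fun j _ N h => ?_) fun j _ k _ x h => Cv.eq_of_mem (j.smul_mem (he j) x) (h ▸ he k)
  obtain ⟨γ, l⟩ := (j.ax (he j)).pl
  exact ⟨γ 0, l.h2 0, l.on 0, core (he j) h (l.h2 0) (l.on 0)⟩

/-- The twisting axioms hold. -/
theorem exists_isTw (S : Fu Γ) {C0 : ℕ} (h : 5 ≤ C0) : ∃ tw, H71.IsTw (i (S := S)) C0 tw :=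
  let ⟨_, hξ⟩ := xi S
  ⟨_, isTw (pb S) hξ h⟩

end Pool.Agent.MP_646035_al.Geo27

end
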