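import Pool.Agent.MP_646035_al.Growth
import Pool.Agent.MP_646035_al.H71.Ax

attribute [-instance] SMulZeroClass.toSMul MonTypeEquivalenceMon.monMonoid
  Fintype.decidableForallFintype Semiring.toMonoid DivisionCommMonoid.toDivisionMonoid Algebra.toSMul
  MonoidWithZero.toMonoid SemigroupWithZero.toSemigroup instDistribOfSemiring
  Finset.decidableDforallFinset AddQuantale.instAddLeftMono AddGroup.addLeftReflectLE_of_addLeftMono
  Multiset.decidableDforallMultiset Vector.instDecidableForallForallMemOfDecidablePred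
  Int.decidableLTLE Array.instDecidableForallForallMemOfDecidablePred RKHS.instFunLike
  Option.decidableForallMem Int.decidableLELE Group.IsPerfect.subsingleton_of_isMulCommutative
  MulZeroClass.toMul Int.decidableLTLT

-- part MP_646035_al.H24.Met
section

/-!
Integer valued hyperbolic geodesic spaces with an isometric group action: the metric lemmas.
-/

namespace Pool.Agent.MP_646035_al.H24

variable {X : Type*}

/-- A geodesic `δ`-hyperbolic space with values in `ℕ`, with an isometric action of `G`. -/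
structure Hyp (G : Type*) [Group G] [MulAction G X] (d : X → X → ℕ) (δ : ℕ) : Prop where
  self : ∀ x, d x x = 0
  symm : ∀ x y, d x y = d y x
  tri : ∀ x y z, d x z ≤ d x y + d y z
  inv : ∀ (g : G) x y, d (g • x) (g • y) = d x y
  geo : ∀ x y t, t ≤ d x y → ∃ z, d x z = t ∧ t + d z y = d x y
  four : ∀ a b c e, d a c + d b e ≤ max (d a b + d c e) (d a e + d b c) + δ

/-- `o` lies between `a` and `b` up to the error `P`. -/
def Bt (d : X → X → ℕ) (P : ℕ) (a o b : X) : Prop := d a o + d o b ≤ d a b + P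

variable {G : Type*} [Group G] [MulAction G X] {d : X → X → ℕ} {δ : ℕ}

lemma Bt.mono {P Q : ℕ} {a o b : X} (h : Bt d P a o b) (hPQ : P ≤ Q) : Bt d Q a o b := by
  unfold Bt at *; omega

namespace Hyp

variable (h : Hyp G d δ)
include h

lemma bt_symm {P : ℕ} {a o b : X} (H : Bt d P a o b) : Bt d P b o a := by
  have := h.symm a o; have := h.symm o b; have := h.symm a b
  unfold Bt at *; omega

lemma bt_smul (g : G) {P : ℕ} {a o b : X} (H : Bt d P a o b) : Bt d P (g • a) (g • o) (g • b) := by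
  unfold Bt at *; simpa only [h.inv] using H

lemma inv' (g : G) (x y : X) : d x (g • y) = d (g⁻¹ • x) y := by
  rw [← h.inv g⁻¹, inv_smul_smul]

lemma inv_self (g : G) (x : X) : d x (g⁻¹ • x) = d x (g • x) := by
  rw [h.inv', inv_inv, h.symm]

lemma mul_le (g k : G) (x : X) : d x ((g * k) • x) ≤ d x (g • x) + d x (k • x) := by
  have := h.tri x (g • x) ((g * k) • x)
  rwa [mul_smul, h.inv, ← mul_smul] at this

lemma pow_le (g : G) (x : X) (n : ℕ) : d x (g ^ n • x) ≤ n * d x (g • x) := by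
  induction n with
  | zero => simp [h.self]
  | succ n ih =>
    have := h.mul_le (g ^ n) g x
    rw [pow_succ, add_mul]; omega

/-- Local to global. -/
lemma ext {P Q : ℕ} {a b c e : X} (h1 : Bt d P a b c) (h2 : Bt d Q b c e)
    (hl : P + Q + δ < 2 * d b c) : Bt d (P + δ) a b e ∧ Bt d (Q + δ) a c e := by
  have := h.four a b c e
  unfold Bt at *; omega

/-- Two points between the same end points. -/
lemma near {P : ℕ} {a b p q : X} (h1 : Bt d P a p b) (h2 : Bt d P a q b) {k : ℕ}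
    (h3 : d a p ≤ d a q + k) (h4 : d a q ≤ d a p + k) : d p q ≤ k + P + δ := by
  have := h.four a p b q
  have := h.symm b q; have := h.symm p b
  unfold Bt at *; omega

/-- Moving the right end point. -/
lemma move {P D : ℕ} {a p b b' : X} (h1 : Bt d P a p b) (h2 : d b b' ≤ D)
    (h3 : 2 * D + P + δ < 2 * d p b) : Bt d (P + δ) a p b' := by
  have := h.four a p b b'
  have := h.tri p b' b; have := h.symm b b'
  unfold Bt at *; omega

lemma move' {P D : ℕ} {a p b a' : X} (h1 : Bt d P a p b) (h2 : d a a' ≤ D)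
    (h3 : 2 * D + P + δ < 2 * d a p) : Bt d (P + δ) a' p b :=
  h.bt_symm (h.move (h.bt_symm h1) h2 (by rwa [h.symm p a]))

/-- Moving an end point, crude form. -/
lemma shift {P D : ℕ} {a p b b' : X} (h1 : Bt d P a p b) (h2 : d b b' ≤ D) :
    Bt d (P + 2 * D) a p b' := by
  have := h.tri p b b'; have := h.tri a b' b; have := h.symm b b'
  unfold Bt at *; omega

lemma shift' {P D : ℕ} {a p b a' : X} (h1 : Bt d P a p b) (h2 : d a a' ≤ D) :
    Bt d (P + 2 * D) a' p b := h.bt_symm (h.shift (h.bt_symm h1) h2)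

lemma shiftm {P D : ℕ} {a p b p' : X} (h1 : Bt d P a p b) (h2 : d p p' ≤ D) :
    Bt d (P + 2 * D) a p' b := by
  have := h.tri a p p'; have := h.tri p' p b; have := h.symm p p'
  unfold Bt at *; omega

/-- One of two divergent directions diverges from a given one. -/
lemma choice {P : ℕ} {u v o : X} (h1 : Bt d P u o v) (q : X) :
    Bt d (P + δ) q o u ∨ Bt d (P + δ) q o v := by
  have := h.four q u o v
  have := h.symm u o; have := h.symm u v
  unfold Bt at *; omega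

/-- The image of a middle point of a geodesic by an isometry that almost fixes the ends. -/
lemma img {P D : ℕ} {a p b : X} (h1 : Bt d P a p b) (φ : G) (ha : d a (φ • a) ≤ D)
    (hb : d b (φ • b) ≤ D) (la : D + P + δ < d a p) (lb : D + P + δ < d p b) :
    Bt d (P + 2 * δ) a (φ • p) b := by
  have h2 := h.bt_smul φ h1
  have h3 := h.move (D := D) (b' := b) h2 (by rwa [h.symm]) (by rw [h.inv]; omega)
  exact (h.move' (D := D) (a' := a) h3 (by rwa [h.symm]) (by rw [h.inv]; omega)).mono (by omega)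

/-- The shift of a middle point does not depend on the point. -/
lemma bus {P D : ℕ} {a q b : X} (h1 : Bt d P a q b) (φ : G) (ha : d a (φ • a) ≤ D)
    (la : D + P + δ < d a q) :
    d a (φ • q) + d a b ≤ d a q + d (φ⁻¹ • a) b + (P + δ) ∧
      d a q + d (φ⁻¹ • a) b ≤ d a (φ • q) + d a b + P := by
  have h2 := h.move' (D := D) (a' := φ⁻¹ • a) h1 (by rwa [h.inv_self]) (by omega)
  rw [h.inv' φ a q]
  have := h.tri a q b; have := h.tri (φ⁻¹ • a) q b
  unfold Bt at *; omega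

/-- Commutators of isometries that almost fix the ends almost fix the middle points. -/
lemma comm_small {D : ℕ} {a p b : X} (h1 : Bt d 0 a p b) (α β : G) (ha : d a (α • a) ≤ D)
    (hb : d b (α • b) ≤ D) (ha' : d a (β • a) ≤ D) (hb' : d b (β • b) ≤ D)
    (la : 2 * D + 3 * δ < d a p) (lb : 2 * D + 3 * δ < d p b) :
    d ((α * β) • p) ((β * α) • p) ≤ 13 * δ := by
  have key : ∀ α β : G, d a (α • a) ≤ D → d b (α • b) ≤ D → d a (β • a) ≤ D → d b (β • b) ≤ D →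
      Bt d (2 * δ) a ((α * β) • p) b ∧
      d a ((α * β) • p) + 2 * d a b ≤ d a p + d (α⁻¹ • a) b + d (β⁻¹ • a) b + 4 * δ ∧
      d a p + d (α⁻¹ • a) b + d (β⁻¹ • a) b ≤ d a ((α * β) • p) + 2 * d a b + 2 * δ := by
    intro α β ha hb ha' hb'
    have e1 := h.img h1 β ha' hb' (by omega) (by omega)
    have e2 := h.img (D := 2 * D) h1 (α * β) ((h.mul_le _ _ _).trans (by omega))
      ((h.mul_le _ _ _).trans (by omega)) (by omega) (by omega)
    have e3 := h.bus h1 β ha' (by omega)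
    have e4 : d a p ≤ d a (β • p) + D := by
      have := h.tri (β • a) a (β • p)
      rw [h.inv, h.symm (β • a) a] at this; omega
    have e5 := h.bus e1 α ha (by omega)
    rw [← mul_smul] at e5
    exact ⟨e2.mono (by omega), by omega, by omega⟩
  obtain ⟨a1, a2, a3⟩ := key α β ha hb ha' hb'
  obtain ⟨b1, b2, b3⟩ := key β α ha' hb' ha hb
  exact (h.near a1 b1 (k := 6 * δ) (by omega) (by omega)).trans (by omega)

/-- An isometry that almost fixes the ends of a long tripod almost fixes the points of a leg. -/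
lemma tripod {a b c : X} {t : ℕ} (h1 : 2 * t + d b c ≤ d a b + d a c)
    (h2 : d a b + d a c ≤ 2 * t + d b c + 1) {m p : X} (hm : d a m = t) (hm' : Bt d 0 a m b)
    (hp : Bt d 0 a p b) {D : ℕ} (φ : G) (ha : d a (φ • a) ≤ D) (hb : d b (φ • b) ≤ D)
    (hc : d c (φ • c) ≤ D) (la : D + 2 * δ + 1 < t) (lb : D + 2 * δ + 1 < d m b)
    (lc : D + 2 * δ + 1 < d m c) (la' : D + δ < d a p) (lb' : D + δ < d p b) :
    d m (φ • m) ≤ 13 * δ + 1 ∧ d p (φ • p) ≤ 13 * δ + 1 := by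
  have f := h.four m a c b
  have := h.symm m a; have := h.symm c b; have := h.symm b m
  have t1 := h.tri a m b
  have b1 : Bt d δ a m c := by unfold Bt at *; omega
  have b2 : Bt d (δ + 1) b m c := by unfold Bt at *; omega
  have e1 := h.img hm' φ ha hb (by omega) (by omega)
  have e2 := h.img b1 φ ha hc (by omega) (by omega)
  have e3 := h.img b2 φ hb hc (by omega) (by omega)
  have e4 := h.img hp φ ha hb (by omega) (by omega)
  have u1 := h.bus hm' φ ha (by omega)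
  have u2 := h.bus hp φ ha (by omega)
  have := h.tri a (φ • m) b; have := h.tri a (φ • m) c; have := h.tri b (φ • m) c
  have := h.symm b (φ • m)
  have k1 : d a (φ • m) ≤ t + (3 * δ + 1) := by unfold Bt at *; omega
  have k2 : t ≤ d a (φ • m) + (3 * δ + 1) := by unfold Bt at *; omega
  have n1 := h.near (hm'.mono (Nat.zero_le _)) e1 (k := 3 * δ + 1) (by omega) (by omega)
  have n2 := h.near (hp.mono (Nat.zero_le _)) e4 (k := 4 * δ + 1) (by omega) (by omega)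
  omega

/-- Orbits of an element with a small Gromov product. -/
lemma orbit {P : ℕ} {g : G} {o : X} (h1 : Bt d P (g⁻¹ • o) o (g • o))
    (hl : 2 * P + 3 * δ < 2 * d o (g • o)) (n : ℕ) :
    Bt d (P + δ) o (g ^ n • o) (g ^ (n + 1) • o) := by
  induction n with
  | zero => simp [Bt, h.self]
  | succ n ih =>
    have h2 := h.bt_smul (g ^ (n + 1)) h1
    rw [← mul_smul, ← mul_smul, pow_succ, mul_inv_cancel_right, ← pow_succ, ← pow_succ] at h2
    refine (h.ext ih h2 ?_).2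
    rw [pow_succ, mul_smul, h.inv]; omega

lemma orbit' {P : ℕ} {g : G} {o : X} (h1 : Bt d P (g⁻¹ • o) o (g • o))
    (hl : 2 * P + 3 * δ < 2 * d o (g • o)) (n : ℕ) :
    Bt d (P + δ) ((g ^ n)⁻¹ • o) o (g • o) := by
  have h2 := h.bt_smul (g ^ n)⁻¹ (h.orbit h1 hl n)
  rwa [inv_smul_smul, pow_succ, mul_smul, inv_smul_smul] at h2

lemma orbit2 {P : ℕ} {g : G} {o : X} (h1 : Bt d P (g⁻¹ • o) o (g • o))
    (hl : 2 * P + 3 * δ < 2 * d o (g • o)) (m n : ℕ) :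
    Bt d (P + 2 * δ) ((g ^ m)⁻¹ • o) o (g ^ n • o) := by
  cases n with
  | zero => simp [Bt, h.self]
  | succ n =>
    have h2 := h.orbit' (g := g⁻¹) (by rw [inv_inv]; exact h.bt_symm h1) (by rwa [h.inv_self]) n
    have h3 := h.bt_symm (h.bt_smul g h2)
    rw [smul_inv_smul, inv_pow, inv_inv, ← mul_smul, ← pow_succ'] at h3
    exact (h.ext (h.orbit' h1 hl m) h3 (by omega)).1.mono (by omega)

end Hyp

end Pool.Agent.MP_646035_al.H24

end

-- part MP_646035_al.H24.Guess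
section

/-!
Bowditch's criterion for hyperbolicity (guessing geodesics), with constants that depend only on
the constant of the hypotheses; the path metric of a connected graph.
-/

namespace Pool.Agent.MP_646035_al.H24

variable {X : Type*} {d : X → X → ℕ} {L : X → X → Set X} {h : ℕ}

/-- A geodesic space with values in `ℕ`. -/
structure Geo (d : X → X → ℕ) : Prop where
  self : ∀ x, d x x = 0
  eq : ∀ x y, d x y = 0 → x = y
  symm : ∀ x y, d x y = d y x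
  tri : ∀ x y z, d x z ≤ d x y + d y z
  geo : ∀ x y t, t ≤ d x y → ∃ z, d x z = t ∧ t + d z y = d x y

/-- A family of coarsely connected sets with slim triangles. -/
structure Guess (d : X → X → ℕ) (L : X → X → Set X) (h : ℕ) : Prop where
  conn : ∀ x y t, t ≤ d x y → ∃ w ∈ L x y, t ≤ d x w ∧ d x w ≤ t + h
  adj : ∀ x y, d x y ≤ 1 → ∀ w ∈ L x y, d x w ≤ h
  slim : ∀ x y z, ∀ w ∈ L x y, ∃ w', (w' ∈ L x z ∨ w' ∈ L z y) ∧ d w w' ≤ h

/-- The constant of the criterion. -/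
def gc (h : ℕ) : ℕ := (8 * h + 22) * (2 * h + 2)

/-- The path metric of a connected graph is geodesic. -/
lemma Geo.of_graph {Γ : SimpleGraph X} (hc : Γ.Connected) : Geo Γ.dist where
  self _ := SimpleGraph.dist_self
  eq _ _ e := hc.dist_eq_zero_iff.1 e
  symm _ _ := SimpleGraph.dist_comm
  tri _ _ _ := hc.dist_triangle
  geo x y t ht := by
    obtain ⟨p, hp⟩ := hc.exists_walk_length_eq_dist x y
    have h1 := SimpleGraph.dist_le (p.take t)
    have h2 := SimpleGraph.dist_le (p.drop t)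
    have h3 : Γ.dist x y ≤ Γ.dist x (p.getVert t) + Γ.dist (p.getVert t) y := hc.dist_triangle
    rw [SimpleGraph.Walk.take_length] at h1
    rw [SimpleGraph.Walk.drop_length] at h2
    exact ⟨p.getVert t, by omega, by omega⟩

namespace Geo

variable (g : Geo d)
include g

lemma pre (β : ℕ → X) (hβ : ∀ i, d (β i) (β (i + 1)) ≤ 1) (n : ℕ) : ∀ x, d x (β 0) = n →
    ∃ α : ℕ → X, (∀ i, d (α i) (α (i + 1)) ≤ 1) ∧ α 0 = x ∧ ∀ i, α (i + n) = β i := by
  induction n with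
  | zero => exact fun x hx => ⟨β, hβ, (g.eq _ _ hx).symm, fun _ => rfl⟩
  | succ n ih =>
    intro x hx
    obtain ⟨z, h1, h2⟩ := g.geo x (β 0) 1 (by omega)
    obtain ⟨α, a1, a2, a3⟩ := ih z (by omega)
    refine ⟨fun i => Nat.casesOn i x α, ?_, rfl, a3⟩
    rintro (_ | i)
    exacts [by simpa [a2] using h1.le, a1 i]

/-- A path with unit steps through a given point. -/
lemma exists_path (x p y : X) : ∃ α : ℕ → X, (∀ i, d (α i) (α (i + 1)) ≤ 1) ∧ α 0 = x ∧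
    α (d x p) = p ∧ α (d p y + d x p) = y := by
  obtain ⟨β, b1, b2, b3⟩ := g.pre (fun _ => y) (fun _ => by simp [g.self]) _ p rfl
  obtain ⟨α, a1, a2, a3⟩ := g.pre β b1 _ x (by rw [b2])
  exact ⟨α, a1, a2, by simpa [b2] using a3 0, by simpa [a3] using b3 0⟩

lemma path_le {α : ℕ → X} (hα : ∀ i, d (α i) (α (i + 1)) ≤ 1) {i j : ℕ} (hij : i ≤ j) :
    d (α i) (α j) + i ≤ j := by
  induction hij with
  | refl => simp [g.self]
  | @step j _ ih =>
    have := g.tri (α i) (α j) (α (j + 1)); have := hα j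
    simp only [Nat.succ_eq_add_one]; omega

variable (H : Guess d L h)
include H

lemma log {α : ℕ → X} (hα : ∀ i, d (α i) (α (i + 1)) ≤ 1) (p : ℕ) : ∀ i j, i ≤ j → j ≤ i + 2 ^ p →
    ∀ w ∈ L (α i) (α j), ∃ k, i ≤ k ∧ k ≤ j ∧ d w (α k) ≤ (p + 1) * h := by
  induction p with
  | zero =>
    intro i j h1 h2 w hw
    have := g.path_le hα h1
    exact ⟨i, le_rfl, h1, by rw [g.symm]; simpa using H.adj _ _ (by omega) w hw⟩
  | succ p ih =>
    intro i j h1 h2 w hw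
    rw [pow_succ] at h2
    obtain ⟨w', hw', e⟩ := H.slim _ _ (α ((i + j) / 2)) w hw
    have : ∃ k, i ≤ k ∧ k ≤ j ∧ d w' (α k) ≤ (p + 1) * h := by
      rcases hw' with hw' | hw' <;> obtain ⟨k, k1, k2, k3⟩ := ih _ _ (by omega) (by omega) w' hw' <;>
        exact ⟨k, by omega, by omega, k3⟩
    obtain ⟨k, k1, k2, k3⟩ := this
    exact ⟨k, k1, k2, (g.tri w w' _).trans (by rw [add_mul (p + 1)]; omega)⟩

/-- The guessed sets are close to every geodesic. -/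
lemma close {α : ℕ → X} (hα : ∀ i, d (α i) (α (i + 1)) ≤ 1) {n : ℕ} (hn : d (α 0) (α n) = n) :
    ∀ w ∈ L (α 0) (α n), ∃ k ≤ n, d w (α k) ≤ gc h := by
  classical
  let C : ℕ → Prop := fun F => ∀ i j, i ≤ j → j ≤ n → ∀ w ∈ L (α i) (α j),
    ∃ k, i ≤ k ∧ k ≤ j ∧ d w (α k) ≤ F
  have hex : ∃ F, C F := ⟨_, fun i j h1 h2 => g.log H hα n i j h1 (by
    have := n.lt_two_pow_self; omega)⟩
  have step : ∀ F q, C F → 2 * (F + 2 * h + 1) ≤ 2 ^ q → C ((q + 3) * h) := by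
    intro F q hC hq i j h1 h2 w hw
    have e0 : d (α i) (α j) + i = j := by
      have := g.path_le hα h1; have := g.path_le hα h2; have := g.path_le hα (Nat.zero_le i)
      have := g.tri (α 0) (α i) (α n); have := g.tri (α i) (α j) (α n)
      omega
    have e1 := g.tri (α i) w (α j)
    obtain ⟨a, b, a1, a2, a3, a4, a5, a6⟩ : ∃ a b, i ≤ a ∧ a ≤ b ∧ b ≤ j ∧
        b ≤ a + 2 * (F + 2 * h + 1) ∧ (a = i ∨ a + (F + 2 * h + 1) ≤ i + d (α i) w) ∧
        (b = j ∨ j + (F + 2 * h + 1) ≤ b + d w (α j)) :=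
      ⟨min j (i + (d (α i) w - (F + 2 * h + 1))), max (min j (i + (d (α i) w - (F + 2 * h + 1))))
        (j - (d w (α j) - (F + 2 * h + 1))), by omega⟩
    have e3 : (q + 3) * h = (q + 1) * h + 2 * h := by ring
    have e4 : h ≤ (q + 1) * h := Nat.le_mul_of_pos_left _ (by omega)
    obtain ⟨w1, hw1, c1⟩ := H.slim _ _ (α a) w hw
    rcases hw1 with hw1 | hw1
    · obtain ⟨k, k1, k2, k3⟩ := hC i a a1 (by omega) w1 hw1
      have := g.tri w w1 (α k)
      rcases a5 with rfl | a5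
      · have := H.adj _ _ (by simp [g.self]) w1 hw1
        have := g.tri w w1 (α a); have := g.symm w1 (α a)
        exact ⟨a, le_rfl, h1, by omega⟩
      · have := g.path_le hα k1; have := g.tri (α i) (α k) w; have := g.symm w (α k)
        omega
    obtain ⟨w2, hw2, c2⟩ := H.slim _ _ (α b) w1 hw1
    have c3 := g.tri w w1 w2
    rcases hw2 with hw2 | hw2
    · obtain ⟨k, k1, k2, k3⟩ := g.log H hα q a b a2 (by omega) w2 hw2
      exact ⟨k, by omega, by omega, (g.tri w w2 _).trans (by omega)⟩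
    · obtain ⟨k, k1, k2, k3⟩ := hC b j a3 h2 w2 hw2
      have := g.tri w w2 (α k)
      rcases a6 with rfl | a6
      · have := H.adj _ _ (by simp [g.self]) w2 hw2
        have := g.tri w w2 (α b); have := g.symm w2 (α b)
        exact ⟨b, h1, le_rfl, by omega⟩
      · have := g.path_le hα k2; have := g.tri w (α k) (α j)
        omega
  have hle : Nat.find hex ≤ gc h := by
    by_contra hc
    have h0 := Nat.find_spec hex
    have h1 : ∀ m < Nat.find hex, ¬ C m := fun m hm => Nat.find_min hex hm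
    generalize Nat.find hex = F at *
    obtain ⟨a, ha⟩ : ∃ a, F / (2 * h + 2) = a + 2 ∧ 8 * h + 20 ≤ a := by
      have : 8 * h + 22 ≤ F / (2 * h + 2) :=
        (Nat.le_div_iff_mul_le (by omega)).2 (not_le.1 hc).le
      exact ⟨F / (2 * h + 2) - 2, by omega, by omega⟩
    have e1 := Nat.div_add_mod F (2 * h + 2)
    have e2 := Nat.mod_lt F (by omega : 0 < 2 * h + 2)
    have e3 := a.lt_two_pow_self
    rw [ha.1] at e1
    have e6 : (2 * h + 2) * (a + 2) = (a + a + 3) * h + (h + 2 * a + 4) := by ring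
    refine h1 _ (by omega) (step F (a + a) h0 ?_)
    have e4 : a * a ≤ 2 ^ a * 2 ^ a := Nat.mul_le_mul e3.le e3.le
    have e5 := Nat.mul_le_mul_left a ha.2
    rw [pow_add]; linarith only [ha, e1, e2, e4, e5]
  intro w hw
  obtain ⟨k, -, k2, k3⟩ := Nat.find_spec hex 0 n n.zero_le le_rfl w hw
  exact ⟨k, k2, k3.trans hle⟩

/-- Every point of a guessed set lies between the end points. -/
theorem bt {x y w : X} (hw : w ∈ L x y) : Bt d (2 * gc h) x w y := by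
  obtain ⟨α, a1, rfl, -, a3⟩ := g.exists_path x x y
  rw [g.self, add_zero] at a3
  obtain ⟨k, k1, k2⟩ := g.close H a1 (n := d (α 0) y) (by rw [a3]) w (by rwa [a3])
  have := g.path_le a1 k.zero_le; have e := g.path_le a1 k1
  have := g.tri (α 0) (α k) w; have := g.tri w (α k) y; have := g.symm w (α k)
  rw [a3] at e
  unfold Bt; omega

/-- Every point of a geodesic is close to the guessed set. -/
theorem near {x y p : X} (hp : Bt d 0 x p y) : ∃ w ∈ L x y, d p w ≤ 2 * gc h + h := by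
  obtain ⟨α, a1, rfl, a2, a3⟩ := g.exists_path x p y
  have t1 := g.tri (α 0) p y
  unfold Bt at hp
  obtain ⟨w, hw, w1, w2⟩ := H.conn (α 0) y (d (α 0) p) (by omega)
  obtain ⟨k, k1, k2⟩ := g.close H a1 (n := d p y + d (α 0) p) (by rw [a3]; omega) w (by rwa [a3])
  have := g.path_le a1 k.zero_le; have e := g.path_le a1 k1
  have := g.tri (α 0) (α k) w; have := g.tri (α 0) w (α k); have := g.symm w (α k)
  have := g.tri (α 0) (α k) y; have := g.tri p (α k) w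
  rw [a3] at e
  refine ⟨w, hw, ?_⟩
  rcases le_total k (d (α 0) p) with c | c <;> have e' := g.path_le a1 c <;> rw [a2] at e'
  · have := g.symm p (α k); omega
  · omega

/-- The four point inequality. -/
theorem four (a b c e : X) :
    d a c + d b e ≤ max (d a b + d c e) (d a e + d b c) + (12 * gc h + 8 * h + 2) := by
  classical
  have key : ∀ p z, Bt d 0 a p c →
      Bt d (6 * gc h + 4 * h) a p z ∨ Bt d (6 * gc h + 4 * h) z p c := by
    intro p z hp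
    obtain ⟨w, hw, w1⟩ := g.near H hp
    obtain ⟨v, hv, v1⟩ := H.slim _ _ z w hw
    have := g.tri p w v; have := g.symm p v
    rcases hv with hv | hv <;> have := g.bt H hv
    · have := g.tri a v p; have := g.tri p v z
      left; unfold Bt at *; omega
    · have := g.tri z v p; have := g.tri p v c
      right; unfold Bt at *; omega
  obtain ⟨α, a1, rfl, -, a3⟩ := g.exists_path a a c
  rw [g.self, add_zero] at a3
  have hb : ∀ k ≤ d (α 0) c, Bt d 0 (α 0) (α k) c := fun k hk => by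
    have := g.path_le a1 k.zero_le; have e := g.path_le a1 hk
    rw [a3] at e; unfold Bt; omega
  obtain ⟨k, k1, k2, k3⟩ : ∃ k ≤ d (α 0) c, Bt d (6 * gc h + 4 * h) (α 0) (α k) b ∧
      Bt d (6 * gc h + 4 * h + 2) b (α k) c := by
    let Q : ℕ → Prop := fun k => Bt d (6 * gc h + 4 * h) (α 0) (α k) b
    have q1 : Q (Nat.findGreatest Q (d (α 0) c)) :=
      Nat.findGreatest_spec (m := 0) (Nat.zero_le _) (by simp only [Q, Bt, ge_iff_le, g.self, zero_add, le_add_iff_nonneg_right, zero_le])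
    have q2 := Nat.findGreatest_le (P := Q) (d (α 0) c)
    refine ⟨_, q2, q1, ?_⟩
    rcases q2.eq_or_lt with q | q
    · rw [q, a3]; simp [Bt, g.self]
    · have q3 := (key _ b (hb _ q)).resolve_left
        (Nat.findGreatest_is_greatest (P := Q) (Nat.lt_succ_self _) q)
      generalize Nat.findGreatest Q (d (α 0) c) = k at *
      have := a1 k; have := g.symm (α k) (α (k + 1))
      have := g.tri b (α (k + 1)) (α k); have := g.tri (α k) (α (k + 1)) c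
      unfold Bt at *; simp only [Nat.succ_eq_add_one] at *; omega
  have k4 := key _ e (hb k k1)
  have := g.tri (α 0) (α k) c; have := g.tri b (α k) e
  have := g.symm b (α k); have := g.symm e (α k); have := g.symm c e
  unfold Bt at *; omega

/-- Bowditch's criterion. -/
theorem hyp (G : Type*) [Group G] [MulAction G X] (hi : ∀ (γ : G) x y, d (γ • x) (γ • y) = d x y) :
    Hyp G d (12 * gc h + 8 * h + 2) :=
  ⟨g.self, g.symm, g.tri, hi, g.geo, g.four H⟩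

end Geo

end Pool.Agent.MP_646035_al.H24

end

-- part MP_646035_al.H24.Bic
section

/-!
Bicorn curves in the universal cover, from axioms on parametrised lines and loops; hyperbolicity
of the graph of curves.
-/

namespace Pool.Agent.MP_646035_al.H24

open Set H71

variable {Γ X C : Type*} [Group Γ] [MulAction Γ X]

variable (Γ) in
/-- The union of the translates of a set. -/
def Orb (A : Set X) : Set X := {P | ∃ g : Γ, g • P ∈ A}

variable (Γ) in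
/-- The set is disjoint from its translates. -/
def Emb (A : Set X) : Prop := ∀ g : Γ, ∀ P ∈ A, g • P ∈ A → g = 1

/-- The set meets only the two neighbouring translates. -/
def Sim (K : Set X) (c : Γ) : Prop := ∀ g : Γ, ∀ P ∈ K, g • P ∈ K → g = 1 ∨ g = c ∨ g = c⁻¹

variable (Γ) in
/-- `pc γ x` : `γ` parametrises a lift of the curve `x`. -/
structure Mod0 (i : C → C → ℕ) (pc : (ℝ → X) → C → Prop) : Prop where
  symm : ∀ x y, i x y = i y x
  ex : ∀ x, ∃ γ, pc γ x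
  inj : ∀ {γ x}, pc γ x → Function.Injective γ
  free : ∀ {γ x s} {g : Γ}, pc γ x → g • γ s = γ s → g = 1
  smul : ∀ {γ x} (g : Γ), pc γ x → pc (fun τ => g • γ τ) x
  rev : ∀ {γ x}, pc γ x → pc (fun τ => γ (-τ)) x
  shift : ∀ {γ x s t} {g : Γ}, pc γ x → g • γ s = γ t → ∀ τ, g • γ τ = γ (τ + (t - s))
  per : ∀ {γ x}, pc γ x → ∃ (g : Γ) (θ : ℝ), 0 < θ ∧ γ θ = g • γ 0
  one : ∀ {γ γ' x y s t s' t'}, x ≠ y → pc γ x → pc γ' y → γ s = γ' t → γ s' = γ' t' → t = t'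
  fin : ∀ {γ γ' x y} (a b a' b' : ℝ), pc γ x → pc γ' y →
    {g : Γ | ∃ s ∈ Icc a b, ∃ t ∈ Icc a' b', g • γ' t = γ s}.Finite
  low : ∀ {γ' x y} (S : Finset ℝ), x ≠ y → pc γ' y → (∀ τ ∈ S, ∃ γ s, pc γ x ∧ γ s = γ' τ) →
    (∀ g : Γ, ∀ τ ∈ S, ∀ τ' ∈ S, g • γ' τ = γ' τ' → g = 1) → S.card ≤ i x y

/-- `lp K c` : the set `K` joins a point to its image under `c`; `rep c x` : the axis of `c` is a
lift of `x`. -/
structure Mod (i : C → C → ℕ) (κ : ℕ) (pc : (ℝ → X) → C → Prop) (lp : Set X → Γ → Prop)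
    (rep : Γ → C → Prop) : Prop extends Mod0 Γ i pc where
  lp1 : ∀ {γ x s t} {c : Γ}, pc γ x → s < t → γ t = c • γ s → lp (γ '' Icc s t) c ∧ rep c x
  lp2 : ∀ {γ γ' x y s₀ s₁ t₀ t₁} {c : Γ}, pc γ x → pc γ' y → s₀ < s₁ → t₀ < t₁ → γ s₁ = γ' t₀ →
    γ' t₁ = c • γ s₀ → c ≠ 1 → lp (γ '' Icc s₀ s₁ ∪ γ' '' Icc t₀ t₁) c
  sim : ∀ {K c}, lp K c → Sim K c → ∃ w, rep c w
  up : ∀ {K K' c c' w w'} (T : Finset Γ), lp K c → lp K' c' → rep c w → rep c' w' →
    (∀ g : Γ, ∀ P ∈ K', g • P ∈ K → g ∈ T) → i w w' ≤ κ * T.card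

/-- A bicorn: an arc of `x` followed by an arc of `y`, closed up by `c`. -/
structure Bic (pc : (ℝ → X) → C → Prop) (x y : C) (γ γ' : ℝ → X) (s₀ s₁ t₀ t₁ : ℝ) (c : Γ) :
    Prop where
  ne : x ≠ y
  l : pc γ x
  l' : pc γ' y
  hs : s₀ < s₁
  ht : t₀ < t₁
  q : γ s₁ = γ' t₀
  p : γ' t₁ = c • γ s₀
  ea : Emb Γ (γ '' Icc s₀ s₁)
  eb : Emb Γ (γ' '' Icc t₀ t₁)
  meet : ∀ τ ∈ Ioo t₀ t₁, γ' τ ∉ Orb Γ (γ '' Icc s₀ s₁)

/-- The bicorns of two curves. -/
def BL (pc : (ℝ → X) → C → Prop) (rep : Γ → C → Prop) (x y : C) : Set C :=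
  {w | w = x ∨ w = y ∨ ∃ γ γ' s₀ s₁ t₀ t₁ c, Bic pc x y γ γ' s₀ s₁ t₀ t₁ c ∧ rep c w}

variable {i : C → C → ℕ} {κ : ℕ} {pc : (ℝ → X) → C → Prop} {lp : Set X → Γ → Prop}
  {rep : Γ → C → Prop} {x y z w w' : C} {γ γ' γ'' : ℝ → X} {s₀ s₁ t₀ t₁ u v : ℝ} {c c' : Γ}
  {A B K K' : Set X} {P : X}

lemma Orb.mono (h : A ⊆ B) : Orb Γ A ⊆ Orb Γ B := fun _ ⟨g, hg⟩ => ⟨g, h hg⟩

lemma Orb.self (h : P ∈ A) : P ∈ Orb Γ A := ⟨1, by simpa using h⟩

lemma Orb.smul (g : Γ) : g • P ∈ Orb Γ A ↔ P ∈ Orb Γ A :=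
  ⟨fun ⟨k, h⟩ => ⟨k * g, by rwa [mul_smul]⟩, fun ⟨k, h⟩ => ⟨k * g⁻¹, by simpa [mul_smul] using h⟩⟩

lemma Orb.pick (A : Set X) (P : X) : ∃ g : Γ, P ∈ Orb Γ A → g • P ∈ A := by
  by_cases h : P ∈ Orb Γ A
  exacts [h.imp fun _ a _ => a, ⟨1, fun a => (h a).elim⟩]

lemma Emb.mono (h : Emb Γ B) (h' : A ⊆ B) : Emb Γ A := fun g P a b => h g P (h' a) (h' b)

lemma Emb.of_smul (h : Emb Γ B) (k : Γ) (h' : ∀ P ∈ A, k • P ∈ B) : Emb Γ A := fun g P a b => by
  simpa only [conj_eq_one_iff] using h (k * g * k⁻¹) _ (h' P a) (by simpa [mul_smul] using h' _ b)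

namespace Bic

variable (b : Bic pc x y γ γ' s₀ s₁ t₀ t₁ c)
include b

lemma cross {g : Γ} (hP : P ∈ γ '' Icc s₀ s₁) (h : g • P ∈ γ' '' Icc t₀ t₁) : g = 1 ∨ g = c := by
  obtain ⟨τ, h1, h2⟩ := h
  rcases h1.1.eq_or_lt with rfl | a
  · exact Or.inl (b.ea g P hP ⟨s₁, right_mem_Icc.2 b.hs.le, b.q.trans h2⟩)
  rcases h1.2.eq_or_lt with rfl | a'
  · refine Or.inr (inv_mul_eq_one.1 (b.ea _ P hP ⟨s₀, left_mem_Icc.2 b.hs.le, ?_⟩)).symm
    rw [mul_smul, ← h2, b.p, inv_smul_smul]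
  · exact (b.meet τ ⟨a, a'⟩ ⟨g⁻¹, by rwa [h2, inv_smul_smul]⟩).elim

lemma sim : Sim (γ '' Icc s₀ s₁ ∪ γ' '' Icc t₀ t₁) c := by
  rintro g P (h | h) (h' | h')
  · exact Or.inl (b.ea g P h h')
  · exact (b.cross h h').imp_right Or.inl
  · exact (b.cross (g := g⁻¹) h' (by simpa only [inv_smul_smul, mem_image, mem_Icc] using h)).imp inv_eq_one.1
      fun a => Or.inr (inv_eq_iff_eq_inv.1 a)
  · exact Or.inl (b.eb g P h h')

end Bic

namespace Mod0

variable (M : Mod0 Γ i pc)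
include M

lemma emb (l : pc γ x) {I : Set ℝ} (u : ℝ)
    (h : ∀ g : Γ, ∀ s ∈ I, ∀ t ∈ I, s < t → g • γ u ≠ γ (u + (t - s))) : Emb Γ (γ '' I) := by
  rintro g _ ⟨s, hs, rfl⟩ ⟨t, ht, e⟩
  rcases lt_trichotomy s t with a | rfl | a
  · exact (h g s hs t ht a (M.shift l e.symm u)).elim
  · exact M.free l e.symm
  · exact (h g⁻¹ t ht s hs a (M.shift l (by rw [e, inv_smul_smul]) u)).elim

lemma disc (h : x ≠ y) (l : pc γ x) (l' : pc γ' y) (a b a' b' : ℝ) :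
    {τ | τ ∈ Icc a' b' ∧ γ' τ ∈ Orb Γ (γ '' Icc a b)}.Finite := by
  refine ((M.fin a b a' b' l l').biUnion (t := fun g => {τ | ∃ s, g • γ' τ = γ s})
    fun g _ => Set.Subsingleton.finite ?_).subset ?_
  · rintro τ ⟨s, e⟩ τ' ⟨s', e'⟩
    exact M.one h l (M.smul g l') e.symm e'.symm
  · rintro τ ⟨h1, g, s, h2, e⟩
    exact mem_biUnion (x := g) ⟨s, h2, τ, h1, e.symm⟩ ⟨s, e.symm⟩

lemma next (l : pc γ x) (h : ∀ a b, {τ | τ ∈ Icc a b ∧ γ τ ∈ Orb Γ A}.Finite)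
    (hu : γ u ∈ Orb Γ A) : ∃ v, u < v ∧ γ v ∈ Orb Γ A ∧ ∀ τ ∈ Ioo u v, γ τ ∉ Orb Γ A := by
  obtain ⟨g, θ, h1, h2⟩ := M.per l
  have h3 := M.shift l h2.symm u
  rw [sub_zero] at h3
  obtain ⟨v, ⟨v1, v2⟩, v3⟩ := Set.exists_min_image {τ | τ ∈ Ioc u (u + θ) ∧ γ τ ∈ Orb Γ A} id
    ((h u (u + θ)).subset fun τ a => ⟨Ioc_subset_Icc_self a.1, a.2⟩)
    ⟨u + θ, ⟨by linarith, le_rfl⟩, by rwa [← h3, Orb.smul]⟩
  exact ⟨v, v1.1, v2, fun τ a b => a.2.not_ge (v3 τ ⟨⟨a.1, a.2.le.trans v1.2⟩, b⟩)⟩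

/-- The primitive period. -/
lemma prim (l : pc γ x) : ∃ (T : ℝ) (c : Γ), 0 < T ∧ γ T = c • γ 0 ∧ Emb Γ (γ '' Ico 0 T) ∧
    Sim (γ '' Icc 0 T) c := by
  obtain ⟨T, h1, ⟨g, h2⟩, h3⟩ := M.next (A := {γ 0}) l (fun a b =>
    ((M.fin 0 0 a b l l).biUnion (t := fun g => {τ | g • γ τ = γ 0}) fun g _ =>
      Set.Subsingleton.finite fun τ e τ' e' => M.inj (M.smul g l) (e.trans e'.symm)).subset
      fun τ ⟨e, g, e'⟩ => mem_biUnion (x := g) ⟨0, left_mem_Icc.2 le_rfl, τ, e, e'⟩ e')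
    (Orb.self rfl)
  have key : ∀ (k : Γ) (s t : ℝ), 0 ≤ s → s < t → t ≤ T → k • γ 0 = γ (0 + (t - s)) →
      t = T ∧ k = g⁻¹ := fun k s t a b e f => by
    have : ¬ 0 + (t - s) < T := fun d =>
      h3 _ ⟨by linarith, d⟩ (by rw [← f, Orb.smul]; exact Orb.self rfl)
    rw [show 0 + (t - s) = T by linarith] at f
    exact ⟨by linarith, eq_inv_of_mul_eq_one_right (M.free l (by rw [mul_smul, f]; exact h2))⟩
  refine ⟨T, g⁻¹, h1, by rw [← h2, inv_smul_smul], M.emb l 0 fun k s hs t ht a e =>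
    ht.2.ne (key k s t hs.1 a ht.2.le e).1, ?_⟩
  rintro k _ ⟨s, hs, rfl⟩ ⟨t, ht, e⟩
  rcases lt_trichotomy s t with a | rfl | a
  · exact Or.inr (Or.inl (key k s t hs.1 a ht.2 (M.shift l e.symm 0)).2)
  · exact Or.inl (M.free l e.symm)
  · exact Or.inr (Or.inr (inv_eq_iff_eq_inv.1
      (key k⁻¹ t s ht.1 a hs.2 (M.shift l (by rw [e, inv_smul_smul]) 0)).2))

end Mod0

namespace Mod

variable (M : Mod i κ pc lp rep)
include M

lemma loop (b : Bic pc x y γ γ' s₀ s₁ t₀ t₁ c) : lp (γ '' Icc s₀ s₁ ∪ γ' '' Icc t₀ t₁) c :=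
  M.lp2 b.l b.l' b.hs b.ht b.q b.p fun h =>
    b.ht.ne (M.one b.ne b.l b.l' b.q (by simpa [h] using b.p.symm))

lemma swap (b : Bic pc x y γ γ' s₀ s₁ t₀ t₁ c) :
    Bic pc y x γ' (fun τ => c • γ τ) t₀ t₁ s₀ s₁ c where
  ne := b.ne.symm
  l := b.l'
  l' := M.smul c b.l
  hs := b.ht
  ht := b.hs
  q := b.p
  p := by rw [b.q]
  ea := b.eb
  eb := b.ea.of_smul c⁻¹ (by rintro _ ⟨τ, h, rfl⟩; exact ⟨τ, h, by simp⟩)
  meet τ h := by
    rintro ⟨g, t, h1, h2⟩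
    rw [← mul_smul] at h2
    rcases b.cross ⟨τ, Ioo_subset_Icc_self h, rfl⟩ ⟨t, h1, h2⟩ with a | a <;> rw [a] at h2
    · exact h.2.ne (M.one b.ne.symm b.l' b.l (by simpa using h2) b.q.symm)
    · exact h.1.ne (M.one b.ne.symm b.l' (M.smul c b.l) b.p h2)

lemma bl_symm (h : w ∈ BL pc rep x y) : w ∈ BL pc rep y x := by
  rcases h with h | h | ⟨γ, γ', s₀, s₁, t₀, t₁, c, b, h⟩
  exacts [Or.inr (Or.inl h), Or.inl h, Or.inr (Or.inr ⟨_, _, _, _, _, _, c, M.swap b, h⟩)]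

lemma count (h1 : lp K c) (h2 : Sim K c) (h3 : rep c w) (h4 : lp K' c') (h5 : rep c' w')
    (g₁ g₂ g₃ g₄ : Γ) (h : ∀ P ∈ K', P ∈ Orb Γ K →
      g₁ • P ∈ K ∨ g₂ • P ∈ K ∨ g₃ • P ∈ K ∨ g₄ • P ∈ K) : i w w' ≤ 12 * κ := by
  classical
  let T : Γ → Finset Γ := fun g => {g, c * g, c⁻¹ * g}
  have hT : ∀ g, (T g).card ≤ 3 := fun g => Finset.card_le_three
  have key : ∀ (g k : Γ) (P : X), g • P ∈ K → k • P ∈ K → g ∈ T k := fun g k P a b => by
    simpa only [T, Finset.mem_insert, Finset.mem_singleton, mul_inv_eq_iff_eq_mul, one_mul] using h2 (g * k⁻¹) _ b (by simpa [mul_smul] using a)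
  refine (M.up (T g₁ ∪ (T g₂ ∪ (T g₃ ∪ T g₄))) h1 h4 h3 h5 fun g P a b => ?_).trans ?_
  · simp only [Finset.mem_union]
    exact (h P a ⟨g, b⟩).imp (key _ _ _ b) (Or.imp (key _ _ _ b) (Or.imp (key _ _ _ b) (key _ _ _ b)))
  · rw [mul_comm]
    have := Finset.card_union_le (T g₁) (T g₂ ∪ (T g₃ ∪ T g₄))
    have := Finset.card_union_le (T g₂) (T g₃ ∪ T g₄)
    have := Finset.card_union_le (T g₃) (T g₄)
    have := hT g₁; have := hT g₂; have := hT g₃; have := hT g₄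
    exact Nat.mul_le_mul_right _ (by omega)

lemma surg (h : x ≠ y) (l' : pc γ' y) (hA : Emb Γ A) (huv : u < v)
    (no : ∀ τ ∈ Ioo u v, γ' τ ∉ Orb Γ A) (e : Emb Γ (γ' '' Icc u v)) (l : pc γ x) {r r' : ℝ}
    (hr : r' < r) (sub : γ '' Icc r' r ⊆ A) {g g' : Γ} (h1 : γ r = g • γ' u) (h2 : γ r' = g' • γ' v) :
    ∃ (γ₁ : ℝ → X) (s₀ s₁ : ℝ) (c : Γ), Bic pc x y γ₁ γ' s₀ s₁ u v c ∧
      ∀ P ∈ γ₁ '' Icc s₀ s₁, g • P ∈ A := by
  have key : ∀ P ∈ (fun τ => g⁻¹ • γ τ) '' Icc r' r, g • P ∈ A := by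
    rintro _ ⟨τ, a, rfl⟩
    exact sub ⟨τ, a, by simp⟩
  exact ⟨_, r', r, g'⁻¹ * g, ⟨h, M.smul g⁻¹ l, l', hr, huv, by simp [h1], by simp only [h2, mul_smul, smul_inv_smul, inv_smul_smul],
    hA.of_smul g key, e, fun τ a ⟨k, b⟩ => no τ a ⟨g * k, by simpa [mul_smul] using key _ b⟩⟩, key⟩

/-- Surgery along an arc of `y` with both ends on an embedded arc of `x`. -/
lemma gen (h1 : lp K c) (h2 : Sim K c) (h3 : rep c w) (h : x ≠ y) (l : pc γ x) (l' : pc γ' y)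
    {I : Set ℝ} (hI : I.OrdConnected) (hA : Emb Γ (γ '' I)) (sub : γ '' I ⊆ K) (huv : u < v)
    (hu : γ' u ∈ Orb Γ (γ '' I)) (hv : γ' v ∈ Orb Γ (γ '' I))
    (no : ∀ τ ∈ Ioo u v, γ' τ ∉ Orb Γ (γ '' I)) (k : Γ)
    (hk : ∀ τ ∈ Ioo u v, γ' τ ∈ Orb Γ K → k • γ' τ ∈ K) : i w y ≤ 12 * κ ∨
      ∃ γ₁ s₀ s₁ c' w', Bic pc x y γ₁ γ' s₀ s₁ u v c' ∧ rep c' w' ∧ i w w' ≤ 12 * κ := by
  obtain ⟨g, r, r1, r2⟩ := hu
  obtain ⟨g', r', r3, r4⟩ := hv
  have cov : ∀ P ∈ γ' '' Icc u v, P ∈ Orb Γ K → g • P ∈ K ∨ g' • P ∈ K ∨ k • P ∈ K ∨ k • P ∈ K := by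
    rintro _ ⟨τ, a, rfl⟩ b
    rcases a.1.eq_or_lt with rfl | a1
    · exact Or.inl (sub ⟨r, r1, r2⟩)
    rcases a.2.eq_or_lt with rfl | a2
    exacts [Or.inr (Or.inl (sub ⟨r', r3, r4⟩)), Or.inr (Or.inr (Or.inl (hk τ ⟨a1, a2⟩ b)))]
  by_cases hc : ∃ g : Γ, ∃ τ ∈ Ioc u v, γ' τ = g • γ' u
  · obtain ⟨e, τ, a, b⟩ := hc
    obtain ⟨b1, b2⟩ := M.lp1 l' a.1 b
    exact Or.inl (M.count h1 h2 h3 b1 b2 g g' k k fun P hP =>
      cov P (image_mono (Icc_subset_Icc_right a.2) hP))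
  have e : Emb Γ (γ' '' Icc u v) := M.emb l' u fun g s hs t ht a b =>
    hc ⟨g, _, ⟨by linarith, by linarith only [hs.1, ht.2]⟩, b.symm⟩
  have : ∃ (γ₁ : ℝ → X) (s₀ s₁ : ℝ) (c : Γ), Bic pc x y γ₁ γ' s₀ s₁ u v c ∧
      ∀ P ∈ γ₁ '' Icc s₀ s₁, g • P ∈ γ '' I := by
    rcases lt_trichotomy r' r with a | rfl | a
    · exact M.surg h l' hA huv no e l a (image_mono (hI.out r3 r1)) r2 r4
    · exact (hc ⟨g'⁻¹ * g, v, ⟨huv, le_rfl⟩, by rw [mul_smul, ← r2, r4, inv_smul_smul]⟩).elim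
    · refine M.surg h l' hA huv no e (M.rev l) (neg_lt_neg a) ?_ (by simpa using r2)
        (by simpa using r4)
      rintro _ ⟨τ, b, rfl⟩
      exact ⟨-τ, hI.out r1 r3 ⟨by linarith only [b.2], by linarith [b.1]⟩, rfl⟩
  obtain ⟨γ₁, s₀, s₁, c', b, hb⟩ := this
  obtain ⟨w', hw⟩ := M.sim (M.loop b) b.sim
  refine Or.inr ⟨γ₁, s₀, s₁, c', w', b, hw, M.count h1 h2 h3 (M.loop b) hw g g' k k ?_⟩
  rintro P (a | a)
  exacts [fun _ => Or.inl (sub (hb P a)), cov P a]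

/-- From a bicorn to the second curve. -/
lemma chain (n : ℕ) : ∀ {γ s₀ s₁ t₁ c w} (S : Finset ℝ), Bic pc x y γ γ' s₀ s₁ t₀ t₁ c → rep c w →
    (∀ τ ∈ S, τ ∈ Icc t₀ t₁ ∧ ∃ γ s, pc γ x ∧ γ s = γ' τ) → i x y < S.card + n →
    Pth (fun a b => i a b ≤ 12 * κ ∧ b ∈ BL pc rep x y) n w y := by
  classical
  induction n with
  | zero =>
    intro γ s₀ s₁ t₁ c w S b _ hS h
    exact (h.not_ge (M.low S b.ne b.l' (fun τ a => (hS τ a).2) fun g τ a τ' a' e =>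
      b.eb g _ ⟨τ, (hS τ a).1, rfl⟩ ⟨τ', (hS τ' a').1, e.symm⟩)).elim
  | succ n ih =>
    intro γ s₀ s₁ t₁ c w S b hw hS h
    have sub : γ '' Ioc s₀ s₁ ⊆ γ '' Icc s₀ s₁ := image_mono Ioc_subset_Icc_self
    have hu : γ' t₀ ∈ Orb Γ (γ '' Ioc s₀ s₁) := Orb.self ⟨s₁, ⟨b.hs, le_rfl⟩, b.q⟩
    obtain ⟨v, v1, v2, v3⟩ := M.next b.l' (fun a a' => (M.disc b.ne b.l b.l' s₀ s₁ a a').subset
      fun τ e => ⟨e.1, Orb.mono sub e.2⟩) hu
    have hv : t₁ < v := by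
      rcases lt_trichotomy t₁ v with a | rfl | a
      · exact a
      · obtain ⟨g, s, e1, e2⟩ := v2
        rw [b.p, ← mul_smul] at e2
        rw [b.ea _ _ ⟨s₀, left_mem_Icc.2 b.hs.le, rfl⟩ (sub ⟨s, e1, e2⟩), one_smul] at e2
        exact (e1.1.ne' (M.inj b.l e2)).elim
      · exact (b.meet v ⟨v1, a⟩ (Orb.mono sub v2)).elim
    have e : Emb Γ (γ' '' Ico t₀ v) := M.emb b.l' t₀ fun g s hs t ht a e =>
      v3 (t₀ + (t - s)) ⟨by linarith only [a], by linarith only [hs.1, ht.2]⟩ (by rwa [← e, Orb.smul])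
    rcases M.gen (M.loop b) b.sim hw b.ne b.l b.l' ordConnected_Ioc (b.ea.mono sub)
      (sub.trans subset_union_left) v1 hu v2 v3 1 (by
        rintro τ a ⟨g, ⟨s, e1, e2⟩ | e1⟩
        · rcases e1.1.eq_or_lt with rfl | e3
          · have e4 : γ' t₁ = (c * g) • γ' τ := by rw [mul_smul, ← e2, b.p]
            rw [e _ _ ⟨τ, Ioo_subset_Ico_self a, rfl⟩ ⟨t₁, ⟨b.ht.le, hv⟩, e4⟩] at e4
            exact Or.inr ⟨t₁, right_mem_Icc.2 b.ht.le, e4⟩
          · exact (v3 τ a ⟨g, s, ⟨e3, e1.2⟩, e2⟩).elim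
        · rw [e _ _ ⟨τ, Ioo_subset_Ico_self a, rfl⟩ (image_mono (Icc_subset_Ico_right hv) e1)] at e1
          exact Or.inr e1) with a | ⟨γ₁, r₀, r₁, c', w', b', h1, h2⟩
    · exact .cons ⟨a, Or.inr (Or.inl rfl)⟩ (.nil _ _)
    · refine .cons ⟨h2, Or.inr (Or.inr ⟨_, _, _, _, _, _, c', b', h1⟩)⟩
        (ih (insert v S) b' h1 (fun τ a => ?_) ?_)
      · rcases Finset.mem_insert.1 a with rfl | a
        · exact ⟨right_mem_Icc.2 v1.le, _, r₀, M.smul c' b'.l, b'.p.symm⟩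
        · exact ⟨Icc_subset_Icc_right hv.le (hS τ a).1, (hS τ a).2⟩
      · rw [Finset.card_insert_of_notMem fun a => hv.not_ge (hS v a).1.2]
        omega

lemma miss (h1 : lp K c) (h2 : Sim K c) (h3 : rep c w) (l : pc γ x) (h : ∀ τ, γ τ ∉ Orb Γ K) :
    i w x ≤ 12 * κ := by
  obtain ⟨g, θ, a, b⟩ := M.per l
  obtain ⟨b1, b2⟩ := M.lp1 l a b
  exact M.count h1 h2 h3 b1 b2 1 1 1 1 (by rintro _ ⟨τ, -, rfl⟩ e; exact (h τ e).elim)

/-- The bicorns join the two curves. -/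
lemma path (x y : C) :
    Pth (fun a b => i a b ≤ 12 * κ ∧ b ∈ BL pc rep x y) (i x y + 1 + 1) x y := by
  rcases eq_or_ne x y with rfl | h
  · exact .nil _ _
  obtain ⟨γ, l⟩ := M.ex x
  obtain ⟨γ', l'⟩ := M.ex y
  obtain ⟨T, c, h1, h2, h3, h4⟩ := M.prim l
  obtain ⟨h5, h6⟩ := M.lp1 l h1 h2
  have sub : γ '' Ico 0 T ⊆ γ '' Icc 0 T := image_mono Ico_subset_Icc_self
  have e : Orb Γ (γ '' Icc 0 T) ⊆ Orb Γ (γ '' Ico 0 T) := by
    rintro P ⟨g, s, a, b⟩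
    rcases a.2.eq_or_lt with rfl | d
    · exact ⟨c⁻¹ * g, 0, ⟨le_rfl, h1⟩, by rw [mul_smul, ← b, h2, inv_smul_smul]⟩
    · exact ⟨g, s, ⟨a.1, d⟩, b⟩
  by_cases hc : ∃ u, γ' u ∈ Orb Γ (γ '' Icc 0 T)
  · obtain ⟨u, hu⟩ := hc
    obtain ⟨v, v1, v2, v3⟩ := M.next l' (M.disc h l l' 0 T) hu
    rcases M.gen h5 h4 h6 h l l' ordConnected_Ico h3 sub v1 (e hu) (e v2)
      (fun τ a b => v3 τ a (Orb.mono sub b)) 1 (fun τ a b => (v3 τ a b).elim) with
      a | ⟨γ₁, r₀, r₁, c', w', b', h1, h2⟩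
    · exact .cons ⟨a, Or.inr (Or.inl rfl)⟩ (.nil _ _)
    · exact .cons ⟨h2, Or.inr (Or.inr ⟨_, _, _, _, _, _, c', b', h1⟩)⟩
        (M.chain _ ∅ b' h1 (by simp only [Finset.notMem_empty, mem_Icc, exists_and_left, IsEmpty.forall_iff, implies_true]) (by simp))
  · exact .cons ⟨M.miss h5 h4 h6 l' (not_exists.1 hc), Or.inr (Or.inl rfl)⟩ (.nil _ _)

lemma slim1 (b : Bic pc x y γ γ' s₀ s₁ t₀ t₁ c) (hw : rep c w) (h : x ≠ z) (l : pc γ'' z)
    (huv : u < v) (hu : γ'' u ∈ Orb Γ (γ '' Icc s₀ s₁)) (hv : γ'' v ∈ Orb Γ (γ '' Icc s₀ s₁))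
    (m : ℝ) (hm : m ∈ Ioo u v → γ'' m ∉ Orb Γ (γ '' Icc s₀ s₁)) (no : ∀ τ ∈ Ioo u v, τ ≠ m →
      γ'' τ ∉ Orb Γ (γ '' Icc s₀ s₁) ∧ γ'' τ ∉ Orb Γ (γ' '' Icc t₀ t₁)) :
    ∃ w' ∈ BL pc rep x z, i w w' ≤ 12 * κ := by
  obtain ⟨k, hk⟩ := Orb.pick (Γ := Γ) (γ '' Icc s₀ s₁ ∪ γ' '' Icc t₀ t₁) (γ'' m)
  rcases M.gen (M.loop b) b.sim hw h b.l l ordConnected_Icc b.ea subset_union_left huv hu hv
    (fun τ a => (eq_or_ne τ m).elim (fun e => e ▸ hm (e ▸ a)) fun e => (no τ a e).1) k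
    (fun τ a e => (eq_or_ne τ m).elim (fun d => d ▸ hk (d ▸ e)) fun d => by
      obtain ⟨g, e | e⟩ := e
      exacts [((no τ a d).1 ⟨g, e⟩).elim, ((no τ a d).2 ⟨g, e⟩).elim]) with
    a | ⟨γ₁, r₀, r₁, c', w', b', h1, h2⟩
  exacts [⟨z, Or.inr (Or.inl rfl), a⟩, ⟨w', Or.inr (Or.inr ⟨_, _, _, _, _, _, c', b', h1⟩), h2⟩]

/-- Triangles of bicorn sets are slim. -/
lemma slim (z : C) (hw : w ∈ BL pc rep x y) :
    ∃ w', (w' ∈ BL pc rep x z ∨ w' ∈ BL pc rep z y) ∧ (w = w' ∨ i w w' ≤ 12 * κ) := by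
  rcases eq_or_ne x z with rfl | hx
  · exact ⟨w, Or.inr hw, Or.inl rfl⟩
  rcases eq_or_ne y z with rfl | hy
  · exact ⟨w, Or.inl hw, Or.inl rfl⟩
  rcases hw with rfl | rfl | ⟨γ, γ', s₀, s₁, t₀, t₁, c, b, hw⟩
  · exact ⟨w, Or.inl (Or.inl rfl), Or.inl rfl⟩
  · exact ⟨w, Or.inr (Or.inr (Or.inl rfl)), Or.inl rfl⟩
  obtain ⟨δ, l⟩ := M.ex z
  have un : ∀ P, P ∈ Orb Γ (γ '' Icc s₀ s₁ ∪ γ' '' Icc t₀ t₁) ↔
      P ∈ Orb Γ (γ '' Icc s₀ s₁) ∨ P ∈ Orb Γ (γ' '' Icc t₀ t₁) := fun P => exists_or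
  by_cases hc : ∃ u, δ u ∈ Orb Γ (γ '' Icc s₀ s₁ ∪ γ' '' Icc t₀ t₁)
  swap
  · exact ⟨z, Or.inl (Or.inr (Or.inl rfl)),
      Or.inr (M.miss (M.loop b) b.sim hw l (not_exists.1 hc))⟩
  obtain ⟨u, hu⟩ := hc
  have fin : ∀ a a', {τ | τ ∈ Icc a a' ∧ δ τ ∈ Orb Γ (γ '' Icc s₀ s₁ ∪ γ' '' Icc t₀ t₁)}.Finite :=
    fun a a' => ((M.disc hx b.l l s₀ s₁ a a').union (M.disc hy b.l' l t₀ t₁ a a')).subset
      fun τ e => ((un _).1 e.2).imp (And.intro e.1) (And.intro e.1)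
  obtain ⟨m, m1, m2, m3⟩ := M.next l fin hu
  obtain ⟨v, v1, v2, v3⟩ := M.next l fin m2
  simp only [un, not_or] at hu m2 m3 v2 v3
  have no : ∀ τ ∈ Ioo u v, τ ≠ m →
      δ τ ∉ Orb Γ (γ '' Icc s₀ s₁) ∧ δ τ ∉ Orb Γ (γ' '' Icc t₀ t₁) := fun τ a e =>
    e.lt_or_gt.elim (fun d => m3 τ ⟨a.1, d⟩) fun d => v3 τ ⟨d, a.2⟩
  have e : ∀ P, P ∈ Orb Γ ((fun τ => c • γ τ) '' Icc s₀ s₁) → P ∈ Orb Γ (γ '' Icc s₀ s₁) :=
    fun P ⟨g, s, a, e⟩ => ⟨c⁻¹ * g, s, a, by rw [mul_smul, ← e, inv_smul_smul]⟩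
  have key : ∀ u' v', u ≤ u' → u' < v' → v' ≤ v →
      (δ u' ∈ Orb Γ (γ '' Icc s₀ s₁) ∧ δ v' ∈ Orb Γ (γ '' Icc s₀ s₁) ∧
        (m ∈ Ioo u' v' → δ m ∉ Orb Γ (γ '' Icc s₀ s₁))) ∨
      (δ u' ∈ Orb Γ (γ' '' Icc t₀ t₁) ∧ δ v' ∈ Orb Γ (γ' '' Icc t₀ t₁) ∧
        (m ∈ Ioo u' v' → δ m ∉ Orb Γ (γ' '' Icc t₀ t₁))) →
      ∃ w', (w' ∈ BL pc rep x z ∨ w' ∈ BL pc rep z y) ∧ (w = w' ∨ i w w' ≤ 12 * κ) := by
    rintro u' v' a1 a2 a3 (⟨a4, a5, a6⟩ | ⟨a4, a5, a6⟩)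
    · obtain ⟨w', h1, h2⟩ := M.slim1 b hw hx l a2 a4 a5 m a6 fun τ d =>
        no τ (Ioo_subset_Ioo a1 a3 d)
      exact ⟨w', Or.inl h1, Or.inr h2⟩
    · obtain ⟨w', h1, h2⟩ := M.slim1 (M.swap b) hw hy l a2 a4 a5 m a6 fun τ d d' =>
        (no τ (Ioo_subset_Ioo a1 a3 d) d').symm.imp_right (mt (e _))
      exact ⟨w', Or.inr (M.bl_symm h1), Or.inr h2⟩
  have k1 := key u m le_rfl m1 v1.le
  have k2 := key m v m1.le v1 le_rfl
  have k3 := key u v le_rfl (m1.trans v1) le_rfl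
  simp only [right_notMem_Ioo, left_notMem_Ioo, false_imp_iff, and_true] at k1 k2
  by_cases a : δ m ∈ Orb Γ (γ '' Icc s₀ s₁)
  · refine hu.elim (fun d => k1 (Or.inl ⟨d, a⟩)) fun d => v2.elim (fun f => k2 (Or.inl ⟨a, f⟩))
      fun f => (em _).elim (fun r => k1 (Or.inr ⟨d, r⟩)) fun r => k3 (Or.inr ⟨d, f, fun _ => r⟩)
  · exact hu.elim (fun d => v2.elim (fun f => k3 (Or.inl ⟨d, f, fun _ => a⟩)) fun f =>
      k2 (Or.inr ⟨m2.resolve_left a, f⟩)) fun d => k1 (Or.inr ⟨d, m2.resolve_left a⟩)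

end Mod

section

variable {r r' : C → C → Prop} {n m : ℕ}

lemma pth_imp (h : ∀ a b, r a b → r' a b) (p : Pth r n x y) (hn : n ≤ m) : Pth r' m x y := by
  induction p generalizing m with
  | nil => exact .nil _ _
  | cons a _ ih =>
    obtain ⟨m, rfl⟩ := Nat.exists_eq_add_one_of_ne_zero (n := m) (by omega)
    exact .cons (h _ _ a) (ih (by omega))

lemma pth_trans (p : Pth r n x y) (q : Pth r m y z) : Pth r (m + n) x z := by
  induction p with
  | nil => exact pth_imp (fun _ _ => id) q (by omega)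
  | cons a _ ih => exact .cons a (ih q)

lemma pth_symm (h : ∀ a b, r a b → r b a) (p : Pth r n x y) : Pth r n y x := by
  induction p with
  | nil => exact .nil _ _
  | cons a _ ih => simpa [add_comm] using pth_trans ih (.cons (h _ _ a) (.nil 0 _))

lemma pth_split (n : ℕ) : ∀ x, Pth r (m + n) x z → ∃ y, Pth r n x y ∧ Pth r m y z := by
  induction n with
  | zero => exact fun x p => ⟨x, .nil _ _, p⟩
  | succ n ih =>
    rintro x (_ | ⟨a, p⟩)
    · exact ⟨_, .nil _ _, .nil _ _⟩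
    · obtain ⟨y, p1, p2⟩ := ih _ p
      exact ⟨y, .cons a p1, p2⟩

/-- The path metric of a connected symmetric relation. -/
lemma exists_dist (h : ∀ a b, r a b → r b a) (hc : ∀ a b, ∃ n, Pth r n a b) :
    ∃ d : C → C → ℕ, (∀ n a b, d a b ≤ n ↔ Pth r n a b) ∧ Geo d := by
  classical
  have e : ∀ n a b, Nat.find (hc a b) ≤ n ↔ Pth r n a b := fun n a b =>
    ⟨pth_imp (fun _ _ => id) (Nat.find_spec (hc a b)), Nat.find_min' (hc a b)⟩
  generalize hd : (fun a b => Nat.find (hc a b)) = d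
  replace e : ∀ n a b, d a b ≤ n ↔ Pth r n a b := hd ▸ e
  have e' : ∀ a b, Pth r (d a b) a b := fun a b => (e _ a b).1 le_rfl
  have tri : ∀ x y z, d x z ≤ d x y + d y z := fun x y z =>
    (e _ _ _).2 (by simpa [add_comm] using pth_trans (e' x y) (e' y z))
  refine ⟨d, e, fun x => Nat.le_zero.1 ((e _ _ _).2 (.nil _ _)), fun x y a => ?_, fun x y =>
    le_antisymm ((e _ _ _).2 (pth_symm h (e' _ _))) ((e _ _ _).2 (pth_symm h (e' _ _))), tri,
    fun x y t a => ?_⟩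
  · cases (e 0 x y).1 a.le
    rfl
  · obtain ⟨z, p, q⟩ := pth_split (m := d x y - t) t x ((e _ x y).1 (by omega))
    have := (e _ _ _).2 p; have := (e _ _ _).2 q; have := tri x z y
    exact ⟨z, by omega, by omega⟩

end

/-- The graph of curves whose edges are the pairs with at most `K` intersections is hyperbolic. -/
theorem Mod.hyp (M : Mod i κ pc lp rep) {K : ℕ} (hK : 12 * κ ≤ K) :
    ∃ (d : C → C → ℕ) (δ : ℕ), IsDist i K d ∧ ∀ (G : Type) [Group G] [MulAction G C],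
      (∀ (g : G) a b, i (g • a) (g • b) = i a b) → Hyp G d δ := by
  obtain ⟨d, e, g⟩ := exists_dist (r := fun a b => i a b ≤ K) (fun a b h => by rwa [M.symm])
    fun a b => ⟨_, pth_imp (fun _ _ h => h.1.trans hK) (M.path a b) le_rfl⟩
  have one : ∀ a b, i a b ≤ 12 * κ → d a b ≤ 1 := fun a b h =>
    (e _ _ _).2 (.cons (h.trans hK) (.nil _ _))
  have H : Guess d (BL pc rep) (K + 2) := by
    refine ⟨fun x y t ht => ?_, fun x y h w hw => ?_, fun x y z w hw => ?_⟩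
    · have : ∀ n a b, Pth (fun a b => i a b ≤ 12 * κ ∧ b ∈ BL pc rep x y) n a b →
          a ∈ BL pc rep x y → d x a ≤ t → t ≤ d x b → ∃ w ∈ BL pc rep x y, d x w = t := by
        intro n a b p
        induction p with
        | nil => exact fun h1 h2 h3 => ⟨_, h1, by omega⟩
        | @cons _ a b _ h _ ih =>
          intro h1 h2 h3
          have := g.tri x a b; have := one a b h.1
          rcases le_or_gt (d x b) t with k | k
          exacts [ih h.2 k h3, ⟨a, h1, by omega⟩]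
      obtain ⟨w, h1, h2⟩ := this _ x y (M.path x y) (Or.inl rfl) (by simp [g.self]) ht
      exact ⟨w, h1, by omega, by omega⟩
    · rcases hw with rfl | rfl | ⟨γ, γ', s₀, s₁, t₀, t₁, c, b, hw⟩
      · simp [g.self]
      · omega
      · have h1 := (e _ _ _).2 (pth_imp (fun _ _ h => h.1.trans hK)
          (M.chain (i x y + 1) ∅ b hw (by simp only [Finset.notMem_empty, mem_Icc, exists_and_left, IsEmpty.forall_iff, implies_true]) (by simp)) le_rfl)
        have h2 : i x y ≤ K := by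
          rcases (e 1 x y).1 h with _ | ⟨a, _⟩
          · exact (b.ne rfl).elim
          · rename_i p
            cases p
            exact a
        have := g.tri x y w; have := g.symm y w
        omega
    · obtain ⟨w', h1, rfl | h2⟩ := M.slim z hw
      exacts [⟨w, h1, by simp [g.self]⟩, ⟨w', h1, (one _ _ h2).trans (by omega)⟩]
  refine ⟨d, _, e, fun G _ _ hi => g.hyp H G fun γ x y => ?_⟩
  have : ∀ (γ : G) n a b, Pth (fun a b => i a b ≤ K) n a b →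
      Pth (fun a b => i a b ≤ K) n (γ • a) (γ • b) := fun γ n a b p => by
    induction p with
    | nil => exact .nil _ _
    | cons a _ ih => exact .cons (by rwa [hi]) ih
  refine le_antisymm ((e _ _ _).2 (this γ _ _ _ ((e _ _ _).1 le_rfl))) ((e _ _ _).2 ?_)
  simpa using this γ⁻¹ _ _ _ ((e _ (γ • x) (γ • y)).1 le_rfl)

end Pool.Agent.MP_646035_al.H24

end
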