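import Pool.Agent.MP_646035_al.MC.Goal
import Pool.Agent.MP_646035_al.H71.Ax
import Pool.Agent.MP_646035_al.Mg.H24_Bic

attribute [-instance] SMulZeroClass.toSMul MonTypeEquivalenceMon.monMonoid
  Fintype.decidableForallFintype RKHS.instFunLike Algebra.toSMul CommSemiring.toSemiring
  littleWedderburn SemigroupWithZero.toSemigroup DivisionCommMonoid.toDivisionMonoid
  MonoidWithZero.toMonoid AddQuantale.instAddRightMono NormedRing.toRing
  IdemSemiring.toCanonicallyOrderedAdd Multiset.decidableDforallMultiset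
  Finset.decidableDforallFinset AddQuantale.instAddLeftMono Option.decidableForallMem
  instIsRightCancelAddOfAddRightReflectLE NonUnitalRing.toNonUnitalNonAssocRing
  Group.IsPerfect.subsingleton_of_isMulCommutative Int.decidableLTLE
  Vector.instDecidableForallForallMemOfDecidablePred MonoidWithZero.toMulZeroOneClass
  Array.instDecidableForallForallMemOfDecidablePred SeminormedRing.toRing Int.decidableLELT
  Int.decidableLTLT Int.decidableLELE IdemSemiring.toSemiring IdemSemiring.toMulLeftMono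
  Quantale.instMulRightMono CompletelyDistribLattice.toCompleteLattice
  NonUnitalSemiring.toNonUnitalNonAssocSemiring instNonemptyOfMonad LinearOrder.toDecidableEq
  CommRing.toRing IsOrderedMonoid.toMulLeftMono NormedField.toField
  FirstOrder.Language.instDecidableEqFunctions Invertible.toNeZero GroupWithZero.toDivisionMonoid
  AddCommMonoidWithOne.toAddMonoidWithOne LieAdmissibleRing.toNonUnitalNonAssocRing
  NumberField.to_charZero NonAssocSemiring.toNonUnitalNonAssocSemiring DivisionRing.toDivInvMonoid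
  Fintype.decidableExistsFintype Quantale.instMulLeftMono
  NonUnitalNonAssocCommSemiring.toNonUnitalNonAssocSemiring forall_prop_decidable NeZero.of_gt'
  SemigroupWithZero.toMulZeroClass NonAssocRing.toNonUnitalNonAssocRing instCoeTCOfCoe
  Subgroup.normal_of_isMulCommutative NonUnitalNormedCommRing.toNonUnitalCommRing instCoeTOfCoeDep
  TestFunctionClass.toDFunLike BooleanRing.toRing NonAssocSemiring.toMulZeroOneClass
  LeftPreLieRing.toNonUnitalNonAssocRing SemilatticeInf.toPartialOrder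
  Order.Coframe.toCompleteLattice NonUnitalRingHomClass.toMulHomClass
  ContDiffMapSupportedInClass.toDFunLike Finset.decidableDExistsFinset instCoeHTCT
  NonUnitalSeminormedCommRing.toNonUnitalCommRing GroupWithZero.toDivInvMonoid
  MulZeroOneClass.toMulZeroClass

-- part MP_646035_al.MC.Asm
section

/-!
Growth rates of an extension with a kernel of polynomial size, and the assembly of the fourth class.
-/

namespace Pool.Agent.MP_646035_al.MC

open Filter Topology Pool.Agent.MP_4a6971_al.Mcg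

section

variable {M G : Type*} [Group M] [Group G]

theorem asm_count [DecidableEq G] (j : M →* G) (S : Finset M) (n : ℕ) :
    (ball S n).ncard ≤ (ball (S.image j) n).ncard * (ball S (n + n) ∩ (j.ker : Set M)).ncard := by
  classical
  have h1 : ∀ y : ball (S.image j) n, ∃ x ∈ ball S n, j x = y := fun y =>
    (ball_map j S n).le y.2
  choose t ht using h1
  have h2 : ∀ x ∈ ball S n, j x ∈ ball (S.image j) n := fun x hx => by
    rw [ball_map]
    exact ⟨x, hx, rfl⟩
  have : Finite (ball (S.image j) n) := ball_finite _ n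
  have : Finite (ball S (n + n) ∩ (j.ker : Set M) : Set M) := (ball_finite S _).inter_of_left _
  rw [← Nat.card_coe_set_eq, ← Nat.card_coe_set_eq, ← Nat.card_coe_set_eq, ← Nat.card_prod]
  refine Nat.card_le_card_of_injective (fun x => (⟨j x.1, h2 _ x.2⟩,
    ⟨(t ⟨j x.1, h2 _ x.2⟩)⁻¹ * x.1, mul_mem_ball (inv_mem_ball (ht _).1) x.2, ?_⟩)) ?_
  · simp only [SetLike.mem_coe, MonoidHom.mem_ker, map_mul, map_inv, (ht _).2, inv_mul_cancel]
  · intro x y h
    have a := congrArg Prod.fst h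
    have b := congrArg (fun p => p.2.1) h
    simp only at a b
    rw [a] at b
    exact Subtype.ext (mul_left_cancel b)

theorem asm_poly (C d : ℕ) :
    Tendsto (fun n : ℕ => (((C + 1) * (n + n + 1) ^ d : ℕ) : ℝ) ^ (1 / (n : ℝ))) atTop (𝓝 1) := by
  have h0 : Tendsto (fun n : ℕ => 1 / (n : ℝ)) atTop (𝓝 0) := tendsto_one_div_atTop_nhds_zero_nat
  have h1 : Tendsto (fun n : ℕ => ((C + 1 : ℝ) * 3 ^ d) ^ (1 / (n : ℝ))) atTop (𝓝 1) := by
    have := (Real.continuousAt_const_rpow (a := (C + 1 : ℝ) * 3 ^ d) (b := 0)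
      (by positivity)).tendsto.comp h0
    rwa [Real.rpow_zero] at this
  have h2 : Tendsto (fun n : ℕ => ((n : ℝ) ^ (1 / (n : ℝ))) ^ d) atTop (𝓝 1) := by
    simpa only [one_div, Function.comp_apply, one_pow] using (tendsto_rpow_div.comp tendsto_natCast_atTop_atTop).pow d
  have h3 := h1.mul h2
  rw [mul_one] at h3
  refine tendsto_of_tendsto_of_tendsto_of_le_of_le' tendsto_const_nhds h3
    (Eventually.of_forall fun n => Real.one_le_rpow ?_ (by positivity)) ?_
  · exact_mod_cast Nat.one_le_iff_ne_zero.2 (by positivity)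
  · filter_upwards [eventually_ge_atTop 1] with n hn
    have hn' : (1 : ℝ) ≤ n := by exact_mod_cast hn
    rw [← Real.rpow_natCast ((n : ℝ) ^ _), ← Real.rpow_mul (by positivity), mul_comm (1 / (n : ℝ)),
      Real.rpow_mul (by positivity), ← Real.mul_rpow (by positivity) (by positivity),
      Real.rpow_natCast]
    refine Real.rpow_le_rpow (by positivity) ?_ (by positivity)
    push_cast
    rw [mul_assoc, ← mul_pow]
    gcongr
    linarith only [hn']

theorem growthSet_subset_of_polyKer {j : M →* G} (hj : Function.Surjective j) (hk : PolyKer j) :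
    growthSet M ⊆ growthSet G := by
  classical
  rintro e ⟨S, hS, he⟩
  obtain ⟨e', he'⟩ := exists_isRate (S.image j)
  obtain ⟨C, d, hC⟩ := hk S
  have h1 : e' ≤ e := le_of_tendsto_of_tendsto' he' he fun n => by
    refine Real.rpow_le_rpow (by positivity) ?_ (by positivity)
    rw [ball_map]
    exact_mod_cast Set.ncard_image_le (ball_finite S n)
  have h2 : e ≤ e' * 1 := le_of_tendsto_of_tendsto' he (he'.mul (asm_poly C d)) fun n => by
    rw [← Real.mul_rpow (by positivity) (by positivity)]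
    refine Real.rpow_le_rpow (by positivity) ?_ (by positivity)
    exact_mod_cast (asm_count j S n).trans (Nat.mul_le_mul_left _ ((hC _).trans
      (Nat.mul_le_mul_right _ (Nat.le_succ C))))
  refine ⟨S.image j, ?_, (show e' = e by linarith only [h1, h2]) ▸ he'⟩
  rw [Finset.coe_image, ← MonoidHom.map_closure, hS, Subgroup.map_top_of_surjective _ hj]

theorem WO.of_polyKer {j : M →* G} (hj : Function.Surjective j) (hk : PolyKer j) (h : WO G) :
    WO M := fun A hA => h A (hA.trans (growthSet_subset_of_polyKer hj hk))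

theorem polyKer_of_finite {j : M →* G} (h : (j.ker : Set M).Finite) : PolyKer j := fun _ =>
  ⟨(j.ker : Set M).ncard, 0, fun _ => by
    simpa using Set.ncard_le_ncard Set.inter_subset_right h⟩

theorem WO.of_poly (h : ∀ S : Finset G, ∃ C d : ℕ, ∀ n, (ball S n).ncard ≤ C * (n + 1) ^ d) :
    WO G := by
  have key : growthSet G ⊆ {1} := by
    rintro e ⟨S, -, he⟩
    obtain ⟨C, d, hC⟩ := h S
    refine le_antisymm (le_of_tendsto_of_tendsto' he (asm_poly C d) fun n => ?_)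
      (IsRate.one_le he)
    refine Real.rpow_le_rpow (by positivity) ?_ (by positivity)
    exact_mod_cast (hC n).trans (Nat.mul_le_mul (Nat.le_succ C) (Nat.pow_le_pow_left (by omega) d))
  rintro A hA ⟨a, ha⟩
  exact ⟨a, ha, fun b hb => ((key (hA ha)).trans (key (hA hb)).symm).le⟩

theorem WO.of_finite [Finite G] : WO G := WO.of_poly fun S =>
  ⟨(Set.univ : Set G).ncard, 0, fun _ => by
    simpa only [Set.ncard_univ, pow_zero, mul_one] using Set.ncard_le_ncard (Set.subset_univ _) Set.finite_univ⟩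

theorem WO.of_equiv (E : M ≃* G) (h : WO G) : WO M :=
  h.of_polyKer (j := E.toMonoidHom) E.surjective (polyKer_of_finite (by
    rw [(MonoidHom.ker_eq_bot_iff _).2 E.injective]
    simp))

end

theorem class4_of (hAB : GoalAB) (hC : GoalC) (hL : GoalLow) : Class4 := fun g c => by
  rcases le_or_gt 3 (2 * g + c.P.card + c.b) with h | h
  · obtain ⟨Γ, _, _, Y, A, j, h1, h2, h3, h4, h5⟩ := hC g c h
    by_cases h0 : g = 0 ∧ c.P.card + c.b = 3
    · have := h4 h0
      exact WO.of_finite.of_polyKer h2 h3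
    · exact (hAB Γ Y A h1 (h5 h0)).of_polyKer h2 h3
  · exact hL hAB hC g c h

end Pool.Agent.MP_646035_al.MC

end

-- part MP_646035_al.H71.Cur1
section

/-!
Systems of curves: closed sets, heights, components, chains.
-/

namespace Pool.Agent.MP_646035_al.H71

open Relation

variable {C : Type*} {i : C → C → ℕ} {ξ C0 : ℕ}

namespace Pth

variable {r r' : C → C → Prop} {m n : ℕ} {a b c : C}

theorem succ (h : Pth r n a b) : Pth r (n + 1) a b := by
  induction h with
  | nil n a => exact nil _ _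
  | cons h _ ih => exact cons h ih

theorem mono (h : Pth r m a b) (hmn : m ≤ n) : Pth r n a b := by
  induction hmn with
  | refl => exact h
  | step _ ih => exact ih.succ

theorem one (h : r a b) : Pth r 1 a b := cons h (nil _ _)

theorem trans (h : Pth r m a b) (h' : Pth r n b c) : Pth r (m + n) a c := by
  induction h with
  | nil m a => exact h'.mono (Nat.le_add_left _ _)
  | cons h _ ih => rw [Nat.add_right_comm]; exact cons h (ih h')

theorem symm (hr : ∀ a b, r a b → r b a) (h : Pth r n a b) : Pth r n b a := by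
  induction h with
  | nil n a => exact nil _ _
  | cons h _ ih => exact ih.trans (one (hr _ _ h))

theorem map {D : Type*} {s : D → D → Prop} (f : C → D) (hr : ∀ a b, r a b → s (f a) (f b))
    (h : Pth r n a b) : Pth s n (f a) (f b) := by
  induction h with
  | nil n a => exact nil _ _
  | cons h _ ih => exact cons (hr _ _ h) ih

theorem imp (hr : ∀ a b, r a b → r' a b) (h : Pth r n a b) : Pth r' n a b := h.map id hr

theorem mem {p : C → Prop} (hr : ∀ a b, r a b → p b) (h : Pth r n a b) (ha : p a) : p b := by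
  induction h with
  | nil n a => exact ha
  | cons h _ ih => exact ih (hr _ _ h)

theorem of_one (h : Pth r 1 a b) : a = b ∨ r a b := by
  cases h with
  | nil => exact Or.inl rfl
  | cons h h' =>
    cases h'
    exact Or.inr h

end Pth

theorem perp_anti {A B : Set C} (h : A ⊆ B) : perp i B ⊆ perp i A := fun _ hb a ha => hb a (h ha)

theorem not_perp {A : Set C} {b : C} : b ∉ perp i A ↔ ∃ a ∈ A, i a b ≠ 0 := by simp [perp]

theorem Clo.inter {W V : Set C} (h : Clo i W) (h' : Clo i V) : Clo i (W ∩ V) := fun _ hb =>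
  ⟨h (perp_anti (perp_anti Set.inter_subset_left) hb),
    h' (perp_anti (perp_anti Set.inter_subset_right) hb)⟩

theorem Clo.pp {W A : Set C} (h : Clo i W) (hA : A ⊆ W) : perp i (perp i A) ⊆ W :=
  (perp_anti (perp_anti hA)).trans h

theorem clo_univ : Clo i Set.univ := fun _ _ => trivial

theorem Mc.mono {P Q : Set C} (h : Mc i Q) (hP : P ⊆ Q) : Mc i P :=
  fun a ha b hb => h a (hP ha) b (hP hb)

theorem mc_bdy (W : Set C) : Mc i (bdy i W) := fun a ha _ hb => hb.2 a ha.1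

variable (i) in
/-- close curves, seen from `W` -/
def Cl (K : ℕ) (W : Set C) (a b : C) : Prop :=
  a ∉ perp i W ∧ b ∉ perp i W ∧
    (i a b ≤ K ∨ ∃ δ ∈ bdy i W, i a b ≤ K * i δ a ∨ i a b ≤ K * i δ b)

variable (i) in
/-- distance at most `n`, seen from `W` -/
abbrev Ch (K : ℕ) (W : Set C) (n : ℕ) (a b : C) : Prop := Pth (Cl i K W) n a b

variable (i) in
/-- steps inside `W` -/
def St (K : ℕ) (W : Set C) (a b : C) : Prop :=
  a ∈ W \ perp i W ∧ b ∈ W \ perp i W ∧ i a b ≤ K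

variable (i) in
/-- descending chains of closed sets below `W` are shorter than `h` -/
def Ht : ℕ → Set C → Prop
  | 0, _ => False
  | h + 1, W => ∀ Y, Clo i Y → Y ⊂ W → Ht h Y

theorem Ht.succ {h : ℕ} {W : Set C} (H : Ht i h W) : Ht i (h + 1) W := by
  induction h generalizing W with
  | zero => exact H.elim
  | succ h ih => exact fun Y h1 h2 => ih (H Y h1 h2)

theorem Ht.sub {h : ℕ} {W Y : Set C} (H : Ht i h W) (h1 : Clo i Y) (h2 : Y ⊆ W) : Ht i h Y := by
  rcases h2.eq_or_ssubset with rfl | h2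
  · exact H
  · cases h with
    | zero => exact H.elim
    | succ h => exact (H Y h1 h2).succ

variable {K K' : ℕ} {W Y Z : Set C} {a b c δ : C}

theorem Cl.of_le (ha : a ∉ perp i W) (hb : b ∉ perp i W) (h : i a b ≤ K) : Cl i K W a b :=
  ⟨ha, hb, Or.inl h⟩

theorem Cl.mono (h : Cl i K W a b) (hK : K ≤ K') : Cl i K' W a b :=
  ⟨h.1, h.2.1, h.2.2.imp (fun h => h.trans hK) fun ⟨δ, h1, h2⟩ =>
    ⟨δ, h1, h2.imp (fun h => h.trans (by gcongr)) fun h => h.trans (by gcongr)⟩⟩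

theorem lt_of_not_cl (ha : a ∉ perp i W) (hb : b ∉ perp i W) (h : ¬ Cl i K W a b) :
    K < i a b ∧ ∀ δ ∈ bdy i W, K * i δ a < i a b ∧ K * i δ b < i a b := by
  simp only [Cl, ha, hb, not_false_eq_true, true_and, not_or, not_exists, not_and, not_le] at h
  exact h

theorem Ch.not_cl {n : ℕ} (h : ¬ Ch i K W (n + 1) a b) : ¬ Cl i K W a b :=
  fun h1 => h ((Pth.one h1).mono (by omega))

/-- A path with small steps is a chain or has a vertex that misses `Y`. -/
theorem Pth.ex {r : C → C → Prop} (hr : ∀ a b, r a b → i a b ≤ K) {n : ℕ} (h : Pth r n a b)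
    (ha : a ∉ perp i Y) : Ch i K Y n a b ∨
      ∃ j j' v, j + 1 + j' ≤ n ∧ v ∈ perp i Y ∧ Pth r (j + 1) a v ∧ Pth r j' v b := by
  induction h with
  | nil n a => exact Or.inl (Pth.nil _ _)
  | @cons n a b c h h' ih =>
    by_cases hb : b ∈ perp i Y
    · exact Or.inr ⟨0, n, b, by omega, hb, Pth.one h, h'⟩
    · rcases ih hb with h1 | ⟨j, j', v, h1, h2, h3, h4⟩
      · exact Or.inl (Pth.cons (Cl.of_le ha hb (hr _ _ h)) h1)
      · exact Or.inr ⟨j + 1, j', v, by omega, h2, Pth.cons h h3, h4⟩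

variable (i) in
/-- the crossing component of `u` in `W` -/
def comp (W : Set C) (u : C) : Set C := {v | ReflTransGen (Crs i W) u v}

theorem comp_sub (hu : a ∈ W) : comp i W a ⊆ W := fun _ h => by
  induction h with
  | refl => exact hu
  | tail _ h _ => exact h.2.1

namespace Ax

variable (H : Ax i ξ C0)
include H

theorem sub_pp (A : Set C) : A ⊆ perp i (perp i A) := fun a ha b hb => H.symm a b ▸ hb a ha

theorem clo_perp (A : Set C) : Clo i (perp i A) := perp_anti (H.sub_pp A)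

theorem ppp (A : Set C) : perp i (perp i (perp i A)) = perp i A :=
  (H.clo_perp A).antisymm (H.sub_pp _)

theorem mc_fin {P : Set C} (h : Mc i P) : P.Finite := by
  by_contra hP
  obtain ⟨t, h1, h2⟩ := Set.Infinite.exists_subset_card_eq hP (ξ + 1)
  have := H.xi t (h.mono h1)
  omega

theorem mc_insert {P : Set C} (h : Mc i P) (ha : a ∈ perp i P) : Mc i (insert a P) := by
  rintro b (rfl | hb) c (rfl | hc)
  exacts [H.self _, H.symm _ _ ▸ ha c hc, ha b hb, h b hb c hc]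

theorem perp_univ : perp i Set.univ = ∅ := Set.eq_empty_of_forall_notMem fun a ha => by
  obtain ⟨y, -, h⟩ := H.ni ∅ (by simp [Mc]) a (by simp [perp]) (by simp)
  exact h (H.symm _ _ ▸ ha y trivial)

theorem cl_symm (h : Cl i K W a b) : Cl i K W b a :=
  ⟨h.2.1, h.1, H.symm a b ▸ h.2.2.imp id fun ⟨δ, h1, h2⟩ => ⟨δ, h1, h2.symm⟩⟩

theorem ch_symm {n : ℕ} (h : Ch i K W n a b) : Ch i K W n b a := h.symm fun _ _ => H.cl_symm

theorem st_symm {n : ℕ} (h : Pth (St i K W) n a b) : Pth (St i K W) n b a :=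
  h.symm fun _ _ h => ⟨h.2.1, h.1, H.symm _ _ ▸ h.2.2⟩

/-- The Behrstock inequality. -/
theorem beh (hK : 1 ≤ K) {δ' : C} (h1 : δ ∈ bdy i W) (h2 : δ' ∈ bdy i Z) (h3 : δ ∉ perp i Z)
    (h4 : δ' ∉ perp i W) (ha : a ∉ perp i W) (h : ¬ Cl i K W a δ') :
    i δ' a ≠ 0 ∧ a ∉ perp i Z ∧ Cl i K Z a δ := by
  obtain ⟨h5, h6⟩ := lt_of_not_cl ha h4 h
  rw [H.symm a] at h5 h6
  have h7 : a ∉ perp i Z := fun e => by have := e δ' h2.1; omega
  refine ⟨by omega, h7, by_contra fun h8 => ?_⟩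
  have h9 := ((lt_of_not_cl h7 h3 h8).2 δ' h2).1
  have := (h6 δ h1).1
  rw [H.symm a] at h9
  nlinarith

theorem ht_aux (h : ℕ) : ∀ W, Clo i W → ∀ P Q : Finset C, Mc i P → Mc i Q →
    (P : Set C) ⊆ perp i W \ W → (Q : Set C) ⊆ perp i W → 2 * ξ < P.card + Q.card + h →
    Ht i h W := by
  classical
  induction h with
  | zero =>
    intro W _ P Q h1 h2 _ _ h3
    have := H.xi P h1
    have := H.xi Q h2
    omega
  | succ h ih =>
    intro W hW P Q h1 h2 h3 h4 h5 Y hY hYW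
    have hp := perp_anti (i := i) hYW.1
    have t1 : ∀ c ∈ W, c ∈ perp i Y → c ∉ Y → Ht i h Y := fun c c1 c2 c3 => by
      refine ih Y hY (insert c P) Q ?_ h2 ?_ (h4.trans hp) ?_
      · rw [Finset.coe_insert]
        exact H.mc_insert h1 fun a ha => H.symm _ _ ▸ (h3 ha).1 c c1
      · rw [Finset.coe_insert]
        exact Set.insert_subset ⟨c2, c3⟩ fun a ha => ⟨hp (h3 ha).1, fun e => (h3 ha).2 (hYW.1 e)⟩
      · rw [Finset.card_insert_of_notMem fun e => (h3 e).2 c1]
        omega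
    obtain ⟨β, b1, b2⟩ : ∃ β ∈ perp i Y, β ∉ perp i W :=
      Set.not_subset.1 fun e => hYW.2 ((H.sub_pp W).trans ((perp_anti e).trans hY))
    by_cases b3 : β ∈ perp i (bdy i W)
    · have b4 := (H.inn W hW β b3).resolve_right b2
      by_cases b5 : β ∈ Y
      · refine ih Y hY P (insert β Q) h1 ?_ ?_ ?_ ?_
        · rw [Finset.coe_insert]
          exact H.mc_insert h2 fun a ha => H.symm _ _ ▸ h4 ha β b4
        · exact fun a ha => ⟨hp (h3 ha).1, fun e => (h3 ha).2 (hYW.1 e)⟩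
        · rw [Finset.coe_insert]
          exact Set.insert_subset b1 (h4.trans hp)
        · rw [Finset.card_insert_of_notMem fun e => b2 (h4 e)]
          omega
      · exact t1 β b4 b1 b5
    · obtain ⟨δ, d1, d2⟩ := not_perp.1 b3
      exact t1 δ d1.1 (hp d1.2) fun e => d2 (b1 δ e)

theorem ht (hW : Clo i W) : Ht i (2 * ξ + 1) W :=
  H.ht_aux _ W hW ∅ ∅ (by simp [Mc]) (by simp [Mc]) (by simp) (by simp) (by simp)

theorem crs_symm (h : ReflTransGen (Crs i W) a b) : ReflTransGen (Crs i W) b a := by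
  induction h with
  | refl => exact ReflTransGen.refl
  | tail _ h ih => exact ih.head ⟨h.2.1, h.1, H.symm _ _ ▸ h.2.2⟩

theorem comp_diff (hW : Clo i W) (h1 : a ∈ W \ perp i W) :
    perp i (perp i (comp i W a)) \ perp i (perp i (perp i (comp i W a))) = comp i W a := by
  rw [H.ppp]
  refine Set.Subset.antisymm (fun b hb => ?_) fun b hb => ⟨H.sub_pp _ hb, not_perp.2 ?_⟩
  · obtain ⟨c, c1, c2⟩ := not_perp.1 hb.2
    exact c1.tail ⟨comp_sub h1.1 c1, hW.pp (comp_sub h1.1) hb.1, c2⟩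
  · rcases ReflTransGen.cases_tail hb with rfl | ⟨c, c1, c2⟩
    · obtain ⟨c, c1, c2⟩ := not_perp.1 h1.2
      exact ⟨c, ReflTransGen.single ⟨h1.1, c1, H.symm _ _ ▸ c2⟩, c2⟩
    · exact ⟨c, c1, c2.2.2⟩

theorem con_comp (hW : Clo i W) (h1 : a ∈ W \ perp i W) :
    Con i (perp i (perp i (comp i W a))) := by
  have key : ∀ b ∈ comp i W a, ReflTransGen (Crs i (perp i (perp i (comp i W a)))) a b := by
    intro b hb
    induction hb with
    | refl => exact ReflTransGen.refl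
    | tail e1 e2 ih => exact ih.tail ⟨H.sub_pp _ e1, H.sub_pp _ (e1.tail e2), e2.2.2⟩
  refine ⟨H.clo_perp _, ?_, ?_⟩ <;> rw [H.comp_diff hW h1]
  exact fun b hb c hc => (H.crs_symm (key b hb)).trans (key c hc)

theorem con_univ : Con i Set.univ := by
  refine ⟨clo_univ, fun a _ b hb => ?_, ?_⟩
  · clear hb
    induction H.con a b with
    | refl => exact ReflTransGen.refl
    | tail _ h ih => exact ih.tail ⟨trivial, trivial, h⟩
  · rw [H.perp_univ, Set.sdiff_empty]
    exact H.sub_pp _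

/-- A proper subsurface has a boundary curve that is not peripheral. -/
theorem rel_bd (hW : Con i W) (hY : Clo i Y) (h1 : Y ⊆ W) (h2 : Y ≠ W) (ha : a ∈ Y)
    (ha' : a ∉ perp i W) : ∃ β ∈ bdy i Y, β ∉ perp i W := by
  by_contra! hc
  refine h2 (h1.antisymm (hW.gen.trans (hY.pp fun b hb => ?_)))
  have := hW.con a ⟨h1 ha, ha'⟩ b hb
  clear hb
  induction this with
  | refl => exact ha
  | tail _ e ih =>
    exact (H.inn Y hY _ fun δ hδ => H.symm _ _ ▸ hc δ hδ _ e.2.1).resolve_right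
      fun h => e.2.2 (h _ ih)

theorem bd_ne (hY : Clo i Y) (h2 : Y ≠ Set.univ) (ha : a ∉ perp i Y) : ∃ β, β ∈ bdy i Y := by
  obtain ⟨u, hu, -⟩ := not_perp.1 ha
  obtain ⟨β, h, -⟩ := H.rel_bd H.con_univ hY (Set.subset_univ _) h2 hu (by simp [H.perp_univ])
  exact ⟨β, h⟩

theorem exists_max (V : Set C) (P : Finset C) (hP : Mc i P) (hV : (P : Set C) ⊆ V) :
    ∃ Q : Finset C, Mc i Q ∧ P ⊆ Q ∧ (Q : Set C) ⊆ V ∧ V ∩ perp i Q ⊆ Q := by
  classical
  obtain ⟨n, hn⟩ : ∃ n, ξ < P.card + n := ⟨ξ + 1, by omega⟩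
  induction n generalizing P with
  | zero => have := H.xi P hP; omega
  | succ n ih =>
    by_cases h : V ∩ perp i P ⊆ P
    · exact ⟨P, hP, subset_rfl, hV, h⟩
    obtain ⟨c, c1, c2⟩ := Set.not_subset.1 h
    obtain ⟨Q, q1, q2, q3⟩ := ih (insert c P) (by rw [Finset.coe_insert]; exact H.mc_insert hP c1.2)
      (by rw [Finset.coe_insert]; exact Set.insert_subset c1.1 hV)
      (by rw [Finset.card_insert_of_notMem c2]; omega)
    exact ⟨Q, q1, (Finset.subset_insert _ _).trans q2, q3⟩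

theorem clo_single (δ : C) : Clo i {δ} := fun b hb => by
  by_contra h
  obtain ⟨y, y1, y2⟩ := H.ni {δ} (by simp [Mc, H.self]) b
    (by simpa [perp] using hb δ (by simp [perp, H.self])) (by simpa using h)
  exact y2 (H.symm _ _ ▸ hb y (by simpa using y1))

end Ax

end Pool.Agent.MP_646035_al.H71

end

-- part MP_646035_al.H71.Cur2
section

/-!
Systems of curves: uniform local finiteness.
-/

namespace Pool.Agent.MP_646035_al.H71

open Relation

variable {C : Type*} {i : C → C → ℕ} {ξ C0 : ℕ}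

theorem card_le_of_sep {R : C → C → Prop} (hs : ∀ a b, R a b → R b a) (hr : ∀ a, R a a) {l N : ℕ}
    {A : Finset C} (h1 : ∀ B ⊆ A, (∀ a ∈ B, ∀ b ∈ B, a ≠ b → ¬ R a b) → B.card ≤ l)
    (h2 : ∀ x ∈ A, ∀ B ⊆ A, (∀ a ∈ B, R x a) → B.card ≤ N) : A.card ≤ l * N := by
  classical
  induction l generalizing A with
  | zero =>
    rcases A.eq_empty_or_nonempty with rfl | ⟨x, hx⟩
    · simp
    · simpa using h1 {x} (by simpa using hx) (by simp only [Finset.mem_singleton, ne_eq, forall_eq, not_true_eq_false, IsEmpty.forall_iff])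
  | succ l ih =>
    rcases A.eq_empty_or_nonempty with rfl | ⟨x, hx⟩
    · simp
    have h3 := h2 x hx (A.filter (R x)) (Finset.filter_subset _ _) fun a ha =>
      (Finset.mem_filter.1 ha).2
    have h4 := ih (A := A.filter fun a => ¬ R x a) (fun B hB hB' => ?_)
      fun y hy B hB => h2 y (Finset.filter_subset _ _ hy) B (hB.trans (Finset.filter_subset _ _))
    · rw [← Finset.card_filter_add_card_filter_not (R x), add_mul]
      omega
    have h5 : ∀ a ∈ B, ¬ R x a := fun a ha => (Finset.mem_filter.1 (hB ha)).2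
    have h6 := h1 (insert x B) (Finset.insert_subset hx (hB.trans (Finset.filter_subset _ _))) ?_
    · rw [Finset.card_insert_of_notMem fun e => h5 x e (hr x)] at h6
      omega
    intro a ha b hb hab
    rcases Finset.mem_insert.1 ha with e | ha' <;> rcases Finset.mem_insert.1 hb with e' | hb'
    exacts [absurd (e.trans e'.symm) hab, e ▸ h5 b hb', fun h => h5 a ha' (hs _ _ (e' ▸ h)),
      hB' a ha' b hb' hab]

variable (i) in
/-- At most `l` members of `A` are pairwise far apart in any subsurface of `W`. -/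
def PP (K k l : ℕ) (A : Finset C) (W : Set C) : Prop :=
  ∀ Y, Clo i Y → Y ⊆ W → ∀ B ⊆ A, (∀ a ∈ B, a ∉ perp i Y) →
    (∀ a ∈ B, ∀ b ∈ B, a ≠ b → ¬ Ch i K Y k a b) → B.card ≤ l

theorem PP.mono {K K' k l : ℕ} {A A' : Finset C} {W W' : Set C} (h : PP i K k l A W) (hK : K ≤ K')
    (hA : A' ⊆ A) (hW : W' ⊆ W) : PP i K' k l A' W' := fun Y h1 h2 B h3 h4 h5 =>
  h Y h1 (h2.trans hW) B (h3.trans hA) h4 fun a ha b hb hab e =>
    h5 a ha b hb hab (e.imp fun _ _ h => h.mono hK)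

variable (i) in
/-- uniform local finiteness up to the height `h` -/
def Ulf (h : ℕ) : Prop := ∀ K k l, 1 ≤ K → 1 ≤ l → ∃ N, ∀ W, Clo i W → Ht i h W →
  ∀ A : Finset C, (A : Set C) ⊆ W → PP i K k l A W → A.card ≤ N

namespace Ax

variable (H : Ax i ξ C0)
include H

theorem pp_image [DecidableEq C] {K k l r : ℕ} {A : Finset C} {W : Set C} (h : PP i K k l A W)
    (hl : 1 ≤ l) (hr : 1 ≤ r) (f : C → C) (hf : ∀ Y, Clo i Y → Y ⊆ W →
      (∀ a ∈ A, f a ∉ perp i Y → a ∉ perp i Y ∧ Ch i K Y r (f a) a) ∨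
        ∀ a ∈ A, ∀ b ∈ A, f a ∉ perp i Y → f b ∉ perp i Y → Ch i K Y 2 (f a) (f b)) :
    PP i K (r + k + r) l (A.image f) W := by
  intro Y h1 h2 B h3 h4 h5
  choose! g g1 g2 using fun y (hy : y ∈ B) => Finset.mem_image.1 (h3 hy)
  rcases hf Y h1 h2 with h6 | h6
  · have h7 := fun y hy => h6 _ (g1 y hy) (by rw [g2 y hy]; exact h4 y hy)
    rw [← Finset.card_image_of_injOn (f := g) fun a ha b hb e => by rw [← g2 a ha, e, g2 b hb]]
    refine h Y h1 h2 _ (Finset.image_subset_iff.2 g1) (Finset.forall_mem_image.2 fun y hy => (h7 y hy).1)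
      (Finset.forall_mem_image.2 fun y hy => Finset.forall_mem_image.2 fun z hz hyz e => ?_)
    refine h5 y hy z hz (fun e => hyz (by rw [e])) ?_
    have := ((h7 y hy).2.trans e).trans (H.ch_symm (h7 z hz).2)
    rwa [g2 y hy, g2 z hz] at this
  · refine (Finset.card_le_one.2 fun y hy z hz => by_contra fun e => h5 y hy z hz e ?_).trans hl
    have := h6 _ (g1 y hy) _ (g1 z hz) (by rw [g2 y hy]; exact h4 y hy)
      (by rw [g2 z hz]; exact h4 z hz)
    rw [g2 y hy, g2 z hz] at this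
    exact this.mono (by omega)

theorem tw_le {tw : C → C → C → ℕ} (T : IsTw i C0 tw) {M n : ℕ} {δ a b : C}
    (h : Ch i M {δ} n a b) (ha : i δ a ≠ 0) : tw δ a b ≤ C0 + n * (M + 2 * C0) := by
  have p : ∀ a, a ∉ perp i {δ} ↔ i δ a ≠ 0 := by simp [perp]
  have q : ∀ a b, i δ a ≠ 0 → i δ b ≠ 0 → i a b ≤ M * i δ b → tw δ a b ≤ M + C0 :=
    fun a b ha hb h => Nat.le_of_mul_le_mul_right ((T.le δ a b ha hb).trans (by linarith only [h]))
      (Nat.pos_of_ne_zero hb)
  induction h with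
  | nil n a =>
    have := T.le δ a a ha ha
    rw [H.self, zero_add] at this
    exact (Nat.le_of_mul_le_mul_right this (Nat.pos_of_ne_zero ha)).trans (Nat.le_add_right _ _)
  | @cons n a b c h h' ih =>
    have hb := (p b).1 h.2.1
    have h1 := T.tri δ a b c ha hb ((p c).1 (h'.mem (p := (· ∉ perp i {δ})) (fun _ _ h => h.2.1) h.2.1))
    have h2 : tw δ a b ≤ M + C0 := by
      obtain h | ⟨_, ⟨rfl, -⟩, h | h⟩ := h.2.2
      · exact q a b ha hb (h.trans (Nat.le_mul_of_pos_right _ (Nat.pos_of_ne_zero hb)))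
      · exact T.symm _ a b ▸ q b a hb ha (H.symm a b ▸ h)
      · exact q a b ha hb h
    have := ih hb
    rw [add_mul]
    omega

theorem dt_step (M k l : ℕ) : ∃ N, ∀ W, Clo i W → ∀ X : Finset C, Mc i X → bdy i W ⊆ X →
    (X : Set C) ⊆ W → W ∩ perp i X ⊆ X → ∀ A : Finset C, (A : Set C) ⊆ W →
    (∀ a ∈ A, ∀ δ ∈ X, i δ a ≤ M) → PP i M k l A W → A.card ≤ N := by
  classical
  obtain ⟨tw, T⟩ := H.tw
  obtain ⟨N, hN⟩ := T.dt M (C0 + (k + k) * (M + 2 * C0))
  refine ⟨ξ + (l + 1) ^ ξ * N, fun W hW X h1 h2 h3 h4 A h5 h6 h7 => ?_⟩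
  obtain ⟨P, p1, p2, -, p3⟩ := H.exists_max Set.univ X h1 (Set.subset_univ _)
  have p4 : ∀ δ ∈ P, ∀ a ∈ A, i δ a ≠ 0 → δ ∈ X := fun δ hδ a ha e => by
    have : δ ∈ perp i X := fun c hc => p1 c (p2 hc) δ hδ
    exact h4 ⟨(H.inn W hW δ (perp_anti h2 this)).resolve_right
      fun e' => e (H.symm _ _ ▸ e' a (h5 ha)), this⟩
  have key : ∀ (Q : Finset C), Q ⊆ P → ∀ (N0 : ℕ) (A' : Finset C), A' ⊆ A → (∀ B ⊆ A',
      (∀ δ ∈ Q, ∀ a ∈ B, ∀ b ∈ B, i δ a ≠ 0 → i δ b ≠ 0 →
        tw δ a b ≤ C0 + (k + k) * (M + 2 * C0)) → B.card ≤ N0) →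
      A'.card ≤ (l + 1) ^ Q.card * N0 := by
    intro Q
    induction Q using Finset.induction_on with
    | empty => exact fun _ N0 A' _ h => by simpa using h A' subset_rfl (by simp only [Finset.notMem_empty, ne_eq, IsEmpty.forall_iff, implies_true])
    | insert δ Q hδ ih =>
      intro hQ N0 A' hA h
      rw [Finset.card_insert_of_notMem hδ, pow_succ, mul_assoc]
      refine ih ((Finset.subset_insert _ _).trans hQ) _ A' hA fun B hB hB' => ?_
      have e : ∀ B' ⊆ B, (∀ a ∈ B', ∀ b ∈ B', i δ a ≠ 0 → i δ b ≠ 0 →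
          tw δ a b ≤ C0 + (k + k) * (M + 2 * C0)) → B'.card ≤ N0 := fun B' b1 b2 =>
        h B' (b1.trans hB) (Finset.forall_mem_insert _ _ _ |>.2
          ⟨b2, fun δ hδ a ha b hb => hB' δ hδ a (b1 ha) b (b1 hb)⟩)
      have e1 := e (B.filter fun a => ¬ i δ a ≠ 0) (Finset.filter_subset _ _)
        fun a ha _ _ h => absurd h (Finset.mem_filter.1 ha).2
      have e2 : (B.filter fun a => i δ a ≠ 0).card ≤ l * N0 := by
        refine card_le_of_sep (R := Ch i M {δ} k) (fun _ _ => H.ch_symm) (fun _ => Pth.nil _ _)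
          (fun B' b1 b2 => ?_) fun x _ B' b1 b2 => ?_
        · rcases B'.eq_empty_or_nonempty with rfl | ⟨a, ha⟩
          · simp
          have b3 := b1.trans ((Finset.filter_subset _ _).trans (hB.trans hA))
          refine h7 {δ} (H.clo_single δ) (Set.singleton_subset_iff.2 (h3 (p4 δ
            (hQ (Finset.mem_insert_self _ _)) a (b3 ha) (Finset.mem_filter.1 (b1 ha)).2))) B' b3
            (fun a ha => ?_) b2
          simpa [perp] using (Finset.mem_filter.1 (b1 ha)).2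
        · exact e B' (b1.trans (Finset.filter_subset _ _)) fun a ha b hb h _ =>
            H.tw_le T ((H.ch_symm (b2 a ha)).trans (b2 b hb)) h
      rw [← Finset.card_filter_add_card_filter_not (fun a => i δ a ≠ 0), add_mul]
      omega
  have k1 := key P subset_rfl N (A.filter fun a => ¬ a ∈ P) (Finset.filter_subset _ _)
    fun B hB h => hN P B p1 (fun a ha => p3 ⟨trivial, ha⟩)
      (fun a ha => (Finset.mem_filter.1 (hB ha)).2) (fun a ha δ hδ => ?_) h
  · have k2 : (A.filter fun a => a ∈ P).card ≤ ξ :=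
      (Finset.card_le_card fun a ha => (Finset.mem_filter.1 ha).2).trans (H.xi P p1)
    have k3 : (l + 1) ^ P.card * N ≤ (l + 1) ^ ξ * N :=
      Nat.mul_le_mul_right _ (Nat.pow_le_pow_right (by omega) (H.xi P p1))
    rw [← Finset.card_filter_add_card_filter_not (fun a => a ∈ P)]
    omega
  · have ha' := Finset.filter_subset _ _ (hB ha)
    by_cases e : i δ a = 0
    · omega
    · exact h6 a ha' δ (p4 δ hδ a ha' e)

theorem grow {h : ℕ} (IH : Ulf i h) (j : ℕ) : ∀ M k l, 1 ≤ M → 1 ≤ l → ∃ N, ∀ W, Clo i W →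
    Ht i (h + 1) W → ∀ X : Finset C, Mc i X → bdy i W ⊆ X → (X : Set C) ⊆ W →
    (∃ x ∈ X, x ∉ perp i W) → ξ < X.card + j → ∀ A : Finset C, (A : Set C) ⊆ W →
    (∀ a ∈ A, ∀ δ ∈ X, i δ a ≤ M) → PP i M k l A W → A.card ≤ N := by
  classical
  induction j with
  | zero =>
    refine fun M k l _ _ => ⟨0, fun W _ _ X h1 _ _ _ h2 => ?_⟩
    have := H.xi X h1
    omega
  | succ j ih =>
    intro M k l hM hl
    have hM' : M ≤ (C0 + 1) * M := Nat.le_mul_of_pos_left _ (by omega)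
    obtain ⟨N0, e0⟩ := H.dt_step M k l
    obtain ⟨N1, e1⟩ := IH M k l hM hl
    obtain ⟨N2, e2⟩ := IH ((C0 + 1) * M) (1 + k + 1) l (hM.trans hM') hl
    obtain ⟨N3, e3⟩ := ih ((C0 + 1) * M) k l (hM.trans hM') hl
    refine ⟨N0 + (N3 * N2 + N1), fun W hW hH X h1 h2 h3 ⟨x, x1, x2⟩ h4 A h5 h6 h7 => ?_⟩
    by_cases hc : W ∩ perp i X ⊆ X
    · exact (e0 W hW X h1 h2 h3 hc A h5 h6 h7).trans (Nat.le_add_right _ _)
    refine le_trans ?_ (Nat.le_add_left _ _)
    have hV : Clo i (W ∩ perp i X) := hW.inter (H.clo_perp _)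
    have ni : ∀ u ∈ W ∩ perp i X, u ∉ X → ∃ y ∈ W ∩ perp i X, i u y ≠ 0 := fun u u1 u2 => by
      obtain ⟨y, y1, y2⟩ := H.ni X h1 u u1.2 u2
      exact ⟨y, ⟨(H.inn W hW y (perp_anti h2 y1)).resolve_right fun e => y2 (e u u1.1), y1⟩, y2⟩
    obtain ⟨u, u1, u2⟩ := Set.not_subset.1 hc
    have u3 : u ∈ (W ∩ perp i X) \ perp i (W ∩ perp i X) := by
      obtain ⟨y, y1, y2⟩ := ni u u1 u2
      exact ⟨u1, not_perp.2 ⟨y, y1, H.symm _ _ ▸ y2⟩⟩
    have c1 := H.con_comp hV u3
    have c2 := H.comp_diff hV u3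
    have c3 := hV.pp (comp_sub (i := i) u1)
    have c4 : ∀ δ ∈ bdy i (perp i (perp i (comp i (W ∩ perp i X) u))), δ ∈ X := fun δ hδ => by
      by_contra e
      obtain ⟨y, y1, y2⟩ := ni δ (c3 hδ.1) e
      obtain ⟨c, d1, d2⟩ := not_perp.1 fun e : y ∈ perp i (comp i (W ∩ perp i X) u) =>
        y2 (H.symm _ _ ▸ hδ.1 y e)
      exact y2 (H.symm _ _ ▸ hδ.2 y (H.sub_pp _ (d1.tail ⟨comp_sub u1 d1, y1, d2⟩)))
    have c5 := c2.ge (ReflTransGen.refl : u ∈ comp i (W ∩ perp i X) u)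
    generalize perp i (perp i (comp i (W ∩ perp i X) u)) = V at c1 c3 c4 c5
    have c6 : V ⊆ W := c3.trans Set.inter_subset_left
    obtain ⟨Pr, P⟩ := H.pr V c1
    choose! f hf using P.ex
    have f1 : ∀ a ∈ A, a ∉ perp i V → i (f a) a ≤ (C0 + 1) * M := fun a ha e => by
      obtain e' | ⟨δ, d1, d2⟩ := P.le a _ (hf a e)
      · omega
      · have := h6 a ha δ (c4 δ d1)
        nlinarith only [d2, this]
    have s1 := Finset.filter_subset (fun a => ¬ a ∈ perp i V) A
    have k1 := e1 (W ∩ perp i V) (hW.inter (H.clo_perp _))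
      (hH _ (hW.inter (H.clo_perp _)) ⟨Set.inter_subset_left, fun e => c5.2 (e u1.1).2⟩)
      (A.filter fun a => a ∈ perp i V)
      (fun a ha => ⟨h5 (Finset.mem_filter.1 ha).1, (Finset.mem_filter.1 ha).2⟩)
      (h7.mono le_rfl (Finset.filter_subset _ _) Set.inter_subset_left)
    have k2 := e2 V c1.clo (hH V c1.clo ⟨c6, fun e => x2 fun z hz => H.symm _ _ ▸ (c3 (e hz)).2 x x1⟩)
      ((A.filter fun a => ¬ a ∈ perp i V).image f) (by
        rw [Finset.coe_image]
        rintro _ ⟨a, ha, rfl⟩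
        exact (P.mem a _ (hf a (Finset.mem_filter.1 ha).2)).1)
      (H.pp_image (h7.mono hM' s1 c6) hl le_rfl f fun Y _ y2 => Or.inl fun a ha e => by
        obtain ⟨a1, a2⟩ := Finset.mem_filter.1 ha
        have : a ∉ perp i Y := fun e' => e fun z hz => P.dis a _ (hf a a2) z (y2 hz) (e' z hz)
        exact ⟨this, Pth.one (Cl.of_le e this (f1 a a1 a2))⟩)
    have k3 := Finset.card_le_mul_card_image (f := f) (A.filter fun a => ¬ a ∈ perp i V) N3 ?_
    · rw [← Finset.card_filter_add_card_filter_not (fun a => a ∈ perp i V)]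
      have := Nat.mul_le_mul_left N3 k2
      omega
    refine Finset.forall_mem_image.2 fun a ha => ?_
    have m1 := P.mem a _ (hf a (Finset.mem_filter.1 ha).2)
    have s2 := (Finset.filter_subset (fun b => f b = f a) _).trans s1
    refine e3 W hW hH (insert (f a) X) ?_ ?_ ?_ ⟨x, Finset.mem_insert_of_mem x1, x2⟩ ?_ _
      (fun b hb => h5 (s2 hb)) (fun b hb δ hδ => ?_) (h7.mono hM' s2 subset_rfl)
    · rw [Finset.coe_insert]
      exact H.mc_insert h1 (c3 m1.1).2
    · rw [Finset.coe_insert]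
      exact h2.trans (Set.subset_insert _ _)
    · rw [Finset.coe_insert]
      exact Set.insert_subset (c6 m1.1) h3
    · rw [Finset.card_insert_of_notMem fun e => m1.2 fun z hz => H.symm _ _ ▸ (c3 hz).2 _ e]
      omega
    · obtain ⟨b1, b2⟩ := Finset.mem_filter.1 hb
      rcases Finset.mem_insert.1 hδ with rfl | hδ
      · exact b2 ▸ f1 b (s1 b1) (Finset.mem_filter.1 b1).2
      · exact (h6 b (s1 b1) δ hδ).trans hM'

theorem tight {K r : ℕ} (hK : 1 ≤ K) {W : Set C} (hW : Con i W) {x a : C}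
    (hx : x ∈ W \ perp i W) (h : Pth (St i K W) (r + 1 + 1) x a) (h1 : K < i x a) :
    ∃ y, Pth (St i K W) 1 x y ∧ Pth (St i K W) (r + 1) y a ∧ ∀ Y, Clo i Y → Y ⊆ W →
      x ∈ perp i Y → y ∉ perp i Y → a ∉ perp i Y ∧ Ch i K Y (r + 1) y a := by
  classical
  have ha : a ∈ W \ perp i W := h.mem (p := (· ∈ W \ perp i W)) (fun _ _ h => h.2.1) hx
  by_cases hc : ∃ β ∈ W \ perp i W, i x β = 0 ∧ i a β = 0
  · obtain ⟨β, b1, b2, b3⟩ := hc
    have s1 : ({x, a} : Set C) ⊆ W := Set.pair_subset hx.1 ha.1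
    obtain ⟨y, y1, y2⟩ := H.rel_bd hW (H.clo_perp (perp i {x, a})) (hW.clo.pp s1)
      (fun e => b1.2 fun z hz => H.symm _ _ ▸ (e ▸ hz : z ∈ perp i (perp i {x, a})) β
        (by simp [perp, b2, b3])) (H.sub_pp _ (Set.mem_insert _ _)) hx.2
    have y3 : y ∈ W \ perp i W := ⟨hW.clo.pp s1 y1.1, y2⟩
    have y4 := y1.2 x (H.sub_pp _ (by simp))
    have y5 : i y a ≤ K := by rw [H.symm, y1.2 a (H.sub_pp _ (by simp))]; omega
    refine ⟨y, Pth.one ⟨hx, y3, by omega⟩, (Pth.one ⟨y3, ha, y5⟩).mono (by omega),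
      fun Y _ _ e1 e2 => ?_⟩
    have : a ∉ perp i Y := fun e => e2 fun z hz => y1.1 z (by
      rintro _ (rfl | rfl)
      exacts [H.symm _ _ ▸ e1 z hz, H.symm _ _ ▸ e z hz])
    exact ⟨this, (Pth.one (Cl.of_le e2 this y5)).mono (by omega)⟩
  have ne : ∃ n y, Pth (St i K W) 1 x y ∧ Pth (St i K W) (r + 1) y a ∧ i y a = n := by
    cases h with
    | nil => rw [H.self] at h1; omega
    | cons h h' => exact ⟨_, _, Pth.one h, h', rfl⟩
  obtain ⟨y, y1, y2, y3⟩ := Nat.find_spec ne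
  refine ⟨y, y1, y2, fun Y c1 c2 e1 e2 => ?_⟩
  have y4 : y ∈ W \ perp i W := y1.mem (p := (· ∈ W \ perp i W)) (fun _ _ h => h.2.1) hx
  obtain ⟨u, u1, u2⟩ := not_perp.1 e2
  obtain ⟨β, b1, b2⟩ := H.rel_bd hW c1 c2 (fun e => hx.2 (e ▸ e1)) u1
    fun e => u2 (H.symm _ _ ▸ e y y4.1)
  have b3 : β ∈ W \ perp i W := ⟨c2 b1.1, b2⟩
  have b4 : i x β = 0 := H.symm _ _ ▸ e1 β b1.1
  have b5 : a ∉ perp i Y := fun e => hc ⟨β, b3, b4, H.symm _ _ ▸ e β b1.1⟩
  refine ⟨b5, by_contra fun e => ?_⟩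
  obtain ⟨j, j', v, v1, v2, v3, v4⟩ := (y2.ex (fun _ _ h => h.2.2) e2).resolve_left e
  have v5 : v ∈ W \ perp i W := v3.mem (p := (· ∈ W \ perp i W)) (fun _ _ h => h.2.1) y4
  have m1 := Nat.find_min' ne ⟨β, Pth.one ⟨hx, b3, by omega⟩,
    (Pth.cons ⟨b3, v5, by rw [v2 β b1.1]; omega⟩ v4).mono (by omega), rfl⟩
  have m2 := ((lt_of_not_cl e2 b5 (Ch.not_cl e)).2 β b1).2
  nlinarith only [hK, y3, m1, m2]

theorem radius {h : ℕ} (IH : Ulf i h) {K l : ℕ} (hK : 1 ≤ K) (hl : 1 ≤ l) (r : ℕ) : ∀ k, ∃ N,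
    ∀ W, Con i W → Ht i (h + 1) W → ∀ x ∈ W \ perp i W, ∀ A : Finset C,
    (∀ a ∈ A, Pth (St i K W) (r + 1) x a) → PP i K k l A W → A.card ≤ N := by
  classical
  have mem : ∀ {W n x a}, Pth (St i K W) n x a → x ∈ W \ perp i W → a ∈ W \ perp i W :=
    fun h => h.mem (p := (· ∈ _ \ perp i _)) fun _ _ h => h.2.1
  have le : ∀ {W x a}, Pth (St i K W) 1 x a → i x a ≤ K := fun h => by
    rcases h.of_one with rfl | h
    · rw [H.self]; omega
    · exact h.2.2
  have base : ∀ k, ∃ N, ∀ W, Con i W → Ht i (h + 1) W → ∀ x ∈ W \ perp i W, ∀ A : Finset C,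
      (∀ a ∈ A, Pth (St i K W) 1 x a) → PP i K k l A W → A.card ≤ N := fun k => by
    obtain ⟨N, hN⟩ := H.grow IH (ξ + 1) K k l hK hl
    refine ⟨N, fun W hW hH x hx A h1 h2 => hN W hW.clo hH
      (insert x (H.mc_fin (mc_bdy W)).toFinset) ?_ ?_ ?_ ⟨x, Finset.mem_insert_self _ _, hx.2⟩
      (by omega) A (fun a ha => (mem (h1 a ha) hx).1) (fun a ha δ hδ => ?_) h2⟩
    · rw [Finset.coe_insert, Set.Finite.coe_toFinset]
      exact H.mc_insert (mc_bdy W) fun δ hδ => H.symm _ _ ▸ hδ.2 x hx.1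
    · rw [Finset.coe_insert, Set.Finite.coe_toFinset]
      exact Set.subset_insert _ _
    · rw [Finset.coe_insert, Set.Finite.coe_toFinset]
      exact Set.insert_subset hx.1 Set.inter_subset_left
    · rcases Finset.mem_insert.1 hδ with rfl | hδ
      · exact le (h1 a ha)
      · rw [H.symm, ((Set.Finite.mem_toFinset _).1 hδ).2 a (mem (h1 a ha) hx).1]
        omega
  induction r with
  | zero => exact base
  | succ r ih =>
    intro k
    obtain ⟨N0, e0⟩ := base k
    obtain ⟨N1, e1⟩ := base (r + 1 + k + (r + 1))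
    obtain ⟨N2, e2⟩ := ih k
    refine ⟨N0 + N2 * N1, fun W hW hH x hx A h1 h2 => ?_⟩
    have s1 := Finset.filter_subset (fun a => ¬ i x a ≤ K) A
    choose! f f1 f2 f3 using fun a (ha : a ∈ A.filter fun a => ¬ i x a ≤ K) =>
      H.tight hK hW hx (h1 a (s1 ha)) (not_le.1 (Finset.mem_filter.1 ha).2)
    have k0 := e0 W hW hH x hx (A.filter fun a => i x a ≤ K) (fun a ha => Pth.one
      ⟨hx, mem (h1 a (Finset.mem_filter.1 ha).1) hx, (Finset.mem_filter.1 ha).2⟩)
      (h2.mono le_rfl (Finset.filter_subset _ _) subset_rfl)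
    have k1 := e1 W hW hH x hx _ (Finset.forall_mem_image.2 f1)
      (H.pp_image (h2.mono le_rfl s1 subset_rfl) hl (by omega) f fun Y y1 y2 => by
        by_cases e : x ∈ perp i Y
        · exact Or.inl fun a ha => f3 a ha Y y1 y2 e
        · exact Or.inr fun a ha b hb a1 b1 => Pth.cons (H.cl_symm (Cl.of_le e a1 (le (f1 a ha))))
            (Pth.one (Cl.of_le e b1 (le (f1 b hb)))))
    have k2 := Finset.card_le_mul_card_image (f := f) (A.filter fun a => ¬ i x a ≤ K) N2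
      (Finset.forall_mem_image.2 fun a ha => e2 W hW hH (f a) (mem (f1 a ha) hx) _
        (fun b hb => (Finset.mem_filter.1 hb).2 ▸ f2 b (Finset.mem_filter.1 hb).1)
        (h2.mono le_rfl ((Finset.filter_subset _ _).trans s1) subset_rfl))
    rw [← Finset.card_filter_add_card_filter_not (fun a => i x a ≤ K)]
    have := Nat.mul_le_mul_left N2 k1
    omega

theorem ch_st {K n : ℕ} {W : Set C} {Pr : C → C → Prop} (P : IsPr i C0 W Pr) {a b c c' : C}
    (h : Ch i K W n a b) (hc : Pr a c) (hc' : Pr b c') :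
    Pth (St i (C0 * (K + 1) + K) W) (2 * n + 1) c c' := by
  have q : ∀ {y c c'}, Pr y c → Pr y c' → St i (C0 * (K + 1) + K) W c c' := fun h h' =>
    ⟨P.mem _ _ h, P.mem _ _ h', (P.diam _ _ _ h h').trans (by nlinarith)⟩
  induction h generalizing c with
  | nil n a => exact (Pth.one (q hc hc')).mono (by omega)
  | @cons n a b e h _ ih =>
    obtain ⟨u, v, u1, v1, h1⟩ : ∃ u v, Pr a u ∧ Pr b v ∧ i u v ≤ C0 * (K + 1) := by
      obtain h1 | ⟨δ, d1, h1 | h1⟩ := h.2.2
      · exact P.near a h.1 b h.2.1 K (Or.inl h1)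
      · obtain ⟨v, u, h2, h3, h4⟩ := P.near b h.2.1 a h.1 K (Or.inr ⟨δ, d1, H.symm _ _ ▸ h1⟩)
        exact ⟨u, v, h3, h2, H.symm _ _ ▸ h4⟩
      · exact P.near a h.1 b h.2.1 K (Or.inr ⟨δ, d1, h1⟩)
    exact Pth.cons (q hc u1) (Pth.cons ⟨P.mem _ _ u1, P.mem _ _ v1, by omega⟩ (ih v1 hc'))

theorem ulf (h : ℕ) : Ulf i h := by
  classical
  induction h with
  | zero => exact fun _ _ _ _ _ => ⟨0, fun _ _ h => h.elim⟩
  | succ h IH =>
    intro K k l hK hl
    obtain ⟨N, hN⟩ := H.radius IH (K := C0 * (K + 1) + K) (by omega) hl (2 * k) k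
    refine ⟨ξ + ξ * (l * N), fun W hW hH A h1 h2 => ?_⟩
    have s1 := Finset.filter_subset (fun a => ¬ a ∈ perp i W) A
    have m1 : ∀ a ∈ A.filter fun a => ¬ a ∈ perp i W, a ∈ W \ perp i W := fun a ha =>
      ⟨h1 (s1 ha), (Finset.mem_filter.1 ha).2⟩
    have k1 : (A.filter fun a => a ∈ perp i W).card ≤ ξ := H.xi _ ((mc_bdy W).mono fun a ha =>
      ⟨h1 (Finset.mem_filter.1 ha).1, (Finset.mem_filter.1 ha).2⟩)
    have k2 : (A.filter fun a => ¬ a ∈ perp i W).card ≤ ξ * (l * N) := by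
      refine card_le_of_sep (R := ReflTransGen (Crs i W)) (fun _ _ => H.crs_symm)
        (fun _ => ReflTransGen.refl) (fun B b1 b2 => H.xi B fun a ha b hb => ?_)
        fun x hx B b1 b2 => ?_
      · by_contra e
        exact b2 a ha b hb (fun e' => e (e' ▸ H.self a))
          (ReflTransGen.single ⟨(m1 a (b1 ha)).1, (m1 b (b1 hb)).1, e⟩)
      have c1 := H.con_comp hW (m1 x hx)
      have c2 := fun a (ha : a ∈ B) => (H.comp_diff hW (m1 x hx)).ge (b2 a ha)
      have c3 := hW.pp (comp_sub (i := i) (m1 x hx).1)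
      generalize perp i (perp i (comp i W x)) = V at c1 c2 c3
      obtain ⟨Pr, P⟩ := H.pr V c1
      have c4 : ∀ a ∈ B, Pr a a := fun a ha => by
        obtain ⟨c, hc⟩ := P.ex a (c2 a ha).2
        exact P.self a c hc (c2 a ha).1 ▸ hc
      refine card_le_of_sep (R := Ch i K V k) (fun _ _ => H.ch_symm) (fun _ => Pth.nil _ _)
        (fun B' d1 d2 => h2 V c1.clo c3 B' (d1.trans (b1.trans s1)) (fun a ha => (c2 a (d1 ha)).2) d2)
        fun y hy B' d1 d2 => hN V c1 (hH.sub c1.clo c3) y (c2 y hy) B'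
          (fun a ha => H.ch_st P (d2 a ha) (c4 y hy) (c4 a (d1 ha)))
          (h2.mono (by omega) (d1.trans (b1.trans s1)) c3)
    rw [← Finset.card_filter_add_card_filter_not (fun a => a ∈ perp i W)]
    omega

theorem ulf_univ {K : ℕ} (hK : 1 ≤ K) (k l : ℕ) (hl : 1 ≤ l) :
    ∃ N, ∀ A : Finset C, PP i K k l A Set.univ → A.card ≤ N :=
  (H.ulf _ K k l hK hl).imp fun _ h A => h _ clo_univ (H.ht clo_univ) A (Set.subset_univ _)

end Ax

end Pool.Agent.MP_646035_al.H71

end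

-- part MP_646035_al.H24.B0
section

/-!
An acylindrical non-elementary action on a hyperbolic space with uniform displacement gives
uniform supermultiplicativity of the growth function.
-/

namespace Pool.Agent.MP_646035_al.H24

variable {X : Type*}

/-- Acylindricity, for one value of `ε`. -/
def Acyl (G : Type*) [Group G] [MulAction G X] (d : X → X → ℕ) (ε R N : ℕ) : Prop :=
  ∀ x y, R ≤ d x y → ∀ F : Finset G, (∀ g ∈ F, d x (g • x) ≤ ε ∧ d y (g • y) ≤ ε) → F.card ≤ N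

variable {G : Type*} [Group G] [MulAction G X] {d : X → X → ℕ} {δ : ℕ}

/-- `g` translates at scale `L` along a quasi-axis through `o`. -/
structure Lox (d : X → X → ℕ) (o : X) (g : G) (L : ℕ) : Prop where
  up : d o (g • o) ≤ 2 * L
  low : ∀ n : ℕ, n * L ≤ 5 * d o (g ^ n • o)
  bt : ∀ m n : ℕ, Bt d L ((g ^ m)⁻¹ • o) o (g ^ n • o)

lemma exists_cosets {S : Finset G} (hS : Subgroup.closure (S : Set G) = ⊤) {H : Subgroup G}
    (hH : ¬ H.FiniteIndex) (k : ℕ) : ∃ F : Finset G, F.card = k + 1 ∧ (∀ f ∈ F, f ∈ ball S k) ∧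
      ∀ f ∈ F, ∀ f' ∈ F, f⁻¹ * f' ∈ H → f = f' := by
  classical
  induction k with
  | zero => exact ⟨{1}, by simp, by simpa using one_mem_ball S 0, by simp only [Finset.mem_singleton, forall_eq, mul_one, inv_mem_iff, one_mem, imp_self]⟩
  | succ k ih =>
    obtain ⟨F, h1, h2, h3⟩ := ih
    obtain ⟨s, hs, f, hf, hn⟩ : ∃ s ∈ ball S 1, ∃ f ∈ F, ∀ f' ∈ F, f'⁻¹ * (s * f) ∉ H := by
      by_contra hc
      push Not at hc
      have key : ∀ g : G, ∀ f ∈ F, ∃ f' ∈ F, f'⁻¹ * (g * f) ∈ H := by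
        intro g
        have hg : g ∈ Subgroup.closure (S : Set G) := hS ▸ Subgroup.mem_top g
        induction hg using Subgroup.closure_induction'' with
        | one => exact fun f hf => ⟨f, hf, by simp⟩
        | mem x hx => exact hc x (mem_ball_one hx)
        | inv_mem x hx => exact hc _ (inv_mem_ball (mem_ball_one hx))
        | mul a b _ _ ha hb =>
          intro f hf
          obtain ⟨f1, hf1, e1⟩ := hb f hf
          obtain ⟨f2, hf2, e2⟩ := ha f1 hf1
          exact ⟨f2, hf2, by simpa only [mul_assoc, mul_inv_cancel_left] using mul_mem e2 e1⟩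
      obtain ⟨f0, hf0⟩ := Finset.card_pos.1 (by omega : 0 < F.card)
      have : Finite (G ⧸ H) := by
        refine Finite.of_surjective (fun f : F => ((f : G) : G ⧸ H)) fun q => ?_
        obtain ⟨g, rfl⟩ := QuotientGroup.mk_surjective q
        obtain ⟨f', hf', e⟩ := key (g * f0⁻¹) f0 hf0
        exact ⟨⟨f', hf'⟩, QuotientGroup.eq.2 (by simpa only [inv_mul_cancel_right] using e)⟩
      exact hH Subgroup.finiteIndex_of_finite_quotient
    have hnot : s * f ∉ F := fun hm => hn _ hm (by simp)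
    refine ⟨insert (s * f) F, by rw [Finset.card_insert_of_notMem hnot, h1], ?_, ?_⟩
    · intro x hx
      rcases Finset.mem_insert.1 hx with rfl | hx
      · simpa [add_comm] using mul_mem_ball hs (h2 f hf)
      · exact ball_mono S (Nat.le_succ k) (h2 x hx)
    · intro x hx y hy e
      rcases Finset.mem_insert.1 hx with rfl | hx <;> rcases Finset.mem_insert.1 hy with rfl | hy
      · rfl
      · exact absurd (by simpa only [mul_inv_rev, mul_assoc, inv_inv] using inv_mem e) (hn y hy)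
      · exact absurd e (hn x hx)
      · exact h3 x hx y hy e

lemma pow_mem_ball {S : Finset G} {g : G} {k : ℕ} (hg : g ∈ ball S k) (n : ℕ) :
    g ^ n ∈ ball S (n * k) := by
  induction n with
  | zero => simpa using one_mem_ball S 0
  | succ n ih => rw [pow_succ, add_mul, one_mul]; exact mul_mem_ball ih hg

namespace Hyp

variable (h : Hyp G d δ)
include h

lemma ball_le {S : Finset G} {o : X} {L : ℕ} (hL : ∀ s ∈ ball S 1, d o (s • o) ≤ L) (r : ℕ) :
    ∀ g ∈ ball S r, d o (g • o) ≤ r * L := by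
  refine ball_induction (fun r g => d o (g • o) ≤ r * L) (by simp [h.self])
    (fun r g hg => by rw [add_mul]; omega) (fun r g x hg hx => ?_) r
  have h1 : x ∈ ball S 1 := by
    rcases hx with hx | hx
    exacts [mem_ball_one hx, by simpa using inv_mem_ball (mem_ball_one hx)]
  have := h.mul_le g x o; have := hL x h1
  rw [add_mul]; omega

lemma lox_of {P L : ℕ} {g : G} {o : X} (hL : 100 * δ + 100 ≤ L) (h1 : Bt d P (g⁻¹ • o) o (g • o))
    (h2 : 2 * P ≤ L) (h3 : L ≤ d o (g • o) + 4 * δ + 2) (h4 : d o (g • o) ≤ 2 * L) :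
    Lox d o g L := by
  refine ⟨h4, fun n => ?_, fun m n => (h.orbit2 h1 (by omega) m n).mono (by omega)⟩
  induction n with
  | zero => simp
  | succ n ih =>
    have h5 := h.orbit h1 (by omega) n
    unfold Bt at h5
    rw [pow_succ, mul_smul, h.inv, ← mul_smul, ← pow_succ] at h5
    rw [add_mul]; omega

lemma lox_inv {L : ℕ} {g : G} {o : X} (H : Lox d o g L) : Lox d o g⁻¹ L :=
  ⟨by rw [h.inv_self]; exact H.up, fun n => by rw [inv_pow, h.inv_self]; exact H.low n,
    fun m n => by rw [inv_pow, inv_pow, inv_inv]; exact h.bt_symm (H.bt n m)⟩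

lemma lox_pow {L : ℕ} {g : G} {o : X} (H : Lox d o g L) (n : ℕ) :
    d o (g ^ n • o) ≤ 2 * (n * L) :=
  (h.pow_le g o n).trans (by have := H.up; nlinarith)

lemma lox_mid {L : ℕ} {g : G} {o : X} (H : Lox d o g L) {m n : ℕ} (hmn : m ≤ n) :
    Bt d L o (g ^ m • o) (g ^ n • o) := by
  have := h.bt_smul (g ^ m) (H.bt m (n - m))
  rwa [smul_inv_smul, ← mul_smul, ← pow_add, Nat.add_sub_cancel' hmn] at this

/-- A finite set without almost fixed point gives a short translation at the right scale. -/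
lemma exists_lox [Nonempty X] {F : Set G} (hF : F.Finite) (h1 : (1 : G) ∈ F)
    (hi : ∀ s ∈ F, s⁻¹ ∈ F) {T : ℕ} (hT : 100 * δ + 100 ≤ T) (hd : ∀ x, ∃ s ∈ F, T ≤ d x (s • x)) :
    ∃ o L, T ≤ L ∧ (∀ s ∈ F, d o (s • o) ≤ L) ∧ ∃ u ∈ F, ∃ v ∈ F, Lox d o (u * v) L := by
  classical
  have hex : ∃ n, ∃ x, ∀ s ∈ F, d x (s • x) ≤ n := by
    obtain ⟨x⟩ := ‹Nonempty X›
    obtain ⟨n, hn⟩ := (hF.image fun s => d x (s • x)).bddAbove
    exact ⟨n, x, fun s hs => hn ⟨s, hs, rfl⟩⟩
  obtain ⟨o, ho⟩ := Nat.find_spec hex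
  set L := Nat.find hex
  have hTL : T ≤ L := by obtain ⟨s, hs, e⟩ := hd o; exact e.trans (ho s hs)
  have hmin : ∀ x, ∃ s ∈ F, L ≤ d x (s • x) := by
    intro x
    by_contra hc
    push Not at hc
    exact Nat.find_min hex (m := L - 1) (by omega) ⟨x, fun s hs => by have := hc s hs; omega⟩
  refine ⟨o, L, hTL, ho, ?_⟩
  obtain ⟨u, hu, e1⟩ := hmin o
  have e1' := ho u hu
  obtain ⟨o', e2, e3⟩ := h.geo o (u • o) (2 * δ + 1) (by omega)
  obtain ⟨v, hv, e4, e5⟩ : ∃ v ∈ F, L ≤ d o (v • o) + 4 * δ + 2 ∧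
      Bt d (4 * δ + 2) (u • o) o (v • o) := by
    obtain ⟨s, hs, e4⟩ := hmin o'
    have a1 := h.tri o' o (s • o'); have a2 := h.tri o (s • o) (s • o')
    have a3 := h.inv s o o'; have a4 := h.symm o o'
    have a5 := h.inv_self s o
    by_contra hc
    push Not at hc
    have c1 := hc s hs (by omega)
    have c2 := hc s⁻¹ (hi s hs) (by omega)
    have f1 := h.four o' o (s • o) (u • o)
    have f2 := h.four o' o (s⁻¹ • o) (u • o)
    have f3 := h.four o' o (s • o') (s • o)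
    have := h.inv' s o o'; have := h.symm (s⁻¹ • o) o'
    have := h.symm (s • o) (u • o); have := h.symm (s⁻¹ • o) (u • o); have := h.symm (u • o) o
    have := h.symm (s • o') (s • o); have := ho s hs
    unfold Bt at *; omega
  have e4' := ho v hv
  by_cases c1 : Bt d (L / 2) (u⁻¹ • o) o (u • o)
  · exact ⟨u, hu, 1, h1, by rw [mul_one]; exact h.lox_of (by omega) c1 (by omega) (by omega) (by omega)⟩
  by_cases c2 : Bt d (L / 2) (v⁻¹ • o) o (v • o)
  · exact ⟨v, hv, 1, h1, by rw [mul_one]; exact h.lox_of (by omega) c2 (by omega) (by omega) (by omega)⟩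
  have c3 : Bt d (6 * δ + 2) (u⁻¹ • o) o (v⁻¹ • o) := by
    rcases h.choice e5 (v⁻¹ • o) with c | c
    · rcases h.choice c (u⁻¹ • o) with c' | c'
      · exact c'.mono (by omega)
      · exact absurd (c'.mono (by omega)) c1
    · exact absurd (c.mono (by omega)) c2
  refine ⟨u, hu, v⁻¹, hi v hv, ?_⟩
  have k1 := h.bt_smul u c3
  have k2 := h.bt_symm (h.bt_smul v (h.bt_symm c3))
  rw [smul_inv_smul, ← mul_smul] at k1 k2
  have k3 := (h.ext (h.bt_symm e5) k1 (by omega)).1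
  have k4 := (h.ext k2 k3 (by rw [h.symm]; omega)).2
  have k5 := h.mul_le u v⁻¹ o
  have k6 := h.inv_self v o
  refine h.lox_of (P := 6 * δ + 2) (by omega) ?_ (by omega) ?_ (by omega)
  · rw [mul_inv_rev, inv_inv]; exact k4.mono (by omega)
  · unfold Bt at k1
    rw [mul_smul, h.inv, ← mul_smul] at k1; omega

variable {R N : ℕ} (hA : Acyl G d (13 * δ + 1) R N)
include hA

/-- An isometry that almost fixes the ends of a long piece of the axis commutes with a power. -/
lemma comm {a b : X} {D : ℕ} (g φ : G) (hg : ∀ i ≤ N, d a (g ^ i • a) ≤ D ∧ d b (g ^ i • b) ≤ D)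
    (ha : d a (φ • a) ≤ D) (hb : d b (φ • b) ≤ D) (hl : 4 * D + 6 * δ + R + 2 ≤ d a b) :
    Commute φ (g ^ N.factorial) := by
  classical
  obtain ⟨p, p1, p2⟩ := h.geo a b (2 * D + 3 * δ + 1) (by omega)
  obtain ⟨q, q1, q2⟩ := h.geo a b (2 * D + 3 * δ + 1 + R) (by omega)
  have hpq : R ≤ d p q := by have := h.tri a p q; omega
  let c : ℕ → G := fun i => (φ * g ^ i)⁻¹ * (g ^ i * φ)
  have hc : ∀ x, Bt d 0 a x b → 2 * D + 3 * δ < d a x → 2 * D + 3 * δ < d x b → ∀ i ≤ N,
      d x (c i • x) ≤ 13 * δ + 1 := by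
    intro x h1 h2 h3 i hi
    have := h.comm_small h1 φ (g ^ i) ha hb (hg i hi).1 (hg i hi).2 h2 h3
    simp only [c]
    rw [mul_smul, h.inv', inv_inv]; omega
  have h1 := hA p q hpq ((Finset.range (N + 1)).image c) (by
    intro x hx
    obtain ⟨i, hi, rfl⟩ := Finset.mem_image.1 hx
    have hi' : i ≤ N := by simpa [Nat.lt_succ_iff] using hi
    exact ⟨hc p (by unfold Bt; omega) (by omega) (by omega) i hi',
      hc q (by unfold Bt; omega) (by omega) (by omega) i hi'⟩)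
  have key : ∀ i j, i < j → j ≤ N → c i = c j → Commute φ (g ^ N.factorial) := by
    intro i j hij hj e
    obtain ⟨k, rfl⟩ := Nat.exists_eq_add_of_le hij.le
    obtain ⟨m, hm⟩ := Nat.dvd_factorial (by omega : 0 < k) (by omega : k ≤ N)
    rw [hm, pow_mul]
    refine Commute.pow_right ?_ m
    simp only [c] at e
    have e2 : φ * g ^ k = φ * g ^ (i + k) * ((φ * g ^ i)⁻¹ * (g ^ i * φ)) * φ⁻¹ * (g ^ i)⁻¹ * φ := by
      rw [add_comm, pow_add]; group
    rw [e] at e2
    rw [Commute, SemiconjBy, e2, add_comm, pow_add]; group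
  obtain ⟨i, hi, j, hj, hne, e⟩ := Finset.exists_ne_map_eq_of_card_image_lt (f := c)
    (s := Finset.range (N + 1)) (by simp; omega)
  rw [Finset.mem_range] at hi hj
  rcases lt_or_gt_of_ne hne with hij | hij
  exacts [key i j hij (by omega) e, key j i hij (by omega) e.symm]

lemma comm_lox {o : X} {g : G} {L : ℕ} (H : Lox d o g L) {D A : ℕ} (φ : G)
    (hD : 2 * (N * L) ≤ D) (ha : d o (φ • o) ≤ D) (hb : d (g ^ A • o) (φ • g ^ A • o) ≤ D)
    (hl : 4 * D + 6 * δ + R + 2 ≤ d o (g ^ A • o)) : Commute φ (g ^ N.factorial) := by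
  refine h.comm hA g φ (fun i hi => ?_) ha hb hl
  have h1 : d o (g ^ i • o) ≤ D :=
    (h.lox_pow H i).trans (le_trans (by gcongr) hD)
  exact ⟨h1, by rwa [← mul_smul, ← pow_add, add_comm, pow_add, mul_smul, h.inv]⟩

/-- Translates of the axis by elements outside the centraliser diverge from the axis. -/
lemma ind {o : X} {g : G} {L : ℕ} (H : Lox d o g L) (hL : 100 * δ + R + 100 ≤ L) {t : G}
    (ht : d o (t • o) ≤ 8 * L) (hc : ¬ Commute t (g ^ N.factorial)) {n m : ℕ}
    (hn : 40 * N + 530 ≤ n) (hm : 40 * N + 530 ≤ m) :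
    Bt d (160 * (N * L) + 2120 * L) (g ^ n • o) o (t • g ^ m • o) := by
  by_contra hb
  have e1 := H.low (40 * N + 530)
  have e2 := h.lox_pow H (40 * N + 530)
  have e3 : (40 * N + 530) * L = 40 * (N * L) + 530 * L := by ring
  have b1 := h.lox_mid H hn
  have b2 := h.shift' (D := 8 * L) (a' := o) (h.bt_smul t (h.lox_mid H hm)) (by rw [h.symm]; exact ht)
  set w := g ^ (40 * N + 530) • o
  have b3 : Bt d (L + 2 * (8 * L)) o w (t • g ^ m • o) := by
    have := h.four w o (t • g ^ m • o) (g ^ n • o)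
    have := h.symm w o; have := h.symm (g ^ n • o) o
    have := h.symm (t • g ^ m • o) (g ^ n • o)
    unfold Bt at *; omega
  have a1 := h.tri o (t • o) (t • w); have a2 := h.tri (t • o) o (t • w)
  have a3 := h.inv t o w; have a4 := h.symm o (t • o)
  have b4 := h.near b3 b2 (k := 8 * L) (by omega) (by omega)
  exact hc (h.comm_lox hA H (D := 26 * L + 2 * (N * L)) (A := 40 * N + 530) t (by omega) (by omega)
    (by change d w (t • w) ≤ _; omega) (by change _ ≤ d o w; omega))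

/-- Few isometries almost fix a long piece of the axis and a long branch at its end. -/
lemma core {o : X} {g : G} {L : ℕ} (H : Lox d o g L) (hL : 100 * δ + R + 100 ≤ L) {P D A : ℕ}
    {k : G} (hP : L ≤ P) (h1 : Bt d P ((g ^ A)⁻¹ • o) o (k • o))
    (h2 : ∀ K, A ≤ K → Bt d P (g ^ K • o) o (k • o))
    (h3 : 4 * (D + 2 * (N * L)) + 2 * P + 3 * L ≤ d o (g ^ A • o)) (h4 : D + 2 * P + L ≤ d o (k • o))
    (F : Finset G) (hF : ∀ φ ∈ F, d o (φ • o) ≤ D ∧ d (g ^ A • o) (φ • g ^ A • o) ≤ D ∧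
      d (g ^ A • k • o) (φ • g ^ A • k • o) ≤ D) : F.card ≤ N := by
  have hK : A + A ≤ N.factorial * (A + A) := Nat.le_mul_of_pos_left _ N.factorial_pos
  obtain ⟨K, hK'⟩ := Nat.exists_eq_add_of_le (le_of_add_le_left hK)
  have hAK : A ≤ K := by omega
  have b1 := h.lox_mid H (le_of_add_le_left hK)
  have b2 := h.bt_smul (g ^ A) h1
  have b3 := h.bt_smul (g ^ A) (h2 K hAK)
  have b4 := h.lox_mid H hAK
  have l1 := h.inv (g ^ A) o (g ^ K • o)
  have l2 := h.inv (g ^ A) o (k • o)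
  rw [smul_inv_smul] at b2
  rw [← mul_smul (g ^ A) (g ^ K), ← pow_add, ← hK'] at b3 l1
  set b := g ^ (N.factorial * (A + A)) • o with hb
  set w := g ^ A • o
  set c := g ^ A • k • o
  have t1 := h.tri o w b; have t2 := h.tri o w c; have t3 := h.tri b o c
  have t4 := h.tri b w c
  rw [h.symm b o] at t3
  unfold Bt at b1 b2 b3 b4
  rw [h.symm b w] at b3 t4
  have k0 : d o w ≤ d w b + L := by omega
  obtain ⟨t, e1, e2⟩ : ∃ t, 2 * t + d b c ≤ d o b + d o c ∧ d o b + d o c ≤ 2 * t + d b c + 1 := by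
    obtain ⟨G, hG⟩ := Nat.exists_eq_add_of_le t3
    exact ⟨G / 2, by rw [hG]; omega, by rw [hG]; omega⟩
  have k1 : t ≤ d o w + P := by omega
  have k2 : d o w ≤ t + P := by omega
  have k3 : D + 2 * P + L ≤ d w c := by omega
  clear h1 h2 hK hK' hAK l1 l2 b3 b4 t3 t4
  obtain ⟨t', rfl⟩ := Nat.exists_eq_add_of_le (by omega : R ≤ t)
  obtain ⟨m, m1, m2⟩ := h.geo o b (R + t') (by omega)
  obtain ⟨p, p1, p2⟩ := h.geo o b t' (by omega)
  have t4 := h.tri o p m; have t5 := h.tri o m c; have s2 := h.symm p m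
  refine hA m p (by omega) F fun φ hφ => ?_
  obtain ⟨a1, a2, a3⟩ := hF φ hφ
  have hc := (h.comm_lox hA H (D := D + 2 * (N * L)) φ (by omega) (by omega)
    (a2.trans (by omega)) (by change _ ≤ d o w; omega)).pow_right (A + A)
  have a4 : d b (φ • b) ≤ D := by
    rwa [hb, pow_mul, ← mul_smul, hc.eq, mul_smul, h.inv]
  have k4 : D + 2 * δ + 1 < d m b := by clear e1 e2; omega
  have k5 : D + 2 * δ + 1 < d m c := by clear e1 e2; omega
  have k6 : D + 2 * δ + 1 < t' := by clear e1 e2; omega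
  exact h.tripod e1 e2 m1 (by unfold Bt; omega) (by unfold Bt; omega) φ a1 a4 a3
    (by omega) k4 k5 (by omega) (by omega)

omit hA in
lemma chain {P : ℕ} {a x0 x1 x2 x3 e : X} (b0 : Bt d P a x0 x1) (b1 : Bt d P x0 x1 x2)
    (b2 : Bt d P x1 x2 x3) (b3 : Bt d P x2 x3 e) (l1 : P + 2 * δ < d x0 x1)
    (l2 : P + 2 * δ < d x1 x2) (l3 : P + 2 * δ < d x2 x3) :
    ∀ x ∈ [x1, x2, x3], Bt d (P + 2 * δ) a x e ∧ Bt d (P + δ) x x3 e := by
  have f1 := (h.ext b0 b1 (by omega)).2
  have f2 := (h.ext f1 b2 (by omega)).2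
  have f3 := h.ext f2 b3 (by omega)
  have f4 := h.ext b2 b3 (by omega)
  have f5 := (h.ext f1 f4.1 (by omega)).1
  simp only [List.mem_cons, List.not_mem_nil, or_false, forall_eq_or_imp, forall_eq]
  exact ⟨⟨f5.mono (by omega), f4.2⟩, ⟨f3.1.mono (by omega), b3.mono (by omega)⟩,
    f3.2.mono (by omega), by simp [Bt, h.self]⟩

/-- The counting argument, given two separators. -/
lemma count {o : X} {g : G} {L : ℕ} (H : Lox d o g L) (hL : 100 * δ + R + 100 ≤ L) {P A : ℕ}
    (k : Bool → G) (hP : L ≤ P) (h0 : ∀ i, Bt d P ((k i)⁻¹ • o) o (g ^ A • o))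
    (h1 : ∀ i, Bt d P ((g ^ A)⁻¹ • o) o (k i • o))
    (h2 : ∀ i K, A ≤ K → Bt d P (g ^ K • o) o (k i • o))
    (h3 : 4 * (2 * P + 2 * L + 2 * (N * L)) + 2 * P + 3 * L ≤ d o (g ^ A • o))
    (h4 : ∀ i, 2 * P + 2 * L + 2 * P + L ≤ d o (k i • o))
    (h5 : ∀ q, ∃ i, Bt d P q o (k i • o)) (h6 : ∀ q, ∃ i, Bt d P q o ((k i)⁻¹ • o))
    (r : ℕ) (U Y T : Finset G) (hY : ∀ y ∈ Y, d o (y • o) ≤ r * L)
    (hT : ∀ x ∈ U, ∀ i j, ∀ y ∈ Y, x * (k i * g ^ A * k j) * y ∈ T) :
    U.card * Y.card ≤ 4 * N * (r + 1) * T.card := by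
  classical
  choose I hI using fun x : G => h5 (x⁻¹ • o)
  choose J hJ using fun y : G => h6 (y • o)
  let f : G × G → G × Bool × Bool × ℕ := fun p =>
    (p.1 * (k (I p.1) * g ^ A * k (J p.2)) * p.2, I p.1, J p.2, d o (p.2 • o) / L)
  have key : ∀ x y, ∀ w ∈ [k (I x), k (I x) * g ^ A, k (I x) * g ^ A * k (J y)],
      Bt d (P + 2 * δ) ((f (x, y)).1 • o) ((x * w) • o) o ∧
      d (w • o) ((k (I x) * g ^ A * k (J y)) • o) + d o (y • o) ≤
        d ((f (x, y)).1 • o) ((x * w) • o) + (P + δ) ∧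
      d ((f (x, y)).1 • o) ((x * w) • o) ≤
        d (w • o) ((k (I x) * g ^ A * k (J y)) • o) + d o (y • o) := by
    intro x y w hw
    have b1 := h.bt_smul (k (I x)) (h0 (I x))
    have b2 := h.bt_smul (k (I x) * g ^ A) (h1 (J y))
    have b3 := h.bt_smul (k (I x) * g ^ A * k (J y)) (h.bt_symm (hJ y))
    rw [smul_inv_smul, ← mul_smul] at b1
    rw [← mul_smul, ← mul_smul, mul_inv_cancel_right] at b2 b3
    have := h4 (I x); have := h4 (J y)
    obtain ⟨c1, c2⟩ := h.chain (hI x) b1 b2 b3 (by omega) (by rw [mul_smul, h.inv]; omega)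
      (by rw [mul_smul _ (k (J y)), h.inv]; omega) (w • o) (by
        simp only [List.mem_cons, List.not_mem_nil, or_false] at hw ⊢
        rcases hw with rfl | rfl | rfl <;> simp only [true_or, or_true])
    have c3 := h.bt_symm (h.bt_smul x c1)
    rw [smul_inv_smul, ← mul_smul, ← mul_smul, ← mul_assoc] at c3
    have c4 := h.tri (w • o) ((k (I x) * g ^ A * k (J y)) • o) ((k (I x) * g ^ A * k (J y) * y) • o)
    unfold Bt at c2
    rw [mul_smul _ y, h.inv, ← mul_smul] at c2 c4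
    have c5 : d ((f (x, y)).1 • o) ((x * w) • o) = d (w • o) ((k (I x) * g ^ A * k (J y) * y) • o) := by
      simp only [f]
      rw [mul_assoc x, mul_smul x, mul_smul x, h.inv, h.symm]
    exact ⟨c3, by omega, by omega⟩
  have := Finset.card_le_mul_card_image_of_maps_to (f := f) (s := U ×ˢ Y)
    (t := T ×ˢ Finset.univ ×ˢ Finset.univ ×ˢ Finset.range (r + 1)) (by
      rintro ⟨x, y⟩ hp
      obtain ⟨hx, hy⟩ := Finset.mem_product.1 hp
      simp only [f, Finset.mem_product, Finset.mem_univ, true_and, Finset.mem_range]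
      exact ⟨hT x hx _ _ y hy, Nat.lt_succ_of_le (Nat.div_le_of_le_mul
        (by rw [mul_comm]; exact hY y hy))⟩) N (by
      intro q _
      rcases ((U ×ˢ Y).filter fun p => f p = q).eq_empty_or_nonempty with he | ⟨⟨x, y⟩, hp⟩
      · simp [he]
      have e0 := (Finset.mem_filter.1 hp).2
      rw [← Finset.card_image_of_injOn (f := fun p => (x * k (I x))⁻¹ * (p.1 * k (I x)))]
      · refine h.core hA H hL (D := 2 * P + 2 * L) hP (h1 (J y)) (h2 (J y)) h3 (h4 _) _ ?_
        intro φ hφ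
        obtain ⟨⟨x', y'⟩, hp', rfl⟩ := Finset.mem_image.1 hφ
        have e1 := (Finset.mem_filter.1 hp').2.trans e0.symm
        have e2 : I x' = I x := congrArg (·.2.1) e1
        have e3 : J y' = J y := congrArg (·.2.2.1) e1
        have e4 : d o (y' • o) / L = d o (y • o) / L := congrArg (·.2.2.2) e1
        have e5 := Nat.div_add_mod (d o (y' • o)) L
        have e6 := Nat.div_add_mod (d o (y • o)) L
        have e7 := Nat.mod_lt (d o (y' • o)) (by omega : 0 < L)
        have e8 := Nat.mod_lt (d o (y • o)) (by omega : 0 < L)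
        rw [e4] at e5
        have fin : ∀ w, k (I x) * w ∈ [k (I x), k (I x) * g ^ A, k (I x) * g ^ A * k (J y)] →
            d (w • o) (((x * k (I x))⁻¹ * (x' * k (I x))) • w • o) ≤ 2 * P + 2 * L := by
          intro w hw
          obtain ⟨a1, a2, a3⟩ := key x y _ hw
          obtain ⟨b1, b2, b3⟩ := key x' y' (k (I x) * w) (by rwa [e2, e3])
          rw [e1] at b1 b2 b3
          rw [e2, e3] at b2 b3
          have := h.near a1 b1 (k := L + P + δ) (by omega) (by omega)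
          rw [mul_smul, h.inv', inv_inv, ← mul_smul, ← mul_smul, mul_assoc, mul_assoc x']
          omega
        exact ⟨by simpa only [mul_inv_rev, one_smul] using fin 1 (by simp), fin _ (by simp),
          by simpa only [mul_inv_rev, mul_smul] using fin (g ^ A * k (J y)) (by simp [mul_assoc])⟩
      · rintro ⟨x1, y1⟩ hp1 ⟨x2, y2⟩ hp2 e
        have e1 : x1 = x2 := by simpa only [mul_inv_rev, mul_right_inj, mul_left_inj] using e
        have e2 := (Finset.mem_filter.1 hp1).2.trans (Finset.mem_filter.1 hp2).2.symm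
        have e3 : J y1 = J y2 := congrArg (·.2.2.1) e2
        have e4 := congrArg (·.1) e2
        simp only [f, e1, e3] at e4
        rw [e1, mul_left_cancel e4])
  simp only [Finset.card_product, Finset.card_univ, Fintype.card_bool, Finset.card_range] at this
  exact this.trans (le_of_eq (by ring))

/-- Uniform supermultiplicativity in product set form (this is `H43.MI' G c (4 * N) 1 S`). -/
theorem mi [Nonempty X] {M : ℕ}
    (hD : ∀ S : Finset G, Subgroup.closure (S : Set G) = ⊤ → ∀ x, ∃ g ∈ ball S M,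
      100 * δ + R + 100 ≤ d x (g • x))
    (hE : ∀ γ : G, (Subgroup.centralizer {γ}).FiniteIndex → ∀ x, ∃ B, ∀ n : ℕ, d x (γ ^ n • x) ≤ B) :
    ∃ c : ℕ, ∀ S : Finset G, Subgroup.closure (S : Set G) = ⊤ →
      ∀ (r : ℕ) (U Y T : Finset G), (∀ y ∈ Y, y ∈ ball S r) →
        (∀ x ∈ U, ∀ z ∈ ball S c, ∀ y ∈ Y, x * z * y ∈ T) →
        U.card * Y.card ≤ 4 * N * (2 * r + 3) ^ 1 * T.card := by
  classical
  obtain ⟨A, hA'⟩ : ∃ A, A = 9000 * N + 120000 := ⟨_, rfl⟩
  refine ⟨4 + A * (M + 1 + (M + 1)) + 4 + A * (M + 1 + (M + 1)) + (4 + A * (M + 1 + (M + 1)) + 4),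
    fun S hS r U Y T hY hT => ?_⟩
  obtain ⟨o, L, hL, ho, u, hu, v, hv, H⟩ := h.exists_lox (ball_finite S (M + 1)) (one_mem_ball _ _)
    (fun s hs => inv_mem_ball hs) (T := 100 * δ + R + 100) (by omega) fun x => by
      obtain ⟨g, h1, h2⟩ := hD S hS x
      exact ⟨g, ball_mono S (Nat.le_succ M) h1, h2⟩
  have hg := pow_mem_ball (mul_mem_ball hu hv) A
  set g := u * v
  have hb := h.ball_le (S := S) (o := o) (L := L) fun s hs => ho s (ball_mono S (by omega) hs)
  obtain ⟨F, F1, F2, F3⟩ := exists_cosets hS (H := Subgroup.centralizer {g ^ N.factorial}) (by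
    intro hf
    obtain ⟨B, hB⟩ := hE _ hf o
    have h1 := hB (5 * B + 1)
    have h2 := H.low (N.factorial * (5 * B + 1))
    have h3 : 5 * B + 1 ≤ N.factorial * (5 * B + 1) * L :=
      (Nat.le_mul_of_pos_left _ N.factorial_pos).trans (Nat.le_mul_of_pos_right _ (by omega))
    rw [pow_mul] at h2; omega) 4
  simp only [Subgroup.mem_centralizer_singleton_iff] at F3
  have hs : ∀ s ∈ F, d o (s • o) ≤ 4 * L := fun s hs => hb 4 s (F2 s hs)
  have pair : ∀ τ : G, Lox d o τ L → (∀ t, Commute t (τ ^ N.factorial) →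
      Commute t (g ^ N.factorial)) → ∀ s ∈ F, ∀ t ∈ F, s ≠ t →
      Bt d (160 * (N * L) + 2128 * L) (s • τ ^ A • o) o (t • τ ^ A • o) := by
    intro τ Hτ hc s h1 t h2 hne
    have b1 := h.bt_smul s (h.ind hA Hτ hL (t := s⁻¹ * t) (hb 8 _ (mul_mem_ball
      (inv_mem_ball (F2 s h1)) (F2 t h2))) (fun e => hne (F3 s h1 t h2 (hc _ e)))
      (n := A) (m := A) (by omega) (by omega))
    rw [← mul_smul s (s⁻¹ * t), mul_inv_cancel_left] at b1
    exact (h.shiftm (D := 4 * L) b1 (by rw [h.symm]; exact hs s h1)).mono (by omega)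
  have p1 := pair g H fun _ e => e
  have p2 := pair g⁻¹ (h.lox_inv H) fun t e => by simpa using e
  rw [inv_pow] at p2
  obtain ⟨P, hP⟩ : ∃ P, P = 160 * (N * L) + 2150 * L := ⟨_, rfl⟩
  obtain ⟨s, h1, t, h2, hne⟩ : ∃ s ∈ F.filter fun s => ¬ Commute s (g ^ N.factorial) ∧
      Bt d (P - 8 * L) ((g ^ A)⁻¹ • o) o (s • g ^ A • o) ∧
      Bt d (P - 8 * L) (g ^ A • o) o (s • (g ^ A)⁻¹ • o), ∃ t ∈ F.filter fun s =>
        ¬ Commute s (g ^ N.factorial) ∧ Bt d (P - 8 * L) ((g ^ A)⁻¹ • o) o (s • g ^ A • o) ∧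
      Bt d (P - 8 * L) (g ^ A • o) o (s • (g ^ A)⁻¹ • o), s ≠ t := by
    rw [← Finset.one_lt_card]
    have c0 : (F.filter fun s => Commute s (g ^ N.factorial)).card ≤ 1 :=
      Finset.card_le_one.2 fun a ha b hb => F3 a (Finset.mem_filter.1 ha).1 b
        (Finset.mem_filter.1 hb).1
        ((Finset.mem_filter.1 ha).2.inv_left.mul_left (Finset.mem_filter.1 hb).2)
    have c1 : ∀ (τ : G) (q : X), (∀ s ∈ F, ∀ t ∈ F, s ≠ t →
        Bt d (160 * (N * L) + 2128 * L) (s • τ • o) o (t • τ • o)) →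
        (F.filter fun s => ¬ Bt d (P - 8 * L) q o (s • τ • o)).card ≤ 1 := by
      intro τ q hp
      refine Finset.card_le_one.2 fun a ha b hb => ?_
      rw [Finset.mem_filter] at ha hb
      by_contra hne
      rcases h.choice (hp a ha.1 b hb.1 hne) q with c | c
      exacts [ha.2 (c.mono (by omega)), hb.2 (c.mono (by omega))]
    have c2 := c1 _ ((g ^ A)⁻¹ • o) p1
    have c3 := c1 _ (g ^ A • o) p2
    have c4 := Finset.card_filter_add_card_filter_not (s := F) fun s =>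
      ¬ Commute s (g ^ N.factorial) ∧ Bt d (P - 8 * L) ((g ^ A)⁻¹ • o) o (s • g ^ A • o) ∧
      Bt d (P - 8 * L) (g ^ A • o) o (s • (g ^ A)⁻¹ • o)
    simp only [not_and_or, not_not, Finset.filter_or] at c4
    have c5 := (Finset.card_union_le _ _).trans
      (Nat.add_le_add c0 ((Finset.card_union_le _ _).trans (Nat.add_le_add c2 c3)))
    omega
  let σ : Bool → G := fun i => if i then s else t
  have hσ : ∀ i, σ i ∈ F ∧ ¬ Commute (σ i) (g ^ N.factorial) ∧
      Bt d (P - 8 * L) ((g ^ A)⁻¹ • o) o (σ i • g ^ A • o) ∧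
      Bt d (P - 8 * L) (g ^ A • o) o (σ i • (g ^ A)⁻¹ • o) := by
    rintro (_ | _)
    exacts [Finset.mem_filter.1 h2, Finset.mem_filter.1 h1]
  have cj : ∀ i (τ : G), d (σ i • τ • o) ((σ i * τ * (σ i)⁻¹) • o) ≤ 4 * L := fun i τ => by
    rw [mul_smul, mul_smul, h.inv, h.inv, h.inv_self]; exact hs _ (hσ i).1
  have iv : ∀ i, (σ i * g ^ A * (σ i)⁻¹)⁻¹ = σ i * (g ^ A)⁻¹ * (σ i)⁻¹ := fun i => by group
  have ch : ∀ τ : G, (∀ s ∈ F, ∀ t ∈ F, s ≠ t →
      Bt d (160 * (N * L) + 2128 * L) (s • τ • o) o (t • τ • o)) → ∀ q, ∃ i,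
      Bt d P q o ((σ i * τ * (σ i)⁻¹) • o) := by
    intro τ hp q
    rcases h.choice (hp _ (hσ true).1 _ (hσ false).1 hne) q with c | c
    exacts [⟨true, (h.shift c (cj _ τ)).mono (by omega)⟩,
      ⟨false, (h.shift c (cj _ τ)).mono (by omega)⟩]
  have hl := H.low A
  have hl' : A * L = 9000 * (N * L) + 120000 * L := by rw [hA']; ring
  refine (h.count hA H hL (P := P) (A := A) (fun i => σ i * g ^ A * (σ i)⁻¹) (by omega)
    (fun i => ?_) (fun i => ?_) (fun i K hK => ?_) (by omega) (fun i => ?_) (ch _ p1)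
    (fun q => by simpa only [iv] using ch _ p2 q) r U Y T (fun y hy => hb r y (hY y hy))
    fun x hx i j y hy => hT x hx _ ?_ y hy).trans (by rw [pow_one]; gcongr <;> omega)
  · rw [iv]; exact h.bt_symm ((h.shift (hσ i).2.2.2 (cj i _)).mono (by omega))
  · exact (h.shift (hσ i).2.2.1 (cj i _)).mono (by omega)
  · exact (h.shift (h.ind hA H hL ((hs _ (hσ i).1).trans (by omega)) (hσ i).2.1 (n := K) (m := A)
      (by omega) (by omega)) (cj i _)).mono (by omega)
  · have a1 := h.tri (σ i • o) o (σ i • g ^ A • o)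
    have a2 := h.tri o ((σ i * g ^ A * (σ i)⁻¹) • o) (σ i • g ^ A • o)
    have a3 := cj i (g ^ A); have a4 := hs _ (hσ i).1
    rw [h.inv, h.symm (σ i • o)] at a1
    rw [h.symm] at a3
    omega
  · have a := fun i => mul_mem_ball (mul_mem_ball (F2 _ (hσ i).1) hg) (inv_mem_ball (F2 _ (hσ i).1))
    exact mul_mem_ball (mul_mem_ball (a i) hg) (a j)

end Hyp

end Pool.Agent.MP_646035_al.H24

end

-- part MP_646035_al.H71.Cur3
section

/-!
Systems of curves: the action on the curve graph is acylindrical.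
-/

namespace Pool.Agent.MP_646035_al.H71

open scoped Pointwise

variable {C : Type*} {i : C → C → ℕ} {ξ C0 : ℕ} {G : Type*} [Group G] [MulAction G C]
  {K : ℕ} {W Y : Set C} {a b : C}

namespace AxG

variable (A : AxG i G)
include A

theorem perp_smul (g : G) (W : Set C) : perp i (g • W) = g • perp i W := by
  ext b
  rw [Set.mem_smul_set_iff_inv_smul_mem]
  refine Set.forall_mem_image.trans (forall₂_congr fun a _ => ?_)
  rw [← A.inv g a, smul_inv_smul]

theorem mem_perp (g : G) : g • b ∈ perp i (g • W) ↔ b ∈ perp i W := by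
  rw [A.perp_smul, Set.smul_mem_smul_set_iff]

theorem clo_smul (g : G) (h : Clo i W) : Clo i (g • W) := by
  rw [Clo, A.perp_smul, A.perp_smul]
  exact Set.smul_set_mono h

theorem bdy_smul (g : G) (h : b ∈ bdy i W) : g • b ∈ bdy i (g • W) :=
  ⟨Set.smul_mem_smul_set h.1, (A.mem_perp g).2 h.2⟩

theorem ch_smul (g : G) {n : ℕ} (h : Ch i K W n a b) : Ch i K (g • W) n (g • a) (g • b) :=
  h.map (g • ·) fun _ _ h => ⟨mt (A.mem_perp g).1 h.1, mt (A.mem_perp g).1 h.2.1, by
    rw [A.inv]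
    exact h.2.2.imp id fun ⟨δ, h1, h2⟩ => ⟨_, A.bdy_smul g h1, by simpa only [A.inv] using h2⟩⟩

theorem ch_iff (g : G) {n : ℕ} : Ch i K (g • W) n (g • a) (g • b) ↔ Ch i K W n a b :=
  ⟨fun h => by simpa using A.ch_smul g⁻¹ h, A.ch_smul g⟩

theorem ht_smul {h : ℕ} (g : G) (H : Ht i h W) : Ht i h (g • W) := by
  induction h generalizing W with
  | zero => exact H
  | succ h ih =>
    intro Y h1 h2
    have := ih (H (g⁻¹ • Y) (A.clo_smul _ h1) ⟨Set.smul_set_subset_iff_subset_inv_smul_set.2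
      (by simpa using h2.1), fun e => h2.2 (Set.smul_set_subset_iff_subset_inv_smul_set.2 e)⟩)
    simpa using this

end AxG

theorem smul_ne_univ (g : G) (h : Y ≠ Set.univ) : g • Y ≠ Set.univ := fun e => h (by
  rw [← inv_smul_smul g Y, e, Set.smul_set_univ])

namespace IsDist

variable {d : C → C → ℕ} (D : IsDist i K d)
include D

theorem one (h : i a b = 0) : d a b ≤ 1 := (D _ _ _).2 (Pth.one (by omega))

theorem ex {n : ℕ} (h : d a b ≤ n) (ha : a ∉ perp i Y) (hc : ¬ Ch i K Y n a b) :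
    ∃ j j' v, j + 1 + j' ≤ n ∧ v ∈ perp i Y ∧ d a v ≤ j + 1 ∧ d v b ≤ j' := by
  obtain ⟨j, j', v, h1, h2, h3, h4⟩ := (((D _ _ _).1 h).ex (fun _ _ h => h) ha).resolve_left hc
  exact ⟨j, j', v, h1, h2, (D _ _ _).2 h3, (D _ _ _).2 h4⟩

theorem ch_univ (H : Ax i ξ C0) {n : ℕ} : Ch i K Set.univ n a b ↔ d a b ≤ n := by
  rw [D]
  refine ⟨fun h => h.imp fun a b h => h.2.2.resolve_right ?_, fun h => h.imp fun a b h =>
    Cl.of_le (by simp [H.perp_univ]) (by simp [H.perp_univ]) h⟩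
  rintro ⟨δ, h1, -⟩
  simpa [H.perp_univ] using h1.2

variable {δ : ℕ} (Y0 : H24.Hyp G d δ)
include Y0

theorem far {n : ℕ} {β : C} (hβ : β ∈ Y) (h1 : n + 2 ≤ d β a) (h2 : d a b ≤ n) :
    a ∉ perp i Y ∧ Ch i K Y n a b := by
  have h3 : a ∉ perp i Y := fun e => by have := D.one (e β hβ); omega
  refine ⟨h3, by_contra fun e => ?_⟩
  obtain ⟨j, j', v, v1, v2, v3, -⟩ := D.ex h2 h3 e
  have := D.one (v2 β hβ)
  have := Y0.tri β v a
  have := Y0.symm v a
  omega

/-- A point between `x` and `y` that is close to one of them in every proper subsurface. -/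
theorem tight (H : Ax i ξ C0) (hK : 1 ≤ K) {x y z : C} {r s : ℕ} (h1 : d z x ≤ r)
    (h2 : d z y ≤ s) : ∃ α, d α x ≤ r ∧ d α y ≤ s ∧ ∀ Y, Clo i Y → Y ≠ Set.univ →
      α ∉ perp i Y → x ∉ perp i Y → y ∉ perp i Y →
      Ch i K Y (r + 1) α x ∨ Ch i K Y (s + 1) α y := by
  classical
  have ne : ∃ n α, d α x ≤ r ∧ d α y ≤ s ∧ i α x + i α y = n := ⟨_, z, h1, h2, rfl⟩
  obtain ⟨α, a1, a2, a3⟩ := Nat.find_spec ne
  refine ⟨α, a1, a2, fun Y c1 c2 e1 e2 e3 => by_contra fun e => ?_⟩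
  obtain ⟨β, hβ⟩ := H.bd_ne c1 c2 e1
  have key : ∀ {x r}, d α x ≤ r → x ∉ perp i Y → ¬ Ch i K Y (r + 1) α x →
      d β x ≤ r ∧ i β x < i α x := fun {x r} h1 h2 h3 => by
    obtain ⟨j, j', v, v1, v2, -, v4⟩ := D.ex h1 e1 fun h => h3 h.succ
    have := D.one (v2 β hβ.1)
    have := Y0.tri β v x
    have := ((lt_of_not_cl e1 h2 (Ch.not_cl h3)).2 β hβ).2
    exact ⟨by omega, by nlinarith only [hK, this]⟩
  obtain ⟨k1, k2⟩ := key a1 e2 fun h => e (Or.inl h)
  obtain ⟨k3, k4⟩ := key a2 e3 fun h => e (Or.inr h)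
  have := Nat.find_min' ne ⟨β, k1, k3, rfl⟩
  omega

omit D in
theorem mid {x y z : C} {g : G} {ε : ℕ} (h : d x z + d z y ≤ d x y) (h1 : d x (g • x) ≤ ε)
    (h2 : d y (g • y) ≤ ε) : d z (g • z) ≤ 3 * ε + δ := by
  have a1 := Y0.tri x (g • x) (g • z)
  have a2 := Y0.tri (g • z) (g • y) y
  have a3 := Y0.tri (g • x) x z
  have a4 := Y0.tri (g • x) x (g • z)
  have a5 := Y0.symm x (g • x)
  have a6 := Y0.symm y (g • y)
  rw [Y0.inv] at a1 a2 a4
  have := Y0.near (P := 2 * ε) (a := x) (b := y) (p := z) (q := g • z) (k := ε)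
    (by unfold H24.Bt; omega) (by unfold H24.Bt; omega) (by omega) (by omega)
  omega

theorem orbit_pp [DecidableEq C] (H : Ax i ξ C0) (A : AxG i G) {x y α : C} {F : Finset G}
    {e e' R : ℕ} (h1 : ∀ g ∈ F, d x (g • x) ≤ e ∧ d y (g • y) ≤ e ∧ d α (g • α) ≤ e')
    (h2 : 3 * e' + e + 3 ≤ d α x) (h3 : 3 * e' + e + 3 ≤ d α y)
    (h4 : ∀ Y, Clo i Y → Y ≠ Set.univ → α ∉ perp i Y → x ∉ perp i Y → y ∉ perp i Y →
      Ch i K Y R α x ∨ Ch i K Y R α y) :
    PP i K (R + e + (R + e) + 2 * e') 2 (F.image (· • α)) Set.univ := by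
  intro Y c1 _ B b1 b2 b3
  have t : ∀ a ∈ B, ∀ b ∈ B, d a b ≤ 2 * e' ∧ d α a ≤ e' := fun a ha b hb => by
    obtain ⟨g, g1, rfl⟩ := Finset.mem_image.1 (b1 ha)
    obtain ⟨g', g2, rfl⟩ := Finset.mem_image.1 (b1 hb)
    have := Y0.tri (g • α) α (g' • α)
    have := Y0.symm α (g • α)
    have := (h1 g g1).2.2
    have := (h1 g' g2).2.2
    omega
  by_contra hc
  obtain ⟨a, b, c, ha, hb, hc, ab, ac, bc⟩ := Finset.two_lt_card_iff.1 (not_le.1 hc)
  have n1 : ¬ Ch i K Y (2 * e') a b := fun h => b3 a ha b hb ab (h.mono (by omega))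
  have c2 : Y ≠ Set.univ := by
    rintro rfl
    exact n1 ((D.ch_univ H).2 (t a ha b hb).1)
  obtain ⟨β, hβ⟩ := H.bd_ne c1 c2 (b2 a ha)
  obtain ⟨j, j', v, v1, v2, v3, -⟩ := D.ex (t a ha b hb).1 (b2 a ha) n1
  have n2 : d α β ≤ 3 * e' + 1 := by
    have := D.one (v2 β hβ.1)
    have := Y0.tri α a β
    have := Y0.tri a v β
    have := Y0.symm v β
    have := (t a ha b hb).2
    omega
  have key : ∀ u ∈ B, Ch i K Y (R + e) u x ∨ Ch i K Y (R + e) u y := fun u hu => by
    obtain ⟨g, g1, rfl⟩ := Finset.mem_image.1 (b1 hu)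
    obtain ⟨x1, x2⟩ := D.far Y0 hβ.1 (by have := Y0.tri α β x; omega) (h1 g g1).1
    obtain ⟨y1, y2⟩ := D.far Y0 hβ.1 (by have := Y0.tri α β y; omega) (h1 g g1).2.1
    have p : ∀ z, g • z ∉ perp i Y → z ∉ perp i (g⁻¹ • Y) := fun z hz e =>
      hz (by simpa using (A.mem_perp g).2 e)
    refine (h4 (g⁻¹ • Y) (A.clo_smul _ c1) (smul_ne_univ _ c2) (p _ (b2 _ hu))
      (p _ (x2.mem (p := (· ∉ perp i Y)) (fun _ _ h => h.2.1) x1))
      (p _ (y2.mem (p := (· ∉ perp i Y)) (fun _ _ h => h.2.1) y1))).imp (fun h => ?_) fun h => ?_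
    · exact Pth.trans (by simpa using A.ch_smul g h) (H.ch_symm x2)
    · exact Pth.trans (by simpa using A.ch_smul g h) (H.ch_symm y2)
  have q : ∀ u ∈ B, ∀ w ∈ B, u ≠ w → ∀ z, Ch i K Y (R + e) u z → ¬ Ch i K Y (R + e) w z :=
    fun u hu w hw h z h1 h2 => b3 u hu w hw h ((h1.trans (H.ch_symm h2)).mono (by omega))
  rcases key a ha with p1 | p1 <;> rcases key b hb with p2 | p2 <;> rcases key c hc with p3 | p3
  exacts [q a ha b hb ab _ p1 p2, q a ha b hb ab _ p1 p2, q a ha c hc ac _ p1 p3,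
    q b hb c hc bc _ p2 p3, q b hb c hc bc _ p2 p3, q a ha c hc ac _ p1 p3,
    q a ha b hb ab _ p1 p2, q a ha b hb ab _ p1 p2]

theorem stab_fin (H : Ax i ξ C0) (A : AxG i G) {α α' : C} (h : 3 ≤ d α α') (c : C) :
    (MulAction.orbit (MulAction.stabilizer G α ⊓ MulAction.stabilizer G α' : Subgroup G) c).Finite := by
  obtain ⟨N, hN⟩ := H.ulf_univ (K := i c α + i c α' + 1) (by omega) 2 1 le_rfl
  by_contra hc
  obtain ⟨B, b1, b2⟩ := Set.Infinite.exists_subset_card_eq hc (N + 1)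
  refine absurd (hN B fun Y _ _ B' c1 c2 c3 => Finset.card_le_one.2 fun a ha b hb =>
    by_contra fun e => c3 a ha b hb e ?_) (by omega)
  obtain ⟨z, z1, z2⟩ : ∃ z ∉ perp i Y, ∀ u ∈ B, i u z ≤ i c α + i c α' + 1 := by
    obtain ⟨u, u1, -⟩ := not_perp.1 (c2 a ha)
    by_cases e1 : α ∈ perp i Y
    · refine ⟨α', fun e2 => ?_, fun u hu => ?_⟩
      · have := D.one (e1 u u1)
        have := D.one (e2 u u1)
        have := Y0.tri α u α'
        have := Y0.symm α u
        omega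
      · obtain ⟨⟨g, -, g2⟩, rfl⟩ := b1 hu
        have := A.inv g c α'
        rw [show g • α' = α' from g2] at this
        exact this.le.trans (by omega)
    · refine ⟨α, e1, fun u hu => ?_⟩
      obtain ⟨⟨g, g1, -⟩, rfl⟩ := b1 hu
      have := A.inv g c α
      rw [show g • α = α from g1] at this
      exact this.le.trans (by omega)
  exact Pth.cons (Cl.of_le (c2 a ha) z1 (z2 a (c1 ha)))
    (Pth.one (H.cl_symm (Cl.of_le (c2 b hb) z1 (z2 b (c1 hb)))))

/-- Acylindricity. -/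
theorem acyl (H : Ax i ξ C0) (A : AxG i G) (hK : 1 ≤ K) (ε : ℕ) : ∃ R N, H24.Acyl G d ε R N := by
  classical
  obtain ⟨e, he⟩ : ∃ e, e = 3 * ε + δ := ⟨_, rfl⟩
  obtain ⟨r, hr⟩ : ∃ r, r = 3 * (3 * e + δ) + e + 3 := ⟨_, rfl⟩
  obtain ⟨N, hN⟩ := H.ulf_univ hK (r + 4 + e + (r + 4 + e) + 2 * (3 * e + δ)) 2 (by omega)
  obtain ⟨N', hN'⟩ := A.st
  refine ⟨2 * r + 3, N' * (N * N), fun x y' h1 F h2 => ?_⟩
  obtain ⟨y, y1, y2⟩ := Y0.geo x y' _ h1
  have h3 : ∀ g ∈ F, d x (g • x) ≤ e ∧ d y (g • y) ≤ e := fun g hg =>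
    ⟨(h2 g hg).1.trans (by omega), he ▸ mid Y0 (by omega) (h2 g hg).1 (h2 g hg).2⟩
  have key : ∀ s t, s + t = 2 * r + 3 → r ≤ s → r ≤ t →
      ∃ α, d x α = s ∧ (F.image (· • α)).card ≤ N := fun s t e1 e2 e3 => by
    obtain ⟨z, z1, z2⟩ := Y0.geo x y s (by omega)
    obtain ⟨α, a1, a2, a3⟩ := D.tight Y0 H hK (x := x) (y := y) (z := z) (r := s) (s := t)
      (by rw [Y0.symm]; omega) (by omega)
    have a4 := Y0.tri x α y
    have a5 := Y0.symm x α
    refine ⟨α, by omega, hN _ (D.orbit_pp Y0 H A (x := x) (y := y) (fun g hg => ⟨(h3 g hg).1,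
      (h3 g hg).2, mid Y0 (by omega) (h3 g hg).1 (h3 g hg).2⟩) (by omega) (by omega)
      fun Y c1 c2 c3 c4 c5 => (a3 Y c1 c2 c3 c4 c5).imp (fun h => h.mono (by omega))
        fun h => h.mono (by omega))⟩
  obtain ⟨α, a1, a2⟩ := key r (r + 3) (by omega) (by omega) (by omega)
  obtain ⟨α', b1, b2⟩ := key (r + 3) r (by omega) (by omega) (by omega)
  have c1 : 3 ≤ d α α' := by have := Y0.tri x α α'; omega
  refine (Finset.card_le_mul_card_image (f := fun g => (g • α, g • α')) F N'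
    (Finset.forall_mem_image.2 fun g _ => ?_)).trans (Nat.mul_le_mul_left _ ?_)
  · rw [← Finset.card_image_of_injective _ (mul_right_injective g⁻¹)]
    refine hN' _ (D.stab_fin Y0 H A c1) _ (Finset.forall_mem_image.2 fun u hu => ?_)
    obtain ⟨u1, u2⟩ := Prod.mk.inj (Finset.mem_filter.1 hu).2
    constructor
    · exact show (g⁻¹ * u) • α = α by rw [mul_smul, u1, inv_smul_smul]
    · exact show (g⁻¹ * u) • α' = α' by rw [mul_smul, u2, inv_smul_smul]
  · refine le_trans (Finset.card_le_card (t := F.image (· • α) ×ˢ F.image (· • α'))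
      (Finset.image_subset_iff.2 fun g hg => Finset.mem_product.2
        ⟨Finset.mem_image_of_mem _ hg, Finset.mem_image_of_mem _ hg⟩)) ?_
    rw [Finset.card_product]
    exact Nat.mul_le_mul a2 b2

/-- Elements with a centraliser of finite index have bounded orbits. -/
theorem central (H : Ax i ξ C0) (A : AxG i G) (hK : 1 ≤ K) (γ : G)
    (h : (Subgroup.centralizer {γ}).FiniteIndex) (x : C) : ∃ B, ∀ n : ℕ, d x (γ ^ n • x) ≤ B := by
  obtain ⟨R, N, hA⟩ := D.acyl Y0 H A hK 0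
  obtain ⟨a, ha⟩ := A.inf
  refine ⟨d x a + (R + d x a), fun n => ?_⟩
  have h1 : d a (γ ^ n • a) < R := by
    by_contra hc
    have : Infinite (MulAction.stabilizer G a) := ha.to_subtype
    have h2 : Infinite ((Subgroup.centralizer {γ}).subgroupOf (MulAction.stabilizer G a)) := by
      by_contra e
      rw [not_infinite_iff_finite] at e
      exact not_finite_iff_infinite.2 this (Subgroup.finite_iff_finite_and_finiteIndex _ |>.2
        ⟨e, inferInstance⟩)
    obtain ⟨s, hs⟩ := Infinite.exists_subset_card_eq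
      ((Subgroup.centralizer {γ}).subgroupOf (MulAction.stabilizer G a)) (N + 1)
    have := hA a _ (not_lt.1 hc) (s.map ⟨fun g => g.1.1, fun _ _ h => Subtype.ext (Subtype.ext h)⟩)
      fun g hg => by
        obtain ⟨⟨⟨g, g1⟩, g2⟩, -, rfl⟩ := Finset.mem_map.1 hg
        have g3 : g • a = a := g1
        have g4 : Commute g γ := (Subgroup.mem_centralizer_singleton_iff.1 g2)
        change d a (g • a) ≤ 0 ∧ d _ (g • γ ^ n • a) ≤ 0
        rw [← mul_smul, (g4.pow_right n).eq, mul_smul, g3, Y0.self, Y0.self]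
        exact ⟨le_rfl, le_rfl⟩
    rw [Finset.card_map] at this
    omega
  have := Y0.tri x a (γ ^ n • x)
  have := Y0.tri a (γ ^ n • a) (γ ^ n • x)
  have := Y0.symm a x
  rw [Y0.inv] at *
  omega

end IsDist

end Pool.Agent.MP_646035_al.H71

end

-- part MP_646035_al.H71.Cur4
section

/-!
Systems of curves: chains of subsurfaces.
-/

namespace Pool.Agent.MP_646035_al.H71

open Finset

variable {C : Type*} {i : C → C → ℕ} {ξ C0 : ℕ}

theorem dbl_sum {f : ℕ → ℕ} {n : ℕ} (h : ∀ l < n, 2 * f l < f (l + 1)) :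
    ∑ l ∈ range n, f l ≤ f n := by
  induction n with
  | zero => simp
  | succ n ih =>
    have := ih fun l hl => h l (by omega)
    have := h n (by omega)
    rw [sum_range_succ]
    omega

theorem dbl_mul {f : ℕ → ℕ} {q : ℕ} (h : ∀ l < q, 2 * f l < f (l + 1)) :
    (q + 1) * (f 0 + 1) ≤ f q + 1 := by
  induction q with
  | zero => simp
  | succ q ih =>
    have := ih fun l hl => h l (by omega)
    have := h q (by omega)
    nlinarith

variable (i) in
/-- a chain of subsurfaces with large projections -/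
structure Chn (K : ℕ) (β : ℕ → C) (Z : ℕ → Set C) : Prop where
  bd : ∀ j, β j ∈ bdy i (Z j)
  cr : ∀ j, i (β j) (β (j + 1)) ≠ 0
  far : ∀ j, ¬ Ch i K (Z (j + 1)) 3 (β j) (β (j + 2))

variable (i) in
/-- to the left of the place `j` -/
def Lf (K : ℕ) (β : ℕ → C) (Z : ℕ → Set C) (γ : C) (j : ℕ) : Prop :=
  γ ∉ perp i (Z j) ∧ ¬ Ch i K (Z j) 1 γ (β (j + 1))

variable (i) in
/-- to the right of the place `j + 1` -/
def Rt (K : ℕ) (β : ℕ → C) (Z : ℕ → Set C) (γ : C) (j : ℕ) : Prop :=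
  γ ∉ perp i (Z (j + 1)) ∧ ¬ Ch i K (Z (j + 1)) 1 γ (β j)

variable (i) in
/-- the curves disjoint from a block of the chain -/
def Pp (β : ℕ → C) (s n : ℕ) : Set C := perp i {b | ∃ t < n, β (s + t + 1) = b}

theorem pp_anti {β : ℕ → C} {a b n r : ℕ} (h : b < r) : Pp i β a (r * n) ⊆ Pp i β (a + b * n) n := by
  refine perp_anti ?_
  rintro _ ⟨t, ht, rfl⟩
  exact ⟨b * n + t, by nlinarith, by rw [← add_assoc a]⟩

theorem Ax.mem_pp (H : Ax i ξ C0) (β : ℕ → C) {s n t : ℕ} (h : t < n) :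
    β (s + t + 1) ∈ perp i (Pp i β s n) := H.sub_pp _ ⟨t, h, rfl⟩

theorem Ax.fil_pp (H : Ax i ξ C0) {β : ℕ → C} {s n : ℕ} {W : Set C} (h : Pp i β s n = perp i W)
    {δ : C} (hδ : δ ∈ bdy i W) (x : C) : i δ x ≤ 2 * ∑ t ∈ range n, i (β (s + t + 1)) x := by
  classical
  have e : perp i (((range n).image fun t => β (s + t + 1) : Finset C) : Set C) = perp i W := by
    rw [← h, Pp]
    congr 1
    ext b
    simp only [coe_image, coe_range, Set.mem_image, Set.mem_Iio, Set.mem_ofPred_eq]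
  refine (H.fil _ δ (e ▸ hδ.2) (e ▸ H.sub_pp W hδ.1) x).trans (Nat.mul_le_mul_left _ ?_)
  exact sum_image_le_of_nonneg fun _ _ => Nat.zero_le _

theorem Ax.scale (H : Ax i ξ C0) (β : ℕ → C) {r : ℕ} (hr : 1 ≤ r) (t : ℕ) : ∀ s,
    (Pp i β s (3 * r ^ t)).Nonempty → Ht i t (perp i (Pp i β s (3 * r ^ t))) →
    ∃ a n, 3 ≤ n ∧ r * n ≤ 3 * r ^ t ∧ (Pp i β a (r * n)).Nonempty ∧
      ∀ b < r, Pp i β (a + b * n) n = Pp i β a (r * n) := by
  induction t with
  | zero => exact fun _ _ h => h.elim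
  | succ t ih =>
    intro s h1 h2
    have e : 3 * r ^ (t + 1) = r * (3 * r ^ t) := by ring
    rw [e] at h1 h2 ⊢
    by_cases hc : ∀ b < r, Pp i β (s + b * (3 * r ^ t)) (3 * r ^ t) = Pp i β s (r * (3 * r ^ t))
    · exact ⟨s, _, Nat.le_mul_of_pos_right _ (by positivity), le_rfl, h1, hc⟩
    push Not at hc
    obtain ⟨b, b1, b2⟩ := hc
    obtain ⟨a, n, h3, h4, h5⟩ := ih _ (h1.mono (pp_anti b1)) (h2 _ (H.clo_perp _)
      ⟨perp_anti (pp_anti b1), fun e => b2 ((pp_anti b1).antisymm'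
        ((H.sub_pp _).trans ((perp_anti e).trans (H.clo_perp _))))⟩)
    exact ⟨a, n, h3, h4.trans (Nat.le_mul_of_pos_left _ hr), h5⟩

namespace Chn

variable {K : ℕ} {β : ℕ → C} {Z : ℕ → Set C} (c : Chn i K β Z) (H : Ax i ξ C0) (hK : 2 ≤ K)
  {γ γ' : C} {j l : ℕ}
include c H

omit H in
theorem cut (j : ℕ) : β (j + 1) ∉ perp i (Z j) := not_perp.2 ⟨_, (c.bd j).1, c.cr j⟩

theorem cut' (j : ℕ) : β j ∉ perp i (Z (j + 1)) :=
  not_perp.2 ⟨_, (c.bd _).1, H.symm _ _ ▸ c.cr j⟩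

theorem lf_or_rt (h : γ ∉ perp i (Z (j + 1))) : Lf i K β Z γ (j + 1) ∨ Rt i K β Z γ j := by
  by_contra e
  simp only [Lf, Rt, h, not_false_eq_true, true_and, not_or, not_not] at e
  exact c.far j (((H.ch_symm e.2).trans e.1).succ)

theorem sub_perp {W : Set C} (h1 : β j ∈ W) (h2 : β (j + 2) ∈ W) :
    perp i W ⊂ perp i (Z (j + 1)) := by
  refine ⟨fun γ hγ => by_contra fun e => c.far j (Pth.succ (Pth.cons (b := γ)
    (Cl.of_le (c.cut' H j) e (by rw [hγ _ h1]; omega)) (Pth.one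
    (Cl.of_le e (c.cut _) (by rw [H.symm, hγ _ h2]; omega))))), fun e => c.cr (j + 1) ?_⟩
  exact H.symm _ _ ▸ e (c.bd (j + 1)).2 _ h2

include hK

theorem lf_succ (h : Lf i K β Z γ j) : Cl i K (Z (j + 1)) γ (β j) ∧ Lf i K β Z γ (j + 1) := by
  obtain ⟨-, h1, h2⟩ := H.beh (by omega) (c.bd j) (c.bd (j + 1)) (c.cut' H j) (c.cut j) h.1
    (Ch.not_cl h.2)
  exact ⟨h2, h1, fun e => c.far j (Pth.cons (H.cl_symm h2) e).succ⟩

theorem lf_le (h : Lf i K β Z γ j) (hl : j ≤ l) : Lf i K β Z γ l := by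
  induction hl with
  | refl => exact h
  | step _ ih => exact (c.lf_succ H hK ih).2

theorem rt_pred (h : Rt i K β Z γ (j + 1)) :
    Cl i K (Z (j + 1)) γ (β (j + 2)) ∧ Rt i K β Z γ j := by
  obtain ⟨-, h1, h2⟩ := H.beh (by omega) (c.bd (j + 2)) (c.bd (j + 1)) (c.cut _) (c.cut' H _) h.1
    (Ch.not_cl h.2)
  exact ⟨h2, h1, fun e => c.far j ((H.ch_symm e).trans (Pth.one h2)).succ⟩

theorem rt_le (h : Rt i K β Z γ j) (hl : l ≤ j) : Rt i K β Z γ l := by
  induction hl with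
  | refl => exact h
  | step _ ih => exact ih (c.rt_pred H hK h).2

theorem lf_dbl (h : Lf i K β Z γ j) : 2 * i (β j) γ < i (β (j + 1)) γ := by
  have := ((lt_of_not_cl h.1 (c.cut j) (Ch.not_cl h.2)).2 _ (c.bd j)).1
  rw [H.symm γ] at this
  nlinarith

theorem rt_dbl (h : Rt i K β Z γ j) : 2 * i (β (j + 1)) γ < i (β j) γ := by
  have := ((lt_of_not_cl h.1 (c.cut' H j) (Ch.not_cl h.2)).2 _ (c.bd _)).1
  rw [H.symm γ] at this
  nlinarith

theorem step {W : Set C} {a n r b : ℕ} (hn : 1 ≤ n)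
    (hB : ∀ b < r, Pp i β (a + b * n) n = perp i W) (h : Cl i K W γ γ') (hb : b + (4 * K + 4) ≤ r)
    (h1 : Rt i K β Z γ j) (hj : a + (b + (4 * K + 4)) * n ≤ j) :
    ∃ j', a + b * n ≤ j' ∧ Rt i K β Z γ' j' := by
  obtain ⟨_, ⟨t, ht, rfl⟩, h2⟩ := not_perp.1 (show γ' ∉ Pp i β (a + b * n) n from
    hB b (by omega) ▸ h.2.1)
  refine (c.lf_or_rt H (not_perp.2 ⟨_, (c.bd _).1, h2⟩)).elim (fun h3 => False.elim ?_)
    fun h3 => ⟨_, by omega, h3⟩
  obtain ⟨s, hs⟩ : ∃ s, s = a + (b + 1) * n := ⟨_, rfl⟩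
  obtain ⟨s', hs'⟩ : ∃ s', s' = a + (b + (4 * K + 3)) * n := ⟨_, rfl⟩
  have e1 : s = a + b * n + n := by rw [hs]; ring
  have e2 : s' = a + b * n + 4 * (K * n) + 3 * n := by rw [hs']; ring
  have e3 : a + (b + (4 * K + 4)) * n = s' + n := by rw [hs']; ring
  have e4 : K ≤ K * n := Nat.le_mul_of_pos_right _ hn
  obtain ⟨q, hq⟩ : ∃ q, s' = s + n + 2 * K + 1 + (2 * K + q) :=
    ⟨s' - (s + n + 4 * K + 1), by omega⟩
  have L : ∀ l, s ≤ l → Lf i K β Z γ' l := fun l hl => c.lf_le H hK h3 (by omega)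
  have R : ∀ l, l ≤ s' + n → Rt i K β Z γ l := fun l hl => c.rt_le H hK h1 (by omega)
  have a1 := dbl_sum (f := fun t => i (β (s + t + 1)) γ') (n := n)
    fun l _ => c.lf_dbl H hK (L _ (by omega))
  have a2 := dbl_mul (f := fun t => i (β (s + n + t + 1)) γ') (q := 2 * K)
    fun l _ => c.lf_dbl H hK (L _ (by omega))
  have a3 := dbl_sum (f := fun t => i (β (s' + (n - t))) γ) (n := n) fun l hl => by
    have := c.rt_dbl H hK (R (s' + (n - (l + 1))) (by omega))
    rwa [show s' + (n - (l + 1)) + 1 = s' + (n - l) by omega] at this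
  have a4 := dbl_mul (f := fun t => i (β (s' - t)) γ) (q := 2 * K + q) fun l hl => by
    have := c.rt_dbl H hK (R (s' - (l + 1)) (by omega))
    rwa [show s' - (l + 1) + 1 = s' - l by omega] at this
  have a5 : ∑ t ∈ range n, i (β (s' + t + 1)) γ = ∑ t ∈ range n, i (β (s' + (n - t))) γ := by
    rw [← sum_range_reflect]
    exact sum_congr rfl fun t ht => by
      rw [show s' + (n - 1 - t) + 1 = s' + (n - t) by have := mem_range.1 ht; omega]
  have a6 := (c.lf_succ H hK (L (s + n + 2 * K) (by omega))).1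
  have a7 := (c.rt_pred H hK (R (s + n + 2 * K + 1) (by omega))).1
  obtain ⟨a8, a9⟩ := (lt_of_not_cl a7.1 a6.1 fun e => c.far _ (Pth.cons (H.cl_symm a6)
    (Pth.cons (H.cl_symm e) (Pth.one a7)))).2 _ (c.bd _)
  simp only [Nat.sub_self, add_zero, Nat.sub_zero] at a2 a3 a4
  rw [show s' - (2 * K + q) = s + n + 2 * K + 1 by omega] at a4
  have b1 := (Nat.le_mul_of_pos_left _ (by omega : 0 < K)).trans_lt a8
  have b2 := (Nat.le_mul_of_pos_left _ (by omega : 0 < K)).trans_lt a9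
  have b3 : ∀ {u v w q x : ℕ}, (2 * K + q + 1) * (u + 1) ≤ v + 1 → v < w → x ≤ 2 * u →
      K < w ∧ K * x < w := fun h1 h2 h3 => by
    have := Nat.mul_le_mul_left K h3
    constructor <;> nlinarith only [h1, h2, this]
  obtain h4 | ⟨δ, d1, h4 | h4⟩ := h.2.2
  · exact absurd (b3 a4 b1 le_rfl).1 (not_lt.2 h4)
  · have := H.fil_pp (hB (b + (4 * K + 3)) (by omega)) d1 γ
    rw [← hs', a5] at this
    exact absurd (b3 a4 b1 (this.trans (Nat.mul_le_mul_left _ a3))).2 (not_lt.2 h4)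
  · have := H.fil_pp (hB (b + 1) (by omega)) d1 γ'
    rw [← hs] at this
    exact absurd (b3 (q := 0) a2 b2 (this.trans (Nat.mul_le_mul_left _ a1))).2 (not_lt.2 h4)

theorem prog {W : Set C} {a n r m : ℕ} {x y : C} (hn : 1 ≤ n)
    (hB : ∀ b < r, Pp i β (a + b * n) n = perp i W) (hm : m * (4 * K + 4) ≤ r)
    (hx : Lf i K β Z x a) (hy : Rt i K β Z y (a + r * n)) : ¬ Ch i K W m y x := by
  intro h
  have key : ∀ b j, b + m * (4 * K + 4) ≤ r → a + (b + m * (4 * K + 4)) * n ≤ j →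
      Rt i K β Z y j → ∃ j', a + b * n ≤ j' ∧ Rt i K β Z x j' := by
    clear hx hy hm
    induction h with
    | nil m y => exact fun b j _ h2 h3 => ⟨j, by linarith only [Nat.zero_le (m * (4 * K + 4) * n), h2], h3⟩
    | @cons m y z x h _ ih =>
      intro b j h1 h2 h3
      rw [add_mul m, one_mul, ← add_assoc] at h1 h2
      obtain ⟨j', h4, h5⟩ := c.step H hK hn hB h h1 h3 h2
      exact ih b j' (by omega) h4 h5
  obtain ⟨j, h1, h2⟩ := key 0 _ (by omega) (by rw [zero_add]; gcongr) hy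
  exact h2.2 (Pth.one (c.lf_succ H hK (c.lf_le H hK hx (by omega))).1)

end Chn

end Pool.Agent.MP_646035_al.H71

end

-- part MP_646035_al.H71.Cur5
section

/-!
Systems of curves: uniform displacement in the curve graph.
-/

namespace Pool.Agent.MP_646035_al.H71

open scoped Pointwise

variable {C : Type*} {i : C → C → ℕ} {ξ C0 : ℕ} {G : Type*} [Group G] [MulAction G C]
  {K δ : ℕ} {d : C → C → ℕ} {S : Finset G}

theorem AxG.orbit (A : AxG i G) (hS : Subgroup.closure (S : Set G) = ⊤) [DecidableEq C] (a : C)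
    (k : ℕ) : ∃ F : Finset G, (F.image (· • a)).card = k + 1 ∧ ∀ f ∈ F, f ∈ ball S k := by
  obtain ⟨F, h1, h2, h3⟩ := H24.exists_cosets hS (H := MulAction.stabilizer G a)
    (fun h => h.index_ne_zero (by rw [MulAction.index_stabilizer, (A.orb a).ncard])) k
  refine ⟨F, h1 ▸ Finset.card_image_of_injOn fun f hf f' hf' e => h3 f hf f' hf' ?_, h2⟩
  rw [MulAction.mem_stabilizer_iff, mul_smul, inv_smul_eq_iff]
  exact e.symm

theorem AxG.cross (A : AxG i G) (H : Ax i ξ C0) (hS : Subgroup.closure (S : Set G) = ⊤) (a : C) :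
    ∃ f ∈ ball S (ξ + ξ), i a (f • a) ≠ 0 := by
  classical
  obtain ⟨F, h1, h2⟩ := A.orbit hS a ξ
  by_contra! hc
  refine absurd (H.xi (F.image (· • a)) ?_) (by omega)
  rw [Finset.coe_image]
  rintro _ ⟨f, hf, rfl⟩ _ ⟨f', hf', rfl⟩
  rw [← A.inv f⁻¹, inv_smul_smul, ← mul_smul]
  exact hc _ (mul_mem_ball (inv_mem_ball (h2 f hf)) (h2 f' hf'))

variable (i d) in
/-- `α` has the least total intersection with its translates among the almost fixed curves. -/
structure IsMin (S : Finset G) (M T : ℕ) (α : C) : Prop where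
  fix : ∀ s ∈ ball S M, d α (s • α) ≤ T
  min : ∀ z, (∀ s ∈ ball S M, d z (s • z) ≤ T) →
    ∑ s ∈ (ball_finite S M).toFinset, i α (s • α) ≤ ∑ s ∈ (ball_finite S M).toFinset, i z (s • z)

variable (d) in
/-- linear progress -/
def LP (S : Finset G) (c : ℕ) : Prop := ∃ u, ∀ m, ∃ w ∈ ball S (c * (m + 1)), m < d u (w • u)

theorem exists_chn (H : Ax i ξ C0) (A : AxG i G) {Y : Set C} {β : C} (hβ : β ∈ bdy i Y) {ν : ℕ}
    {f f' : G} (h1 : f ∈ ball S ν) (h2 : f' ∈ ball S ν) (h3 : i β (f • β) ≠ 0)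
    (h4 : i β (f' • β) ≠ 0) (h5 : ¬ Ch i K Y 6 (f • β) (f' • β)) :
    ∃ w : ℕ → G, w 0 = 1 ∧ (∀ a t, (w a)⁻¹ * w (a + t) ∈ ball S (ν * t)) ∧
      Chn i K (fun j => w j • β) fun j => w j • Y := by
  have : ∀ g : G, ∃ g', g' ∈ ball S ν ∧ i β (g' • β) ≠ 0 ∧ ¬ Ch i K Y 3 (g⁻¹ • β) (g' • β) := by
    intro g
    by_cases e : Ch i K Y 3 (g⁻¹ • β) (f • β)
    · exact ⟨f', h2, h4, fun e' => h5 ((H.ch_symm e).trans e')⟩
    · exact ⟨f, h1, h3, e⟩
  choose nx n1 n2 n3 using this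
  let h : ℕ → G := fun j => nx^[j + 1] 1
  have e : ∀ j, h (j + 1) = nx (h j) := fun j => Function.iterate_succ_apply' _ _ _
  have e' : ∀ j, ∃ g, h j = nx g := fun j => ⟨_, Function.iterate_succ_apply' _ _ _⟩
  let w : ℕ → G := fun j => Nat.rec 1 (fun j x => x * h j) j
  have ew : ∀ j, w (j + 1) = w j * h j := fun _ => rfl
  refine ⟨w, rfl, fun a t => ?_, fun j => A.bdy_smul _ hβ, fun j => ?_, fun j => ?_⟩
  · induction t with
    | zero => simpa using one_mem_ball S 0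
    | succ t ih =>
      obtain ⟨g, hg⟩ := e' (a + t)
      rw [← add_assoc, ew, ← mul_assoc, hg]
      exact mul_mem_ball ih (n1 g)
  · obtain ⟨g, hg⟩ := e' j
    rw [ew, mul_smul, A.inv, hg]
    exact n2 g
  · have e1 : w j • β = w (j + 1) • (h j)⁻¹ • β := by rw [ew, mul_smul, smul_inv_smul]
    have e2 : w (j + 2) • β = w (j + 1) • nx (h j) • β := by rw [← e, ← mul_smul]
    rw [e1, e2, A.ch_iff]
    exact n3 _

namespace IsDist

variable (D : IsDist i K d) (Y0 : H24.Hyp G d δ) (H : Ax i ξ C0) (A : AxG i G) (hK : 2 ≤ K)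
include D Y0 H A hK

theorem bad (hS : Subgroup.closure (S : Set G) = ⊤) {M T : ℕ} (hM : ξ + ξ ≤ M) {α β : C}
    (m : IsMin i d S M (T + 1) α) {Y : Set C} (hβ : β ∈ bdy i Y) (hα : α ∉ perp i Y)
    (h : ∀ s ∈ ball S M, i β (s • β) ≠ 0 → ¬ Ch i K Y (T + 2) α (s • β)) : False := by
  have k1 : ∀ s ∈ ball S M, i β (s • β) ≠ 0 → s • α ∉ perp i Y ∧
      ¬ Ch i K Y (T + 1) α (s • α) ∧ i β (s • β) < i α (s • α) := fun s hs e => by
    have e' : i β (s⁻¹ • β) ≠ 0 := by rwa [← A.inv s, smul_inv_smul, H.symm]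
    have a1 := h _ (inv_mem_ball hs) e'
    rw [← A.ch_iff s, smul_inv_smul] at a1
    have a2 : β ∉ perp i (s • Y) := not_perp.2 ⟨_, (A.bdy_smul s hβ).1, H.symm _ _ ▸ e⟩
    have a3 := mt (A.mem_perp s).1 hα
    obtain ⟨-, a4, a5⟩ := H.beh (by omega) (A.bdy_smul s hβ) hβ
      (not_perp.2 ⟨_, hβ.1, e⟩) a2 a3 (Ch.not_cl a1)
    have a6 : ¬ Ch i K Y (T + 1) α (s • α) := fun e' => h s hs e (e'.trans (Pth.one a5))
    have a7 := ((lt_of_not_cl a3 a2 (Ch.not_cl a1)).2 _ (A.bdy_smul s hβ)).2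
    have a8 := ((lt_of_not_cl hα a4 (Ch.not_cl a6)).2 _ hβ).2
    rw [H.symm _ β, H.symm _ β] at a7
    exact ⟨a4, a6, by nlinarith only [hK, a7, a8]⟩
  refine absurd (m.min β fun s hs => ?_) (not_le.2 (Finset.sum_lt_sum (fun s hs => ?_) ?_))
  · by_cases e : i β (s • β) = 0
    · exact (D.one e).trans (by omega)
    obtain ⟨a1, a2, -⟩ := k1 s hs e
    obtain ⟨b1, b2, -⟩ := k1 _ (inv_mem_ball hs) (by rwa [← A.inv s, smul_inv_smul, H.symm])
    rw [← A.ch_iff s, smul_inv_smul] at b2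
    rw [← A.mem_perp s, smul_inv_smul] at b1
    obtain ⟨j, j', v, v1, v2, v3, v4⟩ := D.ex (m.fix s hs) hα a2
    have v5 := D.one (v2 β hβ.1)
    obtain ⟨u, u1, u2⟩ : ∃ u ∈ perp i (s • Y), d v u + 2 ≤ T + 1 := by
      have j1 : j' ≠ 0 := by
        rintro rfl
        cases (D _ _ _).1 v4
        exact a1 v2
      by_cases c : v ∈ perp i (s • Y)
      · exact ⟨v, c, by rw [Y0.self]; omega⟩
      by_cases c1 : Ch i K (s • Y) j' v (s • α)
      · obtain ⟨l, l', u, u1, u2, u3, u4⟩ := D.ex v3 b1 fun c2 =>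
          b2 (H.ch_symm ((c2.trans c1).mono (by omega)))
        exact ⟨u, u2, by rw [Y0.symm]; omega⟩
      · obtain ⟨l, l', u, u1, u2, u3, u4⟩ := D.ex v4 c c1
        refine ⟨u, u2, ?_⟩
        have : l' ≠ 0 := by
          rintro rfl
          cases (D _ _ _).1 u4
          exact hα ((A.mem_perp s).1 u2)
        omega
    have := D.one (u1 _ (A.bdy_smul s hβ).1)
    have := Y0.tri β v (s • β)
    have := Y0.tri v u (s • β)
    have := Y0.symm u (s • β)
    omega
  · by_cases e : i β (s • β) = 0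
    · omega
    · exact (k1 s (by simpa using hs) e).2.2.le
  · obtain ⟨s, s1, s2⟩ := A.cross H hS β
    exact ⟨s, by simpa using ball_mono S hM s1, (k1 s (ball_mono S hM s1) s2).2.2⟩

theorem level {M T : ℕ} (hM : ξ + ξ ≤ M) (h : ℕ) : ∀ μ, ∃ c, ∀ S : Finset G,
    Subgroup.closure (S : Set G) = ⊤ → ∀ α, IsMin i d S M (T + 1) α → ∀ Y, Clo i Y →
    Y ≠ Set.univ → Ht i h (perp i Y) → ∀ g ∈ ball S μ, α ∉ perp i Y → g • α ∉ perp i Y →
    ¬ Ch i K Y (T + 8 + (T + 8)) α (g • α) → LP d S c := by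
  induction h with
  | zero => exact fun _ => ⟨0, fun _ _ _ _ _ _ _ h => h.elim⟩
  | succ h ih =>
    intro μ
    obtain ⟨r, hr⟩ : ∃ r, r = (T + 8 + (T + 8)) * (4 * K + 4) := ⟨_, rfl⟩
    obtain ⟨N, hN⟩ : ∃ N, N = 3 * r ^ (2 * ξ + 1) := ⟨_, rfl⟩
    have r1 : 1 ≤ r := by rw [hr]; nlinarith only []
    obtain ⟨c, hc⟩ := ih (μ + (μ + M + μ) * (N + 1) + μ)
    refine ⟨c + (μ + M + μ) * ((4 * K + 4) * N + 3), fun S hS α m Y c1 c2 c3 g g1 a1 a2 a3 => ?_⟩
    obtain ⟨β, hβ⟩ := H.bd_ne c1 c2 a1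
    by_cases hb : ∀ f ∈ ball S (μ + M + μ), ∀ f' ∈ ball S (μ + M + μ), i β (f • β) ≠ 0 →
        i β (f' • β) ≠ 0 → Ch i K Y 6 (f • β) (f' • β)
    · exfalso
      obtain ⟨f, f1, f2⟩ := A.cross H hS β
      obtain ⟨u, u1, u2, u3⟩ : ∃ u ∈ ball S μ, u • α ∉ perp i Y ∧
          ¬ Ch i K Y (T + 8) (u • α) (f • β) := by
        by_cases e : Ch i K Y (T + 8) α (f • β)
        · exact ⟨g, g1, a2, fun e' => a3 (e.trans (H.ch_symm e'))⟩
        · exact ⟨1, one_mem_ball _ _, by simpa using a1, by simpa using e⟩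
      refine D.bad Y0 H A hK hS hM m (A.bdy_smul u⁻¹ hβ) (fun e => u2 ?_) fun s hs e e' => u3 ?_
      · simpa using (A.mem_perp u).2 e
      · have b1 := A.ch_smul u e'
        rw [← A.inv u, smul_inv_smul, ← mul_smul, ← mul_smul] at e
        rw [smul_inv_smul, ← mul_smul u s, ← mul_smul (u * s)] at b1
        exact b1.trans (hb _ (mul_mem_ball (mul_mem_ball u1 hs) (inv_mem_ball u1)) f
          (ball_mono S (by omega) f1) e f2)
    push Not at hb
    obtain ⟨f, f1, f', f2, f3, f4, f5⟩ := hb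
    obtain ⟨w, w0, w1, cn⟩ := exists_chn H A hβ f1 f2 f3 f4 f5
    by_cases he : ∀ s, Pp i (fun j => w j • β) s N = ∅
    · refine ⟨β, fun n => ⟨w (1 + n * (4 * K + 4) * N + 2), ?_, not_le.1 fun e => ?_⟩⟩
      · refine ball_mono S ?_ (by simpa [w0] using w1 0 (1 + n * (4 * K + 4) * N + 2))
        rw [add_mul c, mul_assoc (μ + M + μ)]
        refine le_add_left (Nat.mul_le_mul_left _ ?_)
        linarith only [Nat.zero_le ((4 * K + 4) * N)]
      · refine cn.prog H hK (a := 1) (n := N) (W := Set.univ) (hN ▸ Nat.mul_pos (by omega)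
          (by positivity)) (fun b _ => by rw [he, H.perp_univ]) (le_refl (n * (4 * K + 4)))
          ⟨cn.cut' H 0, fun e => cn.far 0 (e.mono (by omega))⟩
          ⟨cn.cut _, fun e => cn.far _ ((H.ch_symm e).mono (by omega))⟩ ((D.ch_univ H).2 ?_)
        rwa [w0, one_smul, Y0.symm]
    push Not at he
    obtain ⟨s, hs⟩ := he
    obtain ⟨a, n, n1, n2, n3, n4⟩ := H.scale _ r1 _ s (hN ▸ hs) (H.ht (H.clo_perp _))
    have n5 : 3 ≤ r * n := n1.trans (Nat.le_mul_of_pos_left _ r1)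
    have pw : perp i (perp i (Pp i (fun j => w j • β) a (r * n))) =
        Pp i (fun j => w j • β) a (r * n) := H.ppp _
    have mw := fun t (ht : t < r * n) => H.mem_pp (fun j => w j • β) (s := a) ht
    have cw : Clo i (perp i (Pp i (fun j => w j • β) a (r * n))) := H.clo_perp _
    rw [← pw] at n3 n4
    generalize perp i (Pp i (fun j => w j • β) a (r * n)) = W at n3 n4 mw cw
    have two : ∀ j z, ∃ u ∈ ball S μ, w j • u • α ∉ perp i (w j • Y) ∧
        ¬ Ch i K (w j • Y) 1 (w j • u • α) z := fun j z => by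
      by_cases e : Ch i K (w j • Y) 1 (w j • α) z
      · exact ⟨g, g1, mt (A.mem_perp _).1 a2, fun e' => a3 ((A.ch_iff (w j)).1
          ((e.trans (H.ch_symm e')).mono (by omega)))⟩
      · exact ⟨1, one_mem_ball _ _, by simpa using mt (A.mem_perp (w j)).1 a1, by simpa using e⟩
    obtain ⟨u, u1, u2⟩ := two a (w (a + 1) • β)
    obtain ⟨v, v1, v2⟩ := two (a + r * n + 1) (w (a + r * n) • β)
    have x1 : w a • u • α ∉ perp i W := not_perp.2 ⟨_, mw 0 (by omega),
      Nat.ne_zero_of_lt (cn.lf_dbl H hK u2)⟩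
    have y1 : w (a + r * n + 1) • v • α ∉ perp i W := not_perp.2 ⟨_, mw (r * n - 1) (by omega), by
      rw [show a + (r * n - 1) + 1 = a + r * n by omega]
      exact Nat.ne_zero_of_lt (cn.rt_dbl H hK v2)⟩
    have p := cn.prog H hK (by omega) n4 hr.ge u2 v2
    suffices L : LP d S c from L.imp fun z hz n => (hz n).imp fun w h =>
      ⟨ball_mono S (Nat.mul_le_mul_right _ (Nat.le_add_right _ _)) h.1, h.2⟩
    refine hc S hS α m ((w a * u)⁻¹ • W) (A.clo_smul _ cw)
      (smul_ne_univ _ fun e => by simp [e, H.perp_univ] at n3) ?_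
      ((w a * u)⁻¹ * (w (a + r * n + 1) * v)) ?_ (fun e => x1 ?_) (fun e => y1 ?_) fun e => p ?_
    · rw [A.perp_smul]
      refine A.ht_smul _ (A.ht_smul (w (a + 1 + 1)) c3 _ (H.clo_perp _) ?_)
      rw [← A.perp_smul]
      exact cn.sub_perp H (mw 0 (by omega)) (mw 2 (by omega))
    · rw [show (w a * u)⁻¹ * (w (a + r * n + 1) * v) = u⁻¹ * ((w a)⁻¹ * w (a + (r * n + 1))) * v by
        simp only [mul_inv_rev, mul_assoc, add_assoc]]
      exact mul_mem_ball (mul_mem_ball (inv_mem_ball u1) (ball_mono S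
        (Nat.mul_le_mul_left _ (by omega)) (w1 _ _))) v1
    · simpa only [smul_inv_smul, mul_smul (w a) u α] using (A.mem_perp (w a * u)).2 e
    · simpa only [smul_inv_smul, mul_smul _ (_ * _), mul_smul (w _) v] using
        (A.mem_perp (w a * u)).2 e
    · simpa only [smul_inv_smul, mul_smul _ (_ * _), mul_smul (w _) v, mul_smul (w a) u α] using
        H.ch_symm (A.ch_smul (w a * u) e)

/-- Uniform displacement. -/
theorem disp (T : ℕ) : ∃ M, ∀ S : Finset G, Subgroup.closure (S : Set G) = ⊤ →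
    ∀ x, ∃ g ∈ ball S M, T ≤ d x (g • x) := by
  classical
  obtain ⟨N, hN⟩ := H.ulf_univ (K := K) (by omega) (T + 8 + (T + 8)) 1 le_rfl
  obtain ⟨c, hc⟩ := D.level Y0 H A hK (M := ξ + ξ + N) (T := T) (by omega) (2 * ξ + 1) (N + N)
  refine ⟨(c + 1) * (2 * (T + 1)) + (ξ + ξ + N), fun S hS x => ?_⟩
  by_contra! hx
  have ne : ∃ n z, (∀ s ∈ ball S (ξ + ξ + N), d z (s • z) ≤ T + 1) ∧
      ∑ s ∈ (ball_finite S (ξ + ξ + N)).toFinset, i z (s • z) = n :=
    ⟨_, x, fun s hs => by have := hx s (ball_mono S (by omega) hs); omega, rfl⟩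
  obtain ⟨α, a1, a2⟩ := Nat.find_spec ne
  have m : IsMin i d S (ξ + ξ + N) (T + 1) α := ⟨a1, fun z hz => a2 ▸ Nat.find_min' ne ⟨z, hz, rfl⟩⟩
  obtain ⟨F, f1, f2⟩ := A.orbit hS α N
  obtain ⟨u, hu⟩ : LP d S c := by
    by_contra hL
    refine absurd (hN (F.image (· • α)) fun Y c1 _ B b1 b2 b3 => Finset.card_le_one.2
      fun a ha b hb => by_contra fun e => hL ?_) (by omega)
    have b4 := b3 a ha b hb e
    obtain ⟨g, g1, rfl⟩ := Finset.mem_image.1 (b1 ha)
    obtain ⟨g', g2, rfl⟩ := Finset.mem_image.1 (b1 hb)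
    refine hc S hS α m (g⁻¹ • Y) (A.clo_smul _ c1) (smul_ne_univ _ ?_) (H.ht (H.clo_perp _))
      (g⁻¹ * g') (mul_mem_ball (inv_mem_ball (f2 g g1)) (f2 g' g2)) (fun e => b2 _ ha ?_)
      (fun e => b2 _ hb ?_) fun e => b4 ?_
    · rintro rfl
      refine b4 ((D.ch_univ H).2 ?_)
      have := Y0.tri (g • α) α (g' • α)
      have := Y0.symm α (g • α)
      have := a1 g (ball_mono S (by omega) (f2 g g1))
      have := a1 g' (ball_mono S (by omega) (f2 g' g2))
      omega
    · simpa only [smul_inv_smul] using (A.mem_perp g).2 e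
    · simpa only [smul_inv_smul, mul_smul] using (A.mem_perp g).2 e
    · simpa only [smul_inv_smul, mul_smul] using A.ch_smul g e
  have key : ∀ q, ∀ w ∈ ball S (q * ((c + 1) * (2 * (T + 1)))), d x (w • x) ≤ q * T := by
    intro q
    induction q with
    | zero =>
      rintro _ ⟨l, h1, -, rfl⟩
      simp [List.length_eq_zero_iff.1 (show l.length = 0 by omega), Y0.self]
    | succ q ih =>
      intro w hw
      rw [add_mul, one_mul] at hw
      obtain ⟨w1, h1, w2, h2, rfl⟩ := ball_add_subset S _ _ hw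
      have := ih w1 h1
      have := hx w2 (ball_mono S (by omega) h2)
      refine (Y0.mul_le w1 w2 x).trans ?_
      rw [add_mul]
      omega
  obtain ⟨w, w1, w2⟩ := hu ((d u x + 1) * (2 * (T + 1)) - 1)
  have := key (d u x + 1) w (ball_mono S (by
    rw [Nat.sub_add_cancel (Nat.mul_pos (by omega) (by omega))]
    linarith only [Nat.zero_le ((d u x + 1) * (2 * (T + 1)))]) w1)
  have := Y0.tri u x (w • u)
  have := Y0.tri x (w • x) (w • u)
  have := Y0.symm u x
  rw [Y0.inv] at *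
  have : (d u x + 1) * (2 * (T + 1)) = 2 * ((d u x + 1) * T) + 2 * d u x + 2 := by ring
  omega

/-- Uniform supermultiplicativity for groups acting on a system of curves. -/
theorem mi : ∃ c N : ℕ, ∀ S : Finset G, Subgroup.closure (S : Set G) = ⊤ →
    ∀ (r : ℕ) (U Y T : Finset G), (∀ y ∈ Y, y ∈ ball S r) →
      (∀ x ∈ U, ∀ z ∈ ball S c, ∀ y ∈ Y, x * z * y ∈ T) →
      U.card * Y.card ≤ 4 * N * (2 * r + 3) ^ 1 * T.card := by
  obtain ⟨R, N, hA⟩ := D.acyl Y0 H A (by omega) (13 * δ + 1)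
  obtain ⟨M, hM⟩ := D.disp Y0 H A hK (100 * δ + R + 100)
  have : Nonempty C := ⟨A.inf.choose⟩
  obtain ⟨c, hc⟩ := Y0.mi hA hM (D.central Y0 H A (by omega))
  exact ⟨c, N, hc⟩

end IsDist

end Pool.Agent.MP_646035_al.H71

end

-- part MP_646035_al.H24.Wo
section

/-!
Uniform supermultiplicativity and equational Noetherianity give the well-ordering; passage from a
subgroup of finite index to the whole group.
-/

namespace Pool.Agent.MP_646035_al.H24

open Filter Topology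

/-- Uniform supermultiplicativity of the growth function. -/
def MI (Γ : Type*) [Group Γ] (c K e : ℕ) (S : Finset Γ) : Prop :=
  ∀ R r, (ball S R).ncard * (ball S r).ncard ≤ K * (2 * r + 3) ^ e * (ball S (R + r + c)).ncard

/-- The product set form of uniform supermultiplicativity. -/
def MI' (Γ : Type*) [Group Γ] (c K e : ℕ) (S : Finset Γ) : Prop :=
  ∀ (r : ℕ) (X Y T : Finset Γ), (∀ y ∈ Y, y ∈ ball S r) →
    (∀ x ∈ X, ∀ z ∈ ball S c, ∀ y ∈ Y, x * z * y ∈ T) →
    X.card * Y.card ≤ K * (2 * r + 3) ^ e * T.card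

/-- Equational Noetherianity modulo a subgroup. -/
def EN {H : Type*} [Group H] (T : Subgroup H) : Prop :=
  ∀ (k : ℕ) (f : ℕ → FreeGroup (Fin k) →* H), ∃ m, ∀ W : Finset (FreeGroup (Fin k)), ∃ m' > m,
    ∀ w ∈ W, f m' w ∈ T → f m w ∈ T

variable {Γ : Type*} [Group Γ]

/-- Passage to a quotient of a subgroup. -/
lemma EN.map {H A : Type*} [Group H] [Group A] {T : Subgroup H} (hT : EN T) (ι : A →* H)
    (φ : A →* Γ) (hφ : Function.Surjective φ) (hk : φ.ker ≤ T.comap ι) :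
    EN ((T.comap ι).map φ) := by
  intro k f
  choose a ha using fun m i => hφ (f m (FreeGroup.of i))
  have e : ∀ m w, φ (FreeGroup.lift (a m) w) = f m w := fun m w =>
    DFunLike.congr_fun (FreeGroup.ext_hom (φ.comp (FreeGroup.lift (a m))) (f m)
      fun i => by simp [ha]) w
  obtain ⟨m, hm⟩ := hT k fun m => ι.comp (FreeGroup.lift (a m))
  refine ⟨m, fun W => ?_⟩
  obtain ⟨m', h1, h2⟩ := hm W
  refine ⟨m', h1, fun w hw h3 => ⟨_, h2 w hw ?_, e m w⟩⟩
  rw [← e, ← Subgroup.mem_comap, Subgroup.comap_map_eq, sup_eq_left.2 hk] at h3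
  exact h3

lemma ball_sub {S S' : Finset Γ} (h : ∀ x ∈ S, x ∈ ball S' 1) (r : ℕ) :
    ∀ x ∈ ball S r, x ∈ ball S' r := by
  refine ball_induction (fun r x => x ∈ ball S' r) (one_mem_ball _ _)
    (fun r g hg => ball_mono _ (Nat.le_succ r) hg) (fun r g x hg hx => mul_mem_ball hg ?_) r
  rcases hx with hx | hx
  exacts [h x hx, by simpa using inv_mem_ball (h _ hx)]

lemma rate_tendsto_mul {S : Finset Γ} {e : ℝ} (h : IsRate S e) {p : ℕ} (hp : 1 ≤ p) :
    Tendsto (fun m : ℕ => ((ball S ((m + 1) * p)).ncard : ℝ) ^ (1 / ((m + 1 : ℕ) : ℝ))) atTop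
      (𝓝 (e ^ p)) := by
  have h1 : Tendsto (fun m : ℕ => (m + 1) * p) atTop atTop :=
    tendsto_atTop_mono (fun m => by simp only [id]; nlinarith) tendsto_id
  refine ((h.comp h1).pow p).congr fun m => ?_
  simp only [Function.comp]
  rw [← Real.rpow_natCast, ← Real.rpow_mul (Nat.cast_nonneg _)]
  congr 1
  have : (p : ℝ) ≠ 0 := by positivity
  push_cast
  field_simp

lemma pow_rate_le {S : Finset Γ} {e : ℝ} (h : IsRate S e) {r : ℕ} (hr : 1 ≤ r) :
    e ^ r ≤ (ball S r).ncard := by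
  have h1 : ∀ m, (ball S ((m + 1) * r)).ncard ≤ (ball S r).ncard ^ (m + 1) := by
    intro m
    induction m with
    | zero => simp
    | succ m ih =>
      rw [add_mul (m + 1), one_mul, pow_succ]
      exact (ncard_ball_add S _ _).trans (Nat.mul_le_mul_right _ ih)
  refine le_of_tendsto' (rate_tendsto_mul h hr) fun m => ?_
  rw [one_div, Real.rpow_inv_le_iff_of_pos (Nat.cast_nonneg _) (Nat.cast_nonneg _) (by positivity),
    Real.rpow_natCast]
  exact_mod_cast h1 m

lemma ball_le_rate {S : Finset Γ} {e : ℝ} (h : IsRate S e) {c K d : ℕ} (hM : MI Γ c K d S)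
    {r : ℕ} (hr : 1 ≤ r) : ((ball S r).ncard : ℝ) ≤ K * (2 * r + 3) ^ d * e ^ (r + c) := by
  have hK : 0 < K := by
    have h1 := hM 0 0
    have h2 := one_le_ncard_ball S 0
    by_contra hc
    rw [show K = 0 by omega] at h1
    nlinarith only [h1, h2]
  have hp : (0 : ℝ) < K * (2 * r + 3) ^ d := by positivity
  rw [← div_le_iff₀' hp]
  set q := ((ball S r).ncard : ℝ) / (K * (2 * r + 3) ^ d) with hq
  have hq0 : 0 ≤ q := by positivity
  have h1 : ∀ m, q ^ m ≤ (ball S (m * (r + c))).ncard := by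
    intro m
    induction m with
    | zero => simpa using one_le_ncard_ball S 0
    | succ m ih =>
      have h2 : (((ball S (m * (r + c))).ncard : ℝ) * (ball S r).ncard) ≤
          K * (2 * r + 3) ^ d * (ball S (m * (r + c) + r + c)).ncard := by
        exact_mod_cast hM (m * (r + c)) r
      rw [pow_succ, show (m + 1) * (r + c) = m * (r + c) + r + c by ring]
      refine (mul_le_mul_of_nonneg_right ih hq0).trans ?_
      rw [hq, ← mul_div_assoc, div_le_iff₀' hp]
      exact h2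
  refine ge_of_tendsto' (rate_tendsto_mul h (by omega : 1 ≤ r + c)) fun m => ?_
  rw [one_div, Real.le_rpow_inv_iff_of_pos hq0 (Nat.cast_nonneg _) (by positivity),
    Real.rpow_natCast]
  exact h1 (m + 1)

lemma exists_tuple {S : Finset Γ} {k : ℕ} (h : S.card ≤ k) :
    ∃ s : Fin k → Γ, (∀ t, s t ∈ ball S 1) ∧ ∀ x ∈ S, ∃ t, s t = x := by
  refine ⟨fun t => S.toList.getD t 1, fun t => ?_, fun x hx => ?_⟩
  · by_cases ht : (t : ℕ) < S.toList.length
    · simp only [List.getD_eq_getElem _ _ ht]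
      exact mem_ball_one (Finset.mem_toList.1 (List.getElem_mem ht))
    · simp only [List.getD_eq_default _ _ (not_lt.1 ht)]
      exact one_mem_ball _ _
  · obtain ⟨i, hi, rfl⟩ := List.getElem_of_mem (Finset.mem_toList.2 hx)
    exact ⟨⟨i, by rw [Finset.length_toList] at hi; omega⟩, List.getD_eq_getElem _ _ hi⟩

/-- Equational Noetherianity modulo a finite subgroup and uniform supermultiplicativity give the
well-ordering. -/
theorem wo_of_en {Z : Subgroup Γ} (hπ : (Z : Set Γ).Finite) (hZ : EN Z) {c K d : ℕ}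
    (hM : ∀ S : Finset Γ, Subgroup.closure (S : Set Γ) = ⊤ → MI Γ c K d S) :
    ∀ A ⊆ growthSet Γ, A.Nonempty → ∃ a, IsLeast A a := by
  classical
  intro A hA ⟨a0, ha0⟩
  by_contra hc
  have h1 : ∀ a : A, ∃ b : A, (b : ℝ) < a := by
    rintro ⟨a, ha⟩
    by_contra h
    push Not at h
    exact hc ⟨a, ha, fun b hb => h ⟨b, hb⟩⟩
  choose f hf using h1
  let e : ℕ → ℝ := fun m => (f^[m] ⟨a0, ha0⟩ : A)
  have he : StrictAnti e := strictAnti_nat_of_succ_lt fun m => by
    simp only [e, Function.iterate_succ_apply']; exact hf _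
  choose S hS hR using fun m => hA (f^[m] ⟨a0, ha0⟩).2
  change ∀ m, IsRate (S m) (e m) at hR
  obtain ⟨k, hk⟩ := exists_nat_ge ((K : ℝ) * (2 * (1 : ℕ) + 3) ^ d * e 0 ^ (1 + c))
  have hcard : ∀ m, (S m).card ≤ k := by
    intro m
    have h1 := ball_le_rate (hR m) (hM _ (hS m)) le_rfl
    have h2 : (S m).card ≤ (ball (S m) 1).ncard := by
      rw [← Set.ncard_coe_finset]
      exact Set.ncard_le_ncard (fun x hx => mem_ball_one hx) (ball_finite _ _)
    have h3 : e m ^ (1 + c) ≤ e 0 ^ (1 + c) :=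
      pow_le_pow_left₀ (by linarith only [(hR m).one_le]) (he.antitone (Nat.zero_le m)) _
    have h4 : ((S m).card : ℝ) ≤ k :=
      ((Nat.cast_le.2 h2).trans h1).trans (le_trans (by gcongr) hk)
    exact_mod_cast h4
  choose s s1 s2 using fun m => exists_tuple (hcard m)
  obtain ⟨m, hm⟩ := hZ k fun m => FreeGroup.lift (s m)
  let T : Finset (FreeGroup (Fin k)) := Finset.univ.image FreeGroup.of
  have hT : ∀ m, T.image (FreeGroup.lift (s m)) = Finset.univ.image (s m) := fun m => by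
    simp only [T, Finset.image_image, Function.comp_def, FreeGroup.lift_apply_of]
  have key : ∀ r, 1 ≤ r → e m ^ r ≤ hπ.toFinset.card * (K * (2 * r + 3) ^ d * e (m + 1) ^ (r + c)) := by
    intro r hr
    have hx : ∀ x ∈ ball (S m) r, ∃ w ∈ ball T r, FreeGroup.lift (s m) w = x := fun x hx => by
      have := ball_sub (S' := T.image (FreeGroup.lift (s m))) (fun y hy => mem_ball_one (by
        simpa only [hT, Finset.mem_image, Finset.mem_univ, true_and] using s2 m y hy)) r x hx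
      rwa [ball_map] at this
    choose! wd w1 w2 using hx
    obtain ⟨m', hlt, hw⟩ := hm (((ball_finite (S m) r).toFinset ×ˢ
      (ball_finite (S m) r).toFinset).image fun p => (wd p.1)⁻¹ * wd p.2)
    have h1 := Finset.card_le_mul_card_image_of_maps_to
      (f := fun x => FreeGroup.lift (s m') (wd x))
      (s := (ball_finite (S m) r).toFinset) (t := (ball_finite (S m') r).toFinset)
      (fun x hx => by
        simp only [Set.Finite.mem_toFinset] at hx ⊢
        refine ball_sub (S := T.image (FreeGroup.lift (s m'))) (fun y hy => ?_) r _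
          (by rw [ball_map]; exact ⟨_, w1 x hx, rfl⟩)
        rw [hT] at hy
        obtain ⟨t, -, rfl⟩ := Finset.mem_image.1 hy
        exact s1 m' t) hπ.toFinset.card (by
        intro q _
        rcases ((ball_finite (S m) r).toFinset.filter
          fun x => FreeGroup.lift (s m') (wd x) = q).eq_empty_or_nonempty with h0 | ⟨x0, h0⟩
        · simp [h0]
        refine Finset.card_le_card_of_injOn (fun x => x0⁻¹ * x) ?_
          fun x _ y _ hxy => by simpa only [mul_right_inj] using hxy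
        intro x hx
        rw [Finset.mem_coe, Finset.mem_filter] at hx
        rw [Finset.mem_filter] at h0
        have := hw _ (Finset.mem_image.2 ⟨(x0, x), Finset.mem_product.2 ⟨h0.1, hx.1⟩, rfl⟩)
          (by simp [hx.2, h0.2])
        rw [map_mul, map_inv, w2 x (by simpa using hx.1), w2 x0 (by simpa using h0.1)] at this
        simpa using this)
    rw [← Set.ncard_eq_toFinset_card _ (ball_finite _ _),
      ← Set.ncard_eq_toFinset_card _ (ball_finite _ _)] at h1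
    have h2 : e m' ^ (r + c) ≤ e (m + 1) ^ (r + c) :=
      pow_le_pow_left₀ (by linarith only [(hR m').one_le]) (he.antitone hlt) _
    calc e m ^ r ≤ (ball (S m) r).ncard := pow_rate_le (hR m) hr
      _ ≤ hπ.toFinset.card * (ball (S m') r).ncard := by exact_mod_cast h1
      _ ≤ hπ.toFinset.card * (K * (2 * r + 3) ^ d * e m' ^ (r + c)) := by
        gcongr; exact ball_le_rate (hR m') (hM _ (hS m')) hr
      _ ≤ _ := by gcongr
  have hpos : 0 < e (m + 1) := by linarith [(hR (m + 1)).one_le]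
  have hq : 1 < e m / e (m + 1) := (one_lt_div hpos).2 (he (Nat.lt_succ_self m))
  set C : ℝ := hπ.toFinset.card * K * 5 ^ d * e (m + 1) ^ c with hC
  have h2 := (tendsto_pow_const_div_const_pow_of_one_lt d hq).const_mul C
  rw [mul_zero] at h2
  obtain ⟨r, h3, h4⟩ := ((h2.eventually (gt_mem_nhds zero_lt_one)).and
    (eventually_ge_atTop 1)).exists
  have h5 := key r h4
  have h6 : (2 * r + 3 : ℝ) ^ d ≤ (5 * r) ^ d := by
    have : (1 : ℝ) ≤ r := by exact_mod_cast h4
    gcongr; linarith only [this]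
  rw [← mul_div_assoc, div_lt_one (by positivity), div_pow, lt_div_iff₀ (by positivity)] at h3
  have h7 : e m ^ r ≤ C * r ^ d * e (m + 1) ^ r := by
    refine h5.trans ?_
    calc _ ≤ (hπ.toFinset.card : ℝ) * (K * (5 * r) ^ d * e (m + 1) ^ (r + c)) := by gcongr
      _ = _ := by rw [hC, mul_pow, pow_add]; ring
  linarith only [h3, h7]

variable (Γ0 : Subgroup Γ) [Γ0.FiniteIndex]

lemma exists_reps : ∃ m : ℕ, ∀ S : Finset Γ, Subgroup.closure (S : Set Γ) = ⊤ →
    ∃ w : Fin m → Γ, (∀ t, w t ∈ ball S m) ∧ ∀ x, ∃ t, x * (w t)⁻¹ ∈ Γ0 := by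
  obtain ⟨m, ⟨q⟩⟩ := Finite.exists_equiv_fin (Γ ⧸ Γ0)
  refine ⟨m, fun S hS => ?_⟩
  let A : ℕ → Set (Γ ⧸ Γ0) := fun k => (↑) '' ball S k
  have h1 : ∀ k, A k = Set.univ ∨ k + 1 ≤ (A k).ncard := by
    intro k
    induction k with
    | zero => exact Or.inr ((Set.ncard_pos (Set.toFinite _)).2 ⟨_, 1, one_mem_ball _ _, rfl⟩)
    | succ k ih =>
      have hs : A k ⊆ A (k + 1) := Set.image_mono (ball_mono S k.le_succ)
      rcases ih with ih | ih
      · exact Or.inl (Set.eq_univ_of_univ_subset (ih ▸ hs))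
      rcases hs.eq_or_ssubset with e | e
      · have h2 : ∀ s ∈ ball S 1, ∀ x ∈ A k, s • x ∈ A k := by
          rintro s hs _ ⟨x, hx, rfl⟩
          exact e ▸ ⟨s * x, by simpa [add_comm] using mul_mem_ball hs hx, rfl⟩
        have h3 : ∀ g : Γ, ∀ x ∈ A k, g • x ∈ A k := by
          intro g
          have hg : g ∈ Subgroup.closure (S : Set Γ) := hS ▸ Subgroup.mem_top g
          induction hg using Subgroup.closure_induction'' with
          | one => simp
          | mem x hx => exact h2 x (mem_ball_one hx)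
          | inv_mem x hx => exact h2 _ (inv_mem_ball (mem_ball_one hx))
          | mul a b _ _ ha hb => exact fun x hx => mul_smul a b x ▸ ha _ (hb x hx)
        refine Or.inl (e ▸ Set.eq_univ_of_forall fun x => ?_)
        obtain ⟨g, rfl⟩ := QuotientGroup.mk_surjective x
        simpa using h3 g _ ⟨1, one_mem_ball _ _, rfl⟩
      · exact Or.inr (lt_of_le_of_lt ih (Set.ncard_lt_ncard e))
  have h2 : A m = Set.univ := (h1 m).resolve_right (by
    have := Set.ncard_le_card (A m)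
    rw [Nat.card_congr q, Nat.card_fin] at this; omega)
  choose w w1 w2 using fun t : Fin m => (h2 ▸ Set.mem_univ (q.symm t) : q.symm t ∈ A m)
  refine ⟨fun t => (w t)⁻¹, fun t => inv_mem_ball (w1 t), fun x => ⟨q (x⁻¹ : Γ), ?_⟩⟩
  simpa using QuotientGroup.eq.1 ((w2 (q (x⁻¹ : Γ))).trans (q.symm_apply_apply _)).symm

theorem mi_of_virt {c K e : ℕ}
    (h : ∀ S : Finset Γ0, Subgroup.closure (S : Set Γ0) = ⊤ → MI' Γ0 c K e S) :
    ∃ c' K' : ℕ, ∀ S : Finset Γ, Subgroup.closure (S : Set Γ) = ⊤ → MI Γ c' K' e S := by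
  classical
  obtain ⟨m, hm⟩ := exists_reps Γ0
  refine ⟨c * (2 * m + 1) + 2 * m, m * m * K * (m + 2) ^ e, fun S hS R r => ?_⟩
  obtain ⟨w, w1, w2⟩ := hm S hS
  choose t ht using w2
  let B : ℕ → Finset Γ0 := fun r => (ball_finite S r).toFinset.subtype (· ∈ Γ0)
  have hB : ∀ r x, x ∈ B r ↔ (x : Γ) ∈ ball S r := fun r x => by simp [B]
  have h1 : ∀ r, ∀ x ∈ ball S r, ∃ y ∈ ball (B (2 * m + 1)) r, ∃ z ∈ ball S m, x = y * z := by
    refine ball_induction (fun r x => ∃ y ∈ ball (B (2 * m + 1)) r, ∃ z ∈ ball S m, x = y * z)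
      ⟨1, one_mem_ball _ _, 1, one_mem_ball _ _, by simp⟩
      (fun r g ⟨y, y1, y2⟩ => ⟨y, ball_mono _ (by omega) y1, y2⟩) ?_
    rintro r _ s ⟨y, y1, z, z1, rfl⟩ hs
    have hs' : s ∈ ball S 1 := by
      rcases hs with hx | hx
      exacts [mem_ball_one hx, by simpa using inv_mem_ball (mem_ball_one hx)]
    refine ⟨y * ⟨_, ht (z * s)⟩, mul_mem_ball y1 (mem_ball_one ((hB _ _).2 (ball_mono S (by omega)
      (mul_mem_ball (mul_mem_ball z1 hs') (inv_mem_ball (w1 _)))))), _, w1 (t (z * s)), ?_⟩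
    simp [mul_assoc]
  have h2 : ∀ r (x : Γ0), (x : Γ) ∈ ball S r → x ∈ ball (B (2 * m + 1)) (r + 1) := by
    intro r x hx
    obtain ⟨y, y1, z, z1, e⟩ := h1 r x hx
    have : ((y⁻¹ * x : Γ0) : Γ) = z := by simp only [Subgroup.coe_mul, InvMemClass.coe_inv, e, inv_mul_cancel_left]
    simpa using mul_mem_ball y1 (mem_ball_one ((hB _ (y⁻¹ * x)).2
      (this ▸ ball_mono S (by omega) z1)))
  have h3 : ∀ r, ∀ x ∈ ball (B (2 * m + 1)) r, (x : Γ) ∈ ball S (r * (2 * m + 1)) := by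
    refine ball_induction (fun r (x : Γ0) => (x : Γ) ∈ ball S (r * (2 * m + 1))) (one_mem_ball _ _)
      (fun r g h => ball_mono S (by linarith only []) h) fun r g x hg hx => ?_
    rw [add_mul, one_mul]
    refine mul_mem_ball hg ?_
    rcases hx with hx | hx
    exacts [(hB _ _).1 hx, by simpa using inv_mem_ball ((hB _ _).1 hx)]
  have h4 : Subgroup.closure (B (2 * m + 1) : Set Γ0) = ⊤ := by
    refine top_unique fun x _ => ?_
    have hx : (x : Γ) ∈ (Subgroup.closure (S : Set Γ)).toSubmonoid := hS ▸ Subgroup.mem_top _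
    rw [Subgroup.closure_toSubmonoid] at hx
    obtain ⟨l, l1, l2⟩ := Submonoid.exists_list_of_mem_closure hx
    obtain ⟨l', -, a1, rfl⟩ := h2 _ x ⟨l, le_rfl, l1, l2⟩
    exact list_prod_mem fun y hy => (a1 y hy).elim (fun h => Subgroup.subset_closure h)
      fun h => inv_mem_iff.1 (Subgroup.subset_closure h)
  have h5 : ∀ r, (ball S r).ncard ≤ (B (r + m)).card * m := fun r => by
    rw [Set.ncard_eq_toFinset_card _ (ball_finite S r)]
    refine (Finset.card_le_card_of_injOn (t := B (r + m) ×ˢ Finset.univ)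
      (fun x => (⟨_, ht x⟩, t x)) (fun x hx => ?_) fun x _ y _ hxy => ?_).trans (by simp only [Finset.card_product, Finset.card_univ, Fintype.card_fin, Std.le_refl])
    · simp only [Set.Finite.coe_toFinset, Finset.coe_product, Set.mem_prod, Finset.mem_coe, hB,
        Finset.mem_univ, and_true] at hx ⊢
      exact mul_mem_ball hx (inv_mem_ball (w1 _))
    · simp only [Prod.mk.injEq, Subtype.mk.injEq] at hxy
      obtain ⟨a1, a2⟩ := hxy
      rw [a2] at a1
      simpa using a1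
  have h6 := h _ h4 (r + m + 1) (B (R + m)) (B (r + m)) (B (R + r + (c * (2 * m + 1) + 2 * m)))
    (fun y hy => h2 _ _ ((hB _ _).1 hy)) fun x hx z hz y hy => (hB _ _).2 (ball_mono S (by omega)
      (mul_mem_ball (mul_mem_ball ((hB _ _).1 hx) (h3 _ _ hz)) ((hB _ _).1 hy)))
  have h7 : ∀ r, (B r).card ≤ (ball S r).ncard := fun r => by
    rw [Set.ncard_eq_toFinset_card _ (ball_finite S r), Finset.card_subtype]
    exact Finset.card_filter_le _ _
  calc _ ≤ ((B (R + m)).card * m) * ((B (r + m)).card * m) := Nat.mul_le_mul (h5 R) (h5 r)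
    _ = m * m * ((B (R + m)).card * (B (r + m)).card) := by ring
    _ ≤ m * m * (K * ((m + 2) * (2 * r + 3)) ^ e *
        (ball S (R + r + (c * (2 * m + 1) + 2 * m))).ncard) := by
      refine Nat.mul_le_mul_left _ (h6.trans (Nat.mul_le_mul (Nat.mul_le_mul_left _
        (Nat.pow_le_pow_left (by nlinarith only []) _)) (h7 _)))
    _ = _ := by rw [mul_pow]; ring

/-- The well-ordering from an action of a subgroup of finite index on a hyperbolic space. -/
theorem wo_of_action {Z : Subgroup Γ} (hZ : (Z : Set Γ).Finite) (hE : EN Z) {X : Type*}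
    [MulAction Γ0 X] [Nonempty X] {d : X → X → ℕ} {δ R N M : ℕ} (h : Hyp Γ0 d δ)
    (hA : Acyl Γ0 d (13 * δ + 1) R N)
    (hD : ∀ S : Finset Γ0, Subgroup.closure (S : Set Γ0) = ⊤ → ∀ x, ∃ g ∈ ball S M,
      100 * δ + R + 100 ≤ d x (g • x))
    (hC : ∀ γ : Γ0, (Subgroup.centralizer {γ}).FiniteIndex → ∀ x, ∃ B, ∀ n : ℕ,
      d x (γ ^ n • x) ≤ B) :
    ∀ A ⊆ growthSet Γ, A.Nonempty → ∃ a, IsLeast A a := by
  obtain ⟨c, hc⟩ := h.mi hA hD hC
  obtain ⟨c', K', hM⟩ := mi_of_virt Γ0 (c := c) (K := 4 * N) (e := 1) hc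
  exact wo_of_en hZ hE hM

end Pool.Agent.MP_646035_al.H24

end
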