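import Pool.Agent.MP_646035_al.Mg.H43_Kill
import Pool.Agent.MP_646035_al.H43.Cur
import Pool.Agent.MP_646035_al.H43.Herm

-- part MP_646035_al.H43.Core
section

/-!
Construction of the gadget attached to one representation.
-/

namespace Pool.Agent.MP_646035_al.H43

open Matrix Finset Polynomial

variable {Γ : Type*} [Group Γ]

lemma letter_mem_ball {S : Finset Γ} {x : Γ} (hx : x ∈ S ∨ x⁻¹ ∈ S) : x ∈ ball S 1 := by
  rcases hx with hx | hx
  exacts [mem_ball_one hx, by simpa using inv_mem_ball (mem_ball_one hx)]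

lemma exists_mem_ball {S : Finset Γ} (hS : Subgroup.closure (S : Set Γ) = ⊤) (x : Γ) :
    ∃ r, x ∈ ball S r := by
  have hx : x ∈ Subgroup.closure (S : Set Γ) := hS ▸ Subgroup.mem_top x
  induction hx using Subgroup.closure_induction with
  | mem x hx => exact ⟨1, mem_ball_one hx⟩
  | one => exact ⟨0, one_mem_ball S 0⟩
  | mul x y _ _ h1 h2 =>
    obtain ⟨r, h1⟩ := h1
    obtain ⟨r', h2⟩ := h2
    exact ⟨_, mul_mem_ball h1 h2⟩
  | inv x _ h => exact h.imp fun r h => inv_mem_ball h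

lemma pow_mem_ball {S : Finset Γ} {r : ℕ} {u : Γ} (hu : u ∈ ball S r) (j : ℕ) :
    u ^ j ∈ ball S (j * r) := by
  induction j with
  | zero => simpa using one_mem_ball S 0
  | succ j ih => rw [pow_succ, add_mul, one_mul]; exact mul_mem_ball ih hu

lemma nm_ball {L D : Type} [NormedField L] [Fintype D] [DecidableEq D] (C : Γ →* Matrix D D L)
    {S : Finset Γ} {B : ℝ} (hB : 1 ≤ B) (h : ∀ s ∈ ball S 1, nm (C s) ≤ B) (r : ℕ) :
    ∀ x ∈ ball S r, nm (C x) ≤ B ^ (r + 1) := by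
  refine ball_induction (fun r x => nm (C x) ≤ B ^ (r + 1))
    (by simpa using h 1 (one_mem_ball S 1))
    (fun r g h => h.trans (pow_le_pow_right₀ hB (by omega))) (fun r g x h1 hx => ?_) r
  rw [map_mul, pow_succ]
  exact (nm_mul _ _).trans (mul_le_mul h1 (h x (letter_mem_ball hx)) (nm_nonneg _) (by positivity))

lemma exists_scale {α : Type*} {s : Set α} (hs : s.Finite) (f : α → ℝ) :
    ∃ T : ℝ, 2 ≤ T ∧ (∀ x ∈ s, f x ≤ T) ∧ (T = 2 ∨ ∃ x ∈ s, T = f x) := by
  rcases s.eq_empty_or_nonempty with rfl | h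
  · exact ⟨2, le_rfl, by simp, Or.inl rfl⟩
  obtain ⟨x, hx, hx'⟩ := Set.exists_max_image s f hs h
  refine ⟨max 2 (f x), le_max_left _ _, fun y hy => (hx' y hy).trans (le_max_right _ _), ?_⟩
  rcases max_choice 2 (f x) with h | h
  exacts [Or.inl h, Or.inr ⟨x, hx, h⟩]

variable {k : Type} [Field k]

lemma trace_mem_of_frame {D : Type} [Fintype D] [DecidableEq D] {C : Γ →* Matrix D D k} {m : ℕ}
    {w : Fin m → Γ} {G : Matrix (Fin m) (Fin m) k} (hG : Fr C w G) (k0 : Subfield k)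
    (hG0 : ∀ i j, G i j ∈ k0) {S : Finset Γ} (hS : Subgroup.closure (S : Set Γ) = ⊤) {cF : ℕ}
    (hw : ∀ t, w t ∈ ball S cF) (h : ∀ γ ∈ ball S (2 * cF + 1), (C γ).trace ∈ k0) (γ : Γ) :
    (C γ).trace ∈ k0 := by
  let U := Submodule.span k0 (Set.range fun t => C (w t))
  have h1 : ∀ γ ∈ ball S (cF + 1), C γ ∈ U := by
    intro γ hγ
    rw [hG γ]
    refine sum_mem fun i _ => ?_
    have : ∑ j, G i j * (C γ * C (w j)).trace ∈ k0 := sum_mem fun j _ => mul_mem (hG0 i j) (by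
      rw [← map_mul]; exact h _ (ball_mono S (by omega) (mul_mem_ball hγ (hw j))))
    exact U.smul_mem (⟨_, this⟩ : k0) (Submodule.subset_span ⟨i, rfl⟩)
  have h2 : ∀ r, ∀ γ ∈ ball S r, C γ ∈ U := by
    refine ball_induction (fun _ γ => C γ ∈ U) (h1 1 (one_mem_ball _ _)) (fun _ _ h => h)
      fun _ g x hg hx => ?_
    rw [map_mul]
    generalize C g = a at hg
    induction hg using Submodule.span_induction with
    | mem a ha =>
      obtain ⟨t, rfl⟩ := ha
      rw [← map_mul]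
      exact h1 _ (mul_mem_ball (hw t) (letter_mem_ball hx))
    | zero => simp
    | add a b _ _ ha hb => rw [add_mul]; exact add_mem ha hb
    | smul c a _ ha => rw [smul_mul_assoc]; exact U.smul_mem c ha
  obtain ⟨r, hr⟩ := exists_mem_ball hS γ
  have h3 := h2 r γ hr
  generalize C γ = a at h3
  induction h3 using Submodule.span_induction with
  | mem a ha => obtain ⟨t, rfl⟩ := ha; exact h _ (ball_mono S (by omega) (hw t))
  | zero => simp
  | add a b _ _ ha hb => rw [trace_add]; exact add_mem ha hb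
  | smul c a _ ha => rw [trace_smul]; exact mul_mem c.2 ha

lemma exists_big_root {L : Type} [NormedField L] [IsAlgClosed L] (σ : k →+* L) {N : ℕ}
    (hN : 0 < N) (a : Matrix (Fin N) (Fin N) k) (i : ℕ) (h : 4 ^ N < ‖σ (a.charpoly.coeff i)‖) :
    ∃ κ : ℝ, 1 < κ ∧ κ ^ (2 * (N * N)) = ‖σ (a.charpoly.coeff i)‖ ∧
      ∃ r ∈ (a.charpoly.map σ).roots, κ ^ N < ‖r‖ := by
  set T := ‖σ (a.charpoly.coeff i)‖ with hT
  have hT1 : 1 < T := lt_of_le_of_lt (one_le_pow₀ (by norm_num)) h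
  have hn : 2 * (N * N) ≠ 0 := by positivity
  have hκ : 1 < T ^ ((2 * (N * N) : ℕ) : ℝ)⁻¹ := Real.one_lt_rpow hT1 (by positivity)
  have hκ' := Real.rpow_inv_natCast_pow (by linarith : 0 ≤ T) hn
  refine ⟨_, hκ, hκ', ?_⟩
  set κ := T ^ ((2 * (N * N) : ℕ) : ℝ)⁻¹
  by_contra hc
  push Not at hc
  have h1 := coeff_bdd_of_roots_le σ a.charpoly_monic (IsAlgClosed.splits _)
    (d := N) (by simp) hc i
  rw [coeff_map, ← hT, max_eq_left (one_le_pow₀ hκ.le), ← pow_mul] at h1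
  have h2 : (N.choose (N / 2) : ℝ) ≤ 2 ^ N := by exact_mod_cast Nat.choose_le_two_pow N _
  have h3 : 0 < κ ^ (N * N) := by positivity
  have h4 : T = κ ^ (N * N) * κ ^ (N * N) := by rw [← hκ', two_mul, pow_add]
  have h5 : κ ^ (N * N) ≤ 2 ^ N := le_of_mul_le_mul_left
    (by rw [← h4]; exact h1.trans (by gcongr)) h3
  have h6 : (4 : ℝ) ^ N = 2 ^ N * 2 ^ N := by rw [← mul_pow]; norm_num
  nlinarith

theorem exists_gad [CharZero k] {V : Type} [Fintype V] {P : V → Plc k} {R : Subring k} {c0 : ℕ}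
    (hLV : LV P R c0) {N : ℕ} (hN : 0 < N) (ρ : Γ →* Matrix (Fin N) (Fin N) k)
    (hdet : ∀ γ, (ρ γ).det = 1) (hR : ∀ γ i, (ρ γ).charpoly.coeff i ∈ R)
    (hTr : ∀ j ≤ N, ∀ a ∈ Submodule.span k (Set.range ((cpdHom j N).comp ρ)),
      (∀ γ, (a * cpd j (ρ γ)).trace = 0) → a = 0)
    (hirr : Submodule.span k (Set.range ρ) = ⊤)
    (hsimp : ∀ M : Subgroup Γ, M.Normal →
      Submodule.span k (ρ '' M) = ⊤ ∨ ∀ γ ∈ M, ∃ c : k, ρ γ = c • 1)
    (hND : (∀ C, {x | Bdd P R C x}.Finite) ∨ ∃ k0 : Subfield k,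
      (∃ γ i, (ρ γ).charpoly.coeff i ∉ k0) ∧ ∀ x, Bdd P R (4 ^ N) x → x ∈ k0)
    (Pl : Submodule k (Γ → k)) (hP1 : ∀ j ≤ N, ∀ s t, (fun γ => cpd j (ρ γ) s t) ∈ Pl)
    (hP2 : ∀ a b c d, (fun γ => ρ γ a b * ρ γ⁻¹ c d) ∈ Pl) (hP3 : ∀ a b, (fun γ => ρ γ a b) ∈ Pl)
    (m cF J : ℕ) (hJ : Fintype.card V * ((N + 1) * 2 ^ N) + N * N ≤ J) :
    ∃ c κ : ℕ → ℕ, ∀ (S : Finset Γ) (w : Fin m → Γ) (Thin : Set Γ → Prop),
      Subgroup.closure (S : Set Γ) = ⊤ → (∀ t, w t ∈ ball S cF) →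
      NC Thin (Set.range w) ((N + 1) * 2 ^ N) → Thin ∅ → (∀ Z Z', Z ⊆ Z' → Thin Z' → Thin Z) →
      (∀ Z, ¬ Thin Z → ∀ φ ∈ Pl, (∀ f ∈ Z, φ f = 0) → φ = 0) →
      Nonempty (Gad S Thin (Set.range w) ρ.ker J c κ) := by
  classical
  have hcz : ∀ v, CharZero (P v).L := fun v => (P v).σ.charZero_iff (P v).σ.injective |>.1 inferInstance
  obtain ⟨c1, hc1⟩ := exists_frame (Γ := Γ) hLV m
  obtain ⟨C0, hC0⟩ := place_pack (Γ := Γ) N
  obtain ⟨cL, hcL⟩ := liouville (Γ := Γ) hLV N m hN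
  obtain ⟨cN, hcN⟩ := exists_pow_ge (N * N : ℝ)
  obtain ⟨cC, hcC⟩ := exists_pow_ge C0
  obtain ⟨cD, hcD⟩ := exists_pow_ge (2 ^ N * 2 ^ N * N.factorial : ℝ)
  obtain ⟨cp, hcp⟩ := exists_pow_ge
    (∑ v, ∑ p ∈ Finset.range (2 ^ N * 2 ^ N + 1), ‖(p : (P v).L)‖⁻¹)
  let r0 := 2 * cF + 1
  let c2 := cN + c1 + 1
  let c3 := cC + cp + c1 + (cD + c2 * (cF + 2) * N)
  let cb : ℕ → ℕ := fun n => c3 * (22 * n + 243)
  let cT : ℕ → ℕ := fun n => cb n + c2 * (2 * (N * N * r0 + 1) + (cF + 1))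
  let M : ℕ → ℕ := fun n => 2 * (N * N) * ((cT n + 1) * cL) + 1 + N * N
  refine ⟨fun n => M n * r0, fun n => {x | Bdd P R ((4 ^ N) ^ cT n) x}.ncard ^ m + N,
    fun S w Thin hS hw hNC h0 hmono hT => ?_⟩
  obtain ⟨T, hT2, hTb, hTe⟩ := exists_scale
    (s := (Set.univ : Set V) ×ˢ ball S r0 ×ˢ Set.Iic N)
    (Set.finite_univ.prod ((ball_finite S r0).prod (Set.finite_Iic N)))
    fun x => ‖(P x.1).σ ((ρ x.2.1).charpoly.coeff x.2.2)‖
  have hT1 : 1 ≤ T := by linarith
  have hpow : ∀ {a b : ℕ}, a ≤ b → T ^ a ≤ T ^ b := fun h => pow_le_pow_right₀ hT1 h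
  have hco : ∀ γ ∈ ball S r0, ∀ i ≤ N, Bdd P R T ((ρ γ).charpoly.coeff i) := fun γ hγ i hi =>
    ⟨hR γ i, fun v => hTb (v, γ, i) ⟨trivial, hγ, hi⟩⟩
  have htr : ∀ γ ∈ ball S r0, ∀ j ≤ N, Bdd P R T (cpd j (ρ γ)).trace := fun γ hγ j hj => by
    rw [trace_cpd j hj]
    exact ⟨mul_mem (pow_mem (neg_mem (one_mem R)) _) (hR _ _), fun v => by
      simpa using (hco γ hγ _ (Nat.sub_le _ _)).2 v⟩
  have : Nonempty (Fin N) := ⟨⟨0, hN⟩⟩
  have hR1 : ∀ γ, (ρ γ).trace ∈ R := fun γ => by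
    rw [trace_eq_neg_charpoly_coeff]; exact neg_mem (hR _ _)
  have htr1 : ∀ γ ∈ ball S r0, Bdd P R T (ρ γ).trace := fun γ hγ => ⟨hR1 γ, fun v => by
    rw [trace_eq_neg_charpoly_coeff]
    simpa using (hco γ hγ _ (Nat.sub_le _ _)).2 v⟩
  have hF : ¬ Thin (Set.range w) := fun h => by
    obtain ⟨f, hf, hf'⟩ := hNC Unit (by simpa using Nat.one_le_iff_ne_zero.2 (by positivity))
      (fun _ => Set.range w) fun _ => h
    exact hf' () hf
  have hSp : Sp ρ w := sp_of_nonthin ρ (fun a _ ha => by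
    refine Matrix.ext_iff_trace_mul_right.2 fun b => ?_
    have hb : b ∈ Submodule.span k (Set.range ρ) := hirr ▸ Submodule.mem_top
    rw [zero_mul, trace_zero]
    induction hb using Submodule.span_induction with
    | mem x hx => obtain ⟨γ, rfl⟩ := hx; exact ha γ
    | zero => simp
    | add x y _ _ h1 h2 => rw [mul_add, trace_add, h1, h2, add_zero]
    | smul c x _ h1 => simp [h1]) Pl hP3 fun φ h1 h2 => hT _ hF φ h1 (by simpa using h2)
  obtain ⟨G0, G01, -, G02⟩ := hc1 T hT2 _ ρ w hSp fun i j =>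
    htr1 _ (ball_mono S (by omega) (mul_mem_ball (hw i) (hw j)))
  have hadp := fun v => exists_adapted hN (rl (P v).σ (mul_one 1) ρ)
    (by simpa using span_rl (P v).σ (mul_one 1) (M := Set.univ) (by simpa using hirr))
    (G02.rl (P v).σ (mul_one 1))
  choose H H' hH hHb using hadp
  let r := fun v => rl (P v).σ (hH v) ρ
  have hr1 : ∀ v, ∀ s ∈ ball S 1, nm (r v s) ≤ T ^ c2 := fun v s hs => by
    have := hHb v s (T ^ c1) T (by linarith) (G01 v) fun i j => by
      rw [← map_mul, rl_apply, trace_cj]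
      exact (htr1 _ (ball_mono S (by omega) (mul_mem_ball (mul_mem_ball hs (hw i)) (hw j)))).2 v
    simp only [rl_apply, cj_apply, one_mul, mul_one] at this
    refine this.trans ?_
    simp only [c2, pow_succ, pow_add, mul_assoc]
    rw [← mul_assoc]
    exact mul_le_mul_of_nonneg_right (hcN T hT2) (by positivity)
  have hr : ∀ v n, ∀ x ∈ ball S n, nm (r v x) ≤ T ^ (c2 * (n + 1)) := fun v n x hx => by
    rw [pow_mul]; exact nm_ball _ (one_le_pow₀ hT1) (hr1 v) n x hx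
  have hfr : ∀ j ≤ N, ∀ Z ⊆ Set.range w, ¬ Thin Z → ∃ (w' : Fin m → Γ)
      (G : Matrix (Fin m) (Fin m) k), (∀ t, w' t ∈ Z) ∧ (∀ v, nm (G.map (P v).σ) ≤ T ^ c1) ∧
      (∀ k0 : Subfield k, (∀ γ ∈ ball S r0, (cpd j (ρ γ)).trace ∈ k0) → ∀ a b, G a b ∈ k0) ∧
      Fr ((cpdHom j N).comp ρ) w' G := by
    intro j hj Z hZ hZ'
    obtain ⟨z, hz⟩ : Z.Nonempty := Set.nonempty_iff_ne_empty.2 fun h => hZ' (h ▸ h0)
    let w' : Fin m → Γ := fun t => if w t ∈ Z then w t else z
    have w1 : ∀ t, w' t ∈ Z := fun t => by simp only [w']; split_ifs <;> assumption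
    have w2 : ∀ a b, w' a * w' b ∈ ball S r0 := fun a b => by
      obtain ⟨a', ha⟩ := hZ (w1 a)
      obtain ⟨b', hb⟩ := hZ (w1 b)
      rw [← ha, ← hb]
      exact ball_mono S (by omega) (mul_mem_ball (hw _) (hw _))
    obtain ⟨G, G1, G2, G3⟩ := hc1 T hT2 _ ((cpdHom j N).comp ρ) w'
      (sp_of_nonthin _ (hTr j hj) Pl (hP1 j hj) fun φ h1 h2 => hT _ hZ' φ h1 fun f hf => by
        obtain ⟨t, rfl⟩ := hZ hf
        simpa [w', hf] using h2 t) fun a b => htr _ (w2 a b) j hj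
    exact ⟨w', G, w1, G1, fun k0 h => G2 k0 fun a b => h _ (w2 a b), G3⟩
  have hpack := fun v => hC0 (P v).L (r v) m S (Set.range w) Thin (T ^ c3) hNC h0 hmono
    ((hcC T hT2).trans (hpow (by omega)))
    (fun p p1 p2 => by
      have h1 : 0 < ‖(p : (P v).L)‖ := norm_pos_iff.2 (Nat.cast_ne_zero.2 (by omega))
      rw [← inv_le_iff_one_le_mul₀' h1]
      refine le_trans ?_ ((hcp T hT2).trans (hpow (by omega)))
      refine le_trans ?_ (Finset.single_le_sum (f := fun v => ∑ p ∈ Finset.range (2 ^ N * 2 ^ N + 1),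
        ‖(p : (P v).L)‖⁻¹) (fun _ _ => by positivity) (Finset.mem_univ v))
      exact Finset.single_le_sum (f := fun p : ℕ => ‖(p : (P v).L)‖⁻¹) (fun _ _ => by positivity)
        (Finset.mem_range.2 (by omega)))
    (fun j hj f hf => by
      have h1 : f ∈ ball S (cF + 1) := by
        rcases hf with ⟨t, rfl⟩ | hf
        exacts [ball_mono S (by omega) (hw t), ball_mono S (by omega) hf]
      refine (nm_cpd_le hj _ (one_le_pow₀ hT1) (hr v _ f h1)).trans (le_trans ?_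
        (hpow (by omega : cD + c2 * (cF + 2) * N ≤ c3)))
      rw [pow_add, ← mul_assoc, ← pow_mul]
      exact mul_le_mul_of_nonneg_right (hcD T hT2) (by positivity))
    (fun j hj Z hZ hZ' => by
      obtain ⟨w', G, G1, G2, -, G3⟩ := hfr j hj Z hZ hZ'
      refine ⟨w', G.map (P v).σ, G1, (G2 v).trans (hpow (by omega)), ?_⟩
      have e : (cpdHom j N).comp (r v) = rl (P v).σ (H := cpd j (H v)) (H' := cpd j (H' v))
          (by rw [← cpd_mul, hH, cpd_one]) ((cpdHom j N).comp ρ) :=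
        MonoidHom.ext fun γ => cpd_cj (P v).σ (hH v) j (ρ γ)
      rw [e]
      exact G3.rl _ _)
  choose ι fin lam card sub subF bd trans rig using hpack
  refine ⟨{ ι := Σ v, ι v
            card := ?_
            lam := fun a => lam a.1 a.2
            sub := fun a => sub a.1 a.2
            subF := fun a => subF a.1 a.2
            bd := fun a => bd a.1 a.2
            trans := fun a => trans a.1 a.2
            kill := fun n => ?_ }⟩
  · rw [Fintype.card_sigma]
    refine (Finset.sum_le_card_nsmul _ _ _ fun v _ => card v).trans ?_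
    simpa using le_trans (Nat.le_add_right _ _) hJ
  let Q : Γ → Prop := fun g => ∀ v, nm (r v g) ≤ T ^ cb n ∧ nm (r v g⁻¹) ≤ T ^ cb n
  have hQ : ∀ g, Rl (fun a : Σ v, ι v => lam a.1 a.2) n g → Q g := by
    have h1 : ∀ g, Rl (fun a : Σ v, ι v => lam a.1 a.2) n g → ∀ v, nm (r v g) ≤ T ^ cb n := by
      rintro g ⟨X, Y, X', Y', a1, a2, a3⟩ v
      rw [pow_mul]
      exact rig v n g ⟨X, Y, X', Y', a1, a2, fun a => a3 ⟨v, a⟩⟩
    exact fun g hg v => ⟨h1 g hg v, h1 _ hg.inv v⟩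
  have hbt : ∀ g, (∀ v, nm (r v g) ≤ T ^ cb n) → ∀ a ∈ ball S (N * N * r0),
      ∀ b ∈ ball S (N * N * r0), ∀ i, Bdd P R (T ^ cT n) (ρ (a * g * b) * ρ (w i)).trace := by
    intro g hg a ha b hb i
    refine ⟨by rw [← map_mul]; exact hR1 _, fun v => ?_⟩
    rw [← trace_cj _ (hH v), map_mul]
    refine (trace_le_nm _).trans ((nm_mul _ _).trans ?_)
    change nm (r v (a * g * b)) * nm (r v (w i)) ≤ _
    rw [map_mul, map_mul]
    calc _ ≤ T ^ (c2 * (N * N * r0 + 1)) * T ^ cb n * T ^ (c2 * (N * N * r0 + 1)) *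
          T ^ (c2 * (cF + 1)) :=
          mul_le_mul ((nm_mul3 _ _ _).trans (mul_le_mul (mul_le_mul (hr v _ a ha) (hg v)
            (nm_nonneg _) (by positivity)) (hr v _ b hb) (nm_nonneg _) (by positivity)))
            (hr v _ _ (hw i)) (nm_nonneg _) (by positivity)
      _ = _ := by simp only [cT]; ring
  have hbt1 : ∀ g, (∀ v, nm (r v g) ≤ T ^ cb n) → ∀ i,
      Bdd P R (T ^ cT n) (ρ g * ρ (w i)).trace := fun g hg i => by
    simpa using hbt g hg 1 (one_mem_ball _ _) 1 (one_mem_ball _ _) i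
  by_cases hsm : T ≤ 4 ^ N
  · rcases hND with hND | ⟨k0, ⟨γ, i, hγ⟩, hk0⟩
    · refine (kill_small h0 ρ (Q := Q) (fun g i => (ρ g * ρ (w i)).trace)
        (Fintype.piFinset fun _ => (hND ((4 ^ N) ^ cT n)).toFinset) (fun g hg => ?_)
        fun g g' e => ?_).mono (le_trans (by nlinarith) (le_trans (Nat.le_add_left _ _) hJ))
        (Nat.zero_le _) ?_ hQ
      · simp only [Fintype.mem_piFinset, Set.Finite.mem_toFinset, Set.mem_ofPred_eq]
        exact fun i => (hbt1 g (fun v => (hg v).1) i).mono (by gcongr)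
      · rw [← sub_eq_zero]
        refine hSp _ (sub_mem (Submodule.subset_span ⟨_, rfl⟩) (Submodule.subset_span ⟨_, rfl⟩))
          fun t => ?_
        rw [sub_mul, trace_sub, congrFun e t, sub_self]
      · rw [Set.ncard_eq_toFinset_card _ (hND _)]
        simp
    · exfalso
      apply hγ
      by_cases hi : i ≤ N
      · obtain ⟨w', G, G1, -, G2, G3⟩ := hfr (N - i) (Nat.sub_le _ _) _ subset_rfl hF
        have h1 : ∀ γ ∈ ball S r0, (cpd (N - i) (ρ γ)).trace ∈ k0 := fun γ hγ =>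
          hk0 _ ((htr γ hγ _ (Nat.sub_le _ _)).mono hsm)
        have h2 : (cpd (N - i) (ρ γ)).trace ∈ k0 := trace_mem_of_frame G3 k0 (G2 k0 h1) hS
          (fun t => by obtain ⟨t', h⟩ := G1 t; exact h ▸ hw t') h1 γ
        rw [trace_cpd _ (Nat.sub_le _ _), Nat.sub_sub_self hi] at h2
        have h3 := mul_mem (pow_mem (neg_mem (one_mem k0)) (N - i)) h2
        simpa [← mul_assoc, ← mul_pow] using h3
      · rw [coeff_eq_zero_of_natDegree_lt (by simpa using hi)]
        exact zero_mem _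
  rw [not_le] at hsm
  obtain ⟨⟨v, u, i⟩, ⟨-, hu, -⟩, hTe⟩ := hTe.resolve_left fun h => by
    have : (4 : ℝ) ≤ 4 ^ N := le_self_pow₀ (by norm_num) hN.ne'
    linarith
  simp only at hu hTe
  obtain ⟨κ, κ1, κ2, μ, μ1, μ2⟩ := exists_big_root (P v).σ hN (ρ u) i (hTe ▸ hsm)
  rw [← hTe] at κ2
  obtain ⟨Pm, Qm, A, B, p1, p2, p3, p4, p5⟩ := exists_gap (U := r v u) (U' := r v u⁻¹)
    (by rw [← map_mul, mul_inv_cancel, map_one])
    (by simp only [r]; rw [rl_apply, det_cj, hdet, map_one]) κ1 (r := μ)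
    (by simp only [r]; rwa [rl_apply, charpoly_cj]) μ2
  have key : ∀ g, (∀ v, nm (r v g) ≤ T ^ cb n) →
      (∀ v, nm (r v (u ^ M n * g * (u ^ M n)⁻¹)) ≤ T ^ cb n) → Qm * r v g * Pm = 0 := by
    intro g g1 g2
    by_contra hc
    obtain ⟨A', B', ν, ν1, ν2, ν3⟩ := p5 _ hc
    have hT' : T ^ cT n ≤ T ^ (cT n + 1) := hpow (by omega)
    have h1 := hcL (T ^ (cT n + 1)) (hT2.trans (le_self_pow₀ hT1 (by omega))) ρ w hSp u g (M n)
      (fun j i => (hbt g g1 _ (ball_mono S (Nat.mul_le_mul_right _ j.2.le) (pow_mem_ball hu j)) _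
        (ball_mono S (Nat.mul_le_mul_right _ j.2.le) (pow_mem_ball (inv_mem_ball hu) j)) i).mono hT')
      (fun i => by rw [inv_pow]; exact (hbt1 _ g2 i).mono hT') v (H v) (H' v) (hH v) A' B' ν
      (κ1.le.trans ν1) ν2 (fun j => by rw [map_mul, map_mul, map_pow, map_pow]; exact ν3 j)
    have h2 : 0 < ‖ν‖ ^ (N * N) := pow_pos (by linarith) _
    simp only [M] at h1
    rw [pow_add, mul_le_mul_iff_left₀ h2, ← pow_mul, ← κ2, ← pow_mul] at h1
    have h3 := (pow_le_pow_left₀ (by linarith) ν1 _).trans h1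
    rw [pow_le_pow_iff_right₀ κ1] at h3
    omega
  exact (kill_big hN (P v).σ (hH v) ρ hdet hsimp Pl hP2 h0 hT p1 p2 p3 p4
    (pow_mem_ball hu (M n)) (Q := Q) fun g g1 g2 => ⟨key g (fun v => (g1 v).1) fun v => (g2 v).1,
      key g⁻¹ (fun v => (g1 v).2) fun v => by simpa [mul_assoc] using (g2 v).2⟩).mono
    (le_trans (Nat.le_add_left _ _) hJ) le_rfl (Nat.le_add_left _ _) hQ

end Pool.Agent.MP_646035_al.H43

end

-- part MP_646035_al.H43.Places
section

/-!
Finitely many places controlling a finitely generated subring of the complex numbers.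
-/

namespace Pool.Agent.MP_646035_al.H43

open Cardinal Polynomial NumberField

lemma extc {F L : Type} [Field F] [Countable F] [Algebra F ℂ] [Field L] [IsAlgClosed L]
    (hL : 𝔠 ≤ #L) (τ : F →+* L) : ∃ σ : ℂ →+* L, ∀ x, σ (algebraMap F ℂ x) = τ x := by
  let _ := τ.toAlgebra
  obtain ⟨s, hs⟩ := exists_isTranscendenceBasis F ℂ
  obtain ⟨t, ht⟩ := exists_isTranscendenceBasis F L
  have h1 : #L = #t := IsAlgClosed.cardinal_eq_cardinal_transcendence_basis_of_aleph0_lt' _ ht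
    mk_le_aleph0 (aleph0_lt_continuum.trans_le hL)
  have h2 : #s ≤ #t := (mk_set_le s).trans (by rw [mk_complex, ← h1]; exact hL)
  obtain ⟨e⟩ := h2
  have hi : AlgebraicIndependent F fun i : s => (e i : L) := ht.1.comp e e.injective
  let B := Algebra.adjoin F (Set.range ((↑) : s → ℂ))
  let φ : B →ₐ[F] L := (MvPolynomial.aeval fun i : s => (e i : L)).comp
    hs.1.aevalEquiv.symm.toAlgHom
  have hφ : Function.Injective φ := 
    (algebraicIndependent_iff_injective_aeval.1 hi).comp hs.1.aevalEquiv.symm.injective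
  let _ := φ.toRingHom.toAlgebra
  have := hs.isAlgebraic
  have : FaithfulSMul B L := (faithfulSMul_iff_algebraMap_injective _ _).2 hφ
  let ψ : ℂ →ₐ[B] L := IsAlgClosed.lift
  exact ⟨ψ.toRingHom, fun x => (ψ.commutes (algebraMap F B x)).trans (φ.commutes x)⟩

lemma exists_L {F : Type} [Field F] (a : AbsoluteValue F ℝ) (h1 : ∀ n : ℕ, a n ≤ 1)
    (h2 : ∃ x, 1 < a x) : ∃ p : Plc F, 𝔠 ≤ #p.L ∧ ∀ x, ‖p.σ x‖ = a x := by
  obtain ⟨x, hx⟩ := h2
  let ι : F →+* a.Completion :=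
    UniformSpace.Completion.coeRingHom.comp (WithAbs.equiv a).symm.toRingHom
  have hι : ∀ y, ‖ι y‖ = a y := fun y => UniformSpace.Completion.norm_coe _
  let _ : NontriviallyNormedField a.Completion :=
    { (inferInstance : NormedField a.Completion) with non_trivial := ⟨ι x, by rwa [hι]⟩ }
  have : IsUltrametricDist a.Completion :=
    IsUltrametricDist.isUltrametricDist_of_forall_norm_natCast_le_one fun n => by
      rw [← map_natCast ι, hι]; exact h1 n
  let L := AlgebraicClosure a.Completion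
  let _ := spectralNorm.normedField a.Completion L
  refine ⟨⟨L, (algebraMap _ L).comp ι⟩,
    (continuum_le_cardinal_of_nontriviallyNormedField a.Completion).trans
      (mk_le_of_injective (algebraMap _ L).injective), fun y => ?_⟩
  rw [← hι]
  exact spectralNorm_extends _

lemma countable_of_alg (F K : Type) [Field F] [Field K] [Algebra F K] [Countable F]
    [Algebra.IsAlgebraic F K] : Countable K :=
  mk_le_aleph0_iff.1 ((Algebra.IsAlgebraic.cardinalMk_le_max F K).trans (by simp))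

lemma lv_aux {V : Type*} [Fintype V] (a : V → ℝ) (m : V → ℕ) (hm : ∀ v, m v ≠ 0) {T : ℝ}
    (hT : 1 ≤ T) (h0 : ∀ v, 0 ≤ a v) (h : ∀ v, a v ≤ T) (h1 : 1 ≤ ∏ v, a v ^ m v) (v : V) :
    1 ≤ a v * T ^ ∑ v, m v := by
  classical
  obtain ⟨n, hn⟩ := Nat.exists_eq_succ_of_ne_zero (hm v)
  rw [← Finset.mul_prod_erase _ _ (Finset.mem_univ v), hn, pow_succ', mul_assoc] at h1
  rw [← Finset.add_sum_erase _ _ (Finset.mem_univ v), pow_add, ← Finset.prod_pow_eq_pow_sum]
  refine h1.trans (mul_le_mul_of_nonneg_left (mul_le_mul ?_ (Finset.prod_le_prod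
    (fun i _ => pow_nonneg (h0 i) _) fun i _ => pow_le_pow_left₀ (h0 i) (h i) _)
    (Finset.prod_nonneg fun i _ => pow_nonneg (h0 i) _) (by positivity)) (h0 v))
  exact (pow_le_pow_left₀ (h0 v) (h v) _).trans (pow_le_pow_right₀ hT (by omega))

theorem places_alg {E : Set ℂ} (hE : E.Finite) (ha : ∀ x ∈ E, IsAlgebraic ℚ x) :
    ∃ (V : Type) (_ : Fintype V) (P : V → Plc ℂ) (R : Subring ℂ) (c : ℕ), LV P R c ∧ E ⊆ R ∧
      ∀ T, {x | Bdd P R T x}.Finite := by
  classical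
  have := hE.to_subtype
  let K := IntermediateField.adjoin ℚ E
  have : FiniteDimensional ℚ K :=
    IntermediateField.finiteDimensional_adjoin fun x hx => (ha x hx).isIntegral
  have : NumberField K := {}
  have := countable_of_alg ℚ K
  have hfin : {w : FinitePlace K | ∃ e : E, 1 < w ⟨e, IntermediateField.subset_adjoin _ _ e.2⟩}.Finite := by
    rw [Set.ofPred_exists]
    refine Set.finite_iUnion fun e => ?_
    by_cases h : (⟨e, IntermediateField.subset_adjoin _ _ e.2⟩ : K) = 0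
    · simp [h, not_lt.2 (zero_le_one' ℝ)]
    · exact (FinitePlace.hasFiniteMulSupport h).subset fun w hw => ne_of_gt hw
  let s := hfin.toFinset
  let a : InfinitePlace K ⊕ s → K → ℝ := Sum.elim (fun w x => w x) fun w x => w.1 x
  have hP : ∀ v, ∃ p : Plc ℂ, ∀ x : K, ‖p.σ x‖ = a v x := by
    rintro (w | ⟨w, hw⟩)
    · obtain ⟨σ, hσ⟩ := extc mk_complex.ge w.embedding
      exact ⟨⟨ℂ, σ⟩, fun x => (congrArg _ (hσ x)).trans (w.norm_embedding_eq x)⟩
    · obtain ⟨e, he⟩ := hfin.mem_toFinset.1 hw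
      obtain ⟨p, h1, h2⟩ := exists_L w.1
        (fun n => IsNonarchimedean.apply_natCast_le_one (f := w.1) w.add_le) ⟨_, he⟩
      obtain ⟨σ, hσ⟩ := extc h1 p.σ
      exact ⟨⟨p.L, σ⟩, fun x => (congrArg _ (hσ x)).trans (h2 x)⟩
  choose P hP using hP
  let R : Subring K :=
    { carrier := {x | ∀ w ∉ s, w x ≤ 1}
      mul_mem' := fun hx hy w hw => by
        rw [map_mul]; exact mul_le_one₀ (hx w hw) (apply_nonneg _ _) (hy w hw)
      one_mem' := fun w _ => by simp
      add_mem' := fun hx hy w hw => (w.add_le _ _).trans (max_le (hx w hw) (hy w hw))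
      zero_mem' := fun w _ => by simp
      neg_mem' := fun hx w hw => by simpa using hx w hw }
  let m : InfinitePlace K ⊕ s → ℕ := Sum.elim (fun w => w.mult) fun _ => 1
  refine ⟨_, inferInstance, P, R.map (algebraMap K ℂ), ∑ v, m v, ?_, fun e he =>
    ⟨⟨e, IntermediateField.subset_adjoin _ _ he⟩, fun w hw => not_lt.1 fun h =>
      hw (hfin.mem_toFinset.2 ⟨⟨e, he⟩, h⟩), rfl⟩, fun T => ?_⟩
  · rintro T hT _ ⟨⟨x, hx, rfl⟩, hb⟩ h0 v
    have h0' : x ≠ 0 := fun h => h0 (by simp [h])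
    refine lv_aux (fun v => ‖(P v).σ x‖) m (by rintro (w | w); exacts [w.mult_ne_zero, one_ne_zero])
      hT (fun _ => norm_nonneg _) hb ?_ v
    simp only [hP, Fintype.prod_sum_type, a, m, Sum.elim_inl, Sum.elim_inr, pow_one]
    rw [← prod_abs_eq_one h0', Finset.prod_coe_sort s fun w => w x]
    refine mul_le_mul_of_nonneg_left ?_ (by positivity)
    rw [finprod_eq_prod_of_mulSupport_subset (s := s ∪ (FinitePlace.hasFiniteMulSupport h0').toFinset)
      _ (fun w hw => by simp [hw])]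
    exact Finset.prod_le_prod_of_subset_of_le_one Finset.subset_union_left
      (fun _ _ => apply_nonneg _ _) fun w _ hw => hx w hw
  · refine ((finite_setOfPred_mulHeight₁_le K (∏ v, max T 1 ^ m v)).image (algebraMap K ℂ)).subset ?_
    rintro _ ⟨⟨x, hx, rfl⟩, hb⟩
    refine ⟨x, ?_, rfl⟩
    have hb' : ∀ v, a v x ≤ T := fun v => hP v x ▸ hb v
    rw [Set.mem_ofPred_eq, mulHeight₁_eq, Fintype.prod_sum_type,
      finprod_eq_prod_of_mulSupport_subset (s := s) _ (fun w hw => by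
        by_contra h
        exact hw (max_eq_right (hx w h))), ← Finset.prod_coe_sort s]
    refine mul_le_mul (Finset.prod_le_prod (fun _ _ => by positivity) fun w _ =>
      pow_le_pow_left₀ (by positivity) (max_le_max_right _ (hb' (.inl w))) _)
      (Finset.prod_le_prod (fun _ _ => by positivity) fun w _ => ?_)
      (by positivity) (by positivity)
    exact (max_le_max_right 1 (hb' (.inr w))).trans (pow_one _).ge

lemma exists_degabs (s : ℕ) {b : ℝ} (hb : 1 < b) :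
    ∃ a : AbsoluteValue (FractionRing (MvPolynomial (Fin s) ℚ)) ℝ,
      ∀ p, p ≠ 0 → a (algebraMap (MvPolynomial (Fin s) ℚ) _ p) = b ^ p.totalDegree := by
  classical
  lift b to NNReal using (by linarith)
  have hb' : 1 ≤ b := by exact_mod_cast hb.le
  let v : Valuation (MvPolynomial (Fin s) ℚ) NNReal :=
    { toFun := fun p => if p = 0 then 0 else b ^ p.totalDegree
      map_zero' := by simp
      map_one' := by simp
      map_mul' := fun p q => by
        by_cases hp : p = 0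
        · simp [hp]
        by_cases hq : q = 0
        · simp [hq]
        simp [hp, hq, MvPolynomial.totalDegree_mul_of_isDomain hp hq, pow_add]
      map_add_le_max' := fun p q => by
        by_cases hp : p = 0
        · simp [hp]
        by_cases hq : q = 0
        · simp [hq]
        simp only [hp, hq, if_false]
        split_ifs
        · simp
        rcases le_max_iff.1 (MvPolynomial.totalDegree_add p q) with h | h
        exacts [le_max_of_le_left (pow_le_pow_right₀ hb' h),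
          le_max_of_le_right (pow_le_pow_right₀ hb' h)] }
  have hv : ∀ p, p ≠ 0 → v p = b ^ p.totalDegree := fun p hp => if_neg hp
  have hS : nonZeroDivisors (MvPolynomial (Fin s) ℚ) ≤ v.supp.primeCompl := fun p hp => by
    change ¬ v p = 0
    rw [hv p (nonZeroDivisors.ne_zero hp)]
    positivity
  let u := v.extendToLocalization hS (FractionRing (MvPolynomial (Fin s) ℚ))
  refine ⟨{ toFun := fun x => u x
            map_mul' := fun x y => by simp
            nonneg' := fun x => (u x).2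
            eq_zero' := fun x => by simp
            add_le' := fun x y => ?_ }, fun p hp => ?_⟩
  · exact_mod_cast (u.map_add x y).trans (max_le le_self_add le_add_self)
  · change ((u _ : NNReal) : ℝ) = _
    rw [Valuation.extendToLocalization_apply_map_apply, hv p hp, NNReal.coe_pow]

theorem places_tr {E : Set ℂ} (hE : E.Finite) (ha : ∃ x ∈ E, ¬ IsAlgebraic ℚ x) (B : ℝ) :
    ∃ (V : Type) (_ : Fintype V) (P : V → Plc ℂ) (R : Subring ℂ) (c : ℕ), LV P R c ∧ E ⊆ R ∧
      ∀ x, Bdd P R B x → IsAlgebraic ℚ x := by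
  classical
  have := hE.to_subtype
  let A := Algebra.adjoin ℚ E
  have : Algebra.FiniteType ℚ A := by
    rw [← Subalgebra.fg_iff_finiteType]
    exact ⟨hE.toFinset, by simp [A]⟩
  obtain ⟨s, g, g1, g2⟩ := exists_integral_inj_algHom_of_fg ℚ A
  let D := MvPolynomial (Fin s) ℚ
  let g' : D →ₐ[ℚ] ℂ := A.val.comp g
  let _ : Algebra D ℂ := g'.toRingHom.toAlgebra
  have : FaithfulSMul D ℂ :=
    (faithfulSMul_iff_algebraMap_injective _ _).2 (Subtype.val_injective.comp g1)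
  have hint : ∀ x ∈ E, IsIntegral D x := fun x hx => by
    obtain ⟨p, h1, h2⟩ := g2 ⟨x, Algebra.subset_adjoin hx⟩
    exact ⟨p, h1, (Polynomial.hom_eval₂ _ _ A.val.toRingHom _).symm.trans
      ((congrArg A.val.toRingHom h2).trans (map_zero _))⟩
  have hC : ∀ p : D, p.totalDegree = 0 → IsAlgebraic ℚ (algebraMap D ℂ p) := fun p hp => by
    rw [MvPolynomial.totalDegree_eq_zero_iff_eq_C.1 hp]
    exact (g'.commutes _).symm ▸ isAlgebraic_algebraMap _
  have halg : ∀ (x : ℂ) (q : D[X]), q.Monic → aeval x q = 0 → (∀ i, (q.coeff i).totalDegree = 0) →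
      IsAlgebraic ℚ x := fun x q h1 h2 h3 => by
    let Q := algebraicClosure ℚ ℂ
    have h4 : q.map (algebraMap D ℂ) ∈ lifts (algebraMap Q ℂ) :=
      (lifts_iff_coeff_lifts _).2 fun i =>
        ⟨⟨_, mem_algebraicClosure_iff.2 (hC _ (h3 i))⟩, (coeff_map (algebraMap D ℂ) i).symm⟩
    obtain ⟨r, r1, -, r2⟩ := lifts_and_natDegree_eq_and_monic h4 (h1.map _)
    have h5 : IsIntegral Q x := ⟨r, r2, by rw [eval₂_eq_eval_map, r1, eval_map_algebraMap, h2]⟩
    by_contra h
    exact Transcendental.algebraicClosure h h5.isAlgebraic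
  let F := FractionRing D
  let _ : Algebra F ℂ := FractionRing.liftAlgebra D ℂ
  have : IsScalarTower D F ℂ := FractionRing.isScalarTower_liftAlgebra D ℂ
  have : Countable F := mk_le_aleph0_iff.1 ((FractionRing.cardinalMk D).trans_le
    (MvPolynomial.cardinalMk_le_max.trans (by simp [natCast_le_aleph0])))
  let K := IntermediateField.adjoin F E
  have : FiniteDimensional F K :=
    IntermediateField.finiteDimensional_adjoin fun x hx => (hint x hx).tower_top
  have := countable_of_alg F K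
  let n := Module.finrank F K
  obtain ⟨a, ha'⟩ := exists_degabs s (b := max B 1 ^ n * n.choose (n / 2) + 1)
    (lt_add_of_pos_left _ (by have := Nat.choose_pos (Nat.div_le_self n 2); positivity))
  set b := max B 1 ^ n * n.choose (n / 2) + 1 with hb
  have hb1 : 1 < b :=
    lt_add_of_pos_left _ (by have := Nat.choose_pos (Nat.div_le_self n 2); positivity)
  obtain ⟨p, p1, p2⟩ := exists_L a (fun m => by
      rcases eq_or_ne m 0 with rfl | h
      · simp
      · rw [← map_natCast (algebraMap D F), ha' _ (Nat.cast_ne_zero.2 h), ← map_natCast MvPolynomial.C,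
          MvPolynomial.totalDegree_C, pow_zero]) (by
      obtain ⟨x, hx, hx'⟩ := ha
      obtain ⟨q, q1, q2⟩ := hint x hx
      obtain ⟨i, hi⟩ := not_forall.1 (mt (halg x q q1 q2) hx')
      refine ⟨algebraMap D F (q.coeff i), ?_⟩
      rw [ha' _ fun h => hi (by simp [h])]
      exact one_lt_pow₀ hb1 hi)
  let _ := p.σ.toAlgebra
  choose σ hσ using fun v : K →ₐ[F] p.L => extc p1 v.toRingHom
  have key : ∀ (x : K) (T : ℝ), (∀ v, ‖σ v x‖ ≤ T) →
      ∀ r ∈ ((minpoly F x).map p.σ).roots, ‖r‖ ≤ T := fun x T h r hr => by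
    have : r ∈ (minpoly F x).rootSet p.L := Finset.mem_coe.2 (Multiset.mem_toFinset.2 hr)
    rw [← Algebra.IsAlgebraic.range_eval_eq_rootSet_minpoly] at this
    obtain ⟨v, rfl⟩ := this
    exact (congrArg _ (hσ v x)).ge.trans (h v)
  have hmp : ∀ x : K, IsIntegral D (x : ℂ) → minpoly F x = (minpoly D (x : ℂ)).map (algebraMap D F) :=
    fun x hx => by rw [← minpoly.isIntegrallyClosed_eq_field_fractions' F hx, IntermediateField.minpoly_eq]
  refine ⟨K →ₐ[F] p.L, inferInstance, fun v => ⟨p.L, σ v⟩,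
    K.toSubring ⊓ (integralClosure D ℂ).toSubring, n, ?_, fun x hx =>
    ⟨IntermediateField.subset_adjoin _ _ hx, hint x hx⟩, ?_⟩
  · rintro T hT x ⟨⟨hx, hx'⟩, h⟩ h0 v
    lift x to K using hx
    have hi : IsIntegral F x := .of_finite _ _
    have h1 : (minpoly F x).coeff 0 ≠ 0 := minpoly.coeff_zero_ne_zero hi fun h => h0 (by simp [h])
    have h2 : 1 ≤ ‖((minpoly F x).map p.σ).coeff 0‖ := by
      rw [hmp x hx', coeff_map] at h1
      rw [coeff_map, p2, hmp x hx', coeff_map, ha' _ fun h => h1 (by simp [h])]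
      exact one_le_pow₀ hb1.le
    have hs := IsAlgClosed.splits ((minpoly F x).map p.σ)
    have h3 : σ v x ∈ ((minpoly F x).map p.σ).roots := by
      rw [mem_roots (map_monic_ne_zero (minpoly.monic hi)), IsRoot.def, eval_map,
        show σ v x = v x from hσ v x]
      exact (aeval_algHom_apply v x _).trans (by simp)
    obtain ⟨t, ht⟩ := Multiset.exists_cons_of_mem h3
    have h4 : t.card ≤ n := by
      have := congrArg Multiset.card ht
      rw [← hs.natDegree_eq_card_roots, natDegree_map, Multiset.card_cons] at this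
      have := minpoly.natDegree_le (A := F) x
      omega
    rw [hs.coeff_zero_eq_prod_roots_of_monic ((minpoly.monic hi).map _), ht, Multiset.prod_cons,
      norm_mul, norm_mul, norm_pow, norm_neg, norm_one, one_pow, one_mul] at h2
    refine h2.trans (mul_le_mul_of_nonneg_left (le_trans ?_ (pow_le_pow_right₀ hT h4))
      (norm_nonneg _))
    have h5 : ∀ r ∈ t, ‖r‖ ≤ T := fun r hr => key x T h r (ht ▸ Multiset.mem_cons_of_mem hr)
    clear ht h4 h2
    induction t using Multiset.induction_on with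
    | empty => simp
    | cons r t ih =>
      rw [Multiset.prod_cons, Multiset.card_cons, norm_mul, pow_succ']
      exact mul_le_mul (h5 r (by simp)) (ih fun r hr => h5 r (by simp [hr])) (norm_nonneg _)
        (by linarith)
  · rintro x ⟨⟨hx, hx'⟩, h⟩
    lift x to K using hx
    refine halg _ _ (minpoly.monic hx') (minpoly.aeval _ _) fun i => ?_
    by_contra hc
    have h1 := coeff_bdd_of_roots_le p.σ (minpoly.monic (.of_finite F x)) (IsAlgClosed.splits _)
      (d := n) (minpoly.natDegree_le x) (key x B h) i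
    rw [coeff_map, p2, hmp x hx', coeff_map, ha' _ fun h => hc (by simp [h])] at h1
    linarith [le_self_pow₀ hb1.le hc]

theorem exists_places {E C : Set ℂ} (hE : E.Finite) (hC : C ⊆ Subring.closure E) (B : ℝ) :
    ∃ (V : Type) (_ : Fintype V) (P : V → Plc ℂ) (R : Subring ℂ) (c : ℕ), LV P R c ∧ C ⊆ R ∧
      ((∀ T, {x | Bdd P R T x}.Finite) ∨ ∃ k0 : Subfield ℂ, (∃ x ∈ C, x ∉ k0) ∧
        ∀ x, Bdd P R B x → x ∈ k0) := by
  let Q := algebraicClosure ℚ ℂ
  by_cases h : ∀ x ∈ C, x ∈ Q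
  · have : IsAlgClosed Q := (algebraicClosure.isAlgClosure ℚ ℂ).isAlgClosed
    let A := Algebra.adjoin Q E
    have : Algebra.FiniteType Q A := by
      rw [← Subalgebra.fg_iff_finiteType]
      exact ⟨hE.toFinset, by simp [A]⟩
    obtain ⟨m, hm⟩ := Ideal.exists_maximal A
    let _ := Ideal.Quotient.field m
    have := finite_of_finite_type_of_isJacobsonRing Q (A ⧸ m)
    let φ : A →ₐ[Q] Q := (IsAlgClosed.lift (S := A ⧸ m)).comp (Ideal.Quotient.mkₐ Q m)
    have := hE.to_subtype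
    obtain ⟨V, _, P, R, c, h1, h2, h3⟩ := places_alg
      (Set.finite_range fun e : E => (φ ⟨e, Algebra.subset_adjoin e.2⟩ : ℂ))
      (by rintro _ ⟨e, rfl⟩; exact mem_algebraicClosure_iff.1 (φ _).2)
    refine ⟨V, ‹_›, P, R, c, h1, fun x hx => ?_, Or.inl h3⟩
    have h4 : Subring.closure E ≤ (R.comap ((algebraMap Q ℂ).comp φ.toRingHom)).map
        A.val.toRingHom := Subring.closure_le.2 fun e he =>
      ⟨⟨e, Algebra.subset_adjoin he⟩, h2 ⟨⟨e, he⟩, rfl⟩, rfl⟩
    obtain ⟨y, y1, y2⟩ := h4 (hC hx)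
    have h5 : y = algebraMap Q A ⟨x, h x hx⟩ := Subtype.ext y2
    have h6 : algebraMap Q ℂ (φ y) = x := by rw [h5, φ.commutes]; rfl
    exact h6 ▸ y1
  · obtain ⟨V, _, P, R, c, h1, h2, h3⟩ := places_tr hE (by
      by_contra hc
      push Not at hc
      exact h fun x hx => Subring.closure_le (t := Q.toSubring).2
        (fun y hy => mem_algebraicClosure_iff.2 (hc y hy)) (hC hx)) B
    push Not at h
    exact ⟨V, ‹_›, P, R, c, h1, hC.trans (Subring.closure_le.2 h2), Or.inr ⟨Q.toSubfield, h,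
      fun x hx => mem_algebraicClosure_iff.2 (h3 x hx)⟩⟩

end Pool.Agent.MP_646035_al.H43

end

-- part MP_646035_al.H43.WO
section

/-!
Uniform supermultiplicativity and equational Noetherianity give the well-ordering.
-/

namespace Pool.Agent.MP_646035_al.H43

open Filter Topology

variable {Γ : Type*} [Group Γ]

lemma IsRate.tendsto_mul {S : Finset Γ} {e : ℝ} (h : IsRate S e) {p : ℕ} (hp : 1 ≤ p) :
    Tendsto (fun m : ℕ => ((ball S ((m + 1) * p)).ncard : ℝ) ^ (1 / ((m + 1 : ℕ) : ℝ))) atTop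
      (𝓝 (e ^ p)) := by
  have h1 : Tendsto (fun m : ℕ => (m + 1) * p) atTop atTop :=
    tendsto_atTop_mono (fun m => by simp only [id]; nlinarith) tendsto_id
  refine ((h.comp h1).pow p).congr fun m => ?_
  simp only [Function.comp]
  rw [← Real.rpow_natCast, ← Real.rpow_mul (Nat.cast_nonneg _)]
  congr 1
  have : (p : ℝ) ≠ 0 := by positivity
  push_cast
  field_simp

lemma pow_rate_le {S : Finset Γ} {e : ℝ} (h : IsRate S e) {r : ℕ} (hr : 1 ≤ r) :
    e ^ r ≤ (ball S r).ncard := by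
  have h1 : ∀ m, (ball S ((m + 1) * r)).ncard ≤ (ball S r).ncard ^ (m + 1) := by
    intro m
    induction m with
    | zero => simp
    | succ m ih =>
      rw [add_mul (m + 1), one_mul, pow_succ]
      exact (ncard_ball_add S _ _).trans (Nat.mul_le_mul_right _ ih)
  refine le_of_tendsto' (IsRate.tendsto_mul h hr) fun m => ?_
  rw [one_div, Real.rpow_inv_le_iff_of_pos (Nat.cast_nonneg _) (Nat.cast_nonneg _) (by positivity),
    Real.rpow_natCast]
  exact_mod_cast h1 m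

lemma ball_le_rate {S : Finset Γ} {e : ℝ} (h : IsRate S e) {c K d : ℕ} (hM : MI Γ c K d S)
    {r : ℕ} (hr : 1 ≤ r) : ((ball S r).ncard : ℝ) ≤ K * (2 * r + 3) ^ d * e ^ (r + c) := by
  have hK : 0 < K := by
    have h1 := hM 0 0
    have h2 := one_le_ncard_ball S 0
    by_contra hc
    rw [show K = 0 by omega] at h1
    nlinarith
  have hp : (0 : ℝ) < K * (2 * r + 3) ^ d := by positivity
  rw [← div_le_iff₀' hp]
  set q := ((ball S r).ncard : ℝ) / (K * (2 * r + 3) ^ d) with hq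
  have hq0 : 0 ≤ q := by positivity
  have h1 : ∀ m, q ^ m ≤ (ball S (m * (r + c))).ncard := by
    intro m
    induction m with
    | zero => simpa using one_le_ncard_ball S 0
    | succ m ih =>
      have h2 : (((ball S (m * (r + c))).ncard : ℝ) * (ball S r).ncard) ≤
          K * (2 * r + 3) ^ d * (ball S (m * (r + c) + r + c)).ncard := by
        exact_mod_cast hM (m * (r + c)) r
      rw [pow_succ, show (m + 1) * (r + c) = m * (r + c) + r + c by ring]
      refine (mul_le_mul_of_nonneg_right ih hq0).trans ?_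
      rw [hq, ← mul_div_assoc, div_le_iff₀' hp]
      exact h2
  refine ge_of_tendsto' (IsRate.tendsto_mul h (by omega : 1 ≤ r + c)) fun m => ?_
  rw [one_div, Real.le_rpow_inv_iff_of_pos hq0 (Nat.cast_nonneg _) (by positivity),
    Real.rpow_natCast]
  exact h1 (m + 1)

/-- Evaluation of a word. -/
def ev {k : ℕ} (s : Fin k → Γ) (w : List (Fin k × Bool)) : Γ :=
  (w.map fun l => if l.2 then s l.1 else (s l.1)⁻¹).prod

lemma ev_mem_ball {k : ℕ} {s : Fin k → Γ} {S : Finset Γ} (hs : ∀ t, s t ∈ ball S 1) :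
    ∀ w : List (Fin k × Bool), ev s w ∈ ball S w.length
  | [] => one_mem_ball _ _
  | l :: w => by
    have h1 : (if l.2 then s l.1 else (s l.1)⁻¹) ∈ ball S 1 := by
      split_ifs
      exacts [hs _, inv_mem_ball (hs _)]
    simpa [ev, add_comm] using mul_mem_ball h1 (ev_mem_ball hs w)

lemma exists_word {k : ℕ} {s : Fin k → Γ} {S : Finset Γ} (hs : ∀ x ∈ S, ∃ t, s t = x) (r : ℕ) :
    ∀ x ∈ ball S r, ∃ w : List (Fin k × Bool), w.length ≤ r ∧ ev s w = x := by
  refine ball_induction (fun r x => ∃ w : List (Fin k × Bool), w.length ≤ r ∧ ev s w = x)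
    ⟨[], le_rfl, rfl⟩ (fun r g ⟨w, h1, h2⟩ => ⟨w, by omega, h2⟩) ?_ r
  rintro r g x ⟨w, h1, rfl⟩ (hx | hx)
  · obtain ⟨t, rfl⟩ := hs x hx
    exact ⟨w ++ [(t, true)], by simpa using h1, by simp [ev]⟩
  · obtain ⟨t, ht⟩ := hs _ hx
    exact ⟨w ++ [(t, false)], by simpa using h1, by simp [ev, ht]⟩

lemma exists_tuple {S : Finset Γ} {k : ℕ} (h : S.card ≤ k) :
    ∃ s : Fin k → Γ, (∀ t, s t ∈ ball S 1) ∧ ∀ x ∈ S, ∃ t, s t = x := by
  refine ⟨fun t => S.toList.getD t 1, fun t => ?_, fun x hx => ?_⟩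
  · by_cases ht : (t : ℕ) < S.toList.length
    · simp only [List.getD_eq_getElem _ _ ht]
      exact mem_ball_one (Finset.mem_toList.1 (List.getElem_mem ht))
    · simp only [List.getD_eq_default _ _ (not_lt.1 ht)]
      exact one_mem_ball _ _
  · obtain ⟨i, hi, rfl⟩ := List.getElem_of_mem (Finset.mem_toList.2 hx)
    exact ⟨⟨i, by rw [Finset.length_toList] at hi; omega⟩, List.getD_eq_getElem _ _ hi⟩

lemma noether {n : Type} [Fintype n] [DecidableEq n] (π : Γ →* Matrix n n ℂ) {k : ℕ}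
    (s : ℕ → Fin k → Γ) : ∃ m, ∀ r, ∃ m' > m, ∀ w w' : List (Fin k × Bool), w.length ≤ r →
      w'.length ≤ r → π (ev (s m') w) = π (ev (s m') w') → π (ev (s m) w) = π (ev (s m) w') := by
  let R := MvPolynomial ((Fin k × Bool) × n × n) ℂ
  let pt : ℕ → ((Fin k × Bool) × n × n) → ℂ := fun m x =>
    π (if x.1.2 then s m x.1.1 else (s m x.1.1)⁻¹) x.2.1 x.2.2
  let Z : Ideal R → Set ℕ := fun I => {m | ∀ p ∈ I, MvPolynomial.eval (pt m) p = 0}
  obtain ⟨I, hI, hmax⟩ := set_has_maximal_iff_noetherian.2 (inferInstance : IsNoetherian R R)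
    {I | (Z I).Infinite} ⟨⊥, by
      have : Z ⊥ = Set.univ := by ext m; simp [Z]
      simpa [this] using Set.infinite_univ⟩
  have hfin : ∀ p ∉ I, {m ∈ Z I | MvPolynomial.eval (pt m) p = 0}.Finite := by
    intro p hp
    by_contra hc
    refine hmax (I ⊔ Ideal.span {p}) (Set.Infinite.mono ?_ hc) (lt_of_le_of_ne le_sup_left ?_)
    · rintro m ⟨h1, h2⟩ q hq
      obtain ⟨a, ha, b, hb, rfl⟩ := Submodule.mem_sup.1 hq
      obtain ⟨c, rfl⟩ := Ideal.mem_span_singleton'.1 hb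
      simp [h1 a ha, h2]
    · intro h
      exact hp (h ▸ Ideal.mem_sup_right (Ideal.mem_span_singleton_self p))
  let M : List (Fin k × Bool) → Matrix n n R := fun w =>
    (w.map fun l => Matrix.of fun i j => MvPolynomial.X (l, i, j)).prod
  have hM : ∀ m w, (MvPolynomial.eval (pt m)).mapMatrix (M w) = π (ev (s m) w) := by
    intro m w
    simp only [M, ev, map_list_prod, List.map_map]
    congr 2
    funext l
    ext i j
    simp [pt]
  obtain ⟨m, hm⟩ := hI.nonempty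
  refine ⟨m, fun r => ?_⟩
  have h1 : ∀ w w', π (ev (s m) w) ≠ π (ev (s m) w') →
      {m' ∈ Z I | π (ev (s m') w) = π (ev (s m') w')}.Finite := by
    intro w w' hne
    obtain ⟨i, j, hij⟩ : ∃ i j, π (ev (s m) w) i j ≠ π (ev (s m) w') i j := by
      by_contra hc
      push Not at hc
      exact hne (Matrix.ext hc)
    have h2 : ∀ m', MvPolynomial.eval (pt m') (M w i j - M w' i j) =
        π (ev (s m') w) i j - π (ev (s m') w') i j := fun m' => by
      rw [← hM, ← hM, map_sub]; rfl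
    refine (hfin (M w i j - M w' i j) fun h => hij ?_).subset ?_
    · rw [← sub_eq_zero, ← h2]; exact hm _ h
    · rintro m' ⟨h3, h4⟩
      exact ⟨h3, by rw [h2, h4, sub_self]⟩
  have h2 : (⋃ w ∈ {w : List (Fin k × Bool) | w.length ≤ r}, ⋃ w' ∈ {w : List (Fin k × Bool) |
      w.length ≤ r}, {m' ∈ Z I | π (ev (s m') w) = π (ev (s m') w') ∧
        π (ev (s m) w) ≠ π (ev (s m) w')}).Finite := by
    refine (List.finite_length_le _ r).biUnion fun w _ =>
      (List.finite_length_le _ r).biUnion fun w' _ => ?_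
    by_cases h : π (ev (s m) w) = π (ev (s m) w')
    · simp [h]
    · exact (h1 w w' h).subset fun m' hm' => ⟨hm'.1, hm'.2.1⟩
  obtain ⟨m', hm', hlt⟩ := (hI.sdiff h2).exists_gt m
  refine ⟨m', hlt, fun w w' a1 a2 a3 => ?_⟩
  by_contra hc
  exact hm'.2 (Set.mem_iUnion₂.2 ⟨w, a1, Set.mem_iUnion₂.2 ⟨w', a2, hm'.1, a3, hc⟩⟩)

theorem wo_of_mi {n : Type} [Fintype n] [DecidableEq n] (π : Γ →* Matrix n n ℂ)
    (hπ : {x | π x = 1}.Finite) {c K d : ℕ}
    (hM : ∀ S : Finset Γ, Subgroup.closure (S : Set Γ) = ⊤ → MI Γ c K d S) :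
    ∀ A ⊆ growthSet Γ, A.Nonempty → ∃ a, IsLeast A a := by
  classical
  intro A hA ⟨a0, ha0⟩
  by_contra hc
  have h1 : ∀ a : A, ∃ b : A, (b : ℝ) < a := by
    rintro ⟨a, ha⟩
    by_contra h
    push Not at h
    exact hc ⟨a, ha, fun b hb => h ⟨b, hb⟩⟩
  choose f hf using h1
  let e : ℕ → ℝ := fun m => (f^[m] ⟨a0, ha0⟩ : A)
  have he : StrictAnti e := strictAnti_nat_of_succ_lt fun m => by
    simp only [e, Function.iterate_succ_apply']; exact hf _
  choose S hS hR using fun m => hA (f^[m] ⟨a0, ha0⟩).2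
  change ∀ m, IsRate (S m) (e m) at hR
  obtain ⟨k, hk⟩ := exists_nat_ge ((K : ℝ) * (2 * (1 : ℕ) + 3) ^ d * e 0 ^ (1 + c))
  have hcard : ∀ m, (S m).card ≤ k := by
    intro m
    have h1 := ball_le_rate (hR m) (hM _ (hS m)) le_rfl
    have h2 : (S m).card ≤ (ball (S m) 1).ncard := by
      rw [← Set.ncard_coe_finset]
      exact Set.ncard_le_ncard (fun x hx => mem_ball_one hx) (ball_finite _ _)
    have h3 : e m ^ (1 + c) ≤ e 0 ^ (1 + c) :=
      pow_le_pow_left₀ (by linarith [(hR m).one_le]) (he.antitone (Nat.zero_le m)) _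
    have h4 : ((S m).card : ℝ) ≤ k :=
      ((Nat.cast_le.2 h2).trans h1).trans (le_trans (by gcongr) hk)
    exact_mod_cast h4
  choose s s1 s2 using fun m => exists_tuple (hcard m)
  obtain ⟨m, hm⟩ := noether π s
  have key : ∀ r, 1 ≤ r → e m ^ r ≤ hπ.toFinset.card * (K * (2 * r + 3) ^ d * e (m + 1) ^ (r + c)) := by
    intro r hr
    obtain ⟨m', hlt, hw⟩ := hm r
    choose! wd w1 w2 using exists_word (s2 m) r
    have h1 := Finset.card_le_mul_card_image_of_maps_to (f := fun x => ev (s m') (wd x))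
      (s := (ball_finite (S m) r).toFinset) (t := (ball_finite (S m') r).toFinset)
      (fun x hx => by
        simp only [Set.Finite.mem_toFinset] at hx ⊢
        exact ball_mono _ (w1 x hx) (ev_mem_ball (s1 m') _)) hπ.toFinset.card (by
        intro q _
        rcases ((ball_finite (S m) r).toFinset.filter
          fun x => ev (s m') (wd x) = q).eq_empty_or_nonempty with h0 | ⟨x0, h0⟩
        · simp [h0]
        refine Finset.card_le_card_of_injOn (fun x => x0⁻¹ * x) ?_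
          fun x _ y _ hxy => by simpa using hxy
        intro x hx
        simp only [Finset.coe_filter, Set.Finite.mem_toFinset, Set.mem_ofPred_eq,
          Finset.mem_filter, Set.Finite.coe_toFinset] at hx h0 ⊢
        have := hw _ _ (w1 x hx.1) (w1 x0 h0.1) (by rw [hx.2, h0.2])
        rw [w2 x hx.1, w2 x0 h0.1] at this
        rw [map_mul, this, ← map_mul, inv_mul_cancel, map_one])
    rw [← Set.ncard_eq_toFinset_card _ (ball_finite _ _),
      ← Set.ncard_eq_toFinset_card _ (ball_finite _ _)] at h1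
    have h2 : e m' ^ (r + c) ≤ e (m + 1) ^ (r + c) :=
      pow_le_pow_left₀ (by linarith [(hR m').one_le]) (he.antitone hlt) _
    calc e m ^ r ≤ (ball (S m) r).ncard := pow_rate_le (hR m) hr
      _ ≤ hπ.toFinset.card * (ball (S m') r).ncard := by exact_mod_cast h1
      _ ≤ hπ.toFinset.card * (K * (2 * r + 3) ^ d * e m' ^ (r + c)) := by
        gcongr; exact ball_le_rate (hR m') (hM _ (hS m')) hr
      _ ≤ _ := by gcongr
  have hpos : 0 < e (m + 1) := by linarith [(hR (m + 1)).one_le]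
  have hq : 1 < e m / e (m + 1) := (one_lt_div hpos).2 (he (Nat.lt_succ_self m))
  set C : ℝ := hπ.toFinset.card * K * 5 ^ d * e (m + 1) ^ c with hC
  have h2 := (tendsto_pow_const_div_const_pow_of_one_lt d hq).const_mul C
  rw [mul_zero] at h2
  obtain ⟨r, h3, h4⟩ := ((h2.eventually (gt_mem_nhds zero_lt_one)).and
    (eventually_ge_atTop 1)).exists
  have h5 := key r h4
  have h6 : (2 * r + 3 : ℝ) ^ d ≤ (5 * r) ^ d := by
    have : (1 : ℝ) ≤ r := by exact_mod_cast h4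
    gcongr; linarith
  rw [← mul_div_assoc, div_lt_one (by positivity), div_pow, lt_div_iff₀ (by positivity)] at h3
  have h7 : e m ^ r ≤ C * r ^ d * e (m + 1) ^ r := by
    refine h5.trans ?_
    calc _ ≤ (hπ.toFinset.card : ℝ) * (K * (5 * r) ^ d * e (m + 1) ^ (r + c)) := by gcongr
      _ = _ := by rw [hC, mul_pow, pow_add]; ring
  linarith

end Pool.Agent.MP_646035_al.H43

end

-- part MP_646035_al.H43.Virt
section

/-!
Passage from a subgroup of finite index to the whole group.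
-/

namespace Pool.Agent.MP_646035_al.H43

open Finset

variable {Γ : Type*} [Group Γ] (Γ0 : Subgroup Γ) [Γ0.FiniteIndex]

lemma exists_reps : ∃ m : ℕ, ∀ S : Finset Γ, Subgroup.closure (S : Set Γ) = ⊤ →
    ∃ w : Fin m → Γ, (∀ t, w t ∈ ball S m) ∧ ∀ x, ∃ t, x * (w t)⁻¹ ∈ Γ0 := by
  classical
  let G := LinearMap.range (LinearMap.funLeft ℚ ℚ fun x : Γ => ((x⁻¹ : Γ) : Γ ⧸ Γ0))
  refine ⟨Module.finrank ℚ G, fun S hS => ?_⟩
  obtain ⟨w, h1, h2⟩ := escape G (by
    rintro _ ⟨ψ, rfl⟩ s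
    exact ⟨fun q => ψ (s⁻¹ • q), funext fun x => by simp [LinearMap.funLeft_apply]⟩) S hS
  refine ⟨w, h1, fun x => ?_⟩
  by_contra hc
  push Not at hc
  have := congrFun (h2 _ ⟨Pi.single ((x⁻¹ : Γ) : Γ ⧸ Γ0) 1, rfl⟩ fun t => by
    rw [LinearMap.funLeft_apply, Pi.single_eq_of_ne]
    intro h
    exact hc t (by simpa using QuotientGroup.eq.1 h.symm)) x
  simp [LinearMap.funLeft_apply] at this

theorem mi_of_virt {c K e : ℕ}
    (h : ∀ S : Finset Γ0, Subgroup.closure (S : Set Γ0) = ⊤ → MI' Γ0 c K e S) :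
    ∃ c' K' : ℕ, ∀ S : Finset Γ, Subgroup.closure (S : Set Γ) = ⊤ → MI Γ c' K' e S := by
  classical
  obtain ⟨m, hm⟩ := exists_reps Γ0
  refine ⟨c * (2 * m + 1) + 2 * m, m * m * K * (m + 2) ^ e, fun S hS R r => ?_⟩
  obtain ⟨w, w1, w2⟩ := hm S hS
  choose t ht using w2
  let B : ℕ → Finset Γ0 := fun r => (ball_finite S r).toFinset.subtype (· ∈ Γ0)
  have hB : ∀ r x, x ∈ B r ↔ (x : Γ) ∈ ball S r := fun r x => by simp [B]
  have h1 : ∀ r, ∀ x ∈ ball S r, ∃ y ∈ ball (B (2 * m + 1)) r, ∃ z ∈ ball S m, x = y * z := by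
    refine ball_induction (fun r x => ∃ y ∈ ball (B (2 * m + 1)) r, ∃ z ∈ ball S m, x = y * z)
      ⟨1, one_mem_ball _ _, 1, one_mem_ball _ _, by simp⟩
      (fun r g ⟨y, y1, y2⟩ => ⟨y, ball_mono _ (by omega) y1, y2⟩) ?_
    rintro r _ s ⟨y, y1, z, z1, rfl⟩ hs
    have hs' : s ∈ ball S 1 := by
      rcases hs with hx | hx
      exacts [mem_ball_one hx, by simpa using inv_mem_ball (mem_ball_one hx)]
    refine ⟨y * ⟨_, ht (z * s)⟩, mul_mem_ball y1 (mem_ball_one ((hB _ _).2 (ball_mono S (by omega)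
      (mul_mem_ball (mul_mem_ball z1 hs') (inv_mem_ball (w1 _)))))), _, w1 (t (z * s)), ?_⟩
    simp [mul_assoc]
  have h2 : ∀ r (x : Γ0), (x : Γ) ∈ ball S r → x ∈ ball (B (2 * m + 1)) (r + 1) := by
    intro r x hx
    obtain ⟨y, y1, z, z1, e⟩ := h1 r x hx
    have : ((y⁻¹ * x : Γ0) : Γ) = z := by simp [e]
    simpa using mul_mem_ball y1 (mem_ball_one ((hB _ (y⁻¹ * x)).2
      (this ▸ ball_mono S (by omega) z1)))
  have h3 : ∀ r, ∀ x ∈ ball (B (2 * m + 1)) r, (x : Γ) ∈ ball S (r * (2 * m + 1)) := by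
    refine ball_induction (fun r (x : Γ0) => (x : Γ) ∈ ball S (r * (2 * m + 1))) (one_mem_ball _ _)
      (fun r g h => ball_mono S (by nlinarith) h) fun r g x hg hx => ?_
    rw [add_mul, one_mul]
    refine mul_mem_ball hg ?_
    rcases hx with hx | hx
    exacts [(hB _ _).1 hx, by simpa using inv_mem_ball ((hB _ _).1 hx)]
  have h4 : Subgroup.closure (B (2 * m + 1) : Set Γ0) = ⊤ := by
    refine top_unique fun x _ => ?_
    have hx : (x : Γ) ∈ (Subgroup.closure (S : Set Γ)).toSubmonoid := hS ▸ Subgroup.mem_top _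
    rw [Subgroup.closure_toSubmonoid] at hx
    obtain ⟨l, l1, l2⟩ := Submonoid.exists_list_of_mem_closure hx
    obtain ⟨l', -, a1, rfl⟩ := h2 _ x ⟨l, le_rfl, l1, l2⟩
    exact list_prod_mem fun y hy => (a1 y hy).elim (fun h => Subgroup.subset_closure h)
      fun h => inv_mem_iff.1 (Subgroup.subset_closure h)
  have h5 : ∀ r, (ball S r).ncard ≤ (B (r + m)).card * m := fun r => by
    rw [Set.ncard_eq_toFinset_card _ (ball_finite S r)]
    refine (Finset.card_le_card_of_injOn (t := B (r + m) ×ˢ Finset.univ)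
      (fun x => (⟨_, ht x⟩, t x)) (fun x hx => ?_) fun x _ y _ hxy => ?_).trans (by simp)
    · simp only [Set.Finite.coe_toFinset, Finset.coe_product, Set.mem_prod, Finset.mem_coe, hB,
        Finset.mem_univ, and_true] at hx ⊢
      exact mul_mem_ball hx (inv_mem_ball (w1 _))
    · simp only [Prod.mk.injEq, Subtype.mk.injEq] at hxy
      obtain ⟨a1, a2⟩ := hxy
      rw [a2] at a1
      simpa using a1
  have h6 := h _ h4 (r + m + 1) (B (R + m)) (B (r + m)) (B (R + r + (c * (2 * m + 1) + 2 * m)))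
    (fun y hy => h2 _ _ ((hB _ _).1 hy)) fun x hx z hz y hy => (hB _ _).2 (ball_mono S (by omega)
      (mul_mem_ball (mul_mem_ball ((hB _ _).1 hx) (h3 _ _ hz)) ((hB _ _).1 hy)))
  have h7 : ∀ r, (B r).card ≤ (ball S r).ncard := fun r => by
    rw [Set.ncard_eq_toFinset_card _ (ball_finite S r), Finset.card_subtype]
    exact Finset.card_filter_le _ _
  calc _ ≤ ((B (R + m)).card * m) * ((B (r + m)).card * m) := Nat.mul_le_mul (h5 R) (h5 r)
    _ = m * m * ((B (R + m)).card * (B (r + m)).card) := by ring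
    _ ≤ m * m * (K * ((m + 2) * (2 * r + 3)) ^ e *
        (ball S (R + r + (c * (2 * m + 1) + 2 * m))).ncard) := by
      refine Nat.mul_le_mul_left _ (h6.trans (Nat.mul_le_mul (Nat.mul_le_mul_left _
        (Nat.pow_le_pow_left (by nlinarith) _)) (h7 _)))
    _ = _ := by rw [mul_pow]; ring

theorem wo_of_virt {n : Type} [Fintype n] [DecidableEq n] (π : Γ0 →* Matrix n n ℂ)
    (hπ : {x | π x = 1}.Finite) {c K e : ℕ}
    (h : ∀ S : Finset Γ0, Subgroup.closure (S : Set Γ0) = ⊤ → MI' Γ0 c K e S) :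
    ∀ A ⊆ growthSet Γ, A.Nonempty → ∃ a, IsLeast A a := by
  classical
  obtain ⟨c', K', hM⟩ := mi_of_virt Γ0 h
  obtain ⟨m, ⟨q⟩⟩ := Finite.exists_equiv_fin (Γ ⧸ Γ0)
  let p : Γ → Matrix n n ℂ := fun g => if h : g ∈ Γ0 then π ⟨g, h⟩ else 0
  let o : Fin m → Γ := fun i => (q.symm i).out
  have ho : ∀ i g, (o i)⁻¹ * g ∈ Γ0 ↔ i = q g := fun i g => by
    rw [← QuotientGroup.eq, QuotientGroup.out_eq', Equiv.symm_apply_eq]
  have hp : ∀ a b, p (a * b) = ∑ i, p (a * o i) * p ((o i)⁻¹ * b) := fun a b => by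
    rw [Finset.sum_eq_single (q b) (fun i _ hi => by simp [p, ho, hi]) (by simp)]
    have h1 := (ho _ b).2 rfl
    by_cases h2 : a * o (q b) ∈ Γ0
    · have h3 : a * b ∈ Γ0 := by simpa [mul_assoc] using mul_mem h2 h1
      simp only [p, dif_pos h1, dif_pos h2, dif_pos h3, ← map_mul]
      congr 1
      ext
      simp [mul_assoc]
    · have h3 : a * b ∉ Γ0 := fun h3 => h2 (by simpa [mul_assoc] using mul_mem h3 (inv_mem h1))
      simp [p, h2, h3]
  let π' : Γ →* Matrix (Fin m × n) (Fin m × n) ℂ :=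
    { toFun := fun g => Matrix.of fun a b => p ((o a.1)⁻¹ * g * o b.1) a.2 b.2
      map_one' := by
        ext ⟨i, a⟩ ⟨j, b⟩
        by_cases hij : i = j
        · subst hij
          have : π ⟨1, one_mem _⟩ = 1 := map_one π
          simp [p, this, Matrix.one_apply]
        · have : (o i)⁻¹ * o j ∉ Γ0 := by simpa [ho, o] using hij
          simp [p, this, hij]
      map_mul' := fun g g' => by
        ext ⟨i, a⟩ ⟨j, b⟩
        simp only [Matrix.of_apply, Matrix.mul_apply, Fintype.sum_prod_type]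
        rw [show (o i)⁻¹ * (g * g') * o j = ((o i)⁻¹ * g) * (g' * o j) by group, hp,
          Matrix.sum_apply]
        simp only [Matrix.mul_apply, mul_assoc] }
  refine wo_of_mi π' ?_ hM
  rcases isEmpty_or_nonempty n with hn | ⟨⟨a0⟩⟩
  · have : Finite Γ0 := Set.finite_univ_iff.1 (hπ.subset fun x _ => Subsingleton.elim _ _)
    have : Finite Γ := Finite.of_equiv _ (Subgroup.groupEquivQuotientProdSubgroup (s := Γ0)).symm
    exact Set.toFinite _
  let i := q (1 : Γ)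
  refine ((hπ.image fun x : Γ0 => o i * x * (o i)⁻¹)).subset fun g hg => ?_
  have h1 : p ((o i)⁻¹ * g * o i) = 1 := by
    ext a b
    simpa [π', Matrix.one_apply] using congrFun (congrFun hg (i, a)) (i, b)
  by_cases h2 : (o i)⁻¹ * g * o i ∈ Γ0
  · exact ⟨⟨_, h2⟩, by simpa [p, h2] using h1, by simp [mul_assoc]⟩
  · simpa [p, h2] using congrFun (congrFun h1 a0) a0

end Pool.Agent.MP_646035_al.H43

end

-- part MP_646035_al.H43.Abs
section

/-!
The abstract theorem for a finite family of complex representations.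
-/

namespace Pool.Agent.MP_646035_al.H43

open Matrix Finset

variable {Γ : Type*} [Group Γ] {I : Type} [Fintype I] {N : I → ℕ}

/-- The matrix coefficients of the representations and of their duals. -/
def Ent (ρ : ∀ i, Γ →* Matrix (Fin (N i)) (Fin (N i)) ℂ) : Set (Γ → ℂ) :=
  Set.range fun x : Option (Σ i, Bool × Fin (N i) × Fin (N i)) => fun γ =>
    x.elim 1 fun x => ρ x.1 (if x.2.1 then γ else γ⁻¹) x.2.2.1 x.2.2.2

variable (ρ : ∀ i, Γ →* Matrix (Fin (N i)) (Fin (N i)) ℂ)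

/-- Polynomial functions of degree at most `d`. -/
noncomputable def Pol (d : ℕ) : Submodule ℂ (Γ → ℂ) := Submodule.span ℂ (Ent ρ) ^ d

omit [Fintype I] in
lemma ent_mem (i : I) (a b : Fin (N i)) : (fun γ => ρ i γ a b) ∈ Pol ρ 1 := by
  rw [Pol, pow_one]; exact Submodule.subset_span ⟨some ⟨i, true, a, b⟩, rfl⟩

omit [Fintype I] in
lemma ent_mem' (i : I) (a b : Fin (N i)) : (fun γ => ρ i γ⁻¹ a b) ∈ Pol ρ 1 := by
  rw [Pol, pow_one]; exact Submodule.subset_span ⟨some ⟨i, false, a, b⟩, rfl⟩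

variable {ρ}

omit [Fintype I] in
lemma mul_mem_pol {d e : ℕ} {φ ψ : Γ → ℂ} (h1 : φ ∈ Pol ρ d) (h2 : ψ ∈ Pol ρ e) :
    φ * ψ ∈ Pol ρ (d + e) := by
  rw [Pol, pow_add]; exact Submodule.mul_mem_mul h1 h2

omit [Fintype I] in
lemma one_mem_pol (d : ℕ) : 1 ∈ Pol ρ d := by
  rw [← one_pow d]
  exact Submodule.pow_mem_pow (Submodule.span ℂ (Ent ρ)) (Submodule.subset_span ⟨none, rfl⟩) d

omit [Fintype I] in
lemma pol_mono {d e : ℕ} (h : d ≤ e) : Pol ρ d ≤ Pol ρ e := fun φ hφ => by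
  simpa [h] using mul_mem_pol hφ (one_mem_pol (e - d))

omit [Fintype I] in
lemma prod_mem_pol {ι : Type*} {d : ℕ} (s : Finset ι) {φ : ι → Γ → ℂ} (h : ∀ i, φ i ∈ Pol ρ d) :
    ∏ i ∈ s, φ i ∈ Pol ρ (s.card * d) := by
  classical
  induction s using Finset.induction_on with
  | empty => simpa using one_mem_pol 0
  | insert a s ha ih =>
    rw [Finset.prod_insert ha, Finset.card_insert_of_notMem ha, add_mul, one_mul, add_comm]
    exact mul_mem_pol (h a) ih

omit [Fintype I] in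
lemma cpd_mem_pol (i : I) (j : ℕ) (s t : PC (N i) j) :
    (fun γ => cpd j (ρ i γ) s t) ∈ Pol ρ j := by
  have : (fun γ => cpd j (ρ i γ) s t) = ∑ σ : Equiv.Perm (Fin j),
      ((Equiv.Perm.sign σ : ℤ) : ℂ) • ∏ l, fun γ => ρ i γ (emb s (σ l)) (emb t l) := by
    funext γ
    simp [cpd, Matrix.det_apply']
  rw [this]
  exact sum_mem fun σ _ => Submodule.smul_mem _ _ (by
    simpa using prod_mem_pol Finset.univ fun l => ent_mem ρ i (emb s (σ l)) (emb t l))

instance pol_finite (d : ℕ) : FiniteDimensional ℂ (Pol ρ d) :=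
  Module.Finite.iff_fg.2 ((Submodule.fg_span (Set.finite_range _)).pow d)

omit [Fintype I] in
lemma pol_comp {Δ : Type*} [Group Δ] {J : Type} {M : J → ℕ}
    {τ : ∀ i, Δ →* Matrix (Fin (M i)) (Fin (M i)) ℂ} (f : Δ → Γ) {e : ℕ}
    (h : ∀ φ ∈ Ent ρ, φ ∘ f ∈ Pol τ e) (d : ℕ) : ∀ φ ∈ Pol ρ d, φ ∘ f ∈ Pol τ (d * e) := by
  intro φ hφ
  induction hφ using Submodule.pow_induction_on_left' with
  | algebraMap c => 
    rw [Algebra.algebraMap_eq_smul_one]
    exact Submodule.smul_mem _ c (one_mem_pol _)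
  | add x y i _ _ h1 h2 => exact add_mem h1 h2
  | mem_mul m hm i x _ h1 =>
    rw [Nat.succ_mul, add_comm]
    refine mul_mem_pol (φ := m ∘ f) ?_ h1
    induction hm using Submodule.span_induction with
    | mem x hx => exact h x hx
    | zero => exact zero_mem _
    | add x y _ _ h1 h2 => exact add_mem h1 h2
    | smul c x _ h1 => exact Submodule.smul_mem _ c h1

omit [Fintype I] in
lemma pol_right {d : ℕ} {φ : Γ → ℂ} (h : φ ∈ Pol ρ d) (s : Γ) : (fun x => φ (x * s)) ∈ Pol ρ d := by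
  have := pol_comp (τ := ρ) (e := 1) (fun x => x * s) ?_ d φ h
  · rwa [mul_one] at this
  rintro _ ⟨_ | ⟨i, _ | _, a, b⟩, rfl⟩
  · exact one_mem_pol 1
  · convert sum_mem (t := Finset.univ) fun c _ => (Pol ρ 1).smul_mem (ρ i s⁻¹ a c) (ent_mem' ρ i c b)
    funext x
    simp [Matrix.mul_apply]
  · convert sum_mem (t := Finset.univ) fun c _ => (Pol ρ 1).smul_mem (ρ i s c b) (ent_mem ρ i a c)
    funext x
    simp [Matrix.mul_apply, mul_comm]

theorem mi_core (hN : ∀ i, 0 < N i) (hdet : ∀ i γ, (ρ i γ).det = 1)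
    (hK : ((⨅ i, (ρ i).ker : Subgroup Γ) : Set Γ).Finite)
    (hTr : ∀ i, ∀ j ≤ N i, ∀ a ∈ Submodule.span ℂ (Set.range ((cpdHom j (N i)).comp (ρ i))),
      (∀ γ, (a * cpd j (ρ i γ)).trace = 0) → a = 0)
    (hirr : ∀ i, Submodule.span ℂ (Set.range (ρ i)) = ⊤)
    (hsimp : ∀ i, ∀ M : Subgroup Γ, M.Normal →
      Submodule.span ℂ (ρ i '' M) = ⊤ ∨ ∀ γ ∈ M, ∃ c : ℂ, ρ i γ = c • 1)
    (hdom : ∀ d, ∀ φ ∈ Pol ρ d, ∀ ψ ∈ Pol ρ d, φ * ψ = 0 → φ = 0 ∨ ψ = 0) :
    ∃ c K e : ℕ, ∀ S : Finset Γ, Subgroup.closure (S : Set Γ) = ⊤ → MI' Γ c K e S := by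
  classical
  by_cases hfg : ∃ S : Finset Γ, Subgroup.closure (S : Set Γ) = ⊤
  swap
  · exact ⟨0, 0, 0, fun S hS => (hfg ⟨S, hS⟩).elim⟩
  obtain ⟨S1, hS1⟩ := hfg
  have hpl : ∀ i, ∃ E : Set ℂ, E.Finite ∧
      {x | ∃ γ l, (ρ i γ).charpoly.coeff l = x} ⊆ Subring.closure E := fun i => by
    let E := (fun x : Γ × Fin (N i) × Fin (N i) => ρ i x.1 x.2.1 x.2.2) '' (ball S1 1 ×ˢ Set.univ)
    have h1 : ∀ r, ∀ γ ∈ ball S1 r, ∀ a b, ρ i γ a b ∈ Subring.closure E :=
      ball_induction (fun _ γ => ∀ a b, ρ i γ a b ∈ Subring.closure E)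
        (fun a b => Subring.subset_closure ⟨(1, a, b), ⟨one_mem_ball _ _, trivial⟩, rfl⟩)
        (fun _ _ h => h) fun _ g x hg hx a b => by
          rw [map_mul, Matrix.mul_apply]
          exact sum_mem fun c _ => mul_mem (hg a c)
            (Subring.subset_closure ⟨(x, c, b), ⟨letter_mem_ball hx, trivial⟩, rfl⟩)
    refine ⟨E, ((ball_finite S1 1).prod Set.finite_univ).image _, ?_⟩
    rintro _ ⟨γ, l, rfl⟩
    obtain ⟨r, hr⟩ := exists_mem_ball hS1 γ
    by_cases hl : l ≤ N i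
    · have h2 : (cpd (N i - l) (ρ i γ)).trace ∈ Subring.closure E :=
        sum_mem fun s _ => det_mem _ fun a b => h1 r γ hr _ _
      rw [trace_cpd _ (Nat.sub_le _ _), Nat.sub_sub_self hl] at h2
      have h3 := mul_mem (pow_mem (neg_mem (one_mem (Subring.closure E))) (N i - l)) h2
      simpa [← mul_assoc, ← mul_pow] using h3
    · rw [Polynomial.coeff_eq_zero_of_natDegree_lt (by simpa using hl)]
      exact zero_mem _
  choose E E1 E2 using hpl
  choose V V1 P R c0 P1 P2 P3 using fun i => exists_places (E1 i) (E2 i) (4 ^ N i)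
  let D := ∑ i, N i + 2
  have hD : ∀ i, N i ≤ D := fun i =>
    (Finset.single_le_sum (fun _ _ => Nat.zero_le _) (Finset.mem_univ i)).trans (Nat.le_add_right _ _)
  let J := ∑ i, (Fintype.card (V i) * ((N i + 1) * 2 ^ N i) + N i * N i + (N i + 1) * 2 ^ N i)
  have hJ : ∀ i, Fintype.card (V i) * ((N i + 1) * 2 ^ N i) + N i * N i + (N i + 1) * 2 ^ N i ≤ J :=
    fun i => Finset.single_le_sum (f := fun i => Fintype.card (V i) * ((N i + 1) * 2 ^ N i) +
      N i * N i + (N i + 1) * 2 ^ N i) (fun _ _ => Nat.zero_le _) (Finset.mem_univ i)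
  let J0 := Fintype.card I * J + 1
  let m := Module.finrank ℂ (Pol ρ (J0 * D))
  choose c κ hg using fun i => exists_gad (P1 i) (hN i) (ρ i) (hdet i)
    (fun γ l => P2 i ⟨γ, l, rfl⟩) (hTr i) (hirr i) (hsimp i)
    ((P3 i).imp_right fun ⟨k0, ⟨_, ⟨γ, l, rfl⟩, h1⟩, h2⟩ => ⟨k0, ⟨γ, l, h1⟩, h2⟩) (Pol ρ D)
    (fun j hj s t => pol_mono (hj.trans (hD i)) (cpd_mem_pol i j s t))
    (fun a b c d => pol_mono (by omega) (mul_mem_pol (ent_mem ρ i a b) (ent_mem' ρ i c d)))
    (fun a b => pol_mono (by omega) (ent_mem ρ i a b)) m m J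
    (le_trans (Nat.le_add_right _ _) (hJ i))
  obtain ⟨c1, K, e, h⟩ := mi_of_gad _ hK J m m (fun n => ∑ i, c i n) fun n => ∑ i, κ i n
  refine ⟨c1, K, e, fun S hS => ?_⟩
  obtain ⟨w, w1, w2⟩ := escape (Pol ρ (J0 * D)) (fun φ h s => pol_right h s) S hS
  let Thin : Set Γ → Prop := fun Z => ∃ φ ∈ Pol ρ D, φ ≠ 0 ∧ ∀ f ∈ Z, φ f = 0
  have hNC : ∀ J' ≤ J0, NC Thin (Set.range w) J' := by
    intro J' hJ' ι _ hι Z hZ
    choose φ h1 h2 h3 using hZ
    have h4 : ∀ s : Finset ι, ∏ i ∈ s, φ i ≠ 0 := fun s => by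
      induction s using Finset.induction_on with
      | empty => simp
      | insert a s ha ih =>
        rw [Finset.prod_insert ha]
        exact fun h => (hdom (D + s.card * D) _ (pol_mono (by omega) (h1 a)) _
          (pol_mono (by omega) (prod_mem_pol s h1)) h).elim (h2 a) ih
    by_contra hc
    push Not at hc
    refine h4 Finset.univ (w2 _ (pol_mono (Nat.mul_le_mul_right _ (hι.trans hJ'))
      (prod_mem_pol Finset.univ h1)) fun t => ?_)
    obtain ⟨i, hi⟩ := hc _ ⟨t, rfl⟩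
    rw [Finset.prod_apply]
    exact Finset.prod_eq_zero (Finset.mem_univ i) (h3 i _ hi)
  refine h S w Thin w1 (hNC _ le_rfl) fun i => ?_
  have hI : 0 < Fintype.card I := Fintype.card_pos_iff.2 ⟨i⟩
  obtain ⟨G⟩ := hg i S w Thin hS w1 
    (hNC _ (((Nat.le_add_left _ _).trans (hJ i)).trans
      ((Nat.le_mul_of_pos_left _ hI).trans (Nat.le_succ _))))
    ⟨1, one_mem_pol _, one_ne_zero, by simp⟩
    (fun Z Z' h ⟨φ, h1, h2, h3⟩ => ⟨φ, h1, h2, fun f hf => h3 f (h hf)⟩)
    fun Z hZ φ h1 h2 => by_contra fun h3 => hZ ⟨φ, h1, h3, h2⟩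
  refine ⟨{ G with kill := fun n => ?_ }⟩
  exact (G.kill n).mono le_rfl
    (Finset.single_le_sum (f := fun i => c i n) (fun _ _ => Nat.zero_le _) (Finset.mem_univ i))
    (Finset.single_le_sum (f := fun i => κ i n) (fun _ _ => Nat.zero_le _) (Finset.mem_univ i))
    fun _ h => h

theorem wo_core {Γ' : Type*} [Group Γ'] (Γ : Subgroup Γ') [Γ.FiniteIndex]
    {ρ : ∀ i, Γ →* Matrix (Fin (N i)) (Fin (N i)) ℂ}
    (hK : ((⨅ i, (ρ i).ker : Subgroup Γ) : Set Γ).Finite) {c K e : ℕ}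
    (h : ∀ S : Finset Γ, Subgroup.closure (S : Set Γ) = ⊤ → MI' Γ c K e S) :
    ∀ A ⊆ growthSet Γ', A.Nonempty → ∃ a, IsLeast A a := by
  classical
  let π : Γ →* Matrix (Σ i, Fin (N i)) (Σ i, Fin (N i)) ℂ :=
    (Matrix.blockDiagonal'RingHom (fun i => Fin (N i)) ℂ).toMonoidHom.comp (MonoidHom.pi ρ)
  refine wo_of_virt Γ π (hK.subset fun x hx => ?_) h
  simp only [SetLike.mem_coe, Subgroup.mem_iInf, MonoidHom.mem_ker]
  have : blockDiagonal' (fun i => ρ i x) = blockDiagonal' 1 := by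
    rw [blockDiagonal'_one]; exact hx
  exact fun i => congrFun (blockDiagonal'_injective this) i

end Pool.Agent.MP_646035_al.H43

end

-- part MP_646035_al.H43.Borel
section

/-!
Polynomial functions on groups, recurrence and the density theorem.
-/

namespace Pool.Agent.MP_646035_al.H43

open Matrix Filter Topology MeasureTheory
open scoped Pointwise

section

variable {G : Type*} [Group G] {I : Type} {N : I → ℕ}
  {ρ : ∀ i, G →* Matrix (Fin (N i)) (Fin (N i)) ℂ}

lemma pol_ind {P : (G → ℂ) → Prop} (h0 : ∀ φ ∈ Ent ρ, P φ) (hs : ∀ (c : ℂ) φ, P φ → P (c • φ))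
    (ha : ∀ φ ψ, P φ → P ψ → P (φ + ψ)) (hm : ∀ φ ψ, P φ → P ψ → P (φ * ψ)) {d : ℕ} {φ : G → ℂ}
    (hφ : φ ∈ Pol ρ d) : P φ := by
  have h1 : P 1 := h0 _ ⟨none, rfl⟩
  induction hφ using Submodule.pow_induction_on_left' with
  | algebraMap c => rw [Algebra.algebraMap_eq_smul_one]; exact hs _ _ h1
  | add x y i _ _ h1 h2 => exact ha _ _ h1 h2
  | mem_mul m hm' i x _ h2 =>
    refine hm _ _ ?_ h2
    induction hm' using Submodule.span_induction with
    | mem x hx => exact h0 x hx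
    | zero => simpa using hs 0 _ h1
    | add x y _ _ h1 h2 => exact ha _ _ h1 h2
    | smul c x _ h1 => exact hs _ _ h1

variable {Γ : Type*} [Group Γ] {f : Γ →* G}

lemma pol_restrict {d : ℕ} {φ : Γ → ℂ} (h : φ ∈ Pol (fun i => (ρ i).comp f) d) :
    ∃ Φ ∈ Pol ρ d, Φ ∘ f = φ := by
  let F : (G → ℂ) →ₐ[ℂ] (Γ → ℂ) := AlgHom.pi fun γ => Pi.evalAlgHom ℂ _ (f γ)
  have : Pol (fun i => (ρ i).comp f) d = (Pol ρ d).map F.toLinearMap := by
    rw [Pol, Pol, Submodule.map_pow, Submodule.map_span, Ent, Ent, ← Set.range_comp]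
    congr 3
    funext x γ
    rcases x with _ | ⟨i, _ | _, a, b⟩ <;> simp [F]
  rw [this] at h
  exact h

lemma dens_mem {d : ℕ} (hd : ∀ φ ∈ Pol ρ d, (∀ γ, φ (f γ) = 0) → φ = 0) {p : Type} [Fintype p]
    (A : Submodule ℂ (Matrix p p ℂ)) (F : G → Matrix p p ℂ)
    (hF : ∀ a b, (fun g => F g a b) ∈ Pol ρ d) (h : ∀ γ, F (f γ) ∈ A) (g : G) : F g ∈ A := by
  classical
  by_contra hc
  obtain ⟨l, l1, l2⟩ := Submodule.exists_dual_map_eq_bot_of_notMem hc inferInstance
  have e : ∀ g, l (F g) = (∑ a, ∑ b, l (single a b 1) • fun g => F g a b) g := fun g => by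
    conv_lhs => rw [matrix_eq_sum_single (F g)]
    simp only [map_sum, Finset.sum_apply, Pi.smul_apply, smul_eq_mul]
    refine Finset.sum_congr rfl fun a _ => Finset.sum_congr rfl fun b _ => ?_
    rw [mul_comm, ← smul_eq_mul, ← map_smul, smul_single, smul_eq_mul, mul_one]
  refine l1 ?_
  rw [e, hd _ (sum_mem fun a _ => sum_mem fun b _ => Submodule.smul_mem _ _ (hF a b))
    fun γ => by rw [← e]; exact l2.le ⟨_, h γ, rfl⟩]
  rfl

lemma mat_mem {X p : Type*} [Fintype p] {W : Submodule ℂ (X → ℂ)} {F : X → Matrix p p ℂ}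
    (hF : ∀ a b, (fun x => F x a b) ∈ W) (T T' : Matrix p p ℂ) (a b : p) :
    (fun x => (T * F x * T') a b) ∈ W := by
  convert sum_mem (t := Finset.univ) fun c _ => sum_mem (t := Finset.univ) fun d _ =>
    W.smul_mem (T a d * T' c b) (hF d c)
  simp [mul_apply, Finset.sum_mul, mul_right_comm]

lemma pol_le_eig {a : G} (ha : ∀ i, ∃ (T T' : Matrix (Fin (N i)) (Fin (N i)) ℂ)
    (μ : Fin (N i) → ℝ), T * T' = 1 ∧ (∀ b, 0 < μ b) ∧
      ρ i a = T * diagonal (fun b => (μ b : ℂ)) * T') (d : ℕ) : Pol ρ d ≤ Submodule.span ℂ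
      {φ | φ ∈ Pol ρ d ∧ ∃ μ : ℝ, 0 < μ ∧ ∀ x, φ (x * a) = μ * φ x} := by
  let E : ℕ → Set (G → ℂ) := fun d => {φ | φ ∈ Pol ρ d ∧ ∃ μ : ℝ, 0 < μ ∧ ∀ x, φ (x * a) = μ * φ x}
  have h1 : Submodule.span ℂ (Ent ρ) ≤ Submodule.span ℂ (E 1) := by
    refine Submodule.span_le.2 ?_
    rintro _ ⟨_ | ⟨i, _ | _, b, c⟩, rfl⟩
    · exact Submodule.subset_span ⟨one_mem_pol 1, 1, one_pos, by simp⟩
    · obtain ⟨T, T', μ, t1, t2, t3⟩ := ha i
      have t4 : T' * ρ i a⁻¹ = diagonal (fun b => ((μ b)⁻¹ : ℂ)) * T' := by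
        have a1 : diagonal (fun b => ((μ b)⁻¹ : ℂ)) * diagonal (fun b => (μ b : ℂ)) = 1 := by
          rw [diagonal_mul_diagonal, ← diagonal_one]
          congr 1
          funext b
          exact inv_mul_cancel₀ (by exact_mod_cast (t2 b).ne')
        rw [← Matrix.mul_one (_ * T'), ← map_one (ρ i), ← mul_inv_cancel a, map_mul, t3]
        simp only [← Matrix.mul_assoc]
        rw [Matrix.mul_assoc _ T' T, mul_eq_one_comm.1 t1, Matrix.mul_one, a1, Matrix.one_mul]
      have := mat_mem (W := Submodule.span ℂ (E 1)) (F := fun x => T' * ρ i x⁻¹ * 1)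
        (fun l c => Submodule.subset_span ⟨mat_mem (ent_mem' ρ i) T' 1 l c, (μ l)⁻¹,
          inv_pos.2 (t2 l), fun x => by
            simp only [Matrix.mul_one]
            rw [_root_.mul_inv_rev, map_mul, ← Matrix.mul_assoc, t4, Matrix.mul_assoc, diagonal_mul]
            simp⟩) T 1 b c
      simpa [← Matrix.mul_assoc, t1] using this
    · obtain ⟨T, T', μ, t1, t2, t3⟩ := ha i
      have := mat_mem (W := Submodule.span ℂ (E 1)) (F := fun x => 1 * ρ i x * T)
        (fun b l => Submodule.subset_span ⟨mat_mem (ent_mem ρ i) 1 T b l, μ l, t2 l, fun x => by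
          simp only [Matrix.one_mul]
          rw [map_mul, t3, Matrix.mul_assoc, Matrix.mul_assoc, mul_eq_one_comm.1 t1, Matrix.mul_one,
            ← Matrix.mul_assoc, mul_diagonal, mul_comm]⟩) 1 T' b c
      simpa [Matrix.mul_assoc, t1] using this
  refine (pow_le_pow_left' h1 d).trans ?_
  rw [Submodule.span_pow]
  refine Submodule.span_mono ?_
  induction d with
  | zero => rintro _ rfl; exact ⟨one_mem_pol 0, 1, one_pos, by simp⟩
  | succ d ih =>
    rw [pow_succ]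
    rintro _ ⟨φ, h2, ψ, ⟨h3, ν, h4, h5⟩, rfl⟩
    obtain ⟨h6, μ, h7, h8⟩ := ih h2
    exact ⟨mul_mem_pol h6 h3, μ * ν, mul_pos h7 h4, fun x => by simp [h5, h8]; ring⟩

lemma pol_cont [TopologicalSpace G] [IsTopologicalGroup G] (hρ : ∀ i, Continuous (ρ i)) {d : ℕ}
    {φ : G → ℂ} (h : φ ∈ Pol ρ d) : Continuous φ := by
  refine pol_ind (P := Continuous) ?_ (fun c _ h => h.const_smul c) (fun _ _ => Continuous.add)
    (fun _ _ => Continuous.mul) h
  rintro _ ⟨_ | ⟨i, _ | _, a, b⟩, rfl⟩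
  exacts [continuous_const, ((hρ i).comp continuous_inv).matrix_elem a b, (hρ i).matrix_elem a b]

end

theorem borel_fun {G : Type} [Group G] [TopologicalSpace G] [IsTopologicalGroup G] {I : Type}
    [Fintype I] {N : I → ℕ} {ρ : ∀ i, G →* Matrix (Fin (N i)) (Fin (N i)) ℂ}
    (hρ : ∀ i, Continuous (ρ i)) {Γ : Type*} [Group Γ] (f : Γ →* G) {a : G}
    (ha : ∀ i, ∃ (T T' : Matrix (Fin (N i)) (Fin (N i)) ℂ) (μ : Fin (N i) → ℝ),
      T * T' = 1 ∧ (∀ b, 0 < μ b) ∧ ρ i a = T * diagonal (fun b => (μ b : ℂ)) * T')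
    (hrec : ∀ U ∈ 𝓝 (1 : G), ∀ k0 : ℕ, ∃ k ≥ k0, ∃ x ∈ U, ∃ y ∈ U, ∃ γ, a ^ k * x * f γ = y)
    {d : ℕ} {φ : G → ℂ} (h1 : φ ∈ Pol ρ d) (h2 : ∀ γ, φ (f γ) = 0) (γ : Γ) : φ (f γ * a) = 0 := by
  classical
  let R : G →* Module.End ℂ (Pol ρ d) :=
    { toFun := fun g => (LinearMap.funLeft ℂ ℂ (· * g)).restrict fun φ h => pol_right h g
      map_one' := by ext φ x; simp [LinearMap.funLeft_apply]
      map_mul' := fun g g' => by ext φ x; simp [LinearMap.funLeft_apply, mul_assoc] }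
  have hR : ∀ g φ x, (R g φ).1 x = φ.1 (x * g) := fun _ _ _ => rfl
  obtain ⟨s, s1, s2, s3⟩ := exists_linearIndependent ℂ
    {φ : Pol ρ d | ∃ μ : ℝ, 0 < μ ∧ R a φ = (μ : ℂ) • φ}
  have := s3.setFinite.fintype
  obtain ⟨b, hb⟩ : ∃ b : Module.Basis s ℂ (Pol ρ d), ∀ j, b j = j := ⟨Module.Basis.mk s3 (by
    rw [Subtype.range_coe, s2]
    rintro ⟨φ, h⟩ -
    refine (Submodule.apply_mem_span_image_iff_mem_span (Pol ρ d).injective_subtype).1
      (Submodule.span_mono ?_ (pol_le_eig ha d h))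
    rintro φ ⟨a1, μ, a2, a3⟩
    exact ⟨⟨φ, a1⟩, ⟨μ, a2, Subtype.ext (funext a3)⟩, rfl⟩), Module.Basis.mk_apply _ _⟩
  choose μ μ1 μ2 using fun i : s => s1 i.2
  let τ : G →* Matrix s s ℂ := (LinearMap.toMatrixAlgEquiv b).toAlgHom.toMonoidHom.comp R
  have hτ : ∀ g φ, τ g *ᵥ b.equivFun φ = b.equivFun (R g φ) := fun g φ =>
    LinearMap.toMatrix_mulVec_repr b b _ _
  let U : Submodule ℂ (s → ℂ) := (⨅ γ, LinearMap.ker ((LinearMap.proj (f γ)).comp
    (Pol ρ d).subtype)).map b.equivFun.toLinearMap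
  have hU : ∀ φ, b.equivFun φ ∈ U ↔ ∀ γ, φ.1 (f γ) = 0 := fun φ => by simp [U]
  refine (hU _).1 (hτ a ⟨φ, h1⟩ ▸ borel_mat τ (continuous_matrix fun i j => ?_) μ1 ?_ U
    (fun V hV k0 => ?_) _ ((hU _).2 h2)) γ
  · have : Continuous fun g => R g (b j) := continuous_induced_rng.2
      (continuous_pi fun x => (pol_cont hρ (b j).2).comp (continuous_const_mul x))
    exact ((b.coord i).continuous_of_finiteDimensional.comp this).congr
      fun g => (LinearMap.toMatrixAlgEquiv_apply b (R g) i j).symm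
  · ext i j
    refine (LinearMap.toMatrixAlgEquiv_apply b _ i j).trans ?_
    have : R a (b j) = (μ j : ℂ) • b j := by rw [hb]; exact μ2 j
    rw [this, map_smul, b.repr_self, diagonal_apply]
    by_cases h : i = j <;> simp [h]
  · obtain ⟨k, k1, x, hx, y, hy, γ, e⟩ := hrec V hV k0
    refine ⟨k, k1, x, hx, y, hy, f γ, fun v hv => ?_, e⟩
    obtain ⟨φ, rfl⟩ := b.equivFun.surjective v
    rw [hτ, hU]
    exact fun γ' => by rw [hR, ← map_mul]; exact (hU φ).1 hv _

theorem recurrence {G : Type*} [Group G] [TopologicalSpace G] [IsTopologicalGroup G]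
    [LindelofSpace G] (Γ : Subgroup G) [MeasurableSpace (G ⧸ Γ)] [BorelSpace (G ⧸ Γ)]
    (μ : Measure (G ⧸ Γ)) [IsFiniteMeasure μ] [SMulInvariantMeasure G (G ⧸ Γ) μ] (hμ : μ ≠ 0)
    (a : G) {U : Set G} (hU : U ∈ 𝓝 (1 : G)) (k0 : ℕ) :
    ∃ k ≥ k0, ∃ x ∈ U, ∃ y ∈ U, ∃ γ ∈ Γ, a ^ k * x * γ = y := by
  let O : Set (G ⧸ Γ) := (↑) '' interior U
  have h1 : IsOpen O := QuotientGroup.isOpenMap_coe _ isOpen_interior
  have h2 : μ O ≠ 0 := fun h => by
    obtain ⟨s, s1, s2⟩ := LindelofSpace.elim_nhds_subcover (fun g : G => g • interior U)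
      fun g => by simpa using smul_mem_nhds_smul g (interior_mem_nhds.2 hU)
    refine hμ (Measure.measure_univ_eq_zero.1 (measure_mono_null (t := ⋃ g ∈ s, g • O) ?_
      ((measure_biUnion_null_iff s1).2 fun g _ => by rwa [measure_smul])))
    rintro ⟨x⟩ -
    obtain ⟨g, g1, y, y1, rfl⟩ := Set.mem_iUnion₂.1 (s2.ge (Set.mem_univ x))
    exact Set.mem_iUnion₂.2 ⟨g, g1, y, ⟨y, y1, rfl⟩, rfl⟩
  obtain ⟨k, h3, k1⟩ := (((measurePreserving_smul a μ).conservative.frequently_measure_inter_ne_zero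
    h1.nullMeasurableSet h2).and_eventually (eventually_ge_atTop k0)).exists
  obtain ⟨_, ⟨x, hx, rfl⟩, y, hy, e⟩ := nonempty_of_measure_ne_zero h3
  rw [smul_iterate_apply] at e
  exact ⟨k, k1, x, interior_subset hx, y, interior_subset hy, _, QuotientGroup.eq.1 e.symm,
    mul_inv_cancel_left _ _⟩

end Pool.Agent.MP_646035_al.H43

end

-- part MP_646035_al.H43.Dens
section

/-!
Groups which are dense for the polynomial functions of the adjoint representation.
-/

set_option backward.isDefEq.respectTransparency false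

namespace Pool.Agent.MP_646035_al.H43

open Matrix Filter Topology NormedSpace
open scoped Matrix.Norms.Operator ComplexOrder

variable {n : Type} [Fintype n] [DecidableEq n] {G : Subgroup (Matrix n n ℂ)ˣ}

lemma adjoin_image {Γ A : Type*} [Group Γ] [Ring A] [Algebra ℂ A] (ρ : Γ →* A) (M : Subgroup Γ) :
    Subalgebra.toSubmodule (Algebra.adjoin ℂ (ρ '' M)) = Submodule.span ℂ (ρ '' M) := by
  rw [Algebra.adjoin_eq_span]
  exact congrArg (fun s : Submonoid A => Submodule.span ℂ (s : Set A))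
    (Submonoid.closure_eq (M.toSubmonoid.map ρ))

lemma Kn.path (hG : Kn G) (g : G) : ∃ c : ℝ → G, c 0 = 1 ∧ c 1 = g ∧
    AnalyticOnNhd ℝ (fun t => (c t).1.1) Set.univ ∧
      AnalyticOnNhd ℝ (fun t => ((c t).1⁻¹).1) Set.univ := by
  induction g using hG.induction with
  | h1 => exact ⟨fun _ => 1, rfl, rfl, analyticOnNhd_const, analyticOnNhd_const⟩
  | h2 X hX =>
    have h : ∀ X : Matrix n n ℂ, AnalyticOnNhd ℝ (fun t : ℝ => NormedSpace.exp (t • X)) Set.univ :=
      fun X t _ => (exp_analytic _).comp (analyticAt_id.smul analyticAt_const)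
    exact ⟨fun t => ⟨_, hX t⟩, by simp [ex_zero], by simp, h X, by simpa using h (-X)⟩
  | h3 a b h1 h2 =>
    obtain ⟨c, c1, c2, c3, c4⟩ := h1
    obtain ⟨d, d1, d2, d3, d4⟩ := h2
    exact ⟨fun t => c t * d t, by simp [c1, d1], by simp [c2, d2], c3.mul d3,
      by simpa only [Subgroup.coe_mul, _root_.mul_inv_rev, Units.val_mul] using d4.mul c4⟩

theorem wo_of_dense (hG : Kn G) {V : Submodule ℂ (Matrix n n ℂ)} (hV : Inv G V)
    (hVg : V ≤ Submodule.span ℂ (hG.g : Set (Matrix n n ℂ))) {Γ' : Type*} [Group Γ']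
    (Γ : Subgroup Γ') [Γ.FiniteIndex] (f : Γ →* G)
    (hK : {γ | ∀ X ∈ V, (f γ).1.1 * X * ((f γ).1⁻¹).1 = X}.Finite)
    (hd : ∀ (I : Type) [Fintype I] (N : I → ℕ) (U : I → Submodule ℂ (Matrix n n ℂ))
      (e : ∀ i, Fin (N i) → Matrix n n ℂ) (h : ∀ i, Onb (U i) (e i)) (hU : ∀ i, Inv G (U i)),
      (∀ i, U i ≤ V) → ∀ d, ∀ φ ∈ Pol (fun i => (h i).rho (hU i)) d, (∀ γ, φ (f γ) = 0) → φ = 0) :
    ∀ A ⊆ growthSet Γ', A.Nonempty → ∃ a, IsLeast A a := by
  classical
  obtain ⟨s, s1, s2⟩ := hG.exists_irr hV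
  choose N e e1 e2 e3 using fun i : s => exists_onb i.1
  have h : ∀ i : s, Onb i.1 (e i) := fun i => ⟨e1 i, e2 i, e3 i⟩
  have hI : ∀ i : s, Irr G i.1 := fun i => (s1 i i.2).2
  replace hd := hd s N _ e h (fun i => (hI i).2.1) fun i => (s1 i i.2).1
  set ρ := fun i : s => (h i).rho (hI i).2.1 with hρ
  have hK' : ((⨅ i, ((ρ i).comp f).ker : Subgroup Γ) : Set Γ).Finite := hK.subset fun γ hγ X hX => by
    simp only [SetLike.mem_coe, Subgroup.mem_iInf, MonoidHom.mem_ker] at hγ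
    have : s.sup id ≤ LinearMap.eqLocus (AdL (f γ)) 1 := Finset.sup_le fun U hU =>
      ((h ⟨U, hU⟩).rho_eq_one (hI ⟨U, hU⟩).2.1).1 (hγ ⟨U, hU⟩)
    exact this (s2 hX)
  have hA : ∀ i (M : Subgroup Γ), Algebra.adjoin ℂ ((ρ i).comp f '' M) = ⊤ →
      Submodule.span ℂ ((ρ i).comp f '' M) = ⊤ := fun i M h => by
    rw [← adjoin_image, h, Algebra.top_toSubmodule]
  refine (mi_core (ρ := fun i => (ρ i).comp f) (fun i => (h i).pos (hI i))
    (fun i γ => (h i).rho_det (hI i).2.1 hG _) hK' (fun i j _ a ha h1 => ?_) (fun i => ?_)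
    (fun i M hM => ?_) fun d φ h1 ψ h2 h3 => ?_).elim fun c ⟨K, k, hM⟩ => wo_core Γ hK' hM
  · let B := LinearMap.ker ((traceLinearMap _ ℂ ℂ).comp (LinearMap.mulLeft ℂ a))
    have h2 := dens_mem (hd j) B (fun g => cpd j (ρ i g)) (cpd_mem_pol i j) h1
    suffices aᴴ ∈ B from trace_mul_conjTranspose_self_eq_zero_iff.1 this
    clear_value B
    clear h1
    induction ha using Submodule.span_induction with
    | mem x hx =>
      obtain ⟨γ, rfl⟩ := hx
      have := h2 ⟨_, hG.adj _ (f γ).2⟩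
      have e4 : ∀ M : Matrix (Fin (N i)) (Fin (N i)) ℂ, cpd j Mᴴ = (cpd j M)ᴴ := fun M =>
        (cpd_map (starRingEnd ℂ) j Mᵀ).trans (by rw [cpd_transpose]; rfl)
      rwa [(h i).rho_star (hI i).2.1 hG, e4] at this
    | zero => simp
    | add x y _ _ h1 h2 => simpa using add_mem h1 h2
    | smul c x _ h1 => simpa using B.smul_mem (star c) h1
  · have := hA i ⊤ ((h i).eq_top (hI i).2.1 (hI i) _ (dens_mem (hd 1)
      (Subalgebra.toSubmodule (Algebra.adjoin ℂ ((ρ i).comp f '' (⊤ : Subgroup Γ)))) (ρ i) (ent_mem ρ i) fun γ => Algebra.subset_adjoin ⟨γ, trivial, rfl⟩))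
    rwa [Subgroup.coe_top, Set.image_univ] at this
  · refine or_iff_not_imp_right.2 fun h1 => hA i M ?_
    push Not at h1
    obtain ⟨m, m1, m2⟩ := h1
    refine (h i).simple (hI i).2.1 hG (hI i) ((s1 i i.2).1.trans hVg) _ (fun g a ha => ?_) (m := f m)
      (Algebra.subset_adjoin ⟨m, m1, rfl⟩) (Algebra.subset_adjoin ⟨m⁻¹, inv_mem m1, by simp [ρ]⟩)
      (by simpa using m2 1)
    refine dens_mem (hd 2) (Subalgebra.toSubmodule (Algebra.adjoin ℂ ((ρ i).comp f '' M)))
      (fun g => ρ i g * a * ρ i g⁻¹) (fun b c => ?_) (fun γ => ?_) g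
    · convert sum_mem (t := Finset.univ) fun x _ =>
        mul_mem_pol (mat_mem (ent_mem ρ i) 1 a b x) (ent_mem' ρ i x c)
      simp [mul_apply (N := ρ i _)]
    · rw [← Subalgebra.mem_toSubmodule] at ha
      rw [adjoin_image] at ha ⊢
      induction ha using Submodule.span_induction with
      | mem x hx =>
        obtain ⟨y, hy, rfl⟩ := hx
        exact Submodule.subset_span ⟨_, hM.conj_mem y hy γ, by simp⟩
      | zero => simp
      | add x y _ _ h1 h2 => simpa [mul_add, add_mul] using add_mem h1 h2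
      | smul c x _ h1 => simpa using Submodule.smul_mem _ c h1
  · obtain ⟨Φ, a1, rfl⟩ := pol_restrict h1
    obtain ⟨Ψ, a2, rfl⟩ := pol_restrict h2
    have a3 := hd _ _ (mul_mem_pol a1 a2) (congrFun h3)
    by_contra hc
    obtain ⟨g1, b1⟩ : ∃ g, Φ g ≠ 0 := not_forall.1 fun h => hc (Or.inl (funext fun _ => h _))
    obtain ⟨g2, b2⟩ : ∃ g, Ψ g ≠ 0 := not_forall.1 fun h => hc (Or.inr (funext fun _ => h _))
    obtain ⟨c, c1, c2, c3, c4⟩ := hG.path (g1⁻¹ * g2)
    have a4 : ∀ (A : Matrix n n ℂ) {x : ℝ → Matrix n n ℂ}, AnalyticOnNhd ℝ x Set.univ →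
        AnalyticOnNhd ℝ (fun t => (A * x t).trace) Set.univ := fun A x hx =>
      (LinearMap.toContinuousLinearMap (traceLinearMap n ℝ ℂ)).comp_analyticOnNhd
        (analyticOnNhd_const.mul hx)
    have a5 : ∀ φ ∈ Pol ρ d, AnalyticOnNhd ℝ (fun t => φ (g1 * c t)) Set.univ := fun φ hφ => by
      refine pol_ind (P := fun φ => AnalyticOnNhd ℝ (fun t => φ (g1 * c t)) Set.univ) ?_
        (fun _ _ h => analyticOnNhd_const.mul h) (fun _ _ => AnalyticOnNhd.add)
        (fun _ _ => AnalyticOnNhd.mul) hφ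
      have d1 : AnalyticOnNhd ℝ (fun t => (g1 * c t).1.1) Set.univ := analyticOnNhd_const.mul c3
      have d2 : AnalyticOnNhd ℝ (fun t => ((g1 * c t).1⁻¹).1) Set.univ := by
        simpa only [Subgroup.coe_mul, _root_.mul_inv_rev, Units.val_mul] using
          c4.mul analyticOnNhd_const
      rintro _ ⟨_ | ⟨i, _ | _, a, b⟩, rfl⟩
      exacts [analyticOnNhd_const, a4 _ ((d2.mul analyticOnNhd_const).mul d1),
        a4 _ ((d1.mul analyticOnNhd_const).mul d2)]
    rcases (a5 Φ a1).eq_zero_or_eq_zero_of_mul_eq_zero (a5 Ψ a2) (fun t _ => congrFun a3 _)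
      isPreconnected_univ with h | h
    exacts [b1 (by simpa [c1] using h 0 trivial), b2 (by simpa [c2] using h 1 trivial)]

theorem wo_of_zariski (hG : Kn G) {Γ' : Type*} [Group Γ'] (Γ : Subgroup Γ') [Γ.FiniteIndex]
    (f : Γ →* G) (hf : Finite f.ker) (hd : ∀ p : MvPolynomial (n × n) ℂ,
      (∀ γ, MvPolynomial.eval (fun x => (f γ).1.1 x.1 x.2) p = 0) →
        ∀ g : G, MvPolynomial.eval (fun x => g.1.1 x.1 x.2) p = 0) :
    ∀ A ⊆ growthSet Γ', A.Nonempty → ∃ a, IsLeast A a := by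
  refine wo_of_dense hG (fun g hg X hX => ?_) le_rfl Γ f ?_ fun I _ N U e h hU _ d φ h1 h2 => ?_
  · exact (Submodule.span_le (p := (Submodule.span ℂ _).comap (AdL g))).2
      (fun X hX => Submodule.subset_span (conj_mem_lie _ hg hX)) hX
  · have := hG.fin
    refine (Set.Finite.preimage' (f := f) (Set.toFinite (Subgroup.center G : Set G)) fun g _ => ?_).subset
      fun γ hγ => hG.central fun X hX => ?_
    · rcases (f ⁻¹' {g}).eq_empty_or_nonempty with h | ⟨x, hx⟩
      · simp [h]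
      · refine ((Set.toFinite (f.ker : Set Γ)).image (x * ·)).subset fun y hy => ⟨x⁻¹ * y, ?_, by simp⟩
        simp [show f y = g from hy, show f x = g from hx]
    · exact (Units.mul_inv_eq_iff_eq_mul _).1 (hγ X (Submodule.subset_span hX))
  obtain ⟨p, hp⟩ : ∃ p : MvPolynomial (n × n) ℂ, ∀ g : G,
      φ g = MvPolynomial.eval (fun x => g.1.1 x.1 x.2) p := by
    refine pol_ind (P := fun φ => ∃ p : MvPolynomial (n × n) ℂ, ∀ g : G,
      φ g = MvPolynomial.eval (fun x => g.1.1 x.1 x.2) p) ?_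
      (fun c _ ⟨p, hp⟩ => ⟨c • p, fun g => by simp [hp]⟩)
      (fun _ _ ⟨p, hp⟩ ⟨q, hq⟩ => ⟨p + q, fun g => by simp [hp, hq]⟩)
      (fun _ _ ⟨p, hp⟩ ⟨q, hq⟩ => ⟨p * q, fun g => by simp [hp, hq]⟩) h1
    have a1 : ∀ g : G, (g.1⁻¹).1 = g.1.1.adjugate := fun g => by
      have : g.1.1.det = 1 := hG.char_eq_one (detMonoidHom.comp ((Units.coeHom _).comp G.subtype))
        (Units.continuous_val.comp continuous_subtype_val).matrix_det g
      rw [Matrix.coe_units_inv, inv_def, this]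
      simp
    have a2 : ∀ (g : G) (A B : Matrix n n ℂ) (X Y : Matrix n n (MvPolynomial (n × n) ℂ)),
        MvPolynomial.eval (fun x => g.1.1 x.1 x.2)
          (A.map MvPolynomial.C * (X * B.map MvPolynomial.C * Y)).trace =
        (A * ((MvPolynomial.eval fun x => g.1.1 x.1 x.2).mapMatrix X * B *
          (MvPolynomial.eval fun x => g.1.1 x.1 x.2).mapMatrix Y)).trace := fun g A B X Y => by
      simp [trace, mul_apply]
    have a3 : ∀ g : G, (MvPolynomial.eval fun x => g.1.1 x.1 x.2).mapMatrix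
        (mvPolynomialX n n ℂ) = g.1.1 := fun g => mvPolynomialX_mapMatrix_eval _
    rintro _ ⟨_ | ⟨i, _ | _, a, b⟩, rfl⟩
    · exact ⟨1, by simp⟩
    · exact ⟨_, fun g => Eq.trans (by rw [RingHom.map_adjugate, a3, ← a1]; rfl)
        (a2 g (e i a)ᴴ (e i b) (mvPolynomialX n n ℂ).adjugate (mvPolynomialX n n ℂ)).symm⟩
    · exact ⟨_, fun g => Eq.trans (by rw [RingHom.map_adjugate, a3, ← a1]; rfl)
        (a2 g (e i a)ᴴ (e i b) (mvPolynomialX n n ℂ) (mvPolynomialX n n ℂ).adjugate).symm⟩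
  exact funext fun g => (hp g).trans (hd p (fun γ => (hp _).symm.trans (h2 γ)) g)

end Pool.Agent.MP_646035_al.H43

end
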