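import Pool.Agent.MP_646035_al.H43.Knapp
import Pool.Agent.MP_646035_al.H43.Cpd
import Pool.Agent.MP_646035_al.H43.Cur
import Pool.Agent.MP_646035_al.Growth

-- part MP_646035_al.H43.Adj
section

/-!
The irreducible pieces of the adjoint representation.
-/

set_option backward.isDefEq.respectTransparency false
set_option linter.unusedSectionVars false

namespace Pool.Agent.MP_646035_al.H43

open Matrix Filter Topology NormedSpace
open scoped Matrix.Norms.Operator

variable {n : Type} [Fintype n] [DecidableEq n] {G : Subgroup (Matrix n n ℂ)ˣ}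

lemma Kn.induction (hG : Kn G) {P : G → Prop} (h1 : P 1)
    (h2 : ∀ X (hX : X ∈ hG.g), P ⟨ex X, ex_mem _ hX⟩) (h3 : ∀ a b, P a → P b → P (a * b)) (g : G) :
    P g := by
  have e := closure_ex hG.closed hG.conn
  refine Subgroup.closure_induction'' (p := fun g hg => P ⟨g, e.le hg⟩) ?_ ?_ h1
    (fun a b _ _ => h3 ⟨a, _⟩ ⟨b, _⟩) (e.ge g.2)
  · rintro _ ⟨X, hX, rfl⟩; exact h2 X hX
  · rintro _ ⟨X, hX, rfl⟩; simpa using h2 (-X) (neg_mem hX)

omit [DecidableEq n] in
lemma perp_comm {X Y W : Matrix n n ℂ} (hW : W = X * Y - Y * X)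
    (h : ((W * Yᴴ - Yᴴ * W)ᴴ * X).trace.re = 0) : W = 0 := by
  refine eq_zero_of_re_trace ?_
  rw [trace_mul_comm, hW, trace_bracket, ← hW, trace_mul_comm]
  simpa using h

/-- Conjugation. -/
noncomputable def AdL (g : (Matrix n n ℂ)ˣ) : Module.End ℂ (Matrix n n ℂ) :=
  LinearMap.mulLeftRight ℂ (g.1, (g⁻¹).1)

@[simp] lemma AdL_apply (g : (Matrix n n ℂ)ˣ) (X : Matrix n n ℂ) :
    AdL g X = g.1 * X * (g⁻¹).1 := rfl

/-- The commutator. -/
noncomputable def adL : Matrix n n ℂ →ₗ[ℂ] Module.End ℂ (Matrix n n ℂ) :=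
  LinearMap.mul ℂ _ - (LinearMap.mul ℂ _).flip

@[simp] lemma adL_apply (X Y : Matrix n n ℂ) : adL X Y = X * Y - Y * X := rfl

variable {N : ℕ} {U : Submodule ℂ (Matrix n n ℂ)} {e : Fin N → Matrix n n ℂ}

variable (U e) in
/-- Orthonormal bases. -/
structure Onb : Prop where
  mem : ∀ a, e a ∈ U
  orth : ∀ a b, ((e a)ᴴ * e b).trace = (1 : Matrix (Fin N) (Fin N) ℂ) a b
  exp : ∀ X ∈ U, X = ∑ a, ((e a)ᴴ * X).trace • e a

variable (e) in
/-- The matrix of an endomorphism. -/
def adm : Module.End ℂ (Matrix n n ℂ) →ₗ[ℂ] Matrix (Fin N) (Fin N) ℂ where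
  toFun F := Matrix.of fun a b => ((e a)ᴴ * F (e b)).trace
  map_add' F F' := by ext a b; simp [mul_add]
  map_smul' c F := by ext a b; simp

lemma adm_apply (F : Module.End ℂ (Matrix n n ℂ)) (a b : Fin N) :
    adm e F a b = ((e a)ᴴ * F (e b)).trace := rfl

variable (h : Onb U e)
include h

lemma Onb.mul (F : Module.End ℂ (Matrix n n ℂ)) {F' : Module.End ℂ (Matrix n n ℂ)}
    (hF : ∀ X ∈ U, F' X ∈ U) : adm e (F * F') = adm e F * adm e F' := by
  ext a b
  rw [adm_apply, Module.End.mul_apply, h.exp _ (hF _ (h.mem b))]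
  simp [Matrix.mul_apply (M := adm e F), adm_apply, Finset.mul_sum, mul_comm]

lemma Onb.congr {F F' : Module.End ℂ (Matrix n n ℂ)} (hF : ∀ X ∈ U, F X = F' X) :
    adm e F = adm e F' := by
  ext a b; rw [adm_apply, hF _ (h.mem b), adm_apply]

lemma Onb.one : adm e 1 = 1 := Matrix.ext h.orth

lemma Onb.mulVec {F : Module.End ℂ (Matrix n n ℂ)} (hF : ∀ X ∈ U, F X ∈ U) (v : Fin N → ℂ) :
    Fintype.linearCombination ℂ e (adm e F *ᵥ v) = F (Fintype.linearCombination ℂ e v) := by
  simp only [Fintype.linearCombination_apply, map_sum, map_smul, Matrix.mulVec, dotProduct,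
    Finset.sum_smul]
  rw [Finset.sum_comm]
  refine Finset.sum_congr rfl fun b _ => ?_
  rw [h.exp _ (hF _ (h.mem b)), Finset.smul_sum]
  simp [adm_apply, smul_smul, mul_comm]

/-- The representation on an invariant subspace. -/
noncomputable def Onb.rho (hU : Inv G U) : G →* Matrix (Fin N) (Fin N) ℂ where
  toFun g := adm e (AdL g)
  map_one' := (h.congr fun X _ => by simp).trans h.one
  map_mul' a b := (h.congr fun X _ => by simp [mul_assoc]).trans (h.mul _ (hU b b.2))

variable (hU : Inv G U)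

lemma Onb.rho_apply (g : G) (a b : Fin N) :
    h.rho hU g a b = ((e a)ᴴ * (g.1.1 * e b * (g.1⁻¹).1)).trace := rfl

lemma Onb.rho_star (hG : Kn G) (g : G) : h.rho hU ⟨star g.1, hG.adj _ g.2⟩ = (h.rho hU g)ᴴ := by
  ext a b
  rw [conjTranspose_apply, h.rho_apply, h.rho_apply, trace_conj, star_star, ← trace_conjTranspose,
    conjTranspose_mul (e b)ᴴ, conjTranspose_conjTranspose]

lemma Onb.rho_cont : Continuous (h.rho hU) :=
  continuous_matrix fun _ _ => (continuous_const.matrix_mul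
    (((Units.continuous_val.comp continuous_subtype_val).matrix_mul continuous_const).matrix_mul
      (Units.continuous_coe_inv.comp continuous_subtype_val))).matrix_trace

lemma Onb.rho_det (hG : Kn G) (g : G) : (h.rho hU g).det = 1 :=
  hG.char_eq_one (detMonoidHom.comp (h.rho hU)) (h.rho_cont hU).matrix_det g

lemma Onb.rho_eq_one {g : G} : h.rho hU g = 1 ↔ ∀ X ∈ U, g.1.1 * X * (g.1⁻¹).1 = X := by
  refine ⟨fun h1 X hX => ?_, fun h1 => (h.congr h1).trans h.one⟩
  have := h.mulVec (F := AdL g) (hU g g.2) fun a => ((e a)ᴴ * X).trace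
  rw [show adm e (AdL g) = 1 from h1, one_mulVec, Fintype.linearCombination_apply,
    ← h.exp X hX] at this
  exact this.symm

lemma Onb.rho_ex (hG : Kn G) {X : Matrix n n ℂ} (hX : X ∈ hG.g) (t : ℝ) :
    h.rho hU ⟨ex (t • X), hX t⟩ = NormedSpace.exp (t • adm e (adL X)) := by
  refine one_param (c := fun t => h.rho hU ⟨ex (t • X), hX t⟩) ?_ (fun s t => ?_) ?_ t
  · rw [← map_one (h.rho hU)]; congr 1; simp [ex_zero]
  · rw [← map_mul]; congr 1
    refine Subtype.ext (Units.ext ?_)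
    simp only [add_smul, ex_val, Subgroup.coe_mul, Units.val_mul]
    exact Matrix.exp_add_of_commute _ _ (((Commute.refl X).smul_left s).smul_right t)
  · refine hasDerivAt_pi.2 fun a => hasDerivAt_pi.2 fun b => ?_
    let φ : Matrix n n ℂ →L[ℝ] ℂ := LinearMap.toContinuousLinearMap
      ((traceLinearMap n ℝ ℂ).comp (LinearMap.mulLeft ℝ (e a)ᴴ))
    simpa [φ, h.rho_apply, adm_apply, Function.comp_def] using
      φ.hasFDerivAt.comp_hasDerivAt 0 (hasDerivAt_conj X (e b))

lemma Onb.pos (hI : Irr G U) : 0 < N := by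
  rcases N.eq_zero_or_pos with rfl | h1
  · exact (hI.1 (bot_unique fun X hX => by simpa using h.exp X hX)).elim
  · exact h1

lemma Onb.eq_top (hI : Irr G U) (A : Subalgebra ℂ (Matrix (Fin N) (Fin N) ℂ))
    (hA : ∀ g, h.rho hU g ∈ A) : A = ⊤ := by
  have : Nonempty (Fin N) := ⟨⟨0, h.pos hI⟩⟩
  have h1 : ∀ v a, ((e a)ᴴ * Fintype.linearCombination ℂ e v).trace = v a := fun v a => by
    simp [Fintype.linearCombination_apply, Finset.mul_sum, h.orth, Matrix.one_apply]
  have h0 : ∀ v, Fintype.linearCombination ℂ e v ∈ U := fun v => by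
    rw [Fintype.linearCombination_apply]
    exact sum_mem fun a _ => U.smul_mem _ (h.mem a)
  refine burnside A fun W hW => (hI.2.2 (W.map (Fintype.linearCombination ℂ e)) ?_ ?_).imp
    (fun h2 => bot_unique fun v hv => funext fun a => ?_) fun h2 => top_unique fun v _ => ?_
  · rintro _ ⟨v, -, rfl⟩
    exact h0 v
  · rintro g hg _ ⟨v, hv, rfl⟩
    exact ⟨_, hW _ (hA ⟨g, hg⟩) v hv, h.mulVec (F := AdL g) (hU g hg) v⟩
  · rw [← h1 v a, show Fintype.linearCombination ℂ e v = 0 from h2.le ⟨v, hv, rfl⟩]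
    simp
  · obtain ⟨w, h3, h4⟩ := h2.ge (h0 v)
    rwa [show v = w from funext fun a => by rw [← h1 v a, ← h4, h1]]

lemma Onb.simple (hG : Kn G) (hI : Irr G U)
    (hg : U ≤ Submodule.span ℂ (hG.g : Set (Matrix n n ℂ)))
    (A : Subalgebra ℂ (Matrix (Fin N) (Fin N) ℂ))
    (hA : ∀ g, ∀ a ∈ A, h.rho hU g * a * h.rho hU g⁻¹ ∈ A) {m : G} (h1 : h.rho hU m ∈ A)
    (h2 : h.rho hU m⁻¹ ∈ A) (h3 : h.rho hU m ≠ 1) : A = ⊤ := by
  have e1 : ∀ (g : G), ∀ X ∈ Submodule.span ℂ (hG.g : Set (Matrix n n ℂ)),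
      adm e (adL (AdL g X)) = h.rho hU g * adm e (adL X) * h.rho hU g⁻¹ := fun g X hX => by
    refine Eq.trans (h.congr fun Y _ => ?_) ((h.mul _ (hU _ (g⁻¹).2)).trans
      (congrArg (· * _) (h.mul (AdL g) fun Y hY => hU.bracket hX hY)))
    simp [mul_sub, sub_mul, mul_assoc]
  let W := U ⊓ (Subalgebra.toSubmodule A).comap (adm e ∘ₗ adL)
  have s1 : Submodule.span ℂ (hG.g : Set (Matrix n n ℂ)) ≤
      (Subalgebra.toSubmodule A).comap (adm e ∘ₗ adL ∘ₗ (1 - AdL m)) := by
    refine Submodule.span_le.2 fun X hX => ?_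
    have a1 := (hasDerivAt_conj (adm e (adL X)) (h.rho hU m)).mul_const (h.rho hU m⁻¹)
    have a2 := deriv_mem ((Subalgebra.toSubmodule A).restrictScalars ℝ) (fun t => by
      have := mul_mem (hA ⟨_, hX t⟩ _ h1) h2
      rwa [show (⟨_, hX t⟩ : G)⁻¹ = ⟨_, hX (-t)⟩ from Subtype.ext (by simp), h.rho_ex hU hG hX,
        h.rho_ex hU hG hX, neg_smul] at this) a1
    rw [sub_mul, mul_assoc, ← map_mul, mul_inv_cancel, map_one, mul_one,
      ← e1 m X (Submodule.subset_span hX), ← map_sub, ← map_sub] at a2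
    exact a2
  have s2 : W = U := by
    refine (hI.2.2 W inf_le_left fun g hg' X hX => ⟨hU g hg' X hX.1, ?_⟩).resolve_left fun h4 => ?_
    · have := hA ⟨g, hg'⟩ (adm e (adL X)) hX.2
      rwa [← e1 ⟨g, hg'⟩ X (hg hX.1)] at this
    · refine h3 ((h.rho_eq_one hU).2 fun X hX => (sub_eq_zero.1 ?_).symm)
      exact h4.le ⟨sub_mem hX (hU m m.2 X hX), s1 (hg hX)⟩
  refine h.eq_top hU hI A (hG.induction (by simp) (fun X hX => ?_)
    fun a b a1 a2 => by rw [map_mul]; exact mul_mem a1 a2)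
  obtain ⟨Y, y1, y2⟩ := exists_perp (U.restrictScalars ℝ) X
  have a1 : adm e (adL X) = adm e (adL Y) := h.congr fun Z hZ => by
    have := perp_comm (X := X - Y) (Y := Z) rfl (y2 _ (by
      simpa using neg_mem (hU.bracket (hG.span_star (hg hZ)) (hU.bracket
        (sub_mem (Submodule.subset_span hX) (hg y1)) hZ))))
    rw [← sub_eq_zero, ← this]
    simp only [adL_apply]
    noncomm_ring
  have a2 := h.rho_ex hU hG hX 1
  simp only [one_smul] at a2
  rw [a2, a1]
  exact exp_mem (R := ℂ) (s := A) (Subalgebra.toSubmodule A).closed_of_finiteDimensional (s2.ge y1).2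

end Pool.Agent.MP_646035_al.H43

end

-- part MP_646035_al.H43.Idem
section

/-!
Central idempotents of a matrix algebra with nondegenerate trace form and the Casimir identity;
eigenvalue lemmas.
-/

namespace Pool.Agent.MP_646035_al.H43

open Matrix Finset Polynomial

section idem

variable {L : Type*} [Field L] {D : Type*} [Fintype D] [DecidableEq D]

lemma trace_idem_nat {M : Type*} [AddCommGroup M] [Module L M] [FiniteDimensional L M]
    (f : M →ₗ[L] M) (hf : f * f = f) (h0 : f ≠ 0) :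
    ∃ q : ℕ, 1 ≤ q ∧ q ≤ Module.finrank L M ∧ LinearMap.trace L M f = q := by
  refine ⟨Module.finrank L (LinearMap.range f), ?_, Submodule.finrank_le _,
    (LinearMap.IsIdempotentElem.isProj_range f hf).trace⟩
  rw [Nat.one_le_iff_ne_zero, Ne, Submodule.finrank_eq_zero, LinearMap.range_eq_bot]
  exact h0

lemma exists_idem_comm (L Z : Type*) [Field L] [IsAlgClosed L] [CommRing Z] [Algebra L Z]
    [Module.Finite L Z] [IsReduced Z] : ∃ (n : ℕ) (ε : Fin n → Z), ∑ l, ε l = 1 ∧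
      ∀ l, ε l ≠ 0 ∧ ε l * ε l = ε l ∧ ∀ z, ∃ c : L, ε l * z = c • ε l := by
  classical
  have : IsArtinianRing Z := IsArtinianRing.of_finite L Z
  let _ : Fintype (MaximalSpectrum Z) := Fintype.ofFinite _
  let φ := IsArtinianRing.equivPi Z
  let ε : MaximalSpectrum Z → Z := fun m => φ.symm (Pi.single m 1)
  let ι := Fintype.equivFin (MaximalSpectrum Z)
  refine ⟨_, fun l => ε (ι.symm l), ?_, fun l => ⟨?_, ?_, ?_⟩⟩
  · rw [Equiv.sum_comp ι.symm ε]
    simp only [ε]
    rw [← map_sum, Finset.univ_sum_single, ← map_one φ.symm]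
    rfl
  · intro h1
    have h2 := congrFun (congrArg φ h1) (ι.symm l)
    have := (ι.symm l).isMaximal
    simp [ε] at h2
  · simp only [ε]
    rw [← map_mul, ← Pi.single_mul, one_mul]
  · intro z
    beta_reduce
    generalize ι.symm l = m
    have := m.isMaximal
    obtain ⟨c, hc⟩ := (IsAlgClosed.algebraMap_bijective_of_isIntegral (k := L)
      (K := Z ⧸ m.asIdeal)).2 (Ideal.Quotient.mk _ z)
    refine ⟨c, ?_⟩
    rw [Algebra.smul_def, mul_comm (algebraMap L Z c)]
    apply φ.injective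
    simp only [ε, map_mul, AlgEquiv.apply_symm_apply]
    funext m'
    by_cases h : m' = m
    · subst h
      simp only [Pi.mul_apply, Pi.single_eq_same, one_mul]
      exact hc.symm
    · simp [Pi.single_eq_of_ne h]

lemma exists_central_idem [IsAlgClosed L] (A : Subalgebra L (Matrix D D L))
    (hA : ∀ a ∈ A, (∀ b ∈ A, (a * b).trace = 0) → a = 0) :
    ∃ (n : ℕ) (e : Fin n → Matrix D D L), ∑ l, e l = 1 ∧ ∀ l, e l ∈ A ∧ e l ≠ 0 ∧
      e l * e l = e l ∧ (∀ a ∈ A, e l * a = a * e l) ∧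
      ∀ z ∈ A, (∀ a ∈ A, z * a = a * z) → ∃ c : L, e l * z = c • e l := by
  classical
  let Z := Subalgebra.center L A
  have hZ : ∀ z : Z, ∀ a ∈ A, (z : Matrix D D L) * a = a * z := fun z a ha =>
    (congrArg Subtype.val (Subalgebra.mem_center_iff.1 z.2 ⟨a, ha⟩)).symm
  have : IsReduced Z := ⟨fun z hz => by
    have h1 : IsNilpotent ((z : A) : Matrix D D L) := (hz.map Z.val).map A.val
    have h2 := hA _ (z : A).2 fun b hb =>
      (Matrix.isNilpotent_trace_of_isNilpotent
        ((show Commute _ b from hZ z b hb).isNilpotent_mul_right h1)).eq_zero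
    exact Subtype.ext (Subtype.ext h2)⟩
  obtain ⟨n, ε, h1, h2⟩ := exists_idem_comm L Z
  refine ⟨n, fun l => ε l, ?_, fun l => ⟨(ε _ : A).2, ?_, ?_, hZ _, ?_⟩⟩
  · simpa using congrArg (fun z : Z => ((z : A) : Matrix D D L)) h1
  · exact fun h => (h2 l).1 (Subtype.ext (Subtype.ext h))
  · exact congrArg (fun z : Z => ((z : A) : Matrix D D L)) (h2 l).2.1
  · intro z hz hz'
    obtain ⟨c, hc⟩ := (h2 l).2.2
      ⟨⟨z, hz⟩, Subalgebra.mem_center_iff.2 fun a => Subtype.ext (hz' a a.2).symm⟩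
    exact ⟨c, congrArg (fun z : Z => ((z : A) : Matrix D D L)) hc⟩

variable {A : Subalgebra L (Matrix D D L)} {I : Type*} [Fintype I] {b b' : I → Matrix D D L}

lemma frame_nondeg (hb' : ∀ i, b' i ∈ A) (hfr : ∀ a ∈ A, a = ∑ i, (a * b' i).trace • b i) :
    ∀ a ∈ A, (∀ c ∈ A, (a * c).trace = 0) → a = 0 := by
  intro a ha h
  rw [hfr a ha]
  simp [fun i => h _ (hb' i)]

lemma frame_dual (hb' : ∀ i, b' i ∈ A)
    (hfr : ∀ a ∈ A, a = ∑ i, (a * b' i).trace • b i) :
    ∀ a ∈ A, a = ∑ i, (a * b i).trace • b' i := by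
  intro a ha
  rw [← sub_eq_zero]
  refine frame_nondeg hb' hfr _ (sub_mem ha (sum_mem fun i _ => A.smul_mem (hb' i) _)) ?_
  intro c hc
  rw [sub_mul, trace_sub, sub_eq_zero]
  conv_lhs => rw [hfr c hc]
  simp only [Finset.mul_sum, Finset.sum_mul, trace_sum, Matrix.mul_smul, Matrix.smul_mul,
    trace_smul, smul_eq_mul]
  exact Finset.sum_congr rfl fun i _ => by rw [trace_mul_comm c, mul_comm]

lemma casimir_central (hb : ∀ i, b i ∈ A) (hb' : ∀ i, b' i ∈ A)
    (hfr : ∀ a ∈ A, a = ∑ i, (a * b' i).trace • b i) (z : Matrix D D L) :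
    ∀ a ∈ A, (∑ i, b i * z * b' i) * a = a * ∑ i, b i * z * b' i := by
  intro a ha
  have h1 : ∀ i, b i * z * b' i * a = ∑ j, (b' i * a * b j).trace • (b i * z * b' j) := by
    intro i
    rw [mul_assoc]
    conv_lhs => rw [frame_dual hb' hfr _ (mul_mem (hb' i) ha)]
    simp [Finset.mul_sum]
  have h2 : ∀ j, a * (b j * z * b' j) = ∑ i, (b' i * a * b j).trace • (b i * z * b' j) := by
    intro j
    rw [← mul_assoc, ← mul_assoc]
    conv_lhs => rw [hfr _ (mul_mem ha (hb j))]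
    simp only [Finset.sum_mul, Matrix.smul_mul]
    exact Finset.sum_congr rfl fun i _ => by rw [trace_mul_comm, mul_assoc (b' i)]
  rw [Finset.sum_mul, Finset.mul_sum]
  simp only [h1, h2]
  exact Finset.sum_comm

theorem exists_idem [IsAlgClosed L] [CharZero L] (hb : ∀ i, b i ∈ A) (hb' : ∀ i, b' i ∈ A)
    (hfr : ∀ a ∈ A, a = ∑ i, (a * b' i).trace • b i) :
    ∃ (n : ℕ) (e : Fin n → Matrix D D L), n ≤ Fintype.card D ∧ ∑ l, e l = 1 ∧
      ∀ l, e l ∈ A ∧ e l ≠ 0 ∧ e l * e l = e l ∧ (∀ a ∈ A, e l * a = a * e l) ∧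
      ∃ p q : ℕ, 1 ≤ p ∧ p ≤ Fintype.card D * Fintype.card D ∧ q ≤ Fintype.card D ∧
        ∀ z ∈ A, ((p : L) * (e l * z).trace) • e l =
          (q : L) ^ 2 • ∑ i, e l * (b i * z * b' i) := by
  obtain ⟨n, e, hsum, he⟩ := exists_central_idem A (frame_nondeg hb' hfr)
  have hq : ∀ l, ∃ q : ℕ, 1 ≤ q ∧ q ≤ Fintype.card D ∧ (e l).trace = q := by
    intro l
    obtain ⟨-, h0, h1, -⟩ := he l
    obtain ⟨q, q1, q2, q3⟩ := trace_idem_nat (Matrix.toLin' (e l))
      (by rw [Module.End.mul_eq_comp, ← Matrix.toLin'_mul, h1]) (by simpa using h0)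
    exact ⟨q, q1, by simpa using q2, by simpa using q3⟩
  choose q q1 q2 q3 using hq
  refine ⟨n, e, ?_, hsum, fun l => ?_⟩
  · have h1 := congrArg trace hsum
    simp only [trace_sum, q3, trace_one] at h1
    have h2 : ∑ l, q l = Fintype.card D := by exact_mod_cast h1
    rw [← h2]
    simpa using Finset.sum_le_sum (s := Finset.univ) fun l _ => q1 l
  obtain ⟨hA, h0, h1, h2, h3⟩ := he l
  let me : A →ₗ[L] A := LinearMap.mulLeft L ⟨e l, hA⟩
  obtain ⟨p, p1, p2, p3⟩ := trace_idem_nat me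
    (by ext a : 1; apply Subtype.ext; simp [me, ← mul_assoc, h1])
    (fun h => h0 (by simpa [me, Subtype.ext_iff] using LinearMap.congr_fun h 1))
  have p4 : ∑ i, (e l * (b' i * b i)).trace = p := by
    let φ : I → A →ₗ[L] L := fun i => (Matrix.traceLinearMap D L L) ∘ₗ
      (LinearMap.mulRight L (b' i)) ∘ₗ (LinearMap.mulLeft L (e l)) ∘ₗ A.val.toLinearMap
    have : me = ∑ i, (φ i).smulRight ⟨b i, hb i⟩ := by
      ext a : 1
      apply Subtype.ext
      simpa [me, φ] using hfr _ (mul_mem hA a.2)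
    rw [← p3, this, map_sum]
    refine Finset.sum_congr rfl fun i _ => ?_
    rw [LinearMap.trace_smulRight]
    simp only [φ, LinearMap.comp_apply, AlgHom.toLinearMap_apply, Subalgebra.coe_val,
      LinearMap.mulLeft_apply, LinearMap.mulRight_apply, traceLinearMap_apply]
    rw [trace_mul_comm (e l * b i), ← mul_assoc, ← mul_assoc, h2 _ (hb' i)]
  refine ⟨hA, h0, h1, h2, p, q l, p1, ?_, q2 l, fun z hz => ?_⟩
  · refine p2.trans ((Submodule.finrank_le (Subalgebra.toSubmodule A)).trans ?_)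
    simp [Module.finrank_matrix]
  obtain ⟨χ, hχ⟩ := h3 _ (sum_mem fun i _ => mul_mem (mul_mem (hb i) hz) (hb' i))
    (casimir_central hb hb' hfr z)
  obtain ⟨c, hc⟩ := h3 _ (sum_mem fun i _ => mul_mem (mul_mem (hb' i) (one_mem A)) (hb i))
    (casimir_central hb' hb (frame_dual hb' hfr) 1)
  simp only [mul_one] at hc
  have e1 : c * q l = p := by
    have := congrArg trace hc
    rw [trace_smul, q3, Finset.mul_sum, trace_sum, p4] at this
    exact this.symm
  have e2 : χ * q l = c * (e l * z).trace := by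
    have h4 := congrArg trace hχ
    have h5 := congrArg (fun x => trace (x * z)) hc
    simp only [Matrix.smul_mul, trace_smul, q3, Finset.mul_sum, Finset.sum_mul, trace_sum,
      smul_eq_mul] at h4 h5
    rw [← h4, ← h5]
    refine Finset.sum_congr rfl fun i _ => ?_
    rw [← mul_assoc, trace_mul_comm]
    simp only [← mul_assoc]
    rw [h2 _ (hb' i)]
  rw [← Finset.mul_sum, hχ, smul_smul, ← e1]
  congr 1
  linear_combination (-(q l : L)) * e2

end idem

section eig

variable {L : Type*} [NormedField L] {D : Type*} [Fintype D] [DecidableEq D]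

lemma exists_eigvec {L : Type*} [Field L] {a : Matrix D D L} {μ : L}
    (h : μ ∈ a.charpoly.roots) : ∃ v ≠ 0, a *ᵥ v = μ • v := by
  have h1 : a.charpoly.eval μ = 0 := (Polynomial.mem_roots'.1 h).2
  rw [Matrix.eval_charpoly, ← Matrix.exists_mulVec_eq_zero_iff] at h1
  obtain ⟨v, hv, h2⟩ := h1
  refine ⟨v, hv, ?_⟩
  rw [Matrix.sub_mulVec, sub_eq_zero] at h2
  rw [← h2]
  ext i
  simp [Matrix.scalar_apply, Matrix.mulVec_diagonal]

omit [DecidableEq D] in
lemma norm_le_nm_of_eig {a : Matrix D D L} {μ : L} {v : D → L} (hv : v ≠ 0)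
    (h : a *ᵥ v = μ • v) : ‖μ‖ ≤ nm a := by
  have h1 : a * replicateCol Unit v = μ • replicateCol Unit v := by
    rw [← replicateCol_mulVec, h, replicateCol_smul]
  have h2 : replicateCol Unit v ≠ 0 := fun h' => hv (by
    funext i; exact congrFun (congrFun h' i) ())
  have h3 := nm_mul a (replicateCol Unit v)
  rw [h1, nm_smul] at h3
  exact le_of_mul_le_mul_right h3 (nm_pos h2)

lemma root_le_nm {a : Matrix D D L} {μ : L} (h : μ ∈ a.charpoly.roots) : ‖μ‖ ≤ nm a := by
  obtain ⟨v, hv, h1⟩ := exists_eigvec h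
  exact norm_le_nm_of_eig hv h1

lemma trace_le_of_pow [IsAlgClosed L] {a : Matrix D D L} {C ρ : ℝ} (hρ : 0 < ρ)
    (h : ∀ m, nm (a ^ (m + 1)) ≤ C * ρ ^ (m + 1)) : ‖a.trace‖ ≤ Fintype.card D * ρ := by
  have h1 : ∀ μ ∈ a.charpoly.roots, ‖μ‖ ≤ ρ := by
    intro μ hμ
    obtain ⟨v, hv, h1⟩ := exists_eigvec hμ
    have h2 : ∀ m, a ^ m *ᵥ v = μ ^ m • v := by
      intro m
      induction m with
      | zero => simp
      | succ m ih => rw [pow_succ', ← Matrix.mulVec_mulVec, ih, Matrix.mulVec_smul, h1, smul_smul,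
          pow_succ]
    by_contra hc
    have h3 : 1 < ‖μ‖ / ρ := (one_lt_div hρ).2 (not_le.1 hc)
    obtain ⟨m, hm⟩ := pow_unbounded_of_one_lt C h3
    have h4 := (norm_le_nm_of_eig hv (h2 (m + 1))).trans (h m)
    rw [norm_pow, ← div_le_iff₀ (by positivity), ← div_pow] at h4
    have := pow_le_pow_right₀ h3.le (Nat.le_add_right m 1)
    linarith
  rw [Matrix.trace_eq_sum_roots_charpoly]
  refine (norm_multiset_sum_le _).trans ((Multiset.sum_le_card_nsmul _ ρ ?_).trans ?_)
  · intro x hx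
    obtain ⟨μ, hμ, rfl⟩ := Multiset.mem_map.1 hx
    exact h1 μ hμ
  · rw [Multiset.card_map, nsmul_eq_mul]
    gcongr
    exact (Polynomial.card_roots' _).trans (Matrix.charpoly_natDegree_eq_dim a).le

lemma peel {L M : Type*} [Field L] [AddCommGroup M] [Module L M] (T : Module.End L M)
    (s : Multiset L) : ∀ b : M, b ≠ 0 → aeval T (s.map fun r => X - C r).prod b = 0 →
      ∃ p : L[X], ∃ r ∈ s, aeval T p b ≠ 0 ∧ T (aeval T p b) = r • aeval T p b := by
  induction s using Multiset.induction_on with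
  | empty => intro b hb h; simp [hb] at h
  | cons r s ih =>
    intro b hb h
    rw [Multiset.map_cons, Multiset.prod_cons, map_mul, Module.End.mul_apply] at h
    by_cases h1 : aeval T (s.map fun r => X - C r).prod b = 0
    · obtain ⟨p, r', h2, h3⟩ := ih b hb h1
      exact ⟨p, r', Multiset.mem_cons_of_mem h2, h3⟩
    · refine ⟨_, r, Multiset.mem_cons_self _ _, h1, ?_⟩
      simpa [sub_eq_zero, Module.algebraMap_end_apply] using h

end eig

end Pool.Agent.MP_646035_al.H43

end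

-- part MP_646035_al.H43.Frame
section

/-!
Bounded frames, adapted bases and the norms of the simple components.
-/

namespace Pool.Agent.MP_646035_al.H43

open Matrix Finset

variable {Γ : Type*} [Group Γ] {k : Type} [Field k] {D : Type} [Fintype D] [DecidableEq D]

/-- The traces against `w` separate the span of the image. -/
def Sp (C : Γ →* Matrix D D k) {m : ℕ} (w : Fin m → Γ) : Prop :=
  ∀ a ∈ Submodule.span k (Set.range C), (∀ t, (a * C (w t)).trace = 0) → a = 0

lemma Sp.span_eq {C : Γ →* Matrix D D k} {m : ℕ} {w : Fin m → Γ} (h : Sp C w) :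
    Submodule.span k (Set.range fun t => C (w t)) = Submodule.span k (Set.range C) := by
  refine Submodule.eq_of_le_of_finrank_le
    (Submodule.span_mono (by rintro _ ⟨t, rfl⟩; exact ⟨_, rfl⟩)) ?_
  let Φ := ((LinearMap.mul k (Matrix D D k)).compr₂ (Matrix.traceLinearMap D k k)).domRestrict₁₂
    (Submodule.span k (Set.range C)) (Submodule.span k (Set.range fun t => C (w t)))
  have hΦ : Function.Injective Φ := by
    rw [← LinearMap.ker_eq_bot, eq_bot_iff]
    intro a ha
    refine Subtype.ext (h a a.2 fun t => ?_)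
    exact LinearMap.congr_fun ha ⟨C (w t), Submodule.subset_span ⟨t, rfl⟩⟩
  exact (LinearMap.finrank_le_finrank_of_injective hΦ).trans (Subspace.dual_finrank_eq).le

/-- The frame identity. -/
def Fr {L : Type} [Field L] (C : Γ →* Matrix D D L) {m : ℕ} (w : Fin m → Γ)
    (G : Matrix (Fin m) (Fin m) L) : Prop :=
  ∀ γ, C γ = ∑ i, (∑ j, G i j * (C γ * C (w j)).trace) • C (w i)

lemma Fr.span {C : Γ →* Matrix D D k} {m : ℕ} {w : Fin m → Γ} {G : Matrix (Fin m) (Fin m) k}
    (h : Fr C w G) {a : Matrix D D k} (ha : a ∈ Submodule.span k (Set.range C)) :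
    a = ∑ i, (∑ j, G i j * (a * C (w j)).trace) • C (w i) := by
  induction ha using Submodule.span_induction with
  | mem x hx => obtain ⟨γ, rfl⟩ := hx; exact h γ
  | zero => simp
  | add x y _ _ h1 h2 =>
    simp only [add_mul, trace_add, mul_add, Finset.sum_add_distrib, add_smul]
    rw [← h1, ← h2]
  | smul c x _ h1 =>
    conv_lhs => rw [h1, Finset.smul_sum]
    refine Finset.sum_congr rfl fun i _ => ?_
    simp only [smul_smul, Finset.mul_sum, Matrix.smul_mul, trace_smul, smul_eq_mul, mul_left_comm]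

theorem exists_frame {V : Type} {P : V → Plc k} {R : Subring k} {c : ℕ} (hLV : LV P R c) (m : ℕ) :
    ∃ c' : ℕ, ∀ T : ℝ, 2 ≤ T → ∀ (D : Type) [Fintype D] [DecidableEq D] (C : Γ →* Matrix D D k)
      (w : Fin m → Γ), Sp C w → (∀ i j, Bdd P R T (C (w i * w j)).trace) →
      ∃ G : Matrix (Fin m) (Fin m) k, (∀ v, nm (G.map (P v).σ) ≤ T ^ c') ∧
        (∀ k0 : Subfield k, (∀ i j, (C (w i * w j)).trace ∈ k0) → ∀ i j, G i j ∈ k0) ∧ Fr C w G := by
  obtain ⟨c', hc'⟩ := exists_ginv hLV (Fin m) (Fin m)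
  refine ⟨c', fun T hT D _ _ C w hSp hB => ?_⟩
  obtain ⟨G, h1, h2, h3⟩ := hc' T hT (Matrix.of fun i j => (C (w i * w j)).trace) hB
  refine ⟨G, h2, h3, fun γ => ?_⟩
  set A := Matrix.of fun i j => (C (w i * w j)).trace with hA
  have h4 : C γ ∈ Submodule.span k (Set.range fun t => C (w t)) := by
    rw [hSp.span_eq]; exact Submodule.subset_span ⟨γ, rfl⟩
  obtain ⟨x, hx⟩ := (Submodule.mem_span_range_iff_exists_fun k).1 h4
  have h5 : ∀ (y : Fin m → k) t, ((∑ i, y i • C (w i)) * C (w t)).trace = (A *ᵥ y) t := by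
    intro y t
    simp only [Finset.sum_mul, Matrix.smul_mul, trace_sum, trace_smul, smul_eq_mul, hA, mulVec,
      dotProduct, of_apply, map_mul]
    exact Finset.sum_congr rfl fun i _ => by rw [trace_mul_comm, mul_comm]
  rw [← sub_eq_zero]
  refine hSp _ (sub_mem (Submodule.subset_span ⟨γ, rfl⟩) (sum_mem fun i _ =>
    Submodule.smul_mem _ _ (Submodule.subset_span ⟨_, rfl⟩))) fun t => ?_
  rw [sub_mul, trace_sub, h5, ← hx, h5, sub_eq_zero]
  simp only [h5]
  change (A *ᵥ x) t = (A *ᵥ (G *ᵥ (A *ᵥ x))) t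
  rw [mulVec_mulVec, mulVec_mulVec, h1]

section cj

variable {L : Type} [Field L]

/-- Base change followed by conjugation. -/
def cj (σ : k →+* L) {H H' : Matrix D D L} (h : H * H' = 1) : Matrix D D k →+* Matrix D D L where
  toFun a := H' * a.map σ * H
  map_one' := by rw [Matrix.map_one _ (map_zero σ) (map_one σ), mul_one, mul_eq_one_comm.1 h]
  map_mul' a b := by
    rw [Matrix.map_mul]
    simp only [mul_assoc]
    rw [← mul_assoc H, h, one_mul]
  map_zero' := by simp
  map_add' a b := by rw [Matrix.map_add _ (map_add σ), mul_add, add_mul]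

variable (σ : k →+* L) {H H' : Matrix D D L} (h : H * H' = 1)

lemma cj_apply (a : Matrix D D k) : cj σ h a = H' * a.map σ * H := rfl

lemma cj_smul (c : k) (a : Matrix D D k) : cj σ h (c • a) = σ c • cj σ h a := by
  have : (c • a).map σ = σ c • a.map σ := by ext; simp
  simp [cj_apply, this]

lemma trace_cj (a : Matrix D D k) : (cj σ h a).trace = σ a.trace := by
  rw [cj_apply, trace_mul_cycle, h, one_mul, AddMonoidHom.map_trace]

lemma charpoly_cj (a : Matrix D D k) : (cj σ h a).charpoly = a.charpoly.map σ := by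
  rw [cj_apply, charpoly_mul_comm, ← mul_assoc, h, one_mul, Matrix.charpoly_map]

lemma det_cj (a : Matrix D D k) : (cj σ h a).det = σ a.det := by
  rw [cj_apply, det_mul_comm, ← mul_assoc, h, one_mul, RingHom.map_det]; rfl

/-- The realisation of a representation at a place. -/
def rl (C : Γ →* Matrix D D k) : Γ →* Matrix D D L := (cj σ h).toMonoidHom.comp C

lemma rl_apply (C : Γ →* Matrix D D k) (γ : Γ) : rl σ h C γ = cj σ h (C γ) := rfl

lemma Fr.rl {C : Γ →* Matrix D D k} {m : ℕ} {w : Fin m → Γ} {G : Matrix (Fin m) (Fin m) k}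
    (hG : Fr C w G) : Fr (rl σ h C) w (G.map σ) := by
  intro γ
  conv_lhs => rw [rl_apply, hG γ, map_sum]
  simp only [cj_smul, map_sum, map_mul, rl_apply, Matrix.map_apply, ← trace_cj σ h]

lemma span_rl {C : Γ →* Matrix D D k} {M : Set Γ} (hM : Submodule.span k (C '' M) = ⊤) :
    Submodule.span L (rl σ h C '' M) = ⊤ := by
  have h1 : ∀ a : Matrix D D k, cj σ h a ∈ Submodule.span L (rl σ h C '' M) := by
    intro a
    have ha : a ∈ Submodule.span k (C '' M) := hM ▸ Submodule.mem_top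
    induction ha using Submodule.span_induction with
    | mem x hx => obtain ⟨γ, hγ, rfl⟩ := hx; exact Submodule.subset_span ⟨γ, hγ, rfl⟩
    | zero => simp
    | add x y _ _ h1 h2 => rw [map_add]; exact add_mem h1 h2
    | smul c x _ h1 => rw [cj_smul]; exact Submodule.smul_mem _ _ h1
  rw [eq_top_iff]
  intro a _
  have h2 : a = ∑ i, ∑ j, (H * a * H') i j • cj σ h (Matrix.single i j 1) := by
    have h3 : ∀ i j : D, (Matrix.single i j (1 : k)).map σ = Matrix.single i j 1 := by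
      intro i j; ext; simp [Matrix.single, apply_ite]
    have h4 : ∀ (c : L) (i j : D), c • (H' * Matrix.single i j (1 : L) * H) =
        H' * Matrix.single i j c * H := by
      intro c i j
      rw [← Matrix.smul_mul, ← Matrix.mul_smul, smul_single, smul_eq_mul, mul_one]
    simp only [cj_apply, h3, h4, ← Finset.sum_mul, ← Finset.mul_sum]
    rw [← matrix_eq_sum_single]
    simp only [← mul_assoc]
    rw [mul_eq_one_comm.1 h, one_mul, mul_assoc, mul_eq_one_comm.1 h, mul_one]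
  rw [h2]
  exact sum_mem fun i _ => sum_mem fun j _ => Submodule.smul_mem _ _ (h1 _)

lemma cpd_cj {N : ℕ} {H H' : Matrix (Fin N) (Fin N) L} (h : H * H' = 1) (j : ℕ)
    (a : Matrix (Fin N) (Fin N) k) : cpd j (cj σ h a) =
      cj σ (H := cpd j H) (H' := cpd j H') (by rw [← cpd_mul, h, cpd_one]) (cpd j a) := by
  rw [cj_apply, cj_apply, cpd_mul, cpd_mul, cpd_map]

end cj

variable {L : Type} [NormedField L]

lemma sum_norm_le {n m : ℕ} {G : Matrix (Fin n) (Fin m) L} {x : Fin m → L} {θ τ : ℝ} (hτ : 0 ≤ τ)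
    (hG : nm G ≤ θ) (hx : ∀ j, ‖x j‖ ≤ τ) : ∑ i, ‖∑ j, G i j * x j‖ ≤ θ * τ := by
  calc _ ≤ ∑ i, ∑ j, ‖G i j‖ * τ := Finset.sum_le_sum fun i _ => (norm_sum_le _ _).trans
        (Finset.sum_le_sum fun j _ => by rw [norm_mul]; gcongr; exact hx j)
    _ = nm G * τ := by simp [nm, Finset.sum_mul]
    _ ≤ _ := by gcongr

/-- An adapted basis, in which short elements are bounded. -/
theorem exists_adapted {N m : ℕ} (hN : 0 < N) (C : Γ →* Matrix (Fin N) (Fin N) L)
    (hC : Submodule.span L (Set.range C) = ⊤) {w : Fin m → Γ} {G : Matrix (Fin m) (Fin m) L}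
    (hG : Fr C w G) : ∃ H H' : Matrix (Fin N) (Fin N) L, H * H' = 1 ∧ ∀ (s : Γ) (θ τ : ℝ),
      0 ≤ τ → nm G ≤ θ → (∀ i j, ‖(C (s * w i) * C (w j)).trace‖ ≤ τ) →
      nm (H' * C s * H) ≤ N * N * (θ * τ) := by
  classical
  let o : Fin N := ⟨0, hN⟩
  let Y : Matrix (Fin N) (Fin m) L := fun a i => C (w i) a o
  have hY : ∀ a : Matrix (Fin N) (Fin N) L,
      (fun i => a i o) = Y *ᵥ fun i => ∑ j, G i j * (a * C (w j)).trace := by
    intro a
    funext i
    conv_lhs => rw [hG.span (a := a) (hC ▸ Submodule.mem_top)]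
    simp [Y, mulVec, dotProduct, Matrix.sum_apply, mul_comm]
  obtain ⟨q0, hq0⟩ : ∃ q : Fin N → Fin m, (Y.submatrix id q).det ≠ 0 := by
    by_contra hc
    push Not at hc
    let Z : Matrix (Fin m) (Fin N) L := fun i b =>
      ∑ j, G i j * (Matrix.single b o 1 * C (w j)).trace
    have : Y * Z = 1 := by
      ext a b
      have := congrFun (hY (Matrix.single b o 1)) a
      simp only [single_apply, and_true] at this
      rw [Matrix.one_apply, eq_comm, ← ite_congr (propext eq_comm) (fun _ => rfl) (fun _ => rfl),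
        this]
      rfl
    have h1 := cauchyBinet Y Z
    simp [this, hc] at h1
  obtain ⟨q, -, hq⟩ := Finset.exists_max_image Finset.univ
    (fun q : Fin N → Fin m => ‖(Y.submatrix id q).det‖) ⟨q0, Finset.mem_univ _⟩
  set H := Y.submatrix id q with hH
  have hpos : 0 < ‖H.det‖ := (norm_pos_iff.2 hq0).trans_le (hq q0 (Finset.mem_univ _))
  have hu : IsUnit H.det := isUnit_iff_ne_zero.2 (norm_pos_iff.1 hpos)
  have h1 : ∀ a i, ‖(H⁻¹ * Y) a i‖ ≤ 1 := by
    intro a i
    have h2 := congrFun (det_smul_inv_mulVec_eq_cramer H (fun b => Y b i) hu) a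
    have h3 : H.updateCol a (fun b => Y b i) = Y.submatrix id (Function.update q a i) := by
      ext b c
      by_cases hc : c = a <;> simp [hH, hc]
    rw [cramer_apply, h3] at h2
    have h4 := hq (Function.update q a i) (Finset.mem_univ _)
    rw [← h2, Pi.smul_apply, norm_smul] at h4
    exact le_of_mul_le_mul_left (by rw [mul_one]; exact h4) hpos
  refine ⟨H, H⁻¹, mul_nonsing_inv H hu, fun s θ τ hτ hθ hs => ?_⟩
  have h2 := nm_le_of_entry (A := H⁻¹ * C s * H) (c := θ * τ) fun a b => by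
    have h3 : (H⁻¹ * C s * H) a b =
        ∑ i, (H⁻¹ * Y) a i * ∑ j, G i j * (C (s * w (q b)) * C (w j)).trace := by
      have h4 : (fun c => (C s * H) c b) = fun c => C (s * w (q b)) c o := by
        funext c; simp [hH, Y, Matrix.mul_apply]
      rw [hY] at h4
      rw [mul_assoc, Matrix.mul_apply]
      change (H⁻¹ *ᵥ fun c => (C s * H) c b) a = _
      rw [h4, mulVec_mulVec]
      rfl
    rw [h3]
    refine (norm_sum_le _ _).trans (le_trans (Finset.sum_le_sum fun i _ => ?_)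
      (sum_norm_le hτ hθ (hs (q b))))
    rw [norm_mul]
    exact mul_le_of_le_one_left (norm_nonneg _) (h1 a i)
  simpa using h2

/-- The norms of the simple components of a representation. -/
theorem exists_comp [IsAlgClosed L] [CharZero L] (C : Γ →* Matrix D D L) {m : ℕ} (F : Set Γ)
    (Thin : Set Γ → Prop) (hF : ¬ Thin F) (h0 : Thin ∅) {θ : ℝ} (hD : (Fintype.card D : ℝ) ≤ θ)
    (hp : ∀ p : ℕ, 1 ≤ p → p ≤ Fintype.card D * Fintype.card D → 1 ≤ ‖(p : L)‖ * θ)
    (hθ : 1 ≤ θ) (hb : ∀ f ∈ F, nm (C f) ≤ θ)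
    (hfr : ∀ Z ⊆ F, ¬ Thin Z → ∃ (w : Fin m → Γ) (G : Matrix (Fin m) (Fin m) L),
      (∀ t, w t ∈ Z) ∧ nm G ≤ θ ∧ Fr C w G) :
    ∃ (n : ℕ) (ν : Fin n → Γ → ℝ), n ≤ Fintype.card D ∧ (∀ x, nm (C x) ≤ ∑ l, ν l x) ∧
      ∀ l, 1 ≤ ν l 1 ∧ (∀ x y, ν l (x * y) ≤ ν l x * ν l y) ∧ (∀ x, 0 < ν l x) ∧
        (∀ x, ν l x ≤ θ ^ 4 * nm (C x)) ∧
        ∀ x y, Thin {f | f ∈ F ∧ θ ^ 11 * ν l (x * f * y) < ν l x * ν l y} := by
  obtain ⟨w, G, hw, hG, hFr⟩ := hfr F subset_rfl hF
  let A := Algebra.adjoin L (Set.range C)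
  have hA : ∀ a, a ∈ A ↔ a ∈ Submodule.span L (Set.range C) := by
    intro a
    rw [← Subalgebra.mem_toSubmodule, Algebra.adjoin_eq_span, ← MonoidHom.coe_mrange,
      Submonoid.closure_eq]
  have hCA : ∀ x, C x ∈ A := fun x => Algebra.subset_adjoin ⟨x, rfl⟩
  let b' : Fin m → Matrix D D L := fun i => ∑ j, G i j • C (w j)
  have hθ0 : 0 ≤ θ := by linarith
  obtain ⟨n, e, hn, hsum, he⟩ := exists_idem (A := A) (b := fun i => C (w i)) (b' := b')
    (fun i => hCA _) (fun i => sum_mem fun j _ => A.smul_mem (hCA _) _) (fun a ha => by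
      simpa [b', Finset.mul_sum, trace_sum] using hFr.span ((hA a).1 ha))
  have NB : ∀ a ∈ A, ∀ τ : ℝ, 0 ≤ τ → (∀ j, ‖(a * C (w j)).trace‖ ≤ τ) → nm a ≤ θ ^ 2 * τ := by
    intro a ha τ hτ h
    rw [hFr.span ((hA a).1 ha)]
    refine (nm_sum _ _).trans ?_
    calc _ ≤ ∑ i, ‖∑ j, G i j * (a * C (w j)).trace‖ * θ := Finset.sum_le_sum fun i _ => by
          rw [nm_smul]; gcongr; exact hb _ (hw i)
      _ ≤ θ * τ * θ := by rw [← Finset.sum_mul]; gcongr; exact sum_norm_le hτ hG h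
      _ = _ := by ring
  refine ⟨n, fun l x => nm (e l * C x), hn, fun x => ?_, fun l => ?_⟩
  · refine le_trans (le_of_eq ?_) (nm_sum _ _)
    rw [← Finset.sum_mul, hsum, one_mul]
  obtain ⟨eA, e0, ee, ec, p, q, p1, p2, q1, hcas⟩ := he l
  have emul : ∀ a b, a ∈ A → e l * (a * b) = e l * a * (e l * b) := fun a b ha => by
    rw [mul_assoc, ← mul_assoc a, ← ec a ha, ← mul_assoc, ← mul_assoc, ← mul_assoc, ee]
  have epos : ∀ x, 0 < nm (e l * C x) := fun x => nm_pos fun h => e0 (by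
    have := congrArg (· * C x⁻¹) h
    simpa [mul_assoc, ← map_mul] using this)
  have ebd : nm (e l) ≤ θ ^ 4 := by
    refine (NB _ eA (θ * θ) (by positivity) fun j => ?_).trans (le_of_eq (by ring))
    refine (trace_le_of_pow (C := nm (e l)) (ρ := θ) (by linarith) fun r => ?_).trans (by gcongr)
    have h1 : ∀ r, (e l * C (w j)) ^ (r + 1) = e l * C (w j) ^ (r + 1) := by
      intro r
      induction r with
      | zero => simp
      | succ r ih => rw [pow_succ, ih, ← emul _ _ (pow_mem (hCA _) _), ← pow_succ]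
    have h2 : ∀ r, nm (C (w j) ^ (r + 1)) ≤ θ ^ (r + 1) := by
      intro r
      induction r with
      | zero => simpa using hb _ (hw j)
      | succ r ih =>
        rw [pow_succ, pow_succ θ]
        exact (nm_mul _ _).trans (mul_le_mul ih (hb _ (hw j)) (nm_nonneg _) (by positivity))
    rw [h1]
    exact (nm_mul _ _).trans (mul_le_mul_of_nonneg_left (h2 r) (nm_nonneg _))
  refine ⟨?_, fun x y => ?_, epos, fun x => (nm_mul _ _).trans
    (mul_le_mul_of_nonneg_right ebd (nm_nonneg _)), fun x y => ?_⟩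
  · have h1 := nm_mul (e l) (e l)
    rw [ee] at h1
    simpa using le_of_mul_le_mul_right (by simpa using h1 : 1 * nm (e l) ≤ _) (nm_pos e0)
  · simp only [map_mul]
    rw [emul _ _ (hCA x)]
    exact nm_mul _ _
  by_contra hZ
  obtain ⟨w', G', hw', hG', hFr'⟩ := hfr _ (fun f hf => hf.1) hZ
  obtain ⟨f0, hf0⟩ : Set.Nonempty {f | f ∈ F ∧ θ ^ 11 * nm (e l * C (x * f * y)) <
      nm (e l * C x) * nm (e l * C y)} :=
    Set.nonempty_iff_ne_empty.2 fun h => hZ (by beta_reduce; rw [h]; exact h0)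
  obtain ⟨μ, hμ0, hμ1, hμ2⟩ : ∃ μ : ℝ, 0 ≤ μ ∧ θ ^ 11 * μ < nm (e l * C x) * nm (e l * C y) ∧
      ∀ t, nm (e l * C (x * w' t * y)) ≤ μ := by
    rcases isEmpty_or_nonempty (Fin m) with h | h
    · exact ⟨_, nm_nonneg _, hf0.2, fun t => isEmptyElim t⟩
    · obtain ⟨t, -, ht⟩ := Finset.exists_max_image Finset.univ
        (fun t => nm (e l * C (x * w' t * y))) Finset.univ_nonempty
      exact ⟨_, nm_nonneg _, (hw' t).2, fun t' => ht t' (Finset.mem_univ _)⟩
  have h1 : ∀ i, nm (e l * (C x * C (w i) * C y)) ≤ θ ^ 3 * μ := by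
    intro i
    rw [hFr' (w i)]
    simp only [Finset.mul_sum, Finset.sum_mul, Matrix.mul_smul, Matrix.smul_mul]
    refine (nm_sum _ _).trans ?_
    calc _ ≤ ∑ a, ‖∑ j, G' a j * (C (w i) * C (w' j)).trace‖ * μ := Finset.sum_le_sum fun a _ => by
          rw [nm_smul]; gcongr; simpa using hμ2 a
      _ ≤ θ * (θ * θ) * μ := by
          rw [← Finset.sum_mul]
          gcongr
          exact sum_norm_le (by positivity) hG' fun j => (trace_le_nm _).trans ((nm_mul _ _).trans
            (mul_le_mul (hb _ (hw i)) (hb _ (hw' j).1) (nm_nonneg _) hθ0))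
      _ = _ := by ring
  have h2 : ∑ i, nm (b' i) ≤ θ * θ := by
    calc _ ≤ ∑ i, ∑ j, ‖G i j‖ * θ := Finset.sum_le_sum fun i _ => (nm_sum _ _).trans
          (Finset.sum_le_sum fun j _ => by rw [nm_smul]; gcongr; exact hb _ (hw j))
      _ = nm G * θ := by simp [nm, Finset.sum_mul]
      _ ≤ _ := by gcongr
  have h3 : ∀ j, ‖(e l * C y * C (w j)).trace‖ ≤ θ ^ 9 * μ / nm (e l * C x) := by
    intro j
    have h4 := congrArg (fun a => nm (C x * a)) (hcas (C y * C (w j)) (mul_mem (hCA _) (hCA _)))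
    simp only [Matrix.mul_smul, nm_smul, norm_mul, norm_pow, ← ec _ (hCA x)] at h4
    have h5 : nm (C x * ∑ i, e l * (C (w i) * (C y * C (w j)) * b' i)) ≤ θ ^ 6 * μ := by
      rw [Finset.mul_sum]
      refine (nm_sum _ _).trans ?_
      calc _ ≤ ∑ i, θ ^ 3 * μ * θ * nm (b' i) := Finset.sum_le_sum fun i _ => by
            have : C x * (e l * (C (w i) * (C y * C (w j)) * b' i)) =
                e l * (C x * C (w i) * C y) * C (w j) * b' i := by
              rw [← mul_assoc (C x), ← ec _ (hCA x)]; simp only [mul_assoc]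
            rw [this]
            refine (nm_mul3 _ _ _).trans (mul_le_mul_of_nonneg_right ?_ (nm_nonneg _))
            exact mul_le_mul (h1 i) (hb _ (hw j)) (nm_nonneg _) (by positivity)
        _ ≤ θ ^ 3 * μ * θ * (θ * θ) := by rw [← Finset.mul_sum]; gcongr
        _ = _ := by ring
    have h6 : ‖(q : L)‖ ≤ θ := (Nat.norm_cast_le q).trans (by
      rw [norm_one, mul_one]; exact le_trans (by exact_mod_cast q1) hD)
    rw [le_div_iff₀ (epos x), mul_assoc (e l)]
    have h7 := hp p p1 p2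
    have h8 := epos x
    calc _ ≤ (‖(p : L)‖ * θ) * (‖(e l * (C y * C (w j))).trace‖ * nm (e l * C x)) :=
          le_mul_of_one_le_left (by positivity) h7
      _ = θ * (‖(p : L)‖ * ‖(e l * (C y * C (w j))).trace‖ * nm (e l * C x)) := by ring
      _ ≤ θ * (θ ^ 2 * (θ ^ 6 * μ)) := by
          rw [h4]
          gcongr
          exact nm_nonneg _
      _ = _ := by ring
  have h4 := NB _ (mul_mem eA (hCA y)) _ (div_nonneg (by positivity) (epos x).le) h3
  rw [← mul_div_assoc, le_div_iff₀ (epos x)] at h4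
  nlinarith

end Pool.Agent.MP_646035_al.H43

end

-- part MP_646035_al.H43.Pivot
section

/-!
Gaussian elimination with complete pivoting, and the rigidity lemma for additive products.
-/

namespace Pool.Agent.MP_646035_al.H43

open Matrix Finset

variable {L : Type*} [NormedField L] {N : ℕ}

/-- A unit which is bounded together with its inverse. -/
def BU (C : ℝ) (k : Matrix (Fin N) (Fin N) L) : Prop :=
  ∃ k', k * k' = 1 ∧ nm k ≤ C ∧ nm k' ≤ C

lemma BU.mul {C D : ℝ} {k l : Matrix (Fin N) (Fin N) L} (hk : BU C k) (hl : BU D l) :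
    BU (C * D) (k * l) := by
  obtain ⟨k', h1, h2, h3⟩ := hk
  obtain ⟨l', h4, h5, h6⟩ := hl
  refine ⟨l' * k', by rw [mul_assoc, ← mul_assoc l, h4, one_mul, h1], ?_, ?_⟩
  · exact (nm_mul _ _).trans (mul_le_mul h2 h5 (nm_nonneg _) ((nm_nonneg _).trans h2))
  · rw [mul_comm C]
    exact (nm_mul _ _).trans (mul_le_mul h6 h3 (nm_nonneg _) ((nm_nonneg _).trans h6))

lemma BU.transpose {C : ℝ} {k : Matrix (Fin N) (Fin N) L} (hk : BU C k) : BU C kᵀ := by
  obtain ⟨k', h1, h2, h3⟩ := hk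
  refine ⟨k'ᵀ, ?_, by rwa [nm_transpose], by rwa [nm_transpose]⟩
  rw [← transpose_mul, mul_eq_one_comm.1 h1, transpose_one]

lemma BU.mono {C D : ℝ} {k : Matrix (Fin N) (Fin N) L} (hk : BU C k) (h : C ≤ D) : BU D k := by
  obtain ⟨k', h1, h2, h3⟩ := hk
  exact ⟨k', h1, h2.trans h, h3.trans h⟩

lemma nm_perm (σ : Equiv.Perm (Fin N)) :
    nm (σ.toPEquiv.toMatrix : Matrix (Fin N) (Fin N) L) = N := by
  simp [nm, PEquiv.toMatrix_apply, apply_ite, Equiv.toPEquiv_apply]

lemma BU_perm (σ : Equiv.Perm (Fin N)) :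
    BU N (σ.toPEquiv.toMatrix : Matrix (Fin N) (Fin N) L) := by
  refine ⟨σ.symm.toPEquiv.toMatrix, ?_, (nm_perm σ).le, (nm_perm _).le⟩
  rw [← PEquiv.toMatrix_trans, ← Equiv.toPEquiv_trans]
  simp

lemma elim_row (G : Matrix (Fin N) (Fin N) L) (a : Fin N) (h : ∀ i, ‖G i a‖ ≤ ‖G a a‖) :
    ∃ k : Matrix (Fin N) (Fin N) L, BU (2 * N) k ∧
      ∀ i j, (k * G) i j = if i = a then G a j else G i j - G i a / G a a * G a j := by
  let c : Fin N → L := fun i => if i = a then 0 else G i a / G a a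
  have hc : ∀ i, ‖c i‖ ≤ 1 := fun i => by
    by_cases hi : i = a
    · simp [c, hi]
    · simp only [c, hi, if_false, norm_div]
      exact div_le_one_of_le₀ (h i) (norm_nonneg _)
  let E : Matrix (Fin N) (Fin N) L := vecMulVec c (Pi.single a 1)
  have hE : nm E ≤ N := by
    have : nm E = ∑ i, ‖c i‖ := by
      simp [nm, E, vecMulVec_apply, Pi.single_apply, apply_ite]
    rw [this]
    exact (Finset.sum_le_sum fun i _ => hc i).trans (by simp)
  have hEE : E * E = 0 := by
    ext i j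
    rw [Matrix.mul_apply, Finset.sum_eq_single a]
    · simp [E, vecMulVec_apply, c]
    · intro x _ hx
      simp [E, vecMulVec_apply, Pi.single_apply, hx]
    · simp
  refine ⟨1 + (-1 : L) • E, ⟨1 + E, ?_, ?_, ?_⟩, ?_⟩
  · simp [add_mul, mul_add, hEE]
  · refine (nm_add _ _).trans ?_
    rw [nm_smul, nm_one]; simp; linarith
  · refine (nm_add _ _).trans ?_
    rw [nm_one]; simp; linarith
  · intro i j
    have : (E * G) i j = c i * G a j := by
      simp [E, Matrix.mul_apply, vecMulVec_apply, Pi.single_apply]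
    rw [add_mul, one_mul, Matrix.smul_mul, Matrix.add_apply, Matrix.smul_apply, this]
    by_cases hi : i = a <;> simp [c, hi, sub_eq_add_neg]

lemma pivot_aux (g : Matrix (Fin N) (Fin N) L) (m : ℕ) (hm : m ≤ N) :
    ∃ k l : Matrix (Fin N) (Fin N) L, BU (N * (2 * N * N) ^ m) k ∧ BU (N * (2 * N * N) ^ m) l ∧
      ∃ D : Finset (Fin N), D.card = m ∧
        ∀ i j, i ≠ j → (i ∈ D ∨ j ∈ D) → (k * g * l) i j = 0 := by
  induction m with
  | zero =>
    refine ⟨1, 1, ?_, ?_, ∅, rfl, by simp⟩ <;>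
      exact ⟨1, by simp, by simp [nm_one], by simp [nm_one]⟩
  | succ m ih =>
    obtain ⟨k, l, hk, hl, D, hD, hz⟩ := ih (by omega)
    set G := k * g * l with hG
    have hne : (Dᶜ ×ˢ Dᶜ).Nonempty := by
      have : (Dᶜ).Nonempty := by
        rw [← Finset.card_pos, Finset.card_compl, Fintype.card_fin]; omega
      exact this.product this
    obtain ⟨⟨a, b⟩, hab, hmax⟩ := Finset.exists_max_image _ (fun x => ‖G x.1 x.2‖) hne
    simp only [Finset.mem_product, Finset.mem_compl, Prod.forall, and_imp] at hab hmax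
    let σ := Equiv.swap a b
    have hσD : ∀ i ∈ D, σ i = i := fun i hi =>
      Equiv.swap_apply_of_ne_of_ne (fun h => hab.1 (h ▸ hi)) (fun h => hab.2 (h ▸ hi))
    have hσD' : ∀ i, i ∉ D → σ i ∉ D := fun i hi h => by
      have := hσD _ h
      rw [σ.injective this] at h
      exact hi h
    let G1 : Matrix (Fin N) (Fin N) L := G.submatrix id σ
    have hG1 : G * σ.symm.toPEquiv.toMatrix = G1 := PEquiv.mul_toMatrix_toPEquiv _ _
    have hz1 : ∀ i j, i ≠ j → (i ∈ D ∨ j ∈ D) → G1 i j = 0 := by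
      intro i j hij h
      rcases h with h | h
      · exact hz i (σ j) (fun h' => hij (σ.injective (by rw [hσD i h, h']))) (Or.inl h)
      · simp only [G1, submatrix_apply, id, hσD j h]
        exact hz i j hij (Or.inr h)
    have haa : G1 a a = G a b := by simp [G1, σ]
    have hm1 : ∀ i j, i ∉ D → j ∉ D → ‖G1 i j‖ ≤ ‖G1 a a‖ := fun i j hi hj => by
      rw [haa]; exact hmax i (σ j) hi (hσD' j hj)
    have hcol : ∀ i, ‖G1 i a‖ ≤ ‖G1 a a‖ := fun i => by
      by_cases hi : i ∈ D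
      · rw [hz1 i a (fun h => hab.1 (h ▸ hi)) (Or.inl hi)]; simp
      · exact hm1 i a hi hab.1
    have hrow : ∀ j, ‖G1 a j‖ ≤ ‖G1 a a‖ := fun j => by
      by_cases hj : j ∈ D
      · rw [hz1 a j (fun h => hab.1 (h ▸ hj)) (Or.inr hj)]; simp
      · exact hm1 a j hab.1 hj
    obtain ⟨k1, hk1, e1⟩ := elim_row G1 a hcol
    set G2 := k1 * G1 with hG2
    have h2a : ∀ i, i ≠ a → G2 i a = 0 := fun i hi => by
      rw [e1, if_neg hi]
      by_cases h0 : G1 a a = 0
      · have := hcol i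
        rw [h0, norm_zero, norm_le_zero_iff] at this
        simp [this]
      · field_simp; ring
    have h2r : ∀ j, G2 a j = G1 a j := fun j => by rw [e1, if_pos rfl]
    obtain ⟨l1, hl1, e2⟩ := elim_row G2ᵀ a (fun j => by simpa [h2r] using hrow j)
    have hN : (1 : ℝ) ≤ N := by exact_mod_cast (by omega : 1 ≤ N)
    refine ⟨k1 * k, l * σ.symm.toPEquiv.toMatrix * l1ᵀ, (hk1.mul hk).mono ?_,
      ((hl.mul (BU_perm _)).mul hl1.transpose).mono (le_of_eq (by ring)), insert a D,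
      by rw [Finset.card_insert_of_notMem hab.1, hD], ?_⟩
    · have : (0 : ℝ) ≤ (2 * N * N) ^ m := by positivity
      rw [pow_succ]
      have h3 : (2 * N : ℝ) ≤ 2 * N * N := by nlinarith
      calc (2 * N : ℝ) * (N * (2 * N * N) ^ m) ≤ (2 * N * N) * (N * (2 * N * N) ^ m) := by gcongr
        _ = _ := by ring
    · intro i j hij h
      have : k1 * k * g * (l * σ.symm.toPEquiv.toMatrix * l1ᵀ) = (l1 * G2ᵀ)ᵀ := by
        rw [transpose_mul, transpose_transpose, hG2, ← hG1, hG]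
        simp only [Matrix.mul_assoc]
      rw [this, transpose_apply, e2]
      simp only [transpose_apply, Finset.mem_insert] at h ⊢
      by_cases hj : j = a
      · rw [if_pos hj]; exact h2a i (hj ▸ hij)
      rw [if_neg hj]
      by_cases hi : i = a
      · subst hi
        rw [h2r, h2r]
        by_cases h0 : G1 i i = 0
        · have := hrow j
          rw [h0, norm_zero, norm_le_zero_iff] at this
          simp [this]
        · field_simp; ring
      rw [h2a i hi, mul_zero, sub_zero, e1, if_neg hi]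
      rcases h with (h | h) | (h | h)
      · exact absurd h hi
      · rw [hz1 i j hij (Or.inl h), hz1 i a hi (Or.inl h)]; simp
      · exact absurd h hj
      · rw [hz1 i j hij (Or.inr h), hz1 a j (Ne.symm hj) (Or.inr h)]; simp

/-- The constant in the pivot decomposition. -/
def pivC (N : ℕ) : ℝ := N * (N * (2 * N * N) ^ N) + 1

lemma one_le_pivC (N : ℕ) : 1 ≤ pivC N := by
  unfold pivC
  have : (0 : ℝ) ≤ N * (N * (2 * N * N) ^ N) := by positivity
  linarith

theorem pivot (g : Matrix (Fin N) (Fin N) L) :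
    ∃ (k l : Matrix (Fin N) (Fin N) L) (a : Fin N → L), BU (pivC N) k ∧ BU (pivC N) l ∧
      k * g * l = diagonal a ∧ Antitone fun i => ‖a i‖ := by
  obtain ⟨k, l, hk, hl, D, hD, hz⟩ := pivot_aux g N le_rfl
  have hD' : D = Finset.univ := Finset.eq_univ_of_card D (by simpa using hD)
  set G := k * g * l with hG
  let σ := Tuple.sort fun i => -‖G i i‖
  have hσ := Tuple.monotone_sort fun i => -‖G i i‖
  refine ⟨σ.toPEquiv.toMatrix * k, l * σ.symm.toPEquiv.toMatrix, fun i => G (σ i) (σ i),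
    ((BU_perm σ).mul hk).mono (by simp [pivC]), (hl.mul (BU_perm _)).mono (by simp [pivC, mul_comm]),
    ?_, fun i j hij => by simpa using hσ hij⟩
  have : σ.toPEquiv.toMatrix * k * g * (l * σ.symm.toPEquiv.toMatrix) =
      σ.toPEquiv.toMatrix * G * σ.symm.toPEquiv.toMatrix := by
    simp only [hG, Matrix.mul_assoc]
  rw [this, PEquiv.toMatrix_toPEquiv_mul, PEquiv.mul_toMatrix_toPEquiv]
  ext i j
  by_cases h : i = j
  · simp [h]
  · simp only [submatrix_apply, id, Equiv.symm_symm, diagonal_apply_ne _ h]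
    exact hz _ _ (fun h' => h (σ.injective h')) (Or.inl (by simp [hD']))

/-- The product of the first `j` norms. -/
noncomputable def pr (a : Fin N → L) (j : ℕ) : ℝ :=
  ∏ i ∈ Finset.univ.filter (fun i : Fin N => (i : ℕ) < j), ‖a i‖

lemma pr_eq (a : Fin N → L) {j : ℕ} (hj : j ≤ N) :
    pr a j = ∏ i : Fin j, ‖a (Fin.castLE hj i)‖ := by
  symm
  refine Finset.prod_bij (fun i _ => Fin.castLE hj i) (by simp) (by simp) ?_ (by simp)
  intro b hb
  exact ⟨⟨b, by simpa using hb⟩, by simp, rfl⟩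

lemma pr_succ (a : Fin N → L) (j : Fin N) : pr a (j + 1) = pr a j * ‖a j‖ := by
  have : Finset.univ.filter (fun i : Fin N => (i : ℕ) < j + 1) =
      insert j (Finset.univ.filter (fun i : Fin N => (i : ℕ) < j)) := by
    ext i; simp [Fin.ext_iff]; omega
  rw [pr, this, Finset.prod_insert (by simp), mul_comm, pr]

lemma pr_pos {a : Fin N → L} (ha : ∀ i, a i ≠ 0) (j : ℕ) : 0 < pr a j :=
  Finset.prod_pos fun i _ => norm_pos_iff.2 (ha i)

lemma nm_cpd_diagonal {a : Fin N → L} (ha : Antitone fun i => ‖a i‖) {j : ℕ} (hj : j ≤ N) :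
    nm (cpd j (diagonal a)) ≤ 2 ^ N * 2 ^ N * (N.factorial * pr a j) := by
  have h1 : ∀ s t, ‖cpd j (diagonal a) s t‖ ≤ N.factorial * pr a j := fun s t => by
    have : (diagonal a).submatrix (emb s) (emb t) =
        diagonal (a ∘ emb s) * (1 : Matrix (Fin N) (Fin N) L).submatrix (emb s) (emb t) := by
      ext i l
      simp [diagonal_apply, Matrix.one_apply]
    rw [cpd, this, det_mul, det_diagonal, norm_mul, mul_comm, norm_prod, pr_eq a hj]
    refine mul_le_mul ?_ ?_ (Finset.prod_nonneg fun _ _ => norm_nonneg _) (Nat.cast_nonneg _)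
    · refine (det_le_of_entry (c := 1) fun i l => ?_).trans ?_
      · simp only [submatrix_apply, Matrix.one_apply]; split_ifs <;> simp
      · simp only [Fintype.card_fin, one_pow, mul_one]
        exact_mod_cast Nat.factorial_le hj
    · exact Finset.prod_le_prod (fun _ _ => norm_nonneg _) fun i _ => ha (le_emb s i)
  refine (nm_le_of_entry h1).trans ?_
  have h2 : (Fintype.card (PC N j) : ℝ) ≤ 2 ^ N := by exact_mod_cast card_PC_le N j
  have : 0 ≤ pr a j := Finset.prod_nonneg fun _ _ => norm_nonneg _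
  gcongr

lemma row_bound {X Y : Matrix (Fin N) (Fin N) L} {a : Fin N → L} (h : X * Y = diagonal a)
    (j r : Fin N) :
    pr a j * ‖X j r‖ ≤ nm (cpd (j + 1) X) * (2 ^ N * N * nm (cpd j Y)) := by
  have hj : (j : ℕ) + 1 ≤ N := j.2
  have hj' : (j : ℕ) ≤ N := j.2.le
  let E : Matrix (Fin (j + 1)) (Fin N) L := X.submatrix (Fin.castLE hj) id
  let W : Matrix (Fin N) (Fin (j + 1)) L := fun i =>
    Fin.snoc (α := fun _ => L) (fun l : Fin j => Y i (Fin.castLE hj' l)) ((Pi.single r 1 : Fin N → L) i)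
  have e1 : ∀ i (l : Fin j), (E * W) i l.castSucc =
      diagonal a (Fin.castLE hj i) (Fin.castLE hj' l) := by
    intro i l
    rw [← h]
    simp [E, W, Matrix.mul_apply]
  have e2 : ∀ i, (E * W) i (Fin.last j) = X (Fin.castLE hj i) r := by
    intro i
    simp [E, W, Matrix.mul_apply, Pi.single_apply]
  have h1 : ‖(E * W).det‖ = pr a j * ‖X j r‖ := by
    rw [det_of_isUpperTriangular, Fin.prod_univ_castSucc, norm_mul, norm_prod, pr_eq a hj', e2]
    · congr 1
      refine Finset.prod_congr rfl fun i _ => ?_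
      rw [e1]
      exact congrArg _ (diagonal_apply_eq a (Fin.castLE hj' i))
    · intro i l hil
      induction l using Fin.lastCases with
      | last => exact absurd hil (not_lt.2 (Fin.le_last i))
      | cast l =>
        rw [e1, diagonal_apply_ne]
        intro h'
        simp only [id, Fin.lt_def, Fin.ext_iff, Fin.val_castLE, Fin.val_castSucc] at hil h'
        omega
  have h2 : ∀ s : PC N (j + 1), ‖(W.submatrix (emb s) id).det‖ ≤ N * nm (cpd j Y) := by
    intro s
    rw [det_succ_column _ (Fin.last j)]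
    refine (norm_sum_le _ _).trans ?_
    calc _ ≤ ∑ _i : Fin (j + 1), nm (cpd j Y) := by
          refine Finset.sum_le_sum fun i _ => ?_
          have e3 : (W.submatrix (emb s) id).submatrix i.succAbove (Fin.last j).succAbove =
              Y.submatrix (emb s ∘ i.succAbove) (Fin.castLE hj') := by
            ext u v
            simp [W]
          have e4 : ‖W.submatrix (emb s) id i (Fin.last j)‖ ≤ 1 := by
            simp only [W, submatrix_apply, id, Fin.snoc_last, Pi.single_apply]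
            split_ifs <;> simp
          rw [norm_mul, norm_mul, e3, norm_pow, norm_neg, norm_one, one_pow, one_mul]
          exact (mul_le_mul e4 (minor_le _ _ _) (norm_nonneg _) zero_le_one).trans (by simp)
      _ ≤ _ := by
          simp only [Finset.sum_const, Finset.card_univ, Fintype.card_fin, nsmul_eq_mul]
          exact mul_le_mul_of_nonneg_right (by exact_mod_cast hj) (nm_nonneg _)
  rw [← h1, cauchyBinet]
  refine (norm_sum_le _ _).trans ?_
  calc _ ≤ ∑ _s : PC N (j + 1), nm (cpd (j + 1) X) * (N * nm (cpd j Y)) := by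
        refine Finset.sum_le_sum fun s _ => ?_
        rw [norm_mul]
        exact mul_le_mul (minor_le X _ _) (h2 s) (norm_nonneg _) (nm_nonneg _)
    _ ≤ _ := by
        have h3 : (Fintype.card (PC N (j + 1)) : ℝ) ≤ 2 ^ N := by exact_mod_cast card_PC_le N _
        have := nm_nonneg (cpd (j + 1) X)
        have := nm_nonneg (cpd j Y)
        simp only [Finset.sum_const, Finset.card_univ, nsmul_eq_mul]
        calc _ ≤ 2 ^ N * (nm (cpd (j + 1) X) * (N * nm (cpd j Y))) := by gcongr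
          _ = _ := by ring

lemma rigid_diag {X Y X' Y' h : Matrix (Fin N) (Fin N) L} {a : Fin N → L} (ha : ∀ i, a i ≠ 0)
    (e : X * Y = diagonal a) (e' : X' * Y' = diagonal a) (hh : h * Y' = Y) {θ : ℝ}
    (h1 : ∀ j ≤ N, nm (cpd j X) * nm (cpd j Y') ≤ θ * pr a j)
    (h2 : ∀ j ≤ N, nm (cpd j X') * nm (cpd j Y) ≤ θ * pr a j) :
    nm h ≤ N * N * (N * ((2 ^ N * N) ^ 2 * θ ^ 2)) := by
  have e1 : diagonal (fun i => (a i)⁻¹) * X' * Y' = 1 := by
    rw [Matrix.mul_assoc, e', diagonal_mul_diagonal, ← diagonal_one]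
    congr 1; funext i; exact inv_mul_cancel₀ (ha i)
  have e2 : h = Y * diagonal (fun i => (a i)⁻¹) * X' := by
    rw [← hh, Matrix.mul_assoc, Matrix.mul_assoc, mul_eq_one_comm.1 e1, Matrix.mul_one]
  have key : ∀ r s j, ‖Y r j * (a j)⁻¹ * X' j s‖ ≤ (2 ^ N * N) ^ 2 * θ ^ 2 := by
    intro r s j
    have b1 := row_bound e' j s
    have b2 := row_bound (X := Yᵀ) (Y := Xᵀ) (a := a)
      (by rw [← transpose_mul, e, diagonal_transpose]) j r
    rw [cpd_transpose, cpd_transpose, nm_transpose, nm_transpose, transpose_apply] at b2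
    have b3 := h1 j j.2.le
    have b4 := h2 (j + 1) j.2
    rw [pr_succ] at b4
    have p1 := pr_pos ha j
    have p2 : 0 < ‖a j‖ := norm_pos_iff.2 (ha j)
    have q1 := nm_nonneg (cpd j X)
    have q2 := nm_nonneg (cpd j Y')
    have q3 := nm_nonneg (cpd (j + 1) X')
    have q4 := nm_nonneg (cpd (j + 1) Y)
    have hθ : 0 ≤ θ := by
      by_contra hc
      have := mul_neg_of_neg_of_pos (not_le.1 hc) p1
      have := mul_nonneg q1 q2
      linarith
    rw [norm_mul, norm_mul, norm_inv, mul_right_comm, ← div_eq_mul_inv, div_le_iff₀ p2]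
    have b5 : (pr a j * ‖Y r j‖) * (pr a j * ‖X' j s‖) ≤
        (2 ^ N * N) ^ 2 * ((θ * pr a j) * (θ * (pr a j * ‖a j‖))) := by
      calc _ ≤ (nm (cpd (j + 1) Y) * (2 ^ N * N * nm (cpd j X))) *
            (nm (cpd (j + 1) X') * (2 ^ N * N * nm (cpd j Y'))) :=
            mul_le_mul b2 b1 (by positivity) (by positivity)
        _ = (2 ^ N * N) ^ 2 * ((nm (cpd j X) * nm (cpd j Y')) *
            (nm (cpd (j + 1) X') * nm (cpd (j + 1) Y))) := by ring
        _ ≤ _ := by gcongr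
    have p3 : 0 < pr a j * pr a j := mul_pos p1 p1
    refine le_of_mul_le_mul_left ?_ p3
    calc _ = (pr a j * ‖Y r j‖) * (pr a j * ‖X' j s‖) := by ring
      _ ≤ _ := b5
      _ = _ := by ring
  have := nm_le_of_entry (A := h) (c := N * ((2 ^ N * N) ^ 2 * θ ^ 2)) fun r s => by
    rw [e2, Matrix.mul_apply]
    refine (norm_sum_le _ _).trans ?_
    calc _ ≤ ∑ _j : Fin N, (2 ^ N * N) ^ 2 * θ ^ 2 :=
          Finset.sum_le_sum fun j _ => by rw [mul_diagonal]; exact key r s j
      _ = _ := by simp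
  simpa using this

/-- Rigidity: two additive factorisations of the same matrix differ by a bounded element. -/
theorem rigid_GL (N : ℕ) : ∃ C : ℝ, 1 ≤ C ∧ ∀ (L : Type) [NormedField L]
    (X Y X' Y' h : Matrix (Fin N) (Fin N) L) (θ : ℝ), 0 ≤ θ → (X * Y).det ≠ 0 → X' * Y' = X * Y →
    h * Y' = Y → (∀ j ≤ N, nm (cpd j X) * nm (cpd j Y') ≤ θ * nm (cpd j (X * Y))) →
    (∀ j ≤ N, nm (cpd j X') * nm (cpd j Y) ≤ θ * nm (cpd j (X * Y))) → nm h ≤ C * θ ^ 2 := by
  let c : ℝ := 2 ^ N * 2 ^ N * (N.factorial * pivC N ^ N)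
  let d : ℝ := c ^ 4 * (2 ^ N * 2 ^ N * N.factorial)
  have hc : 0 ≤ c := by have := one_le_pivC N; positivity
  have hd : 0 ≤ d := by positivity
  refine ⟨N * N * (N * ((2 ^ N * N) ^ 2 * d ^ 2)) + 1, le_add_of_nonneg_left (by positivity), ?_⟩
  intro L _ X Y X' Y' h θ hθ hdet e hh h1 h2
  obtain ⟨k, l, a, ⟨k', k1, k2, k3⟩, ⟨l', l1, l2, l3⟩, hg, ha⟩ := pivot (X * Y)
  have ha0 : ∀ i, a i ≠ 0 := by
    have h3 := congrArg det hg
    rw [det_mul, det_mul, det_diagonal] at h3
    have h4 : k.det ≠ 0 := left_ne_zero_of_mul_eq_one (by rw [← det_mul, k1, det_one])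
    have h5 : l.det ≠ 0 := left_ne_zero_of_mul_eq_one (by rw [← det_mul, l1, det_one])
    have h6 : ∏ i, a i ≠ 0 := by rw [← h3]; exact mul_ne_zero (mul_ne_zero h4 hdet) h5
    exact fun i => Finset.prod_ne_zero_iff.1 h6 i (Finset.mem_univ i)
  have eg : X * Y = k' * diagonal a * l' := by
    rw [← hg]
    simp only [← Matrix.mul_assoc]
    rw [mul_eq_one_comm.1 k1, Matrix.one_mul, Matrix.mul_assoc, l1, Matrix.mul_one]
  have key : ∀ U V : Matrix (Fin N) (Fin N) L, ∀ j ≤ N,
      nm (cpd j U) * nm (cpd j V) ≤ θ * nm (cpd j (X * Y)) →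
      nm (cpd j (k * U)) * nm (cpd j (V * l)) ≤ d * θ * pr a j := by
    intro U V j hj hUV
    have b1 := nm_cpd_le hj k (one_le_pivC N) k2
    have b2 := nm_cpd_le hj k' (one_le_pivC N) k3
    have b3 := nm_cpd_le hj l (one_le_pivC N) l2
    have b4 := nm_cpd_le hj l' (one_le_pivC N) l3
    have b5 := nm_cpd_diagonal ha hj
    have q1 := nm_nonneg (cpd j U)
    have q2 := nm_nonneg (cpd j V)
    have q3 := (pr_pos ha0 j).le
    have b6 : nm (cpd j (X * Y)) ≤ c * (2 ^ N * 2 ^ N * (N.factorial * pr a j)) * c := by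
      rw [eg, cpd_mul, cpd_mul]
      refine (nm_mul3 _ _ _).trans ?_
      exact mul_le_mul (mul_le_mul b2 b5 (nm_nonneg _) hc) b4 (nm_nonneg _) (by positivity)
    rw [cpd_mul, cpd_mul]
    calc _ ≤ (c * nm (cpd j U)) * (nm (cpd j V) * c) :=
          mul_le_mul ((nm_mul _ _).trans (by gcongr)) ((nm_mul _ _).trans (by gcongr))
            (nm_nonneg _) (by positivity)
      _ = c * c * (nm (cpd j U) * nm (cpd j V)) := by ring
      _ ≤ c * c * (θ * (c * (2 ^ N * 2 ^ N * (N.factorial * pr a j)) * c)) := by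
          exact mul_le_mul_of_nonneg_left (hUV.trans (by gcongr)) (by positivity)
      _ = _ := by simp only [d]; ring
  have := rigid_diag (X := k * X) (Y := Y * l) (X' := k * X') (Y' := Y' * l) (h := h) ha0
    (by rw [← hg]; simp only [Matrix.mul_assoc])
    (by rw [← hg, ← e]; simp only [Matrix.mul_assoc]) (by rw [← Matrix.mul_assoc, hh])
    (fun j hj => key _ _ j hj (h1 j hj)) (fun j hj => key _ _ j hj (h2 j hj))
  refine this.trans ?_
  have : 0 ≤ θ ^ 2 := by positivity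
  nlinarith

end Pool.Agent.MP_646035_al.H43

end

-- part MP_646035_al.H43.Count
section

/-!
The combinatorial part: gadgets give a uniform supermultiplicativity inequality for balls.
-/

namespace Pool.Agent.MP_646035_al.H43

open Finset

variable {Γ : Type*} [Group Γ]

/-- `F` is not covered by `J` thin sets. -/
def NC (Thin : Set Γ → Prop) (F : Set Γ) (J : ℕ) : Prop :=
  ∀ (ι : Type) [Fintype ι], Fintype.card ι ≤ J → ∀ Z : ι → Set Γ, (∀ i, Thin (Z i)) →
    ∃ f ∈ F, ∀ i, f ∉ Z i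

/-- `h` compares two additive factorisations of one element. -/
def Rl {ι : Type} (lam : ι → Γ → ℝ) (n : ℕ) (h : Γ) : Prop :=
  ∃ X Y X' Y' : Γ, X' * Y' = X * Y ∧ h = Y * Y'⁻¹ ∧
    ∀ a, lam a X + lam a Y' ≤ lam a (X * Y) + n ∧ lam a X' + lam a Y ≤ lam a (X * Y) + n

/-- The killing property. -/
def Kill (S : Finset Γ) (Thin : Set Γ → Prop) (K : Subgroup Γ) (J c κ : ℕ) (Q : Γ → Prop) : Prop :=
  ∃ b ∈ ball S c, ∃ d : List Γ → ℕ, d [] ≤ J ∧ (∀ s σ, d (s :: σ) ≤ d σ) ∧
    (∀ σ s, ∃ Z, Thin Z ∧ ∀ f ∉ Z, d ((f * s) :: σ) < d σ ∨ d σ = 0) ∧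
    ∀ σ, d σ = 0 → ∃ Φ : Finset Γ, Φ.card ≤ κ ∧ ∀ h,
      (∀ s ∈ σ, Q (s * h * s⁻¹) ∧ Q (b * s * h * (b * s)⁻¹)) → ∃ φ ∈ Φ, φ⁻¹ * h ∈ K

/-- The data extracted from one representation and one generating set. -/
structure Gad (S : Finset Γ) (Thin : Set Γ → Prop) (F : Set Γ) (K : Subgroup Γ) (J : ℕ)
    (c κ : ℕ → ℕ) where
  ι : Type
  [fin : Fintype ι]
  card : Fintype.card ι ≤ J
  lam : ι → Γ → ℝ
  sub : ∀ a x y, lam a (x * y) ≤ lam a x + lam a y
  subF : ∀ a, ∀ f ∈ F, lam a f ≤ 1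
  bd : ∀ a r, ∀ x ∈ ball S r, |lam a x| ≤ r + 1
  trans : ∀ a x y, Thin {f | f ∈ F ∧ lam a (x * f * y) < lam a x + lam a y - 1}
  kill : ∀ n, Kill S Thin K J (c n) (κ n) (Rl lam n)

attribute [instance] Gad.fin

section lists

variable {I T : Type} [DecidableEq I] (b : I → Γ) (w : T → Γ)

/-- The word attached to a list of choices. -/
def suf : List (I × T) → Γ
  | [] => 1
  | x :: l => b x.1 * (w x.2 * suf l)

/-- The conjugating elements attached to the label `i`. -/
def sig (i : I) : List (I × T) → List Γ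
  | [] => []
  | x :: l => if x.1 = i then (w x.2 * suf b w l) :: sig i l else sig i l

variable {A : Type} (lam : A → Γ → ℝ) (d : I → List Γ → ℕ)

/-- Admissible lists of choices. -/
def Adm (y : Γ) : List (I × T) → Prop
  | [] => True
  | x :: l => Adm y l ∧
      (∀ a, lam a (b x.1) + lam a (suf b w l * y) - 1 ≤ lam a (b x.1 * w x.2 * (suf b w l * y))) ∧
      (d x.1 ((w x.2 * suf b w l) :: sig b w x.1 l) < d x.1 (sig b w x.1 l) ∨
        d x.1 (sig b w x.1 l) = 0)

/-- The total size of the blocks. -/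
def mu (a : A) (l : List (I × T)) : ℝ := (l.map fun x => lam a (b x.1)).sum

variable {b w lam d}

lemma adm_pot {J : ℕ} (h0 : ∀ i, d i [] ≤ J) (h1 : ∀ i s σ, d i (s :: σ) ≤ d i σ) {y : Γ} (i : I) :
    ∀ l : List (I × T), Adm b w lam d y l →
      d i (sig b w i l) + (l.map Prod.fst).count i ≤ J ∨ d i (sig b w i l) = 0
  | [], _ => Or.inl (by simpa [sig] using h0 i)
  | x :: l, h => by
    have ih := adm_pot h0 h1 i l h.1
    by_cases hx : x.1 = i
    · have h2 := h.2.2
      have h3 := h1 i (w x.2 * suf b w l) (sig b w i l)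
      simp only [sig, hx, if_true, List.map_cons, List.count_cons_self] at h2 ⊢
      omega
    · simpa [sig, hx, List.count_cons_of_ne hx] using ih

omit [DecidableEq I] in
lemma adm_upper (hsub : ∀ a x y, lam a (x * y) ≤ lam a x + lam a y) (hw : ∀ a t, lam a (w t) ≤ 1)
    (y : Γ) (a : A) : ∀ l : List (I × T),
      lam a (suf b w l * y) ≤ mu b lam a l + lam a y + l.length
  | [] => by simp [suf, mu]
  | x :: l => by
    have ih := adm_upper hsub hw y a l
    have h1 := hsub a (b x.1) (w x.2 * (suf b w l * y))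
    have h2 := hsub a (w x.2) (suf b w l * y)
    have h3 := hw a x.2
    simp only [suf, mu, List.map_cons, List.sum_cons, List.length_cons, mul_assoc] at ih ⊢
    push_cast
    linarith

lemma adm_lower {y : Γ} (a : A) : ∀ l : List (I × T), Adm b w lam d y l →
      mu b lam a l + lam a y - l.length ≤ lam a (suf b w l * y)
  | [], _ => by simp [suf, mu]
  | x :: l, h => by
    have ih := adm_lower a l h.1
    have h1 := h.2.1 a
    simp only [suf, mu, List.map_cons, List.sum_cons, List.length_cons, mul_assoc] at ih h1 ⊢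
    push_cast
    linarith

lemma rl_of_adm (hsub : ∀ a x y, lam a (x * y) ≤ lam a x + lam a y) (hw : ∀ a t, lam a (w t) ≤ 1)
    {y y' : Γ} (hy : ∀ a, |lam a y - lam a y'| ≤ 1) (n : ℕ) (i : I) :
    ∀ (l : List (I × T)) (X X' : Γ) (m : ℝ), X' * (suf b w l * y') = X * (suf b w l * y) →
      m + l.length + 1 ≤ n →
      (∀ a, lam a X + mu b lam a l + lam a y ≤ lam a (X * (suf b w l * y)) + m) →
      (∀ a, lam a X' + mu b lam a l + lam a y' ≤ lam a (X * (suf b w l * y)) + m) →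
      ∀ s ∈ sig b w i l, Rl lam n (s * (y * y'⁻¹) * s⁻¹) ∧
        Rl lam n (b i * s * (y * y'⁻¹) * (b i * s)⁻¹)
  | [], _, _, _, _, _, _, _ => by simp [sig]
  | x :: l, X, X', m, e, hm, h1, h2 => by
    have e0 : ∀ z, X * b x.1 * w x.2 * (suf b w l * z) = X * (suf b w (x :: l) * z) := fun z => by
      simp only [suf, mul_assoc]
    have hl : ((x :: l).length : ℝ) = l.length + 1 := by simp
    have hmu : ∀ a, mu b lam a (x :: l) = lam a (b x.1) + mu b lam a l := fun a => by simp [mu]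
    have ih := rl_of_adm hsub hw hy n i l (X * b x.1 * w x.2) (X' * b x.1 * w x.2) (m + 1)
      (by rw [e0, ← e]; simp only [suf, mul_assoc]) (by linarith)
      (fun a => by
        rw [e0]
        linarith [h1 a, hsub a (X * b x.1) (w x.2), hsub a X (b x.1), hw a x.2, hmu a])
      (fun a => by
        rw [e0]
        linarith [h2 a, hsub a (X' * b x.1) (w x.2), hsub a X' (b x.1), hw a x.2, hmu a])
    intro s hs
    by_cases hx : x.1 = i
    · simp only [sig, hx, if_true, List.mem_cons] at hs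
      rcases hs with rfl | hs
      · have e1 : X * b x.1 * (w x.2 * (suf b w l * y)) = X * (suf b w (x :: l) * y) := by
          simp only [suf, mul_assoc]
        constructor
        · refine ⟨X * b x.1, w x.2 * (suf b w l * y), X' * b x.1, w x.2 * (suf b w l * y'),
            by rw [e1, ← e]; simp only [suf, mul_assoc], by group, fun a => ?_⟩
          rw [e1]
          have := abs_le.1 (hy a)
          constructor
          · linarith [h1 a, hsub a X (b x.1), hsub a (w x.2) (suf b w l * y'), hw a x.2, hmu a,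
              adm_upper (b := b) hsub hw y' a l]
          · linarith [h2 a, hsub a X' (b x.1), hsub a (w x.2) (suf b w l * y), hw a x.2, hmu a,
              adm_upper (b := b) hsub hw y a l]
        · refine ⟨X, suf b w (x :: l) * y, X', suf b w (x :: l) * y', e,
            by simp only [suf, hx]; group, fun a => ?_⟩
          have := abs_le.1 (hy a)
          constructor
          · linarith [h1 a, adm_upper (b := b) hsub hw y' a (x :: l)]
          · linarith [h2 a, adm_upper (b := b) hsub hw y a (x :: l)]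
      · exact ih s hs
    · simp only [sig, hx, if_false] at hs
      exact ih s hs

omit [DecidableEq I] in
lemma suf_mem_ball {S : Finset Γ} {c cF : ℕ} (hb : ∀ i, b i ∈ ball S c)
    (hw : ∀ t, w t ∈ ball S cF) : ∀ l : List (I × T), suf b w l ∈ ball S (l.length * (c + cF))
  | [] => one_mem_ball _ _
  | x :: l => ball_mono S (by simp only [List.length_cons]; ring_nf; omega)
      (mul_mem_ball (hb x.1) (mul_mem_ball (hw x.2) (suf_mem_ball hb hw l)))

lemma exists_adm [Fintype A] {Thin : Set Γ → Prop} {J : ℕ} (hNC : NC Thin (Set.range w) J)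
    (hJ : Fintype.card A + 1 ≤ J)
    (htr : ∀ a x y, Thin {f | f ∈ Set.range w ∧ lam a (x * f * y) < lam a x + lam a y - 1})
    (hd : ∀ i σ s, ∃ Z, Thin Z ∧ ∀ f ∉ Z, d i ((f * s) :: σ) < d i σ ∨ d i σ = 0) (y : Γ) :
    ∀ ts : List I, ∃ l : List (I × T), l.map Prod.fst = ts ∧ Adm b w lam d y l
  | [] => ⟨[], rfl, trivial⟩
  | i :: ts => by
    obtain ⟨l, h1, h2⟩ := exists_adm hNC hJ htr hd y ts
    obtain ⟨Z, hZ, hZ'⟩ := hd i (sig b w i l) (suf b w l)
    obtain ⟨f, ⟨t, rfl⟩, hf⟩ := hNC (Option A) (by simpa using hJ)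
      (fun o => o.elim Z fun a => {f | f ∈ Set.range w ∧ lam a (b i * f * (suf b w l * y)) <
        lam a (b i) + lam a (suf b w l * y) - 1})
      (by rintro (_ | a); exacts [hZ, htr _ _ _])
    refine ⟨(i, t) :: l, by simp [h1], h2, fun a => ?_, hZ' _ (hf none)⟩
    have := hf (some a)
    simpa using this

end lists

lemma card_cosets {I : Type} [Fintype I] (K : I → Subgroup Γ)
    (hK : ((⨅ i, K i : Subgroup Γ) : Set Γ).Finite) (Φ : I → Finset Γ) {κ : ℕ}
    (hΦ : ∀ i, (Φ i).card ≤ κ) (H : Finset Γ) (hH : ∀ h ∈ H, ∀ i, ∃ φ ∈ Φ i, φ⁻¹ * h ∈ K i) :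
    H.card ≤ hK.toFinset.card * κ ^ Fintype.card I := by
  classical
  choose! φ h1 h2 using hH
  refine (Finset.card_le_mul_card_image_of_maps_to (f := φ) (t := Fintype.piFinset Φ)
    (fun h hh => Fintype.mem_piFinset.2 (h1 h hh)) hK.toFinset.card ?_).trans ?_
  · intro p _
    rcases (H.filter fun h => φ h = p).eq_empty_or_nonempty with h0 | ⟨h0, hh0⟩
    · simp [h0]
    refine Finset.card_le_card_of_injOn (fun h => h0⁻¹ * h) ?_ fun x _ y _ hxy => by simpa using hxy
    intro h hh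
    simp only [Finset.coe_filter, Set.mem_ofPred_eq, Finset.mem_filter] at hh hh0
    simp only [Set.Finite.coe_toFinset, SetLike.mem_coe, Subgroup.mem_iInf]
    intro i
    have a1 := h2 h hh.1 i
    have a2 := h2 h0 hh0.1 i
    rw [hh.2] at a1
    rw [hh0.2] at a2
    simpa [mul_assoc] using mul_mem (inv_mem a2) a1
  · gcongr
    rw [Fintype.card_piFinset]
    exact (Finset.prod_le_pow_card _ _ κ fun i _ => hΦ i).trans (by simp)

/-- Uniform supermultiplicativity of the growth function. -/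
def MI (Γ : Type*) [Group Γ] (c K e : ℕ) (S : Finset Γ) : Prop :=
  ∀ R r, (ball S R).ncard * (ball S r).ncard ≤ K * (2 * r + 3) ^ e * (ball S (R + r + c)).ncard

/-- The product set form of uniform supermultiplicativity. -/
def MI' (Γ : Type*) [Group Γ] (c K e : ℕ) (S : Finset Γ) : Prop :=
  ∀ (r : ℕ) (X Y T : Finset Γ), (∀ y ∈ Y, y ∈ ball S r) →
    (∀ x ∈ X, ∀ z ∈ ball S c, ∀ y ∈ Y, x * z * y ∈ T) →
    X.card * Y.card ≤ K * (2 * r + 3) ^ e * T.card

theorem mi_of_gad {I : Type} [Fintype I] (K : I → Subgroup Γ)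
    (hK : ((⨅ i, K i : Subgroup Γ) : Set Γ).Finite) (J m cF : ℕ) (c κ : ℕ → ℕ) :
    ∃ c0 K0 e : ℕ, ∀ (S : Finset Γ) (w : Fin m → Γ) (Thin : Set Γ → Prop),
      (∀ t, w t ∈ ball S cF) → NC Thin (Set.range w) (Fintype.card I * J + 1) →
      (∀ i, Nonempty (Gad S Thin (Set.range w) (K i) J c κ)) → MI' Γ c0 K0 e S := by
  classical
  let ts : List I := (Finset.univ : Finset I).toList.flatMap fun i => List.replicate J i
  let D := ts.length
  let n := 2 * D + 3
  have hts : ∀ i, J ≤ ts.count i := by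
    intro i
    have : List.Sublist (List.replicate J i) ts :=
      List.sublist_flatten_of_mem (List.mem_map.2 ⟨i, by simp, rfl⟩)
    simpa using this.count_le i
  let Ls := (List.finite_length_eq (I × Fin m) D).toFinset
  refine ⟨cF + D * (c n + cF), hK.toFinset.card * κ n ^ Fintype.card I * (Ls.card * m),
    Fintype.card I * J, fun S w Thin hw hNC hG r X0 Y0 T0 hY0 hT0 => ?_⟩
  let G := fun i => (hG i).some
  let A := Σ i, (G i).ι
  let lam : A → Γ → ℝ := fun a => (G a.1).lam a.2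
  have hA : Fintype.card A ≤ Fintype.card I * J := by
    rw [Fintype.card_sigma]
    exact (Finset.sum_le_card_nsmul _ _ J fun i _ => (G i).card).trans (by simp)
  choose b hb d d0 d1 d2 d3 using fun i => (G i).kill n
  have hsub : ∀ a x y, lam a (x * y) ≤ lam a x + lam a y := fun a => (G a.1).sub a.2
  have hw1 : ∀ a t, lam a (w t) ≤ 1 := fun a t => (G a.1).subF a.2 _ ⟨t, rfl⟩
  have htr : ∀ a x y, Thin {f | f ∈ Set.range w ∧ lam a (x * f * y) < lam a x + lam a y - 1} :=
    fun a => (G a.1).trans a.2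
  choose l l1 l2 using fun y => exists_adm (b := b) (d := d) hNC (by omega) htr d2 y ts
  have hl : ∀ y, (l y).length = D := fun y => by simp [D, ← l1 y]
  have hf : ∀ x y, ∃ t, ∀ a, lam a x + lam a y - 1 ≤ lam a (x * w t * y) := by
    intro x y
    obtain ⟨f, ⟨t, rfl⟩, hf⟩ := hNC A (by omega) _ fun a => htr a x y
    exact ⟨t, fun a => by simpa using hf a⟩
  choose f0 hf0 using hf
  let Θ : Γ × Γ → Γ × List (I × Fin m) × Fin m × (A → ℤ) := fun p =>
    (p.1 * w (f0 p.1 (suf b w (l p.2) * p.2)) * (suf b w (l p.2) * p.2), l p.2,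
      f0 p.1 (suf b w (l p.2) * p.2), fun a => ⌊lam a p.2⌋)
  let Bk : Finset (A → ℤ) := Fintype.piFinset fun _ => Finset.Icc (-(r + 1 : ℤ)) (r + 1)
  have hBk : Bk.card ≤ (2 * r + 3) ^ (Fintype.card I * J) := by
    have : (Finset.Icc (-(r + 1 : ℤ)) (r + 1)).card = 2 * r + 3 := by simp; omega
    simp only [Bk, Fintype.card_piFinset, this, Finset.prod_const, Finset.card_univ]
    exact Nat.pow_le_pow_right (by omega) hA
  have key := Finset.card_le_mul_card_image_of_maps_to (f := Θ)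
    (s := X0 ×ˢ Y0) (t := T0 ×ˢ Ls ×ˢ Finset.univ ×ˢ Bk)
    ?_ (hK.toFinset.card * κ n ^ Fintype.card I) ?_
  · simp only [Finset.card_product, Finset.card_univ, Fintype.card_fin] at key ⊢
    refine key.trans ?_
    calc _ ≤ hK.toFinset.card * κ n ^ Fintype.card I * (T0.card *
            (Ls.card * (m * (2 * r + 3) ^ (Fintype.card I * J)))) := by gcongr
      _ = _ := by ring
  · rintro ⟨x, y⟩ hp
    simp only [Finset.mem_product, Set.Finite.mem_toFinset, Finset.mem_univ, true_and, Θ, Ls,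
      Set.mem_ofPred_eq, hl, Bk, Fintype.mem_piFinset, Finset.mem_Icc] at hp ⊢
    refine ⟨by simpa only [mul_assoc] using hT0 x hp.1 _ (mul_mem_ball (hw _)
      (hl y ▸ suf_mem_ball hb hw (l y))) y hp.2, fun a => ?_⟩
    have := abs_le.1 ((G a.1).bd a.2 r y (hY0 y hp.2))
    exact ⟨Int.le_floor.2 (by exact_mod_cast this.1),
      Int.floor_le_iff.2 (by push_cast; linarith [this.2])⟩
  · intro q _
    rcases ((X0 ×ˢ Y0).filter fun p => Θ p = q).eq_empty_or_nonempty with h0 | ⟨⟨x', y'⟩, hp'⟩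
    · simp [h0]
    have hd0 : ∀ i, d i (sig b w i (l y')) = 0 := fun i => by
      have h1 := adm_pot d0 d1 i _ (l2 y')
      have h2 := hts i
      rw [l1] at h1
      omega
    choose Φ Φ1 Φ2 using fun i => d3 i _ (hd0 i)
    rw [← Finset.card_image_of_injOn (f := fun p => p.2 * y'⁻¹)]
    · refine card_cosets K hK Φ Φ1 _ fun h hh i => Φ2 i h ?_
      obtain ⟨⟨x, y⟩, hp, rfl⟩ := Finset.mem_image.1 hh
      have e := (Finset.mem_filter.1 hp).2.trans (Finset.mem_filter.1 hp').2.symm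
      simp only [Θ, Prod.mk.injEq] at e
      obtain ⟨e1, e2, e3, e4⟩ := e
      have g1 := hf0 x (suf b w (l y) * y)
      have g2 := hf0 x' (suf b w (l y') * y')
      have g3 := fun a => adm_lower a _ (l2 y)
      have g4 := fun a => adm_lower a _ (l2 y')
      rw [← e1] at g2
      rw [e3] at g1 e1 g2
      rw [e2] at g1 e1 g2 g3
      have := rl_of_adm (b := b) hsub hw1 (y := y) (y' := y') (fun a =>
        (Int.abs_sub_lt_one_of_floor_eq_floor (congrFun e4 a)).le) n i (l y') _ _ (D + 2) e1.symm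
        (by rw [hl]; simp only [n]; push_cast; linarith)
        (fun a => by
          have := g3 a
          rw [hl] at this
          linarith [g1 a, hsub a x (w (f0 x' (suf b w (l y') * y'))),
            hw1 a (f0 x' (suf b w (l y') * y'))])
        (fun a => by
          have := g4 a
          rw [hl] at this
          linarith [g2 a, hsub a x' (w (f0 x' (suf b w (l y') * y'))),
            hw1 a (f0 x' (suf b w (l y') * y'))])
      intro s hs
      obtain ⟨⟨X, Y, X', Y', a1, a2, a3⟩, ⟨U, V, U', V', a4, a5, a6⟩⟩ := this s hs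
      exact ⟨⟨X, Y, X', Y', a1, a2, fun a => a3 ⟨i, a⟩⟩, ⟨U, V, U', V', a4, a5, fun a => a6 ⟨i, a⟩⟩⟩
    · rintro ⟨x, y⟩ hp ⟨x2, y2⟩ hp2 hxy
      have e := (Finset.mem_filter.1 hp).2.trans (Finset.mem_filter.1 hp2).2.symm
      simp only [mul_left_inj] at hxy
      subst hxy
      simp only [Θ, Prod.mk.injEq] at e
      obtain ⟨e1, -, e3, -⟩ := e
      rw [e3] at e1
      simpa using e1

/-- Separation of almost additive functions by an auxiliary element. -/
lemma exists_aux {ι : Type} [Fintype ι] (lam : ι → Γ → ℝ)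
    (htr : ∀ x y, ∃ f, ∀ a, |lam a (x * f * y) - lam a x - lam a y| ≤ 1) (B : ℝ) :
    ∃ Z, ∀ a b, (∀ x, |lam a x - lam b x| ≤ 2) ∨ B ≤ |lam a Z - lam b Z| := by
  classical
  have unb : ∀ a b x, 2 < lam a x - lam b x → ∀ B : ℝ, ∃ z, B ≤ lam a z - lam b z := by
    intro a b x hx B
    have h1 : ∀ n : ℕ, ∃ z, n * (lam a x - lam b x - 2) ≤ lam a z - lam b z := by
      intro n
      induction n with
      | zero => exact ⟨x, by simp; linarith⟩
      | succ n ih =>
        obtain ⟨z, hz⟩ := ih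
        obtain ⟨f, hf⟩ := htr z x
        refine ⟨z * f * x, ?_⟩
        have := abs_le.1 (hf a)
        have := abs_le.1 (hf b)
        push_cast
        linarith
    obtain ⟨n, hn⟩ := exists_nat_ge (B / (lam a x - lam b x - 2))
    obtain ⟨z, hz⟩ := h1 n
    rw [div_le_iff₀ (by linarith)] at hn
    exact ⟨z, hn.trans hz⟩
  have unb' : ∀ a b, (∀ x, |lam a x - lam b x| ≤ 2) ∨ ∀ B : ℝ, ∃ z, B ≤ |lam a z - lam b z| := by
    intro a b
    by_cases h : ∀ x, |lam a x - lam b x| ≤ 2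
    · exact Or.inl h
    right
    intro B
    obtain ⟨x, hx⟩ := not_forall.1 h
    rcases lt_abs.1 (not_le.1 hx) with h1 | h1
    · obtain ⟨z, hz⟩ := unb a b x h1 B
      exact ⟨z, hz.trans (le_abs_self _)⟩
    · obtain ⟨z, hz⟩ := unb b a x (by linarith) B
      exact ⟨z, hz.trans (by rw [abs_sub_comm]; exact le_abs_self _)⟩
  have key : ∀ s : Finset (ι × ι), ∀ B : ℝ, ∃ Z, ∀ p ∈ s,
      (∀ x, |lam p.1 x - lam p.2 x| ≤ 2) ∨ B ≤ |lam p.1 Z - lam p.2 Z| := by
    intro s
    induction s using Finset.induction_on with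
    | empty => exact fun B => ⟨1, by simp⟩
    | insert p s _ ih =>
      intro B
      rcases unb' p.1 p.2 with h | h
      · obtain ⟨Z, hZ⟩ := ih B
        exact ⟨Z, by simpa [h] using hZ⟩
      obtain ⟨x, hx⟩ := h (2 * B + 2)
      let C := ∑ q : ι × ι, |lam q.1 x - lam q.2 x|
      have hC : ∀ q : ι × ι, |lam q.1 x - lam q.2 x| ≤ C := fun q =>
        Finset.single_le_sum (f := fun q : ι × ι => |lam q.1 x - lam q.2 x|)
          (fun _ _ => abs_nonneg _) (Finset.mem_univ q)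
      obtain ⟨Z, hZ⟩ := ih (B + C + 2)
      have hC0 : 0 ≤ C := (abs_nonneg _).trans (hC p)
      by_cases h1 : B ≤ |lam p.1 Z - lam p.2 Z|
      · refine ⟨Z, fun q hq => ?_⟩
        rcases Finset.mem_insert.1 hq with rfl | hq
        · exact Or.inr h1
        · exact (hZ q hq).imp id fun h => by linarith
      obtain ⟨f, hf⟩ := htr Z x
      refine ⟨Z * f * x, fun q hq => ?_⟩
      have a1 := abs_le.1 (hf q.1)
      have a2 := abs_le.1 (hf q.2)
      rcases Finset.mem_insert.1 hq with rfl | hq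
      · right
        have := abs_lt.1 (not_le.1 h1)
        rcases le_abs'.1 hx with h2 | h2
        · exact le_abs'.2 (Or.inl (by linarith))
        · exact le_abs'.2 (Or.inr (by linarith))
      · refine (hZ q hq).imp id fun h => ?_
        have := abs_le.1 (hC q)
        rcases le_abs'.1 h with h2 | h2
        · exact le_abs'.2 (Or.inl (by linarith))
        · exact le_abs'.2 (Or.inr (by linarith))
  obtain ⟨Z, hZ⟩ := key Finset.univ B
  exact ⟨Z, fun a b => hZ (a, b) (Finset.mem_univ _)⟩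

section escape

variable {k : Type*} [Field k]

lemma select_points {X : Type*} (B : Set X) : ∀ (n : ℕ) (G : Submodule k (X → k))
    [FiniteDimensional k G], B.Nonempty → Module.finrank k G ≤ n →
    (∀ φ ∈ G, (∀ x ∈ B, φ x = 0) → φ = 0) →
    ∃ w : Fin n → X, (∀ t, w t ∈ B) ∧ ∀ φ ∈ G, (∀ t, φ (w t) = 0) → φ = 0 := by
  intro n
  induction n with
  | zero =>
    intro G _ _ h1 _
    have : G = ⊥ := Submodule.finrank_eq_zero.1 (by omega)
    exact ⟨Fin.elim0, fun t => t.elim0, fun φ hφ _ => by simpa [this] using hφ⟩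
  | succ n ih =>
    intro G _ hB h1 h2
    by_cases hG : G = ⊥
    · obtain ⟨x, hx⟩ := hB
      exact ⟨fun _ => x, fun _ => hx, fun φ hφ _ => by simpa [hG] using hφ⟩
    obtain ⟨φ, hφ, hφ0⟩ := Submodule.exists_mem_ne_zero_of_ne_bot hG
    obtain ⟨x, hx, hx0⟩ : ∃ x ∈ B, φ x ≠ 0 := by
      by_contra hc
      push Not at hc
      exact hφ0 (h2 φ hφ hc)
    let G' := G ⊓ LinearMap.ker (LinearMap.proj x : (X → k) →ₗ[k] k)
    have hlt : G' < G := lt_of_le_of_ne inf_le_left fun h => hx0 (by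
      have : φ ∈ G' := h ▸ hφ
      exact this.2)
    have : FiniteDimensional k G' := Submodule.finiteDimensional_of_le hlt.le
    obtain ⟨w, w1, w2⟩ := ih G' hB (by have := Submodule.finrank_lt_finrank_of_lt hlt; omega)
      fun ψ hψ => h2 ψ hψ.1
    refine ⟨Fin.cons x w, fun t => by induction t using Fin.cases <;> simp [*], fun ψ hψ h => ?_⟩
    exact w2 ψ ⟨hψ, by simpa using h 0⟩ fun t => by simpa using h t.succ

theorem escape (G : Submodule k (Γ → k)) [FiniteDimensional k G]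
    (hG : ∀ φ ∈ G, ∀ s : Γ, (fun x => φ (x * s)) ∈ G) (S : Finset Γ)
    (hS : Subgroup.closure (S : Set Γ) = ⊤) :
    ∃ w : Fin (Module.finrank k G) → Γ, (∀ t, w t ∈ ball S (Module.finrank k G)) ∧
      ∀ φ ∈ G, (∀ t, φ (w t) = 0) → φ = 0 := by
  let V : ℕ → Submodule k (Γ → k) := fun j =>
    G ⊓ ⨅ x ∈ ball S j, LinearMap.ker (LinearMap.proj x : (Γ → k) →ₗ[k] k)
  have hV : ∀ j φ, φ ∈ V j ↔ φ ∈ G ∧ ∀ x ∈ ball S j, φ x = 0 := by
    intro j φ; simp [V]
  have hall : ∀ x : Γ, ∃ r, x ∈ ball S r := by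
    intro x
    have hx : x ∈ Subgroup.closure (S : Set Γ) := hS ▸ Subgroup.mem_top x
    induction hx using Subgroup.closure_induction with
    | mem x hx => exact ⟨1, mem_ball_one hx⟩
    | one => exact ⟨0, one_mem_ball S 0⟩
    | mul x y _ _ h1 h2 =>
      obtain ⟨r, h1⟩ := h1
      obtain ⟨r', h2⟩ := h2
      exact ⟨_, mul_mem_ball h1 h2⟩
    | inv x _ h => exact h.imp fun r h => inv_mem_ball h
  have hstab : ∀ j, V j ≤ V (j + 1) → V j = ⊥ := by
    intro j hj
    have h1 : ∀ r, ∀ φ ∈ V j, ∀ x ∈ ball S (j + r), φ x = 0 := by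
      intro r
      induction r with
      | zero => exact fun φ hφ => ((hV j φ).1 hφ).2
      | succ r ih =>
        intro φ hφ x hx
        obtain ⟨y, hy, s, hs, rfl⟩ := ball_add_subset S (j + r) 1 hx
        refine ih (fun x => φ (x * s)) ((hV j _).2 ⟨hG φ ((hV j φ).1 hφ).1 s, fun z hz => ?_⟩) y hy
        exact ((hV _ φ).1 (hj hφ)).2 _ (mul_mem_ball hz hs)
    rw [eq_bot_iff]
    intro φ hφ
    funext x
    obtain ⟨r, hr⟩ := hall x
    exact h1 r φ hφ x (ball_mono S (by omega) hr)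
  have hanti : ∀ j, V (j + 1) ≤ V j := fun j φ hφ =>
    (hV j φ).2 ⟨((hV _ φ).1 hφ).1, fun x hx => ((hV _ φ).1 hφ).2 x (ball_mono S (by omega) hx)⟩
  have hfin : ∀ j, FiniteDimensional k (V j) := fun j =>
    Submodule.finiteDimensional_of_le (inf_le_left : V j ≤ G)
  have hdim : ∀ j, V j = ⊥ ∨ Module.finrank k (V j) + j ≤ Module.finrank k G := by
    intro j
    induction j with
    | zero => exact Or.inr (Submodule.finrank_mono (inf_le_left : V 0 ≤ G))
    | succ j ih =>
      by_cases h : V j ≤ V (j + 1)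
      · exact Or.inl (eq_bot_iff.2 ((hanti j).trans (hstab j h).le))
      · rcases ih with ih | ih
        · exact absurd (ih ▸ bot_le) h
        · have := Submodule.finrank_lt_finrank_of_lt (lt_of_le_not_ge (hanti j) h)
          right; omega
  have hbot : V (Module.finrank k G) = ⊥ :=
    (hdim _).elim id fun h => Submodule.finrank_eq_zero.1 (by omega)
  exact select_points _ _ G ⟨1, one_mem_ball S _⟩ le_rfl fun φ h1 h2 => by
    simpa [hbot] using (hV _ φ).2 ⟨h1, h2⟩

end escape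

end Pool.Agent.MP_646035_al.H43

end

-- part MP_646035_al.H43.Rigid
section

/-!
Rigidity at one place.
-/

namespace Pool.Agent.MP_646035_al.H43

open Matrix Finset

variable {Γ : Type*} [Group Γ]

lemma Rl.inv {A : Type} {lam : A → Γ → ℝ} {n : ℕ} {h : Γ} (H : Rl lam n h) : Rl lam n h⁻¹ := by
  obtain ⟨X, Y, X', Y', e, rfl, h1⟩ := H
  exact ⟨X', Y', X, Y, e.symm, by group, fun a => by rw [e]; exact (h1 a).symm⟩

lemma rl_mu {A J : Type} [Fintype A] {lam : A → Γ → ℝ} {π : A → J} {μ : J → Γ → ℝ} {F : Set Γ}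
    (hsub : ∀ a x y, ∀ f ∈ F, lam a (x * f * y) ≤ lam a x + lam a y + 1)
    (htr : ∀ x y, ∃ f ∈ F, ∀ a, lam a x + lam a y - 1 ≤ lam a (x * f * y))
    (h1 : ∀ a x, lam a x ≤ μ (π a) x + 1) (h2 : ∀ j x, ∃ a, π a = j ∧ μ j x ≤ lam a x + 1)
    {n : ℕ} {h : Γ} (H : Rl lam n h) : Rl μ (n + 11) h := by
  classical
  obtain ⟨X, Y, X', Y', e, rfl, H⟩ := H
  let δ : A × A → ℝ := fun p => |lam p.1 X - lam p.2 X| + |lam p.1 X' - lam p.2 X'| +
    |lam p.1 Y - lam p.2 Y| + |lam p.1 Y' - lam p.2 Y'|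
  have hδ : ∀ p, δ p ≤ ∑ q, δ q := fun p =>
    Finset.single_le_sum (f := δ) (fun _ _ => by positivity) (Finset.mem_univ p)
  obtain ⟨Z, hZ⟩ := exists_aux lam (fun x y => by
    obtain ⟨f, hf, hf'⟩ := htr x y
    exact ⟨f, fun a => abs_le.2 ⟨by linarith [hf' a], by linarith [hsub a x y f hf]⟩⟩) (∑ q, δ q)
  obtain ⟨f, hf, f1⟩ := htr Z (X * Y)
  obtain ⟨f', hf', f2⟩ := htr (Z * f * (X * Y)) Z
  have e1 : Z * f * X * (Y * f' * Z) = Z * f * (X * Y) * f' * Z := by group
  refine ⟨Z * f * X, Y * f' * Z, Z * f * X', Y' * f' * Z, by rw [e1, ← e]; group, by group,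
    fun j => ?_⟩
  obtain ⟨a0, ha0, -⟩ := h2 j 1
  obtain ⟨b, hb, hmax⟩ := Finset.exists_max_image (Finset.univ.filter fun a => π a = j)
    (fun a => lam a Z) ⟨a0, by simp [ha0]⟩
  simp only [Finset.mem_filter, Finset.mem_univ, true_and] at hb hmax
  have key : ∀ x, (∀ a, |lam a x - lam b x| ≤ ∑ q, δ q) →
      μ j (Z * f * x) ≤ lam b Z + lam b x + 4 ∧ μ j (x * f' * Z) ≤ lam b Z + lam b x + 4 := by
    intro x hx
    have k1 : ∀ a, π a = j → lam a Z + lam a x ≤ lam b Z + lam b x + 2 := by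
      intro a ha
      have := hmax a ha
      rcases hZ a b with h | h
      · linarith [(abs_le.1 (h x)).2]
      · rw [abs_of_nonpos (by linarith)] at h
        linarith [(abs_le.1 (hx a)).2]
    constructor
    · obtain ⟨a, ha, ha'⟩ := h2 j (Z * f * x)
      linarith [k1 a ha, hsub a Z x f hf]
    · obtain ⟨a, ha, ha'⟩ := h2 j (x * f' * Z)
      linarith [k1 a ha, hsub a x Z f' hf']
  have k0 : ∀ a, |lam a X - lam b X| ≤ ∑ q, δ q ∧ |lam a X' - lam b X'| ≤ ∑ q, δ q ∧
      |lam a Y - lam b Y| ≤ ∑ q, δ q ∧ |lam a Y' - lam b Y'| ≤ ∑ q, δ q := by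
    intro a
    have q0 : |lam a X - lam b X| + |lam a X' - lam b X'| +
      |lam a Y - lam b Y| + |lam a Y' - lam b Y'| ≤ ∑ q, δ q := hδ (a, b)
    have q1 := abs_nonneg (lam a X - lam b X)
    have q2 := abs_nonneg (lam a X' - lam b X')
    have q3 := abs_nonneg (lam a Y - lam b Y)
    have q4 := abs_nonneg (lam a Y' - lam b Y')
    exact ⟨by linarith, by linarith, by linarith, by linarith⟩
  have k1 := key X fun a => (k0 a).1
  have k2 := key X' fun a => (k0 a).2.1
  have k3 := key Y fun a => (k0 a).2.2.1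
  have k4 := key Y' fun a => (k0 a).2.2.2
  have k5 := h1 b (Z * f * (X * Y) * f' * Z)
  rw [hb] at k5
  rw [e1]
  push_cast
  constructor <;> linarith [k1.1, k2.1, k3.2, k4.2, f1 b, f2 b, (H b).1, (H b).2]

lemma lg_le {β x y : ℝ} (hβ : 1 < β) (hx : 0 < x) (hy : 0 < y) (n : ℕ) (h : x ≤ β ^ n * y) :
    Real.logb β x ≤ n + Real.logb β y := by
  have := Real.logb_le_logb_of_le hβ hx h
  rwa [Real.logb_mul (by positivity) hy.ne', Real.logb_pow, Real.logb_self_eq_one hβ,
    mul_one] at this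

lemma le_of_lg {β x y : ℝ} (hβ : 1 < β) (hx : 0 < x) (hy : 0 < y) (n : ℕ)
    (h : Real.logb β x ≤ n + Real.logb β y) : x ≤ β ^ n * y := by
  rw [← Real.logb_le_logb hβ hx (by positivity), Real.logb_mul (by positivity) hy.ne',
    Real.logb_pow, Real.logb_self_eq_one hβ, mul_one]
  exact h

theorem place_pack (N : ℕ) : ∃ C0 : ℝ, ∀ (L : Type) [NormedField L] [IsAlgClosed L] [CharZero L]
    (ρ : Γ →* Matrix (Fin N) (Fin N) L) (m : ℕ) (S : Finset Γ) (F : Set Γ) (Thin : Set Γ → Prop)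
    (θ : ℝ), NC Thin F ((N + 1) * 2 ^ N) → Thin ∅ → (∀ Z Z', Z ⊆ Z' → Thin Z' → Thin Z) →
    C0 ≤ θ → (∀ p : ℕ, 1 ≤ p → p ≤ 2 ^ N * 2 ^ N → 1 ≤ ‖(p : L)‖ * θ) →
    (∀ j ≤ N, ∀ f ∈ F ∪ ball S 1, nm (cpd j (ρ f)) ≤ θ) →
    (∀ j ≤ N, ∀ Z ⊆ F, ¬ Thin Z → ∃ (w : Fin m → Γ) (G : Matrix (Fin m) (Fin m) L),
      (∀ t, w t ∈ Z) ∧ nm G ≤ θ ∧ Fr ((cpdHom j N).comp ρ) w G) →
    ∃ (ι : Type) (_ : Fintype ι) (lam : ι → Γ → ℝ), Fintype.card ι ≤ (N + 1) * 2 ^ N ∧
      (∀ a x y, lam a (x * y) ≤ lam a x + lam a y) ∧ (∀ a, ∀ f ∈ F, lam a f ≤ 1) ∧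
      (∀ a r, ∀ x ∈ ball S r, |lam a x| ≤ r + 1) ∧
      (∀ a x y, Thin {f | f ∈ F ∧ lam a (x * f * y) < lam a x + lam a y - 1}) ∧
      ∀ n h, Rl lam n h → nm (ρ h) ≤ θ ^ (22 * n + 243) := by
  obtain ⟨C1, -, hC1⟩ := rigid_GL N
  refine ⟨max (max C1 2) (2 ^ N), ?_⟩
  intro L _ _ _ ρ m S F Thin θ hNC h0 hmono hθ hp hb hfr
  simp only [max_le_iff] at hθ
  obtain ⟨⟨hθ1, hθ2⟩, hθ3⟩ := hθ
  have hF : ¬ Thin F := fun h => by
    obtain ⟨f, hf, hf'⟩ := hNC Unit (by simpa using Nat.one_le_iff_ne_zero.2 (by positivity))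
      (fun _ => F) fun _ => h
    exact hf' () hf
  have hD : ∀ j, (Fintype.card (PC N j) : ℝ) ≤ θ := fun j =>
    le_trans (by exact_mod_cast card_PC_le N j) hθ3
  have hc := fun j : Fin (N + 1) => exists_comp ((cpdHom j N).comp ρ) F Thin hF h0 (hD j)
    (fun p h1 h2 => hp p h1 (h2.trans (Nat.mul_le_mul (card_PC_le N j) (card_PC_le N j))))
    (by linarith) (fun f hf => hb j (Nat.lt_succ_iff.1 j.2) f (Or.inl hf))
    (hfr j (Nat.lt_succ_iff.1 j.2))
  choose n ν hn hsum hν using hc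
  have hθ1' : 1 ≤ θ := by linarith
  set β := θ ^ 11 with hβ
  have hβ1 : 1 < β := one_lt_pow₀ (by linarith) (by norm_num)
  have hβθ : ∀ i ≤ 11, θ ^ i ≤ β := fun i hi => pow_le_pow_right₀ hθ1' hi
  let ι := Σ j : Fin (N + 1), Fin (n j)
  let lam : ι → Γ → ℝ := fun a x => Real.logb β (ν a.1 a.2 x)
  have pos : ∀ (a : ι) x, 0 < ν a.1 a.2 x := fun a => (hν a.1 a.2).2.2.1
  have hcard : Fintype.card ι ≤ (N + 1) * 2 ^ N := by
    rw [Fintype.card_sigma]
    refine (Finset.sum_le_card_nsmul _ _ (2 ^ N) fun j _ => ?_).trans (by simp)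
    simpa using (hn j).trans (card_PC_le N j)
  have sub : ∀ a x y, lam a (x * y) ≤ lam a x + lam a y := fun a x y => by
    simp only [lam]
    rw [← Real.logb_mul (pos a x).ne' (pos a y).ne']
    exact Real.logb_le_logb_of_le hβ1 (pos a _) ((hν a.1 a.2).2.1 x y)
  have subF : ∀ a, ∀ f ∈ F ∪ ball S 1, lam a f ≤ 1 := fun a f hf => by
    have h1 : ν a.1 a.2 f ≤ β ^ 1 * 1 := by
      refine ((hν a.1 a.2).2.2.2.1 f).trans ?_
      have := hb a.1 (Nat.lt_succ_iff.1 a.1.2) f hf
      calc _ ≤ θ ^ 4 * θ := mul_le_mul_of_nonneg_left this (by positivity)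
        _ = θ ^ 5 := by ring
        _ ≤ _ := by simpa using hβθ 5 (by norm_num)
    simpa using lg_le hβ1 (pos a f) one_pos 1 h1
  have trans : ∀ a x y, Thin {f | f ∈ F ∧ lam a (x * f * y) < lam a x + lam a y - 1} := by
    intro a x y
    refine hmono _ _ (fun f hf => ?_) ((hν a.1 a.2).2.2.2.2 x y)
    refine ⟨hf.1, ?_⟩
    by_contra hc
    have := lg_le hβ1 (mul_pos (pos a x) (pos a y)) (pos a _) 1 (by simpa using hc)
    rw [Real.logb_mul (pos a x).ne' (pos a y).ne'] at this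
    have h2 := hf.2
    simp only [lam] at h2
    push_cast at this
    linarith
  refine ⟨ι, inferInstance, lam, hcard, sub, fun a f hf => subF a f (Or.inl hf), ?_, trans, ?_⟩
  · intro a r x hx
    have up : ∀ r, ∀ x ∈ ball S r, lam a x ≤ r + 1 := by
      refine ball_induction (fun r x => lam a x ≤ r + 1)
        (by simpa using subF a 1 (Or.inr (one_mem_ball S 1)))
        (fun r g h => by push_cast; linarith) fun r g x h hx => ?_
      have : x ∈ ball S 1 := by
        rcases hx with hx | hx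
        exacts [mem_ball_one hx, by simpa using inv_mem_ball (mem_ball_one hx)]
      push_cast
      linarith [sub a g x, subF a x (Or.inr this)]
    have h1 : 0 ≤ lam a 1 := Real.logb_nonneg hβ1 (hν a.1 a.2).1
    have h2 := sub a x x⁻¹
    rw [mul_inv_cancel] at h2
    exact abs_le.2 ⟨by linarith [up r _ (inv_mem_ball hx)], up r x hx⟩
  intro r h H
  have mpos : ∀ (j : Fin (N + 1)) x, 0 < nm (cpd j (ρ x)) := fun j x => nm_pos fun h0 => by
    have h1 : cpd j (ρ x) * cpd j (ρ x⁻¹) = 1 := by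
      rw [← cpd_mul, ← map_mul, mul_inv_cancel, map_one, cpd_one]
    obtain ⟨s, -, hs⟩ := Finset.exists_subset_card_eq (s := (Finset.univ : Finset (Fin N)))
      (n := j) (by simpa using Nat.lt_succ_iff.1 j.2)
    have := congrFun (congrFun h1 ⟨s, hs⟩) ⟨s, hs⟩
    simp [h0] at this
  have H' := rl_mu (π := Sigma.fst) (μ := fun (j : Fin (N + 1)) x => Real.logb β (nm (cpd j (ρ x))))
    (F := F) (fun a x y f hf => by linarith [sub a (x * f) y, sub a x f, subF a f (Or.inl hf)])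
    (fun x y => by
      obtain ⟨f, hf, hf'⟩ := hNC ι hcard _ fun a => trans a x y
      exact ⟨f, hf, fun a => by simpa [hf] using hf' a⟩)
    (fun a x => by
      have := lg_le hβ1 (pos a x) (mpos a.1 x) 1 (((hν a.1 a.2).2.2.2.1 x).trans
        (mul_le_mul_of_nonneg_right (by simpa using hβθ 4 (by norm_num)) (nm_nonneg _)))
      push_cast at this
      simpa [add_comm] using this)
    (fun j x => by
      have h1 : nm (cpd j (ρ x)) ≤ ∑ l, ν j l x := hsum j x
      have h2 : Nonempty (Fin (n j)) := by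
        by_contra hc
        rw [not_nonempty_iff] at hc
        have := mpos j x
        simp at h1
        linarith
      obtain ⟨l, -, hl⟩ := Finset.exists_max_image Finset.univ (fun l => ν j l x)
        Finset.univ_nonempty
      refine ⟨⟨j, l⟩, rfl, ?_⟩
      have h3 := pos ⟨j, l⟩ x
      have := lg_le hβ1 (mpos j x) h3 1 (h1.trans ((Finset.sum_le_card_nsmul _ _ _ hl).trans (by
        simp only [Finset.card_univ, Fintype.card_fin, nsmul_eq_mul, pow_one]
        refine mul_le_mul_of_nonneg_right ?_ h3.le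
        exact le_trans (by exact_mod_cast hn j) ((hD j).trans
          (by simpa using hβθ 1 (by norm_num))))))
      push_cast at this
      simpa [add_comm] using this) H
  obtain ⟨X, Y, X', Y', e, rfl, H'⟩ := H'
  have key : ∀ U V, ∀ j : Fin (N + 1), Real.logb β (nm (cpd j (ρ U))) +
      Real.logb β (nm (cpd j (ρ V))) ≤ Real.logb β (nm (cpd j (ρ (X * Y)))) + (r + 11 : ℕ) →
      nm (cpd j (ρ U)) * nm (cpd j (ρ V)) ≤ β ^ (r + 11) * nm (cpd j (ρ X * ρ Y)) := by
    intro U V j h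
    rw [← map_mul]
    refine le_of_lg hβ1 (mul_pos (mpos j U) (mpos j V)) (mpos j _) _ ?_
    rw [Real.logb_mul (mpos j U).ne' (mpos j V).ne']
    linarith
  have := hC1 L (ρ X) (ρ Y) (ρ X') (ρ Y') (ρ (Y * Y'⁻¹)) (β ^ (r + 11)) (by positivity)
    (left_ne_zero_of_mul_eq_one (b := (ρ (X * Y)⁻¹).det)
      (by rw [← map_mul, ← det_mul, ← map_mul, mul_inv_cancel, map_one, det_one]))
    (by rw [← map_mul, ← map_mul, e]) (by rw [← map_mul, inv_mul_cancel_right])
    (fun j hj => key _ _ ⟨j, Nat.lt_succ_iff.2 hj⟩ (H' _).1)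
    (fun j hj => key _ _ ⟨j, Nat.lt_succ_iff.2 hj⟩ (H' _).2)
  refine this.trans ?_
  calc _ ≤ θ * (β ^ (r + 11)) ^ 2 := by gcongr
    _ = _ := by rw [hβ]; ring

end Pool.Agent.MP_646035_al.H43

end

-- part MP_646035_al.H43.Kill
section

/-!
Killing bounded elements: spectral gap, Liouville argument and chain condition.
-/

namespace Pool.Agent.MP_646035_al.H43

open Matrix Finset Polynomial

variable {Γ : Type*} [Group Γ]

lemma exists_cover {α : Type*} (K : Subgroup Γ) (Hs : Γ → Prop) (f : Γ → α) (t : Finset α)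
    (h1 : ∀ h, Hs h → f h ∈ t) (h2 : ∀ h h', Hs h → Hs h' → f h = f h' → h'⁻¹ * h ∈ K) :
    ∃ Φ : Finset Γ, Φ.card ≤ t.card ∧ ∀ h, Hs h → ∃ φ ∈ Φ, φ⁻¹ * h ∈ K := by
  classical
  have : ∀ y : α, ∃ g : Γ, (∃ h, Hs h ∧ f h = y) → Hs g ∧ f g = y := fun y => by
    by_cases h : ∃ h, Hs h ∧ f h = y
    · exact h.imp fun g hg _ => hg
    · exact ⟨1, fun h' => absurd h' h⟩
  choose g hg using this
  refine ⟨t.image g, Finset.card_image_le, fun h hh => ⟨g (f h), Finset.mem_image_of_mem g (h1 h hh),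
    h2 _ _ hh (hg _ ⟨h, hh, rfl⟩).1 (hg _ ⟨h, hh, rfl⟩).2.symm⟩⟩

lemma Kill.mono {S : Finset Γ} {Thin : Set Γ → Prop} {K : Subgroup Γ} {J J' c c' κ κ' : ℕ}
    {Q Q' : Γ → Prop} (h : Kill S Thin K J c κ Q) (hJ : J ≤ J') (hc : c ≤ c') (hκ : κ ≤ κ')
    (hQ : ∀ g, Q' g → Q g) : Kill S Thin K J' c' κ' Q' := by
  obtain ⟨b, hb, d, d0, d1, d2, d3⟩ := h
  refine ⟨b, ball_mono S hc hb, d, d0.trans hJ, d1, d2, fun σ hσ => ?_⟩
  obtain ⟨Φ, h1, h2⟩ := d3 σ hσ
  exact ⟨Φ, h1.trans hκ, fun h hh => h2 h fun s hs => ⟨hQ _ (hh s hs).1, hQ _ (hh s hs).2⟩⟩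

lemma kill_small {S : Finset Γ} {Thin : Set Γ → Prop} (h0 : Thin ∅) {M α : Type*} [Monoid M]
    (ρ : Γ →* M) {Q : Γ → Prop} (f : Γ → α) (t : Finset α) (h1 : ∀ g, Q g → f g ∈ t)
    (h2 : ∀ g g', f g = f g' → ρ g = ρ g') : Kill S Thin ρ.ker 1 0 t.card Q := by
  refine ⟨1, one_mem_ball S 0, fun σ => if σ = [] then 1 else 0, by simp, by simp,
    fun σ s => ⟨∅, h0, fun f _ => by by_cases h : σ = [] <;> simp [h]⟩, fun σ hσ => ?_⟩
  obtain ⟨s, σ', rfl⟩ := List.exists_cons_of_ne_nil (l := σ) (fun h => by simp [h] at hσ)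
  refine exists_cover _ _ (fun h => f (s * h * s⁻¹)) t (fun h hh => h1 _ (hh s (by simp)).1)
    fun h h' _ _ e => ?_
  have h3 := h2 _ _ e
  have h4 : h'⁻¹ * h = s⁻¹ * (s * h' * s⁻¹)⁻¹ * (s * h * s⁻¹) * s := by group
  rw [MonoidHom.mem_ker, h4, map_mul, map_mul, h3, ← map_mul, ← map_mul,
    show s⁻¹ * (s * h' * s⁻¹)⁻¹ * (s * h' * s⁻¹) * s = 1 by group, map_one]

variable {k : Type} [Field k]

omit [Group Γ] in
lemma span_nonthin {L W ι : Type*} [Field L] [AddCommGroup W] [Module L W] [Fintype ι]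
    (σ : k →+* L) (Pl : Submodule k (Γ → k)) {Z : Set Γ}
    (hZ : ∀ φ ∈ Pl, (∀ f ∈ Z, φ f = 0) → φ = 0) (g : ι → Γ → k) (hg : ∀ i, g i ∈ Pl) (c : ι → W)
    (h : ∀ f ∈ Z, ∑ i, σ (g i f) • c i = 0) (γ : Γ) : ∑ i, σ (g i γ) • c i = 0 := by
  classical
  have h1 : (fun i => g i γ) ∈ Submodule.span k ((fun f i => g i f) '' Z) := by
    by_contra hc
    obtain ⟨φ, h1, h2⟩ := Submodule.exists_dual_map_eq_bot_of_notMem hc inferInstance
    have h3 : ∀ x, φ (fun i => g i x) =
        (∑ i, φ (Pi.single i 1) • g i) x := fun x => by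
      rw [LinearMap.pi_apply_eq_sum_univ]
      simp only [Finset.sum_apply, Pi.smul_apply, smul_eq_mul]
      refine Finset.sum_congr rfl fun i _ => ?_
      rw [mul_comm]
      congr 2
      funext j
      simp [Pi.single_apply, eq_comm]
    have h4 := hZ _ (sum_mem fun i _ => Pl.smul_mem (φ (Pi.single i 1)) (hg i)) fun f hf => by
      rw [← h3, ← Submodule.mem_bot k, ← h2]
      exact Submodule.mem_map_of_mem (Submodule.subset_span ⟨f, hf, rfl⟩)
    exact h1 (by rw [h3, h4]; rfl)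
  suffices H : ∀ v ∈ Submodule.span k ((fun f i => g i f) '' Z), ∑ i, σ (v i) • c i = 0 from H _ h1
  intro v hv
  induction hv using Submodule.span_induction with
  | mem x hx => obtain ⟨f, hf, rfl⟩ := hx; exact h f hf
  | zero => simp
  | add x y _ _ h1 h2 => simp [add_smul, Finset.sum_add_distrib, h1, h2]
  | smul a x _ h1 => simp [mul_smul, ← Finset.smul_sum, h1]

lemma sp_of_nonthin {D : Type} [Fintype D] [DecidableEq D] (C : Γ →* Matrix D D k)
    (hC : ∀ a ∈ Submodule.span k (Set.range C), (∀ γ, (a * C γ).trace = 0) → a = 0)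
    (Pl : Submodule k (Γ → k)) (hP : ∀ s t, (fun γ => C γ s t) ∈ Pl) {m : ℕ} {w : Fin m → Γ}
    (hZ : ∀ φ ∈ Pl, (∀ t, φ (w t) = 0) → φ = 0) : Sp C w := by
  intro a ha h
  have e : ∀ γ, (a * C γ).trace = (∑ s, ∑ t, a s t • fun γ => C γ t s) γ := fun γ => by
    simp [Matrix.trace, Matrix.mul_apply]
  have := hZ _ (sum_mem fun s _ => sum_mem fun t _ => Pl.smul_mem (a s t) (hP t s))
    fun t => by rw [← e, h]
  exact hC a ha fun γ => by rw [e, this]; rfl

section gap

variable {L : Type} [NormedField L] {N : ℕ}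

lemma aeval_mulLeft {A : Type*} [Ring A] [Algebra L A] (U b : A) (p : L[X]) :
    aeval (LinearMap.mulLeft L U) p b = aeval U p * b := by
  induction p using Polynomial.induction_on' with
  | add p q h1 h2 => simp [h1, h2, add_mul]
  | monomial n c => simp [aeval_monomial, LinearMap.pow_mulLeft, Algebra.smul_def, mul_assoc]

lemma aeval_mulRight {A : Type*} [Ring A] [Algebra L A] (U b : A) (p : L[X]) :
    aeval (LinearMap.mulRight L U) p b = b * aeval U p := by
  induction p using Polynomial.induction_on' with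
  | add p q h1 h2 => simp [h1, h2, mul_add]
  | monomial n c => simp [aeval_monomial, LinearMap.pow_mulRight, ← Algebra.smul_def]

lemma aeval_ne_zero_of_root {U : Matrix (Fin N) (Fin N) L} {μ : L} (h : μ ∈ U.charpoly.roots)
    {p : L[X]} (hp : p.eval μ ≠ 0) : aeval U p ≠ 0 := by
  obtain ⟨v, hv, h1⟩ := exists_eigvec h
  have h2 : ∀ p : L[X], aeval U p *ᵥ v = p.eval μ • v := by
    intro p
    induction p using Polynomial.induction_on with
    | C a => simp [Algebra.algebraMap_eq_smul_one, Matrix.smul_mulVec]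
    | add p q h1 h2 => simp [Matrix.add_mulVec, h1, h2, add_smul]
    | monomial n a h =>
      rw [pow_succ, ← mul_assoc, map_mul, aeval_X, ← Matrix.mulVec_mulVec, h1, Matrix.mulVec_smul,
        h, smul_smul, eval_mul (q := X), eval_X, mul_comm]
  intro h3
  have := h2 p
  rw [h3, Matrix.zero_mulVec, eq_comm, smul_eq_zero] at this
  exact this.elim hp hv

lemma exists_threshold {s : Multiset L} (hs : s.card ≤ N) (h1 : s.prod = 1) {κ : ℝ} (hκ : 1 < κ)
    {r : L} (hr : r ∈ s) (hr' : κ ^ N < ‖r‖) :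
    ∃ τ : ℝ, 0 < τ ∧ τ * κ < ‖r‖ ∧ (∃ μ ∈ s, ‖μ‖ ≤ τ) ∧ ∀ x ∈ s, ‖x‖ ≤ τ ∨ τ * κ < ‖x‖ := by
  classical
  obtain ⟨μ, hμ, hμ1⟩ : ∃ μ ∈ s, ‖μ‖ ≤ 1 := by
    by_contra hc
    push Not at hc
    obtain ⟨t, rfl⟩ := Multiset.exists_cons_of_mem hr
    have h2 : 1 ≤ ‖t.prod‖ := Multiset.prod_induction (fun x : L => 1 ≤ ‖x‖) t
      (fun a b ha hb => by rw [norm_mul]; exact one_le_mul_of_one_le_of_one_le ha hb) (by simp)
      fun y hy => (hc y (Multiset.mem_cons_of_mem hy)).le
    have h3 := congrArg (fun x => ‖x‖) h1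
    simp only [Multiset.prod_cons, norm_mul, norm_one] at h3
    nlinarith [hc r hr]
  by_contra hc
  push Not at hc
  have h2 : ∀ i : Fin N, ∃ x ∈ s, κ ^ (i : ℕ) < ‖x‖ ∧ ‖x‖ ≤ κ ^ (i : ℕ) * κ := fun i =>
    hc _ (by positivity) (lt_of_le_of_lt (by
      rw [← pow_succ]; exact pow_le_pow_right₀ hκ.le i.2) hr')
      ⟨μ, hμ, hμ1.trans (one_le_pow₀ hκ.le)⟩
  choose x x1 x2 x3 using h2
  have h3 : ∀ i j : Fin N, i < j → x i ≠ x j := fun i j hij h => by
    have := (x2 j).trans_le (h ▸ x3 i)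
    rw [← pow_succ, pow_lt_pow_iff_right₀ hκ] at this
    exact absurd hij (by rw [Fin.lt_def]; omega)
  have h4 := Finset.card_le_card_of_injOn (s := (Finset.univ : Finset (Fin N)))
    (t := s.toFinset.erase μ) x (fun i _ => by
      simp only [Finset.coe_erase, Set.mem_sdiff, Finset.mem_coe, Multiset.mem_toFinset,
        Set.mem_singleton_iff]
      refine ⟨x1 i, fun h => ?_⟩
      have := x2 i
      rw [h] at this
      linarith [one_le_pow₀ (n := i) hκ.le]) fun i _ j _ h => by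
      rcases lt_trichotomy i j with h' | h' | h'
      exacts [absurd h (h3 i j h'), h', absurd h.symm (h3 j i h')]
  rw [Finset.card_erase_of_mem (by simpa using hμ), Finset.card_univ, Fintype.card_fin] at h4
  have h5 := s.toFinset_card_le
  have h6 : 0 < s.toFinset.card := Finset.card_pos.2 ⟨μ, by simpa using hμ⟩
  omega

theorem exists_gap [IsAlgClosed L] {U U' : Matrix (Fin N) (Fin N) L} (hU : U * U' = 1)
    (hdet : U.det = 1) {κ : ℝ} (hκ : 1 < κ) {r : L} (hr : r ∈ U.charpoly.roots)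
    (hr' : κ ^ N < ‖r‖) : ∃ Pm Qm A B : Matrix (Fin N) (Fin N) L, Pm ≠ 0 ∧ Qm ≠ 0 ∧
      Pm * A + B * Qm = 1 ∧ Qm * Pm = 0 ∧ ∀ G, Qm * G * Pm ≠ 0 →
        ∃ (A' B' : Matrix (Fin N) (Fin N) L) (ν : L), κ ≤ ‖ν‖ ∧ A' * G * B' ≠ 0 ∧
          ∀ j : ℕ, A' * (U ^ j * G * U' ^ j) * B' = ν ^ j • (A' * G * B') := by
  classical
  have hprod : U.charpoly.roots.prod = 1 := by rw [← det_eq_prod_roots_charpoly, hdet]
  obtain ⟨τ, hτ, h1, ⟨μ, hμ, h2⟩, h3⟩ := exists_threshold (N := N)
    ((Polynomial.card_roots' _).trans (by simp)) hprod hκ hr hr'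
  let sb := U.charpoly.roots.filter fun x => τ * κ < ‖x‖
  let ss := U.charpoly.roots.filter fun x => ¬ τ * κ < ‖x‖
  let p := (sb.map fun r => X - C r).prod
  let q := (ss.map fun r => X - C r).prod
  have hpq : p * q = U.charpoly := by
    rw [← Multiset.prod_add, ← Multiset.map_add, Multiset.filter_add_not]
    exact ((IsAlgClosed.splits _).eq_prod_roots_of_monic U.charpoly_monic).symm
  have hc : ∀ f g : L[X], aeval U f * aeval U g = aeval U g * aeval U f := fun f g => by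
    rw [← map_mul, ← map_mul, mul_comm]
  have hPQ : aeval U p * aeval U q = 0 := by rw [← map_mul, hpq, aeval_self_charpoly]
  have hev : ∀ (s : Multiset L) (x : L), x ∉ s → (s.map fun r => X - C r).prod.eval x ≠ 0 := by
    intro s x hx h
    rw [eval_multiset_prod, Multiset.prod_eq_zero_iff, Multiset.map_map, Multiset.mem_map] at h
    obtain ⟨y, hy, h⟩ := h
    simp only [Function.comp, eval_sub, eval_X, eval_C, sub_eq_zero] at h
    exact hx (h ▸ hy)
  have hττ : τ < τ * κ := by nlinarith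
  obtain ⟨α, β, hαβ⟩ : IsCoprime p q := by
    rw [isCoprime_iff_aeval_ne_zero_of_isAlgClosed (k := L) L]
    intro a
    by_cases ha : τ * κ < ‖a‖
    · exact Or.inr (hev ss a (by simp [ss, ha]))
    · exact Or.inl (hev sb a (by simp [sb, ha]))
  refine ⟨aeval U p, aeval U q, aeval U α, aeval U β,
    aeval_ne_zero_of_root hμ (hev _ _ fun h => by
      linarith [(Multiset.mem_filter.1 h).2]),
    aeval_ne_zero_of_root hr (hev _ _ (by simp [ss, h1])),
    by rw [hc p, ← map_mul, ← map_mul, ← map_add, hαβ, map_one], by rw [hc, hPQ], fun G hG => ?_⟩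
  obtain ⟨p1, l, hl, b1, e1⟩ := peel (LinearMap.mulLeft L U) sb _ hG
    (by rw [aeval_mulLeft, ← mul_assoc, ← mul_assoc, hPQ, zero_mul, zero_mul])
  rw [aeval_mulLeft] at b1 e1
  obtain ⟨q1, m, hm, b2, e2⟩ := peel (LinearMap.mulRight L U) ss _ b1
    (by rw [aeval_mulRight, mul_assoc, mul_assoc, hPQ, mul_zero, mul_zero])
  rw [aeval_mulRight] at b2 e2
  simp only [LinearMap.mulLeft_apply, LinearMap.mulRight_apply] at e1 e2
  simp only [sb, ss, Multiset.mem_filter] at hl hm
  have hm0 : m ≠ 0 := by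
    rintro rfl
    rw [Multiset.prod_eq_zero hm.1] at hprod
    exact zero_ne_one hprod
  have hmτ : ‖m‖ ≤ τ := (h3 m hm.1).resolve_right hm.2
  have eb : aeval U p1 * aeval U q * G * (aeval U p * aeval U q1) =
      aeval U p1 * (aeval U q * G * aeval U p) * aeval U q1 := by simp only [mul_assoc]
  refine ⟨aeval U p1 * aeval U q, aeval U p * aeval U q1, l / m, ?_, by rwa [eb], fun j => ?_⟩
  · rw [norm_div, le_div_iff₀ (norm_pos_iff.2 hm0)]
    nlinarith [hl.2]
  have cU : ∀ f : L[X], Commute (aeval U f) U := fun f => by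
    simpa [Commute, SemiconjBy] using hc f X
  have cU' : ∀ f : L[X], Commute (aeval U f) U' := fun f => by
    have := cU f
    calc aeval U f * U' = U' * U * aeval U f * U' := by rw [mul_eq_one_comm.1 hU, one_mul]
      _ = U' * aeval U f * (U * U') := by rw [mul_assoc U', ← this.eq]; simp only [mul_assoc]
      _ = U' * aeval U f := by rw [hU, mul_one]
  have e3 : aeval U p1 * aeval U q * (U ^ j * G * U' ^ j) * (aeval U p * aeval U q1) =
      U ^ j * (aeval U p1 * aeval U q * G * (aeval U p * aeval U q1)) * U' ^ j := by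
    rw [← map_mul, ← map_mul, ← mul_assoc, ← mul_assoc, ((cU _).pow_right j).eq, mul_assoc _ (U' ^ j),
      ← ((cU' _).pow_right j).eq]
    simp only [mul_assoc]
  rw [e3, eb]
  set b := aeval U p1 * (aeval U q * G * aeval U p) * aeval U q1 with hb
  have e4 : U * b = l • b := by rw [hb, ← mul_assoc, e1, Matrix.smul_mul]
  have e5 : b * U' = m⁻¹ • b := by
    have := congrArg (fun x => m⁻¹ • (x * U')) e2
    simp only [mul_assoc b, hU, mul_one, Matrix.smul_mul, smul_smul, inv_mul_cancel₀ hm0,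
      one_smul] at this
    exact this.symm
  clear e3
  induction j with
  | zero => simp
  | succ j ih =>
    have : U ^ (j + 1) * b * U' ^ (j + 1) = U * (U ^ j * b * U' ^ j) * U' := by
      rw [pow_succ' U, pow_succ U']; simp only [mul_assoc]
    rw [this, ih, Matrix.mul_smul, e4, Matrix.smul_mul, Matrix.smul_mul, e5, smul_smul, smul_smul,
      pow_succ, div_eq_mul_inv, mul_assoc]

end gap

lemma cyc_span {N : ℕ} (hN : 0 < N) (U U' G : Matrix (Fin N) (Fin N) k) (M : ℕ) :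
    U ^ M * G * U' ^ M ∈ Submodule.span k
      (Set.range fun j : Fin (N * N) => U ^ (j : ℕ) * G * U' ^ (j : ℕ)) := by
  let T : Module.End k (Matrix (Fin N) (Fin N) k) :=
    (LinearMap.mulLeft k U).comp (LinearMap.mulRight k U')
  have hT : ∀ j : ℕ, (T ^ j) G = U ^ j * G * U' ^ j := by
    intro j
    induction j with
    | zero => simp
    | succ j ih =>
      rw [pow_succ', Module.End.mul_apply, ih, pow_succ' U, pow_succ U']
      simp [T, mul_assoc]
  have hd : T.charpoly.natDegree = N * N := by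
    rw [LinearMap.charpoly_natDegree]; simp [Module.finrank_matrix]
  have h1 : (X ^ M %ₘ T.charpoly).natDegree < N * N := by
    rw [← hd]
    refine natDegree_modByMonic_lt _ T.charpoly_monic fun h => ?_
    rw [h, natDegree_one] at hd
    exact absurd hd.symm (by positivity)
  rw [← hT, LinearMap.pow_eq_aeval_mod_charpoly, aeval_eq_sum_range' h1, LinearMap.sum_apply]
  refine sum_mem fun i hi => Submodule.smul_mem _ _ (Submodule.subset_span
    ⟨⟨i, Finset.mem_range.1 hi⟩, (hT i).symm⟩)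

theorem liouville {V : Type} {P : V → Plc k} {R : Subring k} {c : ℕ} (hLV : LV P R c) (N m : ℕ)
    (hN : 0 < N) : ∃ c' : ℕ, ∀ T : ℝ, 2 ≤ T → ∀ (ρ : Γ →* Matrix (Fin N) (Fin N) k)
      (w : Fin m → Γ), Sp ρ w → ∀ (u g : Γ) (M : ℕ),
      (∀ (j : Fin (N * N)) i, Bdd P R T (ρ (u ^ (j : ℕ) * g * u⁻¹ ^ (j : ℕ)) * ρ (w i)).trace) →
      (∀ i, Bdd P R T (ρ (u ^ M * g * u⁻¹ ^ M) * ρ (w i)).trace) →
      ∀ v (H H' : Matrix (Fin N) (Fin N) (P v).L) (h : H * H' = 1)
        (A B : Matrix (Fin N) (Fin N) (P v).L) (ν : (P v).L), 1 ≤ ‖ν‖ →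
        A * rl (P v).σ h ρ g * B ≠ 0 →
        (∀ j : ℕ, A * rl (P v).σ h ρ (u ^ j * g * u⁻¹ ^ j) * B = ν ^ j • (A * rl (P v).σ h ρ g * B)) →
        ‖ν‖ ^ M ≤ T ^ c' * ‖ν‖ ^ (N * N) := by
  obtain ⟨c', hc'⟩ := exists_ginv hLV (Fin m) (Fin (N * N))
  refine ⟨c' + 1, fun T hT ρ w hSp u g M h1 h2 v H H' h A B ν hν h3 h4 => ?_⟩
  let gj : ℕ → Γ := fun j => u ^ j * g * u⁻¹ ^ j
  let W : Matrix (Fin m) (Fin (N * N)) k := Matrix.of fun i j => (ρ (gj j) * ρ (w i)).trace
  obtain ⟨G, G1, G2, -⟩ := hc' T hT W fun i j => h1 j i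
  have hW : ∀ (x : Fin (N * N) → k) i, ((∑ j, x j • ρ (gj j)) * ρ (w i)).trace = (W *ᵥ x) i := by
    intro x i
    simp [W, Finset.sum_mul, trace_sum, mulVec, dotProduct, mul_comm]
  obtain ⟨x, hx⟩ := (Submodule.mem_span_range_iff_exists_fun k).1 (cyc_span hN (ρ u) (ρ u⁻¹) (ρ g) M)
  simp only [← map_pow, ← map_mul] at hx
  change ∑ j, x j • ρ (gj j) = ρ (gj M) at hx
  let y : Fin m → k := fun i => (ρ (gj M) * ρ (w i)).trace
  have hy : y = W *ᵥ x := by funext i; rw [← hW, hx]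
  have e : ρ (gj M) = ∑ j, (G *ᵥ y) j • ρ (gj j) := by
    rw [← sub_eq_zero]
    refine hSp _ (sub_mem (Submodule.subset_span ⟨_, rfl⟩) (sum_mem fun i _ =>
      Submodule.smul_mem _ _ (Submodule.subset_span ⟨_, rfl⟩))) fun t => ?_
    rw [sub_mul, trace_sub, hW, hy, mulVec_mulVec, mulVec_mulVec, G1, ← hy, sub_self]
  have e2 := h4 M
  change A * cj _ h (ρ (gj M)) * B = _ at e2
  rw [e, map_sum] at e2
  simp only [cj_smul, Finset.mul_sum, Finset.sum_mul, Matrix.mul_smul, Matrix.smul_mul] at e2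
  have e3 : ∀ j : Fin (N * N), A * cj (P v).σ h (ρ (gj j)) * B = _ := fun j => h4 j
  simp only [e3, smul_smul, ← Finset.sum_smul] at e2
  rw [← norm_pow, ← smul_left_injective _ h3 e2]
  refine (norm_sum_le _ _).trans ?_
  calc _ ≤ ∑ j, ‖∑ i, G.map (P v).σ j i * (P v).σ (y i)‖ * ‖ν‖ ^ (N * N) :=
        Finset.sum_le_sum fun j _ => by
          rw [norm_mul, norm_pow]
          refine mul_le_mul (le_of_eq ?_) (pow_le_pow_right₀ hν j.2.le) (by positivity)
            (norm_nonneg _)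
          simp [mulVec, dotProduct]
    _ ≤ _ := by
        rw [← Finset.sum_mul, pow_succ]
        gcongr
        exact sum_norm_le (by linarith) (G2 v) fun i => (h2 i).2 v

theorem kill_big {N : ℕ} (hN : 0 < N) {L : Type} [Field L] (σ : k →+* L)
    {H H' : Matrix (Fin N) (Fin N) L} (h : H * H' = 1) (ρ : Γ →* Matrix (Fin N) (Fin N) k)
    (hdet : ∀ γ, (ρ γ).det = 1)
    (hsimp : ∀ M : Subgroup Γ, M.Normal →
      Submodule.span k (ρ '' M) = ⊤ ∨ ∀ γ ∈ M, ∃ c : k, ρ γ = c • 1)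
    (Pl : Submodule k (Γ → k)) (hP : ∀ a b c d, (fun γ => ρ γ a b * ρ γ⁻¹ c d) ∈ Pl)
    {Thin : Set Γ → Prop} (h0 : Thin ∅)
    (hT : ∀ Z, ¬ Thin Z → ∀ φ ∈ Pl, (∀ f ∈ Z, φ f = 0) → φ = 0)
    {Pm Qm A B : Matrix (Fin N) (Fin N) L} (hPm : Pm ≠ 0) (hQm : Qm ≠ 0)
    (hB : Pm * A + B * Qm = 1) (hQP : Qm * Pm = 0) {S : Finset Γ} {c : ℕ} {b : Γ}
    (hb : b ∈ ball S c) {Q : Γ → Prop}
    (hQ : ∀ g, Q g → Q (b * g * b⁻¹) → Qm * rl σ h ρ g * Pm = 0 ∧ Qm * rl σ h ρ g⁻¹ * Pm = 0) :
    Kill S Thin ρ.ker (N * N) c N Q := by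
  classical
  set r := rl σ h ρ with hr
  let Hs : Set Γ → Submodule L (Matrix (Fin N) (Fin N) L) := fun s =>
    { carrier := {a | ∀ x ∈ s, Qm * (r x * a * r x⁻¹) * Pm = 0}
      add_mem' := fun {a b} ha hb x hx => by
        rw [mul_add, add_mul, mul_add, add_mul, ha x hx, hb x hx, add_zero]
      zero_mem' := fun x _ => by simp
      smul_mem' := fun c a ha x hx => by simp [ha x hx] }
  have hH : ∀ s a, a ∈ Hs s ↔ ∀ x ∈ s, Qm * (r x * a * r x⁻¹) * Pm = 0 := fun _ _ => Iff.rfl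
  have hanti : ∀ s t, s ⊆ t → Hs t ≤ Hs s := fun s t hst a ha x hx => ha x (hst hx)
  let d : List Γ → ℕ := fun l =>
    Module.finrank L (Hs {x | x ∈ l}) - Module.finrank L (Hs Set.univ)
  have hle : ∀ s, Module.finrank L (Hs Set.univ) ≤ Module.finrank L (Hs s) := fun s =>
    Submodule.finrank_mono (hanti _ _ (Set.subset_univ _))
  refine ⟨b, hb, d, (Nat.sub_le _ _).trans ((Submodule.finrank_le _).trans
    (by simp [Module.finrank_matrix])), fun s l => Nat.sub_le_sub_right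
      (Submodule.finrank_mono (hanti _ _ fun x hx => List.mem_cons_of_mem _ hx)) _,
    fun l s => ?_, fun l hl => ?_⟩
  · by_cases hl : Hs {x | x ∈ l} ≤ Hs Set.univ
    · exact ⟨∅, h0, fun f _ => Or.inr (Nat.sub_eq_zero_of_le (Submodule.finrank_mono hl))⟩
    obtain ⟨a, ha, ha'⟩ := SetLike.not_le_iff_exists.1 hl
    refine ⟨{f | Qm * (r (f * s) * a * r (f * s)⁻¹) * Pm = 0}, ?_, fun f hf => Or.inl ?_⟩
    · by_contra hc
      refine ha' fun x _ => ?_
      have e : ∀ f, Qm * (r (f * s) * a * r (f * s)⁻¹) * Pm =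
          ∑ i : (Fin N × Fin N) × Fin N × Fin N, σ (ρ f i.1.1 i.1.2 * ρ f⁻¹ i.2.1 i.2.2) •
            (Qm * H' * Matrix.single i.1.1 i.1.2 1 * (H * (r s * a * r s⁻¹) * H') *
              Matrix.single i.2.1 i.2.2 1 * (H * Pm)) := by
        intro f
        have e1 : ∀ x : Matrix (Fin N) (Fin N) k, x.map σ =
            ∑ i : Fin N × Fin N, σ (x i.1 i.2) • Matrix.single i.1 i.2 (1 : L) := fun x => by
          rw [Fintype.sum_prod_type]
          simpa using matrix_eq_sum_single (x.map σ)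
        have e2 : Qm * (r (f * s) * a * r (f * s)⁻¹) * Pm = Qm * H' * (ρ f).map σ *
            (H * (r s * a * r s⁻¹) * H') * (ρ f⁻¹).map σ * (H * Pm) := by
          rw [_root_.mul_inv_rev, map_mul, map_mul, show r f = H' * (ρ f).map σ * H from rfl,
            show r f⁻¹ = H' * (ρ f⁻¹).map σ * H from rfl]
          simp only [mul_assoc]
        rw [e2, e1, e1, Fintype.sum_prod_type (α₁ := Fin N × Fin N)]
        simp only [Finset.mul_sum, Finset.sum_mul, Matrix.mul_smul, Matrix.smul_mul, smul_smul,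
          map_mul]
        rw [Finset.sum_comm]
        simp only [mul_comm]
      have := span_nonthin σ Pl (hT _ hc) (fun i : (Fin N × Fin N) × Fin N × Fin N =>
        fun f => ρ f i.1.1 i.1.2 * ρ f⁻¹ i.2.1 i.2.2) (fun i => hP _ _ _ _) _
        (fun f hf => (e f).symm.trans hf) (x * s⁻¹)
      simpa using (e _).trans this
    · have h1 : Hs {x | x ∈ (f * s) :: l} < Hs {x | x ∈ l} :=
        lt_of_le_of_ne (hanti _ _ fun x hx => List.mem_cons_of_mem _ hx) fun h =>
          hf ((h ▸ ha : a ∈ Hs {x | x ∈ (f * s) :: l}) _ (by simp))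
      have := Submodule.finrank_lt_finrank_of_lt h1
      have := hle {x | x ∈ (f * s) :: l}
      simp only [d]
      omega
  have hl' : Hs Set.univ = Hs {x | x ∈ l} := Submodule.eq_of_le_of_finrank_le
    (hanti _ _ (Set.subset_univ _)) (Nat.le_of_sub_eq_zero hl)
  have hmul : ∀ a a' : Matrix (Fin N) (Fin N) L, Qm * a * Pm = 0 → Qm * a' * Pm = 0 →
      Qm * (a * a') * Pm = 0 := fun a a' h1 h2 => by
    have : Qm * (a * a') * Pm = Qm * a * Pm * A * a' * Pm + Qm * a * B * (Qm * a' * Pm) := by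
      conv_lhs => rw [← mul_one a, ← hB]
      simp only [mul_add, add_mul, mul_assoc]
    simp [this, h1, h2]
  let M : Subgroup Γ :=
    { carrier := {g | ∀ x, Qm * r (x * g * x⁻¹) * Pm = 0 ∧ Qm * r (x * g⁻¹ * x⁻¹) * Pm = 0}
      mul_mem' := fun {g g'} h1 h2 x => ⟨by
          rw [show x * (g * g') * x⁻¹ = x * g * x⁻¹ * (x * g' * x⁻¹) by group, map_mul]
          exact hmul _ _ (h1 x).1 (h2 x).1, by
          rw [show x * (g * g')⁻¹ * x⁻¹ = x * g'⁻¹ * x⁻¹ * (x * g⁻¹ * x⁻¹) by group, map_mul]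
          exact hmul _ _ (h2 x).2 (h1 x).2⟩
      one_mem' := fun x => by simp [hQP]
      inv_mem' := fun {g} h1 x => by simpa using (h1 x).symm }
  have hM : M.Normal := ⟨fun g hg y x => by
    have := hg (x * y)
    simpa [mul_assoc] using this⟩
  have hsc : ∀ γ ∈ M, ∃ c : k, ρ γ = c • 1 := (hsimp M hM).resolve_left fun hsp => by
    have h1 : ∀ a ∈ Submodule.span L (r '' M), Qm * a * Pm = 0 := by
      intro a ha
      induction ha using Submodule.span_induction with
      | mem x hx => obtain ⟨γ, hγ, rfl⟩ := hx; simpa using (hγ 1).1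
      | zero => simp
      | add x y _ _ h1 h2 => rw [mul_add, add_mul, h1, h2, add_zero]
      | smul a x _ h1 => simp [h1]
    rw [span_rl σ h hsp] at h1
    obtain ⟨i, j, hij⟩ : ∃ i j, Pm i j ≠ 0 := by
      by_contra hc; push Not at hc; exact hPm (Matrix.ext hc)
    obtain ⟨i', j', hij'⟩ : ∃ i j, Qm i j ≠ 0 := by
      by_contra hc; push Not at hc; exact hQm (Matrix.ext hc)
    have := congrFun (congrFun (h1 (Matrix.single j' i 1) trivial) i') j
    simp [Matrix.mul_apply, Matrix.single_apply, ite_and, hij, hij'] at this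
  let o : Fin N := ⟨0, hN⟩
  obtain ⟨Φ, Φ1, Φ2⟩ := exists_cover ρ.ker (· ∈ M) (fun g => ρ g o o) (nthRoots N (1 : k)).toFinset
    (fun g hg => by
      obtain ⟨c, hc⟩ := hsc g hg
      have := hdet g
      rw [hc] at this
      simpa [mem_nthRoots hN, hc] using this)
    (fun g g' hg hg' e => by
      obtain ⟨c, hc⟩ := hsc g hg
      obtain ⟨c', hc'⟩ := hsc g' hg'
      simp only [hc, hc', Matrix.smul_apply, one_apply_eq, smul_eq_mul, mul_one] at e
      rw [MonoidHom.mem_ker, map_mul, hc, e, ← hc', ← map_mul, inv_mul_cancel, map_one])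
  refine ⟨Φ, Φ1.trans ((Multiset.toFinset_card_le _).trans (card_nthRoots _ _)),
    fun g hg => Φ2 g ?_⟩
  have h1 := fun s hs => hQ _ (hg s hs).1 (by simpa [mul_assoc] using (hg s hs).2)
  have h2 : r g ∈ Hs Set.univ := hl' ▸ fun s hs => by simpa using (h1 s hs).1
  have h3 : r g⁻¹ ∈ Hs Set.univ := hl' ▸ fun s hs => by simpa [mul_assoc] using (h1 s hs).2
  exact fun x => ⟨by simpa using h2 x trivial, by simpa using h3 x trivial⟩

end Pool.Agent.MP_646035_al.H43

end
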