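import Pool.Agent.MP_646035_al.Mg.H43_Dens

/-!
Lattices.
-/

set_option backward.isDefEq.respectTransparency false

namespace Pool.Agent.MP_646035_al.H43

open Matrix Filter Topology NormedSpace MeasureTheory
open scoped Matrix.Norms.Operator

variable {n : Type} [Fintype n] [DecidableEq n] {G : Subgroup (Matrix n n ℂ)ˣ} (hG : Kn G)

/-- Conjugates of Hermitian elements of the Lie algebra. -/
def Kn.T : Set (Matrix n n ℂ) := {Y | ∃ g ∈ G, ∃ X ∈ hG.g, Xᴴ = X ∧ Y = g.1 * X * (g⁻¹).1}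

lemma Kn.T_conj {g : (Matrix n n ℂ)ˣ} (hg : g ∈ G) {Y : Matrix n n ℂ} (hY : Y ∈ hG.T) :
    g.1 * Y * (g⁻¹).1 ∈ hG.T := by
  obtain ⟨a, ha, X, h1, h2, rfl⟩ := hY
  exact ⟨g * a, mul_mem hg ha, X, h1, h2, by simp only [_root_.mul_inv_rev, Units.val_mul, mul_assoc]⟩

lemma Kn.T_le : Submodule.span ℝ hG.T ≤ hG.g := Submodule.span_le.2 (by
  rintro _ ⟨a, ha, X, h1, -, rfl⟩; exact conj_mem_lie _ ha h1)

lemma Kn.T_star {Y : Matrix n n ℂ} (hY : Y ∈ hG.T) : Yᴴ ∈ hG.T := by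
  obtain ⟨a, ha, X, h1, h2, rfl⟩ := hY
  refine ⟨(star a)⁻¹, inv_mem (hG.adj a ha), X, h1, h2, ?_⟩
  simp only [inv_inv, Units.coe_star, Units.coe_star_inv, star_eq_conjTranspose, conjTranspose_mul,
    h2, mul_assoc]

lemma Kn.perp {Z : Matrix n n ℂ} (hZ : Z ∈ hG.g)
    (h : ∀ W ∈ Submodule.span ℝ hG.T, (Wᴴ * Z).trace.re = 0) :
    (∀ Y ∈ hG.T, Commute Z Y) ∧ Zᴴ = -Z := by
  have h1 : ∀ X ∈ hG.g, ∀ Y ∈ Submodule.span ℝ hG.T, X * Y - Y * X ∈ Submodule.span ℝ hG.T :=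
    fun X hX Y hY => deriv_mem _ (fun t => by
      simpa using (Submodule.span_le (p := (Submodule.span ℝ hG.T).comap
        ((AdL (ex (t • X))).restrictScalars ℝ))).2
        (fun Y hY => Submodule.subset_span (hG.T_conj (hX t) hY)) hY) (hasDerivAt_conj X Y)
  refine ⟨fun Y hY => sub_eq_zero.1 (perp_comm rfl (h _ ?_)), ?_⟩
  · have := Submodule.subset_span (R := ℝ) hY
    simpa using neg_mem (h1 _ (hG.star_mem (hG.T_le this)) _ (h1 Z hZ Y this))
  · have h2 := h (Zᴴ + Z) (Submodule.subset_span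
      ⟨1, one_mem _, _, add_mem (hG.star_mem hZ) hZ, by simp [add_comm], by simp⟩)
    refine eq_neg_of_add_eq_zero_left (eq_zero_of_re_trace ?_)
    rw [mul_add, trace_add, Complex.add_re, h2, add_zero, re_trace_comm, trace_mul_comm, ← h2]
    simp [add_comm]

lemma Kn.unitary {c : G} (h : ∀ Y ∈ hG.T, Commute c.1.1 Y) : c.1.1ᴴ * c.1.1 = 1 := by
  let p : G := ⟨_, hG.adj _ c.2⟩ * c
  have hp : p.1.1 = c.1.1ᴴ * c.1.1 := rfl
  have hs : star p.1 = p.1 := by simp [p]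
  have h1 : ∀ Y ∈ Submodule.span ℝ hG.T, Commute p.1.1 Y := fun Y hY => by
    induction hY using Submodule.span_induction with
    | mem Y hY => exact Commute.mul_left (a := c.1.1ᴴ) (by
        simpa only [star_eq_conjTranspose, conjTranspose_conjTranspose] using
          (h _ (hG.T_star hY)).star_star) (h Y hY)
    | zero => simp
    | add x y _ _ h1 h2 => exact h1.add_right h2
    | smul c x _ h1 => exact h1.smul_right c
  obtain ⟨m, m1, m2⟩ := hG.pow_eq_one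
  refine eq_one_of_pow (k := 2 * m) (by omega) ?_
  rw [pow_mul, ← hp, pow_two]
  refine m2 (p * p) (hG.central fun X hX => ?_)
  obtain ⟨Y, y1, y2⟩ := exists_perp (Submodule.span ℝ hG.T) X
  have y3 := sub_mem hX (hG.T_le y1)
  rw [← sub_add_cancel X Y]
  refine Commute.add_right ?_ ((h1 Y y1).mul_left (h1 Y y1))
  set Z := X - Y
  have a1 := (hG.perp y3 y2).2
  have a2 := (hG.perp (conj_mem_lie _ p.2 y3) fun W hW => by
    rw [trace_conj, hs, (h1 W hW).eq, Units.mul_inv_cancel_right]; exact y2 W hW).2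
  have a3 : p.1.1ᴴ = p.1.1 := congrArg Units.val hs
  have a4 : (p.1⁻¹).1ᴴ = (p.1⁻¹).1 := congrArg (fun x => (x⁻¹).1) hs
  rw [conjTranspose_mul, conjTranspose_mul, a1, a3, a4, neg_mul, mul_neg, neg_inj,
    Units.inv_mul_eq_iff_eq_mul, ← mul_assoc, Units.eq_mul_inv_iff_mul_eq] at a2
  simpa only [Commute, SemiconjBy, Subgroup.coe_mul, Units.val_mul, mul_assoc] using a2.symm

lemma pol_ker {G : Type*} [Group G] {I : Type} {N : I → ℕ}
    {ρ : ∀ i, G →* Matrix (Fin (N i)) (Fin (N i)) ℂ} {z : G} (hz : ∀ i, ρ i z = 1) {d : ℕ}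
    {ψ : G → ℂ} (h : ψ ∈ Pol ρ d) (x : G) : ψ (x * z) = ψ x := by
  refine pol_ind (P := fun ψ => ψ (x * z) = ψ x) ?_ (fun c ψ h => by simp [h])
    (fun _ _ h h' => by simp [h, h']) (fun _ _ h h' => by simp [h, h']) h
  have a4 : ∀ i, ρ i z⁻¹ = 1 := fun i => by
    rw [← one_mul (ρ i _), ← hz i, ← map_mul, mul_inv_cancel, map_one, hz]
  rintro _ ⟨_ | ⟨i, _ | _, a, b⟩, rfl⟩ <;> simp [a4, hz]

lemma Onb.rho_diag {N : ℕ} {U : Submodule ℂ (Matrix n n ℂ)} {e : Fin N → Matrix n n ℂ}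
    (h : Onb U e) (hU : Inv G U) (hG : Kn G) {g : (Matrix n n ℂ)ˣ} (hg : g ∈ G)
    {X : Matrix n n ℂ} (x1 : X ∈ hG.g) (x2 : Xᴴ = X) (t : ℝ) :
    ∃ (T T' : Matrix (Fin N) (Fin N) ℂ) (μ : Fin N → ℝ), T * T' = 1 ∧ (∀ b, 0 < μ b) ∧
      h.rho hU ⟨_, conj_mem_lie _ hg x1 t⟩ = T * diagonal (fun b => (μ b : ℂ)) * T' := by
  let u : G := ⟨_, x1 (t / 2)⟩
  obtain ⟨T, T', μ, t1, t2, t3⟩ := exists_diag ((Group.isUnit u).map (h.rho hU))
  refine ⟨h.rho hU ⟨g, hg⟩ * T, T' * h.rho hU ⟨g, hg⟩⁻¹, μ, ?_, t2, ?_⟩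
  · rw [mul_assoc, ← mul_assoc T, t1, one_mul, ← map_mul, mul_inv_cancel, map_one]
  · rw [mul_assoc _ T, mul_assoc (h.rho hU _), ← mul_assoc _ T', ← t3, ← h.rho_star hU hG]
    simp only [← map_mul]
    refine congrArg _ (Subtype.ext (Units.ext ?_))
    simp only [u, star_ex, Subgroup.coe_mul, Units.val_mul, ex_val, Subgroup.coe_inv]
    rw [conjTranspose_smul, x2, star_trivial, ← Matrix.exp_add_of_commute _ _ (Commute.refl _),
      ← add_smul, add_halves, ← mul_assoc, ← NormedSpace.exp_units_conj, mul_smul_comm,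
      smul_mul_assoc]

include hG in
theorem wo_of_rec {Γ' : Type*} [Group Γ'] (Γ : Subgroup Γ') [Γ.FiniteIndex] (f : Γ →* G)
    (hK : {γ | (f γ).1.1ᴴ * (f γ).1.1 = 1}.Finite)
    (hrec : ∀ a : G, ∀ U ∈ 𝓝 (1 : G), ∀ k0 : ℕ, ∃ k ≥ k0, ∃ x ∈ U, ∃ y ∈ U, ∃ γ,
      a ^ k * x * f γ = y) : ∀ A ⊆ growthSet Γ', A.Nonempty → ∃ a, IsLeast A a := by
  refine wo_of_dense hG (V := Submodule.span ℂ hG.T) (fun g hg X hX => ?_)
    (Submodule.span_mono fun X hX => hG.T_le (Submodule.subset_span hX)) Γ f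
    (hK.subset fun γ hγ => hG.unitary fun Y hY =>
      (Units.mul_inv_eq_iff_eq_mul _).1 (hγ Y (Submodule.subset_span hY)))
    fun I _ N U e h hU hUV d φ h1 h2 => ?_
  · exact (Submodule.span_le (p := (Submodule.span ℂ _).comap (AdL g))).2
      (fun X hX => Submodule.subset_span (hG.T_conj hg hX)) hX
  set ρ := fun i => (h i).rho (hU i)
  have hρ : ∀ i, Continuous (ρ i) := fun i => (h i).rho_cont (hU i)
  let Q : G → Prop := fun g => ∀ φ ∈ Pol ρ d, (∀ γ, φ (f γ) = 0) → ∀ γ, φ (f γ * g) = 0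
  have hQ : ∀ a b, Q a → Q b → Q (a * b) := fun a b ha hb φ h1 h2 γ => by
    rw [← mul_assoc]; exact ha _ (pol_right h1 b) (hb φ h1 h2) γ
  let H : Subgroup G :=
    { carrier := {g | Q g ∧ Q g⁻¹}
      one_mem' := by simp +contextual [Q]
      mul_mem' := fun ha hb => ⟨hQ _ _ ha.1 hb.1, by rw [_root_.mul_inv_rev]; exact hQ _ _ hb.2 ha.2⟩
      inv_mem' := fun ha => ⟨ha.2, by simpa using ha.1⟩ }
  have hQc : IsClosed {g | Q g} := by
    simp only [Q, Set.ofPred_forall]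
    exact isClosed_iInter fun φ => isClosed_iInter fun h1 => isClosed_iInter fun _ =>
      isClosed_iInter fun γ => isClosed_eq ((pol_cont hρ h1).comp (continuous_const_mul _))
        continuous_const
  have hH : IsClosed (H : Set G) := hQc.inter (hQc.preimage continuous_inv)
  have hmem : ∀ X (hX : X ∈ hG.g), (∀ t : ℝ, Q ⟨_, hX t⟩) → X ∈ lie (hG.closed_map hH) :=
    fun X hX h t => ⟨⟨_, hX t⟩, ⟨h t, by
      rw [show (⟨_, hX t⟩ : G)⁻¹ = ⟨_, hX (-t)⟩ from Subtype.ext (by simp)]; exact h _⟩, rfl⟩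
  have := hG.eq_top hH fun X hX => ?_
  · exact funext fun g => by simpa using (this ▸ Subgroup.mem_top g : g ∈ H).1 φ h1 h2 1
  obtain ⟨Y, y1, y2⟩ := exists_perp (Submodule.span ℝ hG.T) X
  have y3 := sub_mem hX (hG.T_le y1)
  rw [← sub_add_cancel X Y]
  refine add_mem (hmem _ y3 fun t ψ a1 a2 γ => ?_) (Submodule.span_le.2 ?_ y1)
  · have a3 : ∀ i, ρ i ⟨_, y3 t⟩ = 1 := fun i => ((h i).rho_eq_one (hU i)).2 fun W hW =>
      (Submodule.span_le (p := LinearMap.eqLocus (AdL (ex (t • (X - Y)))) 1)).2 (fun W hW =>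
        (Units.mul_inv_eq_iff_eq_mul (ex (t • (X - Y)))).2 (((hG.perp y3 y2).1 W hW).smul_left t).exp_left.eq)
        (hUV i hW)
    rw [pol_ker a3 a1, a2]
  · rintro _ ⟨g, hg, X, x1, x2, rfl⟩
    refine hmem _ (conj_mem_lie _ hg x1) fun t ψ a1 a2 γ =>
      borel_fun hρ f (fun i => ?_) (hrec _) a1 a2 γ
    exact (h i).rho_diag (hU i) hG hg x1 x2 t

include hG in
theorem wo_of_lattice {L : Type*} [Group L] [TopologicalSpace L] [IsTopologicalGroup L] [T2Space L]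
    (π : L →* (Matrix n n ℂ)ˣ) (hπ : IsProperMap π) (h1 : G ≤ π.range) [(G.comap π).FiniteIndex]
    (Γ : Subgroup L) [DiscreteTopology Γ] [MeasurableSpace (L ⧸ Γ)] [BorelSpace (L ⧸ Γ)]
    (μ : Measure (L ⧸ Γ)) [IsFiniteMeasure μ] [SMulInvariantMeasure L (L ⧸ Γ) μ] (hμ : μ ≠ 0) :
    ∀ A ⊆ growthSet Γ, A.Nonempty → ∃ a, IsLeast A a := by
  let f : (G.comap π).subgroupOf Γ →* G :=
    (π.comp (Γ.subtype.comp (Subgroup.subtype _))).codRestrict G fun x => x.2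
  refine wo_of_rec hG _ f ?_ fun a U hU k0 => ?_
  · have a1 : IsCompact (unitary (Matrix n n ℂ) : Set (Matrix n n ℂ)) :=
      (isCompact_univ_pi fun _ => isCompact_univ_pi fun _ =>
        isCompact_closedBall (0 : ℂ) 1).of_isClosed_subset (isClosed_unitary (R := Matrix n n ℂ)) fun A hA i _ j _ => by
          simpa using entry_norm_bound_of_unitary hA i j
    have a2 := (Γ.tendsto_coe_cofinite_of_discrete (isDiscrete_iff_discreteTopology.2 ‹_›))
      (hπ.isCompact_preimage (Submonoid.units_isCompact a1)).compl_mem_cocompact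
    rw [mem_map, mem_cofinite, Set.preimage_compl, compl_compl] at a2
    refine (a2.preimage Subtype.val_injective.injOn).subset fun γ hγ => ?_
    have a3 : (f γ).1.1 ∈ unitary (Matrix n n ℂ) := ⟨hγ, mul_eq_one_comm.1 hγ⟩
    refine ⟨a3, ?_⟩
    have : ((f γ).1⁻¹).1 = star (f γ).1.1 := Units.inv_eq_of_mul_eq_one_left hγ
    have a4 := Unitary.star_mem a3
    rwa [← this] at a4
  · have : SecondCountableTopology (Matrix n n ℂ)ˣ :=
      Units.isOpenEmbedding_val.isEmbedding.secondCountableTopology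
    have : SigmaCompactSpace L := isSigmaCompact_univ_iff.1 (by
      obtain ⟨K, K1, K2⟩ := isSigmaCompact_univ (X := (Matrix n n ℂ)ˣ)
      exact ⟨fun i => π ⁻¹' K i, fun i => hπ.isCompact_preimage (K1 i), by
        rw [← Set.preimage_iUnion, K2, Set.preimage_univ]⟩)
    obtain ⟨b, hb⟩ := h1 a.2
    obtain ⟨U', u1, u2⟩ := (mem_nhds_subtype _ _ _).1 hU
    obtain ⟨k, k1, x, hx, y, hy, γ, γ1, e⟩ := recurrence Γ μ hμ b (U := π ⁻¹' U' ∩ G.comap π)
      (inter_mem (hπ.continuous.continuousAt.preimage_mem_nhds (by simpa using u1))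
        ((Subgroup.isOpen_of_isClosed_of_finiteIndex _ (hG.closed.preimage hπ.continuous)).mem_nhds
          (one_mem _))) k0
    have γ2 : γ ∈ G.comap π := by
      rw [eq_inv_mul_of_mul_eq e]
      exact mul_mem (inv_mem (mul_mem (pow_mem (show b ∈ G.comap π from (hb ▸ a.2 : π b ∈ G)) _) hx.2)) hy.2
    exact ⟨k, k1, ⟨_, hx.2⟩, u2 hx.1, ⟨_, hy.2⟩, u2 hy.1, ⟨⟨γ, γ1⟩, γ2⟩,
      Subtype.ext (by simp [f, ← hb, ← e])⟩

end Pool.Agent.MP_646035_al.H43
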