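import Pool.Agent.MP_646035_al.Mg.H66G_Act
import Pool.Agent.MP_646035_al.Mg.EN_RSApi
import Pool.Agent.MP_646035_al.Mg.MC_Trace
import Pool.Agent.MP_646035_al.Mg.H84_GBase
import Pool.Agent.MP_646035_al.H71.Ax

attribute [-instance] AlgHom.instNonUnitalAlgHomClassOfAlgHomClass MonTypeEquivalenceMon.monMonoid
  GradedMonoid.GradeZero.mulAction ContinuousSemilinearMapClass.toSemilinearMapClass
  Submonoid.instSMulSubtypeMem DivisionCommMonoid.toDivisionMonoid littleWedderburn
  instCharZeroOfIsSemireal instNonUnitalAlgHomClassOfNonUnitalAlgEquivClass Module.Flat.isTorsionFree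
  SMulWithZero.toSMulZeroClass CoalgHomClass.toSemilinearMapClass MulActionWithZero.toMulAction
  SemilinearIsometryClass.toSemilinearMapClass NonUnitalAlgHomClass.instLinearMapClass
  NonUnitalAlgHomClass.instSemilinearMapClassOfNonUnitalAlgSemiHomClassToMonoidHomRingHom
  Action.FintypeCat.instMulActionObjFiniteOf NormedAlgebra.toAlgebra
  RingHomClass.toLinearMapClassNNRat SubsemiringClass.toCommSemiring instIsIntegralQuotientIdeal
  IdemSemiring.toSemiring NormedField.toField NormedRing.toRing RingHomClass.toLinearMapClassRat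
  AlgHomClass.linearMapClass IsArtinianRing.instDecompositionMonoid Algebra.Generators.instRing
  SemilatticeInf.toPartialOrder AddQuantale.instAddLeftMono CommGroup.toCancelCommMonoid
  NonUnitalNormedRing.toNormedAddCommGroup MonoidWithZero.toMonoid instSMulZeroClass
  SeminormedRing.toRing IdemSemiring.toCanonicallyOrderedAdd NumberField.to_charZero
  Module.IsReflexive.to_isTorsionFree RCLike.charZero_rclike LieAlgebra.toModule
  RightPreLieAlgebra.toModule Prod.distribSMul LeftPreLieAlgebra.toModule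
  NonUnitalAlgSemiHomClass.toDistribMulActionSemiHomClass UniformSpace.toTopologicalSpace
  SetLike.GradeZero.instSemiring NonUnitalRing.toNonUnitalNonAssocRing NormedCommRing.toCommRing
  SetLike.GradeZero.instCommSemiring SemilinearEquivClass.instSemilinearMapClass
  BialgHomClass.toMonoidHomClass SetLike.GradeZero.instRing IdemCommSemiring.toCommSemiring
  IsDedekindDomain.isPrincipalIdealRing SetLike.GradeZero.instMonoid
  instIsPrincipalIdealRingOfIsSemisimpleRing MulDistribMulAction.toMulAction BooleanRing.toRing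
  Torsor.toMulAction MulSemiringActionSemiHomClass.toDistribMulActionSemiHomClass RKHS.instFunLike
  GroupConeClass.toSubmonoidClass Bialgebra.toAlgebra NormedSpace.toModule
  DivisionRing.toDivisionSemiring instCoeTCOfCoe NormedDivisionRing.toDivisionRing
  SeminormedCommRing.toCommRing CommMonoidWithZero.toMonoidWithZero EuclideanDomain.toCommRing
  NonUnitalAlgSemiHomClass.toMulHomClass ESeminormedAddMonoid.toAddMonoid
  LocalizedModule.instCommRing MulRingSeminormClass.toMonoidWithZeroHomClass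
  Fintype.decidableForallFintype CommMonTypeEquivalenceCommMon.commMonCommMonoid
  GroupWithZero.toMonoidWithZero BialgHomClass.toAlgHomClass invertibleTwo
  NonUnitalNormedCommRing.toNonUnitalCommRing NonUnitalSemiring.toNonUnitalNonAssocSemiring
  GradedMonoid.GradeZero.smul NonUnitalAlgHomClass.toNonUnitalRingHomClass bot_nonempty
  LieRinehartAlgebra.toIsScalarTower SetLike.GradeZero.instAlgebraSubtypeMemOfNat
  ValuationClass.toMonoidWithZeroHomClass Group.IsPerfect.subsingleton_of_isMulCommutative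
  SubsemiringClass.toSemiring CentroidHomClass.toAddMonoidHomClass Action.instMulAction
  MulCharClass.toMonoidHomClass RingEquivClass.toNonUnitalRingHomClass
  NonAssocCommSemiring.toNonAssocSemiring LieAdmissibleRing.toNonUnitalNonAssocRing instCoeTOfCoeDep
  Algebra.FormallySmooth.instLocalization BooleanRing.toCommRing covariant_swap_mul_of_covariant_mul
  NonUnitalNonAssocCommSemiring.toNonUnitalNonAssocSemiring
  NonUnitalSeminormedCommRing.toNonUnitalCommRing Subgroup.mulSemiringAction SubringClass.toRing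
  IsUnit.instDecidableOfExistsUnitsEqVal SetLike.GradeZero.instCommRing LieRing.toAddCommGroup
  ContDiffMapSupportedInClass.toDFunLike TestFunctionClass.toDFunLike Field.instIsLocalRing
  instIsFractionRing AddQuantale.instAddRightMono GroupWithZero.toDivInvMonoid
  instMulSemiringActionSubtypeMem AddCommGroupWithOne.toAddGroupWithOne DivisionRing.toDivInvMonoid
  SubsemiringClass.toSubmonoidClass Module.Free.instIsTorsionFree
  MulDistribMulActionSemiHomClass.toMonoidHomClass Submonoid.instDistribMulActionSubtypeMem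
  Algebra.FormallyUnramified.instLocalization NonUnitalRing.toNonUnitalSemiring
  LinearOrderedCommMonoidWithZero.toPosMulStrictMono

-- part MP_646035_al.H66G.Tw
section

/-!
No power of a twist preserves a closed geodesic that crosses the twisting curve.
-/

namespace Pool.Agent.MP_646035_al.H66G

open Pool.Agent.MP_4a6971_al.H66 MC Real Set

variable {u : Isom} {E F G G' P Q X N N' : V}

lemma wander0 (hu : Hyp u) (hE : IsAx u E) (hF : Bf F F = 1) (h : 1 < Bf E F ^ 2) (hG : Bf G G = 1)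
    (cr : Cr E G) {d : ℤ} (hd : ∀ j : ℕ, Cr G (u ^ (j * d) • F)) : d = 0 := by
  obtain ⟨f, t, hf, h0⟩ := hu.fr0 hE
  have ht := hf.pos
  rw [← Bf_isom f, h0, Bf_E0] at h
  rw [← cr_isom f, h0, Cr, Bf_E0] at cr
  rw [← Bf_isom f] at hF hG
  simp only [← cr_isom f G, hf.eq, dil_smul] at hd
  generalize f • F = F' at *
  generalize f • G = G' at *
  obtain ⟨a, b, c⟩ := F'
  obtain ⟨x, y, z⟩ := G'
  simp only [Cr, Bf] at *
  have h1 : a * c ≠ 0 := fun e => by linarith only [hF, h, e]
  have h2 : x * z ≠ 0 := fun e => by linarith only [hG, cr, e]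
  have key : ∀ α β γ s : ℝ, 0 < s → α ≠ 0 →
      ¬ ∀ j : ℕ, (β + α * exp (j * s) + γ * exp (-(j * s))) ^ 2 < 1 := fun α β γ s hs hα H => by
    rcases lt_or_gt_of_ne hα with p | p
    · obtain ⟨n, hn⟩ := grow_aux (β := -β) (γ := -γ) hs (neg_pos.2 p) 1
      nlinarith only [hn n le_rfl, H n]
    · obtain ⟨n, hn⟩ := grow_aux (β := β) (γ := γ) hs p 1
      nlinarith only [hn n le_rfl, H n]
  by_contra n
  rcases lt_or_gt_of_ne n with p | p
  · refine key (-(a * z) / 2) (y * b) (-(x * c) / 2) (-d * t)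
      (mul_pos (by exact_mod_cast neg_pos.2 p) ht) (by
        simpa using ⟨left_ne_zero_of_mul h1, right_ne_zero_of_mul h2⟩) fun j => (hd j).trans_eq' ?_
    push_cast
    ring_nf
  · refine key (-(x * c) / 2) (y * b) (-(a * z) / 2) (d * t) (mul_pos (by exact_mod_cast p) ht) (by
        simpa using ⟨left_ne_zero_of_mul h2, right_ne_zero_of_mul h1⟩) fun j => (hd j).trans_eq' ?_
    push_cast
    ring_nf

variable {Γ : Type} [Group Γ] {Y : Fuchs Γ} {x y τ β : Γ} {φ ψ : MulAut Γ}

lemma loc_fin' (hx : x ≠ 1) (hE : IsAx (Y.σ x) E) (hP : H2 P) (R : ℝ) :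
    {F | (∃ w, F = Y.σ w • E ∨ F = -(Y.σ w • E)) ∧ |Bf F P| ≤ R}.Finite := by
  have f := loc_fin hx hE ((1 + 2 * R) * ch P o)
  have k : ∀ w, |Bf (Y.σ w • E) P| ≤ R → |Bf (Y.σ w • E) o| ≤ (1 + 2 * R) * ch P o := fun w h =>
    (abs_Bf_le (by simpa using hE.1) H2_o hP).trans (by
      have := one_le_ch hP H2_o
      gcongr)
  refine (f.union (f.image Neg.neg)).subset ?_
  rintro _ ⟨⟨w, rfl | rfl⟩, h⟩
  · exact Or.inl ⟨⟨w, rfl⟩, k w h⟩
  · exact Or.inr ⟨_, ⟨⟨w, rfl⟩, k w (by simpa using h)⟩, rfl⟩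

/-- A translation along a wall that bounds the region of `P` preserves that region. -/
lemma noWall_of (hβ : IsAx (Y.σ β) F) (hX : H2 X) (x0 : Bf F X = 0) (p : Bf F P ≠ 0)
    (h : ∀ γ, ¬ (Y.σ γ • E = F ∨ Y.σ γ • E = -F) → ∀ X, H2 X → Bf F X = 0 →
      0 < Bf (Y.σ γ • E) P * Bf (Y.σ γ • E) X) : Y.NoWall E P (Y.σ β • P) := fun γ => by
  have e : ∀ W, Bf F (Y.σ β • W) = Bf F W := fun W => by
    nth_rewrite 1 [← hβ.2]
    rw [Bf_isom]
  by_cases n : Y.σ γ • E = F ∨ Y.σ γ • E = -F
  · rcases n with n | n <;> simpa only [n, e, mul_self_pos, ne_eq, Bf_neg_left, mul_neg, neg_mul, neg_neg] using p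
  have a := h γ n _ (hX.smul (Y.σ β)) (by rw [e, x0])
  have b := h (β⁻¹ * γ) (by
    simpa only [map_mul, map_inv, mul_smul, inv_smul_eq_iff, smul_neg, hβ.2] using n) X hX x0
  rw [map_mul, map_inv, mul_smul, Bf_move, Bf_move _ _ X, inv_inv] at b
  rcases mul_pos_iff.1 a with a | a <;> rcases mul_pos_iff.1 b with b | b
  exacts [mul_pos a.1 b.1, absurd a.2 b.2.not_gt, absurd b.2 a.2.not_gt,
    mul_pos_of_neg_of_neg a.1 b.1]

lemma wall_far (hx : x ≠ 1) (hE : IsAx (Y.σ x) E) (s : ∀ γ, ¬ Cr E (Y.σ γ • E)) {γ δ : Γ}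
    (n : ¬ (Y.σ γ • E = Y.σ δ • E ∨ Y.σ γ • E = -(Y.σ δ • E))) :
    1 < Bf (Y.σ δ • E) (Y.σ γ • E) ^ 2 :=
  far (by simpa only [ne_eq, conj_eq_one_iff] using hx) (by simpa only [ne_eq, conj_eq_one_iff] using hx) (ax_conj hE δ) (ax_conj hE γ)
    (by simpa only [cr_move, map_mul, map_inv, mul_smul] using s (δ⁻¹ * γ)) n

/-- `E` lies on the side of `P` of all other walls. -/
lemma wall_side (hx : x ≠ 1) (hE : IsAx (Y.σ x) E) (s : ∀ γ, ¬ Cr E (Y.σ γ • E)) (hP : H2 P)
    (hQ : H2 Q) (p : 0 < Bf E P) (q : Bf E Q < 0) (h : ∀ γ, Y.σ γ • E ≠ E → Y.σ γ • E ≠ -E →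
      0 < Bf (Y.σ γ • E) P * Bf (Y.σ γ • E) Q) (γ : Γ) (n : ¬ (Y.σ γ • E = E ∨ Y.σ γ • E = -E))
    (X : V) (hX : H2 X) (x0 : Bf E X = 0) : 0 < Bf (Y.σ γ • E) P * Bf (Y.σ γ • E) X := by
  have f := wall_far hx hE s (δ := 1) (by simpa only [map_one, one_smul, not_or] using n)
  rw [map_one, one_smul] at f
  have key : ∀ F, Bf F F = 1 → 1 < Bf E F ^ 2 → 0 < Bf F P → 0 < Bf F Q → 0 < Bf F X :=
    fun F a b c d => by
      have := same_sign (Y.hyp x hx) hE a b hX hX x0 x0
      refine (not_lt.1 fun e => ?_).lt_of_ne fun e => by simp [← e] at this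
      rcases side_of hE.1 a b hX.fut x0 e with g | g
      · linarith [g P hP.fut]
      · linarith [g Q hQ.fut]
  rcases mul_pos_iff.1 (h γ (not_or.1 n).1 (not_or.1 n).2) with a | a
  · exact mul_pos a.1 (key _ (by simpa using hE.1) f a.1 a.2)
  · exact mul_pos_of_neg_of_neg a.1 (by
      simpa using key (-(Y.σ γ • E)) (by simpa using hE.1) (by simpa only [Bf_neg_right, even_two, Even.neg_pow, one_lt_sq_iff_one_lt_abs] using f) (by simpa using a.1)
        (by simpa using a.2))

/-- The first wall crossed by an axis on one side of `E`. -/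
lemma first_wall (hx : x ≠ 1) (hE : IsAx (Y.σ x) E) (s : ∀ γ, ¬ Cr E (Y.σ γ • E)) (hP : H2 P)
    (p : 0 < Bf E P) (h : ∀ γ, ¬ (Y.σ γ • E = E ∨ Y.σ γ • E = -E) → ∀ X, H2 X → Bf E X = 0 →
      0 < Bf (Y.σ γ • E) P * Bf (Y.σ γ • E) X) (hy : y ≠ 1) (hG : IsAx (Y.σ y) G) (c : Cr E G)
    (n : End (Y.σ y) N) (n' : End (Y.σ y⁻¹) N') (a : 0 < Bf E N) (a' : Bf E N' < 0) :
    ∃ F β, β ≠ 1 ∧ IsAx (Y.σ β) F ∧ 1 < Bf E F ^ 2 ∧ Cr G F ∧ Y.NoWall E P (Y.σ β • P) := by
  obtain ⟨k, hk⟩ := n'.grow (-E) P 0 hP (by simpa using a')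
  obtain ⟨l, l0, hl⟩ := n.eig
  have e : ∀ k : ℕ, Bf (Y.σ (y ^ k) • E) N = (l ^ k)⁻¹ * Bf E N := fun k => by
    have : Y.σ (y ^ k) • N = l ^ k • N := by
      induction k with
      | zero => simp only [pow_zero, map_one, one_smul]
      | succ k ih => rw [pow_succ, map_mul, mul_smul, hl, isom_smul, ih, smul_smul, pow_succ']
    rw [← Bf_isom (Y.σ (y ^ k)) E, this, Bf_smul_right, inv_mul_cancel_left₀ (by positivity)]
  obtain ⟨F, ⟨⟨⟨w, hw⟩, f1⟩, f2, f3⟩, mn⟩ := exists_min_image _ (fun F => Bf F P)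
    ((loc_fin' hx hE hP |Bf (Y.σ (y ^ k) • E) P|).inter_of_left {F | 0 < Bf F P ∧ Bf F N < 0})
    ⟨-(Y.σ (y ^ k) • E), ⟨⟨_, Or.inr rfl⟩, by simp⟩, by
      simpa only [map_pow, Bf_neg_left, Bf_move, Left.neg_pos_iff, map_inv, inv_pow] using hk k le_rfl, by rw [Bf_neg_left, e, neg_lt_zero]; positivity⟩
  have ax : IsAx (Y.σ (w * x * w⁻¹)) F := by
    rcases hw with rfl | rfl
    exacts [ax_conj hE w, (ax_conj hE w).neg]
  have nb : w * x * w⁻¹ ≠ 1 := by simpa only [ne_eq, conj_eq_one_iff] using hx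
  have ne : ¬ (Y.σ w • E = E ∨ Y.σ w • E = -E) := by
    rintro (g | g) <;> rcases hw with rfl | rfl <;> simp [g] at f2 f3 <;> linarith
  have fa := wall_far hx hE s (δ := 1) (by simpa only [map_one, one_smul, not_or] using ne)
  obtain ⟨Z, z1, z2⟩ := exists_bf (Y.hyp _ nb) ax 0
  refine ⟨F, _, nb, ax, by rcases hw with rfl | rfl <;> simpa only [one_lt_sq_iff_one_lt_abs, map_one, one_smul, Bf_neg_right, even_two, Even.neg_pow] using fa, ?_,
    noWall_of ax z1 z2 f2.ne' fun γ g X x1 x2 => ?_⟩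
  · by_contra nc
    obtain ⟨X, x1, x2, x3⟩ := exists_inter hE.1 hG.1 c
    have b : 0 < Bf F P * Bf F X := by rcases hw with rfl | rfl <;> simpa only [Bf_neg_left, mul_neg, neg_mul, neg_neg] using h w ne X x1 x2
    have d := far hy nb hG ax nc (by
      rintro (rfl | rfl) <;> simp [end_on n hG] at f3)
    have := n.le (H := -F) x1 fun j => by
      have := same_sign (Y.hyp y hy) hG ax.1 d x1 (x1.smul (Y.σ y ^ j)) x3
        (by rw [← hG.zpow j, zpow_natCast, Bf_isom, x3])
      rw [Bf_neg_left]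
      nlinarith only [f2, b, this]
    rw [Bf_neg_left] at this
    linarith
  · have fb : 1 < Bf F (Y.σ γ • E) ^ 2 := by
      rcases hw with rfl | rfl
      · exact wall_far hx hE s g
      · simpa only [Bf_neg_left, even_two, Even.neg_pow, one_lt_sq_iff_one_lt_abs] using wall_far hx hE s (γ := γ) (δ := w) (by simpa only [not_or, neg_neg, or_comm] using g)
    have key : ∀ H, (H = Y.σ γ • E ∨ H = -(Y.σ γ • E)) → 0 < Bf H P → 0 < Bf H X := fun H a b => by
      have u : Bf H H = 1 := by rcases a with rfl | rfl <;> simpa using hE.1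
      have v : 1 < Bf F H ^ 2 := by rcases a with rfl | rfl <;> simpa using fb
      have := same_sign (Y.hyp _ nb) ax u v x1 x1 x2 x2
      refine (not_lt.1 fun e => ?_).lt_of_ne fun e => by simp [← e] at this
      rcases side_of ax.1 u v x1.fut x2 e with g | g
      · linarith only [g P hP.fut, f2, b]
      · have g1 := g P hP.fut
        exact absurd (mn H ⟨⟨⟨γ, a⟩, by rw [abs_of_pos b]; linarith only [le_abs_self (Bf F P), f1, g1]⟩, b,
          (g N n.fut).trans f3⟩) (not_le.2 g1)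
    have nz : Bf (Y.σ γ • E) P ≠ 0 := by
      by_cases g : Y.σ γ • E = E ∨ Y.σ γ • E = -E
      · rcases g with g | g <;> simpa [g] using p.ne'
      · obtain ⟨W, w1, w2⟩ := exists_bf (Y.hyp x hx) hE 0
        exact left_ne_zero_of_mul (h γ g W w1 w2).ne'
    rcases lt_or_gt_of_ne nz with b | b
    · exact mul_pos_of_neg_of_neg b (by simpa using key _ (Or.inr rfl) (by simpa using b))
    · exact mul_pos b (key _ (Or.inl rfl) b)

lemma shift_eq (hτ : τ ≠ 1) (hE : IsAx (Y.σ τ) E) (g : Good Y ψ) (t : ψ τ = τ) {k d : ℤ}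
    (r : Rl Y ψ G (Y.σ (τ ^ k) • G)) (r' : Rl Y ψ F (Y.σ (τ ^ d) • F)) (c : Cr E G) (c' : Cr G F)
    (f : 1 < Bf E F ^ 2) : d = k := by
  refine sub_eq_zero.1 (wander0 (Y.hyp τ hτ) hE r'.choose_spec.2.1.1 f r.choose_spec.2.1.1 c
    fun j => ?_)
  induction j with
  | zero => simpa using c'
  | succ j ih =>
    rw [← map_zpow] at ih
    have := r.cr (r'.smul _) g ih
    rw [map_zpow ψ, t, cr_move, ← map_inv, ← mul_smul, ← mul_smul, ← map_mul, ← map_mul,
      ← zpow_neg, ← zpow_add, ← zpow_add, map_zpow] at this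
    rwa [show ((j + 1 : ℕ) : ℤ) * (d - k) = -k + j * (d - k) + d by push_cast; ring]

lemma cross_fin (hx : x ≠ 1) (hy : y ≠ 1) (hE : IsAx (Y.σ x) E) (hF : IsAx (Y.σ y) F) :
    ∃ T : Set V, T.Finite ∧ ∀ w, Cr E (Y.σ w • F) → ∃ k : ℤ, Y.σ (x ^ k * w) • F ∈ T := by
  obtain ⟨R, hR⟩ := norm_line (Y.hyp x hx) hE
  refine ⟨_, loc_fin hy hF R, fun w hw => ?_⟩
  obtain ⟨k, hk⟩ := hR _ (by simpa using hF.1) hw
  exact ⟨k, ⟨_, rfl⟩, by rwa [map_mul, map_zpow, mul_smul]⟩

lemma twist_fix (s : Y.Curve E) (h : Y.IsTwist E φ) : Rl Y φ E E := by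
  obtain ⟨τ, P, Q, hτ, hE, hP, hQ, p, q, h1, h2, -⟩ := h
  obtain ⟨Z, z1, z2⟩ := exists_bf (Y.hyp _ hτ) hE 0
  exact ⟨τ, hτ, hE, by
    rwa [h2 τ (noWall_of hE z1 z2 p.ne' (wall_side hτ hE s.simple hP hQ p q h1))]⟩

theorem twist_free (s : Y.Curve E) (h : Y.IsTwist E φ) (g : ∀ n : ℕ, Good Y (φ ^ n)) (c : Cr E G)
    {n : ℕ} (hn : 0 < n) {γ : Γ} (r : Rl Y (φ ^ n) G (Y.σ γ • G)) : False := by
  obtain ⟨τ, P, Q, hτ, hE, hP, hQ, p, q, h1, h2, h3⟩ := h
  have w1 := wall_side hτ hE s.simple hP hQ p q h1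
  obtain ⟨Z, z1, z2⟩ := exists_bf (Y.hyp _ hτ) hE 0
  have t : φ τ = τ := h2 τ (noWall_of hE z1 z2 p.ne' w1)
  have fx : ∀ β, φ β = β → ∀ m : ℕ, (φ ^ m) β = β := fun β e m => by
    induction m with
    | zero => rfl
    | succ m ih => rw [pow_succ, MulAut.mul_apply, e, ih]
  have core : ∀ (m : ℕ) (k : ℤ) G y N N', y ≠ 1 → IsAx (Y.σ y) G → Cr E G → End (Y.σ y) N →
      End (Y.σ y⁻¹) N' → 0 < Bf E N → Bf E N' < 0 → Rl Y (φ ^ m) G (Y.σ (τ ^ k) • G) → m = 0 := by
    intro m k G y N N' hy hG c n n' a a' r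
    obtain ⟨F, β, b1, b2, b3, b4, b5⟩ := first_wall hτ hE s.simple hP p w1 hy hG c n n' a a'
    obtain ⟨F', β', d1, d2, d3, d4, d5⟩ := first_wall (E := -E) hτ hE.neg
      (by simpa only [smul_neg, cr_neg_right, cr_neg_left] using s.simple) hQ (by simpa using q) (by
        simpa only [smul_neg, neg_eq_iff_eq_neg, neg_neg, not_or, Bf_neg_left, neg_zero, mul_neg, neg_mul, Prod.forall, and_imp] using wall_side (E := -E) hτ hE.neg
          (by simpa using s.simple) hQ hP (by simpa using q) (by simpa using p)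
          fun γ a b => by
            simpa only [smul_neg, Bf_neg_left, mul_comm, mul_neg, neg_mul, neg_neg] using h1 γ (by simpa using a) (by simpa [neg_eq_iff_eq_neg] using b))
      (inv_ne_one.2 hy) (by rw [map_inv]; exact hG.inv) (by simpa using c) n' (by simpa using n)
      (by simpa using a') (by simpa using a)
    have e1 := shift_eq hτ hE (g m) (fx τ t m) (d := 0) r
      ⟨β, b1, b2, by simpa only [fx β (h2 β b5), zpow_ofNat, pow_zero, map_one, one_smul] using b2⟩ c b4 b3
    have e : ∀ j : ℕ, (φ ^ j) β' = τ ^ (j : ℤ) * β' * (τ ^ (j : ℤ))⁻¹ := fun j => by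
      induction j with
      | zero => simp
      | succ j ih =>
        rw [pow_succ', MulAut.mul_apply, ih, map_mul, map_mul, map_inv, map_zpow, t,
          h3 β' (by simpa only [Fuchs.NoWall, smul_neg, Bf_neg_left, mul_neg, neg_mul, neg_neg] using d5)]
        push_cast
        group
    have e2 := shift_eq hτ hE (g m) (fx τ t m) (d := m) r
      ⟨β', d1, d2, by rw [e]; exact ax_conj d2 _⟩ c d4 (by simpa only [one_lt_sq_iff_one_lt_abs, Bf_neg_left, even_two, Even.neg_pow] using d3)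
    omega
  obtain ⟨y, hy, hG, -⟩ := id r
  have it : ∀ j : ℕ, ∃ w, Rl Y (φ ^ (n * j)) G (Y.σ w • G) := fun j => by
    induction j with
    | zero => exact ⟨1, y, hy, hG, by simpa only [mul_zero, pow_zero, MulAut.one_apply, map_one, one_smul] using hG⟩
    | succ j ih =>
      obtain ⟨w, hw⟩ := ih
      exact ⟨(φ ^ n) w * γ, by
        rw [mul_add, mul_one, add_comm, pow_add, map_mul, mul_smul]
        exact hw.trans (r.smul w)⟩
  choose w hw using it
  have cr : ∀ j, Cr E (Y.σ (w j) • G) := fun j =>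
    Rl.cr ⟨τ, hτ, hE, by rwa [fx τ t]⟩ (hw j) (g _) c
  obtain ⟨T, t1, t2⟩ := cross_fin hτ hy hE hG
  choose k hk using fun j => t2 _ (cr j)
  obtain ⟨i, -, j, -, lt, e⟩ := (infinite_univ (α := ℕ)).exists_lt_map_eq_of_mapsTo
    (f := fun j => Y.σ (τ ^ k j * w j) • G) (fun j _ => hk j) t1
  have r' : Rl Y (φ ^ (n * (j - i))) (Y.σ (w i) • G) (Y.σ (τ ^ (k i - k j)) • Y.σ (w i) • G) := by
    have := (hw i).symm.trans (hw j)
    rw [show n * j = n * (j - i) + n * i by rw [← mul_add, Nat.sub_add_cancel lt.le], pow_add,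
      mul_inv_cancel_right] at this
    rwa [sub_eq_neg_add, zpow_add, map_mul, mul_smul, ← mul_smul (Y.σ (τ ^ k i)), ← map_mul, e,
      ← mul_smul, ← map_mul, zpow_neg, inv_mul_cancel_left]
  have ny : w i * y * (w i)⁻¹ ≠ 1 := by simpa only [ne_eq, conj_eq_one_iff] using hy
  obtain ⟨N, N', n1, n2, f⟩ := exists_ends' ny (ax_conj hG (w i))
  have := f E
  have c' := cr i
  have z : n * (j - i) ≠ 0 := Nat.mul_ne_zero hn.ne' (by omega)
  rcases mul_neg_iff.1 (show Bf E N * Bf E N' < 0 by rw [Cr] at c'; linarith only [hE.1, this, c']) with a | a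
  · exact z (core _ _ _ _ N N' ny (ax_conj hG _) c' n1 n2 a.1 a.2 r')
  · exact z (core _ _ _ _ N' N (inv_ne_one.2 ny) (by rw [map_inv]; exact (ax_conj hG _).inv) c' n2
      (by rwa [inv_inv]) a.2 a.1 r')

end Pool.Agent.MP_646035_al.H66G

end

-- part MP_646035_al.EN.O
section

/-! Section 4a: the complete discrete valuation ring `O` with its derivations. -/

namespace EN

open PowerSeries

section Cp
variable (p : ℕ) (R : Type) [CommRing R]

/-- The `p`-adic completion of `R`, as `R[[T]] / (T - p)`. -/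
def Cp : Type := PowerSeries R ⧸ Ideal.span {(X : PowerSeries R) - (p : PowerSeries R)}

noncomputable instance : CommRing (Cp p R) := inferInstanceAs (CommRing (_ ⧸ _))

namespace Cp

/-- The quotient map. -/
noncomputable def mk : PowerSeries R →+* Cp p R := Ideal.Quotient.mk _

variable {p R}

theorem mk_surj (x : Cp p R) : ∃ f, mk p R f = x := Ideal.Quotient.mk_surjective x

theorem mk_eq_zero {f : PowerSeries R} : mk p R f = 0 ↔ (X - (p : PowerSeries R)) ∣ f :=
  Ideal.Quotient.eq_zero_iff_mem.trans Ideal.mem_span_singleton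

theorem mk_X : mk p R X = p := by
  have : mk p R (X - (p : PowerSeries R)) = 0 := mk_eq_zero.2 dvd_rfl
  rwa [map_sub, map_natCast, sub_eq_zero] at this

theorem dvd_mk {k : ℕ} {f : PowerSeries R} (h : (p : Cp p R) ^ k ∣ mk p R f) :
    ∃ g u, f = X ^ k * g + (X - (p : PowerSeries R)) * u := by
  obtain ⟨c, hc⟩ := h
  obtain ⟨g, rfl⟩ := mk_surj c
  obtain ⟨u, hu⟩ := mk_eq_zero.1 (show mk p R (f - X ^ k * g) = 0 by
    rw [map_sub, map_mul, map_pow, mk_X, hc, sub_self])
  exact ⟨g, u, by rw [← hu]; ring⟩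

theorem mk_dvd {k : ℕ} {f : PowerSeries R} (h : X ^ k ∣ f) : (p : Cp p R) ^ k ∣ mk p R f := by
  have := map_dvd (mk p R) h
  rwa [map_pow, mk_X] at this

theorem cancel (hreg : ∀ x : R, (p : R) * x = 0 → x = 0) {k : ℕ} {u : PowerSeries R}
    (h : X ^ k ∣ (X - (p : PowerSeries R)) * u) : X ^ k ∣ u := by
  induction k generalizing u with
  | zero => simp
  | succ k ih =>
    have h0 : constantCoeff u = 0 := by
      have := X_dvd_iff.1 ((dvd_pow_self X k.succ_ne_zero).trans h)
      exact hreg _ (by simpa only [map_mul, map_sub, constantCoeff_X, map_natCast, zero_sub, neg_mul, neg_eq_zero] using this)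
    obtain ⟨w, rfl⟩ := X_dvd_iff.2 h0
    obtain ⟨c, hc⟩ := h
    rw [pow_succ']
    refine mul_dvd_mul_left _ (ih ⟨c, X_mul_cancel ?_⟩)
    linear_combination hc

theorem pr (hreg : ∀ x : R, (p : R) * x = 0 → x = 0) : PR p (Cp p R) where
  reg x hx := by
    obtain ⟨f, rfl⟩ := mk_surj x
    obtain ⟨g, hg⟩ := mk_eq_zero.1 (show mk p R (p * f) = 0 by rw [map_mul, map_natCast, hx])
    have h0 : constantCoeff (f + g) = 0 := by
      have := congrArg constantCoeff hg
      refine hreg _ ?_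
      simp only [map_mul, map_natCast, map_sub, constantCoeff_X, map_add] at this ⊢
      linear_combination this
    obtain ⟨u, hu⟩ := X_dvd_iff.2 h0
    have h1 : g = p * u := X_mul_cancel (by linear_combination p * hu - hg)
    exact mk_eq_zero.2 ⟨u, by linear_combination hu - h1⟩
  sep x hx := by
    obtain ⟨f, rfl⟩ := mk_surj x
    choose g u h using fun k => dvd_mk (hx k)
    have key : ∀ k l, k ≤ l → X ^ k ∣ u k - u l := fun k l hkl => by
      obtain ⟨c, rfl⟩ := Nat.exists_eq_add_of_le hkl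
      exact cancel hreg ⟨X ^ c * g (k + c) - g k, by linear_combination h (k + c) - h k⟩
    refine mk_eq_zero.2 ⟨PowerSeries.mk fun n => coeff n (u (n + 1)), sub_eq_zero.1 ?_⟩
    ext n
    have h1 : X ^ (n + 1) ∣ u (n + 1) - PowerSeries.mk fun n => coeff n (u (n + 1)) :=
      X_pow_dvd_iff.2 fun m hm => by
        have := X_pow_dvd_iff.1 (key (m + 1) (n + 1) (by omega)) m (by omega)
        rw [map_sub] at this ⊢
        rw [coeff_mk]
        linear_combination -this
    obtain ⟨c, hc⟩ := h1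
    refine (X_pow_dvd_iff (n := n + 1)).1 ⟨g (n + 1) + (X - (p : PowerSeries R)) * c, ?_⟩ n
      n.lt_succ_self
    linear_combination h (n + 1) + (X - (p : PowerSeries R)) * hc
  cpl t := by
    choose f hf using fun i => mk_surj (t i)
    refine ⟨mk p R (PowerSeries.mk fun n => ∑ i ∈ Finset.range (n + 1), coeff n (X ^ i * f i)),
      fun k => ?_⟩
    have e : ∑ i ∈ Finset.range k, (p : Cp p R) ^ i * t i =
        mk p R (∑ i ∈ Finset.range k, X ^ i * f i) := by
      simp only [map_sum, map_mul, map_pow, mk_X, hf]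
    rw [e, ← map_sub]
    refine mk_dvd (X_pow_dvd_iff.2 fun m hm => ?_)
    rw [map_sub, coeff_mk, map_sum, sub_eq_zero]
    refine Finset.sum_subset (Finset.range_mono hm) fun i _ hi => ?_
    exact X_pow_dvd_iff.1 (dvd_mul_right _ _) m (by simpa using hi)

theorem dv (hreg : ∀ x : R, (p : R) * x = 0 → x = 0) (hu : ∀ x : R, ¬ (p : R) ∣ x → IsUnit x) :
    DV p (Cp p R) where
  toPR := pr hreg
  unit x hx := by
    obtain ⟨f, rfl⟩ := mk_surj x
    refine (isUnit_iff_constantCoeff.2 (hu _ fun ⟨c, hc⟩ => hx ?_)).map _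
    rw [eq_shift_mul_X_add_const f, hc]
    simp only [map_add, map_mul, mk_X, map_natCast]
    exact dvd_add (dvd_mul_left _ _) (dvd_mul_right _ _)

theorem dvd_of (hreg : ∀ x : R, (p : R) * x = 0 → x = 0) {k : ℕ} {r : R}
    (h : (p : Cp p R) ^ k ∣ mk p R (C r)) : (p : R) ^ k ∣ r := by
  induction k generalizing r with
  | zero => simp only [pow_zero, isUnit_one, IsUnit.dvd]
  | succ k ih =>
    obtain ⟨g, u, hu⟩ := dvd_mk h
    have h0 : r = p * -constantCoeff u := by
      have := congrArg constantCoeff hu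
      simpa using this
    obtain ⟨c, hc⟩ := h
    rw [h0, pow_succ']
    refine mul_dvd_mul_left _ (ih ⟨c, sub_eq_zero.1 ((pr hreg).reg _ ?_)⟩)
    rw [h0, map_mul, map_mul, map_natCast, map_natCast] at hc
    linear_combination hc

end Cp

end Cp

section Der
variable {K : Type} [CommRing K] {D : K →+ K}

/-- The coefficientwise extension of an additive map to power series. -/
noncomputable def psDer (D : K →+ K) : PowerSeries K →+ PowerSeries K where
  toFun f := PowerSeries.mk fun n => D (coeff n f)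
  map_zero' := by ext; simp
  map_add' f g := by ext; simp only [map_add, coeff_mk]

theorem coeff_psDer (f : PowerSeries K) (n : ℕ) : coeff n (psDer D f) = D (coeff n f) :=
  coeff_mk n fun n => D (coeff n f)

theorem IsDer.ps (h : IsDer D) : IsDer (psDer D) := fun f g => by
  ext n
  simp only [coeff_psDer, coeff_mul, map_sum, map_add, h _ _, Finset.sum_add_distrib]
  congr 1
  rw [← Finset.Nat.sum_antidiagonal_swap]
  rfl

theorem psDer_C (r : K) : psDer D (C r) = C (D r) := by
  ext n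
  rw [coeff_psDer, coeff_C, coeff_C]
  split_ifs <;> simp

theorem IsDer.cp (h : IsDer D) (p : ℕ) :
    ∃ D' : Cp p K →+ Cp p K, ∀ f, D' (Cp.mk p K f) = Cp.mk p K (psDer D f) := by
  have hX : psDer D X = 0 := by
    ext n
    rw [coeff_psDer, coeff_X]
    split_ifs <;> simp only [h.one, map_zero]
  refine ⟨QuotientAddGroup.lift (Ideal.span {(X : PowerSeries K) - p}).toAddSubgroup
    ((Cp.mk p K).toAddMonoidHom.comp (psDer D)) fun f hf => ?_, fun f => rfl⟩
  obtain ⟨c, rfl⟩ := Ideal.mem_span_singleton.1 hf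
  refine Cp.mk_eq_zero.2 ⟨psDer D c, ?_⟩
  rw [h.ps, map_sub, hX, h.ps.natCast]
  ring

theorem IsDer.loc_zero (S : Submonoid K) {L : Type} [CommRing L] [Algebra K L] [IsLocalization S L]
    {E : L →+ L} (hE : IsDer E) (h0 : ∀ a, E (algebraMap K L a) = 0) (b : L) : E b = 0 := by
  obtain ⟨⟨a, s⟩, hs⟩ := IsLocalization.surj S b
  have := hE b (algebraMap K L s)
  rw [hs, h0, h0, mul_zero, zero_add] at this
  exact ((IsLocalization.map_units L s).mul_right_eq_zero).1 this.symm

theorem IsDer.loc (h : IsDer D) (S : Submonoid K) (L : Type) [CommRing L] [Algebra K L]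
    [IsLocalization S L] :
    ∃ E : L →+ L, IsDer E ∧ ∀ a, E (algebraMap K L a) = algebraMap K L (D a) := by
  obtain ⟨φ, hφ1, hφ2⟩ : ∃ φ : K →+* TrivSqZeroExt L L, (∀ a, (φ a).fst = algebraMap K L a) ∧
      ∀ a, (φ a).snd = algebraMap K L (D a) :=
    ⟨{ toFun := fun a => (algebraMap K L a, algebraMap K L (D a))
       map_one' := Prod.ext (map_one _) (by
          change algebraMap K L (D 1) = 0
          rw [h.one, map_zero])
       map_zero' := Prod.ext (map_zero _) (by
          change algebraMap K L (D 0) = 0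
          rw [map_zero, map_zero])
       map_add' := fun a b => Prod.ext (map_add _ a b) (by
          change algebraMap K L (D (a + b)) = algebraMap K L (D a) + algebraMap K L (D b)
          rw [map_add, map_add])
       map_mul' := fun a b => Prod.ext (map_mul _ a b) (by
          change algebraMap K L (D (a * b)) = algebraMap K L a * algebraMap K L (D b) +
            algebraMap K L (D a) * algebraMap K L b
          rw [h, map_add, map_mul, map_mul, mul_comm (algebraMap K L b)]) },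
      fun _ => rfl, fun _ => rfl⟩
  have hu : ∀ s : S, IsUnit (φ s) := fun s =>
    TrivSqZeroExt.isUnit_iff_isUnit_fst.2 (hφ1 s ▸ IsLocalization.map_units L s)
  obtain ⟨ψ, hψ⟩ : ∃ ψ : L →+* TrivSqZeroExt L L, ∀ a, ψ (algebraMap K L a) = φ a :=
    ⟨IsLocalization.lift hu, IsLocalization.lift_eq hu⟩
  have h1 : (TrivSqZeroExt.fstHom L L L).toRingHom.comp ψ = RingHom.id L :=
    IsLocalization.ringHom_ext S (RingHom.ext fun a => by
      change (ψ (algebraMap K L a)).fst = algebraMap K L a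
      rw [hψ, hφ1])
  have h2 : ∀ b, (ψ b).fst = b := fun b => RingHom.congr_fun h1 b
  refine ⟨(TrivSqZeroExt.sndHom L L).toAddMonoidHom.comp ψ.toAddMonoidHom, fun x y => ?_,
    fun a => ?_⟩
  · change (ψ (x * y)).snd = x * (ψ y).snd + y * (ψ x).snd
    rw [map_mul, TrivSqZeroExt.snd_mul, h2, h2, smul_eq_mul, op_smul_eq_mul, mul_comm y]
  · change (ψ (algebraMap K L a)).snd = _
    rw [hψ, hφ2]

end Der

open MvPolynomial in
/-- The ring `O` over a base `Λ` in which `p` is prime. -/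
theorem exists_O (p : ℕ) (Λ : Type) [CommRing Λ] [IsDomain Λ] (hp : Prime (p : Λ))
    (hsep : ∀ x : Λ, (∀ k : ℕ, (p : Λ) ^ k ∣ x) → x = 0) (d : ℕ) :
    ∃ (O : Type) (_ : CommRing O) (_ : DV p O) (δ : Fin d → O →+ O)
      (j : MvPolynomial (Fin d) Λ →+* O), (∀ i, IsDer (δ i)) ∧
      (∀ i i' b, δ i (δ i' b) = δ i' (δ i b)) ∧ (∀ i b, (p : O) ∣ δ i b) ∧
      (∀ i q, δ i (j q) = p * j (pderiv i q)) ∧ Function.Injective j := by
  have hP : Prime (p : MvPolynomial (Fin d) Λ) := by
    have := (prime_C_iff (Fin d)).2 hp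
    rwa [map_natCast] at this
  let I : Ideal (MvPolynomial (Fin d) Λ) := Ideal.span {(p : MvPolynomial (Fin d) Λ)}
  have : I.IsPrime := (Ideal.span_singleton_prime hP.ne_zero).2 hP
  let R := Localization.AtPrime I
  let a := algebraMap (MvPolynomial (Fin d) Λ) R
  have ha : Function.Injective a := IsLocalization.injective R I.primeCompl_le_nonZeroDivisors
  have hreg : ∀ x : R, (p : R) * x = 0 → x = 0 := fun x hx =>
    (mul_eq_zero.1 hx).resolve_left fun h0 => hP.ne_zero (ha (by rw [map_natCast, map_zero, h0]))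
  have hu : ∀ x : R, ¬ (p : R) ∣ x → IsUnit x := fun x hx => by
    by_contra hn
    have h1 : x ∈ IsLocalRing.maximalIdeal R := hn
    rw [← Localization.AtPrime.map_eq_maximalIdeal, Ideal.map_span, Set.image_singleton,
      map_natCast] at h1
    exact hx (Ideal.mem_span_singleton.1 h1)
  have hD : ∀ i : Fin d, IsDer ((p : ℕ) •
      (pderiv i : Derivation Λ (MvPolynomial (Fin d) Λ) _).toLinearMap.toAddMonoidHom) :=
    fun i x y => by simp only [AddMonoidHom.smul_apply, LinearMap.toAddMonoidHom_coe, Derivation.coeFn_coe, Derivation.leibniz, smul_eq_mul, smul_add, nsmul_eq_mul]; ring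
  choose E hE hEa using fun i => (hD i).loc I.primeCompl R
  have hEa' : ∀ i q, E i (a q) = p * a (pderiv i q) := fun i q => (hEa i q).trans (by simp only [AddMonoidHom.smul_apply, LinearMap.toAddMonoidHom_coe, Derivation.coeFn_coe, nsmul_eq_mul, map_mul, map_natCast, a])
  choose δ hδ using fun i => (hE i).cp p
  have hcomm : ∀ i i' b, E i (E i' b) = E i' (E i b) := fun i i' b => by
    refine sub_eq_zero.1 (IsDer.loc_zero I.primeCompl (E := (E i).comp (E i') - (E i').comp (E i))
      (fun x y => ?_) (fun q => ?_) b)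
    · simp only [AddMonoidHom.sub_apply, AddMonoidHom.comp_apply, hE _ _ _, map_add]
      ring
    · have hc : pderiv i (pderiv i' q) = pderiv i' (pderiv i q) := by
        classical
        induction q using MvPolynomial.induction_on with
        | C c => simp
        | add f g hf hg => simp only [map_add, hf, hg]
        | mul_X f k hf =>
          simp only [Derivation.leibniz, pderiv_X, smul_eq_mul, map_add, hf, Pi.single_apply]
          split_ifs <;> simp only [Derivation.map_one_eq_zero, mul_zero, one_mul, zero_add, mul_one, add_zero, map_zero, zero_mul] <;> ring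
      change E i (E i' (a q)) - E i' (E i (a q)) = 0
      rw [hEa', hEa', hE i, hE i', hEa', hEa', (hE i).natCast, (hE i').natCast, hc]
      ring
  have hdv : ∀ i b, (p : R) ∣ E i b := fun i b => by
    obtain ⟨⟨q, s⟩, hs⟩ := IsLocalization.surj I.primeCompl b
    have h1 := hE i b (a s)
    rw [hs, hEa', hEa'] at h1
    exact (IsLocalization.map_units R s).dvd_mul_left.1
      ⟨a (pderiv i q) - b * a (pderiv i s), by linear_combination -h1⟩
  refine ⟨Cp p R, inferInstance, Cp.dv hreg hu, δ, ((Cp.mk p R).comp PowerSeries.C).comp a,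
    fun i x y => ?_, fun i i' b => ?_, fun i b => ?_, fun i q => ?_, ?_⟩
  · obtain ⟨f, rfl⟩ := Cp.mk_surj x
    obtain ⟨g, rfl⟩ := Cp.mk_surj y
    rw [← map_mul, hδ, hδ, hδ, (hE i).ps, map_add, map_mul, map_mul]
  · obtain ⟨f, rfl⟩ := Cp.mk_surj b
    rw [hδ, hδ, hδ, hδ]
    congr 1
    ext n
    simp only [coeff_psDer, hcomm i i']
  · obtain ⟨f, rfl⟩ := Cp.mk_surj b
    choose c hc using fun n => hdv i (PowerSeries.coeff n f)
    have : psDer (E i) f = p * PowerSeries.mk c := by
      ext n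
      rw [coeff_psDer, hc, ← map_natCast PowerSeries.C, PowerSeries.coeff_C_mul, coeff_mk]
    rw [hδ, this, map_mul, map_natCast]
    exact dvd_mul_right _ _
  · simp only [RingHom.comp_apply]
    rw [hδ, psDer_C, hEa', map_mul, map_mul, map_natCast, map_natCast]
  · rw [injective_iff_map_eq_zero]
    intro q hq
    have h1 : ∀ k : ℕ, (p : MvPolynomial (Fin d) Λ) ^ k ∣ q := fun k => by
      obtain ⟨c, hc⟩ := Cp.dvd_of hreg (k := k) (r := a q) (by
        rw [show Cp.mk p R (PowerSeries.C (a q)) = 0 from hq]; exact dvd_zero _)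
      obtain ⟨⟨r, s⟩, hs⟩ := IsLocalization.surj I.primeCompl c
      have h2 : q * s = p ^ k * r := ha (by
        rw [map_mul, map_mul, map_pow, map_natCast, hc, mul_assoc]; exact congrArg _ hs)
      exact hP.pow_dvd_of_dvd_mul_right k (fun h => s.2 (Ideal.mem_span_singleton.2 h)) ⟨r, h2⟩
    ext m
    refine hsep _ fun k => (C_dvd_iff_dvd_coeff _ q).1 ?_ m
    rw [map_pow, map_natCast]
    exact h1 k

end EN

end

-- part MP_646035_al.EN.Sig
section

/-! Section 4a: the Taylor endomorphisms. -/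

namespace EN

open Finset

variable {p : ℕ} {K : Type} [CommRing K] {d : ℕ}

/-- The `k`-th Taylor term in the direction `g`. -/
noncomputable def tay (δ : Fin d → K →+ K) (g : Fin d → K) : ℕ → K →+ K
  | 0 => AddMonoidHom.id K
  | k + 1 => ∑ i, (AddMonoidHom.mulLeft (g i)).comp ((tay δ g k).comp (δ i))

theorem tay_succ (δ : Fin d → K →+ K) (g : Fin d → K) (k : ℕ) (b : K) :
    tay δ g (k + 1) b = ∑ i, g i * tay δ g k (δ i b) := by
  simp only [tay, AddMonoidHom.finsetSum_apply, AddMonoidHom.coe_comp, AddMonoidHom.coe_mulLeft, Function.comp_apply]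

theorem tay_mul {δ : Fin d → K →+ K} (hδ : ∀ i, IsDer (δ i)) (g : Fin d → K) (n : ℕ) (a b : K) :
    tay δ g n (a * b) =
      ∑ x ∈ antidiagonal n, (n.choose x.1 : K) * (tay δ g x.1 a * tay δ g x.2 b) := by
  induction n generalizing a b with
  | zero => simp only [tay, AddMonoidHom.id_apply, HasAntidiagonal.antidiagonal_zero, sum_singleton, Nat.choose_self, Nat.cast_one, one_mul]
  | succ n ih =>
    rw [sum_antidiagonal_choose_succ_mul fun i j => tay δ g i a * tay δ g j b, tay_succ]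
    simp only [hδ _ a b, map_add, mul_comm b, ih, mul_add, sum_add_distrib, tay_succ, mul_sum,
      sum_mul]
    congr 1
    · rw [sum_comm]
      exact sum_congr rfl fun x _ => sum_congr rfl fun i _ => by ring
    · rw [sum_comm]
      refine sum_congr rfl fun x hx => sum_congr rfl fun i _ => ?_
      rw [Nat.choose_symm_of_eq_add (mem_antidiagonal.1 hx).symm]
      ring

theorem exists_tay_coef [hp : Fact p.Prime] (h2 : p ≠ 2) [PR p K] (n : ℕ) :
    (∀ x : K, (n.factorial : K) * x = 0 → x = 0) ∧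
      ∃ c : K, (n.factorial : K) * ((p : K) ^ (n / 2) * c) = (p : K) ^ n := by
  obtain ⟨e, u, hu, he⟩ := Nat.exists_eq_pow_mul_and_not_dvd n.factorial_ne_zero p hp.out.ne_one
  obtain ⟨v, hv⟩ := (isUnit_natCast (K := K) hu).exists_right_inv
  have h1 : e ≤ padicValNat p n.factorial :=
    (padicValNat_dvd_iff_le n.factorial_ne_zero).1 ⟨u, he⟩
  have h3 : 2 * e ≤ n := by
    have := sub_one_mul_padicValNat_factorial (p := p) n
    have h4 : 2 ≤ p - 1 := by have := hp.out.two_le; omega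
    have := Nat.mul_le_mul h4 h1
    omega
  rw [he, Nat.cast_mul, Nat.cast_pow]
  refine ⟨fun x hx => ?_, (p : K) ^ (n - e - n / 2) * v, ?_⟩
  · have := PR.pow_reg (p := p) e _ (by rw [← hx, mul_assoc])
    rw [← one_mul x, ← hv, mul_right_comm, this, zero_mul]
  · obtain ⟨r, hr⟩ : ∃ r, n = e + n / 2 + r := ⟨n - e - n / 2, by omega⟩
    rw [show n - e - n / 2 = r by omega]
    conv_rhs => rw [hr, pow_add, pow_add]
    linear_combination (p : K) ^ e * (p : K) ^ (n / 2) * (p : K) ^ r * hv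

theorem sum_range_two_mul (f : ℕ → K) (k : ℕ) :
    ∑ n ∈ range (2 * k), f n = ∑ i ∈ range k, (f (2 * i) + f (2 * i + 1)) := by
  induction k with
  | zero => simp
  | succ k ih => rw [mul_add, mul_one, sum_range_succ, sum_range_succ, ih, sum_range_succ, add_assoc]

/-- The endomorphisms `x ↦ x + p ∑ g i δ i x + ...`, and the rings that they preserve. -/
theorem exists_sig [Fact p.Prime] (h2 : p ≠ 2) [PR p K] {δ : Fin d → K →+ K}
    (hδ : ∀ i, IsDer (δ i)) : ∃ σ : (Fin d → K) → K →+* K, (∀ g b, (p : K) ∣ σ g b - b) ∧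
      (∀ g b, (∀ i i', δ i' (δ i b) = 0) → σ g b = b + p * ∑ i, g i * δ i b) ∧
      ∀ {M : Type} (B : Subring (M → K)), Closed p B → (∀ c : K, (fun _ => c) ∈ B) →
        (∀ i, ∀ N ∈ B, (fun m => δ i (N m)) ∈ B) → ∀ g : M → Fin d → K,
        (∀ i, (fun m => g m i) ∈ B) → ∀ N ∈ B, (fun m => σ (g m) (N m)) ∈ B := by
  classical
  choose c hc using fun n => (exists_tay_coef (K := K) h2 n).2
  have c0 : c 0 = 1 := by simpa only [Nat.factorial_zero, Nat.cast_one, Nat.zero_div, pow_zero, one_mul] using hc 0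
  have c1 : c 1 = p := by simpa only [Nat.factorial_one, Nat.cast_one, Nat.reduceDiv, pow_zero, one_mul, pow_one] using hc 1
  have hcc : ∀ i j, (p : K) ^ ((i + j) / 2) * c (i + j) * ((i + j).choose i : K) =
      (p : K) ^ (i / 2) * c i * ((p : K) ^ (j / 2) * c j) := fun i j => by
    refine sub_eq_zero.1 ((exists_tay_coef (K := K) h2 (i + j)).1 _ ?_)
    have h1 : ((i + j).factorial : K) = ((i + j).choose i : K) * i.factorial * j.factorial := by
      rw [← Nat.add_choose_mul_factorial_mul_factorial, Nat.choose_symm_add]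
      push_cast
      ring
    have h3 := hc (i + j)
    rw [pow_add (p : K) i j, ← hc i, ← hc j] at h3
    linear_combination ((i + j).choose i : K) * h3 -
      (p : K) ^ (i / 2) * c i * ((p : K) ^ (j / 2) * c j) * h1
  let H : (Fin d → K) → K →+* PowerSeries K := fun g =>
    { toFun := fun b => PowerSeries.mk fun n => (p : K) ^ (n / 2) * c n * tay δ g n b
      map_zero' := by ext; simp only [map_zero, mul_zero, PowerSeries.coeff_mk]
      map_add' := fun a b => by ext; simp only [map_add, mul_add, PowerSeries.coeff_mk]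
      map_one' := by
        ext n
        rw [PowerSeries.coeff_mk, PowerSeries.coeff_one]
        cases n with
        | zero => simp only [Nat.zero_div, pow_zero, c0, mul_one, tay, AddMonoidHom.id_apply, ↓ reduceIte]
        | succ n => simp only [tay_succ, (hδ _).one, map_zero, mul_zero, sum_const_zero, Nat.add_eq_zero_iff, one_ne_zero, and_false, ↓ reduceIte]
      map_mul' := fun a b => by
        ext n
        simp only [PowerSeries.coeff_mk, PowerSeries.coeff_mul, tay_mul hδ, mul_sum]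
        refine sum_congr rfl fun x hx => ?_
        rw [← mem_antidiagonal.1 hx]
        linear_combination tay δ g x.1 a * tay δ g x.2 b * hcc x.1 x.2 }
  have hH : ∀ g b (μ : Unit →₀ ℕ), MvPowerSeries.coeff μ (H g b) =
      (p : K) ^ (μ () / 2) * c (μ ()) * tay δ g (μ ()) b := fun g b μ => by
    rw [← PowerSeries.coeff_def (R := K) (s := μ) rfl]
    exact PowerSeries.coeff_mk (μ ()) fun n => (p : K) ^ (n / 2) * c n * tay δ g n b
  have hdv : ∀ g b k (μ : Unit →₀ ℕ), 2 * k ≤ μ () → (p : K) ^ k ∣ MvPowerSeries.coeff μ (H g b) :=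
    fun g b k μ h => by
      rw [hH, mul_assoc]
      exact (pow_dvd_pow _ (by omega)).mul_right _
  let H' : (Fin d → K) → K →+* RS p K Unit := fun g => (H g).codRestrict (rsSub p K Unit)
    fun b k => ((Set.finite_lt_nat (2 * k)).image (Finsupp.single ())).subset fun μ hμ =>
      ⟨μ (), not_le.1 fun h => hμ (hdv g b k μ h), (Finsupp.unique_single μ).symm⟩
  have hs : ∀ g b, IsSum p (fun i => c (2 * i) * tay δ g (2 * i) b +
      c (2 * i + 1) * tay δ g (2 * i + 1) b) (RS.lift (RingHom.id K) (fun _ => 1) (H' g b)) := by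
    intro g b k
    have := RS.lift_isVal (RingHom.id K) (fun _ : Unit => (1 : K)) (H' g b) k
      (∑ n ∈ range (2 * k), MvPolynomial.monomial (Finsupp.single () n)
        ((p : K) ^ (n / 2) * c n * tay δ g n b)) fun μ => by
        change _ ∣ MvPowerSeries.coeff μ (H g b) - _
        have e : ∀ n, Finsupp.single () n = μ ↔ n = μ () := fun n =>
          ⟨fun h => by simp [← h], fun h => h ▸ (Finsupp.unique_single μ).symm⟩
        simp only [MvPolynomial.coeff_sum, MvPolynomial.coeff_monomial, e, sum_ite_eq', mem_range]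
        split_ifs with h
        · rw [hH, sub_self]
          exact dvd_zero _
        · rw [sub_zero]
          exact hdv g b k μ (not_lt.1 h)
    simp only [MvPolynomial.eval₂_sum, MvPolynomial.eval₂_monomial, RingHom.id_apply, one_pow,
      Finsupp.prod_fun_one, mul_one] at this
    rw [sum_range_two_mul] at this
    convert this using 2
    refine sum_congr rfl fun i _ => ?_
    rw [show 2 * i / 2 = i by omega, show (2 * i + 1) / 2 = i by omega]
    ring
  refine ⟨fun g => (RS.lift (RingHom.id K) fun _ => 1).comp (H' g), fun g b => ?_,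
    fun g b hb => (hs g b).unique fun k => ?_, fun B hB hc hd g hg N hN => ?_⟩
  · have := hs g b 1
    simp only [pow_one, sum_range_one, pow_zero, mul_zero, zero_add, c0, c1, one_mul] at this
    have h3 := dvd_add this (dvd_mul_right (p : K) (tay δ g 1 b))
    convert h3 using 1
    rw [RingHom.comp_apply]
    change _ - b = _ - (b + _) + _
    ring
  · have h3 : ∀ n, tay δ g (n + 2) b = 0 := fun n => by simp only [tay_succ, hb, map_zero, mul_zero, sum_const_zero]
    cases k with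
    | zero => simp only [pow_zero, range_zero, sum_empty, sub_zero, isUnit_one, IsUnit.dvd]
    | succ k =>
      rw [sum_range_succ', sum_eq_zero (s := range k) fun i _ => by
        beta_reduce
        rw [show 2 * (i + 1) + 1 = (2 * i + 1) + 2 by ring, show 2 * (i + 1) = 2 * i + 2 by ring,
          h3, h3]
        ring]
      simp only [pow_zero, mul_zero, c0, tay, AddMonoidHom.id_apply, one_mul, zero_add, c1, AddMonoidHom.id_comp, AddMonoidHom.finsetSum_apply, AddMonoidHom.coe_comp, AddMonoidHom.coe_mulLeft, Function.comp_apply, sub_self, dvd_zero]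
  · have h3 : ∀ n, ∀ N ∈ B, (fun m => tay δ (g m) n (N m)) ∈ B := fun n => by
      induction n with
      | zero => exact fun N hN => hN
      | succ n ih =>
        intro N hN
        have := B.sum_mem (t := univ) fun i _ => B.mul_mem (hg i) (ih _ (hd i N hN))
        convert this using 1
        ext m
        simp only [tay_succ, Finset.sum_apply, Pi.mul_apply]
    exact hB (fun i m => c (2 * i) * tay δ (g m) (2 * i) (N m) +
      c (2 * i + 1) * tay δ (g m) (2 * i + 1) (N m)) _
      (fun i => B.add_mem (B.mul_mem (hc _) (h3 _ N hN)) (B.mul_mem (hc _) (h3 _ N hN)))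
      (pi_isSum.2 fun m => hs (g m) (N m))

end EN

end

-- part MP_646035_al.EN.Chart
section

/-! Section 4b: a `p`-adic chart for a finitely generated domain of characteristic zero. -/

namespace EN

open Ideal

section Etale
variable {p : ℕ} {O P S : Type} [CommRing O] [PR p O] [CommRing P] [CommRing S] [Algebra P S]

omit [PR p O] in
theorem smodEq_pow_iff {n : ℕ} {x y : O} :
    x ≡ y [SMOD (span {(p : O)} ^ n • ⊤ : Submodule O O)] ↔ (p : O) ^ n ∣ x - y := by
  rw [smul_eq_mul, mul_top, span_singleton_pow, SModEq.sub_mem, mem_span_singleton]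

theorem isAdicComplete_of_pr : IsAdicComplete (span {(p : O)}) O where
  haus' x hx := PR.sep (p := p) x fun k => by simpa only [sub_zero] using smodEq_pow_iff.1 (hx k)
  prec' f hf := by
    choose u hu using fun k => smodEq_pow_iff.1 (hf (Nat.le_succ k)).symm
    obtain ⟨s, hs⟩ := PR.cpl (p := p) u
    refine ⟨f 0 + s, fun k => (smodEq_pow_iff.2 ?_).symm⟩
    have h2 := hs k
    simp only [← hu] at h2
    rw [Finset.sum_range_sub] at h2
    convert h2 using 1
    ring

theorem lift_smooth [Algebra.FormallySmooth P S] (e : P →+* O) (f : S →+* O ⧸ span {(p : O)})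
    (h : f.comp (algebraMap P S) = (Ideal.Quotient.mk _).comp e) :
    ∃ g : S →+* O, g.comp (algebraMap P S) = e ∧ (Ideal.Quotient.mk _).comp g = f := by
  let _ := e.toAlgebra
  have := isAdicComplete_of_pr (p := p) (O := O)
  obtain ⟨g, hg⟩ := Algebra.FormallySmooth.exists_mkₐ_comp_eq_of_isAdicComplete (R := P)
    (I := span {(p : O)}) ⟨f, RingHom.congr_fun h⟩
  exact ⟨g, RingHom.ext g.commutes, RingHom.ext (AlgHom.congr_fun hg)⟩

theorem ext_unramified [Algebra.FormallyUnramified P S] {g₁ g₂ : S →+* O}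
    (h : g₁.comp (algebraMap P S) = g₂.comp (algebraMap P S))
    (hp : (Ideal.Quotient.mk (span {(p : O)})).comp g₁ = (Ideal.Quotient.mk _).comp g₂) : g₁ = g₂ := by
  let _ := (g₁.comp (algebraMap P S)).toAlgebra
  have := Algebra.FormallyUnramified.ext_of_iInf (R := P) (span {(p : O)})
    (eq_bot_iff.2 fun x hx => PR.sep (p := p) x fun k => by
      have := (Submodule.mem_iInf _).1 hx k
      rwa [span_singleton_pow, mem_span_singleton] at this)
    (g₁ := ⟨g₁, fun _ => rfl⟩) (g₂ := ⟨g₂, fun r => (RingHom.congr_fun h r).symm⟩)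
    (RingHom.congr_fun hp)
  exact RingHom.ext (AlgHom.congr_fun this)

end Etale

theorem isJacobsonRing_int : IsJacobsonRing ℤ := by
  refine isJacobsonRing_iff_prime_eq.2 fun P hP => ?_
  by_cases h : P = ⊥
  · subst h
    refine eq_bot_iff.2 fun x hx => ?_
    have := Int.isUnit_iff.1 (mem_jacobson_bot.1 hx x)
    change x = 0
    rcases this with h | h <;> nlinarith only [h]
  · have := hP.isMaximal h
    exact jacobson_eq_self_of_isMaximal

theorem finite_of_module_finite {R : Type} [CommRing R] (i : Algebra ℤ R)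
    (hf : @Module.Finite ℤ R _ _ i.toModule) {q : ℕ} (hq : q ≠ 0) (h : (q : R) = 0) : Finite R := by
  obtain rfl : i = Ring.toIntAlgebra R := Subsingleton.elim _ _
  exact Module.finite_of_fg_torsion _ fun x =>
    ⟨⟨q, mem_nonZeroDivisors_of_ne_zero (by exact_mod_cast hq)⟩, by simp only [Submonoid.mk_smul, zsmul_eq_mul, Int.cast_natCast, h, zero_mul]⟩

/-- A point over a finite field of odd characteristic. -/
theorem exists_point {A : Type} [CommRing A] [IsDomain A] [CharZero A] [Algebra.FiniteType ℤ A]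
    {s : A} (hs : s ≠ 0) : ∃ (k : Type) (_ : Field k) (_ : Finite k) (π : A →+* k),
      π s ≠ 0 ∧ (2 : k) ≠ 0 := by
  have h2 : 2 * s ≠ 0 := mul_ne_zero two_ne_zero hs
  have : IsDomain (Localization.Away (2 * s)) :=
    IsLocalization.isDomain_localization (powers_le_nonZeroDivisors_of_noZeroDivisors h2)
  obtain ⟨m, hm⟩ := exists_maximal (Localization.Away (2 * s))
  let _ := Ideal.Quotient.field m
  have := isJacobsonRing_int
  have hf := finite_of_finite_type_of_isJacobsonRing ℤ (Localization.Away (2 * s) ⧸ m)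
  have hu : ((Ideal.Quotient.mk m).comp (algebraMap A _)) (2 * s) ≠ 0 :=
    ((IsLocalization.Away.algebraMap_isUnit (2 * s)).map (Ideal.Quotient.mk m)).ne_zero
  rw [map_mul, map_ofNat] at hu
  refine ⟨_, inferInstance, ?_, (Ideal.Quotient.mk m).comp (algebraMap A _), right_ne_zero_of_mul hu,
    left_ne_zero_of_mul hu⟩
  obtain ⟨q, hq⟩ := CharP.exists (Localization.Away (2 * s) ⧸ m)
  rcases Nat.eq_zero_or_pos q with rfl | hq0
  · have := CharP.charP_to_charZero (Localization.Away (2 * s) ⧸ m)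
    exact absurd ((Algebra.IsIntegral.isField_iff_isField (R := ℤ)
      (S := Localization.Away (2 * s) ⧸ m) (RingHom.injective_int _)).2 (Field.toIsField _))
      Int.not_isField
  · exact finite_of_module_finite _ hf hq0.ne' (CharP.cast_eq_zero _ q)

/-- Generic etaleness over a polynomial ring. -/
theorem exists_generic_etale (A : Type) [CommRing A] [IsDomain A] [CharZero A]
    [Algebra.FiniteType ℤ A] : ∃ (d : ℕ) (_ : Algebra (MvPolynomial (Fin d) ℤ) A),
      Algebra.IsAlgebraic (MvPolynomial (Fin d) ℤ) A ∧ ∃ s : A, s ≠ 0 ∧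
        Algebra.Etale (MvPolynomial (Fin d) ℤ) (Localization.Away s) := by
  obtain ⟨S, hS⟩ := Algebra.FiniteType.out (R := ℤ) (A := A)
  have : Algebra.IsAlgebraic (Algebra.adjoin ℤ (S : Set A)) A :=
    ⟨fun a => isAlgebraic_algebraMap (⟨a, hS ▸ trivial⟩ : Algebra.adjoin ℤ (S : Set A))⟩
  obtain ⟨t, ht, hb⟩ := exists_isTranscendenceBasis_subset (R := ℤ) (S : Set A)
  have : Finite t := S.finite_toSet.subset ht
  have hu := hb.comp_equiv (Finite.equivFin t).symm
  generalize Subtype.val ∘ (Finite.equivFin t).symm = u at hu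
  generalize Nat.card t = d at u hu
  let _ : Algebra (MvPolynomial (Fin d) ℤ) A := (MvPolynomial.aeval u).toRingHom.toAlgebra
  have ha := hu.isAlgebraic
  have halg : Algebra.IsAlgebraic (MvPolynomial (Fin d) ℤ) A :=
    Algebra.IsAlgebraic.of_ringHom_of_comp_eq hu.1.aevalEquiv (RingHom.id A)
      hu.1.aevalEquiv.surjective Function.injective_id
      (RingHom.ext fun q => hu.1.algebraMap_aevalEquiv q)
  have hinj : Function.Injective (algebraMap (MvPolynomial (Fin d) ℤ) A) := hu.1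
  have : Algebra.FinitePresentation (MvPolynomial (Fin d) ℤ) A :=
    Algebra.FinitePresentation.of_finiteType.1
      (Algebra.FiniteType.of_restrictScalars_finiteType ℤ _ A)
  have : Algebra.IsEtaleAt (MvPolynomial (Fin d) ℤ) (⊥ : Ideal A) := by
    have : IsFractionRing A (Localization.AtPrime (⊥ : Ideal A)) := by
      simpa [primeCompl_bot] using Localization.isLocalization (M := (⊥ : Ideal A).primeCompl)
    let _ : Field (Localization.AtPrime (⊥ : Ideal A)) := IsFractionRing.toField A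
    have : FaithfulSMul (MvPolynomial (Fin d) ℤ) (Localization.AtPrime (⊥ : Ideal A)) := by
      rw [faithfulSMul_iff_algebraMap_injective, IsScalarTower.algebraMap_eq _ A]
      exact (IsFractionRing.injective A _).comp hinj
    let _ := FractionRing.liftAlgebra (MvPolynomial (Fin d) ℤ) (Localization.AtPrime (⊥ : Ideal A))
    have : Algebra.IsAlgebraic (FractionRing (MvPolynomial (Fin d) ℤ))
        (Localization.AtPrime (⊥ : Ideal A)) := IsFractionRing.comap_isAlgebraic_iff.1
      ((IsFractionRing.isAlgebraic_iff' (MvPolynomial (Fin d) ℤ) A _).1 halg)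
    have := Algebra.FormallyEtale.of_isSeparable (FractionRing (MvPolynomial (Fin d) ℤ))
      (Localization.AtPrime (⊥ : Ideal A))
    have : Algebra.FormallyEtale (MvPolynomial (Fin d) ℤ) (FractionRing (MvPolynomial (Fin d) ℤ)) :=
      Algebra.FormallyEtale.of_isLocalization (nonZeroDivisors _)
    exact Algebra.FormallyEtale.comp _ (FractionRing (MvPolynomial (Fin d) ℤ)) _
  obtain ⟨s, hs, he⟩ := Algebra.exists_etale_of_isEtaleAt (R := MvPolynomial (Fin d) ℤ) (⊥ : Ideal A)
  exact ⟨d, inferInstance, halg, s, hs, he⟩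

open MvPolynomial in
theorem zoom_injective {Λ : Type} [CommRing Λ] [IsDomain Λ] [CharZero Λ] {d : ℕ} (c : Fin d → Λ)
    {p : ℕ} (hp : p ≠ 0) : Function.Injective (eval₂Hom (Int.castRingHom (MvPolynomial (Fin d) Λ))
      fun i => C (c i) + (p : MvPolynomial (Fin d) _) * X i) := by
  let a := algebraMap Λ (FractionRing Λ)
  have h : (eval₂Hom (C.comp a) fun i => C (p : FractionRing Λ)⁻¹ * (X i - C (a (c i)))).comp
      (eval₂Hom (Int.castRingHom (MvPolynomial (Fin d) Λ)) fun i => C (c i) + (p : MvPolynomial (Fin d) _) * X i) =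
      MvPolynomial.map (Int.castRingHom (FractionRing Λ)) := by
    refine ringHom_ext' (Subsingleton.elim _ _) fun i => ?_
    have h1 : (p : MvPolynomial (Fin d) (FractionRing Λ)) * C (p : FractionRing Λ)⁻¹ = 1 := by
      rw [← map_natCast C, ← map_mul, mul_inv_cancel₀ (by exact_mod_cast hp), map_one]
    simp only [RingHom.comp_apply, eval₂Hom_X', map_add, map_mul, eval₂Hom_C, map_natCast, map_X]
    linear_combination (X i - C (a (c i))) * h1
  refine Function.Injective.of_comp (f := eval₂Hom (C.comp a)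
    fun i => C (p : FractionRing Λ)⁻¹ * (X i - C (a (c i)))) ?_
  rw [← RingHom.coe_comp, h]
  exact map_injective _ (RingHom.injective_int _)

open MvPolynomial in
/-- The chart. -/
theorem exists_chart (A : Type) [CommRing A] [IsDomain A] [CharZero A] [Algebra.FiniteType ℤ A] :
    ∃ (p : ℕ) (_ : Fact p.Prime) (O : Type) (_ : CommRing O) (_ : DV p O) (d : ℕ)
      (δ : Fin d → O →+ O) (ι : A →+* O) (σ : (Fin d → O) → O →+* O) (n : ℕ),
      p ≠ 2 ∧ (∀ i, IsDer (δ i)) ∧ (∀ i i' b, δ i (δ i' b) = δ i' (δ i b)) ∧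
      (∀ i b, (p : O) ∣ δ i b) ∧ (∀ g b, (p : O) ∣ σ g b - b) ∧
      Function.Injective ι ∧ 1 < n ∧ (∀ a, (p : O) ∣ ι a ^ n - ι a) ∧
      (∀ β : A →+* O, (∀ a, (p : O) ^ 3 ∣ β a - ι a) → ∃ g, ∀ a, β a = σ g (ι a)) ∧
      ∀ {M : Type} (B : Subring (M → O)), Closed p B → (∀ c : O, (fun _ => c) ∈ B) →
        (∀ i, ∀ N ∈ B, (fun m => δ i (N m)) ∈ B) → ∀ g : M → Fin d → O,
        (∀ i, (fun m => g m i) ∈ B) → ∀ N ∈ B, (fun m => σ (g m) (N m)) ∈ B := by
  classical
  obtain ⟨d, _, halg, s, hs, het⟩ := exists_generic_etale A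
  obtain ⟨k, _, _, π, hπ, h2⟩ := exists_point hs
  obtain ⟨p, hp⟩ := CharP.exists k
  have hpp : Fact p.Prime := ⟨(CharP.char_is_prime k p)⟩
  have hp2 : p ≠ 2 := by
    rintro rfl
    exact h2 (CharP.cast_eq_zero k 2)
  have hpr : Prime (p : WittVector p k) := (WittVector.irreducible p).prime
  have : CharZero (WittVector p k) := charZero_of_inj_zero fun n hn => by
    by_contra h0
    obtain ⟨e, u, hu, rfl⟩ := Nat.exists_eq_pow_mul_and_not_dvd h0 p hpp.out.ne_one
    rw [Nat.cast_mul, Nat.cast_pow] at hn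
    have h1 := congrArg WittVector.constantCoeff
      ((mul_eq_zero.1 hn).resolve_left (pow_ne_zero _ hpr.ne_zero))
    rw [map_natCast, map_zero] at h1
    exact hu ((CharP.cast_eq_zero_iff k p u).1 h1)
  obtain ⟨O, _, _, δ, j, hδ, hcomm, hsm, hj, hinj⟩ := exists_O p (WittVector p k) hpr
    (fun x hx => by
      ext n
      rw [WittVector.zero_coeff]
      exact (WittVector.mem_span_p_pow_iff_le_coeff_eq_zero x (n + 1)).1
        (mem_span_singleton.2 (hx _)) n n.lt_succ_self) d
  obtain ⟨σ, hσ1, hσ2, hσ3⟩ := exists_sig hp2 hδ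
  obtain ⟨κ, hκ⟩ : ∃ κ : k →+* O ⧸ span {(p : O)}, ∀ x : WittVector p k,
      κ (WittVector.constantCoeff x) = Ideal.Quotient.mk _ (j (C x)) :=
    ⟨(quotientMap (span {(p : O)}) (j.comp C) (by simp only [span_le, coe_comap, RingHom.coe_comp, Set.singleton_subset_iff, Set.mem_preimage, Function.comp_apply, map_natCast, SetLike.mem_coe, Submodule.mem_span_singleton_self])).comp
      WittVector.quotientPEquiv.symm.toRingHom, fun x => by
        rw [← WittVector.quotientPEquiv_mk]
        simp only [RingHom.comp_apply, RingEquiv.toRingHom_eq_coe, RingHom.coe_coe,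
          RingEquiv.symm_apply_apply]
        rfl⟩
  choose c hc using fun i : Fin d => WittVector.constantCoeff_surjective p
    (π (algebraMap (MvPolynomial (Fin d) ℤ) A (X i)))
  have hp0 : Ideal.Quotient.mk (span {(p : O)}) (p : O) = 0 :=
    Ideal.Quotient.eq_zero_iff_mem.2 (mem_span_singleton_self _)
  obtain ⟨g, hg1, hg2⟩ := lift_smooth (p := p) (P := MvPolynomial (Fin d) ℤ)
    (S := Localization.Away s)
    (j.comp (eval₂Hom (Int.castRingHom _) fun i => C (c i) + (p : MvPolynomial (Fin d) _) * X i))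
    (κ.comp (IsLocalization.Away.lift s (Ne.isUnit hπ)))
    (ringHom_ext' (Subsingleton.elim _ _) fun i => by
      rw [IsScalarTower.algebraMap_eq _ A]
      simp only [RingHom.comp_apply, IsLocalization.Away.lift_eq, eval₂Hom_X', map_add, map_mul,
        ← hc, hκ]
      rw [map_natCast j, hp0, zero_mul, add_zero])
  have hgP : ∀ q, g (algebraMap A _ (algebraMap (MvPolynomial (Fin d) ℤ) A q)) =
      j (eval₂Hom (Int.castRingHom _) (fun i => C (c i) + (p : MvPolynomial (Fin d) _) * X i) q) := fun q => by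
    rw [← IsScalarTower.algebraMap_apply]
    exact RingHom.congr_fun hg1 q
  have := Fintype.ofFinite k
  refine ⟨p, hpp, O, inferInstance, inferInstance, d, δ, g.comp (algebraMap A _), σ,
    Fintype.card k, hp2, hδ, hcomm, hsm, hσ1, ?_, Fintype.one_lt_card, fun a => ?_, fun β hβ => ?_, hσ3⟩
  · rw [injective_iff_map_eq_zero]
    intro a ha
    by_contra h0
    obtain ⟨r, hr, b, hb⟩ := (halg.1 a).exists_nonzero_dvd (mem_nonZeroDivisors_of_ne_zero h0)
    refine hr (zoom_injective c hpp.out.ne_zero (hinj ?_))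
    rw [← hgP, hb, map_mul, map_mul, show g (algebraMap A _ a) = 0 from ha, zero_mul, map_zero,
      map_zero]
  · rw [← mem_span_singleton, ← Ideal.Quotient.eq_zero_iff_mem, map_sub, map_pow]
    have : Ideal.Quotient.mk (span {(p : O)}) ((g.comp (algebraMap A _)) a) = κ (π a) := by
      have := RingHom.congr_fun hg2 (algebraMap A _ a)
      rwa [RingHom.comp_apply κ, IsLocalization.Away.lift_eq] at this
    rw [this, ← map_pow, FiniteField.pow_card, sub_self]
  · have hβ1 : ∀ a, (p : O) ∣ β a - g (algebraMap A _ a) := fun a =>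
      (dvd_pow_self _ three_ne_zero).trans (hβ a)
    choose t ht using fun i : Fin d => hβ (algebraMap (MvPolynomial (Fin d) ℤ) A (X i))
    have hu : IsUnit (β s) :=
      isUnit_of_dvd_sub ((IsLocalization.Away.algebraMap_isUnit s).map g) (hβ1 s)
    have key : IsLocalization.Away.lift s hu = (σ t).comp g := by
      refine ext_unramified (p := p) (P := MvPolynomial (Fin d) ℤ)
        (ringHom_ext' (Subsingleton.elim _ _) fun i => ?_)
        (IsLocalization.ringHom_ext (Submonoid.powers s) (RingHom.ext fun a => ?_))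
      · have h1 := ht i
        have h3 : σ t (j (C (c i))) = j (C (c i)) := by
          rw [hσ2 _ _ fun l l' => by simp only [hj, derivation_C, map_zero, mul_zero]]
          simp only [hj, derivation_C, map_zero, mul_zero, Finset.sum_const_zero, add_zero]
        have h4 : σ t (j (X i)) = j (X i) + p * (t i * p) := by
          rw [hσ2 _ _ fun l l' => by
            rw [hj, pderiv_X, Pi.single_apply]
            split_ifs <;> simp only [map_one, mul_one, (hδ l').natCast, map_zero, mul_zero]]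
          simp only [hj, pderiv_X, Pi.single_apply, MonoidWithZeroHom.map_ite_one_zero, mul_ite, mul_one, mul_zero, Finset.sum_ite_eq, Finset.mem_univ, ↓ reduceIte]
        rw [IsScalarTower.algebraMap_eq _ A]
        simp only [RingHom.comp_apply, IsLocalization.Away.lift_eq, hgP, eval₂Hom_X', map_add,
          map_mul, map_natCast, h3, h4] at h1 ⊢
        linear_combination h1
      · simp only [RingHom.comp_apply, IsLocalization.Away.lift_eq]
        refine Ideal.Quotient.eq.2 (mem_span_singleton.2 ?_)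
        have := dvd_sub (hβ1 a) (hσ1 t (g (algebraMap A _ a)))
        rwa [sub_sub_sub_cancel_right] at this
    refine ⟨t, fun a => ?_⟩
    have := RingHom.congr_fun key (algebraMap A _ a)
    rwa [IsLocalization.Away.lift_eq] at this

end EN

end

-- part MP_646035_al.EN.ThmR
section

/-! The statement of Theorem R (proved in section 3, used in section 4). -/

namespace EN

/-- Theorem R: a tuple of families lies in a closed, derivation-stable ring of families that is
uniform for vanishing almost everywhere. -/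
def ThmR : Prop :=
  ∀ (p : ℕ) [Fact p.Prime], p ≠ 2 → ∀ (O : Type) [CommRing O] [DV p O] (d : ℕ)
    (δ : Fin d → O →+ O), (∀ i, IsDer (δ i)) → (∀ i j b, δ i (δ j b) = δ j (δ i b)) →
    (∀ i b, (p : O) ∣ δ i b) → ∀ (M : Type) (ω : Ultrafilter M) (n : ℕ) (y : Fin n → M → O),
    ∃ B : Subring (M → O), Closed p B ∧ (∀ c : O, (fun _ => c) ∈ B) ∧ (∀ j, y j ∈ B) ∧
      (∀ i, ∀ N ∈ B, (fun m => δ i (N m)) ∈ B) ∧
      ∀ᶠ m in (ω : Filter M), ∀ N ∈ B, (∀ᶠ m' in (ω : Filter M), N m' = 0) → N m = 0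

end EN

end

-- part MP_646035_al.EN.Act
section

/-! Section 4c: groups acting on finitely generated reduced torsion-free rings. -/

namespace EN

open Filter

theorem finiteType_of_closure {R : Type} [CommRing R] {S : Set R} (hS : S.Finite)
    (h : Subring.closure S = ⊤) : Algebra.FiniteType ℤ R :=
  ⟨⟨hS.toFinset, by rw [hS.coe_toFinset, Algebra.adjoin_int, h]; rfl⟩⟩

theorem closure_image_eq_top {R R' : Type} [CommRing R] [CommRing R'] {S : Set R}
    (h : Subring.closure S = ⊤) {f : R →+* R'} (hf : Function.Surjective f) :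
    Subring.closure (f '' S) = ⊤ := by
  rw [← RingHom.map_closure, h, ← RingHom.range_eq_map, RingHom.range_eq_top_of_surjective f hf]

theorem finite_of_pow {R : Type} [CommRing R] {S : Set R} (hS : S.Finite)
    (h : Subring.closure S = ⊤) {n q : ℕ} (hn : 1 < n) (hq : q ≠ 0)
    (h1 : ∀ a : R, (a ^ n - a) ^ 3 = 0) (h2 : (q : R) = 0) : Finite R := by
  have := finiteType_of_closure hS h
  have : Algebra.IsIntegral ℤ R := ⟨fun a => ⟨(Polynomial.X ^ n - Polynomial.X) ^ 3,
    (Polynomial.monic_X_pow_sub (by rw [Polynomial.degree_X]; exact_mod_cast hn)).pow 3,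
    by simpa only [algebraMap_int_eq, Polynomial.eval₂_pow, Polynomial.eval₂_sub, Polynomial.eval₂_X] using h1 a⟩⟩
  exact finite_of_module_finite _ Algebra.IsIntegral.finite hq h2

theorem finiteIndex_of_map {G X : Type} [Group G] [Finite X] (H : Subgroup G) (f : G → X)
    (h : ∀ a b, f a = f b → a⁻¹ * b ∈ H) : H.FiniteIndex := by
  have : Finite (G ⧸ H) := Finite.of_injective (fun x : G ⧸ H => f x.out) fun x y e => by
    rw [← x.out_eq', ← y.out_eq']
    exact QuotientGroup.eq.2 (h _ _ e)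
  exact Subgroup.finiteIndex_of_finite_quotient

/-- An endomorphism congruent to the identity fixes its periodic points. -/
theorem fix_of_iterate {p : ℕ} [hp : Fact p.Prime] (h2 : p ≠ 2) {K : Type} [CommRing K] [PR p K]
    {k : ℕ} (hk : k ≠ 0) (σ : K →+* K) (hσ : ∀ b, (p : K) ∣ σ b - b) {b : K} (h : (σ ^ k) b = b) :
    σ b = b := by
  have up : ∀ (σ : K →+* K), (∀ b, (p : K) ∣ σ b - b) → ∀ s x, (p : K) ^ s ∣ x →
      (p : K) ^ (s + 1) ∣ σ x - x := by
    rintro σ hσ s _ ⟨u, rfl⟩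
    rw [map_mul, map_pow, map_natCast, ← mul_sub, pow_succ]
    exact mul_dvd_mul_left _ (hσ u)
  induction k using induction_on_primes generalizing σ with
  | zero => exact absurd rfl hk
  | one => simpa using h
  | prime_mul l a hl ih =>
    refine ih (right_ne_zero_of_mul hk) σ hσ ?_
    rw [mul_comm, pow_mul] at h
    have hτ : ∀ b, (p : K) ∣ (σ ^ a) b - b := fun b => by
      clear h ih hk
      induction a with
      | zero => simp only [pow_zero, RingHom.coe_one, id_eq, sub_self, dvd_zero]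
      | succ a ih =>
        have := dvd_add (hσ ((σ ^ a) b)) ih
        rwa [sub_add_sub_cancel, ← RingHom.comp_apply, ← RingHom.mul_def, ← pow_succ'] at this
    generalize σ ^ a = τ at h hτ
    refine sub_eq_zero.1 (PR.sep (p := p) _ fun s => ?_)
    induction s with
    | zero => simp only [pow_zero, isUnit_one, IsUnit.dvd]
    | succ s ih =>
      have h3 := up τ hτ s _ ih
      have h4 := up τ hτ _ _ h3
      have h5 : ∀ i : ℕ, (p : K) ^ (s + 1 + 1) ∣ (τ ^ i) b - b - i * (τ b - b) -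
          (i.choose 2 : K) * (τ (τ b - b) - (τ b - b)) := fun i => by
        induction i with
        | zero => simp only [pow_zero, RingHom.coe_one, id_eq, sub_self, Nat.cast_zero, zero_mul, Nat.choose_zero_succ, map_sub, dvd_zero]
        | succ i ih =>
          have h6 := map_dvd τ ih
          rw [map_pow, map_natCast] at h6
          have := dvd_add h6 (h4.mul_left (i.choose 2 : K))
          convert this using 1
          rw [pow_succ' τ, RingHom.mul_def, RingHom.comp_apply, Nat.choose_succ_succ' i 1]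
          simp only [map_sub, map_mul, map_natCast, Nat.choose_one_right]
          push_cast
          ring
      have h6 := h5 l
      rw [h] at h6
      by_cases hlp : p ∣ l
      · obtain rfl : p = l := (Nat.prime_dvd_prime_iff_eq hp.out hl).1 hlp
        obtain ⟨t, ht⟩ := hl.dvd_choose_self two_ne_zero (lt_of_le_of_ne hl.two_le h2.symm)
        obtain ⟨u, hu⟩ := h3
        obtain ⟨v, hv⟩ := h6
        rw [ht, hu] at hv
        push_cast at hv
        refine ⟨-v - t * u, sub_eq_zero.1 (PR.reg (p := p) _ ?_)⟩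
        linear_combination -hv
      · have h7 := dvd_add ((pow_dvd_pow _ (Nat.le_succ _)).trans h6) (h3.mul_left (l.choose 2 : K))
        rw [sub_add_cancel, sub_self, zero_sub, dvd_neg] at h7
        exact (isUnit_natCast (K := K) hlp).dvd_mul_left.1 h7

variable {G A : Type} [Group G] [CommRing A] [MulSemiringAction G A] {S : Set A}

/-- The chart attached to a minimal prime, with a finite-index subgroup acting through the Taylor
endomorphisms. -/
theorem exists_chart_act (hS : S.Finite) (hcl : Subring.closure S = ⊤)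
    (htf : ∀ k : ℕ, k ≠ 0 → (k : A) ∈ nonZeroDivisors A) {q : Ideal A} (hq : q ∈ minimalPrimes A) :
    ∃ (p : ℕ) (_ : Fact p.Prime) (O : Type) (_ : CommRing O) (_ : DV p O) (d : ℕ)
      (δ : Fin d → O →+ O) (ι : A →+* O) (σ : (Fin d → O) → O →+* O) (H : Subgroup G),
      p ≠ 2 ∧ (∀ i, IsDer (δ i)) ∧ (∀ i i' b, δ i (δ i' b) = δ i' (δ i b)) ∧
      (∀ i b, (p : O) ∣ δ i b) ∧ (∀ g b, (p : O) ∣ σ g b - b) ∧ (∀ a, ι a = 0 ↔ a ∈ q) ∧
      H.FiniteIndex ∧ (∀ α ∈ H, ∃ g, ∀ a, ι (α • a) = σ g (ι a)) ∧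
      ∀ {M : Type} (B : Subring (M → O)), Closed p B → (∀ c : O, (fun _ => c) ∈ B) →
        (∀ i, ∀ N ∈ B, (fun m => δ i (N m)) ∈ B) → ∀ g : M → Fin d → O,
        (∀ i, (fun m => g m i) ∈ B) → ∀ N ∈ B, (fun m => σ (g m) (N m)) ∈ B := by
  have := hq.isPrime
  have : CharZero (A ⧸ q) := charZero_of_inj_zero fun k hk => by
    by_contra h0
    rw [← map_natCast (Ideal.Quotient.mk q), Ideal.Quotient.eq_zero_iff_mem] at hk
    exact notMem_nonZeroDivisors_of_mem_mem_minimalPrimes hk hq (htf k h0)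
  obtain ⟨p, hp, O, _, _, d, δ, ι, σ, n, h2, h3, h4, h5, h6, hι, hn, h7, h8, h9⟩ :=
    @exists_chart (A ⧸ q) _ _ _
      (finiteType_of_closure (hS.image _) (closure_image_eq_top hcl Ideal.Quotient.mk_surjective))
  have hker : ∀ a, (ι.comp (Ideal.Quotient.mk q)) a = 0 ↔ a ∈ q := fun a => by
    rw [RingHom.comp_apply, map_eq_zero_iff _ hι, Ideal.Quotient.eq_zero_iff_mem]
  obtain ⟨J, hJ⟩ : ∃ J : Ideal A, ∀ a, a ∈ J ↔ (p : O) ^ 3 ∣ ι (Ideal.Quotient.mk q a) :=
    ⟨(Ideal.span {(p : O) ^ 3}).comap (ι.comp (Ideal.Quotient.mk q)),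
      fun a => Ideal.mem_span_singleton⟩
  have : Finite (A ⧸ J) := finite_of_pow (hS.image _)
    (closure_image_eq_top hcl Ideal.Quotient.mk_surjective) hn (pow_ne_zero 3 hp.out.ne_zero)
    (fun a => by
      obtain ⟨a, rfl⟩ := Ideal.Quotient.mk_surjective a
      rw [← map_pow, ← map_sub, ← map_pow, Ideal.Quotient.eq_zero_iff_mem, hJ]
      simpa only [map_pow, map_sub] using pow_dvd_pow_of_dvd (h7 (Ideal.Quotient.mk q a)) 3)
    (by
      rw [← map_natCast (Ideal.Quotient.mk J), Ideal.Quotient.eq_zero_iff_mem, hJ]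
      simp)
  have : Finite (A →+* A ⧸ J) := by
    have := hS.to_subtype
    exact Finite.of_injective (fun (f : A →+* A ⧸ J) (s : S) => f s) fun f g h =>
      RingHom.eq_of_eqOn_set_dense hcl fun s hs => congrFun h ⟨s, hs⟩
  have := finiteType_of_closure hS hcl
  have := Algebra.FiniteType.isNoetherianRing ℤ A
  have := (minimalPrimes.finite_of_isNoetherianRing A).to_subtype
  let H : Subgroup G :=
    { carrier := {α | ∀ a, α • a ∈ q ↔ a ∈ q}
      mul_mem' := fun {α β} hα hβ a => by rw [mul_smul, hα, hβ]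
      one_mem' := fun a => by rw [one_smul]
      inv_mem' := fun {α} hα a => by rw [← hα, smul_inv_smul] }
  have hmin : ∀ α : G, q.comap (MulSemiringAction.toRingHom G A α) ∈ minimalPrimes A := fun α => by
    have := Ideal.minimalPrimes_comap_of_surjective (f := MulSemiringAction.toRingHom G A α)
      (MulAction.surjective α) hq
    rwa [Ideal.comap_bot_of_injective _ (MulAction.injective α)] at this
  refine ⟨p, hp, O, inferInstance, inferInstance, d, δ, ι.comp (Ideal.Quotient.mk q), σ,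
    H ⊓ J.inertia G, h2, h3, h4, h5, h6, hker, finiteIndex_of_map _ (fun α : G =>
      ((⟨_, hmin α⁻¹⟩ : minimalPrimes A),
        (Ideal.Quotient.mk J).comp (MulSemiringAction.toRingHom G A α⁻¹))) fun α β e => ⟨?_, ?_⟩,
    fun α hα => ?_, h9⟩
  · intro a
    have := SetLike.ext_iff.1 (congrArg (fun x => x.1.1) e) (β • a)
    simpa only [mul_smul, Ideal.mem_comap, MulSemiringAction.toRingHom_apply, inv_smul_smul] using this
  · intro a
    have := RingHom.congr_fun (congrArg Prod.snd e) (β • a)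
    simpa only [mul_smul, AddSubgroup.mem_mk, Submodule.mem_toAddSubmonoid, RingHom.coe_comp, Function.comp_apply, MulSemiringAction.toRingHom_apply, inv_smul_smul, Ideal.Quotient.eq] using this
  · obtain ⟨g, hg⟩ := h8 (Ideal.Quotient.lift q ((ι.comp (Ideal.Quotient.mk q)).comp
      (MulSemiringAction.toRingHom G A α)) fun a ha => (hker _).2 ((hα.1 a).2 ha)) fun a => by
        obtain ⟨a, rfl⟩ := Ideal.Quotient.mk_surjective a
        simpa only [Ideal.Quotient.lift_mk, RingHom.coe_comp, Function.comp_apply, MulSemiringAction.toRingHom_apply, map_sub] using (hJ _).1 (hα.2 a)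
    exact ⟨g, fun a => hg (Ideal.Quotient.mk q a)⟩

theorem eq_of_minimalPrimes [IsReduced A] {a b : A} (h : ∀ q ∈ minimalPrimes A, a - b ∈ q) :
    a = b := by
  have : a - b ∈ sInf (⊥ : Ideal A).minimalPrimes := Ideal.mem_sInf.2 fun {q} hq => h q hq
  rw [Ideal.sInf_minimalPrimes] at this
  exact sub_eq_zero.1 (IsReduced.eq_zero _ this)

/-- A finite-index subgroup whose elements fix their periodic points. -/
theorem tor_act [IsReduced A] (hS : S.Finite) (hcl : Subring.closure S = ⊤)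
    (htf : ∀ k : ℕ, k ≠ 0 → (k : A) ∈ nonZeroDivisors A) : ∃ H : Subgroup G, H.FiniteIndex ∧
      ∀ α ∈ H, ∀ k ≠ 0, ∀ a : A, α ^ k • a = a → α • a = a := by
  have := finiteType_of_closure hS hcl
  have := Algebra.FiniteType.isNoetherianRing ℤ A
  have := (minimalPrimes.finite_of_isNoetherianRing A).to_subtype
  have key : ∀ q : minimalPrimes A, ∃ H : Subgroup G, H.FiniteIndex ∧
      ∀ α ∈ H, ∀ k ≠ 0, ∀ a : A, α ^ k • a = a → α • a - a ∈ q.1 := fun q => by
    obtain ⟨p, hp, O, _, _, d, δ, ι, σ, H, h2, -, -, -, h6, hker, hH, h8, -⟩ :=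
      exists_chart_act (G := G) hS hcl htf q.2
    refine ⟨H, hH, fun α hα k hk a ha => ?_⟩
    obtain ⟨g, hg⟩ := h8 α hα
    have h : ∀ k : ℕ, ι (α ^ k • a) = (σ g ^ k) (ι a) := fun k => by
      induction k with
      | zero => simp
      | succ k ih => rw [pow_succ', mul_smul, hg, ih, pow_succ', RingHom.mul_def, RingHom.comp_apply]
    rw [← hker, map_sub, hg, fix_of_iterate h2 hk _ (h6 g) (by rw [← h, ha]), sub_self]
  choose H hH hk using key
  exact ⟨⨅ q, H q, Subgroup.finiteIndex_iInf hH, fun α hα k h0 a ha =>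
    eq_of_minimalPrimes fun q hq => hk ⟨q, hq⟩ α (Subgroup.mem_iInf.1 hα _) k h0 a ha⟩

/-- Uniformity for a family of actions of a finitely generated group. -/
theorem en_act (hR : ThmR) [IsReduced A] (hS : S.Finite) (hcl : Subring.closure S = ⊤)
    (htf : ∀ k : ℕ, k ≠ 0 → (k : A) ∈ nonZeroDivisors A) {F M : Type} [Group F] [Group.FG F]
    (φ : M → F →* G) (ω : Ultrafilter M) : ∀ᶠ m in (ω : Filter M), ∀ (w : F) (a a' : A),
      (∀ᶠ m' in (ω : Filter M), φ m' w • a = a') → φ m w • a = a' := by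
  have := finiteType_of_closure hS hcl
  have := Algebra.FiniteType.isNoetherianRing ℤ A
  have := (minimalPrimes.finite_of_isNoetherianRing A).to_subtype
  suffices key : ∀ q : minimalPrimes A, ∀ᶠ m in (ω : Filter M), ∀ (w : F) (a a' : A),
      (∀ᶠ m' in (ω : Filter M), φ m' w • a = a') → φ m w • a - a' ∈ q.1 from
    (eventually_all.2 key).mono fun m hm w a a' h =>
      eq_of_minimalPrimes fun q hq => hm ⟨q, hq⟩ w a a' h
  intro q
  obtain ⟨p, hp, O, _, _, d, δ, ι, σ, H, h2, h3, h4, h5, -, hker, hH, h8, h9⟩ :=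
    exists_chart_act (G := G) hS hcl htf q.2
  obtain ⟨T, hT⟩ := (Group.fg_iff_monoid_fg.1 ‹_›).fg_top
  have h1 : ∀ α : G, ∃ g, ∀ a, ι (α • a) = σ g (ι (((α⁻¹ : G) : G ⧸ H).out⁻¹ • a)) := fun α => by
    have : α * ((α⁻¹ : G) : G ⧸ H).out ∈ H := by
      have := QuotientGroup.eq.1 ((α⁻¹ : G) : G ⧸ H).out_eq'.symm
      rwa [inv_inv] at this
    obtain ⟨g, hg⟩ := h8 _ this
    exact ⟨g, fun a => by rw [← hg, mul_smul, smul_inv_smul]⟩
  choose g hg using h1
  choose nx hnx using fun x : (G ⧸ H) × T => Ultrafilter.eventually_exists_iff.1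
    (Eventually.of_forall (f := (ω : Filter M)) fun m =>
      (⟨_, rfl⟩ : ∃ x' : G ⧸ H, ((x.1.out⁻¹ * φ m x.2)⁻¹ : G) = x'))
  have e := Finite.equivFin (((G ⧸ H) × T) × Fin d)
  obtain ⟨B, hB, hc, hy, hd, hv⟩ := hR p h2 O d δ h3 h4 h5 M ω _ fun j m =>
    g ((e.symm j).1.1.out⁻¹ * φ m (e.symm j).1.2) (e.symm j).2
  have key : ∀ (a : A) (w : F) (x : G ⧸ H), ∃ N ∈ B, ∀ m, (∀ x : (G ⧸ H) × T,
      ((x.1.out⁻¹ * φ m x.2)⁻¹ : G) = nx x) → N m = ι (x.out⁻¹ • φ m w • a) := fun a w => by
    induction w using Submonoid.induction_of_closure_eq_top_left hT with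
    | one => exact fun x => ⟨_, hc (ι (x.out⁻¹ • a)), fun m _ => by rw [map_one, one_smul]⟩
    | mul_left s hs w ih =>
      intro x
      obtain ⟨N, hN, h⟩ := ih (nx (x, ⟨s, hs⟩))
      refine ⟨_, h9 B hB hc hd (fun m => g (x.out⁻¹ * φ m s)) (fun i => ?_) N hN, fun m hm => ?_⟩
      · simpa only [Equiv.symm_apply_apply] using hy (e ((x, ⟨s, hs⟩), i))
      · rw [map_mul, mul_smul, ← mul_smul, hg, h m hm, hm (x, ⟨s, hs⟩)]
  filter_upwards [hv, eventually_all.2 hnx] with m hm hm' w a a' h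
  obtain ⟨N, hN, h'⟩ := key a w ((1 : G)⁻¹ : G)
  have h6 := hm _ (B.sub_mem (h9 B hB hc hd (fun _ => g 1) (fun i => hc _) N hN) (hc (ι a'))) (by
    filter_upwards [h, eventually_all.2 hnx] with m h hm'
    rw [Pi.sub_apply, h' m hm', ← hg, one_smul, h, sub_self])
  rwa [Pi.sub_apply, h' m hm', ← hg, one_smul, ← map_sub, hker] at h6

end EN

end

-- part MP_646035_al.EN.Rep
section

/-! Section 4d: automorphisms of a finitely generated group modulo those fixing all characters of
dimension `n` in characteristic zero. -/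

namespace EN

open Filter Matrix

open MvPolynomial in
/-- The reduced coordinate ring of the representation variety in characteristic zero. -/
theorem exists_rep (G : Type) [Group G] [Group.FG G] (n : ℕ) :
    ∃ (A : Type) (_ : CommRing A) (_ : MulSemiringAction (MulAut G) A) (_ : IsReduced A)
      (S : Set A) (t : G → A), S.Finite ∧ Subring.closure S = ⊤ ∧
      (∀ k : ℕ, k ≠ 0 → (k : A) ∈ nonZeroDivisors A) ∧
      (∀ (f : MulAut G) g, f • t g = t (f g)) ∧ ∀ g h, t g = t h ↔ TrEq n g h := by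
  classical
  let ev : ∀ (K : Type) [Field K] (r : G →* GL (Fin n) K),
      MvPolynomial (G × Fin n × Fin n) ℤ →+* K := fun K _ r =>
    eval₂Hom (Int.castRingHom K) fun x => (r x.1 : Matrix (Fin n) (Fin n) K) x.2.1 x.2.2
  let I : Ideal (MvPolynomial (G × Fin n × Fin n) ℤ) :=
    { carrier := {F | ∀ (K : Type) [Field K] [CharZero K] (r : G →* GL (Fin n) K), ev K r F = 0}
      add_mem' := fun h h' K _ _ r => by rw [map_add, h K r, h' K r, add_zero]
      zero_mem' := fun K _ _ r => map_zero _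
      smul_mem' := fun c F h K _ _ r => by rw [smul_eq_mul, map_mul, h K r, mul_zero] }
  have hI : ∀ F F', Ideal.Quotient.mk I F = Ideal.Quotient.mk I F' ↔
      ∀ (K : Type) [Field K] [CharZero K] (r : G →* GL (Fin n) K), ev K r F = ev K r F' :=
    fun F F' => Ideal.Quotient.eq.trans (by
      refine forall₄_congr fun K _ _ r => ?_
      rw [map_sub, sub_eq_zero])
  let rn : MulAut G → MvPolynomial (G × Fin n × Fin n) ℤ →+* MvPolynomial (G × Fin n × Fin n) ℤ :=
    fun f => (rename (Prod.map f id)).toRingHom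
  have hrn : ∀ (f : MulAut G) (K : Type) [Field K] (r : G →* GL (Fin n) K) F,
      ev K r (rn f F) = ev K (r.comp f.toMonoidHom) F := fun f K _ r F =>
    RingHom.congr_fun (f := (ev K r).comp (rn f))
      (ringHom_ext' (Subsingleton.elim _ _) fun x => by simp only [ev, rn, AlgHom.toRingHom_eq_coe, RingHom.coe_comp, coe_eval₂Hom, RingHom.coe_coe, Function.comp_apply, rename_X, eval₂_X, Prod.map_fst, Prod.map_snd, id_eq, MulEquiv.toMonoidHom_eq_coe, MonoidHom.coe_comp, MonoidHom.coe_coe, eval₂Hom_X']) F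
  let Φ : MulAut G →* ((MvPolynomial (G × Fin n × Fin n) ℤ ⧸ I) →+*
      (MvPolynomial (G × Fin n × Fin n) ℤ ⧸ I)) :=
    { toFun := fun f => Ideal.quotientMap I (rn f) fun F h K _ _ r => (hrn f K r F).trans (h K _)
      map_one' := Ideal.Quotient.ringHom_ext
        (ringHom_ext' (Subsingleton.elim _ _) fun x => by simp only [rn, AlgHom.toRingHom_eq_coe, MulAut.coe_one, Prod.map_id, rename_id, AlgHom.id_toRingHom, RingHom.coe_comp, Function.comp_apply, Ideal.quotientMap_mk, RingHom.id_apply, RingHom.coe_one, id_eq])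
      map_mul' := fun f f' => Ideal.Quotient.ringHom_ext
        (ringHom_ext' (Subsingleton.elim _ _) fun x => by simp only [rn, AlgHom.toRingHom_eq_coe, MulAut.coe_mul, RingHom.coe_comp, Function.comp_apply, Ideal.quotientMap_mk, RingHom.coe_coe, rename_X, Prod.map, id_eq, RingHom.mul_def]) }
  obtain ⟨T, hT⟩ := (Group.fg_iff_monoid_fg.1 ‹_›).fg_top
  refine ⟨_ ⧸ I, inferInstance, MulSemiringAction.compHom _ Φ, ⟨fun a ha => ?_⟩,
    (fun x => Ideal.Quotient.mk I (X x)) '' ((T : Set G) ×ˢ Set.univ),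
    fun g => Ideal.Quotient.mk I (∑ i, X (g, i, i)),
    (T.finite_toSet.prod Set.finite_univ).image _, ?_, fun k hk => ?_, fun f g => ?_,
    fun g h => (hI _ _).trans (forall₄_congr fun K _ _ r => by simp only [ev, map_sum, eval₂Hom_X', trace, diag_apply])⟩
  · obtain ⟨F, rfl⟩ := Ideal.Quotient.mk_surjective a
    obtain ⟨k, hk⟩ := ha
    rw [← map_pow, Ideal.Quotient.eq_zero_iff_mem] at hk
    exact Ideal.Quotient.eq_zero_iff_mem.2 fun K _ _ r =>
      IsReduced.eq_zero _ ⟨k, (map_pow (ev K r) F k).symm.trans (hk K r)⟩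
  · generalize hB : Subring.closure (R := _ ⧸ I) _ = B
    have hX : ∀ g i j, Ideal.Quotient.mk I (X (g, i, j)) ∈ B := fun g => by
      induction g using Submonoid.induction_of_closure_eq_top_left hT with
      | one =>
        intro i j
        rw [(hI _ (if i = j then 1 else 0)).2 fun K _ _ r => by simp only [ev, eval₂Hom_X', map_one, Units.val_one, one_apply, apply_ite, coe_eval₂Hom, eval₂_one, eval₂_zero, ite_eq_left_iff, zero_ne_one, imp_false, Decidable.not_not, ite_eq_right_iff, one_ne_zero, ite_then_self, imp_self]]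
        split_ifs
        · exact B.one_mem
        · exact B.zero_mem
      | mul_left s hs g ih =>
        intro i j
        rw [(hI _ (∑ l, X (s, i, l) * X (g, l, j))).2 fun K _ _ r => by simp only [ev, eval₂Hom_X', map_mul, Units.val_mul, mul_apply, map_sum, coe_eval₂Hom, eval₂_mul, eval₂_X],
          map_sum]
        refine B.sum_mem fun l _ => ?_
        rw [map_mul]
        exact B.mul_mem (hB ▸ Subring.subset_closure ⟨(s, i, l), ⟨hs, trivial⟩, rfl⟩) (ih l j)
    refine eq_top_iff.2 fun a _ => ?_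
    obtain ⟨F, rfl⟩ := Ideal.Quotient.mk_surjective a
    induction F using MvPolynomial.induction_on with
    | C c => simp
    | add F F' h h' => exact map_add (Ideal.Quotient.mk I) F F' ▸ B.add_mem (h trivial) (h' trivial)
    | mul_X F x h => exact map_mul (Ideal.Quotient.mk I) F _ ▸ B.mul_mem (h trivial) (hX _ _ _)
  · refine mem_nonZeroDivisors_iff_right.2 fun a ha => ?_
    obtain ⟨F, rfl⟩ := Ideal.Quotient.mk_surjective a
    rw [← map_natCast (Ideal.Quotient.mk I), ← map_mul, Ideal.Quotient.eq_zero_iff_mem] at ha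
    refine Ideal.Quotient.eq_zero_iff_mem.2 fun K _ _ r => ?_
    have := ha K r
    rw [map_mul, map_natCast] at this
    exact (mul_eq_zero.1 this).resolve_right (Nat.cast_ne_zero.2 hk)
  · change Φ f (Ideal.Quotient.mk I (∑ i, X (g, i, i))) = Ideal.Quotient.mk I (∑ i, X (f g, i, i))
    simp [Φ, rn]

/-- Torsion-freeness modulo traces, pointwise. -/
theorem Tor (G : Type) [Group G] [Group.FG G] (n : ℕ) : ∃ H : Subgroup (MulAut G),
    H.FiniteIndex ∧ ∀ f ∈ H, ∀ k > 0, ∀ g, TrEq n ((f ^ k) g) g → TrEq n (f g) g := by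
  obtain ⟨A, _, _, _, S, t, hS, hcl, htf, h, h'⟩ := exists_rep G n
  obtain ⟨H, hH, hk⟩ := tor_act (G := MulAut G) hS hcl htf
  exact ⟨H, hH, fun f hf k h0 g hfk => (h' _ _).1 ((h f g).symm.trans
    (hk f hf k h0.ne' _ ((h _ g).trans ((h' _ _).2 hfk))))⟩

theorem Tor' (G : Type) [Group G] [Group.FG G] (n : ℕ) : ∃ H : Subgroup (MulAut G),
    H.FiniteIndex ∧ ∀ f ∈ H, ∀ k > 0, f ^ k ∈ TrK G n → f ∈ TrK G n :=
  (Tor G n).imp fun _ h => ⟨h.1, fun f hf k h0 hk g => h.2 f hf k h0 g (hk g)⟩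

/-- Theorem A3, ultrafilter form, pointwise. -/
theorem A3_ultra (hR : ThmR) (G : Type) [Group G] [Group.FG G] (n : ℕ) {F M : Type} [Group F]
    [Group.FG F] (φ : M → F →* MulAut G) (ω : Ultrafilter M) : ∀ᶠ m in (ω : Filter M),
      ∀ (w : F) (g h : G), (∀ᶠ m' in (ω : Filter M), TrEq n (φ m' w g) h) → TrEq n (φ m w g) h := by
  obtain ⟨A, _, _, _, S, t, hS, hcl, htf, h, h'⟩ := exists_rep G n
  exact (en_act hR hS hcl htf φ ω).mono fun m hm w g g' hw => (h' _ _).1 ((h _ g).symm.trans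
    (hm w _ _ (hw.mono fun m' hm' => (h _ g).trans ((h' _ _).2 hm'))))

theorem A3_of (hR : ThmR) (G : Type) [Group G] [Group.FG G] (n : ℕ) : ENmod (TrK G n) := by
  intro k f
  obtain ⟨m, hm⟩ := (A3_ultra hR G n f (hyperfilter ℕ)).exists
  refine ⟨m, fun W => ?_⟩
  have h1 : ∀ᶠ m2 in (hyperfilter ℕ : Filter ℕ), m2 > m :=
    hyperfilter_le_cofinite (Nat.cofinite_eq_atTop ▸ eventually_gt_atTop m)
  refine (h1.and ((eventually_all_finset W).2 fun w _ => ?_)).exists
  by_cases h : ∀ᶠ m' in (hyperfilter ℕ : Filter ℕ), f m' w ∈ TrK G n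
  · exact Eventually.of_forall fun _ _ g => hm w g g (h.mono fun _ h => h g)
  · exact (Ultrafilter.eventually_not.2 h).mono fun _ h1 h2 => absurd h2 h1

end EN

end

-- part MP_646035_al.H66G.Crv
section

/-!
The action of the group of outer automorphisms on the curves.
-/

namespace Pool.Agent.MP_646035_al.H66G

open Pool.Agent.MP_4a6971_al.H66 MC Set H84 Fu

variable {Γ : Type} [Group Γ] {Y : Fuchs Γ} {x : Γ} {φ ψ : MulAut Γ} {A : Subgroup (MulAut Γ)}
  {E F E' F' : V}

/-- The image of a set of axes. -/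
def img (Y : Fuchs Γ) (φ : MulAut Γ) (L : Set V) : Set V := {F | ∃ E ∈ L, Rl Y φ E F}

lemma img_lns (r : Rl Y φ E F) : img Y φ (lns Y E) = lns Y F := by
  apply subset_antisymm
  · rintro G ⟨_, ⟨γ, rfl | rfl⟩, h⟩
    · exact ⟨φ γ, (r.smul γ).uniq h⟩
    · exact ⟨φ γ, (r.smul γ).neg_left.uniq h⟩
  · rintro _ ⟨γ, rfl | rfl⟩
    · exact ⟨_, ⟨φ⁻¹ γ, Or.inl rfl⟩, by simpa using r.smul (φ⁻¹ γ)⟩
    · exact ⟨_, ⟨φ⁻¹ γ, Or.inl rfl⟩, by simpa using (r.smul (φ⁻¹ γ)).neg_right⟩

lemma cv_rl (φ : MulAut Γ) (a : Cv Y) (h : E ∈ a.1) : ∃ F, Rl Y φ E F :=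
  let ⟨_, hx, hE⟩ := a.ax h; exists_rl φ hx hE

/-- The action of `A` on the curves. -/
@[reducible] def actA (h : Y.Mod A) : MulAction A (Cv Y) where
  smul φ a := ⟨img Y φ a.1, by
    obtain ⟨E, c, e⟩ := a.2
    obtain ⟨F, r⟩ := cv_rl φ a (e ▸ self_mem_lns E)
    exact ⟨F, r.curve h φ.2 c, by rw [e, img_lns r]⟩⟩
  one_smul a := Subtype.ext (by
    obtain ⟨E, ⟨⟨x, hx, hE⟩, -⟩, e⟩ := a.2
    change img Y 1 a.1 = a.1
    rw [e, img_lns ⟨x, hx, hE, hE⟩])
  mul_smul φ ψ a := Subtype.ext (by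
    obtain ⟨E, ⟨⟨x, hx, hE⟩, -⟩, e⟩ := a.2
    obtain ⟨F, r⟩ := exists_rl (ψ : MulAut Γ) hx hE
    obtain ⟨y, hy, hF, -⟩ := r.symm
    obtain ⟨G, r'⟩ := exists_rl (φ : MulAut Γ) hy hF
    change img Y (φ * ψ) a.1 = img Y φ (img Y ψ a.1)
    rw [e, img_lns r, img_lns r', img_lns (r.trans r')])

/-- The action of the outer automorphisms on the curves. -/
@[reducible] noncomputable def actO (h : Y.Mod A) : MulAction (OutA A) (Cv Y) :=
  letI := actA h
  MulAction.compHom (Cv Y) (QuotientGroup.lift _ (MulAction.toPermHom A (Cv Y)) (by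
    rintro φ ⟨z, hz⟩
    refine Equiv.ext fun a => Subtype.ext ?_
    obtain ⟨E, ⟨⟨x, hx, hE⟩, -⟩, e⟩ := a.2
    change img Y φ a.1 = a.1
    rw [e, show (φ : MulAut Γ) = MulAut.conj z from hz.symm, img_lns (Rl.conj hx hE z)]
    exact lns_eq ⟨z, Or.inl rfl⟩))

lemma i_le (g : Good Y φ) {a b a' b' : Cv Y} (ha : a'.1 = img Y φ a.1) (hb : b'.1 = img Y φ b.1) :
    i a b ≤ i a' b' := by
  let Pr : V → V → Prop := fun q q' => H2 q ∧ ∃ E ∈ a.1, ∃ F ∈ b.1, ∃ E' F', Cr E F ∧ Bf E q = 0 ∧
    Bf F q = 0 ∧ Rl Y φ E E' ∧ Rl Y φ F F' ∧ H2 q' ∧ Bf E' q' = 0 ∧ Bf F' q' = 0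
  have eqv : ∀ q q' γ, Pr q q' → Pr (Y.σ γ • q) (Y.σ (φ γ) • q') :=
    fun q q' γ ⟨p, E, e, F, f, E', F', c, x, y, r, s, p', x', y'⟩ =>
      ⟨p.smul _, _, a.smul_mem e γ, _, b.smul_mem f γ, _, _, by simpa using c, by simpa using x,
        by simpa using y, r.smul γ, s.smul γ, p'.smul _, by simpa using x', by simpa using y'⟩
  have one : ∀ {a a' : Cv Y}, a'.1 = img Y φ a.1 → ∀ {E E' F F' q q'}, E ∈ a.1 → F ∈ a.1 →
      Rl Y φ E E' → Rl Y φ F F' → H2 q' → Bf E' q' = 0 → Bf F' q' = 0 → Bf F q = 0 → Bf E q = 0 := by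
    intro a a' ha E E' F F' q q' e f r s p x y z
    rcases a'.eq_or (ha ▸ ⟨E, e, r⟩) (ha ▸ ⟨F, f, s⟩) p x y with rfl | rfl
    · rcases s.symm.uniq r.symm with rfl | rfl <;> simpa using z
    · rcases s.symm.uniq r.symm.neg_left with rfl | rfl <;> simpa using z
  have inj : ∀ q r q', Pr q q' → Pr r q' → q = r :=
    fun q r q' ⟨p, E, e, F, f, E', F', c, x, y, s, t, p', x', y'⟩
      ⟨p1, E1, e1, F1, f1, E1', F1', _, x1, y1, s1, t1, _, x1', y1'⟩ =>
      H24.eq_of_cr (a.unit e) (b.unit f) c p p1 (x.trans (one ha e e1 s s1 p' x' x1' x1).symm)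
        (y.trans (one hb f f1 t t1 p' y' y1' y1).symm)
  refine (ncard_le_ncard ?_ ((X_fin a' b').image fun O => {q | ∃ q' ∈ O, Pr q q'})).trans
    (ncard_image_le (X_fin a' b'))
  rintro _ ⟨q, ⟨p, E, e, F, f, c, x, y⟩, rfl⟩
  obtain ⟨E', r⟩ := cv_rl φ a e
  obtain ⟨F', s⟩ := cv_rl φ b f
  have e' : E' ∈ a'.1 := ha ▸ ⟨E, e, r⟩
  have f' : F' ∈ b'.1 := hb ▸ ⟨F, f, s⟩
  obtain ⟨q', p', x', y'⟩ := exists_inter (a'.unit e') (b'.unit f') (r.cr s g c)
  have pr : Pr q q' := ⟨p, E, e, F, f, E', F', c, x, y, r, s, p', x', y'⟩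
  refine ⟨_, ⟨q', ⟨p', E', e', F', f', r.cr s g c, x', y'⟩, rfl⟩, subset_antisymm ?_ ?_⟩
  · rintro w ⟨_, ⟨γ, rfl⟩, h⟩
    exact ⟨φ⁻¹ γ, inj _ _ _ h (by simpa using eqv _ _ (φ⁻¹ γ) pr)⟩
  · rintro _ ⟨γ, rfl⟩
    exact ⟨_, ⟨φ γ, rfl⟩, eqv _ _ γ pr⟩

lemma cyc (r : Rl Y ψ E E) (hE : IsAx (Y.σ x) E) : ψ (ψ x) = x := by
  have ax : Ax Y E := let ⟨y, a, b, _⟩ := r; ⟨y, a, b⟩
  obtain ⟨γ, l⟩ := ax.pl
  obtain ⟨c, τ, p⟩ := ax.exists_per l
  obtain ⟨m, hm⟩ := p.gen _ (Or.inl (r.ax p.ne p.isAx).2)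
  obtain ⟨n, hn⟩ := p.gen _ (Or.inl (r.symm.ax p.ne p.isAx).2)
  obtain ⟨k, rfl⟩ := p.gen _ (Or.inl hE.2)
  have e : m * n - 1 = 0 := by_contra fun h => zpow_ne Y p.ne h (by
    rw [zpow_sub, zpow_mul, ← hm, ← map_zpow, ← hn]
    simp)
  have : m * m = 1 := by
    rcases Int.eq_one_or_neg_one_of_mul_eq_one' (by linarith only [e] : m * n = 1) with h | h <;> simp [h.1]
  simp only [map_zpow, hm, ← zpow_mul]
  rw [← mul_assoc, this, one_mul]

lemma trEq_of_rl {γ : Γ} (r : Rl Y ψ E (Y.σ γ • E)) (hE : IsAx (Y.σ x) E) :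
    EN.TrEq 3 ((ψ ^ 2) x) x := by
  obtain ⟨y, hy, hF, -⟩ := r.symm
  have := cyc (ψ := MulAut.conj γ⁻¹ * ψ) (by simpa only [map_inv, inv_smul_smul] using r.trans (Rl.conj hy hF γ⁻¹)) hE
  have e : (ψ ^ 2) x = ψ γ * γ * x * (ψ γ * γ)⁻¹ := by
    nth_rewrite 2 [← this]
    simp [sq, mul_assoc]
  rw [e]
  exact EN.TrEq.conj 3 _ _

lemma per_period (h : Y.Mod A) (hφ : φ ∈ A) (hE : E ∈ Y.per) :
    ∃ k > 0, ∃ γ, Rl Y (φ ^ k) E (Y.σ γ • E) := by
  obtain ⟨T, t1, t2⟩ := Y.per_fin
  obtain ⟨x, hx, ax⟩ := Y.per_ax E hE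
  have : ∀ n : ℕ, ∃ (F : V) (γ : Γ), Rl Y (φ ^ n) E F ∧ Y.σ γ • F ∈ T := fun n => by
    obtain ⟨F, r⟩ := exists_rl (φ ^ n) hx ax
    rcases r.per h (pow_mem hφ n) hE with p | p
    · exact ⟨F, (t2 _ p).imp fun _ q => ⟨r, q⟩⟩
    · exact ⟨-F, (t2 _ p).imp fun _ q => ⟨r.neg_right, q⟩⟩
  choose F γ r hT using this
  obtain ⟨m, -, n, -, lt, e⟩ := (infinite_univ (α := ℕ)).exists_lt_map_eq_of_mapsTo
    (f := fun n => Y.σ (γ n) • F n) (fun n _ => hT n) t1
  refine ⟨n - m, by omega, (φ ^ m)⁻¹ ((γ n)⁻¹ * γ m), ?_⟩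
  have := (r m).symm.smul ((γ n)⁻¹ * γ m)
  rw [map_mul, map_inv, mul_smul, e, inv_smul_smul] at this
  have := (r n).trans this
  rwa [show n = m + (n - m) by omega, pow_add, inv_mul_cancel_left, Nat.add_sub_cancel' lt.le]
    at this

/-- The classes that preserve the lengths of all simple closed geodesics. -/
def Len (Y : Fuchs Γ) (A : Subgroup (MulAut Γ)) : Set (OutA A) :=
  {g | ∃ φ : A, QuotientGroup.mk φ = g ∧ ∀ x, Simple Y x → trI (Y.σ (φ.1 x)) = trI (Y.σ x)}

lemma len_fin (h : Y.Mod A) : (Len Y A).Finite := by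
  obtain ⟨Ψ, h1, h2⟩ := fin_of_tr Y
  refine ((h1.preimage (f := fun φ : A => φ.1) Subtype.val_injective.injOn).image
    QuotientGroup.mk).subset ?_
  rintro _ ⟨φ, rfl, t⟩
  obtain ⟨δ, hδ⟩ := h2 φ (good h φ.2) t
  have m : MulAut.conj δ ∈ A := h.inn ⟨δ, rfl⟩
  refine ⟨⟨_, m⟩ * φ, hδ, ?_⟩
  rw [QuotientGroup.mk_mul, (QuotientGroup.eq_one_iff _).2 (by exact ⟨δ, rfl⟩), one_mul]

theorem trK_fin (h : Y.Mod A) : ((((EN.TrK Γ 3).comap A.subtype).map
    (QuotientGroup.mk' ((Inn Γ).subgroupOf A)) : Subgroup (OutA A)) : Set (OutA A)).Finite :=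
  (len_fin h).subset fun _ ⟨φ, a, b⟩ => ⟨φ, b, fun x _ => trI_of_trEq _ (a x)⟩

variable (h : Y.Mod A)
include h

lemma smul_coe (φ : A) (a : Cv Y) :
    letI := actO h; ((QuotientGroup.mk φ : OutA A) • a).1 = img Y φ a.1 := rfl

lemma exists_free (b : Cv Y) : letI := actO h
    ∃ (a : Cv Y) (g : OutA A), g • a = a ∧ Function.Injective fun n : ℕ => g ^ n • b := by
  let := actO h
  obtain ⟨G, hG⟩ := b.nonempty
  obtain ⟨E, c, cr⟩ := h.fill G (b.curve hG)
  obtain ⟨φ, hφ, t⟩ := h.twist E c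
  refine ⟨mk c, QuotientGroup.mk ⟨φ, hφ⟩, Subtype.ext (img_lns (twist_fix c t)), ?_⟩
  refine Function.Injective.of_lt_imp_ne fun m n lt e => ?_
  rw [show n = m + (n - m) by omega, pow_add, mul_smul, smul_left_cancel_iff,
    ← QuotientGroup.mk_pow] at e
  obtain ⟨F, r⟩ := cv_rl (φ ^ (n - m)) b hG
  obtain ⟨γ, rfl | rfl⟩ := b.exists_smul hG (show F ∈ b.1 by rw [e]; exact ⟨G, hG, r⟩)
  · exact twist_free c t (fun n => good h (pow_mem hφ n)) cr.symm (Nat.sub_pos_of_lt lt) r
  · exact twist_free c t (fun n => good h (pow_mem hφ n)) cr.symm (Nat.sub_pos_of_lt lt)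
      (by simpa using r.neg_right)

theorem st [Group.FG Γ] : letI := actO h
    ∃ N, ∀ H : Subgroup (OutA A), (∀ a : Cv Y, (MulAction.orbit H a).Finite) →
      ∀ F : Finset (OutA A), (∀ g ∈ F, g ∈ H) → F.card ≤ N := by
  classical
  let := actO h
  obtain ⟨K, k1, k2⟩ := EN.Tor Γ 3
  have := Fintype.ofFinite (MulAut Γ ⧸ K)
  refine ⟨(Len Y A).ncard * Fintype.card (MulAut Γ ⧸ K), fun H hH F hF => ?_⟩
  have key : ∀ φ : A, φ.1 ∈ K → (QuotientGroup.mk φ : OutA A) ∈ H →
      (QuotientGroup.mk φ : OutA A) ∈ Len Y A := fun φ a b => ⟨φ, rfl, fun x s => by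
    obtain ⟨E, hE⟩ := (Y.hyp x s.1).exists_ax
    obtain ⟨k, k0, γ, E, hE, r⟩ : ∃ k > 0, ∃ γ E, IsAx (Y.σ x) E ∧
        Rl Y (φ.1 ^ k) E (Y.σ γ • E) := by
      by_cases p : E ∈ Y.per
      · obtain ⟨k, k0, γ, r⟩ := per_period h φ.2 p
        exact ⟨k, k0, γ, E, hE, r⟩
      by_cases p' : -E ∈ Y.per
      · obtain ⟨k, k0, γ, r⟩ := per_period h φ.2 p'
        exact ⟨k, k0, γ, -E, hE.neg, r⟩
      have c : Y.Curve E := ⟨⟨x, s.1, hE⟩, s.2 E hE, p, p'⟩
      obtain ⟨m, -, n, -, lt, e⟩ := (infinite_univ (α := ℕ)).exists_lt_map_eq_of_mapsTo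
        (f := fun n => (QuotientGroup.mk φ : OutA A) ^ n • mk c)
        (t := MulAction.orbit H (mk c)) (fun n _ => ⟨⟨_, pow_mem b n⟩, rfl⟩) (hH (mk c))
      rw [show n = m + (n - m) by omega, pow_add, mul_smul, smul_left_cancel_iff,
        ← QuotientGroup.mk_pow] at e
      obtain ⟨F, r⟩ := exists_rl (φ.1 ^ (n - m)) s.1 hE
      obtain ⟨γ, rfl | rfl⟩ : F ∈ (mk c).1 := by rw [e]; exact ⟨E, mem_mk c, r⟩
      · exact ⟨n - m, by omega, γ, E, hE, r⟩
      · exact ⟨n - m, by omega, γ, E, hE, by simpa only [neg_neg] using r.neg_right⟩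
    exact trI_of_trEq _ (k2 _ a (k * 2) (by omega) x (pow_mul φ.1 k 2 ▸ trEq_of_rl r hE))⟩
  refine (Finset.card_le_mul_card_image_of_maps_to (t := Finset.univ)
    (f := fun g : OutA A => (QuotientGroup.mk g.out.1 : MulAut Γ ⧸ K)) (by simp) _
    fun q _ => ?_).trans_eq rfl
  rcases (F.filter fun g => (QuotientGroup.mk g.out.1 : MulAut Γ ⧸ K) = q).eq_empty_or_nonempty
    with e | ⟨g, hg⟩
  · simp [e]
  rw [← ncard_coe_finset]
  refine ncard_le_ncard_of_injOn (g⁻¹ * ·) (fun f hf => ?_) (mul_right_injective _).injOn (len_fin h)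
  rw [Finset.mem_coe, Finset.mem_filter] at hf
  rw [Finset.mem_filter] at hg
  have := key (g.out⁻¹ * f.out) (QuotientGroup.eq.1 (hg.2.trans hf.2.symm))
  simp only [QuotientGroup.mk_mul, QuotientGroup.mk_inv, QuotientGroup.out_eq'] at this
  exact this (mul_mem (inv_mem (hF g hg.1)) (hF f hf.1))

theorem finite_of_noCurve [Group.FG Γ] (n : ∀ E, ¬ Y.Curve E) : Finite (OutA A) := by
  obtain ⟨N, hN⟩ := st h
  by_contra c
  obtain ⟨F, hF⟩ := (not_finite_iff_infinite.1 c).exists_subset_card_eq (OutA A) (N + 1)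
  have := hN ⊤ (fun a => (n _ a.2.choose_spec.1).elim) F fun _ _ => trivial
  omega

theorem i_smul : letI := actO h; ∀ (g : OutA A) (a b : Cv Y), i (g • a) (g • b) = i a b := by
  let := actO h
  have : ∀ (g : OutA A) (a b : Cv Y), i a b ≤ i (g • a) (g • b) := fun g a b => by
    obtain ⟨φ, rfl⟩ := QuotientGroup.mk_surjective g
    exact i_le (good h φ.2) rfl rfl
  exact fun g a b => le_antisymm (by simpa using this g⁻¹ (g • a) (g • b)) (this g a b)

theorem axG [Group.FG Γ] (c : ∃ E, Y.Curve E) :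
    letI := actO h; H71.AxG (i (S := Y)) (OutA A) := by
  let := actO h
  refine ⟨i_smul h, fun b => ?_, ?_, st h⟩
  · obtain ⟨-, g, -, e⟩ := exists_free h b
    exact infinite_of_injective_forall_mem e fun n => ⟨g ^ n, rfl⟩
  · obtain ⟨a, g, f, e⟩ := exists_free h (mk c.choose_spec)
    exact ⟨a, infinite_of_injective_forall_mem (f := fun n : ℕ => g ^ n)
      (fun m n x => e (congrArg (· • mk c.choose_spec) x))
      fun n => (MulAction.stabilizer _ a).pow_mem f n⟩

theorem fill : Fill Y := fun a => by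
  obtain ⟨E, hE⟩ := a.nonempty
  obtain ⟨F, c, cr⟩ := h.fill E (a.curve hE)
  exact ⟨mk c, i_ne_zero hE (mem_mk c) cr⟩

end Pool.Agent.MP_646035_al.H66G

end
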