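import Pool.Agent.MP_646035_al.Mg.EN_Adj
import Mathlib
import Pool.Agent.MP_646035_al.Mg.H66G_Crv
import Pool.Agent.MP_646035_al.Mg.H24_Wo

attribute [-instance] DistribMulActionSemiHomClass.toAddMonoidHomClass
  SemilinearMapClass.toAddHomClass DivisionSemiring.toSemiring instCharZeroOfIsSemireal
  AlgHom.instNonUnitalAlgHomClassOfAlgHomClass Nontrivial.to_nonempty AddCommGroup.toAddGroup
  MonTypeEquivalenceMon.monMonoid DivisionRing.toRing NonUnitalNonAssocSemiring.toDistrib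
  instNonUnitalAlgHomClassOfNonUnitalAlgEquivClass RKHS.instFunLike IdemSemiring.toSemiring
  GeneralizedCoheytingAlgebra.toLattice AddQuantale.instAddLeftMono RCLike.charZero_rclike
  NumberField.to_charZero ConditionallyCompletePartialOrderSup.toPartialOrder
  Quantale.instMulRightMono SubNegMonoid.toAddMonoid FloorSemiring.instCharZero
  BialgHomClass.toMonoidHomClass RingHomInvPair.triples₂ Ring.toSemiring
  Fintype.decidableExistsFintype IdemCommSemiring.toCommSemiring Semifield.toCommSemiring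
  RingConeClass.toSubsemiringClass AddGroup.existsAddOfLE GeneralizedHeytingAlgebra.toLattice
  Order.Coframe.toCompleteLattice RingHomInvPair.triples ValuationClass.toMonoidWithZeroHomClass
  AddQuantale.instAddRightMono NonUnitalNonAssocSemiring.toMulZeroClass
  MulRingSeminormClass.toMonoidWithZeroHomClass NormedCommRing.toCommRing
  NonUnitalAlgSemiHomClass.toMulHomClass Group.IsPerfect.subsingleton_of_isMulCommutative
  NonUnitalNonAssocRing.toAddCommGroup CentroidHomClass.toAddMonoidHomClass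
  CompleteBooleanAlgebra.toCompleteLattice OmegaCompletePartialOrder.toPartialOrder
  AddCommGroupWithOne.toAddGroupWithOne GeneralizedHeytingAlgebra.toDistribLattice

-- part MP_646035_al.EN.RTri
section

/-! Section 3, pointwise facts: triangular series under `tau` and `rho`, valuations. -/

set_option autoImplicit false
open Filter

namespace EN
namespace RS
variable {p : ℕ} {K K' : Type} [CommRing K] [CommRing K'] {I : Type} [PR p K]

theorem Tri.tau [LinearOrder I] {i : I} {F : RS p K I} (h : Tri i F) : Tri i (tau F - C F) := by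
  obtain ⟨s, l, hs, q, hq⟩ := (tri_iff_low.1 h).exists_linear
  have h1 : F = X i + (∑ j ∈ s, C (l j) * X j + (p : RS p K I) * q) := by rw [← hq]; ring
  have e : RS.tau F - C F =
      X i + (∑ j ∈ s, C (C (l j)) * X j + (p : RS p (RS p K I) I) * (RS.tau q - C q)) := by
    rw [h1]
    simp only [map_add, map_mul, map_natCast, tau_X, map_sum, tau_C, mul_add,
      Finset.sum_add_distrib]
    ring
  rw [e]
  exact (tri_X _).add_low ((low_sum s fun j hj => (low_X (hs j hj)).C_mul _).add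
    (low_of_dvd _ (dvd_mul_right _ _)))

theorem Tri.rho [LT I] {i : I} {F : RS p K I} (h : Tri i F) (r : ℕ) :
    ∃ z, Tri i z ∧ rho r F = C (RS.ev0 F) + (p : RS p K I) ^ r * z := by
  classical
  have hdeg : ∀ μ : I →₀ ℕ, μ ≠ 0 → ∃ c, μ.degree = c + 1 := fun μ hμ =>
    Nat.exists_eq_add_one_of_ne_zero (by simpa [Finsupp.degree_eq_zero_iff] using hμ)
  have h1 : (p : RS p K I) ^ r ∣ RS.rho r F - C (RS.ev0 F) := by
    refine pow_dvd_iff.2 fun μ => ?_
    rw [map_sub, coeff_rho, coeff_C]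
    split_ifs with hμ
    · simp only [hμ, map_zero, zero_mul, pow_zero, one_mul, ev0_eq, sub_self, dvd_zero]
    · obtain ⟨c, hc⟩ := hdeg μ hμ
      rw [sub_zero, hc, add_mul, one_mul, pow_add, mul_right_comm]
      exact dvd_mul_left _ _
  obtain ⟨z, hz⟩ := h1
  have hc : ∀ μ : I →₀ ℕ, ∀ c, μ.degree = c + 1 → coeff μ z = (p : K) ^ (c * r) * coeff μ F := by
    intro μ c hc
    have := congrArg (coeff μ) hz
    rw [map_sub, coeff_rho, coeff_C, if_neg (by rintro rfl; simp at hc), coeff_pow_mul, hc]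
      at this
    refine PR.pow_cancel (p := p) (k := r) ?_
    rw [← this]
    ring
  refine ⟨z, ⟨?_, fun μ h1 h2 => ?_⟩, by rw [← hz]; ring⟩
  · rw [hc _ 0 (by simp)]
    simpa only [zero_mul, pow_zero, one_mul] using h.1
  · by_cases hμ : μ = 0
    · have := congrArg (coeff μ) hz
      rw [map_sub, coeff_rho, coeff_C, if_pos hμ, coeff_pow_mul, hμ] at this
      have h0 : coeff 0 z = 0 := by
        refine PR.pow_cancel (p := p) (k := r) ?_
        rw [← this]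
        simp only [map_zero, zero_mul, pow_zero, one_mul, ev0_eq, sub_self, mul_zero]
      rw [hμ, h0]
      exact dvd_zero _
    · obtain ⟨c, hc'⟩ := hdeg μ hμ
      rw [hc μ c hc']
      exact (h.2 μ h1 h2).mul_left _

theorem vp_rho_le (r : ℕ) (F : RS p K I) (μ : I →₀ ℕ) :
    vp p (rho r F) ≤ vp p (coeff μ F) + μ.degree • (r : ℕ∞) := by
  refine (vp_le_coeff _ μ).trans (le_of_eq ?_)
  rw [vp_coeff_rho, add_comm]
  simp

theorem vp_rho_mono {r s : ℕ} (h : r ≤ s) (F : RS p K I) : vp p (rho r F) ≤ vp p (rho s F) := by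
  obtain ⟨c, rfl⟩ := Nat.exists_eq_add_of_le h
  rw [← rho_rho]
  exact vp_le_mapR _ _

theorem pow_dvd_rho {a : ℕ} {F : RS p K I} (h : (p : K) ^ a ∣ RS.ev0 F) :
    (p : RS p K I) ^ a ∣ RS.rho a F := by
  refine pow_dvd_iff.2 fun μ => ?_
  rw [coeff_rho]
  by_cases hμ : μ = 0
  · subst hμ; simpa only [map_zero, zero_mul, pow_zero, one_mul, ev0_eq] using h
  · have : 1 ≤ μ.degree := Nat.one_le_iff_ne_zero.2 (by simpa [Finsupp.degree_eq_zero_iff] using hμ)
    exact (pow_dvd_pow _ (Nat.le_mul_of_pos_left _ this)).mul_right _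

theorem rho_eq_zero {r : ℕ} {F : RS p K I} (h : rho r F = 0) : F = 0 := by
  ext μ
  have := congrArg (coeff μ) h
  rw [coeff_rho, map_zero] at this
  simpa only [map_zero] using PR.pow_reg _ _ this

theorem kill_rho_of {U : Set I} {F : RS p K I} (h : kill U F = F) (r : ℕ) :
    kill U (rho r F) = rho r F := by rw [kill_rho, h]

/-- Series whose coefficients lie in a `p`-saturated subring. -/
theorem mem_of_coeff {S : Subring K} (hS : ∀ x : K, (p : K) * x ∈ S → x ∈ S)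
    {T : Subring (RS p K I)} (hT : Closed p T) (hC : ∀ c ∈ S, C c ∈ T) (hX : ∀ i, X i ∈ T)
    (F : RS p K I) (hF : ∀ μ, coeff μ F ∈ S) : F ∈ T := by
  classical
  refine hT.iter (S := {F | ∀ μ, coeff μ F ∈ S}) (fun x hx => ?_) hF
  obtain ⟨q, hq, hq'⟩ := exists_approx x 1
  have hqS : ∀ μ, MvPolynomial.coeff μ q ∈ S := fun μ => by
    rw [hq']
    split_ifs
    · exact S.zero_mem
    · exact hx μ
  obtain ⟨y, hy⟩ : (p : RS p K I) ∣ x - ofPoly q := dvd_iff.2 fun μ => by simpa only [map_sub, coeff_ofPoly, pow_one] using hq μ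
  refine ⟨ofPoly q, ?_, y, fun μ => hS _ ?_, by rw [← hy]; ring⟩
  · rw [q.as_sum, map_sum]
    refine sum_mem fun μ _ => ?_
    rw [ofPoly_monomial]
    exact mul_mem (hC _ (hqS μ)) (prod_mem fun i _ => pow_mem (hX i) _)
  · rw [← coeff_p_mul, ← hy, map_sub, coeff_ofPoly]
    exact sub_mem (hx μ) (hqS μ)

end RS
end EN

end

-- part MP_646035_al.EN.RProv
section

/-! The two results of sections 1-2 used in section 3. -/

set_option autoImplicit false
open Filter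

namespace EN
variable {p : ℕ} {M : Type} {ω : Ultrafilter M} {K : Type} [CommRing K] {I : Type}

theorem chart' {O Θ : Type} [CommRing O] [DV p O] [LinearOrder Θ] [WellFoundedLT Θ]
    {VV : Set (Subring (M → O))} (hVV : Stable p ω (RingHom.id O) VV) {B : Subring (M → O)}
    (hB : B ∈ VV) (U : Set Θ) (r : M → ℕ) (u : Θ → M → O) (z : Θ → M → RS p O Θ) {A : Set M}
    (hA : A ∈ ω) (T : Set Θ) (hT : T.Finite) (hz : ∀ m ∈ A, ∀ t ∈ U, RS.Tri t (z t m))
    (hu : ∀ m ∈ A, ∀ t ∈ U, t ∉ T → (p : O) ^ (r m + 1) ∣ u t m) :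
    ∃ VV2, CStable p ω (RS.C : O →+* RS p O Θ) VV2 ∧ ∃ J ∈ VV2, SatOn J A ∧
      (∀ t ∈ U, (fun m => RS.C (u t m) + (p : RS p O Θ) ^ r m * z t m) ∈ J) ∧
      ∀ F : RS p B Θ, (∀ m ∈ A, RS.kill U (emb p B Θ F m) = emb p B Θ F m) →
        (fun m => RS.rho (r m) (emb p B Θ F m)) ∈ J := by
  obtain ⟨W, h1, J, h2, h3, h4, h5, -⟩ := chart hVV hB U r u z hA T hT hz hu
  exact ⟨W, h1, J, h2, h3, h4, h5⟩

theorem constFam' {O : Type} [CommRing O] [DV p O] :
    ∃ VV : Set (Subring (M → O)), Stable p ω (RingHom.id O) VV ∧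
      ∃ B ∈ VV, ∀ b : O, (fun _ => b) ∈ B :=
  ⟨_, stable_constFam, const_mem_constFam⟩

end EN

end

-- part MP_646035_al.EN.RFam
section

/-! Section 3: small facts on saturation, `emb` and stable families. -/

set_option autoImplicit false
open Filter

namespace EN.R
attribute [-simp] EN.emb_apply
variable {p : ℕ} {M : Type} {ω : Ultrafilter M} {K K' : Type} [CommRing K] [CommRing K'] {I : Type}

theorem satOn_mem {B : Subring (M → K)} {A : Set M} (h : SatOn B A) {N N' : M → K} (hN' : N' ∈ B)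
    (e : ∀ m ∈ A, N m = N' m) : N ∈ B := by
  have := B.add_mem (h (N - N') fun m hm => by simp [e m hm]) hN'
  simpa using this

theorem satOn_le {B B' : Subring (M → K)} {A : Set M} (h : SatOn B A) (hle : B ≤ B') :
    SatOn B' A := fun N hN => hle (h N hN)

theorem le_sat (A : Set M) (B : Subring (M → K)) : B ≤ Sat A B := fun N hN => ⟨N, hN, fun _ _ => rfl⟩

theorem satOn_sat (A : Set M) (B : Subring (M → K)) : SatOn (Sat A B) A :=
  fun _ hN => ⟨0, B.zero_mem, hN⟩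

theorem closed_sat [PR p K] (A : Set M) {B : Subring (M → K)} (hB : Closed p B) :
    Closed p (Sat A B) := by
  intro t s ht hs
  choose u hu e using ht
  obtain ⟨x, hx⟩ := PR.cpl (p := p) u
  refine ⟨x, hB u x hu hx, fun m hm => (pi_isSum.1 hs m).unique ?_⟩
  simpa only [e _ m hm] using pi_isSum.1 hx m

@[simp] theorem coeff_emb (B : Subring (M → K)) (F : RS p B I) (m : M) (μ : I →₀ ℕ) :
    RS.coeff μ (emb p B I F m) = (RS.coeff μ F : B).1 m := rfl

@[simp] theorem emb_C (B : Subring (M → K)) (b : B) (m : M) :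
    emb p B I (RS.C b) m = RS.C (b.1 m) := by rw [emb_apply, RS.map_C]; rfl

@[simp] theorem emb_X (B : Subring (M → K)) (i : I) (m : M) :
    emb p B I (RS.X i) m = RS.X i := by rw [emb_apply, RS.map_X]

theorem emb_incl {B B' : Subring (M → K)} (h : B ≤ B') (F : RS p B I) :
    emb p B' I (RS.map (Subring.inclusion h) F) = emb p B I F := rfl

theorem good_of_stable {O : Type} [CommRing O] {ι : O →+* K} {VV : Set (Subring (M → K))}
    (h : Stable p ω ι VV) {B : Subring (M → K)} (hB : B ∈ VV) : Good p ω B := fun a => by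
  obtain ⟨B', -, -, A, hA, H⟩ := h.q1 B hB a
  filter_upwards [hA] with m hm N hN hd
  obtain ⟨N', -, e⟩ := H N hN hd
  exact ⟨_, e m hm⟩

theorem good_mono {B B' : Subring (M → K)} (h : Good p ω B') (hle : B ≤ B') : Good p ω B :=
  fun a => (h a).mono fun _ hm N hN => hm N (hle hN)

theorem wf_mono {B B' : Subring (M → K)} (h : WF p ω B') (hle : B ≤ B') : WF p ω B :=
  fun g hg => h g fun i => Set.image_mono hle (hg i)

/-- germs of valuations -/
abbrev Gm (ω : Ultrafilter M) := Germ (ω : Filter M) ℕ∞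

/-- `v*` -/
noncomputable def vs (p : ℕ) (ω : Ultrafilter M) (N : M → K) : Gm ω := (vf p N : M → ℕ∞)

/-- a radius as a germ -/
def rad (ω : Ultrafilter M) (r : M → ℕ) : Gm ω := (fun m => (r m : ℕ∞) : M → ℕ∞)

theorem dv_iff_vs {a : M → ℕ} {N : M → K} : Dv p ω a N ↔ rad ω a ≤ vs p ω N :=
  dv_iff.trans Germ.coe_le.symm

theorem noDesc_iff {V : Set (M → ℕ∞)} :
    NoDesc ω V ↔ ((fun g : M → ℕ∞ => (g : Gm ω)) '' V).IsWF := by
  rw [Set.isWF_iff_no_descending_seq]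
  constructor
  · intro h f hf hm
    choose g hg e using hm
    refine h g hg fun i => Germ.coe_lt.1 ?_
    have := hf (Nat.lt_succ_self i)
    rwa [← e, ← e] at this
  · intro h g hg hd
    exact h (fun i => (g i : Gm ω)) (strictAnti_nat_of_succ_lt fun i => Germ.coe_lt.2 (hd i))
      fun i => ⟨g i, hg i, rfl⟩

theorem wf_iff {B : Subring (M → K)} : WF p ω B ↔ (vs p ω '' (B : Set (M → K))).IsWF := by
  rw [WF, noDesc_iff, Set.image_image]
  rfl

theorem cancel_of_ne_top {g : M → ℕ∞} (h : ∀ᶠ m in (ω : Filter M), g m ≠ ⊤) :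
    AddLECancellable (g : Gm ω) := by
  intro b c
  induction b using Germ.inductionOn with | h b => ?_
  induction c using Germ.inductionOn with | h c => ?_
  intro H
  rw [← Germ.coe_add, ← Germ.coe_add, Germ.coe_le] at H
  rw [Germ.coe_le]
  filter_upwards [h, H] with m h1 h2
  exact (ENat.addLECancellable_of_ne_top h1) h2

theorem ne_top_of_cancel {g : M → ℕ∞} (h : AddLECancellable (g : Gm ω)) :
    ∀ᶠ m in (ω : Filter M), g m ≠ ⊤ := by
  by_contra hc
  have h1 : ∀ᶠ m in (ω : Filter M), g m = ⊤ := by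
    simpa using Ultrafilter.eventually_not.2 hc
  have h2 : (g : Gm ω) + ((fun _ => 1 : M → ℕ∞) : Gm ω) ≤ g + ((fun _ => 0 : M → ℕ∞) : Gm ω) := by
    rw [← Germ.coe_add, ← Germ.coe_add, Germ.coe_le]
    filter_upwards [h1] with m hm
    simp [hm]
  obtain ⟨m, hm⟩ := (Germ.coe_le.1 (h h2)).exists
  simp at hm

theorem exists_of_finite {α : Type} {F : Set α} (hF : F.Finite) {P : α → M → Prop}
    (h : ∀ᶠ m in (ω : Filter M), ∃ a ∈ F, P a m) : ∃ a ∈ F, ∀ᶠ m in (ω : Filter M), P a m :=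
  (Ultrafilter.eventually_exists_mem_iff hF).1 h

end EN.R

end

-- part MP_646035_al.EN.RRank
section

/-! Orderly ranking of the derivative indices and Dickson's lemma (section 3 of the 646035 paper). -/

namespace H39R

/-- shifts `θ ↦ θ + e_i` on a linearly ordered index type, with the Dickson property in the form
used in the main step: every subset `U` is generated by finitely many of its elements, through words
which contain arbitrarily long runs of one letter for all but finitely many elements. -/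
structure Ranked (ι Θ : Type*) [LinearOrder Θ] where
  sh : ι → Θ → Θ
  mono : ∀ i, StrictMono (sh i)
  lt : ∀ i θ, θ < sh i θ
  dickson : ∀ U : Set Θ, ∃ (G : Finset Θ) (g : Θ → Θ) (w : Θ → List ι), (∀ θ ∈ G, θ ∈ U) ∧
    (∀ θ ∈ U, g θ ∈ G ∧ (w θ).foldr sh (g θ) = θ) ∧
    ∀ n : ℕ, {θ | θ ∈ U ∧ ¬ ∃ i l1 l2, w θ = l1 ++ List.replicate n i ++ l2}.Finite

/-- the standard index type `ℕ^d × κ` -/
abbrev Th (d : ℕ) (κ : Type*) := Lex (Lex (Fin d →₀ ℕ) × κ)

section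
variable {d : ℕ} {κ : Type*}

/-- constructor -/
def Th.mk (α : Fin d →₀ ℕ) (j : κ) : Th d κ := toLex (toLex α, j)
/-- the multi-index -/
def Th.idx (θ : Th d κ) : Fin d →₀ ℕ := ofLex (ofLex θ).1
/-- the letter -/
def Th.snd (θ : Th d κ) : κ := (ofLex θ).2

@[simp] theorem Th.idx_mk (α : Fin d →₀ ℕ) (j : κ) : (Th.mk α j).idx = α := rfl
@[simp] theorem Th.snd_mk (α : Fin d →₀ ℕ) (j : κ) : (Th.mk α j).snd = j := rfl
theorem Th.mk_eta (θ : Th d κ) : Th.mk θ.idx θ.snd = θ := rfl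

/-- the shift -/
noncomputable def Th.sh (i : Fin d) (θ : Th d κ) : Th d κ := Th.mk (θ.idx + Finsupp.single i 1) θ.snd

theorem Th.foldr_replicate (i : Fin d) (n : ℕ) (θ : Th d κ) :
    (List.replicate n i).foldr Th.sh θ = Th.mk (θ.idx + Finsupp.single i n) θ.snd := by
  induction n with
  | zero => simp [Th.mk_eta]
  | succ n ih =>
    rw [List.replicate_succ, List.foldr_cons, ih, Th.sh]
    simp [add_assoc, Finsupp.single_add]

theorem Th.foldr_flatMap (β : Fin d →₀ ℕ) (l : List (Fin d)) (θ : Th d κ) :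
    (l.flatMap fun i => List.replicate (β i) i).foldr Th.sh θ =
      Th.mk (θ.idx + (l.map fun i => Finsupp.single i (β i)).sum) θ.snd := by
  induction l with
  | nil => simp [Th.mk_eta]
  | cons a l ih =>
    rw [List.flatMap_cons, List.foldr_append, ih, Th.foldr_replicate]
    simp only [Th.idx_mk, Th.snd_mk, List.map_cons, List.sum_cons]
    congr 1
    abel

theorem sum_finRange_single (β : Fin d →₀ ℕ) :
    ((List.finRange d).map fun i => Finsupp.single i (β i)).sum = β := by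
  rw [← Fin.sum_univ_def]
  ext j
  simp only [Finsupp.univ_sum_single]

/-- the word of a multi-index -/
def word (β : Fin d →₀ ℕ) : List (Fin d) :=
  (List.finRange d).flatMap fun i => List.replicate (β i) i

theorem Th.foldr_word (β : Fin d →₀ ℕ) (θ : Th d κ) :
    (word β).foldr Th.sh θ = Th.mk (θ.idx + β) θ.snd := by
  rw [word, Th.foldr_flatMap, sum_finRange_single]

theorem word_run (β : Fin d →₀ ℕ) (n : ℕ) (i : Fin d) (h : n ≤ β i) :
    ∃ i l1 l2, word β = l1 ++ List.replicate n i ++ l2 := by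
  obtain ⟨s, t, hst⟩ := List.append_of_mem (List.mem_finRange i)
  obtain ⟨c, hc⟩ := Nat.exists_eq_add_of_le h
  refine ⟨i, s.flatMap fun i => List.replicate (β i) i,
    List.replicate c i ++ t.flatMap fun i => List.replicate (β i) i, ?_⟩
  rw [word, hst, List.flatMap_append, List.flatMap_cons, hc, List.replicate_add]
  simp only [List.append_assoc]

variable [LinearOrder κ]

theorem Th.mk_lt_mk {α β : Fin d →₀ ℕ} {j k : κ} :
    Th.mk α j < Th.mk β k ↔ toLex α < toLex β ∨ α = β ∧ j < k := by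
  unfold Th.mk
  rw [Prod.Lex.toLex_lt_toLex]
  simp

theorem Th.sh_strictMono (i : Fin d) : StrictMono (Th.sh i : Th d κ → Th d κ) := by
  intro a b hab
  rw [← a.mk_eta, ← b.mk_eta, Th.mk_lt_mk] at hab
  rw [Th.sh, Th.sh, Th.mk_lt_mk]
  rcases hab with h | ⟨h1, h2⟩
  · left
    rw [toLex_add, toLex_add]
    exact add_lt_add_left h _
  · right
    exact ⟨by rw [h1], h2⟩

theorem Th.lt_sh (i : Fin d) (θ : Th d κ) : θ < Th.sh i θ := by
  conv_lhs => rw [← θ.mk_eta]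
  rw [Th.sh, Th.mk_lt_mk]
  left
  apply Finsupp.toLex_monotone.strictMono_of_injective (toLex.injective)
  refine lt_of_le_of_ne le_self_add ?_
  intro h
  have := congrArg (fun f => f i) h
  simp at this

omit [LinearOrder κ] in
theorem Th.dickson [Finite κ] (U : Set (Th d κ)) :
    ∃ (G : Finset (Th d κ)) (g : Th d κ → Th d κ) (w : Th d κ → List (Fin d)), (∀ θ ∈ G, θ ∈ U) ∧
    (∀ θ ∈ U, g θ ∈ G ∧ (w θ).foldr Th.sh (g θ) = θ) ∧
    ∀ n : ℕ, {θ | θ ∈ U ∧ ¬ ∃ i l1 l2, w θ = l1 ++ List.replicate n i ++ l2}.Finite := by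
  classical
  let V : κ → Set (Fin d →₀ ℕ) := fun j => {α | Th.mk α j ∈ U}
  have hfin : ∀ j, {α | Minimal (· ∈ V j) α}.Finite := fun j =>
    WellQuasiOrderedLE.finite_of_isAntichain (setOfPred_minimal_antichain _)
  have hG : (⋃ j, (fun α => Th.mk α j) '' {α | Minimal (· ∈ V j) α}).Finite :=
    Set.finite_iUnion fun j => (hfin j).image _
  have hex : ∀ θ : Th d κ, ∃ γ : Fin d →₀ ℕ, θ ∈ U → γ ≤ θ.idx ∧ Minimal (· ∈ V θ.snd) γ := by
    intro θ
    by_cases h : θ ∈ U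
    · obtain ⟨γ, h1, h2⟩ := exists_minimal_le_of_wellFoundedLT (· ∈ V θ.snd) θ.idx h
      exact ⟨γ, fun _ => ⟨h1, h2⟩⟩
    · exact ⟨0, fun h' => absurd h' h⟩
  choose γ hγ using hex
  have hmem : ∀ θ ∈ U, Th.mk (γ θ) θ.snd ∈ hG.toFinset := fun θ hθ => by
    rw [Set.Finite.mem_toFinset]
    exact Set.mem_iUnion.2 ⟨θ.snd, γ θ, (hγ θ hθ).2, rfl⟩
  refine ⟨hG.toFinset, fun θ => Th.mk (γ θ) θ.snd, fun θ => word (θ.idx - γ θ), ?_, ?_, ?_⟩
  · intro θ hθ
    rw [Set.Finite.mem_toFinset] at hθ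
    obtain ⟨j, α, h1, rfl⟩ := Set.mem_iUnion.1 hθ
    exact h1.1
  · intro θ hθ
    refine ⟨hmem θ hθ, ?_⟩
    rw [Th.foldr_word, Th.idx_mk, Th.snd_mk, add_tsub_cancel_of_le (hγ θ hθ).1, Th.mk_eta]
  · intro n
    let top : Fin d →₀ ℕ := Finsupp.equivFunOnFinite.symm fun _ => n
    refine (((hG.prod (Set.finite_Iic top)).image
      fun x => Th.mk (x.1.idx + x.2) x.1.snd)).subset ?_
    rintro θ ⟨hθ, hn⟩
    refine ⟨(Th.mk (γ θ) θ.snd, θ.idx - γ θ), ⟨?_, ?_⟩, ?_⟩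
    · simpa only [Set.mem_iUnion, Set.mem_image, Set.mem_ofPred_eq, Set.Finite.mem_toFinset] using hmem θ hθ
    · intro i
      by_contra hc
      exact hn (word_run _ n i (le_of_not_ge hc))
    · simp only [Th.idx_mk, Th.snd_mk]
      rw [add_tsub_cancel_of_le (hγ θ hθ).1, Th.mk_eta]

/-- the standard ranking -/
noncomputable def Th.ranked (d : ℕ) (κ : Type*) [LinearOrder κ] [Finite κ] :
    Ranked (Fin d) (Th d κ) where
  sh := Th.sh
  mono := Th.sh_strictMono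
  lt := Th.lt_sh
  dickson := Th.dickson

example [Finite κ] : WellFoundedLT (Th d κ) := inferInstance

end

end H39R

end

-- part MP_646035_al.EN.RNice
section

/-! Section 3: the data, nice rings, (d), (tau), (fam), (R). -/

set_option autoImplicit false
set_option linter.unusedSectionVars false
open Filter

namespace EN.R
attribute [-simp] EN.emb_apply

/-- The data of Theorem R. -/
structure Ctx (p : ℕ) (O M ι Θ : Type) [CommRing O] [LinearOrder Θ] where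
  ω : Ultrafilter M
  rk : H39R.Ranked ι Θ
  δ : ι → O →+ O
  der : ∀ i, IsDer (δ i)
  small : ∀ i b, (p : O) ∣ δ i b
  J : Θ → M → O
  hJ : ∀ i θ m, δ i (J θ m) = J (rk.sh i θ) m

namespace Ctx
variable {p : ℕ} {O M ι Θ : Type} [CommRing O] [DV p O] [LinearOrder Θ] (c : Ctx p O M ι Θ)

/-- the derivations on `L = O<Θ>` -/
noncomputable def dL (i : ι) : RS p O Θ →+ RS p O Θ :=
  (RS.exists_der (c.der i) fun θ => RS.X (c.rk.sh i θ)).choose

theorem dL_der (i : ι) : IsDer (c.dL i) :=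
  (RS.exists_der (c.der i) fun θ => RS.X (c.rk.sh i θ)).choose_spec.1

@[simp] theorem dL_C (i : ι) (b : O) : c.dL i (RS.C b) = RS.C (c.δ i b) :=
  (RS.exists_der (c.der i) fun θ => RS.X (c.rk.sh i θ)).choose_spec.2.1 b

@[simp] theorem dL_X (i : ι) (θ : Θ) : c.dL i (RS.X θ) = RS.X (c.rk.sh i θ) :=
  (RS.exists_der (c.der i) fun θ => RS.X (c.rk.sh i θ)).choose_spec.2.2 θ

theorem ev0_dL (i : ι) (F : RS p O Θ) : RS.ev0 (c.dL i F) = c.δ i (RS.ev0 F) :=
  RS.ev0_der (c.der i) (c.dL_der i) (c.dL_C i) (fun θ => by simp) F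

theorem tri_dL (i : ι) {θ : Θ} {F : RS p O Θ} (h : RS.Tri θ F) :
    RS.Tri (c.rk.sh i θ) (c.dL i F) :=
  h.der (c.dL_der i) (fun b => by
    obtain ⟨y, hy⟩ := c.small i b
    rw [dL_C, hy, map_mul, map_natCast]
    exact dvd_mul_right _ _) (c.rk.mono i) (c.dL_X i)

theorem dL_pow (i : ι) (k : ℕ) : c.dL i ((p : RS p O Θ) ^ k) = 0 := by
  rw [← Nat.cast_pow, (c.dL_der i).natCast]

/-- the derivations on `M → L` -/
noncomputable def dP (i : ι) : (M → RS p O Θ) →+ (M → RS p O Θ) := (c.dL i).compLeft M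

@[simp] theorem dP_apply (i : ι) (N : M → RS p O Θ) (m : M) : c.dP i N m = c.dL i (N m) := rfl

theorem dP_der (i : ι) : IsDer (c.dP i) := fun x y => funext fun m => c.dL_der i (x m) (y m)

/-- `Y^f_θ` -/
noncomputable def Y (f : M → ℕ) (θ : Θ) : M → RS p O Θ :=
  fun m => RS.C (c.J θ m) + (p : RS p O Θ) ^ f m * RS.X θ

/-- generators of the base ring -/
def gens (f : M → ℕ) : Set (M → RS p O Θ) :=
  {N | (∃ b, N = fun _ => RS.C b) ∨ (∃ θ, N = c.Y f θ) ∨ N = fun m => (p : RS p O Θ) ^ f m}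

/-- `Base_f` -/
noncomputable def Base (f : M → ℕ) : Subring (M → RS p O Θ) := cl p (c.gens f)

theorem C_mem_base (f : M → ℕ) (b : O) : (fun _ => RS.C b) ∈ c.Base f := mem_cl (.inl ⟨b, rfl⟩)
theorem Y_mem_base (f : M → ℕ) (θ : Θ) : c.Y f θ ∈ c.Base f := mem_cl (.inr (.inl ⟨θ, rfl⟩))
theorem pw_mem_base (f : M → ℕ) : (fun m => (p : RS p O Θ) ^ f m) ∈ c.Base f :=
  mem_cl (.inr (.inr rfl))

theorem base_map {K : Type} [CommRing K] (f : M → ℕ) (h : (M → RS p O Θ) →+* K) {B : Subring K}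
    (hB : Closed p B) (h1 : ∀ b, h (fun _ => RS.C b) ∈ B) (h2 : ∀ θ, h (c.Y f θ) ∈ B)
    (h3 : h (fun m => (p : RS p O Θ) ^ f m) ∈ B) : ∀ N ∈ c.Base f, h N ∈ B := by
  refine fun N hN => cl_le (hB.comap h) ?_ hN
  rintro _ (⟨b, rfl⟩ | ⟨θ, rfl⟩ | rfl)
  exacts [h1 b, h2 θ, h3]

theorem base_le (f : M → ℕ) {B : Subring (M → RS p O Θ)}
    (hB : Closed p B) (h1 : ∀ b, (fun _ => RS.C b) ∈ B) (h2 : ∀ θ, c.Y f θ ∈ B)
    (h3 : (fun m => (p : RS p O Θ) ^ f m) ∈ B) : c.Base f ≤ B :=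
  c.base_map f (RingHom.id _) hB h1 h2 h3

/-- `τ N` is, on `S`, a restricted series with coefficients in `A` -/
def TauIn (A : Subring (M → RS p O Θ)) (S : Set M) (N : M → RS p O Θ) : Prop :=
  ∃ F : RS p A Θ, ∀ m ∈ S, emb p A Θ F m = RS.tau (N m)

/-- the elements with `TauIn` -/
noncomputable def tauRing (A : Subring (M → RS p O Θ)) (S : Set M) : Subring (M → RS p O Θ) :=
  (Sat S (emb p A Θ).range).comap (piHom fun _ => RS.tau)

theorem mem_tauRing {A : Subring (M → RS p O Θ)} {S : Set M} {N : M → RS p O Θ} :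
    N ∈ tauRing A S ↔ TauIn A S N :=
  ⟨fun ⟨_, ⟨F, rfl⟩, h⟩ => ⟨F, fun m hm => (h m hm).symm⟩,
    fun ⟨F, h⟩ => ⟨_, ⟨F, rfl⟩, fun m hm => (h m hm).symm⟩⟩

theorem closed_tauRing {A : Subring (M → RS p O Θ)} (hA : Closed p A) (S : Set M) :
    Closed p (tauRing A S) := by
  have := hA.pr
  exact (closed_sat S (closed_range _)).comap _

theorem TauIn.mono {A A' : Subring (M → RS p O Θ)} {S S' : Set M} {N : M → RS p O Θ}
    (h : TauIn A S N) (hA : A ≤ A') (hS : S' ⊆ S) : TauIn A' S' N := by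
  obtain ⟨F, hF⟩ := h
  exact ⟨RS.map (Subring.inclusion hA) F, fun m hm => by rw [emb_incl, hF m (hS hm)]⟩

/-- the universal property (R) -/
def Univ (f : M → ℕ) (A : Subring (M → RS p O Θ)) : Prop :=
  ∀ h : M → RS p O Θ →+* RS p O Θ, (∀ m b, h m (RS.C b) = RS.C b) →
    ∀ VV, CStable p c.ω (RS.C : O →+* RS p O Θ) VV → ∀ B ∈ VV,
      (∀ N ∈ c.Base f, piHom h N ∈ B) → ∃ B2 ∈ VV, B ≤ B2 ∧ ∀ N ∈ A, piHom h N ∈ B2

/-- nice rings at radius `f` -/
structure Nice (f : M → ℕ) (A : Subring (M → RS p O Θ)) : Prop where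
  closed : Closed p A
  base : c.Base f ≤ A
  dst : ∀ i, ∀ N ∈ A, c.dP i N ∈ A
  tst : ∃ S ∈ c.ω, ∀ N ∈ A, TauIn A S N
  univ : c.Univ f A

/-- `Ok(f)` -/
def Ok (f : M → ℕ) : Prop :=
  ∃ VV, CStable p c.ω (RS.C : O →+* RS p O Θ) VV ∧ ∃ B ∈ VV, c.Base f ≤ B

variable {c} {f : M → ℕ} {A : Subring (M → RS p O Θ)}

theorem Nice.le_mem (h : c.Nice f A) {VV : Set (Subring (M → RS p O Θ))}
    (hV : CStable p c.ω (RS.C : O →+* RS p O Θ) VV) {B : Subring (M → RS p O Θ)} (hB : B ∈ VV)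
    (hle : c.Base f ≤ B) : ∃ B2 ∈ VV, B ≤ B2 ∧ A ≤ B2 :=
  h.univ (fun _ => RingHom.id _) (fun _ _ => rfl) VV hV B hB hle

theorem Nice.good (h : c.Nice f A) (ho : c.Ok f) : Good p c.ω A := by
  obtain ⟨VV, hV, B, hB, hle⟩ := ho
  obtain ⟨B2, hB2, -, h2⟩ := h.le_mem hV hB hle
  exact good_mono (good_of_stable hV.toStable hB2) h2

theorem Nice.wf (h : c.Nice f A) (ho : c.Ok f) : WF p c.ω A := by
  obtain ⟨VV, hV, B, hB, hle⟩ := ho
  obtain ⟨B2, hB2, -, h2⟩ := h.le_mem hV hB hle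
  exact wf_mono (hV.wf B2 hB2) h2

theorem nice_base (f : M → ℕ) : c.Nice f (c.Base f) where
  closed := closed_cl _
  base := le_rfl
  dst i := by
    refine cl_der (c.dP_der i) (closed_cl _) (subset_cl _) ?_
    rintro _ (⟨b, rfl⟩ | ⟨θ, rfl⟩ | rfl)
    · convert c.C_mem_base f (c.δ i b) using 1
      ext1 m; simp
    · convert c.Y_mem_base f (c.rk.sh i θ) using 1
      ext1 m; simp only [dP_apply, Y, map_add, dL_C, c.hJ, addHom_pow_mul, dL_X]
    · convert (c.Base f).zero_mem using 1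
      ext1 m; simp only [dP_apply, dL_pow, Pi.zero_apply]
  tst := by
    refine ⟨Set.univ, univ_mem, fun N hN => mem_tauRing.1 ?_⟩
    refine c.base_le f (closed_tauRing (closed_cl _) _) (fun b => ?_) (fun θ => ?_) ?_ hN
    · exact mem_tauRing.2 ⟨RS.C ⟨_, c.C_mem_base f b⟩, fun m _ => by simp⟩
    · refine mem_tauRing.2 ⟨RS.C ⟨_, c.Y_mem_base f θ⟩ + RS.C ⟨_, c.pw_mem_base f⟩ * RS.X θ,
        fun m _ => ?_⟩
      simp only [map_add, map_mul, Pi.add_apply, emb_C, Y, map_pow, map_natCast, Pi.mul_apply, emb_X, RS.tau_C, RS.tau_X]; ring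
    · exact mem_tauRing.2 ⟨RS.C ⟨_, c.pw_mem_base f⟩, fun m _ => by simp only [emb_C, map_pow, map_natCast]⟩
  univ _ _ _ _ B hB h := ⟨B, hB, le_rfl, h⟩

theorem Nice.sat (h : c.Nice f A) {S : Set M} (hS : S ∈ c.ω) : c.Nice f (Sat S A) where
  closed := closed_sat S h.closed
  base := h.base.trans (le_sat S A)
  dst i := fun N ⟨N', hN', e⟩ => ⟨_, h.dst i N' hN', fun m hm => by simp [e m hm]⟩
  tst := by
    obtain ⟨S0, hS0, H⟩ := h.tst
    refine ⟨S0 ∩ S, inter_mem hS0 hS, fun N ⟨N', hN', e⟩ => ?_⟩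
    obtain ⟨F, hF⟩ := (H N' hN').mono (le_sat S A) (Set.inter_subset_left (t := S))
    exact ⟨F, fun m hm => by rw [hF m hm, e m hm.2]⟩
  univ g hg VV hV B hB hb := by
    obtain ⟨B2, hB2, h1, h2⟩ := h.univ g hg VV hV B hB hb
    obtain ⟨B3, hB3, h3, h4⟩ := hV.sat B2 hB2 S hS
    exact ⟨B3, hB3, h1.trans h3, fun N ⟨N', hN', e⟩ =>
      satOn_mem h4 (h3 (h2 N' hN')) fun m hm => by simp [e m hm]⟩

/-- adjoining elements -/
theorem Nice.adjoin (h : c.Nice f A) (D : Set (M → RS p O Θ))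
    (hd : ∀ i, ∀ N ∈ D, c.dP i N ∈ cl p (A ∪ D))
    (ht : ∃ S ∈ c.ω, ∀ N ∈ D, TauIn (cl p (A ∪ D)) S N)
    (hu : ∀ g : M → RS p O Θ →+* RS p O Θ, (∀ m b, g m (RS.C b) = RS.C b) →
      ∀ VV, CStable p c.ω (RS.C : O →+* RS p O Θ) VV → ∀ B ∈ VV, (∀ N ∈ A, piHom g N ∈ B) →
        ∃ B2 ∈ VV, B ≤ B2 ∧ ∀ N ∈ D, piHom g N ∈ B2) : c.Nice f (cl p (A ∪ D)) := by
  have hle : A ≤ cl p (A ∪ D) := fun N hN => mem_cl (.inl hN)
  refine ⟨closed_cl _, h.base.trans hle, fun i => ?_, ?_, fun g hg VV hV B hB hb => ?_⟩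
  · refine cl_der (c.dP_der i) (closed_cl _) (subset_cl _) ?_
    rintro N (hN | hN)
    exacts [hle (h.dst i N hN), hd i N hN]
  · obtain ⟨S0, hS0, H0⟩ := h.tst
    obtain ⟨S, hS, H⟩ := ht
    refine ⟨S0 ∩ S, inter_mem hS0 hS, fun N hN => mem_tauRing.1 ?_⟩
    refine cl_le (closed_tauRing (closed_cl _) _) ?_ hN
    rintro N (hN | hN)
    · exact mem_tauRing.2 ((H0 N hN).mono hle Set.inter_subset_left)
    · exact mem_tauRing.2 ((H N hN).mono le_rfl Set.inter_subset_right)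
  · obtain ⟨B2, hB2, h1, h2⟩ := h.univ g hg VV hV B hB hb
    obtain ⟨B3, hB3, h3, h4⟩ := hu g hg VV hV B2 hB2 h2
    refine ⟨B3, hB3, h1.trans h3, fun N hN => cl_le ((hV.closed B3 hB3).comap (piHom g)) ?_ hN⟩
    rintro N (hN | hN)
    exacts [h3 (h2 N hN), h4 N hN]

theorem Nice.cst (h : c.Nice f A) (a : M → ℕ) :
    ∃ A', c.Nice f A' ∧ A ≤ A' ∧ (fun m => (p : RS p O Θ) ^ a m) ∈ A' := by
  have hm : (fun m => (p : RS p O Θ) ^ a m) ∈ cl p (A ∪ {fun m => (p : RS p O Θ) ^ a m}) :=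
    mem_cl (.inr rfl)
  refine ⟨_, h.adjoin {fun m => (p : RS p O Θ) ^ a m} ?_ ?_ ?_, fun N hN => mem_cl (.inl hN), hm⟩
  · rintro i _ rfl
    convert Subring.zero_mem _ using 1
    ext1 m; simp only [dP_apply, dL_pow, Pi.zero_apply]
  · refine ⟨Set.univ, univ_mem, ?_⟩
    rintro _ rfl
    exact ⟨RS.C ⟨_, hm⟩, fun m _ => by simp only [emb_C, map_pow, map_natCast]⟩
  · intro g _ VV hV B hB _
    obtain ⟨B2, h1, h2, h3⟩ := hV.cst B hB a
    refine ⟨B2, h1, h2, ?_⟩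
    rintro _ rfl
    convert h3 using 1
    ext1 m; simp only [piHom_apply, map_pow, map_natCast]

theorem Nice.q1 (h : c.Nice f A) (ho : c.Ok f) (a : M → ℕ) :
    ∃ A', c.Nice f A' ∧ A ≤ A' ∧ ∃ S ∈ c.ω, SatOn A' S ∧ ∀ N ∈ A, Dv p c.ω a N →
      ∃ N' ∈ A', ∀ m ∈ S, N m = (p : RS p O Θ) ^ a m * N' m := by
  obtain ⟨S, hS, hSd⟩ : ∃ S ∈ c.ω, ∀ m ∈ S, ∀ N ∈ A, Dv p c.ω a N → (p : RS p O Θ) ^ a m ∣ N m :=
    ⟨_, h.good ho a, fun _ hm => hm⟩
  let D : Set (M → RS p O Θ) := {N' | ∃ N ∈ A, ∀ m ∈ S, N m = (p : RS p O Θ) ^ a m * N' m}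
  have hle : A ≤ cl p (A ∪ D) := fun N hN => mem_cl (.inl hN)
  have hsat : SatOn (cl p (A ∪ D)) S := fun N hN =>
    mem_cl (.inr ⟨0, A.zero_mem, fun m hm => by simp only [Pi.zero_apply, hN m hm, mul_zero]⟩)
  have hq : ∀ N ∈ A, Dv p c.ω a N →
      ∃ N' ∈ cl p (A ∪ D), ∀ m ∈ S, N m = (p : RS p O Θ) ^ a m * N' m := by
    intro N hN hd
    choose! N' hN' using fun m hm => hSd m hm N hN hd
    exact ⟨N', mem_cl (.inr ⟨N, hN, hN'⟩), hN'⟩
  refine ⟨_, h.adjoin D ?_ ?_ ?_, hle, S, hS, hsat, hq⟩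
  · rintro i N' ⟨N, hN, e⟩
    exact mem_cl (.inr ⟨_, h.dst i N hN, fun m hm => by simp only [dP_apply, e m hm, addHom_pow_mul]⟩)
  · obtain ⟨S0, hS0, H0⟩ := h.tst
    refine ⟨S0 ∩ S, inter_mem hS0 hS, ?_⟩
    rintro N' ⟨N, hN, e⟩
    obtain ⟨F, hF⟩ := H0 N hN
    have e2 : ∀ m ∈ S0 ∩ S, emb p A Θ F m = (p : RS p (RS p O Θ) Θ) ^ a m * RS.tau (N' m) :=
      fun m hm => by rw [hF m hm.1, e m hm.2]; simp only [map_mul, map_pow, map_natCast]
    obtain ⟨G, hG⟩ := wtrick (h.wf ho) hsat hq F fun μ => by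
      filter_upwards [inter_mem hS0 hS] with m hm
      rw [← coeff_emb, e2 m hm, RS.coeff_pow_mul]
      exact dvd_mul_right _ _
    exact ⟨G, fun m hm => PR.pow_cancel ((hG m hm.2).symm.trans (e2 m hm))⟩
  · intro g _ VV hV B hB hb
    obtain ⟨B2, h1, h2, S2, hS2, h3⟩ := hV.q1 B hB a
    obtain ⟨B3, h4, h5, h6⟩ := hV.sat B2 h1 _ (inter_mem hS hS2)
    refine ⟨B3, h4, h2.trans h5, ?_⟩
    rintro N' ⟨N, hN, e⟩
    have e2 : ∀ m ∈ S, piHom g N m = (p : RS p O Θ) ^ a m * piHom g N' m := fun m hm => by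
      simp only [piHom_apply, e m hm, map_mul, map_pow, map_natCast]
    obtain ⟨N2, h7, h8⟩ := h3 _ (hb N hN) (by
      filter_upwards [hS] with m hm using ⟨_, e2 m hm⟩)
    exact satOn_mem h6 (h5 h7) fun m hm => PR.pow_cancel ((e2 m hm.1).symm.trans (h8 m hm.2))

theorem Nice.q2 (h : c.Nice f A) (ho : c.Ok f) {N : M → RS p O Θ} (hN : N ∈ A)
    (hu : ∀ᶠ m in (c.ω : Filter M), Un p (RS.C : O →+* RS p O Θ) (N m)) :
    ∃ A', c.Nice f A' ∧ A ≤ A' ∧ ∃ N' ∈ A', ∀ᶠ m in (c.ω : Filter M), N m * N' m = 1 := by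
  classical
  obtain ⟨A1, h1, hle, S, hS, hsat, hq⟩ := h.q1 ho fun _ => 1
  obtain ⟨S0, hS0, H0⟩ := h.tst
  obtain ⟨F, hF⟩ := H0 N hN
  obtain ⟨G, hG⟩ := wtrick (h.wf ho) hsat hq
    (F - RS.C ⟨N, hN⟩) fun μ => by
      filter_upwards [hu, hS0] with m ⟨b, _, q, hq⟩ hm
      have e : N m = RS.C b + (p : RS p O Θ) * q := by rw [← hq]; ring
      have e2 : RS.tau (N m) - RS.C (N m) =
          (p : RS p (RS p O Θ) Θ) ^ 1 * (RS.tau q - RS.C q) := by
        rw [e]; simp only [map_add, RS.tau_C, map_mul, map_natCast, add_sub_add_left_eq_sub, pow_one]; ring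
      rw [← coeff_emb, map_sub, Pi.sub_apply, hF m hm, emb_C, e2, RS.coeff_pow_mul]
      exact dvd_mul_right _ _
  let N' : M → RS p O Θ := fun m => Ring.inverse (N m)
  have hinv : ∀ᶠ m in (c.ω : Filter M), N m * N' m = 1 :=
    hu.mono fun m hm => Ring.mul_inverse_cancel _ hm.isUnit
  have hle2 : A1 ≤ cl p (A1 ∪ {N'}) := fun N hN => mem_cl (.inl hN)
  have hm : N' ∈ cl p (A1 ∪ {N'}) := mem_cl (.inr rfl)
  refine ⟨_, h1.adjoin {N'} ?_ ?_ ?_, hle.trans hle2, N', hm, hinv⟩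
  · rintro i _ rfl
    convert Subring.neg_mem _ (Subring.mul_mem _ (Subring.pow_mem _ hm 2)
      (hle2 (hle (h.dst i N hN)))) using 1
    ext1 m
    by_cases hx : IsUnit (N m)
    · simpa using (c.dL_der i).inv (Ring.mul_inverse_cancel _ hx)
    · simp [N', Ring.inverse_non_unit _ hx]
  · refine ⟨_, inter_mem (inter_mem hS0 hS) hinv, ?_⟩
    rintro _ rfl
    have := (closed_cl (p := p) ((A1 : Set (M → RS p O Θ)) ∪ {N'})).pr
    obtain ⟨u, hu⟩ := (isUnit_one_add (p := p)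
      (RS.C ⟨N', hm⟩ * RS.map (Subring.inclusion hle2) G : RS p (cl p (A1 ∪ {N'})) Θ)).exists_right_inv
    refine ⟨RS.C ⟨N', hm⟩ * u, fun m ⟨⟨m0, m1⟩, m2⟩ => ?_⟩
    have a1 := congrFun (congrArg (emb p _ Θ) hu) m
    have a2 := hG m m1
    have a3 : RS.tau (N m) * RS.tau (N' m) = 1 := by rw [← map_mul, m2, map_one]
    have a4 : (RS.C (N m) : RS p (RS p O Θ) Θ) * RS.C (N' m) = 1 := by rw [← map_mul, m2, map_one]
    simp only [map_mul, map_add, map_one, map_natCast, Pi.mul_apply, Pi.add_apply, Pi.one_apply,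
      Pi.natCast_apply, emb_C, emb_incl, map_sub, Pi.sub_apply, hF m m0, pow_one] at a1 a2 ⊢
    generalize emb p _ Θ u m = U at a1 ⊢
    generalize emb p A1 Θ G m = g at a1 a2
    linear_combination RS.tau (N' m) * a1 + RS.tau (N' m) * RS.C (N' m) * U * a2
      + RS.tau (N' m) * U * a4 - RS.C (N' m) * U * a3
  · intro g hg VV hV B hB hb
    obtain ⟨B2, a1, a2, N2, a3, a4⟩ := hV.q2 B hB _ (hb N (hle hN))
      (hu.mono fun m hm => hm.map (g m) (RingHom.ext (hg m)))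
    obtain ⟨B3, a5, a6, a7⟩ := hV.sat B2 a1 _ (inter_mem a4 hinv)
    refine ⟨B3, a5, a2.trans a6, ?_⟩
    rintro _ rfl
    refine satOn_mem a7 (a6 a3) fun m ⟨m1, m2⟩ => ?_
    have b1 : g m (N m) * g m (N' m) = 1 := by rw [← map_mul, m2, map_one]
    have b2 : g m (N m) * N2 m = 1 := m1
    change g m (N' m) = N2 m
    linear_combination N2 m * b1 - g m (N' m) * b2

/-- (fam) -/
theorem cstable_nice (ho : c.Ok f) : CStable p c.ω (RS.C : O →+* RS p O Θ) {A | c.Nice f A} where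
  closed _ h := h.closed
  wf _ h := h.wf ho
  sat A h S hS := ⟨_, h.sat hS, le_sat S A, satOn_sat S A⟩
  q1 _ h a := by
    obtain ⟨A', h1, h2, S, hS, -, h3⟩ := h.q1 ho a
    exact ⟨A', h1, h2, S, hS, h3⟩
  q2 _ h _ hN hu := h.q2 ho hN hu
  cst _ h a := h.cst a

theorem Nice.dir (h : c.Nice f A) (ho : c.Ok f) {A' : Subring (M → RS p O Θ)}
    (h' : c.Nice f A') : ∃ B, c.Nice f B ∧ A' ≤ B ∧ A ≤ B :=
  h.le_mem (cstable_nice ho) h' h'.base

theorem rho_Y (f r : M → ℕ) (θ : Θ) :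
    piHom (fun m => RS.rho (r m)) (c.Y f θ) = c.Y (f + r) θ := by
  ext1 m; simp only [piHom_apply, Y, map_add, RS.rho_C, map_mul, map_pow, map_natCast, RS.rho_X, Pi.add_apply, pow_add, mul_assoc]

/-- replay along `ρ_r` -/
theorem Nice.rho (h : c.Nice f A) {r : M → ℕ} (ho : c.Ok (f + r)) :
    ∃ A', c.Nice (f + r) A' ∧ ∀ N ∈ A, piHom (fun m => RS.rho (r m)) N ∈ A' := by
  obtain ⟨B, h1, h2, h3⟩ := (nice_base (c := c) (f + r)).cst f
  obtain ⟨B2, h4, -, h5⟩ := h.univ (fun m => RS.rho (r m)) (fun _ _ => by simp) _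
    (cstable_nice ho) B h1 (c.base_map f _ h1.closed
      (fun b => by convert h2 (c.C_mem_base _ b) using 1; ext1 m; simp)
      (fun θ => by rw [rho_Y]; exact h2 (c.Y_mem_base _ θ))
      (by convert h3 using 1; ext1 m; simp only [piHom_apply, map_pow, map_natCast]))
  exact ⟨B2, h4, h5⟩

theorem Ok.congr {f' : M → ℕ} (ho : c.Ok f) (e : ∀ᶠ m in (c.ω : Filter M), f' m = f m) :
    c.Ok f' := by
  obtain ⟨VV, hV, B, hB, hle⟩ := ho
  obtain ⟨B', h1, h2, h3⟩ := hV.sat B hB _ e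
  refine ⟨VV, hV, B', h1, c.base_le f' (hV.closed _ h1) (fun b => h2 (hle (c.C_mem_base f b)))
    (fun θ => satOn_mem h3 (h2 (hle (c.Y_mem_base f θ))) fun m hm => ?_)
    (satOn_mem h3 (h2 (hle (c.pw_mem_base f))) fun m hm => ?_)⟩
  · simp only [Y]; rw [hm]
  · rw [hm]

end Ctx
end EN.R

end

-- part MP_646035_al.EN.RVal
section

/-! Section 3: radii, the values `v_r`, facts (c), (s), `z`-functions. -/

set_option autoImplicit false
set_option linter.unusedSectionVars false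
open Filter

namespace EN.R
attribute [-simp] EN.emb_apply

section
variable {p : ℕ} {M : Type} {ω : Ultrafilter M} {K : Type} [CommRing K] [PR p K] {I : Type}

/-- `ρ_r` on families -/
noncomputable def rhoP (r : M → ℕ) : (M → RS p K I) →+* (M → RS p K I) :=
  piHom fun m => RS.rho (r m)

@[simp] theorem rhoP_apply (r : M → ℕ) (N : M → RS p K I) (m : M) :
    rhoP r N m = RS.rho (r m) (N m) := rfl

/-- `v_r(N)` -/
noncomputable def vr (ω : Ultrafilter M) (r : M → ℕ) (N : M → RS p K I) : Gm ω := vs p ω (rhoP r N)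

/-- `v*(a_μ(N))` -/
noncomputable def sg (ω : Ultrafilter M) (N : M → RS p K I) (μ : I →₀ ℕ) : Gm ω :=
  vs p ω fun m => RS.coeff μ (N m)

theorem rad_add (r s : M → ℕ) : rad ω (r + s) = rad ω r + rad ω s := by
  rw [rad, rad, rad, ← Germ.coe_add]
  congr 1

theorem rad_zero : rad ω 0 = 0 := rfl

theorem rad_le {r s : M → ℕ} : rad ω r ≤ rad ω s ↔ ∀ᶠ m in (ω : Filter M), r m ≤ s m := by
  rw [rad, rad, Germ.coe_le]
  simp [EventuallyLE]

theorem rad_cancel (r : M → ℕ) : AddLECancellable (rad ω r) :=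
  cancel_of_ne_top (Eventually.of_forall fun _ => ENat.natCast_ne_top _)

theorem add_rad_eq (g : M → ℕ∞) (n : ℕ) (r : M → ℕ) :
    (g : Gm ω) + n • rad ω r = ((fun m => g m + n • (r m : ℕ∞) : M → ℕ∞) : Gm ω) := by
  rw [rad, ← Germ.coe_smul, ← Germ.coe_add]
  rfl

theorem vr_le (r : M → ℕ) (N : M → RS p K I) (μ : I →₀ ℕ) :
    vr ω r N ≤ sg ω N μ + μ.degree • rad ω r := by
  rw [sg, vs, add_rad_eq]
  exact Germ.coe_le.2 (Eventually.of_forall fun m => RS.vp_rho_le _ _ _)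

theorem vr_le_zero (r : M → ℕ) (N : M → RS p K I) : vr ω r N ≤ sg ω N 0 := by
  simpa using vr_le (ω := ω) r N 0

theorem vr_mono {r s : M → ℕ} (h : rad ω r ≤ rad ω s) (N : M → RS p K I) :
    vr ω r N ≤ vr ω s N :=
  Germ.coe_le.2 ((rad_le.1 h).mono fun _ hm => RS.vp_rho_mono hm _)

theorem vr_cancel {N : M → RS p K I} (h : ∀ᶠ m in (ω : Filter M), N m ≠ 0) (r : M → ℕ) :
    AddLECancellable (vr ω r N) :=
  cancel_of_ne_top (h.mono fun _ hm h' => hm (RS.rho_eq_zero (vp_eq_top_iff.1 h')))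

/-- `z`-functions -/
def Zf (ω : Ultrafilter M) (U : Set I) (N : M → RS p K I) : Prop :=
  ∀ᶠ m in (ω : Filter M), RS.kill U (N m) = N m

/-- the ring of `z`-functions in `A` -/
noncomputable def zRing (ω : Ultrafilter M) (U : Set I) (A : Subring (M → RS p K I)) :
    Subring (M → RS p K I) where
  carrier := {N | N ∈ A ∧ Zf ω U N}
  mul_mem' := fun ⟨h1, h2⟩ ⟨h3, h4⟩ => ⟨A.mul_mem h1 h3, by
    filter_upwards [h2, h4] with m a b
    simp [a, b]⟩
  one_mem' := ⟨A.one_mem, Eventually.of_forall fun m => by simp⟩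
  add_mem' := fun ⟨h1, h2⟩ ⟨h3, h4⟩ => ⟨A.add_mem h1 h3, by
    filter_upwards [h2, h4] with m a b
    simp only [Pi.add_apply, map_add, a, b]⟩
  zero_mem' := ⟨A.zero_mem, Eventually.of_forall fun m => by simp⟩
  neg_mem' := fun ⟨h1, h2⟩ => ⟨A.neg_mem h1, by
    filter_upwards [h2] with m a
    simp only [Pi.neg_apply, map_neg, a]⟩

theorem Zf.rho {U : Set I} {N : M → RS p K I} (h : Zf ω U N) (r : M → ℕ) : Zf ω U (rhoP r N) :=
  h.mono fun _ hm => RS.kill_rho_of hm _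

end

namespace Ctx
variable {p : ℕ} {O M ι Θ : Type} [CommRing O] [DV p O] [LinearOrder Θ] (c : Ctx p O M ι Θ)

/-- the set `P'` of radii -/
def PP (f : M → ℕ) : Prop :=
  ∀ (k : ℕ) (g : M → ℕ), (∀ᶠ m in (c.ω : Filter M), g m ≤ f m + k) → c.Ok g

variable {c} {f : M → ℕ} {A : Subring (M → RS p O Θ)}

theorem PP.ok (h : c.PP f) : c.Ok f := h 0 f (Eventually.of_forall fun _ => le_rfl)

theorem PP.of_le (h : c.PP f) {g : M → ℕ} (k : ℕ) (H : ∀ᶠ m in (c.ω : Filter M), g m ≤ f m + k) :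
    c.PP g := fun j g' hg => h (k + j) g' (by
  filter_upwards [H, hg] with m a b
  omega)

theorem PP.sup (h : c.PP f) {g : M → ℕ} (h' : c.PP g) : c.PP (f ⊔ g) := by
  rcases ae_le_total (ω := c.ω) f g with H | H
  · exact h'.of_le 0 (H.mono fun m hm => by simp [hm])
  · exact h.of_le 0 (H.mono fun m hm => by simp [hm])

theorem Nice.coeff_tau (h : c.Nice f A) {N : M → RS p O Θ} (hN : N ∈ A) (μ : Θ →₀ ℕ) :
    ∃ N' ∈ A, ∀ᶠ m in (c.ω : Filter M), N' m = RS.coeff μ (RS.tau (N m)) := by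
  obtain ⟨S, hS, H⟩ := h.tst
  obtain ⟨F, hF⟩ := H N hN
  refine ⟨_, (RS.coeff μ F).2, ?_⟩
  filter_upwards [hS] with m hm
  rw [← hF m hm, coeff_emb]

theorem Nice.fin_supp (h : c.Nice f A) {N : M → RS p O Θ} (hN : N ∈ A) :
    ∃ T : Set (Θ →₀ ℕ), T.Finite ∧
      ∀ᶠ m in (c.ω : Filter M), ∀ μ, μ ∉ T → (p : O) ∣ RS.coeff μ (N m) := by
  obtain ⟨S, hS, H⟩ := h.tst
  obtain ⟨F, hF⟩ := H N hN
  refine ⟨_, RS.decay F 1, ?_⟩
  filter_upwards [hS] with m hm μ hμ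
  have h1 := ringHom_dvd ((RS.ev0 : RS p O Θ →+* O).comp (evm A m)) (not_not.1 hμ)
  rwa [RingHom.comp_apply, evm_apply, ← coeff_emb, hF m hm, RS.ev0_coeff_tau, pow_one] at h1

/-- (c) -/
theorem Nice.vr_wf (h : c.Nice f A) {r : M → ℕ} (ho : c.Ok (f + r)) :
    (vr c.ω r '' (A : Set (M → RS p O Θ))).IsWF := by
  obtain ⟨A', h1, h2⟩ := h.rho ho
  refine (wf_iff.1 (h1.wf ho)).mono ?_
  rintro _ ⟨N, hN, rfl⟩
  exact ⟨_, h2 N hN, rfl⟩

theorem Nice.exists_div (h : c.Nice f A) {r : M → ℕ} (ho : c.Ok (f + r)) {N : M → RS p O Θ}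
    (hN : N ∈ A) {g : M → ℕ} (hg : Dv p c.ω g (rhoP r N)) :
    ∃ A', c.Nice (f + r) A' ∧ ∃ E ∈ A', ∀ᶠ m in (c.ω : Filter M),
      RS.rho (r m) (N m) = (p : RS p O Θ) ^ g m * E m := by
  obtain ⟨A1, h1, h2⟩ := h.rho ho
  obtain ⟨A2, h3, -, S, hS, -, h4⟩ := h1.q1 ho g
  obtain ⟨E, h5, h6⟩ := h4 _ (h2 N hN) hg
  exact ⟨A2, h3, E, h5, mem_of_superset hS h6⟩

theorem Nice.exists_prim (h : c.Nice f A) {r : M → ℕ} (ho : c.Ok (f + r)) {N : M → RS p O Θ}
    (hN : N ∈ A) (h0 : ∀ᶠ m in (c.ω : Filter M), N m ≠ 0) :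
    ∃ A', c.Nice (f + r) A' ∧ ∃ E ∈ A', ∃ g : M → ℕ, vr c.ω r N = rad c.ω g ∧
      ∀ᶠ m in (c.ω : Filter M),
        RS.rho (r m) (N m) = (p : RS p O Θ) ^ g m * E m ∧ ¬ (p : RS p O Θ) ∣ E m := by
  obtain ⟨g, hg⟩ := exists_nat_rep (ne_top_of_cancel (vr_cancel h0 r))
  obtain ⟨A', h1, E, h2, h3⟩ := h.exists_div ho hN (g := g)
    (dv_iff.2 (hg.mono fun m hm => le_of_eq hm.symm))
  refine ⟨A', h1, E, h2, g, Germ.coe_eq.2 hg, ?_⟩
  filter_upwards [hg, h3] with m a b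
  refine ⟨b, fun hd => ?_⟩
  have h4 : (g m : ℕ∞) < vp p (RS.rho (r m) (N m)) := by
    rw [lt_vp_iff, b, PR.dvd_cancel, pow_one]; exact hd
  exact h4.ne' a

/-- (s) -/
theorem Nice.std (h : c.Nice f A) {r : M → ℕ} (ho : c.Ok (f + r)) {N : M → RS p O Θ}
    (hN : N ∈ A) (h0 : ∀ᶠ m in (c.ω : Filter M), N m ≠ 0) :
    ∃ μ, vr c.ω r N = sg c.ω N μ + μ.degree • rad c.ω r := by
  obtain ⟨A', h1, E, h2, g, h3, h4⟩ := h.exists_prim ho hN h0
  obtain ⟨T, hT, h5⟩ := h1.fin_supp h2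
  obtain ⟨μ, -, h6⟩ := exists_of_finite (ω := c.ω) hT
    (P := fun μ m => ¬ (p : O) ∣ RS.coeff μ (E m)) (by
      filter_upwards [h4, h5] with m a b
      by_contra hc
      refine a.2 (RS.dvd_iff.2 fun μ => ?_)
      by_contra hd
      exact hc ⟨μ, by_contra fun hμ => hd (b μ hμ), hd⟩)
  refine ⟨μ, ?_⟩
  rw [h3, sg, vs, add_rad_eq, rad, Germ.coe_eq]
  filter_upwards [h4, h6] with m a b
  have e := RS.vp_coeff_rho (r m) (N m) μ
  rw [a.1, RS.coeff_pow_mul, vp_pow_mul, vp_eq_zero_iff.2 b, add_zero] at e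
  rw [e, add_comm]
  simp [vf]

theorem Nice.zf_unif (h : c.Nice f A) (ho : c.Ok f) (U : Set Θ) :
    ∀ᶠ m in (c.ω : Filter M), ∀ N ∈ A, Zf c.ω U N → RS.kill U (N m) = N m := by
  obtain ⟨S, hS, H⟩ := h.tst
  filter_upwards [hS, (h.good ho).vanish] with m hm hv N hN hz
  obtain ⟨F, hF⟩ := H N hN
  refine RS.kill_eq_iff.2 fun μ hμ => ?_
  have h1 := hv _ (RS.coeff μ F).2 (by
    filter_upwards [hS, hz] with m' a b
    rw [← coeff_emb, hF m' a, RS.coeff_tau_eq_zero b hμ])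
  rw [← RS.ev0_coeff_tau, ← hF m hm, coeff_emb, h1, map_zero]

theorem Nice.closed_zRing (h : c.Nice f A) (ho : c.Ok f) (U : Set Θ) :
    Closed p (zRing c.ω U A) := fun t s ht hs => ⟨h.closed t s (fun i => (ht i).1) hs, by
  filter_upwards [h.zf_unif ho U] with m hm
  exact closed_eqLocus (RS.kill U) (RingHom.id _) _ _ (fun i => hm _ (ht i).1 (ht i).2)
    (pi_isSum.1 hs m)⟩

theorem Nice.coeff_tau_z (h : c.Nice f A) {U : Set Θ} {N : M → RS p O Θ} (hN : N ∈ zRing c.ω U A)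
    (μ : Θ →₀ ℕ) :
    ∃ N' ∈ zRing c.ω U A, ∀ᶠ m in (c.ω : Filter M), N' m = RS.coeff μ (RS.tau (N m)) := by
  obtain ⟨N', h1, h2⟩ := h.coeff_tau hN.1 μ
  refine ⟨N', ⟨h1, ?_⟩, h2⟩
  filter_upwards [h2, hN.2] with m a b
  rw [a, RS.kill_coeff_tau b]

end Ctx
end EN.R

end

-- part MP_646035_al.EN.RDom
section

/-! Order-theoretic core of (K), (Wb), (St) of part A, section 3 (helper7, referee check). -/

namespace H7Ref

open Filter

section
variable {G A Mon : Type} [LinearOrder G] [AddCommMonoid G] [IsOrderedAddMonoid G]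
  [CanonicallyOrderedAdd G]

/-- From some radius in `R` on, the monomial `mu` attains the minimum. -/
def Dom (R : Set G) (deg : Mon → ℕ) (sg : A → Mon → G) (v : A → G → G) (N : A) (mu : Mon) : Prop :=
  ∃ r₁ ∈ R, ∀ r ∈ R, r₁ ≤ r → v N r = sg N mu + deg mu • r

variable {R : Set G} {deg : Mon → ℕ} {sg : A → Mon → G} {v : A → G → G}

theorem dom_exists (h1 : ∀ N mu, ∀ r ∈ R, v N r ≤ sg N mu + deg mu • r) (hne : R.Nonempty) {N : A}
    (hs : ∀ r ∈ R, ∃ mu, v N r = sg N mu + deg mu • r) : ∃ mu, Dom R deg sg v N mu := by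
  classical
  have hex : ∃ n, ∃ r ∈ R, ∃ mu, deg mu = n ∧ v N r = sg N mu + deg mu • r := by
    obtain ⟨r, hr⟩ := hne
    obtain ⟨mu, h⟩ := hs r hr
    exact ⟨_, r, hr, mu, rfl, h⟩
  obtain ⟨r₁, hr₁, mu, hn, h⟩ := Nat.find_spec hex
  refine ⟨mu, r₁, hr₁, fun r hr hle => le_antisymm (h1 N mu r hr) ?_⟩
  obtain ⟨nu, hnu⟩ := hs r hr
  have hd : deg mu ≤ deg nu := hn ▸ Nat.find_min' hex ⟨r, hr, nu, rfl, hnu⟩
  obtain ⟨t, rfl⟩ := exists_add_of_le hle
  rw [hnu, nsmul_add, nsmul_add, ← add_assoc, ← add_assoc, ← h]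
  exact add_le_add (h1 N nu r₁ hr₁) (nsmul_le_nsmul_left (zero_le (a := t)) hd)

/-- The reduction to degree one in (K). `o` is the radius one, `Nz` the elements that are not zero
almost everywhere, `z` the constant monomial. -/
theorem dom_degree_one {o : G} {z : Mon} {Nz : Set A} (hz : ∀ mu, deg mu = 0 → mu = z)
    (hz0 : deg z = 0) (ho : 0 < o) (hR : ∀ r ∈ R, r + o ∈ R) (hne : R.Nonempty)
    (hc : ∀ r ∈ R, AddLECancellable r) (hv : ∀ N ∈ Nz, ∀ r ∈ R, AddLECancellable (v N r))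
    (h1 : ∀ N mu, ∀ r ∈ R, v N r ≤ sg N mu + deg mu • r)
    (hs : ∀ N ∈ Nz, ∀ r ∈ R, ∃ mu, v N r = sg N mu + deg mu • r)
    (hD : ∀ N ∈ Nz, ∀ mu, 2 ≤ deg mu → AddLECancellable (sg N mu) → ∃ N' ∈ Nz, ∃ (s : ℕ) (mu₀ : Mon)
      (sh : Mon → Mon), deg mu₀ + 1 = deg mu ∧ sg N' mu₀ ≤ sg N mu + s • o ∧
        (∀ nu, deg (sh nu) = deg nu + 1 ∧ sg N (sh nu) ≤ sg N' nu))
    {N : A} (hN : N ∈ Nz) (hbad : ¬ Dom R deg sg v N z) :
    ∃ N ∈ Nz, ∃ mu, deg mu = 1 ∧ Dom R deg sg v N mu ∧ ¬ Dom R deg sg v N z := by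
  classical
  have hRs : ∀ r ∈ R, ∀ s : ℕ, r + s • o ∈ R := fun r hr s => by
    induction s with
    | zero => simpa using hr
    | succ s ih => rw [succ_nsmul, ← add_assoc]; exact hR _ ih
  have hex : ∃ n, ∃ N ∈ Nz, ∃ mu, deg mu = n ∧ Dom R deg sg v N mu ∧ ¬ Dom R deg sg v N z := by
    obtain ⟨mu, h⟩ := dom_exists h1 hne (hs N hN)
    exact ⟨_, N, hN, mu, rfl, h, hbad⟩
  obtain ⟨N, hN, mu, hn, hd, hb⟩ := Nat.find_spec hex
  have hmin := fun m => Nat.find_min' hex (m := m)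
  rw [← hn] at hmin
  by_cases h2 : 2 ≤ deg mu
  swap
  · have h0 : deg mu ≠ 0 := fun h => hb (hz mu h ▸ hd)
    exact ⟨N, hN, mu, by omega, hd, hb⟩
  exfalso
  obtain ⟨r₁, hr₁, hd⟩ := hd
  have hfin : AddLECancellable (sg N mu) := by
    have := hv N hN r₁ hr₁
    rw [hd r₁ hr₁ le_rfl] at this
    exact this.of_add_left
  obtain ⟨N', hN', s, mu₀, sh, hm₀, hs₀, hsh⟩ := hD N hN mu h2 hfin
  obtain ⟨mu', r₂, hr₂, hd'⟩ := dom_exists h1 hne (hs N' hN')
  have hmax : ∀ {a b : G}, a ∈ R → b ∈ R → max a b ∈ R := fun {a b} ha hb => by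
    rcases le_total a b with h | h
    · rwa [max_eq_right h]
    · rwa [max_eq_left h]
  have hlt : deg mu' < deg mu := by
    by_contra hge
    rw [not_lt] at hge
    have hr : max r₂ (r₁ + (s + 1) • o) ∈ R := hmax hr₂ (hRs _ hr₁ _)
    obtain ⟨u, hu⟩ := exists_add_of_le (le_max_right r₂ (r₁ + (s + 1) • o))
    have hr2 := le_max_left r₂ (r₁ + (s + 1) • o)
    generalize max r₂ (r₁ + (s + 1) • o) = r at hr hu hr2
    obtain ⟨t, ht⟩ : ∃ t, t = (s + 1) • o + u := ⟨_, rfl⟩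
    have hrt : r = r₁ + t := by rw [hu, ht, add_assoc]
    have htc : AddLECancellable t := by
      have := hc r hr
      rw [hrt] at this
      exact this.of_add_right
    have a1 : v N r₁ + (deg mu • t + t) ≤ v N' r + r := by
      calc v N r₁ + (deg mu • t + t) ≤ (sg N (sh mu') + deg (sh mu') • r₁) + (deg mu' • t + t) :=
            add_le_add (h1 N _ r₁ hr₁)
              (add_le_add_left (nsmul_le_nsmul_left (zero_le (a := t)) hge) _)
        _ = sg N (sh mu') + (deg mu' • r + r) := by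
            rw [(hsh mu').1, hrt, succ_nsmul, nsmul_add]; abel
        _ ≤ sg N' mu' + (deg mu' • r + r) := add_le_add_left (hsh mu').2 _
        _ = v N' r + r := by rw [hd' r hr hr2, add_assoc]
    have a2 : v N' r + r ≤ v N r₁ + (deg mu • t + s • o) := by
      calc v N' r + r ≤ (sg N mu + s • o + deg mu₀ • r) + r :=
            add_le_add_left ((h1 N' mu₀ r hr).trans (add_le_add_left hs₀ _)) _
        _ = sg N mu + deg mu • r + s • o := by rw [← hm₀, succ_nsmul]; abel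
        _ = _ := by rw [hd r₁ hr₁ le_rfl, hrt, nsmul_add]; abel
    have hns : ∀ n : ℕ, AddLECancellable (n • t) := fun n => by
      induction n with
      | zero => simp
      | succ n ih => rw [succ_nsmul]; exact ih.add htc
    have a3 : t ≤ s • o := hns _ (hv N hN r₁ hr₁ (a1.trans a2))
    have a4 : s • o + o ≤ s • o + 0 := by
      rw [add_zero, ← succ_nsmul]
      exact le_self_add.trans (ht ▸ a3)
    have hso : AddLECancellable (s • o) := by
      have := htc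
      rw [ht, succ_nsmul, add_assoc] at this
      exact this.of_add_left
    exact absurd (hso a4) (not_le.2 ho)
  have hz' : Dom R deg sg v N' z := by
    by_contra hb'
    exact absurd (hmin _ ⟨N', hN', mu', rfl, ⟨r₂, hr₂, hd'⟩, hb'⟩) (not_le.2 hlt)
  obtain ⟨r₃, hr₃, hd₃⟩ := hz'
  have hr₀ : max r₁ r₃ ∈ R := hmax hr₁ hr₃
  have key : Dom R deg sg v N (sh z) := by
    refine ⟨_, hRs _ hr₀ s, fun r hr hle => le_antisymm (h1 N _ r hr) ?_⟩
    obtain ⟨k, hk⟩ : ∃ k, deg mu₀ = k + 1 := ⟨deg mu₀ - 1, by omega⟩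
    have b1 : sg N (sh z) ≤ sg N mu + s • o + deg mu₀ • max r₁ r₃ := by
      have := hd₃ _ hr₀ (le_max_right _ _)
      rw [hz0, zero_nsmul, add_zero] at this
      exact (hsh z).2.trans (this ▸ (h1 N' mu₀ _ hr₀).trans (add_le_add_left hs₀ _))
    have b2 : s • o + deg mu₀ • max r₁ r₃ ≤ deg mu₀ • r := by
      rw [hk, succ_nsmul, succ_nsmul, add_comm, add_assoc]
      exact add_le_add (nsmul_le_nsmul_right (le_self_add.trans hle) _) hle
    rw [hd r hr ((le_max_left _ _).trans (le_self_add.trans hle)), (hsh z).1, hz0, ← hm₀,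
      zero_add, one_nsmul, succ_nsmul, ← add_assoc]
    exact add_le_add_left (b1.trans (by rw [add_assoc]; exact add_le_add_right b2 _)) _
  have := hmin _ ⟨N, hN, sh z, rfl, key, hb⟩
  rw [(hsh z).1, hz0] at this
  omega

end

end H7Ref

end

-- part MP_646035_al.EN.RK
section

/-! Section 3: admissible elements and (K). -/

set_option autoImplicit false
set_option linter.unusedSectionVars false
open Filter

namespace EN.R
attribute [-simp] EN.emb_apply

theorem deg_one {I : Type} {μ : I →₀ ℕ} (h : μ.degree = 1) : ∃ i, μ = Finsupp.single i 1 := by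
  obtain ⟨i, hi⟩ : μ.support.Nonempty := by
    rw [Finsupp.support_nonempty_iff]
    rintro rfl
    simp at h
  obtain ⟨ν, rfl⟩ : ∃ ν, μ = ν + Finsupp.single i 1 :=
    ⟨μ - Finsupp.single i 1, (tsub_add_cancel_of_le (by
      simpa only [Finsupp.single_le_iff, Nat.one_le_iff_ne_zero, ne_eq, Finsupp.mem_support_iff] using hi)).symm⟩
  have : ν = 0 := by simpa [Finsupp.degree_eq_zero_iff] using h
  exact ⟨i, by simp [this]⟩

theorem tri_unit {p : ℕ} {O Θ : Type} [CommRing O] [DV p O] [LinearOrder Θ] {θ : Θ}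
    {E D D' : RS p O Θ} (h1 : ∀ μ : Θ →₀ ℕ, μ.degree ≠ 1 → (p : O) ∣ RS.coeff μ E)
    (h2 : ∀ j, θ < j → (p : O) ∣ RS.coeff (Finsupp.single j 1) E)
    (h3 : (p : RS p O Θ) ∣ D - RS.C (RS.coeff (Finsupp.single θ 1) E)) (h4 : D * D' = 1) :
    RS.Tri θ (E * D') := by
  obtain ⟨q, hq⟩ := h3
  have h5 : (p : RS p O Θ) ∣ D' - RS.C (RS.ev0 D') := by
    have a1 : RS.ev0 D * RS.ev0 D' = 1 := by rw [← map_mul, h4, map_one]
    have a2 := congrArg (fun x => (RS.C (RS.ev0 x) : RS p O Θ)) hq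
    have a3 := congrArg (RS.C : O →+* RS p O Θ) a1
    simp only [map_sub, map_mul, map_natCast, RS.ev0_C, map_one] at a2 a3
    refine ⟨D' * RS.C (RS.ev0 D') * (RS.C (RS.ev0 q) - q), ?_⟩
    linear_combination RS.C (RS.ev0 D') * h4 - D' * a3 - D' * RS.C (RS.ev0 D') * hq
      + D' * RS.C (RS.ev0 D') * a2
  have h6 : E * D' = RS.C (RS.ev0 D') * E + E * (D' - RS.C (RS.ev0 D')) := by ring
  rw [h6]
  refine RS.Tri.add_dvd ⟨?_, fun μ a b => ?_⟩ (h5.mul_left _)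
  · have a1 : RS.ev0 D * RS.ev0 D' = 1 := by rw [← map_mul, h4, map_one]
    have a2 := congrArg RS.ev0 hq
    simp only [map_sub, map_mul, map_natCast, RS.ev0_C] at a2
    rw [RS.coeff_C_mul]
    exact ⟨-(RS.ev0 D' * RS.ev0 q), by linear_combination a1 - RS.ev0 D' * a2⟩
  · rw [RS.coeff_C_mul]
    refine Dvd.dvd.mul_left ?_ _
    by_cases hd : μ.degree = 1
    · obtain ⟨j, rfl⟩ := deg_one hd
      rcases lt_trichotomy j θ with h | h | h
      · exact absurd rfl (b j h)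
      · exact absurd (by rw [h]) a
      · exact h2 j h
    · exact h1 μ hd

theorem dvd_pd_sub {p : ℕ} {O Θ : Type} [CommRing O] [DV p O] (θ : Θ) {E : RS p O Θ}
    (h1 : ∀ μ : Θ →₀ ℕ, μ.degree ≠ 1 → (p : O) ∣ RS.coeff μ E) :
    (p : RS p O Θ) ∣ RS.coeff (Finsupp.single θ 1) (RS.tau E) -
      RS.C (RS.coeff (Finsupp.single θ 1) E) := by
  refine RS.dvd_iff.2 fun ν => ?_
  rw [map_sub, RS.coeff_coeff_single_tau]
  by_cases hν : ν = 0
  · subst hν; simp only [Finsupp.coe_zero, Pi.zero_apply, zero_add, Nat.cast_one, one_mul, RS.coeff_zero_C, sub_self, dvd_zero]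
  · rw [RS.coeff_C_of_ne hν, sub_zero]
    refine (h1 _ ?_).mul_left _
    simpa [Finsupp.degree_eq_zero_iff] using hν

namespace Ctx
variable {p : ℕ} {O M ι Θ : Type} [CommRing O] [DV p O] [LinearOrder Θ] (c : Ctx p O M ι Θ)

/-- admissible elements -/
structure Adm (θ : Θ) (f : M → ℕ) (E : M → RS p O Θ) : Prop where
  pp : c.PP f
  mem : ∃ A, c.Nice f A ∧ E ∈ A
  tri : ∀ᶠ m in (c.ω : Filter M), RS.Tri θ (E m)
  big : ∀ r, c.PP (f + r) → ∀ᶠ m in (c.ω : Filter M), (p : O) ^ (r m + 1) ∣ RS.ev0 (E m)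

/-- the set `U` -/
def U : Set Θ := {θ | ∃ f E, c.Adm θ f E}

variable {c} {f : M → ℕ} {A : Subring (M → RS p O Θ)}

theorem Nice.k_one (h : c.Nice f A) {N : M → RS p O Θ} (hN : N ∈ zRing c.ω c.U A)
    (h0 : ∀ᶠ m in (c.ω : Filter M), N m ≠ 0) {s : Gm c.ω} {r1 : M → ℕ} (hr1 : c.PP (f + r1))
    (hdom : ∀ r, c.PP (f + r) → rad c.ω r1 ≤ rad c.ω r → vr c.ω r N = s + rad c.ω r)
    (hbad : ∀ r, c.PP (f + r) → vr c.ω r N < sg c.ω N 0) : False := by
  classical
  have hr : c.PP (f + (r1 + 1)) := hr1.of_le 1 (Eventually.of_forall fun m => by simp only [Pi.add_apply, Pi.one_apply]; omega)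
  obtain ⟨A', h1, E, h2, g, h3, h4⟩ := h.exists_prim hr.ok hN.1 h0
  have hle : rad c.ω r1 ≤ rad c.ω (r1 + 1) := by rw [rad_add]; exact le_self_add
  have e1 : vr c.ω r1 N + rad c.ω 1 = rad c.ω g := by
    rw [← h3, hdom _ hr hle, hdom _ hr1 le_rfl, rad_add, add_assoc]
  have e2 : ∀ᶠ m in (c.ω : Filter M), vp p (RS.rho (r1 m) (N m)) + 1 = g m :=
    Germ.coe_eq.1 e1
  have hzero : ∀ t, c.PP (f + (r1 + 1) + t) →
      ∀ᶠ m in (c.ω : Filter M), (p : O) ^ (t m + 1) ∣ RS.ev0 (E m) := by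
    intro t ht
    rw [add_assoc] at ht
    have a1 := hbad _ ht
    rw [hdom _ ht (hle.trans (by rw [rad_add (r1 + 1)]; exact le_self_add)), rad_add (r1 + 1),
      ← add_assoc, ← hdom _ hr hle, h3, ← rad_add] at a1
    filter_upwards [Germ.coe_lt.1 a1, h4] with m a b
    have a2 : (p : O) ^ (g m + t m + 1) ∣ RS.coeff 0 (N m) := lt_vp_iff.1 a
    have a3 := congrArg RS.ev0 b.1
    rw [RS.ev0_rho, map_mul, map_pow, map_natCast, RS.ev0_eq] at a3
    rwa [a3, add_assoc, PR.dvd_cancel] at a2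
  have hlin : ∀ᶠ m in (c.ω : Filter M), ∀ μ : Θ →₀ ℕ, μ.degree ≠ 1 → (p : O) ∣ RS.coeff μ (E m) := by
    filter_upwards [hzero 0 (by rwa [add_zero]), h4, e2] with m a b d μ hμ
    by_cases h5 : μ = 0
    · subst h5; simpa only [Pi.zero_apply, zero_add, pow_one, RS.ev0_eq] using a
    obtain ⟨k, hk⟩ : ∃ k, μ.degree = k + 2 := by
      have : μ.degree ≠ 0 := by simpa [Finsupp.degree_eq_zero_iff] using h5
      exact ⟨μ.degree - 2, by omega⟩
    have a1 := congrArg (RS.coeff μ) b.1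
    rw [Pi.add_apply, Pi.one_apply, ← RS.rho_rho, RS.coeff_rho, RS.coeff_pow_mul] at a1
    have a2 : (g m : ℕ∞) < vp p ((p : O) ^ g m * RS.coeff μ (E m)) := by
      rw [← a1, vp_pow_mul, ← d, hk]
      have a3 := RS.vp_le_coeff (RS.rho (r1 m) (N m)) μ
      have a4 : vp p (RS.rho (r1 m) (N m)) + 1 ≠ ⊤ := by rw [d]; exact ENat.natCast_ne_top _
      refine lt_of_lt_of_le ((ENat.lt_add_one_iff a4).2 le_rfl) ?_
      rw [add_assoc, add_comm]
      refine add_le_add ?_ a3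
      norm_cast
      omega
    simpa only [pow_one] using (PR.dvd_cancel (k := 1)).1 (lt_vp_iff.1 a2)
  obtain ⟨T, hT, h5⟩ := h1.fin_supp h2
  have hT' : {θ : Θ | Finsupp.single θ 1 ∈ T}.Finite :=
    hT.preimage (Finsupp.single_left_injective one_ne_zero).injOn
  obtain ⟨θ, -, h6⟩ := exists_of_finite (ω := c.ω) hT'
    (P := fun θ m => ¬ (p : O) ∣ RS.coeff (Finsupp.single θ 1) (E m) ∧
      ∀ j, θ < j → (p : O) ∣ RS.coeff (Finsupp.single j 1) (E m)) (by
      filter_upwards [h4, h5, hlin] with m a b d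
      have hsub : {θ : Θ | ¬ (p : O) ∣ RS.coeff (Finsupp.single θ 1) (E m)} ⊆
          {θ : Θ | Finsupp.single θ 1 ∈ T} := fun θ hθ => by_contra fun hn => hθ (b _ hn)
      have hne : {θ : Θ | ¬ (p : O) ∣ RS.coeff (Finsupp.single θ 1) (E m)}.Nonempty := by
        by_contra hn
        refine a.2 (RS.dvd_iff.2 fun μ => ?_)
        by_cases hd : μ.degree = 1
        · obtain ⟨j, rfl⟩ := deg_one hd
          by_contra hc
          exact hn ⟨j, hc⟩
        · exact d μ hd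
      obtain ⟨θ, a1, a2⟩ := Set.exists_max_image _ id (hT'.subset hsub) hne
      exact ⟨θ, hsub a1, a1, fun j hj => by_contra fun hc => absurd (a2 j hc) (not_le.2 hj)⟩)
  obtain ⟨D, h7, h8⟩ := h1.coeff_tau h2 (Finsupp.single θ 1)
  obtain ⟨A2, h9, h10, D', h11, h12⟩ := h1.q2 hr.ok h7 (by
    filter_upwards [h6, h8, hlin] with m a b d
    exact ⟨_, DV.unit _ a.1, by rw [b]; exact dvd_pd_sub θ d⟩)
  have hU : θ ∈ c.U := by
    refine ⟨_, E * D', hr, ⟨A2, h9, A2.mul_mem (h10 h2) h11⟩, ?_, fun t ht => ?_⟩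
    · filter_upwards [h6, h8, hlin, h12] with m a b d e
      exact tri_unit d a.2 (by rw [b]; exact dvd_pd_sub θ d) e
    · filter_upwards [hzero t ht] with m a
      rw [Pi.mul_apply, map_mul]
      exact a.mul_right _
  obtain ⟨m, a, b, d⟩ := (h6.and (h4.and hN.2)).exists
  have a1 := congrArg (RS.coeff (Finsupp.single θ 1)) b.1
  rw [RS.coeff_rho, RS.coeff_pow_mul, RS.kill_eq_iff.1 d _ ⟨θ, by simp, hU⟩, mul_zero] at a1
  exact a.1 (by rw [PR.pow_reg _ _ a1.symm]; exact dvd_zero _)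

open Classical in
/-- `v_r(N)` as a function of the germ of `r` -/
noncomputable def vG (ω : Ultrafilter M) (N : M → RS p O Θ) (g : Gm ω) : Gm ω :=
  if h : ∃ r, rad ω r = g then vr ω h.choose N else 0

theorem vG_rad (ω : Ultrafilter M) (N : M → RS p O Θ) (r : M → ℕ) :
    vG ω N (rad ω r) = vr ω r N := by
  have h : ∃ s, rad ω s = rad ω r := ⟨r, rfl⟩
  rw [vG, dif_pos h]
  exact le_antisymm (vr_mono h.choose_spec.le N) (vr_mono h.choose_spec.ge N)

/-- (K) -/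
theorem Nice.hK [Fact p.Prime] (h : c.Nice f A) (hf : c.PP f) {N : M → RS p O Θ}
    (hN : N ∈ zRing c.ω c.U A) : ∃ r, c.PP (f + r) ∧ vr c.ω r N = sg c.ω N 0 := by
  classical
  have hf0 : c.PP (f + 0) := by rwa [add_zero]
  by_cases h0 : ∀ᶠ m in (c.ω : Filter M), N m ≠ 0
  swap
  · refine ⟨0, hf0, Germ.coe_eq.2 ?_⟩
    filter_upwards [Ultrafilter.eventually_not.2 h0] with m hm
    simp [vf, not_not.1 hm]
  by_contra hc
  obtain ⟨N', hN', μ, a1, ⟨_, ⟨r1, a2, rfl⟩, a3⟩, a4⟩ := H7Ref.dom_degree_one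
    (G := Gm c.ω) (A := zRing c.ω c.U A) (R := {g | ∃ r, c.PP (f + r) ∧ rad c.ω r = g})
    (deg := fun μ : Θ →₀ ℕ => μ.degree) (sg := fun N μ => sg c.ω N.1 μ)
    (v := fun N g => vG c.ω N.1 g) (o := rad c.ω 1) (z := 0)
    (Nz := {N | ∀ᶠ m in (c.ω : Filter M), N.1 m ≠ 0})
    (fun μ hμ => by simpa [Finsupp.degree_eq_zero_iff] using hμ) (by simp)
    (Germ.coe_lt.2 (Eventually.of_forall fun m => by simp))
    (by
      rintro _ ⟨r, hr, rfl⟩
      exact ⟨r + 1, hr.of_le 1 (Eventually.of_forall fun m => by simp only [Pi.add_apply, Pi.one_apply]; omega), rad_add _ _⟩)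
    ⟨_, 0, hf0, rfl⟩ (by rintro _ ⟨r, -, rfl⟩; exact rad_cancel r)
    (by rintro N hN _ ⟨r, -, rfl⟩; rw [vG_rad]; exact vr_cancel hN r)
    (by rintro N μ _ ⟨r, -, rfl⟩; rw [vG_rad]; exact vr_le _ _ _)
    (by rintro N hN _ ⟨r, hr, rfl⟩; rw [vG_rad]; exact h.std hr.ok N.2.1 hN)
    (by
      intro N _ μ h2 hfin
      obtain ⟨θ, hθ⟩ : μ.support.Nonempty := by
        rw [Finsupp.support_nonempty_iff]
        rintro rfl
        simp at h2
      obtain ⟨ν, rfl⟩ : ∃ ν, μ = ν + Finsupp.single θ 1 :=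
        ⟨μ - Finsupp.single θ 1, (tsub_add_cancel_of_le (by
          simpa only [Finsupp.single_le_iff, Nat.one_le_iff_ne_zero, ne_eq, Finsupp.mem_support_iff] using hθ)).symm⟩
      obtain ⟨D, b1, b2⟩ := h.coeff_tau_z N.2 (Finsupp.single θ 1)
      have b3 : ∀ᶠ m in (c.ω : Filter M), vp p (RS.coeff ν (D m)) ≤
          vp p (RS.coeff (ν + Finsupp.single θ 1) (N.1 m)) + (ν θ + 1) • ((1 : ℕ) : ℕ∞) := by
        filter_upwards [b2] with m hm
        rw [hm, RS.coeff_coeff_single_tau, add_comm (vp _ _)]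
        simpa only [Nat.cast_add, Nat.cast_one, nsmul_eq_mul, mul_one, Nat.succ_eq_add_one] using vp_natCast_mul (p := p) (Nat.succ_ne_zero (ν θ)) _
      refine ⟨⟨D, b1⟩, ?_, ν θ + 1, ν, fun ν => ν + Finsupp.single θ 1, by simp, ?_,
        fun ν => ⟨by simp, Germ.coe_le.2 ?_⟩⟩
      · filter_upwards [b3, ne_top_of_cancel hfin] with m b4 b5 b6
        rw [show D m = 0 from b6, map_zero, vp_zero, top_le_iff] at b4
        simp only [ENat.add_eq_top] at b4
        rcases b4 with b4 | b4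
        · exact b5 b4
        · simp [ENat.add_eq_top] at b4
      · simp only [sg, vs]
        rw [add_rad_eq]
        exact Germ.coe_le.2 b3
      · filter_upwards [b2] with m hm
        simp only [vf]
        rw [hm, RS.coeff_coeff_single_tau]
        exact vp_le_mul_left _ _)
    (N := ⟨N, hN⟩) h0
    (by
      rintro ⟨_, ⟨r, hr, rfl⟩, H⟩
      have := H _ ⟨r, hr, rfl⟩ le_rfl
      simp only [vG_rad] at this
      exact hc ⟨r, hr, by simpa using this⟩)
  refine h.k_one N'.2 hN' (s := sg c.ω N'.1 μ) a2 (fun r hr hle => ?_) fun r hr => ?_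
  · have := a3 _ ⟨r, hr, rfl⟩ hle
    simp only [vG_rad] at this
    simpa [a1] using this
  · refine (vr_le_zero r _).lt_of_ne fun e => a4 ⟨_, ⟨r, hr, rfl⟩, ?_⟩
    rintro _ ⟨s, -, rfl⟩ hle
    simp only [vG_rad]
    simpa using le_antisymm (vr_le_zero s _) (e ▸ vr_mono hle _)

end Ctx
end EN.R

end

-- part MP_646035_al.EN.RWbSt
section

/-! Abstract order-theoretic core of (Wb) and (St) in section 3 of the 646035 paper. -/

namespace H39R

section core
variable {Γ : Type*} [AddCommMonoid Γ] [LinearOrder Γ] [IsOrderedAddMonoid Γ]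

/-- the wqo argument -/
theorem wqo_contra {W : Set Γ} (hW : W.IsWF) (r σ b : ℕ → Γ) (n : ℕ → ℕ)
    (hr : Monotone r) (hr0 : ∀ k, 0 ≤ r k) (hσ : ∀ k, σ k ∈ W) (hb : Antitone b)
    (h1 : ∀ k, σ k + n k • r k < b k) (h2 : ∀ k, b k ≤ σ k + n k • r (k + 1)) : False := by
  have hP : (W ×ˢ (Set.univ : Set ℕ)).IsPWO :=
    hW.isPWO.prod (Set.IsWF.isPWO (Set.IsWF.of_wellFoundedLT _))
  obtain ⟨k, l, hkl, hle⟩ := hP.exists_lt (f := fun k => (σ k, n k)) (fun k => ⟨hσ k, trivial⟩)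
  have h3 : σ k + n k • r (k + 1) ≤ σ l + n l • r l := by
    refine add_le_add hle.1 ?_
    calc n k • r (k + 1) ≤ n k • r l := nsmul_le_nsmul_right (hr hkl) _
      _ ≤ n l • r l := nsmul_le_nsmul_left (hr0 l) hle.2
  exact absurd (lt_of_le_of_lt ((hb hkl.le).trans ((h2 k).trans h3)) (h1 l)) (lt_irrefl _)

/-- Data: `ρ` admissible radii with values `rad`, `Z` the z-functions, `s N = v*(N(0))`,
`v r N = v*(ρ_r N)`. -/
structure Data (Γ : Type*) [AddCommMonoid Γ] [LinearOrder Γ] (ρ Z : Type*) where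
  rad : ρ → Γ
  s : Z → Γ
  v : ρ → Z → Γ
  r0 : ρ
  rad_r0 : rad r0 = 0
  rad_nonneg : ∀ r, 0 ≤ rad r
  v_mono : ∀ r r' N, rad r ≤ rad r' → v r N ≤ v r' N
  v_le : ∀ r N, v r N ≤ s N
  wf : ∀ r, (Set.range (v r)).IsWF
  std : ∀ r N, v r N < s N → ∃ N' : Z, ∃ n : ℕ, 1 ≤ n ∧ v r N = s N' + n • rad r ∧
    (∀ r', v r' N ≤ s N' + n • rad r') ∧ v r0 N ≤ v r0 N'
  hK : ∀ N, ∃ r, v r N = s N

variable {ρ Z : Type*} (D : Data Γ ρ Z)

omit [IsOrderedAddMonoid Γ] in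
theorem Data.hK' (N : Z) (r : ρ) : ∃ r', D.rad r ≤ D.rad r' ∧ D.v r' N = D.s N := by
  obtain ⟨r', h⟩ := D.hK N
  rcases le_total (D.rad r) (D.rad r') with h1 | h1
  · exact ⟨r', h1, h⟩
  · exact ⟨r, le_rfl, le_antisymm (D.v_le _ _) (h ▸ D.v_mono _ _ _ h1)⟩

/-- common recursion: a family of bad pairs leads to a contradiction -/
theorem Data.no_chain {W : Set Γ} (hW : W.IsWF) (N : ℕ → Z) (r : ℕ → ρ) (b : ℕ → Γ)
    (hr : ∀ k, D.rad (r k) ≤ D.rad (r (k + 1))) (hb : Antitone b)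
    (h1 : ∀ k, D.v (r k) (N k) < b k) (h2 : ∀ k, b k ≤ D.v (r (k + 1)) (N k))
    (hmem : ∀ k N' n, 1 ≤ n → D.v (r k) (N k) = D.s N' + n • D.rad (r k) →
      D.v D.r0 (N k) ≤ D.v D.r0 N' → D.s N' ∈ W) : False := by
  have hlt : ∀ k, D.v (r k) (N k) < D.s (N k) := fun k =>
    (h1 k).trans_le ((h2 k).trans (D.v_le _ _))
  choose N' n hn he hle h0 using fun k => D.std (r k) (N k) (hlt k)
  refine wqo_contra hW (fun k => D.rad (r k)) (fun k => D.s (N' k)) b n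
    (monotone_nat_of_le_succ hr) (fun k => D.rad_nonneg _)
    (fun k => hmem k (N' k) (n k) (hn k) (he k) (h0 k)) hb (fun k => ?_) (fun k => ?_)
  · rw [← he k]; exact h1 k
  · exact (h2 k).trans (hle k _)

/-- the set of values considered in `P(g, δ)` -/
def Data.S (g δ : Γ) : Set Γ := {x | ∃ N, g ≤ D.v D.r0 N ∧ D.s N ≤ g + δ ∧ x = D.s N}

omit [IsOrderedAddMonoid Γ] in
theorem Data.S_zero (g : Γ) : (D.S g 0).IsWF := by
  refine Set.IsWF.mono (Set.isWF_singleton (a := g)) ?_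
  rintro x ⟨N, h1, h2, rfl⟩
  rw [add_zero] at h2
  exact le_antisymm h2 (h1.trans (D.v_le _ _))

theorem Data.S_step (g δ : Γ) (r : ρ) (h : (D.S g δ).IsWF) : (D.S g (δ + D.rad r)).IsWF := by
  rw [Set.isWF_iff_no_descending_seq]
  intro f hf hmem
  choose N hN1 hN2 hN3 using hmem
  -- for each radius and each index there is a later index which is not yet stabilised
  have hlater : ∀ (r' : ρ) (i : ℕ), ∃ j, i < j ∧ D.v r' (N j) < D.s (N j) := by
    intro r' i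
    by_contra hc
    push Not at hc
    have he : ∀ j, i < j → D.v r' (N j) = f j := fun j hj => by
      rw [hN3 j]; exact le_antisymm (D.v_le _ _) (hc j hj)
    refine (Set.isWF_iff_no_descending_seq.1 (D.wf r')) (fun j => f (i + 1 + j))
      (fun a b hab => hf (by omega)) (fun j => ⟨N (i + 1 + j), he _ (by omega)⟩)
  -- recursion
  have hstep : ∀ x : {x : ρ × ℕ // D.rad r ≤ D.rad x.1 ∧ D.v x.1 (N x.2) < D.s (N x.2)},
      ∃ y : {x : ρ × ℕ // D.rad r ≤ D.rad x.1 ∧ D.v x.1 (N x.2) < D.s (N x.2)},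
        D.rad x.1.1 ≤ D.rad y.1.1 ∧ D.v y.1.1 (N x.1.2) = D.s (N x.1.2) ∧ x.1.2 < y.1.2 := by
    rintro ⟨⟨r1, i⟩, h1, h2⟩
    obtain ⟨r2, h3, h4⟩ := D.hK' (N i) r1
    obtain ⟨j, hj, hj2⟩ := hlater r2 i
    exact ⟨⟨(r2, j), h1.trans h3, hj2⟩, h3, h4, hj⟩
  choose nxt hn1 hn2 hn3 using hstep
  obtain ⟨j0, -, hj0⟩ := hlater r 0
  let x : ℕ → {x : ρ × ℕ // D.rad r ≤ D.rad x.1 ∧ D.v x.1 (N x.2) < D.s (N x.2)} :=
    fun k => nxt^[k] ⟨(r, j0), le_rfl, hj0⟩
  have hx : ∀ k, x (k + 1) = nxt (x k) := fun k => Function.iterate_succ_apply' _ _ _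
  refine D.no_chain h (fun k => N (x k).1.2) (fun k => (x k).1.1) (fun k => D.s (N (x k).1.2))
    (fun k => by rw [hx]; exact hn1 _) (antitone_nat_of_succ_le fun k => ?_)
    (fun k => (x k).2.2) (fun k => by rw [hx]; exact (hn2 _).ge) ?_
  · rw [← hN3, ← hN3, hx]; exact (hf (hn3 _)).le
  · intro k N' n hn he h0
    refine ⟨N', (hN1 _).trans h0, ?_, rfl⟩
    by_contra hc
    push Not at hc
    have h5 : D.rad r ≤ n • D.rad (x k).1.1 := by
      calc D.rad r ≤ D.rad (x k).1.1 := (x k).2.1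
        _ = 1 • D.rad (x k).1.1 := (one_nsmul _).symm
        _ ≤ n • D.rad (x k).1.1 := nsmul_le_nsmul_left (D.rad_nonneg _) hn
    have h6 : g + (δ + D.rad r) ≤ D.s N' + n • D.rad (x k).1.1 := by
      rw [← add_assoc]; exact add_le_add hc.le h5
    have h7 := (x k).2.2
    rw [he] at h7
    exact absurd (lt_of_le_of_lt h6 (h7.trans_le (hN2 _))) (lt_irrefl _)

theorem Data.S_nsmul (g : Γ) (r : ρ) (n : ℕ) : (D.S g (n • D.rad r)).IsWF := by
  induction n with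
  | zero => rw [zero_nsmul]; exact D.S_zero g
  | succ n ih => rw [succ_nsmul]; exact D.S_step g _ r ih

/-- (Wb) -/
theorem Data.wb : (Set.range D.s).IsWF := by
  rw [Set.isWF_iff_no_descending_seq]
  intro f hf hmem
  choose N hN using hmem
  have hne : (Set.range fun i => D.v D.r0 (N i)).Nonempty := Set.range_nonempty _
  have hwf : (Set.range fun i => D.v D.r0 (N i)).IsWF :=
    (D.wf D.r0).mono (by rintro _ ⟨i, rfl⟩; exact ⟨_, rfl⟩)
  obtain ⟨i0, hi0⟩ := hwf.min_mem hne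
  have hmin : ∀ i, D.v D.r0 (N i0) ≤ D.v D.r0 (N i) := fun i => by
    have := hwf.min_le hne (a := D.v D.r0 (N i)) ⟨i, rfl⟩
    simpa only [hi0] using (le_of_eq hi0).trans this
  have hb : ∃ (r : ρ) (n : ℕ), D.s (N i0) ≤ D.v D.r0 (N i0) + n • D.rad r := by
    rcases (D.v_le D.r0 (N i0)).lt_or_eq with h | h
    · obtain ⟨N', n, -, he, hle, -⟩ := D.std _ _ h
      obtain ⟨r, hr⟩ := D.hK (N i0)
      refine ⟨r, n, ?_⟩
      rw [he, D.rad_r0, nsmul_zero, add_zero, ← hr]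
      exact hle r
    · exact ⟨D.r0, 0, by rw [zero_nsmul, add_zero, h]⟩
  obtain ⟨r, n, hb⟩ := hb
  refine (Set.isWF_iff_no_descending_seq.1 (D.S_nsmul (D.v D.r0 (N i0)) r n))
    (fun j => f (i0 + j)) (fun a b hab => hf (by omega)) (fun j => ⟨N (i0 + j), hmin _, ?_, ?_⟩)
  · refine le_trans ?_ hb
    rw [hN, hN]
    exact hf.antitone (by omega)
  · exact (hN _).symm

/-- (St) -/
theorem Data.st (a : Γ) : ∃ r, ∀ N, a ≤ D.s N → a ≤ D.v r N := by
  by_contra hc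
  push Not at hc
  choose N hN1 hN2 using hc
  choose nxt hn1 hn2 using fun r => D.hK' (N r) r
  let x : ℕ → ρ := fun k => nxt^[k] D.r0
  have hx : ∀ k, x (k + 1) = nxt (x k) := fun k => Function.iterate_succ_apply' _ _ _
  refine D.no_chain D.wb (fun k => N (x k)) x (fun _ => a) (fun k => by rw [hx]; exact hn1 _)
    antitone_const (fun k => hN2 _) (fun k => by rw [hx, hn2]; exact hN1 _)
    (fun k N' _ _ _ _ => ⟨N', rfl⟩)

end core

end H39R

end

-- part MP_646035_al.EN.RVVb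
section

/-! Section 3: the family of central values of `z`-functions is stable. -/

set_option autoImplicit false
set_option linter.unusedSectionVars false
open Filter

namespace EN.R
attribute [-simp] EN.emb_apply
namespace Ctx
variable {p : ℕ} [Fact p.Prime] {O M ι Θ : Type} [CommRing O] [DV p O] [LinearOrder Θ]
  (c : Ctx p O M ι Θ)

/-- `A^b` -/
noncomputable def bRing (A : Subring (M → RS p O Θ)) : Subring (M → O) :=
  (zRing c.ω c.U A).map (piHom fun _ => RS.ev0)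

variable {c} {f : M → ℕ} {A : Subring (M → RS p O Θ)}

/-- the order-theoretic data of a nice ring -/
noncomputable def Nice.data (h : c.Nice f A) (hf : c.PP f) :
    H39R.Data (Gm c.ω) {r // c.PP (f + r)} (zRing c.ω c.U A) where
  rad r := rad c.ω r.1
  s N := sg c.ω N.1 0
  v r N := vr c.ω r.1 N.1
  r0 := ⟨0, by rwa [add_zero]⟩
  rad_r0 := rfl
  rad_nonneg _ := zero_le
  v_mono _ _ _ H := vr_mono H _
  v_le _ _ := vr_le_zero _ _
  wf r := (h.vr_wf r.2.ok).mono (by rintro _ ⟨N, rfl⟩; exact ⟨N.1, N.2.1, rfl⟩)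
  std r N H := by
    have h0 : ∀ᶠ m in (c.ω : Filter M), N.1 m ≠ 0 := by
      filter_upwards [Germ.coe_lt.1 H] with m a b
      simp [vf, b] at a
    obtain ⟨μ, hμ⟩ := h.std r.2.ok N.2.1 h0
    obtain ⟨N', h1, h2⟩ := h.coeff_tau_z N.2 μ
    have e : sg c.ω N' 0 = sg c.ω N.1 μ := Germ.coe_eq.2 (by
      filter_upwards [h2] with m hm
      simp only [vf]
      rw [hm, ← RS.ev0_eq, RS.ev0_coeff_tau])
    refine ⟨⟨N', h1⟩, μ.degree, Nat.one_le_iff_ne_zero.2 fun hd => H.ne ?_, by rw [e, hμ],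
      fun r' => by rw [e]; exact vr_le _ _ _, Germ.coe_le.2 ?_⟩
    · have : μ = 0 := by simpa [Finsupp.degree_eq_zero_iff] using hd
      simpa [this] using hμ
    · filter_upwards [h2] with m hm
      simp only [vf, rhoP_apply, Pi.zero_apply, RS.rho_zero]
      rw [hm]
      exact RS.vp_le_coeff_tau _ _
  hK N := by
    obtain ⟨r, h1, h2⟩ := h.hK hf N.2
    exact ⟨⟨r, h1⟩, h2⟩

theorem bRing_le_of_rho {A' : Subring (M → RS p O Θ)} {r : M → ℕ} (h : ∀ N ∈ A, rhoP r N ∈ A') :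
    c.bRing A ≤ c.bRing A' := by
  rintro _ ⟨N, hN, rfl⟩
  exact ⟨rhoP r N, ⟨h N hN.1, hN.2.rho r⟩, funext fun m => by simp⟩

/-- the family `VV^b` -/
def VVb (c : Ctx p O M ι Θ) : Set (Subring (M → O)) :=
  {B | ∃ f A, c.PP f ∧ c.Nice f A ∧ B = c.bRing A}

theorem stable_VVb : Stable p c.ω (RingHom.id O) c.VVb where
  closed := by
    rintro _ ⟨f, A, hf, h, rfl⟩
    exact (h.closed_zRing hf.ok _).map _
  wf := by
    rintro _ ⟨f, A, hf, h, rfl⟩
    refine wf_iff.2 ((h.data hf).wb.mono ?_)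
    rintro _ ⟨_, ⟨N, hN, rfl⟩, rfl⟩
    exact ⟨⟨N, hN⟩, rfl⟩
  sat := by
    rintro _ ⟨f, A, hf, h, rfl⟩ S hS
    refine ⟨_, ⟨f, _, hf, h.sat hS, rfl⟩, ?_, fun N hN => ?_⟩
    · rintro _ ⟨N, hN, rfl⟩
      exact ⟨N, ⟨le_sat S A hN.1, hN.2⟩, rfl⟩
    · exact ⟨fun m => RS.C (N m), ⟨satOn_sat S A _ fun m hm => by simp [hN m hm],
        Eventually.of_forall fun m => by simp⟩, funext fun m => by simp⟩
  q1 := by
    rintro _ ⟨f, A, hf, h, rfl⟩ a
    obtain ⟨⟨r, hr⟩, H⟩ := (h.data hf).st (rad c.ω a)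
    obtain ⟨A1, h1, h2⟩ := h.rho hr.ok
    obtain ⟨A2, h3, h4, S, hS, -, h5⟩ := h1.q1 hr.ok a
    refine ⟨_, ⟨_, _, hr, h3, rfl⟩, bRing_le_of_rho fun N hN => h4 (h2 N hN), S, hS, ?_⟩
    rintro _ ⟨N, hN, rfl⟩ hd
    obtain ⟨N', h6, h7⟩ := h5 _ (h2 N hN.1) (dv_iff_vs.2 (H ⟨N, hN⟩ (dv_iff_vs.1 hd)))
    refine ⟨_, ⟨N', ⟨h6, ?_⟩, rfl⟩, fun m hm => ?_⟩
    · filter_upwards [hS, hN.2.rho r] with m b1 b2
      have b3 : rhoP r N m = _ := h7 m b1
      rw [b3] at b2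
      exact RS.kill_of_pow_mul b2
    · have := congrArg RS.ev0 (h7 m hm)
      simpa only [piHom_apply, RS.ev0_rho, map_mul, map_pow, map_natCast] using this
  q2 := by
    rintro _ ⟨f, A, hf, h, rfl⟩ _ ⟨N, hN, rfl⟩ hu
    have hr : c.PP (f + 1) := hf.of_le 1 (Eventually.of_forall fun m => le_rfl)
    obtain ⟨A1, h1, h2⟩ := h.rho hr.ok
    obtain ⟨A2, h3, h4, N', h5, h6⟩ := h1.q2 hr.ok (h2 N hN.1) (hu.mono fun m hm =>
      ⟨_, un_id_iff.1 hm, by
        have := RS.pow_dvd_rho (p := p) (a := 1) (F := N m - RS.C (RS.ev0 (N m))) (by simp)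
        rwa [map_sub, RS.rho_C, pow_one] at this⟩)
    refine ⟨_, ⟨_, _, hr, h3, rfl⟩, bRing_le_of_rho fun N hN => h4 (h2 N hN), _,
      ⟨N', ⟨h5, ?_⟩, rfl⟩, ?_⟩
    · filter_upwards [h6, hN.2.rho 1] with m b1 b2
      exact RS.kill_of_inv b2 b1
    · filter_upwards [h6] with m b1
      simpa only [piHom_apply, Pi.one_apply, map_mul, RS.ev0_rho, map_one] using congrArg RS.ev0 b1

end Ctx
end EN.R

end

-- part MP_646035_al.EN.RX
section

/-! Section 3: the expansion (X). -/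

set_option autoImplicit false
set_option linter.unusedSectionVars false
open Filter

namespace EN.R
attribute [-simp] EN.emb_apply

section pt
variable {p : ℕ} {K Θ : Type} [CommRing K] [PR p K]

open Classical in
/-- `η_θ ↦ T_θ - e_θ` on `U`, `0` off `U` -/
noncomputable def piX (U : Set Θ) (e : Θ → K) : RS p K Θ →+* RS p K Θ :=
  RS.lift RS.C fun θ => if θ ∈ U then RS.X θ - RS.C (e θ) else 0

theorem lift_piX (U : Set Θ) (e : Θ → K) (Q : RS p K Θ) :
    RS.lift (RingHom.id K) e (piX U e Q) = RS.ev0 Q := by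
  refine RingHom.congr_fun (RS.hom_ext (φ := (RS.lift (RingHom.id K) e).comp (piX U e))
    (fun b => by simp [piX]) fun θ => ?_) Q
  by_cases h : θ ∈ U <;> simp only [piX, RingHom.coe_comp, Function.comp_apply, RS.lift_X, h, ↓ reduceIte, map_sub, RS.lift_C, RingHom.id_apply, sub_self, RS.ev0_X, map_zero]

theorem map_piX {K' : Type} [CommRing K'] [PR p K'] (g : K →+* K') (U : Set Θ) (e : Θ → K)
    (Q : RS p K Θ) : RS.map g (piX U e Q) = piX U (fun θ => g (e θ)) (RS.map g Q) := by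
  refine RingHom.congr_fun (RS.hom_ext (φ := (RS.map g).comp (piX U e))
    (ψ := (piX U fun θ => g (e θ)).comp (RS.map g)) (fun b => by simp only [piX, RingHom.coe_comp, Function.comp_apply, RS.lift_C, RS.map_C]) fun θ => ?_) Q
  by_cases h : θ ∈ U <;> simp only [piX, RingHom.coe_comp, Function.comp_apply, RS.lift_X, h, ↓ reduceIte, map_sub, RS.map_X, RS.map_C, map_zero]

theorem map_lift_C {K' : Type} [CommRing K'] [PR p K'] (g : K →+* K') (t : Θ → RS p K Θ)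
    (Q : RS p K Θ) :
    RS.map g (RS.lift RS.C t Q) = RS.lift RS.C (fun θ => RS.map g (t θ)) (RS.map g Q) :=
  RingHom.congr_fun (RS.hom_ext (φ := (RS.map g).comp (RS.lift RS.C t))
    (ψ := (RS.lift RS.C fun θ => RS.map g (t θ)).comp (RS.map g)) (fun b => by simp)
    fun θ => by simp) Q

theorem expand_pt [LinearOrder Θ] [WellFoundedLT Θ] {U : Set Θ} {e : Θ → RS p K Θ}
    (he : ∀ θ ∈ U, RS.Tri θ (e θ)) {t : Θ → RS p (RS p K Θ) Θ}
    (h1 : ∀ θ ∈ U, t θ = RS.tau (e θ) - RS.C (e θ)) (h2 : ∀ θ, θ ∉ U → t θ = RS.X θ)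
    {Q : RS p (RS p K Θ) Θ} {N : RS p K Θ} (hQ : RS.lift RS.C t Q = RS.tau N) :
    RS.ev0 Q = N ∧ RS.map (RS.kill U) (piX U e Q) = piX U e Q := by
  classical
  constructor
  · have : RS.ev0.comp (RS.lift RS.C t : RS p (RS p K Θ) Θ →+* _) = RS.ev0 :=
      RS.hom_ext (fun b => by simp) fun θ => by
        by_cases h : θ ∈ U
        · simp only [RingHom.coe_comp, Function.comp_apply, RS.lift_X, h1 θ h, map_sub, RS.ev0_tau, RS.ev0_C, sub_self, RS.ev0_X]
        · simp [h2 θ h]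
    rw [← RingHom.congr_fun this Q, RingHom.comp_apply, hQ, RS.ev0_tau]
  · obtain ⟨Φ, hC, hX⟩ := RS.exists_triEquiv (t := t) fun θ => by
      by_cases h : θ ∈ U
      · rw [h1 θ h]; exact (he θ h).tau
      · rw [h2 θ h]; exact RS.tri_X θ
    have hΦ : Φ.toRingHom = RS.lift RS.C t := RS.hom_ext (by simp [hC]) (by simp [hX])
    have hQ' : Q = Φ.symm (RS.tau N) := by
      rw [← hQ, ← hΦ]; simp
    obtain ⟨N', rfl⟩ := RS.tri_surjective (t := fun θ => if θ ∈ U then e θ else RS.X θ)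
      (fun θ => by
        by_cases h : θ ∈ U
        · simpa [h] using he θ h
        · simpa [h] using RS.tri_X θ) N
    let s : RS p K Θ →+* RS p (RS p K Θ) Θ := ((piX U e).comp (Φ.symm.toRingHom.comp RS.tau)).comp
      (RS.lift RS.C fun θ => if θ ∈ U then e θ else RS.X θ)
    have hs : (RS.map (RS.kill U)).comp s = s := by
      refine RS.hom_ext (fun b => ?_) fun θ => ?_
      · have : Φ.symm (RS.C (RS.C b)) = RS.C (RS.C b) := by rw [RingEquiv.symm_apply_eq, hC]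
        simp only [s, piX, RingEquiv.toRingHom_eq_coe, RingHom.coe_comp, RingHom.coe_coe, Function.comp_apply, RS.lift_C, RS.tau_C, this, RS.map_C, RS.kill_C]
      · by_cases h : θ ∈ U
        · have : Φ.symm (RS.tau (e θ)) = RS.C (e θ) + RS.X θ := by
            rw [RingEquiv.symm_apply_eq, map_add, hC, hX, h1 θ h]; ring
          simp [s, h, this, piX]
        · have : Φ.symm (RS.C (RS.X θ) + RS.X θ) = RS.C (RS.X θ) + RS.X θ := by
            rw [RingEquiv.symm_apply_eq, map_add, hC, hX, h2 θ h]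
          simp only [s, h, RingHom.comp_apply, RS.lift_X, if_false, RS.tau_X,
            RingEquiv.toRingHom_eq_coe, RingHom.coe_coe, this]
          simp only [piX, map_add, RS.lift_C, RS.lift_X, h, ↓ reduceIte, add_zero, RS.map_C, RS.kill_X_notMem h]
    rw [hQ']
    exact RingHom.congr_fun hs N'

end pt

namespace Ctx
variable {p : ℕ} {O M ι Θ : Type} [CommRing O] [DV p O] [LinearOrder Θ] [WellFoundedLT Θ]
  {c : Ctx p O M ι Θ} {f : M → ℕ} {A : Subring (M → RS p O Θ)}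

/-- (X) -/
theorem Nice.expand (h : c.Nice f A) (ho : c.Ok f) (U : Set Θ) (ε : Θ → M → RS p O Θ)
    (hε : ∀ θ ∈ U, ε θ ∈ A) {S0 : Set M} (hS0 : S0 ∈ c.ω)
    (htri : ∀ m ∈ S0, ∀ θ ∈ U, RS.Tri θ (ε θ m)) :
    ∃ A1, c.Nice f A1 ∧ ∃ S ∈ c.ω, S ⊆ S0 ∧ (∀ N ∈ A1, TauIn A1 S N) ∧
      (∀ m ∈ S, ∀ N ∈ zRing c.ω U A1, RS.kill U (N m) = N m) ∧
      ∀ T : Subring (M → RS p O Θ), Closed p T → SatOn T S → zRing c.ω U A1 ≤ T →
        (∀ θ ∈ U, ε θ ∈ T) → A1 ≤ T := by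
  classical
  obtain ⟨B, hB, hle, S1, hS1, -, hq⟩ := h.q1 ho fun _ => 1
  obtain ⟨Sa, hSa, Ha⟩ := h.tst
  obtain ⟨Sb, hSb, Hb⟩ := hB.tst
  obtain ⟨S, hS, s0, s1, sa, sb, sz⟩ : ∃ S ∈ c.ω, S ⊆ S0 ∧ S ⊆ S1 ∧ S ⊆ Sa ∧ S ⊆ Sb ∧
      ∀ m ∈ S, ∀ N ∈ B, Zf c.ω U N → RS.kill U (N m) = N m :=
    ⟨_, inter_mem (inter_mem (inter_mem (inter_mem hS0 hS1) hSa) hSb) (hB.zf_unif ho U),
      fun _ hm => hm.1.1.1.1, fun _ hm => hm.1.1.1.2, fun _ hm => hm.1.1.2, fun _ hm => hm.1.2,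
      fun _ hm => hm.2⟩
  have h1 := hB.sat hS
  have hle1 : A ≤ Sat S B := hle.trans (le_sat S B)
  have htau : ∀ N ∈ Sat S B, TauIn (Sat S B) S N := fun N ⟨N', hN', e⟩ => by
    obtain ⟨F, hF⟩ := (Hb N' hN').mono (le_sat S B) sb
    exact ⟨F, fun m hm => by rw [hF m hm, e m hm]⟩
  refine ⟨_, h1, S, hS, s0, htau, fun m hm N ⟨⟨N', hN', e⟩, hz⟩ => ?_, fun T hT hTs hz hε' => ?_⟩
  · rw [e m hm]
    refine sz m hm N' hN' ?_
    filter_upwards [hS, hz] with m' a b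
    rwa [← e m' a]
  have := h1.closed.pr
  let χ : Sat S B := ⟨fun m => if m ∈ S then 1 else 0, 1, B.one_mem, fun m hm => by simp [hm]⟩
  have ht : ∀ θ, ∃ t : RS p (Sat S B) Θ, RS.Tri θ t ∧ (θ ∉ U → t = RS.X θ) ∧
      (θ ∈ U → ∀ m ∈ S, emb p _ Θ t m = RS.tau (ε θ m) - RS.C (ε θ m)) := by
    intro θ
    by_cases hθ : θ ∈ U
    swap
    · exact ⟨_, RS.tri_X θ, fun _ => rfl, fun h' => absurd h' hθ⟩
    obtain ⟨F, hF⟩ := Ha _ (hε θ hθ)
    let G : RS p A Θ := F - RS.C ⟨_, hε θ hθ⟩ - RS.X θ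
    have hG : ∀ m ∈ S, emb p A Θ G m = RS.tau (ε θ m) - RS.C (ε θ m) - RS.X θ := fun m hm => by
      simp [G, hF m (sa hm)]
    refine ⟨RS.X θ + RS.C χ * RS.map (Subring.inclusion hle1) G,
      (RS.tri_X θ).add_low fun μ hμ => ?_, fun h' => absurd hθ h', fun _ m hm => ?_⟩
    · obtain ⟨y, hy, e⟩ := hq _ (RS.coeff μ G).2 (by
        filter_upwards [hS] with m hm
        rw [← coeff_emb, hG m hm, pow_one]
        exact RS.tri_iff_low.1 (htri m (s0 hm) θ hθ).tau μ hμ)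
      refine ⟨χ * ⟨y, le_sat S B hy⟩, Subtype.ext (funext fun m => ?_)⟩
      rw [RS.coeff_C_mul, RS.coeff_map]
      by_cases hm : m ∈ S
      · simpa only [χ, Subring.coe_mul, Subring.coe_inclusion, Pi.mul_apply, hm, ↓ reduceIte, one_mul, SubringClass.coe_natCast, Pi.natCast_apply, pow_one] using e m (s1 hm)
      · simp only [χ, Subring.coe_mul, Subring.coe_inclusion, Pi.mul_apply, hm, ↓ reduceIte, zero_mul, SubringClass.coe_natCast, Pi.natCast_apply, mul_zero]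
    · simp [emb_incl, hG m hm, χ, hm]
  choose t t1 t2 t3 using ht
  let e : Θ → Sat S B := fun θ => if hθ : θ ∈ U then ⟨ε θ, hle1 (hε θ hθ)⟩ else 0
  intro N hN
  obtain ⟨F, hF⟩ := htau N hN
  obtain ⟨Q, rfl⟩ := RS.tri_surjective t1 F
  have key : ∀ m ∈ S, RS.ev0 (emb p _ Θ Q m) = N m ∧
      RS.map (RS.kill U) (emb p _ Θ (piX U e Q) m) = emb p _ Θ (piX U e Q) m := by
    intro m hm
    rw [emb_apply _ _ (piX U e Q), map_piX]
    refine expand_pt (t := fun θ => emb p _ Θ (t θ) m) (fun θ hθ => ?_) (fun θ hθ => ?_)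
      (fun θ hθ => ?_) ?_
    · simpa [e, hθ] using htri m (s0 hm) θ hθ
    · simpa [e, hθ] using t3 θ hθ m hm
    · simp [t2 θ hθ]
    · rw [← hF m hm, emb_apply _ _ (RS.lift _ _ _), map_lift_C]
      rfl
  have hP : piX U e Q ∈ T.comap ((Sat S B).subtype.comp (RS.lift (RingHom.id _) e)) := by
    refine RS.mem_of_coeff (S := (zRing c.ω U (Sat S B)).comap (Sat S B).subtype)
      (fun x hx => ⟨x.2, ?_⟩) (hT.comap _) (fun x hx => by simpa only [Subring.mem_comap, RingHom.coe_comp, Subring.coe_subtype, Function.comp_apply, RS.lift_C, RingHom.id_apply, Subring.subtype_apply] using hz hx) (fun θ => ?_) _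
      fun μ => ⟨(RS.coeff μ (piX U e Q)).2, ?_⟩
    · refine hx.2.mono fun m hm => RS.kill_of_pow_mul (a := 1) ?_
      simpa only [pow_one, Subring.subtype_apply, map_mul, map_natCast, Subring.coe_mul, SubringClass.coe_natCast, Pi.mul_apply, Pi.natCast_apply] using hm
    · by_cases hθ : θ ∈ U
      · simpa only [e, Subring.mem_comap, RingHom.coe_comp, Subring.coe_subtype, Function.comp_apply, RS.lift_X, hθ, ↓ reduceDIte] using hε' θ hθ
      · simp only [e, Subring.mem_comap, RingHom.coe_comp, Subring.coe_subtype, Function.comp_apply, RS.lift_X, hθ, ↓ reduceDIte, ZeroMemClass.coe_zero, zero_mem]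
    · filter_upwards [hS] with m hm
      exact congrArg (RS.coeff μ) (key m hm).2
  refine satOn_mem hTs hP fun m hm => ?_
  rw [RingHom.comp_apply, lift_piX, ← (key m hm).1]
  rfl

end Ctx
end EN.R

end

-- part MP_646035_al.EN.RMain
section

/-! Section 3: step 0, the main step, Theorem R. -/

set_option autoImplicit false
set_option linter.unusedSectionVars false
open Filter

namespace EN.R
attribute [-simp] EN.emb_apply
namespace Ctx
variable {p : ℕ} [Fact p.Prime] {O M ι Θ : Type} [CommRing O] [DV p O] [LinearOrder Θ]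
  [WellFoundedLT Θ] {c : Ctx p O M ι Θ} {f : M → ℕ} {A : Subring (M → RS p O Θ)}

theorem dvd_word (w : List ι) {k : ℕ} {b : O} (h : (p : O) ^ k ∣ b) :
    (p : O) ^ (k + w.length) ∣ w.foldr (fun i x => c.δ i x) b := by
  induction w with
  | nil => simpa only [List.length_nil, add_zero, List.foldr_nil] using h
  | cons i w ih =>
    obtain ⟨y, hy⟩ := ih
    rw [List.foldr_cons, hy, addHom_pow_mul, List.length_cons, ← add_assoc, pow_succ]
    exact mul_dvd_mul_left _ (c.small i y)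

theorem word_J (w : List ι) (θ : Θ) (m : M) :
    w.foldr (fun i x => c.δ i x) (c.J θ m) = c.J (w.foldr c.rk.sh θ) m := by
  induction w with
  | nil => rfl
  | cons i w ih => rw [List.foldr_cons, ih, c.hJ, List.foldr_cons]

theorem Nice.word_mem (h : c.Nice f A) (w : List ι) {N : M → RS p O Θ} (hN : N ∈ A) :
    w.foldr (fun i x => c.dP i x) N ∈ A := by
  induction w with
  | nil => exact hN
  | cons i w ih => exact h.dst i _ ih

theorem word_tri (w : List ι) {N : M → RS p O Θ} {θ : Θ} {m : M} (h : RS.Tri θ (N m)) :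
    RS.Tri (w.foldr c.rk.sh θ) (w.foldr (fun i x => c.dP i x) N m) := by
  induction w with
  | nil => exact h
  | cons i w ih => exact c.tri_dL i ih

theorem word_ev0 (w : List ι) (N : M → RS p O Θ) (m : M) :
    RS.ev0 (w.foldr (fun i x => c.dP i x) N m) = w.foldr (fun i x => c.δ i x) (RS.ev0 (N m)) := by
  induction w with
  | nil => rfl
  | cons i w ih => rw [List.foldr_cons, List.foldr_cons, dP_apply, ev0_dL, ih]

theorem dickson (c : Ctx p O M ι Θ) (U : Set Θ) :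
    ∃ (G : Finset Θ) (g : Θ → Θ) (w : Θ → List ι), (∀ θ ∈ G, θ ∈ U) ∧
      (∀ θ ∈ U, g θ ∈ G ∧ (w θ).foldr c.rk.sh (g θ) = θ) ∧
      ∀ n : ℕ, {θ | θ ∈ U ∧ (w θ).length < n}.Finite := by
  obtain ⟨G, g, w, h1, h2, h3⟩ := c.rk.dickson U
  refine ⟨G, g, w, h1, h2, fun n => (h3 n).subset fun θ hθ => ⟨hθ.1, ?_⟩⟩
  rintro ⟨i, l1, l2, e⟩
  have := hθ.2
  rw [e] at this
  simp at this
  omega

theorem ok_of_mem {VV : Set (Subring (M → RS p O Θ))}
    (hV : CStable p c.ω (RS.C : O →+* RS p O Θ) VV) {J : Subring (M → RS p O Θ)} (hJ : J ∈ VV)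
    (h1 : ∀ b, (fun _ => RS.C b) ∈ J) (h2 : ∀ θ, c.Y f θ ∈ J) : c.Ok f := by
  obtain ⟨B, a1, a2, a3⟩ := hV.cst J hJ f
  exact ⟨VV, hV, B, a1, c.base_le f (hV.closed B a1) (fun b => a2 (h1 b)) (fun θ => a2 (h2 θ)) a3⟩

/-- Step 0 -/
theorem pp_zero (c : Ctx p O M ι Θ) : c.PP 0 := by
  intro j f hf
  obtain ⟨VV, hV, B, hB, hC⟩ := constFam' (p := p) (M := M) (ω := c.ω) (O := O)
  obtain ⟨G, g, w, -, h2, h3⟩ := c.dickson Set.univ
  obtain ⟨VV2, a1, J, a2, -, a3, a4⟩ := chart' hV hB Set.univ f c.J (fun θ _ => RS.X θ) hf _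
    (h3 (j + 1)) (fun _ _ θ _ => RS.tri_X θ) fun m hm θ _ hθ => by
      have b1 : j + 1 ≤ (w θ).length := by simpa only [Order.add_one_le_iff, Set.mem_univ, Order.lt_add_one_iff, true_and, Set.mem_ofPred_eq, not_le] using hθ
      have b2 : f m ≤ j := by simpa using hm
      have b3 := dvd_word (c := c) (w θ) (k := 0) (b := c.J (g θ) m) (by simp only [pow_zero, isUnit_one, IsUnit.dvd])
      rw [word_J, (h2 θ trivial).2] at b3
      exact (pow_dvd_pow _ (by omega)).trans b3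
  refine ok_of_mem a1 a2 (fun b => ?_) fun θ => a3 θ trivial
  simpa using a4 (RS.C ⟨_, hC b⟩) fun m _ => by simp

theorem Adm.lift {θ : Θ} {E : M → RS p O Θ} (h : c.Adm θ f E) {g : M → ℕ} (hg : c.PP g)
    (hle : f ≤ g) : ∃ E', c.Adm θ g E' := by
  obtain ⟨r, rfl⟩ := exists_add_of_le hle
  obtain ⟨A, h1, h2⟩ := h.mem
  obtain ⟨A', h3, E', h4, h5⟩ := h1.exists_div hg.ok h2 (g := r)
    ((h.big r hg).mono fun m hm => RS.pow_dvd_rho ((pow_dvd_pow _ (Nat.le_succ _)).trans hm))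
  refine ⟨E', hg, ⟨A', h3, h4⟩, ?_, fun t ht => ?_⟩
  · filter_upwards [h5, h.tri, h.big r hg] with m a b ⟨y, hy⟩
    obtain ⟨z, hz, e⟩ := b.rho (r m)
    have : E' m = z + (p : RS p O Θ) * RS.C y := by
      refine PR.pow_cancel (p := p) (k := r m) ?_
      rw [← a, e, hy]
      simp only [map_mul, map_pow, map_natCast]
      ring
    rw [this]
    exact hz.add_dvd (dvd_mul_right _ _)
  · rw [add_assoc] at ht
    filter_upwards [h5, h.big _ ht] with m a b
    have a3 := congrArg RS.ev0 a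
    rw [RS.ev0_rho, map_mul, map_pow, map_natCast] at a3
    rwa [a3, Pi.add_apply, add_assoc, PR.dvd_cancel] at b

theorem exists_common (G : Finset Θ) (hG : ∀ θ ∈ G, θ ∈ c.U) :
    ∃ (f : M → ℕ) (A : Subring (M → RS p O Θ)) (ε : Θ → M → RS p O Θ), c.PP f ∧ c.Nice f A ∧
      ∀ θ ∈ G, c.Adm θ f (ε θ) ∧ ε θ ∈ A := by
  classical
  have h1 : ∃ f, c.PP f ∧ ∀ θ ∈ G, ∃ E, c.Adm θ f E := by
    induction G using Finset.induction_on with
    | empty => exact ⟨0, c.pp_zero, by simp only [Finset.notMem_empty, IsEmpty.forall_iff, implies_true]⟩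
    | insert a s _ ih =>
      obtain ⟨f, hf, H⟩ := ih fun θ hθ => hG θ (Finset.mem_insert_of_mem hθ)
      obtain ⟨g, E, hE⟩ := hG a (Finset.mem_insert_self _ _)
      refine ⟨f ⊔ g, hf.sup hE.pp, fun θ hθ => ?_⟩
      rcases Finset.mem_insert.1 hθ with rfl | hθ
      · exact hE.lift (hf.sup hE.pp) le_sup_right
      · obtain ⟨E', hE'⟩ := H θ hθ
        exact hE'.lift (hf.sup hE.pp) le_sup_left
  obtain ⟨f, hf, H⟩ := h1
  choose! ε hε using H
  have h2 : ∀ s : Finset Θ, s ⊆ G → ∃ A, c.Nice f A ∧ ∀ θ ∈ s, ε θ ∈ A := by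
    intro s
    induction s using Finset.induction_on with
    | empty => exact fun _ => ⟨_, nice_base f, by simp⟩
    | insert a s _ ih =>
      intro hs
      obtain ⟨A, a1, a2⟩ := ih ((Finset.subset_insert _ _).trans hs)
      obtain ⟨A', a3, a4⟩ := (hε a (hs (Finset.mem_insert_self _ _))).mem
      obtain ⟨B, a5, a6, a7⟩ := a1.dir hf.ok a3
      refine ⟨B, a5, fun θ hθ => ?_⟩
      rcases Finset.mem_insert.1 hθ with rfl | hθ
      exacts [a6 a4, a7 (a2 θ hθ)]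
  obtain ⟨A, a1, a2⟩ := h2 G subset_rfl
  exact ⟨f, A, ε, hf, a1, fun θ hθ => ⟨hε θ hθ, a2 θ hθ⟩⟩

/-- The main step -/
theorem Nice.main (h : c.Nice f A) (hf : c.PP f) (ε : Θ → M → RS p O Θ)
    (hε : ∀ θ ∈ c.U, ε θ ∈ A) (r : M → ℕ) {S0 : Set M} (hS0 : S0 ∈ c.ω)
    (htri : ∀ m ∈ S0, ∀ θ ∈ c.U, RS.Tri θ (ε θ m)) {T : Set Θ} (hT : T.Finite)
    (hu : ∀ m ∈ S0, ∀ θ ∈ c.U, θ ∉ T → (p : O) ^ (r m + 1) ∣ RS.ev0 (ε θ m)) : c.Ok (f + r) := by
  obtain ⟨A1, h1, S, hS, s0, htau, hz, hX⟩ := h.expand hf.ok c.U ε hε hS0 htri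
  choose! z z1 z2 using fun θ m (hm : m ∈ S) (hθ : θ ∈ c.U) => (htri m (s0 hm) θ hθ).rho (r m)
  obtain ⟨VV2, a1, J, a2, a3, a4, a5⟩ := chart' (stable_VVb (c := c)) ⟨f, A1, hf, h1, rfl⟩ c.U r
    (fun θ m => RS.ev0 (ε θ m)) z hS T hT (fun m hm θ hθ => z1 θ m hm hθ)
    fun m hm => hu m (s0 hm)
  have key : A1 ≤ J.comap (rhoP r) := by
    refine hX _ ((a1.closed J a2).comap _) (fun N hN => a3 _ fun m hm => by simp [hN m hm])
      (fun N hN => ?_) fun θ hθ => satOn_mem a3 (a4 θ hθ) fun m hm => z2 θ m hm hθ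
    obtain ⟨F, hF⟩ := htau N hN.1
    have := h1.closed.pr
    have hb : Closed p (c.bRing A1) := (h1.closed_zRing hf.ok _).map _
    have b1 : F ∈ (emb p (c.bRing A1) Θ).range.comap
        ((piHom fun _ => RS.map RS.ev0).comp (emb p A1 Θ)) := by
      refine RS.mem_of_coeff (S := (zRing c.ω c.U A1).comap A1.subtype)
        (fun x hx => ⟨x.2, ?_⟩) ((closed_emb_range hb Θ).comap _)
        (fun x hx => ⟨RS.C ⟨_, x.1, hx, rfl⟩, funext fun m => by simp only [emb_C, piHom_apply, RingHom.coe_comp, Function.comp_apply, RS.map_C]⟩)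
        (fun θ => ⟨RS.X θ, funext fun m => by simp only [emb_X, RingHom.coe_comp, Function.comp_apply, piHom_apply, RS.map_X]⟩) _ fun μ => ⟨(RS.coeff μ F).2, ?_⟩
      · refine hx.2.mono fun m hm => RS.kill_of_pow_mul (a := 1) ?_
        simpa only [pow_one, Subring.subtype_apply, map_mul, map_natCast, Subring.coe_mul, SubringClass.coe_natCast, Pi.mul_apply, Pi.natCast_apply] using hm
      · filter_upwards [hS, hN.2] with m a b
        change RS.kill c.U (RS.coeff μ (emb p A1 Θ F m)) = RS.coeff μ (emb p A1 Θ F m)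
        rw [hF m a, RS.kill_coeff_tau b]
    obtain ⟨F', hF'⟩ := b1
    have b2 : ∀ m ∈ S, emb p (c.bRing A1) Θ F' m = N m := fun m hm => by
      rw [hF']
      simp only [RingHom.coe_comp, Function.comp_apply, piHom_apply, hF m hm, RS.map_ev0_tau]
    exact satOn_mem a3 (a5 F' fun m hm => by rw [b2 m hm]; exact hz m hm N hN)
      fun m hm => by rw [b2 m hm]; rfl
  refine ok_of_mem a1 a2 (fun b => ?_) fun θ => ?_
  · have := key (h1.base (c.C_mem_base f b))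
    rw [Subring.mem_comap] at this
    convert this using 1
    ext1 m; simp
  · rw [← rho_Y]
    exact key (h1.base (c.Y_mem_base f θ))

/-- All radii are fine. -/
theorem ok_all (c : Ctx p O M ι Θ) (a : M → ℕ) : c.Ok a := by
  obtain ⟨G, g, w, h1, h2, h3⟩ := c.dickson c.U
  obtain ⟨f, A, ε, hf, hA, hε⟩ := exists_common G h1
  have htri : ∀ᶠ m in (c.ω : Filter M), ∀ θ ∈ G, RS.Tri θ (ε θ m) :=
    (eventually_all_finset G).2 fun θ hθ => (hε θ hθ).1.tri
  have claim : ∀ (b : M → ℕ) (j : ℕ), (∀ᶠ m in (c.ω : Filter M), ∀ θ ∈ G,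
      (p : O) ^ (b m - f m - j) ∣ RS.ev0 (ε θ m)) → c.Ok b := by
    intro b j hb
    rcases ae_le_total (ω := c.ω) b f with H | H
    · exact hf 0 b H
    refine (hA.main hf (fun θ => (w θ).foldr (fun i x => c.dP i x) (ε (g θ)))
      (fun θ hθ => hA.word_mem _ (hε _ (h2 θ hθ).1).2) (b - f) (inter_mem htri hb)
      (fun m hm θ hθ => ?_) (h3 (j + 1)) fun m hm θ hθ hn => ?_).congr
      (H.mono fun m hm => by simp only [Pi.add_apply, Pi.sub_apply]; omega)
    · have := word_tri (c := c) (w θ) (hm.1 _ (h2 θ hθ).1)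
      rwa [(h2 θ hθ).2] at this
    · have b1 : j + 1 ≤ (w θ).length := by simpa only [Order.add_one_le_iff, Order.lt_add_one_iff, Set.mem_ofPred_eq, hθ, true_and, not_le] using hn
      rw [word_ev0]
      exact (pow_dvd_pow _ (by simp only [Pi.sub_apply, Order.add_one_le_iff]; omega)).trans (dvd_word (w θ) (hm.2 _ (h2 θ hθ).1))
  by_contra hc
  have h4 : ∀ᶠ m in (c.ω : Filter M), G.inf (fun θ => vp p (RS.ev0 (ε θ m))) ≠ ⊤ := by
    filter_upwards [Ultrafilter.eventually_not.2 fun H => hc (claim a 0 H)] with m hm e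
    exact hm fun θ hθ => dvd_iff_le_vp.2 (le_top.trans (e.ge.trans (Finset.inf_le hθ)))
  obtain ⟨e, he⟩ := exists_nat_rep h4
  have h5 : c.PP (f + e) := fun k b hb => claim b k (by
    filter_upwards [he, hb] with m a1 a2 θ hθ
    refine dvd_iff_le_vp.2 (le_trans ?_ (a1.ge.trans (Finset.inf_le hθ)))
    rw [Pi.add_apply] at a2
    exact_mod_cast (by omega : b m - f m - k ≤ e m))
  obtain ⟨m, a1, a2⟩ :=
    (he.and ((eventually_all_finset G).2 fun θ hθ => (hε θ hθ).1.big e h5)).exists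
  have a3 : ((e m + 1 : ℕ) : ℕ∞) ≤ G.inf fun θ => vp p (RS.ev0 (ε θ m)) :=
    Finset.le_inf fun θ hθ => dvd_iff_le_vp.1 (a2 θ hθ)
  rw [a1] at a3
  norm_cast at a3
  omega

theorem good_base (c : Ctx p O M ι Θ) :
    Good p c.ω ((c.Base 0).map (piHom fun _ => (RS.ev0 : RS p O Θ →+* O))) := by
  intro a
  have ho : c.Ok (0 + a) := c.ok_all _
  obtain ⟨A', h1, h2⟩ := (nice_base (c := c) 0).rho ho
  filter_upwards [h1.good ho a] with m hm
  rintro _ ⟨N, hN, rfl⟩ hd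
  have := ringHom_dvd RS.ev0 (hm _ (h2 N hN) (hd.mono fun _ h => RS.pow_dvd_rho h))
  simpa only [piHom_apply, RS.ev0_rho] using this

end Ctx

/-- **Theorem R.** -/
theorem thmR {p : ℕ} [Fact p.Prime] {O M : Type} [CommRing O] [DV p O] (ω : Ultrafilter M) {d n : ℕ}
    (δ : Fin d → O →+ O) (hder : ∀ i, IsDer (δ i)) (hcomm : ∀ i j b, δ i (δ j b) = δ j (δ i b))
    (hsmall : ∀ i b, (p : O) ∣ δ i b) (y : Fin n → M → O) :
    ∃ B : Subring (M → O), Closed p B ∧ (∀ b : O, (fun _ => b) ∈ B) ∧ (∀ j, y j ∈ B) ∧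
      (∀ i, ∀ N ∈ B, (fun m => δ i (N m)) ∈ B) ∧
      ∀ᶠ m in (ω : Filter M), ∀ N ∈ B, (∀ᶠ m' in (ω : Filter M), N m' = 0) → N m = 0 := by
  have : LeftCommutative fun i x => δ i x := ⟨hcomm⟩
  let c : Ctx p O M (Fin d) (H39R.Th d (Fin n)) :=
    { ω := ω
      rk := H39R.Th.ranked d (Fin n)
      δ := δ
      der := hder
      small := hsmall
      J := fun θ m => (Finsupp.toMultiset θ.idx).foldr (fun i x => δ i x) (y θ.snd m)
      hJ := fun i θ m => by
        simp [H39R.Th.ranked, H39R.Th.sh, Finsupp.toMultiset_single, add_comm,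
          Multiset.foldr_cons] }
  refine ⟨_, (closed_cl _).map _, fun b => ⟨_, c.C_mem_base 0 b, funext fun m => by simp⟩,
    fun j => ⟨_, c.Y_mem_base 0 (H39R.Th.mk 0 j), funext fun m => by simp only [c, piHom_apply, Ctx.Y, H39R.Th.snd_mk, H39R.Th.idx_mk, map_zero, Multiset.foldr_zero, Pi.zero_apply, pow_zero, one_mul, map_add, RS.ev0_C, RS.ev0_X, add_zero]⟩, ?_,
    c.good_base.vanish⟩
  rintro i _ ⟨N, hN, rfl⟩
  exact ⟨_, (Ctx.nice_base 0).dst i N hN, funext fun m => c.ev0_dL i _⟩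

end EN.R

end

-- part MP_646035_al.EN.A3
section

/-! Theorem R and Theorem A3. -/

namespace EN

theorem thmR : ThmR := fun _ _ _ _ _ _ _ δ h1 h2 h3 _ ω _ y => R.thmR ω δ h1 h2 h3 y

theorem A3 (G : Type) [Group G] [Group.FG G] (n : ℕ) : ENmod (TrK G n) := A3_of thmR G n

end EN

end

-- part MP_646035_al.H66G.AxG
section

/-!
The action on curves and the noetherian quotient.
-/

namespace Pool.Agent.MP_646035_al.MC

open Pool.Agent.MP_4a6971_al.H66 H84

variable {Γ : Type} [Group Γ]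

theorem Fuchs.axG [Group.FG Γ] (Y : Fuchs Γ) {A : Subgroup (MulAut Γ)} (hA : Y.Mod A)
    (h : ∃ E, Y.Curve E) : ∃ _ : MulAction (OutA A) (Fu.Cv Y), H71.AxG (Fu.i (S := Y)) (OutA A) :=
  ⟨_, H66G.axG hA h⟩

theorem Fuchs.en [Group.FG Γ] (Y : Fuchs Γ) {A : Subgroup (MulAut Γ)} (hA : Y.Mod A) :
    ∃ Z : Subgroup (OutA A), (Z : Set (OutA A)).Finite ∧ H24.EN Z := by
  refine ⟨_, H66G.trK_fin hA,
    H24.EN.map (EN.A3 Γ 3) A.subtype _ (QuotientGroup.mk'_surjective _) ?_⟩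
  rw [QuotientGroup.ker_mk']
  rintro φ ⟨z, hz⟩
  exact Subgroup.mem_comap.2 (hz ▸ EN.conj_mem_TrK Γ 3 z)

end Pool.Agent.MP_646035_al.MC

end
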