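import Mathlib
import Pool.Agent.MP_646035_al.H71.AHDef

-- part MP_646035_al.H71.Word
section

/-!
Reduced words in the free product of two copies of a group.
-/

namespace Pool.Agent.MP_646035_al.H71

open List Monoid

variable {A : Type} [Group A]

variable (A) in
/-- letters -/
abbrev Lt : Type := Σ _ : ZMod 2, A

variable (A) in
/-- the free product of two copies -/
abbrev Gp : Type := CoprodI fun _ : ZMod 2 => A

/-- the element given by a letter -/
def lt (x : Lt A) : Gp A := CoprodI.of (M := fun _ : ZMod 2 => A) (i := x.1) x.2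

/-- the product of a word -/
def pr (l : List (Lt A)) : Gp A := (l.map lt).prod

/-- reduced words -/
def Red (l : List (Lt A)) : Prop := (∀ x ∈ l, x.2 ≠ 1) ∧ l.IsChain fun a b => a.1 ≠ b.1

open scoped Classical in
/-- the normal form -/
noncomputable def nf (g : Gp A) : List (Lt A) := (CoprodI.Word.equiv g).toList

/-- the inverse of a word -/
def iv (l : List (Lt A)) : List (Lt A) := (l.map fun x => ⟨x.1, x.2⁻¹⟩).reverse

theorem nf_red (g : Gp A) : Red (nf g) := by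
  classical
  exact ⟨(CoprodI.Word.equiv g).ne_one, (CoprodI.Word.equiv g).chain_ne⟩

@[simp] theorem pr_nf (g : Gp A) : pr (nf g) = g := by
  classical
  exact CoprodI.Word.equiv.symm_apply_apply g

theorem Red.nf_pr {l : List (Lt A)} (h : Red l) : nf (pr l) = l := by
  classical
  exact congrArg CoprodI.Word.toList (CoprodI.Word.equiv.apply_symm_apply ⟨l, h.1, h.2⟩)

theorem nf_inj {g h : Gp A} (e : nf g = nf h) : g = h := by
  rw [← pr_nf g, e, pr_nf]

@[simp] theorem pr_nil : pr ([] : List (Lt A)) = 1 := rfl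

@[simp] theorem pr_cons (x : Lt A) (l : List (Lt A)) : pr (x :: l) = lt x * pr l := by
  simp [pr]

@[simp] theorem pr_append (l l' : List (Lt A)) : pr (l ++ l') = pr l * pr l' := by
  simp [pr]

@[simp] theorem iv_nil : iv ([] : List (Lt A)) = [] := rfl

theorem iv_cons (x : Lt A) (l : List (Lt A)) : iv (x :: l) = iv l ++ [⟨x.1, x.2⁻¹⟩] := by
  simp [iv]

@[simp] theorem length_iv (l : List (Lt A)) : (iv l).length = l.length := by simp [iv]

theorem lt_inv (x : Lt A) : lt ⟨x.1, x.2⁻¹⟩ = (lt x)⁻¹ := map_inv _ _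

@[simp] theorem pr_iv (l : List (Lt A)) : pr (iv l) = (pr l)⁻¹ := by
  induction l with
  | nil => simp
  | cons x l ih => simp [iv_cons, ih, lt_inv]

theorem red_nil : Red ([] : List (Lt A)) := ⟨by simp, isChain_nil⟩

theorem red_append {l l' : List (Lt A)} : Red (l ++ l') ↔
    Red l ∧ Red l' ∧ ∀ a ∈ l.getLast?, ∀ b ∈ l'.head?, a.1 ≠ b.1 := by
  simp only [Red, isChain_append, mem_append, or_imp, forall_and]
  tauto

theorem red_cons {x : Lt A} {l : List (Lt A)} : Red (x :: l) ↔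
    x.2 ≠ 1 ∧ Red l ∧ ∀ b ∈ l.head?, x.1 ≠ b.1 := by
  simp only [Red, isChain_cons, mem_cons, or_imp, forall_and, forall_eq]
  tauto

theorem Red.iv {l : List (Lt A)} (h : Red l) : Red (iv l) := by
  refine ⟨fun x hx => ?_, ?_⟩
  · simp only [H71.iv, mem_reverse, mem_map] at hx
    obtain ⟨y, hy, rfl⟩ := hx
    exact inv_ne_one.2 (h.1 y hy)
  · rw [H71.iv, isChain_reverse, isChain_map]
    exact h.2.imp fun _ _ h => h.symm

theorem getLast?_iv (l : List (Lt A)) :
    (iv l).getLast? = l.head?.map fun x => ⟨x.1, x.2⁻¹⟩ := by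
  simp [iv]

@[simp] theorem nf_one : nf (1 : Gp A) = [] := red_nil.nf_pr

theorem nf_inv (g : Gp A) : nf g⁻¹ = iv (nf g) := by
  rw [← (nf_red g).iv.nf_pr, pr_iv, pr_nf]

theorem exists_common {α : Type} (l l' : List α) : ∃ p u v, l = p ++ u ∧ l' = p ++ v ∧
    ∀ a ∈ u.head?, ∀ b ∈ v.head?, a ≠ b := by
  induction l generalizing l' with
  | nil => exact ⟨[], [], l', rfl, rfl, by simp only [head?_nil, Option.mem_def, reduceCtorEq, ne_eq, IsEmpty.forall_iff, implies_true]⟩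
  | cons a l ih =>
    cases l' with
    | nil => exact ⟨[], a :: l, [], rfl, rfl, by simp⟩
    | cons b l' =>
      by_cases h : a = b
      · obtain ⟨p, u, v, h1, h2, h3⟩ := ih l'
        exact ⟨a :: p, u, v, by rw [h1]; rfl, by rw [h2, h]; rfl, h3⟩
      · exact ⟨[], a :: l, b :: l', rfl, rfl, by simpa using h⟩

/-- The normal form of a quotient. -/
theorem nf_quot (g h : Gp A) : ∃ p u v, nf g = p ++ u ∧ nf h = p ++ v ∧
    (nf (g⁻¹ * h) = iv u ++ v ∨ ∃ i a b u' v', u = ⟨i, a⟩ :: u' ∧ v = ⟨i, b⟩ :: v' ∧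
      nf (g⁻¹ * h) = iv u' ++ ⟨i, a⁻¹ * b⟩ :: v') := by
  obtain ⟨p, u, v, h1, h2, h3⟩ := exists_common (nf g) (nf h)
  refine ⟨p, u, v, h1, h2, ?_⟩
  have hu : Red u := (red_append.1 (h1 ▸ nf_red g)).2.1
  have hv : Red v := (red_append.1 (h2 ▸ nf_red h)).2.1
  have e : g⁻¹ * h = (pr u)⁻¹ * pr v := by
    rw [← pr_nf g, ← pr_nf h, h1, h2, pr_append, pr_append]
    group
  by_cases hc : ∀ a ∈ u.head?, ∀ b ∈ v.head?, a.1 ≠ b.1
  · left
    rw [e, ← pr_iv, ← pr_append]
    refine Red.nf_pr (red_append.2 ⟨hu.iv, hv, fun a ha b hb => ?_⟩)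
    rw [getLast?_iv, Option.mem_def, Option.map_eq_some_iff] at ha
    obtain ⟨a', ha', rfl⟩ := ha
    exact hc a' ha' b hb
  · right
    push Not at hc
    obtain ⟨⟨i, a⟩, ha, ⟨j, b⟩, hb, hij⟩ := hc
    obtain rfl : i = j := hij
    obtain ⟨u', rfl⟩ : ∃ u', u = ⟨i, a⟩ :: u' := ⟨u.tail, (cons_head?_tail ha).symm⟩
    obtain ⟨v', rfl⟩ : ∃ v', v = ⟨i, b⟩ :: v' := ⟨v.tail, (cons_head?_tail hb).symm⟩
    refine ⟨i, a, b, u', v', rfl, rfl, ?_⟩
    have hab : a ≠ b := fun h => h3 _ ha _ hb (by rw [h])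
    have e2 : g⁻¹ * h = pr (iv u' ++ ⟨i, a⁻¹ * b⟩ :: v') := by
      rw [e]
      simp only [pr_cons, lt, mul_inv_rev, mul_assoc, pr_append, pr_iv, map_mul, map_inv]
    rw [e2]
    refine Red.nf_pr (red_append.2 ⟨(red_cons.1 hu).2.1.iv, red_cons.2 ⟨?_, (red_cons.1 hv).2⟩,
      fun x hx y hy => ?_⟩)
    · exact fun h => hab (inv_mul_eq_one.1 h)
    · rw [getLast?_iv, Option.mem_def, Option.map_eq_some_iff] at hx
      obtain ⟨x', hx', rfl⟩ := hx
      obtain rfl : (⟨i, a⁻¹ * b⟩ : Lt A) = y := by simpa using hy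
      exact ((red_cons.1 hu).2.2 x' hx').symm

/-- the syllable length -/
noncomputable def sl (g : Gp A) : ℕ := (nf g).length

@[simp] theorem sl_inv (g : Gp A) : sl g⁻¹ = sl g := by simp [sl, nf_inv]

theorem Red.sl_pr {l : List (Lt A)} (h : Red l) : sl (pr l) = l.length := by rw [sl, h.nf_pr]

theorem sl_mul (g h : Gp A) : sl (g * h) ≤ sl g + sl h := by
  obtain ⟨p, u, v, h1, h2, h3⟩ := nf_quot g⁻¹ h
  rw [← sl_inv g]
  rw [inv_inv] at h3
  unfold sl
  rcases h3 with h3 | ⟨i, a, b, u', v', rfl, rfl, h3⟩ <;> simp only [h3, length_append, length_iv, h1, h2, length_cons] <;> omega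

theorem sl_lt (x : Lt A) : sl (lt x) ≤ 1 := by
  by_cases h : x.2 = 1
  · simp [sl, lt, h]
  · have : Red [x] := red_cons.2 ⟨h, red_nil, by simp⟩
    simpa using this.sl_pr.le

/-- A common initial part bounds the distance from above. -/
theorem sl_le_of_common {g h : Gp A} {p : List (Lt A)} (hg : p <+: nf g) (hh : p <+: nf h) :
    sl (g⁻¹ * h) + 2 * p.length ≤ sl g + sl h := by
  obtain ⟨u, h1⟩ := hg
  obtain ⟨v, h2⟩ := hh
  have hu : Red u := (red_append.1 (h1 ▸ nf_red g)).2.1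
  have hv : Red v := (red_append.1 (h2 ▸ nf_red h)).2.1
  have e : g⁻¹ * h = (pr u)⁻¹ * pr v := by
    rw [← pr_nf g, ← pr_nf h, ← h1, ← h2, pr_append, pr_append]
    group
  have h3 := sl_mul (pr u)⁻¹ (pr v)
  rw [sl_inv, hu.sl_pr, hv.sl_pr, ← e] at h3
  have h4 : sl g = p.length + u.length := by rw [sl, ← h1, length_append]
  have h5 : sl h = p.length + v.length := by rw [sl, ← h2, length_append]
  omega

theorem exists_common_nf (g h : Gp A) : ∃ p, p <+: nf g ∧ p <+: nf h ∧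
    sl g + sl h ≤ sl (g⁻¹ * h) + 2 * p.length + 1 := by
  obtain ⟨p, u, v, h1, h2, h3⟩ := nf_quot g h
  refine ⟨p, ⟨u, h1.symm⟩, ⟨v, h2.symm⟩, ?_⟩
  unfold sl
  rcases h3 with h3 | ⟨i, a, b, u', v', rfl, rfl, h3⟩ <;> simp only [h1, length_append, h2, h3, length_iv, length_cons] <;> omega

/-- Left multiplication changes only the beginning of a word. -/
theorem nf_mul_drop (g y : Gp A) : ∃ s k, s.length ≤ sl g ∧ k ≤ sl g ∧
    nf (g * y) = s ++ (nf y).drop k := by
  obtain ⟨p, u, v, h1, h2, h3⟩ := nf_quot g⁻¹ y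
  rw [inv_inv] at h3
  have h4 : sl g = p.length + u.length := by rw [← sl_inv, sl, h1, length_append]
  rcases h3 with h3 | ⟨i, a, b, u', v', rfl, rfl, h3⟩
  · exact ⟨iv u, p.length, by simp [h4], by omega, by simp [h2, h3]⟩
  · refine ⟨iv u' ++ [⟨i, a⁻¹ * b⟩], p.length + 1, by simp [h4], by simp [h4], ?_⟩
    rw [h3, h2, ← drop_drop]
    simp

/-- If left multiplication by `x⁻¹` destroys the final part `q`, the rest is an initial part of
`x`. -/
theorem cut_step {x : Gp A} {r q : List (Lt A)} (h : Red (r ++ q))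
    (hq : ¬ q <:+ nf (x⁻¹ * pr (r ++ q))) : r <+: nf x := by
  obtain ⟨hr, hq', hrq⟩ := red_append.1 h
  obtain ⟨p, u, v, h1, h2, h3⟩ := nf_quot x (pr r)
  rw [hr.nf_pr] at h2
  rcases eq_or_ne v [] with rfl | hv
  · exact ⟨u, by simp [h1, h2]⟩
  refine absurd ⟨nf (x⁻¹ * pr r), ?_⟩ hq
  have hred : Red (nf (x⁻¹ * pr r) ++ q) := by
    refine red_append.2 ⟨nf_red _, hq', fun a ha b hb => ?_⟩
    obtain ⟨c, hc⟩ : ∃ c, v.getLast? = some c := ⟨_, getLast?_eq_some_getLast hv⟩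
    have hc' : c ∈ r.getLast? := by simp [h2, hc]
    suffices a.1 = c.1 from this ▸ hrq c hc' b hb
    rcases h3 with h3 | ⟨i, a', b', u', v', rfl, rfl, h3⟩
    · simp [h3, hc] at ha
      rw [ha]
    · rw [h3] at ha
      cases v' with
      | nil =>
        simp at ha hc
        rw [← ha, ← hc]
      | cons d v' =>
        simp only [getLast?_append, getLast?_cons_cons] at ha hc
        simp [hc] at ha
        rw [ha]
  rw [← hred.nf_pr, pr_append, pr_nf, pr_append, mul_assoc]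

/-- the alternating word with first index `i` and values `f 0, ..., f (n - 1)` -/
def alt (i : ZMod 2) (f : ℕ → A) (n : ℕ) : List (Lt A) := (range n).map fun k : ℕ => ⟨i + (k : ZMod 2), f k⟩

omit [Group A] in
@[simp] theorem length_alt (i : ZMod 2) (f : ℕ → A) (n : ℕ) : (alt i f n).length = n := by
  simp [alt]

theorem red_alt (i : ZMod 2) {f : ℕ → A} (hf : ∀ k, f k ≠ 1) (n : ℕ) : Red (alt i f n) := by
  refine ⟨fun x hx => ?_, ?_⟩
  · obtain ⟨k, -, rfl⟩ := mem_map.1 hx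
    exact hf k
  · rw [alt, isChain_map, isChain_range]
    intro m _
    simp only [Nat.succ_eq_add_one, Nat.cast_add, Nat.cast_one, ne_eq, add_right_inj, left_eq_add, one_ne_zero, not_false_eq_true]

omit [Group A] in
theorem alt_succ (i : ZMod 2) (f : ℕ → A) (n : ℕ) :
    alt i f (n + 1) = alt i f n ++ [⟨i + n, f n⟩] := by
  simp [alt, range_succ]

omit [Group A] in
theorem head?_alt (i : ZMod 2) (f : ℕ → A) (n : ℕ) : (alt i f (n + 1)).head? = some ⟨i, f 0⟩ := by
  simp [alt, range_succ_eq_map]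

omit [Group A] in
theorem alt_pre (i : ZMod 2) (f : ℕ → A) {m n : ℕ} (h : m ≤ n) : alt i f m <+: alt i f n := by
  induction h with
  | refl => exact prefix_rfl
  | step _ ih => exact ih.trans (by rw [alt_succ]; exact prefix_append _ _)

omit [Group A] in
theorem getElem?_alt (i : ZMod 2) (f : ℕ → A) {n k : ℕ} (h : k < n) :
    (alt i f n)[k]? = some ⟨i + k, f k⟩ := by
  simp [alt, h]

end Pool.Agent.MP_646035_al.H71

end

-- part MP_646035_al.H71.AH
section

/-!
The free product of two copies of a group with at least three elements is acylindrically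
hyperbolic.
-/

namespace Pool.Agent.MP_646035_al.H71

open List Monoid Filter

variable {A : Type} [Group A]

theorem sl_prod (w : List (Gp A))
    (hw : ∀ x ∈ w, x ∈ Set.range (lt (A := A)) ∨ x⁻¹ ∈ Set.range (lt (A := A))) :
    sl w.prod ≤ w.length := by
  induction w with
  | nil => simp [sl]
  | cons x w ih =>
    have h1 := ih fun y hy => hw y (mem_cons_of_mem _ hy)
    have h2 : sl x ≤ 1 := by
      rcases hw x mem_cons_self with ⟨y, hy⟩ | ⟨y, hy⟩
      · exact hy ▸ sl_lt y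
      · exact sl_inv x ▸ hy ▸ sl_lt y
    have h3 := sl_mul x w.prod
    rw [prod_cons, length_cons]
    omega

theorem wdist_eq (g h : Gp A) : wdist (Set.range (lt (A := A))) g h = sl (g⁻¹ * h) := by
  unfold wdist
  congr 1
  refine IsLeast.csInf_eq ⟨⟨(nf (g⁻¹ * h)).map lt, by simp [sl], fun x hx => ?_, ?_⟩, ?_⟩
  · obtain ⟨y, -, rfl⟩ := mem_map.1 hx
    exact Or.inl ⟨y, rfl⟩
  · change g * pr _ = h
    simp
  · rintro n ⟨w, rfl, h1, rfl⟩
    simpa using sl_prod w h1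

/-- the Gromov product with base point `1` -/
noncomputable def gp (g h : Gp A) : ℝ := ((sl g : ℝ) + sl h - sl (g⁻¹ * h)) / 2

theorem gromov_eq (o g h : Gp A) :
    gromov (Set.range (lt (A := A))) o g h = gp (o⁻¹ * g) (o⁻¹ * h) := by
  simp only [gromov, wdist_eq, gp, mul_inv_rev, inv_inv, mul_assoc, mul_inv_cancel_left]

theorem le_gp {g h : Gp A} {p : List (Lt A)} (hg : p <+: nf g) (hh : p <+: nf h) :
    (p.length : ℝ) ≤ gp g h := by
  have : ((sl (g⁻¹ * h) + 2 * p.length : ℕ) : ℝ) ≤ (sl g + sl h : ℕ) := by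
    exact_mod_cast sl_le_of_common hg hh
  push_cast at this
  unfold gp
  linarith

theorem gp_le (g h : Gp A) : ∃ p, p <+: nf g ∧ p <+: nf h ∧ gp g h ≤ p.length + 1 := by
  obtain ⟨p, h1, h2, h3⟩ := exists_common_nf g h
  refine ⟨p, h1, h2, ?_⟩
  have : ((sl g + sl h : ℕ) : ℝ) ≤ (sl (g⁻¹ * h) + 2 * p.length + 1 : ℕ) := by exact_mod_cast h3
  push_cast at this
  unfold gp
  linarith only [this]

theorem gp_four (a b c : Gp A) : min (gp a b) (gp b c) - 1 ≤ gp a c := by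
  obtain ⟨p, h1, h2, h3⟩ := gp_le a b
  obtain ⟨q, h4, h5, h6⟩ := gp_le b c
  rcases prefix_or_prefix_of_prefix h2 h4 with h | h
  · linarith [le_gp h1 (h.trans h5), min_le_left (gp a b) (gp b c)]
  · linarith [le_gp (h.trans h1) h5, min_le_right (gp a b) (gp b c)]

theorem ray_tendsto (c d : Lt A) (hc : c.2 ≠ 1) (hd : d.2 ≠ 1) :
    Tendsto (fun p : ℕ × ℕ => gp (pr (alt c.1 (fun _ => c.2) p.1)) (pr (alt d.1 (fun _ => d.2) p.2)))
      atTop atTop ↔ c = d := by
  have hc' := fun n => (red_alt c.1 (f := fun _ => c.2) (fun _ => hc) n).nf_pr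
  have hd' := fun n => (red_alt d.1 (f := fun _ => d.2) (fun _ => hd) n).nf_pr
  constructor
  · intro h
    obtain ⟨⟨m, n⟩, h1⟩ := eventually_atTop.1 (h.eventually_gt_atTop 1)
    have h2 := h1 (m + 1, n + 1) ⟨Nat.le_succ m, Nat.le_succ n⟩
    obtain ⟨p, h3, h4, h5⟩ := gp_le (pr (alt c.1 (fun _ => c.2) (m + 1)))
      (pr (alt d.1 (fun _ => d.2) (n + 1)))
    rw [hc'] at h3
    rw [hd'] at h4
    cases p with
    | nil => simp at h5; exact absurd h2 (not_lt.2 h5)
    | cons a p =>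
      obtain ⟨s, h3⟩ := h3
      obtain ⟨t, h4⟩ := h4
      have h6 := head?_alt c.1 (fun _ => c.2) m
      have h7 := head?_alt d.1 (fun _ => d.2) n
      rw [← h3] at h6
      rw [← h4] at h7
      simp at h6 h7
      exact h6.symm.trans h7
  · rintro rfl
    refine tendsto_atTop.2 fun b => ?_
    filter_upwards [eventually_ge_atTop (⌈b⌉₊, ⌈b⌉₊)] with p hp
    refine (Nat.le_ceil b).trans ?_
    simpa only [length_alt] using le_gp (p := alt c.1 (fun _ => c.2) ⌈b⌉₊) (by rw [hc']; exact alt_pre _ _ hp.1)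
      (by rw [hc']; exact alt_pre _ _ hp.2)

theorem acyl_core {E : ℕ} {g y : Gp A} (hy : 2 * E + 1 ≤ sl y) (h1 : sl g ≤ E)
    (h2 : sl (y⁻¹ * (g * y)) ≤ E) :
    ∃ m ≤ E, ∃ k ≤ E, g = pr ((nf y).take m) * (pr ((nf y).take k))⁻¹ := by
  obtain ⟨p, h3, h4, h5⟩ := exists_common_nf y (g * y)
  obtain ⟨s, k, h6, h7, h8⟩ := nf_mul_drop g y
  have h9 := sl_mul g⁻¹ (g * y)
  rw [inv_mul_cancel_left, sl_inv] at h9
  have h10 : s <+: p := prefix_of_prefix_length_le ⟨_, h8.symm⟩ h4 (by omega)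
  refine ⟨s.length, by omega, k, by omega, ?_⟩
  rw [← prefix_iff_eq_take.1 (h10.trans h3), eq_mul_inv_iff_mul_eq]
  refine mul_right_cancel (b := pr ((nf y).drop k)) ?_
  rw [mul_assoc, ← pr_append, take_append_drop, pr_nf, ← pr_append, ← h8, pr_nf]

theorem closure_lt : Subgroup.closure (Set.range (lt (A := A))) = ⊤ := by
  refine eq_top_iff.2 fun g _ => ?_
  rw [← pr_nf g]
  refine list_prod_mem fun x hx => ?_
  obtain ⟨y, -, rfl⟩ := mem_map.1 hx
  exact Subgroup.subset_closure ⟨y, rfl⟩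

theorem acylHyp {x y : A} (hx : x ≠ 1) (hy : y ≠ 1) (hxy : x ≠ y) : AcylHyp (Gp A) := by
  refine ⟨Set.range lt, closure_lt, ⟨1, fun o a b c => ?_⟩, ?_, fun ε => ?_⟩
  · simp only [gromov_eq]
    exact gp_four _ _ _
  · let c : Fin 3 → Lt A := ![⟨0, x⟩, ⟨0, y⟩, ⟨1, x⟩]
    have hc : ∀ i, (c i).2 ≠ 1 := fun i => by fin_cases i <;> assumption
    refine ⟨fun i n => pr (alt (c i).1 (fun _ => (c i).2) n), fun i j => ?_⟩
    simp only [gromov_eq, inv_one, one_mul]
    rw [ray_tendsto _ _ (hc i) (hc j)]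
    fin_cases i <;> fin_cases j <;> simp only [c, Fin.zero_eta, Fin.isValue, Matrix.cons_val_zero, Fin.mk_one, Matrix.cons_val_one, Sigma.mk.injEq, heq_eq_eq, hxy, and_false, zero_ne_one, Fin.reduceFinMk, Matrix.cons_val, and_true, Fin.reduceEq, hxy.symm, one_ne_zero, and_self]
  · refine ⟨(2 * ⌊ε⌋₊ + 1 : ℕ), (⌊ε⌋₊ + 1) * (⌊ε⌋₊ + 1), fun a b hab => ?_⟩
    simp only [wdist_eq] at hab ⊢
    let w := nf (a⁻¹ * b)
    refine (Set.encard_le_encard (t := (fun p : ℕ × ℕ =>
      a * (pr (w.take p.1) * (pr (w.take p.2))⁻¹) * a⁻¹) ''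
        (Finset.range (⌊ε⌋₊ + 1) ×ˢ Finset.range (⌊ε⌋₊ + 1) : Finset _)) ?_).trans
      ((Set.encard_image_le _ _).trans ?_)
    · rintro g ⟨h1, h2⟩
      obtain ⟨m, hm, k, hk, h⟩ := acyl_core (g := a⁻¹ * (g * a)) (y := a⁻¹ * b)
        (by exact_mod_cast hab) (Nat.le_floor h1) (Nat.le_floor (by simpa only [mul_inv_rev, inv_inv, mul_assoc, mul_inv_cancel_left] using h2))
      refine ⟨(m, k), by simp only [Finset.coe_product, Finset.coe_range, Set.mem_prod, Set.mem_Iio, Order.lt_add_one_iff]; omega, ?_⟩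
      simp only [w, ← h]
      group
    · rw [Set.encard_coe_eq_coe_finsetCard]
      simp

end Pool.Agent.MP_646035_al.H71

end
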