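import Pool.Agent.MP_646035_al.PC.Grp
import Pool.Agent.MP_646035_al.Mg.H71_AH

-- part MP_646035_al.H71.Tight
section

/-!
Growth tightness of free products: killing an element of both factors lowers the growth rate.
-/

namespace Pool.Agent.MP_646035_al.H71

open List Monoid Filter Topology

section General

variable {Γ : Type*} [Group Γ]

theorem pow_rate_le {S : Finset Γ} {e : ℝ} (h : IsRate S e) (r : ℕ) :
    e ^ r ≤ (ball S r).ncard := by
  rcases Nat.eq_zero_or_pos r with rfl | hr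
  · rw [pow_zero]
    exact_mod_cast one_le_ncard_ball S 0
  have h0 : Tendsto (fun m : ℕ => ((ball S ((m + 1) * r)).ncard : ℝ) ^ (1 / ((m + 1 : ℕ) : ℝ)))
      atTop (𝓝 (e ^ r)) := by
    have h1 : Tendsto (fun m : ℕ => (m + 1) * r) atTop atTop :=
      tendsto_atTop_mono (fun m => by simp only [id]; nlinarith) tendsto_id
    refine ((h.comp h1).pow r).congr fun m => ?_
    simp only [Function.comp]
    rw [← Real.rpow_natCast, ← Real.rpow_mul (Nat.cast_nonneg _)]
    congr 1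
    have : (r : ℝ) ≠ 0 := by positivity
    push_cast
    field_simp
  have h1 : ∀ m, (ball S ((m + 1) * r)).ncard ≤ (ball S r).ncard ^ (m + 1) := by
    intro m
    induction m with
    | zero => simp
    | succ m ih =>
      rw [add_mul (m + 1), one_mul, pow_succ]
      exact (ncard_ball_add S _ _).trans (Nat.mul_le_mul_right _ ih)
  refine le_of_tendsto' h0 fun m => ?_
  rw [one_div, Real.rpow_inv_le_iff_of_pos (Nat.cast_nonneg _) (Nat.cast_nonneg _) (by positivity),
    Real.rpow_natCast]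
  exact_mod_cast h1 m

/-- the word length -/
noncomputable def len (S : Finset Γ) (g : Γ) : ℕ := sInf {n | g ∈ ball S n}

theorem len_le {S : Finset Γ} {g : Γ} {n : ℕ} (h : g ∈ ball S n) : len S g ≤ n := Nat.sInf_le h

theorem mem_ball_len {S : Finset Γ} (hS : Subgroup.closure (S : Set Γ) = ⊤) (g : Γ) :
    g ∈ ball S (len S g) := by
  refine Nat.sInf_mem (s := {n | g ∈ ball S n}) ?_
  have hg : g ∈ Subgroup.closure (S : Set Γ) := hS ▸ Subgroup.mem_top g
  induction hg using Subgroup.closure_induction with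
  | mem x hx => exact ⟨1, mem_ball_one hx⟩
  | one => exact ⟨0, one_mem_ball S 0⟩
  | mul x y _ _ hx hy => exact ⟨_, mul_mem_ball hx.some_mem hy.some_mem⟩
  | inv x _ hx => exact ⟨_, inv_mem_ball hx.some_mem⟩

theorem len_mul {S : Finset Γ} (hS : Subgroup.closure (S : Set Γ) = ⊤) (g h : Γ) :
    len S (g * h) ≤ len S g + len S h :=
  len_le (mul_mem_ball (mem_ball_len hS g) (mem_ball_len hS h))

theorem len_inv {S : Finset Γ} (hS : Subgroup.closure (S : Set Γ) = ⊤) (g : Γ) :
    len S g⁻¹ ≤ len S g :=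
  len_le (inv_mem_ball (mem_ball_len hS g))

theorem geo (z : ℝ) (l N : ℕ) :
    (1 - z) * ∑ n ∈ Finset.range N, (if l ≤ n then z ^ n else 0) = z ^ l - z ^ max l N := by
  induction N with
  | zero => simp
  | succ N ih =>
    rw [Finset.sum_range_succ, mul_add, ih]
    split_ifs with h
    · rw [max_eq_right h, max_eq_right (h.trans (Nat.le_add_right N 1))]
      ring
    · rw [max_eq_left (by omega), max_eq_left (by omega)]
      ring

/-- If the Poincaré series converges at `e`, the growth rate is less than `e`. -/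
theorem rate_lt [Infinite Γ] {S : Finset Γ} {e e' C : ℝ} (he : 1 ≤ e) (he' : IsRate S e')
    (l : Γ → ℕ) (hl : ∀ n, ∀ g ∈ ball S n, l g ≤ n)
    (hC : ∀ s : Finset Γ, ∑ g ∈ s, e⁻¹ ^ l g ≤ C) : 1 < e ∧ e' < e := by
  have h1 : 1 < e := by
    refine he.lt_of_ne ?_
    rintro rfl
    obtain ⟨N, hN⟩ := exists_nat_gt C
    obtain ⟨s, hs⟩ := Infinite.exists_subset_card_eq Γ N
    have := hC s
    simp [hs] at this
    linarith only [hN, this]
  refine ⟨h1, not_le.1 fun h2 => ?_⟩
  have hz0 : 0 < e⁻¹ := by positivity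
  have hz1 : 0 < 1 - e⁻¹ := sub_pos.2 (inv_lt_one_of_one_lt₀ h1)
  obtain ⟨N, hN⟩ := exists_nat_gt (C / (1 - e⁻¹))
  rw [div_lt_iff₀ hz1] at hN
  refine absurd hN (not_lt.2 (le_trans ?_ (hC (ball_finite S N).toFinset)))
  calc (N : ℝ) * (1 - e⁻¹) = (1 - e⁻¹) * ∑ _n ∈ Finset.range N, (1 : ℝ) := by simp [mul_comm]
    _ ≤ (1 - e⁻¹) * ∑ n ∈ Finset.range N, ∑ g ∈ (ball_finite S N).toFinset,
        (if l g ≤ n then e⁻¹ ^ n else 0) := by
      refine mul_le_mul_of_nonneg_left (Finset.sum_le_sum fun n hn => ?_) hz1.le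
      have h3 : (ball_finite S n).toFinset ⊆ (ball_finite S N).toFinset := by
        simpa only [Set.Finite.subset_toFinset, Set.Finite.coe_toFinset] using ball_mono S (Finset.mem_range.1 hn).le
      refine le_trans ?_ (Finset.sum_le_sum_of_subset_of_nonneg h3 fun _ _ _ => by positivity)
      rw [Finset.sum_congr rfl fun g hg => if_pos (hl n g (by simpa using hg)), Finset.sum_const,
        nsmul_eq_mul, ← Set.ncard_eq_toFinset_card _ (ball_finite S n), inv_pow,
        ← div_eq_mul_inv, one_le_div (by positivity)]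
      exact (pow_le_pow_left₀ (by positivity) h2 n).trans (pow_rate_le he' n)
    _ ≤ _ := by
      rw [Finset.sum_comm, Finset.mul_sum]
      refine Finset.sum_le_sum fun g _ => ?_
      rw [geo]
      exact sub_le_self _ (by positivity)

theorem kraft {S : Finset Γ} {e : ℝ} (he : IsRate S e) {α : Type} (s : Finset α) (f : α → Γ)
    (l : α → ℕ) (hs : PC.Sep s f) (hb : ∀ ω ∈ s, f ω ∈ ball S (l ω)) :
    ∑ ω ∈ s, e⁻¹ ^ l ω ≤ 1 := by
  have h0 : 0 < e := one_pos.trans_le he.one_le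
  have h1 : Continuous fun z : ℝ => ∑ ω ∈ s, z ^ l ω := by fun_prop
  refine le_of_tendsto (x := 𝓝[<] e⁻¹) ((h1.tendsto _).mono_left nhdsWithin_le_nhds) ?_
  filter_upwards [Ioo_mem_nhdsLT (inv_pos.2 h0)] with z hz
  exact PC.block_lb he hz.1 ((lt_inv_mul_iff₀' h0).1 (by simpa using hz.2)) s f l hs hb

end General

variable {A : Type} [Group A] {S : Finset (Gp A)}

theorem exists_K (S : Finset (Gp A)) :
    ∃ K, ∀ s ∈ ball S 1, ∀ r, r <+: nf s → len S (pr r) ≤ K := by
  obtain ⟨K, hK⟩ := (((ball_finite S 1).biUnion fun s _ =>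
    (nf s).inits.finite_toSet).image fun r => len S (pr r)).bddAbove
  exact ⟨K, fun s hs r hr => hK ⟨r, Set.mem_biUnion hs ((mem_inits _ _).2 hr), rfl⟩⟩

/-- The word length is almost additive on reduced products. -/
theorem len_add (hS : Subgroup.closure (S : Set (Gp A)) = ⊤) {K : ℕ}
    (hK : ∀ s ∈ ball S 1, ∀ r, r <+: nf s → len S (pr r) ≤ K) {r q : List (Lt A)}
    (h : Red (r ++ q)) : len S (pr r) + len S (pr q) ≤ len S (pr (r ++ q)) + 2 * K := by
  obtain ⟨w, h1, h2, h3⟩ := mem_ball_len hS (pr (r ++ q))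
  refine le_trans ?_ (Nat.add_le_add_right h1 _)
  clear h1
  induction w generalizing r with
  | nil =>
    have h4 := h.nf_pr
    rw [← h3, prod_nil, nf_one, eq_comm, append_eq_nil_iff] at h4
    have := len_le (one_mem_ball S 0)
    simp only [h4.1, h4.2, pr_nil]
    omega
  | cons s w ih =>
    have hs : s ∈ ball S 1 := ⟨[s], le_rfl, by simpa using h2 s mem_cons_self, by simp⟩
    have hs1 := len_le hs
    rw [length_cons]
    by_cases hq : q <:+ nf (s⁻¹ * pr (r ++ q))
    · obtain ⟨r', hr'⟩ := hq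
      have h4 : pr (r' ++ q) = s⁻¹ * pr (r ++ q) := by rw [hr', pr_nf]
      have h5 := ih (r := r') (hr' ▸ nf_red _) (fun x hx => h2 x (mem_cons_of_mem _ hx))
        (by rw [h4, ← h3]; simp)
      have h6 : pr r = s * pr r' := by
        rw [pr_append, pr_append, ← mul_assoc, mul_left_inj] at h4
        simp [h4]
      have h7 := len_mul hS s (pr r')
      rw [h6]
      omega
    · have h4 := hK s hs r (cut_step h hq)
      have h5 : len S (pr (r ++ q)) ≤ w.length + 1 := len_le ⟨s :: w, le_rfl, h2, h3⟩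
      have h6 := len_mul hS (pr r)⁻¹ (pr (r ++ q))
      have h7 := len_inv hS (pr r)
      rw [pr_append, inv_mul_cancel_left, ← pr_append] at h6
      omega

/-- words without `n` consecutive letters of value `x` -/
def Av (x : A) (n : ℕ) (w : List (Lt A)) : Prop :=
  ¬ ∃ r P q, w = r ++ P ++ q ∧ P.length = n ∧ ∀ a ∈ P, a.2 = x

theorem exists_av (hS : Subgroup.closure (S : Set (Gp A)) = ⊤) {H : Type*} [Group H]
    (φ : Gp A →* H) {x : A} (hk : ∀ i, φ (lt ⟨i, x⟩) = 1) :
    ∃ n, ∀ g, (∀ g', φ g' = φ g → len S g ≤ len S g') → Av x n (nf g) := by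
  obtain ⟨K, hK⟩ := exists_K S
  obtain ⟨n, hn⟩ := ((ball_finite S (4 * K)).image sl).bddAbove
  refine ⟨n + 1, fun g hg ⟨r, P, q, h1, h2, h3⟩ => ?_⟩
  have hr : Red (r ++ P ++ q) := h1 ▸ nf_red g
  have hr' := (red_append.1 hr).1
  have h4 := len_add hS hK hr
  have h5 := len_add hS hK hr'
  have h6 : 4 * K < len S (pr P) := by
    by_contra h
    have := hn ⟨_, ball_mono S (not_lt.1 h) (mem_ball_len hS _), rfl⟩
    rw [(red_append.1 hr').2.1.sl_pr] at this
    omega
  have h7 : φ (pr P) = 1 := by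
    rw [pr, map_list_prod]
    refine prod_eq_one fun y hy => ?_
    simp only [List.mem_map] at hy
    obtain ⟨_, ⟨⟨i, a⟩, ha, rfl⟩, rfl⟩ := hy
    obtain rfl : a = x := h3 _ ha
    exact hk i
  have h8 := hg (pr r * pr q) (by rw [← pr_nf g, h1]; simp [h7])
  have h9 := len_mul hS (pr r) (pr q)
  rw [← h1, pr_nf] at h4
  omega

open scoped Classical in
/-- the marker: `n` letters of value `x`, then `M` letters of value `y` -/
noncomputable def mk (x y : A) (n : ℕ) (j : ZMod 2) (M : ℕ) : List (Lt A) :=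
  alt j (fun k => if k < n then x else y) (n + (M + 1))

omit [Group A] in
theorem decode {x y : A} (hxy : x ≠ y) {n : ℕ} {w w' t t' : List (Lt A)} {j j' : ZMod 2}
    {M M' : ℕ} (hw' : Av x n w') (hl : w.length ≤ w'.length)
    (h : w ++ mk x y n j M ++ t = w' ++ mk x y n j' M' ++ t') : w = w' := by
  classical
  obtain ⟨d, rfl⟩ : w <+: w' := prefix_of_prefix_length_le ⟨_, (append_assoc _ _ _).symm⟩
    ⟨_, (append_assoc _ _ _).symm.trans h.symm⟩ hl
  simp only [append_assoc, append_cancel_left_eq] at h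
  rcases le_or_gt n d.length with h1 | h1
  · obtain ⟨q, rfl⟩ : alt j (fun k => if k < n then x else y) n <+: d :=
      prefix_of_prefix_length_le ((alt_pre _ _ (Nat.le_add_right _ _)).trans ⟨t, rfl⟩)
        ⟨_, h.symm⟩ (by simpa using h1)
    refine absurd ⟨w, _, q, (append_assoc _ _ _).symm, length_alt _ _ _, fun a ha => ?_⟩ hw'
    obtain ⟨k, hk, rfl⟩ := mem_map.1 ha
    exact if_pos (mem_range.1 hk)
  · rcases Nat.eq_zero_or_pos d.length with h2 | h2
    · simp [length_eq_zero_iff.1 h2]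
    have h3 := congrArg (fun l => l[n]?) h
    simp only [mk] at h3
    rw [getElem?_append_left (by simp), getElem?_append_right h1.le,
      getElem?_append_left (by simp; omega), getElem?_alt _ _ (by omega),
      getElem?_alt _ _ (by omega), if_neg (lt_irrefl n), if_pos (by omega)] at h3
    exact absurd (congrArg (fun a : Lt A => a.2) (Option.some.inj h3)).symm hxy

/-- reduced words that begin with the index `i` and end with the other index -/
def Blk (i : ZMod 2) (u : List (Lt A)) : Prop :=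
  Red u ∧ (∀ a ∈ u.head?, a.1 = i) ∧ ∀ b ∈ u.getLast?, b.1 ≠ i

theorem red_flatMap {α : Type} {i : ZMod 2} (bl : α → List (Lt A)) (l : List α)
    (h : ∀ g ∈ l, Blk i (bl g)) : Red (l.flatMap bl) ∧ ∀ a ∈ (l.flatMap bl).head?, a.1 = i := by
  induction l with
  | nil => exact ⟨red_nil, by simp⟩
  | cons g l ih =>
    obtain ⟨h1, h2⟩ := ih fun g hg => h g (mem_cons_of_mem _ hg)
    obtain ⟨h3, h4, h5⟩ := h g mem_cons_self
    rw [flatMap_cons]
    refine ⟨red_append.2 ⟨h3, h1, fun a ha b hb => h2 b hb ▸ h5 a ha⟩, fun a ha => ?_⟩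
    rw [head?_append, Option.mem_def, Option.or_eq_some_iff] at ha
    exact ha.elim (h4 a) fun h => h2 a h.2

theorem pr_flatMap {α : Type} (bl : α → List (Lt A)) (l : List α) :
    pr (l.flatMap bl) = (l.map fun g => pr (bl g)).prod := by
  induction l with
  | nil => rfl
  | cons g l ih => simp [ih]

theorem exists_blk {x y : A} (hx : x ≠ 1) (hy : y ≠ 1) (n : ℕ) {i : ZMod 2} {w : List (Lt A)}
    (hw : Red w) (hi : ∀ a ∈ w.head?, a.1 = i) :
    ∃ p : ZMod 2 × Fin 2, Blk i (w ++ mk x y n p.1 p.2) := by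
  classical
  obtain ⟨j, hj1, hj2⟩ : ∃ j : ZMod 2, (∀ a ∈ w.getLast?, a.1 ≠ j) ∧ (w = [] → j = i) := by
    cases h : w.getLast? with
    | none => exact ⟨i, by simp, fun _ => rfl⟩
    | some a => exact ⟨a.1 + 1, by simp only [Option.mem_def, Option.some.injEq, ne_eq, forall_eq', left_eq_add, one_ne_zero, not_false_eq_true], fun h' => by simp [h'] at h⟩
  obtain ⟨M, hM⟩ : ∃ M : Fin 2, j + ((n + M : ℕ) : ZMod 2) ≠ i := by
    by_cases h : j + n = i
    · exact ⟨1, by simp only [Fin.isValue, Fin.coe_ofNat_eq_mod, Nat.mod_succ, Nat.cast_add, Nat.cast_one, ← h, ne_eq, add_right_inj, add_eq_left, one_ne_zero, not_false_eq_true]⟩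
    · exact ⟨0, by simpa using h⟩
  have hh : ∀ b ∈ (mk x y n j M).head?, b.1 = j := by
    intro b hb
    rw [mk, ← add_assoc, head?_alt] at hb
    rw [← Option.some.inj hb]
  refine ⟨(j, M), red_append.2 ⟨hw, red_alt _ (fun k => by split_ifs <;> assumption) _,
    fun a ha b hb => hh b hb ▸ hj1 a ha⟩, fun a ha => ?_, fun b hb => ?_⟩
  · rw [head?_append, Option.mem_def, Option.or_eq_some_iff] at ha
    exact ha.elim (hi a) fun h => (hh a h.2).trans (hj2 (head?_eq_none_iff.1 h.1))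
  · rw [mk, ← add_assoc, alt_succ, ← append_assoc, getLast?_concat] at hb
    rw [← Option.some.inj hb]
    exact hM

theorem sum_av (hS : Subgroup.closure (S : Set (Gp A)) = ⊤) {e : ℝ} (he : IsRate S e) {x y : A}
    (hx : x ≠ 1) (hy : y ≠ 1) (hxy : x ≠ y) (n : ℕ) : ∃ C : ℝ, ∀ (i : ZMod 2) (s : Finset (Gp A)),
      (∀ g ∈ s, Av x n (nf g) ∧ ∀ a ∈ (nf g).head?, a.1 = i) → ∑ g ∈ s, e⁻¹ ^ len S g ≤ C := by
  obtain ⟨L, hL⟩ := (Set.finite_range fun p : ZMod 2 × Fin 2 =>
    len S (pr (mk x y n p.1 p.2))).bddAbove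
  have h0 : 0 < e := one_pos.trans_le he.one_le
  refine ⟨e ^ L, fun i s hs => ?_⟩
  have hp : ∀ g, ∃ p : ZMod 2 × Fin 2, g ∈ s → Blk i (nf g ++ mk x y n p.1 p.2) := fun g => by
    by_cases hg : g ∈ s
    · exact (exists_blk hx hy n (nf_red g) (hs g hg).2).imp fun _ h _ => h
    · exact ⟨0, fun h => absurd h hg⟩
  choose p hp using hp
  have h1 := kraft he s (fun g => pr (nf g ++ mk x y n (p g).1 (p g).2)) (fun g => len S g + L)
    (fun g hg g' hg' l l' hl hl' _ h => ?_) fun g hg => ?_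
  · simp only [pow_add, ← Finset.sum_mul] at h1
    rwa [inv_pow e L, ← div_eq_mul_inv, div_le_one (by positivity)] at h1
  · have h2 := fun l (hl : ∀ g ∈ l, g ∈ s) =>
      (red_flatMap (fun g => nf g ++ mk x y n (p g).1 (p g).2) l fun g hg => hp g (hl g hg)).1.nf_pr
    have h3 := h2 (g :: l) (by simpa using ⟨hg, hl⟩)
    have h4 := h2 (g' :: l') (by simpa using ⟨hg', hl'⟩)
    rw [pr_flatMap, map_cons, prod_cons] at h3 h4
    rw [h, h4, flatMap_cons, flatMap_cons] at h3
    rcases le_total (nf g).length (nf g').length with h5 | h5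
    · exact nf_inj (decode hxy (hs g' hg').1 h5 h3.symm)
    · exact nf_inj (decode hxy (hs g hg).1 h5 h3).symm
  · rw [pr_append, pr_nf]
    exact mul_mem_ball (mem_ball_len hS g) (ball_mono S (hL ⟨p g, rfl⟩) (mem_ball_len hS _))

/-- Growth tightness. -/
theorem tight {H : Type*} [Group H] [Infinite H] [DecidableEq H] (φ : Gp A →* H)
    (hφ : Function.Surjective φ) {x y : A} (hx : x ≠ 1) (hy : y ≠ 1) (hxy : x ≠ y)
    (hk : ∀ i, φ (lt ⟨i, x⟩) = 1) (hS : Subgroup.closure (S : Set (Gp A)) = ⊤) {e e' : ℝ}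
    (he : IsRate S e) (he' : IsRate (S.image φ) e') : 1 < e ∧ e' < e := by
  classical
  obtain ⟨n, hn⟩ := exists_av hS φ hk
  obtain ⟨C, hC⟩ := sum_av hS he hx hy hxy n
  have h0 : 0 < e := one_pos.trans_le he.one_le
  have hρ : ∀ h : H, ∃ g, φ g = h ∧ ∀ g', φ g' = h → len S g ≤ len S g' := fun h => by
    obtain ⟨g, h1, h2⟩ := (InvImage.wf (len S) wellFounded_lt).has_min {g | φ g = h} (hφ h)
    exact ⟨g, h1, fun g' hg' => not_lt.1 (h2 g' hg')⟩
  choose ρ hρ1 hρ2 using hρ
  refine rate_lt (C := C + C) he.one_le he' (fun h => len S (ρ h)) (fun m h hh => ?_) fun s => ?_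
  · rw [ball_map] at hh
    obtain ⟨g, hg, rfl⟩ := hh
    exact (hρ2 _ g rfl).trans (len_le hg)
  · rw [← Finset.sum_image (s := s) (g := ρ) (f := fun g => e⁻¹ ^ len S g)
      fun a _ b _ h => by rw [← hρ1 a, h, hρ1], ← Finset.sum_filter_add_sum_filter_not _
        fun g => ∀ a ∈ (nf g).head?, a.1 = 0]
    have h1 : ∀ g ∈ s.image ρ, Av x n (nf g) := fun g hg => by
      obtain ⟨h, -, rfl⟩ := Finset.mem_image.1 hg
      exact hn _ fun g' hg' => hρ2 h g' (hg'.trans (hρ1 h))
    refine add_le_add (hC 0 _ fun g hg => ?_) (hC 1 _ fun g hg => ?_)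
    · exact ⟨h1 g (Finset.mem_filter.1 hg).1, (Finset.mem_filter.1 hg).2⟩
    · refine ⟨h1 g (Finset.mem_filter.1 hg).1, fun a ha => (PC.z2_cases a.1).resolve_left ?_⟩
      exact fun h => (Finset.mem_filter.1 hg).2 fun b hb => Option.mem_unique ha hb ▸ h

end Pool.Agent.MP_646035_al.H71

end

-- part MP_646035_al.H71.Main
section

/-!
An acylindrically hyperbolic group whose set of growth rates has no least element: the free
product of two copies of P. Hall's finitely generated non-Hopfian group.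
-/

namespace Pool.Agent.MP_646035_al.H71

open Monoid

section Free

variable {A : Type} [Group A]

theorem fg_gp [h : Group.FG A] : Group.FG (Gp A) := by
  obtain ⟨T, hT, hT'⟩ := Group.fg_iff.1 h
  refine Group.fg_iff.2 ⟨⋃ i : ZMod 2, CoprodI.of (M := fun _ : ZMod 2 => A) (i := i) '' T, ?_,
    Set.finite_iUnion fun i => hT'.image _⟩
  rw [eq_top_iff, ← closure_lt, Subgroup.closure_le]
  rintro _ ⟨⟨i, a⟩, rfl⟩
  refine Subgroup.closure_mono (Set.subset_iUnion _ i) ?_
  rw [← MonoidHom.map_closure, hT]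
  exact ⟨a, trivial, rfl⟩

theorem no_least [Group.FG A] (α : A →* A) (hα : Function.Surjective α) {x y : A} (hx : x ≠ 1)
    (hy : y ≠ 1) (hxy : x ≠ y) (hk : α x = 1) :
    (growthSet (Gp A)).Nonempty ∧ ∀ e ∈ growthSet (Gp A), 1 < e ∧ ∃ e' ∈ growthSet (Gp A), e' < e := by
  classical
  let φ : Gp A →* Gp A :=
    CoprodI.lift fun i => (CoprodI.of (M := fun _ : ZMod 2 => A) (i := i)).comp α
  have h1 : ∀ i a, φ (lt ⟨i, a⟩) = lt ⟨i, α a⟩ := fun i a => CoprodI.lift_of _ _
  have hφ : Function.Surjective φ := by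
    rw [← MonoidHom.range_eq_top, eq_top_iff, ← closure_lt, Subgroup.closure_le]
    rintro _ ⟨⟨i, a⟩, rfl⟩
    obtain ⟨b, rfl⟩ := hα a
    exact ⟨_, h1 i b⟩
  have : Infinite (Gp A) := Infinite.of_injective (fun n => pr (alt 0 (fun _ => x) n))
    fun m n h => by simpa [(red_alt 0 (f := fun _ => x) (fun _ => hx) _).sl_pr] using congrArg sl h
  constructor
  · obtain ⟨S, hS⟩ := (fg_gp (A := A)).out
    obtain ⟨e, he⟩ := exists_isRate S
    exact ⟨e, S, hS, he⟩
  · rintro e ⟨S, hS, he⟩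
    obtain ⟨e', he'⟩ := exists_isRate (S.image φ)
    obtain ⟨h2, h3⟩ := tight φ hφ hx hy hxy (fun i => by rw [h1, hk]; exact map_one _) hS he he'
    refine ⟨h2, e', ⟨_, ?_, he'⟩, h3⟩
    rw [Finset.coe_image, ← MonoidHom.map_closure, hS, Subgroup.map_top_of_surjective _ hφ]

end Free

/-- The matrices `!![1, a, c; 0, u, b; 0, 0, 1]` with `c` taken modulo `1`. -/
@[ext] structure Hl where
  a : ℚ
  b : ℚ
  u : ℚˣ
  c : AddCircle (1 : ℚ)

namespace Hl

instance : Mul Hl :=
  ⟨fun g h => ⟨h.a + g.a * h.u, g.b + g.u * h.b, g.u * h.u, g.c + h.c + (g.a * h.b : ℚ)⟩⟩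
instance : One Hl := ⟨⟨0, 0, 1, 0⟩⟩
instance : Inv Hl :=
  ⟨fun g => ⟨-(g.a * g.u⁻¹), -(g.u⁻¹ * g.b), g.u⁻¹, -g.c + (g.a * g.u⁻¹ * g.b : ℚ)⟩⟩

@[simp] theorem mul_a (g h : Hl) : (g * h).a = h.a + g.a * h.u := rfl
@[simp] theorem mul_b (g h : Hl) : (g * h).b = g.b + g.u * h.b := rfl
@[simp] theorem mul_u (g h : Hl) : (g * h).u = g.u * h.u := rfl
@[simp] theorem mul_c (g h : Hl) : (g * h).c = g.c + h.c + (g.a * h.b : ℚ) := rfl
@[simp] theorem one_a : (1 : Hl).a = 0 := rfl
@[simp] theorem one_b : (1 : Hl).b = 0 := rfl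
@[simp] theorem one_u : (1 : Hl).u = 1 := rfl
@[simp] theorem one_c : (1 : Hl).c = 0 := rfl
@[simp] theorem inv_a (g : Hl) : g⁻¹.a = -(g.a * g.u⁻¹) := rfl
@[simp] theorem inv_b (g : Hl) : g⁻¹.b = -(g.u⁻¹ * g.b) := rfl
@[simp] theorem inv_u (g : Hl) : g⁻¹.u = g.u⁻¹ := rfl
@[simp] theorem inv_c (g : Hl) : g⁻¹.c = -g.c + (g.a * g.u⁻¹ * g.b : ℚ) := rfl

instance : Group Hl :=
  Group.ofLeftAxioms
    (fun g h l => by
      ext1
      · simp only [mul_a, mul_u, Units.val_mul]
        ring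
      · simp only [mul_b, mul_u, Units.val_mul]
        ring
      · simp only [mul_u, mul_assoc]
      · simp only [mul_a, mul_b, mul_c, add_mul, mul_add, mul_assoc, AddCircle.coe_add]
        abel)
    (fun g => by ext1 <;> simp)
    (fun g => by ext1 <;> simp only [mul_a, inv_a, Units.val_inv_eq_inv_val, neg_mul, ne_eq, Units.ne_zero, not_false_eq_true, inv_mul_cancel_right₀, add_neg_cancel, one_a, mul_b, inv_b, inv_u, neg_add_cancel, one_b, mul_u, inv_mul_cancel, one_u, mul_c, inv_c, neg_add_cancel_comm, QuotientAddGroup.mk_neg, one_c])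

/-- conjugation by the diagonal matrix with entries `2, 1, 1` -/
def al : Hl →* Hl :=
  MonoidHom.mk' (fun g => ⟨g.a + g.a, g.b, g.u, g.c + g.c⟩) fun g h => by
    ext1
    · simp only [mul_a]
      ring
    · rfl
    · rfl
    · simp only [mul_c, add_mul, AddCircle.coe_add]
      abel

/-- a generator -/
def T : Hl := ⟨0, 0, Units.mk0 2 two_ne_zero, 0⟩
/-- a generator -/
def U : Hl := ⟨1, 0, 1, 0⟩
/-- a generator -/
def V : Hl := ⟨0, 1, 1, 0⟩
/-- an element of the kernel -/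
def X : Hl := ⟨0, 0, 1, (2⁻¹ : ℚ)⟩

theorem al_T : al T = T := by ext1 <;> simp [al, T]
theorem al_U : al U = U * U := by ext1 <;> simp [al, U]
theorem al_V : al V = V := by ext1 <;> simp [al, V]
theorem al_W : al (T * U * T⁻¹) = U := by
  ext1 <;> simp only [al, T, U, MonoidHom.mk'_apply, mul_a, inv_a, Units.val_inv_eq_inv_val, Units.val_mk0, zero_mul, neg_zero, Units.val_one, mul_one, add_zero, inv_u, one_mul, zero_add, mul_b, mul_zero, mul_u, inv_b, mul_inv_cancel, mul_c, QuotientAddGroup.mk_zero, inv_c]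
  norm_num
theorem X_eq : T * U * T⁻¹ * V * (T * U * T⁻¹)⁻¹ * V⁻¹ = X := by ext1 <;> simp only [T, U, V, mul_inv_rev, inv_inv, mul_a, inv_a, inv_one, Units.val_one, mul_one, neg_zero, Units.val_inv_eq_inv_val, Units.val_mk0, zero_mul, inv_u, neg_mul, one_mul, zero_add, mul_u, add_zero, mul_inv_cancel, neg_add_cancel, X, mul_b, mul_zero, inv_b, mul_neg, add_neg_cancel, mul_c, QuotientAddGroup.mk_zero, inv_c]

theorem al_X : al X = 1 := by
  ext1 <;> simp only [al, X, MonoidHom.mk'_apply, add_zero, one_a, one_b, one_u, one_c]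
  rw [← AddCircle.coe_add, show (2⁻¹ + 2⁻¹ : ℚ) = 1 by norm_num, AddCircle.coe_period]

theorem X_ne : X ≠ 1 := by
  intro h
  obtain ⟨n, hn⟩ := (AddCircle.coe_eq_zero_iff (1 : ℚ)).1 (congrArg Hl.c h)
  have : (2 * n : ℤ) = 1 := by
    rw [zsmul_eq_mul, mul_one] at hn
    exact_mod_cast (by rw [hn]; norm_num : (2 * n : ℚ) = 1)
  omega

/-- Hall's group -/
def B : Subgroup Hl := Subgroup.closure {T, U, V}

theorem T_mem : T ∈ B := Subgroup.subset_closure (by simp)
theorem U_mem : U ∈ B := Subgroup.subset_closure (by simp)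
theorem V_mem : V ∈ B := Subgroup.subset_closure (by simp)
theorem W_mem : T * U * T⁻¹ ∈ B := mul_mem (mul_mem T_mem U_mem) (inv_mem T_mem)

theorem X_mem : X ∈ B :=
  X_eq ▸ mul_mem (mul_mem (mul_mem W_mem V_mem) (inv_mem W_mem)) (inv_mem V_mem)

theorem le_comap : B ≤ B.comap al := by
  refine (Subgroup.closure_le _).2 ?_
  rintro _ (rfl | rfl | rfl)
  · exact show al T ∈ B from al_T.symm ▸ T_mem
  · exact show al U ∈ B from al_U ▸ mul_mem U_mem U_mem
  · exact show al V ∈ B from al_V.symm ▸ V_mem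

theorem le_map : B ≤ B.map al := by
  refine (Subgroup.closure_le _).2 ?_
  rintro _ (rfl | rfl | rfl)
  · exact ⟨_, T_mem, al_T⟩
  · exact ⟨_, W_mem, al_W⟩
  · exact ⟨_, V_mem, al_V⟩

end Hl

open Hl in
/-- Class 3: a finitely generated acylindrically hyperbolic group, all of whose growth rates
exceed `1`, such that below every growth rate there is another one. -/
theorem class3 : ∃ (G : Type) (_ : Group G), Group.FG G ∧ AcylHyp G ∧ (growthSet G).Nonempty ∧
    ∀ e ∈ growthSet G, 1 < e ∧ ∃ e' ∈ growthSet G, e' < e := by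
  have : Group.FG B := Group.closure_finite_fg _
  have h1 : (⟨X, X_mem⟩ : B) ≠ 1 := fun h => X_ne (congrArg Subtype.val h)
  have h2 : (⟨U, U_mem⟩ : B) ≠ 1 := fun h => one_ne_zero (congrArg (fun g : B => g.1.a) h)
  have h3 : (⟨X, X_mem⟩ : B) ≠ ⟨U, U_mem⟩ :=
    fun h => zero_ne_one (congrArg (fun g : B => g.1.a) h)
  refine ⟨Gp B, inferInstance, fg_gp, acylHyp h1 h2 h3,
    no_least ((al.comp B.subtype).codRestrict B fun g => le_comap g.2) ?_ h1 h2 h3 (Subtype.ext al_X)⟩
  rintro ⟨g, hg⟩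
  obtain ⟨g', h4, rfl⟩ := le_map hg
  exact ⟨⟨g', h4⟩, rfl⟩

theorem class3_noMin : ∃ (G : Type) (_ : Group G), Group.FG G ∧ AcylHyp G ∧
    (∃ e ∈ growthSet G, 1 < e) ∧ ∀ e, ¬ IsLeast (growthSet G) e := by
  obtain ⟨G, _, h1, h2, ⟨e, he⟩, h3⟩ := class3
  refine ⟨G, inferInstance, h1, h2, ⟨e, he, (h3 e he).1⟩, fun e h => ?_⟩
  obtain ⟨e', h4, h5⟩ := (h3 e h.1).2
  exact absurd (h.2 h4) (not_le.2 h5)

end Pool.Agent.MP_646035_al.H71

end
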