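import Pool.Agent.MP_646035_al.Mg.H84_GPr
import Pool.Agent.MP_646035_al.Mg.Geo27_Pb

attribute [-instance] Prod.instSMul DivisionCommMonoid.toDivisionMonoid
  Fintype.decidableExistsFintype Prod.mulAction

/-!
The filling inequality, and all the axioms.
-/

namespace Pool.Agent.MP_646035_al.H84.Fu

open Pool.Agent.MP_4a6971_al.H66 Set H24 H71

variable {Γ : Type} [Group Γ] {S : Fu Γ} {L : Set V} {r m : V} {ξ : ℕ} {x d : S.Cv}

/-- If every chord of `x` in a region bounded by `d` is crossed by a member of `A` in its interior,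
then `A` crosses `x` at least half as often as `d` does. -/
lemma le_two_sum (hL : S.Lam L) (h0 : Off L r) (hm : Bd L r m) (md : m ∈ d.1) (A : Finset S.Cv)
    (H : ∀ l ∈ x.1, ∀ n n' q q', Ch L r l n n' q q' → ∃ a ∈ A, ∃ z ∈ KK L r l a, Off L z) :
    i d x ≤ 2 * ∑ a ∈ A, i a x := by
  classical
  by_cases hd : i d x = 0
  · omega
  obtain ⟨l, hl, cr⟩ := exists_cr hd md
  have half : ∀ γ k τ, S.Per γ l k τ → ∀ B : Finset ℝ, (∀ t ∈ B, ∃ g, Cr l (S.σ g • m) ∧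
      Bf (S.σ g • m) (γ t) = 0 ∧ StrictMono fun t => Bf (S.σ g • m) (γ t)) →
      (∀ t ∈ B, ∀ t' ∈ B, t' < t + τ) → B.card ≤ ∑ a ∈ A, i a x := by
    intro γ k τ P B b1 b2
    have fin : ∀ s t, ((⋃ a ∈ A, Pos a.1 γ l) ∩ Icc s t).Finite := fun s t => by
      rw [iUnion₂_inter]
      exact A.finite_toSet.biUnion fun a _ => Pos_fin a P.pl s t
    refine (one_mul B.card).ge.trans ((avg P.pos (s := 0) (D := Pos L γ l)
      (U := ⋃ a ∈ A, Pos a.1 γ l) (fun t ht => P.pos_add hL.smul ht) (fun t ht j => ?_)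
      ((fin _ _).subset (inter_subset_inter_right _ Ico_subset_Icc_self)) B
      (fun t ht => ?_) b2 fun s hs => ?_).trans ?_)
    · obtain ⟨a, ha, h⟩ := mem_iUnion₂.1 ht
      exact mem_biUnion ha (P.pos_add (fun F hF => a.smul_mem hF) h j)
    · obtain ⟨g, g1, g2, -⟩ := b1 t ht
      exact ⟨_, hL.smul _ hm.1 g, g1, g2⟩
    swap
    · rw [iUnion₂_inter]
      refine (Finset.set_ncard_biUnion_le A _).trans (Finset.sum_le_sum fun a _ => ?_)
      rw [i_symm, P.count hl a 0]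
    obtain ⟨g, g1, g2, mo⟩ := b1 s hs
    have w := hL.smul _ hm.1 g
    have ps : s ∈ Pos L γ l := ⟨_, w, g1, g2⟩
    obtain ⟨t, pt, st, -, no⟩ := P.next hL ps s
    have hx : (s + t) / 2 ∈ Ioo s t := ⟨by linarith, by linarith only [st]⟩
    obtain ⟨n, n', C⟩ := ch_of_consec hL P.pl (fun b => hL.nc l b _ w g1) ps pt no hx
    have b : 0 < Bf (S.σ g • m) (γ ((s + t) / 2)) := g2 ▸ mo hx.1
    obtain rfl : n = S.σ g • m := (hL.eq_or w C.mem (P.pl.h2 s) g2 C.mp).resolve_right fun e => by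
      have := C.pos
      rw [e, Bf_neg_left] at this
      linarith
    have C' := C.smul' hL g⁻¹
    have sm : Cl L (S.σ g⁻¹ • γ ((s + t) / 2)) r := Bd.same hL h0 (by simpa only [map_inv, inv_smul_smul] using C'.bd) hm
    obtain ⟨a, ha, z, ⟨z1, z2, F, f1, f2, f3⟩, z4⟩ :=
      H _ (x.smul_mem hl g⁻¹) _ _ _ _ (C'.congr hL h0 sm)
    obtain ⟨v, hv⟩ := (P.pl.mem (S.σ g • z)).1 ⟨z1.1.smul _, by rwa [Bf_move']⟩
    have v1 := (C.cl_iff hL P.pl rfl rfl st v).1 (by simpa only [hv, map_inv, smul_inv_smul] using (sm.trans h0 z1).smul hL g)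
    have v2 := (hv ▸ z4.smul hL g).2
    have fin' : ((⋃ a ∈ A, Pos a.1 γ l) ∩ Ioo s t).Finite :=
      (fin s t).subset (inter_subset_inter_right _ Ioo_subset_Icc_self)
    refine ⟨t, no, fin', (ncard_pos fin').2 ⟨v, mem_biUnion ha ⟨_, a.smul_mem f1 g,
      by rwa [map_inv, cr_move, inv_inv] at f2, by rwa [hv, Bf_isom]⟩,
      v1.1.lt_of_ne ?_, v1.2.lt_of_ne ?_⟩⟩ <;> rintro rfl
    exacts [v2 _ C.mem C.mp, v2 _ C.mem' C.mp']
  obtain ⟨γ, k, τ, P⟩ := x.exists_per hl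
  have fin := Pos_fin' d P.pl 0 (0 + τ)
  let pr : ℝ → Prop := fun t => ∃ g, Cr l (S.σ g • m) ∧ Bf (S.σ g • m) (γ t) = 0 ∧
    StrictMono fun t => Bf (S.σ g • m) (γ t)
  have h1 := half γ k τ P (fin.toFinset.filter pr) (fun t ht => (Finset.mem_filter.1 ht).2)
    fun t ht t' ht' => by
      linarith [(fin.mem_toFinset.1 (Finset.mem_filter.1 ht).1).2.1,
        (fin.mem_toFinset.1 (Finset.mem_filter.1 ht').1).2.2]
  have h2 := half _ _ τ P.rev ((fin.toFinset.filter fun t => ¬ pr t).image Neg.neg) (fun t ht => by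
      obtain ⟨v, hv, rfl⟩ := Finset.mem_image.1 ht
      obtain ⟨v1, v2⟩ := Finset.mem_filter.1 hv
      obtain ⟨⟨F, f1, f2, f3⟩, -⟩ := fin.mem_toFinset.1 v1
      obtain ⟨g, hg⟩ := d.exists_smul md f1
      have g1 : Cr l (S.σ g • m) := by rcases hg with rfl | rfl <;> simpa using f2
      have g2 : Bf (S.σ g • m) (γ v) = 0 := by rcases hg with rfl | rfl <;> simpa using f3
      exact ⟨g, g1, by simpa using g2, fun s t st => ((P.pl.mono (by simpa using d.unit md)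
        g1).resolve_left fun e => v2 ⟨g, g1, g2, e⟩) (neg_lt_neg st)⟩)
    fun t ht t' ht' => by
      obtain ⟨v, hv, rfl⟩ := Finset.mem_image.1 ht
      obtain ⟨v', hv', rfl⟩ := Finset.mem_image.1 ht'
      linarith only [(fin.mem_toFinset.1 (Finset.mem_filter.1 hv).1).2.2, (fin.mem_toFinset.1 (Finset.mem_filter.1 hv').1).2.1]
  rw [Finset.card_image_of_injective _ neg_injective] at h2
  have h3 := Finset.card_filter_add_card_filter_not (s := fin.toFinset) pr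
  rw [← ncard_eq_toFinset_card _ fin, ← P.count hl d 0, i_symm] at h3
  omega

theorem fil (xi : ∀ P : Finset S.Cv, Mc i (P : Set S.Cv) → P.card ≤ ξ) (A : Finset S.Cv)
    (h1 : d ∈ perp i (A : Set S.Cv)) (h2 : d ∈ perp i (perp i (A : Set S.Cv))) (x : S.Cv) :
    i d x ≤ 2 * ∑ a ∈ A, i a x := by
  classical
  by_cases dA : d ∈ A
  · have := Finset.single_le_sum (f := fun a => i a x) (fun _ _ => Nat.zero_le _) dA
    omega
  obtain ⟨Q, hQ, -, sub, mx⟩ := exists_max xi (perp i (A : Set S.Cv)) (P := ∅) (by simp [Mc])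
    (by simp)
  have hL := lam_mc hQ
  set L := WL (Q : Set S.Cv)
  have dQ : d ∈ Q := mx ⟨h1, fun q hq => h2 q (sub hq)⟩
  have wq : ∀ a ∈ A, a ∈ perp i (Q : Set S.Cv) := fun a ha d hd => (i_symm d a).trans (sub hd a ha)
  have off : ∀ a ∈ A, a ∉ Q → ∀ F ∈ a.1, ∀ z, H2 z → Bf F z = 0 → Off L z :=
    fun a ha n F hF z => hL.off (a.ax hF) (fun c => n ((a.mem_WL hF).1 c)) (nc_of_perp (wq a ha) hF)
  let pr : S.Cv → Prop := fun b => ∃ m ∈ b.1, ∃ a ∈ A, a ∉ Q ∧ ∃ F ∈ a.1, ∃ r, H2 r ∧ Bf F r = 0 ∧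
    Bd L r m
  by_cases c : pr d
  · obtain ⟨m, md, u, u1, u2, E, hE, r, r1, r2, bd⟩ := c
    have h0 := off u u1 u2 E hE r r1 r2
    refine le_two_sum hL h0 bd md A fun l hl n n' q q' C => ?_
    obtain ⟨a, ha, z, hz⟩ := K1 (A := (A : Set S.Cv) \ Q) hQ (fun q hq a ha => sub hq a ha.1)
      (fun b hb => mx ⟨fun a ha => (em (a ∈ Q)).elim (hb.2 a) fun n => hb.1 a ⟨ha, n⟩, hb.2⟩)
      (wq u u1) u2 hE h0.cl r2 C (C.sim_cv hL hl)
    obtain ⟨F, f1, -, f3⟩ := hz.2.2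
    exact ⟨a, ha.1, z, hz, off a ha.1 ha.2 F f1 z hz.1.1 f3⟩
  obtain ⟨y, y1, y2⟩ := ni (P := Q.filter fun b => pr b ∨ b ∈ A) (a := d)
    (fun a ha b hb => hQ a (Finset.mem_filter.1 ha).1 b (Finset.mem_filter.1 hb).1)
    (fun a ha => hQ a (Finset.mem_filter.1 ha).1 d dQ)
    fun a => (Finset.mem_filter.1 a).2.elim c dA
  refine (y2 ((i_symm d y).trans (h2 y fun a ha => ?_))).elim
  by_cases aQ : a ∈ Q
  · exact y1 a (Finset.mem_filter.2 ⟨aQ, Or.inr ha⟩)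
  by_contra c'
  obtain ⟨F, f1⟩ := a.nonempty
  obtain ⟨G, g1, g2⟩ := exists_cr c' f1
  obtain ⟨z, z1, z2, z3⟩ := exists_inter (a.unit f1) (y.unit g1) g2
  obtain ⟨n, n1, n2⟩ := exists_cr (i_symm d y ▸ y2) g1
  obtain ⟨w, w1, w2, w3⟩ := exists_inter (y.unit g1) (d.unit n1) n2
  have nL : n ∈ L := (d.mem_WL n1).2 dQ
  have h0 := off a ha aQ F f1 z z1 z2
  have ex := fun n hn a b => exit (n := n) hL h0 (y.unit g1) h0 h0.cl w1 z3 w2 hn a b
  obtain ⟨m, m1, m2⟩ : ∃ m, Bd L z m ∧ Cr G m := (h0.2 n nL).lt_or_gt.elim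
    (fun e => ex (-n) (hL.neg n nL) (by simpa using e) (by simp [w3])) fun e => ex n nL e w3.le
  obtain ⟨b, b1, b2⟩ := WL_cr (y.ax g1) m1.1 m2
  exact i_ne_zero b2 g1 m2.symm (y1 b (Finset.mem_filter.2
    ⟨b1, Or.inl ⟨m, b2, a, ha, aQ, F, f1, z, z1, z2, m1⟩⟩))

/-- The curves satisfy all the axioms. -/
theorem ax (S : Fu Γ) : ∃ ξ C0, H71.Ax (i (S := S)) ξ C0 := by
  obtain ⟨ξ, xi⟩ := Geo27.xi S
  exact ⟨ξ, 16, i_symm, i_self, xi, fun _ h _ a b => ni h a b, fun _ h _ b => inn xi h b,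
    fun A _ a b => fil xi A a b, con xi, fun _ => pr xi, Geo27.exists_isTw S (by norm_num)⟩

end Pool.Agent.MP_646035_al.H84.Fu

/-- The curves of a Fuchsian group satisfy the axioms. -/
theorem Pool.Agent.MP_646035_al.MC.Fuchs.ax {Γ : Type} [Group Γ]
    (Y : Pool.Agent.MP_646035_al.MC.Fuchs Γ) (_ : Pool.Agent.MP_646035_al.H84.Fu.Fill Y) :
    ∃ ξ C0, Pool.Agent.MP_646035_al.H71.Ax (Pool.Agent.MP_646035_al.H84.Fu.i (S := Y)) ξ C0 :=
  Pool.Agent.MP_646035_al.H84.Fu.ax Y
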