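import Pool.Agent.MP_646035_al.Mg.H84_GPants
import Pool.Agent.MP_646035_al.H71.Ax
import Pool.Agent.MP_646035_al.Mg.Cx_Fill

/-!
Maximal multicurves: the fields `ni`, `inn` and `con`.
-/

namespace Pool.Agent.MP_646035_al.H84.Fu

open Pool.Agent.MP_4a6971_al.H66 Set H24 H71

variable {Γ : Type} [Group Γ] {S : Fu Γ} {L : Set V} {r l m m' p p' q E : V} {ξ : ℕ}
  {P Q : Finset S.Cv} {A W : Set S.Cv} {a u x : S.Cv}

lemma lam_mc (h : Mc i (P : Set S.Cv)) : S.Lam (WL (P : Set S.Cv)) := lam_WL P.finite_toSet h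

/-- The lines of a curve disjoint from `A` cross no wall of `A`. -/
lemma nc_of_perp (h : a ∈ perp i A) (hE : E ∈ a.1) : ∀ n ∈ WL A, ¬ Cr E n := fun n hn c => by
  obtain ⟨d, h1, h2⟩ := WL_cr (a.ax hE) hn c
  exact i_ne_zero h2 hE c.symm (h d h1)

lemma perp_of_nc (hE : E ∈ a.1) (h : ∀ n ∈ WL A, ¬ Cr E n) : a ∈ perp i A := fun d hd => by
  by_contra c
  obtain ⟨F, h1, h2⟩ := exists_cr (i_symm d a ▸ c) hE
  exact h F (Or.inl ⟨d, hd, h1⟩) h2

/-- A curve disjoint from a multicurve is crossed by a curve disjoint from the multicurve. -/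
theorem ni (hP : Mc i (P : Set S.Cv)) (ha : a ∈ perp i (P : Set S.Cv)) (n : a ∉ P) :
    ∃ y ∈ perp i (P : Set S.Cv), i a y ≠ 0 := by
  obtain ⟨E, hE⟩ := a.nonempty
  have hL := lam_mc hP
  obtain ⟨F, hF, c, d⟩ := MC.Bar.fill (Y := S) (E := E) (B := WL (P : Set S.Cv))
    ⟨fun g N m => hL.smul N m g, hL.neg, hL.ax, hL.nc, hL.fin o H2_o,
      fun _ m => Or.inr (Or.inl m), nc_of_perp ha hE, fun m => n ((a.mem_WL hE).1 m)⟩ (a.curve hE)
  exact ⟨mk hF, perp_of_nc (mem_mk hF) fun N m e => d N m e.symm, i_ne_zero hE (mem_mk hF) c⟩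

theorem fill (S : Fu Γ) : S.Fill := fun a => by
  obtain ⟨y, -, h⟩ := ni (P := ∅) (a := a) (by simp [Mc]) (by simp [perp]) (by simp)
  exact ⟨y, h⟩

/-- Every multicurve inside `W` lies in a maximal one. -/
lemma exists_max (xi : ∀ P : Finset S.Cv, Mc i (P : Set S.Cv) → P.card ≤ ξ) (W : Set S.Cv)
    (hP : Mc i (P : Set S.Cv)) (hW : (P : Set S.Cv) ⊆ W) : ∃ Q : Finset S.Cv,
      Mc i (Q : Set S.Cv) ∧ P ⊆ Q ∧ (Q : Set S.Cv) ⊆ W ∧ W ∩ perp i (Q : Set S.Cv) ⊆ Q := by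
  classical
  obtain ⟨n, hn⟩ : ∃ n, ξ < P.card + n := ⟨ξ + 1, by omega⟩
  induction n generalizing P with
  | zero => have := xi P hP; omega
  | succ n ih =>
    by_cases h : W ∩ perp i (P : Set S.Cv) ⊆ P
    · exact ⟨P, hP, subset_rfl, hW, h⟩
    obtain ⟨c, c1, c2⟩ := not_subset.1 h
    obtain ⟨Q, q1, q2, q3⟩ := ih (P := insert c P) (by
      rw [Finset.coe_insert]
      rintro a (rfl | ha) b (rfl | hb)
      exacts [i_self _, i_symm a b ▸ c1.2 b hb, c1.2 a ha, hP a ha b hb])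
      (by rw [Finset.coe_insert]; exact insert_subset c1.1 hW)
      (by rw [Finset.card_insert_of_notMem c2]; omega)
    exact ⟨Q, q1, (Finset.subset_insert c P).trans q2, q3⟩

/-- An axis crossing a bounding wall has a chord in the region that starts on this wall. -/
lemma Bd.exists_ch (hL : S.Lam L) (h0 : Off L r) (h : Bd L r m) (hl : S.Ax l) (c : Cr l m) :
    ∃ m' p p', Ch L r l m m' p p' := by
  have u := hL.unit h.1
  obtain ⟨γ, a, mo⟩ : ∃ γ, PL γ l ∧ StrictMono fun t => Bf m (γ t) := by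
    obtain ⟨γ, a⟩ := hl.pl
    exact (a.mono u c).elim (fun b => ⟨γ, a, b⟩) fun b =>
      ⟨_, a.rev, fun s t st => b (neg_lt_neg st)⟩
  obtain ⟨s, hs⟩ := a.zero u c
  obtain ⟨k, τ, pe⟩ := hl.exists_per a
  have ps : s ∈ Pos L γ l := ⟨m, h.1, c, hs⟩
  obtain ⟨t, pt, st, -, no⟩ := pe.next hL ps s
  have hx : (s + t) / 2 ∈ Ioo s t := ⟨by linarith, by linarith only [st]⟩
  obtain ⟨n, m', C⟩ := ch_of_consec hL a (fun b => hL.nc l b m h.1 c) ps pt no hx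
  have b : 0 < Bf m (γ ((s + t) / 2)) := hs ▸ mo hx.1
  obtain rfl : n = m := (hL.eq_or h.1 C.mem (a.h2 s) hs C.mp).resolve_right fun e => by
    have := C.pos
    rw [e, Bf_neg_left] at this
    linarith
  exact ⟨m', _, _, C.congr hL h0 (Bd.same hL h0 C.bd h)⟩

/-- If `Q` is maximal among the multicurves disjoint from `A` and a region of `Q` contains a curve,
then every simple chord of this region is crossed by a member of `A`. -/
theorem K1 (hQ : Mc i (Q : Set S.Cv)) (sub : (Q : Set S.Cv) ⊆ perp i A)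
    (mx : perp i A ∩ perp i (Q : Set S.Cv) ⊆ Q) (hu : u ∈ perp i (Q : Set S.Cv)) (nu : u ∉ Q)
    (hE : E ∈ u.1) (hq : Cl (WL (Q : Set S.Cv)) r q) (e : Bf E q = 0)
    (h : Ch (WL (Q : Set S.Cv)) r l m m' p p') (hs : S.Sim (WL (Q : Set S.Cv)) r l) :
    ∃ a ∈ A, (KK (WL (Q : Set S.Cv)) r l a).Nonempty := by
  have hL := lam_mc hQ
  by_contra! n
  have key : ∀ {l B}, S.Gap (WL (Q : Set S.Cv)) r l m m' p p' B →
      (∀ a ∈ A, KK (WL (Q : Set S.Cv)) r l a = ∅) → B ∈ WL (Q : Set S.Cv) := fun G k => by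
    by_contra c
    have y := mem_mk (curve_of G.ax (G.simple hL) c)
    refine c ((Cv.mem_WL _ y).2 (mx ⟨fun a ha => ?_, perp_of_nc y fun _ => G.ncL hL⟩))
    rw [i_symm]
    exact G.dis hL y (fun F hF => nc_of_perp (fun d hd => i_symm a d ▸ sub hd a ha) hF) (k a ha)
  obtain ⟨B, G⟩ := gap_ex hL h hs
  obtain ⟨B', G'⟩ := gap_ex hL h.flip hs.neg
  exact pants_a hL G G' (key G n) (key G' fun a ha => by simpa only [KK, Bf_neg_left, neg_eq_zero, cr_neg_left, Prod.exists] using n a ha) (u.ax hE)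
    (fun g => u.simple hE (u.smul_mem hE g)) (fun c => nu ((u.mem_WL hE).1 c)) (nc_of_perp hu hE)
    hq e

/-- In this situation a curve disjoint from `A` crosses no bounding wall of the region. -/
theorem K2 (hQ : Mc i (Q : Set S.Cv)) (sub : (Q : Set S.Cv) ⊆ perp i A)
    (mx : perp i A ∩ perp i (Q : Set S.Cv) ⊆ Q) (hu : u ∈ perp i (Q : Set S.Cv)) (nu : u ∉ Q)
    (hE : E ∈ u.1) (hr : H2 r) (e : Bf E r = 0) (h : Bd (WL (Q : Set S.Cv)) r m) (hm : m ∈ a.1)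
    (hx : x ∈ perp i A) : i x a = 0 := by
  have hL := lam_mc hQ
  have h0 := hL.off (u.ax hE) (fun c => nu ((u.mem_WL hE).1 c)) (nc_of_perp hu hE) hr e
  by_contra c
  obtain ⟨l, hl, c'⟩ := exists_cr (i_symm x a ▸ c) hm
  obtain ⟨m', p, p', C⟩ := h.exists_ch hL h0 (x.ax hl) c'.symm
  obtain ⟨b, hb, -, -, -, F, hF, d, -⟩ := K1 hQ sub mx hu nu hE h0.cl e C (C.sim_cv hL hl)
  exact i_ne_zero hF hl d.symm (hx b hb)

theorem inn (xi : ∀ P : Finset S.Cv, Mc i (P : Set S.Cv) → P.card ≤ ξ) (hW : Clo i W) {b : S.Cv}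
    (hb : b ∈ perp i (bdy i W)) : b ∈ W ∨ b ∈ perp i W := by
  by_contra! n
  obtain ⟨v, v1, v2⟩ : ∃ v ∈ perp i W, i v b ≠ 0 := by simpa [perp] using mt (@hW b) n.1
  obtain ⟨u, u1, u2⟩ : ∃ u ∈ W, i u b ≠ 0 := by simpa [perp] using n.2
  obtain ⟨Q, hQ, q1, sub, mx⟩ := exists_max xi (perp i W) (P := {v})
    (by simpa [Mc] using i_self v) (by simpa using v1)
  have hL := lam_mc hQ
  have hu : u ∈ perp i (Q : Set S.Cv) := fun d hd => i_symm u d ▸ sub hd u u1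
  have nu : u ∉ Q := fun c => u2 (hb u ⟨u1, sub c⟩)
  obtain ⟨E, hE⟩ := u.nonempty
  obtain ⟨F, hF, c⟩ := exists_cr u2 hE
  obtain ⟨r, r1, r2, r3⟩ := exists_inter (u.unit hE) (b.unit hF) c
  have h0 := hL.off (u.ax hE) (fun c => nu ((u.mem_WL hE).1 c)) (nc_of_perp hu hE) r1 r2
  obtain ⟨N, hN, c'⟩ := exists_cr (i_symm v b ▸ v2) hF
  obtain ⟨q, s1, s2, s3⟩ := exists_inter (b.unit hF) (v.unit hN) c'
  have vN : N ∈ WL (Q : Set S.Cv) := (v.mem_WL hN).2 (q1 (Finset.mem_singleton_self v))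
  obtain ⟨m, m1, m2⟩ : ∃ m, Bd (WL (Q : Set S.Cv)) r m ∧ Cr F m :=
    (h0.2 N vN).lt_or_gt.elim
      (fun d => exit hL h0 (b.unit hF) h0 h0.cl s1 r3 s2 (hL.neg N vN) (by simpa using d)
        (by simp [s3]))
      fun d => exit hL h0 (b.unit hF) h0 h0.cl s1 r3 s2 vN d s3.le
  obtain ⟨d, d1, d2⟩ := WL_cr (b.ax hF) m1.1 m2
  exact i_ne_zero d2 hF m2.symm
    (hb d ⟨hW fun x hx => K2 hQ sub mx hu nu hE r1 r2 m1 d2 hx, sub d1⟩)

theorem con (xi : ∀ P : Finset S.Cv, Mc i (P : Set S.Cv) → P.card ≤ ξ) (a b : S.Cv) :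
    Relation.ReflTransGen (fun a b : S.Cv => i a b ≠ 0) a b := by
  by_contra n
  set W : Set S.Cv := {x | Relation.ReflTransGen (fun a b : S.Cv => i a b ≠ 0) a x}
  have out : ∀ x ∉ W, x ∈ perp i W := fun x hx y hy => by_contra fun c => hx (hy.tail c)
  have dis : ∀ x ∈ perp i W, ∃ y ∈ perp i W, i x y ≠ 0 ∧ x ∉ W := fun x hx => by
    obtain ⟨y, c⟩ := S.fill x
    have d : y ∉ W := fun d => c (i_symm y x ▸ hx y d)
    exact ⟨y, out y d, c, fun e => d (e.tail c)⟩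
  obtain ⟨Q, hQ, q1, sub, mx⟩ := exists_max xi (perp i W) (P := {b})
    (by simpa [Mc] using i_self b) (by simpa using out b n)
  have hL := lam_mc hQ
  have a0 : a ∈ W := .refl
  have hu : a ∈ perp i (Q : Set S.Cv) := fun d hd => i_symm a d ▸ sub hd a a0
  have nu : a ∉ Q := fun c => (dis a (sub c)).choose_spec.2.2 a0
  obtain ⟨E, hE, N, hN⟩ : ∃ E ∈ a.1, ∃ N, N ∈ b.1 := a.nonempty.imp fun _ h => ⟨h, b.nonempty⟩
  obtain ⟨γ, g⟩ := (a.ax hE).pl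
  obtain ⟨δ, d⟩ := (b.ax hN).pl
  have h0 := hL.off (a.ax hE) (fun c => nu ((a.mem_WL hE).1 c)) (nc_of_perp hu hE) (g.h2 0) (g.on 0)
  have vN : N ∈ WL (Q : Set S.Cv) := (b.mem_WL hN).2 (q1 (Finset.mem_singleton_self b))
  have fin : {F ∈ WL (Q : Set S.Cv) | 0 < Bf F (γ 0) ∧ Bf F (δ 0) ≤ 0}.Finite :=
    (hL.sep_fin (g.h2 0) (d.h2 0)).subset fun F c =>
      ⟨c.1, mul_nonpos_of_nonneg_of_nonpos c.2.1.le c.2.2⟩
  obtain ⟨m, m1, m2, m3, s, t, -, -, z1, z2, z3⟩ := (h0.2 N vN).lt_or_gt.elim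
    (fun c => first_line (g.h2 0) (d.h2 0) fin (hL.neg N vN) (by simpa using c) (by simp [d.on 0]))
    fun c => first_line (g.h2 0) (d.h2 0) fin vN c (d.on 0).le
  have fr : ∀ {y : S.Cv} {F q}, F ∈ y.1 → H2 q → Bf F q = 0 → ∀ n ∈ S.per, 0 < Bf n q :=
    fun {y F q} f u v n w => by
      obtain ⟨k, k1, k2⟩ := y.ax f
      exact MC.tw1_front S k1 k2 w (y.curve f).pos (y.curve f).neg (x := ⟨q, u⟩) v
  rcases m1 with ⟨y, y1, y2⟩ | c | c
  · obtain ⟨x, x1, x2, -⟩ := dis y (sub y1)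
    exact x2 (i_symm x y ▸ K2 hQ sub mx hu nu hE (g.h2 0) (g.on 0)
      ⟨Or.inl ⟨y, y1, y2⟩, m2, _, ⟨z1, z3⟩, z2⟩ y2 x1)
  · exact (fr hN (d.h2 0) (d.on 0) m c).not_ge m3
  · have := fr hE (g.h2 0) (g.on 0) _ c
    rw [Bf_neg_left] at this
    linarith

end Pool.Agent.MP_646035_al.H84.Fu
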