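import Pool.Agent.MP_646035_al.Mg.H84_GBase

attribute [-instance] SemigroupAction.toSMul Submonoid.instSMulSubtypeMem AddQuantale.instAddLeftMono
  Prod.mulAction Module.toDistribMulAction IsOrderedRing.toIsStrictOrderedRing Semiring.toMonoid
  SMulWithZero.toSMulZeroClass DivisionCommMonoid.toDivisionMonoid
  IdemSemiring.toCanonicallyOrderedAdd NumberField.to_charZero AddQuantale.instAddRightMono
  Prod.distribSMul Algebra.toSMul LinearOrderedCommMonoidWithZero.toPosMulStrictMono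
  instSMulZeroClass MonTypeEquivalenceMon.monMonoid Quantale.instMulRightMono
  MulSemiringAction.toDistribMulAction

/-!
Lines on one side of a parametrised line, described by intervals of ideal points.
-/

namespace Pool.Agent.MP_646035_al.H84

open Pool.Agent.MP_4a6971_al.H66 Set Real H24

variable {η : ℝ → V} {A h h' G F q w : V} {a b a' b' Q ρ : ℝ} {k : Isom}

theorem exists_frame0 {E : V} (hE : Bf E E = 1) : ∃ f : Isom, f • E = E0 := by
  obtain ⟨a, b, c⟩ := E
  simp only [Bf] at hE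
  by_cases ha : a = 0
  · subst ha
    obtain ⟨f, hf⟩ := exists_isom (α := 1) (β := -c / 2) (γ := 0) (δ := b) (by linarith)
    refine ⟨f, ?_⟩
    rw [hf, act_apply, E0]
    ext <;> simp only
    · ring
    · linarith
    · ring
  · obtain ⟨f, hf⟩ := exists_isom (α := (-b + 1) / a) (β := -(-b - 1) / 2) (γ := 1) (δ := -a / 2)
      (by field_simp; ring)
    refine ⟨f, ?_⟩
    obtain rfl : c = (b ^ 2 - 1) / a := by field_simp; linarith
    rw [hf, act_apply, E0]
    ext <;> simp only <;> field_simp <;> ring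

/-- Every line has a parametrisation. -/
lemma exists_pl' (hE : Bf A A = 1) : ∃ γ, PL γ A := by
  obtain ⟨f, hf⟩ := exists_frame0 hE
  obtain ⟨γ, l⟩ := exists_pl (u := dil 1) (E := E0) ⟨1, 1, one_pos, by simp⟩
    ⟨by simp [E0, Bf], by simp only [E0, dil_smul, zero_mul]⟩
  exact ⟨_, by simpa [← hf] using l.smul f⁻¹⟩

/-- `h` lies on the positive side of `A`, faces `A`, and its ends are the ideal points
`η a + A` and `η b + A`. -/
def Iv (η : ℝ → V) (A h : V) (a b : ℝ) : Prop :=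
  PL η A ∧ Bf h h = 1 ∧ a < b ∧ ∃ κ : ℝ, 0 < κ ∧
    ∀ u, Bf h (η u + A) = κ * ((exp u - exp a) * (exp u - exp b)) * exp (-u)

lemma form2 (l : PL η A) : ∃ X Z : V → ℝ, (∀ G t, Bf G (η t) = X G * exp t + Z G * exp (-t)) ∧
    ∀ G H, Bf G H = Bf G A * Bf H A - 2 * (X G * Z H + X H * Z G) := by
  obtain ⟨f, h1, h2⟩ := l.frame
  refine ⟨fun G => -(f • G).1 / 2, fun G => -(f • G).2.2 / 2, fun G t => ?_, fun G H => ?_⟩
  · rw [← Bf_isom f, h2, Bf]; ring
  · rw [← Bf_isom f G H, ← Bf_isom f G, ← Bf_isom f H, h1, Bf_comm _ E0, Bf_comm _ E0, Bf_E0, Bf_E0,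
      Bf]; ring

lemma exp_mul_neg (u : ℝ) : exp u * exp (-u) = 1 := by rw [← exp_add]; simp

namespace Iv

variable (H : Iv η A h a b)
include H

lemma pl : PL η A := H.1
lemma unit : Bf h h = 1 := H.2.1
lemma lt : a < b := H.2.2.1

lemma neg_iff (u : ℝ) : Bf h (η u + A) < 0 ↔ a < u ∧ u < b := by
  obtain ⟨-, -, ab, κ, h0, e⟩ := H
  rw [e, mul_comm, neg_iff_of_pos (exp_pos _), neg_iff_of_pos h0, exp_sub_mul_neg]
  constructor
  · intro c; constructor <;> nlinarith only [ab, c]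
  · rintro ⟨c, d⟩; nlinarith only [c, d]

lemma zero_iff (u : ℝ) : Bf h (η u + A) = 0 ↔ u = a ∨ u = b := by
  obtain ⟨-, -, ab, κ, h0, e⟩ := H
  simp [e, h0.ne', (exp_pos _).ne', sub_eq_zero]

lemma pos_iff (u : ℝ) : 0 < Bf h (η u + A) ↔ u < a ∨ b < u := by
  have h1 := H.neg_iff u
  have h2 := H.zero_iff u
  have := H.lt
  constructor
  · intro c
    by_contra! d
    rcases d.1.lt_or_eq with x | x
    · rcases d.2.lt_or_eq with y | y
      exacts [by linarith [h1.2 ⟨x, y⟩], by linarith [h2.2 (Or.inr y)]]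
    · linarith [h2.2 (Or.inl x.symm)]
  · intro c
    by_contra! d
    rcases d.lt_or_eq with x | x
    · rcases c with c | c <;> linarith [(h1.1 x).1, (h1.1 x).2]
    · rcases c with c | c <;> rcases h2.1 x with y | y <;> linarith

lemma coord : ∃ (X Z : V → ℝ) (κ : ℝ), (∀ G t, Bf G (η t) = X G * exp t + Z G * exp (-t)) ∧
    (∀ G H, Bf G H = Bf G A * Bf H A - 2 * (X G * Z H + X H * Z G)) ∧ 0 < κ ∧ X h = κ ∧
    Z h = κ * (exp a * exp b) ∧ Bf h A = -κ * (exp a + exp b) ∧ κ * (exp b - exp a) = 1 := by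
  obtain ⟨l, u, ab, κ, h0, e⟩ := H
  obtain ⟨X, Z, h1, h2⟩ := form2 l
  have e' : ∀ u, (X h - κ) * exp u ^ 2 + (Bf h A + κ * (exp a + exp b)) * exp u +
      (Z h - κ * (exp a * exp b)) = 0 := fun u => by
    have := e u
    rw [Bf_add_right, h1] at this
    linear_combination exp u * this - (Z h - κ * ((exp u - exp a) * (exp u - exp b))) * exp_mul_neg u
  have e1 := e' (log 1)
  have e2 := e' (log 2)
  have e3 := e' (log 3)
  rw [exp_log (by norm_num)] at e1 e2 e3
  have x : X h = κ := by linarith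
  have y : Bf h A = -κ * (exp a + exp b) := by linarith
  have z : Z h = κ * (exp a * exp b) := by linarith
  refine ⟨X, Z, κ, h1, h2, h0, x, z, y, ?_⟩
  rw [h2, x, y, z] at u
  have : 0 < κ * (exp b - exp a) := mul_pos h0 (sub_pos.2 (exp_lt_exp.2 ab))
  nlinarith only [u, this]

lemma face : Bf h A < -1 := by
  obtain ⟨X, Z, κ, -, -, h0, -, -, y, e⟩ := H.coord
  linarith only [mul_pos h0 (exp_pos a), y, e]

lemma pos_on (t : ℝ) : 0 < Bf h (η t) := by
  obtain ⟨X, Z, κ, h1, -, h0, x, z, -⟩ := H.coord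
  rw [h1, x, z]; positivity

lemma sq : ∃ ν : ℝ, 0 < ν ∧ ∀ G, Bf h G ^ 2 - Bf G G = ν * (Bf G (η a + A) * Bf G (η b + A)) := by
  obtain ⟨X, Z, κ, h1, h2, h0, x, z, y, e⟩ := H.coord
  refine ⟨4 * exp a * exp b * κ ^ 2, by positivity, fun G => ?_⟩
  have hd : exp b - exp a ≠ 0 := fun c => by simp [c] at e
  obtain rfl : κ = 1 / (exp b - exp a) := eq_div_of_mul_eq hd e
  rw [h2 h G, h2 G G, Bf_add_right, Bf_add_right, h1, h1, x, y, z, exp_neg, exp_neg]
  field_simp
  ring

lemma cr_iff (hG : Bf G G = 1) : Cr h G ↔ Bf G (η a + A) * Bf G (η b + A) < 0 := by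
  obtain ⟨ν, h0, e⟩ := H.sq
  rw [← neg_iff_of_pos h0, ← e, hG, Cr, sub_neg]

/-- The points of the line are positive combinations of its ends. -/
lemma pt (hq : H2 q) (e : Bf h q = 0) :
    ∃ α β : ℝ, 0 < α ∧ 0 < β ∧ q = α • (η a + A) + β • (η b + A) := by
  have l := H.pl
  have fut : ∀ u, Bf (η u + A) q < 0 := fun u => by
    have h1 := one_le_ch (l.h2 u) hq
    obtain ⟨x, z, -, h2⟩ := l.add u |>.form q
    obtain ⟨X, Z, f1, f2⟩ := form2 (l.add u)
    have h3 := f2 q q
    have h4 := f1 q 0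
    simp only [zero_add, neg_zero, exp_zero, mul_one] at h4
    rw [hq.1] at h3
    rw [ch, Bf_comm, h4] at h1
    rw [Bf_comm, Bf_add_right, h4]
    nlinarith only [sq_nonneg (X q - Z q), h1, h3]
  have μ : 0 < cosh (a - b) - 1 := sub_pos.2 (one_lt_cosh.2 (sub_ne_zero.2 H.lt.ne))
  have n : ∀ u v, Bf (η u + A) (η v + A) = 1 - cosh (u - v) := fun u v => by
    simp [l.bf, l.on, l.unit, Bf_comm _ A]; ring
  have za := (H.zero_iff a).2 (Or.inl rfl)
  have zb := (H.zero_iff b).2 (Or.inr rfl)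
  obtain ⟨ν, h0, s⟩ := H.sq
  refine ⟨-Bf (η b + A) q / (cosh (a - b) - 1), -Bf (η a + A) q / (cosh (a - b) - 1),
    div_pos (neg_pos.2 (fut b)) μ, div_pos (neg_pos.2 (fut a)) μ, ?_⟩
  set D := q - ((-Bf (η b + A) q / (cosh (a - b) - 1)) • (η a + A) +
    (-Bf (η a + A) q / (cosh (a - b) - 1)) • (η b + A)) with hD
  have d1 : Bf (η a + A) D = 0 := by
    rw [hD, Bf_sub_right, Bf_add_right, Bf_smul_right, Bf_smul_right, n, n, sub_self, cosh_zero]
    field_simp; ring
  have d2 : Bf (η b + A) D = 0 := by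
    rw [hD, Bf_sub_right, Bf_add_right, Bf_smul_right, Bf_smul_right, n, n, sub_self, cosh_zero,
      ← cosh_neg (b - a), neg_sub]
    field_simp; ring
  have d3 : Bf h D = 0 := by
    rw [hD, Bf_sub_right, Bf_add_right, Bf_smul_right, Bf_smul_right, za, zb, e]; ring
  have d4 := s D
  rw [d3, Bf_comm D (η a + A), d1] at d4
  have d5 : Bf D D = 0 := by linarith only [d4]
  refine sub_eq_zero.1 (eq_zero_of_orth hq ?_ d5.le)
  have : q = D + ((-Bf (η b + A) q / (cosh (a - b) - 1)) • (η a + A) +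
    (-Bf (η a + A) q / (cosh (a - b) - 1)) • (η b + A)) := by rw [hD, sub_add_cancel]
  change Bf D q = 0
  rw [this, Bf_add_right, Bf_add_right, Bf_smul_right, Bf_smul_right, d5, Bf_comm D, Bf_comm D,
    d1, d2]
  ring

lemma side (hq : H2 q) (e : Bf h q = 0) : 0 < Bf A q := by
  obtain ⟨α, β, h1, h2, rfl⟩ := H.pt hq e
  simp only [Bf_add_right, Bf_smul_right, H.pl.on, H.pl.unit]
  positivity

lemma pos_of_ends (hq : H2 q) (e : Bf h q = 0) (h1 : 0 ≤ Bf G (η a + A))
    (h2 : 0 < Bf G (η b + A)) : 0 < Bf G q := by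
  obtain ⟨α, β, a1, b1, rfl⟩ := H.pt hq e
  rw [Bf_add_right, Bf_smul_right, Bf_smul_right]
  positivity

lemma neg_of_ends (hq : H2 q) (e : Bf h q = 0) (h1 : Bf G (η a + A) < 0)
    (h2 : Bf G (η b + A) < 0) : Bf G q < 0 := by
  simpa using H.pos_of_ends (G := -G) hq e (by rw [Bf_neg_left]; linarith)
    (by rw [Bf_neg_left]; linarith)

/-- A line with constant sign on `h` has this sign at both ends of `h`. -/
lemma ends_pos (hG : 1 < Bf h G ^ 2) (u : Bf G G = 1) (hq : H2 q) (e : Bf h q = 0)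
    (c : 0 < Bf G q) : 0 < Bf G (η a + A) ∧ 0 < Bf G (η b + A) := by
  obtain ⟨ν, h0, s⟩ := H.sq
  have := (mul_pos_iff_of_pos_left h0).1 (by linarith [s G] :
    0 < ν * (Bf G (η a + A) * Bf G (η b + A)))
  exact (mul_pos_iff.1 this).resolve_right fun d => lt_asymm c (H.neg_of_ends hq e d.1 d.2)

lemma ends_nonneg (hG : ¬ Cr h G) (u : Bf G G = 1) (hq : H2 q) (e : Bf h q = 0)
    (c : 0 < Bf G q) : 0 ≤ Bf G (η a + A) ∧ 0 ≤ Bf G (η b + A) := by
  rw [H.cr_iff u, not_lt] at hG
  refine (mul_nonneg_iff.1 hG).elim id fun d => ?_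
  obtain ⟨α, β, a1, b1, rfl⟩ := H.pt hq e
  rw [Bf_add_right, Bf_smul_right, Bf_smul_right] at c
  nlinarith only [d.1, d.2, a1, b1, c]

lemma cr_iv (H' : Iv η A h' a' b') :
    Cr h h' ↔ (a < a' ∧ a' < b ∧ b < b') ∨ (a' < a ∧ a < b' ∧ b' < b) := by
  rw [H.cr_iff H'.unit, mul_neg_iff, H'.pos_iff, H'.pos_iff, H'.neg_iff, H'.neg_iff]
  have := H.lt
  have := H'.lt
  constructor
  · rintro (⟨c | c, d⟩ | ⟨c, d | d⟩)
    exacts [Or.inl ⟨c, d.1, d.2⟩, by linarith [d.2], by linarith [c.1], Or.inr ⟨c.1, c.2, d⟩]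
  · rintro (⟨c, d, e⟩ | ⟨c, d, e⟩)
    exacts [Or.inl ⟨Or.inl c, d, e⟩, Or.inr ⟨⟨c, d⟩, Or.inr e⟩]

/-- A line crossing `A` crosses `h` iff its end on the positive side is behind `h`. -/
lemma cr_x (hF : Bf F F = 1) (c : Cr A F) (e : Bf F (η Q + A) = 0) : Cr h F ↔ a < Q ∧ Q < b := by
  rw [H.cr_iff hF, mul_neg_iff, Bf_add_right, Bf_add_right]
  rw [Bf_add_right] at e
  have ab := H.lt
  have e' : Bf F A = -Bf F (η Q) := by linarith
  simp only [e', ← sub_eq_add_neg, sub_pos, sub_neg]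
  rcases H.pl.mono hF c with m | m
  · simp only [m.lt_iff_lt]
    exact ⟨fun d => d.elim (fun d => by linarith [d.1, d.2]) id, Or.inr⟩
  · simp only [m.lt_iff_gt]
    exact ⟨fun d => d.elim id fun d => by linarith [d.1, d.2], Or.inl⟩

lemma smul (hk : k • A = A) (sh : ∀ t, k • η t = η (t + ρ)) : Iv η A (k • h) (a + ρ) (b + ρ) := by
  obtain ⟨l, u, ab, κ, h0, e⟩ := H
  refine ⟨l, by simpa, by linarith, κ * exp (-ρ), by positivity, fun t => ?_⟩
  have := e (t - ρ)
  rw [← Bf_isom k, smul_add, hk, sh, sub_add_cancel] at this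
  rw [this]
  simp only [exp_add, exp_sub, exp_neg, neg_sub]
  field_simp

/-- A line that does not cross its translate spans at most one period. -/
lemma wander (hk : k • A = A) (sh : ∀ t, k • η t = η (t + ρ)) (hρ : ρ ≠ 0)
    (c : ¬ Cr h (k • h)) : b ≤ a + |ρ| := by
  rw [H.cr_iv (H.smul hk sh)] at c
  by_contra! d
  rcases hρ.lt_or_gt with x | x
  · rw [abs_of_neg x] at d
    exact c (Or.inr ⟨by linarith, by linarith, by linarith⟩)
  · rw [abs_of_pos x] at d
    exact c (Or.inl ⟨by linarith, by linarith, by linarith⟩)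

end Iv

lemma iv_of_face (l : PL η A) (u : Bf h h = 1) (c : Bf h A < -1) (p : 0 < Bf h (η 0)) :
    ∃ a b, Iv η A h a b := by
  obtain ⟨X, Z, h1, h2⟩ := form2 l
  have e := h2 h h
  rw [u] at e
  rw [h1] at p
  simp only [exp_zero, neg_zero, mul_one] at p
  have xz : 0 < X h * Z h := by nlinarith only [c, e]
  have x : 0 < X h := by
    by_contra! d
    linarith only [mul_pos_iff.1 xz |>.resolve_left fun y => absurd y.1 (not_lt.2 d), p]
  refine ⟨log ((-Bf h A - 1) / (2 * X h)), log ((-Bf h A + 1) / (2 * X h)), l, u,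
    log_lt_log (div_pos (by linarith) (by positivity)) (by gcongr; linarith only []), X h, x, fun t => ?_⟩
  rw [exp_log (div_pos (by linarith) (by positivity)),
    exp_log (div_pos (by linarith) (by positivity)), Bf_add_right, h1, exp_neg]
  have : Z h = (Bf h A ^ 2 - 1) / (4 * X h) := by field_simp; linarith
  rw [this]
  field_simp
  ring

/-- A line on the positive side of `A`. -/
lemma iv_of_side (l : PL η A) (u : Bf h h = 1) (c : 1 < Bf A h ^ 2) (hq : H2 q) (e : Bf h q = 0)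
    (p : 0 < Bf A q) : ∃ a b, Iv η A h a b ∨ Iv η A (-h) a b := by
  have key : ∀ h, Bf h h = 1 → 1 < Bf A h ^ 2 → Bf h q = 0 → 0 < Bf h (η 0) →
      ∃ a b, Iv η A h a b := fun h u c e s => by
    refine iv_of_face l u ?_ s
    obtain ⟨X, Z, h1, h2⟩ := form2 l
    have e1 := h2 h h
    have e2 := h2 h q
    have q0 := fun t => one_le_ch hq (l.h2 t)
    simp only [ch, h1] at q0
    have e3 := h2 q q
    rw [h1] at s
    have q1 := q0 0
    simp only [exp_zero, neg_zero, mul_one] at s q1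
    rw [Bf_comm] at c p
    rw [hq.1] at e3
    have xz : 0 < X h * Z h := by linarith only [u, c, e1]
    have xz' : 0 < X q * Z q := by nlinarith only [e3]
    obtain ⟨x, z⟩ := (mul_pos_iff.1 xz).resolve_right fun y => by linarith only [y.1, y.2, s]
    obtain ⟨x', z'⟩ := (mul_pos_iff.1 xz').resolve_left fun y => by linarith only [y.1, y.2, q1]
    have : Bf h A < 0 := by
      by_contra! d
      linarith only [mul_nonneg d p.le, mul_pos x (neg_pos.2 z'), mul_pos z (neg_pos.2 x'), e, e2]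
    nlinarith only [u, e1, xz, this]
  have := l.same u c 0 0
  rcases lt_trichotomy 0 (Bf h (η 0)) with s | s | s
  · exact (key h u c e s).imp fun a => .imp fun b => Or.inl
  · simp [← s] at this
  · exact (key (-h) (by simpa only [Bf_neg_right, Bf_neg_left, neg_neg, mul_self_pos, ne_eq]) (by rwa [Bf_neg_right, neg_sq]) (by simpa only [Bf_neg_left, neg_eq_zero, mul_self_pos, ne_eq]) (by simpa only [Bf_neg_left, Left.neg_pos_iff, mul_self_pos, ne_eq])).imp fun a => .imp fun b => Or.inr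

/-- The end of a crossing line on the positive side. -/
lemma exists_x (l : PL η A) (hF : Bf F F = 1) (c : Cr A F) : ∃ Q, Bf F (η Q + A) = 0 := by
  obtain ⟨x, z, h1, h2⟩ := l.form F
  rw [Cr] at c
  have x0 : x ≠ 0 := fun e => by rw [e] at h2; linarith
  have y1 := abs_lt.1 ((sq_lt_one_iff_abs_lt_one _).1 c)
  obtain ⟨r, r0, hr⟩ : ∃ r : ℝ, 0 < r ∧ x * r ^ 2 + Bf A F * r + z = 0 := by
    rcases x0.lt_or_gt with d | d
    · exact ⟨(-Bf A F - 1) / (2 * x), div_pos_of_neg_of_neg (by linarith) (by linarith), by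
        field_simp; linarith⟩
    · exact ⟨(-Bf A F + 1) / (2 * x), div_pos (by linarith) (by linarith), by
        field_simp; linarith⟩
  refine ⟨log r, ?_⟩
  rw [Bf_add_right, h1, exp_neg, exp_log r0, Bf_comm F]
  field_simp
  linarith

lemma x_smul (hk : k • A = A) (sh : ∀ t, k • η t = η (t + ρ)) (G : V) (u : ℝ) :
    Bf (k • G) (η (u + ρ) + A) = Bf G (η u + A) := by
  rw [← sh, ← Bf_isom k G, smul_add, hk]

lemma sh_zpow (sh : ∀ t, k • η t = η (t + ρ)) (j : ℤ) (t : ℝ) : k ^ j • η t = η (t + j * ρ) := by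
  induction j using Int.induction_on generalizing t with
  | zero => simp
  | succ n ih => rw [zpow_add_one, mul_smul, sh, ih]; congr 1; push_cast; ring
  | pred n ih =>
    have : k⁻¹ • η t = η (t - ρ) := by rw [inv_smul_eq_iff, sh, sub_add_cancel]
    rw [zpow_sub_one, mul_smul, this, ih]; congr 1; push_cast; ring

/-- A line that is non-negative along an orbit on the positive side of the axis faces the axis. -/
lemma iv_of_orbit (l : PL η A) (hk : k • A = A) (sh : ∀ t, k • η t = η (t + ρ)) (hρ : 0 < ρ)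
    (u : Bf h h = 1) (hw : H2 w) (w0 : 0 < Bf A w) (pos : ∀ j : ℤ, 0 ≤ Bf h (k ^ j • w))
    (hq : H2 q) (e : Bf h q = 0) (p : 0 < Bf A q) : ∃ a b, Iv η A h a b := by
  obtain ⟨X, Z, h1, h2⟩ := form2 l
  have neg : ∀ q, H2 q → X q < 0 ∧ Z q < 0 := fun q hq => by
    have q1 := one_le_ch hq (l.h2 0)
    have e3 := h2 q q
    rw [hq.1] at e3
    simp only [ch, h1, exp_zero, neg_zero, mul_one] at q1
    have xz' : 0 < X q * Z q := by nlinarith only [e3]
    exact (mul_pos_iff.1 xz').resolve_left fun y => by linarith only [y.1, y.2, q1]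
  have f : ∀ j : ℤ, Bf h (k ^ j • w) = Bf h A * Bf w A + (-2 * X h * Z w) * exp (j * ρ) +
      (-2 * X w * Z h) * exp (-(j * ρ)) := fun j => by
    have e : ∀ t, X (k ^ j • w) * exp t + Z (k ^ j • w) * exp (-t) =
        X w * exp (-(j * ρ)) * exp t + Z w * exp (j * ρ) * exp (-t) := fun t => by
      rw [← h1, Bf_move, ← zpow_neg, sh_zpow sh, h1, mul_assoc, mul_assoc, ← exp_add, ← exp_add]
      push_cast
      ring_nf
    have e1 := e (log 1)
    have e2 := e (log 2)
    simp only [exp_neg (log _), exp_log one_pos, exp_log two_pos] at e1 e2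
    rw [h2, Bf_move _ w A, ← zpow_neg, IsAx.zpow ⟨l.unit, hk⟩,
      (by linarith : X (k ^ j • w) = X w * exp (-(j * ρ))),
      (by linarith : Z (k ^ j • w) = Z w * exp (j * ρ))]
    ring
  simp only [f] at pos
  obtain ⟨xw, zw⟩ := neg w hw
  obtain ⟨xq, zq⟩ := neg q hq
  rw [Bf_comm] at w0 p
  have x : 0 ≤ X h := by
    by_contra! d
    obtain ⟨n, hn⟩ := grow_aux (α := 2 * X h * Z w) (β := -(Bf h A * Bf w A))
      (γ := 2 * X w * Z h) hρ (by nlinarith only [zw, d]) 0
    have := pos n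
    push_cast at this
    linarith only [hn n le_rfl, this]
  have z : 0 ≤ Z h := by
    by_contra! d
    obtain ⟨n, hn⟩ := grow_aux (α := 2 * X w * Z h) (β := -(Bf h A * Bf w A))
      (γ := 2 * X h * Z w) hρ (by nlinarith only [xw, d]) 0
    have := pos (-n)
    push_cast at this
    rw [neg_mul (n : ℝ) ρ, neg_neg] at this
    linarith [hn n le_rfl]
  have e1 := h2 h h
  have e2 := h2 h q
  have y : Bf h A ≤ 0 := by
    by_contra! d
    linarith only [mul_pos d p, mul_nonneg x (neg_pos.2 zq).le, mul_nonneg z (neg_pos.2 xq).le, e, e2]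
  have y1 : Bf h A ≤ -1 := by nlinarith only [mul_nonneg x z, u, e1, y]
  have y2 : 0 < -(Bf h A * Bf w A) := by nlinarith only [w0, y1]
  have x' : 0 < X h := x.lt_of_ne fun d => by
    obtain ⟨n, hn⟩ := grow_aux (α := -(Bf h A * Bf w A)) (β := 2 * X w * Z h) (γ := 0) hρ y2 0
    have h3 := pos n
    push_cast at h3
    have h4 := mul_nonneg h3 (exp_pos (n * ρ)).le
    have h5 := exp_mul_neg (n * ρ)
    rw [← d] at h4
    have := hn n le_rfl
    have h6 : 2 * X w * Z h * (exp (n * ρ) * exp (-(n * ρ))) = 2 * X w * Z h := by rw [h5, mul_one]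
    linarith only [h4, this, h6]
  have z' : 0 < Z h := z.lt_of_ne fun d => by
    obtain ⟨n, hn⟩ := grow_aux (α := -(Bf h A * Bf w A)) (β := 2 * X h * Z w) (γ := 0) hρ y2 0
    have h3 := pos (-n)
    push_cast at h3
    rw [neg_mul (n : ℝ) ρ, neg_neg] at h3
    have h4 := mul_nonneg h3 (exp_pos (n * ρ)).le
    have h5 := exp_mul_neg (n * ρ)
    rw [← d] at h4
    have := hn n le_rfl
    have h6 : 2 * X h * Z w * (exp (n * ρ) * exp (-(n * ρ))) = 2 * X h * Z w := by rw [h5, mul_one]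
    linarith only [h4, this, h6]
  refine iv_of_face l u (by nlinarith only [mul_pos x' z', u, e1, y]) ?_
  rw [h1]; positivity

end Pool.Agent.MP_646035_al.H84
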