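import Pool.Agent.MP_646035_al.Mg.H84_GGap

attribute [-instance] DivisionCommMonoid.toDivisionMonoid Prod.mulAction SemigroupAction.toSMul
  Submonoid.instSMulSubtypeMem Semiring.toMonoid Module.toDistribMulAction
  NonUnitalRingHomClass.toMulHomClass SMulWithZero.toSMulZeroClass MonTypeEquivalenceMon.monMonoid
  AddSubmonoidClass.toAddCommMonoid Prod.distribSMul NonUnitalAlgSemiHomClass.toMulHomClass
  SemigroupWithZero.toSemigroup Algebra.toSMul instSMulZeroClass IdemSemiring.toCanonicallyOrderedAdd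
  MulSemiringAction.toDistribMulAction GroupConeClass.toSubmonoidClass AddQuantale.instAddLeftMono

/-!
Pairs of pants: every axis in the region crosses a translate of the chord.
-/

namespace Pool.Agent.MP_646035_al.H84.Fu

open Pool.Agent.MP_4a6971_al.H66 Set H24

variable {Γ : Type} [Group Γ] {S : Fu Γ} {L : Set V} {r l m m' p p' A A' u q z : V}

lemma pa2_fin (hL : S.Lam L) (H : Ch L r l m m' p p') (R' : ℝ) :
    {g | S.St L r g ∧ ∃ z, Cl L r z ∧ ch o z ≤ R' ∧ Bf (S.σ g • l) z = 0}.Finite := by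
  obtain ⟨R, hR⟩ := H.bdd hL
  refine (S.prop (2 * R' * R)).subset ?_
  rintro g ⟨h1, z, h2, b1, h4⟩
  have b2 := hR _ ((h1.inv hL H.off).cl hL H.off h2) (by rwa [Bf_move, ← map_inv] at h4)
  rw [← ch_isom (S.σ g), map_inv, smul_inv_smul, ch_comm] at b2
  rw [ch_comm] at b1
  have b3 := one_le_ch h2.1 H2_o
  have b4 := one_le_ch h2.1 (H2_o.smul (S.σ g))
  refine (ch_tri H2_o h2.1 (H2_o.smul (S.σ g))).trans ?_
  gcongr
  linarith

lemma pa2_bdd {x y : ℝ} (hp : H2 p) (hq : H2 q) (hx : 0 ≤ x) (hy : 0 ≤ y)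
    (h : H2 (x • p + y • q)) : ch o (x • p + y • q) ≤ ch o p + ch o q := by
  have h1 := h.1
  have h2 := one_le_ch hp hq
  have h3 := one_le_ch H2_o hp
  have h4 := one_le_ch H2_o hq
  simp only [ch, Bf_add_left, Bf_add_right, Bf_smul_left, Bf_smul_right, hp.1, hq.1,
    Bf_comm q p] at h1 h2 h3 h4 ⊢
  have h5 : 0 ≤ x * y * -Bf p q := by positivity
  have h6 : x ≤ 1 := by nlinarith only [hy, h1, h5]
  have h7 : y ≤ 1 := by nlinarith only [hx, h1, h5]
  nlinarith only [h3, h4, h6, h7]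

lemma pa2_core (hL : S.Lam L) (G : S.Gap L r l m m' p p' A) (hA : A ∈ L) (hu : S.Ax u)
    (h1 : u ∉ L) (h2 : ∀ n ∈ L, ¬ Cr u n) (hq : Cl L r q) (e : Bf u q = 0)
    (hn : ∀ g, S.St L r g → ¬ Cr u (S.σ g • l)) (h0 : ∀ g, S.St L r g → Bf (S.σ g • l) q ≠ 0)
    (hz : Cl L r z) (ez : Bf l z = 0) (lq : 0 < Bf l q)
    (hm : ∀ g, S.St L r g → ∀ F, F = S.σ g • l ∨ F = -(S.σ g • l) → 0 < Bf F q → 0 ≤ Bf F z) :
    False := by
  have off := hL.off hu h1 h2 hq.1 e
  have Aq := hq.pos' off hA (G.ch.cl.pos hL G.ch.off hA G.pos)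
  have tri : 1 < Bf A u ^ 2 := by
    rcases G.ax.tri hu with b | rfl | rfl | b
    exacts [absurd b.symm (h2 A hA), absurd hA h1, absurd (hL.neg A hA) h1, b]
  obtain ⟨c, g, l1, p1, p1', W, ax, A0⟩ := G
  obtain ⟨η, τ, a0, b0, a1, b1, a2, b2, a3, b3, hτ, sh, I0, I1, I2, I3, -, -, o2, -, o4, -, -,
    o7, -, o9, -⟩ := W.coord hL ax A0
  obtain ⟨a, b, I⟩ := iv_of_side I0.pl hu.unit tri hq.1 e Aq
  have key : ∀ F, Bf F F = 1 → ¬ Cr u F → 0 < Bf F q → 0 ≤ Bf F (η a + A) := fun F f1 f2 f3 => by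
    rcases I with I | I
    · exact (I.ends_nonneg f2 f1 hq.1 e f3).1
    · exact (I.ends_nonneg (by simpa using f2) f1 hq.1 (by simpa using e) f3).1
  obtain ⟨j, j1, j2⟩ := exists_mem_Ico hτ (b3 - τ) a
  have kA : S.σ (c ^ j) • A = A := by
    rw [map_zpow]
    exact MulAction.mem_stabilizer_iff.1 (zpow_mem (MulAction.mem_stabilizer_iff.2 ax.2) j)
  have ks := W.cst.zpow hL W.ch.off (-j)
  have out : ∀ {F : V} {s t : ℝ}, Iv η A F s t → ¬ Cr u (S.σ (c ^ (-j)) • F) →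
      0 < Bf (S.σ (c ^ (-j)) • F) q → ¬ (s < a + j * τ ∧ a + j * τ < t) := fun J f2 f3 k => by
    have k1 := key _ (by simpa only [zpow_neg, map_inv, map_zpow, Bf_isom] using J.unit) f2 f3
    rw [← x_smul kA (shift_zpow sh j), ← mul_smul, ← map_mul, zpow_neg, mul_inv_cancel, map_one,
      one_smul] at k1
    exact absurd ((J.neg_iff _).2 k) (not_lt.2 k1)
  have wall : ∀ {F : V} {s t : ℝ}, Iv η A F s t → F ∈ L → 0 < Bf F r →
      ¬ (s < a + j * τ ∧ a + j * τ < t) := fun J f1 f2 =>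
    out J (h2 _ (hL.smul _ f1 _)) (hq.pos' off (hL.smul _ f1 _) (ks.pos hL W.ch.off f1 f2))
  have line : ∀ {F : V} {k : Γ}, S.St L r k → F = S.σ k • l ∨ F = -(S.σ k • l) →
      F = S.σ (c ^ (-j)) • l ∨ F = S.σ (c ^ (-j)) • l1 → ¬ Cr u F ∧ 0 < Bf F q := by
    intro F k k1 k2 k3
    refine ⟨by rcases k2 with rfl | rfl <;> simpa using hn k k1, ?_⟩
    rcases W.pos hL (-j) k3 hz ez with rfl | b
    · exact lq
    · have ne : Bf F q ≠ 0 := by rcases k2 with rfl | rfl <;> simpa using h0 k k1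
      refine ne.lt_or_gt.resolve_left fun b' => ?_
      have := hm k k1 (-F) (by rcases k2 with rfl | rfl <;> simp) (by simpa using b')
      rw [Bf_neg_left] at this
      linarith only [b, this]
  have l0 := line ks (Or.inl rfl) (Or.inl rfl)
  have l2 := line (ks.mul hL W.ch.off W.gst) (by
    rcases W.l1_eq with rfl | rfl <;> simp only [zpow_neg, map_inv, map_zpow, map_mul, mul_smul, true_or, smul_neg, or_true]) (Or.inr rfl)
  have c0 := out I0 l0.1 l0.2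
  have c1 := wall I1 W.ch.mem' W.ch.pos'
  have c2 := out I2 l2.1 l2.2
  have c3 := wall I3 W.ch1.mem' W.ch1.pos'
  generalize a + j * τ = Q at j1 j2 c0 c1 c2 c3
  have d0 : b0 ≤ Q := not_lt.1 fun k => c0 ⟨by linarith only [o2, j1], k⟩
  have d1 : b1 ≤ Q := not_lt.1 fun k => c1 ⟨by linarith only [o4, d0], k⟩
  have d2 : b2 ≤ Q := not_lt.1 fun k => c2 ⟨by linarith only [o7, d1], k⟩
  exact c3 ⟨by linarith only [o9, d2], by linarith only [j2]⟩

/-- If both gap lines are walls, every axis inside the region crosses a translate of the chord. -/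
theorem pants_a2 (hL : S.Lam L) (G : S.Gap L r l m m' p p' A) (G' : S.Gap L r (-l) m m' p p' A')
    (hA : A ∈ L) (hA' : A' ∈ L) (hu : S.Ax u) (h1 : u ∉ L) (h2 : ∀ n ∈ L, ¬ Cr u n)
    (hq : Cl L r q) (e : Bf u q = 0) : ∃ g, S.St L r g ∧ Cr u (S.σ g • l) := by
  by_contra hn
  replace hn : ∀ g, S.St L r g → ¬ Cr u (S.σ g • l) := fun g a b => hn ⟨g, a, b⟩
  have H := G.ch
  have h0 : ∀ g, S.St L r g → Bf (S.σ g • l) q ≠ 0 := fun g hg e' => by
    have c := (H.smul hL hg).cr hL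
    rcases cr_or_eq hu.unit (by simpa using H.unit) hq.1 e e' with b | b | b
    · exact hn g hg b
    · exact h2 _ (hL.smul _ H.mem g) (b ▸ c)
    · exact h2 _ (hL.smul _ H.mem g) (by simpa [b] using c)
  have fin : {F ∈ {F | ∃ g, S.St L r g ∧ (F = S.σ g • l ∨ F = -(S.σ g • l))} |
      0 < Bf F q ∧ Bf F p ≤ 0}.Finite := by
    have f := pa2_fin hL H (ch o q + ch o p)
    refine ((f.image fun g => S.σ g • l).union (f.image fun g => -(S.σ g • l))).subset ?_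
    rintro F ⟨⟨g, hg, hF⟩, a, b⟩
    obtain ⟨_, rfl, -, -, x, y, x0, y0, z1, z2, -⟩ := first_line (T := {F}) hq.1 H.cl.1
      ((finite_singleton F).subset fun _ h => h.1) rfl a b
    have k : g ∈ {g | S.St L r g ∧ ∃ z, Cl L r z ∧ ch o z ≤ ch o q + ch o p ∧
        Bf (S.σ g • l) z = 0} := ⟨hg, _, conv_pt hq H.cl x0 y0.le z1,
      pa2_bdd hq.1 H.cl.1 x0 y0.le z1, by
        rcases hF with rfl | rfl
        · exact z2
        · rwa [Bf_neg_left, neg_eq_zero] at z2⟩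
    exact hF.imp (fun e => ⟨g, k, e.symm⟩) fun e => ⟨g, k, e.symm⟩
  obtain ⟨F0, f1, f2, f3⟩ : ∃ F ∈ {F | ∃ g, S.St L r g ∧ (F = S.σ g • l ∨ F = -(S.σ g • l))},
      0 < Bf F q ∧ Bf F p ≤ 0 := by
    rcases (h0 1 (St.one H.off)).lt_or_gt with b | b
    · exact ⟨_, ⟨1, St.one H.off, Or.inr rfl⟩, by simpa only [map_one, one_smul, Bf_neg_left, Left.neg_pos_iff] using b, by simp only [map_one, one_smul, Bf_neg_left, H.lp, neg_zero, Std.le_refl]⟩
    · exact ⟨_, ⟨1, St.one H.off, Or.inl rfl⟩, b, by simp only [map_one, one_smul, H.lp, Std.le_refl]⟩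
  obtain ⟨F, ⟨g, hg, hF⟩, Fq, -, x, y, x0, y0, z1, z2, z3⟩ := first_line hq.1 H.cl.1 fin f1 f2 f3
  have hz := conv_pt hq H.cl x0 y0.le z1
  generalize x • q + y • p = z at z2 z3 hz
  have gi := hg.inv hL H.off
  have u1 : S.σ g⁻¹ • u ∉ L := fun a => h1 (by simpa only [map_inv, smul_inv_smul] using hL.smul _ a g)
  have u2 : ∀ n ∈ L, ¬ Cr (S.σ g⁻¹ • u) n := fun n hn => by
    simpa only [map_inv, cr_move, inv_inv] using h2 _ (hL.smul n hn g)
  have u3 : ∀ k, S.St L r k → ¬ Cr (S.σ g⁻¹ • u) (S.σ k • l) := fun k hk => by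
    simpa only [map_inv, cr_move, inv_inv, map_mul, mul_smul] using hn _ (hg.mul hL H.off hk)
  have u4 : ∀ k, S.St L r k → Bf (S.σ k • l) (S.σ g⁻¹ • q) ≠ 0 := fun k hk => by
    rw [Bf_move', inv_inv, ← mul_smul, ← map_mul]
    exact h0 _ (hg.mul hL H.off hk)
  have u5 : ∀ k, S.St L r k → ∀ F, F = S.σ k • l ∨ F = -(S.σ k • l) →
      0 < Bf F (S.σ g⁻¹ • q) → 0 ≤ Bf F (S.σ g⁻¹ • z) := fun k hk F hF b => by
    rw [Bf_move', inv_inv] at b ⊢
    exact z3 _ ⟨g * k, hg.mul hL H.off hk, by rcases hF with rfl | rfl <;> simp [mul_smul]⟩ b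
  rcases hF with rfl | rfl
  · exact pa2_core hL G hA (hu.smul g⁻¹) u1 u2 (gi.cl hL H.off hq) (by simpa only [map_inv, Bf_isom]) u3 u4
      (gi.cl hL H.off hz) (by rwa [Bf_move', inv_inv]) (by rwa [Bf_move', inv_inv]) u5
  · exact pa2_core hL G' hA' (hu.smul g⁻¹) u1 u2 (gi.cl hL H.off hq) (by simpa)
      (fun k hk => by simpa using u3 k hk) (fun k hk => by simpa only [smul_neg, map_inv, Bf_neg_left, ne_eq, neg_eq_zero] using u4 k hk)
      (gi.cl hL H.off hz) (by rwa [Bf_move', inv_inv, smul_neg])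
      (by rwa [Bf_move', inv_inv, smul_neg])
      fun k hk F hF => u5 k hk F (by simpa [or_comm] using hF)

end Pool.Agent.MP_646035_al.H84.Fu
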