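import Pool.Agent.MP_646035_al.Mg.H84_GGap
import Pool.Agent.MP_646035_al.Mg.H84_GPa2

attribute [-instance] Prod.instSMul Prod.mulAction DivisionCommMonoid.toDivisionMonoid
  NonUnitalRingHomClass.toMulHomClass AddSubmonoidClass.toAddCommMonoid
  MonTypeEquivalenceMon.monMonoid Semiring.toMonoid NonUnitalAlgSemiHomClass.toMulHomClass
  SemigroupWithZero.toSemigroup Prod.distribSMul GroupConeClass.toSubmonoidClass
  CommSemiring.toSemiring DivisionSemiring.toSemiring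

-- part MP_646035_al.H84.GPa1
section

/-!
A simple axis that misses the walls and both gap curves does not meet the chord.
-/

namespace Pool.Agent.MP_646035_al.H84.Fu

open Pool.Agent.MP_4a6971_al.H66 Set H24

variable {Γ : Type} [Group Γ] {S : Fu Γ} {L : Set V}
  {r l m m' p p' A A' u v v' q n Z F F₀ l1 p1 p1' : V} {c g k : Γ} {η : ℝ → V} {a b a' b' : ℝ}

/-- `v` is a translate of the simple axis `u` inside the region of `r`. -/
structure In (S : Fu Γ) (L : Set V) (r u v : V) : Prop where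
  ax : S.Ax u
  sim : ∀ g, ¬ Cr u (S.σ g • u)
  out : u ∉ L
  nc : ∀ n ∈ L, ¬ Cr u n
  mem : v ∈ S.lns u
  pt : ∃ q, Cl L r q ∧ Bf v q = 0

namespace In

variable (h : S.In L r u v)
include h

lemma neg : S.In L r u (-v) :=
  { h with mem := neg_mem_lns h.mem, pt := by simpa only [Bf_neg_left, neg_eq_zero, Prod.exists] using h.pt }

lemma smul (hL : S.Lam L) (h0 : Off L r) (hg : S.St L r g) : S.In L r u (S.σ g • v) := by
  obtain ⟨q, a, b⟩ := h.pt
  exact { h with mem := smul_mem_lns h.mem g, pt := ⟨_, hg.cl hL h0 a, by simpa⟩ }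

lemma ax' : S.Ax v := h.ax.lns h.mem

lemma out' (hL : S.Lam L) : v ∉ L := fun a => h.out (by
  obtain ⟨g, rfl | rfl⟩ := h.mem
  · simpa only [map_inv, inv_smul_smul] using hL.smul _ a g⁻¹
  · simpa only [map_inv, neg_neg, inv_smul_smul] using hL.smul _ (hL.neg _ a) g⁻¹)

lemma ncr (hA : ∀ g, ¬ Cr u (S.σ g • A)) : ¬ Cr v A := by
  obtain ⟨g, rfl | rfl⟩ := h.mem <;> simpa only [cr_move, map_inv, cr_neg_left] using hA g⁻¹

lemma nc' (hL : S.Lam L) (hn : n ∈ L) : ¬ Cr v n := h.ncr fun g => h.nc _ (hL.smul n hn g)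

lemma ne (h' : S.In L r u v') : ¬ Cr v v' := lns_simple h.sim _ h.mem _ h'.mem

lemma ne' (g : Γ) : ¬ Cr v (S.σ g • v) := lns_simple h.sim _ h.mem _ (smul_mem_lns h.mem g)

lemma wall (hL : S.Lam L) (hn : n ∈ L) (a : 0 < Bf n r) :
    1 < Bf v n ^ 2 ∧ ∃ q, H2 q ∧ Bf v q = 0 ∧ 0 < Bf n q := by
  obtain ⟨q, q1, q2⟩ := h.pt
  refine ⟨?_, q, q1.1, q2,
    q1.pos' (hL.off h.ax' (h.out' hL) (fun n hn => h.nc' hL hn) q1.1 q2) hn a⟩
  rcases h.ax'.tri (hL.ax n hn) with e | e | e | e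
  · exact absurd e (h.nc' hL hn)
  · exact absurd (e ▸ hn) (h.out' hL)
  · exact absurd (by simpa [e] using hL.neg n hn) (h.out' hL)
  · exact e

lemma iv (l : PL η Z) (hZ : 1 < Bf v Z ^ 2) (hq : H2 q) (e : Bf v q = 0) (pos : 0 < Bf Z q) :
    ∃ w U U', S.In L r u w ∧ (∀ F, Cr w F ↔ Cr v F) ∧ Iv η Z w U U' := by
  obtain ⟨U, U', a | a⟩ := iv_of_side l h.ax'.unit (by rwa [Bf_comm]) hq e pos
  exacts [⟨v, U, U', h, fun _ => Iff.rfl, a⟩, ⟨-v, U, U', h.neg, fun _ => cr_neg_left _ _, a⟩]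

lemma ends (hL : S.Lam L) {U U' : ℝ} (H : Iv η A v U U') (hn : n ∈ L) (pos : 0 < Bf n r)
    (H' : Iv η A n a b) : (U < a ∨ b < U) ∧ (U' < a ∨ b < U') := by
  obtain ⟨x, q, q1, q2, q3⟩ := h.wall hL hn pos
  have := H.ends_pos x (hL.unit hn) q1 q2 q3
  rwa [H'.pos_iff, H'.pos_iff] at this

end In

lemma iv_eq {h : V} (H : Iv η A h a b) (H' : Iv η A h a' b') : a = a' ∧ b = b' := by
  have x := (H'.zero_iff a).1 ((H.zero_iff a).2 (Or.inl rfl))
  have y := (H'.zero_iff b).1 ((H.zero_iff b).2 (Or.inr rfl))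
  have := H.lt
  have := H'.lt
  rcases x with x | x <;> rcases y with y | y <;> first | exact ⟨x, y⟩ | (exfalso; linarith)

lemma shift_ne (l : PL η Z) (hk : k ≠ 1) {ρ : ℝ} (sh : ∀ t, S.σ k • η t = η (t + ρ)) : ρ ≠ 0 :=
  fun e => hk (fix_pt (l.h2 0) (by simpa [e] using sh 0))

/-- Two disjoint translates that cross a common line cannot cross `F` and `k F`. -/
lemma trap (hL : S.Lam L) (hZ : Z ∈ L) (pos : 0 < Bf Z r) (hk : k ≠ 1) (fix : S.σ k • Z = Z)
    (u0 : Bf F₀ F₀ = 1) (c0 : Cr F₀ Z) (u1 : Bf F F = 1) (c1 : Cr F Z) (h : S.In L r u v)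
    (h' : S.In L r u v') (x1 : Cr v F₀) (x2 : Cr v (S.σ k • F)) (y1 : Cr v' F₀) (y2 : Cr v' F) :
    False := by
  obtain ⟨ζ, z⟩ := (hL.ax Z hZ).pl
  obtain ⟨ρ, sh⟩ := shift z (Or.inl fix)
  have ρ0 := shift_ne z hk sh
  obtain ⟨e, q, q1, q2, q3⟩ := h.wall hL hZ pos
  obtain ⟨e', q', q1', q2', q3'⟩ := h'.wall hL hZ pos
  obtain ⟨w, U, X, i, cw, H⟩ := h.iv z e q1 q2 q3
  obtain ⟨w', U', X', i', cw', H'⟩ := h'.iv z e' q1' q2' q3'
  obtain ⟨Q₀, h0⟩ := exists_x z u0 c0.symm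
  obtain ⟨Q, h1⟩ := exists_x z u1 c1.symm
  rw [← cw] at x1 x2
  rw [← cw'] at y1 y2
  rw [H.cr_x u0 c0.symm h0] at x1
  rw [H'.cr_x u0 c0.symm h0] at y1
  rw [H'.cr_x u1 c1.symm h1] at y2
  rw [H.cr_x (Q := Q + ρ) (by simpa) (by rw [← fix, cr_isom]; exact c1.symm)
    (by rwa [x_smul fix sh])] at x2
  have n := i.ne i'
  rw [H.cr_iv H', not_or] at n
  have w1 := H.wander fix sh ρ0 (i.ne' k)
  have w2 := H'.wander fix sh ρ0 (i'.ne' k)
  have nest : (U ≤ U' ∧ X' ≤ X) ∨ (U' ≤ U ∧ X ≤ X') := by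
    rcases lt_trichotomy U U' with t | t | t
    · exact Or.inl ⟨t.le, not_lt.1 fun s => n.1 ⟨t, y1.1.trans x1.2, s⟩⟩
    · exact (le_total X' X).imp (fun s => ⟨t.le, s⟩) fun s => ⟨t.ge, s⟩
    · exact Or.inr ⟨t.le, not_lt.1 fun s => n.2 ⟨t, x1.1.trans y1.2, s⟩⟩
  rcases abs_cases ρ with t | t <;> rcases nest with s | s <;>
    linarith only [t.1, s.1, s.2, x2.1, x2.2, y2.1, y2.2, w1, w2]

/-- One side of the chord. -/
lemma Wk.side (W : S.Wk L r l m m' p p' c g l1 p1 p1') (hL : S.Lam L) (ax : IsAx (S.σ c) A)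
    (h0 : 0 < Bf A p) (hA : ∀ g, ¬ Cr u (S.σ g • A)) (h : S.In L r u u) (hq : H2 q)
    (e : Bf l q = 0) (e' : Bf u q = 0) :
    S.σ g • m = m' ∧ S.σ g • p = p1 ∧ ∃ v, S.In L r u v ∧ Cr v l ∧ Cr v (S.σ g • l) := by
  obtain ⟨η, τ, a0, b0, a1, b1, a2, b2, a3, b3, τ0, sh, I0, I1, I2, I3, I4, o1, o2, o3, o4, o5, o6,
    o7, o8, o9, o10⟩ := W.coord hL ax h0
  have off := W.ch.off
  have cl : Cr u l := by
    rcases cr_or_eq h.ax.unit W.ch.unit hq e' e with x | x | x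
    · exact x
    · exact absurd (x ▸ W.ch.cr hL) (h.nc m W.ch.mem)
    · exact absurd (by simpa [x] using W.ch.cr hL) (h.nc m W.ch.mem)
  have iv : ∀ v z, S.In L r u v → H2 z → Bf v z = 0 → 0 < Bf A z →
      ∃ w U X, S.In L r u w ∧ (∀ F, Cr w F ↔ Cr v F) ∧ Iv η A w U X := fun v z i z1 z2 z3 => by
    refine i.iv I0.pl ?_ z1 z2 z3
    rcases i.ax'.tri ⟨c, W.cne, ax⟩ with x | x | x | x
    · exact absurd x (i.ncr hA)
    · exact absurd z2 (x ▸ z3.ne')
    · exact absurd z2 (by simpa [x] using z3.ne')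
    · exact x
  have ci : (S.σ c⁻¹ : Isom) • A = A := by rw [map_inv, inv_smul_eq_iff, ax.2]
  have shi : ∀ t, S.σ c⁻¹ • η t = η (t + -τ) := fun t => by
    rw [map_inv, inv_smul_eq_iff, sh, neg_add_cancel_right]
  have w1 : ∀ {w U X}, S.In L r u w → Iv η A w U X → ((U < a1 ∨ b1 < U) ∧ (X < a1 ∨ b1 < X)) ∧
      ((U < a3 ∨ b3 < U) ∧ (X < a3 ∨ b3 < X)) ∧
      ((U < a3 - τ ∨ b3 - τ < U) ∧ (X < a3 - τ ∨ b3 - τ < X)) ∧
      ((U < a1 + τ ∨ b1 + τ < U) ∧ (X < a1 + τ ∨ b1 + τ < X)) ∧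
      ((U < a1 + -τ ∨ b1 + -τ < U) ∧ (X < a1 + -τ ∨ b1 + -τ < X)) := fun i H =>
    ⟨i.ends hL H W.ch.mem' W.ch.pos' I1, i.ends hL H W.ch1.mem' W.ch1.pos' I3,
      i.ends hL H W.ch.mem W.ch.pos I4,
      i.ends hL H (hL.smul _ W.ch.mem' c) (W.cst.pos hL off W.ch.mem' W.ch.pos') (I1.smul ax.2 sh),
      i.ends hL H (hL.smul _ W.ch.mem' c⁻¹) ((W.cst.inv hL off).pos hL off W.ch.mem' W.ch.pos')
        (I1.smul ci shi)⟩
  obtain ⟨w, U, X, i, cw, H⟩ := iv u q h hq e' (I0.side hq e)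
  obtain ⟨⟨s1, t1⟩, ⟨-, t3⟩, ⟨s4, t4⟩, -, ⟨s5, -⟩⟩ := w1 i H
  have x0 := (H.cr_iv I0).1 ((cw l).2 cl)
  rcases W.typ with ⟨y1, y2, y3, y4⟩ | ⟨y1, y2, y3, y4, -⟩
  · refine ⟨y2, y3, ?_⟩
    have gA : S.σ g • A = A := fix_of ax.1 ((S.hyp c W.cne).ax_unique ax ⟨by simpa using ax.1, by
      rw [← mul_smul, ← map_mul, y4, mul_assoc, ← y4, map_mul, mul_smul, ax.2]⟩)
    obtain ⟨ρ, sg⟩ := shift I0.pl (Or.inl gA)
    have hρ : ρ + ρ = τ := by
      have := sh 0
      rw [y4, map_mul, mul_smul, sg, sg] at this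
      simpa using I0.pl.inj this
    obtain ⟨z1, z2⟩ := iv_eq I1 (y2 ▸ I4.smul gA sg)
    have wd := H.wander gA sg (by linarith only [o1, o2, o3, o4, o5, o8, hρ]) (i.ne' g)
    rw [abs_of_pos (by linarith only [o1, o2, o3, o4, o5, o8, hρ])] at wd
    have key : ∀ {w U X}, S.In L r u w → Iv η A w U X → b3 - τ < U → U < a1 → b1 < X → X < a3 →
        ∃ v, S.In L r u v ∧ Cr v l ∧ Cr v (S.σ g • l) := fun i H k1 k2 k3 k4 =>
      ⟨_, i, (H.cr_iv I0).2 (Or.inr ⟨by linarith only [o2, k1], by linarith only [o4, k2], by linarith only [o5, k3]⟩),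
        y1 ▸ (H.cr_iv I2).2 (Or.inl ⟨by linarith only [o6, k2], by linarith only [o7, k3], by linarith only [o9, k4]⟩)⟩
    rcases x0 with ⟨x1, x2, x3⟩ | ⟨x1, x2, x3⟩
    · have k1 := t4.resolve_left (by linarith only [o1, x2])
      have k2 := t1.resolve_right (by linarith only [o2, z2, wd, x1])
      have k3 := s4.resolve_right (by linarith only [o2, x1])
      exact key (i.smul hL off W.gst) (H.smul gA sg) (by linarith only [wd, k1]) (by linarith only [z1, k3]) (by linarith only [z2, k1])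
        (by linarith only [hρ, z1, k2])
    · have k1 := s4.resolve_left (by linarith only [o1, x1])
      have k2 := s1.resolve_right (by linarith only [o5, x2])
      exact key i H k1 k2 (t1.resolve_left (by linarith only [o4, x3])) (by linarith only [hρ, z1, wd, k2])
  · exfalso
    have lu := W.ch.unit
    have wd := H.wander ax.2 sh τ0.ne' (i.ne' c)
    rw [abs_of_pos τ0] at wd
    have m1 : ∀ {v}, S.In L r u v → Cr v l → Cr v (S.σ g • l) → False := fun i x y =>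
      trap hL W.ch.mem' W.ch.pos' W.gne y2 lu (W.ch.cr' hL) lu (W.ch.cr' hL) i i x y x x
    have n1 : ¬ Cr w l1 := fun x => m1 i ((cw l).2 cl) (by simpa [y1] using x)
    have n2 : ¬ Cr w (S.σ c⁻¹ • l1) := fun x =>
      trap (k := c⁻¹ * g) hL W.ch.mem W.ch.pos (fun z => y4 (inv_mul_eq_one.1 z))
        (by rw [map_mul, mul_smul, ← y3, map_inv, inv_smul_smul]) lu (W.ch.cr hL) lu (W.ch.cr hL) i i
        ((cw l).2 cl) (by simpa only [map_mul, map_inv, mul_smul, y1, smul_neg, cr_neg_right] using x) ((cw l).2 cl) ((cw l).2 cl)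
    rw [H.cr_iv I2, not_or] at n1
    rw [H.cr_iv (I2.smul ci shi), not_or] at n2
    obtain ⟨w₁, U₁, X₁, i₁, H₁, k1, k2, k3, k4⟩ : ∃ w U X, S.In L r u w ∧ Iv η A w U X ∧
        b3 - τ < U ∧ U < a1 ∧ b3 < X ∧ X < a1 + τ := by
      rcases x0 with ⟨x1, x2, x3⟩ | ⟨x1, x2, x3⟩
      · have k1 := t4.resolve_left (by linarith only [o1, x2])
        have k2 := t1.resolve_right (by linarith only [o5, x3])
        have k3 := s4.resolve_right (by linarith only [o2, x1])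
        have k4 := s5.resolve_right fun z => n2.2 ⟨by linarith only [o7, z], by linarith only [o9, k3], by linarith only [o10, k1]⟩
        exact ⟨_, _, _, i.smul hL off W.cst, H.smul ax.2 sh, by linarith only [wd, k1], by linarith only [k4], by linarith only [k1],
          by linarith only [k2]⟩
      · have k1 := s4.resolve_left (by linarith only [o1, x1])
        have k2 := s1.resolve_right (by linarith only [o5, x2])
        have k3 := t1.resolve_left (by linarith only [o4, x3])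
        exact ⟨_, _, _, i, H, k1, k2,
          t3.resolve_left fun z => n1.1 ⟨by linarith only [o6, k2], by linarith only [o7, k3], by linarith only [o9, z]⟩, by linarith only [wd, k2]⟩
    obtain ⟨w₂, U₂, X₂, i₂, cw₂, H₂⟩ := iv _ _ (h.smul hL off W.gst) (hq.smul (S.σ g))
      (by simpa) (I2.side (hq.smul _) (by simpa [y1]))
    have c2 : Cr w₂ (S.σ g • l) := (cw₂ _).2 (by simpa)
    have n3 : ¬ Cr w₂ l := fun x => m1 i₂ x c2
    have n4 : ¬ Cr w₂ (S.σ c • l) := fun x =>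
      trap (k := c * g⁻¹) hL W.ch1.mem' W.ch1.pos' (fun z => y4 (mul_inv_eq_one.1 z))
        (by rw [map_mul, mul_smul, y3, map_inv, inv_smul_smul, y3]) (by simpa)
        (by rw [y3, cr_isom]; exact W.ch.cr hL) (by simpa) (by rw [y3, cr_isom]; exact W.ch.cr hL)
        i₂ i₂ c2 (by simpa only [map_mul, map_inv, mul_smul, inv_smul_smul] using x) c2 c2
    have n5 := i₁.ne i₂
    rw [H₂.cr_iv I0, not_or] at n3
    rw [H₂.cr_iv (I0.smul ax.2 sh), not_or] at n4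
    rw [H₁.cr_iv H₂, not_or] at n5
    obtain ⟨⟨s1, t1⟩, ⟨s3, t3⟩, ⟨s4, -⟩, ⟨-, t5⟩, -⟩ := w1 i₂ H₂
    rcases (H₂.cr_iv I2).1 (by simpa [y1] using c2) with ⟨x1, x2, x3⟩ | ⟨x1, x2, x3⟩
    · have j1 := t1.resolve_left (by linarith only [o6, x2])
      have j2 := t3.resolve_right (by linarith only [o10, x3])
      have j3 := s1.resolve_right (by linarith only [o7, x1])
      have j4 : U₂ ≤ a0 := not_lt.1 fun z => n3.2 ⟨z, by linarith only [o4, j3], by linarith only [o5, j1]⟩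
      exact n5.2 ⟨by linarith only [o2, k1, j4], by linarith only [o4, o5, k2, j1], by linarith only [o1, o2, k3, j2]⟩
    · have j1 := s1.resolve_left (by linarith only [o6, x1])
      have j2 := s3.resolve_right (by linarith only [o10, x2])
      have j3 := t3.resolve_left (by linarith only [o9, x3])
      have j4 : b0 + τ ≤ X₂ := not_lt.1 fun z => n4.1 ⟨by linarith only [o1, j2], by linarith only [o2, j3], z⟩
      exact n5.1 ⟨by linarith only [o4, o5, k2, j1], by linarith only [o1, o2, k3, j2], by linarith only [o4, k4, j4]⟩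

/-- A simple axis disjoint from the walls and from both gap curves does not meet the chord. -/
theorem pants_a1 (hL : S.Lam L) (G : S.Gap L r l m m' p p' A) (G' : S.Gap L r (-l) m m' p p' A')
    (hu : S.Ax u) (hs : ∀ g, ¬ Cr u (S.σ g • u)) (h1 : u ∉ L) (h2 : ∀ n ∈ L, ¬ Cr u n)
    (h3 : ∀ g, ¬ Cr u (S.σ g • A)) (h4 : ∀ g, ¬ Cr u (S.σ g • A')) (hq : Cl L r q)
    (e : Bf l q = 0) : Bf u q ≠ 0 := fun e' => by
  obtain ⟨c, g, l1, p1, p1', W, ax, h0⟩ := G
  obtain ⟨c', g', l1', p2, p2', W', ax', h0'⟩ := G'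
  have h : S.In L r u u := ⟨hu, hs, h1, h2, self_mem_lns u, q, hq, e'⟩
  obtain ⟨x1, x2, v, i, x3, x4⟩ := W.side hL ax h0 h3 h hq.1 e e'
  obtain ⟨y1, y2, v', i', y3, y4⟩ := W'.side hL ax' h0' h4 h hq.1 (by simpa) e'
  refine trap (k := g * g'⁻¹) (F := S.σ g' • l) hL W.ch.mem' W.ch.pos' (fun z => ?_)
    (by rw [map_mul, mul_smul, ← y1, map_inv, inv_smul_smul, x1, y1]) W.ch.unit (W.ch.cr' hL)
    (by simpa using W.ch.unit) (by rw [← y1, cr_isom]; exact W.ch.cr hL) i i' x3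
    (by simpa [mul_smul] using x4) (by simpa using y3) (by simpa using y4)
  have a := W.f0
  have b := W'.f0
  rw [← y2, ← mul_inv_eq_one.1 z, x2, Bf_neg_left] at b
  linarith

end Pool.Agent.MP_646035_al.H84.Fu

end

-- part MP_646035_al.H84.GPants
section

/-!
Pairs of pants.
-/

namespace Pool.Agent.MP_646035_al.H84.Fu

open Pool.Agent.MP_4a6971_al.H66 Set H24

variable {Γ : Type} [Group Γ] {S : Fu Γ} {L : Set V} {r l m m' p p' A A' u q : V}

/-- If both gap lines are walls, the region contains no simple axis. -/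
theorem pants_a (hL : S.Lam L) (G : S.Gap L r l m m' p p' A) (G' : S.Gap L r (-l) m m' p p' A')
    (hA : A ∈ L) (hA' : A' ∈ L) (hu : S.Ax u) (hs : ∀ g, ¬ Cr u (S.σ g • u)) (h1 : u ∉ L)
    (h2 : ∀ n ∈ L, ¬ Cr u n) (hq : Cl L r q) : Bf u q ≠ 0 := fun e => by
  obtain ⟨g, hg, c⟩ := pants_a2 hL G G' hA hA' hu h1 h2 hq e
  obtain ⟨x, x1, x2, x3⟩ := exists_inter hu.unit (by simpa using G.ch.unit) c
  refine pants_a1 hL G G' (hu.smul g⁻¹) (fun k => ?_) (fun a => h1 (by simpa only [map_inv, smul_inv_smul] using hL.smul _ a g))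
    (fun n hn => ?_) (fun k => ?_) (fun k => ?_)
    ((hg.inv hL G.ch.off).cl hL G.ch.off (hL.cl_of hu h1 h2 hq e x1 x2))
    (by rwa [Bf_move', inv_inv]) (by simpa only [map_inv, Bf_isom])
  · simpa only [map_inv, cr_move, inv_inv, map_mul, mul_smul] using hs (g * k * g⁻¹)
  · simpa only [map_inv, cr_move, inv_inv] using h2 _ (hL.smul n hn g)
  · simpa [cr_move] using h2 _ (hL.smul _ (hL.smul _ hA k) g)
  · simpa [cr_move] using h2 _ (hL.smul _ (hL.smul _ hA' k) g)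

end Pool.Agent.MP_646035_al.H84.Fu

end
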