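import Pool.Agent.MP_646035_al.Mg.H84_GIn

attribute [-instance] Prod.instSMul DivisionCommMonoid.toDivisionMonoid
  Fintype.decidableForallFintype Prod.mulAction instIsBotZeroClass

/-!
Projections to a connected subsurface.
-/

namespace Pool.Agent.MP_646035_al.H84.Fu

open Pool.Agent.MP_4a6971_al.H66 Set H24 H71

/-- Averaging over one period. -/
lemma avg {τ s : ℝ} (hτ : 0 < τ) {D U : Set ℝ} (hD : ∀ t ∈ D, ∀ k : ℤ, t + k * τ ∈ D)
    (hU : ∀ t ∈ U, ∀ k : ℤ, t + k * τ ∈ U) (fin : (U ∩ Ico s (s + τ)).Finite) (B : Finset ℝ)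
    (h1 : ∀ t ∈ B, t ∈ D) (h2 : ∀ t ∈ B, ∀ t' ∈ B, t' < t + τ) {K : ℕ}
    (h3 : ∀ t ∈ B, ∃ t', (∀ x ∈ Ioo t t', x ∉ D) ∧ (U ∩ Ioo t t').Finite ∧
      K ≤ (U ∩ Ioo t t').ncard) : K * B.card ≤ (U ∩ Ico s (s + τ)).ncard := by
  classical
  choose! f f1 f2 f3 using h3
  choose φ hφ using exists_mem_Ico hτ s
  let F : ℝ → Finset ℝ := fun t => if h : (U ∩ Ioo t (f t)).Finite then h.toFinset else ∅
  have hF : ∀ t ∈ B, ∀ u, u ∈ F t ↔ u ∈ U ∩ Ioo t (f t) := fun t ht u => by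
    simp only [F, dif_pos (f2 t ht), Finite.mem_toFinset]
  calc K * B.card = ∑ _t ∈ B, K := by simp [mul_comm]
    _ ≤ ∑ t ∈ B, (F t).card := Finset.sum_le_sum fun t ht => (f3 t ht).trans (by
        simp only [F, dif_pos (f2 t ht), ncard_eq_toFinset_card _ (f2 t ht), le_refl])
    _ = (B.sigma fun t => F t).card := (Finset.card_sigma _ _).symm
    _ ≤ _ := by
      rw [ncard_eq_toFinset_card _ fin]
      refine Finset.card_le_card_of_injOn (fun x => x.2 + φ x.2 * τ) (fun x hx => ?_) ?_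
      · obtain ⟨a, b⟩ := Finset.mem_sigma.1 (Finset.mem_coe.1 hx)
        exact Finset.mem_coe.2 (fin.mem_toFinset.2 ⟨hU _ ((hF _ a _).1 b).1 _, hφ _⟩)
      · rintro ⟨t, u⟩ hx ⟨t', u'⟩ hx' (e : u + φ u * τ = u' + φ u' * τ)
        obtain ⟨a, b⟩ := Finset.mem_sigma.1 (Finset.mem_coe.1 hx)
        obtain ⟨a', b'⟩ := Finset.mem_sigma.1 (Finset.mem_coe.1 hx')
        obtain ⟨-, c1, c2⟩ := (hF _ a _).1 b
        obtain ⟨-, c1', c2'⟩ := (hF _ a' _).1 b'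
        dsimp only at *
        have d1 := fun h => f1 t a _ h (hD t' (h1 t' a') (φ u' - φ u))
        have d2 := fun h => f1 t' a' _ h (hD t (h1 t a) (φ u - φ u'))
        push_cast at d1 d2
        have e1 : t' + (φ u' - φ u) * τ = t := le_antisymm
          (not_lt.1 fun h => d1 ⟨h, by linarith⟩) (not_lt.1 fun h => d2 ⟨by linarith, by linarith⟩)
        have e2 := int_eq_zero hτ (k := φ u' - φ u) (by push_cast; linarith [h2 t a t' a'])
          (by push_cast; linarith [h2 t' a' t a])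
        have e3 : (φ u' : ℝ) = φ u := by exact_mod_cast sub_eq_zero.1 e2
        rw [e3] at e e1
        obtain rfl : t' = t := by linarith only [e1]
        obtain rfl : u = u' := by linarith
        rfl

variable {Γ : Type} [Group Γ] {S : Fu Γ} {L : Set V} {r l m m' p p' q E A l' n n' q' A' : V} {ξ : ℕ}
  {Q : Finset S.Cv} {W : Set S.Cv} {a u x y y' d c c' : S.Cv} {γ : ℝ → V} {k : Γ} {τ : ℝ}

lemma Per.rev (h : S.Per γ E k τ) : S.Per (fun t => γ (-t)) E k⁻¹ τ where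
  pl := h.pl.rev
  pos := h.pos
  fix := by simpa only [map_inv, Int.reduceNeg, zpow_neg, zpow_ofNat, pow_one] using h.zfix (-1)
  sh t := by simpa only [map_inv, add_comm, neg_add_rev, Int.reduceNeg, zpow_neg, zpow_ofNat, pow_one, Int.cast_neg, Int.cast_one, neg_mul, one_mul] using h.zsh (-1) (-t)
  gen g hg := by obtain ⟨j, rfl⟩ := h.gen g hg; exact ⟨-j, by simp⟩

lemma Ch.NN_le (h : Ch L r l m m' p p') (hL : S.Lam L) (hl : l ∈ y.1) (x : S.Cv) :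
    NN L r l x ≤ i y x + 1 := by
  obtain ⟨γ, a⟩ := h.pl
  obtain ⟨δ, s, t, a, rfl, rfl, st⟩ := h.par a
  obtain ⟨k, τ, P⟩ := (y.ax hl).exists_per a
  have le : t ≤ s + τ := not_lt.1 fun b => by
    have c := (h.cl_iff hL a rfl rfl st (s + τ)).2 ⟨by linarith [P.pos], b.le⟩
    have z : Bf (S.σ k • m) (δ (s + τ)) = 0 := by rw [← P.sh, Bf_isom, h.mp]
    have w := hL.smul _ h.mem k
    have : δ (s + τ) = δ s ∨ δ (s + τ) = δ t := by
      rcases (h.off.2 _ w).lt_or_gt with e | e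
      · exact (h.foot hL a c (a.on _) (hL.neg _ w) (by simpa using e) (by simpa using z)).imp
          And.left And.left
      · exact (h.foot hL a c (a.on _) w e z).imp And.left And.left
    rcases this with e | e <;> linarith [a.inj e, P.pos]
  rw [h.NN_eq hL a rfl rfl st, P.count hl x s]
  refine (ncard_le_ncard ?_ ((Pos_fin' x a s (s + τ)).insert (s + τ))).trans (ncard_insert_le _ _)
  rintro v ⟨v1, v2, v3⟩
  exact (v3.trans le).eq_or_lt.imp id fun b => ⟨v1, v2, b⟩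

/-- Some chord in the region has at most the average number of crossings. -/
lemma exists_ch_le (hL : S.Lam L) (h0 : Off L r) (hm : Bd L r m) (md : m ∈ d.1) {N : ℕ}
    (h : i y x ≤ N * i d y) (hd : i d y ≠ 0) :
    ∃ l ∈ y.1, ∃ n n' q q', Ch L r l n n' q q' ∧ NN L r l x ≤ 2 * N + 2 := by
  by_contra! c
  obtain ⟨l, hl, cr⟩ := exists_cr hd md
  have half : ∀ γ k τ, S.Per γ l k τ → ∀ B : Finset ℝ, (∀ t ∈ B, ∃ g, Cr l (S.σ g • m) ∧
      Bf (S.σ g • m) (γ t) = 0 ∧ StrictMono fun t => Bf (S.σ g • m) (γ t)) →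
      (∀ t ∈ B, ∀ t' ∈ B, t' < t + τ) → (2 * N + 1) * B.card ≤ i y x := by
    intro γ k τ P B b1 b2
    rw [P.count hl x 0]
    refine avg P.pos (D := Pos L γ l) (fun t ht => P.pos_add hL.smul ht)
      (fun t ht => P.pos_add (fun F hF => x.smul_mem hF) ht) (Pos_fin' x P.pl _ _) B
      (fun t ht => ?_) b2 fun s hs => ?_
    · obtain ⟨g, g1, g2, -⟩ := b1 t ht
      exact ⟨_, hL.smul _ hm.1 g, g1, g2⟩
    obtain ⟨g, g1, g2, mo⟩ := b1 s hs
    have w := hL.smul _ hm.1 g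
    have ps : s ∈ Pos L γ l := ⟨_, w, g1, g2⟩
    obtain ⟨t, pt, st, -, no⟩ := P.next hL ps s
    have hx : (s + t) / 2 ∈ Ioo s t := ⟨by linarith only [st], by linarith only [st]⟩
    obtain ⟨n, n', C⟩ := ch_of_consec hL P.pl (fun b => hL.nc l b _ w g1) ps pt no hx
    have b : 0 < Bf (S.σ g • m) (γ ((s + t) / 2)) := g2 ▸ mo hx.1
    obtain rfl : n = S.σ g • m := (hL.eq_or w C.mem (P.pl.h2 s) g2 C.mp).resolve_right fun e => by
      have := C.pos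
      rw [e, Bf_neg_left] at this
      linarith only [b, this]
    have C' := C.smul' hL g⁻¹
    have sm : Cl L (S.σ g⁻¹ • γ ((s + t) / 2)) r := Bd.same hL h0 (by simpa only [map_inv, inv_smul_smul] using C'.bd) hm
    have := c _ (y.smul_mem hl g⁻¹) _ _ _ _ (C'.congr hL h0 sm)
    rw [NN_congr hL C'.off h0 sm, NN_smul' hL, C.NN_eq hL P.pl rfl rfl st] at this
    have fin : (Pos x.1 γ l ∩ Ioo s t).Finite :=
      (Pos_fin x P.pl s t).subset (inter_subset_inter_right _ Ioo_subset_Icc_self)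
    refine ⟨t, no, fin, ?_⟩
    have := this.trans_le ((ncard_le_ncard (t := insert s (insert t (Pos x.1 γ l ∩ Ioo s t)))
      (fun v hv => hv.2.1.eq_or_lt.imp Eq.symm fun e => hv.2.2.eq_or_lt.imp id fun e' =>
        ⟨hv.1, e, e'⟩) ((fin.insert t).insert s)).trans ((ncard_insert_le _ _).trans
          (Nat.succ_le_succ (ncard_insert_le _ _))))
    omega
  classical
  obtain ⟨γ, k, τ, P⟩ := y.exists_per hl
  have fin := Pos_fin' d P.pl 0 (0 + τ)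
  let pr : ℝ → Prop := fun t => ∃ g, Cr l (S.σ g • m) ∧ Bf (S.σ g • m) (γ t) = 0 ∧
    StrictMono fun t => Bf (S.σ g • m) (γ t)
  have h1 := half γ k τ P (fin.toFinset.filter pr) (fun t ht => (Finset.mem_filter.1 ht).2)
    fun t ht t' ht' => by
      linarith only [(fin.mem_toFinset.1 (Finset.mem_filter.1 ht).1).2.1, (fin.mem_toFinset.1 (Finset.mem_filter.1 ht').1).2.2]
  have h2 := half _ _ τ P.rev ((fin.toFinset.filter fun t => ¬ pr t).image Neg.neg) (fun t ht => by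
      obtain ⟨v, hv, rfl⟩ := Finset.mem_image.1 ht
      obtain ⟨v1, v2⟩ := Finset.mem_filter.1 hv
      obtain ⟨⟨F, f1, f2, f3⟩, -⟩ := fin.mem_toFinset.1 v1
      obtain ⟨g, hg⟩ := d.exists_smul md f1
      have g1 : Cr l (S.σ g • m) := by rcases hg with rfl | rfl <;> simpa using f2
      have g2 : Bf (S.σ g • m) (γ v) = 0 := by rcases hg with rfl | rfl <;> simpa using f3
      exact ⟨g, g1, by simpa using g2, fun s t st => ((P.pl.mono (by simpa using d.unit md)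
        g1).resolve_left fun e => v2 ⟨g, g1, g2, e⟩) (neg_lt_neg st)⟩)
    fun t ht t' ht' => by
      obtain ⟨v, hv, rfl⟩ := Finset.mem_image.1 ht
      obtain ⟨v', hv', rfl⟩ := Finset.mem_image.1 ht'
      linarith only [(fin.mem_toFinset.1 (Finset.mem_filter.1 hv).1).2.2, (fin.mem_toFinset.1 (Finset.mem_filter.1 hv').1).2.1]
  rw [Finset.card_image_of_injective _ neg_injective] at h2
  have h3 := Finset.card_filter_add_card_filter_not (s := fin.toFinset) pr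
  rw [← ncard_eq_toFinset_card _ fin, ← P.count hl d 0, i_symm] at h3
  have := Nat.pos_of_ne_zero hd
  nlinarith

lemma NN_zero (h : ∀ F ∈ x.1, ¬ Cr l F) : KK L r l x = ∅ :=
  eq_empty_of_forall_notMem fun _ ⟨_, _, F, a, b, _⟩ => h F a b

theorem pr (xi : ∀ P : Finset S.Cv, Mc i (P : Set S.Cv) → P.card ≤ ξ) (hW : Con i W) :
    ∃ Pr, IsPr i 16 W Pr := by
  classical
  by_cases ne : (W \ perp i W).Nonempty
  swap
  · have : ∀ y, y ∈ perp i W := fun y a ha => (i_symm a y).trans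
      (hW.gen ha y fun b hb => (ne ⟨b, hb⟩).elim)
    exact ⟨fun _ _ => False, fun y h => (h (this y)).elim, fun _ _ => False.elim,
      fun _ _ => False.elim, fun _ _ => False.elim, fun _ _ => False.elim,
      fun _ _ _ => False.elim, fun y h => (h (this y)).elim⟩
  obtain ⟨u, hu⟩ := ne
  obtain ⟨Q, hQ, -, sub, mx⟩ := exists_max xi (perp i W) (P := ∅) (by simp [Mc]) (by simp)
  have hL := lam_mc hQ
  set L := WL (Q : Set S.Cv) with eL
  have wq : ∀ a ∈ W, a ∈ perp i (Q : Set S.Cv) := fun a ha d hd => (i_symm d a).trans (sub hd a ha)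
  have nc : ∀ a ∈ W, ∀ F ∈ a.1, ∀ n ∈ L, ¬ Cr F n := fun a ha F hF => nc_of_perp (wq a ha) hF
  have nw : ∀ a ∉ perp i W, ∀ F ∈ a.1, F ∉ L := fun a ha F hF c => ha (sub ((a.mem_WL hF).1 c))
  have bq : ∀ d ∈ bdy i W, d ∈ Q := fun d hd => mx ⟨hd.2, wq d hd.1⟩
  obtain ⟨E, hE⟩ := u.nonempty
  obtain ⟨γ, l0⟩ := (u.ax hE).pl
  have h0 : Off L (γ 0) := hL.off (u.ax hE) (nw u hu.2 E hE) (nc u hu.1 E hE) (l0.h2 0) (l0.on 0)
  set r := γ 0
  have fA : ∀ a ∈ W \ perp i W, ∃ F ∈ a.1, ∃ q, Cl L r q ∧ Bf F q = 0 := fun a ha => by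
    have := hW.con u hu a ha
    clear ha
    induction this with
    | refl => exact ⟨E, hE, r, h0.cl, l0.on 0⟩
    | tail _ st ih =>
      obtain ⟨F, f1, q, q1, q2⟩ := ih
      obtain ⟨G, g1, g2⟩ := exists_cr st.2.2 f1
      obtain ⟨z, z1, z2, z3⟩ := exists_inter (Cv.unit _ f1) (Cv.unit _ g1) g2
      exact ⟨G, g1, z, hL.cl_of (Cv.ax _ f1) (nw _ (fun c => st.2.2
        ((i_symm _ _).trans (c _ st.2.1))) F f1) (nc _ st.1 F f1) q1 q2 z1 z2, z3⟩
  have fB : ∀ {m F : V}, Bd L r m → S.Ax F → Cr F m → ∃ d ∈ bdy i W, m ∈ d.1 := fun h hF c => by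
    obtain ⟨d, d1, d2⟩ := WL_cr hF h.1 c
    exact ⟨d, ⟨hW.clo fun x hx => K2 hQ sub mx (wq u hu.1) (fun c => hu.2 (sub c)) hE h0.1
      (l0.on 0) h d2 hx, sub d1⟩, d2⟩
  have fC : ∀ d ∈ bdy i W, ∃ m ∈ d.1, Bd L r m := fun d hd => by
    by_contra c
    obtain ⟨y, y1, y2⟩ := ni (P := Q.filter fun a => ∃ m ∈ a.1, Bd L r m) (a := d)
      (fun a ha b hb => hQ a (Finset.mem_filter.1 ha).1 b (Finset.mem_filter.1 hb).1)
      (fun a ha => hQ a (Finset.mem_filter.1 ha).1 d (bq d hd))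
      fun a => c (Finset.mem_filter.1 a).2
    refine y2 ((i_symm d y).trans (hW.gen hd.1 y fun a ha => ?_))
    by_contra c'
    obtain ⟨F, f1, q, q1, q2⟩ := fA a ha
    obtain ⟨G, g1, g2⟩ := exists_cr c' f1
    obtain ⟨z, z1, z2, z3⟩ := exists_inter (a.unit f1) (y.unit g1) g2
    obtain ⟨n, n1, n2⟩ := exists_cr (i_symm d y ▸ y2) g1
    obtain ⟨w, w1, w2, w3⟩ := exists_inter (y.unit g1) (d.unit n1) n2
    have nL : n ∈ L := (d.mem_WL n1).2 (bq d hd)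
    have ex := fun n hn a b => exit (n := n) hL h0 (y.unit g1)
      (hL.off (Cv.ax _ f1) (nw _ ha.2 F f1) (nc _ ha.1 F f1) z1 z2)
      (hL.cl_of (Cv.ax _ f1) (nw _ ha.2 F f1) (nc _ ha.1 F f1) q1 q2 z1 z2) w1 z3 w2 hn a b
    obtain ⟨m, m1, m2⟩ : ∃ m, Bd L r m ∧ Cr G m := (h0.2 n nL).lt_or_gt.elim
      (fun e => ex (-n) (hL.neg n nL) (by simpa using e) (by simp [w3])) fun e => ex n nL e w3.le
    obtain ⟨b, b1, b2⟩ := WL_cr (y.ax g1) m1.1 m2
    exact i_ne_zero b2 g1 m2.symm (y1 b (Finset.mem_filter.2 ⟨b1, m, b2, m1⟩))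
  let GP : S.Cv → S.Cv → V → Prop := fun y c l => l ∈ y.1 ∧ ∃ m m' p p' A,
    S.Gap L r l m m' p p' A ∧ A ∈ c.1 ∧ A ∉ L
  have fD : ∀ {y c l}, GP y c l → c ∈ W \ perp i W := by
    rintro y c l ⟨-, m, m', p, p', A, G, a1, a2⟩
    have h1 := perp_of_nc a1 fun _ => G.ncL hL
    have h2 : c ∉ perp i W := fun e => a2 ((c.mem_WL a1).2 (mx ⟨e, h1⟩))
    exact ⟨(inn xi hW.clo fun d hd => h1 d (bq d hd)).resolve_right h2, h2⟩
  have fE : ∀ y ∉ perp i W, y ∉ W → ∃ l ∈ y.1, ∃ m m' p p', Ch L r l m m' p p' := fun y a b => by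
    have : y ∉ perp i (bdy i W) := fun e => (inn xi hW.clo e).elim b a
    simp only [perp, mem_ofPred_eq, not_forall] at this
    obtain ⟨d, d1, d2⟩ := this
    obtain ⟨m, m1, m2⟩ := fC d d1
    obtain ⟨l, l1, l2⟩ := exists_cr d2 m1
    exact ⟨l, l1, m, m2.exists_ch hL h0 (y.ax l1) l2.symm⟩
  have fF : ∀ {y : S.Cv} {l m m' p p'}, l ∈ y.1 → Ch L r l m m' p p' →
      ∃ c l', GP y c l' ∧ ∀ x : S.Cv, NN L r l' x = NN L r l x := fun {y l m m' p p'} hl h => by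
    obtain ⟨B, G⟩ := gap_ex hL h (h.sim_cv hL hl)
    obtain ⟨B', G'⟩ := gap_ex hL h.flip (h.sim_cv hL hl).neg
    by_cases b : B ∈ L
    · have b' : B' ∉ L := fun b' => pants_a hL G G' b b' (u.ax hE)
        (fun g => u.simple hE (u.smul_mem hE g)) (nw u hu.2 E hE) (nc u hu.1 E hE) h0.cl (l0.on 0)
      exact ⟨_, -l, ⟨y.neg_mem hl, _, _, _, _, _, G',
        mem_mk (curve_of G'.ax (G'.simple hL) b'), b'⟩, NN_neg⟩
    · exact ⟨_, l, ⟨hl, _, _, _, _, _, G, mem_mk (curve_of G.ax (G.simple hL) b), b⟩, fun _ => rfl⟩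
  have g1 : ∀ {y c l x}, GP y c l → x ∈ W → i c x ≤ 2 * NN L r l x := by
    rintro y c l x ⟨-, m, m', p, p', A, G, a1, -⟩ hx
    exact G.le hL a1 (leP_zero fun F hF e => nc x hx F hF _ G.ch.mem e.symm)
      (leP_zero fun F hF e => nc x hx F hF _ G.ch.mem' e.symm)
  have g2 : ∀ {y c l y' c' l'}, GP y c l → GP y' c' l' → i c c' ≤ 4 * NN L r l y' + 8 := by
    intro y c l y' c' l' h h'
    have h1 := g1 h (fD h').1
    obtain ⟨-, m, m', p, p', A, G, -⟩ := h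
    obtain ⟨l1, n, n', q, q', A', G', a1, a2⟩ := h'
    have h2 := G'.cnt hL a1 a2 G.ch
    have h3 := MM_le hL G'.ch G.ch l1
    omega
  have z0 : ∀ {y : S.Cv} {l}, l ∈ y.1 → NN L r l y = 0 := fun {y l} hl => by
    rw [NN, NN_zero fun F => y.simple hl, ncard_empty]
  have ex : ∀ y ∉ perp i W, y ∉ W → ∃ c l, GP y c l := fun y a b => by
    obtain ⟨l, l1, m, m', p, p', h⟩ := fE y a b
    exact (fF l1 h).imp fun c => .imp fun l => And.left
  have nn : ∀ {y c l}, GP y c l → ∀ x : S.Cv, NN L r l x ≤ i y x + 1 := by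
    rintro y c l ⟨hl, m, m', p, p', A, G, -⟩
    exact G.ch.NN_le hL hl
  refine ⟨fun y c => (y ∈ W \ perp i W ∧ c = y) ∨ (y ∉ W ∧ ∃ l, GP y c l), fun y a => ?_, ?_, ?_,
    ?_, ?_, ?_, fun y a y' a' n hn => ?_⟩
  · by_cases b : y ∈ W
    exacts [⟨y, Or.inl ⟨⟨b, a⟩, rfl⟩⟩, (ex y a b).imp fun c e => Or.inr ⟨b, e⟩]
  · rintro y c (⟨h, rfl⟩ | ⟨-, l, h⟩)
    exacts [h, fD h]
  · rintro y c (⟨h, rfl⟩ | ⟨-, l, hl, m, m', p, p', A, G, a1, -⟩) x hx e
    exacts [e, (i_symm x c).trans (G.dis hL a1 (nc x hx)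
      (NN_zero fun F hF c => i_ne_zero hF hl c.symm e))]
  · rintro y c (⟨h, rfl⟩ | ⟨-, l, hl, m, m', p, p', A, G, a1, -⟩)
    · exact Or.inl (i_self _)
    obtain ⟨d, d1, d2⟩ := fB G.ch.bd (y.ax hl) (G.ch.cr hL)
    obtain ⟨d', d1', d2'⟩ := fB G.ch.bd' (y.ax hl) (G.ch.cr' hL)
    have := G.le hL a1 (leP_cv d2 y) (leP_cv d2' y)
    rw [z0 hl] at this
    rcases le_total (i d y) (i d' y) with e | e
    exacts [Or.inr ⟨d', d1', by omega⟩, Or.inr ⟨d, d1, by omega⟩]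
  · rintro y c (⟨h, rfl⟩ | ⟨h, -⟩) e
    exacts [rfl, (h e).elim]
  · rintro y c c' (⟨h, rfl⟩ | ⟨h, l, G⟩) (⟨h', rfl⟩ | ⟨h', l', G'⟩)
    exacts [by simp [i_self], (h' h.1).elim, (h h'.1).elim, by simpa [z0 G.1] using (g2 G G').trans (by
      rw [z0 G.1]; norm_num)]
  by_cases h1 : i y y' ≤ n
  · by_cases b : y ∈ W <;> by_cases b' : y' ∈ W
    · exact ⟨y, y', Or.inl ⟨⟨b, a⟩, rfl⟩, Or.inl ⟨⟨b', a'⟩, rfl⟩, by omega⟩
    · obtain ⟨c, l, G⟩ := ex y' a' b'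
      have := g1 G b
      have := nn G y
      exact ⟨y, c, Or.inl ⟨⟨b, a⟩, rfl⟩, Or.inr ⟨b', l, G⟩, by rw [i_symm] at h1 ⊢; omega⟩
    · obtain ⟨c, l, G⟩ := ex y a b
      have := g1 G b'
      have := nn G y'
      exact ⟨c, y', Or.inr ⟨b, l, G⟩, Or.inl ⟨⟨b', a'⟩, rfl⟩, by omega⟩
    · obtain ⟨c, l, G⟩ := ex y a b
      obtain ⟨c', l', G'⟩ := ex y' a' b'
      have := g2 G G'
      have := nn G y'
      exact ⟨c, c', Or.inr ⟨b, l, G⟩, Or.inr ⟨b', l', G'⟩, by omega⟩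
  obtain ⟨d, d1, d2⟩ := hn.resolve_left h1
  have d3 : i d y' ≠ 0 := fun e => h1 (by rw [e] at d2; omega)
  have b' : y' ∉ W := fun e => d3 ((i_symm _ _).trans (d1.2 y' e))
  obtain ⟨m, m1, m2⟩ := fC d d1
  obtain ⟨l, l1, _, _, _, _, C, le⟩ := exists_ch_le hL h0 m2 m1 (i_symm y y' ▸ d2) d3
  obtain ⟨c', l', G', e⟩ := fF l1 C
  rw [← e] at le
  by_cases b : y ∈ W
  · have := g1 G' b
    exact ⟨y, c', Or.inl ⟨⟨b, a⟩, rfl⟩, Or.inr ⟨b', l', G'⟩, by rw [i_symm]; omega⟩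
  · obtain ⟨c, l, G⟩ := ex y a b
    have := g2 G' G
    exact ⟨c, c', Or.inr ⟨b, l, G⟩, Or.inr ⟨b', l', G'⟩, by rw [i_symm]; omega⟩

end Pool.Agent.MP_646035_al.H84.Fu
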