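import Pool.Agent.MP_646035_al.Mg.H84_GBase

attribute [-instance] SemigroupAction.toSMul Submonoid.instSMulSubtypeMem
  DivisionCommMonoid.toDivisionMonoid Module.toDistribMulAction SMulWithZero.toSMulZeroClass
  Semiring.toMonoid GradedMonoid.GradeZero.mulAction Algebra.toSMul instSMulZeroClass
  MulSemiringAction.toDistribMulAction MonTypeEquivalenceMon.monMonoid
  Action.FintypeCat.instMulActionObjFiniteOf AddQuantale.instAddLeftMono
  NonUnitalRingHomClass.toMulHomClass MulActionWithZero.toMulAction SetLike.GradeZero.instMonoid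
  IdemSemiring.toCanonicallyOrderedAdd MonoidWithZero.toMonoid

/-!
Regions cut out by a multicurve, and chords.
-/

namespace Pool.Agent.MP_646035_al.H84.Fu

open Pool.Agent.MP_4a6971_al.H66 Set H24

variable {Γ : Type} [Group Γ] {S : Fu Γ} {L : Set V} {l m m' n p p' q r r' u E F : V}
  {γ : ℝ → V} {g k : Γ} {s t : ℝ}

/-- An invariant locally finite family of disjoint axes. -/
structure Lam (S : Fu Γ) (L : Set V) : Prop where
  ax : ∀ n ∈ L, S.Ax n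
  neg : ∀ n ∈ L, -n ∈ L
  smul : ∀ n ∈ L, ∀ g, S.σ g • n ∈ L
  nc : ∀ n ∈ L, ∀ n' ∈ L, ¬ Cr n n'
  fin : ∀ p, H2 p → ∀ R : ℝ, {n ∈ L | |Bf n p| ≤ R}.Finite

lemma lam_LL {P : Set S.Cv} (hP : P.Finite) (h : ∀ a ∈ P, ∀ b ∈ P, i a b = 0) : S.Lam (LL P) where
  ax _ := fun ⟨a, _, h⟩ => a.ax h
  neg _ := fun ⟨a, h1, h⟩ => ⟨a, h1, a.neg_mem h⟩
  smul _ := fun ⟨a, h1, h⟩ g => ⟨a, h1, a.smul_mem h g⟩
  nc _ := fun ⟨a, h1, h2⟩ _ ⟨b, h3, h4⟩ => i_eq_zero.1 (h a h1 b h3) _ h2 _ h4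
  fin _ hp R := (hP.biUnion fun a _ => a.loc_fin hp R).subset
    fun _ ⟨⟨_, h1, h2⟩, h3⟩ => mem_biUnion h1 ⟨h2, h3⟩

lemma per_fin' (hp : H2 p) (R : ℝ) : {n | (n ∈ S.per ∨ -n ∈ S.per) ∧ |Bf n p| ≤ R}.Finite := by
  obtain ⟨T, hT, h⟩ := S.per_fin
  refine ((hT.inter_of_left S.per).biUnion fun N hN =>
    Ax.loc_fin (S.per_ax N hN.2) hp R).subset ?_
  rintro n ⟨h1 | h1, h2⟩ <;> obtain ⟨g, hg⟩ := h _ h1
  · exact mem_biUnion (x := S.σ g • n) ⟨hg, S.per_smul g _ h1⟩ ⟨⟨g⁻¹, Or.inl (by simp only [map_inv, inv_smul_smul])⟩, h2⟩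
  · exact mem_biUnion (x := S.σ g • -n) ⟨hg, S.per_smul g _ h1⟩ ⟨⟨g⁻¹, Or.inr (by simp only [map_inv, smul_neg, inv_smul_smul, neg_neg])⟩, h2⟩

lemma LL_ax {P : Set S.Cv} (h : n ∈ LL P) : S.Ax n := h.choose.ax h.choose_spec.2

lemma WL_ax {P : Set S.Cv} (h : n ∈ WL P) : S.Ax n := by
  rcases h with h | h | h
  exacts [LL_ax h, S.per_ax n h, by simpa using Ax.neg (S.per_ax _ h)]

/-- An axis crosses a wall only if the wall is a line of a curve. -/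
lemma WL_cr {P : Set S.Cv} (hu : S.Ax u) (h : n ∈ WL P) (c : Cr u n) : n ∈ LL P := by
  rcases h with h | h | h
  exacts [h, (hu.not_cr_per h c).elim, (hu.not_cr_per h (by simpa using c)).elim]

lemma Cv.mem_WL {P : Set S.Cv} (a : S.Cv) (h : u ∈ a.1) : u ∈ WL P ↔ a ∈ P :=
  ⟨by
    rintro (⟨b, h1, h2⟩ | h1 | h1)
    exacts [Cv.eq_of_mem h2 h ▸ h1, (a.not_per h h1).elim, (a.not_per (a.neg_mem h) h1).elim],
    fun h1 => Or.inl ⟨a, h1, h⟩⟩

lemma lam_WL {P : Set S.Cv} (hP : P.Finite) (h : ∀ a ∈ P, ∀ b ∈ P, i a b = 0) :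
    S.Lam (WL P) where
  ax _ := WL_ax
  neg n hn := by
    rcases hn with a | a | a
    exacts [Or.inl ((lam_LL hP h).neg n a), Or.inr (Or.inr (by simpa)), Or.inr (Or.inl a)]
  smul n hn g := by
    rcases hn with a | a | a
    exacts [Or.inl ((lam_LL hP h).smul n a g), Or.inr (Or.inl (S.per_smul g n a)),
      Or.inr (Or.inr (smul_neg (S.σ g) n ▸ S.per_smul g _ a))]
  nc n hn n' hn' c := (lam_LL hP h).nc _ (WL_cr (WL_ax hn') hn c.symm) _ (WL_cr (WL_ax hn) hn' c) c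
  fin p hp R := (((lam_LL hP h).fin p hp R).union (per_fin' hp R)).subset
    fun _ ⟨a, b⟩ => a.imp (⟨·, b⟩) (⟨·, b⟩)

/-- A simple axis which is not a wall covers a curve. -/
lemma curve_of {P : Set S.Cv} (hu : S.Ax u) (hs : ∀ g, ¬ Cr u (S.σ g • u)) (h : u ∉ WL P) :
    S.Curve u := ⟨hu, hs, fun a => h (Or.inr (Or.inl a)), fun a => h (Or.inr (Or.inr a))⟩

/-- Points off the lines. -/
def Off (L : Set V) (r : V) : Prop := H2 r ∧ ∀ n ∈ L, Bf n r ≠ 0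

/-- The closed region of the point `r`. -/
def Cl (L : Set V) (r q : V) : Prop := H2 q ∧ ∀ n ∈ L, 0 < Bf n r → 0 ≤ Bf n q

/-- The stabiliser of the region of `r`. -/
def St (S : Fu Γ) (L : Set V) (r : V) (g : Γ) : Prop := Cl L r (S.σ g • r)

/-- `m` bounds the region of `r`. -/
def Bd (L : Set V) (r m : V) : Prop := m ∈ L ∧ 0 < Bf m r ∧ ∃ p, Cl L r p ∧ Bf m p = 0

/-- The line `l` meets the region of `r` in the segment from `p` on `m` to `p'` on `m'`. -/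
structure Ch (L : Set V) (r l m m' p p' : V) : Prop where
  off : Off L r
  unit : Bf l l = 1
  mem : m ∈ L
  mem' : m' ∈ L
  pos : 0 < Bf m r
  pos' : 0 < Bf m' r
  cl : Cl L r p
  cl' : Cl L r p'
  lp : Bf l p = 0
  lp' : Bf l p' = 0
  mp : Bf m p = 0
  mp' : Bf m' p' = 0
  fa : 0 < Bf m p'
  fa' : 0 < Bf m' p

/-- The points of the chord of `l` in the region of `r` where a line of `x` crosses. -/
def KK (L : Set V) (r l : V) (x : S.Cv) : Set V :=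
  {q | Cl L r q ∧ Bf l q = 0 ∧ ∃ F ∈ x.1, Cr l F ∧ Bf F q = 0}

/-- The number of crossings on a chord. -/
noncomputable def NN (L : Set V) (r l : V) (x : S.Cv) : ℕ := (KK L r l x).ncard

lemma Lam.unit (hL : S.Lam L) (h : n ∈ L) : Bf n n = 1 := (hL.ax n h).unit

lemma Lam.eq_or (hL : S.Lam L) (h : m ∈ L) (h' : n ∈ L) (hq : H2 q) (e : Bf m q = 0)
    (e' : Bf n q = 0) : n = m ∨ n = -m :=
  (cr_or_eq (hL.unit h) (hL.unit h') hq e e').resolve_left (hL.nc _ h _ h')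

lemma Lam.sep_fin (hL : S.Lam L) (hp : H2 p) (hq : H2 q) : {n ∈ L | Bf n p * Bf n q ≤ 0}.Finite :=
  (hL.fin p hp (ch q p)).subset fun _ h => ⟨h.1, abs_Bf_le_of_sign (hL.unit h.1) hp hq h.2⟩

lemma Bf_move' (g : Γ) (E q : V) : Bf E (S.σ g • q) = Bf (S.σ g⁻¹ • E) q := by
  rw [Bf_move, map_inv, inv_inv]

lemma pos_of_mul {x y : ℝ} (h : 0 < x * y) (hx : 0 ≤ x) : 0 < y :=
  (pos_iff_pos_of_mul_pos h).1 (hx.lt_of_ne fun e => by simp [← e] at h)

lemma Off.cl (h : Off L r) : Cl L r r := ⟨h.1, fun _ _ h => h.le⟩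

lemma Off.smul (hL : S.Lam L) (h : Off L r) (g : Γ) : Off L (S.σ g • r) :=
  ⟨h.1.smul _, fun n hn => by rw [Bf_move']; exact h.2 _ (hL.smul n hn _)⟩

lemma Cl.smul (hL : S.Lam L) (h : Cl L r q) (g : Γ) : Cl L (S.σ g • r) (S.σ g • q) :=
  ⟨h.1.smul _, fun n hn => by
    rw [Bf_move', Bf_move']
    exact h.2 _ (hL.smul n hn _)⟩

lemma Cl.pos (hL : S.Lam L) (h : Off L r) (hq : Cl L r q) (hn : n ∈ L) (a : 0 < Bf n q) :
    0 < Bf n r :=
  (h.2 n hn).lt_or_gt.resolve_left fun b =>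
    absurd (hq.2 _ (hL.neg n hn) (by simpa using b)) (by simpa only [Bf_neg_left, Left.nonneg_neg_iff, not_le] using a)

lemma Cl.pos' (h' : Off L r') (hq : Cl L r r') (hn : n ∈ L) (a : 0 < Bf n r) : 0 < Bf n r' :=
  (hq.2 n hn a).lt_of_ne (h'.2 n hn).symm

lemma Cl.symm (hL : S.Lam L) (h : Off L r) (hq : Cl L r r') : Cl L r' r :=
  ⟨h.1, fun _ hn a => (hq.pos hL h hn a).le⟩

lemma Cl.trans (h' : Off L r') (h1 : Cl L r r') (h2 : Cl L r' q) : Cl L r q :=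
  ⟨h2.1, fun n hn a => h2.2 n hn (h1.pos' h' hn a)⟩

lemma St.one (h : Off L r) : S.St L r 1 := by simpa only [St, map_one, one_smul] using h.cl

lemma St.cl (hL : S.Lam L) (h : Off L r) (hg : S.St L r g) (hq : Cl L r q) :
    Cl L r (S.σ g • q) := Cl.trans (h.smul hL g) hg (hq.smul hL g)

lemma St.mul (hL : S.Lam L) (h : Off L r) (hg : S.St L r g) (hk : S.St L r k) :
    S.St L r (g * k) := by
  rw [St, map_mul, mul_smul]; exact hg.cl hL h hk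

lemma St.inv (hL : S.Lam L) (h : Off L r) (hg : S.St L r g) : S.St L r g⁻¹ := by
  simpa only [St, map_inv, inv_smul_smul] using (Cl.symm hL h hg).smul hL g⁻¹

lemma St.zpow (hL : S.Lam L) (h : Off L r) (hg : S.St L r g) (j : ℤ) : S.St L r (g ^ j) := by
  induction j using Int.induction_on with
  | zero => simpa using St.one h
  | succ n ih => rw [zpow_add_one]; exact ih.mul hL h hg
  | pred n ih => rw [zpow_sub_one]; exact ih.mul hL h (hg.inv hL h)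

lemma St.cl_iff (hL : S.Lam L) (h : Off L r) (hg : S.St L r g) : Cl L r (S.σ g • q) ↔ Cl L r q :=
  ⟨fun a => by simpa only [map_inv, inv_smul_smul] using (hg.inv hL h).cl hL h a, hg.cl hL h⟩

lemma St.pos (hL : S.Lam L) (h : Off L r) (hg : S.St L r g) (hn : n ∈ L) (a : 0 < Bf n r) :
    0 < Bf (S.σ g • n) r := by
  rw [Bf_move, ← map_inv]
  exact Cl.pos' (h.smul hL _) (hg.inv hL h) hn a

/-- If an open point of the region is mapped into the region then the region is preserved. -/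
lemma St.of_off (hL : S.Lam L) (h : Off L r) (hq : Off L q) (h1 : Cl L r q)
    (h2 : Cl L r (S.σ g • q)) : S.St L r g :=
  Cl.trans (hq.smul hL g) h2 ((Cl.symm hL h h1).smul hL g)

/-- Two disjoint axes: one has a constant sign on the other. -/
lemma Ax.same (hE : S.Ax E) (hF : S.Ax F) (h : ¬ Cr E F) (n1 : F ≠ E) (n2 : F ≠ -E) (hp : H2 p)
    (hq : H2 q) (e : Bf E p = 0) (e' : Bf E q = 0) : 0 < Bf F p * Bf F q := by
  obtain ⟨γ, l⟩ := hE.pl
  obtain ⟨s, rfl⟩ := (l.mem p).1 ⟨hp, e⟩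
  obtain ⟨t, rfl⟩ := (l.mem q).1 ⟨hq, e'⟩
  exact l.same hF.unit ((((hE.tri hF).resolve_left h).resolve_left n1).resolve_left n2) s t

lemma Bd.pos (hL : S.Lam L) (h : Bd L r m) (hn : n ∈ L) (a : 0 < Bf n r) (n1 : n ≠ m)
    (hq : H2 q) (e : Bf m q = 0) : 0 < Bf n q := by
  obtain ⟨h1, h2, p, h3, h4⟩ := h
  have := (hL.ax m h1).same (hL.ax n hn) (hL.nc _ h1 _ hn) n1
    (fun b => by rw [b, Bf_neg_left] at a; linarith) h3.1 hq h4 e
  exact pos_of_mul this (h3.2 n hn a)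

lemma Bd.cl (hL : S.Lam L) (h : Bd L r m) (hq : H2 q) (e : Bf m q = 0) : Cl L r q :=
  ⟨hq, fun n hn a => (eq_or_ne n m).elim (fun b => (b ▸ e).ge) fun b => (h.pos hL hn a b hq e).le⟩

lemma Bd.smul (hL : S.Lam L) (h0 : Off L r) (h : Bd L r m) (hg : S.St L r g) :
    Bd L r (S.σ g • m) := by
  obtain ⟨h1, h2, p, h3, h4⟩ := h
  exact ⟨hL.smul m h1 g, hg.pos hL h0 h1 h2, _, hg.cl hL h0 h3, by simpa⟩

/-- Two regions with a common oriented bounding line are equal. -/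
lemma Bd.same (hL : S.Lam L) (h0 : Off L r') (h : Bd L r m) (h' : Bd L r' m) : Cl L r r' := by
  refine ⟨h0.1, fun n hn a => (eq_or_ne n m).elim (fun b => b ▸ h'.2.1.le) fun b => ?_⟩
  obtain ⟨-, -, p, h3, h4⟩ := h'
  exact (h3.pos hL h0 hn (h.pos hL hn a b h3.1 h4)).le

lemma Bd.st (hL : S.Lam L) (h0 : Off L r) (h : Bd L r m) (h' : Bd L r (S.σ g • m)) :
    S.St L r g := by
  refine h'.same hL (h0.smul hL g) ?_
  obtain ⟨h1, h2, p, h3, h4⟩ := h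
  exact ⟨h'.1, by simpa, _, h3.smul hL g, by simpa⟩

lemma Bd.congr (hL : S.Lam L) (h0 : Off L r) (h0' : Off L r') (c : Cl L r r') (h : Bd L r m) :
    Bd L r' m := by
  obtain ⟨h1, h2, p, h3, h4⟩ := h
  exact ⟨h1, c.pos' h0' h1 h2, p, (c.symm hL h0).trans h0 h3, h4⟩

/-- An axis which is not in `L` and crosses no line of `L` lies in one open region. -/
lemma Lam.off (hL : S.Lam L) (hu : S.Ax u) (h1 : u ∉ L) (h2 : ∀ n ∈ L, ¬ Cr u n) (hq : H2 q)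
    (e : Bf u q = 0) : Off L q :=
  ⟨hq, fun n hn a => by
    rcases cr_or_eq (hL.unit hn) hu.unit hq a e with b | rfl | rfl
    exacts [h2 n hn b.symm, h1 hn, h1 (hL.neg n hn)]⟩

lemma Lam.cl_of (hL : S.Lam L) (hu : S.Ax u) (h1 : u ∉ L) (h2 : ∀ n ∈ L, ¬ Cr u n) (hp : Cl L r p)
    (e : Bf u p = 0) (hq : H2 q) (e' : Bf u q = 0) : Cl L r q :=
  ⟨hq, fun n hn a => (pos_of_mul (hu.same (hL.ax n hn) (h2 n hn)
    (fun b => h1 (b ▸ hn)) (fun b => h1 (by simpa [b] using hL.neg n hn)) hp.1 hq e e')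
    (hp.2 n hn a)).le⟩

lemma conv_pt {x y : ℝ} (hp : Cl L r p) (hq : Cl L r q) (hx : 0 ≤ x) (hy : 0 ≤ y)
    (h : H2 (x • p + y • q)) : Cl L r (x • p + y • q) :=
  ⟨h, fun n hn a => by
    have := hp.2 n hn a
    have := hq.2 n hn a
    rw [Bf_add_right, Bf_smul_right, Bf_smul_right]; positivity⟩

/-- The first line of a family met by a segment. -/
lemma first_line {T : Set V} (hp : H2 p) (hq : H2 q)
    (fin : {F ∈ T | 0 < Bf F p ∧ Bf F q ≤ 0}.Finite) (hF : F ∈ T) (a : 0 < Bf F p)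
    (b : Bf F q ≤ 0) : ∃ G ∈ T, 0 < Bf G p ∧ Bf G q ≤ 0 ∧ ∃ x y : ℝ, 0 ≤ x ∧ 0 < y ∧
      H2 (x • p + y • q) ∧ Bf G (x • p + y • q) = 0 ∧
      ∀ G' ∈ T, 0 < Bf G' p → 0 ≤ Bf G' (x • p + y • q) := by
  obtain ⟨G, ⟨g1, g2, g3⟩, mx⟩ := exists_max_image _ (fun F => -Bf F q / Bf F p) fin ⟨F, hF, a, b⟩
  set x := -Bf G q / Bf G p with hx
  have x0 : 0 ≤ x := div_nonneg (by linarith) g2.le
  have c := one_le_ch hp hq
  rw [ch] at c
  obtain ⟨κ, -, hκ⟩ := exists_H2_of_neg (X := x • p + q) (by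
    simp only [Bf_add_left, Bf_add_right, Bf_smul_left, Bf_smul_right, hp.1, hq.1, Bf_comm q p]
    nlinarith [mul_nonneg x0 x0, mul_nonneg x0 (by linarith only [c] : 0 ≤ -Bf p q)])
  have κ0 : 0 < κ := by
    have h1 := hκ.2
    have := hp.2
    have := hq.2
    simp only [Prod.smul_fst, Prod.fst_add, smul_eq_mul] at h1
    exact (mul_pos_iff_of_pos_right (by positivity)).1 h1
  rw [smul_add, smul_smul] at hκ
  refine ⟨G, g1, g2, g3, κ * x, κ, by positivity, κ0, hκ, ?_, fun G' h1 h2 => ?_⟩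
  · rw [Bf_add_right, Bf_smul_right, Bf_smul_right, hx]; field_simp; ring
  · rw [Bf_add_right, Bf_smul_right, Bf_smul_right, mul_assoc, ← mul_add]
    refine mul_nonneg κ0.le ?_
    by_cases h3 : Bf G' q ≤ 0
    · have := mx G' ⟨h1, h2, h3⟩
      rw [div_le_iff₀ h2] at this
      linarith only [this]
    · have := mul_nonneg x0 h2.le
      linarith

/-- A line with a point in an open region and a point outside crosses a bounding line. -/
lemma exit (hL : S.Lam L) (h0 : Off L r) (hu : Bf u u = 1) (hp : Off L p) (c : Cl L r p)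
    (hq : H2 q) (e : Bf u p = 0) (e' : Bf u q = 0) (hn : n ∈ L) (a : 0 < Bf n r)
    (b : Bf n q ≤ 0) : ∃ m, Bd L r m ∧ Cr u m := by
  obtain ⟨G, g1, g2, -, x, y, -, -, z1, z2, z3⟩ := first_line (T := L) hp.1 hq
    ((hL.sep_fin hp.1 hq).subset fun F hF =>
      ⟨hF.1, mul_nonpos_of_nonneg_of_nonpos hF.2.1.le hF.2.2⟩) hn (c.pos' hp hn a) b
  refine ⟨G, ⟨g1, c.pos hL h0 g1 g2, _, c.trans hp ⟨z1, z3⟩, z2⟩, ?_⟩
  rcases cr_or_eq hu (hL.unit g1) z1 (by simp [e, e']) z2 with h | rfl | rfl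
  · exact h
  all_goals simp [e] at g2

namespace Ch

variable (h : Ch L r l m m' p p')
include h

lemma rev : Ch L r l m' m p' p :=
  ⟨h.off, h.unit, h.mem', h.mem, h.pos', h.pos, h.cl', h.cl, h.lp', h.lp, h.mp', h.mp, h.fa', h.fa⟩

lemma flip : Ch L r (-l) m m' p p' :=
  { h with unit := by simpa using h.unit, lp := by simpa using h.lp, lp' := by simpa using h.lp' }

lemma bd : Bd L r m := ⟨h.mem, h.pos, p, h.cl, h.mp⟩

lemma bd' : Bd L r m' := h.rev.bd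

lemma cr (hL : S.Lam L) : Cr l m := by
  rcases cr_or_eq h.unit (hL.unit h.mem) h.cl.1 h.lp h.mp with a | a | a
  · exact a
  all_goals exact absurd h.fa (by simp [a, h.lp'])

lemma cr' (hL : S.Lam L) : Cr l m' := h.rev.cr hL

lemma ne : m' ≠ m := fun e => h.fa'.ne' (e ▸ h.mp)

lemma ne' : m' ≠ -m := fun e => by
  have := h.pos'
  rw [e, Bf_neg_left] at this
  linarith only [h.pos, this]

lemma congr (hL : S.Lam L) (h0 : Off L r') (c : Cl L r r') : Ch L r' l m m' p p' :=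
  { h with
    off := h0
    pos := c.pos' h0 h.mem h.pos
    pos' := c.pos' h0 h.mem' h.pos'
    cl := (c.symm hL h.off).trans h.off h.cl
    cl' := (c.symm hL h.off).trans h.off h.cl' }

lemma smul' (hL : S.Lam L) (g : Γ) : Ch L (S.σ g • r) (S.σ g • l) (S.σ g • m) (S.σ g • m')
    (S.σ g • p) (S.σ g • p') :=
  ⟨h.off.smul hL g, by simpa using h.unit, hL.smul _ h.mem g, hL.smul _ h.mem' g,
    by simpa using h.pos, by simpa using h.pos', h.cl.smul hL g, h.cl'.smul hL g,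
    by simpa using h.lp, by simpa using h.lp', by simpa using h.mp, by simpa using h.mp',
    by simpa using h.fa, by simpa using h.fa'⟩

lemma smul (hL : S.Lam L) (hg : S.St L r g) : Ch L r (S.σ g • l) (S.σ g • m) (S.σ g • m')
    (S.σ g • p) (S.σ g • p') := (h.smul' hL g).congr hL h.off (Cl.symm hL h.off hg)

/-- The chord in terms of a parameter. -/
lemma cl_iff (hL : S.Lam L) (a : PL γ l) (hs : γ s = p) (ht : γ t = p') (st : s < t) (x : ℝ) :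
    Cl L r (γ x) ↔ x ∈ Icc s t := by
  subst hs ht
  refine ⟨fun c => ⟨not_lt.1 fun b => ?_, not_lt.1 fun b => ?_⟩, fun c =>
    ⟨a.h2 x, fun n hn b => a.conv c.1 c.2 (h.cl.2 n hn b) (h.cl'.2 n hn b)⟩⟩
  · have := c.2 m h.mem h.pos
    rcases a.mono (hL.unit h.mem) (h.cr hL) with d | d
    exacts [by linarith [d b, h.mp], by linarith [d st, h.mp, h.fa]]
  · have := c.2 m' h.mem' h.pos'
    rcases a.mono (hL.unit h.mem') (h.cr' hL) with d | d
    exacts [by linarith [d st, h.mp', h.fa'], by linarith [d b, h.mp']]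

lemma par (a : PL γ l) : ∃ δ s t, PL δ l ∧ δ s = p ∧ δ t = p' ∧ s < t := by
  obtain ⟨s, hs⟩ := (a.mem p).1 ⟨h.cl.1, h.lp⟩
  obtain ⟨t, ht⟩ := (a.mem p').1 ⟨h.cl'.1, h.lp'⟩
  rcases lt_trichotomy s t with b | rfl | b
  · exact ⟨γ, s, t, a, hs, ht, b⟩
  · exact absurd h.fa (by rw [← ht, hs, h.mp]; exact lt_irrefl _)
  · exact ⟨_, -s, -t, a.rev, by simpa, by simpa, neg_lt_neg b⟩

/-- A point of the chord on a line of `L` is an end of the chord. -/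
lemma foot (hL : S.Lam L) (a : PL γ l) (hq : Cl L r q) (e : Bf l q = 0) (hn : n ∈ L)
    (b : 0 < Bf n r) (e' : Bf n q = 0) : q = p ∧ n = m ∨ q = p' ∧ n = m' := by
  obtain ⟨δ, s, t, a, rfl, rfl, st⟩ := h.par a
  obtain ⟨x, rfl⟩ := (a.mem q).1 ⟨hq.1, e⟩
  obtain ⟨x1, x2⟩ := (h.cl_iff hL a rfl rfl st x).1 hq
  have k1 : Bf n (δ s) = 0 → n = m := fun z => (hL.eq_or h.mem hn h.cl.1 h.mp z).resolve_right
    fun w => by rw [w, Bf_neg_left] at b; linarith [h.pos]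
  have k2 : Bf n (δ t) = 0 → n = m' := fun z => (hL.eq_or h.mem' hn h.cl'.1 h.mp' z).resolve_right
    fun w => by rw [w, Bf_neg_left] at b; linarith [h.pos']
  rcases x1.lt_or_eq with y1 | rfl
  · rcases x2.lt_or_eq with y2 | rfl
    · obtain ⟨α, β, -, -, a1, b1, z⟩ := a.comb x1 x2 st
      rw [z, Bf_add_right, Bf_smul_right, Bf_smul_right] at e'
      have c1 := h.cl.2 n hn b
      have c2 := h.cl'.2 n hn b
      have := k1 (by nlinarith only [a1 y2, mul_nonneg (b1 y1).le c2, e', c1])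
      subst this
      rw [h.mp] at e'
      linarith [mul_pos (b1 y1) h.fa]
    · exact Or.inr ⟨rfl, k2 e'⟩
  · exact Or.inl ⟨rfl, k1 e'⟩

lemma KK_fin (hL : S.Lam L) (a : PL γ l) (x : S.Cv) : (KK L r l x).Finite := by
  obtain ⟨δ, s, t, a, rfl, rfl, st⟩ := h.par a
  refine ((Pos_fin x a s t).image δ).subset ?_
  rintro q ⟨h1, h2, h3⟩
  obtain ⟨y, rfl⟩ := (a.mem q).1 ⟨h1.1, h2⟩
  exact ⟨y, ⟨h3, (h.cl_iff hL a rfl rfl st y).1 h1⟩, rfl⟩

lemma NN_eq (hL : S.Lam L) (a : PL γ l) (hs : γ s = p) (ht : γ t = p') (st : s < t) (x : S.Cv) :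
    NN L r l x = (Pos x.1 γ l ∩ Icc s t).ncard := by
  rw [NN, ← ncard_image_of_injective _ a.inj]
  congr 1
  ext q
  constructor
  · rintro ⟨h1, h2, h3⟩
    obtain ⟨y, rfl⟩ := (a.mem q).1 ⟨h1.1, h2⟩
    exact ⟨y, ⟨h3, (h.cl_iff hL a hs ht st y).1 h1⟩, rfl⟩
  · rintro ⟨y, ⟨h1, h2⟩, rfl⟩
    exact ⟨(h.cl_iff hL a hs ht st y).2 h2, a.on y, h1⟩

/-- An element preserving the line and the region of a chord is trivial. -/
lemma fix (hL : S.Lam L) (a : PL γ l) (hg : S.St L r g)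
    (e : S.σ g • l = l ∨ S.σ g • l = -l) : g = 1 := by
  obtain ⟨δ, s, t, a, rfl, rfl, st⟩ := h.par a
  obtain ⟨ρ, hρ⟩ := shift a e
  have h1 := hg.cl hL h.off h.cl
  have h2 := hg.cl hL h.off h.cl'
  rw [hρ, h.cl_iff hL a rfl rfl st] at h1 h2
  obtain rfl : ρ = 0 := by linarith [h1.1, h2.2]
  exact fix_pt (a.h2 0) (by simpa using hρ 0)

end Ch

lemma NN_neg (x : S.Cv) : NN L r (-l) x = NN L r l x := by simp only [NN, KK, Bf_neg_left, neg_eq_zero, cr_neg_left, Prod.exists]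

lemma NN_congr (hL : S.Lam L) (h : Off L r) (h' : Off L r') (c : Cl L r r') (x : S.Cv) :
    NN L r' l x = NN L r l x := by
  have : ∀ q, Cl L r' q ↔ Cl L r q := fun q => ⟨c.trans h', (c.symm hL h).trans h⟩
  simp only [NN, KK, this]

lemma NN_smul' (hL : S.Lam L) (g : Γ) (x : S.Cv) :
    NN L (S.σ g • r) (S.σ g • l) x = NN L r l x := by
  rw [NN, NN, ← ncard_image_of_injective (KK L r l x) (MulAction.injective (S.σ g))]
  congr 1
  ext q
  constructor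
  · rintro ⟨h1, h2, F, h3, h4, h5⟩
    refine ⟨S.σ g⁻¹ • q, ⟨by simpa only [map_inv, inv_smul_smul] using h1.smul hL g⁻¹, by rwa [map_inv, ← Bf_move],
      _, x.smul_mem h3 g⁻¹, by rwa [map_inv, ← cr_move], by simpa only [map_inv, Bf_isom]⟩, by simp only [map_inv, smul_inv_smul]⟩
  · rintro ⟨q, ⟨h1, h2, F, h3, h4, h5⟩, rfl⟩
    exact ⟨h1.smul hL g, by simpa, _, x.smul_mem h3 g, by simpa, by simpa⟩

lemma NN_smul (hL : S.Lam L) (h : Off L r) (hg : S.St L r g) (x : S.Cv) :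
    NN L r (S.σ g • l) x = NN L r l x := by
  rw [← NN_congr hL h (h.smul hL g) hg, NN_smul' hL]

/-- Consecutive crossings bound a chord. -/
lemma ch_of_consec (hL : S.Lam L) (a : PL γ l) (hl : l ∉ L) (hs : s ∈ Pos L γ l)
    (ht : t ∈ Pos L γ l) (h : ∀ x ∈ Ioo s t, x ∉ Pos L γ l) {x : ℝ} (hx : x ∈ Ioo s t) :
    ∃ m m', Ch L (γ x) l m m' (γ s) (γ t) := by
  have off : ∀ y ∈ Ioo s t, ∀ n ∈ L, Bf n (γ y) ≠ 0 := fun y hy n hn e => by
    rcases cr_or_eq (hL.unit hn) a.unit (a.h2 y) e (a.on y) with b | rfl | rfl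
    exacts [h y hy ⟨n, hn, b.symm, e⟩, hl hn, hl (hL.neg n hn)]
  have sg : ∀ y ∈ Pos L γ l, ∃ m ∈ L, Cr l m ∧ Bf m (γ y) = 0 ∧ 0 < Bf m (γ x) := by
    rintro y ⟨n, h1, h2, h3⟩
    rcases (off x hx n h1).lt_or_gt with b | b
    exacts [⟨-n, hL.neg n h1, by simpa, by simpa, by simpa⟩, ⟨n, h1, h2, h3, b⟩]
  obtain ⟨m, m1, m2, m3, m4⟩ := sg s hs
  obtain ⟨m', n1, n2, n3, n4⟩ := sg t ht
  refine ⟨m, m', ⟨a.h2 x, off x hx⟩, a.unit, m1, n1, m4, n4, ⟨a.h2 s, fun n hn b => ?_⟩,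
    ⟨a.h2 t, fun n hn b => ?_⟩, a.on s, a.on t, m3, n3, ?_, ?_⟩
  · by_contra! c
    obtain ⟨y, y1, y2⟩ := a.ivt (G := n) hx.1.le (mul_nonpos_of_nonpos_of_nonneg c.le b.le)
    exact off y ⟨y1.1.lt_of_ne fun e => c.ne (e ▸ y2), y1.2.trans_lt hx.2⟩ n hn y2
  · by_contra! c
    obtain ⟨y, y1, y2⟩ := a.ivt (G := n) hx.2.le (mul_nonpos_of_nonneg_of_nonpos b.le c.le)
    exact off y ⟨hx.1.trans_le y1.1, y1.2.lt_of_ne fun e => c.ne (e ▸ y2)⟩ n hn y2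
  · rcases a.mono (hL.unit m1) m2 with d | d
    exacts [by linarith [d hx.2], by linarith [d hx.1]]
  · rcases a.mono (hL.unit n1) n2 with d | d
    exacts [by linarith [d hx.2], by linarith [d hx.1]]

lemma Lam.pos_fin (hL : S.Lam L) (a : PL γ l) (s t : ℝ) : (Pos L γ l ∩ Icc s t).Finite := by
  obtain ⟨R, hR⟩ := a.bdd s t
  have : ∀ F : V, {r | F ∈ L ∧ Cr l F ∧ Bf F (γ r) = 0}.Finite := fun F =>
    Set.Subsingleton.finite fun r hr r' hr' => a.one (hL.unit hr.1) hr.2.1.symm hr.2.2 hr'.2.2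
  refine ((hL.fin o H2_o R).biUnion fun F _ => this F).subset ?_
  rintro r ⟨⟨F, h1, h2, h3⟩, h4⟩
  refine mem_biUnion (x := F) ⟨h1, ?_⟩ ⟨h1, h2, h3⟩
  have := abs_Bf_le_of_sign (hL.unit h1) H2_o (a.h2 r) (by simp [h3])
  exact this.trans (ch_comm _ _ ▸ hR r h4)

/-- The next crossing along an axis that crosses `L`. -/
lemma Per.next {c : Γ} {τ : ℝ} (a : S.Per γ l c τ) (hL : S.Lam L) (hs : s ∈ Pos L γ l) (x : ℝ) :
    ∃ t ∈ Pos L γ l, x < t ∧ t ≤ x + τ ∧ ∀ y ∈ Ioo x t, y ∉ Pos L γ l := by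
  obtain ⟨j, hj⟩ := exists_mem_Ico a.pos (-x - τ) (-s)
  have h1 : s + (-j : ℤ) * τ ∈ Pos L γ l ∩ Ioc x (x + τ) :=
    ⟨a.pos_add hL.smul hs _, by push_cast; linarith [hj.2], by push_cast; linarith [hj.1]⟩
  obtain ⟨t, t1, t2⟩ := exists_min_image _ id ((hL.pos_fin a.pl x (x + τ)).subset
    (inter_subset_inter_right _ Ioc_subset_Icc_self)) ⟨_, h1⟩
  exact ⟨t, t1.1, t1.2.1, t1.2.2, fun y hy h =>
    absurd (t2 y ⟨h, hy.1, hy.2.le.trans t1.2.2⟩) (not_le.2 hy.2)⟩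

lemma Per.prev {c : Γ} {τ : ℝ} (a : S.Per γ l c τ) (hL : S.Lam L) (hs : s ∈ Pos L γ l) (x : ℝ) :
    ∃ t ∈ Pos L γ l, t < x ∧ x - τ ≤ t ∧ ∀ y ∈ Ioo t x, y ∉ Pos L γ l := by
  obtain ⟨j, hj⟩ := exists_mem_Ico a.pos (x - τ) s
  rw [sub_add_cancel] at hj
  obtain ⟨t, t1, t2⟩ := exists_max_image (Pos L γ l ∩ Ico (x - τ) x) id
    ((hL.pos_fin a.pl (x - τ) x).subset (inter_subset_inter_right _ Ico_subset_Icc_self))
    ⟨_, a.pos_add hL.smul hs j, hj⟩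
  exact ⟨t, t1.1, t1.2.2, t1.2.1, fun y hy h =>
    absurd (t2 y ⟨h, t1.2.1.trans hy.1.le, hy.2⟩) (not_le.2 hy.1)⟩

/-- An axis crossing `L` has a chord through each of its points off `L`. -/
lemma exists_ch (hL : S.Lam L) (hl : S.Ax l) (hn : n ∈ L) (c : Cr l n) (hq : Off L q)
    (e : Bf l q = 0) : ∃ m m' p p', Ch L q l m m' p p' := by
  obtain ⟨γ, a⟩ := hl.pl
  obtain ⟨c', τ, a⟩ := hl.exists_per a
  obtain ⟨x, rfl⟩ := (a.pl.mem q).1 ⟨hq.1, e⟩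
  obtain ⟨y, hy⟩ := a.pl.zero (hL.unit hn) c
  obtain ⟨t, t1, t2, -, t3⟩ := a.next hL ⟨n, hn, c, hy⟩ x
  obtain ⟨s, s1, s2, -, s3⟩ := a.prev hL ⟨n, hn, c, hy⟩ x
  obtain ⟨m, m', h⟩ := ch_of_consec hL a.pl (fun h => hL.nc _ h _ hn c) s1 t1 (fun z hz => by
    rcases lt_trichotomy z x with b | rfl | b
    exacts [s3 z ⟨hz.1, b⟩, fun ⟨F, f1, _, f2⟩ => hq.2 F f1 f2, t3 z ⟨b, hz.2⟩]) ⟨s2, t2⟩
  exact ⟨m, m', _, _, h⟩

end Pool.Agent.MP_646035_al.H84.Fu
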