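import Pool.Agent.MP_646035_al.Mg.H84_GReg
import Pool.Agent.MP_646035_al.Mg.H84_GIv

/-!
The walk along a chord and the walls; gap lines.
-/

namespace Pool.Agent.MP_646035_al.H84.Fu

open Pool.Agent.MP_4a6971_al.H66 Set H24

variable {Γ : Type} [Group Γ]

/-- The translates of the chord of `l` in the region of `r` are disjoint. -/
def Sim (S : Fu Γ) (L : Set V) (r l : V) : Prop :=
  ∀ g, S.St L r g → g ≠ 1 → ∀ q, Cl L r q → Bf l q = 0 → Bf (S.σ g • l) q ≠ 0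

/-- A segment from `x` to `x'` on the wall `n`, at most one period long, whose interior meets no
translate of the chord of `l`. -/
def Sg (S : Fu Γ) (L : Set V) (r l n x x' : V) : Prop :=
  ∃ δ α τ a b, S.Per δ n α τ ∧ δ a = x ∧ δ b = x' ∧ a < b ∧ b ≤ a + τ ∧
    ∀ u ∈ Ioo a b, ∀ g, S.St L r g → Bf (S.σ g • l) (δ u) ≠ 0

/-- One period of the walk on the positive side of `l`: the chord of `l` from `p` to `p'`, a segment
of `m'`, the chord of `l1` from `p1` to `p1'`, a segment of `c m`, arriving at `c p`. -/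
structure Wk (S : Fu Γ) (L : Set V) (r l m m' p p' : V) (c g : Γ) (l1 p1 p1' : V) : Prop where
  ch : Ch L r l m m' p p'
  sim : S.Sim L r l
  gst : S.St L r g
  cst : S.St L r c
  gne : g ≠ 1
  cne : c ≠ 1
  ch1 : Ch L r l1 m' (S.σ c • m) p1 p1'
  typ : (l1 = S.σ g • l ∧ S.σ g • m = m' ∧ S.σ g • p = p1 ∧ c = g * g) ∨
    (l1 = -(S.σ g • l) ∧ S.σ g • m' = m' ∧ S.σ c • m = S.σ g • m ∧ c ≠ g ∧ ∀ k, S.σ k • m ≠ m')
  sg0 : S.Sg L r l m' p' p1
  sg1 : S.Sg L r l (S.σ c • m) p1' (S.σ c • p)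
  f0 : 0 < Bf l p1
  f1 : 0 < Bf l1 p'
  f2 : 0 < Bf l1 (S.σ c • p)
  f3 : 0 < Bf (S.σ c • l) p1'

/-- `A` is the gap line of the chord on the positive side of `l`. -/
def Gap (S : Fu Γ) (L : Set V) (r l m m' p p' A : V) : Prop :=
  ∃ c g l1 p1 p1', S.Wk L r l m m' p p' c g l1 p1 p1' ∧ IsAx (S.σ c) A ∧ 0 < Bf A p

/-- One period of the wall `n` is crossed at most `B` times by `x`. -/
def LeP (n : V) {S : Fu Γ} (x : S.Cv) (B : ℕ) : Prop :=
  ∀ δ α τ a, S.Per δ n α τ → (Pos x.1 δ n ∩ Ico a (a + τ)).ncard ≤ B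

/-- The number of translates of the chord of `l` that cross the chord of `l'`. -/
noncomputable def MM (S : Fu Γ) (L : Set V) (r l' l : V) : ℕ :=
  {g | S.St L r g ∧ Cr l' (S.σ g • l) ∧
    ∃ q, Cl L r q ∧ Bf l' q = 0 ∧ Bf (S.σ g • l) q = 0}.ncard

variable {S : Fu Γ} {L : Set V} {r l m m' p p' n : V} {x y : S.Cv}

lemma Ch.pl (h : Ch L r l m m' p p') : ∃ γ, PL γ l := exists_pl' h.unit

lemma Ch.sim (h : Ch L r l m m' p p') (hL : S.Lam L) (hu : ∀ g, ¬ Cr l (S.σ g • l)) :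
    S.Sim L r l := fun g hg h1 q hq e e' => by
  obtain ⟨γ, a⟩ := h.pl
  exact h1 (h.fix hL a hg ((cr_or_eq h.unit (by simpa using h.unit) hq.1 e e').resolve_left (hu g)))

lemma Ch.sim_cv (h : Ch L r l m m' p p') (hL : S.Lam L) (hl : l ∈ y.1) : S.Sim L r l :=
  h.sim hL fun g => y.simple hl (y.smul_mem hl g)

lemma Sim.neg (h : S.Sim L r l) : S.Sim L r (-l) := fun g hg h1 q hq e => by
  simpa using h g hg h1 q hq (by simpa using e)

lemma leP_cv {d : S.Cv} (h : n ∈ d.1) (x : S.Cv) : LeP n x (i d x) :=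
  fun _ _ _ a hp => (hp.count h x a).ge

lemma leP_zero (h : ∀ F ∈ x.1, ¬ Cr n F) : LeP n x 0 := fun δ _ _ _ _ => by
  have : Pos x.1 δ n = ∅ := eq_empty_of_forall_notMem fun _ ⟨F, a, b, _⟩ => h F a b
  simp [this]

lemma leP_per (h : n ∈ S.per ∨ -n ∈ S.per) (x : S.Cv) : LeP n x 0 :=
  leP_zero fun F hF c => h.elim (fun a => (x.ax hF).not_cr_per a c.symm)
    fun a => (x.ax hF).not_cr_per a (by simpa using c.symm)

end Pool.Agent.MP_646035_al.H84.Fu
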