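import Pool.Agent.MP_646035_al.Mg.H84_GWk

attribute [-instance] SemigroupAction.toSMul Submonoid.instSMulSubtypeMem Prod.mulAction
  DivisionCommMonoid.toDivisionMonoid Semiring.toMonoid Module.toDistribMulAction
  SMulWithZero.toSMulZeroClass NonUnitalRingHomClass.toMulHomClass MonTypeEquivalenceMon.monMonoid
  AddQuantale.instAddLeftMono Algebra.toSMul NonUnitalAlgSemiHomClass.toMulHomClass
  MulSemiringAction.toDistribMulAction instSMulZeroClass SemigroupWithZero.toSemigroup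
  Prod.distribSMul IdemSemiring.toCanonicallyOrderedAdd GroupConeClass.toSubmonoidClass
  AddSubmonoidClass.toAddCommMonoid SetLike.GradeZero.instMonoid CommSemiring.toSemiring
  MonoidWithZero.toMonoid DivisionSemiring.toSemiring NumberField.to_charZero
  AddQuantale.instAddRightMono LinearOrderedCommMonoidWithZero.toPosMulStrictMono
  LinearOrderedCommMonoidWithZero.toIsBotZeroClass RKHS.instFunLike DivisionRing.toDivInvMonoid
  MonoidWithZero.toMulZeroOneClass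

/-!
The walk exists, and all translates of the chord keep their sign along it.
-/

namespace Pool.Agent.MP_646035_al.H84

open Pool.Agent.MP_4a6971_al.H66 Set H24 Real

/-- The determinant of three vectors. -/
def dt (a b c : V) : ℝ :=
  a.1 * (b.2.1 * c.2.2 - b.2.2 * c.2.1) - a.2.1 * (b.1 * c.2.2 - b.2.2 * c.1) +
    a.2.2 * (b.1 * c.2.1 - b.2.1 * c.1)

lemma dt_isom (f : Isom) : ∃ ε : ℝ, ε ≠ 0 ∧ ∀ a b c, dt (f • a) (f • b) (f • c) = ε * dt a b c := by
  have e : ∀ a : V, f • a = a.1 • f • ((1, 0, 0) : V) + a.2.1 • f • ((0, 1, 0) : V) +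
      a.2.2 • f • ((0, 0, 1) : V) := fun a => by
    rw [← isom_smul, ← isom_smul, ← isom_smul, ← smul_add, ← smul_add]
    congr 1
    ext <;> simp
  have key : ∀ a b c, dt (f • a) (f • b) (f • c) =
      dt (f • (1, 0, 0)) (f • (0, 1, 0)) (f • (0, 0, 1)) * dt a b c := fun a b c => by
    rw [e a, e b, e c]
    generalize f • ((1, 0, 0) : V) = x
    generalize f • ((0, 1, 0) : V) = y
    generalize f • ((0, 0, 1) : V) = z
    simp only [dt, Prod.fst_add, Prod.snd_add, Prod.smul_fst, Prod.smul_snd, smul_eq_mul]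
    ring
  refine ⟨_, fun h => ?_, key⟩
  have := key (f⁻¹ • (1, 0, 0)) (f⁻¹ • (0, 1, 0)) (f⁻¹ • (0, 0, 1))
  rw [h] at this
  simp only [dt, smul_inv_smul, mul_one, mul_zero, sub_zero, sub_self, add_zero, zero_mul, one_ne_zero] at this

lemma dt_hyp {u : Isom} (hu : Hyp u) (a b c : V) : dt (u • a) (u • b) (u • c) = dt a b c := by
  obtain ⟨f, t, hf⟩ := hu.fr
  obtain ⟨ε, h0, h⟩ := dt_isom f
  refine mul_left_cancel₀ h0 ?_
  rw [← h, ← h, hf.one, hf.one, hf.one]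
  have : ∀ a b c : V, dt (dil t • a) (dil t • b) (dil t • c) = exp t * exp (-t) * dt a b c :=
    fun a b c => by simp only [dil_smul, dt]; ring
  rw [this, exp_mul_neg, one_mul]

lemma dt_swap (a b c : V) : dt b a c = -dt a b c := by unfold dt; ring

lemma dt_neg (a b c : V) : dt a (-b) c = -dt a b c := by simp only [dt, Prod.fst_neg, Prod.snd_neg]; ring

/-- Two lines facing each other across a segment have opposite orientations. -/
lemma dt_face {l m m' p p' : V} (hl : Bf l l = 1) (hp : H2 p) (hp' : H2 p') (lp : Bf l p = 0)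
    (lp' : Bf l p' = 0) (e : Bf m p = 0) (e' : Bf m' p' = 0) (a : 0 < Bf m p') (a' : 0 < Bf m' p) :
    dt l m p * dt l m' p' < 0 := by
  obtain ⟨f, hf⟩ := exists_frame0 hl
  obtain ⟨ε, h0, h⟩ := dt_isom f
  have : dt (f • l) (f • m) (f • p) * dt (f • l) (f • m') (f • p') < 0 := by
    rw [← Bf_isom f] at lp lp' e e' a a'
    have h1 := hp.smul f
    have h2 := hp'.smul f
    have x1 := h1.2; have z1 := h1.pos; have x2 := h2.2; have z2 := h2.pos
    have q1 := h1.eq; have q2 := h2.eq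
    rw [hf] at lp lp' ⊢
    rw [Bf_E0] at lp lp'
    generalize f • m = M at *
    generalize f • m' = M' at *
    generalize f • p = P at *
    generalize f • p' = P' at *
    obtain ⟨a1, b1, d1⟩ := M
    obtain ⟨a2, b2, d2⟩ := M'
    obtain ⟨x, y, z⟩ := P
    obtain ⟨x', y', z'⟩ := P'
    simp only [Bf, dt, E0] at *
    subst lp lp'
    have k1 : 0 < a1 * (z * x' - z' * x) := by
      have : d1 * x = -(a1 * z) := by linarith only [e]
      have : x * (a1 * z' + x' * d1) < 0 := mul_neg_of_pos_of_neg x1 (by linarith only [a])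
      nlinarith only [x2, e, this]
    have k2 : 0 < -a2 * (z * x' - z' * x) := by
      have : d2 * x' = -(a2 * z') := by linarith only [e']
      have : x' * (a2 * z + x * d2) < 0 := mul_neg_of_pos_of_neg x2 (by linarith only [a'])
      nlinarith only [x1, e', this]
    have k3 : a1 * a2 < 0 := by
      by_contra! c
      linarith only [mul_pos k1 k2, mul_nonneg c (sq_nonneg (z * x' - z' * x))]
    have e1 : d1 * x = -(a1 * z) := by linarith only [e]
    have e2 : d2 * x' = -(a2 * z') := by linarith only [e']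
    rw [e1, e2]
    linarith only [mul_neg_of_neg_of_pos k3 (mul_pos z1 z2)]
  rw [h, h] at this
  nlinarith [mul_self_pos.2 h0]

namespace Fu

variable {Γ : Type} [Group Γ] {S : Fu Γ} {L : Set V} {r l m m' p p' A u h n x x' y y' w w' q q' E
  l1 p1 p1' : V} {c g k : Γ} {γ : ℝ → V} {τ : ℝ}

lemma Per.smul (a : S.Per γ E c τ) (g : Γ) :
    S.Per (fun t => S.σ g • γ t) (S.σ g • E) (g * c * g⁻¹) τ where
  pl := a.pl.smul _
  pos := a.pos
  fix := by simp only [map_mul, map_inv, mul_smul, inv_smul_smul, a.fix]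
  sh t := by simp only [map_mul, map_inv, mul_smul, inv_smul_smul, a.sh]
  gen k hk := by
    obtain ⟨j, hj⟩ := a.gen (g⁻¹ * k * g) (by
      simpa only [map_mul, map_inv, mul_smul, inv_smul_eq_iff, smul_neg] using hk)
    exact ⟨j, by rw [conj_zpow, ← hj]; group⟩

lemma Sg.smul (hL : S.Lam L) (h0 : Off L r) (a : S.Sg L r l n x x') (hg : S.St L r g) :
    S.Sg L r l (S.σ g • n) (S.σ g • x) (S.σ g • x') := by
  obtain ⟨δ, α, τ, a, b, h1, rfl, rfl, h4, h5, h6⟩ := a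
  refine ⟨_, _, τ, a, b, h1.smul g, rfl, rfl, h4, h5, fun u hu k hk => ?_⟩
  rw [Bf_move', ← mul_smul, ← map_mul]
  exact h6 u hu _ ((hg.inv hL h0).mul hL h0 hk)

lemma Sg.neg (a : S.Sg L r (-l) n x x') : S.Sg L r l n x x' := by
  obtain ⟨δ, α, τ, a, b, h1, h2, h3, h4, h5, h6⟩ := a
  exact ⟨δ, α, τ, a, b, h1, h2, h3, h4, h5, fun u hu k hk => by simpa using h6 u hu k hk⟩

lemma LeP.smul {z : S.Cv} {B : ℕ} (a : LeP n z B) (g : Γ) : LeP (S.σ g • n) z B :=
  fun δ α τ s hp => by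
  have := a _ _ τ s (by simpa only [map_inv, inv_smul_smul, inv_inv] using hp.smul g⁻¹)
  convert this using 3
  ext t
  constructor <;> rintro ⟨F, h1, h2, h3⟩
  · exact ⟨_, z.smul_mem h1 g⁻¹, by rwa [map_inv, ← cr_move], by simpa only [map_inv, Bf_isom]⟩
  · exact ⟨_, z.smul_mem h1 g, by simpa only [cr_isom], by rwa [Bf_move]⟩

/-- The next chord along the wall `m'` on the positive side of `l`. -/
lemma step (hL : S.Lam L) (h : Ch L r l m m' p p') (hs : S.Sim L r l) :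
    ∃ g p1, S.St L r g ∧ g ≠ 1 ∧ S.Sg L r l m' p' p1 ∧ 0 < Bf l p1 ∧
      ((S.σ g • p = p1 ∧ S.σ g • m = m' ∧ 0 < Bf (S.σ g • l) p') ∨
      (S.σ g • p' = p1 ∧ S.σ g • m' = m' ∧ Bf (S.σ g • l) p' < 0 ∧ ∀ k, S.σ k • m ≠ m')) := by
  obtain ⟨δ, d, mono⟩ : ∃ δ, PL δ m' ∧ StrictMono fun t => Bf l (δ t) := by
    obtain ⟨δ, d⟩ := (hL.ax _ h.mem').pl
    rcases d.mono h.unit (h.cr' hL).symm with a | a
    exacts [⟨δ, d, a⟩, ⟨_, d.rev, fun s t st => a (neg_lt_neg st)⟩]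
  obtain ⟨α, τ, P⟩ := (hL.ax _ h.mem').exists_per d
  obtain ⟨a, rfl⟩ := (d.mem p').1 ⟨h.cl'.1, h.mp'⟩
  have αs : S.St L r α := h.bd'.st hL h.off (P.fix.symm ▸ h.bd')
  have ft : ∀ u g, S.St L r g → Bf (S.σ g • l) (δ u) = 0 →
      δ u = S.σ g • p ∧ m' = S.σ g • m ∨ δ u = S.σ g • δ a ∧ m' = S.σ g • m' := fun u g hg e => by
    obtain ⟨β, b⟩ := (h.smul hL hg).pl
    exact (h.smul hL hg).foot hL b (h.bd'.cl hL (d.h2 u) (d.on u)) e h.mem' h.pos' (d.on u)
  let Φ : Set ℝ := {u | u ∈ Ioc a (a + τ) ∧ ∃ g, S.St L r g ∧ Bf (S.σ g • l) (δ u) = 0}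
  have fin : Φ.Finite := by
    obtain ⟨R, hR⟩ := d.bdd a (a + τ)
    refine ((((S.proper H2_o h.cl.1 R).image fun g => S.σ g • p).union
      ((S.proper H2_o h.cl'.1 R).image fun g => S.σ g • δ a)).preimage d.inj.injOn).subset ?_
    rintro u ⟨h1, g, h2, h3⟩
    have := hR u (Ioc_subset_Icc_self h1)
    rcases ft u g h2 h3 with e | e
    exacts [Or.inl ⟨g, by rwa [e.1] at this, e.1.symm⟩, Or.inr ⟨g, by rwa [e.1] at this, e.1.symm⟩]
  obtain ⟨b, ⟨⟨b1, b2⟩, g, hg, e⟩, mn⟩ := exists_min_image Φ id fin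
    ⟨a + τ, ⟨by linarith [P.pos], le_rfl⟩, α, αs, by rw [← P.sh, Bf_isom, h.lp']⟩
  have free : ∀ u ∈ Ioo a b, ∀ g, S.St L r g → Bf (S.σ g • l) (δ u) ≠ 0 := fun u hu k hk z =>
    absurd (mn u ⟨⟨hu.1, hu.2.le.trans b2⟩, k, hk, z⟩) (not_le.2 hu.2)
  have f0 : 0 < Bf l (δ b) := h.lp'.ge.trans_lt (mono b1)
  have g1 : g ≠ 1 := fun z => f0.ne' (by simpa only [z, map_one, one_smul] using e)
  refine ⟨g, δ b, hg, g1, ⟨δ, α, τ, a, b, P, rfl, rfl, b1, b2, free⟩, f0, ?_⟩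
  rcases ft b g hg e with ⟨e1, e2⟩ | ⟨e1, e2⟩
  · refine Or.inl ⟨e1.symm, e2.symm, ((hs g hg g1 _ h.cl' h.lp').lt_or_gt).resolve_left fun z => ?_⟩
    have k1 := dt_face h.unit h.cl.1 h.cl'.1 h.lp h.lp' h.mp h.mp' h.fa h.fa'
    have k2 := dt_face (m := l) (m' := -(S.σ g • l)) d.unit (d.h2 a) (d.h2 b) (d.on a) (d.on b)
      h.lp' (by simpa using e) f0 (by simpa using z)
    have k3 := dt_hyp (S.hyp g g1) l m p
    rw [← e1, ← e2] at k3
    rw [dt_neg, dt_swap l, dt_swap (S.σ g • l), neg_neg, k3] at k2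
    linarith
  · obtain ⟨j, rfl⟩ := P.gen g (Or.inl e2.symm)
    rw [P.zsh] at e1
    have e3 := d.inj e1
    refine Or.inr ⟨by rw [P.zsh, e1], e2.symm, ?_, fun k hk => ?_⟩
    · rw [Bf_move, ← map_inv, ← zpow_neg, P.zsh]
      exact (mono (by push_cast; linarith)).trans_le h.lp'.le
    · have ks : S.St L r k := h.bd.st hL h.off (hk.symm ▸ h.bd')
      obtain ⟨v, hv⟩ := (d.mem (S.σ k • p)).1 ⟨h.cl.1.smul _, by rw [← hk, Bf_isom, h.mp]⟩
      obtain ⟨i, i1, i2⟩ := exists_mem_Ico P.pos a v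
      have ks' := (αs.zpow hL h.off i).mul hL h.off ks
      have z : Bf (S.σ (α ^ i * k) • l) (δ (v + i * τ)) = 0 := by
        rw [← P.zsh, hv, map_mul, mul_smul, Bf_isom, Bf_isom, h.lp]
      have j1 : (1 : ℝ) ≤ j := by
        have : (0 : ℝ) < j := by nlinarith only [b1, b2, e3]
        exact_mod_cast (by exact_mod_cast this : (0 : ℤ) < j)
      rcases i1.lt_or_eq with y | y
      · exact free _ ⟨y, by nlinarith only [b1, e3, i2, j1]⟩ _ ks' z
      · refine hs _ ks' (fun w => h.ne ?_) _ h.cl' h.lp' (y ▸ z)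
        have : S.σ (α ^ i * k) • m = m' := by rw [map_mul, mul_smul, hk, P.zfix]
        simpa only [w, map_one, one_smul] using this.symm

theorem wk_ex (hL : S.Lam L) (h : Ch L r l m m' p p') (hs : S.Sim L r l) :
    ∃ c g l1 p1 p1', S.Wk L r l m m' p p' c g l1 p1 p1' := by
  obtain ⟨g, p1, hg, g1, sg, f0, ⟨rfl, e, f1⟩ | ⟨rfl, e, f1, nk⟩⟩ := step hL h hs
  · have e' : S.σ (g * g) • m = S.σ g • m' := by rw [map_mul, mul_smul, e]
    refine ⟨g * g, g, S.σ g • l, _, S.σ g • p', h, hs, hg, hg.mul hL h.off hg, g1, fun z => ?_,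
      by simpa only [e, e'] using h.smul hL hg, Or.inl ⟨rfl, e, rfl, rfl⟩, sg,
      by simpa only [e', map_mul, mul_smul, e] using sg.smul hL h.off hg, f0, f1,
      by simpa [mul_smul] using f0, by simpa only [map_mul, mul_smul, Bf_isom] using f1⟩
    exact (S.hyp g g1).zpow_ne_one two_ne_zero (by rw [zpow_two, ← map_mul, z, map_one])
  · obtain ⟨β, p2, hβ, β1, sg', f2, ⟨-, e', -⟩ | ⟨rfl, e', f3, -⟩⟩ := step hL h.rev.flip hs.neg
    · exact (nk β⁻¹ (by rw [← e', map_inv, inv_smul_smul])).elim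
    have e2 : S.σ (g * β) • m = S.σ g • m := by rw [map_mul, mul_smul, e']
    refine ⟨g * β, g, -(S.σ g • l), _, S.σ g • p, h, hs, hg, hg.mul hL h.off hβ, g1, fun z => ?_,
      by simpa only [e, e2, smul_neg] using h.rev.flip.smul hL hg,
      Or.inr ⟨rfl, e, e2, by simpa using β1, nk⟩, sg,
      by simpa only [e2, map_mul, mul_smul, e'] using sg'.neg.smul hL h.off hg, f0, by simpa using f1,
      by simpa [mul_smul] using f2, by simpa [mul_smul] using f3⟩
    refine g1 (fix_two (hL.unit h.mem) (hL.unit h.mem') (Or.inl ?_) (Or.inl e) h.ne h.ne')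
    rw [← e2, z, map_one, one_smul]

/-- A translate of the chord keeps its sign on the chord. -/
lemma Ch.same (h : Ch L r l m m' p p') (hs : S.Sim L r l) (hg : S.St L r g) (g1 : g ≠ 1)
    (hq : Cl L r q) (hq' : Cl L r q') (e : Bf l q = 0) (e' : Bf l q' = 0) :
    0 < Bf (S.σ g • l) q * Bf (S.σ g • l) q' := by
  obtain ⟨γ, a⟩ := h.pl
  obtain ⟨s, rfl⟩ := (a.mem q).1 ⟨hq.1, e⟩
  obtain ⟨t, rfl⟩ := (a.mem q').1 ⟨hq'.1, e'⟩
  wlog st : s ≤ t generalizing s t
  · rw [mul_comm]; exact this t hq' e' s hq e (le_of_not_ge st)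
  by_contra! z
  obtain ⟨v, v1, v2⟩ := a.ivt st z
  exact hs g hg g1 _ ⟨a.h2 v, fun n hn b => a.conv v1.1 v1.2 (hq.2 n hn b) (hq'.2 n hn b)⟩
    (a.on v) v2

/-- An interior point of a segment of the walk. -/
def Mid (S : Fu Γ) (L : Set V) (r l x x' w : V) : Prop :=
  H2 w ∧ (∃ α β : ℝ, 0 < α ∧ 0 < β ∧ w = α • x + β • x') ∧
    ∀ g, S.St L r g → 0 ≤ Bf (S.σ g • l) x * Bf (S.σ g • l) x'

lemma Sg.mid (a : S.Sg L r l n x x') : ∃ w, S.Mid L r l x x' w := by
  obtain ⟨δ, α, τ, a, b, h1, rfl, rfl, h4, -, h6⟩ := a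
  obtain ⟨α, β, -, -, a1, b1, e⟩ := h1.pl.comb (r := (a + b) / 2) (by linarith) (by linarith only [h4]) h4
  refine ⟨_, h1.pl.h2 _, ⟨α, β, a1 (by linarith), b1 (by linarith), e⟩, fun g hg => ?_⟩
  by_contra! z
  obtain ⟨v, v1, v2⟩ := h1.pl.ivt h4.le z.le
  refine h6 v ⟨v1.1.lt_of_ne ?_, v1.2.lt_of_ne ?_⟩ g hg v2 <;> rintro rfl <;> simp [v2] at z

lemma Mid.smul (hL : S.Lam L) (h0 : Off L r) (a : S.Mid L r l x x' w) (hg : S.St L r g) :
    S.Mid L r l (S.σ g • x) (S.σ g • x') (S.σ g • w) := by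
  obtain ⟨h1, ⟨α, β, a1, b1, rfl⟩, h2⟩ := a
  refine ⟨h1.smul _, ⟨α, β, a1, b1, by rw [smul_add, isom_smul, isom_smul]⟩, fun k hk => ?_⟩
  rw [Bf_move', Bf_move' g, ← mul_smul, ← map_mul]
  exact h2 _ ((hg.inv hL h0).mul hL h0 hk)

lemma Mid.symm (a : S.Mid L r l x x' w) : S.Mid L r l x' x w := by
  obtain ⟨h1, ⟨α, β, a1, b1, rfl⟩, h2⟩ := a
  exact ⟨h1, ⟨β, α, b1, a1, add_comm _ _⟩, fun k hk => by rw [mul_comm]; exact h2 k hk⟩

lemma Mid.pos (a : S.Mid L r l x x' w) (h1 : 0 ≤ Bf u x) (h2 : 0 < Bf u x') : 0 < Bf u w := by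
  obtain ⟨-, ⟨α, β, a1, b1, rfl⟩, -⟩ := a
  rw [Bf_add_right, Bf_smul_right, Bf_smul_right]; positivity

lemma Mid.same (a : S.Mid L r l x x' w) (hg : S.St L r g) (h1 : Bf (S.σ g • l) x ≠ 0) :
    0 < Bf (S.σ g • l) x * Bf (S.σ g • l) w := by
  obtain ⟨-, ⟨α, β, a1, b1, rfl⟩, h2⟩ := a
  rw [Bf_add_right, Bf_smul_right, Bf_smul_right]
  linarith only [mul_pos a1 (mul_self_pos.2 h1), mul_nonneg b1.le (h2 g hg)]

lemma Mid.cl (a : S.Mid L r l x x' w) (h1 : Cl L r x) (h2 : Cl L r x') : Cl L r w := by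
  obtain ⟨h, ⟨α, β, a1, b1, rfl⟩, -⟩ := a
  exact conv_pt h1 h2 a1.le b1.le h

lemma mul_pos_trans {a b c : ℝ} (h : 0 < a * b) (h' : 0 < b * c) : 0 < a * c := by
  rcases mul_pos_iff.1 h with ⟨x, y⟩ | ⟨x, y⟩
  · exact mul_pos x (pos_of_mul h' y.le)
  · exact mul_pos_of_neg_of_neg x (by nlinarith only [h, h', x])

/-- Passing a chord of the walk. -/
lemma corner (hL : S.Lam L) (h0 : Ch L r l m m' p p') (hs : S.Sim L r l) (hk : S.St L r k)
    (e : h = S.σ k • l ∨ h = -(S.σ k • l)) (hx : Cl L r x) (hx' : Cl L r x') (e1 : Bf h x = 0)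
    (e2 : Bf h x' = 0) (a : S.Mid L r l y x w) (a' : S.Mid L r l x' y' w') (b : 0 < Bf h y)
    (b' : 0 < Bf h y') (hg : S.St L r g) : 0 < Bf (S.σ g • l) w * Bf (S.σ g • l) w' := by
  by_cases z : k⁻¹ * g = 1
  · obtain rfl := inv_mul_eq_one.1 z
    have := mul_pos (a.symm.pos e1.ge b) (a'.pos e2.ge b')
    rcases e with rfl | rfl <;> simpa only [gt_iff_lt, Bf_neg_left, mul_neg, neg_mul, neg_neg] using this
  · have ki := hk.inv hL h0.off
    have := h0.same hs (ki.mul hL h0.off hg) z (ki.cl hL h0.off hx) (ki.cl hL h0.off hx')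
      (by rw [Bf_move', inv_inv]; rcases e with rfl | rfl <;> simpa using e1)
      (by rw [Bf_move', inv_inv]; rcases e with rfl | rfl <;> simpa using e2)
    simp only [map_mul, mul_smul, Bf_isom] at this
    refine mul_pos_trans (mul_pos_trans ?_ this) (a'.same hg (right_ne_zero_of_mul this.ne'))
    rw [mul_comm]
    exact a.symm.same hg (left_ne_zero_of_mul this.ne')

namespace Wk

variable (W : S.Wk L r l m m' p p' c g l1 p1 p1') (hL : S.Lam L)
include W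

lemma l1_eq : l1 = S.σ g • l ∨ l1 = -(S.σ g • l) := W.typ.imp And.left And.left

include hL

lemma zst (j : ℤ) : S.St L r (c ^ j) := W.cst.zpow hL W.ch.off j

lemma core : ∃ w, S.Mid L r l p' p1 w ∧ Cl L r w ∧ ∀ k, S.St L r k → ∀ j : ℤ,
    0 < Bf (S.σ k • l) w * Bf (S.σ k • l) (S.σ c ^ j • w) := by
  obtain ⟨w, a⟩ := W.sg0.mid
  obtain ⟨w', a'⟩ := W.sg1.mid
  have o := W.ch.off
  have one : ∀ k, S.St L r k → 0 < Bf (S.σ k • l) w * Bf (S.σ k • l) (S.σ c • w) := fun k hk =>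
    mul_pos_trans (corner hL W.ch W.sim W.gst W.l1_eq W.ch1.cl W.ch1.cl' W.ch1.lp W.ch1.lp' a a'
      W.f1 W.f2 hk) (corner hL W.ch W.sim W.cst (Or.inl rfl) (W.cst.cl hL o W.ch.cl)
      (W.cst.cl hL o W.ch.cl') (by simpa using W.ch.lp) (by simpa using W.ch.lp') a'
      (a.smul hL o W.cst) W.f3 (by simpa using W.f0) hk)
  have two : ∀ k, S.St L r k → ∀ j : ℤ, 0 < Bf (S.σ k • l) (S.σ c ^ j • w) *
      Bf (S.σ k • l) (S.σ c ^ (j + 1) • w) := fun k hk j => by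
    have := one _ (((W.zst hL j).inv hL o).mul hL o hk)
    rwa [map_mul, mul_smul, ← Bf_move', ← Bf_move', map_zpow, ← mul_smul, ← zpow_add_one] at this
  refine ⟨w, a, a.cl W.ch.cl' W.ch1.cl, fun k hk j => ?_⟩
  induction j using Int.induction_on with
  | zero => simpa using left_ne_zero_of_mul (one k hk).ne'
  | succ n ih => exact mul_pos_trans ih (two k hk n)
  | pred n ih => exact mul_pos_trans ih (by simpa [mul_comm] using two k hk (-n - 1))

lemma ncL (ax : IsAx (S.σ c) A) (hn : n ∈ L) : ¬ Cr A n := by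
  obtain ⟨w, -, h1, -⟩ := W.core hL
  have key : ∀ n ∈ L, 0 < Bf n r → ¬ Cr A n := fun n hn a =>
    not_cr_of_pos (S.hyp c W.cne) ax (hL.unit hn) h1.1 fun j =>
      map_zpow S.σ c j ▸ ((W.zst hL j).cl hL W.ch.off h1).2 n hn a
  rcases (W.ch.off.2 n hn).lt_or_gt with a | a
  exacts [by simpa using key _ (hL.neg n hn) (by simpa using a), key n hn a]

lemma ncF (ax : IsAx (S.σ c) A) (hk : S.St L r k) : ¬ Cr A (S.σ k • l) := by
  obtain ⟨w, -, h1, h2⟩ := W.core hL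
  have u : Bf (S.σ k • l) (S.σ k • l) = 1 := by simpa using W.ch.unit
  rcases le_total 0 (Bf (S.σ k • l) w) with a | a
  · exact not_cr_of_pos (S.hyp c W.cne) ax u h1.1 fun j => (pos_of_mul (h2 k hk j) a).le
  · rw [← cr_neg_right]
    exact not_cr_of_pos (S.hyp c W.cne) ax (by simpa using u) h1.1 fun j =>
      (pos_of_mul (x := -Bf (S.σ k • l) w) (by simpa only [Bf_neg_left, mul_neg, neg_mul, neg_neg] using h2 k hk j) (by simpa only [Left.nonneg_neg_iff] using a)).le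

/-- The lines of the walk are positive on the chord, unless equal to the line of the chord. -/
theorem pos (j : ℤ) (hu : u = S.σ (c ^ j) • l ∨ u = S.σ (c ^ j) • l1) (hq : Cl L r q)
    (e : Bf l q = 0) : u = l ∨ 0 < Bf u q := by
  obtain ⟨w, a, h1, h2⟩ := W.core hL
  have l0 := a.pos W.ch.lp'.ge W.f0
  have l1' := a.symm.pos W.ch1.lp.ge W.f1
  have u0 : 0 < Bf u (S.σ c ^ j • w) := by
    rcases hu with rfl | rfl <;> simpa only [map_zpow, Bf_isom]
  obtain ⟨k, hk, ek⟩ : ∃ k, S.St L r k ∧ (u = S.σ k • l ∨ u = -(S.σ k • l)) := by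
    rcases hu with rfl | rfl
    · exact ⟨_, W.zst hL j, Or.inl rfl⟩
    · refine ⟨_, (W.zst hL j).mul hL W.ch.off W.gst, W.l1_eq.imp ?_ ?_⟩ <;> rintro rfl <;>
        simp [mul_smul]
  have u1 : 0 < Bf u w := by
    refine pos_of_mul (?_ : 0 < Bf u (S.σ c ^ j • w) * Bf u w) u0.le
    rcases ek with rfl | rfl <;> simpa only [mul_comm, Bf_neg_left, mul_neg, neg_mul, neg_neg] using h2 k hk j
  by_cases z : k = 1
  · subst z
    rcases ek with rfl | rfl
    · exact Or.inl (by simp only [map_one, one_smul])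
    · exact absurd u1 (by simpa using l0.le)
  · have s1 := W.ch.same W.sim hk z W.ch.cl' hq W.ch.lp' e
    have s2 := mul_pos_trans ((a.same hk (left_ne_zero_of_mul s1.ne')).trans_eq (mul_comm _ _)) s1
    refine Or.inr (pos_of_mul (?_ : 0 < Bf u w * Bf u q) u1.le)
    rcases ek with rfl | rfl <;> simpa only [Bf_neg_left, mul_neg, neg_mul, neg_neg] using s2

lemma ne_zero (ax : IsAx (S.σ c) A) : Bf A p ≠ 0 := fun e => by
  have h1 := (cr_or_eq ax.1 W.ch.unit W.ch.cl.1 e W.ch.lp).resolve_left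
    (by simpa only [map_one, one_smul] using W.ncF hL ax (St.one W.ch.off))
  refine W.ncL hL ax W.ch.mem ?_
  rcases h1 with rfl | rfl <;> simpa using W.ch.cr hL

end Wk

theorem gap_ex (hL : S.Lam L) (h : Ch L r l m m' p p') (hs : S.Sim L r l) :
    ∃ A, S.Gap L r l m m' p p' A := by
  obtain ⟨c, g, l1, p1, p1', W⟩ := wk_ex hL h hs
  obtain ⟨A, ax⟩ := (S.hyp c W.cne).exists_ax
  rcases (W.ne_zero hL ax).lt_or_gt with a | a
  exacts [⟨-A, c, g, l1, p1, p1', W, ax.neg, by simpa using a⟩, ⟨A, c, g, l1, p1, p1', W, ax, a⟩]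

end Fu

end Pool.Agent.MP_646035_al.H84
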