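import Mathlib

-- part MP_646035_al.H91.Asg
section

/-!
Finite sets of functions that take values in `B` on `X` and the value `d` elsewhere.
-/

namespace Pool.Agent.MP_646035_al.H91

open Finset

variable {Q M : Type*} [DecidableEq Q]

open Classical in
/-- The functions with values in `B` on `X` and equal to `d` outside `X`. -/
noncomputable def asg (d : M) (X : Finset Q) (B : Finset M) : Finset (Q → M) :=
  (X.pi fun _ => B).image fun f j => if h : j ∈ X then f j h else d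

lemma mem_asg {d : M} {X : Finset Q} {B : Finset M} {f : Q → M} :
    f ∈ asg d X B ↔ (∀ j ∈ X, f j ∈ B) ∧ ∀ j ∉ X, f j = d := by
  classical
  simp only [asg, mem_image, mem_pi]
  constructor
  · rintro ⟨g, hg, rfl⟩
    exact ⟨fun j hj => by simpa [hj] using hg j hj, fun j hj => by simp [hj]⟩
  · rintro ⟨h1, h2⟩
    refine ⟨fun j _ => f j, h1, funext fun j => ?_⟩
    by_cases hj : j ∈ X
    · simp [hj]
    · simp [hj, h2 j hj]

lemma asg_empty (d : M) (B : Finset M) : asg d (∅ : Finset Q) B = {fun _ => d} := by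
  ext f
  simp [mem_asg, funext_iff]

lemma sum_asg_union {R : Type*} [AddCommMonoid R] (d : M) {X₁ X₂ : Finset Q}
    (h : Disjoint X₁ X₂) (B : Finset M) (F : (Q → M) → R) :
    ∑ f ∈ asg d (X₁ ∪ X₂) B, F f
      = ∑ f₁ ∈ asg d X₁ B, ∑ f₂ ∈ asg d X₂ B, F (X₁.piecewise f₁ f₂) := by
  rw [← sum_product']
  symm
  refine sum_nbij' (fun p => X₁.piecewise p.1 p.2)
    (fun f => (X₁.piecewise f fun _ => d, X₂.piecewise f fun _ => d)) ?_ ?_ ?_ ?_ fun _ _ => rfl
  · rintro ⟨f₁, f₂⟩ hp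
    simp only [mem_product, mem_asg, mem_union] at hp ⊢
    refine ⟨fun j hj => ?_, fun j hj => ?_⟩
    · by_cases h1 : j ∈ X₁
      · simpa [piecewise, h1] using hp.1.1 j h1
      · simpa [piecewise, h1] using hp.2.1 j (hj.resolve_left h1)
    · push Not at hj
      simpa [piecewise, hj.1] using hp.2.2 j hj.2
  · intro f hf
    simp only [mem_product, mem_asg, mem_union] at hf ⊢
    exact ⟨⟨fun j hj => by simpa [piecewise, hj] using hf.1 j (.inl hj),
      fun j hj => by simp [piecewise, hj]⟩,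
      fun j hj => by simpa [piecewise, hj] using hf.1 j (.inr hj),
      fun j hj => by simp [piecewise, hj]⟩
  · rintro ⟨f₁, f₂⟩ hp
    simp only [mem_product, mem_asg] at hp
    refine Prod.ext (funext fun j => ?_) (funext fun j => ?_)
    · by_cases h1 : j ∈ X₁
      · simp [piecewise, h1]
      · simp [piecewise, h1, hp.1.2 j h1]
    · by_cases h2 : j ∈ X₂
      · simp [piecewise, h2, disjoint_right.1 h h2]
      · simp [piecewise, h2, hp.2.2 j h2]
  · intro f hf
    simp only [mem_asg, mem_union] at hf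
    funext j
    by_cases h1 : j ∈ X₁
    · simp [piecewise, h1]
    · by_cases h2 : j ∈ X₂
      · simp [piecewise, h1, h2]
      · simp [piecewise, h1, h2, hf.2 j (by tauto)]

lemma sum_asg_prod {R : Type*} [CommSemiring R] (d : M) (X : Finset Q) (B : Finset M)
    (g : Q → M → R) :
    ∑ f ∈ asg d X B, ∏ j ∈ X, g j (f j) = ∏ j ∈ X, ∑ b ∈ B, g j b := by
  classical
  rw [prod_sum, asg, sum_image]
  · refine sum_congr rfl fun f _ => ?_
    rw [← prod_attach]
    exact prod_congr rfl fun j _ => by simp [j.2]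
  · intro f _ f' _ hff
    funext j hj
    simpa [hj] using congrFun hff j

lemma card_asg (d : M) (X : Finset Q) (B : Finset M) : (asg d X B).card = B.card ^ X.card := by
  simpa using sum_asg_prod (R := ℕ) d X B fun _ _ => 1

/-- Transport along a map `π` of sites injective on `X` and a permutation `ι` of the values. -/
lemma sum_asg_map {Q' R : Type*} [DecidableEq Q'] [AddCommMonoid R] (d : M) (X : Finset Q')
    (B : Finset M) (π : Q' → Q) (hπ : Set.InjOn π X) (ι : M ≃ M) (hι : ∀ b, ι b ∈ B ↔ b ∈ B)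
    (F : (Q → M) → R) (F' : (Q' → M) → R)
    (h : ∀ f ∈ asg d (X.image π) B, ∀ f' ∈ asg d X B, (∀ j ∈ X, f' j = ι (f (π j))) →
      F f = F' f') :
    ∑ f ∈ asg d (X.image π) B, F f = ∑ f' ∈ asg d X B, F' f' := by
  classical
  have hmem : ∀ f ∈ asg d (X.image π) B,
      (fun j => if j ∈ X then ι (f (π j)) else d) ∈ asg d X B := fun f hf => by
    rw [mem_asg] at hf ⊢
    exact ⟨fun j hj => by simpa [hj, hι] using hf.1 _ (mem_image_of_mem π hj),
      fun j hj => by simp [hj]⟩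
  refine sum_bij (fun f _ => fun j => if j ∈ X then ι (f (π j)) else d) hmem ?_ ?_ ?_
  · intro f hf f' hf' hff
    rw [mem_asg] at hf hf'
    funext v
    by_cases hv : v ∈ X.image π
    · obtain ⟨j, hj, rfl⟩ := mem_image.1 hv
      simpa [hj] using congrFun hff j
    · rw [hf.2 v hv, hf'.2 v hv]
  · intro g hg
    rw [mem_asg] at hg
    refine ⟨fun v => if hv : v ∈ X.image π then ι.symm (g (mem_image.1 hv).choose) else d,
      mem_asg.2 ⟨fun v hv => ?_, fun v hv => by simp only [hv, dite_false]⟩, funext fun j => ?_⟩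
    · simp only [hv, dite_true]
      rw [← hι, Equiv.apply_symm_apply]
      exact hg.1 _ (mem_image.1 hv).choose_spec.1
    · by_cases hj : j ∈ X
      · have hv : π j ∈ X.image π := mem_image_of_mem π hj
        have := (mem_image.1 hv).choose_spec
        simp only [hj, if_true, hv, dite_true, Equiv.apply_symm_apply]
        rw [hπ this.1 hj this.2]
      · simp [hj, hg.2 j hj]
  · intro f hf
    exact h f hf _ (hmem f hf) fun j hj => by simp [hj]

end Pool.Agent.MP_646035_al.H91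

end

-- part MP_646035_al.H91.Poly
section

/-!
Abstract hard-core polymer systems in which two polymers are incompatible when their supports
meet: the partition function, Dobrushin type bounds, and a comparison of two systems.
-/

namespace Pool.Agent.MP_646035_al.H91

open Finset

section Poly

variable {Pt Γ : Type*} [DecidableEq Pt] [DecidableEq Γ]

/-- The supports of the members of `F` are pairwise disjoint. -/
def Compat (supp : Γ → Finset Pt) (F : Finset Γ) : Prop :=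
  ∀ γ ∈ F, ∀ δ ∈ F, γ ≠ δ → Disjoint (supp γ) (supp δ)

open Classical in
/-- The partition function of the polymers in `Λ`. -/
noncomputable def Xi (supp : Γ → Finset Pt) (w : Γ → ℝ) (Λ : Finset Γ) : ℝ :=
  ∑ F ∈ Λ.powerset with Compat supp F, ∏ γ ∈ F, w γ

/-- The polymers of `Λ` whose support avoids `A`. -/
def away (supp : Γ → Finset Pt) (Λ : Finset Γ) (A : Finset Pt) : Finset Γ :=
  Λ.filter fun δ => Disjoint (supp δ) A

/-- The change of `log Xi` when the polymers meeting `A` are removed. -/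
noncomputable def Dl (supp : Γ → Finset Pt) (w : Γ → ℝ) (Λ : Finset Γ) (A : Finset Pt) : ℝ :=
  Real.log (Xi supp w Λ) - Real.log (Xi supp w (away supp Λ A))

/-- The smallness condition on a finite universe `U` of polymers. -/
structure KP (supp : Γ → Finset Pt) (w : Γ → ℝ) (U : Finset Γ) : Prop where
  ne : ∀ γ ∈ U, (supp γ).Nonempty
  sum : ∀ q : Pt, ∑ δ ∈ U with q ∈ supp δ, |w δ| * Real.exp (supp δ).card ≤ 1 / 2

variable {supp : Γ → Finset Pt} {w : Γ → ℝ} {U : Finset Γ}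

lemma Xi_empty : Xi supp w ∅ = 1 := by
  classical
  have hc : Compat supp (∅ : Finset Γ) := by simp [Compat]
  simp [Xi, Finset.sum_filter, hc]

lemma Xi_congr {w' : Γ → ℝ} {Λ : Finset Γ} (h : ∀ γ ∈ Λ, w γ = w' γ) :
    Xi supp w Λ = Xi supp w' Λ := by
  classical
  unfold Xi
  refine Finset.sum_congr rfl fun F hF => Finset.prod_congr rfl fun γ hγ => h γ ?_
  exact Finset.mem_powerset.mp (Finset.mem_filter.mp hF).1 hγ

/-- Split the families according to whether they contain `γ`. -/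
lemma Xi_erase {Λ : Finset Γ} {γ : Γ} (hγ : γ ∈ Λ) :
    Xi supp w Λ = Xi supp w (Λ.erase γ) + w γ * Xi supp w (away supp (Λ.erase γ) (supp γ)) := by
  classical
  have hn : γ ∉ Λ.erase γ := Finset.notMem_erase γ Λ
  have e1 : Xi supp w Λ = ∑ F ∈ (insert γ (Λ.erase γ)).powerset,
      if Compat supp F then ∏ δ ∈ F, w δ else 0 := by
    rw [Finset.insert_erase hγ, Xi, Finset.sum_filter]
  rw [e1, Finset.sum_powerset_insert hn]
  congr 1
  · rw [Xi, Finset.sum_filter]
  · have e2 : (away supp (Λ.erase γ) (supp γ)).powerset =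
        (Λ.erase γ).powerset.filter fun F => ∀ δ ∈ F, Disjoint (supp δ) (supp γ) := by
      ext F
      simp only [away, Finset.mem_powerset, Finset.mem_filter, Finset.subset_iff]
      exact ⟨fun h => ⟨fun x hx => (h hx).1, fun x hx => (h hx).2⟩,
        fun h x hx => ⟨h.1 hx, h.2 x hx⟩⟩
    rw [Xi, e2, Finset.filter_filter, Finset.sum_filter, Finset.mul_sum]
    refine Finset.sum_congr rfl fun F hF => ?_
    have hF' : γ ∉ F := fun hh => hn (Finset.mem_powerset.mp hF hh)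
    have e3 : Compat supp (insert γ F) ↔
        (∀ δ ∈ F, Disjoint (supp δ) (supp γ)) ∧ Compat supp F := by
      constructor
      · intro hc
        refine ⟨fun δ hδ => hc δ (Finset.mem_insert_of_mem hδ) γ (Finset.mem_insert_self _ _) ?_,
          fun a ha b hb hab =>
            hc a (Finset.mem_insert_of_mem ha) b (Finset.mem_insert_of_mem hb) hab⟩
        rintro rfl
        exact hF' hδ
      · rintro ⟨h1, h2⟩ a ha b hb hab
        rcases Finset.mem_insert.mp ha with ha1 | ha1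
        · rcases Finset.mem_insert.mp hb with hb1 | hb1
          · exact absurd (ha1.trans hb1.symm) hab
          · rw [ha1]
            exact (h1 b hb1).symm
        · rcases Finset.mem_insert.mp hb with hb1 | hb1
          · rw [hb1]
            exact h1 a ha1
          · exact h2 a ha1 b hb1 hab
    by_cases hc : (∀ δ ∈ F, Disjoint (supp δ) (supp γ)) ∧ Compat supp F
    · rw [if_pos (e3.mpr hc), if_pos hc, Finset.prod_insert hF']
    · rw [if_neg (fun h => hc (e3.mp h)), if_neg hc, mul_zero]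

lemma KP.mono (h : KP supp w U) {Λ : Finset Γ} (hΛ : Λ ⊆ U) : KP supp w Λ := by
  refine ⟨fun γ hγ => h.ne γ (hΛ hγ), fun q => le_trans ?_ (h.sum q)⟩
  exact Finset.sum_le_sum_of_subset_of_nonneg (Finset.filter_subset_filter _ hΛ)
    fun _ _ _ => by positivity

/-- Every polymer meeting `A` contains a point of `A`. -/
lemma KP.sum_touch (h : KP supp w U) (A : Finset Pt) :
    ∑ δ ∈ U with ¬ Disjoint (supp δ) A, 2 * |w δ| * Real.exp (supp δ).card ≤ A.card := by
  calc ∑ δ ∈ U with ¬ Disjoint (supp δ) A, 2 * |w δ| * Real.exp (supp δ).card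
      ≤ ∑ δ ∈ U, ∑ q ∈ A, if q ∈ supp δ then 2 * (|w δ| * Real.exp (supp δ).card) else 0 := by
        rw [Finset.sum_filter]
        refine Finset.sum_le_sum fun δ _ => ?_
        split_ifs with hd
        · exact Finset.sum_nonneg fun q _ => by split_ifs <;> positivity
        · obtain ⟨q, hq1, hq2⟩ := Finset.not_disjoint_iff.mp hd
          refine le_trans ?_ (Finset.single_le_sum (f := fun q =>
            if q ∈ supp δ then 2 * (|w δ| * Real.exp (supp δ).card) else 0)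
            (fun q _ => by split_ifs <;> positivity) hq2)
          simp only [if_pos hq1]
          exact le_of_eq (by ring)
    _ = ∑ q ∈ A, 2 * ∑ δ ∈ U with q ∈ supp δ, |w δ| * Real.exp (supp δ).card := by
        rw [Finset.sum_comm]
        refine Finset.sum_congr rfl fun q _ => ?_
        rw [Finset.mul_sum, Finset.sum_filter]
    _ ≤ ∑ _q ∈ A, (1 : ℝ) := Finset.sum_le_sum fun q _ => by linarith [h.sum q]
    _ = A.card := by simp

lemma poly_remove (f : Finset Γ → ℝ) (c : Γ → ℝ) (Λ : Finset Γ)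
    (hs : ∀ M ⊆ Λ, ∀ γ ∈ M, c γ ≤ f M - f (M.erase γ)) (N : Finset Γ) :
    ∑ δ ∈ Λ with δ ∈ N, c δ ≤ f Λ - f (Λ \ N) := by
  induction N using Finset.induction_on with
  | empty => simp
  | insert a N ha ih =>
    rw [Finset.sdiff_insert]
    by_cases haΛ : a ∈ Λ
    · have e : Λ.filter (fun δ => δ ∈ insert a N) = insert a (Λ.filter fun δ => δ ∈ N) := by
        ext δ
        simp only [Finset.mem_filter, Finset.mem_insert]
        constructor
        · rintro ⟨h1, h2 | h2⟩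
          · exact Or.inl h2
          · exact Or.inr ⟨h1, h2⟩
        · rintro (h1 | h1)
          · exact ⟨h1 ▸ haΛ, Or.inl h1⟩
          · exact ⟨h1.1, Or.inr h1.2⟩
      rw [e, Finset.sum_insert (fun hh => ha (Finset.mem_filter.mp hh).2)]
      have := hs (Λ \ N) Finset.sdiff_subset a (Finset.mem_sdiff.mpr ⟨haΛ, ha⟩)
      linarith
    · have e : Λ.filter (fun δ => δ ∈ insert a N) = Λ.filter fun δ => δ ∈ N := by
        refine Finset.filter_congr fun δ hδ => ?_
        rw [Finset.mem_insert]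
        exact ⟨fun hh => hh.resolve_left (fun h1 => haΛ (h1 ▸ hδ)), Or.inr⟩
      rw [e, Finset.erase_eq_of_notMem (fun hh => haΛ (Finset.mem_sdiff.mp hh).1)]
      exact ih

lemma poly_remove_abs (f : Finset Γ → ℝ) (c : Γ → ℝ) (Λ : Finset Γ)
    (hs : ∀ M ⊆ Λ, ∀ γ ∈ M, |f M - f (M.erase γ)| ≤ c γ) (N : Finset Γ) :
    |f Λ - f (Λ \ N)| ≤ ∑ δ ∈ Λ with δ ∈ N, c δ := by
  have h1 := poly_remove f (fun γ => -c γ) Λ
    (fun M hM γ hγ => (abs_le.mp (hs M hM γ hγ)).1) N
  have h2 := poly_remove (fun M => -f M) (fun γ => -c γ) Λ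
    (fun M hM γ hγ => by linarith [(abs_le.mp (hs M hM γ hγ)).2]) N
  rw [Finset.sum_neg_distrib] at h1 h2
  exact abs_le.mpr ⟨h1, by linarith⟩

lemma poly_Dl (h : KP supp w U) {Λ : Finset Γ} (hΛ : Λ ⊆ U)
    (hs : ∀ M ⊆ Λ, ∀ γ ∈ M, |Real.log (Xi supp w M) - Real.log (Xi supp w (M.erase γ))|
      ≤ 2 * |w γ| * Real.exp (supp γ).card) (A : Finset Pt) :
    |Dl supp w Λ A| ≤ A.card := by
  have e : away supp Λ A = Λ \ U.filter fun δ => ¬ Disjoint (supp δ) A := by
    ext δ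
    simp only [away, Finset.mem_filter, Finset.mem_sdiff]
    constructor
    · rintro ⟨h1, h2⟩
      exact ⟨h1, fun hh => hh.2 h2⟩
    · rintro ⟨h1, h2⟩
      exact ⟨h1, by_contra fun hh => h2 ⟨hΛ h1, hh⟩⟩
  rw [Dl, e]
  refine (poly_remove_abs (fun M => Real.log (Xi supp w M)) _ Λ hs _).trans ?_
  refine le_trans ?_ (h.sum_touch A)
  exact Finset.sum_le_sum_of_subset_of_nonneg (fun δ hδ => (Finset.mem_filter.mp hδ).2)
    fun _ _ _ => by positivity

lemma poly_small (h : KP supp w U) {γ : Γ} (hγ : γ ∈ U) {D : ℝ} (hD : |D| ≤ (supp γ).card) :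
    |w γ * Real.exp (-D)| ≤ |w γ| * Real.exp (supp γ).card ∧
      |w γ| * Real.exp (supp γ).card ≤ 1 / 2 := by
  constructor
  · rw [abs_mul, abs_of_pos (Real.exp_pos _)]
    exact mul_le_mul_of_nonneg_left (Real.exp_le_exp.mpr (by linarith [(abs_le.mp hD).1]))
      (abs_nonneg _)
  · obtain ⟨q, hq⟩ := h.ne γ hγ
    refine le_trans ?_ (h.sum q)
    exact Finset.single_le_sum (f := fun δ => |w δ| * Real.exp (supp δ).card)
      (fun _ _ => by positivity) (Finset.mem_filter.mpr ⟨hγ, hq⟩)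

lemma poly_factor {Λ : Finset Γ} {γ : Γ} (hγ : γ ∈ Λ) (p1 : 0 < Xi supp w (Λ.erase γ))
    (p2 : 0 < Xi supp w (away supp (Λ.erase γ) (supp γ))) :
    Xi supp w Λ = Xi supp w (Λ.erase γ) *
      (1 + w γ * Real.exp (-Dl supp w (Λ.erase γ) (supp γ))) := by
  rw [Xi_erase hγ, Dl, neg_sub, Real.exp_sub, Real.exp_log p1, Real.exp_log p2]
  field_simp

lemma poly_log_ge {y : ℝ} (h0 : 0 ≤ y) (h1 : y ≤ 1) : y / 2 ≤ Real.log (1 + y) := by
  have h := Real.one_sub_inv_le_log_of_pos (show 0 < 1 + y by linarith)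
  refine le_trans ?_ h
  have e : 1 - (1 + y)⁻¹ = y / (1 + y) := by field_simp; ring
  rw [e]
  exact div_le_div_of_nonneg_left h0 (by linarith) (by linarith)

lemma poly_log {y : ℝ} (hy : |y| ≤ 1 / 2) : |Real.log (1 + y)| ≤ 2 * |y| := by
  obtain ⟨h1, h2⟩ := abs_le.mp hy
  have hp : 0 < 1 + y := by linarith
  have ha := Real.log_le_sub_one_of_pos hp
  have hb := Real.one_sub_inv_le_log_of_pos hp
  have e : 1 - (1 + y)⁻¹ = y / (1 + y) := by field_simp; ring
  rw [e] at hb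
  refine abs_le.mpr ⟨le_trans ?_ hb, by linarith [le_abs_self y, abs_nonneg y]⟩
  rw [le_div_iff₀ hp]
  rcases le_total 0 y with h0 | h0
  · rw [abs_of_nonneg h0]
    nlinarith
  · rw [abs_of_nonpos h0]
    nlinarith

/-- Dobrushin induction on the size of `Λ`: prove `pos` and `step` together.  By `Xi_erase`,
`Xi Λ / Xi (Λ.erase γ) = 1 + w γ * ρ` with `ρ = exp (-Dl (Λ.erase γ) (supp γ))`; remove the
polymers meeting `supp γ` one at a time (induction hypothesis, `sum_touch`) to get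
`|Dl| ≤ card (supp γ)`; `|w γ| exp (card) ≤ 1/2` by `KP.sum` at a point of `supp γ`;
`|log (1 + y)| ≤ 2 |y|` for `|y| ≤ 1/2`. -/
lemma KP.pos_step (h : KP supp w U) (Λ : Finset Γ) (hΛ : Λ ⊆ U) :
    0 < Xi supp w Λ ∧ ∀ γ ∈ Λ,
      |Real.log (Xi supp w Λ) - Real.log (Xi supp w (Λ.erase γ))|
        ≤ 2 * |w γ| * Real.exp (supp γ).card := by
  induction Λ using Finset.strongInduction with
  | H Λ ih =>
    have key : ∀ γ ∈ Λ, 0 < Xi supp w Λ ∧
        |Real.log (Xi supp w Λ) - Real.log (Xi supp w (Λ.erase γ))|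
          ≤ 2 * |w γ| * Real.exp (supp γ).card := by
      intro γ hγ
      have hss : ∀ M, M ⊆ Λ.erase γ → M ⊂ Λ := fun M hM =>
        lt_of_le_of_lt hM (Finset.erase_ssubset hγ)
      have hU : Λ.erase γ ⊆ U := (Finset.erase_subset _ _).trans hΛ
      have p1 := (ih _ (hss _ subset_rfl) hU).1
      have hs2 : away supp (Λ.erase γ) (supp γ) ⊆ Λ.erase γ := Finset.filter_subset _ _
      have p2 := (ih _ (hss _ hs2) (hs2.trans hU)).1
      have hD : |Dl supp w (Λ.erase γ) (supp γ)| ≤ (supp γ).card :=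
        poly_Dl h hU (fun M hM => (ih M (hss M hM) (hM.trans hU)).2) _
      have hy := poly_small h (hΛ hγ) hD
      have e := poly_factor (supp := supp) (w := w) hγ p1 p2
      have hpos : 0 < 1 + w γ * Real.exp (-Dl supp w (Λ.erase γ) (supp γ)) := by
        linarith [(abs_le.mp (hy.1.trans hy.2)).1]
      refine ⟨by rw [e]; positivity, ?_⟩
      rw [e, Real.log_mul p1.ne' hpos.ne', add_sub_cancel_left]
      refine (poly_log (hy.1.trans hy.2)).trans ?_
      linarith [hy.1]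
    refine ⟨?_, fun γ hγ => (key γ hγ).2⟩
    rcases Λ.eq_empty_or_nonempty with rfl | ⟨γ, hγ⟩
    · rw [Xi_empty]
      exact one_pos
    · exact (key γ hγ).1

lemma KP.pos (h : KP supp w U) {Λ : Finset Γ} (hΛ : Λ ⊆ U) : 0 < Xi supp w Λ :=
  (h.pos_step Λ hΛ).1

lemma KP.remove (h : KP supp w U) {Λ N : Finset Γ} (hΛ : Λ ⊆ U) :
    |Real.log (Xi supp w Λ) - Real.log (Xi supp w (Λ \ N))|
      ≤ ∑ δ ∈ Λ with δ ∈ N, 2 * |w δ| * Real.exp (supp δ).card := by
  exact poly_remove_abs (fun M => Real.log (Xi supp w M)) _ Λ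
    (fun M hM => (h.pos_step M (hM.trans hΛ)).2) N

lemma KP.Dl_le (h : KP supp w U) {Λ : Finset Γ} (hΛ : Λ ⊆ U) (A : Finset Pt) :
    |Dl supp w Λ A| ≤ A.card := by
  exact poly_Dl h hΛ (fun M hM => (h.pos_step M (hM.trans hΛ)).2) A

lemma KP.step_eq (h : KP supp w U) {Λ : Finset Γ} (hΛ : Λ ⊆ U) {γ : Γ} (hγ : γ ∈ Λ) :
    Real.log (Xi supp w Λ) - Real.log (Xi supp w (Λ.erase γ))
      = Real.log (1 + w γ * Real.exp (-Dl supp w (Λ.erase γ) (supp γ))) := by
  have hU : Λ.erase γ ⊆ U := (Finset.erase_subset _ _).trans hΛ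
  have p1 := h.pos hU
  have p2 := h.pos (Λ := away supp (Λ.erase γ) (supp γ)) ((Finset.filter_subset _ _).trans hU)
  have hy := poly_small h (hΛ hγ) (h.Dl_le hU (supp γ))
  have hpos : 0 < 1 + w γ * Real.exp (-Dl supp w (Λ.erase γ) (supp γ)) := by
    linarith [(abs_le.mp (hy.1.trans hy.2)).1]
  rw [poly_factor (supp := supp) (w := w) hγ p1 p2, Real.log_mul p1.ne' hpos.ne',
    add_sub_cancel_left]

/-- Adding the polymers of `N`: those of nonnegative weight do not lower `log Xi`, those of `N₁`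
raise it (`log (1 + y) ≥ y / 2` for `0 ≤ y ≤ 1`). -/
lemma KP.gain (h : KP supp w U) {Λ N N₁ : Finset Γ} (hΛ : Λ ⊆ U) (hN : N ⊆ Λ) (hN₁ : N₁ ⊆ N)
    (hpos : ∀ γ ∈ N₁, 0 ≤ w γ) :
    ∑ γ ∈ N₁, w γ * Real.exp (-((supp γ).card : ℝ)) / 2
        - ∑ γ ∈ N with w γ < 0, 2 * |w γ| * Real.exp (supp γ).card
      ≤ Real.log (Xi supp w Λ) - Real.log (Xi supp w (Λ \ N)) := by
  have key := poly_remove (fun M => Real.log (Xi supp w M))
    (fun γ => (if γ ∈ N₁ then w γ * Real.exp (-((supp γ).card : ℝ)) / 2 else 0) -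
      (if w γ < 0 then 2 * |w γ| * Real.exp (supp γ).card else 0)) Λ ?_ N
  · refine le_trans (le_of_eq ?_) key
    have e1 : Λ.filter (fun δ => δ ∈ N) = N := by
      ext δ
      simp only [Finset.mem_filter]
      exact ⟨fun h => h.2, fun h => ⟨hN h, h⟩⟩
    have e2 : N.filter (fun δ => δ ∈ N₁) = N₁ := by
      ext δ
      simp only [Finset.mem_filter]
      exact ⟨fun h => h.2, fun h => ⟨hN₁ h, h⟩⟩
    rw [e1, Finset.sum_sub_distrib, ← Finset.sum_filter, ← Finset.sum_filter, e2]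
  · intro M hM γ hγ
    have hMU := hM.trans hΛ
    by_cases hw : w γ < 0
    · have hn : γ ∉ N₁ := fun hh => absurd (hpos γ hh) (not_le.mpr hw)
      have := (abs_le.mp ((h.pos_step M hMU).2 γ hγ)).1
      simp only [if_pos hw, if_neg hn]
      linarith
    · have hw' : 0 ≤ w γ := not_lt.mp hw
      have hU : M.erase γ ⊆ U := (Finset.erase_subset _ _).trans hMU
      have hD := h.Dl_le hU (supp γ)
      have hy := poly_small h (hMU hγ) hD
      have hy0 : 0 ≤ w γ * Real.exp (-Dl supp w (M.erase γ) (supp γ)) := by positivity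
      have hy1 := (abs_le.mp (hy.1.trans hy.2)).2
      have hl := poly_log_ge hy0 (by linarith)
      have hm : w γ * Real.exp (-((supp γ).card : ℝ)) ≤
          w γ * Real.exp (-Dl supp w (M.erase γ) (supp γ)) :=
        mul_le_mul_of_nonneg_left (Real.exp_le_exp.mpr (by linarith [(abs_le.mp hD).2])) hw'
      simp only [if_neg hw]
      rw [h.step_eq hMU hγ]
      split_ifs <;> linarith

/-- The polymers of `U` all of whose points lie over `A`. -/
def above {ι : Type*} [DecidableEq ι] (supp : Γ → Finset Pt) (site : Pt → ι) (U : Finset Γ)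
    (A : Finset ι) : Finset Γ :=
  U.filter fun δ => ∀ q ∈ supp δ, site q ∈ A

/-- Remove the sites of `A` in increasing order (induction on the least element of `A`). -/
lemma telescope {ι κ : Type*} [DecidableEq ι] [LinearOrder κ] (site : Pt → ι)
    (fib : ι → Finset Pt) (hfib : ∀ q v, q ∈ fib v ↔ site q = v)
    (hne : ∀ γ ∈ U, (supp γ).Nonempty) (rk : ι → κ) (hrk : Function.Injective rk)
    (A : Finset ι) :
    Real.log (Xi supp w (above supp site U A))
      = ∑ v ∈ A, Dl supp w (above supp site U (A.filter fun u => rk v ≤ rk u)) (fib v) := by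
  induction A using Finset.induction_on_min_value rk with
  | empty =>
    have e : above supp site U ∅ = ∅ := by
      refine Finset.filter_eq_empty_iff.mpr fun δ hδ hh => ?_
      obtain ⟨q, hq⟩ := hne δ hδ
      simpa using hh q hq
    rw [e, Xi_empty]
    simp
  | insert a s ha hmin ih =>
    have e1 : (insert a s).filter (fun u => rk a ≤ rk u) = insert a s := by
      refine Finset.filter_true_of_mem fun u hu => ?_
      rcases Finset.mem_insert.mp hu with rfl | hu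
      · exact le_rfl
      · exact hmin u hu
    have e2 : ∀ v ∈ s, (insert a s).filter (fun u => rk v ≤ rk u) =
        s.filter (fun u => rk v ≤ rk u) := by
      intro v hv
      rw [Finset.filter_insert, if_neg]
      intro hle
      have : v = a := hrk (le_antisymm hle (hmin v hv))
      exact ha (this ▸ hv)
    have e3 : away supp (above supp site U (insert a s)) (fib a) = above supp site U s := by
      ext δ
      simp only [away, above, Finset.mem_filter, Finset.disjoint_left, hfib, Finset.mem_insert]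
      constructor
      · rintro ⟨⟨h1, h2⟩, h3⟩
        exact ⟨h1, fun q hq => (h2 q hq).resolve_left (h3 hq)⟩
      · rintro ⟨h1, h2⟩
        exact ⟨⟨h1, fun q hq => Or.inr (h2 q hq)⟩, fun q hq hh => ha (hh ▸ h2 q hq)⟩
    rw [Finset.sum_insert ha, e1, Finset.sum_congr rfl fun v hv => by rw [e2 v hv], ← ih, Dl, e3]
    ring

end Poly

end Pool.Agent.MP_646035_al.H91

end

-- part MP_646035_al.H91.Conn
section

/-!
Connected sets of atoms: decomposition into components and the tree bound.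
-/

namespace Pool.Agent.MP_646035_al.H91

open Finset

variable {Pt At : Type*} [DecidableEq Pt] [DecidableEq At]

/-- The support of a set of atoms. -/
def SS (supp : At → Finset Pt) (C : Finset At) : Finset Pt := C.biUnion supp

/-- `C` is nonempty and cannot be split into two parts with disjoint supports. -/
def Conn (supp : At → Finset Pt) (C : Finset At) : Prop :=
  C.Nonempty ∧ ∀ D ⊆ C, D.Nonempty → D ≠ C → ¬ Disjoint (SS supp D) (SS supp (C \ D))

open Classical in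
/-- The connected subsets of `𝒜`. -/
noncomputable def conns (supp : At → Finset Pt) (𝒜 : Finset At) : Finset (Finset At) :=
  𝒜.powerset.filter (Conn supp)

variable {supp : At → Finset Pt}

lemma mem_conns {𝒜 C : Finset At} : C ∈ conns supp 𝒜 ↔ C ⊆ 𝒜 ∧ Conn supp C := by
  classical
  simp [conns]

omit [DecidableEq At] in
lemma mem_SS {C : Finset At} {q : Pt} : q ∈ SS supp C ↔ ∃ α ∈ C, q ∈ supp α := by
  simp [SS]

omit [DecidableEq At] in
lemma conn_disj_iff {A B : Finset At} : Disjoint (SS supp A) (SS supp B) ↔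
    ∀ α ∈ A, ∀ β ∈ B, Disjoint (supp α) (supp β) := by
  simp only [SS, disjoint_biUnion_left, disjoint_biUnion_right]
  exact ⟨fun h α hα β hβ => h β hβ α hα, fun h β hβ α hα => h α hα β hβ⟩

lemma conn_union_bound {X I : Type*} (S : Finset X) (T : Finset I) (R : I → X → Prop)
    [∀ i x, Decidable (R i x)] (P : X → Prop) [DecidablePred P] (f : X → ℝ)
    (hf : ∀ x ∈ S, 0 ≤ f x) (hP : ∀ x ∈ S, P x → ∃ i ∈ T, R i x) :
    ∑ x ∈ S with P x, f x ≤ ∑ i ∈ T, ∑ x ∈ S with R i x, f x := by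
  simp only [sum_filter]
  rw [sum_comm]
  refine sum_le_sum fun x hx => ?_
  have h0 : ∀ i ∈ T, 0 ≤ (if R i x then f x else 0) := fun i _ => by
    split_ifs
    · exact hf x hx
    · exact le_rfl
  split_ifs with h
  · obtain ⟨i, hi, hR⟩ := hP x hx h
    have := single_le_sum h0 hi
    simpa only [if_pos hR] using this
  · exact sum_nonneg h0

lemma conn_singleton (α : At) : Conn supp {α} := by
  refine ⟨singleton_nonempty α, fun D hD hne hDC => ?_⟩
  rcases subset_singleton_iff.mp hD with h | h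
  · exact absurd h hne.ne_empty
  · exact absurd h hDC

/-- Induction along a connected set. -/
lemma Conn.induction {C : Finset At} (hC : Conn supp C) (Pr : At → Prop) {α₀ : At}
    (h0 : α₀ ∈ C) (hp : Pr α₀)
    (step : ∀ α ∈ C, ∀ β ∈ C, Pr α → ¬ Disjoint (supp α) (supp β) → Pr β) :
    ∀ α ∈ C, Pr α := by
  classical
  by_contra hcon
  have hne : C.filter Pr ≠ C := fun h => hcon (filter_eq_self.mp h)
  apply hC.2 _ (filter_subset Pr C) ⟨α₀, mem_filter.mpr ⟨h0, hp⟩⟩ hne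
  rw [conn_disj_iff]
  intro α hα β hβ
  by_contra hd
  rw [mem_filter] at hα
  rw [mem_sdiff, mem_filter] at hβ
  exact hβ.2 ⟨hβ.1, step α hα.1 β hβ.1 hα.2 hd⟩

/-- Converse of `Conn.induction`. -/
lemma conn_of_induction {C : Finset At} {α₀ : At} (h0 : α₀ ∈ C)
    (h : ∀ D ⊆ C, α₀ ∈ D → (∀ α ∈ D, ∀ β ∈ C, ¬ Disjoint (supp α) (supp β) → β ∈ D) → D = C) :
    Conn supp C := by
  refine ⟨⟨α₀, h0⟩, fun D hD hne hDC hdis => ?_⟩
  rw [conn_disj_iff] at hdis
  by_cases hm : α₀ ∈ D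
  · refine hDC (h D hD hm fun α hα β hβ hd => ?_)
    by_contra hβD
    exact hd (hdis α hα β (mem_sdiff.mpr ⟨hβ, hβD⟩))
  · have := h (C \ D) sdiff_subset (mem_sdiff.mpr ⟨h0, hm⟩) fun α hα β hβ hd => by
      refine mem_sdiff.mpr ⟨hβ, fun hβD => hd (hdis β hβD α hα).symm⟩
    obtain ⟨γ, hγ⟩ := hne
    have h2 : γ ∈ C \ D := by rw [this]; exact hD hγ
    exact (mem_sdiff.mp h2).2 hγ

lemma Conn.image {Pt' At' : Type*} [DecidableEq Pt'] [DecidableEq At'] {supp' : At' → Finset Pt'}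
    {C : Finset At'} (hC : Conn supp' C) (f : At' → At)
    (hf : ∀ α ∈ C, ∀ β ∈ C, ¬ Disjoint (supp' α) (supp' β) →
      ¬ Disjoint (supp (f α)) (supp (f β))) :
    Conn supp (C.image f) := by
  obtain ⟨α₀, h0⟩ := hC.1
  refine conn_of_induction (mem_image_of_mem f h0) fun D hD hm hcl => ?_
  refine Subset.antisymm hD (image_subset_iff.mpr ?_)
  exact hC.induction (fun α => f α ∈ D) h0 hm fun α hα β hβ hp hd =>
    hcl _ hp _ (mem_image_of_mem f hβ) (hf α hα β hβ hd)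

/-- Every atom of `C` lies in a connected part of `C` whose support avoids the rest. -/
lemma exists_component {C : Finset At} {α : At} (hα : α ∈ C) :
    ∃ D ⊆ C, α ∈ D ∧ Conn supp D ∧ Disjoint (SS supp D) (SS supp (C \ D)) := by
  classical
  obtain ⟨D, hD, hmin⟩ := exists_min_image
    (C.powerset.filter fun D => α ∈ D ∧ Disjoint (SS supp D) (SS supp (C \ D))) card
    ⟨C, by simp [hα, SS]⟩
  rw [mem_filter, mem_powerset] at hD
  obtain ⟨hDC, hαD, hdis⟩ := hD
  refine ⟨D, hDC, hαD, conn_of_induction hαD fun E hE hαE hcl => ?_, hdis⟩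
  refine eq_of_subset_of_card_le hE (hmin E ?_)
  rw [mem_filter, mem_powerset]
  refine ⟨hE.trans hDC, hαE, conn_disj_iff.mpr fun γ hγ β hβ => ?_⟩
  rw [mem_sdiff] at hβ
  by_cases hβD : β ∈ D
  · by_contra hd
    exact hβ.2 (hcl γ hγ β hβD hd)
  · exact conn_disj_iff.mp hdis γ (hE hγ) β (mem_sdiff.mpr ⟨hβ.1, hβD⟩)

/-- The components of `C`. -/
noncomputable def connComps (supp : At → Finset Pt) (C : Finset At) : Finset (Finset At) :=
  (conns supp C).filter fun D => Disjoint (SS supp D) (SS supp (C \ D))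

lemma conn_mem_comps {C D : Finset At} : D ∈ connComps supp C ↔
    D ⊆ C ∧ Conn supp D ∧ Disjoint (SS supp D) (SS supp (C \ D)) := by
  simp [connComps, mem_conns, and_assoc]

lemma conn_comps_union (C : Finset At) : (connComps supp C).biUnion id = C := by
  ext α
  simp only [mem_biUnion, id]
  constructor
  · rintro ⟨D, hD, hα⟩
    exact (conn_mem_comps.mp hD).1 hα
  · intro hα
    obtain ⟨D, h1, h2, h3, h4⟩ := exists_component (supp := supp) hα
    exact ⟨D, conn_mem_comps.mpr ⟨h1, h3, h4⟩, h2⟩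

lemma conn_comps_closed {C D : Finset At} (hD : D ∈ connComps supp C) {α β : At} (hα : α ∈ D)
    (hβ : β ∈ C) (hd : ¬ Disjoint (supp α) (supp β)) : β ∈ D := by
  by_contra h
  exact hd (conn_disj_iff.mp (conn_mem_comps.mp hD).2.2 α hα β (mem_sdiff.mpr ⟨hβ, h⟩))

lemma conn_comps_eq {C D D' : Finset At} (hD : D ∈ connComps supp C) (hD' : D' ∈ connComps supp C)
    {β : At} (h : β ∈ D) (h' : β ∈ D') : D = D' := by
  have key : ∀ {D D' : Finset At}, D ∈ connComps supp C → D' ∈ connComps supp C → β ∈ D →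
      β ∈ D' → D ⊆ D' := by
    intro D D' hD hD' h h'
    exact (conn_mem_comps.mp hD).2.1.induction (fun γ => γ ∈ D') h h' fun γ _ δ hδ hp hd =>
      conn_comps_closed hD' hp ((conn_mem_comps.mp hD).1 hδ) hd
  exact Subset.antisymm (key hD hD' h h') (key hD' hD h' h)

lemma conn_comps_compat (C : Finset At) : Compat (SS supp) (connComps supp C) := by
  intro D hD D' hD' hne
  rw [conn_disj_iff]
  intro α hα β hβ
  by_contra hd
  exact hne (conn_comps_eq hD hD'
    (conn_comps_closed hD hα ((conn_mem_comps.mp hD').1 hβ) hd) hβ)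

lemma conn_comps_prod (C : Finset At) (ω : At → ℝ) :
    ∏ β ∈ C, ω β = ∏ D ∈ connComps supp C, ∏ β ∈ D, ω β := by
  conv_lhs => rw [← conn_comps_union (supp := supp) C]
  rw [prod_biUnion]
  · rfl
  · intro D hD D' hD' hne
    exact disjoint_left.mpr fun β h h' => hne (conn_comps_eq hD hD' h h')

lemma conn_comps_of_family {F : Finset (Finset At)} (hF : ∀ D ∈ F, Conn supp D)
    (hc : Compat (SS supp) F) (hne : ∀ D ∈ F, ∀ α ∈ D, (supp α).Nonempty) :
    connComps supp (F.biUnion id) = F := by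
  have h1 : F ⊆ connComps supp (F.biUnion id) := by
    intro D hD
    refine conn_mem_comps.mpr ⟨subset_biUnion_of_mem id hD, hF D hD,
      conn_disj_iff.mpr fun α hα β hβ => ?_⟩
    rw [mem_sdiff, mem_biUnion] at hβ
    obtain ⟨⟨D', hD', hβ'⟩, hβD⟩ := hβ
    have hDD : D ≠ D' := by
      rintro rfl
      exact hβD hβ'
    exact conn_disj_iff.mp (hc D hD D' hD' hDD) α hα β hβ'
  refine Subset.antisymm (fun D hD => ?_) h1
  obtain ⟨α, hα⟩ := (conn_mem_comps.mp hD).2.1.1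
  obtain ⟨D', hD', hα'⟩ := mem_biUnion.mp ((conn_mem_comps.mp hD).1 hα)
  rw [conn_comps_eq hD (h1 hD') hα hα']
  exact hD'

lemma conn_w_family (𝒜 : Finset At) (w : Finset At → ℝ) (h0 : w ∅ = 1)
    (hmul : ∀ C₁ ⊆ 𝒜, ∀ C₂ ⊆ 𝒜, Disjoint (SS supp C₁) (SS supp C₂) →
      w (C₁ ∪ C₂) = w C₁ * w C₂) (F : Finset (Finset At)) (hF : ∀ D ∈ F, D ⊆ 𝒜)
    (hc : Compat (SS supp) F) : w (F.biUnion id) = ∏ D ∈ F, w D := by
  induction F using Finset.induction_on with
  | empty => simpa using h0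
  | insert D F hD ih =>
    rw [biUnion_insert, prod_insert hD, ← ih (fun E hE => hF E (mem_insert_of_mem hE))
      (fun E hE E' hE' => hc E (mem_insert_of_mem hE) E' (mem_insert_of_mem hE'))]
    refine hmul _ (hF D (mem_insert_self _ _)) _
      (biUnion_subset.mpr fun E hE => hF E (mem_insert_of_mem hE)) ?_
    rw [conn_disj_iff]
    intro α hα β hβ
    obtain ⟨E, hE, hβE⟩ := mem_biUnion.mp hβ
    have hDE : D ≠ E := by
      rintro rfl
      exact hD hE
    exact conn_disj_iff.mp (hc D (mem_insert_self _ _) E (mem_insert_of_mem hE) hDE) α hα β hβE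

/-- A multiplicative weight summed over all subsets is the partition function of the connected
subsets.  (Strong induction on `𝒜`: pick `α ∈ 𝒜`, sort the subsets containing `α` by the
component of `α` and the compatible families by their member containing `α`; or show that
`F ↦ F.biUnion id` is a bijection from compatible families onto the subsets.) -/
theorem sum_eq_Xi (𝒜 : Finset At) (hne : ∀ α ∈ 𝒜, (supp α).Nonempty) (w : Finset At → ℝ)
    (h0 : w ∅ = 1)
    (hmul : ∀ C₁ ⊆ 𝒜, ∀ C₂ ⊆ 𝒜, Disjoint (SS supp C₁) (SS supp C₂) →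
      w (C₁ ∪ C₂) = w C₁ * w C₂) :
    ∑ C ∈ 𝒜.powerset, w C = Xi (SS supp) w (conns supp 𝒜) := by
  classical
  unfold Xi
  refine sum_nbij' (connComps supp) (fun F => F.biUnion id) ?_ ?_ ?_ ?_ ?_
  · intro C hC
    rw [mem_powerset] at hC
    rw [mem_filter, mem_powerset]
    exact ⟨fun D hD => mem_conns.mpr ⟨(conn_mem_comps.mp hD).1.trans hC,
      (conn_mem_comps.mp hD).2.1⟩, conn_comps_compat C⟩
  · intro F hF
    rw [mem_filter, mem_powerset] at hF
    exact mem_powerset.mpr (biUnion_subset.mpr fun D hD => (mem_conns.mp (hF.1 hD)).1)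
  · intro C _
    exact conn_comps_union C
  · intro F hF
    rw [mem_filter, mem_powerset] at hF
    exact conn_comps_of_family (fun D hD => (mem_conns.mp (hF.1 hD)).2) hF.2
      fun D hD α hα => hne α ((mem_conns.mp (hF.1 hD)).1 hα)
  · intro C hC
    rw [mem_powerset] at hC
    rw [← conn_w_family 𝒜 w h0 hmul _ (fun D hD => (conn_mem_comps.mp hD).1.trans hC)
      (conn_comps_compat C), conn_comps_union]

/-- Tree bound.  Strong induction on `𝒜`: the components of `C.erase α` all contain an atom of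
`𝒜.erase α` meeting `supp α`, so the sum is at most
`ω α * ∏ β, (1 + ∑ over connected C' ⊆ 𝒜.erase α containing β)`, `β` meeting `supp α`. -/
theorem tree_bound (𝒜 : Finset At) (ω g : At → ℝ) (hω : ∀ α ∈ 𝒜, 0 ≤ ω α)
    (hg : ∀ α ∈ 𝒜, ∑ β ∈ 𝒜 with ¬ Disjoint (supp α) (supp β), ω β * Real.exp (g β) ≤ g α)
    {α : At} (hα : α ∈ 𝒜) :
    ∑ C ∈ conns supp 𝒜 with α ∈ C, ∏ β ∈ C, ω β ≤ ω α * Real.exp (g α) := by
  classical
  induction 𝒜 using Finset.strongInduction generalizing α with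
  | H 𝒜 ih =>
  set 𝒜' := 𝒜.erase α with h𝒜'
  have hsub : 𝒜' ⊆ 𝒜 := erase_subset _ _
  have hω' : ∀ β ∈ 𝒜', 0 ≤ ω β := fun β hβ => hω β (hsub hβ)
  have hmono : ∀ γ, ∑ β ∈ 𝒜' with ¬ Disjoint (supp γ) (supp β), ω β * Real.exp (g β) ≤
      ∑ β ∈ 𝒜 with ¬ Disjoint (supp γ) (supp β), ω β * Real.exp (g β) := fun γ =>
    sum_le_sum_of_subset_of_nonneg (filter_subset_filter _ hsub) fun β hβ _ =>
      mul_nonneg (hω β (mem_filter.mp hβ).1) (Real.exp_pos _).le
  have ih' : ∀ β ∈ 𝒜', ∑ C ∈ conns supp 𝒜' with β ∈ C, ∏ γ ∈ C, ω γ ≤ ω β * Real.exp (g β) :=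
    fun β hβ => ih 𝒜' (erase_ssubset hα) hω' (fun γ hγ => (hmono γ).trans (hg γ (hsub hγ))) hβ
  have hW : ∀ D ∈ conns supp 𝒜', 0 ≤ ∏ γ ∈ D, ω γ := fun D hD =>
    prod_nonneg fun γ hγ => hω' γ ((mem_conns.mp hD).1 hγ)
  set N := 𝒜'.filter fun β => ¬ Disjoint (supp α) (supp β) with hN
  set T := (conns supp 𝒜').filter fun D => ∃ β ∈ N, β ∈ D with hT
  have hTsum : ∑ D ∈ T, ∏ γ ∈ D, ω γ ≤ g α := by
    refine (conn_union_bound (conns supp 𝒜') N (fun β D => β ∈ D) _ _ hW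
      fun D _ h => h).trans ?_
    refine (sum_le_sum fun β hβ => ih' β (mem_filter.mp hβ).1).trans ?_
    exact (hmono α).trans (hg α hα)
  have hexp : ∑ F ∈ T.powerset, ∏ D ∈ F, ∏ γ ∈ D, ω γ ≤ Real.exp (g α) := by
    rw [← prod_one_add]
    refine le_trans ?_ (Real.exp_le_exp.mpr hTsum)
    rw [Real.exp_sum]
    refine prod_le_prod (fun D hD => ?_) fun D _ => ?_
    · have := hW D (mem_filter.mp hD).1
      linarith
    · have := Real.add_one_le_exp (∏ γ ∈ D, ω γ)
      linarith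
  have h1 : ∑ C ∈ conns supp 𝒜 with α ∈ C, ∏ β ∈ C, ω β =
      ω α * ∑ C ∈ conns supp 𝒜 with α ∈ C,
        ∏ D ∈ connComps supp (C.erase α), ∏ γ ∈ D, ω γ := by
    rw [mul_sum]
    refine sum_congr rfl fun C hC => ?_
    rw [← conn_comps_prod, mul_prod_erase _ _ (mem_filter.mp hC).2]
  rw [h1]
  refine mul_le_mul_of_nonneg_left (le_trans ?_ hexp) (hω α hα)
  have hinj : Set.InjOn (fun C : Finset At => connComps supp (C.erase α))
      ((conns supp 𝒜).filter fun C => α ∈ C : Finset (Finset At)) := by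
    intro C hC C' hC' h
    have h2 : C.erase α = C'.erase α := by
      rw [← conn_comps_union (supp := supp) (C.erase α), ← conn_comps_union (supp := supp)
        (C'.erase α)]
      exact congrArg (fun F : Finset (Finset At) => F.biUnion id) h
    rw [← insert_erase (mem_filter.mp (mem_coe.mp hC)).2, h2,
      insert_erase (mem_filter.mp (mem_coe.mp hC')).2]
  rw [← sum_image (f := fun F : Finset (Finset At) => ∏ D ∈ F, ∏ γ ∈ D, ω γ) hinj]
  refine sum_le_sum_of_subset_of_nonneg ?_ fun F hF _ =>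
    prod_nonneg fun D hD => hW D (mem_filter.mp (mem_powerset.mp hF hD)).1
  intro F hF
  obtain ⟨C, hC, rfl⟩ := mem_image.mp hF
  rw [mem_filter, mem_conns] at hC
  obtain ⟨⟨hC𝒜, hCc⟩, hαC⟩ := hC
  refine mem_powerset.mpr fun D hD => ?_
  obtain ⟨hD1, hD2, hD3⟩ := conn_mem_comps.mp hD
  have hD𝒜 : D ⊆ 𝒜' := hD1.trans (erase_subset_erase α hC𝒜)
  refine mem_filter.mpr ⟨mem_conns.mpr ⟨hD𝒜, hD2⟩, ?_⟩
  have hαD : α ∉ D := fun h => (notMem_erase α C) (hD1 h)
  have hnd := hCc.2 D (hD1.trans (erase_subset _ _)) hD2.1 (fun h => hαD (h ▸ hαC))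
  rw [conn_disj_iff] at hnd hD3
  push Not at hnd
  obtain ⟨γ, hγ, β, hβ, hd⟩ := hnd
  rw [mem_sdiff] at hβ
  have hβα : β = α := by
    by_contra hne
    exact hd (hD3 γ hγ β (mem_sdiff.mpr ⟨mem_erase.mpr ⟨hne, hβ.1⟩, hβ.2⟩))
  subst hβα
  exact ⟨γ, mem_filter.mpr ⟨hD𝒜 hγ, fun h => hd h.symm⟩, hγ⟩

theorem tree_bound_pt (𝒜 : Finset At) (ω : At → ℝ) (hω : ∀ α ∈ 𝒜, 0 ≤ ω α) {s : ℝ}
    (hs : s ≤ 1)
    (hpt : ∀ q, ∑ β ∈ 𝒜 with q ∈ supp β, ω β * Real.exp (supp β).card ≤ s) (q : Pt) :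
    ∑ C ∈ conns supp 𝒜 with q ∈ SS supp C, ∏ β ∈ C, ω β ≤ s := by
  have hg : ∀ α ∈ 𝒜, ∑ β ∈ 𝒜 with ¬ Disjoint (supp α) (supp β),
      ω β * Real.exp (supp β).card ≤ ((supp α).card : ℝ) := by
    intro α _
    refine (conn_union_bound 𝒜 (supp α) (fun p β => p ∈ supp β) _ _
      (fun β hβ => mul_nonneg (hω β hβ) (Real.exp_pos _).le)
      fun β _ h => not_disjoint_iff.mp h).trans ?_
    refine (sum_le_sum fun p _ => (hpt p).trans hs).trans ?_
    simp
  refine (conn_union_bound (conns supp 𝒜) (𝒜.filter fun β => q ∈ supp β) (fun β C => β ∈ C) _ _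
    (fun C hC => prod_nonneg fun γ hγ => hω γ ((mem_conns.mp hC).1 hγ)) fun C hC h => ?_).trans ?_
  · obtain ⟨β, hβ, hq⟩ := mem_SS.mp h
    exact ⟨β, mem_filter.mpr ⟨(mem_conns.mp hC).1 hβ, hq⟩, hβ⟩
  · refine le_trans (sum_le_sum fun β hβ => ?_) (hpt q)
    exact tree_bound 𝒜 ω (fun β => ((supp β).card : ℝ)) hω hg (mem_filter.mp hβ).1

end Pool.Agent.MP_646035_al.H91

end

-- part MP_646035_al.H91.Model
section

/-!
The digit model.  Sites form an abelian group `Q` with two directions `e 0` (carries) and `e 1`.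
A site has a type `σ`, a number `ν` of strong generators and three digits.
-/

namespace Pool.Agent.MP_646035_al.H91

open Finset

/-- Parameters: lamp range `h`, type digit range `B`, scale `β` (the trace is `β ^ 3`). -/
structure Par where
  h : ℕ
  B : ℕ
  β : ℕ

structure Par.Ok (P : Par) : Prop where
  h2 : 2 ≤ P.h
  hB : P.h ≤ P.B
  hβ : 2000 * (P.B + 1) ≤ P.β

def sg (b : Bool) : ℤ := if b then 1 else -1

/-- Type, number of strong generators, digits (also used for moves: the digits are carries). -/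
abbrev St := Bool × ℕ × (Fin 3 → ℤ)

/-- Cost of a lamp digit `z` served by two sites. -/
def lampC (P : Par) (σ σ' : Bool) (ν ν' : ℕ) (z : ℤ) : ℕ :=
  if ν = 0 ∧ ν' = 0 ∧ σ ≠ σ' ∧ z = -(sg σ * (2 * P.h - 1)) then 1
  else (z.natAbs - 2 * P.h * (1 + ν + ν')) ⌈/⌉ (40 * P.h)

/-- Cost of the type digit. -/
def uC (P : Par) (σ : Bool) (ν : ℕ) (z : ℤ) : ℕ :=
  ((z - sg σ * (P.B + 1)).natAbs - (P.B + (4 * P.B + 2) * ν)) ⌈/⌉ (20 * (4 * P.B + 2))

def InBox (P : Par) (s : St) : Prop := s.2.1 ≤ 6 ∧ ∀ l, |s.2.2 l| ≤ 2 * P.β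

noncomputable def box (P : Par) : Finset (ℕ × (Fin 3 → ℤ)) :=
  range 7 ×ˢ Fintype.piFinset fun _ => Icc (-(2 * P.β : ℤ)) (2 * P.β)

lemma mem_box {P : Par} {σ : Bool} {s : ℕ × (Fin 3 → ℤ)} : s ∈ box P ↔ InBox P (σ, s) := by
  simp [box, InBox, abs_le, Nat.lt_succ_iff]

/-- The sign symmetry (for `ε = true`). -/
def tw (ε : Bool) (s : St) : St := if ε then (!s.1, s.2.1, -s.2.2) else s

noncomputable def Par.t (P : Par) : ℝ := 1 / (8 * P.h + 1)

noncomputable def Par.Nb (P : Par) : ℝ := (2 * P.B + 1) * (4 * P.h + 1 / 2) ^ 2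

variable {Q : Type*} [AddCommGroup Q] [DecidableEq Q]

/-- Cost of the site `j`. -/
def E (P : Par) (e : Fin 2 → Q) (c : Q → St) (j : Q) : ℕ :=
  (c j).2.1 + lampC P (c j).1 (c (j - e 0)).1 (c j).2.1 (c (j - e 0)).2.1 ((c j).2.2 0)
    + lampC P (c j).1 (c (j - e 1)).1 (c j).2.1 (c (j - e 1)).2.1 ((c j).2.2 1)
    + uC P (c j).1 (c j).2.1 ((c j).2.2 2)

def En (P : Par) (e : Fin 2 → Q) (X : Finset Q) (c : Q → St) : ℕ := ∑ j ∈ X, E P e c j

/-- The change of the digits caused by the carries `κ`. -/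
def carry (P : Par) (e : Fin 2 → Q) (κ : Q → Fin 3 → ℤ) (j : Q) : Fin 3 → ℤ
  | 0 => P.β * κ j 0 - κ (j - e 0) 2 - κ (j + e 0) 2
  | 1 => P.β * κ j 1 - κ j 0
  | 2 => P.β * κ j 2 - κ j 1

omit [DecidableEq Q] in
@[simp] lemma carry_zero (P : Par) (e : Fin 2 → Q) (κ : Q → Fin 3 → ℤ) (j : Q) :
    carry P e κ j 0 = P.β * κ j 0 - κ (j - e 0) 2 - κ (j + e 0) 2 := rfl

omit [DecidableEq Q] in
@[simp] lemma carry_one (P : Par) (e : Fin 2 → Q) (κ : Q → Fin 3 → ℤ) (j : Q) :
    carry P e κ j 1 = P.β * κ j 1 - κ j 0 := rfl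

omit [DecidableEq Q] in
@[simp] lemma carry_two (P : Par) (e : Fin 2 → Q) (κ : Q → Fin 3 → ℤ) (j : Q) :
    carry P e κ j 2 = P.β * κ j 2 - κ j 1 := rfl

/-- The result of the move `m`. -/
def app (P : Par) (e : Fin 2 → Q) (c m : Q → St) : Q → St :=
  fun j => ((m j).1, (m j).2.1, (c j).2.2 + carry P e (fun i => (m i).2.2) j)

/-- The trivial move. -/
def idm (c : Q → St) : Q → St := fun j => ((c j).1, (c j).2.1, 0)

/-- Moves supported in `V` whose result is in the box on `X`. -/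
def Moves (P : Par) (e : Fin 2 → Q) (X V : Finset Q) (c : Q → St) : Set (Q → St) :=
  {m | (∀ j ∉ V, m j = idm c j) ∧ ∀ j ∈ X, InBox P (app P e c m j)}

open Classical in
/-- One over the number of optimal moves if `c` is optimal, else zero. -/
noncomputable def G (P : Par) (e : Fin 2 → Q) (X V : Finset Q) (c : Q → St) : ℝ :=
  if ∀ m ∈ Moves P e X V c, En P e X c ≤ En P e X (app P e c m) then
    1 / ({m ∈ Moves P e X V c | En P e X (app P e c m) = En P e X c}.ncard : ℝ)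
  else 0

/-- The Moebius transform of `G` in the support of the moves. -/
noncomputable def Kt (P : Par) (e : Fin 2 → Q) (X Y : Finset Q) (c : Q → St) : ℝ :=
  ∑ V ∈ Y.powerset, (-1) ^ (Y \ V).card * G P e X V c

/-- The sites whose cost depends on a move at `y`. -/
def star (e : Fin 2 → Q) (y : Q) : Finset Q := {y, y + e 0, y + e 1, y - e 0}

/-- The sites whose type enters the cost at `j`. -/
def tri (e : Fin 2 → Q) (j : Q) : Finset Q := {j, j - e 0, j - e 1}

def fat (e : Fin 2 → Q) (X : Finset Q) : Finset Q :=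
  X.biUnion fun j => {j, j + e 0, j - e 0, j + e 1, j - e 1}

def mk (σ : Q → Bool) (s : Q → ℕ × (Fin 3 → ℤ)) : Q → St := fun j => (σ j, s j)

def Bad (P : Par) (e : Fin 2 → Q) (X : Finset Q) (c : Q → St) : Finset Q :=
  X.filter fun j => E P e c j ≠ 0

/-- The weight of the defect region `X` with core `C`, given the types. -/
noncomputable def W (P : Par) (e : Fin 2 → Q) (x : ℝ) (X C : Finset Q) (σ : Q → Bool) : ℝ :=
  ∑ s ∈ asg 0 X (box P), ∑ Y ∈ C.powerset,
    if Bad P e X (mk σ s) ⊆ C ∧ X ⊆ (Y ∪ Bad P e X (mk σ s)).biUnion (star e) then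
      x ^ En P e X (mk σ s) * Kt P e X Y (mk σ s)
    else 0

open Classical in
/-- The sites of `X` whose star inside `Λ` lies in `X`. -/
noncomputable def Core (e : Fin 2 → Q) (Λ : Set Q) (X : Finset Q) : Finset Q :=
  X.filter fun y => ∀ p ∈ star e y, p ∈ Λ → p ∈ X

/-- The partition function with given types. -/
noncomputable def Zs (P : Par) (e : Fin 2 → Q) (x : ℝ) (Λ : Finset Q) (σ : Q → Bool) : ℝ :=
  ∑ s ∈ asg 0 Λ (box P), x ^ En P e Λ (mk σ s) * G P e Λ Λ (mk σ s)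

/-- The partition function. -/
noncomputable def Z (P : Par) (e : Fin 2 → Q) (x : ℝ) (Λ : Finset Q) : ℝ :=
  ∑ σ ∈ asg false (SS (tri e) Λ) univ, Zs P e x Λ σ

/-- The product of the two signs at the ends of a bond. -/
def chi (e : Fin 2 → Q) (σ : Q → Bool) (b : Q × Fin 2) : ℝ :=
  if σ b.1 = σ (b.1 - e b.2) then 1 else -1

/-- Bond expansion coefficient of the normalised weight of a defect region. -/
noncomputable def rc (P : Par) (e : Fin 2 → Q) (x : ℝ) (X C : Finset Q)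
    (D : Finset (Q × Fin 2)) : ℝ :=
  (1 / 2) ^ (2 * X.card + 1) *
    ∑ σ ∈ asg false (SS (tri e) X) univ, W P e x X C σ / P.Nb ^ X.card * ∏ b ∈ D, chi e σ b

noncomputable def qc (P : Par) (e : Fin 2 → Q) (x θ : ℝ) (Λ : Set Q) (X : Finset Q)
    (D : Finset (Q × Fin 2)) : ℝ :=
  rc P e x X (Core e Λ X) D + θ ^ X.card * P.t ^ D.card

/-- Blobs, ghosts and bonds. -/
abbrev Atom (Q : Type*) := Finset Q ⊕ Finset Q ⊕ (Q × Fin 2)

/-- Supports of atoms: blobs live on both layers, ghosts on the upper one, bonds on the lower. -/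
def asupp (e : Fin 2 → Q) : Atom Q → Finset (Q × Bool)
  | .inl X => SS (tri e) X ×ˢ univ
  | .inr (.inl X) => SS (tri e) X ×ˢ {true}
  | .inr (.inr b) => {(b.1, false), (b.1 - e b.2, false)}

/-- Every site is an end of an even number of bonds of `D`. -/
def Bal (e : Fin 2 → Q) (D : Finset (Q × Fin 2)) : Prop :=
  ∀ v, Even ((D.filter fun b => b.1 = v).card + (D.filter fun b => b.1 - e b.2 = v).card)

open Classical in
/-- The weight of a set of atoms. -/
noncomputable def wt (P : Par) (e : Fin 2 → Q) (x θ : ℝ) (Λ : Set Q) (C : Finset (Atom Q)) : ℝ :=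
  if Compat (SS (tri e)) C.toLeft ∧ Compat (SS (tri e)) C.toRight.toLeft ∧
      (∀ X ∈ C.toLeft, ∀ X' ∈ C.toRight.toLeft, Disjoint (SS (tri e) X) (SS (tri e) X')) ∧
      Bal e C.toRight.toRight then
    (∏ X ∈ C.toLeft, qc P e x θ Λ X (C.toRight.toRight.filter fun b => b.1 ∈ X)) *
      (∏ X ∈ C.toRight.toLeft, -θ ^ X.card) *
      P.t ^ (C.toRight.toRight.filter fun b => ∀ X ∈ C.toLeft, b.1 ∉ X).card
  else 0

/-- The atoms owned by the sites of `Λ`. -/
noncomputable def atoms (e : Fin 2 → Q) (Λ : Finset Q) : Finset (Atom Q) :=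
  (conns (tri e) Λ).disjSum ((conns (tri e) Λ).disjSum (Λ ×ˢ univ))

def ValidAtom (e : Fin 2 → Q) : Atom Q → Prop
  | .inl X => Conn (tri e) X
  | .inr (.inl X) => Conn (tri e) X
  | .inr (.inr _) => True

/-- Polymers: connected sets of valid atoms. -/
def Valid (e : Fin 2 → Q) (C : Finset (Atom Q)) : Prop :=
  Conn (asupp e) C ∧ ∀ α ∈ C, ValidAtom e α

/-- The polymers all of whose points lie over `A`. -/
noncomputable def polys (e : Fin 2 → Q) (A : Finset Q) : Finset (Finset (Atom Q)) :=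
  above (SS (asupp e)) Prod.fst (conns (asupp e) (atoms e A)) A

def asz : Atom Q → ℕ
  | .inl X => 12 * X.card
  | .inr (.inl X) => 12 * X.card
  | .inr (.inr _) => 1

/-- A height function along the carry direction. -/
structure Dir (e : Fin 2 → Q) : Prop where
  ht : ∃ ht : Q →+ ℤ, ht (e 0) = 1
  ne : e 1 ≠ 0

/-- Maps of sites that respect the two directions. -/
def Mor {Q' : Type*} [AddCommGroup Q'] (e' : Fin 2 → Q') (e : Fin 2 → Q) (π : Q' → Q) : Prop :=
  ∀ p k, π (p + e' k) = π p + e k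

omit [DecidableEq Q] in
lemma Mor.sub {Q' : Type*} [AddCommGroup Q'] {e' : Fin 2 → Q'} {e : Fin 2 → Q} {π : Q' → Q}
    (h : Mor e' e π) (p : Q') (k : Fin 2) : π (p - e' k) = π p - e k := by
  have := h (p - e' k) k
  rw [sub_add_cancel] at this
  rw [this, add_sub_cancel_right]

def mapAtom {Q' : Type*} (π : Q' → Q) : Atom Q' → Atom Q :=
  Sum.map (image π) (Sum.map (image π) (Prod.map π id))

def mapPoly {Q' : Type*} (π : Q' → Q) (C : Finset (Atom Q')) : Finset (Atom Q) :=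
  C.image (mapAtom π)

/-- The bound on the coefficients `rc` that makes the expansion converge. -/
def RB (P : Par) (e : Fin 2 → Q) (x θ : ℝ) : Prop :=
  ∀ X C : Finset Q, C ⊆ X → ∀ D, |rc P e x X C D| ≤ (θ * P.t ^ 2) ^ X.card

omit [DecidableEq Q] in
lemma app_idm (P : Par) (e : Fin 2 → Q) (c : Q → St) : app P e c (idm c) = c := by
  funext j
  refine Prod.ext rfl (Prod.ext rfl ?_)
  funext l
  fin_cases l <;> simp [app, idm]

end Pool.Agent.MP_646035_al.H91

end

-- part MP_646035_al.H91.Cost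
section

/-!
Elementary facts on the local costs.
-/

namespace Pool.Agent.MP_646035_al.H91

open Finset

variable {P : Par}

lemma sg_not (σ : Bool) : sg (!σ) = -sg σ := by cases σ <;> simp [sg]

lemma sg_cases (σ : Bool) : sg σ = 1 ∨ sg σ = -1 := by cases σ <;> simp [sg]

lemma sg_ne {σ σ' : Bool} (h : σ ≠ σ') : sg σ' = -sg σ := by
  cases σ <;> cases σ' <;> simp_all [sg]

lemma sub_ceilDiv_le_iff {K : ℕ} (hK : 0 < K) (z : ℤ) (H k : ℕ) :
    (z.natAbs - H) ⌈/⌉ K ≤ k ↔ |z| ≤ H + K * k := by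
  rw [ceilDiv_le_iff_le_mul hK, tsub_le_iff_left, ← Int.natCast_natAbs]
  exact_mod_cast Iff.rfl

/-- The missing digit of a lamp between two sites of different type. -/
def Hole (P : Par) (σ σ' : Bool) (ν ν' : ℕ) (z : ℤ) : Prop :=
  ν = 0 ∧ ν' = 0 ∧ σ ≠ σ' ∧ z = -(sg σ * (2 * P.h - 1))

lemma lampC_le_iff (hP : P.Ok) (σ σ' : Bool) (ν ν' : ℕ) (z : ℤ) (k : ℕ) :
    lampC P σ σ' ν ν' z ≤ k ↔
      |z| ≤ 2 * P.h * (1 + ν + ν') + 40 * P.h * k ∧ (k = 0 → ¬ Hole P σ σ' ν ν' z) := by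
  have h2 := hP.h2
  unfold lampC Hole
  split_ifs with hh
  · obtain ⟨rfl, rfl, hne, rfl⟩ := hh
    have : |-(sg σ * (2 * (P.h : ℤ) - 1))| = 2 * P.h - 1 := by
      rw [abs_neg, abs_mul, abs_of_nonneg (show (0 : ℤ) ≤ 2 * P.h - 1 by omega)]
      rcases sg_cases σ with h | h <;> simp [h]
    rw [this]
    constructor
    · intro hk
      refine ⟨?_, by omega⟩
      have : (0 : ℤ) ≤ 40 * P.h * k := by positivity
      push_cast
      omega
    · rintro ⟨-, hk⟩
      by_contra hc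
      exact hk (by omega) ⟨rfl, rfl, hne, rfl⟩
  · rw [sub_ceilDiv_le_iff (by omega)]
    push_cast
    exact ⟨fun h => ⟨h, fun _ => hh⟩, fun h => h.1⟩

lemma uC_le_iff (P : Par) (σ : Bool) (ν : ℕ) (z : ℤ) (k : ℕ) :
    uC P σ ν z ≤ k ↔
      |z - sg σ * (P.B + 1)| ≤ P.B + (4 * P.B + 2) * ν + 20 * (4 * P.B + 2) * k := by
  unfold uC
  rw [sub_ceilDiv_le_iff (by omega)]
  push_cast
  rfl

lemma lampC_abs_le (hP : P.Ok) (σ σ' : Bool) (ν ν' : ℕ) (z : ℤ) :
    |z| ≤ 2 * P.h * (1 + ν + ν') + 40 * P.h * lampC P σ σ' ν ν' z :=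
  ((lampC_le_iff hP σ σ' ν ν' z _).1 le_rfl).1

lemma uC_abs_le (P : Par) (σ : Bool) (ν : ℕ) (z : ℤ) :
    |z - sg σ * (P.B + 1)| ≤ P.B + (4 * P.B + 2) * ν + 20 * (4 * P.B + 2) * uC P σ ν z :=
  (uC_le_iff P σ ν z _).1 le_rfl

lemma lampC_not (P : Par) (σ σ' : Bool) (ν ν' : ℕ) (z : ℤ) :
    lampC P (!σ) (!σ') ν ν' (-z) = lampC P σ σ' ν ν' z := by
  unfold lampC
  rw [sg_not, Int.natAbs_neg]
  congr 1
  apply propext
  have : ((!σ) ≠ !σ') ↔ σ ≠ σ' := by cases σ <;> cases σ' <;> simp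
  rw [this, neg_mul, neg_neg, neg_eq_iff_eq_neg]

lemma uC_not (P : Par) (σ : Bool) (ν : ℕ) (z : ℤ) : uC P (!σ) ν (-z) = uC P σ ν z := by
  unfold uC
  rw [sg_not, ← Int.natAbs_neg (z - _)]
  congr 3
  ring

lemma InBox_tw (P : Par) (ε : Bool) (s : St) : InBox P (tw ε s) ↔ InBox P s := by
  cases ε <;> simp [tw, InBox]

lemma tw_tw (ε : Bool) (s : St) : tw ε (tw ε s) = s := by
  cases ε <;> simp [tw]

variable {Q : Type*} [AddCommGroup Q] [DecidableEq Q] {e : Fin 2 → Q}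

lemma mem_tri {j p : Q} : p ∈ tri e j ↔ p = j ∨ p = j - e 0 ∨ p = j - e 1 := by simp [tri]

lemma mem_star {y p : Q} : p ∈ star e y ↔ p = y ∨ p = y + e 0 ∨ p = y + e 1 ∨ p = y - e 0 := by
  simp [star]

lemma subset_minus (X : Finset Q) : X ⊆ SS (tri e) X := fun j hj =>
  mem_SS.2 ⟨j, hj, mem_tri.2 (.inl rfl)⟩

lemma sub_mem_minus {X : Finset Q} {j : Q} (hj : j ∈ X) (k : Fin 2) : j - e k ∈ SS (tri e) X :=
  mem_SS.2 ⟨j, hj, by fin_cases k <;> simp [mem_tri]⟩

lemma card_minus_le (X : Finset Q) : (SS (tri e) X).card ≤ 3 * X.card := by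
  rw [mul_comm]
  exact card_biUnion_le_card_mul _ _ _ fun j _ => card_le_three

lemma not_disjoint_tri_star {y p : Q} (hp : p ∈ star e y) : ¬ Disjoint (tri e y) (tri e p) := by
  rw [not_disjoint_iff]
  rcases mem_star.1 hp with rfl | rfl | rfl | rfl
  · exact ⟨p, by simp [mem_tri], by simp [mem_tri]⟩
  · exact ⟨y, by simp [mem_tri], by simp [mem_tri]⟩
  · exact ⟨y, by simp [mem_tri], by simp [mem_tri]⟩
  · exact ⟨y - e 0, by simp [mem_tri], by simp [mem_tri]⟩

omit [DecidableEq Q] in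
/-- The cost at `j` only depends on the digits at `j` and the types and numbers on `tri e j`. -/
lemma E_congr {c c' : Q → St} {j : Q} (h0 : c j = c' j)
    (h1 : ∀ k, (c (j - e k)).1 = (c' (j - e k)).1 ∧ (c (j - e k)).2.1 = (c' (j - e k)).2.1) :
    E P e c j = E P e c' j := by
  unfold E
  rw [h0, (h1 0).1, (h1 0).2, (h1 1).1, (h1 1).2]

end Pool.Agent.MP_646035_al.H91

end

-- part MP_646035_al.H91.GBasic
section

/-!
Locality and multiplicativity of `G` and of its Moebius transform `Kt`.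
-/

namespace Pool.Agent.MP_646035_al.H91

open Finset

variable {Q : Type*} [AddCommGroup Q] [DecidableEq Q] {P : Par} {e : Fin 2 → Q}

lemma G_nonneg (X V : Finset Q) (c : Q → St) : 0 ≤ G P e X V c := by
  unfold G
  split_ifs
  · positivity
  · exact le_rfl

lemma G_le_one (X V : Finset Q) (c : Q → St) : G P e X V c ≤ 1 := by
  unfold G
  split_ifs
  · generalize Set.ncard _ = n
    rcases Nat.eq_zero_or_pos n with rfl | hn
    · simp
    · rw [div_le_one (by exact_mod_cast hn)]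
      exact_mod_cast hn
  · exact zero_le_one

lemma idm_mem_Moves {X : Finset Q} (V : Finset Q) {c : Q → St} (hc : ∀ j ∈ X, InBox P (c j)) :
    idm c ∈ Moves P e X V c := by
  refine ⟨fun _ _ => rfl, fun j hj => ?_⟩
  rw [app_idm]
  exact hc j hj

lemma G_empty {X : Finset Q} {c : Q → St} (hc : ∀ j ∈ X, InBox P (c j)) : G P e X ∅ c = 1 := by
  have h : Moves P e X ∅ c = {idm c} := by
    refine Set.eq_singleton_iff_unique_mem.2 ⟨idm_mem_Moves ∅ hc, fun m hm => ?_⟩
    exact funext fun j => hm.1 j (notMem_empty j)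
  have h2 : {m ∈ ({idm c} : Set (Q → St)) | En P e X (app P e c m) = En P e X c} = {idm c} := by
    ext m
    simp only [Set.mem_singleton_iff, Set.mem_ofPred_eq, and_iff_left_iff_imp]
    rintro rfl
    rw [app_idm]
  unfold G
  rw [h, h2, if_pos]
  · simp
  · rintro m rfl
    rw [app_idm]

omit [DecidableEq Q] in
lemma gbasic_agree {c m m' : Q → St} {j : Q} (h0 : m j = m' j) (h1 : m (j - e 0) = m' (j - e 0))
    (h2 : m (j - e 1) = m' (j - e 1)) (h3 : m (j + e 0) = m' (j + e 0)) :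
    app P e c m j = app P e c m' j ∧ E P e (app P e c m) j = E P e (app P e c m') j := by
  have h : app P e c m j = app P e c m' j := by
    refine Prod.ext (by simp [app, h0]) (Prod.ext (by simp [app, h0]) ?_)
    funext l
    fin_cases l <;> simp [app, h0, h1, h3]
  refine ⟨h, E_congr h fun k => ?_⟩
  fin_cases k
  · simp [app, h1]
  · simp [app, h2]

lemma gbasic_not_mem {V : Finset Q} {j : Q} (hj : ∀ y ∈ V, j ∉ star e y) :
    j ∉ V ∧ j - e 0 ∉ V ∧ j - e 1 ∉ V ∧ j + e 0 ∉ V :=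
  ⟨fun h => hj _ h (by simp [mem_star]), fun h => hj _ h (by simp [mem_star]),
    fun h => hj _ h (by simp [mem_star]), fun h => hj _ h (by simp [mem_star])⟩

/-- A move supported in `V` changes neither the state nor the cost of a site outside the stars of
the sites of `V`. -/
lemma app_of_not_mem_star {V : Finset Q} {c m : Q → St} (hm : ∀ j ∉ V, m j = idm c j) {j : Q}
    (hj : ∀ y ∈ V, j ∉ star e y) :
    app P e c m j = c j ∧ E P e (app P e c m) j = E P e c j := by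
  obtain ⟨h0, h1, h2, h3⟩ := gbasic_not_mem hj
  have := gbasic_agree (P := P) (e := e) (c := c) (hm _ h0) (hm _ h1) (hm _ h2) (hm _ h3)
  rwa [app_idm] at this

lemma G_shrink {Λ X V : Finset Q} {c : Q → St} (hX : X ⊆ Λ)
    (hV : ∀ y ∈ V, ∀ p ∈ star e y, p ∈ Λ → p ∈ X) (hc : ∀ j ∈ Λ, InBox P (c j)) :
    G P e Λ V c = G P e X V c := by
  have hout : ∀ j ∈ Λ \ X, ∀ y ∈ V, j ∉ star e y := fun j hj y hy hs =>
    (mem_sdiff.1 hj).2 (hV y hy j hs (mem_sdiff.1 hj).1)
  have hM : Moves P e Λ V c = Moves P e X V c := by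
    ext m
    refine ⟨fun hm => ⟨hm.1, fun j hj => hm.2 j (hX hj)⟩, fun hm => ⟨hm.1, fun j hj => ?_⟩⟩
    by_cases hjX : j ∈ X
    · exact hm.2 j hjX
    · rw [(app_of_not_mem_star hm.1 (hout j (mem_sdiff.2 ⟨hj, hjX⟩))).1]
      exact hc j hj
  have hE0 : En P e Λ c = En P e (Λ \ X) c + En P e X c := (sum_sdiff hX).symm
  have hE : ∀ m ∈ Moves P e X V c,
      En P e Λ (app P e c m) = En P e (Λ \ X) c + En P e X (app P e c m) := fun m hm => by
    unfold En
    rw [← sum_sdiff hX]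
    congr 1
    exact sum_congr rfl fun j hj => (app_of_not_mem_star hm.1 (hout j hj)).2
  have h1 : (∀ m ∈ Moves P e X V c, En P e Λ c ≤ En P e Λ (app P e c m)) ↔
      ∀ m ∈ Moves P e X V c, En P e X c ≤ En P e X (app P e c m) :=
    forall₂_congr fun m hm => by rw [hE m hm, hE0, add_le_add_iff_left]
  have h2 : {m ∈ Moves P e X V c | En P e Λ (app P e c m) = En P e Λ c} =
      {m ∈ Moves P e X V c | En P e X (app P e c m) = En P e X c} := by
    ext m
    simp only [Set.mem_ofPred_eq]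
    exact and_congr_right fun hm => by rw [hE m hm, hE0, add_right_inj]
  unfold G
  rw [hM, h2]
  by_cases o : ∀ m ∈ Moves P e X V c, En P e X c ≤ En P e X (app P e c m)
  · rw [if_pos o, if_pos (h1.2 o)]
  · rw [if_neg o, if_neg fun h => o (h1.1 h)]

lemma gbasic_star {X₁ X₂ : Finset Q} (hd : Disjoint (SS (tri e) X₁) (SS (tri e) X₂)) {y j : Q}
    (hy : y ∈ X₁) (hj : j ∈ X₂) : j ∉ star e y := fun h =>
  not_disjoint_tri_star h (conn_disj_iff.1 hd y hy j hj)

/-- The moves on `V₁ ∪ V₂` are the pairs of moves (`V₁.piecewise m₁ m₂`), the costs add; use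
`not_disjoint_tri_star`, `app_of_not_mem_star`, `Set.ncard_prod`. -/
lemma G_mul {X₁ X₂ V₁ V₂ : Finset Q} {c : Q → St}
    (hd : Disjoint (SS (tri e) X₁) (SS (tri e) X₂)) (h₁ : V₁ ⊆ X₁) (h₂ : V₂ ⊆ X₂)
    (hc : ∀ j ∈ X₁ ∪ X₂, InBox P (c j)) :
    G P e (X₁ ∪ X₂) (V₁ ∪ V₂) c = G P e X₁ V₁ c * G P e X₂ V₂ c := by
  have hX : Disjoint X₁ X₂ := hd.mono (subset_minus X₁) (subset_minus X₂)
  have hV : Disjoint V₁ V₂ := hX.mono h₁ h₂
  have hc1 : ∀ j ∈ X₁, InBox P (c j) := fun j hj => hc j (mem_union_left _ hj)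
  have hc2 : ∀ j ∈ X₂, InBox P (c j) := fun j hj => hc j (mem_union_right _ hj)
  have hE0 : En P e (X₁ ∪ X₂) c = En P e X₁ c + En P e X₂ c := sum_union hX
  have key : ∀ m₁ m₂ : Q → St, (∀ j ∉ V₁, m₁ j = idm c j) → (∀ j ∉ V₂, m₂ j = idm c j) →
      (∀ j ∈ X₁, app P e c (V₁.piecewise m₁ m₂) j = app P e c m₁ j ∧
        E P e (app P e c (V₁.piecewise m₁ m₂)) j = E P e (app P e c m₁) j) ∧
      ∀ j ∈ X₂, app P e c (V₁.piecewise m₁ m₂) j = app P e c m₂ j ∧
        E P e (app P e c (V₁.piecewise m₁ m₂)) j = E P e (app P e c m₂) j := by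
    intro m₁ m₂ hm₁ hm₂
    have a1 : ∀ p ∉ V₂, V₁.piecewise m₁ m₂ p = m₁ p := fun p hp => by
      by_cases hp1 : p ∈ V₁
      · exact piecewise_eq_of_mem _ _ _ hp1
      · rw [piecewise_eq_of_notMem _ _ _ hp1, hm₂ p hp, hm₁ p hp1]
    have a2 : ∀ p ∉ V₁, V₁.piecewise m₁ m₂ p = m₂ p := fun p hp =>
      piecewise_eq_of_notMem _ _ _ hp
    refine ⟨fun j hj => ?_, fun j hj => ?_⟩
    · obtain ⟨h0, h1, h2, h3⟩ := gbasic_not_mem fun y hy => gbasic_star hd.symm (h₂ hy) hj
      exact gbasic_agree (a1 _ h0) (a1 _ h1) (a1 _ h2) (a1 _ h3)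
    · obtain ⟨h0, h1, h2, h3⟩ := gbasic_not_mem fun y hy => gbasic_star hd (h₁ hy) hj
      exact gbasic_agree (a2 _ h0) (a2 _ h1) (a2 _ h2) (a2 _ h3)
  have hEn : ∀ m₁ ∈ Moves P e X₁ V₁ c, ∀ m₂ ∈ Moves P e X₂ V₂ c,
      En P e (X₁ ∪ X₂) (app P e c (V₁.piecewise m₁ m₂)) =
        En P e X₁ (app P e c m₁) + En P e X₂ (app P e c m₂) := fun m₁ hm₁ m₂ hm₂ => by
    obtain ⟨k1, k2⟩ := key m₁ m₂ hm₁.1 hm₂.1
    unfold En
    rw [sum_union hX, sum_congr rfl fun j hj => (k1 j hj).2, sum_congr rfl fun j hj => (k2 j hj).2]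
  have hmem : ∀ m₁ ∈ Moves P e X₁ V₁ c, ∀ m₂ ∈ Moves P e X₂ V₂ c,
      V₁.piecewise m₁ m₂ ∈ Moves P e (X₁ ∪ X₂) (V₁ ∪ V₂) c := fun m₁ hm₁ m₂ hm₂ => by
    obtain ⟨k1, k2⟩ := key m₁ m₂ hm₁.1 hm₂.1
    refine ⟨fun j hj => ?_, fun j hj => ?_⟩
    · rw [mem_union, not_or] at hj
      rw [piecewise_eq_of_notMem _ _ _ hj.1, hm₂.1 j hj.2]
    · rcases mem_union.1 hj with hj | hj
      · rw [(k1 j hj).1]; exact hm₁.2 j hj
      · rw [(k2 j hj).1]; exact hm₂.2 j hj
  have hsurj : ∀ m ∈ Moves P e (X₁ ∪ X₂) (V₁ ∪ V₂) c, ∃ m₁ ∈ Moves P e X₁ V₁ c,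
      ∃ m₂ ∈ Moves P e X₂ V₂ c, V₁.piecewise m₁ m₂ = m := fun m hm => by
    have b1 : ∀ j ∉ V₁, V₁.piecewise m (idm c) j = idm c j := fun j hj =>
      piecewise_eq_of_notMem _ _ _ hj
    have b2 : ∀ j ∉ V₂, V₂.piecewise m (idm c) j = idm c j := fun j hj =>
      piecewise_eq_of_notMem _ _ _ hj
    have heq : V₁.piecewise (V₁.piecewise m (idm c)) (V₂.piecewise m (idm c)) = m := by
      funext j
      by_cases hj1 : j ∈ V₁
      · rw [piecewise_eq_of_mem _ _ _ hj1, piecewise_eq_of_mem _ _ _ hj1]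
      · rw [piecewise_eq_of_notMem _ _ _ hj1]
        by_cases hj2 : j ∈ V₂
        · rw [piecewise_eq_of_mem _ _ _ hj2]
        · rw [b2 j hj2, hm.1 j (by simp [hj1, hj2])]
    obtain ⟨k1, k2⟩ := key _ _ b1 b2
    rw [heq] at k1 k2
    refine ⟨_, ⟨b1, fun j hj => ?_⟩, _, ⟨b2, fun j hj => ?_⟩, heq⟩
    · rw [← (k1 j hj).1]; exact hm.2 j (mem_union_left _ hj)
    · rw [← (k2 j hj).1]; exact hm.2 j (mem_union_right _ hj)
  have hi1 := idm_mem_Moves (e := e) V₁ hc1
  have hi2 := idm_mem_Moves (e := e) V₂ hc2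
  have hopt : (∀ m ∈ Moves P e (X₁ ∪ X₂) (V₁ ∪ V₂) c,
      En P e (X₁ ∪ X₂) c ≤ En P e (X₁ ∪ X₂) (app P e c m)) ↔
      (∀ m ∈ Moves P e X₁ V₁ c, En P e X₁ c ≤ En P e X₁ (app P e c m)) ∧
        ∀ m ∈ Moves P e X₂ V₂ c, En P e X₂ c ≤ En P e X₂ (app P e c m) := by
    refine ⟨fun h => ⟨fun m hm => ?_, fun m hm => ?_⟩, fun h m hm => ?_⟩
    · have := h _ (hmem m hm _ hi2)
      rw [hEn m hm _ hi2, hE0, app_idm] at this
      omega
    · have := h _ (hmem _ hi1 m hm)
      rw [hEn _ hi1 m hm, hE0, app_idm] at this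
      omega
    · obtain ⟨m₁, hm₁, m₂, hm₂, rfl⟩ := hsurj m hm
      rw [hEn m₁ hm₁ m₂ hm₂, hE0]
      exact add_le_add (h.1 m₁ hm₁) (h.2 m₂ hm₂)
  unfold G
  by_cases o1 : ∀ m ∈ Moves P e X₁ V₁ c, En P e X₁ c ≤ En P e X₁ (app P e c m)
  swap
  · rw [if_neg o1, if_neg fun h => o1 (hopt.1 h).1, zero_mul]
  by_cases o2 : ∀ m ∈ Moves P e X₂ V₂ c, En P e X₂ c ≤ En P e X₂ (app P e c m)
  swap
  · rw [if_neg o2, if_neg fun h => o2 (hopt.1 h).2, mul_zero]
  rw [if_pos o1, if_pos o2, if_pos (hopt.2 ⟨o1, o2⟩), div_mul_div_comm, one_mul, ← Nat.cast_mul,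
    ← Set.ncard_prod]
  congr 2
  rw [← Set.InjOn.ncard_image (f := fun p : (Q → St) × (Q → St) => V₁.piecewise p.1 p.2)]
  · congr 1
    ext m
    simp only [Set.mem_ofPred_eq, Set.mem_image, Set.mem_prod]
    constructor
    · rintro ⟨hm, hE⟩
      obtain ⟨m₁, hm₁, m₂, hm₂, rfl⟩ := hsurj m hm
      rw [hEn m₁ hm₁ m₂ hm₂, hE0] at hE
      have := o1 m₁ hm₁
      have := o2 m₂ hm₂
      exact ⟨(m₁, m₂), ⟨⟨hm₁, by dsimp only; omega⟩, hm₂, by dsimp only; omega⟩, rfl⟩
    · rintro ⟨⟨m₁, m₂⟩, ⟨⟨hm₁, e1⟩, hm₂, e2⟩, rfl⟩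
      refine ⟨hmem m₁ hm₁ m₂ hm₂, ?_⟩
      dsimp only at e1 e2 ⊢
      rw [hEn m₁ hm₁ m₂ hm₂, hE0, e1, e2]
  · rintro ⟨m₁, m₂⟩ ⟨⟨hm₁, -⟩, hm₂, -⟩ ⟨m₁', m₂'⟩ ⟨⟨hm₁', -⟩, hm₂', -⟩ heq
    refine Prod.ext (funext fun j => ?_) (funext fun j => ?_)
    · by_cases hj : j ∈ V₁
      · simpa [piecewise, hj] using congrFun heq j
      · exact (hm₁.1 j hj).trans (hm₁'.1 j hj).symm
    · by_cases hj : j ∈ V₂
      · simpa [piecewise, disjoint_right.1 hV hj] using congrFun heq j
      · exact (hm₂.1 j hj).trans (hm₂'.1 j hj).symm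

omit [AddCommGroup Q] in
lemma gbasic_K_insert (g : Finset Q → ℝ) {a : Q} {Y : Finset Q} (ha : a ∉ Y) :
    ∑ V ∈ (insert a Y).powerset, (-1) ^ (insert a Y \ V).card * g V =
      ∑ V ∈ Y.powerset, (-1) ^ (Y \ V).card * (g (insert a V) - g V) := by
  rw [sum_powerset_insert ha, ← sum_add_distrib]
  refine sum_congr rfl fun V hV => ?_
  have haV : a ∉ V := fun h => ha (mem_powerset.1 hV h)
  rw [insert_sdiff_of_notMem _ haV, card_insert_of_notMem (by simp [ha]), insert_sdiff_insert,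
    sdiff_insert_of_notMem ha]
  ring

omit [AddCommGroup Q] in
lemma gbasic_moebius (g : Finset Q → ℝ) (Λ : Finset Q) :
    ∑ Y ∈ Λ.powerset, ∑ V ∈ Y.powerset, (-1) ^ (Y \ V).card * g V = g Λ := by
  induction Λ using Finset.induction_on generalizing g with
  | empty => simp
  | insert a Λ ha ih =>
    rw [sum_powerset_insert ha, ← sum_add_distrib, ← ih fun V => g (insert a V)]
    refine sum_congr rfl fun Y hY => ?_
    rw [gbasic_K_insert g fun h => ha (mem_powerset.1 hY h), ← sum_add_distrib]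
    exact sum_congr rfl fun V _ => by ring

omit [AddCommGroup Q] in
lemma gbasic_sum_powerset_union {R : Type*} [AddCommMonoid R] {Y₁ Y₂ : Finset Q}
    (h : Disjoint Y₁ Y₂) (F : Finset Q → R) :
    ∑ V ∈ (Y₁ ∪ Y₂).powerset, F V = ∑ V₁ ∈ Y₁.powerset, ∑ V₂ ∈ Y₂.powerset, F (V₁ ∪ V₂) := by
  rw [← sum_product']
  symm
  refine sum_nbij' (fun p => p.1 ∪ p.2) (fun V => (V ∩ Y₁, V ∩ Y₂)) ?_ ?_ ?_ ?_ fun _ _ => rfl
  · intro p hp
    simp only [mem_product, mem_powerset] at hp ⊢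
    exact union_subset_union hp.1 hp.2
  · intro V _
    simp
  · rintro ⟨V₁, V₂⟩ hp
    simp only [mem_product, mem_powerset] at hp
    have h1 : Disjoint V₂ Y₁ := h.symm.mono_left hp.2
    have h2 : Disjoint V₁ Y₂ := h.mono_left hp.1
    simp only [union_inter_distrib_right, inter_eq_left.2 hp.1, inter_eq_left.2 hp.2,
      disjoint_iff_inter_eq_empty.1 h1, disjoint_iff_inter_eq_empty.1 h2, union_empty,
      empty_union]
  · intro V hV
    simp only [← inter_union_distrib_left]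
    exact inter_eq_left.2 (mem_powerset.1 hV)

lemma sum_Kt (X Λ : Finset Q) (c : Q → St) :
    ∑ Y ∈ Λ.powerset, Kt P e X Y c = G P e X Λ c := by
  exact gbasic_moebius (fun V => G P e X V c) Λ

lemma abs_Kt_le (X Y : Finset Q) (c : Q → St) : |Kt P e X Y c| ≤ 2 ^ Y.card := by
  refine (abs_sum_le_sum_abs _ _).trans ((sum_le_card_nsmul _ _ 1 fun V _ => ?_).trans ?_)
  · rw [abs_mul, abs_pow, abs_neg, abs_one, one_pow, one_mul, abs_of_nonneg (G_nonneg _ _ _)]
    exact G_le_one _ _ _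
  · simp

lemma Kt_shrink {Λ X Y : Finset Q} {c : Q → St} (hX : X ⊆ Λ)
    (hY : ∀ y ∈ Y, ∀ p ∈ star e y, p ∈ Λ → p ∈ X) (hc : ∀ j ∈ Λ, InBox P (c j)) :
    Kt P e Λ Y c = Kt P e X Y c := by
  refine sum_congr rfl fun V hV => ?_
  rw [G_shrink hX (fun y hy => hY y (mem_powerset.1 hV hy)) hc]

lemma Kt_mul {X₁ X₂ Y₁ Y₂ : Finset Q} {c : Q → St}
    (hd : Disjoint (SS (tri e) X₁) (SS (tri e) X₂)) (h₁ : Y₁ ⊆ X₁) (h₂ : Y₂ ⊆ X₂)
    (hc : ∀ j ∈ X₁ ∪ X₂, InBox P (c j)) :
    Kt P e (X₁ ∪ X₂) (Y₁ ∪ Y₂) c = Kt P e X₁ Y₁ c * Kt P e X₂ Y₂ c := by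
  have hX : Disjoint X₁ X₂ := hd.mono (subset_minus X₁) (subset_minus X₂)
  have hY : Disjoint Y₁ Y₂ := hX.mono h₁ h₂
  unfold Kt
  rw [gbasic_sum_powerset_union hY, sum_mul_sum]
  refine sum_congr rfl fun V₁ hV₁ => sum_congr rfl fun V₂ hV₂ => ?_
  rw [mem_powerset] at hV₁ hV₂
  have hs : (Y₁ ∪ Y₂) \ (V₁ ∪ V₂) = (Y₁ \ V₁) ∪ (Y₂ \ V₂) := by
    ext p
    have a1 := @hV₁ p
    have a2 := @hV₂ p
    have a3 := @disjoint_left.1 hY p
    simp only [mem_sdiff, mem_union]
    tauto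
  rw [G_mul hd (hV₁.trans h₁) (hV₂.trans h₂) hc, hs,
    card_union_of_disjoint (hY.mono sdiff_subset sdiff_subset), pow_add]
  ring

/-- If `Kt X Y c ≠ 0` then `G X (insert y V) c ≠ G X V c` for some `V ⊆ Y.erase y`
(`Finset.sum_powerset_insert`).  Then `c` is optimal for the moves on `V` (else both vanish), and
either `c` is not optimal on `insert y V` (take an optimal move, it is not supported in `V`) or
the two sets of optimal moves differ. -/
lemma exists_move_of_Kt {X Y : Finset Q} {c : Q → St} (hc : ∀ j ∈ X, InBox P (c j))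
    (hK : Kt P e X Y c ≠ 0) {y : Q} (hy : y ∈ Y) :
    ∃ V ⊆ Y, ∃ m ∈ Moves P e X V c,
      (∀ m' ∈ Moves P e X V c, En P e X (app P e c m) ≤ En P e X (app P e c m')) ∧
        m y ≠ idm c y := by
  have hne : ∃ V ⊆ Y.erase y, G P e X (insert y V) c ≠ G P e X V c := by
    by_contra hcon
    push Not at hcon
    apply hK
    unfold Kt
    rw [← insert_erase hy, gbasic_K_insert (fun V => G P e X V c) (notMem_erase y Y)]
    refine sum_eq_zero fun V hV => ?_
    rw [hcon V (mem_powerset.1 hV), sub_self, mul_zero]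
  obtain ⟨V, hV, hG⟩ := hne
  have hsub : Moves P e X V c ⊆ Moves P e X (insert y V) c := fun m hm =>
    ⟨fun j hj => hm.1 j fun h => hj (mem_insert_of_mem h), hm.2⟩
  by_contra hcon
  push Not at hcon
  have hall := hcon (insert y V) (insert_subset hy (hV.trans (erase_subset _ _)))
  have hin : ∀ m ∈ Moves P e X (insert y V) c, (∀ m' ∈ Moves P e X (insert y V) c,
      En P e X (app P e c m) ≤ En P e X (app P e c m')) → m ∈ Moves P e X V c := fun m hm ho => by
    refine ⟨fun j hj => ?_, hm.2⟩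
    by_cases hjy : j = y
    · rw [hjy]; exact hall m hm ho
    · exact hm.1 j (by simp [hj, hjy])
  apply hG
  unfold G
  by_cases o1 : ∀ m ∈ Moves P e X V c, En P e X c ≤ En P e X (app P e c m)
  swap
  · rw [if_neg o1, if_neg fun h => o1 fun m hm => h m (hsub hm)]
  obtain ⟨m₀, hm₀, ho⟩ : ∃ m₀ ∈ Moves P e X (insert y V) c, ∀ m ∈ Moves P e X (insert y V) c,
      En P e X (app P e c m₀) ≤ En P e X (app P e c m) :=
    ⟨Function.argminOn (fun m => En P e X (app P e c m)) _ ⟨_, idm_mem_Moves _ hc⟩,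
      Function.argminOn_mem _ _ _, fun m hm =>
        Function.argminOn_le (fun m => En P e X (app P e c m)) _ hm⟩
  have o2 : ∀ m ∈ Moves P e X (insert y V) c, En P e X c ≤ En P e X (app P e c m) :=
    fun m hm => (o1 m₀ (hin m₀ hm₀ ho)).trans (ho m hm)
  rw [if_pos o1, if_pos o2]
  congr 3
  ext m
  simp only [Set.mem_ofPred_eq]
  exact ⟨fun h => ⟨hin m h.1 fun m' hm' => h.2.le.trans (o2 m' hm'), h.2⟩,
    fun h => ⟨hsub h.1, h.2⟩⟩

end Pool.Agent.MP_646035_al.H91

end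

-- part MP_646035_al.H91.GMap
section

/-!
Transport of the weights along maps of sites and under the sign symmetry.
-/

namespace Pool.Agent.MP_646035_al.H91

open Finset

variable {Q Q' : Type*} [AddCommGroup Q] [DecidableEq Q] [AddCommGroup Q'] [DecidableEq Q']
  {P : Par} {e : Fin 2 → Q} {e' : Fin 2 → Q'} {π : Q' → Q}

/-- `c'` is the pull back of `c` twisted by `ε`, as far as the costs on `X` can see. -/
def Pull (e' : Fin 2 → Q') (π : Q' → Q) (ε : Bool) (X : Finset Q') (c : Q → St) (c' : Q' → St) :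
    Prop :=
  (∀ j ∈ X, c' j = tw ε (c (π j))) ∧
    ∀ j ∈ SS (tri e') X, (c' j).1 = (tw ε (c (π j))).1 ∧ (c' j).2.1 = (c (π j)).2.1

lemma E_map (hπ : Mor e' e π) {ε : Bool} {X : Finset Q'} {c : Q → St} {c' : Q' → St}
    (hc : Pull e' π ε X c c') {j : Q'} (hj : j ∈ X) : E P e c (π j) = E P e' c' j := by
  have h0 := hc.1 j hj
  have h1 := hc.2 _ (sub_mem_minus (e := e') hj 0)
  have h2 := hc.2 _ (sub_mem_minus (e := e') hj 1)
  unfold E
  rw [← hπ.sub j 0, ← hπ.sub j 1, h0, h1.1, h1.2, h2.1, h2.2]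
  cases ε
  · simp [tw]
  · simp only [tw, if_true, Pi.neg_apply, lampC_not, uC_not]

lemma gmap_mem_fat {X : Finset Q'} {p : Q'} :
    p ∈ fat e' X ↔ ∃ j ∈ X, p = j ∨ p = j + e' 0 ∨ p = j - e' 0 ∨ p = j + e' 1 ∨ p = j - e' 1 := by
  simp [fat]

lemma gmap_sub_fat (X : Finset Q') : X ⊆ fat e' X := fun j hj =>
  gmap_mem_fat.2 ⟨j, hj, .inl rfl⟩

lemma gmap_minus_fat (X : Finset Q') : SS (tri e') X ⊆ fat e' X := fun p hp => by
  obtain ⟨j, hj, h⟩ := mem_SS.1 hp
  rw [mem_tri] at h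
  exact gmap_mem_fat.2 ⟨j, hj, by tauto⟩

lemma gmap_star_fat {X : Finset Q'} {y : Q'} (hy : y ∈ X) : star e' y ⊆ fat e' X := fun p hp => by
  rw [mem_star] at hp
  exact gmap_mem_fat.2 ⟨y, hy, by tauto⟩

lemma gmap_mem_image {X V : Finset Q'} (hinj : Set.InjOn π (fat e' X)) (hV : V ⊆ fat e' X)
    {p : Q'} (hp : p ∈ fat e' X) : π p ∈ V.image π ↔ p ∈ V := by
  refine ⟨fun h => ?_, mem_image_of_mem π⟩
  obtain ⟨q, hq, h⟩ := mem_image.1 h
  rwa [← hinj (hV hq) hp h]

lemma gmap_subset_iff {X A B : Finset Q'} (hinj : Set.InjOn π (fat e' X)) (hA : A ⊆ fat e' X)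
    (hB : B ⊆ fat e' X) : A.image π ⊆ B.image π ↔ A ⊆ B :=
  ⟨fun h _ hp => (gmap_mem_image hinj hB (hA hp)).1 (h (mem_image_of_mem π hp)),
    image_subset_image⟩

lemma gmap_En (hπ : Mor e' e π) {X : Finset Q'} (hinj : Set.InjOn π (fat e' X)) {ε : Bool}
    {c : Q → St} {c' : Q' → St} (hc : Pull e' π ε X c c') :
    En P e (X.image π) c = En P e' X c' := by
  unfold En
  rw [sum_image (hinj.mono (coe_subset.2 (gmap_sub_fat X)))]
  exact sum_congr rfl fun j hj => E_map hπ hc hj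

/-- The pull back of a move. -/
def gmapPhi (π : Q' → Q) (ε : Bool) (V : Finset Q') (c' : Q' → St) (m : Q → St) : Q' → St :=
  fun j => if j ∈ V then tw ε (m (π j)) else idm c' j

lemma gmap_pull (hπ : Mor e' e π) {X V : Finset Q'} (hinj : Set.InjOn π (fat e' X)) (hV : V ⊆ X)
    {ε : Bool} {c : Q → St} {c' : Q' → St} (hc : Pull e' π ε X c c') {m : Q → St}
    (hm : ∀ v ∉ V.image π, m v = idm c v) :
    Pull e' π ε X (app P e c m) (app P e' c' (gmapPhi π ε V c' m)) := by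
  have hVf : V ⊆ fat e' X := hV.trans (gmap_sub_fat X)
  have K : ∀ p ∈ fat e' X, (gmapPhi π ε V c' m p).2.2 = (tw ε (m (π p))).2.2 := by
    intro p hp
    unfold gmapPhi
    split_ifs with h
    · rfl
    · rw [hm _ fun h' => h ((gmap_mem_image hinj hVf hp).1 h')]
      cases ε <;> simp [tw, idm]
  have T : ∀ p ∈ SS (tri e') X, (gmapPhi π ε V c' m p).1 = (tw ε (m (π p))).1 ∧
      (gmapPhi π ε V c' m p).2.1 = (m (π p)).2.1 := by
    intro p hp
    unfold gmapPhi
    split_ifs with h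
    · cases ε <;> simp [tw]
    · rw [hm _ fun h' => h ((gmap_mem_image hinj hVf (gmap_minus_fat X hp)).1 h')]
      have h1 := hc.2 p hp
      cases ε <;> simpa [tw, idm] using h1
  refine ⟨fun j hj => ?_, fun j hj => ?_⟩
  · have h0 := hc.1 j hj
    have h1 := T j (subset_minus X hj)
    have k0 := K j (gmap_sub_fat X hj)
    have k1 := K (j - e' 0) (gmap_mem_fat.2 ⟨j, hj, by simp⟩)
    have k2 := K (j + e' 0) (gmap_mem_fat.2 ⟨j, hj, by simp⟩)
    rw [hπ.sub] at k1
    rw [hπ] at k2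
    unfold app
    rw [h1.1, h1.2, h0]
    cases ε
    · simp only [tw, Bool.false_eq_true, if_false] at k0 k1 k2 ⊢
      refine Prod.ext rfl (Prod.ext rfl ?_)
      funext l
      fin_cases l <;> simp [k0, k1, k2]
    · simp only [tw, if_true] at k0 k1 k2 ⊢
      refine Prod.ext rfl (Prod.ext rfl ?_)
      funext l
      fin_cases l <;> simp [k0, k1, k2] <;> ring
  · have h1 := T j hj
    cases ε <;> simpa [app, tw] using h1

lemma gmap_moves (hπ : Mor e' e π) {X V : Finset Q'} (hinj : Set.InjOn π (fat e' X)) (hV : V ⊆ X)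
    {ε : Bool} {c : Q → St} {c' : Q' → St} (hc : Pull e' π ε X c c') {m : Q → St}
    (hm : ∀ v ∉ V.image π, m v = idm c v) :
    m ∈ Moves P e (X.image π) (V.image π) c ↔ gmapPhi π ε V c' m ∈ Moves P e' X V c' := by
  have hp := gmap_pull (P := P) hπ hinj hV hc hm
  constructor
  · intro h
    refine ⟨fun j hj => if_neg hj, fun j hj => ?_⟩
    rw [hp.1 j hj, InBox_tw]
    exact h.2 _ (mem_image_of_mem π hj)
  · intro h
    refine ⟨hm, fun v hv => ?_⟩
    obtain ⟨j, hj, rfl⟩ := mem_image.1 hv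
    have := h.2 j hj
    rwa [hp.1 j hj, InBox_tw] at this

lemma gmap_surj (hπ : Mor e' e π) {X V : Finset Q'} (hinj : Set.InjOn π (fat e' X)) (hV : V ⊆ X)
    {ε : Bool} {c : Q → St} {c' : Q' → St} (hc : Pull e' π ε X c c') {m' : Q' → St}
    (hm' : m' ∈ Moves P e' X V c') :
    ∃ m ∈ Moves P e (X.image π) (V.image π) c, gmapPhi π ε V c' m = m' := by
  classical
  have hVf : V ⊆ fat e' X := hV.trans (gmap_sub_fat X)
  let m : Q → St := fun v =>
    if hv : v ∈ V.image π then tw ε (m' (mem_image.1 hv).choose) else idm c v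
  have hm : ∀ v ∉ V.image π, m v = idm c v := fun v hv => dif_neg hv
  have e1 : gmapPhi π ε V c' m = m' := by
    funext j
    unfold gmapPhi
    split_ifs with hj
    · have hv : π j ∈ V.image π := mem_image_of_mem π hj
      have := (mem_image.1 hv).choose_spec
      simp only [m, hv, dite_true, tw_tw]
      rw [hinj (hVf this.1) (hVf hj) this.2]
    · exact (hm'.1 j hj).symm
  exact ⟨m, (gmap_moves hπ hinj hV hc hm).2 (e1 ▸ hm'), e1⟩

/-- The map `m ↦ fun j => if j ∈ V then tw ε (m (π j)) else idm c' j` is a bijection between the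
two sets of moves that keeps the costs: `Pull e' π ε X (app c m) (app c' m')`, since for
`p ∈ fat e' X` we have `p ∈ V ↔ π p ∈ V.image π`. -/
lemma G_map (hπ : Mor e' e π) {X V : Finset Q'} (hinj : Set.InjOn π (fat e' X)) (hV : V ⊆ X)
    {ε : Bool} {c : Q → St} {c' : Q' → St} (hc : Pull e' π ε X c c') :
    G P e (X.image π) (V.image π) c = G P e' X V c' := by
  have hE := gmap_En (P := P) hπ hinj hc
  have hE' : ∀ m ∈ Moves P e (X.image π) (V.image π) c, En P e (X.image π) (app P e c m)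
      = En P e' X (app P e' c' (gmapPhi π ε V c' m)) := fun m hm =>
    gmap_En hπ hinj (gmap_pull hπ hinj hV hc hm.1)
  have h1 : (∀ m ∈ Moves P e (X.image π) (V.image π) c,
      En P e (X.image π) c ≤ En P e (X.image π) (app P e c m)) ↔
      ∀ m ∈ Moves P e' X V c', En P e' X c' ≤ En P e' X (app P e' c' m) := by
    constructor
    · intro h m' hm'
      obtain ⟨m, hm, rfl⟩ := gmap_surj hπ hinj hV hc hm'
      rw [← hE, ← hE' m hm]
      exact h m hm
    · intro h m hm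
      rw [hE, hE' m hm]
      exact h _ ((gmap_moves hπ hinj hV hc hm.1).1 hm)
  have h2 : {m ∈ Moves P e' X V c' | En P e' X (app P e' c' m) = En P e' X c'}
      = gmapPhi π ε V c' '' {m ∈ Moves P e (X.image π) (V.image π) c |
        En P e (X.image π) (app P e c m) = En P e (X.image π) c} := by
    ext m'
    constructor
    · rintro ⟨hm', h⟩
      obtain ⟨m, hm, rfl⟩ := gmap_surj hπ hinj hV hc hm'
      exact ⟨m, ⟨hm, by rw [hE' m hm, h, hE]⟩, rfl⟩
    · rintro ⟨m, ⟨hm, h⟩, rfl⟩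
      exact ⟨(gmap_moves hπ hinj hV hc hm.1).1 hm, by rw [← hE' m hm, h, hE]⟩
  unfold G
  rw [h2, Set.InjOn.ncard_image]
  · by_cases hh : ∀ m ∈ Moves P e' X V c', En P e' X c' ≤ En P e' X (app P e' c' m)
    · rw [if_pos hh, if_pos (h1.2 hh)]
    · rw [if_neg hh, if_neg fun h => hh (h1.1 h)]
  · rintro m ⟨hm, -⟩ m₂ ⟨hm₂, -⟩ h
    funext v
    by_cases hv : v ∈ V.image π
    · obtain ⟨j, hj, rfl⟩ := mem_image.1 hv
      have := congrFun h j
      simp only [gmapPhi, hj, if_true] at this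
      rw [← tw_tw ε (m (π j)), this, tw_tw]
    · rw [hm.1 v hv, hm₂.1 v hv]

lemma gmap_sum_powerset {X Y : Finset Q'} (hinj : Set.InjOn π (fat e' X)) (hY : Y ⊆ X)
    (F : Finset Q → ℝ) :
    ∑ V ∈ (Y.image π).powerset, F V = ∑ V ∈ Y.powerset, F (V.image π) := by
  have hYf : Y ⊆ fat e' X := hY.trans (gmap_sub_fat X)
  rw [powerset_image, sum_image]
  intro A hA B hB h
  have hA' : A ⊆ fat e' X := (mem_powerset.1 hA).trans hYf
  have hB' : B ⊆ fat e' X := (mem_powerset.1 hB).trans hYf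
  exact Subset.antisymm ((gmap_subset_iff hinj hA' hB').1 (le_of_eq h))
    ((gmap_subset_iff hinj hB' hA').1 (ge_of_eq h))

lemma Kt_map (hπ : Mor e' e π) {X Y : Finset Q'} (hinj : Set.InjOn π (fat e' X)) (hY : Y ⊆ X)
    {ε : Bool} {c : Q → St} {c' : Q' → St} (hc : Pull e' π ε X c c') :
    Kt P e (X.image π) (Y.image π) c = Kt P e' X Y c' := by
  have hYi : Set.InjOn π Y := hinj.mono (coe_subset.2 (hY.trans (gmap_sub_fat X)))
  unfold Kt
  rw [gmap_sum_powerset hinj hY]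
  refine sum_congr rfl fun V hV => ?_
  have hV' := mem_powerset.1 hV
  rw [G_map hπ hinj (hV'.trans hY) hc, ← image_sdiff_of_injOn hYi hV',
    card_image_of_injOn (hYi.mono (coe_subset.2 sdiff_subset))]

lemma gmap_star (hπ : Mor e' e π) (y : Q') : star e (π y) = (star e' y).image π := by
  simp [star, hπ y, hπ.sub y]

lemma gmap_tri (hπ : Mor e' e π) (y : Q') : tri e (π y) = (tri e' y).image π := by
  simp [tri, hπ.sub y]

lemma gmap_biUnion_star (hπ : Mor e' e π) (A : Finset Q') :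
    (A.image π).biUnion (star e) = (A.biUnion (star e')).image π := by
  rw [image_biUnion, biUnion_image]
  exact biUnion_congr rfl fun y _ => gmap_star hπ y

lemma gmap_Bad (hπ : Mor e' e π) {X : Finset Q'} {ε : Bool} {c : Q → St} {c' : Q' → St}
    (hc : Pull e' π ε X c c') : Bad P e (X.image π) c = (Bad P e' X c').image π := by
  unfold Bad
  rw [filter_image]
  congr 1
  exact filter_congr fun j hj => by rw [E_map hπ hc hj]

/-- The sign change of the digits. -/
def gmapIota (ε : Bool) : (ℕ × (Fin 3 → ℤ)) ≃ (ℕ × (Fin 3 → ℤ)) :=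
  if ε then (Equiv.refl ℕ).prodCongr (Equiv.neg _) else Equiv.refl _

/-- Use `sum_asg_map` with the permutation `(ν, z) ↦ (ν, ± z)` of the box. -/
lemma W_map (hπ : Mor e' e π) {X C : Finset Q'} (hinj : Set.InjOn π (fat e' X)) (hC : C ⊆ X)
    (x : ℝ) {ε : Bool} {σ : Q → Bool} {σ' : Q' → Bool}
    (hσ : ∀ j ∈ SS (tri e') X, σ' j = xor ε (σ (π j))) :
    W P e x (X.image π) (C.image π) σ = W P e' x X C σ' := by
  have hXf := gmap_sub_fat (e' := e') X
  unfold W
  refine sum_asg_map 0 X (box P) π (hinj.mono (coe_subset.2 hXf)) (gmapIota ε) (fun b => ?_) _ _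
    fun f hf f' hf' hff => ?_
  · rw [mem_box (σ := !true), mem_box (σ := true)]
    cases ε
    · simp [gmapIota, InBox]
    · simp [gmapIota, InBox]
  · have hc : Pull e' π ε X (mk σ f) (mk σ' f') := by
      refine ⟨fun j hj => ?_, fun j hj => ⟨?_, ?_⟩⟩
      · unfold mk
        rw [hff j hj, hσ j (subset_minus X hj)]
        cases ε <;> simp [tw, gmapIota, Prod.map]
      · unfold mk
        rw [hσ j hj]
        cases ε <;> simp [tw]
      · unfold mk
        by_cases h : j ∈ X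
        · rw [hff j h]
          cases ε <;> simp [gmapIota]
        · rw [(mem_asg.1 hf').2 j h, (mem_asg.1 hf).2 _ fun h' =>
            h ((gmap_mem_image hinj hXf (gmap_minus_fat X hj)).1 h')]
    rw [gmap_sum_powerset hinj hC]
    refine sum_congr rfl fun Y hY => ?_
    have hY' : Y ⊆ X := (mem_powerset.1 hY).trans hC
    have hB : Bad P e' X (mk σ' f') ⊆ X := filter_subset _ _
    have hS : (Y ∪ Bad P e' X (mk σ' f')).biUnion (star e') ⊆ fat e' X :=
      biUnion_subset.2 fun y hy => gmap_star_fat (union_subset hY' hB hy)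
    rw [gmap_En hπ hinj hc, Kt_map hπ hinj hY' hc, gmap_Bad hπ hc, ← image_union,
      gmap_biUnion_star hπ]
    simp only [gmap_subset_iff hinj (hB.trans hXf) (hC.trans hXf), gmap_subset_iff hinj hXf hS]

/-- `W` only depends on the types on `SS (tri e) X`, up to a global sign. -/
lemma W_congr {X C : Finset Q} (hC : C ⊆ X) (x : ℝ) {ε : Bool} {σ σ' : Q → Bool}
    (hσ : ∀ j ∈ SS (tri e) X, σ' j = xor ε (σ j)) : W P e x X C σ = W P e x X C σ' := by
  simpa using W_map (P := P) (e := e) (e' := e) (π := id) (fun _ _ => rfl)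
    (Set.injOn_id _) hC x hσ

lemma minus_image (hπ : Mor e' e π) (X : Finset Q') :
    SS (tri e) (X.image π) = (SS (tri e') X).image π := by
  unfold SS
  rw [image_biUnion, biUnion_image]
  exact biUnion_congr rfl fun y _ => gmap_tri hπ y

lemma Core_image (hπ : Mor e' e π) {X : Finset Q'} (hinj : Set.InjOn π (fat e' X)) :
    Core e Set.univ (X.image π) = (Core e' Set.univ X).image π := by
  classical
  ext v
  simp only [Core, mem_filter, mem_image, Set.mem_univ, true_imp_iff]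
  constructor
  · rintro ⟨⟨y, hy, rfl⟩, h⟩
    refine ⟨y, ⟨hy, fun p hp => ?_⟩, rfl⟩
    refine (gmap_mem_image hinj (gmap_sub_fat X) (gmap_star_fat hy hp)).1 (mem_image.2 (h _ ?_))
    rw [gmap_star hπ]
    exact mem_image_of_mem π hp
  · rintro ⟨y, ⟨hy, h⟩, rfl⟩
    refine ⟨⟨y, hy, rfl⟩, fun p hp => ?_⟩
    rw [gmap_star hπ] at hp
    obtain ⟨q, hq, rfl⟩ := mem_image.1 hp
    exact ⟨q, h q hq, rfl⟩

omit [AddCommGroup Q] [DecidableEq Q] in
lemma gmap_injD {X : Finset Q'} (hinj : Set.InjOn π (fat e' X)) {D : Finset (Q' × Fin 2)}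
    (hD : ∀ b ∈ D, b.1 ∈ X) : Set.InjOn (Prod.map π (id : Fin 2 → Fin 2)) D := by
  intro b hb b' hb' h
  have h1 : π b.1 = π b'.1 := (Prod.ext_iff.1 h).1
  have h2 : b.2 = b'.2 := (Prod.ext_iff.1 h).2
  exact Prod.ext (hinj (gmap_sub_fat X (hD b hb)) (gmap_sub_fat X (hD b' hb')) h1) h2

lemma rc_map (hπ : Mor e' e π) {X C : Finset Q'} (hinj : Set.InjOn π (fat e' X)) (hC : C ⊆ X)
    (x : ℝ) {D : Finset (Q' × Fin 2)} (hD : ∀ b ∈ D, b.1 ∈ X) :
    rc P e x (X.image π) (C.image π) (D.image (Prod.map π id)) = rc P e' x X C D := by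
  unfold rc
  rw [card_image_of_injOn (hinj.mono (coe_subset.2 (gmap_sub_fat X))), minus_image hπ]
  congr 1
  refine sum_asg_map false (SS (tri e') X) univ π (hinj.mono (coe_subset.2 (gmap_minus_fat X)))
    (Equiv.refl _) (fun b => by simp) _ _ fun σ _ σ' _ hσ => ?_
  rw [W_map (ε := false) (σ' := σ') hπ hinj hC x fun j hj => by simpa using hσ j hj,
    prod_image (gmap_injD hinj hD)]
  congr 1
  refine prod_congr rfl fun b hb => ?_
  unfold chi
  rw [hσ _ (subset_minus X (hD b hb)), hσ _ (sub_mem_minus (hD b hb) b.2), hπ.sub]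
  rfl

lemma qc_map (hπ : Mor e' e π) {X : Finset Q'} (hinj : Set.InjOn π (fat e' X)) (x θ : ℝ)
    {D : Finset (Q' × Fin 2)} (hD : ∀ b ∈ D, b.1 ∈ X) :
    qc P e x θ Set.univ (X.image π) (D.image (Prod.map π id)) = qc P e' x θ Set.univ X D := by
  have hC : Core e' Set.univ X ⊆ X := by
    intro y hy
    simp only [Core, mem_filter] at hy
    exact hy.1
  unfold qc
  rw [Core_image hπ hinj, rc_map hπ hinj hC x hD,
    card_image_of_injOn (hinj.mono (coe_subset.2 (gmap_sub_fat X))),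
    card_image_of_injOn (gmap_injD hinj hD)]

end Pool.Agent.MP_646035_al.H91

end

-- part MP_646035_al.H91.WMul
section

/-!
Multiplicativity of the weights of defect regions.
-/

namespace Pool.Agent.MP_646035_al.H91

open Finset

variable {Q : Type*} [AddCommGroup Q] [DecidableEq Q] {P : Par} {e : Fin 2 → Q}

lemma W_empty (x : ℝ) (σ : Q → Bool) : W P e x ∅ ∅ σ = 1 := by
  simp [W, asg_empty, Bad, En, Kt, G_empty]

lemma wmul_pull {X : Finset Q} {σ : Q → Bool} {s s' : Q → ℕ × (Fin 3 → ℤ)}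
    (h : ∀ j ∈ SS (tri e) X, s j = s' j) : Pull e id false X (mk σ s) (mk σ s') :=
  ⟨fun j hj => by simp [tw, mk, h j (subset_minus X hj)], fun j hj => by simp [tw, mk, h j hj]⟩

/-- Use `sum_asg_union`; for `s = X₁.piecewise s₁ s₂` the configuration `mk σ s` and `mk σ sᵢ`
look the same from `Xᵢ` (`Pull e id false Xᵢ`, `E_map`, `Kt_map` with `π = id`), `Kt_mul`;
subsets of `C₁ ∪ C₂` are pairs of subsets; stars of points of `X₁` avoid `X₂`
(`not_disjoint_tri_star`). -/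
lemma W_mul {X₁ X₂ C₁ C₂ : Finset Q} (hd : Disjoint (SS (tri e) X₁) (SS (tri e) X₂))
    (h₁ : C₁ ⊆ X₁) (h₂ : C₂ ⊆ X₂) (x : ℝ) (σ : Q → Bool) :
    W P e x (X₁ ∪ X₂) (C₁ ∪ C₂) σ = W P e x X₁ C₁ σ * W P e x X₂ C₂ σ := by
  have hX : Disjoint X₁ X₂ := hd.mono (subset_minus X₁) (subset_minus X₂)
  have hC : Disjoint C₁ C₂ := hX.mono h₁ h₂
  unfold W
  rw [sum_asg_union _ hX, sum_mul_sum]
  refine sum_congr rfl fun s₁ hs₁ => sum_congr rfl fun s₂ hs₂ => ?_
  rw [gbasic_sum_powerset_union hC, sum_mul_sum]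
  refine sum_congr rfl fun Y₁ hY₁ => sum_congr rfl fun Y₂ hY₂ => ?_
  rw [mem_powerset] at hY₁ hY₂
  rw [mem_asg] at hs₁ hs₂
  set c := mk σ (X₁.piecewise s₁ s₂) with hcdef
  have p1 : Pull e id false X₁ c (mk σ s₁) := by
    refine wmul_pull fun j hj => ?_
    by_cases hj1 : j ∈ X₁
    · rw [piecewise_eq_of_mem _ _ _ hj1]
    · rw [piecewise_eq_of_notMem _ _ _ hj1, hs₁.2 j hj1,
        hs₂.2 j fun h => disjoint_left.1 hd hj (subset_minus X₂ h)]
  have p2 : Pull e id false X₂ c (mk σ s₂) := by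
    refine wmul_pull fun j hj => ?_
    rw [piecewise_eq_of_notMem _ _ _ fun h => disjoint_left.1 hd (subset_minus X₁ h) hj]
  have hid : Mor e e (id : Q → Q) := fun _ _ => rfl
  have e1 : ∀ j ∈ X₁, E P e c j = E P e (mk σ s₁) j := fun j hj => E_map hid p1 hj
  have e2 : ∀ j ∈ X₂, E P e c j = E P e (mk σ s₂) j := fun j hj => E_map hid p2 hj
  have hB : Bad P e (X₁ ∪ X₂) c = Bad P e X₁ (mk σ s₁) ∪ Bad P e X₂ (mk σ s₂) := by
    unfold Bad
    rw [filter_union]
    congr 1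
    · exact filter_congr fun j hj => by rw [e1 j hj]
    · exact filter_congr fun j hj => by rw [e2 j hj]
  have hE : En P e (X₁ ∪ X₂) c = En P e X₁ (mk σ s₁) + En P e X₂ (mk σ s₂) := by
    unfold En
    rw [sum_union hX, sum_congr rfl e1, sum_congr rfl e2]
  have hbox : ∀ j ∈ X₁ ∪ X₂, InBox P (c j) := fun j hj => by
    rcases mem_union.1 hj with hj | hj
    · rw [← show mk σ s₁ j = c j from p1.1 j hj]
      exact mem_box.1 (hs₁.1 j hj)
    · rw [← show mk σ s₂ j = c j from p2.1 j hj]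
      exact mem_box.1 (hs₂.1 j hj)
  have hK : Kt P e (X₁ ∪ X₂) (Y₁ ∪ Y₂) c = Kt P e X₁ Y₁ (mk σ s₁) * Kt P e X₂ Y₂ (mk σ s₂) := by
    rw [Kt_mul hd (hY₁.trans h₁) (hY₂.trans h₂) hbox,
      ← Kt_map hid (Set.injOn_id _) (hY₁.trans h₁) p1,
      ← Kt_map hid (Set.injOn_id _) (hY₂.trans h₂) p2]
    simp only [image_id]
  have b1 : Bad P e X₁ (mk σ s₁) ⊆ X₁ := filter_subset _ _
  have b2 : Bad P e X₂ (mk σ s₂) ⊆ X₂ := filter_subset _ _
  rw [hB, hE, hK, ite_zero_mul_ite_zero, pow_add, mul_mul_mul_comm]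
  refine if_congr ?_ rfl rfl
  generalize Bad P e X₁ (mk σ s₁) = B₁ at b1 ⊢
  generalize Bad P e X₂ (mk σ s₂) = B₂ at b2 ⊢
  rw [union_union_union_comm]
  have u1 : Y₁ ∪ B₁ ⊆ X₁ := union_subset (hY₁.trans h₁) b1
  have u2 : Y₂ ∪ B₂ ⊆ X₂ := union_subset (hY₂.trans h₂) b2
  generalize Y₁ ∪ B₁ = U₁ at u1 ⊢
  generalize Y₂ ∪ B₂ = U₂ at u2 ⊢
  constructor
  · rintro ⟨k1, k2⟩
    refine ⟨⟨fun j hj => ?_, fun j hj => ?_⟩, fun j hj => ?_, fun j hj => ?_⟩
    · exact (mem_union.1 (k1 (mem_union_left _ hj))).resolve_right fun h =>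
        disjoint_left.1 hX (b1 hj) (h₂ h)
    · obtain ⟨y, hy, hs⟩ := mem_biUnion.1 (k2 (mem_union_left _ hj))
      exact mem_biUnion.2 ⟨y, (mem_union.1 hy).resolve_right fun h =>
        gbasic_star hd.symm (u2 h) hj hs, hs⟩
    · exact (mem_union.1 (k1 (mem_union_right _ hj))).resolve_left fun h =>
        disjoint_left.1 hX (h₁ h) (b2 hj)
    · obtain ⟨y, hy, hs⟩ := mem_biUnion.1 (k2 (mem_union_right _ hj))
      exact mem_biUnion.2 ⟨y, (mem_union.1 hy).resolve_left fun h =>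
        gbasic_star hd (u1 h) hj hs, hs⟩
  · rintro ⟨⟨k1, k2⟩, k3, k4⟩
    refine ⟨union_subset_union k1 k3, union_subset (k2.trans ?_) (k4.trans ?_)⟩
    · exact biUnion_subset_biUnion_of_subset_left _ subset_union_left
    · exact biUnion_subset_biUnion_of_subset_left _ subset_union_right

lemma Core_subset (Λ : Set Q) (X : Finset Q) : Core e Λ X ⊆ X := by
  classical
  exact filter_subset _ _

lemma Core_union (Λ : Set Q) {X₁ X₂ : Finset Q}
    (hd : Disjoint (SS (tri e) X₁) (SS (tri e) X₂)) :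
    Core e Λ (X₁ ∪ X₂) = Core e Λ X₁ ∪ Core e Λ X₂ := by
  classical
  ext y
  simp only [Core, mem_filter, mem_union]
  constructor
  · rintro ⟨hy | hy, h⟩
    · exact .inl ⟨hy, fun p hp hΛ => (h p hp hΛ).resolve_right fun h' => gbasic_star hd hy h' hp⟩
    · exact .inr ⟨hy, fun p hp hΛ =>
        (h p hp hΛ).resolve_left fun h' => gbasic_star hd.symm hy h' hp⟩
  · rintro (⟨hy, h⟩ | ⟨hy, h⟩)
    · exact ⟨.inl hy, fun p hp hΛ => .inl (h p hp hΛ)⟩
    · exact ⟨.inr hy, fun p hp hΛ => .inr (h p hp hΛ)⟩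

end Pool.Agent.MP_646035_al.H91

end

-- part MP_646035_al.H91.RepA
section

/-!
Bond expansions and multiplicativity of the weights of sets of atoms.
-/

namespace Pool.Agent.MP_646035_al.H91

open Finset

variable {Q : Type*} [AddCommGroup Q] [DecidableEq Q] {P : Par} {e : Fin 2 → Q}

omit [DecidableEq Q] in
lemma repa_one_add (σ σ' : Q → Bool) (b : Q × Fin 2) : 1 + chi e σ' b * chi e σ b =
    if xor (σ b.1) (σ' b.1) = xor (σ (b.1 - e b.2)) (σ' (b.1 - e b.2)) then 2 else 0 := by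
  unfold chi
  cases σ b.1 <;> cases σ' b.1 <;> cases σ (b.1 - e b.2) <;> cases σ' (b.1 - e b.2) <;> norm_num

lemma repa_mem_tri {X : Finset Q} {j : Q} (hj : j ∈ X) :
    j ∈ SS (tri e) X ∧ ∀ k, j - e k ∈ SS (tri e) X := by
  refine ⟨mem_SS.2 ⟨j, hj, by simp [tri]⟩, fun k => mem_SS.2 ⟨j, hj, ?_⟩⟩
  fin_cases k <;> simp [tri]

lemma repa_const {X : Finset Q} (hX : Conn (tri e) X) (δ : Q → Bool)
    (h : ∀ j ∈ X, ∀ k, δ j = δ (j - e k)) : ∃ ε, ∀ v ∈ SS (tri e) X, δ v = ε := by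
  have h1 : ∀ j ∈ X, ∀ v ∈ tri e j, δ v = δ j := by
    intro j hj v hv
    simp only [tri, mem_insert, mem_singleton] at hv
    rcases hv with rfl | rfl | rfl
    · rfl
    · exact (h j hj 0).symm
    · exact (h j hj 1).symm
  obtain ⟨j₀, h0⟩ := hX.1
  have h2 := hX.induction (fun j => δ j = δ j₀) h0 rfl fun α hα β hβ hp hd => by
    obtain ⟨v, hv, hv'⟩ := not_disjoint_iff.1 hd
    exact (h1 β hβ v hv').symm.trans ((h1 α hα v hv).trans hp)
  refine ⟨δ j₀, fun v hv => ?_⟩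
  obtain ⟨j, hj, hv⟩ := mem_SS.1 hv
  exact (h1 j hj v hv).trans (h2 j hj)

/-- Exchange the sums: `∑ D, ∏ b ∈ D, chi σ b * chi σ' b = ∏ b, (1 + chi σ b * chi σ' b)` is
`2 ^ (2 card X)` if `chi σ = chi σ'` on the bonds owned by `X` and `0` otherwise.  By
connectedness (`Conn.induction`) this happens for exactly two `σ'` in the `asg`, namely `σ` and
its negation restricted to `SS (tri e) X`, and `W_congr` applies to both. -/
lemma sum_rc {X C : Finset Q} (hX : Conn (tri e) X) (hC : C ⊆ X) (x : ℝ) (σ : Q → Bool) :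
    ∑ D ∈ (X ×ˢ (univ : Finset (Fin 2))).powerset, rc P e x X C D * ∏ b ∈ D, chi e σ b
      = W P e x X C σ / P.Nb ^ X.card := by
  classical
  let τ : Bool → Q → Bool := fun ε j => if j ∈ SS (tri e) X then xor ε (σ j) else false
  have hτ : ∀ ε, ∀ j ∈ SS (tri e) X, τ ε j = xor ε (σ j) := fun ε j hj => if_pos hj
  have hfil : (asg false (SS (tri e) X) univ).filter (fun σ' => ∀ b ∈ X ×ˢ (univ : Finset (Fin 2)),
      xor (σ b.1) (σ' b.1) = xor (σ (b.1 - e b.2)) (σ' (b.1 - e b.2))) = {τ false, τ true} := by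
    ext σ'
    rw [mem_filter, mem_asg, mem_insert, mem_singleton]
    constructor
    · rintro ⟨⟨-, h1⟩, h2⟩
      obtain ⟨ε, hε⟩ := repa_const hX (fun j => xor (σ j) (σ' j))
        fun j hj k => h2 (j, k) (mem_product.2 ⟨hj, mem_univ _⟩)
      have h3 : σ' = τ ε := by
        funext j
        by_cases hj : j ∈ SS (tri e) X
        · rw [hτ ε j hj, ← hε j hj]
          cases σ j <;> cases σ' j <;> rfl
        · rw [h1 j hj]
          exact (if_neg hj).symm
      cases ε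
      exacts [.inl h3, .inr h3]
    · intro h
      obtain ⟨ε, rfl⟩ : ∃ ε, σ' = τ ε := h.elim (fun h => ⟨_, h⟩) fun h => ⟨_, h⟩
      refine ⟨⟨fun _ _ => mem_univ _, fun j hj => if_neg hj⟩, fun b hb => ?_⟩
      have hb' := repa_mem_tri (e := e) (mem_product.1 hb).1
      rw [hτ ε _ hb'.1, hτ ε _ (hb'.2 _)]
      cases ε <;> cases σ b.1 <;> cases σ (b.1 - e b.2) <;> rfl
  have hne : τ false ≠ τ true := by
    obtain ⟨j, hj⟩ := hX.1
    intro h
    have h1 := congrFun h j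
    rw [hτ _ _ (repa_mem_tri hj).1, hτ _ _ (repa_mem_tri hj).1] at h1
    simp at h1
  simp only [rc, mul_assoc, sum_mul, ← mul_sum, ← prod_mul_distrib]
  rw [sum_comm]
  simp only [← mul_sum, ← prod_one_add, repa_one_add, prod_ite_zero, mul_ite, mul_zero]
  rw [← sum_filter, hfil, sum_pair hne, ← W_congr hC x (hτ false), ← W_congr hC x (hτ true),
    prod_const, card_product, card_univ, Fintype.card_fin, mul_comm X.card 2, one_div, inv_pow,
    pow_succ]
  field_simp
  ring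

open Classical in
/-- `chi σ b = s (b.1) * s (b.1 - e b.2)` with `s = ± 1`; collect the powers of each `s v` and use
`sum_asg_prod`. -/
lemma sum_chi {A : Finset Q} {D : Finset (Q × Fin 2)}
    (hD : ∀ b ∈ D, b.1 ∈ A ∧ b.1 - e b.2 ∈ A) :
    ∑ σ ∈ asg false A univ, ∏ b ∈ D, chi e σ b = if Bal e D then 2 ^ A.card else 0 := by
  have h1 : ∀ (σ : Q → Bool) (b : Q × Fin 2), chi e σ b =
      (if σ b.1 = true then -1 else 1) * if σ (b.1 - e b.2) = true then -1 else 1 := by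
    intro σ b
    unfold chi
    cases σ b.1 <;> cases σ (b.1 - e b.2) <;> norm_num
  have h2 : ∀ σ : Q → Bool, ∏ b ∈ D, chi e σ b = ∏ v ∈ A, (if σ v = true then (-1 : ℝ) else 1) ^
      ((D.filter fun b => b.1 = v).card + (D.filter fun b => b.1 - e b.2 = v).card) := by
    intro σ
    simp only [h1, prod_mul_distrib, pow_add, ← prod_const]
    rw [prod_fiberwise_of_maps_to' (fun b hb => (hD b hb).1),
      prod_fiberwise_of_maps_to' (fun b hb => (hD b hb).2)]
  have h3 : ∀ n : ℕ, ∑ b : Bool, (if b = true then (-1 : ℝ) else 1) ^ n =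
      if Even n then 2 else 0 := by
    intro n
    rw [Fintype.sum_bool]
    rcases n.even_or_odd with h | h
    · simp [h, h.neg_one_pow]
      norm_num
    · simp [h.neg_one_pow, Nat.not_even_iff_odd.2 h]
  simp only [h2]
  rw [sum_asg_prod false A univ fun v b => (if b = true then (-1 : ℝ) else 1) ^
      ((D.filter fun b => b.1 = v).card + (D.filter fun b => b.1 - e b.2 = v).card)]
  simp only [h3, prod_ite_zero, prod_const]
  refine if_congr ⟨fun h v => ?_, fun h v _ => h v⟩ rfl rfl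
  by_cases hv : v ∈ A
  · exact h v hv
  · rw [filter_eq_empty_iff.2 fun b hb (h' : b.1 = v) => hv (h' ▸ (hD b hb).1),
      filter_eq_empty_iff.2 fun b hb (h' : b.1 - e b.2 = v) => hv (h' ▸ (hD b hb).2)]
    simp

lemma asupp_nonempty {α : Atom Q} (h : ValidAtom e α) : (asupp e α).Nonempty := by
  rcases α with X | X | b
  · obtain ⟨j, hj⟩ := h.1
    exact ⟨(j, true), mem_product.2 ⟨(repa_mem_tri hj).1, mem_univ _⟩⟩
  · obtain ⟨j, hj⟩ := h.1
    exact ⟨(j, true), mem_product.2 ⟨(repa_mem_tri hj).1, mem_singleton_self _⟩⟩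
  · exact insert_nonempty _ _

lemma mem_atoms {Λ : Finset Q} {α : Atom Q} (h : α ∈ atoms e Λ) : ValidAtom e α := by
  rcases α with X | X | b
  · exact (mem_conns.1 (inl_mem_disjSum.1 h)).2
  · exact (mem_conns.1 (inl_mem_disjSum.1 (inr_mem_disjSum.1 h))).2
  · trivial

lemma wt_empty (x θ : ℝ) (Λ : Set Q) : wt P e x θ Λ ∅ = 1 := by
  have h1 : (∅ : Finset (Atom Q)).toLeft = ∅ := by ext; simp
  have h2 : (∅ : Finset (Atom Q)).toRight.toLeft = ∅ := by ext; simp
  have h3 : (∅ : Finset (Atom Q)).toRight.toRight = ∅ := by ext; simp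
  unfold wt
  rw [h1, h2, h3]
  simp [Compat, Bal]

lemma repa_compat {Γ Pt : Type*} [DecidableEq Γ] {supp : Γ → Finset Pt} {F₁ F₂ : Finset Γ}
    (h : ∀ γ ∈ F₁, ∀ δ ∈ F₂, Disjoint (supp γ) (supp δ)) :
    Compat supp (F₁ ∪ F₂) ↔ Compat supp F₁ ∧ Compat supp F₂ := by
  constructor
  · exact fun H => ⟨fun γ hγ δ hδ => H γ (mem_union_left _ hγ) δ (mem_union_left _ hδ),
      fun γ hγ δ hδ => H γ (mem_union_right _ hγ) δ (mem_union_right _ hδ)⟩
  · rintro ⟨H1, H2⟩ γ hγ δ hδ hne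
    rcases mem_union.1 hγ with h1 | h1 <;> rcases mem_union.1 hδ with h2 | h2
    exacts [H1 γ h1 δ h2 hne, h γ h1 δ h2, (h δ h2 γ h1).symm, H2 γ h1 δ h2 hne]

lemma repa_bal {D₁ D₂ : Finset (Q × Fin 2)}
    (h : ∀ b ∈ D₁, ∀ b' ∈ D₂, ∀ v, (b.1 = v ∨ b.1 - e b.2 = v) → ¬ (b'.1 = v ∨ b'.1 - e b'.2 = v)) :
    Bal e (D₁ ∪ D₂) ↔ Bal e D₁ ∧ Bal e D₂ := by
  have hd : Disjoint D₁ D₂ := disjoint_left.2 fun b h1 h2 => h b h1 b h2 _ (.inl rfl) (.inl rfl)
  unfold Bal
  rw [← forall_and]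
  refine forall_congr' fun v => ?_
  rw [filter_union, filter_union, card_union_of_disjoint (disjoint_filter_filter hd),
    card_union_of_disjoint (disjoint_filter_filter hd)]
  by_cases hv : ∃ b ∈ D₁, b.1 = v ∨ b.1 - e b.2 = v
  · obtain ⟨b, hb, hv⟩ := hv
    rw [filter_eq_empty_iff.2 fun b' hb' h' => h b hb b' hb' v hv (.inl h'),
      filter_eq_empty_iff.2 fun b' hb' h' => h b hb b' hb' v hv (.inr h')]
    simp
  · rw [filter_eq_empty_iff.2 fun b hb h' => hv ⟨b, hb, .inl h'⟩,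
      filter_eq_empty_iff.2 fun b hb h' => hv ⟨b, hb, .inr h'⟩]
    simp

omit [AddCommGroup Q] [DecidableEq Q] in
lemma repa_prod {A B : Finset Q} {s t : Finset Bool} (h : Disjoint (A ×ˢ s) (B ×ˢ t))
    (hs : true ∈ s) (ht : true ∈ t) : Disjoint A B :=
  disjoint_left.2 fun v h1 h2 =>
    disjoint_left.1 h (mem_product.2 ⟨h1, hs⟩ : (v, true) ∈ _) (mem_product.2 ⟨h2, ht⟩)

lemma wt_mul (x θ : ℝ) (Λ : Set Q) {C₁ C₂ : Finset (Atom Q)}
    (h₁ : ∀ α ∈ C₁, ValidAtom e α) (h₂ : ∀ α ∈ C₂, ValidAtom e α)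
    (hd : Disjoint (SS (asupp e) C₁) (SS (asupp e) C₂)) :
    wt P e x θ Λ (C₁ ∪ C₂) = wt P e x θ Λ C₁ * wt P e x θ Λ C₂ := by
  classical
  have hC : Disjoint C₁ C₂ := disjoint_left.2 fun α h1 h2 =>
    (asupp_nonempty (h₁ α h1)).ne_empty (disjoint_self.1 (conn_disj_iff.1 hd α h1 α h2))
  rw [conn_disj_iff] at hd
  have dL : Disjoint C₁.toLeft C₂.toLeft := disjoint_left.2 fun X h1 h2 =>
    disjoint_left.1 hC (mem_toLeft.1 h1) (mem_toLeft.1 h2)
  have dG : Disjoint C₁.toRight.toLeft C₂.toRight.toLeft := disjoint_left.2 fun X h1 h2 =>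
    disjoint_left.1 hC (mem_toRight.1 (mem_toLeft.1 h1)) (mem_toRight.1 (mem_toLeft.1 h2))
  have dB : Disjoint C₁.toRight.toRight C₂.toRight.toRight := disjoint_left.2 fun X h1 h2 =>
    disjoint_left.1 hC (mem_toRight.1 (mem_toRight.1 h1)) (mem_toRight.1 (mem_toRight.1 h2))
  have LL : ∀ X ∈ C₁.toLeft, ∀ X' ∈ C₂.toLeft, Disjoint (SS (tri e) X) (SS (tri e) X') :=
    fun X h1 X' h2 => repa_prod (hd _ (mem_toLeft.1 h1) _ (mem_toLeft.1 h2)) (mem_univ _)
      (mem_univ _)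
  have LG : ∀ X ∈ C₁.toLeft, ∀ X' ∈ C₂.toRight.toLeft, Disjoint (SS (tri e) X) (SS (tri e) X') :=
    fun X h1 X' h2 => repa_prod (hd _ (mem_toLeft.1 h1) _ (mem_toRight.1 (mem_toLeft.1 h2)))
      (mem_univ _) (mem_singleton_self _)
  have hGL : ∀ X ∈ C₂.toLeft, ∀ X' ∈ C₁.toRight.toLeft, Disjoint (SS (tri e) X) (SS (tri e) X') :=
    fun X h1 X' h2 => repa_prod (hd _ (mem_toRight.1 (mem_toLeft.1 h2)) _ (mem_toLeft.1 h1)).symm
      (mem_univ _) (mem_singleton_self _)
  have GG : ∀ X ∈ C₁.toRight.toLeft, ∀ X' ∈ C₂.toRight.toLeft,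
      Disjoint (SS (tri e) X) (SS (tri e) X') :=
    fun X h1 X' h2 => repa_prod (hd _ (mem_toRight.1 (mem_toLeft.1 h1)) _
      (mem_toRight.1 (mem_toLeft.1 h2))) (mem_singleton_self _) (mem_singleton_self _)
  have LB : ∀ X ∈ C₁.toLeft, ∀ b ∈ C₂.toRight.toRight, b.1 ∉ X := fun X h1 b h2 hb =>
    disjoint_left.1 (hd _ (mem_toLeft.1 h1) _ (mem_toRight.1 (mem_toRight.1 h2)))
      (mem_product.2 ⟨(repa_mem_tri hb).1, mem_univ _⟩ : (b.1, false) ∈ _) (mem_insert_self _ _)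
  have BL : ∀ X ∈ C₂.toLeft, ∀ b ∈ C₁.toRight.toRight, b.1 ∉ X := fun X h1 b h2 hb =>
    disjoint_right.1 (hd _ (mem_toRight.1 (mem_toRight.1 h2)) _ (mem_toLeft.1 h1))
      (mem_product.2 ⟨(repa_mem_tri hb).1, mem_univ _⟩ : (b.1, false) ∈ _) (mem_insert_self _ _)
  have BB := repa_bal (e := e) (D₁ := C₁.toRight.toRight) (D₂ := C₂.toRight.toRight)
    fun b h1 b' h2 v hv hv' => disjoint_left.1
      (hd _ (mem_toRight.1 (mem_toRight.1 h1)) _ (mem_toRight.1 (mem_toRight.1 h2)))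
      (show (v, false) ∈ _ by rcases hv with rfl | rfl <;> simp [asupp])
      (by rcases hv' with rfl | rfl <;> simp [asupp])
  unfold wt
  rw [toLeft_union, toRight_union, toLeft_union, toRight_union, ite_zero_mul_ite_zero]
  refine if_congr ?_ ?_ rfl
  · rw [repa_compat LL, repa_compat GG, BB]
    simp only [forall_mem_union]
    constructor
    · rintro ⟨⟨a1, a2⟩, ⟨b1, b2⟩, ⟨c1, c2⟩, d1, d2⟩
      exact ⟨⟨a1, b1, fun X hX => (c1 X hX).1, d1⟩, a2, b2, fun X hX => (c2 X hX).2, d2⟩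
    · rintro ⟨⟨a1, b1, c1, d1⟩, a2, b2, c2, d2⟩
      exact ⟨⟨a1, a2⟩, ⟨b1, b2⟩, ⟨fun X hX => ⟨c1 X hX, LG X hX⟩,
        fun X hX => ⟨hGL X hX, c2 X hX⟩⟩, d1, d2⟩
  · have e1 : ∀ X ∈ C₁.toLeft, ((C₁.toRight.toRight ∪ C₂.toRight.toRight).filter
        fun b => b.1 ∈ X) = C₁.toRight.toRight.filter fun b => b.1 ∈ X := fun X hX => by
      rw [filter_union, filter_eq_empty_iff.2 (LB X hX), union_empty]
    have e2 : ∀ X ∈ C₂.toLeft, ((C₁.toRight.toRight ∪ C₂.toRight.toRight).filter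
        fun b => b.1 ∈ X) = C₂.toRight.toRight.filter fun b => b.1 ∈ X := fun X hX => by
      rw [filter_union, filter_eq_empty_iff.2 (BL X hX), empty_union]
    have e3 : ((C₁.toRight.toRight ∪ C₂.toRight.toRight).filter
        fun b => ∀ X ∈ C₁.toLeft ∪ C₂.toLeft, b.1 ∉ X) =
        (C₁.toRight.toRight.filter fun b => ∀ X ∈ C₁.toLeft, b.1 ∉ X) ∪
          C₂.toRight.toRight.filter fun b => ∀ X ∈ C₂.toLeft, b.1 ∉ X := by
      rw [filter_union]
      congr 1
      · refine filter_congr fun b hb => ?_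
        rw [forall_mem_union]
        exact and_iff_left fun X hX => BL X hX b hb
      · refine filter_congr fun b hb => ?_
        rw [forall_mem_union]
        exact and_iff_right fun X hX => LB X hX b hb
    rw [prod_union dL, prod_union dG, e3, card_union_of_disjoint (disjoint_filter_filter dB),
      pow_add, prod_congr rfl fun X hX => congrArg (qc P e x θ Λ X) (e1 X hX),
      prod_congr rfl fun X hX => congrArg (qc P e x θ Λ X) (e2 X hX)]
    ring

end Pool.Agent.MP_646035_al.H91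

end
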