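import Pool.Agent.MP_646035_al.Mg.H91_WSum
import Pool.Agent.MP_646035_al.Mg.H91_RepA
import Pool.Agent.MP_646035_al.Growth

-- part MP_646035_al.H91.Rep
section

/-!
The partition function as a polymer partition function.
-/

namespace Pool.Agent.MP_646035_al.H91

open Finset

variable {Q : Type*} [AddCommGroup Q] [DecidableEq Q] {P : Par} {e : Fin 2 → Q}

omit [DecidableEq Q] in
lemma rep_phi_pos (hP : P.Ok) (σ : Q → Bool) (b : Q × Fin 2) : 0 < 1 + P.t * chi e σ b := by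
  have h2 : (2 : ℝ) ≤ P.h := by exact_mod_cast hP.h2
  have ht : P.t < 1 := by
    unfold Par.t
    rw [div_lt_one (by positivity)]
    linarith
  have ht0 : 0 < P.t := by
    unfold Par.t
    positivity
  unfold chi
  split_ifs <;> linarith

omit [DecidableEq Q] in
lemma rep_phi_expand (σ : Q → Bool) (X : Finset Q) :
    ∏ j ∈ X, ∏ k : Fin 2, (1 + P.t * chi e σ (j, k))
      = ∑ D ∈ (X ×ˢ (univ : Finset (Fin 2))).powerset, P.t ^ D.card * ∏ b ∈ D, chi e σ b := by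
  rw [← prod_product' X univ fun j k => 1 + P.t * chi e σ (j, k), prod_one_add]
  refine sum_congr rfl fun D _ => ?_
  rw [prod_mul_distrib, prod_const]

open Classical in
lemma rep_sum_pairs {Pt Γ : Type*} [DecidableEq Γ] (supp : Γ → Finset Pt) (S : Finset Γ)
    (hne : ∀ γ ∈ S, (supp γ).Nonempty) (g : Finset Γ → Finset Γ → ℝ) :
    ∑ F ∈ S.powerset with Compat supp F, ∑ U ∈ F.powerset, g U (F \ U)
      = ∑ U ∈ S.powerset, ∑ V ∈ S.powerset,
        if Compat supp U ∧ Compat supp V ∧ ∀ X ∈ U, ∀ X' ∈ V, Disjoint (supp X) (supp X') then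
          g U V else 0 := by
  rw [← sum_product', ← sum_filter, sum_sigma']
  refine sum_nbij' (fun p => (p.2, p.1 \ p.2)) (fun p => ⟨p.1 ∪ p.2, p.1⟩) ?_ ?_ ?_ ?_
    fun _ _ => rfl
  · rintro ⟨F, U⟩ hp
    simp only [mem_sigma, mem_filter, mem_powerset, mem_product] at hp ⊢
    obtain ⟨⟨hF, hc⟩, hU⟩ := hp
    refine ⟨⟨hU.trans hF, sdiff_subset.trans hF⟩,
      fun γ hγ δ hδ => hc γ (hU hγ) δ (hU hδ),
      fun γ hγ δ hδ => hc γ (sdiff_subset hγ) δ (sdiff_subset hδ),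
      fun γ hγ δ hδ => hc γ (hU hγ) δ (sdiff_subset hδ) ?_⟩
    rintro rfl
    exact (mem_sdiff.1 hδ).2 hγ
  · rintro ⟨U, V⟩ hp
    simp only [mem_sigma, mem_filter, mem_powerset, mem_product] at hp ⊢
    obtain ⟨⟨hU, hV⟩, h1, h2, h3⟩ := hp
    refine ⟨⟨union_subset hU hV, fun γ hγ δ hδ hn => ?_⟩, subset_union_left⟩
    rcases mem_union.1 hγ with hγ | hγ <;> rcases mem_union.1 hδ with hδ | hδ
    · exact h1 γ hγ δ hδ hn
    · exact h3 γ hγ δ hδ
    · exact (h3 δ hδ γ hγ).symm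
    · exact h2 γ hγ δ hδ hn
  · rintro ⟨F, U⟩ hp
    simp only [mem_sigma, mem_filter, mem_powerset] at hp
    simp only [union_sdiff_of_subset hp.2]
  · rintro ⟨U, V⟩ hp
    simp only [mem_filter, mem_powerset, mem_product] at hp
    obtain ⟨⟨hU, -⟩, -, -, h3⟩ := hp
    have hd : Disjoint U V := disjoint_left.2 fun γ hγ hγ' =>
      (hne γ (hU hγ)).ne_empty (disjoint_self.1 (h3 γ hγ γ hγ'))
    simp only [union_sdiff_cancel_left hd]

lemma rep_sum_split {β : Type*} [DecidableEq β] (S : Finset β) (p : β → Prop) [DecidablePred p]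
    (F : Finset β → Finset β → ℝ) :
    ∑ D ∈ S.powerset, F (D.filter p) (D.filter fun b => ¬ p b)
      = ∑ D₁ ∈ (S.filter p).powerset, ∑ D₂ ∈ (S.filter fun b => ¬ p b).powerset, F D₁ D₂ := by
  rw [← sum_product']
  refine sum_nbij' (fun D => (D.filter p, D.filter fun b => ¬ p b)) (fun q => q.1 ∪ q.2)
    ?_ ?_ ?_ ?_ fun _ _ => rfl
  · intro D hD
    simp only [mem_powerset, mem_product] at hD ⊢
    exact ⟨filter_subset_filter _ hD, filter_subset_filter _ hD⟩
  · rintro ⟨D₁, D₂⟩ hq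
    simp only [mem_powerset, mem_product] at hq ⊢
    exact union_subset (hq.1.trans (filter_subset _ _)) (hq.2.trans (filter_subset _ _))
  · intro D _
    exact filter_union_filter_not_eq _ _
  · rintro ⟨D₁, D₂⟩ hq
    simp only [mem_powerset, mem_product] at hq
    have h1 : ∀ b ∈ D₁, p b := fun b hb => (mem_filter.1 (hq.1 hb)).2
    have h2 : ∀ b ∈ D₂, ¬ p b := fun b hb => (mem_filter.1 (hq.2 hb)).2
    refine Prod.ext ?_ ?_
    · ext b
      simp only [mem_filter, mem_union]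
      exact ⟨fun h => h.1.resolve_right fun h' => h2 b h' h.2, fun h => ⟨.inl h, h1 b h⟩⟩
    · ext b
      simp only [mem_filter, mem_union]
      exact ⟨fun h => h.1.resolve_left fun h' => h.2 (h1 b h'), fun h => ⟨.inr h, h2 b h⟩⟩

lemma rep_sum_disjSum {α β : Type*} (s : Finset α) (t : Finset β) (f : Finset (α ⊕ β) → ℝ) :
    ∑ C ∈ (s.disjSum t).powerset, f C
      = ∑ a ∈ s.powerset, ∑ b ∈ t.powerset, f (a.disjSum b) := by
  rw [← sum_product']
  refine sum_nbij' (fun C => (C.toLeft, C.toRight)) (fun q => q.1.disjSum q.2) ?_ ?_ ?_ ?_ ?_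
  · intro C hC
    simp only [mem_powerset, mem_product] at hC ⊢
    exact ⟨fun a ha => by simpa using hC (mem_toLeft.1 ha),
      fun b hb => by simpa using hC (mem_toRight.1 hb)⟩
  · rintro ⟨a, b⟩ hq
    simp only [mem_powerset, mem_product] at hq ⊢
    exact disjSum_mono hq.1 hq.2
  · intro C _
    exact toLeft_disjSum_toRight
  · rintro ⟨a, b⟩ _
    simp
  · intro C _
    simp only [toLeft_disjSum_toRight]

lemma rep_disj {X X' : Finset Q} (h : Disjoint (SS (tri e) X) (SS (tri e) X')) : Disjoint X X' :=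
  h.mono (subset_minus X) (subset_minus X')

lemma rep_Nb_pos (P : Par) : 0 < P.Nb := by
  unfold Par.Nb
  positivity

open Classical in
/-- Let `φ j = ∏ k, (1 + t chi σ (j, k)) > 0`.  By `Zs_eq` and `sum_eq_Xi` (atoms are sites,
supports `tri e`, weight `W X (Core Λ X) σ / (Nb ^ card X * ∏ j ∈ X, φ j)`, multiplicative by
`W_mul`, `Core_union`), `Zs / Nb ^ card Λ = (∏ j ∈ Λ, φ j) * ∑ F, ∏ X ∈ F, weight X`.  By
`sum_rc` and `Finset.prod_one_add` the weight is `Qx X / ∏ j ∈ X, φ j - θ ^ card X` with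
`Qx X = ∑ D ⊆ X ×ˢ univ, qc X D * ∏ b ∈ D, chi σ b`.  Expand the product over `F`
(`Finset.prod_add`): `F` is the union of blobs `𝒰` and ghosts `𝒱`. -/
lemma Zs_eq_blobs (hP : P.Ok) (x θ : ℝ) (Λ : Finset Q) (σ : Q → Bool) :
    Zs P e x Λ σ = P.Nb ^ Λ.card *
      ∑ 𝒰 ∈ (conns (tri e) Λ).powerset, ∑ 𝒱 ∈ (conns (tri e) Λ).powerset,
        if Compat (SS (tri e)) 𝒰 ∧ Compat (SS (tri e)) 𝒱 ∧
            ∀ X ∈ 𝒰, ∀ X' ∈ 𝒱, Disjoint (SS (tri e) X) (SS (tri e) X') then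
          (∏ X ∈ 𝒰, ∑ D ∈ (X ×ˢ (univ : Finset (Fin 2))).powerset,
              qc P e x θ Λ X D * ∏ b ∈ D, chi e σ b) * (∏ X ∈ 𝒱, -θ ^ X.card) *
            ∏ j ∈ Λ \ 𝒰.biUnion id, ∏ k : Fin 2, (1 + P.t * chi e σ (j, k))
        else 0 := by
  set φ : Q → ℝ := fun j => ∏ k : Fin 2, (1 + P.t * chi e σ (j, k)) with hφ
  have hφ0 : ∀ X : Finset Q, 0 < ∏ j ∈ X, φ j := fun X =>
    prod_pos fun j _ => prod_pos fun k _ => rep_phi_pos hP σ _
  have hN := rep_Nb_pos P
  set w : Finset Q → ℝ := fun X =>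
    W P e x X (Core e Λ X) σ / (P.Nb ^ X.card * ∏ j ∈ X, φ j) with hw
  set Qx : Finset Q → ℝ := fun X => ∑ D ∈ (X ×ˢ (univ : Finset (Fin 2))).powerset,
    qc P e x θ Λ X D * ∏ b ∈ D, chi e σ b with hQx
  have h1 : Zs P e x Λ σ = P.Nb ^ Λ.card * ((∏ j ∈ Λ, φ j) * ∑ X ∈ Λ.powerset, w X) := by
    rw [Zs_eq hP, mul_sum, mul_sum]
    refine sum_congr rfl fun X hX => ?_
    rw [mem_powerset] at hX
    have e1 : ∏ j ∈ Λ, φ j = (∏ j ∈ Λ \ X, φ j) * ∏ j ∈ X, φ j := (prod_sdiff hX).symm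
    have e2 : P.Nb ^ Λ.card = P.Nb ^ (Λ \ X).card * P.Nb ^ X.card := by
      rw [← pow_add, card_sdiff_add_card_eq_card hX]
    have := hφ0 X
    rw [prod_mul_distrib, prod_const, e1, e2, hw]
    field_simp
    rfl
  have h2 : ∑ X ∈ Λ.powerset, w X = Xi (SS (tri e)) w (conns (tri e) Λ) := by
    refine sum_eq_Xi Λ (fun j _ => ⟨j, mem_tri.2 (.inl rfl)⟩) w ?_ ?_
    · have : Core e Λ (∅ : Finset Q) = ∅ := subset_empty.1 (Core_subset _ _)
      simp [hw, this, W_empty]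
    · intro C₁ _ C₂ _ hd
      have hd' := rep_disj hd
      simp only [hw]
      rw [Core_union _ hd, W_mul hd (Core_subset _ _) (Core_subset _ _),
        card_union_of_disjoint hd', prod_union hd', pow_add, div_mul_div_comm]
      congr 1
      ring
  have h3 : ∀ X ∈ conns (tri e) Λ, w X = Qx X / ∏ j ∈ X, φ j + -θ ^ X.card := by
    intro X hX
    have hq : Qx X = W P e x X (Core e Λ X) σ / P.Nb ^ X.card + θ ^ X.card * ∏ j ∈ X, φ j := by
      rw [← sum_rc (mem_conns.1 hX).2 (Core_subset _ _), hφ, rep_phi_expand, mul_sum,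
        ← sum_add_distrib]
      refine sum_congr rfl fun D _ => ?_
      unfold qc
      ring
    have := hφ0 X
    rw [hq, hw]
    field_simp
    ring
  rw [h1, h2, Xi_congr h3]
  congr 1
  unfold Xi
  simp only [prod_add]
  rw [rep_sum_pairs (SS (tri e)) (conns (tri e) Λ)
    (fun X hX => (mem_conns.1 hX).2.1.mono (subset_minus X))
    fun U V => (∏ X ∈ U, Qx X / ∏ j ∈ X, φ j) * ∏ X ∈ V, -θ ^ X.card, mul_sum]
  refine sum_congr rfl fun U hU => ?_
  rw [mul_sum]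
  refine sum_congr rfl fun V _ => ?_
  split_ifs with hc
  · have hs : U.biUnion id ⊆ Λ :=
      biUnion_subset.2 fun X hX => (mem_conns.1 (mem_powerset.1 hU hX)).1
    have e1 : ∏ j ∈ U.biUnion id, φ j = ∏ X ∈ U, ∏ j ∈ X, φ j :=
      prod_biUnion fun X hX X' hX' hn => rep_disj (hc.1 X hX X' hX' hn)
    have e2 : 0 < ∏ X ∈ U, ∏ j ∈ X, φ j := prod_pos fun X _ => hφ0 X
    rw [← prod_sdiff hs, e1, prod_div_distrib]
    field_simp
  · exact mul_zero _

/-- For pairwise disjoint `X ∈ 𝒰` a set of bonds owned by `Λ` is the disjoint union of its parts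
owned by the `X` and the rest (induction on `𝒰`, generalising `Λ`). -/
lemma prod_blobs (x θ : ℝ) (Λ' : Set Q) {Λ : Finset Q} {𝒰 : Finset (Finset Q)}
    (h𝒰 : ∀ X ∈ 𝒰, X ⊆ Λ) (hd : ∀ X ∈ 𝒰, ∀ X' ∈ 𝒰, X ≠ X' → Disjoint X X') (σ : Q → Bool) :
    (∏ X ∈ 𝒰, ∑ D ∈ (X ×ˢ (univ : Finset (Fin 2))).powerset,
        qc P e x θ Λ' X D * ∏ b ∈ D, chi e σ b) *
      ∏ j ∈ Λ \ 𝒰.biUnion id, ∏ k : Fin 2, (1 + P.t * chi e σ (j, k))
    = ∑ D ∈ (Λ ×ˢ (univ : Finset (Fin 2))).powerset,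
        (∏ X ∈ 𝒰, qc P e x θ Λ' X (D.filter fun b => b.1 ∈ X)) *
          P.t ^ (D.filter fun b => ∀ X ∈ 𝒰, b.1 ∉ X).card * ∏ b ∈ D, chi e σ b := by
  induction 𝒰 using Finset.induction_on generalizing Λ with
  | empty =>
    rw [biUnion_empty, sdiff_empty, rep_phi_expand]
    simp
  | insert X₀ 𝒰 hn ih =>
    have hd0 : ∀ X ∈ 𝒰, Disjoint X₀ X := fun X hX =>
      hd X₀ (mem_insert_self _ _) X (mem_insert_of_mem hX) fun h => hn (h ▸ hX)
    have ih' := ih (Λ := Λ \ X₀)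
      (fun X hX => subset_sdiff.2 ⟨h𝒰 X (mem_insert_of_mem hX), (hd0 X hX).symm⟩)
      fun X hX X' hX' => hd X (mem_insert_of_mem hX) X' (mem_insert_of_mem hX')
    have e1 : Λ \ (insert X₀ 𝒰).biUnion id = (Λ \ X₀) \ 𝒰.biUnion id := by
      rw [biUnion_insert, sdiff_sdiff_left]
      rfl
    have e2 : X₀ ×ˢ (univ : Finset (Fin 2))
        = (Λ ×ˢ (univ : Finset (Fin 2))).filter fun b => b.1 ∈ X₀ := by
      ext b
      simp only [mem_product, mem_univ, and_true, mem_filter]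
      exact ⟨fun h => ⟨h𝒰 X₀ (mem_insert_self _ _) h, h⟩, fun h => h.2⟩
    have e3 : (Λ \ X₀) ×ˢ (univ : Finset (Fin 2))
        = (Λ ×ˢ (univ : Finset (Fin 2))).filter fun b => ¬ b.1 ∈ X₀ := by
      ext b
      simp only [mem_product, mem_univ, and_true, mem_filter, mem_sdiff]
    rw [prod_insert hn, e1, mul_assoc, ih', sum_mul_sum, e2, e3,
      ← rep_sum_split (Λ ×ˢ (univ : Finset (Fin 2))) (fun b => b.1 ∈ X₀)
        fun D₁ D₂ => (qc P e x θ Λ' X₀ D₁ * ∏ b ∈ D₁, chi e σ b) *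
          ((∏ X ∈ 𝒰, qc P e x θ Λ' X (D₂.filter fun b => b.1 ∈ X)) *
            P.t ^ (D₂.filter fun b => ∀ X ∈ 𝒰, b.1 ∉ X).card * ∏ b ∈ D₂, chi e σ b)]
    refine sum_congr rfl fun D _ => ?_
    have f1 : ∀ X ∈ 𝒰, ((D.filter fun b => ¬ b.1 ∈ X₀).filter fun b => b.1 ∈ X)
        = D.filter fun b => b.1 ∈ X := fun X hX => by
      ext b
      simp only [mem_filter]
      exact ⟨fun h => ⟨h.1.1, h.2⟩,
        fun h => ⟨⟨h.1, disjoint_right.1 (hd0 X hX) h.2⟩, h.2⟩⟩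
    have f2 : ((D.filter fun b => ¬ b.1 ∈ X₀).filter fun b => ∀ X ∈ 𝒰, b.1 ∉ X)
        = D.filter fun b => ∀ X ∈ insert X₀ 𝒰, b.1 ∉ X := by
      ext b
      simp only [mem_filter, forall_mem_insert, and_assoc]
    have f3 : ∏ X ∈ 𝒰, qc P e x θ Λ' X ((D.filter fun b => ¬ b.1 ∈ X₀).filter fun b => b.1 ∈ X)
        = ∏ X ∈ 𝒰, qc P e x θ Λ' X (D.filter fun b => b.1 ∈ X) :=
      prod_congr rfl fun X hX => by rw [f1 X hX]
    rw [prod_insert hn, f2, f3,
      ← prod_filter_mul_prod_filter_not D (fun b => b.1 ∈ X₀) (chi e σ)]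
    ring

/-- Sum `Zs_eq_blobs` over the types (`prod_blobs`, `sum_chi`), identify the triples
`(𝒰, 𝒱, D)` with the subsets `𝒰.disjSum (𝒱.disjSum D)` of `atoms e Λ`, and apply `sum_eq_Xi`
with `wt_mul`. -/
theorem Z_eq_Xi (hP : P.Ok) (x θ : ℝ) (Λ : Finset Q) :
    Z P e x Λ = P.Nb ^ Λ.card * 2 ^ (SS (tri e) Λ).card *
      Xi (SS (asupp e)) (wt P e x θ Λ) (conns (asupp e) (atoms e Λ)) := by
  classical
  rw [← sum_eq_Xi (atoms e Λ) (fun α hα => asupp_nonempty (mem_atoms hα)) (wt P e x θ Λ)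
    (wt_empty x θ _) fun C₁ h₁ C₂ h₂ hd => wt_mul x θ _ (fun α hα => mem_atoms (h₁ hα))
      (fun α hα => mem_atoms (h₂ hα)) hd]
  unfold Z atoms
  simp only [Zs_eq_blobs hP x θ]
  rw [← mul_sum, mul_assoc, rep_sum_disjSum, sum_comm]
  congr 1
  rw [mul_sum]
  refine sum_congr rfl fun U hU => ?_
  rw [rep_sum_disjSum, sum_comm, mul_sum]
  refine sum_congr rfl fun V _ => ?_
  by_cases hc : Compat (SS (tri e)) U ∧ Compat (SS (tri e)) V ∧
      ∀ X ∈ U, ∀ X' ∈ V, Disjoint (SS (tri e) X) (SS (tri e) X')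
  · have hb := prod_blobs (P := P) (e := e) x θ (Λ : Set Q) (Λ := Λ) (𝒰 := U)
      (fun X hX => (mem_conns.1 (mem_powerset.1 hU hX)).1)
      fun X hX X' hX' hn => rep_disj (hc.1 X hX X' hX' hn)
    simp only [if_pos hc, mul_right_comm _ (∏ X ∈ V, -θ ^ X.card), hb]
    rw [← sum_mul, sum_comm, sum_mul, mul_sum]
    refine sum_congr rfl fun D hD => ?_
    have hD' : ∀ b ∈ D, b.1 ∈ SS (tri e) Λ ∧ b.1 - e b.2 ∈ SS (tri e) Λ := fun b hb => by
      have := (mem_product.1 (mem_powerset.1 hD hb)).1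
      exact ⟨subset_minus Λ this, sub_mem_minus this _⟩
    rw [← mul_sum, sum_chi hD']
    unfold wt
    simp only [toLeft_disjSum, toRight_disjSum]
    by_cases hB : Bal e D
    · rw [if_pos hB, if_pos ⟨hc.1, hc.2.1, hc.2.2, hB⟩]
      ring
    · rw [if_neg hB, if_neg fun h => hB h.2.2.2]
      ring
  · simp only [if_neg hc, sum_const_zero]
    rw [sum_eq_zero, mul_zero]
    intro D _
    unfold wt
    simp only [toLeft_disjSum, toRight_disjSum]
    exact if_neg fun h => hc ⟨h.1, h.2.1, h.2.2.1⟩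

end Pool.Agent.MP_646035_al.H91

end

-- part MP_646035_al.H91.Analytic
section

/-!
The partition function of a thin helix grows faster than that of a much wider one.
-/

namespace Pool.Agent.MP_646035_al.H91

open Finset

variable {P : Par}

lemma analytic_Nb_pos (P : Par) : 0 < P.Nb := by
  unfold Par.Nb
  positivity

lemma analytic_SS_sub {n : ℕ} (hn : 1 ≤ n) (a : ℤ) (L : ℕ) :
    Ico a (a + L) ⊆ SS (tri (eC n)) (Ico a (a + L)) ∧
      SS (tri (eC n)) (Ico a (a + L)) ⊆ Ico (a - n) (a + L) := by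
  constructor
  · intro j hj
    exact mem_SS.2 ⟨j, hj, by simp [tri]⟩
  · intro p hp
    obtain ⟨j, hj, hp⟩ := mem_SS.1 hp
    simp only [tri, eC, mem_insert, mem_singleton, mem_Ico] at hp hj ⊢
    omega

lemma analytic_mem_sites {n : ℕ} {C : Finset (Atom ℤ)} {q : ℤ × Bool}
    (h : q ∈ SS (asupp (eC n)) C) : q.1 ∈ sites (eC n) C := mem_image_of_mem _ h

lemma analytic_shift {L M : ℕ} {k : ℕ} (h : M = L - k) (u : ℝ) : |L * u - M * u| ≤ k * |u| := by
  rw [← sub_mul, abs_mul]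
  refine mul_le_mul_of_nonneg_right ?_ (abs_nonneg _)
  have h1 : (M : ℝ) ≤ L := by exact_mod_cast (by omega : M ≤ L)
  have h2 : (L : ℝ) ≤ M + k := by exact_mod_cast (by omega : L ≤ M + k)
  rw [abs_le]
  constructor <;> linarith [Nat.cast_nonneg (α := ℝ) k]

lemma analytic_away {n : ℕ} (hn : 1 ≤ n) (a : ℤ) {L M : ℕ} (hM : M = L - (n + 1)) :
    away (SS (asupp (eC n))) (conns (asupp (eC n)) (atoms (eC n) (Ico a (a + L))))
      ((Ico (a - n) (a + 1) ∪ Ico (a + 1 + M) (a + L)) ×ˢ univ) =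
      polys (eC n) (Ico (a + 1) (a + 1 + M)) := by
  obtain ⟨-, s2⟩ := analytic_SS_sub hn a L
  ext C
  rw [away, mem_filter, mem_polys]
  constructor
  · rintro ⟨h1, h2⟩
    obtain ⟨h3, h4⟩ := valid_of_mem_conns h1
    refine ⟨h3, fun p hp => ?_⟩
    have h5 := s2 (h4 hp)
    obtain ⟨q, hq, rfl⟩ := mem_image.1 hp
    have h6 := disjoint_left.1 h2 hq
    simp only [mem_product, mem_univ, and_true, mem_union, mem_Ico] at h5 h6 ⊢
    omega
  · rintro ⟨h1, h2⟩
    constructor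
    · refine filter_subset _ _ (mem_polys.2 ⟨h1, fun p hp => ?_⟩ :
        C ∈ polys (eC n) (Ico a (a + L)))
      have := h2 hp
      simp only [mem_Ico] at this ⊢
      omega
    · refine disjoint_left.2 fun q hq hq' => ?_
      have := h2 (analytic_mem_sites hq)
      simp only [mem_product, mem_univ, and_true, mem_union, mem_Ico] at this hq'
      omega

lemma analytic_card (n : ℕ) (a : ℤ) {L M : ℕ} (hM : M = L - (n + 1)) :
    ((((Ico (a - n) (a + 1) ∪ Ico (a + 1 + M) (a + L)) ×ˢ (univ : Finset Bool)).card : ℕ) : ℝ)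
      ≤ 4 * n + 2 := by
  have h1 := card_union_le (Ico (a - n) (a + 1)) (Ico (a + 1 + M) (a + L))
  rw [Int.card_Ico, Int.card_Ico] at h1
  have h2 : ((Ico (a - n) (a + 1) ∪ Ico (a + 1 + M) (a + L)) ×ˢ (univ : Finset Bool)).card
      ≤ 4 * n + 2 := by
    rw [card_product, card_univ, Fintype.card_bool]
    omega
  exact_mod_cast h2

lemma analytic_log {c L n : ℕ} {N X W : ℝ} (hN : 0 < N) (hX : 0 < X) (c1 : L ≤ c)
    (c2 : c ≤ L + n) (hD : |Real.log X - W| ≤ 4 * n + 2) :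
    |Real.log (N ^ L * 2 ^ c * X) - L * Real.log (2 * N) - W| ≤ 5 * n + 2 := by
  rw [Real.log_mul (by positivity) hX.ne', Real.log_mul (by positivity) (by positivity),
    Real.log_pow, Real.log_pow, Real.log_mul (by positivity) hN.ne']
  have l0 : 0 ≤ Real.log 2 := Real.log_nonneg one_le_two
  have l1 : Real.log 2 ≤ 1 := by linarith [Real.log_two_lt_d9]
  have m1 := mul_le_mul_of_nonneg_right (Nat.cast_le (α := ℝ).2 c1) l0
  have m2 := mul_le_mul_of_nonneg_right (Nat.cast_le (α := ℝ).2 c2) l0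
  have m3 : (n : ℝ) * Real.log 2 ≤ n := mul_le_of_le_one_right (Nat.cast_nonneg n) l1
  have m4 : (0 : ℝ) ≤ n := Nat.cast_nonneg n
  rw [Nat.cast_add, add_mul] at m2
  rw [mul_add, abs_le]
  obtain ⟨d1, d2⟩ := abs_le.1 hD
  constructor <;> linarith

/-- `Z_eq_Xi`; `L ≤ card (SS (tri e) Λ) ≤ L + n`; the polymers over `Ico (a + 1) (a + L - n)` are
those of `conns (atoms Λ)` that avoid the at most `2 (2 n + 1)` points over the rest of
`Ico (a - n) (a + L)` (`KP.Dl_le`), and for them `wt_window` applies (`Xi_congr`). -/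
lemma log_Z_window (hP : P.Ok) {x θ Y : ℝ} (h : Conv P x θ Y) {n : ℕ} (hn : 1 ≤ n) (a : ℤ)
    (L : ℕ) :
    0 < Z P (eC n) x (Ico a (a + L)) ∧
    |Real.log (Z P (eC n) x (Ico a (a + L))) - L * Real.log (2 * P.Nb) -
      Real.log (Xi (SS (asupp (eC n))) (wt P (eC n) x θ Set.univ)
        (polys (eC n) (Ico (a + 1) (a + 1 + (L - (n + 1) : ℕ)))))| ≤ 5 * n + 2 := by
  obtain ⟨M, hM⟩ : ∃ M, M = L - (n + 1) := ⟨_, rfl⟩
  rw [← hM]
  have kp : KP (SS (asupp (eC n))) (wt P (eC n) x θ (Ico a (a + L) : Finset ℤ))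
      (conns (asupp (eC n)) (atoms (eC n) (Ico a (a + L)))) :=
    kp_of_valid (h.rbC n hn) h.hθ h.hY h.htY h.hθY _ _ fun C hC => (valid_of_mem_conns hC).1
  obtain ⟨s1, s2⟩ := analytic_SS_sub hn a L
  have hD := (kp.Dl_le subset_rfl _).trans (analytic_card n a hM)
  rw [Dl, analytic_away hn a hM, Xi_congr (w' := wt P (eC n) x θ Set.univ)
    (Λ := polys (eC n) (Ico (a + 1) (a + 1 + M))) (fun C hC => wt_window (fun y hy p hp => by
      have := (mem_polys.1 hC).2 hy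
      simp only [star, eC, mem_insert, mem_singleton, mem_Ico, coe_Ico, Set.mem_Ico] at this hp ⊢
      omega) x θ)] at hD
  have hX := kp.pos subset_rfl
  have hN := analytic_Nb_pos P
  have c1 := card_le_card s1
  have c2 := card_le_card s2
  rw [Int.card_Ico] at c1 c2
  have c3 : (Ico a (a + L)).card = L := by
    rw [Int.card_Ico]
    omega
  rw [Z_eq_Xi hP x θ, c3]
  exact ⟨by positivity, analytic_log hN hX (by omega) (by omega) hD⟩

/-- `|log Xi (polys A)| ≤ 2 card A` by `KP.Dl_le` (all polymers meet `A ×ˢ univ`); `exp 2 ≤ 9`. -/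
lemma Z_lower (hP : P.Ok) {x θ Y : ℝ} (h : Conv P x θ Y) {n : ℕ} (hn : 1 ≤ n) :
    ∃ C : ℝ, 0 < C ∧ ∀ L : ℕ, (2 * P.Nb / 9) ^ L ≤ C * Z P (eC n) x (Ico 0 (L : ℤ)) := by
  refine ⟨Real.exp (5 * n + 2), Real.exp_pos _, fun L => ?_⟩
  obtain ⟨h1, h2⟩ := log_Z_window hP h hn 0 L
  set M : ℕ := L - (n + 1) with hM
  set A : Finset ℤ := Ico (0 + 1) (0 + 1 + M) with hA
  have kp : KP (SS (asupp (eC n))) (wt P (eC n) x θ Set.univ) (polys (eC n) A) :=
    kp_of_valid (h.rbC n hn) h.hθ h.hY h.htY h.hθY _ _ fun C hC => (mem_polys.1 hC).1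
  have hD := kp.Dl_le subset_rfl (A ×ˢ univ)
  have haw : away (SS (asupp (eC n))) (polys (eC n) A) (A ×ˢ univ) = ∅ := by
    refine filter_eq_empty_iff.2 fun C hC hd => ?_
    obtain ⟨q, hq⟩ := (mem_polys.1 hC).1.nonempty
    exact disjoint_left.1 hd hq
      (mem_product.2 ⟨(mem_polys.1 hC).2 (analytic_mem_sites hq), mem_univ _⟩)
  have hc : (((A ×ˢ (univ : Finset Bool)).card : ℕ) : ℝ) ≤ 2 * L := by
    have : (A ×ˢ (univ : Finset Bool)).card ≤ 2 * L := by
      rw [card_product, card_univ, Fintype.card_bool, hA, Int.card_Ico]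
      omega
    exact_mod_cast this
  rw [Dl, haw, Xi_empty, Real.log_one, sub_zero] at hD
  rw [zero_add] at h1 h2
  have hN := analytic_Nb_pos P
  have l9 : 2 ≤ Real.log 9 := by
    rw [Real.le_log_iff_exp_le (by norm_num), show (2 : ℝ) = 1 + 1 by norm_num, Real.exp_add]
    nlinarith [Real.exp_one_lt_d9, Real.exp_pos 1]
  rw [← Real.log_le_log_iff (by positivity) (by positivity), Real.log_pow,
    Real.log_div (by positivity) (by norm_num), Real.log_mul (by positivity) h1.ne', Real.log_exp]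
  nlinarith [(abs_le.1 hD).1, (abs_le.1 h2).1, Nat.cast_nonneg (α := ℝ) L]

/-- Let `g = (t / 3) ^ (n + 1) / 2`.  For `n ≥ n₀` we have
`2 / (Y ^ 2) ^ (n - 2) + 1 / (Y ^ 2) ^ n ≤ g / 4` as `1 / Y ^ 2 ≤ t / 6`.  Choose `n'` with
`2 / (Y ^ 2) ^ (n' - 2) + exp (-n' / 2) ≤ g / 4`, then `R` with `16 (n + n') / R ≤ g / 4`, and put
`log A₁ = log (2 Nb) + pl R + 2 / (Y ^ 2) ^ (n' - 2) + 16 n' / R + exp (-n' / 2)`,
`log A₂ = log (2 Nb) + pl R - 2 / (Y ^ 2) ^ (n - 2) - 16 n / R + g - 1 / (Y ^ 2) ^ n`;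
use `log_Z_window`, `bulk`, `large_le`, `large_ge`, `abs_pl_le` with `M = L - (n + 1)`. -/
theorem analytic (hP : P.Ok) {θ Y : ℝ} (hYt : 6 ≤ P.t * Y ^ 2) :
    ∃ n₀, 1 ≤ n₀ ∧ ∀ n, n₀ ≤ n → ∀ x, Conv P x θ Y → ∃ n', n₀ ≤ n' ∧ ∃ A₁ A₂ C : ℝ,
      0 < A₁ ∧ A₁ < A₂ ∧ 0 < C ∧ (∀ (a : ℤ) (L : ℕ), Z P (eC n') x (Ico a (a + L)) ≤ C * A₁ ^ L) ∧
        ∀ L : ℕ, A₂ ^ L ≤ C * Z P (eC n) x (Ico 0 (L : ℤ)) := by
  have t0 := t_pos P
  have t1 := t_le_one P
  have hT : 6 ≤ Y ^ 2 := by nlinarith [sq_nonneg Y]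
  have hT0 : 0 < Y ^ 2 := by linarith
  have hr : 1 / Y ^ 2 ≤ P.t / 3 / 2 := by
    rw [div_le_iff₀ hT0]
    linarith
  obtain ⟨m, hm⟩ := pow_unbounded_of_one_lt (24 / (P.t / 3) ^ 3) (one_lt_two (α := ℝ))
  refine ⟨m + 3, by omega, fun n hn x h => ?_⟩
  obtain ⟨g, hg⟩ : ∃ g : ℝ, g = (P.t / 3) ^ (n + 1) / 2 := ⟨_, rfl⟩
  have g0 : 0 < g := by rw [hg]; positivity
  have e1 : 2 / (Y ^ 2) ^ (n - 2) + 1 / (Y ^ 2) ^ n ≤ g / 4 := by
    obtain ⟨k, rfl⟩ : ∃ k, n = k + 2 := ⟨n - 2, by omega⟩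
    rw [Nat.add_sub_cancel]
    have a1 : 1 / (Y ^ 2) ^ (k + 2) ≤ 1 / (Y ^ 2) ^ k :=
      one_div_le_one_div_of_le (by positivity) (pow_le_pow_right₀ (by linarith) (by omega))
    have a2 : 1 / (Y ^ 2) ^ k ≤ (P.t / 3) ^ k / 2 ^ k := by
      rw [← one_div_pow, ← div_pow]
      exact pow_le_pow_left₀ (by positivity) hr k
    have a3 : 24 ≤ 2 ^ k * (P.t / 3) ^ 3 := by
      rw [div_lt_iff₀ (by positivity)] at hm
      exact hm.le.trans (mul_le_mul_of_nonneg_right
        (pow_le_pow_right₀ one_le_two (by omega)) (by positivity))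
    have a4 : (P.t / 3) ^ k / 2 ^ k ≤ g / 12 := by
      rw [hg, div_le_iff₀ (by positivity), show k + 2 + 1 = k + 3 by ring, pow_add]
      nlinarith [pow_pos (show 0 < P.t / 3 by positivity) k]
    have a5 : 2 / (Y ^ 2) ^ k = 2 * (1 / (Y ^ 2) ^ k) := by ring
    linarith
  have lim : Filter.Tendsto (fun k : ℕ => 2 / (Y ^ 2) ^ (k - 2) + Real.exp (-(k : ℝ) / 2))
      Filter.atTop (nhds (0 + 0)) := by
    refine Filter.Tendsto.add ?_ ?_
    · exact ((tendsto_pow_atTop_atTop_of_one_lt (by linarith : 1 < Y ^ 2)).comp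
        (Filter.tendsto_sub_atTop_nat 2)).const_div_atTop 2
    · refine Real.tendsto_exp_atBot.comp ?_
      exact (Filter.tendsto_neg_atTop_atBot.comp tendsto_natCast_atTop_atTop).atBot_div_const
        two_pos
  obtain ⟨n', hn', e2⟩ := ((Filter.eventually_ge_atTop (m + 3)).and
    (lim.eventually_le_const (show 0 + 0 < g / 4 by linarith))).exists
  obtain ⟨R₀, hR₀⟩ := exists_nat_ge (64 * (n + n') / g)
  have e3 : 16 * n / ((R₀ + 1 : ℕ) : ℝ) + 16 * n' / ((R₀ + 1 : ℕ) : ℝ) ≤ g / 4 := by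
    rw [div_le_iff₀ g0] at hR₀
    rw [← add_div, div_le_iff₀ (by positivity)]
    push_cast
    nlinarith
  have hR : 1 ≤ R₀ + 1 := by omega
  generalize R₀ + 1 = R at e3 hR
  obtain ⟨u₁, hu₁⟩ : ∃ u : ℝ, u = pl P x θ R + (2 / (Y ^ 2) ^ (n' - 2) + 16 * n' / R)
    + Real.exp (-(n' : ℝ) / 2) := ⟨_, rfl⟩
  obtain ⟨u₂, hu₂⟩ : ∃ u : ℝ, u = pl P x θ R - (2 / (Y ^ 2) ^ (n - 2) + 16 * n / R)
    + g - 1 / (Y ^ 2) ^ n := ⟨_, rfl⟩
  obtain ⟨K₁, hK₁⟩ : ∃ K : ℝ, K = 5 * n' + 2 + 4 * (n' * (n' + 1) + 1)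
    + ((n' + 1 : ℕ) : ℝ) * |u₁| := ⟨_, rfl⟩
  obtain ⟨K₂, hK₂⟩ : ∃ K : ℝ, K = 5 * n + 2 + 4 * (n * (n + 1) + 1) + n * g
    + ((n + 1 : ℕ) : ℝ) * |u₂| := ⟨_, rfl⟩
  have k1 : 0 ≤ K₁ := by rw [hK₁]; positivity
  have k2 : 0 ≤ K₂ := by rw [hK₂]; positivity
  refine ⟨n', hn', Real.exp (Real.log (2 * P.Nb) + u₁), Real.exp (Real.log (2 * P.Nb) + u₂),
    Real.exp (K₁ + K₂), Real.exp_pos _, Real.exp_lt_exp.2 (by linarith), Real.exp_pos _,
    fun a L => ?_, fun L => ?_⟩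
  · obtain ⟨h1, h2⟩ := log_Z_window hP h (n := n') (by omega) a L
    have h3 := bulk h (n := n') (by omega) hR (a + 1) (L - (n' + 1))
    have h4 := large_le h (n := n') (by omega) (a + 1) (L - (n' + 1))
    have h5 := analytic_shift (rfl : L - (n' + 1) = _) u₁
    rw [← Real.exp_nat_mul, ← Real.exp_add, ← Real.log_le_iff_le_exp h1]
    have h6 := congrArg (((L - (n' + 1) : ℕ) : ℝ) * ·) hu₁
    simp only [mul_add] at h3 h6 ⊢
    linarith [(abs_le.1 h2).2, (abs_le.1 h3).2, (abs_le.1 h5).1]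
  · obtain ⟨h1, h2⟩ := log_Z_window hP h (n := n) (by omega) 0 L
    have h3 := bulk h (n := n) (by omega) hR (0 + 1) (L - (n + 1))
    have h4 := large_ge h (n := n) (by omega) (0 + 1) (L - (n + 1))
    have h5 := analytic_shift (rfl : L - (n + 1) = _) u₂
    rw [zero_add (L : ℤ)] at h1 h2
    rw [← Real.exp_nat_mul, ← Real.exp_log h1, ← Real.exp_add, Real.exp_le_exp]
    rw [← hg, sub_mul, div_eq_mul_one_div] at h4
    have h6 := congrArg (((L - (n + 1) : ℕ) : ℝ) * ·) hu₂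
    simp only [mul_add, mul_sub] at h3 h6 ⊢
    have h7 := (abs_le.1 h2).1
    have h8 := (abs_le.1 h3).1
    have h9 := (abs_le.1 h5).2
    generalize Real.log (Xi _ _ (polys (eC n) _)) = A at *
    generalize Real.log (Xi _ _ (spolys n _)) = B at *
    generalize Real.log (Z P (eC n) x _) = C at *
    generalize ((L - (n + 1) : ℕ) : ℝ) = M at *
    linarith only [h4, h6, h7, h8, h9, k1, hK₂]

end Pool.Agent.MP_646035_al.H91

end

-- part MP_646035_al.H91.RelA
section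

/-!
Optimal moves stay near the sites of positive cost.
-/

namespace Pool.Agent.MP_646035_al.H91

open Finset

variable {Q : Type*} [AddCommGroup Q] [DecidableEq Q] {P : Par} {e : Fin 2 → Q}

/-- `m` is an optimal move. -/
def Opt (P : Par) (e : Fin 2 → Q) (X V : Finset Q) (c m : Q → St) : Prop :=
  m ∈ Moves P e X V c ∧
    ∀ m' ∈ Moves P e X V c, En P e X (app P e c m) ≤ En P e X (app P e c m')

/-- `p` lies in a segment in direction `e 0` on which `ρ` has mean at least one. -/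
def Charged (e : Fin 2 → Q) (ρ : Q → ℕ) (p : Q) : Prop :=
  ∃ a b : ℕ, a + b + 1 ≤ ∑ k ∈ Icc (-(a : ℤ)) b, ρ (p + k • e 0)

lemma rela_lamp_mono (hP : P.Ok) {σ σ' τ τ' : Bool} {ν ν' μ μ' : ℕ} (z : ℤ) (h1 : ν ≤ μ)
    (h2 : ν' ≤ μ') (h3 : μ = 0 → τ = σ) (h4 : μ' = 0 → τ' = σ') :
    lampC P τ τ' μ μ' z ≤ lampC P σ σ' ν ν' z := by
  obtain ⟨ha, hb⟩ := (lampC_le_iff hP σ σ' ν ν' z _).1 le_rfl
  refine (lampC_le_iff hP τ τ' μ μ' z _).2 ⟨ha.trans ?_, fun hk hh => hb hk ?_⟩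
  · have h1' : (ν : ℤ) ≤ μ := by exact_mod_cast h1
    have h2' : (ν' : ℤ) ≤ μ' := by exact_mod_cast h2
    have : 2 * (P.h : ℤ) * (1 + ν + ν') ≤ 2 * P.h * (1 + μ + μ') :=
      mul_le_mul_of_nonneg_left (by omega) (by positivity)
    omega
  · obtain ⟨a, b, c, d⟩ := hh
    obtain rfl := h3 a
    obtain rfl := h4 b
    exact ⟨by omega, by omega, c, d⟩

lemma rela_uC_flip {σ τ : Bool} {z : ℤ} (h : uC P σ 0 z = 0) (hne : τ ≠ σ) : 1 ≤ uC P τ 0 z := by
  by_contra hc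
  have h1 := (uC_le_iff P σ 0 z 0).1 h.le
  have h2 := (uC_le_iff P τ 0 z 0).1 (by omega)
  rw [sg_ne hne] at h1
  rw [abs_le] at h1 h2
  rcases sg_cases τ with hs | hs <;> rw [hs] at h1 h2 <;> push_cast at h1 h2 <;> omega

lemma rela_uC_one {σ : Bool} {z : ℤ} (h : uC P σ 0 z = 0) : uC P σ 1 z = 0 := by
  have h1 := (uC_le_iff P σ 0 z 0).1 h.le
  refine Nat.le_zero.1 ((uC_le_iff P σ 1 z 0).2 (h1.trans ?_))
  push_cast
  omega

/-- Suppose not.  Change `m` at `y` to `idm c y` and, at each of the four neighbours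
`s = y ± e k` where `m` flips the type with `ν = 0`, to `((c s).1, 1, 0)` (such `s` lie in
`V ⊆ X`).  The digits do not change; `ν + uC` drops at `y` and does not grow at the `s`; the lamps
served by `y` cost nothing afterwards, the other lamps do not cost more (`lampC_le_iff`,
`uC_le_iff`).  This contradicts optimality. -/
lemma near_of_opt (hP : P.Ok) (he : ∀ k, e k ≠ 0) {X V : Finset Q} (hV : V ⊆ X) {c m : Q → St}
    (hν : ∀ j ∉ X, (c j).2.1 = 0) (hm : Opt P e X V c m) {y : Q} (hy : m y ≠ idm c y) :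
    ∃ p ∈ ({y, y + e 0, y - e 0, y + e 1, y - e 1, y + e 0 + e 0} : Finset Q),
      (p ∈ X ∧ E P e c p ≠ 0) ∨ (m p).2.2 ≠ 0 := by
  classical
  by_contra hcon
  push Not at hcon
  have hE : ∀ p ∈ ({y, y + e 0, y - e 0, y + e 1, y - e 1, y + e 0 + e 0} : Finset Q),
      p ∈ X → E P e c p = 0 := fun p hp => (hcon p hp).1
  have hκ : ∀ p ∈ ({y, y + e 0, y - e 0, y + e 1, y - e 1, y + e 0 + e 0} : Finset Q),
      (m p).2.2 = 0 := fun p hp => (hcon p hp).2
  obtain ⟨⟨hsupp, hbox⟩, hopt⟩ := hm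
  have hyV : y ∈ V := by
    by_contra h
    exact hy (hsupp y h)
  have hyX : y ∈ X := hV hyV
  -- the neighbours
  let Nb : Q → Prop := fun s => ∃ k : Fin 2, s = y + e k ∨ s = y - e k
  have hNb : ∀ s, Nb s → s ∈ ({y, y + e 0, y - e 0, y + e 1, y - e 1, y + e 0 + e 0} : Finset Q) := by
    rintro s ⟨k, rfl | rfl⟩ <;> fin_cases k <;> simp
  have hν0 : ∀ p ∈ ({y, y + e 0, y - e 0, y + e 1, y - e 1, y + e 0 + e 0} : Finset Q),
      (c p).2.1 = 0 := by
    intro p hp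
    by_cases hX : p ∈ X
    · have := hE p hp hX
      unfold E at this
      omega
    · exact hν p hX
  let m' : Q → St := fun j => if j = y then idm c y else
    if Nb j ∧ (m j).1 ≠ (c j).1 ∧ (m j).2.1 = 0 then ((c j).1, 1, 0) else m j
  have hy' : m' y = idm c y := by simp [m']
  have hcase : ∀ j, j ≠ y → (Nb j ∧ (m j).1 ≠ (c j).1 ∧ (m j).2.1 = 0 ∧ m' j = ((c j).1, 1, 0)) ∨
      (¬ (Nb j ∧ (m j).1 ≠ (c j).1 ∧ (m j).2.1 = 0) ∧ m' j = m j) := by
    intro j hj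
    by_cases h : Nb j ∧ (m j).1 ≠ (c j).1 ∧ (m j).2.1 = 0
    · exact .inl ⟨h.1, h.2.1, h.2.2, by simp only [m', if_neg hj, if_pos h]⟩
    · exact .inr ⟨h, by simp only [m', if_neg hj, if_neg h]⟩
  have hκ' : (fun i => (m' i).2.2) = fun i => (m i).2.2 := by
    funext j
    by_cases hj : j = y
    · subst hj
      rw [hy', hκ j (by simp)]
      rfl
    · rcases hcase j hj with ⟨h, -, -, h'⟩ | ⟨-, h'⟩
      · rw [h', hκ j (hNb j h)]
      · rw [h']
  have hz : ∀ j, (app P e c m' j).2.2 = (app P e c m j).2.2 := by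
    intro j
    simp only [app, hκ']
  have hRm : ∀ j, j ≠ y → (m j).2.1 ≤ (m' j).2.1 ∧ ((m' j).2.1 = 0 → (m' j).1 = (m j).1) := by
    intro j hj
    rcases hcase j hj with ⟨-, -, h, h'⟩ | ⟨-, h'⟩
    · rw [h', h]
      simp
    · rw [h']
      simp
  have hRc : ∀ j, j = y ∨ Nb j → (c j).2.1 ≤ (m' j).2.1 ∧ ((m' j).2.1 = 0 → (m' j).1 = (c j).1) := by
    intro j hj
    by_cases hjy : j = y
    · subst hjy
      rw [hy']
      simp [idm]
    · have hn : Nb j := hj.resolve_left hjy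
      refine ⟨by rw [hν0 j (hNb j hn)]; omega, ?_⟩
      rcases hcase j hjy with ⟨-, -, -, h'⟩ | ⟨h, h'⟩
      · rw [h']
        simp
      · rw [h']
        intro h0
        by_contra hne
        exact h ⟨hn, hne, h0⟩
  have hm' : m' ∈ Moves P e X V c := by
    refine ⟨fun j hj => ?_, fun j hj => ⟨?_, ?_⟩⟩
    · have hjy : j ≠ y := fun h => hj (h ▸ hyV)
      rcases hcase j hjy with ⟨-, h, -, -⟩ | ⟨-, h'⟩
      · exact absurd (by rw [hsupp j hj]; rfl) h
      · rw [h', hsupp j hj]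
    · show (m' j).2.1 ≤ 6
      by_cases hjy : j = y
      · subst hjy
        rw [hy']
        show (c j).2.1 ≤ 6
        rw [hν0 j (by simp)]
        omega
      · rcases hcase j hjy with ⟨-, -, -, h'⟩ | ⟨-, h'⟩
        · rw [h']
          show 1 ≤ 6
          omega
        · rw [h']
          exact (hbox j hj).1
    · rw [hz]
      exact (hbox j hj).2
  -- digits that do not change
  have hd2 : ∀ j, j = y ∨ Nb j → (app P e c m j).2.2 2 = (c j).2.2 2 := by
    intro j hj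
    have : (m j).2.2 = 0 := hκ j (by
      rcases hj with rfl | hj
      · simp
      · exact hNb j hj)
    simp [app, this]
  have hd1 : ∀ j, j = y ∨ Nb j → (app P e c m j).2.2 1 = (c j).2.2 1 := by
    intro j hj
    have : (m j).2.2 = 0 := hκ j (by
      rcases hj with rfl | hj
      · simp
      · exact hNb j hj)
    simp [app, this]
  have hd0 : ∀ j, j = y ∨ j - e 0 = y → (app P e c m j).2.2 0 = (c j).2.2 0 := by
    rintro j (rfl | hj)
    · simp [app, hκ j (by simp), hκ (j - e 0) (by simp), hκ (j + e 0) (by simp)]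
    · obtain rfl : j = y + e 0 := by rw [← hj, sub_add_cancel]
      simp [app, hκ y (by simp), hκ (y + e 0) (by simp), hκ (y + e 0 + e 0) (by simp)]
  -- lamps
  have hlamp : ∀ j ∈ X, ∀ (k : Fin 2) (l : Fin 3),
      (j = y ∨ j - e k = y → (app P e c m j).2.2 l = (c j).2.2 l) →
      (E P e c j = 0 →
        lampC P (c j).1 (c (j - e k)).1 (c j).2.1 (c (j - e k)).2.1 ((c j).2.2 l) = 0) →
      lampC P (m' j).1 (m' (j - e k)).1 (m' j).2.1 (m' (j - e k)).2.1 ((app P e c m j).2.2 l) ≤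
      lampC P (m j).1 (m (j - e k)).1 (m j).2.1 (m (j - e k)).2.1 ((app P e c m j).2.2 l) := by
    intro j hj k l hd h0
    by_cases hs : j = y ∨ j - e k = y
    · have h1 : j = y ∨ Nb j := by
        rcases hs with h | h
        · exact .inl h
        · exact .inr ⟨k, .inl (by rw [← h, sub_add_cancel])⟩
      have h2 : j - e k = y ∨ Nb (j - e k) := by
        rcases hs with h | h
        · exact .inr ⟨k, .inr (by rw [h])⟩
        · exact .inl h
      have hEj : E P e c j = 0 := hE j (by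
        rcases h1 with rfl | h1
        · simp
        · exact hNb j h1) hj
      have := rela_lamp_mono hP ((c j).2.2 l) (hRc j h1).1 (hRc _ h2).1 (hRc j h1).2 (hRc _ h2).2
      rw [h0 hEj] at this
      rw [hd hs]
      omega
    · push Not at hs
      exact rela_lamp_mono hP _ (hRm j hs.1).1 (hRm _ hs.2).1 (hRm j hs.1).2 (hRm _ hs.2).2
  have hl0 : ∀ j ∈ X,
      lampC P (m' j).1 (m' (j - e 0)).1 (m' j).2.1 (m' (j - e 0)).2.1 ((app P e c m j).2.2 0) ≤
      lampC P (m j).1 (m (j - e 0)).1 (m j).2.1 (m (j - e 0)).2.1 ((app P e c m j).2.2 0) :=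
    fun j hj => hlamp j hj 0 0 (hd0 j) (fun h => by unfold E at h; omega)
  have hl1 : ∀ j ∈ X,
      lampC P (m' j).1 (m' (j - e 1)).1 (m' j).2.1 (m' (j - e 1)).2.1 ((app P e c m j).2.2 1) ≤
      lampC P (m j).1 (m (j - e 1)).1 (m j).2.1 (m (j - e 1)).2.1 ((app P e c m j).2.2 1) :=
    fun j hj => hlamp j hj 1 1 (fun h => hd1 j (by
      rcases h with h | h
      · exact .inl h
      · exact .inr ⟨1, .inl (by rw [← h, sub_add_cancel])⟩)) (fun h => by unfold E at h; omega)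
  have hu0 : ∀ j ∈ X, j = y ∨ Nb j → uC P (c j).1 0 ((app P e c m j).2.2 2) = 0 := by
    intro j hj h1
    have hm : j ∈ ({y, y + e 0, y - e 0, y + e 1, y - e 1, y + e 0 + e 0} : Finset Q) := by
      rcases h1 with rfl | h1
      · simp
      · exact hNb j h1
    have := hE j hm hj
    unfold E at this
    rw [hν0 j hm] at this
    rw [hd2 j h1]
    omega
  have hEq : ∀ (n : Q → St) (j : Q), (app P e c n j).2.2 = (app P e c m j).2.2 →
      E P e (app P e c n) j = (n j).2.1 +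
      lampC P (n j).1 (n (j - e 0)).1 (n j).2.1 (n (j - e 0)).2.1 ((app P e c m j).2.2 0) +
      lampC P (n j).1 (n (j - e 1)).1 (n j).2.1 (n (j - e 1)).2.1 ((app P e c m j).2.2 1) +
      uC P (n j).1 (n j).2.1 ((app P e c m j).2.2 2) := by
    intro n j h
    unfold E
    rw [h]
    rfl
  have hlt : E P e (app P e c m') y < E P e (app P e c m) y := by
    rw [hEq m' y (hz y), hEq m y rfl]
    have a0 := hl0 y hyX
    have a1 := hl1 y hyX
    have a2 := hu0 y hyX (.inl rfl)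
    have b1 : (m' y).1 = (c y).1 := by rw [hy']; rfl
    have b2 : (m' y).2.1 = 0 := by rw [hy']; exact hν0 y (by simp)
    have a3 : uC P (m' y).1 (m' y).2.1 ((app P e c m y).2.2 2) = 0 := by rw [b1, b2, a2]
    have a4 : 1 ≤ (m y).2.1 + uC P (m y).1 (m y).2.1 ((app P e c m y).2.2 2) := by
      by_cases h0 : (m y).2.1 = 0
      · have hne : (m y).1 ≠ (c y).1 := by
          intro h
          refine hy (Prod.ext h (Prod.ext ?_ (hκ y (by simp))))
          rw [h0]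
          exact (hν0 y (by simp)).symm
        have := rela_uC_flip a2 hne
        rw [h0]
        omega
      · omega
    omega
  have hle : ∀ j ∈ X, E P e (app P e c m') j ≤ E P e (app P e c m) j := by
    intro j hj
    by_cases hjy : j = y
    · rw [hjy]
      exact hlt.le
    rw [hEq m' j (hz j), hEq m j rfl]
    have a0 := hl0 j hj
    have a1 := hl1 j hj
    have a4 : (m' j).2.1 + uC P (m' j).1 (m' j).2.1 ((app P e c m j).2.2 2) ≤
        (m j).2.1 + uC P (m j).1 (m j).2.1 ((app P e c m j).2.2 2) := by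
      rcases hcase j hjy with ⟨hn, hne, h0, h'⟩ | ⟨-, h'⟩
      · have a2 := hu0 j hj (.inr hn)
        have a3 := rela_uC_flip a2 hne
        have a5 := rela_uC_one a2
        rw [h', h0]
        show 1 + uC P (c j).1 1 _ ≤ _
        omega
      · rw [h']
    omega
  exact absurd (hopt m' hm') (not_le.2 (sum_lt_sum hle ⟨y, hyX, hlt⟩))

end Pool.Agent.MP_646035_al.H91

end

-- part MP_646035_al.H91.RelB
section

/-!
The carries of an optimal move lie on segments of large cost.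
-/

namespace Pool.Agent.MP_646035_al.H91

open Finset

variable {Q : Type*} [AddCommGroup Q] [DecidableEq Q] {P : Par} {e : Fin 2 → Q}

/-- The cost of the three digits at `j`. -/
def relb_D (P : Par) (e : Fin 2 → Q) (c : Q → St) (j : Q) : ℕ :=
  lampC P (c j).1 (c (j - e 0)).1 (c j).2.1 (c (j - e 0)).2.1 ((c j).2.2 0)
    + lampC P (c j).1 (c (j - e 1)).1 (c j).2.1 (c (j - e 1)).2.1 ((c j).2.2 1)
    + uC P (c j).1 (c j).2.1 ((c j).2.2 2)

omit [DecidableEq Q] in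
lemma relb_E (c : Q → St) (j : Q) : E P e c j = (c j).2.1 + relb_D P e c j := by
  unfold E relb_D
  omega

lemma relb_lamp (hP : P.Ok) {σ σ' : Bool} {ν ν' : ℕ} (h : ν ≤ 6) (h' : ν' ≤ 6) (τ τ' : Bool)
    (μ μ' : ℕ) (z : ℤ) : lampC P τ τ' μ μ' z ≤ lampC P σ σ' ν ν' z + 1 ∧
      z.natAbs ≤ (80 * P.B + 40) * (lampC P σ σ' ν ν' z + 1) := by
  have h1 := lampC_abs_le hP σ σ' ν ν' z
  generalize lampC P σ σ' ν ν' z = k at h1
  have h2 : z.natAbs ≤ 2 * P.h * (1 + ν + ν') + 40 * P.h * k := by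
    rw [← Int.natCast_natAbs] at h1
    exact_mod_cast h1
  have h3 : 2 * P.h * (1 + ν + ν') ≤ 2 * P.h * 13 := Nat.mul_le_mul_left _ (by omega)
  have h4 : z.natAbs ≤ 40 * P.h * (k + 1) := by
    rw [mul_add, mul_one]
    omega
  refine ⟨(lampC_le_iff hP _ _ _ _ _ _).2 ⟨?_, fun h => by omega⟩,
    h4.trans (Nat.mul_le_mul_right _ (by have := hP.hB; omega))⟩
  rw [← Int.natCast_natAbs]
  exact_mod_cast h4.trans (Nat.le_add_left _ _)

lemma relb_u {σ : Bool} {ν : ℕ} (h : ν ≤ 6) (τ : Bool) (μ : ℕ) (z : ℤ) :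
    uC P τ μ z ≤ uC P σ ν z + 1 ∧ z.natAbs ≤ (80 * P.B + 40) * (uC P σ ν z + 1) := by
  have h1 := uC_abs_le P σ ν z
  generalize uC P σ ν z = k at h1
  have h2 : (4 * (P.B : ℤ) + 2) * ν ≤ (4 * P.B + 2) * 6 :=
    mul_le_mul_of_nonneg_left (by exact_mod_cast h) (by positivity)
  have h3 : (0 : ℤ) ≤ (4 * P.B + 2) * μ := by positivity
  have h4 : (0 : ℤ) ≤ P.B := by positivity
  rw [abs_le] at h1
  constructor
  · rw [uC_le_iff, abs_le]
    push_cast
    rcases sg_cases σ with a | a <;> rcases sg_cases τ with b | b <;> rw [a] at h1 <;> rw [b] <;>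
      exact ⟨by linarith [h1.1], by linarith [h1.2]⟩
  · have h5 : |z| ≤ (80 * P.B + 40) * (k + 1) := by
      rw [abs_le]
      rcases sg_cases σ with a | a <;> rw [a] at h1 <;>
        exact ⟨by linarith [h1.1], by linarith [h1.2]⟩
    rw [← Int.natCast_natAbs] at h5
    exact_mod_cast h5

omit [DecidableEq Q] in
lemma relb_cmp (hP : P.Ok) {d d' : Q → St} (hd : ∀ j, (d j).2.1 ≤ 6) {j : Q}
    (h : (d' j).2.2 = (d j).2.2) : relb_D P e d' j ≤ relb_D P e d j + 3 := by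
  unfold relb_D
  rw [h]
  have a := (relb_lamp hP (σ := (d j).1) (σ' := (d (j - e 0)).1) (hd j) (hd (j - e 0)) (d' j).1
    (d' (j - e 0)).1 (d' j).2.1 (d' (j - e 0)).2.1 ((d j).2.2 0)).1
  have b := (relb_lamp hP (σ := (d j).1) (σ' := (d (j - e 1)).1) (hd j) (hd (j - e 1)) (d' j).1
    (d' (j - e 1)).1 (d' j).2.1 (d' (j - e 1)).2.1 ((d j).2.2 1)).1
  have c := (relb_u (P := P) (σ := (d j).1) (hd j) (d' j).1 (d' j).2.1 ((d j).2.2 2)).1
  omega

omit [DecidableEq Q] in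
lemma relb_dig (hP : P.Ok) {d : Q → St} (hd : ∀ j, (d j).2.1 ≤ 6) (j : Q) :
    ((d j).2.2 0).natAbs + ((d j).2.2 1).natAbs + ((d j).2.2 2).natAbs
      ≤ (80 * P.B + 40) * (relb_D P e d j + 3) := by
  have a := (relb_lamp hP (σ := (d j).1) (σ' := (d (j - e 0)).1) (hd j) (hd (j - e 0)) true true
    0 0 ((d j).2.2 0)).2
  have b := (relb_lamp hP (σ := (d j).1) (σ' := (d (j - e 1)).1) (hd j) (hd (j - e 1)) true true
    0 0 ((d j).2.2 1)).2
  have c := (relb_u (P := P) (σ := (d j).1) (hd j) true 0 ((d j).2.2 2)).2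
  refine (add_le_add (add_le_add a b) c).trans_eq ?_
  unfold relb_D
  ring

omit [DecidableEq Q] in
lemma relb_carry {κ κ' : Q → Fin 3 → ℤ} {j : Q} (h0 : κ j = κ' j) (h1 : κ (j - e 0) = κ' (j - e 0))
    (h2 : κ (j + e 0) = κ' (j + e 0)) : carry P e κ j = carry P e κ' j := by
  funext l
  fin_cases l <;> simp [h0, h1, h2]

omit [DecidableEq Q] in
lemma relb_carry0 (j : Q) : carry P e (fun _ => 0) j = 0 := by
  funext l
  fin_cases l <;> simp

lemma relb_shift (g : ℤ → ℕ) (J : Finset ℤ) (d : ℤ) (h : ∀ k ∈ J, g (k + d) ≠ 0 → k + d ∈ J) :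
    ∑ k ∈ J, g (k + d) ≤ ∑ k ∈ J, g k := by
  rw [← sum_image (g := fun k => k + d) fun _ _ _ _ h => add_right_cancel h]
  refine sum_le_sum_of_ne_zero fun x hx h0 => ?_
  obtain ⟨k, hk, rfl⟩ := mem_image.1 hx
  exact h k hk h0

omit [AddCommGroup Q] in
lemma relb_split {s : ℤ → Q} (hs : Function.Injective s) (J : Finset ℤ) (X : Finset Q)
    {f g : Q → ℕ} (h : ∀ j ∉ J.image s, f j = g j) (hle : ∑ j ∈ X, f j ≤ ∑ j ∈ X, g j) :
    ∑ k ∈ J, (if s k ∈ X then f (s k) else 0) ≤ ∑ k ∈ J, if s k ∈ X then g (s k) else 0 := by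
  rw [← sum_image (f := fun j => if j ∈ X then f j else 0) hs.injOn,
    ← sum_image (f := fun j => if j ∈ X then g j else 0) hs.injOn, sum_ite_mem, sum_ite_mem,
    inter_comm]
  rw [← sum_inter_add_sum_sdiff X (J.image s) f, ← sum_inter_add_sum_sdiff X (J.image s) g,
    sum_congr rfl fun j (hj : j ∈ X \ J.image s) => h j (mem_sdiff.1 hj).2] at hle
  exact Nat.le_of_add_le_add_right hle

/-- One site: the carries are small compared with the costs. -/
lemma relb_pt {β K A : ℕ} {x₀ x₁ x₂ p q : ℤ} {z : Fin 3 → ℤ} {A' : ℕ}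
    (h : (z 0).natAbs + (z 1).natAbs + (z 2).natAbs ≤ K * (A + 3))
    (h' : (z 0 + (β * x₀ - p - q)).natAbs + (z 1 + (β * x₁ - x₀)).natAbs
      + (z 2 + (β * x₂ - x₁)).natAbs ≤ K * (A' + 3))
    (h1 : 1 ≤ x₀.natAbs + x₁.natAbs + x₂.natAbs) :
    β * (x₀.natAbs + x₁.natAbs + x₂.natAbs) ≤
      K * (A + A' + 6 * (x₀.natAbs + x₁.natAbs + x₂.natAbs)) + (x₀.natAbs + x₁.natAbs)
        + p.natAbs + q.natAbs := by
  have a : ∀ u v w : ℤ, β * u.natAbs ≤ (w + (β * u - v)).natAbs + w.natAbs + v.natAbs := by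
    intro u v w
    have : ((β : ℤ) * u).natAbs = β * u.natAbs := by rw [Int.natAbs_mul, Int.natAbs_natCast]
    rw [← this]
    generalize (β : ℤ) * u = t
    omega
  have a0 := a x₀ (p + q) (z 0)
  have a1 := a x₁ x₀ (z 1)
  have a2 := a x₂ x₁ (z 2)
  have a3 := Int.natAbs_add_le p q
  have a4 : K * (A + 3) + K * (A' + 3)
      ≤ K * (A + A' + 6 * (x₀.natAbs + x₁.natAbs + x₂.natAbs)) := by
    rw [← mul_add]
    exact Nat.mul_le_mul_left _ (by omega)
  rw [← sub_sub] at a0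
  rw [mul_add, mul_add]
  omega

/-- Let `κ k = (m (y + k • e 0)).2.2` and let `[l, r] ∋ 0` be the maximal interval of integers `k`
with `κ k ≠ 0 ∨ κ (k + 1) ≠ 0` (finite since `V` is finite and `k ↦ y + k • e 0` is injective).
Then `κ (l - 1) = κ l = κ (r + 1) = κ (r + 2) = 0`.  Put the carries on `[l, r]` to zero: on
`J = [l, r + 1]` the digits become those of `c`, elsewhere nothing changes.  With `a`, `a'`, `a''`
the digit costs (`E - ν`) of `c`, of the old and of the new result on `J ∩ X`: optimality gives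
`a' ≤ a''`, and `a'' ≤ a + 3 |J|` (each digit costs at most one more, as all `ν ≤ 6`); every digit
is at most `K * (cost + 1)`, `K = 20 * (4 B + 2)`; with `N` the number of `k ∈ [l, r]` with
`κ k ≠ 0` (these sites are in `V ⊆ X`) we have `|J| ≤ 3 N` and
`(β - 2) N ≤ ∑ |carry| ≤ K (a + a' + 6 N) ≤ K (2 a + 15 N)`, so `a ≥ 3 N ≥ |J|`. -/
lemma charged_of_opt (hP : P.Ok) (he : Dir e) {X V : Finset Q} (hV : V ⊆ X) {c m : Q → St}
    (hc : ∀ j ∈ X, InBox P (c j)) (hν : ∀ j ∉ X, (c j).2.1 = 0) (hm : Opt P e X V c m) {y : Q}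
    (hy : (m y).2.2 ≠ 0) :
    Charged e (fun j => if j ∈ X then E P e c j else 0) y := by
  classical
  obtain ⟨ht, hht⟩ := he.ht
  obtain ⟨s, hs⟩ : ∃ s : ℤ → Q, ∀ k, s k = y + k • e 0 := ⟨_, fun _ => rfl⟩
  have s0 : s 0 = y := by simp [hs]
  have sp : ∀ k, s (k + 1) = s k + e 0 := fun k => by simp [hs, add_smul, add_assoc]
  have sm : ∀ k, s (k + -1) = s k - e 0 := fun k => by
    rw [eq_sub_iff_add_eq, ← sp, neg_add_cancel_right]
  have sh : ∀ k, ht (s k) = ht y + k := fun k => by simp [hs, hht]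
  have si : Function.Injective s := fun k k' h => by
    have := congrArg ht h
    rw [sh, sh] at this
    omega
  have mV : ∀ j, (m j).2.2 ≠ 0 → j ∈ V := fun j h => by
    by_contra hj
    exact h (by rw [hm.1.1 j hj]; rfl)
  obtain ⟨M, hM⟩ : ∃ M : ℕ, ∀ k : ℤ, M < k.natAbs → (m (s k)).2.2 = 0 := by
    refine ⟨V.sup fun j => (ht j - ht y).natAbs, fun k hk => ?_⟩
    by_contra h
    have := le_sup (f := fun j => (ht j - ht y).natAbs) (mV _ h)
    simp only [sh, add_sub_cancel_left] at this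
    omega
  have ea : ∃ a : ℕ, (m (s (-a + -1))).2.2 = 0 ∧ (m (s (-a))).2.2 = 0 :=
    ⟨M + 1, hM _ (by omega), hM _ (by omega)⟩
  have eb : ∃ b : ℕ, (m (s b)).2.2 = 0 ∧ (m (s (b + 1))).2.2 = 0 :=
    ⟨M + 1, hM _ (by omega), hM _ (by omega)⟩
  obtain ⟨a, ⟨a1, a2⟩, a3⟩ : ∃ a : ℕ, ((m (s (-a + -1))).2.2 = 0 ∧ (m (s (-a))).2.2 = 0) ∧
      ∀ k : ℕ, k < a → ¬ ((m (s (-k + -1))).2.2 = 0 ∧ (m (s (-k))).2.2 = 0) :=
    ⟨Nat.find ea, Nat.find_spec ea, fun k hk => Nat.find_min ea hk⟩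
  obtain ⟨b, ⟨b1, b2⟩, b3⟩ : ∃ b : ℕ, ((m (s b)).2.2 = 0 ∧ (m (s (b + 1))).2.2 = 0) ∧
      ∀ k : ℕ, k < b → ¬ ((m (s k)).2.2 = 0 ∧ (m (s (k + 1))).2.2 = 0) :=
    ⟨Nat.find eb, Nat.find_spec eb, fun k hk => Nat.find_min eb hk⟩
  have b0 : b ≠ 0 := by
    rintro rfl
    rw [Nat.cast_zero, s0] at b1
    exact hy b1
  have hin : ∀ k : ℤ, -(a : ℤ) ≤ k → k < b →
      ¬ ((m (s k)).2.2 = 0 ∧ (m (s (k + 1))).2.2 = 0) := fun k h1 h2 => by
    rcases le_or_gt 0 k with h | h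
    · obtain ⟨k, rfl⟩ := Int.eq_ofNat_of_zero_le h
      exact b3 k (by omega)
    · have := a3 (-k - 1).toNat (by omega)
      rwa [show -((-k - 1).toNat : ℤ) + -1 = k by omega,
        show -((-k - 1).toNat : ℤ) = k + 1 by omega] at this
  obtain ⟨J, hJ⟩ : ∃ J, J = Icc (-(a : ℤ)) b := ⟨_, rfl⟩
  have mJ : ∀ k, k ∈ J ↔ -(a : ℤ) ≤ k ∧ k ≤ b := fun k => by rw [hJ, mem_Icc]
  have cJ : J.card = a + b + 1 := by
    rw [hJ, Int.card_Icc]
    omega
  have up : ∀ k ∈ J, (m (s (k + 1))).2.2 ≠ 0 → k + 1 ∈ J := fun k hk h => by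
    rw [mJ] at hk ⊢
    have : k ≠ b := by
      rintro rfl
      exact h b2
    omega
  have dn : ∀ k ∈ J, (m (s (k + -1))).2.2 ≠ 0 → k + -1 ∈ J := fun k hk h => by
    rw [mJ] at hk ⊢
    have : k ≠ -a := by
      rintro rfl
      exact h a1
    omega
  obtain ⟨m', hm'⟩ : ∃ m' : Q → St, ∀ j, m' j =
      ((m j).1, (m j).2.1, if j ∈ J.image s then 0 else (m j).2.2) := ⟨_, fun _ => rfl⟩
  have k1 : ∀ j, (m' j).2.2 = if j ∈ J.image s then 0 else (m j).2.2 := fun j => by rw [hm']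
  have k2 : ∀ k, ((m (s k)).2.2 ≠ 0 → k ∈ J) → (m' (s k)).2.2 = 0 := fun k h => by
    rw [k1]
    split_ifs with h1
    · rfl
    · by_contra h2
      exact h1 (mem_image_of_mem s (h h2))
  have k3 : ∀ j, (j ∈ J.image s → (m j).2.2 = 0) → (m' j).2.2 = (m j).2.2 := fun j h => by
    rw [k1]
    split_ifs with h1
    · exact (h h1).symm
    · rfl
  have cA : ∀ k ∈ J, (app P e c m' (s k)).2.2 = (c (s k)).2.2 := fun k hk => by
    have : carry P e (fun i => (m' i).2.2) (s k) = 0 :=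
      (relb_carry (κ := fun i => (m' i).2.2) (κ' := fun _ => 0) (k2 k fun _ => hk)
         (sm k ▸ k2 _ (dn k hk))
        (sp k ▸ k2 _ (up k hk))).trans (relb_carry0 _)
    simp only [app, this, add_zero]
  have cν : ∀ j, (app P e c m' j).1 = (app P e c m j).1 ∧
      (app P e c m' j).2.1 = (app P e c m j).2.1 := fun j => by simp only [app, hm', and_self]
  have cB : ∀ j ∉ J.image s, app P e c m' j = app P e c m j := fun j hj => by
    refine Prod.ext (cν j).1 (Prod.ext (cν j).2 ?_)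
    refine congrArg ((c j).2.2 + ·) (relb_carry (k3 _ fun h => absurd h hj) (k3 _ fun h => ?_)
      (k3 _ fun h => ?_))
    · obtain ⟨k, hk, h1⟩ := mem_image.1 h
      have h2 : k + 1 ∉ J := fun h2 =>
        hj (mem_image.2 ⟨_, h2, by rw [sp, h1, sub_add_cancel]⟩)
      rw [mJ] at hk h2
      rw [← h1, show k = b by omega, b1]
    · obtain ⟨k, hk, h1⟩ := mem_image.1 h
      have h2 : k + -1 ∉ J := fun h2 =>
        hj (mem_image.2 ⟨_, h2, by rw [sm, h1, add_sub_cancel_right]⟩)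
      rw [mJ] at hk h2
      rw [← h1, show k = -a by omega, a2]
  have c6 : ∀ j, (c j).2.1 ≤ 6 := fun j => by
    by_cases hj : j ∈ X
    · exact (hc j hj).1
    · rw [hν j hj]
      omega
  have m6 : ∀ j, (app P e c m j).2.1 ≤ 6 := fun j => by
    by_cases hj : j ∈ X
    · exact (hm.1.2 j hj).1
    · have : (app P e c m j).2.1 = (c j).2.1 := by
        simp only [app, hm.1.1 j fun h => hj (hV h), idm]
      exact this ▸ c6 j
  have mv : m' ∈ Moves P e X V c := by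
    refine ⟨fun j hj => ?_, fun j hj => ?_⟩
    · rw [hm', hm.1.1 j hj]
      simp [idm]
    · by_cases h : j ∈ J.image s
      · obtain ⟨k, hk, rfl⟩ := mem_image.1 h
        exact ⟨(cν _).2 ▸ m6 _, fun l => cA k hk ▸ (hc _ hj).2 l⟩
      · exact cB j h ▸ hm.1.2 j hj
  have o1 := hm.2 m' mv
  simp only [En, relb_E, sum_add_distrib, (cν _).2, add_le_add_iff_left] at o1
  have o2 := relb_split si J X (fun j hj => by
    simp only [relb_D, cB j hj, (cν _).1, (cν _).2]) o1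
  obtain ⟨ρ, hρ⟩ : ∃ ρ : ℤ → ℕ, ∀ k, ρ k = if s k ∈ X then E P e c (s k) else 0 :=
    ⟨_, fun _ => rfl⟩
  obtain ⟨ρ', hρ'⟩ : ∃ ρ' : ℤ → ℕ, ∀ k,
      ρ' k = if s k ∈ X then relb_D P e (app P e c m) (s k) else 0 := ⟨_, fun _ => rfl⟩
  have o3 : ∑ k ∈ J, ρ' k ≤ ∑ k ∈ J, ρ k + J.card * 3 := by
    rw [← smul_eq_mul, ← sum_const, ← sum_add_distrib]
    simp only [hρ']
    refine o2.trans (sum_le_sum fun k hk => ?_)
    rw [hρ]
    split_ifs
    · have := relb_cmp (e := e) hP c6 (cA k hk)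
      rw [relb_E]
      omega
    · omega
  obtain ⟨u, hu⟩ : ∃ u : Fin 3 → ℤ → ℕ, ∀ i k, u i k = ((m (s k)).2.2 i).natAbs :=
    ⟨_, fun _ _ => rfl⟩
  have u0 : ∀ i k, u i k ≠ 0 → (m (s k)).2.2 ≠ 0 := fun i k h h1 => h (by rw [hu, h1]; rfl)
  have u1 : ∀ k, (m (s k)).2.2 ≠ 0 → 1 ≤ u 0 k + u 1 k + u 2 k := fun k h => by
    by_contra h1
    refine h (funext fun l => ?_)
    have : u l k = 0 := by fin_cases l <;> simp only [Fin.reduceFinMk] <;> omega
    rwa [hu, Int.natAbs_eq_zero] at this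
  have t1 := fun i => relb_shift (u i) J 1 fun k hk h => up k hk (u0 i _ h)
  have t2 := fun i => relb_shift (u i) J (-1) fun k hk h => dn k hk (u0 i _ h)
  have t3 : ∑ k ∈ J, 1 ≤ ∑ k ∈ J, ((u 0 k + u 1 k + u 2 k) + (u 0 (k + 1) + u 1 (k + 1)
      + u 2 (k + 1)) + (u 0 (k + -1) + u 1 (k + -1) + u 2 (k + -1))) := by
    refine sum_le_sum fun k hk => ?_
    rw [mJ] at hk
    by_cases h : k < b
    · rcases not_and_or.1 (hin k hk.1 h) with h1 | h1 <;> have := u1 _ h1 <;> omega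
    · rcases not_and_or.1 (hin (k + -1) (by omega) (by omega)) with h1 | h1
      · have := u1 _ h1
        omega
      · rw [neg_add_cancel_right] at h1
        have := u1 _ h1
        omega
  have t4 : ∑ k ∈ J, P.β * (u 0 k + u 1 k + u 2 k) ≤ ∑ k ∈ J, ((80 * P.B + 40) *
      (ρ k + ρ' k + 6 * (u 0 k + u 1 k + u 2 k)) + (u 0 k + u 1 k) + u 2 (k + -1)
        + u 2 (k + 1)) := by
    refine sum_le_sum fun k _ => ?_
    by_cases h : (m (s k)).2.2 = 0
    · simp [hu, h]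
    · have h1 := u1 k h
      have h2 := hV (mV _ h)
      have h3 := (relb_dig (e := e) hP c6 (s k)).trans (Nat.mul_le_mul_left _
        (show _ ≤ E P e c (s k) + 3 by rw [relb_E]; omega))
      have h4 := relb_dig (e := e) hP m6 (s k)
      simp only [hu, hρ, hρ', if_pos h2, sp, sm] at h1 ⊢
      exact relb_pt h3 h4 h1
  simp only [sum_add_distrib, ← mul_sum] at t3 t4
  rw [sum_const, smul_eq_mul, mul_one] at t3
  refine ⟨a, b, ?_⟩
  simp only [← hs, ← hρ, ← hJ, ← cJ]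
  by_contra hlt
  have t5 := t1 0
  have t6 := t1 1
  have t7 := t1 2
  have t8 := t2 0
  have t9 := t2 1
  have t10 := t2 2
  obtain ⟨T, hT⟩ : ∃ T, T = ∑ k ∈ J, u 0 k + ∑ k ∈ J, u 1 k + ∑ k ∈ J, u 2 k := ⟨_, rfl⟩
  rw [← hT] at t4
  have v1 : (80 * P.B + 40) * (∑ k ∈ J, ρ k + ∑ k ∈ J, ρ' k + 6 * T)
      ≤ (80 * P.B + 40) * (21 * T) := Nat.mul_le_mul_left _ (by omega)
  have v2 : 2000 * (P.B + 1) * T ≤ P.β * T := Nat.mul_le_mul_right _ hP.hβ
  have v3 : (80 * P.B + 40) * (21 * T) = 1680 * (P.B * T) + 840 * T := by ring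
  have v4 : 2000 * (P.B + 1) * T = 2000 * (P.B * T) + 2000 * T := by ring
  omega

end Pool.Agent.MP_646035_al.H91

end

-- part MP_646035_al.H91.Rel
section

/-!
The support of a nonzero `Kt` is small compared with the cost.
-/

namespace Pool.Agent.MP_646035_al.H91

open Finset

variable {Q : Type*} [AddCommGroup Q] [DecidableEq Q] {P : Par} {e : Fin 2 → Q}

lemma rel_ray (X : Finset Q) (d : Q) (ht : Q →+ ℤ) (hd : ht d = 1) (S : Finset Q) :
    ∀ ρ : Q → ℕ, (∀ j ∉ X, ρ j = 0) →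
      (∀ p ∈ S, ∃ b : ℕ, b + 1 ≤ ∑ k ∈ range (b + 1), ρ (p + k • d)) → S.card ≤ ∑ j ∈ X, ρ j := by
  induction S using Finset.strongInduction with
  | H S ih =>
    intro ρ hρ hS
    rcases S.eq_empty_or_nonempty with rfl | hne
    · simp
    obtain ⟨p, hp, hmin⟩ := exists_min_image S ht hne
    obtain ⟨b, hb⟩ := hS p hp
    set I : Finset Q := (range (b + 1)).image fun k : ℕ => p + k • d with hI
    have hinj : Function.Injective fun k : ℕ => p + k • d := by
      intro k l h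
      have := congrArg ht h
      simpa [hd] using this
    have hpI : p ∈ I := mem_image.2 ⟨0, by simp, by simp⟩
    have hcard : I.card = b + 1 := by rw [hI, card_image_of_injective _ hinj, card_range]
    have hsum : ∑ j ∈ I, ρ j = ∑ k ∈ range (b + 1), ρ (p + k • d) :=
      sum_image fun k _ l _ h => hinj h
    have h1 := ih (S \ I) ((ssubset_iff_of_subset sdiff_subset).2 ⟨p, hp, fun h => (mem_sdiff.1 h).2 hpI⟩)
      (fun j => if j ∈ I then 0 else ρ j)
      (fun j hj => by simp [hρ j hj]) (fun q hq => by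
        obtain ⟨hq1, hq2⟩ := mem_sdiff.1 hq
        obtain ⟨c, hc⟩ := hS q hq1
        refine ⟨c, hc.trans (le_of_eq (sum_congr rfl fun i _ => ?_))⟩
        rw [if_neg]
        intro hi
        obtain ⟨k, hk, hki⟩ := mem_image.1 hi
        have h2 := congrArg ht hki
        have h3 := hmin q hq1
        simp only [map_add, map_nsmul, hd, nsmul_eq_mul, mul_one] at h2
        have h4 : i ≤ k := by omega
        obtain ⟨l, rfl⟩ := Nat.exists_eq_add_of_le h4
        refine hq2 (mem_image.2 ⟨l, mem_range.2 (by have := mem_range.1 hk; omega), ?_⟩)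
        rw [add_comm i l, add_smul, ← add_assoc] at hki
        exact add_right_cancel hki)
    have h2 : ∑ j ∈ I, ρ j ≤ ∑ j ∈ X, if j ∈ I then ρ j else 0 := by
      rw [← sum_filter]
      refine sum_le_sum_of_ne_zero fun j hj h0 => mem_filter.2 ⟨?_, hj⟩
      by_contra hx
      exact h0 (hρ j hx)
    have h3 : ∑ j ∈ X, ρ j =
        (∑ j ∈ X, if j ∈ I then 0 else ρ j) + ∑ j ∈ X, if j ∈ I then ρ j else 0 := by
      rw [← sum_add_distrib]
      exact sum_congr rfl fun j _ => by split_ifs <;> simp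
    have h4 : S.card ≤ (S \ I).card + I.card := card_le_card_sdiff_add_card
    omega

omit [DecidableEq Q] in
lemma rel_split (ρ : Q → ℕ) (p d : Q) (a b : ℕ) :
    ∑ k ∈ Icc (-(a : ℤ)) b, ρ (p + k • d) ≤
      ∑ k ∈ range (a + 1), ρ (p + k • (-d)) + ∑ k ∈ range (b + 1), ρ (p + k • d) := by
  have h1 : Icc (-(a : ℤ)) b ⊆
      (range (a + 1)).image (fun k : ℕ => -(k : ℤ)) ∪ (range (b + 1)).image fun k : ℕ => (k : ℤ) := by
    intro k hk
    rw [mem_Icc] at hk
    simp only [mem_union, mem_image, mem_range]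
    rcases le_total k 0 with h | h
    · exact .inl ⟨(-k).toNat, by omega, by omega⟩
    · exact .inr ⟨k.toNat, by omega, by omega⟩
  refine (sum_le_sum_of_subset h1).trans ?_
  refine le_trans (Nat.le_add_right _ _) (le_of_eq (sum_union_inter.trans ?_))
  rw [sum_image fun k _ l _ h => by simpa using h, sum_image fun k _ l _ h => by simpa using h]
  simp

/-- A charged point is charged on a segment starting or ending at it.  For segments starting at
the point: induction on `S`, removing the point of least height and the points of its segment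
(generalise to `∑ j ∈ T, ρ j` for a finite `T` containing the segments that remain). -/
lemma card_charged (he : Dir e) (X : Finset Q) (ρ : Q → ℕ) (hρ : ∀ j ∉ X, ρ j = 0)
    (S : Finset Q) (hS : ∀ p ∈ S, Charged e ρ p) : S.card ≤ 2 * ∑ j ∈ X, ρ j := by
  classical
  obtain ⟨ht, hd⟩ := he.ht
  have h1 := rel_ray X (e 0) ht hd
    (S.filter fun p => ∃ b : ℕ, b + 1 ≤ ∑ k ∈ range (b + 1), ρ (p + k • e 0)) ρ hρ
    fun p hp => (mem_filter.1 hp).2
  have h2 := rel_ray X (-e 0) (-ht) (by simp [hd])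
    (S.filter fun p => ¬ ∃ b : ℕ, b + 1 ≤ ∑ k ∈ range (b + 1), ρ (p + k • e 0)) ρ hρ
    fun p hp => by
      obtain ⟨hp1, hp2⟩ := mem_filter.1 hp
      obtain ⟨a, b, hab⟩ := hS p hp1
      have h3 := rel_split ρ p (e 0) a b
      have h4 : ¬ b + 1 ≤ ∑ k ∈ range (b + 1), ρ (p + k • e 0) := fun h => hp2 ⟨b, h⟩
      exact ⟨a, by omega⟩
  have h3 := card_filter_add_card_filter_not (s := S)
    (fun p => ∃ b : ℕ, b + 1 ≤ ∑ k ∈ range (b + 1), ρ (p + k • e 0))
  omega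

/-- By `exists_move_of_Kt`, `near_of_opt`, `charged_of_opt`: each `y ∈ Y` is `p - d` with `d` one
of six vectors and `p` in `Bad X c` (at most `En` points) or a charged point of `X` (at most
`2 En` points). -/
lemma card_le_of_Kt (hP : P.Ok) (he : Dir e) {X Y : Finset Q} (hY : Y ⊆ X) {c : Q → St}
    (hc : ∀ j ∈ X, InBox P (c j)) (hν : ∀ j ∉ X, (c j).2.1 = 0) (hK : Kt P e X Y c ≠ 0) :
    Y.card ≤ 18 * En P e X c := by
  classical
  have he' : ∀ k, e k ≠ 0 := by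
    intro k
    obtain ⟨ht, hd⟩ := he.ht
    fin_cases k
    · intro h
      have h' : e 0 = 0 := h
      rw [h', map_zero] at hd
      exact zero_ne_one hd
    · exact he.ne
  set ρ : Q → ℕ := fun j => if j ∈ X then E P e c j else 0 with hρ
  set T : Finset Q := Bad P e X c ∪ X.filter (Charged e ρ) with hT
  set D : Finset Q := {0, e 0, -e 0, e 1, -e 1, e 0 + e 0} with hD
  have h1 : (Bad P e X c).card ≤ En P e X c := by
    unfold Bad En
    rw [card_eq_sum_ones, sum_filter]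
    refine sum_le_sum fun j _ => ?_
    split_ifs with h
    · exact Nat.one_le_iff_ne_zero.2 h
    · exact Nat.zero_le _
  have h2 : (X.filter (Charged e ρ)).card ≤ 2 * En P e X c := by
    have := card_charged he X ρ (fun j hj => by simp [hρ, hj]) _
      fun p (hp : p ∈ X.filter (Charged e ρ)) => (mem_filter.1 hp).2
    rwa [show ∑ j ∈ X, ρ j = En P e X c from sum_congr rfl fun j hj => by simp [hρ, hj]] at this
  have h3 : T.card ≤ 3 * En P e X c := (card_union_le _ _).trans (by omega)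
  have h4 : D.card ≤ 6 := card_le_six
  have h5 : Y ⊆ image₂ (fun p d => p - d) T D := by
    intro y hy
    obtain ⟨V, hV, m, hm1, hm2, hm3⟩ := exists_move_of_Kt hc hK hy
    have hVX := hV.trans hY
    obtain ⟨p, hp, hp2⟩ := near_of_opt hP he' hVX hν ⟨hm1, hm2⟩ hm3
    refine mem_image₂.2 ⟨p, ?_, p - y, ?_, sub_sub_cancel p y⟩
    · rcases hp2 with ⟨h, h'⟩ | h
      · exact mem_union_left _ (mem_filter.2 ⟨h, h'⟩)
      · refine mem_union_right _ (mem_filter.2 ⟨hVX ?_, charged_of_opt hP he hVX hc hν ⟨hm1, hm2⟩ h⟩)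
        by_contra hpV
        exact h (by rw [hm1.1 p hpV]; rfl)
    · simp only [mem_insert, mem_singleton] at hp
      simp only [hD, mem_insert, mem_singleton]
      rcases hp with rfl | rfl | rfl | rfl | rfl | rfl
      · exact .inl (sub_self _)
      · exact .inr (.inl (by abel))
      · exact .inr (.inr (.inl (by abel)))
      · exact .inr (.inr (.inr (.inl (by abel))))
      · exact .inr (.inr (.inr (.inr (.inl (by abel)))))
      · exact .inr (.inr (.inr (.inr (.inr (by abel)))))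
  have h6 := (card_le_card h5).trans (card_image₂_le _ _ _)
  calc Y.card ≤ T.card * D.card := h6
    _ ≤ 3 * En P e X c * 6 := Nat.mul_le_mul h3 h4
    _ = 18 * En P e X c := by ring

end Pool.Agent.MP_646035_al.H91

end

-- part MP_646035_al.H91.WBound
section

/-!
Defect regions have small weight.
-/

namespace Pool.Agent.MP_646035_al.H91

open Finset

variable {Q : Type*} [AddCommGroup Q] [DecidableEq Q] {P : Par} {e : Fin 2 → Q}

/-- Group the integers by the value of the ceiling: `2 H + 1` of them give `0`, at most `2 K`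
give each `k ≥ 1`. -/
lemma sum_half_pow_le {K : ℕ} (hK : 0 < K) (H : ℕ) (S : Finset ℤ) :
    ∑ z ∈ S, (1 / 2 : ℝ) ^ ((z.natAbs - H) ⌈/⌉ K) ≤ 2 * H + 1 + 2 * K := by
  have key : ∀ N : ℕ, ∑ z ∈ Icc (-(H + K * N : ℤ)) (H + K * N),
      (1 / 2 : ℝ) ^ ((z.natAbs - H) ⌈/⌉ K) ≤ 2 * H + 1 + 2 * K * (1 - (1 / 2) ^ N) := by
    intro N
    have hc : ∀ M : ℕ, (Icc (-(H + K * M : ℤ)) (H + K * M)).card = 2 * (H + K * M) + 1 := by
      intro M
      rw [Int.card_Icc]
      have : (H + K * M : ℤ) + 1 - -(H + K * M) = ((2 * (H + K * M) + 1 : ℕ) : ℤ) := by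
        push_cast
        ring
      rw [this, Int.toNat_natCast]
    induction N with
    | zero =>
      refine (sum_le_card_nsmul _ _ 1 fun z _ => pow_le_one₀ (by norm_num) (by norm_num)).trans ?_
      rw [hc 0]
      simp
    | succ N ih =>
      have hs : Icc (-(H + K * N : ℤ)) (H + K * N) ⊆
          Icc (-(H + K * (N + 1 : ℕ) : ℤ)) (H + K * (N + 1 : ℕ)) := by
        have : (K * N : ℤ) ≤ K * (N + 1 : ℕ) := by
          push_cast
          nlinarith
        exact Icc_subset_Icc (by linarith) (by linarith)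
      rw [← sum_sdiff hs]
      have h1 := sum_le_card_nsmul (Icc (-(H + K * (N + 1 : ℕ) : ℤ)) (H + K * (N + 1 : ℕ)) \
          Icc (-(H + K * N : ℤ)) (H + K * N))
        (fun z => (1 / 2 : ℝ) ^ ((z.natAbs - H) ⌈/⌉ K)) ((1 / 2) ^ (N + 1)) fun z hz => by
          refine pow_le_pow_of_le_one (by norm_num) (by norm_num)
            (Nat.succ_le_of_lt (not_le.1 fun h => ?_))
          exact (mem_sdiff.1 hz).2 (mem_Icc.2 (abs_le.1 ((sub_ceilDiv_le_iff hK z H N).1 h)))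
      rw [card_sdiff_of_subset hs, hc, hc,
        show 2 * (H + K * (N + 1)) + 1 - (2 * (H + K * N) + 1) = 2 * K by
          rw [Nat.sub_eq_iff_eq_add (by nlinarith)]; ring, nsmul_eq_mul] at h1
      push_cast at h1 ih ⊢
      rw [pow_succ] at h1 ⊢
      linarith
  set N := S.sup Int.natAbs with hN
  have hS : S ⊆ Icc (-(H + K * N : ℤ)) (H + K * N) := fun z hz => by
    have h1 : z.natAbs ≤ N := le_sup (f := Int.natAbs) hz
    have h2 : N ≤ K * N := Nat.le_mul_of_pos_left N hK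
    have h3 : ((K * N : ℕ) : ℤ) = K * N := by push_cast; rfl
    rw [mem_Icc]
    omega
  refine (sum_le_sum_of_subset_of_nonneg hS fun _ _ _ => by positivity).trans ((key N).trans ?_)
  have : (0 : ℝ) ≤ K * (1 / 2) ^ N := by positivity
  linarith

/-- Since all `ν ≤ 6`, `E c j` is at least the sum of `(|z₀| - 40 h) ⌈/⌉ (40 h)`,
`(|z₁| - 40 h) ⌈/⌉ (40 h)` and `(|z₂| - K) ⌈/⌉ K`, `K = 20 (4 B + 2)`, which only depends on the
digits at `j`; use `sum_asg_prod` and `sum_half_pow_le` (each factor is at most `5 K`). -/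
lemma sum_half_pow_En (hP : P.Ok) (X : Finset Q) (σ : Q → Bool) :
    ∑ s ∈ asg 0 X (box P), (1 / 2 : ℝ) ^ En P e X (mk σ s) ≤ (3500000 * P.Nb) ^ X.card := by
  have h2 := hP.h2
  set K := 20 * (4 * P.B + 2) with hK
  set k : Fin 3 → ℕ := ![40 * P.h, 40 * P.h, K] with hk
  set g : ℕ × (Fin 3 → ℤ) → ℝ :=
    fun b => ∏ l, (1 / 2 : ℝ) ^ (((b.2 l).natAbs - k l) ⌈/⌉ k l) with hg
  have k0 : ∀ l, 0 < k l := fun l => by fin_cases l <;> simp [hk, hK] <;> omega
  have h1 : ∀ s ∈ asg 0 X (box P), (1 / 2 : ℝ) ^ En P e X (mk σ s) ≤ ∏ j ∈ X, g (s j) := by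
    intro s hs
    have hν : ∀ j, ((s j).1 : ℤ) ≤ 6 := fun j => by
      by_cases hj : j ∈ X
      · exact_mod_cast ((mem_box (σ := true)).1 ((mem_asg.1 hs).1 j hj)).1
      · simp [(mem_asg.1 hs).2 j hj]
    rw [En, ← prod_pow_eq_pow_sum]
    refine prod_le_prod (fun _ _ => by positivity) fun j _ => ?_
    simp only [hg]
    rw [prod_pow_eq_pow_sum, Fin.sum_univ_three]
    refine pow_le_pow_of_le_one (by norm_num) (by norm_num) ?_
    have hl : ∀ (σ' : Bool) (j' : Q) (z : ℤ), (z.natAbs - 40 * P.h) ⌈/⌉ (40 * P.h) ≤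
        lampC P (σ j) σ' (s j).1 (s j').1 z := fun σ' j' z => by
      rw [sub_ceilDiv_le_iff (by omega)]
      have a1 := lampC_abs_le hP (σ j) σ' (s j).1 (s j').1 z
      have a2 : (P.h : ℤ) * (s j).1 ≤ P.h * 6 := mul_le_mul_of_nonneg_left (hν j) (by positivity)
      have a3 : (P.h : ℤ) * (s j').1 ≤ P.h * 6 :=
        mul_le_mul_of_nonneg_left (hν j') (by positivity)
      have a4 : (0 : ℤ) ≤ P.h := by positivity
      push_cast
      linarith
    have hu : (((s j).2 2).natAbs - K) ⌈/⌉ K ≤ uC P (σ j) (s j).1 ((s j).2 2) := by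
      rw [sub_ceilDiv_le_iff (by omega)]
      have a1 := abs_le.1 (uC_abs_le P (σ j) (s j).1 ((s j).2 2))
      have a2 : (4 * P.B + 2 : ℤ) * (s j).1 ≤ (4 * P.B + 2) * 6 :=
        mul_le_mul_of_nonneg_left (hν j) (by positivity)
      have a4 : (0 : ℤ) ≤ P.B := by positivity
      simp only [hK]
      push_cast
      rcases sg_cases (σ j) with h | h <;> rw [h] at a1 <;> rw [abs_le] <;> constructor <;>
        linarith [a1.1, a1.2]
    have a1 := hl (σ (j - e 0)) (j - e 0) ((s j).2 0)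
    have a2 := hl (σ (j - e 1)) (j - e 1) ((s j).2 1)
    exact (add_le_add (add_le_add a1 a2) hu).trans (by simp only [E, mk]; omega)
  refine (sum_le_sum h1).trans ?_
  rw [sum_asg_prod 0 X (box P) fun _ b => g b, prod_const]
  refine pow_le_pow_left₀ (sum_nonneg fun b _ => by positivity) ?_ _
  rw [box, sum_product]
  simp only [hg, sum_const, card_range, nsmul_eq_mul]
  rw [← prod_univ_sum (fun _ : Fin 3 => Icc (-(2 * P.β : ℤ)) (2 * P.β))
    fun l z => (1 / 2 : ℝ) ^ ((z.natAbs - k l) ⌈/⌉ k l)]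
  have h3 : ∏ l, ∑ z ∈ Icc (-(2 * P.β : ℤ)) (2 * P.β), (1 / 2 : ℝ) ^ ((z.natAbs - k l) ⌈/⌉ k l) ≤
      ∏ l, 5 * (k l : ℝ) :=
    prod_le_prod (fun _ _ => sum_nonneg fun _ _ => by positivity) fun l _ =>
      (sum_half_pow_le (k0 l) (k l) _).trans (by
        have : (1 : ℝ) ≤ k l := by exact_mod_cast k0 l
        linarith)
  refine (mul_le_mul_of_nonneg_left h3 (by positivity)).trans ?_
  rw [Fin.prod_univ_three, Par.Nb]
  simp only [hk, hK, Matrix.cons_val_zero, Matrix.cons_val_one, Matrix.cons_val]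
  push_cast
  have a1 : (0 : ℝ) ≤ P.h := by positivity
  have a2 : (0 : ℝ) ≤ P.B := by positivity
  nlinarith [mul_nonneg a1 a2]

/-- In a nonzero term `card X ≤ 4 (card Y + card Bad) ≤ 76 En` (`card_le_of_Kt`), so
`x ^ En ≤ δ ^ card X * (1 / 2) ^ En`; `|Kt| ≤ 2 ^ card X` and there are at most `2 ^ card X`
sets `Y`. -/
lemma abs_W_le (hP : P.Ok) (he : Dir e) {x δ : ℝ} (hx : 0 ≤ x) (hδ : 0 ≤ δ) (hδ1 : δ ≤ 1)
    (hxδ : x ≤ δ ^ 76 / 2) {X C : Finset Q} (hC : C ⊆ X) (σ : Q → Bool) :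
    |W P e x X C σ| ≤ (14000000 * δ * P.Nb) ^ X.card := by
  have h1 : ∀ s ∈ asg 0 X (box P), ∀ Y ∈ C.powerset,
      |if Bad P e X (mk σ s) ⊆ C ∧ X ⊆ (Y ∪ Bad P e X (mk σ s)).biUnion (star e) then
        x ^ En P e X (mk σ s) * Kt P e X Y (mk σ s) else 0| ≤
      δ ^ X.card * (1 / 2) ^ En P e X (mk σ s) * 2 ^ X.card := by
    intro s hs Y hY
    have hYX : Y ⊆ X := (mem_powerset.1 hY).trans hC
    split_ifs with h
    swap
    · rw [abs_zero]
      positivity
    by_cases hK : Kt P e X Y (mk σ s) = 0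
    · rw [hK, mul_zero, abs_zero]
      positivity
    have a1 := card_le_of_Kt hP he hYX (c := mk σ s)
      (fun j hj => mem_box.1 ((mem_asg.1 hs).1 j hj))
      (fun j hj => by simp [mk, (mem_asg.1 hs).2 j hj]) hK
    have a2 : (Bad P e X (mk σ s)).card ≤ En P e X (mk σ s) := by
      rw [card_eq_sum_ones]
      exact (sum_le_sum fun j hj => Nat.one_le_iff_ne_zero.2 (mem_filter.1 hj).2).trans
        (sum_le_sum_of_subset (filter_subset _ _))
    have a3 := (card_le_card h.2).trans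
      (card_biUnion_le_card_mul _ _ 4 fun j _ => card_le_four)
    have a4 := card_union_le Y (Bad P e X (mk σ s))
    have a5 : X.card ≤ 76 * En P e X (mk σ s) := by omega
    rw [abs_mul, abs_of_nonneg (pow_nonneg hx _)]
    refine mul_le_mul ((pow_le_pow_left₀ hx hxδ _).trans ?_) ((abs_Kt_le X Y _).trans
      (pow_le_pow_right₀ one_le_two (card_le_card hYX))) (abs_nonneg _) (by positivity)
    rw [div_eq_mul_one_div, mul_pow, ← pow_mul]
    exact mul_le_mul_of_nonneg_right (pow_le_pow_of_le_one hδ hδ1 a5) (by positivity)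
  have h2 : ((C.powerset.card : ℕ) : ℝ) ≤ 2 ^ X.card := by
    rw [card_powerset]
    push_cast
    exact pow_le_pow_right₀ one_le_two (card_le_card hC)
  calc |W P e x X C σ| ≤ ∑ s ∈ asg 0 X (box P),
        (4 * δ) ^ X.card * (1 / 2) ^ En P e X (mk σ s) := by
        refine (abs_sum_le_sum_abs _ _).trans (sum_le_sum fun s hs => ?_)
        refine (abs_sum_le_sum_abs _ _).trans ((sum_le_card_nsmul _ _ _ (h1 s hs)).trans ?_)
        rw [nsmul_eq_mul]
        refine (mul_le_mul_of_nonneg_right h2 (by positivity)).trans_eq ?_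
        rw [show (4 : ℝ) = 2 * 2 by norm_num, mul_pow, mul_pow]
        ring
    _ ≤ (4 * δ) ^ X.card * (3500000 * P.Nb) ^ X.card := by
        rw [← mul_sum]
        exact mul_le_mul_of_nonneg_left (sum_half_pow_En hP X σ) (by positivity)
    _ = (14000000 * δ * P.Nb) ^ X.card := by
        rw [← mul_pow]
        congr 1
        ring

/-- There are at most `8 ^ card X` type assignments (`card_asg`, `card_minus_le`). -/
theorem RB_of_small (hP : P.Ok) (he : Dir e) {x δ θ : ℝ} (hx : 0 ≤ x) (hδ : 0 ≤ δ) (hδ1 : δ ≤ 1)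
    (hxδ : x ≤ δ ^ 76 / 2) (hθ : 200000000 * δ ≤ θ * P.t ^ 2) : RB P e x θ := by
  intro X C hC D
  have N0 : 0 < P.Nb := by
    unfold Par.Nb
    positivity
  have h1 : ∀ σ ∈ asg false (SS (tri e) X) univ,
      |W P e x X C σ / P.Nb ^ X.card * ∏ b ∈ D, chi e σ b| ≤ (14000000 * δ) ^ X.card := by
    intro σ _
    have a1 : |∏ b ∈ D, chi e σ b| = 1 := by
      rw [abs_prod]
      refine prod_eq_one fun b _ => ?_
      unfold chi
      split_ifs <;> simp
    rw [abs_mul, a1, mul_one, abs_div, abs_of_pos (pow_pos N0 _), div_le_iff₀ (pow_pos N0 _),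
      ← mul_pow]
    exact abs_W_le hP he hx hδ hδ1 hxδ hC σ
  have h2 : (((asg false (SS (tri e) X) univ).card : ℕ) : ℝ) ≤ 8 ^ X.card := by
    rw [card_asg, card_univ, Fintype.card_bool, show (8 : ℝ) = 2 ^ 3 by norm_num, ← pow_mul]
    push_cast
    exact pow_le_pow_right₀ one_le_two (card_minus_le X)
  have h3 := (abs_sum_le_sum_abs _ _).trans (sum_le_card_nsmul _ _ _ h1)
  rw [nsmul_eq_mul] at h3
  have h4 := h3.trans (mul_le_mul_of_nonneg_right h2 (by positivity))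
  rw [rc, abs_mul, abs_of_nonneg (by positivity)]
  refine (mul_le_of_le_one_left (abs_nonneg _) (pow_le_one₀ (by norm_num) (by norm_num))).trans
    (h4.trans ?_)
  rw [← mul_pow]
  exact pow_le_pow_left₀ (by positivity) (by linarith) _

end Pool.Agent.MP_646035_al.H91

end

-- part MP_646035_al.H91.Grp
section

/-!
The group `ℝ² ⋊ ℤ` and the generating sets.
-/

namespace Pool.Agent.MP_646035_al.H91

open Finset

/-- The action of `k ∈ ℤ` on the plane. -/
noncomputable def sh (s : ℝ) (k : ℤ) : ℝ × ℝ →+ ℝ × ℝ where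
  toFun v := (Real.exp (k * s) * v.1, Real.exp (-(k * s)) * v.2)
  map_zero' := by simp
  map_add' v w := by simp [mul_add]

lemma sh_apply (s : ℝ) (k : ℤ) (v : ℝ × ℝ) :
    sh s k v = (Real.exp (k * s) * v.1, Real.exp (-(k * s)) * v.2) := rfl

@[simp] lemma sh_zero (s : ℝ) (v : ℝ × ℝ) : sh s 0 v = v := by simp [sh_apply]

lemma sh_sh (s : ℝ) (k k' : ℤ) (v : ℝ × ℝ) : sh s k (sh s k' v) = sh s (k + k') v := by
  simp only [sh_apply, Int.cast_add, add_mul, neg_add, Real.exp_add, mul_assoc]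

/-- The lamp at position `j`. -/
noncomputable def ev (s : ℝ) (j : ℤ) : ℝ × ℝ := sh s j (1, 1)

lemma sh_ev (s : ℝ) (k j : ℤ) : sh s k (ev s j) = ev s (k + j) := sh_sh s k j _

@[ext] structure El (s : ℝ) where
  v : ℝ × ℝ
  k : ℤ

noncomputable instance (s : ℝ) : Mul (El s) := ⟨fun g g' => ⟨g.v + sh s g.k g'.v, g.k + g'.k⟩⟩

instance (s : ℝ) : One (El s) := ⟨⟨0, 0⟩⟩

noncomputable instance (s : ℝ) : Inv (El s) := ⟨fun g => ⟨-sh s (-g.k) g.v, -g.k⟩⟩

variable {s : ℝ}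

@[simp] lemma El.mul_v (g g' : El s) : (g * g').v = g.v + sh s g.k g'.v := rfl
@[simp] lemma El.mul_k (g g' : El s) : (g * g').k = g.k + g'.k := rfl
@[simp] lemma El.one_v : (1 : El s).v = 0 := rfl
@[simp] lemma El.one_k : (1 : El s).k = 0 := rfl
@[simp] lemma El.inv_v (g : El s) : g⁻¹.v = -sh s (-g.k) g.v := rfl
@[simp] lemma El.inv_k (g : El s) : g⁻¹.k = -g.k := rfl

noncomputable instance (s : ℝ) : Group (El s) :=
  Group.ofLeftAxioms
    (fun a b c => by ext1 <;> simp [sh_sh, add_assoc])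
    (fun a => by ext1 <;> simp)
    (fun a => by ext1 <;> simp)

/-- The value of the three digits at one site. -/
def dg (P : Par) (z : Fin 3 → ℤ) : ℤ := z 0 + P.β * z 1 + P.β ^ 2 * z 2

/-- The value of the five digits written by a generator at position `0`. -/
noncomputable def dv (P : Par) (s : ℝ) (n : ℕ) (d : Fin 5 → ℤ) : ℝ × ℝ :=
  (d 0 + P.β * d 2 + P.β ^ 2 * d 4) • ev s 0 + d 1 • ev s 1 + (P.β * d 3) • ev s n

/-- The value of the digits of `c` on `Λ`. -/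
noncomputable def val (P : Par) (s : ℝ) (Λ : Finset ℤ) (c : ℤ → St) : ℝ × ℝ :=
  ∑ j ∈ Λ, dg P (c j).2.2 • ev s j

/-- Lamp digits of a move of type `σ`. -/
def PS (P : Par) (σ : Bool) (p : ℤ) : Prop := |p| ≤ P.h ∧ p ≠ -(sg σ * (P.h - 1))

/-- Digits of a move of type `σ`. -/
def Typ (P : Par) (σ : Bool) (d : Fin 5 → ℤ) : Prop :=
  PS P σ (d 0) ∧ PS P (!σ) (d 1) ∧ PS P σ (d 2) ∧ PS P (!σ) (d 3) ∧
    |d 4 - sg σ * (P.B + 1)| ≤ P.B

/-- Digits of a product of `ν` strong generators. -/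
def Sup (P : Par) (ν : ℕ) (d : Fin 5 → ℤ) : Prop :=
  |d 0| ≤ 2 * P.h * ν ∧ |d 1| ≤ 2 * P.h * ν ∧ |d 2| ≤ 2 * P.h * ν ∧ |d 3| ≤ 2 * P.h * ν ∧
    |d 4| ≤ (4 * P.B + 2) * ν

/-- Digits of a product of `α l` single generators of kind `l`. -/
def Sing (P : Par) (α : Fin 3 → ℕ) (y : Fin 3 → ℤ) : Prop :=
  |y 0| ≤ 40 * P.h * α 0 ∧ |y 1| ≤ 40 * P.h * α 1 ∧ |y 2| ≤ 20 * (4 * P.B + 2) * α 2

def IsGen (P : Par) (s : ℝ) (n : ℕ) (g : El s) : Prop :=
  (∃ σ d, Typ P σ d ∧ g = ⟨dv P s n d, 1⟩) ∨ (∃ d, Sup P 1 d ∧ g = ⟨dv P s n d, 0⟩) ∨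
    ∃ l y, Sing P (Pi.single l 1) y ∧ g = ⟨dg P y • ev s 0, 0⟩

lemma grp_fin (m : ℕ) (K : ℤ) : {d : Fin m → ℤ | ∀ i, |d i| ≤ K}.Finite :=
  (Set.finite_Icc (fun _ => -K) fun _ => K).subset fun _ h =>
    ⟨fun i => (abs_le.1 (h i)).1, fun i => (abs_le.1 (h i)).2⟩

lemma finite_isGen (P : Par) (s : ℝ) (n : ℕ) : {g | IsGen P s n g}.Finite := by
  have h5 := grp_fin 5 (40 * P.h + 20 * (4 * P.B + 2))
  have h3 := grp_fin 3 (40 * P.h + 20 * (4 * P.B + 2))
  refine ((h5.image fun d => (⟨dv P s n d, 1⟩ : El s)).union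
    ((h5.image fun d => (⟨dv P s n d, 0⟩ : El s)).union
      (h3.image fun y => (⟨dg P y • ev s 0, 0⟩ : El s)))).subset ?_
  rintro g (⟨σ, d, ⟨⟨h0, -⟩, ⟨h1, -⟩, ⟨h2, -⟩, ⟨h3, -⟩, h4⟩, rfl⟩ | ⟨d, ⟨h0, h1, h2, h3, h4⟩, rfl⟩ |
    ⟨l, y, ⟨h0, h1, h2⟩, rfl⟩)
  · refine .inl ⟨d, ?_, rfl⟩
    simp only [Set.mem_ofPred_eq, Fin.forall_fin_succ, abs_le] at *
    rcases sg_cases σ with h | h <;> rw [h] at h4 <;> simp <;> omega
  · refine .inr (.inl ⟨d, ?_, rfl⟩)
    simp only [Set.mem_ofPred_eq, Fin.forall_fin_succ, abs_le] at *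
    simp at *
    omega
  · refine .inr (.inr ⟨y, ?_, rfl⟩)
    simp only [Set.mem_ofPred_eq, Fin.forall_fin_succ, abs_le] at *
    fin_cases l <;> simp at * <;> omega

/-- The generating set with offset `n`. -/
noncomputable def gens (P : Par) (s : ℝ) (n : ℕ) : Finset (El s) := (finite_isGen P s n).toFinset

lemma mem_gens {P : Par} {n : ℕ} {g : El s} : g ∈ gens P s n ↔ IsGen P s n g := by
  simp [gens]

/-- The lattice. -/
noncomputable def Lat (s : ℝ) : Subgroup (El s) :=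
  Subgroup.closure {⟨ev s 0, 0⟩, ⟨0, 1⟩}

lemma grp_mem {H : Subgroup (El s)} {a b : El s} (h : a ∈ H) (e : a = b) : b ∈ H := e ▸ h

/-- The translations in a subgroup. -/
def grpKer (H : Subgroup (El s)) : AddSubgroup (ℝ × ℝ) where
  carrier := {v | (⟨v, 0⟩ : El s) ∈ H}
  zero_mem' := H.one_mem
  add_mem' := fun ha hb => grp_mem (H.mul_mem ha hb) (by ext1 <;> simp)
  neg_mem' := fun ha => grp_mem (H.inv_mem ha) (by ext1 <;> simp)

lemma grp_sh {H : Subgroup (El s)} {g : El s} (hg : g ∈ H) {v : ℝ × ℝ} (hv : v ∈ grpKer H) :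
    sh s g.k v ∈ grpKer H :=
  grp_mem (H.mul_mem (H.mul_mem hg hv) (H.inv_mem hg)) (by ext1 <;> simp [sh_sh])

lemma grp_dv {H : Subgroup (El s)} {g : El s} (hg : g ∈ H) (hk : g.k = 1)
    (h0 : ev s 0 ∈ grpKer H) (P : Par) (n : ℕ) (d : Fin 5 → ℤ) : dv P s n d ∈ grpKer H := by
  have hj : ∀ j : ℕ, ev s j ∈ grpKer H := by
    intro j
    induction j with
    | zero => exact h0
    | succ j ih =>
      have := grp_sh hg ih
      rwa [hk, sh_ev, add_comm] at this
  exact add_mem (add_mem (zsmul_mem h0 _) (zsmul_mem (hj 1) _)) (zsmul_mem (hj n) _)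

lemma closure_gens {P : Par} (hP : P.Ok) (s : ℝ) (n : ℕ) :
    Subgroup.closure (gens P s n : Set (El s)) = Lat s := by
  have h2 := hP.h2
  apply le_antisymm
  · have ht : (⟨0, 1⟩ : El s) ∈ Lat s := Subgroup.subset_closure (by simp)
    have h0 : ev s 0 ∈ grpKer (Lat s) := Subgroup.subset_closure (by simp)
    rw [Subgroup.closure_le]
    intro g hg
    rcases mem_gens.1 hg with ⟨σ, d, -, rfl⟩ | ⟨d, -, rfl⟩ | ⟨l, y, -, rfl⟩
    · exact grp_mem ((Lat s).mul_mem (grp_dv ht rfl h0 P n d) ht) (by ext1 <;> simp)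
    · exact grp_dv ht rfl h0 P n d
    · exact (grpKer (Lat s)).zsmul_mem h0 _
  · set H := Subgroup.closure (gens P s n : Set (El s))
    have h0 : ev s 0 ∈ grpKer H := Subgroup.subset_closure (mem_gens.2 (.inr (.inr
      ⟨0, ![1, 0, 0], by simp [Sing]; omega, by simp [dg]⟩)))
    have ht : (⟨dv P s n ![0, 0, 0, 0, P.B + 1], 1⟩ : El s) ∈ H :=
      Subgroup.subset_closure (mem_gens.2 (.inl ⟨true, _, by simp [Typ, PS, sg]; omega, rfl⟩))
    rw [Lat, Subgroup.closure_le]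
    rintro g (rfl | rfl)
    · exact h0
    · exact grp_mem (H.mul_mem ((grpKer H).neg_mem
        (grp_dv ht rfl h0 P n ![0, 0, 0, 0, P.B + 1])) ht) (by ext1 <;> simp)

/-- The trace relation. -/
def Tr (P : Par) (s : ℝ) : Prop := 0 < s ∧ Real.exp s + Real.exp (-s) = (P.β : ℝ) ^ 3

lemma ev_rel {P : Par} (h : Tr P s) (j : ℤ) :
    ev s (j - 1) + ev s (j + 1) = ((P.β : ℤ) ^ 3) • ev s j := by
  have h1 := h.2
  ext
  · rw [Prod.smul_fst]
    simp only [ev, sh_apply, Prod.fst_add, mul_one, zsmul_eq_mul]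
    push_cast
    rw [← h1, sub_mul, add_mul, one_mul, sub_eq_add_neg, Real.exp_add, Real.exp_add]
    ring
  · rw [Prod.smul_snd]
    simp only [ev, sh_apply, Prod.snd_add, mul_one, zsmul_eq_mul]
    push_cast
    rw [← h1, sub_mul, add_mul, one_mul, neg_sub, neg_add, sub_eq_add_neg, Real.exp_add,
      Real.exp_add]
    ring

lemma dv_add (P : Par) (s : ℝ) (n : ℕ) (d d' : Fin 5 → ℤ) :
    dv P s n (d + d') = dv P s n d + dv P s n d' := by
  simp only [dv, Pi.add_apply]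
  module

lemma dv_neg (P : Par) (s : ℝ) (n : ℕ) (d : Fin 5 → ℤ) : dv P s n (-d) = -dv P s n d := by
  simp only [dv, Pi.neg_apply]
  module

lemma dg_add (P : Par) (z z' : Fin 3 → ℤ) : dg P (z + z') = dg P z + dg P z' := by
  simp only [dg, Pi.add_apply]
  ring

lemma Typ.neg {P : Par} {σ : Bool} {d : Fin 5 → ℤ} (h : Typ P σ d) : Typ P (!σ) (-d) := by
  have key : ∀ {σ : Bool} {p : ℤ}, PS P σ p → PS P (!σ) (-p) := fun h =>
    ⟨by rw [abs_neg]; exact h.1, fun h' => h.2 (by rw [sg_not] at h'; linarith)⟩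
  obtain ⟨h0, h1, h2, h3, h4⟩ := h
  refine ⟨key h0, key h1, key h2, key h3, ?_⟩
  rw [sg_not, Pi.neg_apply, ← abs_neg]
  convert h4 using 2
  ring

lemma Typ.sub {P : Par} {σ σ' : Bool} {d d' : Fin 5 → ℤ} (h : Typ P σ d) (h' : Typ P σ' d') :
    Sup P 1 (d - d') := by
  obtain ⟨⟨h0, -⟩, ⟨h1, -⟩, ⟨h2, -⟩, ⟨h3, -⟩, h4⟩ := h
  obtain ⟨⟨k0, -⟩, ⟨k1, -⟩, ⟨k2, -⟩, ⟨k3, -⟩, k4⟩ := h'
  simp only [Sup, Pi.sub_apply, abs_le, Nat.cast_one, mul_one] at *
  rcases sg_cases σ with h | h <;> rcases sg_cases σ' with h' | h' <;> rw [h] at h4 <;>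
    rw [h'] at k4 <;> omega

lemma Sup.add {P : Par} {ν ν' : ℕ} {d d' : Fin 5 → ℤ} (h : Sup P ν d) (h' : Sup P ν' d') :
    Sup P (ν + ν') (d + d') := by
  obtain ⟨h0, h1, h2, h3, h4⟩ := h
  obtain ⟨k0, k1, k2, k3, k4⟩ := h'
  simp only [Sup, Pi.add_apply, Nat.cast_add, mul_add]
  exact ⟨(abs_add_le _ _).trans (add_le_add h0 k0), (abs_add_le _ _).trans (add_le_add h1 k1),
    (abs_add_le _ _).trans (add_le_add h2 k2), (abs_add_le _ _).trans (add_le_add h3 k3),
    (abs_add_le _ _).trans (add_le_add h4 k4)⟩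

/-- The cost of a lamp digit written by two moves, strong generators and `α` single ones. -/
lemma lampC_le_of_parts {P : Par} (hP : P.Ok) {σ σ' : Bool} {ν ν' α : ℕ} {p p' a a' y : ℤ}
    (hp : PS P σ p) (hp' : PS P (!σ') p') (ha : |a| ≤ 2 * P.h * ν) (ha' : |a'| ≤ 2 * P.h * ν')
    (hy : |y| ≤ 40 * P.h * α) : lampC P σ σ' ν ν' (p + p' + a + a' + y) ≤ α := by
  obtain ⟨h1, h2⟩ := hp
  obtain ⟨h3, h4⟩ := hp'
  rw [lampC_le_iff hP]
  constructor
  · rw [abs_le] at *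
    constructor <;> linarith [h1.1, h1.2, h3.1, h3.2, ha.1, ha.2, ha'.1, ha'.2, hy.1, hy.2]
  · rintro rfl ⟨rfl, rfl, hne, hz⟩
    rw [sg_not, sg_ne hne, neg_neg] at h4
    simp only [abs_le, Nat.cast_zero, mul_zero] at *
    rcases sg_cases σ with h | h <;> rw [h] at h2 h4 hz <;> omega

lemma grp_split {A B r : ℤ} (hA : 0 ≤ A) (hB : 0 ≤ B) (h : |r| ≤ A + B) :
    ∃ a b, |a| ≤ A ∧ |b| ≤ B ∧ r = a + b :=
  ⟨max (-A) (min A r), r - max (-A) (min A r), by simp only [abs_le] at *; omega⟩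

lemma grp_pair {h t t' z : ℤ} (h2 : 2 ≤ h) (ht : t = 1 ∨ t = -1) (ht' : t' = 1 ∨ t' = -1)
    (hz : |z| ≤ 2 * h) (hh : t' = t → z ≠ -(t * (2 * h - 1))) :
    ∃ p p', (|p| ≤ h ∧ p ≠ -(t * (h - 1))) ∧ (|p'| ≤ h ∧ p' ≠ -(t' * (h - 1))) ∧ z = p + p' := by
  by_contra hc
  simp only [not_exists, abs_le] at hc hz
  have h1 := hc h (z - h)
  have h3 := hc (z - h) h
  have h4 := hc (-h) (z + h)
  have h5 := hc (z + h) (-h)
  have h6 := hc z 0
  rcases ht with rfl | rfl <;> rcases ht' with rfl | rfl <;> omega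

/-- Converse of `lampC_le_of_parts`. -/
lemma exists_parts {P : Par} (hP : P.Ok) (σ σ' : Bool) (ν ν' : ℕ) (z : ℤ) :
    ∃ p p' a a' y : ℤ, PS P σ p ∧ PS P (!σ') p' ∧ |a| ≤ 2 * P.h * ν ∧ |a'| ≤ 2 * P.h * ν' ∧
      |y| ≤ 40 * P.h * lampC P σ σ' ν ν' z ∧ z = p + p' + a + a' + y := by
  have h2 : (2 : ℤ) ≤ P.h := by exact_mod_cast hP.h2
  obtain ⟨hz, hh⟩ := (lampC_le_iff hP σ σ' ν ν' z _).1 le_rfl
  generalize lampC P σ σ' ν ν' z = k at hz hh ⊢
  suffices ∃ p p' : ℤ, PS P σ p ∧ PS P (!σ') p' ∧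
      |z - p - p'| ≤ 2 * P.h * ν + 2 * P.h * ν' + 40 * P.h * k by
    obtain ⟨p, p', h1, h3, h4⟩ := this
    obtain ⟨b, y, h5, h6, h7⟩ := grp_split (by positivity) (by positivity) h4
    obtain ⟨a, a', h8, h9, h10⟩ := grp_split (by positivity) (by positivity) h5
    exact ⟨p, p', a, a', y, h1, h3, h8, h9, h6, by linarith⟩
  by_cases h0 : ν + ν' + k = 0
  · obtain ⟨⟨rfl, rfl⟩, rfl⟩ : (ν = 0 ∧ ν' = 0) ∧ k = 0 := by omega
    obtain ⟨p, p', h1, h3, rfl⟩ := grp_pair h2 (sg_cases σ) (sg_cases !σ') (z := z)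
      (by simpa using hz) fun he hz' => hh rfl ⟨rfl, rfl, by
        rintro rfl
        rw [sg_not] at he
        rcases sg_cases σ with h | h <;> omega, hz'⟩
    exact ⟨p, p', h1, h3, by simp⟩
  · have hR : 2 * (P.h : ℤ) ≤ 2 * P.h * ν + 2 * P.h * ν' + 40 * P.h * k := by
      have : (1 : ℤ) ≤ ν + ν' + k := by omega
      have hk : (0 : ℤ) ≤ P.h * k := by positivity
      nlinarith
    have hz' : |z| ≤ 2 * P.h + (2 * P.h * ν + 2 * P.h * ν' + 40 * P.h * k) := by linarith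
    generalize 2 * (P.h : ℤ) * ν + 2 * P.h * ν' + 40 * P.h * k = R at hR hz' ⊢
    have key : ∀ (σ : Bool) (p : ℤ), p = P.h ∨ p = -P.h → PS P σ p := fun σ p hp =>
      ⟨by rw [abs_le]; omega, by rcases sg_cases σ with h | h <;> rw [h] <;> omega⟩
    rw [abs_le] at hz'
    rcases le_total 0 z with h | h
    · exact ⟨P.h, P.h, key _ _ (.inl rfl), key _ _ (.inl rfl), by rw [abs_le]; omega⟩
    · exact ⟨-P.h, -P.h, key _ _ (.inr rfl), key _ _ (.inr rfl), by rw [abs_le]; omega⟩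

lemma exists_parts_u (P : Par) (σ : Bool) (ν : ℕ) (z : ℤ) :
    ∃ u a y : ℤ, |u - sg σ * (P.B + 1)| ≤ P.B ∧ |a| ≤ (4 * P.B + 2) * ν ∧
      |y| ≤ 20 * (4 * P.B + 2) * uC P σ ν z ∧ z = u + a + y := by
  obtain ⟨b, y, h5, h6, h7⟩ := grp_split (by positivity) (by positivity) (uC_abs_le P σ ν z)
  obtain ⟨u, a, h8, h9, h10⟩ := grp_split (by positivity) (by positivity) h5
  exact ⟨u + sg σ * (P.B + 1), a, y, by simpa using h8, h9, h6, by linarith⟩

end Pool.Agent.MP_646035_al.H91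

end

-- part MP_646035_al.H91.UpA
section

/-!
A word gives a configuration whose cost is bounded by its length.
-/

namespace Pool.Agent.MP_646035_al.H91

open Finset

variable {P : Par} {s : ℝ} {n : ℕ}

/-- The edges crossed an odd number of times on the way from `0` to `k`. -/
def Typed (k i : ℤ) : Prop := min 0 k ≤ i ∧ i < max 0 k

instance (k i : ℤ) : Decidable (Typed k i) := by unfold Typed; infer_instance

/-- What a word of length at most `r ≤ N` writes: `[a, b]` is the visited interval. -/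
def Writes (P : Par) (s : ℝ) (n N r : ℕ) (g : El s) : Prop :=
  ∃ (a b : ℤ) (σ : ℤ → Bool) (d t : ℤ → Fin 5 → ℤ) (ν : ℤ → ℕ) (y : ℤ → Fin 3 → ℤ)
    (α : ℤ → Fin 3 → ℕ),
    a ≤ 0 ∧ a ≤ g.k ∧ 0 ≤ b ∧ g.k ≤ b ∧ (∀ i, Typ P (σ i) (d i)) ∧ (∀ i, Sup P (ν i) (t i)) ∧
    (∀ i, Sing P (α i) (y i)) ∧ (∀ i ∉ Icc a b, ν i = 0 ∧ α i = 0) ∧
    (b - a) + (∑ i ∈ Icc (-(N : ℤ)) N, (ν i + ∑ l, α i l) : ℕ) ≤ r ∧
    g.v = ∑ i ∈ Icc (-(N : ℤ)) N, ((if Typed g.k i then sh s i (dv P s n (d i)) else 0) +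
      sh s i (dv P s n (t i)) + dg P (y i) • ev s i)

lemma upa_sum_upd {M : Type*} [AddCommMonoid M] {S : Finset ℤ} {f f' : ℤ → M} {j : ℤ} {δ : M}
    (hj : j ∈ S) (h1 : ∀ i, i ≠ j → f' i = f i) (h2 : f' j = f j + δ) :
    ∑ i ∈ S, f' i = ∑ i ∈ S, f i + δ := by
  rw [← add_sum_erase S f' hj, ← add_sum_erase S f hj, h2,
    sum_congr rfl fun i hi => h1 i (ne_of_mem_erase hi), add_right_comm]

lemma upa_dv_zero : dv P s n 0 = 0 := by simp [dv]

lemma upa_typ0 (hP : P.Ok) : Typ P true ![0, 0, 0, 0, P.B + 1] := by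
  have := hP.h2
  refine ⟨⟨by simp, ?_⟩, ⟨by simp, ?_⟩, ⟨by simp, ?_⟩, ⟨by simp, ?_⟩, by simp [sg]⟩ <;>
    simp [sg] <;> omega

lemma upa_sup_neg {ν : ℕ} {d : Fin 5 → ℤ} (h : Sup P ν d) : Sup P ν (-d) := by
  simpa only [Sup, Pi.neg_apply, abs_neg] using h

lemma upa_sing_neg {α : Fin 3 → ℕ} {y : Fin 3 → ℤ} (h : Sing P α y) : Sing P α (-y) := by
  simpa only [Sing, Pi.neg_apply, abs_neg] using h

lemma upa_sing_add {α α' : Fin 3 → ℕ} {y y' : Fin 3 → ℤ} (h : Sing P α y) (h' : Sing P α' y') :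
    Sing P (α + α') (y + y') := by
  obtain ⟨h0, h1, h2⟩ := h
  obtain ⟨g0, g1, g2⟩ := h'
  refine ⟨?_, ?_, ?_⟩ <;> simp only [Pi.add_apply, Nat.cast_add, mul_add] at * <;>
    refine (abs_add_le _ _).trans ?_ <;> linarith

lemma upa_sup_zero {d : Fin 5 → ℤ} (h : Sup P 0 d) : d = 0 := by
  obtain ⟨h0, h1, h2, h3, h4⟩ := h
  simp only [Nat.cast_zero, mul_zero, abs_nonpos_iff] at h0 h1 h2 h3 h4
  funext i
  fin_cases i <;> assumption

lemma upa_sing_zero {y : Fin 3 → ℤ} (h : Sing P 0 y) : y = 0 := by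
  obtain ⟨h0, h1, h2⟩ := h
  simp only [Pi.zero_apply, Nat.cast_zero, mul_zero, abs_nonpos_iff] at h0 h1 h2
  funext i
  fin_cases i <;> assumption

/-- A step that adds one strong generator at `j`. -/
lemma upa_step_t {N r : ℕ} {g : El s} (hg : Writes P s n N r g) (hr : r + 1 ≤ N) (j k' : ℤ)
    (δ : ℝ × ℝ) (hj : min 0 g.k ≤ j ∧ j ≤ max 0 g.k) (hk : min 0 g.k ≤ k' ∧ k' ≤ max 0 g.k)
    (ht : ∀ i, i ≠ j → (Typed k' i ↔ Typed g.k i))
    (hw : ∀ σ d, Typ P σ d → ∃ w, Sup P 1 w ∧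
      (if Typed k' j then sh s j (dv P s n d) else 0) + sh s j (dv P s n w) =
        (if Typed g.k j then sh s j (dv P s n d) else 0) + δ) :
    Writes P s n N (r + 1) ⟨g.v + δ, k'⟩ := by
  obtain ⟨a, b, σ, d, t, ν, y, α, h1, h2, h3, h4, h5, h6, h7, h8, h9, h10⟩ := hg
  obtain ⟨w, hw1, hw2⟩ := hw _ _ (h5 j)
  have hjN : j ∈ Icc (-(N : ℤ)) N := by
    rw [mem_Icc]
    omega
  refine ⟨a, b, σ, d, Function.update t j (t j + w), Function.update ν j (ν j + 1), y, α, h1,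
    by simp only; omega, h3, by simp only; omega, h5, fun i => ?_, h7, fun i hi => ?_, ?_, ?_⟩
  · by_cases hij : i = j
    · subst hij
      simpa using (h6 i).add hw1
    · simpa [hij] using h6 i
  · have hij : i ≠ j := by
      rintro rfl
      apply hi
      rw [mem_Icc]
      omega
    simpa [hij] using h8 i hi
  · rw [upa_sum_upd (f := fun i => ν i + ∑ l, α i l) (δ := 1) hjN (fun i hi => by simp [hi])
      (by simp [add_right_comm])]
    push_cast at h9 ⊢
    omega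
  · rw [h10]
    refine (upa_sum_upd hjN (fun i hi => by simp [hi, ht i hi]) ?_).symm
    simp only [Function.update_self, dv_add, map_add]
    rw [← add_assoc, add_right_comm _ _ (sh s j (dv P s n w)), hw2]
    abel

/-- A step that adds one single generator. -/
lemma upa_step_y {N r : ℕ} {g : El s} (hg : Writes P s n N r g) (hr : r + 1 ≤ N) (l : Fin 3)
    {y' : Fin 3 → ℤ} (hy : Sing P (Pi.single l 1) y') :
    Writes P s n N (r + 1) ⟨g.v + dg P y' • ev s g.k, g.k⟩ := by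
  obtain ⟨a, b, σ, d, t, ν, y, α, h1, h2, h3, h4, h5, h6, h7, h8, h9, h10⟩ := hg
  have hjN : g.k ∈ Icc (-(N : ℤ)) N := by
    rw [mem_Icc]
    omega
  refine ⟨a, b, σ, d, t, ν, Function.update y g.k (y g.k + y'),
    Function.update α g.k (α g.k + Pi.single l 1), h1, h2, h3, h4, h5, h6, fun i => ?_,
    fun i hi => ?_, ?_, ?_⟩
  · by_cases hij : i = g.k
    · subst hij
      simpa using upa_sing_add (h7 _) hy
    · simpa [hij] using h7 i
  · have hij : i ≠ g.k := by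
      rintro rfl
      apply hi
      rw [mem_Icc]
      omega
    simpa [hij] using h8 i hi
  · rw [upa_sum_upd (f := fun i => ν i + ∑ l, α i l) (δ := 1) hjN (fun i hi => by simp [hi])
      (by simp [sum_add_distrib, add_assoc])]
    push_cast at h9 ⊢
    omega
  · simp only
    conv_lhs => rw [h10]
    refine (upa_sum_upd hjN (fun i hi => by simp [hi]) ?_).symm
    simp only [Function.update_self, dg_add, add_smul, add_assoc]

/-- A step that makes the edge `j` typed. -/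
lemma upa_step_d {N r : ℕ} {g : El s} (hg : Writes P s n N r g) (hr : r + 1 ≤ N) (j k' : ℤ)
    (hk : k' = g.k + 1 ∨ k' = g.k - 1) (hj : j = g.k ∨ j = g.k - 1)
    (ht : ∀ i, i ≠ j → (Typed k' i ↔ Typed g.k i)) (h0 : ¬ Typed g.k j) (h0' : Typed k' j)
    {σ' : Bool} {d' : Fin 5 → ℤ} (hd : Typ P σ' d') :
    Writes P s n N (r + 1) ⟨g.v + sh s j (dv P s n d'), k'⟩ := by
  obtain ⟨a, b, σ, d, t, ν, y, α, h1, h2, h3, h4, h5, h6, h7, h8, h9, h10⟩ := hg
  have hjN : j ∈ Icc (-(N : ℤ)) N := by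
    rw [mem_Icc]
    omega
  refine ⟨min a k', max b k', Function.update σ j σ', Function.update d j d', t, ν, y, α,
    by omega, by simp only; omega, by omega, by simp only; omega, fun i => ?_, h6, h7,
    fun i hi => h8 i fun hi' => hi ?_, ?_, ?_⟩
  · by_cases hij : i = j
    · subst hij
      simpa using hd
    · simpa [hij] using h5 i
  · rw [mem_Icc] at hi' ⊢
    omega
  · push_cast at h9 ⊢
    omega
  · rw [h10]
    refine (upa_sum_upd hjN (fun i hi => by simp [hi, ht i hi]) ?_).symm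
    simp only [Function.update_self, if_pos h0', if_neg h0]
    abel

/-- `ball_induction` for `fun r g => r ≤ N → Writes P s n N r g`.  A strong or single generator
(or its inverse) updates `t, ν` or `y, α` at `g.k`.  A move away from `0` makes one more edge
typed (`Typ.neg` for backward moves; `a` or `b` moves by at most one); a move towards `0` makes an
edge untyped and adds `d - d'` to `t` there (`Typ.sub`, `Sup.add`). -/
theorem writes_of_mem_ball (hP : P.Ok) (N : ℕ) {g : El s} (hg : g ∈ ball (gens P s n) N) :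
    Writes P s n N N g := by
  refine ball_induction (fun r g => r ≤ N → Writes P s n N r g) (fun _ => ?_)
    (fun r g h hr => ?_) (fun r g x h hx hr => ?_) N g hg le_rfl
  · refine ⟨0, 0, fun _ => true, fun _ => ![0, 0, 0, 0, P.B + 1], 0, 0, 0, 0, le_rfl, le_rfl,
      le_rfl, le_rfl, fun _ => upa_typ0 hP, fun _ => by simp [Sup], fun _ => by simp [Sing],
      fun _ _ => ⟨rfl, rfl⟩, by simp, ?_⟩
    refine (sum_eq_zero fun i _ => ?_).symm
    rw [if_neg (by simp [Typed])]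
    simp [upa_dv_zero, dg]
  · obtain ⟨a, b, σ, d, t, ν, y, α, h1, h2, h3, h4, h5, h6, h7, h8, h9, h10⟩ := h (by omega)
    exact ⟨a, b, σ, d, t, ν, y, α, h1, h2, h3, h4, h5, h6, h7, h8, by push_cast at h9 ⊢; omega,
      h10⟩
  · have hg := h (by omega)
    have strong : ∀ d, Sup P 1 d → Writes P s n N (r + 1) (g * ⟨dv P s n d, 0⟩) := fun d hd => by
      have := upa_step_t hg hr g.k g.k (sh s g.k (dv P s n d)) (by omega) (by omega)
        (fun _ _ => Iff.rfl) (fun _ _ _ => ⟨d, hd, rfl⟩)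
      convert this using 1
      ext1 <;> simp
    have single : ∀ l y, Sing P (Pi.single l 1) y →
        Writes P s n N (r + 1) (g * ⟨dg P y • ev s 0, 0⟩) := fun l y hy => by
      convert upa_step_y hg hr l hy using 1
      ext1
      · simp only [El.mul_v, map_zsmul, sh_ev, add_zero]
      · simp
    rcases hx with hx | hx
    · rcases mem_gens.1 hx with ⟨σ', d', hd, rfl⟩ | ⟨d', hd, rfl⟩ | ⟨l, y, hy, rfl⟩
      · rcases le_or_gt 0 g.k with hk | hk
        · exact upa_step_d hg hr g.k (g.k + 1) (.inl rfl) (.inl rfl)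
            (fun i hi => by unfold Typed; omega) (by unfold Typed; omega) (by unfold Typed; omega)
            hd
        · refine upa_step_t hg hr g.k (g.k + 1) (sh s g.k (dv P s n d')) (by omega) (by omega)
            (fun i hi => by unfold Typed; omega) (fun σ d h => ⟨d - -d', h.sub hd.neg, ?_⟩)
          rw [if_neg (by unfold Typed; omega), if_pos (by unfold Typed; omega), sub_neg_eq_add,
            dv_add, map_add, zero_add]
      · exact strong d' hd
      · exact single l y hy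
    · rcases mem_gens.1 hx with ⟨σ', d', hd, hx'⟩ | ⟨d', hd, hx'⟩ | ⟨l, y, hy, hx'⟩
      · have e : g * x = ⟨g.v + sh s (g.k - 1) (dv P s n (-d')), g.k - 1⟩ := by
          rw [← inv_inv x, hx']
          ext1
          · simp [dv_neg, sh_sh, sub_eq_add_neg]
          · simp [sub_eq_add_neg]
        rw [e]
        rcases le_or_gt g.k 0 with hk | hk
        · exact upa_step_d hg hr (g.k - 1) (g.k - 1) (.inr rfl) (.inr rfl)
            (fun i hi => by unfold Typed; omega) (by unfold Typed; omega) (by unfold Typed; omega)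
            hd.neg
        · refine upa_step_t hg hr (g.k - 1) (g.k - 1) _ (by omega) (by omega)
            (fun i hi => by unfold Typed; omega) (fun σ d h => ⟨d - d', h.sub hd, ?_⟩)
          rw [if_neg (by unfold Typed; omega), if_pos (by unfold Typed; omega), sub_eq_add_neg d,
            dv_add, map_add, zero_add]
      · have e : x = ⟨dv P s n (-d'), 0⟩ := by
          rw [← inv_inv x, hx']
          ext1 <;> simp [dv_neg]
        rw [e]
        exact strong _ (upa_sup_neg hd)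
      · have e : x = ⟨dg P (-y) • ev s 0, 0⟩ := by
          rw [← inv_inv x, hx']
          ext1
          · simp only [El.inv_v, neg_zero, sh_zero, ← neg_smul]
            congr 1
            simp only [dg, Pi.neg_apply]
            ring
          · simp
        rw [e]
        exact single l _ (upa_sing_neg hy)

/-- A configuration on `Ico a (a + L)` with type `true` and nothing written outside. -/
def Out (a : ℤ) (L : ℕ) (c : ℤ → St) : Prop := ∀ j ∉ Ico a (a + L), c j = (true, 0, 0)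

lemma upa_shift {a b m : ℤ} (hm : 0 ≤ m) (hmn : m ≤ n) (f : ℤ → ℤ)
    (hf : ∀ i ∉ Icc a b, f i = 0) :
    ∑ j ∈ Ico a (b + n + 1), f (j - m) • ev s j =
      ∑ i ∈ Ico a (b + n + 1), f i • ev s (i + m) := by
  have h1 : ∑ i ∈ Icc a b, f i • ev s (i + m) = ∑ i ∈ Ico a (b + n + 1), f i • ev s (i + m) :=
    sum_subset (fun i hi => by rw [mem_Icc] at hi; rw [mem_Ico]; omega)
      (fun i _ hi => by rw [hf i hi, zero_smul])
  have h2 : ∑ j ∈ (Icc a b).map (addRightEmbedding m), f (j - m) • ev s j =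
      ∑ j ∈ Ico a (b + n + 1), f (j - m) • ev s j := by
    refine sum_subset (fun j hj => ?_) (fun j _ hj => ?_)
    · obtain ⟨i, hi, rfl⟩ := mem_map.1 hj
      rw [mem_Icc] at hi
      rw [mem_Ico, addRightEmbedding_apply]
      omega
    · rw [hf _ fun h => hj (mem_map.2 ⟨_, h, by simp⟩), zero_smul]
  rw [← h1, ← h2, sum_map]
  simp

/-- Take the window `Ico a (b + n + 1)`; at its sites that are not typed use the type `true` and
the digits `d₀ = (0, 0, 0, 0, B + 1)`.  With `D i = d i + t i` (or `d₀ + t i`) in the window and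
`0` outside, the digits at `j` are `D j 0 + D (j - 1) 1 + y j 0`, `D j 2 + D (j - n) 3 + y j 1`,
`D j 4 + y j 2`; `lampC_le_of_parts` (`0` is in `PS P σ`), `uC_le_iff`. -/
theorem cfg_of_writes (hP : P.Ok) (hn : 1 ≤ n) {N : ℕ} {g : El s} (hg : Writes P s n N N g) :
    ∃ (a : ℤ) (L : ℕ) (c : ℤ → St), a ≤ 0 ∧ a ≤ g.k ∧ 0 ≤ a + L ∧ g.k ≤ a + L ∧ Out a L c ∧
      L + En P (eC n) (Ico a (a + L)) c ≤ N + n + 1 ∧
      val P s (Ico a (a + L)) c = g.v + ∑ j ∈ Ico a (a + L) with ¬ Typed g.k j,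
        ((P.β : ℤ) ^ 2 * (P.B + 1)) • ev s j := by
  obtain ⟨a, b, σ, d, t, ν, y, α, h1, h2, h3, h4, h5, h6, h7, h8, h9, h10⟩ := hg
  obtain ⟨L, hL⟩ : ∃ L : ℕ, (L : ℤ) = b - a + n + 1 := ⟨(b - a + n + 1).toNat, by omega⟩
  have hW : a + L = b + n + 1 := by omega
  have nt : ∀ i ∉ Icc a b, ¬ Typed g.k i := fun i hi => by
    rw [mem_Icc] at hi
    unfold Typed
    omega
  have t0 : ∀ i ∉ Icc a b, t i = 0 := fun i hi => upa_sup_zero ((h8 i hi).1 ▸ h6 i)
  have y0 : ∀ i ∉ Icc a b, y i = 0 := fun i hi => upa_sing_zero ((h8 i hi).2 ▸ h7 i)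
  have sub1 : Icc a b ⊆ Ico a (b + n + 1) := fun i hi => by
    rw [mem_Icc] at hi
    rw [mem_Ico]
    omega
  have sub2 : Icc a b ⊆ Icc (-(N : ℤ)) N := fun i hi => by
    rw [mem_Icc] at hi ⊢
    omega
  obtain ⟨τ, hτ⟩ : ∃ τ : ℤ → Bool, ∀ i, τ i = if Typed g.k i then σ i else true := ⟨_, fun _ => rfl⟩
  obtain ⟨D, hD⟩ : ∃ D : ℤ → Fin 5 → ℤ,
      ∀ i, D i = if Typed g.k i then d i else ![0, 0, 0, 0, P.B + 1] := ⟨_, fun _ => rfl⟩
  have hT : ∀ i, Typ P (τ i) (D i) := fun i => by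
    rw [hτ, hD]
    split_ifs
    · exact h5 i
    · exact upa_typ0 hP
  let z : ℤ → Fin 3 → ℤ := fun j => ![D j 0 + D (j - 1) 1 + t j 0 + t (j - 1) 1 + y j 0,
    D j 2 + D (j - n) 3 + t j 2 + t (j - n) 3 + y j 1, D j 4 + t j 4 + y j 2]
  refine ⟨a, L, fun j => (τ j, ν j, if j ∈ Ico a (b + n + 1) then z j else 0), h1, h2, by omega,
    by omega, fun j hj => ?_, ?_, ?_⟩
  · rw [hW] at hj
    have hj' : j ∉ Icc a b := fun h => hj (sub1 h)
    simp only [if_neg hj, hτ, if_neg (nt j hj'), (h8 j hj').1]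
  · rw [hW]
    have e1 : En P (eC n) (Ico a (b + n + 1))
        (fun j => (τ j, ν j, if j ∈ Ico a (b + n + 1) then z j else 0)) ≤
        ∑ j ∈ Ico a (b + n + 1), (ν j + ∑ l, α j l) := by
      refine sum_le_sum fun j hj => ?_
      simp only [E, if_pos hj, eC_zero, eC_one, Fin.sum_univ_three]
      have c0 := lampC_le_of_parts hP (hT j).1 (hT (j - 1)).2.1 (h6 j).1 (h6 (j - 1)).2.1 (h7 j).1
      have c1 := lampC_le_of_parts hP (hT j).2.2.1 (hT (j - n)).2.2.2.1 (h6 j).2.2.1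
        (h6 (j - n)).2.2.2.1 (h7 j).2.1
      have c2 : uC P (τ j) (ν j) (D j 4 + t j 4 + y j 2) ≤ α j 2 := by
        rw [uC_le_iff]
        have f1 := abs_le.1 (hT j).2.2.2.2
        have f2 := abs_le.1 (h6 j).2.2.2.2
        have f3 := abs_le.1 (h7 j).2.2
        rw [abs_le]
        constructor <;> linarith [f1.1, f1.2, f2.1, f2.2, f3.1, f3.2]
      have z0 : z j 0 = D j 0 + D (j - 1) 1 + t j 0 + t (j - 1) 1 + y j 0 := rfl
      have z1 : z j 1 = D j 2 + D (j - n) 3 + t j 2 + t (j - n) 3 + y j 1 := rfl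
      have z2 : z j 2 = D j 4 + t j 4 + y j 2 := rfl
      rw [z0, z1, z2]
      omega
    have hz : ∀ i ∉ Icc a b, ν i + ∑ l, α i l = 0 := fun i hi => by
      simp [(h8 i hi).1, (h8 i hi).2]
    rw [← sum_subset sub1 fun i _ hi => hz i hi] at e1
    rw [← sum_subset sub2 fun i _ hi => hz i hi] at h9
    omega
  · rw [hW]
    have hz : ∀ i ∉ Icc a b, (if Typed g.k i then sh s i (dv P s n (d i)) else 0) +
        sh s i (dv P s n (t i)) + dg P (y i) • ev s i = 0 := fun i hi => by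
      simp [nt i hi, t0 i hi, y0 i hi, upa_dv_zero, dg]
    rw [← sum_subset sub2 fun i _ hi => hz i hi, sum_subset sub1 fun i _ hi => hz i hi] at h10
    have s1 := upa_shift (s := s) (n := n) (a := a) (b := b) (m := 1) zero_le_one (by omega)
      (fun i => D i 1 + t i 1) (fun i hi => by simp [hD, nt i hi, t0 i hi])
    have s2 := upa_shift (s := s) (n := n) (a := a) (b := b) (m := n) (by omega) le_rfl
      (fun i => P.β * (D i 3 + t i 3)) (fun i hi => by simp [hD, nt i hi, t0 i hi])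
    have e1 : val P s (Ico a (b + n + 1))
        (fun j => (τ j, ν j, if j ∈ Ico a (b + n + 1) then z j else 0)) =
        ∑ j ∈ Ico a (b + n + 1), ((D j 0 + t j 0 + P.β * (D j 2 + t j 2) +
          P.β ^ 2 * (D j 4 + t j 4) + dg P (y j)) • ev s j) +
        ∑ j ∈ Ico a (b + n + 1), (D (j - 1) 1 + t (j - 1) 1) • ev s j +
        ∑ j ∈ Ico a (b + n + 1), (P.β * (D (j - n) 3 + t (j - n) 3)) • ev s j := by
      rw [← sum_add_distrib, ← sum_add_distrib]
      refine sum_congr rfl fun j hj => ?_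
      simp only [if_pos hj, ← add_smul]
      congr 1
      simp only [dg, z, Matrix.cons_val_zero, Matrix.cons_val_one, Matrix.cons_val]
      ring
    rw [e1, s1, s2, h10, sum_filter, ← sum_add_distrib, ← sum_add_distrib, ← sum_add_distrib]
    refine sum_congr rfl fun j _ => ?_
    simp only [dv, map_add, map_zsmul, sh_ev, add_zero, hD]
    by_cases hj : Typed g.k j
    · simp only [hj, if_true, not_true, if_false]
      module
    · simp only [hj, if_false, not_false_iff, if_true, Matrix.cons_val_zero, Matrix.cons_val_one,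
        Matrix.cons_val]
      module

end Pool.Agent.MP_646035_al.H91

end
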