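import Pool.Agent.MP_646035_al.Mg.H91_RepA

-- part MP_646035_al.H91.Geom
section

/-!
Polymers: transport along maps of sites, windows and extent.
-/

namespace Pool.Agent.MP_646035_al.H91

open Finset

variable {Q Q' : Type*} [AddCommGroup Q] [DecidableEq Q] [AddCommGroup Q'] [DecidableEq Q']
  {P : Par} {e : Fin 2 → Q} {e' : Fin 2 → Q'} {π : Q' → Q}

/-- The sites below the support of `C`. -/
def sites (e : Fin 2 → Q) (C : Finset (Atom Q)) : Finset Q := (SS (asupp e) C).image Prod.fst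

/-- The diameter of a finite set of integers. -/
def diam (S : Finset ℤ) : ℕ := (S ×ˢ S).sup fun p => (p.1 - p.2).natAbs

lemma le_diam {S : Finset ℤ} {a b : ℤ} (ha : a ∈ S) (hb : b ∈ S) : (a - b).natAbs ≤ diam S :=
  le_sup (f := fun p : ℤ × ℤ => (p.1 - p.2).natAbs) (mk_mem_product ha hb)

lemma diam_le {S : Finset ℤ} {k : ℕ} (h : ∀ a ∈ S, ∀ b ∈ S, (a - b).natAbs ≤ k) : diam S ≤ k :=
  Finset.sup_le fun _ hp => h _ (mem_product.1 hp).1 _ (mem_product.1 hp).2

lemma diam_mono {S T : Finset ℤ} (h : S ⊆ T) : diam S ≤ diam T :=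
  diam_le fun _ ha _ hb => le_diam (h ha) (h hb)

lemma diam_union {S T : Finset ℤ} (h : ¬ Disjoint S T) : diam (S ∪ T) ≤ diam S + diam T := by
  obtain ⟨c, hcS, hcT⟩ := not_disjoint_iff.1 h
  refine diam_le fun a ha b hb => ?_
  rcases mem_union.1 ha with ha | ha <;> rcases mem_union.1 hb with hb | hb
  · have := le_diam ha hb
    omega
  · have h1 := le_diam ha hcS
    have h2 := le_diam hcT hb
    omega
  · have h1 := le_diam ha hcT
    have h2 := le_diam hcS hb
    omega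
  · have := le_diam ha hb
    omega

lemma geom_mem_sites {C : Finset (Atom Q)} {p : Q} :
    p ∈ sites e C ↔ ∃ α ∈ C, ∃ t, (p, t) ∈ asupp e α := by
  constructor
  · intro h
    obtain ⟨q, hq, rfl⟩ := mem_image.1 h
    obtain ⟨α, hα, hq⟩ := mem_SS.1 hq
    exact ⟨α, hα, q.2, hq⟩
  · rintro ⟨α, hα, t, ht⟩
    exact mem_image.2 ⟨(p, t), mem_SS.2 ⟨α, hα, ht⟩, rfl⟩

lemma geom_blob_sub {C : Finset (Atom Q)} {X : Finset Q} (h : (.inl X : Atom Q) ∈ C) :
    SS (tri e) X ⊆ sites e C := fun _ hp =>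
  geom_mem_sites.2 ⟨_, h, true, mk_mem_product hp (mem_univ _)⟩

lemma geom_ghost_sub {C : Finset (Atom Q)} {X : Finset Q} (h : (.inr (.inl X) : Atom Q) ∈ C) :
    SS (tri e) X ⊆ sites e C := fun _ hp =>
  geom_mem_sites.2 ⟨_, h, true, mk_mem_product hp (mem_singleton_self _)⟩

lemma geom_bond_mem {C : Finset (Atom Q)} {b : Q × Fin 2} (h : (.inr (.inr b) : Atom Q) ∈ C) :
    b.1 ∈ sites e C ∧ b.1 - e b.2 ∈ sites e C :=
  ⟨geom_mem_sites.2 ⟨_, h, false, mem_insert_self _ _⟩,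
    geom_mem_sites.2 ⟨_, h, false, mem_insert_of_mem (mem_singleton_self _)⟩⟩

lemma geom_tri_local {j : Q'} (h : ∀ k, π (j - e' k) = π j - e k) :
    tri e (π j) = (tri e' j).image π := by
  simp only [tri, image_insert, image_singleton, h]

lemma geom_minus_local {X : Finset Q'} (h : ∀ k, ∀ j ∈ X, π (j - e' k) = π j - e k) :
    SS (tri e) (X.image π) = (SS (tri e') X).image π := by
  unfold SS
  rw [image_biUnion, biUnion_image]
  exact biUnion_congr rfl fun j hj => geom_tri_local fun k => h k j hj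

omit [AddCommGroup Q] [AddCommGroup Q'] [DecidableEq Q'] in
lemma geom_prod_image (S : Finset Q') (T : Finset Bool) :
    S.image π ×ˢ T = (S ×ˢ T).image (Prod.map π id) := by
  rw [prodMap_image_product, image_id]

lemma geom_asupp_local {C : Finset (Atom Q')}
    (hπ : ∀ k, ∀ j ∈ sites e' C, j - e' k ∈ sites e' C → π (j - e' k) = π j - e k)
    {α : Atom Q'} (hα : α ∈ C) :
    asupp e (mapAtom π α) = (asupp e' α).image (Prod.map π id) := by
  rcases α with X | X | b
  · change SS (tri e) (X.image π) ×ˢ univ = (SS (tri e') X ×ˢ univ).image _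
    rw [geom_minus_local fun k j hj => hπ k j (geom_blob_sub hα (subset_minus X hj))
      (geom_blob_sub hα (sub_mem_minus hj k)), geom_prod_image]
  · change SS (tri e) (X.image π) ×ˢ {true} = (SS (tri e') X ×ˢ {true}).image _
    rw [geom_minus_local fun k j hj => hπ k j (geom_ghost_sub hα (subset_minus X hj))
      (geom_ghost_sub hα (sub_mem_minus hj k)), geom_prod_image]
  · change ({(π b.1, false), (π b.1 - e b.2, false)} : Finset (Q × Bool)) =
      ({(b.1, false), (b.1 - e' b.2, false)} : Finset (Q' × Bool)).image _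
    rw [image_insert, image_singleton, Prod.map_apply, Prod.map_apply,
      hπ _ _ (geom_bond_mem hα).1 (geom_bond_mem hα).2]
    rfl

lemma geom_SS_local {C : Finset (Atom Q')}
    (hπ : ∀ k, ∀ j ∈ sites e' C, j - e' k ∈ sites e' C → π (j - e' k) = π j - e k) :
    SS (asupp e) (mapPoly π C) = (SS (asupp e') C).image (Prod.map π id) := by
  unfold SS mapPoly
  rw [image_biUnion, biUnion_image]
  exact biUnion_congr rfl fun α hα => geom_asupp_local hπ hα

lemma geom_conn_local {X : Finset Q'} (hX : Conn (tri e') X)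
    (h : ∀ k, ∀ j ∈ X, π (j - e' k) = π j - e k) : Conn (tri e) (X.image π) := by
  refine hX.image π fun a ha b hb hd => ?_
  rw [geom_tri_local fun k => h k a ha, geom_tri_local fun k => h k b hb]
  obtain ⟨q, h1, h2⟩ := not_disjoint_iff.1 hd
  exact not_disjoint_iff.2 ⟨π q, mem_image_of_mem _ h1, mem_image_of_mem _ h2⟩

lemma asupp_map (hπ : Mor e' e π) (α : Atom Q') :
    asupp e (mapAtom π α) = (asupp e' α).image (Prod.map π id) :=
  geom_asupp_local (C := {α}) (fun k j _ _ => hπ.sub j k) (mem_singleton_self α)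

lemma SS_map (hπ : Mor e' e π) (C : Finset (Atom Q')) :
    SS (asupp e) (mapPoly π C) = (SS (asupp e') C).image (Prod.map π id) :=
  geom_SS_local fun k j _ _ => hπ.sub j k

/-- Maps that respect the directions on the sites of `C` preserve polymers (`Conn.image`). -/
lemma Valid.map_of_local {C : Finset (Atom Q')} (hC : Valid e' C) {π : Q' → Q}
    (hπ : ∀ k, ∀ j ∈ sites e' C, j - e' k ∈ sites e' C → π (j - e' k) = π j - e k) :
    Valid e (mapPoly π C) ∧
      SS (asupp e) (mapPoly π C) = (SS (asupp e') C).image (Prod.map π id) := by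
  refine ⟨⟨hC.1.image _ fun α hα β hβ hd => ?_, fun α hα => ?_⟩, geom_SS_local hπ⟩
  · rw [geom_asupp_local hπ hα, geom_asupp_local hπ hβ]
    obtain ⟨q, h1, h2⟩ := not_disjoint_iff.1 hd
    exact not_disjoint_iff.2 ⟨_, mem_image_of_mem _ h1, mem_image_of_mem _ h2⟩
  · obtain ⟨β, hβ, rfl⟩ := mem_image.1 hα
    have hv := hC.2 β hβ
    rcases β with X | X | b
    · exact geom_conn_local (X := X) hv fun k j hj => hπ k j
        (geom_blob_sub hβ (subset_minus X hj)) (geom_blob_sub hβ (sub_mem_minus hj k))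
    · exact geom_conn_local (X := X) hv fun k j hj => hπ k j
        (geom_ghost_sub hβ (subset_minus X hj)) (geom_ghost_sub hβ (sub_mem_minus hj k))
    · trivial

lemma Valid.map (hπ : Mor e' e π) {C : Finset (Atom Q')} (hC : Valid e' C) :
    Valid e (mapPoly π C) :=
  (hC.map_of_local fun k j _ _ => hπ.sub j k).1

lemma mapPoly_comp {Q'' : Type*} [DecidableEq Q''] (f : Q'' → Q') (g : Q' → Q)
    (C : Finset (Atom Q'')) : mapPoly g (mapPoly f C) = mapPoly (g ∘ f) C := by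
  unfold mapPoly
  rw [image_image]
  refine image_congr fun α _ => ?_
  rcases α with X | X | b
  · exact congrArg Sum.inl image_image
  · exact congrArg (fun X => Sum.inr (Sum.inl X)) image_image
  · rfl

lemma mapPoly_congr {f g : Q' → Q} {C : Finset (Atom Q')} (h : ∀ j ∈ sites e' C, f j = g j) :
    mapPoly f C = mapPoly g C := by
  refine image_congr fun α hα => ?_
  have hα : α ∈ C := hα
  rcases α with X | X | b
  · exact congrArg Sum.inl (image_congr fun j hj => h j (geom_blob_sub hα (subset_minus X hj)))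
  · exact congrArg (fun X => Sum.inr (Sum.inl X))
      (image_congr fun j hj => h j (geom_ghost_sub hα (subset_minus X hj)))
  · exact congrArg (fun p => Sum.inr (Sum.inr (p, b.2))) (h _ (geom_bond_mem hα).1)

lemma mapPoly_id (C : Finset (Atom Q)) : mapPoly id C = C := by
  refine (image_congr fun α _ => ?_).trans (image_id (s := C))
  rcases α with X | X | b
  · exact congrArg Sum.inl image_id
  · exact congrArg (fun X => Sum.inr (Sum.inl X)) image_id
  · rfl

omit [AddCommGroup Q] [AddCommGroup Q'] [DecidableEq Q'] in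
lemma geom_toLeft (C : Finset (Atom Q')) : (mapPoly π C).toLeft = C.toLeft.image (image π) := by
  ext X
  simp only [mem_toLeft, mapPoly, mem_image]
  constructor
  · rintro ⟨α, hα, h⟩
    rcases α with Y | Y | b
    · exact ⟨Y, hα, Sum.inl.inj h⟩
    · cases h
    · cases h
  · rintro ⟨Y, hY, rfl⟩
    exact ⟨_, hY, rfl⟩

omit [AddCommGroup Q] [AddCommGroup Q'] [DecidableEq Q'] in
lemma geom_toGhost (C : Finset (Atom Q')) :
    (mapPoly π C).toRight.toLeft = C.toRight.toLeft.image (image π) := by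
  ext X
  simp only [mem_toLeft, mem_toRight, mapPoly, mem_image]
  constructor
  · rintro ⟨α, hα, h⟩
    rcases α with Y | Y | b
    · cases h
    · exact ⟨Y, hα, Sum.inl.inj (Sum.inr.inj h)⟩
    · cases h
  · rintro ⟨Y, hY, rfl⟩
    exact ⟨_, hY, rfl⟩

omit [AddCommGroup Q] [AddCommGroup Q'] [DecidableEq Q'] in
lemma geom_toBond (C : Finset (Atom Q')) :
    (mapPoly π C).toRight.toRight = C.toRight.toRight.image (Prod.map π id) := by
  ext X
  simp only [mem_toRight, mapPoly, mem_image]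
  constructor
  · rintro ⟨α, hα, h⟩
    rcases α with Y | Y | b
    · cases h
    · cases h
    · exact ⟨b, hα, Sum.inr.inj (Sum.inr.inj h)⟩
  · rintro ⟨Y, hY, rfl⟩
    exact ⟨_, hY, rfl⟩

omit [AddCommGroup Q] [AddCommGroup Q'] [DecidableEq Q'] in
lemma geom_mem_image {A X : Finset Q'} (hinj : Set.InjOn π A) (hX : X ⊆ A) {p : Q'}
    (hp : p ∈ A) : π p ∈ X.image π ↔ p ∈ X := by
  refine ⟨fun h => ?_, mem_image_of_mem π⟩
  obtain ⟨q, hq, h⟩ := mem_image.1 h
  exact hinj (hX hq) hp h ▸ hq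

omit [AddCommGroup Q] [AddCommGroup Q'] [DecidableEq Q'] in
lemma geom_image_inj {A X Y : Finset Q'} (hinj : Set.InjOn π A) (hX : X ⊆ A) (hY : Y ⊆ A)
    (h : X.image π = Y.image π) : X = Y := by
  ext p
  exact ⟨fun hp => (geom_mem_image hinj hY (hX hp)).1 (h ▸ mem_image_of_mem π hp),
    fun hp => (geom_mem_image hinj hX (hY hp)).1 (h ▸ mem_image_of_mem π hp)⟩

lemma geom_disj (hπ : Mor e' e π) {A X Y : Finset Q'} (hinj : Set.InjOn π A)
    (hX : SS (tri e') X ⊆ A) (hY : SS (tri e') Y ⊆ A) :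
    Disjoint (SS (tri e) (X.image π)) (SS (tri e) (Y.image π)) ↔
      Disjoint (SS (tri e') X) (SS (tri e') Y) := by
  rw [minus_image hπ, minus_image hπ, disjoint_left, disjoint_left]
  constructor
  · intro h p hp hq
    exact h (mem_image_of_mem π hp) (mem_image_of_mem π hq)
  · intro h p hp hq
    obtain ⟨q, hq1, rfl⟩ := mem_image.1 hp
    exact h hq1 ((geom_mem_image hinj hY (hX hq1)).1 hq)

lemma geom_compat (hπ : Mor e' e π) {A : Finset Q'} (hinj : Set.InjOn π A)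
    {F : Finset (Finset Q')} (hF : ∀ X ∈ F, SS (tri e') X ⊆ A) :
    Compat (SS (tri e)) (F.image (image π)) ↔ Compat (SS (tri e')) F := by
  unfold Compat
  simp only [forall_mem_image]
  refine forall₂_congr fun X hX => forall₂_congr fun Y hY => ?_
  rw [geom_disj hπ hinj (hF X hX) (hF Y hY)]
  refine imp_congr_left (not_congr ⟨fun h => ?_, fun h => h ▸ rfl⟩)
  exact geom_image_inj hinj ((subset_minus X).trans (hF X hX)) ((subset_minus Y).trans (hF Y hY)) h

omit [AddCommGroup Q] [AddCommGroup Q'] [DecidableEq Q'] in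
lemma geom_filter_image {D : Finset (Q' × Fin 2)} (p : Q × Fin 2 → Prop) [DecidablePred p]
    (p' : Q' × Fin 2 → Prop) [DecidablePred p'] (h : ∀ b ∈ D, p (π b.1, b.2) ↔ p' b) :
    (D.image (Prod.map π id)).filter p = (D.filter p').image (Prod.map π id) := by
  ext b
  simp only [mem_filter, mem_image]
  constructor
  · rintro ⟨⟨a, ha, rfl⟩, hp⟩
    exact ⟨a, ⟨ha, (h a ha).1 hp⟩, rfl⟩
  · rintro ⟨a, ⟨ha, hp⟩, rfl⟩
    exact ⟨⟨a, ha, rfl⟩, (h a ha).2 hp⟩

omit [AddCommGroup Q] [AddCommGroup Q'] [DecidableEq Q'] in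
lemma geom_filter_card {A : Finset Q'} (hinj : Set.InjOn π A) {D : Finset (Q' × Fin 2)}
    (hD : ∀ b ∈ D, b.1 ∈ A) (p : Q × Fin 2 → Prop) [DecidablePred p]
    (p' : Q' × Fin 2 → Prop) [DecidablePred p'] (h : ∀ b ∈ D, p (π b.1, b.2) ↔ p' b) :
    ((D.image (Prod.map π id)).filter p).card = (D.filter p').card := by
  rw [geom_filter_image p p' h]
  refine card_image_of_injOn fun a ha b hb hab => ?_
  have h1 := hinj (hD a (mem_filter.1 ha).1) (hD b (mem_filter.1 hb).1) (congrArg Prod.fst hab)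
  exact Prod.ext h1 (congrArg (fun q : Q × Fin 2 => q.2) hab)

lemma geom_bal (hπ : Mor e' e π) {A : Finset Q'} (hinj : Set.InjOn π A)
    {D : Finset (Q' × Fin 2)} (hD : ∀ b ∈ D, b.1 ∈ A ∧ b.1 - e' b.2 ∈ A) :
    Bal e (D.image (Prod.map π id)) ↔ Bal e' D := by
  have key : ∀ v ∈ A,
      ((D.image (Prod.map π id)).filter fun b => b.1 = π v).card +
        ((D.image (Prod.map π id)).filter fun b => b.1 - e b.2 = π v).card =
      (D.filter fun b => b.1 = v).card + (D.filter fun b => b.1 - e' b.2 = v).card := by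
    intro v hv
    rw [geom_filter_card hinj (fun b hb => (hD b hb).1) _ (fun b => b.1 = v)
        fun b hb => hinj.eq_iff (hD b hb).1 hv,
      geom_filter_card hinj (fun b hb => (hD b hb).1) _ (fun b => b.1 - e' b.2 = v)
        fun b hb => ?_]
    rw [← hinj.eq_iff (hD b hb).2 hv, hπ.sub]
  constructor
  · intro h v
    by_cases hv : v ∈ A
    · exact key v hv ▸ h (π v)
    · rw [filter_eq_empty_iff.2 fun b hb (h : b.1 = v) => hv (h ▸ (hD b hb).1),
        filter_eq_empty_iff.2 fun b hb (h : b.1 - e' b.2 = v) => hv (h ▸ (hD b hb).2)]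
      exact ⟨0, rfl⟩
  · intro h v
    by_cases hv : v ∈ A.image π
    · obtain ⟨w, hw, rfl⟩ := mem_image.1 hv
      exact (key w hw).symm ▸ h w
    · have h1 : ∀ b ∈ D.image (Prod.map π id), b.1 ≠ v ∧ b.1 - e b.2 ≠ v := by
        intro b hb
        obtain ⟨a, ha, rfl⟩ := mem_image.1 hb
        refine ⟨fun h => hv (h ▸ mem_image_of_mem π (hD a ha).1), fun h => hv (h ▸ ?_)⟩
        have := mem_image_of_mem π (hD a ha).2
        rwa [hπ.sub] at this
      rw [filter_eq_empty_iff.2 fun b hb => (h1 b hb).1,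
        filter_eq_empty_iff.2 fun b hb => (h1 b hb).2]
      exact ⟨0, rfl⟩

lemma geom_subset_fat (X : Finset Q) : X ⊆ fat e X := fun j hj =>
  mem_biUnion.2 ⟨j, hj, mem_insert_self _ _⟩

lemma geom_fat_mono {X Y : Finset Q} (h : X ⊆ Y) : fat e X ⊆ fat e Y :=
  biUnion_subset_biUnion_of_subset_left _ h

/-- `mapAtom π` is injective on `C`; blobs, ghosts and bonds of `mapPoly π C` are the images of
those of `C`; use `qc_map`, `minus_image`. -/
theorem wt_map (hπ : Mor e' e π) {C : Finset (Atom Q')}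
    (hinj : Set.InjOn π (fat e' (sites e' C))) (x θ : ℝ) :
    wt P e x θ Set.univ (mapPoly π C) = wt P e' x θ Set.univ C := by
  classical
  have hA : Set.InjOn π (sites e' C) := hinj.mono (geom_subset_fat _)
  have hL : ∀ X ∈ C.toLeft, SS (tri e') X ⊆ sites e' C := fun X hX =>
    geom_blob_sub (mem_toLeft.1 hX)
  have hG : ∀ X ∈ C.toRight.toLeft, SS (tri e') X ⊆ sites e' C := fun X hX =>
    geom_ghost_sub (mem_toRight.1 (mem_toLeft.1 hX))
  have hB : ∀ b ∈ C.toRight.toRight, b.1 ∈ sites e' C ∧ b.1 - e' b.2 ∈ sites e' C := fun b hb =>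
    geom_bond_mem (mem_toRight.1 (mem_toRight.1 hb))
  have hL' : ∀ X ∈ C.toLeft, X ⊆ sites e' C := fun X hX => (subset_minus X).trans (hL X hX)
  have hG' : ∀ X ∈ C.toRight.toLeft, X ⊆ sites e' C := fun X hX =>
    (subset_minus X).trans (hG X hX)
  unfold wt
  rw [geom_toLeft, geom_toGhost, geom_toBond]
  refine if_congr (and_congr (geom_compat hπ hA hL) (and_congr (geom_compat hπ hA hG)
    (and_congr ?_ (geom_bal hπ hA hB)))) ?_ rfl
  · simp only [forall_mem_image]
    exact forall₂_congr fun X hX => forall₂_congr fun Y hY => geom_disj hπ hA (hL X hX) (hG Y hY)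
  · rw [prod_image fun X hX Y hY h => geom_image_inj hA (hL' X hX) (hL' Y hY) h,
      prod_image fun X hX Y hY h => geom_image_inj hA (hG' X hX) (hG' Y hY) h]
    refine congrArg₂ (· * ·) (congrArg₂ (· * ·) (prod_congr rfl fun X hX => ?_)
      (prod_congr rfl fun X hX => ?_)) (congrArg (P.t ^ ·) ?_)
    · rw [geom_filter_image _ (fun b => b.1 ∈ X)
        fun b hb => geom_mem_image hA (hL' X hX) (hB b hb).1]
      exact qc_map hπ (hinj.mono (geom_fat_mono (hL' X hX))) x θ fun b hb => (mem_filter.1 hb).2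
    · rw [card_image_of_injOn (hA.mono (hG' X hX))]
    · refine geom_filter_card hA (fun b hb => (hB b hb).1) _ _ fun b hb => ?_
      simp only [forall_mem_image]
      exact forall₂_congr fun X hX => not_congr (geom_mem_image hA (hL' X hX) (hB b hb).1)

lemma wt_window {Λ : Set Q} {C : Finset (Atom Q)}
    (h : ∀ y ∈ sites e C, ∀ p ∈ star e y, p ∈ Λ) (x θ : ℝ) :
    wt P e x θ Λ C = wt P e x θ Set.univ C := by
  classical
  unfold wt
  refine if_congr Iff.rfl ?_ rfl
  refine congrArg₂ (· * ·) (congrArg₂ (· * ·) (prod_congr rfl fun X hX => ?_) rfl) rfl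
  have hc : Core e Λ X = Core e Set.univ X := by
    ext y
    simp only [Core, mem_filter]
    refine and_congr_right fun hy => forall₂_congr fun p hp => ?_
    have := h y (geom_blob_sub (mem_toLeft.1 hX) (subset_minus X hy)) p hp
    exact ⟨fun h1 _ => h1 this, fun h1 _ => h1 (Set.mem_univ p)⟩
  unfold qc
  rw [hc]

lemma mem_polys {A : Finset Q} {C : Finset (Atom Q)} :
    C ∈ polys e A ↔ Valid e C ∧ sites e C ⊆ A := by
  unfold polys above
  rw [mem_filter, mem_conns]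
  constructor
  · rintro ⟨⟨h1, h2⟩, h3⟩
    exact ⟨⟨h2, fun α hα => mem_atoms (h1 hα)⟩, image_subset_iff.2 h3⟩
  · rintro ⟨⟨h1, h2⟩, h3⟩
    refine ⟨⟨fun α hα => ?_, h1⟩, image_subset_iff.1 h3⟩
    have hv := h2 α hα
    unfold atoms
    rcases α with X | X | b
    · exact inl_mem_disjSum.2
        (mem_conns.2 ⟨(subset_minus X).trans ((geom_blob_sub hα).trans h3), hv⟩)
    · exact inr_mem_disjSum.2 (inl_mem_disjSum.2
        (mem_conns.2 ⟨(subset_minus X).trans ((geom_ghost_sub hα).trans h3), hv⟩))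
    · exact inr_mem_disjSum.2 (inr_mem_disjSum.2
        (mem_product.2 ⟨h3 (geom_bond_mem hα).1, mem_univ _⟩))

lemma valid_of_mem_conns {Λ : Finset Q} {C : Finset (Atom Q)}
    (h : C ∈ conns (asupp e) (atoms e Λ)) : Valid e C ∧ sites e C ⊆ SS (tri e) Λ := by
  obtain ⟨h1, h2⟩ := mem_conns.1 h
  refine ⟨⟨h2, fun α hα => mem_atoms (h1 hα)⟩, fun p hp => ?_⟩
  obtain ⟨α, hα, t, ht⟩ := geom_mem_sites.1 hp
  have hm := h1 hα
  unfold atoms at hm
  rcases α with X | X | b
  · exact biUnion_subset_biUnion_of_subset_left _ (mem_conns.1 (inl_mem_disjSum.1 hm)).1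
      (mem_product.1 ht).1
  · exact biUnion_subset_biUnion_of_subset_left _
      (mem_conns.1 (inl_mem_disjSum.1 (inr_mem_disjSum.1 hm))).1 (mem_product.1 ht).1
  · have hb := (mem_product.1 (inr_mem_disjSum.1 (inr_mem_disjSum.1 hm))).1
    rcases mem_insert.1 ht with h | h
    · exact (Prod.mk.inj h).1 ▸ subset_minus Λ hb
    · exact (Prod.mk.inj (mem_singleton.1 h)).1 ▸ sub_mem_minus hb _

lemma Valid.nonempty {C : Finset (Atom Q)} (hC : Valid e C) : (SS (asupp e) C).Nonempty := by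
  obtain ⟨α, hα⟩ := hC.1.1
  obtain ⟨q, hq⟩ := asupp_nonempty (hC.2 α hα)
  exact ⟨q, mem_SS.2 ⟨α, hα, hq⟩⟩

end Pool.Agent.MP_646035_al.H91

end

-- part MP_646035_al.H91.Summ
section

/-!
Signs and summability of the polymer weights.
-/

namespace Pool.Agent.MP_646035_al.H91

open Finset

variable {Q : Type*} [AddCommGroup Q] [DecidableEq Q] {P : Par} {e : Fin 2 → Q}

lemma t_pos (P : Par) : 0 < P.t := by
  unfold Par.t
  positivity

lemma t_le_one (P : Par) : P.t ≤ 1 := by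
  unfold Par.t
  rw [div_le_one (by positivity)]
  have : (0 : ℝ) ≤ P.h := by positivity
  linarith

lemma qc_bounds {x θ : ℝ} (hR : RB P e x θ) (hθ : 0 ≤ θ) (Λ : Set Q) {X : Finset Q}
    {D : Finset (Q × Fin 2)} (hD : ∀ b ∈ D, b.1 ∈ X) :
    0 ≤ qc P e x θ Λ X D ∧ qc P e x θ Λ X D ≤ 2 * θ ^ X.card * P.t ^ D.card := by
  classical
  have h1 : D.card ≤ 2 * X.card := by
    have : D ⊆ X ×ˢ univ := fun b hb => mem_product.2 ⟨hD b hb, mem_univ _⟩
    simpa [mul_comm] using card_le_card this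
  have h2 := hR X (Core e Λ X) (filter_subset _ _) D
  rw [mul_pow, ← pow_mul] at h2
  have h3 : θ ^ X.card * P.t ^ (2 * X.card) ≤ θ ^ X.card * P.t ^ D.card :=
    mul_le_mul_of_nonneg_left (pow_le_pow_of_le_one (t_pos P).le (t_le_one P) h1)
      (pow_nonneg hθ _)
  obtain ⟨h4, h5⟩ := abs_le.mp (h2.trans h3)
  unfold qc
  constructor <;> linarith

/-- The bound for the weight of one atom. -/
noncomputable def aw (P : Par) (θ : ℝ) : Atom Q → ℝ
  | .inl X => (2 * θ) ^ X.card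
  | .inr (.inl X) => (2 * θ) ^ X.card
  | .inr (.inr _) => P.t

omit [AddCommGroup Q] [DecidableEq Q] in
lemma summ_aw_nonneg {θ : ℝ} (hθ : 0 ≤ θ) (α : Atom Q) : 0 ≤ aw P θ α := by
  rcases α with X | X | b
  · exact pow_nonneg (by linarith) _
  · exact pow_nonneg (by linarith) _
  · exact (t_pos P).le

lemma abs_wt_le {x θ : ℝ} (hR : RB P e x θ) (hθ : 0 ≤ θ) (Λ : Set Q) {C : Finset (Atom Q)}
    (hC : ∀ α ∈ C, ValidAtom e α) : |wt P e x θ Λ C| ≤ ∏ α ∈ C, aw P θ α := by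
  classical
  have ht := (t_pos P).le
  unfold wt
  split_ifs with h
  swap
  · rw [abs_zero]
    exact prod_nonneg fun α _ => summ_aw_nonneg hθ α
  rw [prod_sum_eq_prod_toLeft_mul_prod_toRight, prod_sum_eq_prod_toLeft_mul_prod_toRight]
  simp only [aw, prod_const]
  set D := C.toRight.toRight
  have h1 : |∏ X ∈ C.toLeft, qc P e x θ Λ X (D.filter fun b => b.1 ∈ X)| ≤
      (∏ X ∈ C.toLeft, (2 * θ) ^ X.card) *
        P.t ^ ∑ X ∈ C.toLeft, (D.filter fun b => b.1 ∈ X).card := by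
    rw [← prod_pow_eq_pow_sum, ← prod_mul_distrib, abs_prod]
    refine prod_le_prod (fun _ _ => abs_nonneg _) fun X hX => ?_
    obtain ⟨p, q⟩ := qc_bounds hR hθ Λ (X := X) (D := D.filter fun b => b.1 ∈ X)
      fun b hb => (mem_filter.mp hb).2
    rw [abs_of_nonneg p, mul_pow]
    refine q.trans ?_
    have hne : X.card ≠ 0 := (card_pos.mpr (hC _ (mem_toLeft.mp hX)).1).ne'
    gcongr
    exact le_self_pow₀ one_le_two hne
  have h2 : |∏ X ∈ C.toRight.toLeft, -θ ^ X.card| ≤ ∏ X ∈ C.toRight.toLeft, (2 * θ) ^ X.card := by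
    rw [abs_prod]
    refine prod_le_prod (fun _ _ => abs_nonneg _) fun X _ => ?_
    rw [abs_neg, abs_of_nonneg (pow_nonneg hθ _)]
    gcongr
    linarith
  have h3 : D.card ≤ (∑ X ∈ C.toLeft, (D.filter fun b => b.1 ∈ X).card) +
      (D.filter fun b => ∀ X ∈ C.toLeft, b.1 ∉ X).card := by
    refine le_trans (card_le_card ?_) ((card_union_le _ _).trans
      (Nat.add_le_add_right card_biUnion_le _))
    intro b hb
    by_cases hh : ∀ X ∈ C.toLeft, b.1 ∉ X
    · exact mem_union_right _ (mem_filter.mpr ⟨hb, hh⟩)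
    · push Not at hh
      obtain ⟨X, hX, hbX⟩ := hh
      exact mem_union_left _ (mem_biUnion.mpr ⟨X, hX, mem_filter.mpr ⟨hb, hbX⟩⟩)
  have h4 := pow_le_pow_of_le_one ht (t_le_one P) h3
  rw [pow_add] at h4
  have p1 : 0 ≤ ∏ X ∈ C.toLeft, (2 * θ) ^ X.card := prod_nonneg fun _ _ => by positivity
  have p2 : 0 ≤ ∏ X ∈ C.toRight.toLeft, (2 * θ) ^ X.card := prod_nonneg fun _ _ => by positivity
  rw [abs_mul, abs_mul, abs_of_nonneg (pow_nonneg ht _)]
  refine (mul_le_mul_of_nonneg_right (mul_le_mul h1 h2 (abs_nonneg _) (by positivity))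
    (pow_nonneg ht _)).trans ?_
  have := mul_le_mul_of_nonneg_left h4 (mul_nonneg p1 p2)
  linarith

lemma ghost_of_neg {x θ : ℝ} (hR : RB P e x θ) (hθ : 0 ≤ θ) (Λ : Set Q) {C : Finset (Atom Q)}
    (hC : Valid e C) (hneg : wt P e x θ Λ C < 0) : ∃ X, C = {Sum.inr (Sum.inl X)} := by
  classical
  unfold wt at hneg
  split_ifs at hneg with h
  swap
  · exact absurd hneg (lt_irrefl 0)
  obtain ⟨-, h2, h3, -⟩ := h
  rcases C.toRight.toLeft.eq_empty_or_nonempty with h0 | ⟨X, hX⟩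
  · rw [h0, prod_empty, mul_one] at hneg
    refine absurd hneg (not_lt.mpr (mul_nonneg (prod_nonneg fun X _ => ?_)
      (pow_nonneg (t_pos P).le _)))
    exact (qc_bounds hR hθ Λ fun b hb => (mem_filter.mp hb).2).1
  have hX' : Sum.inr (Sum.inl X) ∈ C := mem_toRight.mp (mem_toLeft.mp hX)
  refine ⟨X, eq_singleton_iff_unique_mem.mpr ⟨hX', ?_⟩⟩
  refine hC.1.induction (fun α => α = Sum.inr (Sum.inl X)) hX' rfl ?_
  rintro _ - β hβ rfl hd
  obtain ⟨q, q1, q2⟩ := not_disjoint_iff.mp hd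
  obtain ⟨q3, q4⟩ := mem_product.mp q1
  rcases β with X' | X' | b
  · exact absurd q3 (disjoint_left.mp (h3 X' (mem_toLeft.mpr hβ) X hX) (mem_product.mp q2).1)
  · by_contra hne
    exact disjoint_left.mp (h2 X' (mem_toLeft.mpr (mem_toRight.mpr hβ)) X hX
      fun h => hne (by rw [h])) (mem_product.mp q2).1 q3
  · rw [mem_singleton] at q4
    simp only [asupp, mem_insert, mem_singleton] at q2
    rcases q2 with rfl | rfl <;> simp at q4

lemma summ_exp (n : ℕ) : Real.exp n ≤ 3 ^ n := by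
  rw [← Real.exp_one_pow]
  exact pow_le_pow_left₀ (Real.exp_pos 1).le (by linarith [Real.exp_one_lt_d9]) n

lemma summ_few {ι : Type*} {S T : Finset ι} {f : ι → ℝ} {c : ℝ} {k : ℕ} (hc : 0 ≤ c)
    (hS : S ⊆ T) (hT : T.card ≤ k) (hf : ∀ i ∈ S, f i ≤ c) : ∑ i ∈ S, f i ≤ k * c := by
  refine (sum_le_card_nsmul S f c hf).trans ?_
  rw [nsmul_eq_mul]
  exact mul_le_mul_of_nonneg_right (Nat.cast_le.mpr ((card_le_card hS).trans hT)) hc

lemma summ_sites {ρ : ℝ} (h0 : 0 ≤ ρ) (h1 : ρ ≤ 1 / 8100) (𝒳 : Finset (Finset Q))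
    (h𝒳 : ∀ X ∈ 𝒳, Conn (tri e) X) (v : Q) :
    ∑ X ∈ 𝒳 with v ∈ SS (tri e) X, ρ ^ X.card ≤ 1 / 100 := by
  have h := tree_bound_pt (supp := tri e) (𝒳.biUnion id) (fun _ => ρ) (fun _ _ => h0)
    (s := 1 / 100) (by norm_num) (fun q => ?_) v
  · simp only [prod_const] at h
    refine le_trans (sum_le_sum_of_subset_of_nonneg (filter_subset_filter _ fun X hX => ?_)
      fun _ _ _ => pow_nonneg h0 _) h
    exact mem_conns.mpr ⟨subset_biUnion_of_mem id hX, h𝒳 X hX⟩
  · refine (summ_few (T := {q, q + e 0, q + e 1}) (c := ρ * 27) (k := 3) (by positivity)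
      (fun j hj => ?_) card_le_three fun j _ => ?_).trans (by push_cast; linarith)
    · have := (mem_filter.mp hj).2
      simp only [tri, mem_insert, mem_singleton] at this ⊢
      rcases this with rfl | rfl | rfl <;> simp
    · refine mul_le_mul_of_nonneg_left ((summ_exp _).trans ?_) h0
      exact (pow_le_pow_right₀ (by norm_num) (card_le_three : (tri e j).card ≤ 3)).trans
        (by norm_num)

lemma summ_blob {θ Y : ℝ} (hθ : 0 ≤ θ) (hY : 1 ≤ Y) (X : Finset Q) {n : ℕ}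
    (hn : n ≤ (SS (tri e) X).card * 2) :
    (2 * θ) ^ X.card * Real.exp (2 * n) * Y ^ (12 * X.card) * Real.exp n ≤
      (2 * 3 ^ 18 * (θ * Y ^ 12)) ^ X.card := by
  have h1 : (SS (tri e) X).card ≤ X.card * 3 :=
    card_biUnion_le_card_mul _ _ _ fun j _ => card_le_three
  have h2 : Real.exp (2 * n) * Real.exp n ≤ (3 ^ 18) ^ X.card := by
    rw [← Real.exp_add, ← pow_mul, show 2 * (n : ℝ) + n = (3 * n : ℕ) by push_cast; ring]
    exact (summ_exp _).trans (pow_le_pow_right₀ (by norm_num) (by omega))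
  have h3 : 0 ≤ (2 * θ) ^ X.card * Y ^ (12 * X.card) := by positivity
  calc _ = (2 * θ) ^ X.card * Y ^ (12 * X.card) * (Real.exp (2 * n) * Real.exp n) := by ring
    _ ≤ (2 * θ) ^ X.card * Y ^ (12 * X.card) * (3 ^ 18) ^ X.card :=
      mul_le_mul_of_nonneg_left h2 h3
    _ = _ := by
      rw [pow_mul, ← mul_pow, ← mul_pow]
      congr 1
      ring

lemma summ_atoms {θ Y : ℝ} (hθ : 0 ≤ θ) (hY : 1 ≤ Y) (htY : P.t * Y ≤ 1 / 100000)
    (hθY : θ * Y ^ 12 ≤ 1 / 10 ^ 13) (𝒜 : Finset (Atom Q)) (h𝒜 : ∀ α ∈ 𝒜, ValidAtom e α)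
    (q : Q × Bool) : ∑ β ∈ 𝒜 with q ∈ asupp e β,
      aw P θ β * Real.exp (2 * (asupp e β).card) * Y ^ asz β * Real.exp (asupp e β).card
        ≤ 1 / 6 := by
  have h0 : 0 ≤ 2 * 3 ^ 18 * (θ * Y ^ 12) := by positivity
  have h1 : 2 * 3 ^ 18 * (θ * Y ^ 12) ≤ 1 / 8100 := by linarith
  set S := 𝒜.filter fun β => q ∈ asupp e β with hS
  have key : ∀ (𝒳 : Finset (Finset Q)) (f : Finset Q → ℝ),
      (∀ X ∈ 𝒳, Conn (tri e) X ∧ q.1 ∈ SS (tri e) X) →
      (∀ X ∈ 𝒳, f X ≤ (2 * 3 ^ 18 * (θ * Y ^ 12)) ^ X.card) → ∑ X ∈ 𝒳, f X ≤ 1 / 100 := by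
    intro 𝒳 f a b
    have := summ_sites h0 h1 𝒳 (fun X hX => (a X hX).1) q.1
    rw [filter_true_of_mem fun X hX => (a X hX).2] at this
    exact (sum_le_sum b).trans this
  rw [sum_sum_eq_sum_toLeft_add_sum_toRight, sum_sum_eq_sum_toLeft_add_sum_toRight]
  refine (add_le_add (key _ _ (fun X hX => ?_) fun X _ => ?_) (add_le_add
    (key _ _ (fun X hX => ?_) fun X _ => ?_) (summ_few (c := P.t * Y * 3 ^ 6) (k := 4)
      (T := {(q.1, 0), (q.1, 1), (q.1 + e 0, 0), (q.1 + e 1, 1)})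
      (by have := t_pos P; positivity) (fun b hb => ?_) card_le_four fun b _ => ?_))).trans
    (by push_cast; linarith)
  · obtain ⟨a, b⟩ := mem_filter.mp (mem_toLeft.mp hX)
    exact ⟨h𝒜 _ a, (mem_product.mp b).1⟩
  · exact summ_blob (e := e) hθ hY X (by simp [asupp])
  · obtain ⟨a, b⟩ := mem_filter.mp (mem_toRight.mp (mem_toLeft.mp hX))
    exact ⟨h𝒜 _ a, (mem_product.mp b).1⟩
  · exact summ_blob (e := e) hθ hY X (by simp [asupp]; omega)
  · obtain ⟨j, k⟩ := b
    have := (mem_filter.mp (mem_toRight.mp (mem_toRight.mp hb))).2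
    simp only [asupp, mem_insert, mem_singleton] at this
    rcases this with rfl | rfl <;> fin_cases k <;> simp
  · have hc : (asupp e (.inr (.inr b))).card ≤ 2 := card_le_two
    generalize (asupp e (.inr (.inr b))).card = n at hc
    have h2 : Real.exp (2 * n) * Real.exp n ≤ 3 ^ 6 := by
      rw [← Real.exp_add, show 2 * (n : ℝ) + n = (3 * n : ℕ) by push_cast; ring]
      exact (summ_exp _).trans (pow_le_pow_right₀ (by norm_num) (by omega))
    have h3 : 0 ≤ P.t * Y := by have := t_pos P; positivity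
    have := mul_le_mul_of_nonneg_left h2 h3
    simp only [aw, asz, pow_one]
    linarith

theorem sum_wt_le {x θ Y : ℝ} (hR : RB P e x θ) (hθ : 0 ≤ θ) (hY : 1 ≤ Y)
    (htY : P.t * Y ≤ 1 / 100000) (hθY : θ * Y ^ 12 ≤ 1 / 10 ^ 13) (Λ : Set Q)
    (N : Finset (Finset (Atom Q))) (hN : ∀ C ∈ N, Valid e C) (q : Q × Bool) :
    ∑ C ∈ N with q ∈ SS (asupp e) C,
      |wt P e x θ Λ C| * Real.exp (2 * (SS (asupp e) C).card) * Y ^ (∑ α ∈ C, asz α)
        ≤ 1 / 6 := by
  have hω : ∀ α : Atom Q, 0 ≤ aw P θ α * Real.exp (2 * (asupp e α).card) * Y ^ asz α :=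
    fun α => by have := summ_aw_nonneg (P := P) hθ α; positivity
  have h := tree_bound_pt (supp := asupp e) (N.biUnion id)
    (fun α => aw P θ α * Real.exp (2 * (asupp e α).card) * Y ^ asz α) (fun α _ => hω α)
    (s := 1 / 6) (by norm_num) (summ_atoms hθ hY htY hθY _ fun α hα => by
      obtain ⟨C, hC, hα⟩ := mem_biUnion.mp hα
      exact (hN C hC).2 α hα) q
  refine le_trans (sum_le_sum fun C hC => ?_) (le_trans (sum_le_sum_of_subset_of_nonneg
    (filter_subset_filter _ fun C hC => ?_) fun _ _ _ => prod_nonneg fun α _ => hω α) h)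
  · rw [prod_mul_distrib, prod_mul_distrib, prod_pow_eq_pow_sum, ← Real.exp_sum, ← mul_sum]
    have h1 := abs_wt_le hR hθ Λ (hN C (mem_filter.mp hC).1).2
    have h2 : ((SS (asupp e) C).card : ℝ) ≤ ∑ α ∈ C, ((asupp e α).card : ℝ) := by
      exact_mod_cast (card_biUnion_le : (SS (asupp e) C).card ≤ _)
    have h3 := (abs_nonneg _).trans h1
    gcongr
  · exact mem_conns.mpr ⟨subset_biUnion_of_mem id hC, (hN C hC).1⟩

lemma kp_of_valid {x θ Y : ℝ} (hR : RB P e x θ) (hθ : 0 ≤ θ) (hY : 1 ≤ Y)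
    (htY : P.t * Y ≤ 1 / 100000) (hθY : θ * Y ^ 12 ≤ 1 / 10 ^ 13) (Λ : Set Q)
    (N : Finset (Finset (Atom Q))) (hN : ∀ C ∈ N, Valid e C) :
    KP (SS (asupp e)) (wt P e x θ Λ) N := by
  refine ⟨fun C hC => (hN C hC).nonempty, fun q => le_trans (sum_le_sum fun C _ => ?_)
    ((sum_wt_le hR hθ hY htY hθY Λ N hN q).trans (by norm_num))⟩
  refine le_trans ?_ (le_mul_of_one_le_right (by positivity) (one_le_pow₀ hY))
  have : (0 : ℝ) ≤ (SS (asupp e) C).card := by positivity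
  gcongr
  linarith

end Pool.Agent.MP_646035_al.H91

end

-- part MP_646035_al.H91.GeomCut
section

/-!
The extent of a polymer.
-/

namespace Pool.Agent.MP_646035_al.H91

open Finset

variable {Q : Type*} [AddCommGroup Q] [DecidableEq Q] {e : Fin 2 → Q}

lemma geomcut_mem_sites {C : Finset (Atom Q)} {j : Q} :
    j ∈ sites e C ↔ ∃ α ∈ C, ∃ q ∈ asupp e α, q.1 = j := by
  simp only [sites, mem_image, mem_SS]
  exact ⟨fun ⟨q, ⟨α, h1, h2⟩, h3⟩ => ⟨α, h1, q, h2, h3⟩,
    fun ⟨α, h1, q, h2, h3⟩ => ⟨q, ⟨α, h1, h2⟩, h3⟩⟩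

lemma geomcut_blob_sites {C : Finset (Atom Q)} {X : Finset Q}
    (hX : Sum.inl X ∈ C ∨ Sum.inr (Sum.inl X) ∈ C) {q : Q} (hq : q ∈ SS (tri e) X) :
    q ∈ sites e C := by
  rcases hX with h | h
  · exact geomcut_mem_sites.2 ⟨_, h, (q, true), mem_product.2 ⟨hq, mem_univ _⟩, rfl⟩
  · exact geomcut_mem_sites.2 ⟨_, h, (q, true), mem_product.2 ⟨hq, mem_singleton_self _⟩, rfl⟩

lemma geomcut_self_mem {X : Finset Q} {j : Q} (hj : j ∈ X) : j ∈ SS (tri e) X :=
  mem_SS.2 ⟨j, hj, by simp [tri]⟩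

lemma geomcut_sub_mem {X : Finset Q} {j : Q} (hj : j ∈ X) (k : Fin 2) :
    j - e k ∈ SS (tri e) X :=
  mem_SS.2 ⟨j, hj, by fin_cases k <;> simp [tri]⟩

lemma geomcut_bond_fst {C : Finset (Atom Q)} {b : Q × Fin 2} (hb : Sum.inr (Sum.inr b) ∈ C) :
    b.1 ∈ sites e C :=
  geomcut_mem_sites.2 ⟨_, hb, (b.1, false), mem_insert_self _ _, rfl⟩

lemma geomcut_bond_snd {C : Finset (Atom Q)} {b : Q × Fin 2} (hb : Sum.inr (Sum.inr b) ∈ C) :
    b.1 - e b.2 ∈ sites e C :=
  geomcut_mem_sites.2 ⟨_, hb, (b.1 - e b.2, false),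
    mem_insert_of_mem (mem_singleton_self _), rfl⟩

/-- A property that is invariant under the steps owned by a connected region is constant on the
support of the region. -/
lemma geomcut_blob {X : Finset Q} (hX : Conn (tri e) X) (Pr : Q → Prop)
    (step : ∀ j ∈ X, ∀ k, (Pr j ↔ Pr (j - e k))) {q : Q} (hq : q ∈ SS (tri e) X) (hp : Pr q) :
    ∀ q' ∈ SS (tri e) X, Pr q' := by
  have h1 : ∀ j ∈ X, ∀ r ∈ tri e j, (Pr j ↔ Pr r) := by
    intro j hj r hr
    simp only [tri, mem_insert, mem_singleton] at hr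
    rcases hr with rfl | rfl | rfl
    · rfl
    · exact step j hj 0
    · exact step j hj 1
  obtain ⟨j, hj, hqj⟩ := mem_SS.1 hq
  have h2 := hX.induction Pr hj ((h1 j hj q hqj).2 hp) fun α hα β hβ h hd => by
    obtain ⟨r, r1, r2⟩ := not_disjoint_iff.1 hd
    exact (h1 β hβ r r2).2 ((h1 α hα r r1).1 h)
  intro q' hq'
  obtain ⟨j', hj', hqj'⟩ := mem_SS.1 hq'
  exact (h1 j' hj' q' hqj').1 (h2 j' hj')

/-- Induction along the steps owned by the atoms of a polymer. -/
lemma geomcut_induction {C : Finset (Atom Q)} (hC : Valid e C) (Pr : Q → Prop) {j₀ : Q}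
    (h0 : j₀ ∈ sites e C) (hp : Pr j₀)
    (s1 : ∀ X, (Sum.inl X ∈ C ∨ Sum.inr (Sum.inl X) ∈ C) → ∀ j ∈ X, ∀ k, (Pr j ↔ Pr (j - e k)))
    (s2 : ∀ b : Q × Fin 2, Sum.inr (Sum.inr b) ∈ C → (Pr b.1 ↔ Pr (b.1 - e b.2))) :
    ∀ j ∈ sites e C, Pr j := by
  have h1 : ∀ α ∈ C, ∀ q ∈ asupp e α, Pr q.1 → ∀ q' ∈ asupp e α, Pr q'.1 := by
    intro α hα q hq h q' hq'
    have hv := hC.2 α hα
    rcases α with X | X | b
    · exact geomcut_blob hv Pr (s1 X (Or.inl hα)) (mem_product.1 hq).1 h _ (mem_product.1 hq').1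
    · exact geomcut_blob hv Pr (s1 X (Or.inr hα)) (mem_product.1 hq).1 h _ (mem_product.1 hq').1
    · have hb := s2 b hα
      simp only [asupp, mem_insert, mem_singleton] at hq hq'
      rcases hq with rfl | rfl <;> rcases hq' with rfl | rfl
      exacts [h, hb.1 h, hb.2 h, h]
  obtain ⟨α₀, hα₀, q₀, hq₀, rfl⟩ := geomcut_mem_sites.1 h0
  have h2 := hC.1.induction (fun α => ∀ q ∈ asupp e α, Pr q.1) hα₀ (h1 α₀ hα₀ q₀ hq₀ hp)
    fun α _ β hβ h hd => by
      obtain ⟨r, r1, r2⟩ := not_disjoint_iff.1 hd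
      exact h1 β hβ r r2 (h r r1)
  intro j hj
  obtain ⟨α, hα, q, hq, rfl⟩ := geomcut_mem_sites.1 hj
  exact h2 α hα q hq

/-- Induction along the sites of a polymer by steps `± e k`. -/
lemma Valid.induction {C : Finset (Atom Q)} (hC : Valid e C) (Pr : Q → Prop) {j₀ : Q}
    (h0 : j₀ ∈ sites e C) (hp : Pr j₀)
    (step : ∀ k, ∀ j ∈ sites e C, j - e k ∈ sites e C → (Pr j ↔ Pr (j - e k))) :
    ∀ j ∈ sites e C, Pr j :=
  geomcut_induction hC Pr h0 hp
    (fun _ hX j hj k => step k j (geomcut_blob_sites hX (geomcut_self_mem hj))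
      (geomcut_blob_sites hX (geomcut_sub_mem hj k)))
    fun b hb => step b.2 b.1 (geomcut_bond_fst hb) (geomcut_bond_snd hb)

/-- Every level between the lowest and the highest point of a polymer is crossed by a bond owned
by a blob or ghost of `C` or by a bond of `C`: otherwise split `C` (and the blobs) into the atoms
below and above the level. -/
lemma Valid.cut {C : Finset (Atom Q)} (hC : Valid e C) (ht : Q →+ ℤ)
    (hht : ∀ k, ht (e k) = 0 ∨ ht (e k) = 1) {a : ℤ} {p p' : Q} (hp : p ∈ sites e C)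
    (hp' : p' ∈ sites e C) (ha : ht p < a) (ha' : a ≤ ht p') :
    (∃ X, (Sum.inl X ∈ C ∨ Sum.inr (Sum.inl X) ∈ C) ∧ ∃ j ∈ X, ht j = a) ∨
      ∃ b : Q × Fin 2, Sum.inr (Sum.inr b) ∈ C ∧ ht b.1 = a ∧ ht (e b.2) = 1 := by
  by_contra hcon
  obtain ⟨h1, h2⟩ := not_or.1 hcon
  refine absurd (geomcut_induction hC (fun j => ht j < a) hp ha (fun X hX j hj k => ?_)
    (fun b hb => ?_) p' hp') (not_lt.2 ha')
  · have h3 : ht j ≠ a := fun h => h1 ⟨X, hX, j, hj, h⟩
    have h4 := hht k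
    rw [map_sub]
    omega
  · have h3 : ¬(ht b.1 = a ∧ ht (e b.2) = 1) := fun h => h2 ⟨b, hb, h⟩
    have h4 := hht b.2
    rw [map_sub]
    omega

/-- The diameter is bounded as soon as all ordered differences are. -/
lemma geomcut_diam_le {S : Finset ℤ} {k : ℕ} (h : ∀ a ∈ S, ∀ b ∈ S, a ≤ b → b - a ≤ k) :
    diam S ≤ k := by
  refine diam_le fun a ha b hb => ?_
  rcases le_total a b with h1 | h1
  · have := h a ha b hb h1
    omega
  · have := h b hb a ha h1
    omega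

lemma Valid.diam_lt {C : Finset (Atom Q)} (hC : Valid e C) (ht : Q →+ ℤ)
    (hht : ∀ k, ht (e k) = 0 ∨ ht (e k) = 1) :
    diam ((sites e C).image ht) < (sites e C).card := by
  have h0 : 0 < (sites e C).card := card_pos.2 (hC.nonempty.image _)
  have h1 : diam ((sites e C).image ht) ≤ (sites e C).card - 1 := by
    refine geomcut_diam_le fun a ha b hb hab => ?_
    have h2 : Icc a b ⊆ (sites e C).image ht := by
      intro t h3
      rw [mem_Icc] at h3
      rcases h3.1.eq_or_lt with rfl | h4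
      · exact ha
      obtain ⟨p, hp, rfl⟩ := mem_image.1 ha
      obtain ⟨p', hp', rfl⟩ := mem_image.1 hb
      rcases hC.cut ht hht hp hp' h4 h3.2 with ⟨X, hX, j, hj, rfl⟩ | ⟨c, hc, rfl, -⟩
      · exact mem_image_of_mem _ (geomcut_blob_sites hX (geomcut_self_mem hj))
      · exact mem_image_of_mem _ (geomcut_bond_fst hc)
    have h3 := (card_le_card h2).trans card_image_le
    rw [Int.card_Icc] at h3
    omega
  omega

/-- A balanced set of bonds crosses every level an even number of times. -/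
lemma geomcut_even {D : Finset (Q × Fin 2)} (hB : Bal e D) (ht : Q →+ ℤ)
    (hht : ∀ k, ht (e k) = 0 ∨ ht (e k) = 1) (t : ℤ) :
    Even (D.filter fun b => ht b.1 = t ∧ ht (e b.2) = 1).card := by
  set V := (D.image Prod.fst ∪ D.image fun b => b.1 - e b.2).filter fun v => ht v < t with hV
  have h1 : Even (∑ v ∈ V, ((D.filter fun b => b.1 = v).card +
      (D.filter fun b => b.1 - e b.2 = v).card)) := even_sum _ fun v _ => hB v
  rw [sum_add_distrib, sum_card_fiberwise_eq_card_filter, sum_card_fiberwise_eq_card_filter] at h1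
  have e1 : (D.filter fun b => b.1 ∈ V) = D.filter fun b => ht b.1 < t := by
    refine filter_congr fun b hb => ?_
    rw [hV, mem_filter]
    exact ⟨fun h => h.2, fun h => ⟨mem_union_left _ (mem_image_of_mem _ hb), h⟩⟩
  have e2 : (D.filter fun b => b.1 - e b.2 ∈ V) =
      (D.filter fun b => ht b.1 < t) ∪ D.filter fun b => ht b.1 = t ∧ ht (e b.2) = 1 := by
    rw [← filter_or]
    refine filter_congr fun b hb => ?_
    have h4 := hht b.2
    rw [hV, mem_filter, map_sub]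
    exact ⟨fun h => by have := h.2; omega, fun h =>
      ⟨mem_union_right _ (mem_image_of_mem (fun b : Q × Fin 2 => b.1 - e b.2) hb), by omega⟩⟩
  rw [e1, e2, card_union_of_disjoint (disjoint_filter.2 fun b _ h1 h2 => by omega),
    ← add_assoc] at h1
  exact (Nat.even_add.1 h1).1 ⟨_, rfl⟩

/-- The number of bonds crossing a level is even (sum the even degrees of the sites below the
level), so a level that is not the height of a site of a blob or ghost is crossed twice. -/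
lemma Valid.two_diam_le {C : Finset (Atom Q)} (hC : Valid e C) (hB : Bal e C.toRight.toRight)
    (ht : Q →+ ℤ) (hht : ∀ k, ht (e k) = 0 ∨ ht (e k) = 1) :
    2 * diam ((sites e C).image ht) ≤
      2 * (∑ X ∈ C.toLeft, X.card + ∑ X ∈ C.toRight.toLeft, X.card) +
        (C.toRight.toRight.filter fun b => ht (e b.2) = 1).card := by
  set N := ∑ X ∈ C.toLeft, X.card + ∑ X ∈ C.toRight.toLeft, X.card with hN
  set D := C.toRight.toRight.filter fun b => ht (e b.2) = 1 with hD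
  set U := (C.toLeft.biUnion id ∪ C.toRight.toLeft.biUnion id).image ht with hU
  have hUN : U.card ≤ N :=
    card_image_le.trans ((card_union_le _ _).trans (add_le_add card_biUnion_le card_biUnion_le))
  have h1 : diam ((sites e C).image ht) ≤ (2 * N + D.card) / 2 := by
    refine geomcut_diam_le fun a ha b hb hab => ?_
    obtain ⟨p, hp, rfl⟩ := mem_image.1 ha
    obtain ⟨p', hp', rfl⟩ := mem_image.1 hb
    have h2 : ∀ t ∈ Ioc (ht p) (ht p') \ U, 2 ≤ (D.filter fun b => ht b.1 = t).card := by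
      intro t h3
      rw [mem_sdiff, mem_Ioc] at h3
      have e1 : (D.filter fun b => ht b.1 = t) =
          C.toRight.toRight.filter fun b => ht b.1 = t ∧ ht (e b.2) = 1 := by
        rw [hD, filter_filter]
        exact filter_congr fun b _ => and_comm
      rw [e1]
      rcases hC.cut ht hht hp hp' h3.1.1 h3.1.2 with ⟨X, hX, j, hj, rfl⟩ | ⟨c, hc, h4⟩
      · refine absurd (mem_image_of_mem _ ?_) h3.2
        rcases hX with hX | hX
        · exact mem_union_left _ (mem_biUnion.2 ⟨X, mem_toLeft.2 hX, hj⟩)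
        · exact mem_union_right _ (mem_biUnion.2 ⟨X, mem_toLeft.2 (mem_toRight.2 hX), hj⟩)
      · have h5 := geomcut_even hB ht hht t
        have h6 : 0 < (C.toRight.toRight.filter fun b => ht b.1 = t ∧ ht (e b.2) = 1).card :=
          card_pos.2 ⟨c, mem_filter.2 ⟨mem_toRight.2 (mem_toRight.2 hc), h4⟩⟩
        obtain ⟨r, hr⟩ := h5
        omega
    have h3 := card_nsmul_le_sum _ _ _ h2
    rw [sum_card_fiberwise_eq_card_filter, smul_eq_mul] at h3
    have h4 := h3.trans (card_filter_le _ _)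
    have h5 := le_card_sdiff U (Ioc (ht p) (ht p'))
    rw [Int.card_Ioc] at h5
    omega
  omega

end Pool.Agent.MP_646035_al.H91

end

-- part MP_646035_al.H91.Compare
section

/-!
Comparison of a polymer system with a covering system.
-/

namespace Pool.Agent.MP_646035_al.H91

open Finset

variable {Pt Γ Pt' Γ' : Type*} [DecidableEq Pt] [DecidableEq Γ] [DecidableEq Pt'] [DecidableEq Γ']

/-- Data of a covering: the primed system (universe: the set `V`) covers the other one (universe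
`U`) through `π` on polymers and `p` on points; `len` measures the size of a set of points and
`n₀` is the size below which the covering is faithful. -/
structure Cover (supp' : Γ' → Finset Pt') (w' : Γ' → ℝ) (V : Set Γ')
    (supp : Γ → Finset Pt) (w : Γ → ℝ) (U : Finset Γ)
    (π : Γ' → Γ) (p : Pt' → Pt) (len : Finset Pt' → ℕ) (n₀ : ℕ) (y : ℝ) : Prop where
  one_le : 1 ≤ y
  mono : ∀ A B, A ⊆ B → len A ≤ len B
  union : ∀ A B, ¬ Disjoint A B → len (A ∪ B) ≤ len A + len B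
  ne : ∀ δ ∈ V, (supp' δ).Nonempty
  small : ∀ δ ∈ V, len (supp' δ) < n₀ → w (π δ) = w' δ ∧ supp (π δ) = (supp' δ).image p
  lift : ∀ δ ∈ U, ∀ q, p q ∈ supp δ →
    ∃ δ' ∈ V, π δ' = δ ∧ q ∈ supp' δ' ∧ len (supp' δ') < n₀
  uniq : ∀ δ ∈ V, ∀ δ' ∈ V, π δ = π δ' → ∀ q ∈ supp' δ, len (supp' δ) < n₀ →
    len (insert q (supp' δ')) < n₀ → δ = δ'
  sum : ∀ N : Finset Γ', (∀ δ ∈ N, δ ∈ V) → ∀ q,
    ∑ δ ∈ N with q ∈ supp' δ,
      |w' δ| * Real.exp (2 * (supp' δ).card) * y ^ len (supp' δ) ≤ 1 / 6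
  kp : KP supp w U

lemma compare_log_lip {a b : ℝ} (ha : |a| ≤ 1 / 2) (hb : |b| ≤ 1 / 2) :
    |Real.log (1 + a) - Real.log (1 + b)| ≤ 2 * |a - b| := by
  have key : ∀ a b : ℝ, |a| ≤ 1 / 2 → |b| ≤ 1 / 2 →
      Real.log (1 + a) - Real.log (1 + b) ≤ 2 * |a - b| := by
    intro a b ha hb
    have ha' := abs_le.1 ha
    have hb' := abs_le.1 hb
    have h1 : 0 < 1 + a := by linarith [ha'.1]
    have h2 : 0 < 1 + b := by linarith [hb'.1]
    rw [← Real.log_div h1.ne' h2.ne']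
    have h3 := Real.log_le_sub_one_of_pos (div_pos h1 h2)
    have h4 : (1 + a) / (1 + b) - 1 = (a - b) / (1 + b) := by field_simp; ring
    have h5 : (a - b) / (1 + b) ≤ 2 * |a - b| := by
      rw [div_le_iff₀ h2]
      have := le_abs_self (a - b)
      have h6 := abs_nonneg (a - b)
      nlinarith [hb'.1]
    linarith
  rw [abs_le]
  refine ⟨?_, key a b ha hb⟩
  have := key b a hb ha
  rw [abs_sub_comm] at this
  linarith

lemma compare_exp_lip {s t c : ℝ} (hs : |s| ≤ c) (ht : |t| ≤ c) :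
    |Real.exp (-s) - Real.exp (-t)| ≤ Real.exp c * |s - t| := by
  have key : ∀ s t : ℝ, |s| ≤ c → Real.exp (-s) - Real.exp (-t) ≤ Real.exp c * |s - t| := by
    intro s t hs
    have h1 : Real.exp (-t) = Real.exp (-s) * Real.exp (s - t) := by
      rw [← Real.exp_add]; ring_nf
    have h2 := Real.add_one_le_exp (s - t)
    have h3 : Real.exp (-s) ≤ Real.exp c := Real.exp_le_exp.2 (by linarith [(abs_le.1 hs).1])
    have h4 := Real.exp_pos (-s)
    have h5 := neg_abs_le (s - t)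
    have h6 := abs_nonneg (s - t)
    calc Real.exp (-s) - Real.exp (-t) = Real.exp (-s) * (1 - Real.exp (s - t)) := by
          rw [h1]; ring
      _ ≤ Real.exp (-s) * |s - t| := by
          apply mul_le_mul_of_nonneg_left _ h4.le
          linarith
      _ ≤ Real.exp c * |s - t| := mul_le_mul_of_nonneg_right h3 h6
  rw [abs_le]
  refine ⟨?_, key s t hs⟩
  have := key t s ht
  rw [abs_sub_comm] at this
  linarith

section Aux

variable {supp' : Γ' → Finset Pt'} {w' : Γ' → ℝ} {V : Set Γ'}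
    {supp : Γ → Finset Pt} {w : Γ → ℝ} {U : Finset Γ}
    {π : Γ' → Γ} {p : Pt' → Pt} {len : Finset Pt' → ℕ} {n₀ : ℕ} {y : ℝ}

lemma compare_term_le (h : Cover supp' w' V supp w U π p len n₀ y) (δ : Γ') :
    |w' δ| * Real.exp (supp' δ).card
      ≤ |w' δ| * Real.exp (2 * (supp' δ).card) * y ^ len (supp' δ) := by
  have h1 : (1 : ℝ) ≤ y ^ len (supp' δ) := one_le_pow₀ h.one_le
  have h2 : Real.exp (supp' δ).card ≤ Real.exp (2 * (supp' δ).card) := by
    apply Real.exp_le_exp.2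
    have : (0 : ℝ) ≤ (supp' δ).card := Nat.cast_nonneg _
    linarith
  have h3 := mul_le_mul_of_nonneg_left h2 (abs_nonneg (w' δ))
  have h4 : 0 ≤ |w' δ| * Real.exp (2 * (supp' δ).card) := by positivity
  nlinarith

lemma compare_kp (h : Cover supp' w' V supp w U π p len n₀ y) (L : Finset Γ')
    (hL : ∀ δ ∈ L, δ ∈ V) : KP supp' w' L := by
  refine ⟨fun γ hγ => h.ne γ (hL γ hγ), fun q => ?_⟩
  have h1 := h.sum L hL q
  have h2 : ∑ δ ∈ L with q ∈ supp' δ, |w' δ| * Real.exp (supp' δ).card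
      ≤ ∑ δ ∈ L with q ∈ supp' δ,
        |w' δ| * Real.exp (2 * (supp' δ).card) * y ^ len (supp' δ) :=
    Finset.sum_le_sum fun δ _ => compare_term_le h δ
  linarith

lemma compare_single (h : Cover supp' w' V supp w U π p len n₀ y) {δ : Γ'} (hδ : δ ∈ V) :
    |w' δ| * Real.exp (supp' δ).card ≤ 1 / 2 := by
  obtain ⟨q, hq⟩ := h.ne δ hδ
  have h1 := (compare_kp h {δ} (by simpa using hδ)).sum q
  rw [Finset.filter_singleton, if_pos hq, Finset.sum_singleton] at h1
  exact h1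

/-- Removing polymers that meet `H` keeps the invariant. -/
lemma compare_inv (h : Cover supp' w' V supp w U π p len n₀ y)
    (Λ' : Finset Γ') (Λ : Finset Γ) (H : Finset Pt')
    (hinv : ∀ δ ∈ V, len (H ∪ supp' δ) < n₀ → (δ ∈ Λ' ↔ π δ ∈ Λ))
    (M : Finset Γ') (hM : ∀ δ ∈ M, δ ∈ V ∧ ¬ Disjoint (supp' δ) H) :
    ∀ δ ∈ V, len (H ∪ supp' δ) < n₀ →
      (δ ∈ Λ' \ M ↔ π δ ∈ Λ \ (M.filter fun ε => len (supp' ε) < n₀).image π) := by
  intro δ hδ hl
  rw [Finset.mem_sdiff, Finset.mem_sdiff, hinv δ hδ hl]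
  refine and_congr_right fun _ => not_congr ⟨fun hm => ?_, fun hm => ?_⟩
  · exact Finset.mem_image.2 ⟨δ, Finset.mem_filter.2
      ⟨hm, lt_of_le_of_lt (h.mono _ _ Finset.subset_union_right) hl⟩, rfl⟩
  · obtain ⟨ε, hε, he⟩ := Finset.mem_image.1 hm
    obtain ⟨hεM, hεl⟩ := Finset.mem_filter.1 hε
    obtain ⟨hεV, hd⟩ := hM ε hεM
    obtain ⟨q, hq1, hq2⟩ := Finset.not_disjoint_iff.1 hd
    have h1 : insert q (supp' δ) ⊆ H ∪ supp' δ :=
      Finset.insert_subset (Finset.mem_union_left _ hq2) Finset.subset_union_right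
    have := h.uniq ε hεV δ hδ he q hq1 hεl (lt_of_le_of_lt (h.mono _ _ h1) hl)
    exact this ▸ hεM

/-- One removal. -/
lemma compare_step (h : Cover supp' w' V supp w U π p len n₀ y) (n : ℕ)
    (ih : ∀ (Λ' : Finset Γ'), (∀ δ ∈ Λ', δ ∈ V) → ∀ (Λ : Finset Γ), Λ ⊆ U →
      Λ'.card + Λ.card < n → ∀ (H A : Finset Pt'), A ⊆ H →
      (∀ δ ∈ V, len (H ∪ supp' δ) < n₀ → (δ ∈ Λ' ↔ π δ ∈ Λ)) →
      |Dl supp' w' Λ' A - Dl supp w Λ (A.image p)| ≤ A.card * (y ^ len H / y ^ n₀))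
    (L' : Finset Γ') (hL' : ∀ δ ∈ L', δ ∈ V) (L : Finset Γ) (hL : L ⊆ U)
    (hn : L'.card + L.card ≤ n) (H : Finset Pt')
    (hinv : ∀ δ ∈ V, len (H ∪ supp' δ) < n₀ → (δ ∈ L' ↔ π δ ∈ L))
    {δ : Γ'} (hδ : δ ∈ V) (hd : ¬ Disjoint (supp' δ) H) :
    |(Real.log (Xi supp' w' L') - Real.log (Xi supp' w' (L'.erase δ)))
      - (Real.log (Xi supp w L) - Real.log (Xi supp w
          (if len (supp' δ) < n₀ then L.erase (π δ) else L)))|
      ≤ 6 * (|w' δ| * Real.exp (2 * (supp' δ).card) * y ^ len (supp' δ))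
          * (y ^ len H / y ^ n₀) := by
  have hy : 0 < y := lt_of_lt_of_le one_pos h.one_le
  have hkp' := compare_kp h L' hL'
  have hun : len (H ∪ supp' δ) ≤ len H + len (supp' δ) :=
    h.union _ _ (fun hh => hd hh.symm)
  have hw0 := abs_nonneg (w' δ)
  have hcard : ∀ (hs : len (supp' δ) < n₀), ((supp (π δ)).card : ℝ) ≤ (supp' δ).card := by
    intro hs
    rw [(h.small δ hδ hs).2]
    exact_mod_cast Finset.card_image_le
  by_cases hc : len (H ∪ supp' δ) < n₀
  · have hs : len (supp' δ) < n₀ := lt_of_le_of_lt (h.mono _ _ Finset.subset_union_right) hc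
    rw [if_pos hs]
    by_cases hm : δ ∈ L'
    · have hm2 : π δ ∈ L := (hinv δ hδ hc).1 hm
      rw [hkp'.step_eq (Finset.Subset.refl _) hm, h.kp.step_eq hL hm2, (h.small δ hδ hs).1]
      have hinv2 : ∀ ε ∈ V, len (H ∪ supp' δ ∪ supp' ε) < n₀ →
          (ε ∈ L'.erase δ ↔ π ε ∈ L.erase (π δ)) := by
        intro ε hε hl
        have hl2 : len (H ∪ supp' ε) < n₀ := lt_of_le_of_lt (h.mono _ _
          (Finset.union_subset_union Finset.subset_union_left (Finset.Subset.refl _))) hl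
        have := compare_inv h L' L H hinv {δ} (by simpa using ⟨hδ, hd⟩) ε hε hl2
        rw [Finset.filter_singleton, if_pos hs, Finset.image_singleton,
          Finset.sdiff_singleton_eq_erase, Finset.sdiff_singleton_eq_erase] at this
        exact this
      have hlt : (L'.erase δ).card + (L.erase (π δ)).card < n := by
        have a1 := Finset.card_erase_lt_of_mem hm
        have a2 := Finset.card_erase_lt_of_mem hm2
        omega
      have hI := ih (L'.erase δ) (fun ε hε => hL' ε (Finset.mem_of_mem_erase hε)) (L.erase (π δ))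
        ((Finset.erase_subset _ _).trans hL) hlt (H ∪ supp' δ) (supp' δ)
        Finset.subset_union_right hinv2
      rw [← (h.small δ hδ hs).2] at hI
      set s := Dl supp' w' (L'.erase δ) (supp' δ) with hsdef
      set t := Dl supp w (L.erase (π δ)) (supp (π δ)) with htdef
      set c : ℝ := ((supp' δ).card : ℝ) with hcdef
      have hsc : |s| ≤ c := hkp'.Dl_le (Finset.erase_subset _ _) _
      have htc : |t| ≤ c :=
        (h.kp.Dl_le ((Finset.erase_subset _ _).trans hL) _).trans (hcard hs)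
      have hone := compare_single h hδ
      have hb : ∀ u : ℝ, |u| ≤ c → |w' δ * Real.exp (-u)| ≤ 1 / 2 := by
        intro u hu
        rw [abs_mul, abs_of_pos (Real.exp_pos _)]
        have : Real.exp (-u) ≤ Real.exp c := Real.exp_le_exp.2 (by linarith [(abs_le.1 hu).1])
        exact (mul_le_mul_of_nonneg_left this hw0).trans hone
      have h1 := compare_log_lip (hb s hsc) (hb t htc)
      have h2 := compare_exp_lip hsc htc
      have h3 : |w' δ * Real.exp (-s) - w' δ * Real.exp (-t)|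
          = |w' δ| * |Real.exp (-s) - Real.exp (-t)| := by rw [← mul_sub, abs_mul]
      have h4 : y ^ len (H ∪ supp' δ) / y ^ n₀ ≤ y ^ len (supp' δ) * (y ^ len H / y ^ n₀) := by
        rw [← mul_div_assoc, ← pow_add]
        apply div_le_div_of_nonneg_right _ (by positivity)
        exact pow_le_pow_right₀ h.one_le (by omega)
      have hc0 : 0 ≤ c := Nat.cast_nonneg _
      have h5 : c ≤ Real.exp c := by linarith [Real.add_one_le_exp c]
      set z := y ^ len (supp' δ) * (y ^ len H / y ^ n₀) with hz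
      have hz0 : 0 ≤ z := by positivity
      have h6 : |s - t| ≤ Real.exp c * z :=
        hI.trans (mul_le_mul h5 h4 (by positivity) (Real.exp_pos _).le)
      have h7 : Real.exp (2 * c) = Real.exp c * Real.exp c := by rw [← Real.exp_add]; ring_nf
      have h8 : |Real.exp (-s) - Real.exp (-t)| ≤ Real.exp (2 * c) * z := by
        rw [h7, mul_assoc]
        exact h2.trans (mul_le_mul_of_nonneg_left h6 (Real.exp_pos _).le)
      have h9 := mul_le_mul_of_nonneg_left h8 hw0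
      have h10 : 0 ≤ |w' δ| * (Real.exp (2 * c) * z) := by positivity
      calc _ ≤ 2 * (|w' δ| * (Real.exp (2 * c) * z)) := by rw [h3] at h1; linarith
        _ ≤ 6 * (|w' δ| * (Real.exp (2 * c) * z)) := by linarith
        _ = _ := by rw [hz]; ring
    · have hm2 : π δ ∉ L := fun hh => hm ((hinv δ hδ hc).2 hh)
      rw [Finset.erase_eq_of_notMem hm, Finset.erase_eq_of_notMem hm2]
      simp only [sub_self, abs_zero]
      positivity
  · have h1 : 1 ≤ y ^ len (supp' δ) * (y ^ len H / y ^ n₀) := by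
      rw [← mul_div_assoc, ← pow_add, le_div_iff₀ (by positivity), one_mul]
      exact pow_le_pow_right₀ h.one_le (by omega)
    have h0 : 0 ≤ 2 * |w' δ| * Real.exp (supp' δ).card := by positivity
    have ha : |Real.log (Xi supp' w' L') - Real.log (Xi supp' w' (L'.erase δ))|
        ≤ 2 * |w' δ| * Real.exp (supp' δ).card := by
      by_cases hm : δ ∈ L'
      · exact (hkp'.pos_step L' (Finset.Subset.refl _)).2 δ hm
      · rw [Finset.erase_eq_of_notMem hm]; simpa using h0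
    have hb : |Real.log (Xi supp w L) - Real.log (Xi supp w
          (if len (supp' δ) < n₀ then L.erase (π δ) else L))|
        ≤ 2 * |w' δ| * Real.exp (supp' δ).card := by
      split_ifs with hs
      · by_cases hm : π δ ∈ L
        · refine ((h.kp.pos_step L hL).2 _ hm).trans ?_
          rw [(h.small δ hδ hs).1]
          exact mul_le_mul_of_nonneg_left (Real.exp_le_exp.2 (hcard hs)) (by positivity)
        · rw [Finset.erase_eq_of_notMem hm]; simpa using h0
      · simpa using h0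
    have h2 : Real.exp (supp' δ).card ≤ Real.exp (2 * (supp' δ).card) := by
      apply Real.exp_le_exp.2
      have : (0 : ℝ) ≤ (supp' δ).card := Nat.cast_nonneg _
      linarith
    have h3 := mul_le_mul_of_nonneg_left h2 hw0
    have h4 : 0 ≤ |w' δ| * Real.exp (2 * (supp' δ).card) := by positivity
    have h5 := mul_le_mul_of_nonneg_left h1 h4
    calc _ ≤ _ := abs_sub _ _
      _ ≤ 6 * (|w' δ| * Real.exp (2 * (supp' δ).card)
            * (y ^ len (supp' δ) * (y ^ len H / y ^ n₀))) := by nlinarith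
      _ = _ := by ring

/-- Removal of a whole finite set. -/
lemma compare_many (h : Cover supp' w' V supp w U π p len n₀ y) (n : ℕ)
    (ih : ∀ (Λ' : Finset Γ'), (∀ δ ∈ Λ', δ ∈ V) → ∀ (Λ : Finset Γ), Λ ⊆ U →
      Λ'.card + Λ.card < n → ∀ (H A : Finset Pt'), A ⊆ H →
      (∀ δ ∈ V, len (H ∪ supp' δ) < n₀ → (δ ∈ Λ' ↔ π δ ∈ Λ)) →
      |Dl supp' w' Λ' A - Dl supp w Λ (A.image p)| ≤ A.card * (y ^ len H / y ^ n₀))
    (L' : Finset Γ') (hL' : ∀ δ ∈ L', δ ∈ V) (L : Finset Γ) (hL : L ⊆ U)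
    (hn : L'.card + L.card ≤ n) (H : Finset Pt')
    (hinv : ∀ δ ∈ V, len (H ∪ supp' δ) < n₀ → (δ ∈ L' ↔ π δ ∈ L))
    (M : Finset Γ') (hM : ∀ δ ∈ M, δ ∈ V ∧ ¬ Disjoint (supp' δ) H) :
    |(Real.log (Xi supp' w' L') - Real.log (Xi supp' w' (L' \ M)))
      - (Real.log (Xi supp w L) - Real.log (Xi supp w
          (L \ (M.filter fun ε => len (supp' ε) < n₀).image π)))|
      ≤ ∑ δ ∈ M, 6 * (|w' δ| * Real.exp (2 * (supp' δ).card) * y ^ len (supp' δ))
          * (y ^ len H / y ^ n₀) := by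
  induction M using Finset.induction_on with
  | empty => simp
  | insert δ M hδM ihM =>
    have hM' : ∀ ε ∈ M, ε ∈ V ∧ ¬ Disjoint (supp' ε) H :=
      fun ε hε => hM ε (Finset.mem_insert_of_mem hε)
    obtain ⟨hδV, hδd⟩ := hM δ (Finset.mem_insert_self _ _)
    have h1 := ihM hM'
    have hc1 : (L' \ M).card ≤ L'.card := Finset.card_le_card Finset.sdiff_subset
    have hc2 : (L \ (M.filter fun ε => len (supp' ε) < n₀).image π).card ≤ L.card :=
      Finset.card_le_card Finset.sdiff_subset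
    have h2 := compare_step h n ih (L' \ M) (fun ε hε => hL' ε (Finset.mem_sdiff.1 hε).1)
      (L \ (M.filter fun ε => len (supp' ε) < n₀).image π) (Finset.sdiff_subset.trans hL)
      (by omega) H (compare_inv h L' L H hinv M hM') hδV hδd
    have e1 : L' \ insert δ M = (L' \ M).erase δ := Finset.sdiff_insert _ _ _
    have e2 : L \ ((insert δ M).filter fun ε => len (supp' ε) < n₀).image π
        = if len (supp' δ) < n₀
          then (L \ (M.filter fun ε => len (supp' ε) < n₀).image π).erase (π δ)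
          else L \ (M.filter fun ε => len (supp' ε) < n₀).image π := by
      rw [Finset.filter_insert]
      split_ifs with hs
      · rw [Finset.image_insert, Finset.sdiff_insert]
      · rfl
    rw [e1, e2, Finset.sum_insert hδM]
    have h3 := abs_le.1 h1
    have h4 := abs_le.1 h2
    rw [abs_le]
    constructor <;> linarith [h3.1, h3.2, h4.1, h4.2]

lemma compare_sum (h : Cover supp' w' V supp w U π p len n₀ y) (A : Finset Pt')
    (N : Finset Γ') (hN : ∀ δ ∈ N, δ ∈ V ∧ ¬ Disjoint (supp' δ) A) :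
    ∑ δ ∈ N, 6 * (|w' δ| * Real.exp (2 * (supp' δ).card) * y ^ len (supp' δ)) ≤ A.card := by
  have hy : 0 < y := lt_of_lt_of_le one_pos h.one_le
  have h1 : ∑ δ ∈ N, |w' δ| * Real.exp (2 * (supp' δ).card) * y ^ len (supp' δ)
      ≤ ∑ δ ∈ N, ∑ q ∈ A, if q ∈ supp' δ then
        |w' δ| * Real.exp (2 * (supp' δ).card) * y ^ len (supp' δ) else 0 := by
    refine Finset.sum_le_sum fun δ hδ => ?_
    obtain ⟨q, hq1, hq2⟩ := Finset.not_disjoint_iff.1 (hN δ hδ).2
    have := Finset.single_le_sum (f := fun q => if q ∈ supp' δ then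
        |w' δ| * Real.exp (2 * (supp' δ).card) * y ^ len (supp' δ) else 0)
        (fun q _ => by split_ifs <;> positivity) hq2
    simpa only [if_pos hq1] using this
  rw [Finset.sum_comm] at h1
  have h2 : ∑ q ∈ A, ∑ δ ∈ N, (if q ∈ supp' δ then
        |w' δ| * Real.exp (2 * (supp' δ).card) * y ^ len (supp' δ) else 0)
      ≤ ∑ _q ∈ A, (1 / 6 : ℝ) := by
    refine Finset.sum_le_sum fun q _ => ?_
    rw [← Finset.sum_filter]
    exact h.sum N (fun δ hδ => (hN δ hδ).1) q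
  rw [Finset.sum_const, nsmul_eq_mul] at h2
  rw [← Finset.mul_sum]
  linarith

lemma compare_aux (h : Cover supp' w' V supp w U π p len n₀ y) (n : ℕ) :
    ∀ (Λ' : Finset Γ'), (∀ δ ∈ Λ', δ ∈ V) → ∀ (Λ : Finset Γ), Λ ⊆ U →
      Λ'.card + Λ.card < n → ∀ (H A : Finset Pt'), A ⊆ H →
      (∀ δ ∈ V, len (H ∪ supp' δ) < n₀ → (δ ∈ Λ' ↔ π δ ∈ Λ)) →
      |Dl supp' w' Λ' A - Dl supp w Λ (A.image p)| ≤ A.card * (y ^ len H / y ^ n₀) := by
  have hy : 0 < y := lt_of_lt_of_le one_pos h.one_le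
  induction n with
  | zero => intro _ _ _ _ hlt; omega
  | succ n ih =>
    intro Λ' hΛ' Λ hΛ hlt H A hA hinv
    have hex : ∀ δ : {δ // δ ∈ Λ.filter fun δ => ¬ Disjoint (supp δ) (A.image p)},
        ∃ δ' ∈ V, π δ' = δ.1 ∧ ¬ Disjoint (supp' δ') A ∧ len (supp' δ') < n₀ := by
      rintro ⟨δ, hδ⟩
      obtain ⟨hδ1, hδ2⟩ := Finset.mem_filter.1 hδ
      obtain ⟨r, hr1, hr2⟩ := Finset.not_disjoint_iff.1 hδ2
      obtain ⟨q, hq, rfl⟩ := Finset.mem_image.1 hr2
      obtain ⟨δ', a1, a2, a3, a4⟩ := h.lift δ (hΛ hδ1) q hr1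
      exact ⟨δ', a1, a2, Finset.not_disjoint_iff.2 ⟨q, a3, hq⟩, a4⟩
    choose f hfV hfπ hfd hfl using hex
    set N : Finset Γ' := (Λ'.filter fun δ => ¬ Disjoint (supp' δ) A) ∪
      (Λ.filter fun δ => ¬ Disjoint (supp δ) (A.image p)).attach.image f with hNdef
    have hN : ∀ δ ∈ N, δ ∈ V ∧ ¬ Disjoint (supp' δ) A := by
      intro δ hδ
      rcases Finset.mem_union.1 hδ with h1 | h1
      · exact ⟨hΛ' δ (Finset.mem_filter.1 h1).1, (Finset.mem_filter.1 h1).2⟩
      · obtain ⟨ε, -, rfl⟩ := Finset.mem_image.1 h1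
        exact ⟨hfV ε, hfd ε⟩
    have hNH : ∀ δ ∈ N, δ ∈ V ∧ ¬ Disjoint (supp' δ) H :=
      fun δ hδ => ⟨(hN δ hδ).1, fun hh => (hN δ hδ).2 (hh.mono_right hA)⟩
    have h1 := compare_many h n ih Λ' hΛ' Λ hΛ (by omega) H hinv N hNH
    have e1 : Λ' \ N = away supp' Λ' A := by
      ext δ
      rw [Finset.mem_sdiff, away, Finset.mem_filter]
      refine and_congr_right fun hδ => ⟨fun hn => ?_, fun hd hn => (hN δ hn).2 hd⟩
      by_contra hd
      exact hn (Finset.mem_union_left _ (Finset.mem_filter.2 ⟨hδ, hd⟩))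
    have e2 : Λ \ (N.filter fun ε => len (supp' ε) < n₀).image π
        = away supp Λ (A.image p) := by
      ext δ
      rw [Finset.mem_sdiff, away, Finset.mem_filter]
      refine and_congr_right fun hδ => ⟨fun hn => ?_, fun hd hn => ?_⟩
      · by_contra hd
        apply hn
        have hm : δ ∈ Λ.filter fun δ => ¬ Disjoint (supp δ) (A.image p) :=
          Finset.mem_filter.2 ⟨hδ, hd⟩
        refine Finset.mem_image.2 ⟨f ⟨δ, hm⟩, Finset.mem_filter.2 ⟨?_, hfl _⟩, hfπ _⟩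
        exact Finset.mem_union_right _ (Finset.mem_image.2 ⟨⟨δ, hm⟩, Finset.mem_attach _ _, rfl⟩)
      · obtain ⟨ε, hε, rfl⟩ := Finset.mem_image.1 hn
        obtain ⟨hε1, hε2⟩ := Finset.mem_filter.1 hε
        obtain ⟨q, hq1, hq2⟩ := Finset.not_disjoint_iff.1 (hN ε hε1).2
        rw [(h.small ε (hN ε hε1).1 hε2).2] at hd
        exact Finset.disjoint_left.1 hd (Finset.mem_image_of_mem p hq1)
          (Finset.mem_image_of_mem p hq2)
    rw [e1, e2, ← Finset.sum_mul] at h1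
    exact h1.trans (mul_le_mul_of_nonneg_right (compare_sum h A N hN) (by positivity))

end Aux

/-- Strong induction on `Λ'.card + Λ.card`.  Let `N` be the finite set of the `δ ∈ V` meeting `A`
that lie in `Λ'` or are lifts (`lift`) of members of `Λ` meeting `A.image p`.  Remove its members
one at a time: `δ` from `Λ'` and, when `len (supp' δ) < n₀`, `π δ` from `Λ`; `uniq` keeps `hinv`
(same `H`).  One removal changes the two logarithms by amounts whose difference is at most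
`6 |w' δ| exp (2 card) y ^ len (supp' δ) * y ^ len H / y ^ n₀`: if `len (H ∪ supp' δ) < n₀` both
or neither are present, use `KP.step_eq`, the outer induction hypothesis with `H ∪ supp' δ` and
`supp' δ`, `|log (1 + a) - log (1 + b)| ≤ 2 |a - b|` for `|a|, |b| ≤ 1/2` and
`|exp (-s) - exp (-t)| ≤ exp c * |s - t|` for `|s|, |t| ≤ c`; otherwise
`n₀ ≤ len H + len (supp' δ)` and `KP.pos_step` bounds both changes.  (`sum` with `N = Λ'` gives
`KP supp' w' Λ'`; `card (supp (π δ)) ≤ card (supp' δ)`.) -/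
theorem Cover.compare {supp' : Γ' → Finset Pt'} {w' : Γ' → ℝ} {V : Set Γ'}
    {supp : Γ → Finset Pt} {w : Γ → ℝ} {U : Finset Γ}
    {π : Γ' → Γ} {p : Pt' → Pt} {len : Finset Pt' → ℕ} {n₀ : ℕ} {y : ℝ}
    (h : Cover supp' w' V supp w U π p len n₀ y)
    (Λ' : Finset Γ') (hΛ' : ∀ δ ∈ Λ', δ ∈ V) (Λ : Finset Γ) (hΛ : Λ ⊆ U)
    (H A : Finset Pt') (hA : A ⊆ H)
    (hinv : ∀ δ ∈ V, len (H ∪ supp' δ) < n₀ → (δ ∈ Λ' ↔ π δ ∈ Λ)) :
    |Dl supp' w' Λ' A - Dl supp w Λ (A.image p)| ≤ A.card * (y ^ len H / y ^ n₀) := by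
  exact compare_aux h _ Λ' hΛ' Λ hΛ (Nat.lt_succ_self _) H A hA hinv

end Pool.Agent.MP_646035_al.H91

end

-- part MP_646035_al.H91.Cyl
section

/-!
The plane covers the helix `ℤ` with directions `1` and `n`.
-/

namespace Pool.Agent.MP_646035_al.H91

open Finset

variable {P : Par}

/-- The directions of the plane. -/
def eP : Fin 2 → ℤ × ℤ
  | 0 => (1, 0)
  | 1 => (0, 1)

/-- The directions of the helix. -/
def eC (n : ℕ) : Fin 2 → ℤ
  | 0 => 1
  | 1 => n

@[simp] lemma eP_zero : eP 0 = (1, 0) := rfl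
@[simp] lemma eP_one : eP 1 = (0, 1) := rfl
@[simp] lemma eC_zero (n : ℕ) : eC n 0 = 1 := rfl
@[simp] lemma eC_one (n : ℕ) : eC n 1 = n := rfl

def pr (n : ℕ) (c : ℤ) (v : ℤ × ℤ) : ℤ := v.1 + n * v.2 + c

lemma mor_pr (n : ℕ) (c : ℤ) : Mor eP (eC n) (pr n c) := by
  intro p k
  fin_cases k <;> simp [pr] <;> ring

lemma dir_eP : Dir eP := ⟨⟨AddMonoidHom.fst ℤ ℤ, rfl⟩, by simp⟩

lemma dir_eC {n : ℕ} (hn : 1 ≤ n) : Dir (eC n) := ⟨⟨AddMonoidHom.id ℤ, rfl⟩, by simp; omega⟩

/-- Width plus height. -/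
def len (A : Finset ((ℤ × ℤ) × Bool)) : ℕ :=
  diam (A.image fun q => q.1.1) + diam (A.image fun q => q.1.2)

/-- Polymers of the helix that are images of small polymers of the plane. -/
def Small (n : ℕ) (C : Finset (Atom ℤ)) : Prop :=
  ∃ C', Valid eP C' ∧ len (SS (asupp eP) C') < n - 2 ∧ mapPoly (pr n 0) C' = C

open Classical in
noncomputable def spolys (n : ℕ) (A : Finset ℤ) : Finset (Finset (Atom ℤ)) :=
  (polys (eC n) A).filter (Small n)

lemma len_mono {A B : Finset ((ℤ × ℤ) × Bool)} (h : A ⊆ B) : len A ≤ len B :=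
  add_le_add (diam_mono (image_subset_image h)) (diam_mono (image_subset_image h))

lemma len_union {A B : Finset ((ℤ × ℤ) × Bool)} (h : ¬ Disjoint A B) :
    len (A ∪ B) ≤ len A + len B := by
  obtain ⟨q, hA, hB⟩ := not_disjoint_iff.1 h
  have h1 := diam_union (S := A.image fun q => q.1.1) (T := B.image fun q => q.1.1)
    (not_disjoint_iff.2 ⟨_, mem_image_of_mem _ hA, mem_image_of_mem _ hB⟩)
  have h2 := diam_union (S := A.image fun q => q.1.2) (T := B.image fun q => q.1.2)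
    (not_disjoint_iff.2 ⟨_, mem_image_of_mem _ hA, mem_image_of_mem _ hB⟩)
  simp only [len, image_union]
  omega

lemma cyl_eq {n : ℕ} {c : ℤ} {u v : ℤ × ℤ} (h : pr n c u = pr n c v)
    (hn : (u.1 - v.1).natAbs < n) : u = v := by
  have h1 : u.1 - v.1 = n * (v.2 - u.2) := by
    unfold pr at h
    linarith
  have h2 : v.2 - u.2 = 0 := by
    by_contra h0
    rw [h1, Int.natAbs_mul, Int.natAbs_natCast] at hn
    exact absurd hn (not_lt.2 (Nat.le_mul_of_pos_right _ (Int.natAbs_pos.2 h0)))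
  rw [h2, mul_zero] at h1
  exact Prod.ext (by omega) (by omega)

lemma cyl_le_len {A : Finset ((ℤ × ℤ) × Bool)} {p q : (ℤ × ℤ) × Bool} (hp : p ∈ A) (hq : q ∈ A) :
    (p.1.1 - q.1.1).natAbs ≤ len A :=
  (le_diam (mem_image_of_mem (fun q : (ℤ × ℤ) × Bool => q.1.1) hp)
    (mem_image_of_mem _ hq)).trans (Nat.le_add_right _ _)

lemma cyl_fat {X : Finset (ℤ × ℤ)} {u : ℤ × ℤ} (hu : u ∈ fat eP X) :
    ∃ j ∈ X, (u.1 - j.1).natAbs ≤ 1 := by
  obtain ⟨j, hj, h⟩ := mem_biUnion.1 hu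
  refine ⟨j, hj, ?_⟩
  simp only [mem_insert, mem_singleton] at h
  rcases h with rfl | rfl | rfl | rfl | rfl <;> simp

/-- First coordinates in `fat eP (sites eP C)` differ by less than `n`. -/
lemma injOn_pr {n : ℕ} (c : ℤ) {C : Finset (Atom (ℤ × ℤ))}
    (h : len (SS (asupp eP) C) < n - 2) : Set.InjOn (pr n c) (fat eP (sites eP C)) := by
  intro u hu v hv huv
  obtain ⟨j, hj, h1⟩ := cyl_fat (mem_coe.1 hu)
  obtain ⟨j', hj', h2⟩ := cyl_fat (mem_coe.1 hv)
  obtain ⟨p, hp, rfl⟩ := mem_image.1 hj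
  obtain ⟨p', hp', rfl⟩ := mem_image.1 hj'
  have := cyl_le_len hp hp'
  exact cyl_eq huv (by omega)

/-- `Valid.two_diam_le` for the two coordinates (`wt ≠ 0` gives `Bal`). -/
lemma two_len_le {x θ : ℝ} {C : Finset (Atom (ℤ × ℤ))} (hC : Valid eP C)
    (hw : wt P eP x θ Set.univ C ≠ 0) : 2 * len (SS (asupp eP) C) ≤ ∑ α ∈ C, asz α := by
  have hB : Bal eP C.toRight.toRight := by
    by_contra hB
    exact hw (by simp [wt, hB])
  have h1 := hC.two_diam_le hB (AddMonoidHom.fst ℤ ℤ) fun k => by fin_cases k <;> simp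
  have h2 := hC.two_diam_le hB (AddMonoidHom.snd ℤ ℤ) fun k => by fin_cases k <;> simp
  have h3 := card_filter_add_card_filter_not (s := C.toRight.toRight)
    fun b => AddMonoidHom.fst ℤ ℤ (eP b.2) = 1
  have h4 : (C.toRight.toRight.filter fun b => AddMonoidHom.snd ℤ ℤ (eP b.2) = 1).card ≤
      (C.toRight.toRight.filter fun b => ¬ AddMonoidHom.fst ℤ ℤ (eP b.2) = 1).card := by
    refine card_le_card (monotone_filter_right _ ?_)
    rintro ⟨j, k⟩ -
    fin_cases k <;> simp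
  rw [sites, image_image] at h1 h2
  rw [sum_sum_eq_sum_toLeft_add_sum_toRight, sum_sum_eq_sum_toLeft_add_sum_toRight]
  simp only [asz, ← mul_sum, sum_const, smul_eq_mul, mul_one]
  have h5 : len (SS (asupp eP) C) = diam ((SS (asupp eP) C).image
      (AddMonoidHom.fst ℤ ℤ ∘ Prod.fst)) + diam ((SS (asupp eP) C).image
      (AddMonoidHom.snd ℤ ℤ ∘ Prod.fst)) := rfl
  omega

lemma cyl_mor (u : ℤ × ℤ) : Mor eP eP fun v => v + u := fun _ _ => add_right_comm _ _ _

lemma cyl_shift {n : ℕ} {c c' : ℤ} {u : ℤ × ℤ} (C : Finset (Atom (ℤ × ℤ)))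
    (h : u.1 + n * u.2 + c = c') :
    mapPoly (pr n c) (mapPoly (fun v => v + u) C) = mapPoly (pr n c') C := by
  rw [mapPoly_comp]
  congr 1
  funext v
  simp only [Function.comp, pr, Prod.fst_add, Prod.snd_add, ← h]
  ring

lemma cyl_len (u : ℤ × ℤ) (C : Finset (Atom (ℤ × ℤ))) :
    len (SS (asupp eP) (mapPoly (fun v => v + u) C)) ≤ len (SS (asupp eP) C) := by
  rw [SS_map (cyl_mor u)]
  refine add_le_add (diam_le ?_) (diam_le ?_) <;>
  · simp only [forall_mem_image]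
    intro a ha b hb
    refine le_of_eq_of_le ?_ (le_diam (mem_image_of_mem _ ha) (mem_image_of_mem _ hb))
    simp

/-- Translate the lift given by `Small`: translations `v ↦ v + u` are `Mor eP eP`, keep `len`,
and `pr n c (v + u) = pr n 0 v` when `u.1 + n * u.2 + c = 0`. -/
lemma Small.lift {n : ℕ} (c : ℤ) {C : Finset (Atom ℤ)} (h : Small n C) (q : (ℤ × ℤ) × Bool)
    (hq : Prod.map (pr n c) id q ∈ SS (asupp (eC n)) C) :
    ∃ C', Valid eP C' ∧ mapPoly (pr n c) C' = C ∧ q ∈ SS (asupp eP) C' ∧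
      len (SS (asupp eP) C') < n - 2 := by
  obtain ⟨C', hV, hl, rfl⟩ := h
  rw [SS_map (mor_pr n 0)] at hq
  obtain ⟨q', hq', he⟩ := mem_image.1 hq
  obtain ⟨he1, he2⟩ := Prod.ext_iff.1 he
  simp only [Prod.map, id, pr] at he1 he2
  refine ⟨_, hV.map (cyl_mor (q.1 - q'.1)), cyl_shift _ (by simp; linarith), ?_,
    (cyl_len _ _).trans_lt hl⟩
  rw [SS_map (cyl_mor _)]
  exact mem_image.2 ⟨q', hq', Prod.ext (by simp) he2⟩

lemma small_map {n : ℕ} (c : ℤ) {C : Finset (Atom (ℤ × ℤ))} (hC : Valid eP C)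
    (h : len (SS (asupp eP) C) < n - 2) : Small n (mapPoly (pr n c) C) := by
  exact ⟨_, hC.map (cyl_mor (c, 0)), (cyl_len _ _).trans_lt h, cyl_shift _ (by simp)⟩

lemma cyl_img {α β : Type*} [DecidableEq β] {f : α → β} {T : Set α} (hf : Set.InjOn f T)
    {X Y : Finset α} (hX : ∀ x ∈ X, x ∈ T) (hY : ∀ x ∈ Y, x ∈ T) (h : X.image f = Y.image f) :
    X = Y := by
  ext x
  constructor
  · intro hx
    obtain ⟨y, hy, he⟩ := mem_image.1 (h ▸ mem_image_of_mem f hx)
    exact hf (hY y hy) (hX x hx) he ▸ hy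
  · intro hx
    obtain ⟨y, hy, he⟩ := mem_image.1 (h.symm ▸ mem_image_of_mem f hx)
    exact hf (hX y hy) (hY x hx) he ▸ hy

lemma cyl_atom {π : ℤ × ℤ → ℤ} {T : Finset (ℤ × ℤ)} (hπ : Set.InjOn π T) :
    Set.InjOn (mapAtom π) {α | ∀ p ∈ asupp eP α, p.1 ∈ T} := by
  have own : ∀ {X : Finset (ℤ × ℤ)} {j : ℤ × ℤ}, j ∈ X → j ∈ SS (tri eP) X := fun hj =>
    mem_SS.2 ⟨_, hj, mem_insert_self _ _⟩
  rintro (X | X | ⟨j, k⟩) h (Y | Y | ⟨j', k'⟩) h' he <;>
    simp only [mapAtom, Sum.map_inl, Sum.map_inr, Sum.inl.injEq, Sum.inr.injEq, reduceCtorEq,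
      Prod.map, id, Prod.mk.injEq] at he ⊢
  · exact cyl_img hπ (fun x hx => h (x, true) (mk_mem_product (own hx) (mem_univ _)))
      (fun x hx => h' (x, true) (mk_mem_product (own hx) (mem_univ _))) he
  · exact cyl_img hπ (fun x hx => h (x, true) (mk_mem_product (own hx) (mem_singleton_self _)))
      (fun x hx => h' (x, true) (mk_mem_product (own hx) (mem_singleton_self _))) he
  · exact ⟨hπ (h (j, false) (mem_insert_self _ _)) (h' (j', false) (mem_insert_self _ _)) he.1,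
      he.2⟩

/-- The two supports have the same image (`SS_map`).  Show by `Valid.induction` from `q.1` that
every site of `C` is a site of `C'`: a site of `C'` with the same image as `j ± eP k`,
`j ∈ insert q.1 (sites C')`, has first coordinate closer than `n`, hence is `j ± eP k`.  So
`pr n c` is injective on `sites C ∪ sites C' = sites C'`, and `mapAtom (pr n c)` is injective on
the atoms whose sites lie there. -/
lemma lift_unique {n : ℕ} (c : ℤ) {C C' : Finset (Atom (ℤ × ℤ))} (hC : Valid eP C)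
    (hC' : Valid eP C') (h : mapPoly (pr n c) C = mapPoly (pr n c) C') {q : (ℤ × ℤ) × Bool}
    (hq : q ∈ SS (asupp eP) C) (hl : len (insert q (SS (asupp eP) C')) < n - 2) : C = C' := by
  have hS := congrArg (SS (asupp (eC n))) h
  rw [SS_map (mor_pr n c), SS_map (mor_pr n c)] at hS
  have near : ∀ j ∈ sites eP C, ∀ a ∈ insert q (SS (asupp eP) C'), (j.1 - a.1.1).natAbs ≤ 1 →
      j ∈ sites eP C' := by
    intro j hj a ha hja
    obtain ⟨p, hp, rfl⟩ := mem_image.1 hj
    obtain ⟨p', hp', he⟩ := mem_image.1 (hS ▸ mem_image_of_mem (Prod.map (pr n c) id) hp)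
    have h1 := cyl_le_len ha (mem_insert_of_mem hp')
    have h2 : p'.1 = p.1 := cyl_eq (congrArg Prod.fst he) (by omega)
    exact h2 ▸ mem_image_of_mem _ hp'
  have hk : ∀ k, (eP k).1.natAbs ≤ 1 := fun k => by fin_cases k <;> simp
  have hsub : ∀ j ∈ sites eP C, j ∈ sites eP C' := by
    refine hC.induction _ (mem_image_of_mem _ hq)
      (near _ (mem_image_of_mem _ hq) q (mem_insert_self _ _) (by simp)) fun k j h1 h2 => ?_
    constructor
    · intro h3
      obtain ⟨p, hp, rfl⟩ := mem_image.1 h3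
      exact near _ h2 p (mem_insert_of_mem hp) (by simpa using hk k)
    · intro h3
      obtain ⟨p, hp, he⟩ := mem_image.1 h3
      exact near _ h1 p (mem_insert_of_mem hp) (by simpa [he] using hk k)
  have hinj : Set.InjOn (pr n c) (sites eP C') := by
    intro u hu v hv huv
    obtain ⟨p, hp, rfl⟩ := mem_image.1 (mem_coe.1 hu)
    obtain ⟨p', hp', rfl⟩ := mem_image.1 (mem_coe.1 hv)
    have := cyl_le_len (mem_insert_of_mem (b := q) hp) (mem_insert_of_mem hp')
    exact cyl_eq huv (by omega)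
  exact cyl_img (cyl_atom hinj)
    (fun α hα p hp => hsub _ (mem_image_of_mem _ (mem_SS.2 ⟨α, hα, hp⟩)))
    (fun α hα p hp => mem_image_of_mem _ (mem_SS.2 ⟨α, hα, hp⟩)) h

theorem cover {n : ℕ} (c : ℤ) (A : Finset ℤ) {x θ Y : ℝ} (hR : RB P (eC n) x θ)
    (hR' : RB P eP x θ) (hθ : 0 ≤ θ) (hY : 1 ≤ Y) (htY : P.t * Y ≤ 1 / 100000)
    (hθY : θ * Y ^ 12 ≤ 1 / 10 ^ 13) :
    Cover (SS (asupp eP)) (wt P eP x θ Set.univ) {C | Valid eP C} (SS (asupp (eC n)))
      (wt P (eC n) x θ Set.univ) (spolys n A) (mapPoly (pr n c)) (Prod.map (pr n c) id) len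
      (n - 2) (Y ^ 2) := by
  classical
  refine ⟨one_le_pow₀ hY, fun _ _ => len_mono, fun _ _ => len_union, fun _ h => Valid.nonempty h,
    fun δ _ h => ⟨wt_map (mor_pr n c) (injOn_pr c h) x θ, SS_map (mor_pr n c) δ⟩,
    fun δ hδ q hq => Small.lift c (mem_filter.1 hδ).2 q hq,
    fun δ hδ δ' hδ' h q hq _ hl => lift_unique c hδ hδ' h hq hl, fun N hN q => ?_,
    kp_of_valid hR hθ hY htY hθY _ _ fun C hC => (mem_polys.1 (mem_filter.1 hC).1).1⟩
  refine le_trans (sum_le_sum fun C hC => ?_) (sum_wt_le hR' hθ hY htY hθY Set.univ N hN q)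
  by_cases hw : wt P eP x θ Set.univ C = 0
  · simp [hw]
  · rw [← pow_mul]
    exact mul_le_mul_of_nonneg_left
      (pow_le_pow_right₀ hY (two_len_le (hN C (mem_filter.1 hC).1) hw)) (by positivity)

end Pool.Agent.MP_646035_al.H91

end

-- part MP_646035_al.H91.Cyc
section

/-!
Polymers that are not small; the shortest cycles.
-/

namespace Pool.Agent.MP_646035_al.H91

open Finset

variable {P : Par}

lemma cyc_len (C : Finset (Atom (ℤ × ℤ))) : len (SS (asupp eP) C) =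
    diam ((sites eP C).image (AddMonoidHom.fst ℤ ℤ)) +
      diam ((sites eP C).image (AddMonoidHom.snd ℤ ℤ)) := by
  rw [sites, image_image, image_image]
  rfl

/-- Some residue is not the residue of a member of a small set. -/
lemma cyc_residue {n : ℕ} {S : Finset ℤ} (h : S.card < n) :
    ∃ ρ : ℤ, ∀ j ∈ S, (j - ρ) % n ≠ 0 := by
  have h1 : (S.image fun j => j % (n : ℤ)).card < (Ico (0 : ℤ) n).card := by
    rw [Int.card_Ico, sub_zero, Int.toNat_natCast]
    exact card_image_le.trans_lt h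
  obtain ⟨ρ, hρ, hρ'⟩ := exists_mem_notMem_of_card_lt_card h1
  rw [mem_Ico] at hρ
  refine ⟨ρ, fun j hj h0 => hρ' (mem_image.2 ⟨j, hj, ?_⟩)⟩
  rw [← Int.emod_emod_of_dvd, Int.emod_eq_emod_iff_emod_sub_eq_zero.2 h0,
    Int.emod_eq_of_lt hρ.1 hρ.2, Int.emod_eq_of_lt hρ.1 hρ.2]
  exact dvd_rfl

/-- Some residue `ρ` modulo `n` is not the residue of a site.  The section
`j ↦ ((j - ρ) % n + ρ, (j - ρ) / n)` respects the directions on the sites (`Valid.map_of_local`),
`pr n 0` undoes it, and `Valid.diam_lt` bounds both diameters of the lift. -/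
lemma small_of_card {n : ℕ} {C : Finset (Atom ℤ)} (hC : Valid (eC n) C)
    (h : 2 * (sites (eC n) C).card < n) : Small n C := by
  obtain ⟨ρ, hρ⟩ := cyc_residue (n := n) (S := sites (eC n) C) (by omega)
  have hn : (0 : ℤ) < n := by omega
  obtain ⟨hV, hS⟩ := hC.map_of_local (e := eP)
    (π := fun j : ℤ => ((j - ρ) % n + ρ, (j - ρ) / n)) (by
      intro k j hj _
      have h0 := Int.emod_nonneg (j - ρ) hn.ne'
      have h1 := Int.emod_lt_of_pos (j - ρ) hn
      have h2 := Int.emod_add_mul_ediv (j - ρ) n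
      have h3 := hρ j hj
      fin_cases k
      · obtain ⟨h4, h5⟩ := (Int.ediv_emod_unique (a := j - 1 - ρ) (r := (j - ρ) % n - 1)
          (q := (j - ρ) / n) hn).2 ⟨by linarith, by omega, by omega⟩
        refine Prod.ext ?_ ?_
        · change (j - 1 - ρ) % n + ρ = (j - ρ) % n + ρ - 1
          rw [h5]
          ring
        · change (j - 1 - ρ) / n = (j - ρ) / n - 0
          rw [h4, sub_zero]
      · obtain ⟨h4, h5⟩ := (Int.ediv_emod_unique (a := j - n - ρ) (r := (j - ρ) % n)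
          (q := (j - ρ) / n - 1) hn).2 ⟨by linarith, h0, h1⟩
        refine Prod.ext ?_ ?_
        · change (j - n - ρ) % n + ρ = (j - ρ) % n + ρ - 0
          rw [h5, sub_zero]
        · exact h4)
  refine ⟨_, hV, ?_, ?_⟩
  · have h1 := hV.diam_lt (AddMonoidHom.fst ℤ ℤ) fun k => by fin_cases k <;> simp
    have h2 := hV.diam_lt (AddMonoidHom.snd ℤ ℤ) fun k => by fin_cases k <;> simp
    have h3 : (sites eP (mapPoly (fun j : ℤ => ((j - ρ) % n + ρ, (j - ρ) / n)) C)).card ≤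
        (sites (eC n) C).card := by
      have e : sites eP (mapPoly (fun j : ℤ => ((j - ρ) % n + ρ, (j - ρ) / n)) C) =
          (sites (eC n) C).image fun j : ℤ => ((j - ρ) % n + ρ, (j - ρ) / n) := by
        rw [sites, hS, sites, image_image, image_image]
        rfl
      rw [e]
      exact card_image_le
    rw [cyc_len]
    omega
  · have e : (pr n 0 ∘ fun j : ℤ => ((j - ρ) % n + ρ, (j - ρ) / n)) = id := by
      funext j
      have h2 := Int.emod_add_mul_ediv (j - ρ) n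
      change (j - ρ) % n + ρ + n * ((j - ρ) / n) + 0 = j
      linarith
    rw [mapPoly_comp, e, mapPoly_id]

/-- The shortest cycle around the helix. -/
noncomputable def cyc (n : ℕ) (i : ℤ) : Finset (Atom ℤ) :=
  (insert (i + n, 1) ((Ioc i (i + n)).image fun j => (j, (0 : Fin 2)))).image
    fun b => Sum.inr (Sum.inr b)

lemma cyc_mem {n : ℕ} {i : ℤ} {α : Atom ℤ} : α ∈ cyc n i ↔ α = Sum.inr (Sum.inr (i + n, 1)) ∨
    ∃ j, i < j ∧ j ≤ i + n ∧ α = Sum.inr (Sum.inr (j, 0)) := by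
  simp only [cyc, image_insert, image_image, mem_insert, mem_image, mem_Ioc, Function.comp]
  exact or_congr_right (exists_congr fun j => by rw [and_assoc, eq_comm])

lemma cyc_supp_zero (n : ℕ) (j : ℤ) :
    asupp (eC n) (Sum.inr (Sum.inr (j, 0))) = {(j, false), (j - 1, false)} := rfl

lemma cyc_supp_one (n : ℕ) (i : ℤ) :
    asupp (eC n) (Sum.inr (Sum.inr (i + n, 1))) = {(i + n, false), (i, false)} := by
  change ({(i + n, false), (i + n - n, false)} : Finset (ℤ × Bool)) = _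
  rw [add_sub_cancel_right]

lemma SS_cyc {n : ℕ} (hn : 1 ≤ n) (i : ℤ) :
    SS (asupp (eC n)) (cyc n i) = Icc i (i + n) ×ˢ {false} := by
  ext ⟨j, b⟩
  rw [mem_SS, mem_product, mem_Icc, mem_singleton]
  constructor
  · rintro ⟨α, hα, hj⟩
    rcases cyc_mem.1 hα with rfl | ⟨k, h1, h2, rfl⟩
    · rw [cyc_supp_one, mem_insert, mem_singleton, Prod.mk.injEq, Prod.mk.injEq] at hj
      rcases hj with ⟨rfl, rfl⟩ | ⟨rfl, rfl⟩
      · exact ⟨⟨by omega, le_rfl⟩, rfl⟩
      · exact ⟨⟨le_rfl, by omega⟩, rfl⟩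
    · rw [cyc_supp_zero, mem_insert, mem_singleton, Prod.mk.injEq, Prod.mk.injEq] at hj
      rcases hj with ⟨rfl, rfl⟩ | ⟨rfl, rfl⟩
      · exact ⟨⟨h1.le, h2⟩, rfl⟩
      · exact ⟨⟨by omega, by omega⟩, rfl⟩
  · rintro ⟨⟨h1, h2⟩, rfl⟩
    rcases h1.eq_or_lt with rfl | h
    · exact ⟨_, cyc_mem.2 (.inl rfl), by simp [cyc_supp_one]⟩
    · exact ⟨_, cyc_mem.2 (.inr ⟨j, h, h2, rfl⟩), by simp [cyc_supp_zero]⟩

lemma valid_cyc {n : ℕ} (hn : 1 ≤ n) (i : ℤ) : Valid (eC n) (cyc n i) := by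
  refine ⟨conn_of_induction (cyc_mem.2 (.inl rfl)) fun D hD h0 hcl => ?_, fun α hα => ?_⟩
  · have key : ∀ j, i + 1 ≤ j → j ≤ i + n → Sum.inr (Sum.inr (j, 0)) ∈ D := by
      intro j hj
      induction j, hj using Int.leInduction with
      | base =>
        intro h
        refine hcl _ h0 _ (cyc_mem.2 (.inr ⟨_, by omega, h, rfl⟩)) ?_
        exact not_disjoint_iff.2 ⟨(i, false), by simp [cyc_supp_one], by simp [cyc_supp_zero]⟩
      | succ j hj ih =>
        intro h
        refine hcl _ (ih (by omega)) _ (cyc_mem.2 (.inr ⟨_, by omega, h, rfl⟩)) ?_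
        exact not_disjoint_iff.2 ⟨(j, false), by simp [cyc_supp_zero], by simp [cyc_supp_zero]⟩
    refine Subset.antisymm hD fun α hα => ?_
    rcases cyc_mem.1 hα with rfl | ⟨j, h1, h2, rfl⟩
    · exact h0
    · exact key j h1 h2
  · rcases cyc_mem.1 hα with rfl | ⟨j, -, -, rfl⟩
    · trivial
    · trivial

lemma cyc_notMem (n : ℕ) (i : ℤ) :
    ((i + n, 1) : ℤ × Fin 2) ∉ (Ioc i (i + n)).image fun j => (j, (0 : Fin 2)) := by
  simp

lemma cyc_inj (S : Finset ℤ) : Set.InjOn (fun j : ℤ => (j, (0 : Fin 2))) S :=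
  fun _ _ _ _ h => congrArg Prod.fst h

lemma cyc_bal {n : ℕ} (hn : 1 ≤ n) (i : ℤ) :
    Bal (eC n) (insert (i + n, 1) ((Ioc i (i + n)).image fun j => (j, (0 : Fin 2)))) := by
  intro v
  rw [card_filter, card_filter, sum_insert (cyc_notMem n i), sum_insert (cyc_notMem n i),
    sum_image (cyc_inj _), sum_image (cyc_inj _)]
  simp only [eC_zero, eC_one, add_sub_cancel_right, sub_eq_iff_eq_add, sum_ite_eq', mem_Ioc]
  rw [Nat.even_iff]
  split_ifs <;> omega

lemma wt_cyc {n : ℕ} (hn : 1 ≤ n) (i : ℤ) (x θ : ℝ) :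
    wt P (eC n) x θ Set.univ (cyc n i) = P.t ^ (n + 1) := by
  have h1 : (cyc n i).toLeft = ∅ := by
    ext X
    simp [cyc_mem]
  have h2 : (cyc n i).toRight.toLeft = ∅ := by
    ext X
    simp [cyc_mem]
  have h3 : (cyc n i).toRight.toRight =
      insert (i + n, 1) ((Ioc i (i + n)).image fun j => (j, (0 : Fin 2))) := by
    ext b
    simp only [cyc, mem_toRight, mem_image, Sum.inr.injEq, exists_eq_right]
  unfold wt
  rw [h1, h2, h3, if_pos ⟨by simp [Compat], by simp [Compat], by simp, cyc_bal hn i⟩,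
    filter_true_of_mem (by simp), card_insert_of_notMem (cyc_notMem n i),
    card_image_of_injOn (cyc_inj _)]
  simp

/-- The sites of a small polymer have fewer than `n` residues modulo `n`. -/
lemma not_small_cyc {n : ℕ} (hn : 1 ≤ n) (i : ℤ) : ¬ Small n (cyc n i) := by
  rintro ⟨C, hC, hl, he⟩
  have hS := SS_map (mor_pr n 0) C
  rw [he, SS_cyc hn] at hS
  have hn' : (0 : ℤ) < n := by omega
  obtain ⟨q, hq, hmin⟩ := exists_min_image (SS (asupp eP) C) (fun q => q.1.1) hC.nonempty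
  have h0 := Int.emod_nonneg (q.1.1 - 1 - i) hn'.ne'
  have h1 := Int.emod_lt_of_pos (q.1.1 - 1 - i) hn'
  have h2 := Int.emod_add_mul_ediv (q.1.1 - 1 - i) n
  have h3 : (i + (q.1.1 - 1 - i) % n, false) ∈ Icc i (i + n) ×ˢ ({false} : Finset Bool) :=
    mem_product.2 ⟨mem_Icc.2 ⟨by omega, by omega⟩, mem_singleton_self _⟩
  rw [hS] at h3
  obtain ⟨v, hv, hvq⟩ := mem_image.1 h3
  have h4 : v.1.1 + n * v.1.2 + 0 = i + (q.1.1 - 1 - i) % n := congrArg Prod.fst hvq
  have h5 := hmin v hv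
  have h6 : (v.1.1 - q.1.1).natAbs ≤ diam ((SS (asupp eP) C).image fun q => q.1.1) :=
    le_diam (mem_image_of_mem _ hv) (mem_image_of_mem _ hq)
  have h7 : (n : ℤ) ∣ v.1.1 - q.1.1 + 1 :=
    ⟨-(v.1.2 + (q.1.1 - 1 - i) / n), by linarith⟩
  have h8 := Int.le_of_dvd (by omega) h7
  unfold len at hl
  omega

end Pool.Agent.MP_646035_al.H91

end

-- part MP_646035_al.H91.Bulk
section

/-!
The small polymers of the helix have almost the free energy of the plane.
-/

namespace Pool.Agent.MP_646035_al.H91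

open Finset

variable {P : Par}

/-- The hypotheses under which all expansions converge. -/
structure Conv (P : Par) (x θ Y : ℝ) : Prop where
  rbC : ∀ n, 1 ≤ n → RB P (eC n) x θ
  rbP : RB P eP x θ
  hθ : 0 ≤ θ
  hY : 1 ≤ Y
  htY : P.t * Y ≤ 1 / 100000
  hθY : θ * Y ^ 12 ≤ 1 / 10 ^ 13

noncomputable def sq (R : ℕ) : Finset (ℤ × ℤ) := Ico (0 : ℤ) R ×ˢ Ico (0 : ℤ) R

/-- The order of the plane that refines the order of the helix. -/
def rk (n : ℕ) (v : ℤ × ℤ) : ℤ ×ₗ ℤ := toLex (v.1 + n * v.2, v.2)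

lemma rk_injective (n : ℕ) : Function.Injective (rk n) := by
  rintro ⟨u1, u2⟩ ⟨v1, v2⟩ h
  have h1 : ((u1 + n * u2, u2) : ℤ × ℤ) = (v1 + n * v2, v2) := toLex.injective h
  obtain ⟨h2, h3⟩ := Prod.mk.inj h1
  subst h3
  have : u1 = v1 := by linarith
  rw [this]

lemma bulk_rk_iff {n : ℕ} {v u : ℤ × ℤ} (h : |u.1 - v.1| < n) :
    rk n v ≤ rk n u ↔ v.1 + n * v.2 ≤ u.1 + n * u.2 := by
  unfold rk
  rw [Prod.Lex.toLex_le_toLex]
  refine ⟨fun hh => hh.elim le_of_lt fun h1 => h1.1.le, fun hh => ?_⟩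
  rcases hh.lt_or_eq with h1 | h1
  · exact Or.inl h1
  · refine Or.inr ⟨h1, ?_⟩
    by_contra hc
    have h2 : u.2 + 1 ≤ v.2 := by
      have : ¬ v.2 ≤ u.2 := hc
      omega
    have h3 : (n : ℤ) * (u.2 + 1) ≤ n * v.2 := mul_le_mul_of_nonneg_left h2 (by positivity)
    have h4 := (abs_lt.1 h).2
    nlinarith

lemma bulk_near {v : ℤ × ℤ} {A : Finset ((ℤ × ℤ) × Bool)} {k : ℕ}
    (h : len (({v} : Finset (ℤ × ℤ)) ×ˢ (univ : Finset Bool) ∪ A) < k) {q : (ℤ × ℤ) × Bool}
    (hq : q ∈ A) : |q.1.1 - v.1| < k ∧ |q.1.2 - v.2| < k := by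
  have hv : ((v, true) : (ℤ × ℤ) × Bool) ∈
      ({v} : Finset (ℤ × ℤ)) ×ˢ (univ : Finset Bool) ∪ A := by simp
  have hq' : q ∈ ({v} : Finset (ℤ × ℤ)) ×ˢ (univ : Finset Bool) ∪ A := mem_union_right _ hq
  have h1 := le_diam (mem_image_of_mem (fun q : (ℤ × ℤ) × Bool => q.1.1) hq')
    (mem_image_of_mem (fun q : (ℤ × ℤ) × Bool => q.1.1) hv)
  have h2 := le_diam (mem_image_of_mem (fun q : (ℤ × ℤ) × Bool => q.1.2) hq')
    (mem_image_of_mem (fun q : (ℤ × ℤ) × Bool => q.1.2) hv)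
  unfold len at h
  simp only at h1 h2
  rw [← Int.natCast_natAbs, ← Int.natCast_natAbs]
  constructor <;> omega

lemma bulk_len_zero (v : ℤ × ℤ) : len (({v} : Finset (ℤ × ℤ)) ×ˢ (univ : Finset Bool)) = 0 := by
  have h1 : diam ((({v} : Finset (ℤ × ℤ)) ×ˢ (univ : Finset Bool)).image fun q => q.1.1) ≤ 0 := by
    refine diam_le fun a ha b hb => ?_
    obtain ⟨q, hq, rfl⟩ := mem_image.1 ha
    obtain ⟨q', hq', rfl⟩ := mem_image.1 hb
    rw [mem_singleton.1 (mem_product.1 hq).1, mem_singleton.1 (mem_product.1 hq').1]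
    simp
  have h2 : diam ((({v} : Finset (ℤ × ℤ)) ×ˢ (univ : Finset Bool)).image fun q => q.1.2) ≤ 0 := by
    refine diam_le fun a ha b hb => ?_
    obtain ⟨q, hq, rfl⟩ := mem_image.1 ha
    obtain ⟨q', hq', rfl⟩ := mem_image.1 hb
    rw [mem_singleton.1 (mem_product.1 hq).1, mem_singleton.1 (mem_product.1 hq').1]
    simp
  unfold len
  omega

lemma bulk_mem_above {Q : Type*} [AddCommGroup Q] [DecidableEq Q] {e : Fin 2 → Q}
    {U : Finset (Finset (Atom Q))} {A : Finset Q} {C : Finset (Atom Q)} :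
    C ∈ above (SS (asupp e)) Prod.fst U A ↔ C ∈ U ∧ ∀ q ∈ SS (asupp e) C, q.1 ∈ A := by
  simp [above]

lemma bulk_sites_subset {Q : Type*} [AddCommGroup Q] [DecidableEq Q] {e : Fin 2 → Q}
    {A : Finset Q} {C : Finset (Atom Q)} :
    sites e C ⊆ A ↔ ∀ q ∈ SS (asupp e) C, q.1 ∈ A := by
  simp [sites, image_subset_iff]

lemma bulk_mem_spolys {n : ℕ} {A : Finset ℤ} {C : Finset (Atom ℤ)} :
    C ∈ spolys n A ↔ C ∈ polys (eC n) A ∧ Small n C := by
  classical
  simp [spolys]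

/-- The free energy per site of the square of side `R`. -/
noncomputable def pl (P : Par) (x θ : ℝ) (R : ℕ) : ℝ :=
  Real.log (Xi (SS (asupp eP)) (wt P eP x θ Set.univ) (polys eP (sq R))) / (R : ℝ) ^ 2

/-- `Cover.compare` for `cover` with `c = i - v.1 - n * v.2`, `H = A = {v} ×ˢ univ`
(`len H = 0`).  If `len (H ∪ SS δ) < n - 2` the sites of `δ` are closer than `n` to `v` in both
coordinates, so they lie in the square, their images are below `b`, `mapPoly δ` is small
(`small_map`), and `rk n v ≤ rk n u ↔ i ≤ pr n c u` for these sites. -/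
lemma Dl_compare {x θ Y : ℝ} (h : Conv P x θ Y) {n R : ℕ} (hn : 3 ≤ n) {a b i : ℤ}
    {v : ℤ × ℤ} (hv : (n : ℤ) ≤ v.1 ∧ v.1 + n ≤ R ∧ (n : ℤ) ≤ v.2 ∧ v.2 + n ≤ R)
    (hi : a ≤ i ∧ i + n * (n + 1) < b) :
    |Dl (SS (asupp eP)) (wt P eP x θ Set.univ)
        (above (SS (asupp eP)) Prod.fst (polys eP (sq R)) ((sq R).filter fun u => rk n v ≤ rk n u))
        ({v} ×ˢ univ) -
      Dl (SS (asupp (eC n))) (wt P (eC n) x θ Set.univ)
        (above (SS (asupp (eC n))) Prod.fst (spolys n (Ico a b)) ((Ico a b).filter fun u => i ≤ u))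
        ({i} ×ˢ univ)| ≤ 2 / (Y ^ 2) ^ (n - 2) := by
  classical
  set c : ℤ := i - v.1 - n * v.2 with hc
  have hcov := cover (P := P) (n := n) c (Ico a b) (h.rbC n (by omega)) h.rbP h.hθ h.hY h.htY h.hθY
  have himg : (({v} : Finset (ℤ × ℤ)) ×ˢ (univ : Finset Bool)).image (Prod.map (pr n c) id)
      = ({i} : Finset ℤ) ×ˢ (univ : Finset Bool) := by
    have hp : pr n c v = i := by simp only [pr, hc]; ring
    ext ⟨j, s⟩
    simp only [mem_image, mem_product, mem_singleton, mem_univ, and_true]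
    constructor
    · rintro ⟨⟨u, s'⟩, hu, he⟩
      simp only at hu
      subst hu
      exact (Prod.mk.inj he).1.symm.trans hp
    · rintro rfl
      exact ⟨(v, s), rfl, by simp [hp]⟩
  have key := hcov.compare
    (above (SS (asupp eP)) Prod.fst (polys eP (sq R)) ((sq R).filter fun u => rk n v ≤ rk n u))
    (fun δ hδ => (mem_polys.1 (bulk_mem_above.1 hδ).1).1)
    (above (SS (asupp (eC n))) Prod.fst (spolys n (Ico a b)) ((Ico a b).filter fun u => i ≤ u))
    (filter_subset _ _) ({v} ×ˢ univ) ({v} ×ˢ univ) subset_rfl ?_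
  · rw [himg, bulk_len_zero] at key
    refine key.trans (le_of_eq ?_)
    simp [div_eq_mul_inv]
  · intro δ hδ hl
    have hval : Valid eP δ := hδ
    have hsm : len (SS (asupp eP) δ) < n - 2 := lt_of_le_of_lt (len_mono subset_union_right) hl
    have hnear : ∀ q ∈ SS (asupp eP) δ, |q.1.1 - v.1| < n ∧ |q.1.2 - v.2| < n := by
      intro q hq
      have := bulk_near hl hq
      have h2 : ((n - 2 : ℕ) : ℤ) ≤ n := by omega
      exact ⟨this.1.trans_le h2, this.2.trans_le h2⟩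
    have hsq : ∀ q ∈ SS (asupp eP) δ, q.1 ∈ sq R := by
      intro q hq
      obtain ⟨h1, h2⟩ := hnear q hq
      rw [abs_lt] at h1 h2
      simp only [sq, mem_product, mem_Ico]
      omega
    have hlt : ∀ q ∈ SS (asupp eP) δ, pr n c q.1 < b := by
      intro q hq
      obtain ⟨h1, h2⟩ := hnear q hq
      rw [abs_lt] at h1 h2
      have h3 : (n : ℤ) * (q.1.2 - v.2) ≤ n * n :=
        mul_le_mul_of_nonneg_left h2.2.le (by positivity)
      simp only [pr, hc]
      nlinarith [hi.2]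
    have hiff : ∀ q ∈ SS (asupp eP) δ, rk n v ≤ rk n q.1 ↔ i ≤ pr n c q.1 := by
      intro q hq
      rw [bulk_rk_iff (hnear q hq).1]
      simp only [pr, hc]
      constructor <;> intro hh <;> linarith
    rw [bulk_mem_above, bulk_mem_above, bulk_mem_spolys, mem_polys, mem_polys, bulk_sites_subset,
      bulk_sites_subset, SS_map (mor_pr n c)]
    simp only [mem_filter, mem_Ico, forall_mem_image, Prod.map_fst]
    constructor
    · rintro ⟨-, h2⟩
      have h3 : ∀ q ∈ SS (asupp eP) δ, a ≤ pr n c q.1 ∧ pr n c q.1 < b := fun q hq =>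
        ⟨hi.1.trans ((hiff q hq).1 (h2 q hq).2), hlt q hq⟩
      exact ⟨⟨⟨hval.map (mor_pr n c), h3⟩, small_map c hval hsm⟩,
        fun q hq => ⟨h3 q hq, (hiff q hq).1 (h2 q hq).2⟩⟩
    · rintro ⟨-, h2⟩
      exact ⟨⟨hval, hsq⟩, fun q hq => ⟨hsq q hq, (hiff q hq).2 (h2 hq).2⟩⟩

lemma bulk_kpP {x θ Y : ℝ} (h : Conv P x θ Y) (A : Finset (ℤ × ℤ)) :
    KP (SS (asupp eP)) (wt P eP x θ Set.univ) (polys eP A) :=
  kp_of_valid h.rbP h.hθ h.hY h.htY h.hθY _ _ fun _ hC => (mem_polys.1 hC).1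

lemma bulk_kpC {x θ Y : ℝ} (h : Conv P x θ Y) {n : ℕ} (hn : 1 ≤ n) (A : Finset ℤ) :
    KP (SS (asupp (eC n))) (wt P (eC n) x θ Set.univ) (polys (eC n) A) :=
  kp_of_valid (h.rbC n hn) h.hθ h.hY h.htY h.hθY _ _ fun _ hC => (mem_polys.1 hC).1

lemma bulk_tele {Q κ : Type*} [AddCommGroup Q] [DecidableEq Q] [LinearOrder κ] {e : Fin 2 → Q}
    (w : Finset (Atom Q) → ℝ) {A : Finset Q} {U : Finset (Finset (Atom Q))} (hU : U ⊆ polys e A)
    (r : Q → κ) (hr : Function.Injective r) :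
    Real.log (Xi (SS (asupp e)) w U) = ∑ v ∈ A, Dl (SS (asupp e)) w
      (above (SS (asupp e)) Prod.fst U (A.filter fun u => r v ≤ r u)) ({v} ×ˢ univ) := by
  rw [← telescope (supp := SS (asupp e)) (w := w) (U := U) Prod.fst (fun v => {v} ×ˢ univ)
    (fun q v => by rw [mem_product]; simp) (fun γ hγ => (mem_polys.1 (hU hγ)).1.nonempty) r hr A]
  congr 2
  exact (filter_true_of_mem fun δ hδ => bulk_sites_subset.1 (mem_polys.1 (hU hδ)).2).symm

lemma bulk_Dl_two {Q : Type*} [AddCommGroup Q] [DecidableEq Q] {e : Fin 2 → Q}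
    {w : Finset (Atom Q) → ℝ} {U U' : Finset (Finset (Atom Q))} (h : KP (SS (asupp e)) w U)
    (hU : U' ⊆ U) (A : Finset Q) (v : Q) :
    |Dl (SS (asupp e)) w (above (SS (asupp e)) Prod.fst U' A) ({v} ×ˢ univ)| ≤ 2 := by
  have := h.Dl_le (Λ := above (SS (asupp e)) Prod.fst U' A) ((filter_subset _ _).trans hU)
    ({v} ×ˢ univ)
  simpa using this

lemma bulk_card_sq (R : ℕ) : ((sq R).card : ℝ) = (R : ℝ) ^ 2 := by
  simp [sq, sq]
  ring

lemma bulk_abs_pl {x θ Y : ℝ} (h : Conv P x θ Y) (R : ℕ) : |pl P x θ R| ≤ 2 := by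
  rcases Nat.eq_zero_or_pos R with rfl | hR
  · simp [pl]
  have hR' : (0 : ℝ) < (R : ℝ) ^ 2 := by positivity
  rw [pl, abs_div, abs_of_pos hR', div_le_iff₀ hR',
    bulk_tele _ subset_rfl (rk 0) (rk_injective 0)]
  refine (abs_sum_le_sum_abs _ _).trans ?_
  refine (sum_le_sum fun v _ => bulk_Dl_two (bulk_kpP h _) subset_rfl _ v).trans ?_
  rw [sum_const, nsmul_eq_mul, bulk_card_sq, mul_comm]

lemma bulk_sum_le {ι : Type*} [DecidableEq ι] (S B : Finset ι) (f : ι → ℝ) {ε c : ℝ} (hε : 0 ≤ ε)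
    (hc : 0 ≤ c) (h1 : ∀ i ∈ S, i ∉ B → f i ≤ ε) (h2 : ∀ i ∈ S, f i ≤ c) :
    ∑ i ∈ S, f i ≤ S.card * ε + B.card * c := by
  calc ∑ i ∈ S, f i ≤ ∑ i ∈ S, (ε + if i ∈ B then c else 0) := by
        refine sum_le_sum fun i hi => ?_
        split_ifs with hb
        · linarith [h2 i hi]
        · linarith [h1 i hi hb]
    _ ≤ _ := by
        rw [sum_add_distrib, sum_const, nsmul_eq_mul, ← sum_filter, sum_const, nsmul_eq_mul]
        refine add_le_add le_rfl (mul_le_mul_of_nonneg_right ?_ hc)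
        exact_mod_cast card_le_card fun i hi => (mem_filter.1 hi).2

/-- `telescope` in the square (order `rk n`) and in the interval; every `Dl` is at most `2` in
absolute value (`KP.Dl_le`, `kp_of_valid`), so `|pl| ≤ 2`; at most `4 n R` sites of the square and
at most `n (n + 1) + 1` sites of the interval fail the hypotheses of `Dl_compare`. -/
theorem bulk {x θ Y : ℝ} (h : Conv P x θ Y) {n R : ℕ} (hn : 3 ≤ n) (hR : 1 ≤ R) (a : ℤ)
    (M : ℕ) :
    |Real.log (Xi (SS (asupp (eC n))) (wt P (eC n) x θ Set.univ) (spolys n (Ico a (a + M))))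
        - M * pl P x θ R|
      ≤ M * (2 / (Y ^ 2) ^ (n - 2) + 16 * n / R) + 4 * (n * (n + 1) + 1) := by
  have hY : 0 < Y := lt_of_lt_of_le one_pos h.hY
  have hR0 : (0 : ℝ) < R := by exact_mod_cast hR
  have hR' : (0 : ℝ) < (R : ℝ) ^ 2 := by positivity
  have hsub : spolys n (Ico a (a + M)) ⊆ polys (eC n) (Ico a (a + M)) :=
    fun C hC => (bulk_mem_spolys.1 hC).1
  set ε : ℝ := 2 / (Y ^ 2) ^ (n - 2) with hε
  have hε0 : 0 ≤ ε := by positivity
  obtain ⟨D, hD⟩ : ∃ D : ℤ → ℝ, D = fun i => Dl (SS (asupp (eC n))) (wt P (eC n) x θ Set.univ)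
    (above (SS (asupp (eC n))) Prod.fst (spolys n (Ico a (a + M)))
      ((Ico a (a + M)).filter fun u => i ≤ u)) ({i} ×ˢ univ) := ⟨_, rfl⟩
  obtain ⟨D', hD'⟩ : ∃ D' : ℤ × ℤ → ℝ, D' = fun v => Dl (SS (asupp eP)) (wt P eP x θ Set.univ)
    (above (SS (asupp eP)) Prod.fst (polys eP (sq R)) ((sq R).filter fun u => rk n v ≤ rk n u))
      ({v} ×ˢ univ) := ⟨_, rfl⟩
  have e1 : Real.log (Xi (SS (asupp (eC n))) (wt P (eC n) x θ Set.univ)
      (spolys n (Ico a (a + M)))) = ∑ i ∈ Ico a (a + M), D i := by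
    rw [hD]
    exact bulk_tele _ hsub id Function.injective_id
  have e2 : pl P x θ R = (∑ v ∈ sq R, D' v) / (R : ℝ) ^ 2 := by
    rw [hD', pl, bulk_tele _ subset_rfl (rk n) (rk_injective n)]
  have b1 : ∀ i, |D i| ≤ 2 := fun i => by
    rw [hD]
    exact bulk_Dl_two (bulk_kpC h (by omega) _) hsub _ i
  have b2 : ∀ v, |D' v| ≤ 2 := fun v => by
    rw [hD']
    exact bulk_Dl_two (bulk_kpP h _) subset_rfl _ v
  have b3 := bulk_abs_pl h R
  set E : Finset ℤ := Ico (0 : ℤ) n ∪ Ico ((R : ℤ) - n) R with hE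
  have hEc : (E.card : ℝ) ≤ 2 * n := by
    have := card_union_le (Ico (0 : ℤ) n) (Ico ((R : ℤ) - n) R)
    simp only [Int.card_Ico, sub_zero, Int.toNat_natCast, sub_sub_cancel] at this
    have h2 : E.card ≤ 2 * n := this.trans (by omega)
    exact_mod_cast h2
  set B : Finset (ℤ × ℤ) := E ×ˢ Ico (0 : ℤ) R ∪ Ico (0 : ℤ) R ×ˢ E with hB
  have hBc : (B.card : ℝ) ≤ 4 * n * R := by
    have := card_union_le (E ×ˢ Ico (0 : ℤ) R) (Ico (0 : ℤ) R ×ˢ E)
    simp only [card_product, Int.card_Ico, sub_zero, Int.toNat_natCast] at this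
    have h2 : (B.card : ℝ) ≤ E.card * R + R * E.card := by exact_mod_cast this
    nlinarith
  have good : ∀ i ∈ Ico a (a + M), i ∉ Ico (a + M - n * (n + 1)) (a + M) →
      |D i - pl P x θ R| ≤ ε + 16 * n / R := by
    intro i hi hb
    have hi' : a ≤ i ∧ i + n * (n + 1) < a + M := by
      rw [mem_Ico] at hi hb
      refine ⟨hi.1, ?_⟩
      by_contra hc
      exact hb ⟨by linarith [not_lt.1 hc], hi.2⟩
    have e3 : D i - pl P x θ R = (∑ v ∈ sq R, (D i - D' v)) / (R : ℝ) ^ 2 := by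
      rw [e2, sum_sub_distrib, sum_const, nsmul_eq_mul, bulk_card_sq]
      field_simp
    rw [e3, abs_div, abs_of_pos hR', div_le_iff₀ hR']
    refine (abs_sum_le_sum_abs _ _).trans ?_
    refine (bulk_sum_le (sq R) B _ hε0 (c := 4) (by norm_num) (fun v hv hvB => ?_)
      fun v _ => ?_).trans ?_
    · have hv' : (n : ℤ) ≤ v.1 ∧ v.1 + n ≤ R ∧ (n : ℤ) ≤ v.2 ∧ v.2 + n ≤ R := by
        simp only [hB, hE, sq, mem_union, mem_product, mem_Ico] at hv hvB
        omega
      rw [abs_sub_comm, hD, hD']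
      exact Dl_compare h hn hv' hi'
    · linarith [abs_sub (D i) (D' v), b1 i, b2 v]
    · rw [bulk_card_sq]
      have e4 : (ε + 16 * n / R) * (R : ℝ) ^ 2 = (R : ℝ) ^ 2 * ε + 4 * n * R * 4 := by
        field_simp
        ring
      rw [e4]
      linarith
  have e5 : ∑ i ∈ Ico a (a + M), D i - M * pl P x θ R
      = ∑ i ∈ Ico a (a + M), (D i - pl P x θ R) := by
    rw [sum_sub_distrib, sum_const, nsmul_eq_mul]
    simp
  rw [e1, e5]
  refine (abs_sum_le_sum_abs _ _).trans ?_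
  refine (bulk_sum_le _ (Ico (a + M - n * (n + 1)) (a + M)) _ (by positivity) (c := 4)
    (by norm_num) good fun i _ => ?_).trans ?_
  · linarith [abs_sub (D i) (pl P x θ R), b1 i]
  · have c1 : ((Ico a (a + M)).card : ℝ) = M := by simp
    have c2 : (Ico (a + M - n * (n + 1)) (a + M)).card = n * (n + 1) := by
      rw [Int.card_Ico, sub_sub_cancel]
      exact_mod_cast Int.toNat_natCast (n * (n + 1))
    rw [c1, c2]
    push_cast
    linarith

lemma abs_pl_le {x θ Y : ℝ} (h : Conv P x θ Y) (R : ℕ) : |pl P x θ R| ≤ 2 :=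
  bulk_abs_pl h R

lemma bulk_total {x θ Y : ℝ} (h : Conv P x θ Y) {n : ℕ} (hn : 1 ≤ n) (a : ℤ) (M : ℕ)
    {N : Finset (Finset (Atom ℤ))} (hN : N ⊆ polys (eC n) (Ico a (a + M))) :
    ∑ C ∈ N, |wt P (eC n) x θ Set.univ C| * Real.exp (2 * (SS (asupp (eC n)) C).card) *
      Y ^ (∑ α ∈ C, asz α) ≤ M / 3 := by
  have hY : 0 < Y := lt_of_lt_of_le one_pos h.hY
  have key := conn_union_bound N (Ico a (a + M) ×ˢ (univ : Finset Bool))
    (fun q C => q ∈ SS (asupp (eC n)) C) (fun _ => True)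
    (fun C => |wt P (eC n) x θ Set.univ C| * Real.exp (2 * (SS (asupp (eC n)) C).card) *
      Y ^ (∑ α ∈ C, asz α)) (fun C _ => by positivity) fun C hC _ => by
      obtain ⟨hv, hs⟩ := mem_polys.1 (hN hC)
      obtain ⟨q, hq⟩ := hv.nonempty
      exact ⟨q, mem_product.2 ⟨bulk_sites_subset.1 hs q hq, mem_univ _⟩, hq⟩
  rw [filter_true] at key
  refine key.trans ((sum_le_sum fun q _ => sum_wt_le (h.rbC n hn) h.hθ h.hY h.htY h.hθY _ N
    (fun C hC => (mem_polys.1 (hN hC)).1) q).trans (le_of_eq ?_))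
  rw [sum_const, nsmul_eq_mul]
  simp
  ring

open Classical in
lemma bulk_sdiff (n : ℕ) (A : Finset ℤ) :
    polys (eC n) A \ (polys (eC n) A).filter (fun C => ¬ Small n C) = spolys n A := by
  ext C
  rw [bulk_mem_spolys, mem_sdiff, mem_filter]
  tauto

/-- `KP.remove`; a polymer that is not small has `n ≤ 2 card (SS C)` (`small_of_card`), and
`sum_wt_le` bounds the sum over the polymers through each of the `2 M` points. -/
lemma large_le {x θ Y : ℝ} (h : Conv P x θ Y) {n : ℕ} (hn : 1 ≤ n) (a : ℤ) (M : ℕ) :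
    Real.log (Xi (SS (asupp (eC n))) (wt P (eC n) x θ Set.univ) (polys (eC n) (Ico a (a + M))))
      - Real.log (Xi (SS (asupp (eC n))) (wt P (eC n) x θ Set.univ) (spolys n (Ico a (a + M))))
      ≤ M * Real.exp (-(n : ℝ) / 2) := by
  classical
  have key := (bulk_kpC h hn (Ico a (a + M))).remove (Λ := polys (eC n) (Ico a (a + M)))
    (N := (polys (eC n) (Ico a (a + M))).filter fun C => ¬ Small n C) subset_rfl
  rw [bulk_sdiff] at key
  refine (le_abs_self _).trans (key.trans ?_)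
  have ht := bulk_total h hn a M (filter_subset
    (fun C => C ∈ (polys (eC n) (Ico a (a + M))).filter fun C => ¬ Small n C) _)
  have h1 : ∀ C ∈ (polys (eC n) (Ico a (a + M))).filter
      (fun C => C ∈ (polys (eC n) (Ico a (a + M))).filter fun C => ¬ Small n C),
      2 * |wt P (eC n) x θ Set.univ C| * Real.exp (SS (asupp (eC n)) C).card ≤
        2 * Real.exp (-(n : ℝ) / 2) * (|wt P (eC n) x θ Set.univ C| *
          Real.exp (2 * (SS (asupp (eC n)) C).card) * Y ^ (∑ α ∈ C, asz α)) := by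
    intro C hC
    obtain ⟨hC1, hC2⟩ := mem_filter.1 (mem_filter.1 hC).2
    have h2 : n ≤ 2 * (SS (asupp (eC n)) C).card := by
      by_contra hc
      have h3 : (sites (eC n) C).card ≤ (SS (asupp (eC n)) C).card := card_image_le
      exact hC2 (small_of_card (mem_polys.1 hC1).1 (by omega))
    have h3 : (n : ℝ) ≤ 2 * (SS (asupp (eC n)) C).card := by exact_mod_cast h2
    have h4 : Real.exp (SS (asupp (eC n)) C).card ≤
        Real.exp (-(n : ℝ) / 2) * Real.exp (2 * (SS (asupp (eC n)) C).card) := by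
      rw [← Real.exp_add]
      exact Real.exp_le_exp.2 (by linarith)
    have h5 : (1 : ℝ) ≤ Y ^ (∑ α ∈ C, asz α) := one_le_pow₀ h.hY
    have h6 := abs_nonneg (wt P (eC n) x θ Set.univ C)
    have h7 : 0 ≤ |wt P (eC n) x θ Set.univ C| * (Real.exp (-(n : ℝ) / 2) *
        Real.exp (2 * (SS (asupp (eC n)) C).card)) := by positivity
    nlinarith [mul_le_mul_of_nonneg_left h4 h6, mul_le_mul_of_nonneg_left h5 h7]
  refine (sum_le_sum h1).trans ?_
  rw [← mul_sum]
  have h8 := Real.exp_pos (-(n : ℝ) / 2)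
  have h9 : (0 : ℝ) ≤ M := Nat.cast_nonneg _
  nlinarith [mul_le_mul_of_nonneg_left ht h8.le]

/-- `KP.gain` with `N₁` the cycles `cyc n i`, `a ≤ i < a + M - n`.  A polymer of negative weight
is a ghost `X` (`ghost_of_neg`); if it is not small then `n ≤ 6 card X`, so `2 n ≤ asz`. -/
lemma large_ge {x θ Y : ℝ} (h : Conv P x θ Y) {n : ℕ} (hn : 1 ≤ n) (a : ℤ) (M : ℕ) :
    ((M : ℝ) - n) * ((P.t / 3) ^ (n + 1) / 2) - M / (Y ^ 2) ^ n ≤
    Real.log (Xi (SS (asupp (eC n))) (wt P (eC n) x θ Set.univ) (polys (eC n) (Ico a (a + M))))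
      - Real.log (Xi (SS (asupp (eC n))) (wt P (eC n) x θ Set.univ)
          (spolys n (Ico a (a + M)))) := by
  classical
  have hY : 0 < Y := lt_of_lt_of_le one_pos h.hY
  have ht0 := t_pos P
  have hinj : Function.Injective (cyc n) := by
    intro i j hij
    have h1 := SS_cyc hn i
    rw [hij, SS_cyc hn j] at h1
    have h2 : ((i, false) : ℤ × Bool) ∈ Icc j (j + n) ×ˢ ({false} : Finset Bool) := by
      rw [h1]
      simp
    have h3 : ((j, false) : ℤ × Bool) ∈ Icc i (i + n) ×ˢ ({false} : Finset Bool) := by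
      rw [← h1]
      simp
    simp only [mem_product, mem_Icc] at h2 h3
    omega
  have key := (bulk_kpC h hn (Ico a (a + M))).gain (Λ := polys (eC n) (Ico a (a + M)))
    (N := (polys (eC n) (Ico a (a + M))).filter fun C => ¬ Small n C)
    (N₁ := (Ico a (a + M - n)).image (cyc n)) subset_rfl (filter_subset _ _) ?_ ?_
  · rw [bulk_sdiff, sum_image fun i _ j _ hij => hinj hij] at key
    refine le_trans (sub_le_sub ?_ ?_) key
    · have h1 : ∀ i ∈ Ico a (a + M - n), (P.t / 3) ^ (n + 1) / 2 ≤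
          wt P (eC n) x θ Set.univ (cyc n i) *
            Real.exp (-((SS (asupp (eC n)) (cyc n i)).card : ℝ)) / 2 := by
        intro i _
        have h2 : (SS (asupp (eC n)) (cyc n i)).card = n + 1 := by
          rw [SS_cyc hn, card_product, Int.card_Icc, card_singleton]
          omega
        have h3 : Real.exp (-((n + 1 : ℕ) : ℝ)) = Real.exp (-1) ^ (n + 1) := by
          rw [← Real.exp_nat_mul]
          congr 1
          ring
        have h4 : (1 / 3 : ℝ) ≤ Real.exp (-1) := by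
          rw [Real.exp_neg, one_div]
          exact inv_anti₀ (Real.exp_pos 1) (by linarith [Real.exp_one_lt_d9])
        rw [wt_cyc hn, h2, h3, ← mul_pow]
        refine div_le_div_of_nonneg_right (pow_le_pow_left₀ (by positivity) ?_ _) (by norm_num)
        nlinarith
      refine le_trans ?_ (sum_le_sum h1)
      rw [sum_const, nsmul_eq_mul]
      refine mul_le_mul_of_nonneg_right ?_ (by positivity)
      have h5 : (M : ℤ) - n ≤ ((Ico a (a + M - n)).card : ℤ) := by
        rw [Int.card_Ico]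
        omega
      exact_mod_cast h5
    · have ht := bulk_total h hn a M ((filter_subset
        (fun C => wt P (eC n) x θ Set.univ C < 0) _).trans
          (filter_subset (fun C => ¬ Small n C) (polys (eC n) (Ico a (a + M)))))
      have h1 : ∀ C ∈ ((polys (eC n) (Ico a (a + M))).filter fun C => ¬ Small n C).filter
          (fun C => wt P (eC n) x θ Set.univ C < 0),
          2 * |wt P (eC n) x θ Set.univ C| * Real.exp (SS (asupp (eC n)) C).card ≤
            2 / (Y ^ 2) ^ n * (|wt P (eC n) x θ Set.univ C| *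
              Real.exp (2 * (SS (asupp (eC n)) C).card) * Y ^ (∑ α ∈ C, asz α)) := by
        intro C hC
        obtain ⟨hC0, hneg⟩ := mem_filter.1 hC
        obtain ⟨hC1, hC2⟩ := mem_filter.1 hC0
        have hv := (mem_polys.1 hC1).1
        have h2 : 2 * n ≤ ∑ α ∈ C, asz α := by
          obtain ⟨X, hX⟩ := ghost_of_neg (h.rbC n hn) h.hθ _ hv hneg
          have h3 : (sites (eC n) C).card ≤ 3 * X.card := by
            refine le_trans (card_le_card ?_) (card_minus_le (e := eC n) X)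
            rw [bulk_sites_subset, hX]
            intro q hq
            simp only [SS, singleton_biUnion, asupp, mem_product] at hq
            exact hq.1
          have h4 : n ≤ 2 * (sites (eC n) C).card := by
            by_contra hc
            exact hC2 (small_of_card hv (by omega))
          rw [hX, sum_singleton, asz]
          omega
        have h5 : (Y ^ 2) ^ n ≤ Y ^ (∑ α ∈ C, asz α) := by
          rw [← pow_mul]
          exact pow_le_pow_right₀ h.hY h2
        have h4 : Real.exp (SS (asupp (eC n)) C).card ≤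
            Real.exp (2 * (SS (asupp (eC n)) C).card) := by
          have : (0 : ℝ) ≤ (SS (asupp (eC n)) C).card := Nat.cast_nonneg _
          exact Real.exp_le_exp.2 (by linarith)
        have h6 := abs_nonneg (wt P (eC n) x θ Set.univ C)
        have h7 : 0 < (Y ^ 2) ^ n := by positivity
        rw [div_mul_eq_mul_div, le_div_iff₀ h7]
        have h8 := mul_le_mul h4 h5 h7.le (Real.exp_pos _).le
        nlinarith [mul_le_mul_of_nonneg_left h8 h6]
      refine (sum_le_sum h1).trans ?_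
      rw [← mul_sum]
      have h8 : 0 < (Y ^ 2) ^ n := by positivity
      have h9 : (0 : ℝ) ≤ M := Nat.cast_nonneg _
      refine (mul_le_mul_of_nonneg_left ht (by positivity)).trans ?_
      rw [div_mul_eq_mul_div]
      exact div_le_div_of_nonneg_right (by linarith) h8.le
  · intro C hC
    obtain ⟨i, hi, rfl⟩ := mem_image.1 hC
    refine mem_filter.2 ⟨mem_polys.2 ⟨valid_cyc hn i, bulk_sites_subset.2 fun q hq => ?_⟩,
      not_small_cyc hn i⟩
    rw [SS_cyc hn, mem_product, mem_Icc] at hq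
    rw [mem_Ico] at hi ⊢
    omega
  · intro C hC
    obtain ⟨i, -, rfl⟩ := mem_image.1 hC
    rw [wt_cyc hn]
    positivity

end Pool.Agent.MP_646035_al.H91

end

-- part MP_646035_al.H91.WSum
section

/-!
The partition function with given types as a sum over defect regions.
-/

namespace Pool.Agent.MP_646035_al.H91

open Finset

variable {Q : Type*} [AddCommGroup Q] [DecidableEq Q] {P : Par} {e : Fin 2 → Q}

lemma wsum_count {β a b : ℤ} (ha : -β ≤ a) (hb : b ≤ β) (p : ℤ → Prop) [DecidablePred p]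
    (hp : ∀ z, p z ↔ a ≤ z ∧ z ≤ b) :
    ∑ z ∈ Icc (-β) β, (if p z then (1 : ℝ) else 0) = ((b + 1 - a).toNat : ℝ) := by
  rw [sum_boole]
  have : (Icc (-β) β).filter p = Icc a b := by
    ext z
    simp only [mem_filter, mem_Icc, hp]
    omega
  rw [this, Int.card_Icc]

lemma wsum_count_hole {β a b w : ℤ} (ha : -β ≤ a) (hb : b ≤ β) (hw : a ≤ w) (hw' : w ≤ b)
    (p : ℤ → Prop) [DecidablePred p] (hp : ∀ z, p z ↔ (a ≤ z ∧ z ≤ b) ∧ z ≠ w) :
    ∑ z ∈ Icc (-β) β, (if p z then (1 : ℝ) else 0) = ((b - a).toNat : ℝ) := by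
  rw [sum_boole]
  have : (Icc (-β) β).filter p = (Icc a b).erase w := by
    ext z
    simp only [mem_filter, mem_Icc, hp, mem_erase]
    omega
  rw [this, card_erase_of_mem (mem_Icc.2 ⟨hw, hw'⟩), Int.card_Icc]
  congr 1
  omega

lemma wsum_lamp (hP : P.Ok) (σ σ' : Bool) :
    ∑ z ∈ Icc (-(2 * P.β : ℤ)) (2 * P.β), (if lampC P σ σ' 0 0 z = 0 then (1 : ℝ) else 0)
      = (4 * P.h + 1 / 2) * (1 + P.t * if σ = σ' then 1 else -1) := by
  have h2 := hP.h2
  have hB := hP.hB
  have hβ := hP.hβ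
  have h8 : (8 * P.h + 1 : ℝ) ≠ 0 := by positivity
  by_cases hσ : σ = σ'
  · rw [wsum_count (a := -(2 * P.h)) (b := 2 * P.h) (by omega) (by omega)]
    · have : (2 * P.h + 1 - -(2 * P.h) : ℤ).toNat = 4 * P.h + 1 := by omega
      rw [this, if_pos hσ, Par.t]
      push_cast
      field_simp
      ring
    · intro z
      rw [← Nat.le_zero, lampC_le_iff hP, ← abs_le]
      simp [Hole, hσ]
  · have hs := sg_cases σ
    rw [wsum_count_hole (a := -(2 * P.h)) (b := 2 * P.h) (w := -(sg σ * (2 * P.h - 1)))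
      (by omega) (by omega) (by rcases hs with h | h <;> rw [h] <;> omega)
      (by rcases hs with h | h <;> rw [h] <;> omega)]
    · have : (2 * P.h - -(2 * P.h) : ℤ).toNat = 4 * P.h := by omega
      rw [this, if_neg hσ, Par.t]
      push_cast
      field_simp
      ring
    · intro z
      rw [← Nat.le_zero, lampC_le_iff hP, ← abs_le]
      simp [Hole, hσ]

lemma wsum_type (hP : P.Ok) (σ : Bool) :
    ∑ z ∈ Icc (-(2 * P.β : ℤ)) (2 * P.β), (if uC P σ 0 z = 0 then (1 : ℝ) else 0)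
      = 2 * P.B + 1 := by
  have hβ := hP.hβ
  have hs := sg_cases σ
  rw [wsum_count (a := sg σ * (P.B + 1) - P.B) (b := sg σ * (P.B + 1) + P.B)
    (by rcases hs with h | h <;> rw [h] <;> omega) (by rcases hs with h | h <;> rw [h] <;> omega)]
  · have : (sg σ * (P.B + 1) + P.B + 1 - (sg σ * (P.B + 1) - P.B) : ℤ).toNat = 2 * P.B + 1 := by
      omega
    rw [this]
    push_cast
    ring
  · intro z
    rw [← Nat.le_zero, uC_le_iff, abs_le]
    push_cast
    constructor <;> rintro ⟨h1, h2⟩ <;> constructor <;> linarith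

/-- The number of digit vectors of cost zero at a site `j` when `ν = 0` on `tri e j`:
`2 B + 1` type digits and `4 h + 1` or `4 h` digits for each lamp. -/
lemma sum_box_zero (hP : P.Ok) (σ : Q → Bool) (j : Q) :
    ∑ s ∈ box P, (if s.1 = 0 ∧ lampC P (σ j) (σ (j - e 0)) 0 0 (s.2 0) = 0 ∧
        lampC P (σ j) (σ (j - e 1)) 0 0 (s.2 1) = 0 ∧ uC P (σ j) 0 (s.2 2) = 0
      then (1 : ℝ) else 0) = P.Nb * ∏ k : Fin 2, (1 + P.t * chi e σ (j, k)) := by
  let g : Fin 3 → ℤ → ℝ := fun l z =>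
    ![if lampC P (σ j) (σ (j - e 0)) 0 0 z = 0 then 1 else 0,
      if lampC P (σ j) (σ (j - e 1)) 0 0 z = 0 then 1 else 0,
      if uC P (σ j) 0 z = 0 then 1 else 0] l
  have hg : ∀ s : ℕ × (Fin 3 → ℤ), (if s.1 = 0 ∧ lampC P (σ j) (σ (j - e 0)) 0 0 (s.2 0) = 0 ∧
        lampC P (σ j) (σ (j - e 1)) 0 0 (s.2 1) = 0 ∧ uC P (σ j) 0 (s.2 2) = 0
      then (1 : ℝ) else 0) = (if s.1 = 0 then 1 else 0) * ∏ l, g l (s.2 l) := by
    intro s
    rw [Fin.prod_univ_three]
    simp only [g, Matrix.cons_val_zero, Matrix.cons_val_one, Matrix.cons_val, ite_and]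
    split_ifs <;> simp
  rw [sum_congr rfl fun s _ => hg s, box, sum_product]
  refine (sum_mul_sum _ _ (fun n : ℕ => if n = 0 then (1 : ℝ) else 0)
    fun z : Fin 3 → ℤ => ∏ l, g l (z l)).symm.trans ?_
  rw [← prod_univ_sum, Fin.prod_univ_three, Fin.prod_univ_two]
  simp only [g, Matrix.cons_val_zero, Matrix.cons_val_one, Matrix.cons_val]
  rw [wsum_lamp hP, wsum_lamp hP, wsum_type hP]
  simp only [chi, Par.Nb]
  rw [sum_ite_eq' (range 7) 0 fun _ => (1 : ℝ), if_pos (by simp)]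
  ring

/-- The condition of `sum_box_zero`. -/
def wsum_zero (P : Par) (e : Fin 2 → Q) (σ : Q → Bool) (j : Q) (s : ℕ × (Fin 3 → ℤ)) : Prop :=
  s.1 = 0 ∧ lampC P (σ j) (σ (j - e 0)) 0 0 (s.2 0) = 0 ∧
    lampC P (σ j) (σ (j - e 1)) 0 0 (s.2 1) = 0 ∧ uC P (σ j) 0 (s.2 2) = 0

omit [DecidableEq Q] in
lemma wsum_E_zero {σ : Q → Bool} {s : Q → ℕ × (Fin 3 → ℤ)} {j : Q}
    (h : ∀ k, (s (j - e k)).1 = 0) : E P e (mk σ s) j = 0 ↔ wsum_zero P e σ j (s j) := by
  simp only [E, mk, wsum_zero, h, Nat.add_eq_zero_iff]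
  constructor
  · rintro ⟨⟨⟨h0, h1⟩, h2⟩, h3⟩
    rw [h0] at h1 h2 h3
    exact ⟨h0, h1, h2, h3⟩
  · rintro ⟨h0, h1, h2, h3⟩
    rw [h0]
    exact ⟨⟨⟨rfl, h1⟩, h2⟩, h3⟩

omit [DecidableEq Q] in
lemma wsum_nu_zero {σ : Q → Bool} {s : Q → ℕ × (Fin 3 → ℤ)} {j : Q}
    (h : E P e (mk σ s) j = 0) : (s j).1 = 0 := by
  simp only [E, mk, Nat.add_eq_zero_iff] at h
  exact h.1.1.1

lemma wsum_mem_star (j : Q) (k : Fin 2) : j ∈ star e (j - e k) := by
  fin_cases k <;> simp [mem_star]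

lemma wsum_mem_Core {Λ X : Finset Q} {y : Q} :
    y ∈ Core e (Λ : Set Q) X ↔ y ∈ X ∧ ∀ p ∈ star e y, p ∈ Λ → p ∈ X := by
  simp [Core]

lemma wsum_pull {X : Finset Q} (σ : Q → Bool) {s₁ s₂ : Q → ℕ × (Fin 3 → ℤ)}
    (h₁ : ∀ j ∉ X, s₁ j = 0) (h₂ : ∀ j ∉ X, (s₂ j).1 = 0) :
    Pull e id false X (mk σ (X.piecewise s₁ s₂)) (mk σ s₁) := by
  refine ⟨fun j hj => by simp [tw, mk, piecewise, hj], fun j _ => ⟨by simp [tw, mk], ?_⟩⟩
  by_cases hj : j ∈ X
  · simp [mk, piecewise, hj]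
  · simp [mk, piecewise, hj, h₁ j hj, h₂ j hj]

lemma wsum_key (x : ℝ) {Λ X Y : Finset Q} (σ : Q → Bool) (hX : X ⊆ Λ) (hY : Y ⊆ Λ)
    {s₁ s₂ : Q → ℕ × (Fin 3 → ℤ)} (h₁ : s₁ ∈ asg 0 X (box P)) (h₂ : s₂ ∈ asg 0 (Λ \ X) (box P))
    [∀ j s, Decidable (wsum_zero P e σ j s)] :
    (if Λ ∩ (Y ∪ Bad P e Λ (mk σ (X.piecewise s₁ s₂))).biUnion (star e) = X then
      x ^ En P e Λ (mk σ (X.piecewise s₁ s₂)) * Kt P e Λ Y (mk σ (X.piecewise s₁ s₂)) else 0) =
    (if Y ⊆ Core e (Λ : Set Q) X then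
      (if Bad P e X (mk σ s₁) ⊆ Core e (Λ : Set Q) X ∧
          X ⊆ (Y ∪ Bad P e X (mk σ s₁)).biUnion (star e) then
        x ^ En P e X (mk σ s₁) * Kt P e X Y (mk σ s₁) else 0) else 0) *
      ∏ j ∈ Λ \ X, (if wsum_zero P e σ j (s₂ j) then (1 : ℝ) else 0) := by
  rw [mem_asg] at h₁ h₂
  set s := X.piecewise s₁ s₂ with hs
  have hsX : ∀ j ∈ X, s j = s₁ j := fun j hj => by simp [hs, hj]
  have hsN : ∀ j ∉ X, s j = s₂ j := fun j hj => by simp [hs, hj]
  have hself : ∀ y : Q, y ∈ star e y := fun y => mem_star.2 (.inl rfl)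
  have hbox : ∀ j ∈ Λ, InBox P (mk σ s j) := fun j hj => by
    refine mem_box.1 ?_
    by_cases hjX : j ∈ X
    · rw [hsX j hjX]; exact h₁.1 j hjX
    · rw [hsN j hjX]; exact h₂.1 j (mem_sdiff.2 ⟨hj, hjX⟩)
  have hmor : Mor e e (id : Q → Q) := fun _ _ => rfl
  -- consequences of vanishing costs outside `X`
  have main : (∀ j ∈ Λ, j ∉ X → E P e (mk σ s) j = 0) →
      Pull e id false X (mk σ s) (mk σ s₁) ∧ Bad P e Λ (mk σ s) = Bad P e X (mk σ s₁) ∧
        En P e Λ (mk σ s) = En P e X (mk σ s₁) := by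
    intro h0
    have hp : Pull e id false X (mk σ s) (mk σ s₁) := by
      refine wsum_pull σ h₁.2 fun j hj => ?_
      by_cases hjΛ : j ∈ Λ
      · rw [← hsN j hj]; exact wsum_nu_zero (h0 j hjΛ hj)
      · rw [h₂.2 j fun h => hjΛ (mem_sdiff.1 h).1]; rfl
    have hE : ∀ j ∈ X, E P e (mk σ s) j = E P e (mk σ s₁) j := fun j hj => E_map hmor hp hj
    refine ⟨hp, ?_, ?_⟩
    · ext j
      simp only [Bad, mem_filter]
      constructor
      · rintro ⟨hj, hne⟩
        have hjX : j ∈ X := by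
          by_contra hc
          exact hne (h0 j hj hc)
        exact ⟨hjX, hE j hjX ▸ hne⟩
      · rintro ⟨hj, hne⟩
        exact ⟨hX hj, (hE j hj).symm ▸ hne⟩
    · unfold En
      rw [← sum_subset hX fun j hj hjX => h0 j hj hjX]
      exact sum_congr rfl hE
  rw [prod_boole]
  by_cases hR : Λ ∩ (Y ∪ Bad P e Λ (mk σ s)).biUnion (star e) = X
  · have hin : ∀ y ∈ Y ∪ Bad P e Λ (mk σ s), ∀ p ∈ star e y, p ∈ Λ → p ∈ X :=
      fun y hy p hp hpΛ => hR ▸ mem_inter.2 ⟨hpΛ, mem_biUnion.2 ⟨y, hy, hp⟩⟩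
    have h0 : ∀ j ∈ Λ, j ∉ X → E P e (mk σ s) j = 0 := fun j hj hjX => by
      by_contra hne
      exact hjX (hin j (mem_union_right _ (mem_filter.2 ⟨hj, hne⟩)) j (hself j) hj)
    obtain ⟨hp, hB, hE⟩ := main h0
    have hcore : ∀ y ∈ Y ∪ Bad P e Λ (mk σ s), y ∈ Core e (Λ : Set Q) X := fun y hy =>
      wsum_mem_Core.2 ⟨hin y hy y (hself y)
        ((mem_union.1 hy).elim (@hY y) fun h => (mem_filter.1 h).1), hin y hy⟩
    have hYC : Y ⊆ Core e (Λ : Set Q) X := fun y hy => hcore y (mem_union_left _ hy)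
    have hz : ∀ j ∈ Λ \ X, wsum_zero P e σ j (s₂ j) := fun j hj => by
      obtain ⟨hjΛ, hjX⟩ := mem_sdiff.1 hj
      rw [← hsN j hjX, ← wsum_E_zero]
      · exact h0 j hjΛ hjX
      · intro k
        by_cases hk : j - e k ∈ Λ
        · refine wsum_nu_zero (P := P) (e := e) (σ := σ) ?_
          by_contra hne
          exact hjX (hin _ (mem_union_right _ (mem_filter.2 ⟨hk, hne⟩)) j (wsum_mem_star j k) hjΛ)
        · rw [hsN _ fun h => hk (hX h), h₂.2 _ fun h => hk (mem_sdiff.1 h).1]; rfl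
    have hK : Kt P e Λ Y (mk σ s) = Kt P e X Y (mk σ s₁) := by
      rw [Kt_shrink hX (fun y hy => hin y (mem_union_left _ hy)) hbox]
      simpa using Kt_map (P := P) hmor (Set.injOn_id _) (hYC.trans (Core_subset _ _)) hp
    rw [if_pos hR, if_pos hYC, if_pos hz, if_pos, hE, hK, mul_one]
    rw [← hB]
    refine ⟨fun y hy => hcore y (mem_union_right _ hy), fun j hj => ?_⟩
    rw [← hR] at hj
    exact (mem_inter.1 hj).2
  · rw [if_neg hR]
    split_ifs with hYC hc hz
    · exfalso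
      have hν : ∀ j ∉ X, (s₂ j).1 = 0 := fun j hj => by
        by_cases hjΛ : j ∈ Λ
        · exact (hz j (mem_sdiff.2 ⟨hjΛ, hj⟩)).1
        · rw [h₂.2 j fun h => hjΛ (mem_sdiff.1 h).1]; rfl
      have h0 : ∀ j ∈ Λ, j ∉ X → E P e (mk σ s) j = 0 := fun j hj hjX => by
        rw [wsum_E_zero, hsN j hjX]
        · exact hz j (mem_sdiff.2 ⟨hj, hjX⟩)
        · intro k
          by_cases hk : j - e k ∈ X
          · rw [hsX _ hk]
            refine wsum_nu_zero (P := P) (e := e) (σ := σ) ?_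
            by_contra hne
            exact hjX ((wsum_mem_Core.1 (hc.1 (mem_filter.2 ⟨hk, hne⟩))).2 j (wsum_mem_star j k) hj)
          · rw [hsN _ hk]; exact hν _ hk
      obtain ⟨-, hB, -⟩ := main h0
      apply hR
      rw [hB]
      refine Subset.antisymm (fun p hp => ?_) fun p hp => mem_inter.2 ⟨hX hp, hc.2 hp⟩
      obtain ⟨hpΛ, hp⟩ := mem_inter.1 hp
      obtain ⟨y, hy, hp⟩ := mem_biUnion.1 hp
      exact (wsum_mem_Core.1 ((mem_union.1 hy).elim (@hYC y) (@hc.1 y))).2 p hp hpΛ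
    all_goals simp

/-- Write `G Λ Λ c = ∑ Y, Kt Λ Y c` (`sum_Kt`) and sort the pairs `(s, Y)` by
`X = Λ ∩ (Y ∪ Bad Λ c).biUnion star`.  For fixed `X` split `s = X.piecewise s₁ s₂`
(`sum_asg_union` for `X ∪ (Λ \ X)`), `c₁ = mk σ s₁`.  The region of `(s, Y)` is `X` iff `Y` and
`Bad X c₁` lie in `Core Λ X`, `X ⊆ (Y ∪ Bad X c₁).biUnion star`, and every `s₂ j`, `j ∈ Λ \ X`,
satisfies the condition in `sum_box_zero` (a site with `ν ≠ 0` is bad, so the sites it serves are
in `X`).  Then `En Λ c = En X c₁`, `Kt Λ Y c = Kt X Y c₁` (`Kt_shrink`, `Kt_map` with `π = id`);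
finish with `sum_asg_prod`. -/
theorem Zs_eq (hP : P.Ok) (x : ℝ) (Λ : Finset Q) (σ : Q → Bool) :
    Zs P e x Λ σ = ∑ X ∈ Λ.powerset, W P e x X (Core e Λ X) σ *
      ∏ j ∈ Λ \ X, (P.Nb * ∏ k : Fin 2, (1 + P.t * chi e σ (j, k))) := by
  classical
  have h1 : Zs P e x Λ σ = ∑ X ∈ Λ.powerset, ∑ s ∈ asg 0 Λ (box P), ∑ Y ∈ Λ.powerset,
      if Λ ∩ (Y ∪ Bad P e Λ (mk σ s)).biUnion (star e) = X then
        x ^ En P e Λ (mk σ s) * Kt P e Λ Y (mk σ s) else 0 := by
    rw [sum_comm, Zs]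
    refine sum_congr rfl fun s _ => ?_
    rw [sum_comm, ← sum_Kt, mul_sum]
    refine sum_congr rfl fun Y _ => ?_
    rw [sum_ite_eq, if_pos (mem_powerset.2 inter_subset_left)]
  rw [h1]
  refine sum_congr rfl fun X hX => ?_
  rw [mem_powerset] at hX
  have h2 : ∀ j, P.Nb * ∏ k : Fin 2, (1 + P.t * chi e σ (j, k)) =
      ∑ s ∈ box P, if wsum_zero P e σ j s then (1 : ℝ) else 0 := fun j => by
    rw [← sum_box_zero hP σ j]
    exact sum_congr rfl fun s _ => if_congr Iff.rfl rfl rfl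
  have h3 : asg (0 : ℕ × (Fin 3 → ℤ)) Λ (box P) = asg 0 (X ∪ Λ \ X) (box P) := by
    rw [union_sdiff_of_subset hX]
  rw [prod_congr rfl fun j _ => h2 j, ← sum_asg_prod 0, h3, sum_asg_union 0 disjoint_sdiff, W,
    sum_mul_sum]
  refine sum_congr rfl fun s₁ h₁ => sum_congr rfl fun s₂ h₂ => ?_
  rw [sum_congr rfl fun Y hY => wsum_key x σ hX (mem_powerset.1 hY) h₁ h₂, ← sum_mul, ← sum_filter]
  congr 2
  ext Y
  simp only [mem_filter, mem_powerset]
  exact ⟨fun h => h.2, fun h => ⟨h.trans ((Core_subset _ _).trans hX), h⟩⟩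

end Pool.Agent.MP_646035_al.H91

end
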