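import Pool.Agent.MP_646035_al.Mg.H91_RepA
import Pool.Agent.MP_646035_al.Mg.H91_UpA
import Pool.Agent.MP_646035_al.Mg.H91_WSum

-- part MP_646035_al.H91.Class
section

/-!
The partition function counts the classes of configurations with their least cost.
-/

namespace Pool.Agent.MP_646035_al.H91

open Finset

variable {Q : Type*} [AddCommGroup Q] [DecidableEq Q] {P : Par} {e : Fin 2 → Q}

/-- The configurations that `Z` sums over. -/
def IsCfg (P : Par) (e : Fin 2 → Q) (Λ : Finset Q) (c : Q → St) : Prop :=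
  (∀ j ∈ Λ, InBox P (c j)) ∧ (∀ j ∉ Λ, (c j).2 = 0) ∧ ∀ j ∉ SS (tri e) Λ, (c j).1 = false

/-- Same types outside `Λ`, digits on `Λ` differ by carries. -/
def Rel (P : Par) (e : Fin 2 → Q) (Λ : Finset Q) (c c' : Q → St) : Prop :=
  (∀ j ∉ Λ, (c' j).1 = (c j).1) ∧ ∃ κ : Q → Fin 3 → ℤ, (∀ j ∉ Λ, κ j = 0) ∧
    ∀ j ∈ Λ, (c' j).2.2 = (c j).2.2 + carry P e κ j

omit [DecidableEq Q] in
lemma carry_add (κ κ' : Q → Fin 3 → ℤ) (j : Q) :
    carry P e (κ + κ') j = carry P e κ j + carry P e κ' j := by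
  funext l
  fin_cases l <;> simp <;> ring

omit [DecidableEq Q] in
lemma carry_neg (κ : Q → Fin 3 → ℤ) (j : Q) : carry P e (-κ) j = -carry P e κ j := by
  funext l
  fin_cases l <;> simp <;> ring

/-- Maximum principle: look at a pair `(j, l)` where `|κ j l|` is largest. -/
lemma carry_bound {Λ : Finset Q} {κ : Q → Fin 3 → ℤ} (hκ : ∀ j ∉ Λ, κ j = 0) {M : ℤ}
    (hM0 : 0 ≤ M) (hM : ∀ j ∈ Λ, ∀ l, |carry P e κ j l| ≤ M) (j : Q) (l : Fin 3) :
    ((P.β : ℤ) - 2) * |κ j l| ≤ M := by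
  by_cases hj : j ∈ Λ
  swap
  · simp [hκ j hj, hM0]
  rcases lt_or_ge (P.β : ℤ) 2 with hβ | hβ
  · exact le_trans (mul_nonpos_of_nonpos_of_nonneg (by omega) (abs_nonneg _)) hM0
  obtain ⟨⟨j₀, l₀⟩, hp, hmax⟩ := exists_max_image (Λ ×ˢ (univ : Finset (Fin 3)))
    (fun p => |κ p.1 p.2|) ⟨(j, l), by simp [hj]⟩
  have hall : ∀ i k, |κ i k| ≤ |κ j₀ l₀| := fun i k => by
    by_cases hi : i ∈ Λ
    · exact hmax (i, k) (by simp [hi])
    · simp [hκ i hi]
  have hj₀ : j₀ ∈ Λ := (mem_product.1 hp).1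
  have key : ((P.β : ℤ) - 2) * |κ j₀ l₀| ≤ M := by
    have h := hM j₀ hj₀ l₀
    have hb : |(P.β : ℤ) * κ j₀ l₀| = P.β * |κ j₀ l₀| := by
      rw [abs_mul, abs_of_nonneg (by omega : (0 : ℤ) ≤ P.β)]
    have h0 := abs_nonneg (κ j₀ l₀)
    have t : ∀ a b c : ℤ, |a| ≤ |a - b - c| + |b| + |c| := fun a b c => by
      have h1 := abs_add_le (a - b - c + b) c
      have h2 := abs_add_le (a - b - c) b
      rw [show a - b - c + b + c = a by ring] at h1
      omega
    have t' : ∀ a b : ℤ, |a| ≤ |a - b| + |b| := fun a b => by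
      have h1 := abs_add_le (a - b) b
      rwa [sub_add_cancel] at h1
    obtain rfl | rfl | rfl : l₀ = 0 ∨ l₀ = 1 ∨ l₀ = 2 := by fin_cases l₀ <;> simp
    · rw [carry_zero] at h
      have := t (P.β * κ j₀ 0) (κ (j₀ - e 0) 2) (κ (j₀ + e 0) 2)
      linarith [hall (j₀ - e 0) 2, hall (j₀ + e 0) 2]
    · rw [carry_one] at h
      have := t' (P.β * κ j₀ 1) (κ j₀ 0)
      linarith [hall j₀ 0]
    · rw [carry_two] at h
      have := t' (P.β * κ j₀ 2) (κ j₀ 1)
      linarith [hall j₀ 1]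
  exact le_trans (mul_le_mul_of_nonneg_left (hall j l) (by omega)) key

lemma Rel.equivalence (Λ : Finset Q) : Equivalence (Rel P e Λ) := by
  refine ⟨fun c => ⟨fun _ _ => rfl, 0, fun _ _ => rfl, fun j _ => ?_⟩, ?_, ?_⟩
  · funext l
    fin_cases l <;> simp
  · rintro c c' ⟨h1, κ, h2, h3⟩
    refine ⟨fun j hj => (h1 j hj).symm, -κ, fun j hj => by simp [h2 j hj], fun j hj => ?_⟩
    rw [carry_neg, h3 j hj, add_neg_cancel_right]
  · rintro c c' c'' ⟨h1, κ, h2, h3⟩ ⟨h1', κ', h2', h3'⟩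
    refine ⟨fun j hj => (h1' j hj).trans (h1 j hj), κ + κ',
      fun j hj => by simp [h2 j hj, h2' j hj], fun j hj => ?_⟩
    rw [carry_add, h3' j hj, h3 j hj, add_assoc]

open Classical in
/-- The set of all `c` with `IsCfg P e Λ c`. -/
noncomputable def cfgs (P : Par) (e : Fin 2 → Q) (Λ : Finset Q) : Finset (Q → St) :=
  (asg false (SS (tri e) Λ) univ ×ˢ asg 0 Λ (box P)).image fun p => mk p.1 p.2

lemma mem_cfgs {Λ : Finset Q} {c : Q → St} : c ∈ cfgs P e Λ ↔ IsCfg P e Λ c := by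
  classical
  simp only [cfgs, mem_image, mem_product, mem_asg, IsCfg]
  constructor
  · rintro ⟨⟨σ, s⟩, ⟨⟨-, h1⟩, h2, h3⟩, rfl⟩
    exact ⟨fun j hj => mem_box.1 (h2 j hj), h3, h1⟩
  · rintro ⟨h1, h2, h3⟩
    exact ⟨(fun j => (c j).1, fun j => (c j).2),
      ⟨⟨fun _ _ => mem_univ _, h3⟩, fun j hj => mem_box.2 (h1 j hj), h2⟩, rfl⟩

lemma Z_eq_sum_cfgs (x : ℝ) (Λ : Finset Q) :
    Z P e x Λ = ∑ c ∈ cfgs P e Λ, x ^ En P e Λ c * G P e Λ Λ c := by
  classical
  rw [cfgs, sum_image, sum_product]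
  · rfl
  · rintro ⟨σ, s⟩ - ⟨σ', s'⟩ - h
    refine Prod.ext (funext fun j => ?_) (funext fun j => ?_)
    · exact congrArg Prod.fst (congrFun h j)
    · exact congrArg Prod.snd (congrFun h j)

/-- The configuration reached by a move. -/
def classMap (P : Par) (e : Fin 2 → Q) (Λ : Finset Q) (c m : Q → St) : Q → St :=
  fun j => if j ∈ Λ then app P e c m j else c j

lemma class_En {Λ : Finset Q} {c m : Q → St} (hm : m ∈ Moves P e Λ Λ c) :
    En P e Λ (classMap P e Λ c m) = En P e Λ (app P e c m) := by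
  refine sum_congr rfl fun j hj => E_congr (by simp [classMap, hj]) fun k => ?_
  by_cases h : j - e k ∈ Λ
  · simp [classMap, h]
  · simp [classMap, h, app, hm.1 _ h, idm]

lemma class_injOn (hP : P.Ok) (Λ : Finset Q) (c : Q → St) :
    Set.InjOn (classMap P e Λ c) (Moves P e Λ Λ c) := by
  intro m hm m' hm' h
  have hΛ : ∀ j ∈ Λ, app P e c m j = app P e c m' j := fun j hj => by
    simpa [classMap, hj] using congrFun h j
  have hκ : ∀ j l, (m j).2.2 l = (m' j).2.2 l := by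
    intro j l
    have hb := carry_bound (P := P) (e := e) (Λ := Λ)
      (κ := (fun i => (m i).2.2) + -fun i => (m' i).2.2) (M := 0)
      (fun i hi => by simp [hm.1 i hi, hm'.1 i hi, idm]) le_rfl (fun i hi k => by
        have := congrArg (fun s : St => s.2.2) (hΛ i hi)
        simp only [app, add_right_inj] at this
        rw [carry_add, carry_neg, this]
        simp) j l
    have hβ := hP.hβ
    have h0 : |(m j).2.2 l + -(m' j).2.2 l| ≤ 0 :=
      nonpos_of_mul_nonpos_right hb (by omega)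
    have := abs_nonpos_iff.1 h0
    omega
  funext j
  by_cases hj : j ∈ Λ
  · have h1 := congrArg (fun s : St => s.1) (hΛ j hj)
    have h2 := congrArg (fun s : St => s.2.1) (hΛ j hj)
    exact Prod.ext h1 (Prod.ext h2 (funext (hκ j)))
  · rw [hm.1 j hj, hm'.1 j hj]

lemma class_image {Λ : Finset Q} {c : Q → St} (hc : IsCfg P e Λ c) (c' : Q → St) :
    c' ∈ cfgs P e Λ ∧ Rel P e Λ c c' ↔ ∃ m ∈ Moves P e Λ Λ c, classMap P e Λ c m = c' := by
  rw [mem_cfgs]
  constructor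
  · rintro ⟨h1, h2, κ, h3, h4⟩
    set m : Q → St := fun j => if j ∈ Λ then ((c' j).1, (c' j).2.1, κ j) else idm c j with hm
    have hκ : (fun i => (m i).2.2) = κ := by
      funext i
      by_cases hi : i ∈ Λ
      · simp [hm, hi]
      · simp [hm, hi, idm, h3 i hi]
    have happ : ∀ j ∈ Λ, app P e c m j = c' j := fun j hj => by
      unfold app
      rw [hκ, ← h4 j hj]
      simp [hm, hj]
    refine ⟨m, ⟨fun j hj => by simp [hm, hj], fun j hj => ?_⟩, funext fun j => ?_⟩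
    · rw [happ j hj]
      exact h1.1 j hj
    · by_cases hj : j ∈ Λ
      · simp [classMap, hj, happ j hj]
      · simp only [classMap, hj, if_false]
        exact Prod.ext (h2 j hj).symm ((hc.2.1 j hj).trans (h1.2.1 j hj).symm)
  · rintro ⟨m, hm, rfl⟩
    refine ⟨⟨fun j hj => ?_, fun j hj => ?_, fun j hj => ?_⟩, fun j hj => ?_,
      fun i => (m i).2.2, fun j hj => ?_, fun j hj => ?_⟩
    · simpa [classMap, hj] using hm.2 j hj
    · simpa [classMap, hj] using hc.2.1 j hj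
    · have hj' : j ∉ Λ := fun h => hj (subset_minus Λ h)
      simpa [classMap, hj'] using hc.2.2 j hj
    · simp [classMap, hj]
    · simp [hm.1 j hj, idm]
    · simp [classMap, hj, app]

open Classical in
/-- The map `m ↦ fun j => if j ∈ Λ then app c m j else c j` is a cost preserving (`E_congr`)
bijection from `Moves Λ Λ c` onto the configurations related to `c` (injective by `carry_bound`
with `M = 0`). -/
lemma G_eq_class (hP : P.Ok) {Λ : Finset Q} {c : Q → St} (hc : IsCfg P e Λ c) :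
    G P e Λ Λ c =
      if ∀ c' ∈ cfgs P e Λ, Rel P e Λ c c' → En P e Λ c ≤ En P e Λ c' then
        1 / (((cfgs P e Λ).filter fun c' => Rel P e Λ c c' ∧ En P e Λ c' = En P e Λ c).card : ℝ)
      else 0 := by
  have hS := class_image hc
  have hiff : (∀ m ∈ Moves P e Λ Λ c, En P e Λ c ≤ En P e Λ (app P e c m)) ↔
      ∀ c' ∈ cfgs P e Λ, Rel P e Λ c c' → En P e Λ c ≤ En P e Λ c' := by
    constructor
    · intro h c' h1 h2
      obtain ⟨m, hm, rfl⟩ := (hS c').1 ⟨h1, h2⟩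
      rw [class_En hm]
      exact h m hm
    · intro h m hm
      have := (hS _).2 ⟨m, hm, rfl⟩
      rw [← class_En hm]
      exact h _ this.1 this.2
  have hcard : {m ∈ Moves P e Λ Λ c | En P e Λ (app P e c m) = En P e Λ c}.ncard =
      ((cfgs P e Λ).filter fun c' => Rel P e Λ c c' ∧ En P e Λ c' = En P e Λ c).card := by
    rw [← Set.ncard_coe_finset,
      ← Set.InjOn.ncard_image ((class_injOn hP Λ c).mono (Set.sep_subset _ _))]
    congr 1
    ext c'
    simp only [Set.mem_image, Set.mem_ofPred_eq, coe_filter]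
    constructor
    · rintro ⟨m, ⟨hm, hE⟩, rfl⟩
      have := (hS _).2 ⟨m, hm, rfl⟩
      exact ⟨this.1, this.2, (class_En hm).trans hE⟩
    · rintro ⟨h1, h2, h3⟩
      obtain ⟨m, hm, rfl⟩ := (hS c').1 ⟨h1, h2⟩
      exact ⟨m, ⟨hm, (class_En hm).symm.trans h3⟩, rfl⟩
  unfold G
  rw [hcard]
  exact if_congr hiff rfl rfl

open Classical in
/-- The optimal members of the class of `c₀` contribute `x ^ (least cost)`. -/
lemma pow_le_sum_class (hP : P.Ok) {x : ℝ} (hx : 0 ≤ x) (hx1 : x ≤ 1) {Λ : Finset Q}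
    {c₀ : Q → St} (hc : IsCfg P e Λ c₀) :
    x ^ En P e Λ c₀ ≤ ∑ c ∈ cfgs P e Λ with Rel P e Λ c₀ c, x ^ En P e Λ c * G P e Λ Λ c := by
  have hR := Rel.equivalence (P := P) (e := e) Λ
  have h0 : c₀ ∈ (cfgs P e Λ).filter (Rel P e Λ c₀) := mem_filter.2 ⟨mem_cfgs.2 hc, hR.refl _⟩
  obtain ⟨c₁, hc₁, hmin⟩ := exists_min_image _ (En P e Λ) ⟨c₀, h0⟩
  set O := (cfgs P e Λ).filter fun c => Rel P e Λ c₀ c ∧ En P e Λ c = En P e Λ c₁ with hO
  have hsub : O ⊆ (cfgs P e Λ).filter (Rel P e Λ c₀) := fun c h =>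
    mem_filter.2 ⟨(mem_filter.1 h).1, (mem_filter.1 h).2.1⟩
  have hpos : (0 : ℝ) < O.card := by
    have : c₁ ∈ O := mem_filter.2 ⟨(mem_filter.1 hc₁).1, (mem_filter.1 hc₁).2, rfl⟩
    exact_mod_cast card_pos.2 ⟨c₁, this⟩
  have hG : ∀ c ∈ O, x ^ En P e Λ c * G P e Λ Λ c = x ^ En P e Λ c₁ * (1 / O.card) := by
    intro c h
    obtain ⟨h1, h2, h3⟩ := mem_filter.1 h
    rw [G_eq_class hP (mem_cfgs.1 h1), if_pos, h3]
    · congr 4
      refine filter_congr fun c' _ => and_congr_left fun _ => ?_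
      exact ⟨hR.trans h2, hR.trans (hR.symm h2)⟩
    · intro c' h1' h2'
      rw [h3]
      exact hmin c' (mem_filter.2 ⟨h1', hR.trans h2 h2'⟩)
  calc x ^ En P e Λ c₀ ≤ x ^ En P e Λ c₁ := pow_le_pow_of_le_one hx hx1 (hmin c₀ h0)
    _ = ∑ c ∈ O, x ^ En P e Λ c * G P e Λ Λ c := by
      rw [sum_congr rfl hG, sum_const, nsmul_eq_mul]
      field_simp
    _ ≤ _ := sum_le_sum_of_subset_of_nonneg hsub fun c _ _ =>
      mul_nonneg (pow_nonneg hx _) (G_nonneg _ _ _)

open Classical in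
theorem le_Z (hP : P.Ok) {x : ℝ} (hx : 0 ≤ x) (hx1 : x ≤ 1) {Λ : Finset Q} {ι : Type*}
    (F : Finset ι) (cf : ι → Q → St) (hcf : ∀ g ∈ F, IsCfg P e Λ (cf g)) (μ : ℕ)
    (hμ : ∀ c, IsCfg P e Λ c → (F.filter fun g => Rel P e Λ (cf g) c).card ≤ μ) :
    ∑ g ∈ F, x ^ En P e Λ (cf g) ≤ μ * Z P e x Λ := by
  rw [Z_eq_sum_cfgs, mul_sum]
  calc ∑ g ∈ F, x ^ En P e Λ (cf g)
      ≤ ∑ g ∈ F, ∑ c ∈ cfgs P e Λ with Rel P e Λ (cf g) c, x ^ En P e Λ c * G P e Λ Λ c :=
        sum_le_sum fun g hg => pow_le_sum_class hP hx hx1 (hcf g hg)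
    _ = ∑ c ∈ cfgs P e Λ, ∑ g ∈ F with Rel P e Λ (cf g) c, x ^ En P e Λ c * G P e Λ Λ c := by
        simp only [sum_filter]
        exact sum_comm
    _ ≤ _ := sum_le_sum fun c hc => by
        rw [sum_const, nsmul_eq_mul]
        exact mul_le_mul_of_nonneg_right (by exact_mod_cast hμ c (mem_cfgs.1 hc))
          (mul_nonneg (pow_nonneg hx _) (G_nonneg _ _ _))

/-- Configurations with the same cost and the same `γ` lie in one class, so their `G` add up to
at most one. -/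
theorem Z_le (hP : P.Ok) {x : ℝ} (hx : 0 ≤ x) {Λ : Finset Q} {ι : Type*}
    (γ : (Q → St) → ι)
    (hγ : ∀ c c', IsCfg P e Λ c → IsCfg P e Λ c' → γ c = γ c' → Rel P e Λ c c')
    (T : ℕ → Finset ι) (hT : ∀ c, IsCfg P e Λ c → γ c ∈ T (En P e Λ c)) (M : ℕ)
    (hM : ∀ c, IsCfg P e Λ c → En P e Λ c ≤ M) :
    Z P e x Λ ≤ ∑ k ∈ range (M + 1), x ^ k * (T k).card := by
  classical
  rw [Z_eq_sum_cfgs, ← sum_fiberwise_of_maps_to (t := range (M + 1)) (g := En P e Λ)
    fun c hc => mem_range.2 (Nat.lt_succ_of_le (hM c (mem_cfgs.1 hc)))]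
  refine sum_le_sum fun k _ => ?_
  rw [sum_congr rfl (g := fun c => x ^ k * G P e Λ Λ c)
    fun c hc => by rw [(mem_filter.1 hc).2], ← mul_sum]
  refine mul_le_mul_of_nonneg_left ?_ (pow_nonneg hx _)
  rw [← sum_fiberwise_of_maps_to (t := T k) (g := γ) fun c hc => by
    obtain ⟨h1, h2⟩ := mem_filter.1 hc
    exact h2 ▸ hT c (mem_cfgs.1 h1), card_eq_sum_ones, Nat.cast_sum, Nat.cast_one]
  refine sum_le_sum fun t _ => ?_
  set A := ((cfgs P e Λ).filter fun c => En P e Λ c = k).filter fun c => γ c = t with hA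
  have hG : ∀ c ∈ A, G P e Λ Λ c ≤ 1 / A.card := by
    intro c h
    have hpos : (0 : ℝ) < A.card := by exact_mod_cast card_pos.2 ⟨c, h⟩
    obtain ⟨h1, h2⟩ := mem_filter.1 h
    obtain ⟨h1, h3⟩ := mem_filter.1 h1
    rw [G_eq_class hP (mem_cfgs.1 h1)]
    split_ifs
    · refine one_div_le_one_div_of_le hpos (Nat.cast_le.2 (card_le_card fun c' h' => ?_))
      obtain ⟨h1', h2'⟩ := mem_filter.1 h'
      obtain ⟨h1', h3'⟩ := mem_filter.1 h1'
      exact mem_filter.2 ⟨h1', hγ c c' (mem_cfgs.1 h1) (mem_cfgs.1 h1') (h2.trans h2'.symm),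
        h3'.trans h3.symm⟩
    · positivity
  refine (sum_le_sum hG).trans ?_
  rw [sum_const, nsmul_eq_mul, mul_one_div]
  exact div_self_le_one _

lemma En_le (hP : P.Ok) {Λ : Finset Q} {c : Q → St} (hc : ∀ j ∈ Λ, InBox P (c j)) :
    En P e Λ c ≤ 8 * P.β * Λ.card := by
  rw [mul_comm, En]
  refine sum_le_card_nsmul _ _ _ fun j hj => ?_
  obtain ⟨h1, h2⟩ := hc j hj
  have hh := hP.h2
  have hβ := hP.hβ
  have hl : ∀ σ σ' ν ν' (l : Fin 3), lampC P σ σ' ν ν' ((c j).2.2 l) ≤ P.β := by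
    intro σ σ' ν ν' l
    refine (lampC_le_iff hP _ _ _ _ _ _).2 ⟨(h2 l).trans ?_, fun h => by omega⟩
    have a1 : (0 : ℤ) ≤ 2 * P.h * (1 + ν + ν') := by positivity
    have a2 : (2 : ℤ) * P.β ≤ 40 * P.h * P.β :=
      mul_le_mul_of_nonneg_right (by omega) (by positivity)
    linarith
  have hu : uC P (c j).1 (c j).2.1 ((c j).2.2 2) ≤ P.β := by
    refine (uC_le_iff _ _ _ _ _).2 ((abs_sub _ _).trans ?_)
    have a0 : |sg (c j).1 * (P.B + 1 : ℤ)| = P.B + 1 := by
      rw [abs_mul, abs_of_nonneg (by positivity : (0 : ℤ) ≤ P.B + 1)]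
      rcases sg_cases (c j).1 with h | h <;> simp [h]
    have a1 : (0 : ℤ) ≤ (4 * P.B + 2) * (c j).2.1 := by positivity
    have a2 : (40 : ℤ) * P.β ≤ 20 * (4 * P.B + 2) * P.β :=
      mul_le_mul_of_nonneg_right (by omega) (by positivity)
    have a3 := h2 2
    omega
  have := hl (c j).1 (c (j - e 0)).1 (c j).2.1 (c (j - e 0)).2.1 0
  have := hl (c j).1 (c (j - e 1)).1 (c j).2.1 (c (j - e 1)).2.1 1
  unfold E
  omega

lemma Z_scale (hP : P.Ok) {x μ : ℝ} (hx : 0 ≤ x) (hμ : 1 ≤ μ) (Λ : Finset Q) :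
    Z P e (μ * x) Λ ≤ μ ^ (8 * P.β * Λ.card) * Z P e x Λ := by
  rw [Z_eq_sum_cfgs, Z_eq_sum_cfgs, mul_sum]
  refine sum_le_sum fun c hc => ?_
  rw [mul_pow, mul_assoc]
  exact mul_le_mul_of_nonneg_right (pow_le_pow_right₀ hμ (En_le hP (mem_cfgs.1 hc).1))
    (mul_nonneg (pow_nonneg hx _) (G_nonneg _ _ _))

end Pool.Agent.MP_646035_al.H91

end

-- part MP_646035_al.H91.Div
section

/-!
Digit strings with the same value differ by carries.
-/

namespace Pool.Agent.MP_646035_al.H91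

open Finset

variable {P : Par} {s : ℝ} {e : Fin 2 → ℤ}

lemma dg_carry (he : e 0 = 1) (κ : ℤ → Fin 3 → ℤ) (j : ℤ) :
    dg P (carry P e κ j) = (P.β : ℤ) ^ 3 * κ j 2 - κ (j - 1) 2 - κ (j + 1) 2 := by
  simp only [dg, carry_zero, carry_one, carry_two, he]
  ring

lemma div_Ico_succ (a : ℤ) (L : ℕ) :
    Ico a (a + (L + 1 : ℕ)) = insert (a + L) (Ico a (a + L)) := by
  ext j
  simp only [mem_Ico, mem_insert]
  omega

lemma div_tele (hs : Tr P s) (a : ℤ) (L : ℕ) (k : ℤ → ℤ) :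
    ∑ j ∈ Ico a (a + L), ((P.β : ℤ) ^ 3 * k j - k (j - 1) - k (j + 1)) • ev s j
      = (k a • ev s (a - 1) - k (a - 1) • ev s a) -
        (k (a + L) • ev s (a + L - 1) - k (a + L - 1) • ev s (a + L)) := by
  induction L with
  | zero => simp
  | succ L ih =>
    rw [div_Ico_succ, sum_insert (by simp), ih]
    have h1 : a + ((L + 1 : ℕ) : ℤ) = a + L + 1 := by push_cast; ring
    have h2 := ev_rel hs (a + L)
    rw [h1, add_sub_cancel_right, sub_smul, sub_smul, mul_comm, mul_smul, ← h2, smul_add]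
    abel

lemma div_indep (hs : 0 < s) (m : ℤ) {u w : ℤ} (h : u • ev s (m - 1) = w • ev s m) :
    u = 0 ∧ w = 0 := by
  have h1 := congrArg Prod.fst h
  have h2 := congrArg Prod.snd h
  simp only [ev, sh_apply, Prod.smul_mk, zsmul_eq_mul, mul_one, Int.cast_sub, Int.cast_one] at h1 h2
  have e1 : Real.exp ((m : ℝ) * s) = Real.exp (((m : ℝ) - 1) * s) * Real.exp s := by
    rw [← Real.exp_add]
    congr 1
    ring
  have e2 : Real.exp (-((m : ℝ) * s)) = Real.exp (-(((m : ℝ) - 1) * s)) * Real.exp (-s) := by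
    rw [← Real.exp_add]
    congr 1
    ring
  rw [e1] at h1
  rw [e2] at h2
  have h3 : (u : ℝ) = w * Real.exp s :=
    mul_right_cancel₀ (Real.exp_pos (((m : ℝ) - 1) * s)).ne' (by linarith)
  have h4 : (u : ℝ) = w * Real.exp (-s) :=
    mul_right_cancel₀ (Real.exp_pos (-(((m : ℝ) - 1) * s))).ne' (by linarith)
  have h5 : Real.exp (-s) < Real.exp s := Real.exp_lt_exp.2 (by linarith)
  have h6 : (w : ℝ) = 0 := by
    by_contra hw
    exact h5.ne (mul_left_cancel₀ hw (h4.symm.trans h3))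
  rw [h6, zero_mul] at h3
  exact ⟨by exact_mod_cast h3, by exact_mod_cast h6⟩

lemma div_rec (T a : ℤ) (L : ℕ) (y : ℤ → ℤ) : ∃ k : ℤ → ℤ, k (a - 1) = 0 ∧ k a = 0 ∧
    ∀ j ∈ Ico a (a + L), y j = T * k j - k (j - 1) - k (j + 1) := by
  induction L with
  | zero => exact ⟨0, rfl, rfl, by simp⟩
  | succ L ih =>
    obtain ⟨k, h1, h2, h3⟩ := ih
    refine ⟨fun j => if j = a + L + 1 then T * k (a + L) - k (a + L - 1) - y (a + L) else k j,
      (if_neg (by omega)).trans h1, (if_neg (by omega)).trans h2, fun j hj => ?_⟩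
    rw [div_Ico_succ, mem_insert] at hj
    rcases hj with rfl | hj
    · simp only [if_true]
      rw [if_neg (by omega), if_neg (by omega)]
      ring
    · have hj' := mem_Ico.1 hj
      simp only
      rw [if_neg (by omega), if_neg (by omega), if_neg (by omega)]
      exact h3 j hj

/-- Shift the summation index and use `ev_rel`. -/
lemma sum_dg_carry (hs : Tr P s) (he : e 0 = 1) (a : ℤ) (L : ℕ) {κ : ℤ → Fin 3 → ℤ}
    (hκ : ∀ j ∉ Ico a (a + L), κ j = 0) :
    ∑ j ∈ Ico a (a + L), dg P (carry P e κ j) • ev s j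
      = κ a 2 • ev s (a - 1) + κ (a + L - 1) 2 • ev s (a + L) := by
  simp only [dg_carry he]
  rw [div_tele hs a L fun j => κ j 2, hκ (a - 1) (by simp), hκ (a + L) (by simp)]
  simp

/-- Induction on `L` of the stronger claim that `k` vanishes outside `Ioo a (a + L - 1)`: for
`L ≥ 3` remove the top coefficient with `ev_rel`; `ev s a` and
`ev s (a + 1)` are linearly independent since `0 < s`. -/
lemma exists_quot (hs : Tr P s) (a : ℤ) (L : ℕ) (y : ℤ → ℤ)
    (hy : ∑ j ∈ Ico a (a + L), y j • ev s j = 0) :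
    ∃ k : ℤ → ℤ, (∀ j ∉ Ico a (a + L), k j = 0) ∧
      ∀ j ∈ Ico a (a + L), y j = (P.β : ℤ) ^ 3 * k j - k (j - 1) - k (j + 1) := by
  obtain ⟨k, h1, h2, h3⟩ := div_rec ((P.β : ℤ) ^ 3) a L y
  rw [sum_congr rfl fun j hj => by rw [h3 j hj], div_tele hs, h1, h2] at hy
  simp only [zero_smul, sub_self, zero_sub, neg_eq_zero, sub_eq_zero] at hy
  have h4 := (div_indep hs.1 _ hy).1
  refine ⟨fun j => if j ∈ Ico a (a + L) then k j else 0, fun j hj => if_neg hj, fun j hj => ?_⟩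
  have hj' := mem_Ico.1 hj
  have e1 : (if j - 1 ∈ Ico a (a + L) then k (j - 1) else 0) = k (j - 1) := by
    split_ifs with hh
    · rfl
    · rw [mem_Ico] at hh
      rw [show j = a by omega, h1]
  have e2 : (if j + 1 ∈ Ico a (a + L) then k (j + 1) else 0) = k (j + 1) := by
    split_ifs with hh
    · rfl
    · rw [mem_Ico] at hh
      rw [show j + 1 = a + L by omega, h4]
  simp only
  rw [if_pos hj, e1, e2]
  exact h3 j hj

/-- With `d` the difference of the digits and `k` from `exists_quot` put `κ j 2 = k j`,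
`κ j 1 = β k j - d j 2`, `κ j 0 = β κ j 1 - d j 1` on the interval. -/
theorem rel_of_val (hs : Tr P s) (he : e 0 = 1) (a : ℤ) (L : ℕ) {c c' : ℤ → St}
    (hσ : ∀ j ∉ Ico a (a + L), (c' j).1 = (c j).1)
    (hv : val P s (Ico a (a + L)) c = val P s (Ico a (a + L)) c') :
    Rel P e (Ico a (a + L)) c c' := by
  obtain ⟨k, h1, h2⟩ := exists_quot hs a L (fun j => dg P (c' j).2.2 - dg P (c j).2.2) (by
    simp only [sub_smul, sum_sub_distrib]
    exact sub_eq_zero.2 hv.symm)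
  obtain ⟨κ, hκ⟩ : ∃ κ : ℤ → Fin 3 → ℤ, κ = fun j => if j ∈ Ico a (a + L) then
    ![P.β * (P.β * k j - ((c' j).2.2 2 - (c j).2.2 2)) - ((c' j).2.2 1 - (c j).2.2 1),
      P.β * k j - ((c' j).2.2 2 - (c j).2.2 2), k j] else 0 := ⟨_, rfl⟩
  have h3 : ∀ j, κ j 2 = k j := by
    intro j
    rw [hκ]
    by_cases hj : j ∈ Ico a (a + L)
    · simp only [if_pos hj]
      rfl
    · simp only [if_neg hj, h1 j hj]
      rfl
  refine ⟨hσ, κ, fun j hj => by rw [hκ]; exact if_neg hj, fun j hj => ?_⟩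
  have h4 : κ j 1 = P.β * k j - ((c' j).2.2 2 - (c j).2.2 2) := by
    rw [hκ]
    simp only [if_pos hj]
    rfl
  have h5 : κ j 0 = P.β * (P.β * k j - ((c' j).2.2 2 - (c j).2.2 2)) -
      ((c' j).2.2 1 - (c j).2.2 1) := by
    rw [hκ]
    simp only [if_pos hj]
    rfl
  have h6 := h2 j hj
  simp only [dg] at h6
  have g0 : (c' j).2.2 0 = (c j).2.2 0 + carry P e κ j 0 := by
    rw [carry_zero, h3, h3, h5, he]
    linear_combination h6
  have g1 : (c' j).2.2 1 = (c j).2.2 1 + carry P e κ j 1 := by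
    rw [carry_one, h4, h5]
    ring
  have g2 : (c' j).2.2 2 = (c j).2.2 2 + carry P e κ j 2 := by
    rw [carry_two, h3, h4]
    ring
  funext l
  fin_cases l
  · exact g0
  · exact g1
  · exact g2

/-- `sum_dg_carry` and `carry_bound` with `M = 4 β`. -/
theorem val_of_rel (hP : P.Ok) (hs : Tr P s) (he : e 0 = 1) (a : ℤ) (L : ℕ) {c c' : ℤ → St}
    (hc : ∀ j ∈ Ico a (a + L), InBox P (c j)) (hc' : ∀ j ∈ Ico a (a + L), InBox P (c' j))
    (h : Rel P e (Ico a (a + L)) c c') :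
    ∃ u ∈ Icc (-5 : ℤ) 5, ∃ u' ∈ Icc (-5 : ℤ) 5, val P s (Ico a (a + L)) c' =
      val P s (Ico a (a + L)) c + u • ev s (a - 1) + u' • ev s (a + L) := by
  obtain ⟨-, κ, h1, h2⟩ := h
  have hβ : (2000 : ℤ) ≤ P.β := by
    have := hP.hβ
    omega
  have hb : ∀ j, κ j 2 ∈ Icc (-5 : ℤ) 5 := by
    intro j
    have h3 := carry_bound (P := P) (e := e) h1 (M := 4 * P.β) (by omega) (fun i hi l => by
      have h4 := congrFun (h2 i hi) l
      have h5 := abs_le.1 ((hc i hi).2 l)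
      have h6 := abs_le.1 ((hc' i hi).2 l)
      rw [Pi.add_apply] at h4
      rw [abs_le]
      omega) j 2
    rw [mem_Icc, ← abs_le]
    by_contra hh
    have h7 : 6 ≤ |κ j 2| := by omega
    nlinarith
  refine ⟨_, hb a, _, hb (a + L - 1), ?_⟩
  rw [add_assoc, ← sum_dg_carry hs he a L h1, val, val, ← sum_add_distrib]
  refine sum_congr rfl fun j hj => ?_
  rw [h2 j hj, dg_add, add_smul]

end Pool.Agent.MP_646035_al.H91

end

-- part MP_646035_al.H91.UpB
section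

/-!
Reduction to the box and the upper bound for balls.
-/

namespace Pool.Agent.MP_646035_al.H91

open Finset

variable {P : Par} {s : ℝ} {n : ℕ}

lemma upb_lamp_nu (hP : P.Ok) (σ σ' : Bool) {ν ν' μ μ' t : ℕ} (z : ℤ) (ht : 1 ≤ t)
    (h : ν + ν' ≤ μ + μ' + 20 * t) : lampC P σ σ' μ μ' z ≤ lampC P σ σ' ν ν' z + t := by
  have h1 := lampC_abs_le hP σ σ' ν ν' z
  rw [lampC_le_iff hP]
  refine ⟨?_, by omega⟩
  have h2 : ((ν : ℤ) + ν') ≤ μ + μ' + 20 * t := by exact_mod_cast h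
  have h3 : (0 : ℤ) ≤ P.h := by positivity
  have h4 := mul_le_mul_of_nonneg_left h2 h3
  push_cast
  nlinarith

lemma upb_u_nu (σ : Bool) {ν t : ℕ} (z : ℤ) (h : ν ≤ 20 * t) :
    uC P σ 0 z ≤ uC P σ ν z + t := by
  have h1 := uC_abs_le P σ ν z
  rw [uC_le_iff]
  have h2 : (ν : ℤ) ≤ 20 * t := by exact_mod_cast h
  have h3 : (0 : ℤ) ≤ 4 * P.B + 2 := by positivity
  have h4 := mul_le_mul_of_nonneg_left h2 h3
  push_cast
  nlinarith

lemma upb_lamp_one (hP : P.Ok) (σ σ' : Bool) (ν ν' : ℕ) (z : ℤ) {d : ℤ} (hd : |d| ≤ 1) :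
    lampC P σ σ' ν ν' (z + d) ≤ lampC P σ σ' ν ν' z + 1 := by
  have h1 := lampC_abs_le hP σ σ' ν ν' z
  rw [lampC_le_iff hP]
  refine ⟨?_, by omega⟩
  have h2 : (2 : ℤ) ≤ P.h := by exact_mod_cast hP.h2
  have h3 := abs_add_le z d
  push_cast
  nlinarith

lemma upb_u_one (σ : Bool) (ν : ℕ) (z : ℤ) {d : ℤ} (hd : |d| ≤ 1) :
    uC P σ ν (z + d) ≤ uC P σ ν z + 1 := by
  have h1 := uC_abs_le P σ ν z
  rw [uC_le_iff]
  have h2 : (0 : ℤ) ≤ P.B := by positivity
  have h3 := abs_add_le (z - sg σ * (P.B + 1)) d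
  rw [show z + d - sg σ * (P.B + 1) = z - sg σ * (P.B + 1) + d by ring]
  push_cast
  nlinarith

lemma upb_lamp_zero (hP : P.Ok) (σ σ' : Bool) (ν ν' : ℕ) {d : ℤ} (hd : |d| ≤ 1) :
    lampC P σ σ' ν ν' d = 0 := by
  rw [← Nat.le_zero, lampC_le_iff hP]
  have h2 : (2 : ℤ) ≤ P.h := by exact_mod_cast hP.h2
  refine ⟨?_, fun _ h => ?_⟩
  · have h3 : (0 : ℤ) ≤ P.h * (ν + ν') := by positivity
    push_cast
    nlinarith
  · obtain ⟨-, -, -, h⟩ := h
    rw [abs_le] at hd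
    rcases sg_cases σ with h4 | h4 <;> rw [h4] at h <;> omega

lemma upb_lamp_big (hP : P.Ok) (σ σ' : Bool) {ν ν' : ℕ} (hν : ν ≤ 6) (hν' : ν' ≤ 6) {z ε : ℤ}
    (hz : 2 * (P.β : ℤ) < |z|) (hε : ε = 1 ∧ z < 0 ∨ ε = -1 ∧ 0 < z) :
    lampC P σ σ' ν ν' (z + P.β * ε) + 6 ≤ lampC P σ σ' ν ν' z := by
  have h1 := lampC_abs_le hP σ σ' ν ν' z
  set k := lampC P σ σ' ν ν' z
  have h2 : (2 : ℤ) ≤ P.h := by exact_mod_cast hP.h2
  have h3 : (P.h : ℤ) ≤ P.B := by exact_mod_cast hP.hB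
  have h4 : 2000 * ((P.B : ℤ) + 1) ≤ P.β := by exact_mod_cast hP.hβ
  have h5 : (ν : ℤ) + ν' ≤ 12 := by exact_mod_cast (by omega : ν + ν' ≤ 12)
  have h6 : 7 ≤ k := by
    by_contra hk
    have h7 : (k : ℤ) ≤ 6 := by exact_mod_cast (by omega : k ≤ 6)
    nlinarith
  obtain ⟨m, hm⟩ : ∃ m, k = m + 6 := ⟨k - 6, by omega⟩
  rw [hm, Nat.add_le_add_iff_right, lampC_le_iff hP]
  refine ⟨?_, by omega⟩
  have h8 : |z + P.β * ε| = |z| - P.β := by
    rcases hε with ⟨rfl, h⟩ | ⟨rfl, h⟩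
    · rw [abs_of_neg h] at hz ⊢
      rw [abs_of_neg (by omega)]; ring
    · rw [abs_of_pos h] at hz ⊢
      rw [abs_of_pos (by omega)]; ring
  rw [hm] at h1
  push_cast at h1
  rw [h8]
  nlinarith

lemma upb_u_big (hP : P.Ok) (σ : Bool) {ν : ℕ} (hν : ν ≤ 6) {z ε : ℤ}
    (hz : 2 * (P.β : ℤ) < |z|) (hε : ε = 1 ∧ z < 0 ∨ ε = -1 ∧ 0 < z) :
    uC P σ ν (z + P.β * ε) + 6 ≤ uC P σ ν z := by
  have h1 := uC_abs_le P σ ν z
  set k := uC P σ ν z
  have h3 : (0 : ℤ) ≤ P.B := by positivity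
  have h4 : 2000 * ((P.B : ℤ) + 1) ≤ P.β := by exact_mod_cast hP.hβ
  have h5 : (ν : ℤ) ≤ 6 := by exact_mod_cast hν
  have h8 : |z + P.β * ε - sg σ * (P.B + 1)| = |z - sg σ * (P.B + 1)| - P.β ∧
      (P.β : ℤ) ≤ |z - sg σ * (P.B + 1)| := by
    rcases hε with ⟨rfl, h⟩ | ⟨rfl, h⟩
    · rw [abs_of_neg h] at hz
      rcases sg_cases σ with h6 | h6 <;> rw [h6] <;>
        rw [abs_of_neg (by omega), abs_of_neg (by omega)] <;> omega
    · rw [abs_of_pos h] at hz
      rcases sg_cases σ with h6 | h6 <;> rw [h6] <;>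
        rw [abs_of_pos (by omega), abs_of_pos (by omega)] <;> omega
  have h6 : 6 ≤ k := by
    by_contra hk
    have h7 : (k : ℤ) ≤ 5 := by exact_mod_cast (by omega : k ≤ 5)
    nlinarith [h8.2]
  obtain ⟨m, hm⟩ : ∃ m, k = m + 6 := ⟨k - 6, by omega⟩
  rw [hm, Nat.add_le_add_iff_right, uC_le_iff, h8.1]
  rw [hm] at h1
  push_cast at h1
  nlinarith

lemma upb_sum_ite (X : Finset ℤ) (j : ℤ) (t : ℕ) : ∑ i ∈ X, (if i = j then t else 0) ≤ t := by
  rw [sum_ite_eq']
  split_ifs <;> omega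

lemma upb_window (a : ℤ) (L : ℕ) :
    Ico (a - 1) (a - 1 + (L + 2 : ℕ)) = insert (a - 1) (insert (a + L) (Ico a (a + L))) := by
  ext i
  simp only [mem_Ico, mem_insert]
  push_cast
  omega

lemma upb_sum_window {M : Type*} [AddCommMonoid M] (a : ℤ) (L : ℕ) (f : ℤ → M) :
    ∑ i ∈ Ico (a - 1) (a - 1 + (L + 2 : ℕ)), f i
      = ∑ i ∈ Ico a (a + L), f i + f (a - 1) + f (a + L) := by
  rw [upb_window, sum_insert (by simp only [mem_Ico, mem_insert]; omega),
    sum_insert (by simp only [mem_Ico]; omega)]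
  abel

/-- Put `ν j` to zero: five digits cost at most `(ν + 19) / 20` more each. -/
lemma reduce_nu (hP : P.Ok) (hn : 1 ≤ n) {a : ℤ} {L : ℕ} {c : ℤ → St} {j : ℤ} (hj : j ∈ Ico a (a + L))
    (hν : 6 < (c j).2.1) :
    En P (eC n) (Ico a (a + L)) (Function.update c j ((c j).1, 0, (c j).2.2))
      < En P (eC n) (Ico a (a + L)) c := by
  set t := ((c j).2.1 + 19) / 20 with ht
  set c' := Function.update c j ((c j).1, 0, (c j).2.2) with hc'
  have h1 : ∀ i, (c' i).1 = (c i).1 ∧ (c' i).2.2 = (c i).2.2 ∧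
      (c' i).2.1 = if i = j then 0 else (c i).2.1 := by
    intro i
    by_cases hi : i = j
    · subst hi; simp [hc']
    · simp [hc', hi]
  have ht1 : 1 ≤ t := by omega
  have key : ∀ i, E P (eC n) c' i + (if i = j then (c j).2.1 else 0) ≤ E P (eC n) c i +
      (if i = j then 3 * t else 0) + (if i = j + 1 then t else 0) + (if i = j + n then t else 0) := by
    intro i
    unfold E
    simp only [(h1 _).1, (h1 _).2.1, (h1 _).2.2, eC_zero, eC_one]
    by_cases hi : i = j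
    · subst hi
      rw [if_neg (by omega : ¬ i - 1 = i), if_neg (by omega : ¬ i - n = i)]
      simp only [if_true]
      have a1 := upb_lamp_nu hP (c i).1 (c (i - 1)).1 (ν := (c i).2.1) (ν' := (c (i - 1)).2.1)
        (μ := 0) (μ' := (c (i - 1)).2.1) ((c i).2.2 0) ht1 (by omega)
      have a2 := upb_lamp_nu hP (c i).1 (c (i - n)).1 (ν := (c i).2.1) (ν' := (c (i - n)).2.1)
        (μ := 0) (μ' := (c (i - n)).2.1) ((c i).2.2 1) ht1 (by omega)
      have a3 := upb_u_nu (P := P) (c i).1 (ν := (c i).2.1) (t := t) ((c i).2.2 2) (by omega)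
      omega
    · simp only [hi, if_false]
      have a1 : lampC P (c i).1 (c (i - 1)).1 (c i).2.1 (if i - 1 = j then 0 else (c (i - 1)).2.1)
          ((c i).2.2 0) ≤ lampC P (c i).1 (c (i - 1)).1 (c i).2.1 (c (i - 1)).2.1 ((c i).2.2 0)
          + if i = j + 1 then t else 0 := by
        by_cases h : i = j + 1
        · have h' : i - 1 = j := by omega
          rw [if_pos h', if_pos h]
          exact upb_lamp_nu hP _ _ _ ht1 (by rw [h']; omega)
        · rw [if_neg (by omega), if_neg h]; omega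
      have a2 : lampC P (c i).1 (c (i - n)).1 (c i).2.1 (if i - n = j then 0 else (c (i - n)).2.1)
          ((c i).2.2 1) ≤ lampC P (c i).1 (c (i - n)).1 (c i).2.1 (c (i - n)).2.1 ((c i).2.2 1)
          + if i = j + n then t else 0 := by
        by_cases h : i = j + n
        · have h' : i - n = j := by omega
          rw [if_pos h', if_pos h]
          exact upb_lamp_nu hP _ _ _ ht1 (by rw [h']; omega)
        · rw [if_neg (by omega), if_neg h]; omega
      omega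
  have h2 := sum_le_sum (s := Ico a (a + L)) fun i _ => key i
  simp only [sum_add_distrib] at h2
  rw [sum_ite_eq', if_pos hj] at h2
  have b1 := upb_sum_ite (Ico a (a + L)) j (3 * t)
  have b2 := upb_sum_ite (Ico a (a + L)) (j + 1) t
  have b3 := upb_sum_ite (Ico a (a + L)) (j + n) t
  unfold En
  omega

/-- One carry at `(j, l)` with the sign opposite to the digit, on the window enlarged by one site
on each side; the two new sites have type `true` and digits `(0, 0, B + 1)` plus the carry.  The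
large digit costs at least `20` less, at most two other digits cost one more. -/
lemma reduce_digit (hP : P.Ok) (hs : Tr P s) (hn : 1 ≤ n) {a : ℤ} {L : ℕ} {c : ℤ → St}
    (hc : Out a L c) (hν : ∀ j, (c j).2.1 ≤ 6) {j : ℤ} (hj : j ∈ Ico a (a + L)) {l : Fin 3}
    (hl : 2 * (P.β : ℤ) < |(c j).2.2 l|) :
    ∃ c', Out (a - 1) (L + 2) c' ∧
      En P (eC n) (Ico (a - 1) (a - 1 + (L + 2 : ℕ))) c' + 2 < En P (eC n) (Ico a (a + L)) c ∧
      val P s (Ico (a - 1) (a - 1 + (L + 2 : ℕ))) c' = val P s (Ico a (a + L)) c +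
        ((P.β : ℤ) ^ 2 * (P.B + 1)) • ev s (a - 1) +
        ((P.β : ℤ) ^ 2 * (P.B + 1)) • ev s (a + L) := by
  obtain ⟨ε, hε⟩ : ∃ ε : ℤ, ε = 1 ∧ (c j).2.2 l < 0 ∨ ε = -1 ∧ 0 < (c j).2.2 l := by
    rcases lt_trichotomy ((c j).2.2 l) 0 with h | h | h
    · exact ⟨1, .inl ⟨rfl, h⟩⟩
    · rw [h, abs_zero] at hl; omega
    · exact ⟨-1, .inr ⟨rfl, h⟩⟩
  have hε1 : |ε| ≤ 1 := by rcases hε with ⟨rfl, -⟩ | ⟨rfl, -⟩ <;> simp
  have hε2 : |-ε| ≤ 1 := by rwa [abs_neg]
  have hj' := mem_Ico.1 hj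
  set κ : ℤ → Fin 3 → ℤ := fun i l' => if i = j ∧ l' = l then ε else 0 with hκ
  have hκ0 : ∀ i, i ≠ j → κ i = 0 := fun i hi => funext fun l' => by simp [hκ, hi]
  set z : ℤ → Fin 3 → ℤ := fun i => if i = a - 1 ∨ i = a + L then ![0, 0, (P.B : ℤ) + 1]
    else (c i).2.2 with hz
  set c' : ℤ → St := fun i => ((c i).1, (c i).2.1, z i + carry P (eC n) κ i) with hc'
  have hcar : ∀ i, i ≠ j → carry P (eC n) κ i 1 = 0 ∧ carry P (eC n) κ i 2 = 0 ∧
      |carry P (eC n) κ i 0| ≤ 1 ∧ (i ≠ j + 1 → i ≠ j - 1 → carry P (eC n) κ i 0 = 0) := by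
    intro i hi
    simp only [carry_zero, carry_one, carry_two, eC_zero, hκ0 i hi, Pi.zero_apply, mul_zero,
      sub_zero, true_and, zero_sub]
    refine ⟨?_, fun h1 h2 => ?_⟩
    · by_cases h : i = j + 1
      · rw [hκ0 (i + 1) (by omega)]
        simp only [hκ, Pi.zero_apply, sub_zero, abs_neg]
        split_ifs
        · exact hε1
        · simp
      · rw [hκ0 (i - 1) (by omega)]
        simp only [hκ, Pi.zero_apply, neg_zero, zero_sub, abs_neg]
        split_ifs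
        · exact hε1
        · simp
    · rw [hκ0 (i - 1) (by omega), hκ0 (i + 1) (by omega)]; simp
  have hzin : ∀ i ∈ Ico a (a + L), z i = (c i).2.2 := fun i hi => by
    have := mem_Ico.1 hi
    simp only [hz]
    rw [if_neg (by omega)]
  have hnew : ∀ i, i = a - 1 ∨ i = a + L → E P (eC n) c' i = 0 ∧
      dg P (z i) = (P.β : ℤ) ^ 2 * (P.B + 1) := by
    intro i hi
    have h1 : c i = (true, 0, 0) := hc i (by rw [mem_Ico]; omega)
    obtain ⟨h2, h3, h4, -⟩ := hcar i (by omega)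
    have h5 : z i = ![0, 0, (P.B : ℤ) + 1] := by simp only [hz]; rw [if_pos hi]
    refine ⟨?_, by simp [h5, dg]⟩
    unfold E
    simp only [hc', Pi.add_apply, h2, h3, h5, h1]
    rw [upb_lamp_zero hP _ _ _ _ (by simpa using h4), upb_lamp_zero hP _ _ _ _ (by simp)]
    simp [uC, sg]
  refine ⟨c', fun i hi => ?_, ?_, ?_⟩
  · rw [mem_Ico] at hi
    push_cast at hi
    have h1 : c i = (true, 0, 0) := hc i (by rw [mem_Ico]; omega)
    obtain ⟨h2, h3, -, h4⟩ := hcar i (by omega)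
    have h5 : z i = 0 := by simp only [hz]; rw [if_neg (by omega), h1]
    simp only [hc', h1, h5, zero_add]
    refine Prod.ext rfl (Prod.ext rfl (funext fun l' => ?_))
    fin_cases l'
    · exact h4 (by omega) (by omega)
    · exact h2
    · exact h3
  · have key : ∀ i ∈ Ico a (a + L), E P (eC n) c' i + (if i = j then 6 else 0) ≤ E P (eC n) c i +
        (if i = j then 1 else 0) + (if i = j + 1 then 1 else 0) + (if i = j - 1 then 1 else 0) := by
      intro i hi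
      unfold E
      simp only [hc', Pi.add_apply, hzin i hi]
      by_cases hij : i = j
      · subst hij
        simp only [if_true, carry_zero, carry_one, carry_two, eC_zero, eC_one,
          hκ0 (i - 1) (by omega), hκ0 (i + 1) (by omega), Pi.zero_apply, sub_zero]
        fin_cases l
        · have a1 := upb_lamp_big hP (c i).1 (c (i - 1)).1 (hν i) (hν (i - 1)) hl hε
          have a2 := upb_lamp_one hP (c i).1 (c (i - n)).1 (c i).2.1 (c (i - n)).2.1
            ((c i).2.2 1) hε2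
          simp [hκ] at a1 a2 ⊢
          omega
        · have a1 := upb_lamp_big hP (c i).1 (c (i - n)).1 (hν i) (hν (i - n)) hl hε
          have a2 := upb_u_one (P := P) (c i).1 (c i).2.1 ((c i).2.2 2) hε2
          simp [hκ] at a1 a2 ⊢
          omega
        · have a1 := upb_u_big hP (c i).1 (hν i) hl hε
          simp [hκ] at a1 ⊢
          omega
      · obtain ⟨h2, h3, h4, h5⟩ := hcar i hij
        simp only [h2, h3, add_zero, hij, if_false]
        have a1 := upb_lamp_one hP (c i).1 (c (i - eC n 0)).1 (c i).2.1 (c (i - eC n 0)).2.1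
          ((c i).2.2 0) h4
        by_cases h6 : i = j + 1
        · rw [if_pos h6]; omega
        · by_cases h7 : i = j - 1
          · rw [if_pos h7]; omega
          · rw [h5 h6 h7, add_zero]; omega
    have h2 := sum_le_sum key
    simp only [sum_add_distrib] at h2
    rw [sum_ite_eq', if_pos hj] at h2
    have b1 := upb_sum_ite (Ico a (a + L)) j 1
    have b2 := upb_sum_ite (Ico a (a + L)) (j + 1) 1
    have b3 := upb_sum_ite (Ico a (a + L)) (j - 1) 1
    unfold En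
    rw [upb_sum_window, (hnew _ (.inl rfl)).1, (hnew _ (.inr rfl)).1]
    omega
  · unfold val
    simp only [hc', dg_add, add_smul, sum_add_distrib]
    rw [sum_dg_carry hs (eC_zero n) (a - 1) (L + 2)
        (fun i hi => hκ0 i (by rw [mem_Ico] at hi; push_cast at hi; omega)),
      hκ0 (a - 1) (by omega), hκ0 _ (by push_cast; omega), upb_sum_window,
      (hnew _ (.inl rfl)).2, (hnew _ (.inr rfl)).2, sum_congr rfl fun i hi => by rw [hzin i hi]]
    simp

/-- Strong induction on the cost. -/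
lemma reduce (hP : P.Ok) (hs : Tr P s) (hn : 1 ≤ n) {a : ℤ} {L : ℕ} {c : ℤ → St}
    (hc : Out a L c) :
    ∃ (a' : ℤ) (L' : ℕ) (c' : ℤ → St), a' ≤ a ∧ a + L ≤ a' + L' ∧ Out a' L' c' ∧
      (∀ j ∈ Ico a' (a' + L'), InBox P (c' j)) ∧
      L' + En P (eC n) (Ico a' (a' + L')) c' ≤ L + En P (eC n) (Ico a (a + L)) c ∧
      val P s (Ico a' (a' + L')) c' = val P s (Ico a (a + L)) c +
        ∑ j ∈ Ico a' (a' + L') \ Ico a (a + L), ((P.β : ℤ) ^ 2 * (P.B + 1)) • ev s j := by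
  induction h : En P (eC n) (Ico a (a + L)) c using Nat.strong_induction_on generalizing a L c with
  | _ m ih =>
  subst h
  by_cases h1 : ∃ j ∈ Ico a (a + L), 6 < (c j).2.1
  · obtain ⟨j, hj, hν⟩ := h1
    have h2 := reduce_nu hP hn hj hν
    have h3 : Out a L (Function.update c j ((c j).1, 0, (c j).2.2)) := fun i hi => by
      rw [Function.update_of_ne (by rintro rfl; exact hi hj)]
      exact hc i hi
    obtain ⟨a', L', c', b1, b2, b3, b4, b5, b6⟩ := ih _ h2 h3 rfl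
    refine ⟨a', L', c', b1, b2, b3, b4, by omega, ?_⟩
    rw [b6]
    congr 1
    refine sum_congr rfl fun i _ => ?_
    by_cases hi : i = j
    · subst hi; simp
    · rw [Function.update_of_ne hi]
  · push Not at h1
    by_cases h2 : ∃ j ∈ Ico a (a + L), ∃ l, 2 * (P.β : ℤ) < |(c j).2.2 l|
    · obtain ⟨j, hj, l, hl⟩ := h2
      have hν : ∀ i, (c i).2.1 ≤ 6 := fun i => by
        by_cases hi : i ∈ Ico a (a + L)
        · exact h1 i hi
        · rw [hc i hi]; simp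
      obtain ⟨c₁, d1, d2, d3⟩ := reduce_digit hP hs hn hc hν hj hl
      obtain ⟨a', L', c', b1, b2, b3, b4, b5, b6⟩ := ih _ (by omega) d1 rfl
      push_cast at b2
      refine ⟨a', L', c', by omega, by omega, b3, b4, by omega, ?_⟩
      have h4 : Ico a' (a' + L') \ Ico a (a + L) = insert (a - 1) (insert (a + L)
          (Ico a' (a' + L') \ Ico (a - 1) (a - 1 + (L + 2 : ℕ)))) := by
        ext i
        simp only [mem_Ico, mem_insert, mem_sdiff]
        push_cast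
        omega
      rw [b6, d3, h4, sum_insert (by simp only [mem_Ico, mem_insert, mem_sdiff]; push_cast; omega),
        sum_insert (by simp only [mem_Ico, mem_sdiff]; push_cast; omega)]
      abel
    · push Not at h2
      exact ⟨a, L, c, le_rfl, le_rfl, hc, fun j hj => ⟨h1 j hj, h2 j hj⟩, le_rfl, by simp⟩

lemma upb_cfg (hP : P.Ok) (hs : Tr P s) (hn : 1 ≤ n) {r : ℕ} {g : El s}
    (hg : g ∈ ball (gens P s n) r) :
    ∃ (a : ℤ) (L : ℕ) (c : ℤ → St), (a, L, g.k) ∈ Icc (-((r + n + 1 : ℕ) : ℤ)) 0 ×ˢ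
        range (r + n + 1 + 1) ×ˢ Icc (-((r + n + 1 : ℕ) : ℤ)) (r + n + 1 : ℕ) ∧
      IsCfg P (eC n) (Ico a (a + L)) c ∧ L + En P (eC n) (Ico a (a + L)) c ≤ r + n + 1 ∧
      val P s (Ico a (a + L)) c = g.v + ∑ j ∈ Ico a (a + L) with ¬ Typed g.k j,
        ((P.β : ℤ) ^ 2 * (P.B + 1)) • ev s j := by
  obtain ⟨a, L, c, a1, a2, a3, a4, a5, a6, a7⟩ := cfg_of_writes hP hn (writes_of_mem_ball hP r hg)
  obtain ⟨a', L', c', b1, b2, b3, b4, b5, b6⟩ := reduce hP hs hn a5
  set Λ := Ico a' (a' + L') with hΛ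
  set c'' : ℤ → St := fun j => (if j ∈ SS (tri (eC n)) Λ then (c' j).1 else false, (c' j).2)
    with hc''
  have hE : En P (eC n) Λ c'' = En P (eC n) Λ c' := by
    refine sum_congr rfl fun j hj => E_congr ?_ fun k => ?_
    · simp only [hc'', if_pos (subset_minus Λ hj)]
    · simp only [hc'', if_pos (sub_mem_minus hj k), and_self]
  refine ⟨a', L', c'', ?_, ⟨fun j hj => b4 j hj, fun j hj => ?_, fun j hj => ?_⟩, by rw [← hΛ]; omega, ?_⟩
  · simp only [mem_product, mem_Icc, mem_range]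
    push_cast
    omega
  · simp only [hc'', b3 j hj]; rfl
  · exact if_neg hj
  · have h1 : val P s Λ c'' = val P s Λ c' := rfl
    have h2 : Λ.filter (fun j => ¬ Typed g.k j) =
        (Ico a (a + L)).filter (fun j => ¬ Typed g.k j) ∪ Λ \ Ico a (a + L) := by
      ext i
      simp only [hΛ, mem_Ico, mem_filter, mem_union, mem_sdiff, Typed]
      omega
    rw [← hΛ, h1, b6, a7, h2, sum_union (disjoint_sdiff.mono_left (filter_subset _ _)), add_assoc]

/-- By `writes_of_mem_ball`, `cfg_of_writes`, `reduce` (then put the type to `false` outside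
`SS (tri (eC n)) Λ`, `E_congr`) every `g` in the ball of radius `r` has `a ∈ [-N, 0]`, `L ≤ N`,
`g.k ∈ [-N, N]`, `N = r + n + 1`, and `c` with `IsCfg` on `Λ = Ico a (a + L)`,
`L + En ≤ N` and `val c = g.v + (a vector depending only on a, L, g.k)`.  For fixed
`(a, L, g.k)` apply `le_Z` with `μ = 121` (`val_of_rel`). -/
theorem ball_upper (hP : P.Ok) (hs : Tr P s) (hn : 1 ≤ n) {x C : ℝ} (hx : 0 < x) (hx1 : x ≤ 1)
    (hZ : ∀ (a : ℤ) (L : ℕ), x ^ L * Z P (eC n) x (Ico a (a + L)) ≤ C) :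
    ∃ C' : ℝ, ∀ r : ℕ, x ^ r * ((ball (gens P s n) r).ncard : ℝ) ≤ C' * ((r : ℝ) + 1) ^ 3 := by
  classical
  refine ⟨242 * |C| * ((n : ℝ) + 2) ^ 3 / x ^ (n + 1), fun r => ?_⟩
  set N := r + n + 1 with hN
  set T := Icc (-(N : ℤ)) 0 ×ˢ range (N + 1) ×ˢ Icc (-(N : ℤ)) N with hT
  set B := (ball_finite (gens P s n) r).toFinset with hB
  have hex : ∀ g : El s, ∃ (a : ℤ) (L : ℕ) (c : ℤ → St), g ∈ B → (a, L, g.k) ∈ T ∧
      IsCfg P (eC n) (Ico a (a + L)) c ∧ L + En P (eC n) (Ico a (a + L)) c ≤ N ∧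
      val P s (Ico a (a + L)) c = g.v + ∑ j ∈ Ico a (a + L) with ¬ Typed g.k j,
        ((P.β : ℤ) ^ 2 * (P.B + 1)) • ev s j := by
    intro g
    by_cases hg : g ∈ B
    · obtain ⟨a, L, c, h⟩ := upb_cfg hP hs hn ((Set.Finite.mem_toFinset _).1 hg)
      exact ⟨a, L, c, fun _ => h⟩
    · exact ⟨0, 0, fun _ => 0, fun h => absurd h hg⟩
  choose A Lf cf hcf using hex
  have hfib : ∀ t ∈ T, ∑ _g ∈ B with (A _g, Lf _g, _g.k) = t, x ^ N ≤ 121 * |C| := by
    rintro ⟨a, L, k⟩ -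
    set F := B.filter fun g => (A g, Lf g, g.k) = (a, L, k) with hF
    have hF' : ∀ g ∈ F, g.k = k ∧ IsCfg P (eC n) (Ico a (a + L)) (cf g) ∧
        L + En P (eC n) (Ico a (a + L)) (cf g) ≤ N ∧
        val P s (Ico a (a + L)) (cf g) = g.v + ∑ j ∈ Ico a (a + L) with ¬ Typed k j,
          ((P.β : ℤ) ^ 2 * (P.B + 1)) • ev s j := by
      intro g hg
      obtain ⟨h1, h2⟩ := mem_filter.1 hg
      simp only [Prod.mk.injEq] at h2
      obtain ⟨rfl, rfl, rfl⟩ := h2
      exact ⟨rfl, (hcf g h1).2⟩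
    have h1 := le_Z hP hx.le hx1 F cf (fun g hg => (hF' g hg).2.1) 121 (fun c hc => by
      have h2 : (F.filter fun g => Rel P (eC n) (Ico a (a + L)) (cf g) c) ⊆
          (Icc (-5 : ℤ) 5 ×ˢ Icc (-5 : ℤ) 5).image fun p => (⟨val P s (Ico a (a + L)) c -
            p.1 • ev s (a - 1) - p.2 • ev s (a + L) - ∑ j ∈ Ico a (a + L) with ¬ Typed k j,
              ((P.β : ℤ) ^ 2 * (P.B + 1)) • ev s j, k⟩ : El s) := by
        intro g hg
        obtain ⟨h3, h4⟩ := mem_filter.1 hg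
        obtain ⟨d1, d2, -, d4⟩ := hF' g h3
        obtain ⟨u, hu, u', hu', h5⟩ := val_of_rel hP hs (eC_zero n) a L d2.1 hc.1 h4
        refine mem_image.2 ⟨(u, u'), mk_mem_product hu hu', El.ext ?_ d1.symm⟩
        simp only [h5, d4]
        abel
      refine (card_le_card h2).trans (card_image_le.trans ?_)
      simp)
    have h2 : ∑ _g ∈ F, x ^ N ≤ ∑ g ∈ F, x ^ L * x ^ En P (eC n) (Ico a (a + L)) (cf g) :=
      sum_le_sum fun g hg => by
        rw [← pow_add]
        exact pow_le_pow_of_le_one hx.le hx1 (hF' g hg).2.2.1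
    rw [← mul_sum] at h2
    have h3 := mul_le_mul_of_nonneg_left h1 (pow_pos hx L).le
    have h4 := hZ a L
    have h5 := le_abs_self C
    push_cast at h3
    nlinarith
  have h1 : ∑ _g ∈ B, x ^ N ≤ T.card * (121 * |C|) := by
    rw [← sum_fiberwise_of_maps_to (t := T) (g := fun g => (A g, Lf g, g.k))
      fun g hg => (hcf g hg).1]
    simpa using sum_le_card_nsmul T _ _ hfib
  have h2 : (T.card : ℝ) ≤ 2 * (((n : ℝ) + 2) * (r + 1)) ^ 3 := by
    have h3 : T.card = (N + 1) * ((N + 1) * (2 * N + 1)) := by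
      simp only [hT, card_product, Int.card_Icc, card_range]
      congr 1
      · omega
      · congr 1; omega
    have h4 : (N : ℝ) + 1 ≤ ((n : ℝ) + 2) * (r + 1) := by
      rw [hN]; push_cast
      nlinarith [mul_nonneg (Nat.cast_nonneg (α := ℝ) n) (Nat.cast_nonneg (α := ℝ) r),
        Nat.cast_nonneg (α := ℝ) r]
    have h5 : ((N : ℝ) + 1) ^ 3 ≤ (((n : ℝ) + 2) * (r + 1)) ^ 3 :=
      pow_le_pow_left₀ (by positivity) h4 3
    rw [h3]; push_cast
    nlinarith [sq_nonneg ((N : ℝ) + 1)]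
  rw [sum_const, nsmul_eq_mul, hB,
    ← Set.ncard_eq_toFinset_card _ (ball_finite (gens P s n) r)] at h1
  rw [div_mul_eq_mul_div, le_div_iff₀ (pow_pos hx _)]
  have h3 := mul_le_mul_of_nonneg_right h2 (show (0 : ℝ) ≤ 121 * |C| by positivity)
  have h4 : x ^ N = x ^ r * x ^ (n + 1) := by rw [hN, add_assoc, pow_add]
  rw [h4] at h1
  nlinarith

end Pool.Agent.MP_646035_al.H91

end

-- part MP_646035_al.H91.Low
section

/-!
A configuration is written by a word whose length is bounded by its cost.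
-/

namespace Pool.Agent.MP_646035_al.H91

open Finset

variable {P : Par} {s : ℝ} {n : ℕ}

lemma low_clip {b z : ℤ} {ν : ℕ} (hb : 0 ≤ b) (h : |z| ≤ b * ((ν + 1 : ℕ) : ℤ)) :
    ∃ u, |u| ≤ b * ((1 : ℕ) : ℤ) ∧ |z - u| ≤ b * ν := by
  have h0 : 0 ≤ b * ν := by positivity
  push_cast at h ⊢
  rw [mul_add, mul_one, abs_le] at h
  refine ⟨max (-b) (min b z), ?_, ?_⟩ <;> rw [abs_le] <;> omega

lemma low_of_eq {a b : ℕ} {g g' : El s} {S : Finset (El s)} (h : g' ∈ ball S b) (hg : g = g')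
    (hab : a = b) : g ∈ ball S a := by
  rw [hg, hab]
  exact h

lemma low_add_mem {a b : ℕ} {v w : ℝ × ℝ} {S : Finset (El s)} (hv : (⟨v, 0⟩ : El s) ∈ ball S a)
    (hw : (⟨w, 0⟩ : El s) ∈ ball S b) : (⟨v + w, 0⟩ : El s) ∈ ball S (a + b) := by
  convert mul_mem_ball hv hw using 1
  ext1 <;> simp

/-- Induction on `ν`, clipping every digit to the range of one generator. -/
lemma sup_mem_ball {ν : ℕ} {t : Fin 5 → ℤ} (h : Sup P ν t) :
    (⟨dv P s n t, 0⟩ : El s) ∈ ball (gens P s n) ν := by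
  induction ν generalizing t with
  | zero =>
    simp only [Sup, Nat.cast_zero, mul_zero, abs_nonpos_iff] at h
    have : dv P s n t = 0 := by simp [dv, h.1, h.2.1, h.2.2.1, h.2.2.2.1, h.2.2.2.2]
    rw [this]
    exact one_mem_ball _ 0
  | succ ν ih =>
    obtain ⟨h0, h1, h2, h3, h4⟩ := h
    obtain ⟨u0, a0, b0⟩ := low_clip (by positivity) h0
    obtain ⟨u1, a1, b1⟩ := low_clip (by positivity) h1
    obtain ⟨u2, a2, b2⟩ := low_clip (by positivity) h2
    obtain ⟨u3, a3, b3⟩ := low_clip (by positivity) h3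
    obtain ⟨u4, a4, b4⟩ := low_clip (by positivity) h4
    have hu : Sup P 1 ![u0, u1, u2, u3, u4] := ⟨a0, a1, a2, a3, a4⟩
    have hr : Sup P ν (t - ![u0, u1, u2, u3, u4]) := ⟨b0, b1, b2, b3, b4⟩
    have := low_add_mem (ih hr) (mem_ball_one (mem_gens.2 (.inr (.inl ⟨_, hu, rfl⟩))))
    rwa [← dv_add, sub_add_cancel] at this

lemma low_line {S : Finset (El s)} {b : ℤ} (hb : 0 ≤ b) (w : ℝ × ℝ)
    (hS : ∀ u : ℤ, |u| ≤ b * ((1 : ℕ) : ℤ) → (⟨u • w, 0⟩ : El s) ∈ S) (α : ℕ) (z : ℤ)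
    (hz : |z| ≤ b * α) : (⟨z • w, 0⟩ : El s) ∈ ball S α := by
  induction α generalizing z with
  | zero =>
    simp only [Nat.cast_zero, mul_zero, abs_nonpos_iff] at hz
    rw [hz, zero_smul]
    exact one_mem_ball _ 0
  | succ α ih =>
    obtain ⟨u, h1, h2⟩ := low_clip hb hz
    have := low_add_mem (ih _ h2) (mem_ball_one (hS u h1))
    rwa [← add_smul, sub_add_cancel] at this

lemma sing_mem_ball {α : Fin 3 → ℕ} {y : Fin 3 → ℤ} (h : Sing P α y) :
    (⟨dg P y • ev s 0, 0⟩ : El s) ∈ ball (gens P s n) (∑ l, α l) := by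
  obtain ⟨h0, h1, h2⟩ := h
  have k0 := low_line (S := gens P s n) (by positivity) (ev s 0) (fun u hu =>
    mem_gens.2 (.inr (.inr ⟨0, ![u, 0, 0], ⟨hu, by simp, by simp⟩, by simp [dg]⟩))) _ _ h0
  have k1 := low_line (S := gens P s n) (by positivity) ((P.β : ℤ) • ev s 0) (fun u hu =>
    mem_gens.2 (.inr (.inr ⟨1, ![0, u, 0], ⟨by simp, hu, by simp⟩, by
      rw [smul_smul, mul_comm]; simp [dg]⟩))) _ _ h1
  have k2 := low_line (S := gens P s n) (by positivity) (((P.β : ℤ) ^ 2) • ev s 0) (fun u hu =>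
    mem_gens.2 (.inr (.inr ⟨2, ![0, 0, u], ⟨by simp, by simp, hu⟩, by
      rw [smul_smul, mul_comm]; simp [dg]⟩))) _ _ h2
  have := low_add_mem (low_add_mem k0 k1) k2
  rw [smul_smul, smul_smul, ← add_smul, ← add_smul, mul_comm (y 1), mul_comm (y 2)] at this
  rw [Fin.sum_univ_three]
  exact this

lemma walk_mem_ball (m : ℕ) (σ : ℕ → Bool) (d t : ℕ → Fin 5 → ℤ) (ν : ℕ → ℕ)
    (y : ℕ → Fin 3 → ℤ) (α : ℕ → Fin 3 → ℕ) (hd : ∀ i < m, Typ P (σ i) (d i))
    (ht : ∀ i < m, Sup P (ν i) (t i)) (hy : ∀ i < m, Sing P (α i) (y i)) :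
    (⟨∑ i ∈ range m, (sh s i (dv P s n (d i + t i)) + dg P (y i) • ev s i), m⟩ : El s)
      ∈ ball (gens P s n) (m + ∑ i ∈ range m, (ν i + ∑ l, α i l)) := by
  induction m with
  | zero => exact one_mem_ball _ _
  | succ m ih =>
    have hm := Nat.lt_succ_self m
    have h1 := ih (fun i hi => hd i (hi.trans hm)) (fun i hi => ht i (hi.trans hm))
      fun i hi => hy i (hi.trans hm)
    have h2 := low_add_mem (sup_mem_ball (s := s) (n := n) (ht m hm)) (sing_mem_ball (hy m hm))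
    have h3 : (⟨dv P s n (d m), 1⟩ : El s) ∈ ball (gens P s n) 1 :=
      mem_ball_one (mem_gens.2 (.inl ⟨_, _, hd m hm, rfl⟩))
    refine low_of_eq (mul_mem_ball h1 (mul_mem_ball h2 h3)) ?_ ?_
    · ext1
      · simp only [El.mul_v, sh_zero, sum_range_succ, dv_add, map_add, map_zsmul, sh_ev, add_zero]
        abel
      · simp
    · rw [sum_range_succ]
      ring

lemma low_sum_range {V : Type*} [AddCommMonoid V] (f : ℤ → V) (a : ℤ) (m : ℕ) :
    ∑ i ∈ range m, f (a + i) = ∑ j ∈ Ico a (a + m), f j := by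
  refine sum_nbij' (fun i : ℕ => a + i) (fun j => (j - a).toNat) ?_ ?_ ?_ ?_ fun _ _ => rfl
  all_goals
    intro i hi
    simp only [mem_range, mem_Ico] at hi ⊢
    omega

lemma low_parts (hP : P.Ok) (σ σ' : Bool) (ν ν' : ℕ) (z : ℤ) (q : Prop) [Decidable q] :
    ∃ p p' a a' y : ℤ, PS P σ p ∧ PS P (!σ') p' ∧ |a| ≤ 2 * P.h * ν ∧ |a'| ≤ 2 * P.h * ν' ∧
      |y| ≤ 40 * P.h * (if q then lampC P σ σ' ν ν' z else 0 : ℕ) ∧
      (q → z = p + p' + a + a' + y) ∧ (¬ q → p + a + y = 0 ∧ p' + a' = 0) := by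
  by_cases hq : q
  · obtain ⟨p, p', a, a', y, h1, h2, h3, h4, h5, h6⟩ := exists_parts hP σ σ' ν ν' z
    exact ⟨p, p', a, a', y, h1, h2, h3, h4, by rwa [if_pos hq], fun _ => h6, fun h => absurd hq h⟩
  · have h2 := hP.h2
    have h0 : ∀ τ, PS P τ 0 := fun τ =>
      ⟨by simp, by rcases sg_cases τ with h | h <;> rw [h] <;> omega⟩
    exact ⟨0, 0, 0, 0, 0, h0 _, h0 _, by rw [abs_zero]; positivity, by rw [abs_zero]; positivity,
      by rw [abs_zero]; positivity, fun h => absurd h hq, fun _ => by simp⟩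

lemma low_parts_u (P : Par) (σ : Bool) (ν : ℕ) (z : ℤ) (q : Prop) [Decidable q] :
    ∃ u a y : ℤ, |u - sg σ * (P.B + 1)| ≤ P.B ∧ |a| ≤ (4 * P.B + 2) * ν ∧
      |y| ≤ 20 * (4 * P.B + 2) * (if q then uC P σ ν z else 0 : ℕ) ∧ (q → z = u + a + y) ∧
      (¬ q → u + a + y = sg σ * (P.B + 1)) := by
  by_cases hq : q
  · obtain ⟨u, a, y, h1, h2, h3, h4⟩ := exists_parts_u P σ ν z
    exact ⟨u, a, y, h1, h2, by rwa [if_pos hq], fun _ => h4, fun h => absurd hq h⟩
  · exact ⟨sg σ * (P.B + 1), 0, 0, by simp, by rw [abs_zero]; positivity,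
      by rw [abs_zero]; positivity, fun h => absurd h hq, fun _ => by simp⟩

/-- The element written for the configuration `c` on `Ico 0 L`. -/
noncomputable def elt (P : Par) (s : ℝ) (n L : ℕ) (c : ℤ → St) : El s :=
  ⟨sh s n (val P s (Ico 0 (L : ℤ)) c +
    ∑ i ∈ Ico (-(n : ℤ)) 0, ((P.β : ℤ) ^ 2 * (sg (c i).1 * (P.B + 1))) • ev s i), (L + n : ℕ)⟩

/-- Walk over the sites `-n, ..., L - 1` (step `i` is the site `i - n`).  Split the digits at the
sites of `Ico 0 L` by `exists_parts`, `exists_parts_u` and hand the parts to the two serving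
sites; parts for lamps outside `Ico 0 L` are `0` (in `PS P σ`), the type digit of a site below `0`
is `sg σ * (B + 1)`. -/
theorem elt_mem_ball (hP : P.Ok) (hn : 1 ≤ n) {L : ℕ} {c : ℤ → St}
    (hc : ∀ j ∉ Ico 0 (L : ℤ), (c j).2 = 0) :
    elt P s n L c ∈ ball (gens P s n) (L + n + En P (eC n) (Ico 0 (L : ℤ)) c) := by
  choose p0 q0 a0 b0 y0 hp0 hq0 ha0 hb0 hy0 hz0 hn0 using fun j : ℤ =>
    low_parts hP (c j).1 (c (j - 1)).1 (c j).2.1 (c (j - 1)).2.1 ((c j).2.2 0) (j ∈ Ico 0 (L : ℤ))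
  choose p1 q1 a1 b1 y1 hp1 hq1 ha1 hb1 hy1 hz1 hn1 using fun j : ℤ =>
    low_parts hP (c j).1 (c (j - n)).1 (c j).2.1 (c (j - n)).2.1 ((c j).2.2 1) (j ∈ Ico 0 (L : ℤ))
  choose u a2 y2 hu ha2 hy2 hz2 hn2 using fun j : ℤ =>
    low_parts_u P (c j).1 (c j).2.1 ((c j).2.2 2) (j ∈ Ico 0 (L : ℤ))
  let D : ℤ → Fin 5 → ℤ := fun j => ![p0 j, q0 (j + 1), p1 j, q1 (j + n), u j]
  let T : ℤ → Fin 5 → ℤ := fun j => ![a0 j, b0 (j + 1), a1 j, b1 (j + n), a2 j]
  let Y : ℤ → Fin 3 → ℤ := fun j => ![y0 j, y1 j, y2 j]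
  let A : ℤ → Fin 3 → ℕ := fun j =>
    ![if j ∈ Ico 0 (L : ℤ) then
        lampC P (c j).1 (c (j - 1)).1 (c j).2.1 (c (j - 1)).2.1 ((c j).2.2 0) else 0,
      if j ∈ Ico 0 (L : ℤ) then
        lampC P (c j).1 (c (j - n)).1 (c j).2.1 (c (j - n)).2.1 ((c j).2.2 1) else 0,
      if j ∈ Ico 0 (L : ℤ) then uC P (c j).1 (c j).2.1 ((c j).2.2 2) else 0]
  have hD : ∀ j, Typ P (c j).1 (D j) := fun j =>
    ⟨hp0 j, by simpa [D] using hq0 (j + 1), hp1 j, by simpa [D] using hq1 (j + n), hu j⟩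
  have hT : ∀ j, Sup P (c j).2.1 (T j) := fun j =>
    ⟨ha0 j, by simpa [T] using hb0 (j + 1), ha1 j, by simpa [T] using hb1 (j + n), ha2 j⟩
  have hY : ∀ j, Sing P (A j) (Y j) := fun j => ⟨hy0 j, hy1 j, hy2 j⟩
  have key := walk_mem_ball (s := s) (n := n) (L + n) (fun i => (c (-n + i)).1)
    (fun i => D (-n + i)) (fun i => T (-n + i)) (fun i => (c (-n + i)).2.1) (fun i => Y (-n + i))
    (fun i => A (-n + i)) (fun i _ => hD _) (fun i _ => hT _) fun i _ => hY _
  have hI : Ico (-(n : ℤ)) (-n + (L + n : ℕ)) = Ico (-(n : ℤ)) 0 ∪ Ico 0 (L : ℤ) := by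
    ext j
    simp only [mem_union, mem_Ico]
    omega
  have hdis : Disjoint (Ico (-(n : ℤ)) 0) (Ico 0 (L : ℤ)) := by
    rw [disjoint_left]
    intro j h1 h2
    simp only [mem_Ico] at h1 h2
    omega
  refine low_of_eq key ?_ ?_
  · let F0 : ℤ → ℝ × ℝ := fun j => (p0 j + a0 j + y0 j + P.β * (p1 j + a1 j + y1 j)
      + P.β ^ 2 * (u j + a2 j + y2 j)) • ev s (n + j)
    let F1 : ℤ → ℝ × ℝ := fun j => (q0 j + b0 j) • ev s (n + j)
    let F2 : ℤ → ℝ × ℝ := fun j => (P.β * (q1 j + b1 j)) • ev s (n + j)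
    have hstep : ∀ i : ℕ, sh s i (dv P s n (D (-n + i) + T (-n + i))) + dg P (Y (-n + i)) • ev s i
        = F0 (-n + i) + F1 (1 - n + i) + F2 (0 + i) := fun i => by
      have e1 : (1 - n + i : ℤ) = -n + i + 1 := by ring
      have e2 : (0 + i : ℤ) = -n + i + n := by ring
      have e3 : (n + (-n + i) : ℤ) = i := by ring
      have e4 : (n + (-n + i + 1) : ℤ) = i + 1 := by ring
      have e5 : (n + (-n + i + n) : ℤ) = i + n := by ring
      rw [e1, e2]
      simp only [F0, F1, F2, e3, e4, e5, dv, dg, map_add, map_zsmul, sh_ev, add_zero, D, T, Y,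
        Pi.add_apply, Matrix.cons_val_zero, Matrix.cons_val_one, Matrix.cons_val]
      module
    unfold elt
    congr 1
    rw [sum_congr rfl fun i _ => hstep i, sum_add_distrib, sum_add_distrib, low_sum_range F0,
      low_sum_range F1, low_sum_range F2, hI, sum_union hdis,
      ← sum_subset (s₁ := Ico 0 (L : ℤ)) (f := F1) (Ico_subset_Ico (by omega) (by omega))
        fun j _ hj => by simp only [F1, (hn0 j hj).2, zero_smul],
      ← sum_subset (s₁ := Ico 0 (L : ℤ)) (f := F2) (Ico_subset_Ico (by omega) (by omega))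
        fun j _ hj => by simp only [F2, (hn1 j hj).2, mul_zero, zero_smul],
      add_assoc, add_assoc, ← sum_add_distrib, ← sum_add_distrib, map_add, add_comm, val, map_sum,
      map_sum]
    congr 1
    · refine sum_congr rfl fun j hj => ?_
      have hj' := disjoint_left.1 hdis hj
      simp only [F0, (hn0 j hj').1, (hn1 j hj').1, hn2 j hj', map_zsmul, sh_ev, mul_zero, zero_add]
    · refine sum_congr rfl fun j hj => ?_
      simp only [F0, F1, F2, map_zsmul, sh_ev, dg]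
      rw [hz0 j hj, hz1 j hj, hz2 j hj]
      module
  · rw [low_sum_range fun j => (c j).2.1 + ∑ l, A j l, hI, sum_union hdis, sum_eq_zero, zero_add]
    · congr 1
      refine sum_congr rfl fun j hj => ?_
      simp only [E, A, Fin.sum_univ_three, if_pos hj, Matrix.cons_val_zero, Matrix.cons_val_one,
        Matrix.cons_val, eC_zero, eC_one, add_assoc]
    · intro j hj
      have hj' := disjoint_left.1 hdis hj
      simp only [A, Fin.sum_univ_three, if_neg hj', hc j hj', Matrix.cons_val_zero,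
        Matrix.cons_val_one, Matrix.cons_val, Prod.fst_zero, add_zero]

/-- `Z_le` with `γ c = (elt c, fun j => if j ∈ Ico 0 L then false else (c j).1)`, which lies in
the ball times `asg false (Ico (-n) 0) univ`; `rel_of_val`, `En_le`. -/
theorem Z_le_ball (hP : P.Ok) (hs : Tr P s) (hn : 1 ≤ n) {x : ℝ} (hx : 0 ≤ x) (L : ℕ) :
    Z P (eC n) x (Ico 0 (L : ℤ)) ≤ 2 ^ n * ∑ k ∈ range (8 * P.β * L + 1),
      x ^ k * ((ball (gens P s n) (L + n + k)).ncard : ℝ) := by
  refine (Z_le hP hx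
    (fun c => (elt P s n L c, fun j => if j ∈ Ico 0 (L : ℤ) then false else (c j).1)) ?_
    (fun k => (ball_finite (gens P s n) (L + n + k)).toFinset ×ˢ
      asg false (Ico (-(n : ℤ)) 0) univ) ?_ (8 * P.β * L) ?_).trans (le_of_eq ?_)
  · intro c c' _ _ h
    obtain ⟨h1, h2⟩ := Prod.mk.inj h
    have hσ : ∀ j ∉ Ico 0 (L : ℤ), (c' j).1 = (c j).1 := fun j hj => by
      simpa only [if_neg hj] using (congrFun h2 j).symm
    have h3 := congrArg (fun g : El s => sh s (-n) g.v) h1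
    simp only [elt, sh_sh, neg_add_cancel, sh_zero] at h3
    have h4 : ∑ i ∈ Ico (-(n : ℤ)) 0, ((P.β : ℤ) ^ 2 * (sg (c' i).1 * (P.B + 1))) • ev s i
        = ∑ i ∈ Ico (-(n : ℤ)) 0, ((P.β : ℤ) ^ 2 * (sg (c i).1 * (P.B + 1))) • ev s i :=
      sum_congr rfl fun i hi => by
        rw [hσ i (by simp only [mem_Ico] at hi ⊢; omega)]
    rw [h4, add_left_inj] at h3
    have := rel_of_val (e := eC n) hs rfl 0 L (c := c) (c' := c') (by rwa [zero_add])
      (by rwa [zero_add])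
    rwa [zero_add] at this
  · intro c hc
    refine mem_product.2 ⟨(Set.Finite.mem_toFinset _).2 (elt_mem_ball hP hn hc.2.1),
      mem_asg.2 ⟨fun _ _ => mem_univ _, fun j hj => ?_⟩⟩
    by_cases hjL : j ∈ Ico 0 (L : ℤ)
    · exact if_pos hjL
    · refine (if_neg hjL).trans (hc.2.2 j fun h => ?_)
      obtain ⟨i, hi, h⟩ := mem_SS.1 h
      simp only [mem_tri, eC_zero, eC_one, mem_Ico] at h hi hj hjL
      omega
  · intro c hc
    simpa using En_le (e := eC n) hP hc.1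
  · rw [mul_sum]
    refine sum_congr rfl fun k _ => ?_
    rw [card_product, card_asg, Set.ncard_eq_toFinset_card _ (ball_finite _ _)]
    simp only [card_univ, Fintype.card_bool, Int.card_Ico, zero_sub, neg_neg, Int.toNat_natCast]
    push_cast
    ring

end Pool.Agent.MP_646035_al.H91

end
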