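import Pool.Agent.MP_646035_al.Mg.H91_UpA
import Pool.Agent.MP_646035_al.H91.Sol
import Pool.Agent.MP_646035_al.Mg.H91_Low

-- part MP_646035_al.H91.Lattice
section

/-!
The group `Lat s` is a uniform lattice in Sol.
-/

namespace Pool.Agent.MP_646035_al.H91

variable {P : Par} {s : ℝ}

lemma lattice_mul_inv (x y u : ℝ) :
    solMat x y u * solMat (-(Real.exp (-u) * x)) (-(Real.exp u * y)) (-u) = 1 := by
  rw [solMat_mul, ← solMat_zero]
  congr 1
  · rw [mul_neg, ← mul_assoc, ← Real.exp_add]; simp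
  · rw [mul_neg, ← mul_assoc, ← Real.exp_add]; simp
  · simp

lemma lattice_inv_mul (x y u : ℝ) :
    solMat (-(Real.exp (-u) * x)) (-(Real.exp u * y)) (-u) * solMat x y u = 1 := by
  rw [solMat_mul, ← solMat_zero]
  congr 1 <;> simp

/-- The element of Sol with coordinates `x, y, u`. -/
noncomputable def solEl (x y u : ℝ) : Sol :=
  ⟨⟨solMat x y u, solMat (-(Real.exp (-u) * x)) (-(Real.exp u * y)) (-u),
    lattice_mul_inv x y u, lattice_inv_mul x y u⟩, x, y, u, rfl⟩

lemma lattice_mul (x y u x' y' u' : ℝ) : solEl x y u * solEl x' y' u'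
    = solEl (x + Real.exp u * x') (y + Real.exp (-u) * y') (u + u') :=
  Subtype.ext (Units.ext (solMat_mul x y u x' y' u'))

/-- An entry of the matrix of an element of Sol. -/
noncomputable def latticeEnt (i j : Fin 3) (g : Sol) : ℝ :=
  ((g : GL (Fin 3) ℝ) : Matrix (Fin 3) (Fin 3) ℝ) i j

lemma lattice_ent_cont (i j : Fin 3) : Continuous (latticeEnt i j) :=
  (Units.continuous_val.comp continuous_subtype_val).matrix_elem i j

lemma lattice_ent00 (x y u : ℝ) : latticeEnt 0 0 (solEl x y u) = Real.exp u := rfl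

lemma lattice_ent02 (x y u : ℝ) : latticeEnt 0 2 (solEl x y u) = x := rfl

lemma lattice_ent12 (x y u : ℝ) : latticeEnt 1 2 (solEl x y u) = y := rfl

lemma lattice_solMat_cont {X : Type*} [TopologicalSpace X] {x y u : X → ℝ} (hx : Continuous x)
    (hy : Continuous y) (hu : Continuous u) : Continuous fun p => solMat (x p) (y p) (u p) := by
  refine continuous_matrix fun i j => ?_
  fin_cases i <;> fin_cases j <;> simp [solMat] <;> fun_prop

lemma lattice_solEl_cont {X : Type*} [TopologicalSpace X] {x y u : X → ℝ} (hx : Continuous x)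
    (hy : Continuous y) (hu : Continuous u) : Continuous fun p => solEl (x p) (y p) (u p) := by
  refine Continuous.subtype_mk (Units.continuous_iff.2 ⟨lattice_solMat_cont hx hy hu, ?_⟩) _
  exact lattice_solMat_cont (by fun_prop) (by fun_prop) (by fun_prop)

noncomputable def rep (s : ℝ) : El s →* Sol where
  toFun g := solEl g.v.1 g.v.2 (g.k * s)
  map_one' := by
    simp only [El.one_v, El.one_k, Prod.fst_zero, Prod.snd_zero, Int.cast_zero, zero_mul]
    exact Subtype.ext (Units.ext solMat_zero)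
  map_mul' g g' := by
    rw [lattice_mul]
    simp [sh_apply, add_mul]

lemma rep_injective (hs : 0 < s) : Function.Injective (rep s) := by
  intro g g' h
  have h0 := congrArg (latticeEnt 0 0) h
  have h1 := congrArg (latticeEnt 0 2) h
  have h2 := congrArg (latticeEnt 1 2) h
  have h3 : (g.k : ℝ) * s = g'.k * s := Real.exp_injective h0
  exact El.ext (Prod.ext h1 h2) (by exact_mod_cast mul_right_cancel₀ hs.ne' h3)

lemma lattice_ev_mem (hs : Tr P s) (j : ℤ) :
    ev s j ∈ AddSubgroup.closure {ev s 0, ev s 1} ∧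
      ev s (j + 1) ∈ AddSubgroup.closure {ev s 0, ev s 1} := by
  induction j using Int.induction_on with
  | zero =>
    exact ⟨AddSubgroup.subset_closure (by simp), AddSubgroup.subset_closure (by simp)⟩
  | succ i ih =>
    refine ⟨ih.2, ?_⟩
    have h := ev_rel hs ((i : ℤ) + 1)
    rw [add_sub_cancel_right] at h
    rw [eq_sub_of_add_eq' h]
    exact sub_mem (AddSubgroup.zsmul_mem _ ih.2 _) ih.1
  | pred i ih =>
    rw [sub_add_cancel]
    refine ⟨?_, ih.1⟩
    rw [eq_sub_of_add_eq (ev_rel hs (-(i : ℤ)))]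
    exact sub_mem (AddSubgroup.zsmul_mem _ ih.1 _) ih.2

lemma lattice_sh_mem (hs : Tr P s) (k : ℤ) {v : ℝ × ℝ}
    (hv : v ∈ AddSubgroup.closure {ev s 0, ev s 1}) :
    sh s k v ∈ AddSubgroup.closure {ev s 0, ev s 1} := by
  obtain ⟨a, b, rfl⟩ := AddSubgroup.mem_closure_pair.1 hv
  rw [map_add, map_zsmul, map_zsmul, sh_ev, sh_ev]
  exact add_mem (AddSubgroup.zsmul_mem _ (lattice_ev_mem hs _).1 _)
    (AddSubgroup.zsmul_mem _ (lattice_ev_mem hs _).1 _)

lemma lattice_zpow_v (v : ℝ × ℝ) (a : ℤ) : (⟨v, 0⟩ : El s) ^ a = ⟨a • v, 0⟩ := by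
  induction a using Int.induction_on with
  | zero => ext1 <;> simp
  | succ i ih => rw [zpow_add_one, ih]; ext1 <;> simp [add_smul]
  | pred i ih => rw [zpow_sub_one, ih]; ext1 <;> simp [sub_eq_add_neg, add_smul]

lemma lattice_zpow_k (k : ℤ) : (⟨0, 1⟩ : El s) ^ k = ⟨0, k⟩ := by
  induction k using Int.induction_on with
  | zero => ext1 <;> simp
  | succ i ih => rw [zpow_add_one, ih]; ext1 <;> simp
  | pred i ih => rw [zpow_sub_one, ih]; ext1 <;> simp [sub_eq_add_neg]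

lemma lattice_comb (a b : ℤ) : a • ev s 0 + b • ev s 1
    = ((a : ℝ) + b * Real.exp s, (a : ℝ) + b * Real.exp (-s)) := by
  ext <;> simp [ev, sh_apply]

/-- The elements on the right form a subgroup (`ev_rel` gives every `ev s j` as an integer
combination of `ev s 0` and `ev s 1`). -/
lemma mem_Lat (hs : Tr P s) (g : El s) :
    g ∈ Lat s ↔ ∃ a b : ℤ, g.v = a • ev s 0 + b • ev s 1 := by
  constructor
  · intro hg
    have : g.v ∈ AddSubgroup.closure {ev s 0, ev s 1} := by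
      induction hg using Subgroup.closure_induction with
      | mem x hx =>
        rcases hx with rfl | rfl
        · exact (lattice_ev_mem hs 0).1
        · exact zero_mem _
      | one => exact zero_mem _
      | mul x y _ _ hx hy => exact add_mem hx (lattice_sh_mem hs _ hy)
      | inv x _ hx => exact neg_mem (lattice_sh_mem hs _ hx)
    obtain ⟨a, b, h⟩ := AddSubgroup.mem_closure_pair.1 this
    exact ⟨a, b, h.symm⟩
  · rintro ⟨a, b, h⟩
    have h0 : (⟨ev s 0, 0⟩ : El s) ∈ Lat s := Subgroup.subset_closure (by simp)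
    have ht : (⟨0, 1⟩ : El s) ∈ Lat s := Subgroup.subset_closure (by simp)
    have h1 : (⟨ev s 1, 0⟩ : El s) ∈ Lat s := by
      have e : (⟨ev s 1, 0⟩ : El s) = ⟨0, 1⟩ * ⟨ev s 0, 0⟩ * (⟨0, 1⟩ : El s)⁻¹ := by
        ext1 <;> simp [sh_ev]
      rw [e]
      exact mul_mem (mul_mem ht h0) (inv_mem ht)
    have e : g = (⟨ev s 0, 0⟩ : El s) ^ a * (⟨ev s 1, 0⟩ : El s) ^ b * (⟨0, 1⟩ : El s) ^ g.k := by
      rw [lattice_zpow_v, lattice_zpow_v, lattice_zpow_k]
      ext1 <;> simp [h]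
    rw [e]
    exact mul_mem (mul_mem (zpow_mem h0 _) (zpow_mem h1 _)) (zpow_mem ht _)

/-- The open set where the entry `(0, 0)` lies in `(exp (-s), exp s)` and the entries `(0, 2)`,
`(1, 2)` are smaller than `min 1 ((exp s - exp (-s)) / 2)` meets the lattice only in `1`. -/
theorem discrete_Lat (hs : Tr P s) : DiscreteTopology ((Lat s).map (rep s)) := by
  have hs0 := hs.1
  have hD : 0 < Real.exp s - Real.exp (-s) := sub_pos.2 (Real.exp_lt_exp.2 (by linarith))
  refine discreteTopology_of_isOpen_singleton_one ?_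
  have hc : ∀ i j, Continuous fun g : (Lat s).map (rep s) => latticeEnt i j g := fun i j =>
    (lattice_ent_cont i j).comp continuous_subtype_val
  have ho : IsOpen {g : (Lat s).map (rep s) | Real.exp (-s) < latticeEnt 0 0 g ∧
      latticeEnt 0 0 g < Real.exp s ∧ |latticeEnt 0 2 g| < 1 ∧
      |latticeEnt 0 2 g - latticeEnt 1 2 g| < Real.exp s - Real.exp (-s)} :=
    (isOpen_lt continuous_const (hc 0 0)).inter ((isOpen_lt (hc 0 0) continuous_const).inter
      ((isOpen_lt (hc 0 2).abs continuous_const).inter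
        (isOpen_lt ((hc 0 2).sub (hc 1 2)).abs continuous_const)))
  convert ho using 1
  ext g
  constructor
  · rintro rfl
    have e : ((1 : (Lat s).map (rep s)) : Sol) = solEl 0 0 0 :=
      Subtype.ext (Units.ext solMat_zero.symm)
    simp only [Set.mem_ofPred_eq, e, lattice_ent00, lattice_ent02, lattice_ent12]
    exact ⟨Real.exp_lt_exp.2 (by linarith), Real.exp_lt_exp.2 hs0, by simp, by simpa using hD⟩
  · obtain ⟨_, γ, hγ, rfl⟩ := g
    obtain ⟨a, b, h⟩ := (mem_Lat hs γ).1 hγ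
    rw [lattice_comb] at h
    rintro ⟨h1, h2, h3, h4⟩
    change Real.exp (-s) < Real.exp (γ.k * s) at h1
    change Real.exp (γ.k * s) < Real.exp s at h2
    change |γ.v.1| < 1 at h3
    change |γ.v.1 - γ.v.2| < _ at h4
    rw [Real.exp_lt_exp] at h1 h2
    have k1 : (-1 : ℝ) < γ.k := by nlinarith
    have k2 : (γ.k : ℝ) < 1 := by nlinarith
    have hk : γ.k = 0 := by
      have : (-1 : ℤ) < γ.k := by exact_mod_cast k1
      have : γ.k < 1 := by exact_mod_cast k2
      omega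
    have hb : b = 0 := by
      rw [h] at h4
      have e : (a : ℝ) + b * Real.exp s - (a + b * Real.exp (-s))
          = b * (Real.exp s - Real.exp (-s)) := by ring
      simp only [e, abs_mul, abs_of_pos hD] at h4
      have : |(b : ℝ)| < 1 := by nlinarith
      exact Int.abs_lt_one_iff.1 (by exact_mod_cast this)
    have ha : a = 0 := by
      rw [h, hb] at h3
      simp only [Int.cast_zero, zero_mul, add_zero] at h3
      exact Int.abs_lt_one_iff.1 (by exact_mod_cast h3)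
    have : γ = 1 := El.ext (by rw [h, ha, hb]; simp) hk
    subst this
    exact Subtype.ext (map_one (rep s))

/-- `(x, y, u) ↦ solEl x y u` is continuous (`Units.continuous_iff`), and every element of Sol is
`solEl x y u * rep γ` with `γ ∈ Lat s`, `u ∈ [0, s]` and `x, y` bounded: choose `γ.k` with
`Int.floor`, then `γ.v` by rounding the coordinates in the basis `ev s 0`, `ev s 1`. -/
theorem compact_quot (hs : Tr P s) : CompactSpace (Sol ⧸ (Lat s).map (rep s)) := by
  have hs0 := hs.1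
  have hD : 0 < Real.exp s - Real.exp (-s) := sub_pos.2 (Real.exp_lt_exp.2 (by linarith))
  let f : ℝ × ℝ × ℝ → Sol := fun p =>
    solEl (Real.exp p.2.2 * (p.1 + p.2.1 * Real.exp s))
      (Real.exp (-p.2.2) * (p.1 + p.2.1 * Real.exp (-s))) p.2.2
  have hf : Continuous f := lattice_solEl_cont (by fun_prop) (by fun_prop) (by fun_prop)
  have hK : IsCompact (Set.Icc (0 : ℝ) 1 ×ˢ Set.Icc (0 : ℝ) 1 ×ˢ Set.Icc (0 : ℝ) s) :=
    isCompact_Icc.prod (isCompact_Icc.prod isCompact_Icc)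
  have hI := hK.image
    ((QuotientGroup.continuous_mk (N := (Lat s).map (rep s))).comp hf)
  refine ⟨?_⟩
  convert hI using 1
  symm
  rw [Set.eq_univ_iff_forall]
  intro q
  obtain ⟨⟨g, x, y, u, hg⟩, rfl⟩ := QuotientGroup.mk_surjective q
  have e0 : (⟨g, x, y, u, hg⟩ : Sol) = solEl x y u := Subtype.ext (Units.ext hg)
  rw [e0]
  set k : ℤ := ⌊u / s⌋ with hk
  set w : ℝ := u - k * s with hw
  have hw0 : 0 ≤ w := by
    have := Int.floor_le (u / s)
    rw [le_div_iff₀ hs0] at this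
    linarith
  have hw1 : w ≤ s := by
    have := Int.lt_floor_add_one (u / s)
    rw [div_lt_iff₀ hs0] at this
    linarith
  set β : ℝ := (Real.exp (-w) * x - Real.exp w * y) / (Real.exp s - Real.exp (-s)) with hβ
  set α : ℝ := Real.exp (-w) * x - β * Real.exp s with hα
  have e1 : Real.exp w * Real.exp (-w) = 1 := by rw [← Real.exp_add]; simp
  have eβ : β * (Real.exp s - Real.exp (-s)) = Real.exp (-w) * x - Real.exp w * y :=
    div_mul_cancel₀ _ hD.ne'
  have ex : x = Real.exp w * (α + β * Real.exp s) := by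
    rw [hα]
    linear_combination (-x) * e1
  have ey : y = Real.exp (-w) * (α + β * Real.exp (-s)) := by
    rw [hα]
    linear_combination (-y) * e1 + Real.exp (-w) * eβ
  let γ : El s := ⟨⌊α⌋ • ev s 0 + ⌊β⌋ • ev s 1, k⟩
  have hγ : rep s γ ∈ (Lat s).map (rep s) := ⟨γ, (mem_Lat hs γ).2 ⟨_, _, rfl⟩, rfl⟩
  refine ⟨(Int.fract α, Int.fract β, w), ⟨⟨Int.fract_nonneg _, (Int.fract_lt_one _).le⟩,
    ⟨Int.fract_nonneg _, (Int.fract_lt_one _).le⟩, hw0, hw1⟩, ?_⟩
  have e2 : solEl x y u = f (Int.fract α, Int.fract β, w) * rep s γ := by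
    change _ = solEl _ _ _ * solEl γ.v.1 γ.v.2 (k * s)
    rw [lattice_mul]
    simp only [γ, lattice_comb, Int.fract]
    congr 1
    · rw [ex]; ring
    · rw [ey]; ring
    · rw [hw]; ring
  rw [e2, QuotientGroup.mk_mul_of_mem _ hγ]
  rfl

/-- For `β ≥ 2` take `s = log λ`, `λ` the larger root of `X ^ 2 - β ^ 3 X + 1`. -/
lemma exists_Tr (hP : P.Ok) : ∃ s, Tr P s := by
  have hβ : (2 : ℝ) ≤ P.β := by
    have := hP.hβ
    exact_mod_cast (by omega : 2 ≤ P.β)
  have hT : (8 : ℝ) ≤ (P.β : ℝ) ^ 3 := by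
    have := pow_le_pow_left₀ (by norm_num) hβ 3
    linarith
  have hc : ContinuousOn (fun s : ℝ => Real.exp s + Real.exp (-s)) (Set.Icc 0 ((P.β : ℝ) ^ 3)) := by
    fun_prop
  obtain ⟨s, hs, h⟩ := intermediate_value_Icc (by linarith) hc
    (show (P.β : ℝ) ^ 3 ∈ _ from ⟨by simp only [neg_zero, Real.exp_zero]; linarith, by
      have := Real.add_one_le_exp ((P.β : ℝ) ^ 3)
      have := Real.exp_pos (-(P.β : ℝ) ^ 3)
      linarith⟩)
  refine ⟨s, lt_of_le_of_ne hs.1 ?_, h⟩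
  rintro rfl
  simp only [neg_zero, Real.exp_zero] at h
  linarith

end Pool.Agent.MP_646035_al.H91

end

-- part MP_646035_al.H91.Final
section

/-!
The growth rates of the generating sets `gens P s n`, `n ≥ n₀`, have no least element.
-/

namespace Pool.Agent.MP_646035_al.H91

open Finset Filter Topology

variable {P : Par} {s : ℝ} {n : ℕ}

lemma exists_params : ∃ (P : Par) (θ Y : ℝ), P.Ok ∧ 6 ≤ P.t * Y ^ 2 ∧
    ∀ x : ℝ, 0 ≤ x → x ≤ 1 / P.B → Conv P x θ Y := by
  obtain ⟨t, ht⟩ : ∃ t : ℝ, t = 1 / (8 * ((10 ^ 10 : ℕ) : ℝ) + 1) := ⟨_, rfl⟩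
  have ht0 : 0 < t := by rw [ht]; positivity
  have ht1 : t ≤ 1 / (6 * 10 ^ 10) := by rw [ht]; norm_num
  obtain ⟨Y, hY⟩ : ∃ Y : ℝ, Y = 1 / (100000 * t) := ⟨_, rfl⟩
  have htY : t * Y = 1 / 100000 := by rw [hY]; field_simp
  have hY1 : 600000 ≤ Y := by
    rw [hY, le_div_iff₀ (by positivity)]
    nlinarith
  obtain ⟨θ, hθ⟩ : ∃ θ : ℝ, θ = 1 / 10 ^ 13 / Y ^ 12 := ⟨_, rfl⟩
  have hθ0 : 0 < θ := by rw [hθ]; positivity
  obtain ⟨δ, hδ⟩ : ∃ δ : ℝ, δ = min 1 (θ * t ^ 2 / 200000000) := ⟨_, rfl⟩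
  have hδ0 : 0 < δ := by rw [hδ]; positivity
  have hδ1 : δ ≤ 1 := hδ ▸ min_le_left _ _
  have hδ2 : 200000000 * δ ≤ θ * t ^ 2 := by
    have : δ ≤ θ * t ^ 2 / 200000000 := hδ ▸ min_le_right _ _
    linarith
  obtain ⟨B₀, hB₀⟩ := exists_nat_ge (2 / δ ^ 76)
  let P : Par := ⟨10 ^ 10, B₀ + 10 ^ 10, 2000 * (B₀ + 10 ^ 10 + 1)⟩
  have hP : P.Ok := ⟨by norm_num [P], by simp [P], le_rfl⟩
  have hPt : P.t = t := ht.symm
  refine ⟨P, θ, Y, hP, ?_, fun x hx hxB => ?_⟩
  · rw [hPt, pow_two, ← mul_assoc, htY]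
    linarith
  · have hB : (B₀ : ℝ) ≤ P.B := by exact_mod_cast Nat.le_add_right B₀ _
    have hxδ : x ≤ δ ^ 76 / 2 := by
      refine hxB.trans ?_
      rw [← one_div_div 2 (δ ^ 76)]
      exact one_div_le_one_div_of_le (by positivity) (hB₀.trans hB)
    refine ⟨fun n hn => RB_of_small hP (dir_eC hn) hx hδ0.le hδ1 hxδ (hPt ▸ hδ2),
      RB_of_small hP dir_eP hx hδ0.le hδ1 hxδ (hPt ▸ hδ2), hθ0.le, by linarith,
      (hPt ▸ htY).le, ?_⟩
    rw [hθ, div_mul_cancel₀ _ (by positivity)]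

lemma exists_root {ρ : ℝ} (hρ : 1 < ρ) (M : ℕ) : ∃ κ : ℝ, 1 < κ ∧ κ ≤ 2 ∧ κ ^ M < ρ := by
  have h1 : ∀ᶠ κ : ℝ in 𝓝 1, κ ^ M < ρ :=
    (continuous_pow M).continuousAt.eventually_lt continuousAt_const (by simpa using hρ)
  have h2 : ∀ᶠ κ : ℝ in 𝓝 1, κ < 2 := gt_mem_nhds one_lt_two
  obtain ⟨κ, hκ, h⟩ := (((h1.and h2).filter_mono nhdsWithin_le_nhds).and
    (self_mem_nhdsWithin (s := Set.Ioi (1 : ℝ)))).exists
  exact ⟨κ, h, hκ.2.le, hκ.1⟩

/-- A lower bound for the partition function bounds the growth rate from below. -/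
lemma mul_le_one_of_Z (hP : P.Ok) (hs : Tr P s) (hn : 1 ≤ n) {e x A C : ℝ}
    (he : IsRate (gens P s n) e) (hx : 0 < x) (hxe : x * e ≤ 1) (hC : 0 < C)
    (hZ : ∀ L : ℕ, A ^ L ≤ C * Z P (eC n) x (Ico 0 (L : ℤ))) : x * A ≤ 1 := by
  by_contra hcon
  push Not at hcon
  set M := 8 * P.β
  obtain ⟨κ, hκ, -, hκM⟩ := exists_root hcon (M + 1)
  obtain ⟨D, hD, hb⟩ := he.exists_bound hκ
  have he1 := he.one_le
  have hq : x * (e * κ) ≤ κ := by nlinarith
  have hq0 : 0 ≤ x * (e * κ) := by positivity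
  have key : ∀ L : ℕ, (x * A / κ ^ (M + 1)) ^ L ≤
      C * 2 ^ n * D * (e * κ) ^ n * (M + 1) * ((L : ℝ) + 1) := by
    intro L
    have h1 : ∀ k ∈ range (M * L + 1), x ^ L * (x ^ k * ((ball (gens P s n) (L + n + k)).ncard : ℝ))
        ≤ D * (e * κ) ^ n * (κ ^ (M + 1)) ^ L := by
      intro k hk
      have hk' : L + k ≤ (M + 1) * L := by
        have := mem_range.1 hk
        nlinarith
      calc _ ≤ x ^ L * (x ^ k * (D * (e * κ) ^ (L + n + k))) := by gcongr; exact hb _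
        _ = D * (e * κ) ^ n * (x * (e * κ)) ^ (L + k) := by ring
        _ ≤ D * (e * κ) ^ n * κ ^ (L + k) := by gcongr
        _ ≤ D * (e * κ) ^ n * κ ^ ((M + 1) * L) := by gcongr; exact hκ.le
        _ = _ := by rw [pow_mul]
    have h2 := sum_le_card_nsmul _ _ _ h1
    rw [card_range, nsmul_eq_mul, ← mul_sum] at h2
    have h3 := (hZ L).trans (mul_le_mul_of_nonneg_left (Z_le_ball hP hs hn hx.le L) hC.le)
    have h4 : ((M * L + 1 : ℕ) : ℝ) ≤ (M + 1) * ((L : ℝ) + 1) := by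
      push_cast
      nlinarith [Nat.cast_nonneg (α := ℝ) M, Nat.cast_nonneg (α := ℝ) L]
    rw [div_pow, div_le_iff₀ (by positivity), mul_pow]
    calc x ^ L * A ^ L ≤ x ^ L * (C * (2 ^ n * ∑ k ∈ range (M * L + 1),
          x ^ k * ((ball (gens P s n) (L + n + k)).ncard : ℝ))) := by gcongr
      _ = C * 2 ^ n * (x ^ L * ∑ k ∈ range (M * L + 1),
          x ^ k * ((ball (gens P s n) (L + n + k)).ncard : ℝ)) := by ring
      _ ≤ C * 2 ^ n * ((M + 1) * ((L : ℝ) + 1) * (D * (e * κ) ^ n * (κ ^ (M + 1)) ^ L)) := by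
          exact mul_le_mul_of_nonneg_left (h2.trans (by gcongr)) (by positivity)
      _ = _ := by ring
  set ρ := x * A / κ ^ (M + 1)
  have hρ : 1 < ρ := (one_lt_div (by positivity)).2 hκM
  set K := C * 2 ^ n * D * (e * κ) ^ n * (M + 1)
  have hlim : Tendsto (fun L : ℕ => ((L + 1 : ℕ) : ℝ) ^ 1 / ρ ^ (L + 1)) atTop (𝓝 0) :=
    (tendsto_pow_const_div_const_pow_of_one_lt 1 hρ).comp (tendsto_add_atTop_nat 1)
  have hlim2 := hlim.const_mul (K * ρ)
  rw [mul_zero] at hlim2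
  obtain ⟨L, hL⟩ := (hlim2.eventually (gt_mem_nhds one_pos)).exists
  have hp : 0 < ρ ^ L := by positivity
  have : K * ρ * (((L + 1 : ℕ) : ℝ) ^ 1 / ρ ^ (L + 1)) = K * ((L : ℝ) + 1) / ρ ^ L := by
    push_cast
    field_simp
    ring
  rw [this, div_lt_one hp] at hL
  exact absurd (key L) (not_le.2 hL)

lemma B_lt_rate (hP : P.Ok) (hs : Tr P s) (hn : 1 ≤ n) {θ Y e : ℝ}
    (hc : Conv P (1 / P.B) θ Y) (he : IsRate (gens P s n) e) : (P.B : ℝ) < e := by
  have hB : (2 : ℝ) ≤ P.B := by exact_mod_cast hP.h2.trans hP.hB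
  have hh : (2 : ℝ) ≤ P.h := by exact_mod_cast hP.h2
  by_contra hcon
  push Not at hcon
  obtain ⟨C, hC, hZ⟩ := Z_lower hP hc hn
  have := mul_le_one_of_Z hP hs hn he (by positivity)
    (by rw [one_div_mul_eq_div, div_le_one (by positivity)]; exact hcon) hC hZ
  rw [one_div_mul_eq_div, div_le_one (by positivity), Par.Nb] at this
  have h2 : (9 : ℝ) ≤ (4 * P.h + 1 / 2) ^ 2 := by nlinarith
  nlinarith

theorem exists_smaller (hP : P.Ok) (hs : Tr P s) {θ Y : ℝ} (hY : 6 ≤ P.t * Y ^ 2)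
    (hc : ∀ x : ℝ, 0 ≤ x → x ≤ 1 / P.B → Conv P x θ Y) :
    ∃ n₀, ∀ n, n₀ ≤ n → ∀ e, IsRate (gens P s n) e →
      ∃ n', n₀ ≤ n' ∧ ∀ e', IsRate (gens P s n') e' → e' < e := by
  obtain ⟨n₀, hn₀, h⟩ := analytic (θ := θ) hP hY
  refine ⟨n₀, fun n hn e he => ?_⟩
  have hB : (2 : ℝ) ≤ P.B := by exact_mod_cast hP.h2.trans hP.hB
  have hBe := B_lt_rate hP hs (hn₀.trans hn) (hc _ (by positivity) le_rfl) he
  have he0 : 0 < e := by linarith
  have hx : 0 < 1 / e := by positivity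
  have hxB : 1 / e ≤ 1 / P.B := one_div_le_one_div_of_le (by positivity) hBe.le
  have hx2 : 1 / e ≤ 1 / 2 := one_div_le_one_div_of_le (by positivity) (by linarith)
  obtain ⟨n', hn', A₁, A₂, C, hA₁, hA, hC, hup, hlow⟩ := h n hn _ (hc _ hx.le hxB)
  refine ⟨n', hn', fun e' he' => ?_⟩
  have h2 := mul_le_one_of_Z hP hs (hn₀.trans hn) he hx (by field_simp; rfl) hC hlow
  have h1 : 1 / e * A₁ < 1 := (mul_lt_mul_of_pos_left hA hx).trans_le h2
  obtain ⟨μ, hμ, hμ2, hμM⟩ := exists_root (ρ := 1 / (1 / e * A₁))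
    (by rw [one_lt_div (by positivity)]; exact h1) (8 * P.β + 1)
  rw [lt_div_iff₀ (by positivity)] at hμM
  obtain ⟨C', hC'⟩ := ball_upper (C := C) hP hs (hn₀.trans hn') (x := μ * (1 / e))
    (by positivity) (by nlinarith) fun a L => by
      have h3 := Z_scale (e := eC n') hP hx.le hμ.le (Ico a (a + L))
      rw [Int.card_Ico, add_sub_cancel_left, Int.toNat_natCast] at h3
      calc _ ≤ (μ * (1 / e)) ^ L * (μ ^ (8 * P.β * L) * (C * A₁ ^ L)) := by
            gcongr
            exact h3.trans (by gcongr; exact hup a L)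
        _ = C * (μ ^ (8 * P.β + 1) * (1 / e * A₁)) ^ L := by
            rw [pow_mul, pow_succ]
            simp only [mul_pow]
            ring
        _ ≤ C * 1 := by
            gcongr
            exact pow_le_one₀ (by positivity) hμM.le
        _ = C := mul_one C
  refine (he'.le_of_bound (by positivity) hC').trans_lt ?_
  rw [div_lt_iff₀ (by positivity)]
  field_simp
  exact hμ

lemma rep_mem (hP : P.Ok) {g : El s} (hg : g ∈ gens P s n) : rep s g ∈ (Lat s).map (rep s) := by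
  refine Subgroup.mem_map_of_mem _ ?_
  rw [← closure_gens hP s n]
  exact Subgroup.subset_closure hg

open Classical in
/-- The generating sets inside the lattice. -/
noncomputable def gensG (hP : P.Ok) (s : ℝ) (n : ℕ) : Finset ((Lat s).map (rep s)) :=
  (gens P s n).attach.image fun g => ⟨rep s g.1, rep_mem hP g.2⟩

open Classical in
lemma image_gensG (hP : P.Ok) (s : ℝ) (n : ℕ) :
    (gensG hP s n).image ((Lat s).map (rep s)).subtype = (gens P s n).image (rep s) := by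
  ext y
  simp only [gensG, Finset.mem_image, Finset.mem_attach, true_and]
  constructor
  · rintro ⟨_, ⟨x, rfl⟩, rfl⟩
    exact ⟨x.1, x.2, rfl⟩
  · rintro ⟨x, hx, rfl⟩
    exact ⟨_, ⟨⟨x, hx⟩, rfl⟩, rfl⟩

lemma closure_gensG (hP : P.Ok) (s : ℝ) (n : ℕ) :
    Subgroup.closure (gensG hP s n : Set ((Lat s).map (rep s))) = ⊤ := by
  classical
  apply Subgroup.map_injective (Subgroup.subtype_injective _)
  rw [MonoidHom.map_closure, ← Finset.coe_image, image_gensG, Finset.coe_image,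
    ← MonoidHom.map_closure, closure_gens hP, ← MonoidHom.range_eq_map, Subgroup.range_subtype]

lemma mem_growthSet (hP : P.Ok) (hs : Tr P s) {e : ℝ} (he : IsRate (gens P s n) e) :
    e ∈ growthSet ((Lat s).map (rep s)) := by
  classical
  refine ⟨gensG hP s n, closure_gensG hP s n, ?_⟩
  have : ∀ r, (ball (gensG hP s n) r).ncard = (ball (gens P s n) r).ncard := fun r => by
    rw [← ncard_ball_map _ (Subgroup.subtype_injective _), image_gensG,
      ncard_ball_map _ (rep_injective hs.1)]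
  simpa only [this, IsRate] using he

theorem main : ∃ Γ : Subgroup Sol, DiscreteTopology Γ ∧ CompactSpace (Sol ⧸ Γ) ∧ Γ.FG ∧
    (∃ e ∈ growthSet Γ, 1 < e) ∧ ∃ A ⊆ growthSet Γ, A.Nonempty ∧ ∀ a, ¬ IsLeast A a := by
  obtain ⟨P, θ, Y, hP, hY, hc⟩ := exists_params
  obtain ⟨s, hs⟩ := exists_Tr hP
  obtain ⟨n₀, h⟩ := exists_smaller hP hs hY hc
  refine ⟨(Lat s).map (rep s), discrete_Lat hs, compact_quot hs, ?_, ?_,
    {e | ∃ n, n₀ ≤ n ∧ IsRate (gens P s n) e}, ?_, ?_, ?_⟩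
  · rw [← Group.fg_iff_subgroup_fg]
    exact ⟨⟨gensG hP s 0, closure_gensG hP s 0⟩⟩
  · obtain ⟨e, he⟩ := exists_isRate (gens P s n₀)
    obtain ⟨n', -, hM⟩ := h n₀ le_rfl e he
    obtain ⟨e', he'⟩ := exists_isRate (gens P s n')
    exact ⟨e, mem_growthSet hP hs he, he'.one_le.trans_lt (hM e' he')⟩
  · rintro e ⟨n, -, he⟩
    exact mem_growthSet hP hs he
  · obtain ⟨e, he⟩ := exists_isRate (gens P s n₀)
    exact ⟨e, n₀, le_rfl, he⟩
  · rintro e ⟨⟨n, hn, he⟩, hmin⟩
    obtain ⟨n', hn', hM⟩ := h n hn e he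
    obtain ⟨e', he'⟩ := exists_isRate (gens P s n')
    exact absurd (hmin ⟨n', hn', he'⟩) (not_le.2 (hM e' he'))

end Pool.Agent.MP_646035_al.H91

end
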