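import Pool.Agent.MP_646035_al.Cx.Std
import Pool.Agent.MP_646035_al.Cx.Torus
import Pool.Agent.MP_646035_al.Mg.H24_Wo
import Pool.Agent.MP_646035_al.PC.Main

attribute [-instance] CommSemiring.toSemiring MonTypeEquivalenceMon.monMonoid Prod.instAddCommGroup
  RKHS.instFunLike T5Space.toT1Space SubringClass.toRing Distrib.toMul
  Action.FintypeCat.instMulActionObjFiniteOf Valued.toUniformSpace NonAssocSemiring.toMulZeroOneClass
  littleWedderburn ProperSMul.toContinuousSMul NonUnitalRingHomClass.toMulHomClass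
  MonoidWithZero.toMulZeroOneClass LieAdmissibleAlgebra.toModule SetLike.GradeZero.instSemiring
  IdemSemiring.toCanonicallyOrderedAdd LeftPreLieAlgebra.toModule GrpTypeEquivalenceGrp.grpGroup
  SetLike.GradeZero.instRing RightPreLieAlgebra.toModule NonarchimedeanRing.toIsTopologicalRing
  instUniformSpaceSubtype AddQuantale.instAddLeftMono SetLike.GradeZero.instMonoid
  NonUnitalAlgSemiHomClass.toMulHomClass IsTopologicalTorsor.toContinuousSMul NumberField.to_charZero
  continuousDiv_of_discreteTopology Nontrivial.to_nonempty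

-- part MP_646035_al.Cx.Loc
section

/-!
The surfaces are connected and locally planar.
-/

namespace Pool.Agent.MP_646035_al.MC

open Set Topology Metric Pool.Agent.MP_4a6971_al Mcg H66 H83

variable {E B : Type} [TopologicalSpace E] [TopologicalSpace B]

theorem Loc.small (h : Loc E) {x : E} {U : Set E} (hU : U ∈ 𝓝 x) :
    ∃ d : ℂ → E, IsOpenEmbedding d ∧ d 0 = x ∧ ∀ z, d z ∈ U := by
  obtain ⟨d, hd, rfl⟩ := h x
  obtain ⟨r, r0, hr⟩ := Metric.mem_nhds_iff.1 (hd.continuous.continuousAt.preimage_mem_nhds hU)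
  let s := OpenPartialHomeomorph.univBall (E := ℂ) (0 : ℂ) r
  refine ⟨d ∘ s, hd.comp (s.isOpenEmbedding (OpenPartialHomeomorph.univBall_source _ _)),
    congrArg d (OpenPartialHomeomorph.univBall_apply_zero _ _), fun z => hr ?_⟩
  rw [← OpenPartialHomeomorph.univBall_target (E := ℂ) (0 : ℂ) r0]
  exact s.map_source (by simp [s])

theorem Loc.cover (h : Loc E) {π : E → B} (hπ : IsLocalHomeomorph π) (hs : Function.Surjective π) :
    Loc B := fun x => by
  obtain ⟨e, rfl⟩ := hs x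
  obtain ⟨φ, h1, h2⟩ := hπ e
  obtain ⟨d, d1, d2, d3⟩ := h.small (φ.open_source.mem_nhds h1)
  exact ⟨π ∘ d, .of_continuous_injective_isOpenMap (hπ.continuous.comp d1.continuous)
    (fun z w e => d1.injective (φ.injOn (d3 z) (d3 w) (by rw [← h2]; exact e)))
    (hπ.isOpenMap.comp d1.isOpenMap), congrArg π d2⟩

theorem Loc.emb (h : Loc B) {k : E → B} (hk : IsOpenEmbedding k) : Loc E := fun x => by
  obtain ⟨d, d1, d2, d3⟩ := h.small (hk.isOpen_range.mem_nhds ⟨x, rfl⟩)
  choose s hs using d3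
  exact ⟨s, .of_comp s hk (by rwa [show k ∘ s = d from funext hs]), hk.injective ((hs 0).trans d2)⟩

theorem loc_complex : Loc ℂ := fun x =>
  ⟨Homeomorph.addRight x, (Homeomorph.addRight x).isOpenEmbedding, zero_add x⟩

theorem sphere_homeo : Nonempty (OnePoint ℂ ≃ₜ Surface 0) :=
  ⟨Homeomorph.onePointCongr (Y := Hyper_C 0)
    { toFun := fun y => ⟨(y ^ 2, y), by simp⟩
      invFun := fun p => p.1.2
      left_inv := fun _ => rfl
      right_inv := fun p => Subtype.ext (Prod.ext (by simpa using p.2) rfl)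
      continuous_toFun := by fun_prop
      continuous_invFun := by fun_prop }⟩

theorem loc_onePoint : Loc (OnePoint ℂ) := by
  have fin : ∀ a : ℂ, ∃ d : ℂ → OnePoint ℂ, IsOpenEmbedding d ∧ d 0 = a := fun a =>
    ⟨_, OnePoint.isOpenEmbedding_coe.comp (Homeomorph.addRight a).isOpenEmbedding, by simp⟩
  intro x
  induction x using OnePoint.rec with
  | coe a => exact fin a
  | infty =>
    let e := onePointEquivSphereOfFinrankEq (ι := Fin 3) (V := ℂ) (by simp)
    let n := e.trans ((Homeomorph.neg _).trans e.symm)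
    obtain ⟨a, ha⟩ := OnePoint.ne_infty_iff_exists.1 (show n.symm OnePoint.infty ≠ _ from fun h =>
      ne_neg_of_mem_unit_sphere ℝ (e OnePoint.infty) (e.symm_apply_eq.1 (n.symm_apply_eq.1 h).symm).symm)
    obtain ⟨d, d1, d2⟩ := fin a
    exact ⟨n ∘ d, n.isOpenEmbedding.comp d1, by rw [Function.comp, d2, ha, n.apply_symm_apply]⟩

theorem loc_conn (g : ℕ) : Loc (Surface g) ∧ ConnectedSpace (Surface g) := by
  rcases g with _ | _ | g
  · obtain ⟨e⟩ := sphere_homeo
    exact ⟨loc_onePoint.emb e.symm.isOpenEmbedding, e.surjective.connectedSpace e.continuous⟩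
  · obtain ⟨π, hπ⟩ := torus_cover
    let _ := torAct
    exact ⟨(loc_complex.emb Complex.equivRealProdCLM.symm.toHomeomorph.isOpenEmbedding).cover
      hπ.isCoveringMap.isLocalHomeomorph hπ.surjective,
      hπ.surjective.connectedSpace hπ.continuous⟩
  · obtain ⟨Y⟩ := exists_poly (g := g + 1 + 1) (by omega)
    let _ := MulAction.compHom X Y.σ
    obtain ⟨π, hπ⟩ := exists_cover Y
    exact ⟨(loc_complex.emb kl_emb).cover hπ.isCoveringMap.isLocalHomeomorph hπ.surjective,
      hπ.surjective.connectedSpace hπ.continuous⟩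

theorem loc_surface (g : ℕ) : Loc (Surface g) := (loc_conn g).1

instance (g : ℕ) : ConnectedSpace (Surface g) := (loc_conn g).2

end Pool.Agent.MP_646035_al.MC

end

-- part MP_646035_al.Cx.Low
section

/-!
The sphere with at most two marks and the torus without marks.
-/

namespace Pool.Agent.MP_646035_al.MC

open Set Filter Topology Pool.Agent.MP_4a6971_al Mcg H83

section Growth

variable {M G H : Type*} [Group M] [Group G] [Group H]

/-- All balls grow polynomially. -/
def PolyG (G : Type*) [Group G] : Prop :=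
  ∀ S : Finset G, ∃ C d : ℕ, ∀ n, (ball S n).ncard ≤ C * (n + 1) ^ d

theorem low_count (j : M →* G) (S : Finset M) (n : ℕ) : (ball S n).ncard ≤
    (j '' ball S n).ncard * (ball S (n + n) ∩ (j.ker : Set M)).ncard := by
  have ex : ∀ y : G, ∃ x : M, y ∈ j '' ball S n → x ∈ ball S n ∧ j x = y := fun y => by
    by_cases h : y ∈ j '' ball S n
    · obtain ⟨x, h1, h2⟩ := h
      exact ⟨x, fun _ => ⟨h1, h2⟩⟩
    · exact ⟨1, fun g => (h g).elim⟩
  choose s hs using ex
  rw [← Set.ncard_prod]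
  refine Set.ncard_le_ncard_of_injOn (fun x => (j x, (s (j x))⁻¹ * x)) (fun x hx => ?_)
    (fun x _ y _ h => ?_) (((ball_finite S n).image _).prod ((ball_finite S _).inter_of_left _))
  · obtain ⟨h1, h2⟩ := hs (j x) ⟨x, hx, rfl⟩
    exact ⟨⟨x, hx, rfl⟩, mul_mem_ball (inv_mem_ball h1) hx, by simp only [SetLike.mem_coe, MonoidHom.mem_ker, map_mul, map_inv, h2, inv_mul_cancel]⟩
  · obtain ⟨h1, h2⟩ := Prod.ext_iff.1 h
    simp only at h1 h2
    rw [h1] at h2
    exact mul_left_cancel h2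

theorem low_pow (n d : ℕ) : (n + n + 1) ^ d ≤ 2 ^ d * (n + 1) ^ d := by
  rw [← mul_pow]
  exact Nat.pow_le_pow_left (by omega) d

theorem low_finite [Finite G] {j : M →* G} (h : PolyKer j) : PolyG M := fun S => by
  obtain ⟨C, d, hd⟩ := h S
  refine ⟨Nat.card G * C * 2 ^ d, d, fun n => (low_count j S n).trans ?_⟩
  rw [mul_assoc, mul_assoc]
  exact Nat.mul_le_mul (Set.ncard_le_card _)
    ((hd _).trans (Nat.mul_le_mul_left _ (low_pow n d)))

theorem PolyG.sub (h : PolyG M) (i : H →* M) {q : H →* G} (hq : Function.Surjective q)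
    (hk : i.ker ≤ q.ker) : PolyG G := fun S => by
  classical
  obtain ⟨C, d, hd⟩ := h ((S.image (Function.surjInv hq)).image i)
  refine ⟨C, d, fun n => le_trans ?_ (hd n)⟩
  have e : S = (S.image (Function.surjInv hq)).image q := by
    rw [Finset.image_image, Function.comp_def]
    simp [Function.surjInv_eq hq]
  have ex : ∀ y ∈ ball S n, ∃ x ∈ ball (S.image (Function.surjInv hq)) n, q x = y := by
    rw [e, ball_map, ← e]
    exact fun y hy => hy
  choose! s h1 h2 using ex
  rw [ball_map]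
  refine Set.ncard_le_ncard_of_injOn (fun y => i (s y)) (fun y hy => ⟨_, h1 y hy, rfl⟩)
    (fun x hx y hy hxy => ?_) ((ball_finite _ _).image _)
  rw [← h2 x hx, ← h2 y hy]
  exact (MonoidHom.eq_iff q).2 (hk ((MonoidHom.eq_iff i).1 hxy))

theorem low_iso {i : H →* M} {q : H →* G} (hi : Function.Surjective i)
    (hq : Function.Surjective q) (hk : i.ker = q.ker) (h : WO M) : WO G :=
  WO.of_equiv ((QuotientGroup.quotientKerEquivOfSurjective q hq).symm.trans
    ((QuotientGroup.quotientMulEquivOfEq hk.symm).trans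
      (QuotientGroup.quotientKerEquivOfSurjective i hi))) h

end Growth

variable {X : Type} [TopologicalSpace X]

/-- `p` can be moved to `q` by an isotopy through admissible homeomorphisms. -/
def Marks.Slide (c : Marks X) (p q : X) : Prop :=
  ∃ K : C(unitInterval × X, X), (∀ t, ∃ h ∈ c.Adm, ∀ x, K (t, x) = h x) ∧ (∀ x, K (0, x) = x) ∧
    K (1, p) = q

theorem low_shrink : ∃ s : ℂ → ℂ, IsOpenEmbedding s ∧ (∀ z, ‖z‖ ≤ 1 → s z = z) ∧ ∀ z, ‖s z‖ < 2 := by
  have n1 : ∀ z : ℂ, 1 ≤ ‖z‖ →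
      ‖((2 * max 1 ‖z‖ - 1) / max 1 ‖z‖ ^ 2) • z‖ = 2 - 1 / ‖z‖ := fun z h => by
    rw [max_eq_right h, norm_smul, Real.norm_of_nonneg (div_nonneg (by linarith) (by positivity))]
    field_simp
  have n2 : ∀ z : ℂ, 1 ≤ ‖z‖ → ‖z‖ < 2 →
      ‖(1 / (max 1 ‖z‖ * (2 - max 1 ‖z‖))) • z‖ = 1 / (2 - ‖z‖) := fun z h h' => by
    have : 0 < 2 - ‖z‖ := by linarith
    rw [max_eq_right h, norm_smul, Real.norm_of_nonneg (by positivity)]
    field_simp
  have e1 : ∀ z : ℂ, ‖z‖ ≤ 1 → ((2 * max 1 ‖z‖ - 1) / max 1 ‖z‖ ^ 2) • z = z := fun z h => by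
    rw [max_eq_left h]
    norm_num
  have e2 : ∀ z : ℂ, ‖z‖ ≤ 1 → (1 / (max 1 ‖z‖ * (2 - max 1 ‖z‖))) • z = z := fun z h => by
    rw [max_eq_left h]
    norm_num only [one_smul]
  have lt : ∀ z : ℂ, ‖((2 * max 1 ‖z‖ - 1) / max 1 ‖z‖ ^ 2) • z‖ < 2 := fun z => by
    rcases le_total ‖z‖ 1 with h | h
    · rw [e1 z h]
      linarith
    · rw [n1 z h]
      have : 0 < 1 / ‖z‖ := by positivity
      linarith
  have pos : ∀ z : ℂ, 0 < max 1 ‖z‖ := fun z => one_pos.trans_le (le_max_left _ _)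
  let e : OpenPartialHomeomorph ℂ ℂ :=
    { toFun := fun z => ((2 * max 1 ‖z‖ - 1) / max 1 ‖z‖ ^ 2) • z
      invFun := fun z => (1 / (max 1 ‖z‖ * (2 - max 1 ‖z‖))) • z
      source := univ
      target := Metric.ball 0 2
      map_source' := fun z _ => mem_ball_zero_iff.2 (lt z)
      map_target' := fun _ _ => trivial
      left_inv' := fun z _ => by
        rcases le_total ‖z‖ 1 with h | h
        · rw [e1 z h, e2 z h]
        · have h1 : 1 / ‖z‖ ≤ 1 := (div_le_one (by linarith)).2 h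
          have h2 : 2 * ‖z‖ - 1 ≠ 0 := by linarith
          rw [n1 z h, max_eq_right h, max_eq_right (by linarith), smul_smul,
            show 2 - 1 / ‖z‖ = (2 * ‖z‖ - 1) / ‖z‖ by field_simp]
          convert one_smul ℝ z
          field_simp
          ring
      right_inv' := fun z hz => by
        have h' := mem_ball_zero_iff.1 hz
        rcases le_total ‖z‖ 1 with h | h
        · rw [e2 z h, e1 z h]
        · have h2 : 0 < 2 - ‖z‖ := by linarith
          have h1 : 1 ≤ 1 / (2 - ‖z‖) := (one_le_div h2).2 (by linarith)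
          rw [n2 z h h', max_eq_right h, max_eq_right h1, smul_smul]
          convert one_smul ℝ z
          field_simp
          ring
      open_source := isOpen_univ
      open_target := Metric.isOpen_ball
      continuousOn_toFun := (Continuous.smul (Continuous.div (by fun_prop) (by fun_prop)
        fun z => (pow_pos (pos z) 2).ne') continuous_id).continuousOn
      continuousOn_invFun := ContinuousOn.smul (ContinuousOn.div (by fun_prop) (by fun_prop)
        fun z hz => (mul_pos (pos z) (sub_pos.2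
          (max_lt (by norm_num) (mem_ball_zero_iff.1 hz)))).ne') continuousOn_id }
  exact ⟨e, e.isOpenEmbedding rfl, e1, lt⟩

/-- One more marked point. -/
theorem low_add [Infinite X] (c : Marks X) : ∃ (c' : Marks X) (q : X),
    c'.P.card = c.P.card + 1 ∧ c'.b = c.b ∧ (∀ x, x ∈ c'.P ↔ x = q ∨ x ∈ c.P) ∧ q ∉ c.P ∧
      (∀ i z, ‖z‖ ≤ 1 → c.d i z ≠ q) ∧ ∀ f : X ≃ₜ X, f q = q → (f ∈ c'.Adm ↔ f ∈ c.Adm) := by
  obtain ⟨s, s1, s2, s3⟩ := low_shrink
  obtain ⟨q, q1, q2⟩ : ∃ q, q ∉ c.P ∧ ∀ i z, ‖z‖ < 2 → c.d i z ≠ q := by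
    rcases isEmpty_or_nonempty (Fin c.b) with h | ⟨⟨i⟩⟩
    · exact (Infinite.exists_notMem_finset c.P).imp fun q hq => ⟨hq, h.elim⟩
    · refine ⟨c.d i 2, c.avoid i 2, fun j z hz e => ?_⟩
      obtain rfl := c.disj _ _ _ _ e
      rw [(c.emb j).injective e] at hz
      simp at hz
  refine ⟨⟨c.P.cons q q1, c.b, fun i z => c.d i (s z), fun i => (c.emb i).comp s1,
    fun i j z w => c.disj i j _ _, fun i z h => (Finset.mem_cons.1 h).elim (q2 i _ (s3 z))
      (c.avoid i _)⟩, q, Finset.card_cons q1, rfl, fun x => Finset.mem_cons (h := q1), q1,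
    fun i z hz => q2 i z (by linarith), fun f hf => and_congr ⟨fun h x => ?_, fun h x => ?_⟩
      (forall_congr' fun i => forall_congr' fun z => forall_congr' fun hz => by
        simp only [s2 z hz])⟩
  · have h1 := h x
    have h2 : f x = q ↔ x = q := by rw [← f.injective.eq_iff (a := x), hf]
    simp only [Finset.mem_cons] at h1
    by_cases e : x = q
    · rw [e, hf]
    · simpa only [h2, e, false_or] using h1
  · simp only [Finset.mem_cons, h x]
    rw [← f.injective.eq_iff (a := x), hf]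

/-- The two mapping class groups are linked by the homeomorphisms that fix the new point. -/
theorem low_link [T1Space X] {c c' : Marks X} {q : X} (hq : q ∈ c'.P)
    (hA : ∀ f : X ≃ₜ X, f q = q → (f ∈ c'.Adm ↔ f ∈ c.Adm))
    (hs : ∀ f ∈ c.Adm, c.Slide (f q) q) :
    ∃ (H : Subgroup c.Homeo) (i : H →* c'.MCG) (k : H →* c.MCG), Function.Surjective k ∧
      i.ker ≤ k.ker ∧ ((∀ f ∈ c'.Adm, f q = q) → Function.Surjective i) ∧
      ((∀ K : C(unitInterval × X, X), (∀ t, ∃ h ∈ c.Adm, ∀ x, K (t, x) = h x) →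
        (∀ x, K (0, x) = x) → K (1, q) = q → ∃ K' : C(unitInterval × X, X),
          (∀ t, ∃ h ∈ c.Adm, h q = q ∧ ∀ x, K' (t, x) = h x) ∧ (∀ x, K' (0, x) = x) ∧
            ∀ x, K' (1, x) = K (1, x)) → k.ker ≤ i.ker) := by
  let H : Subgroup c.Homeo :=
    { carrier := {f | f.1 q = q}
      one_mem' := rfl
      mul_mem' := fun {f g} a b => (congrArg f.1 b).trans a
      inv_mem' := fun {f} a => f.1.symm_apply_eq.2 a.symm }
  let ι : H →* c'.Homeo := MonoidHom.mk' (fun f => ⟨f.1.1, f.1.2.1, (hA _ f.2).2 f.1.2.2⟩)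
    fun _ _ => rfl
  refine ⟨H, (QuotientGroup.mk' _).comp ι, (QuotientGroup.mk' _).comp H.subtype, fun y => ?_,
    fun f hf => ?_, fun h y => ?_, fun h f hf => ?_⟩
  · obtain ⟨f, rfl⟩ := QuotientGroup.mk_surjective y
    obtain ⟨K, k1, k2, k3⟩ := hs f.1 f.2.2
    obtain ⟨u, u1, u2⟩ := k1 1
    have hu : (⟨u, actsTrivially_of_homotopy 2 K k2 u2, u1⟩ : c.Homeo) ∈ c.Zero := ⟨K, k1, k2, u2⟩
    refine ⟨⟨⟨u, actsTrivially_of_homotopy 2 K k2 u2, u1⟩ * f, (u2 _).symm.trans k3⟩, ?_⟩
    change QuotientGroup.mk (_ * f) = _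
    rw [QuotientGroup.mk_mul, (QuotientGroup.eq_one_iff _).2 hu, one_mul]
  · obtain ⟨K, k1, k2, k3⟩ := (QuotientGroup.eq_one_iff (ι f)).1 hf
    refine (QuotientGroup.eq_one_iff f.1).2 ⟨K, fun t => ?_, k2, k3⟩
    obtain ⟨u, u1, u2⟩ := k1 t
    have e : K (t, q) = K (0, q) := isPreconnected_univ.constant_of_mapsTo
      c'.P.finite_toSet.isDiscrete (f := fun t => K (t, q)) (by fun_prop) (fun r _ => by
        obtain ⟨v, v1, v2⟩ := k1 r
        exact mem_of_eq_of_mem (v2 q) ((v1.1 q).2 hq)) trivial trivial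
    exact ⟨u, (hA u (by rw [← u2, e, k2])).1 u1, u2⟩
  · obtain ⟨f, rfl⟩ := QuotientGroup.mk_surjective y
    exact ⟨⟨⟨f.1, f.2.1, (hA _ (h _ f.2.2)).1 f.2.2⟩, h _ f.2.2⟩, rfl⟩
  · obtain ⟨K, k1, k2, k3⟩ := (QuotientGroup.eq_one_iff f.1).1 hf
    obtain ⟨K', l1, l2, l3⟩ := h K k1 k2 ((k3 q).trans f.2)
    refine (QuotientGroup.eq_one_iff (ι f)).2 ⟨K', fun t => ?_, l2, fun x => (l3 x).trans (k3 x)⟩
    obtain ⟨u, u1, u2, u3⟩ := l1 t
    exact ⟨u, (hA u u2).2 u1, u3⟩

theorem low_infinite (g : ℕ) : Infinite (Surface g) :=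
  Infinite.of_injective (fun x : ℂ => Hyper_pt (Hyper_r g x)) fun _ _ h =>
    congrArg (fun p : Hyper_C g => p.1.1) (Hyper_pt_inj h)

theorem low_sphere (hC : GoalC)
    (hs : ∀ (c : Marks (Surface 0)) (p q : Surface 0), p ∉ c.P → q ∉ c.P →
      (∀ i z, ‖z‖ ≤ 1 → c.d i z ≠ p) → (∀ i z, ‖z‖ ≤ 1 → c.d i z ≠ q) → c.Slide p q) (k : ℕ) :
    ∀ c : Marks (Surface 0), c.P.card + c.b + k = 3 → PolyG c.MCG := by
  have := low_infinite 0
  induction k with
  | zero =>
    intro c hc
    obtain ⟨Γ, _, _, Y, A, j, -, -, h1, h2, -⟩ := hC 0 c (by omega)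
    have := h2 ⟨rfl, hc⟩
    exact low_finite h1
  | succ k ih =>
    intro c hc
    obtain ⟨c', q, h1, h2, h3, h4, h5, h6⟩ := low_add c
    obtain ⟨H, i, j, a, b, -⟩ := low_link ((h3 q).2 (Or.inl rfl)) h6 fun f hf =>
      hs c _ _ (fun e => h4 ((hf.1 q).1 e)) h4
        (fun i z hz e => h5 i z hz (f.injective ((hf.2 i z hz).trans e))) h5
    exact (ih c' (by omega)).sub i a b

theorem low_torus (hAB : GoalAB) (hC : GoalC) (c : Marks (Surface 1)) (hc : c.P.card + c.b = 0) :
    WO c.MCG := by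
  have := low_infinite 1
  obtain ⟨e⟩ := torus_homeo
  obtain ⟨c', q, h1, h2, h3, -, -, h6⟩ := low_add c
  have hP : c.P = ∅ := Finset.card_eq_zero.1 (by omega)
  have all : ∀ f, f ∈ c.Adm := fun f =>
    ⟨fun x => by simp [hP], fun i => absurd i.2 (by omega)⟩
  let τ : Circle × Circle → Surface 1 ≃ₜ Surface 1 := fun u =>
    e.symm.trans ((Homeomorph.mulLeft u).trans e)
  obtain ⟨H, i, j, a, b, a', b'⟩ := low_link ((h3 q).2 (Or.inl rfl)) h6 fun f _ => by
    let γ := PathConnectedSpace.somePath 1 (e.symm q / e.symm (f q))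
    exact ⟨⟨fun p => e (γ p.1 * e.symm p.2), by fun_prop⟩, fun t => ⟨τ (γ t), all _, fun _ => rfl⟩,
      fun x => by simp only [ContinuousMap.coe_mk, Path.source, one_mul, Homeomorph.apply_symm_apply], by simp only [ContinuousMap.coe_mk, Path.target, div_mul_cancel, Homeomorph.apply_symm_apply]⟩
  obtain ⟨Γ, _, _, Y, A, l, l1, l2, l3, -, l4⟩ := hC 1 c' (by omega)
  refine low_iso (a' fun f hf => ?_) a (le_antisymm b (b' fun K k1 k2 k3 => ?_))
    (WO.of_polyKer l2 l3 (hAB Γ Y A l1 (l4 (by omega))))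
  · simpa [hP] using (h3 _).1 ((hf.1 q).2 ((h3 q).2 (Or.inl rfl)))
  · refine ⟨⟨fun p => e (e.symm q / e.symm (K (p.1, q)) * e.symm (K p)), by fun_prop⟩,
      fun t => ?_, fun x => by simp only [ContinuousMap.coe_mk, k2, div_self', one_mul, Homeomorph.apply_symm_apply], fun x => by simp [k3]⟩
    obtain ⟨u, -, u2⟩ := k1 t
    refine ⟨τ (e.symm q / e.symm (u q)) * u, all _, by simp [τ], fun x => ?_⟩
    simp only [ContinuousMap.coe_mk, u2]
    rfl

/-- The surfaces of small complexity. -/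
theorem goalLow : GoalLow := by
  intro hAB hC g c h
  obtain rfl | rfl : g = 0 ∨ g = 1 := by omega
  · refine WO.of_poly
      (low_sphere hC (fun c p q h1 h2 h3 h4 => ?_) (3 - (c.P.card + c.b)) c (by omega))
    obtain ⟨f, ⟨K, k1, k2, k3⟩, -, e⟩ := c.slide (loc_surface 0) ⟨h1, h3⟩ ⟨h2, h4⟩
    exact ⟨K, k1, k2, (k3 p).trans e⟩
  · exact low_torus hAB hC c (by omega)

end Pool.Agent.MP_646035_al.MC

end

-- part MP_646035_al.MC.Side
section

/-!
The linear example, and the existence of marks of every type.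
-/

namespace Pool.Agent.MP_646035_al.MC

open Pool.Agent.MP_4a6971_al.Mcg Topology

theorem class1_noMin : ∃ (n : ℕ) (G : Subgroup (GL (Fin n) ℝ)), G.FG ∧
    (∃ e ∈ growthSet G, 1 < e) ∧ ∀ e, ¬ IsLeast (growthSet G) e := by
  obtain ⟨m, L, -, -, Γ, -, -, h1, h2, h3⟩ := PC.main
  have E := Γ.equivMapOfInjective L.subtype L.subtype_injective
  have hG : growthSet (Γ.map L.subtype) = growthSet Γ :=
    Set.Subset.antisymm (PC.rep_growth E.symm) (PC.rep_growth E)
  have := (Group.fg_iff_subgroup_fg _).2 h1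
  exact ⟨m, Γ.map L.subtype, (Group.fg_iff_subgroup_fg _).1
    (Group.fg_of_surjective (f := E.toMonoidHom) E.surjective), hG ▸ h2, hG ▸ h3⟩

theorem marks_exist (g n b : ℕ) : ∃ c : Marks (Surface g), c.P.card = n ∧ c.b = b := by
  classical
  obtain ⟨e, he, -⟩ := loc_surface g OnePoint.infty
  obtain ⟨s, s1, -, s2⟩ := low_shrink
  have key : ∀ (z w : ℂ) (i j : ℤ), ‖z‖ < 2 → ‖w‖ < 2 → z + 4 * i = w + 4 * j → i = j := by
    intro z w i j a b h
    have c := congrArg Complex.re h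
    have a' := abs_lt.1 ((Complex.abs_re_le_norm z).trans_lt a)
    have b' := abs_lt.1 ((Complex.abs_re_le_norm w).trans_lt b)
    simp only [Complex.add_re, Complex.mul_re, Complex.re_ofNat, Complex.intCast_re,
      Complex.im_ofNat, Complex.intCast_im, mul_zero, sub_zero] at c
    have c1 : (i : ℝ) < j + 1 := by linarith
    have c2 : (j : ℝ) < i + 1 := by linarith
    have d1 : i < j + 1 := by exact_mod_cast c1
    have d2 : j < i + 1 := by exact_mod_cast c2
    omega
  refine ⟨⟨(Finset.range n).image fun k : ℕ => e (0 + 4 * (-(k + 1) : ℤ)), b,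
    fun i z => e (s z + 4 * ((i : ℕ) : ℤ)),
    fun i => he.comp ((Homeomorph.addRight _).isOpenEmbedding.comp s1), fun i j z w h => ?_,
    fun i z h => ?_⟩, ?_, rfl⟩
  · have := key _ _ _ _ (s2 z) (s2 w) (he.injective h)
    omega
  · obtain ⟨k, -, h⟩ := Finset.mem_image.1 h
    have := key _ _ _ _ (by simp) (s2 z) (he.injective h)
    omega
  · rw [Finset.card_image_of_injective _ fun k l h => ?_, Finset.card_range]
    have := key _ _ _ _ (by simp) (by simp) (he.injective h)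
    omega

end Pool.Agent.MP_646035_al.MC

end
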