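import Pool.Agent.MP_646035_al.Mg.H84_GReg

attribute [-instance] Prod.instSMul Distrib.toMul MonTypeEquivalenceMon.monMonoid
  MulZeroOneClass.toMulOneClass AddMonoidWithOne.toOne

/-!
The interface for surfaces with cross caps: a group of isometries, its orientation subgroup and the
cores of the cross caps.
-/

namespace Pool.Agent.MP_646035_al.MC

open Pool.Agent.MP_4a6971_al.H66 H84

/-- `O` is the orientation subgroup of `Γ`, and `C` is the family of the axes of the glide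
reflections along the cores of the cross caps. The pieces cut out by `C` are orientable. -/
structure Cap (Γ : Type) [Group Γ] where
  σ : Γ →* Isom
  O : Subgroup Γ
  Y : Fuchs O
  C : Set V
  res : ∀ x : O, Y.σ x = σ x
  idx : ∀ x y, x ∉ O → y ∉ O → x * y ∈ O
  sq : ∀ x, x ∉ O → x * x ≠ 1
  per : ∀ γ, ∀ N ∈ Y.per, σ γ • N ∈ Y.per
  lam : Fu.Lam Y C
  smul : ∀ γ, ∀ m ∈ C, σ γ • m ∈ C
  glide : ∀ m ∈ C, ∃ k, σ k • m = -m
  off : ∀ m ∈ C, Bf m o ≠ 0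
  tile : ∀ γ, (∀ m ∈ C, 0 < Bf m o → 0 ≤ Bf m (σ γ • o)) → γ ∈ O

namespace Cap

variable {Γ : Type} [Group Γ] (Z : Cap Γ)

/-- Lifts of simple closed geodesics inside a piece. -/
structure Two (E : V) : Prop where
  curve : Z.Y.Curve E
  notMem : E ∉ Z.C
  nc : ∀ m ∈ Z.C, ¬ Cr E m

/-- No translate of `E` meets the segment from `P` to `Q`. -/
def NoWall (E P Q : V) : Prop := ∀ γ, 0 < Bf (Z.σ γ • E) P * Bf (Z.σ γ • E) Q

/-- `φ` is induced by a power of the Dehn twist about `E`. -/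
def IsTwist (E : V) (φ : MulAut Γ) : Prop :=
  ∃ τ P Q, τ ≠ 1 ∧ IsAx (Z.σ τ) E ∧ H2 P ∧ H2 Q ∧ 0 < Bf E P ∧ Bf E Q < 0 ∧
    (∀ γ, Z.σ γ • E ≠ E → Z.σ γ • E ≠ -E → 0 < Bf (Z.σ γ • E) P * Bf (Z.σ γ • E) Q) ∧
    (∀ β, Z.NoWall E P (Z.σ β • P) → φ β = β) ∧
    ∀ β, Z.NoWall E Q (Z.σ β • Q) → φ β = τ * β * τ⁻¹

/-- The properties of the group of automorphisms induced by homeomorphisms. -/
structure Mod (A : Subgroup (MulAut Γ)) : Prop where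
  inn : Inn Γ ≤ A
  ori : ∀ φ ∈ A, ∀ x ∈ Z.O, φ x ∈ Z.O
  side : ∀ φ ∈ A, ∀ α β γ α' β' γ' : Z.O, φ α = α' → φ β = β' → φ γ = γ' → Z.Y.Same α β γ →
    ¬ Z.Y.Apart α' β' γ'
  twist : ∀ E, Z.Two E → ∃ φ ∈ A, Z.IsTwist E φ

end Cap

/-- The goal of part B for surfaces with cross caps. -/
def GoalN : Prop :=
  ∀ (Γ : Type) [Group Γ] (Z : Cap Γ) (A : Subgroup (MulAut Γ)), Z.Mod A → (∃ E, Z.Two E) →
    WO (OutA A)

end Pool.Agent.MP_646035_al.MC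

/-!
Pairs of pants with one or two cross caps: definitions.
-/

namespace Pool.Agent.MP_646035_al.MC

open Pool.Agent.MP_4a6971_al.H66

variable {Γ : Type} [Group Γ]

/-- The group of a pair of pants, with its three classes of boundary lines and their
stabilisers. -/
def Fuchs.Pants3 (Y : Fuchs Γ) : Prop :=
  ∃ (x y z : Γ) (N₁ N₂ N₃ : V), x * y * z = 1 ∧ Subgroup.closure {x, y} = ⊤ ∧
    N₁ ∈ Y.per ∧ N₂ ∈ Y.per ∧ N₃ ∈ Y.per ∧ (∀ δ, Y.σ δ • N₁ = N₁ ↔ δ ∈ Subgroup.zpowers x) ∧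
    (∀ δ, Y.σ δ • N₂ = N₂ ↔ δ ∈ Subgroup.zpowers y) ∧
    (∀ δ, Y.σ δ • N₃ = N₃ ↔ δ ∈ Subgroup.zpowers z) ∧
    ∀ N ∈ Y.per, ∃ γ, N = Y.σ γ • N₁ ∨ N = Y.σ γ • N₂ ∨ N = Y.σ γ • N₃

namespace Cap

variable (Z : Cap Γ)

/-- `x` is a non trivial element that stabilises a boundary line. -/
def Peri (x : Γ) : Prop := x ≠ 1 ∧ ∃ N ∈ Z.Y.per, Z.σ x • N = N

/-- The projective plane with two holes. -/
def LowA : Prop :=
  ∃ k y : Γ, k ∉ Z.O ∧ y ∈ Z.O ∧ Subgroup.closure {k, y} = ⊤ ∧ Z.Peri y ∧ Z.Peri (k * k * y)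

/-- The Klein bottle with one hole. -/
def LowB : Prop :=
  ∃ k l : Γ, k ∉ Z.O ∧ l ∉ Z.O ∧ Subgroup.closure {k, l} = ⊤ ∧ Z.Peri (k * k * (l * l))

end Cap

end Pool.Agent.MP_646035_al.MC
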