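import Pool.Agent.MP_646035_al.Mg.H66G_AxG
import Pool.Agent.MP_646035_al.Mg.H84_GAx
import Pool.Agent.MP_646035_al.Mg.Bx_Hyp
import Pool.Agent.MP_646035_al.Mg.H24_Wo
import Pool.Agent.MP_646035_al.Mg.NB_Defs

attribute [-instance] Prod.instSMul DivisionCommMonoid.toDivisionMonoid Prod.mulAction
  NonUnitalRingHomClass.toMulHomClass MonTypeEquivalenceMon.monMonoid Semiring.toMonoid
  NonUnitalAlgSemiHomClass.toMulHomClass CommSemiring.toSemiring DivisionSemiring.toSemiring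
  Prod.distribSMul MonoidWithZero.toMulZeroOneClass CancelCommMonoid.toLeftCancelMonoid
  IdemSemiring.toCanonicallyOrderedAdd AddQuantale.instAddLeftMono SemigroupWithZero.toSemigroup
  ESeminormedAddCommMonoid.toAddCommMonoid GroupConeClass.toSubmonoidClass
  SMulWithZero.toSMulZeroClass NonUnitalRing.toNonUnitalNonAssocRing NormedRing.toRing
  MonoidWithZeroHomClass.toMonoidHomClass SubsemiringClass.toSubmonoidClass MonoidWithZero.toMonoid
  NonUnitalNormedRing.toNormedAddCommGroup IdemSemiring.toSemiring BialgHomClass.toMonoidHomClass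
  NonUnitalSemiring.toNonUnitalNonAssocSemiring Field.toDivisionRing CommRing.toRing
  NonAssocSemiring.toNonUnitalNonAssocSemiring SeminormedRing.toRing SetLike.GradeZero.instMonoid
  NonUnitalNormedCommRing.toNonUnitalCommRing GroupWithZero.toDivisionMonoid
  NonAssocSemiring.toMulZeroOneClass instCoeTCOfCoe LieAdmissibleRing.toNonUnitalNonAssocRing
  NonUnitalNonAssocCommSemiring.toNonUnitalNonAssocSemiring RKHS.instFunLike Algebra.toSMul
  AddCommMonoidWithOne.toAddMonoidWithOne GroupWithZero.toDivInvMonoid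
  NonUnitalSeminormedCommRing.toNonUnitalCommRing ESeminormedAddMonoid.toAddMonoid
  NumberField.to_charZero NonAssocRing.toNonUnitalNonAssocRing DivisionRing.toDivInvMonoid
  SemigroupWithZero.toMulZeroClass AddCommGroup.toAddGroup

/-!
Groups of side preserving automorphisms act on the curves.
-/

namespace Pool.Agent.MP_646035_al.NB

open Pool.Agent.MP_4a6971_al.H66 MC Set H84 Fu
open H66G hiding good actA actO per_period len_fin trK_fin smul_coe st i_smul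

variable {Γ : Type} [Group Γ] {Y : Fuchs Γ} {x : Γ} {φ ψ : MulAut Γ} {A : Subgroup (MulAut Γ)}
  {E F E' F' : V}

/-- Groups of side preserving automorphisms. -/
structure Mod0 (Y : Fuchs Γ) (A : Subgroup (MulAut Γ)) : Prop where
  inn : Inn Γ ≤ A
  side : ∀ φ ∈ A, ∀ α β γ, Y.Same α β γ → ¬ Y.Apart (φ α) (φ β) (φ γ)

theorem fg (Y : Fuchs Γ) : Group.FG Γ :=
  let ⟨T, a, b, _⟩ := exists_gens Y
  Group.fg_iff.2 ⟨T, b, a⟩

lemma good (h : Mod0 Y A) (hφ : φ ∈ A) : Good Y φ := by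
  intro x y E F E' F' hx hy hE hF hE' hF' c
  by_contra n
  have nx : φ x ≠ 1 := by simpa using hx
  have ny : φ y ≠ 1 := by simpa using hy
  have d := far nx ny hE' hF' n fun e => by
    rcases same_map φ⁻¹ nx ny hE' (by
      rcases e with rfl | rfl
      exacts [hF', by simpa using hF'.neg]) (by simpa using hE) (by simpa using hF) with rfl | rfl <;>
      exact not_cr_self hE.1 (by simpa using c)
  obtain ⟨N, N', n1, n2, e⟩ := exists_ends' hy hF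
  obtain ⟨M, M', m1, m2, e'⟩ := exists_ends' ny hF'
  refine h.side φ⁻¹ (inv_mem hφ) (φ x) (φ y) (φ y)⁻¹ ⟨nx, ny, inv_ne_one.2 ny, ?_⟩ ?_
  · have := e' E'
    rcases mul_pos_iff.1 (show 0 < Bf E' M * Bf E' M' by linarith [hE'.1]) with p | p
    · exact ⟨E', M, M', hE', m1, m2, p⟩
    · exact ⟨-E', M, M', hE'.neg, m1, m2, by simpa using p⟩
  · simp only [map_inv φ⁻¹, MulAut.inv_apply_self]
    refine ⟨hx, hy, inv_ne_one.2 hy, ?_⟩
    have := e E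
    rw [Cr] at c
    rcases mul_neg_iff.1 (show Bf E N * Bf E N' < 0 by linarith [hE.1]) with p | p
    · exact ⟨E, N, N', hE, n1, n2, p⟩
    · exact ⟨-E, N, N', hE.neg, n1, n2, by simpa only [Bf_neg_left, Left.neg_pos_iff, Left.neg_neg_iff] using p⟩

lemma rl_per (r : Rl Y φ E F) (h : Mod0 Y A) (hφ : φ ∈ A) (hE : E ∈ Y.per) :
    F ∈ Y.per ∨ -F ∈ Y.per := by
  by_contra! n
  obtain ⟨x, hx, a, b⟩ := r
  have nx : φ x ≠ 1 := by simpa using hx
  obtain ⟨β, N, n1, n2, n3⟩ := exists_end_neg nx b.neg n.2 (by simpa using n.1)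
  obtain ⟨γ, M, m1, m2, m3⟩ := exists_end_neg nx b n.1 n.2
  have key : ∀ β N, β ≠ 1 → End (Y.σ β) N → Bf F N ≠ 0 →
      ∃ K, End (Y.σ (φ⁻¹ β)) K ∧ 0 < Bf E K := fun β N n1 n2 n3 => by
    have nb : φ⁻¹ β ≠ 1 := by simpa using n1
    obtain ⟨G, hG⟩ := (Y.hyp _ nb).exists_ax
    obtain ⟨K, K', k, -, e⟩ := exists_ends' nb hG
    refine ⟨K, k, (per_end hE k).lt_of_ne fun z => n3 (end_on n2 ?_)⟩
    have := e E
    rw [← z, a.1] at this
    simpa only [MulAut.inv_apply, MulEquiv.apply_symm_apply] using Rl.ax ⟨x, hx, a, b⟩ nb (by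
      rcases not_tangent hx nb a hG (by linarith) with rfl | rfl
      exacts [hG, by simpa using hG.neg])
  obtain ⟨K, k1, k2⟩ := key β N n1 n2 (by simpa using n3.ne)
  obtain ⟨L, l1, l2⟩ := key γ M m1 m2 m3.ne
  refine h.side φ hφ x (φ⁻¹ β) (φ⁻¹ γ) ⟨hx, by simpa using n1, by simpa using m1, E, K, L, a, k1, l1,
    k2, l2⟩ ?_
  simp only [MulAut.apply_inv_self]
  exact ⟨nx, n1, m1, F, N, M, b, n2, m2, by simpa using n3, m3⟩

lemma rl_curve (r : Rl Y φ E F) (h : Mod0 Y A) (hφ : φ ∈ A) (c : Y.Curve E) : Y.Curve F :=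
  ⟨let ⟨x, a, _, b⟩ := r; ⟨φ x, by simpa using a, b⟩, r.simple (good h (inv_mem hφ)) c.simple,
    fun p => (rl_per r.symm h (inv_mem hφ) p).elim c.pos c.neg,
    fun p => (rl_per r.symm.neg_left h (inv_mem hφ) p).elim c.pos c.neg⟩

/-- The action of `A` on the curves. -/
@[reducible] def actA (h : Mod0 Y A) : MulAction A (Cv Y) where
  smul φ a := ⟨img Y φ a.1, by
    obtain ⟨E, c, e⟩ := a.2
    obtain ⟨F, r⟩ := cv_rl φ a (e ▸ self_mem_lns E)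
    exact ⟨F, rl_curve r h φ.2 c, by rw [e, img_lns r]⟩⟩
  one_smul a := Subtype.ext (by
    obtain ⟨E, ⟨⟨x, hx, hE⟩, -⟩, e⟩ := a.2
    change img Y 1 a.1 = a.1
    rw [e, img_lns ⟨x, hx, hE, hE⟩])
  mul_smul φ ψ a := Subtype.ext (by
    obtain ⟨E, ⟨⟨x, hx, hE⟩, -⟩, e⟩ := a.2
    obtain ⟨F, r⟩ := exists_rl (ψ : MulAut Γ) hx hE
    obtain ⟨y, hy, hF, -⟩ := r.symm
    obtain ⟨G, r'⟩ := exists_rl (φ : MulAut Γ) hy hF
    change img Y (φ * ψ) a.1 = img Y φ (img Y ψ a.1)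
    rw [e, img_lns r, img_lns r', img_lns (r.trans r')])

/-- The action of the outer automorphisms on the curves. -/
@[reducible] noncomputable def actO (h : Mod0 Y A) : MulAction (OutA A) (Cv Y) :=
  letI := actA h
  MulAction.compHom (Cv Y) (QuotientGroup.lift _ (MulAction.toPermHom A (Cv Y)) (by
    rintro φ ⟨z, hz⟩
    refine Equiv.ext fun a => Subtype.ext ?_
    obtain ⟨E, ⟨⟨x, hx, hE⟩, -⟩, e⟩ := a.2
    change img Y φ a.1 = a.1
    rw [e, show (φ : MulAut Γ) = MulAut.conj z from hz.symm, img_lns (Rl.conj hx hE z)]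
    exact lns_eq ⟨z, Or.inl rfl⟩))

lemma per_period (h : Mod0 Y A) (hφ : φ ∈ A) (hE : E ∈ Y.per) :
    ∃ k > 0, ∃ γ, Rl Y (φ ^ k) E (Y.σ γ • E) := by
  obtain ⟨T, t1, t2⟩ := Y.per_fin
  obtain ⟨x, hx, ax⟩ := Y.per_ax E hE
  have : ∀ n : ℕ, ∃ (F : V) (γ : Γ), Rl Y (φ ^ n) E F ∧ Y.σ γ • F ∈ T := fun n => by
    obtain ⟨F, r⟩ := exists_rl (φ ^ n) hx ax
    rcases rl_per r h (pow_mem hφ n) hE with p | p
    · exact ⟨F, (t2 _ p).imp fun _ q => ⟨r, q⟩⟩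
    · exact ⟨-F, (t2 _ p).imp fun _ q => ⟨r.neg_right, q⟩⟩
  choose F γ r hT using this
  obtain ⟨m, -, n, -, lt, e⟩ := (infinite_univ (α := ℕ)).exists_lt_map_eq_of_mapsTo
    (f := fun n => Y.σ (γ n) • F n) (fun n _ => hT n) t1
  refine ⟨n - m, by omega, (φ ^ m)⁻¹ ((γ n)⁻¹ * γ m), ?_⟩
  have := (r m).symm.smul ((γ n)⁻¹ * γ m)
  rw [map_mul, map_inv, mul_smul, e, inv_smul_smul] at this
  have := (r n).trans this
  rwa [show n = m + (n - m) by omega, pow_add, inv_mul_cancel_left, Nat.add_sub_cancel' lt.le]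
    at this

lemma len_fin (h : Mod0 Y A) : (Len Y A).Finite := by
  obtain ⟨Ψ, h1, h2⟩ := fin_of_tr Y
  refine ((h1.preimage (f := fun φ : A => φ.1) Subtype.val_injective.injOn).image
    QuotientGroup.mk).subset ?_
  rintro _ ⟨φ, rfl, t⟩
  obtain ⟨δ, hδ⟩ := h2 φ (good h φ.2) t
  have m : MulAut.conj δ ∈ A := h.inn ⟨δ, rfl⟩
  refine ⟨⟨_, m⟩ * φ, hδ, ?_⟩
  rw [QuotientGroup.mk_mul, (QuotientGroup.eq_one_iff _).2 (by exact ⟨δ, rfl⟩), one_mul]

theorem trK_fin (h : Mod0 Y A) : ((((EN.TrK Γ 3).comap A.subtype).map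
    (QuotientGroup.mk' ((Inn Γ).subgroupOf A)) : Subgroup (OutA A)) : Set (OutA A)).Finite :=
  (len_fin h).subset fun _ ⟨φ, a, b⟩ => ⟨φ, b, fun x _ => trI_of_trEq _ (a x)⟩

variable (h : Mod0 Y A)
include h

lemma smul_coe (φ : A) (a : Cv Y) :
    letI := actO h; ((QuotientGroup.mk φ : OutA A) • a).1 = img Y φ a.1 := rfl

theorem st [Group.FG Γ] : letI := actO h
    ∃ N, ∀ H : Subgroup (OutA A), (∀ a : Cv Y, (MulAction.orbit H a).Finite) →
      ∀ F : Finset (OutA A), (∀ g ∈ F, g ∈ H) → F.card ≤ N := by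
  classical
  let := actO h
  obtain ⟨K, k1, k2⟩ := EN.Tor Γ 3
  have := Fintype.ofFinite (MulAut Γ ⧸ K)
  refine ⟨(Len Y A).ncard * Fintype.card (MulAut Γ ⧸ K), fun H hH F hF => ?_⟩
  have key : ∀ φ : A, φ.1 ∈ K → (QuotientGroup.mk φ : OutA A) ∈ H →
      (QuotientGroup.mk φ : OutA A) ∈ Len Y A := fun φ a b => ⟨φ, rfl, fun x s => by
    obtain ⟨E, hE⟩ := (Y.hyp x s.1).exists_ax
    obtain ⟨k, k0, γ, E, hE, r⟩ : ∃ k > 0, ∃ γ E, IsAx (Y.σ x) E ∧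
        Rl Y (φ.1 ^ k) E (Y.σ γ • E) := by
      by_cases p : E ∈ Y.per
      · obtain ⟨k, k0, γ, r⟩ := per_period h φ.2 p
        exact ⟨k, k0, γ, E, hE, r⟩
      by_cases p' : -E ∈ Y.per
      · obtain ⟨k, k0, γ, r⟩ := per_period h φ.2 p'
        exact ⟨k, k0, γ, -E, hE.neg, r⟩
      have c : Y.Curve E := ⟨⟨x, s.1, hE⟩, s.2 E hE, p, p'⟩
      obtain ⟨m, -, n, -, lt, e⟩ := (infinite_univ (α := ℕ)).exists_lt_map_eq_of_mapsTo
        (f := fun n => (QuotientGroup.mk φ : OutA A) ^ n • mk c)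
        (t := MulAction.orbit H (mk c)) (fun n _ => ⟨⟨_, pow_mem b n⟩, rfl⟩) (hH (mk c))
      rw [show n = m + (n - m) by omega, pow_add, mul_smul, smul_left_cancel_iff,
        ← QuotientGroup.mk_pow] at e
      obtain ⟨F, r⟩ := exists_rl (φ.1 ^ (n - m)) s.1 hE
      obtain ⟨γ, rfl | rfl⟩ : F ∈ (mk c).1 := by rw [e]; exact ⟨E, mem_mk c, r⟩
      · exact ⟨n - m, by omega, γ, E, hE, r⟩
      · exact ⟨n - m, by omega, γ, E, hE, by simpa only [neg_neg] using r.neg_right⟩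
    exact trI_of_trEq _ (k2 _ a (k * 2) (by omega) x (pow_mul φ.1 k 2 ▸ trEq_of_rl r hE))⟩
  refine (Finset.card_le_mul_card_image_of_maps_to (t := Finset.univ)
    (f := fun g : OutA A => (QuotientGroup.mk g.out.1 : MulAut Γ ⧸ K)) (by simp) _
    fun q _ => ?_).trans_eq rfl
  rcases (F.filter fun g => (QuotientGroup.mk g.out.1 : MulAut Γ ⧸ K) = q).eq_empty_or_nonempty
    with e | ⟨g, hg⟩
  · simp [e]
  rw [← ncard_coe_finset]
  refine ncard_le_ncard_of_injOn (g⁻¹ * ·) (fun f hf => ?_) (mul_right_injective _).injOn (len_fin h)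
  rw [Finset.mem_coe, Finset.mem_filter] at hf
  rw [Finset.mem_filter] at hg
  have := key (g.out⁻¹ * f.out) (QuotientGroup.eq.1 (hg.2.trans hf.2.symm))
  simp only [QuotientGroup.mk_mul, QuotientGroup.mk_inv, QuotientGroup.out_eq'] at this
  exact this (mul_mem (inv_mem (hF g hg.1)) (hF f hf.1))

theorem i_smul : letI := actO h; ∀ (g : OutA A) (a b : Cv Y), i (g • a) (g • b) = i a b := by
  let := actO h
  have : ∀ (g : OutA A) (a b : Cv Y), i a b ≤ i (g • a) (g • b) := fun g a b => by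
    obtain ⟨φ, rfl⟩ := QuotientGroup.mk_surjective g
    exact i_le (good h φ.2) rfl rfl
  exact fun g a b => le_antisymm (by simpa using this g⁻¹ (g • a) (g • b)) (this g a b)

theorem wo_of (c : ∃ E, Y.Curve E) : letI := actO h
    (∀ a : Cv Y, (MulAction.orbit (OutA A) a).Infinite) →
      (∃ a : Cv Y, (MulAction.stabilizer (OutA A) a : Set (OutA A)).Infinite) → WO (OutA A) := by
  let := actO h
  intro o1 o2
  have := fg Y
  obtain ⟨ξ, C0, H⟩ := Fu.ax Y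
  obtain ⟨K, d, δ, hK, D, Y0⟩ := Y.hypC c
  obtain ⟨e, N, m⟩ := D.mi (Y0 _ (i_smul h)) H ⟨i_smul h, o1, o2, st h⟩ hK
  refine H24.wo_of_en (trK_fin h) (H24.EN.map (EN.A3 Γ 3) A.subtype _ (QuotientGroup.mk'_surjective _)
    ?_) (c := e) (K := 4 * N) (d := 1) fun S hS R r => ?_
  · rw [QuotientGroup.ker_mk']
    rintro φ ⟨z, hz⟩
    exact Subgroup.mem_comap.2 (hz ▸ EN.conj_mem_TrK Γ 3 z)
  · simp only [Set.ncard_eq_toFinset_card _ (ball_finite S _)]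
    refine m S hS r _ _ _ (by simp) fun x hx z hz y hy => ?_
    rw [Set.Finite.mem_toFinset] at *
    rw [add_right_comm]
    exact mul_mem_ball (mul_mem_ball hx hz) hy

end Pool.Agent.MP_646035_al.NB

/-!
Restriction of automorphisms to a subgroup.
-/

namespace Pool.Agent.MP_646035_al.NB

open MC Set

theorem wo_of_finite_ker {M G : Type*} [Group M] [Group G] {j : M →* G}
    (hj : Function.Surjective j) (hk : (j.ker : Set M).Finite) (h : WO M) : WO G := by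
  classical
  refine fun A hA => h A (hA.trans ?_)
  rintro e ⟨S, hS, he⟩
  choose t ht using hj
  let S' := S.image t ∪ hk.toFinset
  have b : ∀ n, ball (S'.image j) n = ball S n := fun n => by
    refine subset_antisymm (fun g hg => ball_induction (fun r g => g ∈ ball S r) (one_mem_ball _ _)
      (fun r g a => ball_mono S r.le_succ a) (fun r g x a c => ?_) n g hg) ?_
    · have k : ∀ x ∈ S'.image j, x ∈ ball S 1 := fun x c => by
        obtain ⟨y, d, rfl⟩ := Finset.mem_image.1 c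
        rcases Finset.mem_union.1 d with d | d
        · obtain ⟨z, d', rfl⟩ := Finset.mem_image.1 d
          exact (ht z).symm ▸ mem_ball_one d'
        · exact (show j y = 1 from hk.mem_toFinset.1 d).symm ▸ one_mem_ball _ _
      exact mul_mem_ball a (c.elim (k x) fun c => by simpa using inv_mem_ball (k _ c))
    · rintro g ⟨w, w1, w2, w3⟩
      have k : ∀ x ∈ S, x ∈ S'.image j := fun x c => Finset.mem_image.2
        ⟨t x, Finset.mem_union_left _ (Finset.mem_image_of_mem _ c), ht x⟩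
      exact ⟨w, w1, fun x c => (w2 x c).imp (k _) (k _), w3⟩
  obtain ⟨e', he'⟩ := exists_isRate S'
  obtain ⟨C, d, hC⟩ := polyKer_of_finite hk S'
  have h1 : e ≤ e' := le_of_tendsto_of_tendsto' he he' fun n => by
    refine Real.rpow_le_rpow (by positivity) ?_ (by positivity)
    rw [← b, ball_map]
    exact_mod_cast Set.ncard_image_le (ball_finite S' n)
  have h2 : e' ≤ e * 1 := le_of_tendsto_of_tendsto' he' (he.mul (asm_poly C d)) fun n => by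
    rw [← Real.mul_rpow (by positivity) (by positivity), ← b]
    refine Real.rpow_le_rpow (by positivity) ?_ (by positivity)
    exact_mod_cast (asm_count j S' n).trans (Nat.mul_le_mul_left _ ((hC _).trans
      (Nat.mul_le_mul_right _ (Nat.le_succ C))))
  refine ⟨S', eq_top_iff.2 fun g _ => ?_, (show e' = e by linarith only [h1, h2]) ▸ he'⟩
  have m : (Subgroup.closure (S' : Set M)).map j = ⊤ := by
    rw [MonoidHom.map_closure, eq_top_iff, ← hS]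
    exact Subgroup.closure_mono fun x c => ⟨t x, Finset.mem_coe.2
      (Finset.mem_union_left _ (Finset.mem_image_of_mem _ c)), ht x⟩
  obtain ⟨x, x1, x2⟩ := m.ge (Subgroup.mem_top (j g))
  have := mul_mem x1 (Subgroup.subset_closure (Finset.mem_coe.2 (Finset.mem_union_right (S.image t)
    (hk.mem_toFinset.2 (show x⁻¹ * g ∈ j.ker by simp only [MonoidHom.mem_ker, map_mul, map_inv, x2, inv_mul_cancel])))))
  simpa using this

variable {Γ : Type} [Group Γ] {A : Subgroup (MulAut Γ)} {H : Subgroup Γ} {φ : MulAut Γ}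

/-- The restrictions to `H` of the members of `A` that preserve `H`. -/
def Res (A : Subgroup (MulAut Γ)) (H : Subgroup Γ) : Subgroup (MulAut H) where
  carrier := {ψ | ∃ φ ∈ A, ∀ x : H, φ x = ψ x}
  one_mem' := ⟨1, one_mem _, fun _ => rfl⟩
  mul_mem' := fun ⟨φ, a, b⟩ ⟨φ', a', b'⟩ => ⟨φ * φ', mul_mem a a', fun x => by simp [b, b']⟩
  inv_mem' := fun {ψ} ⟨φ, a, b⟩ => ⟨φ⁻¹, inv_mem a, fun x => φ.injective (by simp [b])⟩

lemma exists_res (h : ∀ x ∈ H, φ x ∈ H) (h' : ∀ x ∈ H, φ⁻¹ x ∈ H) :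
    ∃ ψ : MulAut H, ∀ x : H, φ x = ψ x :=
  ⟨⟨⟨fun x => ⟨φ x, h _ x.2⟩, fun x => ⟨φ⁻¹ x, h' _ x.2⟩, fun x => Subtype.ext (by simp),
    fun x => Subtype.ext (by simp)⟩, fun x y => Subtype.ext (by simp)⟩, fun _ => rfl⟩

lemma inn_res (hA : Inn Γ ≤ A) : Inn H ≤ Res A H := by
  rintro _ ⟨z, rfl⟩
  exact ⟨MulAut.conj z.1, hA ⟨z, rfl⟩, fun _ => rfl⟩

theorem wo_res (hA : Inn Γ ≤ A) (uniq : ∀ φ ∈ A, (∀ x ∈ H, φ x = x) → φ = 1)
    (nrm : ∀ φ ∈ A, ∃ z, ∃ ψ : MulAut H, ∀ x : H, z * φ x * z⁻¹ = ψ x)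
    (fin : ∀ z z', (∀ x ∈ H, z * x * z⁻¹ ∈ H) → (∀ x ∈ H, z' * x * z'⁻¹ ∈ H) → z ∉ H → z' ∉ H →
      z⁻¹ * z' ∈ H) (w : WO (OutA (Res A H))) : WO (OutA A) := by
  have u : ∀ φ φ' : A, (∀ x : H, φ.1 x = φ'.1 x) → φ = φ' := fun φ φ' e => Subtype.ext
    (inv_mul_eq_one.1 (uniq _ (φ⁻¹ * φ').2 fun x hx => φ.1.injective (by simp [e ⟨x, hx⟩])))
  have : ∀ ψ : Res A H, ∃ φ : A, ∀ x : H, φ.1 x = ψ.1 x := fun ψ =>
    let ⟨φ, a, b⟩ := ψ.2; ⟨⟨φ, a⟩, b⟩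
  choose f hf using this
  let j : Res A H →* A := MonoidHom.mk' f fun a b => u _ _ fun x => by simp only [hf, Subgroup.coe_mul, MulAut.mul_apply]
  have cj : ∀ (ψ : Res A H) (z : H), MulAut.conj z = ψ.1 → (j ψ).1 = MulAut.conj z.1 := fun ψ z e =>
    congrArg Subtype.val (u (f ψ) ⟨_, hA ⟨z, rfl⟩⟩ fun x => by rw [hf, ← e]; rfl)
  let J : OutA (Res A H) →* OutA A := QuotientGroup.map _ _ j fun ψ ⟨z, e⟩ => ⟨z, (cj ψ z e).symm⟩
  refine wo_of_finite_ker (j := J) (fun g => ?_) ?_ w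
  · obtain ⟨φ, rfl⟩ := QuotientGroup.mk_surjective g
    obtain ⟨z, ψ, e⟩ := nrm φ φ.2
    have m : MulAut.conj z ∈ A := hA ⟨z, rfl⟩
    have m' : ψ ∈ Res A H := ⟨_, mul_mem m φ.2, e⟩
    refine ⟨QuotientGroup.mk ⟨ψ, m'⟩, ?_⟩
    rw [QuotientGroup.map_mk, show j ⟨ψ, m'⟩ = ⟨_, m⟩ * φ from u _ _ fun x => (hf _ x).trans (e x).symm,
      QuotientGroup.mk_mul, (QuotientGroup.eq_one_iff _).2 (by exact ⟨z, rfl⟩), one_mul]
  · have key : ∀ g ∈ J.ker, ∃ (ψ : Res A H) (z : Γ), QuotientGroup.mk ψ = g ∧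
        ∀ x : H, z * x * z⁻¹ = ψ.1 x := fun g hg => by
      obtain ⟨ψ, rfl⟩ := QuotientGroup.mk_surjective g
      obtain ⟨z, e⟩ := (QuotientGroup.eq_one_iff (j ψ)).1 hg
      exact ⟨ψ, z, rfl, fun x => by rw [← hf]; exact DFunLike.congr_fun e x.1⟩
    refine (Set.Subsingleton.finite (s := (J.ker : Set (OutA (Res A H))) \ {1}) fun g hg g' hg' => ?_).of_sdiff
      (finite_singleton 1)
    obtain ⟨ψ, z, rfl, e⟩ := key g hg.1
    obtain ⟨ψ', z', rfl, e'⟩ := key g' hg'.1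
    have n : ∀ (ψ : Res A H) (z : Γ), (∀ x : H, z * x * z⁻¹ = ψ.1 x) →
        (QuotientGroup.mk ψ : OutA (Res A H)) ∉ ({1} : Set _) → z ∉ H := fun ψ z e n m =>
      n ((QuotientGroup.eq_one_iff _).2 ⟨⟨z, m⟩, MulEquiv.ext fun x => Subtype.ext (e x)⟩)
    refine QuotientGroup.eq.2 ⟨⟨_, fin z z' (fun x m => e ⟨x, m⟩ ▸ (ψ.1 _).2)
      (fun x m => e' ⟨x, m⟩ ▸ (ψ'.1 _).2) (n ψ z e hg.2) (n ψ' z' e' hg'.2)⟩,
      MulEquiv.ext fun x => ψ.1.injective (Subtype.ext ?_)⟩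
    simp only [MulAut.conj_apply, mul_assoc, map_mul, map_inv, Subgroup.coe_mul, ← e, mul_inv_cancel_left, InvMemClass.coe_inv, mul_inv_rev, inv_inv, inv_mul_cancel_left, Subgroup.subtype_apply, MulAut.mul_apply, MulAut.inv_apply, MulEquiv.apply_symm_apply, ← e']

end Pool.Agent.MP_646035_al.NB

/-!
No power of a multitwist preserves a closed geodesic that crosses one of the twisting curves.
-/

namespace Pool.Agent.MP_646035_al.NB

open Pool.Agent.MP_4a6971_al.H66 MC Set H84 Fu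
open H66G hiding good actA actO per_period len_fin trK_fin smul_coe st i_smul

variable {Γ : Type} [Group Γ] {Y : Fuchs Γ} {φ : MulAut Γ} {L : Set V} {E G P Q r : V} {β : Γ}

lemma St.same (hL : Lam Y L) (h : Off L r) (s : St Y L r β) {n : V} (hn : n ∈ L) :
    0 < Bf n r * Bf n (Y.σ β • r) := by
  rcases (h.2 n hn).lt_or_gt with a | a
  · exact mul_pos_of_neg_of_neg a (by
      simpa using Cl.pos' (h.smul hL β) s (hL.neg n hn) (by simpa using a))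
  · exact mul_pos a (Cl.pos' (h.smul hL β) s hn a)

lemma bd_of (hL : Lam Y L) (hE : E ∈ L) (hP : H2 P) (hQ : H2 Q) (p : 0 < Bf E P) (q : Bf E Q < 0)
    (h : ∀ F ∈ L, F ≠ E → F ≠ -E → 0 < Bf F P * Bf F Q) : Off L P ∧ Bd L P E := by
  refine ⟨⟨hP, fun n hn e => ?_⟩, hE, p, ?_⟩
  · have := h n hn (fun a => p.ne' (a ▸ e)) fun a => p.ne' (by simpa [a] using e)
    simp [e] at this
  obtain ⟨G, g1, g2, g3, x, y, -, -, z1, z2, z3⟩ := first_line (T := L) hP hQ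
    ((hL.sep_fin hP hQ).subset fun F hF =>
      ⟨hF.1, mul_nonpos_of_nonneg_of_nonpos hF.2.1.le hF.2.2⟩) hE p q.le
  obtain rfl : G = E := by_contra fun n => absurd (h G g1 n fun a => by
    rw [a, Bf_neg_left] at g2
    linarith) (mul_nonpos_of_nonneg_of_nonpos g2.le g3).not_gt
  exact ⟨_, ⟨z1, z3⟩, z2⟩

/-- The next wall crossed by an axis. -/
lemma next_wall (hL : Lam Y L) (h0 : Off L P) (h : Bd L P E) (hG : Ax Y G) (c : Cr E G) :
    ∃ F β, β ≠ 1 ∧ IsAx (Y.σ β) F ∧ 1 < Bf E F ^ 2 ∧ Cr G F ∧ St Y L P β := by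
  obtain ⟨F, p, p', C⟩ := h.exists_ch hL h0 hG c.symm
  obtain ⟨β, b1, b2⟩ := hL.ax F C.mem'
  exact ⟨F, β, b1, b2, ((((hL.ax E h.1).tri (hL.ax F C.mem')).resolve_left
    (hL.nc _ h.1 _ C.mem')).resolve_left C.ne).resolve_left C.ne', C.cr' hL,
    C.bd'.st hL h0 (by rw [b2.2]; exact C.bd')⟩

/-- `φ` fixes the line `E`, and no power preserves a closed geodesic that crosses `E`. -/
def Fre (Y : Fuchs Γ) (φ : MulAut Γ) (E : V) : Prop :=
  Rl Y φ E E ∧ ∀ G, Cr E G → ∀ n : ℕ, 0 < n → ∀ γ, ¬ Rl Y (φ ^ n) G (Y.σ γ • G)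

theorem fre_of (hL : Lam Y L) {τ : Γ} (hτ : τ ≠ 1) (hE : IsAx (Y.σ τ) E) (p0 : Off L P)
    (p : Bd L P E) (q0 : Off L Q) (q : Bd L Q (-E)) (h2 : ∀ β, St Y L P β → φ β = β)
    (h3 : ∀ β, St Y L Q β → φ β = τ * β * τ⁻¹) (g : ∀ n : ℕ, Good Y (φ ^ n)) : Fre Y φ E := by
  have t : φ τ = τ := h2 τ (p.st hL p0 (by rwa [hE.2]))
  refine ⟨⟨τ, hτ, hE, by rwa [t]⟩, fun G c n hn γ r => ?_⟩
  have fx : ∀ β, φ β = β → ∀ m : ℕ, (φ ^ m) β = β := fun β e m => by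
    induction m with
    | zero => rfl
    | succ m ih => rw [pow_succ, MulAut.mul_apply, e, ih]
  have core : ∀ (m : ℕ) (k : ℤ) G, Cr E G → Rl Y (φ ^ m) G (Y.σ (τ ^ k) • G) → m = 0 := by
    intro m k G c r
    have hG : Ax Y G := let ⟨y, a, b, _⟩ := r; ⟨y, a, b⟩
    obtain ⟨F, β, b1, b2, b3, b4, b5⟩ := next_wall hL p0 p hG c
    obtain ⟨F', β', d1, d2, d3, d4, d5⟩ := next_wall hL q0 q hG (by simpa using c)
    have e1 := shift_eq hτ hE (g m) (fx τ t m) (d := 0) r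
      ⟨β, b1, b2, by simpa only [fx β (h2 β b5), zpow_ofNat, pow_zero, map_one, one_smul] using b2⟩ c b4 b3
    have e : ∀ j : ℕ, (φ ^ j) β' = τ ^ (j : ℤ) * β' * (τ ^ (j : ℤ))⁻¹ := fun j => by
      induction j with
      | zero => simp
      | succ j ih =>
        rw [pow_succ', MulAut.mul_apply, ih, map_mul, map_mul, map_inv, map_zpow, t, h3 β' d5]
        push_cast
        group
    have e2 := shift_eq hτ hE (g m) (fx τ t m) (d := m) r
      ⟨β', d1, d2, by rw [e]; exact ax_conj d2 _⟩ c d4 (by simpa only [one_lt_sq_iff_one_lt_abs, Bf_neg_left, even_two, Even.neg_pow] using d3)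
    omega
  obtain ⟨y, hy, hG, -⟩ := id r
  have it : ∀ j : ℕ, ∃ w, Rl Y (φ ^ (n * j)) G (Y.σ w • G) := fun j => by
    induction j with
    | zero => exact ⟨1, y, hy, hG, by simpa only [mul_zero, pow_zero, MulAut.one_apply, map_one, one_smul] using hG⟩
    | succ j ih =>
      obtain ⟨w, hw⟩ := ih
      exact ⟨(φ ^ n) w * γ, by
        rw [mul_add, mul_one, add_comm, pow_add, map_mul, mul_smul]
        exact hw.trans (r.smul w)⟩
  choose w hw using it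
  have cr : ∀ j, Cr E (Y.σ (w j) • G) := fun j =>
    Rl.cr ⟨τ, hτ, hE, by rwa [fx τ t]⟩ (hw j) (g _) c
  obtain ⟨T, t1, t2⟩ := cross_fin hτ hy hE hG
  choose k hk using fun j => t2 _ (cr j)
  obtain ⟨i, -, j, -, lt, e⟩ := (infinite_univ (α := ℕ)).exists_lt_map_eq_of_mapsTo
    (f := fun j => Y.σ (τ ^ k j * w j) • G) (fun j _ => hk j) t1
  have r' : Rl Y (φ ^ (n * (j - i))) (Y.σ (w i) • G) (Y.σ (τ ^ (k i - k j)) • Y.σ (w i) • G) := by
    have := (hw i).symm.trans (hw j)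
    rw [show n * j = n * (j - i) + n * i by rw [← mul_add, Nat.sub_add_cancel lt.le], pow_add,
      mul_inv_cancel_right] at this
    rwa [sub_eq_neg_add, zpow_add, map_mul, mul_smul, ← mul_smul (Y.σ (τ ^ k i)), ← map_mul, e,
      ← mul_smul, ← map_mul, zpow_neg, inv_mul_cancel_left]
  exact Nat.mul_ne_zero hn.ne' (by omega) (core _ _ _ (cr i) r')

end Pool.Agent.MP_646035_al.NB

/-!
Cutting along an invariant family of disjoint axes.
-/

namespace Pool.Agent.MP_646035_al.NB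

open Pool.Agent.MP_4a6971_al.H66 MC Set H84 Fu
open H66G hiding good actA actO per_period len_fin trK_fin smul_coe st i_smul

variable {Γ : Type} [Group Γ] {Y : Fuchs Γ} {L : Set V} {E N N' P r : V}

lemma cl_of_bd (hL : Lam Y L) (h0 : Off L r) (hP : H2 P) (h : ∀ N, Bd L r N → 0 ≤ Bf N P) :
    Cl L r P := by
  refine ⟨hP, fun n hn a => not_lt.1 fun b => ?_⟩
  obtain ⟨G, g1, g2, g3, x, y, -, y0, z1, z2, z3⟩ := first_line (T := L) h0.1 hP
    ((hL.sep_fin h0.1 hP).subset fun F hF =>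
      ⟨hF.1, mul_nonpos_of_nonneg_of_nonpos hF.2.1.le hF.2.2⟩) hn a b.le
  have e := g3.antisymm (h G ⟨g1, g2, _, ⟨z1, z3⟩, z2⟩)
  have := z3 n hn a
  simp only [Bf_add_right, Bf_smul_right, e, mul_zero, add_zero] at z2 this
  rw [(mul_eq_zero.1 z2).resolve_right g2.ne'] at this
  nlinarith only [b, y0, this]

lemma bd_far (hL : Lam Y L) (h : Bd L r N) (h' : Bd L r N') (n : N ≠ N') : Bf N N' < -1 := by
  have a := (((hL.ax N h.1).tri (hL.ax N' h'.1)).resolve_left (hL.nc _ h.1 _ h'.1)).resolve_left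
    n.symm
  have b := a.resolve_left fun e => by
    have := h'.2.1
    rw [e, Bf_neg_left] at this
    linarith only [h.2.1, this]
  by_contra c
  obtain ⟨-, -, p, p1, p2⟩ := id h
  obtain ⟨-, -, q, q1, q2⟩ := id h'
  have := add_pos' (E := -N) (F := N') (by simpa using hL.unit h.1) (hL.unit h'.1)
    (by rw [Bf_neg_left]; nlinarith only [b, c]) p1.1.fut
    (by simpa [p2] using h.pos hL h'.1 h'.2.1 n.symm p1.1 p2) q1.1.fut
  rw [Bf_neg_left, q2] at this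
  linarith [h'.pos hL h.1 h.2.1 n q1.1 q2]

lemma st_cocompact (hL : Lam Y L) (h0 : Off L o) (hp : Y.per ⊆ L) :
    ∃ R, ∀ P, Cl L o P → ∃ g, St Y L o g ∧ ch P (Y.σ g • o) ≤ R := by
  obtain ⟨R, hR⟩ := Y.cocompact
  let T := {n ∈ L | |Bf n o| ≤ R}
  let f : Γ → Set V := fun g => {n ∈ T | 0 < Bf n (Y.σ g • o)}
  let pr : Γ → Prop := fun g => ∃ q, Cl L (Y.σ g • o) q ∧ ch q o ≤ R
  have key : ∀ g k, pr g → pr k → f g = f k → Cl L (Y.σ g • o) (Y.σ k • o) := by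
    rintro g k ⟨p, p1, p2⟩ ⟨q, q1, q2⟩ e
    refine ⟨H2_o.smul _, fun n hn a => le_of_lt ?_⟩
    by_cases t : n ∈ T
    · exact (e.le ⟨t, a⟩).2
    have s : ∀ q, H2 q → ch q o ≤ R → 0 < Bf n o * Bf n q := fun q a b => not_le.1 fun c =>
      t ⟨hn, (abs_Bf_le_of_sign (hL.unit hn) H2_o a c).trans b⟩
    exact q1.pos hL (h0.smul hL k) hn (pos_of_mul (s q q1.1 q2)
      (pos_of_mul (by rw [mul_comm]; exact s p p1.1 p2) (p1.2 n hn a)).le)
  have fin : (f '' {g | pr g}).Finite :=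
    (hL.fin o H2_o R).finite_subsets.subset (by rintro _ ⟨g, -, rfl⟩; exact sep_subset _ _)
  obtain ⟨D, d1, d2, d3⟩ := fin.exists_subset_finite_image_eq subset_rfl
  obtain ⟨B, hB⟩ := (d2.image fun k => ch o (Y.σ k • o)).bddAbove
  refine ⟨2 * R * B, fun P hP => ?_⟩
  obtain ⟨γ, hγ⟩ := hR P hP.1 fun N hN => hP.2 N (hp hN) (Y.per_o N hN)
  have a : ch (Y.σ γ⁻¹ • P) o ≤ R := by rwa [← ch_isom (Y.σ γ), map_inv, smul_inv_smul]
  have pg : pr γ⁻¹ := ⟨_, hP.smul hL γ⁻¹, a⟩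
  obtain ⟨k, k1, k2⟩ := d3.ge ⟨_, pg, rfl⟩
  refine ⟨γ * k, by simpa only [Fu.St, map_mul, mul_smul, map_inv, smul_inv_smul] using (key _ _ pg (d1 k1) k2.symm).smul hL γ, ?_⟩
  have b := ch_tri (hP.1.smul (Y.σ γ⁻¹)) H2_o (H2_o.smul (Y.σ k))
  have c : ch o (Y.σ k • o) ≤ B := hB ⟨k, k1, rfl⟩
  have d := one_le_ch H2_o (H2_o.smul (Y.σ k))
  have e := one_le_ch (hP.1.smul (Y.σ γ⁻¹)) H2_o
  rw [← ch_isom (Y.σ γ), map_inv, smul_inv_smul, ← map_inv, ch_comm o (Y.σ γ⁻¹ • P)] at b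
  rw [map_mul, mul_smul]
  exact b.trans (by gcongr; linarith only [a, e])

/-- The stabiliser of the region of the base point. -/
def cut {Δ : Type} [Group Δ] (ι : Δ →* Γ) (inj : Function.Injective ι) (hL : Lam Y L)
    (h0 : Off L o) (hp : Y.per ⊆ L) (rng : ∀ g, St Y L o g ↔ ∃ d, ι d = g)
    (ne : ∃ α β E F, α ≠ 1 ∧ β ≠ 1 ∧ IsAx (Y.σ (ι α)) E ∧ IsAx (Y.σ (ι β)) F ∧ Cr E F) :
    Fuchs Δ where
  σ := Y.σ.comp ι
  per := {N | Bd L o N}
  hyp γ h := Y.hyp _ fun e => h (inj (e.trans (map_one ι).symm))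
  proper R := (Y.proper R).preimage inj.injOn
  per_o _ h := h.2.1
  per_smul γ _ h := h.smul hL h0 ((rng _).2 ⟨γ, rfl⟩)
  per_fin := by
    obtain ⟨R, hR⟩ := st_cocompact hL h0 hp
    refine ⟨_, hL.fin o H2_o R, fun N ⟨a, _, p, b, c⟩ => ?_⟩
    obtain ⟨g, g1, g2⟩ := hR p b
    obtain ⟨d, rfl⟩ := (rng g).1 g1
    refine ⟨d⁻¹, hL.smul N a _, ?_⟩
    rw [MonoidHom.comp_apply, map_inv, ← Bf_move']
    exact (abs_Bf_le_of_sign (hL.unit a) (H2_o.smul _) b.1 (by simp [c])).trans g2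
  per_ax N h := by
    obtain ⟨x, a, b⟩ := hL.ax N h.1
    obtain ⟨d, rfl⟩ := (rng x).1 (h.st hL h0 (by rwa [b.2]))
    exact ⟨d, fun e => a (by simp [e]), b⟩
  per_far _ h _ h' := bd_far hL h h'
  cocompact := by
    obtain ⟨R, hR⟩ := st_cocompact hL h0 hp
    refine ⟨R, fun P a b => ?_⟩
    obtain ⟨g, g1, g2⟩ := hR P (cl_of_bd hL h0 a b)
    obtain ⟨d, rfl⟩ := (rng g).1 g1
    exact ⟨d, g2⟩
  nonel := ne

end Pool.Agent.MP_646035_al.NB

/-!
Lines inside a region, and the transitivity of the group on the regions.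
-/

namespace Pool.Agent.MP_646035_al.NB

open Pool.Agent.MP_4a6971_al.H66 MC Set H84 Fu
open H66G hiding good actA actO per_period len_fin trK_fin smul_coe st i_smul

variable {Γ : Type} [Group Γ] {L : Set V} {E F G N P q r r' m : V} {u : Isom}

/-- The line `E` lies inside the region of `r`. -/
structure Ins (L : Set V) (r E : V) : Prop where
  out : E ∉ L
  nc : ∀ n ∈ L, ¬ Cr E n
  cl : ∃ q, Cl L r q ∧ Bf E q = 0

lemma bf_mv (u : Isom) (n r : V) : Bf n (u • r) = Bf (u⁻¹ • n) r := by rw [Bf_move, inv_inv]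

lemma off_mv (hu : ∀ n ∈ L, u⁻¹ • n ∈ L) (h : Off L r) : Off L (u • r) :=
  ⟨h.1.smul _, fun n hn => by rw [bf_mv]; exact h.2 _ (hu n hn)⟩

lemma cl_mv (hu : ∀ n ∈ L, u⁻¹ • n ∈ L) (h : Cl L r q) : Cl L (u • r) (u • q) :=
  ⟨h.1.smul _, fun n hn => by
    rw [bf_mv, bf_mv]
    exact h.2 _ (hu n hn)⟩

lemma Ins.mv (hu : ∀ n ∈ L, u⁻¹ • n ∈ L) (h : Ins L r E) : Ins L (u • r) (u • E) :=
  ⟨fun a => h.out (by simpa using hu _ a), fun n a c => h.nc _ (hu n a) ((cr_move _ _ _).1 c),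
    let ⟨q, a, b⟩ := h.cl; ⟨_, cl_mv hu a, by simpa using b⟩⟩

section

variable {Y : Fuchs Γ} {A : Subgroup (MulAut Γ)} {φ : MulAut Γ} {x : Γ}

lemma front (hE : Ax Y E) (h1 : E ∉ Y.per) (h2 : -E ∉ Y.per) (hq : H2 q) (e : Bf E q = 0) :
    ∀ n ∈ Y.per, 0 ≤ Bf n q := fun _ w =>
  let ⟨_, a, b⟩ := hE; (tw1_front Y a b w h1 h2 (x := ⟨q, hq⟩) e).le

lemma Ins.all (hL : Lam Y L) (h : Ins L r E) (hE : Ax Y E) (hq : H2 q) (e : Bf E q = 0) :
    Off L q ∧ Cl L r q :=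
  let ⟨_, a, b⟩ := h.cl
  ⟨hL.off hE h.out h.nc hq e, hL.cl_of hE h.out h.nc a b hq e⟩

/-- Lines through a common point lie inside the same region. -/
lemma Ins.same (hL : Lam Y L) (h0 : Off L r') (h : Ins L r E) (h' : Ins L r' F) (hE : Ax Y E)
    (hF : Ax Y F) (hq : H2 q) (e : Bf E q = 0) (e' : Bf F q = 0) : Cl L r r' :=
  (h.all hL hE hq e).2.trans (h.all hL hE hq e).1 ((h'.all hL hF hq e').2.symm hL h0)

lemma Ins.smul (hL : Lam Y L) (h : Ins L r E) (g : Γ) : Ins L (Y.σ g • r) (Y.σ g • E) :=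
  h.mv fun n a => map_inv Y.σ g ▸ hL.smul n a _

lemma Ins.st (hL : Lam Y L) (h0 : Off L r) (h : Ins L r E) (hE : Ax Y E) (e : Y.σ x • E = E) :
    St Y L r x :=
  let ⟨_, a, b⟩ := h.cl
  h.same hL (h0.smul hL x) (e ▸ h.smul hL x) hE hE a.1 b b

lemma Ins.ends (hL : Lam Y L) (h : Ins L r E) (hx : x ≠ 1) (hE : IsAx (Y.σ x) E) :
    ∃ N, End (Y.σ x) N ∧ ∀ n ∈ L, 0 < Bf n r → 0 < Bf n N := by
  obtain ⟨N, N', a, -, e⟩ := exists_ends' hx hE
  obtain ⟨q, q1, q2⟩ := h.cl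
  refine ⟨N, a, fun n hn p => lt_of_le_of_ne ?_ fun z => ?_⟩
  · simpa using a.le (H := -n) q1.1 fun k => by
      rw [Bf_neg_left, neg_nonpos]
      exact (h.all hL ⟨x, hx, hE⟩ (q1.1.smul _) (by
        rw [bf_mv, ← zpow_natCast, ← zpow_neg, hE.zpow, q2])).2.2 n hn p
  · obtain ⟨y, y1, y2⟩ := hL.ax n hn
    have := e n
    rw [← z, y2.1] at this
    rcases not_tangent y1 hx y2 hE (by linarith) with rfl | rfl
    exacts [h.out hn, h.out (hL.neg n hn)]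

/-- An automorphism that sends a line inside the region to a line inside the region preserves the
stabiliser of the region. -/
lemma pres (h : Mod0 Y A) (hφ : φ ∈ A) (hL : Lam Y L) (h0 : Off L r)
    (hR : ∀ E ∈ L, ∀ F, Rl Y φ⁻¹ E F → F ∈ L) (t : Rl Y φ E F) (hE : Ins L r E) (hF : Ins L r F)
    (s : St Y L r x) : St Y L r (φ x) := by
  refine ⟨h0.1.smul _, fun m' hm p => not_lt.1 fun c => ?_⟩
  obtain ⟨α, a1, a2⟩ := hL.ax m' hm
  obtain ⟨m, t', p'⟩ : ∃ m, Rl Y φ⁻¹ m' m ∧ 0 < Bf m r := by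
    obtain ⟨m, t'⟩ := exists_rl φ⁻¹ a1 a2
    exact (h0.2 m (hR _ hm _ t')).lt_or_gt.elim (fun b => ⟨-m, t'.neg_right, by simpa using b⟩)
      fun b => ⟨m, t', b⟩
  have mL := hR _ hm _ t'
  obtain ⟨β, b1, b2, b3⟩ := t
  have b4 : φ β ≠ 1 := by simpa using b1
  obtain ⟨N, n1, n2⟩ := hE.ends hL b1 b2
  obtain ⟨M, m1, m2⟩ := (hE.smul hL x).ends hL (by simpa only [ne_eq, conj_eq_one_iff] using b1) (ax_conj b2 x)
  obtain ⟨N', k1, k2⟩ := hF.ends hL b4 b3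
  obtain ⟨M', l1, l2⟩ := (hF.smul hL (φ x)).ends hL (by simpa only [ne_eq, conj_eq_one_iff, EmbeddingLike.map_eq_one_iff] using b1) (ax_conj b3 (φ x))
  refine h.side φ hφ (φ⁻¹ α) β (x * β * x⁻¹) ⟨by simpa using a1, b1, by simpa only [ne_eq, conj_eq_one_iff] using b1, m, N, M,
    t'.ax a1 a2, n1, m1, n2 m mL p', m2 m mL (Cl.pos' (h0.smul hL x) s mL p')⟩
    ⟨by simpa using a1, b4, by simpa only [map_mul, map_inv, ne_eq, conj_eq_one_iff, EmbeddingLike.map_eq_one_iff] using b1, m', N', M', by simpa using a2, k1, by simpa only [map_mul, map_inv] using l1,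
      k2 m' hm p, by simpa using l2 _ (hL.neg _ hm) (by simpa using c)⟩

lemma ins_of {Δ : Type} [Group Δ] (W : Fuchs Δ) (hL : Lam Y L) (h0 : Off L o)
    (e : W.per = {N | Bd L o N}) (hE : Ax W E) (h1 : E ∉ W.per) (h2 : -E ∉ W.per) : Ins L o E := by
  have k : ∀ q, H2 q → Bf E q = 0 → Cl L o q := fun q a b =>
    cl_of_bd hL h0 a fun N c => front hE h1 h2 a b N (e ▸ c)
  obtain ⟨γ, l⟩ := hE.pl
  have c := k _ (l.h2 0) (l.on 0)
  refine ⟨fun a => ?_, fun n hn => ?_, _, c, l.on 0⟩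
  · rcases (h0.2 E a).lt_or_gt with b | b
    · exact h2 (e ▸ ⟨hL.neg E a, by simpa using b, _, c, by simp [l.on 0]⟩)
    · exact h1 (e ▸ ⟨a, b, _, c, l.on 0⟩)
  obtain ⟨x, x1, x2⟩ := hE
  have : ∀ n ∈ L, 0 < Bf n o → ¬ Cr E n := fun n hn b =>
    not_cr_of_pos (W.hyp x x1) x2 (hL.unit hn) (l.h2 0) fun j => (k _ ((l.h2 0).smul _) (by
      rw [bf_mv, ← zpow_neg, x2.zpow, l.on 0])).2 n hn b
  rcases (h0.2 n hn).lt_or_gt with b | b
  · simpa using this _ (hL.neg n hn) (by simpa using b)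
  · exact this n hn b

end

variable {Z : Cap Γ} {g k : Γ}

lemma conj_mem (Z : Cap Γ) {x : Γ} (hx : x ∈ Z.O) (g : Γ) : g * x * g⁻¹ ∈ Z.O := by
  by_cases h : g ∈ Z.O
  · exact mul_mem (mul_mem h hx) (inv_mem h)
  · exact Z.idx _ _ (fun a => h ((Z.O.mul_mem_cancel_right hx).1 a)) fun a => h (inv_mem_iff.1 a)

lemma ax_smul (h : Ax Z.Y E) (g : Γ) : Ax Z.Y (Z.σ g • E) :=
  let ⟨x, a, b⟩ := h
  ⟨⟨_, conj_mem Z x.2 g⟩, fun e => a (Subtype.ext (by simpa only [OneMemClass.coe_one, OneMemClass.coe_eq_one, conj_eq_one_iff] using congrArg Subtype.val e)), by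
    simpa only [Z.res, map_mul, map_inv] using b.conj (Z.σ g)⟩

lemma root (hg : g ∉ Z.O) (hk : k ∉ Z.O) (e : g * g = k * k) : g = k := by
  have x1 : (⟨_, Z.idx _ _ hg hg⟩ : Z.O) ≠ 1 := fun a => Z.sq g hg (congrArg Subtype.val a)
  have hy := Z.Y.hyp _ x1
  obtain ⟨m, hm⟩ := hy.exists_ax
  have ax : Ax Z.Y m := ⟨_, x1, hm⟩
  have f : ∀ k, g * g = k * k → Z.σ k • m = m ∨ Z.σ k • m = -m := fun k e => hy.ax_unique hm (by
    have := hm.conj (Z.σ k)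
    rw [Z.res] at this ⊢
    rwa [← map_mul, ← map_inv, ← map_mul, show k * (g * g) * k⁻¹ = g * g by rw [e]; group] at this)
  have f' : Z.σ g⁻¹ • m = m ∨ Z.σ g⁻¹ • m = -m := (f g rfl).imp
    (fun a => by rw [map_inv, inv_smul_eq_iff, a]) fun a => by
      rw [map_inv, inv_smul_eq_iff, smul_neg, a, neg_neg]
  obtain ⟨γ, l⟩ := ax.pl
  obtain ⟨c, τ, p⟩ := ax.exists_per l
  have pf := p.fix
  rw [Z.res] at pf
  obtain ⟨a, ha⟩ := p.gen ⟨g⁻¹ * k, Z.idx _ _ (mt inv_mem_iff.1 hg) hk⟩ (by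
    rw [Z.res, map_mul, mul_smul]
    rcases f k e with b | b <;> rcases f' with d | d <;> simp only [b, d, true_or, or_true, smul_neg, neg_neg])
  obtain ⟨j, hj⟩ := p.gen ⟨_, conj_mem Z c.2 g⟩ (Or.inl (by
    rw [Z.res, map_mul, map_mul, mul_smul, mul_smul]
    rcases f' with d | d <;> rw [d]
    · rw [pf, ← d, map_inv, smul_inv_smul, ← map_inv, d]
    · rw [smul_neg, pf, ← d, map_inv, smul_inv_smul]))
  obtain ⟨n, hn⟩ := p.gen _ (Or.inl hm.2)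
  have n0 : n ≠ 0 := fun a => x1 (by simp [hn, a])
  replace ha : g⁻¹ * k = c.1 ^ a := congrArg Subtype.val ha
  replace hj : g * c * g⁻¹ = c.1 ^ j := congrArg Subtype.val hj
  replace hn : g * g = c.1 ^ n := congrArg Subtype.val hn
  have inj : ∀ s : ℤ, c.1 ^ s = 1 → s = 0 := fun s b => by_contra fun d =>
    zpow_ne Z.Y p.ne d (Subtype.ext b)
  have j1 : j = 1 := by
    have := inj (j * n - n) (by rw [zpow_sub, zpow_mul, ← hj, conj_zpow, ← hn]; group)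
    exact mul_right_cancel₀ n0 (by linarith only [this])
  have cm : Commute g (c.1 ^ a) := Commute.zpow_right (by
    rw [j1, zpow_one, mul_inv_eq_iff_eq_mul] at hj; exact hj) a
  obtain rfl : k = g * c.1 ^ a := by rw [← ha, mul_inv_cancel_left]
  have := inj (a + a) (by
    rw [cm.symm.mul_mul_mul_comm] at e
    rw [zpow_add, ← left_eq_mul.1 e])
  rw [show a = 0 by omega, zpow_zero, mul_one]

/-- Invariant families of cores and boundary lines. -/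
structure Ws (Z : Cap Γ) (L : Set V) : Prop where
  lam : Lam Z.Y L
  smul : ∀ γ, ∀ n ∈ L, Z.σ γ • n ∈ L
  sub : ∀ n ∈ L, n ∈ Z.C ∨ n ∈ Z.Y.per ∨ -n ∈ Z.Y.per

namespace Ws

variable (w : Ws Z L)
include w

lemma off : Off L o := ⟨H2_o, fun n hn => by
  rcases w.sub n hn with a | a | a
  exacts [Z.off n a, (Z.Y.per_o n a).ne', by simpa using (Z.Y.per_o _ a).ne']⟩

lemma inv (g : Γ) : ∀ n ∈ L, (Z.σ g)⁻¹ • n ∈ L := fun n a => map_inv Z.σ g ▸ w.smul _ n a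

lemma back (g : Γ) (h : Cl L (Z.σ g • r) q) : Cl L r (Z.σ g⁻¹ • q) := by
  simpa only [map_inv, inv_smul_smul] using cl_mv (w.inv g⁻¹) h

/-- The stabiliser of the region of the base point. -/
def stab : Subgroup Γ where
  carrier := {g | Cl L o (Z.σ g • o)}
  one_mem' := by simpa only [mem_ofPred_eq, map_one, one_smul] using w.off.cl
  mul_mem' {a b} ha hb := by
    rw [mem_ofPred, map_mul, mul_smul]
    exact Cl.trans (off_mv (w.inv a) w.off) ha (cl_mv (w.inv a) hb)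
  inv_mem' {a} ha := w.back a (Cl.symm w.lam w.off ha)

theorem trans (H : Subgroup Γ) (hH : ∀ k N, Bd L o N → Z.σ k • N = -N → k ∈ H) (hP : H2 P)
    (f : ∀ N ∈ Z.Y.per, 0 ≤ Bf N P) : ∃ g ∈ H, Cl L o (Z.σ g • P) := by
  have fin : ∀ P, H2 P → {m ∈ L | 0 < Bf m o ∧ Bf m P < 0}.Finite := fun P hP =>
    (w.lam.sep_fin H2_o hP).subset fun _ a => ⟨a.1, (mul_neg_of_pos_of_neg a.2.1 a.2.2).le⟩
  generalize e : {m ∈ L | 0 < Bf m o ∧ Bf m P < 0}.ncard = n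
  induction n using Nat.strong_induction_on generalizing P with
  | _ n ih =>
  by_cases c : Cl L o P
  · exact ⟨1, one_mem _, by simpa only [map_one, one_smul] using c⟩
  obtain ⟨N, b, d⟩ : ∃ N, Bd L o N ∧ Bf N P < 0 := by simpa using mt (cl_of_bd w.lam w.off hP) c
  obtain ⟨k, hk⟩ := Z.glide N (((w.sub N b.1).resolve_right (by
    rintro (a | a)
    · exact (f N a).not_gt d
    · have := Z.Y.per_o _ a
      rw [Bf_neg_left] at this
      linarith only [b.2.1, this])))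
  have hk' : (Z.σ k)⁻¹ • N = -N := by rw [inv_smul_eq_iff, smul_neg, hk, neg_neg]
  obtain ⟨g, g1, g2⟩ := ih _ (by
    rw [← e, ← ncard_image_of_injective _ (MulAction.injective (Z.σ k)⁻¹)]
    refine ncard_lt_ncard ⟨?_, fun a => (?_ : N ∉ _) (a ⟨b.1, b.2.1, d⟩)⟩ (fin P hP)
    · rintro _ ⟨m, ⟨m1, m2, m3⟩, rfl⟩
      rw [bf_mv] at m3
      refine ⟨w.inv k m m1, ?_, m3⟩
      obtain ⟨-, -, p, p1, p2⟩ := id b
      have a : H2 (Z.σ k • p) := p1.1.smul _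
      have := b.pos w.lam m1 m2 (fun a => by rw [a, hk', Bf_neg_left] at m3; linarith only [d, m3]) a
        (by rw [bf_mv, hk', Bf_neg_left, p2, neg_zero])
      exact p1.pos w.lam w.off (w.inv k m m1) (by rwa [bf_mv] at this)
    · rintro ⟨m, ⟨-, m2, -⟩, a⟩
      rw [inv_smul_eq_iff.1 a, hk, Bf_neg_left] at m2
      linarith only [b.2.1, m2]) (hP.smul (Z.σ k))
    (fun M a => by rw [bf_mv, ← map_inv]; exact f _ (Z.per _ M a)) rfl
  exact ⟨g * k, mul_mem g1 (hH k N b hk), by rwa [map_mul, mul_smul]⟩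

lemma exists_ins (hE : Ax Z.Y E) (h1 : E ∉ L) (h2 : ∀ n ∈ L, ¬ Cr E n) (p : E ∉ Z.Y.per)
    (p' : -E ∉ Z.Y.per) : ∃ g, Ins L o (Z.σ g • E) := by
  obtain ⟨γ, l⟩ := hE.pl
  obtain ⟨g, -, c⟩ := w.trans ⊤ (by simp) (l.h2 0) (front hE p p' (l.h2 0) (l.on 0))
  exact ⟨g, by simpa only [map_inv, smul_inv_smul] using Ins.mv (r := Z.σ g⁻¹ • o) (w.inv g) ⟨h1, h2, γ 0,
    by simpa using cl_mv (w.inv g⁻¹) c, l.on 0⟩⟩

end Ws

end Pool.Agent.MP_646035_al.NB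

/-!
Curves with a finite orbit are cores of cross caps.
-/

namespace Pool.Agent.MP_646035_al.NB

open Pool.Agent.MP_4a6971_al.H66 MC Set H84 Fu
open H66G hiding good actA actO per_period len_fin trK_fin smul_coe st i_smul

variable {Γ : Type} [Group Γ] {L : Set V} {E F G N P q r m : V} {Z : Cap Γ} {g k : Γ}
  {A : Subgroup (MulAut Γ)} {φ : MulAut Γ}

lemma wsC (Z : Cap Γ) : Ws Z Z.C := ⟨Z.lam, Z.smul, fun _ => Or.inl⟩

lemma per_back (h : Z.σ g • E ∈ Z.Y.per) : E ∈ Z.Y.per := by simpa only [map_inv, inv_smul_smul] using Z.per g⁻¹ _ h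

lemma two_smul (h : Z.Two E) (g : Γ) : Z.Two (Z.σ g • E) where
  curve := ⟨ax_smul h.curve.ax g, fun γ c => h.curve.simple ⟨_, conj_mem Z γ.2 g⁻¹⟩ (by
      rw [cr_move, Z.res] at c
      simpa only [inv_inv, Z.res, map_mul, map_inv, mul_smul] using c), fun a => h.curve.pos (per_back a),
    fun a => h.curve.neg (per_back (g := g) (by simpa using a))⟩
  notMem a := h.notMem (by simpa only [map_inv, inv_smul_smul] using Z.smul g⁻¹ _ a)
  nc m a c := h.nc _ ((wsC Z).inv g m a) ((cr_move _ _ _).1 c)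

lemma Ws.two_out (w : Ws Z L) (h : Z.Two E) : E ∉ L ∧ ∀ n ∈ L, ¬ Cr E n :=
  ⟨fun a => (w.sub E a).elim h.notMem fun b => b.elim h.curve.pos h.curve.neg, fun n a => by
    rcases w.sub n a with b | b | b
    exacts [h.nc n b, Ax.not_cr_per h.curve.ax b, by simpa using Ax.not_cr_per h.curve.ax b]⟩

lemma Ws.two_ins (w : Ws Z L) (h : Z.Two E) : ∃ g, Ins L o (Z.σ g • E) :=
  w.exists_ins h.curve.ax (w.two_out h).1 (w.two_out h).2 h.curve.pos h.curve.neg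

lemma Ws.mem_stab (w : Ws Z L) (h : Ins L o E) (hE : Ax Z.Y E) (hq : H2 q) (e : Bf E q = 0)
    (c : Cl L o (Z.σ g • q)) : g ∈ w.stab :=
  Cl.trans (off_mv (w.inv g) (h.all w.lam hE hq e).1) c
    (cl_mv (w.inv g) ((h.all w.lam hE hq e).2.symm w.lam w.off))

lemma two_mem (h : Z.Two E) (hq : H2 q) (e : Bf E q = 0) (e' : Bf E (Z.σ g • q) = 0) : g ∈ Z.O := by
  obtain ⟨k, i⟩ := (wsC Z).two_ins h
  have a := ax_smul h.curve.ax k
  have := (wsC Z).mem_stab (g := k * g * k⁻¹) i a (hq.smul (Z.σ k)) (by simpa using e) (by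
    simpa only [map_mul, map_inv, mul_smul, inv_smul_smul] using (i.all Z.lam a ((hq.smul (Z.σ g)).smul (Z.σ k)) (by simpa using e')).2)
  simpa [mul_assoc] using conj_mem Z (Z.tile _ this.2) k⁻¹

lemma two_simple (h : Z.Two E) (g : Γ) : ¬ Cr E (Z.σ g • E) := fun c => by
  obtain ⟨q, q1, q2, q3⟩ := exists_inter (Ax.unit h.curve.ax) (by simpa using Ax.unit h.curve.ax) c
  rw [Bf_move, ← map_inv] at q3
  exact h.curve.simple ⟨g, inv_mem_iff.1 (two_mem h q1 q2 q3)⟩ (by rwa [Z.res])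

/-- The curves that contain a translate of `E`. -/
def Tr (Z : Cap Γ) (E : V) : Set (Cv Z.Y) := {b | ∃ z, Z.σ z • E ∈ b.1}

lemma tr_fin (Z : Cap Γ) (E : V) : (Tr Z E).Finite := by
  have key : ∀ S : Set Γ, (∀ z ∈ S, ∀ z' ∈ S, z' * z⁻¹ ∈ Z.O) →
      {b : Cv Z.Y | ∃ z ∈ S, Z.σ z • E ∈ b.1}.Finite := fun S hS =>
    Set.Subsingleton.finite fun b ⟨z, a, c⟩ b' ⟨z', a', c'⟩ => Cv.eq_of_mem (by
      simpa only [Z.res, map_mul, map_inv, mul_smul, inv_smul_smul] using b.smul_mem c ⟨_, hS z a z' a'⟩) c'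
  refine ((key Z.O fun _ a _ b => mul_mem b (inv_mem a)).union
    (key (Z.O : Set Γ)ᶜ fun _ a _ b => Z.idx _ _ b (mt inv_mem_iff.1 a))).subset fun b ⟨z, c⟩ => ?_
  exact (em (z ∈ Z.O)).imp (fun a => ⟨z, a, c⟩) fun a => ⟨z, a, c⟩

lemma mem_tr (h : Z.Two E) : F ∈ LL (Tr Z E) ↔ ∃ z, F = Z.σ z • E ∨ F = -(Z.σ z • E) := by
  refine ⟨fun ⟨b, ⟨z, a⟩, c⟩ => ?_, ?_⟩
  · obtain ⟨y, c⟩ := b.exists_smul a c
    exact ⟨y * z, by simpa only [map_mul, mul_smul, Z.res] using c⟩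
  · have a := fun z => mem_mk (two_smul h z).curve
    rintro ⟨z, rfl | rfl⟩
    exacts [⟨_, ⟨z, a z⟩, a z⟩, ⟨_, ⟨z, a z⟩, Cv.neg_mem _ (a z)⟩]

lemma lam_tr (h : Z.Two E) : Lam Z.Y (LL (Tr Z E)) :=
  lam_LL (tr_fin Z E) fun a ha b hb => i_eq_zero.2 fun F hF G hG => by
    obtain ⟨y, rfl | rfl⟩ := (mem_tr h).1 ⟨a, ha, hF⟩ <;>
      obtain ⟨z, rfl | rfl⟩ := (mem_tr h).1 ⟨b, hb, hG⟩ <;>
      simpa only [cr_neg_left, cr_neg_right, cr_move, map_mul, map_inv, mul_smul]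
        using two_simple h (y⁻¹ * z)

variable (h : Z.Mod A)
include h

lemma mod0 : Mod0 Z.Y (Res A Z.O) :=
  ⟨inn_res h.inn, fun _ ⟨φ, a, b⟩ α β γ => h.side φ a α β γ _ _ _ (b α) (b β) (b γ)⟩

lemma res_O (hφ : φ ∈ A) : ∃ ψ ∈ Res A Z.O, ∀ x : Z.O, φ x = ψ x :=
  let ⟨ψ, a⟩ := exists_res (h.ori φ hφ) (h.ori _ (inv_mem hφ)); ⟨ψ, ⟨φ, hφ, a⟩, a⟩

lemma fre (t : Z.Two E) : ∃ ψ ∈ Res A Z.O, Fre Z.Y ψ E := by
  obtain ⟨φ, hφ, τ, P, Q, hτ, hE, hP, hQ, p, q, h1, h2, h3⟩ := h.twist E t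
  obtain ⟨ψ, m, e⟩ := res_O h hφ
  obtain ⟨γ, l⟩ := Ax.pl t.curve.ax
  have τO : τ ∈ Z.O := two_mem t (l.h2 0) (l.on 0) (by rw [bf_mv, hE.inv.2, l.on 0])
  have hL := lam_tr t
  have mE : E ∈ LL (Tr Z E) := (mem_tr t).2 ⟨1, by simp only [map_one, one_smul, true_or]⟩
  have k : ∀ F ∈ LL (Tr Z E), F ≠ E → F ≠ -E → 0 < Bf F P * Bf F Q := fun F a b c => by
    obtain ⟨z, rfl | rfl⟩ := (mem_tr t).1 a
    · exact h1 z b c
    · simpa only [Bf_neg_left, mul_neg, neg_mul, neg_neg] using h1 z (fun d => c (by rw [d])) fun d => b (by rw [d, neg_neg])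
  obtain ⟨p0, pb⟩ := bd_of hL mE hP hQ p q k
  obtain ⟨q0, qb⟩ := bd_of hL (hL.neg E mE) hQ hP (by simpa using q) (by simpa using p)
    fun F a b c => mul_comm (Bf F P) _ ▸ k F a (by simpa using c) b
  have nw : ∀ P, Off (LL (Tr Z E)) P → ∀ β : Z.O, St Z.Y (LL (Tr Z E)) P β →
      Z.NoWall E P (Z.σ β • P) := fun P a β s γ =>
    Z.res β ▸ St.same hL a s ((mem_tr t).2 ⟨γ, Or.inl rfl⟩)
  exact ⟨ψ, m, fre_of hL (τ := ⟨τ, τO⟩) (fun a => hτ (congrArg Subtype.val a)) (by rwa [Z.res])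
    p0 pb q0 qb (fun β s => Subtype.ext ((e β).symm.trans (h2 β (nw P p0 β s))))
    (fun β s => Subtype.ext ((e β).symm.trans (h3 β (nw Q q0 β s))))
    fun n => good (mod0 h) (pow_mem m n)⟩

omit h

lemma core_curve (hm : m ∈ Z.C) : Z.Y.Curve m := by
  have k : ∀ m ∈ Z.C, m ∉ Z.Y.per := fun m hm a => by
    obtain ⟨k, hk⟩ := Z.glide m hm
    have := Z.Y.per_o _ (hk ▸ Z.per k m a)
    rw [Bf_neg_left] at this
    linarith only [Z.Y.per_o _ a, this]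
  exact ⟨Z.lam.ax m hm, fun γ => Z.lam.nc _ hm _ (Z.lam.smul m hm γ), k m hm,
    k _ (Z.lam.neg m hm)⟩

/-- The lifts of the cores. -/
def Co (Z : Cap Γ) : Set (Cv Z.Y) := {a | a.1 ⊆ Z.C}

lemma mem_co {a : Cv Z.Y} (ha : m ∈ a.1) : a ∈ Co Z ↔ m ∈ Z.C :=
  ⟨fun b => b ha, fun b n c => by
    obtain ⟨g, rfl | rfl⟩ := a.exists_smul ha c
    exacts [Z.lam.smul m b g, Z.lam.neg _ (Z.lam.smul m b g)]⟩

lemma co_mc : H71.Mc i (Co Z) := fun _ ha _ hb =>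
  i_eq_zero.2 fun _ a _ b => Z.lam.nc _ (ha a) _ (hb b)

lemma co_fin (Z : Cap Γ) : (Co Z).Finite := by
  obtain ⟨ξ, _, H⟩ := Fu.ax Z.Y
  by_contra c
  obtain ⟨P, p1, p2⟩ := Set.Infinite.exists_subset_card_eq c (ξ + 1)
  have := H.xi P fun a ha b hb => co_mc a (p1 ha) b (p1 hb)
  omega

lemma ws_of {S : Set (Cv Z.Y)} (hS : S ⊆ Co Z) (inv : ∀ γ, ∀ n ∈ LL S, Z.σ γ • n ∈ LL S) :
    Ws Z (WL S) where
  lam := lam_WL ((co_fin Z).subset hS) fun a ha b hb => co_mc a (hS ha) b (hS hb)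
  smul γ n := Or.imp (inv γ n) (Or.imp (Z.per γ n) fun a => by simpa using Z.per γ _ a)
  sub _ := Or.imp_left fun ⟨_, a, b⟩ => hS a b

lemma ll_co : m ∈ LL (Co Z) ↔ m ∈ Z.C :=
  ⟨fun ⟨_, a, b⟩ => a b, fun a => ⟨_, (mem_co (mem_mk (core_curve a))).2 a, mem_mk _⟩⟩

lemma ws_co (Z : Cap Γ) : Ws Z (WL (Co Z)) :=
  ws_of subset_rfl fun γ n a => ll_co.2 (Z.smul γ n (ll_co.1 a))

lemma two_iff {a : Cv Z.Y} (ha : E ∈ a.1) : Z.Two E ↔ a ∈ H71.perp i (Co Z) ∧ a ∉ Co Z :=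
  ⟨fun t => ⟨perp_of_nc ha ((ws_co Z).two_out t).2, mt (mem_co ha).1 t.notMem⟩, fun t =>
    ⟨a.curve ha, mt (mem_co ha).2 t.2, fun m b => nc_of_perp t.1 ha m (Or.inl (ll_co.2 b))⟩⟩

lemma two_fill (t : Z.Two E) : ∃ G, Z.Two G ∧ Cr E G := by
  obtain ⟨P, hP⟩ := (co_fin Z).exists_finset_coe
  have a := (two_iff (mem_mk t.curve)).1 t
  obtain ⟨y, y1, y2⟩ := ni (P := P) (hP ▸ co_mc) (hP ▸ a.1) (by rw [← Finset.mem_coe, hP]; exact a.2)
  obtain ⟨G, g1, g2⟩ := exists_cr y2 (mem_mk _)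
  exact ⟨G, (two_iff g1).2 ⟨hP ▸ y1, fun b => y2 ((i_symm _ _).trans (a.1 y b))⟩, g2⟩

/-- A curve that crosses no curve inside a piece is a core. -/
theorem core_of (t : Z.Two E) {x : Cv Z.Y} (hx : ∀ F, Z.Two F → ∀ G ∈ x.1, ¬ Cr F G) : x ∈ Co Z := by
  obtain ⟨P, hP⟩ := (co_fin Z).exists_finset_coe
  have w := ws_co Z
  set D := H71.perp i (Co Z) \ Co Z
  have mx : H71.perp i D ∩ H71.perp i (Co Z) ⊆ Co Z := fun y hy => by_contra fun n => by
    obtain ⟨F, f⟩ := y.nonempty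
    obtain ⟨G, g1, g2⟩ := two_fill ((two_iff f).2 ⟨hy.2, n⟩)
    exact i_ne_zero (mem_mk g1.curve) f g2.symm (hy.1 _ ((two_iff (mem_mk _)).1 g1))
  have xD : x ∈ H71.perp i D := fun d hd =>
    i_eq_zero.2 fun F f => hx F ((two_iff f).2 hd)
  refine mx ⟨xD, fun a ha => ?_⟩
  obtain ⟨m, hm⟩ := a.nonempty
  obtain ⟨γ, l⟩ := (a.ax hm).pl
  obtain ⟨g, -, c⟩ := w.trans ⊤ (by simp) (l.h2 0)
    (front (a.ax hm) (a.curve hm).pos (a.curve hm).neg (l.h2 0) (l.on 0))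
  obtain ⟨k, j⟩ := w.two_ins t
  replace j := j.mv (w.inv g⁻¹)
  have t' := two_smul (two_smul t k) g⁻¹
  replace c : Cl (WL (Co Z)) (Z.σ g⁻¹ • o) (γ 0) := by simpa only [map_inv, inv_smul_smul] using cl_mv (w.inv g⁻¹) c
  have o0 := off_mv (w.inv g⁻¹) w.off
  obtain ⟨r, r1, r2⟩ := j.cl
  obtain ⟨m, hm, b⟩ : ∃ m ∈ a.1, Bd (WL (Co Z)) (Z.σ g⁻¹ • o) m := by
    have mL : m ∈ WL (Co Z) := Or.inl ⟨a, ha, hm⟩
    rcases (o0.2 m mL).lt_or_gt with b | b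
    · exact ⟨-m, a.neg_mem hm, w.lam.neg m mL, by simpa only [map_inv, Bf_neg_left, Left.neg_pos_iff] using b, _, c, by simp [l.on 0]⟩
    · exact ⟨m, hm, mL, b, _, c, l.on 0⟩
  have u := (two_iff (mem_mk t'.curve)).1 t'
  rw [i_symm]
  refine K2 (Q := P) (A := D) (hP ▸ co_mc) ?_ (hP ▸ mx) (hP ▸ u.1)
    (by rw [← Finset.mem_coe, hP]; exact u.2) (mem_mk _) r1.1 r2 (hP ▸ b.congr w.lam o0
      (j.all w.lam t'.curve.ax r1.1 r2).1 r1) hm xD
  rw [hP]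
  exact fun y hy d hd => i_symm y d ▸ hd.1 y hy

end Pool.Agent.MP_646035_al.NB
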