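import Pool.Agent.MP_646035_al.Mg.NB_Core
import Pool.Agent.MP_646035_al.Mg.NB_Defs

attribute [-instance] Prod.instSMul DivisionCommMonoid.toDivisionMonoid
  NonUnitalRingHomClass.toMulHomClass Prod.mulAction MonTypeEquivalenceMon.monMonoid
  Semiring.toMonoid NonUnitalAlgSemiHomClass.toMulHomClass CancelCommMonoid.toLeftCancelMonoid
  CommSemiring.toSemiring AddQuantale.instAddLeftMono DivisionSemiring.toSemiring
  MonoidWithZeroHomClass.toMonoidHomClass ESeminormedAddCommMonoid.toAddCommMonoid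
  SemigroupWithZero.toSemigroup Prod.distribSMul SMulWithZero.toSMulZeroClass
  MonoidWithZero.toMulZeroOneClass NonUnitalRing.toNonUnitalNonAssocRing
  BialgHomClass.toMonoidHomClass NormedRing.toRing NonUnitalNormedRing.toNormedAddCommGroup
  GroupConeClass.toSubmonoidClass invertibleTwo SubNegMonoid.toAddMonoid SubgroupClass.toCommGroup
  MonoidWithZero.toMonoid NonUnitalSemiring.toNonUnitalNonAssocSemiring AddMonoidWithOne.toAddMonoid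
  SubsemiringClass.toSubmonoidClass AddQuantale.instAddRightMono instCoeOTCOfCoeTC
  DivisionRing.toDivInvMonoid IdemSemiring.toCanonicallyOrderedAdd Algebra.toSMul
  NumberField.to_charZero NonAssocSemiring.toNonUnitalNonAssocSemiring AddMonoidWithOne.toOne
  SetLike.GradeZero.instMonoid AddSubmonoidWithOneClass.toOneMemClass IdemSemiring.toSemiring
  GroupWithZero.toDivInvMonoid NonUnitalNormedCommRing.toNonUnitalCommRing SeminormedRing.toRing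
  LieAdmissibleRing.toNonUnitalNonAssocRing GroupWithZero.toDivisionMonoid
  NonUnitalNonAssocCommSemiring.toNonUnitalNonAssocSemiring Quantale.instMulRightMono
  RKHS.instFunLike MulCharClass.toMonoidHomClass ESeminormedAddMonoid.toAddMonoid
  MulDistribMulActionSemiHomClass.toMonoidHomClass

/-!
The growth rates for surfaces with cross caps.
-/

namespace Pool.Agent.MP_646035_al.NB

open Pool.Agent.MP_4a6971_al.H66 MC Set H84 Fu
open H66G hiding good actA actO per_period len_fin trK_fin smul_coe st i_smul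

variable {Γ : Type} [Group Γ] {L : Set V} {E F G N P q r m : V} {Z : Cap Γ} {g k : Γ}
  {A : Subgroup (MulAut Γ)} {φ : MulAut Γ}

/-- The orientation preserving part of the stabiliser of the region. -/
def Ws.H (w : Ws Z L) : Subgroup Γ := Z.O ⊓ w.stab

/-- The inclusion into the orientation subgroup. -/
def Ws.ι (w : Ws Z L) : w.H →* Z.O := Subgroup.inclusion inf_le_left

lemma Ws.st_iff (w : Ws Z L) (x : Z.O) : St Z.Y L o x ↔ x.1 ∈ w.H := by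
  rw [Fu.St, Z.res]
  exact ⟨fun a => ⟨x.2, a⟩, fun a => a.2⟩

lemma Ws.exists_ax (w : Ws Z L) (j : Ins L o E) (hE : Ax Z.Y E) :
    ∃ x : w.H, x ≠ 1 ∧ IsAx (Z.Y.σ (w.ι x)) E :=
  let ⟨x, a, b⟩ := hE
  ⟨⟨x, (w.st_iff x).1 (j.st w.lam w.off hE b.2)⟩,
    fun e => a (Subtype.ext (congrArg Subtype.val e :)), b⟩

lemma Ws.uniq (w : Ws Z L) (h : Z.Mod A) (hφ : φ ∈ A) (e : ∀ x ∈ w.H, φ x = x) : φ = 1 := by
  have k : ∀ g, g ∉ Z.O → g * g ∈ w.stab → φ g = g := fun g a b =>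
    root (fun c => a (by simpa using h.ori _ (inv_mem hφ) _ c)) a
      (by rw [← map_mul, e _ ⟨Z.idx _ _ a a, b⟩])
  refine MulEquiv.ext fun g => ?_
  obtain ⟨s, s1, s2⟩ := w.trans (φ.toMonoidHom.eqLocus (MonoidHom.id Γ)) (fun s N b c => by
    have a : s ∉ Z.O := fun a => fix_neg (S := Z.Y) (g := ⟨s, a⟩) (w.lam.unit b.1) (by rwa [Z.res])
    refine k s a ((w.st_iff ⟨_, Z.idx _ _ a a⟩).1 (b.st w.lam w.off ?_)).2
    rwa [Z.res, map_mul, mul_smul, c, smul_neg, c, neg_neg]) (H2_o.smul (Z.σ g)) fun N a => by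
      rw [bf_mv, ← map_inv]
      exact (Z.Y.per_o _ (Z.per _ N a)).le
  have a : s * g ∈ w.stab := by rwa [← mul_smul, ← map_mul] at s2
  have : φ (s * g) = s * g := (em (s * g ∈ Z.O)).elim (fun b => e _ ⟨b, a⟩) fun b =>
    k _ b (mul_mem a a)
  rwa [map_mul, show φ s = s from s1, mul_right_inj] at this

lemma Ws.res (w : Ws Z L) (h : Z.Mod A) (hR : ∀ ψ ∈ Res A Z.O, ∀ E ∈ L, ∀ F, Rl Z.Y ψ E F → F ∈ L)
    {ψ : MulAut Z.O} (m : ψ ∈ Res A Z.O) (e : ∀ x : Z.O, φ x = ψ x) (t : Rl Z.Y ψ E F)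
    (hE : Ins L o E) (hF : Ins L o F) : ∃ χ : MulAut w.H, ∀ x : w.H, φ x = χ x := by
  refine exists_res (fun x a => ?_) fun x a => ?_
  · exact (e ⟨x, a.1⟩).symm ▸ (w.st_iff _).1 (pres (mod0 h) m w.lam w.off (hR _ (inv_mem m)) t hE hF
      ((w.st_iff ⟨x, a.1⟩).2 a))
  · have := (w.st_iff _).1 (pres (mod0 h) (inv_mem m) w.lam w.off (by simpa only [inv_inv, Prod.forall] using hR _ m) t.symm
      hF hE ((w.st_iff ⟨x, a.1⟩).2 a))
    rwa [show φ⁻¹ x = ψ⁻¹ ⟨x, a.1⟩ from φ.injective (by simp [e])]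

lemma conj_rl (h : Z.Mod A) (z : Γ) : ∃ ψ ∈ Res A Z.O, (∀ x : Z.O, z * x * z⁻¹ = ψ x) ∧
    ∀ E, Ax Z.Y E → Rl Z.Y ψ E (Z.σ z • E) := by
  obtain ⟨ψ, m, e⟩ := res_O h (h.inn ⟨z, rfl⟩)
  refine ⟨ψ, m, e, fun E ⟨x, a, b⟩ => ⟨x, a, b, ?_⟩⟩
  rw [Z.res] at b ⊢
  simpa only [← e, MulAut.conj_apply, map_mul, map_inv] using b.conj (Z.σ z)

theorem goalN : GoalN := by
  rintro Γ _ Z A h ⟨E, t⟩
  have hB := mod0 h
  let := actA hB
  set S : Set (Cv Z.Y) := {a | (MulAction.orbit (Res A Z.O) a).Finite}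
  have hS : S ⊆ Co Z := fun x hx => core_of t fun F f G g c => by
    obtain ⟨ψ, m, -, fr⟩ := fre h f
    obtain ⟨a, -, b, -, lt, e⟩ := (infinite_univ (α := ℕ)).exists_lt_map_eq_of_mapsTo
      (f := fun n => (⟨ψ, m⟩ : Res A Z.O) ^ n • x) (t := MulAction.orbit (Res A Z.O) x)
      (fun n _ => ⟨_, rfl⟩) hx
    rw [show b = a + (b - a) by omega, pow_add, mul_smul, smul_left_cancel_iff] at e
    obtain ⟨G', r⟩ := cv_rl (ψ ^ (b - a)) x g
    obtain ⟨γ, rfl | rfl⟩ := x.exists_smul g (show G' ∈ x.1 by rw [e]; exact ⟨G, g, r⟩)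
    exacts [fr G c _ (Nat.sub_pos_of_lt lt) γ r,
      fr G c _ (Nat.sub_pos_of_lt lt) γ (by simpa using r.neg_right)]
  have hL : ∀ ψ ∈ Res A Z.O, ∀ E ∈ LL S, ∀ F, Rl Z.Y ψ E F → F ∈ LL S :=
    fun ψ m E ⟨a, a1, a2⟩ F r => ⟨(⟨ψ, m⟩ : Res A Z.O) • a, by
      rwa [mem_ofPred, MulAction.orbit_smul], E, a2, r⟩
  have hR : ∀ ψ ∈ Res A Z.O, ∀ E ∈ WL S, ∀ F, Rl Z.Y ψ E F → F ∈ WL S := fun ψ m E a F r =>
    a.imp (fun a => hL ψ m E a F r) fun a => a.elim (rl_per r hB m) (rl_per r.neg_left hB m)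
  have w : Ws Z (WL S) := ws_of hS fun γ n a =>
    let ⟨ψ, m, _, r⟩ := conj_rl h γ; hL ψ m n a _ (r n (LL_ax a))
  obtain ⟨E, t, j⟩ : ∃ E, Z.Two E ∧ Ins (WL S) o E :=
    let ⟨g, j⟩ := w.two_ins t; ⟨_, two_smul t g, j⟩
  obtain ⟨G, tG, cr⟩ := two_fill t
  have jG : Ins (WL S) o G := by
    obtain ⟨q, a, b, c⟩ := exists_inter (Ax.unit t.curve.ax) (Ax.unit tG.curve.ax) cr
    exact ⟨(w.two_out tG).1, (w.two_out tG).2, q, (j.all w.lam t.curve.ax a b).2, c⟩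
  obtain ⟨x, x1, x2⟩ := w.exists_ax j t.curve.ax
  obtain ⟨y, y1, y2⟩ := w.exists_ax jG tG.curve.ax
  have pW : Z.Y.per ⊆ WL S := fun _ a => Or.inr (Or.inl a)
  have inj : Function.Injective w.ι := Subgroup.inclusion_injective _
  have ne : ∀ x : w.H, x ≠ 1 → w.ι x ≠ 1 := fun x a b => a (inj (b.trans (map_one _).symm))
  let W : Fuchs w.H := cut w.ι inj w.lam w.off pW (fun g => (w.st_iff g).trans
    ⟨fun a => ⟨⟨_, a⟩, rfl⟩, fun ⟨d, e⟩ => e ▸ d.2⟩) ⟨x, y, E, G, x1, y1, x2, y2, cr⟩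
  have hW : Mod0 W (Res A w.H) := ⟨inn_res h.inn, fun χ ⟨φ, a, b⟩ α β γ s c =>
    h.side φ a (w.ι α) (w.ι β) (w.ι γ) (w.ι (χ α)) (w.ι (χ β)) (w.ι (χ γ)) (b α) (b β) (b γ)
      ⟨ne _ s.1, ne _ s.2.1, ne _ s.2.2.1, s.2.2.2⟩ ⟨ne _ c.1, ne _ c.2.1, ne _ c.2.2.1, c.2.2.2⟩⟩
  have nrm : ∀ φ ∈ A, ∃ z, ∃ χ : MulAut w.H, ∀ x : w.H, z * φ x * z⁻¹ = χ x := fun φ a => by
    obtain ⟨ψ, m, e⟩ := res_O h a
    obtain ⟨F, r⟩ := exists_rl ψ (ne x x1) x2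
    have c := rl_curve r hB m t.curve
    obtain ⟨z, i⟩ := w.exists_ins c.ax (fun b => j.out (hR _ (inv_mem m) _ b _ r.symm))
      (fun n b d => by
        obtain ⟨s, s1, s2⟩ := w.lam.ax n b
        obtain ⟨n', r'⟩ := exists_rl ψ⁻¹ s1 s2
        exact j.nc _ (hR _ (inv_mem m) _ b _ r') (r.symm.cr r' (good hB (inv_mem m)) d)) c.pos c.neg
    obtain ⟨ψ', m', e', r'⟩ := conj_rl h z
    exact ⟨z, w.res (φ := MulAut.conj z * φ) h hR (mul_mem m' m) (fun x => by simp only [MulAut.mul_apply, e, MulAut.conj_apply, e'])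
      (r.trans (r' F c.ax)) j i⟩
  have cE : W.Curve E := ⟨⟨x, x1, x2⟩, fun γ => t.curve.simple (w.ι γ), fun a => j.out a.1,
    fun a => j.out (by simpa using w.lam.neg _ a.1)⟩
  have ins : ∀ F, Ax W F → F ∉ WL S → Ins (WL S) o F := fun F a b =>
    ins_of W w.lam w.off rfl a (fun c => b c.1) fun c => b (by simpa using w.lam.neg _ c.1)
  refine wo_res h.inn (fun φ a => w.uniq h a) nrm (fun z z' a a' b b' => ?_)
    (wo_of hW ⟨E, cE⟩ (fun a fin => ?_) ⟨mk cE, ?_⟩)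
  · have k : ∀ z, (∀ x ∈ w.H, z * x * z⁻¹ ∈ w.H) → z ∈ w.stab := fun z a => by
      obtain ⟨q, q1, q2⟩ := j.cl
      refine w.mem_stab j t.curve.ax q1.1 q2 ((ins _ ⟨⟨_, a x x.2⟩, fun e => x1 (Subtype.ext
        (by simpa only [OneMemClass.coe_one, OneMemClass.coe_eq_one, conj_eq_one_iff] using congrArg Subtype.val e)), ?_⟩ (j.mv (w.inv z)).out).all w.lam
        (ax_smul t.curve.ax z) (q1.1.smul _) (by simpa using q2)).2
      have := x2.conj (Z.σ z)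
      rw [Z.res, ← map_mul, ← map_inv, ← map_mul] at this
      exact (Z.res _).symm ▸ this
    exact ⟨Z.idx _ _ (fun c => b ⟨Z.O.inv_mem_iff.1 c, k z a⟩) fun c => b' ⟨c, k z' a'⟩,
      w.stab.mul_mem (w.stab.inv_mem (k z a)) (k z' a')⟩
  · let := actO hW
    obtain ⟨F, f⟩ := a.nonempty
    have c := a.curve f
    have i := ins_of W w.lam w.off rfl c.ax c.pos c.neg
    obtain ⟨s, s1, s2⟩ := c.ax
    have ax : Ax Z.Y F := ⟨_, ne s s1, s2⟩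
    have c' : Z.Y.Curve F := ⟨ax, fun γ d => by
      obtain ⟨q, q1, q2, q3⟩ := exists_inter ax.unit (ax.smul γ).unit d
      exact c.simple ⟨γ, (w.st_iff γ).1 (i.same w.lam (w.off.smul w.lam γ) (i.smul w.lam γ) ax
        (ax.smul γ) q1 q2 q3)⟩ d, fun d => i.out (pW d), fun d => i.out (Or.inr (Or.inr d))⟩
    refine i.out (Or.inl ⟨mk c', ?_, mem_mk _⟩)
    choose l hl using fun b : Cv W => b.nonempty
    refine (fin.biUnion fun b _ => tr_fin Z (l b)).subset ?_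
    rintro _ ⟨⟨ψ, φ, m, e⟩, rfl⟩
    obtain ⟨z, χ, e'⟩ := nrm φ m
    have mχ : χ ∈ Res A w.H := ⟨MulAut.conj z * φ, mul_mem (h.inn ⟨z, rfl⟩) m, e'⟩
    refine mem_biUnion (x := (QuotientGroup.mk ⟨χ, mχ⟩ : OutA _) • a) ⟨_, rfl⟩ ?_
    obtain ⟨F', r⟩ := exists_rl (Y := W) χ s1 s2
    have r' : Rl Z.Y ψ F (Z.σ z⁻¹ • F') := ⟨_, ne s s1, s2, by
      have : IsAx (Z.Y.σ (w.ι (χ s))) F' := r.ax s1 s2
      rw [Z.res] at this ⊢
      have := this.conj (Z.σ z⁻¹)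
      rwa [← map_mul, ← map_inv, ← map_mul, show z⁻¹ * w.ι (χ s) * z⁻¹⁻¹ = ψ (w.ι s) by
        rw [← e, show (w.ι (χ s) : Γ) = _ from (e' s).symm]; group; rfl] at this⟩
    obtain ⟨δ, rfl | rfl⟩ := Cv.exists_smul _ (hl ((QuotientGroup.mk ⟨χ, mχ⟩ : OutA _) • a))
      (show F' ∈ _ from ⟨F, f, r⟩)
    · exact ⟨z⁻¹ * w.ι δ, F, mem_mk _, by rw [map_mul, mul_smul, ← Z.res]; exact r'⟩
    · exact ⟨z⁻¹ * w.ι δ, F, mem_mk _, by
        rw [map_mul, mul_smul, ← Z.res, ← neg_neg (_ • _ • _), ← smul_neg]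
        exact r'.neg_right⟩
  · let := actO hW
    obtain ⟨ψ, ⟨φ, m, e⟩, r, fr⟩ := fre h t
    obtain ⟨χ, e'⟩ := w.res h hR ⟨φ, m, e⟩ e r j j
    have pw : ∀ (n : ℕ) (s : w.H), (ψ ^ n) (w.ι s) = w.ι ((χ ^ n) s) := fun n s => by
      induction n with
      | zero => rfl
      | succ n ih =>
        rw [pow_succ', pow_succ', MulAut.mul_apply, MulAut.mul_apply, ih]
        exact Subtype.ext ((e _).symm.trans (e' _))
    have mχ : χ ∈ Res A w.H := ⟨φ, m, e'⟩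
    refine infinite_of_injective_forall_mem
      (f := fun n : ℕ => (QuotientGroup.mk ⟨χ, mχ⟩ : OutA _) ^ n)
      (Function.Injective.of_lt_imp_ne fun a b lt c => ?_) fun n => Subgroup.pow_mem _
        (Subtype.ext (img_lns ⟨x, x1, x2, by
          have := r.ax (ne x x1) x2
          rwa [show ψ (w.ι x) = w.ι (χ x) by simpa using pw 1 x] at this⟩)) n
    rw [show b = a + (b - a) by omega, pow_add, left_eq_mul, ← QuotientGroup.mk_pow,
      QuotientGroup.eq_one_iff] at c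
    obtain ⟨δ, c⟩ := c
    refine fr G cr (b - a) (by omega) (w.ι δ) ⟨_, ne y y1, y2, ?_⟩
    rw [pw, show (χ ^ (b - a)) y = δ * y * δ⁻¹ from (DFunLike.congr_fun c y).symm]
    exact ax_conj y2 (w.ι δ)

end Pool.Agent.MP_646035_al.NB

/-!
Trace identities, finiteness of pairs with bounded traces, and virtually cyclic groups.
-/

namespace Pool.Agent.MP_646035_al.NB

open Pool.Agent.MP_4a6971_al.H66 MC Set H84 Fu
open H66G hiding good actA actO per_period len_fin trK_fin smul_coe st i_smul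

/-- All balls grow polynomially. -/
def Pg (G : Type*) [Group G] : Prop :=
  ∀ S : Finset G, ∃ C d : ℕ, ∀ n, (ball S n).ncard ≤ C * (n + 1) ^ d

theorem pg_of_cyc {G : Type*} [Group G] (g : G) {R : Set G} (hR : R.Finite)
    (h : ∀ y, ∃ x ∈ R, ∃ m : ℤ, y = x * g ^ m) : Pg G := fun S => by
  classical
  have : ∀ y, ∃ x ∈ R, ∃ m : ℤ, y = g ^ m * x⁻¹ := fun y =>
    let ⟨x, a, m, b⟩ := h y⁻¹; ⟨x, a, -m, by rw [zpow_neg, ← mul_inv_rev, ← b, inv_inv]⟩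
  choose x hx e he using this
  obtain ⟨K, hK⟩ := ((((hR.inv.mul (S.finite_toSet.union S.finite_toSet.inv)).insert 1).image
    fun y => (e y).natAbs)).bddAbove
  have key : ∀ n y, y ∈ ball S n → ∃ r ∈ R, ∃ m : ℤ, m.natAbs ≤ K * (n + 1) ∧ y = g ^ m * r⁻¹ := by
    refine ball_induction _ ⟨_, hx 1, _, by simpa only [zero_add, mul_one] using hK ⟨1, Or.inl rfl, rfl⟩, he 1⟩ ?_ ?_
    · rintro n y ⟨r, a, m, b, c⟩
      exact ⟨r, a, m, b.trans (Nat.mul_le_mul_left _ (by omega)), c⟩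
    · rintro n y s ⟨r, a, m, b, rfl⟩ c
      have : (e (r⁻¹ * s)).natAbs ≤ K := hK ⟨_, Or.inr ⟨r⁻¹, by simpa using a, s, c, rfl⟩, rfl⟩
      refine ⟨_, hx (r⁻¹ * s), m + e (r⁻¹ * s), ?_, by rw [zpow_add, mul_assoc, mul_assoc, ← he]⟩
      rw [mul_add K, mul_one]
      omega
  refine ⟨R.ncard * (2 * K + 1), 1, fun n => ?_⟩
  refine (ncard_le_ncard (t := (fun p : G × ℤ => g ^ p.2 * p.1⁻¹) ''
    (R ×ˢ Icc (-(K * (n + 1) : ℕ) : ℤ) (K * (n + 1) : ℕ))) (fun y a => ?_)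
    ((hR.prod (finite_Icc _ _)).image _)).trans ((ncard_image_le (hR.prod (finite_Icc _ _))).trans ?_)
  · obtain ⟨r, a', m, b, rfl⟩ := key n y a
    exact ⟨(r, m), ⟨a', by constructor <;> simp only <;> omega⟩, rfl⟩
  · rw [ncard_prod, ← Finset.coe_Icc, ncard_coe_finset, Int.card_Icc, mul_assoc, pow_one]
    refine Nat.mul_le_mul_left _ ?_
    rw [add_mul, mul_assoc]
    omega

lemma tr_mat (u : Isom) {v : Isom} (hv : Hyp v) : ∃ s c p p' e m : ℝ, (e = 1 ∨ e = -1) ∧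
    trI (u * u) = (s ^ 2 - 2 * e) ^ 2 - 1 ∧ trI v = c ^ 2 - 1 ∧
    trI (u * v * (u * v)) = (p ^ 2 - 2 * e) ^ 2 - 1 ∧
    trI (u * v⁻¹ * (u * v⁻¹)) = (p' ^ 2 - 2 * e) ^ 2 - 1 ∧ trI (u * v * u⁻¹ * v) = m ^ 2 - 1 ∧
    trI (u * u * v) = (s * p - e * c) ^ 2 - 1 ∧ p + p' = s * c ∧ p * p' = s ^ 2 - 2 * e + m := by
  obtain ⟨a, b, c, d, h1, h2⟩ := isom_act u
  obtain ⟨x, y, z, w, k1, -, k2⟩ := hyp_mat hv
  have mul : ∀ {f g : Isom} {a b c d x y z w : ℝ}, (∀ X, f • X = act a b c d X) →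
      (∀ X, g • X = act x y z w X) → ∀ X, (f * g) • X =
        act (x * a + y * c) (x * b + y * d) (z * a + w * c) (z * b + w * d) X :=
    fun p q X => by rw [mul_smul, p, q, act_act]
  have inv : ∀ {f : Isom} {a b c d : ℝ}, (a * d - b * c) ^ 2 = 1 → (∀ X, f • X = act a b c d X) →
      ∀ X, f⁻¹ • X = act d (-b) (-c) a X := fun {f a b c d} p q X => by
    rw [inv_smul_eq_iff, q, act_act, show d * b + -b * d = 0 by ring,
      show -c * a + a * c = 0 by ring, act_apply]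
    ext <;> simp only
    · linear_combination -X.1 * p
    · linear_combination -X.2.1 * p
    · linear_combination -X.2.2 * p
  have tr : ∀ {f : Isom} {a b c d T : ℝ}, (∀ X, f • X = act a b c d X) → a + d = T →
      a * d - b * c = 1 → trI f = T ^ 2 - 1 := fun p q r => by rw [trI_act p, q, r]
  have h3 := inv h1 h2
  have k3 := inv (by rw [k1, one_pow]) k2
  refine ⟨a + d, x + w, x * a + y * c + (z * b + w * d), w * a - y * c + (x * d - z * b),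
    a * d - b * c, (x * a + y * c + (z * b + w * d)) * (w * a - y * c + (x * d - z * b)) -
      (a + d) ^ 2 + 2 * (a * d - b * c), sq_eq_one_iff.1 h1,
    tr (mul h2 h2) (by ring) (by linear_combination h1), tr k2 rfl k1,
    tr (mul (mul h2 k2) (mul h2 k2)) (by linear_combination -2 * (a * d - b * c) * k1) ?_,
    tr (mul (mul h2 k3) (mul h2 k3)) (by linear_combination -2 * (a * d - b * c) * k1) ?_,
    tr (mul (mul (mul h2 k2) h3) k2)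
      (by linear_combination (2 * (a * d - b * c) - (a + d) ^ 2) * k1) ?_,
    tr (mul (mul h2 h2) k2) (by ring) (by linear_combination (x * w - y * z) * h1 + k1),
    by ring, by ring⟩
  all_goals linear_combination (x * w - y * z) ^ 2 * h1 + (x * w - y * z + 1) * k1

lemma le_of_sq_le_sq' {a b : ℝ} (h : a ^ 2 ≤ b ^ 2) (hb : 0 ≤ b) : a ≤ b :=
  (abs_le_of_sq_le_sq' h hb).2

lemma lt_sq {s e : ℝ} (he : e = 1 ∨ e = -1) (h : 3 < (s ^ 2 - 2 * e) ^ 2 - 1) : 2 < s ^ 2 - 2 * e := by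
  by_contra! c
  rcases he with rfl | rfl <;> nlinarith only [h, c]

lemma le_sq {s e ε : ℝ} (he : e = 1 ∨ e = -1) (h0 : 0 < ε) (h1 : ε ≤ 1)
    (h : 3 + 5 * ε ≤ (s ^ 2 - 2 * e) ^ 2 - 1) : ε ≤ s ^ 2 := by
  have := lt_sq he (s := s) (by linarith)
  by_contra! c
  rcases he with rfl | rfl <;> nlinarith only [h1, c, this, h]

lemma bdA {ε K : ℝ} (h0 : 0 < ε) (h1 : ε ≤ 1) {u v : Isom} (hv : Hyp v)
    (a : 3 + 5 * ε ≤ trI (u * v * (u * v))) (b : trI v ≤ K) (c : trI (u * u * v) ≤ K) :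
    trI (u * u) ≤ (4 * (K + 1) / ε + 2) ^ 2 := by
  obtain ⟨s, c', p, -, e, -, he, e1, e2, e3, -, -, e4, -⟩ := tr_mat u hv
  rw [e1]
  rw [e3] at a
  have := le_sq he h0 h1 a
  have d : s ^ 2 ≤ 4 * (K + 1) / ε := by
    rw [le_div_iff₀ h0]
    refine (mul_le_mul_of_nonneg_left this (sq_nonneg s)).trans ?_
    rcases he with rfl | rfl <;> linarith only [sq_nonneg (s * p - 2 * c'), sq_nonneg (s * p + 2 * c'), b, c, e2, e4]
  rcases he with rfl | rfl <;> nlinarith only [d]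

lemma bd_real {ε K σ a b τ : ℝ} (h0 : 0 < ε) (s0 : 0 ≤ σ) (s1 : ε ≤ σ ^ 2) (p1 : σ ≤ a) (p2 : σ ≤ b)
    (q1 : a * b ≤ σ ^ 2 + K) (q2 : σ * τ ≤ a + b) (t1 : 2 + ε ≤ τ) :
    σ ^ 2 ≤ K / ε ∧ τ ≤ 2 + K / ε ∧ σ * a ≤ K / ε + K := by
  have q3 : σ ^ 2 * (τ - 2) ≤ K := by
    linarith only [mul_nonneg (sub_nonneg.2 p1) (sub_nonneg.2 p2), mul_le_mul_of_nonneg_left q2 s0, q1]
  have r1 : σ ^ 2 ≤ K / ε := by rw [le_div_iff₀ h0]; nlinarith only [t1, q3]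
  exact ⟨r1, by rw [← sub_le_iff_le_add', le_div_iff₀ h0]; nlinarith only [h0, s1, t1, q3], by nlinarith only [s0, p1, p2, q1, r1]⟩

lemma bdB {ε K : ℝ} (h0 : 0 < ε) (h1 : ε ≤ 1) {u v : Isom} (hv : Hyp v) (a : 3 + 5 * ε ≤ trI (u * u))
    (b : 3 + 5 * ε ≤ trI v) (c : trI (u * u) ≤ trI (u * v * (u * v)))
    (c' : trI (u * u) ≤ trI (u * v⁻¹ * (u * v⁻¹))) (d : trI (u * v * u⁻¹ * v) ≤ K) :
    trI (u * u) ≤ (2 * ((K + 4) / ε) + K + 6) ^ 2 ∧ trI v ≤ (2 * ((K + 4) / ε) + K + 6) ^ 2 ∧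
      trI (u * u * v) ≤ (2 * ((K + 4) / ε) + K + 6) ^ 2 := by
  obtain ⟨s, t, p, p', e, m, he, e1, e2, e3, e4, e5, e6, e7, e8⟩ := tr_mat u hv
  rw [e1, e3] at c
  rw [e1, e4] at c'
  rw [e1] at a
  rw [e2] at b
  rw [e5] at d
  rw [e1, e2, e6]
  clear e1 e2 e3 e4 e5 e6
  have s2 := lt_sq he (s := s) (by linarith)
  have mono : ∀ p : ℝ, (s ^ 2 - 2 * e) ^ 2 - 1 ≤ (p ^ 2 - 2 * e) ^ 2 - 1 → |s| ≤ |p| := fun p c => by
    have := lt_sq he (s := p) (by linarith only [h0, a, c])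
    exact sq_le_sq.1 (by
      linarith [le_of_sq_le_sq' (a := s ^ 2 - 2 * e) (b := p ^ 2 - 2 * e) (by linarith) (by linarith)])
  have m1 : |m| ≤ K + 2 := by linarith [sq_abs m, sq_nonneg (|m| - 1), sq_nonneg |m|, sub_sq |m| 1]
  have e0 : |e| = 1 := by rcases he with rfl | rfl <;> simp
  obtain ⟨r1, r2, r3⟩ := bd_real (K := K + 4) (τ := |t|) h0 (abs_nonneg s)
    (by rw [sq_abs]; exact le_sq he h0 h1 a) (mono p c) (mono p' c') (by
      rw [← abs_mul, e8, abs_le, sq_abs]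
      constructor <;> linarith only [abs_le.1 m1, abs_le.1 e0.le, s2])
    (by rw [← abs_mul, ← e7]; exact abs_add_le _ _)
    (le_of_sq_le_sq' (by rw [sq_abs]; nlinarith only [h0, h1, b]) (abs_nonneg t))
  rw [sq_abs] at r1
  generalize (K + 4) / ε = D at *
  have f : ∀ x : ℝ, |x| ≤ 2 * D + K + 6 → x ^ 2 - 1 ≤ (2 * D + K + 6) ^ 2 := fun x h => by
    linarith only [sq_le_sq' (abs_le.1 h).1 (abs_le.1 h).2]
  refine ⟨f _ ?_, f _ (by linarith [abs_nonneg m, sq_nonneg s]), f _ ((abs_sub _ _).trans ?_)⟩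
  · rw [abs_of_pos (by linarith)]
    linarith [abs_le.1 e0.le, abs_nonneg m, sq_nonneg s]
  · rw [abs_mul, abs_mul, e0]
    linarith

variable {Γ : Type} [Group Γ] {A : Subgroup (MulAut Γ)}

lemma tr_fin' (Y : Fuchs Γ) (L : ℝ) : {r | r ≤ L ∧ ∃ t, trI (Y.σ t) = r}.Finite := by
  obtain ⟨X, x1, x2⟩ := Y.finite_conj L
  refine (x1.image fun t => trI (Y.σ t)).subset ?_
  rintro _ ⟨a, t, rfl⟩
  obtain ⟨δ, b⟩ := x2 t a
  exact ⟨_, b, by simpa only [map_mul, map_inv, inv_inv] using trI_conj (Y.σ δ)⁻¹ (Y.σ t)⟩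

lemma min_tr (Y : Fuchs Γ) {ι : Type} (i : ι) (f : ι → Γ) :
    ∃ n, ∀ m, trI (Y.σ (f n)) ≤ trI (Y.σ (f m)) := by
  obtain ⟨_, ⟨a, n, rfl⟩, b⟩ := exists_min_image {r | r ≤ trI (Y.σ (f i)) ∧ ∃ n, trI (Y.σ (f n)) = r}
    id ((tr_fin' Y _).subset fun _ ⟨a, n, b⟩ => ⟨a, _, b⟩) ⟨_, le_rfl, i, rfl⟩
  exact ⟨n, fun m => (le_total _ _).elim (fun c => b _ ⟨c, m, rfl⟩) a.trans⟩

lemma sys (Y : Fuchs Γ) : ∃ ε, 0 < ε ∧ ε ≤ 1 ∧ ∀ t, t ≠ 1 → 3 + 5 * ε ≤ trI (Y.σ t) := by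
  obtain ⟨α, -, -, -, a, -⟩ := Y.nonel
  obtain ⟨n, h⟩ := min_tr Y (ι := {t // t ≠ 1}) ⟨α, a⟩ Subtype.val
  have := three_lt (Y.hyp _ n.2)
  exact ⟨min 1 ((trI (Y.σ n) - 3) / 5), lt_min one_pos (by linarith), min_le_left _ _,
    fun t b => by linarith only [h ⟨t, b⟩, min_le_right 1 ((trI (Y.σ n) - 3) / 5), b]⟩

/-- Pairs with bounded traces and different axes are finite up to conjugation. -/
lemma pair_fin (Y : Fuchs Γ) (L : ℝ) : ∃ S : Set (Γ × Γ), S.Finite ∧ ∀ x y, x ≠ 1 → y ≠ 1 →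
    trI (Y.σ x) ≤ L → trI (Y.σ y) ≤ L → trI (Y.σ (x * y)) ≤ L →
    (∀ E, IsAx (Y.σ x) E → ¬ IsAx (Y.σ y) E) → ∃ δ, (δ * x * δ⁻¹, δ * y * δ⁻¹) ∈ S := by
  obtain ⟨X, x1, x2⟩ := Y.finite_conj L
  obtain ⟨ε, e0, -, lo⟩ := sys Y
  obtain ⟨B, hB⟩ : ∃ B, ∀ x y E F, x ≠ 1 → y ≠ 1 → trI (Y.σ x) ≤ L → trI (Y.σ y) ≤ L →
      trI (Y.σ (x * y)) ≤ L → IsAx (Y.σ x) E → IsAx (Y.σ y) F → Bf E F ^ 2 ≤ B :=
    ⟨(8 * (L + 1) + 2 * ((L + 1) * (L + 1))) / (ε * ε), fun x y E F nx ny u1 u2 u3 a b => by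
      have h := bf_le (Y.hyp _ nx) (Y.hyp _ ny) a b
      rw [← map_mul] at h
      have v1 := lo _ nx
      have v2 := lo _ ny
      have w3 : (trI (Y.σ x) + 1) * (trI (Y.σ y) + 1) ≤ (L + 1) * (L + 1) := by
        gcongr <;> linarith only [e0, v2, u1, v1]
      have w4 : ε * ε ≤ (trI (Y.σ x) - 3) * (trI (Y.σ y) - 3) := by gcongr <;> linarith only [e0, v1, v2]
      rw [le_div_iff₀ (mul_pos e0 e0)]
      exact (mul_le_mul_of_nonneg_left w4 (sq_nonneg _)).trans (by linarith)⟩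
  have h1 : ∀ x', ∃ S : Set Γ, S.Finite ∧ (x' ≠ 1 → ∀ y' E F, y' ≠ 1 → IsAx (Y.σ x') E →
      IsAx (Y.σ y') F → trI (Y.σ y') ≤ L → Bf E F ^ 2 ≤ B → Bf E F ^ 2 ≠ 1 →
      ∃ k : ℤ, x' ^ k * y' * (x' ^ k)⁻¹ ∈ S) := fun x' => by
    by_cases n1 : x' = 1
    · exact ⟨∅, finite_empty, fun h => (h n1).elim⟩
    obtain ⟨G, hG⟩ := (Y.hyp x' n1).exists_ax
    obtain ⟨R, hR⟩ := norm_line' (Y.hyp x' n1) hG B
    refine ⟨_, short_fin Y L R, fun _ y' E F n2 a b c d e => ?_⟩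
    obtain ⟨k, hk⟩ := hR F b.1
      (by rcases (Y.hyp x' n1).ax_unique hG a with rfl | rfl <;> simpa using d)
      (by rcases (Y.hyp x' n1).ax_unique hG a with rfl | rfl <;> simpa only [ne_eq, sq_eq_one_iff, not_or, Bf_neg_left, even_two, Even.neg_pow] using e)
    exact ⟨k, by simpa only [ne_eq, conj_eq_one_iff] using n2, by rwa [map_mul, map_mul, map_inv, trI_conj], _, ax_conj b _,
      by rwa [map_zpow]⟩
  choose S s1 s2 using h1
  refine ⟨_, x1.prod (x1.biUnion fun t _ => s1 t), fun x y nx ny u1 u2 u3 ne => ?_⟩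
  obtain ⟨δ, hδ⟩ := x2 x u1
  obtain ⟨E, hE⟩ := (Y.hyp _ nx).exists_ax
  obtain ⟨F, hF⟩ := (Y.hyp _ ny).exists_ax
  nth_rewrite 2 [← inv_inv δ] at hδ
  obtain ⟨k, hk⟩ := s2 _ (mt conj_eq_one_iff.1 nx) _ _ _ (mt conj_eq_one_iff.1 ny) (ax_conj hE δ⁻¹)
    (ax_conj hF δ⁻¹) (by rwa [map_mul, map_mul, map_inv Y.σ δ⁻¹, trI_conj])
    (by simpa only [map_inv, Bf_isom] using hB x y E F nx ny u1 u2 u3 hE hF) (by
      rw [Bf_isom]
      intro c
      rcases not_tangent nx ny hE hF c with rfl | rfl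
      exacts [ne _ hE hF, ne _ hE (by simpa using hF.neg)])
  refine ⟨(δ⁻¹ * x * δ⁻¹⁻¹) ^ k * δ⁻¹, ?_, mem_biUnion hδ (by simpa only [inv_inv, mul_assoc, mul_inv_rev] using hk)⟩
  have := (Commute.self_zpow (δ⁻¹ * x * δ⁻¹⁻¹) k).eq
  generalize (δ⁻¹ * x * δ⁻¹⁻¹) ^ k = w at this
  rwa [show w * δ⁻¹ * x * (w * δ⁻¹)⁻¹ = w * (δ⁻¹ * x * δ⁻¹⁻¹) * w⁻¹ by group, ← this,
    mul_inv_cancel_right]

end Pool.Agent.MP_646035_al.NB

/-!
The projective plane with two holes and the Klein bottle with one hole: the group of outer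
automorphisms is virtually cyclic.
-/

namespace Pool.Agent.MP_646035_al.NB

open Pool.Agent.MP_4a6971_al.H66 MC Set H84 Fu
open H66G hiding good actA actO per_period len_fin trK_fin smul_coe st i_smul

variable {Γ : Type} [Group Γ] {A : Subgroup (MulAut Γ)}

lemma peri_tr0 {Y : Fuchs Γ} (hA : Mod0 Y A) {z : Γ} {N : V} (hN : N ∈ Y.per)
    (z2 : Y.σ z • N = N) : ∃ L, ∀ φ ∈ A, trI (Y.σ (φ z)) ≤ L := by
  obtain ⟨T, t1, t2⟩ := Y.per_fin
  have gen : ∀ M, ∃ c, M ∈ Y.per → c ≠ 1 ∧ IsAx (Y.σ c) M ∧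
      ∀ g, Y.σ g • M = M → ∃ k : ℤ, g = c ^ k := fun M => by
    by_cases h : M ∈ Y.per
    · have ax : Ax Y M := Y.per_ax M h
      obtain ⟨γ, l⟩ := ax.pl
      obtain ⟨c, τ, p⟩ := ax.exists_per l
      exact ⟨c, fun _ => ⟨p.ne, p.isAx, fun g e => p.gen g (Or.inl e)⟩⟩
    · exact ⟨1, fun e => (h e).elim⟩
  choose c hc using gen
  obtain ⟨c1, c2, c3⟩ := hc N hN
  obtain ⟨k, rfl⟩ := c3 z z2
  obtain ⟨L, hL⟩ := ((t1.image fun M => trI (Y.σ (c M ^ k))).union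
    (t1.image fun M => trI (Y.σ (c M ^ (-k))))).bddAbove
  refine ⟨L, fun φ hφ => ?_⟩
  obtain ⟨F, r, hF⟩ : ∃ F, Rl Y φ N F ∧ F ∈ Y.per := by
    obtain ⟨F, r⟩ := exists_rl φ c1 c2
    rcases rl_per r hA hφ hN with p | p
    exacts [⟨F, r, p⟩, ⟨-F, r.neg_right, p⟩]
  obtain ⟨γ, hγ⟩ := t2 F hF
  obtain ⟨y, y1, y2, -⟩ := r.symm
  have s := r.trans (Rl.conj y1 y2 γ)
  obtain ⟨d1, d2, d3⟩ := hc _ (Y.per_smul γ F hF)
  obtain ⟨m, hm⟩ := d3 _ (s.ax c1 c2).2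
  obtain ⟨n, hn⟩ := c3 _ (s.symm.ax d1 d2).2
  have e : n * m - 1 = 0 := by_contra fun h => zpow_ne Y c1 h (by
    rw [zpow_sub, zpow_mul, ← hn, ← map_zpow, ← hm]
    simp only [mul_inv_rev, MulAut.mul_apply, MulAut.conj_apply, mul_assoc, MulAut.inv_apply, MulAut.conj_symm_apply, inv_mul_cancel_left, inv_mul_cancel, mul_one, MulEquiv.symm_apply_apply, zpow_ofNat, pow_one, mul_inv_cancel])
  have e' : trI (Y.σ (φ (c N ^ k))) = trI (Y.σ (c (Y.σ γ • F) ^ (m * k))) := by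
    rw [zpow_mul, ← hm, ← map_zpow (MulAut.conj γ * φ), ← trI_conj (Y.σ γ)]
    simp
  rw [e']
  rcases Int.eq_one_or_neg_one_of_mul_eq_one' (by linarith only [e] : n * m = 1) with h | h <;> rw [h.2]
  · exact hL (Or.inl ⟨_, hγ, by simp only [map_zpow, one_mul]⟩)
  · exact hL (Or.inr ⟨_, hγ, by simp only [zpow_neg, map_inv, map_zpow, Int.reduceNeg, neg_mul, one_mul]⟩)

variable {Z : Cap Γ} {k c z : Γ} {φ : MulAut Γ} {E : V}

lemma peri_tr (h : Z.Mod A) (o : z ∈ Z.O) (hz : Z.Peri z) : ∃ L, ∀ φ ∈ A, trI (Z.σ (φ z)) ≤ L := by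
  obtain ⟨-, N, a, b⟩ := hz
  obtain ⟨L, hL⟩ := peri_tr0 (mod0 h) (z := ⟨z, o⟩) a (by rwa [Z.res])
  refine ⟨L, fun φ m => ?_⟩
  obtain ⟨ψ, m', e⟩ := res_O h m
  exact e ⟨z, o⟩ ▸ Z.res _ ▸ hL ψ m'

lemma not_mem (h : Z.Mod A) (hφ : φ ∈ A) (hk : k ∉ Z.O) : φ k ∉ Z.O := fun c =>
  hk (by simpa using h.ori _ (inv_mem hφ) _ c)

lemma sq_ne (hk : k ∉ Z.O) : (⟨k * k, Z.idx _ _ hk hk⟩ : Z.O) ≠ 1 := fun a =>
  Z.sq k hk (congrArg Subtype.val a)

/-- The group does not preserve a line. -/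
lemma gen_fix (g : Subgroup.closure {k, c} = ⊤) (hk : k ∉ Z.O) (a : IsAx (Z.σ (k * k)) E)
    (b : Z.σ c • E = E) : False := by
  have a' : Z.σ k • E = E ∨ Z.σ k • E = -E := (Z.Y.hyp _ (sq_ne hk)).ax_unique (by rwa [Z.res]) (by
    have := a.conj (Z.σ k)
    rwa [← map_mul, ← map_inv, ← map_mul, mul_assoc k, mul_inv_cancel_right, ← Z.res ⟨_, _⟩] at this)
  have all : ∀ γ, Z.σ γ • E = E ∨ Z.σ γ • E = -E := fun γ => by
    induction g.ge (Subgroup.mem_top γ) using Subgroup.closure_induction with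
    | mem x hx =>
      rcases hx with rfl | rfl
      exacts [a', Or.inl b]
    | one => simp only [map_one, one_smul, true_or]
    | mul x y _ _ p q => rcases p with p | p <;> rcases q with q | q <;> simp [mul_smul, p, q]
    | inv x _ p =>
      exact p.imp (fun p => by rw [map_inv, inv_smul_eq_iff, p]) fun p => by
        rw [map_inv, inv_smul_eq_iff, smul_neg, p, neg_neg]
  have g3 : ∀ γ : Z.O, Z.Y.σ γ • E = E := fun γ => fix_of a.1 (Z.res γ ▸ all γ)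
  obtain ⟨α, β, F, F', n1, n2, hE, hF, d⟩ := Z.Y.nonel
  rcases (Z.Y.hyp α n1).ax_unique ⟨a.1, g3 α⟩ hE with rfl | rfl <;>
    rcases (Z.Y.hyp β n2).ax_unique ⟨a.1, g3 β⟩ hF with rfl | rfl <;>
    exact not_cr_self a.1 (by simpa using d)

lemma gen_ne (g : Subgroup.closure {k, c} = ⊤) (hk : k ∉ Z.O) : c ≠ 1 := by
  rintro rfl
  obtain ⟨E, a⟩ := (Z.Y.hyp _ (sq_ne hk)).exists_ax
  exact gen_fix g hk (Z.res _ ▸ a) (by simp only [map_one, one_smul])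

lemma gen_map (g : Subgroup.closure {k, c} = ⊤) (φ : MulAut Γ) (n : ℤ) :
    Subgroup.closure {φ (k * c ^ n), φ c} = ⊤ := by
  refine eq_top_iff.2 fun x _ => ?_
  have a : φ (k * c ^ n) ∈ Subgroup.closure {φ (k * c ^ n), φ c} :=
    Subgroup.subset_closure (Or.inl rfl)
  have b : φ c ∈ Subgroup.closure {φ (k * c ^ n), φ c} := Subgroup.subset_closure (Or.inr rfl)
  have := (Subgroup.closure_le (k := {k, c})
    ((Subgroup.closure {φ (k * c ^ n), φ c}).comap φ.toMonoidHom)).2 (by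
      rintro _ (rfl | rfl)
      · simpa only [MulEquiv.toMonoidHom_eq_coe, map_mul, map_zpow, Subgroup.coe_comap, MonoidHom.coe_coe, mem_preimage, SetLike.mem_coe, mul_inv_cancel_right] using mul_mem a (inv_mem (zpow_mem b n))
      · exact b) (g.ge (Subgroup.mem_top (φ⁻¹ x)))
  simpa only [map_mul, map_zpow, MulEquiv.toMonoidHom_eq_coe, MulAut.inv_apply, Subgroup.mem_comap, MonoidHom.coe_coe, MulEquiv.apply_symm_apply] using this

lemma pg_of_bd (h : Z.Mod A) (g : Subgroup.closure {k, c} = ⊤) (hk : k ∉ Z.O) (hc : c ∈ Z.O) {L : ℝ}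
    (bd : ∀ φ ∈ A, ∃ n : ℤ, trI (Z.σ (φ (k * c ^ n)) * Z.σ (φ (k * c ^ n))) ≤ L ∧
      trI (Z.σ (φ c)) ≤ L ∧ trI (Z.σ (φ (k * c ^ n)) * Z.σ (φ (k * c ^ n)) * Z.σ (φ c)) ≤ L) :
    Pg (OutA A) := by
  have ext : ∀ φ ψ : MulAut Γ, φ k = ψ k → φ c = ψ c → φ = ψ := fun φ ψ a b =>
    MulEquiv.toMonoidHom_injective (MonoidHom.eq_of_eqOn_dense g (by
      rintro _ (rfl | rfl)
      exacts [a, b]))
  have nk : ∀ φ ∈ A, ∀ n : ℤ, φ (k * c ^ n) ∉ Z.O := fun φ m n => not_mem h m fun a =>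
    hk ((Z.O.mul_mem_cancel_right (zpow_mem hc n)).1 a)
  let H : AddSubgroup ℤ :=
    { carrier := {m | ∃ τ : A, τ.1 c = c ∧ τ.1 k = k * c ^ m}
      zero_mem' := ⟨1, rfl, by simp⟩
      add_mem' := fun ⟨τ, a, b⟩ ⟨τ', a', b'⟩ => ⟨τ * τ', by simp [a, a'],
        by simp [a, b, b', zpow_add, mul_assoc]⟩
      neg_mem' := fun ⟨τ, a, b⟩ => ⟨τ⁻¹, τ.1.injective (by simp [a]),
        τ.1.injective (by simp only [InvMemClass.coe_inv, MulAut.inv_apply, MulEquiv.apply_symm_apply, zpow_neg, map_mul, b, map_inv, map_zpow, a, mul_inv_cancel_right])⟩ }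
  obtain ⟨d, hd⟩ := Int.subgroup_cyclic H
  obtain ⟨τ, t1, t2⟩ : d ∈ H := hd ▸ AddSubgroup.subset_closure rfl
  have pw : ∀ j : ℤ, (τ ^ j).1 c = c ∧ (τ ^ j).1 k = k * c ^ (j * d) := fun j => by
    induction j using Int.induction_on with
    | zero => simp
    | succ n ih =>
      rw [add_comm, zpow_one_add]
      exact ⟨by simpa only [zpow_natCast, Subgroup.coe_mul, SubmonoidClass.coe_pow, MulAut.mul_apply, t1] using congrArg τ.1 ih.1, by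
        rw [add_mul, zpow_add, one_mul, ← mul_assoc]
        simpa only [zpow_natCast, Subgroup.coe_mul, SubmonoidClass.coe_pow, MulAut.mul_apply, map_mul, t2, map_zpow, t1] using congrArg τ.1 ih.2⟩
    | pred n ih =>
      rw [sub_eq_neg_add, zpow_add, zpow_neg_one]
      exact ⟨τ.1.injective (by simpa only [zpow_neg, zpow_natCast, Subgroup.coe_mul, InvMemClass.coe_inv, SubmonoidClass.coe_pow, MulAut.mul_apply, MulAut.inv_apply, MulEquiv.apply_symm_apply, t1] using ih.1), τ.1.injective (by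
        rw [add_mul, zpow_add]
        simpa only [zpow_neg, zpow_natCast, Subgroup.coe_mul, InvMemClass.coe_inv, SubmonoidClass.coe_pow, MulAut.mul_apply, MulAut.inv_apply, MulEquiv.apply_symm_apply, Int.reduceNeg, neg_mul, one_mul, map_mul, t2, map_inv, map_zpow, t1, mul_assoc, mul_inv_cancel_left] using ih.2)⟩
  obtain ⟨S, s1, s2⟩ := pair_fin Z.Y L
  have : ∀ p : Z.O × Z.O, ∃ (ψ : A) (n : ℤ), ∀ (φ : A) (m : ℤ),
      φ.1 (k * c ^ m) * φ.1 (k * c ^ m) = p.1 → φ.1 c = p.2 →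
        φ.1 (k * c ^ m) = ψ.1 (k * c ^ n) ∧ φ.1 c = ψ.1 c := fun p => by
    by_cases a : ∃ (φ : A) (m : ℤ), φ.1 (k * c ^ m) * φ.1 (k * c ^ m) = p.1 ∧ φ.1 c = p.2
    · obtain ⟨ψ, n, a, b⟩ := a
      exact ⟨ψ, n, fun φ m a' b' => ⟨root (nk _ φ.2 _) (nk _ ψ.2 _) (a'.trans a.symm),
        b'.trans b.symm⟩⟩
    · exact ⟨1, 0, fun φ m a' b' => (a ⟨φ, m, a', b'⟩).elim⟩
  choose ψ n hψ using this
  refine pg_of_cyc (QuotientGroup.mk τ) (s1.image fun p => QuotientGroup.mk (ψ p)) fun y => ?_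
  obtain ⟨φ, rfl⟩ := QuotientGroup.mk_surjective y
  obtain ⟨m, b1, b2, b3⟩ := bd φ φ.2
  have g' := gen_map g φ m
  have k' := nk _ φ.2 m
  obtain ⟨δ, hδ⟩ := s2 _ ⟨_, h.ori _ φ.2 c hc⟩ (sq_ne k')
    (fun a => gen_ne g' k' (congrArg Subtype.val a)) (by rwa [Z.res, map_mul]) (by rwa [Z.res])
    (by rwa [map_mul, Z.res, Z.res, map_mul]) fun E a b =>
      gen_fix g' k' (Z.res _ ▸ a) (by simpa [Z.res] using b.2)
  have mδ : MulAut.conj δ.1 ∈ A := h.inn ⟨_, rfl⟩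
  obtain ⟨e1, e2⟩ := hψ (_, _) (⟨_, mδ⟩ * φ) m
    (show _ = (δ * ⟨_, Z.idx _ _ k' k'⟩ * δ⁻¹ : Z.O).1 by simp [mul_assoc])
    (show _ = (δ * ⟨_, h.ori _ φ.2 c hc⟩ * δ⁻¹ : Z.O).1 from rfl)
  refine ⟨_, ⟨_, hδ, rfl⟩, ?_⟩
  beta_reduce
  generalize ψ _ = χ at e1 e2 ⊢
  generalize n _ = l at e1
  have f1 : (χ⁻¹ * (⟨_, mδ⟩ * φ)).1 c = c := χ.1.injective (by simpa only [Subgroup.coe_mul, InvMemClass.coe_inv, MulAut.mul_apply, MulAut.conj_apply, MulAut.inv_apply, map_mul, map_inv, MulEquiv.apply_symm_apply] using e2)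
  have f2 : (χ⁻¹ * (⟨_, mδ⟩ * φ)).1 k = k * c ^ (l - m) := χ.1.injective (by
    rw [map_mul, map_zpow, e2, ← eq_mul_inv_iff_mul_eq] at e1
    rw [zpow_sub, ← mul_assoc k, map_mul χ.1, map_inv, map_zpow, ← e1]
    simp only [Subgroup.coe_mul, InvMemClass.coe_inv, MulAut.mul_apply, MulAut.conj_apply, MulAut.inv_apply, map_mul, map_inv, MulEquiv.apply_symm_apply])
  obtain ⟨j, hj⟩ := AddSubgroup.mem_closure_singleton.1 (hd.le (⟨_, f1, f2⟩ : l - m ∈ H))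
  refine ⟨j, ?_⟩
  rw [← QuotientGroup.mk_zpow, ← Subtype.ext (ext _ _ (f2.trans (by rw [← hj]; exact (pw j).2.symm))
    (f1.trans (pw j).1.symm)), ← QuotientGroup.mk_mul, mul_inv_cancel_left, QuotientGroup.mk_mul,
    (QuotientGroup.eq_one_iff (⟨_, mδ⟩ : A)).2 (by exact ⟨δ, rfl⟩), one_mul]

theorem pg_low (h : Z.Mod A) (l : Z.LowA ∨ Z.LowB) : Pg (OutA A) := by
  obtain ⟨ε, e0, e1, lo⟩ := sys Z.Y
  have l1 : ∀ g, g ∉ Z.O → 3 + 5 * ε ≤ trI (Z.σ g * Z.σ g) := fun g a => by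
    simpa only [Z.res, map_mul] using lo _ (sq_ne a)
  have key : ∀ k c, Subgroup.closure {k, c} = ⊤ → k ∉ Z.O → c ∈ Z.O → ∀ φ ∈ A,
      Hyp (Z.σ (φ c)) ∧ 3 + 5 * ε ≤ trI (Z.σ (φ c)) ∧ ∀ n : ℤ, φ (k * c ^ n) ∉ Z.O :=
    fun k c g a b φ m => by
      have n : (⟨_, h.ori φ m c b⟩ : Z.O) ≠ 1 := fun e => gen_ne g a
        (by simpa using congrArg Subtype.val e)
      exact ⟨by simpa [Z.res] using Z.Y.hyp _ n, by simpa [Z.res] using lo _ n, fun n => not_mem h m fun d =>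
        a ((Z.O.mul_mem_cancel_right (zpow_mem b n)).1 d)⟩
  rcases l with ⟨k, c, a, b, g, p, q⟩ | ⟨k, l, a, b, g, p⟩
  · obtain ⟨L1, h1⟩ := peri_tr h b p
    obtain ⟨L2, h2⟩ := peri_tr h (mul_mem (Z.idx _ _ a a) b) q
    refine pg_of_bd h g a b (L := max ((4 * (max L1 L2 + 1) / ε + 2) ^ 2) (max L1 L2))
      fun φ m => ⟨0, ?_⟩
    obtain ⟨k1, -, k2⟩ := key k c g a b φ m
    have u1 := (h1 φ m).trans (le_max_left L1 L2)
    have u2 := (h2 φ m).trans (le_max_right L1 L2)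
    simp only [map_mul] at u2
    rw [zpow_zero, mul_one]
    exact ⟨le_max_of_le_left (bdA e0 e1 k1 (by simpa using l1 _ (k2 1)) u1 u2),
      le_max_of_le_right u1, le_max_of_le_right u2⟩
  · have b' := Z.idx _ _ a b
    obtain ⟨L, h1⟩ := peri_tr h (mul_mem (Z.idx _ _ a a) (Z.idx _ _ b b)) p
    have g' : Subgroup.closure {k, k * l} = ⊤ := eq_top_iff.2 (g.ge.trans
      ((Subgroup.closure_le _).2 (by
        have s : k ∈ Subgroup.closure {k, k * l} := Subgroup.subset_closure (Or.inl rfl)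
        rintro _ (rfl | rfl)
        exacts [s, (mul_mem_cancel_left s).1 (Subgroup.subset_closure (Or.inr rfl))])))
    refine pg_of_bd h g' a b' (L := (2 * ((L + 4) / ε) + L + 6) ^ 2) fun φ m => ?_
    obtain ⟨k1, k2, k3⟩ := key k _ g' a b' φ m
    obtain ⟨n, hn⟩ := min_tr Z.Y (0 : ℤ) fun n => ⟨_, Z.idx _ _ (k3 n) (k3 n)⟩
    simp only [Z.res, map_mul Z.σ] at hn
    refine ⟨n, bdB (K := L) e0 e1 k1 (l1 _ (k3 n)) k2 ?_ ?_ ?_⟩
    · simpa only [zpow_add_one, ← mul_assoc k, map_mul φ (k * _), map_mul Z.σ] using hn (n + 1)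
    · simpa only [zpow_sub_one, ← mul_assoc k, map_mul φ (k * _), map_mul Z.σ, map_inv]
        using hn (n - 1)
    · have := h1 φ m
      have e : ∀ c, k * c * k⁻¹ * c = k * c ^ n * c * (k * c ^ n)⁻¹ * c := fun c => by group
      rw [show k * k * (l * l) = k * (k * l) * k⁻¹ * (k * l) by group, e] at this
      simpa only [map_mul φ _ (k * l), map_mul φ _ _⁻¹, map_mul Z.σ, map_inv] using this

end Pool.Agent.MP_646035_al.NB
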