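import Pool.Agent.MP_646035_al.Mg.NO_Iface
import Pool.Agent.MP_646035_al.Mg.H84_GIv
import Pool.Agent.MP_646035_al.Mg.H84_GReg
import Pool.Agent.MP_646035_al.Mg.MC_Trace
import Pool.Agent.MP_646035_al.Mg.NB_Defs

attribute [-instance] Submonoid.instSMulSubtypeMem GradedMonoid.GradeZero.mulAction
  DivisionCommMonoid.toDivisionMonoid Semiring.toMonoid Module.toDistribMulAction
  MulActionWithZero.toMulAction SMulWithZero.toSMulZeroClass UniformSpace.toTopologicalSpace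
  MonTypeEquivalenceMon.monMonoid Action.FintypeCat.instMulActionObjFiniteOf
  NonUnitalRingHomClass.toMulHomClass MulSemiringAction.toDistribMulAction
  RingConeClass.toSubsemiringClass AddQuantale.instAddLeftMono Algebra.toSMul
  SemigroupWithZero.toSemigroup Subgroup.instMulDistribMulActionSubtypeMem
  GroupConeClass.toSubmonoidClass SetLike.GradeZero.instMonoid MonoidWithZero.toMonoid
  SubsemiringClass.toSubmonoidClass Torsor.toMulAction
  ContinuousMonoidHom.instCoeOutOfMonoidHomClassOfContinuousMapClass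
  IdemSemiring.toCanonicallyOrderedAdd SubringClass.toSubsemiringClass NumberField.to_charZero
  CommSemiring.toSemiring AddQuantale.instAddRightMono MulDistribMulAction.toMulAction
  Action.instMulAction DivisionSemiring.toSemiring Submonoid.instDistribMulActionSubtypeMem
  instSMulZeroClass instCoeOTCOfCoeTC DivisionRing.toDivInvMonoid
  NonUnitalAlgSemiHomClass.toMulHomClass SubgroupClass.toCommGroup MonoidWithZero.toMulZeroOneClass
  Quantale.instMulRightMono Subtype.partialOrder NonAssocSemiring.toMulZeroOneClass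
  GroupWithZero.toDivInvMonoid NormedRing.toRing MulAction.instMulAction AddCommGroup.toAddGroup
  covariant_swap_mul_of_covariant_mul GroupWithZero.toDivisionMonoid

/-!
Lines facing each other, the classification of isometries, and a uniform gap between boundary lines.
-/

namespace Pool.Agent.MP_646035_al.NO

open Pool.Agent.MP_4a6971_al.H66 MC

variable {v w A B E N N' P : V} {u : Isom}

/-- Past directed timelike vectors. Two lines face each other if the sum of the normals is one. -/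
def Past (v : V) : Prop := Bf v v < 0 ∧ ∀ P, Fut P → 0 < Bf v P

theorem Past.add (h : Past v) (h' : Past w) : Past (v + w) := by
  have a := h.2 (-w) fun Q hQ => by simpa [ch] using h'.2 Q hQ.fut
  refine ⟨?_, fun P hP => by simpa only [Bf_add_left] using add_pos (h.2 P hP) (h'.2 P hP)⟩
  simp only [Bf_add_left, Bf_add_right, Bf_neg_right, Bf_comm w v] at a ⊢
  linarith [h.1, h'.1]

theorem Past.smul (h : Past v) (f : Isom) : Past (f • v) :=
  ⟨by simpa using h.1, fun P hP => by rw [Bf_move]; exact h.2 _ (hP.smul _)⟩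

theorem Past.trans (h : Past (A - N)) (h' : Past (N + B)) : Past (A + B) := by
  have := h.add h'
  rwa [show A - N + (N + B) = A + B by abel] at this

theorem Past.lt (h : Past (A + B)) (hA : Bf A A = 1) (hB : Bf B B = 1) : Bf A B < -1 := by
  have := h.1
  simp only [Bf_add_left, Bf_add_right, Bf_comm B A] at this
  linarith

theorem past_of (hA : Bf A A = 1) (hB : Bf B B = 1) (h : Bf A B < -1) (hP : H2 P)
    (h0 : 0 ≤ Bf A P + Bf B P) : Past (A + B) := by
  have a : Bf (A + B) (A + B) < 0 := by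
    simp only [Bf_add_left, Bf_add_right, Bf_comm B A]
    linarith
  obtain ⟨t, -, ht⟩ := exists_H2_of_neg a
  have h2 := hP.fut _ ht
  refine ⟨a, fun Q hQ => ?_⟩
  have h1 := hQ _ ht
  simp only [ch, Bf_smul_right, Bf_comm _ (A + B)] at h1 h2
  rw [← Bf_add_left] at h0
  have : t < 0 := by nlinarith only [h0, h2]
  nlinarith only [h1, this]

/-- Either normal. -/
def Pm (A B : V) : Prop := Past (A + B) ∨ Past (-A + B)

theorem Pm.far (h : Pm A B) (hA : Bf A A = 1) (hB : Bf B B = 1) : 1 < Bf A B ^ 2 := by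
  rcases h with h | h
  · nlinarith only [h.lt hA hB]
  · have := h.lt (by simpa using hA) hB
    rw [Bf_neg_left] at this
    nlinarith only [this]

theorem Pm.smul (h : Pm A B) (f : Isom) : Pm (f • A) (f • B) :=
  h.imp (fun h => by simpa [smul_add] using h.smul f) fun h => by simpa only [smul_add, smul_neg] using h.smul f

theorem Pm.trans (h : Pm A (-N)) (h' : Past (N + B)) : Pm A B :=
  h.imp (fun h => Past.trans (by rwa [sub_eq_add_neg]) h')
    fun h => Past.trans (by rwa [sub_eq_add_neg]) h'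

theorem Pm.far2 (h : Pm A (-N)) (h' : Pm B N) (hA : Bf A A = 1) (hB : Bf B B = 1) :
    1 < Bf A B ^ 2 := by
  rcases h' with a | a <;> rw [add_comm] at a
  · exact (h.trans a).far hA hB
  · simpa only [one_lt_sq_iff_one_lt_abs, Bf_neg_right, even_two, Even.neg_pow] using (h.trans a).far hA (by simpa using hB)

theorem pm_of (hA : Bf A A = 1) (hB : Bf B B = 1) (h : 1 < Bf A B ^ 2) (hP : H2 P)
    (h0 : Bf A P = 0) (h1 : 0 ≤ Bf B P) : Pm A B := by
  rcases lt_or_ge (Bf A B) (-1) with a | a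
  · exact Or.inl (past_of hA hB a hP (by linarith))
  · exact Or.inr (past_of (by simpa using hA) hB (by rw [Bf_neg_left]; nlinarith only [h, a]) hP
      (by rw [Bf_neg_left]; linarith))

theorem not_of_far (h : 1 < Bf A B ^ 2) (hA : Bf A A = 1) : ¬ Cr A B ∧ B ≠ A ∧ B ≠ -A := by
  refine ⟨fun c => lt_asymm h c, ?_, ?_⟩ <;> rintro rfl <;> simp only [hA, one_pow, lt_self_iff_false, Bf_neg_right, even_two, Even.neg_pow] at h

theorem hyp_not_fut (h : Hyp u) (hv : Fut v) : u • v ≠ v := fun e => by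
  obtain ⟨f, t, hf⟩ := h.fr
  have a := hf.one v
  have b := hv.smul f o H2_o
  rw [e, dil_smul] at a
  have a1 := congrArg Prod.fst a
  have a2 := congrArg (fun x : V => x.2.2) a
  have c : Real.exp (-t) < 1 := Real.exp_lt_one_iff.2 (by linarith [hf.pos])
  have d : 1 < Real.exp t := Real.one_lt_exp_iff.2 hf.pos
  rw [ch_comm, ch_o] at b
  simp only at a1 a2
  have e1 : (f • v).1 = 0 := by nlinarith only [a1, c]
  have e2 : (f • v).2.2 = 0 := by nlinarith only [a2, d]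
  rw [e1, e2] at b
  norm_num at b

theorem gl_neg {t : ℝ} (ht : t < 0) : Gl (flp * dil t) := by
  obtain ⟨w, hw⟩ := exists_isom swp_aux
  refine ⟨w, -t, by linarith, ?_⟩
  rw [mul_assoc, eq_inv_mul_iff_mul_eq]
  refine isom_ext fun P => ?_
  simp only [mul_smul, dil_smul, flp_smul, hw, act_apply, ne_eq, OfNat.ofNat_ne_zero, not_false_eq_true, zero_pow, mul_zero, mul_neg, mul_one, add_zero, one_pow, zero_add, neg_neg]

theorem exists_eig (u : Isom) : ∃ w : V, w ≠ 0 ∧ (u • w = w ∨ u • w = -w) := by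
  obtain ⟨v, h0, hv⟩ : ∃ v : V, v ≠ 0 ∧ u • v = u⁻¹ • v := by
    let L : V → V := fun P => u • P - u⁻¹ • P
    have s : ∀ P Q, Bf (L P) Q + Bf (L Q) P = 0 := fun P Q => by
      simp only [L, Bf_sub_left]
      rw [Bf_move u P, Bf_move u Q, Bf_comm P, Bf_comm Q]
      ring
    have l : ∀ x y z : ℝ, L (x, y, z) = x • L (1, 0, 0) + y • L (0, 1, 0) + z • L (0, 0, 1) :=
      fun x y z => by
        have : ((x, y, z) : V) = x • (1, 0, 0) + y • (0, 1, 0) + z • (0, 0, 1) := by simp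
        rw [this]
        simp only [L, smul_add, isom_smul, smul_sub]
        abel
    have s1 := s (1, 0, 0) (1, 0, 0)
    have s2 := s (0, 1, 0) (0, 1, 0)
    have s3 := s (0, 0, 1) (0, 0, 1)
    have s4 := s (1, 0, 0) (0, 1, 0)
    have s5 := s (1, 0, 0) (0, 0, 1)
    have s6 := s (0, 1, 0) (0, 0, 1)
    suffices ∃ x y z : ℝ, ((x, y, z) : V) ≠ 0 ∧ L (x, y, z) = 0 from
      let ⟨_, _, _, a, b⟩ := this; ⟨_, a, sub_eq_zero.1 b⟩
    suffices ∃ x y z : ℝ, ((x, y, z) : V) ≠ 0 ∧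
        x • L (1, 0, 0) + y • L (0, 1, 0) + z • L (0, 0, 1) = 0 from
      let ⟨_, _, _, a, b⟩ := this; ⟨_, _, _, a, (l _ _ _).trans b⟩
    clear l
    generalize L (1, 0, 0) = a, L (0, 1, 0) = b, L (0, 0, 1) = c at *
    obtain ⟨p, q, a3⟩ := a
    obtain ⟨b1, b2, b3⟩ := b
    obtain ⟨c1, r, c3⟩ := c
    simp only [Bf] at s1 s2 s3 s4 s5 s6
    obtain rfl : a3 = 0 := by linarith only [s1]
    obtain rfl : b2 = 0 := by linarith only [s2]
    obtain rfl : c1 = 0 := by linarith only [s3]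
    obtain rfl : b3 = 2 * q := by linarith only [s4]
    obtain rfl : c3 = -p := by linarith only [s5]
    obtain rfl : b1 = 2 * r := by linarith only [s6]
    by_cases h : ((2 * r, -p, -2 * q) : V) = 0
    · simp only [Prod.mk_eq_zero] at h
      obtain rfl : r = 0 := by linarith only [h.1]
      obtain rfl : p = 0 := by linarith only [h.2.1]
      obtain rfl : q = 0 := by linarith only [h.2.2]
      exact ⟨1, 0, 0, by simp, by simp⟩
    · exact ⟨_, _, _, h, by ext <;> simp only [Prod.smul_mk, smul_eq_mul, mul_zero, neg_smul, Prod.neg_mk, neg_zero, Prod.mk_add_mk, add_zero, zero_add, neg_mul, mul_neg, neg_neg, Prod.fst_zero, Prod.snd_zero] <;> ring⟩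
  by_cases h : v + u • v = 0
  · exact ⟨v, h0, Or.inr (eq_neg_of_add_eq_zero_right h)⟩
  · refine ⟨_, h, Or.inl ?_⟩
    rw [smul_add, add_comm]
    nth_rewrite 1 [hv]
    rw [smul_inv_smul]

theorem fut_of (h0 : v ≠ 0) (h : Bf v v ≤ 0) : Fut v ∨ Fut (-v) := by
  have key : ∀ a b c : ℝ, b ^ 2 ≤ a * c → 0 < a + c → Fut (a, b, c) := fun a b c h1 h2 Q hQ => by
    have e := hQ.eq
    have q1 := hQ.2
    have q2 := hQ.pos
    have ha : 0 ≤ a := by nlinarith only [h1, h2]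
    have hc : 0 ≤ c := by nlinarith only [h1, h2]
    have p : 0 < a * Q.2.2 + Q.1 * c := by
      rcases ha.eq_or_lt with rfl | a'
      · have : 0 < c := by linarith
        positivity
      · positivity
    simp only [ch, Bf]
    by_contra! k
    have k1 : (a * Q.2.2 + Q.1 * c) ^ 2 ≤ (2 * (b * Q.2.1)) ^ 2 :=
      pow_le_pow_left₀ p.le (by linarith only [k]) 2
    have k2 : b ^ 2 * Q.2.1 ^ 2 ≤ a * c * Q.2.1 ^ 2 := by gcongr
    have k3 : a * c ≤ 0 := by nlinarith only [sq_nonneg (a * Q.2.2 - Q.1 * c), e, k1, k2]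
    have k4 : b = 0 := by nlinarith only [p, k1, k2, k3]
    rw [k4] at k
    linarith
  obtain ⟨a, b, c⟩ := v
  simp only [Bf] at h
  rcases lt_trichotomy 0 (a + c) with k | k | k
  · exact Or.inl (key a b c (by linarith only [h]) k)
  · obtain rfl : c = -a := by linarith only [k]
    obtain rfl : a = 0 := by nlinarith only [sq_nonneg b, h]
    obtain rfl : b = 0 := by nlinarith only [h]
    simp at h0
  · exact Or.inr (key (-a) (-b) (-c) (by linarith only [h]) (by linarith only [k]))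

/-- An isometry without fixed points in the closed disc is a translation or a glide reflection. -/
theorem hyp_or_gl (h : ∀ v, Fut v → u • v ≠ v) : Hyp u ∨ Gl u := by
  obtain ⟨w, h0, hw⟩ := exists_eig u
  rcases le_or_gt (Bf w w) 0 with a | a
  · exfalso
    have k : ∀ w, Fut w → u • w ≠ -w := fun w b c => by
      have := b.smul u o H2_o
      have := b o H2_o
      simp only [c, ch, Bf_neg_left] at *
      linarith
    rcases fut_of h0 a with b | b <;> rcases hw with c | c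
    exacts [h _ b c, k _ b c, h _ b (by rw [smul_neg, c]), k _ b (by rw [smul_neg, c])]
  have s := Real.sqrt_pos.2 a
  obtain ⟨f, hf⟩ := H84.exists_frame0 (E := (1 / √(Bf w w)) • w) (by
    rw [Bf_smul_left, Bf_smul_right]
    field_simp
    rw [Real.sq_sqrt a.le])
  have e : u = f⁻¹ * (f * u * f⁻¹) * f := by group
  have h' : ∀ v, Fut v → (f * u * f⁻¹) • v ≠ v := fun v hv c => h _ (hv.smul f⁻¹) (by
    rwa [mul_smul, mul_smul, ← eq_inv_smul_iff] at c)
  have hw' : (f * u * f⁻¹) • E0 = E0 ∨ (f * u * f⁻¹) • E0 = -E0 := by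
    rw [← hf, mul_smul, mul_smul, inv_smul_smul, isom_smul]
    exact hw.imp (fun c => by rw [c]) fun c => by rw [c, smul_neg, smul_neg]
  generalize f * u * f⁻¹ = y at *
  suffices Hyp y ∨ Gl y from
    this.imp (fun c => by simpa only [e, inv_inv] using c.conj f⁻¹) fun c => by simpa [e] using c.conj f⁻¹
  rcases hw' with c | c
  · rcases pk_fix_E0 c with ⟨τ, rfl⟩ | ⟨P, hP, d⟩
    · rcases lt_trichotomy 0 τ with d | rfl | d
      · exact Or.inl ⟨1, τ, d, by simp only [inv_one, one_mul, mul_one]⟩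
      · exact (h' o H2_o.fut (by simp [dil_zero])).elim
      · exact Or.inl (by simpa only [dil_neg, inv_inv] using Hyp.inv (u := dil (-τ)) ⟨1, -τ, by linarith only [d], by simp only [inv_one, one_mul, mul_one]⟩)
    · exact (h' P hP.fut d).elim
  · rcases pk_fix_E0 (u := flp * y) (by rw [mul_smul, c, smul_neg, flp_E0, neg_neg]) with
      ⟨τ, d⟩ | ⟨P, hP, d⟩
    · obtain rfl : y = flp * dil τ := by rw [← d, ← mul_assoc, flp_mul_flp, one_mul]
      rcases lt_trichotomy 0 τ with d | rfl | d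
      · exact Or.inr ⟨1, τ, d, by simp⟩
      · exact (h' o H2_o.fut (by simp only [dil_zero, mul_one, o, flp_smul, neg_zero])).elim
      · exact Or.inr (gl_neg d)
    · have d' : y • P = flp • P := by
        nth_rewrite 2 [← d]
        rw [mul_smul, flp_flp]
      refine (h' (P - P.2.1 • E0) (fun Q hQ => ?_) ?_).elim
      · have := mul_pos hP.2 hQ.pos
        have := mul_pos hQ.2 hP.pos
        simp only [ch, Bf, E0, Prod.smul_mk, smul_eq_mul, mul_zero, mul_one, Prod.snd_sub, Prod.fst_sub, sub_self, zero_mul, sub_zero, zero_sub, neg_neg, Nat.ofNat_pos, div_pos_iff_of_pos_right, gt_iff_lt]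
        linarith
      · rw [smul_sub, isom_smul, c, d', flp_smul]
        ext <;> simp [E0]

variable {Γ : Type} [Group Γ]

theorem per_unit (Y : MC.Fuchs Γ) (h : N ∈ Y.per) : Bf N N = 1 := (Y.per_ax N h).choose_spec.2.1

theorem per_past (Y : MC.Fuchs Γ) (h : N ∈ Y.per) (h' : N' ∈ Y.per) (n : N ≠ N') :
    Past (N + N') :=
  past_of (per_unit Y h) (per_unit Y h') (Y.per_far N h N' h' n) H2_o
    (add_pos (Y.per_o N h) (Y.per_o N' h')).le

/-- The boundary lines are uniformly far from each other. -/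
theorem exists_gap (Y : MC.Fuchs Γ) : ∃ c : ℝ, 0 < c ∧ ∀ N ∈ Y.per, ∀ N' ∈ Y.per, N ≠ N' →
    ∀ P, H2 P → c ≤ Bf N P + Bf N' P := by
  obtain ⟨R, hR⟩ := Y.cocompact
  have fin := H84.Fu.per_fin' (S := Y) H2_o (3 * R)
  obtain ⟨δ, d0, hδ⟩ : ∃ δ : ℝ, 0 < δ ∧ ∀ N ∈ Y.per, ∀ N' ∈ Y.per, N ≠ N' → |Bf N o| ≤ 3 * R →
      |Bf N' o| ≤ 3 * R → δ ≤ -1 - Bf N N' := by
    have f2 := ((fin.prod fin).image fun p : V × V => -1 - Bf p.1 p.2).inter_of_left (Set.Ioi 0)
    obtain ⟨δ, h1, h2⟩ := Set.exists_min_image _ id (f2.insert 1) ⟨1, Or.inl rfl⟩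
    exact ⟨δ, h1.elim (fun e => e ▸ one_pos) fun e => e.2, fun N a N' b n c d => h2 _ (Or.inr
      ⟨⟨(N, N'), ⟨⟨Or.inl a, c⟩, Or.inl b, d⟩, rfl⟩, by simpa using Y.per_far N a N' b n⟩)⟩
  refine ⟨min 1 δ, lt_min one_pos d0, fun N a N' b n P hP => ?_⟩
  have p := per_past Y a b n
  have l := Y.per_far N a N' b n
  have u := per_unit Y a
  have u' := per_unit Y b
  obtain ⟨t, -, ht⟩ := exists_H2_of_neg p.1
  have e := ht.1
  have h1 := one_le_ch ht hP
  have h2 := p.2 P hP.fut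
  simp only [ch, Bf_smul_left, Bf_smul_right, Bf_add_left, Bf_add_right, Bf_comm N' N, u, u']
    at e h1 h2
  have t0 : t < 0 := by nlinarith only [h1, h2]
  have k : min 1 δ ≤ -1 - Bf N N' := by
    rcases le_total 1 (-1 - Bf N N') with c | c
    · exact min_le_of_left_le c
    obtain ⟨γ, hγ⟩ := hR _ ht fun M hM => by
      rw [Bf_smul_right, Bf_add_right]
      refine mul_nonneg_of_nonpos_of_nonpos t0.le ?_
      by_cases m : M = N
      · rw [m, u]; linarith only [l]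
      by_cases m' : M = N'
      · rw [m', u', Bf_comm]; linarith only [l]
      linarith [Y.per_far M hM N a m, Y.per_far M hM N' b m']
    have q : ∀ M, Bf M M = 1 → Bf M (t • (N + N')) = t * (1 + Bf N N') →
        |Bf (Y.σ γ⁻¹ • M) o| ≤ 3 * R := fun M m m' => by
      rw [map_inv, ← Bf_isom (Y.σ γ), smul_inv_smul]
      refine (abs_Bf_le m (H2_o.smul _) ht).trans ?_
      have : |t * (1 + Bf N N')| ≤ 1 := abs_le_one_iff_mul_self_le_one.2 (by nlinarith only [e, c])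
      have := one_le_ch ht (H2_o.smul (Y.σ γ))
      rw [m']
      gcongr
      linarith
    have := hδ _ (Y.per_smul γ⁻¹ N a) _ (Y.per_smul γ⁻¹ N' b) (fun c => n (smul_left_cancel _ c))
      (q N u (by rw [Bf_smul_right, Bf_add_right, u]))
      (q N' u' (by rw [Bf_smul_right, Bf_add_right, u', Bf_comm, add_comm]))
    exact min_le_of_right_le (by simpa only [map_inv, Bf_isom] using this)
  by_contra! hc
  have m1 := min_le_left 1 δ
  generalize min 1 δ = c at *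
  generalize Bf N P + Bf N' P = s at *
  have : 1 ≤ (t * s) ^ 2 := by nlinarith only [h1]
  have : s ^ 2 < -1 - Bf N N' := by nlinarith only [t0, k, m1, h1, hc]
  nlinarith [sq_pos_of_neg t0]

end Pool.Agent.MP_646035_al.NO

/-!
The combination theorem for cross caps.
-/

namespace Pool.Agent.MP_646035_al.NO.Cap

open Pool.Agent.MP_4a6971_al.H66 Pool.Agent.MP_4a6971_al.H83 MC

variable {Γ : Type} [Group Γ] {K : Cap Γ} {n : ℕ} {g : Isom} {x : Option V} {E F M N N' P : V}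

theorem unit (h : N ∈ K.C) : Bf N N = 1 := per_unit K.Y (K.sub h)

theorem κ_rev (h : N ∈ K.C) : K.κ N • N = -N :=
  let ⟨_, a, b, _⟩ := K.sq N h
  (K.gl N h).neg ⟨unit h, a ▸ b⟩

theorem κ_bf (h : N ∈ K.C) (P : V) : Bf N (K.κ N • P) = -Bf N P := by
  rw [← Bf_isom (K.κ N) N P, κ_rev h, Bf_neg_left, neg_neg]

theorem κ_past (h : N ∈ K.C) (a : Past (M + N)) : Past (K.κ N • M - N) := by
  simpa [smul_add, κ_rev h, sub_eq_add_neg] using a.smul (K.κ N)

theorem κ_pm (h : N ∈ K.C) (a : Pm M N) : Pm (K.κ N • M) (-N) := by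
  simpa [κ_rev h] using a.smul (K.κ N)

theorem past (h : N ∈ K.C) (h' : N' ∈ K.C) (e : some N ≠ some N') : Past (N + N') :=
  per_past K.Y (K.sub h) (K.sub h') fun a => e (congrArg _ a)

/-- Reduced words of length `n`, with the first wall. -/
inductive Wd (K : Cap Γ) : ℕ → Isom → Option V → Prop
  | base (γ : Γ) : Wd K 0 (K.Y.σ γ) none
  | step {n : ℕ} {h : Isom} {x : Option V} {N : V} :
      Wd K n h x → N ∈ K.C → x ≠ some N → Wd K (n + 1) (K.κ N * h) (some N)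

theorem Wd.mem (w : K.Wd n g (some N)) : N ∈ K.C := by
  cases w
  assumption

theorem Wd.none (w : K.Wd n g none) : n = 0 ∧ ∃ γ, g = K.Y.σ γ := by
  cases w
  exact ⟨rfl, _, rfl⟩

theorem Wd.some (w : K.Wd n g (some N)) :
    ∃ m h x, n = m + 1 ∧ g = K.κ N * h ∧ K.Wd m h x ∧ x ≠ some N := by
  cases w with
  | step a _ b => exact ⟨_, _, _, rfl, rfl, a, b⟩

theorem Wd.σ (w : K.Wd n g x) (δ : Γ) : K.Wd n (K.Y.σ δ * g) (x.map (K.Y.σ δ • ·)) := by
  induction w with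
  | base γ => simpa using Wd.base (K := K) (δ * γ)
  | @step n h x N _ a b ih =>
    have := ih.step (K.smul δ N a) fun e => b (Option.map_injective (MulAction.injective _) e)
    rw [K.eqv δ N a] at this
    simpa only [Option.map_some, mul_assoc, inv_mul_cancel_left] using this

theorem Wd.κ (w : K.Wd n g x) (h : M ∈ K.C) : ∃ m y, K.Wd m (K.κ M * g) y := by
  by_cases e : x = .some M
  · subst e
    obtain ⟨m, k, y, -, rfl, a, -⟩ := w.some
    obtain ⟨γ, b, -⟩ := K.sq M h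
    exact ⟨_, _, by simpa [b, mul_assoc] using a.σ γ⟩
  · exact ⟨_, _, w.step h e⟩

theorem exists_wd (h : g ∈ K.G) : ∃ n x, K.Wd n g x := by
  induction h using Subgroup.closure_induction_left with
  | one => exact ⟨_, _, by simpa only [map_one] using Wd.base (K := K) 1⟩
  | mul_left s hs y _ ih =>
    obtain ⟨n, x, w⟩ := ih
    rcases hs with ⟨γ, rfl⟩ | ⟨M, a, rfl⟩
    exacts [⟨_, _, w.σ γ⟩, w.κ a]
  | inv_mul_cancel s hs y _ ih =>
    obtain ⟨n, x, w⟩ := ih
    rcases hs with ⟨γ, rfl⟩ | ⟨M, a, rfl⟩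
    · exact ⟨_, _, by simpa only [map_inv] using w.σ γ⁻¹⟩
    · obtain ⟨m, z, w'⟩ := w.κ a
      obtain ⟨γ, b, -⟩ := K.sq M a
      exact ⟨_, _, by simpa [b, mul_assoc] using w'.σ γ⁻¹⟩

/-- The image of a boundary line lies behind the first wall, or the word can be shortened. -/
theorem Wd.right (w : K.Wd n g (.some N)) (hM : M ∈ K.Y.per) :
    Past (g • M - N) ∨ M ∈ K.C ∧ ∃ m y, n = m + 1 ∧ K.Wd m (g * K.κ M) y ∧
      (y = .some N ∨ y = .none ∧ g • M = -N) := by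
  generalize e : Option.some N = x at w
  induction w generalizing N with
  | base => cases e
  | @step n h x N' w a b ih =>
    obtain rfl : N = N' := Option.some.inj e
    rw [mul_smul]
    cases x with
    | none =>
      obtain ⟨rfl, γ, rfl⟩ := w.none
      by_cases c : K.Y.σ γ • M = N
      · have m : M ∈ K.C := by simpa only [map_inv, ← c, inv_smul_smul] using K.smul γ⁻¹ N a
        obtain ⟨δ, d, -⟩ := K.sq N a
        refine Or.inr ⟨m, 0, .none, rfl, ?_, Or.inr ⟨rfl, by rw [c, κ_rev a]⟩⟩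
        have e : K.κ N * K.Y.σ γ * K.κ M = K.Y.σ (δ * γ) := by
          rw [map_mul, d, mul_assoc, mul_assoc]
          nth_rewrite 3 [← c]
          rw [K.eqv γ M m]
          group
        exact e ▸ Wd.base _
      · exact Or.inl (κ_past a (per_past K.Y (K.Y.per_smul γ M hM) (K.sub a) c))
    | some N' =>
      rcases ih rfl with c | ⟨m, k, y, rfl, c, d⟩
      · exact Or.inl (κ_past a (c.trans (past w.mem a b)))
      · refine Or.inr ⟨m, k + 1, _, rfl, ?_, Or.inl rfl⟩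
        rw [mul_assoc]
        exact c.step a (by rcases d with rfl | ⟨rfl, -⟩ <;> simp_all)

/-- The image of a point of the tile lies deep behind the first wall. -/
theorem Wd.depth {c : ℝ} (hc : ∀ N ∈ K.C, ∀ N' ∈ K.C, N ≠ N' → ∀ P, H2 P → c ≤ Bf N P + Bf N' P)
    (w : K.Wd n g (.some N)) (hP : H2 P) : ∃ M ∈ K.C, Bf N (g • P) ≤ c - n * c - Bf M P := by
  generalize e : Option.some N = x at w
  induction w generalizing N with
  | base => cases e
  | @step n h x N' w a b ih =>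
    obtain rfl : N = N' := Option.some.inj e
    rw [mul_smul, κ_bf a]
    cases x with
    | none =>
      obtain ⟨rfl, γ, rfl⟩ := w.none
      exact ⟨_, K.smul γ⁻¹ N a, by simp only [H84.Fu.Bf_move' (S := K.Y), map_inv, zero_add, Nat.cast_one, one_mul, sub_self, zero_sub, Std.le_refl]⟩
    | some N' =>
      obtain ⟨M, m, d⟩ := ih rfl
      have := hc N a N' w.mem (fun e => b (e ▸ rfl)) _ (hP.smul h)
      exact ⟨M, m, by push_cast; linarith⟩

theorem gap (K : Cap Γ) :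
    ∃ c : ℝ, 0 < c ∧ ∀ N ∈ K.C, ∀ N' ∈ K.C, N ≠ N' → ∀ P, H2 P → c ≤ Bf N P + Bf N' P :=
  (exists_gap K.Y).imp fun _ h => ⟨h.1, fun N a N' b => h.2 N (K.sub a) N' (K.sub b)⟩

theorem Wd.behind (w : K.Wd n g (.some N)) (hP : H2 P) : ∃ M ∈ K.C, Bf N (g • P) ≤ -Bf M P := by
  obtain ⟨c, c0, hc⟩ := K.gap
  obtain ⟨M, m, d⟩ := w.depth hc hP
  obtain ⟨k, -, -, rfl, -⟩ := w.some
  push_cast at d
  exact ⟨M, m, by nlinarith only [c0, d]⟩

theorem Wd.neg_o (w : K.Wd n g (.some N)) : Bf N (g • o) < 0 :=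
  let ⟨M, m, d⟩ := w.behind H2_o
  d.trans_lt (neg_neg_of_pos (K.Y.per_o M (K.sub m)))

theorem Wd.hyp (w : K.Wd n g x) (h1 : g ≠ 1) : Hyp g ∨ Gl g := by
  induction n using Nat.strong_induction_on generalizing g x with | _ n ih => ?_
  cases x with
  | none =>
    obtain ⟨-, γ, rfl⟩ := w.none
    exact Or.inl (K.Y.hyp γ fun e => h1 (by simp only [e, map_one]))
  | some N =>
    have a := w.mem
    rcases w.right (K.sub a) with c | ⟨-, m, y, rfl, c, rfl | ⟨rfl, d⟩⟩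
    · refine hyp_or_gl fun v hv e => ?_
      have := c.2 v hv
      rw [Bf_sub_left] at this
      nth_rewrite 1 [← e] at this
      simp at this
    · obtain ⟨k, h, z, rfl, e, c', -⟩ := c.some
      have e' : g = K.κ N * h * (K.κ N)⁻¹ := by rw [← e, mul_inv_cancel_right]
      exact e' ▸ (ih k (by omega) c' fun b => h1 (by simp [e', b])).imp (·.conj _) (·.conj _)
    · obtain ⟨-, γ, e⟩ := c.none
      obtain ⟨δ, b1, -, b2⟩ := K.sq N a
      obtain ⟨j, rfl⟩ := b2 γ (by rw [← e, mul_smul, κ_rev a, smul_neg, d, neg_neg])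
      have e1 : g = K.κ N ^ (2 * j - 1) := by
        rw [zpow_sub_one, zpow_mul, zpow_two, ← b1, ← map_zpow, ← e, mul_inv_cancel_right]
      have e2 : g * g = K.Y.σ (δ ^ (2 * j - 1)) := by
        rw [map_zpow, b1, ← zpow_two, ← zpow_two, e1, ← zpow_mul, ← zpow_mul, mul_comm]
      refine hyp_or_gl fun v hv e => hyp_not_fut (K.Y.hyp (δ ^ (2 * j - 1)) fun k => ?_) hv
        (by rw [← e2, mul_smul, e, e])
      exact (K.gl N a).sq.zpow_ne_one (k := 2 * j - 1) (by omega)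
        (by rw [← b1, ← map_zpow, k, map_one])

theorem Wd.finite (K : Cap Γ) (n : ℕ) (R : ℝ) :
    {g | (∃ x, K.Wd n g x) ∧ ch o (g • o) ≤ R}.Finite := by
  induction n generalizing R with
  | zero =>
    refine ((K.Y.proper R).image K.Y.σ).subset ?_
    rintro g ⟨⟨x, w⟩, h⟩
    cases w
    exact ⟨_, h, rfl⟩
  | succ n ih =>
    refine ((H84.Fu.per_fin' (S := K.Y) H2_o R).biUnion fun N _ =>
      (ih (2 * ch o (K.κ N • o) * R)).image (K.κ N * ·)).subset ?_
    rintro g ⟨⟨x, w⟩, h⟩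
    have b : ∀ N, x = .some N → Bf N (g • o) < 0 := fun N e => Wd.neg_o (e ▸ w)
    cases w with
    | @step _ k y N w a _ =>
      refine Set.mem_biUnion (x := N) ⟨Or.inl (K.sub a), ?_⟩ ⟨k, ⟨⟨_, w⟩, ?_⟩, rfl⟩
      · refine (abs_Bf_le_of_sign (unit a) H2_o (H2_o.smul _) (mul_nonpos_of_nonneg_of_nonpos
          (K.Y.per_o N (K.sub a)).le (b N rfl).le)).trans ?_
        rwa [ch_comm]
      · rw [← ch_isom (K.κ N), ← mul_smul]
        refine (ch_tri (H2_o.smul _) H2_o (H2_o.smul _)).trans ?_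
        have := one_le_ch H2_o (H2_o.smul (K.κ N))
        gcongr

theorem proper (K : Cap Γ) (R : ℝ) : {g | g ∈ K.G ∧ ch o (g • o) ≤ R}.Finite := by
  obtain ⟨c, c0, hc⟩ := K.gap
  obtain ⟨m, hm⟩ := exists_nat_ge (R / c + 1)
  refine ((Set.finite_Iic m).biUnion fun n _ => Wd.finite K n R).subset fun g h => ?_
  obtain ⟨n, x, w⟩ := exists_wd h.1
  refine Set.mem_biUnion (x := n) ?_ ⟨⟨x, w⟩, h.2⟩
  cases x with
  | none => simp [w.none.1]
  | some N =>
    obtain ⟨M, m', d⟩ := w.depth hc H2_o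
    have a := K.Y.per_o M (K.sub m')
    have b := (abs_le.1 ((abs_Bf_le_of_sign (unit w.mem) (H2_o.smul g) H2_o
      (mul_nonpos_of_nonpos_of_nonneg w.neg_o.le (K.Y.per_o N (K.sub w.mem)).le)).trans h.2)).1
    have e : (n : ℝ) - 1 ≤ R / c := by rw [le_div_iff₀ c0]; linarith
    exact_mod_cast (show (n : ℝ) ≤ m by linarith)

theorem fold (K : Cap Γ) (hP : H2 P) : ∃ g ∈ K.G, ∀ N ∈ K.C, 0 ≤ Bf N (g • P) := by
  obtain ⟨c, c0, hc⟩ := K.gap
  have key : ∀ (n : ℕ) P, H2 P → (∀ N ∈ K.C, -(n * c) ≤ Bf N P) →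
      ∃ g ∈ K.G, ∀ N ∈ K.C, 0 ≤ Bf N (g • P) := fun n => by
    induction n with
    | zero => exact fun P _ h => ⟨1, one_mem _, by simpa only [one_smul, Prod.forall, CharP.cast_eq_zero, zero_mul, neg_zero] using h⟩
    | succ n ih =>
      intro P hP h
      by_cases a : ∀ N ∈ K.C, 0 ≤ Bf N P
      · exact ⟨1, one_mem _, by simpa only [one_smul, Prod.forall] using a⟩
      push Not at a
      obtain ⟨N, a, b⟩ := a
      obtain ⟨g, d, e⟩ := ih _ (hP.smul (K.κ N)) fun M m => by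
        have p : 0 ≤ n * c := by positivity
        by_cases q : M = N
        · rw [q, κ_bf a]
          linarith
        · have := hc M m N a q _ (hP.smul (K.κ N))
          have := h N a
          rw [κ_bf a] at *
          push_cast at *
          linarith
      exact ⟨g * K.κ N, mul_mem d (K.κ_mem a), by simpa only [mul_smul, Prod.forall] using e⟩
  obtain ⟨n, hn⟩ := exists_nat_ge (ch o P / c)
  rw [div_le_iff₀ c0] at hn
  refine key n P hP fun N a => ?_
  rcases le_total 0 (Bf N P) with b | b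
  · exact (neg_nonpos.2 (by positivity)).trans b
  · linarith [(abs_le.1 (abs_Bf_le_of_sign (unit a) hP H2_o
      (mul_nonpos_of_nonpos_of_nonneg b (K.Y.per_o N (K.sub a)).le))).1]

/-- The tiles cover the plane. -/
theorem cover (K : Cap Γ) (x : X) : ∃ g ∈ K.G, g • x ∈ K.T := K.fold x.2

/-- A tile is the standard one, or its neighbour across `N`, or lies behind both. -/
theorem nf (h : g ∈ K.G) : (∃ γ, g = K.Y.σ γ) ∨ ∃ N ∈ K.C, (∃ γ, g = K.κ N * K.Y.σ γ) ∨
    ∃ M ∈ K.C, M ≠ N ∧ ∀ x ∈ K.T, bf (K.κ N • M) (g • x) ≤ 0 := by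
  obtain ⟨n, x, w⟩ := exists_wd h
  cases w with
  | base γ => exact Or.inl ⟨γ, rfl⟩
  | @step _ k y N w a b =>
    refine Or.inr ⟨N, a, ?_⟩
    cases y with
    | none => exact Or.inl (w.none.2.imp fun _ => congrArg _)
    | some M =>
      refine Or.inr ⟨M, w.mem, fun e => b (e ▸ rfl), fun x hx => ?_⟩
      obtain ⟨M', m, d⟩ := w.behind x.2
      rw [mul_smul, bf_smul]
      exact d.trans (neg_nonpos.2 (hx M' m))

theorem per_or (h : g ∈ K.G) (hM : M ∈ K.Y.per) (h' : M ∉ K.C) :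
    (∃ γ, g = K.Y.σ γ) ∨ ∃ N ∈ K.C, Past (g • M - N) := by
  obtain ⟨n, x, w⟩ := exists_wd h
  cases x with
  | none => exact Or.inl w.none.2
  | some N => exact Or.inr ⟨N, w.mem, (w.right hM).resolve_right fun a => h' a.1⟩

theorem σ_ne {γ : Γ} (h : γ ≠ 1) : K.ι γ ≠ 1 := fun e =>
  (K.Y.hyp γ h).zpow_ne_one one_ne_zero ((zpow_one _).trans (congrArg Subtype.val e))

/-- The group of the surface with cross caps. -/
def W (K : Cap Γ) : Fuchs K.G where
  σ := K.G.subtype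
  per := K.per
  hyp γ h := let ⟨_, _, w⟩ := exists_wd γ.2; w.hyp fun e => h (Subtype.ext e)
  proper R := ((K.proper R).preimage Subtype.val_injective.injOn).subset fun γ h => ⟨γ.2, h⟩
  per_o := by
    rintro _ ⟨g, a, M, b, c, rfl⟩
    rcases per_or a b c with ⟨γ, rfl⟩ | ⟨N, d, e⟩
    · exact K.Y.per_o _ (K.Y.per_smul γ M b)
    · have := e.2 o H2_o.fut
      rw [Bf_sub_left] at this
      linarith [K.Y.per_o N (K.sub d)]
  per_smul := by
    rintro γ _ ⟨g, a, M, b, c, rfl⟩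
    exact ⟨γ * g, mul_mem γ.2 a, M, b, c, (mul_smul _ _ _).symm⟩
  per_fin := by
    obtain ⟨T, h1, h2⟩ := K.Y.per_fin
    refine ⟨T, h1, ?_⟩
    rintro _ ⟨g, a, M, b, c, rfl⟩
    obtain ⟨γ, hγ⟩ := h2 M b
    exact ⟨⟨K.Y.σ γ * g⁻¹, mul_mem (K.σ_mem γ) (inv_mem a)⟩, by simpa [mul_smul] using hγ⟩
  per_ax := by
    rintro _ ⟨g, a, M, b, c, rfl⟩
    obtain ⟨γ, h1, h2⟩ := K.Y.per_ax M b
    exact ⟨⟨g, a⟩ * K.ι γ * ⟨g, a⟩⁻¹, by simpa only [ne_eq, conj_eq_one_iff] using σ_ne h1, h2.conj g⟩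
  per_far := by
    rintro _ ⟨g, a, M, b, c, rfl⟩ _ ⟨g', a', M', b', c', rfl⟩ n
    rw [Bf_comm, Bf_move, ← mul_smul, Bf_comm]
    rcases per_or (mul_mem (inv_mem a') a) b c with ⟨γ, e⟩ | ⟨N, d, e⟩
    · refine e ▸ K.Y.per_far _ (K.Y.per_smul γ M b) M' b' fun k => n ?_
      rw [← k, ← e, mul_smul, smul_inv_smul]
    · exact (e.trans (per_past K.Y (K.sub d) b' fun k => c' (k ▸ d))).lt
        (by simpa only [Bf_isom] using per_unit K.Y b) (per_unit K.Y b')
  cocompact := by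
    obtain ⟨R, hR⟩ := K.Y.cocompact
    refine ⟨R, fun P hP h => ?_⟩
    obtain ⟨g, a, b⟩ := K.fold hP
    obtain ⟨γ, hγ⟩ := hR _ (hP.smul g) fun N c => (em (N ∈ K.C)).elim (b N) fun d => by
      simpa only [Bf_move, inv_inv] using h _ ⟨g⁻¹, inv_mem a, N, c, d, rfl⟩
    refine ⟨⟨g⁻¹ * K.Y.σ γ, mul_mem (inv_mem a) (K.σ_mem γ)⟩, ?_⟩
    rw [← ch_isom g]
    simpa only [Subgroup.subtype_apply, mul_smul, smul_inv_smul] using hγ
  nonel :=
    let ⟨α, β, E, F, a, b, c⟩ := K.Y.nonel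
    ⟨K.ι α, K.ι β, E, F, σ_ne a, σ_ne b, c⟩

/-- The lifts of the cores of the cross caps. -/
def core (K : Cap Γ) : Set V := {m | ∃ g ∈ K.G, ∃ N ∈ K.C, m = g • N}

theorem core_or (h : E ∈ K.core) : E ∈ K.C ∨ -E ∈ K.C ∨ ∃ N ∈ K.C, Pm E (-N) := by
  obtain ⟨g, a, M, b, rfl⟩ := h
  obtain ⟨n, x, w⟩ := exists_wd a
  clear a
  induction n generalizing g x with
  | zero =>
    cases w
    exact Or.inl (K.smul _ M b)
  | succ n ih =>
    cases x with
    | none => cases w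
    | some N =>
      rcases w.right (K.sub b) with c | ⟨-, m, y, e, c, -⟩
      · exact Or.inr (Or.inr ⟨N, w.mem, Or.inl (by rwa [← sub_eq_add_neg])⟩)
      · cases e
        have := ih _ _ c
        rw [mul_smul, κ_rev b, smul_neg, neg_neg] at this
        exact this.elim (fun a => Or.inr (Or.inl a)) fun a => a.elim Or.inl
          fun ⟨N, a, b⟩ => Or.inr (Or.inr ⟨N, a, by simpa [Pm, or_comm] using b⟩)

theorem Wd.pm (w : K.Wd n g (.some N)) (h : ∀ γ, ∀ M ∈ K.C, Pm (K.Y.σ γ • E) M) :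
    Pm (g • E) (-N) := by
  generalize e : Option.some N = x at w
  induction w generalizing N with
  | base => cases e
  | @step n h x N' w a b ih =>
    obtain rfl : N = N' := Option.some.inj e
    rw [mul_smul]
    refine κ_pm a ?_
    cases x with
    | none =>
      obtain ⟨rfl, γ, rfl⟩ := w.none
      exact h γ N a
    | some N' => exact (ih rfl).trans (past w.mem a b)

theorem pm_σ (h : ∀ M ∈ K.C, Pm E M) (γ : Γ) (M : V) (hM : M ∈ K.C) : Pm (K.Y.σ γ • E) M := by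
  simpa only [map_inv, smul_inv_smul] using (h _ (K.smul γ⁻¹ M hM)).smul (K.Y.σ γ)

theorem ins_or (a : g ∈ K.G) (h : ∀ M ∈ K.C, Pm E M) :
    (∃ γ, g = K.Y.σ γ) ∨ ∃ N ∈ K.C, Pm (g • E) (-N) := by
  obtain ⟨n, x, w⟩ := exists_wd a
  cases x with
  | none => exact Or.inl w.none.2
  | some N => exact Or.inr ⟨N, w.mem, w.pm (pm_σ h)⟩

theorem far_of (h : N ∈ K.C) (h' : M ∈ K.Y.per) (a : Pm E (-N)) (u : Bf E E = 1) :
    1 < Bf E M ^ 2 := by
  by_cases e : N = M
  · simpa only [one_lt_sq_iff_one_lt_abs, e, Bf_neg_right, even_two, Even.neg_pow] using a.far u (by simpa using unit h)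
  · exact (a.trans (per_past K.Y (K.sub h) h' e)).far u (per_unit K.Y h')

variable {W : Fuchs K.G}

theorem Is.app (h : K.Is W) (γ : K.G) : W.σ γ = γ := by rw [h.σ]; rfl

theorem Is.ι (h : K.Is W) (γ : Γ) : K.ι γ ∈ W.Or := by
  by_cases e : γ = 1
  · simp only [e, map_one, one_mem]
  · rw [W.mem_or, h.app]
    exact det_hyp (K.Y.hyp γ e)

theorem Is.κ (h : K.Is W) (a : N ∈ K.C) : ⟨K.κ N, K.κ_mem a⟩ ∉ W.Or := by
  rw [W.mem_or, h.app]
  exact (K.gl N a).not_det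

theorem Is.ax (h : K.Is W) (a : H84.Fu.Ax K.Y E) : H84.Fu.Ax W.fu E :=
  let ⟨γ, b, c⟩ := a
  ⟨⟨K.ι γ, h.ι γ⟩, fun e => σ_ne b (congrArg Subtype.val e), by rwa [W.fu_σ, h.app]⟩

theorem Is.lns (h : K.Is W) (a : g ∈ K.G) (b : N ∈ K.C) : g • N ∈ H84.Fu.lns W.fu N := by
  by_cases c : ⟨g, a⟩ ∈ W.Or
  · exact ⟨⟨_, c⟩, Or.inl (by rw [W.fu_σ, h.app])⟩
  · refine ⟨⟨_, W.mul_or c (h.κ b)⟩, Or.inr ?_⟩
    rw [W.fu_σ, h.app]
    simp [mul_smul, κ_rev b]

theorem core_smul (a : g ∈ K.G) (h : E ∈ K.core) : g • E ∈ K.core :=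
  let ⟨k, b, N, c, d⟩ := h
  ⟨g * k, mul_mem a b, N, c, by rw [d, mul_smul]⟩

theorem core_unit (h : E ∈ K.core) : Bf E E = 1 :=
  let ⟨_, _, _, c, d⟩ := h
  d ▸ by simpa using unit c

theorem Is.lam (h : K.Is W) : H84.Fu.Lam W.fu K.core where
  ax := by
    rintro _ ⟨g, a, N, b, rfl⟩
    exact (h.ax (K.Y.per_ax N (K.sub b))).lns (h.lns a b)
  neg := by
    rintro _ ⟨g, a, N, b, rfl⟩
    exact ⟨g * K.κ N, mul_mem a (K.κ_mem b), N, b, by simp [mul_smul, κ_rev b]⟩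
  smul n a g := by
    rw [W.fu_σ, h.app]
    exact core_smul g.1.2 a
  nc := by
    rintro n a _ ⟨g, b, N, c, rfl⟩
    rw [cr_comm, cr_move, cr_comm]
    have a' := core_smul (inv_mem b) a
    have k : ∀ M ∈ K.C, ¬ Cr M N := fun M m =>
      H84.Fu.Ax.not_cr_per (K.Y.per_ax M (K.sub m)) (K.sub c)
    rcases core_or a' with d | d | ⟨M, d, e⟩
    · exact k _ d
    · simpa using k _ d
    · exact (not_of_far (far_of d (K.sub c) e (core_unit a')) (core_unit a')).1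
  fin p hp R := by
    obtain ⟨T, h1, h2⟩ := K.Y.per_fin
    refine ((h1.inter_of_left K.C).biUnion fun N hN =>
      (h.ax (K.Y.per_ax N (K.sub hN.2))).loc_fin hp R).subset ?_
    rintro _ ⟨⟨g, a, N, b, rfl⟩, c⟩
    obtain ⟨γ, hγ⟩ := h2 N (K.sub b)
    refine Set.mem_biUnion (x := K.Y.σ γ • N) ⟨hγ, K.smul γ N b⟩ ⟨?_, c⟩
    simpa only [mul_smul, inv_smul_smul] using h.lns (mul_mem a (inv_mem (K.σ_mem γ))) (K.smul γ N b)

/-- The data for the combinatorial part. -/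
noncomputable def mc (K : Cap Γ) (W : Fuchs K.G) (h : K.Is W) : MC.Cap K.G where
  σ := W.σ
  O := W.Or
  Y := W.fu
  C := K.core
  res _ := rfl
  idx _ _ := W.mul_or
  sq _ a := W.sq_ne fun e => a (e ▸ one_mem _)
  per := W.per_smul
  lam := h.lam
  smul γ _ a := h.app γ ▸ core_smul γ.2 a
  glide := by
    rintro _ ⟨g, a, N, b, rfl⟩
    refine ⟨⟨g * K.κ N * g⁻¹, mul_mem (mul_mem a (K.κ_mem b)) (inv_mem a)⟩, ?_⟩
    simp only [h.app, mul_smul, inv_smul_smul, κ_rev b, smul_neg]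
  off m a := by
    rcases core_or a with d | d | ⟨M, d, e⟩
    · exact (K.Y.per_o _ (K.sub d)).ne'
    · simpa using (K.Y.per_o _ (K.sub d)).ne'
    · have := K.Y.per_o _ (K.sub d)
      intro k
      rcases e with e | e <;> have := e.2 o H2_o.fut <;> simp [k] at this <;> linarith
  tile γ a := by
    obtain ⟨n, x, w⟩ := exists_wd γ.2
    cases x with
    | none =>
      obtain ⟨-, δ, e⟩ := w.none
      exact (Subtype.ext e : γ = K.ι δ) ▸ h.ι δ
    | some N =>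
      exact absurd (a N ⟨1, one_mem _, N, w.mem, by simp only [one_smul]⟩ (K.Y.per_o N (K.sub w.mem)))
        (by rw [h.app]; exact not_le.2 w.neg_o)

/-- A line inside the tile is far from its translates outside the group of the tile. -/
theorem Is.simple (h : K.Is W) (u : Bf E E = 1) (a : ∀ M ∈ K.C, Pm E M)
    (b : ∀ γ : W.Or, ¬ Cr E (W.σ γ • E)) (γ : K.G) : ¬ Cr E (W.σ γ • E) ∧ W.σ γ • E ≠ -E := by
  rcases ins_or γ.2 a with ⟨δ, e⟩ | ⟨N, c, d⟩
  · obtain rfl : γ = K.ι δ := Subtype.ext e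
    exact ⟨b ⟨_, h.ι δ⟩, H84.Fu.fix_neg (S := W.fu) (g := ⟨_, h.ι δ⟩) u⟩
  · have := not_of_far (B := W.σ γ • E) (by
      rw [Bf_comm, h.app]; exact d.far2 (a N c) (by simpa using u) u) u
    exact ⟨this.1, this.2.2⟩

theorem pm_per {Y : MC.Fuchs Γ} (a : Y.Curve E) (b : N ∈ Y.per) : Pm E N := by
  obtain ⟨α, c, d⟩ := a.ax
  obtain ⟨γ, l⟩ := H84.exists_pl' d.1
  refine pm_of d.1 (per_unit Y b) ?_ (l.h2 0) (l.on 0) (Y.ax_core c d (l.h2 0) (l.on 0) b)
  rcases H84.Fu.Ax.tri (S := Y) a.ax (Y.per_ax N b) with e | e | e | e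
  · exact (H84.Fu.Ax.not_cr_per (S := Y) a.ax b e).elim
  · exact (a.pos (e ▸ b)).elim
  · exact (a.neg (e ▸ b)).elim
  · exact e

/-- A curve of the tile is a curve inside a piece. -/
theorem two (h : K.Is W) (a : K.Y.Curve E) : (K.mc W h).Two E := by
  have u := H84.Fu.Ax.unit (S := K.Y) a.ax
  have b : ∀ M ∈ K.C, Pm E M := fun M m => pm_per a (K.sub m)
  have key : ∀ g ∈ K.G, ∀ N ∈ K.Y.per, ¬ Cr E (g • N) ∧ g • N ≠ E ∧ g • N ≠ -E := fun g c N d => by
    refine not_of_far ?_ u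
    rw [Bf_comm, Bf_move, Bf_comm]
    rcases ins_or (inv_mem c) b with ⟨δ, e⟩ | ⟨M, e, k⟩
    · rw [e, ← Bf_isom (K.Y.σ δ⁻¹), ← mul_smul, ← map_mul, inv_mul_cancel, map_one, one_smul]
      exact (pm_per a (K.Y.per_smul _ N d)).far u (per_unit K.Y (K.Y.per_smul _ N d))
    · exact far_of e d k (by simpa using u)
  refine ⟨⟨h.ax a.ax, fun γ => ?_, ?_, ?_⟩, ?_, ?_⟩
  · change ¬ Cr E (W.σ γ • E)
    rw [h.app]
    rcases ins_or γ.1.2 b with ⟨δ, e⟩ | ⟨N, c, d⟩
    · exact e ▸ a.simple δ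
    · exact (not_of_far (by rw [Bf_comm]; exact d.far2 (b N c) (by simpa using u) u) u).1
  · change E ∉ W.per
    rw [h.per]
    exact fun ⟨g, c, N, d, _, e⟩ => (key g c N d).2.1 e.symm
  · change -E ∉ W.per
    rw [h.per]
    exact fun ⟨g, c, N, d, _, e⟩ => (key g c N d).2.2 e.symm
  · exact fun ⟨g, c, N, d, e⟩ => (key g c N (K.sub d)).2.1 e.symm
  · exact fun _ ⟨g, c, N, d, e⟩ => e ▸ (key g c N (K.sub d)).1

/-- A curve inside a piece is simple and two sided. -/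
theorem curve (h : K.Is W) (a : (K.mc W h).Two E) : W.Curve E := by
  obtain ⟨α, a1, a2⟩ := a.curve.ax
  obtain ⟨l, hl⟩ := H84.exists_pl' a2.1
  obtain ⟨g, b, c⟩ := K.fold (hl.h2 0)
  have u : Bf (g • E) (g • E) = 1 := by simpa using a2.1
  have key := h.simple u (fun M m => by
    have k : g⁻¹ • M ∈ K.core := ⟨_, inv_mem b, M, m, rfl⟩
    refine pm_of u (unit m) ?_ ((hl.h2 0).smul g) (by simpa using hl.on 0) (c M m)
    rw [Bf_move]
    rcases H84.Fu.Ax.tri (S := W.fu) a.curve.ax (h.lam.ax _ k) with e | e | e | e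
    · exact (a.nc _ k e).elim
    · exact (a.notMem (e ▸ k)).elim
    · exact (a.notMem (show E ∈ K.core by simpa [e] using h.lam.neg _ k)).elim
    · exact e) fun γ => by
    have m : (⟨g, b⟩ : K.G)⁻¹ * γ * ⟨g, b⟩ ∈ W.Or :=
      (inferInstance : W.Or.Normal).conj_mem' γ.1 γ.2 ⟨g, b⟩
    have : ¬ Cr E (W.σ ((⟨g, b⟩ : K.G)⁻¹ * γ * ⟨g, b⟩) • E) := a.curve.simple ⟨_, m⟩
    rw [cr_move]
    simpa only [h.app, Subgroup.coe_mul, InvMemClass.coe_inv, mul_smul] using this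
  have key' : ∀ γ, ¬ Cr E (W.σ γ • E) ∧ W.σ γ • E ≠ -E := fun γ => by
    simpa only [h.app, ne_eq, Subgroup.coe_mul, InvMemClass.coe_inv, mul_smul, inv_smul_smul, cr_isom, ← smul_neg, smul_left_cancel_iff] using key (⟨g, b⟩ * γ * ⟨g, b⟩⁻¹)
  exact ⟨⟨α, fun e => a1 (Subtype.ext e), a2⟩, fun γ => (key' γ).1, fun γ => (key' γ).2,
    a.curve.pos, a.curve.neg⟩

end Pool.Agent.MP_646035_al.NO.Cap

/-!
A pair of pants with one or two cross caps.
-/

namespace Pool.Agent.MP_646035_al.NO.Cap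

open Pool.Agent.MP_4a6971_al.H66 MC Subgroup

variable {Γ : Type} [Group Γ] {K : Cap Γ} {W : Fuchs K.G} {x y z : Γ} {N N₁ N₂ N₃ : V}

theorem low_root (h : K.Is W) (a : N ∈ K.C) (s : ∀ δ, K.Y.σ δ • N = N ↔ δ ∈ zpowers x) :
    ∃ k : K.G, k ∉ W.Or ∧ k * k = K.ι x ∧ ⟨K.κ N, K.κ_mem a⟩ ∈ zpowers k := by
  obtain ⟨γ, b, c, d⟩ := K.sq N a
  have e : (⟨K.κ N, K.κ_mem a⟩ : K.G) * ⟨K.κ N, K.κ_mem a⟩ = K.ι γ := Subtype.ext b.symm
  have f : ¬ IsOfFinOrder γ := fun f => by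
    obtain ⟨n, p, q⟩ := isOfFinOrder_iff_pow_eq_one.1 f
    exact (K.gl N a).sq.zpow_ne_one (k := n) (by omega)
      (by rw [← b, zpow_natCast, ← map_pow, q, map_one])
  rcases (zpowers_eq_zpowers_iff f).1 (le_antisymm (zpowers_le.2 ((s γ).1 c))
    (zpowers_le.2 (d x ((s x).2 (mem_zpowers x))))) with rfl | rfl
  · exact ⟨_, h.κ a, e, mem_zpowers _⟩
  · exact ⟨(⟨K.κ N, K.κ_mem a⟩ : K.G)⁻¹, fun m => h.κ a (inv_mem_iff.1 m),
      by rw [← mul_inv_rev, e, map_inv], by rw [zpowers_inv]; exact mem_zpowers _⟩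

theorem low_peri (h : K.Is W) (a : N ∈ K.Y.per) (b : N ∉ K.C)
    (s : ∀ δ, K.Y.σ δ • N = N ↔ δ ∈ zpowers x) {γ : Γ} (e : γ = x ∨ γ = x⁻¹) :
    (K.mc W h).Peri (K.ι γ) := by
  obtain ⟨δ, c, d⟩ := K.Y.per_ax N a
  have n : x ≠ 1 := fun f => c (by simpa [f] using (s δ).1 d.2)
  refine ⟨σ_ne (by rcases e with rfl | rfl <;> simpa), N, ?_, (congrArg (· • N) (h.app _)).trans
    ((s γ).2 (by rcases e with rfl | rfl <;> simp))⟩
  change N ∈ W.per
  exact h.per ▸ ⟨1, one_mem _, N, a, b, by simp⟩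

theorem low_top {H : Subgroup K.G} (t : closure {x, y} = ⊤) (a : K.ι x ∈ H) (b : K.ι y ∈ H)
    (c : ∀ N ∈ K.C, ∃ γ M, ∃ m' : M ∈ K.C, N = K.Y.σ γ • M ∧ ⟨K.κ M, K.κ_mem m'⟩ ∈ H) :
    H = ⊤ := by
  have k : ∀ γ, K.ι γ ∈ H := fun γ =>
    (closure_le (H.comap K.ι)).2 (by rintro _ (rfl | rfl) <;> assumption) (t ▸ mem_top γ)
  refine eq_top_iff.2 fun g _ => ?_
  obtain ⟨g', p, q⟩ := (closure_le (H.map K.G.subtype)).2 (by
    rintro _ (⟨γ, rfl⟩ | ⟨N, m, rfl⟩)
    · exact ⟨_, k γ, rfl⟩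
    · obtain ⟨γ, M, m', rfl, d⟩ := c N m
      exact ⟨_, mul_mem (mul_mem (k γ) d) (inv_mem (k γ)), (K.eqv γ M m').symm⟩) g.2
  exact (Subtype.ext q : g' = g) ▸ p

/-- The data of `Pants3`. -/
def LowP (K : Cap Γ) (x y z : Γ) (N₁ N₂ N₃ : V) : Prop :=
  x * y * z = 1 ∧ closure {x, y} = ⊤ ∧
    N₁ ∈ K.Y.per ∧ N₂ ∈ K.Y.per ∧ N₃ ∈ K.Y.per ∧ (∀ δ, K.Y.σ δ • N₁ = N₁ ↔ δ ∈ zpowers x) ∧
    (∀ δ, K.Y.σ δ • N₂ = N₂ ↔ δ ∈ zpowers y) ∧ (∀ δ, K.Y.σ δ • N₃ = N₃ ↔ δ ∈ zpowers z) ∧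
    ∀ N ∈ K.Y.per, ∃ γ, N = K.Y.σ γ • N₁ ∨ N = K.Y.σ γ • N₂ ∨ N = K.Y.σ γ • N₃

theorem LowP.rot (p : K.LowP x y z N₁ N₂ N₃) : K.LowP y z x N₂ N₃ N₁ := by
  obtain ⟨a, b, c, d, e, f, g, h, i⟩ := p
  have k : x = (y * z)⁻¹ := eq_inv_of_mul_eq_one_left (by rwa [← mul_assoc])
  refine ⟨by rw [k, mul_inv_cancel], eq_top_iff.2 (b ▸ (closure_le _).2 ?_), d, e, c, g, h, f,
    fun N m => (i N m).imp fun _ => or_rotate.1⟩
  rintro _ (rfl | rfl)
  · exact k ▸ inv_mem (mul_mem (subset_closure (by simp)) (subset_closure (by simp)))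
  · exact subset_closure (by simp)

theorem low_mem {γ : Γ} (h : K.Y.σ γ • N ∈ K.C) : N ∈ K.C := by simpa only [map_inv, inv_smul_smul] using K.smul γ⁻¹ _ h

theorem LowP.lowA (h : K.Is W) (p : K.LowP x y z N₁ N₂ N₃) (a : N₁ ∈ K.C) (b : N₂ ∉ K.C)
    (c : N₃ ∉ K.C) : (K.mc W h).LowA := by
  obtain ⟨e, t, -, p2, p3, s1, s2, s3, i⟩ := p
  obtain ⟨k, k1, k2, k3⟩ := low_root h a s1
  have m : k ∈ closure {k, K.ι y} := subset_closure (by simp)
  refine ⟨k, K.ι y, k1, h.ι y, low_top t (k2 ▸ mul_mem m m) (subset_closure (by simp))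
    fun N n => ?_, low_peri h p2 b s2 (Or.inl rfl), ?_⟩
  · obtain ⟨γ, rfl | rfl | rfl⟩ := i N (K.sub n)
    exacts [⟨γ, _, a, rfl, zpowers_le.2 m k3⟩, (b (low_mem n)).elim, (c (low_mem n)).elim]
  · rw [k2, ← map_mul]
    exact low_peri h p3 c s3 (Or.inr (eq_inv_of_mul_eq_one_left e))

theorem LowP.lowB (h : K.Is W) (p : K.LowP x y z N₁ N₂ N₃) (a : N₁ ∈ K.C) (b : N₂ ∈ K.C)
    (c : N₃ ∉ K.C) : (K.mc W h).LowB := by
  obtain ⟨e, t, -, -, p3, s1, s2, s3, i⟩ := p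
  obtain ⟨k, k1, k2, k3⟩ := low_root h a s1
  obtain ⟨l, l1, l2, l3⟩ := low_root h b s2
  have m : k ∈ closure {k, l} := subset_closure (by simp)
  have m' : l ∈ closure {k, l} := subset_closure (by simp)
  refine ⟨k, l, k1, l1, low_top t (k2 ▸ mul_mem m m) (l2 ▸ mul_mem m' m') fun N n => ?_, ?_⟩
  · obtain ⟨γ, rfl | rfl | rfl⟩ := i N (K.sub n)
    exacts [⟨γ, _, a, rfl, zpowers_le.2 m k3⟩, ⟨γ, _, b, rfl, zpowers_le.2 m' l3⟩,
      (c (low_mem n)).elim]
  · rw [k2, l2, ← map_mul]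
    exact low_peri h p3 c s3 (Or.inr (eq_inv_of_mul_eq_one_left e))

theorem low (h : K.Is W) (p : K.Y.Pants3) (a : K.C.Nonempty) (b : ∃ N ∈ K.Y.per, N ∉ K.C) :
    (K.mc W h).LowA ∨ (K.mc W h).LowB := by
  obtain ⟨x, y, z, N₁, N₂, N₃, p⟩ := p
  have q : K.LowP x y z N₁ N₂ N₃ := p
  have i := p.2.2.2.2.2.2.2.2
  by_cases a1 : N₁ ∈ K.C <;> by_cases a2 : N₂ ∈ K.C <;> by_cases a3 : N₃ ∈ K.C
  · obtain ⟨N, c, d⟩ := b
    obtain ⟨γ, rfl | rfl | rfl⟩ := i N c <;> exact (d (K.smul γ _ ‹_›)).elim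
  · exact Or.inr (q.lowB h a1 a2 a3)
  · exact Or.inr (q.rot.rot.lowB h a3 a1 a2)
  · exact Or.inl (q.lowA h a1 a2 a3)
  · exact Or.inr (q.rot.lowB h a2 a3 a1)
  · exact Or.inl (q.rot.lowA h a2 a3 a1)
  · exact Or.inl (q.rot.rot.lowA h a3 a1 a2)
  · obtain ⟨N, c⟩ := a
    obtain ⟨γ, rfl | rfl | rfl⟩ := i N (K.sub c) <;> exact absurd (low_mem c) ‹_›

end Pool.Agent.MP_646035_al.NO.Cap
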