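import Pool.Agent.MP_646035_al.MC.Iface
import Pool.Agent.MP_4a6971_al.H83.Klein

attribute [-instance] Submonoid.instSMulSubtypeMem SMulWithZero.toSMulZeroClass
  GradedMonoid.GradeZero.mulAction MonTypeEquivalenceMon.monMonoid
  NonUnitalRingHomClass.toMulHomClass Module.toDistribMulAction MulActionWithZero.toMulAction
  SubgroupClass.toCommGroup DivisionSemiring.toSemiring Algebra.toSMul SubringClass.toRing
  SubsemiringClass.toCommSemiring SubNegMonoid.toAddMonoid ESeminormedAddCommMonoid.toAddCommMonoid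
  AddQuantale.instAddLeftMono Prod.mulAction NonUnitalAlgSemiHomClass.toMulHomClass
  AddMonoidWithOne.toAddMonoid Subgroup.toCommGroup instSMulZeroClass
  ESeminormedAddMonoid.toAddMonoid SetLike.GradeZero.instCommSemiring
  CommGrpTypeEquivalenceCommGrp.commGrpCommGroup SetLike.GradeZero.instMonoid
  MulSemiringAction.toDistribMulAction MonoidWithZero.toMonoid SetLike.GradeZero.instSemiring
  SetLike.GradeZero.instRing IdemSemiring.toCanonicallyOrderedAdd RKHS.instFunLike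
  SemigroupWithZero.toSemigroup GroupConeClass.toSubmonoidClass IsOrderedRing.toIsStrictOrderedRing
  MonoidWithZero.toMulZeroOneClass IdemSemiring.toSemiring NormedRing.toRing
  MulDistribMulAction.toMulAction NormedCommRing.toCommRing NonUnitalRing.toNonUnitalNonAssocRing
  NonUnitalNonAssocSemiring.toAddCommMonoid instCommGroupOfIsSimpleGroupOfIsNilpotent
  littleWedderburn SetLike.GradeZero.instCommRing EuclideanDomain.toCommRing NumberField.to_charZero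
  DivisionRing.toRing AddQuantale.instAddRightMono covariant_swap_mul_of_covariant_mul
  SubsemiringClass.toSemiring Valued.toUniformSpace NonAssocSemiring.toNonUnitalNonAssocSemiring
  SeminormedCommRing.toCommRing NonAssocRing.toNonUnitalNonAssocRing
  NonAssocSemiring.toMulZeroOneClass Torsor.toMulAction TotallySeparatedSpace.t2Space
  SeminormedRing.toRing AddCommMonoidWithOne.toAddMonoidWithOne DivisionRing.toDivInvMonoid
  NonUnitalSemiring.toNonUnitalNonAssocSemiring SubsemiringClass.toSubmonoidClass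
  Submonoid.instDistribMulActionSubtypeMem BooleanRing.toRing Quantale.instMulRightMono
  GroupWithZero.toDivisionMonoid CommRing.toRing LieAdmissibleRing.toNonUnitalNonAssocRing
  GroupWithZero.toDivInvMonoid NonUnitalNormedCommRing.toNonUnitalCommRing Prod.distribSMul
  NonUnitalNonAssocCommSemiring.toNonUnitalNonAssocSemiring TestFunctionClass.toDFunLike
  AddRightCancelMonoid.toAddMonoid Quantale.instMulLeftMono ContDiffMapSupportedInClass.toDFunLike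
  IsOrderedMonoid.toMulLeftMono NonUnitalSeminormedCommRing.toNonUnitalCommRing
  GradedMonoid.GradeZero.smul IdemCommSemiring.toCommSemiring SeminormedCommGroup.toCommGroup
  MulZeroOneClass.toMulZeroClass MulAction.instMulAction SemigroupWithZero.toMulZeroClass
  Submonoid.instMulActionSubtypeMem AddCommGroupWithOne.toAddGroupWithOne MulOne.toOne
  CStarAlgebra.instOrderClosedTopology AddCancelCommMonoid.toAddCommMonoid
  GrpTypeEquivalenceGrp.grpGroup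

-- part MP_646035_al.Cx.PK
section

/-!
The kernel of the map to the outer automorphism group meets the balls in polynomially many elements.
-/

namespace Pool.Agent.MP_646035_al.MC

open Set Topology Filter Real Pool.Agent.MP_4a6971_al.H66 Pool.Agent.MP_4a6971_al.H83

theorem pk_fix_E0 {u : Isom} (h : u • E0 = E0) : (∃ τ, u = dil τ) ∨ ∃ P, H2 P ∧ u • P = P := by
  have e : ∀ P : V, u • P =
      P.1 • u • ((1, 0, 0) : V) + P.2.1 • E0 + P.2.2 • u • ((0, 0, 1) : V) := fun P => by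
    rw [← h, ← isom_smul, ← isom_smul, ← isom_smul, ← smul_add, ← smul_add]
    congr 1
    ext <;> simp [E0]
  have a1 := Bf_isom u E0 (1, 0, 0)
  have a2 := Bf_isom u E0 (0, 0, 1)
  have a3 := Bf_isom u (1, 0, 0) (1, 0, 0)
  have a4 := Bf_isom u (0, 0, 1) (0, 0, 1)
  have a5 := Bf_isom u (1, 0, 0) (0, 0, 1)
  have a6 := (H2_o.smul u).2
  rw [h, Bf_E0, Bf_E0] at a1 a2
  rw [e] at a6
  generalize u • ((1, 0, 0) : V) = A at *
  generalize u • ((0, 0, 1) : V) = C at *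
  obtain ⟨x, y, z⟩ := A
  obtain ⟨x', y', z'⟩ := C
  simp only [Bf, o, E0, Prod.fst_add, Prod.smul_fst, smul_eq_mul] at a1 a2 a3 a4 a5 a6
  subst a1 a2
  have b1 : x * z = 0 := by linarith only [a3]
  have b2 : x' * z' = 0 := by linarith only [a4]
  have b3 : x * z' + x' * z = 1 := by linarith only [a5]
  rcases mul_eq_zero.1 b1 with rfl | rfl
  · have b4 : z' = 0 := by linear_combination -z' * b3 + z * b2
    have b5 : 0 < x' := by linarith only [a6]
    have b6 := sqrt_pos.2 b5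
    have b7 := mul_self_sqrt b5.le
    refine Or.inr ⟨(√x', 0, 1 / √x'), H2.of_eq (by field_simp; ring) b6, ?_⟩
    rw [e, b4]
    generalize √x' = r at *
    subst b7
    ext <;> simp only [Prod.smul_mk, smul_eq_mul, mul_zero, E0, zero_smul, add_zero, one_div, Prod.mk_add_mk, zero_add]
    · field_simp
    · field_simp
      linear_combination b3
  · have b4 : x' = 0 := by linear_combination -x' * b3 + x * b2
    have b5 : 0 < x := by linarith only [a6, b4]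
    refine Or.inl ⟨-log x, isom_ext fun P => ?_⟩
    rw [e, dil_smul, neg_neg, exp_neg, exp_log b5, b4]
    ext <;> simp [E0]
    left
    field_simp
    linear_combination b3

theorem pk_free {u : Isom} (h : Hyp u) {P : V} (hP : H2 P) : u • P ≠ P := fun e => by
  obtain ⟨f, t, hf⟩ := h.fr
  have a := congrArg Prod.fst (hf.one P)
  have b := (hP.smul f).2
  rw [e, dil_smul] at a
  have c : exp (-t) < 1 := exp_lt_one_iff.2 (by linarith [hf.pos])
  simp only at a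
  nlinarith only [a, b, c]

/-- The position along the axis of the frame `f`. -/
noncomputable def pkp (f : Isom) (x : X) : ℝ := (log (f • x.1).2.2 - log (f • x.1).1) / 2

/-- The point with given position and height. -/
noncomputable def pkq (f : Isom) (p : ℝ × ℝ) : X :=
  f⁻¹ • ⟨(exp (-p.1) * √(1 + p.2 ^ 2), p.2, exp p.1 * √(1 + p.2 ^ 2)), H2.of_eq (by
    rw [mul_mul_mul_comm, ← exp_add, neg_add_cancel, exp_zero, one_mul,
      mul_self_sqrt (by positivity)]) (by positivity)⟩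

variable {f : Isom} {B : V}

theorem pkp_cont (f : Isom) : Continuous (pkp f) := by
  have h : Continuous fun x : X => f • x.1 := (continuous_isom f).comp continuous_subtype_val
  exact ((h.snd.snd.log fun x => (x.2.smul f).pos.ne').sub
    (h.fst.log fun x => (x.2.smul f).2.ne')).div_const _

theorem pkq_cont (f : Isom) : Continuous (pkq f) :=
  Continuous.const_smul (Continuous.subtype_mk (f := fun p : ℝ × ℝ =>
    ((exp (-p.1) * √(1 + p.2 ^ 2), p.2, exp p.1 * √(1 + p.2 ^ 2)) : V)) (by fun_prop) _) f⁻¹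

theorem pkp_q (f : Isom) (p : ℝ × ℝ) : pkp f (pkq f p) = p.1 := by
  have : √(1 + p.2 ^ 2) ≠ 0 := by positivity
  simp only [pkp, pkq, coe_smul, smul_inv_smul]
  rw [log_mul (exp_ne_zero _) this, log_mul (exp_ne_zero _) this, log_exp, log_exp]
  ring

theorem pk_bf (h : f • B = E0) (x : X) : bf B x = (f • x.1).2.1 := by
  rw [bf, ← Bf_isom f, h, Bf_E0]

theorem bf_pkq (h : f • B = E0) (p : ℝ × ℝ) : bf B (pkq f p) = p.2 := by
  simp only [pk_bf h, pkq, coe_smul, smul_inv_smul]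

theorem pkq_p (h : f • B = E0) (x : X) : pkq f (pkp f x, bf B x) = x := by
  have a := x.2.smul f
  have a1 := a.eq
  have a2 := a.2
  have a3 := a.pos
  rw [pkq, inv_smul_eq_iff, pk_bf h, pkp]
  refine Subtype.ext ?_
  rw [coe_smul]
  generalize f • x.1 = P at *
  obtain ⟨p, q, r⟩ := P
  simp only at *
  have e : √(1 + q ^ 2) = exp ((log r + log p) / 2) := by
    rw [← a1, sqrt_eq_iff_mul_self_eq (by positivity) (by positivity), ← exp_add, add_halves,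
      exp_add, exp_log a2, exp_log a3, mul_comm]
  rw [e, ← exp_add, ← exp_add]
  ext
  · simp only
    rw [← exp_log a2]
    congr 1
    rw [log_exp]
    ring
  · rfl
  · simp only
    rw [← exp_log a3]
    congr 1
    rw [log_exp]
    ring

theorem pkp_dil {u : Isom} {τ : ℝ} (h : ∀ P : V, f • u • P = dil τ • f • P) (x : X) :
    pkp f (u • x) = pkp f x + τ := by
  have a := x.2.smul f
  simp only [pkp, coe_smul, h, dil_smul]
  rw [log_mul a.pos.ne' (exp_ne_zero _), log_mul a.2.ne' (exp_ne_zero _), log_exp, log_exp]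
  ring

/-- Behind an ultraparallel line the position is bounded, and some vertical ray ends there. -/
theorem pk_behind (h : f • B = E0) {N : V} (hN : Bf N N = 1) (h1 : Bf B N < -1)
    (h2 : 0 < Bf B o + Bf N o) : (∃ M, ∀ x, bf N x ≤ 0 → |pkp f x| ≤ M) ∧
      ∃ s b, ∀ b', b ≤ b' → bf N (pkq f (s, b')) ≤ 0 := by
  have hB : Bf B B = 1 := by rw [← Bf_isom f, h, Bf_E0]; rfl
  have k := fun P hP => Bf_add_pos (P := P) hB hN h1 h2 hP
  have k1 := k _ (Fut.smul (P := (1, 0, 0)) (fun Q hQ => by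
    have := hQ.pos
    simp only [ch, Bf]
    linarith only [this]) f⁻¹)
  have k2 := k _ (Fut.smul (P := (0, 0, 1)) (fun Q hQ => by
    have := hQ.2
    simp only [ch, Bf]
    linarith only [this]) f⁻¹)
  have k3 : ∀ x : X, bf N x = Bf (f • N) (f • x.1) := fun x => (Bf_isom f _ _).symm
  rw [← Bf_move, ← Bf_move, h, Bf_E0] at k1 k2
  rw [← Bf_isom f, h, Bf_E0] at h1
  rw [← Bf_isom f] at hN
  generalize f • N = A at *
  obtain ⟨x, y, z⟩ := A
  simp only [Bf] at k1 k2 h1 hN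
  have hx : 0 < -x := by linarith only [k2]
  have hz : 0 < -z := by linarith only [k1]
  constructor
  · refine ⟨|log (4 * y ^ 2 / x ^ 2)| + |log (4 * y ^ 2 / z ^ 2)|, fun P hP => ?_⟩
    have a := P.2.smul f
    have a1 := a.eq
    have a2 := a.2
    have a3 := a.pos
    rw [k3] at hP
    rw [pkp]
    generalize f • P.1 = Q at *
    obtain ⟨p, q, r⟩ := Q
    simp only [Bf] at *
    have hy : 0 < y ^ 2 := by nlinarith only [h1]
    have hx2 : 0 < x ^ 2 := by nlinarith only [k2]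
    have hz2 : 0 < z ^ 2 := by nlinarith only [k1]
    have b0 : (-x * r + -z * p) ^ 2 ≤ (2 * y * q) ^ 2 := by
      rw [show (2 * y * q) ^ 2 = (-(2 * y * q)) ^ 2 by ring]
      exact pow_le_pow_left₀ (by positivity) (by linarith only [hP]) 2
    have b1 : (2 * y * q) ^ 2 ≤ 4 * y ^ 2 * (p * r) := by nlinarith only [a1]
    have b2 : 0 < -x * r * (-z * p) := by positivity
    have b3 : r ≤ 4 * y ^ 2 / x ^ 2 * p := by
      rw [div_mul_eq_mul_div, le_div_iff₀ hx2]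
      refine le_of_mul_le_mul_right ?_ a3
      linarith only [sq_nonneg (-z * p), b0, b1, b2]
    have b4 : p ≤ 4 * y ^ 2 / z ^ 2 * r := by
      rw [div_mul_eq_mul_div, le_div_iff₀ hz2]
      refine le_of_mul_le_mul_right ?_ a2
      linarith only [sq_nonneg (-x * r), b0, b1, b2]
    have b5 := log_le_log a3 b3
    have b6 := log_le_log a2 b4
    rw [log_mul (by positivity) a2.ne'] at b5
    rw [log_mul (by positivity) a3.ne'] at b6
    have b7 := le_abs_self (log (4 * y ^ 2 / x ^ 2))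
    have b8 := le_abs_self (log (4 * y ^ 2 / z ^ 2))
    have b9 := abs_nonneg (log (4 * y ^ 2 / x ^ 2))
    have b10 := abs_nonneg (log (4 * y ^ 2 / z ^ 2))
    rw [abs_le]
    constructor <;> linarith only [b5, b6, b7, b8, b9, b10]
  · obtain ⟨w, w0, hw⟩ : ∃ w : ℝ, 0 < w ∧ w * w = x * z :=
      ⟨√(x * z), sqrt_pos.2 (by nlinarith only [hN, h1]), mul_self_sqrt (by nlinarith only [hN, h1])⟩
    refine ⟨log (w / -x), -y, fun b hb => ?_⟩
    rw [k3]
    simp only [pkq, coe_smul, smul_inv_smul, Bf]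
    rw [exp_neg, exp_log (by positivity)]
    have c1 : x * (w / -x * √(1 + b ^ 2)) = -(w * √(1 + b ^ 2)) := by
      have := hx.ne'
      have : x ≠ 0 := by linarith only [k2]
      field_simp
    have c2 : (w / -x)⁻¹ * √(1 + b ^ 2) * z = -(w * √(1 + b ^ 2)) := by
      have : x ≠ 0 := by linarith only [k2]
      field_simp
      linear_combination hw
    have c3 : w * √(1 + b ^ 2) ≤ -y * b := by
      refine abs_le_of_sq_le_sq' ?_ (by nlinarith only [h1, hb]) |>.2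
      rw [mul_pow, sq_sqrt (by positivity)]
      nlinarith only [hN, h1, hw, hb]
    rw [c1, c2]
    linarith only [c3]

variable {Γ : Type} [Group Γ] (Y : Fuchs Γ)

theorem Fuchs.pk_free {γ : Γ} {x : X} (h : Y.σ γ • x = x) : γ = 1 :=
  by_contra fun h1 => MC.pk_free (Y.hyp γ h1) x.2 (congrArg Subtype.val h)

theorem Fuchs.pk_cancel {γ δ : Γ} {x : X} (h : Y.σ γ • x = Y.σ δ • x) : γ = δ :=
  (inv_mul_eq_one.1 (Y.pk_free (γ := δ⁻¹ * γ) (x := x) (by
    rw [map_mul, mul_smul, h, map_inv, inv_smul_smul]))).symm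

theorem Fuchs.pk_proper (x y : X) (R : ℝ) : {γ | cd x (Y.σ γ • y) ≤ R}.Finite := by
  refine (Y.proper (2 * cd x oX * (2 * R * cd y oX))).subset fun w hw => ?_
  replace hw : cd x (Y.σ w • y) ≤ R := hw
  change cd oX (Y.σ w • oX) ≤ _
  refine (cd_tri _ x _).trans ?_
  have a := one_le_cd x oX
  have b := one_le_cd y oX
  gcongr
  refine (cd_tri _ (Y.σ w • y) _).trans ?_
  rw [cd_smul, cd_comm]
  gcongr

/-- Two maps with the same projection differ by one deck transformation on a connected set. -/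
theorem Fuchs.pk_deck {Z : Type*} [TopologicalSpace Z] {S : Set Z} (hS : IsPreconnected S)
    {u v : Z → X} (hu : Continuous u) (hv : Continuous v)
    (h : ∀ z ∈ S, ∃ γ, v z = Y.σ γ • u z) : ∃ γ, ∀ z ∈ S, v z = Y.σ γ • u z := by
  rcases S.eq_empty_or_nonempty with rfl | ⟨z₀, h0⟩
  · exact ⟨1, by simp only [mem_empty_iff_false, map_one, one_smul, IsEmpty.forall_iff, implies_true]⟩
  obtain ⟨γ₀, e0⟩ := h z₀ h0
  refine ⟨γ₀, fun z hz => (hS.induction₂' (fun z z' => ∀ γ, v z = Y.σ γ • u z → v z' = Y.σ γ • u z')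
    (fun a ha => ?_) (fun _ _ _ _ _ _ p q γ e => q γ (p γ e)) h0 hz) γ₀ e0⟩
  obtain ⟨γ, e⟩ := h a ha
  have k1 : ∀ᶠ y in 𝓝 a, cd (v y) (v a) < 2 ∧ cd (u y) (u a) < 2 :=
    ((Continuous.cd' hv continuous_const).continuousAt.eventually_lt continuousAt_const
      (by simp [cd_self])).and ((Continuous.cd' hu continuous_const).continuousAt.eventually_lt
        continuousAt_const (by simp [cd_self]))
  have k2 : ∀ᶠ y in 𝓝 a, ∀ δ ∈ {δ | cd (v a) (Y.σ δ • u a) ≤ 8}, δ ≠ γ → v y ≠ Y.σ δ • u y :=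
    (eventually_all_finite (Y.pk_proper _ _ _)).2 fun δ _ => by
      by_cases c : δ = γ
      · simp only [c, ne_eq, not_true_eq_false, IsEmpty.forall_iff, eventually_true]
      · exact ((hv.continuousAt.ne_iff_eventually_ne (hu.const_smul (Y.σ δ)).continuousAt).1
          fun e' => c (Y.pk_cancel (e'.symm.trans e))).mono fun _ p _ => p
  filter_upwards [mem_nhdsWithin_of_mem_nhds k1, mem_nhdsWithin_of_mem_nhds k2,
    self_mem_nhdsWithin] with y ⟨p1, p2⟩ p3 hy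
  obtain ⟨δ, e'⟩ := h y hy
  have : δ = γ := by_contra fun c => p3 δ (by
    refine (cd_tri _ (v y) _).trans ?_
    nth_rewrite 2 [e']
    rw [cd_smul]
    nlinarith only [one_le_cd (u y) (u a), p1, p2]) c e'
  subst this
  exact ⟨fun γ' q => Y.pk_cancel (e.symm.trans q) ▸ e', fun γ' q => Y.pk_cancel (e'.symm.trans q) ▸ e⟩

theorem Fuchs.pk_unit (hB : B ∈ Y.per) : Bf B B = 1 :=
  (Y.per_ax B hB).choose_spec.2.1

theorem Fuchs.pk_shift (h : f • B = E0) {δ : Γ} (hδ : Y.σ δ • B = B) :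
    ∃ τ, ∀ P : V, f • Y.σ δ • P = dil τ • f • P := by
  rcases pk_fix_E0 (u := f * Y.σ δ * f⁻¹) (by rw [← h, mul_smul, mul_smul, inv_smul_smul, hδ]) with
    ⟨τ, e⟩ | ⟨P, hP, e⟩
  · exact ⟨τ, fun P => by rw [← e, mul_smul, mul_smul, inv_smul_smul]⟩
  · rw [mul_smul, mul_smul, ← eq_inv_smul_iff] at e
    rw [Y.pk_free (x := ⟨_, hP.smul f⁻¹⟩) (Subtype.ext e)]
    exact ⟨0, fun P => by simp only [map_one, one_smul, dil_zero]⟩

theorem Fuchs.pk_move (hB : B ∈ Y.per) : ∃ γ, Y.σ γ • B ≠ B := by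
  by_contra! hc
  obtain ⟨α, β, E, F, a, b, c, d, e⟩ := Y.nonel
  have u := Y.pk_unit hB
  rcases (Y.hyp α a).ax_unique ⟨u, hc α⟩ c with rfl | rfl <;>
    rcases (Y.hyp β b).ax_unique ⟨u, hc β⟩ d with h | h <;> rw [h] at e <;>
    exact not_cr_self u (by simpa using e)

theorem Fuchs.pk_behind (hB : B ∈ Y.per) (h : f • B = E0) {N : V} (hN : N ∈ Y.per) (h1 : N ≠ B) :
    (∃ M, ∀ x, bf N x ≤ 0 → |pkp f x| ≤ M) ∧ ∃ s b, ∀ b', b ≤ b' → bf N (pkq f (s, b')) ≤ 0 :=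
  MC.pk_behind h (Y.pk_unit hN) (Y.per_far B hB N hN h1.symm)
    (add_pos (Y.per_o B hB) (Y.per_o N hN))

variable {Y}

/-- An equivariant homeomorphism. -/
def Fuchs.Eqv (Y : Fuchs Γ) (F : X ≃ₜ X) (φ : MulAut Γ) : Prop :=
  ∀ γ x, F (Y.σ γ • x) = Y.σ (φ γ) • F x

theorem Fuchs.Eqv.fix {F : X ≃ₜ X} {φ : MulAut Γ} (hF : Y.Eqv F φ) (h : f • B = E0)
    (h0 : ∀ x, bf B x ≤ 0 → F x = x) {c : Γ} (hc : Y.σ c • B = B) : φ c = c := by
  have a : bf B (pkq f (0, 0)) ≤ 0 := (bf_pkq h _).le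
  refine Y.pk_cancel (x := pkq f (0, 0)) ?_
  rw [← h0 (Y.σ c • _) (by rw [← hc, bf_smul]; exact a), hF, h0 _ a]

/-- A lift that is the identity behind a boundary line displaces points a bounded amount along
this line. -/
theorem Fuchs.Eqv.bdd {F : X ≃ₜ X} {φ : MulAut Γ} (hF : Y.Eqv F φ) (hB : B ∈ Y.per) {c : Γ}
    {t : ℝ} (hf : Fr (Y.σ c) f t) (h : f • B = E0) (hc : Y.σ c • B = B)
    (h0 : ∀ x, bf B x ≤ 0 → F x = x) : ∃ M, ∀ x, |pkp f (F x) - pkp f x| ≤ M := by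
  obtain ⟨γ, hγ⟩ := Y.pk_move hB
  have hp : ∀ y, 0 ≤ bf B y → 0 ≤ bf B (F.symm y) := fun y hy => le_of_not_gt fun c => by
    have := h0 _ c.le
    rw [F.apply_symm_apply] at this
    rw [← this] at c
    linarith only [hy, c]
  have hp' : ∀ y, 0 ≤ bf B y → 0 ≤ bf B (F y) := fun y hy => le_of_not_gt fun c => by
    rw [F.injective (h0 _ c.le)] at c
    linarith only [hy, c]
  obtain ⟨-, s, b, hb⟩ := Y.pk_behind hB h (Y.per_smul γ B hB) hγ
  have e1 : ∀ x, bf (Y.σ γ • B) x ≤ 0 → F x = Y.σ (φ γ) • (Y.σ γ)⁻¹ • x ∧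
      bf B ((Y.σ γ)⁻¹ • x) ≤ 0 := fun x hx => by
    have a : bf B ((Y.σ γ)⁻¹ • x) ≤ 0 := by rwa [← bf_smul (Y.σ γ), smul_inv_smul]
    exact ⟨by rw [← h0 _ a, ← hF, smul_inv_smul], a⟩
  have hφ : Y.σ (φ γ) • B ≠ B := fun e => by
    obtain ⟨a1, a2⟩ := e1 _ (hb b le_rfl)
    have a3 : bf B (F (pkq f (s, b))) ≤ 0 := by rwa [a1, ← e, bf_smul]
    rw [F.injective (h0 _ a3)] at a3
    have := Bf_add_pos (Y.pk_unit hB) (Y.pk_unit (Y.per_smul γ B hB))
      (Y.per_far B hB _ (Y.per_smul γ B hB) hγ.symm)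
      (add_pos (Y.per_o B hB) (Y.per_o _ (Y.per_smul γ B hB))) (pkq f (s, b)).2.fut
    exact absurd this (not_lt.2 (add_nonpos a3 (hb b le_rfl)))
  obtain ⟨⟨M1, hM1⟩, -⟩ := Y.pk_behind hB h (Y.per_smul (φ γ) B hB) hφ
  obtain ⟨M2, hM2⟩ := (isCompact_Icc (a := (0 : ℝ)) (b := b)).exists_bound_of_continuousOn
    (f := fun b' => pkp f (F (pkq f (s, b'))))
    ((pkp_cont f).comp (F.continuous.comp ((pkq_cont f).comp (by fun_prop)))).continuousOn
  obtain ⟨M, m1, m2⟩ : ∃ M, |s| ≤ M ∧ ∀ b', 0 ≤ b' → |pkp f (F (pkq f (s, b')))| ≤ M :=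
    ⟨max |s| (max M1 M2), le_max_left _ _, fun b' hb' => le_max_of_le_right (by
      rcases le_total b' b with c | c
      · exact le_max_of_le_right (hM2 b' ⟨hb', c⟩)
      · obtain ⟨a1, a2⟩ := e1 _ (hb b' c)
        exact le_max_of_le_left (hM1 _ (by rwa [a1, bf_smul])))⟩
  have e2 : ∀ (k : ℤ) (x : X), pkp f (Y.σ (c ^ k) • x) = pkp f x + k * t := fun k =>
    pkp_dil (by rw [map_zpow]; exact hf.eq k)
  have e3 : ∀ k : ℤ, Y.σ (c ^ k) • B = B := fun k => by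
    rw [map_zpow]
    exact IsAx.zpow ⟨Y.pk_unit hB, hc⟩ k
  have m3 : ∀ (k : ℤ) x, 0 ≤ bf B x → pkp f x = s + k * t → |pkp f (F x) - k * t| ≤ M := by
    intro k x a1 a2
    have a3 := m2 _ a1
    have a4 : pkq f (s, bf B x) = Y.σ (c ^ (-k)) • x := by
      rw [← pkq_p h (Y.σ (c ^ (-k)) • x), e2, a2]
      nth_rewrite 2 [← e3 (-k)]
      rw [bf_smul]
      congr 2
      push_cast
      ring
    rw [a4, hF, hF.fix h h0 (e3 _), e2] at a3
    push_cast at a3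
    rwa [neg_mul, ← sub_eq_add_neg] at a3
  have key : ∀ (k : ℤ) (I : Set ℝ), IsPreconnected I → (∀ r ∈ I, M < |r - k * t|) → ∀ x,
      0 ≤ bf B x → pkp f (F x) ∈ I →
        s + k * t ∉ uIcc (pkp f (F x)) (pkp f x) := by
    intro k I i1 i2 x x1 x2 x3
    have a1 := (i1.prod (isPreconnected_Ici (a := (0 : ℝ)))).image
      (fun p => pkp f (F.symm (pkq f p)))
      ((pkp_cont f).comp (F.symm.continuous.comp (pkq_cont f))).continuousOn
    obtain ⟨p, ⟨p1, p2⟩, p3⟩ := a1.ordConnected.uIcc_subset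
      (x := pkp f (F x)) ⟨(pkp f (F x), 0), ⟨x2, self_mem_Ici⟩, by
        have := h0 (pkq f (pkp f (F x), 0)) (bf_pkq h _).le
        simp only
        rw [F.symm_apply_eq.2 this.symm, pkp_q]⟩
      (y := pkp f x) ⟨(pkp f (F x), bf B (F x)), ⟨x2, hp' x x1⟩, by
        simp only
        rw [pkq_p h, F.symm_apply_apply]⟩ x3
    have a2 := m3 k _ (hp _ (by rw [bf_pkq h]; exact p2)) p3
    rw [F.apply_symm_apply, pkp_q] at a2
    exact absurd (i2 _ p1) (not_lt.2 a2)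
  have ht := hf.pos
  have m4 := abs_le.1 m1
  refine ⟨2 * M + t, fun x => ?_⟩
  rcases le_total (bf B x) 0 with x1 | x1
  · rw [h0 x x1, sub_self, abs_zero]
    linarith
  have b1 := Int.floor_le ((pkp f x - s) / t)
  have b2 := Int.lt_floor_add_one ((pkp f x - s) / t)
  rw [le_div_iff₀ ht] at b1
  rw [div_lt_iff₀ ht] at b2
  generalize ⌊(pkp f x - s) / t⌋ = k at b1 b2
  rw [abs_le]
  constructor <;> refine le_of_not_gt fun c => ?_
  · refine key k (Iio (k * t - M)) isPreconnected_Iio (fun r hr => lt_abs.2 (Or.inr ?_)) x x1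
      ?_ (mem_uIcc.2 (Or.inl ⟨?_, ?_⟩))
    · linarith only [mem_Iio.1 hr]
    · rw [mem_Iio]
      linarith
    · linarith
    · linarith
  · refine key (k + 1) (Ioi ((k + 1) * t + M)) isPreconnected_Ioi
      (fun r hr => lt_abs.2 (Or.inl ?_)) x x1 ?_ (mem_uIcc.2 (Or.inr ⟨?_, ?_⟩))
    · push_cast
      linarith [mem_Ioi.1 hr]
    · rw [mem_Ioi]
      linarith
    · push_cast
      linarith
    · push_cast
      linarith

/-- The number of translations along a boundary line grows linearly. -/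
theorem Fuchs.pk_count (Y : Fuchs Γ) {c : Γ} {t : ℝ} (hf : Fr (Y.σ c) f t) (C : ℝ) :
    ∃ K : ℕ, ∀ n : ℕ, ∃ T : Finset Γ, T.card ≤ K * (n + 1) ∧ ∀ δ τ, |τ| ≤ C * (n + 1) →
      (∀ P : V, f • Y.σ δ • P = dil τ • f • P) → δ ∈ T := by
  classical
  have ht := hf.pos
  obtain ⟨L, hL⟩ := exists_nat_ge (C / t + 1)
  have hD := Y.pk_proper (f⁻¹ • oX) (f⁻¹ • oX) (exp t)
  refine ⟨(2 * L + 1) * hD.toFinset.card, fun n => ⟨((Finset.Icc (-(L * (n + 1) : ℕ) : ℤ)
    (L * (n + 1) : ℕ)) ×ˢ hD.toFinset).image fun p => c ^ p.1 * p.2, ?_, fun δ τ h1 h2 => ?_⟩⟩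
  · refine Finset.card_image_le.trans ?_
    rw [Finset.card_product, Int.card_Icc, mul_right_comm]
    refine Nat.mul_le_mul_right _ ?_
    rw [Int.toNat_le]
    push_cast
    linarith only []
  have b1 := Int.floor_le (τ / t)
  have b2 := Int.lt_floor_add_one (τ / t)
  have b3 : |τ / t| ≤ C / t * (n + 1) := by
    rw [abs_div, abs_of_pos ht, div_mul_eq_mul_div]
    gcongr
  have b4 := abs_le.1 b3
  have b5 : (0 : ℝ) ≤ n := n.cast_nonneg
  refine Finset.mem_image.2 ⟨(⌊τ / t⌋, c ^ (-⌊τ / t⌋) * δ), Finset.mem_product.2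
    ⟨Finset.mem_Icc.2 ⟨?_, ?_⟩, hD.mem_toFinset.2 ?_⟩, by simp⟩
  · have : (-(L * (n + 1)) : ℝ) ≤ ⌊τ / t⌋ := by nlinarith only [hL, b2, b4]
    exact_mod_cast this
  · have : (⌊τ / t⌋ : ℝ) ≤ L * (n + 1) := by nlinarith only [hL, b1, b4]
    exact_mod_cast this
  · rw [le_div_iff₀ ht] at b1
    rw [div_lt_iff₀ ht] at b2
    generalize ⌊τ / t⌋ = k at b1 b2
    change ch (f⁻¹ • o) (Y.σ (c ^ (-k) * δ) • f⁻¹ • o) ≤ _
    rw [← ch_isom f, map_mul, mul_smul, map_zpow, hf.eq, h2, smul_inv_smul, ← mul_smul, ← dil_add,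
      ch_o, dil_smul]
    simp only [o, one_mul]
    push_cast
    have c1 : exp (-(-k * t + τ)) ≤ exp t := exp_le_exp.2 (by linarith only [ht, b1])
    have c2 : exp (-k * t + τ) ≤ exp t := exp_le_exp.2 (by linarith only [b2])
    linarith only [c1, c2]

/-- An inner lift that is the identity behind a boundary line. -/
theorem Fuchs.pk_inner (Y : Fuchs Γ) (hB : B ∈ Y.per) {c : Γ} (hc1 : c ≠ 1) (h : f • B = E0)
    (hc : Y.σ c • B = B) : ∃ M₀, ∀ (F : X ≃ₜ X) δ M, Y.Eqv F (MulAut.conj δ) →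
      (∀ x, bf B x ≤ 0 → F x = x) → (∀ x, |pkp f (F x) - pkp f x| ≤ M) →
        ∃ τ, |τ| ≤ M + M₀ ∧ ∀ P : V, f • Y.σ δ • P = dil τ • f • P := by
  obtain ⟨γ, hγ⟩ := Y.pk_move hB
  obtain ⟨⟨M₀, hM⟩, s, b, hb⟩ := Y.pk_behind hB h (Y.per_smul γ B hB) hγ
  refine ⟨2 * M₀, fun F δ M hF h0 h1 => ?_⟩
  have a1 : δ * c * δ⁻¹ = c := hF.fix h h0 hc
  have a2 := IsAx.conj ⟨Y.pk_unit hB, hc⟩ (Y.σ δ)
  rw [← map_inv, ← map_mul, ← map_mul, a1] at a2
  have a3 : Y.σ δ • B = B := ((Y.hyp c hc1).ax_unique ⟨Y.pk_unit hB, hc⟩ a2).resolve_right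
    fun e => by
      have b1 := Y.per_o _ (Y.per_smul δ B hB)
      rw [e, Bf_neg_left] at b1
      linarith only [Y.per_o B hB, b1]
  obtain ⟨τ, hτ⟩ := Y.pk_shift h a3
  refine ⟨τ, ?_, hτ⟩
  have a4 := hb b le_rfl
  generalize pkq f (s, b) = x at a4
  have a5 : bf B ((Y.σ γ)⁻¹ • x) ≤ 0 := by rwa [← bf_smul (Y.σ γ), smul_inv_smul]
  have a6 := hF γ ((Y.σ γ)⁻¹ • x)
  rw [smul_inv_smul, h0 _ a5, MulAut.conj_apply, map_mul, map_mul, mul_smul, mul_smul] at a6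
  have a7 := hM (Y.σ γ • Y.σ δ⁻¹ • (Y.σ γ)⁻¹ • x) (by
    rw [bf_smul, ← bf_smul (Y.σ δ), a3, map_inv, smul_inv_smul]
    exact a5)
  have a8 := h1 x
  rw [a6, pkp_dil hτ] at a8
  have a9 := abs_le.1 (hM x a4)
  rw [abs_le] at a7 a8 ⊢
  constructor <;> linarith only [a7.1, a7.2, a8.1, a8.2, a9]

/-- `F` is a lift of `g` that induces `φ`. -/
structure Fuchs.Lf (Y : Fuchs Γ) {Z : Type} [TopologicalSpace Z] (ϖ : X → Z) (g : Z ≃ₜ Z)
    (F : X ≃ₜ X) (φ : MulAut Γ) : Prop where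
  lift : ∀ x, ϖ (F x) = g (ϖ x)
  act : Y.Eqv F φ

section

variable {Z : Type} [TopologicalSpace Z] {ϖ : X → Z} {g g' : Z ≃ₜ Z} {F F' : X ≃ₜ X}
  {φ φ' : MulAut Γ}

theorem Fuchs.Lf.one : Y.Lf ϖ 1 1 1 := ⟨fun _ => rfl, fun _ _ => rfl⟩

theorem Fuchs.Lf.mul (h : Y.Lf ϖ g F φ) (h' : Y.Lf ϖ g' F' φ') :
    Y.Lf ϖ (g * g') (F * F') (φ * φ') :=
  ⟨fun x => (h.lift _).trans (congrArg g (h'.lift x)),
    fun γ x => (congrArg F (h'.act γ x)).trans (h.act _ _)⟩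

theorem Fuchs.Lf.inv (h : Y.Lf ϖ g F φ) : Y.Lf ϖ g⁻¹ F⁻¹ φ⁻¹ :=
  ⟨fun x => g.eq_symm_apply.2 ((h.lift _).symm.trans (congrArg ϖ (F.apply_symm_apply x))),
    fun γ x => F.symm_apply_eq.2 (by
      rw [h.act, MulAut.apply_inv_self]
      exact congrArg _ (F.apply_symm_apply x).symm)⟩

theorem Fuchs.Lf.deck (hw : ∀ x y, ϖ x = ϖ y ↔ ∃ γ, y = Y.σ γ • x) (h : Y.Lf ϖ g F φ) (δ : Γ) :
    Y.Lf ϖ g (Homeomorph.smul (Y.σ δ) * F) (MulAut.conj δ * φ) :=
  ⟨fun x => ((hw _ _).2 ⟨δ, rfl⟩).symm.trans (h.lift x), fun γ x => by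
    change Y.σ δ • F _ = Y.σ (δ * φ γ * δ⁻¹) • Y.σ δ • F x
    rw [h.act, map_mul, map_mul, map_inv, mul_smul, mul_smul, inv_smul_smul]⟩

/-- Two lifts that induce the same automorphism and fix points are equal. -/
theorem Fuchs.Lf.unique (hw : ∀ x y, ϖ x = ϖ y ↔ ∃ γ, y = Y.σ γ • x) (h : Y.Lf ϖ g F φ)
    (h' : Y.Lf ϖ g F' φ) : F' = F := by
  obtain ⟨δ, e⟩ := Y.pk_deck isPreconnected_univ F.continuous F'.continuous
    fun x _ => (hw _ _).1 ((h.lift x).trans (h'.lift x).symm)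
  have c : ∀ γ, δ * γ * δ⁻¹ = γ := fun γ => by
    obtain ⟨γ, rfl⟩ := φ.surjective γ
    have a := h'.act γ oX
    rw [e _ trivial, e _ trivial, h.act, ← mul_smul, ← mul_smul, ← map_mul, ← map_mul] at a
    rw [Y.pk_cancel a, mul_inv_cancel_right]
  have d : δ = 1 := by_contra fun d => by
    obtain ⟨α, β, E, E', a1, a2, a3, a4, a5⟩ := Y.nonel
    obtain ⟨D, hD⟩ := (Y.hyp δ d).exists_ax
    have k : ∀ α E, α ≠ 1 → IsAx (Y.σ α) E → E = D ∨ E = -D := fun α E a b => by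
      have p := b.conj (Y.σ δ)
      rw [← map_inv, ← map_mul, ← map_mul, c] at p
      exact (Y.hyp δ d).zpow_fix hD b.1 one_ne_zero (by simpa using (Y.hyp α a).ax_unique b p)
    rcases k α E a1 a3 with rfl | rfl <;> rcases k β E' a2 a4 with h | h <;> rw [h] at a5 <;>
      exact not_cr_self hD.1 (by simpa using a5)
  ext1 x
  rw [e x trivial, d, map_one, one_smul]

end

/-- The kernel is polynomially small, given the relative form of Baer's theorem. -/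
theorem polyKer_of_cover {H M G Z ι : Type} [Group H] [Group M] [Group G] [TopologicalSpace Z]
    [Finite ι] (Y : Fuchs Γ) {ϖ : X → Z} (hw : ∀ x y, ϖ x = ϖ y ↔ ∃ γ, y = Y.σ γ • x)
    (r : H →* (Z ≃ₜ Z)) {q : H →* M} (hq : Function.Surjective q) (j : M →* G) (B : ι → V)
    (hB : ∀ i, B i ∈ Y.per) (ex : ∀ h, ∃ F φ, Y.Lf ϖ (r h) F φ)
    (fix : ∀ i h x, bf (B i) x ≤ 0 → r h (ϖ x) = ϖ x)
    (ker : ∀ h F φ, Y.Lf ϖ (r h) F φ → j (q h) = 1 → φ ∈ Inn Γ)
    (baer : ∀ h F, Y.Lf ϖ (r h) F 1 → (∀ i x, bf (B i) x ≤ 0 → F x = x) → q h = 1) :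
    PolyKer j := by
  classical
  intro S
  cases nonempty_fintype ι
  choose c c1 c2 using fun i => Y.per_ax _ (hB i)
  choose f t hf f0 using fun i => (Y.hyp _ (c1 i)).fr0 (c2 i)
  let Q : ι → H → ℝ → Prop := fun i h m => ∃ F φ, Y.Lf ϖ (r h) F φ ∧
    (∀ x, bf (B i) x ≤ 0 → F x = x) ∧ ∀ x, |pkp (f i) (F x) - pkp (f i) x| ≤ m
  have q1 : ∀ i h, ∃ m, Q i h m := fun i h => by
    obtain ⟨F, φ, a⟩ := ex h
    obtain ⟨δ, e⟩ := Y.pk_deck (S := {x | 0 ≤ bf (-B i) x}) (cvx_half _).isPreconnected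
      F.continuous continuous_id fun x hx =>
        (hw _ _).1 ((a.lift x).trans (fix i h x (by simpa only [bf_neg, Left.nonneg_neg_iff, mem_ofPred_eq] using hx)))
    have b : ∀ x, bf (B i) x ≤ 0 → (Homeomorph.smul (Y.σ δ) * F : X ≃ₜ X) x = x :=
      fun x hx => (e x (by simpa only [bf_neg, Left.nonneg_neg_iff, mem_ofPred_eq] using hx)).symm
    obtain ⟨m, hm⟩ := (a.deck hw δ).act.bdd (hB i) (hf i) (f0 i) (c2 i).2 b
    exact ⟨m, _, _, a.deck hw δ, b, hm⟩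
  have q2 : ∀ i h m m', Q i h m → m ≤ m' → Q i h m' := fun i h m m' ⟨F, φ, a, b, c⟩ e =>
    ⟨F, φ, a, b, fun x => (c x).trans e⟩
  have q3 : ∀ i h h' m m', Q i h m → Q i h' m' → Q i (h * h') (m + m') := by
    rintro i h h' m m' ⟨F, φ, a, b, c⟩ ⟨F', φ', a', b', c'⟩
    refine ⟨F * F', φ * φ', map_mul r h h' ▸ a.mul a', fun x hx => ?_, fun x => ?_⟩
    · change F (F' x) = x
      rw [b' x hx, b x hx]
    · exact (abs_sub_le _ _ _).trans (add_le_add (c (F' x)) (c' x))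
  have q4 : ∀ i h m, Q i h m → Q i h⁻¹ m := by
    rintro i h m ⟨F, φ, a, b, c⟩
    refine ⟨F⁻¹, φ⁻¹, map_inv r h ▸ a.inv, fun x hx => F.symm_apply_eq.2 (b x hx).symm,
      fun x => ?_⟩
    have := c (F.symm x)
    rwa [F.apply_symm_apply, abs_sub_comm] at this
  choose u hu using hq
  choose m hm using q1
  obtain ⟨C, C0, hC⟩ : ∃ C : ℝ, 0 ≤ C ∧ ∀ i, ∀ x ∈ S, Q i (u x) C :=
    ⟨∑ i, ∑ x ∈ S, |m i (u x)|, by positivity, fun i x hx => q2 _ _ _ _ (hm i _)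
      ((le_abs_self _).trans ((Finset.single_le_sum (f := fun x => |m i (u x)|)
        (fun _ _ => abs_nonneg _) hx).trans (Finset.single_le_sum
          (f := fun i => ∑ x ∈ S, |m i (u x)|) (fun _ _ => by positivity) (Finset.mem_univ i))))⟩
  have q5 : ∀ n x, x ∈ ball S n → ∃ h, q h = x ∧ ∀ i, Q i h (C * n) := by
    refine ball_induction (fun n x => ∃ h, q h = x ∧ ∀ i, Q i h (C * n))
      ⟨1, map_one q, fun i => ⟨1, 1, map_one r ▸ .one, fun _ _ => rfl, fun x => by simp⟩⟩ ?_ ?_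
    · rintro n x ⟨h, a, b⟩
      exact ⟨h, a, fun i => q2 _ _ _ _ (b i) (by push_cast; linarith)⟩
    · rintro n x y ⟨h, a, b⟩ (hy | hy)
      · exact ⟨h * u y, by rw [map_mul, a, hu], fun i => q2 _ _ _ _ (q3 _ _ _ _ _ (b i) (hC i y hy))
          (by push_cast; linarith)⟩
      · exact ⟨h * (u y⁻¹)⁻¹, by rw [map_mul, map_inv, a, hu, inv_inv], fun i => q2 _ _ _ _
          (q3 _ _ _ _ _ (b i) (q4 _ _ _ (hC i _ hy))) (by push_cast; linarith)⟩
  choose M₀ hM using fun i => Y.pk_inner (hB i) (c1 i) (f0 i) (c2 i).2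
  choose K hK using fun i => Y.pk_count (hf i) (C + |M₀ i|)
  refine ⟨∏ i, K i, Fintype.card ι, fun n => ?_⟩
  choose T T1 T2 using fun i => hK i n
  have q6 : ∀ x : (ball S n ∩ (j.ker : Set M) : Set M), ∃ h, q h = x ∧ ∀ i, ∃ δ ∈ T i, ∃ F,
      Y.Lf ϖ (r h) F (MulAut.conj δ) ∧ ∀ x, bf (B i) x ≤ 0 → F x = x := fun x => by
    obtain ⟨h, a, b⟩ := q5 n x x.2.1
    refine ⟨h, a, fun i => ?_⟩
    obtain ⟨F, φ, b1, b2, b3⟩ := b i
    obtain ⟨δ, rfl⟩ := ker h F φ b1 (a ▸ x.2.2)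
    obtain ⟨τ, d1, d2⟩ := hM i F δ _ b1.act b2 b3
    have := le_abs_self (M₀ i)
    have := abs_nonneg (M₀ i)
    have : (0 : ℝ) ≤ n := n.cast_nonneg
    exact ⟨δ, T2 i δ τ (d1.trans (by nlinarith)) d2, F, b1, b2⟩
  choose h h1 δ h2 F h3 h4 using q6
  calc _ = Nat.card (ball S n ∩ (j.ker : Set M) : Set M) := (Nat.card_coe_set_eq _).symm
    _ ≤ Nat.card (∀ i, T i) := Nat.card_le_card_of_injective (fun x i => ⟨δ x i, h2 x i⟩) ?_
    _ ≤ _ := by
      rw [Nat.card_pi, ← Finset.card_univ, ← Finset.prod_const, ← Finset.prod_mul_distrib]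
      exact Finset.prod_le_prod' fun i _ => by simpa only [Nat.card_eq_fintype_card, Fintype.card_coe] using T1 i
  intro x y e
  have a : ∀ i, Y.Lf ϖ (r ((h x)⁻¹ * h y)) ((F x i)⁻¹ * F y i) 1 := fun i => by
    have := (h3 x i).inv.mul (h3 y i)
    rwa [← map_inv, ← map_mul, show δ x i = δ y i from congrArg Subtype.val (congrFun e i),
      inv_mul_cancel] at this
  obtain ⟨F₀, φ, b⟩ := ex ((h x)⁻¹ * h y)
  obtain ⟨δ₀, rfl⟩ := ker _ _ _ b (by
    rw [map_mul, map_inv, h1, h1, map_mul, map_inv, show j x = 1 from x.2.2,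
      show j y = 1 from y.2.2, inv_one, one_mul])
  have b' := b.deck hw δ₀⁻¹
  rw [← map_mul, inv_mul_cancel, map_one] at b'
  have := baer _ _ b' fun i z hz => by
    rw [(a i).unique hw b']
    change (F x i).symm (F y i z) = z
    rw [h4 y i z hz, (F x i).symm_apply_eq, h4 x i z hz]
  rw [map_mul, map_inv, h1, h1, inv_mul_eq_one] at this
  exact Subtype.ext this

end Pool.Agent.MP_646035_al.MC

end

-- part MP_646035_al.NO.Iface
section

/-!
Convex cocompact groups of translations and glide reflections, and their orientation subgroup.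
-/

namespace Pool.Agent.MP_646035_al.NO

open Pool.Agent.MP_4a6971_al.H66 Pool.Agent.MP_4a6971_al.H83 MC

/-- `u` is a glide reflection. -/
def Gl (u : Isom) : Prop := ∃ (f : Isom) (t : ℝ), 0 < t ∧ u = f⁻¹ * (flp * dil t) * f

/-- The determinant. -/
noncomputable def det : Isom →* ℝˣ := LinearEquiv.det.comp Isom.subtype

theorem flp_mul_dil (t : ℝ) : flp * dil t = dil t * flp :=
  isom_ext fun P => by rw [mul_smul, mul_smul, flp_dil]

theorem flp_mul_flp : flp * flp = 1 := isom_ext fun P => by rw [mul_smul, flp_flp, one_smul]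

theorem det_dil (t : ℝ) : det (dil t) = 1 := by
  have h : ((dil t).1 : V →ₗ[ℝ] V) = (Real.exp (-t) • LinearMap.id).prodMap
      (LinearMap.id.prodMap (Real.exp t • LinearMap.id)) :=
    LinearMap.ext fun Q => (dil_smul t Q).trans (by simp [mul_comm])
  refine Units.ext ?_
  change ((LinearEquiv.det (dil t).1 : ℝˣ) : ℝ) = 1
  rw [LinearEquiv.coe_det, h, LinearMap.det_prodMap, LinearMap.det_prodMap]
  simp only [LinearMap.det_ring, LinearMap.smul_apply, LinearMap.id_coe, id_eq, smul_eq_mul, mul_one, one_mul, ← Real.exp_add, neg_add_cancel, Real.exp_zero]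

theorem det_flp : det flp = -1 := by
  have h : (flp.1 : V →ₗ[ℝ] V) = LinearMap.id.prodMap
      (((-1 : ℝ) • LinearMap.id).prodMap LinearMap.id) :=
    LinearMap.ext fun Q => (flp_smul Q).trans (by simp only [LinearMap.prodMap_apply, LinearMap.id_coe, id_eq, LinearMap.smul_apply, smul_eq_mul, neg_mul, one_mul])
  refine Units.ext ?_
  change ((LinearEquiv.det flp.1 : ℝˣ) : ℝ) = -1
  rw [LinearEquiv.coe_det, h, LinearMap.det_prodMap, LinearMap.det_prodMap, LinearMap.det_smul]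
  simp

theorem det_hyp {u : Isom} (h : Hyp u) : det u = 1 := by
  obtain ⟨f, t, -, rfl⟩ := h
  simp only [map_mul, map_inv, det_dil, mul_one, inv_mul_cancel]

theorem Gl.det {u : Isom} (h : Gl u) : det u = -1 := by
  obtain ⟨f, t, -, rfl⟩ := h
  simp only [map_mul, map_inv, det_flp, det_dil, mul_one, mul_neg, neg_mul, inv_mul_cancel]

theorem Gl.not_det {u : Isom} (h : Gl u) : NO.det u ≠ 1 := by
  rw [h.det]
  intro e
  have := congrArg (fun x : ℝˣ => (x : ℝ)) e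
  norm_num at this

theorem Gl.sq {u : Isom} (h : Gl u) : Hyp (u * u) := by
  obtain ⟨f, t, ht, rfl⟩ := h
  refine ⟨f, t + t, by linarith, ?_⟩
  have : flp * dil t * (flp * dil t) = dil (t + t) := by
    rw [dil_add, mul_assoc, ← mul_assoc (dil t), ← flp_mul_dil, ← mul_assoc, ← mul_assoc,
      flp_mul_flp, one_mul]
  rw [← this]
  group

theorem Gl.conj {u : Isom} (h : Gl u) (w : Isom) : Gl (w * u * w⁻¹) := by
  obtain ⟨f, t, ht, rfl⟩ := h
  exact ⟨f * w⁻¹, t, ht, by group⟩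

/-- A glide reflection reverses the normal of the axis of its square. -/
theorem Gl.neg {u : Isom} (h : Gl u) {E : V} (hE : IsAx (u * u) E) : u • E = -E := by
  have k := h.sq
  obtain ⟨f, t, ht, rfl⟩ := h
  have a : (f⁻¹ * (flp * dil t) * f) • f⁻¹ • E0 = -(f⁻¹ • E0) := by
    rw [mul_smul, smul_inv_smul, mul_smul, mul_smul, ← smul_neg, ← flp_E0]
    simp only [E0, dil_smul, zero_mul]
  have b : IsAx ((f⁻¹ * (flp * dil t) * f) * (f⁻¹ * (flp * dil t) * f)) (f⁻¹ • E0) :=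
    ⟨by simp [Bf_E0]; rfl, by rw [mul_smul, a, smul_neg, a, neg_neg]⟩
  rcases k.ax_unique b hE with rfl | rfl
  · exact a
  · rw [smul_neg, a]

theorem Gl.not_ax {u : Isom} (h : Gl u) {E : V} : ¬ IsAx u E := fun hE => by
  have a := h.neg (E := E) ⟨hE.1, by rw [mul_smul, hE.2, hE.2]⟩
  rw [hE.2] at a
  have b := hE.1
  nth_rewrite 1 [a] at b
  rw [Bf_neg_left, hE.1] at b
  norm_num at b

/-- A discrete group of translations and glide reflections that is cocompact on the convex set cut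
out by the half planes with the inward normals `per`. -/
structure Fuchs (Γ : Type) [Group Γ] where
  σ : Γ →* Isom
  per : Set V
  hyp : ∀ γ, γ ≠ 1 → Hyp (σ γ) ∨ Gl (σ γ)
  proper : ∀ R, {γ | ch o (σ γ • o) ≤ R}.Finite
  per_o : ∀ N ∈ per, 0 < Bf N o
  per_smul : ∀ γ, ∀ N ∈ per, σ γ • N ∈ per
  per_fin : ∃ T : Set V, T.Finite ∧ ∀ N ∈ per, ∃ γ, σ γ • N ∈ T
  per_ax : ∀ N ∈ per, ∃ γ, γ ≠ 1 ∧ IsAx (σ γ) N
  per_far : ∀ N ∈ per, ∀ N' ∈ per, N ≠ N' → Bf N N' < -1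
  cocompact : ∃ R, ∀ P, H2 P → (∀ N ∈ per, 0 ≤ Bf N P) → ∃ γ, ch P (σ γ • o) ≤ R
  nonel : ∃ α β E F, α ≠ 1 ∧ β ≠ 1 ∧ IsAx (σ α) E ∧ IsAx (σ β) F ∧ Cr E F

variable {Γ : Type} [Group Γ]

namespace Fuchs

variable (Y : Fuchs Γ)

theorem hypA {γ : Γ} (h : γ ≠ 1) {E : V} (hE : IsAx (Y.σ γ) E) : Hyp (Y.σ γ) :=
  (Y.hyp γ h).resolve_right fun g => g.not_ax hE

theorem hyp_sq {γ : Γ} (h : γ ≠ 1) : Hyp (Y.σ (γ * γ)) := by
  rw [map_mul]
  refine (Y.hyp γ h).elim ?_ Gl.sq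
  rintro ⟨f, t, ht, e⟩
  exact ⟨f, t + t, by linarith only [ht], by rw [e, dil_add]; group⟩

include Y in
theorem sq_ne {γ : Γ} (h : γ ≠ 1) : γ * γ ≠ 1 := fun e => by
  have := Y.hyp_sq h
  rw [e, map_one] at this
  exact pk_free this H2_o (one_smul _ _)

theorem free {γ : Γ} {x : X} (h : Y.σ γ • x = x) : γ = 1 := by_contra fun e =>
  pk_free (Y.hyp_sq e) x.2 (congrArg Subtype.val (by rw [map_mul, mul_smul, h, h] :
    Y.σ (γ * γ) • x = x))

theorem cancel {γ δ : Γ} (x : X) (h : Y.σ γ • x = Y.σ δ • x) : γ = δ := by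
  have : δ⁻¹ * γ = 1 := Y.free (x := x) (by rw [map_mul, map_inv, mul_smul, h, inv_smul_smul])
  exact (inv_mul_eq_one.1 this).symm

/-- The orientation subgroup. -/
noncomputable def Or : Subgroup Γ := (det.comp Y.σ).ker

theorem mem_or {γ : Γ} : γ ∈ Y.Or ↔ det (Y.σ γ) = 1 := Iff.rfl

instance : Y.Or.Normal := MonoidHom.normal_ker _

theorem hyp_or {γ : Γ} (h : γ ∈ Y.Or) (h1 : γ ≠ 1) : Hyp (Y.σ γ) :=
  (Y.hyp γ h1).resolve_right fun g => g.not_det h

theorem gl_of {γ : Γ} (h : γ ∉ Y.Or) : Gl (Y.σ γ) :=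
  (Y.hyp γ fun e => h (e ▸ one_mem _)).resolve_left fun g => h (det_hyp g)

theorem or_of_ax {γ : Γ} {E : V} (hE : IsAx (Y.σ γ) E) : γ ∈ Y.Or :=
  by_contra fun h => (Y.gl_of h).not_ax hE

theorem mul_or {γ δ : Γ} (h : γ ∉ Y.Or) (h' : δ ∉ Y.Or) : γ * δ ∈ Y.Or := by
  rw [mem_or, map_mul, map_mul, (Y.gl_of h).det, (Y.gl_of h').det]
  simp

/-- Every element is in the orientation subgroup up to one fixed element. -/
theorem exists_rep : ∃ k : Γ, ∀ γ, γ ∈ Y.Or ∨ k * γ ∈ Y.Or ∧ γ * k ∈ Y.Or := by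
  by_cases h : ∀ γ, γ ∈ Y.Or
  · exact ⟨1, fun γ => Or.inl (h γ)⟩
  · obtain ⟨k, hk⟩ := not_forall.1 h
    exact ⟨k, fun γ => (em _).imp id fun a => ⟨Y.mul_or hk a, Y.mul_or a hk⟩⟩

/-- The group of the orientation cover. -/
noncomputable def fu : MC.Fuchs Y.Or where
  σ := Y.σ.comp Y.Or.subtype
  per := Y.per
  hyp γ h := Y.hyp_or γ.2 fun e => h (Subtype.ext e)
  proper R := (Y.proper R).preimage Subtype.val_injective.injOn
  per_o := Y.per_o
  per_smul γ := Y.per_smul γ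
  per_fin := by
    obtain ⟨T, h1, h2⟩ := Y.per_fin
    obtain ⟨k, hk⟩ := Y.exists_rep
    refine ⟨T ∪ (Y.σ k • ·) '' T, h1.union (h1.image _), fun N hN => ?_⟩
    obtain ⟨γ, hγ⟩ := h2 N hN
    rcases hk γ with a | a
    · exact ⟨⟨γ, a⟩, Or.inl hγ⟩
    · exact ⟨⟨_, a.1⟩, Or.inr ⟨_, hγ, by simp [mul_smul]⟩⟩
  per_ax N hN :=
    let ⟨γ, a, b⟩ := Y.per_ax N hN
    ⟨⟨γ, Y.or_of_ax b⟩, fun e => a (congrArg Subtype.val e), b⟩
  per_far := Y.per_far
  cocompact := by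
    obtain ⟨R, hR⟩ := Y.cocompact
    obtain ⟨k, hk⟩ := Y.exists_rep
    have c := one_le_ch H2_o (H2_o.smul (Y.σ k))
    refine ⟨2 * R * ch o (Y.σ k • o), fun P hP h => ?_⟩
    obtain ⟨γ, hγ⟩ := hR P hP h
    have d := one_le_ch hP (H2_o.smul (Y.σ γ))
    rcases hk γ with a | a
    · exact ⟨⟨γ, a⟩, hγ.trans (by nlinarith only [c, hγ, d])⟩
    · refine ⟨⟨_, a.2⟩, (ch_tri hP (H2_o.smul (Y.σ γ)) (H2_o.smul _)).trans ?_⟩
      change 2 * _ * ch _ (Y.σ (γ * k) • o) ≤ _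
      rw [map_mul, mul_smul, ch_isom, ch_comm]
      gcongr
  nonel :=
    let ⟨α, β, E, F, a, b, c, d, e⟩ := Y.nonel
    ⟨⟨α, Y.or_of_ax c⟩, ⟨β, Y.or_of_ax d⟩, E, F, fun e => a (congrArg Subtype.val e),
      fun e => b (congrArg Subtype.val e), c, d, e⟩

@[simp] theorem fu_σ (γ : Y.Or) : Y.fu.σ γ = Y.σ γ := rfl

@[simp] theorem fu_per : Y.fu.per = Y.per := rfl

/-- `E` is a lift of a two sided simple closed geodesic that is not a boundary component. -/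
structure Curve (E : V) : Prop where
  ax : ∃ α, α ≠ 1 ∧ IsAx (Y.σ α) E
  simple : ∀ γ, ¬ Cr E (Y.σ γ • E)
  two : ∀ γ, Y.σ γ • E ≠ -E
  pos : E ∉ Y.per
  neg : -E ∉ Y.per

/-- No translate of `E` meets the segment from `P` to `Q`. -/
def NoWall (E P Q : V) : Prop := ∀ γ, 0 < Bf (Y.σ γ • E) P * Bf (Y.σ γ • E) Q

/-- `φ` is induced by a power of the Dehn twist about `E`. -/
def IsTwist (E : V) (φ : MulAut Γ) : Prop :=
  ∃ τ P Q, τ ≠ 1 ∧ IsAx (Y.σ τ) E ∧ H2 P ∧ H2 Q ∧ 0 < Bf E P ∧ Bf E Q < 0 ∧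
    (∀ γ, Y.σ γ • E ≠ E → Y.σ γ • E ≠ -E → 0 < Bf (Y.σ γ • E) P * Bf (Y.σ γ • E) Q) ∧
    (∀ β, Y.NoWall E P (Y.σ β • P) → φ β = β) ∧
    ∀ β, Y.NoWall E Q (Y.σ β • Q) → φ β = τ * β * τ⁻¹

/-- `φ` is induced by a homeomorphism of the plane. -/
def Real (φ : MulAut Γ) : Prop := ∃ F : X ≃ₜ X, ∀ γ x, F (Y.σ γ • x) = Y.σ (φ γ) • F x

end Fuchs

end Pool.Agent.MP_646035_al.NO

/-!
Cross caps along boundary lines: definitions.
-/

namespace Pool.Agent.MP_646035_al.NO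

open Pool.Agent.MP_4a6971_al.H66 Pool.Agent.MP_4a6971_al.H83 MC

/-- An orientable surface together with glide reflections along some of its boundary lines. -/
structure Cap (Γ : Type) [Group Γ] where
  Y : MC.Fuchs Γ
  C : Set V
  sub : C ⊆ Y.per
  smul : ∀ γ, ∀ N ∈ C, Y.σ γ • N ∈ C
  κ : V → Isom
  gl : ∀ N ∈ C, Gl (κ N)
  sq : ∀ N ∈ C, ∃ γ, Y.σ γ = κ N * κ N ∧ Y.σ γ • N = N ∧
    ∀ δ, Y.σ δ • N = N → δ ∈ Subgroup.zpowers γ
  eqv : ∀ γ, ∀ N ∈ C, κ (Y.σ γ • N) = Y.σ γ * κ N * (Y.σ γ)⁻¹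

variable {Γ : Type} [Group Γ]

namespace Cap

variable (K : Cap Γ)

/-- The fundamental group of the surface with cross caps. -/
def G : Subgroup Isom := Subgroup.closure (Set.range K.Y.σ ∪ K.κ '' K.C)

/-- The tile. -/
def T : Set X := {x | ∀ N ∈ K.C, 0 ≤ bf N x}

/-- The interior of the tile. -/
def T0 : Set X := {x | ∀ N ∈ K.C, 0 < bf N x}

/-- The remaining boundary lines. -/
def per : Set V := {M | ∃ g ∈ K.G, ∃ N ∈ K.Y.per, N ∉ K.C ∧ M = g • N}

theorem σ_mem (γ : Γ) : K.Y.σ γ ∈ K.G := Subgroup.subset_closure (Or.inl ⟨γ, rfl⟩)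

theorem κ_mem {N : V} (h : N ∈ K.C) : K.κ N ∈ K.G := Subgroup.subset_closure (Or.inr ⟨N, h, rfl⟩)

/-- The inclusion of the group of the tile. -/
def ι : Γ →* K.G := K.Y.σ.codRestrict K.G K.σ_mem

/-- `W` is the group `K.G` with the remaining boundary lines. -/
structure Is (W : Fuchs K.G) : Prop where
  σ : W.σ = K.G.subtype
  per : W.per = K.per

end Cap

end Pool.Agent.MP_646035_al.NO

/-!
Homeomorphisms preserve the orientation subgroup.
-/

namespace Pool.Agent.MP_646035_al.NO.Fuchs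

open Set Pool.Agent.MP_4a6971_al.H66 Pool.Agent.MP_4a6971_al.H83 MC

variable {Γ : Type} [Group Γ] {W : Fuchs Γ} {φ : MulAut Γ} {x : Γ}

theorem ori (h : W.Real φ) (hx : x ∈ W.Or) : φ x ∈ W.Or := by
  obtain ⟨F, hF⟩ := h
  by_contra c
  have n1 : φ x ≠ 1 := fun e => c (e ▸ one_mem _)
  have n2 : x ≠ 1 := fun e => n1 (by simp only [e, map_one])
  obtain ⟨E, hE⟩ := (W.hyp_or hx n2).exists_ax
  obtain ⟨f, -, -, hf⟩ := (W.hyp_or hx n2).fr0 hE
  obtain ⟨E', hE'⟩ := (W.gl_of c).sq.exists_ax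
  obtain ⟨R', hR'⟩ := norm_pt (W.gl_of c).sq hE' 0
  obtain ⟨R, hR⟩ := (((isCompact_Dsc oX R').image F.symm.continuous).image
    (f := fun x => bf E x) (by fun_prop)).bddAbove
  have key : ∀ z : X, bf E' (F z) = 0 → bf E z ≤ R := fun z hz => by
    obtain ⟨k, hk⟩ := hR' (F z).1 (F z).2 (le_of_eq (abs_eq_zero.2 hz))
    have e : F (W.σ ((x * x) ^ k) • z) ∈ Dsc oX R' := by
      rw [hF, map_zpow, map_zpow, map_mul, map_mul]
      exact hk
    have := hR ⟨_, ⟨_, e, rfl⟩, rfl⟩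
    simp only [Homeomorph.symm_apply_apply] at this
    rwa [← sq, ← zpow_natCast, ← zpow_mul, map_zpow, ← hE.zpow _, bf_smul] at this
  have pre := preconn_beyond (E := -E) (by simpa using hE.1) (-R)
  have p1 : pkq f (0, R + 1) ∈ {x | bf (-E) x < -R} := by
    rw [mem_ofPred_eq, bf_neg, bf_pkq hf]
    linarith
  generalize pkq f (0, R + 1) = p at p1
  have p2 : W.σ x • p ∈ {x | bf (-E) x < -R} := by rwa [mem_ofPred_eq, ← hE.neg.2, bf_smul]
  have q : bf E' (F (W.σ x • p)) = -bf E' (F p) := by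
    rw [hF, ← bf_smul (W.σ (φ x)) E' (F p), (W.gl_of c).neg hE', bf_neg, neg_neg]
  obtain ⟨z, hz, e⟩ : ∃ z ∈ {x | bf (-E) x < -R}, bf E' (F z) = 0 := by
    rcases le_total (bf E' (F p)) 0 with a | a
    · exact pre.intermediate_value p1 p2 (f := fun x => bf E' (F x)) (by fun_prop)
        ⟨a, by simp only [q]; linarith⟩
    · exact pre.intermediate_value p2 p1 (f := fun x => bf E' (F x)) (by fun_prop)
        ⟨by simp only [q]; linarith, a⟩
  have := key z e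
  simp only [mem_ofPred_eq, bf_neg] at hz
  linarith only [this, hz]

end Pool.Agent.MP_646035_al.NO.Fuchs

/-!
The kernel of the map to the outer automorphism group meets the balls in polynomially many elements.
-/

namespace Pool.Agent.MP_646035_al.NO

open Set Topology Filter Real Pool.Agent.MP_4a6971_al.H66 Pool.Agent.MP_4a6971_al.H83 MC

variable {f : Isom} {B : V}

variable {Γ : Type} [Group Γ] (Y : Fuchs Γ)

theorem Fuchs.pk_proper (x y : X) (R : ℝ) : {γ | cd x (Y.σ γ • y) ≤ R}.Finite := by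
  refine (Y.proper (2 * cd x oX * (2 * R * cd y oX))).subset fun w hw => ?_
  replace hw : cd x (Y.σ w • y) ≤ R := hw
  change cd oX (Y.σ w • oX) ≤ _
  refine (cd_tri _ x _).trans ?_
  have a := one_le_cd x oX
  have b := one_le_cd y oX
  gcongr
  refine (cd_tri _ (Y.σ w • y) _).trans ?_
  rw [cd_smul, cd_comm]
  gcongr

/-- Two maps with the same projection differ by one deck transformation on a connected set. -/
theorem Fuchs.pk_deck {Z : Type*} [TopologicalSpace Z] {S : Set Z} (hS : IsPreconnected S)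
    {u v : Z → X} (hu : Continuous u) (hv : Continuous v)
    (h : ∀ z ∈ S, ∃ γ, v z = Y.σ γ • u z) : ∃ γ, ∀ z ∈ S, v z = Y.σ γ • u z := by
  rcases S.eq_empty_or_nonempty with rfl | ⟨z₀, h0⟩
  · exact ⟨1, by simp only [mem_empty_iff_false, map_one, one_smul, IsEmpty.forall_iff, implies_true]⟩
  obtain ⟨γ₀, e0⟩ := h z₀ h0
  refine ⟨γ₀, fun z hz => (hS.induction₂' (fun z z' => ∀ γ, v z = Y.σ γ • u z → v z' = Y.σ γ • u z')
    (fun a ha => ?_) (fun _ _ _ _ _ _ p q γ e => q γ (p γ e)) h0 hz) γ₀ e0⟩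
  obtain ⟨γ, e⟩ := h a ha
  have k1 : ∀ᶠ y in 𝓝 a, cd (v y) (v a) < 2 ∧ cd (u y) (u a) < 2 :=
    ((Continuous.cd' hv continuous_const).continuousAt.eventually_lt continuousAt_const
      (by simp [cd_self])).and ((Continuous.cd' hu continuous_const).continuousAt.eventually_lt
        continuousAt_const (by simp [cd_self]))
  have k2 : ∀ᶠ y in 𝓝 a, ∀ δ ∈ {δ | cd (v a) (Y.σ δ • u a) ≤ 8}, δ ≠ γ → v y ≠ Y.σ δ • u y :=
    (eventually_all_finite (Y.pk_proper _ _ _)).2 fun δ _ => by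
      by_cases c : δ = γ
      · simp only [c, ne_eq, not_true_eq_false, IsEmpty.forall_iff, eventually_true]
      · exact ((hv.continuousAt.ne_iff_eventually_ne (hu.const_smul (Y.σ δ)).continuousAt).1
          fun e' => c (Y.cancel _ (e'.symm.trans e))).mono fun _ p _ => p
  filter_upwards [mem_nhdsWithin_of_mem_nhds k1, mem_nhdsWithin_of_mem_nhds k2,
    self_mem_nhdsWithin] with y ⟨p1, p2⟩ p3 hy
  obtain ⟨δ, e'⟩ := h y hy
  have : δ = γ := by_contra fun c => p3 δ (by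
    refine (cd_tri _ (v y) _).trans ?_
    nth_rewrite 2 [e']
    rw [cd_smul]
    nlinarith only [one_le_cd (u y) (u a), p1, p2]) c e'
  subst this
  exact ⟨fun γ' q => Y.cancel _ (e.symm.trans q) ▸ e', fun γ' q => Y.cancel _ (e'.symm.trans q) ▸ e⟩

theorem Fuchs.pk_unit (hB : B ∈ Y.per) : Bf B B = 1 :=
  (Y.per_ax B hB).choose_spec.2.1

theorem Fuchs.pk_shift (h : f • B = E0) {δ : Γ} (hδ : Y.σ δ • B = B) :
    ∃ τ, ∀ P : V, f • Y.σ δ • P = dil τ • f • P := by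
  rcases pk_fix_E0 (u := f * Y.σ δ * f⁻¹) (by rw [← h, mul_smul, mul_smul, inv_smul_smul, hδ]) with
    ⟨τ, e⟩ | ⟨P, hP, e⟩
  · exact ⟨τ, fun P => by rw [← e, mul_smul, mul_smul, inv_smul_smul]⟩
  · rw [mul_smul, mul_smul, ← eq_inv_smul_iff] at e
    rw [Y.free (x := ⟨_, hP.smul f⁻¹⟩) (Subtype.ext e)]
    exact ⟨0, fun P => by simp only [map_one, one_smul, dil_zero]⟩

theorem Fuchs.pk_move (hB : B ∈ Y.per) : ∃ γ, Y.σ γ • B ≠ B := by
  by_contra! hc
  obtain ⟨α, β, E, F, a, b, c, d, e⟩ := Y.nonel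
  have u := Y.pk_unit hB
  rcases (Y.hypA a c).ax_unique ⟨u, hc α⟩ c with rfl | rfl <;>
    rcases (Y.hypA b d).ax_unique ⟨u, hc β⟩ d with h | h <;> rw [h] at e <;>
    exact not_cr_self u (by simpa using e)

theorem Fuchs.pk_behind (hB : B ∈ Y.per) (h : f • B = E0) {N : V} (hN : N ∈ Y.per) (h1 : N ≠ B) :
    (∃ M, ∀ x, bf N x ≤ 0 → |pkp f x| ≤ M) ∧ ∃ s b, ∀ b', b ≤ b' → bf N (pkq f (s, b')) ≤ 0 :=
  MC.pk_behind h (Y.pk_unit hN) (Y.per_far B hB N hN h1.symm)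
    (add_pos (Y.per_o B hB) (Y.per_o N hN))

variable {Y}

/-- An equivariant homeomorphism. -/
def Fuchs.Eqv (Y : Fuchs Γ) (F : X ≃ₜ X) (φ : MulAut Γ) : Prop :=
  ∀ γ x, F (Y.σ γ • x) = Y.σ (φ γ) • F x

theorem Fuchs.Eqv.fix {F : X ≃ₜ X} {φ : MulAut Γ} (hF : Y.Eqv F φ) (h : f • B = E0)
    (h0 : ∀ x, bf B x ≤ 0 → F x = x) {c : Γ} (hc : Y.σ c • B = B) : φ c = c := by
  have a : bf B (pkq f (0, 0)) ≤ 0 := (bf_pkq h _).le
  refine Y.cancel (pkq f (0, 0)) ?_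
  rw [← h0 (Y.σ c • _) (by rw [← hc, bf_smul]; exact a), hF, h0 _ a]

/-- A lift that is the identity behind a boundary line displaces points a bounded amount along
this line. -/
theorem Fuchs.Eqv.bdd {F : X ≃ₜ X} {φ : MulAut Γ} (hF : Y.Eqv F φ) (hB : B ∈ Y.per) {c : Γ}
    {t : ℝ} (hf : Fr (Y.σ c) f t) (h : f • B = E0) (hc : Y.σ c • B = B)
    (h0 : ∀ x, bf B x ≤ 0 → F x = x) : ∃ M, ∀ x, |pkp f (F x) - pkp f x| ≤ M := by
  obtain ⟨γ, hγ⟩ := Y.pk_move hB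
  have hp : ∀ y, 0 ≤ bf B y → 0 ≤ bf B (F.symm y) := fun y hy => le_of_not_gt fun c => by
    have := h0 _ c.le
    rw [F.apply_symm_apply] at this
    rw [← this] at c
    linarith only [hy, c]
  have hp' : ∀ y, 0 ≤ bf B y → 0 ≤ bf B (F y) := fun y hy => le_of_not_gt fun c => by
    rw [F.injective (h0 _ c.le)] at c
    linarith
  obtain ⟨-, s, b, hb⟩ := Y.pk_behind hB h (Y.per_smul γ B hB) hγ
  have e1 : ∀ x, bf (Y.σ γ • B) x ≤ 0 → F x = Y.σ (φ γ) • (Y.σ γ)⁻¹ • x ∧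
      bf B ((Y.σ γ)⁻¹ • x) ≤ 0 := fun x hx => by
    have a : bf B ((Y.σ γ)⁻¹ • x) ≤ 0 := by rwa [← bf_smul (Y.σ γ), smul_inv_smul]
    exact ⟨by rw [← h0 _ a, ← hF, smul_inv_smul], a⟩
  have hφ : Y.σ (φ γ) • B ≠ B := fun e => by
    obtain ⟨a1, a2⟩ := e1 _ (hb b le_rfl)
    have a3 : bf B (F (pkq f (s, b))) ≤ 0 := by rwa [a1, ← e, bf_smul]
    rw [F.injective (h0 _ a3)] at a3
    have := Bf_add_pos (Y.pk_unit hB) (Y.pk_unit (Y.per_smul γ B hB))
      (Y.per_far B hB _ (Y.per_smul γ B hB) hγ.symm)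
      (add_pos (Y.per_o B hB) (Y.per_o _ (Y.per_smul γ B hB))) (pkq f (s, b)).2.fut
    exact absurd this (not_lt.2 (add_nonpos a3 (hb b le_rfl)))
  obtain ⟨⟨M1, hM1⟩, -⟩ := Y.pk_behind hB h (Y.per_smul (φ γ) B hB) hφ
  obtain ⟨M2, hM2⟩ := (isCompact_Icc (a := (0 : ℝ)) (b := b)).exists_bound_of_continuousOn
    (f := fun b' => pkp f (F (pkq f (s, b'))))
    ((pkp_cont f).comp (F.continuous.comp ((pkq_cont f).comp (by fun_prop)))).continuousOn
  obtain ⟨M, m1, m2⟩ : ∃ M, |s| ≤ M ∧ ∀ b', 0 ≤ b' → |pkp f (F (pkq f (s, b')))| ≤ M :=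
    ⟨max |s| (max M1 M2), le_max_left _ _, fun b' hb' => le_max_of_le_right (by
      rcases le_total b' b with c | c
      · exact le_max_of_le_right (hM2 b' ⟨hb', c⟩)
      · obtain ⟨a1, a2⟩ := e1 _ (hb b' c)
        exact le_max_of_le_left (hM1 _ (by rwa [a1, bf_smul])))⟩
  have e2 : ∀ (k : ℤ) (x : X), pkp f (Y.σ (c ^ k) • x) = pkp f x + k * t := fun k =>
    pkp_dil (by rw [map_zpow]; exact hf.eq k)
  have e3 : ∀ k : ℤ, Y.σ (c ^ k) • B = B := fun k => by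
    rw [map_zpow]
    exact IsAx.zpow ⟨Y.pk_unit hB, hc⟩ k
  have m3 : ∀ (k : ℤ) x, 0 ≤ bf B x → pkp f x = s + k * t → |pkp f (F x) - k * t| ≤ M := by
    intro k x a1 a2
    have a3 := m2 _ a1
    have a4 : pkq f (s, bf B x) = Y.σ (c ^ (-k)) • x := by
      rw [← pkq_p h (Y.σ (c ^ (-k)) • x), e2, a2]
      nth_rewrite 2 [← e3 (-k)]
      rw [bf_smul]
      congr 2
      push_cast
      ring
    rw [a4, hF, hF.fix h h0 (e3 _), e2] at a3
    push_cast at a3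
    rwa [neg_mul, ← sub_eq_add_neg] at a3
  have key : ∀ (k : ℤ) (I : Set ℝ), IsPreconnected I → (∀ r ∈ I, M < |r - k * t|) → ∀ x,
      0 ≤ bf B x → pkp f (F x) ∈ I →
        s + k * t ∉ uIcc (pkp f (F x)) (pkp f x) := by
    intro k I i1 i2 x x1 x2 x3
    have a1 := (i1.prod (isPreconnected_Ici (a := (0 : ℝ)))).image
      (fun p => pkp f (F.symm (pkq f p)))
      ((pkp_cont f).comp (F.symm.continuous.comp (pkq_cont f))).continuousOn
    obtain ⟨p, ⟨p1, p2⟩, p3⟩ := a1.ordConnected.uIcc_subset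
      (x := pkp f (F x)) ⟨(pkp f (F x), 0), ⟨x2, self_mem_Ici⟩, by
        have := h0 (pkq f (pkp f (F x), 0)) (bf_pkq h _).le
        simp only
        rw [F.symm_apply_eq.2 this.symm, pkp_q]⟩
      (y := pkp f x) ⟨(pkp f (F x), bf B (F x)), ⟨x2, hp' x x1⟩, by
        simp only
        rw [pkq_p h, F.symm_apply_apply]⟩ x3
    have a2 := m3 k _ (hp _ (by rw [bf_pkq h]; exact p2)) p3
    rw [F.apply_symm_apply, pkp_q] at a2
    exact absurd (i2 _ p1) (not_lt.2 a2)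
  have ht := hf.pos
  have m4 := abs_le.1 m1
  refine ⟨2 * M + t, fun x => ?_⟩
  rcases le_total (bf B x) 0 with x1 | x1
  · rw [h0 x x1, sub_self, abs_zero]
    linarith
  have b1 := Int.floor_le ((pkp f x - s) / t)
  have b2 := Int.lt_floor_add_one ((pkp f x - s) / t)
  rw [le_div_iff₀ ht] at b1
  rw [div_lt_iff₀ ht] at b2
  generalize ⌊(pkp f x - s) / t⌋ = k at b1 b2
  rw [abs_le]
  constructor <;> refine le_of_not_gt fun c => ?_
  · refine key k (Iio (k * t - M)) isPreconnected_Iio (fun r hr => lt_abs.2 (Or.inr ?_)) x x1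
      ?_ (mem_uIcc.2 (Or.inl ⟨?_, ?_⟩))
    · linarith [mem_Iio.1 hr]
    · rw [mem_Iio]
      linarith
    · linarith
    · linarith
  · refine key (k + 1) (Ioi ((k + 1) * t + M)) isPreconnected_Ioi
      (fun r hr => lt_abs.2 (Or.inl ?_)) x x1 ?_ (mem_uIcc.2 (Or.inr ⟨?_, ?_⟩))
    · push_cast
      linarith [mem_Ioi.1 hr]
    · rw [mem_Ioi]
      linarith
    · push_cast
      linarith
    · push_cast
      linarith

/-- The number of translations along a boundary line grows linearly. -/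
theorem Fuchs.pk_count (Y : Fuchs Γ) {c : Γ} {t : ℝ} (hf : Fr (Y.σ c) f t) (C : ℝ) :
    ∃ K : ℕ, ∀ n : ℕ, ∃ T : Finset Γ, T.card ≤ K * (n + 1) ∧ ∀ δ τ, |τ| ≤ C * (n + 1) →
      (∀ P : V, f • Y.σ δ • P = dil τ • f • P) → δ ∈ T := by
  classical
  have ht := hf.pos
  obtain ⟨L, hL⟩ := exists_nat_ge (C / t + 1)
  have hD := Y.pk_proper (f⁻¹ • oX) (f⁻¹ • oX) (exp t)
  refine ⟨(2 * L + 1) * hD.toFinset.card, fun n => ⟨((Finset.Icc (-(L * (n + 1) : ℕ) : ℤ)
    (L * (n + 1) : ℕ)) ×ˢ hD.toFinset).image fun p => c ^ p.1 * p.2, ?_, fun δ τ h1 h2 => ?_⟩⟩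
  · refine Finset.card_image_le.trans ?_
    rw [Finset.card_product, Int.card_Icc, mul_right_comm]
    refine Nat.mul_le_mul_right _ ?_
    rw [Int.toNat_le]
    push_cast
    linarith only []
  have b1 := Int.floor_le (τ / t)
  have b2 := Int.lt_floor_add_one (τ / t)
  have b3 : |τ / t| ≤ C / t * (n + 1) := by
    rw [abs_div, abs_of_pos ht, div_mul_eq_mul_div]
    gcongr
  have b4 := abs_le.1 b3
  have b5 : (0 : ℝ) ≤ n := n.cast_nonneg
  refine Finset.mem_image.2 ⟨(⌊τ / t⌋, c ^ (-⌊τ / t⌋) * δ), Finset.mem_product.2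
    ⟨Finset.mem_Icc.2 ⟨?_, ?_⟩, hD.mem_toFinset.2 ?_⟩, by simp⟩
  · have : (-(L * (n + 1)) : ℝ) ≤ ⌊τ / t⌋ := by nlinarith only [hL, b2, b4]
    exact_mod_cast this
  · have : (⌊τ / t⌋ : ℝ) ≤ L * (n + 1) := by nlinarith only [hL, b1, b4]
    exact_mod_cast this
  · rw [le_div_iff₀ ht] at b1
    rw [div_lt_iff₀ ht] at b2
    generalize ⌊τ / t⌋ = k at b1 b2
    change ch (f⁻¹ • o) (Y.σ (c ^ (-k) * δ) • f⁻¹ • o) ≤ _
    rw [← ch_isom f, map_mul, mul_smul, map_zpow, hf.eq, h2, smul_inv_smul, ← mul_smul, ← dil_add,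
      ch_o, dil_smul]
    simp only [o, one_mul]
    push_cast
    have c1 : exp (-(-k * t + τ)) ≤ exp t := exp_le_exp.2 (by linarith only [ht, b1])
    have c2 : exp (-k * t + τ) ≤ exp t := exp_le_exp.2 (by linarith only [b2])
    linarith only [c1, c2]

/-- An inner lift that is the identity behind a boundary line. -/
theorem Fuchs.pk_inner (Y : Fuchs Γ) (hB : B ∈ Y.per) {c : Γ} (hc1 : c ≠ 1) (h : f • B = E0)
    (hc : Y.σ c • B = B) : ∃ M₀, ∀ (F : X ≃ₜ X) δ M, Y.Eqv F (MulAut.conj δ) →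
      (∀ x, bf B x ≤ 0 → F x = x) → (∀ x, |pkp f (F x) - pkp f x| ≤ M) →
        ∃ τ, |τ| ≤ M + M₀ ∧ ∀ P : V, f • Y.σ δ • P = dil τ • f • P := by
  obtain ⟨γ, hγ⟩ := Y.pk_move hB
  obtain ⟨⟨M₀, hM⟩, s, b, hb⟩ := Y.pk_behind hB h (Y.per_smul γ B hB) hγ
  refine ⟨2 * M₀, fun F δ M hF h0 h1 => ?_⟩
  have a1 : δ * c * δ⁻¹ = c := hF.fix h h0 hc
  have a2 := IsAx.conj ⟨Y.pk_unit hB, hc⟩ (Y.σ δ)
  rw [← map_inv, ← map_mul, ← map_mul, a1] at a2
  have a3 : Y.σ δ • B = B := ((Y.hypA hc1 a2).ax_unique ⟨Y.pk_unit hB, hc⟩ a2).resolve_right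
    fun e => by
      have b1 := Y.per_o _ (Y.per_smul δ B hB)
      rw [e, Bf_neg_left] at b1
      linarith only [Y.per_o B hB, b1]
  obtain ⟨τ, hτ⟩ := Y.pk_shift h a3
  refine ⟨τ, ?_, hτ⟩
  have a4 := hb b le_rfl
  generalize pkq f (s, b) = x at a4
  have a5 : bf B ((Y.σ γ)⁻¹ • x) ≤ 0 := by rwa [← bf_smul (Y.σ γ), smul_inv_smul]
  have a6 := hF γ ((Y.σ γ)⁻¹ • x)
  rw [smul_inv_smul, h0 _ a5, MulAut.conj_apply, map_mul, map_mul, mul_smul, mul_smul] at a6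
  have a7 := hM (Y.σ γ • Y.σ δ⁻¹ • (Y.σ γ)⁻¹ • x) (by
    rw [bf_smul, ← bf_smul (Y.σ δ), a3, map_inv, smul_inv_smul]
    exact a5)
  have a8 := h1 x
  rw [a6, pkp_dil hτ] at a8
  have a9 := abs_le.1 (hM x a4)
  rw [abs_le] at a7 a8 ⊢
  constructor <;> linarith only [a7.1, a7.2, a8.1, a8.2, a9]

/-- `F` is a lift of `g` that induces `φ`. -/
structure Fuchs.Lf (Y : Fuchs Γ) {Z : Type} [TopologicalSpace Z] (ϖ : X → Z) (g : Z ≃ₜ Z)
    (F : X ≃ₜ X) (φ : MulAut Γ) : Prop where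
  lift : ∀ x, ϖ (F x) = g (ϖ x)
  act : Y.Eqv F φ

section

variable {Z : Type} [TopologicalSpace Z] {ϖ : X → Z} {g g' : Z ≃ₜ Z} {F F' : X ≃ₜ X}
  {φ φ' : MulAut Γ}

theorem Fuchs.Lf.one : Y.Lf ϖ 1 1 1 := ⟨fun _ => rfl, fun _ _ => rfl⟩

theorem Fuchs.Lf.mul (h : Y.Lf ϖ g F φ) (h' : Y.Lf ϖ g' F' φ') :
    Y.Lf ϖ (g * g') (F * F') (φ * φ') :=
  ⟨fun x => (h.lift _).trans (congrArg g (h'.lift x)),
    fun γ x => (congrArg F (h'.act γ x)).trans (h.act _ _)⟩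

theorem Fuchs.Lf.inv (h : Y.Lf ϖ g F φ) : Y.Lf ϖ g⁻¹ F⁻¹ φ⁻¹ :=
  ⟨fun x => g.eq_symm_apply.2 ((h.lift _).symm.trans (congrArg ϖ (F.apply_symm_apply x))),
    fun γ x => F.symm_apply_eq.2 (by
      rw [h.act, MulAut.apply_inv_self]
      exact congrArg _ (F.apply_symm_apply x).symm)⟩

theorem Fuchs.Lf.deck (hw : ∀ x y, ϖ x = ϖ y ↔ ∃ γ, y = Y.σ γ • x) (h : Y.Lf ϖ g F φ) (δ : Γ) :
    Y.Lf ϖ g (Homeomorph.smul (Y.σ δ) * F) (MulAut.conj δ * φ) :=
  ⟨fun x => ((hw _ _).2 ⟨δ, rfl⟩).symm.trans (h.lift x), fun γ x => by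
    change Y.σ δ • F _ = Y.σ (δ * φ γ * δ⁻¹) • Y.σ δ • F x
    rw [h.act, map_mul, map_mul, map_inv, mul_smul, mul_smul, inv_smul_smul]⟩

/-- Two lifts that induce the same automorphism and fix points are equal. -/
theorem Fuchs.Lf.unique (hw : ∀ x y, ϖ x = ϖ y ↔ ∃ γ, y = Y.σ γ • x) (h : Y.Lf ϖ g F φ)
    (h' : Y.Lf ϖ g F' φ) : F' = F := by
  obtain ⟨δ, e⟩ := Y.pk_deck isPreconnected_univ F.continuous F'.continuous
    fun x _ => (hw _ _).1 ((h.lift x).trans (h'.lift x).symm)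
  have c : ∀ γ, δ * γ * δ⁻¹ = γ := fun γ => by
    obtain ⟨γ, rfl⟩ := φ.surjective γ
    have a := h'.act γ oX
    rw [e _ trivial, e _ trivial, h.act, ← mul_smul, ← mul_smul, ← map_mul, ← map_mul] at a
    rw [Y.cancel _ a, mul_inv_cancel_right]
  have d : δ = 1 := by_contra fun d => by
    obtain ⟨α, β, E, E', a1, a2, a3, a4, a5⟩ := Y.nonel
    obtain ⟨D, hD⟩ := (Y.hyp_sq d).exists_ax
    have k : ∀ α E, α ≠ 1 → IsAx (Y.σ α) E → E = D ∨ E = -D := fun α E a b => by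
      have p := b.conj (Y.σ (δ * δ))
      rw [← map_inv, ← map_mul, ← map_mul, show δ * δ * α * (δ * δ)⁻¹ = δ * (δ * α * δ⁻¹) * δ⁻¹ by
        group, c, c] at p
      exact (Y.hyp_sq d).zpow_fix hD b.1 one_ne_zero
        (by simpa only [zpow_one] using (Y.hypA a b).ax_unique b p)
    rcases k α E a1 a3 with rfl | rfl <;> rcases k β E' a2 a4 with h | h <;> rw [h] at a5 <;>
      exact not_cr_self hD.1 (by simpa using a5)
  ext1 x
  rw [e x trivial, d, map_one, one_smul]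

end

/-- The kernel is polynomially small, given the relative form of Baer's theorem. -/
theorem polyKer_of_cover {H M G Z ι : Type} [Group H] [Group M] [Group G] [TopologicalSpace Z]
    [Finite ι] (Y : Fuchs Γ) {ϖ : X → Z} (hw : ∀ x y, ϖ x = ϖ y ↔ ∃ γ, y = Y.σ γ • x)
    (r : H →* (Z ≃ₜ Z)) {q : H →* M} (hq : Function.Surjective q) (j : M →* G) (B : ι → V)
    (hB : ∀ i, B i ∈ Y.per) (ex : ∀ h, ∃ F φ, Y.Lf ϖ (r h) F φ)
    (fix : ∀ i h x, bf (B i) x ≤ 0 → r h (ϖ x) = ϖ x)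
    (ker : ∀ h F φ, Y.Lf ϖ (r h) F φ → j (q h) = 1 → φ ∈ Inn Γ)
    (baer : ∀ h F, Y.Lf ϖ (r h) F 1 → (∀ i x, bf (B i) x ≤ 0 → F x = x) → q h = 1) :
    PolyKer j := by
  classical
  intro S
  cases nonempty_fintype ι
  choose c c1 c2 using fun i => Y.per_ax _ (hB i)
  choose f t hf f0 using fun i => (Y.hypA (c1 i) (c2 i)).fr0 (c2 i)
  let Q : ι → H → ℝ → Prop := fun i h m => ∃ F φ, Y.Lf ϖ (r h) F φ ∧
    (∀ x, bf (B i) x ≤ 0 → F x = x) ∧ ∀ x, |pkp (f i) (F x) - pkp (f i) x| ≤ m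
  have q1 : ∀ i h, ∃ m, Q i h m := fun i h => by
    obtain ⟨F, φ, a⟩ := ex h
    obtain ⟨δ, e⟩ := Y.pk_deck (S := {x | 0 ≤ bf (-B i) x}) (cvx_half _).isPreconnected
      F.continuous continuous_id fun x hx =>
        (hw _ _).1 ((a.lift x).trans (fix i h x (by simpa only [bf_neg, Left.nonneg_neg_iff, mem_ofPred_eq] using hx)))
    have b : ∀ x, bf (B i) x ≤ 0 → (Homeomorph.smul (Y.σ δ) * F : X ≃ₜ X) x = x :=
      fun x hx => (e x (by simpa only [bf_neg, Left.nonneg_neg_iff, mem_ofPred_eq] using hx)).symm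
    obtain ⟨m, hm⟩ := (a.deck hw δ).act.bdd (hB i) (hf i) (f0 i) (c2 i).2 b
    exact ⟨m, _, _, a.deck hw δ, b, hm⟩
  have q2 : ∀ i h m m', Q i h m → m ≤ m' → Q i h m' := fun i h m m' ⟨F, φ, a, b, c⟩ e =>
    ⟨F, φ, a, b, fun x => (c x).trans e⟩
  have q3 : ∀ i h h' m m', Q i h m → Q i h' m' → Q i (h * h') (m + m') := by
    rintro i h h' m m' ⟨F, φ, a, b, c⟩ ⟨F', φ', a', b', c'⟩
    refine ⟨F * F', φ * φ', map_mul r h h' ▸ a.mul a', fun x hx => ?_, fun x => ?_⟩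
    · change F (F' x) = x
      rw [b' x hx, b x hx]
    · exact (abs_sub_le _ _ _).trans (add_le_add (c (F' x)) (c' x))
  have q4 : ∀ i h m, Q i h m → Q i h⁻¹ m := by
    rintro i h m ⟨F, φ, a, b, c⟩
    refine ⟨F⁻¹, φ⁻¹, map_inv r h ▸ a.inv, fun x hx => F.symm_apply_eq.2 (b x hx).symm,
      fun x => ?_⟩
    have := c (F.symm x)
    rwa [F.apply_symm_apply, abs_sub_comm] at this
  choose u hu using hq
  choose m hm using q1
  obtain ⟨C, C0, hC⟩ : ∃ C : ℝ, 0 ≤ C ∧ ∀ i, ∀ x ∈ S, Q i (u x) C :=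
    ⟨∑ i, ∑ x ∈ S, |m i (u x)|, by positivity, fun i x hx => q2 _ _ _ _ (hm i _)
      ((le_abs_self _).trans ((Finset.single_le_sum (f := fun x => |m i (u x)|)
        (fun _ _ => abs_nonneg _) hx).trans (Finset.single_le_sum
          (f := fun i => ∑ x ∈ S, |m i (u x)|) (fun _ _ => by positivity) (Finset.mem_univ i))))⟩
  have q5 : ∀ n x, x ∈ ball S n → ∃ h, q h = x ∧ ∀ i, Q i h (C * n) := by
    refine ball_induction (fun n x => ∃ h, q h = x ∧ ∀ i, Q i h (C * n))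
      ⟨1, map_one q, fun i => ⟨1, 1, map_one r ▸ .one, fun _ _ => rfl, fun x => by simp⟩⟩ ?_ ?_
    · rintro n x ⟨h, a, b⟩
      exact ⟨h, a, fun i => q2 _ _ _ _ (b i) (by push_cast; linarith)⟩
    · rintro n x y ⟨h, a, b⟩ (hy | hy)
      · exact ⟨h * u y, by rw [map_mul, a, hu], fun i => q2 _ _ _ _ (q3 _ _ _ _ _ (b i) (hC i y hy))
          (by push_cast; linarith)⟩
      · exact ⟨h * (u y⁻¹)⁻¹, by rw [map_mul, map_inv, a, hu, inv_inv], fun i => q2 _ _ _ _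
          (q3 _ _ _ _ _ (b i) (q4 _ _ _ (hC i _ hy))) (by push_cast; linarith)⟩
  choose M₀ hM using fun i => Y.pk_inner (hB i) (c1 i) (f0 i) (c2 i).2
  choose K hK using fun i => Y.pk_count (hf i) (C + |M₀ i|)
  refine ⟨∏ i, K i, Fintype.card ι, fun n => ?_⟩
  choose T T1 T2 using fun i => hK i n
  have q6 : ∀ x : (ball S n ∩ (j.ker : Set M) : Set M), ∃ h, q h = x ∧ ∀ i, ∃ δ ∈ T i, ∃ F,
      Y.Lf ϖ (r h) F (MulAut.conj δ) ∧ ∀ x, bf (B i) x ≤ 0 → F x = x := fun x => by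
    obtain ⟨h, a, b⟩ := q5 n x x.2.1
    refine ⟨h, a, fun i => ?_⟩
    obtain ⟨F, φ, b1, b2, b3⟩ := b i
    obtain ⟨δ, rfl⟩ := ker h F φ b1 (a ▸ x.2.2)
    obtain ⟨τ, d1, d2⟩ := hM i F δ _ b1.act b2 b3
    have := le_abs_self (M₀ i)
    have := abs_nonneg (M₀ i)
    have : (0 : ℝ) ≤ n := n.cast_nonneg
    exact ⟨δ, T2 i δ τ (d1.trans (by nlinarith)) d2, F, b1, b2⟩
  choose h h1 δ h2 F h3 h4 using q6
  calc _ = Nat.card (ball S n ∩ (j.ker : Set M) : Set M) := (Nat.card_coe_set_eq _).symm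
    _ ≤ Nat.card (∀ i, T i) := Nat.card_le_card_of_injective (fun x i => ⟨δ x i, h2 x i⟩) ?_
    _ ≤ _ := by
      rw [Nat.card_pi, ← Finset.card_univ, ← Finset.prod_const, ← Finset.prod_mul_distrib]
      exact Finset.prod_le_prod' fun i _ => by simpa only [Nat.card_eq_fintype_card, Fintype.card_coe] using T1 i
  intro x y e
  have a : ∀ i, Y.Lf ϖ (r ((h x)⁻¹ * h y)) ((F x i)⁻¹ * F y i) 1 := fun i => by
    have := (h3 x i).inv.mul (h3 y i)
    rwa [← map_inv, ← map_mul, show δ x i = δ y i from congrArg Subtype.val (congrFun e i),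
      inv_mul_cancel] at this
  obtain ⟨F₀, φ, b⟩ := ex ((h x)⁻¹ * h y)
  obtain ⟨δ₀, rfl⟩ := ker _ _ _ b (by
    rw [map_mul, map_inv, h1, h1, map_mul, map_inv, show j x = 1 from x.2.2,
      show j y = 1 from y.2.2, inv_one, one_mul])
  have b' := b.deck hw δ₀⁻¹
  rw [← map_mul, inv_mul_cancel, map_one] at b'
  have := baer _ _ b' fun i z hz => by
    rw [(a i).unique hw b']
    change (F x i).symm (F y i z) = z
    rw [h4 y i z hz, (F x i).symm_apply_eq, h4 x i z hz]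
  rw [map_mul, map_inv, h1, h1, inv_mul_eq_one] at this
  exact Subtype.ext this

end Pool.Agent.MP_646035_al.NO

end
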