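import Pool.Agent.MP_646035_al.Cx.Lift
import Pool.Agent.MP_646035_al.Mg.NO_Iface
import Pool.Agent.MP_646035_al.NO.Stmt
import Pool.Agent.MP_646035_al.Cx.Defs
import Pool.Agent.MP_646035_al.Cx.Local
import Pool.Agent.MP_646035_al.Cx.Ker2

attribute [-instance] Semiring.toMonoid SMulWithZero.toSMulZeroClass MonTypeEquivalenceMon.monMonoid
  DivisionCommMonoid.toDivisionMonoid ESeminormedAddCommMonoid.toAddCommMonoid Prod.instSMul
  NonUnitalAlgHomClass.toNonUnitalRingHomClass Prod.mulAction ESeminormedAddMonoid.toAddMonoid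
  NonUnitalNonAssocRing.toAddCommGroup AddCommMonoidWithOne.toAddMonoidWithOne RKHS.instFunLike
  instDistribOfSemiring SetLike.GradeZero.instMonoid SemigroupWithZero.toSemigroup
  MonoidWithZero.toMonoid CommRing.toRing DivisionRing.toRing
  NonUnitalNonAssocSemiring.toAddCommMonoid IdemSemiring.toCanonicallyOrderedAdd instSMulZeroClass
  NonUnitalAlgSemiHomClass.toMulHomClass Algebra.ofSubsemiring AddCommGroupWithOne.toAddGroupWithOne
  Valued.toUniformSpace NormedRing.toRing SetLike.GradeZero.instAlgebraSubtypeMemOfNat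
  MonoidWithZero.toMulZeroOneClass ProperSMul.toContinuousSMul AddQuantale.instAddLeftMono
  GroupConeClass.toSubmonoidClass Bialgebra.toAlgebra LieRing.toAddCommGroup
  AddRightCancelMonoid.toAddMonoid NonUnitalRing.toNonUnitalNonAssocRing
  SubtractionMonoid.toSubNegMonoid NonarchimedeanRing.toIsTopologicalRing
  SubsemiringClass.toSubmonoidClass LieAdmissibleAlgebra.toModule TotallySeparatedSpace.t2Space
  SeminormedAddCommGroup.toAddCommGroup CommRing.toCommSemiring RightPreLieAlgebra.toModule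
  LeftPreLieAlgebra.toModule NumberField.to_charZero NormedRing.toSeminormedRing
  TestFunctionClass.toDFunLike

/-!
Lifts of admissible homeomorphisms to the hyperbolic plane, the group of induced automorphisms, and
the homomorphism from the mapping class group.
-/

namespace Pool.Agent.MP_646035_al.NO

open Set Topology Pool.Agent.MP_4a6971_al.H66 Pool.Agent.MP_4a6971_al.H83
  Pool.Agent.MP_4a6971_al.Mcg MC

variable {Γ : Type} [Group Γ] {B : Type} [TopologicalSpace B]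

/-! ### The action of a `Fuchs` group on the plane -/

namespace Fuchs

variable (Y : Fuchs Γ)

theorem finite_meet {C C' : Set X} (h : IsCompact C) (h' : IsCompact C') :
    {γ : Γ | ∃ x ∈ C, Y.σ γ • x ∈ C'}.Finite := by
  obtain ⟨R, hR⟩ := subset_Dsc h oX
  obtain ⟨R', hR'⟩ := subset_Dsc h' oX
  refine (Y.proper (2 * R' * R)).subset ?_
  rintro w ⟨x, hx, hx'⟩
  have a : cd oX x ≤ R := hR hx
  have b : cd oX (Y.σ w • x) ≤ R' := hR' hx'
  have c := cd_tri oX (Y.σ w • x) (Y.σ w • oX)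
  rw [cd_smul, cd_comm (Y.σ w • x), cd_comm x] at c
  have d := one_le_cd oX x
  have e := one_le_cd oX (Y.σ w • x)
  change cd oX (Y.σ w • oX) ≤ _
  refine c.trans ?_
  gcongr
  linarith

/-- A strict map whose fibres are the orbits is a quotient covering of its range. -/
theorem quot {π : X → B} (h : IsStrictMap π) (fib : ∀ x y, π x = π y ↔ ∃ γ, x = Y.σ γ • y) :
    @IsQuotientCoveringMap X (range π) _ _ (rangeFactorization π) Γ _
      (MulAction.compHom X Y.σ) := by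
  let _ := MulAction.compHom X Y.σ
  have : ContinuousConstSMul Γ X := ⟨fun γ => continuous_const_smul (Y.σ γ)⟩
  have : ProperlyDiscontinuousSMul Γ X := ⟨fun {K L} a b => (Y.finite_meet a b).subset (by
    rintro γ ⟨_, ⟨x, hx, rfl⟩, hy⟩
    exact ⟨x, hx, hy⟩)⟩
  have : IsCancelSMul Γ X := isCancelSMul_iff_eq_one_of_smul_eq.2 fun γ x e => Y.free e
  refine IsQuotientMap.isQuotientCoveringMap_of_properlyDiscontinuousSMul h ?_
  intro x y
  rw [Subtype.ext_iff]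
  exact (fib x y).trans ⟨fun ⟨γ, e⟩ => ⟨γ, e.symm⟩, fun ⟨γ, e⟩ => ⟨γ, e.symm⟩⟩

/-- The attracting ends of `β` and `γ` lie on the same side of the axis of `α`. -/
def Same (α β γ : Γ) : Prop :=
  α ≠ 1 ∧ β ≠ 1 ∧ γ ≠ 1 ∧ ∃ E N M, IsAx (Y.σ α) E ∧ End (Y.σ β) N ∧ End (Y.σ γ) M ∧
    0 < Bf E N ∧ 0 < Bf E M

/-- The attracting ends of `β` and `γ` lie on different sides of the axis of `α`. -/
def Apart (α β γ : Γ) : Prop :=
  α ≠ 1 ∧ β ≠ 1 ∧ γ ≠ 1 ∧ ∃ E N M, IsAx (Y.σ α) E ∧ End (Y.σ β) N ∧ End (Y.σ γ) M ∧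
    0 < Bf E N ∧ Bf E M < 0

/-- An equivariant homeomorphism does not separate two ends that lie on one side of an axis. -/
theorem side_of (F : X ≃ₜ X) (φ : MulAut Γ) (hF : ∀ γ x, F (Y.σ γ • x) = Y.σ (φ γ) • F x)
    {α β γ : Γ} (h : Y.Same α β γ) : ¬ Y.Apart (φ α) (φ β) (φ γ) := by
  obtain ⟨-, -, -, E, N, M, hE, hN, hM, a, b⟩ := h
  rintro ⟨n1, -, -, E', N', M', hE', hN', hM', a', b'⟩
  obtain ⟨R', hR'⟩ := norm_pt (Y.hypA n1 hE') hE' 0
  obtain ⟨R, hR⟩ := (((isCompact_Dsc oX R').image F.symm.continuous).image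
    (f := fun x => bf E x) (by fun_prop)).bddAbove
  have key : ∀ x : X, bf E' (F x) = 0 → bf E x ≤ R := fun x hx => by
    obtain ⟨k, hk⟩ := hR' (F x).1 (F x).2 (le_of_eq (abs_eq_zero.2 hx))
    have e : F (Y.σ (α ^ k) • x) ∈ Dsc oX R' := by
      rw [hF, map_zpow, map_zpow]
      exact hk
    have := hR ⟨_, ⟨_, e, rfl⟩, rfl⟩
    simp only [Homeomorph.symm_apply_apply] at this
    rwa [map_zpow, ← hE.zpow k, bf_smul] at this
  have pre := preconn_beyond (E := -E) (by simpa using hE.1) (-R)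
  obtain ⟨k, hk⟩ := hN.grow E o R H2_o a
  obtain ⟨l, hl⟩ := hN'.grow E' (F oX).1 0 (F oX).2 a'
  obtain ⟨k', hk'⟩ := hM.grow E o R H2_o b
  obtain ⟨l', hl'⟩ := hM'.grow (-E') (F oX).1 0 (F oX).2 (by simpa using b')
  have p1 : Y.σ (β ^ (k + l)) • oX ∈ {x | bf (-E) x < -R} := by
    have := hk (k + l) (by omega)
    rw [← map_pow] at this
    rw [mem_ofPred_eq, bf_neg]
    exact neg_lt_neg this
  have p2 : Y.σ (γ ^ (k' + l')) • oX ∈ {x | bf (-E) x < -R} := by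
    have := hk' (k' + l') (by omega)
    rw [← map_pow] at this
    rw [mem_ofPred_eq, bf_neg]
    exact neg_lt_neg this
  have q1 : 0 < bf E' (F (Y.σ (β ^ (k + l)) • oX)) := by
    rw [hF, map_pow, map_pow]
    exact hl _ (by omega)
  have q2 : bf E' (F (Y.σ (γ ^ (k' + l')) • oX)) < 0 := by
    rw [hF, map_pow, map_pow]
    have := hl' (k' + l') (by omega)
    rw [Bf_neg_left] at this
    exact neg_pos.1 this
  obtain ⟨x, hx, e⟩ := pre.intermediate_value p2 p1 (f := fun x => bf E' (F x))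
    (by fun_prop) ⟨q2.le, q1.le⟩
  have := key x e
  simp only [mem_ofPred_eq, bf_neg] at hx
  linarith

/-- `F` is a lift of `f` that induces `φ`. -/
structure Lifts (π : X → B) (f : B ≃ₜ B) (F : X ≃ₜ X) (φ : MulAut Γ) : Prop where
  lift : ∀ x, π (F x) = f (π x)
  act : ∀ γ x, F (Y.σ γ • x) = Y.σ (φ γ) • F x

/-- The homeomorphism of the plane given by an element of the group. -/
noncomputable def deck (γ : Γ) : X ≃ₜ X := Homeomorph.smul (Y.σ γ)

@[simp] theorem deck_apply (γ : Γ) (x : X) : Y.deck γ x = Y.σ γ • x := rfl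

variable {Y} {π : X → B} {f f' : B ≃ₜ B} {F F' : X ≃ₜ X} {φ φ' : MulAut Γ}

theorem Lifts.one : Y.Lifts π 1 1 1 := ⟨fun _ => rfl, fun _ _ => rfl⟩

theorem Lifts.mul (a : Y.Lifts π f F φ) (b : Y.Lifts π f' F' φ') :
    Y.Lifts π (f * f') (F * F') (φ * φ') :=
  ⟨fun x => (a.lift _).trans (congrArg f (b.lift x)),
    fun γ x => (congrArg F (b.act γ x)).trans (a.act _ _)⟩

theorem Lifts.inv (a : Y.Lifts π f F φ) : Y.Lifts π f⁻¹ F⁻¹ φ⁻¹ := by
  refine ⟨fun x => ?_, fun γ x => ?_⟩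
  · change π (F.symm x) = f.symm (π x)
    rw [f.eq_symm_apply, ← a.lift, F.apply_symm_apply]
  · change F.symm (Y.σ γ • x) = Y.σ (φ.symm γ) • F.symm x
    rw [F.symm_apply_eq, a.act, F.apply_symm_apply, φ.apply_symm_apply]

/-- The automorphism is determined by the lift. -/
theorem Lifts.aut_eq (a : Y.Lifts π f F φ) (b : Y.Lifts π f' F φ') : φ = φ' := by
  ext γ
  exact Y.cancel (F oX) ((a.act γ oX).symm.trans (b.act γ oX))

theorem Lifts.side (a : Y.Lifts π f F φ) {α β γ : Γ} (h : Y.Same α β γ) :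
    ¬ Y.Apart (φ α) (φ β) (φ γ) := Y.side_of F φ a.act h

end Fuchs

/-! ### Covering data -/

/-- The automorphisms induced by the lifts of the elements of `c.Adm`. -/
def Fuchs.A (Y : Fuchs Γ) (c : Marks B) (π : X → B) : Subgroup (MulAut Γ) where
  carrier := {φ | ∃ f ∈ c.Adm, ∃ F, Y.Lifts π f F φ}
  one_mem' := ⟨1, one_mem _, 1, Fuchs.Lifts.one⟩
  mul_mem' := fun ⟨_, a, _, b⟩ ⟨_, a', _, b'⟩ => ⟨_, mul_mem a a', _, b.mul b'⟩
  inv_mem' := fun ⟨_, a, _, b⟩ => ⟨_, inv_mem a, _, b.inv⟩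

theorem Fuchs.mem_A {Y : Fuchs Γ} {c : Marks B} {π : X → B} {φ : MulAut Γ} :
    φ ∈ Y.A c π ↔ ∃ f ∈ c.Adm, ∃ F, Y.Lifts π f F φ := Iff.rfl

theorem Fuchs.Lifts.mem_A {Y : Fuchs Γ} {c : Marks B} {π : X → B} {f : c.Adm} {F : X ≃ₜ X}
    {φ : MulAut Γ} (a : Y.Lifts π f.1 F φ) : φ ∈ Y.A c π := ⟨f.1, f.2, F, a⟩

/-- `π` presents the complement of the centres as the quotient of the plane. -/
structure Cov (Y : Fuchs Γ) (c : Marks B) (π : X → B) : Prop where
  strict : IsStrictMap π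
  rng : ∀ y, y ∈ range π ↔ y ∉ c.ctr
  fib : ∀ x y, π x = π y ↔ ∃ γ, x = Y.σ γ • y

namespace Cov

variable {Y : Fuchs Γ} {c : Marks B} {π : X → B}

theorem of_open (h1 : Continuous π) (h2 : IsOpenMap π) (h3 : ∀ y, y ∈ range π ↔ y ∉ c.ctr)
    (h4 : ∀ x y, π x = π y ↔ ∃ γ, x = Y.σ γ • y) : Cov Y c π := ⟨h2.isStrictMap h1, h3, h4⟩

variable (h : Cov Y c π)
include h

theorem cont : Continuous π := h.strict.continuous

theorem quot : @IsQuotientCoveringMap X (range π) _ _ (rangeFactorization π) Γ _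
    (MulAction.compHom X Y.σ) := Y.quot h.strict h.fib

theorem cov : IsCoveringMap (rangeFactorization π) :=
  letI := MulAction.compHom X Y.σ
  h.quot.isCoveringMap

theorem map_smul (γ : Γ) (x : X) : π (Y.σ γ • x) = π x := (h.fib _ _).2 ⟨γ, rfl⟩

theorem not_ctr (x : X) : π x ∉ c.ctr := (h.rng _).1 ⟨x, rfl⟩

theorem isOpen_range [T1Space B] : IsOpen (range π) := by
  have : range π = c.ctrᶜ := Set.ext h.rng
  rw [this]
  exact c.ctr_finite.isClosed.isOpen_compl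

/-- Uniqueness of lifts. -/
theorem eq_of_eq {A : Type} [TopologicalSpace A] [PreconnectedSpace A] {u v : A → X}
    (hu : Continuous u) (hv : Continuous v) (e : ∀ a, π (u a) = π (v a)) (a : A)
    (ha : u a = v a) : u = v :=
  h.cov.eq_of_comp_eq hu hv (funext fun a => Subtype.ext (e a)) a ha

/-- Uniqueness of lifts on a preconnected set. -/
theorem eqOn_of_eq {A : Type} [TopologicalSpace A] {S : Set A} (hS : IsPreconnected S)
    {u v : A → X} (hu : ContinuousOn u S) (hv : ContinuousOn v S)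
    (e : ∀ a ∈ S, π (u a) = π (v a)) {a : A} (haS : a ∈ S) (ha : u a = v a) : EqOn u v S :=
  h.cov.eqOn_of_comp_eqOn hS hu hv (fun a ha => Subtype.ext (e a ha)) haS ha

/-- Two lifts of a map from a connected space differ by an element of the group. -/
theorem exists_deck {A : Type} [TopologicalSpace A] [ConnectedSpace A] {u v : A → X}
    (hu : Continuous u) (hv : Continuous v) (e : ∀ a, π (u a) = π (v a)) :
    ∃ γ, ∀ a, u a = Y.σ γ • v a :=
  letI := MulAction.compHom X Y.σ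
  Lift_deck h.quot hu hv fun a => Subtype.ext (e a)

theorem lifts_deck (γ : Γ) : Y.Lifts π 1 (Y.deck γ) (MulAut.conj γ) :=
  ⟨h.map_smul γ, fun δ x => by simp only [Fuchs.deck_apply, MulAut.conj_apply, map_mul, map_inv, mul_smul, inv_smul_smul]⟩

theorem lifts_uniq {f : B ≃ₜ B} {F F' : X ≃ₜ X} {φ φ' : MulAut Γ} (a : Y.Lifts π f F φ)
    (b : Y.Lifts π f F' φ') : ∃ γ, F = Y.deck γ * F' ∧ φ = MulAut.conj γ * φ' := by
  obtain ⟨γ, hγ⟩ := h.exists_deck F.continuous F'.continuous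
    fun x => (a.lift x).trans (b.lift x).symm
  have e : F = Y.deck γ * F' := Homeomorph.ext hγ
  refine ⟨γ, e, ?_⟩
  subst e
  exact a.aut_eq ((h.lifts_deck γ).mul b)

/-- A homeomorphism that preserves the set of centres has a lift. -/
theorem exists_lifts' {f : B ≃ₜ B} (hf : ∀ y, f y ∈ c.ctr ↔ y ∈ c.ctr) :
    ∃ F φ, Y.Lifts π f F φ := by
  let _ := MulAction.compHom X Y.σ
  have r : ∀ y, y ∈ range π ↔ f y ∈ range π := fun y => by rw [h.rng, h.rng, hf]
  obtain ⟨F, φ, a⟩ := exists_isLift h.quot (f.subtype r)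
  exact ⟨F, φ, fun x => congrArg Subtype.val (a.lift x), a.act⟩

theorem exists_lifts {f : B ≃ₜ B} (hf : f ∈ c.Adm) : ∃ F φ, Y.Lifts π f F φ :=
  h.exists_lifts' (Marks.adm_ctr hf)

/-- The lift of an isotopy through maps that preserve the centres, starting at the identity. -/
theorem lift_isotopy' (H : C(unitInterval × B, B))
    (a : ∀ t, ∃ k : B ≃ₜ B, (∀ y, k y ∈ c.ctr ↔ y ∈ c.ctr) ∧ ∀ x, H (t, x) = k x)
    (b : ∀ x, H (0, x) = x) :
    ∃ G : unitInterval → X ≃ₜ X, Continuous (fun p : unitInterval × X => G p.1 p.2) ∧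
      (∀ t x, π (G t x) = H (t, π x)) ∧ (∀ t γ x, G t (Y.σ γ • x) = Y.σ γ • G t x) ∧
      G 0 = 1 := by
  have hπ := h.cont
  have mem : ∀ p : unitInterval × X, H (p.1, π p.2) ∈ range π := fun p => by
    obtain ⟨k, k1, k2⟩ := a p.1
    rw [h.rng, k2, k1]
    exact h.not_ctr _
  let K : C(unitInterval × X, range π) := ⟨fun p => ⟨H (p.1, π p.2), mem p⟩, by fun_prop⟩
  have K0 : ∀ x, K (0, x) = rangeFactorization π (ContinuousMap.id X x) :=
    fun x => Subtype.ext (b _)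
  obtain ⟨M, m, m0⟩ : ∃ M : C(unitInterval × X, X), (∀ p, π (M p) = H (p.1, π p.2)) ∧
      ∀ x, M (0, x) = x :=
    ⟨h.cov.liftHomotopy K _ K0,
      fun p => congrArg Subtype.val (congrFun (h.cov.liftHomotopy_lifts K _ K0) p),
      h.cov.liftHomotopy_zero K _ K0⟩
  have eqv : ∀ t δ x, M (t, Y.σ δ • x) = Y.σ δ • M (t, x) := fun t δ x =>
    congrFun (h.eq_of_eq (u := fun t => M (t, Y.σ δ • x)) (v := fun t => Y.σ δ • M (t, x))
      (by fun_prop) (by fun_prop) (fun t => by rw [m, h.map_smul, h.map_smul, m]) 0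
      (by simp only [m0])) t
  have hom : ∀ t, ∃ G : X ≃ₜ X, ∀ x, G x = M (t, x) := fun t => by
    obtain ⟨k, k1, k2⟩ := a t
    obtain ⟨F, φ, l⟩ := h.exists_lifts' k1
    obtain ⟨γ, hγ⟩ := h.exists_deck (u := fun x => M (t, x)) (v := F) (by fun_prop) F.continuous
      fun x => by rw [m, k2, l.lift]
    exact ⟨Y.deck γ * F, fun x => (hγ x).symm⟩
  choose G hG using hom
  refine ⟨G, M.continuous.congr fun p => (hG _ _).symm, fun t x => by rw [hG, m],
    fun t γ x => by rw [hG, hG, eqv], Homeomorph.ext fun x => by rw [hG, m0]; rfl⟩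

/-- The lift of an isotopy through admissible maps that starts at the identity. -/
theorem lift_isotopy (H : C(unitInterval × B, B)) (a : ∀ t, ∃ k ∈ c.Adm, ∀ x, H (t, x) = k x)
    (b : ∀ x, H (0, x) = x) :
    ∃ G : unitInterval → X ≃ₜ X, Continuous (fun p : unitInterval × X => G p.1 p.2) ∧
      (∀ t x, π (G t x) = H (t, π x)) ∧ (∀ t γ x, G t (Y.σ γ • x) = Y.σ γ • G t x) ∧
      G 0 = 1 :=
  h.lift_isotopy' H (fun t => (a t).imp fun _ k => ⟨Marks.adm_ctr k.1, k.2⟩) b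

theorem inn_le : Inn Γ ≤ Y.A c π := by
  rintro _ ⟨γ, rfl⟩
  exact ⟨1, one_mem _, _, h.lifts_deck γ⟩

theorem mk_eq {f : c.Adm} {F F' : X ≃ₜ X} {φ φ' : MulAut Γ} (a : Y.Lifts π f.1 F φ)
    (b : Y.Lifts π f.1 F' φ') :
    (QuotientGroup.mk ⟨φ, a.mem_A⟩ : OutA (Y.A c π)) = QuotientGroup.mk ⟨φ', b.mem_A⟩ := by
  obtain ⟨γ, -, e⟩ := h.lifts_uniq a b
  rw [QuotientGroup.eq, Subgroup.mem_subgroupOf]
  refine ⟨φ⁻¹ γ⁻¹, ?_⟩
  have : φ' = (MulAut.conj γ)⁻¹ * φ := by rw [e, inv_mul_cancel_left]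
  ext δ
  simp only [MulAut.inv_apply, map_inv, MulAut.conj_symm_apply, this, Subgroup.coe_mul, InvMemClass.coe_inv, MulAut.mul_apply, map_mul, MulEquiv.symm_apply_apply]

/-- The homomorphism from the mapping class group onto the group of outer automorphisms. -/
theorem exists_j (N : Subgroup c.Adm) [N.Normal] (hN : ∀ f ∈ N, ∃ F, Y.Lifts π f.1 F 1) :
    ∃ j : c.Adm ⧸ N →* OutA (Y.A c π), Function.Surjective j ∧
      ∀ (f : c.Adm) F φ (a : Y.Lifts π f.1 F φ),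
        j (QuotientGroup.mk f) = QuotientGroup.mk ⟨φ, a.mem_A⟩ := by
  choose L Φ hL using fun f : c.Adm => h.exists_lifts f.2
  let J : c.Adm →* OutA (Y.A c π) :=
    MonoidHom.mk' (fun f => QuotientGroup.mk ⟨Φ f, (hL f).mem_A⟩) fun f f' =>
      h.mk_eq (hL _) ((hL f).mul (hL f'))
  have hJ : ∀ (f : c.Adm) F φ (a : Y.Lifts π f.1 F φ),
      J f = QuotientGroup.mk ⟨φ, a.mem_A⟩ := fun f F φ a => h.mk_eq (hL f) a
  refine ⟨QuotientGroup.lift _ J fun f hf => let ⟨F, a⟩ := hN f hf; hJ f F 1 a, fun q => ?_, hJ⟩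
  obtain ⟨⟨φ, f, hf, F, a⟩, rfl⟩ := QuotientGroup.mk_surjective q
  exact ⟨QuotientGroup.mk ⟨f, hf⟩, hJ ⟨f, hf⟩ F φ a⟩

end Cov

end Pool.Agent.MP_646035_al.NO

/-!
The hyperbolic model of a surface with holes: the definitions of part C.
-/

namespace Pool.Agent.MP_646035_al.NO

open Pool.Agent.MP_4a6971_al Pool.Agent.MP_4a6971_al.H66 Pool.Agent.MP_4a6971_al.H83
  Pool.Agent.MP_4a6971_al.Mcg Set Topology MC

variable {Γ : Type} [Group Γ]

/-- The quotient of the plane is `S` without `m` centres; the funnel behind `B i` ends at the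
centre `i`. -/
structure Ends (Y : Fuchs Γ) (S : Type) [TopologicalSpace S] (m : ℕ) where
  ctr : Fin m → S
  inj : Function.Injective ctr
  π : X → S
  cont : Continuous π
  rng : ∀ s, (∃ x, π x = s) ↔ ∀ i, s ≠ ctr i
  fib : ∀ x y, π x = π y ↔ ∃ γ, x = Y.σ γ • y
  B : Fin m → V
  B_per : ∀ i, B i ∈ Y.per
  orb : ∀ N ∈ Y.per, ∃ i γ, N = Y.σ γ • B i
  lim : ∀ i, ∀ U ∈ 𝓝 (ctr i), ∃ r, ∀ x, bf (B i) x ≤ r → π x ∈ U

/-- A covering together with charts at the holes. -/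
structure Model (Y : Fuchs Γ) (S : Type) [TopologicalSpace S] (m : ℕ) extends Ends Y S m where
  γ : Fin m → Γ
  fr : Fin m → Isom
  t : Fin m → ℝ
  ε : ℝ
  D : Fin m → ℂ → S
  opn : IsOpenMap π
  t_pos : ∀ i, 0 < t i
  ε_pos : 0 < ε
  fr_B : ∀ i, fr i • E0 = B i
  fr_γ : ∀ i, Y.σ (γ i) * fr i = fr i * dil (t i)
  stab : ∀ i δ, Y.σ δ • B i = B i → δ ∈ Subgroup.zpowers (γ i)
  collar : ∀ N ∈ Y.per, ∀ N' ∈ Y.per, ∀ x, bf N x < ε → bf N' x < ε → N = N'
  emb : ∀ i, IsOpenEmbedding (D i)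
  disj : ∀ i j z w, D i z = D j w → i = j
  D0 : ∀ i, D i 0 = ctr i
  Dπ : ∀ i (s r : ℝ), r < ε → π (fr i • fm s r) =
    D i ((ε / (ε - r) : ℝ) * Complex.exp ((2 * Real.pi * s / t i : ℝ) * Complex.I))

variable {Y : Fuchs Γ} {S : Type} [TopologicalSpace S] {m : ℕ}

theorem Ends.π_smul (Z : Ends Y S m) (γ : Γ) (x : X) : Z.π (Y.σ γ • x) = Z.π x :=
  (Z.fib _ _).2 ⟨γ, rfl⟩

namespace Model

variable (Z : Model Y S m) (T : Finset (Fin m))

theorem bf_fr (i : Fin m) (s r : ℝ) : bf (Z.B i) (Z.fr i • fm s r) = r := by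
  rw [← Z.fr_B, bf_smul, bf_fm]

theorem exists_fm (i : Fin m) (x : X) : ∃ s, x = Z.fr i • fm s (bf (Z.B i) x) :=
  ⟨fs ((Z.fr i)⁻¹ • x), by
    rw [← inv_smul_eq_iff, ← Z.fr_B, ← bf_smul (Z.fr i)⁻¹, inv_smul_smul, fm_fs]⟩

theorem γ_fm (i : Fin m) (s r : ℝ) :
    Y.σ (Z.γ i) • Z.fr i • fm s r = Z.fr i • fm (s + Z.t i) r := by
  rw [← mul_smul, Z.fr_γ, mul_smul, dil_fm]

/-- Every point of the punctured chart comes from the funnel or its collar. -/
theorem exists_pt (i : Fin m) {z : ℂ} (hz : z ≠ 0) :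
    ∃ x, Z.π x = Z.D i z ∧ bf (Z.B i) x = Z.ε * (1 - ‖z‖⁻¹) := by
  have p := Z.ε_pos
  have q := norm_pos_iff.2 hz
  have tp := Z.t_pos i
  have hp := Real.pi_pos
  refine ⟨Z.fr i • fm (z.arg * Z.t i / (2 * Real.pi)) (Z.ε * (1 - ‖z‖⁻¹)), ?_, Z.bf_fr _ _ _⟩
  rw [Z.Dπ _ _ _ (by linarith only [mul_pos p (inv_pos.2 q)])]
  congr 1
  rw [show Z.ε / (Z.ε - Z.ε * (1 - ‖z‖⁻¹)) = ‖z‖ by field_simp; ring,
    show 2 * Real.pi * (z.arg * Z.t i / (2 * Real.pi)) / Z.t i = z.arg by field_simp]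
  exact Complex.norm_mul_exp_arg_mul_I z

/-- The points of the funnel and its collar lie in the chart. -/
theorem exists_z (i : Fin m) {x : X} (hx : bf (Z.B i) x < Z.ε) :
    ∃ z, Z.π x = Z.D i z ∧ ‖z‖ = Z.ε / (Z.ε - bf (Z.B i) x) := by
  obtain ⟨s, e⟩ := Z.exists_fm i x
  refine ⟨_, (congrArg Z.π e).trans (Z.Dπ i s _ hx), ?_⟩
  rw [norm_mul, Complex.norm_exp_ofReal_mul_I, mul_one, Complex.norm_real, Real.norm_eq_abs,
    abs_of_pos (div_pos Z.ε_pos (sub_pos.2 hx))]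

/-- The standard marks: the holes in `T` are boundary components, the others are punctures. -/
noncomputable def marks : Marks S where
  P := Tᶜ.map ⟨Z.ctr, Z.inj⟩
  b := T.card
  d k := Z.D (T.orderEmbOfFin rfl k)
  emb _ := Z.emb _
  disj _ _ z w h := (T.orderEmbOfFin rfl).injective (Z.disj _ _ z w h)
  avoid k z h := by
    obtain ⟨j, a, b⟩ := Finset.mem_map.1 h
    have e := Z.disj _ _ _ _ ((Z.D0 j).trans b)
    exact Finset.mem_compl.1 a (e ▸ T.orderEmbOfFin_mem rfl k)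

theorem mem_P {x : S} : x ∈ (Z.marks T).P ↔ ∃ i, i ∉ T ∧ Z.ctr i = x := by
  simp only [marks, Finset.mem_map, Finset.mem_compl, Function.Embedding.coeFn_mk]

theorem mem_adm {f : S ≃ₜ S} : f ∈ (Z.marks T).Adm ↔
    (∀ x, (∃ i, i ∉ T ∧ Z.ctr i = f x) ↔ ∃ i, i ∉ T ∧ Z.ctr i = x) ∧
      ∀ i ∈ T, ∀ z : ℂ, ‖z‖ ≤ 1 → f (Z.D i z) = Z.D i z := by
  refine and_congr (forall_congr' fun x => iff_congr (Z.mem_P T) (Z.mem_P T))
    ⟨fun h i hi => ?_, fun h k => h _ (T.orderEmbOfFin_mem rfl k)⟩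
  obtain ⟨k, rfl⟩ : i ∈ range (T.orderEmbOfFin rfl) := by
    rw [Finset.range_orderEmbOfFin]
    exact hi
  exact h k

theorem card_P : (Z.marks T).P.card = m - T.card := by
  simp only [marks, Finset.card_map, Finset.card_compl, Fintype.card_fin]

theorem mem_ctr {x : S} : x ∈ (Z.marks T).ctr ↔ ∃ i, Z.ctr i = x := by
  constructor
  · rintro (h | ⟨k, rfl⟩)
    · obtain ⟨i, -, e⟩ := (Z.mem_P T).1 h
      exact ⟨i, e⟩
    · exact ⟨_, (Z.D0 _).symm⟩
  · rintro ⟨i, rfl⟩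
    by_cases hi : i ∈ T
    · obtain ⟨k, rfl⟩ : i ∈ range (T.orderEmbOfFin rfl) := by
        rw [Finset.range_orderEmbOfFin]
        exact hi
      exact Or.inr ⟨k, (Z.D0 _).symm⟩
    · exact Or.inl ((Z.mem_P T).2 ⟨i, hi, rfl⟩)

theorem cov : Cov Y (Z.marks T) Z.π :=
  Cov.of_open Z.cont Z.opn (fun y => (Z.rng y).trans (by
    rw [Z.mem_ctr, not_exists]
    exact forall_congr' fun i => ne_comm)) Z.fib

end Model

end Pool.Agent.MP_646035_al.NO

/-!
A homeomorphism with a lift that commutes with the group and is the identity behind the boundary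
components is isotopic to the identity.
-/

namespace Pool.Agent.MP_646035_al.NO

open Pool.Agent.MP_4a6971_al Pool.Agent.MP_4a6971_al.H66 Pool.Agent.MP_4a6971_al.H83
  Pool.Agent.MP_4a6971_al.Mcg Set Topology Metric ComplexConjugate MC

variable {Γ : Type} [Group Γ] {Y : Fuchs Γ} {S : Type} [TopologicalSpace S] {m : ℕ}

namespace Model

variable (Z : Model Y S m)

/-- Logarithmic coordinates in the funnel and its collar. -/
noncomputable def lg (i : Fin m) (w : ℂ) : X :=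
  Z.fr i • fm (w.im * Z.t i / (2 * Real.pi)) (Z.ε * (1 - Real.exp (-w.re)))

theorem lg_cont (i : Fin m) : Continuous (Z.lg i) :=
  (continuous_const_smul (Z.fr i)).comp (continuous_fm.comp (f := fun w : ℂ =>
    (w.im * Z.t i / (2 * Real.pi), Z.ε * (1 - Real.exp (-w.re)))) (by fun_prop))

theorem π_lg (i : Fin m) (w : ℂ) : Z.π (Z.lg i w) = Z.D i (Complex.exp w) := by
  have p := Z.ε_pos
  have q := Real.exp_pos (-w.re)
  have tp := Z.t_pos i
  have hp := Real.pi_pos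
  rw [lg, Z.Dπ _ _ _ (by linarith only [mul_pos p q])]
  congr 1
  rw [show Z.ε / (Z.ε - Z.ε * (1 - Real.exp (-w.re))) = Real.exp w.re by
      rw [Real.exp_neg]; field_simp; ring,
    show 2 * Real.pi * (w.im * Z.t i / (2 * Real.pi)) / Z.t i = w.im by field_simp,
    Complex.ofReal_exp, ← Complex.exp_add, Complex.re_add_im]

theorem lg_add (i : Fin m) (w : ℂ) :
    Z.lg i (w + (2 * Real.pi : ℝ) * Complex.I) = Y.σ (Z.γ i) • Z.lg i w := by
  have hp := Real.pi_pos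
  rw [lg, lg, Z.γ_fm]
  congr 2
  · simp only [Complex.add_im, Complex.im_ofReal_mul, Complex.I_im]
    field_simp
  · simp only [Complex.add_re, Complex.re_ofReal_mul, Complex.I_re, mul_zero, add_zero]

theorem lg_zpow (i : Fin m) (k : ℤ) (w : ℂ) :
    Z.lg i (w + (k * (2 * Real.pi) : ℝ) * Complex.I) = Y.σ (Z.γ i ^ k) • Z.lg i w := by
  induction k using Int.induction_on with
  | zero => simp only [Int.cast_zero, zero_mul, Complex.ofReal_zero, add_zero, zpow_ofNat, pow_zero, map_one, one_smul]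
  | succ n h =>
    rw [zpow_add_one, ← (Commute.self_zpow (Z.γ i) n).eq, map_mul, mul_smul, ← h, ← Z.lg_add]
    congr 1
    push_cast
    ring
  | pred n h =>
    rw [zpow_sub_one, ← ((Commute.self_zpow (Z.γ i) (-n)).inv_left).eq, map_mul, map_inv, mul_smul,
      ← h, eq_inv_smul_iff, ← Z.lg_add]
    congr 1
    push_cast
    ring

theorem exists_lg (i : Fin m) {x : X} (hx : bf (Z.B i) x ≤ 0) : ∃ w, w.re ≤ 0 ∧ Z.lg i w = x := by
  obtain ⟨s, e⟩ := Z.exists_fm i x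
  have p := Z.ε_pos
  have tp := Z.t_pos i
  have hp := Real.pi_pos
  have q : 1 ≤ 1 - bf (Z.B i) x / Z.ε := by linarith [div_nonpos_of_nonpos_of_nonneg hx p.le]
  refine ⟨⟨-Real.log (1 - bf (Z.B i) x / Z.ε), 2 * Real.pi * s / Z.t i⟩,
    neg_nonpos.2 (Real.log_nonneg q), Eq.trans ?_ e.symm⟩
  rw [lg]
  congr 2
  · field_simp
  · rw [neg_neg, Real.exp_log (by linarith only [q])]
    field_simp
    ring

theorem lg_le (i : Fin m) {w : ℂ} (h : w.re ≤ 0) : bf (Z.B i) (Z.lg i w) ≤ 0 := by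
  rw [lg, Z.bf_fr]
  exact mul_nonpos_of_nonneg_of_nonpos Z.ε_pos.le (sub_nonpos.2 (Real.one_le_exp (neg_nonneg.2 h)))

theorem ker_ax (i : Fin m) : IsAx (Y.σ (Z.γ i)) (Z.B i) := by
  rw [← Z.fr_B]
  refine ⟨by rw [Bf_isom, Bf_E0]; rfl, ?_⟩
  rw [← mul_smul, Z.fr_γ, mul_smul]
  simp only [E0, dil_smul, zero_mul]

theorem ker_ne (i : Fin m) : Z.γ i ≠ (Z.γ i)⁻¹ := fun e => by
  have h := Z.γ_fm i 0 0
  rw [e, map_inv, inv_smul_eq_iff, Z.γ_fm] at h
  have := congrArg fs (smul_left_cancel _ h)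
  rw [fs_fm, fs_fm] at this
  linarith [Z.t_pos i]

theorem ker_alg {p q : Fin m} {δ : Γ}
    (h : Z.γ p = δ * Z.γ q * δ⁻¹ ∨ Z.γ p = δ * (Z.γ q)⁻¹ * δ⁻¹) :
    p = q ∧ δ ∈ Subgroup.zpowers (Z.γ q) := by
  have ne : Z.γ p ≠ 1 := fun e => Z.ker_ne p (by rw [e, inv_one])
  have ax : IsAx (Y.σ (Z.γ p)) (Y.σ δ • Z.B q) := by
    rcases h with h | h <;> rw [h, map_mul, map_mul, map_inv]
    · exact (Z.ker_ax q).conj _
    · rw [map_inv]
      exact (Z.ker_ax q).inv.conj _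
  rcases (Y.hypA ne ax).ax_unique (Z.ker_ax p) ax with e | e
  · obtain ⟨z, hz, -⟩ := Z.exists_z p (x := Y.σ δ • Z.lg q 0) (by
      rw [← e, bf_smul]
      exact (Z.lg_le q le_rfl).trans_lt Z.ε_pos)
    rw [Z.π_smul, Z.π_lg] at hz
    obtain rfl := Z.disj _ _ _ _ hz
    exact ⟨rfl, Z.stab _ _ e⟩
  · have a := Y.per_o _ (Y.per_smul δ _ (Z.B_per q))
    rw [e, Bf_neg_left] at a
    linarith only [Y.per_o _ (Z.B_per p), a]

theorem ker_dense : DenseRange Z.π := fun s => by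
  by_cases h : ∀ i, s ≠ Z.ctr i
  · exact subset_closure ((Z.rng s).2 h)
  · push Not at h
    obtain ⟨i, rfl⟩ := h
    rw [← Z.D0]
    exact map_mem_closure (Z.emb i).continuous (dense_compl_singleton (0 : ℂ) 0) fun z hz =>
      (Z.exists_pt i hz).imp fun _ a => a.1

variable [T2Space S] (T : Finset (Fin m))

/-- A move in the chart of a marked point, and its lift. -/
theorem ker_move {q : Fin m} (hq : q ∉ T) {k : ℝ → ℂ ≃ₜ ℂ}
    (hk : Continuous fun p : ℝ × ℂ => k p.1 p.2) (hs : ∀ t z, z ∉ closedBall (0 : ℂ) 2 → k t z = z)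
    (hz : ∀ t, k t 0 = 0) (h0 : k 0 = 1) :
    ∃ g ∈ (Z.marks T).Iso, ∃ G, Y.Lifts Z.π g G 1 ∧ (∀ z, g (Z.D q z) = Z.D q (k 1 z)) ∧
      (∀ i, i ≠ q → ∀ w, G (Z.lg i w) = Z.lg i w) ∧
      ∀ c : ℝ → ℂ, Continuous c → (∀ t, Complex.exp (c t) = k t (Complex.exp (c 0))) →
        G (Z.lg q (c 0)) = Z.lg q (c 1) := by
  obtain ⟨K, K1, K2, K3⟩ := ker_ext_fam (Z.emb q) (isCompact_closedBall 0 2) hk hs
  have K4 : ∀ t i, i ≠ q → ∀ z, K t (Z.D i z) = Z.D i z := fun t i hi z =>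
    K3 t _ fun ⟨_, e⟩ => hi (Z.disj _ _ _ _ e).symm
  have K5 : ∀ t i x, Z.ctr i = K t x ↔ Z.ctr i = x := fun t i x => by
    have : K t (Z.ctr i) = Z.ctr i := by
      rw [← Z.D0]
      rcases eq_or_ne i q with rfl | hi
      · rw [K2, hz]
      · exact K4 t i hi 0
    nth_rewrite 1 [← this]
    exact (K t).injective.eq_iff
  have K0 : K 0 = 1 := Homeomorph.ext fun x => by
    by_cases a : x ∈ range (Z.D q)
    · obtain ⟨z, rfl⟩ := a
      rw [K2, h0]
      rfl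
    · exact K3 0 x a
  have adm : ∀ t, K t ∈ (Z.marks T).Adm := fun t => (Z.mem_adm T).2
    ⟨fun x => exists_congr fun i => and_congr_right fun _ => K5 t i x,
      fun i hi z _ => K4 t i (fun a => hq (a ▸ hi)) z⟩
  obtain ⟨G, G1, G2, G3, G4⟩ := (Z.cov T).lift_isotopy ⟨fun p => K p.1 p.2, K1.comp
    (f := fun p : unitInterval × S => ((p.1 : ℝ), p.2)) (by fun_prop)⟩
    (fun t => ⟨K t, adm t, fun _ => rfl⟩) fun x => congrFun (congrArg DFunLike.coe K0) x
  have key : ∀ x, ∀ v : ℝ → X, Continuous v → v 0 = x → (∀ t, Z.π (v t) = K t (Z.π x)) →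
      G 1 x = v 1 := fun x v a b e =>
    congrFun ((Z.cov T).eq_of_eq (u := fun t : unitInterval => G t x) (v := fun t => v t)
      (G1.comp (Continuous.prodMk_left _)) (a.comp continuous_subtype_val)
      (fun t => (G2 t x).trans (e t).symm) 0 (by rw [G4]; exact b.symm)) 1
  refine ⟨K 1, by simpa [K0] using Marks.iso_of (c := Z.marks T) K1 adm, G 1, ⟨G2 1, G3 1⟩, K2 1,
    fun i hi w => key _ _ continuous_const rfl fun t => ?_,
    fun c hc e => key _ (fun t => Z.lg q (c t)) ((Z.lg_cont q).comp hc) rfl fun t => ?_⟩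
  · rw [Z.π_lg, K4 t i hi]
  · rw [Z.π_lg, Z.π_lg, K2, e t]

omit [T2Space S] in
theorem ker_germ {f : S ≃ₜ S} {p q : Fin m} (h : f (Z.ctr p) = Z.ctr q) :
    ∃ a φ, Germ a φ ∧ φ 0 = 0 ∧ ∀ z ∈ Metric.ball (0 : ℂ) a, Z.D q (φ z) = f (Z.D p z) := by
  obtain ⟨a, a0, a1⟩ := Metric.isOpen_iff.1 ((Z.emb q).isOpen_range.preimage
    (f.continuous.comp (Z.emb p).continuous)) 0 ⟨0, by
      change Z.D q 0 = f (Z.D p 0)
      rw [Z.D0, Z.D0, h]⟩
  have e : ∀ z ∈ Metric.ball (0 : ℂ) a, Z.D q (Function.invFun (Z.D q) (f (Z.D p z))) = f (Z.D p z) :=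
    fun z hz => Function.invFun_eq (a1 hz)
  refine ⟨a, fun z => Function.invFun (Z.D q) (f (Z.D p z)), ⟨a0, ?_, fun z hz w hw b => ?_,
    fun U hU o => ?_⟩, (Z.emb q).injective ?_, e⟩
  · exact (Z.emb q).isInducing.continuousOn_iff.2
      ((f.continuous.comp (Z.emb p).continuous).continuousOn.congr e)
  · exact (Z.emb p).injective (f.injective
      ((e z hz).symm.trans ((congrArg (Z.D q) b).trans (e w hw))))
  · rw [← (Z.emb q).injective.preimage_image (_ '' U), image_image,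
      image_congr fun z hz => e z (hU hz), ← image_image f]
    exact (f.isOpenMap _ ((Z.emb p).isOpenMap _ o)).preimage (Z.emb q).continuous
  · rw [e 0 (mem_ball_self a0), Z.D0, Z.D0, h]

/-- Deep in the funnel of a marked point a commuting lift can be moved to a deck transformation. -/
theorem ker_deep {f : S ≃ₜ S} (hf : f ∈ (Z.marks T).Adm) {F : X ≃ₜ X} (hF : Y.Lifts Z.π f F 1)
    {p : Fin m} (hp : p ∉ T) :
    ∃ g ∈ (Z.marks T).Iso, ∃ G, Y.Lifts Z.π g G 1 ∧ (∀ i, i ≠ p → ∀ w, G (Z.lg i w) = Z.lg i w) ∧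
      ∃ (r : ℝ) (k : ℤ), ∀ w, w.re ≤ r → G (F (Z.lg p w)) = Y.σ (Z.γ p ^ k) • Z.lg p w := by
  obtain ⟨q, hq, e⟩ := (((Z.mem_adm T).1 hf).1 (Z.ctr p)).2 ⟨p, hp, rfl⟩
  obtain ⟨a, φ, g, φ0, φ1⟩ := Z.ker_germ e.symm
  obtain ⟨H, H1, H2, H3, H4, δ, d0, H5⟩ := local_id g.pos g.cont g.inj g.opn φ0
  obtain ⟨u, u1, G, G1, G2, G3, -⟩ := Z.ker_move T hq H1
    (fun t z hz => H2 t z (by
      rw [mem_closedBall_zero_iff, not_le] at hz
      linarith)) H3 H4
  have m0 : 0 < min δ (a / 2) := lt_min d0 (half_pos g.pos)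
  obtain ⟨r, hr⟩ : ∃ r : ℝ, ∀ w : ℂ, w.re ≤ r →
      ‖Complex.exp w‖ ≤ δ ∧ Complex.exp w ∈ Metric.ball (0 : ℂ) a := ⟨Real.log (min δ (a / 2)),
    fun w hw => by
      have := (Real.le_log_iff_exp_le m0).1 hw
      rw [mem_ball_zero_iff, Complex.norm_exp]
      exact ⟨this.trans (min_le_left _ _),
        (this.trans (min_le_right _ _)).trans_lt (half_lt_self g.pos)⟩⟩
  have L := G1.mul hF
  have key : ∀ j : ℂ → ℂ, Continuous j → (∀ w, w.re ≤ r →
      H 1 (φ (Complex.exp w)) = Complex.exp (j w)) →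
      ∃ d, ∀ w, w.re ≤ r → G (F (Z.lg p w)) = Y.σ d • Z.lg q (j w) := fun j hj h => by
    have e1 : ∀ w, w.re ≤ r → Z.π (G (F (Z.lg p w))) = Z.π (Z.lg q (j w)) := fun w hw => by
      rw [G1.lift, hF.lift, Z.π_lg, Z.π_lg, ← φ1 _ (hr w hw).2, G2, h w hw]
    obtain ⟨d, hd⟩ := (Z.fib _ _).1 (e1 r le_rfl)
    exact ⟨d, (Z.cov T).eqOn_of_eq (convex_halfSpace_re_le r).isPreconnected
      (G.continuous.comp (F.continuous.comp (Z.lg_cont p))).continuousOn
      ((continuous_const_smul (Y.σ d)).comp ((Z.lg_cont q).comp hj)).continuousOn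
      (fun w hw => (e1 w hw).trans (Z.π_smul d _).symm) (a := r) (le_refl r) hd⟩
  have hol : G (F (Z.lg p (r + (2 * Real.pi : ℝ) * Complex.I))) =
      Y.σ (Z.γ p) • G (F (Z.lg p r)) := by
    rw [Z.lg_add]
    exact L.act _ _
  have re1 : ((r : ℂ) + (2 * Real.pi : ℝ) * Complex.I).re ≤ r := by
    simp only [Complex.add_re, Complex.re_ofReal_mul, Complex.I_re, mul_zero, add_zero,
      Complex.ofReal_re, le_refl]
  rcases H5 with b | b
  · obtain ⟨d, hd⟩ := key id continuous_id fun w hw => b _ (hr w hw).1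
    rw [hd _ re1, hd r le_rfl, id, id, Z.lg_add, ← mul_smul, ← mul_smul, ← map_mul,
      ← map_mul] at hol
    obtain ⟨rfl, k, rfl⟩ := Z.ker_alg (Or.inl (eq_mul_inv_of_mul_eq (Y.cancel _ hol).symm))
    exact ⟨u, u1, G, G1, G3, r, k, hd⟩
  · obtain ⟨d, hd⟩ := key conj Complex.continuous_conj fun w hw => by
      rw [b _ (hr w hw).1, Complex.exp_conj]
    have e2 := Z.lg_add q (conj ((r : ℂ) + (2 * Real.pi : ℝ) * Complex.I))
    rw [map_add, map_mul, Complex.conj_ofReal (2 * Real.pi), Complex.conj_I, mul_neg,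
      neg_add_cancel_right, ← inv_smul_eq_iff, ← map_inv] at e2
    rw [hd _ re1, hd r le_rfl, map_add, map_mul, Complex.conj_ofReal (2 * Real.pi), Complex.conj_I,
      mul_neg, ← e2, ← mul_smul, ← mul_smul, ← map_mul, ← map_mul] at hol
    have e3 := eq_mul_inv_of_mul_eq (Y.cancel _ hol).symm
    obtain ⟨rfl, k, rfl⟩ := Z.ker_alg (Or.inr e3)
    exact (Z.ker_ne p (e3.trans (by group))).elim

/-- One more funnel on which the lift is the identity. -/
theorem ker_step {f : S ≃ₜ S} (hf : f ∈ (Z.marks T).Adm) {F : X ≃ₜ X} (hF : Y.Lifts Z.π f F 1)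
    {p : Fin m} (hp : p ∉ T) :
    ∃ g ∈ (Z.marks T).Iso, ∃ g' ∈ (Z.marks T).Iso, ∃ F', Y.Lifts Z.π (g * f * g') F' 1 ∧
      (∀ w, w.re ≤ 0 → F' (Z.lg p w) = Z.lg p w) ∧
      ∀ i, i ≠ p → ∀ w, F (Z.lg i w) = Z.lg i w → F' (Z.lg i w) = Z.lg i w := by
  obtain ⟨g, g1, G, G1, G2, r, k, G3⟩ := Z.ker_deep T hf hF hp
  obtain ⟨τ, t1, t2, t3, t4, t5⟩ := ker_shrink_fam (Real.exp_pos r)
  obtain ⟨u, u1, U, U1, -, U2, U3⟩ := Z.ker_move T hp t1 t2 (fun t => by
    obtain ⟨a, -, -, e⟩ := t4 t 0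
    rw [e, smul_zero]) t3
  obtain ⟨ρ, hρ⟩ := ker_rot_fam (-(k * (2 * Real.pi)))
  have bc := bump_cont
  obtain ⟨v, v1, V, V1, -, V2, V3⟩ := Z.ker_move T hp (k := ρ) (by simp only [hρ]; fun_prop)
    (fun t z hz => by rw [hρ, bump_zero (le_of_lt (by simpa using hz))]; simp)
    (fun t => by rw [hρ, mul_zero]) (Homeomorph.ext fun z => by simp [hρ])
  refine ⟨v * u⁻¹ * g, mul_mem (mul_mem v1 (inv_mem u1)) g1, u, u1, V * U⁻¹ * G * F * U,
    by simpa using (((V1.mul U1.inv).mul G1).mul hF).mul U1, fun w hw => ?_, fun i hi w e => ?_⟩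
  · have n0 : ‖Complex.exp w‖ ≠ 0 := norm_ne_zero_iff.2 (Complex.exp_ne_zero w)
    have n1 : ∀ t, ∃ a, 0 < a ∧ τ t (Complex.exp w) = a • Complex.exp w ∧
        ‖τ t (Complex.exp w)‖ / ‖Complex.exp w‖ = a := fun t => by
      obtain ⟨a, a0, -, e⟩ := t4 t (Complex.exp w)
      exact ⟨a, a0, e, by rw [e, norm_smul, Real.norm_of_nonneg a0.le, mul_div_cancel_right₀ _ n0]⟩
    obtain ⟨c, c1, c2, c3⟩ : ∃ c : ℝ → ℂ, Continuous c ∧ c 0 = w ∧
        ∀ t, Complex.exp (c t) = τ t (Complex.exp w) := by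
      refine ⟨fun t => w + Real.log (‖τ t (Complex.exp w)‖ / ‖Complex.exp w‖),
        continuous_const.add (Complex.continuous_ofReal.comp (Continuous.log
          ((t1.comp (Continuous.prodMk_left _)).norm.div_const _) fun t => ?_)), ?_, fun t => ?_⟩
      · obtain ⟨a, a0, -, e⟩ := n1 t
        exact (e ▸ a0).ne'
      · simp only [t3, Homeomorph.one_apply, div_self n0, Real.log_one, Complex.ofReal_zero,
          add_zero]
      · obtain ⟨a, a0, e, e'⟩ := n1 t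
        dsimp only
        rw [e', e, Complex.exp_add, ← Complex.ofReal_exp, Real.exp_log a0, mul_comm,
          Complex.real_smul]
    have a1 : U (Z.lg p w) = Z.lg p (c 1) := c2 ▸ U3 c c1 (c2 ▸ c3)
    have a2 : (c 1).re ≤ r := by
      rw [← Real.exp_le_exp, ← Complex.norm_exp, c3]
      exact t5 _ (by rwa [Complex.norm_exp, Real.exp_le_one_iff])
    have a3 : U.symm (G (F (U (Z.lg p w)))) = Y.σ (Z.γ p ^ k) • Z.lg p w := by
      rw [U.symm_apply_eq, a1, G3 _ a2, ← a1]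
      exact (U1.act _ _).symm
    change V (U.symm (G (F (U (Z.lg p w))))) = _
    rw [a3, ← Z.lg_zpow]
    have := V3 (fun t => w + (k * (2 * Real.pi) : ℝ) * Complex.I +
      (t * -(k * (2 * Real.pi)) : ℝ) * Complex.I) (by fun_prop) fun t => by
        rw [hρ, bump_one (by
          rw [Complex.norm_exp, Real.exp_le_one_iff]
          simpa only [Complex.add_re, Complex.re_ofReal_mul, Complex.I_re, mul_zero, add_zero]
            using hw), mul_one, Complex.exp_add, mul_comm, zero_mul, Complex.ofReal_zero, zero_mul,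
          add_zero]
    simpa using this
  · change V (U.symm (G (F (U (Z.lg i w))))) = _
    rw [U2 i hi, e, G2 i hi, U.symm_apply_eq.2 (U2 i hi w).symm, V2 i hi]

theorem ker_all {f : S ≃ₜ S} (hf : f ∈ (Z.marks T).Adm) {F : X ≃ₜ X} (hF : Y.Lifts Z.π f F 1)
    (h : ∀ i ∈ T, ∀ w, w.re ≤ 0 → F (Z.lg i w) = Z.lg i w) (s : Finset (Fin m)) :
    ∃ g ∈ (Z.marks T).Iso, ∃ g' ∈ (Z.marks T).Iso, ∃ F', Y.Lifts Z.π (g * f * g') F' 1 ∧
      ∀ i, i ∈ T ∨ i ∈ s → ∀ w, w.re ≤ 0 → F' (Z.lg i w) = Z.lg i w := by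
  induction s using Finset.induction_on with
  | empty => exact ⟨1, one_mem _, 1, one_mem _, F, by simpa using hF, by simpa only [Finset.notMem_empty, or_false] using h⟩
  | insert p s _ ih =>
    obtain ⟨g, g1, g', g2, F', a, b⟩ := ih
    by_cases hp : p ∈ T
    · refine ⟨g, g1, g', g2, F', a, fun i hi => b i ?_⟩
      rcases hi with hi | hi
      · exact Or.inl hi
      · exact (Finset.mem_insert.1 hi).imp_left fun e : i = p => e ▸ hp
    obtain ⟨u, u1, u', u2, F'', c, d, e⟩ := Z.ker_step T (mul_mem (mul_mem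
      ((Z.marks T).iso_le g1) hf) ((Z.marks T).iso_le g2)) a hp
    refine ⟨u * g, mul_mem u1 g1, g' * u', mul_mem g2 u2, F'', by simpa [mul_assoc] using c,
      fun i hi w hw => ?_⟩
    rcases eq_or_ne i p with rfl | n
    · exact d w hw
    · exact e i n w (b i (hi.imp_right fun k => (Finset.mem_insert.1 k).resolve_left n) w hw)

omit [T2Space S] in
theorem ker_desc {A : Type} [TopologicalSpace A] {H : A → X → X}
    (hc : Continuous fun p : A × X => H p.1 p.2) (hH : ∀ t γ x, H t (Y.σ γ • x) = Y.σ γ • H t x)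
    {r : ℝ} (hr : 0 < r) (h : ∀ t i z x, ‖z‖ ≤ r → Z.π x = Z.D i z → Z.π (H t x) = Z.π x) :
    ∃ k : A → S → S, Continuous (fun p : A × S => k p.1 p.2) ∧
      (∀ t x, k t (Z.π x) = Z.π (H t x)) ∧ ∀ t i z, ‖z‖ ≤ r → k t (Z.D i z) = Z.D i z := by
  have e1 : ∀ t x, Function.extend Z.π (Z.π ∘ H t) id (Z.π x) = Z.π (H t x) := fun t x =>
    Function.FactorsThrough.extend_apply (fun a b e => by
      obtain ⟨γ, rfl⟩ := (Z.fib _ _).1 e
      exact (congrArg Z.π (hH t γ b)).trans (Z.π_smul _ _)) id x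
  have e2 : ∀ t i z, ‖z‖ ≤ r → Function.extend Z.π (Z.π ∘ H t) id (Z.D i z) = Z.D i z :=
    fun t i z hz => by
      by_cases a : ∃ x, Z.π x = Z.D i z
      · obtain ⟨x, hx⟩ := a
        rw [← hx, e1, h t i z x hz hx]
      · exact Function.extend_apply' _ _ _ a
  refine ⟨fun t => Function.extend Z.π (Z.π ∘ H t) id, continuous_iff_continuousAt.2 ?_, e1, e2⟩
  rintro ⟨t, s⟩
  by_cases a : ∀ i, s ≠ Z.ctr i
  · obtain ⟨x, rfl⟩ := (Z.rng s).2 a
    have := (IsOpenMap.id.prodMap Z.opn).map_nhds_eq (x := (t, x))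
      (continuous_id.prodMap Z.cont).continuousAt
    rw [ContinuousAt, ← show _ = 𝓝 (t, Z.π x) from this, Filter.tendsto_map'_iff]
    exact ((Z.cont.comp hc).congr (g := fun p : A × X =>
      Function.extend Z.π (Z.π ∘ H p.1) id (Z.π p.2)) fun p => (e1 p.1 p.2).symm).tendsto (t, x)
  · push Not at a
    obtain ⟨i, rfl⟩ := a
    refine continuousAt_snd.congr (Filter.eventually_of_mem (continuousAt_snd.preimage_mem_nhds
      (show Z.D i '' closedBall 0 r ∈ 𝓝 (Z.ctr i) from Z.D0 i ▸ (Z.emb i).isOpenMap.image_mem_nhds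
        (closedBall_mem_nhds 0 hr))) ?_)
    rintro ⟨t', _⟩ ⟨z, hz, rfl⟩
    exact (e2 t' i z (mem_closedBall_zero_iff.1 hz)).symm

end Model

end Pool.Agent.MP_646035_al.NO
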