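import Pool.Agent.MP_4a6971_al.H83.Baer
import Pool.Agent.MP_646035_al.Cx.Defs
import Pool.Agent.MP_646035_al.Mg.NO_Iface

attribute [-instance] Prod.instSMul SMulWithZero.toSMulZeroClass Semiring.toMonoid
  DivisionCommMonoid.toDivisionMonoid Prod.mulAction ESeminormedAddCommMonoid.toAddCommMonoid
  MonTypeEquivalenceMon.monMonoid NonUnitalRingHomClass.toMulHomClass AddCommGroup.toAddGroup
  AddQuantale.instAddLeftMono Algebra.toSMul ESeminormedAddMonoid.toAddMonoid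
  AddCommMonoidWithOne.toAddMonoidWithOne SetLike.GradeZero.instMonoid SemigroupWithZero.toSemigroup
  Prod.distribSMul NonUnitalNonAssocSemiring.toAddCommMonoid CommRing.toRing MonoidWithZero.toMonoid
  Valued.toUniformSpace NonUnitalAlgSemiHomClass.toMulHomClass instSMulZeroClass
  NonUnitalNormedRing.toNormedAddCommGroup DivisionRing.toRing AddQuantale.instAddRightMono
  NumberField.to_charZero GroupConeClass.toSubmonoidClass AddCommGroupWithOne.toAddGroupWithOne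
  NormedRing.toRing TotallySeparatedSpace.t2Space SubtractionMonoid.toSubNegMonoid
  CommSemiring.toSemiring AddRightCancelMonoid.toAddMonoid Quantale.instMulRightMono
  SeminormedRing.toRing RCLike.toInnerProductSpaceReal littleWedderburn
  MonoidWithZero.toMulZeroOneClass TestFunctionClass.toDFunLike IdemSemiring.toCanonicallyOrderedAdd
  ContDiffMapSupportedInClass.toDFunLike CStarAlgebra.instOrderClosedTopology
  SeminormedAddGroup.toAddGroup SubNegZeroMonoid.toSubNegMonoid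
  LinearOrderedCommMonoidWithZero.toPosMulStrictMono AddLeftCancelMonoid.toAddMonoid
  LinearOrderedAddCommMonoidWithTop.toAddCommMonoid NonUnitalRing.toNonUnitalNonAssocRing
  NormedAddGroup.toAddGroup IsometryClass.instCoeOutIsometryEquiv DivisionRing.toDivInvMonoid
  AddCancelCommMonoid.toAddCommMonoid CommMonoid.toMonoid GroupWithZero.toDivInvMonoid

/-!
The theorem of Baer and Epstein for surfaces with cross caps: definitions.
-/

namespace Pool.Agent.MP_646035_al.NO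

open Pool.Agent.MP_4a6971_al.H66 Pool.Agent.MP_4a6971_al.H83 MC Set

variable {Γ : Type} [Group Γ]

namespace Fuchs

variable (Y : Fuchs Γ)

/-- `F` commutes with the group. -/
def Comm (F : X ≃ₜ X) : Prop := ∀ γ x, F (Y.σ γ • x) = Y.σ γ • F x

/-- `F` is the identity below the level `r` behind every boundary line. -/
def Fix (r : ℝ) (F : X ≃ₜ X) : Prop := ∀ N ∈ Y.per, ∀ x, bf N x ≤ r → F x = x

/-- The relative theorem of Baer and Epstein, with a loss of level. -/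
def Baer (ρ : ℝ) : Prop :=
  ∀ F : X ≃ₜ X, Y.Comm F → Y.Fix 0 F → ∃ H : ℝ → X ≃ₜ X,
    Continuous (fun p : ℝ × X => H p.1 p.2) ∧ (∀ t, Y.Comm (H t) ∧ Y.Fix ρ (H t)) ∧
      H 0 = 1 ∧ H 1 = F

end Fuchs

/-- A free proper action, a set `Z` that is never moved, a convex set `Cv` with compact quotient,
and finitely many orbits of axes of glide reflections with disjoint collars inside `Cv`. -/
structure Cores (Γ : Type) [Group Γ] where
  σ : Γ →* Isom
  Z : Set X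
  Cv : Set X
  m : ℕ
  fr : Fin m → Isom
  k : Fin m → Γ
  t : Fin m → ℝ
  η : ℝ
  proper : ∀ R, {γ | cd oX (σ γ • oX) ≤ R}.Finite
  free : ∀ γ (x : X), σ γ • x = x → γ = 1
  Z_smul : ∀ γ, ∀ x ∈ Z, σ γ • x ∈ Z
  Cv_smul : ∀ γ, ∀ x ∈ Cv, σ γ • x ∈ Cv
  cvx : Cvx Cv
  cpt : ∃ R, ∀ x ∈ Cv, ∃ γ, cd x (σ γ • oX) ≤ R
  far : ∀ x ∈ Cv, ∀ z ∈ Z, 2 ≤ cd x z
  t_pos : ∀ i, 0 < t i
  η_pos : 0 < η
  fr_k : ∀ i, σ (k i) * fr i = fr i * (flp * dil (t i))
  col : ∀ γ i j x, |bf (fr i • E0) x| ≤ η → |bf (fr j • E0) (σ γ • x)| ≤ η →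
    i = j ∧ γ ∈ Subgroup.zpowers (k i)
  ins : ∀ i x, |bf (fr i • E0) x| ≤ η → x ∈ Cv

namespace Cores

variable (C : Cores Γ)

/-- `F` commutes with the group and fixes `Z` pointwise. -/
def Ok (F : X ≃ₜ X) : Prop := (∀ γ x, F (C.σ γ • x) = C.σ γ • F x) ∧ ∀ x ∈ C.Z, F x = x

/-- `F` is isotopic to the identity through such maps. -/
def Iso (F : X ≃ₜ X) : Prop :=
  ∃ H : ℝ → X ≃ₜ X, Continuous (fun p : ℝ × X => H p.1 p.2) ∧ (∀ t, C.Ok (H t)) ∧
    H 0 = 1 ∧ H 1 = F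

/-- `F'` is obtained from `F` by such an isotopy. -/
def Red (F F' : X ≃ₜ X) : Prop := C.Ok F' ∧ (C.Iso F' → C.Iso F)

/-- The goal of the disc flow. -/
def Goal : Prop :=
  ∀ F, C.Ok F → (∀ x ∈ C.Cv, F x ∈ C.Cv) →
    ∃ F', C.Red F F' ∧ ∀ i x, bf (C.fr i • E0) x = 0 → F' x = x

end Cores

/-- The part of `Cap.Tiles` that is used. -/
structure Cap.Til (K : Cap Γ) : Prop where
  cover : ∀ x : X, ∃ g ∈ K.G, g • x ∈ K.T
  nf : ∀ g ∈ K.G, (∃ γ, g = K.Y.σ γ) ∨ ∃ N ∈ K.C, (∃ γ, g = K.κ N * K.Y.σ γ) ∨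
    ∃ M ∈ K.C, M ≠ N ∧ ∀ x ∈ K.T, bf (K.κ N • M) (g • x) ≤ 0

end Pool.Agent.MP_646035_al.NO

/-!
Equivariant moves and the disc flow for the cores of the cross caps.
-/

namespace Pool.Agent.MP_646035_al.NO

open Pool.Agent.MP_4a6971_al.H66 Pool.Agent.MP_4a6971_al.H83 MC Set Topology

variable {Γ : Type} [Group Γ]

namespace Cores

variable {C : Cores Γ} {F F' F'' H : X ≃ₜ X}

theorem Ok.mul (h : C.Ok F) (h' : C.Ok F') : C.Ok (F * F') :=
  ⟨fun γ x => (congrArg F (h'.1 γ x)).trans (h.1 γ _),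
    fun x a => (congrArg F (h'.2 x a)).trans (h.2 x a)⟩

theorem Ok.inv (h : C.Ok F) : C.Ok F⁻¹ :=
  ⟨fun γ x => by
    change F.symm _ = C.σ γ • F.symm x
    rw [F.symm_apply_eq, h.1, F.apply_symm_apply], fun x a => F.symm_apply_eq.2 (h.2 x a).symm⟩

theorem Iso.ok (h : C.Iso F) : C.Ok F := by
  obtain ⟨H, -, a, -, rfl⟩ := h
  exact a 1

theorem Iso.mul (h : C.Iso F) (h' : C.Iso F') : C.Iso (F * F') := by
  obtain ⟨H, a, b, c, d⟩ := h
  obtain ⟨H', a', b', c', d'⟩ := h'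
  exact ⟨fun t => H t * H' t, a.comp (continuous_fst.prodMk a'), fun t => (b t).mul (b' t),
    by simp only [c, c', mul_one], by simp only [d, d']⟩

theorem Iso.inv (h : C.Iso F) : C.Iso F⁻¹ := by
  have hF := h.ok
  obtain ⟨H, a, b, c, d⟩ := h
  exact ⟨fun t => H (1 - t) * F⁻¹,
    a.comp ((continuous_const.sub continuous_fst).prodMk (F.symm.continuous.comp continuous_snd)),
    fun t => (b _).mul hF.inv, by simp [d], by simp [c]⟩

theorem Red.refl (h : C.Ok F) : C.Red F F := ⟨h, id⟩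

theorem Red.trans (h : C.Red F F') (h' : C.Red F' F'') : C.Red F F'' := ⟨h'.1, h.2 ∘ h'.2⟩

theorem Red.left (h : C.Ok F) (h' : C.Iso H) : C.Red F (H * F) :=
  ⟨h'.ok.mul h, fun a => by simpa using h'.inv.mul a⟩

theorem Red.right (h : C.Ok F) (h' : C.Iso H) : C.Red F (F * H) :=
  ⟨h.mul h'.ok, fun a => by simpa using a.mul h'.inv⟩

theorem fin (C : Cores Γ) {D D' : Set X} (h : IsCompact D) (h' : IsCompact D') :
    {w : Γ | ∃ x ∈ D, C.σ w • x ∈ D'}.Finite := by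
  obtain ⟨R, hR⟩ := subset_Dsc h oX
  obtain ⟨R', hR'⟩ := subset_Dsc h' oX
  refine (C.proper (2 * R' * R)).subset ?_
  rintro w ⟨x, hx, hx'⟩
  have a : cd oX x ≤ R := hR hx
  have b : cd oX (C.σ w • x) ≤ R' := hR' hx'
  have c := cd_tri oX (C.σ w • x) (C.σ w • oX)
  rw [cd_smul, cd_comm (C.σ w • x), cd_comm x] at c
  have d := one_le_cd oX x
  have e := one_le_cd oX (C.σ w • x)
  change cd oX (C.σ w • oX) ≤ _
  refine c.trans ?_
  have f : cd oX (C.σ w • x) * cd oX x ≤ R' * R :=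
    mul_le_mul b a (by linarith) (by linarith)
  linarith

theorem pl_orbit (C : Cores Γ) {S : Set X} (h : Pl S) {D : Set X} (hC : IsCompact D) (hS : S ⊆ D) :
    Pl {y | ∃ (γ : Γ), ∃ x ∈ S, y = C.σ γ • x} := by
  classical
  intro C' hC'
  obtain ⟨t, t1, t2⟩ := h D hC
  have hf := C.fin hC hC'
  refine ⟨(hf.toFinset ×ˢ t).image fun p => C.σ p.1 • p.2, ?_, ?_⟩
  · intro N hN
    obtain ⟨p, hp, rfl⟩ := Finset.mem_image.1 hN
    rw [Bf_isom]
    exact t1 _ (Finset.mem_product.1 hp).2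
  · rintro y ⟨⟨γ, x, hx, rfl⟩, hy⟩
    obtain ⟨N, hN, e⟩ := t2 x ⟨hx, hS hx⟩
    refine ⟨C.σ γ • N, Finset.mem_image.2 ⟨(γ, N), Finset.mem_product.2 ⟨?_, hN⟩, rfl⟩, ?_⟩
    · exact hf.mem_toFinset.2 ⟨x, hS hx, hy⟩
    · rw [bf_smul, e]

open Classical in
/-- The equivariant extension of a family of maps. -/
noncomputable def ext (C : Cores Γ) {ι : Type} (K : ι → Set X) (k : ι → X ≃ₜ X) (x : X) : X :=
  if h : ∃ p : Γ × ι, (C.σ p.1)⁻¹ • x ∈ interior (K p.2) then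
    C.σ h.choose.1 • k h.choose.2 ((C.σ h.choose.1)⁻¹ • x) else x

section

variable {ι : Type} {K : ι → Set X}

theorem ext_out {k : ι → X ≃ₜ X} {x : X}
    (h : ∀ (γ : Γ) i, C.σ γ • x ∉ interior (K i)) : C.ext K k x = x := by
  rw [ext, dif_neg]
  rintro ⟨p, hp⟩
  rw [← map_inv] at hp
  exact h _ _ hp

theorem cases (C : Cores Γ) (K : ι → Set X) (x : X) :
    (∃ (γ : Γ) (i : ι), ∃ y ∈ K i, x = C.σ γ • y) ∨
      ∀ (γ : Γ) i, C.σ γ • x ∉ interior (K i) := by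
  by_cases h : ∀ (γ : Γ) i, C.σ γ • x ∉ interior (K i)
  · exact Or.inr h
  · push Not at h
    obtain ⟨γ, i, h⟩ := h
    exact Or.inl ⟨γ⁻¹, i, _, interior_subset h, by rw [map_inv, inv_smul_smul]⟩

variable (hc : ∀ i, Cvx (K i)) (hn : ∀ i, (interior (K i)).Nonempty)
  (hd : ∀ (γ : Γ) i j x, x ∈ interior (K i) → C.σ γ • x ∈ interior (K j) → γ = 1 ∧ i = j)

include hc hn hd

theorem uniq {γ : Γ} {i j : ι} {x : X} (hx : x ∈ K i)
    (h : C.σ γ • x ∈ interior (K j)) : γ = 1 ∧ i = j := by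
  have ho : IsOpen {y : X | C.σ γ • y ∈ interior (K j)} :=
    isOpen_interior.preimage (continuous_const_smul _)
  obtain ⟨y, a, b⟩ := mem_closure_iff.1 (Trans_cl (hc i) (hn i) hx) _ ho h
  exact hd γ i j y b a

theorem ext_in {k : ι → X ≃ₜ X} (hs : ∀ i, Supp (k i) (K i)) (γ : Γ) {i : ι} {y : X}
    (hy : y ∈ K i) : C.ext K k (C.σ γ • y) = C.σ γ • k i y := by
  rw [ext]
  split_ifs with h
  · have a := h.choose_spec
    generalize h.choose = p at a ⊢
    rw [← map_inv, ← mul_smul, ← map_mul] at a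
    obtain ⟨b, rfl⟩ := uniq hc hn hd hy a
    rw [inv_mul_eq_one.1 b, inv_smul_smul]
  · rw [hs i y]
    intro a
    exact h ⟨(γ, i), by rwa [inv_smul_smul]⟩

theorem ext_inv {k k' : ι → X ≃ₜ X} (hs : ∀ i, Supp (k i) (K i))
    (hs' : ∀ i, Supp (k' i) (K i)) (e : ∀ i y, k' i (k i y) = y) (x : X) :
    C.ext K k' (C.ext K k x) = x := by
  rcases C.cases K x with ⟨γ, i, y, hy, rfl⟩ | h
  · rw [ext_in hc hn hd hs γ hy, ext_in hc hn hd hs' γ ((hs i).mem.2 hy), e]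
  · rw [ext_out h, ext_out h]

theorem ext_comm {k : ι → X ≃ₜ X} (hs : ∀ i, Supp (k i) (K i)) (δ : Γ) (x : X) :
    C.ext K k (C.σ δ • x) = C.σ δ • C.ext K k x := by
  rcases C.cases K x with ⟨γ, i, y, hy, rfl⟩ | h
  · rw [← mul_smul, ← map_mul, ext_in hc hn hd hs _ hy, ext_in hc hn hd hs _ hy,
      map_mul, mul_smul]
  · rw [ext_out h, ext_out]
    intro γ i
    rw [← mul_smul, ← map_mul]
    exact h _ i

theorem ext_cont [Finite ι] (hK : ∀ i, IsCompact (K i)) {k : ℝ → ι → X ≃ₜ X}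
    (hs : ∀ t i, Supp (k t i) (K i)) (hk : ∀ i, Continuous fun p : ℝ × X => k p.1 i p.2) :
    Continuous fun p : ℝ × X => C.ext K (k p.1) p.2 := by
  let f : Γ × ι → Set (ℝ × X) := fun q => {p | (C.σ q.1)⁻¹ • p.2 ∈ K q.2}
  let s : Set (ℝ × X) := {p | ∀ (γ : Γ) i, C.σ γ • p.2 ∉ interior (K i)}
  have hf : LocallyFinite f := by
    intro p
    have hD : Dsc p.2 2 ∈ 𝓝 p.2 := by
      rw [← mem_interior_iff_mem_nhds, interior_Dsc]
      change cd p.2 p.2 < 2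
      rw [cd_self]
      norm_num
    refine ⟨Prod.snd ⁻¹' Dsc p.2 2, continuous_snd.continuousAt hD, ?_⟩
    have a := C.fin (isCompact_iUnion hK) (isCompact_Dsc p.2 2)
    refine (a.prod (finite_univ (α := ι))).subset ?_
    rintro q ⟨r, r1, r2⟩
    refine ⟨⟨_, mem_iUnion.2 ⟨q.2, r1⟩, ?_⟩, mem_univ _⟩
    rwa [smul_inv_smul]
  refine (hf.option_elim' s).continuous ?_ ?_ ?_
  · refine eq_univ_of_forall fun p => mem_iUnion.2 ?_
    rcases C.cases K p.2 with ⟨γ, i, y, hy, e⟩ | h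
    · refine ⟨some (γ, i), ?_⟩
      change (C.σ γ)⁻¹ • p.2 ∈ K i
      rwa [e, inv_smul_smul]
    · exact ⟨none, h⟩
  · rintro (_ | q)
    · change IsClosed {p : ℝ × X | ∀ (γ : Γ) i, C.σ γ • p.2 ∉ interior (K i)}
      simp only [ofPred_forall]
      exact isClosed_iInter fun γ => isClosed_iInter fun i =>
        (isOpen_interior.preimage ((continuous_const_smul (C.σ γ)).comp
          continuous_snd)).isClosed_compl
    · exact (hK q.2).isClosed.preimage ((continuous_const_smul (C.σ q.1)⁻¹).comp continuous_snd)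
  · rintro (_ | q)
    · exact continuous_snd.continuousOn.congr fun p hp => ext_out hp
    · have a : Continuous fun p : ℝ × X => C.σ q.1 • k p.1 q.2 ((C.σ q.1)⁻¹ • p.2) :=
        (continuous_const_smul _).comp ((hk q.2).comp (continuous_fst.prodMk
          ((continuous_const_smul (C.σ q.1)⁻¹).comp continuous_snd)))
      refine a.continuousOn.congr fun p hp => ?_
      have b := ext_in hc hn hd (hs p.1) q.1 (i := q.2) (y := (C.σ q.1)⁻¹ • p.2) hp
      rwa [smul_inv_smul] at b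

theorem ext_cont' [Finite ι] (hK : ∀ i, IsCompact (K i)) {k : ι → X ≃ₜ X}
    (hs : ∀ i, Supp (k i) (K i)) : Continuous (C.ext K k) :=
  (ext_cont hc hn hd hK (k := fun _ => k) (fun _ => hs)
    fun i => (k i).continuous.comp continuous_snd).comp
      ((continuous_const (y := (0 : ℝ))).prodMk continuous_id)

end

/-- Equivariant moves. -/
theorem move (C : Cores Γ) {ι : Type} [Finite ι] (K : ι → Set X) (hK : ∀ i, IsCompact (K i))
    (hc : ∀ i, Cvx (K i)) (hn : ∀ i, (interior (K i)).Nonempty)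
    (hd : ∀ (γ : Γ) i j x, x ∈ interior (K i) → C.σ γ • x ∈ interior (K j) → γ = 1 ∧ i = j)
    (hZ : ∀ i, ∀ x ∈ C.Z, x ∉ interior (K i)) (h : ι → X ≃ₜ X) (hs : ∀ i, Supp (h i) (K i)) :
    ∃ H, C.Iso H ∧ (∀ i, ∀ x ∈ K i, H x = h i x) ∧
      ∀ x, (∀ (γ : Γ) i, C.σ γ • x ∉ interior (K i)) → H x = x := by
  choose k k1 k2 k3 k4 using fun i => alexX (hK i) (hc i) (hs i)
  let H : ℝ → X ≃ₜ X := fun t =>
    { toFun := C.ext K fun i => k i t
      invFun := C.ext K fun i => (k i t)⁻¹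
      left_inv := ext_inv hc hn hd (fun i => k2 i t) (fun i => (k2 i t).inv)
        fun i y => (k i t).symm_apply_apply y
      right_inv := ext_inv hc hn hd (fun i => (k2 i t).inv) (fun i => k2 i t)
        fun i y => (k i t).apply_symm_apply y
      continuous_toFun := ext_cont' hc hn hd hK fun i => k2 i t
      continuous_invFun := ext_cont' hc hn hd hK fun i => (k2 i t).inv }
  have hH : ∀ t x, H t x = C.ext K (fun i => k i t) x := fun _ _ => rfl
  refine ⟨H 1, ⟨H, ?_, fun t => ⟨fun γ x => ?_, fun x hx => ?_⟩, ?_, rfl⟩, fun i x hx => ?_,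
    fun x hx => ?_⟩
  · exact ext_cont hc hn hd hK (k := fun t i => k i t) (fun t i => k2 i t) k1
  · exact ext_comm hc hn hd (fun i => k2 i t) γ x
  · rw [hH]
    exact ext_out fun γ i => hZ i _ (C.Z_smul γ x hx)
  · ext1 x
    rw [hH]
    rcases C.cases K x with ⟨γ, i, y, hy, rfl⟩ | a
    · rw [ext_in hc hn hd (fun i => k2 i 0) γ hy, k3]
      rfl
    · exact ext_out a
  · have a := ext_in hc hn hd (fun i => k2 i 1) 1 hx
    rw [map_one, one_smul, one_smul, k4] at a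
    exact a
  · rw [hH]
    exact ext_out hx

/-- The normals of the cores. -/
def Nr (C : Cores Γ) (N : V) : Prop := ∃ γ i, N = C.σ γ • C.fr i • E0

/-- The union of the cores. -/
def L (C : Cores Γ) : Set X := {x | ∃ N, C.Nr N ∧ bf N x = 0}

variable {N N' : V}

theorem Nr.unit (h : C.Nr N) : Bf N N = 1 := by
  obtain ⟨γ, i, rfl⟩ := h
  rw [Bf_isom, Bf_isom, Bf_E0]
  rfl

theorem Nr.smul (h : C.Nr N) (γ : Γ) : C.Nr (C.σ γ • N) := by
  obtain ⟨δ, i, rfl⟩ := h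
  exact ⟨γ * δ, i, by rw [map_mul, mul_smul]⟩

theorem nr (C : Cores Γ) (i : Fin C.m) : C.Nr (C.fr i • E0) := ⟨1, i, by simp only [map_one, one_smul]⟩

theorem k_nr (C : Cores Γ) (i : Fin C.m) : C.σ (C.k i) • C.fr i • E0 = -(C.fr i • E0) := by
  rw [← mul_smul, C.fr_k, mul_smul, mul_smul, ← smul_neg, ← flp_E0]
  simp only [E0, dil_smul, zero_mul]

theorem zpow_nr {i : Fin C.m} {γ : Γ} (h : γ ∈ Subgroup.zpowers (C.k i)) :
    C.σ γ • C.fr i • E0 = C.fr i • E0 ∨ C.σ γ • C.fr i • E0 = -(C.fr i • E0) := by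
  obtain ⟨n, rfl⟩ := h
  have e : (C.σ (C.k i))⁻¹ • C.fr i • E0 = -(C.fr i • E0) := by
    rw [inv_smul_eq_iff, smul_neg, k_nr, neg_neg]
  induction n using Int.induction_on with
  | zero => simp only [zpow_ofNat, pow_zero, map_one, one_smul, true_or]
  | succ n h =>
    simp only [zpow_add_one, map_mul, mul_smul, k_nr, smul_neg] at h ⊢
    rcases h with h | h <;> rw [h] <;> simp
  | pred n h =>
    simp only [zpow_sub_one, map_mul, map_inv, mul_smul, e, smul_neg] at h ⊢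
    rcases h with h | h <;> rw [h] <;> simp

theorem Nr.same (h : C.Nr N) (h' : C.Nr N') {x : X} (a : |bf N x| ≤ C.η) (b : |bf N' x| ≤ C.η) :
    N' = N ∨ N' = -N := by
  obtain ⟨γ, i, rfl⟩ := h
  obtain ⟨δ, j, rfl⟩ := h'
  obtain ⟨x, rfl⟩ := MulAction.surjective (C.σ δ) x
  rw [bf_smul] at b
  obtain ⟨rfl, e⟩ := C.col (γ⁻¹ * δ) j i x b (by
    rwa [map_mul, map_inv, mul_smul, ← bf_smul (C.σ γ), smul_inv_smul])
  rcases zpow_nr e with e | e <;> rw [map_mul, map_inv, mul_smul, inv_smul_eq_iff] at e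
  · exact Or.inl e
  · exact Or.inr (e.trans (smul_neg _ _))

theorem Nr.ins (h : C.Nr N) {x : X} (a : |bf N x| ≤ C.η) : x ∈ C.Cv := by
  obtain ⟨γ, i, rfl⟩ := h
  obtain ⟨x, rfl⟩ := MulAction.surjective (C.σ γ) x
  exact C.Cv_smul γ x (C.ins i x (by rwa [bf_smul] at a))

theorem not_Z {x : X} (h : x ∈ C.Cv) : x ∉ C.Z := fun a => by
  have := C.far x h x a
  rw [cd_self] at this
  norm_num at this

/-- The components inside one disc. -/
def J (C : Cores Γ) (F : X ≃ₜ X) (c : X) (R : ℝ) : Set (X × X) :=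
  {t | ∃ N, C.Nr N ∧ bf N t.1 = 0 ∧ bf N t.2 = 0 ∧ Comp F c R t.1 t.2}

theorem J_fin (hP : Pl (F '' C.L)) (c : X) (R : ℝ) : (C.J F c R).Finite := by
  have hA : (F ⁻¹' {y ∈ F '' C.L | cd c y = R}).Finite :=
    (hP.circle c R).preimage F.injective.injOn
  refine (hA.prod hA).subset ?_
  rintro ⟨a, b⟩ ⟨N, n, ha, hb, h⟩
  exact ⟨⟨⟨a, ⟨N, n, ha⟩, rfl⟩, h.ha⟩, ⟨⟨b, ⟨N, n, hb⟩, rfl⟩, h.hb⟩⟩

theorem J_two (C : Cores Γ) (F : X ≃ₜ X) (c : X) (R : ℝ) :
    TwoCol (Dsc c R) (fun (t : C.J F c R) τ => F (gp t.1.1 t.1.2 τ)) fun _ => 0 := by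
  refine ⟨?_, ?_, fun _ _ e => (e rfl).elim, fun _ _ e => (e rfl).elim⟩
  · rintro ⟨t, N, -, -, -, h⟩
    exact h.parc
  · rintro ⟨⟨a, b⟩, m⟩ ⟨⟨a', b'⟩, m'⟩ -
    simp only [Step_img, gp_zero, gp_one]
    obtain ⟨N, p, ha, hb, h⟩ := m
    obtain ⟨N', p', ha', hb', h'⟩ := m'
    dsimp only at ha hb h ha' hb' h'
    by_cases d : (a = a' ∧ b = b') ∨ (a = b' ∧ b = a')
    · left
      rcases d with ⟨rfl, rfl⟩ | ⟨rfl, rfl⟩
      · rfl
      · rw [seg_comm]
    · right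
      refine ⟨fun t ht t' ht' q => d ?_, fun q => d ?_⟩
      · have q' := F.injective q
        have m : gp a b t ∈ seg a b := by
          rw [seg_eq]; exact ⟨t, Ioo_subset_Icc_self ht, rfl⟩
        have m' : gp a b t ∈ seg a' b' := by
          rw [q', seg_eq]; exact ⟨t', Ioo_subset_Icc_self ht', rfl⟩
        have s := p.same p' (x := gp a b t)
          (by rw [Step_on ha hb m, abs_zero]; exact C.η_pos.le)
          (by rw [Step_on ha' hb' m', abs_zero]; exact C.η_pos.le)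
        have z : ∀ y, bf N' y = 0 → bf N y = 0 := fun y hy => by
          rcases s with s | s <;> rw [s] at hy
          · exact hy
          · simpa using hy
        exact h.unique p.unit h' ha hb (z _ ha') (z _ hb') m m' (h.gp_lt ht)
      · rw [← image_pair, ← image_pair, F.injective.image_injective.eq_iff] at q
        exact pair_eq_pair_iff.1 q

theorem J_pull (hF : C.Ok F) {γ : Γ} {c : X} {R : ℝ} (n : C.Nr N)
    {a b : X} (ha : bf N (C.σ γ • a) = 0) (hb : bf N (C.σ γ • b) = 0)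
    (h : Comp F (C.σ γ • c) R (C.σ γ • a) (C.σ γ • b)) : (a, b) ∈ C.J F c R := by
  have e : ∀ x, bf (C.σ γ⁻¹ • N) x = bf N (C.σ γ • x) := fun x => by
    rw [← bf_smul (C.σ γ), map_inv, smul_inv_smul]
  refine ⟨_, n.smul γ⁻¹, (e a).trans ha, (e b).trans hb, fun q => h.ne (congrArg _ q),
    ?_, ?_, fun y hy n1 n2 => ?_⟩
  · have := h.ha
    rwa [hF.1, cd_smul] at this
  · have := h.hb
    rwa [hF.1, cd_smul] at this
  · have := h.mid (C.σ γ • y) ((smul_mem_seg _).2 hy) (fun q => n1 (smul_left_cancel _ q))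
      (fun q => n2 (smul_left_cancel _ q))
    rwa [hF.1, cd_smul] at this

/-- One step of the disc flow. -/
theorem step {ι : Type} [Finite ι] (c : ι → X) {R : ℝ} (hR : 1 < R) (hR2 : R ≤ 2)
    (hc : ∀ i, c i ∈ C.Cv)
    (hd : ∀ (γ : Γ) i j x, x ∈ Dsc (c i) R → C.σ γ • x ∈ Dsc (c j) R → γ = 1 ∧ i = j)
    (hF : C.Ok F) (hP : Pl (F '' C.L)) :
    ∃ F', C.Red F F' ∧ Pl (F' '' C.L) ∧
      (∀ x, (∀ (γ : Γ) i, R ≤ cd (C.σ γ • c i) (F x)) → F' x = F x) ∧
      ∀ N (γ : Γ) i a b, C.Nr N → bf N a = 0 → bf N b = 0 →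
        Comp F (C.σ γ • c i) R a b → F' '' seg a b = seg (F a) (F b) := by
  have hfin : ∀ i, Finite (C.J F (c i) R) := fun i => (J_fin hP (c i) R).to_subtype
  choose f hf hf' using fun i => twoX (C.J_two F (c i) R)
  obtain ⟨H, h0, h1, h2⟩ := C.move (fun i => Dsc (c i) R) (fun i => isCompact_Dsc _ _)
    (fun i => cvx_Dsc _ _) (fun i => ⟨c i, by rw [interior_Dsc]; simpa [cd_self] using hR⟩)
    (fun γ i j x a b => hd γ i j x (interior_subset a) (interior_subset b))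
    (fun i x a b => by
      rw [interior_Dsc] at b
      exact (hR2.trans (C.far _ (hc i) x a)).not_gt b) f hf
  have hred := Red.left hF h0
  have base : ∀ i a b, (a, b) ∈ C.J F (c i) R → (H * F) '' seg a b = seg (F a) (F b) := by
    intro i a b m
    have e := hf' i ⟨_, m⟩
    simp only [Step_img, gp_zero, gp_one] at e
    obtain ⟨w, -, -, -, h⟩ := m
    rw [← e, image_image]
    exact image_congr fun x hx => h1 i _ (h.subset ⟨x, hx, rfl⟩)
  have out : ∀ x, (∀ (γ : Γ) i, R ≤ cd (C.σ γ • c i) (F x)) → (H * F) x = F x := by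
    intro x hx
    refine h2 _ fun γ i => ?_
    have := hx γ⁻¹ i
    rw [← cd_smul (C.σ γ), map_inv, smul_inv_smul] at this
    rw [interior_Dsc]
    exact not_lt.2 this
  have main : ∀ (γ : Γ) i a b, (a, b) ∈ C.J F (c i) R →
      (H * F) '' seg (C.σ γ • a) (C.σ γ • b) = (fun y => C.σ γ • y) '' seg (F a) (F b) := by
    intro γ i a b m
    rw [← base i a b m, Step_seg_smul, image_image, image_image]
    exact image_congr fun x _ => hred.1.1 γ x
  refine ⟨H * F, hred, ?_, out, ?_⟩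
  · have hS : Pl (⋃ t : Σ i, C.J F (c i) R, seg (F t.2.1.1) (F t.2.1.2)) :=
      pl_iUnion fun t => pl_seg _ _
    have hC : IsCompact (⋃ i, Dsc (c i) R) := isCompact_iUnion fun i => isCompact_Dsc _ _
    refine (hP.union (C.pl_orbit hS hC ?_)).mono ?_
    · refine iUnion_subset ?_
      rintro ⟨i, ⟨a, b⟩, w, -, -, -, h⟩
      exact subset_iUnion_of_subset i (cvx_Dsc _ _ _ h.ha.le _ h.hb.le)
    · rintro _ ⟨x, ⟨N, n, hx⟩, rfl⟩
      by_cases d : ∀ (γ : Γ) i, R ≤ cd (C.σ γ • c i) (F x)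
      · exact Or.inl ⟨x, ⟨N, n, hx⟩, (out x d).symm⟩
      · simp only [not_forall, not_le] at d
        obtain ⟨γ, i, d⟩ := d
        obtain ⟨a, b, ha, hb, h, m⟩ := exists_comp n.unit F hx d
        obtain ⟨a, rfl⟩ : ∃ a', a = C.σ γ • a' := ⟨_, (smul_inv_smul _ a).symm⟩
        obtain ⟨b, rfl⟩ : ∃ b', b = C.σ γ • b' := ⟨_, (smul_inv_smul _ b).symm⟩
        have j := J_pull hF n ha hb h
        obtain ⟨y, hy, e⟩ := (main γ i a b j).subset ⟨x, m, rfl⟩
        exact Or.inr ⟨γ, y, mem_iUnion.2 ⟨⟨i, _, j⟩, hy⟩, e.symm⟩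
  · intro N γ i a b n ha hb h
    obtain ⟨a, rfl⟩ : ∃ a', a = C.σ γ • a' := ⟨_, (smul_inv_smul _ a).symm⟩
    obtain ⟨b, rfl⟩ : ∃ b', b = C.σ γ • b' := ⟨_, (smul_inv_smul _ b).symm⟩
    rw [main γ i a b (J_pull hF n ha hb h), hF.1, hF.1, Step_seg_smul]

/-- The images of the cores stay within `m` of the cores. -/
def Bd (C : Cores Γ) (F : X ≃ₜ X) (m : ℝ) : Prop := ∀ N x, C.Nr N → bf N x = 0 → |bf N (F x)| ≤ m

/-- The images of the cores stay in the convex set. -/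
def In (C : Cores Γ) (F : X ≃ₜ X) : Prop := ∀ x ∈ C.L, F x ∈ C.Cv

theorem cd_move (γ : Γ) (c x : X) : cd c (C.σ γ • x) = cd (C.σ γ⁻¹ • c) x := by
  rw [← cd_smul (C.σ γ) _ x, map_inv, smul_inv_smul]

theorem round {R : ℝ} (hR : 1 < R) (hR2 : R ≤ 2) (D : Finset X) (hD : ∀ c ∈ D, c ∈ C.Cv ∧
      ∀ (γ : Γ) x, x ∈ Dsc c R → C.σ γ • x ∈ Dsc c R → γ = 1) :
    ∀ R' < R, ∃ l, 0 ≤ l ∧ l < 1 ∧ ∀ F m, C.Ok F → Pl (F '' C.L) → C.In F → C.Bd F m →
      ∃ F', C.Red F F' ∧ Pl (F' '' C.L) ∧ C.In F' ∧ C.Bd F' m ∧ ∀ N x, C.Nr N → bf N x = 0 →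
        ∀ γ : Γ, ∀ c ∈ D, cd c (C.σ γ • F' x) ≤ R' → |bf N (F' x)| ≤ l * m := by
  classical
  induction D using Finset.induction_on with
  | empty =>
    exact fun R' _ => ⟨0, le_rfl, one_pos, fun F m hF hP hI hB =>
      ⟨F, Red.refl hF, hP, hI, hB, fun _ _ _ _ _ c hc => by simp at hc⟩⟩
  | insert c0 D _ ih =>
    intro R' hR'
    obtain ⟨h0, hd⟩ := hD c0 (Finset.mem_insert_self _ _)
    obtain ⟨l, l0, l1, hl⟩ := ih (fun c a => hD c (Finset.mem_insert_of_mem a)) ((R' + R) / 2)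
      (by linarith)
    obtain ⟨δ, δ0, hδ⟩ := cd_near (R := R') (R' := (R' + R) / 2) (by linarith only [hR'])
    obtain ⟨l', l0', l1', ll, hl'⟩ := chord_contract (S := 2 * R * R) δ0 l1 l0
    refine ⟨l', l0', l1', fun F m hF hP hI hB => ?_⟩
    obtain ⟨F1, r1, p1, i1, b1, c1⟩ := hl F m hF hP hI hB
    obtain ⟨F2, r2, p2, o2, s2⟩ := step (ι := Unit) (fun _ => c0) hR hR2 (fun _ => h0)
      (fun γ _ _ x h1 h2 => ⟨hd γ x h1 h2, rfl⟩) r1.1 p1
    have key : ∀ N x, C.Nr N → bf N x = 0 → F2 x ∈ C.Cv ∧ |bf N (F2 x)| ≤ m ∧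
        ∀ γ : Γ, ∀ c ∈ insert c0 D, cd c (C.σ γ • F2 x) ≤ R' → |bf N (F2 x)| ≤ l' * m := by
      intro N x n hx
      have m0 : 0 ≤ m := (abs_nonneg _).trans (hB N x n hx)
      by_cases hc : ∀ γ : Γ, R ≤ cd (C.σ γ • c0) (F1 x)
      · rw [o2 x fun γ _ => hc γ]
        refine ⟨i1 x ⟨N, n, hx⟩, b1 N x n hx, fun γ c hcC h => ?_⟩
        rcases Finset.mem_insert.1 hcC with rfl | hcC
        · have := hc γ⁻¹
          rw [← cd_move] at this
          linarith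
        · exact (c1 N x n hx γ c hcC (by linarith only [hR', h])).trans (mul_le_mul_of_nonneg_right ll m0)
      · push Not at hc
        obtain ⟨γ, hγ⟩ := hc
        obtain ⟨a, b, ha, hb, hab, hx'⟩ := exists_comp n.unit F1 hx hγ
        have hy : F2 x ∈ seg (F1 a) (F1 b) := s2 N γ () a b n ha hb hab ▸ mem_image_of_mem _ hx'
        refine ⟨C.cvx _ (i1 a ⟨N, n, ha⟩) _ (i1 b ⟨N, n, hb⟩) hy,
          cvx_strip _ _ _ (b1 N a n ha) _ (b1 N b n hb) hy, fun γ' c hcC h => ?_⟩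
        have near : ∀ z, bf N z = 0 → cd (C.σ γ • c0) (F1 z) = R →
            cd (F2 x) (F1 z) ≤ 1 + δ → |bf N (F1 z)| ≤ l * m := by
          intro z hz hzR hn
          have h1 := hδ c _ (C.σ γ' • F1 z) h (by rwa [cd_smul])
          rcases Finset.mem_insert.1 hcC with rfl | hcC
          · exfalso
            have h2 : cd c (C.σ γ⁻¹ • F1 z) = R := by rw [cd_move, inv_inv, hzR]
            have h3 := hd (γ' * γ) _ h2.le (by
              rw [map_mul, map_inv, mul_smul, smul_inv_smul]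
              exact h1.le.trans (by linarith only [hR']))
            rw [← eq_inv_of_mul_eq_one_left h3] at h2
            linarith only [hR', h1, h2]
          · exact c1 N z n hz γ' c hcC h1.le
        refine hl' _ _ _ _ m hy ?_ (b1 N a n ha) (b1 N b n hb) (near a ha hab.ha) (near b hb hab.hb)
        have := cd_tri (F1 a) (C.σ γ • c0) (F1 b)
        rwa [hab.ha, hab.hb] at this
    exact ⟨F2, r1.trans r2, p2, fun x ⟨N, n, hx⟩ => (key N x n hx).1,
      fun N x n hx => (key N x n hx).2.1, fun N x n hx => (key N x n hx).2.2⟩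

theorem Ok.bdd (h : C.Ok F) : ∃ B, ∀ x ∈ C.Cv, cd x (F x) ≤ B := by
  obtain ⟨R, hR⟩ := C.cpt
  obtain ⟨B, hB⟩ := ((isCompact_Dsc oX R).image
    (Continuous.cd' continuous_id F.continuous)).bddAbove
  refine ⟨B, fun x hx => ?_⟩
  obtain ⟨γ, a⟩ := hR x hx
  obtain ⟨y, rfl⟩ := MulAction.surjective (C.σ γ) x
  rw [cd_smul, cd_comm] at a
  rw [h.1, cd_smul]
  exact hB ⟨y, a, rfl⟩

theorem discs (C : Cores Γ) : ∃ (R' R : ℝ) (D : Finset X), R' < R ∧ 1 < R ∧ R ≤ 2 ∧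
    (∀ c ∈ D, c ∈ C.Cv ∧ ∀ (γ : Γ) x, x ∈ Dsc c R → C.σ γ • x ∈ Dsc c R → γ = 1) ∧
    ∀ x ∈ C.Cv, ∃ γ : Γ, ∃ c ∈ D, cd c (C.σ γ • x) ≤ R' := by
  classical
  obtain ⟨M, hM⟩ := C.cpt
  have hK := isCompact_Dsc oX (4 * M)
  obtain ⟨ε, ε0, hε⟩ : ∃ ε > 0, ∀ γ, ∀ x ∈ Dsc oX (4 * M), C.σ γ • x ∈ Dsc oX (4 * M) → γ ≠ 1 →
      1 + ε ≤ cd x (C.σ γ • x) := by
    have : ∀ᶠ ε in 𝓝[>] (0 : ℝ), ∀ γ ∈ {w : Γ | ∃ x ∈ Dsc oX (4 * M), C.σ w • x ∈ Dsc oX (4 * M)},
        γ ≠ 1 → ∀ x ∈ Dsc oX (4 * M), 1 + ε ≤ cd x (C.σ γ • x) := by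
      refine (Filter.eventually_all_finite (C.fin hK hK)).2 fun γ ⟨z, hz, _⟩ => ?_
      by_cases c : γ = 1
      · exact .of_forall fun _ d => absurd c d
      obtain ⟨y, -, b⟩ := hK.exists_isMinOn ⟨z, hz⟩ (f := fun x => cd x (C.σ γ • x))
        (Continuous.cd' continuous_id (continuous_const_smul _)).continuousOn
      have p : 1 < cd y (C.σ γ • y) := not_le.1 fun e => c (C.free γ y (eq_of_cd_le e).symm)
      filter_upwards [Ioo_mem_nhdsGT (sub_pos.2 p)] with ε a _ x hx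
      linarith [a.2, show cd y (C.σ γ • y) ≤ cd x (C.σ γ • x) from b hx]
    obtain ⟨ε, a, b⟩ := (this.and self_mem_nhdsWithin).exists
    exact ⟨ε, b, fun γ x p q n => a γ ⟨x, p, q⟩ n x p⟩
  obtain ⟨δ, δ0, hδ⟩ := cd_near (by linarith : 1 + ε / 2 < 1 + ε)
  obtain ⟨μ, m0, m1, m2, m3⟩ : ∃ μ, 0 < μ ∧ μ ≤ δ ∧ μ ≤ ε / 2 ∧ μ ≤ 1 :=
    ⟨min δ (min (ε / 2) 1), by positivity, min_le_left _ _,
      (min_le_right _ _).trans (min_le_left _ _), (min_le_right _ _).trans (min_le_right _ _)⟩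
  obtain ⟨D, hD⟩ := ((isCompact_Dsc oX M).of_isClosed_subset isClosed_closure
    (closure_minimal (s := C.Cv ∩ Dsc oX M) inter_subset_right
      (isCompact_Dsc oX M).isClosed)).elim_finite_subcover
    (fun c : ↥(C.Cv ∩ Dsc oX M) => {x | cd c.1 x < 1 + μ / 2})
    (fun c => isOpen_lt (by fun_prop) continuous_const)
    fun x hx => by
      obtain ⟨c, a, b⟩ := mem_closure_iff.1 hx {c | cd c x < 1 + μ / 2}
        (isOpen_lt (by fun_prop) continuous_const) (by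
          change cd x x < _
          rw [cd_self]
          linarith only [m0])
      exact mem_iUnion.2 ⟨⟨c, b⟩, a⟩
  refine ⟨1 + μ / 2, 1 + μ, D.image Subtype.val, by linarith, by linarith, by linarith,
    fun c hc => ?_, fun x hx => ?_⟩
  · obtain ⟨⟨c, c1, c2⟩, -, rfl⟩ := Finset.mem_image.1 hc
    refine ⟨c1, fun γ x a b => by_contra fun n => ?_⟩
    have k : ∀ y, y ∈ Dsc c (1 + μ) → y ∈ Dsc oX (4 * M) := fun y hy => by
      have p : cd c oX ≤ M := by rw [cd_comm]; exact c2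
      have q : cd c y ≤ 2 := le_trans hy (by linarith)
      have := one_le_cd c oX
      refine (cd_tri oX c y).trans ?_
      linarith only [mul_le_mul p q (by linarith [one_le_cd c y]) (by linarith)]
    have a' : cd c x ≤ _ := a
    have b' : cd c (C.σ γ • x) ≤ _ := b
    exact (hδ x c (C.σ γ • x) (by rw [cd_comm]; linarith) (by linarith)).not_ge
      (hε γ x (k _ a) (k _ b) n)
  · obtain ⟨γ, hγ⟩ := hM x hx
    have a : C.σ γ⁻¹ • x ∈ Dsc oX M := by
      change cd _ _ ≤ _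
      rwa [← cd_smul (C.σ γ), map_inv, smul_inv_smul, cd_comm]
    obtain ⟨c, hc, b⟩ := mem_iUnion₂.1 (hD (subset_closure ⟨C.Cv_smul _ x hx, a⟩))
    exact ⟨γ⁻¹, c, Finset.mem_image_of_mem _ hc, le_of_lt b⟩

theorem L_Cv {x : X} (h : x ∈ C.L) : x ∈ C.Cv :=
  let ⟨_, n, a⟩ := h
  n.ins (by rw [a, abs_zero]; exact C.η_pos.le)

/-- The disc flow. -/
theorem sweep (hF : C.Ok F) (hP : Pl (F '' C.L)) (hI : C.In F) {ε : ℝ} (hε : 0 < ε) :
    ∃ F', C.Red F F' ∧ Pl (F' '' C.L) ∧ C.Bd F' ε := by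
  obtain ⟨R', R, D, hR', hR, hR2, hd, hc⟩ := C.discs
  obtain ⟨l, l0, l1, hl⟩ := round hR hR2 D hd R' hR'
  obtain ⟨m, hm⟩ := hF.bdd
  have it : ∀ n : ℕ, ∃ F', C.Red F F' ∧ Pl (F' '' C.L) ∧ C.In F' ∧ C.Bd F' (l ^ n * |m|) := by
    intro n
    induction n with
    | zero =>
      exact ⟨F, Red.refl hF, hP, hI, fun N x n hx =>
        ((Sweep_abs n.unit x (F x) (by rw [hx, mul_zero])).trans (hm x (L_Cv ⟨N, n, hx⟩))).trans
          (by simpa using le_abs_self m)⟩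
    | succ n ih =>
      obtain ⟨F1, r1, p1, i1, b1⟩ := ih
      obtain ⟨F2, r2, p2, i2, -, c2⟩ := hl F1 _ r1.1 p1 i1 b1
      refine ⟨F2, r1.trans r2, p2, i2, fun N x n hx => ?_⟩
      obtain ⟨γ, c, hcC, h⟩ := hc (F2 x) (i2 x ⟨N, n, hx⟩)
      exact (c2 N x n hx γ c hcC h).trans (le_of_eq (by ring))
  have m0 := abs_nonneg m
  obtain ⟨n, hn⟩ := exists_pow_lt_of_lt_one (x := ε / (|m| + 1)) (by positivity) l1
  obtain ⟨F', r, p, -, b⟩ := it n
  refine ⟨F', r, p, fun N x k hx => (b N x k hx).trans ?_⟩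
  rw [lt_div_iff₀ (by positivity)] at hn
  linarith only [pow_nonneg l0 n, hn]

end Cores

end Pool.Agent.MP_646035_al.NO

/-!
Coordinates in the collars of the cores.
-/

namespace Pool.Agent.MP_646035_al.NO

open Pool.Agent.MP_4a6971_al.H66 Pool.Agent.MP_4a6971_al.H83 MC Set Topology

variable {Γ : Type} [Group Γ]

/-- The normal of the cut at the height `a`. -/
noncomputable def cut (a : ℝ) : V := (-Real.exp (-a), 0, Real.exp a)

theorem bf_cut (a s r : ℝ) : bf (cut a) (fm s r) = √(1 + r ^ 2) * Real.sinh (s - a) := by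
  simp only [bf, Bf, cut, fm, Real.sinh_eq, sub_eq_add_neg, neg_add, neg_neg, Real.exp_add]
  ring

theorem cut_unit (a : ℝ) : Bf (cut a) (cut a) = 1 := by
  have : Real.exp (-a) * Real.exp a = 1 := by rw [← Real.exp_add]; simp
  simp only [Bf, cut]
  linarith

theorem cd_fm (c s r : ℝ) : cd (fm c 0) (fm s r) = √(1 + r ^ 2) * Real.cosh (s - c) := by
  simp only [cd, ch, Bf, fm, Real.cosh_eq, sub_eq_add_neg, neg_add, neg_neg, Real.exp_add]
  simp
  ring

theorem flp_fm (s r : ℝ) : flp • fm s r = fm s (-r) := Subtype.ext (by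
  rw [coe_smul, flp_smul]
  simp only [fm, even_two, Even.neg_pow])

namespace Cores

variable (C : Cores Γ) (i : Fin C.m)

/-- The point of the collar with the coordinates `s` (along) and `r` (across). -/
noncomputable def P (s r : ℝ) : X := C.fr i • fm s r

/-- The coordinate along the core. -/
noncomputable def u (x : X) : ℝ := fs ((C.fr i)⁻¹ • x)

/-- The normal of the cut at height `a`. -/
noncomputable def A (a : ℝ) : V := C.fr i • cut a

/-- A rectangle of the collar. -/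
def Rect (a b : ℝ) : Set X := Reg (C.fr i • E0) (C.A i a) (-C.A i b) C.η

theorem u_P (s r : ℝ) : C.u i (C.P i s r) = s := by rw [u, P, inv_smul_smul, fs_fm]

theorem bf_P (s r : ℝ) : bf (C.fr i • E0) (C.P i s r) = r := by rw [P, bf_smul, bf_fm]

theorem P_u (x : X) : C.P i (C.u i x) (bf (C.fr i • E0) x) = x := by
  obtain ⟨x, rfl⟩ := MulAction.surjective (C.fr i) x
  rw [P, u, inv_smul_smul, bf_smul, fm_fs]

theorem P_u0 {x : X} (h : bf (C.fr i • E0) x = 0) : C.P i (C.u i x) 0 = x := h ▸ C.P_u i x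

theorem continuous_u : Continuous (C.u i) := continuous_fs.comp (continuous_const_smul _)

theorem continuous_P : Continuous fun p : ℝ × ℝ => C.P i p.1 p.2 :=
  (continuous_const_smul _).comp continuous_fm

theorem continuous_P0 : Continuous fun s => C.P i s 0 :=
  (C.continuous_P i).comp (continuous_id.prodMk continuous_const)

theorem P_inj {s s' r r' : ℝ} (h : C.P i s r = C.P i s' r') : s = s' := by
  rw [← C.u_P i s r, h, u_P]

theorem P_L (s : ℝ) : C.P i s 0 ∈ C.L := ⟨_, C.nr i, C.bf_P i s 0⟩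

theorem A_unit (a : ℝ) : Bf (C.A i a) (C.A i a) = 1 := by rw [A, Bf_isom, cut_unit]

theorem A_ne (a : ℝ) : C.A i a ≠ 0 := fun e => by
  have := C.A_unit i a
  rw [e] at this
  simp [Bf] at this

theorem bf_A (a : ℝ) (x : X) :
    bf (C.A i a) x = √(1 + bf (C.fr i • E0) x ^ 2) * Real.sinh (C.u i x - a) := by
  conv_lhs => rw [← C.P_u i x, A, P, bf_smul, bf_cut]

theorem A_pos {a : ℝ} {x : X} : 0 < bf (C.A i a) x ↔ a < C.u i x := by
  rw [bf_A, mul_pos_iff_of_pos_left (by positivity), Real.sinh_pos_iff, sub_pos]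

theorem A_neg {a : ℝ} {x : X} : bf (C.A i a) x < 0 ↔ C.u i x < a := by
  rw [bf_A, ← neg_pos, ← mul_neg, mul_pos_iff_of_pos_left (by positivity), neg_pos,
    Real.sinh_neg_iff, sub_neg]

theorem A_zero {a : ℝ} {x : X} : bf (C.A i a) x = 0 ↔ C.u i x = a := by
  rw [le_antisymm_iff, ← not_lt, ← not_lt, A_pos, A_neg, not_lt, not_lt, ← le_antisymm_iff]

theorem cd_P (c : ℝ) (x : X) :
    cd (C.P i c 0) x = √(1 + bf (C.fr i • E0) x ^ 2) * Real.cosh (C.u i x - c) := by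
  conv_lhs => rw [← C.P_u i x, P, P, cd_smul, cd_fm]

theorem mem_Rect {a b : ℝ} {x : X} :
    x ∈ C.Rect i a b ↔ |bf (C.fr i • E0) x| ≤ C.η ∧ a ≤ C.u i x ∧ C.u i x ≤ b := by
  rw [← not_lt (b := a), ← not_lt (a := b), ← A_pos, ← A_neg, not_lt, not_lt, ← neg_nonneg
    (a := bf (C.A i b) x), ← bf_neg]
  rfl

theorem int_Rect {a b : ℝ} {x : X} :
    x ∈ interior (C.Rect i a b) ↔ |bf (C.fr i • E0) x| < C.η ∧ a < C.u i x ∧ C.u i x < b := by
  rw [Rect, interior_Reg (C.nr i).unit (C.A_ne i a) (neg_ne_zero.2 (C.A_ne i b)), ← A_pos, ← A_neg,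
    mem_ofPred, bf_neg, neg_pos]

theorem cvx_Rect (a b : ℝ) : Cvx (C.Rect i a b) := cvx_Reg _ _ _ _

theorem isCompact_Rect (a b : ℝ) : IsCompact (C.Rect i a b) := by
  refine ((isCompact_Icc (a := a) (b := b)).prod (isCompact_Icc (a := -C.η) (b := C.η))
    |>.image (C.continuous_P i)).of_isClosed_subset (isClosed_Reg _ _ _ _) fun x hx => ?_
  obtain ⟨h1, h2⟩ := (C.mem_Rect i).1 hx
  exact ⟨(_, _), ⟨h2, abs_le.1 h1⟩, C.P_u i x⟩

theorem k_P (s r : ℝ) : C.σ (C.k i) • C.P i s r = C.P i (s + C.t i) (-r) := by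
  rw [P, ← mul_smul, C.fr_k, mul_smul, mul_smul, dil_fm, flp_fm, P]

theorem u_k (x : X) : C.u i (C.σ (C.k i) • x) = C.u i x + C.t i := by
  conv_lhs => rw [← C.P_u i x, k_P, u_P]

theorem u_zpow (n : ℤ) (x : X) : C.u i (C.σ (C.k i ^ n) • x) = C.u i x + n * C.t i := by
  induction n using Int.induction_on with
  | zero => simp only [zpow_ofNat, pow_zero, map_one, one_smul, Int.cast_zero, zero_mul, add_zero]
  | succ n h =>
    rw [add_comm, zpow_add, zpow_one, map_mul, mul_smul, u_k, h]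
    push_cast
    ring
  | pred n h =>
    have := C.u_k i (C.σ (C.k i ^ (-(n : ℤ) - 1)) • x)
    rw [← mul_smul, ← map_mul, ← zpow_one_add, add_sub_cancel, h] at this
    push_cast at this ⊢
    linarith

theorem abs_zpow (n : ℤ) (x : X) :
    |bf (C.fr i • E0) (C.σ (C.k i ^ n) • x)| = |bf (C.fr i • E0) x| := by
  rcases zpow_nr (C := C) (Subgroup.zpow_mem_zpowers (C.k i) n) with e | e
  · conv_lhs => rw [← e, bf_smul]
  · rw [← abs_neg, ← bf_neg, ← e, bf_smul]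

theorem zpow_P (n : ℤ) (s : ℝ) : C.σ (C.k i ^ n) • C.P i s 0 = C.P i (s + n * C.t i) 0 := by
  have := C.abs_zpow i n (C.P i s 0)
  rw [bf_P, abs_zero, abs_eq_zero] at this
  rw [← C.P_u0 i this, u_zpow, u_P]

/-- Every point of a core is a translate of a point in a fundamental interval. -/
theorem exists_zpow (a s : ℝ) : ∃ n : ℤ, ∃ s' ∈ Ico a (a + C.t i), s = s' + n * C.t i :=
  ⟨_, _, toIcoMod_mem_Ico (C.t_pos i) a s, by
    rw [← zsmul_eq_mul, toIcoMod_add_toIcoDiv_zsmul]⟩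

theorem seg_P {a b : ℝ} (h : a ≤ b) :
    seg (C.P i a 0) (C.P i b 0) = (fun s => C.P i s 0) '' Icc a b := by
  rcases h.eq_or_lt with rfl | h
  · rw [Icc_self, image_singleton]
    refine Subset.antisymm (fun y hy => (eq_of_cd_le (cvx_Dsc (C.P i a 0) 1 _ ?_ _ ?_ hy)).symm)
      (singleton_subset_iff.2 (left_mem_seg _ _)) <;> exact (cd_self _).le
  refine Subset.antisymm (fun y hy => ?_) ?_
  · obtain ⟨p, q, -, -, -, -, e, -⟩ := seg_coef hy
    have m : ∀ s ∈ Icc a b, C.P i s 0 ∈ C.Rect i a b := fun s hs => (C.mem_Rect i).2 (by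
      rw [bf_P, u_P, abs_zero]
      exact ⟨C.η_pos.le, hs⟩)
    exact ⟨_, ((C.mem_Rect i).1 (C.cvx_Rect i a b _ (m a (left_mem_Icc.2 h.le)) _
      (m b (right_mem_Icc.2 h.le)) hy)).2, C.P_u0 i (by rw [e, bf_P, bf_P]; ring)⟩
  · rintro _ ⟨s, hs, rfl⟩
    refine mem_seg_of_cuts (N := C.A i a) (N' := -C.A i b) (C.nr i).unit (C.bf_P i _ _)
      (C.bf_P i _ _) (C.bf_P i _ _) ?_ ?_ ?_ ?_ ?_ ?_
    · rw [A_zero, u_P]
    · rwa [A_pos, u_P]
    · rw [bf_neg, neg_eq_zero, A_zero, u_P]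
    · rwa [bf_neg, neg_pos, A_neg, u_P]
    · rw [← not_lt, A_neg, u_P]
      exact hs.1.not_gt
    · rw [bf_neg, neg_nonneg, ← not_lt, A_pos, u_P]
      exact hs.2.not_gt

/-- A proper arc of a rectangle. -/
theorem parc {a b : ℝ} {γ : ℝ → X} (hc : Continuous γ) (hi : Function.Injective γ)
    (h : ∀ τ, |bf (C.fr i • E0) (γ τ)| < C.η) (h0 : C.u i (γ 0) = a) (h1 : C.u i (γ 1) = b)
    (hab : a < b) (hm : ∀ τ ∈ Ioo (0 : ℝ) 1, a < C.u i (γ τ) ∧ C.u i (γ τ) < b) :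
    PArc (C.Rect i a b) γ :=
  ⟨hc.continuousOn, hi.injOn, (C.mem_Rect i).2 ⟨(h 0).le, h0.ge, h0.le.trans hab.le⟩,
    fun c => ((C.int_Rect i).1 c).2.1.ne' h0, (C.mem_Rect i).2 ⟨(h 1).le, hab.le.trans h1.ge, h1.le⟩,
    fun c => ((C.int_Rect i).1 c).2.2.ne h1, fun τ hτ => (C.int_Rect i).2 ⟨h τ, hm τ hτ⟩⟩

/-- The piece of the core in a rectangle. -/
theorem parc_P {a b : ℝ} (hab : a < b) :
    PArc (C.Rect i a b) fun τ => C.P i (a + τ * (b - a)) 0 := by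
  have := sub_pos.2 hab
  refine C.parc i ((C.continuous_P0 i).comp (by fun_prop)) (fun s t e => ?_) (fun τ => ?_) ?_ ?_ hab
    fun τ hτ => ?_
  · exact mul_right_cancel₀ this.ne' (add_left_cancel (C.P_inj i e))
  · rw [bf_P, abs_zero]
    exact C.η_pos
  · rw [u_P, zero_mul, add_zero]
  · rw [u_P, one_mul, add_sub_cancel]
  · rw [u_P]
    exact ⟨by nlinarith only [hτ.1, hab], by nlinarith only [hτ.2, hab]⟩

variable {i}

/-- A collar point with a translate in a collar. -/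
theorem col' {γ : Γ} {j : Fin C.m} {x : X} (h : |bf (C.fr i • E0) x| ≤ C.η)
    (h' : |bf (C.fr j • E0) (C.σ γ • x)| ≤ C.η) : i = j ∧ ∃ n : ℤ, γ = C.k i ^ n :=
  (C.col γ i j x h h').imp_right fun ⟨n, e⟩ => ⟨n, e.symm⟩

/-- Equivariant moves in one rectangle per core. -/
theorem moveR (a b : Fin C.m → ℝ) (hab : ∀ i, a i < b i) (ht : ∀ i, b i ≤ a i + C.t i)
    (h : Fin C.m → X ≃ₜ X) (hs : ∀ i, Supp (h i) (C.Rect i (a i) (b i))) :
    ∃ H, C.Iso H ∧ (∀ i, ∀ x ∈ C.Rect i (a i) (b i), H x = h i x) ∧ (∀ x ∈ C.Cv, H x ∈ C.Cv) ∧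
      ∀ i x, |bf (C.fr i • E0) x| ≤ C.η → H x = x ∨ ∃ n : ℤ,
        ∃ y ∈ interior (C.Rect i (a i) (b i)), x = C.σ (C.k i ^ n) • y ∧
          h i y ∈ interior (C.Rect i (a i) (b i)) ∧ H x = C.σ (C.k i ^ n) • h i y := by
  obtain ⟨H, h1, h2, h3⟩ := C.move (fun i => C.Rect i (a i) (b i)) (fun i => C.isCompact_Rect i _ _)
    (fun i => C.cvx_Rect i _ _)
    (fun i => ⟨_, (C.parc_P i (hab i)).mid (1 / 2) ⟨by norm_num, by norm_num⟩⟩)
    (fun γ i j x p q => by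
      rw [int_Rect] at p q
      obtain ⟨rfl, n, rfl⟩ := C.col' p.1.le q.1.le
      rw [u_zpow] at q
      have := C.t_pos i
      have := ht i
      have a1 : (n : ℝ) < 1 := by nlinarith [p.2.1, q.2.2]
      have a2 : (-1 : ℝ) < n := by nlinarith [p.2.2, q.2.1]
      have : n = 0 := by
        norm_cast at a1 a2
        omega
      simp [this])
    (fun i x p q => not_Z (C.ins i x ((C.int_Rect i).1 q).1.le) p) h hs
  have key : ∀ x, H x = x ∨ ∃ (γ : Γ) (i : Fin C.m), ∃ y ∈ interior (C.Rect i (a i) (b i)),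
      x = C.σ γ • y ∧ h i y ∈ interior (C.Rect i (a i) (b i)) ∧ H x = C.σ γ • h i y := fun x => by
    refine or_iff_not_imp_right.2 fun c => h3 x fun γ i p => c ⟨γ⁻¹, i, _, p, by simp only [map_inv, inv_smul_smul], ?_, ?_⟩
    · exact (hs i).mem_interior.2 p
    · rw [← h2 i _ (interior_subset p), h1.ok.1]
      simp only [map_inv, inv_smul_smul]
  refine ⟨H, h1, h2, fun x hx => ?_, fun i x hx => (key x).imp_right ?_⟩
  · rcases key x with e | ⟨γ, i, y, -, -, p, e⟩ <;> rw [e]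
    · exact hx
    · exact C.Cv_smul _ _ (C.ins i _ ((C.int_Rect i).1 p).1.le)
  · rintro ⟨γ, j, y, p, rfl, q⟩
    obtain ⟨rfl, n, rfl⟩ := C.col' ((C.int_Rect j).1 p).1.le hx
    exact ⟨n, y, p, rfl, q⟩

/-- The union of the cores in coordinates. -/
theorem mem_L {x : X} (h : x ∈ C.L) (a : Fin C.m → ℝ) :
    ∃ (γ : Γ) (i : Fin C.m), ∃ s ∈ Ico (a i) (a i + C.t i), x = C.σ γ • C.P i s 0 := by
  obtain ⟨_, ⟨γ, i, rfl⟩, h⟩ := h
  obtain ⟨x, rfl⟩ := MulAction.surjective (C.σ γ) x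
  rw [bf_smul] at h
  obtain ⟨n, s, hs, e⟩ := C.exists_zpow i (a i) (C.u i x)
  exact ⟨γ * C.k i ^ n, i, s, hs, by rw [map_mul, mul_smul, zpow_P, ← e, C.P_u0 i h]⟩

end Cores

end Pool.Agent.MP_646035_al.NO

/-!
The images of the cores can be made piecewise straight.
-/

namespace Pool.Agent.MP_646035_al.NO

open Pool.Agent.MP_4a6971_al.H66 Pool.Agent.MP_4a6971_al.H83 MC Set Topology

variable {Γ : Type} [Group Γ]

namespace Cores

variable {C : Cores Γ} {F : X ≃ₜ X}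

theorem tame_int (i : Fin C.m) {s : ℝ} (h0 : 0 < s) (h1 : s < C.t i) :
    C.P i s 0 ∈ interior (C.Rect i 0 (C.t i)) := (C.int_Rect i).2 (by
  rw [bf_P, u_P, abs_zero]
  exact ⟨C.η_pos, h0, h1⟩)

theorem tame_acc (hF : C.Ok F) : ∃ H, C.Iso H ∧ (∀ x ∈ C.Cv, H x ∈ C.Cv) ∧ ∀ i,
    Acc (F * H) (C.Rect i 0 (C.t i)) (C.P i 0 0) ∧
      Acc (F * H) (C.Rect i 0 (C.t i)) (C.P i (C.t i) 0) := by
  have hab : ∀ i, -(C.t i / 4) < C.t i / 4 := fun i => by linarith [C.t_pos i]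
  choose f f1 f2 using fun i => straight_piece (C.isCompact_Rect i _ _) (C.cvx_Rect i _ _)
    (C.parc_P i (hab i)) F (t₀ := 1 / 2) ⟨by norm_num, by norm_num⟩
  obtain ⟨H, h1, h2, h3, -⟩ := C.moveR _ _ hab (fun i => by linarith [C.t_pos i]) f f1
  refine ⟨H, h1, h3, fun i => ?_⟩
  obtain ⟨t₁, t₂, P, Q, a1, a2, a3, a4, a5⟩ := f2 i
  have p := C.t_pos i
  have b : ∀ t ∈ Icc t₁ t₂, (F * H) (C.P i (-(C.t i / 4) + t * (C.t i / 4 - -(C.t i / 4))) 0) =
      gp P Q ((t - t₁) / (t₂ - t₁)) := fun t ht => by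
    rw [Homeomorph.mul_apply, h2 i _ ((C.parc_P i (hab i)).mem
      ⟨a1.le.trans ht.1, ht.2.trans a4.le⟩), a5 t ht]
  have c1 := Tame1_acc a2 a3 b (K := C.Rect i 0 (C.t i)) (Or.inl fun t ht =>
    tame_int i (by nlinarith only [ht.1, p]) (by nlinarith only [ht.2, a4, p]))
  have c2 := Tame1_acc (G := F * H) (P := C.σ (C.k i) • P) (Q := C.σ (C.k i) • Q)
    (δ := fun t => C.P i (-(C.t i / 4) + t * (C.t i / 4 - -(C.t i / 4)) + C.t i) 0) a2 a3
    (fun t ht => by rw [← smul_gp, ← b t ht, ← (hF.mul h1.ok).1, k_P, neg_zero])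
    (K := C.Rect i 0 (C.t i)) (Or.inr fun t ht =>
      tame_int i (by nlinarith only [ht.1, a1, p]) (by nlinarith only [ht.2, p]))
  have e : -(C.t i / 4) + 1 / 2 * (C.t i / 4 - -(C.t i / 4)) = 0 := by ring
  rw [e] at c1
  rw [e, zero_add] at c2
  exact ⟨c1, c2⟩

theorem tame (hF : C.Ok F) (hC : ∀ x ∈ C.Cv, F x ∈ C.Cv) :
    ∃ F', C.Red F F' ∧ Pl (F' '' C.L) ∧ C.In F' := by
  obtain ⟨H, h1, h2, h3⟩ := tame_acc hF
  have r := Red.right hF h1
  choose f f1 S s1 s2 s3 using fun i => Tame_arc (C.isCompact_Rect i _ _) (C.cvx_Rect i _ _)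
    (C.parc_P i (C.t_pos i)) (F := F * H) (by simpa using (h3 i).1) (by simpa using (h3 i).2)
  obtain ⟨G, g1, g2, g3, -⟩ := C.moveR (fun _ => 0) C.t C.t_pos (fun i => (zero_add _).ge) f f1
  refine ⟨F * H * G, r.trans (Red.right r.1 g1),
    (pl_iUnion fun i => C.pl_orbit (s2 i) (s1 i) subset_rfl).mono ?_,
    fun x hx => hC _ (h2 _ (g3 _ (L_Cv hx)))⟩
  rintro _ ⟨x, hx, rfl⟩
  obtain ⟨γ, i, s, hs, rfl⟩ := C.mem_L hx fun _ => 0
  have p := C.t_pos i
  have m : s / C.t i ∈ Icc (0 : ℝ) 1 :=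
    ⟨div_nonneg hs.1 p.le, (div_le_one p).2 (by linarith [hs.2])⟩
  have a := s3 i _ m
  have b := (C.parc_P i p).mem m
  simp only [zero_add, sub_zero, div_mul_cancel₀ _ p.ne'] at a b
  refine mem_iUnion.2 ⟨i, γ, _, a, ?_⟩
  rw [(r.1.mul g1.ok).1, Homeomorph.mul_apply, g2 i _ b]

end Cores

end Pool.Agent.MP_646035_al.NO

/-!
The image of a core can be made to cross a cut exactly once.
-/

namespace Pool.Agent.MP_646035_al.NO

open Pool.Agent.MP_4a6971_al.H66 Pool.Agent.MP_4a6971_al.H83 MC Set Topology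

/-- A descent from above `α` to below `β`. -/
def Desc (f : ℝ → ℝ) (α β : ℝ) : Prop := ∃ s s', s < s' ∧ α ≤ f s ∧ f s' ≤ β

/-- `f'` is obtained from `f` by straightening near the level `c`. -/
def Str (f f' : ℝ → ℝ) (c ρ : ℝ) : Prop :=
  ∀ s, (f' s = f s ∧ ρ < |f s - c|) ∨ ∃ a b, s ∈ Icc a b ∧ f' a = f a ∧ f' b = f b ∧
    (MonotoneOn f' (Icc a b) ∨ AntitoneOn f' (Icc a b)) ∧ (f a ≠ f b → InjOn f' (Icc a b)) ∧
    (|f' s - c| ≤ ρ → ρ < |f a - c| ∧ ρ < |f b - c|)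

variable {f f' : ℝ → ℝ} {c ρ α β : ℝ}

theorem Str.old (h : Str f f' c ρ) (hβ : β < α) (d : Desc f' α β) : Desc f α β := by
  obtain ⟨s, s', l, p, q⟩ := d
  obtain ⟨s, l, p, e⟩ : ∃ s, s < s' ∧ α ≤ f' s ∧ f' s = f s := by
    rcases h s with a | ⟨a, b, m, ea, eb, mo | mo, -⟩
    · exact ⟨s, l, p, a.1⟩
    · refine ⟨b, not_le.1 fun k => ?_, p.trans (mo m (right_mem_Icc.2 (m.1.trans m.2)) m.2), eb⟩
      linarith [mo m ⟨m.1.trans l.le, k⟩ l.le]
    · exact ⟨a, m.1.trans_lt l, p.trans (mo (left_mem_Icc.2 (m.1.trans m.2)) m m.1), ea⟩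
  rcases h s' with a | ⟨a, b, m, ea, eb, mo | mo, -⟩
  · exact ⟨s, s', l, e ▸ p, a.1 ▸ q⟩
  · refine ⟨s, a, not_le.1 fun k => ?_, e ▸ p,
      ea ▸ (mo (left_mem_Icc.2 (m.1.trans m.2)) m m.1).trans q⟩
    linarith [mo ⟨k, l.le.trans m.2⟩ m l.le]
  · exact ⟨s, b, l.trans_le m.2, e ▸ p, eb ▸ (mo m (right_mem_Icc.2 (m.1.trans m.2)) m.2).trans q⟩

theorem Str.down (h : Str f f' c ρ) (hρ : 0 ≤ ρ) (hβ : β < c - ρ) (d : Desc f' (c - ρ) β) :
    Desc f (c + ρ) β := by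
  refine h.old (by linarith) ?_
  obtain ⟨s, s', l, p, q⟩ := d
  by_cases k : c + ρ ≤ f' s
  · exact ⟨s, s', l, k, q⟩
  have k' : |f' s - c| ≤ ρ := abs_le.2 ⟨by linarith, by linarith⟩
  rcases h s with a | ⟨a, b, m, ea, eb, mo | mo, -, w⟩
  · exact absurd (a.1 ▸ k') a.2.not_ge
  · have := mo m (right_mem_Icc.2 (m.1.trans m.2)) m.2
    refine ⟨b, s', not_le.1 fun k => ?_, ?_, q⟩
    · linarith [mo m ⟨m.1.trans l.le, k⟩ l.le]
    · rcases lt_abs.1 (w k').2 with x | x <;> linarith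
  · have := mo (left_mem_Icc.2 (m.1.trans m.2)) m m.1
    refine ⟨a, s', m.1.trans_lt l, ?_, q⟩
    rcases lt_abs.1 (w k').1 with x | x <;> linarith

theorem Str.once (h : Str f f' c ρ) (hρ : 0 ≤ ρ) (d : ¬ Desc f (c + ρ) (c - ρ)) {s s' : ℝ}
    (l : s < s') (p : f' s = c) (q : f' s' = c) : False := by
  have key : ∀ s, f' s = c → ∃ a b, s ∈ Icc a b ∧ f a < c - ρ ∧ c + ρ < f b ∧ f' b = f b ∧
      MonotoneOn f' (Icc a b) ∧ InjOn f' (Icc a b) := fun s p => by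
    have k : |f' s - c| ≤ ρ := by rwa [p, sub_self, abs_zero]
    rcases h s with a | ⟨a, b, m, ea, eb, mo | mo, u, w⟩
    · exact absurd (a.1 ▸ k) a.2.not_ge
    · have x := mo m (right_mem_Icc.2 (m.1.trans m.2)) m.2
      have y := mo (left_mem_Icc.2 (m.1.trans m.2)) m m.1
      have x' : c + ρ < f b := by rcases lt_abs.1 (w k).2 with z | z <;> linarith only [z, hρ, p, eb, x]
      have y' : f a < c - ρ := by rcases lt_abs.1 (w k).1 with z | z <;> linarith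
      exact ⟨a, b, m, y', x', eb, mo, u (by linarith : f a < f b).ne⟩
    · have x := mo m (right_mem_Icc.2 (m.1.trans m.2)) m.2
      have y := mo (left_mem_Icc.2 (m.1.trans m.2)) m m.1
      have x' : f b < c - ρ := by rcases lt_abs.1 (w k).2 with z | z <;> linarith
      have y' : c + ρ < f a := by rcases lt_abs.1 (w k).1 with z | z <;> linarith
      refine (d ⟨a, b, (m.1.trans m.2).lt_of_ne fun e => ?_, y'.le, x'.le⟩).elim
      rw [e] at y'
      linarith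
  obtain ⟨a, b, m, -, x, e, -, u⟩ := key s p
  obtain ⟨a', b', m', y, -, -, mo, -⟩ := key s' q
  have l1 : b < s' := not_le.1 fun k => l.ne (u m ⟨m.1.trans l.le, k⟩ (p.trans q.symm))
  refine d ⟨b, a', not_le.1 fun k => ?_, x.le, y.le⟩
  linarith [mo ⟨k, l1.le.trans m'.2⟩ m' l1.le]

variable {Γ : Type} [Group Γ]

namespace Cores

variable {C : Cores Γ} {F : X ≃ₜ X}

/-- The height of the image of a core. -/
noncomputable def ht (C : Cores Γ) (F : X ≃ₜ X) (i : Fin C.m) (s : ℝ) : ℝ := C.u i (F (C.P i s 0))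

theorem ht_cont (i : Fin C.m) : Continuous (C.ht F i) :=
  (C.continuous_u i).comp (F.continuous.comp (C.continuous_P0 i))

theorem Ok.ht_bdd (h : C.Ok F) : ∃ B, ∀ i s, |C.ht F i s - s| ≤ B := by
  obtain ⟨B, hB⟩ := h.bdd
  refine ⟨B, fun i s => le_trans ?_ (hB _ (L_Cv (C.P_L i s)))⟩
  rw [cd_P]
  refine le_trans ?_ (le_mul_of_one_le_left (Real.cosh_pos _).le
    (Real.one_le_sqrt.2 (by linarith only [sq_nonneg (bf (C.fr i • E0) (F (C.P i s 0)))])))
  rw [← Real.cosh_abs]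
  exact (Real.self_le_sinh_iff.2 (abs_nonneg _)).trans (Real.sinh_lt_cosh _).le

theorem u_seg (i : Fin C.m) {x y : X} (h : C.u i x ≠ C.u i y) : InjOn (C.u i) (seg x y) := by
  intro p hp q hq e
  by_contra n
  obtain ⟨N, n1, n2, n3⟩ := exists_line x y
  obtain ⟨t, ht⟩ := eq_smul_of_two n1 (N := C.A i (C.u i q)) n (Step_on n2 n3 hp)
    (Step_on n2 n3 hq) ((C.A_zero i).2 e) ((C.A_zero i).2 rfl)
  have k : ∀ z, bf N z = 0 → C.u i z = C.u i q := fun z hz => (C.A_zero i).1 (by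
    rw [ht, bf, Bf_smul_left, ← bf, hz, mul_zero])
  exact h ((k x n2).trans (k y n3).symm)

/-- The radii used for the discs on the cores. -/
structure Rad (C : Cores Γ) (R ε : ℝ) : Prop where
  h1 : 1 < R
  h2 : R ≤ 2
  pos : 0 < ε
  lt : ε < C.η
  big : ∀ i c x, |bf (C.fr i • E0) x| ≤ ε → |C.u i x - c| ≤ ε → cd (C.P i c 0) x < R
  dis : ∀ c (γ : Γ) i j x, x ∈ Dsc (C.P i c 0) R → C.σ γ • x ∈ Dsc (C.P j c 0) R → γ = 1 ∧ i = j

theorem exists_rad (C : Cores Γ) : ∃ R ε, C.Rad R ε := by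
  have e1 : ∀ {y : ℝ}, 1 < y → ∀ᶠ R in 𝓝[>] (1 : ℝ), R ≤ y := fun h =>
    ((eventually_lt_nhds h).filter_mono nhdsWithin_le_nhds).mono fun _ => le_of_lt
  have η0 := C.η_pos
  obtain ⟨R, h1, h2, h3, h4⟩ := ((eventually_mem_nhdsWithin (a := (1 : ℝ)) (s := Ioi 1)).and
    ((e1 one_lt_two).and ((e1 (y := √(1 + C.η ^ 2)) (Real.lt_sqrt_of_sq_lt (by nlinarith only [η0]))).and
      (Filter.eventually_all.2 fun i => e1 (y := Real.cosh (C.t i / 3))
        (Real.one_lt_cosh.2 (by linarith [C.t_pos i] : 0 < C.t i / 3).ne'))))).exists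
  have c : Continuous fun e : ℝ => √(1 + e ^ 2) * Real.cosh e := by fun_prop
  obtain ⟨ε, k1, k2, k3⟩ := ((eventually_mem_nhdsWithin (a := (0 : ℝ)) (s := Ioi 0)).and
    (((eventually_lt_nhds η0).and (c.continuousAt.eventually_lt continuousAt_const
      (g := fun _ => R) (by simpa using h1))).filter_mono nhdsWithin_le_nhds)).exists
  have sm : ∀ i c x, x ∈ Dsc (C.P i c 0) R →
      |bf (C.fr i • E0) x| ≤ C.η ∧ |C.u i x - c| ≤ C.t i / 3 := fun i c x hx => by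
    have a := (C.cd_P i c x).ge.trans hx
    have a1 : 1 ≤ √(1 + bf (C.fr i • E0) x ^ 2) :=
      Real.one_le_sqrt.2 (by linarith only [sq_nonneg (bf (C.fr i • E0) x)])
    have a2 := Real.one_le_cosh (C.u i x - c)
    constructor
    · have := (Real.sqrt_le_sqrt_iff (by positivity)).1
        (((le_mul_of_one_le_right (by positivity) a2).trans a).trans h3)
      exact abs_le_of_sq_le_sq' (by linarith) η0.le |> abs_le.2
    · have := Real.cosh_le_cosh.1 (((le_mul_of_one_le_left (by positivity) a1).trans a).trans (h4 i))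
      rwa [abs_of_pos (a := C.t i / 3) (by linarith only [C.t_pos i])] at this
  refine ⟨R, ε, h1, h2, k1, k2, fun i c x p q => lt_of_le_of_lt ?_ k3, fun c γ i j x p q => ?_⟩
  · rw [cd_P]
    refine mul_le_mul (Real.sqrt_le_sqrt ?_) (Real.cosh_le_cosh.2 (q.trans (le_abs_self _)))
      (Real.cosh_pos _).le (by positivity)
    linarith [sq_le_sq' (abs_le.1 p).1 (abs_le.1 p).2]
  · obtain ⟨p1, p2⟩ := sm _ _ _ p
    obtain ⟨q1, q2⟩ := sm _ _ _ q
    obtain ⟨rfl, n, rfl⟩ := C.col' p1 q1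
    rw [u_zpow, abs_le] at q2
    rw [abs_le] at p2
    have := C.t_pos i
    have a1 : (n : ℝ) < 1 := by nlinarith only [q2.2, p2, this]
    have a2 : (-1 : ℝ) < n := by nlinarith only [q2.1, p2, this]
    have : n = 0 := by
      norm_cast at a1 a2
      omega
    simp [this]

theorem stepO {R ε : ℝ} (hr : C.Rad R ε) (c : ℝ) (hF : C.Ok F) (hP : Pl (F '' C.L))
    (hB : ∀ i s, |bf (C.fr i • E0) (F (C.P i s 0))| ≤ ε) :
    ∃ F', C.Red F F' ∧ Pl (F' '' C.L) ∧ (∀ i s, |bf (C.fr i • E0) (F' (C.P i s 0))| ≤ ε) ∧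
      ∀ i, Str (C.ht F i) (C.ht F' i) c ε := by
  obtain ⟨F', r, p, o, w⟩ := step (fun i => C.P i c 0) hr.h1 hr.h2 (fun i => L_Cv (C.P_L i c))
    (hr.dis c) hF hP
  have same : ∀ (γ δ : Γ) i j y, cd (C.σ γ • C.P i c 0) y ≤ R → cd (C.σ δ • C.P j c 0) y ≤ R →
      C.σ γ • C.P i c 0 = C.σ δ • C.P j c 0 := fun γ δ i j y a b => by
    obtain ⟨y, rfl⟩ := MulAction.surjective (C.σ γ) y
    rw [cd_smul] at a
    obtain ⟨e, rfl⟩ := hr.dis c (δ⁻¹ * γ) i j y a (by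
      rwa [map_mul, mul_smul, Dsc, mem_ofPred, cd_move, inv_inv])
    rw [inv_mul_eq_one.1 e]
  have key : ∀ i s, (∀ (γ : Γ) j, R ≤ cd (C.σ γ • C.P j c 0) (F (C.P i s 0))) ∨
      ∃ (γ : Γ) (j : Fin C.m) (a b : ℝ), s ∈ Icc a b ∧
        Comp F (C.σ γ • C.P j c 0) R (C.P i a 0) (C.P i b 0) := fun i s => by
    refine or_iff_not_imp_left.2 fun d => ?_
    push Not at d
    obtain ⟨γ, j, d⟩ := d
    obtain ⟨a, b, ha, hb, h, m⟩ := exists_comp (C.nr i).unit F (C.bf_P i s 0) d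
    rw [← C.P_u0 i ha, ← C.P_u0 i hb] at h m
    rcases le_total (C.u i a) (C.u i b) with l | l
    · rw [C.seg_P i l] at m
      obtain ⟨s', m, e⟩ := m
      exact ⟨γ, j, _, _, C.P_inj i e ▸ m, h⟩
    · rw [seg_comm, C.seg_P i l] at m
      obtain ⟨s', m, e⟩ := m
      exact ⟨γ, j, _, _, C.P_inj i e ▸ m, h.symm⟩
  have im : ∀ {i γ j a b}, Comp F (C.σ γ • C.P j c 0) R (C.P i a 0) (C.P i b 0) → ∀ s ∈ Icc a b,
      F' (C.P i s 0) ∈ seg (F (C.P i a 0)) (F (C.P i b 0)) := fun {i γ j a b} h s m => by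
    rw [← w _ γ j _ _ (C.nr i) (C.bf_P i _ _) (C.bf_P i _ _) h, C.seg_P i (m.1.trans m.2)]
    exact ⟨_, ⟨s, m, rfl⟩, rfl⟩
  have hB' : ∀ i s, |bf (C.fr i • E0) (F' (C.P i s 0))| ≤ ε := fun i s => by
    rcases key i s with d | ⟨γ, j, a, b, m, h⟩
    · rw [o _ d]
      exact hB i s
    · exact cvx_strip _ _ _ (hB i a) _ (hB i b) (im h s m)
  have far : ∀ i s, R ≤ cd (C.P i c 0) (F (C.P i s 0)) → ε < |C.ht F i s - c| := fun i s d =>
    not_le.1 fun k => d.not_gt (hr.big i c _ (hB i s) k)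
  refine ⟨F', r, p, hB', fun i s => ?_⟩
  rcases key i s with d | ⟨γ, j, a, b, m, h⟩
  · exact Or.inl ⟨congrArg (C.u i) (o _ d), far i s (by simpa only [map_one, one_smul] using d 1 i)⟩
  have fx : ∀ x, cd (C.σ γ • C.P j c 0) (F x) = R → F' x = F x := fun x e => o x fun δ k =>
    not_lt.1 fun l => l.ne (same γ δ j k _ e.le l.le ▸ e)
  have ea : C.ht F' i a = C.ht F i a := congrArg (C.u i) (fx _ h.ha)
  have eb : C.ht F' i b = C.ht F i b := congrArg (C.u i) (fx _ h.hb)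
  have inj : C.ht F i a ≠ C.ht F i b → InjOn (C.ht F' i) (Icc a b) := fun n x hx y hy e =>
    C.P_inj i (F'.injective (u_seg i n (im h x hx) (im h y hy) e))
  refine Or.inr ⟨a, b, m, ea, eb, ?_, inj, fun k => ?_⟩
  · by_cases n : C.ht F i a = C.ht F i b
    · have z : ∀ x ∈ Icc a b, C.ht F' i x = C.ht F i b := fun x hx => (C.A_zero i).1
        (Step_on ((C.A_zero i).2 n) ((C.A_zero i).2 rfl) (im h x hx))
      exact Or.inl fun x hx y hy _ => (z x hx).le.trans (z y hy).ge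
    · exact ((ht_cont i).continuousOn.strictMonoOn_of_injOn_Icc' (m.1.trans m.2) (inj n)).imp
        StrictMonoOn.monotoneOn StrictAntiOn.antitoneOn
  · have e := same γ 1 j i _ (cvx_Dsc _ _ _ h.ha.le _ h.hb.le (im h s m))
      (by simpa only [map_one, one_smul] using (hr.big i c _ (hB' i s) k).le)
    rw [map_one, one_smul] at e
    exact ⟨far i a (e ▸ h.ha.ge), far i b (e ▸ h.hb.ge)⟩

theorem once (hF : C.Ok F) (hP : Pl (F '' C.L)) (hI : C.In F) :
    ∃ F', C.Red F F' ∧ (∀ i s, |bf (C.fr i • E0) (F' (C.P i s 0))| < C.η) ∧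
      ∀ i, ∃! s, C.u i (F' (C.P i s 0)) = 0 := by
  obtain ⟨R, ε, hr⟩ := C.exists_rad
  have ε0 := hr.pos
  have ind : ∀ (n : ℕ) F, C.Ok F → Pl (F '' C.L) →
      (∀ i s, |bf (C.fr i • E0) (F (C.P i s 0))| ≤ ε) →
      (∀ i, ¬ Desc (C.ht F i) (ε + 2 * n * ε) (-ε)) → ∃ F', C.Red F F' ∧
        (∀ i s, |bf (C.fr i • E0) (F' (C.P i s 0))| < C.η) ∧ ∀ i, ∃! s, C.ht F' i s = 0 := by
    intro n
    induction n with
    | zero =>
      intro F hF hP hB hD
      obtain ⟨F', r, -, b, s⟩ := stepO hr 0 hF hP hB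
      refine ⟨F', r, fun i s => (b i s).trans_lt hr.lt, fun i => existsUnique_of_exists_of_unique ?_
        fun x y p q => ?_⟩
      · obtain ⟨B, h⟩ := r.1.ht_bdd
        exact intermediate_value_univ (-B) B (ht_cont i)
          ⟨by linarith [(abs_le.1 (h i (-B))).2], by linarith [(abs_le.1 (h i B)).1]⟩
      · have d : ¬ Desc (C.ht F i) (0 + ε) (0 - ε) := by simpa using hD i
        rcases lt_trichotomy x y with l | l | l
        exacts [((s i).once ε0.le d l p q).elim, l, ((s i).once ε0.le d l q p).elim]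
    | succ n ih =>
      intro F hF hP hB hD
      obtain ⟨F', r, p, b, s⟩ := stepO hr (2 * (n + 1) * ε) hF hP hB
      obtain ⟨F'', r', h⟩ := ih F' r.1 p b fun i d => hD i (by
        have := (s i).down ε0.le (β := -ε) (by nlinarith only [ε0])
          (by convert d using 1; ring)
        convert this using 1
        push_cast
        ring)
      exact ⟨F'', r.trans r', h⟩
  obtain ⟨F₁, r, p, b⟩ := sweep hF hP hI ε0
  obtain ⟨B, h⟩ := r.1.ht_bdd
  obtain ⟨n, hn⟩ := exists_nat_ge (B / ε)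
  rw [div_le_iff₀ ε0] at hn
  obtain ⟨F₂, r', h'⟩ := ind n F₁ r.1 p (fun i s => b _ _ (C.nr i) (C.bf_P i s 0))
    fun i ⟨s, s', l, x, y⟩ => by
      linarith [(abs_le.1 (h i s)).2, (abs_le.1 (h i s')).1]
  exact ⟨F₂, r.trans r', h'⟩

end Cores

end Pool.Agent.MP_646035_al.NO

/-!
A map that crosses the cuts once is isotopic to a map that fixes the cores.
-/

namespace Pool.Agent.MP_646035_al.NO

open Pool.Agent.MP_4a6971_al.H66 Pool.Agent.MP_4a6971_al.H83 MC Set Topology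

variable {Γ : Type} [Group Γ]

namespace Cores

variable {C : Cores Γ} {F : X ≃ₜ X}

theorem fix_slide (p : Fin C.m → X) (hp : ∀ i, |bf (C.fr i • E0) (p i)| < C.η ∧
    |C.u i (p i)| < C.t i / 3) : ∃ H, C.Iso H ∧ ∀ i, H (p i) = C.P i 0 0 ∧
      ∀ x, |bf (C.fr i • E0) x| < C.η → |bf (C.fr i • E0) (H x)| < C.η ∧
        (C.u i (p i) = 0 → (C.u i (H x) = 0 ↔ C.u i x = 0)) ∧
        (bf (C.fr i • E0) (p i) = 0 → bf (C.fr i • E0) x = 0 → bf (C.fr i • E0) (H x) = 0) := by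
  have tp := C.t_pos
  have m : ∀ i, p i ∈ interior (C.Rect i (-(C.t i / 3)) (C.t i / 3)) := fun i =>
    (C.int_Rect i).2 ⟨(hp i).1, abs_lt.1 (hp i).2⟩
  choose h h1 h2 h3 using fun i => slideX (C.isCompact_Rect i _ _) (C.cvx_Rect i _ _) (m i)
    (q := C.P i 0 0) ((C.int_Rect i).2 (by
      rw [bf_P, u_P, abs_zero]
      exact ⟨C.η_pos, by linarith [tp i], by linarith only [tp i]⟩))
  obtain ⟨H, a, b, -, c⟩ := C.moveR _ _ (fun i => by linarith [tp i])
    (fun i => by linarith [tp i]) h h1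
  refine ⟨H, a, fun i => ⟨(b i _ (interior_subset (m i))).trans (h2 i), fun x hx => ?_⟩⟩
  rcases c i x hx.le with e | ⟨n, y, d, rfl, d', e⟩ <;> rw [e]
  · exact ⟨hx, fun _ => Iff.rfl, fun _ k => k⟩
  rw [int_Rect] at d d'
  refine ⟨by rw [abs_zpow]; exact d'.1, fun k => ?_, fun k k' => ?_⟩
  · rw [u_zpow, u_zpow]
    have := tp i
    rcases lt_trichotomy n 0 with q | rfl | q
    · have : (n : ℝ) ≤ -1 := by exact_mod_cast Int.le_sub_one_of_lt q
      exact iff_of_false (by nlinarith only [d'.2.2, d, this]) (by nlinarith only [d, this])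
    · simpa [A_zero] using h3 i (C.A i 0) ((C.A_zero i).2 k) ((C.A_zero i).2 (C.u_P i 0 0)) y
    · have : (1 : ℝ) ≤ n := by exact_mod_cast q
      exact iff_of_false (by nlinarith only [d'.2.1, d, this]) (by nlinarith only [d, this])
  · rw [← abs_eq_zero, abs_zpow, abs_eq_zero] at k' ⊢
    exact (h3 i _ k (C.bf_P i 0 0) y).2 k'

theorem fix_arc (hF : C.Ok F) (hB : ∀ i s, |bf (C.fr i • E0) (F (C.P i s 0))| < C.η)
    (d : Fin C.m → ℝ) (h1 : ∀ i s, C.u i (F (C.P i s 0)) = 0 → s = d i)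
    (h2 : ∀ i, F (C.P i (d i) 0) = C.P i 0 0) :
    ∃ F', C.Red F F' ∧ ∀ i s, F' (C.P i s 0) = C.P i (s - d i) 0 := by
  have tp := C.t_pos
  have sh : ∀ i s, F (C.P i (s + C.t i) 0) = C.σ (C.k i) • F (C.P i s 0) := fun i s => by
    rw [← hF.1, k_P, neg_zero]
  have su : ∀ i s, C.u i (F (C.P i (s + C.t i) 0)) = C.u i (F (C.P i s 0)) + C.t i :=
    fun i s => by rw [sh, u_k]
  have c : ∀ i, Continuous fun s => C.u i (F (C.P i s 0)) := fun i =>
    (C.continuous_u i).comp (F.continuous.comp (C.continuous_P0 i))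
  have z : ∀ i, C.u i (F (C.P i (d i) 0)) = 0 := fun i => by rw [h2, u_P]
  have pos : ∀ i s, d i < s → 0 < C.u i (F (C.P i s 0)) := fun i s hs =>
    Two_sign isPreconnected_Ioi (c i).continuousOn (fun r (a : d i < r) e => a.ne' (h1 i r e))
      (a := d i + C.t i) (lt_add_of_pos_right _ (tp i)) hs (by rw [su, z, zero_add]; exact tp i)
  have neg : ∀ i s, s < d i + C.t i → C.u i (F (C.P i s 0)) < C.t i := fun i s hs => by
    have := Two_sign isPreconnected_Iio (c i).neg.continuousOn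
      (fun r (a : r < d i) e => a.ne (h1 i r (neg_eq_zero.1 e))) (a := d i - C.t i)
      (b := s - C.t i) (sub_lt_self _ (tp i)) (sub_lt_iff_lt_add.2 hs) (by
        have := su i (d i - C.t i)
        rw [sub_add_cancel, z] at this
        simp only [Pi.neg_apply]
        linarith [tp i])
    have e := su i (s - C.t i)
    rw [sub_add_cancel] at e
    simp only [Pi.neg_apply] at this
    linarith
  choose h h3 h4 using fun i => arcX (C.isCompact_Rect i 0 (C.t i)) (C.cvx_Rect i _ _)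
    (γ₁ := fun τ => F (C.P i (d i + τ * C.t i) 0))
    (C.parc i (F.continuous.comp ((C.continuous_P0 i).comp (by fun_prop)))
      (fun s t e => mul_right_cancel₀ (tp i).ne' (add_left_cancel (C.P_inj i (F.injective e))))
      (fun τ => hB i _) (by simp [z]) (by simp [su, z]) (tp i) fun τ a =>
        ⟨pos i _ (by nlinarith only [a.1, tp i]), neg i _ (by nlinarith [a.2, tp i])⟩)
    (C.parc_P i (tp i)) (by simp [h2]) (by simp [sh, h2, k_P])
  obtain ⟨H, a, b, -⟩ := C.moveR (fun _ => 0) C.t tp (fun i => (zero_add _).ge) h h3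
  have r := Red.left hF a
  refine ⟨H * F, r, fun i s => ?_⟩
  obtain ⟨n, s, hs, rfl⟩ := C.exists_zpow i (d i) s
  have q := tp i
  have e := h4 i ((s - d i) / C.t i) ⟨div_nonneg (sub_nonneg.2 hs.1) q.le,
    (div_le_one q).2 (by linarith [hs.2])⟩
  simp only [sub_zero, div_mul_cancel₀ _ q.ne', add_sub_cancel, zero_add] at e
  rw [← zpow_P, r.1.1, add_sub_right_comm, ← zpow_P, ← e]
  refine congrArg _ (b i _ ((C.mem_Rect i).2 ⟨(hB i s).le, ?_, (neg i s hs.2).le⟩))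
  rcases hs.1.eq_or_lt with rfl | k
  exacts [(z i).ge, (pos i s k).le]

theorem fix_shift (hF : C.Ok F) (d e : Fin C.m → ℝ) (he : ∀ i, |e i| ≤ C.t i / 4)
    (h : ∀ i s, F (C.P i s 0) = C.P i (s - d i) 0) :
    ∃ F', C.Red F F' ∧ ∀ i s, F' (C.P i s 0) = C.P i (s - (d i + e i)) 0 := by
  have k : ∀ i s, |bf (C.fr i • E0) (C.P i s 0)| < C.η := fun i s => by
    rw [bf_P, abs_zero]
    exact C.η_pos
  obtain ⟨H, a, b⟩ := fix_slide (fun i => C.P i (e i) 0) fun i =>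
    ⟨k i _, by rw [u_P]; linarith [he i, C.t_pos i]⟩
  have r := Red.left hF a
  have v : ∀ i s, (H * F) (C.P i s 0) = H (C.P i (s - d i) 0) := fun i s => congrArg H (h i s)
  obtain ⟨F', c, f⟩ := fix_arc r.1 (fun i s => v i s ▸ ((b i).2 _ (k i _)).1) (fun i => d i + e i)
    (fun i s q => by
      rw [v] at q
      have := C.P_u0 i (((b i).2 _ (k i (s - d i))).2.2 (C.bf_P i _ _) (C.bf_P i _ _))
      rw [q, ← (b i).1] at this
      linarith [C.P_inj i (H.injective this)])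
    fun i => by rw [v, add_sub_cancel_left, (b i).1]
  exact ⟨F', r.trans c, f⟩

theorem fix_ind (n : ℕ) : ∀ {F}, C.Ok F → ∀ d : Fin C.m → ℝ, (∀ i, |d i| ≤ n * (C.t i / 4)) →
    (∀ i s, F (C.P i s 0) = C.P i (s - d i) 0) →
      ∃ F', C.Red F F' ∧ ∀ i s, F' (C.P i s 0) = C.P i s 0 := by
  induction n with
  | zero =>
    exact fun hF d a b => ⟨_, Red.refl hF, fun i s => by
      rw [b, abs_nonpos_iff.1 ((a i).trans_eq (by simp)), sub_zero]⟩
  | succ n ih =>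
    intro F hF d a b
    have p : (0 : ℝ) < n + 1 := by positivity
    push_cast at a
    obtain ⟨F₁, r, c⟩ := fix_shift hF d (fun i => -(d i / (n + 1))) (fun i => by
      rw [abs_neg, abs_div, abs_of_pos p, div_le_iff₀' p]
      exact a i) b
    obtain ⟨F₂, r', e⟩ := ih r.1 _ (fun i => by
      rw [show d i + -(d i / (n + 1)) = n * (d i / (n + 1)) by field_simp; ring, abs_mul,
        Nat.abs_cast, abs_div, abs_of_pos p]
      exact mul_le_mul_of_nonneg_left ((div_le_iff₀' p).2 (a i)) n.cast_nonneg) c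
    exact ⟨F₂, r.trans r', e⟩

theorem fix (hF : C.Ok F) (hB : ∀ i s, |bf (C.fr i • E0) (F (C.P i s 0))| < C.η)
    (h1 : ∀ i, ∃! s, C.u i (F (C.P i s 0)) = 0) :
    ∃ F', C.Red F F' ∧ ∀ i s, F' (C.P i s 0) = C.P i s 0 := by
  choose d h2 h3 using h1
  obtain ⟨H, a, b⟩ := fix_slide (fun i => F (C.P i (d i) 0)) fun i =>
    ⟨hB i _, by rw [h2 i, abs_zero]; linarith [C.t_pos i]⟩
  have r := Red.left hF a
  obtain ⟨F₁, r1, c⟩ := fix_arc r.1 (fun i s => ((b i).2 _ (hB i s)).1) d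
    (fun i s q => h3 i s ((((b i).2 _ (hB i s)).2.1 (h2 i)).1 q)) fun i => (b i).1
  obtain ⟨M, hM⟩ := (finite_range fun i => |d i| / (C.t i / 4)).bddAbove
  obtain ⟨n, hn⟩ := exists_nat_ge M
  obtain ⟨F₂, r2, e⟩ := fix_ind n r1.1 d (fun i => (div_le_iff₀ (by linarith only [C.t_pos i])).1
    ((hM ⟨i, rfl⟩).trans hn)) c
  exact ⟨F₂, (r.trans r1).trans r2, e⟩

end Cores

end Pool.Agent.MP_646035_al.NO
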