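import Pool.Agent.MP_4a6971_al.H83.Klein
import Pool.Agent.MP_4a6971_al.H83.Baer
import Pool.Agent.MP_646035_al.Mg.MC_Trace
import Pool.Agent.MP_646035_al.Mg.Cx_Model
import Pool.Agent.MP_646035_al.Cx.Tw1
import Pool.Agent.MP_646035_al.Mg.NO_Move
import Pool.Agent.MP_646035_al.Cx.Base
import Pool.Agent.MP_646035_al.Mg.NO_Comb
import Pool.Agent.MP_646035_al.Mg.NO_Ker

attribute [-instance] SMulWithZero.toSMulZeroClass Semiring.toMonoid CommGroup.toDivisionCommMonoid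
  GradedMonoid.GradeZero.mulAction ESeminormedAddCommMonoid.toAddCommMonoid
  MonTypeEquivalenceMon.monMonoid Algebra.toSMul AddCommGroup.toAddGroup Module.toDistribMulAction
  AddQuantale.instAddLeftMono ESeminormedAddMonoid.toAddMonoid MulActionWithZero.toMulAction
  Submonoid.instSMulSubtypeMem NonUnitalRingHomClass.toMulHomClass
  AddCommMonoidWithOne.toAddMonoidWithOne littleWedderburn Action.FintypeCat.instMulActionObjFiniteOf
  SetLike.GradeZero.instMonoid CommRing.toRing SemigroupWithZero.toSemigroup instSMulZeroClass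
  RKHS.instFunLike NonUnitalNonAssocSemiring.toAddCommMonoid GroupConeClass.toSubmonoidClass
  NormedRing.toRing Valued.toUniformSpace IdemSemiring.toCanonicallyOrderedAdd
  AddQuantale.instAddRightMono NumberField.to_charZero MulSemiringAction.toDistribMulAction
  Prod.instMul CommSemiring.toSemiring AddCommGroupWithOne.toAddGroupWithOne
  CommMonoidWithZero.toMonoidWithZero NormedField.toField CStarAlgebra.instOrderClosedTopology
  SeminormedRing.toRing Quantale.instMulRightMono SemilinearMapClass.toMulActionSemiHomClass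
  CommGroupWithZero.toGroupWithZero SubtractionMonoid.toSubNegMonoid MulDistribMulAction.toMulAction
  AddRightCancelMonoid.toAddMonoid NonUnitalAlgSemiHomClass.toMulHomClass Torsor.toMulAction
  Fintype.decidableExistsFintype continuousSub_of_discreteTopology SeminormedAddGroup.toAddGroup
  continuousSub_of_indiscreteTopology SubringClass.toSubsemiringClass
  LinearOrderedCommMonoidWithZero.toPosMulStrictMono AddLeftCancelMonoid.toAddMonoid
  NonUnitalRing.toNonUnitalNonAssocRing BooleanRing.toRing AddCancelCommMonoid.toAddCommMonoid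
  SubNegZeroMonoid.toSubNegMonoid GradedMonoid.GradeZero.smul IsOrderedMonoid.toMulLeftMono
  instCoeTCOfCoe NormedAddGroup.toAddGroup LinearOrderedAddCommMonoidWithTop.toAddCommMonoid
  DivisionSemiring.toSemiring TestFunctionClass.toDFunLike NormedDivisionRing.toDivisionRing
  Action.instMulAction NonAssocSemiring.toMulZeroOneClass

-- part MP_646035_al.Cx.Squeeze
section

/-!
Projective contractions of the hyperbolic plane and conjugation of maps of bounded displacement.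
-/

namespace Pool.Agent.MP_646035_al.MC

open Pool.Agent.MP_4a6971_al.H66 Pool.Agent.MP_4a6971_al.H83 Set Filter Topology

open Classical in
/-- The point of the plane on the ray of a vector. -/
noncomputable def nz (P : V) : X := if h : H2 ((√(-Bf P P))⁻¹ • P) then ⟨_, h⟩ else oX

theorem nz_smul {r : ℝ} (hr : 0 < r) (x : X) : nz (r • x.1) = x := by
  have : (√(-Bf (r • x.1) (r • x.1)))⁻¹ • r • x.1 = x.1 := by
    rw [Bf_smul_left, Bf_smul_right, x.2.1, mul_neg, mul_neg, neg_neg, mul_one,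
      Real.sqrt_mul_self hr.le, inv_smul_smul₀ hr.ne']
  rw [nz, dif_pos (this.symm ▸ x.2)]
  exact Subtype.ext this

theorem nz_spec {P : V} (h : Bf P P < 0) {x : X} (hx : Bf x.1 P < 0) :
    P = √(-Bf P P) • (nz P).1 := by
  obtain ⟨t, -, ht⟩ := exists_H2_of_neg h
  have a := one_le_ch x.2 ht
  rw [ch, Bf_smul_right] at a
  have t0 : 0 < t := by nlinarith only [hx, a]
  have e : P = t⁻¹ • (⟨_, ht⟩ : X).1 := (inv_smul_smul₀ t0.ne' P).symm
  generalize (⟨_, ht⟩ : X) = y at e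
  rw [e, nz_smul (inv_pos.2 t0), Bf_smul_left, Bf_smul_right, y.2.1, mul_neg, mul_neg, neg_neg, mul_one,
    Real.sqrt_mul_self (inv_pos.2 t0).le]

theorem nz_cont {T : Type} [TopologicalSpace T] {f : T → V} {p : T} (hf : ContinuousAt f p)
    (h : Bf (f p) (f p) < 0) {x : X} (hx : Bf x.1 (f p) < 0) : ContinuousAt (fun q => nz (f q)) p := by
  have c : ContinuousAt (fun q => Bf (f q) (f q)) p :=
    continuous_Bf.continuousAt.comp (f := fun q => (f q, f q)) (hf.prodMk hf)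
  have c' : ContinuousAt (fun q => Bf x.1 (f q)) p :=
    continuous_Bf.continuousAt.comp (f := fun q => (x.1, f q)) (continuousAt_const.prodMk hf)
  refine IsInducing.subtypeVal.continuousAt_iff.2 (ContinuousAt.congr
    (f := fun q => (√(-Bf (f q) (f q)))⁻¹ • f q)
    ((c.neg.sqrt.inv₀ (Real.sqrt_pos.2 (neg_pos.2 h)).ne').smul hf) ?_)
  filter_upwards [c.eventually_lt continuousAt_const h, c'.eventually_lt continuousAt_const hx]
    with q a b
  exact (inv_smul_eq_iff₀ (Real.sqrt_pos.2 (neg_pos.2 a)).ne').2 (nz_spec a b)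

/-- The linear map that rescales the component along `n`, on the negative side of `n`. -/
noncomputable def lq (n : V) (β : ℝ) (x : X) : V := x.1 + (β * min (bf n x) 0) • n

/-- The induced map of the plane. -/
noncomputable def sc (n : V) (β : ℝ) (x : X) : X := nz (lq n β x)

/-- It is defined where this function is positive. -/
noncomputable def qq (n : V) (β : ℝ) (x : X) : ℝ := 1 - (2 * β + β ^ 2 * Bf n n) * min (bf n x) 0 ^ 2

variable {n : V} {β β' : ℝ} {x y z : X}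

theorem bf_min (n : V) (x : X) : min (bf n x) 0 * bf n x = min (bf n x) 0 ^ 2 := by
  rcases le_total (bf n x) 0 with h | h <;> simp [h, sq]

theorem Bf_lq (n : V) (β : ℝ) (x : X) : -Bf (lq n β x) (lq n β x) = qq n β x := by
  simp only [lq, qq, Bf_add_left, Bf_add_right, Bf_smul_left, Bf_smul_right, x.2.1, Bf_comm x.1 n]
  have : min (bf n x) 0 * Bf n x.1 = _ := bf_min n x
  linear_combination (-2 * β) * this

/-- The condition on the parameter that keeps the image in the future. -/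
def Ok (n : V) (β : ℝ) : Prop := β ≤ 0 ∨ β ≤ 2 * β + β ^ 2 * Bf n n

theorem Ok.fut (h : Ok n β) (hq : 0 < qq n β x) : Bf x.1 (lq n β x) < 0 := by
  simp only [lq, qq, Bf_add_right, Bf_smul_right, x.2.1, Bf_comm x.1 n] at *
  have := bf_min n x
  rw [mul_assoc, show min (bf n x) 0 * Bf n x.1 = _ from this]
  rcases h with h | h <;> nlinarith only [h, hq]

theorem Ok.spec (h : Ok n β) (hq : 0 < qq n β x) : lq n β x = √(qq n β x) • (sc n β x).1 := by
  rw [← Bf_lq]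
  exact nz_spec (by linarith [Bf_lq n β x]) (h.fut hq)

theorem Ok.val (h : Ok n β) (hq : 0 < qq n β x) (N : V) :
    √(qq n β x) * bf N (sc n β x) = bf N x + β * min (bf n x) 0 * Bf N n := by
  have := congrArg (Bf N) (h.spec hq)
  simpa only [bf, Bf_smul_right, lq, Bf_add_right] using this.symm

theorem sc_of (h : 0 ≤ bf n x) : sc n β x = x := by simpa only [sc, lq, h, inf_of_le_right, mul_zero, zero_smul, add_zero, one_smul] using nz_smul one_pos x

theorem qq_of (h : 0 ≤ bf n x) : qq n β x = 1 := by simp only [qq, h, inf_of_le_right, ne_eq, OfNat.ofNat_ne_zero, not_false_eq_true, zero_pow, mul_zero, sub_zero]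

theorem qq_smul (f : Isom) : qq (f • n) β (f • x) = qq n β x := by simp only [qq, Bf_isom, bf_smul]

theorem Ok.smul (h : Ok n β) (hq : 0 < qq n β x) (f : Isom) : sc (f • n) β (f • x) = f • sc n β x := by
  have : lq (f • n) β (f • x) = f • lq n β x := by simp only [lq, coe_smul, bf_smul, smul_add, isom_smul]
  rw [sc, this, h.spec hq, isom_smul]
  exact nz_smul (Real.sqrt_pos.2 hq) (f • sc n β x)

theorem Ok.mn (h : Ok n β) (hq : 0 < qq n β x) (h0 : 0 < 1 + β * Bf n n) :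
    √(qq n β x) * min (bf n (sc n β x)) 0 =
      (1 + β * Bf n n) * min (bf n x) 0 := by
  rw [mul_min_of_nonneg _ _ (Real.sqrt_nonneg _), h.val hq, mul_zero]
  rcases le_total (bf n x) 0 with a | a
  · rw [min_eq_left a, min_eq_left (by nlinarith only [h0, a])]
    ring
  · simp only [a, inf_of_le_right, mul_zero, zero_mul, add_zero]

theorem Ok.inv (h : Ok n β) (hq : 0 < qq n β x) (h0 : 0 < 1 + β * Bf n n)
    (e : β + β' + β * β' * Bf n n = 0) :
    sc n β' (sc n β x) = x ∧ qq n β x * qq n β' (sc n β x) = 1 := by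
  have r0 := Real.sqrt_pos.2 hq
  have a : lq n β' (sc n β x) = (√(qq n β x))⁻¹ • x.1 := by
    rw [eq_inv_smul_iff₀ r0.ne', lq, smul_add, ← h.spec hq, smul_smul, mul_left_comm, h.mn hq h0, lq,
      add_assoc, ← add_smul]
    rw [show β * min (bf n x) 0 + β' * ((1 + β * Bf n n) *
      min (bf n x) 0) = 0 by linear_combination min (bf n x) 0 * e]
    simp
  refine ⟨by rw [sc, a, nz_smul (inv_pos.2 r0)], ?_⟩
  rw [← Bf_lq n β', a, Bf_smul_left, Bf_smul_right, x.2.1]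
  nth_rewrite 1 [← Real.mul_self_sqrt hq.le]
  field_simp

theorem one_le_qq (h : 2 * β + β ^ 2 * Bf n n ≤ 0) (x : X) : 1 ≤ qq n β x := by
  rw [qq]
  nlinarith only [h]

theorem sc_est (h : β ≤ 0) (h' : 2 * β + β ^ 2 * Bf n n ≤ 0) (hy : bf n y ≤ 0) (hz : bf n z ≤ 0) :
    √(qq n β y) * (cd (sc n β y) (sc n β z) - 1) ≤ cd y z - 1 := by
  have a := one_le_qq h' y
  have b := one_le_qq h' z
  have e : √(qq n β y) * √(qq n β z) * cd (sc n β y) (sc n β z) =
      cd y z - (2 * β + β ^ 2 * Bf n n) * (bf n y * bf n z) := by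
    have : -Bf (lq n β y) (lq n β z) = cd y z - (2 * β + β ^ 2 * Bf n n) * (bf n y * bf n z) := by
      simp only [lq, Bf_add_left, Bf_add_right, Bf_smul_left, Bf_smul_right, Bf_comm y.1 n,
        min_eq_left hy, min_eq_left hz, cd, ch]
      unfold bf
      ring
    rw [← this, Ok.spec (Or.inl h) (one_pos.trans_le a), Ok.spec (Or.inl h) (one_pos.trans_le b)]
    simp only [Bf_smul_left, Bf_smul_right, cd, ch]
    ring
  have c : 1 - (2 * β + β ^ 2 * Bf n n) * (bf n y * bf n z) ≤ √(qq n β y) * √(qq n β z) := by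
    rw [← Real.sqrt_mul (by linarith)]
    refine Real.le_sqrt_of_sq_le ?_
    simp only [qq, min_eq_left hy, min_eq_left hz]
    linarith only [mul_nonneg (neg_nonneg.2 h') (sq_nonneg (bf n y - bf n z))]
  have d := mul_nonneg (mul_nonneg (Real.sqrt_nonneg (qq n β y)) (sub_nonneg.2 (Real.one_le_sqrt.2 b)))
    (sub_nonneg.2 (one_le_cd (sc n β y) (sc n β z)))
  linarith only [e, c, d]

theorem Ok.est (h : Ok n β) (hq : 0 < qq n β x) (h0 : 0 < 1 + β * Bf n n)
    (e : β + β' + β * β' * Bf n n = 0) (h1 : β' ≤ 0) (h2 : 2 * β' + β' ^ 2 * Bf n n ≤ 0)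
    (hy : bf n (sc n β x) ≤ 0) (hz : bf n z ≤ 0) {C : ℝ}
    (hC : cd (sc n β x) z ≤ C) : cd x (sc n β' z) ≤ 1 + (C - 1) * √(qq n β x) := by
  have a := sc_est h1 h2 hy hz
  obtain ⟨b, c⟩ := h.inv hq h0 e
  rw [b] at a
  have d : √(qq n β x) * √(qq n β' (sc n β x)) = 1 := by rw [← Real.sqrt_mul hq.le, c, Real.sqrt_one]
  have := mul_le_mul_of_nonneg_left (a.trans (sub_le_sub_right hC 1)) (Real.sqrt_nonneg (qq n β x))
  rw [← mul_assoc, d] at this
  linarith only [this]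

theorem continuous_qq (n : V) : Continuous fun p : ℝ × X => qq n p.1 p.2 := by
  unfold qq
  fun_prop

theorem Ok.cont {b : ℝ → ℝ} {t : ℝ} (h : Ok n (b t)) (hq : 0 < qq n (b t) x) (hb : ContinuousAt b t) :
    ContinuousAt (fun p : ℝ × X => sc n (b p.1) p.2) (t, x) :=
  have := hb.comp_of_eq (continuousAt_fst (p := (t, x))) rfl
  nz_cont (f := fun p : ℝ × X => lq n (b p.1) p.2) (by unfold lq; fun_prop)
    (by linarith [Bf_lq n (b t) x]) (h.fut hq)

theorem tendsto_of_cd {T : Type} {l : Filter T} {f f' : T → X} (h : Tendsto f l (𝓝 x))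
    (h' : ∀ δ > 0, ∀ᶠ p in l, cd (f p) (f' p) ≤ 1 + δ) : Tendsto f' l (𝓝 x) := by
  refine tendsto_def.2 fun U hU => ?_
  obtain ⟨R, a, b⟩ := exists_Dsc_subset hU
  obtain ⟨δ, c, d⟩ := cd_near (show (1 + R) / 2 < R by linarith)
  have : Continuous (cd x) := by fun_prop
  filter_upwards [h' δ c, (this.continuousAt.tendsto.comp h).eventually_le_const
    (show cd x x < (1 + R) / 2 by rw [cd_self]; linarith only [a])] with p e e'
  exact b (d _ _ _ e' e).le

/-- A family of contractions `ψ t` of the plane onto the open sets `U t`, with inverses `φ t`. -/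
structure Sq (U : Set (ℝ × X)) (ψ φ : ℝ → X → X) : Prop where
  opn : IsOpen U
  mem : ∀ t x z, (t, x) ∈ U → (t, ψ t z) ∈ U ∧ φ t (ψ t z) = z ∧
    ContinuousAt (fun p : ℝ × X => ψ p.1 p.2) (t, z)
  inv : ∀ t x, (t, x) ∈ U → ψ t (φ t x) = x ∧ ContinuousAt (fun p : ℝ × X => φ p.1 p.2) (t, x)
  est : ∀ C, ∀ p₀ ∉ U, ∀ δ > 0, ∀ᶠ p in 𝓝 p₀, p ∈ U → ∀ z, cd (φ p.1 p.2) z ≤ C →
    cd p.2 (ψ p.1 z) ≤ 1 + δ

variable {U : Set (ℝ × X)} {ψ φ : ℝ → X → X}

open Classical in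
theorem Sq.cont (h : Sq U ψ φ) {G : ℝ × X → X} (hG : Continuous G) {C : ℝ}
    (hC : ∀ p, cd p.2 (G p) ≤ C) :
    Continuous fun p : ℝ × X => if p ∈ U then ψ p.1 (G (p.1, φ p.1 p.2)) else p.2 := by
  refine continuous_iff_continuousAt.2 fun p₀ => ?_
  by_cases a : p₀ ∈ U
  · refine ContinuousAt.congr (f := fun p => ψ p.1 (G (p.1, φ p.1 p.2))) ?_
      (by filter_upwards [h.opn.mem_nhds a] with p hp using (if_pos hp).symm)
    exact (h.mem _ _ _ a).2.2.comp (f := fun p : ℝ × X => (p.1, G (p.1, φ p.1 p.2)))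
      (continuousAt_fst.prodMk (hG.continuousAt.comp (continuousAt_fst.prodMk (h.inv _ _ a).2)))
  · rw [ContinuousAt, if_neg a]
    refine tendsto_of_cd continuousAt_snd fun δ hδ => ?_
    filter_upwards [h.est C _ a δ hδ] with p hp
    split_ifs with b
    · exact hp b _ (hC (p.1, _))
    · rw [cd_self]
      linarith

theorem Sq.conj (h : Sq U ψ φ) {G : ℝ → X ≃ₜ X} (hG : Continuous fun p : ℝ × X => G p.1 p.2) {C : ℝ}
    (hC : ∀ t x, cd x (G t x) ≤ C) : ∃ H : ℝ → X ≃ₜ X, Continuous (fun p : ℝ × X => H p.1 p.2) ∧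
      (∀ t x, (t, x) ∈ U → H t x = ψ t (G t (φ t x))) ∧ ∀ t x, (t, x) ∉ U → H t x = x := by
  classical
  have c := h.cont hG fun p => hC p.1 p.2
  have k : ∀ t (F : X ≃ₜ X) x, (fun x => if (t, x) ∈ U then ψ t (F.symm (φ t x)) else x)
      (if (t, x) ∈ U then ψ t (F (φ t x)) else x) = x := fun t F x => by
    by_cases a : (t, x) ∈ U
    · simp [a, h.mem _ _ _ a, h.inv _ _ a]
    · simp [a]
  refine ⟨fun t => ⟨⟨fun x => if (t, x) ∈ U then ψ t (G t (φ t x)) else x,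
    fun x => if (t, x) ∈ U then ψ t ((G t).symm (φ t x)) else x, k t _, k t (G t).symm⟩,
    c.comp (Continuous.prodMk_right t), (h.cont (G := fun p => (G t).symm p.2) (C := C) (by fun_prop)
      fun p => ?_).comp (Continuous.prodMk_right t)⟩, c, fun t x a => if_pos a, fun t x a => if_neg a⟩
  simpa [cd_comm] using hC t ((G t).symm p.2)

theorem ev_small {T : Type} [TopologicalSpace T] {f : T → ℝ} (hf : Continuous f) {p : T}
    (h : f p ≤ 0) (C : ℝ) {δ : ℝ} (hδ : 0 < δ) : ∀ᶠ q in 𝓝 p, C * √(f q) < δ :=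
  (continuous_const.mul hf.sqrt).continuousAt.eventually_lt continuousAt_const
    (by simpa [Real.sqrt_eq_zero'.2 h] using hδ)

theorem sc_zero (n : V) (x : X) : sc n 0 x = x := by simpa only [sc, lq, zero_mul, zero_smul, add_zero, one_smul] using nz_smul one_pos x

theorem bf_o (x : X) : bf o x ≤ -1 := le_neg.1 (one_le_cd oX x)

/-- The trick of Alexander, with a bound on the displacement. -/
theorem alex {S : Set V} (hS : ∀ N ∈ S, 0 ≤ Bf N o) {F : X ≃ₜ X}
    (hF : ∀ N ∈ S, ∀ x, bf N x ≤ 0 → F x = x) {C : ℝ} (hC : ∀ x, cd x (F x) ≤ C) :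
    ∃ A : ℝ → X ≃ₜ X, Continuous (fun p : ℝ × X => A p.1 p.2) ∧ A 0 = 1 ∧ A 1 = F ∧
      (∀ t, ∀ N ∈ S, ∀ x, bf N x ≤ 0 → A t x = x) ∧ ∀ t x, cd x (A t x) ≤ C := by
  obtain ⟨τ, c, m, τ0, τ1⟩ : ∃ τ : ℝ → ℝ, Continuous τ ∧ (∀ t, 0 ≤ τ t ∧ τ t ≤ 1) ∧ τ 0 = 0 ∧ τ 1 = 1 :=
    ⟨fun t => max 0 (min t 1), by fun_prop, fun t => ⟨le_max_left _ _, by simp only [sup_le_iff, zero_le_one, inf_le_right, and_self]⟩, by simp, by simp only [min_self, zero_le_one, sup_of_le_right]⟩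
  have oo := H2_o.1
  have o0 : ∀ x, bf o x ≤ 0 := fun x => by linarith [bf_o x]
  have ok : ∀ t, Ok o (1 - τ t) := fun t => Or.inr (by rw [oo]; nlinarith only [m t])
  have pos : ∀ t x, 0 < qq o (1 - τ t) x → 0 < τ t := fun t x h => (m t).1.lt_of_ne fun e => by
    rw [← e, qq, oo, min_eq_left (o0 x)] at h
    nlinarith only [bf_o x, h]
  have a1 : ∀ t, 0 < τ t → 1 - (τ t)⁻¹ ≤ 0 := fun t h => sub_nonpos.2 ((one_le_inv₀ h).2 (m t).2)
  have a2 : ∀ t, 0 < τ t → 2 * (1 - (τ t)⁻¹) + (1 - (τ t)⁻¹) ^ 2 * Bf o o ≤ 0 := fun t h => by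
    rw [oo]
    nlinarith only [a1 t h]
  have a3 : ∀ t, 0 < τ t → 1 - τ t + (1 - (τ t)⁻¹) + (1 - τ t) * (1 - (τ t)⁻¹) * Bf o o = 0 :=
    fun t h => by
      rw [oo]
      linear_combination -mul_inv_cancel₀ h.ne'
  have a4 : ∀ t, 0 < τ t → 0 < 1 + (1 - τ t) * Bf o o := fun t h => by rw [oo]; linarith
  have cq : Continuous fun p : ℝ × X => qq o (1 - τ p.1) p.2 :=
    (continuous_qq o).comp (f := fun p : ℝ × X => (1 - τ p.1, p.2)) (by fun_prop)
  have est := fun t x z (h : 0 < qq o (1 - τ t) x) C => (ok t).est (z := z) (C := C) h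
    (a4 t (pos t x h)) (a3 t (pos t x h)) (a1 t (pos t x h)) (a2 t (pos t x h)) (o0 _) (o0 _)
  have sq : Sq {p | 0 < qq o (1 - τ p.1) p.2} (fun t => sc o (1 - (τ t)⁻¹)) fun t => sc o (1 - τ t) := by
    refine ⟨isOpen_lt continuous_const cq, fun t x z h => ?_, fun t x h => ?_, fun C p hp δ hδ => ?_⟩
    · have h := pos t x h
      have b := one_pos.trans_le (one_le_qq (a2 t h) z)
      have k : Ok o (1 - (τ t)⁻¹) := Or.inl (a1 t h)
      have d := k.inv (β' := 1 - τ t) b (by rw [oo]; linarith only [inv_pos.2 h])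
        (by linear_combination a3 t h)
      exact ⟨(mul_pos_iff_of_pos_left b).1 (one_pos.trans_eq d.2.symm), d.1,
        Ok.cont (b := fun t => 1 - (τ t)⁻¹) k b (by fun_prop (disch := exact h.ne'))⟩
    · exact ⟨((ok t).inv h (a4 t (pos t x h)) (a3 t (pos t x h))).1,
        Ok.cont (b := fun t => 1 - τ t) (ok t) h (by fun_prop)⟩
    · filter_upwards [ev_small cq (not_lt.1 hp) (C - 1) hδ] with q a b z d
      linarith only [est _ _ z b C d, a]
  obtain ⟨A, b1, b2, b3⟩ := sq.conj (G := fun _ => F) (by fun_prop) fun _ => hC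
  refine ⟨A, b1, Homeomorph.ext fun x => b3 _ _ fun h => (pos _ _ h).ne' τ0,
    Homeomorph.ext fun x => ?_, fun t N hN x hx => ?_, fun t x => ?_⟩
  · rw [b2 _ _ (by simp only [qq, sub_pos, mem_ofPred_eq, τ1, sub_self, mul_zero, ne_eq, OfNat.ofNat_ne_zero, not_false_eq_true, zero_pow, zero_mul, add_zero, zero_lt_one])]
    simp [τ1, sc_zero]
  · refine (em _).elim (fun h => ?_) (b3 t x)
    have d := (ok t).val h N
    have e := mul_nonneg (mul_nonneg (sub_nonneg.2 (m t).2) (neg_nonneg.2 (min_le_right (bf o x) 0)))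
      (hS N hN)
    rw [b2 _ _ h, hF N hN _ (nonpos_of_mul_nonpos_right (by linarith) (Real.sqrt_pos.2 h))]
    exact (sq.inv _ _ h).1
  · have C1 := (one_le_cd x _).trans (hC x)
    refine (em _).elim (fun h => ?_) fun h => by rwa [b3 t x h, cd_self]
    have d : √(qq o (1 - τ t) x) ≤ 1 := Real.sqrt_le_one.2 (by
      rw [qq, oo]
      linarith only [mul_nonneg (mul_nonneg (sub_nonneg.2 (m t).2) (add_nonneg zero_le_one (m t).1))
        (sq_nonneg (min (bf o x) 0))])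
    rw [b2 _ _ h]
    nlinarith only [est _ _ _ h C (hC _), C1, d]

variable {ι : Type} {C : ι → Set X}

open Classical in
/-- Maps on the pieces of a family, glued with the identity. -/
noncomputable def gl (C : ι → Set X) (F : ι → X → X) (x : X) : X :=
  if h : ∃ i, x ∈ C i then F h.choose x else x

/-- A locally finite family of pairwise disjoint closed sets. -/
structure Fam (C : ι → Set X) : Prop where
  cl : ∀ i, IsClosed (C i)
  lf : LocallyFinite C
  dj : ∀ i j x, x ∈ C i → x ∈ C j → i = j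

theorem Fam.mem (h : Fam C) (F : ι → X → X) {i : ι} (hx : x ∈ C i) : gl C F x = F i x := by
  have : ∃ i, x ∈ C i := ⟨i, hx⟩
  rw [gl, dif_pos this, h.dj _ _ _ this.choose_spec hx]

theorem gl_not (F : ι → X → X) (hx : ¬ ∃ i, x ∈ C i) : gl C F x = x := dif_neg hx

theorem Fam.cont (h : Fam C) {F : ℝ → ι → X → X} (hs : ∀ t i x, x ∉ C i → F t i x = x) {p : ℝ × X}
    (hc : ∀ i, p.2 ∈ C i → ContinuousAt (fun q : ℝ × X => F q.1 i q.2) p) :
    ContinuousAt (fun q : ℝ × X => gl C (F q.1) q.2) p := by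
  have a := continuousAt_snd.eventually (h.lf.eventually_subset h.cl p.2)
  by_cases b : ∃ i, p.2 ∈ C i
  · obtain ⟨i, hi⟩ := b
    refine (hc i hi).congr (a.mono fun q hq => ?_)
    by_cases c : q.2 ∈ C i
    · exact (h.mem _ c).symm
    · exact (hs _ _ _ c).trans (gl_not _ fun ⟨j, hj⟩ => c (h.dj _ _ _ (hq hj) hi ▸ hj)).symm
  · exact continuousAt_snd.congr (a.mono fun q hq => (gl_not _ fun ⟨j, hj⟩ => b ⟨j, hq hj⟩).symm)

theorem Fam.smul (h : Fam C) {F : ι → X → X} (f : Isom) (e : ι → ι) (he : Function.Surjective e)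
    (h1 : ∀ i x, f • x ∈ C (e i) ↔ x ∈ C i) (h2 : ∀ i, x ∈ C i → F (e i) (f • x) = f • F i x) :
    gl C F (f • x) = f • gl C F x := by
  by_cases b : ∃ i, x ∈ C i
  · obtain ⟨i, hi⟩ := b
    rw [h.mem _ hi, h.mem _ ((h1 _ _).2 hi), h2 _ hi]
  · rw [gl_not _ b, gl_not _ fun ⟨j, hj⟩ => b (by
      obtain ⟨i, rfl⟩ := he j
      exact ⟨i, (h1 _ _).1 hj⟩)]

theorem supp_mem {F : X ≃ₜ X} {K : Set X} (h : ∀ x ∉ K, F x = x) (hx : x ∈ K) : F x ∈ K :=
  by_contra fun a => a (by rwa [F.injective (h _ a)])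

theorem supp_symm {F : X ≃ₜ X} {K : Set X} (h : ∀ x ∉ K, F x = x) : ∀ x ∉ K, F.symm x = x :=
  fun x hx => F.symm_apply_eq.2 (h x hx).symm

theorem Fam.homeo (h : Fam C) {F : ℝ → ι → X ≃ₜ X} (hs : ∀ t i, ∀ x ∉ C i, F t i x = x)
    (hc : ∀ i, Continuous fun q : ℝ × X => F q.1 i q.2) : ∃ Φ : ℝ → X ≃ₜ X,
      Continuous (fun q : ℝ × X => Φ q.1 q.2) ∧ ∀ t x, Φ t x = gl C (fun i => F t i) x := by
  have c : Continuous fun q : ℝ × X => gl C (fun i => F q.1 i) q.2 := continuous_iff_continuousAt.2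
    fun _ => h.cont (F := fun t i => F t i) hs fun i _ => (hc i).continuousAt
  have k : ∀ F : ι → X ≃ₜ X, (∀ i, ∀ x ∉ C i, F i x = x) →
      ∀ x, gl C (fun i => (F i).symm) (gl C (fun i => F i) x) = x := fun F a x => by
    by_cases b : ∃ i, x ∈ C i
    · obtain ⟨i, hi⟩ := b
      rw [h.mem _ hi, h.mem _ (supp_mem (a i) hi), Homeomorph.symm_apply_apply]
    · rw [gl_not _ b, gl_not _ b]
  exact ⟨fun t => ⟨⟨gl C fun i => F t i, gl C fun i => (F t i).symm, k _ (hs t),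
    k (fun i => (F t i).symm) fun i => supp_symm (hs t i)⟩, c.comp (Continuous.prodMk_right t),
    (continuous_iff_continuousAt.2 fun _ => h.cont (F := fun _ i => (F t i).symm)
      (fun _ i => supp_symm (hs t i)) fun i _ => by fun_prop).comp (Continuous.prodMk_right t)⟩,
    c, fun _ _ => rfl⟩

end Pool.Agent.MP_646035_al.MC

end

-- part MP_646035_al.Cx.BaerRel
section

/-!
The relative theorem of Baer and Epstein for the model.
-/

namespace Pool.Agent.MP_646035_al.MC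

open Pool.Agent.MP_4a6971_al.H66 Pool.Agent.MP_4a6971_al.H83 Set Filter Topology

variable {Γ : Type} [Group Γ]

theorem bdd_of_cocompact (σ : Γ →* Isom) {K : Set X} {R : ℝ} (hK : ∀ x ∈ K, ∃ γ, cd x (σ γ • oX) ≤ R)
    {B : ℝ → X ≃ₜ X} (hc : Continuous fun p : ℝ × X => B p.1 p.2)
    (h : ∀ t γ x, B t (σ γ • x) = σ γ • B t x) : ∃ C, ∀ t ∈ Icc (0 : ℝ) 1, ∀ x ∈ K, cd x (B t x) ≤ C := by
  obtain ⟨C, hC⟩ := (((isCompact_Icc (a := (0 : ℝ)) (b := 1)).prod (isCompact_Dsc oX R)).image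
    (Continuous.cd' continuous_snd hc)).bddAbove
  refine ⟨C, fun t ht x hx => ?_⟩
  obtain ⟨γ, a⟩ := hK x hx
  obtain ⟨y, rfl⟩ := MulAction.surjective (σ γ) x
  rw [cd_smul, cd_comm] at a
  rw [h, cd_smul]
  exact hC ⟨(t, y), ⟨ht, a⟩, rfl⟩

namespace Fuchs

variable (Z : Fuchs Γ)

theorem per_unit {N : V} (h : N ∈ Z.per) : Bf N N = 1 := (Z.per_ax N h).choose_spec.2.1

theorem fam_per : Fam fun N : Z.per => {x : X | bf N x ≤ 0} where
  cl N := isClosed_le (continuous_bf _) continuous_const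
  lf x := by
    have c : Continuous (cd x) := by fun_prop
    refine ⟨_, c.continuousAt.eventually_le_const (show cd x x < 2 by rw [cd_self]; norm_num),
      ((tw1_per_fin Z (2 * cd x oX * 2)).preimage Subtype.val_injective.injOn).subset ?_⟩
    rintro N ⟨y, a, b⟩
    refine ⟨N.2, (abs_Bf_le_of_sign (Z.per_unit N.2) H2_o y.2
      (mul_nonpos_of_nonneg_of_nonpos (Z.per_o _ N.2).le a)).trans ((ch_comm _ _).trans_le
        ((cd_tri oX x y).trans ?_))⟩
    exact mul_le_mul_of_nonneg_left b (by linarith [one_le_cd x oX])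
  dj N N' x a b := Subtype.ext (by_contra fun e => by
    have := Bf_add_pos (Z.per_unit N.2) (Z.per_unit N'.2) (Z.per_far _ N.2 _ N'.2 e)
      (add_pos (Z.per_o _ N.2) (Z.per_o _ N'.2)) x.2.fut
    exact this.not_ge (add_nonpos a b))

theorem compress {G : ℝ → X ≃ₜ X} (hG : Continuous fun p : ℝ × X => G p.1 p.2) {C : ℝ}
    (hC : ∀ t x, cd x (G t x) ≤ C) (hc : ∀ t γ x, G t (Z.σ γ • x) = Z.σ γ • G t x) (h0 : G 0 = 1)
    (h1 : ∀ N ∈ Z.per, ∀ x, bf N x ≤ 0 → G 1 x = x) : ∃ H : ℝ → X ≃ₜ X,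
      Continuous (fun p : ℝ × X => H p.1 p.2) ∧ (∀ t, (∀ γ x, H t (Z.σ γ • x) = Z.σ γ • H t x) ∧
        ∀ N ∈ Z.per, ∀ x, bf N x ≤ -1 → H t x = x) ∧ H 0 = 1 ∧ H 1 = G 1 := by
  have fa := Z.fam_per
  have u : ∀ N : Z.per, Bf N N = 1 := fun N => Z.per_unit N.2
  have ok : ∀ N : Z.per, Ok N 1 := fun N => Or.inr (by rw [u]; norm_num)
  have ok' : ∀ N : V, Ok N (-1 / 2) := fun N => Or.inl (by norm_num)
  have q' : ∀ (N : Z.per) x, 0 < qq N (-1 / 2) x := fun N x =>
    one_pos.trans_le (one_le_qq (by rw [u]; norm_num) x)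
  have sg : ∀ (N : Z.per) β x, Ok N β → 0 < qq N β x → -1 ≤ β → bf N x ≤ 0 → bf N (sc N β x) ≤ 0 :=
    fun N β x a b c d => by
      have := a.val b N
      rw [u, min_eq_left d] at this
      exact nonpos_of_mul_nonpos_right (by nlinarith only [c, d, this]) (Real.sqrt_pos.2 b)
  have ot : ∀ (N N' : Z.per) β x, bf N x ≤ 0 → N' ≠ N → qq N' β x = 1 := fun N N' β x a b =>
    qq_of (not_le.1 fun c => b (fa.dj _ _ x c a)).le
  have cq : ∀ N, Continuous fun p : ℝ × X => qq N 1 p.2 := fun N =>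
    (continuous_qq N).comp (f := fun p : ℝ × X => (1, p.2)) (by fun_prop)
  have cs : ∀ β (p : ℝ × X), (∀ N : Z.per, Ok N β ∧ 0 < qq N β p.2) → ContinuousAt
      (fun q : ℝ × X => gl (fun N : Z.per => {x : X | bf N x ≤ 0}) (fun N => sc N β) q.2) p :=
    fun β p a => fa.cont (F := fun _ N => sc N β) (fun _ _ _ b => sc_of (not_le.1 b).le)
      fun N _ => Ok.cont (b := fun _ => β) (a N).1 (a N).2 continuousAt_const
  have eq : ∀ β γ x, (∀ N : Z.per, Ok N β ∧ 0 < qq N β x) →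
      gl (fun N : Z.per => {x : X | bf N x ≤ 0}) (fun N => sc N β) (Z.σ γ • x) =
        Z.σ γ • gl (fun N : Z.per => {x : X | bf N x ≤ 0}) (fun N => sc N β) x := fun β γ x a =>
    fa.smul _ (fun N => ⟨_, Z.per_smul γ _ N.2⟩)
      (fun N => ⟨⟨_, Z.per_smul γ⁻¹ _ N.2⟩, Subtype.ext (by simp only [map_inv, smul_inv_smul])⟩) (fun N x => by simp only [mem_ofPred_eq, bf_smul])
      fun N _ => (a N).1.smul (a N).2 _
  have sq : Sq {p | ∀ N : Z.per, 0 < qq N 1 p.2}
      (fun _ => gl (fun N : Z.per => {x : X | bf N x ≤ 0}) fun N => sc N (-1 / 2))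
      fun _ => gl (fun N : Z.per => {x : X | bf N x ≤ 0}) fun N => sc N 1 := by
    refine ⟨?_, fun t x z _ => ?_, fun t x h => ⟨?_, cs _ _ fun N => ⟨ok N, h N⟩⟩,
      fun C p hp δ hδ => ?_⟩
    · rw [← isClosed_compl_iff, ofPred_forall, compl_iInter]
      refine ((fa.lf.preimage_continuous continuous_snd).subset fun N p hp => ?_).isClosed_iUnion
        fun N => (isOpen_lt continuous_const (cq N)).isClosed_compl
      exact by_contra fun a => hp (one_pos.trans_eq (qq_of (not_le.1 a).le).symm)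
    · rw [← and_assoc]
      refine ⟨?_, cs _ _ fun N => ⟨ok' N, q' N _⟩⟩
      by_cases a : ∃ N : Z.per, bf N z ≤ 0
      · obtain ⟨N, a⟩ := a
        have b := sg N _ z (ok' N) (q' N z) (by norm_num) a
        have d := (ok' N).inv (β' := 1) (q' N z) (by rw [u]; norm_num) (by rw [u]; norm_num)
        rw [fa.mem _ a, fa.mem _ b]
        refine ⟨fun N' => ?_, d.1⟩
        rcases eq_or_ne N' N with rfl | e
        · exact (mul_pos_iff_of_pos_left (q' _ z)).1 (one_pos.trans_eq d.2.symm)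
        · exact one_pos.trans_eq (ot _ _ _ _ b e).symm
      · rw [gl_not _ a, gl_not _ a]
        exact ⟨fun N => one_pos.trans_eq (qq_of (not_le.1 fun c => a ⟨N, c⟩).le).symm, rfl⟩
    · by_cases a : ∃ N : Z.per, bf N x ≤ 0
      · obtain ⟨N, a⟩ := a
        rw [fa.mem _ a, fa.mem _ (sg N _ x (ok N) (h N) (by norm_num) a)]
        exact ((ok N).inv (h N) (by rw [u]; norm_num) (by rw [u]; norm_num)).1
      · rw [gl_not (x := x) _ a, gl_not _ a]
    · obtain ⟨N, a⟩ := not_forall.1 hp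
      have b : bf N p.2 < -1 / 2 := by
        by_contra! b
        have := le_min b (by norm_num : (-1 / 2 : ℝ) ≤ 0)
        simp only [qq, u] at a
        exact a (by nlinarith only [min_le_right (bf N p.2) 0, this])
      filter_upwards [ev_small (cq N) (not_lt.1 a) (C - 1) hδ, ev_small (cq N) (not_lt.1 a) C one_pos,
        ((continuous_bf N).comp continuous_snd).continuousAt.eventually_lt continuousAt_const b]
        with q c1 c2 c3 h z hz
      have c3 : bf N q.2 < -1 / 2 := c3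
      have d1 : bf N q.2 ≤ 0 := by linarith only [c3]
      rw [fa.mem _ d1] at hz
      have d2 := sg N _ _ (ok N) (h N) (by norm_num) d1
      have d3 : bf N z ≤ 0 := by
        by_contra! e
        have e1 : |bf N (sc N 1 q.2)| ≤ cd z _ := abs_Bf_le_of_sign (u N) (sc N 1 q.2).2 z.2
          (mul_nonpos_of_nonpos_of_nonneg d2 e.le)
        have e2 := (ok N).val (h N) N
        rw [u, min_eq_left d1] at e2
        rw [abs_of_nonpos d2, cd_comm] at e1
        nlinarith only [Real.sqrt_nonneg (qq N 1 q.2), c2, hz, c3, e1, e2]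
      rw [fa.mem _ d3]
      linarith only [(ok N).est (β' := -1 / 2) (h N) (by rw [u]; norm_num) (by rw [u]; norm_num)
        (by norm_num) (by rw [u]; norm_num) d2 d3 hz, c1]
  obtain ⟨H, b1, b2, b3⟩ := sq.conj hG hC
  refine ⟨H, b1, fun t => ⟨fun γ x => ?_, fun N hN x hx => b3 _ _ fun h => ?_⟩,
    Homeomorph.ext fun x => ?_, Homeomorph.ext fun x => ?_⟩
  · have k : ∀ γ x, (∀ N : Z.per, 0 < qq N 1 x) → ∀ N : Z.per, 0 < qq N 1 (Z.σ γ • x) :=
      fun γ x h N => by simpa only [map_inv, smul_inv_smul] using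
        (h ⟨_, Z.per_smul γ⁻¹ _ N.2⟩).trans_eq (qq_smul (Z.σ γ)).symm
    by_cases h : ∀ N : Z.per, 0 < qq N 1 x
    · rw [b2 _ _ h, b2 _ _ (k γ x h), eq _ _ _ fun N => ⟨ok N, h N⟩, hc,
        eq _ _ _ fun N => ⟨ok' N, q' N _⟩]
    · rw [b3 _ _ h, b3 _ _ fun a => h (by simpa only [Subtype.forall, Prod.forall, map_inv, inv_smul_smul] using k γ⁻¹ _ a)]
  · have := h ⟨N, hN⟩
    simp only [qq, Z.per_unit hN, min_eq_left (hx.trans (by norm_num : (-1 : ℝ) ≤ 0))] at this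
    nlinarith only [hx, this]
  · refine (em _).elim (fun h => ?_) (b3 0 x)
    rw [b2 _ _ h, h0]
    exact (sq.inv _ _ h).1
  · by_cases a : ∃ N : Z.per, bf N x ≤ 0
    · obtain ⟨N, a⟩ := a
      rw [h1 _ N.2 _ a]
      refine (em _).elim (fun h => ?_) (b3 1 x)
      have := (sq.inv _ _ h).1
      rw [b2 _ _ h, h1 _ N.2, this]
      rw [fa.mem _ a]
      exact sg N _ x (ok N) (h N) (by norm_num) a
    · rw [b2 _ _ fun N => one_pos.trans_eq (qq_of (not_le.1 fun c => a ⟨N, c⟩).le).symm, gl_not (x := x) _ a,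
        gl_not _ fun ⟨N, c⟩ => a ⟨N, by rwa [(G 1).injective (h1 _ N.2 _ c)] at c⟩]

end Fuchs

theorem exists_transversal (H : Subgroup Γ)
    (hf : ∀ (h : H) (q : Γ ⧸ H), q ≠ (1 : Γ) → h • q = q → h = 1) : ∃ τ : Γ ⧸ H → Γ,
      (∀ q, (τ q : Γ ⧸ H) = q) ∧ ∀ (h : H) (q : Γ ⧸ H), q ≠ (1 : Γ) → τ (h • q) = h * τ q := by
  let r : Γ ⧸ H → Γ ⧸ H := fun q => (Quotient.mk (MulAction.orbitRel H (Γ ⧸ H)) q).out
  have a : ∀ q, ∃ h : H, h • r q = q := fun q =>
    (MulAction.orbitRel H (Γ ⧸ H)).symm (Quotient.mk_out (s := MulAction.orbitRel H (Γ ⧸ H)) q)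
  have b : ∀ (h : H) q, r (h • q) = r q := fun h q =>
    congrArg Quotient.out (Quotient.sound (s := MulAction.orbitRel H (Γ ⧸ H)) ⟨h, rfl⟩)
  choose u hu using a
  refine ⟨fun q => u q * (r q).out, fun q => ?_, fun h q hq => ?_⟩
  · exact (congrArg (fun z : Γ ⧸ H => u q • z) (r q).out_eq').trans (hu q)
  · have c : r q ≠ (1 : Γ) := fun e => hq (by
      rw [← hu q, e]
      exact QuotientGroup.eq.2 (by simp))
    have d := hf ((u (h • q))⁻¹ * (h * u q)) _ c (by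
      rw [mul_smul, mul_smul, hu, inv_smul_eq_iff, ← b h q, hu])
    simp only [b, inv_mul_eq_one.1 d, Subgroup.coe_mul, mul_assoc]

/-- Conjugation by an isometry. -/
noncomputable def cjh (c : Isom) (F : X ≃ₜ X) : X ≃ₜ X :=
  (Homeomorph.smul c).symm.trans (F.trans (Homeomorph.smul c))

theorem cjh_apply (c : Isom) (F : X ≃ₜ X) (x : X) : cjh c F x = c • F (c⁻¹ • x) := rfl

theorem extend (σ : Γ →* Isom) (H : Subgroup Γ) (Z : Fuchs H) (hσ : ∀ h : H, Z.σ h = σ h)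
    (hp : ∀ x y : X, ∀ R, {γ | cd x (σ γ • y) ≤ R}.Finite)
    (hD : ∀ γ x, (∀ N ∈ Z.per, 0 ≤ bf N x) → (∀ N ∈ Z.per, 0 ≤ bf N (σ γ • x)) → γ ∈ H)
    {F : X ≃ₜ X} (h1 : ∀ (γ : H) x, F (σ γ • x) = σ γ • F x)
    (h2 : ∀ N ∈ Z.per, ∀ x, bf N x ≤ 0 → F x = x) : ∃ (Φ : ℝ → X ≃ₜ X) (C : ℝ),
      Continuous (fun p : ℝ × X => Φ p.1 p.2) ∧ (∀ t x, cd x (Φ t x) ≤ C) ∧
      (∀ t (γ : H) x, Φ t (σ γ • x) = σ γ • Φ t x) ∧ Φ 0 = F ∧
      ∀ γ x, Φ 1 (σ γ • x) = σ γ • Φ 1 x := by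
  classical
  obtain ⟨K, hK⟩ : ∃ K : Set X, ∀ x, x ∈ K ↔ ∀ N ∈ Z.per, 0 ≤ bf N x := ⟨_, fun _ => Iff.rfl⟩
  simp only [← hK] at hD
  have K1 : ∀ γ ∈ H, ∀ x ∈ K, σ γ • x ∈ K := fun γ h x a => (hK _).2 fun N hN => by
    simpa only [hσ, InvMemClass.coe_inv, map_inv, ← bf_smul (σ γ) _ x, smul_inv_smul] using (hK _).1 a _ (Z.per_smul ⟨γ, h⟩⁻¹ N hN)
  have K2 : ∀ F : X ≃ₜ X, (∀ N ∈ Z.per, ∀ x, bf N x ≤ 0 → F x = x) → ∀ x ∉ K, F x = x :=
    fun F a x b => by
      rw [hK] at b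
      push Not at b
      obtain ⟨N, c, d⟩ := b
      exact a N c x d.le
  obtain ⟨R, hR⟩ := Z.cocompact
  replace hR : ∀ x ∈ K, ∃ γ : H, cd x (Z.σ γ • oX) ≤ R := fun x a => hR x.1 x.2 ((hK x).1 a)
  obtain ⟨C, hC⟩ := bdd_of_cocompact Z.σ hR (B := fun _ => F) (by fun_prop)
    (by simpa only [hσ] using fun _ => h1)
  replace hC : ∀ x, cd x (F x) ≤ max C 1 := fun x => (em (x ∈ K)).elim
    (fun a => (hC 0 (by simp only [mem_Icc, Std.le_refl, zero_le_one, and_self]) x a).trans (le_max_left _ _))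
    fun a => by simp only [K2 F h2 x a, cd_self, le_sup_right]
  obtain ⟨A, a1, a2, a3, a4, a5⟩ := alex (fun N hN => (Z.per_o N hN).le) h2 hC
  obtain ⟨τ, τ1, τ2⟩ := exists_transversal H fun h q hq e => by_contra fun ne => hq (by
    obtain ⟨γ, rfl⟩ := QuotientGroup.mk_surjective q
    have m : γ⁻¹ * h * γ ∈ H := by simpa only [mul_assoc, Subgroup.subtype_apply, smul_eq_mul] using QuotientGroup.eq.1 e.symm
    obtain ⟨E, hE⟩ := (Z.hyp h ne).exists_ax
    obtain ⟨-, z, -, -, hz, -⟩ := Klein2_exists hE.1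
    refine QuotientGroup.eq.2 (by
      simpa using hD γ⁻¹ z ((hK _).2 fun N => Z.ax_core ne hE z.2 hz) ((hK _).2 fun N =>
        Z.ax_core (γ := ⟨_, m⟩) (E := σ γ⁻¹ • E) (fun a => ne (Subtype.ext (by
          simpa only [OneMemClass.coe_one, OneMemClass.coe_eq_one, mul_assoc, inv_mul_eq_one, right_eq_mul] using congrArg Subtype.val a))) (by simpa only [hσ, map_mul, map_inv, inv_inv] using hE.conj (σ γ)⁻¹)
          (σ γ⁻¹ • z).2 ((bf_smul _ _ _).trans hz))))
  have τ3 : ∀ γ q, (τ (γ • q))⁻¹ * (γ * τ q) ∈ H := fun γ q => QuotientGroup.eq.1 (by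
    rw [τ1]
    nth_rewrite 1 [← τ1 q]
    rfl)
  have τ4 : (τ (1 : Γ))⁻¹ ∈ H := by simpa using QuotientGroup.eq.1 (τ1 (1 : Γ))
  have e1 : ∀ γ q (x : X), (σ (τ (γ • q)))⁻¹ • σ γ • x =
      σ ((τ (γ • q))⁻¹ * (γ * τ q)) • (σ (τ q))⁻¹ • x := fun γ q x => by simp only [map_mul, map_inv, mul_smul, smul_inv_smul]
  have fa : Fam fun q : Γ ⧸ H => {x | (σ (τ q))⁻¹ • x ∈ K} := by
    refine ⟨fun q => IsClosed.preimage (continuous_const_smul _) ?_, fun x => ?_, fun q q' x a b => ?_⟩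
    · rw [show K = ⋂ N ∈ Z.per, {x | 0 ≤ bf N x} by ext; simp only [hK, mem_iInter, mem_ofPred_eq]]
      exact isClosed_biInter fun N _ => isClosed_le continuous_const (continuous_bf _)
    · have c : Continuous (cd x) := by fun_prop
      refine ⟨_, c.continuousAt.eventually_le_const (show cd x x < 2 by rw [cd_self]; norm_num),
        ((hp x oX (2 * 2 * R)).image QuotientGroup.mk).subset ?_⟩
      rintro q ⟨y, a, b⟩
      obtain ⟨γ, d⟩ := hR _ a
      refine ⟨τ q * γ, ?_, by simp [τ1]⟩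
      rw [← cd_smul (σ (τ q)), smul_inv_smul, hσ, ← mul_smul, ← map_mul] at d
      have b : cd x y ≤ 2 := b
      refine (cd_tri x y _).trans ?_
      rw [cd_comm y x]
      gcongr
      exact (one_le_cd _ _).trans' zero_le_one
    · rw [← τ1 q, ← τ1 q']
      exact (QuotientGroup.eq.2 (hD _ _ a (by simpa only [map_mul, map_inv, mul_smul, smul_inv_smul, mem_ofPred_eq] using b))).symm
  have sp : ∀ γ q x, σ γ • x ∈ {x | (σ (τ (γ • q)))⁻¹ • x ∈ K} ↔ x ∈ {x | (σ (τ q))⁻¹ • x ∈ K} :=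
    fun γ q x => by
      rw [mem_ofPred_eq, e1]
      exact ⟨fun a => by simpa only [map_inv, inv_smul_smul, mem_ofPred_eq] using K1 _ (inv_mem (τ3 γ q)) _ a,
        K1 _ (τ3 γ q) _⟩
  have e2 : ∀ γ q x, cjh (σ (τ (γ • q))) F (σ γ • x) = σ γ • cjh (σ (τ q)) F x := fun γ q x => by
    rw [cjh_apply, e1, h1 ⟨_, τ3 γ q⟩]
    simp only [map_mul, map_inv, mul_smul, smul_inv_smul, cjh_apply]
  obtain ⟨Φ, b1, b2⟩ := fa.homeo (F := fun t q => cjh (σ (τ q)) (if q = (1 : Γ) then F else A t))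
    (fun t q x a => by
      rw [cjh_apply, K2 _ (by split_ifs; exacts [h2, a4 t]) _ a, smul_inv_smul])
    fun q => by
      simp only [cjh_apply]
      split_ifs
      · fun_prop
      · exact (a1.comp (f := fun p : ℝ × X => (p.1, (σ (τ q))⁻¹ • p.2)) (by fun_prop)).fun_const_smul _
  refine ⟨Φ, max C 1, b1, fun t x => ?_, fun t γ x => ?_, Homeomorph.ext fun x => ?_, fun γ x => ?_⟩
  · rw [b2, gl]
    split_ifs with a b
    · simpa only [mem_ofPred_eq, cjh_apply, ← cd_smul (σ (τ a.choose))⁻¹ x, inv_smul_smul, le_sup_iff] using hC _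
    · simpa only [mem_ofPred_eq, cjh_apply, ← cd_smul (σ (τ a.choose))⁻¹ x, inv_smul_smul, le_sup_iff] using a5 t _
    · simp only [cd_self, le_sup_right]
  · rw [b2, b2]
    refine fa.smul _ ((γ : Γ) • ·) (MulAction.surjective _) (sp γ) fun q _ => ?_
    have k : ∀ γ : H, (γ : Γ) • ((1 : Γ) : Γ ⧸ H) = (1 : Γ) := fun γ => QuotientGroup.eq.2 (by simp)
    by_cases a : q = (1 : Γ)
    · rw [if_pos a, if_pos (by rw [a, k]), e2]
    · rw [if_neg a, if_neg fun b => a (smul_left_cancel (γ : Γ) (b.trans (k γ).symm)),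
        show τ ((γ : Γ) • q) = _ from τ2 γ q a]
      simp only [map_mul, cjh_apply, mul_inv_rev, mul_smul, inv_smul_smul]
  · rw [b2, gl]
    have k : x ∈ K → (σ (τ (1 : Γ)))⁻¹ • x ∈ K := fun a => by simpa only [map_inv] using K1 _ τ4 _ a
    split_ifs with a b
    · simpa only [mem_ofPred_eq, b, cjh_apply, smul_eq_iff_eq_inv_smul, map_inv] using h1 ⟨_, τ4⟩ x
    · rw [K2 F h2 x fun c => b (fa.dj _ _ x a.choose_spec (k c))]
      simp only [mem_ofPred_eq, a2, cjh_apply, Homeomorph.one_apply, smul_inv_smul]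
    · exact (K2 F h2 x fun c => a ⟨_, k c⟩).symm
  · rw [b2, b2]
    refine fa.smul _ (γ • ·) (MulAction.surjective _) (sp γ) fun q _ => ?_
    simp only [a3, ite_self, e2]

variable {g : ℕ}

/-- The relative theorem of Baer and Epstein. -/
theorem baer_rel (L : Lay g) (Y : Poly g) (F : X ≃ₜ X)
    (h1 : ∀ γ x, F ((L.fuchs Y).σ γ • x) = (L.fuchs Y).σ γ • F x)
    (h2 : ∀ N ∈ (L.fuchs Y).per, ∀ x, bf N x ≤ 0 → F x = x) : ∃ H : ℝ → X ≃ₜ X,
      Continuous (fun p : ℝ × X => H p.1 p.2) ∧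
      (∀ t, (∀ γ x, H t ((L.fuchs Y).σ γ • x) = (L.fuchs Y).σ γ • H t x) ∧
        ∀ N ∈ (L.fuchs Y).per, ∀ x, bf N x ≤ -1 → H t x = x) ∧ H 0 = 1 ∧ H 1 = F := by
  obtain ⟨Φ, C, a1, a2, a3, a4, a5⟩ := extend (L.σ Y) L.GA (L.fuchs Y) (fun _ => rfl)
    (fun x y R => ((Y.proper ((L.c Y)⁻¹ • x).2 ((L.c Y)⁻¹ • y).2 R).preimage
      Subtype.val_injective.injOn).subset fun γ h => by
        have h : cd x (L.σ Y γ • y) ≤ R := h
        rwa [← smul_inv_smul (L.c Y) x, ← smul_inv_smul (L.c Y) y, Lay.σ_c, cd_smul] at h)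
    (fun γ x a b => by
      obtain ⟨y, rfl⟩ := MulAction.surjective (L.c Y) x
      rw [Lay.σ_c] at b
      exact Lay.core0_disj (Lay.core0_c.2 a) (Lay.core0_c.2 b)) h1 h2
  obtain ⟨B, b1, b2, b3, b4⟩ := baer (Y := Y) (F := cjh (L.c Y)⁻¹ (Φ 1)) fun γ x => by
    rw [cjh_apply, cjh_apply, inv_inv, ← Lay.σ_c, a5]
    simp only [Lay.σ_apply, mul_smul, inv_smul_smul]
  obtain ⟨R, hR⟩ := Y.cocompact
  obtain ⟨D, hD⟩ := bdd_of_cocompact Y.σ (K := univ) (fun x _ => (hR x.1 x.2).imp fun _ => le_of_lt)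
    b1 b2
  obtain ⟨τ, c, m, τ0, τ1⟩ : ∃ τ : ℝ → ℝ, Continuous τ ∧ (∀ t, τ t ∈ Icc (0 : ℝ) 1) ∧ τ 0 = 0 ∧ τ 1 = 1 :=
    ⟨fun t => max 0 (min t 1), by fun_prop, fun t => ⟨le_max_left _ _, by simp only [sup_le_iff, zero_le_one, inf_le_right, and_self]⟩, by simp, by simp only [min_self, zero_le_one, sup_of_le_right]⟩
  have e : Φ (1 - 1) * (Φ 1)⁻¹ * cjh (L.c Y) (B (τ 1)) = F := by
    ext x : 1
    simp only [sub_self, a4, τ1, b4, Homeomorph.mul_apply, cjh_apply, inv_inv, smul_inv_smul, Homeomorph.inv_apply, Homeomorph.symm_apply_apply]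
  have := (L.fuchs Y).compress (G := fun t => Φ (1 - t) * (Φ 1)⁻¹ * cjh (L.c Y) (B (τ t)))
    (a1.comp (f := fun p : ℝ × X => (1 - p.1, (Φ 1).symm (L.c Y • B (τ p.1) ((L.c Y)⁻¹ • p.2))))
      ((continuous_const.sub continuous_fst).prodMk ((Φ 1).symm.continuous.comp
        ((b1.comp (f := fun p : ℝ × X => (τ p.1, (L.c Y)⁻¹ • p.2)) (by fun_prop)).fun_const_smul _))))
    (C := 2 * D * (2 * C * C)) (fun t x => ?_) (fun t γ x => ?_) ?_ (by rwa [e])
  · rwa [e] at this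
  · have d1 : cd (cjh (L.c Y) (B (τ t)) x) x ≤ D := by
      simpa only [cjh_apply, ← cd_smul (L.c Y)⁻¹ _ x, inv_smul_smul, cd_comm] using hD _ (m t) ((L.c Y)⁻¹ • x) trivial
    refine (cd_tri _ (cjh (L.c Y) (B (τ t)) x) _).trans ?_
    simp only [Homeomorph.mul_apply]
    generalize cjh (L.c Y) (B (τ t)) x = y at *
    obtain ⟨z, rfl⟩ := (Φ 1).surjective y
    have d2 := cd_tri (Φ 1 z) z (Φ (1 - t) z)
    have d3 := a2 1 z
    have d4 := a2 (1 - t) z
    have d5 := one_le_cd z (Φ 1 z)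
    have d6 := one_le_cd z (Φ (1 - t) z)
    have d7 := one_le_cd (Φ 1 z) x
    simp only [Homeomorph.inv_apply, Homeomorph.symm_apply_apply]
    refine mul_le_mul (by linarith only [d1]) (d2.trans ?_) (by linarith only [one_le_cd (Φ 1 z) (Φ (1 - t) z)])
      (by linarith)
    gcongr
    linarith only [d3, d5]
  · have d1 : cjh (L.c Y) (B (τ t)) (L.σ Y γ • x) = L.σ Y γ • cjh (L.c Y) (B (τ t)) x := by
      simp only [Lay.σ_apply, mul_smul, cjh_apply, inv_smul_smul, b2 _ γ]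
    simp only [Homeomorph.mul_apply, Lay.fuchs_σ, d1, ← a3, Homeomorph.inv_apply]
    congr 1
    rw [Homeomorph.symm_apply_eq, a5, Homeomorph.apply_symm_apply]
  · ext x : 1
    simp [τ0, b3, cjh_apply]

end Pool.Agent.MP_646035_al.MC

end

-- part MP_646035_al.NO.Baer
section

/-!
The cores of the cross caps have disjoint collars inside the convex core.
-/

namespace Pool.Agent.MP_646035_al.NO

open Pool.Agent.MP_4a6971_al.H66 Pool.Agent.MP_4a6971_al.H83 MC Set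

variable {Γ : Type} [Group Γ] (K : Cap Γ)

theorem BCores_ax {N : V} (h : N ∈ K.C) : IsAx (K.κ N * K.κ N) N := by
  obtain ⟨γ, a, b, -⟩ := K.sq N h
  exact ⟨(K.Y.per_ax N (K.sub h)).choose_spec.2.1, a ▸ b⟩

theorem BCores_neg {N : V} (h : N ∈ K.C) (x : X) : bf N (K.κ N • x) = -bf N x := by
  rw [← bf_smul (K.κ N) N x, (K.gl N h).neg (BCores_ax K h), bf_neg, neg_neg]

theorem BCores_frame {N : V} (h : N ∈ K.C) :
    ∃ (f : Isom) (t : ℝ), 0 < t ∧ f • E0 = N ∧ K.κ N * f = f * (flp * dil t) := by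
  obtain ⟨f, t, ht, e⟩ := K.gl N h
  have a : K.κ N * f⁻¹ = f⁻¹ * (flp * dil t) := by rw [e, mul_inv_cancel_right]
  have c : K.κ N • f⁻¹ • E0 = -(f⁻¹ • E0) := by
    rw [← mul_smul, a, mul_smul, mul_smul, ← smul_neg, ← flp_E0]
    simp only [E0, dil_smul, zero_mul]
  have b : IsAx (K.κ N * K.κ N) (f⁻¹ • E0) :=
    ⟨by simp [Bf_E0]; rfl, by rw [mul_smul, c, smul_neg, c, neg_neg]⟩
  rcases (K.gl N h).sq.ax_unique (BCores_ax K h) b with d | d
  · exact ⟨f⁻¹, t, ht, d, a⟩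
  · refine ⟨f⁻¹ * flp, t, ht, by rw [mul_smul, flp_E0, smul_neg, d, neg_neg], ?_⟩
    rw [← mul_assoc, a, mul_assoc, mul_assoc, mul_assoc, flp_mul_dil]

theorem BCores_T (γ : Γ) {x : X} (hx : x ∈ K.T) : K.Y.σ γ • x ∈ K.T := fun N hN => by
  have := hx _ (K.smul γ⁻¹ N hN)
  rwa [← bf_smul (K.Y.σ γ), map_inv, smul_inv_smul] at this

/-- Elements that carry a point of the tile into the tile. -/
theorem BCores_nf (hT : K.Til) {ε : ℝ} (h0 : 0 < ε)
    (hε : ∀ N ∈ K.Y.per, ∀ N' ∈ K.Y.per, ∀ x, bf N x < ε → bf N' x < ε → N = N') {g : Isom}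
    (hg : g ∈ K.G) {x : X} (hx : x ∈ K.T) (hy : g • x ∈ K.T) :
    (∃ γ, g = K.Y.σ γ) ∨ ∃ M ∈ K.C, ∃ γ, g = K.κ M * K.Y.σ γ ∧ bf M (g • x) = 0 ∧
      bf M (K.Y.σ γ • x) = 0 := by
  rcases hT.nf g hg with a | ⟨N, hN, ⟨γ, rfl⟩ | ⟨M, hM, ne, b⟩⟩
  · exact Or.inl a
  · have a := hy N hN
    have b := BCores_T K γ hx N hN
    have c := BCores_neg K hN (K.Y.σ γ • x)
    rw [← mul_smul] at c
    exact Or.inr ⟨N, hN, γ, rfl, by linarith, by linarith⟩
  · obtain ⟨z, e⟩ := MulAction.surjective (K.κ N) (g • x)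
    have a := hy N hN
    have c := b x hx
    have e' : K.κ N • z = g • x := e
    rw [← e'] at a c
    rw [BCores_neg K hN] at a
    rw [bf_smul] at c
    exact absurd (hε M (K.sub hM) N (K.sub hN) z (by linarith) (by linarith)) ne

/-- A point near a core is moved into the tile by the glide reflection. -/
theorem BCores_into {ε : ℝ} (h0 : 0 < ε)
    (hε : ∀ N ∈ K.Y.per, ∀ N' ∈ K.Y.per, ∀ x, bf N x < ε → bf N' x < ε → N = N') {N : V}
    (hN : N ∈ K.C) {x : X} (hx : |bf N x| ≤ ε / 2) :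
    ∃ a ∈ Subgroup.zpowers (K.κ N), a • x ∈ K.T ∧ bf N (a • x) < ε := by
  have key : ∀ y, 0 ≤ bf N y → bf N y < ε → y ∈ K.T := fun y a b M hM => by
    by_contra! c
    rw [hε M (K.sub hM) N (K.sub hN) y (by linarith only [h0, c]) b] at c
    exact c.not_ge a
  obtain ⟨a, b⟩ := abs_le.1 hx
  rcases le_total 0 (bf N x) with c | c
  · exact ⟨1, one_mem _, by rw [one_smul]; exact ⟨key x c (by linarith only [h0, b]), by linarith only [h0, b]⟩⟩
  · have d := BCores_neg K hN x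
    exact ⟨_, Subgroup.mem_zpowers _, key _ (by linarith only [c, d]) (by linarith only [h0, a, d]), by linarith only [h0, a, d]⟩

/-- Representatives of the orbits of cross caps. -/
theorem BCores_reps : ∃ (m : ℕ) (N : Fin m → V), (∀ i, N i ∈ K.C) ∧
    (∀ γ i j, K.Y.σ γ • N i = N j → i = j) ∧ ∀ M ∈ K.C, ∃ γ i, M = K.Y.σ γ • N i := by
  let s : Setoid K.C :=
    ⟨fun a b => ∃ γ, K.Y.σ γ • a.1 = b.1, fun a => ⟨1, by rw [map_one, one_smul]⟩,
      fun ⟨γ, h⟩ => ⟨γ⁻¹, by rw [map_inv, ← h, inv_smul_smul]⟩,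
      fun ⟨γ, h⟩ ⟨δ, h'⟩ => ⟨δ * γ, by rw [map_mul, mul_smul, h, h']⟩⟩
  obtain ⟨T, h1, h2⟩ := K.Y.per_fin
  have : Finite ↥(T ∩ K.C) := (h1.subset inter_subset_left).to_subtype
  have : Finite (Quotient s) :=
    Finite.of_surjective (fun a : ↥(T ∩ K.C) => Quotient.mk s ⟨a.1, a.2.2⟩) fun q => by
      obtain ⟨a, rfl⟩ := Quotient.exists_rep q
      obtain ⟨γ, h⟩ := h2 a.1 (K.sub a.2)
      exact ⟨⟨_, h, K.smul γ _ a.2⟩, (Quotient.sound (s := s) (Exists.intro γ rfl)).symm⟩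
  let e := Finite.equivFin (Quotient s)
  refine ⟨_, fun i => (e.symm i).out.1, fun i => (e.symm i).out.2, fun γ i j h => ?_,
    fun M hM => ?_⟩
  · exact e.symm.injective (Quotient.out_equiv_out.1 ⟨γ, h⟩)
  · obtain ⟨γ, h⟩ : ∃ γ, K.Y.σ γ • (Quotient.mk s ⟨M, hM⟩).out.1 = M := Quotient.mk_out (s := s) _
    exact ⟨γ, e (Quotient.mk s ⟨M, hM⟩), by simp only [e.symm_apply_apply, h]⟩

theorem Cap.exists_cores (K : Cap Γ) (W : Fuchs K.G) (h : K.Is W) (hT : K.Til) :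
    ∃ C : Cores K.G, C.σ = W.σ ∧ C.Z = {x | ∃ M ∈ W.per, bf M x ≤ -2} ∧
      C.Cv = {x | ∀ M ∈ W.per, 0 ≤ bf M x} ∧
      ∀ N ∈ K.C, ∃ g i, N = C.σ g • C.fr i • E0 := by
  obtain ⟨ε, h0, hε⟩ := base_collar K.Y
  obtain ⟨m, N, n1, n2, n3⟩ := BCores_reps K
  choose f t f1 f2 f3 using fun i => BCores_frame K (n1 i)
  have hσ : ∀ g : K.G, W.σ g = g.1 := fun g => by rw [h.σ]; rfl
  have sub : ∀ i, Subgroup.zpowers (K.κ (N i)) ≤ K.G := fun i =>
    Subgroup.zpowers_le.2 (K.κ_mem (n1 i))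
  have last : ∀ M ∈ K.C, ∃ g i, M = W.σ g • f i • E0 := fun M hM =>
    let ⟨γ, i, a⟩ := n3 M hM
    ⟨⟨_, K.σ_mem γ⟩, i, by rw [hσ, f2, a]⟩
  refine ⟨{
    σ := W.σ
    Z := {x | ∃ M ∈ W.per, bf M x ≤ -2}
    Cv := {x | ∀ M ∈ W.per, 0 ≤ bf M x}
    m := m
    fr := f
    k := fun i => ⟨K.κ (N i), K.κ_mem (n1 i)⟩
    t := t
    η := ε / 2
    proper := W.proper
    free := fun _ _ => W.free
    Z_smul := fun γ x ⟨M, a, b⟩ => ⟨_, W.per_smul γ M a, by rwa [bf_smul]⟩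
    Cv_smul := fun γ x a M b => by
      have := a _ (W.per_smul γ⁻¹ M b)
      rwa [← bf_smul (W.σ γ), map_inv, smul_inv_smul] at this
    cvx := fun a ha b hb _ hy M hM => cvx_half _ a (ha M hM) b (hb M hM) hy
    cpt := W.cocompact.imp fun R a x b => a x.1 x.2 b
    far := fun x a z ⟨M, b, c⟩ => by
      have d := a M b
      have e := Sweep_abs (W.per_ax M b).choose_spec.2.1 x z
        (mul_nonpos_of_nonpos_of_nonneg (by linarith) d)
      linarith [neg_le_abs (bf M z)]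
    t_pos := f1
    η_pos := half_pos h0
    fr_k := fun i => by rw [hσ, f3]
    col := fun g i j x a b => ?_
    ins := fun i x a M b => ?_ }, rfl, rfl, rfl, last⟩
  · rw [f2] at a b
    rw [hσ] at b
    obtain ⟨u, u1, u2, u3⟩ := BCores_into K h0 hε (n1 i) a
    obtain ⟨v, v1, v2, v3⟩ := BCores_into K h0 hε (n1 j) b
    have e : (v * g.1 * u⁻¹) • u • x = v • g.1 • x := by rw [mul_smul, mul_smul, inv_smul_smul]
    have st : ∀ γ, K.Y.σ γ • N i = N i → K.Y.σ γ ∈ Subgroup.zpowers (K.κ (N i)) := fun γ c => by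
      obtain ⟨δ, d1, -, d2⟩ := K.sq _ (n1 i)
      obtain ⟨n, rfl⟩ := d2 γ c
      rw [map_zpow, d1]
      exact zpow_mem (mul_mem (Subgroup.mem_zpowers _) (Subgroup.mem_zpowers _)) n
    have key : i = j ∧ v * g.1 * u⁻¹ ∈ Subgroup.zpowers (K.κ (N i)) := by
      rcases BCores_nf K hT h0 hε (mul_mem (mul_mem (sub j v1) g.2) (inv_mem (sub i u1))) u2
        (e ▸ v2) with ⟨γ, c⟩ | ⟨M, hM, γ, c, c1, c2⟩
      · have d : K.Y.σ γ • N i = N j := hε _ (K.sub (K.smul γ _ (n1 i))) _ (K.sub (n1 j))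
          (K.Y.σ γ • u • x) (by rwa [bf_smul]) (by rwa [← c, e])
        obtain rfl := n2 γ i j d
        exact ⟨rfl, c ▸ st γ d⟩
      · have d : K.Y.σ γ • N i = M := hε _ (K.sub (K.smul γ _ (n1 i))) _ (K.sub hM)
          (K.Y.σ γ • u • x) (by rwa [bf_smul]) (by rwa [c2])
        have d' : M = N j := hε _ (K.sub hM) _ (K.sub (n1 j)) _ (by rwa [c1]) (by rwa [e])
        subst d'
        obtain rfl := n2 γ i j d
        exact ⟨rfl, c ▸ mul_mem (Subgroup.mem_zpowers _) (st γ d)⟩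
    obtain ⟨rfl, k⟩ := key
    obtain ⟨n, hn⟩ := (mul_mem_cancel_left v1).1 ((mul_mem_cancel_right (inv_mem u1)).1 k)
    exact ⟨rfl, n, Subtype.ext (by simpa using hn)⟩
  · rw [f2] at a
    rw [h.per] at b
    obtain ⟨g, g1, M, m1, m2, rfl⟩ := b
    obtain ⟨u, u1, u2, u3⟩ := BCores_into K h0 hε (n1 i) a
    by_contra! c
    rw [← bf_smul g⁻¹, inv_smul_smul] at c
    have key : ∀ P ∈ K.C, ε ≤ bf P (g⁻¹ • x) := fun P p => by
      by_contra! d
      exact m2 (hε P (K.sub p) M m1 _ d (by linarith only [h0, c]) ▸ p)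
    have e : (g⁻¹ * u⁻¹) • u • x = g⁻¹ • x := by rw [mul_smul, inv_smul_smul]
    rcases BCores_nf K hT h0 hε (mul_mem (inv_mem g1) (inv_mem (sub i u1))) u2
      (e ▸ fun P p => h0.le.trans (key P p)) with ⟨γ, d⟩ | ⟨P, p, γ, -, d, -⟩
    · have := key _ (K.smul γ _ (n1 i))
      rw [← e, d, bf_smul] at this
      exact this.not_gt u3
    · have := key P p
      rw [← e, d] at this
      exact this.not_gt h0

end Pool.Agent.MP_646035_al.NO

/-!
The relative theorem of Baer and Epstein without loss of level.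
-/

namespace Pool.Agent.MP_646035_al.NO

open Pool.Agent.MP_4a6971_al.H66 Pool.Agent.MP_4a6971_al.H83 MC Set

variable {Γ : Type} [Group Γ] {N : V} {e : ℝ}

/-- The vector that lies over `x` at the level `s`. -/
noncomputable def lvV (N : V) (s : ℝ) (x : X) : V :=
  (√(1 + s ^ 2) / √(1 + bf N x ^ 2)) • (x.1 - bf N x • N) + s • N

theorem lvV_bf (hN : Bf N N = 1) (s : ℝ) (x : X) : Bf N (lvV N s x) = s := by
  simp [lvV, hN, bf]

theorem lvV_sq (hN : Bf N N = 1) (s : ℝ) (x : X) : Bf (lvV N s x) (lvV N s x) = -1 := by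
  have a : (√(1 + s ^ 2) / √(1 + bf N x ^ 2)) ^ 2 * (1 + bf N x ^ 2) = 1 + s ^ 2 := by
    rw [div_pow, Real.sq_sqrt (by positivity), Real.sq_sqrt (by positivity)]
    field_simp
  simp only [lvV, Bf_add_left, Bf_add_right, Bf_smul_left, Bf_smul_right, Bf_sub_left,
    Bf_sub_right, hN, x.2.1, Bf_comm x.1 N]
  unfold bf at *
  linear_combination -a

theorem lvV_fut (N : V) (s : ℝ) (x : X) : Bf x.1 (lvV N s x) < 0 := by
  have p : 0 < √(1 + bf N x ^ 2) := by positivity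
  have a : √(1 + s ^ 2) / √(1 + bf N x ^ 2) * (1 + bf N x ^ 2) =
      √((1 + s ^ 2) * (1 + bf N x ^ 2)) := by
    rw [Real.sqrt_mul (by positivity), div_mul_eq_mul_div, mul_div_assoc,
      Real.div_sqrt]
  have b : s * bf N x < √((1 + s ^ 2) * (1 + bf N x ^ 2)) :=
    Real.lt_sqrt_of_sq_lt (by linarith only [sq_nonneg s, sq_nonneg (bf N x)])
  simp only [lvV, Bf_add_right, Bf_smul_right, Bf_sub_right, x.2.1, Bf_comm x.1 N]
  unfold bf at *
  linarith

/-- The point that lies over `x` at the level `s`. -/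
noncomputable def lvP (N : V) (s : ℝ) (x : X) : X := nz (lvV N s x)

theorem lvP_val (hN : Bf N N = 1) (s : ℝ) (x : X) : (lvP N s x).1 = lvV N s x := by
  have := nz_spec (by rw [lvV_sq hN]; norm_num) (lvV_fut N s x)
  rw [lvV_sq hN, neg_neg, Real.sqrt_one, one_smul] at this
  exact this.symm

theorem lvP_bf (hN : Bf N N = 1) (s : ℝ) (x : X) : bf N (lvP N s x) = s := by
  rw [bf, lvP_val hN, lvV_bf hN]

theorem lvP_self (hN : Bf N N = 1) (x : X) : lvP N (bf N x) x = x := Subtype.ext (by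
  rw [lvP_val hN, lvV, div_self (by positivity)]
  simp)

theorem lvP_lvP (hN : Bf N N = 1) (s s' : ℝ) (x : X) : lvP N s (lvP N s' x) = lvP N s x :=
  Subtype.ext (by
    have : √(1 + s' ^ 2) ≠ 0 := by positivity
    rw [lvP_val hN, lvP_val hN, lvV, lvP_bf hN, lvP_val hN, lvV, add_sub_cancel_right, smul_smul,
      lvV, div_mul_div_cancel₀ this])

theorem lvP_smul (hN : Bf N N = 1) (f : Isom) (s : ℝ) (x : X) :
    lvP (f • N) s (f • x) = f • lvP N s x := Subtype.ext (by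
  rw [lvP_val (by rwa [Bf_isom]), coe_smul, lvP_val hN]
  simp [lvV, smul_add, smul_sub, isom_smul])

theorem lvP_cont (hN : Bf N N = 1) : Continuous fun p : ℝ × X => lvP N p.1 p.2 := by
  refine Topology.IsInducing.subtypeVal.continuous_iff.2 ?_
  refine Continuous.congr (f := fun p : ℝ × X => lvV N p.1 p.2) ?_ fun p => (lvP_val hN _ _).symm
  unfold lvV
  fun_prop (disch := intro; positivity)

/-- The affine contraction of the levels below `e`. -/
noncomputable def lvL (e a r : ℝ) : ℝ := r + (1 - Real.exp a) * max (e - r) 0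

theorem lvL_le {r : ℝ} (h : r ≤ e) (a : ℝ) : e - lvL e a r = Real.exp a * (e - r) := by
  rw [lvL, max_eq_left (sub_nonneg.2 h)]
  ring

theorem lvL_ge {r : ℝ} (h : e ≤ r) (a : ℝ) : lvL e a r = r := by
  simp only [lvL, max_eq_right (sub_nonpos.2 h), mul_zero, add_zero]

theorem lvL_neg (e a r : ℝ) : lvL e (-a) (lvL e a r) = r := by
  rcases le_total r e with h | h
  · have b := lvL_le h a
    have c := lvL_le (e := e) (r := lvL e a r)
      (by linarith only [mul_nonneg (Real.exp_pos a).le (sub_nonneg.2 h), b]) (-a)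
    rw [b, ← mul_assoc, ← Real.exp_add, neg_add_cancel, Real.exp_zero] at c
    linarith
  · rw [lvL_ge h, lvL_ge h]

theorem lvL_inv (hN : Bf N N = 1) (e a : ℝ) (x : X) :
    lvP N (lvL e (-a) (bf N (lvP N (lvL e a (bf N x)) x))) (lvP N (lvL e a (bf N x)) x) = x := by
  rw [lvP_bf hN, lvP_lvP hN, lvL_neg, lvP_self hN]

theorem lvL_cont (hN : Bf N N = 1) (e : ℝ) :
    Continuous fun p : ℝ × X => lvP N (lvL e p.1 (bf N p.2)) p.2 :=
  (lvP_cont hN).comp (f := fun p : ℝ × X => (lvL e p.1 (bf N p.2), p.2)) (by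
    unfold lvL
    fun_prop)

/-- The radial homeomorphism. -/
noncomputable def lvH (hN : Bf N N = 1) (e a : ℝ) : X ≃ₜ X where
  toFun x := lvP N (lvL e a (bf N x)) x
  invFun x := lvP N (lvL e (-a) (bf N x)) x
  left_inv := lvL_inv hN e a
  right_inv x := by simpa only [neg_neg] using lvL_inv hN e (-a) x
  continuous_toFun := (lvL_cont hN e).comp (f := fun x : X => (a, x)) (by fun_prop)
  continuous_invFun := (lvL_cont hN e).comp (f := fun x : X => (-a, x)) (by fun_prop)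

theorem lvH_apply (hN : Bf N N = 1) (e a : ℝ) (x : X) :
    lvH hN e a x = lvP N (lvL e a (bf N x)) x := rfl

theorem lv_fam (Y : MC.Fuchs Γ) : ∃ e, 0 < e ∧ Fam fun N : Y.per => {x : X | bf N x ≤ e} := by
  obtain ⟨ε, p, h⟩ := base_collar Y
  refine ⟨ε / 2, half_pos p, fun N => isClosed_le (continuous_bf _) continuous_const, fun x => ?_,
    fun N N' x a b => Subtype.ext (h _ N.2 _ N'.2 x (a.trans_lt (half_lt_self p))
      (b.trans_lt (half_lt_self p)))⟩
  have c : Continuous (cd x) := by fun_prop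
  refine ⟨_, c.continuousAt.eventually_le_const (show cd x x < 2 by rw [cd_self]; norm_num),
    ((tw1_per_fin Y ((1 + ε) * (2 * cd x oX * 2))).preimage Subtype.val_injective.injOn).subset ?_⟩
  rintro N ⟨y, a, b⟩
  have a : bf N y ≤ ε / 2 := a
  have d : ch y.1 o ≤ 2 * cd x oX * 2 := (ch_comm _ _).trans_le ((cd_tri oX x y).trans
    (mul_le_mul_of_nonneg_left b (by linarith [one_le_cd x oX])))
  have f := one_le_ch y.2 H2_o
  refine ⟨N.2, le_trans ?_ (mul_le_mul_of_nonneg_left d (by linarith only [p]))⟩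
  rcases le_total (bf N y) 0 with g | g
  · have := abs_Bf_le_of_sign (Y.per_unit N.2) H2_o y.2
      (mul_nonpos_of_nonneg_of_nonpos (Y.per_o _ N.2).le g)
    nlinarith only [p, f, this]
  · refine (abs_Bf_le (Y.per_unit N.2) H2_o y.2).trans (mul_le_mul_of_nonneg_right ?_ (by linarith))
    unfold bf at a g
    rw [abs_of_nonneg g]
    linarith

/-- Equivariant flows that contract the levels. -/
theorem lv_flow (Y : MC.Fuchs Γ) : ∃ e, 0 < e ∧ ∀ α : V → ℝ,
    (∀ γ, ∀ N ∈ Y.per, α (Y.σ γ • N) = α N) → ∃ Φ : ℝ → X ≃ₜ X,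
      Continuous (fun p : ℝ × X => Φ p.1 p.2) ∧ Continuous (fun p : ℝ × X => (Φ p.1)⁻¹ p.2) ∧
      (∀ t, Y.Comm (Φ t)) ∧ Φ 0 = 1 ∧ ∀ t, ∀ N ∈ Y.per, ∀ x, bf N x ≤ e →
        e - bf N ((Φ t)⁻¹ x) = Real.exp (t * α N) * (e - bf N x) := by
  obtain ⟨e, p, fa⟩ := lv_fam Y
  refine ⟨e, p, fun α hα => ?_⟩
  have hs : ∀ a (N : Y.per), ∀ x ∉ {x : X | bf N x ≤ e}, lvH (Y.per_unit N.2) e a x = x :=
    fun a N x h => by rw [lvH_apply, lvL_ge (not_le.1 h).le, lvP_self (Y.per_unit N.2)]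
  obtain ⟨Φ, c, h⟩ := fa.homeo (F := fun t N => lvH (Y.per_unit N.2) e (-(t * α N)))
    (fun _ _ => hs _ _) fun N => (lvL_cont (Y.per_unit N.2) e).comp
      (f := fun p : ℝ × X => (-(p.1 * α N), p.2)) (by fun_prop)
  have k : ∀ t x, (Φ t)⁻¹ x = Φ (-t) x := fun t x => (Φ t).symm_apply_eq.2 (by
    rw [h, h]
    by_cases b : ∃ N : Y.per, x ∈ {x : X | bf N x ≤ e}
    · obtain ⟨N, b⟩ := b
      rw [fa.mem _ b, fa.mem _ (supp_mem (hs _ N) b), neg_mul, neg_neg]
      exact (lvL_inv (Y.per_unit N.2) e _ x).symm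
    · rw [gl_not _ b, gl_not _ b])
  refine ⟨Φ, c, ?_, fun t γ x => ?_, Homeomorph.ext fun x => ?_, fun t N hN x b => ?_⟩
  · simp only [k]
    exact c.comp (f := fun p : ℝ × X => (-p.1, p.2)) (by fun_prop)
  · rw [h, h]
    refine fa.smul _ (fun N => ⟨_, Y.per_smul γ _ N.2⟩)
      (fun N => ⟨⟨_, Y.per_smul γ⁻¹ _ N.2⟩, Subtype.ext (by simp only [map_inv, smul_inv_smul])⟩) (fun N x => by simp only [mem_ofPred_eq, bf_smul])
      fun N _ => ?_
    simp only [lvH_apply, bf_smul, hα γ _ N.2, lvP_smul (Y.per_unit N.2)]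
  · rw [h, gl]
    split_ifs with b
    · simp only [mem_ofPred_eq, zero_mul, neg_zero, lvH_apply, lvL, Real.exp_zero, sub_self, add_zero, lvP_self (Y.per_unit b.choose.2), Homeomorph.one_apply]
    · rfl
  · rw [k, h, fa.mem _ (i := ⟨N, hN⟩) b, lvH_apply, lvP_bf (Y.per_unit hN), lvL_le b, neg_mul,
      neg_neg]

theorem lv_comm_inv {Y : MC.Fuchs Γ} {F : X ≃ₜ X} (h : Y.Comm F) : Y.Comm F⁻¹ := fun γ x =>
  F.symm_apply_eq.2 (by rw [h, Homeomorph.inv_apply, F.apply_symm_apply])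

theorem lv_comm_mul {Y : MC.Fuchs Γ} {F G : X ≃ₜ X} (h : Y.Comm F) (k : Y.Comm G) :
    Y.Comm (F * G) := fun γ x => by rw [Homeomorph.mul_apply, k, h, Homeomorph.mul_apply]

theorem lv_conj {u F : X ≃ₜ X} {x : X} (h : F (u⁻¹ x) = u⁻¹ x) : (u * F * u⁻¹) x = x := by
  rw [Homeomorph.mul_apply, Homeomorph.mul_apply, h]
  exact u.apply_symm_apply x

/-- No loss of level, for any invariant level function. -/
theorem baer_lv (Y : MC.Fuchs Γ) {ρ : ℝ} (hB : Y.Baer ρ) (lv : V → ℝ) (h0 : ∀ N, lv N ≤ 0)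
    (hs : ∀ γ, ∀ N ∈ Y.per, lv (Y.σ γ • N) = lv N) (F : X ≃ₜ X) (hF : Y.Comm F)
    (hx : ∀ N ∈ Y.per, ∀ x, bf N x ≤ lv N → F x = x) :
    ∃ H : ℝ → X ≃ₜ X, Continuous (fun p : ℝ × X => H p.1 p.2) ∧
      (∀ t, Y.Comm (H t) ∧ ∀ N ∈ Y.per, ∀ x, bf N x ≤ lv N → H t x = x) ∧ H 0 = 1 ∧ H 1 = F := by
  obtain ⟨e, p, h⟩ := lv_flow Y
  have key : ∀ l : V → ℝ, (∀ N, l N ≤ 0) → (∀ γ, ∀ N ∈ Y.per, l (Y.σ γ • N) = l N) →
      ∃ Φ : ℝ → X ≃ₜ X, Continuous (fun p : ℝ × X => Φ p.1 p.2) ∧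
        Continuous (fun p : ℝ × X => (Φ p.1)⁻¹ p.2) ∧ (∀ t, Y.Comm (Φ t)) ∧ Φ 0 = 1 ∧
        (∀ t, ∀ N ∈ Y.per, ∀ x, bf N x ≤ 0 → bf N ((Φ t)⁻¹ x) ≤ bf N x) ∧
        ∀ N ∈ Y.per, ∀ x, bf N x ≤ 0 → bf N ((Φ 1)⁻¹ x) ≤ l N := fun l a b => by
    obtain ⟨Φ, c1, c2, c3, c4, c5⟩ := h (fun N => Real.log ((e - l N) / e)) fun γ N d => by
      simp only [b γ N d]
    have d : ∀ N, 1 ≤ (e - l N) / e := fun N => (one_le_div p).2 (by linarith [a N])
    refine ⟨fun t => Φ (t ^ 2), c1.comp (f := fun p : ℝ × X => (p.1 ^ 2, p.2)) (by fun_prop),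
      c2.comp (f := fun p : ℝ × X => (p.1 ^ 2, p.2)) (by fun_prop), fun t => c3 _, by simpa using c4,
      fun t N f x g => ?_, fun N f x g => ?_⟩
    · have := c5 (t ^ 2) N f x (g.trans p.le)
      nlinarith only [Real.one_le_exp (mul_nonneg (sq_nonneg t) (Real.log_nonneg (d N))), p, g, this]
    · have := c5 (1 ^ 2) N f x (g.trans p.le)
      rw [one_pow, one_mul, Real.exp_log (one_pos.trans_le (d N))] at this
      simp only [one_pow]
      nlinarith [div_mul_cancel₀ (e - l N) p.ne', d N]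
  obtain ⟨P, a1, a2, a3, a4, a5, a6⟩ := key lv h0 hs
  obtain ⟨Q, b1, b2, b3, b4, b5, b6⟩ := key (fun _ => min ρ 0) (fun _ => min_le_right _ _)
    fun _ _ _ => rfl
  obtain ⟨H, c1, c2, c3, c4⟩ := hB (P 1 * F * (P 1)⁻¹)
    (lv_comm_mul (lv_comm_mul (a3 1) hF) (lv_comm_inv (a3 1)))
    fun N d x f => lv_conj (hx N d _ (a6 N d x f))
  refine ⟨fun t => Q 1 * H t * (Q 1)⁻¹ * (Q t * (P t * F⁻¹ * (P t)⁻¹) * (Q t)⁻¹) * F, ?_,
    fun t => ⟨?_, fun N d x f => ?_⟩, by simp [a4, b4, c3], by simp only [c4]; group⟩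
  · simp only [Homeomorph.mul_apply]
    refine (Q 1).continuous.comp (c1.comp (continuous_fst.prodMk ((Q 1)⁻¹.continuous.comp
      (b1.comp (continuous_fst.prodMk (a1.comp (continuous_fst.prodMk (F⁻¹.continuous.comp
        (a2.comp (continuous_fst.prodMk (b2.comp (continuous_fst.prodMk
          (F.continuous.comp continuous_snd)))))))))))))
  · exact lv_comm_mul (lv_comm_mul (lv_comm_mul (lv_comm_mul (b3 1) (c2 t).1) (lv_comm_inv (b3 1)))
      (lv_comm_mul (lv_comm_mul (b3 t) (lv_comm_mul (lv_comm_mul (a3 t) (lv_comm_inv hF))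
        (lv_comm_inv (a3 t)))) (lv_comm_inv (b3 t)))) hF
  · have g := f.trans (h0 N)
    have g1 := b5 t N d x g
    have g2 := a5 t N d _ (g1.trans g)
    rw [Homeomorph.mul_apply, hx N d x f, Homeomorph.mul_apply,
      lv_conj (lv_conj (F := F⁻¹) (F.symm_apply_eq.2 (hx N d _ (g2.trans (g1.trans f))).symm))]
    exact lv_conj ((c2 t).2 N d _ ((b6 N d x g).trans (min_le_left _ _)))

end Pool.Agent.MP_646035_al.NO

/-!
An isotopy of the tile that fixes the walls is spread over the plane.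
-/

namespace Pool.Agent.MP_646035_al.NO

open Pool.Agent.MP_4a6971_al.H66 Pool.Agent.MP_4a6971_al.H83 MC Set Topology

variable {Γ : Type} [Group Γ]

namespace Cap

variable {K : Cap Γ} {f : X → X} {g : Isom} {x : X}

/-- `f` commutes with the group of the tile and is the identity behind the walls. -/
def SprOk (K : Cap Γ) (f : X → X) : Prop :=
  (∀ γ x, f (K.Y.σ γ • x) = K.Y.σ γ • f x) ∧ ∀ N ∈ K.C, ∀ x, bf N x ≤ 0 → f x = x

theorem spr_T (γ : Γ) : K.Y.σ γ • x ∈ K.T ↔ x ∈ K.T :=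
  have k : ∀ γ x, x ∈ K.T → K.Y.σ γ • x ∈ K.T := fun γ x a N b => by
    have := a _ (K.smul γ⁻¹ N b)
    rwa [← bf_smul (K.Y.σ γ), map_inv, smul_inv_smul] at this
  ⟨fun a => by simpa only [map_inv, inv_smul_smul] using k γ⁻¹ _ a, k γ x⟩

theorem spr_closed : IsClosed K.T := by
  have := isClosed_biInter fun N (_ : N ∈ K.C) =>
    isClosed_le (continuous_const (y := (0 : ℝ))) (continuous_bf N)
  convert this using 1
  ext x
  rw [mem_iInter₂]
  rfl

theorem spr_closed' : IsClosed {x : X | ∃ N ∈ K.C, bf N x ≤ 0} := by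
  have := (K.Y.fam_per.lf.comp_injective (inclusion_injective K.sub)).isClosed_iUnion
    fun N => K.Y.fam_per.cl _
  convert this using 1
  ext x
  simp only [Prod.exists, mem_ofPred_eq, Function.comp_apply, iUnion_coe_set, mem_iUnion, exists_prop]

theorem SprOk.step (hT : K.Til) (h : K.SprOk f) (a : g ∈ K.G) (b : x ∈ K.T) (c : g • x ∈ K.T) :
    f (g • x) = g • f x := by
  rcases hT.nf g a with ⟨γ, rfl⟩ | ⟨N, d, ⟨γ, rfl⟩ | ⟨M, m, n, e⟩⟩
  · exact h.1 γ x
  · have p : 0 ≤ Bf N (K.κ N • (K.Y.σ γ • x).1) := by simpa only [coe_smul, bf, mul_smul] using c N d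
    have q : 0 ≤ Bf N (K.Y.σ γ • x).1 := (spr_T γ).2 b N d
    have r := h.2 N d (K.Y.σ γ • x) (by rw [κ_bf d] at p; exact neg_nonneg.1 p)
    rw [h.1, smul_left_cancel_iff] at r
    rw [r]
    refine h.2 N d _ ?_
    rw [mul_smul, bf, coe_smul, κ_bf d]
    exact neg_nonpos.2 q
  · have := (κ_past d (past m d (by simpa))).2 _ (g • x).2.fut
    rw [Bf_sub_left] at this
    exact absurd ((e x b).trans (c N d)) (not_le.2 (sub_pos.1 this))

/-- The spread map. -/
noncomputable def spr (hT : K.Til) (f : X → X) (x : X) : X :=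
  (hT.cover x).choose⁻¹ • f ((hT.cover x).choose • x)

theorem SprOk.eq (hT : K.Til) (h : K.SprOk f) (a : g ∈ K.G) (b : g • x ∈ K.T) :
    spr hT f x = g⁻¹ • f (g • x) := by
  obtain ⟨c, d⟩ := (hT.cover x).choose_spec
  have := h.step hT (mul_mem a (inv_mem c)) d (by simpa only [mul_smul, inv_smul_smul] using b)
  rw [mul_smul, inv_smul_smul] at this
  rw [this, mul_smul, inv_smul_smul, spr]

theorem SprOk.smul (hT : K.Til) (h : K.SprOk f) (a : g ∈ K.G) (x : X) :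
    spr hT f (g • x) = g • spr hT f x := by
  obtain ⟨u, c, d⟩ := hT.cover (g • x)
  rw [h.eq hT c d, h.eq hT (mul_mem c a) (by rwa [mul_smul])]
  simp [mul_smul]

theorem spr_near (hT : K.Til) (x : X) :
    ∃ g ∈ K.G, ∃ g' ∈ K.G, ∀ᶠ y in 𝓝 x, g • y ∈ K.T ∨ g' • y ∈ K.T := by
  obtain ⟨g, a, b⟩ := hT.cover x
  obtain ⟨c, c0, hc⟩ := K.gap
  have k : Continuous fun y : X => g • y := continuous_const_smul g
  by_cases e : ∃ N ∈ K.C, bf N (g • x) ≤ 0
  · obtain ⟨N, d, e⟩ := e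
    have key : ∀ y : X, 0 ≤ bf N y → bf N y ≤ c → y ∈ K.T := fun y p q M m => by
      by_cases r : M = N
      · exact r ▸ p
      · have : c ≤ bf M y + bf N y := hc M m N d r _ y.2
        linarith
    refine ⟨g, a, K.κ N * g, mul_mem (K.κ_mem d) a, ?_⟩
    filter_upwards [((continuous_bf N).comp k).continuousAt.preimage_mem_nhds
      (Ioo_mem_nhds (a := -c) (b := c) (by have := b N d; simp; linarith) (by simp; linarith))]
      with y hy
    have q : bf N (K.κ N • g • y) = -bf N (g • y) := κ_bf d _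
    have h1 : -c < bf N (g • y) := hy.1
    have h2 : bf N (g • y) < c := hy.2
    rcases le_total 0 (bf N (g • y)) with p | p
    · exact Or.inl (key _ p h2.le)
    · exact Or.inr (by rw [mul_smul]; exact key _ (by linarith) (by linarith))
  · refine ⟨g, a, g, a, ?_⟩
    filter_upwards [k.continuousAt.preimage_mem_nhds (spr_closed'.isOpen_compl.mem_nhds e)]
      with y hy
    exact Or.inl fun N d => le_of_not_ge fun p => hy ⟨N, d, p⟩

theorem spr_cont (hT : K.Til) {A : Type} [TopologicalSpace A] {Φ : A → X → X}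
    (hΦ : Continuous fun p : A × X => Φ p.1 p.2) (h : ∀ a, K.SprOk (Φ a)) :
    Continuous fun p : A × X => spr hT (Φ p.1) p.2 := by
  have key : ∀ g ∈ K.G, IsClosed {p : A × X | g • p.2 ∈ K.T} ∧
      ContinuousOn (fun p : A × X => spr hT (Φ p.1) p.2) {p | g • p.2 ∈ K.T} := fun g a =>
    ⟨spr_closed.preimage (f := fun p : A × X => g • p.2) (by fun_prop),
      (((hΦ.comp (f := fun p : A × X => (p.1, g • p.2)) (by fun_prop)).const_smul
        g⁻¹).continuousOn).congr fun p b => (h p.1).eq hT a b⟩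
  refine continuous_iff_continuousAt.2 fun p => ?_
  obtain ⟨g, a, g', a', b⟩ := spr_near hT p.2
  exact ((key g a).2.union_of_isClosed (key g' a').2 (key g a).1 (key g' a').1).continuousAt
    (continuous_snd.continuousAt.eventually b)

theorem SprOk.symm {F : X ≃ₜ X} (h : K.SprOk F) : K.SprOk F.symm :=
  ⟨fun γ x => by rw [F.symm_apply_eq, h.1, F.apply_symm_apply],
    fun N a x b => F.symm_apply_eq.2 (h.2 N a x b).symm⟩

theorem SprOk.inv (hT : K.Til) {F : X ≃ₜ X} (h : K.SprOk F) (x : X) :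
    spr hT F.symm (spr hT F x) = x := by
  obtain ⟨g, a, b⟩ := hT.cover x
  rw [h.eq hT a b, h.symm.eq hT a, smul_inv_smul, F.symm_apply_apply, inv_smul_smul]
  rw [smul_inv_smul]
  refine fun N c => le_of_not_gt fun d => ?_
  rw [F.injective (h.2 N c _ d.le)] at d
  exact d.not_ge (b N c)

theorem SprOk.cont (hT : K.Til) (h : K.SprOk f) (c : Continuous f) : Continuous (spr hT f) :=
  (spr_cont hT (A := Unit) (Φ := fun _ => f) (c.comp continuous_snd) fun _ => h).comp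
    (f := fun x => ((), x)) (by fun_prop)

/-- The spread homeomorphism. -/
noncomputable def sprH (hT : K.Til) (F : X ≃ₜ X) (h : K.SprOk F) : X ≃ₜ X where
  toFun := spr hT F
  invFun := spr hT F.symm
  left_inv := h.inv hT
  right_inv := h.symm.inv hT
  continuous_toFun := h.cont hT F.continuous
  continuous_invFun := h.symm.cont hT F.symm.continuous

/-- A homeomorphism that fixes the walls keeps the tile. -/
theorem spr_keep {F : X ≃ₜ X} (hc : ∀ N ∈ K.C, ∀ x, bf N x = 0 → F x = x) (a : x ∈ K.T) :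
    F x ∈ K.T := fun N b => by
  rcases (a N b).eq_or_lt with c | c
  · rw [hc N b x c.symm]
    exact c.le
  obtain ⟨γ, d⟩ := K.Y.pk_move (K.sub b)
  have m := K.smul γ N b
  obtain ⟨l, hl⟩ := H84.exists_pl' (unit m)
  have p : 0 < bf N ⟨l 0, hl.h2 0⟩ := by
    simpa [hl.on 0, bf] using (past m b (by simpa)).2 _ (hl.h2 0).fut
  by_contra! e
  obtain ⟨z, q, r⟩ := (preconn_beyond (E := -N) (by simpa using unit b) 0).intermediate_value
    (a := x) (b := ⟨l 0, hl.h2 0⟩) (by simpa) (by simpa) (f := fun x => bf N (F x)) (by fun_prop)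
    (show (0 : ℝ) ∈ Icc _ _ from ⟨e.le, by
      rw [hc _ m ⟨l 0, hl.h2 0⟩ (hl.on 0)]
      exact p.le⟩)
  simp only [F.injective (hc N b _ r)] at r
  simp [r] at q

open Classical in
/-- `F` on the tile and the identity outside. -/
noncomputable def sprCut (K : Cap Γ) (f : X → X) (x : X) : X := if x ∈ K.T then f x else x

theorem sprCut_fix (hc : ∀ N ∈ K.C, ∀ x, bf N x = 0 → f x = x) {N : V} (a : N ∈ K.C)
    (b : bf N x ≤ 0) : K.sprCut f x = x := by
  unfold sprCut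
  split_ifs with c
  exacts [hc N a x (b.antisymm (c N a)), rfl]

theorem sprCut_cont (hc : ∀ N ∈ K.C, ∀ x, bf N x = 0 → f x = x) (c : Continuous f) :
    Continuous (K.sprCut f) := by
  have := ((c.continuousOn (s := K.T)).congr (g := K.sprCut f) fun x a => if_pos a).union_of_isClosed
    (continuousOn_id.congr (s := {x : X | ∃ N ∈ K.C, bf N x ≤ 0})
      fun x ⟨N, a, b⟩ => sprCut_fix hc a b) spr_closed spr_closed'
  refine continuousOn_univ.1 (this.mono fun x _ => or_iff_not_imp_right.2 fun a N b => ?_)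
  exact le_of_not_ge fun p => a ⟨N, b, p⟩

theorem sprCut_inv {F : X ≃ₜ X} (hc : ∀ N ∈ K.C, ∀ x, bf N x = 0 → F x = x) (x : X) :
    K.sprCut F.symm (K.sprCut F x) = x := by
  by_cases a : x ∈ K.T <;> simp [sprCut, a, spr_keep hc]

end Cap

/-- A map that fixes the cores is isotopic to the identity. -/
theorem Cap.baer_fix (K : Cap Γ) (W : Fuchs K.G) (h : K.Is W) (hT : K.Til) {ρ : ℝ}
    (hB : K.Y.Baer ρ) (F : X ≃ₜ X) (hF : W.Comm F) (hx : W.Fix (-2) F)
    (hc : ∀ N ∈ K.C, ∀ x, bf N x = 0 → F x = x) :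
    ∃ H : ℝ → X ≃ₜ X, Continuous (fun p : ℝ × X => H p.1 p.2) ∧
      (∀ t, W.Comm (H t) ∧ W.Fix (-2) (H t)) ∧ H 0 = 1 ∧ H 1 = F := by
  classical
  have hc' : ∀ N ∈ K.C, ∀ x, bf N x = 0 → F.symm x = x := fun N a x b =>
    F.symm_apply_eq.2 (hc N a x b).symm
  have hF' : ∀ g ∈ K.G, ∀ x, F (g • x) = g • F x := fun g a x => by
    simpa only [h.app] using hF ⟨g, a⟩ x
  obtain ⟨H, h1, h2, h3, h4⟩ := baer_lv K.Y hB (fun N => if N ∈ K.C then 0 else -2)
    (fun N => by split_ifs <;> norm_num)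
    (fun γ N _ => if_congr ⟨fun a => by simpa only [map_inv, inv_smul_smul] using K.smul γ⁻¹ _ a, K.smul γ N⟩ rfl rfl)
    ⟨⟨K.sprCut F, K.sprCut F.symm, Cap.sprCut_inv hc, Cap.sprCut_inv hc'⟩,
      Cap.sprCut_cont hc F.continuous, Cap.sprCut_cont hc' F.symm.continuous⟩
    (fun γ x => by
      change K.sprCut F _ = _ • K.sprCut F x
      by_cases a : x ∈ K.T <;> simp [Cap.sprCut, a, Cap.spr_T, hF' _ (K.σ_mem γ)])
    fun N a x b => by
      change K.sprCut F x = x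
      by_cases c : N ∈ K.C
      · exact Cap.sprCut_fix hc c (by simpa [c] using b)
      · have := hx N (h.per ▸ ⟨1, one_mem _, N, a, c, by simp only [one_smul]⟩) x (by simpa [c] using b)
        simp [Cap.sprCut, this]
  have ok : ∀ t, K.SprOk (H t) := fun t =>
    ⟨(h2 t).1, fun N a x b => (h2 t).2 N (K.sub a) x (by simpa [a] using b)⟩
  refine ⟨fun t => Cap.sprH hT (H t) (ok t), Cap.spr_cont hT h1 ok, fun t =>
    ⟨fun γ x => ?_, fun M a x b => ?_⟩, Homeomorph.ext fun x => ?_, Homeomorph.ext fun x => ?_⟩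
  · rw [h.app]
    exact (ok t).smul hT γ.2 x
  · obtain ⟨g, c, N, d, e, rfl⟩ := h.per ▸ a
    obtain ⟨y, rfl⟩ := MulAction.surjective g x
    rw [bf_smul] at b
    refine ((ok t).eq hT (inv_mem c) ?_).trans ?_
    · rw [inv_smul_smul]
      intro M m
      have := (per_past K.Y (K.sub m) d fun k => e (k ▸ m)).2 _ y.2.fut
      rw [Bf_add_left] at this
      change Bf N y.1 ≤ -2 at b
      change 0 ≤ Bf M y.1
      linarith
    · rw [inv_smul_smul, inv_inv, (h2 t).2 N d y (by simpa [e] using b)]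
  · change Cap.spr hT (H 0) x = x
    simp only [spr, h3, Homeomorph.one_apply, inv_smul_smul]
  · obtain ⟨g, a, b⟩ := hT.cover x
    refine ((ok 1).eq hT a b).trans ?_
    rw [h4]
    change g⁻¹ • K.sprCut F (g • x) = F x
    rw [Cap.sprCut, if_pos b, hF' g a, inv_smul_smul]

end Pool.Agent.MP_646035_al.NO

/-!
The theorem of Baer and Epstein for surfaces with cross caps.
-/

namespace Pool.Agent.MP_646035_al.NO

open Pool.Agent.MP_4a6971_al.H66 Pool.Agent.MP_4a6971_al.H83 MC Set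

variable {Γ : Type} [Group Γ]

namespace Cores

theorem goal (C : Cores Γ) : C.Goal := fun F hF hC => by
  obtain ⟨F₁, r1, a, b⟩ := tame hF hC
  obtain ⟨F₂, r2, c, d⟩ := once r1.1 a b
  obtain ⟨F₃, r3, e⟩ := fix r2.1 c d
  exact ⟨F₃, (r1.trans r2).trans r3, fun i x h => C.P_u0 i h ▸ e i _⟩

end Cores

theorem Cap.baer (K : Cap Γ) (W : Fuchs K.G) (h : K.Is W) (hT : K.Til) {ρ : ℝ}
    (hB : K.Y.Baer ρ) : W.Baer (-2) := by
  obtain ⟨C, c1, c2, c3, c4⟩ := K.exists_cores W h hT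
  have ok : ∀ F, C.Ok F ↔ W.Comm F ∧ W.Fix (-2) F := fun F => by
    rw [Cores.Ok, c1, c2]
    exact and_congr_right fun _ => ⟨fun a N b x c => a x ⟨N, b, c⟩, fun a x ⟨N, b, c⟩ => a N b x c⟩
  intro F hF hx
  obtain ⟨F', ⟨a, b⟩, c⟩ := C.goal F ((ok F).2 ⟨hF, fun N p x q => hx N p x (by linarith)⟩) (by
    rw [c3]
    intro x p M q
    by_contra! r
    rw [F.injective (hx M q _ r.le)] at r
    exact r.not_ge (p M q))
  obtain ⟨H, h1, h2, h3⟩ := K.baer_fix W h hT hB F' ((ok _).1 a).1 ((ok _).1 a).2 fun N p x q => by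
    obtain ⟨g, i, rfl⟩ := c4 N p
    obtain ⟨y, rfl⟩ := MulAction.surjective (C.σ g) x
    rw [a.1, c i y (by rwa [bf_smul] at q)]
  obtain ⟨H', k1, k2, k3⟩ := b ⟨H, h1, fun t => (ok _).2 (h2 t), h3⟩
  exact ⟨H', k1, fun t => (ok _).1 (k2 t), k3⟩

end Pool.Agent.MP_646035_al.NO

/-!
The kernel up to isotopy, given the theorem of Baer and Epstein.
-/

namespace Pool.Agent.MP_646035_al.NO

open Pool.Agent.MP_4a6971_al Pool.Agent.MP_4a6971_al.H66 Pool.Agent.MP_4a6971_al.H83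
  Pool.Agent.MP_4a6971_al.Mcg Set Topology Metric MC

variable {Γ : Type} [Group Γ] {Y : Fuchs Γ} {S : Type} [TopologicalSpace S] {m : ℕ}

namespace Model

variable (Z : Model Y S m)

/-- An equivariant isotopy that is the identity deep in the funnels descends. -/
theorem ker_descend [T2Space S] {H : ℝ → X ≃ₜ X} (hc : Continuous fun p : ℝ × X => H p.1 p.2) {ρ : ℝ}
    (hH : ∀ t, Y.Comm (H t) ∧ Y.Fix ρ (H t)) :
    ∃ r > 0, ∃ k : ℝ → S ≃ₜ S, Continuous (fun p : ℝ × S => k p.1 p.2) ∧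
      (∀ t, Y.Lifts Z.π (k t) (H t) 1) ∧ ∀ t i z, ‖z‖ ≤ r → k t (Z.D i z) = Z.D i z := by
  have p := Z.ε_pos
  have r0 : 0 < Z.ε / (Z.ε + |ρ|) := by positivity
  have fx : ∀ t i z x, ‖z‖ ≤ Z.ε / (Z.ε + |ρ|) → Z.π x = Z.D i z → H t x = x :=
    fun t i z x hz hx => by
      have h0 : z ≠ 0 := fun e => (Z.rng _).1 ⟨x, rfl⟩ i (by rw [hx, e, Z.D0])
      obtain ⟨y, y1, y2⟩ := Z.exists_pt i h0
      obtain ⟨γ, rfl⟩ := (Z.fib _ _).1 (hx.trans y1.symm)
      rw [(hH t).1, (hH t).2 _ (Z.B_per i) y]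
      have := inv_anti₀ (norm_pos_iff.2 h0) hz
      rw [inv_div, div_le_iff₀ p] at this
      rw [y2]
      linarith only [neg_abs_le ρ, this]
  obtain ⟨k, k1, k2, k3⟩ := Z.ker_desc (H := fun t => H t) hc (fun t => (hH t).1) r0
    fun t i z x a b => congrArg Z.π (fx t i z x a b)
  have ex : ∀ t, ∃ K : S ≃ₜ S, ∀ s, K s = k t s := fun t => by
    obtain ⟨l, l1, l2, -⟩ := Z.ker_desc (A := Unit) (H := fun _ => (H t).symm) (by fun_prop)
      (fun _ γ x => (H t).symm_apply_eq.2 (by rw [(hH t).1, Homeomorph.apply_symm_apply])) r0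
      fun _ i z x a b => congrArg Z.π ((H t).symm_apply_eq.2 (fx t i z x a b).symm)
    have c1 : Continuous (k t) := k1.comp (Continuous.prodMk_right t)
    have c2 : Continuous (l ()) := l1.comp (Continuous.prodMk_right ())
    exact ⟨⟨⟨k t, l (), congrFun (Z.ker_dense.equalizer (c2.comp c1) continuous_id
      (funext fun x => by simp [k2, l2])), congrFun (Z.ker_dense.equalizer (c1.comp c2)
        continuous_id (funext fun x => by simp [k2, l2]))⟩, c1, c2⟩, fun _ => rfl⟩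
  choose K hK using ex
  exact ⟨_, r0, K, by simpa only [hK] using k1, fun t => ⟨fun x => by rw [hK, k2], (hH t).1⟩,
    fun t i z hz => by rw [hK, k3 t i z hz]⟩

end Model

theorem Model.ker_adm [T2Space S] (Z : Model Y S m) (T : Finset (Fin m)) {ρ : ℝ} (hb : Y.Baer ρ)
    {f : S ≃ₜ S} (hf : f ∈ (Z.marks T).Adm) {F : X ≃ₜ X} (hF : Y.Lifts Z.π f F 1)
    (h : ∀ i ∈ T, ∀ x, bf (Z.B i) x ≤ 0 → F x = x) : f ∈ (Z.marks T).Iso := by
  obtain ⟨g, g1, g', g2, F', a, b⟩ := Z.ker_all T hf hF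
    (fun i hi w hw => h i hi _ (Z.lg_le i hw)) Finset.univ
  obtain ⟨H, H1, H2, H3, H4⟩ := hb F' a.act fun N hN x hx => by
    obtain ⟨i, γ, rfl⟩ := Z.orb N hN
    obtain ⟨w, w1, w2⟩ := Z.exists_lg i (x := (Y.σ γ)⁻¹ • x)
      (by rwa [← bf_smul (Y.σ γ), smul_inv_smul])
    rw [eq_inv_smul_iff] at w2
    rw [← w2, a.act, b i (Or.inr (Finset.mem_univ i)) w w1]
    rfl
  obtain ⟨r, r0, k, k1, k2, k3⟩ := Z.ker_descend H1 H2
  have ext : ∀ {u v : S ≃ₜ S} {G φ ψ}, Y.Lifts Z.π u G φ → Y.Lifts Z.π v G ψ → u = v := fun c d =>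
    Homeomorph.ext (congrFun (Z.ker_dense.equalizer (Homeomorph.continuous _)
      (Homeomorph.continuous _) (funext fun x => (c.lift x).symm.trans (d.lift x))))
  have := Marks.grow (c := Z.marks T) (mul_mem (mul_mem ((Z.marks T).iso_le g1) hf)
    ((Z.marks T).iso_le g2)) r0 k1 (ext (H3 ▸ k2 0) Fuchs.Lifts.one) (ext (H4 ▸ k2 1) a)
    (fun t x => by
      rw [Z.mem_P, Z.mem_P]
      refine exists_congr fun i => and_congr_right fun _ => ?_
      rw [← Z.D0]
      nth_rewrite 1 [← k3 t i 0 (by simpa only [norm_zero] using r0.le)]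
      exact (k t).injective.eq_iff)
    fun t j z hz => k3 t _ z hz
  simpa [mul_assoc] using mul_mem (mul_mem (inv_mem g1) this) (inv_mem g2)

end Pool.Agent.MP_646035_al.NO

end
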