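import Pool.Agent.MP_646035_al.Mg.Cx_Model
import Pool.Agent.MP_646035_al.Cx.Defs
import Pool.Agent.MP_646035_al.Cx.Local
import Pool.Agent.MP_646035_al.Cx.Ker2
import Pool.Agent.MP_646035_al.Mg.NO_Iface
import Pool.Agent.MP_646035_al.Cx.Tw2
import Pool.Agent.MP_646035_al.Cx.Torus
import Pool.Agent.MP_646035_al.MC.Stmt
import Pool.Agent.MP_646035_al.Mg.NO_Baer
import Pool.Agent.MP_646035_al.Mg.Cx_Cover
import Pool.Agent.MP_646035_al.Mg.Cx_Fill
import Pool.Agent.MP_646035_al.Cx.Base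
import Pool.Agent.MP_646035_al.Mg.Cx_Pants
import Pool.Agent.MP_646035_al.Mg.MC_Side
import Pool.Agent.MP_646035_al.MC.StmtX
import Pool.Agent.MP_646035_al.Mg.H84_GAx
import Pool.Agent.MP_646035_al.Mg.Bx_Hyp
import Pool.Agent.MP_646035_al.Mg.H66G_AxG
import Pool.Agent.MP_646035_al.NO.Stmt
import Pool.Agent.MP_646035_al.Mg.NB_Defs

attribute [-instance] Prod.instSMul Prod.mulAction MonTypeEquivalenceMon.monMonoid
  NonUnitalAlgHomClass.toNonUnitalRingHomClass littleWedderburn SubgroupClass.toCommGroup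
  RKHS.instFunLike SubsemiringClass.toCommSemiring NormedRing.toRing SemigroupWithZero.toSemigroup
  SMulWithZero.toSMulZeroClass MonoidWithZero.toMulZeroOneClass
  ESeminormedAddCommMonoid.toAddCommMonoid Subgroup.toCommGroup
  NonUnitalAlgSemiHomClass.toMulHomClass AddQuantale.instAddLeftMono
  CategoryTheory.CommGrpObj.toGrpObj NonUnitalRing.toNonUnitalNonAssocRing
  TopologicalSpace.IsCompletelyMetrizableSpace.MetrizableSpace NonAssocSemiring.toMulZeroOneClass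
  Valued.toUniformSpace IdemSemiring.toSemiring LieAdmissibleAlgebra.toModule
  SetLike.GradeZero.instSemiring instCharZeroOfIsSemireal NumberField.to_charZero
  RightPreLieAlgebra.toModule SetLike.GradeZero.instRing LeftPreLieAlgebra.toModule
  NormedCommRing.toCommRing SetLike.GradeZero.instMonoid SetLike.GradeZero.instCommSemiring
  SubsemiringClass.toSubmonoidClass SubringClass.toRing NegZeroClass.toNeg RCLike.charZero_rclike
  ProperSMul.toContinuousSMul MonoidWithZero.toMonoid GroupConeClass.toSubmonoidClass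
  NonarchimedeanRing.toIsTopologicalRing instDiscreteTopologyOfAlexandrovDiscreteOfT1Space
  ESeminormedAddMonoid.toAddMonoid CompletelyDistribLattice.toCompleteLattice
  NonUnitalNonAssocRing.toAddCommGroup IdemSemiring.toCanonicallyOrderedAdd
  NonAssocSemiring.toAddCommMonoidWithOne TestFunctionClass.toDFunLike
  ContDiffMapSupportedInClass.toDFunLike SeminormedCommRing.toCommRing EuclideanDomain.toCommRing
  NonUnitalSemiring.toNonUnitalNonAssocSemiring CategoryTheory.Preadditive.instGrpObj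
  MonoidWithZeroHomClass.toMonoidHomClass BooleanRing.toRing AlgHomClass.toRingHomClass
  LieAdmissibleRing.toNonUnitalNonAssocRing BialgHomClass.toMonoidHomClass
  DivisionRing.toDivInvMonoid SubsemiringClass.toSemiring AddCommGroupWithOne.toAddGroupWithOne
  AddQuantale.instAddRightMono bot_nonempty DiscreteUniformity.instDiscreteTopology
  TopologicalSpace.PseudoMetrizableSpace.toMetrizableSpace
  NonUnitalNonAssocCommSemiring.toNonUnitalNonAssocSemiring Valued.isTopologicalDivisionRing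
  NonUnitalNormedCommRing.toNonUnitalCommRing Prod.instAddCommGroup GroupWithZero.toDivInvMonoid
  instCommGroupOfIsSimpleGroupOfIsNilpotent IsTopologicalTorsor.toContinuousSMul
  ContinuousMonoidHom.instCoeOutOfMonoidHomClassOfContinuousMapClass BooleanRing.toCommRing
  NontriviallyNormedField.toNormedField GroupWithZero.toDivisionMonoid Nontrivial.to_nonempty
  LinearOrderedCommMonoidWithZero.toPosMulStrictMono instSMulZeroClass
  Group.IsPerfect.subsingleton_of_isMulCommutative instUniformSpaceSubtype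
  NormedDivisionRing.toDivisionRing Field.toCommRing NonUnitalSeminormedCommRing.toNonUnitalCommRing
  NormedRing.toSeminormedRing IdemCommSemiring.toCommSemiring NonAssocRing.toNonUnitalNonAssocRing

-- part MP_646035_al.Cx.Cur0
section

/-!
The model of the sphere with three holes is the group of a pair of pants.
-/

namespace Pool.Agent.MP_646035_al.MC

open Pool.Agent.MP_4a6971_al.H66 Pool.Agent.MP_4a6971_al.H83

theorem schreier {G : Type} [Group G] {a b c : G} (ha : a * a = 1) (hb : b * b = 1)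
    (hc : c * c = 1) (h : c * b = b * c) {H : Subgroup G} (x : a * b ∈ H) (y : c * b * a * c ∈ H)
    {w : G} (hw : w ∈ Subgroup.closure {a, b, c}) :
    ∃ u ∈ H, w = u ∨ w = u * b ∨ w = u * c ∨ w = u * (b * c) := by
  have a' : ∀ z, a * (a * z) = z := fun z => by rw [← mul_assoc, ha, one_mul]
  have b' : ∀ z, b * (b * z) = z := fun z => by rw [← mul_assoc, hb, one_mul]
  have c' : ∀ z, c * (c * z) = z := fun z => by rw [← mul_assoc, hc, one_mul]
  have h' : ∀ z, c * (b * z) = b * (c * z) := fun z => by rw [← mul_assoc, h, mul_assoc]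
  have ia := inv_eq_of_mul_eq_one_left ha
  have ib := inv_eq_of_mul_eq_one_left hb
  have ic := inv_eq_of_mul_eq_one_left hc
  have step : ∀ w, ∀ t ∈ ({a, b, c} : Set G),
      (∃ u ∈ H, w = u ∨ w = u * b ∨ w = u * c ∨ w = u * (b * c)) →
      ∃ u ∈ H, w * t = u ∨ w * t = u * b ∨ w * t = u * c ∨ w * t = u * (b * c) := by
    rintro w t ht ⟨u, hu, e⟩
    rcases ht with e' | e' | e' <;> rw [e'] <;> rcases e with e | e | e | e <;> rw [e]
    · exact ⟨_, mul_mem hu x, Or.inr (Or.inl (by simp [mul_assoc, hb]))⟩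
    · exact ⟨_, mul_mem hu (inv_mem x), Or.inl (by simp [mul_assoc, ia, ib])⟩
    · exact ⟨_, mul_mem hu (inv_mem y), Or.inr (Or.inr (Or.inr
        (by simp [mul_assoc, ia, ib, ic, h', b', hc])))⟩
    · exact ⟨_, mul_mem hu y, Or.inr (Or.inr (Or.inl (by simp [mul_assoc, h', hc])))⟩
    · exact ⟨u, hu, Or.inr (Or.inl rfl)⟩
    · exact ⟨u, hu, Or.inl (by simp [mul_assoc, hb])⟩
    · exact ⟨u, hu, Or.inr (Or.inr (Or.inr (by simp [mul_assoc, h])))⟩
    · exact ⟨u, hu, Or.inr (Or.inr (Or.inl (by simp [mul_assoc, h, b'])))⟩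
    · exact ⟨u, hu, Or.inr (Or.inr (Or.inl rfl))⟩
    · exact ⟨u, hu, Or.inr (Or.inr (Or.inr (mul_assoc _ _ _)))⟩
    · exact ⟨u, hu, Or.inl (by simp [mul_assoc, hc])⟩
    · exact ⟨u, hu, Or.inr (Or.inl (by simp [mul_assoc, hc]))⟩
  induction hw using Subgroup.closure_induction_right with
  | one => exact ⟨1, one_mem _, Or.inl rfl⟩
  | mul_right w _ t ht ih => exact step w t ht ih
  | mul_inv_cancel w _ t ht ih =>
    have : t⁻¹ = t := by rcases ht with e | e | e <;> rw [e] <;> assumption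
    rw [this]
    exact step w t ht ih

theorem Lay.peri {g : ℕ} {L : Lay g} {Y : Poly g} {p : I g × I g} (hp : p ∈ L.G) {w u : W g}
    (hw : w ∈ WA L.A) (hu : u ∈ WA {p.1, p.2}) (h1 : u ≠ 1) {α : L.GA}
    (e : (α : W g) = w * u * w⁻¹) : (L.fuchs Y).Peri α := by
  refine ⟨fun c => h1 ?_, L.c Y • Y.ρ w • dl Y p, ⟨_, ⟨w, hw, p, hp, rfl⟩, rfl⟩, ?_⟩
  · rw [c] at e
    exact conj_eq_one_iff.1 e.symm
  · rw [Lay.fuchs_σ, Lay.σ_c, Y.σ_apply, e, map_mul, map_mul, map_inv, mul_smul, inv_smul_smul,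
      mul_smul, (Lay.far' Y hp).fix hu]

theorem lay_pants (h : 3 ≤ 2 * 0 + 3) (Y : MP_4a6971_al.H66.Poly (0 + 3)) :
    ((lay 0 3 h).fuchs Y).Pants := by
  have eA : (lay 0 3 h).A = {0, 4, 5} := by
    ext i
    simp only [lay_A, layA, Set.mem_ofPred_eq, Set.mem_insert_iff, Set.mem_singleton_iff]
    revert i
    decide
  have eW : WA (lay 0 3 h).A = Subgroup.closure {s 0, s 4, s 5} := by
    rw [WA, eA, Set.image_insert_eq, Set.image_pair]
  have m0 : s 0 ∈ WA (lay 0 3 h).A := s_mem_WA (by simp only [Nat.reduceAdd, eA, Set.mem_insert_iff, Set.mem_singleton_iff, true_or])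
  have m4 : s 4 ∈ WA (lay 0 3 h).A := s_mem_WA (by simp only [Nat.reduceAdd, eA, Set.mem_insert_iff, Set.mem_singleton_iff, true_or, or_true])
  have m5 : s 5 ∈ WA (lay 0 3 h).A := s_mem_WA (by simp [eA])
  have g1 : ((0, 4) : I (0 + 3) × I (0 + 3)) ∈ (lay 0 3 h).G := Or.inl ⟨0, by decide, rfl, rfl⟩
  have g2 : ((5, 0) : I (0 + 3) × I (0 + 3)) ∈ (lay 0 3 h).G := Or.inr ⟨rfl, rfl, rfl⟩
  have cm : (s 5 * s 4 : W (0 + 3)) = s 4 * s 5 := (s_comm (g := 0 + 3) 4).symm
  have x1 : (s 0 * s 4 : W (0 + 3)) ∈ (cls (0 + 3)).ker := by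
    simp only [MonoidHom.mem_ker, map_mul, cls_s]; decide
  have y1 : (s 5 * s 4 * s 0 * s 5 : W (0 + 3)) ∈ (cls (0 + 3)).ker := by
    simp only [MonoidHom.mem_ker, map_mul, cls_s]; decide
  let x : (lay 0 3 h).GA := ⟨⟨_, x1⟩, Subgroup.mem_subgroupOf.2 (mul_mem m0 m4)⟩
  let y : (lay 0 3 h).GA :=
    ⟨⟨_, y1⟩, Subgroup.mem_subgroupOf.2 (mul_mem (mul_mem (mul_mem m5 m4) m0) m5)⟩
  have n1 : (s 0 * s 4 : W (0 + 3)) ≠ 1 := fun e => (Lay.far' Y g1).tp_ne Y (by simp [tp, e])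
  have k1 : (s 0 * s 4 : W (0 + 3)) ∈ WA {0, 4} := mul_mem (s_mem_WA (by simp only [Nat.reduceAdd, Set.mem_insert_iff, Set.mem_singleton_iff, true_or])) (s_mem_WA (by simp))
  refine ⟨x, y, ?_, Lay.peri g1 (one_mem _) k1 n1 (by simp [x]),
    Lay.peri g1 m5 (inv_mem k1) (inv_ne_one.2 n1) (by simp [y, mul_assoc]),
    Lay.peri g2 (one_mem _) (inv_mem (tp_mem (5, 0))) (inv_ne_one.2 ((Lay.far' Y g2).tp_ne Y)) ?_⟩
  · refine eq_top_iff.2 fun γ _ => ?_
    let ι : (lay 0 3 h).GA →* W (0 + 3) := (cls (0 + 3)).ker.subtype.comp (lay 0 3 h).GA.subtype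
    obtain ⟨_, ⟨u, hu, rfl⟩, e⟩ := schreier (s_mul_s _) (s_mul_s _) (s_mul_s _) cm
      (H := (Subgroup.closure {x, y}).map ι) ⟨x, Subgroup.subset_closure (by simp only [Nat.reduceAdd, Set.mem_insert_iff, Set.mem_singleton_iff, true_or]), rfl⟩
      ⟨y, Subgroup.subset_closure (by simp only [Nat.reduceAdd, Set.mem_insert_iff, Set.mem_singleton_iff, or_true]), rfl⟩ (w := ι γ) (eW ▸ γ.2)
    have a : cls (0 + 3) (ι γ) = 1 := γ.1.2
    have b : cls (0 + 3) (ι u) = 1 := u.1.2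
    rcases e with e | e | e | e
    · rwa [Subtype.ext (Subtype.ext e) (a1 := γ) (a2 := u)]
    all_goals
      rw [e] at a
      simp only [map_mul, b, cls_s, one_mul] at a
      exact absurd a (by decide)
  · change s 0 * s 4 * (s 5 * s 4 * s 0 * s 5) = _
    rw [cm]
    simp [tp, mul_assoc, ← mul_assoc (s (4 : I (0 + 3))) (s 4)]

end Pool.Agent.MP_646035_al.MC

end

-- part MP_646035_al.Cx.Ker
section

/-!
A homeomorphism with a lift that commutes with the group and is the identity behind the boundary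
components is isotopic to the identity.
-/

namespace Pool.Agent.MP_646035_al.MC

open Pool.Agent.MP_4a6971_al Pool.Agent.MP_4a6971_al.H66 Pool.Agent.MP_4a6971_al.H83
  Pool.Agent.MP_4a6971_al.Mcg Set Topology Metric ComplexConjugate

variable {Γ : Type} [Group Γ] {Y : Fuchs Γ} {S : Type} [TopologicalSpace S] {m : ℕ}

namespace Model

variable (Z : Model Y S m)

/-- Logarithmic coordinates in the funnel and its collar. -/
noncomputable def lg (i : Fin m) (w : ℂ) : X :=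
  Z.fr i • fm (w.im * Z.t i / (2 * Real.pi)) (Z.ε * (1 - Real.exp (-w.re)))

theorem lg_cont (i : Fin m) : Continuous (Z.lg i) :=
  (continuous_const_smul (Z.fr i)).comp (continuous_fm.comp (f := fun w : ℂ =>
    (w.im * Z.t i / (2 * Real.pi), Z.ε * (1 - Real.exp (-w.re)))) (by fun_prop))

theorem π_lg (i : Fin m) (w : ℂ) : Z.π (Z.lg i w) = Z.D i (Complex.exp w) := by
  have p := Z.ε_pos
  have q := Real.exp_pos (-w.re)
  have tp := Z.t_pos i
  have hp := Real.pi_pos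
  rw [lg, Z.Dπ _ _ _ (by linarith only [mul_pos p q])]
  congr 1
  rw [show Z.ε / (Z.ε - Z.ε * (1 - Real.exp (-w.re))) = Real.exp w.re by
      rw [Real.exp_neg]; field_simp; ring,
    show 2 * Real.pi * (w.im * Z.t i / (2 * Real.pi)) / Z.t i = w.im by field_simp,
    Complex.ofReal_exp, ← Complex.exp_add, Complex.re_add_im]

theorem lg_add (i : Fin m) (w : ℂ) :
    Z.lg i (w + (2 * Real.pi : ℝ) * Complex.I) = Y.σ (Z.γ i) • Z.lg i w := by
  have hp := Real.pi_pos
  rw [lg, lg, Z.γ_fm]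
  congr 2
  · simp only [Complex.add_im, Complex.im_ofReal_mul, Complex.I_im]
    field_simp
  · simp only [Complex.add_re, Complex.re_ofReal_mul, Complex.I_re, mul_zero, add_zero]

theorem lg_zpow (i : Fin m) (k : ℤ) (w : ℂ) :
    Z.lg i (w + (k * (2 * Real.pi) : ℝ) * Complex.I) = Y.σ (Z.γ i ^ k) • Z.lg i w := by
  induction k using Int.induction_on with
  | zero => simp only [Int.cast_zero, zero_mul, Complex.ofReal_zero, add_zero, zpow_ofNat, pow_zero, map_one, one_smul]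
  | succ n h =>
    rw [zpow_add_one, ← (Commute.self_zpow (Z.γ i) n).eq, map_mul, mul_smul, ← h, ← Z.lg_add]
    congr 1
    push_cast
    ring
  | pred n h =>
    rw [zpow_sub_one, ← ((Commute.self_zpow (Z.γ i) (-n)).inv_left).eq, map_mul, map_inv, mul_smul,
      ← h, eq_inv_smul_iff, ← Z.lg_add]
    congr 1
    push_cast
    ring

theorem exists_lg (i : Fin m) {x : X} (hx : bf (Z.B i) x ≤ 0) : ∃ w, w.re ≤ 0 ∧ Z.lg i w = x := by
  obtain ⟨s, e⟩ := Z.exists_fm i x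
  have p := Z.ε_pos
  have tp := Z.t_pos i
  have hp := Real.pi_pos
  have q : 1 ≤ 1 - bf (Z.B i) x / Z.ε := by linarith [div_nonpos_of_nonpos_of_nonneg hx p.le]
  refine ⟨⟨-Real.log (1 - bf (Z.B i) x / Z.ε), 2 * Real.pi * s / Z.t i⟩,
    neg_nonpos.2 (Real.log_nonneg q), Eq.trans ?_ e.symm⟩
  rw [lg]
  congr 2
  · field_simp
  · rw [neg_neg, Real.exp_log (by linarith only [q])]
    field_simp
    ring

theorem lg_le (i : Fin m) {w : ℂ} (h : w.re ≤ 0) : bf (Z.B i) (Z.lg i w) ≤ 0 := by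
  rw [lg, Z.bf_fr]
  exact mul_nonpos_of_nonneg_of_nonpos Z.ε_pos.le (sub_nonpos.2 (Real.one_le_exp (neg_nonneg.2 h)))

theorem ker_ax (i : Fin m) : IsAx (Y.σ (Z.γ i)) (Z.B i) := by
  rw [← Z.fr_B]
  refine ⟨by rw [Bf_isom, Bf_E0]; rfl, ?_⟩
  rw [← mul_smul, Z.fr_γ, mul_smul]
  simp only [E0, dil_smul, zero_mul]

theorem ker_ne (i : Fin m) : Z.γ i ≠ (Z.γ i)⁻¹ := fun e => by
  have h := Z.γ_fm i 0 0
  rw [e, map_inv, inv_smul_eq_iff, Z.γ_fm] at h
  have := congrArg fs (smul_left_cancel _ h)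
  rw [fs_fm, fs_fm] at this
  linarith [Z.t_pos i]

theorem ker_alg {p q : Fin m} {δ : Γ}
    (h : Z.γ p = δ * Z.γ q * δ⁻¹ ∨ Z.γ p = δ * (Z.γ q)⁻¹ * δ⁻¹) :
    p = q ∧ δ ∈ Subgroup.zpowers (Z.γ q) := by
  have ne : Z.γ p ≠ 1 := fun e => Z.ker_ne p (by rw [e, inv_one])
  have ax : IsAx (Y.σ (Z.γ p)) (Y.σ δ • Z.B q) := by
    rcases h with h | h <;> rw [h, map_mul, map_mul, map_inv]
    · exact (Z.ker_ax q).conj _
    · rw [map_inv]
      exact (Z.ker_ax q).inv.conj _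
  rcases (Y.hyp _ ne).ax_unique (Z.ker_ax p) ax with e | e
  · obtain ⟨z, hz, -⟩ := Z.exists_z p (x := Y.σ δ • Z.lg q 0) (by
      rw [← e, bf_smul]
      exact (Z.lg_le q le_rfl).trans_lt Z.ε_pos)
    rw [Z.π_smul, Z.π_lg] at hz
    obtain rfl := Z.disj _ _ _ _ hz
    exact ⟨rfl, Z.stab _ _ e⟩
  · have a := Y.per_o _ (Y.per_smul δ _ (Z.B_per q))
    rw [e, Bf_neg_left] at a
    linarith only [Y.per_o _ (Z.B_per p), a]

theorem ker_dense : DenseRange Z.π := fun s => by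
  by_cases h : ∀ i, s ≠ Z.ctr i
  · exact subset_closure ((Z.rng s).2 h)
  · push Not at h
    obtain ⟨i, rfl⟩ := h
    rw [← Z.D0]
    exact map_mem_closure (Z.emb i).continuous (dense_compl_singleton (0 : ℂ) 0) fun z hz =>
      (Z.exists_pt i hz).imp fun _ a => a.1

variable [T2Space S] (T : Finset (Fin m))

/-- A move in the chart of a marked point, and its lift. -/
theorem ker_move {q : Fin m} (hq : q ∉ T) {k : ℝ → ℂ ≃ₜ ℂ}
    (hk : Continuous fun p : ℝ × ℂ => k p.1 p.2) (hs : ∀ t z, z ∉ closedBall (0 : ℂ) 2 → k t z = z)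
    (hz : ∀ t, k t 0 = 0) (h0 : k 0 = 1) :
    ∃ g ∈ (Z.marks T).Iso, ∃ G, Y.Lifts Z.π g G 1 ∧ (∀ z, g (Z.D q z) = Z.D q (k 1 z)) ∧
      (∀ i, i ≠ q → ∀ w, G (Z.lg i w) = Z.lg i w) ∧
      ∀ c : ℝ → ℂ, Continuous c → (∀ t, Complex.exp (c t) = k t (Complex.exp (c 0))) →
        G (Z.lg q (c 0)) = Z.lg q (c 1) := by
  obtain ⟨K, K1, K2, K3⟩ := ker_ext_fam (Z.emb q) (isCompact_closedBall 0 2) hk hs
  have K4 : ∀ t i, i ≠ q → ∀ z, K t (Z.D i z) = Z.D i z := fun t i hi z =>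
    K3 t _ fun ⟨_, e⟩ => hi (Z.disj _ _ _ _ e).symm
  have K5 : ∀ t i x, Z.ctr i = K t x ↔ Z.ctr i = x := fun t i x => by
    have : K t (Z.ctr i) = Z.ctr i := by
      rw [← Z.D0]
      rcases eq_or_ne i q with rfl | hi
      · rw [K2, hz]
      · exact K4 t i hi 0
    nth_rewrite 1 [← this]
    exact (K t).injective.eq_iff
  have K0 : K 0 = 1 := Homeomorph.ext fun x => by
    by_cases a : x ∈ range (Z.D q)
    · obtain ⟨z, rfl⟩ := a
      rw [K2, h0]
      rfl
    · exact K3 0 x a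
  have adm : ∀ t, K t ∈ (Z.marks T).Adm := fun t => (Z.mem_adm T).2
    ⟨fun x => exists_congr fun i => and_congr_right fun _ => K5 t i x,
      fun i hi z _ => K4 t i (fun a => hq (a ▸ hi)) z⟩
  obtain ⟨G, G1, G2, G3, G4⟩ := (Z.cov T).lift_isotopy ⟨fun p => K p.1 p.2, K1.comp
    (f := fun p : unitInterval × S => ((p.1 : ℝ), p.2)) (by fun_prop)⟩
    (fun t => ⟨K t, adm t, fun _ => rfl⟩) fun x => congrFun (congrArg DFunLike.coe K0) x
  have key : ∀ x, ∀ v : ℝ → X, Continuous v → v 0 = x → (∀ t, Z.π (v t) = K t (Z.π x)) →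
      G 1 x = v 1 := fun x v a b e =>
    congrFun ((Z.cov T).eq_of_eq (u := fun t : unitInterval => G t x) (v := fun t => v t)
      (G1.comp (Continuous.prodMk_left _)) (a.comp continuous_subtype_val)
      (fun t => (G2 t x).trans (e t).symm) 0 (by rw [G4]; exact b.symm)) 1
  refine ⟨K 1, by simpa [K0] using Marks.iso_of (c := Z.marks T) K1 adm, G 1, ⟨G2 1, G3 1⟩, K2 1,
    fun i hi w => key _ _ continuous_const rfl fun t => ?_,
    fun c hc e => key _ (fun t => Z.lg q (c t)) ((Z.lg_cont q).comp hc) rfl fun t => ?_⟩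
  · rw [Z.π_lg, K4 t i hi]
  · rw [Z.π_lg, Z.π_lg, K2, e t]

omit [T2Space S] in
theorem ker_germ {f : S ≃ₜ S} {p q : Fin m} (h : f (Z.ctr p) = Z.ctr q) :
    ∃ a φ, Germ a φ ∧ φ 0 = 0 ∧ ∀ z ∈ Metric.ball (0 : ℂ) a, Z.D q (φ z) = f (Z.D p z) := by
  obtain ⟨a, a0, a1⟩ := Metric.isOpen_iff.1 ((Z.emb q).isOpen_range.preimage
    (f.continuous.comp (Z.emb p).continuous)) 0 ⟨0, by
      change Z.D q 0 = f (Z.D p 0)
      rw [Z.D0, Z.D0, h]⟩
  have e : ∀ z ∈ Metric.ball (0 : ℂ) a, Z.D q (Function.invFun (Z.D q) (f (Z.D p z))) = f (Z.D p z) :=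
    fun z hz => Function.invFun_eq (a1 hz)
  refine ⟨a, fun z => Function.invFun (Z.D q) (f (Z.D p z)), ⟨a0, ?_, fun z hz w hw b => ?_,
    fun U hU o => ?_⟩, (Z.emb q).injective ?_, e⟩
  · exact (Z.emb q).isInducing.continuousOn_iff.2
      ((f.continuous.comp (Z.emb p).continuous).continuousOn.congr e)
  · exact (Z.emb p).injective (f.injective
      ((e z hz).symm.trans ((congrArg (Z.D q) b).trans (e w hw))))
  · rw [← (Z.emb q).injective.preimage_image (_ '' U), image_image,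
      image_congr fun z hz => e z (hU hz), ← image_image f]
    exact (f.isOpenMap _ ((Z.emb p).isOpenMap _ o)).preimage (Z.emb q).continuous
  · rw [e 0 (mem_ball_self a0), Z.D0, Z.D0, h]

/-- Deep in the funnel of a marked point a commuting lift can be moved to a deck transformation. -/
theorem ker_deep {f : S ≃ₜ S} (hf : f ∈ (Z.marks T).Adm) {F : X ≃ₜ X} (hF : Y.Lifts Z.π f F 1)
    {p : Fin m} (hp : p ∉ T) :
    ∃ g ∈ (Z.marks T).Iso, ∃ G, Y.Lifts Z.π g G 1 ∧ (∀ i, i ≠ p → ∀ w, G (Z.lg i w) = Z.lg i w) ∧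
      ∃ (r : ℝ) (k : ℤ), ∀ w, w.re ≤ r → G (F (Z.lg p w)) = Y.σ (Z.γ p ^ k) • Z.lg p w := by
  obtain ⟨q, hq, e⟩ := (((Z.mem_adm T).1 hf).1 (Z.ctr p)).2 ⟨p, hp, rfl⟩
  obtain ⟨a, φ, g, φ0, φ1⟩ := Z.ker_germ e.symm
  obtain ⟨H, H1, H2, H3, H4, δ, d0, H5⟩ := local_id g.pos g.cont g.inj g.opn φ0
  obtain ⟨u, u1, G, G1, G2, G3, -⟩ := Z.ker_move T hq H1
    (fun t z hz => H2 t z (by
      rw [mem_closedBall_zero_iff, not_le] at hz
      linarith)) H3 H4
  have m0 : 0 < min δ (a / 2) := lt_min d0 (half_pos g.pos)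
  obtain ⟨r, hr⟩ : ∃ r : ℝ, ∀ w : ℂ, w.re ≤ r →
      ‖Complex.exp w‖ ≤ δ ∧ Complex.exp w ∈ Metric.ball (0 : ℂ) a := ⟨Real.log (min δ (a / 2)),
    fun w hw => by
      have := (Real.le_log_iff_exp_le m0).1 hw
      rw [mem_ball_zero_iff, Complex.norm_exp]
      exact ⟨this.trans (min_le_left _ _),
        (this.trans (min_le_right _ _)).trans_lt (half_lt_self g.pos)⟩⟩
  have L := G1.mul hF
  have key : ∀ j : ℂ → ℂ, Continuous j → (∀ w, w.re ≤ r →
      H 1 (φ (Complex.exp w)) = Complex.exp (j w)) →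
      ∃ d, ∀ w, w.re ≤ r → G (F (Z.lg p w)) = Y.σ d • Z.lg q (j w) := fun j hj h => by
    have e1 : ∀ w, w.re ≤ r → Z.π (G (F (Z.lg p w))) = Z.π (Z.lg q (j w)) := fun w hw => by
      rw [G1.lift, hF.lift, Z.π_lg, Z.π_lg, ← φ1 _ (hr w hw).2, G2, h w hw]
    obtain ⟨d, hd⟩ := (Z.fib _ _).1 (e1 r le_rfl)
    exact ⟨d, (Z.cov T).eqOn_of_eq (convex_halfSpace_re_le r).isPreconnected
      (G.continuous.comp (F.continuous.comp (Z.lg_cont p))).continuousOn
      ((continuous_const_smul (Y.σ d)).comp ((Z.lg_cont q).comp hj)).continuousOn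
      (fun w hw => (e1 w hw).trans (Z.π_smul d _).symm) (a := r) (le_refl r) hd⟩
  have hol : G (F (Z.lg p (r + (2 * Real.pi : ℝ) * Complex.I))) =
      Y.σ (Z.γ p) • G (F (Z.lg p r)) := by
    rw [Z.lg_add]
    exact L.act _ _
  have re1 : ((r : ℂ) + (2 * Real.pi : ℝ) * Complex.I).re ≤ r := by
    simp only [Complex.add_re, Complex.re_ofReal_mul, Complex.I_re, mul_zero, add_zero,
      Complex.ofReal_re, le_refl]
  rcases H5 with b | b
  · obtain ⟨d, hd⟩ := key id continuous_id fun w hw => b _ (hr w hw).1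
    rw [hd _ re1, hd r le_rfl, id, id, Z.lg_add, ← mul_smul, ← mul_smul, ← map_mul,
      ← map_mul] at hol
    obtain ⟨rfl, k, rfl⟩ := Z.ker_alg (Or.inl (eq_mul_inv_of_mul_eq (Y.cancel _ hol).symm))
    exact ⟨u, u1, G, G1, G3, r, k, hd⟩
  · obtain ⟨d, hd⟩ := key conj Complex.continuous_conj fun w hw => by
      rw [b _ (hr w hw).1, Complex.exp_conj]
    have e2 := Z.lg_add q (conj ((r : ℂ) + (2 * Real.pi : ℝ) * Complex.I))
    rw [map_add, map_mul, Complex.conj_ofReal (2 * Real.pi), Complex.conj_I, mul_neg,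
      neg_add_cancel_right, ← inv_smul_eq_iff, ← map_inv] at e2
    rw [hd _ re1, hd r le_rfl, map_add, map_mul, Complex.conj_ofReal (2 * Real.pi), Complex.conj_I,
      mul_neg, ← e2, ← mul_smul, ← mul_smul, ← map_mul, ← map_mul] at hol
    have e3 := eq_mul_inv_of_mul_eq (Y.cancel _ hol).symm
    obtain ⟨rfl, k, rfl⟩ := Z.ker_alg (Or.inr e3)
    exact (Z.ker_ne p (e3.trans (by group))).elim

/-- One more funnel on which the lift is the identity. -/
theorem ker_step {f : S ≃ₜ S} (hf : f ∈ (Z.marks T).Adm) {F : X ≃ₜ X} (hF : Y.Lifts Z.π f F 1)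
    {p : Fin m} (hp : p ∉ T) :
    ∃ g ∈ (Z.marks T).Iso, ∃ g' ∈ (Z.marks T).Iso, ∃ F', Y.Lifts Z.π (g * f * g') F' 1 ∧
      (∀ w, w.re ≤ 0 → F' (Z.lg p w) = Z.lg p w) ∧
      ∀ i, i ≠ p → ∀ w, F (Z.lg i w) = Z.lg i w → F' (Z.lg i w) = Z.lg i w := by
  obtain ⟨g, g1, G, G1, G2, r, k, G3⟩ := Z.ker_deep T hf hF hp
  obtain ⟨τ, t1, t2, t3, t4, t5⟩ := ker_shrink_fam (Real.exp_pos r)
  obtain ⟨u, u1, U, U1, -, U2, U3⟩ := Z.ker_move T hp t1 t2 (fun t => by
    obtain ⟨a, -, -, e⟩ := t4 t 0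
    rw [e, smul_zero]) t3
  obtain ⟨ρ, hρ⟩ := ker_rot_fam (-(k * (2 * Real.pi)))
  have bc := bump_cont
  obtain ⟨v, v1, V, V1, -, V2, V3⟩ := Z.ker_move T hp (k := ρ) (by simp only [hρ]; fun_prop)
    (fun t z hz => by rw [hρ, bump_zero (le_of_lt (by simpa using hz))]; simp)
    (fun t => by rw [hρ, mul_zero]) (Homeomorph.ext fun z => by simp [hρ])
  refine ⟨v * u⁻¹ * g, mul_mem (mul_mem v1 (inv_mem u1)) g1, u, u1, V * U⁻¹ * G * F * U,
    by simpa using (((V1.mul U1.inv).mul G1).mul hF).mul U1, fun w hw => ?_, fun i hi w e => ?_⟩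
  · have n0 : ‖Complex.exp w‖ ≠ 0 := norm_ne_zero_iff.2 (Complex.exp_ne_zero w)
    have n1 : ∀ t, ∃ a, 0 < a ∧ τ t (Complex.exp w) = a • Complex.exp w ∧
        ‖τ t (Complex.exp w)‖ / ‖Complex.exp w‖ = a := fun t => by
      obtain ⟨a, a0, -, e⟩ := t4 t (Complex.exp w)
      exact ⟨a, a0, e, by rw [e, norm_smul, Real.norm_of_nonneg a0.le, mul_div_cancel_right₀ _ n0]⟩
    obtain ⟨c, c1, c2, c3⟩ : ∃ c : ℝ → ℂ, Continuous c ∧ c 0 = w ∧
        ∀ t, Complex.exp (c t) = τ t (Complex.exp w) := by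
      refine ⟨fun t => w + Real.log (‖τ t (Complex.exp w)‖ / ‖Complex.exp w‖),
        continuous_const.add (Complex.continuous_ofReal.comp (Continuous.log
          ((t1.comp (Continuous.prodMk_left _)).norm.div_const _) fun t => ?_)), ?_, fun t => ?_⟩
      · obtain ⟨a, a0, -, e⟩ := n1 t
        exact (e ▸ a0).ne'
      · simp only [t3, Homeomorph.one_apply, div_self n0, Real.log_one, Complex.ofReal_zero,
          add_zero]
      · obtain ⟨a, a0, e, e'⟩ := n1 t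
        dsimp only
        rw [e', e, Complex.exp_add, ← Complex.ofReal_exp, Real.exp_log a0, mul_comm,
          Complex.real_smul]
    have a1 : U (Z.lg p w) = Z.lg p (c 1) := c2 ▸ U3 c c1 (c2 ▸ c3)
    have a2 : (c 1).re ≤ r := by
      rw [← Real.exp_le_exp, ← Complex.norm_exp, c3]
      exact t5 _ (by rwa [Complex.norm_exp, Real.exp_le_one_iff])
    have a3 : U.symm (G (F (U (Z.lg p w)))) = Y.σ (Z.γ p ^ k) • Z.lg p w := by
      rw [U.symm_apply_eq, a1, G3 _ a2, ← a1]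
      exact (U1.act _ _).symm
    change V (U.symm (G (F (U (Z.lg p w))))) = _
    rw [a3, ← Z.lg_zpow]
    have := V3 (fun t => w + (k * (2 * Real.pi) : ℝ) * Complex.I +
      (t * -(k * (2 * Real.pi)) : ℝ) * Complex.I) (by fun_prop) fun t => by
        rw [hρ, bump_one (by
          rw [Complex.norm_exp, Real.exp_le_one_iff]
          simpa only [Complex.add_re, Complex.re_ofReal_mul, Complex.I_re, mul_zero, add_zero]
            using hw), mul_one, Complex.exp_add, mul_comm, zero_mul, Complex.ofReal_zero, zero_mul,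
          add_zero]
    simpa using this
  · change V (U.symm (G (F (U (Z.lg i w))))) = _
    rw [U2 i hi, e, G2 i hi, U.symm_apply_eq.2 (U2 i hi w).symm, V2 i hi]

theorem ker_all {f : S ≃ₜ S} (hf : f ∈ (Z.marks T).Adm) {F : X ≃ₜ X} (hF : Y.Lifts Z.π f F 1)
    (h : ∀ i ∈ T, ∀ w, w.re ≤ 0 → F (Z.lg i w) = Z.lg i w) (s : Finset (Fin m)) :
    ∃ g ∈ (Z.marks T).Iso, ∃ g' ∈ (Z.marks T).Iso, ∃ F', Y.Lifts Z.π (g * f * g') F' 1 ∧
      ∀ i, i ∈ T ∨ i ∈ s → ∀ w, w.re ≤ 0 → F' (Z.lg i w) = Z.lg i w := by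
  induction s using Finset.induction_on with
  | empty => exact ⟨1, one_mem _, 1, one_mem _, F, by simpa using hF, by simpa only [Finset.notMem_empty, or_false] using h⟩
  | insert p s _ ih =>
    obtain ⟨g, g1, g', g2, F', a, b⟩ := ih
    by_cases hp : p ∈ T
    · refine ⟨g, g1, g', g2, F', a, fun i hi => b i ?_⟩
      rcases hi with hi | hi
      · exact Or.inl hi
      · exact (Finset.mem_insert.1 hi).imp_left fun e : i = p => e ▸ hp
    obtain ⟨u, u1, u', u2, F'', c, d, e⟩ := Z.ker_step T (mul_mem (mul_mem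
      ((Z.marks T).iso_le g1) hf) ((Z.marks T).iso_le g2)) a hp
    refine ⟨u * g, mul_mem u1 g1, g' * u', mul_mem g2 u2, F'', by simpa [mul_assoc] using c,
      fun i hi w hw => ?_⟩
    rcases eq_or_ne i p with rfl | n
    · exact d w hw
    · exact e i n w (b i (hi.imp_right fun k => (Finset.mem_insert.1 k).resolve_left n) w hw)

omit [T2Space S] in
theorem ker_desc {A : Type} [TopologicalSpace A] {H : A → X → X}
    (hc : Continuous fun p : A × X => H p.1 p.2) (hH : ∀ t γ x, H t (Y.σ γ • x) = Y.σ γ • H t x)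
    {r : ℝ} (hr : 0 < r) (h : ∀ t i z x, ‖z‖ ≤ r → Z.π x = Z.D i z → Z.π (H t x) = Z.π x) :
    ∃ k : A → S → S, Continuous (fun p : A × S => k p.1 p.2) ∧
      (∀ t x, k t (Z.π x) = Z.π (H t x)) ∧ ∀ t i z, ‖z‖ ≤ r → k t (Z.D i z) = Z.D i z := by
  have e1 : ∀ t x, Function.extend Z.π (Z.π ∘ H t) id (Z.π x) = Z.π (H t x) := fun t x =>
    Function.FactorsThrough.extend_apply (fun a b e => by
      obtain ⟨γ, rfl⟩ := (Z.fib _ _).1 e
      exact (congrArg Z.π (hH t γ b)).trans (Z.π_smul _ _)) id x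
  have e2 : ∀ t i z, ‖z‖ ≤ r → Function.extend Z.π (Z.π ∘ H t) id (Z.D i z) = Z.D i z :=
    fun t i z hz => by
      by_cases a : ∃ x, Z.π x = Z.D i z
      · obtain ⟨x, hx⟩ := a
        rw [← hx, e1, h t i z x hz hx]
      · exact Function.extend_apply' _ _ _ a
  refine ⟨fun t => Function.extend Z.π (Z.π ∘ H t) id, continuous_iff_continuousAt.2 ?_, e1, e2⟩
  rintro ⟨t, s⟩
  by_cases a : ∀ i, s ≠ Z.ctr i
  · obtain ⟨x, rfl⟩ := (Z.rng s).2 a
    have := (IsOpenMap.id.prodMap Z.opn).map_nhds_eq (x := (t, x))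
      (continuous_id.prodMap Z.cont).continuousAt
    rw [ContinuousAt, ← show _ = 𝓝 (t, Z.π x) from this, Filter.tendsto_map'_iff]
    exact ((Z.cont.comp hc).congr (g := fun p : A × X =>
      Function.extend Z.π (Z.π ∘ H p.1) id (Z.π p.2)) fun p => (e1 p.1 p.2).symm).tendsto (t, x)
  · push Not at a
    obtain ⟨i, rfl⟩ := a
    refine continuousAt_snd.congr (Filter.eventually_of_mem (continuousAt_snd.preimage_mem_nhds
      (show Z.D i '' closedBall 0 r ∈ 𝓝 (Z.ctr i) from Z.D0 i ▸ (Z.emb i).isOpenMap.image_mem_nhds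
        (closedBall_mem_nhds 0 hr))) ?_)
    rintro ⟨t', _⟩ ⟨z, hz, rfl⟩
    exact (e2 t' i z (mem_closedBall_zero_iff.1 hz)).symm

/-- An equivariant isotopy that is the identity deep in the funnels descends. -/
theorem ker_descend {H : ℝ → X ≃ₜ X} (hc : Continuous fun p : ℝ × X => H p.1 p.2) {ρ : ℝ}
    (hH : ∀ t, Y.Comm (H t) ∧ Y.Fix ρ (H t)) :
    ∃ r > 0, ∃ k : ℝ → S ≃ₜ S, Continuous (fun p : ℝ × S => k p.1 p.2) ∧
      (∀ t, Y.Lifts Z.π (k t) (H t) 1) ∧ ∀ t i z, ‖z‖ ≤ r → k t (Z.D i z) = Z.D i z := by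
  have p := Z.ε_pos
  have r0 : 0 < Z.ε / (Z.ε + |ρ|) := by positivity
  have fx : ∀ t i z x, ‖z‖ ≤ Z.ε / (Z.ε + |ρ|) → Z.π x = Z.D i z → H t x = x :=
    fun t i z x hz hx => by
      have h0 : z ≠ 0 := fun e => (Z.rng _).1 ⟨x, rfl⟩ i (by rw [hx, e, Z.D0])
      obtain ⟨y, y1, y2⟩ := Z.exists_pt i h0
      obtain ⟨γ, rfl⟩ := (Z.fib _ _).1 (hx.trans y1.symm)
      rw [(hH t).1, (hH t).2 _ (Z.B_per i) y]
      have := inv_anti₀ (norm_pos_iff.2 h0) hz
      rw [inv_div, div_le_iff₀ p] at this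
      rw [y2]
      linarith only [neg_abs_le ρ, this]
  obtain ⟨k, k1, k2, k3⟩ := Z.ker_desc (H := fun t => H t) hc (fun t => (hH t).1) r0
    fun t i z x a b => congrArg Z.π (fx t i z x a b)
  have ex : ∀ t, ∃ K : S ≃ₜ S, ∀ s, K s = k t s := fun t => by
    obtain ⟨l, l1, l2, -⟩ := Z.ker_desc (A := Unit) (H := fun _ => (H t).symm) (by fun_prop)
      (fun _ γ x => (H t).symm_apply_eq.2 (by rw [(hH t).1, Homeomorph.apply_symm_apply])) r0
      fun _ i z x a b => congrArg Z.π ((H t).symm_apply_eq.2 (fx t i z x a b).symm)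
    have c1 : Continuous (k t) := k1.comp (Continuous.prodMk_right t)
    have c2 : Continuous (l ()) := l1.comp (Continuous.prodMk_right ())
    exact ⟨⟨⟨k t, l (), congrFun (Z.ker_dense.equalizer (c2.comp c1) continuous_id
      (funext fun x => by simp [k2, l2])), congrFun (Z.ker_dense.equalizer (c1.comp c2)
        continuous_id (funext fun x => by simp [k2, l2]))⟩, c1, c2⟩, fun _ => rfl⟩
  choose K hK using ex
  exact ⟨_, r0, K, by simpa only [hK] using k1, fun t => ⟨fun x => by rw [hK, k2], (hH t).1⟩,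
    fun t i z hz => by rw [hK, k3 t i z hz]⟩

end Model

theorem Model.ker_adm [T2Space S] (Z : Model Y S m) (T : Finset (Fin m)) {ρ : ℝ} (hb : Y.Baer ρ)
    {f : S ≃ₜ S} (hf : f ∈ (Z.marks T).Adm) {F : X ≃ₜ X} (hF : Y.Lifts Z.π f F 1)
    (h : ∀ i ∈ T, ∀ x, bf (Z.B i) x ≤ 0 → F x = x) : f ∈ (Z.marks T).Iso := by
  obtain ⟨g, g1, g', g2, F', a, b⟩ := Z.ker_all T hf hF
    (fun i hi w hw => h i hi _ (Z.lg_le i hw)) Finset.univ
  obtain ⟨H, H1, H2, H3, H4⟩ := hb F' a.act fun N hN x hx => by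
    obtain ⟨i, γ, rfl⟩ := Z.orb N hN
    obtain ⟨w, w1, w2⟩ := Z.exists_lg i (x := (Y.σ γ)⁻¹ • x)
      (by rwa [← bf_smul (Y.σ γ), smul_inv_smul])
    rw [eq_inv_smul_iff] at w2
    rw [← w2, a.act, b i (Or.inr (Finset.mem_univ i)) w w1]
    rfl
  obtain ⟨r, r0, k, k1, k2, k3⟩ := Z.ker_descend H1 H2
  have ext : ∀ {u v : S ≃ₜ S} {G φ ψ}, Y.Lifts Z.π u G φ → Y.Lifts Z.π v G ψ → u = v := fun c d =>
    Homeomorph.ext (congrFun (Z.ker_dense.equalizer (Homeomorph.continuous _)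
      (Homeomorph.continuous _) (funext fun x => (c.lift x).symm.trans (d.lift x))))
  have := Marks.grow (c := Z.marks T) (mul_mem (mul_mem ((Z.marks T).iso_le g1) hf)
    ((Z.marks T).iso_le g2)) r0 k1 (ext (H3 ▸ k2 0) Fuchs.Lifts.one) (ext (H4 ▸ k2 1) a)
    (fun t x => by
      rw [Z.mem_P, Z.mem_P]
      refine exists_congr fun i => and_congr_right fun _ => ?_
      rw [← Z.D0]
      nth_rewrite 1 [← k3 t i 0 (by simpa only [norm_zero] using r0.le)]
      exact (k t).injective.eq_iff)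
    fun t j z hz => k3 t _ z hz
  simpa [mul_assoc] using mul_mem (mul_mem (inv_mem g1) this) (inv_mem g2)

theorem Model.ker [T2Space S] (Z : Model Y S m) (T : Finset (Fin m)) {ρ : ℝ} (hb : Y.Baer ρ) :
    Z.Ker T := fun f _ hF h => Z.ker_adm T hb f.2.2 hF h

end Pool.Agent.MP_646035_al.MC

end

-- part MP_646035_al.Cx.PolyKer
section

/-!
The kernel of the action of the mapping class group on the group is polynomially small.
-/

namespace Pool.Agent.MP_646035_al.MC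

open Pool.Agent.MP_4a6971_al.H83

variable {Γ : Type} [Group Γ] {Y : Fuchs Γ} {S : Type} [TopologicalSpace S] {m : ℕ}

theorem Model.polyKer (Z : Model Y S m) (T : Finset (Fin m)) (hk : Z.Ker T)
    {j : (Z.marks T).MCG →* OutA (Y.A (Z.marks T) Z.π)}
    (hj : ∀ (f : (Z.marks T).Homeo) F φ (a : Y.Lifts Z.π f.1 F φ),
      j (QuotientGroup.mk f) = QuotientGroup.mk ⟨φ, a.mem_A⟩) : PolyKer j := by
  refine polyKer_of_cover Y (fun x y => eq_comm.trans (Z.fib y x)) (Z.marks T).Homeo.subtype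
    (QuotientGroup.mk'_surjective _) j (fun i : T => Z.B i) (fun i => Z.B_per i) (fun h => ?_)
    (fun i h x hx => ?_) (fun h F φ a e => ?_) fun h F a b => ?_
  · obtain ⟨F, φ, a⟩ := (Z.cov T).exists_lifts h.2.2
    exact ⟨F, φ, a.lift, a.act⟩
  · have p := Z.ε_pos
    obtain ⟨z, a, b⟩ := Z.exists_z i (hx.trans_lt p)
    rw [a]
    exact ((Z.mem_adm T).1 h.2.2).2 i i.2 z (b ▸ (div_le_one (by linarith)).2 (by linarith only [hx]))
  · exact Subgroup.mem_subgroupOf.1 ((QuotientGroup.eq_one_iff _).1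
      ((hj h F φ ⟨a.lift, a.act⟩).symm.trans e))
  · exact (QuotientGroup.eq_one_iff _).2 (hk h F ⟨a.lift, a.act⟩ fun i hi => b ⟨i, hi⟩)

end Pool.Agent.MP_646035_al.MC

end

-- part MP_646035_al.Cx.Plus
section

/-!
Twists as orientation preserving homeomorphisms of the closed surface.
-/

namespace Pool.Agent.MP_646035_al.MC

open Set Topology Filter Pool.Agent.MP_4a6971_al Mcg H66 H83

/-- A homeomorphism that is homotopic to the identity acts trivially on homology. -/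
theorem plus_homotopy {Z : Type} [TopologicalSpace Z] {f : Z ≃ₜ Z} {H : unitInterval × Z → Z}
    (hc : Continuous H) (h0 : ∀ z, H (0, z) = z) (h1 : ∀ z, H (1, z) = f z) (n : ℕ) :
    ActsTrivially n f := by
  let K : TopCat.Homotopy (CategoryTheory.CategoryStruct.id (TopCat.of Z))
      (TopCat.ofHom ⟨f, f.continuous⟩ : TopCat.of Z ⟶ TopCat.of Z) := ⟨⟨H, hc⟩, h0, h1⟩
  exact (K.congr_homologyMap_singularChainComplexFunctor (ModuleCat.of ℤ ℤ) n).symm.trans
    (((AlgebraicTopology.singularHomologyFunctor (ModuleCat.{0} ℤ) n).obj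
      (ModuleCat.of ℤ ℤ)).map_id (TopCat.of Z))

/-- The complement of a point of the sphere is a plane. -/
theorem sphere_chart (p : Surface 0) :
    ∃ e : OpenPartialHomeomorph (Surface 0) ℂ, e.source = {p}ᶜ ∧ e.target = univ := by
  let a : Hyper_C 0 ≃ₜ ℂ :=
    { toFun := fun q => q.1.2
      invFun := fun y => ⟨(y ^ 2, y), by simp⟩
      left_inv := fun q => Subtype.ext (Prod.ext (by simpa using q.2) rfl)
      right_inv := fun _ => rfl
      continuous_toFun := by fun_prop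
      continuous_invFun := by fun_prop }
  let b : Surface 0 ≃ₜ Metric.sphere (0 : EuclideanSpace ℝ (Fin 3)) 1 :=
    a.onePointCongr.trans (onePointEquivSphereOfFinrankEq (by simp))
  have : Fact (Module.finrank ℝ (EuclideanSpace ℝ (Fin 3)) = 2 + 1) := ⟨by simp⟩
  refine ⟨(b.transOpenPartialHomeomorph (stereographic' 2 (b p))).transHomeomorph
    Complex.orthonormalBasisOneI.repr.symm.toHomeomorph, ?_, ?_⟩
  · ext z
    simp
  · simp

theorem plus_sphere {f : Surface 0 ≃ₜ Surface 0} {p : Surface 0} (hf : ∀ᶠ z in 𝓝 p, f z = z)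
    (n : ℕ) : ActsTrivially n f := by
  classical
  obtain ⟨e, hs, ht⟩ := sphere_chart p
  have ms : ∀ z, z ≠ p → z ∈ e.source := fun z h => by rwa [hs]
  have fp : ∀ z, z ≠ p → f z ≠ p := fun z h a => h (f.injective (a.trans hf.self_of_nhds.symm))
  refine plus_homotopy (H := fun q => if q.2 = p then p else
    e.symm ((1 - (q.1 : ℝ)) • e q.2 + (q.1 : ℝ) • e (f q.2))) ?_ (fun z => ?_) (fun z => ?_) n
  · refine continuous_iff_continuousAt.2 fun q => ?_
    by_cases a : q.2 = p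
    · refine continuousAt_snd.congr ((continuousAt_snd.tendsto.eventually (a ▸ hf)).mono
        fun r b => ?_)
      dsimp only
      split_ifs with c
      · exact c
      · rw [b, ← add_smul, sub_add_cancel, one_smul, e.left_inv (ms _ c)]
    · have c : Continuous e.symm := continuousOn_univ.1 (ht ▸ e.continuousOn_symm)
      have c1 : ContinuousAt (fun r : unitInterval × Surface 0 => e r.2) q :=
        (e.continuousAt (ms _ a)).comp continuousAt_snd
      have c2 : ContinuousAt (fun r : unitInterval × Surface 0 => e (f r.2)) q :=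
        (e.continuousAt (ms _ (fp _ a))).comp (f := fun r : unitInterval × Surface 0 => f r.2)
          (by fun_prop)
      have c3 : ContinuousAt (fun r : unitInterval × Surface 0 => (r.1 : ℝ)) q :=
        (continuous_subtype_val.comp continuous_fst).continuousAt
      refine (c.continuousAt.comp (f := fun r : unitInterval × Surface 0 =>
        (1 - (r.1 : ℝ)) • e r.2 + (r.1 : ℝ) • e (f r.2))
        (((continuousAt_const.sub c3).smul c1).add (c3.smul c2))).congr ?_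
      exact (continuousAt_snd.eventually_ne a).mono fun r b => (if_neg b).symm
  · dsimp only
    split_ifs with c
    · exact c.symm
    · simpa only [Icc.coe_zero, sub_zero, one_smul, zero_smul, add_zero] using e.left_inv (ms _ c)
  · dsimp only
    split_ifs with c
    · rw [c, hf.self_of_nhds]
    · simpa only [Icc.coe_one, sub_self, zero_smul, one_smul, zero_add] using e.left_inv (ms _ (fp _ c))

/-- The square of a homeomorphism that is the identity near a point preserves the orientation. -/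
theorem plus_sq {g : ℕ} {f : Surface g ≃ₜ Surface g} {p : Surface g}
    (hf : ∀ᶠ z in 𝓝 p, f z = z) : f * f ∈ HomeoPlus (Surface g) := by
  rcases lt_trichotomy g 1 with h | rfl | h
  · obtain rfl : g = 0 := by omega
    exact (HomeoPlus _).mul_mem (plus_sphere hf 2) (plus_sphere hf 2)
  · exact torus_two f
  · obtain ⟨Y⟩ := exists_poly h
    obtain ⟨e⟩ := surface_iso g
    let _ := MulAction.compHom X Y.σ
    obtain ⟨π, hπ⟩ := exists_cover Y
    exact hom_two h.le hπ e f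

/-- Extension by the identity along an open embedding. -/
theorem plus_ext {B Z : Type} [TopologicalSpace B] [TopologicalSpace Z] [T2Space Z] {j : B → Z}
    (hj : IsOpenEmbedding j) (f : B ≃ₜ B) {K : Set B} (hK : IsCompact K)
    (hf : ∀ b, b ∉ K → f b = b) :
    ∃ h : Z ≃ₜ Z, (∀ b, h (j b) = j (f b)) ∧ ∀ z, z ∉ j '' K → h z = z := by
  have key : ∀ u : B → B, Continuous u → (∀ b, b ∉ K → u b = b) →
      ∃ h : Z → Z, Continuous h ∧ (∀ b, h (j b) = j (u b)) ∧ ∀ z, z ∉ j '' K → h z = z := by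
    intro u hu h
    have a : ∀ b, Function.extend j (j ∘ u) id (j b) = j (u b) := hj.injective.extend_apply _ _
    have c : ∀ z, z ∉ j '' K → Function.extend j (j ∘ u) id z = z := fun z hz => by
      by_cases e : ∃ b, j b = z
      · obtain ⟨b, rfl⟩ := e
        rw [a, h b fun m => hz ⟨b, m, rfl⟩]
      · exact Function.extend_apply' _ _ _ e
    refine ⟨_, continuous_iff_continuousAt.2 fun z => ?_, a, c⟩
    by_cases e : z ∈ j '' K
    · obtain ⟨b, -, rfl⟩ := e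
      rw [← hj.continuousAt_iff]
      exact ((hj.continuous.comp hu).congr fun b => (a b).symm).continuousAt
    · exact continuousAt_id.congr (((hK.image hj.continuous).isClosed.isOpen_compl.eventually_mem
        e).mono fun w m => (c w m).symm)
  obtain ⟨h, h1, h2, h3⟩ := key f f.continuous hf
  obtain ⟨k, k1, k2, k3⟩ := key f.symm f.symm.continuous fun b m => f.symm_apply_eq.2 (hf b m).symm
  refine ⟨⟨⟨h, k, fun z => ?_, fun z => ?_⟩, h1, k1⟩, h2, h3⟩
  · by_cases e : z ∈ j '' K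
    · obtain ⟨b, -, rfl⟩ := e
      rw [h2, k2, f.symm_apply_apply]
    · rw [h3 z e, k3 z e]
  · by_cases e : z ∈ j '' K
    · obtain ⟨b, -, rfl⟩ := e
      rw [k2, h2, f.apply_symm_apply]
    · rw [k3 z e, h3 z e]

/-- For every curve a power of the twist is induced by an element of `c.Homeo`. -/
theorem exists_twist_marks {Γ : Type} [Group Γ] {Y : Fuchs Γ} [MulAction Γ X]
    (hσ : ∀ (γ : Γ) (x : X), γ • x = Y.σ γ • x) {B : Type} [TopologicalSpace B] {π : X → B}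
    (hπ : IsQuotientCoveringMap π Γ) {g : ℕ} {j : B → Surface g} (hj : IsOpenEmbedding j)
    (c : Marks (Surface g))
    (hP : ∀ x, j (π x) ∈ c.P → ∃ N ∈ Y.per, bf N x ≤ 0)
    (hd : ∀ x i z, ‖z‖ ≤ 1 → j (π x) = c.d i z → ∃ N ∈ Y.per, bf N x ≤ 0)
    {E : V} (hE : Y.Curve E) :
    ∃ f ∈ c.Homeo, ∃ (f₀ : B ≃ₜ B) (F : X ≃ₜ X) (φ : MulAut Γ), IsLift π f₀ F φ ∧
      (∀ b, f (j b) = j (f₀ b)) ∧ (∀ z, z ∉ range j → f z = z) ∧ Y.IsTwist E φ := by
  obtain ⟨f, F, φ, K, η, h0, h1, -, h2, h3, h4, h5, h6, -⟩ := exists_twist hσ hπ hE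
  obtain ⟨h, k1, k2⟩ := plus_ext hj f h3 h5
  obtain ⟨b, hb⟩ := (ne_univ_iff_exists_notMem K).1 h4
  have fix : ∀ z, (∀ x, j (π x) = z → ∃ N ∈ Y.per, bf N x ≤ 0) → h z = z := fun z hz => by
    refine k2 z ?_
    rintro ⟨b, m, rfl⟩
    obtain ⟨x, rfl⟩ := hπ.surjective b
    obtain ⟨N, n1, n2⟩ := hz x rfl
    exact h6 N n1 x (n2.trans h0.le) m
  have fP : ∀ z ∈ c.P, h z = z := fun z hz => fix z fun x e => hP x (e ▸ hz)
  have adm : h ∈ c.Adm := ⟨fun z => ⟨fun m => h.injective (fP _ m) ▸ m, fun m => (fP z m).symm ▸ m⟩,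
    fun i z hz => fix _ fun x => hd x i z hz⟩
  refine ⟨h * h, ⟨plus_sq (p := j b) (((h3.image hj.continuous).isClosed.isOpen_compl.eventually_mem
    (hj.injective.mem_set_image.not.2 hb)).mono k2), mul_mem adm adm⟩, f * f, F * F, φ * φ,
    Lift_mul h1 h1, fun b => (congrArg h (k1 b)).trans (k1 _), fun z hz => ?_, h2⟩
  have := k2 z fun m => hz (image_subset_range _ _ m)
  exact (congrArg h this).trans this

end Pool.Agent.MP_646035_al.MC

end

-- part MP_646035_al.Cx.ModA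
section

/-!
The group of automorphisms induced by the homeomorphisms of the marked surface has the properties
`Mod`.
-/

namespace Pool.Agent.MP_646035_al.MC

open Pool.Agent.MP_4a6971_al Pool.Agent.MP_4a6971_al.H66 Pool.Agent.MP_4a6971_al.H83
  Pool.Agent.MP_4a6971_al.Mcg Set Topology

variable {Γ : Type} [Group Γ] {g m : ℕ} {Y : Fuchs Γ}

theorem Cov.twist {c : Marks (Surface g)} {π : X → Surface g} (h : Cov Y c π)
    (hd : ∀ x i z, ‖z‖ ≤ 1 → π x = c.d i z → ∃ N ∈ Y.per, bf N x ≤ 0) {E : V} (hE : Y.Curve E) :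
    ∃ φ ∈ Y.A c π, Y.IsTwist E φ := by
  let _ := MulAction.compHom X Y.σ
  obtain ⟨f, hf, f₀, F, φ, a, b, -, t⟩ := exists_twist_marks (Y := Y) (fun _ _ => rfl) h.quot
    h.isOpen_range.isOpenEmbedding_subtypeVal c (fun x m => (h.not_ctr x (Or.inl m)).elim) hd hE
  exact ⟨φ, ⟨f, hf, F, fun x => (congrArg Subtype.val (a.lift x)).trans (b _).symm, a.act⟩, t⟩

theorem Model.mod (Z : Model Y (Surface g) m) (T : Finset (Fin m)) (hf : Y.Fill) :
    Y.Mod (Y.A (Z.marks T) Z.π) := by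
  refine ⟨(Z.cov T).inn_le, Y.side_A _ _, fun _ => (Z.cov T).twist fun x k z hz e => ?_, hf⟩
  have z0 : z ≠ 0 := by
    rintro rfl
    exact (Z.cov T).not_ctr x (Or.inr ⟨k, e⟩)
  obtain ⟨y, y1, y2⟩ := Z.exists_pt (T.orderEmbOfFin rfl k) z0
  obtain ⟨γ, rfl⟩ := (Z.fib x y).1 (e.trans y1.symm)
  refine ⟨_, Y.per_smul γ _ (Z.B_per (T.orderEmbOfFin rfl k)), ?_⟩
  rw [bf_smul, y2]
  exact mul_nonpos_of_nonneg_of_nonpos Z.ε_pos.le
    (sub_nonpos.2 ((one_le_inv₀ (norm_pos_iff.2 z0)).2 hz))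

end Pool.Agent.MP_646035_al.MC

end

-- part MP_646035_al.Cx.Glue
section

/-!
The topological part: the mapping class group acts on the group of the model.
-/

namespace Pool.Agent.MP_646035_al.MC

open Pool.Agent.MP_4a6971_al Pool.Agent.MP_4a6971_al.H66 Pool.Agent.MP_4a6971_al.H83
  Pool.Agent.MP_4a6971_al.Mcg Set Topology

theorem goalModel : GoalModel := by
  intro g m h
  obtain ⟨Y⟩ : Nonempty (Poly (g + m)) := exists_poly (by omega)
  refine ⟨_, inferInstance, inferInstance, (lay g m h).fuchs Y, lay_ends h Y,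
    ⟨-1, baer_rel _ Y⟩, fun _ hE => Fuchs.fill _ hE, ?_, lay_curve h Y⟩
  rintro ⟨rfl, rfl⟩
  exact lay_pants h Y

theorem PolyKer.comp {M M' G : Type*} [Group M] [Group M'] [Group G] {j : M' →* G} (h : PolyKer j)
    (e : M ≃* M') : PolyKer (j.comp e.toMonoidHom) := by
  classical
  intro s
  obtain ⟨C, d, hC⟩ := h (s.image e)
  refine ⟨C, d, fun n => le_trans (le_of_eq ?_) (hC n)⟩
  rw [← ncard_image_of_injective _ e.injective]
  congr 1
  ext y
  constructor
  · rintro ⟨x, ⟨⟨w, a, b, rfl⟩, c⟩, rfl⟩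
    refine ⟨⟨w.map e, by simpa using a, fun z hz => ?_, (map_list_prod e w).symm⟩, c⟩
    obtain ⟨u, hu, rfl⟩ := List.mem_map.1 hz
    exact (b u hu).imp (Finset.mem_image_of_mem _) fun k => map_inv e u ▸ Finset.mem_image_of_mem _ k
  · rintro ⟨⟨w, a, b, rfl⟩, c⟩
    have k : ∀ z, z ∈ s.image e → e.symm z ∈ s := fun z hz => by
      obtain ⟨u, hu, rfl⟩ := Finset.mem_image.1 hz
      rwa [e.symm_apply_apply]
    refine ⟨e.symm w.prod, ⟨⟨w.map e.symm, by simpa using a, fun z hz => ?_,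
      (map_list_prod e.symm w).symm⟩, ?_⟩, e.apply_symm_apply _⟩
    · obtain ⟨u, hu, rfl⟩ := List.mem_map.1 hz
      exact (b u hu).imp (k _) fun h' => map_inv e.symm u ▸ k _ h'
    · change j (e (e.symm _)) = 1
      rw [e.apply_symm_apply]
      exact c

theorem goalC : GoalC := by
  intro g c hc
  obtain ⟨Γ, _, _, Y, ⟨Z₀⟩, ⟨ρ, hb⟩, hf, hp, hE⟩ := goalModel g (c.P.card + c.b) (by omega)
  obtain ⟨Z, -⟩ := Z₀.exists_model
  obtain ⟨T, -, hT⟩ := Finset.exists_subset_card_eq (s := Finset.univ (α := Fin (c.P.card + c.b)))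
    (n := c.b) (by simp only [Finset.card_univ, Fintype.card_fin, le_add_iff_nonneg_left, zero_le])
  obtain ⟨e⟩ := Marks.mcg_equiv (loc_surface g) c (Z.marks T) (by rw [Z.card_P, hT]; omega) hT.symm
  obtain ⟨j, hs, hj, -⟩ := (Z.cov T).exists_j
  have hA := Z.mod T hf
  exact ⟨Γ, inferInstance, inferInstance, Y, _, j.comp e.toMonoidHom, hA, hs.comp e.surjective,
    (Z.polyKer T (Z.ker T hb) hj).comp e, fun h => Fuchs.finite_out hA (hp h), hE⟩

theorem class4_of_AB (hAB : GoalAB) : Class4 := class4_of hAB goalC goalLow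

end Pool.Agent.MP_646035_al.MC

end

-- part MP_646035_al.Cx.Ext
section

/-!
Subgroups of finite index of the extended mapping class group.
-/

namespace Pool.Agent.MP_646035_al.MC

open Pool.Agent.MP_4a6971_al Pool.Agent.MP_4a6971_al.H66 Pool.Agent.MP_4a6971_al.H83
  Pool.Agent.MP_4a6971_al.Mcg Set Topology

/-- All subgroups of finite index have a well ordered set of growth rates. -/
def WOF (G : Type*) [Group G] : Prop := ∀ H : Subgroup G, H.FiniteIndex → WO H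

section Alg

variable {M G K : Type*} [Group M] [Group G] [Group K]

theorem ext_inj {j : M →* G} (h : Function.Injective j) : PolyKer j := fun S => ⟨1, 0, fun n => by
  rw [(MonoidHom.ker_eq_bot_iff _).2 h]
  exact (Set.ncard_le_ncard inter_subset_right (finite_singleton 1)).trans (by simp)⟩

theorem PolyG.wof (h : PolyG G) : WOF G := fun H _ =>
  WO.of_poly (h.sub H.subtype (q := MonoidHom.id H) Function.surjective_id
    (by rw [Subgroup.ker_subtype]; exact bot_le))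

theorem PolyKer.sub {j : M →* G} (h : PolyKer j) {i : K →* M} (hi : Function.Injective i)
    {L : Type*} [Group L] {k : K →* L} (hk : ∀ x, k x = 1 → j (i x) = 1) : PolyKer k := by
  classical
  intro S
  obtain ⟨C, d, hC⟩ := h (S.image i)
  refine ⟨C, d, fun n => le_trans ?_ (hC n)⟩
  refine Set.ncard_le_ncard_of_injOn i (fun x hx => ⟨?_, hk x hx.2⟩) hi.injOn
    ((ball_finite _ _).subset inter_subset_left)
  rw [ball_map]
  exact ⟨x, hx.1, rfl⟩

theorem WOF.of {j : M →* G} (hj : Function.Surjective j) (h : PolyKer j) (hG : WOF G) : WOF M :=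
  fun H _ => WO.of_polyKer (j.subgroupMap_surjective H)
    (h.sub H.subtype_injective fun _ e => congrArg Subtype.val e)
    (hG _ ⟨fun e => Subgroup.FiniteIndex.index_ne_zero (H := H)
      (Nat.eq_zero_of_zero_dvd (e ▸ H.index_map_dvd hj))⟩)

theorem ext_iso {i : K →* M} {q : K →* G} (hi : Function.Surjective i)
    (hq : Function.Surjective q) (hk : i.ker = q.ker) (h : WOF M) : WOF G := by
  have e := (QuotientGroup.quotientKerEquivOfSurjective q hq).symm.trans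
    ((QuotientGroup.quotientMulEquivOfEq hk.symm).trans
      (QuotientGroup.quotientKerEquivOfSurjective i hi))
  exact h.of (j := e.toMonoidHom) e.surjective (ext_inj e.injective)

end Alg

variable {Γ : Type} [Group Γ] {Y : Fuchs Γ}

theorem Fuchs.IsTwist.pow {E : V} (hE : Y.Curve E) {φ : MulAut Γ} (h : Y.IsTwist E φ) {n : ℕ}
    (hn : n ≠ 0) : Y.IsTwist E (φ ^ n) := by
  obtain ⟨τ, P, Q, t1, t2, hP, hQ, p1, q1, w, a, b⟩ := h
  have hτ : φ τ = τ := a τ fun γ => by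
    have self : 0 < Bf E P * Bf E (Y.σ τ • P) := by
      rw [show Bf E (Y.σ τ • P) = Bf E P by rw [← Bf_isom (Y.σ τ) E P, t2.2]]
      positivity
    by_cases e1 : Y.σ γ • E = E
    · rwa [e1]
    by_cases e2 : Y.σ γ • E = -E
    · simpa only [e2, Bf_neg_left, mul_neg, neg_mul, neg_neg, gt_iff_lt] using self
    have e3 : Y.σ (τ⁻¹ * γ) • E = (Y.σ τ)⁻¹ • Y.σ γ • E := by rw [map_mul, map_inv, mul_smul]
    have w1 := w γ e1 e2
    have w2 := w (τ⁻¹ * γ) (fun e => e1 (by rwa [e3, inv_smul_eq_iff, t2.2] at e))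
      fun e => e2 (by rwa [e3, inv_smul_eq_iff, t2.neg.2] at e)
    have s := hE.simple γ
    have u : Bf (Y.σ γ • E) (Y.σ γ • E) = 1 := by rw [Bf_isom, t2.1]
    rw [e3, Bf_move (Y.σ τ)⁻¹, Bf_move (Y.σ τ)⁻¹, inv_inv] at w2
    generalize Y.σ γ • E = W at *
    obtain ⟨f, t, hf, h0⟩ := (Y.hyp τ t1).fr0 t2
    have hx : H2 (f • P) := hP.smul f
    have hy : H2 (f • Q) := hQ.smul f
    rw [Cr, ← Bf_isom f, h0, Bf_E0] at s
    rw [← Bf_isom f, h0, Bf_E0] at p1 q1
    rw [← Bf_isom f] at u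
    rw [← Bf_isom f W P, ← Bf_isom f W Q] at w1
    rw [← Bf_isom f W (_ • P), ← Bf_isom f W (_ • Q), hf.one, hf.one] at w2
    rw [← Bf_isom f W P, ← Bf_isom f W (_ • P), hf.one]
    have x1 : 0 < -(f • Q).2.1 * (f • P).1 + (f • P).2.1 * (f • Q).1 := by
      linarith only [mul_pos p1 hy.2, mul_pos (neg_pos.2 q1) hx.2]
    have x3 : 0 < -(f • Q).2.1 * (f • P).2.2 + (f • P).2.1 * (f • Q).2.2 := by
      linarith only [mul_pos p1 hy.pos, mul_pos (neg_pos.2 q1) hx.pos]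
    have k1 : -(f • Q).2.1 * Bf (f • W) (f • P) + (f • P).2.1 * Bf (f • W) (f • Q) =
        -((f • W).1 * (-(f • Q).2.1 * (f • P).2.2 + (f • P).2.1 * (f • Q).2.2) +
          (f • W).2.2 * (-(f • Q).2.1 * (f • P).1 + (f • P).2.1 * (f • Q).1)) / 2 := by
      simp only [Bf]
      ring
    have k2 : -(f • Q).2.1 * Bf (f • W) (dil t • f • P) + (f • P).2.1 * Bf (f • W) (dil t • f • Q) =
        -((f • W).1 * ((-(f • Q).2.1 * (f • P).2.2 + (f • P).2.1 * (f • Q).2.2) * Real.exp t) +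
          (f • W).2.2 * ((-(f • Q).2.1 * (f • P).1 + (f • P).2.1 * (f • Q).1) *
            Real.exp (-t))) / 2 := by
      simp only [Bf, dil_smul]
      ring
    have pr : 0 ≤ (f • W).1 * (f • W).2.2 := by
      simp only [Bf] at u
      linarith only [u, s]
    have y3 := mul_pos x3 (Real.exp_pos t)
    have y1 := mul_pos x1 (Real.exp_pos (-t))
    have q2 := neg_pos.2 q1
    generalize (-(f • Q).2.1 * (f • P).2.2 + (f • P).2.1 * (f • Q).2.2) * Real.exp t = c' at *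
    generalize (-(f • Q).2.1 * (f • P).1 + (f • P).2.1 * (f • Q).1) * Real.exp (-t) = a' at *
    generalize -(f • Q).2.1 * (f • P).2.2 + (f • P).2.1 * (f • Q).2.2 = c at *
    generalize -(f • Q).2.1 * (f • P).1 + (f • P).2.1 * (f • Q).1 = a at *
    generalize -(f • Q).2.1 = l at *
    rcases mul_pos_iff.1 w1 with ⟨c1, c2⟩ | ⟨c1, c2⟩ <;>
      rcases mul_pos_iff.1 w2 with ⟨d1, d2⟩ | ⟨d1, d2⟩
    · exact mul_pos c1 d1
    · have := add_pos (mul_pos q2 c1) (mul_pos p1 c2)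
      have := add_neg (mul_neg_of_pos_of_neg q2 d1) (mul_neg_of_pos_of_neg p1 d2)
      rcases mul_nonneg_iff.1 pr with ⟨g1, g2⟩ | ⟨g1, g2⟩ <;> nlinarith
    · have := add_neg (mul_neg_of_pos_of_neg q2 c1) (mul_neg_of_pos_of_neg p1 c2)
      have := add_pos (mul_pos q2 d1) (mul_pos p1 d2)
      rcases mul_nonneg_iff.1 pr with ⟨g1, g2⟩ | ⟨g1, g2⟩ <;> nlinarith
    · exact mul_pos_of_neg_of_neg c1 d1
  refine ⟨τ ^ n, P, Q, fun e => (Y.hyp τ t1).zpow_ne_one (k := n) (by exact_mod_cast hn)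
    (by rw [zpow_natCast, ← map_pow, e, map_one]),
    ⟨t2.1, by rw [map_pow, ← zpow_natCast, t2.zpow]⟩, hP, hQ, p1, q1, w, fun β hβ => ?_,
    fun β hβ => ?_⟩
  · clear hn
    induction n with
    | zero => rfl
    | succ n ih => rw [pow_succ, MulAut.mul_apply, a β hβ, ih]
  · clear hn
    induction n with
    | zero => simp
    | succ n ih =>
      rw [pow_succ', MulAut.mul_apply, ih, map_mul, map_mul, map_inv, map_pow, hτ, b β hβ]
      group

theorem ext_wof (hAB : GoalAB) [Group.FG Γ] {A : Subgroup (MulAut Γ)} (hA : Y.Mod A)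
    (hE : ∃ E, Y.Curve E) : WOF (OutA A) := fun H hH => by
  let A' : Subgroup (MulAut Γ) := (H.comap (QuotientGroup.mk' _)).map A.subtype
  have le : A' ≤ A := Subgroup.map_subtype_le _
  have mem : ∀ φ : A, (QuotientGroup.mk φ : OutA A) ∈ H → φ.1 ∈ A' := fun φ h => ⟨φ, h, rfl⟩
  have hA' : Y.Mod A' := by
    refine ⟨fun φ hφ => mem ⟨φ, hA.inn hφ⟩ ?_, fun φ hφ => hA.side φ (le hφ), fun E e => ?_,
      hA.fill⟩
    · rw [(QuotientGroup.eq_one_iff _).2 (Subgroup.mem_subgroupOf.2 hφ)]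
      exact one_mem _
    · obtain ⟨φ, a, b⟩ := hA.twist E e
      obtain ⟨n, n0, -, hn⟩ := Subgroup.exists_pow_mem_of_index_ne_zero hH.index_ne_zero
        (QuotientGroup.mk (⟨φ, a⟩ : A))
      exact ⟨φ ^ n, mem ((⟨φ, a⟩ : A) ^ n) hn, b.pow e n0.ne'⟩
  let k : A' →* H := ((QuotientGroup.mk' _).comp (Subgroup.inclusion le)).codRestrict H (by
    rintro ⟨_, φ, h, rfl⟩
    exact h)
  refine low_iso (QuotientGroup.mk'_surjective _) (q := k) ?_ ?_ (hAB Γ Y A' hA' hE)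
  · rintro ⟨q, hq⟩
    obtain ⟨φ, rfl⟩ := QuotientGroup.mk_surjective q
    exact ⟨⟨φ.1, mem φ hq⟩, rfl⟩
  · ext φ
    rw [QuotientGroup.ker_mk', MonoidHom.mem_ker, Subtype.ext_iff]
    exact (QuotientGroup.eq_one_iff (N := (Inn Γ).subgroupOf A) (Subgroup.inclusion le φ)).symm

/-- The automorphisms induced by all admissible homeomorphisms. -/
def Fuchs.AX (Y : Fuchs Γ) {B : Type} [TopologicalSpace B] (c : Marks B) (π : X → B) :
    Subgroup (MulAut Γ) where
  carrier := {φ | ∃ f ∈ c.Adm, ∃ F, Y.Lifts π f F φ}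
  one_mem' := ⟨1, one_mem _, 1, Fuchs.Lifts.one⟩
  mul_mem' := fun ⟨_, a, _, b⟩ ⟨_, a', _, b'⟩ => ⟨_, mul_mem a a', _, b.mul b'⟩
  inv_mem' := fun ⟨_, a, _, b⟩ => ⟨_, inv_mem a, _, b.inv⟩

theorem Cov.exists_jX {B : Type} [TopologicalSpace B] {c : Marks B} {π : X → B} (h : Cov Y c π) :
    ∃ j : c.Ext →* OutA (Y.AX c π), Function.Surjective j ∧
      ∀ (f : c.Adm) F φ (a : Y.Lifts π f.1 F φ),
        j (QuotientGroup.mk f) = QuotientGroup.mk ⟨φ, f.1, f.2, F, a⟩ := by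
  have eq : ∀ {f : c.Adm} {F F' φ φ'} (a : Y.Lifts π f.1 F φ) (b : Y.Lifts π f.1 F' φ'),
      (QuotientGroup.mk ⟨φ, f.1, f.2, F, a⟩ : OutA (Y.AX c π)) =
        QuotientGroup.mk ⟨φ', f.1, f.2, F', b⟩ := fun {f F F' φ φ'} a b => by
    obtain ⟨γ, -, e⟩ := h.lifts_uniq a b
    rw [QuotientGroup.eq, Subgroup.mem_subgroupOf]
    refine ⟨φ⁻¹ γ⁻¹, ?_⟩
    have : φ' = (MulAut.conj γ)⁻¹ * φ := by rw [e, inv_mul_cancel_left]
    ext δ
    simp only [MulAut.inv_apply, map_inv, MulAut.conj_symm_apply, this, Subgroup.coe_mul, InvMemClass.coe_inv, MulAut.mul_apply, map_mul, MulEquiv.symm_apply_apply]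
  choose L Φ hL using fun f : c.Adm => h.exists_lifts f.2
  let J : c.Adm →* OutA (Y.AX c π) :=
    MonoidHom.mk' (fun f => QuotientGroup.mk ⟨Φ f, f.1, f.2, _, hL f⟩) fun f f' =>
      eq (hL _) ((hL f).mul (hL f'))
  refine ⟨QuotientGroup.lift _ J ?_, fun q => ?_, fun f F φ a => eq (hL f) a⟩
  · rintro f ⟨H, a, b, e⟩
    obtain ⟨G, -, g1, g2, -⟩ := h.lift_isotopy H a b
    exact eq (hL f) (F' := G 1) (φ' := 1) ⟨fun x => by rw [g1, e], g2 1⟩
  · obtain ⟨⟨φ, f, hf, F, a⟩, rfl⟩ := QuotientGroup.mk_surjective q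
    exact ⟨QuotientGroup.mk ⟨f, hf⟩, eq (f := ⟨f, hf⟩) (hL _) a⟩

variable {S : Type} [TopologicalSpace S] {m : ℕ}

theorem Model.kerX [T2Space S] (Z : Model Y S m) (T : Finset (Fin m)) {ρ : ℝ} (hb : Y.Baer ρ)
    {f : S ≃ₜ S} (hf : f ∈ (Z.marks T).Adm) {F : X ≃ₜ X} (hF : Y.Lifts Z.π f F 1)
    (h : ∀ i ∈ T, ∀ x, bf (Z.B i) x ≤ 0 → F x = x) : f ∈ (Z.marks T).Iso := by
  obtain ⟨g, g1, g', g2, F', a, b⟩ := Z.ker_all T hf hF
    (fun i hi w hw => h i hi _ (Z.lg_le i hw)) Finset.univ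
  obtain ⟨H, H1, H2, H3, H4⟩ := hb F' a.act fun N hN x hx => by
    obtain ⟨i, γ, rfl⟩ := Z.orb N hN
    obtain ⟨w, w1, w2⟩ := Z.exists_lg i (x := (Y.σ γ)⁻¹ • x)
      (by rwa [← bf_smul (Y.σ γ), smul_inv_smul])
    rw [eq_inv_smul_iff] at w2
    rw [← w2, a.act, b i (Or.inr (Finset.mem_univ i)) w w1]
    rfl
  obtain ⟨r, r0, k, k1, k2, k3⟩ := Z.ker_descend H1 H2
  have ext : ∀ {u v : S ≃ₜ S} {G φ ψ}, Y.Lifts Z.π u G φ → Y.Lifts Z.π v G ψ → u = v := fun c d =>
    Homeomorph.ext (congrFun (Z.ker_dense.equalizer (Homeomorph.continuous _)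
      (Homeomorph.continuous _) (funext fun x => (c.lift x).symm.trans (d.lift x))))
  have := Marks.grow (c := Z.marks T) (mul_mem (mul_mem ((Z.marks T).iso_le g1) hf)
    ((Z.marks T).iso_le g2)) r0 k1 (ext (H3 ▸ k2 0) Fuchs.Lifts.one) (ext (H4 ▸ k2 1) a)
    (fun t x => by
      rw [Z.mem_P, Z.mem_P]
      refine exists_congr fun i => and_congr_right fun _ => ?_
      rw [← Z.D0]
      nth_rewrite 1 [← k3 t i 0 (by simpa only [norm_zero] using r0.le)]
      exact (k t).injective.eq_iff)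
    fun t j z hz => k3 t _ z hz
  simpa [mul_assoc] using mul_mem (mul_mem (inv_mem g1) this) (inv_mem g2)

theorem Model.extX [T2Space S] (Z : Model Y S m) (T : Finset (Fin m)) {ρ : ℝ} (hb : Y.Baer ρ)
    (hA : Y.Mod (Y.A (Z.marks T) Z.π)) : ∃ (A : Subgroup (MulAut Γ))
      (j : (Z.marks T).Ext →* OutA A), Y.Mod A ∧ Function.Surjective j ∧ PolyKer j := by
  obtain ⟨j, hs, hj⟩ := (Z.cov T).exists_jX
  have le : Y.A (Z.marks T) Z.π ≤ Y.AX (Z.marks T) Z.π := fun _ ⟨f, a, b⟩ => ⟨f, a.2, b⟩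
  refine ⟨_, j, ⟨hA.inn.trans le, fun _ ⟨_, _, _, a⟩ _ _ _ => a.side,
    fun E e => (hA.twist E e).imp fun _ a => ⟨le a.1, a.2⟩, hA.fill⟩, hs, ?_⟩
  refine polyKer_of_cover Y (fun x y => eq_comm.trans (Z.fib y x)) (Z.marks T).Adm.subtype
    (QuotientGroup.mk'_surjective _) j (fun i : T => Z.B i) (fun i => Z.B_per i) (fun h => ?_)
    (fun i h x hx => ?_) (fun h F φ a e => ?_) fun h F a b => ?_
  · obtain ⟨F, φ, a⟩ := (Z.cov T).exists_lifts h.2
    exact ⟨F, φ, a.lift, a.act⟩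
  · have p := Z.ε_pos
    obtain ⟨z, a, b⟩ := Z.exists_z i (hx.trans_lt p)
    rw [a]
    exact ((Z.mem_adm T).1 h.2).2 i i.2 z (b ▸ (div_le_one (by linarith only [hx, p])).2 (by linarith only [hx]))
  · exact Subgroup.mem_subgroupOf.1 ((QuotientGroup.eq_one_iff _).1
      ((hj h F φ ⟨a.lift, a.act⟩).symm.trans e))
  · exact (QuotientGroup.eq_one_iff _).2
      (Z.kerX T hb h.2 ⟨a.lift, a.act⟩ fun i hi => b ⟨i, hi⟩)

theorem Marks.ext_equiv [T2Space S] [PreconnectedSpace S] (hX : Loc S) (c c' : Marks S)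
    (hP : c.P.card = c'.P.card) (hb : c.b = c'.b) : Nonempty (c.Ext ≃* c'.Ext) := by
  obtain ⟨h, -, e1, e2⟩ := Marks.std hX c c' (Finset.equivOfCardEq hP) (finCongr hb)
  have k : ∀ x, h x ∈ c'.P ↔ x ∈ c.P := fun x => by
    refine ⟨fun m => ?_, fun m => e1 ⟨x, m⟩ ▸ Subtype.prop _⟩
    obtain ⟨p, hp⟩ := (Finset.equivOfCardEq hP).surjective ⟨_, m⟩
    have := e1 p
    rw [hp] at this
    exact h.injective this ▸ p.2
  have hA : ∀ f ∈ c.Adm, h * f * h⁻¹ ∈ c'.Adm := fun f => Marks.conj_adm k fun i z hz => by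
    obtain ⟨j, rfl⟩ := (finCongr hb).surjective i
    obtain ⟨_, ⟨w, hw, rfl⟩, e⟩ := (e2 j).ge ⟨z, mem_closedBall_zero_iff.2 hz, rfl⟩
    exact ⟨j, w, mem_closedBall_zero_iff.1 hw, e⟩
  have hA' : ∀ f ∈ c'.Adm, h⁻¹ * f * h⁻¹⁻¹ ∈ c.Adm := fun f =>
    Marks.conj_adm (c := c') (c' := c) (h := h⁻¹) (fun x => by
      rw [← k]
      exact Iff.of_eq (congrArg (· ∈ c'.P) (h.apply_symm_apply x))) fun i z hz => by
        obtain ⟨w, hw, e⟩ := (e2 i).le ⟨_, ⟨z, mem_closedBall_zero_iff.2 hz, rfl⟩, rfl⟩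
        exact ⟨_, w, mem_closedBall_zero_iff.1 hw, h.symm_apply_eq.2 e⟩
  have z : ∀ {c c' : Marks S} {h : S ≃ₜ S}, (∀ f ∈ c.Adm, h * f * h⁻¹ ∈ c'.Adm) →
      ∀ {f : c.Adm} {f' : c'.Adm}, f'.1 = h * f.1 * h⁻¹ → f ∈ c.ZeroX → f' ∈ c'.ZeroX := by
    rintro c c' h hA f f' e ⟨H, a, b, k⟩
    refine ⟨⟨fun p => h (H (p.1, h.symm p.2)), by fun_prop⟩, fun t => ?_, fun x => ?_, fun x => ?_⟩
    · obtain ⟨u, u1, u2⟩ := a t
      exact ⟨h * u * h⁻¹, hA u u1, fun x => congrArg h (u2 _)⟩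
    · simp [b]
    · rw [e]
      exact congrArg h (k _)
  let ε : c.Adm ≃* c'.Adm :=
    { toFun := fun f => ⟨h * f.1 * h⁻¹, hA _ f.2⟩
      invFun := fun f => ⟨h⁻¹ * f.1 * h⁻¹⁻¹, hA' _ f.2⟩
      left_inv := fun f => Subtype.ext (by simp only; group)
      right_inv := fun f => Subtype.ext (by simp only; group)
      map_mul' := fun f g => Subtype.ext (by simp only [Subgroup.coe_mul]; group) }
  refine ⟨QuotientGroup.congr c.ZeroX c'.ZeroX ε
    (le_antisymm ?_ fun f hf => ⟨ε.symm f, z hA' rfl hf, ε.apply_symm_apply f⟩)⟩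
  rintro _ ⟨f, hf, rfl⟩
  exact z hA rfl hf

theorem ext_link [T1Space S] {c c' : Marks S} {q : S} (hq : q ∈ c'.P)
    (hA : ∀ f : S ≃ₜ S, f q = q → (f ∈ c'.Adm ↔ f ∈ c.Adm))
    (hs : ∀ f ∈ c.Adm, c.Slide (f q) q) :
    ∃ (H : Subgroup c.Adm) (i : H →* c'.Ext) (k : H →* c.Ext), Function.Surjective k ∧
      i.ker ≤ k.ker ∧ ((∀ f ∈ c'.Adm, f q = q) → Function.Surjective i) ∧
      ((∀ K : C(unitInterval × S, S), (∀ t, ∃ h ∈ c.Adm, ∀ x, K (t, x) = h x) →
        (∀ x, K (0, x) = x) → K (1, q) = q → ∃ K' : C(unitInterval × S, S),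
          (∀ t, ∃ h ∈ c.Adm, h q = q ∧ ∀ x, K' (t, x) = h x) ∧ (∀ x, K' (0, x) = x) ∧
            ∀ x, K' (1, x) = K (1, x)) → k.ker ≤ i.ker) := by
  let H : Subgroup c.Adm :=
    { carrier := {f | f.1 q = q}
      one_mem' := rfl
      mul_mem' := fun {f g} a b => (congrArg f.1 b).trans a
      inv_mem' := fun {f} a => f.1.symm_apply_eq.2 a.symm }
  let ι : H →* c'.Adm := MonoidHom.mk' (fun f => ⟨f.1.1, (hA _ f.2).2 f.1.2⟩) fun _ _ => rfl
  refine ⟨H, (QuotientGroup.mk' _).comp ι, (QuotientGroup.mk' _).comp H.subtype, fun y => ?_,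
    fun f hf => ?_, fun h y => ?_, fun h f hf => ?_⟩
  · obtain ⟨f, rfl⟩ := QuotientGroup.mk_surjective y
    obtain ⟨K, k1, k2, k3⟩ := hs f.1 f.2
    obtain ⟨u, u1, u2⟩ := k1 1
    have hu : (⟨u, u1⟩ : c.Adm) ∈ c.ZeroX := ⟨K, k1, k2, u2⟩
    refine ⟨⟨⟨u, u1⟩ * f, (u2 _).symm.trans k3⟩, ?_⟩
    change QuotientGroup.mk (_ * f) = _
    rw [QuotientGroup.mk_mul, (QuotientGroup.eq_one_iff _).2 hu, one_mul]
  · obtain ⟨K, k1, k2, k3⟩ := (QuotientGroup.eq_one_iff (ι f)).1 hf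
    refine (QuotientGroup.eq_one_iff f.1).2 ⟨K, fun t => ?_, k2, k3⟩
    obtain ⟨u, u1, u2⟩ := k1 t
    have e : K (t, q) = K (0, q) := isPreconnected_univ.constant_of_mapsTo
      c'.P.finite_toSet.isDiscrete (f := fun t => K (t, q)) (by fun_prop) (fun r _ => by
        obtain ⟨v, v1, v2⟩ := k1 r
        exact mem_of_eq_of_mem (v2 q) ((v1.1 q).2 hq)) trivial trivial
    exact ⟨u, (hA u (by rw [← u2, e, k2])).1 u1, u2⟩
  · obtain ⟨f, rfl⟩ := QuotientGroup.mk_surjective y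
    exact ⟨⟨⟨f.1, (hA _ (h _ f.2)).1 f.2⟩, h _ f.2⟩, rfl⟩
  · obtain ⟨K, k1, k2, k3⟩ := (QuotientGroup.eq_one_iff f.1).1 hf
    obtain ⟨K', l1, l2, l3⟩ := h K k1 k2 ((k3 q).trans f.2)
    refine (QuotientGroup.eq_one_iff (ι f)).2 ⟨K', fun t => ?_, l2, fun x => (l3 x).trans (k3 x)⟩
    obtain ⟨u, u1, u2, u3⟩ := l1 t
    exact ⟨u, (hA u u2).2 u1, u3⟩

/-- The goal of part C for the extended group. -/
def GoalCX : Prop :=
  ∀ (g : ℕ) (c : Marks (Surface g)), 3 ≤ 2 * g + c.P.card + c.b →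
    ∃ (Γ : Type) (_ : Group Γ) (_ : Group.FG Γ) (Y : Fuchs Γ) (A : Subgroup (MulAut Γ))
      (j : c.Ext →* OutA A), Y.Mod A ∧ Function.Surjective j ∧ PolyKer j ∧
        (g = 0 ∧ c.P.card + c.b = 3 → Finite (OutA A)) ∧
        (¬ (g = 0 ∧ c.P.card + c.b = 3) → ∃ E, Y.Curve E)

theorem ext_sphere (hC : GoalCX) (k : ℕ) :
    ∀ c : Marks (Surface 0), c.P.card + c.b + k = 3 → PolyG c.Ext := by
  have := low_infinite 0
  induction k with
  | zero =>
    intro c hc
    obtain ⟨Γ, _, _, Y, A, j, -, -, h1, h2, -⟩ := hC 0 c (by omega)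
    have := h2 ⟨rfl, hc⟩
    exact low_finite h1
  | succ k ih =>
    intro c hc
    obtain ⟨c', q, h1, h2, h3, h4, h5, h6⟩ := low_add c
    obtain ⟨H, i, j, a, b, -⟩ := ext_link ((h3 q).2 (Or.inl rfl)) h6 fun f hf => by
      obtain ⟨u, ⟨K, k1, k2, k3⟩, -, e⟩ := c.slide (loc_surface 0) (x := f q) (y := q)
        ⟨fun e => h4 ((hf.1 q).1 e),
          fun i z hz e => h5 i z hz (f.injective ((hf.2 i z hz).trans e))⟩ ⟨h4, h5⟩
      exact ⟨K, k1, k2, (k3 _).trans e⟩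
    exact (ih c' (by omega)).sub i a b

theorem ext_torus (hAB : GoalAB) (hC : GoalCX) (c : Marks (Surface 1)) (hc : c.P.card + c.b = 0) :
    WOF c.Ext := by
  have := low_infinite 1
  obtain ⟨e⟩ := torus_homeo
  obtain ⟨c', q, h1, h2, h3, -, -, h6⟩ := low_add c
  have hP : c.P = ∅ := Finset.card_eq_zero.1 (by omega)
  have all : ∀ f, f ∈ c.Adm := fun f =>
    ⟨fun x => by simp [hP], fun i => absurd i.2 (by omega)⟩
  let τ : Circle × Circle → Surface 1 ≃ₜ Surface 1 := fun u =>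
    e.symm.trans ((Homeomorph.mulLeft u).trans e)
  obtain ⟨H, i, j, a, b, a', b'⟩ := ext_link ((h3 q).2 (Or.inl rfl)) h6 fun f _ => by
    let γ := PathConnectedSpace.somePath 1 (e.symm q / e.symm (f q))
    exact ⟨⟨fun p => e (γ p.1 * e.symm p.2), by fun_prop⟩, fun t => ⟨τ (γ t), all _, fun _ => rfl⟩,
      fun x => by simp only [ContinuousMap.coe_mk, Path.source, one_mul, Homeomorph.apply_symm_apply], by simp only [ContinuousMap.coe_mk, Path.target, div_mul_cancel, Homeomorph.apply_symm_apply]⟩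
  obtain ⟨Γ, _, _, Y, A, l, l1, l2, l3, -, l4⟩ := hC 1 c' (by omega)
  refine ext_iso (a' fun f hf => ?_) a (le_antisymm b (b' fun K k1 k2 k3 => ?_))
    ((ext_wof hAB l1 (l4 (by omega))).of l2 l3)
  · simpa [hP] using (h3 _).1 ((hf.1 q).2 ((h3 q).2 (Or.inl rfl)))
  · refine ⟨⟨fun p => e (e.symm q / e.symm (K (p.1, q)) * e.symm (K p)), by fun_prop⟩,
      fun t => ?_, fun x => by simp only [ContinuousMap.coe_mk, k2, div_self', one_mul, Homeomorph.apply_symm_apply], fun x => by simp [k3]⟩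
    obtain ⟨u, -, u2⟩ := k1 t
    refine ⟨τ (e.symm q / e.symm (u q)) * u, all _, by simp [τ], fun x => ?_⟩
    simp only [ContinuousMap.coe_mk, u2]
    rfl

/-- The subgroups of finite index of the extended mapping class groups. -/
theorem class4x_of (hAB : GoalAB) (hC : GoalCX) (g : ℕ) (c : Marks (Surface g)) : WOF c.Ext := by
  by_cases e : g = 0 ∧ c.P.card + c.b ≤ 3
  · obtain ⟨rfl, e⟩ := e
    exact (ext_sphere hC (3 - (c.P.card + c.b)) c (by omega)).wof
  by_cases h : 2 * g + c.P.card + c.b < 3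
  · obtain rfl : g = 1 := by omega
    exact ext_torus hAB hC c (by omega)
  obtain ⟨Γ, _, _, Y, A, j, l1, l2, l3, -, l5⟩ := hC g c (not_lt.1 h)
  exact (ext_wof hAB l1 (l5 (by omega))).of l2 l3

theorem goalCX_of (h : ∀ g m : ℕ, 3 ≤ 2 * g + m →
    ∃ (Γ : Type) (_ : Group Γ) (_ : Group.FG Γ) (Y : Fuchs Γ) (Z : Model Y (Surface g) m),
      (∃ ρ, Y.Baer ρ) ∧ (∀ T, Y.Mod (Y.A (Z.marks T) Z.π)) ∧
      (g = 0 ∧ m = 3 → ∀ A, Y.Mod A → Finite (OutA A)) ∧ (¬ (g = 0 ∧ m = 3) → ∃ E, Y.Curve E)) :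
    GoalCX := by
  intro g c hc
  obtain ⟨Γ, _, _, Y, Z, ⟨ρ, hb⟩, hA, hp, hE⟩ := h g (c.P.card + c.b) (by omega)
  obtain ⟨T, -, hT⟩ := Finset.exists_subset_card_eq (s := Finset.univ (α := Fin (c.P.card + c.b)))
    (n := c.b) (by simp only [Finset.card_univ, Fintype.card_fin, le_add_iff_nonneg_left, zero_le])
  obtain ⟨e⟩ := Marks.ext_equiv (loc_surface g) c (Z.marks T) (by rw [Z.card_P, hT]; omega) hT.symm
  obtain ⟨A, j, a1, a2, a3⟩ := Z.extX T hb (hA T)
  exact ⟨Γ, inferInstance, inferInstance, Y, A, j.comp e.toMonoidHom, a1, a2.comp e.surjective,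
    a3.sub (i := e.toMonoidHom) e.injective fun _ e => e, fun h => hp h A a1, hE⟩

theorem goalCX : GoalCX := goalCX_of fun g m h => by
  obtain ⟨Γ, _, _, Y, ⟨Z₀⟩, hb, hf, hp, hE⟩ := goalModel g m h
  obtain ⟨Z, -⟩ := Z₀.exists_model
  exact ⟨Γ, inferInstance, inferInstance, Y, Z, hb, fun T => Z.mod T hf,
    fun e _ hA => Fuchs.finite_out hA (hp e), hE⟩

/-- Part four for the subgroups of finite index of the extended group. -/
theorem class4x_of_AB (hAB : GoalAB) (g : ℕ) (c : Marks (Surface g)) : WOF c.Ext :=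
  class4x_of hAB goalCX g c

end Pool.Agent.MP_646035_al.MC

end

-- part MP_646035_al.Bx.Glue
section

/-!
The combinatorial part: the growth rates of the group of outer automorphisms are well ordered.
-/

namespace Pool.Agent.MP_646035_al.MC

open Pool.Agent.MP_4a6971_al.H66 H84

theorem goalAB : GoalAB := by
  intro Γ _ _ Y A hA h
  obtain ⟨ξ, C0, H⟩ := Y.ax fun a => by
    obtain ⟨E, hE⟩ := a.nonempty
    obtain ⟨F, hF, c⟩ := hA.fill E (a.curve hE)
    exact ⟨Fu.mk hF, Fu.i_ne_zero hE (Fu.mem_mk hF) c⟩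
  obtain ⟨K, d, δ, hK, D, hy⟩ := Y.hypC h
  obtain ⟨_, G⟩ := Y.axG hA h
  obtain ⟨Z, z1, z2⟩ := Y.en hA
  obtain ⟨c, N, hc⟩ := D.mi (hy _ G.inv) H G hK
  refine H24.wo_of_en z1 z2 (c := c) (K := 4 * N) (d := 1) fun S hS R r => ?_
  have e : ∀ n, (ball S n).ncard = (ball_finite S n).toFinset.card := fun n =>
    Set.ncard_eq_toFinset_card _ _
  rw [e, e, e]
  refine hc S hS r _ _ _ (fun y hy => by simpa using hy) fun x hx z hz y hy => ?_
  rw [Set.Finite.mem_toFinset] at *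
  exact ball_mono S (by omega) (mul_mem_ball (mul_mem_ball hx hz) hy)

end Pool.Agent.MP_646035_al.MC

end

-- part MP_646035_al.MC.Final
section

/-!
The fourth class.
-/

namespace Pool.Agent.MP_646035_al.MC

open Pool.Agent.MP_4a6971_al.Mcg

theorem class4 : Class4 := class4_of_AB goalAB

theorem class4x (g : ℕ) (c : Marks (Surface g)) (H : Subgroup c.Ext) (h : H.FiniteIndex) : WO H :=
  class4x_of_AB goalAB g c H h

end Pool.Agent.MP_646035_al.MC

end

-- part MP_646035_al.NO.Cross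
section

/-!
The space with cross caps is a connected Hausdorff surface that depends only on the number of discs.
-/

namespace Pool.Agent.MP_646035_al.MC

open Set Topology Metric Complex Pool.Agent.MP_4a6971_al.H83
open scoped ComplexConjugate

variable {X : Type} [TopologicalSpace X] (k : Marks X)

/-- The quotient map. -/
def Marks.cl (x : k.Cut) : k.Cross := Quot.mk _ x

theorem Marks.cl_cont : Continuous k.cl := continuous_quot_mk

theorem Marks.cl_surj : Function.Surjective k.cl := Quot.mk_surjective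

theorem Marks.cl_quot : IsQuotientMap k.cl := isQuotientMap_quot_mk

theorem Marks.Anti.symm {k : Marks X} {x y : k.Cut} (h : k.Anti x y) : k.Anti y x :=
  let ⟨i, z, a, b, c⟩ := h
  ⟨i, -z, by rwa [norm_neg], c, by rwa [neg_neg]⟩

theorem Marks.Anti.trans {k : Marks X} {x y u : k.Cut} (h : k.Anti x y) (h' : k.Anti y u) :
    x = u := by
  obtain ⟨i, z, -, b, c⟩ := h
  obtain ⟨j, w, -, b', c'⟩ := h'
  obtain rfl := k.disj _ _ _ _ (c.symm.trans b')
  rw [← (k.emb i).injective (c.symm.trans b'), neg_neg] at c'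
  exact Subtype.ext (b.trans c'.symm)

theorem Marks.cl_eq {x y : k.Cut} : k.cl x = k.cl y ↔ x = y ∨ k.Anti x y := by
  refine ⟨fun h => ?_, fun h => h.elim (congrArg _) fun a => Quot.sound a⟩
  induction Quot.eqvGen_exact h with
  | rel _ _ a => exact Or.inr a
  | refl => exact Or.inl rfl
  | symm _ _ e a => exact (a (Quot.eqvGen_sound e)).imp Eq.symm Marks.Anti.symm
  | trans _ _ _ e e' a b =>
    rcases a (Quot.eqvGen_sound e) with rfl | a
    · exact b (Quot.eqvGen_sound e')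
    · rcases b (Quot.eqvGen_sound e') with rfl | b
      · exact Or.inr a
      · exact Or.inl (a.trans b)

/-- A point of a chart outside the open disc. -/
def Marks.pt (i : Fin k.b) (z : ℂ) (h : 1 ≤ ‖z‖) : k.Cut :=
  ⟨k.d i z, fun j w hw e => by
    obtain rfl := k.disj _ _ _ _ e
    rw [(k.emb j).injective e] at hw
    exact hw.not_ge h⟩

theorem Marks.cl_pt {i : Fin k.b} {z : ℂ} {h : 1 ≤ ‖z‖} {x : k.Cut} :
    k.cl x = k.cl (k.pt i z h) ↔ x.1 = k.d i z ∨ ‖z‖ = 1 ∧ x.1 = k.d i (-z) := by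
  rw [k.cl_eq]
  refine or_congr Subtype.ext_iff ⟨?_, fun a => ⟨i, -z, by rw [norm_neg, a.1], a.2, by
    rw [neg_neg]; rfl⟩⟩
  rintro ⟨j, w, a, b, c⟩
  obtain rfl := k.disj _ _ _ _ c
  rw [(k.emb i).injective c, neg_neg, norm_neg]
  exact ⟨a, b⟩

instance [T2Space X] : T2Space k.Cut := instT2SpaceSubtype

theorem Marks.cl_proper [T2Space X] : IsProperMap k.cl := by
  refine isProperMap_iff_isClosedMap_and_compact_fibers.2 ⟨k.cl_cont, fun C hC => ?_, fun y => ?_⟩
  · let a : Fin k.b → sphere (0 : ℂ) 1 → k.Cut := fun i z =>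
      k.pt i z (mem_sphere_zero_iff_norm.1 z.2).ge
    have ha : ∀ i, Continuous (a i) := fun i =>
      ((k.emb i).continuous.comp continuous_subtype_val).subtype_mk _
    have : k.cl ⁻¹' (k.cl '' C) = C ∪ ⋃ i, a i '' {z | a i (-z) ∈ C} := by
      ext x
      simp only [mem_preimage, mem_image, mem_union, mem_iUnion, k.cl_eq]
      constructor
      · rintro ⟨y, hy, rfl | ⟨i, z, e1, e2, e3⟩⟩
        · exact Or.inl hy
        · let u : sphere (0 : ℂ) 1 := ⟨z, mem_sphere_zero_iff_norm.2 e1⟩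
          refine Or.inr ⟨i, -u, ?_, Subtype.ext e3.symm⟩
          rw [mem_ofPred_eq, neg_neg, show a i u = y from Subtype.ext e2.symm]
          exact hy
      · rintro (h | ⟨i, z, h, rfl⟩)
        · exact ⟨x, h, Or.inl rfl⟩
        · exact ⟨_, h, Or.inr (Marks.Anti.symm ⟨i, z, mem_sphere_zero_iff_norm.1 z.2, rfl, rfl⟩)⟩
    rw [← k.cl_quot.isClosed_preimage, this]
    exact hC.union (isClosed_iUnion_of_finite fun i =>
      ((hC.preimage ((ha i).comp continuous_neg)).isCompact.image (ha i)).isClosed)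
  · obtain ⟨x, rfl⟩ := k.cl_surj y
    refine Finite.isCompact ?_
    refine ((finite_singleton x).union (Subsingleton.finite (s := {y | k.Anti y x})
      fun u a v b => Marks.Anti.trans a (Marks.Anti.symm b))).subset fun y hy => k.cl_eq.1 hy

instance [T2Space X] : T2Space k.Cross := by
  refine t2_iff_isClosed_diagonal.2 ?_
  have := (k.cl_proper.prodMap k.cl_proper).isClosedMap _
    (isClosed_diagonal (X := k.Cut))
  convert this using 1
  ext ⟨x, y⟩
  constructor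
  · rintro (rfl : x = y)
    obtain ⟨u, rfl⟩ := k.cl_surj x
    exact ⟨(u, u), rfl, rfl⟩
  · rintro ⟨⟨u, v⟩, (rfl : u = v), e⟩
    exact e ▸ rfl

instance [CompactSpace X] : CompactSpace k.Cross := by
  have : IsClosed {x : X | ∀ i z, ‖z‖ < 1 → k.d i z ≠ x} := by
    rw [← isOpen_compl_iff, show {x : X | ∀ i z, ‖z‖ < 1 → k.d i z ≠ x}ᶜ =
      ⋃ i, k.d i '' Metric.ball 0 1 from by ext x; simp]
    exact isOpen_iUnion fun i => (k.emb i).isOpenMap _ isOpen_ball
  have : CompactSpace k.Cut := isCompact_iff_compactSpace.1 this.isCompact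
  exact Quot.compactSpace

/-- The same discs without marked points. -/
def Marks.bare : Marks X := ⟨∅, k.b, k.d, k.emb, k.disj, fun _ _ => Finset.notMem_empty _⟩

theorem Marks.cross_conn [T2Space X] [PreconnectedSpace X] (hX : Loc X) :
    PreconnectedSpace k.Cross := by
  have h : IsPreconnected {x : X | ∀ i z, ‖z‖ < 1 → k.d i z ≠ x} := by
    refine (k.bare.free_open_conn hX).2.subset_closure (fun x hx i z hz => hx.2 i z hz.le)
      fun x hx => ?_
    by_cases m : x ∈ k.bare.free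
    · exact subset_closure m
    obtain ⟨i, z, a, rfl⟩ : ∃ i z, ‖z‖ ≤ 1 ∧ k.d i z = x := by
      by_contra c
      exact m ⟨Finset.notMem_empty _, fun i z hz e => c ⟨i, z, hz, e⟩⟩
    have b : ‖z‖ = 1 := a.antisymm (not_lt.1 fun c => hx i z c rfl)
    have c : ContinuousWithinAt (fun t : ℝ => k.d i (t • z)) (Ioi 1) 1 :=
      ((k.emb i).continuous.comp (by fun_prop)).continuousWithinAt
    have := c.mem_closure (t := k.bare.free) (by simp) fun t ht =>
      ⟨Finset.notMem_empty _, fun j w hw e => by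
        obtain rfl := k.disj _ _ _ _ e
        rw [(k.emb j).injective e, norm_smul, b, mul_one, Real.norm_eq_abs] at hw
        exact (ht.trans_le ((le_abs_self t).trans hw)).false⟩
    simpa only [one_smul] using this
  have : PreconnectedSpace k.Cut := Subtype.preconnectedSpace h
  exact ⟨k.cl_surj.range_eq ▸ isPreconnected_range k.cl_cont⟩

/-- The point outside the disc with polar coordinates `|re w|`, `im w`. -/
noncomputable def crossA (w : ℂ) : ℂ := exp ((|w.re| : ℝ) + w.im * I)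

theorem crossA_norm (w : ℂ) : ‖crossA w‖ = Real.exp |w.re| := by
  simp [crossA, norm_exp]

theorem crossA_one (w : ℂ) : 1 ≤ ‖crossA w‖ := by
  rw [crossA_norm]
  exact Real.one_le_exp (abs_nonneg _)

theorem crossA_eq {w : ℂ} : ‖crossA w‖ = 1 ↔ w.re = 0 := by
  rw [crossA_norm, Real.exp_eq_one_iff, abs_eq_zero]

theorem crossA_pos {w : ℂ} (h : 0 ≤ w.re) : crossA w = exp w := by
  rw [crossA, abs_of_nonneg h, re_add_im]

theorem crossA_neg {w : ℂ} (h : w.re ≤ 0) : -crossA w = exp (-conj w + Real.pi * I) := by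
  rw [crossA, abs_of_nonpos h, exp_add (-conj w), exp_pi_mul_I, mul_neg_one]
  congr 2
  apply Complex.ext <;> simp

/-- The universal cover of the open Moebius band round a core. -/
noncomputable def Marks.band (i : Fin k.b) (w : ℂ) : k.Cross :=
  if 0 ≤ w.re then k.cl (k.pt i (crossA w) (crossA_one w))
  else k.cl (k.pt i (-crossA w) (by rw [norm_neg]; exact crossA_one w))

theorem Marks.band_cont (i : Fin k.b) : Continuous (k.band i) := by
  have a : Continuous crossA := by unfold crossA; fun_prop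
  refine Continuous.if_le (k.cl_cont.comp (((k.emb i).continuous.comp a).subtype_mk _))
    (k.cl_cont.comp (((k.emb i).continuous.comp a.neg).subtype_mk _)) continuous_const
    continuous_re fun w hw => k.cl_pt.2 (Or.inr ⟨?_, ?_⟩)
  · rw [norm_neg, crossA_eq, hw]
  · rw [neg_neg]
    rfl

theorem Marks.cl_band {i : Fin k.b} {w : ℂ} {x : k.Cut} : k.cl x = k.band i w ↔
    0 ≤ w.re ∧ x.1 = k.d i (crossA w) ∨ w.re ≤ 0 ∧ x.1 = k.d i (-crossA w) := by
  unfold Marks.band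
  split_ifs with h
  · rw [k.cl_pt, crossA_eq]
    exact or_congr (and_iff_right h).symm (and_congr_left' ⟨fun e => e.le, fun e => e.antisymm h⟩)
  · rw [k.cl_pt, norm_neg, crossA_eq]
    exact ⟨fun a => a.elim (fun a => Or.inr ⟨(not_le.1 h).le, a⟩) fun a => (h a.1.ge).elim,
      fun a => a.elim (fun a => (h a.1).elim) fun a => Or.inl a.2⟩

theorem Marks.band_open (i : Fin k.b) : IsOpenMap (k.band i) := fun V hV => by
  let τ : ℂ ≃ₜ ℂ := conjCLE.toHomeomorph.trans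
    ((Homeomorph.neg ℂ).trans (Homeomorph.addRight (Real.pi * I)))
  have hτ : ∀ w, τ w = -conj w + Real.pi * I := fun _ => rfl
  have : k.cl ⁻¹' (k.band i '' V) = Subtype.val ⁻¹' (k.d i '' (exp '' (V ∪ τ '' V))) := by
    ext x
    constructor
    · rintro ⟨w, hw, e⟩
      rcases k.cl_band.1 e.symm with ⟨a, b⟩ | ⟨a, b⟩
      · exact ⟨_, ⟨w, Or.inl hw, rfl⟩, by rw [b, crossA_pos a]⟩
      · exact ⟨_, ⟨_, Or.inr ⟨w, hw, rfl⟩, rfl⟩, by rw [b, crossA_neg a, hτ]⟩
    · rintro ⟨_, ⟨w, hw, rfl⟩, e⟩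
      have a : 0 ≤ w.re := by
        have := not_lt.1 fun c => x.2 i _ c e
        rwa [norm_exp, Real.one_le_exp_iff] at this
      rcases hw with hw | ⟨v, hv, rfl⟩
      · exact ⟨w, hw, (k.cl_band.2 (Or.inl ⟨a, by rw [crossA_pos a, e]⟩)).symm⟩
      · have b : v.re ≤ 0 := by simpa only [hτ, add_re, neg_re, conj_re, mul_re, ofReal_re, I_re, mul_zero, ofReal_im, I_im, mul_one, sub_self, add_zero, Left.nonneg_neg_iff] using a
        exact ⟨v, hv, (k.cl_band.2 (Or.inr ⟨b, by rw [crossA_neg b, ← hτ, e]⟩)).symm⟩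
  rw [← k.cl_quot.isOpen_preimage, this]
  exact ((k.emb i).isOpenMap _ (isOpenMap_exp _ (hV.union (τ.isOpenMap _ hV)))).preimage
    continuous_subtype_val

theorem Marks.band_inj {i : Fin k.b} {w v : ℂ} (h : |w.im - v.im| < Real.pi)
    (e : k.band i w = k.band i v) : w = v := by
  obtain ⟨x, hx⟩ := k.cl_surj (k.band i w)
  have a := k.cl_band.1 hx
  have b := k.cl_band.1 (hx.trans e)
  have inj := (k.emb i).injective
  have c : crossA w ^ 2 = crossA v ^ 2 := by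
    rw [sq_eq_sq_iff_eq_or_eq_neg]
    rcases a with ⟨-, a⟩ | ⟨-, a⟩ <;> rcases b with ⟨-, b⟩ | ⟨-, b⟩ <;> have := inj (a.symm.trans b)
    · exact Or.inl this
    · exact Or.inr this
    · exact Or.inr (neg_eq_iff_eq_neg.1 this)
    · exact Or.inl (neg_injective this)
  rw [crossA, crossA, ← exp_nat_mul, ← exp_nat_mul, exp_eq_exp_iff_exists_int] at c
  obtain ⟨n, hn⟩ := c
  have h1 : |w.re| = |v.re| := by
    have := congrArg re hn
    simpa using this
  have h2 : w.im - v.im = n * Real.pi := by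
    have := congrArg im hn
    simp at this
    linarith only [this]
  have h3 : w.im = v.im := by
    rw [h2, abs_mul, abs_of_pos Real.pi_pos, mul_lt_iff_lt_one_left Real.pi_pos] at h
    have : n = 0 := Int.abs_lt_one_iff.1 (by exact_mod_cast h)
    rw [this] at h2
    simpa [sub_eq_zero] using h2
  have h4 : crossA w = crossA v := by rw [crossA, crossA, h1, h3]
  have h5 : crossA v ≠ -crossA v := fun c => exp_ne_zero _ (self_eq_neg.1 c)
  refine Complex.ext ?_ h3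
  rw [h4] at a
  rcases a with ⟨a', a⟩ | ⟨a', a⟩ <;> rcases b with ⟨b', b⟩ | ⟨b', b⟩
  · rwa [abs_of_nonneg a', abs_of_nonneg b'] at h1
  · exact (h5 (inj (a.symm.trans b))).elim
  · exact (h5 (inj (b.symm.trans a))).elim
  · rwa [abs_of_nonpos a', abs_of_nonpos b', neg_inj] at h1

theorem Marks.cross_loc [T2Space X] [PreconnectedSpace X] (hX : Loc X) : Loc k.Cross := fun y => by
  obtain ⟨x, rfl⟩ := k.cl_surj y
  by_cases m : x.1 ∈ k.bare.free
  · obtain ⟨e, e1, e2, e3⟩ := hX.small ((k.bare.free_open_conn hX).1.mem_nhds m)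
    let c : ℂ → k.Cut := fun w => ⟨e w, fun i z hz => (e3 w).2 i z hz.le⟩
    have key : ∀ w u, k.cl u = k.cl (c w) → u.1 = e w := fun w u h =>
      (k.cl_eq.1 h).elim (congrArg Subtype.val) fun ⟨i, z, a, _, b⟩ =>
        ((e3 w).2 i (-z) (by rw [norm_neg, a]) b.symm).elim
    refine ⟨fun w => k.cl (c w), .of_continuous_injective_isOpenMap
      (k.cl_cont.comp (e1.continuous.subtype_mk _)) (fun w v h => e1.injective (key _ _ h))
      fun V hV => ?_, congrArg k.cl (Subtype.ext e2)⟩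
    rw [← k.cl_quot.isOpen_preimage, show k.cl ⁻¹' ((fun w => k.cl (c w)) '' V) =
      Subtype.val ⁻¹' (e '' V) from Set.ext fun u => ⟨fun ⟨w, a, b⟩ => ⟨w, a, (key _ _ b.symm).symm⟩,
        fun ⟨w, a, b⟩ => ⟨w, a, congrArg k.cl (Subtype.ext b)⟩⟩]
    exact (e1.isOpenMap _ hV).preimage continuous_subtype_val
  · obtain ⟨i, z, a, e⟩ : ∃ i z, ‖z‖ ≤ 1 ∧ k.d i z = x.1 := by
      by_contra c
      exact m ⟨Finset.notMem_empty _, fun i z hz e => c ⟨i, z, hz, e⟩⟩
    have b : 1 ≤ ‖z‖ := not_lt.1 fun c => x.2 i z c e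
    have z0 : z ≠ 0 := norm_pos_iff.1 (one_pos.trans_le b)
    have p : 0 ≤ (log z).re := by
      rw [log_re]
      exact Real.log_nonneg b
    obtain ⟨u, u1, u2, u3⟩ := loc_complex.small (ball_mem_nhds (log z) one_pos)
    refine ⟨fun w => k.band i (u w), .of_continuous_injective_isOpenMap
      ((k.band_cont i).comp u1.continuous) (fun w v h => u1.injective (k.band_inj ?_ h))
      ((k.band_open i).comp u1.isOpenMap), ?_⟩
    · have := (dist_triangle_right _ _ _).trans_lt (add_lt_add (u3 w) (u3 v))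
      rw [← sub_im]
      exact ((abs_im_le_norm _).trans_lt (by rwa [← dist_eq_norm])).trans
        (by linarith [Real.pi_gt_three])
    · exact (k.cl_band.2 (Or.inl ⟨u2 ▸ p, by rw [u2, crossA_pos p, exp_log z0, e]⟩)).symm

theorem Marks.cross_infinite [T2Space X] [ConnectedSpace X] (hX : Loc X) : Infinite k.Cross := by
  obtain ⟨x⟩ : Nonempty k.Cut := by
    rcases isEmpty_or_nonempty (Fin k.b) with h | ⟨⟨i⟩⟩
    · exact ⟨⟨Classical.arbitrary X, h.elim⟩⟩
    · exact ⟨k.pt i 1 (by simp)⟩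
  obtain ⟨e, he, -⟩ := k.cross_loc hX (k.cl x)
  exact Infinite.of_injective e he.injective

/-- Compactly supported homeomorphisms in all charts at once. -/
theorem Marks.ext_all [T2Space X] (g : Fin k.b → ℂ ≃ₜ ℂ) {R : ℝ}
    (hg : ∀ i z, z ∉ closedBall (0 : ℂ) R → g i z = z) :
    ∃ G : X ≃ₜ X, (∀ i z, G (k.d i z) = k.d i (g i z)) ∧ ∀ x, (∀ i z, k.d i z ≠ x) → G x = x := by
  have hD : IsOpenEmbedding fun p : Fin k.b × ℂ => k.d p.1 p.2 := by
    refine .of_continuous_injective_isOpenMap (continuous_prod_of_discrete_left.2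
      fun i => (k.emb i).continuous) (fun p q e => ?_)
      (isOpenMap_prod_of_discrete_left.2 fun i => (k.emb i).isOpenMap)
    obtain ⟨i, z⟩ := p
    obtain ⟨j, w⟩ := q
    obtain rfl : i = j := k.disj _ _ _ _ e
    exact Prod.ext rfl ((k.emb i).injective e)
  obtain ⟨e, he⟩ := ker_ext hD (isCompact_univ.prod (isCompact_closedBall (0 : ℂ) R))
  obtain ⟨a, b⟩ := he ⟨⟨fun p => (p.1, g p.1 p.2), fun p => (p.1, (g p.1).symm p.2),
    fun p => by simp, fun p => by simp⟩,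
    continuous_prod_of_discrete_left.2 fun i => continuous_const.prodMk (g i).continuous,
    continuous_prod_of_discrete_left.2 fun i => continuous_const.prodMk (g i).symm.continuous⟩
    fun p hp => Prod.ext rfl (hg _ _ fun c => hp ⟨trivial, c⟩)
  exact ⟨_, fun i z => a (i, z), fun x hx => b x fun ⟨p, hp⟩ => hx _ _ hp⟩

/-- Standard position of the discs, point by point up to conjugation. -/
theorem Marks.std_pt [T2Space X] [PreconnectedSpace X] (hX : Loc X) (k k' : Marks X)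
    (τ : Fin k.b ≃ Fin k'.b) : ∃ h : X ≃ₜ X, ∀ i,
      (∀ z, ‖z‖ ≤ 1 → h (k.d i z) = k'.d (τ i) z) ∨
        ∀ z, ‖z‖ ≤ 1 → h (k.d i z) = k'.d (τ i) (conj z) := by
  obtain ⟨h, -, e⟩ := Mv.marks hX isOpen_univ isPreconnected_univ (a := fun _ => 0)
    (fun _ => Or.inl rfl) k.emb (d' := fun i => k'.d (τ i)) (fun _ => k'.emb _)
    (fun _ => subset_univ _) (fun _ => subset_univ _)
    (fun i j n => disjoint_left.2 fun _ ⟨_, _, a⟩ ⟨_, _, b⟩ => n (k.disj _ _ _ _ (a.trans b.symm)))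
    fun i j n => disjoint_left.2 fun _ ⟨_, _, a⟩ ⟨_, _, b⟩ =>
      n (τ.injective (k'.disj _ _ _ _ (a.trans b.symm)))
  have e0 : ∀ i, h (k.d i 0) = k'.d (τ i) 0 := fun i => by simpa using e i
  have ex : ∀ j, ∃ (g : ℂ ≃ₜ ℂ) (ε : ℝ), (∀ z, z ∉ closedBall (0 : ℂ) 1 → g z = z) ∧ 0 < ε ∧
      ((∀ z, ‖z‖ ≤ ε → ∃ w, h (k.d (τ.symm j) z) = k'.d j w ∧ g w = z) ∨
        ∀ z, ‖z‖ ≤ ε → ∃ w, h (k.d (τ.symm j) z) = k'.d j w ∧ g w = conj z) := fun j => by
    obtain ⟨i, rfl⟩ := τ.surjective j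
    rw [τ.symm_apply_apply]
    have d' := k'.emb (τ i)
    have u : IsOpenEmbedding fun z => h (k.d i z) := h.isOpenEmbedding.comp (k.emb i)
    obtain ⟨a, a0, ha⟩ := Metric.isOpen_iff.1 (d'.isOpen_range.preimage u.continuous) 0 ⟨0, (e0 i).symm⟩
    choose! φ hφ using fun z (hz : z ∈ Metric.ball (0 : ℂ) a) => ha hz
    have G : Germ a φ := by
      refine ⟨a0, d'.isInducing.continuousOn_iff.2 (u.continuous.continuousOn.congr hφ),
        fun z hz w hw c => u.injective ((hφ z hz).symm.trans (c ▸ hφ w hw)), fun U hU o => ?_⟩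
      rw [d'.isOpen_iff_image_isOpen, image_image, image_congr fun z hz => hφ z (hU hz)]
      exact u.isOpenMap _ o
    obtain ⟨g, g1, -, ε, ε0, ε1, g2⟩ := G.norm
      (d'.injective ((hφ 0 (mem_ball_self a0)).trans (e0 i))) one_pos
    have q : ∀ z, ‖z‖ ≤ ε → h (k.d i z) = k'.d (τ i) (φ z) := fun z hz =>
      (hφ z (mem_ball_zero_iff.2 (hz.trans_lt ε1))).symm
    exact ⟨g, ε, fun z hz => g1 z fun c => hz (interior_subset c), ε0,
      g2.imp (fun b z hz => ⟨_, q z hz, b z hz⟩) fun b z hz => ⟨_, q z hz, b z hz⟩⟩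
  choose g ε g1 ε0 g2 using ex
  obtain ⟨G, G1, -⟩ := k'.ext_all g g1
  have sh : ∀ j, ∃ s : ℂ ≃ₜ ℂ, (∀ z, z ∉ closedBall (0 : ℂ) 2 → s z = z) ∧
      ∀ z, ‖z‖ ≤ 1 → s z = min (ε j) 1 • z := fun j => by
    obtain ⟨s, hs⟩ := ker_shrink (s := 1 - min (ε j) 1) (sub_nonneg.2 (min_le_right _ _))
      (sub_lt_self _ (lt_min (ε0 j) one_pos))
    exact ⟨s, fun z hz => by
      rw [hs, bump_zero (le_of_lt (by simpa using hz)), mul_zero, sub_zero, one_smul],
      fun z hz => by rw [hs, bump_one hz, mul_one, sub_sub_cancel]⟩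
  choose s s1 s2 using sh
  obtain ⟨T, T1, -⟩ := k.ext_all (fun i => s (τ i)) fun i => s1 _
  obtain ⟨T', T2, -⟩ := k'.ext_all s s1
  have n : ∀ j (z : ℂ), ‖z‖ ≤ 1 → ‖min (ε j) 1 • z‖ ≤ ε j := fun j z hz => by
    rw [norm_smul, Real.norm_of_nonneg (lt_min (ε0 j) one_pos).le]
    exact (mul_le_of_le_one_right (lt_min (ε0 j) one_pos).le hz).trans (min_le_left _ _)
  refine ⟨T.trans (h.trans (G.trans T'.symm)), fun i => (g2 (τ i)).imp
    (fun b z hz => T'.symm_apply_eq.2 ?_) fun b z hz => T'.symm_apply_eq.2 ?_⟩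
  · obtain ⟨w, w1, w2⟩ := b _ (n _ z hz)
    rw [τ.symm_apply_apply] at w1
    change G (h (T _)) = _
    rw [T1, s2 _ z hz, w1, G1, w2, T2, s2 _ z hz]
  · obtain ⟨w, w1, w2⟩ := b _ (n _ z hz)
    rw [τ.symm_apply_apply] at w1
    change G (h (T _)) = _
    rw [T1, s2 _ z hz, w1, G1, w2, T2, s2 _ _ (by rwa [norm_conj])]
    simp only [real_smul, map_mul, conj_ofReal]

/-- A homeomorphism that matches the discs point by point up to conjugation descends. -/
theorem Marks.cross_map {k k' : Marks X} {h : X ≃ₜ X} {τ : Fin k.b ≃ Fin k'.b}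
    (e : ∀ i, (∀ z, ‖z‖ ≤ 1 → h (k.d i z) = k'.d (τ i) z) ∨
      ∀ z, ‖z‖ ≤ 1 → h (k.d i z) = k'.d (τ i) (conj z)) :
    ∃ f : k.Cross → k'.Cross, Continuous f ∧ ∀ x : k.Cut, ∃ y : k'.Cut, y.1 = h x.1 ∧
      f (k.cl x) = k'.cl y := by
  let c : k.Cut → k'.Cut := fun x => ⟨h x.1, fun j z hz m => by
    obtain ⟨i, rfl⟩ := τ.surjective j
    rcases e i with a | a
    · exact x.2 i z hz (h.injective ((a z hz.le).trans m))
    · refine x.2 i (conj z) (by rwa [norm_conj]) (h.injective ?_)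
      rw [a _ (by rw [norm_conj]; exact hz.le), conj_conj, m]⟩
  refine ⟨Quot.lift (fun x => k'.cl (c x)) ?_, continuous_quot_lift _ (k'.cl_cont.comp
    ((h.continuous.comp continuous_subtype_val).subtype_mk _)), fun x => ⟨c x, rfl, rfl⟩⟩
  rintro x y ⟨i, z, a, p, q⟩
  have a' : ‖-z‖ ≤ 1 := by rw [norm_neg, a]
  refine Quot.sound ((e i).elim (fun b => ⟨τ i, z, a, ?_, ?_⟩) fun b => ⟨τ i, conj z, ?_, ?_, ?_⟩)
  · exact (congrArg h p).trans (b z a.le)
  · exact (congrArg h q).trans (b _ a')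
  · rwa [norm_conj]
  · exact (congrArg h p).trans (b z a.le)
  · exact (congrArg h q).trans ((b _ a').trans (by rw [map_neg]))

theorem Marks.cross_equiv [T2Space X] [PreconnectedSpace X] (hX : Loc X) (k k' : Marks X)
    (hb : k.b = k'.b) : Nonempty (k.Cross ≃ₜ k'.Cross) := by
  obtain ⟨h, e⟩ := Marks.std_pt hX k k' (finCongr hb)
  obtain ⟨f, f1, f2⟩ := Marks.cross_map e
  obtain ⟨f', f1', f2'⟩ := Marks.cross_map (k := k') (k' := k) (h := h.symm)
    (τ := (finCongr hb).symm) fun j => by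
      obtain ⟨i, rfl⟩ := (finCongr hb).surjective j
      rw [Equiv.symm_apply_apply]
      exact (e i).imp (fun a z hz => h.symm_apply_eq.2 (a z hz).symm) fun a z hz =>
        h.symm_apply_eq.2 (by rw [a _ (by rwa [norm_conj]), conj_conj])
  refine ⟨⟨⟨f, f', fun y => ?_, fun y => ?_⟩, f1, f1'⟩⟩
  · obtain ⟨x, rfl⟩ := k.cl_surj y
    obtain ⟨u, u1, u2⟩ := f2 x
    obtain ⟨v, v1, v2⟩ := f2' u
    rw [u2, v2, show v = x from Subtype.ext (by rw [v1, u1, h.symm_apply_apply])]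
  · obtain ⟨x, rfl⟩ := k'.cl_surj y
    obtain ⟨u, u1, u2⟩ := f2' x
    obtain ⟨v, v1, v2⟩ := f2 u
    rw [u2, v2, show v = x from Subtype.ext (by rw [v1, u1, h.apply_symm_apply])]

end Pool.Agent.MP_646035_al.MC

/-!
Groups of homotopy classes: change of the marks, and forgetting a marked point.
-/

namespace Pool.Agent.MP_646035_al.MC

open Set Topology Metric

variable {X : Type} [TopologicalSpace X]

theorem Marks.ext_forget [T2Space X] [PreconnectedSpace X] [Infinite X] (hX : Loc X) (N : ℕ)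
    (h : ∀ c : Marks X, c.P.card + c.b = N → PolyG c.Ext) :
    ∀ c : Marks X, c.P.card + c.b ≤ N → PolyG c.Ext := by
  have key : ∀ k, ∀ c : Marks X, c.P.card + c.b + k = N → PolyG c.Ext := by
    intro k
    induction k with
    | zero => exact h
    | succ k ih =>
      intro c hc
      obtain ⟨c', q, h1, h2, h3, h4, h5, h6⟩ := low_add c
      obtain ⟨H, i, j, a, b, -⟩ := ext_link ((h3 q).2 (Or.inl rfl)) h6 fun f hf => by
        obtain ⟨u, ⟨K, k1, k2, k3⟩, -, e⟩ := c.slide hX (x := f q) (y := q)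
          ⟨fun e => h4 ((hf.1 q).1 e),
            fun i z hz e => h5 i z hz (f.injective ((hf.2 i z hz).trans e))⟩ ⟨h4, h5⟩
        exact ⟨K, k1, k2, (k3 _).trans e⟩
      exact (ih c' (by omega)).sub i a b
  exact fun c hc => key (N - (c.P.card + c.b)) c (by omega)

variable {X' : Type} [TopologicalSpace X']

/-- Transport of marks along a homeomorphism. -/
def Marks.map (c : Marks X) (h : X ≃ₜ X') : Marks X' where
  P := c.P.map h.toEquiv.toEmbedding
  b := c.b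
  d i z := h (c.d i z)
  emb i := h.isOpenEmbedding.comp (c.emb i)
  disj i j z w e := c.disj i j z w (h.injective e)
  avoid i z m := c.avoid i z ((Finset.mem_map' _).1 m)

theorem Marks.map_P (c : Marks X) (h : X ≃ₜ X') {x : X'} : x ∈ (c.map h).P ↔ h.symm x ∈ c.P :=
  Finset.mem_map_equiv

theorem Marks.map_P' (c : Marks X) (h : X ≃ₜ X') {x : X} : h x ∈ (c.map h).P ↔ x ∈ c.P :=
  Finset.mem_map' _

theorem Marks.map_adm (c : Marks X) (h : X ≃ₜ X') {f : X ≃ₜ X} (hf : f ∈ c.Adm) :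
    h.symm.trans (f.trans h) ∈ (c.map h).Adm :=
  ⟨fun _ => (c.map_P' h).trans ((hf.1 _).trans (c.map_P h).symm), fun i z hz =>
    congrArg h ((congrArg f (h.symm_apply_apply _)).trans (hf.2 i z hz))⟩

theorem Marks.map_adm' (c : Marks X) (h : X ≃ₜ X') {f : X' ≃ₜ X'} (hf : f ∈ (c.map h).Adm) :
    h.trans (f.trans h.symm) ∈ c.Adm :=
  ⟨fun _ => (c.map_P h).symm.trans ((hf.1 _).trans (c.map_P' h)), fun i z hz =>
    h.symm_apply_eq.2 (hf.2 i z hz)⟩

/-- Conjugation of the admissible homeomorphisms. -/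
def Marks.admMap (c : Marks X) (h : X ≃ₜ X') : c.Adm ≃* (c.map h).Adm where
  toFun f := ⟨_, c.map_adm h f.2⟩
  invFun f := ⟨_, c.map_adm' h f.2⟩
  left_inv f := Subtype.ext (Homeomorph.ext fun x => by simp)
  right_inv f := Subtype.ext (Homeomorph.ext fun x => by simp)
  map_mul' f g := Subtype.ext (Homeomorph.ext fun x => by simp only [Subgroup.coe_mul, Homeomorph.trans_apply, Homeomorph.mul_apply, MulMemClass.mk_mul_mk, Homeomorph.symm_apply_apply])

theorem Marks.ext_map (h : X ≃ₜ X') (c : Marks X) : ∃ c' : Marks X', c'.P.card = c.P.card ∧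
    c'.b = c.b ∧ Nonempty (c.Ext ≃* c'.Ext) := by
  refine ⟨c.map h, Finset.card_map _, rfl, ⟨QuotientGroup.congr c.ZeroX _ (c.admMap h)
    (le_antisymm ?_ fun f ⟨H, a, u, v⟩ => ⟨(c.admMap h).symm f, ?_,
      (c.admMap h).apply_symm_apply f⟩)⟩⟩
  · rintro _ ⟨f, ⟨H, a, u, v⟩, rfl⟩
    refine ⟨⟨fun p => h (H (p.1, h.symm p.2)), by fun_prop⟩, fun t => ?_, fun x => by simp [u],
      fun x => congrArg h (v _)⟩
    obtain ⟨g, g1, g2⟩ := a t
    exact ⟨_, c.map_adm h g1, fun x => congrArg h (g2 _)⟩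
  · refine ⟨⟨fun p => h.symm (H (p.1, h p.2)), by fun_prop⟩, fun t => ?_, fun x => by simp [u],
      fun x => congrArg h.symm (v _)⟩
    obtain ⟨g, g1, g2⟩ := a t
    exact ⟨_, c.map_adm' h g1, fun x => congrArg h.symm (g2 _)⟩

end Pool.Agent.MP_646035_al.MC

/-!
The model of the sphere with three holes: classes of boundary lines and their stabilisers.
-/

namespace Pool.Agent.MP_646035_al.MC

open Pool.Agent.MP_4a6971_al Pool.Agent.MP_4a6971_al.H66 Pool.Agent.MP_4a6971_al.H83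
  Pool.Agent.MP_4a6971_al.Mcg

theorem p3_two {G : Type} [Group G] {a b : G} (ha : a * a = 1) (hb : b * b = 1) {w : G}
    (hw : w ∈ Subgroup.closure {a, b}) : ∃ u ∈ Subgroup.zpowers (a * b), w = u ∨ w = u * a := by
  have ia := inv_eq_of_mul_eq_one_left ha
  have ib := inv_eq_of_mul_eq_one_left hb
  have m := Subgroup.mem_zpowers (a * b)
  have step : ∀ w, ∀ t ∈ ({a, b} : Set G), (∃ u ∈ Subgroup.zpowers (a * b), w = u ∨ w = u * a) →
      ∃ u ∈ Subgroup.zpowers (a * b), w * t = u ∨ w * t = u * a := by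
    rintro w t ht ⟨u, hu, e⟩
    rcases ht with e' | e' <;> rw [e'] <;> rcases e with e | e <;> rw [e]
    · exact ⟨u, hu, Or.inr rfl⟩
    · exact ⟨u, hu, Or.inl (by simp [mul_assoc, ha])⟩
    · exact ⟨_, mul_mem hu (inv_mem m), Or.inr (by simp [mul_assoc, ia, ib, ha])⟩
    · exact ⟨_, mul_mem hu m, Or.inl (mul_assoc _ _ _)⟩
  induction hw using Subgroup.closure_induction_right with
  | one => exact ⟨1, one_mem _, Or.inl rfl⟩
  | mul_right w _ t ht ih => exact step w t ht ih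
  | mul_inv_cancel w _ t ht ih =>
    have : t⁻¹ = t := by rcases ht with e | e <;> rw [e] <;> assumption
    rw [this]
    exact step w t ht ih

theorem p3_half {G : Type} [Group G] {t u : G} (hu : u ∈ Subgroup.zpowers t) :
    ∃ v ∈ Subgroup.zpowers (t * t), u = v ∨ u = v * t := by
  obtain ⟨k, rfl⟩ := hu
  obtain ⟨n, e⟩ := Int.even_or_odd' k
  refine ⟨_, ⟨n, rfl⟩, e.imp (fun e => ?_) fun e => ?_⟩ <;> simp [e, zpow_add, zpow_mul, sq]

variable {g : ℕ} {L : Lay g} {Y : Poly g} {p : I g × I g}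

theorem p3_ker {t u : W g} (ht : cls g t = 1) (hu : u ∈ Subgroup.zpowers t) : cls g u = 1 := by
  obtain ⟨k, rfl⟩ := hu
  simp [ht]

theorem Lay.stab (hp : p ∈ L.G) {w u : W g} (hw : w ∈ WA L.A) (hu : u ∈ WA {p.1, p.2})
    (gen : ∀ v ∈ WA {p.1, p.2}, cls g v = 1 → v ∈ Subgroup.zpowers u) {α : L.GA}
    (e : (α : W g) = w * u * w⁻¹) (δ : L.GA) :
    (L.fuchs Y).σ δ • L.c Y • Y.ρ w • dl Y p = L.c Y • Y.ρ w • dl Y p ↔
      δ ∈ Subgroup.zpowers α := by
  have f := Lay.far' Y hp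
  constructor
  · intro h
    rw [Lay.fuchs_σ, Lay.σ_c, smul_left_cancel_iff, Y.σ_apply] at h
    obtain ⟨-, z, -, -, hz, -⟩ := Klein2_exists (f.unit (Y := Y))
    obtain ⟨k, hk⟩ := gen (w⁻¹ * δ * w) (Lay.behind hp hp (w := w⁻¹ * δ * w)
      (mul_mem (mul_mem (inv_mem hw) δ.2) hw) hz.le (by
        rw [map_mul, map_mul, mul_smul, mul_smul, h, map_inv, inv_smul_smul]
        exact hz.le)).2 (by
      rw [map_mul, map_mul, show cls g δ = 1 from δ.1.2]
      simp only [map_inv, mul_one, inv_mul_cancel])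
    refine ⟨k, Subtype.ext (Subtype.ext ?_)⟩
    simp only at hk
    simp only [SubgroupClass.coe_zpow, e, conj_zpow, hk]
    group
  · rintro ⟨k, rfl⟩
    refine (MulAction.stabilizer Isom _).comap (L.fuchs Y).σ |>.zpow_mem (x := α) ?_ k
    change (L.fuchs Y).σ α • _ = _
    rw [Lay.fuchs_σ, Lay.σ_c, Y.σ_apply, e, map_mul, map_mul, map_inv, mul_smul, inv_smul_smul,
      mul_smul, f.fix hu]

theorem lay_pants3 (h : 3 ≤ 2 * 0 + 3) (Y : MP_4a6971_al.H66.Poly (0 + 3)) :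
    ((lay 0 3 h).fuchs Y).Pants3 := by
  have eA : (lay 0 3 h).A = {0, 4, 5} := by
    ext i
    simp only [lay_A, layA, Set.mem_ofPred_eq, Set.mem_insert_iff, Set.mem_singleton_iff]
    revert i
    decide
  have eW : WA (lay 0 3 h).A = Subgroup.closure {s 0, s 4, s 5} := by
    rw [WA, eA, Set.image_insert_eq, Set.image_pair]
  have m0 : s 0 ∈ WA (lay 0 3 h).A := s_mem_WA (by simp only [Nat.reduceAdd, eA, Set.mem_insert_iff, Set.mem_singleton_iff, true_or])
  have m4 : s 4 ∈ WA (lay 0 3 h).A := s_mem_WA (by simp only [Nat.reduceAdd, eA, Set.mem_insert_iff, Set.mem_singleton_iff, true_or, or_true])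
  have m5 : s 5 ∈ WA (lay 0 3 h).A := s_mem_WA (by simp [eA])
  have g1 : ((0, 4) : I (0 + 3) × I (0 + 3)) ∈ (lay 0 3 h).G := Or.inl ⟨0, by decide, rfl, rfl⟩
  have g2 : ((5, 0) : I (0 + 3) × I (0 + 3)) ∈ (lay 0 3 h).G := Or.inr ⟨rfl, rfl, rfl⟩
  have cm : (s 5 * s 4 : W (0 + 3)) = s 4 * s 5 := (s_comm (g := 0 + 3) 4).symm
  have x1 : (s 0 * s 4 : W (0 + 3)) ∈ (cls (0 + 3)).ker := by
    simp only [MonoidHom.mem_ker, map_mul, cls_s]; decide
  have y1 : (s 5 * s 4 * s 0 * s 5 : W (0 + 3)) ∈ (cls (0 + 3)).ker := by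
    simp only [MonoidHom.mem_ker, map_mul, cls_s]; decide
  let x : (lay 0 3 h).GA := ⟨⟨_, x1⟩, Subgroup.mem_subgroupOf.2 (mul_mem m0 m4)⟩
  let y : (lay 0 3 h).GA :=
    ⟨⟨_, y1⟩, Subgroup.mem_subgroupOf.2 (mul_mem (mul_mem (mul_mem m5 m4) m0) m5)⟩
  have k1 : (s 0 * s 4 : W (0 + 3)) ∈ WA {0, 4} := mul_mem (s_mem_WA (by simp only [Nat.reduceAdd, Set.mem_insert_iff, Set.mem_singleton_iff, true_or])) (s_mem_WA (by simp))
  have c1 : ∀ v ∈ WA ({0, 4} : Set (I (0 + 3))), cls _ v = 1 →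
      v ∈ Subgroup.zpowers (s 0 * s 4) := fun v a b => by
    rw [WA, Set.image_pair] at a
    obtain ⟨u, c, rfl | rfl⟩ := p3_two (s_mul_s _) (s_mul_s _) a
    · exact c
    · rw [map_mul, p3_ker x1 c, one_mul, cls_s] at b
      exact absurd b (by decide)
  have c2 : ∀ v ∈ WA ({5, 0} : Set (I (0 + 3))), cls _ v = 1 →
      v ∈ Subgroup.zpowers (tp (5, 0)) := fun v a b => by
    rw [WA, Set.image_pair] at a
    obtain ⟨u, c, d⟩ := p3_two (s_mul_s _) (s_mul_s _) a
    obtain ⟨u', c', d'⟩ := p3_half c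
    rcases d with rfl | rfl <;> rcases d' with rfl | rfl
    · exact c'
    all_goals
      simp only [map_mul, p3_ker (cls_sq _) c', one_mul, cls_s] at b
      exact absurd b (by decide)
  have f1 := fun {w} => (Lay.far' Y g1).fix (Y := Y) (w := w)
  have f2 := fun {w} => (Lay.far' Y g2).fix (Y := Y) (w := w)
  refine ⟨x, y, (x * y)⁻¹, (lay 0 3 h).c Y • Y.ρ 1 • dl Y (0, 4),
    (lay 0 3 h).c Y • Y.ρ (s 5) • dl Y (0, 4), (lay 0 3 h).c Y • Y.ρ 1 • dl Y (5, 0),
    mul_inv_cancel _, ?_, ⟨_, ⟨_, one_mem _, _, g1, rfl⟩, rfl⟩, ⟨_, ⟨_, m5, _, g1, rfl⟩, rfl⟩,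
    ⟨_, ⟨_, one_mem _, _, g2, rfl⟩, rfl⟩, Lay.stab g1 (one_mem _) k1 c1 (by simp [x]),
    Lay.stab g1 m5 (inv_mem k1) (by rwa [Subgroup.zpowers_inv]) (by simp [y, mul_assoc]),
    Lay.stab g2 (one_mem _) (tp_mem (5, 0)) c2 ?_, ?_⟩
  · refine eq_top_iff.2 fun γ _ => ?_
    let ι : (lay 0 3 h).GA →* W (0 + 3) := (cls (0 + 3)).ker.subtype.comp (lay 0 3 h).GA.subtype
    obtain ⟨_, ⟨u, hu, rfl⟩, e⟩ := schreier (s_mul_s _) (s_mul_s _) (s_mul_s _) cm
      (H := (Subgroup.closure {x, y}).map ι) ⟨x, Subgroup.subset_closure (by simp only [Nat.reduceAdd, Set.mem_insert_iff, Set.mem_singleton_iff, true_or]), rfl⟩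
      ⟨y, Subgroup.subset_closure (by simp only [Nat.reduceAdd, Set.mem_insert_iff, Set.mem_singleton_iff, or_true]), rfl⟩ (w := ι γ) (eW ▸ γ.2)
    have a : cls (0 + 3) (ι γ) = 1 := γ.1.2
    have b : cls (0 + 3) (ι u) = 1 := u.1.2
    rcases e with e | e | e | e
    · rwa [Subtype.ext (Subtype.ext e) (a1 := γ) (a2 := u)]
    all_goals
      rw [e] at a
      simp only [map_mul, b, cls_s, one_mul] at a
      exact absurd a (by decide)
  · change (s 0 * s 4 * (s 5 * s 4 * s 0 * s 5))⁻¹ = _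
    rw [cm]
    simp [tp, mul_assoc, ← mul_assoc (s (4 : I (0 + 3))) (s 4)]
  · rintro _ ⟨_, ⟨w, hw, p, hp, rfl⟩, rfl⟩
    obtain ⟨γ, t, rfl, -, a⟩ := Lay.dec (Y := Y) hw
    have k : ∀ (δ : (lay 0 3 h).GA) (v u : W (0 + 3)) (p : I (0 + 3) × I (0 + 3)),
        Y.ρ u • dl Y p = dl Y p → (γ : W (0 + 3)) * t = δ * v * u →
        (lay 0 3 h).c Y • Y.ρ (γ * t) • dl Y p =
          ((lay 0 3 h).fuchs Y).σ δ • (lay 0 3 h).c Y • Y.ρ v • dl Y p := fun δ v u p b c => by
      rw [Lay.fuchs_σ, Lay.σ_c, Y.σ_apply, c, map_mul, map_mul, mul_smul, mul_smul, b]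
    have a : t = 1 ∨ t = s 4 ∨ t = s 5 ∨ t = s 5 * s 4 := a
    have e : p = (0, 4) ∨ p = (5, 0) := by
      obtain ⟨i, j⟩ := p
      rcases hp with ⟨n, b, c, d⟩ | ⟨-, c, d⟩
      · obtain rfl : n = 0 := by omega
        exact Or.inl (Prod.ext (ZMod.val_injective _ c) (ZMod.val_injective _ d))
      · exact Or.inr (Prod.ext (ZMod.val_injective _ c) (ZMod.val_injective _ d))
    have n4 := f1 (s_mem_WA (i := 4) (by simp only [Nat.reduceAdd, Set.mem_insert_iff, Set.mem_singleton_iff, or_true]))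
    have n5 := f2 (s_mem_WA (i := 5) (by simp))
    have n0 := f2 (s_mem_WA (i := 0) (by simp))
    rcases e with rfl | rfl <;> rcases a with rfl | rfl | rfl | rfl
    · exact ⟨γ, Or.inl (k γ 1 1 _ (by simp only [Nat.reduceAdd, map_one, one_smul]) (by simp))⟩
    · exact ⟨γ, Or.inl (k γ 1 _ _ n4 (by simp))⟩
    · exact ⟨γ, Or.inr (Or.inl (k γ _ 1 _ (by simp only [Nat.reduceAdd, map_one, one_smul]) (by simp)))⟩
    · exact ⟨γ, Or.inr (Or.inl (k γ _ _ _ n4 (by simp only [Nat.reduceAdd, mul_assoc])))⟩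
    · exact ⟨γ, Or.inr (Or.inr (k γ 1 1 _ (by simp) (by simp)))⟩
    · exact ⟨γ * x⁻¹, Or.inr (Or.inr (k _ 1 _ _ n0 (by simp only [Nat.reduceAdd, x, Subgroup.coe_mul, InvMemClass.coe_inv, mul_inv_rev, s_inv, mul_one, mul_assoc, s_mul_s])))⟩
    · exact ⟨γ, Or.inr (Or.inr (k γ 1 _ _ n5 (by simp)))⟩
    · exact ⟨γ * y, Or.inr (Or.inr (k _ 1 (s 5 * s 0) _ (by rw [map_mul, mul_smul, n0, n5])
        (by simp only [Nat.reduceAdd, y, mul_assoc, Subgroup.coe_mul, mul_one, s_s, s_mul_s])))⟩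

/-- The concrete model, with the finer description of the pair of pants. -/
theorem goalModelN (g m : ℕ) (h : 3 ≤ 2 * g + m) :
    ∃ (Γ : Type) (_ : Group Γ) (_ : Group.FG Γ) (Y : Fuchs Γ), Nonempty (Ends Y (Surface g) m) ∧
      (∃ ρ, Y.Baer ρ) ∧ Y.Fill ∧ (g = 0 ∧ m = 3 → Y.Pants3) ∧
      (¬ (g = 0 ∧ m = 3) → ∃ E, Y.Curve E) := by
  obtain ⟨Y⟩ : Nonempty (Poly (g + m)) := exists_poly (by omega)
  refine ⟨_, inferInstance, inferInstance, (lay g m h).fuchs Y, lay_ends h Y,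
    ⟨-1, baer_rel _ Y⟩, fun _ hE => Fuchs.fill _ hE, ?_, lay_curve h Y⟩
  rintro ⟨rfl, rfl⟩
  exact lay_pants3 h Y

end Pool.Agent.MP_646035_al.MC

end
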