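import Pool.Agent.MP_646035_al.Mg.NO_Iface
import Pool.Agent.MP_646035_al.Cx.Tw1
import Pool.Agent.MP_646035_al.Cx.Tw2
import Pool.Agent.MP_4a6971_al.H83.Hyper
import Pool.Agent.MP_646035_al.Cx.Base
import Pool.Agent.MP_646035_al.Mg.NO_Ker

attribute [-instance] SMulWithZero.toSMulZeroClass Semiring.toMonoid GradedMonoid.GradeZero.mulAction
  Submonoid.instSMulSubtypeMem DivisionCommMonoid.toDivisionMonoid Module.toDistribMulAction
  SMulCommClass.continuousConstSMul MulActionWithZero.toMulAction MonTypeEquivalenceMon.monMonoid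
  IsScalarTower.continuousConstSMul Algebra.toSMul ESeminormedAddCommMonoid.toAddCommMonoid
  Prod.mulAction AddMonoidWithOne.toAddMonoid NonUnitalRingHomClass.toMulHomClass
  SeminormedCommGroup.toPseudoMetricSpace instSMulZeroClass AddQuantale.instAddLeftMono
  MulSemiringAction.toDistribMulAction ESeminormedAddMonoid.toAddMonoid SetLike.GradeZero.instMonoid
  NonUnitalNonAssocRing.toAddCommGroup SemigroupWithZero.toSemigroup
  SeminormedGroup.toPseudoMetricSpace MonoidWithZero.toMonoid CommSemiring.toSemiring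
  GroupConeClass.toSubmonoidClass Valued.toUniformSpace DivisionSemiring.toSemiring
  MulDistribMulAction.toMulAction NonUnitalNonAssocSemiring.toAddCommMonoid
  NonUnitalAlgSemiHomClass.toMulHomClass IdemSemiring.toCanonicallyOrderedAdd Torsor.toMulAction
  NumberField.to_charZero Prod.instMul Submonoid.instDistribMulActionSubtypeMem
  AddQuantale.instAddRightMono NormedRing.toRing MonoidWithZero.toMulZeroOneClass
  DivisionRing.toDivInvMonoid SubtractionMonoid.toSubNegMonoid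
  NonUnitalNormedRing.toNormedAddCommGroup LieRing.toAddCommGroup NonAssocSemiring.toMulZeroOneClass
  CStarAlgebra.instOrderClosedTopology NonUnitalRing.toNonUnitalNonAssocRing
  SeminormedAddGroup.toAddGroup AddMonoidWithOne.toOne
  UniformContinuousConstSMul.instContinuousConstSMul Group.IsPerfect.subsingleton_of_isMulCommutative
  SubsemiringClass.toSubmonoidClass AddRightCancelMonoid.toAddMonoid Ring.toAddCommGroup
  GradedMonoid.GradeZero.smul Quantale.instMulRightMono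
  LinearOrderedCommMonoidWithZero.toPosMulStrictMono GroupWithZero.toDivInvMonoid
  IdemSemiring.toSemiring Topology.IsScott.instClosedIicTopologyOfUnivSet NormedAddGroup.toAddGroup
  MulAction.instMulAction SeminormedAddCommGroup.toAddCommGroup Prod.distribSMul

/-!
Thin collars about the lifts of a simple closed geodesic, and the flow along a lift.
-/

namespace Pool.Agent.MP_646035_al.NO

open Set Topology Pool.Agent.MP_4a6971_al.H66 Pool.Agent.MP_4a6971_al.H83 MC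

variable {Γ : Type} [Group Γ] (Y : Fuchs Γ)

theorem tw1_loc_fin {α : Γ} (hα : α ≠ 1) {E : V} (hE : IsAx (Y.σ α) E) (R : ℝ) :
    {F | (∃ γ, F = Y.σ γ • E) ∧ |Bf F o| ≤ R}.Finite := by
  obtain ⟨R', h⟩ := norm_pt (Y.hypA hα hE) hE R
  refine ((Y.proper R').image fun φ => (Y.σ φ)⁻¹ • E).subset ?_
  rintro _ ⟨⟨w, rfl⟩, hw⟩
  rw [Bf_move, ← map_inv] at hw
  obtain ⟨k, hk⟩ := h _ (H2_o.smul _) hw
  refine ⟨α ^ k * w⁻¹, by rwa [mem_ofPred_eq, map_mul, map_zpow, mul_smul], ?_⟩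
  simp only [map_mul, map_zpow, map_inv, mul_inv_rev, inv_inv, mul_smul]
  rw [← zpow_neg, hE.zpow]

theorem tw1_per_fin (R : ℝ) : {N | N ∈ Y.per ∧ |Bf N o| ≤ R}.Finite := by
  obtain ⟨T, hT, h⟩ := Y.per_fin
  refine ((hT.subset (inter_subset_left (t := Y.per))).biUnion
    (t := fun M => {F | (∃ γ, F = Y.σ γ • M) ∧ |Bf F o| ≤ R}) fun M hM => ?_).subset ?_
  · obtain ⟨γ, h1, h2⟩ := Y.per_ax M hM.2
    exact tw1_loc_fin Y h1 h2 R
  · rintro N ⟨h1, h2⟩
    obtain ⟨γ, hγ⟩ := h N h1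
    exact mem_biUnion (x := Y.σ γ • N) ⟨hγ, Y.per_smul γ N h1⟩
      ⟨⟨γ⁻¹, by rw [map_inv, inv_smul_smul]⟩, h2⟩

/-- An axis lies in front of the boundary lines. -/
theorem tw1_front {α : Γ} (hα : α ≠ 1) {E N : V} (hE : IsAx (Y.σ α) E) (hN : N ∈ Y.per)
    (h1 : E ∉ Y.per) (h2 : -E ∉ Y.per) {x : X} (hx : bf E x = 0) : 0 < bf N x := by
  obtain ⟨f, t, hf, h0⟩ := (Y.hypA hα hE).fr0 hE
  obtain ⟨β, -, hβ⟩ := Y.per_ax N hN
  have hp := H2_o.smul f
  have key : ∀ k : ℤ, 0 < Bf (f • N) (dil (k * t) • f • o) := fun k => by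
    rw [← hf.eq, Bf_isom, Bf_comm, Bf_move, Bf_comm, ← map_zpow, ← map_inv]
    exact Y.per_o _ (Y.per_smul _ N hN)
  have hy := x.2.smul f
  have e0 : (f • x.1).2.1 = 0 := by rw [← Bf_E0, ← h0, Bf_isom]; exact hx
  have eN : Bf (f • N) (f • N) = 1 := by rw [Bf_isom, hβ.1]
  have n1 : f • N ≠ E0 := fun e => h1 (by rwa [← smul_left_cancel f (e.trans h0.symm)])
  have n2 : f • N ≠ -E0 := fun e => h2 (by
    rw [← h0, ← smul_neg] at e
    rwa [← smul_left_cancel f e])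
  change 0 < Bf N x.1
  rw [← Bf_isom f]
  have p1 := hp.2
  have p2 := hp.pos
  have y1 := hy.2
  have y2 := hy.pos
  generalize f • N = M at key eN n1 n2 ⊢
  generalize f • o = p at key p1 p2
  generalize f • x.1 = y at e0 y1 y2 ⊢
  obtain ⟨a, b, c⟩ := M
  simp only [dil_smul, Bf] at key eN ⊢
  have ha : a ≤ 0 := by
    by_contra! ha
    obtain ⟨n, hn⟩ := grow_aux (α := a * p.2.2 / 2) (β := -(b * p.2.1)) (γ := c * p.1 / 2) hf.pos
      (by positivity) 0
    have u := hn n le_rfl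
    have v := key n
    rw [Int.cast_natCast] at v
    linarith only [u, v]
  have hc : c ≤ 0 := by
    by_contra! hc
    obtain ⟨n, hn⟩ := grow_aux (α := c * p.1 / 2) (β := -(b * p.2.1)) (γ := a * p.2.2 / 2) hf.pos
      (by positivity) 0
    have u := hn n le_rfl
    have v := key (-n)
    rw [Int.cast_neg, Int.cast_natCast, neg_mul, neg_neg] at v
    linarith only [u, v]
  rw [e0]
  by_contra! h
  have a0 : a = 0 := by nlinarith only [mul_nonneg (neg_nonneg.2 hc) y1.le, y2, ha, h]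
  have c0 : c = 0 := by nlinarith only [mul_nonneg (neg_nonneg.2 ha) y2.le, y1, hc, h]
  subst a0 c0
  rcases mul_self_eq_one_iff.1 (show b * b = 1 by linarith only [eN]) with rfl | rfl
  · exact n1 rfl
  · exact n2 (by simp [E0])

/-- The collars of width `η` are disjoint from each other and from the funnels. -/
structure Collar (E : V) (η : ℝ) : Prop where
  pos : 0 < η
  sep : ∀ γ x, |bf E x| ≤ η → |bf (Y.σ γ • E) x| ≤ η → Y.σ γ • E = E
  per : ∀ N ∈ Y.per, ∀ x, |bf E x| ≤ η → η < bf N x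

theorem exists_collar {E : V} (h : Y.Curve E) : ∃ η, Collar Y E η := by
  obtain ⟨α, hα, hE⟩ := h.ax
  obtain ⟨R, hR⟩ := norm_pt (Y.hypA hα hE) hE 1
  have c1 : Continuous fun p : V × X => bf p.1 p.2 :=
    continuous_Bf.comp (continuous_fst.prodMk (continuous_subtype_val.comp continuous_snd))
  obtain ⟨a, a0, a1⟩ := ((((tw1_loc_fin Y hα hE (3 * R)).subset
    (inter_subset_left (t := {F | F ≠ E}))).isCompact).prod (isCompact_Dsc oX R)).exists_forall_le'
    (f := fun p : V × X => max |bf E p.2| |bf p.1 p.2|) (a := 0)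
    (Continuous.continuousOn (by fun_prop)) (by
      rintro ⟨_, x⟩ ⟨⟨⟨⟨γ, rfl⟩, -⟩, n⟩, -⟩
      by_contra! c
      rw [max_le_iff, abs_nonpos_iff, abs_nonpos_iff] at c
      exact (tw1_meet hE.1 (by simpa using hE.1) c.1 c.2 (h.simple γ)).elim n
        (h.two γ))
  obtain ⟨b, b0, b1⟩ := (((tw1_per_fin Y (3 * R)).isCompact).prod
    (isCompact_Dsc oX R)).exists_forall_le'
    (f := fun p : V × X => max |bf E p.2| (bf p.1 p.2)) (a := 0)
    (Continuous.continuousOn (by fun_prop)) (by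
      rintro ⟨N, x⟩ ⟨⟨n, -⟩, -⟩
      by_contra! c
      rw [max_le_iff, abs_nonpos_iff] at c
      exact c.2.not_gt (tw1_front Y hα hE n h.pos h.neg c.1))
  have m0 : 0 < min 1 (min a b) := by positivity
  have m1 := min_le_left 1 (min a b)
  have m2 := (min_le_right 1 (min a b)).trans (min_le_left a b)
  have m3 := (min_le_right 1 (min a b)).trans (min_le_right a b)
  generalize min 1 (min a b) = m at m0 m1 m2 m3
  have mv : ∀ (k : ℤ) (N : V) (x : X), bf (Y.σ (α ^ k) • N) (Y.σ (α ^ k) • x) = bf N x :=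
    fun k N x => bf_smul _ _ _
  have fx : ∀ k : ℤ, Y.σ (α ^ k) • E = E := fun k => by rw [map_zpow, hE.zpow]
  have bd : ∀ (N : V) (y : X), Bf N N = 1 → cd oX y ≤ R → |bf N y| ≤ 1 → |Bf N o| ≤ 3 * R :=
    fun N y u v w => by
      have r := abs_Bf_le u H2_o y.2
      have r1 := one_le_cd oX y
      rw [ch_comm] at r
      change |Bf N o| ≤ (1 + 2 * |bf N y|) * cd oX y at r
      nlinarith only [v, w, r1, r]
  refine ⟨m / 2, by positivity, fun γ x h1 h2 => ?_, fun N hN x h1 => ?_⟩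
  · obtain ⟨k, hk⟩ := hR x.1 x.2 (h1.trans (by linarith only [m1]))
    rw [← map_zpow] at hk
    rw [← mv k] at h1 h2
    rw [fx] at h1
    by_contra n
    have := a1 (Y.σ (α ^ k) • Y.σ γ • E, Y.σ (α ^ k) • x) ⟨⟨⟨⟨α ^ k * γ, by rw [map_mul, mul_smul]⟩,
      bd _ (Y.σ (α ^ k) • x) (by simpa using hE.1) hk (h2.trans (by linarith only [m1]))⟩,
      fun e => n (smul_left_cancel _ (e.trans (fx k).symm))⟩, hk⟩
    have := max_le h1 h2
    linarith
  · obtain ⟨k, hk⟩ := hR x.1 x.2 (h1.trans (by linarith))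
    rw [← map_zpow] at hk
    rw [← mv k] at h1 ⊢
    rw [fx] at h1
    have n := Y.per_smul (α ^ k) N hN
    obtain ⟨β, -, hβ⟩ := Y.per_ax _ n
    change cd oX (Y.σ (α ^ k) • x) ≤ R at hk
    generalize Y.σ (α ^ k) • x = y at h1 hk
    generalize Y.σ (α ^ k) • N = M at n hβ
    by_contra! c
    have r1 := one_le_cd oX y
    have : |Bf M o| ≤ 3 * R := by
      rcases le_total 0 (bf M y) with d | d
      · exact bd M y hβ.1 hk (by rw [abs_of_nonneg d]; linarith)
      · have := abs_Bf_le_of_sign hβ.1 H2_o y.2 (mul_nonpos_of_nonneg_of_nonpos (Y.per_o M n).le d)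
        rw [ch_comm] at this
        change _ ≤ cd oX y at this
        linarith only [hk, r1, this]
    have := b1 (M, y) ⟨⟨n, this⟩, hk⟩
    have := max_le h1 c
    linarith

/-- The flow along the line `E` whose time one map is `τ`. -/
structure Flow (E : V) (τ : Γ) (fl : ℝ → Isom) : Prop where
  cont : Continuous fun p : ℝ × X => fl p.1 • p.2
  add : ∀ a b, fl (a + b) = fl a * fl b
  one : fl 1 = Y.σ τ
  fix : ∀ a, fl a • E = E
  comm : ∀ a γ, Y.σ γ • E = E → Y.σ γ * fl a = fl a * Y.σ γ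

theorem exists_flow' {τ : Γ} (hτ : τ ≠ 1) {E : V} (hE : IsAx (Y.σ τ) E) :
    ∃ fl, Flow Y E τ fl := by
  obtain ⟨f, t, hf, h0⟩ := (Y.hypA hτ hE).fr0 hE
  have e : ∀ (a : ℝ) (Q : V), f • (f⁻¹ * dil (a * t) * f) • Q = dil (a * t) • f • Q := fun a Q => by
    rw [mul_smul, mul_smul, smul_inv_smul]
  refine ⟨fun a => f⁻¹ * dil (a * t) * f, ?_, fun a b => ?_, ?_, fun a => ?_, fun a γ h => ?_⟩
  · refine Continuous.subtype_mk ?_ _
    simp only [mul_smul]
    refine (continuous_isom f⁻¹).comp ?_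
    simp only [dil_smul]
    have := (continuous_isom f).comp (continuous_subtype_val.comp
      (continuous_snd : Continuous fun p : ℝ × X => p.2))
    have c : Continuous fun p : ℝ × X => f • p.2.1 := this
    fun_prop
  · simp only [add_mul, dil_add]
    group
  · refine isom_ext fun Q => smul_left_cancel f ?_
    rw [e, hf.one, one_mul]
  · refine smul_left_cancel f ?_
    rw [e, h0]
    simp only [E0, dil_smul, zero_mul]
  · by_cases h1 : γ = 1
    · simp only [h1, map_one, one_mul, mul_one]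
    obtain ⟨s, hs⟩ := tw1_dil (Y.hypA h1 ⟨hE.1, h⟩) ⟨hE.1, h⟩ h0
    refine isom_ext fun Q => smul_left_cancel f ?_
    rw [mul_smul (Y.σ γ), mul_smul _ (Y.σ γ), hs, e, e, hs, ← mul_smul, ← mul_smul (dil _) (dil _),
      ← dil_add, ← dil_add, add_comm]

end Pool.Agent.MP_646035_al.NO

/-!
The twist about a simple closed geodesic as a homeomorphism.
-/

namespace Pool.Agent.MP_646035_al.NO

open Set Topology Filter Pool.Agent.MP_4a6971_al.H66 Pool.Agent.MP_4a6971_al.H83 MC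

variable {Γ : Type} [Group Γ] {Y : Fuchs Γ} {E : V} {η : ℝ} {τ : Γ} {fl : ℝ → Isom}

theorem Flow.zero (h : Flow Y E τ fl) : fl 0 = 1 := by simpa using h.add 0 0

theorem Flow.neg (h : Flow Y E τ fl) : Flow Y E τ⁻¹ fun a => fl (-a) where
  cont := h.cont.comp (continuous_fst.neg.prodMk continuous_snd)
  add := fun a b => by rw [neg_add, h.add]
  one := by rw [map_inv, ← h.one, eq_inv_iff_mul_eq_one, ← h.add, neg_add_cancel, h.zero]
  fix := fun a => h.fix _
  comm := fun a => h.comm _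

theorem Flow.bf (h : Flow Y E τ fl) (a : ℝ) (x : X) : bf E (fl a • x) = bf E x := by
  nth_rewrite 1 [← h.fix a]
  exact bf_smul _ _ _

open Classical in
/-- The equivariant shear; it jumps along the lifts of the curve. -/
noncomputable def tw2_s (Y : Fuchs Γ) (E : V) (η : ℝ) (fl : ℝ → Isom) (x : X) : X :=
  if h : ∃ γ, |bf (Y.σ γ • E) x| ≤ η then
    (Y.σ h.choose * fl (tw2_j η (bf (Y.σ h.choose • E) x)) * (Y.σ h.choose)⁻¹) • x else x

theorem tw2_in (hC : Collar Y E η) (h : Flow Y E τ fl) {γ : Γ} {x : X}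
    (hx : |bf (Y.σ γ • E) x| ≤ η) :
    tw2_s Y E η fl x = (Y.σ γ * fl (tw2_j η (bf (Y.σ γ • E) x)) * (Y.σ γ)⁻¹) • x := by
  have ex : ∃ γ, |bf (Y.σ γ • E) x| ≤ η := ⟨γ, hx⟩
  rw [tw2_s, dif_pos ex]
  have a := ex.choose_spec
  generalize ex.choose = β at a
  have e := hC.sep (γ⁻¹ * β) ((Y.σ γ)⁻¹ • x) (by rwa [tw2_mv]) (by
    rwa [map_mul, map_inv, mul_smul, bf_smul])
  have e' : Y.σ β • E = Y.σ γ • E := by
    rwa [map_mul, map_inv, mul_smul, inv_smul_eq_iff] at e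
  have c := h.comm (tw2_j η (bf (Y.σ γ • E) x)) _ e
  rw [map_mul, map_inv] at c
  rw [e']
  congr 1
  generalize fl (tw2_j η (bf (Y.σ γ • E) x)) = u at c ⊢
  calc _ = Y.σ γ * ((Y.σ γ)⁻¹ * Y.σ β * u) * (Y.σ β)⁻¹ := by group
    _ = _ := by rw [c]; group

theorem tw2_out (hC : Collar Y E η) (h : Flow Y E τ fl) {x : X}
    (hx : ∀ γ, η / 2 ≤ |bf (Y.σ γ • E) x|) : tw2_s Y E η fl x = x := by
  by_cases ex : ∃ γ, |bf (Y.σ γ • E) x| ≤ η
  · obtain ⟨γ, a⟩ := ex
    rw [tw2_in hC h a, tw2_far hC.pos (hx γ), h.zero, mul_one, mul_inv_cancel, one_smul]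
  · exact dif_neg ex

theorem tw2_equiv (hC : Collar Y E η) (h : Flow Y E τ fl) (β : Γ) (x : X) :
    tw2_s Y E η fl (Y.σ β • x) = Y.σ β • tw2_s Y E η fl x := by
  have mv : ∀ γ, bf (Y.σ (β * γ) • E) (Y.σ β • x) = bf (Y.σ γ • E) x := fun γ => by
    rw [map_mul, mul_smul, bf_smul]
  by_cases ex : ∃ γ, |bf (Y.σ γ • E) x| ≤ η
  · obtain ⟨γ, a⟩ := ex
    rw [tw2_in hC h a, tw2_in hC h (γ := β * γ) (by rwa [mv]), mv, ← mul_smul, ← mul_smul, map_mul]
    congr 1
    group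
  · push Not at ex
    have p := hC.pos
    rw [tw2_out hC h (x := x) fun γ => by linarith [ex γ], tw2_out hC h fun γ => ?_]
    rw [← mul_inv_cancel_left β γ, mv]
    linarith only [ex (β⁻¹ * γ), p]

theorem tw2_inv (hC : Collar Y E η) (h : Flow Y E τ fl) {fl' : ℝ → Isom} {τ' : Γ}
    (h' : Flow Y E τ' fl') (e : ∀ a, fl' a * fl a = 1) (x : X) :
    tw2_s Y E η fl' (tw2_s Y E η fl x) = x := by
  by_cases ex : ∃ γ, |bf (Y.σ γ • E) x| ≤ η
  · obtain ⟨γ, a⟩ := ex
    have b : bf (Y.σ γ • E) (tw2_s Y E η fl x) = bf (Y.σ γ • E) x := by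
      rw [tw2_in hC h a, mul_smul, mul_smul, bf_smul, h.bf, tw2_mv]
    rw [tw2_in hC h' (γ := γ) (by rwa [b]), b, tw2_in hC h a, ← mul_smul]
    generalize tw2_j η (bf (Y.σ γ • E) x) = r
    rw [show Y.σ γ * fl' r * (Y.σ γ)⁻¹ * (Y.σ γ * fl r * (Y.σ γ)⁻¹) =
      Y.σ γ * (fl' r * fl r) * (Y.σ γ)⁻¹ by group, e, mul_one, mul_inv_cancel, one_smul]
  · push Not at ex
    have p := hC.pos
    rw [tw2_out hC h fun γ => by linarith [ex γ], tw2_out hC h' fun γ => by linarith only [ex γ, p]]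

theorem tw2_ev (hE : Y.Curve E) (δ : ℝ) (x : X) :
    ∀ᶠ y in 𝓝 x, ∀ γ, δ < |bf (Y.σ γ • E) x| → δ < |bf (Y.σ γ • E) y| := by
  obtain ⟨α, hα, hE⟩ := hE.ax
  have a : ∀ᶠ y in 𝓝 x, cd oX y < cd oX x + 1 :=
    ContinuousAt.eventually_lt (by fun_prop) continuousAt_const (lt_add_one _)
  have b : ∀ᶠ y in 𝓝 x, ∀ N ∈ {F | (∃ γ, F = Y.σ γ • E) ∧ |Bf F o| ≤ (1 + 2 * |δ|) * (cd oX x + 1)},
      δ < |bf N x| → δ < |bf N y| := by
    refine (eventually_all_finite (tw1_loc_fin Y hα hE _)).2 fun N _ => ?_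
    by_cases c : δ < |bf N x|
    · exact (continuousAt_const.eventually_lt (continuous_bf N).abs.continuousAt c).mono
        fun y d _ => d
    · exact Eventually.of_forall fun y d => (c d).elim
  filter_upwards [a, b] with y a b γ c
  by_contra! d
  refine (b _ ⟨⟨γ, rfl⟩, ?_⟩ c).not_ge d
  have r := abs_Bf_le (E := Y.σ γ • E) (by simpa using hE.1) H2_o y.2
  rw [ch_comm] at r
  change _ ≤ (1 + 2 * |bf (Y.σ γ • E) y|) * cd oX y at r
  have := one_le_cd oX y
  have := d.trans (le_abs_self δ)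
  exact r.trans (mul_le_mul (by linarith) a.le (by linarith) (by positivity))

open Classical in
/-- The shear corrected along `E`. -/
noncomputable def tw2_t (Y : Fuchs Γ) (E : V) (η : ℝ) (τ : Γ) (fl : ℝ → Isom) (x : X) : X :=
  if 0 ≤ bf E x then tw2_s Y E η fl x else Y.σ τ • tw2_s Y E η fl x

theorem tw2_cont_s (hE : Y.Curve E) (hC : Collar Y E η) (h : Flow Y E τ fl) {x : X}
    (hx : ∀ γ, bf (Y.σ γ • E) x ≠ 0) : ContinuousAt (tw2_s Y E η fl) x := by
  by_cases ex : ∃ γ, |bf (Y.σ γ • E) x| < η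
  · obtain ⟨γ, a⟩ := ex
    have b : ∀ᶠ y in 𝓝 x, |bf (Y.σ γ • E) y| < η :=
      ContinuousAt.eventually_lt (by fun_prop) continuousAt_const a
    have c : ContinuousAt (fun y => tw2_j η (bf (Y.σ γ • E) y)) x := by
      have d := ((tw2_cc η).comp (continuous_bf (Y.σ γ • E))).continuousAt (x := x)
      rcases (hx γ).lt_or_gt with e | e
      · refine (d.sub (continuousAt_const (y := 1))).congr ?_
        filter_upwards [(continuous_bf _).continuousAt.eventually_lt continuousAt_const e] with y e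
        exact (if_neg e.not_ge).symm
      · refine d.congr ?_
        filter_upwards [continuousAt_const.eventually_lt (continuous_bf _).continuousAt e] with y e
        exact (if_pos e.le).symm
    have d : ContinuousAt (fun y => Y.σ γ • fl (tw2_j η (bf (Y.σ γ • E) y)) • (Y.σ γ)⁻¹ • y) x :=
      (continuous_const_smul (Y.σ γ)).continuousAt.comp (h.cont.continuousAt.comp
        (f := fun y => (tw2_j η (bf (Y.σ γ • E) y), (Y.σ γ)⁻¹ • y))
        (c.prodMk (continuous_const_smul _).continuousAt))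
    refine d.congr (b.mono fun y e => ?_)
    simp only [tw2_in hC h e.le, mul_smul]
  · push Not at ex
    have p := hC.pos
    refine continuousAt_id.congr ((tw2_ev hE (η / 2) x).mono fun y a => ?_)
    exact (tw2_out hC h fun γ => (a γ (by linarith [ex γ])).le).symm

theorem tw2_cont_t (hE : Y.Curve E) (hC : Collar Y E η) (h : Flow Y E τ fl) {x : X}
    (hx : ∀ γ, Y.σ γ • E ≠ E → bf (Y.σ γ • E) x ≠ 0) : ContinuousAt (tw2_t Y E η τ fl) x := by
  rcases lt_trichotomy (bf E x) 0 with e | e | e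
  · have d := tw2_cont_s hE hC h fun γ c => hx γ (fun b => e.ne (b ▸ c)) c
    refine (d.const_smul (Y.σ τ)).congr ?_
    filter_upwards [(continuous_bf _).continuousAt.eventually_lt continuousAt_const e] with y e
    exact (if_neg e.not_ge).symm
  · have b : ∀ᶠ y in 𝓝 x, |bf E y| < η :=
      ContinuousAt.eventually_lt (by fun_prop) continuousAt_const (by simpa [e] using hC.pos)
    have d : Continuous fun y => fl (tw2_c η (bf E y)) • y :=
      h.cont.comp (((tw2_cc η).comp (continuous_bf E)).prodMk continuous_id)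
    refine d.continuousAt.congr (b.mono fun y c => ?_)
    have := tw2_in hC h (γ := 1) (x := y) (by simpa only [map_one, one_smul] using c.le)
    simp only [map_one, one_smul, one_mul, inv_one, mul_one] at this
    rw [tw2_t, this, tw2_j]
    split_ifs
    · rfl
    · rw [← h.one, ← mul_smul, ← h.add, add_sub_cancel]
  · have d := tw2_cont_s hE hC h fun γ c => hx γ (fun b => e.ne' (b ▸ c)) c
    refine d.congr ?_
    filter_upwards [continuousAt_const.eventually_lt (continuous_bf _).continuousAt e] with y e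
    exact (if_pos e.le).symm

theorem Collar.ne (hC : Collar Y E η) {γ : Γ} (n : Y.σ γ • E ≠ E) {x : X} (hx : |bf E x| ≤ η) :
    bf (Y.σ γ • E) x ≠ 0 := fun e => n (hC.sep γ x hx (by simpa only [e, abs_zero] using hC.pos.le))

theorem Collar.same (hC : Collar Y E η) {γ : Γ} (n : Y.σ γ • E ≠ E) {x y : X}
    (hx : |bf E x| ≤ η) (hy : |bf E y| ≤ η) : 0 < bf (Y.σ γ • E) x * bf (Y.σ γ • E) y := by
  by_contra! c
  have s := (cvx_strip E η).isPreconnected
  have f := (continuous_bf (Y.σ γ • E)).continuousOn (s := {x | |bf E x| ≤ η})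
  rcases mul_nonpos_iff.1 c with ⟨a, b⟩ | ⟨a, b⟩
  · obtain ⟨z, u, v⟩ := s.intermediate_value hy hx f ⟨b, a⟩
    exact hC.ne n u v
  · obtain ⟨z, u, v⟩ := s.intermediate_value hx hy f ⟨a, b⟩
    exact hC.ne n u v

variable [MulAction Γ X] {B : Type} [TopologicalSpace B] {π : X → B}

theorem tw2_desc (hσ : ∀ (γ : Γ) (x : X), γ • x = Y.σ γ • x) (hπ : IsQuotientCoveringMap π Γ)
    (hE : Y.Curve E) (hC : Collar Y E η) (h : Flow Y E τ fl) :
    ∃ f : B → B, Continuous f ∧ ∀ x, f (π x) = π (tw2_s Y E η fl x) := by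
  have inv : ∀ γ x, π (Y.σ γ • x) = π x := fun γ x => by rw [← hσ, hπ.map_smul]
  have pt : ∀ x, π (tw2_t Y E η τ fl x) = π (tw2_s Y E η fl x) := fun x => by
    unfold tw2_t
    split_ifs
    · rfl
    · exact inv _ _
  have c : Continuous fun x => π (tw2_s Y E η fl x) := by
    refine continuous_iff_continuousAt.2 fun x => ?_
    obtain ⟨β, hβ⟩ : ∃ β, ∀ γ, Y.σ γ • E ≠ E → bf (Y.σ γ • E) (Y.σ β • x) ≠ 0 := by
      by_cases ex : ∃ γ, bf (Y.σ γ • E) x = 0
      · obtain ⟨γ, a⟩ := ex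
        refine ⟨γ⁻¹, fun γ' n => hC.ne n ?_⟩
        rw [map_inv, tw2_mv, a, abs_zero]
        exact hC.pos.le
      · exact ⟨1, fun γ _ e => ex ⟨γ, by simpa only [map_one, one_smul] using e⟩⟩
    have d : ContinuousAt (fun y => π (tw2_t Y E η τ fl (Y.σ β • y))) x :=
      hπ.continuous.continuousAt.comp
        ((tw2_cont_t hE hC h hβ).comp (continuous_const_smul _).continuousAt)
    simpa only [pt, tw2_equiv hC h, inv] using d
  have key : ∀ x, π (tw2_s Y E η fl (Function.surjInv hπ.surjective (π x))) =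
      π (tw2_s Y E η fl x) := fun x => by
    obtain ⟨γ, hγ⟩ := hπ.apply_eq_iff_mem_orbit.1 (Function.surjInv_eq hπ.surjective (π x))
    rw [← hγ]
    change π (tw2_s Y E η fl (γ • x)) = _
    rw [hσ, tw2_equiv hC h, inv]
  refine ⟨fun b => π (tw2_s Y E η fl (Function.surjInv hπ.surjective b)), ?_, key⟩
  rw [hπ.toIsQuotientMap.continuous_iff]
  exact c.congr fun x => (key x).symm

/-- The twist about a curve on any quotient of the plane by the group. -/
theorem exists_twist (hσ : ∀ (γ : Γ) (x : X), γ • x = Y.σ γ • x)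
    (hπ : IsQuotientCoveringMap π Γ) (hE : Y.Curve E) :
    ∃ (f : B ≃ₜ B) (F : X ≃ₜ X) (φ : MulAut Γ) (K : Set B) (η : ℝ), 0 < η ∧ IsLift π f F φ ∧
      Y.IsTwist E φ ∧ IsCompact K ∧ (∀ b, b ∉ K → f b = b) ∧
      ∀ N ∈ Y.per, ∀ x, bf N x ≤ η → π x ∉ K := by
  obtain ⟨η, hC⟩ := exists_collar Y hE
  obtain ⟨τ, hτ, ax⟩ := hE.ax
  obtain ⟨fl, h⟩ := exists_flow' Y hτ ax
  have p := hC.pos
  have inv : ∀ γ x, π (Y.σ γ • x) = π x := fun γ x => by rw [← hσ, hπ.map_smul]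
  have can : ∀ {γ β : Γ} (x : X), Y.σ γ • x = Y.σ β • x → γ = β := fun x e =>
    Lift_cancel hπ x (by rwa [hσ, hσ])
  obtain ⟨f, f1, f2⟩ := tw2_desc hσ hπ hE hC h
  obtain ⟨f', f1', f2'⟩ := tw2_desc hσ hπ hE hC h.neg
  let fh : B ≃ₜ B := ⟨⟨f, f', fun b => by
      obtain ⟨x, rfl⟩ := hπ.surjective b
      rw [f2, f2', tw2_inv hC h h.neg fun a => by rw [← h.add, neg_add_cancel, h.zero]],
    fun b => by
      obtain ⟨x, rfl⟩ := hπ.surjective b
      rw [f2', f2, tw2_inv hC h.neg h fun a => by rw [← h.add, add_neg_cancel, h.zero]]⟩, f1, f1'⟩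
  obtain ⟨A, a1, a2⟩ := Klein_frame ax.1
  obtain ⟨P, hP, -⟩ := exists_of_frame ax.1 a1 a2 η 0
  obtain ⟨Q, hQ, -⟩ := exists_of_frame ax.1 a1 a2 (-η) 0
  have hP' : |bf E P| ≤ η := by rw [hP, abs_of_pos p]
  have hQ' : |bf E Q| ≤ η := by rw [hQ, abs_neg, abs_of_pos p]
  obtain ⟨F, φ, hl, hF⟩ : ∃ (F : X ≃ₜ X) (φ : MulAut Γ), IsLift π fh F φ ∧
      F P = tw2_s Y E η fl P := by
    obtain ⟨F, φ, hl⟩ := exists_isLift hπ fh
    obtain ⟨γ, hγ⟩ := hπ.apply_eq_iff_mem_orbit.1 ((f2 P).symm.trans (hl.lift P).symm)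
    obtain ⟨ψ, hψ⟩ := Lift_act hπ fh (F.trans (Homeomorph.smul (Y.σ γ))) fun x =>
      (inv γ _).trans (hl.lift x)
    exact ⟨_, ψ, hψ, (hσ γ _).symm.trans hγ⟩
  have act : ∀ γ x, F (Y.σ γ • x) = Y.σ (φ γ) • F x := fun γ x => by
    rw [← hσ, ← hσ, hl.act]
  let U : Set X := {x | ∀ γ, Y.σ γ • E ≠ E → 0 < bf (Y.σ γ • E) P * bf (Y.σ γ • E) x}
  have cU : Cvx U := fun a ha b hb y hy γ n => by
    have := cvx_half' (bf (Y.σ γ • E) P • Y.σ γ • E) a (by simpa only [bf, Bf_smul_left, mem_ofPred_eq] using ha γ n) b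
      (by simpa only [bf, Bf_smul_left, mem_ofPred_eq] using hb γ n) hy
    simpa only [bf, gt_iff_lt, Bf_smul_left, mem_ofPred_eq] using this
  have FU : ∀ x ∈ U, F x = tw2_t Y E η τ fl x :=
    hπ.isCoveringMap.eqOn_of_comp_eqOn cU.isPreconnected F.continuous.continuousOn
      (fun x hx => (tw2_cont_t hE hC h fun γ n e => by simpa [e] using hx γ n).continuousWithinAt)
      (fun x _ => (hl.lift x).trans ((f2 x).trans (by
        change _ = π (tw2_t Y E η τ fl x)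
        unfold tw2_t
        split_ifs
        · rfl
        · exact (inv _ _).symm)))
      (fun γ n => hC.same n hP' hP') (hF.trans (if_pos (hP ▸ p.le)).symm)
  have QU : Q ∈ U := fun γ n => hC.same n hP' hQ'
  have t1 : ∀ β, Y.NoWall E P.1 (Y.σ β • P.1) → φ β = β := fun β w => by
    have a := FU (Y.σ β • P) fun γ _ => w γ
    have b : 0 < bf E P * bf E (Y.σ β • P) := by simpa only [bf, coe_smul, map_one, one_smul] using w 1
    rw [tw2_t, if_pos ((mul_pos_iff_of_pos_left (p.trans_eq hP.symm)).1 b).le, act, hF, tw2_equiv hC h] at a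
    exact can _ a
  have t2 : ∀ β, Y.NoWall E Q.1 (Y.σ β • Q.1) → φ β = τ * β * τ⁻¹ := fun β w => by
    have a := FU (Y.σ β • Q) fun γ n => by
      have u : 0 < bf (Y.σ γ • E) Q * bf (Y.σ γ • E) (Y.σ β • Q) := w γ
      have v := QU γ n
      nlinarith only [mul_pos u v, sq_nonneg (bf (Y.σ γ • E) Q)]
    have b : 0 < bf E Q * bf E (Y.σ β • Q) := by simpa only [bf, coe_smul, map_one, one_smul] using w 1
    have c : ¬ 0 ≤ bf E Q := by rw [hQ]; linarith only [p]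
    rw [tw2_t, if_neg (by rw [hQ] at b; nlinarith only [p, b]), act, FU Q QU, tw2_t, if_neg c,
      tw2_equiv hC h, ← mul_smul, ← mul_smul, ← map_mul, ← map_mul] at a
    rw [← can _ a, mul_inv_cancel_right]
  obtain ⟨R, hR⟩ := norm_pt (Y.hypA hτ ax) ax η
  have out : ∀ x, (∀ γ, η / 2 < |bf (Y.σ γ • E) x|) →
      π x ∉ π '' (Dsc oX R ∩ {x | |bf E x| ≤ η / 2}) := by
    rintro x hx ⟨y, ⟨-, a⟩, b⟩
    obtain ⟨γ, rfl⟩ := hπ.apply_eq_iff_mem_orbit.1 b
    refine (hx γ⁻¹).not_ge ?_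
    rwa [map_inv, ← tw2_mv, inv_inv, ← hσ]
  have funnel : ∀ N ∈ Y.per, ∀ x, bf N x ≤ η → ∀ γ, η / 2 < |bf (Y.σ γ • E) x| :=
    fun N hN x hx γ => by
      by_contra! c
      have := hC.per _ (Y.per_smul γ⁻¹ N hN) ((Y.σ γ)⁻¹ • x) (by rw [tw2_mv]; linarith only [p, c])
      rw [map_inv, bf_smul] at this
      exact this.not_ge hx
  refine ⟨fh, F, φ, π '' (Dsc oX R ∩ {x | |bf E x| ≤ η / 2}), η, p, hl,
    ⟨τ, P.1, Q.1, hτ, ax, P.2, Q.2, p.trans_eq hP.symm, by change bf E Q < 0; linarith only [p, hQ],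
      fun γ n _ => QU γ n, t1, t2⟩,
    ((isCompact_Dsc oX R).inter_right (isClosed_le (by fun_prop) continuous_const)).image
      hπ.continuous, fun b hb => ?_, fun N hN x hx => out x (funnel N hN x hx)⟩
  obtain ⟨x, rfl⟩ := hπ.surjective b
  refine (f2 x).trans (congrArg π (tw2_out hC h fun γ => ?_))
  by_contra! c
  rw [← tw2_mv] at c
  obtain ⟨k, hk⟩ := hR _ ((Y.σ γ)⁻¹ • x).2 (c.le.trans (by linarith only [p]))
  refine hb ⟨Y.σ τ ^ k • (Y.σ γ)⁻¹ • x, ⟨hk, ?_⟩, by rw [← map_zpow, inv, ← map_inv, inv]⟩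
  rw [mem_ofPred_eq, ← ax.zpow k, bf_smul]
  exact c.le

end Pool.Agent.MP_646035_al.NO

/-!
Charts at the holes: every cover with ends is a model.
-/

namespace Pool.Agent.MP_646035_al.NO

open Pool.Agent.MP_4a6971_al Pool.Agent.MP_4a6971_al.H66 Pool.Agent.MP_4a6971_al.H83
  Pool.Agent.MP_4a6971_al.Mcg Set Topology MC

variable {Γ : Type} [Group Γ] {Y : Fuchs Γ} {S : Type} [TopologicalSpace S] {m : ℕ}

/-- The stabiliser of a boundary line is infinite cyclic. -/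
theorem base_frame (Y : Fuchs Γ) {N : V} (hN : N ∈ Y.per) :
    ∃ (γ : Γ) (f : Isom) (t : ℝ), 0 < t ∧ f • E0 = N ∧ Y.σ γ * f = f * dil t ∧
      ∀ δ, Y.σ δ • N = N → δ ∈ Subgroup.zpowers γ := by
  obtain ⟨α, hα, hE⟩ := Y.per_ax N hN
  obtain ⟨g, t₀, hg, h0⟩ := (Y.hypA hα hE).fr0 hE
  have conv : ∀ δ s, (∀ Q : V, g • Y.σ δ • Q = dil s • g • Q) → Y.σ δ * g⁻¹ = g⁻¹ * dil s :=
    fun δ s h => isom_ext fun Q => by
      rw [mul_smul, mul_smul, eq_inv_smul_iff, h, smul_inv_smul]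
  let H : AddSubgroup ℝ :=
    { carrier := {s | ∃ δ, Y.σ δ * g⁻¹ = g⁻¹ * dil s}
      zero_mem' := ⟨1, by rw [map_one, dil_zero, one_mul, mul_one]⟩
      add_mem' := by
        rintro a b ⟨δ, h⟩ ⟨δ', h'⟩
        exact ⟨δ * δ', by rw [map_mul, mul_assoc, h', ← mul_assoc, h, dil_add, mul_assoc]⟩
      neg_mem' := by
        rintro a ⟨δ, h⟩
        exact ⟨δ⁻¹, by rw [map_inv, dil_neg, inv_mul_eq_iff_eq_mul, ← mul_assoc, h,
          mul_inv_cancel_right]⟩ }
  have mv : ∀ δ s, Y.σ δ * g⁻¹ = g⁻¹ * dil s → Y.σ δ • g⁻¹ • fm 0 0 = g⁻¹ • fm s 0 :=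
    fun δ s h => by simpa only [zpow_ofNat, pow_one, Int.cast_one, one_mul, zero_add] using base_zpow h 1 0 0
  have fin : {s | (s ∈ H ∧ 0 < s) ∧ s ≤ t₀}.Finite := by
    have c : IsCompact ((fun s => g⁻¹ • fm s 0) '' Icc 0 t₀) :=
      isCompact_Icc.image ((continuous_const_smul g⁻¹).comp
        (continuous_fm.comp (f := fun s : ℝ => (s, (0 : ℝ))) (by fun_prop)))
    refine ((Y.finite_meet (isCompact_singleton (x := g⁻¹ • fm 0 0)) c).image
      fun δ => fs (g • Y.σ δ • g⁻¹ • fm 0 0)).subset ?_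
    rintro s ⟨⟨⟨δ, h⟩, a⟩, b⟩
    exact ⟨δ, ⟨_, rfl, s, ⟨a.le, b⟩, (mv δ s h).symm⟩, by
      simp only [mv δ s h, smul_inv_smul, fs_fm]⟩
  obtain ⟨t, ⟨⟨⟨γ, hγ⟩, tp⟩, tl⟩, hm⟩ := exists_min_image _ id fin
    ⟨t₀, ⟨⟨α, conv α t₀ hg.one⟩, hg.pos⟩, le_rfl⟩
  have cyc : H = AddSubgroup.closure {t} := AddSubgroup.cyclic_of_min
    ⟨⟨⟨γ, hγ⟩, tp⟩, fun s hs => (le_total s t₀).elim (fun a => hm s ⟨hs, a⟩) tl.trans⟩
  refine ⟨γ, g⁻¹, t, tp, by rw [← h0, inv_smul_smul], hγ, fun δ hδ => ?_⟩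
  by_cases h1 : δ = 1
  · exact h1 ▸ one_mem _
  obtain ⟨s, hs⟩ := tw1_dil (Y.hypA h1 ⟨hE.1, hδ⟩) ⟨hE.1, hδ⟩ h0
  have a : s ∈ H := ⟨δ, conv δ s hs⟩
  rw [cyc, AddSubgroup.mem_closure_singleton] at a
  obtain ⟨k, rfl⟩ := a
  refine ⟨k, Y.cancel (g⁻¹ • fm 0 0) ?_⟩
  rw [mv δ _ (conv δ _ hs), map_zpow, base_zpow hγ, zero_add, zsmul_eq_mul]

/-- The group is cocompact on the neighbourhoods of the boundary lines. -/
theorem base_near (Y : Fuchs Γ) (ρ : ℝ) :
    ∃ R, ∀ N ∈ Y.per, ∀ x : X, |bf N x| ≤ ρ → ∃ γ, Y.σ γ • x ∈ Dsc oX R := by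
  obtain ⟨T, hT, h⟩ := Y.per_fin
  have a : ∀ M : V, ∃ R, M ∈ Y.per → ∀ x : X, |bf M x| ≤ ρ → ∃ γ, Y.σ γ • x ∈ Dsc oX R := fun M => by
    by_cases hM : M ∈ Y.per
    · obtain ⟨α, hα, hE⟩ := Y.per_ax M hM
      obtain ⟨R, hR⟩ := norm_pt (Y.hypA hα hE) hE ρ
      refine ⟨R, fun _ x hx => ?_⟩
      obtain ⟨k, hk⟩ := hR x.1 x.2 hx
      exact ⟨α ^ k, by rwa [map_zpow]⟩
    · exact ⟨0, fun c => absurd c hM⟩
  choose R hR using a
  obtain ⟨R₀, h₀⟩ := (hT.image R).bddAbove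
  refine ⟨R₀, fun N hN x hx => ?_⟩
  obtain ⟨γ, hγ⟩ := h N hN
  obtain ⟨δ, hδ⟩ := hR _ (Y.per_smul γ N hN) (Y.σ γ • x) (by rwa [bf_smul])
  exact ⟨δ * γ, by
    rw [map_mul, mul_smul]
    exact le_trans hδ (h₀ ⟨_, hγ, rfl⟩)⟩

/-- The group is cocompact outside the deep parts of the funnels. -/
theorem base_core (Y : Fuchs Γ) (r : ℝ) :
    ∃ K : Set X, IsCompact K ∧ ∀ x : X, (∀ N ∈ Y.per, r ≤ bf N x) → ∃ γ, Y.σ γ • x ∈ K := by
  obtain ⟨R, hR⟩ := base_near Y |r|
  obtain ⟨R', hR'⟩ := Y.cocompact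
  refine ⟨_, (isCompact_Dsc oX R).union (isCompact_Dsc oX R'), fun x hx => ?_⟩
  by_cases h : ∀ N ∈ Y.per, 0 ≤ Bf N x.1
  · obtain ⟨γ, hγ⟩ := hR' x.1 x.2 h
    refine ⟨γ⁻¹, Or.inr ?_⟩
    change cd oX (Y.σ γ⁻¹ • x) ≤ R'
    rw [← cd_smul (Y.σ γ), map_inv, smul_inv_smul, cd_comm]
    exact hγ
  · push Not at h
    obtain ⟨N, a, b⟩ := h
    obtain ⟨γ, hγ⟩ := hR N a x (by
      rw [abs_of_neg (show bf N x < 0 from b)]
      linarith [hx N a, neg_abs_le r])
    exact ⟨γ, Or.inl hγ⟩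

/-- The funnels have disjoint collars. -/
theorem base_collar (Y : Fuchs Γ) :
    ∃ ε, 0 < ε ∧ ∀ N ∈ Y.per, ∀ N' ∈ Y.per, ∀ x, bf N x < ε → bf N' x < ε → N = N' := by
  obtain ⟨R, hR⟩ := base_near Y 1
  have un : ∀ N ∈ Y.per, Bf N N = 1 := fun N hN => (Y.per_ax N hN).choose_spec.2.1
  have fin := tw1_per_fin Y (3 * R)
  obtain ⟨η, hη, h⟩ : ∃ η, 0 < η ∧ ∀ p ∈ {N | N ∈ Y.per ∧ |Bf N o| ≤ 3 * R} ×ˢ
      {N | N ∈ Y.per ∧ |Bf N o| ≤ 3 * R}, p.1 ≠ p.2 → Bf p.1 p.2 < -1 - η := by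
    have : ∀ᶠ η in 𝓝[>] (0 : ℝ), ∀ p ∈ {N | N ∈ Y.per ∧ |Bf N o| ≤ 3 * R} ×ˢ
        {N | N ∈ Y.per ∧ |Bf N o| ≤ 3 * R}, p.1 ≠ p.2 → Bf p.1 p.2 < -1 - η := by
      refine (Filter.eventually_all_finite (fin.prod fin)).2 fun p hp => ?_
      by_cases c : p.1 = p.2
      · exact .of_forall fun _ d => absurd c d
      · have := Y.per_far _ hp.1.1 _ hp.2.1 c
        filter_upwards [Ioo_mem_nhdsGT (show (0 : ℝ) < -1 - Bf p.1 p.2 by linarith)] with η a _
        linarith [a.2]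
    obtain ⟨η, a, b⟩ := (this.and self_mem_nhdsWithin).exists
    exact ⟨η, b, a⟩
  refine ⟨min 1 (η / 2), lt_min one_pos (half_pos hη), fun N hN N' hN' x a b => ?_⟩
  by_contra c
  obtain ⟨a1, a2⟩ := lt_min_iff.1 a
  obtain ⟨b1, b2⟩ := lt_min_iff.1 b
  have s : 0 < bf N x + bf N' x := Bf_add_pos (un N hN) (un N' hN') (Y.per_far N hN N' hN' c)
    (add_pos (Y.per_o N hN) (Y.per_o N' hN')) x.2.fut
  have a3 : |bf N x| ≤ 1 := abs_le.2 ⟨by linarith only [b1, s], a1.le⟩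
  have b3 : |bf N' x| ≤ 1 := abs_le.2 ⟨by linarith only [a1, s], b1.le⟩
  obtain ⟨γ, hγ⟩ := hR N hN x a3
  have key : ∀ M ∈ Y.per, |bf M x| ≤ 1 → Y.σ γ • M ∈ {N | N ∈ Y.per ∧ |Bf N o| ≤ 3 * R} :=
    fun M hM d => by
      refine ⟨Y.per_smul γ M hM, ?_⟩
      have e := abs_Bf_le (un _ (Y.per_smul γ M hM)) H2_o (Y.σ γ • x).2
      have e1 : ch (Y.σ γ • x).1 o ≤ R := by
        rw [ch_comm]
        exact hγ
      have e2 := one_le_ch (Y.σ γ • x).2 H2_o
      have e3 : |Bf (Y.σ γ • M) (Y.σ γ • x).1| ≤ 1 := by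
        rw [coe_smul, Bf_isom]
        exact d
      nlinarith only [e, e1, e2, e3]
  have k := h (Y.σ γ • N, Y.σ γ • N') ⟨key N hN a3, key N' hN' b3⟩
    fun e => c (smul_left_cancel _ e)
  rw [Bf_isom] at k
  nlinarith only [base_lower (un N hN) (un N' hN') x, a1, a2, b1, b2, s, k]

namespace Ends

variable [T2Space S] (Z : Ends Y S m)

omit [T2Space S] in
theorem base_ne (x : X) (i : Fin m) : Z.π x ≠ Z.ctr i := (Z.rng _).1 ⟨x, rfl⟩ i

omit [T2Space S] in
/-- A point is a centre, lies deep in a funnel, or lies in the image of a compact set. -/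
theorem base_cases (r : ℝ) : ∃ K : Set X, IsCompact K ∧ ∀ s : S,
    (∃ i, s = Z.ctr i) ∨ (∃ i x, bf (Z.B i) x ≤ r ∧ Z.π x = s) ∨ s ∈ Z.π '' K := by
  obtain ⟨K, hK, h⟩ := base_core Y r
  refine ⟨K, hK, fun s => ?_⟩
  by_cases a : ∀ i, s ≠ Z.ctr i
  · obtain ⟨x, rfl⟩ := (Z.rng s).2 a
    by_cases b : ∀ N ∈ Y.per, r ≤ bf N x
    · obtain ⟨γ, hγ⟩ := h x b
      exact Or.inr (Or.inr ⟨_, hγ, Z.π_smul γ x⟩)
    · push Not at b
      obtain ⟨N, hN, c⟩ := b
      obtain ⟨i, γ, rfl⟩ := Z.orb N hN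
      refine Or.inr (Or.inl ⟨i, Y.σ γ⁻¹ • x, ?_, Z.π_smul _ x⟩)
      rw [← bf_smul (Y.σ γ), map_inv, smul_inv_smul]
      exact c.le
  · push Not at a
    exact Or.inl a

theorem base_opn : IsOpenMap Z.π := by
  intro U hU
  rw [isOpen_iff_mem_nhds]
  rintro _ ⟨x, hx, rfl⟩
  choose A B hA hB xA cB dj using fun i => t2_separation (Z.base_ne x i)
  choose r hr using fun i => Z.lim i (B i) ((hB i).mem_nhds (cB i))
  obtain ⟨r₀, h₀⟩ := (finite_range r).bddBelow
  obtain ⟨K, hK, h⟩ := Z.base_cases r₀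
  have c : IsCompact (Z.π '' (K ∩ ⋂ γ, (fun y => Y.σ γ • y) ⁻¹' Uᶜ)) :=
    (hK.inter_right (isClosed_iInter fun γ =>
      hU.isClosed_compl.preimage (continuous_const_smul _))).image Z.cont
  have n : Z.π x ∉ Z.π '' (K ∩ ⋂ γ, (fun y => Y.σ γ • y) ⁻¹' Uᶜ) := by
    rintro ⟨y, ⟨-, a⟩, e⟩
    obtain ⟨γ, rfl⟩ := (Z.fib x y).1 e.symm
    exact mem_iInter.1 a γ hx
  filter_upwards [c.isClosed.isOpen_compl.mem_nhds n,
    Filter.iInter_mem.2 fun i => (hA i).mem_nhds (xA i)] with s a b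
  rw [mem_iInter] at b
  rcases h s with ⟨i, rfl⟩ | ⟨i, y, e, rfl⟩ | ⟨y, e, rfl⟩
  · exact absurd (cB i) (disjoint_left.1 (dj i) (b i))
  · exact absurd (hr i y (e.trans (h₀ ⟨i, rfl⟩))) (disjoint_left.1 (dj i) (b i))
  · by_contra d
    exact a ⟨y, ⟨e, mem_iInter.2 fun γ k => d ⟨_, k, Z.π_smul γ y⟩⟩, rfl⟩

/-- Different ends belong to different orbits of boundary lines. -/
theorem base_orb {i j : Fin m} {δ : Γ} (h : Z.B i = Y.σ δ • Z.B j) : i = j := by
  by_contra c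
  obtain ⟨A, B, hA, hB, a, b, dj⟩ := t2_separation fun e => c (Z.inj e)
  obtain ⟨r, hr⟩ := Z.lim i A (hA.mem_nhds a)
  obtain ⟨r', hr'⟩ := Z.lim j B (hB.mem_nhds b)
  obtain ⟨-, f, -, -, hf, -⟩ := base_frame Y (Z.B_per j)
  have e : bf (Z.B j) (f • fm 0 (min r r')) = min r r' := by rw [← hf, bf_smul, bf_fm]
  have p := hr (Y.σ δ • f • fm 0 (min r r')) (by rw [h, bf_smul, e]; exact min_le_left _ _)
  rw [Z.π_smul] at p
  exact disjoint_left.1 dj p (hr' _ (by rw [e]; exact min_le_right _ _))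

end Ends

theorem Ends.exists_model [T2Space S] (Z : Ends Y S m) : ∃ M : Model Y S m, M.toEnds = Z := by
  classical
  obtain ⟨ε, hε, col⟩ := base_collar Y
  choose γ fr t ht hB hγ hst using fun i => base_frame Y (Z.B_per i)
  have hp := Real.pi_pos
  have opn := Z.base_opn
  obtain ⟨G, hG⟩ : ∃ G : Fin m → ℂ → S, ∀ i w, G i w = Z.π (fr i • baseP ε (t i) w) :=
    ⟨_, fun _ _ => rfl⟩
  have lev : ∀ i w, bf (Z.B i) (fr i • baseP ε (t i) w) = ε * (1 - Real.exp (-w.re)) :=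
    fun i w => by rw [← hB, bf_smul, baseP, bf_fm]
  have Gc : ∀ i, Continuous (G i) := fun i =>
    (Z.cont.comp (baseP_cont.const_smul (fr i))).congr fun w => (hG i w).symm
  have Go : ∀ i, IsOpenMap (G i) := fun i => by
    rw [show G i = Z.π ∘ (fun x => fr i • x) ∘ baseP ε (t i) from funext (hG i)]
    exact opn.comp ((isOpenMap_smul _).comp (baseP_open hε (ht i)))
  have Gp : ∀ i w w', Complex.exp w = Complex.exp w' → G i w = G i w' := fun i w w' e => by
    obtain ⟨k, rfl⟩ := Complex.exp_eq_exp_iff_exists_int.1 e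
    rw [hG, hG, ← Z.π_smul (γ i ^ k) (fr i • baseP ε (t i) w'), map_zpow, baseP, baseP,
      base_zpow (hγ i)]
    congr 3
    · simp only [Complex.add_im, Complex.mul_im, Complex.intCast_re, Complex.mul_re, Complex.re_ofNat, Complex.ofReal_re, Complex.im_ofNat, Complex.ofReal_im, mul_zero, sub_zero, Complex.I_im, mul_one, zero_mul, add_zero, Complex.I_re, Complex.intCast_im, sub_self]
      field_simp
    · simp
  have Gi : ∀ i j w w', G i w = G j w' → i = j ∧ Complex.exp w = Complex.exp w' :=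
    fun i j w w' e => by
      rw [hG, hG] at e
      obtain ⟨δ, hδ⟩ := (Z.fib _ _).1 e
      have a := col _ (Z.B_per i) _ (Y.per_smul δ _ (Z.B_per j)) (fr i • baseP ε (t i) w)
        (by rw [lev]; exact baseP_lt hε _) (by rw [hδ, bf_smul, lev]; exact baseP_lt hε _)
      obtain rfl := Z.base_orb a
      obtain ⟨k, rfl⟩ := hst i δ a.symm
      refine ⟨rfl, Complex.exp_eq_exp_iff_exists_int.2 ⟨k, ?_⟩⟩
      simp only [map_zpow] at hδ
      rw [baseP, baseP, base_zpow (hγ i), smul_left_cancel_iff] at hδ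
      have b := congrArg fs hδ
      have c := congrArg (bf E0) hδ
      rw [fs_fm, fs_fm] at b
      rw [bf_fm, bf_fm, mul_right_inj' hε.ne', sub_right_inj, Real.exp_eq_exp, neg_inj] at c
      have d := ht i
      refine Complex.ext (by simpa using c) ?_
      simp
      field_simp at b
      linarith only [b]
  obtain ⟨D, D0, De⟩ : ∃ D : Fin m → ℂ → S, (∀ i, D i 0 = Z.ctr i) ∧
      ∀ i w, D i (Complex.exp w) = G i w :=
    ⟨fun i z => if z = 0 then Z.ctr i else G i (Complex.log z), fun i => if_pos rfl,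
      fun i w => (if_neg (Complex.exp_ne_zero w)).trans
        (Gp i _ _ (Complex.exp_log (Complex.exp_ne_zero w)))⟩
  have pol : ∀ z : ℂ, z = 0 ∨ ∃ w, z = Complex.exp w := fun z =>
    or_iff_not_imp_left.2 fun h => ⟨_, (Complex.exp_log h).symm⟩
  have Di : ∀ i j z z', D i z = D j z' → i = j ∧ z = z' := fun i j z z' e => by
    rcases pol z with rfl | ⟨w, rfl⟩ <;> rcases pol z' with rfl | ⟨w', rfl⟩
    · exact ⟨Z.inj (by rwa [D0, D0] at e), rfl⟩
    · exact absurd (by rw [← D0, e, De, hG]) (Z.base_ne (fr j • baseP ε (t j) w') i)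
    · exact absurd (by rw [← D0, ← e, De, hG]) (Z.base_ne (fr i • baseP ε (t i) w) j)
    · exact Gi i j w w' (by rwa [De, De] at e)
  have Dπ : ∀ i (s r : ℝ), r < ε → Z.π (fr i • fm s r) =
      D i (Complex.exp (baseQ ε (t i) s r)) := fun i s r hr => by
    rw [De, hG, baseP_Q hε (ht i) s hr]
  have mapexp : ∀ w, Filter.map Complex.exp (𝓝 w) = 𝓝 (Complex.exp w) := fun w =>
    Complex.isOpenMap_exp.map_nhds_eq Complex.continuous_exp.continuousAt
  have comp : ∀ i, D i ∘ Complex.exp = G i := fun i => funext (De i)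
  have Dc : ∀ i, Continuous (D i) := fun i => continuous_iff_continuousAt.2 fun z => by
    rcases pol z with rfl | ⟨w, rfl⟩
    · intro U hU
      rw [D0] at hU
      obtain ⟨r, hr⟩ := Z.lim i U hU
      have p : 0 < ε / (ε + |r|) := by positivity
      rw [Filter.mem_map]
      filter_upwards [Metric.ball_mem_nhds (0 : ℂ) p] with z hz
      rcases pol z with rfl | ⟨w, rfl⟩
      · rw [mem_preimage, D0]
        exact mem_of_mem_nhds hU
      · rw [mem_preimage, De, hG]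
        refine hr _ ?_
        rw [mem_ball_zero_iff, Complex.norm_exp, lt_div_iff₀ (by positivity)] at hz
        have e : Real.exp w.re * Real.exp (-w.re) = 1 := by rw [← Real.exp_add]; simp
        have q := Real.exp_pos (-w.re)
        have u : ε + |r| < ε * Real.exp (-w.re) := by
          have := mul_lt_mul_of_pos_right hz q
          rwa [mul_right_comm, e, one_mul] at this
        rw [lev]
        linarith only [neg_abs_le r, u]
    · rw [ContinuousAt, ← mapexp, Filter.tendsto_map'_iff, comp, De]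
      exact (Gc i).continuousAt
  have deep : ∀ i x r, r < ε → bf (Z.B i) x ≤ r → ∃ z, Z.π x = D i z ∧ ‖z‖ ≤ ε / (ε - r) :=
    fun i x r hr hx => by
      have a : bf E0 ((fr i)⁻¹ • x) = bf (Z.B i) x := by
        rw [← bf_smul (fr i), hB, smul_inv_smul]
      have b := hx.trans_lt hr
      refine ⟨_, by rw [← Dπ i (fs ((fr i)⁻¹ • x)) _ b, ← a, fm_fs, smul_inv_smul], ?_⟩
      rw [Complex.norm_exp, baseQ, Real.exp_log (div_pos hε (sub_pos.2 b))]
      gcongr
  have Do : ∀ i, IsOpenMap (D i) := fun i => isOpenMap_iff_nhds_le.2 fun z => by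
    rcases pol z with rfl | ⟨w, rfl⟩
    · intro U hU
      obtain ⟨ρ, hρ, hb⟩ := Metric.nhds_basis_closedBall.mem_iff.1 hU
      have q := div_pos hε hρ
      obtain ⟨K, hK, h⟩ := Z.base_cases (-(ε / ρ))
      have cl : ∀ j, IsClosed (D j '' Metric.closedBall 0 ρ) := fun j =>
        ((isCompact_closedBall 0 ρ).image (Dc j)).isClosed
      have n1 : D i 0 ∉ Z.π '' K := by
        rintro ⟨x, -, e⟩
        exact Z.base_ne x i (e.trans (D0 i))
      have n2 : ∀ j, ∀ᶠ s in 𝓝 (D i 0), j ≠ i → s ∉ D j '' Metric.closedBall 0 ρ := fun j => by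
        by_cases c : j = i
        · exact .of_forall fun _ d => absurd c d
        · filter_upwards [(cl j).isOpen_compl.mem_nhds
            (x := D i 0) fun ⟨z, _, e⟩ => c (Di j i z 0 e).1] with s a _ using a
      filter_upwards [(hK.image Z.cont).isClosed.isOpen_compl.mem_nhds n1,
        Filter.eventually_all.2 n2] with s a b
      have fin : ∀ j z, ‖z‖ ≤ ρ → s = D j z → s ∈ U := fun j z c e => by
        obtain rfl : j = i := by_contra fun d =>
          b j d ⟨z, mem_closedBall_zero_iff.2 c, e.symm⟩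
        exact e ▸ hb (mem_closedBall_zero_iff.2 c)
      rcases h s with ⟨j, e⟩ | ⟨j, x, c, e⟩ | c
      · exact fin j 0 (by simpa only [norm_zero] using hρ.le) (e.trans (D0 j).symm)
      · obtain ⟨z, e', d⟩ := deep j x _ (by linarith only [hε, q]) c
        refine fin j z (d.trans ?_) (e.symm.trans e')
        rw [div_le_iff₀ (by linarith), sub_neg_eq_add, mul_add, mul_div_cancel₀ _ hρ.ne']
        nlinarith only [hε, hρ]
      · exact absurd c a
    · rw [← mapexp, Filter.map_map, comp, De]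
      exact (Go i).nhds_le w
  exact ⟨{ Z with
    γ := γ, fr := fr, t := t, ε := ε, D := D, opn := opn, t_pos := ht, ε_pos := hε, fr_B := hB
    fr_γ := hγ, stab := hst, collar := col
    emb := fun i => .of_continuous_injective_isOpenMap (Dc i) (fun z z' e => (Di i i z z' e).2) (Do i)
    disj := fun i j z w e => (Di i j z w e).1
    D0 := D0
    Dπ := fun i s r hr => by rw [Dπ i s r hr, baseQ_exp hε s hr] }, rfl⟩

end Pool.Agent.MP_646035_al.NO
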