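import Pool.Agent.MP_646035_al.Mg.NO_Comb
import Pool.Agent.MP_646035_al.Mg.NO_Tw
import Pool.Agent.MP_646035_al.Mg.NO_Cross
import Pool.Agent.MP_646035_al.Mg.NO_Baer
import Pool.Agent.MP_646035_al.Mg.NO_Iface
import Pool.Agent.MP_646035_al.Mg.NB_Goal

attribute [-instance] Prod.instSMul Prod.mulAction CommGroup.toDivisionCommMonoid Semiring.toMonoid
  MonTypeEquivalenceMon.monMonoid NonUnitalRingHomClass.toMulHomClass SMulWithZero.toSMulZeroClass
  CommSemiring.toSemiring littleWedderburn GroupConeClass.toSubmonoidClass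
  SemigroupWithZero.toSemigroup ESeminormedAddCommMonoid.toAddCommMonoid
  RingConeClass.toSubsemiringClass AddMonoidWithOne.toAddMonoid AddQuantale.instAddLeftMono
  AddCommGroup.toAddGroup RKHS.instFunLike SetLike.GradeZero.instMonoid Algebra.toSMul
  NonUnitalAlgSemiHomClass.toMulHomClass ESeminormedAddMonoid.toAddMonoid
  MonoidWithZero.toMulZeroOneClass SubsemiringClass.toSubmonoidClass MonoidWithZero.toMonoid
  T5Space.toT1Space NonAssocSemiring.toMulZeroOneClass NormedRing.toRing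
  IdemSemiring.toCanonicallyOrderedAdd DivisionSemiring.toSemiring DivisionRing.toDivInvMonoid
  SubringClass.toSubsemiringClass NumberField.to_charZero NonUnitalNonAssocSemiring.toAddCommMonoid
  IdemSemiring.toSemiring SetLike.GradeZero.instSemiring GroupWithZero.toDivInvMonoid
  NonUnitalRing.toNonUnitalNonAssocRing SeminormedRing.toRing AddQuantale.instAddRightMono

/-!
The surface with cross caps as a quotient of the plane.
-/

namespace Pool.Agent.MP_646035_al.NO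

open Pool.Agent.MP_4a6971_al.H66 Pool.Agent.MP_4a6971_al.H83 Set Topology Filter MC

variable {Γ : Type} [Group Γ] {Y : MC.Fuchs Γ} {S : Type} [TopologicalSpace S] {m : ℕ}

theorem Cap.bf_κ (K : Cap Γ) {N : V} (h : N ∈ K.C) (x : X) : bf N (K.κ N • x) = -bf N x :=
  Cap.κ_bf h x.1

theorem Cap.T_smul (K : Cap Γ) (γ : Γ) {x : X} (h : x ∈ K.T) : K.Y.σ γ • x ∈ K.T := fun N hN => by
  have := h _ (K.smul γ⁻¹ N hN)
  rwa [← bf_smul (K.Y.σ γ), map_inv, smul_inv_smul] at this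

theorem Cap.T_nhds (K : Cap Γ) {x : X} (h : x ∈ K.T0) : K.T ∈ 𝓝 x := by
  have a : ∀ᶠ y in 𝓝 x, cd oX y < cd oX x + 1 :=
    ContinuousAt.eventually_lt (by fun_prop) continuousAt_const (lt_add_one _)
  have b : ∀ᶠ y in 𝓝 x, ∀ N ∈ {N | N ∈ K.Y.per ∧ |Bf N o| ≤ cd oX x + 1}, N ∈ K.C → 0 < bf N y := by
    refine (eventually_all_finite (MC.tw1_per_fin K.Y _)).2 fun N _ => ?_
    by_cases c : N ∈ K.C
    · exact (continuousAt_const.eventually_lt (continuous_bf N).continuousAt (h N c)).mono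
        fun _ d _ => d
    · exact .of_forall fun _ d => absurd d c
  filter_upwards [a, b] with y a b N hN
  by_contra! c
  have d := abs_Bf_le_of_sign (K.Y.pk_unit (K.sub hN)) H2_o y.2
    (mul_nonpos_of_nonneg_of_nonpos (K.Y.per_o N (K.sub hN)).le c.le)
  rw [ch_comm] at d
  exact c.not_gt (b N ⟨K.sub hN, d.trans a.le⟩ hN)

section

variable (Z : MC.Model Y S m) (R : Finset (Fin m))

/-- The glide reflection along the line `B i`. -/
noncomputable def gld (i : Fin m) : Isom := Z.fr i * (flp * dil (Z.t i / 2)) * (Z.fr i)⁻¹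

theorem gld_fm (i : Fin m) (s r : ℝ) :
    gld Z i • Z.fr i • fm s r = Z.fr i • fm (s + Z.t i / 2) (-r) := by
  rw [gld, mul_smul, inv_smul_smul, mul_smul, mul_smul, dil_fm, flp_fm]

theorem gld_sq (i : Fin m) : gld Z i * gld Z i = Y.σ (Z.γ i) := by
  have : flp * dil (Z.t i / 2) * (flp * dil (Z.t i / 2)) = dil (Z.t i) := by
    rw [mul_assoc, ← mul_assoc (dil _), ← flp_mul_dil, ← mul_assoc, ← mul_assoc, flp_mul_flp,
      one_mul, ← dil_add, add_halves]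
  rw [eq_mul_inv_of_mul_eq (Z.fr_γ i), ← this, gld]
  group

theorem cov_orb {i j : Fin m} {γ δ : Γ} (h : Y.σ γ • Z.B i = Y.σ δ • Z.B j) :
    i = j ∧ Y.σ γ * gld Z i * (Y.σ γ)⁻¹ = Y.σ δ * gld Z j * (Y.σ δ)⁻¹ := by
  have e : Y.σ (δ⁻¹ * γ) • Z.B i = Z.B j := by rw [map_mul, map_inv, mul_smul, h, inv_smul_smul]
  obtain ⟨z, hz, -⟩ := Z.exists_z j (x := Y.σ (δ⁻¹ * γ) • Z.lg i 0) (by
    rw [← e, bf_smul]
    exact (Z.lg_le i le_rfl).trans_lt Z.ε_pos)
  rw [Z.π_smul, Z.π_lg] at hz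
  obtain rfl := Z.disj _ _ _ _ hz
  obtain ⟨k, hk⟩ := Z.stab _ _ e
  have c : Commute (Y.σ (δ⁻¹ * γ)) (gld Z i) := by
    rw [← hk, map_zpow, ← gld_sq]
    exact ((Commute.refl _).mul_left (Commute.refl _)).zpow_left k
  refine ⟨rfl, ?_⟩
  rw [show Y.σ γ = Y.σ δ * Y.σ (δ⁻¹ * γ) by rw [← map_mul, mul_inv_cancel_left], mul_assoc (Y.σ δ),
    c.eq]
  group

open Classical in
/-- The glide reflection along a boundary line. -/
noncomputable def kap (N : V) : Isom :=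
  if h : ∃ p : Fin m × Γ, N = Y.σ p.2 • Z.B p.1 then
    Y.σ h.choose.2 * gld Z h.choose.1 * (Y.σ h.choose.2)⁻¹ else 1

theorem kap_eq (i : Fin m) (γ : Γ) : kap Z (Y.σ γ • Z.B i) = Y.σ γ * gld Z i * (Y.σ γ)⁻¹ := by
  have h : ∃ p : Fin m × Γ, Y.σ γ • Z.B i = Y.σ p.2 • Z.B p.1 := ⟨(i, γ), rfl⟩
  rw [kap, dif_pos h, (cov_orb Z h.choose_spec).2]

/-- Cross caps at the holes in `R`. -/
noncomputable def cap : Cap Γ where
  Y := Y
  C := {N | ∃ i ∈ R, ∃ γ, N = Y.σ γ • Z.B i}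
  sub := by
    rintro _ ⟨i, -, γ, rfl⟩
    exact Y.per_smul γ _ (Z.B_per i)
  smul := by
    rintro δ _ ⟨i, hi, γ, rfl⟩
    exact ⟨i, hi, δ * γ, by rw [map_mul, mul_smul]⟩
  κ := kap Z
  gl := by
    rintro _ ⟨i, -, γ, rfl⟩
    rw [kap_eq]
    exact Gl.conj ⟨(Z.fr i)⁻¹, _, half_pos (Z.t_pos i), by rw [inv_inv, gld]⟩ _
  sq := by
    rintro _ ⟨i, -, γ, rfl⟩
    refine ⟨γ * Z.γ i * γ⁻¹, ?_, ?_, fun δ h => ?_⟩
    · rw [kap_eq, map_mul, map_mul, map_inv, ← gld_sq]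
      group
    · rw [map_mul, map_mul, map_inv]
      exact ((Z.ker_ax i).conj _).2
    · obtain ⟨k, hk⟩ := Z.stab i (γ⁻¹ * δ * γ) (by
        rw [map_mul, map_mul, map_inv, mul_smul, mul_smul, h, inv_smul_smul])
      exact ⟨k, by
        dsimp only at hk ⊢
        rw [conj_zpow, hk]
        group⟩
  eqv := by
    rintro δ _ ⟨i, -, γ, rfl⟩
    rw [← mul_smul, ← map_mul, kap_eq, kap_eq, map_mul]
    group

theorem cov_idx (k : Fin (Z.marks R).b) : ∃ i ∈ R, (Z.marks R).d k = Z.D i :=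
  ⟨_, R.orderEmbOfFin_mem rfl k, rfl⟩

theorem cov_idx' {i : Fin m} (h : i ∈ R) : ∃ k, (Z.marks R).d k = Z.D i := by
  obtain ⟨k, rfl⟩ : i ∈ range (R.orderEmbOfFin rfl) := by
    rw [Finset.range_orderEmbOfFin]
    exact h
  exact ⟨k, rfl⟩

theorem cov_cut (x : X) : (∀ k z, ‖z‖ < 1 → (Z.marks R).d k z ≠ Z.π x) ↔ x ∈ (cap Z R).T := by
  have p := Z.ε_pos
  constructor
  · rintro h _ ⟨i, hi, γ, rfl⟩
    by_contra! c
    rw [← smul_inv_smul (Y.σ γ) x, bf_smul, ← map_inv] at c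
    obtain ⟨z, a, b⟩ := Z.exists_z i (c.trans p)
    obtain ⟨k, e⟩ := cov_idx' Z R hi
    exact h k z (b ▸ (div_lt_one (by linarith only [p, c])).2 (by linarith only [c]))
      (e ▸ a.symm.trans (Z.π_smul _ _))
  · intro h k z hz e
    obtain ⟨i, hi, d⟩ := cov_idx Z R k
    rw [d] at e
    have h0 : z ≠ 0 := fun a => (Z.rng _).1 ⟨x, rfl⟩ i (by rw [← e, a, Z.D0])
    obtain ⟨y, y1, y2⟩ := Z.exists_pt i h0
    obtain ⟨γ, rfl⟩ := (Z.fib _ _).1 (e.symm.trans y1.symm)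
    have := h _ ⟨i, hi, γ, rfl⟩
    rw [bf_smul, y2] at this
    exact this.not_gt (mul_neg_of_pos_of_neg p
      (sub_neg.2 ((one_lt_inv₀ (norm_pos_iff.2 h0)).2 hz)))

theorem cov_near {N : V} (hN : N ∈ (cap Z R).C) {x : X} (h0 : 0 ≤ bf N x) (h1 : bf N x < Z.ε) :
    x ∈ (cap Z R).T := fun M hM => by
  by_contra! c
  obtain rfl := Z.collar _ ((cap Z R).sub hM) _ ((cap Z R).sub hN) x (c.trans Z.ε_pos) h1
  exact c.not_ge h0

/-- On a boundary line the glide reflection is the antipodal map of the boundary circle. -/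
theorem cov_anti (i : Fin m) (γ : Γ) {x : X} (h : bf (Y.σ γ • Z.B i) x = 0) :
    ∃ z, ‖z‖ = 1 ∧ Z.π x = Z.D i z ∧ Z.π (kap Z (Y.σ γ • Z.B i) • x) = Z.D i (-z) := by
  obtain ⟨y, rfl⟩ := MulAction.surjective (Y.σ γ) x
  rw [bf_smul] at h
  obtain ⟨s, e⟩ := Z.exists_fm i y
  have p := Z.ε_pos
  have q := Z.t_pos i
  rw [h] at e
  subst e
  refine ⟨_, ?_, (Z.π_smul _ _).trans (Z.Dπ i s 0 p), ?_⟩
  · rw [norm_mul, Complex.norm_exp_ofReal_mul_I, sub_zero, div_self p.ne']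
    simp
  · rw [kap_eq, mul_smul, inv_smul_smul, mul_smul, Z.π_smul, gld_fm, neg_zero, Z.Dπ i _ 0 p,
      show 2 * Real.pi * (s + Z.t i / 2) / Z.t i = 2 * Real.pi * s / Z.t i + Real.pi by field_simp,
      Complex.ofReal_add, add_mul, Complex.exp_add, Complex.exp_pi_mul_I]
    congr 1
    ring

/-- The map from the tile. -/
noncomputable def pT (x : (cap Z R).T) : (Z.marks R).Cross :=
  Quot.mk _ ⟨Z.π x, (cov_cut Z R x).2 x.2⟩

theorem pT_cont : Continuous (pT Z R) :=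
  continuous_quot_mk.comp ((Z.cont.comp continuous_subtype_val).subtype_mk _)

/-- The point of the surface with cross caps at one of the other holes. -/
noncomputable def cC (j : Fin Rᶜ.card) : (Z.marks R).Cross :=
  Quot.mk _ ⟨Z.ctr (Rᶜ.orderEmbOfFin rfl j), fun k z _ e => by
    obtain ⟨i, hi, d⟩ := cov_idx Z R k
    rw [d, ← Z.D0] at e
    exact Finset.mem_compl.1 (Rᶜ.orderEmbOfFin_mem rfl j) (Z.disj _ _ _ _ e ▸ hi)⟩

theorem cov_ctr {a b : (Z.marks R).Cut} (h : Quot.mk (Z.marks R).Anti a = Quot.mk _ b) (j : Fin m) :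
    a.1 = Z.ctr j ↔ b.1 = Z.ctr j := by
  refine (congrArg (Quot.lift (fun a : (Z.marks R).Cut => a.1 = Z.ctr j) ?_) h).to_iff
  rintro a b ⟨k, z, hz, e, e'⟩
  obtain ⟨i, -, d⟩ := cov_idx Z R k
  have : ∀ w : ℂ, ‖w‖ = 1 → (Z.marks R).d k w ≠ Z.ctr j := fun w hw c => by
    rw [d, ← Z.D0] at c
    obtain rfl := Z.disj _ _ _ _ c
    rw [(Z.emb i).injective c] at hw
    simp at hw
  rw [e, e']
  exact propext (iff_of_false (this z hz) (this _ (by rwa [norm_neg])))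

theorem cov_fib {x y : (cap Z R).T} (h : pT Z R x = pT Z R y) :
    ∃ g ∈ (cap Z R).G, x.1 = g • y.1 := by
  let Φ : (Z.marks R).Cut → Set X := fun a =>
    {x | ∃ g ∈ (cap Z R).G, Z.π (g • x) = a.1}
  have key : ∀ a b, (Z.marks R).Anti a b → Φ a ⊆ Φ b := by
    rintro a b ⟨k, z, hz, e, e'⟩ x ⟨g, g1, g2⟩
    obtain ⟨i, hi, d⟩ := cov_idx Z R k
    rw [d] at e e'
    obtain ⟨y, y1, y2⟩ := Z.exists_pt i (z := z) (by rintro rfl; simp at hz)
    obtain ⟨γ, hγ⟩ := (Z.fib _ _).1 (g2.trans (e.trans y1.symm))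
    obtain ⟨w, -, w1, w2⟩ := cov_anti Z i γ (x := g • x) (by rw [hγ, bf_smul, y2, hz]; simp)
    refine ⟨_, mul_mem ((cap Z R).κ_mem ⟨i, hi, γ, rfl⟩) g1, ?_⟩
    rw [mul_smul, e', ← (Z.emb i).injective (w1.symm.trans (g2.trans e))]
    exact w2
  have e : Φ _ = Φ _ := congrArg (Quot.lift Φ fun a b r => Subset.antisymm (key a b r)
    (key b a (let ⟨k, z, hz, e, e'⟩ := r; ⟨k, -z, by rwa [norm_neg], e', by rwa [neg_neg]⟩))) h
  obtain ⟨g, g1, g2⟩ := (Set.ext_iff.1 e x.1).1 ⟨1, one_mem _, by rw [one_smul]⟩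
  obtain ⟨γ, hγ⟩ := (Z.fib _ _).1 g2
  exact ⟨_, mul_mem (inv_mem g1) ((cap Z R).σ_mem γ), by
    rw [mul_smul, eq_inv_smul_iff]
    exact hγ⟩

theorem cov_well {x y : (cap Z R).T} {g : Isom} (hg : g ∈ (cap Z R).G) (h : x.1 = g • y.1) :
    pT Z R x = pT Z R y := by
  rcases Cap.nf hg with ⟨γ, rfl⟩ | ⟨N, hN, ⟨γ, rfl⟩ | ⟨M, hM, n, a⟩⟩
  · exact congrArg (Quot.mk _) (Subtype.ext ((congrArg Z.π h).trans (Z.π_smul _ _)))
  · have a := x.2 N hN
    have b := (cap Z R).T_smul γ y.2 N hN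
    rw [h, mul_smul] at a
    have c := (cap Z R).bf_κ hN (Y.σ γ • y.1)
    obtain ⟨i, hi, δ, rfl⟩ := hN
    obtain ⟨z, z1, z2, z3⟩ := cov_anti Z i δ (x := Y.σ γ • y.1)
      (le_antisymm (neg_nonneg.1 (a.trans_eq c)) b)
    obtain ⟨k, d⟩ := cov_idx' Z R hi
    refine (Quot.sound ⟨k, z, z1, ?_, ?_⟩).symm <;> rw [d]
    · exact (Z.π_smul γ _).symm.trans z2
    · exact (congrArg Z.π (h.trans (mul_smul _ _ _))).trans z3
  · have b := a y y.2
    have c := x.2 N hN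
    rw [← h] at b
    obtain ⟨u, hu⟩ := MulAction.surjective ((cap Z R).κ N) x.1
    have d := (cap Z R).bf_κ hN u
    rw [← hu, bf_smul] at b
    rw [← hu] at c
    exact (n (Z.collar _ ((cap Z R).sub hM) _ ((cap Z R).sub hN) u (b.trans_lt Z.ε_pos)
      ((neg_nonneg.1 (c.trans_eq d)).trans_lt Z.ε_pos))).elim

/-- The surface with cross caps is the quotient of the plane, up to the remaining centres. -/
theorem exists_ends {W : Fuchs (cap Z R).G} (hW : (cap Z R).Is W) :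
    Nonempty (Ends W (Z.marks R).Cross Rᶜ.card) := by
  choose u u1 u2 using (cap Z R).cover
  obtain ⟨π, hπ⟩ : ∃ π : X → (Z.marks R).Cross, ∀ x, ∀ g ∈ (cap Z R).G, ∀ h : g • x ∈ (cap Z R).T,
      π x = pT Z R ⟨_, h⟩ := ⟨fun x => pT Z R ⟨_, u2 x⟩, fun x g hg h =>
    cov_well Z R (mul_mem (u1 x) (inv_mem hg)) (by rw [mul_smul, inv_smul_smul])⟩
  have p1 : ∀ x (h : x ∈ (cap Z R).T), π x = pT Z R ⟨x, h⟩ := fun x h => by
    simpa only [one_smul] using hπ x 1 (one_mem _) (by rwa [one_smul])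
  have p2 : ∀ g ∈ (cap Z R).G, ∀ x, π (g • x) = π x := fun g hg x =>
    (hπ _ _ (u1 _) (u2 _)).trans ((hπ x _ (mul_mem (u1 (g • x)) hg)
      (by rw [mul_smul]; exact u2 _)).trans (congrArg _ (Subtype.ext (mul_smul _ _ _)))).symm
  have c1 : ContinuousOn π (cap Z R).T := continuousOn_iff_continuous_domRestrict.2
    ((pT_cont Z R).congr fun x => (p1 x.1 x.2).symm)
  have c2 : ∀ x ∈ (cap Z R).T, ContinuousAt π x := fun x hx => by
    by_cases a : x ∈ (cap Z R).T0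
    · exact c1.continuousAt ((cap Z R).T_nhds a)
    obtain ⟨N, hN, b⟩ : ∃ N ∈ (cap Z R).C, bf N x ≤ 0 := by
      by_contra! b
      exact a b
    have b0 := le_antisymm b (hx N hN)
    have d : ContinuousWithinAt π (((cap Z R).κ N • ·) ⁻¹' (cap Z R).T) x :=
      ((c1.comp (continuous_const_smul _).continuousOn fun _ h => h).congr
        fun y _ => (p2 _ ((cap Z R).κ_mem hN) y).symm) x
        (cov_near Z R hN (by rw [(cap Z R).bf_κ hN, b0, neg_zero])
          (by rw [(cap Z R).bf_κ hN, b0, neg_zero]; exact Z.ε_pos))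
    refine ((c1 x hx).union d).continuousAt ?_
    filter_upwards [(continuous_bf N).abs.continuousAt.eventually_lt continuousAt_const
      (show |bf N x| < Z.ε by rw [b0, abs_zero]; exact Z.ε_pos)] with y hy
    rcases le_total 0 (bf N y) with e | e
    · exact Or.inl (cov_near Z R hN e (abs_lt.1 hy).2)
    · exact Or.inr (cov_near Z R hN (by rwa [(cap Z R).bf_κ hN, neg_nonneg])
        (by rw [(cap Z R).bf_κ hN]; linarith [(abs_lt.1 hy).1]))
  have nC : ∀ j γ, Y.σ γ • Z.B (Rᶜ.orderEmbOfFin rfl j) ∉ (cap Z R).C := fun j γ ⟨i, hi, δ, e⟩ =>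
    Finset.mem_compl.1 (Rᶜ.orderEmbOfFin_mem rfl j) ((cov_orb Z e).1 ▸ hi)
  have idx : ∀ i, i ∉ R → ∃ j, Rᶜ.orderEmbOfFin rfl j = i := fun i hi => by
    change i ∈ range (Rᶜ.orderEmbOfFin rfl)
    rw [Finset.range_orderEmbOfFin]
    exact Finset.mem_compl.2 hi
  refine ⟨{ ctr := cC Z R
            inj := fun i j e => (Rᶜ.orderEmbOfFin rfl).injective (Z.inj ((cov_ctr Z R e _).2 rfl))
            π := π
            cont := continuous_iff_continuousAt.2 fun x => ?_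
            rng := fun s => ⟨?_, fun h => ?_⟩
            fib := fun x y => ⟨fun e => ?_, ?_⟩
            B := fun j => Z.B (Rᶜ.orderEmbOfFin rfl j)
            B_per := fun j => hW.per ▸ ⟨1, one_mem _, _, Z.B_per _, by simpa only [map_one, one_smul] using nC j 1,
              (one_smul _ _).symm⟩
            orb := fun N hN => ?_
            lim := fun j U hU => ?_ }⟩
  · exact ((c2 _ (u2 x)).comp (f := (u x • ·)) (continuous_const_smul _).continuousAt).congr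
      (.of_forall fun y => p2 _ (u1 x) y)
  · rintro ⟨x, rfl⟩ j e
    rw [hπ x _ (u1 x) (u2 x)] at e
    exact (Z.rng _).1 ⟨_, rfl⟩ _ ((cov_ctr Z R e _).2 rfl)
  · obtain ⟨a, rfl⟩ := Quot.exists_rep s
    obtain ⟨x, hx⟩ := (Z.rng a.1).2 fun i e => by
      by_cases hi : i ∈ R
      · obtain ⟨k, d⟩ := cov_idx' Z R hi
        exact a.2 k 0 (by simp) (by rw [d, Z.D0, e])
      · obtain ⟨j, rfl⟩ := idx i hi
        exact h j (congrArg _ (Subtype.ext e))
    exact ⟨x, (p1 x ((cov_cut Z R x).1 (hx ▸ a.2))).trans (congrArg (Quot.mk _) (Subtype.ext hx))⟩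
  · rw [hπ x _ (u1 x) (u2 x), hπ y _ (u1 y) (u2 y)] at e
    obtain ⟨g, g1, g2⟩ := cov_fib Z R e
    refine ⟨⟨_, mul_mem (inv_mem (u1 x)) (mul_mem g1 (u1 y))⟩, ?_⟩
    rw [hW.σ, Subgroup.subtype_apply, mul_smul, mul_smul, eq_inv_smul_iff]
    exact g2
  · rintro ⟨g, rfl⟩
    rw [hW.σ]
    exact p2 _ g.2 y
  · rw [hW.per] at hN
    obtain ⟨g, hg, M, hM, n, rfl⟩ := hN
    obtain ⟨i, γ, rfl⟩ := Z.orb M hM
    obtain ⟨j, rfl⟩ := idx i fun hi => n ⟨i, hi, γ, rfl⟩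
    exact ⟨j, ⟨_, mul_mem hg ((cap Z R).σ_mem γ)⟩, by rw [hW.σ]; exact (mul_smul _ _ _).symm⟩
  · obtain ⟨U', a, b⟩ := (mem_nhds_subtype _ _ _).1
      (continuous_quot_mk.continuousAt.preimage_mem_nhds hU)
    obtain ⟨r, hr⟩ := Z.lim _ U' a
    refine ⟨min r 0, fun x hx => ?_⟩
    have t : x ∈ (cap Z R).T := fun M hM => by
      by_contra! c
      refine nC j 1 ?_
      rwa [map_one, one_smul, ← Z.collar _ ((cap Z R).sub hM) _ (Z.B_per _) x (c.trans Z.ε_pos)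
        ((hx.trans (min_le_right _ _)).trans_lt Z.ε_pos)]
    rw [p1 x t]
    exact b (hr x (hx.trans (min_le_left _ _)))

end

end Pool.Agent.MP_646035_al.NO

/-!
The mapping class group of a surface with cross caps acts on the group of the model.
-/

namespace Pool.Agent.MP_646035_al.NO

open Pool.Agent.MP_4a6971_al Pool.Agent.MP_4a6971_al.H66 Pool.Agent.MP_4a6971_al.H83
  Pool.Agent.MP_4a6971_al.Mcg Set Topology MC

variable {Γ : Type} [Group Γ] {S : Type} [TopologicalSpace S] {m : ℕ}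

section

variable {Y : Fuchs Γ} (Z : Model Y S m) (T : Finset (Fin m))

theorem Model.act (N : Subgroup (Z.marks T).Adm) [N.Normal]
    (h1 : ∀ f ∈ N, ∃ F, Y.Lifts Z.π f.1 F 1)
    (h2 : ∀ (f : (Z.marks T).Adm) F, Y.Lifts Z.π f.1 F 1 →
      (∀ i ∈ T, ∀ x, bf (Z.B i) x ≤ 0 → F x = x) → f ∈ N) :
    ∃ j : (Z.marks T).Adm ⧸ N →* OutA (Y.A (Z.marks T) Z.π), Function.Surjective j ∧ PolyKer j := by
  obtain ⟨j, hs, hj⟩ := (Z.cov T).exists_j N h1
  refine ⟨j, hs, polyKer_of_cover Y (fun x y => eq_comm.trans (Z.fib y x)) (Z.marks T).Adm.subtype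
    (QuotientGroup.mk'_surjective _) j (fun i : T => Z.B i) (fun i => Z.B_per i) (fun h => ?_)
    (fun i h x hx => ?_) (fun h F φ a e => ?_) fun h F a b => ?_⟩
  · obtain ⟨F, φ, a⟩ := (Z.cov T).exists_lifts h.2
    exact ⟨F, φ, a.lift, a.act⟩
  · have p := Z.ε_pos
    obtain ⟨z, a, b⟩ := Z.exists_z i (hx.trans_lt p)
    rw [a]
    exact ((Z.mem_adm T).1 h.2).2 i i.2 z (b ▸ (div_le_one (by linarith)).2 (by linarith only [hx]))
  · exact Subgroup.mem_subgroupOf.1 ((QuotientGroup.eq_one_iff _).1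
      ((hj h F φ ⟨a.lift, a.act⟩).symm.trans e))
  · exact (QuotientGroup.eq_one_iff _).2 (h2 h F ⟨a.lift, a.act⟩ fun i hi => b ⟨i, hi⟩)

theorem Model.twist [T2Space S] {E : V} (hE : Y.Curve E) :
    ∃ φ ∈ Y.A (Z.marks T) Z.π, Y.IsTwist E φ := by
  let _ := MulAction.compHom X Y.σ
  have c := Z.cov T
  obtain ⟨f, F, φ, K, η, h0, h1, h2, h3, h5, h6⟩ := exists_twist (Y := Y) (fun _ _ => rfl) c.quot hE
  obtain ⟨h, k1, k2⟩ := plus_ext c.isOpen_range.isOpenEmbedding_subtypeVal f h3 h5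
  have fix : ∀ z, (∀ x, Z.π x = z → ∃ N ∈ Y.per, bf N x ≤ 0) → h z = z := fun z hz => by
    refine k2 z ?_
    rintro ⟨b, m, rfl⟩
    obtain ⟨x, rfl⟩ := c.quot.surjective b
    obtain ⟨N, n1, n2⟩ := hz x rfl
    exact h6 N n1 x (n2.trans h0.le) m
  have fP : ∀ z ∈ (Z.marks T).P, h z = z := fun z hz =>
    fix z fun x e => (c.not_ctr x (Or.inl (e ▸ hz))).elim
  refine ⟨φ, ⟨h, ⟨fun z => ⟨fun m => h.injective (fP _ m) ▸ m, fun m => (fP z m).symm ▸ m⟩,
    fun k z hz => fix _ fun x e => ?_⟩, F,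
    fun x => (congrArg Subtype.val (h1.lift x)).trans (k1 _).symm, h1.act⟩, h2⟩
  have z0 : z ≠ 0 := by
    rintro rfl
    exact c.not_ctr x (Or.inr ⟨k, e⟩)
  obtain ⟨y, y1, y2⟩ := Z.exists_pt (T.orderEmbOfFin rfl k) z0
  obtain ⟨γ, rfl⟩ := (Z.fib x y).1 (e.trans y1.symm)
  refine ⟨_, Y.per_smul γ _ (Z.B_per (T.orderEmbOfFin rfl k)), ?_⟩
  rw [bf_smul, y2]
  exact mul_nonpos_of_nonneg_of_nonpos Z.ε_pos.le
    (sub_nonpos.2 ((one_le_inv₀ (norm_pos_iff.2 z0)).2 hz))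

end

theorem Model.mod [T2Space S] {K : Cap Γ} {W : Fuchs K.G} (h : K.Is W) (Z : Model W S m)
    (T : Finset (Fin m)) : (K.mc W h).Mod (W.A (Z.marks T) Z.π) where
  inn := (Z.cov T).inn_le
  ori := fun _ ⟨_, _, F, a⟩ _ hx => Fuchs.ori ⟨F, a.act⟩ hx
  side := by
    rintro φ ⟨_, _, F, a⟩ α β γ α' β' γ' e1 e2 e3 ⟨s1, s2, s3, s⟩ ⟨t1, t2, t3, t⟩
    refine a.side (α := α) (β := β) (γ := γ) ⟨fun e => s1 (Subtype.ext e),
      fun e => s2 (Subtype.ext e), fun e => s3 (Subtype.ext e), s⟩ ?_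
    rw [e1, e2, e3]
    exact ⟨fun e => t1 (Subtype.ext e), fun e => t2 (Subtype.ext e), fun e => t3 (Subtype.ext e), t⟩
  twist _ e := Z.twist T (Cap.curve h e)

/-- The model of a surface with cross caps and marks. -/
theorem exists_model (g : ℕ) (c : Marks (Surface g)) (e : Marks c.Cross)
    (hc : 3 ≤ 2 * g + c.b + e.P.card + e.b) :
    ∃ (Γ : Type) (_ : Group Γ) (K : Cap Γ) (S : Type) (_ : TopologicalSpace S) (_ : T2Space S)
      (n : ℕ) (Z : Model K.W S n) (T : Finset (Fin n)), Nonempty (e.Ext ≃* (Z.marks T).Ext) ∧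
      (∃ ρ, K.Y.Baer ρ) ∧ (¬ (g = 0 ∧ c.b + e.P.card + e.b = 3) → ∃ E, K.Y.Curve E) ∧
      (g = 0 ∧ c.b + e.P.card + e.b = 3 → K.Y.Pants3) ∧ n = e.P.card + e.b ∧
      (0 < c.b → K.C.Nonempty) := by
  obtain ⟨Γ, _, _, Y, ⟨Z₀⟩, hb, -, hp, hE⟩ := goalModelN g (c.b + e.P.card + e.b) (by omega)
  obtain ⟨Z, -⟩ := Z₀.exists_model
  obtain ⟨R, -, hR⟩ := Finset.exists_subset_card_eq
    (s := Finset.univ (α := Fin (c.b + e.P.card + e.b))) (n := c.b) (by simp only [Finset.card_univ, Fintype.card_fin]; omega)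
  have hn : Rᶜ.card = e.P.card + e.b := by
    rw [Finset.card_compl, hR, Fintype.card_fin]
    omega
  obtain ⟨Z₁⟩ := exists_ends Z R (W := (cap Z R).W) ⟨rfl, rfl⟩
  obtain ⟨Z', -⟩ := Z₁.exists_model
  obtain ⟨T, -, hT⟩ := Finset.exists_subset_card_eq (s := Finset.univ (α := Fin Rᶜ.card))
    (n := e.b) (by rw [Finset.card_univ, Fintype.card_fin]; omega)
  obtain ⟨u⟩ := Marks.cross_equiv (loc_surface g) c (Z.marks R) hR.symm
  have := (Z.marks R).cross_conn (loc_surface g)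
  have l := (Z.marks R).cross_loc (loc_surface g)
  refine ⟨Γ, inferInstance, cap Z R, _, inferInstance, inferInstance, _, Z', T, ?_, hb, hE, hp,
    hn, fun h => ?_⟩
  · obtain ⟨e', a, b, ⟨i⟩⟩ := Marks.ext_map u e
    obtain ⟨i'⟩ := Marks.ext_equiv l e' (Z'.marks T) (by rw [Z'.card_P, hT]; omega)
      (b.trans hT.symm)
    exact ⟨i.trans i'⟩
  · obtain ⟨i, hi⟩ := Finset.card_pos.1 (hR ▸ h)
    exact ⟨_, i, hi, 1, rfl⟩

/-- The action of the group `G` of classes of homeomorphisms on the group of a model. -/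
def Acts (G : Type) [Group G] (low crs hole : Prop) : Prop :=
  ∃ (Γ : Type) (_ : Group Γ) (K : Cap Γ) (A : Subgroup (MulAut K.G)) (j : G →* OutA A),
    (K.mc K.W ⟨rfl, rfl⟩).Mod A ∧ Function.Surjective j ∧ PolyKer j ∧
      (¬ low → ∃ E, K.Y.Curve E) ∧ (low → K.Y.Pants3) ∧ (crs → K.C.Nonempty) ∧
      (hole → K.per.Nonempty) ∧ ∀ E, K.W.Curve E → ∃ φ ∈ A, K.W.IsTwist E φ

theorem acts (g : ℕ) (c : Marks (Surface g)) (e : Marks c.Cross)
    (hc : 3 ≤ 2 * g + c.b + e.P.card + e.b) :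
    Acts e.Ext (g = 0 ∧ c.b + e.P.card + e.b = 3) (0 < c.b) (0 < e.P.card + e.b) := by
  obtain ⟨Γ, _, K, S, _, _, n, Z, T, ⟨i⟩, ⟨ρ, hρ⟩, h1, h2, rfl, h3⟩ := exists_model g c e hc
  have hb := K.baer K.W ⟨rfl, rfl⟩ ⟨K.cover, fun _ => Cap.nf⟩ hρ
  obtain ⟨j, a, b⟩ := Z.act T (Z.marks T).ZeroX (fun f ⟨H, a, b, e⟩ =>
    let ⟨G, _, g1, g2, _⟩ := (Z.cov T).lift_isotopy H a b
    ⟨G 1, fun x => by rw [g1, e], g2 1⟩) fun f _ => Z.ker_adm T hb f.2
  exact ⟨Γ, inferInstance, K, _, j.comp i.toMonoidHom, Z.mod _ T, a.comp i.surjective, b.comp i,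
    h1, h2, h3, fun h => ⟨_, Z.B_per ⟨0, h⟩⟩, fun _ => Z.twist T⟩

end Pool.Agent.MP_646035_al.NO

/-!
Subgroups of finite index.
-/

namespace Pool.Agent.MP_646035_al.NO

open Pool.Agent.MP_4a6971_al Pool.Agent.MP_4a6971_al.H66 Pool.Agent.MP_4a6971_al.H83
  Pool.Agent.MP_4a6971_al.Mcg Set Topology MC

variable {Γ : Type} [Group Γ] {Y : Fuchs Γ}

theorem Fuchs.IsTwist.pow {E : V} (hE : Y.Curve E) {φ : MulAut Γ} (h : Y.IsTwist E φ) {n : ℕ}
    (hn : n ≠ 0) : Y.IsTwist E (φ ^ n) := by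
  obtain ⟨τ, P, Q, t1, t2, hP, hQ, p1, q1, w, a, b⟩ := h
  have hτ : φ τ = τ := a τ fun γ => by
    have self : 0 < Bf E P * Bf E (Y.σ τ • P) := by
      rw [show Bf E (Y.σ τ • P) = Bf E P by rw [← Bf_isom (Y.σ τ) E P, t2.2]]
      positivity
    by_cases e1 : Y.σ γ • E = E
    · rwa [e1]
    by_cases e2 : Y.σ γ • E = -E
    · simpa only [e2, Bf_neg_left, mul_neg, neg_mul, neg_neg, gt_iff_lt] using self
    have e3 : Y.σ (τ⁻¹ * γ) • E = (Y.σ τ)⁻¹ • Y.σ γ • E := by rw [map_mul, map_inv, mul_smul]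
    have w1 := w γ e1 e2
    have w2 := w (τ⁻¹ * γ) (fun e => e1 (by rwa [e3, inv_smul_eq_iff, t2.2] at e))
      fun e => e2 (by rwa [e3, inv_smul_eq_iff, t2.neg.2] at e)
    have s := hE.simple γ
    have u : Bf (Y.σ γ • E) (Y.σ γ • E) = 1 := by rw [Bf_isom, t2.1]
    rw [e3, Bf_move (Y.σ τ)⁻¹, Bf_move (Y.σ τ)⁻¹, inv_inv] at w2
    generalize Y.σ γ • E = W at *
    obtain ⟨f, t, hf, h0⟩ := (Y.hypA t1 t2).fr0 t2
    have hx : H2 (f • P) := hP.smul f
    have hy : H2 (f • Q) := hQ.smul f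
    rw [Cr, ← Bf_isom f, h0, Bf_E0] at s
    rw [← Bf_isom f, h0, Bf_E0] at p1 q1
    rw [← Bf_isom f] at u
    rw [← Bf_isom f W P, ← Bf_isom f W Q] at w1
    rw [← Bf_isom f W (_ • P), ← Bf_isom f W (_ • Q), hf.one, hf.one] at w2
    rw [← Bf_isom f W P, ← Bf_isom f W (_ • P), hf.one]
    have x1 : 0 < -(f • Q).2.1 * (f • P).1 + (f • P).2.1 * (f • Q).1 := by
      linarith only [mul_pos p1 hy.2, mul_pos (neg_pos.2 q1) hx.2]
    have x3 : 0 < -(f • Q).2.1 * (f • P).2.2 + (f • P).2.1 * (f • Q).2.2 := by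
      linarith only [mul_pos p1 hy.pos, mul_pos (neg_pos.2 q1) hx.pos]
    have k1 : -(f • Q).2.1 * Bf (f • W) (f • P) + (f • P).2.1 * Bf (f • W) (f • Q) =
        -((f • W).1 * (-(f • Q).2.1 * (f • P).2.2 + (f • P).2.1 * (f • Q).2.2) +
          (f • W).2.2 * (-(f • Q).2.1 * (f • P).1 + (f • P).2.1 * (f • Q).1)) / 2 := by
      simp only [Bf]
      ring
    have k2 : -(f • Q).2.1 * Bf (f • W) (dil t • f • P) + (f • P).2.1 * Bf (f • W) (dil t • f • Q) =
        -((f • W).1 * ((-(f • Q).2.1 * (f • P).2.2 + (f • P).2.1 * (f • Q).2.2) * Real.exp t) +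
          (f • W).2.2 * ((-(f • Q).2.1 * (f • P).1 + (f • P).2.1 * (f • Q).1) *
            Real.exp (-t))) / 2 := by
      simp only [Bf, dil_smul]
      ring
    have pr : 0 ≤ (f • W).1 * (f • W).2.2 := by
      simp only [Bf] at u
      linarith only [u, s]
    have y3 := mul_pos x3 (Real.exp_pos t)
    have y1 := mul_pos x1 (Real.exp_pos (-t))
    have q2 := neg_pos.2 q1
    generalize (-(f • Q).2.1 * (f • P).2.2 + (f • P).2.1 * (f • Q).2.2) * Real.exp t = c' at *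
    generalize (-(f • Q).2.1 * (f • P).1 + (f • P).2.1 * (f • Q).1) * Real.exp (-t) = a' at *
    generalize -(f • Q).2.1 * (f • P).2.2 + (f • P).2.1 * (f • Q).2.2 = c at *
    generalize -(f • Q).2.1 * (f • P).1 + (f • P).2.1 * (f • Q).1 = a at *
    generalize -(f • Q).2.1 = l at *
    rcases mul_pos_iff.1 w1 with ⟨c1, c2⟩ | ⟨c1, c2⟩ <;>
      rcases mul_pos_iff.1 w2 with ⟨d1, d2⟩ | ⟨d1, d2⟩
    · exact mul_pos c1 d1
    · have := add_pos (mul_pos q2 c1) (mul_pos p1 c2)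
      have := add_neg (mul_neg_of_pos_of_neg q2 d1) (mul_neg_of_pos_of_neg p1 d2)
      rcases mul_nonneg_iff.1 pr with ⟨g1, g2⟩ | ⟨g1, g2⟩ <;> nlinarith
    · have := add_neg (mul_neg_of_pos_of_neg q2 c1) (mul_neg_of_pos_of_neg p1 c2)
      have := add_pos (mul_pos q2 d1) (mul_pos p1 d2)
      rcases mul_nonneg_iff.1 pr with ⟨g1, g2⟩ | ⟨g1, g2⟩ <;> nlinarith
    · exact mul_pos_of_neg_of_neg c1 d1
  refine ⟨τ ^ n, P, Q, fun e => (Y.hypA t1 t2).zpow_ne_one (k := n) (by exact_mod_cast hn)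
    (by rw [zpow_natCast, ← map_pow, e, map_one]),
    ⟨t2.1, by rw [map_pow, ← zpow_natCast, t2.zpow]⟩, hP, hQ, p1, q1, w, fun β hβ => ?_,
    fun β hβ => ?_⟩
  · clear hn
    induction n with
    | zero => rfl
    | succ n ih => rw [pow_succ, MulAut.mul_apply, a β hβ, ih]
  · clear hn
    induction n with
    | zero => simp
    | succ n ih =>
      rw [pow_succ', MulAut.mul_apply, ih, map_mul, map_mul, map_inv, map_pow, hτ, b β hβ]
      group

theorem Cap.wof {K : Cap Γ} {W : Fuchs K.G} (h : K.Is W) {A : Subgroup (MulAut K.G)}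
    (hA : (K.mc W h).Mod A) (hE : ∃ E, (K.mc W h).Two E) : WOF (OutA A) := fun H hH => by
  let A' : Subgroup (MulAut K.G) := (H.comap (QuotientGroup.mk' _)).map A.subtype
  have le : A' ≤ A := Subgroup.map_subtype_le _
  have mem : ∀ φ : A, (QuotientGroup.mk φ : OutA A) ∈ H → φ.1 ∈ A' := fun φ h => ⟨φ, h, rfl⟩
  have hA' : (K.mc W h).Mod A' := by
    refine ⟨fun φ hφ => mem ⟨φ, hA.inn hφ⟩ ?_, fun φ hφ => hA.ori φ (le hφ),
      fun φ hφ => hA.side φ (le hφ), fun E e => ?_⟩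
    · rw [(QuotientGroup.eq_one_iff _).2 (Subgroup.mem_subgroupOf.2 hφ)]
      exact one_mem _
    · obtain ⟨φ, a, b⟩ := hA.twist E e
      obtain ⟨n, n0, -, hn⟩ := Subgroup.exists_pow_mem_of_index_ne_zero hH.index_ne_zero
        (QuotientGroup.mk (⟨φ, a⟩ : A))
      exact ⟨φ ^ n, mem ((⟨φ, a⟩ : A) ^ n) hn,
        Fuchs.IsTwist.pow (Y := W) (Cap.curve h e) b n0.ne'⟩
  let k : A' →* H := ((QuotientGroup.mk' _).comp (Subgroup.inclusion le)).codRestrict H (by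
    rintro ⟨_, φ, h, rfl⟩
    exact h)
  refine low_iso (QuotientGroup.mk'_surjective _) (q := k) ?_ ?_ (NB.goalN _ _ A' hA' hE)
  · rintro ⟨q, hq⟩
    obtain ⟨φ, rfl⟩ := QuotientGroup.mk_surjective q
    exact ⟨⟨φ.1, mem φ hq⟩, rfl⟩
  · ext φ
    rw [QuotientGroup.ker_mk', MonoidHom.mem_ker, Subtype.ext_iff]
    exact (QuotientGroup.eq_one_iff (N := (Inn K.G).subgroupOf A) (Subgroup.inclusion le φ)).symm

theorem Acts.wof {G : Type} [Group G] {low crs hole : Prop} (h : Acts G low crs hole)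
    (n : ¬ low) : WOF G := by
  obtain ⟨Γ, _, K, A, j, a, b, c, d, -⟩ := h
  exact (Cap.wof _ a ((d n).imp fun _ => Cap.two _)).of b c

/-- Polynomial growth passes through a polynomially small kernel. -/
theorem polyG_of {M G : Type*} [Group M] [Group G] {j : M →* G} (h : PolyKer j) (hG : PolyG G) :
    PolyG M := fun S => by
  classical
  obtain ⟨C, d, hd⟩ := h S
  obtain ⟨C', d', hd'⟩ := hG (S.image j)
  refine ⟨C' * (C * 2 ^ d), d' + d, fun n => (low_count j S n).trans ?_⟩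
  rw [pow_add, mul_mul_mul_comm, mul_assoc C, ← ball_map]
  exact Nat.mul_le_mul (hd' n) ((hd _).trans (Nat.mul_le_mul_left _ (low_pow n d)))

theorem Acts.poly {G : Type} [Group G] {low crs hole : Prop} (h : Acts G low crs hole)
    (h1 : low) (h2 : crs) (h3 : hole) : PolyG G := by
  obtain ⟨Γ, _, K, A, j, a, -, c, -, d, e, f, -⟩ := h
  obtain ⟨_, -, -, N, n1, n2, -⟩ := f h3
  exact polyG_of c (NB.pg_low a (Cap.low _ (d h1) (e h2) ⟨N, n1, n2⟩))

/-- The non-orientable surfaces, except for the sphere with three cross caps. -/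
theorem class4n' (g : ℕ) (c : Marks (Surface g)) (e : Marks c.Cross) (h : 0 < c.b)
    (n : ¬ (g = 0 ∧ c.b = 3 ∧ e.P.card + e.b = 0)) : WOF e.Ext := by
  by_cases l : g = 0 ∧ c.b + e.P.card + e.b ≤ 3
  · obtain ⟨rfl, l⟩ := l
    have := c.cross_conn (loc_surface 0)
    have := c.cross_infinite (loc_surface 0)
    exact (Marks.ext_forget (c.cross_loc (loc_surface 0)) (3 - c.b) (fun e' h' =>
      (acts 0 c e' (by omega)).poly ⟨rfl, by omega⟩ h (by omega)) e (by omega)).wof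
  · exact (acts g c e (by omega)).wof (by omega)

/-- Part four for the non-orientable surfaces. -/
theorem class4n (g : ℕ) (k : Marks (Surface g)) (h : k.b = 1 ∨ k.b = 2) (c : Marks k.Cross)
    (H : Subgroup c.Ext) (hH : H.FiniteIndex) : WO H :=
  class4n' g k c (by omega) (by omega) H hH

theorem marks_of_loc {S : Type} [TopologicalSpace S] (h : Loc S) (x : S) (n b : ℕ) :
    ∃ c : Marks S, c.P.card = n ∧ c.b = b := by
  classical
  obtain ⟨e, he, -⟩ := h x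
  obtain ⟨s, s1, -, s2⟩ := low_shrink
  have key : ∀ (z w : ℂ) (i j : ℤ), ‖z‖ < 2 → ‖w‖ < 2 → z + 4 * i = w + 4 * j → i = j := by
    intro z w i j a b h
    have c := congrArg Complex.re h
    have a' := abs_lt.1 ((Complex.abs_re_le_norm z).trans_lt a)
    have b' := abs_lt.1 ((Complex.abs_re_le_norm w).trans_lt b)
    simp only [Complex.add_re, Complex.mul_re, Complex.re_ofNat, Complex.intCast_re,
      Complex.im_ofNat, Complex.intCast_im, mul_zero, sub_zero] at c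
    have c1 : (i : ℝ) < j + 1 := by linarith
    have c2 : (j : ℝ) < i + 1 := by linarith
    have d1 : i < j + 1 := by exact_mod_cast c1
    have d2 : j < i + 1 := by exact_mod_cast c2
    omega
  refine ⟨⟨(Finset.range n).image fun k : ℕ => e (0 + 4 * (-(k + 1) : ℤ)), b,
    fun i z => e (s z + 4 * ((i : ℕ) : ℤ)),
    fun i => he.comp ((Homeomorph.addRight _).isOpenEmbedding.comp s1), fun i j z w h => ?_,
    fun i z h => ?_⟩, ?_, rfl⟩
  · have := key _ _ _ _ (s2 z) (s2 w) (he.injective h)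
    omega
  · obtain ⟨k, -, h⟩ := Finset.mem_image.1 h
    have := key _ _ _ _ (by simp) (s2 z) (he.injective h)
    omega
  · rw [Finset.card_image_of_injective _ fun k l h => ?_, Finset.card_range]
    have := key _ _ _ _ (by simp) (by simp) (he.injective h)
    omega

/-- A surface with cross caps is a closed connected surface, and all numbers of marks occur. -/
theorem cross_types (g : ℕ) (k : Marks (Surface g)) :
    CompactSpace k.Cross ∧ T2Space k.Cross ∧ ConnectedSpace k.Cross ∧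
      (∀ x : k.Cross, ∃ d : ℂ → k.Cross, IsOpenEmbedding d ∧ d 0 = x) ∧
      ∀ n b, ∃ c : Marks k.Cross, c.P.card = n ∧ c.b = b := by
  have := k.cross_conn (loc_surface g)
  have := k.cross_infinite (loc_surface g)
  exact ⟨inferInstance, inferInstance, ⟨inferInstance⟩, k.cross_loc (loc_surface g),
    marks_of_loc (k.cross_loc (loc_surface g)) (Classical.arbitrary _)⟩

end Pool.Agent.MP_646035_al.NO
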